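import Pool.Agent.Lib.MP_26f323_al.Spec

/-!
MP_26f323_al, module ALG: the span of the colours is a commutative algebra of symmetric matrices.
-/

set_option autoImplicit false

namespace MP26f323

open Polynomial Matrix

namespace Alg

variable {G : Type} [Group G] [Fintype G]

lemma sum_coh {f : G → ℕ} (coh : ∀ (i j : ℕ) (x y : G), f x = f y →
    Set.ncard {z : G | f z = i ∧ f (z⁻¹ * x) = j} =
      Set.ncard {z : G | f z = i ∧ f (z⁻¹ * y) = j}) (F : ℕ × ℕ → ℚ) (x y : G) (h : f x = f y) :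
    ∑ w : G, F (f w, f (w⁻¹ * x)) = ∑ w : G, F (f w, f (w⁻¹ * y)) := by
  classical
  set T : Finset (ℕ × ℕ) := (Finset.univ.image fun w : G => (f w, f (w⁻¹ * x))) ∪
    (Finset.univ.image fun w : G => (f w, f (w⁻¹ * y))) with hT
  have key : ∀ z : G, (∀ w : G, (f w, f (w⁻¹ * z)) ∈ T) →
      ∑ w : G, F (f w, f (w⁻¹ * z)) =
        ∑ p ∈ T, (Set.ncard {w : G | f w = p.1 ∧ f (w⁻¹ * z) = p.2} : ℚ) * F p := by
    intro z hz
    rw [← Finset.sum_fiberwise_of_maps_to (s := Finset.univ) (t := T)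
      (g := fun w : G => (f w, f (w⁻¹ * z))) (fun w _ => hz w)]
    refine Finset.sum_congr rfl fun p _ => ?_
    rw [Finset.sum_congr rfl (g := fun _ => F p)]
    · rw [Finset.sum_const, nsmul_eq_mul]
      congr 2
      rw [← Set.ncard_coe_finset]
      congr 1
      ext w
      simp [Prod.ext_iff]
    · intro w hw
      rw [Finset.mem_filter] at hw
      rw [hw.2]
  rw [key x fun w => Finset.mem_union_left _ (Finset.mem_image_of_mem _ (Finset.mem_univ w)),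
    key y fun w => Finset.mem_union_right _ (Finset.mem_image_of_mem _ (Finset.mem_univ w))]
  refine Finset.sum_congr rfl fun p _ => ?_
  rw [coh p.1 p.2 x y h]

lemma mul_entry (f : G → ℕ) (M M' : Matrix G G ℚ) (φ φ' : ℕ → ℚ)
    (h : ∀ x y, M x y = φ (f (x⁻¹ * y))) (h' : ∀ x y, M' x y = φ' (f (x⁻¹ * y))) (x y : G) :
    (M * M') x y =
      ∑ w : G, (fun p : ℕ × ℕ => φ p.1 * φ' p.2) (f w, f (w⁻¹ * (x⁻¹ * y))) := by
  rw [Matrix.mul_apply, ← Equiv.sum_comp (Equiv.mulLeft x)]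
  refine Finset.sum_congr rfl fun w _ => ?_
  rw [h, h', Equiv.coe_mulLeft]
  beta_reduce
  rw [inv_mul_cancel_left, _root_.mul_inv_rev, mul_assoc]

lemma mul_col {f : G → ℕ} (coh : ∀ (i j : ℕ) (x y : G), f x = f y →
    Set.ncard {z : G | f z = i ∧ f (z⁻¹ * x) = j} =
      Set.ncard {z : G | f z = i ∧ f (z⁻¹ * y) = j}) (M M' : Matrix G G ℚ) (φ φ' : ℕ → ℚ)
    (h : ∀ x y, M x y = φ (f (x⁻¹ * y))) (h' : ∀ x y, M' x y = φ' (f (x⁻¹ * y))) :
    ∃ φ'' : ℕ → ℚ, ∀ x y, (M * M') x y = φ'' (f (x⁻¹ * y)) := by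
  classical
  refine ⟨fun t => if ht : ∃ g : G, f g = t then
    ∑ w : G, (fun p : ℕ × ℕ => φ p.1 * φ' p.2) (f w, f (w⁻¹ * ht.choose)) else 0, ?_⟩
  intro x y
  have ht : ∃ g : G, f g = f (x⁻¹ * y) := ⟨_, rfl⟩
  rw [mul_entry f M M' φ φ' h h' x y]
  beta_reduce
  rw [dif_pos ht]
  exact sum_coh coh (fun p : ℕ × ℕ => φ p.1 * φ' p.2) _ _ ht.choose_spec.symm

lemma symm_col {f : G → ℕ} (inv : ∀ x, f x⁻¹ = f x) (M : Matrix G G ℚ) (φ : ℕ → ℚ)
    (h : ∀ x y, M x y = φ (f (x⁻¹ * y))) : M.transpose = M := by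
  ext x y
  rw [Matrix.transpose_apply, h, h, ← inv (x⁻¹ * y), _root_.mul_inv_rev, inv_inv]

lemma algebraMap_col [DecidableEq G] {f : G → ℕ} (zero : ∀ x, f x = 0 ↔ x = 1) (a : ℚ) (x y : G) :
    (algebraMap ℚ (Matrix G G ℚ) a) x y = (fun t => if t = 0 then a else 0) (f (x⁻¹ * y)) := by
  rw [Matrix.algebraMap_matrix_apply]
  have : (f (x⁻¹ * y) = 0) ↔ x = y := by
    rw [zero, inv_mul_eq_one]
  by_cases hxy : x = y
  · rw [if_pos hxy]
    beta_reduce
    rw [if_pos (this.2 hxy)]; rfl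
  · rw [if_neg hxy]
    beta_reduce
    rw [if_neg (fun h => hxy (this.1 h))]

end Alg

theorem specAlg : SpecAlg := by
  intro f hf
  have h1 : ∀ s, ∃ φ, IsCol f (Aop f s) φ := fun s =>
    ⟨fun t => if t = s then 1 else 0, fun x y => rfl⟩
  refine ⟨h1, fun M φ h => Alg.symm_col hf.inv M φ h, fun M M' φ φ' h h' => ?_, fun s p => ?_⟩
  · obtain ⟨φ'', h''⟩ := Alg.mul_col hf.coh M M' φ φ' h h'
    refine ⟨?_, φ'', h''⟩
    have e := Alg.symm_col hf.inv (M * M') φ'' h''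
    rw [Matrix.transpose_mul, Alg.symm_col hf.inv M φ h, Alg.symm_col hf.inv M' φ' h'] at e
    exact e.symm
  · induction p using Polynomial.induction_on with
    | C a =>
      rw [aeval_C]
      exact ⟨fun t => if t = 0 then a else 0, fun x y => Alg.algebraMap_col hf.zero a x y⟩
    | add p q hp hq =>
      obtain ⟨φ, hφ⟩ := hp
      obtain ⟨ψ, hψ⟩ := hq
      rw [map_add]
      exact ⟨fun t => φ t + ψ t, fun x y => by rw [Matrix.add_apply, hφ x y, hψ x y]⟩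
    | monomial n a ih =>
      obtain ⟨φ, hφ⟩ := ih
      obtain ⟨ψ, hψ⟩ := h1 s
      rw [pow_succ, ← mul_assoc, map_mul, aeval_X]
      exact Alg.mul_col hf.coh _ _ φ ψ hφ hψ

end MP26f323
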