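import Pool.Agent.Lib.MP_26f323_al.Sss

/-!
MP_26f323_al, module BBB: soundness of the B-lemmas.
-/

set_option autoImplicit false

namespace MP26f323

open ZonM ClsM

namespace Chk

namespace BbbM

open SssM

attribute [local irreducible] T0 PAT ALL BIG ONE msk CBIG kmask OFF

open Classical in
/-- weight of a code -/
noncomputable def wt2 (F : ℕ → ℕ) (s t code : ℕ) : ℕ :=
  if Ft F s (code / 256) = s ∧ Ft F t (code % 256) = t then 1 else 0

lemma wt2_pair (F : ℕ → ℕ) (s t T i j : ℕ) (hs : TOK F s T) (ht : TOK F t T) (hi : 1 ≤ i)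
    (hi' : i ≤ 77) (hj : 1 ≤ j) (hj' : j ≤ 77) :
    wt2 F s t (256 * l8 T i + l8 T j) = ow F s t i j := by
  unfold wt2 ow
  rw [Nat.mul_add_div (by norm_num), Nat.div_eq_of_lt (l8_lt T j), add_zero,
    Nat.mul_add_mod, Nat.mod_eq_of_lt (l8_lt T j), ← hs i hi hi', ← ht j hj hj']

lemma itA_spec {M : ℕ} {ih : ℕ → ℕ → ℕ → ℕ → ℕ → Bool} {s A B cur sum v t : ℕ}
    (h : itA M ih s A B cur sum v t = true) :
    (t = cur ∧ ih s A B cur (sum + v) = true) ∨
      (t ≠ cur ∧ sum % M = 0 ∧ ih s A B t v = true) := by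
  unfold itA at h
  cases hb : Nat.beq t cur with
  | true =>
    rw [hb] at h
    exact Or.inl ⟨Nat.eq_of_beq_eq_true hb, h⟩
  | false =>
    rw [hb] at h
    have h' : Bool.and (Nat.beq (Nat.mod sum M) 0) (ih s A B t v) = true := h
    rw [Bool.and_eq_true] at h'
    exact Or.inr ⟨Nat.ne_of_beq_eq_false hb, Nat.eq_of_beq_eq_true h'.1, h'.2⟩

lemma itB_spec {T M X Y : ℕ} {ih : ℕ → ℕ → ℕ → ℕ → ℕ → Bool} {s A B cur sum i j v x : ℕ}
    (h : itB T M X Y ih s A B cur sum i j v x = true) :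
    itA M ih s A B cur sum v (256 * l8 T i + l8 T j) = true ∨
      ((bt X (l8 T i) = true ∨ bt Y (l8 T j) = true) ∧ ih s A B cur sum = true) := by
  rcases x with _ | _ | x
  · exact Or.inl h
  · have h1 : Bool.and (bt X (l8 T i)) (ih s A B cur sum) = true := h
    rw [Bool.and_eq_true] at h1
    exact Or.inr ⟨Or.inl h1.1, h1.2⟩
  · have h1 : Bool.and (bt Y (l8 T j)) (ih s A B cur sum) = true := h
    rw [Bool.and_eq_true] at h1
    exact Or.inr ⟨Or.inr h1.1, h1.2⟩

lemma itC_spec {T M X Y : ℕ} {ih : ℕ → ℕ → ℕ → ℕ → ℕ → Bool} {s A B cur sum i j v x : ℕ}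
    (h : itC T M X Y ih s A B cur sum i j v x = true) :
    (i ≤ j ∧ itB T M X Y ih s (ad A i j v) B cur sum i j v x = true) ∨
      (j < i ∧ itB T M X Y ih s A (ad B j i v) cur sum i j v x = true) := by
  unfold itC at h
  cases hb : Nat.ble i j with
  | true =>
    rw [hb] at h
    exact Or.inl ⟨Nat.le_of_ble_eq_true hb, h⟩
  | false =>
    rw [hb] at h
    refine Or.inr ⟨?_, h⟩
    by_contra hn
    push Not at hn
    rw [Nat.ble_eq_true_of_le hn] at hb
    exact absurd hb (by decide)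

/-- sum of the lanes of a list of entries -/
def SL (E : List (ℕ × ℕ × ℕ)) : ℕ :=
  (E.map fun x => Nat.shiftLeft x.2.2 (Nat.mul 32 (pos x.1 x.2.1))).sum

/-- weighted sum of a list of entries -/
def SW (w : ℕ → ℕ → ℕ) (E : List (ℕ × ℕ × ℕ)) : ℕ := (E.map fun x => x.2.2 * w x.1 x.2.1).sum

/-- entries in range -/
def Rg (E : List (ℕ × ℕ × ℕ)) : Prop :=
  ∀ x ∈ E, 1 ≤ x.1 ∧ x.1 ≤ x.2.1 ∧ x.2.1 ≤ 77 ∧ x.2.2 ≤ 256

lemma SL_cons (i j v : ℕ) (E : List (ℕ × ℕ × ℕ)) (S : ℕ) :
    ad S i j v + SL E = S + SL ((i, j, v) :: E) := by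
  unfold SL
  rw [List.map_cons, List.sum_cons, ← add_assoc]
  rfl

lemma SW_cons (w : ℕ → ℕ → ℕ) (i j v : ℕ) (E : List (ℕ × ℕ × ℕ)) :
    SW w ((i, j, v) :: E) = v * w i j + SW w E := by
  unfold SW
  rw [List.map_cons, List.sum_cons]

lemma Rg_cons {i j v : ℕ} {E : List (ℕ × ℕ × ℕ)} (h : Rg E) (h1 : 1 ≤ i) (h2 : i ≤ j)
    (h3 : j ≤ 77) (h4 : v ≤ 256) : Rg ((i, j, v) :: E) := by
  intro x hx
  rcases List.mem_cons.1 hx with rfl | hx
  · exact ⟨h1, h2, h3, h4⟩
  · exact h x hx

lemma ow_swap (F : ℕ → ℕ) (s t i j : ℕ) : ow F s t i j = ow F t s j i := by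
  unfold ow
  simp only [and_comm]

lemma items_spec (hL : SpecLane) (F : ℕ → ℕ) (s t T M X Y tgt : ℕ) (hs : TOK F s T)
    (ht : TOK F t T) (hX : ∀ y, X.testBit y = true → Ft F s y ≠ s)
    (hY : ∀ y, Y.testBit y = true → Ft F t y ≠ t) (hw : wt2 F s t tgt = 1) (k : ℕ → ℕ → Bool)
    (hk : ∀ A B, k A B = true → A < BIG ∧ B < BIG) : ∀ (h σ A B cur sum : ℕ),
    items T M X Y tgt k h σ A B cur sum = true → ∃ U V : List (ℕ × ℕ × ℕ),
      U.length ≤ h ∧ V.length ≤ h ∧ Rg U ∧ Rg V ∧ k (A + SL U) (B + SL V) = true ∧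
      ¬ (sum * wt2 F s t cur + (SW (ow F s t) U + SW (ow F t s) V) ≡ 0 [MOD M]) := by
  intro h
  induction h with
  | zero =>
    intro σ A B cur sum hh
    have h1 : Bool.and (Nat.beq cur tgt) (Bool.and (Nat.blt 0 (Nat.mod sum M)) (k A B)) = true :=
      hh
    rw [Bool.and_eq_true, Bool.and_eq_true] at h1
    obtain ⟨h2, h3, h4⟩ := h1
    have h2' : cur = tgt := Nat.eq_of_beq_eq_true h2
    have h3' : 0 < sum % M := by
      have h3'' : 0 < Nat.mod sum M := by simpa [Nat.blt_eq] using h3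
      exact h3''
    refine ⟨[], [], le_rfl, le_rfl, by intro x hx; simp at hx, by intro x hx; simp at hx, ?_, ?_⟩
    · simpa [SL] using h4
    · rw [h2', hw]
      intro h5
      have h6 : sum % M = 0 := by simpa [Nat.ModEq, SW] using h5
      omega
  | succ h ih =>
    intro σ A B cur sum hh
    have h1 : itC T M X Y (items T M X Y tgt k h) (Nat.shiftRight σ 23) A B cur sum
      (f7 σ 0 + 1) (f7 σ 7 + 1) (f7 σ 16 + 1) (Nat.mod (Nat.shiftRight σ 14) 4) = true := hh
    have hv : f7 σ 16 + 1 ≤ 256 := by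
      have : (σ >>> 16) % 128 < 128 := Nat.mod_lt _ (by norm_num)
      show (σ >>> 16) % 128 + 1 ≤ 256
      omega
    have hv0 : 0 < f7 σ 16 + 1 := Nat.succ_pos _
    have hi : 1 ≤ f7 σ 0 + 1 := Nat.le_add_left _ _
    have hj : 1 ≤ f7 σ 7 + 1 := Nat.le_add_left _ _
    generalize f7 σ 16 + 1 = v at h1 hv hv0
    generalize f7 σ 0 + 1 = i at h1 hi
    generalize f7 σ 7 + 1 = j at h1 hj
    generalize Nat.mod (Nat.shiftRight σ 14) 4 = x at h1
    generalize Nat.shiftRight σ 23 = σ' at h1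
    -- the four possible continuations
    have step : ∀ A1 B1 : ℕ, itB T M X Y (items T M X Y tgt k h) σ' A1 B1 cur sum i j v x = true →
        (∀ U V : List (ℕ × ℕ × ℕ), k (A1 + SL U) (B1 + SL V) = true → i ≤ 77 ∧ j ≤ 77) →
        ∃ U V : List (ℕ × ℕ × ℕ), U.length ≤ h ∧ V.length ≤ h ∧ Rg U ∧ Rg V ∧
          k (A1 + SL U) (B1 + SL V) = true ∧
          ¬ (sum * wt2 F s t cur + (v * ow F s t i j + (SW (ow F s t) U + SW (ow F t s) V)) ≡ 0
            [MOD M]) := by
      intro A1 B1 h2 h3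
      rcases itB_spec h2 with h4 | ⟨h4, h5⟩
      · rcases itA_spec h4 with ⟨h5, h6⟩ | ⟨h5, h6, h7⟩
        · obtain ⟨U, V, hU, hV, rU, rV, hkk, hn⟩ := ih _ _ _ _ _ h6
          obtain ⟨hi7, hj7⟩ := h3 U V hkk
          refine ⟨U, V, hU, hV, rU, rV, hkk, ?_⟩
          rw [← wt2_pair F s t T i j hs ht hi hi7 hj hj7, h5, ← add_assoc, ← add_mul]
          exact hn
        · obtain ⟨U, V, hU, hV, rU, rV, hkk, hn⟩ := ih _ _ _ _ _ h7
          obtain ⟨hi7, hj7⟩ := h3 U V hkk
          refine ⟨U, V, hU, hV, rU, rV, hkk, ?_⟩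
          rw [← wt2_pair F s t T i j hs ht hi hi7 hj hj7]
          intro h8
          apply hn
          have h9 : sum * wt2 F s t cur ≡ 0 [MOD M] := by
            have h10 : sum ≡ 0 [MOD M] := h6
            simpa using h10.mul_right (wt2 F s t cur)
          have h10 := h9.symm.add_right (v * wt2 F s t (256 * l8 T i + l8 T j) +
            (SW (ow F s t) U + SW (ow F t s) V))
          rw [zero_add] at h10
          exact h10.trans h8
      · obtain ⟨U, V, hU, hV, rU, rV, hkk, hn⟩ := ih _ _ _ _ _ h5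
        obtain ⟨hi7, hj7⟩ := h3 U V hkk
        refine ⟨U, V, hU, hV, rU, rV, hkk, ?_⟩
        have hz : ow F s t i j = 0 := by
          unfold ow
          rw [if_neg]
          rintro ⟨h6, h7⟩
          rcases h4 with h4 | h4
          · have h8 := hX _ (bt_eq _ _ h4)
            rw [← hs i hi hi7] at h8
            exact h8 h6
          · have h8 := hY _ (bt_eq _ _ h4)
            rw [← ht j hj hj7] at h8
            exact h8 h7
        rw [hz, mul_zero, zero_add]
        exact hn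
    rcases itC_spec h1 with ⟨hij, h2⟩ | ⟨hij, h2⟩
    · obtain ⟨U, V, hU, hV, rU, rV, hkk, hn⟩ := step _ _ h2 (by
        intro U V hkk
        have h3 := (hk _ _ hkk).1
        have h4 : j ≤ 77 := hL.big A v i j hi hij hv0 (lt_of_le_of_lt (Nat.le_add_right _ _) h3)
        exact ⟨hij.trans h4, h4⟩)
      have h4 : j ≤ 77 := hL.big A v i j hi hij hv0
        (lt_of_le_of_lt (Nat.le_add_right _ _) (hk _ _ hkk).1)
      refine ⟨(i, j, v) :: U, V, by simpa using hU, by omega, Rg_cons rU hi hij h4 hv, rV, ?_, ?_⟩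
      · rw [← SL_cons]
        exact hkk
      · rw [SW_cons, add_assoc]
        exact hn
    · obtain ⟨U, V, hU, hV, rU, rV, hkk, hn⟩ := step _ _ h2 (by
        intro U V hkk
        have h3 := (hk _ _ hkk).2
        have h4 : i ≤ 77 := hL.big B v j i hj hij.le hv0
          (lt_of_le_of_lt (Nat.le_add_right _ _) h3)
        exact ⟨h4, hij.le.trans h4⟩)
      have h4 : i ≤ 77 := hL.big B v j i hj hij.le hv0
        (lt_of_le_of_lt (Nat.le_add_right _ _) (hk _ _ hkk).2)
      refine ⟨U, (j, i, v) :: V, by omega, by simpa using hV, rU, Rg_cons rV hj hij.le h4 hv,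
        ?_, ?_⟩
      · rw [← SL_cons]
        exact hkk
      · rw [SW_cons, ← ow_swap F s t i j]
        intro h5
        apply hn
        have h6 : v * ow F s t i j + (SW (ow F s t) U + SW (ow F t s) V) =
          SW (ow F s t) U + (v * ow F s t i j + SW (ow F t s) V) := by ring
        rw [h6]
        exact h5

lemma lin_SL (hL : SpecLane) (w : ℕ → ℕ → ℕ) (E : List (ℕ × ℕ × ℕ)) (hE : E.length ≤ 1023)
    (hr : Rg E) : (∀ p, p < 3036 → lane 32 (SL E) p < 262144) ∧ Lin (SL E) w = SW w E := by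
  obtain ⟨h1, h2⟩ := lin_ents hL w E (by omega) hr
  refine ⟨fun p _ => ?_, h2⟩
  refine lt_of_le_of_lt (h1 p) ?_
  calc E.length * 256 ≤ 1023 * 256 := Nat.mul_le_mul_right _ hE
    _ < 262144 := by norm_num

/-- linear combination of two tables -/
lemma lin_comb (hL : SpecLane) (x y M : ℕ) (w : ℕ → ℕ → ℕ) (hM : 0 < M) (hM' : M < 256)
    (hx : ∀ p, lane 32 x p < 32768) (hy : ∀ p, lane 32 y p < 32768) :
    Lin (x + (M - 1) * y) w = Lin x w + (M - 1) * Lin y w := by
  have h3 : ∀ p, (M - 1) * lane 32 y p ≤ 8355585 := by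
    intro p
    have := hy p
    calc (M - 1) * lane 32 y p ≤ 255 * 32767 := Nat.mul_le_mul (by omega) (by omega)
      _ = 8355585 := by norm_num
  rw [hL.lin_add, hL.lin_mul]
  · intro p _
    have := h3 p
    omega
  · intro p _
    rw [hL.mul]
    · have := h3 p
      have := hx p
      omega
    · intro q _
      have := h3 q
      omega

end BbbM

open SssM BbbM

attribute [local irreducible] T0 PAT ALL BIG ONE msk CBIG kmask OFF

theorem specBBB (hL : SpecLane) (hR : SpecRep) : SpecBBB := by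
  intro F d hd kind C s hC hs
  by_contra hH
  have h1 : Bool.and (Nat.blt 0 (f7 s 22)) (Bool.and (Nat.blt (f7 s 22) 78)
      (Bool.and (Nat.blt 0 (f7 s 29)) (Bool.and (Nat.blt (f7 s 29) 78)
      (edges C (bF d kind C (Nat.mod (Nat.shiftRight s 14) 256) (f7 s 0) (f7 s 7) (f7 s 22)
        (f7 s 29)) (Nat.mod (Nat.shiftRight s 36) 256) (Nat.shiftRight s 44) T0)))) = true := hs
  have hM256 : Nat.mod (Nat.shiftRight s 14) 256 < 256 := Nat.mod_lt _ (by norm_num)
  generalize Nat.mod (Nat.shiftRight s 14) 256 = M at h1 hM256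
  generalize f7 s 0 = k at h1
  generalize f7 s 7 = l at h1
  generalize f7 s 22 = bi at h1
  generalize f7 s 29 = bj at h1
  rw [Bool.and_eq_true, Bool.and_eq_true, Bool.and_eq_true, Bool.and_eq_true] at h1
  obtain ⟨ha, hb, hc, he, h2⟩ := h1
  have ha' : 1 ≤ bi := by
    have : 0 < bi := by simpa [Nat.blt_eq] using ha
    exact this
  have hb' : bi ≤ 77 := by
    have : bi < 78 := by simpa [Nat.blt_eq] using hb
    omega
  have hc' : 1 ≤ bj := by
    have : 0 < bj := by simpa [Nat.blt_eq] using hc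
    exact this
  have he' : bj ≤ 77 := by
    have : bj < 78 := by simpa [Nat.blt_eq] using he
    omega
  obtain ⟨σ1, T, h3, hT⟩ := hR.edges F C _ _ _ _ hC hH h2
  have hTs := hT (F bi) (hR.init F _)
  have hTt := hT (F bj) (hR.init F _)
  have hs0 : F bi ≠ 0 := hd.nz bi ha' (by omega)
  have ht0 : F bj ≠ 0 := hd.nz bj hc' (by omega)
  have h4 : nes C T (l8 T bi) (bE d kind C T M k l bi bj) (f7 σ1 0) (Nat.shiftRight σ1 7) 0 =
    true := h3
  obtain ⟨σ2, X, h5, hX⟩ := hR.nes F (F bi) C T _ _ _ _ 0 hC hH hTs (hTs bi ha' hb').symm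
    (by intro t ht; simp at ht) h4
  have h6 : nes C T (l8 T bj) (bD d kind T M k l bi bj X) (f7 σ2 0) (Nat.shiftRight σ2 7) 0 =
    true := h5
  obtain ⟨σ3, Y, h7, hY⟩ := hR.nes F (F bj) C T _ _ _ _ 0 hC hH hTt (hTt bj hc' he').symm
    (by intro t ht; simp at ht) h6
  have h8 : items T M X Y (256 * l8 T bi + l8 T bj) (bC d kind T M k l) (Nat.mod σ3 1024)
    (Nat.shiftRight σ3 10) 0 0 (256 * l8 T bi + l8 T bj) 0 = true := h7
  have hw : wt2 F (F bi) (F bj) (256 * l8 T bi + l8 T bj) = 1 := by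
    rw [wt2_pair F _ _ T bi bj hTs hTt ha' hb' hc' he']
    unfold ow
    rw [if_pos ⟨rfl, rfl⟩]
  have hbig : ∀ A B, bC d kind T M k l A B = true → A < BIG ∧ B < BIG := by
    intro A B h
    unfold bC at h
    rw [Bool.and_eq_true, Bool.and_eq_true] at h
    exact ⟨by simpa [Nat.blt_eq] using h.1, by simpa [Nat.blt_eq] using h.2.1⟩
  obtain ⟨U, V, hU, hV, rU, rV, hkk, hn⟩ := items_spec hL F (F bi) (F bj) T M X Y _ hTs hTt hX hY
    hw _ hbig _ _ _ _ _ _ h8
  rw [zero_mul, zero_add] at hn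
  rw [zero_add, zero_add] at hkk
  have hlen : Nat.mod σ3 1024 ≤ 1023 := by
    have : σ3 % 1024 < 1024 := Nat.mod_lt _ (by norm_num)
    show σ3 % 1024 ≤ 1023
    omega
  obtain ⟨hA', hB'⟩ := hbig _ _ hkk
  have hUl := fun w => lin_SL hL w U (hU.trans hlen) rU
  have hVl := fun w => lin_SL hL w V (hV.trans hlen) rV
  rw [← (hUl (ow F (F bi) (F bj))).2, ← (hVl (ow F (F bj) (F bi))).2] at hn
  have hUb := (hUl (ow F (F bi) (F bj))).1
  have hVb := (hVl (ow F (F bi) (F bj))).1
  generalize SL U = A at hkk hn hA' hUb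
  generalize SL V = B at hkk hn hB' hVb
  generalize F bi = s' at *
  generalize F bj = t' at *
  apply hn
  unfold bC at hkk
  rw [Bool.and_eq_true, Bool.and_eq_true] at hkk
  obtain ⟨-, -, h9⟩ := hkk
  rcases kind with _ | kind
  · -- comparison of two classes
    have h10 : bA (Dat.G2 d) (Dat.st d) T M k l A B = true := h9
    unfold bA at h10
    rw [Bool.and_eq_true, Bool.and_eq_true, Bool.and_eq_true, Bool.and_eq_true,
      Bool.and_eq_true, Bool.and_eq_true] at h10
    obtain ⟨e1, e2, e3, e4, e5, e6, e7⟩ := h10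
    have e2' : 0 < d.st k := by simpa [Nat.blt_eq] using e2
    have e3' : 0 < d.st l := by simpa [Nat.blt_eq] using e3
    have e4' : d.st k % M = 0 := Nat.eq_of_beq_eq_true e4
    have e5' : d.st l % M = 0 := Nat.eq_of_beq_eq_true e5
    have hM : 0 < M := by
      rcases Nat.eq_zero_or_pos M with h0 | h0
      · rw [h0, Nat.mod_zero] at e4'
        omega
      · exact h0
    have hB : B = Nat.land A OFF := Nat.eq_of_beq_eq_true e6
    have e7' : divs (d.G2 k + (M - 1) * d.G2 l) A M = true := e7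
    obtain ⟨rk1, rk2⟩ := hd.rng k e2'
    obtain ⟨rl1, rl2⟩ := hd.rng l e3'
    have hF : F k = F l := by
      rw [hTs k rk1 rk2, hTs l rl1 rl2, Nat.eq_of_beq_eq_true e1]
    let w2 : ℕ → ℕ → ℕ := fun i j => if i = j then 0 else ow F t' s' i j
    have hw2 : Lin B (ow F t' s') = Lin A w2 := by
      rw [hB]
      apply hL.lin_off A _ _ hA'
      · intro i
        simp [w2]
      · intro i j hij
        simp [w2, hij]
    let W : ℕ → ℕ → ℕ := fun i j => ow F s' t' i j + w2 i j
    have hWA : Lin A (ow F s' t') + Lin A w2 = Lin A W := (hL.lin_w A _ _).symm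
    have h11 := hL.lin_divs _ A M W hM hM256 hUb e7'
    rw [lin_comb hL _ _ M W hM hM256 (fun p => (hd.small k p).2.1)
      (fun p => (hd.small l p).2.1)] at h11
    have hoff : ∀ i j, i ≠ j → mono F s' t' i j = W i j := by
      intro i j hij
      show mono F s' t' i j = ow F s' t' i j + (if i = j then 0 else ow F t' s' i j)
      rw [if_neg hij]
      rfl
    have hdiag : ∀ i, mono F s' t' i i = 2 * W i i := by
      intro i
      show mono F s' t' i i = 2 * (ow F s' t' i i + (if i = i then 0 else ow F t' s' i i))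
      rw [if_pos rfl, add_zero]
      show ow F s' t' i i + ow F t' s' i i = 2 * ow F s' t' i i
      rw [← ow_swap F s' t' i i]
      ring
    obtain ⟨P, hP⟩ := hd.full
    obtain ⟨x, hx⟩ := hP k e2' s' t' hs0 ht0
    obtain ⟨y, hy⟩ := hP l e3' s' t' hs0 ht0
    rw [hd.dbl k e2' _ _ hoff hdiag] at hx
    rw [hd.dbl l e3' _ _ hoff hdiag, ← hF] at hy
    have h12 : Lin (d.G2 k) W ≡ Lin (d.G2 l) W [MOD M] := by
      have h13 : ∀ (q z : ℕ), q % M = 0 → q * z ≡ 0 [MOD M] := by
        intro q z hq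
        have : q ≡ 0 [MOD M] := hq
        simpa using this.mul_right z
      have h14 : P (F k) s' t' ≡ Lin (d.G2 k) W [MOD M] := by
        rw [hx]
        simpa using (Nat.ModEq.refl (Lin (d.G2 k) W)).add (h13 _ x e4')
      have h15 : P (F k) s' t' ≡ Lin (d.G2 l) W [MOD M] := by
        rw [hy]
        simpa using (Nat.ModEq.refl (Lin (d.G2 l) W)).add (h13 _ y e5')
      exact h14.symm.trans h15
    rw [hw2, hWA]
    refine h11.symm.trans ?_
    refine (h12.add_right _).trans ?_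
    have h16 : Lin (d.G2 l) W + (M - 1) * Lin (d.G2 l) W = M * Lin (d.G2 l) W := by
      obtain ⟨m, rfl⟩ : ∃ m, M = m + 1 := ⟨M - 1, by omega⟩
      rw [Nat.add_sub_cancel]
      ring
    rw [h16]
    exact (Nat.modEq_zero_iff_dvd.2 (Dvd.intro _ rfl))
  · -- comparison with the transpose
    have h10 : bB (Dat.U d) (Dat.D d) (Dat.stT d) M k A B = true := h9
    unfold bB at h10
    rw [Bool.and_eq_true, Bool.and_eq_true, Bool.and_eq_true] at h10
    obtain ⟨e1, e2, e3, e4⟩ := h10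
    have e1' : 0 < d.stT k := by simpa [Nat.blt_eq] using e1
    have e2' : d.stT k % M = 0 := Nat.eq_of_beq_eq_true e2
    have hM : 0 < M := by
      rcases Nat.eq_zero_or_pos M with h0 | h0
      · rw [h0, Nat.mod_zero] at e2'
        omega
      · exact h0
    have e3' : divs (d.U k + (M - 1) * d.D k) A M = true := e3
    have e4' : divs (d.D k + (M - 1) * d.U k) B M = true := e4
    have h11 := hL.lin_divs _ A M (ow F s' t') hM hM256 hUb e3'
    have h12 := hL.lin_divs _ B M (ow F t' s') hM hM256 hVb e4'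
    rw [lin_comb hL _ _ M _ hM hM256 (fun p => (hd.small k p).2.2.1)
      (fun p => (hd.small k p).2.2.2)] at h11
    rw [lin_comb hL _ _ M _ hM hM256 (fun p => (hd.small k p).2.2.2)
      (fun p => (hd.small k p).2.2.1)] at h12
    obtain ⟨x, y, hxy⟩ := hd.anti k e1' s' t' hs0 ht0
    refine (h11.add h12).symm.trans ?_
    generalize Lin (d.U k) (ow F s' t') = a at *
    generalize Lin (d.D k) (ow F t' s') = b at *
    generalize Lin (d.U k) (ow F t' s') = a' at *
    generalize Lin (d.D k) (ow F s' t') = b' at *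
    have h13 : ∀ z : ℕ, d.stT k * z ≡ 0 [MOD M] := by
      intro z
      have : d.stT k ≡ 0 [MOD M] := e2'
      simpa using this.mul_right z
    have h14 : a + b ≡ a' + b' [MOD M] := by
      have h15 : a + b + d.stT k * x ≡ a + b [MOD M] := by
        simpa using (Nat.ModEq.refl (a + b)).add (h13 x)
      have h16 : a' + b' + d.stT k * y ≡ a' + b' [MOD M] := by
        simpa using (Nat.ModEq.refl (a' + b')).add (h13 y)
      rw [hxy] at h15
      exact h15.symm.trans h16
    have h17 : a + (M - 1) * b' + (b + (M - 1) * a') = a + b + (M - 1) * (a' + b') := by ring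
    rw [h17]
    refine (h14.add_right _).trans ?_
    have h18 : a' + b' + (M - 1) * (a' + b') = M * (a' + b') := by
      obtain ⟨m, rfl⟩ : ∃ m, M = m + 1 := ⟨M - 1, by omega⟩
      rw [Nat.add_sub_cancel]
      ring
    rw [h18]
    exact (Nat.modEq_zero_iff_dvd.2 (Dvd.intro _ rfl))

end Chk

end MP26f323
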