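import Pool.Agent.Lib.MP_26f323_al.Spec2

/-!
MP_26f323_al: the certificate checker (executable part).

A clause is a number; bit 2 p of it is the literal F a = F b, bit 2 p + 1 the literal
F a ≠ F b, where p = pos a b, 1 ≤ a < b ≤ 77.

All auxiliary functions are written with small bodies, and the state of every loop is forced
(function frc), so that the kernel evaluates them quickly.
-/

set_option autoImplicit false

namespace MP26f323

open ZonM ClsM

namespace Chk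

/-- forced evaluation of n -/
def frc {α : Type} (n : ℕ) (f : ℕ → α) : α :=
  Nat.rec (motive := fun _ => α) (f 0) (fun m _ => f m) (Nat.add n 1)

/-- two forced arguments -/
def go2 (f : ℕ → ℕ → Bool) (a b : ℕ) : Bool := frc a fun a => frc b (f a)

/-- lane number p of width w bits -/
def lane (w N p : ℕ) : ℕ := Nat.mod (Nat.shiftRight N (Nat.mul w p)) (Nat.pow 2 w)

/-- lane of 8 bits -/
def l8 (N p : ℕ) : ℕ := Nat.mod (Nat.shiftRight N (Nat.mul 8 p)) 256

/-- field of 7 bits -/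
def f7 (s k : ℕ) : ℕ := Nat.mod (Nat.shiftRight s k) 128

/-- position of the pair (i,j), 1 ≤ i ≤ j -/
def pos (i j : ℕ) : ℕ := Nat.add (Nat.div (Nat.mul j (Nat.sub j 1)) 2) (Nat.sub i 1)

/-- test a bit -/
def bt (C n : ℕ) : Bool := Nat.beq (Nat.mod (Nat.shiftRight C n) 2) 1

/-- certificate tree -/
inductive Tr where
  | lf (c r : ℕ)
  | nd (a b : Tr)

/-- choose -/
def ch (g : ℕ → ℕ) (g' : ℕ → ℕ) (n : ℕ) : ℕ :=
  Bool.rec (g' (Nat.div n 2)) (g (Nat.div n 2)) (Nat.beq (Nat.mod n 2) 0)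

/-- clause of the leaf number n -/
noncomputable def Tr.fC (t : Tr) : ℕ → ℕ :=
  Tr.rec (fun c _ _ => c) (fun _ _ ga gb n => ch ga gb n) t

/-- record of the leaf number n -/
noncomputable def Tr.fR (t : Tr) : ℕ → ℕ :=
  Tr.rec (fun _ r _ => r) (fun _ _ ga gb n => ch ga gb n) t

/-! ### resolution -/

/-- resolution of C and R on the literal number p of R -/
def res (C R p : ℕ) : ℕ :=
  Nat.lor (Nat.xor C (Nat.shiftLeft 1 (Nat.xor p 1))) (Nat.xor R (Nat.shiftLeft 1 p))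

/-- three bits -/
def tri3 (x y z a b c : ℕ) : ℕ :=
  Nat.lor (Nat.shiftLeft x (Nat.mul 2 a)) (Nat.lor (Nat.shiftLeft y (Nat.mul 2 b))
    (Nat.shiftLeft z (Nat.mul 2 c)))

/-- the transitivity clause of type ty of the triangle a < b < c -/
def tri (ty a b c : ℕ) : ℕ :=
  Nat.rec (tri3 2 2 1 (pos a b) (pos b c) (pos a c))
    (fun ty' _ => Nat.rec (tri3 2 1 2 (pos a b) (pos b c) (pos a c))
      (fun _ _ => tri3 1 2 2 (pos a b) (pos b c) (pos a c)) ty') ty

/-- hint with a clause of the data base -/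
def chA (db : ℕ → ℕ) (n : ℕ) (ih : ℕ → ℕ → Bool) (s D p i : ℕ) : Bool :=
  Bool.and (Nat.blt i n) (ih s (res D (db i) p))

/-- hint with a triangle -/
def chB (ih : ℕ → ℕ → Bool) (s D p ty a b c : ℕ) : Bool :=
  ih s (res D (tri ty a (Nat.add (Nat.add a b) 1) (Nat.add (Nat.add (Nat.add a b) 1)
    (Nat.add c 1))) p)

/-- one hint -/
def chS (db : ℕ → ℕ) (n : ℕ) (ih : ℕ → ℕ → Bool) (s D : ℕ) : Bool :=
  Nat.rec
    (chA db n ih (Nat.shiftRight s 27) D (Nat.mod s 8192)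
      (Nat.mod (Nat.shiftRight s 14) 8192))
    (fun _ _ => chB ih (Nat.shiftRight s 37) D (Nat.mod s 8192)
      (Nat.mod (Nat.shiftRight s 14) 4) (Nat.add (f7 s 16) 1) (f7 s 23) (f7 s 30))
    (Nat.mod (Nat.shiftRight s 13) 2)

/-- resolution chain with h hints; n = number of the current step, D = current resolvent,
C = target clause -/
def chain (db : ℕ → ℕ) (n C : ℕ) (h : ℕ) : ℕ → ℕ → Bool :=
  Nat.rec (fun _ D => Nat.beq (Nat.lor D C) C) (fun _ ih s D => chS db n ih s D) h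

/-- resolution step; the start is a tautology -/
def stepL (db : ℕ → ℕ) (n C s : ℕ) : Bool :=
  frc (Nat.mod s 4096) fun h => go2 (chain db n C h) (Nat.shiftRight s 26)
    (Nat.shiftLeft 3 (Nat.mul 2 (pos (Nat.add (f7 s 12) 1)
      (Nat.add (Nat.add (f7 s 12) (f7 s 19)) 2))))

/-! ### representatives -/

/-- T with the lane c changed to the lane p -/
def upd (T c p : ℕ) : ℕ :=
  Nat.xor T (Nat.shiftLeft (Nat.xor (l8 T c) (l8 T p)) (Nat.mul 8 c))

/-- one edge -/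
def edA (C : ℕ) (ih : ℕ → ℕ → Bool) (s T o a b : ℕ) : Bool :=
  Bool.and (bt C (Nat.add (Nat.mul 2 (pos a b)) 1))
    (ih s (Nat.rec (upd T a b) (fun _ _ => upd T b a) o))

/-- h edges -/
def edges (C : ℕ) (k : ℕ → ℕ → Bool) (h : ℕ) : ℕ → ℕ → Bool :=
  Nat.rec k (fun _ ih s T => edA C ih (Nat.shiftRight s 15) T (Nat.mod s 2)
    (Nat.add (f7 s 1) 1) (Nat.add (Nat.add (f7 s 1) (f7 s 8)) 2)) h

/-- one inequation -/
def neA (C T x : ℕ) (ih : ℕ → ℕ → Bool) (s X a b p q : ℕ) : Bool :=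
  Bool.and (bt C (Nat.mul 2 (pos a b)))
    (Bool.and (Nat.beq (l8 T q) x) (ih s (Nat.lor X (Nat.shiftLeft 1 (l8 T p)))))

/-- one inequation -/
def neB (C T x : ℕ) (ih : ℕ → ℕ → Bool) (s X o a b : ℕ) : Bool :=
  Nat.rec (neA C T x ih s X a b a b) (fun _ _ => neA C T x ih s X a b b a) o

/-- h inequations against the base x (a lane value): mask of excluded lane values -/
def nes (C T x : ℕ) (k : ℕ → ℕ → Bool) (h : ℕ) : ℕ → ℕ → Bool :=
  Nat.rec k (fun _ ih s X => neB C T x ih (Nat.shiftRight s 15) X (Nat.mod s 2)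
    (Nat.add (f7 s 1) 1) (Nat.add (Nat.add (f7 s 1) (f7 s 8)) 2)) h

/-! ### S-lemmas -/

/-- data of the tables used by the checker -/
structure Dat where
  /-- packed table of the class k -/
  G : ℕ → ℕ
  /-- packed table of the class k, diagonal doubled -/
  G2 : ℕ → ℕ
  /-- divisor of the regular off-diagonal entries (0 for k not in the list) -/
  st : ℕ → ℕ
  /-- ordered tables without diagonal -/
  U : ℕ → ℕ
  /-- ordered tables without diagonal -/
  D : ℕ → ℕ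
  /-- divisor for the ordered tables (0 for k not in the list) -/
  stT : ℕ → ℕ

/-- run step: sum of the values with the same key t -/
def run (m : ℕ) (ih : ℕ → ℕ → ℕ → ℕ → Bool) (s N cur sum t c : ℕ) : Bool :=
  Bool.rec (Bool.and (Nat.beq (Nat.mod sum m) 0) (ih s N t c)) (ih s N cur (Nat.add sum c))
    (Nat.beq t cur)

/-- one row -/
def roA (T m : ℕ) (ih : ℕ → ℕ → ℕ → ℕ → Bool) (s N cur sum q c e g : ℕ) : Bool :=
  Bool.and (Nat.blt 0 e) (Bool.and (Nat.beq (Nat.mod (Nat.mul c e) m) 0)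
    (run m ih s (Nat.add N (Nat.mul c g)) cur sum (l8 T q) c))

/-- one row -/
def roB (G st : ℕ → ℕ) (T m : ℕ) (ih : ℕ → ℕ → ℕ → ℕ → Bool) (s N cur sum q : ℕ) : Bool :=
  roA T m ih (Nat.shiftRight s 15) N cur sum q (Nat.mod (Nat.shiftRight s 7) 256) (st q) (G q)

/-- h rows; modulus m -/
def rows (G st : ℕ → ℕ) (T m : ℕ) (k : ℕ → ℕ → Bool) (h : ℕ) : ℕ → ℕ → ℕ → ℕ → Bool :=
  Nat.rec (fun s N _ sum => Bool.and (Nat.beq (Nat.mod sum m) 0) (k s N))
    (fun _ ih s N cur sum => frc (Nat.mod s 128) (roB G st T m ih s N cur sum)) h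

/-- all ones in the lanes (x, j), (i, x); t = position of (1, x) -/
def kmA (P x t : ℕ) : ℕ :=
  Nat.lor (Nat.shiftLeft (Nat.pred (Nat.pow 2 (Nat.mul 32 x))) (Nat.mul 32 t))
    (Nat.shiftLeft (Nat.shiftRight P (Nat.mul 32 (Nat.add t x)))
      (Nat.mul 32 (Nat.sub (Nat.add (Nat.add t x) x) 1)))

/-- all ones in the lanes (x, j), (i, x) -/
def kmask (P x : ℕ) : ℕ := kmA P x (Nat.div (Nat.mul x (Nat.sub x 1)) 2)

/-- one killed class -/
def kiA (km : ℕ → ℕ) (T X : ℕ) (ih : ℕ → ℕ → Bool) (s K x : ℕ) : Bool :=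
  Bool.and (bt X (l8 T x)) (ih (Nat.shiftRight s 7) (Nat.lor K (km x)))

/-- h killed classes -/
def kills (km : ℕ → ℕ) (T X : ℕ) (k : ℕ → ℕ → Bool) (h : ℕ) : ℕ → ℕ → Bool :=
  Nat.rec k (fun _ ih s K => frc (Nat.add (Nat.mod s 128) 1) (kiA km T X ih s K)) h

/-- S with v added to the lane (i,j) -/
def ad (S i j v : ℕ) : ℕ := Nat.add S (Nat.shiftLeft v (Nat.mul 32 (pos i j)))

/-- entry of type 0, 1 -/
def enA (T m : ℕ) (ih : ℕ → ℕ → ℕ → ℕ → Bool) (s S cur sum i j v p q : ℕ) : Bool :=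
  run m ih s (ad S i j v) cur sum (Nat.add (Nat.mul 256 (l8 T p)) (l8 T q)) v

/-- entry of type 2 -/
def enB (T m : ℕ) (ih : ℕ → ℕ → ℕ → ℕ → Bool) (s S cur sum i j v : ℕ) : Bool :=
  Bool.and (Nat.beq (l8 T i) (l8 T j)) (run m ih s (ad S i j v) cur sum (l8 T i) v)

/-- entry of type 3, 4; the pair a, b is excluded -/
def enC (C T : ℕ) (ih : ℕ → ℕ → ℕ → ℕ → Bool) (s S cur sum i j v p q a b : ℕ) : Bool :=
  Bool.and (bt C (Nat.mul 2 (pos a b))) (Bool.and (Nat.beq (l8 T a) (l8 T p))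
    (Bool.and (Nat.beq (l8 T b) (l8 T q))
      (ih (Nat.shiftRight s 39) (ad S i j v) cur sum)))

/-- one entry -/
def enD (C T m : ℕ) (ih : ℕ → ℕ → ℕ → ℕ → Bool) (s S cur sum i j v ty : ℕ) : Bool :=
  Nat.rec (enA T m ih (Nat.shiftRight s 25) S cur sum i j v i j)
    (fun ty _ => Nat.rec (enA T m ih (Nat.shiftRight s 25) S cur sum i j v j i)
      (fun ty _ => Nat.rec (enB T m ih (Nat.shiftRight s 25) S cur sum i j v)
        (fun ty _ => Nat.rec
          (enC C T ih s S cur sum i j v i j (Nat.add (f7 s 25) 1)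
            (Nat.add (Nat.add (f7 s 25) (f7 s 32)) 2))
          (fun _ _ => enC C T ih s S cur sum i j v j i (Nat.add (f7 s 25) 1)
            (Nat.add (Nat.add (f7 s 25) (f7 s 32)) 2)) ty) ty) ty) ty

/-- h entries -/
def ents (C T m L : ℕ) (h : ℕ) : ℕ → ℕ → ℕ → ℕ → Bool :=
  Nat.rec (fun _ S cur sum => Bool.and (Nat.beq cur 0)
      (Bool.and (Nat.blt 0 (Nat.mod sum m)) (Nat.beq S L)))
    (fun _ ih s S cur sum => enD C T m ih s S cur sum (Nat.add (Nat.mod s 128) 1)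
      (Nat.add (Nat.add (Nat.mod s 128) (f7 s 7)) 1)
      (Nat.add (Nat.mod (Nat.shiftRight s 17) 256) 1) (Nat.mod (Nat.shiftRight s 14) 8)) h

/-- lane i is i, for i ≤ 77 -/
def T0 : ℕ := sumLt 78 fun i => Nat.shiftLeft i (Nat.mul 8 i)

/-- n lanes of width 32 equal to 1 -/
def ones (n : ℕ) : ℕ := Nat.rec 0 (fun _ r => Nat.add (Nat.shiftLeft r 32) 1) n

/-- 3036 lanes equal to 1 -/
def ONE : ℕ := Nat.div (Nat.pred (Nat.pow 2 97152)) 4294967295

/-- 3003 full lanes -/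
def ALL : ℕ := Nat.pred (Nat.pow 2 96096)

/-- first number with regular lanes -/
def BIG : ℕ := Nat.pow 2 96096

/-- mask of the lanes modulo m -/
def msk (m : ℕ) : ℕ := Nat.mul (Nat.sub m 1) ONE

/-- full lanes (1,j) -/
def PAT : ℕ := sumLt 77 fun j => Nat.shiftLeft 4294967295 (Nat.mul 32 (pos 1 (Nat.add j 1)))

/-- last part of an S-lemma -/
def sA (C T m L : ℕ) (s K : ℕ) : Bool :=
  frc (Nat.mod s 4096) fun h => frc (Nat.land L (Nat.xor ALL K)) fun L =>
    frc (Nat.shiftRight s 12) fun s => ents C T m L h s 0 0 0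

/-- killing -/
def sB (C T X m : ℕ) (s L : ℕ) : Bool :=
  Bool.and (Nat.blt L BIG) (frc (f7 s 0) fun h => go2 (kills (kmask PAT) T X (sA C T m L) h)
    (Nat.shiftRight s 7) 0)

/-- rows -/
def sC (d : Dat) (C T m : ℕ) (s X : ℕ) : Bool :=
  frc (f7 s 0) fun h => frc (Nat.shiftRight s 7) fun s =>
    rows (Dat.G d) (Dat.st d) T m (fun s N => frc (Nat.land N (msk m)) (sB C T X m s)) h s 0 0 0

/-- inequations -/
def sD (d : Dat) (C m : ℕ) (s T : ℕ) : Bool :=
  frc (f7 s 0) fun h => go2 (nes C T 0 (sC d C T m) h) (Nat.shiftRight s 7) 0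

/-- S-lemma -/
def stepS (d : Dat) (C s : ℕ) : Bool :=
  frc (f7 s 0) fun b => frc (Nat.pow 2 (Nat.mod (Nat.shiftRight s 7) 16)) fun m =>
    frc (Nat.mod (Nat.shiftRight s 11) 256) fun h =>
      Bool.and (Nat.blt 0 b) (Bool.and (Nat.blt b 78)
        (go2 (edges C (sD d C m) h) (Nat.shiftRight s 19)
          (Nat.xor T0 (Nat.shiftLeft b (Nat.mul 8 b)))))

/-! ### B-lemmas -/

/-- N = S + M * Q with small lanes of Q -/
def divs (N S M : ℕ) : Bool :=
  frc (Nat.div (Nat.sub N S) M) fun Q =>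
    Bool.and (Nat.beq (Nat.add S (Nat.mul M Q)) N)
      (Nat.beq (Nat.land Q (Nat.mul 4278190080 ONE)) 0)

/-- one item -/
def itA (M : ℕ) (ih : ℕ → ℕ → ℕ → ℕ → ℕ → Bool) (s A B cur sum v t : ℕ) : Bool :=
  Bool.rec (Bool.and (Nat.beq (Nat.mod sum M) 0) (ih s A B t v)) (ih s A B cur (Nat.add sum v))
    (Nat.beq t cur)

/-- one item -/
def itB (T M X Y : ℕ) (ih : ℕ → ℕ → ℕ → ℕ → ℕ → Bool) (s A B cur sum i j v x : ℕ) : Bool :=
  Nat.rec (itA M ih s A B cur sum v (Nat.add (Nat.mul 256 (l8 T i)) (l8 T j)))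
    (fun x _ => Bool.and (Nat.rec (bt X (l8 T i)) (fun _ _ => bt Y (l8 T j)) x)
      (ih s A B cur sum)) x

/-- one item -/
def itC (T M X Y : ℕ) (ih : ℕ → ℕ → ℕ → ℕ → ℕ → Bool) (s A B cur sum i j v x : ℕ) : Bool :=
  Bool.rec (itB T M X Y ih s A (ad B j i v) cur sum i j v x)
    (itB T M X Y ih s (ad A i j v) B cur sum i j v x) (Nat.ble i j)

/-- h items; X, Y = masks of excluded values; A = sum of the upper items, B = sum of the lower
items -/
def items (T M X Y tgt : ℕ) (k : ℕ → ℕ → Bool) (h : ℕ) : ℕ → ℕ → ℕ → ℕ → ℕ → Bool :=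
  Nat.rec (fun _ A B cur sum => Bool.and (Nat.beq cur tgt)
      (Bool.and (Nat.blt 0 (Nat.mod sum M)) (k A B)))
    (fun _ ih s A B cur sum => itC T M X Y ih (Nat.shiftRight s 23) A B cur sum
      (Nat.add (f7 s 0) 1) (Nat.add (f7 s 7) 1) (Nat.add (f7 s 16) 1)
      (Nat.mod (Nat.shiftRight s 14) 4)) h

/-- off-diagonal lanes, full -/
def OFF : ℕ := Nat.xor ALL
  (sumLt 77 fun j => Nat.shiftLeft 4294967295 (Nat.mul 32 (pos (Nat.add j 1) (Nat.add j 1))))

/-- comparison of k and l -/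
def bA (G2 st : ℕ → ℕ) (T M k l : ℕ) (A B : ℕ) : Bool :=
  Bool.and (Nat.beq (l8 T k) (l8 T l))
    (Bool.and (Nat.blt 0 (st k)) (Bool.and (Nat.blt 0 (st l))
    (Bool.and (Nat.beq (Nat.mod (st k) M) 0) (Bool.and (Nat.beq (Nat.mod (st l) M) 0)
    (Bool.and (Nat.beq B (Nat.land A OFF))
    (frc (Nat.add (G2 k) (Nat.mul (Nat.sub M 1) (G2 l))) fun N => divs N A M))))))

/-- comparison of k with its transpose -/
def bB (U D stT : ℕ → ℕ) (M k : ℕ) (A B : ℕ) : Bool :=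
  Bool.and (Nat.blt 0 (stT k)) (Bool.and (Nat.beq (Nat.mod (stT k) M) 0)
    (Bool.and (frc (Nat.add (U k) (Nat.mul (Nat.sub M 1) (D k))) fun N => divs N A M)
      (frc (Nat.add (D k) (Nat.mul (Nat.sub M 1) (U k))) fun N => divs N B M)))

/-- last part -/
def bC (d : Dat) (kind T M k l : ℕ) (A B : ℕ) : Bool :=
  Bool.and (Nat.blt A BIG) (Bool.and (Nat.blt B BIG)
    (Nat.rec (bA (Dat.G2 d) (Dat.st d) T M k l A B)
      (fun _ _ => bB (Dat.U d) (Dat.D d) (Dat.stT d) M k A B) kind))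

/-- items -/
def bD (d : Dat) (kind T M k l bi bj X : ℕ) (s Y : ℕ) : Bool :=
  frc (Nat.mod s 1024) fun h => frc (Nat.shiftRight s 10) fun s =>
    frc (Nat.add (Nat.mul 256 (l8 T bi)) (l8 T bj)) fun tgt =>
      items T M X Y tgt (bC d kind T M k l) h s 0 0 tgt 0

/-- second list of inequations -/
def bE (d : Dat) (kind C T M k l bi bj : ℕ) (s X : ℕ) : Bool :=
  frc (f7 s 0) fun h => frc (l8 T bj) fun x =>
    go2 (nes C T x (bD d kind T M k l bi bj X) h) (Nat.shiftRight s 7) 0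

/-- first list of inequations -/
def bF (d : Dat) (kind C M k l bi bj : ℕ) (s T : ℕ) : Bool :=
  frc (f7 s 0) fun h => frc (l8 T bi) fun x =>
    go2 (nes C T x (bE d kind C T M k l bi bj) h) (Nat.shiftRight s 7) 0

/-- B-lemma: kind 0 for the comparison of k and l, kind 1 for k against its transpose -/
def stepB (d : Dat) (kind C s : ℕ) : Bool :=
  frc (f7 s 0) fun k => frc (f7 s 7) fun l => frc (Nat.mod (Nat.shiftRight s 14) 256) fun M =>
  frc (f7 s 22) fun bi => frc (f7 s 29) fun bj => frc (Nat.mod (Nat.shiftRight s 36) 256) fun h =>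
    Bool.and (Nat.blt 0 bi) (Bool.and (Nat.blt bi 78) (Bool.and (Nat.blt 0 bj)
      (Bool.and (Nat.blt bj 78)
        (go2 (edges C (bF d kind C M k l bi bj) h) (Nat.shiftRight s 44) T0))))

/-! ### steps -/

/-- first number which is not a clause -/
def CBIG : ℕ := Nat.pow 2 6006

/-- step of the given kind -/
def stepK (d : Dat) (db : ℕ → ℕ) (n C kind s : ℕ) : Bool :=
  Nat.rec (stepL db n C s) (fun kind _ => Nat.rec (stepS d C s) (fun kind _ =>
      stepB d kind C s) kind) kind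

/-- step number n -/
def step (d : Dat) (db rc : ℕ → ℕ) (n : ℕ) : Bool :=
  frc (db n) fun C => Bool.and (Nat.blt C CBIG)
    (go2 (stepK d db n C) (Nat.mod (rc n) 4) (Nat.shiftRight (rc n) 2))

/-- steps lo, ..., lo + h - 1 -/
def chunk (d : Dat) (db rc : ℕ → ℕ) (lo h : ℕ) : Bool :=
  allLt h fun i => frc (Nat.add lo i) (step d db rc)

theorem of_chunk {d : Dat} {db rc : ℕ → ℕ} {lo h : ℕ} (H : chunk d db rc lo h = true) (n : ℕ)
    (h1 : lo ≤ n) (h2 : n < lo + h) : step d db rc n = true := by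
  have h3 := (allLt_iff _ _).1 H (n - lo) (by omega)
  have h4 : step d db rc (lo + (n - lo)) = true := h3
  rwa [Nat.add_sub_cancel' h1] at h4

end Chk

end MP26f323
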