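import Pool.Agent.Lib.MP_26f323_al.Defs
import Pool.Agent.Lib.MP_26f323_al.ZonTab

/-!
MP_26f323_al, module ZON: the enumeration of A5.
-/

set_option autoImplicit false

namespace MP26f323
namespace ZonM

open Equiv

theorem pv_lt {n k : ℕ} (hn : n < 60) (hk : k < 5) : pv n k < 5 := by
  have h := (allLt_iff _ _).1 ((allLt_iff _ _).1 chk_pv n hn) k hk
  simpa [Nat.blt_eq] using h

theorem iv_lt {n : ℕ} (hn : n < 60) : iv n < 60 := by
  have h := (allLt_iff _ _).1 chk_iv n hn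
  rw [Bool.and_eq_true] at h
  simpa [Nat.blt_eq] using h.1

theorem pv_iv {n k : ℕ} (hn : n < 60) (hk : k < 5) : pv (iv n) (pv n k) = k := by
  have h := (allLt_iff _ _).1 chk_iv n hn
  rw [Bool.and_eq_true] at h
  exact Nat.eq_of_beq_eq_true ((allLt_iff _ _).1 h.2 k hk)

theorem iv_iv {n : ℕ} (hn : n < 60) : iv (iv n) = n :=
  Nat.eq_of_beq_eq_true ((allLt_iff _ _).1 chk_iviv n hn)

theorem mu_lt {i j : ℕ} (hi : i < 60) (hj : j < 60) : mu i j < 60 := by
  have h := (allLt_iff _ _).1 ((allLt_iff _ _).1 chk_mu i hi) j hj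
  rw [Bool.and_eq_true] at h
  simpa [Nat.blt_eq] using h.1

theorem pv_mu {i j k : ℕ} (hi : i < 60) (hj : j < 60) (hk : k < 5) :
    pv (mu i j) k = pv i (pv j k) := by
  have h := (allLt_iff _ _).1 ((allLt_iff _ _).1 chk_mu i hi) j hj
  rw [Bool.and_eq_true] at h
  exact Nat.eq_of_beq_eq_true ((allLt_iff _ _).1 h.2 k hk)

theorem cs_lt {n : ℕ} (hn : n < 60) : cs n < 60 := by
  have h := (allLt_iff _ _).1 chk_cs n hn
  rw [Bool.and_eq_true] at h
  simpa [Nat.blt_eq] using h.1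

theorem pv_cs {n k : ℕ} (hn : n < 60) (hk : k < 5) : pv (cs n) (s0 k) = s0 (pv n k) := by
  have h := (allLt_iff _ _).1 chk_cs n hn
  rw [Bool.and_eq_true] at h
  exact Nat.eq_of_beq_eq_true ((allLt_iff _ _).1 h.2 k hk)

theorem cr_lt {n : ℕ} (hn : n < 60) : cr n < 60 := by
  have h := (allLt_iff _ _).1 chk_cr n hn
  rw [Bool.and_eq_true] at h
  simpa [Nat.blt_eq] using h.1

theorem pv_cr {n k : ℕ} (hn : n < 60) (hk : k < 5) : pv (cr n) (r0 k) = r0 (pv n k) := by
  have h := (allLt_iff _ _).1 chk_cr n hn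
  rw [Bool.and_eq_true] at h
  exact Nat.eq_of_beq_eq_true ((allLt_iff _ _).1 h.2 k hk)

/-- the permutation number n as a function -/
def fn (n : ℕ) (k : Fin 5) : Fin 5 := ⟨Nat.mod (pv n k) 5, Nat.mod_lt _ (by norm_num)⟩

theorem fn_val {n : ℕ} (hn : n < 60) (k : Fin 5) : (fn n k : ℕ) = pv n k :=
  Nat.mod_eq_of_lt (pv_lt hn k.2)

/-- the permutation number n -/
def pm (n : Fin 60) : Perm (Fin 5) where
  toFun := fn n
  invFun := fn (iv n)
  left_inv := fun k => by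
    apply Fin.ext
    rw [fn_val (iv_lt n.2), fn_val n.2, pv_iv n.2 k.2]
  right_inv := fun k => by
    apply Fin.ext
    rw [fn_val n.2, fn_val (iv_lt n.2)]
    have h := pv_iv (iv_lt n.2) k.2
    rw [iv_iv n.2] at h
    exact h

theorem pm_val (n : Fin 60) (k : Fin 5) : (pm n k : ℕ) = pv n k := fn_val n.2 k

theorem sign_pm : ∀ n : Fin 60, Perm.sign (pm n) = 1 := by
  decide +kernel

/-- the element number n of A5 -/
def e0 (n : Fin 60) : A := ⟨pm n, Perm.mem_alternatingGroup.2 (sign_pm n)⟩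

/-- the number of an element -/
def ix (a : A) : ℕ :=
  lk 6 tabI (Nat.add ((a : Perm (Fin 5)) 0 : ℕ) (Nat.add (Nat.mul 5 ((a : Perm (Fin 5)) 1 : ℕ))
    (Nat.mul 25 ((a : Perm (Fin 5)) 2 : ℕ))))

theorem ix_e0 (n : Fin 60) : ix (e0 n) = n := by
  have h := (allLt_iff _ _).1 chk_idx n n.2
  have h1 := Nat.eq_of_beq_eq_true h
  unfold ix e0
  simp only [pm_val]
  exact h1

theorem card_A : Fintype.card A = 60 := by
  have h2 := two_mul_card_alternatingGroup (α := Fin 5)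
  have h3 : Fintype.card (Perm (Fin 5)) = 120 := by
    rw [Fintype.card_perm]; decide
  have h4 : 2 * Fintype.card A = 120 := by
    rw [← h3, ← h2]
  omega

theorem e0_inj : Function.Injective e0 := by
  intro a b h
  have h1 := congrArg ix h
  rw [ix_e0, ix_e0] at h1
  exact Fin.ext h1

theorem e0_bij : Function.Bijective e0 :=
  (Fintype.bijective_iff_injective_and_card e0).2 ⟨e0_inj, by rw [card_A, Fintype.card_fin]⟩

theorem exists_e0 (a : A) : ∃ n : Fin 60, e0 n = a := e0_bij.2 a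

theorem ix_lt (a : A) : ix a < 60 := by
  obtain ⟨n, rfl⟩ := exists_e0 a
  rw [ix_e0]
  exact n.2

/-- the element number n -/
def el (n : ℕ) : A := if h : n < 60 then e0 ⟨n, h⟩ else 1

theorem el_ix (a : A) : el (ix a) = a := by
  obtain ⟨n, rfl⟩ := exists_e0 a
  rw [ix_e0, el, dif_pos n.2]

theorem ix_el {n : ℕ} (hn : n < 60) : ix (el n) = n := by
  rw [el, dif_pos hn, ix_e0]

theorem val_eq (a : A) (k : Fin 5) : ((a : Perm (Fin 5)) k : ℕ) = pv (ix a) k := by
  obtain ⟨n, rfl⟩ := exists_e0 a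
  rw [ix_e0]
  exact pm_val n k

theorem eq_of_pv {a : A} {n : ℕ} (hn : n < 60)
    (h : ∀ k : Fin 5, ((a : Perm (Fin 5)) k : ℕ) = pv n k) : ix a = n := by
  have h1 : a = e0 ⟨n, hn⟩ := by
    apply Subtype.ext
    apply Equiv.ext
    intro k
    apply Fin.ext
    rw [h k]
    exact (pm_val ⟨n, hn⟩ k).symm
  rw [h1, ix_e0]

theorem ix_inj {a b : A} (h : ix a = ix b) : a = b := by
  rw [← el_ix a, ← el_ix b, h]

theorem ix_mul (a b : A) : ix (a * b) = mu (ix a) (ix b) := by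
  apply eq_of_pv (mu_lt (ix_lt a) (ix_lt b))
  intro k
  rw [pv_mu (ix_lt a) (ix_lt b) k.2, ← val_eq b k, ← val_eq a]
  rfl

theorem ix_one : ix 1 = 0 := by
  apply eq_of_pv (by norm_num)
  decide

theorem ix_inv (a : A) : ix a⁻¹ = iv (ix a) := by
  apply eq_of_pv (iv_lt (ix_lt a))
  intro k
  have h2 := pv_iv (ix_lt a) (((a⁻¹ : A) : Perm (Fin 5)) k).2
  rw [← val_eq a] at h2
  rw [← h2]
  congr 1
  have h3 : (a : Perm (Fin 5)) (((a⁻¹ : A) : Perm (Fin 5)) k) = k := by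
    have : (a : Perm (Fin 5)) (((a⁻¹ : A) : Perm (Fin 5)) k) =
      ((a * a⁻¹ : A) : Perm (Fin 5)) k := rfl
    rw [this, mul_inv_cancel]
    rfl
  rw [h3]

theorem s0_eq (k : Fin 5) : s0 k = ((swap 0 1 : Perm (Fin 5)) k : ℕ) := by
  revert k
  decide

theorem r0_eq (k : Fin 5) : r0 k = ((finRotate 5 : Perm (Fin 5)) k : ℕ) := by
  revert k
  decide

theorem cj_coe (σ : Perm (Fin 5)) (a : A) :
    ((cjA σ a : A) : Perm (Fin 5)) = σ * (a : Perm (Fin 5)) * σ⁻¹ := by
  unfold cjA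
  exact MulAut.conjNormal_apply σ a

theorem cj_app (σ : Perm (Fin 5)) (a : A) (k : Fin 5) :
    ((cjA σ a : A) : Perm (Fin 5)) (σ k) = σ ((a : Perm (Fin 5)) k) := by
  rw [cj_coe]
  simp [Perm.mul_apply]

theorem ix_cs (a : A) : ix (cjA (swap 0 1) a) = cs (ix a) := by
  apply eq_of_pv (cs_lt (ix_lt a))
  intro k
  obtain ⟨l, rfl⟩ : ∃ l, (swap 0 1 : Perm (Fin 5)) l = k := (swap 0 1 : Perm (Fin 5)).surjective k
  rw [cj_app, ← s0_eq l, pv_cs (ix_lt a) l.2, ← val_eq a l, s0_eq]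

theorem ix_cr (a : A) : ix (cjA (finRotate 5) a) = cr (ix a) := by
  apply eq_of_pv (cr_lt (ix_lt a))
  intro k
  obtain ⟨l, rfl⟩ : ∃ l, (finRotate 5 : Perm (Fin 5)) l = k :=
    (finRotate 5 : Perm (Fin 5)).surjective k
  rw [cj_app, ← r0_eq l, pv_cr (ix_lt a) l.2, ← val_eq a l, r0_eq]

theorem cj_one (a : A) : cjA 1 a = a := by
  apply Subtype.ext
  rw [cj_coe]
  simp

theorem cj_cj (σ τ : Perm (Fin 5)) (a : A) : cjA σ (cjA τ a) = cjA (σ * τ) a := by
  apply Subtype.ext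
  rw [cj_coe, cj_coe, cj_coe]
  simp [mul_assoc]

theorem cj_mul (σ : Perm (Fin 5)) (a b : A) : cjA σ (a * b) = cjA σ a * cjA σ b := by
  unfold cjA
  exact map_mul _ a b

theorem cj_inv (σ : Perm (Fin 5)) (a : A) : cjA σ a⁻¹ = (cjA σ a)⁻¹ := by
  unfold cjA
  exact map_inv _ a

theorem closure_gen : Subgroup.closure
    ({finRotate 5, swap 0 1} : Set (Perm (Fin 5))) = ⊤ := by
  have h := Equiv.Perm.closure_cycle_adjacent_swap (σ := (finRotate 5 : Perm (Fin 5)))
    (isCycle_finRotate) (support_finRotate) 0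
  have h1 : (finRotate 5 : Perm (Fin 5)) 0 = 1 := by decide
  rw [h1] at h
  exact h

/-- a property of permutations that holds for the two generators and is stable under products and
inverses -/
theorem perm_ind (P : Perm (Fin 5) → Prop) (hr : P (finRotate 5)) (hs : P (swap 0 1))
    (h1 : P 1) (hm : ∀ a b, P a → P b → P (a * b)) (hi : ∀ a, P a → P a⁻¹) : ∀ σ, P σ := by
  intro σ
  have h : σ ∈ Subgroup.closure ({finRotate 5, swap 0 1} : Set (Perm (Fin 5))) := by
    rw [closure_gen]; exact Subgroup.mem_top σ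
  induction h using Subgroup.closure_induction with
  | mem x hx =>
    rcases hx with hx | hx
    · rw [hx]; exact hr
    · rw [Set.mem_singleton_iff.1 hx]; exact hs
  | one => exact h1
  | mul x y _ _ hx hy => exact hm x y hx hy
  | inv x _ hx => exact hi x hx

end ZonM
end MP26f323
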