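import Pool.Agent.Lib.MP_26f323_al.Defs
import Pool.Agent.Lib.MP_26f323_al.ZonTab

/-!
MP_26f323_al, module ZON: numerical identities of the zonal algebra.
-/

set_option autoImplicit false

namespace MP26f323
namespace ZonM

/-- the matrix B, shifted by 720, 11 bits each -/
def tabB : ℕ :=
  0x2cc594b256a2cd5b8bb969ac0590b39672d159cb3968ad158cb59722ce594b11622d05a4b396a2e059cb5168ac85a2b416b2c1588b65622e25beb71622ca5acb25652d659ab45682c65b2b1168af4564b1d6e2dc584b5968aca5acb3568ad25a0b916d2d05a0b41592e4596b695e2cb590b2d6d2d15c0b016c2c05a4b21682d8580b716c2d8598b6164acc5a2b596f2c4594b49642e4560b79692c45b0b596c2c9598b456b2de588b29642be5a0b89652eb59cb1168ac45a6b5968ac858cb55722d5578ac979ae45a0b19632d55a4b196aad15c4b2956306594b41562d05c4af96e2d05a4b416cac45a2b29692dc57cb69682dc5a0b296b2ec540b69682d9588b45682d05d0c016b2b85a0ae1502dc570ae1662e85cab7168adc5c8bb9682da5a0a5168294564b69862da57cb416fad15b8b916829458cbe1542f85c8aa1682a85a0bc16aae45a2af9772945dcb69862945a0ac9772e45a0b196e2c15a0b455f2b2528ac9682b25a0ac9772df5dcc316aadc5bebb968b186910e21c2ee8716821c438708d221c2e4630bf5862d1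

/-- the matrix with entries 720 psi, shifted by 720, 11 bits each -/
def tabC : ℕ :=
  0x2a8558b096c2885d0bb96b2b0560b11662f4578ac16e5a04d8bd17c2cc480ae1622d05a8b21742f0510be170270b40b417a2b2570ea15c2e25dcba1502ac5b87514a330559681682945c4ae174318564af9743004f8b717a294660ab2d02e45a0be1722d05a0b414a2f8578c315421c500a01a45a06e09c1702b0600b01682e0560c01802e0480c81302a0b40c31922b8588c01602e4520bb16c2885c0ea19026054168186324570b11082ac5a0bd16233c588ae17a258600c62d0280528b697c348550ac98b2f85a0a515e3845c88c1865a0708ab14433c480b41562d05e8a218c2d0630b41b0240b40a516e2e8558f01682dc5a0b11743784e10e168360481681682d0600cc1b02a05a0a8138300480a81203c0840d82d0348690c31683c05a0a51682584b0c31a4438438b41c25a0690d21682583c0c81543205f08c1682805a1041903c0b40871c2258618f01a42945a0a51a43485a05a1a41e05a16810e21c4b0a51682945a0a518630c708d21c23487810e2d05a0b41682d05a0b41682d05a0b41682d05a0b41682d05a0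

/-- B shifted by 720 -/
def bt (i t : ℕ) : ℕ := lk 11 tabB (Nat.add (Nat.mul 17 i) t)

/-- 720 psi shifted by 720 -/
def ct (i t : ℕ) : ℕ := lk 11 tabC (Nat.add (Nat.mul 17 i) t)

/-- digit number k in base 4096 -/
def dg (H k : ℕ) : ℕ := Nat.mod (Nat.div H (Nat.pow 4096 k)) 4096

theorem chk_bt : ∀ i t : Fin 17, B i t = (bt i t : ℤ) - 720 := by
  decide +kernel

theorem chk_ct : ∀ i t : Fin 17, B i t * 720 = ((ct i t : ℤ) - 720) * B 0 t := by
  decide +kernel

theorem B0_pos : ∀ t : Fin 17, 0 < B 0 t := by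
  decide +kernel

theorem chk_sum : allLt 17 (fun s => allLt 17 (fun t => Nat.beq
    (Nat.add (sumLt 17 (fun u => dg (tabH s) (Nat.add (Nat.mul 17 t) u))) 720) (bt 0 t))) = true := by
  decide +kernel

theorem chk_eig : allLt 17 (fun s => allLt 17 (fun i => allLt 17 (fun t => Nat.beq
    (Nat.add (sumLt 17 (fun u => Nat.mul (dg (tabH s) (Nat.add (Nat.mul 17 t) u)) (ct i u)))
      (Nat.add (Nat.mul 720 (bt i t)) (Nat.mul 720 (ct i s))))
    (Nat.add (Nat.mul (bt i t) (ct i s)) (Nat.mul 720 (bt 0 t)))))) = true := by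
  decide +kernel

end ZonM
end MP26f323
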