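import Pool.Agent.Lib.MP_26f323_al.Spec
import Pool.Agent.Lib.MP_26f323_al.ZonA
import Pool.Agent.Lib.MP_26f323_al.ZonC

/-!
MP_26f323_al, module ZON: the 17 types of pairs of elements of A5 and the zonal algebra.
-/

set_option autoImplicit false
set_option linter.constructorNameAsVariable false

namespace MP26f323
namespace ZonM

open Equiv Finset

theorem ty_all {i j : ℕ} (hi : i < 60) (hj : j < 60) : ty i j < 17 ∧ ty j i = ty i j ∧
    ty (mu i (iv j)) (iv j) = ty i j ∧ ty (cs i) (cs j) = ty i j ∧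
    ty (cr i) (cr j) = ty i j := by
  have h := (allLt_iff _ _).1 ((allLt_iff _ _).1 chk_ty i hi) j hj
  simp only [Bool.and_eq_true, Nat.blt_eq, Nat.beq_eq] at h
  exact h

/-- the type of a pair -/
def typ (b c : A) : Fin 17 := ⟨ty (ix b) (ix c), (ty_all (ix_lt b) (ix_lt c)).1⟩

theorem typ_val (b c : A) : (typ b c : ℕ) = ty (ix b) (ix c) := rfl

theorem typ_swap (b c : A) : typ c b = typ b c := by
  apply Fin.ext
  exact (ty_all (ix_lt b) (ix_lt c)).2.1

theorem typ_tw (b c : A) : typ (b * c⁻¹) c⁻¹ = typ b c := by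
  apply Fin.ext
  rw [typ_val, ix_mul, ix_inv]
  exact (ty_all (ix_lt b) (ix_lt c)).2.2.1

theorem typ_cs (b c : A) : typ (cjA (swap 0 1) b) (cjA (swap 0 1) c) = typ b c := by
  apply Fin.ext
  rw [typ_val, ix_cs, ix_cs]
  exact (ty_all (ix_lt b) (ix_lt c)).2.2.2.1

theorem typ_cr (b c : A) : typ (cjA (finRotate 5) b) (cjA (finRotate 5) c) = typ b c := by
  apply Fin.ext
  rw [typ_val, ix_cr, ix_cr]
  exact (ty_all (ix_lt b) (ix_lt c)).2.2.2.2

theorem typ_cj (σ : Perm (Fin 5)) : ∀ b c : A, typ (cjA σ b) (cjA σ c) = typ b c := by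
  revert σ
  apply perm_ind
  · exact typ_cr
  · exact typ_cs
  · intro b c
    rw [cj_one, cj_one]
  · intro σ τ hσ hτ b c
    rw [← cj_cj, ← cj_cj, hσ, hτ]
  · intro σ hσ b c
    rw [← hσ (cjA σ⁻¹ b) (cjA σ⁻¹ c), cj_cj, cj_cj, mul_inv_cancel, cj_one, cj_one]

/-- first component of the representative of a type -/
def ra (t : Fin 17) : A := el (rx t)

/-- second component of the representative of a type -/
def rb (t : Fin 17) : A := el (ry t)

theorem rep_all (t : Fin 17) : rx t < 60 ∧ ry t < 60 ∧ ty (rx t) (ry t) = t := by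
  have h := (allLt_iff _ _).1 chk_rep t t.2
  simp only [Bool.and_eq_true, Nat.blt_eq, Nat.beq_eq] at h
  exact h

theorem ix_ra (t : Fin 17) : ix (ra t) = rx t := ix_el (rep_all t).1

theorem ix_rb (t : Fin 17) : ix (rb t) = ry t := ix_el (rep_all t).2.1

theorem typ_rep (t : Fin 17) : typ (ra t) (rb t) = t := by
  apply Fin.ext
  rw [typ_val, ix_ra, ix_rb]
  exact (rep_all t).2.2

/-- functions invariant under the moves depend on the type only -/
theorem const_of_inv {α : Type*} (K : A → A → α) (hsw : ∀ b c, K c b = K b c)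
    (htw : ∀ b c, K (b * c⁻¹) c⁻¹ = K b c)
    (hcj : ∀ (σ : Perm (Fin 5)) (b c : A), K (cjA σ b) (cjA σ c) = K b c) :
    ∀ b c, K b c = K (ra (typ b c)) (rb (typ b c)) := by
  have main : ∀ (d : ℕ) (b c : A), dp (ix b) (ix c) = d →
      K b c = K (ra (typ b c)) (rb (typ b c)) := by
    intro d
    induction d using Nat.strong_induction_on with
    | _ d ih =>
      intro b c hd
      have h := (allLt_iff _ _).1 ((allLt_iff _ _).1 chk_tree (ix b) (ix_lt b)) (ix c) (ix_lt c)
      simp only [Bool.or_eq_true, Bool.and_eq_true, Nat.blt_eq, Nat.beq_eq] at h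
      rcases h with h | h
      · have h1 : ra (typ b c) = b := by
          apply ix_inj
          rw [ix_ra]
          exact h.1
        have h2 : rb (typ b c) = c := by
          apply ix_inj
          rw [ix_rb]
          exact h.2
        rw [h1, h2]
      · have hm : mv (ix b) (ix c) < 4 := lk_lt _ _ _
        have hcase : mv (ix b) (ix c) = 0 ∨ mv (ix b) (ix c) = 1 ∨ mv (ix b) (ix c) = 2 ∨
            mv (ix b) (ix c) = 3 := by omega
        rcases hcase with hc | hc | hc | hc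
        · rw [hc] at h
          have h1 : dp (ix c) (ix b) < dp (ix b) (ix c) := h.1
          have h2 := ih _ (hd ▸ h1) c b rfl
          rw [hsw, typ_swap] at h2
          exact h2
        · rw [hc] at h
          have h1 : dp (mu (ix b) (iv (ix c))) (iv (ix c)) < dp (ix b) (ix c) := h.1
          rw [← ix_inv, ← ix_mul] at h1
          have h2 := ih _ (hd ▸ h1) (b * c⁻¹) c⁻¹ rfl
          rw [htw, typ_tw] at h2
          exact h2
        · rw [hc] at h
          have h1 : dp (cs (ix b)) (cs (ix c)) < dp (ix b) (ix c) := h.1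
          rw [← ix_cs, ← ix_cs] at h1
          have h2 := ih _ (hd ▸ h1) (cjA (swap 0 1) b) (cjA (swap 0 1) c) rfl
          rw [hcj, typ_cj] at h2
          exact h2
        · rw [hc] at h
          have h1 : dp (cr (ix b)) (cr (ix c)) < dp (ix b) (ix c) := h.1
          rw [← ix_cr, ← ix_cr] at h1
          have h2 := ih _ (hd ▸ h1) (cjA (finRotate 5) b) (cjA (finRotate 5) c) rfl
          rw [hcj, typ_cj] at h2
          exact h2
  intro b c
  exact main _ b c rfl

theorem sum_A {M : Type*} [AddCommMonoid M] (g : ℕ → M) :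
    ∑ a : A, g (ix a) = ∑ i ∈ range 60, g i := by
  rw [← e0_bij.sum_comp (fun a => g (ix a)), Finset.sum_range]
  exact Finset.sum_congr rfl (fun n _ => by rw [ix_e0])

theorem digit (b : ℕ) (hb : 0 < b) (k : ℕ) : ∀ (n : ℕ) (c : ℕ → ℕ), (∀ v, c v < b) → k < n →
    (∑ v ∈ range n, c v * b ^ v) / b ^ k % b = c k := by
  induction k with
  | zero =>
    intro n c hc hk
    obtain ⟨m, rfl⟩ : ∃ m, n = m + 1 := ⟨n - 1, by omega⟩
    rw [Finset.sum_range_succ', pow_zero, Nat.div_one, mul_one]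
    have h : ∑ v ∈ range m, c (v + 1) * b ^ (v + 1) =
        b * ∑ v ∈ range m, c (v + 1) * b ^ v := by
      rw [Finset.mul_sum]
      exact Finset.sum_congr rfl (fun v _ => by ring)
    rw [h, Nat.mul_add_mod, Nat.mod_eq_of_lt (hc 0)]
  | succ k ih =>
    intro n c hc hk
    obtain ⟨m, rfl⟩ : ∃ m, n = m + 1 := ⟨n - 1, by omega⟩
    rw [Finset.sum_range_succ', pow_zero, mul_one]
    have h : ∑ v ∈ range m, c (v + 1) * b ^ (v + 1) =
        b * ∑ v ∈ range m, c (v + 1) * b ^ v := by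
      rw [Finset.mul_sum]
      exact Finset.sum_congr rfl (fun v _ => by ring)
    rw [h, pow_succ', ← Nat.div_div_eq_div_mul, Nat.mul_add_div hb, Nat.div_eq_of_lt (hc 0),
      add_zero]
    exact ih m (fun v => c (v + 1)) (fun v => hc _) (by omega)

/-- code of the pair of types (typ w, typ (x w)) -/
def cd (x y : A) (p : A × A) : ℕ := 17 * (typ p.1 p.2 : ℕ) + (typ (x * p.1) (y * p.2) : ℕ)

theorem sum_cd (s : Fin 17) : ∑ p : A × A, 4096 ^ (cd (ra s) (rb s) p) = tabH s := by
  have h0 := (allLt_iff _ _).1 chk_hist s s.2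
  have h1 : hist s = tabH s := Nat.eq_of_beq_eq_true h0
  rw [← h1, hist, sumLt_eq, Fintype.sum_prod_type]
  rw [← sum_A (fun i => sumLt 60 (fun j =>
    Nat.pow 4096 (Nat.add (Nat.mul 17 (ty i j)) (ty (mu (rx s) i) (mu (ry s) j)))))]
  refine Finset.sum_congr rfl (fun a _ => ?_)
  rw [sumLt_eq, ← sum_A (fun j =>
    Nat.pow 4096 (Nat.add (Nat.mul 17 (ty (ix a) j)) (ty (mu (rx s) (ix a)) (mu (ry s) j))))]
  refine Finset.sum_congr rfl (fun b _ => ?_)
  unfold cd
  rw [typ_val, typ_val, ix_mul, ix_mul, ix_ra, ix_rb]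
  rfl

theorem card_AA : Fintype.card (A × A) = 3600 := by
  rw [Fintype.card_prod, card_A]

/-- the intersection numbers are the digits of the table -/
theorem card_cd (s t u : Fin 17) :
    ((univ : Finset (A × A)).filter (fun p => typ p.1 p.2 = t ∧
      typ (ra s * p.1) (rb s * p.2) = u)).card = dg (tabH s) (17 * t + u) := by
  have h1 : ∑ p : A × A, 4096 ^ (cd (ra s) (rb s) p) =
      ∑ v ∈ range 289, ((univ : Finset (A × A)).filter
        (fun p => cd (ra s) (rb s) p = v)).card * 4096 ^ v := by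
    rw [← Finset.sum_fiberwise_of_maps_to (t := range 289) (g := cd (ra s) (rb s))]
    · refine Finset.sum_congr rfl (fun v _ => ?_)
      rw [Finset.sum_congr rfl (g := fun _ => 4096 ^ v)]
      · rw [Finset.sum_const, smul_eq_mul]
      · intro p hp
        simp only [Finset.mem_filter, Finset.mem_univ, true_and] at hp
        rw [hp]
    · intro p _
      rw [Finset.mem_range]
      unfold cd
      have h2 := (typ p.1 p.2).2
      have h3 := (typ (ra s * p.1) (rb s * p.2)).2
      omega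
  rw [sum_cd] at h1
  have h2 := digit 4096 (by norm_num) (17 * (t : ℕ) + u) 289
    (fun v => ((univ : Finset (A × A)).filter
        (fun p => cd (ra s) (rb s) p = v)).card) ?_ ?_
  · rw [← h1] at h2
    have h3 : dg (tabH s) (17 * t + u) = tabH s / 4096 ^ (17 * (t : ℕ) + u) % 4096 := rfl
    rw [h3, h2]
    refine congrArg Finset.card (Finset.ext (fun p => ?_))
    simp only [Finset.mem_filter, Finset.mem_univ, true_and]
    unfold cd
    have h4 := (typ p.1 p.2).2
    have h5 := (typ (ra s * p.1) (rb s * p.2)).2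
    constructor
    · rintro ⟨rfl, rfl⟩
      rfl
    · intro h
      have ht := t.2
      have hu := u.2
      constructor
      · apply Fin.ext
        omega
      · apply Fin.ext
        omega
  · intro v
    have h4 := Finset.card_le_univ ((univ : Finset (A × A)).filter
        (fun p => cd (ra s) (rb s) p = v))
    rw [card_AA] at h4
    exact lt_of_le_of_lt h4 (by norm_num)
  · have h4 := t.2
    have h5 := u.2
    omega

theorem sum_card (s t : Fin 17) (g : Fin 17 → ℚ) :
    ∑ p ∈ (univ : Finset (A × A)).filter (fun p => typ p.1 p.2 = t),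
      g (typ (ra s * p.1) (rb s * p.2)) = ∑ u : Fin 17, (dg (tabH s) (17 * t + u) : ℚ) * g u := by
  rw [← Finset.sum_fiberwise_of_maps_to (t := (univ : Finset (Fin 17)))
    (g := fun p : A × A => typ (ra s * p.1) (rb s * p.2)) (fun _ _ => Finset.mem_univ _)]
  refine Finset.sum_congr rfl (fun u _ => ?_)
  rw [Finset.filter_filter, ← card_cd, Finset.sum_congr rfl (g := fun _ => g u)]
  · rw [Finset.sum_const, nsmul_eq_mul]
  · intro p hp
    simp only [Finset.mem_filter, Finset.mem_univ, true_and] at hp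
    rw [hp.2]

theorem sum_dg (s t : Fin 17) : ∑ u : Fin 17, (dg (tabH s) (17 * t + u) : ℤ) = B 0 t := by
  have h := (allLt_iff _ _).1 ((allLt_iff _ _).1 chk_sum s s.2) t t.2
  have h1 := Nat.eq_of_beq_eq_true h
  rw [sumLt_eq] at h1
  have h2 : ∑ u ∈ range 17, dg (tabH s) (17 * t + u) + 720 = bt 0 t := h1
  rw [Finset.sum_range] at h2
  have h3 := chk_bt 0 t
  have h4 : ((∑ u : Fin 17, dg (tabH s) (17 * t + u) + 720 : ℕ) : ℤ) = (bt 0 t : ℤ) := by
    rw [h2]
  push_cast at h4
  have h5 : ((0 : Fin 17) : ℕ) = 0 := rfl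
  rw [h5] at h3
  linarith

theorem card_typ (t : Fin 17) : (((univ : Finset (A × A)).filter
    (fun p => typ p.1 p.2 = t)).card : ℤ) = B 0 t := by
  have h := sum_card 0 t (fun _ => 1)
  simp only [Finset.sum_const, nsmul_eq_mul, mul_one] at h
  have h1 := sum_dg 0 t
  have h2 : ((∑ u : Fin 17, (dg (tabH (0 : Fin 17)) (17 * t + u) : ℤ) : ℤ) : ℚ) =
      ((B 0 t : ℤ) : ℚ) := by rw [h1]
  push_cast at h2
  have h3 : ((((univ : Finset (A × A)).filter
    (fun p => typ p.1 p.2 = t)).card : ℤ) : ℚ) = ((B 0 t : ℤ) : ℚ) := by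
    rw [← h2, ← h]
    push_cast
    rfl
  exact_mod_cast h3

theorem eig_int (s i t : Fin 17) :
    ∑ u : Fin 17, (dg (tabH s) (17 * t + u) : ℤ) * ((ct i u : ℤ) - 720) =
      B i t * ((ct i s : ℤ) - 720) := by
  have h := (allLt_iff _ _).1 ((allLt_iff _ _).1 ((allLt_iff _ _).1 chk_eig s s.2) i i.2) t t.2
  have h1 := Nat.eq_of_beq_eq_true h
  rw [sumLt_eq] at h1
  have h2 : ∑ u ∈ range 17, dg (tabH s) (17 * t + u) * ct i u +
      (720 * bt i t + 720 * ct i s) = bt i t * ct i s + 720 * bt 0 t := h1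
  rw [Finset.sum_range] at h2
  have h4 : ((∑ u : Fin 17, dg (tabH s) (17 * t + u) * ct i u +
      (720 * bt i t + 720 * ct i s) : ℕ) : ℤ) = ((bt i t * ct i s + 720 * bt 0 t : ℕ) : ℤ) := by
    rw [h2]
  push_cast at h4
  have h5 := sum_dg s t
  have h6 : ∑ u : Fin 17, (dg (tabH s) (17 * t + u) : ℤ) * ((ct i u : ℤ) - 720) =
      ∑ u : Fin 17, (dg (tabH s) (17 * t + u) : ℤ) * (ct i u : ℤ) -
        720 * ∑ u : Fin 17, (dg (tabH s) (17 * t + u) : ℤ) := by
    rw [Finset.mul_sum, ← Finset.sum_sub_distrib]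
    exact Finset.sum_congr rfl (fun u _ => by ring)
  rw [h6, h5, chk_bt i t]
  have h7 := chk_bt 0 t
  have h8 : ((0 : Fin 17) : ℕ) = 0 := rfl
  rw [h8] at h7
  rw [h7]
  linarith

theorem psi_eq (i u : Fin 17) : psi i u = (((ct i u : ℤ) - 720 : ℤ) : ℚ) / 720 := by
  unfold psi
  have h := chk_ct i u
  have h0 := B0_pos u
  have h0' : ((B 0 u : ℤ) : ℚ) ≠ 0 := by
    have : (0 : ℚ) < ((B 0 u : ℤ) : ℚ) := by exact_mod_cast h0
    exact this.ne'
  rw [div_eq_div_iff h0' (by norm_num)]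
  exact_mod_cast h

theorem eig_rep (s i t : Fin 17) :
    ∑ p ∈ (univ : Finset (A × A)).filter (fun p => typ p.1 p.2 = t),
      psi i (typ (ra s * p.1) (rb s * p.2)) = (B i t : ℚ) * psi i s := by
  rw [sum_card s t (psi i), psi_eq i s]
  have h := eig_int s i t
  have h1 : ((∑ u : Fin 17, (dg (tabH s) (17 * t + u) : ℤ) * ((ct i u : ℤ) - 720) : ℤ) : ℚ) =
      ((B i t * ((ct i s : ℤ) - 720) : ℤ) : ℚ) := by rw [h]
  have h2 : ∑ u : Fin 17, (dg (tabH s) (17 * t + u) : ℚ) * psi i u =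
      ((∑ u : Fin 17, (dg (tabH s) (17 * t + u) : ℤ) * ((ct i u : ℤ) - 720) : ℤ) : ℚ) / 720 := by
    rw [Int.cast_sum, Finset.sum_div]
    refine Finset.sum_congr rfl (fun u _ => ?_)
    rw [psi_eq]
    push_cast
    ring
  rw [h2, h1]
  push_cast
  ring

/-- the averaged function -/
noncomputable def G (i t : Fin 17) (b c : A) : ℚ :=
  ∑ p ∈ (univ : Finset (A × A)).filter (fun p => typ p.1 p.2 = t), psi i (typ (b * p.1) (c * p.2))

theorem G_swap (i t : Fin 17) (b c : A) : G i t c b = G i t b c := by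
  unfold G
  refine Finset.sum_bij' (fun p _ => (p.2, p.1)) (fun p _ => (p.2, p.1)) ?_ ?_ ?_ ?_ ?_
  · intro p hp
    simp only [Finset.mem_filter, Finset.mem_univ, true_and] at hp ⊢
    rw [← hp]
    exact typ_swap _ _
  · intro p hp
    simp only [Finset.mem_filter, Finset.mem_univ, true_and] at hp ⊢
    rw [← hp]
    exact typ_swap _ _
  · intro p _
    rfl
  · intro p _
    rfl
  · intro p _
    rw [typ_swap]

theorem G_cj (i t : Fin 17) (σ : Perm (Fin 5)) (b c : A) :
    G i t (cjA σ b) (cjA σ c) = G i t b c := by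
  unfold G
  refine Finset.sum_bij' (fun p _ => (cjA σ⁻¹ p.1, cjA σ⁻¹ p.2))
    (fun p _ => (cjA σ p.1, cjA σ p.2)) ?_ ?_ ?_ ?_ ?_
  · intro p hp
    simp only [Finset.mem_filter, Finset.mem_univ, true_and] at hp ⊢
    rw [← hp]
    exact typ_cj _ _ _
  · intro p hp
    simp only [Finset.mem_filter, Finset.mem_univ, true_and] at hp ⊢
    rw [← hp]
    exact typ_cj _ _ _
  · intro p _
    simp only [cj_cj, mul_inv_cancel, cj_one]
  · intro p _
    simp only [cj_cj, inv_mul_cancel, cj_one]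
  · intro p _
    simp only
    rw [← typ_cj σ (b * cjA σ⁻¹ p.1) (c * cjA σ⁻¹ p.2), cj_mul, cj_mul, cj_cj, cj_cj,
      mul_inv_cancel, cj_one, cj_one]

theorem cj_conj (c a : A) : cjA (c : Perm (Fin 5)) a = c * a * c⁻¹ := by
  apply Subtype.ext
  rw [cj_coe]
  rfl

theorem typ_conj (c x y : A) : typ (c * x * c⁻¹) (c * y * c⁻¹) = typ x y := by
  rw [← cj_conj, ← cj_conj, typ_cj]

theorem G_tw (i t : Fin 17) (b c : A) : G i t (b * c⁻¹) c⁻¹ = G i t b c := by
  unfold G
  refine Finset.sum_bij' (fun p _ => (c⁻¹ * p.1 * p.2⁻¹ * c, c⁻¹ * p.2⁻¹ * c))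
    (fun q _ => (c * q.1 * q.2⁻¹ * c⁻¹, c * q.2⁻¹ * c⁻¹)) ?_ ?_ ?_ ?_ ?_
  · intro p hp
    simp only [Finset.mem_filter, Finset.mem_univ, true_and] at hp ⊢
    rw [← hp]
    rw [← typ_conj c]
    have h1 : c * (c⁻¹ * p.1 * p.2⁻¹ * c) * c⁻¹ = p.1 * p.2⁻¹ := by group
    have h2 : c * (c⁻¹ * p.2⁻¹ * c) * c⁻¹ = p.2⁻¹ := by group
    rw [h1, h2, typ_tw]
  · intro q hq
    simp only [Finset.mem_filter, Finset.mem_univ, true_and] at hq ⊢
    rw [← hq]
    have h1 : c * q.1 * q.2⁻¹ * c⁻¹ = c * (q.1 * q.2⁻¹) * c⁻¹ := by group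
    rw [h1, typ_conj, typ_tw]
  · intro p _
    ext1
    · simp only
      group
    · simp only
      group
  · intro q _
    ext1
    · simp only
      group
    · simp only
      group
  · intro p _
    simp only
    rw [← typ_tw (b * (c⁻¹ * p.1 * p.2⁻¹ * c)) (c * (c⁻¹ * p.2⁻¹ * c))]
    have h1 : b * (c⁻¹ * p.1 * p.2⁻¹ * c) * (c * (c⁻¹ * p.2⁻¹ * c))⁻¹ = b * c⁻¹ * p.1 := by group
    have h2 : (c * (c⁻¹ * p.2⁻¹ * c))⁻¹ = c⁻¹ * p.2 := by group
    rw [h1, h2]

theorem zon : Zon typ where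
  inv := fun K hsw htw hcj => ⟨fun t => K (ra t) (rb t), const_of_inv K hsw htw hcj⟩
  zero := by
    intro b c
    constructor
    · intro h
      have h0 : ty (ix b) (ix c) = 0 := by
        rw [← typ_val, h]
        rfl
      have h1 := (allLt_iff _ _).1 ((allLt_iff _ _).1 chk_zero (ix b) (ix_lt b)) (ix c) (ix_lt c)
      rw [h0] at h1
      simp only [Bool.or_eq_true, Bool.and_eq_true, Nat.beq_eq, Bool.not_eq_true'] at h1
      rcases h1 with h1 | h1
      · exact absurd h1 (by decide)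
      · exact ⟨ix_inj (by rw [ix_one, h1.1]), ix_inj (by rw [ix_one, h1.2])⟩
    · rintro ⟨rfl, rfl⟩
      apply Fin.ext
      rw [typ_val, ix_one]
      decide +kernel
  one := by
    intro b hb
    have h1 := (allLt_iff _ _).1 chk_one (ix b) (ix_lt b)
    simp only [Bool.or_eq_true, Bool.and_eq_true, Nat.beq_eq, Nat.ble_eq] at h1
    rcases h1 with h1 | h1
    · exact absurd (ix_inj (by rw [ix_one, h1])) hb
    · have h2 : (typ b 1 : ℕ) = ty (ix b) 0 := by rw [typ_val, ix_one]
      rw [← h2] at h1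
      have h3 : (typ b 1 : ℕ) = 1 ∨ (typ b 1 : ℕ) = 2 ∨ (typ b 1 : ℕ) = 3 := by omega
      rcases h3 with h3 | h3 | h3
      · exact Or.inl (Fin.ext h3)
      · exact Or.inr (Or.inl (Fin.ext h3))
      · exact Or.inr (Or.inr (Fin.ext h3))
  card := card_typ
  eig := by
    intro i t b c
    have h := const_of_inv (G i t) (G_swap i t) (G_tw i t) (G_cj i t) b c
    have h1 := eig_rep (typ b c) i t
    exact h.trans h1

end ZonM

theorem specZon : SpecZon := ⟨ZonM.typ, ZonM.zon⟩

end MP26f323
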