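import Pool.Agent.Lib.MP_26f323_al.ClsF
import Pool.Agent.Lib.MP_26f323_al.ZonA
import Pool.Agent.Lib.MP_26f323_al.Zon

/-!
MP_26f323_al, module CLS: the 111 classes of points.
-/

set_option autoImplicit false
set_option linter.constructorNameAsVariable false

namespace MP26f323

open Equiv

namespace ClsM

open ZonM Finset

theorem cjT_all {m w : ℕ} (hm : m < 120) (hw : w < 60) : cj1 m w < 60 ∧
    (m = 0 → cj1 m w = w) ∧ (∀ m', m = m' + 1 → lk 7 tabPar (m' + 1) < m' + 1 ∧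
      ((lk 1 tabGen (m' + 1) = 0 ∧ cj1 (m' + 1) w = cr (cj1 (lk 7 tabPar (m' + 1)) w)) ∨
        (lk 1 tabGen (m' + 1) ≠ 0 ∧ cj1 (m' + 1) w = cs (cj1 (lk 7 tabPar (m' + 1)) w)))) := by
  have h := (allLt_iff _ _).1 ((allLt_iff _ _).1 chk_cjT m hm) w hw
  rw [Bool.and_eq_true] at h
  refine ⟨by simpa [Nat.blt_eq] using h.1, ?_, ?_⟩
  · rintro rfl
    exact Nat.eq_of_beq_eq_true h.2
  · rintro m' rfl
    have h2 := h.2
    change Bool.and (Nat.blt (lk 7 tabPar (m' + 1)) (m' + 1)) (Nat.rec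
      (Nat.beq (cj1 (m' + 1) w) (cr (cj1 (lk 7 tabPar (m' + 1)) w)))
        (fun _ _ => Nat.beq (cj1 (m' + 1) w) (cs (cj1 (lk 7 tabPar (m' + 1)) w)))
        (lk 1 tabGen (m' + 1))) = true at h2
    rw [Bool.and_eq_true] at h2
    refine ⟨by simpa [Nat.blt_eq] using h2.1, ?_⟩
    rcases Nat.eq_zero_or_pos (lk 1 tabGen (m' + 1)) with h0 | h0
    · left
      refine ⟨h0, ?_⟩
      have h3 := h2.2
      rw [h0] at h3
      exact Nat.eq_of_beq_eq_true h3
    · right
      refine ⟨h0.ne', ?_⟩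
      obtain ⟨r, hr⟩ : ∃ r, lk 1 tabGen (m' + 1) = r + 1 := ⟨_, (Nat.succ_pred_eq_of_pos h0).symm⟩
      have h3 := h2.2
      rw [hr] at h3
      exact Nat.eq_of_beq_eq_true h3

theorem cj1_lt {m w : ℕ} (hm : m < 120) (hw : w < 60) : cj1 m w < 60 := (cjT_all hm hw).1

/-- conjugation number m is the conjugation by a permutation -/
theorem exists_perm (m : ℕ) (hm : m < 120) :
    ∃ σ : Perm (Fin 5), ∀ a : A, ix (cjA σ a) = cj1 m (ix a) := by
  induction m using Nat.strong_induction_on with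
  | _ m ih =>
    rcases Nat.eq_zero_or_pos m with h0 | h0
    · subst h0
      refine ⟨1, fun a => ?_⟩
      rw [cj_one, (cjT_all hm (ix_lt a)).2.1 rfl]
    · obtain ⟨m', rfl⟩ : ∃ r, m = r + 1 := ⟨_, (Nat.succ_pred_eq_of_pos h0).symm⟩
      have hp := ((cjT_all hm (by norm_num : (0 : ℕ) < 60)).2.2 m' rfl).1
      obtain ⟨σ, hσ⟩ := ih _ hp (by omega)
      rcases Nat.eq_zero_or_pos (lk 1 tabGen (m' + 1)) with hg | hg
      · refine ⟨finRotate 5 * σ, fun a => ?_⟩
        rcases ((cjT_all hm (ix_lt a)).2.2 m' rfl).2 with h | h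
        · rw [← cj_cj, ix_cr, hσ, h.2]
        · exact absurd hg h.1
      · refine ⟨swap 0 1 * σ, fun a => ?_⟩
        rcases ((cjT_all hm (ix_lt a)).2.2 m' rfl).2 with h | h
        · exact absurd h.1 hg.ne'
        · rw [← cj_cj, ix_cs, hσ, h.2]

theorem cj_el {m : ℕ} {σ : Perm (Fin 5)} (hσ : ∀ a : A, ix (cjA σ a) = cj1 m (ix a)) {w : ℕ}
    (hw : w < 60) : cjA σ (el w) = el (cj1 m w) := by
  rw [← el_ix (cjA σ (el w)), hσ, ix_el hw]

theorem el_mu {i j : ℕ} (hi : i < 60) (hj : j < 60) : el (mu i j) = el i * el j := by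
  rw [← el_ix (el i * el j), ix_mul, ix_el hi, ix_el hj]

theorem el_iv {i : ℕ} (hi : i < 60) : el (iv i) = (el i)⁻¹ := by
  rw [← el_ix (el i)⁻¹, ix_inv, ix_el hi]

theorem el_zero : el 0 = 1 := by
  rw [← el_ix 1, ix_one]

theorem tau_all {w : ℕ} (hw : w < 60) :
    tyF w < 4 ∧ tauF w < 120 ∧ cj1 (tauF w) w = rhoF (tyF w) := by
  have h := (allLt_iff _ _).1 chk_tau w hw
  simp only [Bool.and_eq_true, Nat.blt_eq, Nat.beq_eq] at h
  exact h

theorem g_all {t : ℕ} (ht : t < 4) : g1 t < 120 ∧ g2 t < 120 ∧ rhoF t < 60 ∧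
    cj1 (g1 t) (rhoF t) = rhoF t ∧ cj1 (g2 t) (rhoF t) = rhoF t := by
  have h := (allLt_iff _ _).1 chk_g t ht
  simp only [Bool.and_eq_true, Nat.blt_eq, Nat.beq_eq] at h
  exact h

theorem cl_all {t b c : ℕ} (ht : t < 4) (hb : b < 60) (hc : c < 60) : ttc t b c < 111 ∧
    (ttc t b c = 0 → t = 0 ∧ b = 0 ∧ c = 0) := by
  have h := (allLt_iff _ _).1 ((allLt_iff _ _).1 ((allLt_iff _ _).1 chk_cl t ht) b hb) c hc
  rw [Bool.and_eq_true] at h
  refine ⟨by simpa [Nat.blt_eq] using h.1, fun h0 => ?_⟩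
  have h2 := h.2
  rw [h0] at h2
  have h3 : Bool.and (Nat.beq t 0) (Bool.and (Nat.beq b 0) (Nat.beq c 0)) = true := h2
  simpa only [Bool.and_eq_true, Nat.beq_eq] using h3

theorem repr_all {k : ℕ} (hk : k < 111) : repA k < 60 ∧ repB k < 60 ∧ repC k < 60 ∧
    clsI (repA k) (repB k) (repC k) = k := by
  have h := (allLt_iff _ _).1 chk_repr k hk
  simp only [Bool.and_eq_true, Nat.blt_eq, Nat.beq_eq] at h
  exact h

theorem clsI_eq (a b c : ℕ) : clsI a b c = ttc (tyF a) (cj1 (tauF a) b) (cj1 (tauF a) c) := rfl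

theorem cls_pt {a b c : ℕ} (ha : a < 60) (hb : b < 60) (hc : c < 60) :
    cls (pt a b c) = clsI a b c := by
  change clsI (ix (el a)) (ix (el b)) (ix (el c)) = _
  rw [ix_el ha, ix_el hb, ix_el hc]

theorem pt_ix (x : Gam) : pt (ix x.1) (ix x.2.1) (ix x.2.2) = x := by
  change (el (ix x.1), el (ix x.2.1), el (ix x.2.2)) = x
  rw [el_ix, el_ix, el_ix]

variable {f : Gam → ℕ}

/-- conjugation number m does not change f -/
theorem f_cj (hf : Col f) {m a b c : ℕ} (hm : m < 120) (ha : a < 60) (hb : b < 60) (hc : c < 60) :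
    f (pt (cj1 m a) (cj1 m b) (cj1 m c)) = f (pt a b c) := by
  obtain ⟨σ, hσ⟩ := exists_perm m hm
  change f (el (cj1 m a), el (cj1 m b), el (cj1 m c)) = f (el a, el b, el c)
  rw [← cj_el hσ ha, ← cj_el hσ hb, ← cj_el hσ hc, hf.cj]

/-- normal form -/
theorem f_norm (hf : Col f) {a b c : ℕ} (ha : a < 60) (hb : b < 60) (hc : c < 60) :
    f (pt (rhoF (tyF a)) (cj1 (tauF a) b) (cj1 (tauF a) c)) = f (pt a b c) := by
  obtain ⟨-, h2, h3⟩ := tau_all ha
  rw [← h3, f_cj hf h2 ha hb hc]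

/-- the forest test -/
theorem tst_all {t b c : ℕ} (ht : t < 4) (hb : b < 60) (hc : c < 60) :
    tst (ttc t b c) (dpF t b c) t b c (mvF t b c) = true :=
  (allLt_iff _ _).1 ((allLt_iff _ _).1 ((allLt_iff _ _).1 chk_forest t ht) b hb) c hc

theorem main (hf : Col f) : ∀ (d t b c : ℕ), t < 4 → b < 60 → c < 60 → dpF t b c = d →
    f (pt (rhoF t) b c) = FC f (ttc t b c) := by
  intro d
  induction d using Nat.strong_induction_on with
  | _ d ih =>
    intro t b c ht hb hc hd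
    obtain ⟨hg1, hg2, hr, hg1', hg2'⟩ := g_all ht
    have hT := tst_all ht hb hc
    -- points reduce to cells
    have hpt : ∀ a' b' c' : ℕ, a' < 60 → b' < 60 → c' < 60 →
        Bool.and (Nat.blt (ndp a' b' c') (dpF t b c)) (Nat.beq (clsI a' b' c') (ttc t b c)) = true →
        f (pt a' b' c') = FC f (ttc t b c) := by
      intro a' b' c' ha' hb' hc' h
      rw [Bool.and_eq_true, Nat.blt_eq, Nat.beq_eq] at h
      obtain ⟨h1, h2, h3⟩ := tau_all ha'
      have h4 := ih _ (hd ▸ h.1) (tyF a') (cj1 (tauF a') b') (cj1 (tauF a') c') h1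
        (cj1_lt h2 hb') (cj1_lt h2 hc') rfl
      rw [f_norm hf ha' hb' hc'] at h4
      rw [h4, ← clsI_eq, h.2]
    have hcell : ∀ b' c' : ℕ, b' < 60 → c' < 60 →
        Bool.and (Nat.blt (dpF t b' c') (dpF t b c)) (Nat.beq (ttc t b' c') (ttc t b c)) = true →
        f (pt (rhoF t) b' c') = FC f (ttc t b c) := by
      intro b' c' hb' hc' h
      rw [Bool.and_eq_true, Nat.blt_eq, Nat.beq_eq] at h
      rw [ih _ (hd ▸ h.1) t b' c' ht hb' hc' rfl, h.2]
    have hroot : isRt (ttc t b c) t b c = true → f (pt (rhoF t) b c) = FC f (ttc t b c) := by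
      intro h
      unfold isRt at h
      simp only [Bool.and_eq_true, Nat.beq_eq] at h
      obtain ⟨h1, h2, h3⟩ := h
      obtain ⟨h4, h5, h6, -⟩ := repr_all (cl_all ht hb hc).1
      have h7 := f_norm hf h4 h5 h6
      rw [h1, h2, h3] at h7
      rw [h7]
      rfl
    have hm : mvF t b c < 8 := Nat.mod_lt _ (by norm_num)
    have hcase : mvF t b c = 0 ∨ mvF t b c = 1 ∨ mvF t b c = 2 ∨ mvF t b c = 3 ∨ mvF t b c = 4 ∨
        mvF t b c = 5 ∨ mvF t b c = 6 ∨ mvF t b c = 7 := by omega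
    rcases hcase with h | h | h | h | h | h | h | h
    · rw [h] at hT
      have h2 := hcell c b hc hb hT
      rw [← h2]
      exact (hf.sw12 _ _ _).symm
    · rw [h] at hT
      have h2 := hpt b (rhoF t) c hb hr hc hT
      rw [← h2]
      exact (hf.sw01 _ _ _).symm
    · rw [h] at hT
      have h2 := hpt (iv (rhoF t)) (mu b (iv (rhoF t))) (mu c (iv (rhoF t))) (iv_lt hr)
        (mu_lt hb (iv_lt hr)) (mu_lt hc (iv_lt hr)) hT
      rw [← h2]
      change f (el (rhoF t), el b, el c) = f (el (iv (rhoF t)), el (mu b (iv (rhoF t))),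
        el (mu c (iv (rhoF t))))
      rw [el_mu hb (iv_lt hr), el_mu hc (iv_lt hr), el_iv hr, hf.tw]
    · rw [h] at hT
      have h2 := hpt (iv (rhoF t)) (iv b) (iv c) (iv_lt hr) (iv_lt hb) (iv_lt hc) hT
      rw [← h2]
      change f (el (rhoF t), el b, el c) = f (el (iv (rhoF t)), el (iv b), el (iv c))
      rw [el_iv hr, el_iv hb, el_iv hc, ← hf.inv]
      rfl
    · rw [h] at hT
      have h2 := hcell (cj1 (g1 t) b) (cj1 (g1 t) c) (cj1_lt hg1 hb) (cj1_lt hg1 hc) hT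
      rw [← h2]
      have h3 := f_cj hf hg1 hr hb hc
      rw [hg1'] at h3
      exact h3.symm
    · rw [h] at hT
      have h2 := hcell (cj1 (g2 t) b) (cj1 (g2 t) c) (cj1_lt hg2 hb) (cj1_lt hg2 hc) hT
      rw [← h2]
      have h3 := f_cj hf hg2 hr hb hc
      rw [hg2'] at h3
      exact h3.symm
    · rw [h] at hT
      exact hroot hT
    · rw [h] at hT
      exact hroot hT

theorem cls_lt (x : Gam) : cls x < 111 := by
  obtain ⟨h1, h2, -⟩ := tau_all (ix_lt x.1)
  exact (cl_all h1 (cj1_lt h2 (ix_lt x.2.1)) (cj1_lt h2 (ix_lt x.2.2))).1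

theorem cls_const (hf : Col f) (x : Gam) : f x = FC f (cls x) := by
  obtain ⟨h1, h2, -⟩ := tau_all (ix_lt x.1)
  have h := main hf _ (tyF (ix x.1)) _ _ h1 (cj1_lt h2 (ix_lt x.2.1))
    (cj1_lt h2 (ix_lt x.2.2)) rfl
  rw [f_norm hf (ix_lt x.1) (ix_lt x.2.1) (ix_lt x.2.2), pt_ix] at h
  exact h

theorem cls_zero (x : Gam) : cls x = 0 ↔ x = 1 := by
  have hz := chk_zero
  rw [Bool.and_eq_true] at hz
  constructor
  · intro h
    obtain ⟨h1, h2, h3⟩ := tau_all (ix_lt x.1)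
    obtain ⟨h4, h5, h6⟩ := (cl_all h1 (cj1_lt h2 (ix_lt x.2.1)) (cj1_lt h2 (ix_lt x.2.2))).2 h
    have h7 := (allLt_iff _ _).1 hz.2 (ix x.1) (ix_lt x.1)
    rw [h4] at h7
    have h8 : ix x.1 = 0 := by
      rw [Bool.or_eq_true, Nat.beq_eq] at h7
      rcases h7 with h7 | h7
      · exact h7
      · exact absurd h7 (by decide)
    obtain ⟨σ, hσ⟩ := exists_perm _ h2
    have h9 : ∀ a : A, cj1 (tauF (ix x.1)) (ix a) = 0 → a = 1 := by
      intro a ha
      rw [← hσ a, ← ix_one] at ha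
      have := ix_inj ha
      have h10 : cjA σ⁻¹ (cjA σ a) = cjA σ⁻¹ 1 := by rw [this]
      rw [cj_cj, inv_mul_cancel, cj_one] at h10
      rw [h10]
      unfold cjA
      exact map_one _
    have e1 : x.1 = 1 := ix_inj (by rw [h8, ix_one])
    have e2 : x.2.1 = 1 := h9 _ h5
    have e3 : x.2.2 = 1 := h9 _ h6
    exact Prod.ext e1 (Prod.ext e2 e3)
  · rintro rfl
    change clsI (ix 1) (ix 1) (ix 1) = 0
    rw [ix_one]
    exact Nat.eq_of_beq_eq_true hz.1

theorem cls_rep {k : ℕ} (hk : k < 111) : cls (rep k) = k := by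
  obtain ⟨h1, h2, h3, h4⟩ := repr_all hk
  exact (cls_pt h1 h2 h3).trans h4

/-- conjugation as a bijection of A -/
theorem sum_cj (σ : Perm (Fin 5)) {M : Type*} [AddCommMonoid M] (g : A → M) :
    ∑ b : A, g (cjA σ b) = ∑ b : A, g b := by
  refine Function.Bijective.sum_comp (e := cjA σ) ?_ g
  refine ⟨fun a b h => ?_, fun b => ⟨cjA σ⁻¹ b, ?_⟩⟩
  · have h1 : cjA σ⁻¹ (cjA σ a) = cjA σ⁻¹ (cjA σ b) := by rw [h]
    rwa [cj_cj, cj_cj, inv_mul_cancel, cj_one, cj_one] at h1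
  · rw [cj_cj, mul_inv_cancel, cj_one]

theorem hst_eq (t : ℕ) : hst t = ∑ b : A, ∑ c : A, 262144 ^ ttc t (ix b) (ix c) := by
  unfold hst
  rw [sumLt_eq, ← sum_A (fun b => sumLt 60 (fun c => Nat.pow 262144 (ttc t b c)))]
  refine Finset.sum_congr rfl fun b _ => ?_
  rw [sumLt_eq, ← sum_A (fun c => Nat.pow 262144 (ttc t (ix b) c))]
  rfl

theorem sum_cj2 (m : ℕ) (hm : m < 120) (G : ℕ → ℕ → ℕ) :
    ∑ b : A, ∑ c : A, G (cj1 m (ix b)) (cj1 m (ix c)) = ∑ b : A, ∑ c : A, G (ix b) (ix c) := by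
  obtain ⟨σ, hσ⟩ := exists_perm m hm
  rw [← sum_cj σ (fun b => ∑ c : A, G (ix b) (ix c))]
  refine Finset.sum_congr rfl fun b _ => ?_
  rw [← sum_cj σ (fun c => G (ix (cjA σ b)) (ix c))]
  refine Finset.sum_congr rfl fun c _ => ?_
  rw [hσ, hσ]

theorem sum_slab (a : A) : ∑ b : A, ∑ c : A, 262144 ^ cls ((a, b, c) : Gam) =
    hst (tyF (ix a)) := by
  obtain ⟨-, h2, -⟩ := tau_all (ix_lt a)
  rw [hst_eq]
  exact sum_cj2 _ h2 (fun b c => 262144 ^ ttc (tyF (ix a)) b c)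

theorem sum_all : ∑ x : Gam, 262144 ^ cls x =
    ∑ k ∈ range 111, sizeF k * 262144 ^ k := by
  have h1 : ∑ x : Gam, 262144 ^ cls x = ∑ a : A, hst (tyF (ix a)) := by
    rw [Fintype.sum_prod_type]
    refine Finset.sum_congr rfl fun a _ => ?_
    rw [Fintype.sum_prod_type, ← sum_slab a]
  have h2 := Nat.eq_of_beq_eq_true chk_size
  rw [sumLt_eq] at h2
  change _ = ∑ k ∈ range 111, sizeF k * 262144 ^ k at h2
  rw [h1, ← h2, sum_A (fun i => hst (tyF i)),
    ← Finset.sum_fiberwise_of_maps_to (t := range 4) (g := tyF)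
    (fun i hi => mem_range.2 (tau_all (mem_range.1 hi)).1)]
  have h3 : ∀ t ∈ range 4, ∑ i ∈ (range 60).filter (fun i => tyF i = t), hst (tyF i) =
      ((range 60).filter (fun i => tyF i = t)).card * hst t := by
    intro t _
    rw [Finset.sum_congr rfl (g := fun _ => hst t), Finset.sum_const, smul_eq_mul]
    intro i hi
    rw [(Finset.mem_filter.1 hi).2]
  rw [Finset.sum_congr rfl h3, Finset.sum_range_succ, Finset.sum_range_succ,
    Finset.sum_range_succ, Finset.sum_range_succ, Finset.sum_range_zero]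
  obtain ⟨c0, c1, c2, c3⟩ := cnt_ty
  rw [c0, c1, c2, c3]
  change _ = hst 0 + (15 * hst 1 + (20 * hst 2 + 24 * hst 3))
  ring

theorem sizeF_lt (k : ℕ) : sizeF k < 262144 :=
  lt_of_lt_of_le (lk_lt 13 tabSize k) (by norm_num)

theorem card_Gam : Fintype.card Gam = 216000 := by
  have h : Fintype.card Gam = Fintype.card A * (Fintype.card A * Fintype.card A) := by
    rw [← Fintype.card_prod, ← Fintype.card_prod]
  rw [h, ZonM.card_A]

theorem fib_lt (v : ℕ) : (univ.filter (fun x : Gam => cls x = v)).card < 262144 := by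
  have h := Finset.card_le_univ (univ.filter (fun x : Gam => cls x = v))
  rw [card_Gam] at h
  omega

theorem sum_fib {T : Type} [Fintype T] (g : T → ℕ) (B n : ℕ) (hg : ∀ x, g x < n) :
    ∑ x : T, B ^ g x = ∑ v ∈ range n, (univ.filter (fun x : T => g x = v)).card * B ^ v := by
  rw [← Finset.sum_fiberwise_of_maps_to (t := range n) (g := g)
    (fun x _ => mem_range.2 (hg x))]
  refine Finset.sum_congr rfl fun v _ => ?_
  rw [Finset.sum_congr rfl (g := fun _ => B ^ v), Finset.sum_const, smul_eq_mul]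
  intro x hx
  rw [(Finset.mem_filter.1 hx).2]

theorem cls_size {k : ℕ} (hk : k < 111) :
    (univ.filter (fun x : Gam => cls x = k)).card = sizeF k := by
  have h1 : ∑ x : Gam, 262144 ^ cls x =
      ∑ v ∈ range 111, (univ.filter (fun x : Gam => cls x = v)).card * 262144 ^ v :=
    sum_fib cls 262144 111 cls_lt
  rw [sum_all] at h1
  have h2 := digit 262144 (by norm_num) k 111 sizeF sizeF_lt hk
  have h3 := digit 262144 (by norm_num) k 111
    (fun v => (univ.filter (fun x : Gam => cls x = v)).card) fib_lt hk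
  rw [← h1, h2] at h3
  exact h3.symm

end ClsM

open ClsM in
/-- module CLS -/
theorem specCls : SpecCls where
  lt := cls_lt
  zero := cls_zero
  const := fun _ hf x => cls_const hf x
  clsrep := fun _ hk => cls_rep hk
  size := fun _ hk => cls_size hk

end MP26f323
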