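import Pool.Agent.Lib.MP_26f323_al.Lnk

/-!
MP_26f323_al, module DAT: the tables of the checker satisfy DatOK.
-/

set_option autoImplicit false
set_option maxRecDepth 100000

namespace MP26f323

open ZonM ClsM

namespace Chk

open LaneM GlM

theorem FU_eq : FU = Nat.pred (Nat.pow 2 (Nat.mul 32 3036)) := by decide +kernel

theorem lG_len : lG.length = 78 := rfl

theorem lU_len : lU.length = 78 := rfl

theorem lD_len : lD.length = 78 := rfl

attribute [local irreducible] ONE BIG ALL OFF FU lG lU lD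

namespace DatM

lemma nthL_big (l : List ℕ) : ∀ n, l.length ≤ n → nthL 0 l n = 0 := by
  induction l with
  | nil => intro n _; rfl
  | cons a l ih =>
    intro n hn
    cases n with
    | zero => simp at hn
    | succ n => exact ih n (by simpa using hn)

/-- the off-diagonal positions -/
lemma off_pos {i j : ℕ} (h1 : 1 ≤ i) (h2 : i ≤ j) (h3 : j ≤ 77) :
    (¬ (pos i j < 3003 ↔ ∃ m, m < 77 ∧ pos i j = pos (m + 1) (m + 1))) ↔ i ≠ j := by
  have h4 : pos i j < 3003 := (pos_lt' i j h1 h2).2 h3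
  have h5 : (∃ m, m < 77 ∧ pos i j = pos (m + 1) (m + 1)) ↔ i = j := by
    constructor
    · rintro ⟨m, _, hm⟩
      have := pos_inj' _ _ _ _ h1 h2 (by omega) le_rfl hm
      omega
    · intro h
      subst h
      exact ⟨i - 1, by omega, by rw [show i - 1 + 1 = i by omega]⟩
  rw [h5]
  simp only [h4, true_iff, ne_eq]

lemma off_reg' (r : ℕ) :
    ¬ ¬ (3003 + r < 3003 ↔ ∃ m, m < 77 ∧ 3003 + r = pos (m + 1) (m + 1)) := by
  rw [not_not]
  constructor
  · intro h; omega
  · rintro ⟨m, hm, h⟩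
    have := (pos_lt' (m + 1) (m + 1) (by omega) le_rfl).2 (by omega)
    omega

lemma lane_off_pos (N : ℕ) {i j : ℕ} (h1 : 1 ≤ i) (h2 : i ≤ j) (h3 : j ≤ 77) :
    lane 32 (Nat.land N OFF) (pos i j) = if i = j then 0 else lane 32 N (pos i j) := by
  classical
  rw [mask_OFF.land]
  have h := off_pos h1 h2 h3
  by_cases hij : i = j
  · rw [if_pos hij, if_neg (fun h' => h.1 h' hij)]
  · rw [if_neg hij, if_pos (h.2 hij)]

lemma lane_off_reg (N r : ℕ) : lane 32 (Nat.land N OFF) (3003 + r) = 0 := by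
  classical
  rw [mask_OFF.land, if_neg (off_reg' r)]

/-- diagonal part of a weight -/
def dg (w : ℕ → ℕ → ℕ) (i j : ℕ) : ℕ := if i = j then w i j else 0

/-- off-diagonal part of a weight -/
def od (w : ℕ → ℕ → ℕ) (i j : ℕ) : ℕ := if i = j then 0 else w i j

lemma lin_split (N : ℕ) (w : ℕ → ℕ → ℕ) :
    Lin N w = Lin (Nat.land N OFF) w + Lin N (dg w) := by
  have h1 : Lin N w = Lin N (fun i j => od w i j + dg w i j) := by
    apply Lin_congr
    · intro i j _ _ _
      congr 1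
      unfold od dg
      split_ifs <;> simp
    · intro r _
      congr 1
      unfold od dg
      simp
  have h2 : Lin N (od w) = Lin (Nat.land N OFF) w := by
    apply Lin_congr
    · intro i j a b c
      rw [lane_off_pos N a b c]
      unfold od
      split_ifs <;> simp
    · intro r _
      rw [lane_off_reg]
      unfold od
      simp
  rw [h1, specLane.lin_w N (od w) (dg w), h2]

lemma mask_FU : IsMask FU (fun p => p < 3036) := by
  rw [FU_eq]
  exact mask_pow 3036

lemma dbl_eq (N : ℕ) : dbl N = N + Nat.land N DM := rfl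

lemma mask_dbl : IsMask DM
    (fun p => ¬ (p < 3036 ↔
      ¬ (p < 3003 ↔ ∃ j, j < 77 ∧ p = pos (j + 1) (j + 1)))) :=
  mask_FU.xor mask_OFF

attribute [local irreducible] DM

lemma lane_dbl (N p : ℕ) (hN : ∀ q, lane 32 N q < 16384) :
    lane 32 (dbl N) p = lane 32 N p + lane 32 (Nat.land N DM) p := by
  classical
  rw [dbl_eq]
  apply lane_add
  intro q _
  rw [mask_dbl.land]
  have := hN q
  split_ifs <;> omega

lemma dbl_lt (N p : ℕ) (hN : ∀ q, lane 32 N q < 16384) : lane 32 (dbl N) p < 32768 := by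
  classical
  rw [lane_dbl N p hN, mask_dbl.land]
  have := hN p
  split_ifs <;> omega

lemma dbl_lin (N : ℕ) (hN : ∀ q, lane 32 N q < 16384) (w w' : ℕ → ℕ → ℕ)
    (h1 : ∀ i j, i ≠ j → w i j = w' i j) (h2 : ∀ i, w i i = 2 * w' i i) :
    Lin N w = Lin (dbl N) w' := by
  classical
  apply Lin_congr
  · intro i j a b c
    have h4 : pos i j < 3003 := (pos_lt' i j a b).2 c
    have h5 := off_pos a b c
    rw [lane_dbl N _ hN, mask_dbl.land]
    by_cases hij : i = j
    · rw [if_pos]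
      · subst hij
        rw [h2]
        ring
      · intro h6
        exact (h5.1 (h6.1 (by omega))) hij
    · rw [if_neg, h1 i j hij, add_zero]
      intro h6
      exact h6 ⟨fun _ => h5.2 hij, fun _ => by omega⟩
  · intro r hr
    rw [lane_dbl N _ hN, mask_dbl.land, if_pos, h2]
    · ring
    · intro h6
      exact off_reg' r (h6.1 (by omega))

/-! ### coherence -/

lemma cnt_congr {f : Gam → ℕ} (hf : Col f) {x y : Gam} (h : f x = f y) (s t : ℕ) :
    cnt f s t x = cnt f s t y := by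
  classical
  have h1 := hf.coh s t x y h
  have key : ∀ u : Gam, cnt f s t u = Set.ncard {z : Gam | f z = s ∧ f (z⁻¹ * u) = t} := by
    intro u
    unfold cnt
    rw [← Set.ncard_coe_finset]
    congr 1
    ext z
    simp
  rw [key, key, h1]

lemma cnt_comm {f : Gam → ℕ} (hf : Col f) (s t : ℕ) (x : Gam) : cnt f s t x = cnt f t s x := by
  classical
  rw [cnt_congr hf (hf.inv x).symm t s]
  unfold cnt
  refine Finset.card_bij (fun z _ => x⁻¹ * z) ?_ ?_ ?_
  · intro z hz
    simp only [Finset.mem_filter, Finset.mem_univ, true_and] at hz ⊢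
    have e1 : x⁻¹ * z = (z⁻¹ * x)⁻¹ := by rw [mul_inv_rev, inv_inv]
    have e2 : (x⁻¹ * z)⁻¹ * x⁻¹ = z⁻¹ := by rw [mul_inv_rev, inv_inv, mul_assoc, mul_inv_cancel, mul_one]
    refine ⟨?_, ?_⟩
    · rw [e1, hf.inv]; exact hz.2
    · rw [e2, hf.inv]; exact hz.1
  · intro a _ b _ h
    exact mul_left_cancel h
  · intro b hb
    simp only [Finset.mem_filter, Finset.mem_univ, true_and] at hb
    refine ⟨x * b, ?_, inv_mul_cancel_left x b⟩
    simp only [Finset.mem_filter, Finset.mem_univ, true_and]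
    have e1 : x * b = (b⁻¹ * x⁻¹)⁻¹ := by rw [mul_inv_rev, inv_inv, inv_inv]
    have e2 : (x * b)⁻¹ * x = b⁻¹ := by rw [mul_inv_rev, mul_assoc, inv_mul_cancel, mul_one]
    refine ⟨?_, ?_⟩
    · rw [e1, hf.inv]; exact hb.2
    · rw [e2, hf.inv]; exact hb.1

/-- value of a class function at a colour -/
noncomputable def pick (f : Gam → ℕ) (g : Gam → ℕ) (c : ℕ) : ℕ :=
  open Classical in if h : ∃ x : Gam, f x = c then g h.choose else 0

lemma pick_eq {f g : Gam → ℕ} (hg : ∀ x y, f x = f y → g x = g y) (x : Gam) :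
    pick f g (f x) = g x := by
  unfold pick
  have h : ∃ y : Gam, f y = f x := ⟨x, rfl⟩
  rw [dif_pos h]
  exact hg _ _ h.choose_spec

lemma tab_full {f : Gam → ℕ} (hf : Col f) {k : ℕ} {L : List ℕ} (hT : TabOK k L)
    {D : ℕ} (hR : rowsOK D L 0 = true) {s t : ℕ} (hs : s ≠ 0) (ht : t ≠ 0) :
    ∃ x, cnt f s t (rep k) + cnt f t s (rep k) = Lin (gl L 0) (mono (FC f) s t) + D * x := by
  obtain ⟨x, hx⟩ := gl_sum hR (mono (FC f) s t)
  exact ⟨x, by rw [hT f hf s t hs ht, hx]⟩

lemma tab_half {f : Gam → ℕ} (hf : Col f) {k : ℕ} {L : List ℕ} (hT : TabOK k L)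
    {D : ℕ} (hR : rowsOK D L 0 = true) {s : ℕ} (hs : s ≠ 0) :
    ∃ x, cnt f s s (rep k) = Lin (gl L 0) (ow (FC f) s s) + D * x := by
  obtain ⟨x, hx⟩ := gl_sum hR (ow (FC f) s s)
  refine ⟨x, ?_⟩
  rw [← hx]
  have h1 := hT f hf s s hs hs
  have h2 : ∑ j ∈ Finset.range 110, ∑ i ∈ Finset.range (j + 1),
      lk 32 (nthL 0 L j) i * mono (FC f) s s (i + 1) (j + 1) =
      2 * ∑ j ∈ Finset.range 110, ∑ i ∈ Finset.range (j + 1),
        lk 32 (nthL 0 L j) i * ow (FC f) s s (i + 1) (j + 1) := by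
    rw [Finset.mul_sum]
    refine Finset.sum_congr rfl fun j _ => ?_
    rw [Finset.mul_sum]
    refine Finset.sum_congr rfl fun i _ => ?_
    have : mono (FC f) s s (i + 1) (j + 1) = 2 * ow (FC f) s s (i + 1) (j + 1) := by
      unfold mono ow; ring
    rw [this]
    ring
  rw [h2] at h1
  omega

lemma tab_anti {f : Gam → ℕ} (hf : Col f) {k : ℕ} {L M : List ℕ} (hT : TabOK2 k L M)
    {D : ℕ} (hR : rowsOK D L 0 = true) (hR' : rowsOK D M 0 = true) {s t : ℕ} (hs : s ≠ 0)
    (ht : t ≠ 0) :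
    ∃ x, cnt f s t (rep k) = Lin (gl L 0) (ow (FC f) s t) + Lin (gl M 0) (ow (FC f) t s) + D * x := by
  obtain ⟨x, hx⟩ := gl_sum hR (ow (FC f) s t)
  obtain ⟨y, hy⟩ := gl_sum hR' (ow (FC f) t s)
  refine ⟨x + y, ?_⟩
  rw [hT f hf s t hs ht]
  have h1 : ∑ j ∈ Finset.range 110, ∑ i ∈ Finset.range (j + 1),
        (lk 32 (nthL 0 L j) i * (if FC f (i + 1) = s ∧ FC f (j + 1) = t then 1 else 0) +
         lk 32 (nthL 0 M j) i * (if FC f (i + 1) = t ∧ FC f (j + 1) = s then 1 else 0)) =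
      (∑ j ∈ Finset.range 110, ∑ i ∈ Finset.range (j + 1),
        lk 32 (nthL 0 L j) i * ow (FC f) s t (i + 1) (j + 1)) +
      ∑ j ∈ Finset.range 110, ∑ i ∈ Finset.range (j + 1),
        lk 32 (nthL 0 M j) i * ow (FC f) t s (i + 1) (j + 1) := by
    simp only [Finset.sum_add_distrib, ow]
  rw [h1, hx, hy]
  ring

lemma dg_ow (F : ℕ → ℕ) (s t : ℕ) : dg (ow F s t) = dg (ow F t s) := by
  funext i j
  unfold dg ow
  by_cases hij : i = j
  · subst hij
    rw [if_pos rfl, if_pos rfl]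
    congr 1
    exact propext ⟨fun h => ⟨h.2, h.1⟩, fun h => ⟨h.2, h.1⟩⟩
  · rw [if_neg hij, if_neg hij]

lemma lS_len (k : ℕ) (h : 0 < nthL 0 lS k) : 1 ≤ k ∧ k < 78 := by
  constructor
  · rcases Nat.eq_zero_or_pos k with h0 | h0
    · subst h0
      exact absurd h (by decide)
    · exact h0
  · by_contra h1
    rw [nthL_big lS k (by show 78 ≤ k; omega)] at h
    exact absurd h (by norm_num)

lemma lT_len (k : ℕ) (h : 0 < nthL 0 lT k) : 1 ≤ k ∧ k < 78 := by
  constructor
  · rcases Nat.eq_zero_or_pos k with h0 | h0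
    · subst h0
      exact absurd h (by decide)
    · exact h0
  · by_contra h1
    rw [nthL_big lT k (by show 78 ≤ k; omega)] at h
    exact absurd h (by norm_num)

lemma zero_G : ∀ k, k < 78 → nthL 0 lS k = 0 → nthL 0 lG k = 0 := by
  intro k hk h
  interval_cases k <;> first | exact absurd h (by decide) | decide +kernel

lemma zero_U : ∀ k, k < 78 → nthL 0 lT k = 0 → nthL 0 lU k = 0 ∧ nthL 0 lD k = 0 := by
  intro k hk h
  interval_cases k <;> first | exact absurd h (by decide) | decide +kernel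

lemma small_G (hS : SpecCls) (k p : ℕ) : lane 32 (nthL 0 lG k) p < 16384 := by
  rcases Nat.lt_or_ge k 78 with hk | hk
  · rcases Nat.eq_zero_or_pos (nthL 0 lS k) with h | h
    · rw [zero_G k hk h, lane_zero]; norm_num
    · obtain ⟨L, _, h2, h3⟩ := all_tabs hS k hk h
      rw [← h3]
      exact gl_lt h2 p
  · rw [nthL_big lG k (by rw [lG_len]; exact hk), lane_zero]; norm_num

lemma land_le_lane (N K p : ℕ) : lane 32 (Nat.land N K) p ≤ lane 32 N p := by
  rw [lane_and_eq]
  exact Nat.and_le_left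

lemma small_U (hS : SpecCls) (k p : ℕ) :
    lane 32 (nthL 0 lU k) p < 16384 ∧ lane 32 (nthL 0 lD k) p < 16384 := by
  rcases Nat.lt_or_ge k 78 with hk | hk
  · rcases Nat.eq_zero_or_pos (nthL 0 lT k) with h | h
    · rw [(zero_U k hk h).1, (zero_U k hk h).2, lane_zero]
      exact ⟨by norm_num, by norm_num⟩
    · obtain ⟨L, M, _, h2, h3, h4, h5⟩ := all_tabs2 hS k hk h
      rw [← h4, ← h5]
      exact ⟨lt_of_le_of_lt (land_le_lane _ _ _) (gl_lt h2 p),
        lt_of_le_of_lt (land_le_lane _ _ _) (gl_lt h3 p)⟩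
  · rw [nthL_big lU k (by rw [lU_len]; exact hk), nthL_big lD k (by rw [lD_len]; exact hk),
      lane_zero]
    exact ⟨by norm_num, by norm_num⟩

/-- module DAT -/
theorem datOK (hC : SpecCls) {f : Gam → ℕ} (hf : Col f) : DatOK (FC f) dat where
  nz := by
    intro i h1 h2 h3
    have h4 : rep i = 1 := (hf.zero _).1 h3
    have h5 := hC.clsrep i h2
    have h6 := (hC.zero (rep i)).2 h4
    omega
  rng := by
    intro k h
    have := lS_len k h
    omega
  half := by
    refine ⟨fun c s => pick f (fun x => cnt f s s x) c, ?_⟩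
    intro k hk s hs
    obtain ⟨L, h1, h2, h3⟩ := all_tabs hC k (lS_len k hk).2 hk
    obtain ⟨x, hx⟩ := tab_half hf h1 h2 hs
    refine ⟨x, ?_⟩
    show pick f (fun x => cnt f s s x) (f (rep k)) = Lin (nthL 0 lG k) (ow (FC f) s s) +
      nthL 0 lS k * x
    rw [pick_eq (fun _ _ h => cnt_congr hf h s s), hx, h3]
  full := by
    refine ⟨fun c s t => pick f (fun x => cnt f s t x + cnt f t s x) c, ?_⟩
    intro k hk s t hs ht
    obtain ⟨L, h1, h2, h3⟩ := all_tabs hC k (lS_len k hk).2 hk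
    obtain ⟨x, hx⟩ := tab_full hf h1 h2 hs ht
    refine ⟨x, ?_⟩
    show pick f (fun x => cnt f s t x + cnt f t s x) (f (rep k)) =
      Lin (nthL 0 lG k) (mono (FC f) s t) + nthL 0 lS k * x
    rw [pick_eq (fun _ _ h => by rw [cnt_congr hf h s t, cnt_congr hf h t s]), hx, h3]
  dbl := by
    intro k _ w w' h1 h2
    exact dbl_lin _ (small_G hC k) w w' h1 h2
  anti := by
    intro k hk s t hs ht
    obtain ⟨L, M, h1, h2, h3, h4, h5⟩ := all_tabs2 hC k (lT_len k hk).2 hk
    obtain ⟨x, hx⟩ := tab_anti hf h1 h2 h3 hs ht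
    obtain ⟨y, hy⟩ := tab_anti hf h1 h2 h3 ht hs
    refine ⟨x, y, ?_⟩
    show Lin (nthL 0 lU k) (ow (FC f) s t) + Lin (nthL 0 lD k) (ow (FC f) t s) + nthL 0 lT k * x =
      Lin (nthL 0 lU k) (ow (FC f) t s) + Lin (nthL 0 lD k) (ow (FC f) s t) + nthL 0 lT k * y
    rw [cnt_comm hf t s] at hy
    rw [hx] at hy
    rw [lin_split (gl L 0) (ow (FC f) s t), lin_split (gl L 0) (ow (FC f) t s),
      lin_split (gl M 0) (ow (FC f) s t), lin_split (gl M 0) (ow (FC f) t s), h4, h5,
      dg_ow (FC f) t s] at hy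
    omega
  small := by
    intro k p
    have h1 := small_G hC k p
    have h2 := small_U hC k p
    have h3 := dbl_lt (nthL 0 lG k) p (small_G hC k)
    exact ⟨lt_trans h1 (by norm_num), h3, lt_trans h2.1 (by norm_num),
      lt_trans h2.2 (by norm_num)⟩

end DatM

end Chk

end MP26f323
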