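import Pool.Agent.Lib.MP_26f323_al.Db0
import Pool.Agent.Lib.MP_26f323_al.Db1
import Pool.Agent.Lib.MP_26f323_al.Db2
import Pool.Agent.Lib.MP_26f323_al.Db3
import Pool.Agent.Lib.MP_26f323_al.Db4
import Pool.Agent.Lib.MP_26f323_al.Db5
import Pool.Agent.Lib.MP_26f323_al.Db6
import Pool.Agent.Lib.MP_26f323_al.Db7
import Pool.Agent.Lib.MP_26f323_al.Gt

/-!
MP_26f323_al: the certificate.
-/

set_option autoImplicit false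
set_option maxRecDepth 100000

namespace MP26f323

namespace Chk

/-- the tree of all steps -/
def cert : Tr := (.nd
 (.nd
 (.nd
 (.nd
 (.nd
 (.nd
 (.nd blk0 blk64)
 (.nd blk32 blk96))
 (.nd
 (.nd blk16 blk80)
 (.nd blk48 blk112)))
 (.nd
 (.nd
 (.nd blk8 blk72)
 (.nd blk40 blk104))
 (.nd
 (.nd blk24 blk88)
 (.nd blk56 blk120))))
 (.nd
 (.nd
 (.nd
 (.nd blk4 blk68)
 (.nd blk36 blk100))
 (.nd
 (.nd blk20 blk84)
 (.nd blk52 blk116)))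
 (.nd
 (.nd
 (.nd blk12 blk76)
 (.nd blk44 blk108))
 (.nd
 (.nd blk28 blk92)
 (.nd blk60 blk124)))))
 (.nd
 (.nd
 (.nd
 (.nd
 (.nd blk2 blk66)
 (.nd blk34 blk98))
 (.nd
 (.nd blk18 blk82)
 (.nd blk50 blk114)))
 (.nd
 (.nd
 (.nd blk10 blk74)
 (.nd blk42 blk106))
 (.nd
 (.nd blk26 blk90)
 (.nd blk58 blk122))))
 (.nd
 (.nd
 (.nd
 (.nd blk6 blk70)
 (.nd blk38 blk102))
 (.nd
 (.nd blk22 blk86)
 (.nd blk54 blk118)))
 (.nd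
 (.nd
 (.nd blk14 blk78)
 (.nd blk46 blk110))
 (.nd
 (.nd blk30 blk94)
 (.nd blk62 blk126))))))
 (.nd
 (.nd
 (.nd
 (.nd
 (.nd
 (.nd blk1 blk65)
 (.nd blk33 blk97))
 (.nd
 (.nd blk17 blk81)
 (.nd blk49 blk113)))
 (.nd
 (.nd
 (.nd blk9 blk73)
 (.nd blk41 blk105))
 (.nd
 (.nd blk25 blk89)
 (.nd blk57 blk121))))
 (.nd
 (.nd
 (.nd
 (.nd blk5 blk69)
 (.nd blk37 blk101))
 (.nd
 (.nd blk21 blk85)
 (.nd blk53 blk117)))
 (.nd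
 (.nd
 (.nd blk13 blk77)
 (.nd blk45 blk109))
 (.nd
 (.nd blk29 blk93)
 (.nd blk61 blk125)))))
 (.nd
 (.nd
 (.nd
 (.nd
 (.nd blk3 blk67)
 (.nd blk35 blk99))
 (.nd
 (.nd blk19 blk83)
 (.nd blk51 blk115)))
 (.nd
 (.nd
 (.nd blk11 blk75)
 (.nd blk43 blk107))
 (.nd
 (.nd blk27 blk91)
 (.nd blk59 blk123))))
 (.nd
 (.nd
 (.nd
 (.nd blk7 blk71)
 (.nd blk39 blk103))
 (.nd
 (.nd blk23 blk87)
 (.nd blk55 blk119)))
 (.nd
 (.nd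
 (.nd blk15 blk79)
 (.nd blk47 blk111))
 (.nd
 (.nd blk31 blk95)
 (.nd blk63 blk127)))))))

/-- clause number n -/
noncomputable def db (n : ℕ) : ℕ := Tr.fC cert n

/-- record number n -/
noncomputable def rc (n : ℕ) : ℕ := Tr.fR cert n

end Chk

end MP26f323
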