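import Mathlib

/-!
MP_26f323_al: the diagonal type group D(A5,4) (degree 216000) is AS-free.
Basic definitions.
-/

set_option autoImplicit false

namespace MP26f323

open Equiv

/-- the group A5 -/
abbrev A := alternatingGroup (Fin 5)

/-- the point set: (a,b,c) stands for the coset of (a,b,c,1) modulo the diagonal of A^4
(diagonal on the right) -/
abbrev Gam := A × A × A

/-- conjugation by a permutation of five points -/
def cjA (σ : Perm (Fin 5)) (a : A) : A := MulAut.conjNormal σ a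

/-- f(x) = c(1,x) for an invariant association scheme c (colour 0 = diagonal) -/
structure Col (f : Gam → ℕ) : Prop where
  zero : ∀ x, f x = 0 ↔ x = 1
  inv : ∀ x, f x⁻¹ = f x
  sw01 : ∀ a b c, f (b, a, c) = f (a, b, c)
  sw12 : ∀ a b c, f (a, c, b) = f (a, b, c)
  tw : ∀ a b c, f (a⁻¹, b * a⁻¹, c * a⁻¹) = f (a, b, c)
  cj : ∀ (σ : Perm (Fin 5)) (a b c : A), f (cjA σ a, cjA σ b, cjA σ c) = f (a, b, c)
  coh : ∀ (i j : ℕ) (x y : Gam), f x = f y →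
    Set.ncard {z : Gam | f z = i ∧ f (z⁻¹ * x) = j} =
      Set.ncard {z : Gam | f z = i ∧ f (z⁻¹ * y) = j}

/-- valency of the colour s -/
def nOf (f : Gam → ℕ) (s : ℕ) : ℕ := (Finset.univ.filter (fun x : Gam => f x = s)).card

/-- (0 1)(2 3) -/
def v1 : A := ⟨swap 0 1 * swap 2 3, by rw [Perm.mem_alternatingGroup]; decide⟩

/-- (0 2)(1 3) -/
def v2 : A := ⟨swap 0 2 * swap 1 3, by rw [Perm.mem_alternatingGroup]; decide⟩

/-- the Klein four-group -/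
def V4 : Finset A := {1, v1, v2, v1 * v2}

/-- the 3-cycle 0 -> 1 -> 2 -> 0 -/
def c3 : A := ⟨swap 0 1 * swap 1 2, by rw [Perm.mem_alternatingGroup]; decide⟩

/-- a 5-cycle -/
def c5 : A := ⟨finRotate 5, by rw [Perm.mem_alternatingGroup]; decide⟩

/-- the result of the local (congruence) step: s is the colour of the big class S, s' the common
colour of the classes 10 and 27 -/
structure Loc (f : Gam → ℕ) (s s' : ℕ) : Prop where
  one : ∀ t : A, t ≠ 1 → f (t, 1, 1) = s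
  v4 : ∀ a ∈ V4, ∀ b ∈ V4, ∀ c ∈ V4, (a, b, c) ≠ ((1, 1, 1) : Gam) → f (a, b, c) = s
  inv2 : ∀ a ∈ V4, ∀ b ∈ V4, a ≠ 1 → b ≠ 1 → ∀ x y : A,
    f (x⁻¹ * a * x, y⁻¹ * b * y, 1) = s
  three : ∀ a b : A, (a = c3 ∨ a = c3⁻¹) → (b = c3 ∨ b = c3⁻¹) → ∀ φ : ℕ → ℚ,
    ∑ x : A, ∑ y : A, φ (f (x⁻¹ * a * x, y⁻¹ * b * y, 1)) = 2520 * φ s + 1080 * φ s'
  five_same : ∀ i j : ℕ, 0 < i → i < 5 → 0 < j → j < 5 → (i = j ∨ i + j = 5) → ∀ φ : ℕ → ℚ,
    ∑ x : A, ∑ y : A, φ (f (x⁻¹ * c5 ^ i * x, y⁻¹ * c5 ^ j * y, 1)) = 2100 * φ s + 1500 * φ s'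
  five_diff : ∀ i j : ℕ, 0 < i → i < 5 → 0 < j → j < 5 → ¬ (i = j ∨ i + j = 5) → ∀ x y : A,
    f (x⁻¹ * c5 ^ i * x, y⁻¹ * c5 ^ j * y, 1) = s
  dvd : 120 ∣ nOf f s + 1
  le : 5999 ≤ nOf f s

/-- first eigenmatrix of the zonal algebra on A5^2 (17 types): rows i, columns t -/
def B : Fin 17 → Fin 17 → ℤ :=
  ![![1, 60, 45, 72, 20, 360, 120, 180, 360, 360, 720, 360, 30, 360, 360, 120, 72],
    ![1, 30, 15, 12, 5, 60, 30, 15, 30, -30, 0, -30, 0, -30, -60, -30, -18],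
    ![1, 0, -15, 12, -10, 0, 20, 30, -30, 0, -60, 60, 10, 30, -60, 30, -18],
    ![1, 20, 5, 32, 0, -40, 0, -40, 20, 40, -40, 40, -10, -60, 0, 20, 12],
    ![1, 15, 0, -18, 10, 60, 10, -30, -60, 0, -60, 0, 10, 0, 30, 20, 12],
    ![1, 12, 21, 24, -4, -24, -24, 12, -48, -24, 0, -24, 6, 48, 24, 0, 0],
    ![1, -12, 9, 0, 10, -48, 28, 6, -6, 0, 12, 0, 10, -18, 12, 2, -6],
    ![1, -12, 9, 0, 2, 0, 12, -18, 18, 0, -36, 0, -6, 54, -36, -6, 18],
    ![1, 5, -10, 2, 5, -10, -10, 0, 20, 35, -30, -20, 5, 20, 5, -10, -8],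
    ![1, 6, 3, -12, 1, -12, -2, 27, -6, 18, 0, -18, -8, -6, -12, 14, 6],
    ![1, -4, -7, 8, 6, 8, -12, 2, 14, -32, 20, -8, 2, -6, -12, 14, 6],
    ![1, -4, -7, 8, -4, 8, 8, 12, -16, 8, 0, -8, 2, -16, 8, -16, 16],
    ![1, 10, -5, -8, -5, -20, 10, -5, 20, -30, 0, 0, 0, 10, 20, 0, 2],
    ![1, -3, 6, -6, 1, 6, -14, 12, 12, -9, -30, 36, 1, -12, 9, -10, 0],
    ![1, -3, 6, -6, -7, 6, -6, -12, 12, 15, 18, -12, 9, -12, -15, 6, 0],
    ![1, -8, 1, 4, -2, 16, 4, -2, 2, 0, -12, -12, -6, -2, 20, 6, -10],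
    ![1, 1, -2, -2, 1, -2, -2, -8, -16, 3, 30, 12, -3, 4, -7, -6, -4]]

/-- multiplicities of the 17 zonal characters -/
def mm : Fin 17 → ℤ :=
  ![1, 48, 54, 54, 64, 75, 125, 125, 216, 240, 270, 270, 288, 300, 300, 450, 720]

/-- the eigenvalue attached to the zonal character i by the vector K -/
def th (K : Fin 17 → ℤ) (i : Fin 17) : ℤ := ∑ t, B i t * K t

/-- total multiplicity of the non-trivial zonal characters with eigenvalue θ -/
def mOf (K : Fin 17 → ℤ) (θ : ℤ) : ℤ :=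
  ∑ j ∈ Finset.univ.filter (fun j : Fin 17 => j ≠ 0 ∧ th K j = θ), mm j

/-- hypotheses of the purely numerical step -/
structure NumHyp (K : Fin 17 → ℤ) (ω : ℤ → ℤ) : Prop where
  k0 : K 0 = 59
  dvd : (120 : ℤ) ∣ th K 0 + 1
  le : 5999 ≤ th K 0
  le' : th K 0 ≤ 215999
  lt : ∀ i, i ≠ 0 → th K i < th K 0
  pos : ∀ i, i ≠ 0 → 0 < ω (th K i)
  eqn : ∀ i, i ≠ 0 →
    th K 0 * (mOf K (th K i) - 60 * ω (th K i)) = th K i * (mOf K (th K i) + 3540 * ω (th K i))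
  tot : ∑ θ ∈ (Finset.univ.filter (fun i : Fin 17 => i ≠ 0)).image (th K), ω θ = 60

/-- ψ i t: the value of the zonal spherical function i on the type t -/
noncomputable def psi (i t : Fin 17) : ℚ := (B i t : ℚ) / (B 0 t : ℚ)

/-- the 17 types of pairs (b,c), i.e. the orbits on A5^2 of the point stabilizer of D(A5,3) -/
structure Zon (typ : A → A → Fin 17) : Prop where
  inv : ∀ K : A → A → ℕ, (∀ b c, K c b = K b c) → (∀ b c, K (b * c⁻¹) c⁻¹ = K b c) →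
    (∀ (σ : Perm (Fin 5)) (b c : A), K (cjA σ b) (cjA σ c) = K b c) →
    ∃ κ : Fin 17 → ℕ, ∀ b c, K b c = κ (typ b c)
  zero : ∀ b c, typ b c = 0 ↔ b = 1 ∧ c = 1
  one : ∀ b, b ≠ 1 → typ b 1 = 1 ∨ typ b 1 = 2 ∨ typ b 1 = 3
  card : ∀ t, (((Finset.univ : Finset (A × A)).filter
    (fun p => typ p.1 p.2 = t)).card : ℤ) = B 0 t
  eig : ∀ (i t : Fin 17) (b c : A),
    ∑ p ∈ (Finset.univ : Finset (A × A)).filter (fun p => typ p.1 p.2 = t),
      psi i (typ (b * p.1) (c * p.2)) = (B i t : ℚ) * psi i (typ b c)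

/-- the adjacency matrix of the colour s -/
noncomputable def Aop (f : Gam → ℕ) (s : ℕ) : Matrix Gam Gam ℚ :=
  Matrix.of fun x y => if f (x⁻¹ * y) = s then 1 else 0

/-- M is an element of the scheme algebra, with coefficient function φ -/
def IsCol (f : Gam → ℕ) (M : Matrix Gam Gam ℚ) (φ : ℕ → ℚ) : Prop :=
  ∀ x y, M x y = φ (f (x⁻¹ * y))

/-- the zonal vector number i -/
noncomputable def vec (typ : A → A → Fin 17) (i : Fin 17) : Gam → ℚ :=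
  fun x => psi i (typ x.2.1 x.2.2)

/-- κ is the distribution vector of the colour s: κ (typ b c) = number of a with f(a,b,c) = s -/
def KVec (f : Gam → ℕ) (s : ℕ) (typ : A → A → Fin 17) (κ : Fin 17 → ℕ) : Prop :=
  ∀ b c, (Finset.univ.filter (fun a : A => f (a, b, c) = s)).card = κ (typ b c)

end MP26f323
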