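import Pool.Agent.Lib.MP_26f323_al.KVec

/-!
MP_26f323_al: module EIG (the zonal vectors are eigenvectors).
-/

set_option autoImplicit false
set_option linter.constructorNameAsVariable false

namespace MP26f323

open Equiv

namespace EigAux

theorem mm_orth : ∀ t : Fin 17, ∑ i, mm i * B i t = if t = 0 then 3600 else 0 := by
  decide +kernel

theorem B00 : B 0 0 = 1 := by decide +kernel

theorem B0_pos : ∀ t : Fin 17, 0 < B 0 t := by decide +kernel

end EigAux

open EigAux KVecAux in
/-- module EIG -/
theorem specEig : SpecEig := by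
  intro typ hz f s hf κ hκ
  constructor
  · intro i
    funext x
    simp only [Matrix.mulVec, dotProduct, Aop, Matrix.of_apply, vec, Pi.smul_apply, smul_eq_mul]
    rw [← Equiv.sum_comp (Equiv.mulLeft x)]
    simp only [Equiv.coe_mulLeft, inv_mul_cancel_left, Prod.snd_mul, Prod.fst_mul]
    rw [Fintype.sum_prod_type_right]
    simp only [ite_mul, one_mul, zero_mul]
    have h1 : ∀ p : A × A, (∑ a : A, if f (a, p) = s then
        psi i (typ (x.2.1 * (a, p).2.1) (x.2.2 * (a, p).2.2)) else 0) =
        (κ (typ p.1 p.2) : ℚ) * psi i (typ (x.2.1 * p.1) (x.2.2 * p.2)) := by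
      intro p
      rw [← Finset.sum_filter]
      change (∑ a ∈ Finset.univ.filter (fun a : A => f (a, p.1, p.2) = s),
        psi i (typ (x.2.1 * p.1) (x.2.2 * p.2))) = _
      rw [Finset.sum_const, nsmul_eq_mul, ← hκ p.1 p.2]
    rw [Finset.sum_congr rfl fun p _ => h1 p, sum_types typ _ κ]
    have h2 : ∀ t : Fin 17, (∑ p ∈ (Finset.univ : Finset (A × A)).filter
        (fun p => typ p.1 p.2 = t), psi i (typ (x.2.1 * p.1) (x.2.2 * p.2))) =
        (B i t : ℚ) * psi i (typ x.2.1 x.2.2) := fun t => hz.eig i t x.2.1 x.2.2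
    rw [Finset.sum_congr rfl fun t _ => by rw [h2 t]]
    unfold th
    push_cast
    rw [Finset.sum_mul]
    refine Finset.sum_congr rfl fun t _ => ?_
    ring
  · intro x
    have h1 : ∀ t : Fin 17, ∑ i, ((mm i : ℚ) / 3600) * psi i t = if t = 0 then 1 else 0 := by
      intro t
      have h2 := mm_orth t
      have h3 : ∑ i, ((mm i : ℚ) / 3600) * psi i t =
          ((∑ i, mm i * B i t : ℤ) : ℚ) / (3600 * (B 0 t : ℚ)) := by
        push_cast
        rw [Finset.sum_div]
        refine Finset.sum_congr rfl fun i _ => ?_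
        unfold psi
        have hB : (B 0 t : ℚ) ≠ 0 := by
          have := B0_pos t
          exact_mod_cast this.ne'
        field_simp
      rw [h3, h2]
      by_cases ht : t = 0
      · subst ht
        rw [if_pos rfl, if_pos rfl, B00]
        norm_num
      · rw [if_neg ht, if_neg ht]
        simp
    have h4 := h1 (typ x.2.1 x.2.2)
    simp only [vec]
    rw [h4]
    by_cases h5 : x.2.1 = 1 ∧ x.2.2 = 1
    · rw [if_pos h5, if_pos ((hz.zero _ _).2 h5)]
    · rw [if_neg h5, if_neg (fun h => h5 ((hz.zero _ _).1 h))]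

end MP26f323
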