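import Pool.Agent.Lib.MP_26f323_al.Spec

/-!
MP_26f323_al, module ASM: the exact step from its parts.
-/

set_option autoImplicit false
set_option linter.constructorNameAsVariable false

namespace MP26f323

open Equiv Polynomial

namespace Asm

/-- the order of A5 -/
theorem cardA : Fintype.card A = 60 := by
  have h2 := two_mul_card_alternatingGroup (α := Fin 5)
  have h3 : Fintype.card (Perm (Fin 5)) = 120 := by
    rw [Fintype.card_perm]; decide
  have h4 : 2 * Fintype.card A = 120 := by
    rw [← h3, ← h2]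
  omega

/-- the number of points -/
theorem cardGam : (Finset.univ : Finset Gam).card = 216000 := by
  rw [Finset.card_univ, Fintype.card_prod, Fintype.card_prod, cardA]

/-- polynomials of a matrix applied to an eigenvector -/
theorem aeval_mulVec {n : Type*} [Fintype n] [DecidableEq n] (M : Matrix n n ℚ) (v : n → ℚ)
    (a : ℚ) (h : M.mulVec v = a • v) (p : ℚ[X]) :
    (aeval M p).mulVec v = p.eval a • v := by
  induction p using Polynomial.induction_on' with
  | add p q hp hq =>
    rw [map_add, Matrix.add_mulVec, hp, hq, eval_add, add_smul]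
  | monomial k c =>
    have hk : ∀ k : ℕ, (M ^ k).mulVec v = a ^ k • v := by
      intro k
      induction k with
      | zero => simp
      | succ k ih =>
        rw [pow_succ, ← Matrix.mulVec_mulVec, h, Matrix.mulVec_smul, ih, smul_smul, pow_succ,
          mul_comm]
    rw [aeval_monomial, eval_monomial, Algebra.algebraMap_eq_smul_one, smul_mul_assoc, one_mul,
      Matrix.smul_mulVec, hk, smul_smul]

/-- the sum of the coefficient of the Kronecker type vector over the first coordinate -/
theorem sum_first (g : Gam → ℚ) :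
    ∑ x : Gam, g x * (if x.2.1 = 1 ∧ x.2.2 = 1 then 1 else 0) = ∑ a : A, g (a, 1, 1) := by
  rw [Fintype.sum_prod_type]
  refine Finset.sum_congr rfl fun a _ => ?_
  rw [Finset.sum_eq_single ((1, 1) : A × A)]
  · simp
  · rintro ⟨b, c⟩ _ hbc
    have : ¬ (b = 1 ∧ c = 1) := by
      rintro ⟨rfl, rfl⟩
      exact hbc rfl
    simp [this]
  · intro h
    exact absurd (Finset.mem_univ _) h

theorem mm_sum : ∑ i, mm i = 3600 := by decide

theorem B_zero (i : Fin 17) : B i 0 = 1 := by
  revert i; decide

theorem mm_zero : mm 0 = 1 := by decide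

end Asm

open Asm in
/-- module ASM -/
theorem specExa (hz : SpecZon) (hk : SpecKVec) (he : SpecEig) (ha : SpecAlg) (hm : SpecMin)
    (hr : SpecRank) : SpecExa := by
  intro f s s' hf hl
  obtain ⟨typ, hT⟩ := hz
  obtain ⟨κ, hκ, hN, hκ'⟩ := hk typ hT f s hf
  obtain ⟨hκ0, hlt⟩ := hκ' s' hl
  obtain ⟨hev, hdel⟩ := he typ hT f s hf κ hκ
  obtain ⟨-, hsym, hmul, hpol⟩ := ha f hf
  have hmin := hm typ hT f s s' hf hl κ hκ
  have hrank := hr f s s' hf hl
  set K : Fin 17 → ℤ := fun t => (κ t : ℤ) with hK
  -- s is not the diagonal colour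
  have hs0 : s ≠ 0 := by
    intro h0
    have h2 := hl.one c3 (by decide)
    rw [h0, hf.zero] at h2
    have h3 : c3 = 1 := by
      have := congrArg Prod.fst h2
      simpa using this
    exact absurd h3 (by decide)
  have hf1 : f 1 = 0 := (hf.zero 1).2 rfl
  -- set of eigenvalues
  set S : Finset ℤ := Finset.univ.image (th K) with hS
  have hmemS : ∀ i, th K i ∈ S := fun i => Finset.mem_image_of_mem _ (Finset.mem_univ i)
  have hinj : Set.InjOn (fun z : ℤ => (z : ℚ)) (S : Set ℤ) := by
    intro a _ b _ hab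
    exact Int.cast_injective hab
  set L : ℤ → ℚ[X] := fun t => Lagrange.basis S (fun z : ℤ => (z : ℚ)) t with hL
  have hLeval : ∀ t ∈ S, ∀ i, (L t).eval ((th K i : ℤ) : ℚ) = if th K i = t then 1 else 0 := by
    intro t ht i
    by_cases h : th K i = t
    · rw [if_pos h, h]
      exact Lagrange.eval_basis_self hinj ht
    · rw [if_neg h]
      exact Lagrange.eval_basis_of_ne (fun h' => h h'.symm) (hmemS i)
  set E : ℤ → Matrix Gam Gam ℚ := fun t => aeval (Aop f s) (L t) with hE
  -- idempotent
  have hidem : ∀ t ∈ S, E t * E t = E t := by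
    intro t ht
    have h := hmin (L t * L t - L t) (by
      intro i
      rw [eval_sub, eval_mul, hLeval t ht i]
      split_ifs <;> norm_num)
    rw [map_sub, map_mul, sub_eq_zero] at h
    exact h
  have hAE : ∀ t ∈ S, Aop f s * E t = (t : ℚ) • E t := by
    intro t ht
    have h := hmin (X * L t - C (t : ℚ) * L t) (by
      intro i
      rw [eval_sub, eval_mul, eval_mul, eval_X, eval_C, hLeval t ht i]
      split_ifs with h'
      · rw [h']; ring
      · ring)
    rw [map_sub, map_mul, map_mul, aeval_X, aeval_C, sub_eq_zero, Algebra.algebraMap_eq_smul_one,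
      smul_mul_assoc, one_mul] at h
    exact h
  have hsum1 : ∑ t ∈ S, E t = 1 := by
    have h := Lagrange.sum_basis (s := S) (v := fun z : ℤ => (z : ℚ)) hinj ⟨_, hmemS 0⟩
    have h2 := congrArg (aeval (Aop f s)) h
    rw [map_sum, map_one] at h2
    exact h2
  -- eigenvectors
  have hEv : ∀ t ∈ S, ∀ i, (E t).mulVec (vec typ i) = if th K i = t then vec typ i else 0 := by
    intro t ht i
    rw [hE]
    simp only
    rw [aeval_mulVec _ _ _ (hev i), hLeval t ht i]
    split_ifs with h'
    · rw [one_smul]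
    · rw [zero_smul]
  have hvec1 : ∀ i, vec typ i 1 = 1 := by
    intro i
    have h0 : typ (1 : Gam).2.1 (1 : Gam).2.2 = 0 := (hT.zero _ _).2 ⟨rfl, rfl⟩
    rw [vec, h0, psi, B_zero, B_zero]
    norm_num
  -- coefficients
  choose φ hφ using fun t : ℤ => hpol s (L t)
  have hφ' : ∀ t x y, E t x y = φ t (f (x⁻¹ * y)) := fun t x y => hφ t x y
  have hone : ∀ t x, E t 1 x = φ t (f x) := by
    intro t x
    rw [hφ', inv_one, one_mul]
  -- the numbers m
  set m : ℤ → ℤ := fun t => ∑ i ∈ Finset.univ.filter (fun i => th K i = t), mm i with hmdef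
  have hmrel : ∀ t ∈ S, 216000 * φ t 0 + 59 * (216000 * φ t s) = 60 * (m t : ℚ) := by
    intro t ht
    have h1 : (E t).mulVec (fun x => if x.2.1 = 1 ∧ x.2.2 = 1 then (1 : ℚ) else 0) 1 =
        φ t 0 + 59 * φ t s := by
      have : (E t).mulVec (fun x => if x.2.1 = 1 ∧ x.2.2 = 1 then (1 : ℚ) else 0) 1 =
          ∑ x : Gam, E t 1 x * (if x.2.1 = 1 ∧ x.2.2 = 1 then 1 else 0) := rfl
      rw [this, sum_first]
      rw [← Finset.add_sum_erase _ _ (Finset.mem_univ (1 : A))]
      have h2 : ∀ a ∈ Finset.univ.erase (1 : A), E t 1 (a, 1, 1) = φ t s := by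
        intro a ha
        rw [hone, hl.one a (Finset.ne_of_mem_erase ha)]
      rw [Finset.sum_congr rfl h2, Finset.sum_const, Finset.card_erase_of_mem (Finset.mem_univ _),
        Finset.card_univ, cardA, hone]
      have h3 : f ((1, 1, 1) : Gam) = 0 := hf1
      rw [h3, nsmul_eq_mul]
      norm_num
    have h2 : (fun x : Gam => if x.2.1 = 1 ∧ x.2.2 = 1 then (1 : ℚ) else 0) =
        ∑ i, ((mm i : ℚ) / 3600) • vec typ i := by
      funext x
      rw [← hdel x, Finset.sum_apply]
      rfl
    rw [h2, Matrix.mulVec_sum, Finset.sum_apply] at h1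
    have h3 : ∀ i : Fin 17, (E t).mulVec (((mm i : ℚ) / 3600) • vec typ i) 1 =
        if th K i = t then (mm i : ℚ) / 3600 else 0 := by
      intro i
      rw [Matrix.mulVec_smul, hEv t ht i, Pi.smul_apply]
      split_ifs with h'
      · rw [hvec1, smul_eq_mul, mul_one]
      · rw [Pi.zero_apply, smul_zero]
    rw [Finset.sum_congr rfl (fun i _ => h3 i), ← Finset.sum_filter] at h1
    have h4 : (m t : ℚ) = 3600 * ∑ i ∈ Finset.univ.filter (fun i => th K i = t),
        (mm i : ℚ) / 3600 := by
      rw [hmdef]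
      push_cast
      rw [Finset.mul_sum]
      refine Finset.sum_congr rfl fun i _ => ?_
      ring
    rw [h4, h1]
    ring
  -- N φ(s) = t φ(0)
  have hNrel : ∀ t ∈ S, (th K 0 : ℚ) * φ t s = (t : ℚ) * φ t 0 := by
    intro t ht
    have h1 := congrFun (congrFun (hAE t ht) 1) 1
    rw [Matrix.mul_apply, Matrix.smul_apply, hone, hf1, smul_eq_mul] at h1
    rw [← h1]
    have h2 : ∀ x : Gam, Aop f s 1 x * E t x 1 = if f x = s then φ t s else 0 := by
      intro x
      rw [hφ', mul_one, hf.inv, Aop, Matrix.of_apply, inv_one, one_mul]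
      split_ifs with h'
      · rw [h', one_mul]
      · rw [zero_mul]
    rw [Finset.sum_congr rfl (fun x _ => h2 x), ← Finset.sum_filter, Finset.sum_const,
      nsmul_eq_mul, hN]
    rw [nOf, Int.cast_natCast]
  -- positivity of φ(0)
  have hpos : ∀ t ∈ S, 0 < φ t 0 := by
    intro t ht
    have h1 : φ t 0 = ∑ y : Gam, φ t (f y) * φ t (f y) := by
      have h2 := congrFun (congrFun (hidem t ht) 1) 1
      rw [Matrix.mul_apply, hone, hf1] at h2
      rw [← h2]
      refine Finset.sum_congr rfl fun y _ => ?_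
      rw [hone, hφ', mul_one, hf.inv]
    have h3 : 0 ≤ φ t 0 := by
      rw [h1]
      exact Finset.sum_nonneg fun y _ => mul_self_nonneg _
    rcases h3.lt_or_eq with h | h
    · exact h
    · exfalso
      have h4 : ∀ y : Gam, φ t (f y) = 0 := by
        intro y
        have h9 : ∑ y : Gam, φ t (f y) * φ t (f y) = 0 := by
          rw [← h1]
          exact h.symm
        have h5 := (Fintype.sum_eq_zero_iff_of_nonneg (ι := Gam)
          (f := fun y => φ t (f y) * φ t (f y))
          (fun y => mul_self_nonneg (φ t (f y)))).1 h9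
        exact mul_self_eq_zero.1 (congrFun h5 y)
      obtain ⟨i, -, hi⟩ := Finset.mem_image.1 ht
      have h6 := congrFun (hEv t ht i) 1
      rw [if_pos hi, hvec1] at h6
      have h7 : (E t).mulVec (vec typ i) 1 = ∑ x : Gam, E t 1 x * vec typ i x := rfl
      rw [h7] at h6
      have h8 : ∑ x : Gam, E t 1 x * vec typ i x = 0 := by
        refine Finset.sum_eq_zero fun x _ => ?_
        rw [hone, h4, zero_mul]
      rw [h8] at h6
      exact zero_ne_one h6
  -- the numbers omega
  have hω : ∀ t : ℤ, ∃ w : ℤ, t ∈ S → (216000 * φ t 0 = (m t : ℚ) + 3540 * (w : ℚ) ∧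
      216000 * φ t s = (m t : ℚ) - 60 * (w : ℚ)) := by
    intro t
    by_cases ht : t ∈ S
    · obtain ⟨w, hw⟩ := hrank (E t) (φ t) (hidem t ht) (fun x y => hφ t x y) (m t) (hmrel t ht)
      exact ⟨w, fun _ => hw⟩
    · exact ⟨0, fun h => absurd h ht⟩
  choose ω hω using hω
  have hNpos : 5999 ≤ th K 0 := by
    rw [hN]
    exact_mod_cast hl.le
  have hNposQ : (0 : ℚ) < (th K 0 : ℚ) := by
    have : (0 : ℤ) < th K 0 := by omega
    exact_mod_cast this
  have hmN : m (th K 0) = 1 := by
    have : Finset.univ.filter (fun i => th K i = th K 0) = {0} := by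
      ext i
      simp only [Finset.mem_filter, Finset.mem_univ, true_and, Finset.mem_singleton]
      constructor
      · intro h
        by_contra hi
        exact absurd h (hlt i hi).ne
      · rintro rfl; rfl
    rw [hmdef]
    simp only
    rw [this, Finset.sum_singleton, mm_zero]
  have hωN : ω (th K 0) = 0 := by
    have h1 := hNrel _ (hmemS 0)
    have h2 : φ (th K 0) s = φ (th K 0) 0 := mul_left_cancel₀ hNposQ.ne' h1
    obtain ⟨h3, h4⟩ := hω _ (hmemS 0)
    rw [h2, h3] at h4
    have h5 : (3600 : ℚ) * (ω (th K 0) : ℚ) = 0 := by linarith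
    have h6 : (ω (th K 0) : ℚ) = 0 := by
      rcases mul_eq_zero.1 h5 with h | h
      · norm_num at h
      · exact h
    exact_mod_cast h6
  have hmOf : ∀ i, i ≠ 0 → mOf K (th K i) = m (th K i) := by
    intro i hi
    rw [mOf, hmdef]
    simp only
    refine Finset.sum_congr ?_ fun _ _ => rfl
    ext j
    simp only [Finset.mem_filter, Finset.mem_univ, true_and, and_iff_right_iff_imp]
    rintro h rfl
    exact (hlt i hi).ne h.symm
  have hle' : th K 0 ≤ 215999 := by
    rw [hN]
    have hsub : Finset.univ.filter (fun x : Gam => f x = s) ⊆ Finset.univ.erase (1 : Gam) := by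
      intro w hw
      simp only [Finset.mem_filter, Finset.mem_univ, true_and] at hw
      simp only [Finset.mem_erase, Finset.mem_univ, and_true]
      rintro rfl
      exact hs0 (by rw [← hw]; exact hf1)
    have hc := Finset.card_le_card hsub
    rw [Finset.card_erase_of_mem (Finset.mem_univ _), cardGam] at hc
    have : nOf f s ≤ 215999 := hc
    exact_mod_cast this
  refine ⟨K, ω, ⟨?_, ?_, hNpos, hle', fun i hi => hlt i hi, ?_, ?_, ?_⟩, hN⟩
  · rw [hK]
    simp only [hκ0]
    norm_num
  · rw [hN]
    have := hl.dvd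
    exact_mod_cast this
  · -- positivity of omega
    intro i hi
    obtain ⟨h3, h4⟩ := hω _ (hmemS i)
    have h1 := hNrel _ (hmemS i)
    have h2 := hpos _ (hmemS i)
    have h5 : (th K i : ℚ) < (th K 0 : ℚ) := by exact_mod_cast hlt i hi
    have h6 : (th K 0 : ℚ) * φ (th K i) s < (th K 0 : ℚ) * φ (th K i) 0 := by
      rw [h1]
      exact mul_lt_mul_of_pos_right h5 h2
    have h7 : φ (th K i) s < φ (th K i) 0 := lt_of_mul_lt_mul_left h6 hNposQ.le
    have h8 : (0 : ℚ) < (ω (th K i) : ℚ) := by linarith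
    exact_mod_cast h8
  · -- the equation
    intro i hi
    obtain ⟨h3, h4⟩ := hω _ (hmemS i)
    have h1 := hNrel _ (hmemS i)
    rw [hmOf i hi]
    have h5 : (th K 0 : ℚ) * ((m (th K i) : ℚ) - 60 * (ω (th K i) : ℚ)) =
        (th K i : ℚ) * ((m (th K i) : ℚ) + 3540 * (ω (th K i) : ℚ)) := by
      rw [← h3, ← h4]
      linear_combination 216000 * h1
    exact_mod_cast h5
  · -- the total
    have hSS : S = insert (th K 0)
        ((Finset.univ.filter (fun i : Fin 17 => i ≠ 0)).image (th K)) := by
      rw [hS, ← Finset.image_insert]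
      have h17 : (Finset.univ : Finset (Fin 17)) =
          insert 0 (Finset.univ.filter (fun i : Fin 17 => i ≠ 0)) := by
        decide
      rw [← h17]
    have hnot : th K 0 ∉ (Finset.univ.filter (fun i : Fin 17 => i ≠ 0)).image (th K) := by
      intro h
      obtain ⟨i, hi, h'⟩ := Finset.mem_image.1 h
      have hi' := (Finset.mem_filter.1 hi).2
      exact (hlt i hi').ne h'
    have hT1 : ∑ t ∈ S, ω t =
        ∑ θ ∈ (Finset.univ.filter (fun i : Fin 17 => i ≠ 0)).image (th K), ω θ := by
      rw [hSS, Finset.sum_insert hnot, hωN, zero_add]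
    rw [← hT1]
    have hM : ∑ t ∈ S, m t = 3600 := by
      rw [← mm_sum, hmdef]
      simp only
      rw [Finset.sum_fiberwise_of_maps_to (fun i _ => hmemS i)]
    have h0 : ∑ t ∈ S, φ t 0 = 1 := by
      have h1 := congrFun (congrFun hsum1 1) 1
      rw [Matrix.sum_apply, Matrix.one_apply_eq] at h1
      rw [← h1]
      refine Finset.sum_congr rfl fun t _ => ?_
      rw [hone, hf1]
    have h2 : ∑ t ∈ S, 216000 * φ t 0 = ∑ t ∈ S, ((m t : ℚ) + 3540 * (ω t : ℚ)) :=
      Finset.sum_congr rfl fun t ht => (hω t ht).1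
    rw [← Finset.mul_sum, h0, Finset.sum_add_distrib, ← Finset.mul_sum] at h2
    have h3 : ((∑ t ∈ S, m t : ℤ) : ℚ) = 3600 := by rw [hM]; norm_num
    push_cast at h3
    rw [h3] at h2
    have h4 : ((∑ t ∈ S, ω t : ℤ) : ℚ) = 60 := by
      push_cast
      linarith
    exact_mod_cast h4

end MP26f323
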