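import Pool.Agent.Lib.MP_26f323_al.Lane

/-!
MP_26f323_al, module GL: the packed table of a list of rows.
-/

set_option autoImplicit false

namespace MP26f323

open ZonM ClsM

namespace Chk

open LaneM

namespace GlM

/-- packed table from the list of rows -/
def gl (L : List ℕ) : ℕ → ℕ :=
  List.rec (fun _ => 0) (fun row _ ih j =>
    Bool.rec (Nat.add (lane 32 row j) (Nat.shiftLeft (ih (Nat.add j 1)) (Nat.mul 32 1)))
      (Nat.add row (Nat.shiftLeft (ih (Nat.add j 1)) (Nat.mul 32 (Nat.add j 1))))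
      (Nat.blt j 77)) L

/-- high bits of the lanes -/
def HI : ℕ := Nat.mul 4294950912 ONE

/-- conditions on a row -/
def rowOK (D row j : ℕ) : Bool :=
  Bool.and (Nat.blt row (Nat.pow 2 (Nat.mul 32 (Nat.add j 1))))
    (Bool.and (Nat.beq (Nat.land row HI) 0)
      (Bool.rec (allLt j fun i => Nat.beq (Nat.mod (lane 32 row i) D) 0) true (Nat.blt j 77)))

/-- conditions on all rows -/
def rowsOK (D : ℕ) (L : List ℕ) : ℕ → Bool :=
  List.rec (fun j => Nat.beq j 110)
    (fun row _ ih j => Bool.and (rowOK D row j) (ih (Nat.add j 1))) L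

/-- width of a row -/
def wd (j : ℕ) : ℕ := if j < 77 then j + 1 else 1

/-- value of a row -/
def rv (row j : ℕ) : ℕ := if j < 77 then row else lane 32 row j

/-- offset of a row -/
def off (j : ℕ) : ℕ := ∑ m ∈ Finset.range j, wd m

lemma gl_nil (j : ℕ) : gl [] j = 0 := rfl

lemma gl_cons (row : ℕ) (L : List ℕ) (j : ℕ) :
    gl (row :: L) j = rv row j + (gl L (j + 1)) <<< (32 * wd j) := by
  have h : gl (row :: L) j =
      Bool.rec (Nat.add (lane 32 row j) (Nat.shiftLeft (gl L (Nat.add j 1)) (Nat.mul 32 1)))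
        (Nat.add row (Nat.shiftLeft (gl L (Nat.add j 1)) (Nat.mul 32 (Nat.add j 1))))
        (Nat.blt j 77) := rfl
  rw [h]
  unfold rv wd
  by_cases hj : j < 77
  · have hb : Nat.blt j 77 = true := by simpa [Nat.blt_eq] using hj
    rw [hb, if_pos hj, if_pos hj]
    rfl
  · have hb : Nat.blt j 77 = false := by
      rw [← Bool.not_eq_true]
      intro h1
      exact hj (by simpa [Nat.blt_eq] using h1)
    rw [hb, if_neg hj, if_neg hj]
    rfl

lemma lane_cat (a X n p : ℕ) (h : a < 2 ^ (32 * n)) :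
    lane 32 (a + X <<< (32 * n)) p = if p < n then lane 32 a p else lane 32 X (p - n) := by
  rw [Nat.shiftLeft_eq, mul_comm X]
  split_ifs with hp
  · rw [lane_eq, lane_eq]
    obtain ⟨d, rfl⟩ : ∃ d, n = p + 1 + d := ⟨n - (p + 1), by omega⟩
    have h1 : 2 ^ (32 * (p + 1 + d)) * X = 2 ^ (32 * p) * (2 ^ 32 * (2 ^ (32 * d) * X)) := by
      rw [← mul_assoc, ← mul_assoc, ← pow_add, ← pow_add]
      congr 2
      ring
    rw [h1, Nat.add_mul_div_left _ _ (by positivity), Nat.add_mul_mod_self_left]
  · push Not at hp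
    obtain ⟨d, rfl⟩ : ∃ d, p = n + d := ⟨p - n, by omega⟩
    rw [lane_eq, lane_eq, Nat.add_sub_cancel_left]
    have h1 : 2 ^ (32 * (n + d)) = 2 ^ (32 * n) * 2 ^ (32 * d) := by
      rw [← pow_add]; congr 1; ring
    rw [h1, ← Nat.div_div_eq_div_mul, Nat.add_mul_div_left _ _ (by positivity),
      Nat.div_eq_of_lt h, zero_add]

lemma rv_lt {row j : ℕ} (h : row < 2 ^ (32 * (j + 1))) : rv row j < 2 ^ (32 * wd j) := by
  unfold rv wd
  split_ifs with hj
  · exact h
  · have := lane_lt row j
    simpa using this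

lemma off_succ (j : ℕ) : off (j + 1) = off j + wd j := Finset.sum_range_succ _ _

lemma off_mono {i j : ℕ} (h : i ≤ j) : off i ≤ off j := by
  induction j with
  | zero => rw [Nat.le_zero.1 h]
  | succ j ih =>
    rcases Nat.lt_or_ge i (j + 1) with h1 | h1
    · rw [off_succ]; have := ih (by omega); omega
    · rw [show i = j + 1 by omega]

lemma nthL_zero (row : ℕ) (L : List ℕ) : nthL 0 (row :: L) 0 = row := rfl

lemma nthL_succ (row : ℕ) (L : List ℕ) (n : ℕ) : nthL 0 (row :: L) (n + 1) = nthL 0 L n := rfl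

attribute [local irreducible] ONE

lemma lane_HI (p : ℕ) (hp : p < 3036) : lane 32 HI p = 4294950912 := by
  show lane 32 (4294950912 * ONE) p = _
  rw [lane_mul, lane_ONE, if_pos hp]
  intro q _
  rw [lane_ONE]
  split_ifs <;> norm_num

lemma rowOK_spec {D row j : ℕ} (hj : j < 110) (h : rowOK D row j = true) :
    row < 2 ^ (32 * (j + 1)) ∧ (∀ p, lane 32 row p < 16384) ∧
      (77 ≤ j → ∀ i, i < j → lane 32 row i % D = 0) := by
  unfold rowOK at h
  rw [Bool.and_eq_true, Bool.and_eq_true] at h
  obtain ⟨h1, h2, h3⟩ := h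
  have h1' : row < 2 ^ (32 * (j + 1)) := by
    rw [Nat.blt_eq] at h1
    exact h1
  refine ⟨h1', ?_, ?_⟩
  · intro p
    have h4 := Nat.eq_of_beq_eq_true h2
    by_cases hp : p < 3036
    · have h5 : lane 32 (Nat.land row HI) p = lane 32 row p &&& 4294950912 := by
        rw [lane_and_eq, lane_HI p hp]
      rw [h4, lane_zero] at h5
      have hx : lane 32 row p < 2 ^ 32 := lane_lt _ _
      generalize lane 32 row p = x at h5 hx
      show x < 2 ^ 14
      apply Nat.lt_pow_two_of_testBit
      intro i hi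
      by_cases hk : i < 32
      · have h6 : (x &&& 4294950912).testBit i = false := by rw [← h5, Nat.zero_testBit]
        rw [Nat.testBit_and] at h6
        have h7 : (4294950912 : ℕ).testBit i = true := by
          interval_cases i <;> decide
        rw [h7, Bool.and_true] at h6
        exact h6
      · exact bit_big x i hx hk
    · rw [lane_big_gen row (j + 1) p h1' (by omega)]
      norm_num
  · intro h5 i hi
    have hb : Nat.blt j 77 = false := by
      rw [← Bool.not_eq_true]
      intro h6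
      have : j < 77 := by simpa [Nat.blt_eq] using h6
      omega
    rw [hb] at h3
    exact Nat.eq_of_beq_eq_true ((allLt_iff _ _).1 h3 i hi)

lemma rowsOK_spec {D : ℕ} (L : List ℕ) : ∀ j0, rowsOK D L j0 = true →
    L.length + j0 = 110 ∧ ∀ n, n < L.length → rowOK D (nthL 0 L n) (j0 + n) = true := by
  induction L with
  | nil =>
    intro j0 h
    have := Nat.eq_of_beq_eq_true h
    exact ⟨by simpa using this, fun n hn => absurd hn (by simp)⟩
  | cons row L ih =>
    intro j0 h
    have h1 : Bool.and (rowOK D row j0) (rowsOK D L (j0 + 1)) = true := h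
    rw [Bool.and_eq_true] at h1
    obtain ⟨h2, h3⟩ := ih (j0 + 1) h1.2
    refine ⟨by rw [List.length_cons]; omega, ?_⟩
    intro n hn
    cases n with
    | zero => exact h1.1
    | succ n =>
      have h4 := h3 n (by simpa using hn)
      rw [show j0 + 1 + n = j0 + (n + 1) by ring] at h4
      exact h4

lemma gl_lane (L : List ℕ) : ∀ j0, (∀ m, m < L.length → nthL 0 L m < 2 ^ (32 * (j0 + m + 1))) →
    ∀ n i, n < L.length → i < wd (j0 + n) →
      lane 32 (gl L j0) (off (j0 + n) - off j0 + i) = lane 32 (rv (nthL 0 L n) (j0 + n)) i := by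
  induction L with
  | nil => intro j0 _ n i hn; simp at hn
  | cons row L ih =>
    intro j0 h n i hn hi
    have h0 := h 0 (by simp)
    rw [nthL_zero, add_zero] at h0
    rw [gl_cons, lane_cat _ _ _ _ (rv_lt h0)]
    cases n with
    | zero =>
      rw [add_zero] at hi
      rw [nthL_zero, add_zero, Nat.sub_self, zero_add, if_pos hi]
    | succ n =>
      have h1 : off (j0 + 1) ≤ off (j0 + (n + 1)) := off_mono (by omega)
      rw [off_succ] at h1
      rw [if_neg (by omega), nthL_succ]
      have h2 := ih (j0 + 1) (fun m hm => by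
        have h3 := h (m + 1) (by simpa using hm)
        rw [nthL_succ] at h3
        rw [show j0 + 1 + m + 1 = j0 + (m + 1) + 1 by ring]
        exact h3) n i (by simpa using hn) (by
          rw [show j0 + 1 + n = j0 + (n + 1) by ring]; exact hi)
      rw [show j0 + 1 + n = j0 + (n + 1) by ring, off_succ] at h2
      rw [← h2, show off (j0 + (n + 1)) - off j0 + i - wd j0 =
        off (j0 + (n + 1)) - (off j0 + wd j0) + i by omega]

lemma gl_small (L : List ℕ) : ∀ j0, (∀ m, m < L.length → nthL 0 L m < 2 ^ (32 * (j0 + m + 1))) →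
    (∀ m, m < L.length → ∀ p, lane 32 (nthL 0 L m) p < 16384) →
    ∀ p, lane 32 (gl L j0) p < 16384 := by
  induction L with
  | nil => intro j0 _ _ p; rw [gl_nil, lane_zero]; norm_num
  | cons row L ih =>
    intro j0 h hs p
    have h0 := h 0 (by simp)
    have hs0 := hs 0 (by simp)
    rw [nthL_zero, add_zero] at h0
    rw [nthL_zero] at hs0
    rw [gl_cons, lane_cat _ _ _ _ (rv_lt h0)]
    split_ifs with hp
    · unfold rv
      split_ifs
      · exact hs0 p
      · have h1 := hs0 j0
        rw [lane_eq (lane 32 row j0)]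
        exact lt_of_le_of_lt (le_trans (Nat.mod_le _ _) (Nat.div_le_self _ _)) h1
    · apply ih (j0 + 1)
      · intro m hm
        have h3 := h (m + 1) (by simpa using hm)
        rw [nthL_succ] at h3
        rw [show j0 + 1 + m + 1 = j0 + (m + 1) + 1 by ring]
        exact h3
      · intro m hm
        have h3 := hs (m + 1) (by simpa using hm)
        rw [nthL_succ] at h3
        exact h3

lemma off_eq (j : ℕ) (hj : j ≤ 77) : off j = j * (j + 1) / 2 := by
  induction j with
  | zero => rfl
  | succ j ih =>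
    rw [off_succ, ih (by omega)]
    unfold wd
    rw [if_pos (by omega)]
    have h : (j + 1) * (j + 1 + 1) = j * (j + 1) + 2 * (j + 1) := by ring
    rw [h, Nat.add_mul_div_left _ _ (by norm_num)]

lemma off_reg (r : ℕ) : off (77 + r) = 3003 + r := by
  induction r with
  | zero => rw [add_zero, off_eq 77 le_rfl]
  | succ r ih =>
    rw [← add_assoc, off_succ, ih]
    unfold wd
    rw [if_neg (by omega)]
    ring

lemma lk_lane (N i : ℕ) : lk 32 N i = lane 32 N i := by
  show (N >>> (32 * i)) &&& (2 ^ 32 - 1) = (N >>> (32 * i)) % 2 ^ 32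
  rw [Nat.and_two_pow_sub_one_eq_mod]

/-- the sum over all rows in terms of the packed table -/
theorem gl_sum {D : ℕ} {L : List ℕ} (h : rowsOK D L 0 = true) (w : ℕ → ℕ → ℕ) :
    ∃ x, ∑ j ∈ Finset.range 110, ∑ i ∈ Finset.range (j + 1),
      lk 32 (nthL 0 L j) i * w (i + 1) (j + 1) = Lin (gl L 0) w + D * x := by
  obtain ⟨h1, h2⟩ := rowsOK_spec L 0 h
  rw [add_zero] at h1
  have h3 : ∀ j, j < 110 → nthL 0 L j < 2 ^ (32 * (j + 1)) ∧
      (∀ p, lane 32 (nthL 0 L j) p < 16384) ∧
      (77 ≤ j → ∀ i, i < j → lane 32 (nthL 0 L j) i % D = 0) := by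
    intro j hj
    have h4 := h2 j (by omega)
    rw [zero_add] at h4
    exact rowOK_spec hj h4
  have h5 : ∀ n i, n < 110 → i < wd n →
      lane 32 (gl L 0) (off n + i) = lane 32 (rv (nthL 0 L n) n) i := by
    intro n i hn hi
    have h6 := gl_lane L 0 (fun m hm => by
      have := (h3 m (by omega)).1
      rwa [zero_add]) n i (by omega) (by rwa [zero_add])
    rw [zero_add] at h6
    rw [← h6, show off n - off 0 = off n from Nat.sub_zero _]
  have h7 : ∀ r, r < 33 → ∀ i, i < 77 + r → D ∣ lane 32 (nthL 0 L (77 + r)) i := by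
    intro r hr i hi
    exact Nat.dvd_of_mod_eq_zero ((h3 (77 + r) (by omega)).2.2 (by omega) i hi)
  have h8 : D ∣ ∑ r ∈ Finset.range 33, ∑ i ∈ Finset.range (77 + r),
      lk 32 (nthL 0 L (77 + r)) i * w (i + 1) (77 + r + 1) := by
    refine Finset.dvd_sum fun r hr => Finset.dvd_sum fun i hi => ?_
    rw [lk_lane]
    exact Dvd.dvd.mul_right (h7 r (Finset.mem_range.1 hr) i (Finset.mem_range.1 hi)) _
  obtain ⟨x, hx⟩ := h8
  refine ⟨x, ?_⟩
  rw [show (110 : ℕ) = 77 + 33 from rfl, Finset.sum_range_add]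
  rw [Finset.sum_congr (s₁ := Finset.range 33) rfl (fun r _ => Finset.sum_range_succ
    (fun i => lk 32 (nthL 0 L (77 + r)) i * w (i + 1) (77 + r + 1)) (77 + r)),
    Finset.sum_add_distrib, hx]
  unfold Lin
  have h9 : ∑ j ∈ Finset.range 77, ∑ i ∈ Finset.range (j + 1),
      lk 32 (nthL 0 L j) i * w (i + 1) (j + 1) =
      ∑ j ∈ Finset.range 77, ∑ i ∈ Finset.range (j + 1),
        lane 32 (gl L 0) (pos (i + 1) (j + 1)) * w (i + 1) (j + 1) := by
    refine Finset.sum_congr rfl fun j hj => Finset.sum_congr rfl fun i hi => ?_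
    have hj' := Finset.mem_range.1 hj
    have hi' := Finset.mem_range.1 hi
    have h10 := h5 j i (by omega) (by unfold wd; rw [if_pos hj']; exact hi')
    have h11 : rv (nthL 0 L j) j = nthL 0 L j := by unfold rv; rw [if_pos hj']
    rw [h11] at h10
    have h12 : pos (i + 1) (j + 1) = off j + i := by
      rw [off_eq j (by omega), pos_eq, Nat.add_sub_cancel, Nat.add_sub_cancel, mul_comm (j + 1)]
    rw [lk_lane, h12, h10]
  have h12 : ∑ r ∈ Finset.range 33, lk 32 (nthL 0 L (77 + r)) (77 + r) *
      w (77 + r + 1) (77 + r + 1) =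
      ∑ r ∈ Finset.range 33, lane 32 (gl L 0) (3003 + r) * w (78 + r) (78 + r) := by
    refine Finset.sum_congr rfl fun r hr => ?_
    have hr' := Finset.mem_range.1 hr
    have h10 := h5 (77 + r) 0 (by omega) (by unfold wd; split_ifs <;> omega)
    have h11 : rv (nthL 0 L (77 + r)) (77 + r) = lane 32 (nthL 0 L (77 + r)) (77 + r) := by
      unfold rv; rw [if_neg (by omega)]
    rw [h11, add_zero, off_reg, lane_zero_right, Nat.mod_eq_of_lt (lane_lt _ _)] at h10
    rw [lk_lane, ← h10, show 77 + r + 1 = 78 + r by ring]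
  rw [h9, h12]
  ring

/-- the lanes of the packed table are small -/
theorem gl_lt {D : ℕ} {L : List ℕ} (h : rowsOK D L 0 = true) (p : ℕ) :
    lane 32 (gl L 0) p < 16384 := by
  obtain ⟨h1, h2⟩ := rowsOK_spec L 0 h
  rw [add_zero] at h1
  have h3 : ∀ j, j < 110 → nthL 0 L j < 2 ^ (32 * (j + 1)) ∧
      (∀ p, lane 32 (nthL 0 L j) p < 16384) ∧
      (77 ≤ j → ∀ i, i < j → lane 32 (nthL 0 L j) i % D = 0) := by
    intro j hj
    have h4 := h2 j (by omega)
    rw [zero_add] at h4
    exact rowOK_spec hj h4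
  refine gl_small L 0 ?_ ?_ p
  · intro m hm
    have := (h3 m (by omega)).1
    rwa [zero_add]
  · intro m hm
    exact (h3 m (by omega)).2.1

end GlM

end Chk

end MP26f323
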