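import Pool.Agent.Lib.MP_26f323_al.Spec

/-!
MP_26f323_al, module GRP: from the main theorem to the frozen statement.
The points are the cosets of the diagonal of T^4; G is the normalizer of the image of T^4.
-/

set_option autoImplicit false
set_option linter.constructorNameAsVariable false

namespace MP26f323

open Equiv

namespace Grp

section Gen

variable {T : Type} [Group T]

/-- a representative of a point -/
def lift (x : T × T × T) : Fin 4 → T := ![x.1, x.2.1, x.2.2, 1]

/-- the point of a 4-tuple -/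
def proj (g : Fin 4 → T) : T × T × T := (g 0 * (g 3)⁻¹, g 1 * (g 3)⁻¹, g 2 * (g 3)⁻¹)

theorem proj_lift (x : T × T × T) : proj (lift x) = x := by
  obtain ⟨a, b, c⟩ := x
  simp [proj, lift]

theorem proj_mul (g : Fin 4 → T) (d : T) : proj (g * fun _ => d) = proj g := by
  simp [proj]

theorem lift_proj (g : Fin 4 → T) : lift (proj g) = g * fun _ => (g 3)⁻¹ := by
  funext i
  fin_cases i <;> simp [proj, lift]

theorem proj_one : proj (1 : Fin 4 → T) = 1 := by
  simp [proj, Prod.ext_iff]

theorem lift_one : lift (1 : T × T × T) = 1 := by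
  funext i
  fin_cases i <;> simp [lift]

/-- the action of a tuple on a point -/
def actFun (g : Fin 4 → T) (x : T × T × T) : T × T × T := proj (g * lift x)

theorem actFun_proj (g h : Fin 4 → T) : actFun g (proj h) = proj (g * h) := by
  rw [actFun, lift_proj, ← mul_assoc, proj_mul]

theorem actFun_one (x : T × T × T) : actFun 1 x = x := by
  rw [actFun, one_mul, proj_lift]

theorem actFun_mul (g h : Fin 4 → T) (x : T × T × T) :
    actFun (g * h) x = actFun g (actFun h x) := by
  rw [actFun, actFun.eq_1 h, actFun_proj, mul_assoc]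

/-- the action as a homomorphism -/
def act : (Fin 4 → T) →* Perm (T × T × T) where
  toFun g := ⟨actFun g, actFun g⁻¹, fun x => by rw [← actFun_mul, inv_mul_cancel, actFun_one],
    fun x => by rw [← actFun_mul, mul_inv_cancel, actFun_one]⟩
  map_one' := by
    ext1 x
    exact actFun_one x
  map_mul' g h := by
    ext1 x
    exact actFun_mul g h x

theorem act_proj (g h : Fin 4 → T) : act g (proj h) = proj (g * h) := actFun_proj g h

theorem act_apply (g : Fin 4 → T) (x : T × T × T) : act g x = proj (g * lift x) := rfl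

theorem act_one' (g : Fin 4 → T) : act g 1 = proj g := by
  rw [← proj_one, act_proj, mul_one]

theorem act_lift (x y : T × T × T) : act (lift x) y = x * y := by
  obtain ⟨a, b, c⟩ := x
  obtain ⟨u, v, w⟩ := y
  rw [act_apply]
  simp [proj, lift]

/-- the group G -/
def GG (T : Type) [Group T] : Subgroup (Perm (T × T × T)) :=
  Subgroup.normalizer ((act (T := T)).range : Set (Perm (T × T × T)))

theorem act_mem (g : Fin 4 → T) : act g ∈ GG T :=
  Subgroup.le_normalizer ⟨g, rfl⟩

/-- a permutation which permutes the tuples lies in G -/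
theorem mem_of (p : Perm (T × T × T)) (e : (Fin 4 → T) → (Fin 4 → T))
    (he : Function.Surjective e) (h : ∀ g, p * act g = act (e g) * p) : p ∈ GG T := by
  rw [GG, Subgroup.mem_normalizer_iff]
  intro q
  constructor
  · rintro ⟨g, rfl⟩
    refine ⟨e g, ?_⟩
    rw [h, mul_inv_cancel_right]
  · rintro ⟨g', hg'⟩
    obtain ⟨g, rfl⟩ := he g'
    refine ⟨g, ?_⟩
    have h2 : p * act g = p * q := by
      rw [h, hg', inv_mul_cancel_right]
    exact mul_left_cancel h2

/-- the permutation of the points given by an automorphism of T^4 preserving the diagonal -/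
def permOf (e : (Fin 4 → T) ≃* (Fin 4 → T)) (h1 : ∀ d : T, ∃ d', e (fun _ => d) = fun _ => d')
    (h2 : ∀ d : T, ∃ d', e.symm (fun _ => d) = fun _ => d') : Perm (T × T × T) where
  toFun x := proj (e (lift x))
  invFun x := proj (e.symm (lift x))
  left_inv x := by
    simp only
    obtain ⟨d', hd'⟩ := h2 (e (lift x) 3)⁻¹
    rw [lift_proj, map_mul, hd', proj_mul, MulEquiv.symm_apply_apply, proj_lift]
  right_inv x := by
    simp only
    obtain ⟨d', hd'⟩ := h1 (e.symm (lift x) 3)⁻¹
    rw [lift_proj, map_mul, hd', proj_mul, MulEquiv.apply_symm_apply, proj_lift]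

theorem permOf_proj (e : (Fin 4 → T) ≃* (Fin 4 → T))
    (h1 : ∀ d : T, ∃ d', e (fun _ => d) = fun _ => d')
    (h2 : ∀ d : T, ∃ d', e.symm (fun _ => d) = fun _ => d') (g : Fin 4 → T) :
    permOf e h1 h2 (proj g) = proj (e g) := by
  obtain ⟨d', hd'⟩ := h1 (g 3)⁻¹
  change proj (e (lift (proj g))) = proj (e g)
  rw [lift_proj, map_mul, hd', proj_mul]

theorem permOf_one (e : (Fin 4 → T) ≃* (Fin 4 → T))
    (h1 : ∀ d : T, ∃ d', e (fun _ => d) = fun _ => d')
    (h2 : ∀ d : T, ∃ d', e.symm (fun _ => d) = fun _ => d') :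
    permOf e h1 h2 1 = 1 := by
  rw [← proj_one, permOf_proj, map_one]

theorem permOf_act (e : (Fin 4 → T) ≃* (Fin 4 → T))
    (h1 : ∀ d : T, ∃ d', e (fun _ => d) = fun _ => d')
    (h2 : ∀ d : T, ∃ d', e.symm (fun _ => d) = fun _ => d') (g : Fin 4 → T) :
    permOf e h1 h2 * act g = act (e g) * permOf e h1 h2 := by
  ext1 x
  rw [Perm.mul_apply, Perm.mul_apply, ← proj_lift x, act_proj, permOf_proj, permOf_proj,
    act_proj, map_mul]

theorem permOf_mem (e : (Fin 4 → T) ≃* (Fin 4 → T))
    (h1 : ∀ d : T, ∃ d', e (fun _ => d) = fun _ => d')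
    (h2 : ∀ d : T, ∃ d', e.symm (fun _ => d) = fun _ => d') :
    permOf e h1 h2 ∈ GG T :=
  mem_of _ e e.surjective (permOf_act e h1 h2)

/-- permuting the coordinates -/
def shuffle (σ : Perm (Fin 4)) : (Fin 4 → T) ≃* (Fin 4 → T) where
  toFun g := g ∘ σ
  invFun g := g ∘ σ.symm
  left_inv g := by
    funext i
    simp
  right_inv g := by
    funext i
    simp
  map_mul' g h := rfl

/-- applying an automorphism to all the coordinates -/
def comp (α : T ≃* T) : (Fin 4 → T) ≃* (Fin 4 → T) where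
  toFun g := fun i => α (g i)
  invFun g := fun i => α.symm (g i)
  left_inv g := by
    funext i
    simp
  right_inv g := by
    funext i
    simp
  map_mul' g h := by
    funext i
    simp

/-- the permutation of the points given by a permutation of the coordinates -/
def pS (σ : Perm (Fin 4)) : Perm (T × T × T) :=
  permOf (shuffle σ) (fun d => ⟨d, rfl⟩) (fun d => ⟨d, rfl⟩)

/-- the permutation of the points given by an automorphism of T -/
def pC (α : T ≃* T) : Perm (T × T × T) :=
  permOf (comp α) (fun d => ⟨α d, rfl⟩) (fun d => ⟨α.symm d, rfl⟩)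

theorem pS_mem (σ : Perm (Fin 4)) : (pS σ : Perm (T × T × T)) ∈ GG T := permOf_mem _ _ _

theorem pC_mem (α : T ≃* T) : (pC α : Perm (T × T × T)) ∈ GG T := permOf_mem _ _ _

theorem pC_apply (α : T ≃* T) (a b c : T) : pC α (a, b, c) = (α a, α b, α c) := by
  have h := permOf_proj (comp α) (fun d => ⟨α d, rfl⟩) (fun d => ⟨α.symm d, rfl⟩)
    (lift (a, b, c))
  rw [proj_lift] at h
  change pC α (a, b, c) = _ at h
  rw [h]
  simp [proj, lift, comp]

theorem pS_apply (σ : Perm (Fin 4)) (x : T × T × T) : pS σ x = proj (lift x ∘ σ) := by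
  have h := permOf_proj (T := T) (shuffle σ) (fun d => ⟨d, rfl⟩) (fun d => ⟨d, rfl⟩)
    (lift x)
  rw [proj_lift] at h
  exact h

theorem sw01_apply (a b c : T) : pS (swap 0 1) (a, b, c) = (b, a, c) := by
  rw [pS_apply]
  have h3 : (swap (0 : Fin 4) 1) 3 = 3 := by decide
  have h2 : (swap (0 : Fin 4) 1) 2 = 2 := by decide
  simp [proj, lift, h3, h2]

theorem sw12_apply (a b c : T) : pS (swap 1 2) (a, b, c) = (a, c, b) := by
  rw [pS_apply]
  have h3 : (swap (1 : Fin 4) 2) 3 = 3 := by decide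
  have h2 : (swap (1 : Fin 4) 2) 0 = 0 := by decide
  simp [proj, lift, h3, h2]

theorem tw_apply (a b c : T) : pS (swap 0 3) (a, b, c) = (a⁻¹, b * a⁻¹, c * a⁻¹) := by
  rw [pS_apply]
  have h3 : (swap (0 : Fin 4) 3) 1 = 1 := by decide
  have h2 : (swap (0 : Fin 4) 3) 2 = 2 := by decide
  simp [proj, lift, h3, h2]

/-! ### Scott's lemma for this case -/

variable [IsSimpleGroup T]

/-- the projection of the elements which are trivial on J -/
def PJ (H : Subgroup (Fin 4 → T)) (i : Fin 4) (J : Finset (Fin 4)) : Subgroup T where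
  carrier := {a | ∃ g ∈ H, g i = a ∧ ∀ j ∈ J, g j = 1}
  mul_mem' := by
    rintro a b ⟨g, hg, rfl, hg1⟩ ⟨h, hh, rfl, hh1⟩
    exact ⟨g * h, H.mul_mem hg hh, rfl, fun j hj => by
      rw [Pi.mul_apply, hg1 j hj, hh1 j hj, one_mul]⟩
  one_mem' := ⟨1, H.one_mem, rfl, fun _ _ => rfl⟩
  inv_mem' := by
    rintro a ⟨g, hg, rfl, hg1⟩
    exact ⟨g⁻¹, H.inv_mem hg, rfl, fun j hj => by rw [Pi.inv_apply, hg1 j hj, inv_one]⟩

theorem PJ_top (H : Subgroup (Fin 4 → T)) (hc : ∀ d : T, (fun _ => d) ∈ H) (i : Fin 4)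
    (J : Finset (Fin 4)) (g : Fin 4 → T) (hg : g ∈ H) (hi : g i ≠ 1) (hJ : ∀ j ∈ J, g j = 1) :
    PJ H i J = ⊤ := by
  have hn : (PJ H i J).Normal := by
    refine ⟨?_⟩
    rintro a ⟨k, hk, rfl, hk1⟩ d
    refine ⟨(fun _ => d) * k * (fun _ => d)⁻¹, H.mul_mem (H.mul_mem (hc d) hk)
      (H.inv_mem (hc d)), rfl, ?_⟩
    intro j hj
    simp [hk1 j hj]
  rcases hn.eq_bot_or_eq_top with h | h
  · exfalso
    have h1 : g i ∈ PJ H i J := ⟨g, hg, rfl, hJ⟩
    rw [h, Subgroup.mem_bot] at h1
    exact hi h1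
  · exact h

theorem scott (hna : ∃ a b : T, a * b ≠ b * a) (H : Subgroup (Fin 4 → T))
    (hc : ∀ d : T, (fun _ => d) ∈ H) (hs : ∀ σ : Perm (Fin 4), ∀ g ∈ H, g ∘ σ ∈ H)
    (hne : ∃ g ∈ H, ∃ i j, g i ≠ g j) : H = ⊤ := by
  obtain ⟨g0, hg0, i0, j0, hij0⟩ := hne
  have hij0' : i0 ≠ j0 := by
    rintro rfl
    exact hij0 rfl
  -- one coordinate
  have h1 : ∀ i j : Fin 4, i ≠ j → PJ H i {j} = ⊤ := by
    intro i j hij
    obtain ⟨σ, hσi, hσj⟩ : ∃ σ : Perm (Fin 4), σ i = i0 ∧ σ j = j0 := by
      refine ⟨swap (swap i i0 j) j0 * swap i i0, ?_, ?_⟩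
      · rw [Perm.mul_apply, swap_apply_left]
        refine swap_apply_of_ne_of_ne ?_ hij0'
        intro h
        have : swap i i0 i = swap i i0 j := by rw [swap_apply_left]; exact h
        exact hij ((swap i i0).injective this)
      · rw [Perm.mul_apply, swap_apply_left]
    refine PJ_top H hc i {j} ((g0 ∘ σ) * (fun _ => (g0 j0)⁻¹))
      (H.mul_mem (hs σ g0 hg0) (hc _)) ?_ ?_
    · rw [Pi.mul_apply, Function.comp_apply, hσi]
      intro h
      exact hij0 (mul_inv_eq_one.1 h)
    · intro k hk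
      rw [Finset.mem_singleton] at hk
      subst hk
      rw [Pi.mul_apply, Function.comp_apply, hσj, mul_inv_cancel]
  obtain ⟨a, b, hab⟩ := hna
  -- union
  have h2 : ∀ (i : Fin 4) (J J' : Finset (Fin 4)), PJ H i J = ⊤ → PJ H i J' = ⊤ →
      PJ H i (J ∪ J') = ⊤ := by
    intro i J J' hJ hJ'
    obtain ⟨g, hg, hgi, hgJ⟩ : a ∈ PJ H i J := by rw [hJ]; exact Subgroup.mem_top a
    obtain ⟨k, hk, hki, hkJ⟩ : b ∈ PJ H i J' := by rw [hJ']; exact Subgroup.mem_top b
    refine PJ_top H hc i _ (g * k * g⁻¹ * k⁻¹)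
      (H.mul_mem (H.mul_mem (H.mul_mem hg hk) (H.inv_mem hg)) (H.inv_mem hk)) ?_ ?_
    · simp only [Pi.mul_apply, Pi.inv_apply]
      rw [hgi, hki]
      intro h
      apply hab
      have h' := mul_inv_eq_one.1 h
      rw [mul_inv_eq_iff_eq_mul] at h'
      exact h'
    · intro j hj
      simp only [Pi.mul_apply, Pi.inv_apply]
      rcases Finset.mem_union.1 hj with h | h
      · rw [hgJ j h]; simp
      · rw [hkJ j h]; simp
  have h3 : ∀ (i : Fin 4) (J : Finset (Fin 4)), i ∉ J → PJ H i J = ⊤ := by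
    intro i J
    induction J using Finset.induction_on with
    | empty =>
      intro _
      rw [eq_top_iff]
      intro d _
      exact ⟨fun _ => d, hc d, rfl, by simp⟩
    | insert j J hj ih =>
      intro hi
      rw [Finset.insert_eq]
      rw [Finset.mem_insert, not_or] at hi
      exact h2 i _ _ (h1 i j hi.1) (ih hi.2)
  have h4 : ∀ (i : Fin 4) (d : T), Pi.mulSingle i d ∈ H := by
    intro i d
    obtain ⟨g, hg, hgi, hgJ⟩ : d ∈ PJ H i (Finset.univ.erase i) := by
      rw [h3 i _ (by simp)]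
      exact Subgroup.mem_top d
    have : Pi.mulSingle i d = g := by
      funext j
      by_cases hj : j = i
      · subst hj
        rw [Pi.mulSingle_eq_same, hgi]
      · rw [Pi.mulSingle_eq_of_ne hj, hgJ j (by simp [hj])]
    rw [this]
    exact hg
  rw [eq_top_iff]
  intro g _
  have : g = Pi.mulSingle 0 (g 0) * Pi.mulSingle 1 (g 1) * Pi.mulSingle 2 (g 2) *
      Pi.mulSingle 3 (g 3) := by
    funext i
    fin_cases i <;> simp
  rw [this]
  exact H.mul_mem (H.mul_mem (H.mul_mem (h4 0 _) (h4 1 _)) (h4 2 _)) (h4 3 _)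

open Pointwise in
theorem primitive (hna : ∃ a b : T, a * b ≠ b * a) :
    MulAction.IsPreprimitive (GG T) (T × T × T) := by
  have : MulAction.IsPretransitive (GG T) (T × T × T) := by
    refine ⟨fun x y => ⟨⟨act (lift (y * x⁻¹)), act_mem _⟩, ?_⟩⟩
    change act (lift (y * x⁻¹)) x = y
    rw [act_lift, inv_mul_cancel_right]
  refine MulAction.IsPreprimitive.of_isTrivialBlock_base (1 : T × T × T) ?_
  intro B h1 hB
  -- block property
  have key : ∀ p : Perm (T × T × T), p ∈ GG T → ∀ x ∈ B, p x ∈ B → ∀ y ∈ B, p y ∈ B := by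
    intro p hp x hx hpx y hy
    have h2 := hB.smul_eq_smul_of_nonempty (g₁ := ⟨p, hp⟩) (g₂ := 1)
      ⟨p x, ⟨x, hx, rfl⟩, by rw [one_smul]; exact hpx⟩
    rw [one_smul] at h2
    rw [← h2]
    exact ⟨y, hy, rfl⟩
  have keyinv : ∀ p : Perm (T × T × T), p ∈ GG T → ∀ x ∈ B, p x ∈ B → ∀ y ∈ B, p⁻¹ y ∈ B := by
    intro p hp x hx hpx y hy
    refine key p⁻¹ ((GG T).inv_mem hp) (p x) hpx ?_ y hy
    rw [← Perm.mul_apply, inv_mul_cancel]
    exact hx
  let H : Subgroup (Fin 4 → T) :=
    { carrier := {g | act g 1 ∈ B}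
      mul_mem' := by
        intro g h hg hh
        change act (g * h) 1 ∈ B
        rw [map_mul, Perm.mul_apply]
        exact key (act g) (act_mem g) 1 h1 hg _ hh
      one_mem' := by
        change act 1 1 ∈ B
        rw [map_one act]
        exact h1
      inv_mem' := by
        intro g hg
        change act g⁻¹ 1 ∈ B
        rw [map_inv]
        exact keyinv (act g) (act_mem g) 1 h1 hg 1 h1 }
  have hH : ∀ g, g ∈ H ↔ act g 1 ∈ B := fun g => Iff.rfl
  have hc : ∀ d : T, (fun _ => d) ∈ H := by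
    intro d
    rw [hH, act_one']
    have : proj (fun _ : Fin 4 => d) = 1 := by simp [proj, Prod.ext_iff]
    rw [this]
    exact h1
  have hs : ∀ σ : Perm (Fin 4), ∀ g ∈ H, g ∘ σ ∈ H := by
    intro σ g hg
    rw [hH, act_one'] at hg ⊢
    have h2 : proj (g ∘ σ) = pS σ (proj g) := by
      rw [pS, permOf_proj]
      rfl
    rw [h2]
    refine key (pS σ) (pS_mem σ) 1 h1 ?_ _ hg
    rw [pS, permOf_one]
    exact h1
  by_cases hne : ∃ g ∈ H, ∃ i j, g i ≠ g j
  · right
    have htop := scott hna H hc hs hne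
    rw [Set.eq_univ_iff_forall]
    intro x
    have : lift x ∈ H := by rw [htop]; exact Subgroup.mem_top _
    rw [hH, act_one', proj_lift] at this
    exact this
  · left
    push Not at hne
    have h5 : ∀ x ∈ B, x = 1 := by
      intro x hx
      have h6 : lift x ∈ H := by
        rw [hH, act_one', proj_lift]
        exact hx
      have h7 := hne _ h6
      rw [← proj_lift x]
      have h8 : lift x = fun _ => lift x 3 := by
        funext i
        exact h7 i 3
      rw [h8]
      simp [proj, Prod.ext_iff]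
    intro x hx y hy
    rw [h5 x hx, h5 y hy]

theorem act_inj (hna : ∃ a b : T, a * b ≠ b * a) : Function.Injective (act (T := T)) := by
  rw [injective_iff_map_eq_one]
  intro g hg
  have h1 : ∀ x, act g x = x := by
    intro x
    rw [hg]
    rfl
  have h2 := h1 1
  rw [act_one'] at h2
  have h3 : ∀ i, g i = g 3 := by
    simp only [proj, Prod.ext_iff, Prod.fst_one, Prod.snd_one, mul_inv_eq_one] at h2
    intro i
    fin_cases i
    · exact h2.1
    · exact h2.2.1
    · exact h2.2.2
    · rfl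
  have h4 : ∀ x : T, g 3 * x = x * g 3 := by
    intro x
    have h5 := h1 (x, 1, 1)
    rw [act_apply] at h5
    have h6 := congrArg Prod.fst h5
    simp only [proj, lift, Pi.mul_apply, Matrix.cons_val_zero] at h6
    rw [h3 0] at h6
    have h7 : (![x, 1, 1, 1] : Fin 4 → T) 3 = 1 := rfl
    rw [h7, mul_one, mul_inv_eq_iff_eq_mul] at h6
    exact h6
  have h5 : g 3 ∈ Subgroup.center T := Subgroup.mem_center_iff.2 fun x => (h4 x).symm
  have h6 : Subgroup.center T = ⊥ := by
    rcases (inferInstance : (Subgroup.center T).Normal).eq_bot_or_eq_top with h | h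
    · exact h
    · exfalso
      obtain ⟨a, b, hab⟩ := hna
      have : b ∈ Subgroup.center T := by rw [h]; exact Subgroup.mem_top b
      exact hab (Subgroup.mem_center_iff.1 this a)
  rw [h6, Subgroup.mem_bot] at h5
  funext i
  rw [h3 i, h5]
  rfl

/-- the stabilizer of the base point in N is isomorphic to T -/
theorem stab (hna : ∃ a b : T, a * b ≠ b * a) :
    Nonempty ((MulAction.stabilizer (Perm (T × T × T)) (1 : T × T × T) ⊓ (act (T := T)).range :
      Subgroup (Perm (T × T × T))) ≃* T) := by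
  let F : T →* (MulAction.stabilizer (Perm (T × T × T)) (1 : T × T × T) ⊓ (act (T := T)).range :
      Subgroup (Perm (T × T × T))) :=
    { toFun := fun d => ⟨act (fun _ => d), by
        refine ⟨?_, ⟨_, rfl⟩⟩
        change act (fun _ => d) 1 = 1
        rw [act_one']
        simp [proj, Prod.ext_iff]⟩
      map_one' := by
        apply Subtype.ext
        exact map_one act
      map_mul' := by
        intro d d'
        apply Subtype.ext
        exact map_mul act (fun _ => d) (fun _ => d') }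
  have hF : Function.Bijective F := by
    constructor
    · intro d d' h
      have h1 : act (fun _ => d) = act (fun _ : Fin 4 => d') := congrArg Subtype.val h
      have h2 := act_inj hna h1
      exact congrFun h2 0
    · rintro ⟨p, hp1, g, rfl⟩
      refine ⟨g 3, ?_⟩
      apply Subtype.ext
      change act (fun _ => g 3) = act g
      have h2 : act g 1 = 1 := hp1
      rw [act_one'] at h2
      simp only [proj, Prod.ext_iff, Prod.fst_one, Prod.snd_one, mul_inv_eq_one] at h2
      congr 1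
      funext i
      fin_cases i
      · exact h2.1.symm
      · exact h2.2.1.symm
      · exact h2.2.2.symm
      · rfl
  exact ⟨(MulEquiv.ofBijective F hF).symm⟩

end Gen

/-- an invariant scheme gives a colouring -/
theorem col (c : Gam → Gam → ℕ) (h0 : ∀ x y, c x y = 0 ↔ x = y) (hsym : ∀ x y, c x y = c y x)
    (hcoh : ∀ (i j : ℕ) (x y x' y' : Gam), c x y = c x' y' →
        Set.ncard {z : Gam | c x z = i ∧ c z y = j} =
          Set.ncard {z : Gam | c x' z = i ∧ c z y' = j})
    (hinv : ∀ g ∈ GG A, ∀ x y, c (g x) (g y) = c x y) :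
    Col (fun x => c 1 x) ∧ ∀ x y, c x y = c 1 (x⁻¹ * y) := by
  have hl : ∀ x y z, c (x * y) (x * z) = c y z := by
    intro x y z
    have h := hinv (act (lift x)) (act_mem _) y z
    rw [act_lift, act_lift] at h
    exact h
  have hl' : ∀ x y, c x y = c 1 (x⁻¹ * y) := by
    intro x y
    rw [← hl x 1 (x⁻¹ * y), mul_one, mul_inv_cancel_left]
  have hstab : ∀ p ∈ GG A, p 1 = 1 → ∀ x, c 1 (p x) = c 1 x := by
    intro p hp hp1 x
    have h := hinv p hp 1 x
    rw [hp1] at h
    exact h
  have hS : ∀ σ : Perm (Fin 4), ∀ x : Gam, c 1 (pS σ x) = c 1 x := fun σ x =>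
    hstab (pS σ) (pS_mem σ) (permOf_one _ _ _) x
  refine ⟨⟨?_, ?_, ?_, ?_, ?_, ?_, ?_⟩, hl'⟩
  · intro x
    rw [h0]
    exact eq_comm
  · intro x
    show c 1 x⁻¹ = c 1 x
    rw [← mul_one x⁻¹, ← hl', hsym]
  · intro a b d
    show c 1 (b, a, d) = c 1 (a, b, d)
    rw [← hS (swap 0 1) (a, b, d), sw01_apply]
  · intro a b d
    show c 1 (a, d, b) = c 1 (a, b, d)
    rw [← hS (swap 1 2) (a, b, d), sw12_apply]
  · intro a b d
    show c 1 (a⁻¹, b * a⁻¹, d * a⁻¹) = c 1 (a, b, d)
    rw [← hS (swap 0 3) (a, b, d), tw_apply]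
  · intro σ a b d
    show c 1 (cjA σ a, cjA σ b, cjA σ d) = c 1 (a, b, d)
    rw [← hstab (pC (MulAut.conjNormal σ)) (pC_mem _) (permOf_one _ _ _) (a, b, d), pC_apply]
    rfl
  · intro i j x y hxy
    have h := hcoh i j 1 x 1 y hxy
    have h2 : ∀ w : Gam, {z : Gam | c 1 z = i ∧ c 1 (z⁻¹ * w) = j} =
        {z : Gam | c 1 z = i ∧ c z w = j} := by
      intro w
      ext z
      rw [Set.mem_ofPred_eq, Set.mem_ofPred_eq, ← hl' z w]
    show Set.ncard {z : Gam | c 1 z = i ∧ c 1 (z⁻¹ * x) = j} =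
      Set.ncard {z : Gam | c 1 z = i ∧ c 1 (z⁻¹ * y) = j}
    rw [h2, h2]
    exact h

theorem hnaA : ∃ a b : A, a * b ≠ b * a := ⟨v1, c3, by decide⟩

end Grp

open Grp in
/-- module GRP -/
theorem specGrp : SpecGrp := by
  intro hM
  refine ⟨Gam, inferInstance, GG A, primitive hnaA, ?_, ?_⟩
  · refine ⟨A, inferInstance, inferInstance, inferInstance, ?_, 4, by norm_num,
      (act (T := A)).range, Subgroup.le_normalizer, ?_, ?_, ?_⟩
    · obtain ⟨a, b, hab⟩ := hnaA
      exact fun h => hab (h a b)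
    · intro g hg n hn
      rw [GG, Subgroup.mem_normalizer_iff] at hg
      exact (hg n).1 hn
    · exact ⟨(MonoidHom.ofInjective (act_inj hnaA)).symm⟩
    · exact ⟨1, stab hnaA⟩
  · intro c h0 hsym hcoh hinv x y x' y' hxy hxy'
    obtain ⟨hcol, hl⟩ := col c h0 hsym hcoh hinv
    rw [hl x y, hl x' y']
    refine hM _ hcol _ _ ?_ ?_
    · intro h
      exact hxy (inv_mul_eq_one.1 h)
    · intro h
      exact hxy' (inv_mul_eq_one.1 h)

end MP26f323
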