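import Pool.Agent.Lib.MP_26f323_al.Spec

/-!
MP_26f323_al: module KVEC (the distribution vector of a colour).
-/

set_option autoImplicit false
set_option linter.constructorNameAsVariable false

namespace MP26f323

open Equiv

namespace KVecAux

/-- the distribution function -/
def K (f : Gam → ℕ) (s : ℕ) (b c : A) : ℕ :=
  (Finset.univ.filter (fun a : A => f (a, b, c) = s)).card

theorem sw02 (f : Gam → ℕ) (hf : Col f) (a b c : A) : f (c, b, a) = f (a, b, c) := by
  rw [← hf.sw01 c b a, ← hf.sw12 b c a, ← hf.sw01 b a c]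

theorem rot (f : Gam → ℕ) (hf : Col f) (a b c : A) :
    f (a * c⁻¹, b * c⁻¹, c⁻¹) = f (a, b, c) := by
  rw [sw02 f hf, ← sw02 f hf a b c]
  exact hf.tw c b a

theorem K_symm (f : Gam → ℕ) (s : ℕ) (hf : Col f) (b c : A) : K f s c b = K f s b c := by
  unfold K
  congr 1
  ext a
  simp only [Finset.mem_filter, Finset.mem_univ, true_and]
  rw [hf.sw12]

theorem K_rot (f : Gam → ℕ) (s : ℕ) (hf : Col f) (b c : A) :
    K f s (b * c⁻¹) c⁻¹ = K f s b c := by
  unfold K
  symm
  refine Finset.card_bij (fun a _ => a * c⁻¹) ?_ ?_ ?_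
  · intro a ha
    simp only [Finset.mem_filter, Finset.mem_univ, true_and] at ha ⊢
    rw [rot f hf]; exact ha
  · intro a _ a' _ h
    exact mul_right_cancel h
  · intro a ha
    simp only [Finset.mem_filter, Finset.mem_univ, true_and] at ha
    refine ⟨a * c, ?_, ?_⟩
    · simp only [Finset.mem_filter, Finset.mem_univ, true_and]
      rw [← rot f hf]
      simpa using ha
    · simp

theorem K_conj (f : Gam → ℕ) (s : ℕ) (hf : Col f) (σ : Perm (Fin 5)) (b c : A) :
    K f s (cjA σ b) (cjA σ c) = K f s b c := by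
  unfold K
  symm
  refine Finset.card_bij (fun a _ => cjA σ a) ?_ ?_ ?_
  · intro a ha
    simp only [Finset.mem_filter, Finset.mem_univ, true_and] at ha ⊢
    rw [hf.cj]; exact ha
  · intro a _ a' _ h
    exact (MulAut.conjNormal σ : MulAut A).injective h
  · intro a ha
    simp only [Finset.mem_filter, Finset.mem_univ, true_and] at ha
    obtain ⟨a', ha'⟩ := (MulAut.conjNormal σ : MulAut A).surjective a
    have h2 : cjA σ a' = a := ha'
    refine ⟨a', ?_, h2⟩
    simp only [Finset.mem_filter, Finset.mem_univ, true_and]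
    rw [← hf.cj σ, h2]; exact ha

theorem card_A : Fintype.card A = 60 := by
  have h2 := two_mul_card_alternatingGroup (α := Fin 5)
  have h3 : Fintype.card (Perm (Fin 5)) = 120 := by
    rw [Fintype.card_perm]; decide
  have h4 : 2 * Fintype.card A = 120 := by
    rw [← h3, ← h2]
  omega

theorem sum_types (typ : A → A → Fin 17) (h : A × A → ℚ) (κ : Fin 17 → ℕ) :
    ∑ p : A × A, (κ (typ p.1 p.2) : ℚ) * h p =
      ∑ t, (κ t : ℚ) * ∑ p ∈ (Finset.univ : Finset (A × A)).filter
        (fun p => typ p.1 p.2 = t), h p := by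
  rw [← Finset.sum_fiberwise (Finset.univ : Finset (A × A)) (fun p => typ p.1 p.2)]
  refine Finset.sum_congr rfl fun t _ => ?_
  rw [Finset.mul_sum]
  refine Finset.sum_congr rfl fun p hp => ?_
  simp only [Finset.mem_filter, Finset.mem_univ, true_and] at hp
  rw [hp]

theorem B_le : ∀ i t : Fin 17, B i t ≤ B 0 t := by decide +kernel

theorem B_lt : ∀ i t : Fin 17, i ≠ 0 → (t = 1 ∨ t = 2 ∨ t = 3) → B i t < B 0 t := by
  decide +kernel

theorem nOf_eq (f : Gam → ℕ) (s : ℕ) :
    nOf f s = ∑ p : A × A, K f s p.1 p.2 := by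
  unfold nOf K
  simp only [Finset.card_filter]
  rw [Fintype.sum_prod_type_right]

theorem c3_ne : c3 ≠ 1 := by decide

end KVecAux

open KVecAux in
/-- module KVEC -/
theorem specKVec : SpecKVec := by
  intro typ hz f s hf
  obtain ⟨κ, hκ⟩ := hz.inv (K f s) (K_symm f s hf) (K_rot f s hf) (K_conj f s hf)
  refine ⟨κ, hκ, ?_, ?_⟩
  · have h1 : (nOf f s : ℤ) = ∑ p : A × A, (κ (typ p.1 p.2) : ℤ) := by
      rw [nOf_eq]
      push_cast
      exact Finset.sum_congr rfl fun p _ => by rw [hκ]
    rw [h1, ← Finset.sum_fiberwise (Finset.univ : Finset (A × A)) (fun p => typ p.1 p.2)]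
    unfold th
    refine Finset.sum_congr rfl fun t _ => ?_
    rw [← hz.card t]
    have h2 : ∀ p ∈ (Finset.univ : Finset (A × A)).filter (fun p => typ p.1 p.2 = t),
        (κ (typ p.1 p.2) : ℤ) = (κ t : ℤ) := by
      intro p hp
      simp only [Finset.mem_filter, Finset.mem_univ, true_and] at hp
      rw [hp]
    rw [Finset.sum_congr rfl h2, Finset.sum_const, nsmul_eq_mul]
  · intro s' hl
    have hs0 : s ≠ 0 := by
      intro h0
      have h2 := hl.one c3 c3_ne
      rw [h0, hf.zero] at h2
      exact c3_ne (by simpa using congrArg Prod.fst h2)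
    constructor
    · have h1 : typ 1 1 = 0 := (hz.zero 1 1).2 ⟨rfl, rfl⟩
      rw [← h1, ← hκ 1 1]
      unfold K
      have h2 : Finset.univ.filter (fun a : A => f (a, 1, 1) = s) =
          (Finset.univ : Finset A).erase 1 := by
        ext a
        simp only [Finset.mem_filter, Finset.mem_univ, true_and, Finset.mem_erase, and_true]
        constructor
        · rintro h rfl
          exact hs0 (by rw [← h]; exact (hf.zero _).2 rfl)
        · intro h
          exact hl.one a h
      rw [h2, Finset.card_erase_of_mem (Finset.mem_univ _), Finset.card_univ, card_A]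
    · intro i hi
      unfold th
      refine Finset.sum_lt_sum (fun t _ => ?_) ?_
      · exact mul_le_mul_of_nonneg_right (B_le i t) (by positivity)
      · refine ⟨typ c3 1, Finset.mem_univ _, ?_⟩
        have hpos : 0 < κ (typ c3 1) := by
          rw [← hκ c3 1]
          unfold K
          rw [Finset.card_pos]
          refine ⟨1, ?_⟩
          simp only [Finset.mem_filter, Finset.mem_univ, true_and]
          rw [hf.sw01]
          exact hl.one c3 c3_ne
        have h1 := hz.one c3 c3_ne
        have hpos' : (0 : ℤ) < (κ (typ c3 1) : ℤ) := by exact_mod_cast hpos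
        exact mul_lt_mul_of_pos_right (B_lt i _ hi h1) hpos'

end MP26f323
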