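import Pool.Agent.Lib.MP_26f323_al.Spec2
import Pool.Agent.Lib.MP_26f323_al.ZonA
import Pool.Agent.Lib.MP_26f323_al.Zon

/-!
MP_26f323_al, module L2L: from the outcome of the congruence certificate to the structure Loc.
-/

set_option autoImplicit false

namespace MP26f323
namespace L2L

open Equiv ZonM ClsM Finset

/-- characteristic bits of S0 -/
def maskS : ℕ := 2 ^ 1 + 2 ^ 2 + 2 ^ 3 + 2 ^ 4 + 2 ^ 5 + 2 ^ 7 + 2 ^ 8 + 2 ^ 16 + 2 ^ 17 + 2 ^ 18 +
  2 ^ 19 + 2 ^ 23 + 2 ^ 24 + 2 ^ 25 + 2 ^ 26 + 2 ^ 28 + 2 ^ 29 + 2 ^ 67 + 2 ^ 77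

/-- membership in S0 by bits -/
def inS (k : ℕ) : Bool := Nat.beq (lk 1 maskS k) 1

theorem inS_chk : ∀ k : Fin 111, inS k = true ↔ (k : ℕ) ∈ S0 := by
  decide +kernel

theorem inS_mem {k : ℕ} (hk : k < 111) (h : inS k = true) : k ∈ S0 := (inS_chk ⟨k, hk⟩).1 h

theorem cls_eq (a b c : A) : cls (a, b, c) = clsI (ix a) (ix b) (ix c) := rfl

theorem ix_conj (b w : A) : ix (w⁻¹ * b * w) = mu (mu (iv (ix w)) (ix b)) (ix w) := by
  rw [ix_mul, ix_mul, ix_inv]

/-- class number of (a, w^-1 b w, 1) -/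
def gI (p q w : ℕ) : ℕ := clsI p (mu (mu (iv w) q) w) 0

theorem f_conj {f : Gam → ℕ} (hf : Col f) (a b x y : A) :
    f (x⁻¹ * a * x, y⁻¹ * b * y, 1) = f (a, (y * x⁻¹)⁻¹ * b * (y * x⁻¹), 1) := by
  have h := hf.cj (x : Perm (Fin 5)) (x⁻¹ * a * x) (y⁻¹ * b * y) 1
  rw [cj_conj, cj_conj, cj_conj] at h
  rw [← h]
  have h1 : x * (x⁻¹ * a * x) * x⁻¹ = a := by group
  have h2 : x * (y⁻¹ * b * y) * x⁻¹ = (y * x⁻¹)⁻¹ * b * (y * x⁻¹) := by group
  have h3 : x * 1 * x⁻¹ = 1 := by group
  rw [h1, h2, h3]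

theorem cls_gI (a b w : A) : cls (a, w⁻¹ * b * w, 1) = gI (ix a) (ix b) (ix w) := by
  rw [cls_eq, ix_conj, ix_one]
  rfl

theorem ix_v1 : ix v1 = 13 := by decide +kernel
theorem ix_v2 : ix v2 = 30 := by decide +kernel
theorem ix_v12 : ix (v1 * v2) = 43 := by decide +kernel
theorem ix_c3 : ix c3 = 15 := by decide +kernel
theorem ix_c3i : ix c3⁻¹ = 24 := by decide +kernel
theorem ix_c5 : ix c5 = 16 := by decide +kernel
theorem ix_c5_1 : ix (c5 ^ 1) = 16 := by decide +kernel
theorem ix_c5_2 : ix (c5 ^ 2) = 32 := by decide +kernel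
theorem ix_c5_3 : ix (c5 ^ 3) = 45 := by decide +kernel
theorem ix_c5_4 : ix (c5 ^ 4) = 48 := by decide +kernel

/-- indices of the four-group -/
def vI (k : ℕ) : ℕ := lk 6 (13 * 64 + 30 * 64 ^ 2 + 43 * 64 ^ 3) k

theorem v4_ix : ∀ a ∈ V4, ∃ k < 4, ix a = vI k ∧ (a ≠ 1 → 0 < k) := by
  intro a ha
  have h0 : vI 0 = 0 := by decide +kernel
  have h1 : vI 1 = 13 := by decide +kernel
  have h2 : vI 2 = 30 := by decide +kernel
  have h3 : vI 3 = 43 := by decide +kernel
  simp only [V4, Finset.mem_insert, Finset.mem_singleton] at ha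
  rcases ha with rfl | rfl | rfl | rfl
  · exact ⟨0, by norm_num, by rw [ix_one, h0], fun h => absurd rfl h⟩
  · exact ⟨1, by norm_num, by rw [ix_v1, h1], fun _ => by norm_num⟩
  · exact ⟨2, by norm_num, by rw [ix_v2, h2], fun _ => by norm_num⟩
  · exact ⟨3, by norm_num, by rw [ix_v12, h3], fun _ => by norm_num⟩

theorem chk_one : allLt 60 (fun w => Bool.or (Nat.beq w 0) (inS (clsI w 0 0))) = true := by
  decide +kernel

theorem chk_v4 : allLt 4 (fun i => allLt 4 (fun j => allLt 4 (fun k =>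
    Bool.or (Bool.and (Nat.beq i 0) (Bool.and (Nat.beq j 0) (Nat.beq k 0)))
      (inS (clsI (vI i) (vI j) (vI k)))))) = true := by
  decide +kernel

theorem chk_inv2 : allLt 4 (fun i => allLt 4 (fun j => allLt 60 (fun w =>
    Bool.or (Nat.beq i 0) (Bool.or (Nat.beq j 0) (inS (gI (vI i) (vI j) w)))))) = true := by
  decide +kernel

/-- all classes lie in S0 or in {10, 27}, and n of them in S0 -/
def good (p q n : ℕ) : Bool :=
  Bool.and (allLt 60 (fun w => Bool.or (inS (gI p q w))
    (Bool.or (Nat.beq (gI p q w) 10) (Nat.beq (gI p q w) 27))))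
    (Nat.beq (sumLt 60 (fun w => Bool.rec 0 1 (inS (gI p q w)))) n)

/-- index of the i-th power of c5 -/
def pI (k : ℕ) : ℕ := lk 6 (16 * 64 + 32 * 64 ^ 2 + 45 * 64 ^ 3 + 48 * 64 ^ 4) k

theorem ix_pow {i : ℕ} (h0 : 0 < i) (h5 : i < 5) : ix (c5 ^ i) = pI i := by
  interval_cases i
  · rw [ix_c5_1]; decide +kernel
  · rw [ix_c5_2]; decide +kernel
  · rw [ix_c5_3]; decide +kernel
  · rw [ix_c5_4]; decide +kernel

theorem chk_three : Bool.and (Bool.and (good 15 15 42) (good 15 24 42))
    (Bool.and (good 24 15 42) (good 24 24 42)) = true := by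
  decide +kernel

theorem chk_same : allLt 5 (fun i => allLt 5 (fun j =>
    Bool.or (Nat.beq i 0) (Bool.or (Nat.beq j 0)
      (Bool.or (Bool.not (Bool.or (Nat.beq i j) (Nat.beq (Nat.add i j) 5)))
        (good (pI i) (pI j) 35))))) = true := by
  decide +kernel

theorem chk_diff : allLt 5 (fun i => allLt 5 (fun j =>
    Bool.or (Nat.beq i 0) (Bool.or (Nat.beq j 0)
      (Bool.or (Bool.or (Nat.beq i j) (Nat.beq (Nat.add i j) 5))
        (allLt 60 (fun w => inS (gI (pI i) (pI j) w))))))) = true := by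
  decide +kernel

theorem sum_conj {f : Gam → ℕ} (hf : Col f) (a b : A) (φ : ℕ → ℚ) :
    ∑ x : A, ∑ y : A, φ (f (x⁻¹ * a * x, y⁻¹ * b * y, 1)) =
      60 * ∑ w : A, φ (f (a, w⁻¹ * b * w, 1)) := by
  have h : ∀ x : A, ∑ y : A, φ (f (x⁻¹ * a * x, y⁻¹ * b * y, 1)) =
      ∑ w : A, φ (f (a, w⁻¹ * b * w, 1)) := by
    intro x
    rw [← Equiv.sum_comp (Equiv.mulRight x⁻¹) (fun w : A => φ (f (a, w⁻¹ * b * w, 1)))]
    refine Finset.sum_congr rfl (fun y _ => ?_)
    rw [f_conj hf]
    rfl
  rw [Finset.sum_congr rfl (fun x _ => h x), Finset.sum_const, Finset.card_univ, card_A]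
  simp

theorem sum_good (hC : SpecCls) {f : Gam → ℕ} (hf : Col f) (hc : Core f) (a b : A) (n : ℕ)
    (hg : good (ix a) (ix b) n = true) (φ : ℕ → ℚ) :
    ∑ w : A, φ (f (a, w⁻¹ * b * w, 1)) =
      n * φ (FC f 16) + (60 - n) * φ (FC f 10) := by
  unfold good at hg
  rw [Bool.and_eq_true] at hg
  obtain ⟨h1, h2⟩ := hg
  have h1' := (allLt_iff _ _).1 h1
  have h2' := Nat.eq_of_beq_eq_true h2
  rw [sumLt_eq, ← sum_A (fun w => (Bool.rec 0 1 (inS (gI (ix a) (ix b) w)) : ℕ))] at h2'
  have key : ∀ w : A, φ (f (a, w⁻¹ * b * w, 1)) =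
      ((Bool.rec 0 1 (inS (gI (ix a) (ix b) (ix w))) : ℕ) : ℚ) * (φ (FC f 16) - φ (FC f 10)) +
        φ (FC f 10) := by
    intro w
    have hlt : gI (ix a) (ix b) (ix w) < 111 := by
      rw [← cls_gI]; exact hC.lt _
    rw [hC.const f hf, cls_gI]
    have h3 := h1' (ix w) (ix_lt w)
    rcases hB : inS (gI (ix a) (ix b) (ix w)) with _ | _
    · rw [hB] at h3
      have h4 : gI (ix a) (ix b) (ix w) = 10 ∨ gI (ix a) (ix b) (ix w) = 27 := by
        simpa using h3
      have h5 : FC f (gI (ix a) (ix b) (ix w)) = FC f 10 := by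
        rcases h4 with h4 | h4
        · rw [h4]
        · rw [h4]; exact hc.2.symm
      rw [h5]
      simp
    · rw [hc.1 _ (inS_mem hlt hB)]
      simp
  rw [Finset.sum_congr rfl (fun w _ => key w), Finset.sum_add_distrib, ← Finset.sum_mul,
    ← Nat.cast_sum, h2', Finset.sum_const, Finset.card_univ, card_A, nsmul_eq_mul]
  push_cast
  ring

theorem chk_size : ∀ k : Fin 111, (k : ℕ) = 0 ∨ (k : ℕ) ∈ S0 ∨ 120 ∣ sizeF k := by
  decide +kernel

theorem chk_sum : sumLt 111 (fun k => Bool.rec 0 (sizeF k) (inS k)) = 5999 := by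
  decide +kernel

theorem nOf_eq (hC : SpecCls) {f : Gam → ℕ} (hf : Col f) (s : ℕ) :
    nOf f s = ∑ k ∈ range 111, if FC f k = s then sizeF k else 0 := by
  unfold nOf
  rw [Finset.card_eq_sum_card_fiberwise (f := cls) (t := range 111)
    (fun x _ => by simpa using hC.lt x)]
  refine Finset.sum_congr rfl (fun k hk => ?_)
  have hk' : k < 111 := Finset.mem_range.1 hk
  rw [Finset.filter_filter]
  by_cases h : FC f k = s
  · rw [if_pos h, ← hC.size k hk']
    refine congrArg Finset.card (Finset.filter_congr (fun x _ => ?_))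
    constructor
    · exact fun h1 => h1.2
    · intro h1
      refine ⟨?_, h1⟩
      rw [hC.const f hf x, h1, h]
  · rw [if_neg h, Finset.card_eq_zero, Finset.filter_eq_empty_iff]
    intro x _ h1
    apply h
    rw [← h1.2, ← hC.const f hf x, h1.1]

theorem nOf_split (hC : SpecCls) {f : Gam → ℕ} (hf : Col f) (hc : Core f) :
    ∃ m : ℕ, nOf f (FC f 16) = 5999 + 120 * m := by
  have h0 : FC f 0 ≠ FC f 16 := by
    have h1 : rep 0 = 1 := (hC.zero _).1 (hC.clsrep 0 (by norm_num))
    have h2 : FC f 0 = 0 := by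
      unfold FC
      rw [h1]
      exact (hf.zero 1).2 rfl
    have h3 : FC f 16 ≠ 0 := by
      intro h
      have h4 : rep 16 = 1 := (hf.zero _).1 h
      have h5 := (hC.zero _).2 h4
      rw [hC.clsrep 16 (by norm_num)] at h5
      exact absurd h5 (by norm_num)
    rw [h2]
    exact h3.symm
  rw [nOf_eq hC hf]
  have key : ∀ k ∈ range 111, (if FC f k = FC f 16 then sizeF k else 0) =
      (Bool.rec 0 (sizeF k) (inS k) : ℕ) +
        (if inS k = false ∧ FC f k = FC f 16 then sizeF k else 0) := by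
    intro k hk
    have hk' : k < 111 := Finset.mem_range.1 hk
    rcases hB : inS k with _ | _
    · simp
    · rw [if_pos (hc.1 k (inS_mem hk' hB))]
      simp
  have hd : ∀ k ∈ range 111, 120 ∣
      (if inS k = false ∧ FC f k = FC f 16 then sizeF k else 0) := by
    intro k hk
    have hk' : k < 111 := Finset.mem_range.1 hk
    split_ifs with h
    · rcases chk_size ⟨k, hk'⟩ with h1 | h1 | h1
      · exfalso
        apply h0
        have h1' : k = 0 := h1
        rw [← h1']
        exact h.2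
      · exfalso
        have h2 := (inS_chk ⟨k, hk'⟩).2 h1
        rw [h.1] at h2
        exact absurd h2 (by decide)
      · exact h1
    · exact dvd_zero _
  obtain ⟨m, hm⟩ := Finset.dvd_sum hd
  refine ⟨m, ?_⟩
  rw [Finset.sum_congr rfl key, Finset.sum_add_distrib, hm, ← sumLt_eq, chk_sum]

end L2L

open L2L ZonM ClsM

theorem specL2L : SpecL2L := by
  intro hC f hf hc
  refine ⟨FC f 16, FC f 10, ?_⟩
  have hS : ∀ x : Gam, inS (cls x) = true → f x = FC f 16 := by
    intro x hx
    rw [hC.const f hf x]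
    exact hc.1 _ (inS_mem (hC.lt x) hx)
  have hfive : ∀ i j : ℕ, 0 < i → i < 5 → 0 < j → j < 5 → (i = j ∨ i + j = 5) →
      good (ix (c5 ^ i)) (ix (c5 ^ j)) 35 = true := by
    intro i j hi hi' hj hj' hij
    have h := (allLt_iff _ _).1 ((allLt_iff _ _).1 chk_same i hi') j hj'
    rw [ix_pow hi hi', ix_pow hj hj']
    simp only [Bool.or_eq_true, Bool.not_eq_true', Nat.beq_eq] at h
    rcases h with h | h | h | h
    · omega
    · omega
    · exfalso
      have h2 : (Bool.or (Nat.beq i j) (Nat.beq (Nat.add i j) 5)) = true := by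
        rcases hij with h3 | h3
        · rw [h3, Nat.beq_refl]; rfl
        · have h4 : Nat.beq (Nat.add i j) 5 = true := Nat.beq_eq ▸ h3
          rw [h4]
          cases Nat.beq i j <;> rfl
      rw [h2] at h
      exact absurd h (by decide)
    · exact h
  exact
  { one := by
      intro t ht
      apply hS
      rw [cls_eq, ix_one]
      have h := (allLt_iff _ _).1 L2L.chk_one (ix t) (ix_lt t)
      rw [Bool.or_eq_true] at h
      rcases h with h | h
      · exfalso
        apply ht
        apply ix_inj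
        rw [ix_one]
        exact Nat.eq_of_beq_eq_true h
      · exact h
    v4 := by
      intro a ha b hb c hc hne
      apply hS
      rw [cls_eq]
      obtain ⟨i, hi, hi1, hi2⟩ := v4_ix a ha
      obtain ⟨j, hj, hj1, hj2⟩ := v4_ix b hb
      obtain ⟨k, hk, hk1, hk2⟩ := v4_ix c hc
      have h := (allLt_iff _ _).1 ((allLt_iff _ _).1 ((allLt_iff _ _).1 chk_v4 i hi) j hj) k hk
      rw [hi1, hj1, hk1]
      rw [Bool.or_eq_true] at h
      rcases h with h | h
      · exfalso
        simp only [Bool.and_eq_true, Nat.beq_eq] at h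
        apply hne
        have h1 : a = 1 := by
          by_contra h1
          have := hi2 h1
          omega
        have h2 : b = 1 := by
          by_contra h1
          have := hj2 h1
          omega
        have h3 : c = 1 := by
          by_contra h1
          have := hk2 h1
          omega
        rw [h1, h2, h3]
      · exact h
    inv2 := by
      intro a ha b hb ha1 hb1 x y
      rw [f_conj hf]
      apply hS
      rw [cls_gI]
      obtain ⟨i, hi, hi1, hi2⟩ := v4_ix a ha
      obtain ⟨j, hj, hj1, hj2⟩ := v4_ix b hb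
      have h := (allLt_iff _ _).1 ((allLt_iff _ _).1 ((allLt_iff _ _).1 chk_inv2 i hi) j hj)
        (ix (y * x⁻¹)) (ix_lt _)
      rw [hi1, hj1]
      rw [Bool.or_eq_true, Bool.or_eq_true] at h
      rcases h with h | h | h
      · have := hi2 ha1
        have := Nat.eq_of_beq_eq_true h
        omega
      · have := hj2 hb1
        have := Nat.eq_of_beq_eq_true h
        omega
      · exact h
    three := by
      intro a b ha hb φ
      have h := chk_three
      simp only [Bool.and_eq_true] at h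
      have hg : good (ix a) (ix b) 42 = true := by
        rcases ha with ha | ha <;> rcases hb with hb | hb <;> rw [ha, hb]
        · rw [ix_c3]; exact h.1.1
        · rw [ix_c3, ix_c3i]; exact h.1.2
        · rw [ix_c3, ix_c3i]; exact h.2.1
        · rw [ix_c3i]; exact h.2.2
      rw [sum_conj hf, sum_good hC hf hc a b 42 hg]
      push_cast
      ring
    five_same := by
      intro i j hi hi' hj hj' hij φ
      rw [sum_conj hf, sum_good hC hf hc _ _ 35 (hfive i j hi hi' hj hj' hij)]
      push_cast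
      ring
    five_diff := by
      intro i j hi hi' hj hj' hij x y
      rw [f_conj hf]
      apply hS
      rw [cls_gI]
      have h := (allLt_iff _ _).1 ((allLt_iff _ _).1 chk_diff i hi') j hj'
      rw [ix_pow hi hi', ix_pow hj hj']
      rw [Bool.or_eq_true, Bool.or_eq_true, Bool.or_eq_true] at h
      rcases h with h | h | h | h
      · have := Nat.eq_of_beq_eq_true h
        omega
      · have := Nat.eq_of_beq_eq_true h
        omega
      · exfalso
        apply hij
        rw [Bool.or_eq_true] at h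
        rcases h with h | h
        · exact Or.inl (Nat.eq_of_beq_eq_true h)
        · exact Or.inr (Nat.eq_of_beq_eq_true h)
      · exact (allLt_iff _ _).1 h _ (ix_lt _)
    dvd := by
      obtain ⟨m, hm⟩ := nOf_split hC hf hc
      rw [hm]
      omega
    le := by
      obtain ⟨m, hm⟩ := nOf_split hC hf hc
      rw [hm]
      omega }

end MP26f323
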