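import Pool.Agent.Lib.MP_26f323_al.Spec3

/-!
MP_26f323_al, module LANE: elementary lemmas on lanes of 32 bits.
-/

set_option autoImplicit false

namespace MP26f323

open ZonM ClsM

namespace Chk

namespace LaneM

/-- the base -/
def BB : ℕ := 2 ^ 32

lemma lane_eq (N p : ℕ) : lane 32 N p = N / 2 ^ (32 * p) % 2 ^ 32 := by
  show (N >>> (32 * p)) % 2 ^ 32 = _
  rw [Nat.shiftRight_eq_div_pow]

lemma lane_zero_right (N : ℕ) : lane 32 N 0 = N % 2 ^ 32 := by
  rw [lane_eq]; simp

lemma lane_succ (N p : ℕ) : lane 32 N (p + 1) = lane 32 (N / 2 ^ 32) p := by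
  rw [lane_eq, lane_eq, Nat.div_div_eq_div_mul, ← pow_add]
  congr 3
  ring

lemma lane_lt (N p : ℕ) : lane 32 N p < 2 ^ 32 := by
  rw [lane_eq]; exact Nat.mod_lt _ (by norm_num)

lemma lane_zero (p : ℕ) : lane 32 0 p = 0 := by
  rw [lane_eq]; simp

lemma lane_add (x y p : ℕ) (h : ∀ q, q ≤ p → lane 32 x q + lane 32 y q < 2 ^ 32) :
    lane 32 (x + y) p = lane 32 x p + lane 32 y p := by
  induction p generalizing x y with
  | zero =>
    have h0 := h 0 le_rfl
    rw [lane_zero_right, lane_zero_right] at h0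
    rw [lane_zero_right, lane_zero_right, lane_zero_right, Nat.add_mod, Nat.mod_eq_of_lt h0]
  | succ p ih =>
    have h0 := h 0 (Nat.zero_le _)
    rw [lane_zero_right, lane_zero_right] at h0
    rw [lane_succ, lane_succ, lane_succ, Nat.add_div_eq_of_add_mod_lt h0]
    apply ih
    intro q hq
    have := h (q + 1) (by omega)
    rwa [lane_succ, lane_succ] at this

lemma lane_mul (c x p : ℕ) (h : ∀ q, q ≤ p → c * lane 32 x q < 2 ^ 32) :
    lane 32 (c * x) p = c * lane 32 x p := by
  have key : ∀ y : ℕ, c * (y % 2 ^ 32) < 2 ^ 32 →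
      (c * y) % 2 ^ 32 = c * (y % 2 ^ 32) ∧ (c * y) / 2 ^ 32 = c * (y / 2 ^ 32) := by
    intro y hy
    have h1 : c * y = c * (y % 2 ^ 32) + 2 ^ 32 * (c * (y / 2 ^ 32)) := by
      conv_lhs => rw [← Nat.mod_add_div y (2 ^ 32)]
      ring
    rw [h1]
    constructor
    · rw [Nat.add_mul_mod_self_left, Nat.mod_eq_of_lt hy]
    · rw [Nat.add_mul_div_left _ _ (by norm_num), Nat.div_eq_of_lt hy, zero_add]
  induction p generalizing x with
  | zero =>
    have h0 := h 0 le_rfl
    rw [lane_zero_right] at h0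
    rw [lane_zero_right, lane_zero_right, (key x h0).1]
  | succ p ih =>
    have h0 := h 0 (Nat.zero_le _)
    rw [lane_zero_right] at h0
    rw [lane_succ, lane_succ, (key x h0).2]
    apply ih
    intro q hq
    have := h (q + 1) (by omega)
    rwa [lane_succ] at this

lemma testBit_lane (N p k : ℕ) (hk : k < 32) : (lane 32 N p).testBit k = N.testBit (32 * p + k) := by
  show ((N >>> (32 * p)) % 2 ^ 32).testBit k = _
  rw [Nat.testBit_mod_two_pow, Nat.testBit_shiftRight]
  simp [hk]

lemma testBit_eq (N n : ℕ) : N.testBit n = (lane 32 N (n / 32)).testBit (n % 32) := by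
  rw [testBit_lane _ _ _ (Nat.mod_lt _ (by norm_num)), Nat.div_add_mod]

lemma lane_ext_bit (x : ℕ) (hx : x < 2 ^ 32) (N p : ℕ)
    (h : ∀ k, k < 32 → N.testBit (32 * p + k) = x.testBit k) : lane 32 N p = x := by
  apply Nat.eq_of_testBit_eq
  intro k
  by_cases hk : k < 32
  · rw [testBit_lane _ _ _ hk, h k hk]
  · have h1 : ∀ y : ℕ, y < 2 ^ 32 → y.testBit k = false := by
      intro y hy
      apply Nat.testBit_eq_false_of_lt
      exact lt_of_lt_of_le hy (Nat.pow_le_pow_right (by norm_num) (by omega))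
    rw [h1 _ (lane_lt _ _), h1 _ hx]

lemma lane_single (v p q : ℕ) (hv : v < 2 ^ 32) :
    lane 32 (Nat.shiftLeft v (Nat.mul 32 p)) q = if q = p then v else 0 := by
  show lane 32 (v <<< (32 * p)) q = _
  apply lane_ext_bit
  · split_ifs <;> [exact hv; norm_num]
  · intro k hk
    rw [Nat.testBit_shiftLeft]
    split_ifs with h
    · subst h
      simp
    · rw [Nat.zero_testBit]
      rcases Nat.lt_or_gt_of_ne h with h1 | h1
      · have : ¬ (32 * q + k ≥ 32 * p) := by omega
        simp [this]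
      · have h2 : v.testBit (32 * q + k - 32 * p) = false := by
          apply Nat.testBit_eq_false_of_lt
          refine lt_of_lt_of_le hv (Nat.pow_le_pow_right (by norm_num) ?_)
          omega
        simp [h2]

/-! ### masks -/

/-- K consists of the full lanes p with P p -/
def IsMask (K : ℕ) (P : ℕ → Prop) : Prop := ∀ n, K.testBit n = true ↔ P (n / 32)

lemma IsMask.of_lane {K : ℕ} {P : ℕ → Prop} [DecidablePred P]
    (h : ∀ p, lane 32 K p = if P p then 4294967295 else 0) : IsMask K P := by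
  intro n
  rw [testBit_eq, h]
  split_ifs with h1
  · have h2 : (4294967295 : ℕ) = 2 ^ 32 - 1 := by norm_num
    rw [h2, Nat.testBit_two_pow_sub_one]
    simp only [h1, iff_true, decide_eq_true_eq]
    exact Nat.mod_lt _ (by norm_num)
  · simp [h1]

lemma IsMask.land {K : ℕ} {P : ℕ → Prop} (h : IsMask K P) (L p : ℕ) [Decidable (P p)] :
    lane 32 (Nat.land L K) p = if P p then lane 32 L p else 0 := by
  apply lane_ext_bit
  · split_ifs <;> [exact lane_lt _ _; norm_num]
  · intro k hk
    have h1 := h (32 * p + k)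
    have h2 : (32 * p + k) / 32 = p := by omega
    rw [h2] at h1
    show (L &&& K).testBit (32 * p + k) = _
    rw [Nat.testBit_and]
    split_ifs with h3
    · rw [testBit_lane _ _ _ hk, h1.2 h3, Bool.and_true]
    · have h4 : K.testBit (32 * p + k) = false := by
        rw [← Bool.not_eq_true]; exact fun h5 => h3 (h1.1 h5)
      rw [h4, Bool.and_false, Nat.zero_testBit]

lemma IsMask.shl {K : ℕ} {P : ℕ → Prop} (h : IsMask K P) (s : ℕ) :
    IsMask (Nat.shiftLeft K (Nat.mul 32 s)) (fun p => s ≤ p ∧ P (p - s)) := by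
  intro n
  show (K <<< (32 * s)).testBit n = true ↔ _
  rw [Nat.testBit_shiftLeft, Bool.and_eq_true, decide_eq_true_eq, h]
  have h1 : n ≥ 32 * s ↔ s ≤ n / 32 := by omega
  rw [h1]
  constructor
  · rintro ⟨h2, h3⟩
    refine ⟨h2, ?_⟩
    rwa [show (n - 32 * s) / 32 = n / 32 - s by omega] at h3
  · rintro ⟨h2, h3⟩
    refine ⟨h2, ?_⟩
    rwa [show (n - 32 * s) / 32 = n / 32 - s by omega]

lemma IsMask.shr {K : ℕ} {P : ℕ → Prop} (h : IsMask K P) (s : ℕ) :
    IsMask (Nat.shiftRight K (Nat.mul 32 s)) (fun p => P (p + s)) := by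
  intro n
  show (K >>> (32 * s)).testBit n = true ↔ _
  rw [Nat.testBit_shiftRight, h, show (32 * s + n) / 32 = n / 32 + s by omega]

lemma IsMask.lor {K K' : ℕ} {P P' : ℕ → Prop} (h : IsMask K P) (h' : IsMask K' P') :
    IsMask (Nat.lor K K') (fun p => P p ∨ P' p) := by
  intro n
  show (K ||| K').testBit n = true ↔ _
  rw [Nat.testBit_or, Bool.or_eq_true, h, h']

lemma IsMask.xor {K K' : ℕ} {P P' : ℕ → Prop} (h : IsMask K P) (h' : IsMask K' P') :
    IsMask (Nat.xor K K') (fun p => ¬ (P p ↔ P' p)) := by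
  intro n
  show (K ^^^ K').testBit n = true ↔ _
  rw [Nat.testBit_xor]
  have h1 := h n
  have h2 := h' n
  show (K.testBit n ^^ K'.testBit n) = true ↔ ¬ (P (n / 32) ↔ P' (n / 32))
  rw [← h1, ← h2]
  cases K.testBit n <;> cases K'.testBit n <;> simp

/-! ### positions -/

lemma pos_eq (i j : ℕ) : pos i j = j * (j - 1) / 2 + (i - 1) := rfl

lemma tr_succ (j : ℕ) : (j + 1) * (j + 1 - 1) / 2 = j * (j - 1) / 2 + j := by
  have h : (j + 1) * (j + 1 - 1) = j * (j - 1) + 2 * j := by
    cases j with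
    | zero => rfl
    | succ k =>
      simp only [Nat.add_sub_cancel]
      ring
  rw [h, Nat.add_mul_div_left _ _ (by norm_num)]

lemma tr_mono {i j : ℕ} (h : i ≤ j) : i * (i - 1) / 2 ≤ j * (j - 1) / 2 := by
  induction h with
  | refl => exact le_rfl
  | step _ ih => exact ih.trans (by rw [tr_succ]; exact Nat.le_add_right _ _)

lemma pos_lt_of_lt {i j i' j' : ℕ} (h1 : 1 ≤ i) (h2 : i ≤ j) (hj : j < j') :
    pos i j < pos i' j' := by
  rw [pos_eq, pos_eq]
  have h3 := tr_mono hj
  rw [Nat.succ_eq_add_one, tr_succ] at h3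
  omega

lemma pos_inj' (i j i' j' : ℕ) (h1 : 1 ≤ i) (h2 : i ≤ j) (h3 : 1 ≤ i') (h4 : i' ≤ j')
    (h : pos i j = pos i' j') : i = i' ∧ j = j' := by
  rcases lt_trichotomy j j' with hj | hj | hj
  · have := pos_lt_of_lt (i' := i') h1 h2 hj
    omega
  · subst hj
    rw [pos_eq, pos_eq] at h
    omega
  · have := pos_lt_of_lt (i' := i) h3 h4 hj
    omega

lemma pos_lt' (i j : ℕ) (h1 : 1 ≤ i) (h2 : i ≤ j) : pos i j < 3003 ↔ j ≤ 77 := by
  have h78 : pos 1 78 = 3003 := by decide
  have h77 : pos 77 77 = 3002 := by decide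
  constructor
  · intro h
    by_contra hj
    push Not at hj
    rcases Nat.eq_or_lt_of_le (show 78 ≤ j from hj) with h3 | h3
    · subst h3
      rw [pos_eq] at h h78
      omega
    · have := pos_lt_of_lt (i := 1) (j := 78) (i' := i) (by norm_num) (by norm_num) h3
      omega
  · intro h
    rcases Nat.eq_or_lt_of_le h with h3 | h3
    · subst h3
      rw [pos_eq] at h77 ⊢
      omega
    · have := pos_lt_of_lt (i' := 77) h1 h2 h3
      omega

/-! ### the constants -/

lemma lane_cons (c x : ℕ) (hc : c < 2 ^ 32) :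
    lane 32 (c + 2 ^ 32 * x) 0 = c ∧ ∀ p, lane 32 (c + 2 ^ 32 * x) (p + 1) = lane 32 x p := by
  constructor
  · rw [lane_zero_right, Nat.add_mul_mod_self_left, Nat.mod_eq_of_lt hc]
  · intro p
    rw [lane_succ, Nat.add_mul_div_left _ _ (by norm_num), Nat.div_eq_of_lt hc, zero_add]

lemma lane_ones (n p : ℕ) : lane 32 (ones n) p = if p < n then 1 else 0 := by
  induction n generalizing p with
  | zero => exact lane_zero p
  | succ n ih =>
    have h : ones (n + 1) = 1 + 2 ^ 32 * ones n := by
      show (ones n) <<< 32 + 1 = _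
      rw [Nat.shiftLeft_eq]
      ring
    rw [h]
    cases p with
    | zero => rw [(lane_cons 1 _ (by norm_num)).1, if_pos (Nat.succ_pos n)]
    | succ p =>
      rw [(lane_cons 1 _ (by norm_num)).2, ih]
      simp only [Nat.add_lt_add_iff_right]

theorem ONE_eq : ONE = ones 3036 := by decide +kernel

theorem BIG_eq' : BIG = Nat.pow 2 (Nat.mul 32 3003) := by decide +kernel

theorem ALL_eq : ALL = Nat.pred (Nat.pow 2 (Nat.mul 32 3003)) := by decide +kernel

attribute [local irreducible] ONE BIG ALL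

lemma lane_ONE (p : ℕ) : lane 32 ONE p = if p < 3036 then 1 else 0 := by
  rw [ONE_eq]
  exact lane_ones 3036 p

lemma mask_pow (x : ℕ) : IsMask (Nat.pred (Nat.pow 2 (Nat.mul 32 x))) (fun p => p < x) := by
  intro n
  show (2 ^ (32 * x) - 1).testBit n = true ↔ _
  rw [Nat.testBit_two_pow_sub_one, decide_eq_true_eq]
  omega

lemma mask_ALL : IsMask ALL (fun p => p < 3003) := by
  rw [ALL_eq]
  exact mask_pow 3003

lemma lane_sumLt (F : ℕ) (hF : F < 2 ^ 32) (a : ℕ → ℕ)
    (ha : ∀ i j, a i = a j → i = j) (n p : ℕ) [Decidable (∃ j, j < n ∧ p = a j)] :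
    lane 32 (sumLt n fun j => Nat.shiftLeft F (Nat.mul 32 (a j))) p =
      if ∃ j, j < n ∧ p = a j then F else 0 := by
  classical
  have key : ∀ n p, lane 32 (sumLt n fun j => Nat.shiftLeft F (Nat.mul 32 (a j))) p =
      if ∃ j, j < n ∧ p = a j then F else 0 := by
    intro n
    induction n with
    | zero =>
      intro p
      rw [if_neg (by rintro ⟨j, hj, _⟩; omega)]
      exact lane_zero p
    | succ n ih =>
      intro p
      have h0 : ∀ q, lane 32 (Nat.shiftLeft F (Nat.mul 32 (a n))) q +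
          lane 32 (sumLt n fun j => Nat.shiftLeft F (Nat.mul 32 (a j))) q =
            if ∃ j, j < n + 1 ∧ q = a j then F else 0 := by
        intro q
        rw [lane_single _ _ _ hF, ih]
        by_cases h1 : q = a n
        · rw [if_pos h1, if_neg, if_pos ⟨n, by omega, h1⟩, add_zero]
          rintro ⟨j, hj, h2⟩
          have := ha j n (by rw [← h2, ← h1])
          omega
        · rw [if_neg h1, zero_add]
          congr 1
          apply propext
          constructor
          · rintro ⟨j, hj, h2⟩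
            exact ⟨j, by omega, h2⟩
          · rintro ⟨j, hj, h2⟩
            refine ⟨j, ?_, h2⟩
            rcases Nat.lt_succ_iff_lt_or_eq.1 hj with h3 | h3
            · exact h3
            · subst h3; exact absurd h2 h1
      rw [sumLt_succ, lane_add, h0]
      intro q _
      rw [h0]
      split_ifs <;> [exact hF; norm_num]
  convert key n p

lemma mask_sumLt (a : ℕ → ℕ) (ha : ∀ i j, a i = a j → i = j) (n : ℕ) :
    IsMask (sumLt n fun j => Nat.shiftLeft 4294967295 (Nat.mul 32 (a j)))
      (fun p => ∃ j, j < n ∧ p = a j) := by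
  classical
  apply IsMask.of_lane
  intro p
  exact lane_sumLt 4294967295 (by norm_num) a ha n p

lemma mask_PAT : IsMask PAT (fun p => ∃ j, j < 77 ∧ p = pos 1 (j + 1)) := by
  apply mask_sumLt (fun j => pos 1 (j + 1))
  intro i j h
  have := (pos_inj' _ _ _ _ le_rfl (by omega) le_rfl (by omega) h).2
  omega

lemma mask_OFF : IsMask OFF (fun p => ¬ (p < 3003 ↔ ∃ j, j < 77 ∧ p = pos (j + 1) (j + 1))) := by
  apply mask_ALL.xor
  apply mask_sumLt (fun j => pos (j + 1) (j + 1))
  intro i j h
  have := (pos_inj' _ _ _ _ (by omega) le_rfl (by omega) le_rfl h).2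
  omega

/-- the lanes of kmask -/
def Q (x p : ℕ) : Prop :=
  (x * (x - 1) / 2 ≤ p ∧ p - x * (x - 1) / 2 < x) ∨
    (x * (x - 1) / 2 + x + x - 1 ≤ p ∧
      ∃ j, j < 77 ∧ p - (x * (x - 1) / 2 + x + x - 1) + (x * (x - 1) / 2 + x) = pos 1 (j + 1))

lemma mask_kmask (x : ℕ) : IsMask (kmask PAT x) (Q x) :=
  ((mask_pow x).shl (Nat.div (Nat.mul x (Nat.sub x 1)) 2)).lor
    ((mask_PAT.shr (Nat.add (Nat.div (Nat.mul x (Nat.sub x 1)) 2) x)).shl
      (Nat.sub (Nat.add (Nat.add (Nat.div (Nat.mul x (Nat.sub x 1)) 2) x) x) 1))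

lemma Q_pos (x i j : ℕ) (hx : 1 ≤ x) (h1 : 1 ≤ i) (h2 : i ≤ j) (h : Q x (pos i j)) :
    i = x ∨ j = x := by
  rcases h with ⟨h3, h4⟩ | ⟨h3, k, hk, h4⟩
  · right
    have h5 : pos i j = pos (pos i j - x * (x - 1) / 2 + 1) x := by
      rw [pos_eq _ x]
      omega
    exact (pos_inj' _ _ _ _ h1 h2 (by omega) (by omega) h5).2
  · left
    have h5 : pos 1 (x + 1) ≤ pos 1 (k + 1) := by
      rw [pos_eq 1 (x + 1), tr_succ]
      omega
    have h6 : x ≤ k := by
      by_contra h7
      push Not at h7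
      have := pos_lt_of_lt (i := 1) (j := k + 1) (i' := 1) (j' := x + 1) le_rfl (by omega)
        (by omega)
      omega
    have h7 : pos i j = pos x (k + 1) := by
      rw [pos_eq x]
      rw [pos_eq 1 (k + 1)] at h4
      omega
    exact (pos_inj' _ _ _ _ h1 h2 hx (by omega) h7).1

lemma mask_foldl (xs : List ℕ) (K : ℕ) (P : ℕ → Prop) (h : IsMask K P) :
    IsMask (xs.foldl (fun K x => Nat.lor K (kmask PAT x)) K) (fun p => P p ∨ ∃ x ∈ xs, Q x p) := by
  induction xs generalizing K P with
  | nil =>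
    intro n
    simpa using h n
  | cons x xs ih =>
    intro n
    rw [List.foldl_cons, ih _ _ (h.lor (mask_kmask x)) n]
    simp only [List.mem_cons, exists_eq_or_imp, or_assoc]

/-! ### the functional Lin -/

lemma lane_big_gen (A n p : ℕ) (hA : A < Nat.pow 2 (Nat.mul 32 n)) (hp : n ≤ p) :
    lane 32 A p = 0 := by
  rw [lane_eq]
  have hm : Nat.mul 32 n ≤ 32 * p := Nat.mul_le_mul_left 32 hp
  have h : A < 2 ^ (32 * p) := lt_of_lt_of_le hA (Nat.pow_le_pow_right (by norm_num) hm)
  rw [Nat.div_eq_of_lt h, Nat.zero_mod]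

lemma lane_BIG (A p : ℕ) (hA : A < BIG) (hp : 3003 ≤ p) : lane 32 A p = 0 := by
  rw [BIG_eq'] at hA
  exact lane_big_gen A 3003 p hA hp

/-- divs with a variable mask -/
def divs' (E N S M : ℕ) : Bool :=
  frc (Nat.div (Nat.sub N S) M) fun Q =>
    Bool.and (Nat.beq (Nat.add S (Nat.mul M Q)) N)
      (Nat.beq (Nat.land Q (Nat.mul 4278190080 E)) 0)

lemma divs_eq (N S M : ℕ) : divs N S M = divs' ONE N S M := rfl

lemma divs'_spec (E N S M : ℕ) (h : divs' E N S M = true) :
    ∃ Q, S + M * Q = N ∧ Nat.land Q (Nat.mul 4278190080 E) = 0 := by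
  have h1 : Bool.and (Nat.beq (Nat.add S (Nat.mul M (Nat.div (Nat.sub N S) M))) N)
      (Nat.beq (Nat.land (Nat.div (Nat.sub N S) M) (Nat.mul 4278190080 E)) 0) = true := h
  rw [Bool.and_eq_true] at h1
  exact ⟨_, Nat.eq_of_beq_eq_true h1.1, Nat.eq_of_beq_eq_true h1.2⟩

lemma Lin_congr (N N' : ℕ) (w w' : ℕ → ℕ → ℕ)
    (h1 : ∀ i j, 1 ≤ i → i ≤ j → j ≤ 77 →
      lane 32 N (pos i j) * w i j = lane 32 N' (pos i j) * w' i j)
    (h2 : ∀ r, r < 33 → lane 32 N (3003 + r) * w (78 + r) (78 + r) =
      lane 32 N' (3003 + r) * w' (78 + r) (78 + r)) : Lin N w = Lin N' w' := by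
  unfold Lin
  apply congrArg₂ (fun a b : ℕ => a + b)
  · refine Finset.sum_congr rfl fun j hj => Finset.sum_congr rfl fun i hi => ?_
    have hj' := Finset.mem_range.1 hj
    have hi' := Finset.mem_range.1 hi
    exact h1 _ _ (by omega) (by omega) (by omega)
  · refine Finset.sum_congr rfl fun r hr => ?_
    exact h2 r (Finset.mem_range.1 hr)

lemma modEq_sum {m : ℕ} (s : Finset ℕ) (f g : ℕ → ℕ) (h : ∀ i ∈ s, f i ≡ g i [MOD m]) :
    ∑ i ∈ s, f i ≡ ∑ i ∈ s, g i [MOD m] := by
  classical
  induction s using Finset.induction_on with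
  | empty => rfl
  | insert a s ha ih =>
    rw [Finset.sum_insert ha, Finset.sum_insert ha]
    exact (h a (by simp)).add (ih fun i hi => h i (by simp [hi]))

lemma pos_lt2 {i j : ℕ} (hj : j < 77) (hi : i < j + 1) : pos (i + 1) (j + 1) < 3036 := by
  have := (pos_lt' (i + 1) (j + 1) (by omega) (by omega)).2 (by omega)
  omega

lemma lane_and (N K p k : ℕ) (hk : k < 32) : (lane 32 (Nat.land N K) p).testBit k =
    ((lane 32 N p).testBit k && (lane 32 K p).testBit k) := by
  rw [testBit_lane _ _ _ hk, testBit_lane _ _ _ hk, testBit_lane _ _ _ hk]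
  show (N &&& K).testBit _ = _
  rw [Nat.testBit_and]

lemma bit_big (x k : ℕ) (hx : x < 2 ^ 32) (hk : ¬ k < 32) : x.testBit k = false := by
  apply Nat.testBit_eq_false_of_lt
  exact lt_of_lt_of_le hx (Nat.pow_le_pow_right (by norm_num) (by omega))

lemma lane_and_eq (N K p : ℕ) : lane 32 (Nat.land N K) p = lane 32 N p &&& lane 32 K p := by
  apply Nat.eq_of_testBit_eq
  intro k
  rw [Nat.testBit_and]
  by_cases hk : k < 32
  · exact lane_and N K p k hk
  · rw [bit_big _ _ (lane_lt _ _) hk, bit_big _ _ (lane_lt _ _) hk, Bool.false_and]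

lemma lane_msk (e p : ℕ) (he : e ≤ 31) (hp : p < 3036) :
    lane 32 (msk (2 ^ e)) p = 2 ^ e - 1 := by
  have h0 : (2 : ℕ) ^ e ≤ 2 ^ 31 := Nat.pow_le_pow_right (by norm_num) he
  show lane 32 ((2 ^ e - 1) * ONE) p = _
  rw [lane_mul, lane_ONE, if_pos hp, mul_one]
  intro q _
  rw [lane_ONE]
  have h1 : (2 : ℕ) ^ 31 < 2 ^ 32 := by norm_num
  split_ifs <;> omega

lemma lane_and_msk (N e p : ℕ) (he : e ≤ 31) (hp : p < 3036) :
    lane 32 (Nat.land N (msk (2 ^ e))) p = lane 32 N p % 2 ^ e := by
  rw [lane_and_eq, lane_msk e p he hp, Nat.and_two_pow_sub_one_eq_mod]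

lemma small_of_and (x : ℕ) (hx : x < 2 ^ 32) (h : x &&& 4278190080 = 0) : x < 2 ^ 24 := by
  apply Nat.lt_pow_two_of_testBit
  intro i hi
  by_cases hk : i < 32
  · have h1 : (x &&& 4278190080).testBit i = false := by rw [h, Nat.zero_testBit]
    rw [Nat.testBit_and] at h1
    have h2 : (4278190080 : ℕ).testBit i = true := by
      interval_cases i <;> decide
    rw [h2, Bool.and_true] at h1
    exact h1
  · exact bit_big x i hx hk

lemma lin_add' (x y : ℕ) (w : ℕ → ℕ → ℕ)
    (h : ∀ p, p < 3036 → lane 32 x p + lane 32 y p < 2 ^ 32) :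
    Lin (x + y) w = Lin x w + Lin y w := by
  have h1 : ∀ p, p < 3036 → lane 32 (x + y) p = lane 32 x p + lane 32 y p := fun p hp =>
    lane_add x y p fun q hq => h q (lt_of_le_of_lt hq hp)
  have h2 : ∀ r, r ∈ Finset.range 33 → 3003 + r < 3036 := by
    intro r hr; have := Finset.mem_range.1 hr; omega
  unfold Lin
  rw [Finset.sum_congr rfl (fun j hj => Finset.sum_congr rfl (fun i hi => by
      rw [h1 _ (pos_lt2 (Finset.mem_range.1 hj) (Finset.mem_range.1 hi)), add_mul])),
    Finset.sum_congr (s₁ := Finset.range 33) rfl (fun r hr => by rw [h1 _ (h2 r hr), add_mul])]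
  simp only [Finset.sum_add_distrib]
  ring

lemma lin_mul' (c x : ℕ) (w : ℕ → ℕ → ℕ)
    (h : ∀ p, p < 3036 → c * lane 32 x p < 2 ^ 32) :
    Lin (c * x) w = c * Lin x w := by
  have h1 : ∀ p, p < 3036 → lane 32 (c * x) p = c * lane 32 x p := fun p hp =>
    lane_mul c x p fun q hq => h q (lt_of_le_of_lt hq hp)
  have h2 : ∀ r, r ∈ Finset.range 33 → 3003 + r < 3036 := by
    intro r hr; have := Finset.mem_range.1 hr; omega
  unfold Lin
  rw [Finset.sum_congr rfl (fun j hj => Finset.sum_congr rfl (fun i hi => by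
      rw [h1 _ (pos_lt2 (Finset.mem_range.1 hj) (Finset.mem_range.1 hi)), mul_assoc])),
    Finset.sum_congr (s₁ := Finset.range 33) rfl (fun r hr => by rw [h1 _ (h2 r hr), mul_assoc])]
  simp only [← Finset.mul_sum]
  ring

end LaneM

open LaneM

attribute [local irreducible] ONE BIG ALL

theorem specLane : SpecLane where
  pos_inj := pos_inj'
  pos_lt := pos_lt'
  lt := fun x p => lane_lt x p
  add := lane_add
  mul := lane_mul
  single := lane_single
  zero := lane_zero
  big := by
    intro S v i j h1 h2 hv h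
    rw [← pos_lt' i j h1 h2]
    have h3 : 2 ^ (32 * pos i j) ≤ Nat.add S (Nat.shiftLeft v (Nat.mul 32 (pos i j))) := by
      show 2 ^ (32 * pos i j) ≤ S + v <<< (32 * pos i j)
      rw [Nat.shiftLeft_eq]
      calc 2 ^ (32 * pos i j) = 1 * 2 ^ (32 * pos i j) := (one_mul _).symm
        _ ≤ v * 2 ^ (32 * pos i j) := Nat.mul_le_mul_right _ hv
        _ ≤ _ := Nat.le_add_left _ _
    rw [BIG_eq'] at h
    generalize 3003 = n at h ⊢
    have h4 : 2 ^ (32 * pos i j) < 2 ^ (32 * n) := lt_of_le_of_lt h3 h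
    have h5 := (Nat.pow_lt_pow_iff_right (by norm_num : 1 < 2)).1 h4
    omega
  lin_zero := by
    intro w
    unfold Lin
    simp [lane_zero]
  lin_w := by
    intro N w w'
    unfold Lin
    simp only [mul_add, Finset.sum_add_distrib]
    ring
  lin_add := lin_add'
  lin_mul := lin_mul'
  lin_single := by
    intro v i j w hv h1 h2 h3
    have h4 := (pos_lt' i j h1 h2).2 h3
    unfold Lin
    have h5 : ∑ r ∈ Finset.range 33,
        lane 32 (Nat.shiftLeft v (Nat.mul 32 (pos i j))) (3003 + r) * w (78 + r) (78 + r) = 0 := by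
      apply Finset.sum_eq_zero
      intro r _
      rw [lane_single _ _ _ hv, if_neg (by omega), zero_mul]
    rw [h5, add_zero, Finset.sum_eq_single (j - 1), Finset.sum_eq_single (i - 1)]
    · rw [lane_single _ _ _ hv, Nat.sub_add_cancel h1, Nat.sub_add_cancel (by omega), if_pos rfl]
    · intro i' hi' hne
      have hi'' := Finset.mem_range.1 hi'
      rw [lane_single _ _ _ hv, if_neg, zero_mul]
      intro h
      have := (pos_inj' _ _ _ _ (by omega) (by omega) h1 h2 h).1
      omega
    · intro h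
      exact absurd (Finset.mem_range.2 (by omega)) h
    · intro j' hj' hne
      apply Finset.sum_eq_zero
      intro i' hi'
      have hi'' := Finset.mem_range.1 hi'
      rw [lane_single _ _ _ hv, if_neg, zero_mul]
      intro h
      have := (pos_inj' _ _ _ _ (by omega) (by omega) h1 h2 h).2
      omega
    · intro h
      exact absurd (Finset.mem_range.2 (by omega)) h
  lin_msk := by
    intro e N w he
    unfold Lin
    apply Nat.ModEq.add
    · apply modEq_sum
      intro j hj
      apply modEq_sum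
      intro i hi
      rw [lane_and_msk _ _ _ he (pos_lt2 (Finset.mem_range.1 hj) (Finset.mem_range.1 hi))]
      exact (Nat.mod_modEq _ _).mul_right _
    · apply modEq_sum
      intro r hr
      have := Finset.mem_range.1 hr
      rw [lane_and_msk _ _ _ he (by omega)]
      exact (Nat.mod_modEq _ _).mul_right _
  lin_kill := by
    classical
    intro xs L w hL hx hw
    have hK := mask_ALL.xor (mask_foldl xs 0 (fun _ => False) (by intro n; simp))
    apply Lin_congr
    · intro i j h1 h2 h3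
      rw [hK.land]
      by_cases h4 : (pos i j < 3003 ↔ (False ∨ ∃ x ∈ xs, Q x (pos i j)))
      · rw [if_neg (not_not.2 h4)]
        have h5 := (pos_lt' i j h1 h2).2 h3
        rcases h4.1 h5 with h6 | ⟨x, hxs, hQ⟩
        · exact h6.elim
        · have h8 : w i j = 0 := by
            apply hw i j h1 h2 h3
            rcases Q_pos x i j (hx x hxs) h1 h2 hQ with h9 | h9
            · left; rw [h9]; exact hxs
            · right; rw [h9]; exact hxs
          rw [h8, zero_mul, mul_zero]
      · rw [if_pos h4]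
    · intro r _
      rw [hK.land, lane_BIG L _ hL (by omega)]
      split_ifs <;> rfl
  lin_off := by
    classical
    intro A w w' hA hd hw
    apply Lin_congr
    · intro i j h1 h2 h3
      rw [mask_OFF.land]
      have h5 := (pos_lt' i j h1 h2).2 h3
      by_cases hij : i = j
      · subst hij
        have h6 : ¬ ¬ (pos i i < 3003 ↔ ∃ k, k < 77 ∧ pos i i = pos (k + 1) (k + 1)) := by
          rw [not_not]
          refine ⟨fun _ => ⟨i - 1, by omega, by rw [Nat.sub_add_cancel h1]⟩, fun _ => h5⟩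
        rw [if_neg h6, hd, mul_zero, zero_mul]
      · have h6 : ¬ (pos i j < 3003 ↔ ∃ k, k < 77 ∧ pos i j = pos (k + 1) (k + 1)) := by
          intro h7
          obtain ⟨k, _, hk⟩ := h7.1 h5
          have := pos_inj' _ _ _ _ h1 h2 (by omega) le_rfl hk
          omega
        rw [if_pos h6, hw i j hij]
    · intro r _
      rw [hd, mul_zero, mask_OFF.land, lane_BIG A _ hA (by omega)]
      split_ifs <;> simp
  lin_divs := by
    intro N S M w hM hM2 hS h
    rw [divs_eq] at h
    obtain ⟨Qt, h2', h3'⟩ := divs'_spec _ _ _ _ h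
    have h4 : ∀ p, p < 3036 → lane 32 Qt p < 2 ^ 24 := by
      intro p hp
      apply small_of_and _ (lane_lt _ _)
      have h5 : lane 32 (Nat.mul 4278190080 ONE) p = 4278190080 := by
        show lane 32 (4278190080 * ONE) p = _
        rw [lane_mul, lane_ONE, if_pos hp]
        intro q _
        rw [lane_ONE]
        split_ifs <;> norm_num
      rw [← h5, ← lane_and_eq, h3', lane_zero]
    have h6 : ∀ p, p < 3036 → M * lane 32 Qt p < 2 ^ 32 - 262144 := by
      intro p hp
      have := h4 p hp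
      calc M * lane 32 Qt p ≤ 255 * (2 ^ 24 - 1) := Nat.mul_le_mul (by omega) (by omega)
        _ < 2 ^ 32 - 262144 := by norm_num
    have h7 : Lin N w = Lin S w + M * Lin Qt w := by
      rw [← h2', lin_add', lin_mul']
      · intro p hp
        have := h6 p hp
        omega
      · intro p hp
        rw [lane_mul]
        · have := h6 p hp
          have := hS p hp
          omega
        · intro q hq
          have := h6 q (by omega)
          omega
    rw [h7]
    show (Lin S w + M * Lin Qt w) % M = Lin S w % M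
    rw [Nat.add_mul_mod_self_left]

end Chk

end MP26f323
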