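import Pool.Agent.Lib.MP_26f323_al.Gl
import Pool.Agent.Lib.MP_26f323_al.Gt
import Pool.Agent.Lib.MP_26f323_al.Ft1
import Pool.Agent.Lib.MP_26f323_al.Ft2

/-!
MP_26f323_al: the packed tables agree with the tables of TAB, part 1.
-/

set_option autoImplicit false
set_option maxRecDepth 100000

namespace MP26f323

open ZonM ClsM

namespace Chk

open GlM

theorem row_9 : rowsOK (nthL 0 lS 9) ft_9 0 = true := by decide +kernel

theorem lnk_9 : gl ft_9 0 = nthL 0 lG 9 :=
  Nat.eq_of_beq_eq_true (by decide +kernel)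

theorem row_10 : rowsOK (nthL 0 lS 10) ft_10 0 = true := by decide +kernel

theorem lnk_10 : gl ft_10 0 = nthL 0 lG 10 :=
  Nat.eq_of_beq_eq_true (by decide +kernel)

theorem row_12 : rowsOK (nthL 0 lS 12) ft_12 0 = true := by decide +kernel

theorem lnk_12 : gl ft_12 0 = nthL 0 lG 12 :=
  Nat.eq_of_beq_eq_true (by decide +kernel)

theorem row_13 : rowsOK (nthL 0 lS 13) ft_13 0 = true := by decide +kernel

theorem lnk_13 : gl ft_13 0 = nthL 0 lG 13 :=
  Nat.eq_of_beq_eq_true (by decide +kernel)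

theorem row_15 : rowsOK (nthL 0 lS 15) ft_15 0 = true := by decide +kernel

theorem lnk_15 : gl ft_15 0 = nthL 0 lG 15 :=
  Nat.eq_of_beq_eq_true (by decide +kernel)

theorem row_16 : rowsOK (nthL 0 lS 16) ft_16 0 = true := by decide +kernel

theorem lnk_16 : gl ft_16 0 = nthL 0 lG 16 :=
  Nat.eq_of_beq_eq_true (by decide +kernel)

theorem row_17 : rowsOK (nthL 0 lS 17) ft_17 0 = true := by decide +kernel

theorem lnk_17 : gl ft_17 0 = nthL 0 lG 17 :=
  Nat.eq_of_beq_eq_true (by decide +kernel)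

theorem row_18 : rowsOK (nthL 0 lS 18) ft_18 0 = true := by decide +kernel

theorem lnk_18 : gl ft_18 0 = nthL 0 lG 18 :=
  Nat.eq_of_beq_eq_true (by decide +kernel)

end Chk

end MP26f323
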