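import Pool.Agent.Lib.MP_26f323_al.Gl
import Pool.Agent.Lib.MP_26f323_al.Gt
import Pool.Agent.Lib.MP_26f323_al.Ft1
import Pool.Agent.Lib.MP_26f323_al.Ft2

/-!
MP_26f323_al: the packed tables agree with the tables of TAB, part 2.
-/

set_option autoImplicit false
set_option maxRecDepth 100000

namespace MP26f323

open ZonM ClsM

namespace Chk

open GlM

theorem row_19 : rowsOK (nthL 0 lS 19) ft_19 0 = true := by decide +kernel

theorem lnk_19 : gl ft_19 0 = nthL 0 lG 19 :=
  Nat.eq_of_beq_eq_true (by decide +kernel)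

theorem row_22 : rowsOK (nthL 0 lS 22) ft_22 0 = true := by decide +kernel

theorem lnk_22 : gl ft_22 0 = nthL 0 lG 22 :=
  Nat.eq_of_beq_eq_true (by decide +kernel)

theorem row_23 : rowsOK (nthL 0 lS 23) ft_23 0 = true := by decide +kernel

theorem lnk_23 : gl ft_23 0 = nthL 0 lG 23 :=
  Nat.eq_of_beq_eq_true (by decide +kernel)

theorem row_24 : rowsOK (nthL 0 lS 24) ft_24 0 = true := by decide +kernel

theorem lnk_24 : gl ft_24 0 = nthL 0 lG 24 :=
  Nat.eq_of_beq_eq_true (by decide +kernel)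

theorem row_25 : rowsOK (nthL 0 lS 25) ft_25 0 = true := by decide +kernel

theorem lnk_25 : gl ft_25 0 = nthL 0 lG 25 :=
  Nat.eq_of_beq_eq_true (by decide +kernel)

theorem row_26 : rowsOK (nthL 0 lS 26) ft_26 0 = true := by decide +kernel

theorem lnk_26 : gl ft_26 0 = nthL 0 lG 26 :=
  Nat.eq_of_beq_eq_true (by decide +kernel)

theorem row_27 : rowsOK (nthL 0 lS 27) ft_27 0 = true := by decide +kernel

theorem lnk_27 : gl ft_27 0 = nthL 0 lG 27 :=
  Nat.eq_of_beq_eq_true (by decide +kernel)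

theorem row_28 : rowsOK (nthL 0 lS 28) ft_28 0 = true := by decide +kernel

theorem lnk_28 : gl ft_28 0 = nthL 0 lG 28 :=
  Nat.eq_of_beq_eq_true (by decide +kernel)

end Chk

end MP26f323
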