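import Pool.Agent.Lib.MP_26f323_al.Gl
import Pool.Agent.Lib.MP_26f323_al.Gt
import Pool.Agent.Lib.MP_26f323_al.Ft1
import Pool.Agent.Lib.MP_26f323_al.Ft2

/-!
MP_26f323_al: the packed tables agree with the tables of TAB, part 3.
-/

set_option autoImplicit false
set_option maxRecDepth 100000

namespace MP26f323

open ZonM ClsM

namespace Chk

open GlM

theorem row_29 : rowsOK (nthL 0 lS 29) ft_29 0 = true := by decide +kernel

theorem lnk_29 : gl ft_29 0 = nthL 0 lG 29 :=
  Nat.eq_of_beq_eq_true (by decide +kernel)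

theorem row_30 : rowsOK (nthL 0 lS 30) ft_30 0 = true := by decide +kernel

theorem lnk_30 : gl ft_30 0 = nthL 0 lG 30 :=
  Nat.eq_of_beq_eq_true (by decide +kernel)

theorem row_31 : rowsOK (nthL 0 lS 31) ft_31 0 = true := by decide +kernel

theorem lnk_31 : gl ft_31 0 = nthL 0 lG 31 :=
  Nat.eq_of_beq_eq_true (by decide +kernel)

theorem row_35 : rowsOK (nthL 0 lS 35) ft_35 0 = true := by decide +kernel

theorem lnk_35 : gl ft_35 0 = nthL 0 lG 35 :=
  Nat.eq_of_beq_eq_true (by decide +kernel)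

theorem rowu_35 : rowsOK (nthL 0 lT 35) fu_35 0 = true := by decide +kernel

theorem lnku_35 : Nat.land (gl fu_35 0) OFF = nthL 0 lU 35 :=
  Nat.eq_of_beq_eq_true (by decide +kernel)

theorem rowd_35 : rowsOK (nthL 0 lT 35) fd_35 0 = true := by decide +kernel

theorem lnkd_35 : Nat.land (gl fd_35 0) OFF = nthL 0 lD 35 :=
  Nat.eq_of_beq_eq_true (by decide +kernel)

theorem row_36 : rowsOK (nthL 0 lS 36) ft_36 0 = true := by decide +kernel

theorem lnk_36 : gl ft_36 0 = nthL 0 lG 36 :=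
  Nat.eq_of_beq_eq_true (by decide +kernel)

theorem row_37 : rowsOK (nthL 0 lS 37) ft_37 0 = true := by decide +kernel

theorem lnk_37 : gl ft_37 0 = nthL 0 lG 37 :=
  Nat.eq_of_beq_eq_true (by decide +kernel)

theorem row_38 : rowsOK (nthL 0 lS 38) ft_38 0 = true := by decide +kernel

theorem lnk_38 : gl ft_38 0 = nthL 0 lG 38 :=
  Nat.eq_of_beq_eq_true (by decide +kernel)

theorem row_39 : rowsOK (nthL 0 lS 39) ft_39 0 = true := by decide +kernel

theorem lnk_39 : gl ft_39 0 = nthL 0 lG 39 :=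
  Nat.eq_of_beq_eq_true (by decide +kernel)

end Chk

end MP26f323
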