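import Pool.Agent.Lib.MP_26f323_al.Gl
import Pool.Agent.Lib.MP_26f323_al.Gt
import Pool.Agent.Lib.MP_26f323_al.Ft1
import Pool.Agent.Lib.MP_26f323_al.Ft2

/-!
MP_26f323_al: the packed tables agree with the tables of TAB, part 4.
-/

set_option autoImplicit false
set_option maxRecDepth 100000

namespace MP26f323

open ZonM ClsM

namespace Chk

open GlM

theorem row_43 : rowsOK (nthL 0 lS 43) ft_43 0 = true := by decide +kernel

theorem lnk_43 : gl ft_43 0 = nthL 0 lG 43 :=
  Nat.eq_of_beq_eq_true (by decide +kernel)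

theorem row_44 : rowsOK (nthL 0 lS 44) ft_44 0 = true := by decide +kernel

theorem lnk_44 : gl ft_44 0 = nthL 0 lG 44 :=
  Nat.eq_of_beq_eq_true (by decide +kernel)

theorem row_45 : rowsOK (nthL 0 lS 45) ft_45 0 = true := by decide +kernel

theorem lnk_45 : gl ft_45 0 = nthL 0 lG 45 :=
  Nat.eq_of_beq_eq_true (by decide +kernel)

theorem row_49 : rowsOK (nthL 0 lS 49) ft_49 0 = true := by decide +kernel

theorem lnk_49 : gl ft_49 0 = nthL 0 lG 49 :=
  Nat.eq_of_beq_eq_true (by decide +kernel)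

theorem row_54 : rowsOK (nthL 0 lS 54) ft_54 0 = true := by decide +kernel

theorem lnk_54 : gl ft_54 0 = nthL 0 lG 54 :=
  Nat.eq_of_beq_eq_true (by decide +kernel)

theorem row_56 : rowsOK (nthL 0 lS 56) ft_56 0 = true := by decide +kernel

theorem lnk_56 : gl ft_56 0 = nthL 0 lG 56 :=
  Nat.eq_of_beq_eq_true (by decide +kernel)

theorem row_58 : rowsOK (nthL 0 lS 58) ft_58 0 = true := by decide +kernel

theorem lnk_58 : gl ft_58 0 = nthL 0 lG 58 :=
  Nat.eq_of_beq_eq_true (by decide +kernel)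

theorem row_59 : rowsOK (nthL 0 lS 59) ft_59 0 = true := by decide +kernel

theorem lnk_59 : gl ft_59 0 = nthL 0 lG 59 :=
  Nat.eq_of_beq_eq_true (by decide +kernel)

theorem rowu_59 : rowsOK (nthL 0 lT 59) fu_59 0 = true := by decide +kernel

theorem lnku_59 : Nat.land (gl fu_59 0) OFF = nthL 0 lU 59 :=
  Nat.eq_of_beq_eq_true (by decide +kernel)

theorem rowd_59 : rowsOK (nthL 0 lT 59) fd_59 0 = true := by decide +kernel

theorem lnkd_59 : Nat.land (gl fd_59 0) OFF = nthL 0 lD 59 :=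
  Nat.eq_of_beq_eq_true (by decide +kernel)

end Chk

end MP26f323
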