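import Pool.Agent.Lib.MP_26f323_al.Gl
import Pool.Agent.Lib.MP_26f323_al.Gt
import Pool.Agent.Lib.MP_26f323_al.Ft1
import Pool.Agent.Lib.MP_26f323_al.Ft2

/-!
MP_26f323_al: the packed tables agree with the tables of TAB, part 5.
-/

set_option autoImplicit false
set_option maxRecDepth 100000

namespace MP26f323

open ZonM ClsM

namespace Chk

open GlM

theorem row_61 : rowsOK (nthL 0 lS 61) ft_61 0 = true := by decide +kernel

theorem lnk_61 : gl ft_61 0 = nthL 0 lG 61 :=
  Nat.eq_of_beq_eq_true (by decide +kernel)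

theorem row_65 : rowsOK (nthL 0 lS 65) ft_65 0 = true := by decide +kernel

theorem lnk_65 : gl ft_65 0 = nthL 0 lG 65 :=
  Nat.eq_of_beq_eq_true (by decide +kernel)

theorem row_67 : rowsOK (nthL 0 lS 67) ft_67 0 = true := by decide +kernel

theorem lnk_67 : gl ft_67 0 = nthL 0 lG 67 :=
  Nat.eq_of_beq_eq_true (by decide +kernel)

theorem row_69 : rowsOK (nthL 0 lS 69) ft_69 0 = true := by decide +kernel

theorem lnk_69 : gl ft_69 0 = nthL 0 lG 69 :=
  Nat.eq_of_beq_eq_true (by decide +kernel)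

theorem row_72 : rowsOK (nthL 0 lS 72) ft_72 0 = true := by decide +kernel

theorem lnk_72 : gl ft_72 0 = nthL 0 lG 72 :=
  Nat.eq_of_beq_eq_true (by decide +kernel)

theorem row_73 : rowsOK (nthL 0 lS 73) ft_73 0 = true := by decide +kernel

theorem lnk_73 : gl ft_73 0 = nthL 0 lG 73 :=
  Nat.eq_of_beq_eq_true (by decide +kernel)

theorem row_74 : rowsOK (nthL 0 lS 74) ft_74 0 = true := by decide +kernel

theorem lnk_74 : gl ft_74 0 = nthL 0 lG 74 :=
  Nat.eq_of_beq_eq_true (by decide +kernel)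

theorem rowu_74 : rowsOK (nthL 0 lT 74) fu_74 0 = true := by decide +kernel

theorem lnku_74 : Nat.land (gl fu_74 0) OFF = nthL 0 lU 74 :=
  Nat.eq_of_beq_eq_true (by decide +kernel)

theorem rowd_74 : rowsOK (nthL 0 lT 74) fd_74 0 = true := by decide +kernel

theorem lnkd_74 : Nat.land (gl fd_74 0) OFF = nthL 0 lD 74 :=
  Nat.eq_of_beq_eq_true (by decide +kernel)

theorem row_76 : rowsOK (nthL 0 lS 76) ft_76 0 = true := by decide +kernel

theorem lnk_76 : gl ft_76 0 = nthL 0 lG 76 :=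
  Nat.eq_of_beq_eq_true (by decide +kernel)

theorem row_77 : rowsOK (nthL 0 lS 77) ft_77 0 = true := by decide +kernel

theorem lnk_77 : gl ft_77 0 = nthL 0 lG 77 :=
  Nat.eq_of_beq_eq_true (by decide +kernel)

end Chk

end MP26f323
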