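import Pool.Agent.Lib.MP_26f323_al.TabG
import Pool.Agent.Lib.MP_26f323_al.Ft1
import Pool.Agent.Lib.MP_26f323_al.Ft2

/-!
MP_26f323_al, module TAB: kernel computation of the tables.
-/

set_option autoImplicit false

namespace MP26f323

open TabM

/-- orbit representatives of the slabs with their multiplicities -/
def TabM.W2 : List (ℕ × ℕ) := [(nat_lit 0, nat_lit 2), (nat_lit 1, nat_lit 8), (nat_lit 8, nat_lit 2), (nat_lit 12, nat_lit 8), (nat_lit 13, nat_lit 16), (nat_lit 16, nat_lit 16), (nat_lit 20, nat_lit 8)]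

/-- symmetries -/
def TabM.X2 : ℕ := 0x17cd83cd17d49b4d17cc17d01a8d83cc83d01a949b501a9003cd97cd03d49a8d03cc03d01b4d97cc97d01b549a901b5007d40d500d4d0d5407d007cd8010889007cc800d888d800c089487d087cd00148d508d4d0890001087cc088d000d000c07c80d411b41000807c11a8103c117c18000088100010000

theorem TabM.L2 : chkL (RR 2 TabM.W2) ft_2 = true := by
  decide +kernel

theorem tab_2 (hS : SpecCls) : TabOK 2 ft_2 :=
  tab_sound hS (X := TabM.X2) (WL := TabM.W2) (by norm_num) (by decide +kernel)
    (by decide +kernel) TabM.L2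

/-- orbit representatives of the slabs with their multiplicities -/
def TabM.W29 : List (ℕ × ℕ) := [(nat_lit 0, nat_lit 1), (nat_lit 1, nat_lit 10), (nat_lit 3, nat_lit 5), (nat_lit 5, nat_lit 10), (nat_lit 8, nat_lit 5), (nat_lit 11, nat_lit 5), (nat_lit 16, nat_lit 2), (nat_lit 17, nat_lit 10), (nat_lit 18, nat_lit 10), (nat_lit 32, nat_lit 2)]

/-- symmetries -/
def TabM.X29 : ℕ := 0x18b42d2405202d100c340d102c342c140c5405141814010018842d1402002d2004b00d202c802c142c5419240454011005240d200c8002000d1004800c502c502cb4012019140c10192018141910051004500120011001000c100cb00430183000b41854005000801854041000500410003400100010000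

theorem TabM.L29 : chkL (RR 29 TabM.W29) ft_29 = true := by
  decide +kernel

theorem tab_29 (hS : SpecCls) : TabOK 29 ft_29 :=
  tab_sound hS (X := TabM.X29) (WL := TabM.W29) (by norm_num) (by decide +kernel)
    (by decide +kernel) TabM.L29

/-- orbit representatives of the slabs with their multiplicities -/
def TabM.W37 : List (ℕ × ℕ) := [(nat_lit 0, nat_lit 2), (nat_lit 1, nat_lit 4), (nat_lit 2, nat_lit 4), (nat_lit 8, nat_lit 1), (nat_lit 11, nat_lit 1), (nat_lit 12, nat_lit 8), (nat_lit 13, nat_lit 8), (nat_lit 14, nat_lit 8), (nat_lit 16, nat_lit 4), (nat_lit 17, nat_lit 4), (nat_lit 20, nat_lit 2), (nat_lit 23, nat_lit 2), (nat_lit 36, nat_lit 4), (nat_lit 38, nat_lit 2), (nat_lit 39, nat_lit 4), (nat_lit 45, nat_lit 2)]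

/-- symmetries -/
def TabM.X37 : ℕ := 0x5a8edb4e2d66db4d5a8c2d645a8ddb4ca7e463ed63e7a7e763cdf7cd002df7ce63cc88a763cef7cc0027002688a400242d5763d02d4d63d42d512d4e889188902d4c888e888d888c0017a7d0a7cd0014a7d1a7ce00110010a7cc000e000d000c000b2d4163c100082d425a8263c25a81a7c0000200010000

theorem TabM.L37 : chkL (RR 37 TabM.W37) ft_37 = true := by
  decide +kernel

theorem tab_37 (hS : SpecCls) : TabOK 37 ft_37 :=
  tab_sound hS (X := TabM.X37) (WL := TabM.W37) (by norm_num) (by decide +kernel)
    (by decide +kernel) TabM.L37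

/-- orbit representatives of the slabs with their multiplicities -/
def TabM.W39 : List (ℕ × ℕ) := [(nat_lit 0, nat_lit 2), (nat_lit 2, nat_lit 1), (nat_lit 3, nat_lit 4), (nat_lit 4, nat_lit 4), (nat_lit 5, nat_lit 4), (nat_lit 9, nat_lit 2), (nat_lit 10, nat_lit 4), (nat_lit 12, nat_lit 2), (nat_lit 14, nat_lit 1), (nat_lit 15, nat_lit 4), (nat_lit 16, nat_lit 4), (nat_lit 17, nat_lit 4), (nat_lit 21, nat_lit 2), (nat_lit 22, nat_lit 4), (nat_lit 30, nat_lit 4), (nat_lit 32, nat_lit 2), (nat_lit 33, nat_lit 4), (nat_lit 34, nat_lit 4), (nat_lit 35, nat_lit 4)]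

/-- symmetries -/
def TabM.X39 : ℕ := 0xad23ad21ad2220a320a120a2ad0a208a2089ad162096209588a388a288a120a0209e889ead05ad04ad03ad11ad10ad0f0023002200210020ad1e001e20852084208320912090208f88960016001588918890888f00110010000f000e888c000c888a000a0009888588848883000500040003000288800000

theorem TabM.L39 : chkL (RR 39 TabM.W39) ft_39 = true := by
  decide +kernel

theorem tab_39 (hS : SpecCls) : TabOK 39 ft_39 :=
  tab_sound hS (X := TabM.X39) (WL := TabM.W39) (by norm_num) (by decide +kernel)
    (by decide +kernel) TabM.L39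

/-- orbit representatives of the slabs with their multiplicities -/
def TabM.W59 : List (ℕ × ℕ) := [(nat_lit 0, nat_lit 1), (nat_lit 1, nat_lit 1), (nat_lit 2, nat_lit 1), (nat_lit 3, nat_lit 2), (nat_lit 4, nat_lit 2), (nat_lit 5, nat_lit 2), (nat_lit 6, nat_lit 2), (nat_lit 7, nat_lit 2), (nat_lit 8, nat_lit 2), (nat_lit 9, nat_lit 2), (nat_lit 10, nat_lit 2), (nat_lit 11, nat_lit 2), (nat_lit 12, nat_lit 2), (nat_lit 13, nat_lit 1), (nat_lit 15, nat_lit 2), (nat_lit 16, nat_lit 2), (nat_lit 17, nat_lit 1), (nat_lit 18, nat_lit 1), (nat_lit 20, nat_lit 2), (nat_lit 22, nat_lit 1), (nat_lit 24, nat_lit 2), (nat_lit 25, nat_lit 2), (nat_lit 26, nat_lit 1), (nat_lit 30, nat_lit 1), (nat_lit 31, nat_lit 2), (nat_lit 32, nat_lit 2), (nat_lit 33, nat_lit 2), (nat_lit 34, nat_lit 2), (nat_lit 35, nat_lit 1), (nat_lit 36, nat_lit 1), (nat_lit 38, nat_lit 2), (nat_lit 42, nat_lit 2), (nat_lit 43, nat_lit 1), (nat_lit 46, nat_lit 1), (nat_lit 47, nat_lit 2), (nat_lit 49, nat_lit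 1), (nat_lit 56, nat_lit 1), (nat_lit 57, nat_lit 1)]

/-- symmetries -/
def TabM.X59 : ℕ := 0x6c616c6a003900386c6f6c606c4b6c456c476c5900316c66002f002e6c5f6c62002b002a6c436c496c4600266c5800240023002200210020001f001e6c4a6c446c48001a001900186c5000166c5400146c4f001200110010000f6c4c000d000c000b000a0009000800070006000500040003000200010000

theorem TabM.L59 : chkL2 (RR 59 TabM.W59) fu_59 fd_59 = true := by
  decide +kernel

theorem tab2_59 (hS : SpecCls) : TabOK2 59 fu_59 fd_59 :=
  tab_sound2 hS (X := TabM.X59) (WL := TabM.W59) (by norm_num) (by decide +kernel)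
    (by decide +kernel) (by decide +kernel) TabM.L59

theorem tab_59 (hS : SpecCls) : TabOK 59 ft_59 :=
  tab_sound hS (X := TabM.X59) (WL := TabM.W59) (by norm_num) (by decide +kernel)
    (by decide +kernel) (chkL_of_chkL2 TabM.L59 (by decide +kernel))

end MP26f323
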