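import Pool.Agent.Lib.MP_26f323_al.TabG
import Pool.Agent.Lib.MP_26f323_al.Ft1
import Pool.Agent.Lib.MP_26f323_al.Ft2

/-!
MP_26f323_al, module TAB: kernel computation of the tables.
-/

set_option autoImplicit false

namespace MP26f323

open TabM

/-- orbit representatives of the slabs with their multiplicities -/
def TabM.W23 : List (ℕ × ℕ) := [(nat_lit 0, nat_lit 1), (nat_lit 1, nat_lit 10), (nat_lit 3, nat_lit 5), (nat_lit 5, nat_lit 10), (nat_lit 8, nat_lit 5), (nat_lit 11, nat_lit 5), (nat_lit 16, nat_lit 2), (nat_lit 17, nat_lit 10), (nat_lit 18, nat_lit 10), (nat_lit 32, nat_lit 2)]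

/-- symmetries -/
def TabM.X23 : ℕ := 0x18b42d2405202d100c340d102c342c140c5405141814010018842d1402002d2004b00d202c802c142c5419240454011005240d200c8002000d1004800c502c502cb4012019140c10192018141910051004500120011001000c100cb00430183000b41854005000801854041000500410003400100010000

theorem TabM.L23 : chkL (RR 23 TabM.W23) ft_23 = true := by
  decide +kernel

theorem tab_23 (hS : SpecCls) : TabOK 23 ft_23 :=
  tab_sound hS (X := TabM.X23) (WL := TabM.W23) (by norm_num) (by decide +kernel)
    (by decide +kernel) TabM.L23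

/-- orbit representatives of the slabs with their multiplicities -/
def TabM.W36 : List (ℕ × ℕ) := [(nat_lit 0, nat_lit 2), (nat_lit 2, nat_lit 1), (nat_lit 3, nat_lit 2), (nat_lit 4, nat_lit 2), (nat_lit 5, nat_lit 2), (nat_lit 6, nat_lit 2), (nat_lit 7, nat_lit 1), (nat_lit 12, nat_lit 1), (nat_lit 13, nat_lit 2), (nat_lit 15, nat_lit 2), (nat_lit 16, nat_lit 2), (nat_lit 17, nat_lit 2), (nat_lit 18, nat_lit 2), (nat_lit 20, nat_lit 1), (nat_lit 24, nat_lit 2), (nat_lit 25, nat_lit 2), (nat_lit 26, nat_lit 2), (nat_lit 27, nat_lit 2), (nat_lit 28, nat_lit 2), (nat_lit 29, nat_lit 2), (nat_lit 30, nat_lit 2), (nat_lit 31, nat_lit 2), (nat_lit 32, nat_lit 2), (nat_lit 33, nat_lit 2), (nat_lit 34, nat_lit 2), (nat_lit 35, nat_lit 2), (nat_lit 36, nat_lit 2), (nat_lit 38, nat_lit 1), (nat_lit 39, nat_lit 2), (nat_lit 40, nat_lit 1), (nat_lit 42, nat_lit 2), (nat_lit 43, nat_lit 2), (nat_lit 44, nat_lit 2)]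

/-- symmetries -/
def TabM.X36 : ℕ := 0xa81fa81ea820a821a823a822a81da81ba81ca818a819a81aa82aa82ca82b002c002b002aa827002800270026a82400240023002200210020001f001e001d001c001b001a00190018a80fa810a8110014a812001200110010000fa80d000d000ca805a803a804a806000700060005000400030002a8000000

theorem TabM.L36 : chkL (RR 36 TabM.W36) ft_36 = true := by
  decide +kernel

theorem tab_36 (hS : SpecCls) : TabOK 36 ft_36 :=
  tab_sound hS (X := TabM.X36) (WL := TabM.W36) (by norm_num) (by decide +kernel)
    (by decide +kernel) TabM.L36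

/-- orbit representatives of the slabs with their multiplicities -/
def TabM.W43 : List (ℕ × ℕ) := [(nat_lit 0, nat_lit 2), (nat_lit 2, nat_lit 1), (nat_lit 3, nat_lit 4), (nat_lit 4, nat_lit 4), (nat_lit 5, nat_lit 8), (nat_lit 7, nat_lit 2), (nat_lit 12, nat_lit 1), (nat_lit 13, nat_lit 2), (nat_lit 15, nat_lit 4), (nat_lit 16, nat_lit 8), (nat_lit 17, nat_lit 4), (nat_lit 20, nat_lit 2), (nat_lit 30, nat_lit 8), (nat_lit 31, nat_lit 4), (nat_lit 32, nat_lit 4), (nat_lit 34, nat_lit 2)]

/-- symmetries -/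
def TabM.X43 : ℕ := 0x881f881e48a0ddde6d1e20a2ac45ac436d04ac4fac504891ac5f6d20ac5e20a0209e209ffd8520876d052094ddd04890fd9e0022489e0020001f001e20852084208320912090208f880f88106d110014fd906d1000110010000f488d000d000c880588034884ddc500074885000500040003000288000000

theorem TabM.L43 : chkL (RR 43 TabM.W43) ft_43 = true := by
  decide +kernel

theorem tab_43 (hS : SpecCls) : TabOK 43 ft_43 :=
  tab_sound hS (X := TabM.X43) (WL := TabM.W43) (by norm_num) (by decide +kernel)
    (by decide +kernel) TabM.L43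

/-- orbit representatives of the slabs with their multiplicities -/
def TabM.W51 : List (ℕ × ℕ) := [(nat_lit 0, nat_lit 2), (nat_lit 2, nat_lit 1), (nat_lit 3, nat_lit 4), (nat_lit 4, nat_lit 4), (nat_lit 5, nat_lit 2), (nat_lit 6, nat_lit 4), (nat_lit 8, nat_lit 2), (nat_lit 9, nat_lit 2), (nat_lit 12, nat_lit 2), (nat_lit 14, nat_lit 1), (nat_lit 15, nat_lit 4), (nat_lit 16, nat_lit 4), (nat_lit 17, nat_lit 2), (nat_lit 18, nat_lit 4), (nat_lit 20, nat_lit 2), (nat_lit 21, nat_lit 2), (nat_lit 30, nat_lit 4), (nat_lit 32, nat_lit 2), (nat_lit 33, nat_lit 4), (nat_lit 34, nat_lit 4), (nat_lit 42, nat_lit 4)]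

/-- symmetries -/
def TabM.X51 : ℕ := 0x795e8d218d22796a7961fda2fd86fd838d097952794f7955fdaa7962fda179608d2a002a8d058d048d0379518d108d0ffd9e0022002100208d1e001e8d08fd848d06795479508d12fd8ffd9200150014fd90001200110010000f000e794c000c79437946000900087944000600050004000300028d000000

theorem TabM.L51 : chkL (RR 51 TabM.W51) ft_51 = true := by
  decide +kernel

theorem tab_51 (hS : SpecCls) : TabOK 51 ft_51 :=
  tab_sound hS (X := TabM.X51) (WL := TabM.W51) (by norm_num) (by decide +kernel)
    (by decide +kernel) TabM.L51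

/-- orbit representatives of the slabs with their multiplicities -/
def TabM.W77 : List (ℕ × ℕ) := [(nat_lit 0, nat_lit 2), (nat_lit 1, nat_lit 5), (nat_lit 2, nat_lit 10), (nat_lit 3, nat_lit 10), (nat_lit 8, nat_lit 10), (nat_lit 9, nat_lit 10), (nat_lit 11, nat_lit 5), (nat_lit 26, nat_lit 5), (nat_lit 32, nat_lit 2), (nat_lit 45, nat_lit 1)]

/-- symmetries -/
def TabM.X77 : ℕ := 0x18b02da005a9a4200c39cc802c302c200c99a4801829a6001889d08002d9d09004b9cc902c802c102c9019a00499d489a4900da00c800209d0200489d039a4302cb001a9d4200c29a8901819a889a829a839d499cc29a4000c100cb00430183000b0189000900089d4300429cc300410003000200010000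

theorem TabM.L77 : chkL (RR 77 TabM.W77) ft_77 = true := by
  decide +kernel

theorem tab_77 (hS : SpecCls) : TabOK 77 ft_77 :=
  tab_sound hS (X := TabM.X77) (WL := TabM.W77) (by norm_num) (by decide +kernel)
    (by decide +kernel) TabM.L77

end MP26f323
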