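import Pool.Agent.Lib.MP_26f323_al.TabG
import Pool.Agent.Lib.MP_26f323_al.Ft1
import Pool.Agent.Lib.MP_26f323_al.Ft2

/-!
MP_26f323_al, module TAB: kernel computation of the tables.
-/

set_option autoImplicit false

namespace MP26f323

open TabM

/-- orbit representatives of the slabs with their multiplicities -/
def TabM.W3 : List (ℕ × ℕ) := [(nat_lit 0, nat_lit 1), (nat_lit 1, nat_lit 10), (nat_lit 3, nat_lit 5), (nat_lit 5, nat_lit 10), (nat_lit 8, nat_lit 5), (nat_lit 11, nat_lit 5), (nat_lit 16, nat_lit 2), (nat_lit 17, nat_lit 10), (nat_lit 18, nat_lit 10), (nat_lit 32, nat_lit 2)]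

/-- symmetries -/
def TabM.X3 : ℕ := 0x18b42d2405202d100c340d102c342c140c5405141814010018842d1402002d2004b00d202c802c142c5419240454011005240d200c8002000d1004800c502c502cb4012019140c10192018141910051004500120011001000c100cb00430183000b41854005000801854041000500410003400100010000

theorem TabM.L3 : chkL (RR 3 TabM.W3) ft_3 = true := by
  decide +kernel

theorem tab_3 (hS : SpecCls) : TabOK 3 ft_3 :=
  tab_sound hS (X := TabM.X3) (WL := TabM.W3) (by norm_num) (by decide +kernel)
    (by decide +kernel) TabM.L3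

/-- orbit representatives of the slabs with their multiplicities -/
def TabM.W31 : List (ℕ × ℕ) := [(nat_lit 0, nat_lit 2), (nat_lit 1, nat_lit 4), (nat_lit 3, nat_lit 4), (nat_lit 4, nat_lit 8), (nat_lit 6, nat_lit 8), (nat_lit 7, nat_lit 8), (nat_lit 8, nat_lit 8), (nat_lit 30, nat_lit 8), (nat_lit 32, nat_lit 4), (nat_lit 45, nat_lit 4), (nat_lit 47, nat_lit 2)]

/-- symmetries -/
def TabM.X31 : ℕ := 0xaf00ad28ad2d202d1ea09e2d082d072d06a088a087a086002f2d2d002d00a0009e8d1e0088008700868d088d078d0628a0a01e289e0020889e001e2d0400840083a0848d04a083a008a007a006888888878886a0048884a003a0018881a000288828872886000800070006288400040003288100010000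

theorem TabM.L31 : chkL (RR 31 TabM.W31) ft_31 = true := by
  decide +kernel

theorem tab_31 (hS : SpecCls) : TabOK 31 ft_31 :=
  tab_sound hS (X := TabM.X31) (WL := TabM.W31) (by norm_num) (by decide +kernel)
    (by decide +kernel) TabM.L31

/-- orbit representatives of the slabs with their multiplicities -/
def TabM.W44 : List (ℕ × ℕ) := [(nat_lit 0, nat_lit 2), (nat_lit 1, nat_lit 2), (nat_lit 2, nat_lit 2), (nat_lit 3, nat_lit 2), (nat_lit 4, nat_lit 2), (nat_lit 5, nat_lit 2), (nat_lit 6, nat_lit 2), (nat_lit 7, nat_lit 2), (nat_lit 8, nat_lit 2), (nat_lit 9, nat_lit 2), (nat_lit 10, nat_lit 2), (nat_lit 11, nat_lit 2), (nat_lit 12, nat_lit 2), (nat_lit 13, nat_lit 2), (nat_lit 14, nat_lit 1), (nat_lit 15, nat_lit 2), (nat_lit 16, nat_lit 1), (nat_lit 17, nat_lit 2), (nat_lit 19, nat_lit 1), (nat_lit 21, nat_lit 1), (nat_lit 36, nat_lit 2), (nat_lit 37, nat_lit 2), (nat_lit 38, nat_lit 2), (nat_lit 39, nat_lit 2), (nat_lit 40, nat_lit 2), (nat_lit 41, nat_lit 2), (nat_lit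 42, nat_lit 2), (nat_lit 43, nat_lit 2), (nat_lit 44, nat_lit 2), (nat_lit 45, nat_lit 2), (nat_lit 46, nat_lit 2), (nat_lit 47, nat_lit 2)]

/-- symmetries -/
def TabM.X44 : ℕ := 0xbaabbaa5baa7baa8baacbaaebaaabaafbaa6baa4baa9baad002f002e002d002c002b002a002900280027002600250024ba83ba8aba82ba80ba84ba86ba85ba87ba8bba89ba81ba88ba8cba910015ba8f0013ba8d00110010000f000e000d000c000b000a0009000800070006000500040003000200010000

theorem TabM.L44 : chkL (RR 44 TabM.W44) ft_44 = true := by
  decide +kernel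

theorem tab_44 (hS : SpecCls) : TabOK 44 ft_44 :=
  tab_sound hS (X := TabM.X44) (WL := TabM.W44) (by norm_num) (by decide +kernel)
    (by decide +kernel) TabM.L44

/-- orbit representatives of the slabs with their multiplicities -/
def TabM.W45 : List (ℕ × ℕ) := [(nat_lit 0, nat_lit 2), (nat_lit 2, nat_lit 1), (nat_lit 3, nat_lit 8), (nat_lit 4, nat_lit 2), (nat_lit 6, nat_lit 4), (nat_lit 7, nat_lit 4), (nat_lit 12, nat_lit 2), (nat_lit 13, nat_lit 1), (nat_lit 15, nat_lit 8), (nat_lit 17, nat_lit 2), (nat_lit 18, nat_lit 4), (nat_lit 20, nat_lit 4), (nat_lit 30, nat_lit 4), (nat_lit 31, nat_lit 8), (nat_lit 32, nat_lit 4), (nat_lit 46, nat_lit 2)]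

/-- symmetries -/
def TabM.X45 : ℕ := 0xdd9f681f00aebcdebcdf6c60bcc6dd836c47ddcfbcd26814dddf002e6c5f00a0009e009f6c43008700860094680f0092b95e6820b95f0020001f001ebcc3008400830091bccf008fdd8fb9526c5400146c4f00120011b94f000f680c000d000cb946ddc36807680300070006b943000400030002b9400000

theorem TabM.L45 : chkL (RR 45 TabM.W45) ft_45 = true := by
  decide +kernel

theorem tab_45 (hS : SpecCls) : TabOK 45 ft_45 :=
  tab_sound hS (X := TabM.X45) (WL := TabM.W45) (by norm_num) (by decide +kernel)
    (by decide +kernel) TabM.L45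

/-- orbit representatives of the slabs with their multiplicities -/
def TabM.W61 : List (ℕ × ℕ) := [(nat_lit 0, nat_lit 2), (nat_lit 2, nat_lit 1), (nat_lit 3, nat_lit 2), (nat_lit 4, nat_lit 4), (nat_lit 5, nat_lit 4), (nat_lit 7, nat_lit 2), (nat_lit 8, nat_lit 4), (nat_lit 10, nat_lit 2), (nat_lit 12, nat_lit 1), (nat_lit 13, nat_lit 2), (nat_lit 15, nat_lit 4), (nat_lit 16, nat_lit 4), (nat_lit 17, nat_lit 2), (nat_lit 18, nat_lit 4), (nat_lit 20, nat_lit 2), (nat_lit 21, nat_lit 2), (nat_lit 30, nat_lit 4), (nat_lit 31, nat_lit 4), (nat_lit 32, nat_lit 4), (nat_lit 34, nat_lit 2), (nat_lit 43, nat_lit 4)]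

/-- symmetries -/
def TabM.X61 : ℕ := 0xfd9f8c6b68a0fdab68ab68a28c458c438c448c4f8c5068918c5f8c608c5efda0002b689ffd858c478c4868948c526890fd9e0022689e0020001f001efd88fd848c4a68956892688ffd8ffd9200150014fd90001200110010000f688d000d000c6888000a688400080007688500050004000300028c400000

theorem TabM.L61 : chkL (RR 61 TabM.W61) ft_61 = true := by
  decide +kernel

theorem tab_61 (hS : SpecCls) : TabOK 61 ft_61 :=
  tab_sound hS (X := TabM.X61) (WL := TabM.W61) (by norm_num) (by decide +kernel)
    (by decide +kernel) TabM.L61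

end MP26f323
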