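import Pool.Agent.Lib.MP_26f323_al.TabG
import Pool.Agent.Lib.MP_26f323_al.TabK0
import Pool.Agent.Lib.MP_26f323_al.Ft1
import Pool.Agent.Lib.MP_26f323_al.Ft2

/-!
MP_26f323_al, module TAB: kernel computation of the tables.
-/

set_option autoImplicit false

namespace MP26f323

open TabM

/-- orbit representatives of the slabs with their multiplicities -/
def TabM.W8 : List (ℕ × ℕ) := [(nat_lit 0, nat_lit 1), (nat_lit 1, nat_lit 4), (nat_lit 3, nat_lit 2), (nat_lit 4, nat_lit 4), (nat_lit 8, nat_lit 1), (nat_lit 12, nat_lit 4), (nat_lit 14, nat_lit 2), (nat_lit 15, nat_lit 8), (nat_lit 16, nat_lit 8), (nat_lit 17, nat_lit 4), (nat_lit 18, nat_lit 8), (nat_lit 19, nat_lit 2), (nat_lit 27, nat_lit 4), (nat_lit 29, nat_lit 2), (nat_lit 30, nat_lit 2), (nat_lit 31, nat_lit 4)]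

/-- symmetries -/
def TabM.X8 : ℕ := 0x23de63d2f05ff05023db401f995b63cf401dd952d94f4010b04cb050b05223d223cc23d023ce23cfb04fb05140134011b05f63d0b05bf052001f001e001df04f001b4012d950400ff051994f995099520013001200110010000f000e994c000cb04363c463c1000823c4400423c100040003400100010000

theorem TabM.L8 : chkL (RR 8 TabM.W8) ft_8 = true := by
  decide +kernel

theorem tab_8 (hS : SpecCls) : TabOK 8 ft_8 :=
  tab_sound hS (X := TabM.X8) (WL := TabM.W8) (by norm_num) (by decide +kernel)
    (by decide +kernel) TabM.L8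

/-- orbit representatives of the slabs with their multiplicities -/
def TabM.W15 : List (ℕ × ℕ) := [(nat_lit 0, nat_lit 1), (nat_lit 1, nat_lit 2), (nat_lit 3, nat_lit 2), (nat_lit 4, nat_lit 4), (nat_lit 5, nat_lit 4), (nat_lit 7, nat_lit 4), (nat_lit 8, nat_lit 2), (nat_lit 11, nat_lit 2), (nat_lit 12, nat_lit 2), (nat_lit 14, nat_lit 1), (nat_lit 15, nat_lit 4), (nat_lit 16, nat_lit 2), (nat_lit 17, nat_lit 4), (nat_lit 18, nat_lit 4), (nat_lit 19, nat_lit 2), (nat_lit 21, nat_lit 2), (nat_lit 30, nat_lit 2), (nat_lit 31, nat_lit 4), (nat_lit 32, nat_lit 2), (nat_lit 33, nat_lit 1), (nat_lit 34, nat_lit 4), (nat_lit 43, nat_lit 2), (nat_lit 44, nat_lit 2), (nat_lit 55, nat_lit 1)]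

/-- symmetries -/
def TabM.X15 : ℕ := 0x9ceb402cdce2dcdf0037401f9cc39cc49cc59cd19ccf40109cde9cdf4020002c002b40229cc8dcc49cc79cd2401340119ce2002200210020001f001edcc5dcc79ccb40124015400fdcd2dccf0015dcd10013001200110010000f000e9ccc000c000b40074005000800074004000500040003400100010000

theorem TabM.L15 : chkL (RR 15 TabM.W15) ft_15 = true := by
  decide +kernel

theorem tab_15 (hS : SpecCls) : TabOK 15 ft_15 :=
  tab_sound hS (X := TabM.X15) (WL := TabM.W15) (by norm_num) (by decide +kernel)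
    (by decide +kernel) TabM.L15

/-- orbit representatives of the slabs with their multiplicities -/
def TabM.W25 : List (ℕ × ℕ) := [(nat_lit 0, nat_lit 1), (nat_lit 1, nat_lit 4), (nat_lit 3, nat_lit 4), (nat_lit 4, nat_lit 4), (nat_lit 5, nat_lit 4), (nat_lit 7, nat_lit 8), (nat_lit 8, nat_lit 4), (nat_lit 11, nat_lit 4), (nat_lit 12, nat_lit 1), (nat_lit 16, nat_lit 4), (nat_lit 17, nat_lit 4), (nat_lit 20, nat_lit 4), (nat_lit 23, nat_lit 4), (nat_lit 32, nat_lit 4), (nat_lit 35, nat_lit 4), (nat_lit 47, nat_lit 1), (nat_lit 59, nat_lit 1)]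

/-- symmetries -/
def TabM.X25 : ℕ := 0x3bed23402376a036887694ad08ad073684401476874010002f36a04020ad239d0b3697ad0bed07ed0540179d07401100237697368b002036949d087684ad05ad037690ad11768100173687ed110014dd07369000110010368136839d03000c000b40074005000800074004000500040003400100010000

theorem TabM.L25 : chkL (RR 25 TabM.W25) ft_25 = true := by
  decide +kernel

theorem tab_25 (hS : SpecCls) : TabOK 25 ft_25 :=
  tab_sound hS (X := TabM.X25) (WL := TabM.W25) (by norm_num) (by decide +kernel)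
    (by decide +kernel) TabM.L25

/-- orbit representatives of the slabs with their multiplicities -/
def TabM.W67 : List (ℕ × ℕ) := [(nat_lit 0, nat_lit 2), (nat_lit 1, nat_lit 8), (nat_lit 8, nat_lit 2), (nat_lit 12, nat_lit 8), (nat_lit 13, nat_lit 16), (nat_lit 16, nat_lit 16), (nat_lit 20, nat_lit 8)]

/-- symmetries -/
def TabM.X67 : ℕ := 0x57cd83cd47d4db4d57cc47d01a8d83cc83d06014c890601003cdd7cd03d49a8d03cc03d05b4dd7ccc7d04894e010489027d463d00d4d63d427d047cd8010a89047cc800dc88d800c2894a7d0c7cd0014e3d08d4d28900010c7cc488d000d000c47c847c163c1000827c157c103c137c18000600100010000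

theorem TabM.L67 : chkL (RR 67 TabM.W67) ft_67 = true := by
  decide +kernel

theorem tab_67 (hS : SpecCls) : TabOK 67 ft_67 :=
  tab_sound hS (X := TabM.X67) (WL := TabM.W67) (by norm_num) (by decide +kernel)
    (by decide +kernel) TabM.L67

/-- orbit representatives of the slabs with their multiplicities -/
def TabM.W76 : List (ℕ × ℕ) := [(nat_lit 0, nat_lit 2), (nat_lit 1, nat_lit 1), (nat_lit 2, nat_lit 2), (nat_lit 3, nat_lit 4), (nat_lit 4, nat_lit 2), (nat_lit 5, nat_lit 4), (nat_lit 6, nat_lit 4), (nat_lit 8, nat_lit 4), (nat_lit 9, nat_lit 4), (nat_lit 10, nat_lit 4), (nat_lit 11, nat_lit 2), (nat_lit 14, nat_lit 1), (nat_lit 15, nat_lit 2), (nat_lit 17, nat_lit 4), (nat_lit 19, nat_lit 2), (nat_lit 21, nat_lit 2), (nat_lit 26, nat_lit 2), (nat_lit 30, nat_lit 4), (nat_lit 32, nat_lit 2), (nat_lit 34, nat_lit 2), (nat_lit 37, nat_lit 2), (nat_lit 43, nat_lit 2), (nat_lit 45, nat_lit 1), (nat_lit 58, nat_lit 1)]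

/-- symmetries -/
def TabM.X76 : ℕ := 0x7ceb003a7ce2c186c193c19e7cc37cc67cc9c188bd51c1a07cdebd5e002dc1a5002bbd4a7cc87cc47cca7cda0025bd48c18a0022c1950020bd46001e7cc5c1837ccb001ac182c191c1897ccf00157cd10013bd490011c180000f000ec185bd45000b000a00090008bd430006000500040003000200010000

theorem TabM.L76 : chkL (RR 76 TabM.W76) ft_76 = true := by
  decide +kernel

theorem tab_76 (hS : SpecCls) : TabOK 76 ft_76 :=
  tab_sound hS (X := TabM.X76) (WL := TabM.W76) (by norm_num) (by decide +kernel)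
    (by decide +kernel) TabM.L76

end MP26f323
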