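import Pool.Agent.Lib.MP_26f323_al.TabG
import Pool.Agent.Lib.MP_26f323_al.TabK1
import Pool.Agent.Lib.MP_26f323_al.Ft1
import Pool.Agent.Lib.MP_26f323_al.Ft2

/-!
MP_26f323_al, module TAB: kernel computation of the tables.
-/

set_option autoImplicit false

namespace MP26f323

open TabM

/-- orbit representatives of the slabs with their multiplicities -/
def TabM.W7 : List (ℕ × ℕ) := [(nat_lit 0, nat_lit 1), (nat_lit 1, nat_lit 4), (nat_lit 3, nat_lit 2), (nat_lit 5, nat_lit 4), (nat_lit 11, nat_lit 1), (nat_lit 12, nat_lit 4), (nat_lit 13, nat_lit 2), (nat_lit 15, nat_lit 8), (nat_lit 16, nat_lit 4), (nat_lit 17, nat_lit 8), (nat_lit 21, nat_lit 8), (nat_lit 22, nat_lit 2), (nat_lit 27, nat_lit 4), (nat_lit 28, nat_lit 2), (nat_lit 32, nat_lit 4), (nat_lit 33, nat_lit 2)]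

/-- symmetries -/
def TabM.X7 : ℕ := 0x2f8c2f912f95ba95ba8cba912f8dba8f2f8f2f90401640108821fa9540206f91ba9b6fa0881bfa8f401cc815c80f40116f952fa000210020fa912f9b6f8f001c001bc8114015400f8815001600156f90880f881100110010000f880c000d000c000bc80540052f8388056f8100052f810003400100010000

theorem TabM.L7 : chkL (RR 7 TabM.W7) ft_7 = true := by
  decide +kernel

theorem tab_7 (hS : SpecCls) : TabOK 7 ft_7 :=
  tab_sound hS (X := TabM.X7) (WL := TabM.W7) (by norm_num) (by decide +kernel)
    (by decide +kernel) TabM.L7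

/-- orbit representatives of the slabs with their multiplicities -/
def TabM.W10 : List (ℕ × ℕ) := [(nat_lit 0, nat_lit 1), (nat_lit 1, nat_lit 4), (nat_lit 3, nat_lit 4), (nat_lit 4, nat_lit 4), (nat_lit 5, nat_lit 4), (nat_lit 7, nat_lit 8), (nat_lit 8, nat_lit 4), (nat_lit 11, nat_lit 4), (nat_lit 12, nat_lit 1), (nat_lit 16, nat_lit 4), (nat_lit 17, nat_lit 4), (nat_lit 20, nat_lit 4), (nat_lit 23, nat_lit 4), (nat_lit 32, nat_lit 4), (nat_lit 35, nat_lit 4), (nat_lit 47, nat_lit 1), (nat_lit 59, nat_lit 1)]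

/-- symmetries -/
def TabM.X10 : ℕ := 0x3bcd23402376a0368876948d088d073684401476874010002f36a040208d23bd0b36978d0bcd07cd054017bd07401100237697368b00203694bd0876848d058d0376908d11768100173687cd110014fd0736900011001036813683bd03000c000b40074005000800074004000500040003400100010000

theorem TabM.L10 : chkL (RR 10 TabM.W10) ft_10 = true := by
  decide +kernel

theorem tab_10 (hS : SpecCls) : TabOK 10 ft_10 :=
  tab_sound hS (X := TabM.X10) (WL := TabM.W10) (by norm_num) (by decide +kernel)
    (by decide +kernel) TabM.L10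

/-- orbit representatives of the slabs with their multiplicities -/
def TabM.W13 : List (ℕ × ℕ) := [(nat_lit 0, nat_lit 1), (nat_lit 1, nat_lit 2), (nat_lit 3, nat_lit 2), (nat_lit 4, nat_lit 4), (nat_lit 5, nat_lit 4), (nat_lit 7, nat_lit 4), (nat_lit 8, nat_lit 2), (nat_lit 11, nat_lit 2), (nat_lit 12, nat_lit 2), (nat_lit 13, nat_lit 1), (nat_lit 15, nat_lit 4), (nat_lit 16, nat_lit 4), (nat_lit 17, nat_lit 2), (nat_lit 18, nat_lit 2), (nat_lit 20, nat_lit 4), (nat_lit 22, nat_lit 2), (nat_lit 30, nat_lit 1), (nat_lit 31, nat_lit 4), (nat_lit 33, nat_lit 2), (nat_lit 34, nat_lit 4), (nat_lit 35, nat_lit 2), (nat_lit 43, nat_lit 1), (nat_lit 46, nat_lit 2), (nat_lit 47, nat_lit 2)]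

/-- symmetries -/
def TabM.X13 : ℕ := 0x8c618c624023402e8c6f401f8c4bcc45cc47401440164010002f002ecc5fcc62002b40228c438c458c448c508c4f40110023002200218c5f001f001e8c47cc448c4840128c54400fcc500016cc540014cc4f001200110010000f8c4c000d000c000b40074005000800074004000500040003400100010000

theorem TabM.L13 : chkL (RR 13 TabM.W13) ft_13 = true := by
  decide +kernel

theorem tab_13 (hS : SpecCls) : TabOK 13 ft_13 :=
  tab_sound hS (X := TabM.X13) (WL := TabM.W13) (by norm_num) (by decide +kernel)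
    (by decide +kernel) TabM.L13

/-- orbit representatives of the slabs with their multiplicities -/
def TabM.W16 : List (ℕ × ℕ) := [(nat_lit 0, nat_lit 2), (nat_lit 1, nat_lit 8), (nat_lit 8, nat_lit 2), (nat_lit 12, nat_lit 8), (nat_lit 13, nat_lit 16), (nat_lit 16, nat_lit 16), (nat_lit 20, nat_lit 8)]

/-- symmetries -/
def TabM.X16 : ℕ := 0x17cd83cd67d49b4d17cc67d01a8d83cc83d06014e890601003cd97cd03d49a8d03cc03d01b4d97cce7d06894e010689007d463d00d4d63d407d007cd8010889007cc800d888d800c089487d087cd0014e3d08d4d0890001087cc088d000d000c07c867c163c1000807c177c103c117c18000600100010000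

theorem TabM.L16 : chkL (RR 16 TabM.W16) ft_16 = true := by
  decide +kernel

theorem tab_16 (hS : SpecCls) : TabOK 16 ft_16 :=
  tab_sound hS (X := TabM.X16) (WL := TabM.W16) (by norm_num) (by decide +kernel)
    (by decide +kernel) TabM.L16

/-- orbit representatives of the slabs with their multiplicities -/
def TabM.W72 : List (ℕ × ℕ) := [(nat_lit 0, nat_lit 2), (nat_lit 1, nat_lit 4), (nat_lit 2, nat_lit 4), (nat_lit 3, nat_lit 2), (nat_lit 4, nat_lit 4), (nat_lit 5, nat_lit 4), (nat_lit 6, nat_lit 2), (nat_lit 7, nat_lit 2), (nat_lit 8, nat_lit 4), (nat_lit 9, nat_lit 2), (nat_lit 10, nat_lit 2), (nat_lit 11, nat_lit 4), (nat_lit 13, nat_lit 2), (nat_lit 14, nat_lit 2), (nat_lit 15, nat_lit 4), (nat_lit 17, nat_lit 2), (nat_lit 18, nat_lit 1), (nat_lit 25, nat_lit 2), (nat_lit 26, nat_lit 2), (nat_lit 27, nat_lit 4), (nat_lit 28, nat_lit 2), (nat_lit 33, nat_lit 1), (nat_lit 39, nat_lit 1), (nat_lit 54, nat_lit 1)]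

/-- symmetries -/
def TabM.X72 : ℕ := 0x7783d6c8bd1bd6dad6ca0036bd027784778f77917785d6c4778bd6c0bd0fbd04d6c2d6db778d77860027d6dc7782d6c1bd05d6c500217799d6c7779bbd0b001c001b001a0019d6cbd6ce7789d6cfbd01778100120011bd08000f000e000d7788000b000a0009000800070006000500040003000200010000

theorem TabM.L72 : chkL (RR 72 TabM.W72) ft_72 = true := by
  decide +kernel

theorem tab_72 (hS : SpecCls) : TabOK 72 ft_72 :=
  tab_sound hS (X := TabM.X72) (WL := TabM.W72) (by norm_num) (by decide +kernel)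
    (by decide +kernel) TabM.L72

end MP26f323
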