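import Pool.Agent.Lib.MP_26f323_al.TabG
import Pool.Agent.Lib.MP_26f323_al.TabK2
import Pool.Agent.Lib.MP_26f323_al.Ft1
import Pool.Agent.Lib.MP_26f323_al.Ft2

/-!
MP_26f323_al, module TAB: kernel computation of the tables.
-/

set_option autoImplicit false

namespace MP26f323

open TabM

/-- orbit representatives of the slabs with their multiplicities -/
def TabM.W5 : List (ℕ × ℕ) := [(nat_lit 0, nat_lit 1), (nat_lit 1, nat_lit 2), (nat_lit 3, nat_lit 6), (nat_lit 4, nat_lit 12), (nat_lit 12, nat_lit 3), (nat_lit 15, nat_lit 6), (nat_lit 16, nat_lit 12), (nat_lit 30, nat_lit 6), (nat_lit 31, nat_lit 12)]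

/-- symmetries -/
def TabM.X5 : ℕ := 0x395e681f535f0d9f2d1e401f13433cc46d0468104d8f40103cde4d9f6c5f281f009e009f2c437cc440842c50680f6890135f409f289e2c5f001f001e2d04008400832d100090400f6c500d8f40902810280f6d1028900010000f280c0d8c000c0d8339446884280379444004288400040003400100010000

theorem TabM.L5 : chkL (RR 5 TabM.W5) ft_5 = true := by
  decide +kernel

theorem tab_5 (hS : SpecCls) : TabOK 5 ft_5 :=
  tab_sound hS (X := TabM.X5) (WL := TabM.W5) (by norm_num) (by decide +kernel)
    (by decide +kernel) TabM.L5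

/-- orbit representatives of the slabs with their multiplicities -/
def TabM.W12 : List (ℕ × ℕ) := [(nat_lit 0, nat_lit 1), (nat_lit 1, nat_lit 2), (nat_lit 3, nat_lit 2), (nat_lit 4, nat_lit 4), (nat_lit 5, nat_lit 4), (nat_lit 7, nat_lit 4), (nat_lit 8, nat_lit 2), (nat_lit 11, nat_lit 2), (nat_lit 12, nat_lit 2), (nat_lit 13, nat_lit 1), (nat_lit 15, nat_lit 4), (nat_lit 16, nat_lit 4), (nat_lit 17, nat_lit 2), (nat_lit 18, nat_lit 2), (nat_lit 20, nat_lit 4), (nat_lit 22, nat_lit 2), (nat_lit 30, nat_lit 1), (nat_lit 31, nat_lit 4), (nat_lit 33, nat_lit 2), (nat_lit 34, nat_lit 4), (nat_lit 35, nat_lit 2), (nat_lit 43, nat_lit 1), (nat_lit 46, nat_lit 2), (nat_lit 47, nat_lit 2)]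

/-- symmetries -/
def TabM.X12 : ℕ := 0x8c618c624023402e8c6f401f8c4bcc45cc47401440164010002f002ecc5fcc62002b40228c438c458c448c508c4f40110023002200218c5f001f001e8c47cc448c4840128c54400fcc500016cc540014cc4f001200110010000f8c4c000d000c000b40074005000800074004000500040003400100010000

theorem TabM.L12 : chkL (RR 12 TabM.W12) ft_12 = true := by
  decide +kernel

theorem tab_12 (hS : SpecCls) : TabOK 12 ft_12 :=
  tab_sound hS (X := TabM.X12) (WL := TabM.W12) (by norm_num) (by decide +kernel)
    (by decide +kernel) TabM.L12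

/-- orbit representatives of the slabs with their multiplicities -/
def TabM.W26 : List (ℕ × ℕ) := [(nat_lit 0, nat_lit 1), (nat_lit 1, nat_lit 2), (nat_lit 3, nat_lit 4), (nat_lit 4, nat_lit 8), (nat_lit 5, nat_lit 4), (nat_lit 8, nat_lit 2), (nat_lit 12, nat_lit 2), (nat_lit 14, nat_lit 1), (nat_lit 15, nat_lit 4), (nat_lit 16, nat_lit 4), (nat_lit 17, nat_lit 8), (nat_lit 19, nat_lit 2), (nat_lit 30, nat_lit 4), (nat_lit 31, nat_lit 8), (nat_lit 32, nat_lit 4), (nat_lit 33, nat_lit 2)]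

/-- symmetries -/
def TabM.X26 : ℕ := 0x395e3960395fdcdf3961401f9cc39cc4e0859cd1794f40109cde9cdf40207960a09ea09fa088dcc4e084795140134011795fe09f00210020001f001ea085a084a083a0917950400f3951394f3950dcd10013e09100110010000f000e394c000c394339444005000879444004000500040003400100010000

theorem TabM.L26 : chkL (RR 26 TabM.W26) ft_26 = true := by
  decide +kernel

theorem tab_26 (hS : SpecCls) : TabOK 26 ft_26 :=
  tab_sound hS (X := TabM.X26) (WL := TabM.W26) (by norm_num) (by decide +kernel)
    (by decide +kernel) TabM.L26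

/-- orbit representatives of the slabs with their multiplicities -/
def TabM.W56 : List (ℕ × ℕ) := [(nat_lit 0, nat_lit 2), (nat_lit 2, nat_lit 1), (nat_lit 3, nat_lit 4), (nat_lit 4, nat_lit 4), (nat_lit 5, nat_lit 8), (nat_lit 7, nat_lit 2), (nat_lit 12, nat_lit 1), (nat_lit 13, nat_lit 2), (nat_lit 15, nat_lit 4), (nat_lit 16, nat_lit 8), (nat_lit 17, nat_lit 4), (nat_lit 20, nat_lit 2), (nat_lit 30, nat_lit 8), (nat_lit 31, nat_lit 4), (nat_lit 32, nat_lit 4), (nat_lit 34, nat_lit 2)]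

/-- symmetries -/
def TabM.X56 : ℕ := 0xa81fa81e48a0fdde6d1e20a28c458c436d048c4f8c5048918c5f6d208c5e20a0209e209fdd8520876d052094fdd04890dd9e0022489e0020001f001e20852084208320912090208fa80fa8106d110014dd906d1000110010000f488d000d000ca805a8034884fdc5000748850005000400030002a8000000

theorem TabM.L56 : chkL (RR 56 TabM.W56) ft_56 = true := by
  decide +kernel

theorem tab_56 (hS : SpecCls) : TabOK 56 ft_56 :=
  tab_sound hS (X := TabM.X56) (WL := TabM.W56) (by norm_num) (by decide +kernel)
    (by decide +kernel) TabM.L56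

/-- orbit representatives of the slabs with their multiplicities -/
def TabM.W69 : List (ℕ × ℕ) := [(nat_lit 0, nat_lit 2), (nat_lit 1, nat_lit 1), (nat_lit 2, nat_lit 2), (nat_lit 3, nat_lit 2), (nat_lit 4, nat_lit 4), (nat_lit 5, nat_lit 4), (nat_lit 6, nat_lit 4), (nat_lit 7, nat_lit 2), (nat_lit 8, nat_lit 4), (nat_lit 10, nat_lit 4), (nat_lit 11, nat_lit 4), (nat_lit 13, nat_lit 1), (nat_lit 15, nat_lit 2), (nat_lit 17, nat_lit 2), (nat_lit 20, nat_lit 4), (nat_lit 22, nat_lit 2), (nat_lit 26, nat_lit 2), (nat_lit 32, nat_lit 4), (nat_lit 33, nat_lit 2), (nat_lit 34, nat_lit 2), (nat_lit 35, nat_lit 1), (nat_lit 38, nat_lit 2), (nat_lit 49, nat_lit 2), (nat_lit 56, nat_lit 1)]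

/-- symmetries -/
def TabM.X69 : ℕ := 0x6c61bd05d4710038bd206c606c4b6c456c47bd0b00316c66d460d45abd0a6c62d451d4456c43d4486c460026d454d4420023002200210020d44ad4566c4a6c446c48001ad44bbd14bd0400166c5400146c4fd4400011d444000fbd06000dd446000b000abd08000800070006000500040003000200010000

theorem TabM.L69 : chkL (RR 69 TabM.W69) ft_69 = true := by
  decide +kernel

theorem tab_69 (hS : SpecCls) : TabOK 69 ft_69 :=
  tab_sound hS (X := TabM.X69) (WL := TabM.W69) (by norm_num) (by decide +kernel)
    (by decide +kernel) TabM.L69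

end MP26f323
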