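import Pool.Agent.Lib.MP_26f323_al.TabG
import Pool.Agent.Lib.MP_26f323_al.TabK4
import Pool.Agent.Lib.MP_26f323_al.Ft1
import Pool.Agent.Lib.MP_26f323_al.Ft2

/-!
MP_26f323_al, module TAB: kernel computation of the tables.
-/

set_option autoImplicit false

namespace MP26f323

open TabM

/-- orbit representatives of the slabs with their multiplicities -/
def TabM.W4 : List (ℕ × ℕ) := [(nat_lit 0, nat_lit 1), (nat_lit 1, nat_lit 2), (nat_lit 3, nat_lit 6), (nat_lit 4, nat_lit 12), (nat_lit 12, nat_lit 3), (nat_lit 15, nat_lit 6), (nat_lit 16, nat_lit 12), (nat_lit 30, nat_lit 6), (nat_lit 31, nat_lit 12)]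

/-- symmetries -/
def TabM.X4 : ℕ := 0x1d9e1d9f535f0d9f0d9e401f13435d84134413504d8f40101dde4d9f1ddf5d9f009e009f1d831d8440844d901d8f1d90135f409f135e5ddf001f001e5344008400835dd00090400f0d900d8f409053505d8f1dd05d900010000f1d8c0d8c000c0d835dc40d841dc31dc440044d8400040003400100010000

theorem TabM.L4 : chkL (RR 4 TabM.W4) ft_4 = true := by
  decide +kernel

theorem tab_4 (hS : SpecCls) : TabOK 4 ft_4 :=
  tab_sound hS (X := TabM.X4) (WL := TabM.W4) (by norm_num) (by decide +kernel)
    (by decide +kernel) TabM.L4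

/-- orbit representatives of the slabs with their multiplicities -/
def TabM.W24 : List (ℕ × ℕ) := [(nat_lit 0, nat_lit 1), (nat_lit 1, nat_lit 4), (nat_lit 3, nat_lit 2), (nat_lit 4, nat_lit 8), (nat_lit 7, nat_lit 2), (nat_lit 8, nat_lit 4), (nat_lit 13, nat_lit 4), (nat_lit 15, nat_lit 2), (nat_lit 16, nat_lit 4), (nat_lit 18, nat_lit 8), (nat_lit 20, nat_lit 8), (nat_lit 27, nat_lit 1), (nat_lit 28, nat_lit 4), (nat_lit 30, nat_lit 2), (nat_lit 32, nat_lit 4), (nat_lit 41, nat_lit 2)]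

/-- symmetries -/
def TabM.X24 : ℕ := 0xaec8aed468a0da549a4deed228a9eec1689c40149a4440109a489a544020eed4aecdda520029aec1401c6894aec4689028a09a52289e0020aed2001e289c001c001b40126892400f2894da4428920014eec4001228900010000f288d000daec3288840076884000800074004288400040003400100010000

theorem TabM.L24 : chkL (RR 24 TabM.W24) ft_24 = true := by
  decide +kernel

theorem tab_24 (hS : SpecCls) : TabOK 24 ft_24 :=
  tab_sound hS (X := TabM.X24) (WL := TabM.W24) (by norm_num) (by decide +kernel)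
    (by decide +kernel) TabM.L24

/-- orbit representatives of the slabs with their multiplicities -/
def TabM.W35 : List (ℕ × ℕ) := [(nat_lit 0, nat_lit 1), (nat_lit 1, nat_lit 4), (nat_lit 2, nat_lit 4), (nat_lit 3, nat_lit 1), (nat_lit 8, nat_lit 1), (nat_lit 11, nat_lit 1), (nat_lit 12, nat_lit 4), (nat_lit 13, nat_lit 4), (nat_lit 14, nat_lit 4), (nat_lit 15, nat_lit 2), (nat_lit 16, nat_lit 2), (nat_lit 17, nat_lit 4), (nat_lit 18, nat_lit 2), (nat_lit 19, nat_lit 4), (nat_lit 20, nat_lit 2), (nat_lit 21, nat_lit 2), (nat_lit 22, nat_lit 2), (nat_lit 23, nat_lit 4), (nat_lit 24, nat_lit 2), (nat_lit 25, nat_lit 2), (nat_lit 26, nat_lit 2), (nat_lit 28, nat_lit 2), (nat_lit 32, nat_lit 2), (nat_lit 34, nat_lit 2)]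

/-- symmetries -/
def TabM.X35 : ℕ := 0x5a8e23da6d5723d95a8c6d515a8d23d86d5323e023dc23e223cd23d523d423d223cc23d023ce23cf23d623d723d323d15a9700226d4d00205a916d4e5a93001c6d4c001a0019001800170016001500140013001200110010000f000e000d000c000b6d4223c200086d415a8223c15a810003000200010000

theorem TabM.L35 : chkL2 (RR 35 TabM.W35) fu_35 fd_35 = true := by
  decide +kernel

theorem tab2_35 (hS : SpecCls) : TabOK2 35 fu_35 fd_35 :=
  tab_sound2 hS (X := TabM.X35) (WL := TabM.W35) (by norm_num) (by decide +kernel)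
    (by decide +kernel) (by decide +kernel) TabM.L35

theorem tab_35 (hS : SpecCls) : TabOK 35 ft_35 :=
  tab_sound hS (X := TabM.X35) (WL := TabM.W35) (by norm_num) (by decide +kernel)
    (by decide +kernel) (chkL_of_chkL2 TabM.L35 (by decide +kernel))

/-- orbit representatives of the slabs with their multiplicities -/
def TabM.W58 : List (ℕ × ℕ) := [(nat_lit 0, nat_lit 2), (nat_lit 2, nat_lit 1), (nat_lit 3, nat_lit 4), (nat_lit 4, nat_lit 2), (nat_lit 6, nat_lit 4), (nat_lit 7, nat_lit 4), (nat_lit 8, nat_lit 4), (nat_lit 12, nat_lit 2), (nat_lit 13, nat_lit 1), (nat_lit 15, nat_lit 4), (nat_lit 17, nat_lit 1), (nat_lit 18, nat_lit 2), (nat_lit 20, nat_lit 2), (nat_lit 24, nat_lit 4), (nat_lit 26, nat_lit 1), (nat_lit 30, nat_lit 2), (nat_lit 31, nat_lit 4), (nat_lit 32, nat_lit 4), (nat_lit 36, nat_lit 2), (nat_lit 38, nat_lit 2), (nat_lit 42, nat_lit 4), (nat_lit 43, nat_lit 2), (nat_lit 46, nat_lit 2)]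

/-- symmetries -/
def TabM.X58 : ℕ := 0xdd9f6c6ab96eb96bb96a6c60dd86dd836c47dd98b9646c66ddaa002e6c5fdda0002b002a6c43dd876c4600266c580024b95eb960b95f0020001f001edd886c446c48001ab9580018dd8fb9526c5400146c4f00120011b94f000f6c4c000d000cb946b948b947000800070006b943000400030002b9400000

theorem TabM.L58 : chkL (RR 58 TabM.W58) ft_58 = true := by
  decide +kernel

theorem tab_58 (hS : SpecCls) : TabOK 58 ft_58 :=
  tab_sound hS (X := TabM.X58) (WL := TabM.W58) (by norm_num) (by decide +kernel)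
    (by decide +kernel) TabM.L58

/-- orbit representatives of the slabs with their multiplicities -/
def TabM.W73 : List (ℕ × ℕ) := [(nat_lit 0, nat_lit 2), (nat_lit 1, nat_lit 2), (nat_lit 2, nat_lit 4), (nat_lit 6, nat_lit 2), (nat_lit 8, nat_lit 2), (nat_lit 12, nat_lit 4), (nat_lit 13, nat_lit 4), (nat_lit 14, nat_lit 4), (nat_lit 15, nat_lit 4), (nat_lit 16, nat_lit 4), (nat_lit 17, nat_lit 4), (nat_lit 18, nat_lit 4), (nat_lit 19, nat_lit 4), (nat_lit 20, nat_lit 4), (nat_lit 21, nat_lit 4), (nat_lit 22, nat_lit 4), (nat_lit 23, nat_lit 4)]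

/-- symmetries -/
def TabM.X73 : ℕ := 0xa3d5a3cda3d4a3cea3cfa3d6a3d2a3cca3d0a3d7a3d1a3d323cd23d523d423d223cc23d023ce23cf23d623d723d323d180148013801280178016801580108011800f800d800e800c00170016001500140013001200110010000f000e000d000c800823c623c20008a3c2000623c180028000000200010000

theorem TabM.L73 : chkL (RR 73 TabM.W73) ft_73 = true := by
  decide +kernel

theorem tab_73 (hS : SpecCls) : TabOK 73 ft_73 :=
  tab_sound hS (X := TabM.X73) (WL := TabM.W73) (by norm_num) (by decide +kernel)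
    (by decide +kernel) TabM.L73

end MP26f323
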