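import Pool.Agent.Lib.MP_26f323_al.TabG
import Pool.Agent.Lib.MP_26f323_al.TabK5
import Pool.Agent.Lib.MP_26f323_al.Ft1
import Pool.Agent.Lib.MP_26f323_al.Ft2

/-!
MP_26f323_al, module TAB: kernel computation of the tables.
-/

set_option autoImplicit false

namespace MP26f323

open TabM

/-- orbit representatives of the slabs with their multiplicities -/
def TabM.W1 : List (ℕ × ℕ) := [(nat_lit 0, nat_lit 1), (nat_lit 1, nat_lit 2), (nat_lit 3, nat_lit 6), (nat_lit 4, nat_lit 12), (nat_lit 12, nat_lit 3), (nat_lit 15, nat_lit 6), (nat_lit 16, nat_lit 12), (nat_lit 30, nat_lit 6), (nat_lit 31, nat_lit 12)]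

/-- symmetries -/
def TabM.X1 : ℕ := 0x1d9e1d9f535f0d9f0d9e401f13435d84134413504d8f40101dde4d9f1ddf5d9f009e009f1d831d8440844d901d8f1d90135f409f135e5ddf001f001e5344008400835dd00090400f0d900d8f409053505d8f1dd05d900010000f1d8c0d8c000c0d835dc40d841dc31dc440044d8400040003400100010000

theorem TabM.L1 : chkL (RR 1 TabM.W1) ft_1 = true := by
  decide +kernel

theorem tab_1 (hS : SpecCls) : TabOK 1 ft_1 :=
  tab_sound hS (X := TabM.X1) (WL := TabM.W1) (by norm_num) (by decide +kernel)
    (by decide +kernel) TabM.L1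

/-- orbit representatives of the slabs with their multiplicities -/
def TabM.W18 : List (ℕ × ℕ) := [(nat_lit 0, nat_lit 1), (nat_lit 1, nat_lit 4), (nat_lit 3, nat_lit 2), (nat_lit 4, nat_lit 8), (nat_lit 7, nat_lit 2), (nat_lit 8, nat_lit 4), (nat_lit 13, nat_lit 4), (nat_lit 15, nat_lit 2), (nat_lit 16, nat_lit 4), (nat_lit 18, nat_lit 8), (nat_lit 20, nat_lit 8), (nat_lit 27, nat_lit 1), (nat_lit 28, nat_lit 4), (nat_lit 30, nat_lit 2), (nat_lit 32, nat_lit 4), (nat_lit 41, nat_lit 2)]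

/-- symmetries -/
def TabM.X18 : ℕ := 0x2ec82ed448a07a543a4d6ed208a96ec1489c40143a4440103a483a5440206ed42ecd7a5200292ec1401c48942ec4489008a03a52089e00202ed2001e089c001c001b40124892400f08947a44089200146ec4001208900010000f088d000d2ec3088840074884000800074004088400040003400100010000

theorem TabM.L18 : chkL (RR 18 TabM.W18) ft_18 = true := by
  decide +kernel

theorem tab_18 (hS : SpecCls) : TabOK 18 ft_18 :=
  tab_sound hS (X := TabM.X18) (WL := TabM.W18) (by norm_num) (by decide +kernel)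
    (by decide +kernel) TabM.L18

/-- orbit representatives of the slabs with their multiplicities -/
def TabM.W22 : List (ℕ × ℕ) := [(nat_lit 0, nat_lit 1), (nat_lit 1, nat_lit 4), (nat_lit 3, nat_lit 1), (nat_lit 5, nat_lit 4), (nat_lit 8, nat_lit 1), (nat_lit 11, nat_lit 1), (nat_lit 12, nat_lit 2), (nat_lit 13, nat_lit 2), (nat_lit 14, nat_lit 2), (nat_lit 15, nat_lit 4), (nat_lit 16, nat_lit 2), (nat_lit 17, nat_lit 4), (nat_lit 18, nat_lit 4), (nat_lit 19, nat_lit 4), (nat_lit 20, nat_lit 2), (nat_lit 21, nat_lit 4), (nat_lit 22, nat_lit 2), (nat_lit 23, nat_lit 4), (nat_lit 27, nat_lit 2), (nat_lit 28, nat_lit 2), (nat_lit 30, nat_lit 2), (nat_lit 32, nat_lit 2), (nat_lit 33, nat_lit 2), (nat_lit 34, nat_lit 2)]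

/-- symmetries -/
def TabM.X22 : ℕ := 0x9a8e9a929a979a959a8c9a919a8d9a8f9a934014401640109aa1da954020da929a9b40229a9eda8f401c401740134011da97002200210020da91001eda93001c001b40124015400f00170016001500140013001200110010000f000e000d000c000b9a8540050008da859a810005da810003400100010000

theorem TabM.L22 : chkL (RR 22 TabM.W22) ft_22 = true := by
  decide +kernel

theorem tab_22 (hS : SpecCls) : TabOK 22 ft_22 :=
  tab_sound hS (X := TabM.X22) (WL := TabM.W22) (by norm_num) (by decide +kernel)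
    (by decide +kernel) TabM.L22

/-- orbit representatives of the slabs with their multiplicities -/
def TabM.W38 : List (ℕ × ℕ) := [(nat_lit 0, nat_lit 2), (nat_lit 1, nat_lit 4), (nat_lit 2, nat_lit 4), (nat_lit 4, nat_lit 2), (nat_lit 5, nat_lit 4), (nat_lit 6, nat_lit 2), (nat_lit 7, nat_lit 2), (nat_lit 8, nat_lit 4), (nat_lit 9, nat_lit 4), (nat_lit 10, nat_lit 4), (nat_lit 11, nat_lit 4), (nat_lit 26, nat_lit 2), (nat_lit 32, nat_lit 1), (nat_lit 33, nat_lit 4), (nat_lit 35, nat_lit 2), (nat_lit 45, nat_lit 2), (nat_lit 47, nat_lit 1), (nat_lit 48, nat_lit 2), (nat_lit 49, nat_lit 2), (nat_lit 50, nat_lit 4), (nat_lit 56, nat_lit 1), (nat_lit 57, nat_lit 2), (nat_lit 59, nat_lit 1)]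

/-- symmetries -/
def TabM.X38 : ℕ := 0x3b7d3900390038f9f27d3288b27d3188b0003200310030002f88ad002d7d237d0bf9cb7d21f9ca7d09f9e17d0af9c9002388a100210020f9c87d08889a7d05f9c2001af9c57d02888b888a888988887d078886888588847d01888288818880000b000a000900080007000600050004f9c1000200010000

theorem TabM.L38 : chkL (RR 38 TabM.W38) ft_38 = true := by
  decide +kernel

theorem tab_38 (hS : SpecCls) : TabOK 38 ft_38 :=
  tab_sound hS (X := TabM.X38) (WL := TabM.W38) (by norm_num) (by decide +kernel)
    (by decide +kernel) TabM.L38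

/-- orbit representatives of the slabs with their multiplicities -/
def TabM.W54 : List (ℕ × ℕ) := [(nat_lit 0, nat_lit 2), (nat_lit 1, nat_lit 4), (nat_lit 2, nat_lit 4), (nat_lit 3, nat_lit 4), (nat_lit 4, nat_lit 4), (nat_lit 5, nat_lit 4), (nat_lit 6, nat_lit 4), (nat_lit 7, nat_lit 2), (nat_lit 10, nat_lit 4), (nat_lit 11, nat_lit 4), (nat_lit 12, nat_lit 2), (nat_lit 13, nat_lit 4), (nat_lit 17, nat_lit 4), (nat_lit 21, nat_lit 4), (nat_lit 26, nat_lit 4), (nat_lit 28, nat_lit 4), (nat_lit 37, nat_lit 2)]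

/-- symmetries -/
def TabM.X54 : ℕ := 0x8d008d028d01bd0dbd068d1cbd0436a53684bd1c368a369a8d0cbd038d0dbd028d1abd15bd1abd0a369cbd1100253691bd018d11368b8d038d058d043686001c368d001a369536828d1536870015bd058d0a8d0b0011bd0b36813683000d000c000b000a36858d0600070006000500040003000200010000

theorem TabM.L54 : chkL (RR 54 TabM.W54) ft_54 = true := by
  decide +kernel

theorem tab_54 (hS : SpecCls) : TabOK 54 ft_54 :=
  tab_sound hS (X := TabM.X54) (WL := TabM.W54) (by norm_num) (by decide +kernel)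
    (by decide +kernel) TabM.L54

end MP26f323
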