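import Pool.Agent.Lib.MP_26f323_al.TabG
import Pool.Agent.Lib.MP_26f323_al.TabK3
import Pool.Agent.Lib.MP_26f323_al.Ft1
import Pool.Agent.Lib.MP_26f323_al.Ft2

/-!
MP_26f323_al, module TAB: kernel computation of the tables.
-/

set_option autoImplicit false

namespace MP26f323

open TabM

/-- orbit representatives of the slabs with their multiplicities -/
def TabM.W28 : List (ℕ × ℕ) := [(nat_lit 0, nat_lit 1), (nat_lit 1, nat_lit 10), (nat_lit 3, nat_lit 5), (nat_lit 5, nat_lit 10), (nat_lit 8, nat_lit 5), (nat_lit 11, nat_lit 5), (nat_lit 16, nat_lit 2), (nat_lit 17, nat_lit 10), (nat_lit 18, nat_lit 10), (nat_lit 32, nat_lit 2)]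

/-- symmetries -/
def TabM.X28 : ℕ := 0x18b42d2405202d100c340d102c342c140c5405141814010018842d1402002d2004b00d202c802c142c5419240454011005240d200c8002000d1004800c502c502cb4012019140c10192018141910051004500120011001000c100cb00430183000b41854005000801854041000500410003400100010000

theorem TabM.L28 : chkL (RR 28 TabM.W28) ft_28 = true := by
  decide +kernel

theorem tab_28 (hS : SpecCls) : TabOK 28 ft_28 :=
  tab_sound hS (X := TabM.X28) (WL := TabM.W28) (by norm_num) (by decide +kernel)
    (by decide +kernel) TabM.L28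

/-- orbit representatives of the slabs with their multiplicities -/
def TabM.W30 : List (ℕ × ℕ) := [(nat_lit 0, nat_lit 2), (nat_lit 1, nat_lit 4), (nat_lit 6, nat_lit 4), (nat_lit 8, nat_lit 2), (nat_lit 12, nat_lit 2), (nat_lit 13, nat_lit 4), (nat_lit 15, nat_lit 2), (nat_lit 16, nat_lit 4), (nat_lit 18, nat_lit 4), (nat_lit 19, nat_lit 4), (nat_lit 20, nat_lit 4), (nat_lit 36, nat_lit 4), (nat_lit 38, nat_lit 2), (nat_lit 39, nat_lit 4), (nat_lit 40, nat_lit 4), (nat_lit 41, nat_lit 4), (nat_lit 45, nat_lit 2), (nat_lit 46, nat_lit 4)]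

/-- symmetries -/
def TabM.X30 : ℕ := 0xa02e28ae28ada029a028a02728a928a828a728a6a02428a488ae002e002d88a988a888a7002900280027002688a40024a014a013a012889488938892a0108890a00fa00d888da00c28942893289200140013001228900010000f288d000d000c2888a0062886000888860006a0018881a000288100010000

theorem TabM.L30 : chkL (RR 30 TabM.W30) ft_30 = true := by
  decide +kernel

theorem tab_30 (hS : SpecCls) : TabOK 30 ft_30 :=
  tab_sound hS (X := TabM.X30) (WL := TabM.W30) (by norm_num) (by decide +kernel)
    (by decide +kernel) TabM.L30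

/-- orbit representatives of the slabs with their multiplicities -/
def TabM.W49 : List (ℕ × ℕ) := [(nat_lit 0, nat_lit 2), (nat_lit 1, nat_lit 2), (nat_lit 2, nat_lit 4), (nat_lit 3, nat_lit 4), (nat_lit 4, nat_lit 2), (nat_lit 5, nat_lit 4), (nat_lit 6, nat_lit 4), (nat_lit 7, nat_lit 2), (nat_lit 8, nat_lit 4), (nat_lit 9, nat_lit 4), (nat_lit 10, nat_lit 2), (nat_lit 11, nat_lit 2), (nat_lit 14, nat_lit 2), (nat_lit 15, nat_lit 1), (nat_lit 17, nat_lit 2), (nat_lit 18, nat_lit 4), (nat_lit 21, nat_lit 4), (nat_lit 26, nat_lit 2), (nat_lit 27, nat_lit 1), (nat_lit 32, nat_lit 2), (nat_lit 36, nat_lit 2), (nat_lit 38, nat_lit 2), (nat_lit 45, nat_lit 1), (nat_lit 57, nat_lit 1)]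

/-- symmetries -/
def TabM.X49 : ℕ := 0x7a4b7a660039c186bd057a55c1877a42c192c1887a46c1a07a48bd08002dbd097a4e7a52c1a47a41bd1200267a490024c18a7a5ac1950020bd02bd15bd03c183001b001ac182c191c1897a440015bd067a4500120011c180000f000ec1857a43000b000a0009000800070006000500040003000200010000

theorem TabM.L49 : chkL (RR 49 TabM.W49) ft_49 = true := by
  decide +kernel

theorem tab_49 (hS : SpecCls) : TabOK 49 ft_49 :=
  tab_sound hS (X := TabM.X49) (WL := TabM.W49) (by norm_num) (by decide +kernel)
    (by decide +kernel) TabM.L49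

/-- orbit representatives of the slabs with their multiplicities -/
def TabM.W65 : List (ℕ × ℕ) := [(nat_lit 0, nat_lit 2), (nat_lit 1, nat_lit 4), (nat_lit 3, nat_lit 8), (nat_lit 4, nat_lit 2), (nat_lit 5, nat_lit 8), (nat_lit 6, nat_lit 2), (nat_lit 7, nat_lit 8), (nat_lit 12, nat_lit 4), (nat_lit 15, nat_lit 2), (nat_lit 17, nat_lit 8), (nat_lit 19, nat_lit 2), (nat_lit 30, nat_lit 2), (nat_lit 31, nat_lit 4), (nat_lit 42, nat_lit 4)]

/-- symmetries -/
def TabM.X65 : ℕ := 0xb851681f9d43dc83dc9140aaf80140874085b845dc8c9d47f811f803682a2c6a409e002a2c432c454084f805680f2c51b843409f9d512c5f001f001e2c47408640836811dc876813b847f80c9d45f807001340910011dc85000f680cf800000cb84168056807680300070006000500040003408100010000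

theorem TabM.L65 : chkL (RR 65 TabM.W65) ft_65 = true := by
  decide +kernel

theorem tab_65 (hS : SpecCls) : TabOK 65 ft_65 :=
  tab_sound hS (X := TabM.X65) (WL := TabM.W65) (by norm_num) (by decide +kernel)
    (by decide +kernel) TabM.L65

/-- orbit representatives of the slabs with their multiplicities -/
def TabM.W74 : List (ℕ × ℕ) := [(nat_lit 0, nat_lit 1), (nat_lit 1, nat_lit 2), (nat_lit 3, nat_lit 1), (nat_lit 4, nat_lit 4), (nat_lit 7, nat_lit 2), (nat_lit 8, nat_lit 2), (nat_lit 12, nat_lit 1), (nat_lit 13, nat_lit 2), (nat_lit 15, nat_lit 2), (nat_lit 16, nat_lit 4), (nat_lit 18, nat_lit 4), (nat_lit 19, nat_lit 4), (nat_lit 20, nat_lit 4), (nat_lit 27, nat_lit 1), (nat_lit 28, nat_lit 4), (nat_lit 30, nat_lit 2), (nat_lit 31, nat_lit 4), (nat_lit 32, nat_lit 4), (nat_lit 40, nat_lit 2), (nat_lit 41, nat_lit 2), (nat_lit 43, nat_lit 2), (nat_lit 44, nat_lit 4), (nat_lit 47, nat_lit 2)]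

/-- symmetries -/
def TabM.X74 : ℕ := 0x48af602c48a028ac48ab601f48a96028489c601448936010002f48ac6020002c002b489f00290028601c48946013489028a0289f489e0020001f001e289c001c001b60124892600f28942893289200140013001228900010000f488d000d000c488860074884000800076004288400040003600100010000

theorem TabM.L74 : chkL2 (RR 74 TabM.W74) fu_74 fd_74 = true := by
  decide +kernel

theorem tab2_74 (hS : SpecCls) : TabOK2 74 fu_74 fd_74 :=
  tab_sound2 hS (X := TabM.X74) (WL := TabM.W74) (by norm_num) (by decide +kernel)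
    (by decide +kernel) (by decide +kernel) TabM.L74

theorem tab_74 (hS : SpecCls) : TabOK 74 ft_74 :=
  tab_sound hS (X := TabM.X74) (WL := TabM.W74) (by norm_num) (by decide +kernel)
    (by decide +kernel) (chkL_of_chkL2 TabM.L74 (by decide +kernel))

end MP26f323
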