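import Pool.Agent.Lib.MP_26f323_al.TabG
import Pool.Agent.Lib.MP_26f323_al.TabK6
import Pool.Agent.Lib.MP_26f323_al.Ft1
import Pool.Agent.Lib.MP_26f323_al.Ft2

/-!
MP_26f323_al, module TAB: kernel computation of the tables.
-/

set_option autoImplicit false

namespace MP26f323

open TabM

/-- orbit representatives of the slabs with their multiplicities -/
def TabM.W6 : List (ℕ × ℕ) := [(nat_lit 0, nat_lit 1), (nat_lit 1, nat_lit 2), (nat_lit 3, nat_lit 1), (nat_lit 4, nat_lit 4), (nat_lit 7, nat_lit 2), (nat_lit 8, nat_lit 2), (nat_lit 12, nat_lit 1), (nat_lit 13, nat_lit 2), (nat_lit 15, nat_lit 2), (nat_lit 16, nat_lit 4), (nat_lit 18, nat_lit 4), (nat_lit 19, nat_lit 4), (nat_lit 20, nat_lit 4), (nat_lit 27, nat_lit 1), (nat_lit 28, nat_lit 4), (nat_lit 30, nat_lit 2), (nat_lit 31, nat_lit 4), (nat_lit 32, nat_lit 4), (nat_lit 40, nat_lit 2), (nat_lit 41, nat_lit 2), (nat_lit 43, nat_lit 2), (nat_lit 44, nat_lit 4), (nat_lit 47, nat_lit 2)]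

/-- symmetries -/
def TabM.X6 : ℕ := 0x88af402cc8a088ac88ab401f88a94028c89c4014c8934010002fc8ac4020002c002bc89f00290028401cc8944013c89088a0889f889e0020001f001e889c001c001b4012c892400f88948893889200140013001288900010000f888d000d000c88884007c884000800074004888400040003400100010000

theorem TabM.L6 : chkL (RR 6 TabM.W6) ft_6 = true := by
  decide +kernel

theorem tab_6 (hS : SpecCls) : TabOK 6 ft_6 :=
  tab_sound hS (X := TabM.X6) (WL := TabM.W6) (by norm_num) (by decide +kernel)
    (by decide +kernel) TabM.L6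

/-- orbit representatives of the slabs with their multiplicities -/
def TabM.W9 : List (ℕ × ℕ) := [(nat_lit 0, nat_lit 1), (nat_lit 1, nat_lit 2), (nat_lit 3, nat_lit 2), (nat_lit 4, nat_lit 8), (nat_lit 7, nat_lit 4), (nat_lit 8, nat_lit 4), (nat_lit 12, nat_lit 1), (nat_lit 13, nat_lit 2), (nat_lit 15, nat_lit 2), (nat_lit 16, nat_lit 8), (nat_lit 19, nat_lit 4), (nat_lit 20, nat_lit 4), (nat_lit 30, nat_lit 4), (nat_lit 31, nat_lit 4), (nat_lit 32, nat_lit 8), (nat_lit 47, nat_lit 2)]

/-- symmetries -/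
def TabM.X9 : ℕ := 0xaf40a0c8a08d208d1e401f8d084087cd044014c8934010002fcd20402000a0009e009f00880087408400944013c89088a0409f889e0020001f001e8d04008400838d100090400f40948893409000140013cd1088900010000f888d000d000c88884007c884000800074004888400040003400100010000

theorem TabM.L9 : chkL (RR 9 TabM.W9) ft_9 = true := by
  decide +kernel

theorem tab_9 (hS : SpecCls) : TabOK 9 ft_9 :=
  tab_sound hS (X := TabM.X9) (WL := TabM.W9) (by norm_num) (by decide +kernel)
    (by decide +kernel) TabM.L9

/-- orbit representatives of the slabs with their multiplicities -/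
def TabM.W17 : List (ℕ × ℕ) := [(nat_lit 0, nat_lit 2), (nat_lit 1, nat_lit 4), (nat_lit 2, nat_lit 4), (nat_lit 3, nat_lit 2), (nat_lit 12, nat_lit 16), (nat_lit 13, nat_lit 8), (nat_lit 15, nat_lit 16), (nat_lit 17, nat_lit 8)]

/-- symmetries -/
def TabM.X17 : ℕ := 0x4f8c5891800fd88f1a8c1a914f8d1a8f590f800c800dc80c03cdcf8f8d4c4f9103ccd90c588c03cf8d4d8d4f480f03d183cfd88c0d4d83cc0d51590c4f8f83cd0d4c4811c80f0d4f9a8fcf8dd90f9a8c588f59110011cf8c000f480c000d000c80000d4103c248030d424f8103c14f820003000200010000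

theorem TabM.L17 : chkL (RR 17 TabM.W17) ft_17 = true := by
  decide +kernel

theorem tab_17 (hS : SpecCls) : TabOK 17 ft_17 :=
  tab_sound hS (X := TabM.X17) (WL := TabM.W17) (by norm_num) (by decide +kernel)
    (by decide +kernel) TabM.L17

/-- orbit representatives of the slabs with their multiplicities -/
def TabM.W19 : List (ℕ × ℕ) := [(nat_lit 0, nat_lit 1), (nat_lit 1, nat_lit 4), (nat_lit 3, nat_lit 2), (nat_lit 4, nat_lit 2), (nat_lit 5, nat_lit 4), (nat_lit 7, nat_lit 4), (nat_lit 8, nat_lit 2), (nat_lit 11, nat_lit 2), (nat_lit 12, nat_lit 1), (nat_lit 14, nat_lit 2), (nat_lit 16, nat_lit 2), (nat_lit 17, nat_lit 4), (nat_lit 18, nat_lit 2), (nat_lit 20, nat_lit 4), (nat_lit 22, nat_lit 4), (nat_lit 23, nat_lit 4), (nat_lit 29, nat_lit 2), (nat_lit 32, nat_lit 2), (nat_lit 33, nat_lit 2), (nat_lit 35, nat_lit 4), (nat_lit 46, nat_lit 2), (nat_lit 47, nat_lit 1), (nat_lit 53, nat_lit 2), (nat_lit 59, nat_lit 1)]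

/-- symmetries -/
def TabM.X19 : ℕ := 0x3b3d234023402e3d353d1400353d16401d401440164010002f002e40207d233d0b7d173d217d163d0540173d07401100233d17002100207d143d08001d7d053d0e40127d113d01001700163d1100147d070012001100107d01000e3d03000c000b40074005000800074004000500040003400100010000

theorem TabM.L19 : chkL (RR 19 TabM.W19) ft_19 = true := by
  decide +kernel

theorem tab_19 (hS : SpecCls) : TabOK 19 ft_19 :=
  tab_sound hS (X := TabM.X19) (WL := TabM.W19) (by norm_num) (by decide +kernel)
    (by decide +kernel) TabM.L19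

/-- orbit representatives of the slabs with their multiplicities -/
def TabM.W27 : List (ℕ × ℕ) := [(nat_lit 0, nat_lit 1), (nat_lit 1, nat_lit 4), (nat_lit 3, nat_lit 4), (nat_lit 4, nat_lit 4), (nat_lit 5, nat_lit 4), (nat_lit 7, nat_lit 8), (nat_lit 8, nat_lit 4), (nat_lit 11, nat_lit 4), (nat_lit 12, nat_lit 1), (nat_lit 16, nat_lit 4), (nat_lit 17, nat_lit 4), (nat_lit 20, nat_lit 4), (nat_lit 23, nat_lit 4), (nat_lit 32, nat_lit 4), (nat_lit 35, nat_lit 4), (nat_lit 47, nat_lit 1), (nat_lit 59, nat_lit 1)]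

/-- symmetries -/
def TabM.X27 : ℕ := 0x3b6d2340232d20b688f6942d082d076d044014f6874010002f6d2040202d239d0bb6972d0b6d076d0540179d0740110023f697b68b0020b6949d082d042d052d032d102d11f6810017b6876d110014dd076d1000110010b681b6839d03000c000b40074005000800074004000500040003400100010000

theorem TabM.L27 : chkL (RR 27 TabM.W27) ft_27 = true := by
  decide +kernel

theorem tab_27 (hS : SpecCls) : TabOK 27 ft_27 :=
  tab_sound hS (X := TabM.X27) (WL := TabM.W27) (by norm_num) (by decide +kernel)
    (by decide +kernel) TabM.L27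

end MP26f323
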