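import Pool.Agent.Lib.MP_26f323_al.Lnk0
import Pool.Agent.Lib.MP_26f323_al.Lnk1
import Pool.Agent.Lib.MP_26f323_al.Lnk2
import Pool.Agent.Lib.MP_26f323_al.Lnk3
import Pool.Agent.Lib.MP_26f323_al.Lnk4
import Pool.Agent.Lib.MP_26f323_al.Lnk5
import Pool.Agent.Lib.MP_26f323_al.TabK0
import Pool.Agent.Lib.MP_26f323_al.TabK1
import Pool.Agent.Lib.MP_26f323_al.TabK2
import Pool.Agent.Lib.MP_26f323_al.TabK3
import Pool.Agent.Lib.MP_26f323_al.TabK4
import Pool.Agent.Lib.MP_26f323_al.TabK5
import Pool.Agent.Lib.MP_26f323_al.TabK6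
import Pool.Agent.Lib.MP_26f323_al.TabK7
import Pool.Agent.Lib.MP_26f323_al.TabK8
import Pool.Agent.Lib.MP_26f323_al.TabK9

/-!
MP_26f323_al: all tables of the checker come from TAB.
-/

set_option autoImplicit false
set_option maxRecDepth 100000

namespace MP26f323

open ZonM ClsM

namespace Chk

open GlM

/-- every class with a symmetric table -/
theorem all_tabs (hS : SpecCls) : ∀ k, k < 78 → 0 < nthL 0 lS k →
    ∃ L, TabOK k L ∧ rowsOK (nthL 0 lS k) L 0 = true ∧ gl L 0 = nthL 0 lG k := by
  intro k hk h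
  interval_cases k
  · exact absurd h (by decide)
  · exact ⟨ft_1, tab_1 hS, row_1, lnk_1⟩
  · exact ⟨ft_2, tab_2 hS, row_2, lnk_2⟩
  · exact ⟨ft_3, tab_3 hS, row_3, lnk_3⟩
  · exact ⟨ft_4, tab_4 hS, row_4, lnk_4⟩
  · exact ⟨ft_5, tab_5 hS, row_5, lnk_5⟩
  · exact ⟨ft_6, tab_6 hS, row_6, lnk_6⟩
  · exact ⟨ft_7, tab_7 hS, row_7, lnk_7⟩
  · exact ⟨ft_8, tab_8 hS, row_8, lnk_8⟩
  · exact ⟨ft_9, tab_9 hS, row_9, lnk_9⟩
  · exact ⟨ft_10, tab_10 hS, row_10, lnk_10⟩
  · exact absurd h (by decide)
  · exact ⟨ft_12, tab_12 hS, row_12, lnk_12⟩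
  · exact ⟨ft_13, tab_13 hS, row_13, lnk_13⟩
  · exact absurd h (by decide)
  · exact ⟨ft_15, tab_15 hS, row_15, lnk_15⟩
  · exact ⟨ft_16, tab_16 hS, row_16, lnk_16⟩
  · exact ⟨ft_17, tab_17 hS, row_17, lnk_17⟩
  · exact ⟨ft_18, tab_18 hS, row_18, lnk_18⟩
  · exact ⟨ft_19, tab_19 hS, row_19, lnk_19⟩
  · exact absurd h (by decide)
  · exact absurd h (by decide)
  · exact ⟨ft_22, tab_22 hS, row_22, lnk_22⟩
  · exact ⟨ft_23, tab_23 hS, row_23, lnk_23⟩
  · exact ⟨ft_24, tab_24 hS, row_24, lnk_24⟩
  · exact ⟨ft_25, tab_25 hS, row_25, lnk_25⟩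
  · exact ⟨ft_26, tab_26 hS, row_26, lnk_26⟩
  · exact ⟨ft_27, tab_27 hS, row_27, lnk_27⟩
  · exact ⟨ft_28, tab_28 hS, row_28, lnk_28⟩
  · exact ⟨ft_29, tab_29 hS, row_29, lnk_29⟩
  · exact ⟨ft_30, tab_30 hS, row_30, lnk_30⟩
  · exact ⟨ft_31, tab_31 hS, row_31, lnk_31⟩
  · exact absurd h (by decide)
  · exact absurd h (by decide)
  · exact absurd h (by decide)
  · exact ⟨ft_35, tab_35 hS, row_35, lnk_35⟩
  · exact ⟨ft_36, tab_36 hS, row_36, lnk_36⟩
  · exact ⟨ft_37, tab_37 hS, row_37, lnk_37⟩
  · exact ⟨ft_38, tab_38 hS, row_38, lnk_38⟩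
  · exact ⟨ft_39, tab_39 hS, row_39, lnk_39⟩
  · exact absurd h (by decide)
  · exact absurd h (by decide)
  · exact absurd h (by decide)
  · exact ⟨ft_43, tab_43 hS, row_43, lnk_43⟩
  · exact ⟨ft_44, tab_44 hS, row_44, lnk_44⟩
  · exact ⟨ft_45, tab_45 hS, row_45, lnk_45⟩
  · exact absurd h (by decide)
  · exact absurd h (by decide)
  · exact absurd h (by decide)
  · exact ⟨ft_49, tab_49 hS, row_49, lnk_49⟩
  · exact absurd h (by decide)
  · exact absurd h (by decide)
  · exact absurd h (by decide)
  · exact absurd h (by decide)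
  · exact ⟨ft_54, tab_54 hS, row_54, lnk_54⟩
  · exact absurd h (by decide)
  · exact ⟨ft_56, tab_56 hS, row_56, lnk_56⟩
  · exact absurd h (by decide)
  · exact ⟨ft_58, tab_58 hS, row_58, lnk_58⟩
  · exact ⟨ft_59, tab_59 hS, row_59, lnk_59⟩
  · exact absurd h (by decide)
  · exact ⟨ft_61, tab_61 hS, row_61, lnk_61⟩
  · exact absurd h (by decide)
  · exact absurd h (by decide)
  · exact absurd h (by decide)
  · exact ⟨ft_65, tab_65 hS, row_65, lnk_65⟩
  · exact absurd h (by decide)
  · exact ⟨ft_67, tab_67 hS, row_67, lnk_67⟩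
  · exact absurd h (by decide)
  · exact ⟨ft_69, tab_69 hS, row_69, lnk_69⟩
  · exact absurd h (by decide)
  · exact absurd h (by decide)
  · exact ⟨ft_72, tab_72 hS, row_72, lnk_72⟩
  · exact ⟨ft_73, tab_73 hS, row_73, lnk_73⟩
  · exact ⟨ft_74, tab_74 hS, row_74, lnk_74⟩
  · exact absurd h (by decide)
  · exact ⟨ft_76, tab_76 hS, row_76, lnk_76⟩
  · exact ⟨ft_77, tab_77 hS, row_77, lnk_77⟩

/-- every class with ordered tables -/
theorem all_tabs2 (hS : SpecCls) : ∀ k, k < 78 → 0 < nthL 0 lT k →
    ∃ L M, TabOK2 k L M ∧ rowsOK (nthL 0 lT k) L 0 = true ∧ rowsOK (nthL 0 lT k) M 0 = true ∧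
      Nat.land (gl L 0) OFF = nthL 0 lU k ∧ Nat.land (gl M 0) OFF = nthL 0 lD k := by
  intro k hk h
  interval_cases k
  · exact absurd h (by decide)
  · exact absurd h (by decide)
  · exact absurd h (by decide)
  · exact absurd h (by decide)
  · exact absurd h (by decide)
  · exact absurd h (by decide)
  · exact absurd h (by decide)
  · exact absurd h (by decide)
  · exact absurd h (by decide)
  · exact absurd h (by decide)
  · exact absurd h (by decide)
  · exact absurd h (by decide)
  · exact absurd h (by decide)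
  · exact absurd h (by decide)
  · exact absurd h (by decide)
  · exact absurd h (by decide)
  · exact absurd h (by decide)
  · exact absurd h (by decide)
  · exact absurd h (by decide)
  · exact absurd h (by decide)
  · exact absurd h (by decide)
  · exact absurd h (by decide)
  · exact absurd h (by decide)
  · exact absurd h (by decide)
  · exact absurd h (by decide)
  · exact absurd h (by decide)
  · exact absurd h (by decide)
  · exact absurd h (by decide)
  · exact absurd h (by decide)
  · exact absurd h (by decide)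
  · exact absurd h (by decide)
  · exact absurd h (by decide)
  · exact absurd h (by decide)
  · exact absurd h (by decide)
  · exact absurd h (by decide)
  · exact ⟨fu_35, fd_35, tab2_35 hS, rowu_35, rowd_35, lnku_35, lnkd_35⟩
  · exact absurd h (by decide)
  · exact absurd h (by decide)
  · exact absurd h (by decide)
  · exact absurd h (by decide)
  · exact absurd h (by decide)
  · exact absurd h (by decide)
  · exact absurd h (by decide)
  · exact absurd h (by decide)
  · exact absurd h (by decide)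
  · exact absurd h (by decide)
  · exact absurd h (by decide)
  · exact absurd h (by decide)
  · exact absurd h (by decide)
  · exact absurd h (by decide)
  · exact absurd h (by decide)
  · exact absurd h (by decide)
  · exact absurd h (by decide)
  · exact absurd h (by decide)
  · exact absurd h (by decide)
  · exact absurd h (by decide)
  · exact absurd h (by decide)
  · exact absurd h (by decide)
  · exact absurd h (by decide)
  · exact ⟨fu_59, fd_59, tab2_59 hS, rowu_59, rowd_59, lnku_59, lnkd_59⟩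
  · exact absurd h (by decide)
  · exact absurd h (by decide)
  · exact absurd h (by decide)
  · exact absurd h (by decide)
  · exact absurd h (by decide)
  · exact absurd h (by decide)
  · exact absurd h (by decide)
  · exact absurd h (by decide)
  · exact absurd h (by decide)
  · exact absurd h (by decide)
  · exact absurd h (by decide)
  · exact absurd h (by decide)
  · exact absurd h (by decide)
  · exact absurd h (by decide)
  · exact ⟨fu_74, fd_74, tab2_74 hS, rowu_74, rowd_74, lnku_74, lnkd_74⟩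
  · exact absurd h (by decide)
  · exact absurd h (by decide)
  · exact absurd h (by decide)

end Chk

end MP26f323
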