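import Pool.Agent.Lib.MP_26f323_al.Gl
import Pool.Agent.Lib.MP_26f323_al.Gt
import Pool.Agent.Lib.MP_26f323_al.Ft1
import Pool.Agent.Lib.MP_26f323_al.Ft2

/-!
MP_26f323_al: the packed tables agree with the tables of TAB, part 0.
-/

set_option autoImplicit false
set_option maxRecDepth 100000

namespace MP26f323

open ZonM ClsM

namespace Chk

open GlM

theorem row_1 : rowsOK (nthL 0 lS 1) ft_1 0 = true := by decide +kernel

theorem lnk_1 : gl ft_1 0 = nthL 0 lG 1 :=
  Nat.eq_of_beq_eq_true (by decide +kernel)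

theorem row_2 : rowsOK (nthL 0 lS 2) ft_2 0 = true := by decide +kernel

theorem lnk_2 : gl ft_2 0 = nthL 0 lG 2 :=
  Nat.eq_of_beq_eq_true (by decide +kernel)

theorem row_3 : rowsOK (nthL 0 lS 3) ft_3 0 = true := by decide +kernel

theorem lnk_3 : gl ft_3 0 = nthL 0 lG 3 :=
  Nat.eq_of_beq_eq_true (by decide +kernel)

theorem row_4 : rowsOK (nthL 0 lS 4) ft_4 0 = true := by decide +kernel

theorem lnk_4 : gl ft_4 0 = nthL 0 lG 4 :=
  Nat.eq_of_beq_eq_true (by decide +kernel)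

theorem row_5 : rowsOK (nthL 0 lS 5) ft_5 0 = true := by decide +kernel

theorem lnk_5 : gl ft_5 0 = nthL 0 lG 5 :=
  Nat.eq_of_beq_eq_true (by decide +kernel)

theorem row_6 : rowsOK (nthL 0 lS 6) ft_6 0 = true := by decide +kernel

theorem lnk_6 : gl ft_6 0 = nthL 0 lG 6 :=
  Nat.eq_of_beq_eq_true (by decide +kernel)

theorem row_7 : rowsOK (nthL 0 lS 7) ft_7 0 = true := by decide +kernel

theorem lnk_7 : gl ft_7 0 = nthL 0 lG 7 :=
  Nat.eq_of_beq_eq_true (by decide +kernel)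

theorem row_8 : rowsOK (nthL 0 lS 8) ft_8 0 = true := by decide +kernel

theorem lnk_8 : gl ft_8 0 = nthL 0 lG 8 :=
  Nat.eq_of_beq_eq_true (by decide +kernel)

end Chk

end MP26f323
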