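import Pool.Agent.Lib.MP_26f323_al.Spec3

/-!
MP_26f323_al, module REP: edges, inequations and the table of representatives (lanes of 8 bits).
-/

set_option autoImplicit false

namespace MP26f323

open ZonM ClsM

namespace Chk

namespace RepM

lemma l8_eq (N p : ℕ) : l8 N p = (N >>> (8 * p)) % 2 ^ 8 := rfl

lemma l8_lt (N p : ℕ) : l8 N p < 2 ^ 8 := by
  rw [l8_eq]; exact Nat.mod_lt _ (by norm_num)

lemma testBit_l8 (N p k : ℕ) : (l8 N p).testBit k = (decide (k < 8) && N.testBit (8 * p + k)) := by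
  rw [l8_eq, Nat.testBit_mod_two_pow, Nat.testBit_shiftRight]

lemma l8_ext (N p x : ℕ) (hx : x < 2 ^ 8)
    (h : ∀ k, k < 8 → N.testBit (8 * p + k) = x.testBit k) : l8 N p = x := by
  apply Nat.eq_of_testBit_eq
  intro k
  rw [testBit_l8]
  by_cases hk : k < 8
  · rw [h k hk]; simp [hk]
  · have h1 : x.testBit k = false := by
      apply Nat.testBit_eq_false_of_lt
      exact lt_of_lt_of_le hx (Nat.pow_le_pow_right (by norm_num) (by omega))
    rw [h1]; simp [hk]

/-- change of one lane by exclusive or -/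
lemma l8_xor (T c v i : ℕ) (hv : v < 2 ^ 8) :
    l8 (Nat.xor T (Nat.shiftLeft v (Nat.mul 8 c))) i =
      if i = c then Nat.xor (l8 T c) v else l8 T i := by
  show l8 (T ^^^ (v <<< (8 * c))) i = if i = c then (l8 T c) ^^^ v else l8 T i
  apply l8_ext
  · split_ifs
    · exact Nat.xor_lt_two_pow (l8_lt _ _) hv
    · exact l8_lt _ _
  · intro k hk
    rw [Nat.testBit_xor, Nat.testBit_shiftLeft]
    split_ifs with h
    · subst h
      rw [Nat.testBit_xor, testBit_l8]
      have h1 : 8 * i + k ≥ 8 * i := by omega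
      have h2 : 8 * i + k - 8 * i = k := by omega
      rw [h2]
      simp [hk]
    · rw [testBit_l8]
      rcases Nat.lt_or_gt_of_ne h with h1 | h1
      · have h2 : ¬ (8 * i + k ≥ 8 * c) := by omega
        simp [h2, hk]
      · have h2 : v.testBit (8 * i + k - 8 * c) = false := by
          apply Nat.testBit_eq_false_of_lt
          refine lt_of_lt_of_le hv (Nat.pow_le_pow_right (by norm_num) ?_)
          omega
        simp [h2, hk]

lemma l8_upd (T c p i : ℕ) : l8 (upd T c p) i = if i = c then l8 T p else l8 T i := by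
  show l8 (Nat.xor T (Nat.shiftLeft (Nat.xor (l8 T c) (l8 T p)) (Nat.mul 8 c))) i = _
  have hv : Nat.xor (l8 T c) (l8 T p) < 2 ^ 8 := Nat.xor_lt_two_pow (l8_lt _ _) (l8_lt _ _)
  rw [l8_xor T c (Nat.xor (l8 T c) (l8 T p)) i hv]
  split_ifs
  · show (l8 T c) ^^^ ((l8 T c) ^^^ (l8 T p)) = l8 T p
    rw [← Nat.xor_assoc, Nat.xor_self, Nat.zero_xor]
  · rfl

lemma l8_T0 : ∀ i, i < 78 → l8 T0 i = i := by
  have h : allLt 78 (fun i => Nat.beq (l8 T0 i) i) = true := by decide +kernel
  intro i hi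
  have := (allLt_iff _ _).1 h i hi
  simpa using this

lemma bt_testBit (C n : ℕ) (h : bt C n = true) : C.testBit n = true := by
  have h1 : Nat.beq ((C >>> n) % 2) 1 = true := h
  have h2 : (C >>> n) % 2 = 1 := by simpa using h1
  rw [Nat.testBit_eq_decide_div_mod_eq, ← Nat.shiftRight_eq_div_pow, h2]
  rfl

/-- a set bit of a clause has b ≤ 77 -/
lemma le_of_bit (C a b e : ℕ) (hC : C < CBIG)
    (h : C.testBit (2 * pos a b + e) = true) : b ≤ 77 := by
  by_contra hb
  have h1 : 3003 ≤ pos a b := by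
    show 3003 ≤ b * (b - 1) / 2 + (a - 1)
    have h2 : 78 * 77 ≤ b * (b - 1) := Nat.mul_le_mul (by omega) (by omega)
    omega
  have h3 : C.testBit (2 * pos a b + e) = false := by
    apply Nat.testBit_eq_false_of_lt
    have h4 : C < 2 ^ 6006 := hC
    exact lt_of_lt_of_le h4 (Nat.pow_le_pow_right (by norm_num) (by omega))
  rw [h3] at h
  exact absurd h (by simp)

lemma TOK_upd (F : ℕ → ℕ) (s T c p : ℕ) (hp : 1 ≤ p) (hp' : p ≤ 77) (hF : F c = F p)
    (hT : TOK F s T) : TOK F s (upd T c p) := by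
  intro i hi hi'
  rw [l8_upd]
  split_ifs with h
  · rw [h, hF]; exact hT p hp hp'
  · exact hT i hi hi'

theorem edges_sound (F : ℕ → ℕ) (C : ℕ) (hC : C < CBIG) (hH : ¬ Holds F C)
    (k : ℕ → ℕ → Bool) (h : ℕ) : ∀ σ T : ℕ, edges C k h σ T = true →
      ∃ σ' T', k σ' T' = true ∧ ∀ s, TOK F s T → TOK F s T' := by
  induction h with
  | zero => intro σ T h; exact ⟨σ, T, h, fun _ h => h⟩
  | succ n ih =>
    intro σ T h
    have h1 : edA C (edges C k n) (Nat.shiftRight σ 15) T (Nat.mod σ 2)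
      (Nat.add (f7 σ 1) 1) (Nat.add (Nat.add (f7 σ 1) (f7 σ 8)) 2) = true := h
    obtain ⟨a, ha0⟩ : ∃ a, a = Nat.add (f7 σ 1) 1 := ⟨_, rfl⟩
    obtain ⟨b, hb0⟩ : ∃ b, b = Nat.add (Nat.add (f7 σ 1) (f7 σ 8)) 2 := ⟨_, rfl⟩
    rw [← ha0, ← hb0] at h1
    have ha : 1 ≤ a := by rw [ha0]; exact Nat.succ_le_succ (Nat.zero_le _)
    have hab : a < b := by
      have e1 : a = f7 σ 1 + 1 := ha0
      have e2 : b = f7 σ 1 + f7 σ 8 + 2 := hb0
      omega
    have h2 : (bt C (2 * pos a b + 1) &&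
      edges C k n (Nat.shiftRight σ 15)
        (Nat.rec (upd T a b) (fun _ _ => upd T b a) (Nat.mod σ 2))) = true := h1
    rw [Bool.and_eq_true] at h2
    obtain ⟨h3, h4⟩ := h2
    have h5 := bt_testBit _ _ h3
    have hb : b ≤ 77 := le_of_bit C a b 1 hC h5
    have hF : F a = F b := by
      by_contra hne
      exact hH ⟨a, b, ha, hab, Or.inr ⟨h5, hne⟩⟩
    obtain ⟨σ', T', hk, hT⟩ := ih _ _ h4
    refine ⟨σ', T', hk, fun s hs => hT s ?_⟩
    generalize Nat.mod σ 2 = o
    rcases o with _ | o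
    · exact TOK_upd F s T a b (by omega) hb hF hs
    · exact TOK_upd F s T b a ha (by omega) hF.symm hs

theorem nes_sound (F : ℕ → ℕ) (s C T x : ℕ) (hC : C < CBIG) (hH : ¬ Holds F C)
    (hT : TOK F s T) (hx : Ft F s x = s) (k : ℕ → ℕ → Bool) (h : ℕ) :
    ∀ σ X : ℕ, (∀ t, X.testBit t = true → Ft F s t ≠ s) → nes C T x k h σ X = true →
      ∃ σ' X', k σ' X' = true ∧ ∀ t, X'.testBit t = true → Ft F s t ≠ s := by
  induction h with
  | zero => intro σ X hX h; exact ⟨σ, X, h, hX⟩
  | succ n ih =>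
    intro σ X hX h
    have h1 : neB C T x (nes C T x k n) (Nat.shiftRight σ 15) X (Nat.mod σ 2)
      (Nat.add (f7 σ 1) 1) (Nat.add (Nat.add (f7 σ 1) (f7 σ 8)) 2) = true := h
    obtain ⟨a, ha0⟩ : ∃ a, a = Nat.add (f7 σ 1) 1 := ⟨_, rfl⟩
    obtain ⟨b, hb0⟩ : ∃ b, b = Nat.add (Nat.add (f7 σ 1) (f7 σ 8)) 2 := ⟨_, rfl⟩
    rw [← ha0, ← hb0] at h1
    have ha : 1 ≤ a := by rw [ha0]; exact Nat.succ_le_succ (Nat.zero_le _)
    have hab : a < b := by
      have e1 : a = f7 σ 1 + 1 := ha0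
      have e2 : b = f7 σ 1 + f7 σ 8 + 2 := hb0
      omega
    have key : ∀ p q : ℕ, (p = a ∧ q = b ∨ p = b ∧ q = a) →
        neA C T x (nes C T x k n) (Nat.shiftRight σ 15) X a b p q = true →
        ∃ σ' X', k σ' X' = true ∧ ∀ t, X'.testBit t = true → Ft F s t ≠ s := by
      intro p q hpq h2
      have h3 : (bt C (2 * pos a b + 0) && (Nat.beq (l8 T q) x &&
        nes C T x k n (Nat.shiftRight σ 15) (X ||| (1 <<< (l8 T p))))) = true := h2
      rw [Bool.and_eq_true, Bool.and_eq_true] at h3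
      obtain ⟨h4, h5, h6⟩ := h3
      have h7 := bt_testBit _ _ h4
      have hb : b ≤ 77 := le_of_bit C a b 0 hC h7
      have hne : F a ≠ F b := by
        intro he
        exact hH ⟨a, b, ha, hab, Or.inl ⟨h7, he⟩⟩
      have h8 : l8 T q = x := by simpa using h5
      have hq : F q = s := by
        rcases hpq with ⟨_, h9⟩ | ⟨_, h9⟩
        · rw [h9, hT b (by omega) hb, ← h9, h8, hx]
        · rw [h9, hT a ha (by omega), ← h9, h8, hx]
      have hp : F p = Ft F s (l8 T p) := by
        rcases hpq with ⟨h9, _⟩ | ⟨h9, _⟩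
        · rw [h9]; exact hT a ha (by omega)
        · rw [h9]; exact hT b (by omega) hb
      have hpn : F p ≠ s := by
        rw [← hq]
        rcases hpq with ⟨h9, h10⟩ | ⟨h9, h10⟩
        · rw [h9, h10]; exact hne
        · rw [h9, h10]; exact hne.symm
      apply ih _ _ ?_ h6
      intro t ht
      rw [Nat.testBit_or, Bool.or_eq_true] at ht
      rcases ht with ht | ht
      · exact hX t ht
      · rw [Nat.one_shiftLeft, Nat.testBit_two_pow] at ht
        have h11 : l8 T p = t := by simpa using ht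
        rw [← h11, ← hp]
        exact hpn
    have h2 : (Nat.rec (neA C T x (nes C T x k n) (Nat.shiftRight σ 15) X a b a b)
      (fun _ _ => neA C T x (nes C T x k n) (Nat.shiftRight σ 15) X a b b a)
        (Nat.mod σ 2) : Bool) = true := h1
    generalize Nat.mod σ 2 = o at h2
    rcases o with _ | o
    · exact key a b (Or.inl ⟨rfl, rfl⟩) h2
    · exact key b a (Or.inr ⟨rfl, rfl⟩) h2

end RepM

open RepM

/-- module REP -/
theorem specRep : SpecRep where
  edges := fun F C T k h σ hC hH hk => edges_sound F C hC hH k h σ T hk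
  nes := fun F s C T x k h σ X hC hH hT hx hX hk =>
    nes_sound F s C T x hC hH hT hx k h σ X hX hk
  init := by
    intro F s i hi hi'
    rw [l8_T0 i (by omega)]
    unfold Ft
    rw [if_neg (by omega)]
  initb := by
    intro F b hb hb' i hi hi'
    rw [l8_xor T0 b b i (by omega)]
    split_ifs with h
    · rw [h, l8_T0 b (by omega)]
      have h1 : Nat.xor b b = 0 := Nat.xor_self b
      rw [h1]
      unfold Ft
      rw [if_pos rfl]
    · rw [l8_T0 i (by omega)]
      unfold Ft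
      rw [if_neg (by omega)]

end Chk

end MP26f323
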