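import Pool.Agent.Lib.MP_26f323_al.Spec3

/-!
MP_26f323_al: soundness of the resolution steps (module RES).
-/

set_option autoImplicit false

namespace MP26f323

namespace Chk

namespace ResM

theorem frc_eq {α : Type} (n : ℕ) (f : ℕ → α) : frc n f = f n := rfl

theorem xor_one_cases {m m' e e' : ℕ} (he : e < 2) (he' : e' < 2)
    (h : 2 * m + e = (2 * m' + e') ^^^ 1) : m = m' ∧ e ≠ e' := by
  have h1 : (2 * m + e) / 2 = ((2 * m' + e') ^^^ 1) / 2 := by rw [h]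
  have h2 : (2 * m + e) % 2 = ((2 * m' + e') ^^^ 1) % 2 := by rw [h]
  rw [Nat.xor_div_two] at h1
  rw [Nat.xor_mod_two_eq] at h2
  have h3 : (1 : ℕ) / 2 = 0 := rfl
  rw [h3, Nat.xor_zero] at h1
  constructor <;> omega

theorem tb_shl1 (k q : ℕ) : (Nat.shiftLeft 1 k).testBit q = decide (k = q) := by
  have h : Nat.shiftLeft 1 k = 2 ^ k := Nat.one_shiftLeft k
  rw [h, Nat.testBit_two_pow]

theorem tb_shl (x k e : ℕ) : (Nat.shiftLeft x k).testBit (k + e) = x.testBit e := by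
  have h : (Nat.shiftLeft x k).testBit (k + e) = (x <<< k).testBit (k + e) := rfl
  rw [h, Nat.testBit_shiftLeft]
  simp

theorem tb_res (C R p q : ℕ) : (res C R p).testBit q =
    ((C.testBit q ^^ decide (Nat.xor p 1 = q)) || (R.testBit q ^^ decide (p = q))) := by
  have h : res C R p = (C ^^^ Nat.shiftLeft 1 (Nat.xor p 1)) ||| (R ^^^ Nat.shiftLeft 1 p) := rfl
  rw [h, Nat.testBit_or, Nat.testBit_xor, Nat.testBit_xor, tb_shl1, tb_shl1]

/-- a true literal -/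
def Lit (F : ℕ → ℕ) (a b e : ℕ) : Prop := (e = 0 ∧ F a = F b) ∨ (e = 1 ∧ F a ≠ F b)

theorem holds_iff (F : ℕ → ℕ) (C : ℕ) : Holds F C ↔
    ∃ a b e : ℕ, 1 ≤ a ∧ a < b ∧ C.testBit (2 * pos a b + e) = true ∧ Lit F a b e := by
  constructor
  · rintro ⟨a, b, h1, h2, h3 | h3⟩
    · exact ⟨a, b, 0, h1, h2, h3.1, Or.inl ⟨rfl, h3.2⟩⟩
    · exact ⟨a, b, 1, h1, h2, h3.1, Or.inr ⟨rfl, h3.2⟩⟩
  · rintro ⟨a, b, e, h1, h2, h3, ⟨rfl, h4⟩ | ⟨rfl, h4⟩⟩
    · exact ⟨a, b, h1, h2, Or.inl ⟨h3, h4⟩⟩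
    · exact ⟨a, b, h1, h2, Or.inr ⟨h3, h4⟩⟩

theorem Lit.lt {F : ℕ → ℕ} {a b e : ℕ} (h : Lit F a b e) : e < 2 := by
  rcases h with h | h <;> omega

theorem res_sound (hL : SpecLane) {F : ℕ → ℕ} {C R p : ℕ} (hC : Holds F C) (hR : Holds F R) :
    Holds F (res C R p) := by
  rw [holds_iff] at hC hR ⊢
  obtain ⟨a, b, e, ha, hab, hbit, hlit⟩ := hC
  obtain ⟨a', b', e', ha', hab', hbit', hlit'⟩ := hR
  by_cases h1 : Nat.xor p 1 = 2 * pos a b + e
  · by_cases h2 : p = 2 * pos a' b' + e'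
    · exfalso
      have h3 : 2 * pos a b + e = (2 * pos a' b' + e') ^^^ 1 := by
        rw [← h1, h2]
        rfl
      obtain ⟨h4, h5⟩ := xor_one_cases hlit.lt hlit'.lt h3
      obtain ⟨rfl, rfl⟩ := hL.pos_inj a b a' b' ha hab.le ha' hab'.le h4
      rcases hlit with ⟨h6, h7⟩ | ⟨h6, h7⟩ <;> rcases hlit' with ⟨h8, h9⟩ | ⟨h8, h9⟩
      · exact h5 (h6.trans h8.symm)
      · exact h9 h7
      · exact h7 h9
      · exact h5 (h6.trans h8.symm)
    · refine ⟨a', b', e', ha', hab', ?_, hlit'⟩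
      rw [tb_res, hbit']
      simp [h2]
  · refine ⟨a, b, e, ha, hab, ?_, hlit⟩
    rw [tb_res, hbit, decide_eq_false h1]
    rfl

theorem tb_tri3 (x y z a b c q : ℕ) : (tri3 x y z a b c).testBit q =
    ((Nat.shiftLeft x (2 * a)).testBit q || ((Nat.shiftLeft y (2 * b)).testBit q ||
      (Nat.shiftLeft z (2 * c)).testBit q)) := by
  have h : tri3 x y z a b c = Nat.shiftLeft x (2 * a) ||| (Nat.shiftLeft y (2 * b) |||
      Nat.shiftLeft z (2 * c)) := rfl
  rw [h, Nat.testBit_or, Nat.testBit_or]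

theorem tri_sound (F : ℕ → ℕ) (ty a b c : ℕ) (ha : 1 ≤ a) (hab : a < b) (hbc : b < c) :
    Holds F (tri ty a b c) := by
  rw [holds_iff]
  have key : ∀ x y z : ℕ, (x, y, z) = (2, 2, 1) ∨ (x, y, z) = (2, 1, 2) ∨
      (x, y, z) = (1, 2, 2) →
      ∃ a' b' e : ℕ, 1 ≤ a' ∧ a' < b' ∧
        (tri3 x y z (pos a b) (pos b c) (pos a c)).testBit (2 * pos a' b' + e) = true ∧
          Lit F a' b' e := by
    intro x y z hxyz
    have hx : ∀ e, x.testBit e = true → Lit F a b e →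
        ∃ a' b' e : ℕ, 1 ≤ a' ∧ a' < b' ∧
        (tri3 x y z (pos a b) (pos b c) (pos a c)).testBit (2 * pos a' b' + e) = true ∧
          Lit F a' b' e := by
      intro e he hlit
      refine ⟨a, b, e, ha, hab, ?_, hlit⟩
      rw [tb_tri3, tb_shl, he]
      rfl
    have hy : ∀ e, y.testBit e = true → Lit F b c e →
        ∃ a' b' e : ℕ, 1 ≤ a' ∧ a' < b' ∧
        (tri3 x y z (pos a b) (pos b c) (pos a c)).testBit (2 * pos a' b' + e) = true ∧
          Lit F a' b' e := by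
      intro e he hlit
      refine ⟨b, c, e, by omega, hbc, ?_, hlit⟩
      rw [tb_tri3, tb_shl y, he]
      simp
    have hz : ∀ e, z.testBit e = true → Lit F a c e →
        ∃ a' b' e : ℕ, 1 ≤ a' ∧ a' < b' ∧
        (tri3 x y z (pos a b) (pos b c) (pos a c)).testBit (2 * pos a' b' + e) = true ∧
          Lit F a' b' e := by
      intro e he hlit
      refine ⟨a, c, e, ha, by omega, ?_, hlit⟩
      rw [tb_tri3, tb_shl z, he]
      simp
    have b20 : Nat.testBit 2 1 = true := rfl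
    have b10 : Nat.testBit 1 0 = true := rfl
    simp only [Prod.mk.injEq] at hxyz
    rcases hxyz with ⟨rfl, rfl, rfl⟩ | ⟨rfl, rfl, rfl⟩ | ⟨rfl, rfl, rfl⟩
    · by_cases h1 : F a = F b
      · by_cases h2 : F b = F c
        · exact hz 0 b10 (Or.inl ⟨rfl, h1.trans h2⟩)
        · exact hy 1 b20 (Or.inr ⟨rfl, h2⟩)
      · exact hx 1 b20 (Or.inr ⟨rfl, h1⟩)
    · by_cases h1 : F a = F b
      · by_cases h2 : F b = F c
        · exact hy 0 b10 (Or.inl ⟨rfl, h2⟩)
        · exact hz 1 b20 (Or.inr ⟨rfl, fun h3 => h2 (h1.symm.trans h3)⟩)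
      · exact hx 1 b20 (Or.inr ⟨rfl, h1⟩)
    · by_cases h1 : F a = F b
      · exact hx 0 b10 (Or.inl ⟨rfl, h1⟩)
      · by_cases h2 : F b = F c
        · exact hz 1 b20 (Or.inr ⟨rfl, fun h3 => h1 (h3.trans h2.symm)⟩)
        · exact hy 1 b20 (Or.inr ⟨rfl, h2⟩)
  rcases ty with _ | ty
  · exact key 2 2 1 (Or.inl rfl)
  · rcases ty with _ | ty
    · exact key 2 1 2 (Or.inr (Or.inl rfl))
    · exact key 1 2 2 (Or.inr (Or.inr rfl))

theorem end_sound {F : ℕ → ℕ} {C D : ℕ} (hD : Holds F D) (h : Nat.beq (Nat.lor D C) C = true) :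
    Holds F C := by
  have h1 : D ||| C = C := Nat.eq_of_beq_eq_true h
  rw [holds_iff] at hD ⊢
  obtain ⟨a, b, e, ha, hab, hbit, hlit⟩ := hD
  refine ⟨a, b, e, ha, hab, ?_, hlit⟩
  rw [← h1, Nat.testBit_or, hbit]
  rfl

theorem chain_sound (hL : SpecLane) {F : ℕ → ℕ} {db : ℕ → ℕ} {n C : ℕ}
    (hdb : ∀ m, m < n → Holds F (db m)) : ∀ (h s D : ℕ), Holds F D →
      chain db n C h s D = true → Holds F C := by
  intro h
  induction h with
  | zero =>
    intro s D hD hc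
    exact end_sound hD hc
  | succ h ih =>
    intro s D hD hc
    have h1 : chS db n (chain db n C h) s D = true := hc
    unfold chS at h1
    generalize Nat.mod (Nat.shiftRight s 13) 2 = o at h1
    rcases o with _ | o
    · have h2 : Bool.and (Nat.blt (Nat.mod (Nat.shiftRight s 14) 8192) n)
          (chain db n C h (Nat.shiftRight s 27) (res D (db (Nat.mod (Nat.shiftRight s 14) 8192))
            (Nat.mod s 8192))) = true := h1
      rw [Bool.and_eq_true] at h2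
      obtain ⟨h3, h4⟩ := h2
      have h5 : Nat.mod (Nat.shiftRight s 14) 8192 < n := by simpa [Nat.blt_eq] using h3
      exact ih _ _ (res_sound hL hD (hdb _ h5)) h4
    · have h2 : chain db n C h (Nat.shiftRight s 37) (res D (tri (Nat.mod (Nat.shiftRight s 14) 4)
          (f7 s 16 + 1) ((f7 s 16 + 1) + f7 s 23 + 1)
            (((f7 s 16 + 1) + f7 s 23 + 1) + (f7 s 30 + 1))) (Nat.mod s 8192)) = true := h1
      refine ih _ _ (res_sound hL hD (tri_sound F _ _ _ _ ?_ ?_ ?_)) h2 <;> omega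

end ResM

open ResM in
theorem specRes (hL : SpecLane) : SpecRes := by
  intro F db n C s hdb h
  have h1 : chain db n C (Nat.mod s 4096) (Nat.shiftRight s 26)
      (Nat.shiftLeft 3 (2 * pos (f7 s 12 + 1) (f7 s 12 + f7 s 19 + 2))) = true := h
  refine chain_sound hL hdb _ _ _ ?_ h1
  rw [holds_iff]
  have b0 : Nat.testBit 3 0 = true := rfl
  have b1 : Nat.testBit 3 1 = true := rfl
  by_cases hF : F (f7 s 12 + 1) = F (f7 s 12 + f7 s 19 + 2)
  · exact ⟨_, _, 0, by omega, by omega, by rw [tb_shl, b0], Or.inl ⟨rfl, hF⟩⟩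
  · exact ⟨_, _, 1, by omega, by omega, by rw [tb_shl, b1], Or.inr ⟨rfl, hF⟩⟩

end Chk

end MP26f323
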