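import Pool.Agent.Lib.MP_26f323_al.Dbt

/-!
MP_26f323_al: evaluation of the certificate, steps 271 to 541.
-/

set_option autoImplicit false
set_option maxRecDepth 100000

namespace MP26f323

namespace Chk

theorem run_271 : chunk dat db rc 271 46 = true := by decide +kernel

theorem run_317 : chunk dat db rc 317 46 = true := by decide +kernel

theorem run_363 : chunk dat db rc 363 46 = true := by decide +kernel

theorem run_409 : chunk dat db rc 409 46 = true := by decide +kernel

theorem run_455 : chunk dat db rc 455 46 = true := by decide +kernel

theorem run_501 : chunk dat db rc 501 41 = true := by decide +kernel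

theorem runs_1 : ∀ n, 271 ≤ n → n < 542 → step dat db rc n = true := by
  intro n h1 h2
  rcases lt_or_ge n 317 with h | h
  · exact of_chunk run_271 n (by omega) (by omega)
  rcases lt_or_ge n 363 with h | h
  · exact of_chunk run_317 n (by omega) (by omega)
  rcases lt_or_ge n 409 with h | h
  · exact of_chunk run_363 n (by omega) (by omega)
  rcases lt_or_ge n 455 with h | h
  · exact of_chunk run_409 n (by omega) (by omega)
  rcases lt_or_ge n 501 with h | h
  · exact of_chunk run_455 n (by omega) (by omega)
  exact of_chunk run_501 n (by omega) (by omega)

end Chk

end MP26f323
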