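import Pool.Agent.Lib.MP_26f323_al.Run7

/-!
MP_26f323_al: evaluation of the certificate, steps 2710 to 2980.
-/

set_option autoImplicit false
set_option maxRecDepth 100000

namespace MP26f323

namespace Chk

theorem run_2710 : chunk dat db rc 2710 46 = true := by decide +kernel

theorem run_2756 : chunk dat db rc 2756 46 = true := by decide +kernel

theorem run_2802 : chunk dat db rc 2802 46 = true := by decide +kernel

theorem run_2848 : chunk dat db rc 2848 46 = true := by decide +kernel

theorem run_2894 : chunk dat db rc 2894 46 = true := by decide +kernel

theorem run_2940 : chunk dat db rc 2940 41 = true := by decide +kernel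

theorem runs_10 : ∀ n, 2710 ≤ n → n < 2981 → step dat db rc n = true := by
  intro n h1 h2
  rcases lt_or_ge n 2756 with h | h
  · exact of_chunk run_2710 n (by omega) (by omega)
  rcases lt_or_ge n 2802 with h | h
  · exact of_chunk run_2756 n (by omega) (by omega)
  rcases lt_or_ge n 2848 with h | h
  · exact of_chunk run_2802 n (by omega) (by omega)
  rcases lt_or_ge n 2894 with h | h
  · exact of_chunk run_2848 n (by omega) (by omega)
  rcases lt_or_ge n 2940 with h | h
  · exact of_chunk run_2894 n (by omega) (by omega)
  exact of_chunk run_2940 n (by omega) (by omega)

end Chk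

end MP26f323
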