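import Pool.Agent.Lib.MP_26f323_al.Run8

/-!
MP_26f323_al: evaluation of the certificate, steps 2981 to 3251.
-/

set_option autoImplicit false
set_option maxRecDepth 100000

namespace MP26f323

namespace Chk

theorem run_2981 : chunk dat db rc 2981 46 = true := by decide +kernel

theorem run_3027 : chunk dat db rc 3027 46 = true := by decide +kernel

theorem run_3073 : chunk dat db rc 3073 46 = true := by decide +kernel

theorem run_3119 : chunk dat db rc 3119 46 = true := by decide +kernel

theorem run_3165 : chunk dat db rc 3165 46 = true := by decide +kernel

theorem run_3211 : chunk dat db rc 3211 41 = true := by decide +kernel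

theorem runs_11 : ∀ n, 2981 ≤ n → n < 3252 → step dat db rc n = true := by
  intro n h1 h2
  rcases lt_or_ge n 3027 with h | h
  · exact of_chunk run_2981 n (by omega) (by omega)
  rcases lt_or_ge n 3073 with h | h
  · exact of_chunk run_3027 n (by omega) (by omega)
  rcases lt_or_ge n 3119 with h | h
  · exact of_chunk run_3073 n (by omega) (by omega)
  rcases lt_or_ge n 3165 with h | h
  · exact of_chunk run_3119 n (by omega) (by omega)
  rcases lt_or_ge n 3211 with h | h
  · exact of_chunk run_3165 n (by omega) (by omega)
  exact of_chunk run_3211 n (by omega) (by omega)

end Chk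

end MP26f323
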