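import Pool.Agent.Lib.MP_26f323_al.Run9

/-!
MP_26f323_al: evaluation of the certificate, steps 3252 to 3522.
-/

set_option autoImplicit false
set_option maxRecDepth 100000

namespace MP26f323

namespace Chk

theorem run_3252 : chunk dat db rc 3252 46 = true := by decide +kernel

theorem run_3298 : chunk dat db rc 3298 46 = true := by decide +kernel

theorem run_3344 : chunk dat db rc 3344 46 = true := by decide +kernel

theorem run_3390 : chunk dat db rc 3390 46 = true := by decide +kernel

theorem run_3436 : chunk dat db rc 3436 46 = true := by decide +kernel

theorem run_3482 : chunk dat db rc 3482 41 = true := by decide +kernel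

theorem runs_12 : ∀ n, 3252 ≤ n → n < 3523 → step dat db rc n = true := by
  intro n h1 h2
  rcases lt_or_ge n 3298 with h | h
  · exact of_chunk run_3252 n (by omega) (by omega)
  rcases lt_or_ge n 3344 with h | h
  · exact of_chunk run_3298 n (by omega) (by omega)
  rcases lt_or_ge n 3390 with h | h
  · exact of_chunk run_3344 n (by omega) (by omega)
  rcases lt_or_ge n 3436 with h | h
  · exact of_chunk run_3390 n (by omega) (by omega)
  rcases lt_or_ge n 3482 with h | h
  · exact of_chunk run_3436 n (by omega) (by omega)
  exact of_chunk run_3482 n (by omega) (by omega)

end Chk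

end MP26f323
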