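import Pool.Agent.Lib.MP_26f323_al.Run11

/-!
MP_26f323_al: evaluation of the certificate, steps 3794 to 4064.
-/

set_option autoImplicit false
set_option maxRecDepth 100000

namespace MP26f323

namespace Chk

theorem run_3794 : chunk dat db rc 3794 46 = true := by decide +kernel

theorem run_3840 : chunk dat db rc 3840 46 = true := by decide +kernel

theorem run_3886 : chunk dat db rc 3886 46 = true := by decide +kernel

theorem run_3932 : chunk dat db rc 3932 46 = true := by decide +kernel

theorem run_3978 : chunk dat db rc 3978 46 = true := by decide +kernel

theorem run_4024 : chunk dat db rc 4024 41 = true := by decide +kernel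

theorem runs_14 : ∀ n, 3794 ≤ n → n < 4065 → step dat db rc n = true := by
  intro n h1 h2
  rcases lt_or_ge n 3840 with h | h
  · exact of_chunk run_3794 n (by omega) (by omega)
  rcases lt_or_ge n 3886 with h | h
  · exact of_chunk run_3840 n (by omega) (by omega)
  rcases lt_or_ge n 3932 with h | h
  · exact of_chunk run_3886 n (by omega) (by omega)
  rcases lt_or_ge n 3978 with h | h
  · exact of_chunk run_3932 n (by omega) (by omega)
  rcases lt_or_ge n 4024 with h | h
  · exact of_chunk run_3978 n (by omega) (by omega)
  exact of_chunk run_4024 n (by omega) (by omega)

end Chk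

end MP26f323
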