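import Pool.Agent.Lib.MP_26f323_al.Run12

/-!
MP_26f323_al: evaluation of the certificate, steps 4065 to 4335.
-/

set_option autoImplicit false
set_option maxRecDepth 100000

namespace MP26f323

namespace Chk

theorem run_4065 : chunk dat db rc 4065 46 = true := by decide +kernel

theorem run_4111 : chunk dat db rc 4111 46 = true := by decide +kernel

theorem run_4157 : chunk dat db rc 4157 46 = true := by decide +kernel

theorem run_4203 : chunk dat db rc 4203 46 = true := by decide +kernel

theorem run_4249 : chunk dat db rc 4249 46 = true := by decide +kernel

theorem run_4295 : chunk dat db rc 4295 41 = true := by decide +kernel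

theorem runs_15 : ∀ n, 4065 ≤ n → n < 4336 → step dat db rc n = true := by
  intro n h1 h2
  rcases lt_or_ge n 4111 with h | h
  · exact of_chunk run_4065 n (by omega) (by omega)
  rcases lt_or_ge n 4157 with h | h
  · exact of_chunk run_4111 n (by omega) (by omega)
  rcases lt_or_ge n 4203 with h | h
  · exact of_chunk run_4157 n (by omega) (by omega)
  rcases lt_or_ge n 4249 with h | h
  · exact of_chunk run_4203 n (by omega) (by omega)
  rcases lt_or_ge n 4295 with h | h
  · exact of_chunk run_4249 n (by omega) (by omega)
  exact of_chunk run_4295 n (by omega) (by omega)

end Chk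

end MP26f323
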