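import Pool.Agent.Lib.MP_26f323_al.Dbt

/-!
MP_26f323_al: evaluation of the certificate, steps 542 to 812.
-/

set_option autoImplicit false
set_option maxRecDepth 100000

namespace MP26f323

namespace Chk

theorem run_542 : chunk dat db rc 542 46 = true := by decide +kernel

theorem run_588 : chunk dat db rc 588 46 = true := by decide +kernel

theorem run_634 : chunk dat db rc 634 46 = true := by decide +kernel

theorem run_680 : chunk dat db rc 680 46 = true := by decide +kernel

theorem run_726 : chunk dat db rc 726 46 = true := by decide +kernel

theorem run_772 : chunk dat db rc 772 41 = true := by decide +kernel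

theorem runs_2 : ∀ n, 542 ≤ n → n < 813 → step dat db rc n = true := by
  intro n h1 h2
  rcases lt_or_ge n 588 with h | h
  · exact of_chunk run_542 n (by omega) (by omega)
  rcases lt_or_ge n 634 with h | h
  · exact of_chunk run_588 n (by omega) (by omega)
  rcases lt_or_ge n 680 with h | h
  · exact of_chunk run_634 n (by omega) (by omega)
  rcases lt_or_ge n 726 with h | h
  · exact of_chunk run_680 n (by omega) (by omega)
  rcases lt_or_ge n 772 with h | h
  · exact of_chunk run_726 n (by omega) (by omega)
  exact of_chunk run_772 n (by omega) (by omega)

end Chk

end MP26f323
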