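import Pool.Agent.Lib.MP_26f323_al.Run0

/-!
MP_26f323_al: evaluation of the certificate, steps 813 to 1083.
-/

set_option autoImplicit false
set_option maxRecDepth 100000

namespace MP26f323

namespace Chk

theorem run_813 : chunk dat db rc 813 46 = true := by decide +kernel

theorem run_859 : chunk dat db rc 859 46 = true := by decide +kernel

theorem run_905 : chunk dat db rc 905 46 = true := by decide +kernel

theorem run_951 : chunk dat db rc 951 46 = true := by decide +kernel

theorem run_997 : chunk dat db rc 997 46 = true := by decide +kernel

theorem run_1043 : chunk dat db rc 1043 41 = true := by decide +kernel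

theorem runs_3 : ∀ n, 813 ≤ n → n < 1084 → step dat db rc n = true := by
  intro n h1 h2
  rcases lt_or_ge n 859 with h | h
  · exact of_chunk run_813 n (by omega) (by omega)
  rcases lt_or_ge n 905 with h | h
  · exact of_chunk run_859 n (by omega) (by omega)
  rcases lt_or_ge n 951 with h | h
  · exact of_chunk run_905 n (by omega) (by omega)
  rcases lt_or_ge n 997 with h | h
  · exact of_chunk run_951 n (by omega) (by omega)
  rcases lt_or_ge n 1043 with h | h
  · exact of_chunk run_997 n (by omega) (by omega)
  exact of_chunk run_1043 n (by omega) (by omega)

end Chk

end MP26f323
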