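import Pool.Agent.Lib.MP_26f323_al.Run1

/-!
MP_26f323_al: evaluation of the certificate, steps 1084 to 1354.
-/

set_option autoImplicit false
set_option maxRecDepth 100000

namespace MP26f323

namespace Chk

theorem run_1084 : chunk dat db rc 1084 46 = true := by decide +kernel

theorem run_1130 : chunk dat db rc 1130 46 = true := by decide +kernel

theorem run_1176 : chunk dat db rc 1176 46 = true := by decide +kernel

theorem run_1222 : chunk dat db rc 1222 46 = true := by decide +kernel

theorem run_1268 : chunk dat db rc 1268 46 = true := by decide +kernel

theorem run_1314 : chunk dat db rc 1314 41 = true := by decide +kernel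

theorem runs_4 : ∀ n, 1084 ≤ n → n < 1355 → step dat db rc n = true := by
  intro n h1 h2
  rcases lt_or_ge n 1130 with h | h
  · exact of_chunk run_1084 n (by omega) (by omega)
  rcases lt_or_ge n 1176 with h | h
  · exact of_chunk run_1130 n (by omega) (by omega)
  rcases lt_or_ge n 1222 with h | h
  · exact of_chunk run_1176 n (by omega) (by omega)
  rcases lt_or_ge n 1268 with h | h
  · exact of_chunk run_1222 n (by omega) (by omega)
  rcases lt_or_ge n 1314 with h | h
  · exact of_chunk run_1268 n (by omega) (by omega)
  exact of_chunk run_1314 n (by omega) (by omega)

end Chk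

end MP26f323
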