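import Pool.Agent.Lib.MP_26f323_al.Run2

/-!
MP_26f323_al: evaluation of the certificate, steps 1355 to 1625.
-/

set_option autoImplicit false
set_option maxRecDepth 100000

namespace MP26f323

namespace Chk

theorem run_1355 : chunk dat db rc 1355 46 = true := by decide +kernel

theorem run_1401 : chunk dat db rc 1401 46 = true := by decide +kernel

theorem run_1447 : chunk dat db rc 1447 46 = true := by decide +kernel

theorem run_1493 : chunk dat db rc 1493 46 = true := by decide +kernel

theorem run_1539 : chunk dat db rc 1539 46 = true := by decide +kernel

theorem run_1585 : chunk dat db rc 1585 41 = true := by decide +kernel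

theorem runs_5 : ∀ n, 1355 ≤ n → n < 1626 → step dat db rc n = true := by
  intro n h1 h2
  rcases lt_or_ge n 1401 with h | h
  · exact of_chunk run_1355 n (by omega) (by omega)
  rcases lt_or_ge n 1447 with h | h
  · exact of_chunk run_1401 n (by omega) (by omega)
  rcases lt_or_ge n 1493 with h | h
  · exact of_chunk run_1447 n (by omega) (by omega)
  rcases lt_or_ge n 1539 with h | h
  · exact of_chunk run_1493 n (by omega) (by omega)
  rcases lt_or_ge n 1585 with h | h
  · exact of_chunk run_1539 n (by omega) (by omega)
  exact of_chunk run_1585 n (by omega) (by omega)

end Chk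

end MP26f323
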