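import Pool.Agent.Lib.MP_26f323_al.Run3

/-!
MP_26f323_al: evaluation of the certificate, steps 1626 to 1896.
-/

set_option autoImplicit false
set_option maxRecDepth 100000

namespace MP26f323

namespace Chk

theorem run_1626 : chunk dat db rc 1626 46 = true := by decide +kernel

theorem run_1672 : chunk dat db rc 1672 46 = true := by decide +kernel

theorem run_1718 : chunk dat db rc 1718 46 = true := by decide +kernel

theorem run_1764 : chunk dat db rc 1764 46 = true := by decide +kernel

theorem run_1810 : chunk dat db rc 1810 46 = true := by decide +kernel

theorem run_1856 : chunk dat db rc 1856 41 = true := by decide +kernel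

theorem runs_6 : ∀ n, 1626 ≤ n → n < 1897 → step dat db rc n = true := by
  intro n h1 h2
  rcases lt_or_ge n 1672 with h | h
  · exact of_chunk run_1626 n (by omega) (by omega)
  rcases lt_or_ge n 1718 with h | h
  · exact of_chunk run_1672 n (by omega) (by omega)
  rcases lt_or_ge n 1764 with h | h
  · exact of_chunk run_1718 n (by omega) (by omega)
  rcases lt_or_ge n 1810 with h | h
  · exact of_chunk run_1764 n (by omega) (by omega)
  rcases lt_or_ge n 1856 with h | h
  · exact of_chunk run_1810 n (by omega) (by omega)
  exact of_chunk run_1856 n (by omega) (by omega)

end Chk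

end MP26f323
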