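import Pool.Agent.Lib.MP_26f323_al.Run4

/-!
MP_26f323_al: evaluation of the certificate, steps 1897 to 2167.
-/

set_option autoImplicit false
set_option maxRecDepth 100000

namespace MP26f323

namespace Chk

theorem run_1897 : chunk dat db rc 1897 46 = true := by decide +kernel

theorem run_1943 : chunk dat db rc 1943 46 = true := by decide +kernel

theorem run_1989 : chunk dat db rc 1989 46 = true := by decide +kernel

theorem run_2035 : chunk dat db rc 2035 46 = true := by decide +kernel

theorem run_2081 : chunk dat db rc 2081 46 = true := by decide +kernel

theorem run_2127 : chunk dat db rc 2127 41 = true := by decide +kernel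

theorem runs_7 : ∀ n, 1897 ≤ n → n < 2168 → step dat db rc n = true := by
  intro n h1 h2
  rcases lt_or_ge n 1943 with h | h
  · exact of_chunk run_1897 n (by omega) (by omega)
  rcases lt_or_ge n 1989 with h | h
  · exact of_chunk run_1943 n (by omega) (by omega)
  rcases lt_or_ge n 2035 with h | h
  · exact of_chunk run_1989 n (by omega) (by omega)
  rcases lt_or_ge n 2081 with h | h
  · exact of_chunk run_2035 n (by omega) (by omega)
  rcases lt_or_ge n 2127 with h | h
  · exact of_chunk run_2081 n (by omega) (by omega)
  exact of_chunk run_2127 n (by omega) (by omega)

end Chk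

end MP26f323
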