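import Pool.Agent.Lib.MP_26f323_al.Run5

/-!
MP_26f323_al: evaluation of the certificate, steps 2168 to 2438.
-/

set_option autoImplicit false
set_option maxRecDepth 100000

namespace MP26f323

namespace Chk

theorem run_2168 : chunk dat db rc 2168 46 = true := by decide +kernel

theorem run_2214 : chunk dat db rc 2214 46 = true := by decide +kernel

theorem run_2260 : chunk dat db rc 2260 46 = true := by decide +kernel

theorem run_2306 : chunk dat db rc 2306 46 = true := by decide +kernel

theorem run_2352 : chunk dat db rc 2352 46 = true := by decide +kernel

theorem run_2398 : chunk dat db rc 2398 41 = true := by decide +kernel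

theorem runs_8 : ∀ n, 2168 ≤ n → n < 2439 → step dat db rc n = true := by
  intro n h1 h2
  rcases lt_or_ge n 2214 with h | h
  · exact of_chunk run_2168 n (by omega) (by omega)
  rcases lt_or_ge n 2260 with h | h
  · exact of_chunk run_2214 n (by omega) (by omega)
  rcases lt_or_ge n 2306 with h | h
  · exact of_chunk run_2260 n (by omega) (by omega)
  rcases lt_or_ge n 2352 with h | h
  · exact of_chunk run_2306 n (by omega) (by omega)
  rcases lt_or_ge n 2398 with h | h
  · exact of_chunk run_2352 n (by omega) (by omega)
  exact of_chunk run_2398 n (by omega) (by omega)

end Chk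

end MP26f323
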