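import Pool.Agent.Lib.MP_26f323_al.Run6

/-!
MP_26f323_al: evaluation of the certificate, steps 2439 to 2709.
-/

set_option autoImplicit false
set_option maxRecDepth 100000

namespace MP26f323

namespace Chk

theorem run_2439 : chunk dat db rc 2439 46 = true := by decide +kernel

theorem run_2485 : chunk dat db rc 2485 46 = true := by decide +kernel

theorem run_2531 : chunk dat db rc 2531 46 = true := by decide +kernel

theorem run_2577 : chunk dat db rc 2577 46 = true := by decide +kernel

theorem run_2623 : chunk dat db rc 2623 46 = true := by decide +kernel

theorem run_2669 : chunk dat db rc 2669 41 = true := by decide +kernel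

theorem runs_9 : ∀ n, 2439 ≤ n → n < 2710 → step dat db rc n = true := by
  intro n h1 h2
  rcases lt_or_ge n 2485 with h | h
  · exact of_chunk run_2439 n (by omega) (by omega)
  rcases lt_or_ge n 2531 with h | h
  · exact of_chunk run_2485 n (by omega) (by omega)
  rcases lt_or_ge n 2577 with h | h
  · exact of_chunk run_2531 n (by omega) (by omega)
  rcases lt_or_ge n 2623 with h | h
  · exact of_chunk run_2577 n (by omega) (by omega)
  rcases lt_or_ge n 2669 with h | h
  · exact of_chunk run_2623 n (by omega) (by omega)
  exact of_chunk run_2669 n (by omega) (by omega)

end Chk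

end MP26f323
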