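import Pool.Agent.Lib.MP_26f323_al.Run0
import Pool.Agent.Lib.MP_26f323_al.Run1
import Pool.Agent.Lib.MP_26f323_al.Run2
import Pool.Agent.Lib.MP_26f323_al.Run3
import Pool.Agent.Lib.MP_26f323_al.Run4
import Pool.Agent.Lib.MP_26f323_al.Run5
import Pool.Agent.Lib.MP_26f323_al.Run6
import Pool.Agent.Lib.MP_26f323_al.Run7
import Pool.Agent.Lib.MP_26f323_al.Run8
import Pool.Agent.Lib.MP_26f323_al.Run9
import Pool.Agent.Lib.MP_26f323_al.Run10
import Pool.Agent.Lib.MP_26f323_al.Run11
import Pool.Agent.Lib.MP_26f323_al.Run12
import Pool.Agent.Lib.MP_26f323_al.Run13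
import Pool.Agent.Lib.MP_26f323_al.Run14
import Pool.Agent.Lib.MP_26f323_al.Run15

/-!
MP_26f323_al: evaluation of the certificate.
-/

set_option autoImplicit false
set_option maxRecDepth 100000

namespace MP26f323

namespace Chk

/-- all steps of the certificate are correct -/
theorem runs : ∀ n, 1 ≤ n → n < 4336 → step dat db rc n = true := by
  intro n h1 h2
  rcases lt_or_ge n 271 with h | h
  · exact runs_0 n (by omega) (by omega)
  rcases lt_or_ge n 542 with h | h
  · exact runs_1 n (by omega) (by omega)
  rcases lt_or_ge n 813 with h | h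
  · exact runs_2 n (by omega) (by omega)
  rcases lt_or_ge n 1084 with h | h
  · exact runs_3 n (by omega) (by omega)
  rcases lt_or_ge n 1355 with h | h
  · exact runs_4 n (by omega) (by omega)
  rcases lt_or_ge n 1626 with h | h
  · exact runs_5 n (by omega) (by omega)
  rcases lt_or_ge n 1897 with h | h
  · exact runs_6 n (by omega) (by omega)
  rcases lt_or_ge n 2168 with h | h
  · exact runs_7 n (by omega) (by omega)
  rcases lt_or_ge n 2439 with h | h
  · exact runs_8 n (by omega) (by omega)
  rcases lt_or_ge n 2710 with h | h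
  · exact runs_9 n (by omega) (by omega)
  rcases lt_or_ge n 2981 with h | h
  · exact runs_10 n (by omega) (by omega)
  rcases lt_or_ge n 3252 with h | h
  · exact runs_11 n (by omega) (by omega)
  rcases lt_or_ge n 3523 with h | h
  · exact runs_12 n (by omega) (by omega)
  rcases lt_or_ge n 3794 with h | h
  · exact runs_13 n (by omega) (by omega)
  rcases lt_or_ge n 4065 with h | h
  · exact runs_14 n (by omega) (by omega)
  exact runs_15 n (by omega) (by omega)

theorem db_last : db 4335 = 0 := by decide +kernel

end Chk

end MP26f323
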