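import Pool.Agent.Lib.MP_26f323_al.Dat
import Pool.Agent.Lib.MP_26f323_al.Runs
import Pool.Agent.Lib.MP_26f323_al.Res
import Pool.Agent.Lib.MP_26f323_al.Rep
import Pool.Agent.Lib.MP_26f323_al.Bbb
import Pool.Agent.Lib.MP_26f323_al.Cls
import Pool.Agent.Lib.MP_26f323_al.L2L

/-!
MP_26f323_al, module LOC: the congruence step.
-/

set_option autoImplicit false
set_option maxRecDepth 100000

namespace MP26f323

open ZonM ClsM

namespace Chk

open LaneM

/-- clause of the last lemma -/
def cX : ℕ := nat_lit 0x200000000000000000000001000000000000000000000000000202000000000000000000000000000000000000000000000000000000000000000080000000080000000000000002000000000000000000000000000000000000000000000000000000200000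

/-- record of the last lemma -/
def rX : ℕ := nat_lit 0x8244810e0902121204127008249010e1c021c2404384408702010c1102181e0430100848e0109120212220424100844e010898021124042244083cc0107840204380408600810901020f0204080538680c68e014d1a031a240634240a48d01449a08880981202604d80970122024004700830106142810c85

theorem runX : stepB dat 0 cX rX = true := by decide +kernel

theorem cX_lt : Nat.blt cX CBIG = true := by decide +kernel

/-- membership in S0 -/
def inS (k : ℕ) : Bool := S0.contains k

/-- the literals of cX for the pair a, b -/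
def cXp (a b : ℕ) : Bool :=
  Bool.and (Bool.or (Bool.not (bt cX (Nat.mul 2 (pos a b)))) (Bool.and (Nat.beq a 10) (Nat.beq b 27)))
    (Bool.or (Bool.not (bt cX (Nat.add (Nat.mul 2 (pos a b)) 1))) (Bool.and (inS a) (inS b)))

theorem cX_bits : allLt 77 (fun b => allLt b fun a => cXp (Nat.add a 1) (Nat.add b 1)) = true := by
  decide +kernel

/-- the literal of the first clause for k -/
def dbp (C k : ℕ) : Bool := Bool.or (Nat.beq k 16)
  (Bool.or (Bool.and (Nat.blt k 16) (bt C (Nat.add (Nat.mul 2 (pos k 16)) 1)))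
    (Bool.and (Nat.blt 16 k) (bt C (Nat.add (Nat.mul 2 (pos 16 k)) 1))))

theorem db0_bits : S0.all (fun k => dbp (db 0) k) = true := by
  decide +kernel

theorem S0_pos : ∀ k ∈ S0, 1 ≤ k := by decide

attribute [local irreducible] T0 PAT ALL BIG ONE msk CBIG kmask OFF cX rX db rc dat pos

lemma bt_iff (C n : ℕ) : bt C n = true ↔ C.testBit n = true := by
  constructor
  · exact RepM.bt_testBit C n
  · intro h
    show Nat.beq ((C >>> n) % 2) 1 = true
    rw [Nat.testBit_eq_decide_div_mod_eq, ← Nat.shiftRight_eq_div_pow, decide_eq_true_eq] at h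
    rw [h]
    rfl

lemma cXp_spec {a b : ℕ} (ha : 1 ≤ a) (hab : a < b) (hb : b ≤ 77) : cXp a b = true := by
  have h1 := (allLt_iff _ _).1 ((allLt_iff _ _).1 cX_bits (b - 1) (by omega)) (a - 1) (by omega)
  have h2 : cXp (a - 1 + 1) (b - 1 + 1) = true := h1
  rwa [Nat.sub_add_cancel ha, Nat.sub_add_cancel (by omega)] at h2

/-- the congruence certificate proves Core -/
theorem core_of (hC : SpecCls) {f : Gam → ℕ} (hf : Col f) : Core f := by
  have hd := DatM.datOK hC hf
  have hR := specRes specLane
  have hS := specSSS specLane specRep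
  have hB := specBBB specLane specRep
  have hall : ∀ k ∈ S0, FC f k = FC f 16 := by
    by_contra hne
    push Not at hne
    obtain ⟨k, hk, hkne⟩ := hne
    have h0 : Holds (FC f) (db 0) := by
      have h1 := (List.all_eq_true.1 db0_bits) k hk
      have hk1 := S0_pos k hk
      unfold dbp at h1
      rw [Bool.or_eq_true, Bool.or_eq_true, Bool.and_eq_true, Bool.and_eq_true] at h1
      rcases h1 with h1 | ⟨h1, h2⟩ | ⟨h1, h2⟩
      · exact absurd (by rw [Nat.eq_of_beq_eq_true h1]) hkne
      · rw [Nat.blt_eq] at h1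
        exact ⟨k, 16, hk1, h1, Or.inr ⟨(bt_iff _ _).1 h2, hkne⟩⟩
      · rw [Nat.blt_eq] at h1
        exact ⟨16, k, by norm_num, h1, Or.inr ⟨(bt_iff _ _).1 h2, fun h => hkne h.symm⟩⟩
    have h1 := sound hR hS hB (FC f) dat hd db rc 4336 h0 runs 4335 (by norm_num)
    rw [db_last] at h1
    obtain ⟨a, b, _, _, h2⟩ := h1
    rcases h2 with h2 | h2
    · exact absurd h2.1 (by rw [Nat.zero_testBit]; exact Bool.false_ne_true)
    · exact absurd h2.1 (by rw [Nat.zero_testBit]; exact Bool.false_ne_true)
  refine ⟨hall, ?_⟩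
  have hlt : cX < CBIG := by
    have := cX_lt
    rwa [Nat.blt_eq] at this
  have h1 := hB (FC f) dat hd 0 cX rX hlt runX
  obtain ⟨a, b, ha, hab, h2⟩ := h1
  have hb : b ≤ 77 := by
    rcases h2 with h2 | h2
    · exact RepM.le_of_bit cX a b 0 hlt h2.1
    · exact RepM.le_of_bit cX a b 1 hlt h2.1
  have h3 := cXp_spec ha hab hb
  unfold cXp at h3
  rw [Bool.and_eq_true, Bool.or_eq_true, Bool.or_eq_true] at h3
  rcases h2 with ⟨h2, h4⟩ | ⟨h2, h4⟩
  · rcases h3.1 with h5 | h5
    · have h6 : bt cX (Nat.mul 2 (pos a b)) = true := (bt_iff _ _).2 h2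
      rw [h6] at h5
      exact absurd h5 (by decide)
    · rw [Bool.and_eq_true] at h5
      rw [← Nat.eq_of_beq_eq_true h5.1, ← Nat.eq_of_beq_eq_true h5.2]
      exact h4
  · rcases h3.2 with h5 | h5
    · have h6 : bt cX (Nat.add (Nat.mul 2 (pos a b)) 1) = true := (bt_iff _ _).2 h2
      rw [h6] at h5
      exact absurd h5 (by decide)
    · rw [Bool.and_eq_true] at h5
      have h6 : a ∈ S0 := List.contains_iff_mem.1 h5.1
      have h7 : b ∈ S0 := List.contains_iff_mem.1 h5.2
      exact absurd (by rw [hall a h6, hall b h7]) h4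

end Chk

/-- module LOC -/
theorem specLoc : SpecLoc := fun _ hf => specL2L specCls _ hf (Chk.core_of specCls hf)

end MP26f323
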