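import Pool.Agent.Lib.MP_26f323_al.Spec

/-!
MP_26f323_al, module MIN: the big colour has only the 17 zonal eigenvalues.
-/

set_option autoImplicit false
set_option linter.constructorNameAsVariable false

namespace MP26f323

open Polynomial Matrix

namespace MinM

theorem aeval_mulVec {n : Type} [Fintype n] [DecidableEq n] (M : Matrix n n ℚ) (v : n → ℚ) (θ : ℚ)
    (h : M.mulVec v = θ • v) (p : ℚ[X]) : (aeval M p).mulVec v = (p.eval θ) • v := by
  induction p using Polynomial.induction_on with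
  | C a =>
    rw [aeval_C, eval_C, Algebra.algebraMap_eq_smul_one, Matrix.smul_mulVec, Matrix.one_mulVec]
  | add p q hp hq =>
    rw [map_add, Matrix.add_mulVec, hp, hq, eval_add, add_smul]
  | monomial k a ih =>
    have h1 : C a * X ^ (k + 1) = C a * X ^ k * (X : ℚ[X]) := by ring
    have h2 : eval θ (C a * X ^ k * (X : ℚ[X])) = eval θ (C a * X ^ k) * θ := by
      rw [eval_mul, eval_X]
    rw [h1, h2, map_mul, aeval_X, ← Matrix.mulVec_mulVec, h, Matrix.mulVec_smul, ih, smul_smul,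
      mul_comm]

theorem single_le_sum_univ {n : Type} [Fintype n] (g : n → ℚ) (hg : ∀ z, 0 ≤ g z) (y : n) :
    g y ≤ ∑ z : n, g z :=
  Finset.single_le_sum (fun z _ => hg z) (Finset.mem_univ y)

theorem V4_closed : ∀ a ∈ V4, ∀ b ∈ V4, a⁻¹ * b ∈ V4 := by
  decide +kernel

theorem V4_card : V4.card = 4 := by
  decide +kernel

/-- the group V4^3 -/
def W : Finset Gam := V4 ×ˢ (V4 ×ˢ V4)

theorem W_card : W.card = 64 := by
  unfold W
  rw [Finset.card_product, Finset.card_product, V4_card]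

theorem card_A : Fintype.card A = 60 := by
  have h2 := two_mul_card_alternatingGroup (α := Fin 5)
  have h3 : Fintype.card (Equiv.Perm (Fin 5)) = 120 := by
    rw [Fintype.card_perm]; decide
  have h4 : 2 * Fintype.card A = 120 := by
    rw [← h3, ← h2]
  omega

theorem sum_line (f : Gam → ℕ) (s s' : ℕ) (hf : Col f) (hl : Loc f s s') (Φ : ℕ → ℚ) :
    ∑ y : Gam, Φ (f y) * (if y.2.1 = 1 ∧ y.2.2 = 1 then 1 else 0) = Φ 0 + 59 * Φ s := by
  have h1 : ∑ y : Gam, Φ (f y) * (if y.2.1 = 1 ∧ y.2.2 = 1 then 1 else 0) =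
      ∑ a : A, Φ (f (a, 1, 1)) := by
    rw [Fintype.sum_prod_type]
    refine Finset.sum_congr rfl (fun a _ => ?_)
    rw [Fintype.sum_prod_type, Finset.sum_eq_single (1 : A), Finset.sum_eq_single (1 : A)]
    · simp
    · intro c _ hc
      simp [hc]
    · intro h
      exact absurd (Finset.mem_univ _) h
    · intro b _ hb
      refine Finset.sum_eq_zero (fun c _ => ?_)
      simp [hb]
    · intro h
      exact absurd (Finset.mem_univ _) h
  rw [h1, ← Finset.add_sum_erase Finset.univ _ (Finset.mem_univ (1 : A))]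
  have h2 : f ((1 : A), 1, 1) = 0 := (hf.zero _).2 rfl
  rw [h2, Finset.sum_congr rfl (g := fun _ => Φ s)]
  · rw [Finset.sum_const, Finset.card_erase_of_mem (Finset.mem_univ _), Finset.card_univ, card_A]
    norm_num
  · intro a ha
    rw [hl.one a (Finset.ne_of_mem_erase ha)]

theorem sum_W (f : Gam → ℕ) (s s' : ℕ) (hf : Col f) (hl : Loc f s s') (Φ : ℕ → ℚ) :
    ∑ x ∈ W, ∑ y ∈ W, Φ (f (x⁻¹ * y)) = 64 * (Φ 0 + 63 * Φ s) := by
  have h1 : ∀ x ∈ W, ∑ y ∈ W, Φ (f (x⁻¹ * y)) = Φ 0 + 63 * Φ s := by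
    intro x hx
    rw [← Finset.add_sum_erase W _ hx]
    have h2 : f (x⁻¹ * x) = 0 := by
      rw [inv_mul_cancel]
      exact (hf.zero _).2 rfl
    rw [h2, Finset.sum_congr rfl (g := fun _ => Φ s)]
    · rw [Finset.sum_const, Finset.card_erase_of_mem hx, W_card]
      norm_num
    · intro y hy
      have hne := Finset.ne_of_mem_erase hy
      have hy' := Finset.mem_of_mem_erase hy
      obtain ⟨x0, x1, x2⟩ := x
      obtain ⟨y0, y1, y2⟩ := y
      simp only [W, Finset.mem_product] at hx hy'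
      have h3 := hl.v4 (x0⁻¹ * y0) (V4_closed _ hx.1 _ hy'.1) (x1⁻¹ * y1)
        (V4_closed _ hx.2.1 _ hy'.2.1) (x2⁻¹ * y2) (V4_closed _ hx.2.2 _ hy'.2.2) ?_
      · exact congrArg Φ h3
      · intro h
        apply hne
        simp only [Prod.mk.injEq, inv_mul_eq_one] at h ⊢
        exact ⟨h.1.symm, h.2.1.symm, h.2.2.symm⟩
  rw [Finset.sum_congr rfl h1, Finset.sum_const, W_card]
  ring

end MinM

open MinM

theorem specMin (hA : SpecAlg) (hE : SpecEig) : SpecMin := by
  intro typ hz f s s' hf hl κ hκ q hq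
  obtain ⟨-, hsym, hmul, haev⟩ := hA f hf
  obtain ⟨heig, hdel⟩ := hE typ hz f s hf κ hκ
  obtain ⟨φ, hφ⟩ := haev s q
  set R := aeval (Aop f s) q with hR
  obtain ⟨-, Φ, hΦ⟩ := hmul R R φ φ hφ hφ
  have hRT := hsym R φ hφ
  have hRs : ∀ x y, R x y = R y x := by
    intro x y
    have := congrFun (congrFun hRT y) x
    rw [Matrix.transpose_apply] at this
    exact this
  -- R kills the zonal vectors
  have hkill : ∀ i, R.mulVec (vec typ i) = 0 := by
    intro i
    rw [hR, aeval_mulVec _ _ _ (heig i) q, hq i, zero_smul]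
  have hkill2 : ∀ i, (R * R).mulVec (vec typ i) = 0 := by
    intro i
    rw [← Matrix.mulVec_mulVec, hkill i, Matrix.mulVec_zero]
  have hQd : (R * R).mulVec (fun x : Gam => if x.2.1 = 1 ∧ x.2.2 = 1 then 1 else 0) = 0 := by
    have h1 : (fun x : Gam => if x.2.1 = 1 ∧ x.2.2 = 1 then (1 : ℚ) else 0) =
        ∑ i, ((mm i : ℚ) / 3600) • vec typ i := by
      funext x
      rw [← hdel x, Finset.sum_apply]
      rfl
    rw [h1, Matrix.mulVec_sum]
    refine Finset.sum_eq_zero (fun i _ => ?_)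
    rw [Matrix.mulVec_smul, hkill2 i, smul_zero]
  have e2 : Φ 0 + 59 * Φ s = 0 := by
    rw [← sum_line f s s' hf hl Φ]
    have h1 := congrFun hQd 1
    rw [Matrix.mulVec, dotProduct] at h1
    have h2 : (0 : Gam → ℚ) 1 = 0 := rfl
    rw [h2] at h1
    refine Eq.trans (Finset.sum_congr rfl (fun y _ => ?_)) h1
    rw [hΦ 1 y, inv_one, one_mul]
  have e3 : 0 ≤ 64 * (Φ 0 + 63 * Φ s) := by
    rw [← sum_W f s s' hf hl Φ]
    have h1 : ∑ x ∈ W, ∑ y ∈ W, Φ (f (x⁻¹ * y)) = ∑ z : Gam, (∑ x ∈ W, R x z) ^ 2 := by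
      have h2 : ∀ x y, Φ (f (x⁻¹ * y)) = ∑ z : Gam, R x z * R y z := by
        intro x y
        rw [← hΦ x y, Matrix.mul_apply]
        exact Finset.sum_congr rfl (fun z _ => by rw [hRs z y])
      simp only [h2]
      rw [Finset.sum_congr rfl (fun x _ => Finset.sum_comm), Finset.sum_comm]
      refine Finset.sum_congr rfl (fun z _ => ?_)
      rw [sq, Finset.sum_mul_sum]
    rw [h1]
    exact Finset.sum_nonneg (fun z _ => sq_nonneg _)
  have e4 : Φ 0 = ∑ y : Gam, (R 1 y) ^ 2 := by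
    have h1 := hΦ 1 1
    have h2 : f ((1 : Gam)⁻¹ * 1) = 0 := by
      rw [inv_mul_cancel]
      exact (hf.zero _).2 rfl
    rw [h2, Matrix.mul_apply] at h1
    rw [← h1]
    exact Finset.sum_congr rfl (fun z _ => by rw [hRs z 1, sq])
  have e5 : 0 ≤ Φ 0 := by
    rw [e4]
    exact Finset.sum_nonneg (fun z _ => sq_nonneg _)
  have e6 : Φ 0 = 0 := by linarith
  rw [e6] at e4
  have e7 : ∀ y, R 1 y = 0 := by
    intro y
    have h0 : (R 1 y) ^ 2 ≤ ∑ z : Gam, (R 1 z) ^ 2 := by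
      have hg : ∀ z : Gam, 0 ≤ (fun z => (R 1 z) ^ 2) z := fun z => sq_nonneg _
      exact single_le_sum_univ (fun z => (R 1 z) ^ 2) hg y
    rw [← e4] at h0
    have h1 : (R 1 y) ^ 2 = 0 := le_antisymm h0 (sq_nonneg _)
    exact pow_eq_zero_iff (two_ne_zero) |>.1 h1
  ext x y
  rw [hφ x y]
  have h1 := hφ 1 (x⁻¹ * y)
  rw [inv_one, one_mul] at h1
  rw [← h1, e7]
  rfl

end MP26f323
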