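import Pool.Agent.Lib.MP_26f323_al.NumA

/-!
MP_26f323_al: module NUM, part E2: kernel computations.
-/

set_option autoImplicit false
set_option maxRecDepth 100000

namespace MP26f323

namespace Num

theorem c481 : loop 1662 481 50 = true := by decide +kernel

theorem c531 : loop 1702 531 50 = true := by decide +kernel

theorem c581 : loop 1736 581 50 = true := by decide +kernel

theorem c631 : loop 1764 631 50 = true := by decide +kernel

theorem c681 : loop 1785 681 50 = true := by decide +kernel

theorem c731 : loop 1801 731 50 = true := by decide +kernel

theorem c781 : loop 1810 781 50 = true := by decide +kernel

theorem c831 : loop 1814 831 50 = true := by decide +kernel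

theorem c881 : loop 1815 881 50 = true := by decide +kernel

end Num

end MP26f323
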