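import Pool.Agent.Lib.MP_26f323_al.NumA

/-!
MP_26f323_al: module NUM, part E3: kernel computations.
-/

set_option autoImplicit false
set_option maxRecDepth 100000

namespace MP26f323

namespace Num

theorem c931 : loop 1813 931 50 = true := by decide +kernel

theorem c981 : loop 1806 981 50 = true := by decide +kernel

theorem c1031 : loop 1793 1031 49 = true := by decide +kernel

theorem c1081 : loop 1775 1081 48 = true := by decide +kernel

theorem c1129 : loop 1751 1129 48 = true := by decide +kernel

theorem c1177 : loop 1723 1177 48 = true := by decide +kernel

theorem c1225 : loop 1688 1225 48 = true := by decide +kernel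

theorem c1273 : loop 1646 1273 48 = true := by decide +kernel

theorem c1321 : loop 1598 1321 48 = true := by decide +kernel

end Num

end MP26f323
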