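import Pool.Agent.Lib.MP_26f323_al.NumA

/-!
MP_26f323_al: module NUM, part E4: kernel computations.
-/

set_option autoImplicit false
set_option maxRecDepth 100000

namespace MP26f323

namespace Num

theorem c1369 : loop 1543 1369 48 = true := by decide +kernel

theorem c1417 : loop 1479 1417 48 = true := by decide +kernel

theorem c1465 : loop 1406 1465 48 = true := by decide +kernel

theorem c1513 : loop 1322 1513 48 = true := by decide +kernel

theorem c1561 : loop 1225 1561 48 = true := by decide +kernel

theorem c1609 : loop 1111 1609 48 = true := by decide +kernel

theorem c1657 : loop 975 1657 48 = true := by decide +kernel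

theorem c1705 : loop 806 1705 48 = true := by decide +kernel

theorem c1753 : loop 574 1753 47 = true := by decide +kernel

end Num

end MP26f323
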