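import Pool.Agent.Lib.MP_26f323_al.NumD

/-!
MP_26f323_al: module NUM, part F: kernel computations for the three exceptional values.
-/

set_option autoImplicit false
set_option maxRecDepth 100000

namespace MP26f323

namespace Num

theorem x1 : chk [(43560, 2100), (43200, 959), (43080, 540)] 1467 43439 = true := by
  decide +kernel

theorem x2 : chk [(57600, 959), (57360, 1650), (57840, 990)] 1614 57599 = true := by
  decide +kernel

theorem x3 : chk [(129600, 2159), (129240, 840), (129960, 600)] 1775 129599 = true := by
  decide +kernel

theorem y1 : ph2 (xdi.map fun i => ((mm i).toNat, cst (-121) i, cst 239 i, cst 359 i))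
    2100 959 540 (360 * 43439) = false := by decide +kernel

theorem y2 : ph2 (xdi.map fun i => ((mm i).toNat, cst (-1) i, cst 239 i, cst (-241) i))
    959 1650 990 (360 * 57599) = false := by decide +kernel

theorem y3 : ph2 (xdi.map fun i => ((mm i).toNat, cst (-1) i, cst 359 i, cst (-361) i))
    2159 840 600 (360 * 129599) = false := by decide +kernel

end Num

end MP26f323
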