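import Pool.Agent.Lib.MP_26f323_al.NumE1
import Pool.Agent.Lib.MP_26f323_al.NumE2
import Pool.Agent.Lib.MP_26f323_al.NumE3
import Pool.Agent.Lib.MP_26f323_al.NumE4
import Pool.Agent.Lib.MP_26f323_al.NumF

/-!
MP_26f323_al: module NUM, the theorem.
-/

set_option autoImplicit false

namespace MP26f323

namespace Num

theorem loop_get (B a0 n : ℕ) (h : loop B a0 n = true) (a : ℕ) (h1 : a0 ≤ a) (h2 : a < a0 + n) :
    chk [] B (120 * a - 1) = true := by
  induction n with
  | zero => omega
  | succ n ih =>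
    have e : loop B a0 (n + 1) = cond (chk [] B (120 * (a0 + n) - 1)) (loop B a0 n) false := by
      change fc (120 * (a0 + n) - 1) (fun N => cond (chk [] B N) (loop B a0 n) false) = _
      rw [fc_eq]
    rw [e] at h
    cases hc : chk [] B (120 * (a0 + n) - 1)
    · rw [hc] at h; simp at h
    · rw [hc] at h
      simp only [cond_true] at h
      rcases Nat.lt_or_ge a (a0 + n) with h3 | h3
      · exact ih h h3
      · have : a = a0 + n := by omega
        rw [this]; exact hc

theorem all_chk (a : ℕ) (h1 : 50 ≤ a) (h2 : a < 1800) (n1 : a ≠ 362) (n2 : a ≠ 480)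
    (n3 : a ≠ 1080) : ∃ BB, BB < 120 * a - 1 ∧ chk [] BB (120 * a - 1) = true := by
  rcases Nat.lt_or_ge a 95 with h | h
  · exact ⟨829, by omega, loop_get _ _ _ c50 a (by omega) (by omega)⟩
  rcases Nat.lt_or_ge a 140 with h | h
  · exact ⟨989, by omega, loop_get _ _ _ c95 a (by omega) (by omega)⟩
  rcases Nat.lt_or_ge a 185 with h | h
  · exact ⟨1117, by omega, loop_get _ _ _ c140 a (by omega) (by omega)⟩
  rcases Nat.lt_or_ge a 230 with h | h
  · exact ⟨1226, by omega, loop_get _ _ _ c185 a (by omega) (by omega)⟩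
  rcases Nat.lt_or_ge a 275 with h | h
  · exact ⟨1318, by omega, loop_get _ _ _ c230 a (by omega) (by omega)⟩
  rcases Nat.lt_or_ge a 320 with h | h
  · exact ⟨1399, by omega, loop_get _ _ _ c275 a (by omega) (by omega)⟩
  rcases Nat.lt_or_ge a 362 with h | h
  · exact ⟨1465, by omega, loop_get _ _ _ c320 a (by omega) (by omega)⟩
  rcases Nat.lt_or_ge a 402 with h | h
  · exact ⟨1521, by omega, loop_get _ _ _ c363 a (by omega) (by omega)⟩
  rcases Nat.lt_or_ge a 441 with h | h
  · exact ⟨1569, by omega, loop_get _ _ _ c402 a (by omega) (by omega)⟩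
  rcases Nat.lt_or_ge a 480 with h | h
  · exact ⟨1613, by omega, loop_get _ _ _ c441 a (by omega) (by omega)⟩
  rcases Nat.lt_or_ge a 531 with h | h
  · exact ⟨1662, by omega, loop_get _ _ _ c481 a (by omega) (by omega)⟩
  rcases Nat.lt_or_ge a 581 with h | h
  · exact ⟨1702, by omega, loop_get _ _ _ c531 a (by omega) (by omega)⟩
  rcases Nat.lt_or_ge a 631 with h | h
  · exact ⟨1736, by omega, loop_get _ _ _ c581 a (by omega) (by omega)⟩
  rcases Nat.lt_or_ge a 681 with h | h
  · exact ⟨1764, by omega, loop_get _ _ _ c631 a (by omega) (by omega)⟩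
  rcases Nat.lt_or_ge a 731 with h | h
  · exact ⟨1785, by omega, loop_get _ _ _ c681 a (by omega) (by omega)⟩
  rcases Nat.lt_or_ge a 781 with h | h
  · exact ⟨1801, by omega, loop_get _ _ _ c731 a (by omega) (by omega)⟩
  rcases Nat.lt_or_ge a 831 with h | h
  · exact ⟨1810, by omega, loop_get _ _ _ c781 a (by omega) (by omega)⟩
  rcases Nat.lt_or_ge a 881 with h | h
  · exact ⟨1814, by omega, loop_get _ _ _ c831 a (by omega) (by omega)⟩
  rcases Nat.lt_or_ge a 931 with h | h
  · exact ⟨1815, by omega, loop_get _ _ _ c881 a (by omega) (by omega)⟩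
  rcases Nat.lt_or_ge a 981 with h | h
  · exact ⟨1813, by omega, loop_get _ _ _ c931 a (by omega) (by omega)⟩
  rcases Nat.lt_or_ge a 1031 with h | h
  · exact ⟨1806, by omega, loop_get _ _ _ c981 a (by omega) (by omega)⟩
  rcases Nat.lt_or_ge a 1080 with h | h
  · exact ⟨1793, by omega, loop_get _ _ _ c1031 a (by omega) (by omega)⟩
  rcases Nat.lt_or_ge a 1129 with h | h
  · exact ⟨1775, by omega, loop_get _ _ _ c1081 a (by omega) (by omega)⟩
  rcases Nat.lt_or_ge a 1177 with h | h
  · exact ⟨1751, by omega, loop_get _ _ _ c1129 a (by omega) (by omega)⟩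
  rcases Nat.lt_or_ge a 1225 with h | h
  · exact ⟨1723, by omega, loop_get _ _ _ c1177 a (by omega) (by omega)⟩
  rcases Nat.lt_or_ge a 1273 with h | h
  · exact ⟨1688, by omega, loop_get _ _ _ c1225 a (by omega) (by omega)⟩
  rcases Nat.lt_or_ge a 1321 with h | h
  · exact ⟨1646, by omega, loop_get _ _ _ c1273 a (by omega) (by omega)⟩
  rcases Nat.lt_or_ge a 1369 with h | h
  · exact ⟨1598, by omega, loop_get _ _ _ c1321 a (by omega) (by omega)⟩
  rcases Nat.lt_or_ge a 1417 with h | h
  · exact ⟨1543, by omega, loop_get _ _ _ c1369 a (by omega) (by omega)⟩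
  rcases Nat.lt_or_ge a 1465 with h | h
  · exact ⟨1479, by omega, loop_get _ _ _ c1417 a (by omega) (by omega)⟩
  rcases Nat.lt_or_ge a 1513 with h | h
  · exact ⟨1406, by omega, loop_get _ _ _ c1465 a (by omega) (by omega)⟩
  rcases Nat.lt_or_ge a 1561 with h | h
  · exact ⟨1322, by omega, loop_get _ _ _ c1513 a (by omega) (by omega)⟩
  rcases Nat.lt_or_ge a 1609 with h | h
  · exact ⟨1225, by omega, loop_get _ _ _ c1561 a (by omega) (by omega)⟩
  rcases Nat.lt_or_ge a 1657 with h | h
  · exact ⟨1111, by omega, loop_get _ _ _ c1609 a (by omega) (by omega)⟩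
  rcases Nat.lt_or_ge a 1705 with h | h
  · exact ⟨975, by omega, loop_get _ _ _ c1657 a (by omega) (by omega)⟩
  rcases Nat.lt_or_ge a 1753 with h | h
  · exact ⟨806, by omega, loop_get _ _ _ c1705 a (by omega) (by omega)⟩
  rcases Nat.lt_or_ge a 1800 with h | h
  · exact ⟨574, by omega, loop_get _ _ _ c1753 a (by omega) (by omega)⟩
  omega

end Num

open MP26f323.Num in
/-- NUM -/
theorem specNum : SpecNum := by
  intro K ω H
  by_contra hne
  obtain ⟨N, hN⟩ : ∃ N : ℕ, (N : ℤ) = th K 0 :=
    ⟨(th K 0).toNat, Int.toNat_of_nonneg (by have := H.le; omega)⟩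
  have hD := dat_of H N hN
  have h1 := hD.hN
  have h2 := hD.hN1
  have h3 := hD.hN2
  have h4 : N ≠ 215999 := by
    intro h
    apply hne
    rw [← hN, h]
    rfl
  by_cases s1 : N = 43439
  · subst s1
    exact excep H _ hN 1467 2100 959 540 (-121) 239 359 43560 43200 43080 (by norm_num)
      (by norm_num) (by norm_num) (by norm_num) (by norm_num) x1 y1
  by_cases s2 : N = 57599
  · subst s2
    exact excep H _ hN 1614 959 1650 990 (-1) 239 (-241) 57600 57360 57840 (by norm_num)
      (by norm_num) (by norm_num) (by norm_num) (by norm_num) x2 y2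
  by_cases s3 : N = 129599
  · subst s3
    exact excep H _ hN 1775 2159 840 600 (-1) 359 (-361) 129600 129240 129960 (by norm_num)
      (by norm_num) (by norm_num) (by norm_num) (by norm_num) x3 y3
  obtain ⟨a, ha⟩ : ∃ a, N = 120 * a - 1 := ⟨(N + 1) / 120, by omega⟩
  obtain ⟨BB, hBB, hc⟩ := all_chk a (by omega) (by omega) (by omega) (by omega) (by omega)
  rw [← ha] at hBB hc
  have hs := chk_sound hD [] BB hBB hc (th K 1) (mem_SS K 1 (by decide))
  simp at hs

end MP26f323
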