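import Pool.Agent.Lib.MP_26f323_al.Spec

/-!
MP_26f323_al: module RANK. Ranks of averaged idempotents give divisibility conditions.
-/

set_option autoImplicit false

namespace MP26f323

open Equiv

namespace Rank

/-- the trace of an idempotent matrix is an integer -/
theorem trace_int {n : Type} [Fintype n] [DecidableEq n] (M : Matrix n n ℚ) (h : M * M = M) :
    ∃ k : ℤ, M.trace = k := by
  have h1 : IsIdempotentElem (Matrix.toLin' M) := by
    change (Matrix.toLin' M).comp (Matrix.toLin' M) = Matrix.toLin' M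
    rw [← Matrix.toLin'_mul, h]
  have h2 := (LinearMap.IsIdempotentElem.isProj_range _ h1).trace
  rw [Matrix.trace_toLin'_eq] at h2
  exact ⟨_, by rw [h2]; norm_cast⟩

/-- the averaged traces -/
theorem avg_int (f : Gam → ℕ) (hf : Col f) (E : Matrix Gam Gam ℚ) (φ : ℕ → ℚ) (hE : E * E = E)
    (hc : IsCol f E φ) {ι : Type} [Fintype ι] [Nonempty ι] (g : ι → Gam)
    (hg : Function.Injective g) (hm : ∀ i j, ∃ k, g i * g j = g k) :
    ∃ k : ℤ, ∑ i, ∑ x : Gam, φ (f (x⁻¹ * g i * x)) = (Fintype.card ι : ℚ) * k := by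
  classical
  have hEmul : ∀ x y z : Gam, E (z * x) y = E x (z⁻¹ * y) := by
    intro x y z
    rw [hc, hc, mul_inv_rev, mul_assoc]
  have hN : (Fintype.card ι : ℚ) ≠ 0 := by
    have := Fintype.card_pos (α := ι)
    positivity
  set N : ℚ := (Fintype.card ι : ℚ) with hNdef
  have hshift : ∀ (x y : Gam) (j : ι), ∑ i, E (g i * g j * x) y = ∑ i, E (g i * x) y := by
    intro x y j
    choose k hk using fun i => hm i j
    have hkinj : Function.Injective k := by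
      intro i i' h
      have h1 := hk i
      rw [h, ← hk i'] at h1
      exact hg (mul_right_cancel h1)
    have hbij := hkinj.bijective_of_finite
    rw [← hbij.sum_comp (fun i => E (g i * x) y)]
    exact Finset.sum_congr rfl (fun i _ => by rw [hk i])
  set Q : Matrix Gam Gam ℚ := Matrix.of fun x y => N⁻¹ * ∑ i, E (g i * x) y with hQ
  have hQQ : Q * Q = Q := by
    ext x y
    rw [Matrix.mul_apply]
    simp only [hQ, Matrix.of_apply]
    have h1 : ∀ z : Gam, (N⁻¹ * ∑ i, E (g i * x) z) * (N⁻¹ * ∑ j, E (g j * z) y) =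
        N⁻¹ * N⁻¹ * ∑ i, ∑ j, E (g i * x) z * E z ((g j)⁻¹ * y) := by
      intro z
      have : (∑ i, E (g i * x) z) * (∑ j, E (g j * z) y) =
          ∑ i, ∑ j, E (g i * x) z * E z ((g j)⁻¹ * y) := by
        rw [Finset.sum_mul_sum]
        refine Finset.sum_congr rfl (fun i _ => Finset.sum_congr rfl (fun j _ => ?_))
        rw [hEmul z y (g j)]
      rw [← this]
      ring
    simp only [h1]
    rw [← Finset.mul_sum, Finset.sum_comm]
    have h2 : ∀ i, ∑ z : Gam, ∑ j, E (g i * x) z * E z ((g j)⁻¹ * y) =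
        ∑ j, E (g j * g i * x) y := by
      intro i
      rw [Finset.sum_comm]
      refine Finset.sum_congr rfl (fun j _ => ?_)
      have h3 : ∑ z : Gam, E (g i * x) z * E z ((g j)⁻¹ * y) = (E * E) (g i * x) ((g j)⁻¹ * y) := by
        rw [Matrix.mul_apply]
      rw [h3, hE, ← hEmul, mul_assoc]
    simp only [h2]
    have h4 : ∑ i, ∑ j, E (g j * g i * x) y = N * ∑ i, E (g i * x) y := by
      simp only [hshift]
      rw [Finset.sum_const, Finset.card_univ, nsmul_eq_mul]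
    rw [h4]
    field_simp
  obtain ⟨k, hk⟩ := trace_int Q hQQ
  refine ⟨k, ?_⟩
  rw [← hk, Matrix.trace]
  simp only [hQ, Matrix.diag_apply, Matrix.of_apply]
  rw [← Finset.mul_sum, ← mul_assoc, mul_inv_cancel₀ hN, one_mul, Finset.sum_comm]
  refine Finset.sum_congr rfl (fun x _ => Finset.sum_congr rfl (fun i _ => ?_))
  rw [hc]
  have h5 : (g i * x)⁻¹ * x = (x⁻¹ * g i * x)⁻¹ := by group
  rw [h5, hf.inv]

theorem cardA : Fintype.card A = 60 := by
  have h2 := two_mul_card_alternatingGroup (α := Fin 5)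
  have h3 : Fintype.card (Perm (Fin 5)) = 120 := by
    rw [Fintype.card_perm]; decide
  have h4 : 2 * Fintype.card A = 120 := by
    rw [← h3, ← h2]
  omega

/-- the trace of left multiplication by (a,b,1) on the image of E -/
theorem sum_Gam (f : Gam → ℕ) (φ : ℕ → ℚ) (a b : A) :
    ∑ x : Gam, φ (f (x⁻¹ * ((a, b, 1) : Gam) * x)) =
      60 * ∑ x : A, ∑ y : A, φ (f (x⁻¹ * a * x, y⁻¹ * b * y, 1)) := by
  rw [Fintype.sum_prod_type, Finset.mul_sum]
  refine Finset.sum_congr rfl (fun x _ => ?_)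
  rw [Fintype.sum_prod_type, Finset.mul_sum]
  refine Finset.sum_congr rfl (fun y _ => ?_)
  have h : ∀ z : A, ((x, y, z) : Gam)⁻¹ * ((a, b, 1) : Gam) * (x, y, z) =
      (x⁻¹ * a * x, y⁻¹ * b * y, 1) := by
    intro z
    simp
  simp only [h]
  rw [Finset.sum_const, Finset.card_univ, cardA, nsmul_eq_mul]
  norm_num

/-- abbreviation for the trace -/
noncomputable def Tr (f : Gam → ℕ) (φ : ℕ → ℚ) (a b : A) : ℚ :=
  ∑ x : Gam, φ (f (x⁻¹ * ((a, b, 1) : Gam) * x))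

theorem Tr_const (f : Gam → ℕ) (φ : ℕ → ℚ) (a b : A) (c : ℚ)
    (h : ∀ x y : A, φ (f (x⁻¹ * a * x, y⁻¹ * b * y, 1)) = c) : Tr f φ a b = 216000 * c := by
  unfold Tr
  rw [sum_Gam]
  simp only [h]
  rw [Finset.sum_const, Finset.sum_const, Finset.card_univ, cardA, nsmul_eq_mul, nsmul_eq_mul]
  norm_num
  ring

theorem Tr_one (f : Gam → ℕ) (hf : Col f) (φ : ℕ → ℚ) : Tr f φ 1 1 = 216000 * φ 0 := by
  refine Tr_const f φ 1 1 _ (fun x y => ?_)
  congr 1
  rw [hf.zero]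
  simp

theorem conj_ne_one {a : A} (h : a ≠ 1) (x : A) : x⁻¹ * a * x ≠ 1 := by
  intro h'
  apply h
  have := congrArg (fun z => x * z * x⁻¹) h'
  simpa [mul_assoc] using this

theorem Tr_left (f : Gam → ℕ) (s s' : ℕ) (hl : Loc f s s') (φ : ℕ → ℚ) (a : A) (h : a ≠ 1) :
    Tr f φ a 1 = 216000 * φ s := by
  refine Tr_const f φ a 1 _ (fun x y => ?_)
  congr 1
  rw [mul_one, inv_mul_cancel]
  exact hl.one _ (conj_ne_one h x)

theorem Tr_right (f : Gam → ℕ) (hf : Col f) (s s' : ℕ) (hl : Loc f s s') (φ : ℕ → ℚ) (b : A)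
    (h : b ≠ 1) : Tr f φ 1 b = 216000 * φ s := by
  refine Tr_const f φ 1 b _ (fun x y => ?_)
  congr 1
  rw [mul_one, inv_mul_cancel, hf.sw01]
  exact hl.one _ (conj_ne_one h y)

theorem Tr_inv2 (f : Gam → ℕ) (s s' : ℕ) (hl : Loc f s s') (φ : ℕ → ℚ) (a b : A)
    (ha : a ∈ V4) (hb : b ∈ V4) (ha1 : a ≠ 1) (hb1 : b ≠ 1) : Tr f φ a b = 216000 * φ s := by
  refine Tr_const f φ a b _ (fun x y => ?_)
  rw [hl.inv2 a ha b hb ha1 hb1]

theorem Tr_three (f : Gam → ℕ) (s s' : ℕ) (hl : Loc f s s') (φ : ℕ → ℚ) (a b : A)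
    (ha : a = c3 ∨ a = c3⁻¹) (hb : b = c3 ∨ b = c3⁻¹) :
    Tr f φ a b = 60 * (2520 * φ s + 1080 * φ s') := by
  unfold Tr
  rw [sum_Gam, hl.three a b ha hb]

theorem Tr_five_same (f : Gam → ℕ) (s s' : ℕ) (hl : Loc f s s') (φ : ℕ → ℚ) (i j : ℕ)
    (hi : 0 < i) (hi' : i < 5) (hj : 0 < j) (hj' : j < 5) (hij : i = j ∨ i + j = 5) :
    Tr f φ (c5 ^ i) (c5 ^ j) = 60 * (2100 * φ s + 1500 * φ s') := by
  unfold Tr
  rw [sum_Gam, hl.five_same i j hi hi' hj hj' hij]

theorem Tr_five_diff (f : Gam → ℕ) (s s' : ℕ) (hl : Loc f s s') (φ : ℕ → ℚ) (i j : ℕ)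
    (hi : 0 < i) (hi' : i < 5) (hj : 0 < j) (hj' : j < 5) (hij : ¬ (i = j ∨ i + j = 5)) :
    Tr f φ (c5 ^ i) (c5 ^ j) = 216000 * φ s := by
  refine Tr_const f φ _ _ _ (fun x y => ?_)
  rw [hl.five_diff i j hi hi' hj hj' hij]

/-- the elements of the three small subgroups -/
def e3 : Fin 3 → A := ![1, c3, c3⁻¹]

/-- elements of V4 -/
def e4 : Fin 4 → A := ![1, v1, v2, v1 * v2]

/-- powers of c5 -/
def e5 : Fin 5 → A := ![1, c5 ^ 1, c5 ^ 2, c5 ^ 3, c5 ^ 4]

theorem e3_inj : Function.Injective e3 := by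
  intro i j
  revert i j
  decide

theorem e4_inj : Function.Injective e4 := by
  intro i j
  revert i j
  decide

theorem e5_inj : Function.Injective e5 := by
  intro i j
  revert i j
  decide

theorem e3_mul : ∀ i j : Fin 3, ∃ k, e3 i * e3 j = e3 k := by decide

theorem e4_mul : ∀ i j : Fin 4, ∃ k, e4 i * e4 j = e4 k := by decide

theorem e5_mul : ∀ i j : Fin 5, ∃ k, e5 i * e5 j = e5 k := by decide

/-- diagonal subgroup -/
theorem diag_int (f : Gam → ℕ) (hf : Col f) (E : Matrix Gam Gam ℚ) (φ : ℕ → ℚ) (hE : E * E = E)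
    (hc : IsCol f E φ) {ι : Type} [Fintype ι] [Nonempty ι] (e : ι → A)
    (he : Function.Injective e) (hm : ∀ i j, ∃ k, e i * e j = e k) :
    ∃ k : ℤ, ∑ i, Tr f φ (e i) (e i) = (Fintype.card ι : ℚ) * k := by
  refine avg_int f hf E φ hE hc (fun i => ((e i, e i, 1) : Gam)) ?_ ?_
  · intro i j h
    exact he (congrArg Prod.fst h)
  · intro i j
    obtain ⟨k, hk⟩ := hm i j
    exact ⟨k, by simp [hk]⟩

/-- product subgroup -/
theorem prod_int (f : Gam → ℕ) (hf : Col f) (E : Matrix Gam Gam ℚ) (φ : ℕ → ℚ) (hE : E * E = E)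
    (hc : IsCol f E φ) {ι : Type} [Fintype ι] [Nonempty ι] (e : ι → A)
    (he : Function.Injective e) (hm : ∀ i j, ∃ k, e i * e j = e k) :
    ∃ k : ℤ, ∑ i, ∑ j, Tr f φ (e i) (e j) =
      (Fintype.card ι : ℚ) * (Fintype.card ι : ℚ) * k := by
  have hinj : Function.Injective (fun p : ι × ι => ((e p.1, e p.2, 1) : Gam)) := by
    rintro ⟨i, j⟩ ⟨i', j'⟩ h
    have h1 : i = i' := he (congrArg Prod.fst h)
    have h2 : j = j' := he (congrArg (fun z : Gam => z.2.1) h)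
    rw [h1, h2]
  have hmul : ∀ p q : ι × ι, ∃ k : ι × ι,
      ((e p.1, e p.2, 1) : Gam) * ((e q.1, e q.2, 1) : Gam) = ((e k.1, e k.2, 1) : Gam) := by
    rintro ⟨i, j⟩ ⟨i', j'⟩
    obtain ⟨k, hk⟩ := hm i i'
    obtain ⟨l, hl⟩ := hm j j'
    exact ⟨(k, l), by simp [hk, hl]⟩
  obtain ⟨k, hk⟩ := avg_int f hf E φ hE hc (fun p : ι × ι => ((e p.1, e p.2, 1) : Gam)) hinj hmul
  refine ⟨k, ?_⟩
  rw [Fintype.sum_prod_type, Fintype.card_prod] at hk
  push_cast at hk
  exact hk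

theorem arith (m : ℤ) (w δ : ℚ) (a b c d e g : ℤ) (h1 : (m : ℚ) + 59 * w = a)
    (h2 : (m : ℚ) + 11 * w / 4 = b) (h3 : (m : ℚ) + 19 * w + δ / 5 = c)
    (h4 : (m : ℚ) + 17 * w / 3 + 2 * δ / 15 = d) (h5 : (m : ℚ) + 11 * w + δ / 3 = e)
    (h6 : (m : ℚ) + 7 * w / 5 + 2 * δ / 15 = g) : ∃ ω : ℤ, w = 60 * ω := by
  have hw : w = ((3 * (a - m) - 64 * (b - m) : ℤ) : ℚ) := by
    push_cast
    linarith
  obtain ⟨W, hW⟩ : ∃ W : ℤ, w = (W : ℚ) := ⟨_, hw⟩
  have hδ : δ / 15 = ((2 * (c - m - 19 * W) - (e - m - 11 * W) : ℤ) : ℚ) := by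
    push_cast
    rw [← hW]
    linarith
  obtain ⟨r, hr⟩ : ∃ r : ℤ, δ / 15 = (r : ℚ) := ⟨_, hδ⟩
  have k2 : 11 * W = 4 * (b - m) := by
    have : (11 : ℚ) * (W : ℚ) = 4 * ((b : ℚ) - m) := by rw [← hW]; linarith
    exact_mod_cast this
  have k4 : 17 * W = 3 * (d - m - 2 * r) := by
    have : (17 : ℚ) * (W : ℚ) = 3 * ((d : ℚ) - m - 2 * r) := by rw [← hW, ← hr]; linarith
    exact_mod_cast this
  have k6 : 7 * W = 5 * (g - m - 2 * r) := by
    have : (7 : ℚ) * (W : ℚ) = 5 * ((g : ℚ) - m - 2 * r) := by rw [← hW, ← hr]; linarith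
    exact_mod_cast this
  have : (60 : ℤ) ∣ W := by omega
  obtain ⟨ω, hω⟩ := this
  exact ⟨ω, by rw [hW, hω]; push_cast; ring⟩

end Rank

open Rank in
/-- RANK -/
theorem specRank : SpecRank := by
  intro f s s' hf hl E φ hE hc m hm
  obtain ⟨k4, h4⟩ := prod_int f hf E φ hE hc e4 e4_inj e4_mul
  obtain ⟨k3, h3⟩ := diag_int f hf E φ hE hc e3 e3_inj e3_mul
  obtain ⟨k9, h9⟩ := prod_int f hf E φ hE hc e3 e3_inj e3_mul
  obtain ⟨k5, h5⟩ := diag_int f hf E φ hE hc e5 e5_inj e5_mul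
  obtain ⟨k25, h25⟩ := prod_int f hf E φ hE hc e5 e5_inj e5_mul
  obtain ⟨k1, h1⟩ := diag_int f hf E φ hE hc (ι := Unit) (fun _ => 1) (fun _ _ _ => rfl)
    (fun _ _ => ⟨(), one_mul 1⟩)
  have t11 := Tr_one f hf φ
  have tL := Tr_left f s s' hl φ
  have tR := Tr_right f hf s s' hl φ
  have tI := Tr_inv2 f s s' hl φ
  have n3 : ∀ i : Fin 3, i ≠ 0 → e3 i ≠ 1 := by decide
  have n4 : ∀ i : Fin 4, i ≠ 0 → e4 i ≠ 1 := by decide
  have n5 : ∀ i : Fin 5, i ≠ 0 → e5 i ≠ 1 := by decide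
  have z3 : e3 0 = 1 := rfl
  have z4 : e4 0 = 1 := rfl
  have z5 : e5 0 = 1 := rfl
  have m4 : ∀ i : Fin 4, e4 i ∈ V4 := by decide
  have q3 : ∀ i : Fin 3, i ≠ 0 → (e3 i = c3 ∨ e3 i = c3⁻¹) := by decide
  have p5 : ∀ i : Fin 5, i ≠ 0 → e5 i = c5 ^ (i : ℕ) := by decide
  -- M
  simp only [Finset.univ_unique, Finset.sum_singleton, Fintype.card_unit, Nat.cast_one,
    one_mul] at h1
  rw [t11] at h1
  -- V4 x V4
  have s4 : ∑ i, ∑ j, Tr f φ (e4 i) (e4 j) = 216000 * φ 0 + 15 * (216000 * φ s) := by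
    have a0 : Tr f φ (e4 0) (e4 0) = 216000 * φ 0 := t11
    have a1 : ∀ i, i ≠ 0 → Tr f φ (e4 i) (e4 0) = 216000 * φ s := fun i hi => tL _ (n4 i hi)
    have a2 : ∀ i, i ≠ 0 → Tr f φ (e4 0) (e4 i) = 216000 * φ s := fun i hi => tR _ (n4 i hi)
    have a3 : ∀ i j, i ≠ 0 → j ≠ 0 → Tr f φ (e4 i) (e4 j) = 216000 * φ s :=
      fun i j hi hj => tI _ _ (m4 i) (m4 j) (n4 i hi) (n4 j hj)
    simp only [Fin.sum_univ_four]
    rw [a0, a1 1 (by decide), a1 2 (by decide), a1 3 (by decide), a2 1 (by decide),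
      a2 2 (by decide), a2 3 (by decide), a3 1 1 (by decide) (by decide),
      a3 1 2 (by decide) (by decide), a3 1 3 (by decide) (by decide),
      a3 2 1 (by decide) (by decide), a3 2 2 (by decide) (by decide),
      a3 2 3 (by decide) (by decide), a3 3 1 (by decide) (by decide),
      a3 3 2 (by decide) (by decide), a3 3 3 (by decide) (by decide)]
    ring
  have b1 : ∀ i, i ≠ 0 → Tr f φ (e3 i) (e3 0) = 216000 * φ s := fun i hi => tL _ (n3 i hi)
  have b2 : ∀ i, i ≠ 0 → Tr f φ (e3 0) (e3 i) = 216000 * φ s := fun i hi => tR _ (n3 i hi)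
  have b3 : ∀ i j, i ≠ 0 → j ≠ 0 → Tr f φ (e3 i) (e3 j) = 60 * (2520 * φ s + 1080 * φ s') :=
    fun i j hi hj => Tr_three f s s' hl φ _ _ (q3 i hi) (q3 j hj)
  have s3 : ∑ i, Tr f φ (e3 i) (e3 i) =
      216000 * φ 0 + 2 * (60 * (2520 * φ s + 1080 * φ s')) := by
    have a0 : Tr f φ (e3 0) (e3 0) = 216000 * φ 0 := t11
    simp only [Fin.sum_univ_three]
    rw [a0, b3 1 1 (by decide) (by decide), b3 2 2 (by decide) (by decide)]
    ring
  have s9 : ∑ i, ∑ j, Tr f φ (e3 i) (e3 j) = 216000 * φ 0 + 4 * (216000 * φ s) +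
      4 * (60 * (2520 * φ s + 1080 * φ s')) := by
    have a0 : Tr f φ (e3 0) (e3 0) = 216000 * φ 0 := t11
    simp only [Fin.sum_univ_three]
    rw [a0, b1 1 (by decide), b1 2 (by decide), b2 1 (by decide), b2 2 (by decide),
      b3 1 1 (by decide) (by decide), b3 1 2 (by decide) (by decide),
      b3 2 1 (by decide) (by decide), b3 2 2 (by decide) (by decide)]
    ring
  have d1 : ∀ i, i ≠ 0 → Tr f φ (e5 i) (e5 0) = 216000 * φ s := fun i hi => tL _ (n5 i hi)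
  have d2 : ∀ i, i ≠ 0 → Tr f φ (e5 0) (e5 i) = 216000 * φ s := fun i hi => tR _ (n5 i hi)
  have d3 : ∀ i j : Fin 5, i ≠ 0 → j ≠ 0 → ((i : ℕ) = j ∨ (i : ℕ) + j = 5) →
      Tr f φ (e5 i) (e5 j) = 60 * (2100 * φ s + 1500 * φ s') := by
    intro i j hi hj hij
    rw [p5 i hi, p5 j hj]
    exact Tr_five_same f s s' hl φ i j (Fin.pos_iff_ne_zero.mpr hi) i.isLt
      (Fin.pos_iff_ne_zero.mpr hj) j.isLt hij
  have d4 : ∀ i j : Fin 5, i ≠ 0 → j ≠ 0 → ¬ ((i : ℕ) = j ∨ (i : ℕ) + j = 5) →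
      Tr f φ (e5 i) (e5 j) = 216000 * φ s := by
    intro i j hi hj hij
    rw [p5 i hi, p5 j hj]
    exact Tr_five_diff f s s' hl φ i j (Fin.pos_iff_ne_zero.mpr hi) i.isLt
      (Fin.pos_iff_ne_zero.mpr hj) j.isLt hij
  have s5 : ∑ i, Tr f φ (e5 i) (e5 i) =
      216000 * φ 0 + 4 * (60 * (2100 * φ s + 1500 * φ s')) := by
    have a0 : Tr f φ (e5 0) (e5 0) = 216000 * φ 0 := t11
    simp only [Fin.sum_univ_five]
    rw [a0, d3 1 1 (by decide) (by decide) (by decide), d3 2 2 (by decide) (by decide) (by decide),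
      d3 3 3 (by decide) (by decide) (by decide), d3 4 4 (by decide) (by decide) (by decide)]
    ring
  have s25 : ∑ i, ∑ j, Tr f φ (e5 i) (e5 j) = 216000 * φ 0 + 16 * (216000 * φ s) +
      8 * (60 * (2100 * φ s + 1500 * φ s')) := by
    have a0 : Tr f φ (e5 0) (e5 0) = 216000 * φ 0 := t11
    simp only [Fin.sum_univ_five]
    rw [a0, d1 1 (by decide), d1 2 (by decide), d1 3 (by decide), d1 4 (by decide),
      d2 1 (by decide), d2 2 (by decide), d2 3 (by decide), d2 4 (by decide),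
      d3 1 1 (by decide) (by decide) (by decide), d4 1 2 (by decide) (by decide) (by decide),
      d4 1 3 (by decide) (by decide) (by decide), d3 1 4 (by decide) (by decide) (by decide),
      d4 2 1 (by decide) (by decide) (by decide), d3 2 2 (by decide) (by decide) (by decide),
      d3 2 3 (by decide) (by decide) (by decide), d4 2 4 (by decide) (by decide) (by decide),
      d4 3 1 (by decide) (by decide) (by decide), d3 3 2 (by decide) (by decide) (by decide),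
      d3 3 3 (by decide) (by decide) (by decide), d4 3 4 (by decide) (by decide) (by decide),
      d3 4 1 (by decide) (by decide) (by decide), d4 4 2 (by decide) (by decide) (by decide),
      d4 4 3 (by decide) (by decide) (by decide), d3 4 4 (by decide) (by decide) (by decide)]
    ring
  rw [s4, Fintype.card_fin] at h4
  rw [s3, Fintype.card_fin] at h3
  rw [s9, Fintype.card_fin] at h9
  rw [s5, Fintype.card_fin] at h5
  rw [s25, Fintype.card_fin] at h25
  push_cast at h3 h4 h5 h9 h25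
  set M : ℚ := 216000 * φ 0 with hM
  set u : ℚ := 216000 * φ s with hu
  set u' : ℚ := 216000 * φ s' with hu'
  have hs : φ s = u / 216000 := by rw [hu]; ring
  have hs' : φ s' = u' / 216000 := by rw [hu']; ring
  rw [hs, hs'] at h3 h5 h9 h25
  obtain ⟨ω, hω⟩ := arith m ((m : ℚ) - u) (u' - u) k1 k4 k3 k9 k5 k25 (by linarith) (by linarith)
    (by linarith) (by linarith) (by linarith) (by linarith)
  exact ⟨ω, by linarith, by linarith⟩

end MP26f323
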