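import Pool.Agent.Lib.MP_26f323_al.Alg
import Pool.Agent.Lib.MP_26f323_al.KVec
import Pool.Agent.Lib.MP_26f323_al.Eig
import Pool.Agent.Lib.MP_26f323_al.Exa
import Pool.Agent.Lib.MP_26f323_al.Min
import Pool.Agent.Lib.MP_26f323_al.Rank
import Pool.Agent.Lib.MP_26f323_al.Zon
import Pool.Agent.Lib.MP_26f323_al.Grp
import Pool.Agent.Lib.MP_26f323_al.Num
import Pool.Agent.Lib.MP_26f323_al.Loc

/-!
MP_26f323_al: the primitive group D(A5,4) of diagonal type (degree 216000) is AS-free.
-/

set_option autoImplicit false

namespace MP26f323

/-- every invariant symmetric association scheme of D(A5,4) is trivial -/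
theorem specMain : SpecMain :=
  main_of specLoc (specExa specZon specKVec specEig specAlg (specMin specAlg specEig) specRank)
    specNum

/-- the frozen statement -/
theorem frozen : Frozen := specGrp specMain

end MP26f323
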