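import Pool.Agent.Lib.MP_26f323_al.Spec

/-!
MP_26f323_al: module NUM, part A: the search functions (written for fast evaluation by the kernel).
-/

set_option autoImplicit false

namespace MP26f323

namespace Num

/-- force the evaluation of x -/
noncomputable def fc {α : Type} (x : ℕ) (F : ℕ → α) : α :=
  Nat.rec (F 0) (fun n _ => F (Nat.succ n)) x

/-- multiplicity and modulus of the 16 zonal characters -/
def items : List (ℕ × ℕ) :=
  [(48, 15), (54, 10), (54, 20), (64, 5), (75, 24), (125, 2), (125, 18), (216, 5), (240, 1),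
   (270, 2), (270, 4), (288, 5), (300, 1), (300, 3), (450, 2), (720, 1)]

/-- bit mask of the subset sums of the multiplicities allowed for N - θ = D -/
noncomputable def mk (D : ℕ) (l : List (ℕ × ℕ)) : ℕ :=
  List.rec 1 (fun p _ ih => cond (Nat.beq (Nat.mod D p.2) 0)
    (fc ih fun r => Nat.lor r (Nat.shiftLeft r p.1)) ih) l

/-- bit test -/
noncomputable def tb (x i : ℕ) : Bool := Nat.beq (Nat.mod (Nat.shiftRight x i) 2) 1

/-- multiples of (a, b, c) -/
noncomputable def js (M Q a b c : ℕ) (n : ℕ) : List (ℕ × ℕ × ℕ) :=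
  Nat.rec [] (fun j ih => cond (Nat.ble (Nat.mul (Nat.succ j) c) Q)
    (cond (tb M (Nat.mul (Nat.succ j) b))
      ((Nat.mul (Nat.succ j) a, Nat.mul (Nat.succ j) b, Nat.mul (Nat.succ j) c) :: ih) ih) ih) n

/-- entry for one value of D -/
noncomputable def ent (T3 Q T D : ℕ) (sg : Bool) (rest : List (ℕ × ℕ × List (ℕ × ℕ × ℕ))) :
    List (ℕ × ℕ × List (ℕ × ℕ × ℕ)) :=
  fc (Nat.gcd D T3) fun h => cond (Nat.ble D (Nat.mul 60 h))
    (fc (Nat.div D h) fun w => fc (Nat.div (Nat.mul 3600 T) h) fun u =>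
      fc (cond sg (Nat.add (Nat.mul 60 w) u) (Nat.sub (Nat.mul 60 w) u)) fun m =>
        cond (Nat.ble 1 m)
          (fc (mk D items) fun M =>
            List.rec rest (fun o os _ => (D, T, o :: os) :: rest)
              (js M Q w m (Nat.mul u T) (Nat.div 60 w)))
          rest)
    rest

/-- all entries with 0 < |θ| ≤ B -/
noncomputable def lst (N T3 Q lo B : ℕ) : List (ℕ × ℕ × List (ℕ × ℕ × ℕ)) :=
  Nat.rec [] (fun T ih =>
    cond (Nat.ble lo (Nat.mul 60 (Nat.gcd (Nat.mul (Nat.sub N (Nat.succ T))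
        (Nat.add N (Nat.succ T))) T3)))
      (ent T3 Q (Nat.succ T) (Nat.sub N (Nat.succ T)) true
        (ent T3 Q (Nat.succ T) (Nat.add N (Nat.succ T)) false ih)) ih) B

/-- some entry is divisible by g -/
noncomputable def cov (g : ℕ) (L : List (ℕ × ℕ × List (ℕ × ℕ × ℕ))) : Bool :=
  List.rec false (fun p _ ih => cond (Nat.beq (Nat.mod p.1 g) 0) true ih) L

/-- equality test for solutions -/
noncomputable def eqs (l : List (ℕ × ℕ)) : List (ℕ × ℕ) → Bool :=
  List.rec (fun l' => List.rec true (fun _ _ _ => false) l')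
    (fun p _ ih l' => List.rec false
      (fun q t _ => cond (Nat.beq p.1 q.1) (cond (Nat.beq p.2 q.2) (ih t) false) false) l') l

/-- the search -/
noncomputable def srch (N : ℕ) (E : List (ℕ × ℕ)) (M0 : ℕ)
    (L : List (ℕ × ℕ × List (ℕ × ℕ × ℕ))) : ℕ → ℕ → ℕ → List (ℕ × ℕ) → Bool :=
  List.rec
    (fun w m q acc => cond (Nat.beq q 0)
        (cond (Nat.beq m (Nat.mul 60 w)) (cond (tb M0 m) (cond (Nat.beq w 0)
          (cond (eqs acc E) false true) true) false) false) false)
    (fun p _ ih w m q acc => cond (Nat.beq q 0)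
        (cond (Nat.beq m (Nat.mul 60 w)) (cond (tb M0 m) (cond (Nat.beq w 0)
          (cond (eqs acc E) false true) true) false) false)
        (cond (Nat.ble (Nat.mul q (Nat.sub N p.2.1)) (Nat.mul (Nat.mul 3600 (Nat.mul p.2.1 p.2.1)) w))
          (cond (ih w m q acc) true
            (List.rec false (fun o _ ih2 =>
              cond (Nat.ble o.1 w) (cond (Nat.ble o.2.1 m) (cond (Nat.ble o.2.2 q)
                (cond (fc (Nat.sub w o.1) fun w' => fc (Nat.sub m o.2.1) fun m' =>
                  fc (Nat.sub q o.2.2) fun q' => ih w' m' q' ((p.1, o.2.1) :: acc))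
                  true ih2) ih2) ih2) ih2) p.2.2))
          false)) L

/-- the complete test for one N (true = nothing found) -/
noncomputable def chk (E : List (ℕ × ℕ)) (B N : ℕ) : Bool :=
  fc (Nat.sub 216000 N) fun Q => fc (Nat.mul 3600 N) fun T3 => fc (Nat.sub N B) fun lo =>
    cond (Nat.ble (Nat.mul 3600 (Nat.mul (Nat.succ B) (Nat.succ B))) (Nat.mul (Nat.add N (Nat.succ B)) Q))
      false
      (cond (cov 24 (lst N T3 Q lo B)) (cond (cov 20 (lst N T3 Q lo B))
        (cond (cov 18 (lst N T3 Q lo B)) (cond (cov 15 (lst N T3 Q lo B))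
          (cond (cov 10 (lst N T3 Q lo B))
            (cond (srch N E (mk N items) (lst N T3 Q lo B) 60 3599 Q []) false true)
            true) true) true) true) true)

/-- loop over N = 120 a - 1, a0 ≤ a < a0 + n -/
noncomputable def loop (B a0 n : ℕ) : Bool :=
  Nat.rec true (fun j ih => fc (Nat.sub (Nat.mul 120 (Nat.add a0 j)) 1) fun N =>
    cond (chk [] B N) ih false) n

end Num

end MP26f323
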