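import Pool.Agent.Lib.MP_26f323_al.NumA

/-!
MP_26f323_al: module NUM, part B: soundness of the search.
-/

set_option autoImplicit false

namespace MP26f323

namespace Num

theorem fc_eq {α : Type} (x : ℕ) (F : ℕ → α) : fc x F = F x := by
  cases x <;> rfl

theorem tb_eq (x i : ℕ) : tb x i = Nat.testBit x i := by
  unfold tb
  rw [Nat.testBit_eq_decide_div_mod_eq]
  have h : Nat.mod (Nat.shiftRight x i) 2 = x / 2 ^ i % 2 := by
    change (x >>> i) % 2 = _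
    rw [Nat.shiftRight_eq_div_pow]
  rw [h]
  rcases Nat.mod_two_eq_zero_or_one (x / 2 ^ i) with h0 | h0 <;> rw [h0] <;> rfl

theorem mk_nil (D : ℕ) : mk D [] = 1 := rfl

theorem mk_cons (D : ℕ) (p : ℕ × ℕ) (l : List (ℕ × ℕ)) :
    mk D (p :: l) = cond (Nat.beq (D % p.2) 0) (mk D l ||| (mk D l <<< p.1)) (mk D l) := by
  change cond (Nat.beq (D % p.2) 0) (fc (mk D l) fun r => Nat.lor r (Nat.shiftLeft r p.1)) (mk D l)
    = _
  rw [fc_eq]
  rfl

theorem mk_sound {ι : Type} (D : ℕ) (f : ι → ℕ × ℕ) (c : ι → Prop) [DecidablePred c]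
    (l : List ι) (h : ∀ i ∈ l, c i → (f i).2 ∣ D) :
    tb (mk D (l.map f)) ((l.map fun i => if c i then (f i).1 else 0).sum) = true := by
  rw [tb_eq]
  induction l with
  | nil => simp [mk_nil]
  | cons a l ih =>
    have ih' := ih (fun i hi => h i (List.mem_cons_of_mem _ hi))
    simp only [List.map_cons, List.sum_cons]
    rw [mk_cons]
    by_cases hc : c a
    · have hd : D % (f a).2 = 0 := Nat.mod_eq_zero_of_dvd (h a List.mem_cons_self hc)
      rw [if_pos hc, hd]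
      change (mk D (l.map f) ||| (mk D (l.map f) <<< (f a).1)).testBit _ = true
      rw [Nat.testBit_or, Nat.testBit_shiftLeft]
      simp [ih']
    · rw [if_neg hc, zero_add]
      cases Nat.beq (D % (f a).2) 0
      · simpa using ih'
      · simp only [cond_true]
        rw [Nat.testBit_or, ih', Bool.true_or]

theorem js_mem (M Q a b c j : ℕ) (n : ℕ) (h1 : 1 ≤ j) (h2 : j ≤ n) (h3 : j * c ≤ Q)
    (h4 : tb M (j * b) = true) : (j * a, j * b, j * c) ∈ js M Q a b c n := by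
  induction n with
  | zero => omega
  | succ n ih =>
    change _ ∈ cond (Nat.ble ((n + 1) * c) Q) (cond (tb M ((n + 1) * b))
      (((n + 1) * a, (n + 1) * b, (n + 1) * c) :: js M Q a b c n) (js M Q a b c n)) (js M Q a b c n)
    rcases Nat.lt_or_ge n j with hj | hj
    · have hj' : j = n + 1 := by omega
      subst hj'
      rw [h4, Nat.ble_eq_true_of_le h3]
      exact List.mem_cons_self
    · have ih' := ih hj
      cases Nat.ble ((n + 1) * c) Q
      · exact ih'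
      · cases tb M ((n + 1) * b)
        · exact ih'
        · exact List.mem_cons_of_mem _ ih'

/-- abstract data of a solution -/
structure Dat (N : ℕ) (S : Finset ℤ) (W M : ℤ → ℕ) : Prop where
  hN : N % 120 = 119
  hN1 : 5999 ≤ N
  hN2 : N ≤ 215999
  lt : ∀ θ ∈ S, θ < N
  W1 : ∀ θ ∈ S, 1 ≤ W θ
  M1 : ∀ θ ∈ S, 1 ≤ M θ
  eq : ∀ θ ∈ S, ((M θ : ℤ) - 60 * W θ) * (N - θ) = 3600 * W θ * θ
  sW : ∑ θ ∈ S, W θ = 60
  sM : ∑ θ ∈ S, M θ = 3599
  sQ : ∑ θ ∈ S, ((M θ : ℤ) - 60 * W θ) * θ = 216000 - N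
  msk : ∀ θ ∈ S, tb (mk (N - θ).toNat items) (M θ) = true
  cov : ∀ g : ℕ, g ∈ [24, 20, 18, 15, 10] → ∃ θ ∈ S, (g : ℤ) ∣ N - θ

/-- contribution to the second moment -/
def Qf (W M : ℤ → ℕ) (θ : ℤ) : ℕ := (((M θ : ℤ) - 60 * W θ) * θ).toNat

section

variable {N : ℕ} {S : Finset ℤ} {W M : ℤ → ℕ}

theorem Dat.uq (H : Dat N S W M) {θ : ℤ} (h : θ ∈ S) :
    0 ≤ ((M θ : ℤ) - 60 * W θ) * θ ∧ (θ ≠ 0 → 0 < ((M θ : ℤ) - 60 * W θ) * θ) := by
  have h1 := H.lt θ h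
  have h2 := H.eq θ h
  have h3 := H.W1 θ h
  have h3' : (1 : ℤ) ≤ W θ := by exact_mod_cast h3
  have h4 : (((M θ : ℤ) - 60 * W θ) * θ) * (N - θ) = 3600 * W θ * (θ * θ) := by
    calc (((M θ : ℤ) - 60 * W θ) * θ) * (N - θ) = (((M θ : ℤ) - 60 * W θ) * (N - θ)) * θ := by ring
      _ = _ := by rw [h2]; ring
  have h5 : (0 : ℤ) < N - θ := by omega
  constructor
  · by_contra hneg
    push Not at hneg
    have h6 : (((M θ : ℤ) - 60 * W θ) * θ) * (N - θ) < 0 := mul_neg_of_neg_of_pos hneg h5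
    have h7 : (0 : ℤ) ≤ 3600 * W θ * (θ * θ) :=
      mul_nonneg (by positivity) (mul_self_nonneg θ)
    omega
  · intro hθ
    by_contra hneg
    push Not at hneg
    have h6 : (((M θ : ℤ) - 60 * W θ) * θ) * (N - θ) ≤ 0 :=
      mul_nonpos_of_nonpos_of_nonneg hneg h5.le
    have h8 : (0 : ℤ) < θ * θ := mul_self_pos.mpr hθ
    have h7 : (0 : ℤ) < 3600 * W θ * (θ * θ) := mul_pos (by positivity) h8
    omega

theorem Dat.Qf_cast (H : Dat N S W M) {θ : ℤ} (h : θ ∈ S) :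
    ((Qf W M θ : ℕ) : ℤ) = ((M θ : ℤ) - 60 * W θ) * θ := by
  unfold Qf
  rw [Int.toNat_of_nonneg (H.uq h).1]

theorem Dat.Qf_pos (H : Dat N S W M) {θ : ℤ} (h : θ ∈ S) (h0 : θ ≠ 0) : 0 < Qf W M θ := by
  have h1 := H.Qf_cast h
  have h2 := (H.uq h).2 h0
  omega

theorem Dat.sQf (H : Dat N S W M) : ∑ θ ∈ S, Qf W M θ = 216000 - N := by
  have h1 : ((∑ θ ∈ S, Qf W M θ : ℕ) : ℤ) = 216000 - N := by
    rw [← H.sQ]
    push_cast
    exact Finset.sum_congr rfl (fun θ h => H.Qf_cast h)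
  have := H.hN2
  omega

theorem Dat.QN (H : Dat N S W M) {θ : ℤ} (h : θ ∈ S) :
    ((Qf W M θ : ℕ) : ℤ) * (N - θ) = 3600 * W θ * (θ * θ) := by
  rw [H.Qf_cast h]
  calc (((M θ : ℤ) - 60 * W θ) * θ) * (N - θ) = (((M θ : ℤ) - 60 * W θ) * (N - θ)) * θ := by ring
    _ = _ := by rw [H.eq θ h]; ring

theorem Dat.Wle (H : Dat N S W M) {θ : ℤ} (h : θ ∈ S) : W θ ≤ 60 := by
  rw [← H.sW]
  exact Finset.single_le_sum (f := W) (fun i _ => Nat.zero_le _) h

theorem Dat.Qle (H : Dat N S W M) {θ : ℤ} (h : θ ∈ S) : Qf W M θ ≤ 216000 - N := by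
  rw [← H.sQf]
  exact Finset.single_le_sum (f := Qf W M) (fun i _ => Nat.zero_le _) h

/-- the divisibility structure -/
theorem Dat.key (H : Dat N S W M) {θ : ℤ} (h : θ ∈ S) (D : ℕ) (hD : (D : ℤ) = N - θ)
    (g : ℕ) (hg : g = Nat.gcd D (3600 * N)) :
    ∃ j, 1 ≤ j ∧ W θ = j * (D / g) ∧
      ((M θ : ℤ) - 60 * W θ).natAbs = j * (3600 * θ.natAbs / g) := by
  have h1 := H.lt θ h
  have h2 := H.eq θ h
  have h3 := H.W1 θ h
  have hN := H.hN1
  have hDpos : 0 < D := by omega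
  rw [← hD] at h2
  set u : ℤ := (M θ : ℤ) - 60 * W θ with hu
  have e1 : u.natAbs * D = 3600 * W θ * θ.natAbs := by
    have := congrArg Int.natAbs h2
    simp only [Int.natAbs_mul, Int.natAbs_natCast] at this
    simpa using this
  have e2 : (D : ℤ) ∣ ((3600 * N * W θ : ℕ) : ℤ) := by
    refine ⟨u + 3600 * W θ, ?_⟩
    push_cast
    have : (D : ℤ) * (u + 3600 * W θ) = u * D + 3600 * W θ * D := by ring
    rw [this, h2]
    rw [hD]
    ring
  have e2' : D ∣ 3600 * N * W θ := Int.natCast_dvd_natCast.mp e2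
  have hgpos : 0 < g := by
    rw [hg]; exact Nat.gcd_pos_of_pos_left _ hDpos
  have hgD : g ∣ D := by rw [hg]; exact Nat.gcd_dvd_left _ _
  have hgN : g ∣ 3600 * N := by rw [hg]; exact Nat.gcd_dvd_right _ _
  obtain ⟨w0, hw0⟩ := hgD
  obtain ⟨n0, hn0⟩ := hgN
  have hcop : Nat.Coprime w0 n0 := by
    have h5 := Nat.coprime_div_gcd_div_gcd (m := D) (n := 3600 * N) (by rw [← hg]; exact hgpos)
    rw [← hg] at h5
    rw [hw0, hn0, Nat.mul_div_cancel_left _ hgpos, Nat.mul_div_cancel_left _ hgpos] at h5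
    exact h5
  have hw0pos : 0 < w0 := by
    rcases Nat.eq_zero_or_pos w0 with h0 | h0
    · rw [h0] at hw0; omega
    · exact h0
  have e3 : w0 ∣ W θ := by
    rw [hn0, hw0, mul_assoc] at e2'
    exact hcop.dvd_of_dvd_mul_left (Nat.dvd_of_mul_dvd_mul_left hgpos e2')
  obtain ⟨j, hj⟩ := e3
  have hjpos : 1 ≤ j := by
    rcases Nat.eq_zero_or_pos j with h0 | h0
    · rw [h0] at hj; omega
    · exact h0
  have e4 : g ∣ 3600 * θ.natAbs := by
    have h6 : (g : ℤ) ∣ 3600 * θ := by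
      have h7 : (3600 : ℤ) * θ = ((3600 * N : ℕ) : ℤ) - 3600 * (D : ℤ) := by
        rw [hD]; push_cast; ring
      rw [h7]
      refine dvd_sub (Int.natCast_dvd_natCast.mpr ⟨n0, hn0⟩) (Dvd.dvd.mul_left ?_ _)
      exact Int.natCast_dvd_natCast.mpr ⟨w0, hw0⟩
    have h8 := Int.natAbs_dvd_natAbs.mpr h6
    simpa [Int.natAbs_mul] using h8
  obtain ⟨u0, hu0⟩ := e4
  refine ⟨j, hjpos, ?_, ?_⟩
  · rw [hw0, Nat.mul_div_cancel_left _ hgpos, hj, mul_comm]
  · rw [hu0, Nat.mul_div_cancel_left _ hgpos]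
    have h9 : u.natAbs * (g * w0) = (j * u0) * (g * w0) := by
      rw [← hw0, e1, hj]
      calc 3600 * (w0 * j) * θ.natAbs = (3600 * θ.natAbs) * (w0 * j) := by ring
        _ = j * u0 * D := by rw [hu0, hw0]; ring
    exact Nat.eq_of_mul_eq_mul_right (Nat.mul_pos hgpos hw0pos) h9

end

end Num

end MP26f323
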