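import Pool.Agent.Lib.MP_26f323_al.NumB

/-!
MP_26f323_al: module NUM, part C: soundness of the search, continued.
-/

set_option autoImplicit false

namespace MP26f323

namespace Num

/-- entries -/
abbrev Ent : Type := ℕ × ℕ × List (ℕ × ℕ × ℕ)

/-- the state of a leaf -/
noncomputable def leafv (E : List (ℕ × ℕ)) (M0 w m : ℕ) (acc : List (ℕ × ℕ)) : Bool :=
  cond (Nat.beq m (Nat.mul 60 w)) (cond (tb M0 m) (cond (Nat.beq w 0)
    (cond (eqs acc E) false true) true) false) false

/-- loop over the options -/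
noncomputable def optl (ih : ℕ → ℕ → ℕ → List (ℕ × ℕ) → Bool) (D w m q : ℕ) (acc : List (ℕ × ℕ))
    (os : List (ℕ × ℕ × ℕ)) : Bool :=
  List.rec false (fun o _ ih2 =>
    cond (Nat.ble o.1 w) (cond (Nat.ble o.2.1 m) (cond (Nat.ble o.2.2 q)
      (cond (fc (Nat.sub w o.1) fun w' => fc (Nat.sub m o.2.1) fun m' =>
        fc (Nat.sub q o.2.2) fun q' => ih w' m' q' ((D, o.2.1) :: acc))
        true ih2) ih2) ih2) ih2) os

theorem srch_nil (N : ℕ) (E : List (ℕ × ℕ)) (M0 w m q : ℕ) (acc : List (ℕ × ℕ)) :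
    srch N E M0 [] w m q acc = cond (Nat.beq q 0) (leafv E M0 w m acc) false := rfl

theorem srch_cons (N : ℕ) (E : List (ℕ × ℕ)) (M0 : ℕ) (p : Ent) (L : List Ent) (w m q : ℕ)
    (acc : List (ℕ × ℕ)) :
    srch N E M0 (p :: L) w m q acc = cond (Nat.beq q 0) (leafv E M0 w m acc)
      (cond (Nat.ble (q * (N - p.2.1)) (3600 * (p.2.1 * p.2.1) * w))
        (cond (srch N E M0 L w m q acc) true
          (optl (srch N E M0 L) p.1 w m q acc p.2.2)) false) := rfl

theorem optl_mem (ih : ℕ → ℕ → ℕ → List (ℕ × ℕ) → Bool) (D w m q : ℕ) (acc : List (ℕ × ℕ))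
    (os : List (ℕ × ℕ × ℕ)) (o : ℕ × ℕ × ℕ) (ho : o ∈ os) (h1 : o.1 ≤ w) (h2 : o.2.1 ≤ m)
    (h3 : o.2.2 ≤ q) (h4 : ih (w - o.1) (m - o.2.1) (q - o.2.2) ((D, o.2.1) :: acc) = true) :
    optl ih D w m q acc os = true := by
  induction os with
  | nil => simp at ho
  | cons a os ih2 =>
    have e : optl ih D w m q acc (a :: os) = cond (Nat.ble a.1 w) (cond (Nat.ble a.2.1 m)
      (cond (Nat.ble a.2.2 q) (cond (fc (Nat.sub w a.1) fun w' => fc (Nat.sub m a.2.1) fun m' =>
        fc (Nat.sub q a.2.2) fun q' => ih w' m' q' ((D, a.2.1) :: acc)) true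
        (optl ih D w m q acc os)) (optl ih D w m q acc os)) (optl ih D w m q acc os))
        (optl ih D w m q acc os) := rfl
    rw [e]
    rcases List.mem_cons.mp ho with h | h
    · subst h
      rw [Nat.ble_eq_true_of_le h1, Nat.ble_eq_true_of_le h2, Nat.ble_eq_true_of_le h3]
      simp only [cond_true, fc_eq]
      change cond (ih (w - o.1) (m - o.2.1) (q - o.2.2) ((D, o.2.1) :: acc)) true _ = true
      rw [h4]
      rfl
    · rw [ih2 h]
      cases Nat.ble a.1 w <;> cases Nat.ble a.2.1 m <;> cases Nat.ble a.2.2 q <;>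
        simp

theorem eqs_eq (l l' : List (ℕ × ℕ)) (h : eqs l l' = true) : l = l' := by
  induction l generalizing l' with
  | nil =>
    cases l' with
    | nil => rfl
    | cons q t => exact absurd h (by change ¬ (false = true); simp)
  | cons p l ih =>
    cases l' with
    | nil => exact absurd h (by change ¬ (false = true); simp)
    | cons q t =>
      change cond (Nat.beq p.1 q.1) (cond (Nat.beq p.2 q.2) (eqs l t) false) false = true at h
      cases h1 : Nat.beq p.1 q.1
      · rw [h1] at h; simp at h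
      · cases h2 : Nat.beq p.2 q.2
        · rw [h1, h2] at h; simp at h
        · rw [h1, h2] at h
          have := ih t h
          rw [this, Prod.ext (Nat.eq_of_beq_eq_true h1) (Nat.eq_of_beq_eq_true h2)]

section

variable {N : ℕ} {S : Finset ℤ} {W M : ℤ → ℕ}

/-- weight of zero -/
def W0 (S : Finset ℤ) (W : ℤ → ℕ) : ℕ := if (0 : ℤ) ∈ S then W 0 else 0

/-- invariant of the search; S' = the part which is still to be found -/
structure Inv (N : ℕ) (S : Finset ℤ) (W M : ℤ → ℕ) (S' : Finset ℤ) (w m q : ℕ)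
    (acc : List (ℕ × ℕ)) : Prop where
  sub : S' ⊆ S
  z : (0 : ℤ) ∉ S'
  w : w = ∑ θ ∈ S', W θ + W0 S W
  m : m = ∑ θ ∈ S', M θ + 60 * W0 S W
  q : q = ∑ θ ∈ S', Qf W M θ
  acc : ∀ θ ∈ S, θ ≠ 0 → θ ∉ S' → ((N - θ).toNat, M θ) ∈ acc

theorem leaf_ok (H : Dat N S W M) (E : List (ℕ × ℕ))
    (hE : ¬ ∀ θ ∈ S, ((N - θ).toNat, M θ) ∈ E) {S' : Finset ℤ} {w m q : ℕ}
    {acc : List (ℕ × ℕ)} (hI : Inv N S W M S' w m q acc) (hq : q = 0) :
    leafv E (mk N items) w m acc = true := by
  have hS' : S' = ∅ := by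
    by_contra hne
    obtain ⟨θ, hθ⟩ := Finset.nonempty_iff_ne_empty.mpr hne
    have h1 := Finset.single_le_sum (f := Qf W M) (fun i _ => Nat.zero_le _) hθ
    have h2 := H.Qf_pos (hI.sub hθ) (fun h => hI.z (h ▸ hθ))
    have h3 := hI.q
    omega
  have hw := hI.w
  have hm := hI.m
  rw [hS', Finset.sum_empty, zero_add] at hw hm
  have e1 : Nat.beq m (Nat.mul 60 w) = true := by
    have h1 : m = Nat.mul 60 w := by rw [hm, hw]; rfl
    rw [h1]
    exact Nat.beq_refl _
  have e2 : tb (mk N items) m = true := by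
    by_cases h0 : (0 : ℤ) ∈ S
    · have h1 := H.msk 0 h0
      have h2 := H.eq 0 h0
      have h3 := H.hN1
      simp only [sub_zero, mul_zero, mul_eq_zero] at h2
      have h4 : (M 0 : ℤ) = 60 * W 0 := by
        rcases h2 with h2 | h2
        · omega
        · exfalso; omega
      have h5 : m = M 0 := by
        rw [hm, W0, if_pos h0]; omega
      rw [h5]
      simpa using h1
    · have h5 : m = 0 := by
        rw [hm, W0, if_neg h0]
      rw [h5]
      have := mk_sound N (id : ℕ × ℕ → ℕ × ℕ) (fun _ => False) items (by simp)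
      simpa using this
  unfold leafv
  rw [e1, e2]
  simp only [cond_true]
  cases h3 : Nat.beq w 0
  · rfl
  · simp only [cond_true]
    have hw0 : w = 0 := Nat.eq_of_beq_eq_true h3
    cases h4 : eqs acc E
    · rfl
    · exfalso
      apply hE
      have hacc := eqs_eq _ _ h4
      intro θ hθ
      have hne : θ ≠ 0 := by
        intro h0
        rw [h0] at hθ
        have h5 := H.W1 0 hθ
        rw [hw0, W0, if_pos hθ] at hw
        omega
      have := hI.acc θ hθ hne (by rw [hS']; simp)
      rw [hacc] at this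
      exact this

theorem prune_ok (H : Dat N S W M) {S' : Finset ℤ} {w m q : ℕ} {acc : List (ℕ × ℕ)}
    (hI : Inv N S W M S' w m q acc) (T : ℕ) (hT : ∀ θ ∈ S', θ.natAbs ≤ T) (hTN : T < N) :
    Nat.ble (q * (N - T)) (3600 * (T * T) * w) = true := by
  apply Nat.ble_eq_true_of_le
  have h1 : ∀ θ ∈ S', Qf W M θ * (N - T) ≤ 3600 * (T * T) * W θ := by
    intro θ hθ
    have h2 := H.QN (hI.sub hθ)
    have h3 := hT θ hθ
    have h4 : (((N - T : ℕ) : ℤ)) ≤ N - θ := by omega
    have h5 : ((Qf W M θ * (N - T) : ℕ) : ℤ) ≤ ((3600 * (T * T) * W θ : ℕ) : ℤ) := by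
      have h6 : ((Qf W M θ * (N - T) : ℕ) : ℤ) = (Qf W M θ : ℤ) * ((N - T : ℕ) : ℤ) := by
        push_cast; rfl
      rw [h6]
      calc (Qf W M θ : ℤ) * ((N - T : ℕ) : ℤ) ≤ (Qf W M θ : ℤ) * (N - θ) :=
            mul_le_mul_of_nonneg_left h4 (by positivity)
        _ = 3600 * W θ * (θ * θ) := h2
        _ ≤ 3600 * W θ * (T * T) := by
            apply mul_le_mul_of_nonneg_left _ (by positivity)
            have h7 : θ * θ = (θ.natAbs : ℤ) * θ.natAbs := (Int.natAbs_mul_self' θ).symm
            rw [h7]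
            exact_mod_cast Nat.mul_le_mul h3 h3
        _ = ((3600 * (T * T) * W θ : ℕ) : ℤ) := by push_cast; ring
    exact_mod_cast h5
  calc q * (N - T) = ∑ θ ∈ S', Qf W M θ * (N - T) := by rw [hI.q, Finset.sum_mul]
    _ ≤ ∑ θ ∈ S', 3600 * (T * T) * W θ := Finset.sum_le_sum h1
    _ = 3600 * (T * T) * ∑ θ ∈ S', W θ := by rw [Finset.mul_sum]
    _ ≤ 3600 * (T * T) * w := Nat.mul_le_mul_left _ (by rw [hI.w]; omega)

/-- the search succeeds on L when S' is to be found -/
def Good (N : ℕ) (S : Finset ℤ) (W M : ℤ → ℕ) (E : List (ℕ × ℕ)) (L : List Ent)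
    (S' : Finset ℤ) : Prop :=
  ∀ w m q acc, Inv N S W M S' w m q acc → srch N E (mk N items) L w m q acc = true

theorem good_nil (H : Dat N S W M) (E : List (ℕ × ℕ))
    (hE : ¬ ∀ θ ∈ S, ((N - θ).toNat, M θ) ∈ E) : Good N S W M E [] ∅ := by
  intro w m q acc hI
  rw [srch_nil]
  have hq : q = 0 := by rw [hI.q, Finset.sum_empty]
  rw [leaf_ok H E hE hI hq, hq]
  rfl

theorem good_skip (H : Dat N S W M) (E : List (ℕ × ℕ))
    (hE : ¬ ∀ θ ∈ S, ((N - θ).toNat, M θ) ∈ E) (L : List Ent) (S' : Finset ℤ) (D T : ℕ)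
    (os : List (ℕ × ℕ × ℕ)) (hT : ∀ θ ∈ S', θ.natAbs ≤ T) (hTN : T < N)
    (hL : Good N S W M E L S') : Good N S W M E ((D, T, os) :: L) S' := by
  intro w m q acc hI
  rw [srch_cons]
  cases hq : Nat.beq q 0
  · simp only [cond_false]
    rw [prune_ok H hI T hT hTN, hL w m q acc hI]
    rfl
  · simp only [cond_true]
    exact leaf_ok H E hE hI (Nat.eq_of_beq_eq_true hq)

theorem good_take (H : Dat N S W M) (E : List (ℕ × ℕ))
    (hE : ¬ ∀ θ ∈ S, ((N - θ).toNat, M θ) ∈ E) (L : List Ent) (S' : Finset ℤ) (D T : ℕ)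
    (os : List (ℕ × ℕ × ℕ)) (θ0 : ℤ) (h0' : θ0 ∉ S')
    (hD : D = (N - θ0).toNat) (hos : (W θ0, M θ0, Qf W M θ0) ∈ os)
    (hT : ∀ θ ∈ insert θ0 S', θ.natAbs ≤ T) (hTN : T < N)
    (hL : Good N S W M E L S') : Good N S W M E ((D, T, os) :: L) (insert θ0 S') := by
  intro w m q acc hI
  rw [srch_cons]
  cases hq : Nat.beq q 0
  · simp only [cond_false]
    rw [prune_ok H hI T hT hTN]
    simp only [cond_true]
    have hw := hI.w
    have hm := hI.m
    have hqq := hI.q
    rw [Finset.sum_insert h0'] at hw hm hqq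
    rw [optl_mem (srch N E (mk N items) L) D w m q acc os (W θ0, M θ0, Qf W M θ0) hos
      (by simp only; omega) (by simp only; omega) (by simp only; omega)]
    · cases srch N E (mk N items) L w m q acc <;> rfl
    · apply hL
      refine ⟨?_, ?_, ?_, ?_, ?_, ?_⟩
      · exact (Finset.subset_insert _ _).trans hI.sub
      · exact fun h => hI.z (Finset.mem_insert_of_mem h)
      · simp only; omega
      · simp only; omega
      · simp only; omega
      · intro θ hθ hne hns
        by_cases he : θ = θ0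
        · rw [he, ← hD]
          exact List.mem_cons_self
        · refine List.mem_cons_of_mem _ (hI.acc θ hθ hne ?_)
          intro hmem
          rcases Finset.mem_insert.mp hmem with h | h
          · exact he h
          · exact hns h
  · simp only [cond_true]
    exact leaf_ok H E hE hI (Nat.eq_of_beq_eq_true hq)

theorem ent_def (T3 Q T D : ℕ) (sg : Bool) (rest : List Ent) :
    ent T3 Q T D sg rest = cond (Nat.ble D (60 * Nat.gcd D T3))
      (cond (Nat.ble 1 (cond sg (60 * (D / Nat.gcd D T3) + 3600 * T / Nat.gcd D T3)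
          (60 * (D / Nat.gcd D T3) - 3600 * T / Nat.gcd D T3)))
        (List.rec rest (fun o os _ => (D, T, o :: os) :: rest)
          (js (mk D items) Q (D / Nat.gcd D T3)
            (cond sg (60 * (D / Nat.gcd D T3) + 3600 * T / Nat.gcd D T3)
              (60 * (D / Nat.gcd D T3) - 3600 * T / Nat.gcd D T3))
            (3600 * T / Nat.gcd D T3 * T) (60 / (D / Nat.gcd D T3))))
        rest) rest := by
  unfold ent
  simp only [fc_eq]
  rfl

theorem ent_cases (T3 Q T D : ℕ) (sg : Bool) (rest : List Ent) :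
    ent T3 Q T D sg rest = rest ∨ ∃ os, ent T3 Q T D sg rest = (D, T, os) :: rest := by
  rw [ent_def]
  cases Nat.ble D (60 * Nat.gcd D T3)
  · left; rfl
  · simp only [cond_true]
    cases Nat.ble 1 (cond sg (60 * (D / Nat.gcd D T3) + 3600 * T / Nat.gcd D T3)
          (60 * (D / Nat.gcd D T3) - 3600 * T / Nat.gcd D T3))
    · left; rfl
    · simp only [cond_true]
      cases js (mk D items) Q (D / Nat.gcd D T3)
            (cond sg (60 * (D / Nat.gcd D T3) + 3600 * T / Nat.gcd D T3)
              (60 * (D / Nat.gcd D T3) - 3600 * T / Nat.gcd D T3))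
            (3600 * T / Nat.gcd D T3 * T) (60 / (D / Nat.gcd D T3)) with
      | nil => left; rfl
      | cons o os => right; exact ⟨o :: os, rfl⟩

theorem ent_pos (H : Dat N S W M) (θ : ℤ) (hθ : θ ∈ S) (h0 : θ ≠ 0) (T D : ℕ)
    (hT : T = θ.natAbs) (hD : D = (N - θ).toNat) (sg : Bool) (hsg : sg = decide (0 < θ))
    (rest : List Ent) :
    (D ≤ 60 * Nat.gcd D (3600 * N)) ∧ ∃ os, ent (3600 * N) (216000 - N) T D sg rest =
      (D, T, os) :: rest ∧ (W θ, M θ, Qf W M θ) ∈ os := by
  have hlt := H.lt θ hθ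
  have hDz : (D : ℤ) = N - θ := by omega
  obtain ⟨j, hj, hW, hu⟩ := H.key hθ D hDz _ rfl
  have hWle := H.Wle hθ
  have hQle := H.Qle hθ
  have hM1 := H.M1 θ hθ
  have hW1 := H.W1 θ hθ
  have hmsk := H.msk θ hθ
  have hQc := H.Qf_cast hθ
  have hQp := (H.uq hθ).2 h0
  rw [← hD] at hmsk
  rw [← hT] at hu
  set h := Nat.gcd D (3600 * N) with hh
  set w0 := D / h with hw0
  set u0 := 3600 * T / h with hu0
  have hgD : h ∣ D := Nat.gcd_dvd_left _ _
  have hDh : D = w0 * h := (Nat.div_mul_cancel hgD).symm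
  have hw0pos : 0 < w0 := by
    rcases Nat.eq_zero_or_pos w0 with h1 | h1
    · rw [h1] at hW; omega
    · exact h1
  have hw0le : w0 ≤ 60 := by
    calc w0 = 1 * w0 := (one_mul _).symm
      _ ≤ j * w0 := Nat.mul_le_mul_right _ hj
      _ ≤ 60 := by omega
  have hD60 : D ≤ 60 * h := by
    calc D = w0 * h := hDh
      _ ≤ 60 * h := Nat.mul_le_mul_right _ hw0le
  -- the sign
  have hsign : ((M θ : ℤ) - 60 * W θ) = if 0 < θ then (j * u0 : ℤ) else -(j * u0 : ℤ) := by
    split_ifs with hpos
    · have h1 : 0 < (M θ : ℤ) - 60 * W θ := by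
        by_contra hneg
        push Not at hneg
        have := mul_nonpos_of_nonpos_of_nonneg hneg hpos.le
        omega
      omega
    · have hneg : θ < 0 := by omega
      have h1 : (M θ : ℤ) - 60 * W θ < 0 := by
        by_contra hn
        push Not at hn
        have := mul_nonpos_of_nonneg_of_nonpos hn hneg.le
        omega
      omega
  have hWz : (W θ : ℤ) = j * w0 := by exact_mod_cast hW
  set m0 := cond sg (60 * w0 + u0) (60 * w0 - u0) with hm0
  have hM : M θ = j * m0 := by
    by_cases hpos : 0 < θ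
    · rw [if_pos hpos] at hsign
      have : sg = true := by rw [hsg]; simpa using hpos
      rw [hm0, this]
      simp only [cond_true]
      have h1 : (M θ : ℤ) = j * (60 * w0 + u0) := by
        have : (M θ : ℤ) = 60 * W θ + j * u0 := by omega
        rw [this, hWz]; ring
      exact_mod_cast h1
    · rw [if_neg hpos] at hsign
      have : sg = false := by rw [hsg]; simpa using hpos
      rw [hm0, this]
      simp only [cond_false]
      have h1 : (M θ : ℤ) = 60 * W θ - j * u0 := by omega
      have h2 : j * u0 ≤ j * (60 * w0) := by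
        have : (j * u0 : ℤ) ≤ 60 * W θ := by omega
        rw [hWz] at this
        have h3 : ((j * u0 : ℕ) : ℤ) ≤ ((j * (60 * w0) : ℕ) : ℤ) := by
          push_cast; linarith
        exact_mod_cast h3
      have h4 : M θ = j * (60 * w0) - j * u0 := by
        have h5 : (M θ : ℤ) = ((j * (60 * w0) : ℕ) : ℤ) - ((j * u0 : ℕ) : ℤ) := by
          rw [h1, hWz]; push_cast; ring
        omega
      rw [h4, Nat.mul_sub]
  have hm0pos : 1 ≤ m0 := by
    rcases Nat.eq_zero_or_pos m0 with h1 | h1
    · rw [h1] at hM; omega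
    · exact h1
  have hQ : Qf W M θ = j * (u0 * T) := by
    have h1 : (Qf W M θ : ℤ) = ((j * (u0 * T) : ℕ) : ℤ) := by
      rw [hQc, hsign]
      push_cast
      split_ifs with hpos
      · have : (T : ℤ) = θ := by omega
        rw [this]; ring
      · have : (T : ℤ) = -θ := by omega
        rw [this]; ring
    exact_mod_cast h1
  have hj2 : j ≤ 60 / w0 := by
    rw [Nat.le_div_iff_mul_le hw0pos]
    omega
  have hmem := js_mem (mk D items) (216000 - N) w0 m0 (u0 * T) j (60 / w0) hj hj2
    (by rw [← hQ]; exact hQle) (by rw [← hM]; exact hmsk)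
  rw [← hW, ← hM, ← hQ] at hmem
  refine ⟨hD60, ?_⟩
  rw [ent_def]
  rw [← hh, ← hw0, ← hu0, ← hm0, Nat.ble_eq_true_of_le hD60, Nat.ble_eq_true_of_le hm0pos]
  simp only [cond_true]
  revert hmem
  cases js (mk D items) (216000 - N) w0 m0 (u0 * T) (60 / w0) with
  | nil => intro hmem; simp at hmem
  | cons o os => intro hmem; exact ⟨o :: os, rfl, hmem⟩

theorem lst_zero (N T3 Q lo : ℕ) : lst N T3 Q lo 0 = [] := rfl

theorem lst_succ (N T3 Q lo T : ℕ) : lst N T3 Q lo (T + 1) =
    cond (Nat.ble lo (60 * Nat.gcd ((N - (T + 1)) * (N + (T + 1))) T3))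
      (ent T3 Q (T + 1) (N - (T + 1)) true (ent T3 Q (T + 1) (N + (T + 1)) false
        (lst N T3 Q lo T))) (lst N T3 Q lo T) := rfl

/-- the part of S with 0 < |θ| ≤ T -/
def St (S : Finset ℤ) (T : ℕ) : Finset ℤ := S.filter (fun θ => θ ≠ 0 ∧ θ.natAbs ≤ T)

/-- the elements of S below T are good and covered -/
theorem lst_good (H : Dat N S W M) (E : List (ℕ × ℕ))
    (hE : ¬ ∀ θ ∈ S, ((N - θ).toNat, M θ) ∈ E) (B : ℕ) (hB : B < N) (T : ℕ) (hT : T ≤ B) :
    Good N S W M E (lst N (3600 * N) (216000 - N) (N - B) T) (St S T) ∧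
    ∀ θ ∈ St S T, ∃ t os, ((N - θ).toNat, t, os) ∈ lst N (3600 * N) (216000 - N) (N - B) T := by
  induction T with
  | zero =>
    have h0 : St S 0 = ∅ := by
      ext θ
      simp only [St, Finset.mem_filter, Finset.notMem_empty, iff_false]
      rintro ⟨_, h1, h2⟩
      omega
    rw [h0, lst_zero]
    exact ⟨good_nil H E hE, fun θ hθ => absurd hθ (Finset.notMem_empty _)⟩
  | succ T ih =>
    obtain ⟨ih1, ih2⟩ := ih (by omega)
    rw [lst_succ]
    set L := lst N (3600 * N) (216000 - N) (N - B) T with hL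
    -- the negative value
    set θm : ℤ := -((T + 1 : ℕ) : ℤ) with hθm
    set θp : ℤ := ((T + 1 : ℕ) : ℤ) with hθp
    have hDm : N + (T + 1) = (N - θm).toNat := by omega
    have hDp : N - (T + 1) = (N - θp).toNat := by omega
    have hTT : ∀ θ ∈ St S T, θ.natAbs ≤ T + 1 := by
      intro θ hθ
      have := (Finset.mem_filter.mp hθ).2.2
      omega
    set A1 : Finset ℤ := if θm ∈ S then insert θm (St S T) else St S T with hA1
    set A2 : Finset ℤ := if θp ∈ S then insert θp A1 else A1 with hA2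
    have hStA : St S (T + 1) = A2 := by
      ext θ
      have e1 : θ ∈ A1 ↔ (θ = θm ∧ θm ∈ S) ∨ θ ∈ St S T := by
        rw [hA1]
        by_cases h : θm ∈ S
        · rw [if_pos h]; simp [h]
        · rw [if_neg h]; simp [h]
      have e2 : θ ∈ A2 ↔ (θ = θp ∧ θp ∈ S) ∨ θ ∈ A1 := by
        rw [hA2]
        by_cases h : θp ∈ S
        · rw [if_pos h]; simp [h]
        · rw [if_neg h]; simp [h]
      rw [e2, e1]
      simp only [St, Finset.mem_filter]
      constructor
      · rintro ⟨h1, h2, h3⟩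
        rcases Nat.lt_or_ge T θ.natAbs with h4 | h4
        · have h5 : θ = θp ∨ θ = θm := by omega
          rcases h5 with h5 | h5
          · left; exact ⟨h5, h5 ▸ h1⟩
          · right; left; exact ⟨h5, h5 ▸ h1⟩
        · right; right; exact ⟨h1, h2, h4⟩
      · rintro (⟨h1, h2⟩ | ⟨h1, h2⟩ | ⟨h1, h2, h3⟩)
        · rw [h1]; exact ⟨h2, by omega, by omega⟩
        · rw [h1]; exact ⟨h2, by omega, by omega⟩
        · exact ⟨h1, h2, by omega⟩
    have hm_notin : θm ∉ St S T := by
      intro h
      have := (Finset.mem_filter.mp h).2.2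
      omega
    have hA1T : ∀ θ ∈ A1, θ.natAbs ≤ T + 1 := by
      intro θ hθ
      rw [hA1] at hθ
      split_ifs at hθ with h
      · rcases Finset.mem_insert.mp hθ with h1 | h1
        · omega
        · exact hTT θ h1
      · exact hTT θ hθ
    have hp_notin : θp ∉ A1 := by
      intro h
      rw [hA1] at h
      split_ifs at h with h'
      · rcases Finset.mem_insert.mp h with h1 | h1
        · omega
        · have := (Finset.mem_filter.mp h1).2.2
          omega
      · have := (Finset.mem_filter.mp h).2.2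
        omega
    -- L1
    set L1 := ent (3600 * N) (216000 - N) (T + 1) (N + (T + 1)) false L with hL1
    have hG1 : Good N S W M E L1 A1 ∧ ∀ θ ∈ A1, ∃ t os, ((N - θ).toNat, t, os) ∈ L1 := by
      by_cases h : θm ∈ S
      · obtain ⟨_, os, hos, hmem⟩ := ent_pos H θm h (by omega) (T + 1) (N + (T + 1)) (by omega)
          hDm false (by simp; omega) L
        rw [hL1, hos, hA1, if_pos h]
        refine ⟨good_take H E hE L _ _ _ _ θm hm_notin hDm hmem ?_ (by omega) ih1, ?_⟩
        · intro θ hθ
          rcases Finset.mem_insert.mp hθ with h1 | h1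
          · omega
          · exact hTT θ h1
        · intro θ hθ
          rcases Finset.mem_insert.mp hθ with h1 | h1
          · rw [h1, ← hDm]; exact ⟨_, _, List.mem_cons_self⟩
          · obtain ⟨t, os', h2⟩ := ih2 θ h1
            exact ⟨t, os', List.mem_cons_of_mem _ h2⟩
      · rw [hA1, if_neg h]
        rcases ent_cases (3600 * N) (216000 - N) (T + 1) (N + (T + 1)) false L with h1 | ⟨os, h1⟩
        · rw [hL1, h1]; exact ⟨ih1, ih2⟩
        · rw [hL1, h1]
          refine ⟨good_skip H E hE L _ _ _ _ hTT (by omega) ih1, ?_⟩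
          intro θ hθ
          obtain ⟨t, os', h2⟩ := ih2 θ hθ
          exact ⟨t, os', List.mem_cons_of_mem _ h2⟩
    have hG2 : Good N S W M E (ent (3600 * N) (216000 - N) (T + 1) (N - (T + 1)) true L1) A2 ∧
        ∀ θ ∈ A2, ∃ t os, ((N - θ).toNat, t, os) ∈
          ent (3600 * N) (216000 - N) (T + 1) (N - (T + 1)) true L1 := by
      by_cases h : θp ∈ S
      · obtain ⟨_, os, hos, hmem⟩ := ent_pos H θp h (by omega) (T + 1) (N - (T + 1)) (by omega)
          hDp true (by simp; omega) L1
        rw [hos, hA2, if_pos h]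
        refine ⟨good_take H E hE L1 _ _ _ _ θp hp_notin hDp hmem ?_ (by omega) hG1.1, ?_⟩
        · intro θ hθ
          rcases Finset.mem_insert.mp hθ with h1 | h1
          · omega
          · exact hA1T θ h1
        · intro θ hθ
          rcases Finset.mem_insert.mp hθ with h1 | h1
          · rw [h1, ← hDp]; exact ⟨_, _, List.mem_cons_self⟩
          · obtain ⟨t, os', h2⟩ := hG1.2 θ h1
            exact ⟨t, os', List.mem_cons_of_mem _ h2⟩
      · rw [hA2, if_neg h]
        rcases ent_cases (3600 * N) (216000 - N) (T + 1) (N - (T + 1)) true L1 with h1 | ⟨os, h1⟩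
        · rw [h1]; exact hG1
        · rw [h1]
          refine ⟨good_skip H E hE L1 _ _ _ _ hA1T (by omega) hG1.1, ?_⟩
          intro θ hθ
          obtain ⟨t, os', h2⟩ := hG1.2 θ hθ
          exact ⟨t, os', List.mem_cons_of_mem _ h2⟩
    rw [hStA]
    cases hc : Nat.ble (N - B) (60 * Nat.gcd ((N - (T + 1)) * (N + (T + 1))) (3600 * N))
    · -- the pair test fails
      simp only [cond_false]
      have hlt : 60 * Nat.gcd ((N - (T + 1)) * (N + (T + 1))) (3600 * N) < N - B := by
        by_contra hge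
        push Not at hge
        rw [Nat.ble_eq_true_of_le hge] at hc
        exact absurd hc (by simp)
      have hgpos : 0 < Nat.gcd ((N - (T + 1)) * (N + (T + 1))) (3600 * N) :=
        Nat.gcd_pos_of_pos_right _ (by omega)
      have hnm : θm ∉ S := by
        intro h
        obtain ⟨h1, _⟩ := ent_pos H θm h (by omega) (T + 1) (N + (T + 1)) (by omega)
          hDm false (by simp; omega) L
        have h2 : Nat.gcd (N + (T + 1)) (3600 * N) ≤
            Nat.gcd ((N - (T + 1)) * (N + (T + 1))) (3600 * N) :=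
          Nat.le_of_dvd hgpos (Nat.gcd_dvd_gcd_of_dvd_left _ (Dvd.intro_left _ rfl))
        omega
      have hnp : θp ∉ S := by
        intro h
        obtain ⟨h1, _⟩ := ent_pos H θp h (by omega) (T + 1) (N - (T + 1)) (by omega)
          hDp true (by simp; omega) L
        have h2 : Nat.gcd (N - (T + 1)) (3600 * N) ≤
            Nat.gcd ((N - (T + 1)) * (N + (T + 1))) (3600 * N) :=
          Nat.le_of_dvd hgpos (Nat.gcd_dvd_gcd_of_dvd_left _ (Dvd.intro _ rfl))
        omega
      rw [hA2, if_neg hnp, hA1, if_neg hnm]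
      exact ⟨ih1, ih2⟩
    · simp only [cond_true]
      exact hG2

theorem cov_true (g : ℕ) (L : List Ent) (p : Ent) (hp : p ∈ L) (hg : g ∣ p.1) :
    cov g L = true := by
  induction L with
  | nil => simp at hp
  | cons a L ih =>
    change cond (Nat.beq (a.1 % g) 0) true (cov g L) = true
    rcases List.mem_cons.mp hp with h | h
    · rw [← h, Nat.mod_eq_zero_of_dvd hg]
      rfl
    · rw [ih h]
      cases Nat.beq (a.1 % g) 0 <;> rfl

/-- bound for the eigenvalues -/
theorem bound (H : Dat N S W M) (B : ℕ)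
    (hB : (N + (B + 1)) * (216000 - N) < 3600 * ((B + 1) * (B + 1))) (θ : ℤ) (hθ : θ ∈ S) :
    θ.natAbs ≤ B := by
  by_contra hcon
  push Not at hcon
  set T := θ.natAbs with hT
  have hlt := H.lt θ hθ
  have h1 := H.QN hθ
  have h2 := H.Qle hθ
  have h3 := H.W1 θ hθ
  have h4 : (3600 : ℤ) * (T * T) ≤ ((216000 - N : ℕ) : ℤ) * (N + T) := by
    have h5 : (T : ℤ) * T = θ * θ := Int.natAbs_mul_self' θ
    have h3' : (1 : ℤ) ≤ W θ := by exact_mod_cast h3
    calc (3600 : ℤ) * (T * T) = 3600 * 1 * (θ * θ) := by rw [h5]; ring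
      _ ≤ 3600 * W θ * (θ * θ) := by
          apply mul_le_mul_of_nonneg_right _ (mul_self_nonneg θ)
          linarith
      _ = (Qf W M θ : ℤ) * (N - θ) := h1.symm
      _ ≤ ((216000 - N : ℕ) : ℤ) * (N - θ) := by
          apply mul_le_mul_of_nonneg_right _ (by omega)
          exact_mod_cast h2
      _ ≤ ((216000 - N : ℕ) : ℤ) * (N + T) := by
          apply mul_le_mul_of_nonneg_left _ (by positivity)
          omega
  have h6 : 3600 * (T * T) ≤ (216000 - N) * (N + T) := by exact_mod_cast h4
  set Q := 216000 - N with hQ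
  set b := B + 1 with hb
  have hbT : b ≤ T := hcon
  have hbpos : 0 < b := by omega
  have h7 : (N + T) * b ≤ T * (N + b) := by nlinarith
  have h8 : Q * (N + T) * b ≤ Q * (T * (N + b)) := by
    calc Q * (N + T) * b = Q * ((N + T) * b) := by ring
      _ ≤ _ := Nat.mul_le_mul_left _ h7
  have h9 : Q * (T * (N + b)) < T * (3600 * (b * b)) := by
    calc Q * (T * (N + b)) = T * ((N + b) * Q) := by ring
      _ < _ := Nat.mul_lt_mul_of_pos_left hB (by omega)
  have h10 : T * (3600 * (b * b)) ≤ 3600 * (T * T) * b := by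
    calc T * (3600 * (b * b)) = 3600 * (T * b) * b := by ring
      _ ≤ 3600 * (T * T) * b := by gcongr
  have h11 : 3600 * (T * T) * b ≤ Q * (N + T) * b := Nat.mul_le_mul_right _ h6
  omega

/-- soundness of chk -/
theorem chk_sound (H : Dat N S W M) (E : List (ℕ × ℕ)) (B : ℕ) (hBN : B < N)
    (hc : chk E B N = true) : ∀ θ ∈ S, ((N - θ).toNat, M θ) ∈ E := by
  by_contra hE
  unfold chk at hc
  simp only [fc_eq] at hc
  change cond (Nat.ble (3600 * ((B + 1) * (B + 1))) ((N + (B + 1)) * (216000 - N))) false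
    (cond (cov 24 (lst N (3600 * N) (216000 - N) (N - B) B))
      (cond (cov 20 (lst N (3600 * N) (216000 - N) (N - B) B))
      (cond (cov 18 (lst N (3600 * N) (216000 - N) (N - B) B))
      (cond (cov 15 (lst N (3600 * N) (216000 - N) (N - B) B))
      (cond (cov 10 (lst N (3600 * N) (216000 - N) (N - B) B))
        (cond (srch N E (mk N items) (lst N (3600 * N) (216000 - N) (N - B) B) 60 3599
          (216000 - N) []) false true) true) true) true) true) true) = true at hc
  cases hb : Nat.ble (3600 * ((B + 1) * (B + 1))) ((N + (B + 1)) * (216000 - N))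
  · rw [hb] at hc
    simp only [cond_false] at hc
    have hB : (N + (B + 1)) * (216000 - N) < 3600 * ((B + 1) * (B + 1)) := by
      by_contra hge
      push Not at hge
      rw [Nat.ble_eq_true_of_le hge] at hb
      exact absurd hb (by simp)
    obtain ⟨hG, hC⟩ := lst_good H E hE B hBN B le_rfl
    have hbd := bound H B hB
    have hSt : ∀ θ ∈ S, θ ≠ 0 → θ ∈ St S B := fun θ hθ h0 =>
      Finset.mem_filter.mpr ⟨hθ, h0, hbd θ hθ⟩
    have hcov : ∀ g : ℕ, g ∈ [24, 20, 18, 15, 10] → (∀ k : ℤ, (N : ℤ) ≠ g * k) →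
        cov g (lst N (3600 * N) (216000 - N) (N - B) B) = true := by
      intro g hg hk
      obtain ⟨θ, hθ, k, hd⟩ := H.cov g hg
      have h0 : θ ≠ 0 := by
        intro h0
        rw [h0, sub_zero] at hd
        exact hk k hd
      obtain ⟨t, os, hmem⟩ := hC θ (hSt θ hθ h0)
      refine cov_true g _ _ hmem ?_
      have hlt := H.lt θ hθ
      have : (g : ℤ) ∣ (((N - θ).toNat : ℕ) : ℤ) := by
        rw [Int.toNat_of_nonneg (by omega)]
        exact ⟨k, hd⟩
      exact Int.natCast_dvd_natCast.mp this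
    have hN := H.hN
    rw [hcov 24 (by simp) (by intro k hk; push_cast at hk; omega),
      hcov 20 (by simp) (by intro k hk; push_cast at hk; omega),
      hcov 18 (by simp) (by intro k hk; push_cast at hk; omega),
      hcov 15 (by simp) (by intro k hk; push_cast at hk; omega),
      hcov 10 (by simp) (by intro k hk; push_cast at hk; omega)] at hc
    simp only [cond_true] at hc
    have hI : Inv N S W M (St S B) 60 3599 (216000 - N) [] := by
      by_cases h0 : (0 : ℤ) ∈ S
      · have hSE : St S B = S.erase 0 := by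
          ext θ
          simp only [St, Finset.mem_filter, Finset.mem_erase]
          constructor
          · rintro ⟨h1, h2, _⟩; exact ⟨h2, h1⟩
          · rintro ⟨h1, h2⟩; exact ⟨h2, h1, hbd θ h2⟩
        have h2 := H.eq 0 h0
        have h3 := H.hN1
        simp only [sub_zero, mul_zero, mul_eq_zero] at h2
        have h4 : M 0 = 60 * W 0 := by
          rcases h2 with h2 | h2
          · omega
          · exfalso; omega
        have h5 : Qf W M 0 = 0 := by simp [Qf]
        have hW0 : W0 S W = W 0 := if_pos h0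
        rw [hSE]
        refine ⟨Finset.erase_subset _ _, Finset.notMem_erase _ _, ?_, ?_, ?_, ?_⟩
        · rw [hW0, Finset.sum_erase_add _ _ h0, H.sW]
        · rw [hW0, ← h4, Finset.sum_erase_add _ _ h0, H.sM]
        · have h6 := Finset.sum_erase_add S (Qf W M) h0
          rw [h5, add_zero] at h6
          rw [h6, H.sQf]
        · intro θ h7 h8 h9
          exact absurd (Finset.mem_erase.mpr ⟨h8, h7⟩) h9
      · have hSE : St S B = S := by
          ext θ
          simp only [St, Finset.mem_filter]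
          constructor
          · rintro ⟨h1, _, _⟩; exact h1
          · intro h1; exact ⟨h1, fun h2 => h0 (h2 ▸ h1), hbd θ h1⟩
        have hW0 : W0 S W = 0 := if_neg h0
        rw [hSE]
        refine ⟨subset_rfl, h0, ?_, ?_, ?_, ?_⟩
        · rw [hW0, H.sW]
        · rw [hW0, H.sM]
        · rw [H.sQf]
        · intro θ h7 h8 h9
          exact absurd h7 h9
    rw [hG 60 3599 (216000 - N) [] hI] at hc
    simp at hc
  · rw [hb] at hc
    simp at hc

end

end Num

end MP26f323
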