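import Pool.Agent.Lib.MP_26f323_al.NumC

/-!
MP_26f323_al: module NUM, part D: from NumHyp to the data of the search; the final step for the
three exceptional values of N.
-/

set_option autoImplicit false

namespace MP26f323

namespace Num

/-- moduli -/
def gg : Fin 17 → ℕ := ![1, 15, 10, 20, 5, 24, 2, 18, 5, 1, 2, 4, 5, 1, 3, 2, 1]

theorem gg_tab : ∀ i t : Fin 17, (gg i : ℤ) ∣ B 0 t - B i t := by decide +kernel

theorem tabA : ∀ t : Fin 17, ∑ i, mm i * B i t = if t = 0 then 3600 else 0 := by decide +kernel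

theorem tabB : ∀ s : Fin 17, ∑ i, mm i * B i s * B i 13 = if s = 13 then 1296000 else 0 := by
  decide +kernel

theorem mm_pos : ∀ i : Fin 17, 0 < mm i := by decide

theorem gg_dvd (K : Fin 17 → ℤ) (i : Fin 17) : (gg i : ℤ) ∣ th K 0 - th K i := by
  have h : th K 0 - th K i = ∑ t, (B 0 t - B i t) * K t := by
    unfold th
    rw [← Finset.sum_sub_distrib]
    exact Finset.sum_congr rfl (fun t _ => by ring)
  rw [h]
  exact Finset.dvd_sum (fun t _ => Dvd.dvd.mul_right (gg_tab i t) _)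

theorem sum_mm_th (K : Fin 17 → ℤ) : ∑ i, mm i * th K i = 3600 * K 0 := by
  unfold th
  simp only [Finset.mul_sum]
  rw [Finset.sum_comm]
  have h : ∀ t : Fin 17, ∑ i, mm i * (B i t * K t) = (if t = 0 then 3600 else 0) * K t := by
    intro t
    rw [← tabA t, Finset.sum_mul]
    exact Finset.sum_congr rfl (fun i _ => by ring)
  simp only [h, ite_mul, zero_mul]
  rw [Finset.sum_ite_eq' Finset.univ (0 : Fin 17)]
  simp

theorem sum_mm_th13 (K : Fin 17 → ℤ) : ∑ i, mm i * th K i * B i 13 = 1296000 * K 13 := by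
  unfold th
  have h0 : ∀ i : Fin 17, mm i * (∑ t, B i t * K t) * B i 13 =
      ∑ t, mm i * B i t * B i 13 * K t := by
    intro i
    rw [Finset.mul_sum, Finset.sum_mul]
    exact Finset.sum_congr rfl (fun t _ => by ring)
  simp only [h0]
  rw [Finset.sum_comm]
  have h : ∀ t : Fin 17, ∑ i, mm i * B i t * B i 13 * K t =
      (if t = 13 then 1296000 else 0) * K t := by
    intro t
    rw [← tabB t, Finset.sum_mul]
  simp only [h, ite_mul, zero_mul]
  rw [Finset.sum_ite_eq' Finset.univ (13 : Fin 17)]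
  simp

/-- the distinct non-trivial eigenvalues -/
noncomputable def SS (K : Fin 17 → ℤ) : Finset ℤ :=
  (Finset.univ.filter (fun i : Fin 17 => i ≠ 0)).image (th K)

theorem mem_SS (K : Fin 17 → ℤ) (i : Fin 17) (hi : i ≠ 0) : th K i ∈ SS K :=
  Finset.mem_image.mpr ⟨i, by simpa using hi, rfl⟩

theorem of_SS (K : Fin 17 → ℤ) (θ : ℤ) (h : θ ∈ SS K) : ∃ i : Fin 17, i ≠ 0 ∧ th K i = θ := by
  obtain ⟨i, hi, h⟩ := Finset.mem_image.mp h
  exact ⟨i, by simpa using hi, h⟩

theorem sum_SS (K : Fin 17 → ℤ) (F : ℤ → ℤ) : ∑ θ ∈ SS K, mOf K θ * F θ =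
    ∑ i ∈ Finset.univ.filter (fun i : Fin 17 => i ≠ 0), mm i * F (th K i) := by
  have h1 := Finset.sum_fiberwise_of_maps_to (s := Finset.univ.filter (fun i : Fin 17 => i ≠ 0))
    (t := SS K) (g := th K) (fun i hi => Finset.mem_image_of_mem _ hi)
    (fun i => mm i * F (th K i))
  rw [← h1]
  refine Finset.sum_congr rfl (fun θ _ => ?_)
  rw [mOf, Finset.filter_filter, Finset.sum_mul]
  refine Finset.sum_congr rfl (fun i hi => ?_)
  have := (Finset.mem_filter.mp hi).2.2
  rw [this]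

/-- indices -/
def idx : List (Fin 17) := [1, 2, 3, 4, 5, 6, 7, 8, 9, 10, 11, 12, 13, 14, 15, 16]

theorem items_eq : items = idx.map (fun i => ((mm i).toNat, gg i)) := by decide +kernel

theorem sum_ne_zero (F : Fin 17 → ℤ) : ∑ i ∈ Finset.univ.filter (fun i : Fin 17 => i ≠ 0), F i =
    (idx.map F).sum := by
  have h : Finset.univ.filter (fun i : Fin 17 => i ≠ 0) = idx.toFinset := by decide
  have hn : idx.Nodup := by decide
  rw [h, List.sum_toFinset _ hn]

theorem mOf_list (K : Fin 17 → ℤ) (θ : ℤ) :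
    mOf K θ = ((idx.map fun i => if th K i = θ then (mm i).toNat else 0).sum : ℕ) := by
  rw [mOf, ← Finset.filter_filter, Finset.sum_filter, sum_ne_zero]
  rw [Nat.cast_list_sum, List.map_map]
  congr 1
  apply List.map_congr_left
  intro i _
  simp only [Function.comp]
  split_ifs
  · rw [Int.toNat_of_nonneg (mm_pos i).le]
  · rfl

theorem dat_of {K : Fin 17 → ℤ} {ω : ℤ → ℤ} (H : NumHyp K ω) (N : ℕ) (hN : (N : ℤ) = th K 0) :
    Dat N (SS K) (fun θ => (ω θ).toNat) (fun θ => (mOf K θ).toNat) := by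
  have hm : ∀ θ ∈ SS K, 0 < mOf K θ := by
    intro θ hθ
    obtain ⟨i, hi, h⟩ := of_SS K θ hθ
    refine Finset.sum_pos (fun j _ => mm_pos j) ⟨i, by simp [hi, h]⟩
  have hω : ∀ θ ∈ SS K, 0 < ω θ := by
    intro θ hθ
    obtain ⟨i, hi, h⟩ := of_SS K θ hθ
    rw [← h]; exact H.pos i hi
  have hmc : ∀ θ, (((mOf K θ).toNat : ℕ) : ℤ) = mOf K θ := by
    intro θ
    refine Int.toNat_of_nonneg (Finset.sum_nonneg (fun j _ => (mm_pos j).le))
  have hωc : ∀ θ ∈ SS K, (((ω θ).toNat : ℕ) : ℤ) = ω θ := fun θ hθ =>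
    Int.toNat_of_nonneg (hω θ hθ).le
  have hlt : ∀ θ ∈ SS K, θ < N := by
    intro θ hθ
    obtain ⟨i, hi, h⟩ := of_SS K θ hθ
    rw [hN, ← h]; exact H.lt i hi
  have heq : ∀ θ ∈ SS K, (mOf K θ - 60 * ω θ) * (N - θ) = 3600 * ω θ * θ := by
    intro θ hθ
    obtain ⟨i, hi, h⟩ := of_SS K θ hθ
    have h1 := H.eqn i hi
    rw [h, ← hN] at h1
    linear_combination h1
  have hsW : ∑ θ ∈ SS K, ω θ = 60 := H.tot
  have hsM : ∑ θ ∈ SS K, mOf K θ = 3599 := by
    have h1 := sum_SS K (fun _ => 1)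
    simp only [mul_one] at h1
    rw [h1]
    decide
  have hmt : ∑ θ ∈ SS K, mOf K θ * θ = 212400 - N := by
    rw [sum_SS K (fun θ => θ)]
    have h1 := sum_mm_th K
    rw [H.k0] at h1
    have h2 : ∑ i, mm i * th K i = mm 0 * th K 0 +
        ∑ i ∈ Finset.univ.filter (fun i : Fin 17 => i ≠ 0), mm i * th K i := by
      rw [← Finset.add_sum_erase Finset.univ _ (Finset.mem_univ (0 : Fin 17))]
      congr 1
    have h3 : mm 0 = 1 := rfl
    rw [h1, h3, ← hN] at h2
    linarith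
  have hY : ∑ θ ∈ SS K, (mOf K θ - 60 * ω θ) * θ = 216000 - N := by
    have h1 : ∑ θ ∈ SS K, (mOf K θ - 60 * ω θ) * (N - θ) = 3600 * ∑ θ ∈ SS K, ω θ * θ := by
      rw [Finset.mul_sum]
      exact Finset.sum_congr rfl (fun θ hθ => by rw [heq θ hθ]; ring)
    have h2 : ∑ θ ∈ SS K, (mOf K θ - 60 * ω θ) * (N - θ) =
        (∑ θ ∈ SS K, mOf K θ) * N - 60 * (∑ θ ∈ SS K, ω θ) * N -
          ∑ θ ∈ SS K, (mOf K θ - 60 * ω θ) * θ := by
      rw [Finset.sum_mul, Finset.mul_sum, Finset.sum_mul, ← Finset.sum_sub_distrib,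
        ← Finset.sum_sub_distrib]
      exact Finset.sum_congr rfl (fun θ _ => by ring)
    have h3 : ∑ θ ∈ SS K, (mOf K θ - 60 * ω θ) * θ =
        ∑ θ ∈ SS K, mOf K θ * θ - 60 * ∑ θ ∈ SS K, ω θ * θ := by
      rw [Finset.mul_sum, ← Finset.sum_sub_distrib]
      exact Finset.sum_congr rfl (fun θ _ => by ring)
    rw [hsM, hsW] at h2
    rw [hmt] at h3
    linarith
  refine ⟨?_, ?_, ?_, hlt, ?_, ?_, ?_, ?_, ?_, ?_, ?_, ?_⟩
  · have := H.dvd
    omega
  · have := H.le
    omega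
  · have := H.le'
    omega
  · intro θ hθ
    have := hω θ hθ
    have := hωc θ hθ
    omega
  · intro θ hθ
    have := hm θ hθ
    have := hmc θ
    omega
  · intro θ hθ
    rw [hmc, hωc θ hθ]
    exact heq θ hθ
  · have h1 : ((∑ θ ∈ SS K, (ω θ).toNat : ℕ) : ℤ) = 60 := by
      push_cast
      rw [← hsW]
      exact Finset.sum_congr rfl (fun θ hθ => hωc θ hθ)
    exact_mod_cast h1
  · have h1 : ((∑ θ ∈ SS K, (mOf K θ).toNat : ℕ) : ℤ) = 3599 := by
      push_cast
      rw [← hsM]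
      exact Finset.sum_congr rfl (fun θ _ => hmc θ)
    exact_mod_cast h1
  · rw [← hY]
    exact Finset.sum_congr rfl (fun θ hθ => by rw [hmc, hωc θ hθ])
  · intro θ hθ
    have hD : (((N - θ).toNat : ℕ) : ℤ) = N - θ := Int.toNat_of_nonneg (by
      have := hlt θ hθ; omega)
    have h1 : (mOf K θ).toNat = (idx.map fun i => if th K i = θ then (mm i).toNat else 0).sum := by
      rw [mOf_list K θ, Int.toNat_natCast]
    rw [h1, items_eq]
    refine mk_sound _ (fun i : Fin 17 => ((mm i).toNat, gg i)) (fun i => th K i = θ) idx ?_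
    intro i _ hi
    have h2 := gg_dvd K i
    rw [← hN, hi, ← hD] at h2
    exact Int.natCast_dvd_natCast.mp h2
  · intro g hg
    have h5 : ∀ i : Fin 17, i ≠ 0 → gg i = g → ∃ θ ∈ SS K, (g : ℤ) ∣ N - θ := by
      intro i hi h
      refine ⟨th K i, mem_SS K i hi, ?_⟩
      rw [hN, ← h]
      exact gg_dvd K i
    simp only [List.mem_cons, List.not_mem_nil, or_false] at hg
    rcases hg with h | h | h | h | h
    · exact h5 5 (by decide) (by rw [h]; rfl)
    · exact h5 3 (by decide) (by rw [h]; rfl)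
    · exact h5 7 (by decide) (by rw [h]; rfl)
    · exact h5 1 (by decide) (by rw [h]; rfl)
    · exact h5 2 (by decide) (by rw [h]; rfl)

/-- the last step: distribute the characters to three eigenvalues -/
noncomputable def ph2 (l : List (ℕ × ℕ × ℕ × ℕ)) : ℕ → ℕ → ℕ → ℕ → Bool :=
  List.rec (fun _ _ _ v => Nat.beq (Nat.mod v 1296000) 0)
    (fun p _ ih r1 r2 r3 v =>
      cond (cond (Nat.ble p.1 r1)
        (fc (Nat.sub r1 p.1) fun r => fc (Nat.add v p.2.1) fun v' => ih r r2 r3 v') false) true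
      (cond (cond (Nat.ble p.1 r2)
        (fc (Nat.sub r2 p.1) fun r => fc (Nat.add v p.2.2.1) fun v' => ih r1 r r3 v') false) true
      (cond (Nat.ble p.1 r3)
        (fc (Nat.sub r3 p.1) fun r => fc (Nat.add v p.2.2.2) fun v' => ih r1 r2 r v') false))) l

theorem ph2_nil (r1 r2 r3 v : ℕ) : ph2 [] r1 r2 r3 v = Nat.beq (v % 1296000) 0 := rfl

theorem ph2_cons (p : ℕ × ℕ × ℕ × ℕ) (l : List (ℕ × ℕ × ℕ × ℕ)) (r1 r2 r3 v : ℕ) :
    ph2 (p :: l) r1 r2 r3 v =
      ((decide (p.1 ≤ r1) && ph2 l (r1 - p.1) r2 r3 (v + p.2.1)) ||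
      ((decide (p.1 ≤ r2) && ph2 l r1 (r2 - p.1) r3 (v + p.2.2.1)) ||
      (decide (p.1 ≤ r3) && ph2 l r1 r2 (r3 - p.1) (v + p.2.2.2)))) := by
  have e : ph2 (p :: l) r1 r2 r3 v = cond (cond (Nat.ble p.1 r1)
        (fc (Nat.sub r1 p.1) fun r => fc (Nat.add v p.2.1) fun v' => ph2 l r r2 r3 v') false) true
      (cond (cond (Nat.ble p.1 r2)
        (fc (Nat.sub r2 p.1) fun r => fc (Nat.add v p.2.2.1) fun v' => ph2 l r1 r r3 v') false) true
      (cond (Nat.ble p.1 r3)
        (fc (Nat.sub r3 p.1) fun r => fc (Nat.add v p.2.2.2) fun v' => ph2 l r1 r2 r v')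
        false)) := rfl
  rw [e]
  simp only [fc_eq]
  have h : ∀ a b : ℕ, Nat.ble a b = decide (a ≤ b) := by
    intro a b
    by_cases hab : a ≤ b
    · rw [Nat.ble_eq_true_of_le hab]; simp [hab]
    · cases hb : Nat.ble a b
      · simp [hab]
      · exact absurd (Nat.le_of_ble_eq_true hb) hab
  rw [h, h, h]
  change cond (cond (decide (p.1 ≤ r1)) (ph2 l (r1 - p.1) r2 r3 (v + p.2.1)) false) true
    (cond (cond (decide (p.1 ≤ r2)) (ph2 l r1 (r2 - p.1) r3 (v + p.2.2.1)) false) true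
    (cond (decide (p.1 ≤ r3)) (ph2 l r1 r2 (r3 - p.1) (v + p.2.2.2)) false)) = _
  cases decide (p.1 ≤ r1) <;> cases decide (p.1 ≤ r2) <;> cases decide (p.1 ≤ r3) <;>
    simp

/-- constants -/
def cst (θ : ℤ) (i : Fin 17) : ℕ := ((mm i * θ * B i 13) % 1296000).toNat

theorem ph2_sound (θ1 θ2 θ3 : ℤ) (t : Fin 17 → ℤ) (l : List (Fin 17))
    (ht : ∀ i ∈ l, t i = θ1 ∨ t i = θ2 ∨ t i = θ3) (hne : θ1 ≠ θ2 ∧ θ1 ≠ θ3 ∧ θ2 ≠ θ3)
    (r1 r2 r3 v : ℕ)
    (h1 : (l.map fun i => if t i = θ1 then (mm i).toNat else 0).sum ≤ r1)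
    (h2 : (l.map fun i => if t i = θ2 then (mm i).toNat else 0).sum ≤ r2)
    (h3 : (l.map fun i => if t i = θ3 then (mm i).toNat else 0).sum ≤ r3)
    (hv : ((v : ℤ) + (l.map fun i => mm i * t i * B i 13).sum) % 1296000 = 0) :
    ph2 (l.map fun i => ((mm i).toNat, cst θ1 i, cst θ2 i, cst θ3 i)) r1 r2 r3 v = true := by
  induction l generalizing r1 r2 r3 v with
  | nil =>
    simp only [List.map_nil, List.sum_nil, add_zero] at hv
    rw [List.map_nil, ph2_nil]
    have : v % 1296000 = 0 := by omega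
    rw [this]
    rfl
  | cons a l ih =>
    simp only [List.map_cons, List.sum_cons] at h1 h2 h3 hv
    rw [List.map_cons, ph2_cons]
    have ih' := ih (fun i hi => ht i (List.mem_cons_of_mem _ hi))
    have hc : ∀ θ : ℤ, ((cst θ a : ℕ) : ℤ) = (mm a * θ * B a 13) % 1296000 := by
      intro θ
      unfold cst
      exact Int.toNat_of_nonneg (Int.emod_nonneg _ (by norm_num))
    have c1 := hc θ1
    have c2 := hc θ2
    have c3 := hc θ3
    simp only [Bool.or_eq_true, Bool.and_eq_true, decide_eq_true_eq]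
    rcases ht a List.mem_cons_self with h | h | h
    · left
      rw [h, if_pos rfl] at h1
      rw [h, if_neg hne.1] at h2
      rw [h, if_neg hne.2.1] at h3
      rw [h] at hv
      exact ⟨by omega, ih' _ _ _ _ (by omega) (by omega) (by omega) (by push_cast; omega)⟩
    · right; left
      rw [h, if_neg hne.1.symm] at h1
      rw [h, if_pos rfl] at h2
      rw [h, if_neg hne.2.2] at h3
      rw [h] at hv
      exact ⟨by omega, ih' _ _ _ _ (by omega) (by omega) (by omega) (by push_cast; omega)⟩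
    · right; right
      rw [h, if_neg hne.2.1.symm] at h1
      rw [h, if_neg hne.2.2.symm] at h2
      rw [h, if_pos rfl] at h3
      rw [h] at hv
      exact ⟨by omega, ih' _ _ _ _ (by omega) (by omega) (by omega) (by push_cast; omega)⟩

/-- indices in descending order -/
def xdi : List (Fin 17) := [16, 15, 14, 13, 12, 11, 10, 9, 8, 7, 6, 5, 4, 3, 2, 1]

/-- elimination of one exceptional value -/
theorem excep {K : Fin 17 → ℤ} {ω : ℤ → ℤ} (H : NumHyp K ω) (N : ℕ) (hN : (N : ℤ) = th K 0)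
    (BB r1 r2 r3 : ℕ) (θ1 θ2 θ3 : ℤ) (D1 D2 D3 : ℕ) (hBB : BB < N)
    (e1 : (D1 : ℤ) = N - θ1) (e2 : (D2 : ℤ) = N - θ2) (e3 : (D3 : ℤ) = N - θ3)
    (hne : θ1 ≠ θ2 ∧ θ1 ≠ θ3 ∧ θ2 ≠ θ3)
    (hc : chk [(D1, r1), (D2, r2), (D3, r3)] BB N = true)
    (hp : ph2 (xdi.map fun i => ((mm i).toNat, cst θ1 i, cst θ2 i, cst θ3 i)) r1 r2 r3
      (360 * N) = false) : False := by
  have hD := dat_of H N hN
  have hs := chk_sound hD _ BB hBB hc
  have hall : ∀ i : Fin 17, i ≠ 0 → (th K i = θ1 ∧ (mOf K θ1).toNat = r1) ∨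
      (th K i = θ2 ∧ (mOf K θ2).toNat = r2) ∨ (th K i = θ3 ∧ (mOf K θ3).toNat = r3) := by
    intro i hi
    have h1 := hs (th K i) (mem_SS K i hi)
    have h2 := hD.lt (th K i) (mem_SS K i hi)
    simp only [List.mem_cons, List.not_mem_nil, or_false, Prod.mk.injEq] at h1
    rcases h1 with ⟨h3, h4⟩ | ⟨h3, h4⟩ | ⟨h3, h4⟩
    · have h5 : th K i = θ1 := by omega
      left; exact ⟨h5, by rw [← h5]; exact h4⟩
    · have h5 : th K i = θ2 := by omega
      right; left; exact ⟨h5, by rw [← h5]; exact h4⟩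
    · have h5 : th K i = θ3 := by omega
      right; right; exact ⟨h5, by rw [← h5]; exact h4⟩
  have hperm : ∀ F : Fin 17 → ℕ, (xdi.map F).sum = (idx.map F).sum := by
    intro F
    simp only [xdi, idx, List.map_cons, List.map_nil, List.sum_cons, List.sum_nil]
    ring
  have hle : ∀ (θ : ℤ) (r : ℕ), (∀ i : Fin 17, i ≠ 0 → th K i = θ → (mOf K θ).toNat = r) →
      (xdi.map fun i => if th K i = θ then (mm i).toNat else 0).sum ≤ r := by
    intro θ r hr
    rw [hperm]
    have h1 : (mOf K θ).toNat = (idx.map fun i => if th K i = θ then (mm i).toNat else 0).sum := by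
      rw [mOf_list K θ, Int.toNat_natCast]
    rw [← h1]
    by_cases hex : ∃ i : Fin 17, i ≠ 0 ∧ th K i = θ
    · obtain ⟨i, hi, h⟩ := hex
      exact (hr i hi h).le
    · have : mOf K θ = 0 := by
        unfold mOf
        apply Finset.sum_eq_zero
        intro i hi
        exact absurd ⟨i, (Finset.mem_filter.mp hi).2.1, (Finset.mem_filter.mp hi).2.2⟩ hex
      rw [this]
      exact Nat.zero_le _
  have hmem : ∀ i ∈ xdi, i ≠ 0 := by decide
  have hfin := ph2_sound θ1 θ2 θ3 (th K) xdi ?_ hne r1 r2 r3 (360 * N)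
    (hle θ1 r1 ?_) (hle θ2 r2 ?_) (hle θ3 r3 ?_) ?_
  · rw [hp] at hfin
    exact absurd hfin (by simp)
  · intro i hi
    rcases hall i (hmem i hi) with h | h | h
    · exact Or.inl h.1
    · exact Or.inr (Or.inl h.1)
    · exact Or.inr (Or.inr h.1)
  · intro i hi h
    rcases hall i hi with h' | h' | h'
    · exact h'.2
    · exact absurd (h.symm.trans h'.1) hne.1
    · exact absurd (h.symm.trans h'.1) hne.2.1
  · intro i hi h
    rcases hall i hi with h' | h' | h'
    · exact absurd (h'.1.symm.trans h) hne.1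
    · exact h'.2
    · exact absurd (h.symm.trans h'.1) hne.2.2
  · intro i hi h
    rcases hall i hi with h' | h' | h'
    · exact absurd (h'.1.symm.trans h) hne.2.1
    · exact absurd (h'.1.symm.trans h) hne.2.2
    · exact h'.2
  · have h1 := sum_mm_th13 K
    have h2 : ∑ i, mm i * th K i * B i 13 = mm 0 * th K 0 * B 0 13 +
        (xdi.map fun i => mm i * th K i * B i 13).sum := by
      simp only [Fin.sum_univ_succ, xdi, List.map_cons, List.map_nil, List.sum_cons,
        List.sum_nil]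
      simp only [Fin.succ_zero_eq_one, Fin.sum_univ_zero, Fin.reduceSucc]
      ring
    have h3 : mm 0 = 1 := rfl
    have h4 : B 0 13 = 360 := rfl
    rw [h1, h3, h4, ← hN] at h2
    push_cast
    omega

end Num

end MP26f323
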