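import Pool.Agent.Lib.MP_26f323_al.NumA

/-!
MP_26f323_al: module NUM, part E1: kernel computations.
-/

set_option autoImplicit false
set_option maxRecDepth 100000

namespace MP26f323

namespace Num

theorem c50 : loop 829 50 45 = true := by decide +kernel

theorem c95 : loop 989 95 45 = true := by decide +kernel

theorem c140 : loop 1117 140 45 = true := by decide +kernel

theorem c185 : loop 1226 185 45 = true := by decide +kernel

theorem c230 : loop 1318 230 45 = true := by decide +kernel

theorem c275 : loop 1399 275 45 = true := by decide +kernel

theorem c320 : loop 1465 320 42 = true := by decide +kernel

theorem c363 : loop 1521 363 39 = true := by decide +kernel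

theorem c402 : loop 1569 402 39 = true := by decide +kernel

theorem c441 : loop 1613 441 39 = true := by decide +kernel

end Num

end MP26f323
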