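import Pool.Agent.Lib.MP_26f323_al.Dbt

/-!
MP_26f323_al: evaluation of the certificate, steps 1 to 270.
-/

set_option autoImplicit false
set_option maxRecDepth 100000

namespace MP26f323

namespace Chk

theorem run_1 : chunk dat db rc 1 46 = true := by decide +kernel

theorem run_47 : chunk dat db rc 47 46 = true := by decide +kernel

theorem run_93 : chunk dat db rc 93 46 = true := by decide +kernel

theorem run_139 : chunk dat db rc 139 46 = true := by decide +kernel

theorem run_185 : chunk dat db rc 185 46 = true := by decide +kernel

theorem run_231 : chunk dat db rc 231 40 = true := by decide +kernel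

theorem runs_0 : ∀ n, 1 ≤ n → n < 271 → step dat db rc n = true := by
  intro n h1 h2
  rcases lt_or_ge n 47 with h | h
  · exact of_chunk run_1 n (by omega) (by omega)
  rcases lt_or_ge n 93 with h | h
  · exact of_chunk run_47 n (by omega) (by omega)
  rcases lt_or_ge n 139 with h | h
  · exact of_chunk run_93 n (by omega) (by omega)
  rcases lt_or_ge n 185 with h | h
  · exact of_chunk run_139 n (by omega) (by omega)
  rcases lt_or_ge n 231 with h | h
  · exact of_chunk run_185 n (by omega) (by omega)
  exact of_chunk run_231 n (by omega) (by omega)

end Chk

end MP26f323
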