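import Pool.Agent.Lib.MP_26f323_al.Run10

/-!
MP_26f323_al: evaluation of the certificate, steps 3523 to 3793.
-/

set_option autoImplicit false
set_option maxRecDepth 100000

namespace MP26f323

namespace Chk

theorem run_3523 : chunk dat db rc 3523 46 = true := by decide +kernel

theorem run_3569 : chunk dat db rc 3569 46 = true := by decide +kernel

theorem run_3615 : chunk dat db rc 3615 46 = true := by decide +kernel

theorem run_3661 : chunk dat db rc 3661 46 = true := by decide +kernel

theorem run_3707 : chunk dat db rc 3707 46 = true := by decide +kernel

theorem run_3753 : chunk dat db rc 3753 41 = true := by decide +kernel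

theorem runs_13 : ∀ n, 3523 ≤ n → n < 3794 → step dat db rc n = true := by
  intro n h1 h2
  rcases lt_or_ge n 3569 with h | h
  · exact of_chunk run_3523 n (by omega) (by omega)
  rcases lt_or_ge n 3615 with h | h
  · exact of_chunk run_3569 n (by omega) (by omega)
  rcases lt_or_ge n 3661 with h | h
  · exact of_chunk run_3615 n (by omega) (by omega)
  rcases lt_or_ge n 3707 with h | h
  · exact of_chunk run_3661 n (by omega) (by omega)
  rcases lt_or_ge n 3753 with h | h
  · exact of_chunk run_3707 n (by omega) (by omega)
  exact of_chunk run_3753 n (by omega) (by omega)

end Chk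

end MP26f323
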