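import Pool.Agent.Lib.MP_26f323_al.Defs

/-!
MP_26f323_al: exact statements of the modules.
-/

set_option autoImplicit false
set_option linter.constructorNameAsVariable false

namespace MP26f323

open Equiv Polynomial

/-- Main theorem: D(A5,4) is AS-free, in terms of f -/
def SpecMain : Prop := ∀ f : Gam → ℕ, Col f → ∀ x y : Gam, x ≠ 1 → y ≠ 1 → f x = f y

/-- the frozen statement S00989 -/
def Frozen : Prop :=
  ∃ (Ω : Type) (_ : Finite Ω) (G : Subgroup (Equiv.Perm Ω)),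
    MulAction.IsPreprimitive G Ω ∧
    (∃ (T : Type) (_ : Group T) (_ : Finite T), IsSimpleGroup T ∧
      (¬ ∀ a b : T, a * b = b * a) ∧
      ∃ k : ℕ, 2 ≤ k ∧ ∃ N : Subgroup (Equiv.Perm Ω), N ≤ G ∧
        (∀ g ∈ G, ∀ n ∈ N, g * n * g⁻¹ ∈ N) ∧
        Nonempty (N ≃* (Fin k → T)) ∧
        ∃ α : Ω, Nonempty
          ((MulAction.stabilizer (Equiv.Perm Ω) α ⊓ N : Subgroup (Equiv.Perm Ω)) ≃* T)) ∧
    ∀ c : Ω → Ω → ℕ,
      (∀ x y, c x y = 0 ↔ x = y) →
      (∀ x y, c x y = c y x) →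
      (∀ (i j : ℕ) (x y x' y' : Ω), c x y = c x' y' →
        Set.ncard {z : Ω | c x z = i ∧ c z y = j} =
          Set.ncard {z : Ω | c x' z = i ∧ c z y' = j}) →
      (∀ g ∈ G, ∀ x y, c (g x) (g y) = c x y) →
      ∀ x y x' y' : Ω, x ≠ y → x' ≠ y' → c x y = c x' y'

/-- module GRP: from the main theorem to the frozen statement -/
def SpecGrp : Prop := SpecMain → Frozen

/-- module LOC (computer assisted): the congruence step -/
def SpecLoc : Prop := ∀ f : Gam → ℕ, Col f → ∃ s s' : ℕ, Loc f s s'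

/-- module NUM: the numerical elimination -/
def SpecNum : Prop := ∀ (K : Fin 17 → ℤ) (ω : ℤ → ℤ), NumHyp K ω → th K 0 = 215999

/-- module EXA (put together from ZON, KVEC, EIG, ALG, MIN, RANK): the exact step -/
def SpecExa : Prop := ∀ (f : Gam → ℕ) (s s' : ℕ), Col f → Loc f s s' →
  ∃ (K : Fin 17 → ℤ) (ω : ℤ → ℤ), NumHyp K ω ∧ th K 0 = (nOf f s : ℤ)

/-- module ZON: the zonal algebra of D(A5,3) on A5^2 -/
def SpecZon : Prop := ∃ typ : A → A → Fin 17, Zon typ

/-- module KVEC: the distribution vector of a colour -/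
def SpecKVec : Prop := ∀ typ : A → A → Fin 17, Zon typ → ∀ (f : Gam → ℕ) (s : ℕ), Col f →
  ∃ κ : Fin 17 → ℕ, KVec f s typ κ ∧ (th (fun t => (κ t : ℤ)) 0 = (nOf f s : ℤ)) ∧
    (∀ s', Loc f s s' → κ 0 = 59 ∧
      ∀ i, i ≠ 0 → th (fun t => (κ t : ℤ)) i < th (fun t => (κ t : ℤ)) 0)

/-- module EIG: the zonal vectors are eigenvectors of every adjacency matrix -/
def SpecEig : Prop := ∀ typ : A → A → Fin 17, Zon typ → ∀ (f : Gam → ℕ) (s : ℕ), Col f →
  ∀ κ : Fin 17 → ℕ, KVec f s typ κ →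
  (∀ i, (Aop f s).mulVec (vec typ i) = ((th (fun t => (κ t : ℤ)) i : ℤ) : ℚ) • vec typ i) ∧
  (∀ x : Gam, ∑ i, ((mm i : ℚ) / 3600) * vec typ i x = if x.2.1 = 1 ∧ x.2.2 = 1 then 1 else 0)

/-- module ALG: the span of the colours is a commutative algebra of symmetric matrices -/
def SpecAlg : Prop := ∀ f : Gam → ℕ, Col f →
  (∀ s, ∃ φ, IsCol f (Aop f s) φ) ∧
  (∀ (M : Matrix Gam Gam ℚ) (φ : ℕ → ℚ), IsCol f M φ → M.transpose = M) ∧
  (∀ (M M' : Matrix Gam Gam ℚ) (φ φ' : ℕ → ℚ), IsCol f M φ → IsCol f M' φ' →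
    M * M' = M' * M ∧ ∃ φ'', IsCol f (M * M') φ'') ∧
  (∀ (s : ℕ) (p : ℚ[X]), ∃ φ, IsCol f (aeval (Aop f s) p) φ)

/-- module MIN: the big colour has only the 17 zonal eigenvalues -/
def SpecMin : Prop := ∀ typ : A → A → Fin 17, Zon typ → ∀ (f : Gam → ℕ) (s s' : ℕ), Col f →
  Loc f s s' → ∀ κ : Fin 17 → ℕ, KVec f s typ κ →
  ∀ q : ℚ[X], (∀ i, q.eval ((th (fun t => (κ t : ℤ)) i : ℤ) : ℚ) = 0) → aeval (Aop f s) q = 0

/-- module RANK: divisibility of the multiplicities of an idempotent of the scheme algebra -/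
def SpecRank : Prop := ∀ (f : Gam → ℕ) (s s' : ℕ), Col f → Loc f s s' →
  ∀ (E : Matrix Gam Gam ℚ) (φ : ℕ → ℚ), E * E = E → IsCol f E φ →
  ∀ m : ℤ, 216000 * φ 0 + 59 * (216000 * φ s) = 60 * (m : ℚ) →
  ∃ ω : ℤ, 216000 * φ 0 = (m : ℚ) + 3540 * (ω : ℚ) ∧ 216000 * φ s = (m : ℚ) - 60 * (ω : ℚ)

/-- final assembly -/
theorem main_of (hL : SpecLoc) (hE : SpecExa) (hN : SpecNum) : SpecMain := by
  intro f hf x y hx hy
  obtain ⟨s, s', h⟩ := hL f hf
  obtain ⟨K, ω, hK, hn⟩ := hE f s s' hf h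
  have h1 := hN K ω hK
  have hcard : nOf f s = 215999 := by
    have : (nOf f s : ℤ) = 215999 := by rw [← hn, h1]
    exact_mod_cast this
  have hs0 : s ≠ 0 := by
    intro h0
    have h2 := h.one c3 (by decide)
    rw [h0, hf.zero] at h2
    have h3 : c3 = 1 := by
      have := congrArg Prod.fst h2
      simpa using this
    exact absurd h3 (by decide)
  have key : ∀ z : Gam, z ≠ 1 → f z = s := by
    intro z hz
    by_contra hne
    have hsub : Finset.univ.filter (fun x : Gam => f x = s) ⊆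
        (Finset.univ.erase (1 : Gam)).erase z := by
      intro w hw
      simp only [Finset.mem_filter, Finset.mem_univ, true_and] at hw
      simp only [Finset.mem_erase, Finset.mem_univ, and_true]
      refine ⟨?_, ?_⟩
      · rintro rfl; exact hne hw
      · rintro rfl
        exact hs0 (by rw [← hw]; exact (hf.zero 1).2 rfl)
    have hc := Finset.card_le_card hsub
    rw [Finset.card_erase_of_mem (by simp [hz]), Finset.card_erase_of_mem (by simp)] at hc
    have hA : Fintype.card A = 60 := by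
      have h2 := two_mul_card_alternatingGroup (α := Fin 5)
      have h3 : Fintype.card (Perm (Fin 5)) = 120 := by
        rw [Fintype.card_perm]; decide
      have h4 : 2 * Fintype.card A = 120 := by
        rw [← h3, ← h2]
      omega
    have hG : (Finset.univ : Finset Gam).card = 216000 := by
      rw [Finset.card_univ, Fintype.card_prod, Fintype.card_prod, hA]
    rw [hG] at hc
    change nOf f s ≤ _ at hc
    omega
  rw [key x hx, key y hy]

end MP26f323
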