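import Pool.Agent.Lib.MP_26f323_al.Spec
import Pool.Agent.Lib.MP_26f323_al.ClsTab
import Pool.Agent.Lib.MP_26f323_al.ZonA

/-!
MP_26f323_al: index model, classes, intersection tables; exact statements of the modules
CLS, TAB, L2L.
-/

set_option autoImplicit false

namespace MP26f323

open Equiv ZonM

namespace ClsM

/-- entry number n of a list -/
def nthL {α : Type} (d : α) (l : List α) : ℕ → α :=
  List.rec (fun _ => d) (fun a _ ih n => Nat.rec a (fun m _ => ih m) n) l

/-- type of the element with index w -/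
def tyF (w : ℕ) : ℕ := lk 2 tabTy w

/-- canonical element of type t -/
def rhoF (t : ℕ) : ℕ := lk 6 tabRho t

/-- conjugation by the m-th element of S5, packed -/
def cjF (m : ℕ) : ℕ := nthL 0 cjT m

/-- conjugation by the m-th element of S5 on indices -/
def cj1 (m c : ℕ) : ℕ := lk 8 (cjF m) c

/-- number of the element of S5 taking w to the canonical element of its type -/
def tauF (w : ℕ) : ℕ := lk 7 tabTau w

/-- packed row (t,b) of the class table -/
def ttF (t b : ℕ) : ℕ := nthL 0 (nthL [] ttT t) b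

/-- class of the point with indices a, b, c -/
def clsI (a b c : ℕ) : ℕ := lk 16 (ttF (tyF a) (cj1 (tauF a) b)) (cj1 (tauF a) c)

/-- representative of the class k, first index -/
def repA (k : ℕ) : ℕ := Nat.div (lk 18 tabRep k) 3600

/-- representative of the class k, second index -/
def repB (k : ℕ) : ℕ := Nat.mod (Nat.div (lk 18 tabRep k) 60) 60

/-- representative of the class k, third index -/
def repC (k : ℕ) : ℕ := Nat.mod (lk 18 tabRep k) 60

/-- number of points of the class k -/
def sizeF (k : ℕ) : ℕ := lk 13 tabSize k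

end ClsM

open ClsM

/-- the point with indices a, b, c -/
def pt (a b c : ℕ) : Gam := (el a, el b, el c)

/-- representative of the class k -/
def rep (k : ℕ) : Gam := pt (repA k) (repB k) (repC k)

/-- class of a point -/
def cls (x : Gam) : ℕ := clsI (ix x.1) (ix x.2.1) (ix x.2.2)

/-- colour of the class k -/
def FC (f : Gam → ℕ) (k : ℕ) : ℕ := f (rep k)

/-- module CLS -/
structure SpecCls : Prop where
  lt : ∀ x, cls x < 111
  zero : ∀ x, cls x = 0 ↔ x = 1
  const : ∀ f : Gam → ℕ, Col f → ∀ x, f x = FC f (cls x)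
  clsrep : ∀ k, k < 111 → cls (rep k) = k
  size : ∀ k, k < 111 → (Finset.univ.filter (fun x : Gam => cls x = k)).card = sizeF k

/-- the classes which are shown to lie in one colour -/
def S0 : List ℕ := [1, 2, 3, 4, 5, 7, 8, 16, 17, 18, 19, 23, 24, 25, 26, 28, 29, 67, 77]

/-- the outcome of the congruence certificate -/
def Core (f : Gam → ℕ) : Prop := (∀ k ∈ S0, FC f k = FC f 16) ∧ FC f 10 = FC f 27

/-- module L2L -/
def SpecL2L : Prop := SpecCls → ∀ f : Gam → ℕ, Col f → Core f → ∃ s s' : ℕ, Loc f s s'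

/-- number of z with f(z) = s and f(z^-1 x) = t -/
def cnt (f : Gam → ℕ) (s t : ℕ) (x : Gam) : ℕ :=
  (Finset.univ.filter (fun z : Gam => f z = s ∧ f (z⁻¹ * x) = t)).card

/-- the symmetrized monomial -/
def mono (F : ℕ → ℕ) (s t i j : ℕ) : ℕ :=
  (if F i = s ∧ F j = t then 1 else 0) + (if F i = t ∧ F j = s then 1 else 0)

/-- L is the symmetrized intersection table of the representative of the class k:
row number j (0 ≤ j < 110) holds, for 0 ≤ i ≤ j, in 32 bits the number of z with
{cls z, cls (z^-1 r)} = {i+1, j+1} -/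
def TabOK (k : ℕ) (L : List ℕ) : Prop :=
  ∀ f : Gam → ℕ, Col f → ∀ s t : ℕ, s ≠ 0 → t ≠ 0 →
    cnt f s t (rep k) + cnt f t s (rep k) =
      ∑ j ∈ Finset.range 110, ∑ i ∈ Finset.range (j + 1),
        lk 32 (nthL 0 L j) i * mono (FC f) s t (i + 1) (j + 1)

/-- ordered version for the three non-self-paired classes: LU holds the number of z with
cls z = i+1, cls (z^-1 r) = j+1 (i ≤ j), LD the number of z with cls z = j+1, cls (z^-1 r) = i+1
(i < j; 0 for i = j) -/
def TabOK2 (k : ℕ) (LU LD : List ℕ) : Prop :=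
  ∀ f : Gam → ℕ, Col f → ∀ s t : ℕ, s ≠ 0 → t ≠ 0 →
    cnt f s t (rep k) =
      ∑ j ∈ Finset.range 110, ∑ i ∈ Finset.range (j + 1),
        (lk 32 (nthL 0 LU j) i * (if FC f (i + 1) = s ∧ FC f (j + 1) = t then 1 else 0) +
         lk 32 (nthL 0 LD j) i * (if FC f (i + 1) = t ∧ FC f (j + 1) = s then 1 else 0))

end MP26f323
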