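import Pool.Agent.Lib.MP_26f323_al.Chk

/-!
MP_26f323_al: semantics of the certificate checker and exact statements of the soundness modules
LANE, REP, RES, SSS, BBB.
-/

set_option autoImplicit false

namespace MP26f323

open ZonM ClsM

namespace Chk

/-- meaning of a clause -/
def Holds (F : ℕ → ℕ) (C : ℕ) : Prop :=
  ∃ a b : ℕ, 1 ≤ a ∧ a < b ∧
    ((C.testBit (2 * pos a b) = true ∧ F a = F b) ∨
      (C.testBit (2 * pos a b + 1) = true ∧ F a ≠ F b))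

/-- the linear functional with weight w of a packed table -/
def Lin (N : ℕ) (w : ℕ → ℕ → ℕ) : ℕ :=
  (∑ j ∈ Finset.range 77, ∑ i ∈ Finset.range (j + 1),
      lane 32 N (pos (i + 1) (j + 1)) * w (i + 1) (j + 1)) +
    ∑ r ∈ Finset.range 33, lane 32 N (3003 + r) * w (78 + r) (78 + r)

/-- ordered weight -/
def ow (F : ℕ → ℕ) (s t i j : ℕ) : ℕ := if F i = s ∧ F j = t then 1 else 0

/-- what the tables of the checker satisfy, F = colour of the class -/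
structure DatOK (F : ℕ → ℕ) (d : Dat) : Prop where
  nz : ∀ i, 1 ≤ i → i < 111 → F i ≠ 0
  rng : ∀ k, 0 < d.st k → 1 ≤ k ∧ k ≤ 77
  half : ∃ P : ℕ → ℕ → ℕ, ∀ k, 0 < d.st k → ∀ s, s ≠ 0 →
    ∃ x, P (F k) s = Lin (d.G k) (ow F s s) + d.st k * x
  full : ∃ P : ℕ → ℕ → ℕ → ℕ, ∀ k, 0 < d.st k → ∀ s t, s ≠ 0 → t ≠ 0 →
    ∃ x, P (F k) s t = Lin (d.G k) (mono F s t) + d.st k * x
  dbl : ∀ k, 0 < d.st k → ∀ w w' : ℕ → ℕ → ℕ, (∀ i j, i ≠ j → w i j = w' i j) →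
    (∀ i, w i i = 2 * w' i i) → Lin (d.G k) w = Lin (d.G2 k) w'
  anti : ∀ k, 0 < d.stT k → ∀ s t, s ≠ 0 → t ≠ 0 → ∃ x y,
    Lin (d.U k) (ow F s t) + Lin (d.D k) (ow F t s) + d.stT k * x =
      Lin (d.U k) (ow F t s) + Lin (d.D k) (ow F s t) + d.stT k * y
  small : ∀ k p, lane 32 (d.G k) p < 32768 ∧ lane 32 (d.G2 k) p < 32768 ∧
    lane 32 (d.U k) p < 32768 ∧ lane 32 (d.D k) p < 32768

/-- module LANE -/
structure SpecLane : Prop where
  pos_inj : ∀ i j i' j', 1 ≤ i → i ≤ j → 1 ≤ i' → i' ≤ j' → pos i j = pos i' j' → i = i' ∧ j = j'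
  pos_lt : ∀ i j, 1 ≤ i → i ≤ j → (pos i j < 3003 ↔ j ≤ 77)
  lt : ∀ x p, lane 32 x p < 2 ^ 32
  add : ∀ x y p, (∀ q, q ≤ p → lane 32 x q + lane 32 y q < 2 ^ 32) →
    lane 32 (x + y) p = lane 32 x p + lane 32 y p
  mul : ∀ c x p, (∀ q, q ≤ p → c * lane 32 x q < 2 ^ 32) → lane 32 (c * x) p = c * lane 32 x p
  single : ∀ v p q, v < 2 ^ 32 → lane 32 (Nat.shiftLeft v (Nat.mul 32 p)) q = if q = p then v else 0
  zero : ∀ p, lane 32 0 p = 0
  big : ∀ S v i j, 1 ≤ i → i ≤ j → 0 < v → Nat.add S (Nat.shiftLeft v (Nat.mul 32 (pos i j))) < BIG →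
    j ≤ 77
  lin_zero : ∀ w, Lin 0 w = 0
  lin_w : ∀ N w w', Lin N (fun i j => w i j + w' i j) = Lin N w + Lin N w'
  lin_add : ∀ x y w, (∀ p, p < 3036 → lane 32 x p + lane 32 y p < 2 ^ 32) →
    Lin (x + y) w = Lin x w + Lin y w
  lin_mul : ∀ c x w, (∀ p, p < 3036 → c * lane 32 x p < 2 ^ 32) → Lin (c * x) w = c * Lin x w
  lin_single : ∀ v i j w, v < 2 ^ 32 → 1 ≤ i → i ≤ j → j ≤ 77 →
    Lin (Nat.shiftLeft v (Nat.mul 32 (pos i j))) w = v * w i j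
  lin_msk : ∀ e N w, e ≤ 31 → Lin (Nat.land N (msk (2 ^ e))) w ≡ Lin N w [MOD 2 ^ e]
  lin_kill : ∀ (xs : List ℕ) (L : ℕ) (w : ℕ → ℕ → ℕ), L < BIG → (∀ x, x ∈ xs → 1 ≤ x) →
    (∀ i j, 1 ≤ i → i ≤ j → j ≤ 77 → (i ∈ xs ∨ j ∈ xs) → w i j = 0) →
    Lin (Nat.land L (Nat.xor ALL (xs.foldl (fun K x => Nat.lor K (kmask PAT x)) 0))) w = Lin L w
  lin_off : ∀ (A : ℕ) (w w' : ℕ → ℕ → ℕ), A < BIG → (∀ i, w' i i = 0) →
    (∀ i j, i ≠ j → w i j = w' i j) → Lin (Nat.land A OFF) w = Lin A w'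
  lin_divs : ∀ N S M w, 0 < M → M < 256 → (∀ p, p < 3036 → lane 32 S p < 262144) →
    divs N S M = true → Lin N w ≡ Lin S w [MOD M]

/-- colour of a lane value; s = colour of the base -/
def Ft (F : ℕ → ℕ) (s x : ℕ) : ℕ := if x = 0 then s else F x

/-- T is a correct table of representatives -/
def TOK (F : ℕ → ℕ) (s T : ℕ) : Prop := ∀ i, 1 ≤ i → i ≤ 77 → F i = Ft F s (l8 T i)

/-- module REP -/
structure SpecRep : Prop where
  edges : ∀ (F : ℕ → ℕ) (C T : ℕ) (k : ℕ → ℕ → Bool) (h σ : ℕ), C < CBIG → ¬ Holds F C →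
    edges C k h σ T = true → ∃ σ' T', k σ' T' = true ∧ ∀ s, TOK F s T → TOK F s T'
  nes : ∀ (F : ℕ → ℕ) (s C T x : ℕ) (k : ℕ → ℕ → Bool) (h σ X : ℕ), C < CBIG → ¬ Holds F C →
    TOK F s T → Ft F s x = s → (∀ t, X.testBit t = true → Ft F s t ≠ s) →
    nes C T x k h σ X = true →
    ∃ σ' X', k σ' X' = true ∧ ∀ t, X'.testBit t = true → Ft F s t ≠ s
  init : ∀ F s, TOK F s T0
  initb : ∀ (F : ℕ → ℕ) (b : ℕ), 1 ≤ b → b ≤ 77 →
    TOK F (F b) (Nat.xor T0 (Nat.shiftLeft b (Nat.mul 8 b)))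

/-- module RES -/
def SpecRes : Prop := ∀ (F : ℕ → ℕ) (db : ℕ → ℕ) (n C s : ℕ), (∀ m, m < n → Holds F (db m)) →
  stepL db n C s = true → Holds F C

/-- module SSS -/
def SpecSSS : Prop := ∀ (F : ℕ → ℕ) (d : Dat), DatOK F d → ∀ C s, C < CBIG →
  stepS d C s = true → Holds F C

/-- module BBB -/
def SpecBBB : Prop := ∀ (F : ℕ → ℕ) (d : Dat), DatOK F d → ∀ kind C s, C < CBIG →
  stepB d kind C s = true → Holds F C

/-- all steps are sound -/
theorem sound (hR : SpecRes) (hS : SpecSSS) (hB : SpecBBB) (F : ℕ → ℕ) (d : Dat)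
    (hd : DatOK F d) (db rc : ℕ → ℕ) (N : ℕ) (h0 : Holds F (db 0))
    (hs : ∀ n, 1 ≤ n → n < N → step d db rc n = true) : ∀ n, n < N → Holds F (db n) := by
  intro n
  induction n using Nat.strong_induction_on with
  | _ n ih =>
    intro hn
    rcases Nat.eq_zero_or_pos n with h | h
    · rw [h]; exact h0
    · have h1 := hs n h hn
      have h2 : Bool.and (Nat.blt (db n) CBIG) (stepK d db n (db n) (Nat.mod (rc n) 4)
        (Nat.shiftRight (rc n) 2)) = true := h1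
      rw [Bool.and_eq_true] at h2
      obtain ⟨h3, h4⟩ := h2
      have h3' : db n < CBIG := by simpa [Nat.blt_eq] using h3
      generalize Nat.mod (rc n) 4 = kind at h4
      rcases kind with _ | kind
      · exact hR F db n _ _ (fun m hm => ih m hm (lt_trans hm hn)) h4
      · rcases kind with _ | kind
        · exact hS F d hd _ _ h3' h4
        · exact hB F d hd _ _ _ h3' h4

end Chk

end MP26f323
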