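import Pool.Agent.Lib.MP_26f323_al.Spec3

/-!
MP_26f323_al, module SSS: soundness of the S-lemmas.
-/

set_option autoImplicit false

namespace MP26f323

open ZonM ClsM

namespace Chk

namespace SssM

attribute [local irreducible] T0 PAT ALL BIG ONE msk CBIG kmask

lemma run_spec {m : ℕ} {ih : ℕ → ℕ → ℕ → ℕ → Bool} {s N cur sum t c : ℕ}
    (h : run m ih s N cur sum t c = true) :
    (t = cur ∧ ih s N cur (sum + c) = true) ∨
      (t ≠ cur ∧ sum % m = 0 ∧ ih s N t c = true) := by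
  unfold run at h
  cases hb : Nat.beq t cur with
  | true =>
    rw [hb] at h
    exact Or.inl ⟨Nat.eq_of_beq_eq_true hb, h⟩
  | false =>
    rw [hb] at h
    have h' : Bool.and (Nat.beq (Nat.mod sum m) 0) (ih s N t c) = true := h
    rw [Bool.and_eq_true] at h'
    exact Or.inr ⟨Nat.ne_of_beq_eq_false hb, Nat.eq_of_beq_eq_true h'.1, h'.2⟩

lemma rows_spec (G st : ℕ → ℕ) (T m : ℕ) (k : ℕ → ℕ → Bool) : ∀ (h s N cur sum : ℕ),
    rows G st T m k h s N cur sum = true → ∃ (L : List (ℕ × ℕ)) (s' : ℕ), L.length ≤ h ∧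
      (∀ x ∈ L, x.1 ≤ 255 ∧ 0 < st x.2 ∧ m ∣ x.1 * st x.2) ∧
      k s' (N + (L.map fun x => x.1 * G x.2).sum) = true ∧
      ∀ φ : ℕ → ℕ, sum * φ cur + (L.map fun x => x.1 * φ (l8 T x.2)).sum ≡ 0 [MOD m] := by
  intro h
  induction h with
  | zero =>
    intro s N cur sum hh
    have h1 : Bool.and (Nat.beq (Nat.mod sum m) 0) (k s N) = true := hh
    rw [Bool.and_eq_true] at h1
    refine ⟨[], s, le_rfl, by simp, by simpa using h1.2, ?_⟩
    intro φ
    have h2 : sum % m = 0 := Nat.eq_of_beq_eq_true h1.1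
    have h3 : sum ≡ 0 [MOD m] := h2
    simpa using h3.mul_right (φ cur)
  | succ h ih =>
    intro s N cur sum hh
    have h1 : Bool.and (Nat.blt 0 (st (s % 128))) (Bool.and
      (Nat.beq (Nat.mod (Nat.mul (Nat.mod (Nat.shiftRight s 7) 256) (st (s % 128))) m) 0)
      (run m (rows G st T m k h) (Nat.shiftRight s 15)
        (N + (Nat.mod (Nat.shiftRight s 7) 256) * G (s % 128)) cur sum (l8 T (s % 128))
        (Nat.mod (Nat.shiftRight s 7) 256))) = true := hh
    have hc : Nat.mod (Nat.shiftRight s 7) 256 ≤ 255 := by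
      have : (s >>> 7) % 256 < 256 := Nat.mod_lt _ (by norm_num)
      show (s >>> 7) % 256 ≤ 255
      omega
    generalize Nat.mod (Nat.shiftRight s 7) 256 = c at h1 hc
    generalize Nat.shiftRight s 15 = σ at h1
    generalize s % 128 = q at h1
    rw [Bool.and_eq_true, Bool.and_eq_true] at h1
    obtain ⟨h2, h3, h4⟩ := h1
    have h2' : 0 < st q := by simpa [Nat.blt_eq] using h2
    have h3' : m ∣ c * st q := Nat.dvd_of_mod_eq_zero (Nat.eq_of_beq_eq_true h3)
    rcases run_spec h4 with ⟨h5, h6⟩ | ⟨h5, h6, h7⟩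
    · obtain ⟨L, s', hl, hx, hk, hφ⟩ := ih _ _ _ _ h6
      refine ⟨(c, q) :: L, s', by simpa using hl, ?_, ?_, ?_⟩
      · intro x hx'
        rcases List.mem_cons.1 hx' with rfl | hx'
        · exact ⟨hc, h2', h3'⟩
        · exact hx x hx'
      · rw [List.map_cons, List.sum_cons, ← add_assoc]
        exact hk
      · intro φ
        have := hφ φ
        rw [List.map_cons, List.sum_cons, ← add_assoc]
        simp only
        rw [h5, ← add_mul]
        exact this
    · obtain ⟨L, s', hl, hx, hk, hφ⟩ := ih _ _ _ _ h7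
      refine ⟨(c, q) :: L, s', by simpa using hl, ?_, ?_, ?_⟩
      · intro x hx'
        rcases List.mem_cons.1 hx' with rfl | hx'
        · exact ⟨hc, h2', h3'⟩
        · exact hx x hx'
      · rw [List.map_cons, List.sum_cons, ← add_assoc]
        exact hk
      · intro φ
        have h8 := hφ φ
        have h9 : sum * φ cur ≡ 0 [MOD m] := by
          have h10 : sum ≡ 0 [MOD m] := h6
          simpa using h10.mul_right (φ cur)
        rw [List.map_cons, List.sum_cons]
        simpa using h9.add h8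

lemma lin_list (hL : SpecLane) (G : ℕ → ℕ) (hG : ∀ k p, lane 32 (G k) p < 32768)
    (w : ℕ → ℕ → ℕ) : ∀ L : List (ℕ × ℕ), L.length ≤ 127 → (∀ x ∈ L, x.1 ≤ 255) →
      (∀ p, lane 32 (L.map fun x => x.1 * G x.2).sum p ≤ L.length * 8355585) ∧
      Lin (L.map fun x => x.1 * G x.2).sum w = (L.map fun x => x.1 * Lin (G x.2) w).sum := by
  intro L
  induction L with
  | nil =>
    intro _ _
    constructor
    · intro p
      simp [hL.zero]
    · simp [hL.lin_zero]
  | cons x L ih =>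
    intro hlen hx
    rw [List.length_cons] at hlen
    obtain ⟨h1, h2⟩ := ih (by omega) (fun y hy => hx y (List.mem_cons_of_mem _ hy))
    have hx1 : x.1 ≤ 255 := hx x List.mem_cons_self
    have h3 : ∀ p, x.1 * lane 32 (G x.2) p ≤ 8355585 := by
      intro p
      have := hG x.2 p
      calc x.1 * lane 32 (G x.2) p ≤ 255 * 32767 := Nat.mul_le_mul hx1 (by omega)
        _ = 8355585 := by norm_num
    have h4 : ∀ p, lane 32 (x.1 * G x.2) p = x.1 * lane 32 (G x.2) p := by
      intro p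
      apply hL.mul
      intro q _
      have := h3 q
      omega
    have h5 : ∀ p, lane 32 (x.1 * G x.2) p + lane 32 (L.map fun x => x.1 * G x.2).sum p ≤
        (L.length + 1) * 8355585 := by
      intro p
      have h6 := h3 p
      have h7 := h1 p
      rw [h4]
      linarith
    have h6 : (L.length + 1) * 8355585 < 2 ^ 32 := by
      calc (L.length + 1) * 8355585 ≤ 127 * 8355585 := Nat.mul_le_mul_right _ hlen
        _ < 2 ^ 32 := by norm_num
    rw [List.map_cons, List.sum_cons, List.map_cons, List.sum_cons, List.length_cons]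
    constructor
    · intro p
      rw [hL.add _ _ _ (fun q _ => lt_of_le_of_lt (h5 q) h6)]
      exact h5 p
    · rw [hL.lin_add _ _ _ (fun q _ => lt_of_le_of_lt (h5 q) h6), h2, hL.lin_mul]
      intro q _
      have := h3 q
      omega

lemma kills_spec (km : ℕ → ℕ) (T X : ℕ) (k : ℕ → ℕ → Bool) : ∀ (h s K : ℕ),
    kills km T X k h s K = true → ∃ (xs : List ℕ) (s' : ℕ),
      (∀ x ∈ xs, 1 ≤ x ∧ bt X (l8 T x) = true) ∧
      k s' (xs.foldl (fun K x => Nat.lor K (km x)) K) = true := by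
  intro h
  induction h with
  | zero =>
    intro s K hh
    exact ⟨[], s, by simp, hh⟩
  | succ h ih =>
    intro s K hh
    have h1 : Bool.and (bt X (l8 T (s % 128 + 1))) (kills km T X k h (Nat.shiftRight s 7)
      (Nat.lor K (km (s % 128 + 1)))) = true := hh
    rw [Bool.and_eq_true] at h1
    obtain ⟨xs, s', h2, h3⟩ := ih _ _ h1.2
    refine ⟨(s % 128 + 1) :: xs, s', ?_, h3⟩
    intro x hx
    rcases List.mem_cons.1 hx with rfl | hx
    · exact ⟨Nat.le_add_left _ _, h1.1⟩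
    · exact h2 x hx

lemma enD_spec {C T m : ℕ} {ih : ℕ → ℕ → ℕ → ℕ → Bool} {s S cur sum i j v ty : ℕ}
    (h : enD C T m ih s S cur sum i j v ty = true) :
    (∃ σ t, (t = 256 * l8 T i + l8 T j ∨ t = 256 * l8 T j + l8 T i ∨
        (l8 T i = l8 T j ∧ t = l8 T i)) ∧ run m ih σ (ad S i j v) cur sum t v = true) ∨
    (∃ σ a b, 1 ≤ a ∧ a < b ∧ bt C (2 * pos a b) = true ∧
      ((l8 T a = l8 T i ∧ l8 T b = l8 T j) ∨ (l8 T a = l8 T j ∧ l8 T b = l8 T i)) ∧
      ih σ (ad S i j v) cur sum = true) := by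
  rcases ty with _ | _ | _ | _ | ty
  · left
    exact ⟨_, _, Or.inl rfl, h⟩
  · left
    exact ⟨_, _, Or.inr (Or.inl rfl), h⟩
  · left
    have h1 : Bool.and (Nat.beq (l8 T i) (l8 T j))
      (run m ih (Nat.shiftRight s 25) (ad S i j v) cur sum (l8 T i) v) = true := h
    rw [Bool.and_eq_true] at h1
    exact ⟨_, _, Or.inr (Or.inr ⟨Nat.eq_of_beq_eq_true h1.1, rfl⟩), h1.2⟩
  · right
    have h1 : Bool.and (bt C (2 * pos (f7 s 25 + 1) (f7 s 25 + f7 s 32 + 2)))
      (Bool.and (Nat.beq (l8 T (f7 s 25 + 1)) (l8 T i))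
      (Bool.and (Nat.beq (l8 T (f7 s 25 + f7 s 32 + 2)) (l8 T j))
      (ih (Nat.shiftRight s 39) (ad S i j v) cur sum))) = true := h
    rw [Bool.and_eq_true, Bool.and_eq_true, Bool.and_eq_true] at h1
    obtain ⟨h2, h3, h4, h5⟩ := h1
    exact ⟨_, _, _, Nat.le_add_left _ _, by omega, h2,
      Or.inl ⟨Nat.eq_of_beq_eq_true h3, Nat.eq_of_beq_eq_true h4⟩, h5⟩
  · right
    have h1 : Bool.and (bt C (2 * pos (f7 s 25 + 1) (f7 s 25 + f7 s 32 + 2)))
      (Bool.and (Nat.beq (l8 T (f7 s 25 + 1)) (l8 T j))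
      (Bool.and (Nat.beq (l8 T (f7 s 25 + f7 s 32 + 2)) (l8 T i))
      (ih (Nat.shiftRight s 39) (ad S i j v) cur sum))) = true := h
    rw [Bool.and_eq_true, Bool.and_eq_true, Bool.and_eq_true] at h1
    obtain ⟨h2, h3, h4, h5⟩ := h1
    exact ⟨_, _, _, Nat.le_add_left _ _, by omega, h2,
      Or.inr ⟨Nat.eq_of_beq_eq_true h3, Nat.eq_of_beq_eq_true h4⟩, h5⟩

lemma bt_eq (C n : ℕ) (h : bt C n = true) : C.testBit n = true := by
  have h1 : (C >>> n) % 2 = 1 := Nat.eq_of_beq_eq_true h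
  rw [Nat.testBit_eq_decide_div_mod_eq, ← Nat.shiftRight_eq_div_pow, h1]
  rfl

theorem CBIG_eq : CBIG = 2 ^ 6006 := by unfold CBIG; rfl

lemma bit_lt (C n : ℕ) (hC : C < CBIG) (h : C.testBit n = true) : n < 6006 := by
  by_contra hn
  push Not at hn
  rw [CBIG_eq] at hC
  have h1 : C.testBit n = false :=
    Nat.testBit_eq_false_of_lt (lt_of_lt_of_le hC (Nat.pow_le_pow_right (by norm_num) hn))
  rw [h1] at h
  exact Bool.false_ne_true h

lemma l8_lt (T i : ℕ) : l8 T i < 256 := Nat.mod_lt _ (by norm_num)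

open Classical in
/-- weight of a code -/
noncomputable def wt (F : ℕ → ℕ) (s code : ℕ) : ℕ :=
  if Ft F s (code / 256) = s ∧ Ft F s (code % 256) = s then 1 else 0

lemma wt_zero (F : ℕ → ℕ) (s : ℕ) : wt F s 0 = 1 := by
  unfold wt
  rw [if_pos]
  simp [Ft]

lemma wt_pair (F : ℕ → ℕ) (s T i j : ℕ) (hT : TOK F s T) (hi : 1 ≤ i) (hi' : i ≤ 77)
    (hj : 1 ≤ j) (hj' : j ≤ 77) : wt F s (256 * l8 T i + l8 T j) = ow F s s i j := by
  unfold wt ow
  rw [Nat.mul_add_div (by norm_num), Nat.div_eq_of_lt (l8_lt T j), add_zero,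
    Nat.mul_add_mod, Nat.mod_eq_of_lt (l8_lt T j), ← hT i hi hi', ← hT j hj hj']

lemma ow_symm (F : ℕ → ℕ) (s i j : ℕ) : ow F s s i j = ow F s s j i := by
  unfold ow
  simp only [and_comm]

lemma wt_code (F : ℕ → ℕ) (s T i j t : ℕ) (hT : TOK F s T) (hi : 1 ≤ i) (hi' : i ≤ 77)
    (hj : 1 ≤ j) (hj' : j ≤ 77) (h : t = 256 * l8 T i + l8 T j ∨ t = 256 * l8 T j + l8 T i ∨
        (l8 T i = l8 T j ∧ t = l8 T i)) : wt F s t = ow F s s i j := by
  rcases h with rfl | rfl | ⟨h1, rfl⟩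
  · exact wt_pair F s T i j hT hi hi' hj hj'
  · rw [wt_pair F s T j i hT hj hj' hi hi', ow_symm]
  · have h2 : F i = F j := by rw [hT i hi hi', hT j hj hj', h1]
    unfold wt ow
    rw [Nat.div_eq_of_lt (l8_lt T i), Nat.mod_eq_of_lt (l8_lt T i), ← hT i hi hi', ← h2]
    simp [Ft]

lemma ents_spec (hL : SpecLane) (F : ℕ → ℕ) (s C T m L : ℕ) (hC : C < CBIG) (hH : ¬ Holds F C)
    (hT : TOK F s T) (hLB : L < BIG) : ∀ (h σ S cur sum : ℕ),
    ents C T m L h σ S cur sum = true → ∃ E : List (ℕ × ℕ × ℕ), E.length ≤ h ∧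
      (∀ x ∈ E, 1 ≤ x.1 ∧ x.1 ≤ x.2.1 ∧ x.2.1 ≤ 77 ∧ x.2.2 ≤ 256) ∧
      L = S + (E.map fun x => Nat.shiftLeft x.2.2 (Nat.mul 32 (pos x.1 x.2.1))).sum ∧
      ¬ (sum * wt F s cur + (E.map fun x => x.2.2 * ow F s s x.1 x.2.1).sum ≡ 0 [MOD m]) := by
  intro h
  induction h with
  | zero =>
    intro σ S cur sum hh
    have h1 : Bool.and (Nat.beq cur 0) (Bool.and (Nat.blt 0 (Nat.mod sum m)) (Nat.beq S L)) = true :=
      hh
    rw [Bool.and_eq_true, Bool.and_eq_true] at h1
    obtain ⟨h2, h3, h4⟩ := h1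
    have h2' : cur = 0 := Nat.eq_of_beq_eq_true h2
    have h3' : 0 < sum % m := by
      have h3'' : 0 < Nat.mod sum m := by simpa [Nat.blt_eq] using h3
      exact h3''
    have h4' : S = L := Nat.eq_of_beq_eq_true h4
    refine ⟨[], le_rfl, by simp, by simp [h4'], ?_⟩
    rw [h2', wt_zero]
    intro h5
    have h6 : sum % m = 0 := by simpa [Nat.ModEq] using h5
    omega
  | succ h ih =>
    intro σ S cur sum hh
    have h1 : enD C T m (ents C T m L h) σ S cur sum (σ % 128 + 1) (σ % 128 + f7 σ 7 + 1)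
      (Nat.mod (Nat.shiftRight σ 17) 256 + 1) (Nat.mod (Nat.shiftRight σ 14) 8) = true := hh
    have hv : Nat.mod (Nat.shiftRight σ 17) 256 + 1 ≤ 256 := by
      have : (σ >>> 17) % 256 < 256 := Nat.mod_lt _ (by norm_num)
      show (σ >>> 17) % 256 + 1 ≤ 256
      omega
    have hi : 1 ≤ σ % 128 + 1 := Nat.le_add_left _ _
    have hij : σ % 128 + 1 ≤ σ % 128 + f7 σ 7 + 1 := by omega
    have hv0 : 0 < Nat.mod (Nat.shiftRight σ 17) 256 + 1 := Nat.succ_pos _
    generalize Nat.mod (Nat.shiftRight σ 17) 256 + 1 = v at h1 hv hv0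
    generalize σ % 128 + f7 σ 7 + 1 = j at h1 hij
    generalize σ % 128 + 1 = i at h1 hi hij
    generalize Nat.mod (Nat.shiftRight σ 14) 8 = ty at h1
    -- common part
    have key : ∀ E : List (ℕ × ℕ × ℕ),
        L = ad S i j v + (E.map fun x => Nat.shiftLeft x.2.2 (Nat.mul 32 (pos x.1 x.2.1))).sum →
        j ≤ 77 ∧ L = S + (((i, j, v) :: E).map
          fun x => Nat.shiftLeft x.2.2 (Nat.mul 32 (pos x.1 x.2.1))).sum := by
      intro E hE
      constructor
      · apply hL.big S v i j hi hij hv0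
        refine lt_of_le_of_lt ?_ hLB
        rw [hE]
        exact Nat.le_add_right _ _
      · rw [List.map_cons, List.sum_cons, ← add_assoc]
        exact hE
    have key2 : ∀ E : List (ℕ × ℕ × ℕ),
        (∀ x ∈ E, 1 ≤ x.1 ∧ x.1 ≤ x.2.1 ∧ x.2.1 ≤ 77 ∧ x.2.2 ≤ 256) → j ≤ 77 →
        (∀ x ∈ (i, j, v) :: E, 1 ≤ x.1 ∧ x.1 ≤ x.2.1 ∧ x.2.1 ≤ 77 ∧ x.2.2 ≤ 256) := by
      intro E hE hj x hx
      rcases List.mem_cons.1 hx with rfl | hx
      · exact ⟨hi, hij, hj, hv⟩
      · exact hE x hx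
    rcases enD_spec h1 with ⟨σ', t, ht, hr⟩ | ⟨σ', a, b, ha, hab, hbt, hT2, hr⟩
    · rcases run_spec hr with ⟨h5, h6⟩ | ⟨h5, h6, h7⟩
      · obtain ⟨E, hl, hE, hLE, hn⟩ := ih _ _ _ _ h6
        obtain ⟨hj, hS⟩ := key E hLE
        refine ⟨(i, j, v) :: E, by simpa using hl, key2 E hE hj, hS, ?_⟩
        have hw := wt_code F s T i j t hT hi (hij.trans hj) (hi.trans hij) hj ht
        rw [List.map_cons, List.sum_cons]
        simp only
        rw [← hw, h5, ← add_assoc, ← add_mul]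
        exact hn
      · obtain ⟨E, hl, hE, hLE, hn⟩ := ih _ _ _ _ h7
        obtain ⟨hj, hS⟩ := key E hLE
        refine ⟨(i, j, v) :: E, by simpa using hl, key2 E hE hj, hS, ?_⟩
        have hw := wt_code F s T i j t hT hi (hij.trans hj) (hi.trans hij) hj ht
        rw [List.map_cons, List.sum_cons]
        simp only
        rw [← hw]
        intro h8
        apply hn
        have h9 : sum * wt F s cur ≡ 0 [MOD m] := by
          have h10 : sum ≡ 0 [MOD m] := h6
          simpa using h10.mul_right (wt F s cur)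
        have h10 : 0 + (v * wt F s t + (E.map fun x => x.2.2 * ow F s s x.1 x.2.1).sum) ≡
            sum * wt F s cur + (v * wt F s t + (E.map fun x => x.2.2 * ow F s s x.1 x.2.1).sum)
            [MOD m] := h9.symm.add_right _
        rw [zero_add] at h10
        exact h10.trans h8
    · obtain ⟨E, hl, hE, hLE, hn⟩ := ih _ _ _ _ hr
      obtain ⟨hj, hS⟩ := key E hLE
      refine ⟨(i, j, v) :: E, by simpa using hl, key2 E hE hj, hS, ?_⟩
      have hbit := bt_eq _ _ hbt
      have hb77 : b ≤ 77 := by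
        rw [← hL.pos_lt a b ha hab.le]
        have := bit_lt C _ hC hbit
        omega
      have hne : F a ≠ F b := by
        intro he
        exact hH ⟨a, b, ha, hab, Or.inl ⟨hbit, he⟩⟩
      have hi77 := hij.trans hj
      have hj1 := hi.trans hij
      have hne2 : F i ≠ F j := by
        intro he
        apply hne
        rw [hT a ha (by omega), hT b (by omega) hb77]
        rw [hT i hi hi77, hT j hj1 hj] at he
        rcases hT2 with ⟨h8, h9⟩ | ⟨h8, h9⟩
        · rw [h8, h9, he]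
        · rw [h8, h9, he]
      have hz : ow F s s i j = 0 := by
        unfold ow
        rw [if_neg]
        rintro ⟨h8, h9⟩
        exact hne2 (h8.trans h9.symm)
      rw [List.map_cons, List.sum_cons]
      simp only
      rw [hz, mul_zero, zero_add]
      exact hn

lemma lin_ents (hL : SpecLane) (w : ℕ → ℕ → ℕ) : ∀ E : List (ℕ × ℕ × ℕ), E.length ≤ 4095 →
    (∀ x ∈ E, 1 ≤ x.1 ∧ x.1 ≤ x.2.1 ∧ x.2.1 ≤ 77 ∧ x.2.2 ≤ 256) →
      (∀ p, lane 32 (E.map fun x => Nat.shiftLeft x.2.2 (Nat.mul 32 (pos x.1 x.2.1))).sum p ≤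
        E.length * 256) ∧
      Lin (E.map fun x => Nat.shiftLeft x.2.2 (Nat.mul 32 (pos x.1 x.2.1))).sum w =
        (E.map fun x => x.2.2 * w x.1 x.2.1).sum := by
  intro E
  induction E with
  | nil =>
    intro _ _
    constructor
    · intro p
      simp [hL.zero]
    · simp [hL.lin_zero]
  | cons x E ih =>
    intro hlen hx
    rw [List.length_cons] at hlen
    obtain ⟨h1, h2⟩ := ih (by omega) (fun y hy => hx y (List.mem_cons_of_mem _ hy))
    obtain ⟨hx1, hx2, hx3, hx4⟩ := hx x List.mem_cons_self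
    have h3 : ∀ p, lane 32 (Nat.shiftLeft x.2.2 (Nat.mul 32 (pos x.1 x.2.1))) p ≤ 256 := by
      intro p
      rw [hL.single _ _ _ (by omega)]
      split_ifs <;> omega
    have h5 : ∀ p, lane 32 (Nat.shiftLeft x.2.2 (Nat.mul 32 (pos x.1 x.2.1))) p +
        lane 32 (E.map fun x => Nat.shiftLeft x.2.2 (Nat.mul 32 (pos x.1 x.2.1))).sum p ≤
        (E.length + 1) * 256 := by
      intro p
      have h6 := h3 p
      have h7 := h1 p
      linarith
    have h6 : (E.length + 1) * 256 < 2 ^ 32 := by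
      calc (E.length + 1) * 256 ≤ 4095 * 256 := Nat.mul_le_mul_right _ hlen
        _ < 2 ^ 32 := by norm_num
    rw [List.map_cons, List.sum_cons, List.map_cons, List.sum_cons, List.length_cons]
    constructor
    · intro p
      rw [hL.add _ _ _ (fun q _ => lt_of_le_of_lt (h5 q) h6)]
      exact h5 p
    · rw [hL.lin_add _ _ _ (fun q _ => lt_of_le_of_lt (h5 q) h6), h2,
        hL.lin_single _ _ _ _ (by omega) hx1 hx2 hx3]

end SssM

open SssM

attribute [local irreducible] T0 PAT ALL BIG ONE msk CBIG kmask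

theorem specSSS (hL : SpecLane) (hR : SpecRep) : SpecSSS := by
  intro F d hd C s hC hs
  by_contra hH
  have h1 : Bool.and (Nat.blt 0 (f7 s 0)) (Bool.and (Nat.blt (f7 s 0) 78)
      (edges C (sD d C (Nat.pow 2 (Nat.mod (Nat.shiftRight s 7) 16)))
        (Nat.mod (Nat.shiftRight s 11) 256) (Nat.shiftRight s 19)
        (Nat.xor T0 (Nat.shiftLeft (f7 s 0) (Nat.mul 8 (f7 s 0)))))) = true := hs
  have he : Nat.mod (Nat.shiftRight s 7) 16 ≤ 31 := by
    have : (s >>> 7) % 16 < 16 := Nat.mod_lt _ (by norm_num)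
    show (s >>> 7) % 16 ≤ 31
    omega
  generalize Nat.mod (Nat.shiftRight s 7) 16 = e at h1 he
  generalize f7 s 0 = b at h1
  rw [Bool.and_eq_true, Bool.and_eq_true] at h1
  obtain ⟨hb0, hb1, h2⟩ := h1
  have hb0' : 1 ≤ b := by
    have : 0 < b := by simpa [Nat.blt_eq] using hb0
    exact this
  have hb1' : b ≤ 77 := by
    have : b < 78 := by simpa [Nat.blt_eq] using hb1
    omega
  obtain ⟨σ1, T, h3, hT⟩ := hR.edges F C _ _ _ _ hC hH h2
  have hT := hT (F b) (hR.initb F b hb0' hb1')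
  have hbz : F b ≠ 0 := hd.nz b hb0' (by omega)
  have h4 : nes C T 0 (sC d C T (Nat.pow 2 e)) (f7 σ1 0) (Nat.shiftRight σ1 7) 0 = true := h3
  obtain ⟨σ2, X, h5, hX⟩ := hR.nes F (F b) C T 0 _ _ _ 0 hC hH hT (by simp [Ft])
    (by intro t ht; simp at ht) h4
  have h6 : rows (Dat.G d) (Dat.st d) T (Nat.pow 2 e)
      (fun s N => frc (Nat.land N (msk (Nat.pow 2 e))) (sB C T X (Nat.pow 2 e) s)) (f7 σ2 0)
      (Nat.shiftRight σ2 7) 0 0 0 = true := h5
  obtain ⟨L, σ3, hlen, hx, h7, hφ⟩ := rows_spec _ _ _ _ _ _ _ _ _ _ h6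
  have hlen' : L.length ≤ 127 := by
    have : (σ2 >>> 0) % 128 < 128 := Nat.mod_lt _ (by norm_num)
    have h8 : f7 σ2 0 = (σ2 >>> 0) % 128 := rfl
    omega
  obtain ⟨P, hP⟩ := hd.half
  set w := ow F (F b) (F b) with hw
  obtain ⟨-, hlin⟩ := lin_list hL (Dat.G d) (fun k p => (hd.small k p).1) w L hlen'
    (fun x hx' => (hx x hx').1)
  -- the sum of the rows is killed by w
  have h8 : Lin (L.map fun x => x.1 * Dat.G d x.2).sum w ≡ 0 [MOD 2 ^ e] := by
    rw [hlin]
    have h9 := hφ (fun t => P (Ft F (F b) t) (F b))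
    rw [zero_mul, zero_add] at h9
    have h10 : ∀ M : List (ℕ × ℕ), (∀ x ∈ M, x ∈ L) →
        (M.map fun x => x.1 * P (Ft F (F b) (l8 T x.2)) (F b)).sum ≡
          (M.map fun x => x.1 * Lin (Dat.G d x.2) w).sum [MOD 2 ^ e] := by
      intro M
      induction M with
      | nil =>
        intro _
        simp only [List.map_nil]
        exact Nat.ModEq.refl _
      | cons x M ih =>
        intro hM
        rw [List.map_cons, List.sum_cons, List.map_cons, List.sum_cons]
        apply Nat.ModEq.add _ (ih fun y hy => hM y (List.mem_cons_of_mem _ hy))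
        obtain ⟨-, h11, h12⟩ := hx x (hM x List.mem_cons_self)
        obtain ⟨h13, h14⟩ := hd.rng _ h11
        obtain ⟨y, hy⟩ := hP x.2 h11 (F b) hbz
        rw [← hT x.2 h13 h14, hy, mul_add, ← mul_assoc]
        have h15 : x.1 * Dat.st d x.2 * y ≡ 0 [MOD 2 ^ e] :=
          ((Nat.modEq_zero_iff_dvd.2 h12).mul_right y).trans (by rw [zero_mul])
        have h16 := (Nat.ModEq.refl (x.1 * Lin (Dat.G d x.2) w)).add h15
        rw [add_zero] at h16
        exact h16
    exact (h10 L (fun _ h => h)).symm.trans h9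
  have h7' : sB C T X (Nat.pow 2 e) σ3 (Nat.land (0 + (L.map fun x => x.1 * Dat.G d x.2).sum)
    (msk (Nat.pow 2 e))) = true := h7
  rw [zero_add] at h7'
  have h9 := hL.lin_msk e (L.map fun x => x.1 * Dat.G d x.2).sum w he
  have h9' : Lin (Nat.land (L.map fun x => x.1 * Dat.G d x.2).sum (msk (Nat.pow 2 e))) w ≡ 0
    [MOD 2 ^ e] := h9.trans h8
  generalize Nat.land (L.map fun x => x.1 * Dat.G d x.2).sum (msk (Nat.pow 2 e)) = N at h7' h9'
  have h10 : Bool.and (Nat.blt N BIG) (kills (kmask PAT) T X (sA C T (Nat.pow 2 e) N) (f7 σ3 0)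
    (Nat.shiftRight σ3 7) 0) = true := h7'
  rw [Bool.and_eq_true] at h10
  have hN : N < BIG := by simpa [Nat.blt_eq] using h10.1
  obtain ⟨xs, σ4, hxs, h11⟩ := kills_spec _ _ _ _ _ _ _ h10.2
  have h12 : ents C T (Nat.pow 2 e) (Nat.land N (Nat.xor ALL
      (xs.foldl (fun K x => Nat.lor K (kmask PAT x)) 0))) (Nat.mod σ4 4096)
      (Nat.shiftRight σ4 12) 0 0 0 = true := h11
  have h13 := hL.lin_kill xs N w hN (fun x hx' => (hxs x hx').1) (by
    intro i j hi hij hj hm
    rw [hw]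
    unfold ow
    rw [if_neg]
    rintro ⟨hFi, hFj⟩
    rcases hm with hm | hm
    · have h14 := hX _ (bt_eq _ _ (hxs i hm).2)
      rw [← hT i hi (hij.trans hj)] at h14
      exact h14 hFi
    · have h14 := hX _ (bt_eq _ _ (hxs j hm).2)
      rw [← hT j (hi.trans hij) hj] at h14
      exact h14 hFj)
  have hN2 : Nat.land N (Nat.xor ALL (xs.foldl (fun K x => Nat.lor K (kmask PAT x)) 0)) < BIG :=
    lt_of_le_of_lt Nat.and_le_left hN
  generalize Nat.land N (Nat.xor ALL (xs.foldl (fun K x => Nat.lor K (kmask PAT x)) 0)) = N2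
    at h12 h13 hN2
  obtain ⟨E, hEl, hE, hEL, hEn⟩ := ents_spec hL F (F b) C T (Nat.pow 2 e) N2 hC hH hT hN2
    _ _ _ _ _ h12
  rw [zero_mul, zero_add] at hEn
  rw [zero_add] at hEL
  have hEl' : E.length ≤ 4095 := by
    have : σ4 % 4096 < 4096 := Nat.mod_lt _ (by norm_num)
    have h14 : Nat.mod σ4 4096 = σ4 % 4096 := rfl
    omega
  obtain ⟨-, hlinE⟩ := lin_ents hL w E hEl' hE
  apply hEn
  rw [hw] at hlinE
  have h14 : (E.map fun x => x.2.2 * ow F (F b) (F b) x.1 x.2.1).sum = Lin N w := by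
    rw [← h13, ← hlinE, hEL, hw]
  rw [h14]
  exact h9'

end Chk

end MP26f323
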