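import Pool.Agent.Lib.MP_26f323_al.Spec2
import Pool.Agent.Lib.MP_26f323_al.Zon

/-!
MP_26f323_al, module TAB: slab sums and their symmetries.
-/

set_option autoImplicit false

namespace MP26f323
namespace TabM

open Equiv Finset ZonM ClsM

/-! ### conjugation by the elements of S5 on indices -/

theorem chk_cj0 : allLt 60 (fun c => Nat.beq (cj1 0 c) c) = true := by
  decide +kernel

theorem chk_cjS : allLt 119 (fun m => Bool.and (Nat.ble (lk 7 tabPar (Nat.succ m)) m)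
    (allLt 60 (fun c => Nat.beq (cj1 (Nat.succ m) c)
      (Nat.rec (cr (cj1 (lk 7 tabPar (Nat.succ m)) c))
        (fun _ _ => cs (cj1 (lk 7 tabPar (Nat.succ m)) c)) (lk 1 tabGen (Nat.succ m)))))) = true := by
  decide +kernel

theorem cj_ex : ∀ m, m < 120 → ∃ σ : Perm (Fin 5), ∀ a : A, ix (cjA σ a) = cj1 m (ix a) := by
  intro m
  induction m using Nat.strong_induction_on with
  | _ m ih =>
    intro hm
    rcases m with _ | m
    · refine ⟨1, fun a => ?_⟩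
      have h := (allLt_iff _ _).1 chk_cj0 (ix a) (ix_lt a)
      rw [cj_one]
      exact (Nat.eq_of_beq_eq_true h).symm
    · have h := (allLt_iff _ _).1 chk_cjS m (by omega)
      rw [Bool.and_eq_true] at h
      obtain ⟨h1, h2⟩ := h
      have h1' : lk 7 tabPar (Nat.succ m) ≤ m := Nat.le_of_ble_eq_true h1
      obtain ⟨τ, hτ⟩ := ih (lk 7 tabPar (Nat.succ m)) (by omega) (by omega)
      rcases hg : lk 1 tabGen (Nat.succ m) with _ | g
      · refine ⟨finRotate 5 * τ, fun a => ?_⟩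
        have h3 := Nat.eq_of_beq_eq_true ((allLt_iff _ _).1 h2 (ix a) (ix_lt a))
        rw [hg] at h3
        rw [← cj_cj, ix_cr, hτ]
        exact h3.symm
      · refine ⟨swap 0 1 * τ, fun a => ?_⟩
        have h3 := Nat.eq_of_beq_eq_true ((allLt_iff _ _).1 h2 (ix a) (ix_lt a))
        rw [hg] at h3
        rw [← cj_cj, ix_cs, hτ]
        exact h3.symm

/-! ### slab sums -/

/-- slab sum -/
def slab (f : Gam → ℕ) (g : ℕ → ℕ → ℕ) (r : Gam) (z0 : A) : ℕ :=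
  ∑ z1 : A, ∑ z2 : A, g (f (z0, z1, z2)) (f ((z0, z1, z2)⁻¹ * r))

theorem slab_eq (f : Gam → ℕ) (g : ℕ → ℕ → ℕ) (r : Gam) (z0 : A) :
    slab f g r z0 = ∑ z : Gam, if z.1 = z0 then g (f z) (f (z⁻¹ * r)) else 0 := by
  rw [Fintype.sum_prod_type, Finset.sum_eq_single z0]
  · rw [Fintype.sum_prod_type]
    simp [slab]
  · intro b _ hb
    simp [hb]
  · intro h
    exact absurd (mem_univ _) h

theorem sum_slab (f : Gam → ℕ) (g : ℕ → ℕ → ℕ) (r : Gam) :
    ∑ a : A, slab f g r a = ∑ z : Gam, g (f z) (f (z⁻¹ * r)) := by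
  rw [Fintype.sum_prod_type]
  refine Finset.sum_congr rfl (fun a _ => ?_)
  rw [Fintype.sum_prod_type]
  rfl

theorem slab_add (f : Gam → ℕ) (g h : ℕ → ℕ → ℕ) (r : Gam) (z0 : A) :
    slab f (fun u v => g u v + h u v) r z0 = slab f g r z0 + slab f h r z0 := by
  simp only [slab, Finset.sum_add_distrib]

/-- symmetries of the colouring -/
structure Mv (f : Gam → ℕ) (M : Gam → Gam) (h : A → A) : Prop where
  inj : Function.Injective M
  hinj : Function.Injective h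
  f1 : ∀ z, f (M z) = f z
  f2 : ∀ z w, f ((M z)⁻¹ * M w) = f (z⁻¹ * w)
  fst : ∀ z, (M z).1 = h z.1

theorem Mv.comp {f : Gam → ℕ} {M N : Gam → Gam} {h k : A → A} (hM : Mv f M h) (hN : Mv f N k) :
    Mv f (M ∘ N) (h ∘ k) where
  inj := hM.inj.comp hN.inj
  hinj := hM.hinj.comp hN.hinj
  f1 z := by rw [Function.comp_apply, hM.f1, hN.f1]
  f2 z w := by rw [Function.comp_apply, Function.comp_apply, hM.f2, hN.f2]
  fst z := by rw [Function.comp_apply, hM.fst, hN.fst]; rfl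

theorem slab_mv {f : Gam → ℕ} {M : Gam → Gam} {h : A → A} (hM : Mv f M h) (g : ℕ → ℕ → ℕ)
    (r : Gam) (hr : M r = r) (z0 : A) : slab f g r z0 = slab f g r (h z0) := by
  have hb : Function.Bijective M := Finite.injective_iff_bijective.1 hM.inj
  rw [slab_eq f g r z0, slab_eq f g r (h z0),
    ← hb.sum_comp (fun z => if z.1 = h z0 then g (f z) (f (z⁻¹ * r)) else 0)]
  refine Finset.sum_congr rfl (fun z _ => ?_)
  have h2 := hM.f2 z r
  rw [hr] at h2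
  rw [hM.fst, hM.f1, h2]
  simp only [hM.hinj.eq_iff]

theorem slab_mv2 {f : Gam → ℕ} (hC : Col f) {M : Gam → Gam} {h : A → A} (hM : Mv f M h)
    (g : ℕ → ℕ → ℕ) (hg : ∀ u v, g u v = g v u)
    (r : Gam) (hr : M r⁻¹ = r) (z0 : A) : slab f g r z0 = slab f g r (h (r.1⁻¹ * z0)) := by
  have hb : Function.Bijective (fun z => M (r⁻¹ * z)) :=
    (Finite.injective_iff_bijective.1 hM.inj).comp (Group.mulLeft_bijective r⁻¹)
  rw [slab_eq f g r z0, slab_eq f g r (h (r.1⁻¹ * z0)),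
    ← hb.sum_comp (fun z => if z.1 = h (r.1⁻¹ * z0) then g (f z) (f (z⁻¹ * r)) else 0)]
  refine Finset.sum_congr rfl (fun z _ => ?_)
  have h1 : f ((M (r⁻¹ * z))⁻¹ * r) = f z := by
    have h2 := hM.f2 (r⁻¹ * z) r⁻¹
    rw [hr] at h2
    rw [h2, mul_inv_rev, inv_inv, mul_assoc, mul_inv_cancel, mul_one, hC.inv]
  have h3 : f (M (r⁻¹ * z)) = f (z⁻¹ * r) := by
    rw [hM.f1, ← hC.inv, mul_inv_rev, inv_inv]
  have h4 : (M (r⁻¹ * z)).1 = h (r.1⁻¹ * z.1) := hM.fst _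
  simp only [h1, h3, h4]
  rw [hg (f (z⁻¹ * r)) (f z)]
  by_cases hz : z.1 = z0
  · rw [if_pos hz, if_pos (by rw [hz])]
  · rw [if_neg hz, if_neg]
    intro h5
    exact hz (mul_left_cancel (hM.hinj h5))

/-! ### the moves -/

/-- conjugation -/
def cjG (σ : Perm (Fin 5)) (z : Gam) : Gam := (cjA σ z.1, cjA σ z.2.1, cjA σ z.2.2)

/-- exchange of the last two coordinates (if e is not 0) -/
def swG (e : ℕ) (z : Gam) : Gam := Nat.rec z (fun _ _ => (z.1, z.2.2, z.2.1)) e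

/-- twist (if d is not 0) -/
def twG (d : ℕ) (z : Gam) : Gam :=
  Nat.rec z (fun _ _ => (z.1⁻¹, z.2.1 * z.1⁻¹, z.2.2 * z.1⁻¹)) d

/-- inverse (if d is not 0) -/
def inG (d : ℕ) (a : A) : A := Nat.rec a (fun _ _ => a⁻¹) d

theorem cjA_inj (σ : Perm (Fin 5)) : Function.Injective (cjA σ) := by
  intro a b h
  have h1 := congrArg (cjA σ⁻¹) h
  rwa [cj_cj, cj_cj, inv_mul_cancel, cj_one, cj_one] at h1

theorem mv_cj {f : Gam → ℕ} (hC : Col f) (σ : Perm (Fin 5)) : Mv f (cjG σ) (cjA σ) where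
  inj z w h := by
    simp only [cjG, Prod.mk.injEq] at h
    exact Prod.ext (cjA_inj σ h.1) (Prod.ext (cjA_inj σ h.2.1) (cjA_inj σ h.2.2))
  hinj := cjA_inj σ
  f1 z := hC.cj σ z.1 z.2.1 z.2.2
  f2 z w := by
    have h := hC.cj σ (z⁻¹ * w).1 (z⁻¹ * w).2.1 (z⁻¹ * w).2.2
    have h1 : ((cjG σ z)⁻¹ * cjG σ w) =
        (cjA σ (z⁻¹ * w).1, cjA σ (z⁻¹ * w).2.1, cjA σ (z⁻¹ * w).2.2) := by
      simp only [cjG, Prod.fst_mul, Prod.snd_mul, Prod.fst_inv, Prod.snd_inv, cj_mul, cj_inv]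
      rfl
    rw [h1, h]
  fst z := rfl

theorem mv_sw {f : Gam → ℕ} (hC : Col f) (e : ℕ) : Mv f (swG e) id := by
  rcases e with _ | e
  · exact ⟨fun _ _ h => h, fun _ _ h => h, fun _ => rfl, fun _ _ => rfl, fun _ => rfl⟩
  · refine ⟨?_, fun _ _ h => h, fun z => hC.sw12 z.1 z.2.1 z.2.2, fun z w => ?_, fun _ => rfl⟩
    · intro z w h
      simp only [swG, Prod.mk.injEq] at h
      exact Prod.ext h.1 (Prod.ext h.2.2 h.2.1)
    · exact hC.sw12 (z⁻¹ * w).1 (z⁻¹ * w).2.1 (z⁻¹ * w).2.2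

theorem mv_tw {f : Gam → ℕ} (hC : Col f) (d : ℕ) : Mv f (twG d) (inG d) := by
  rcases d with _ | d
  · exact ⟨fun _ _ h => h, fun _ _ h => h, fun _ => rfl, fun _ _ => rfl, fun _ => rfl⟩
  · refine ⟨?_, fun _ _ h => inv_injective h, fun z => hC.tw z.1 z.2.1 z.2.2, fun z w => ?_,
      fun _ => rfl⟩
    · intro z w h
      simp only [twG, Prod.mk.injEq] at h
      have h1 : z.1 = w.1 := inv_injective h.1
      rw [h1] at h
      exact Prod.ext h1 (Prod.ext (mul_right_cancel h.2.1) (mul_right_cancel h.2.2))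
    · have h := hC.tw (z⁻¹ * w).1 (z⁻¹ * w).2.1 (z⁻¹ * w).2.2
      have h2 := hC.cj (z.1 : Perm (Fin 5)) ((z⁻¹ * w).1)⁻¹ ((z⁻¹ * w).2.1 * ((z⁻¹ * w).1)⁻¹)
        ((z⁻¹ * w).2.2 * ((z⁻¹ * w).1)⁻¹)
      rw [h] at h2
      rw [cj_conj, cj_conj, cj_conj] at h2
      rw [← show f ((z⁻¹ * w).1, (z⁻¹ * w).2.1, (z⁻¹ * w).2.2) = f (z⁻¹ * w) from rfl, ← h2]
      congr 1
      simp only [twG, Prod.fst_mul, Prod.snd_mul, Prod.fst_inv, Prod.snd_inv, Prod.mk_mul_mk,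
        Prod.inv_mk]
      refine Prod.ext ?_ (Prod.ext ?_ ?_) <;> simp [mul_assoc]

/-- the general move -/
theorem mv_gen {f : Gam → ℕ} (hC : Col f) (σ : Perm (Fin 5)) (e d : ℕ) :
    Mv f (fun z => cjG σ (swG e (twG d z))) (fun a => cjA σ (inG d a)) :=
  (mv_cj hC σ).comp ((mv_sw hC e).comp (mv_tw hC d))

end TabM
end MP26f323
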