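import Pool.Agent.Lib.MP_26f323_al.TabD

/-!
MP_26f323_al, module TAB: unrolled sums over the cells of the class i in the table t.
-/

set_option autoImplicit false
set_option maxRecDepth 100000

namespace MP26f323
namespace TabM

open ZonM ClsM

noncomputable section

def E0 (_ _ : ℕ → ℕ) : ℕ := nat_lit 0

def E0_0 (V S : ℕ → ℕ) : ℕ := Nat.shiftLeft (nat_lit 1) (Nat.land (Nat.shiftRight (V (nat_lit 0)) (S (nat_lit 0))) (nat_lit 65535))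
def E1_0 (V S : ℕ → ℕ) : ℕ := Nat.add (Nat.add (Nat.add (Nat.add (Nat.add (Nat.shiftLeft (nat_lit 1) (Nat.land (Nat.shiftRight (V (nat_lit 0)) (S (nat_lit 1))) (nat_lit 65535))) (Nat.shiftLeft (nat_lit 1) (Nat.land (Nat.shiftRight (V (nat_lit 0)) (S (nat_lit 2))) (nat_lit 65535)))) (Nat.add (Nat.shiftLeft (nat_lit 1) (Nat.land (Nat.shiftRight (V (nat_lit 0)) (S (nat_lit 4))) (nat_lit 65535))) (Nat.add (Nat.shiftLeft (nat_lit 1) (Nat.land (Nat.shiftRight (V (nat_lit 0)) (S (nat_lit 5))) (nat_lit 65535))) (Nat.shiftLeft (nat_lit 1) (Nat.land (Nat.shiftRight (V (nat_lit 0)) (S (nat_lit 6))) (nat_lit 65535)))))) (Nat.add (Nat.add (Nat.shiftLeft (nat_lit 1) (Nat.land (Nat.shiftRight (V (nat_lit 0)) (S (nat_lit 7))) (nat_lit 65535))) (Nat.shiftLeft (nat_lit 1) (Nat.land (Nat.shiftRight (V (nat_lit 0)) (S (nat_lit 9))) (nat_lit 65535)))) (Nat.add (Nat.shiftLeft (nat_lit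 1) (Nat.land (Nat.shiftRight (V (nat_lit 0)) (S (nat_lit 10))) (nat_lit 65535))) (Nat.add (Nat.shiftLeft (nat_lit 1) (Nat.land (Nat.shiftRight (V (nat_lit 0)) (S (nat_lit 15))) (nat_lit 65535))) (Nat.shiftLeft (nat_lit 1) (Nat.land (Nat.shiftRight (V (nat_lit 0)) (S (nat_lit 19))) (nat_lit 65535))))))) (Nat.add (Nat.add (Nat.add (Nat.shiftLeft (nat_lit 1) (Nat.land (Nat.shiftRight (V (nat_lit 0)) (S (nat_lit 22))) (nat_lit 65535))) (Nat.shiftLeft (nat_lit 1) (Nat.land (Nat.shiftRight (V (nat_lit 0)) (S (nat_lit 24))) (nat_lit 65535)))) (Nat.add (Nat.shiftLeft (nat_lit 1) (Nat.land (Nat.shiftRight (V (nat_lit 0)) (S (nat_lit 28))) (nat_lit 65535))) (Nat.add (Nat.shiftLeft (nat_lit 1) (Nat.land (Nat.shiftRight (V (nat_lit 0)) (S (nat_lit 29))) (nat_lit 65535))) (Nat.shiftLeft (nat_lit 1) (Nat.land (Nat.shiftRight (V (nat_lit 0)) (S (nat_lit 37))) (nat_lit 65535))))))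 (Nat.add (Nat.add (Nat.shiftLeft (nat_lit 1) (Nat.land (Nat.shiftRight (V (nat_lit 0)) (S (nat_lit 39))) (nat_lit 65535))) (Nat.shiftLeft (nat_lit 1) (Nat.land (Nat.shiftRight (V (nat_lit 0)) (S (nat_lit 40))) (nat_lit 65535)))) (Nat.add (Nat.shiftLeft (nat_lit 1) (Nat.land (Nat.shiftRight (V (nat_lit 0)) (S (nat_lit 49))) (nat_lit 65535))) (Nat.add (Nat.shiftLeft (nat_lit 1) (Nat.land (Nat.shiftRight (V (nat_lit 0)) (S (nat_lit 51))) (nat_lit 65535))) (Nat.shiftLeft (nat_lit 1) (Nat.land (Nat.shiftRight (V (nat_lit 0)) (S (nat_lit 52))) (nat_lit 65535)))))))) (Nat.add (Nat.add (Nat.add (Nat.add (Nat.shiftLeft (nat_lit 1) (Nat.land (Nat.shiftRight (V (nat_lit 1)) (S (nat_lit 0))) (nat_lit 65535))) (Nat.shiftLeft (nat_lit 1) (Nat.land (Nat.shiftRight (V (nat_lit 2)) (S (nat_lit 0))) (nat_lit 65535)))) (Nat.add (Nat.shiftLeft (nat_lit 1) (Nat.land (Nat.shiftRight (V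 (nat_lit 4)) (S (nat_lit 0))) (nat_lit 65535))) (Nat.add (Nat.shiftLeft (nat_lit 1) (Nat.land (Nat.shiftRight (V (nat_lit 5)) (S (nat_lit 0))) (nat_lit 65535))) (Nat.shiftLeft (nat_lit 1) (Nat.land (Nat.shiftRight (V (nat_lit 6)) (S (nat_lit 0))) (nat_lit 65535)))))) (Nat.add (Nat.add (Nat.shiftLeft (nat_lit 1) (Nat.land (Nat.shiftRight (V (nat_lit 7)) (S (nat_lit 0))) (nat_lit 65535))) (Nat.shiftLeft (nat_lit 1) (Nat.land (Nat.shiftRight (V (nat_lit 9)) (S (nat_lit 0))) (nat_lit 65535)))) (Nat.add (Nat.shiftLeft (nat_lit 1) (Nat.land (Nat.shiftRight (V (nat_lit 10)) (S (nat_lit 0))) (nat_lit 65535))) (Nat.add (Nat.shiftLeft (nat_lit 1) (Nat.land (Nat.shiftRight (V (nat_lit 15)) (S (nat_lit 0))) (nat_lit 65535))) (Nat.shiftLeft (nat_lit 1) (Nat.land (Nat.shiftRight (V (nat_lit 19)) (S (nat_lit 0))) (nat_lit 65535))))))) (Nat.add (Nat.add (Nat.add (Nat.shiftLeft (nat_lit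 1) (Nat.land (Nat.shiftRight (V (nat_lit 22)) (S (nat_lit 0))) (nat_lit 65535))) (Nat.shiftLeft (nat_lit 1) (Nat.land (Nat.shiftRight (V (nat_lit 24)) (S (nat_lit 0))) (nat_lit 65535)))) (Nat.add (Nat.shiftLeft (nat_lit 1) (Nat.land (Nat.shiftRight (V (nat_lit 28)) (S (nat_lit 0))) (nat_lit 65535))) (Nat.add (Nat.shiftLeft (nat_lit 1) (Nat.land (Nat.shiftRight (V (nat_lit 29)) (S (nat_lit 0))) (nat_lit 65535))) (Nat.shiftLeft (nat_lit 1) (Nat.land (Nat.shiftRight (V (nat_lit 37)) (S (nat_lit 0))) (nat_lit 65535)))))) (Nat.add (Nat.add (Nat.shiftLeft (nat_lit 1) (Nat.land (Nat.shiftRight (V (nat_lit 39)) (S (nat_lit 0))) (nat_lit 65535))) (Nat.shiftLeft (nat_lit 1) (Nat.land (Nat.shiftRight (V (nat_lit 40)) (S (nat_lit 0))) (nat_lit 65535)))) (Nat.add (Nat.shiftLeft (nat_lit 1) (Nat.land (Nat.shiftRight (V (nat_lit 49)) (S (nat_lit 0))) (nat_lit 65535))) (Nat.add (Nat.shiftLeft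 (nat_lit 1) (Nat.land (Nat.shiftRight (V (nat_lit 51)) (S (nat_lit 0))) (nat_lit 65535))) (Nat.shiftLeft (nat_lit 1) (Nat.land (Nat.shiftRight (V (nat_lit 52)) (S (nat_lit 0))) (nat_lit 65535))))))))
def E2_0 (V S : ℕ → ℕ) : ℕ := Nat.add (Nat.add (Nat.add (Nat.add (Nat.shiftLeft (nat_lit 1) (Nat.land (Nat.shiftRight (V (nat_lit 0)) (S (nat_lit 3))) (nat_lit 65535))) (Nat.add (Nat.shiftLeft (nat_lit 1) (Nat.land (Nat.shiftRight (V (nat_lit 0)) (S (nat_lit 8))) (nat_lit 65535))) (Nat.shiftLeft (nat_lit 1) (Nat.land (Nat.shiftRight (V (nat_lit 0)) (S (nat_lit 11))) (nat_lit 65535))))) (Nat.add (Nat.add (Nat.shiftLeft (nat_lit 1) (Nat.land (Nat.shiftRight (V (nat_lit 0)) (S (nat_lit 12))) (nat_lit 65535))) (Nat.shiftLeft (nat_lit 1) (Nat.land (Nat.shiftRight (V (nat_lit 0)) (S (nat_lit 13))) (nat_lit 65535)))) (Nat.add (Nat.shiftLeft (nat_lit 1) (Nat.land (Nat.shiftRight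 (V (nat_lit 0)) (S (nat_lit 14))) (nat_lit 65535))) (Nat.shiftLeft (nat_lit 1) (Nat.land (Nat.shiftRight (V (nat_lit 0)) (S (nat_lit 27))) (nat_lit 65535)))))) (Nat.add (Nat.add (Nat.add (Nat.shiftLeft (nat_lit 1) (Nat.land (Nat.shiftRight (V (nat_lit 0)) (S (nat_lit 30))) (nat_lit 65535))) (Nat.shiftLeft (nat_lit 1) (Nat.land (Nat.shiftRight (V (nat_lit 0)) (S (nat_lit 33))) (nat_lit 65535)))) (Nat.add (Nat.shiftLeft (nat_lit 1) (Nat.land (Nat.shiftRight (V (nat_lit 0)) (S (nat_lit 41))) (nat_lit 65535))) (Nat.shiftLeft (nat_lit 1) (Nat.land (Nat.shiftRight (V (nat_lit 0)) (S (nat_lit 43))) (nat_lit 65535))))) (Nat.add (Nat.add (Nat.shiftLeft (nat_lit 1) (Nat.land (Nat.shiftRight (V (nat_lit 0)) (S (nat_lit 47))) (nat_lit 65535))) (Nat.shiftLeft (nat_lit 1) (Nat.land (Nat.shiftRight (V (nat_lit 0)) (S (nat_lit 53))) (nat_lit 65535)))) (Nat.add (Nat.shiftLeft (nat_lit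 1) (Nat.land (Nat.shiftRight (V (nat_lit 0)) (S (nat_lit 55))) (nat_lit 65535))) (Nat.shiftLeft (nat_lit 1) (Nat.land (Nat.shiftRight (V (nat_lit 0)) (S (nat_lit 59))) (nat_lit 65535))))))) (Nat.add (Nat.add (Nat.add (Nat.shiftLeft (nat_lit 1) (Nat.land (Nat.shiftRight (V (nat_lit 3)) (S (nat_lit 0))) (nat_lit 65535))) (Nat.add (Nat.shiftLeft (nat_lit 1) (Nat.land (Nat.shiftRight (V (nat_lit 8)) (S (nat_lit 0))) (nat_lit 65535))) (Nat.shiftLeft (nat_lit 1) (Nat.land (Nat.shiftRight (V (nat_lit 11)) (S (nat_lit 0))) (nat_lit 65535))))) (Nat.add (Nat.add (Nat.shiftLeft (nat_lit 1) (Nat.land (Nat.shiftRight (V (nat_lit 12)) (S (nat_lit 0))) (nat_lit 65535))) (Nat.shiftLeft (nat_lit 1) (Nat.land (Nat.shiftRight (V (nat_lit 13)) (S (nat_lit 0))) (nat_lit 65535)))) (Nat.add (Nat.shiftLeft (nat_lit 1) (Nat.land (Nat.shiftRight (V (nat_lit 14)) (S (nat_lit 0))) (nat_lit 65535)))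 (Nat.shiftLeft (nat_lit 1) (Nat.land (Nat.shiftRight (V (nat_lit 27)) (S (nat_lit 0))) (nat_lit 65535)))))) (Nat.add (Nat.add (Nat.add (Nat.shiftLeft (nat_lit 1) (Nat.land (Nat.shiftRight (V (nat_lit 30)) (S (nat_lit 0))) (nat_lit 65535))) (Nat.shiftLeft (nat_lit 1) (Nat.land (Nat.shiftRight (V (nat_lit 33)) (S (nat_lit 0))) (nat_lit 65535)))) (Nat.add (Nat.shiftLeft (nat_lit 1) (Nat.land (Nat.shiftRight (V (nat_lit 41)) (S (nat_lit 0))) (nat_lit 65535))) (Nat.shiftLeft (nat_lit 1) (Nat.land (Nat.shiftRight (V (nat_lit 43)) (S (nat_lit 0))) (nat_lit 65535))))) (Nat.add (Nat.add (Nat.shiftLeft (nat_lit 1) (Nat.land (Nat.shiftRight (V (nat_lit 47)) (S (nat_lit 0))) (nat_lit 65535))) (Nat.shiftLeft (nat_lit 1) (Nat.land (Nat.shiftRight (V (nat_lit 53)) (S (nat_lit 0))) (nat_lit 65535)))) (Nat.add (Nat.shiftLeft (nat_lit 1) (Nat.land (Nat.shiftRight (V (nat_lit 55)) (S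 (nat_lit 0))) (nat_lit 65535))) (Nat.shiftLeft (nat_lit 1) (Nat.land (Nat.shiftRight (V (nat_lit 59)) (S (nat_lit 0))) (nat_lit 65535)))))))
def E3_0 (V S : ℕ → ℕ) : ℕ := Nat.add (Nat.add (Nat.add (Nat.add (Nat.add (Nat.shiftLeft (nat_lit 1) (Nat.land (Nat.shiftRight (V (nat_lit 0)) (S (nat_lit 16))) (nat_lit 65535))) (Nat.add (Nat.shiftLeft (nat_lit 1) (Nat.land (Nat.shiftRight (V (nat_lit 0)) (S (nat_lit 17))) (nat_lit 65535))) (Nat.shiftLeft (nat_lit 1) (Nat.land (Nat.shiftRight (V (nat_lit 0)) (S (nat_lit 18))) (nat_lit 65535))))) (Nat.add (Nat.shiftLeft (nat_lit 1) (Nat.land (Nat.shiftRight (V (nat_lit 0)) (S (nat_lit 20))) (nat_lit 65535))) (Nat.add (Nat.shiftLeft (nat_lit 1) (Nat.land (Nat.shiftRight (V (nat_lit 0)) (S (nat_lit 21))) (nat_lit 65535))) (Nat.shiftLeft (nat_lit 1) (Nat.land (Nat.shiftRight (V (nat_lit 0)) (S (nat_lit 23))) (nat_lit 65535))))))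 (Nat.add (Nat.add (Nat.shiftLeft (nat_lit 1) (Nat.land (Nat.shiftRight (V (nat_lit 0)) (S (nat_lit 25))) (nat_lit 65535))) (Nat.add (Nat.shiftLeft (nat_lit 1) (Nat.land (Nat.shiftRight (V (nat_lit 0)) (S (nat_lit 26))) (nat_lit 65535))) (Nat.shiftLeft (nat_lit 1) (Nat.land (Nat.shiftRight (V (nat_lit 0)) (S (nat_lit 31))) (nat_lit 65535))))) (Nat.add (Nat.shiftLeft (nat_lit 1) (Nat.land (Nat.shiftRight (V (nat_lit 0)) (S (nat_lit 32))) (nat_lit 65535))) (Nat.add (Nat.shiftLeft (nat_lit 1) (Nat.land (Nat.shiftRight (V (nat_lit 0)) (S (nat_lit 34))) (nat_lit 65535))) (Nat.shiftLeft (nat_lit 1) (Nat.land (Nat.shiftRight (V (nat_lit 0)) (S (nat_lit 35))) (nat_lit 65535))))))) (Nat.add (Nat.add (Nat.add (Nat.shiftLeft (nat_lit 1) (Nat.land (Nat.shiftRight (V (nat_lit 0)) (S (nat_lit 36))) (nat_lit 65535))) (Nat.add (Nat.shiftLeft (nat_lit 1) (Nat.land (Nat.shiftRight (V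 (nat_lit 0)) (S (nat_lit 38))) (nat_lit 65535))) (Nat.shiftLeft (nat_lit 1) (Nat.land (Nat.shiftRight (V (nat_lit 0)) (S (nat_lit 42))) (nat_lit 65535))))) (Nat.add (Nat.shiftLeft (nat_lit 1) (Nat.land (Nat.shiftRight (V (nat_lit 0)) (S (nat_lit 44))) (nat_lit 65535))) (Nat.add (Nat.shiftLeft (nat_lit 1) (Nat.land (Nat.shiftRight (V (nat_lit 0)) (S (nat_lit 45))) (nat_lit 65535))) (Nat.shiftLeft (nat_lit 1) (Nat.land (Nat.shiftRight (V (nat_lit 0)) (S (nat_lit 46))) (nat_lit 65535)))))) (Nat.add (Nat.add (Nat.shiftLeft (nat_lit 1) (Nat.land (Nat.shiftRight (V (nat_lit 0)) (S (nat_lit 48))) (nat_lit 65535))) (Nat.add (Nat.shiftLeft (nat_lit 1) (Nat.land (Nat.shiftRight (V (nat_lit 0)) (S (nat_lit 50))) (nat_lit 65535))) (Nat.shiftLeft (nat_lit 1) (Nat.land (Nat.shiftRight (V (nat_lit 0)) (S (nat_lit 54))) (nat_lit 65535))))) (Nat.add (Nat.shiftLeft (nat_lit 1) (Nat.land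 (Nat.shiftRight (V (nat_lit 0)) (S (nat_lit 56))) (nat_lit 65535))) (Nat.add (Nat.shiftLeft (nat_lit 1) (Nat.land (Nat.shiftRight (V (nat_lit 0)) (S (nat_lit 57))) (nat_lit 65535))) (Nat.shiftLeft (nat_lit 1) (Nat.land (Nat.shiftRight (V (nat_lit 0)) (S (nat_lit 58))) (nat_lit 65535)))))))) (Nat.add (Nat.add (Nat.add (Nat.add (Nat.shiftLeft (nat_lit 1) (Nat.land (Nat.shiftRight (V (nat_lit 16)) (S (nat_lit 0))) (nat_lit 65535))) (Nat.add (Nat.shiftLeft (nat_lit 1) (Nat.land (Nat.shiftRight (V (nat_lit 17)) (S (nat_lit 0))) (nat_lit 65535))) (Nat.shiftLeft (nat_lit 1) (Nat.land (Nat.shiftRight (V (nat_lit 18)) (S (nat_lit 0))) (nat_lit 65535))))) (Nat.add (Nat.shiftLeft (nat_lit 1) (Nat.land (Nat.shiftRight (V (nat_lit 20)) (S (nat_lit 0))) (nat_lit 65535))) (Nat.add (Nat.shiftLeft (nat_lit 1) (Nat.land (Nat.shiftRight (V (nat_lit 21)) (S (nat_lit 0))) (nat_lit 65535)))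 (Nat.shiftLeft (nat_lit 1) (Nat.land (Nat.shiftRight (V (nat_lit 23)) (S (nat_lit 0))) (nat_lit 65535)))))) (Nat.add (Nat.add (Nat.shiftLeft (nat_lit 1) (Nat.land (Nat.shiftRight (V (nat_lit 25)) (S (nat_lit 0))) (nat_lit 65535))) (Nat.add (Nat.shiftLeft (nat_lit 1) (Nat.land (Nat.shiftRight (V (nat_lit 26)) (S (nat_lit 0))) (nat_lit 65535))) (Nat.shiftLeft (nat_lit 1) (Nat.land (Nat.shiftRight (V (nat_lit 31)) (S (nat_lit 0))) (nat_lit 65535))))) (Nat.add (Nat.shiftLeft (nat_lit 1) (Nat.land (Nat.shiftRight (V (nat_lit 32)) (S (nat_lit 0))) (nat_lit 65535))) (Nat.add (Nat.shiftLeft (nat_lit 1) (Nat.land (Nat.shiftRight (V (nat_lit 34)) (S (nat_lit 0))) (nat_lit 65535))) (Nat.shiftLeft (nat_lit 1) (Nat.land (Nat.shiftRight (V (nat_lit 35)) (S (nat_lit 0))) (nat_lit 65535))))))) (Nat.add (Nat.add (Nat.add (Nat.shiftLeft (nat_lit 1) (Nat.land (Nat.shiftRight (V (nat_lit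 36)) (S (nat_lit 0))) (nat_lit 65535))) (Nat.add (Nat.shiftLeft (nat_lit 1) (Nat.land (Nat.shiftRight (V (nat_lit 38)) (S (nat_lit 0))) (nat_lit 65535))) (Nat.shiftLeft (nat_lit 1) (Nat.land (Nat.shiftRight (V (nat_lit 42)) (S (nat_lit 0))) (nat_lit 65535))))) (Nat.add (Nat.shiftLeft (nat_lit 1) (Nat.land (Nat.shiftRight (V (nat_lit 44)) (S (nat_lit 0))) (nat_lit 65535))) (Nat.add (Nat.shiftLeft (nat_lit 1) (Nat.land (Nat.shiftRight (V (nat_lit 45)) (S (nat_lit 0))) (nat_lit 65535))) (Nat.shiftLeft (nat_lit 1) (Nat.land (Nat.shiftRight (V (nat_lit 46)) (S (nat_lit 0))) (nat_lit 65535)))))) (Nat.add (Nat.add (Nat.shiftLeft (nat_lit 1) (Nat.land (Nat.shiftRight (V (nat_lit 48)) (S (nat_lit 0))) (nat_lit 65535))) (Nat.add (Nat.shiftLeft (nat_lit 1) (Nat.land (Nat.shiftRight (V (nat_lit 50)) (S (nat_lit 0))) (nat_lit 65535))) (Nat.shiftLeft (nat_lit 1) (Nat.land (Nat.shiftRight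 (V (nat_lit 54)) (S (nat_lit 0))) (nat_lit 65535))))) (Nat.add (Nat.shiftLeft (nat_lit 1) (Nat.land (Nat.shiftRight (V (nat_lit 56)) (S (nat_lit 0))) (nat_lit 65535))) (Nat.add (Nat.shiftLeft (nat_lit 1) (Nat.land (Nat.shiftRight (V (nat_lit 57)) (S (nat_lit 0))) (nat_lit 65535))) (Nat.shiftLeft (nat_lit 1) (Nat.land (Nat.shiftRight (V (nat_lit 58)) (S (nat_lit 0))) (nat_lit 65535))))))))
def E4_0 (V S : ℕ → ℕ) : ℕ := Nat.add (Nat.add (Nat.add (Nat.add (Nat.shiftLeft (nat_lit 1) (Nat.land (Nat.shiftRight (V (nat_lit 1)) (S (nat_lit 1))) (nat_lit 65535))) (Nat.shiftLeft (nat_lit 1) (Nat.land (Nat.shiftRight (V (nat_lit 2)) (S (nat_lit 2))) (nat_lit 65535)))) (Nat.add (Nat.shiftLeft (nat_lit 1) (Nat.land (Nat.shiftRight (V (nat_lit 4)) (S (nat_lit 4))) (nat_lit 65535))) (Nat.add (Nat.shiftLeft (nat_lit 1) (Nat.land (Nat.shiftRight (V (nat_lit 5)) (S (nat_lit 5))) (nat_lit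 65535))) (Nat.shiftLeft (nat_lit 1) (Nat.land (Nat.shiftRight (V (nat_lit 6)) (S (nat_lit 6))) (nat_lit 65535)))))) (Nat.add (Nat.add (Nat.shiftLeft (nat_lit 1) (Nat.land (Nat.shiftRight (V (nat_lit 7)) (S (nat_lit 7))) (nat_lit 65535))) (Nat.shiftLeft (nat_lit 1) (Nat.land (Nat.shiftRight (V (nat_lit 9)) (S (nat_lit 9))) (nat_lit 65535)))) (Nat.add (Nat.shiftLeft (nat_lit 1) (Nat.land (Nat.shiftRight (V (nat_lit 10)) (S (nat_lit 10))) (nat_lit 65535))) (Nat.add (Nat.shiftLeft (nat_lit 1) (Nat.land (Nat.shiftRight (V (nat_lit 15)) (S (nat_lit 15))) (nat_lit 65535))) (Nat.shiftLeft (nat_lit 1) (Nat.land (Nat.shiftRight (V (nat_lit 19)) (S (nat_lit 19))) (nat_lit 65535))))))) (Nat.add (Nat.add (Nat.add (Nat.shiftLeft (nat_lit 1) (Nat.land (Nat.shiftRight (V (nat_lit 22)) (S (nat_lit 22))) (nat_lit 65535))) (Nat.shiftLeft (nat_lit 1) (Nat.land (Nat.shiftRight (V (nat_lit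 24)) (S (nat_lit 24))) (nat_lit 65535)))) (Nat.add (Nat.shiftLeft (nat_lit 1) (Nat.land (Nat.shiftRight (V (nat_lit 28)) (S (nat_lit 28))) (nat_lit 65535))) (Nat.add (Nat.shiftLeft (nat_lit 1) (Nat.land (Nat.shiftRight (V (nat_lit 29)) (S (nat_lit 29))) (nat_lit 65535))) (Nat.shiftLeft (nat_lit 1) (Nat.land (Nat.shiftRight (V (nat_lit 37)) (S (nat_lit 37))) (nat_lit 65535)))))) (Nat.add (Nat.add (Nat.shiftLeft (nat_lit 1) (Nat.land (Nat.shiftRight (V (nat_lit 39)) (S (nat_lit 39))) (nat_lit 65535))) (Nat.shiftLeft (nat_lit 1) (Nat.land (Nat.shiftRight (V (nat_lit 40)) (S (nat_lit 40))) (nat_lit 65535)))) (Nat.add (Nat.shiftLeft (nat_lit 1) (Nat.land (Nat.shiftRight (V (nat_lit 49)) (S (nat_lit 49))) (nat_lit 65535))) (Nat.add (Nat.shiftLeft (nat_lit 1) (Nat.land (Nat.shiftRight (V (nat_lit 51)) (S (nat_lit 51))) (nat_lit 65535))) (Nat.shiftLeft (nat_lit 1) (Nat.land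 (Nat.shiftRight (V (nat_lit 52)) (S (nat_lit 52))) (nat_lit 65535)))))))
def E5_0 (V S : ℕ → ℕ) : ℕ := Nat.add (Nat.add (Nat.add (Nat.add (Nat.shiftLeft (nat_lit 1) (Nat.land (Nat.shiftRight (V (nat_lit 1)) (S (nat_lit 2))) (nat_lit 65535))) (Nat.shiftLeft (nat_lit 1) (Nat.land (Nat.shiftRight (V (nat_lit 2)) (S (nat_lit 1))) (nat_lit 65535)))) (Nat.add (Nat.shiftLeft (nat_lit 1) (Nat.land (Nat.shiftRight (V (nat_lit 4)) (S (nat_lit 6))) (nat_lit 65535))) (Nat.add (Nat.shiftLeft (nat_lit 1) (Nat.land (Nat.shiftRight (V (nat_lit 5)) (S (nat_lit 9))) (nat_lit 65535))) (Nat.shiftLeft (nat_lit 1) (Nat.land (Nat.shiftRight (V (nat_lit 6)) (S (nat_lit 4))) (nat_lit 65535)))))) (Nat.add (Nat.add (Nat.shiftLeft (nat_lit 1) (Nat.land (Nat.shiftRight (V (nat_lit 7)) (S (nat_lit 10))) (nat_lit 65535))) (Nat.shiftLeft (nat_lit 1) (Nat.land (Nat.shiftRight (V (nat_lit 9)) (S (nat_lit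 5))) (nat_lit 65535)))) (Nat.add (Nat.shiftLeft (nat_lit 1) (Nat.land (Nat.shiftRight (V (nat_lit 10)) (S (nat_lit 7))) (nat_lit 65535))) (Nat.add (Nat.shiftLeft (nat_lit 1) (Nat.land (Nat.shiftRight (V (nat_lit 15)) (S (nat_lit 24))) (nat_lit 65535))) (Nat.shiftLeft (nat_lit 1) (Nat.land (Nat.shiftRight (V (nat_lit 19)) (S (nat_lit 37))) (nat_lit 65535))))))) (Nat.add (Nat.add (Nat.add (Nat.shiftLeft (nat_lit 1) (Nat.land (Nat.shiftRight (V (nat_lit 22)) (S (nat_lit 49))) (nat_lit 65535))) (Nat.shiftLeft (nat_lit 1) (Nat.land (Nat.shiftRight (V (nat_lit 24)) (S (nat_lit 15))) (nat_lit 65535)))) (Nat.add (Nat.shiftLeft (nat_lit 1) (Nat.land (Nat.shiftRight (V (nat_lit 28)) (S (nat_lit 39))) (nat_lit 65535))) (Nat.add (Nat.shiftLeft (nat_lit 1) (Nat.land (Nat.shiftRight (V (nat_lit 29)) (S (nat_lit 51))) (nat_lit 65535))) (Nat.shiftLeft (nat_lit 1) (Nat.land (Nat.shiftRight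 (V (nat_lit 37)) (S (nat_lit 19))) (nat_lit 65535)))))) (Nat.add (Nat.add (Nat.shiftLeft (nat_lit 1) (Nat.land (Nat.shiftRight (V (nat_lit 39)) (S (nat_lit 28))) (nat_lit 65535))) (Nat.shiftLeft (nat_lit 1) (Nat.land (Nat.shiftRight (V (nat_lit 40)) (S (nat_lit 52))) (nat_lit 65535)))) (Nat.add (Nat.shiftLeft (nat_lit 1) (Nat.land (Nat.shiftRight (V (nat_lit 49)) (S (nat_lit 22))) (nat_lit 65535))) (Nat.add (Nat.shiftLeft (nat_lit 1) (Nat.land (Nat.shiftRight (V (nat_lit 51)) (S (nat_lit 29))) (nat_lit 65535))) (Nat.shiftLeft (nat_lit 1) (Nat.land (Nat.shiftRight (V (nat_lit 52)) (S (nat_lit 40))) (nat_lit 65535)))))))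
def E6_0 (V S : ℕ → ℕ) : ℕ := Nat.add (Nat.add (Nat.add (Nat.add (Nat.add (Nat.add (Nat.add (Nat.shiftLeft (nat_lit 1) (Nat.land (Nat.shiftRight (V (nat_lit 1)) (S (nat_lit 3))) (nat_lit 65535))) (Nat.add (Nat.shiftLeft (nat_lit 1) (Nat.land (Nat.shiftRight (V (nat_lit 1)) (S (nat_lit 8))) (nat_lit 65535))) (Nat.shiftLeft (nat_lit 1) (Nat.land (Nat.shiftRight (V (nat_lit 1)) (S (nat_lit 11))) (nat_lit 65535))))) (Nat.add (Nat.add (Nat.shiftLeft (nat_lit 1) (Nat.land (Nat.shiftRight (V (nat_lit 1)) (S (nat_lit 27))) (nat_lit 65535))) (Nat.shiftLeft (nat_lit 1) (Nat.land (Nat.shiftRight (V (nat_lit 1)) (S (nat_lit 41))) (nat_lit 65535)))) (Nat.add (Nat.shiftLeft (nat_lit 1) (Nat.land (Nat.shiftRight (V (nat_lit 1)) (S (nat_lit 53))) (nat_lit 65535))) (Nat.shiftLeft (nat_lit 1) (Nat.land (Nat.shiftRight (V (nat_lit 2)) (S (nat_lit 3))) (nat_lit 65535)))))) (Nat.add (Nat.add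 (Nat.add (Nat.shiftLeft (nat_lit 1) (Nat.land (Nat.shiftRight (V (nat_lit 2)) (S (nat_lit 8))) (nat_lit 65535))) (Nat.shiftLeft (nat_lit 1) (Nat.land (Nat.shiftRight (V (nat_lit 2)) (S (nat_lit 11))) (nat_lit 65535)))) (Nat.add (Nat.shiftLeft (nat_lit 1) (Nat.land (Nat.shiftRight (V (nat_lit 2)) (S (nat_lit 27))) (nat_lit 65535))) (Nat.shiftLeft (nat_lit 1) (Nat.land (Nat.shiftRight (V (nat_lit 2)) (S (nat_lit 41))) (nat_lit 65535))))) (Nat.add (Nat.add (Nat.shiftLeft (nat_lit 1) (Nat.land (Nat.shiftRight (V (nat_lit 2)) (S (nat_lit 53))) (nat_lit 65535))) (Nat.shiftLeft (nat_lit 1) (Nat.land (Nat.shiftRight (V (nat_lit 3)) (S (nat_lit 1))) (nat_lit 65535)))) (Nat.add (Nat.shiftLeft (nat_lit 1) (Nat.land (Nat.shiftRight (V (nat_lit 3)) (S (nat_lit 2))) (nat_lit 65535))) (Nat.shiftLeft (nat_lit 1) (Nat.land (Nat.shiftRight (V (nat_lit 3)) (S (nat_lit 4))) (nat_lit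 65535))))))) (Nat.add (Nat.add (Nat.add (Nat.shiftLeft (nat_lit 1) (Nat.land (Nat.shiftRight (V (nat_lit 3)) (S (nat_lit 5))) (nat_lit 65535))) (Nat.add (Nat.shiftLeft (nat_lit 1) (Nat.land (Nat.shiftRight (V (nat_lit 3)) (S (nat_lit 6))) (nat_lit 65535))) (Nat.shiftLeft (nat_lit 1) (Nat.land (Nat.shiftRight (V (nat_lit 3)) (S (nat_lit 7))) (nat_lit 65535))))) (Nat.add (Nat.add (Nat.shiftLeft (nat_lit 1) (Nat.land (Nat.shiftRight (V (nat_lit 3)) (S (nat_lit 9))) (nat_lit 65535))) (Nat.shiftLeft (nat_lit 1) (Nat.land (Nat.shiftRight (V (nat_lit 3)) (S (nat_lit 10))) (nat_lit 65535)))) (Nat.add (Nat.shiftLeft (nat_lit 1) (Nat.land (Nat.shiftRight (V (nat_lit 4)) (S (nat_lit 3))) (nat_lit 65535))) (Nat.shiftLeft (nat_lit 1) (Nat.land (Nat.shiftRight (V (nat_lit 4)) (S (nat_lit 8))) (nat_lit 65535)))))) (Nat.add (Nat.add (Nat.add (Nat.shiftLeft (nat_lit 1) (Nat.land (Nat.shiftRight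 (V (nat_lit 4)) (S (nat_lit 11))) (nat_lit 65535))) (Nat.shiftLeft (nat_lit 1) (Nat.land (Nat.shiftRight (V (nat_lit 4)) (S (nat_lit 13))) (nat_lit 65535)))) (Nat.add (Nat.shiftLeft (nat_lit 1) (Nat.land (Nat.shiftRight (V (nat_lit 4)) (S (nat_lit 30))) (nat_lit 65535))) (Nat.shiftLeft (nat_lit 1) (Nat.land (Nat.shiftRight (V (nat_lit 4)) (S (nat_lit 43))) (nat_lit 65535))))) (Nat.add (Nat.add (Nat.shiftLeft (nat_lit 1) (Nat.land (Nat.shiftRight (V (nat_lit 5)) (S (nat_lit 3))) (nat_lit 65535))) (Nat.shiftLeft (nat_lit 1) (Nat.land (Nat.shiftRight (V (nat_lit 5)) (S (nat_lit 8))) (nat_lit 65535)))) (Nat.add (Nat.shiftLeft (nat_lit 1) (Nat.land (Nat.shiftRight (V (nat_lit 5)) (S (nat_lit 11))) (nat_lit 65535))) (Nat.shiftLeft (nat_lit 1) (Nat.land (Nat.shiftRight (V (nat_lit 5)) (S (nat_lit 14))) (nat_lit 65535)))))))) (Nat.add (Nat.add (Nat.add (Nat.add (Nat.shiftLeft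 (nat_lit 1) (Nat.land (Nat.shiftRight (V (nat_lit 5)) (S (nat_lit 33))) (nat_lit 65535))) (Nat.add (Nat.shiftLeft (nat_lit 1) (Nat.land (Nat.shiftRight (V (nat_lit 5)) (S (nat_lit 55))) (nat_lit 65535))) (Nat.shiftLeft (nat_lit 1) (Nat.land (Nat.shiftRight (V (nat_lit 6)) (S (nat_lit 3))) (nat_lit 65535))))) (Nat.add (Nat.add (Nat.shiftLeft (nat_lit 1) (Nat.land (Nat.shiftRight (V (nat_lit 6)) (S (nat_lit 8))) (nat_lit 65535))) (Nat.shiftLeft (nat_lit 1) (Nat.land (Nat.shiftRight (V (nat_lit 6)) (S (nat_lit 11))) (nat_lit 65535)))) (Nat.add (Nat.shiftLeft (nat_lit 1) (Nat.land (Nat.shiftRight (V (nat_lit 6)) (S (nat_lit 13))) (nat_lit 65535))) (Nat.shiftLeft (nat_lit 1) (Nat.land (Nat.shiftRight (V (nat_lit 6)) (S (nat_lit 30))) (nat_lit 65535)))))) (Nat.add (Nat.add (Nat.add (Nat.shiftLeft (nat_lit 1) (Nat.land (Nat.shiftRight (V (nat_lit 6)) (S (nat_lit 43))) (nat_lit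 65535))) (Nat.shiftLeft (nat_lit 1) (Nat.land (Nat.shiftRight (V (nat_lit 7)) (S (nat_lit 3))) (nat_lit 65535)))) (Nat.add (Nat.shiftLeft (nat_lit 1) (Nat.land (Nat.shiftRight (V (nat_lit 7)) (S (nat_lit 8))) (nat_lit 65535))) (Nat.shiftLeft (nat_lit 1) (Nat.land (Nat.shiftRight (V (nat_lit 7)) (S (nat_lit 11))) (nat_lit 65535))))) (Nat.add (Nat.add (Nat.shiftLeft (nat_lit 1) (Nat.land (Nat.shiftRight (V (nat_lit 7)) (S (nat_lit 12))) (nat_lit 65535))) (Nat.shiftLeft (nat_lit 1) (Nat.land (Nat.shiftRight (V (nat_lit 7)) (S (nat_lit 47))) (nat_lit 65535)))) (Nat.add (Nat.shiftLeft (nat_lit 1) (Nat.land (Nat.shiftRight (V (nat_lit 7)) (S (nat_lit 59))) (nat_lit 65535))) (Nat.shiftLeft (nat_lit 1) (Nat.land (Nat.shiftRight (V (nat_lit 8)) (S (nat_lit 1))) (nat_lit 65535))))))) (Nat.add (Nat.add (Nat.add (Nat.shiftLeft (nat_lit 1) (Nat.land (Nat.shiftRight (V (nat_lit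 8)) (S (nat_lit 2))) (nat_lit 65535))) (Nat.add (Nat.shiftLeft (nat_lit 1) (Nat.land (Nat.shiftRight (V (nat_lit 8)) (S (nat_lit 4))) (nat_lit 65535))) (Nat.shiftLeft (nat_lit 1) (Nat.land (Nat.shiftRight (V (nat_lit 8)) (S (nat_lit 5))) (nat_lit 65535))))) (Nat.add (Nat.add (Nat.shiftLeft (nat_lit 1) (Nat.land (Nat.shiftRight (V (nat_lit 8)) (S (nat_lit 6))) (nat_lit 65535))) (Nat.shiftLeft (nat_lit 1) (Nat.land (Nat.shiftRight (V (nat_lit 8)) (S (nat_lit 7))) (nat_lit 65535)))) (Nat.add (Nat.shiftLeft (nat_lit 1) (Nat.land (Nat.shiftRight (V (nat_lit 8)) (S (nat_lit 9))) (nat_lit 65535))) (Nat.shiftLeft (nat_lit 1) (Nat.land (Nat.shiftRight (V (nat_lit 8)) (S (nat_lit 10))) (nat_lit 65535)))))) (Nat.add (Nat.add (Nat.add (Nat.shiftLeft (nat_lit 1) (Nat.land (Nat.shiftRight (V (nat_lit 9)) (S (nat_lit 3))) (nat_lit 65535))) (Nat.shiftLeft (nat_lit 1) (Nat.land (Nat.shiftRight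 (V (nat_lit 9)) (S (nat_lit 8))) (nat_lit 65535)))) (Nat.add (Nat.shiftLeft (nat_lit 1) (Nat.land (Nat.shiftRight (V (nat_lit 9)) (S (nat_lit 11))) (nat_lit 65535))) (Nat.shiftLeft (nat_lit 1) (Nat.land (Nat.shiftRight (V (nat_lit 9)) (S (nat_lit 14))) (nat_lit 65535))))) (Nat.add (Nat.add (Nat.shiftLeft (nat_lit 1) (Nat.land (Nat.shiftRight (V (nat_lit 9)) (S (nat_lit 33))) (nat_lit 65535))) (Nat.shiftLeft (nat_lit 1) (Nat.land (Nat.shiftRight (V (nat_lit 9)) (S (nat_lit 55))) (nat_lit 65535)))) (Nat.add (Nat.shiftLeft (nat_lit 1) (Nat.land (Nat.shiftRight (V (nat_lit 10)) (S (nat_lit 3))) (nat_lit 65535))) (Nat.shiftLeft (nat_lit 1) (Nat.land (Nat.shiftRight (V (nat_lit 10)) (S (nat_lit 8))) (nat_lit 65535))))))))) (Nat.add (Nat.add (Nat.add (Nat.add (Nat.add (Nat.shiftLeft (nat_lit 1) (Nat.land (Nat.shiftRight (V (nat_lit 10)) (S (nat_lit 11))) (nat_lit 65535)))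 (Nat.add (Nat.shiftLeft (nat_lit 1) (Nat.land (Nat.shiftRight (V (nat_lit 10)) (S (nat_lit 12))) (nat_lit 65535))) (Nat.shiftLeft (nat_lit 1) (Nat.land (Nat.shiftRight (V (nat_lit 10)) (S (nat_lit 47))) (nat_lit 65535))))) (Nat.add (Nat.add (Nat.shiftLeft (nat_lit 1) (Nat.land (Nat.shiftRight (V (nat_lit 10)) (S (nat_lit 59))) (nat_lit 65535))) (Nat.shiftLeft (nat_lit 1) (Nat.land (Nat.shiftRight (V (nat_lit 11)) (S (nat_lit 1))) (nat_lit 65535)))) (Nat.add (Nat.shiftLeft (nat_lit 1) (Nat.land (Nat.shiftRight (V (nat_lit 11)) (S (nat_lit 2))) (nat_lit 65535))) (Nat.shiftLeft (nat_lit 1) (Nat.land (Nat.shiftRight (V (nat_lit 11)) (S (nat_lit 4))) (nat_lit 65535)))))) (Nat.add (Nat.add (Nat.add (Nat.shiftLeft (nat_lit 1) (Nat.land (Nat.shiftRight (V (nat_lit 11)) (S (nat_lit 5))) (nat_lit 65535))) (Nat.shiftLeft (nat_lit 1) (Nat.land (Nat.shiftRight (V (nat_lit 11))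 (S (nat_lit 6))) (nat_lit 65535)))) (Nat.add (Nat.shiftLeft (nat_lit 1) (Nat.land (Nat.shiftRight (V (nat_lit 11)) (S (nat_lit 7))) (nat_lit 65535))) (Nat.shiftLeft (nat_lit 1) (Nat.land (Nat.shiftRight (V (nat_lit 11)) (S (nat_lit 9))) (nat_lit 65535))))) (Nat.add (Nat.add (Nat.shiftLeft (nat_lit 1) (Nat.land (Nat.shiftRight (V (nat_lit 11)) (S (nat_lit 10))) (nat_lit 65535))) (Nat.shiftLeft (nat_lit 1) (Nat.land (Nat.shiftRight (V (nat_lit 12)) (S (nat_lit 7))) (nat_lit 65535)))) (Nat.add (Nat.shiftLeft (nat_lit 1) (Nat.land (Nat.shiftRight (V (nat_lit 12)) (S (nat_lit 10))) (nat_lit 65535))) (Nat.shiftLeft (nat_lit 1) (Nat.land (Nat.shiftRight (V (nat_lit 12)) (S (nat_lit 19))) (nat_lit 65535))))))) (Nat.add (Nat.add (Nat.add (Nat.shiftLeft (nat_lit 1) (Nat.land (Nat.shiftRight (V (nat_lit 12)) (S (nat_lit 22))) (nat_lit 65535))) (Nat.add (Nat.shiftLeft (nat_lit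 1) (Nat.land (Nat.shiftRight (V (nat_lit 12)) (S (nat_lit 37))) (nat_lit 65535))) (Nat.shiftLeft (nat_lit 1) (Nat.land (Nat.shiftRight (V (nat_lit 12)) (S (nat_lit 40))) (nat_lit 65535))))) (Nat.add (Nat.add (Nat.shiftLeft (nat_lit 1) (Nat.land (Nat.shiftRight (V (nat_lit 12)) (S (nat_lit 49))) (nat_lit 65535))) (Nat.shiftLeft (nat_lit 1) (Nat.land (Nat.shiftRight (V (nat_lit 12)) (S (nat_lit 52))) (nat_lit 65535)))) (Nat.add (Nat.shiftLeft (nat_lit 1) (Nat.land (Nat.shiftRight (V (nat_lit 13)) (S (nat_lit 4))) (nat_lit 65535))) (Nat.shiftLeft (nat_lit 1) (Nat.land (Nat.shiftRight (V (nat_lit 13)) (S (nat_lit 6))) (nat_lit 65535)))))) (Nat.add (Nat.add (Nat.add (Nat.shiftLeft (nat_lit 1) (Nat.land (Nat.shiftRight (V (nat_lit 13)) (S (nat_lit 15))) (nat_lit 65535))) (Nat.shiftLeft (nat_lit 1) (Nat.land (Nat.shiftRight (V (nat_lit 13)) (S (nat_lit 19))) (nat_lit 65535))))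 (Nat.add (Nat.shiftLeft (nat_lit 1) (Nat.land (Nat.shiftRight (V (nat_lit 13)) (S (nat_lit 24))) (nat_lit 65535))) (Nat.shiftLeft (nat_lit 1) (Nat.land (Nat.shiftRight (V (nat_lit 13)) (S (nat_lit 28))) (nat_lit 65535))))) (Nat.add (Nat.add (Nat.shiftLeft (nat_lit 1) (Nat.land (Nat.shiftRight (V (nat_lit 13)) (S (nat_lit 37))) (nat_lit 65535))) (Nat.shiftLeft (nat_lit 1) (Nat.land (Nat.shiftRight (V (nat_lit 13)) (S (nat_lit 39))) (nat_lit 65535)))) (Nat.add (Nat.shiftLeft (nat_lit 1) (Nat.land (Nat.shiftRight (V (nat_lit 14)) (S (nat_lit 5))) (nat_lit 65535))) (Nat.shiftLeft (nat_lit 1) (Nat.land (Nat.shiftRight (V (nat_lit 14)) (S (nat_lit 9))) (nat_lit 65535)))))))) (Nat.add (Nat.add (Nat.add (Nat.add (Nat.shiftLeft (nat_lit 1) (Nat.land (Nat.shiftRight (V (nat_lit 14)) (S (nat_lit 15))) (nat_lit 65535))) (Nat.add (Nat.shiftLeft (nat_lit 1) (Nat.land (Nat.shiftRight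 (V (nat_lit 14)) (S (nat_lit 22))) (nat_lit 65535))) (Nat.shiftLeft (nat_lit 1) (Nat.land (Nat.shiftRight (V (nat_lit 14)) (S (nat_lit 24))) (nat_lit 65535))))) (Nat.add (Nat.add (Nat.shiftLeft (nat_lit 1) (Nat.land (Nat.shiftRight (V (nat_lit 14)) (S (nat_lit 29))) (nat_lit 65535))) (Nat.shiftLeft (nat_lit 1) (Nat.land (Nat.shiftRight (V (nat_lit 14)) (S (nat_lit 49))) (nat_lit 65535)))) (Nat.add (Nat.shiftLeft (nat_lit 1) (Nat.land (Nat.shiftRight (V (nat_lit 14)) (S (nat_lit 51))) (nat_lit 65535))) (Nat.shiftLeft (nat_lit 1) (Nat.land (Nat.shiftRight (V (nat_lit 15)) (S (nat_lit 13))) (nat_lit 65535)))))) (Nat.add (Nat.add (Nat.add (Nat.shiftLeft (nat_lit 1) (Nat.land (Nat.shiftRight (V (nat_lit 15)) (S (nat_lit 14))) (nat_lit 65535))) (Nat.shiftLeft (nat_lit 1) (Nat.land (Nat.shiftRight (V (nat_lit 15)) (S (nat_lit 30))) (nat_lit 65535)))) (Nat.add (Nat.shiftLeft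 (nat_lit 1) (Nat.land (Nat.shiftRight (V (nat_lit 15)) (S (nat_lit 33))) (nat_lit 65535))) (Nat.shiftLeft (nat_lit 1) (Nat.land (Nat.shiftRight (V (nat_lit 15)) (S (nat_lit 43))) (nat_lit 65535))))) (Nat.add (Nat.add (Nat.shiftLeft (nat_lit 1) (Nat.land (Nat.shiftRight (V (nat_lit 15)) (S (nat_lit 55))) (nat_lit 65535))) (Nat.shiftLeft (nat_lit 1) (Nat.land (Nat.shiftRight (V (nat_lit 19)) (S (nat_lit 12))) (nat_lit 65535)))) (Nat.add (Nat.shiftLeft (nat_lit 1) (Nat.land (Nat.shiftRight (V (nat_lit 19)) (S (nat_lit 13))) (nat_lit 65535))) (Nat.shiftLeft (nat_lit 1) (Nat.land (Nat.shiftRight (V (nat_lit 19)) (S (nat_lit 30))) (nat_lit 65535))))))) (Nat.add (Nat.add (Nat.add (Nat.shiftLeft (nat_lit 1) (Nat.land (Nat.shiftRight (V (nat_lit 19)) (S (nat_lit 43))) (nat_lit 65535))) (Nat.add (Nat.shiftLeft (nat_lit 1) (Nat.land (Nat.shiftRight (V (nat_lit 19)) (S (nat_lit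 47))) (nat_lit 65535))) (Nat.shiftLeft (nat_lit 1) (Nat.land (Nat.shiftRight (V (nat_lit 19)) (S (nat_lit 59))) (nat_lit 65535))))) (Nat.add (Nat.add (Nat.shiftLeft (nat_lit 1) (Nat.land (Nat.shiftRight (V (nat_lit 22)) (S (nat_lit 12))) (nat_lit 65535))) (Nat.shiftLeft (nat_lit 1) (Nat.land (Nat.shiftRight (V (nat_lit 22)) (S (nat_lit 14))) (nat_lit 65535)))) (Nat.add (Nat.shiftLeft (nat_lit 1) (Nat.land (Nat.shiftRight (V (nat_lit 22)) (S (nat_lit 33))) (nat_lit 65535))) (Nat.shiftLeft (nat_lit 1) (Nat.land (Nat.shiftRight (V (nat_lit 22)) (S (nat_lit 47))) (nat_lit 65535)))))) (Nat.add (Nat.add (Nat.add (Nat.shiftLeft (nat_lit 1) (Nat.land (Nat.shiftRight (V (nat_lit 22)) (S (nat_lit 55))) (nat_lit 65535))) (Nat.shiftLeft (nat_lit 1) (Nat.land (Nat.shiftRight (V (nat_lit 22)) (S (nat_lit 59))) (nat_lit 65535)))) (Nat.add (Nat.shiftLeft (nat_lit 1) (Nat.land (Nat.shiftRight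 (V (nat_lit 24)) (S (nat_lit 13))) (nat_lit 65535))) (Nat.shiftLeft (nat_lit 1) (Nat.land (Nat.shiftRight (V (nat_lit 24)) (S (nat_lit 14))) (nat_lit 65535))))) (Nat.add (Nat.add (Nat.shiftLeft (nat_lit 1) (Nat.land (Nat.shiftRight (V (nat_lit 24)) (S (nat_lit 30))) (nat_lit 65535))) (Nat.shiftLeft (nat_lit 1) (Nat.land (Nat.shiftRight (V (nat_lit 24)) (S (nat_lit 33))) (nat_lit 65535)))) (Nat.add (Nat.shiftLeft (nat_lit 1) (Nat.land (Nat.shiftRight (V (nat_lit 24)) (S (nat_lit 43))) (nat_lit 65535))) (Nat.shiftLeft (nat_lit 1) (Nat.land (Nat.shiftRight (V (nat_lit 24)) (S (nat_lit 55))) (nat_lit 65535)))))))))) (Nat.add (Nat.add (Nat.add (Nat.add (Nat.add (Nat.add (Nat.shiftLeft (nat_lit 1) (Nat.land (Nat.shiftRight (V (nat_lit 27)) (S (nat_lit 1))) (nat_lit 65535))) (Nat.add (Nat.shiftLeft (nat_lit 1) (Nat.land (Nat.shiftRight (V (nat_lit 27)) (S (nat_lit 2))) (nat_lit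 65535))) (Nat.shiftLeft (nat_lit 1) (Nat.land (Nat.shiftRight (V (nat_lit 27)) (S (nat_lit 28))) (nat_lit 65535))))) (Nat.add (Nat.add (Nat.shiftLeft (nat_lit 1) (Nat.land (Nat.shiftRight (V (nat_lit 27)) (S (nat_lit 29))) (nat_lit 65535))) (Nat.shiftLeft (nat_lit 1) (Nat.land (Nat.shiftRight (V (nat_lit 27)) (S (nat_lit 39))) (nat_lit 65535)))) (Nat.add (Nat.shiftLeft (nat_lit 1) (Nat.land (Nat.shiftRight (V (nat_lit 27)) (S (nat_lit 40))) (nat_lit 65535))) (Nat.shiftLeft (nat_lit 1) (Nat.land (Nat.shiftRight (V (nat_lit 27)) (S (nat_lit 51))) (nat_lit 65535)))))) (Nat.add (Nat.add (Nat.add (Nat.shiftLeft (nat_lit 1) (Nat.land (Nat.shiftRight (V (nat_lit 27)) (S (nat_lit 52))) (nat_lit 65535))) (Nat.shiftLeft (nat_lit 1) (Nat.land (Nat.shiftRight (V (nat_lit 28)) (S (nat_lit 13))) (nat_lit 65535)))) (Nat.add (Nat.shiftLeft (nat_lit 1) (Nat.land (Nat.shiftRight (V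 (nat_lit 28)) (S (nat_lit 27))) (nat_lit 65535))) (Nat.shiftLeft (nat_lit 1) (Nat.land (Nat.shiftRight (V (nat_lit 28)) (S (nat_lit 30))) (nat_lit 65535))))) (Nat.add (Nat.add (Nat.shiftLeft (nat_lit 1) (Nat.land (Nat.shiftRight (V (nat_lit 28)) (S (nat_lit 41))) (nat_lit 65535))) (Nat.shiftLeft (nat_lit 1) (Nat.land (Nat.shiftRight (V (nat_lit 28)) (S (nat_lit 43))) (nat_lit 65535)))) (Nat.add (Nat.shiftLeft (nat_lit 1) (Nat.land (Nat.shiftRight (V (nat_lit 28)) (S (nat_lit 53))) (nat_lit 65535))) (Nat.shiftLeft (nat_lit 1) (Nat.land (Nat.shiftRight (V (nat_lit 29)) (S (nat_lit 14))) (nat_lit 65535))))))) (Nat.add (Nat.add (Nat.add (Nat.shiftLeft (nat_lit 1) (Nat.land (Nat.shiftRight (V (nat_lit 29)) (S (nat_lit 27))) (nat_lit 65535))) (Nat.add (Nat.shiftLeft (nat_lit 1) (Nat.land (Nat.shiftRight (V (nat_lit 29)) (S (nat_lit 33))) (nat_lit 65535))) (Nat.shiftLeft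 (nat_lit 1) (Nat.land (Nat.shiftRight (V (nat_lit 29)) (S (nat_lit 41))) (nat_lit 65535))))) (Nat.add (Nat.add (Nat.shiftLeft (nat_lit 1) (Nat.land (Nat.shiftRight (V (nat_lit 29)) (S (nat_lit 53))) (nat_lit 65535))) (Nat.shiftLeft (nat_lit 1) (Nat.land (Nat.shiftRight (V (nat_lit 29)) (S (nat_lit 55))) (nat_lit 65535)))) (Nat.add (Nat.shiftLeft (nat_lit 1) (Nat.land (Nat.shiftRight (V (nat_lit 30)) (S (nat_lit 4))) (nat_lit 65535))) (Nat.shiftLeft (nat_lit 1) (Nat.land (Nat.shiftRight (V (nat_lit 30)) (S (nat_lit 6))) (nat_lit 65535)))))) (Nat.add (Nat.add (Nat.add (Nat.shiftLeft (nat_lit 1) (Nat.land (Nat.shiftRight (V (nat_lit 30)) (S (nat_lit 15))) (nat_lit 65535))) (Nat.shiftLeft (nat_lit 1) (Nat.land (Nat.shiftRight (V (nat_lit 30)) (S (nat_lit 19))) (nat_lit 65535)))) (Nat.add (Nat.shiftLeft (nat_lit 1) (Nat.land (Nat.shiftRight (V (nat_lit 30)) (S (nat_lit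 24))) (nat_lit 65535))) (Nat.shiftLeft (nat_lit 1) (Nat.land (Nat.shiftRight (V (nat_lit 30)) (S (nat_lit 28))) (nat_lit 65535))))) (Nat.add (Nat.add (Nat.shiftLeft (nat_lit 1) (Nat.land (Nat.shiftRight (V (nat_lit 30)) (S (nat_lit 37))) (nat_lit 65535))) (Nat.shiftLeft (nat_lit 1) (Nat.land (Nat.shiftRight (V (nat_lit 30)) (S (nat_lit 39))) (nat_lit 65535)))) (Nat.add (Nat.shiftLeft (nat_lit 1) (Nat.land (Nat.shiftRight (V (nat_lit 33)) (S (nat_lit 5))) (nat_lit 65535))) (Nat.shiftLeft (nat_lit 1) (Nat.land (Nat.shiftRight (V (nat_lit 33)) (S (nat_lit 9))) (nat_lit 65535)))))))) (Nat.add (Nat.add (Nat.add (Nat.add (Nat.shiftLeft (nat_lit 1) (Nat.land (Nat.shiftRight (V (nat_lit 33)) (S (nat_lit 15))) (nat_lit 65535))) (Nat.add (Nat.shiftLeft (nat_lit 1) (Nat.land (Nat.shiftRight (V (nat_lit 33)) (S (nat_lit 22))) (nat_lit 65535))) (Nat.shiftLeft (nat_lit 1) (Nat.land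 (Nat.shiftRight (V (nat_lit 33)) (S (nat_lit 24))) (nat_lit 65535))))) (Nat.add (Nat.add (Nat.shiftLeft (nat_lit 1) (Nat.land (Nat.shiftRight (V (nat_lit 33)) (S (nat_lit 29))) (nat_lit 65535))) (Nat.shiftLeft (nat_lit 1) (Nat.land (Nat.shiftRight (V (nat_lit 33)) (S (nat_lit 49))) (nat_lit 65535)))) (Nat.add (Nat.shiftLeft (nat_lit 1) (Nat.land (Nat.shiftRight (V (nat_lit 33)) (S (nat_lit 51))) (nat_lit 65535))) (Nat.shiftLeft (nat_lit 1) (Nat.land (Nat.shiftRight (V (nat_lit 37)) (S (nat_lit 12))) (nat_lit 65535)))))) (Nat.add (Nat.add (Nat.add (Nat.shiftLeft (nat_lit 1) (Nat.land (Nat.shiftRight (V (nat_lit 37)) (S (nat_lit 13))) (nat_lit 65535))) (Nat.shiftLeft (nat_lit 1) (Nat.land (Nat.shiftRight (V (nat_lit 37)) (S (nat_lit 30))) (nat_lit 65535)))) (Nat.add (Nat.shiftLeft (nat_lit 1) (Nat.land (Nat.shiftRight (V (nat_lit 37)) (S (nat_lit 43))) (nat_lit 65535)))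 (Nat.shiftLeft (nat_lit 1) (Nat.land (Nat.shiftRight (V (nat_lit 37)) (S (nat_lit 47))) (nat_lit 65535))))) (Nat.add (Nat.add (Nat.shiftLeft (nat_lit 1) (Nat.land (Nat.shiftRight (V (nat_lit 37)) (S (nat_lit 59))) (nat_lit 65535))) (Nat.shiftLeft (nat_lit 1) (Nat.land (Nat.shiftRight (V (nat_lit 39)) (S (nat_lit 13))) (nat_lit 65535)))) (Nat.add (Nat.shiftLeft (nat_lit 1) (Nat.land (Nat.shiftRight (V (nat_lit 39)) (S (nat_lit 27))) (nat_lit 65535))) (Nat.shiftLeft (nat_lit 1) (Nat.land (Nat.shiftRight (V (nat_lit 39)) (S (nat_lit 30))) (nat_lit 65535))))))) (Nat.add (Nat.add (Nat.add (Nat.shiftLeft (nat_lit 1) (Nat.land (Nat.shiftRight (V (nat_lit 39)) (S (nat_lit 41))) (nat_lit 65535))) (Nat.add (Nat.shiftLeft (nat_lit 1) (Nat.land (Nat.shiftRight (V (nat_lit 39)) (S (nat_lit 43))) (nat_lit 65535))) (Nat.shiftLeft (nat_lit 1) (Nat.land (Nat.shiftRight (V (nat_lit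 39)) (S (nat_lit 53))) (nat_lit 65535))))) (Nat.add (Nat.add (Nat.shiftLeft (nat_lit 1) (Nat.land (Nat.shiftRight (V (nat_lit 40)) (S (nat_lit 12))) (nat_lit 65535))) (Nat.shiftLeft (nat_lit 1) (Nat.land (Nat.shiftRight (V (nat_lit 40)) (S (nat_lit 27))) (nat_lit 65535)))) (Nat.add (Nat.shiftLeft (nat_lit 1) (Nat.land (Nat.shiftRight (V (nat_lit 40)) (S (nat_lit 41))) (nat_lit 65535))) (Nat.shiftLeft (nat_lit 1) (Nat.land (Nat.shiftRight (V (nat_lit 40)) (S (nat_lit 47))) (nat_lit 65535)))))) (Nat.add (Nat.add (Nat.add (Nat.shiftLeft (nat_lit 1) (Nat.land (Nat.shiftRight (V (nat_lit 40)) (S (nat_lit 53))) (nat_lit 65535))) (Nat.shiftLeft (nat_lit 1) (Nat.land (Nat.shiftRight (V (nat_lit 40)) (S (nat_lit 59))) (nat_lit 65535)))) (Nat.add (Nat.shiftLeft (nat_lit 1) (Nat.land (Nat.shiftRight (V (nat_lit 41)) (S (nat_lit 1))) (nat_lit 65535))) (Nat.shiftLeft (nat_lit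 1) (Nat.land (Nat.shiftRight (V (nat_lit 41)) (S (nat_lit 2))) (nat_lit 65535))))) (Nat.add (Nat.add (Nat.shiftLeft (nat_lit 1) (Nat.land (Nat.shiftRight (V (nat_lit 41)) (S (nat_lit 28))) (nat_lit 65535))) (Nat.shiftLeft (nat_lit 1) (Nat.land (Nat.shiftRight (V (nat_lit 41)) (S (nat_lit 29))) (nat_lit 65535)))) (Nat.add (Nat.shiftLeft (nat_lit 1) (Nat.land (Nat.shiftRight (V (nat_lit 41)) (S (nat_lit 39))) (nat_lit 65535))) (Nat.shiftLeft (nat_lit 1) (Nat.land (Nat.shiftRight (V (nat_lit 41)) (S (nat_lit 40))) (nat_lit 65535))))))))) (Nat.add (Nat.add (Nat.add (Nat.add (Nat.add (Nat.shiftLeft (nat_lit 1) (Nat.land (Nat.shiftRight (V (nat_lit 41)) (S (nat_lit 51))) (nat_lit 65535))) (Nat.add (Nat.shiftLeft (nat_lit 1) (Nat.land (Nat.shiftRight (V (nat_lit 41)) (S (nat_lit 52))) (nat_lit 65535))) (Nat.shiftLeft (nat_lit 1) (Nat.land (Nat.shiftRight (V (nat_lit 43))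 (S (nat_lit 4))) (nat_lit 65535))))) (Nat.add (Nat.add (Nat.shiftLeft (nat_lit 1) (Nat.land (Nat.shiftRight (V (nat_lit 43)) (S (nat_lit 6))) (nat_lit 65535))) (Nat.shiftLeft (nat_lit 1) (Nat.land (Nat.shiftRight (V (nat_lit 43)) (S (nat_lit 15))) (nat_lit 65535)))) (Nat.add (Nat.shiftLeft (nat_lit 1) (Nat.land (Nat.shiftRight (V (nat_lit 43)) (S (nat_lit 19))) (nat_lit 65535))) (Nat.shiftLeft (nat_lit 1) (Nat.land (Nat.shiftRight (V (nat_lit 43)) (S (nat_lit 24))) (nat_lit 65535)))))) (Nat.add (Nat.add (Nat.add (Nat.shiftLeft (nat_lit 1) (Nat.land (Nat.shiftRight (V (nat_lit 43)) (S (nat_lit 28))) (nat_lit 65535))) (Nat.shiftLeft (nat_lit 1) (Nat.land (Nat.shiftRight (V (nat_lit 43)) (S (nat_lit 37))) (nat_lit 65535)))) (Nat.add (Nat.shiftLeft (nat_lit 1) (Nat.land (Nat.shiftRight (V (nat_lit 43)) (S (nat_lit 39))) (nat_lit 65535))) (Nat.shiftLeft (nat_lit 1) (Nat.land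 (Nat.shiftRight (V (nat_lit 47)) (S (nat_lit 7))) (nat_lit 65535))))) (Nat.add (Nat.add (Nat.shiftLeft (nat_lit 1) (Nat.land (Nat.shiftRight (V (nat_lit 47)) (S (nat_lit 10))) (nat_lit 65535))) (Nat.shiftLeft (nat_lit 1) (Nat.land (Nat.shiftRight (V (nat_lit 47)) (S (nat_lit 19))) (nat_lit 65535)))) (Nat.add (Nat.shiftLeft (nat_lit 1) (Nat.land (Nat.shiftRight (V (nat_lit 47)) (S (nat_lit 22))) (nat_lit 65535))) (Nat.shiftLeft (nat_lit 1) (Nat.land (Nat.shiftRight (V (nat_lit 47)) (S (nat_lit 37))) (nat_lit 65535))))))) (Nat.add (Nat.add (Nat.add (Nat.shiftLeft (nat_lit 1) (Nat.land (Nat.shiftRight (V (nat_lit 47)) (S (nat_lit 40))) (nat_lit 65535))) (Nat.add (Nat.shiftLeft (nat_lit 1) (Nat.land (Nat.shiftRight (V (nat_lit 47)) (S (nat_lit 49))) (nat_lit 65535))) (Nat.shiftLeft (nat_lit 1) (Nat.land (Nat.shiftRight (V (nat_lit 47)) (S (nat_lit 52))) (nat_lit 65535)))))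 (Nat.add (Nat.add (Nat.shiftLeft (nat_lit 1) (Nat.land (Nat.shiftRight (V (nat_lit 49)) (S (nat_lit 12))) (nat_lit 65535))) (Nat.shiftLeft (nat_lit 1) (Nat.land (Nat.shiftRight (V (nat_lit 49)) (S (nat_lit 14))) (nat_lit 65535)))) (Nat.add (Nat.shiftLeft (nat_lit 1) (Nat.land (Nat.shiftRight (V (nat_lit 49)) (S (nat_lit 33))) (nat_lit 65535))) (Nat.shiftLeft (nat_lit 1) (Nat.land (Nat.shiftRight (V (nat_lit 49)) (S (nat_lit 47))) (nat_lit 65535)))))) (Nat.add (Nat.add (Nat.add (Nat.shiftLeft (nat_lit 1) (Nat.land (Nat.shiftRight (V (nat_lit 49)) (S (nat_lit 55))) (nat_lit 65535))) (Nat.shiftLeft (nat_lit 1) (Nat.land (Nat.shiftRight (V (nat_lit 49)) (S (nat_lit 59))) (nat_lit 65535)))) (Nat.add (Nat.shiftLeft (nat_lit 1) (Nat.land (Nat.shiftRight (V (nat_lit 51)) (S (nat_lit 14))) (nat_lit 65535))) (Nat.shiftLeft (nat_lit 1) (Nat.land (Nat.shiftRight (V (nat_lit 51))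 (S (nat_lit 27))) (nat_lit 65535))))) (Nat.add (Nat.add (Nat.shiftLeft (nat_lit 1) (Nat.land (Nat.shiftRight (V (nat_lit 51)) (S (nat_lit 33))) (nat_lit 65535))) (Nat.shiftLeft (nat_lit 1) (Nat.land (Nat.shiftRight (V (nat_lit 51)) (S (nat_lit 41))) (nat_lit 65535)))) (Nat.add (Nat.shiftLeft (nat_lit 1) (Nat.land (Nat.shiftRight (V (nat_lit 51)) (S (nat_lit 53))) (nat_lit 65535))) (Nat.shiftLeft (nat_lit 1) (Nat.land (Nat.shiftRight (V (nat_lit 51)) (S (nat_lit 55))) (nat_lit 65535)))))))) (Nat.add (Nat.add (Nat.add (Nat.add (Nat.shiftLeft (nat_lit 1) (Nat.land (Nat.shiftRight (V (nat_lit 52)) (S (nat_lit 12))) (nat_lit 65535))) (Nat.add (Nat.shiftLeft (nat_lit 1) (Nat.land (Nat.shiftRight (V (nat_lit 52)) (S (nat_lit 27))) (nat_lit 65535))) (Nat.shiftLeft (nat_lit 1) (Nat.land (Nat.shiftRight (V (nat_lit 52)) (S (nat_lit 41))) (nat_lit 65535))))) (Nat.add (Nat.add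 (Nat.shiftLeft (nat_lit 1) (Nat.land (Nat.shiftRight (V (nat_lit 52)) (S (nat_lit 47))) (nat_lit 65535))) (Nat.shiftLeft (nat_lit 1) (Nat.land (Nat.shiftRight (V (nat_lit 52)) (S (nat_lit 53))) (nat_lit 65535)))) (Nat.add (Nat.shiftLeft (nat_lit 1) (Nat.land (Nat.shiftRight (V (nat_lit 52)) (S (nat_lit 59))) (nat_lit 65535))) (Nat.shiftLeft (nat_lit 1) (Nat.land (Nat.shiftRight (V (nat_lit 53)) (S (nat_lit 1))) (nat_lit 65535)))))) (Nat.add (Nat.add (Nat.add (Nat.shiftLeft (nat_lit 1) (Nat.land (Nat.shiftRight (V (nat_lit 53)) (S (nat_lit 2))) (nat_lit 65535))) (Nat.shiftLeft (nat_lit 1) (Nat.land (Nat.shiftRight (V (nat_lit 53)) (S (nat_lit 28))) (nat_lit 65535)))) (Nat.add (Nat.shiftLeft (nat_lit 1) (Nat.land (Nat.shiftRight (V (nat_lit 53)) (S (nat_lit 29))) (nat_lit 65535))) (Nat.shiftLeft (nat_lit 1) (Nat.land (Nat.shiftRight (V (nat_lit 53)) (S (nat_lit 39)))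 (nat_lit 65535))))) (Nat.add (Nat.add (Nat.shiftLeft (nat_lit 1) (Nat.land (Nat.shiftRight (V (nat_lit 53)) (S (nat_lit 40))) (nat_lit 65535))) (Nat.shiftLeft (nat_lit 1) (Nat.land (Nat.shiftRight (V (nat_lit 53)) (S (nat_lit 51))) (nat_lit 65535)))) (Nat.add (Nat.shiftLeft (nat_lit 1) (Nat.land (Nat.shiftRight (V (nat_lit 53)) (S (nat_lit 52))) (nat_lit 65535))) (Nat.shiftLeft (nat_lit 1) (Nat.land (Nat.shiftRight (V (nat_lit 55)) (S (nat_lit 5))) (nat_lit 65535))))))) (Nat.add (Nat.add (Nat.add (Nat.shiftLeft (nat_lit 1) (Nat.land (Nat.shiftRight (V (nat_lit 55)) (S (nat_lit 9))) (nat_lit 65535))) (Nat.add (Nat.shiftLeft (nat_lit 1) (Nat.land (Nat.shiftRight (V (nat_lit 55)) (S (nat_lit 15))) (nat_lit 65535))) (Nat.shiftLeft (nat_lit 1) (Nat.land (Nat.shiftRight (V (nat_lit 55)) (S (nat_lit 22))) (nat_lit 65535))))) (Nat.add (Nat.add (Nat.shiftLeft (nat_lit 1) (Nat.land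 (Nat.shiftRight (V (nat_lit 55)) (S (nat_lit 24))) (nat_lit 65535))) (Nat.shiftLeft (nat_lit 1) (Nat.land (Nat.shiftRight (V (nat_lit 55)) (S (nat_lit 29))) (nat_lit 65535)))) (Nat.add (Nat.shiftLeft (nat_lit 1) (Nat.land (Nat.shiftRight (V (nat_lit 55)) (S (nat_lit 49))) (nat_lit 65535))) (Nat.shiftLeft (nat_lit 1) (Nat.land (Nat.shiftRight (V (nat_lit 55)) (S (nat_lit 51))) (nat_lit 65535)))))) (Nat.add (Nat.add (Nat.add (Nat.shiftLeft (nat_lit 1) (Nat.land (Nat.shiftRight (V (nat_lit 59)) (S (nat_lit 7))) (nat_lit 65535))) (Nat.shiftLeft (nat_lit 1) (Nat.land (Nat.shiftRight (V (nat_lit 59)) (S (nat_lit 10))) (nat_lit 65535)))) (Nat.add (Nat.shiftLeft (nat_lit 1) (Nat.land (Nat.shiftRight (V (nat_lit 59)) (S (nat_lit 19))) (nat_lit 65535))) (Nat.shiftLeft (nat_lit 1) (Nat.land (Nat.shiftRight (V (nat_lit 59)) (S (nat_lit 22))) (nat_lit 65535))))) (Nat.add (Nat.add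 (Nat.shiftLeft (nat_lit 1) (Nat.land (Nat.shiftRight (V (nat_lit 59)) (S (nat_lit 37))) (nat_lit 65535))) (Nat.shiftLeft (nat_lit 1) (Nat.land (Nat.shiftRight (V (nat_lit 59)) (S (nat_lit 40))) (nat_lit 65535)))) (Nat.add (Nat.shiftLeft (nat_lit 1) (Nat.land (Nat.shiftRight (V (nat_lit 59)) (S (nat_lit 49))) (nat_lit 65535))) (Nat.shiftLeft (nat_lit 1) (Nat.land (Nat.shiftRight (V (nat_lit 59)) (S (nat_lit 52))) (nat_lit 65535))))))))))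
def E7_0 (V S : ℕ → ℕ) : ℕ := Nat.add (Nat.add (Nat.add (Nat.add (Nat.add (Nat.add (Nat.shiftLeft (nat_lit 1) (Nat.land (Nat.shiftRight (V (nat_lit 1)) (S (nat_lit 4))) (nat_lit 65535))) (Nat.add (Nat.shiftLeft (nat_lit 1) (Nat.land (Nat.shiftRight (V (nat_lit 1)) (S (nat_lit 7))) (nat_lit 65535))) (Nat.shiftLeft (nat_lit 1) (Nat.land (Nat.shiftRight (V (nat_lit 1)) (S (nat_lit 9))) (nat_lit 65535))))) (Nat.add (Nat.add (Nat.shiftLeft (nat_lit 1) (Nat.land (Nat.shiftRight (V (nat_lit 1)) (S (nat_lit 28))) (nat_lit 65535))) (Nat.shiftLeft (nat_lit 1) (Nat.land (Nat.shiftRight (V (nat_lit 1)) (S (nat_lit 40))) (nat_lit 65535)))) (Nat.add (Nat.shiftLeft (nat_lit 1) (Nat.land (Nat.shiftRight (V (nat_lit 1)) (S (nat_lit 51))) (nat_lit 65535))) (Nat.shiftLeft (nat_lit 1) (Nat.land (Nat.shiftRight (V (nat_lit 2)) (S (nat_lit 5))) (nat_lit 65535)))))) (Nat.add (Nat.add (Nat.add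 (Nat.shiftLeft (nat_lit 1) (Nat.land (Nat.shiftRight (V (nat_lit 2)) (S (nat_lit 6))) (nat_lit 65535))) (Nat.shiftLeft (nat_lit 1) (Nat.land (Nat.shiftRight (V (nat_lit 2)) (S (nat_lit 10))) (nat_lit 65535)))) (Nat.add (Nat.shiftLeft (nat_lit 1) (Nat.land (Nat.shiftRight (V (nat_lit 2)) (S (nat_lit 29))) (nat_lit 65535))) (Nat.shiftLeft (nat_lit 1) (Nat.land (Nat.shiftRight (V (nat_lit 2)) (S (nat_lit 39))) (nat_lit 65535))))) (Nat.add (Nat.add (Nat.shiftLeft (nat_lit 1) (Nat.land (Nat.shiftRight (V (nat_lit 2)) (S (nat_lit 52))) (nat_lit 65535))) (Nat.shiftLeft (nat_lit 1) (Nat.land (Nat.shiftRight (V (nat_lit 4)) (S (nat_lit 1))) (nat_lit 65535)))) (Nat.add (Nat.shiftLeft (nat_lit 1) (Nat.land (Nat.shiftRight (V (nat_lit 4)) (S (nat_lit 5))) (nat_lit 65535))) (Nat.shiftLeft (nat_lit 1) (Nat.land (Nat.shiftRight (V (nat_lit 4)) (S (nat_lit 10))) (nat_lit 65535)))))))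 (Nat.add (Nat.add (Nat.add (Nat.shiftLeft (nat_lit 1) (Nat.land (Nat.shiftRight (V (nat_lit 4)) (S (nat_lit 15))) (nat_lit 65535))) (Nat.add (Nat.shiftLeft (nat_lit 1) (Nat.land (Nat.shiftRight (V (nat_lit 4)) (S (nat_lit 28))) (nat_lit 65535))) (Nat.shiftLeft (nat_lit 1) (Nat.land (Nat.shiftRight (V (nat_lit 4)) (S (nat_lit 37))) (nat_lit 65535))))) (Nat.add (Nat.add (Nat.shiftLeft (nat_lit 1) (Nat.land (Nat.shiftRight (V (nat_lit 5)) (S (nat_lit 2))) (nat_lit 65535))) (Nat.shiftLeft (nat_lit 1) (Nat.land (Nat.shiftRight (V (nat_lit 5)) (S (nat_lit 4))) (nat_lit 65535)))) (Nat.add (Nat.shiftLeft (nat_lit 1) (Nat.land (Nat.shiftRight (V (nat_lit 5)) (S (nat_lit 7))) (nat_lit 65535))) (Nat.shiftLeft (nat_lit 1) (Nat.land (Nat.shiftRight (V (nat_lit 5)) (S (nat_lit 15))) (nat_lit 65535)))))) (Nat.add (Nat.add (Nat.add (Nat.shiftLeft (nat_lit 1) (Nat.land (Nat.shiftRight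 (V (nat_lit 5)) (S (nat_lit 29))) (nat_lit 65535))) (Nat.shiftLeft (nat_lit 1) (Nat.land (Nat.shiftRight (V (nat_lit 5)) (S (nat_lit 49))) (nat_lit 65535)))) (Nat.add (Nat.shiftLeft (nat_lit 1) (Nat.land (Nat.shiftRight (V (nat_lit 6)) (S (nat_lit 2))) (nat_lit 65535))) (Nat.shiftLeft (nat_lit 1) (Nat.land (Nat.shiftRight (V (nat_lit 6)) (S (nat_lit 7))) (nat_lit 65535))))) (Nat.add (Nat.add (Nat.shiftLeft (nat_lit 1) (Nat.land (Nat.shiftRight (V (nat_lit 6)) (S (nat_lit 9))) (nat_lit 65535))) (Nat.shiftLeft (nat_lit 1) (Nat.land (Nat.shiftRight (V (nat_lit 6)) (S (nat_lit 19))) (nat_lit 65535)))) (Nat.add (Nat.shiftLeft (nat_lit 1) (Nat.land (Nat.shiftRight (V (nat_lit 6)) (S (nat_lit 24))) (nat_lit 65535))) (Nat.shiftLeft (nat_lit 1) (Nat.land (Nat.shiftRight (V (nat_lit 6)) (S (nat_lit 39))) (nat_lit 65535)))))))) (Nat.add (Nat.add (Nat.add (Nat.add (Nat.shiftLeft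 (nat_lit 1) (Nat.land (Nat.shiftRight (V (nat_lit 7)) (S (nat_lit 1))) (nat_lit 65535))) (Nat.add (Nat.shiftLeft (nat_lit 1) (Nat.land (Nat.shiftRight (V (nat_lit 7)) (S (nat_lit 5))) (nat_lit 65535))) (Nat.shiftLeft (nat_lit 1) (Nat.land (Nat.shiftRight (V (nat_lit 7)) (S (nat_lit 6))) (nat_lit 65535))))) (Nat.add (Nat.add (Nat.shiftLeft (nat_lit 1) (Nat.land (Nat.shiftRight (V (nat_lit 7)) (S (nat_lit 19))) (nat_lit 65535))) (Nat.shiftLeft (nat_lit 1) (Nat.land (Nat.shiftRight (V (nat_lit 7)) (S (nat_lit 40))) (nat_lit 65535)))) (Nat.add (Nat.shiftLeft (nat_lit 1) (Nat.land (Nat.shiftRight (V (nat_lit 7)) (S (nat_lit 49))) (nat_lit 65535))) (Nat.shiftLeft (nat_lit 1) (Nat.land (Nat.shiftRight (V (nat_lit 9)) (S (nat_lit 1))) (nat_lit 65535)))))) (Nat.add (Nat.add (Nat.add (Nat.shiftLeft (nat_lit 1) (Nat.land (Nat.shiftRight (V (nat_lit 9)) (S (nat_lit 6))) (nat_lit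 65535))) (Nat.shiftLeft (nat_lit 1) (Nat.land (Nat.shiftRight (V (nat_lit 9)) (S (nat_lit 10))) (nat_lit 65535)))) (Nat.add (Nat.shiftLeft (nat_lit 1) (Nat.land (Nat.shiftRight (V (nat_lit 9)) (S (nat_lit 22))) (nat_lit 65535))) (Nat.shiftLeft (nat_lit 1) (Nat.land (Nat.shiftRight (V (nat_lit 9)) (S (nat_lit 24))) (nat_lit 65535))))) (Nat.add (Nat.add (Nat.shiftLeft (nat_lit 1) (Nat.land (Nat.shiftRight (V (nat_lit 9)) (S (nat_lit 51))) (nat_lit 65535))) (Nat.shiftLeft (nat_lit 1) (Nat.land (Nat.shiftRight (V (nat_lit 10)) (S (nat_lit 2))) (nat_lit 65535)))) (Nat.add (Nat.shiftLeft (nat_lit 1) (Nat.land (Nat.shiftRight (V (nat_lit 10)) (S (nat_lit 4))) (nat_lit 65535))) (Nat.shiftLeft (nat_lit 1) (Nat.land (Nat.shiftRight (V (nat_lit 10)) (S (nat_lit 9))) (nat_lit 65535))))))) (Nat.add (Nat.add (Nat.add (Nat.shiftLeft (nat_lit 1) (Nat.land (Nat.shiftRight (V (nat_lit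 10)) (S (nat_lit 22))) (nat_lit 65535))) (Nat.add (Nat.shiftLeft (nat_lit 1) (Nat.land (Nat.shiftRight (V (nat_lit 10)) (S (nat_lit 37))) (nat_lit 65535))) (Nat.shiftLeft (nat_lit 1) (Nat.land (Nat.shiftRight (V (nat_lit 10)) (S (nat_lit 52))) (nat_lit 65535))))) (Nat.add (Nat.add (Nat.shiftLeft (nat_lit 1) (Nat.land (Nat.shiftRight (V (nat_lit 15)) (S (nat_lit 4))) (nat_lit 65535))) (Nat.shiftLeft (nat_lit 1) (Nat.land (Nat.shiftRight (V (nat_lit 15)) (S (nat_lit 5))) (nat_lit 65535)))) (Nat.add (Nat.shiftLeft (nat_lit 1) (Nat.land (Nat.shiftRight (V (nat_lit 15)) (S (nat_lit 19))) (nat_lit 65535))) (Nat.shiftLeft (nat_lit 1) (Nat.land (Nat.shiftRight (V (nat_lit 15)) (S (nat_lit 22))) (nat_lit 65535)))))) (Nat.add (Nat.add (Nat.add (Nat.shiftLeft (nat_lit 1) (Nat.land (Nat.shiftRight (V (nat_lit 15)) (S (nat_lit 39))) (nat_lit 65535))) (Nat.shiftLeft (nat_lit 1)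 (Nat.land (Nat.shiftRight (V (nat_lit 15)) (S (nat_lit 51))) (nat_lit 65535)))) (Nat.add (Nat.shiftLeft (nat_lit 1) (Nat.land (Nat.shiftRight (V (nat_lit 19)) (S (nat_lit 6))) (nat_lit 65535))) (Nat.shiftLeft (nat_lit 1) (Nat.land (Nat.shiftRight (V (nat_lit 19)) (S (nat_lit 7))) (nat_lit 65535))))) (Nat.add (Nat.add (Nat.shiftLeft (nat_lit 1) (Nat.land (Nat.shiftRight (V (nat_lit 19)) (S (nat_lit 15))) (nat_lit 65535))) (Nat.shiftLeft (nat_lit 1) (Nat.land (Nat.shiftRight (V (nat_lit 19)) (S (nat_lit 22))) (nat_lit 65535)))) (Nat.add (Nat.shiftLeft (nat_lit 1) (Nat.land (Nat.shiftRight (V (nat_lit 19)) (S (nat_lit 28))) (nat_lit 65535))) (Nat.shiftLeft (nat_lit 1) (Nat.land (Nat.shiftRight (V (nat_lit 19)) (S (nat_lit 52))) (nat_lit 65535))))))))) (Nat.add (Nat.add (Nat.add (Nat.add (Nat.add (Nat.shiftLeft (nat_lit 1) (Nat.land (Nat.shiftRight (V (nat_lit 22)) (S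 (nat_lit 9))) (nat_lit 65535))) (Nat.add (Nat.shiftLeft (nat_lit 1) (Nat.land (Nat.shiftRight (V (nat_lit 22)) (S (nat_lit 10))) (nat_lit 65535))) (Nat.shiftLeft (nat_lit 1) (Nat.land (Nat.shiftRight (V (nat_lit 22)) (S (nat_lit 15))) (nat_lit 65535))))) (Nat.add (Nat.add (Nat.shiftLeft (nat_lit 1) (Nat.land (Nat.shiftRight (V (nat_lit 22)) (S (nat_lit 19))) (nat_lit 65535))) (Nat.shiftLeft (nat_lit 1) (Nat.land (Nat.shiftRight (V (nat_lit 22)) (S (nat_lit 29))) (nat_lit 65535)))) (Nat.add (Nat.shiftLeft (nat_lit 1) (Nat.land (Nat.shiftRight (V (nat_lit 22)) (S (nat_lit 40))) (nat_lit 65535))) (Nat.shiftLeft (nat_lit 1) (Nat.land (Nat.shiftRight (V (nat_lit 24)) (S (nat_lit 6))) (nat_lit 65535)))))) (Nat.add (Nat.add (Nat.add (Nat.shiftLeft (nat_lit 1) (Nat.land (Nat.shiftRight (V (nat_lit 24)) (S (nat_lit 9))) (nat_lit 65535))) (Nat.shiftLeft (nat_lit 1) (Nat.land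 (Nat.shiftRight (V (nat_lit 24)) (S (nat_lit 28))) (nat_lit 65535)))) (Nat.add (Nat.shiftLeft (nat_lit 1) (Nat.land (Nat.shiftRight (V (nat_lit 24)) (S (nat_lit 29))) (nat_lit 65535))) (Nat.shiftLeft (nat_lit 1) (Nat.land (Nat.shiftRight (V (nat_lit 24)) (S (nat_lit 37))) (nat_lit 65535))))) (Nat.add (Nat.add (Nat.shiftLeft (nat_lit 1) (Nat.land (Nat.shiftRight (V (nat_lit 24)) (S (nat_lit 49))) (nat_lit 65535))) (Nat.shiftLeft (nat_lit 1) (Nat.land (Nat.shiftRight (V (nat_lit 28)) (S (nat_lit 1))) (nat_lit 65535)))) (Nat.add (Nat.shiftLeft (nat_lit 1) (Nat.land (Nat.shiftRight (V (nat_lit 28)) (S (nat_lit 4))) (nat_lit 65535))) (Nat.shiftLeft (nat_lit 1) (Nat.land (Nat.shiftRight (V (nat_lit 28)) (S (nat_lit 19))) (nat_lit 65535))))))) (Nat.add (Nat.add (Nat.add (Nat.shiftLeft (nat_lit 1) (Nat.land (Nat.shiftRight (V (nat_lit 28)) (S (nat_lit 24))) (nat_lit 65535)))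 (Nat.add (Nat.shiftLeft (nat_lit 1) (Nat.land (Nat.shiftRight (V (nat_lit 28)) (S (nat_lit 29))) (nat_lit 65535))) (Nat.shiftLeft (nat_lit 1) (Nat.land (Nat.shiftRight (V (nat_lit 28)) (S (nat_lit 52))) (nat_lit 65535))))) (Nat.add (Nat.add (Nat.shiftLeft (nat_lit 1) (Nat.land (Nat.shiftRight (V (nat_lit 29)) (S (nat_lit 2))) (nat_lit 65535))) (Nat.shiftLeft (nat_lit 1) (Nat.land (Nat.shiftRight (V (nat_lit 29)) (S (nat_lit 5))) (nat_lit 65535)))) (Nat.add (Nat.shiftLeft (nat_lit 1) (Nat.land (Nat.shiftRight (V (nat_lit 29)) (S (nat_lit 22))) (nat_lit 65535))) (Nat.shiftLeft (nat_lit 1) (Nat.land (Nat.shiftRight (V (nat_lit 29)) (S (nat_lit 24))) (nat_lit 65535)))))) (Nat.add (Nat.add (Nat.add (Nat.shiftLeft (nat_lit 1) (Nat.land (Nat.shiftRight (V (nat_lit 29)) (S (nat_lit 28))) (nat_lit 65535))) (Nat.shiftLeft (nat_lit 1) (Nat.land (Nat.shiftRight (V (nat_lit 29))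 (S (nat_lit 40))) (nat_lit 65535)))) (Nat.add (Nat.shiftLeft (nat_lit 1) (Nat.land (Nat.shiftRight (V (nat_lit 37)) (S (nat_lit 4))) (nat_lit 65535))) (Nat.shiftLeft (nat_lit 1) (Nat.land (Nat.shiftRight (V (nat_lit 37)) (S (nat_lit 10))) (nat_lit 65535))))) (Nat.add (Nat.add (Nat.shiftLeft (nat_lit 1) (Nat.land (Nat.shiftRight (V (nat_lit 37)) (S (nat_lit 24))) (nat_lit 65535))) (Nat.shiftLeft (nat_lit 1) (Nat.land (Nat.shiftRight (V (nat_lit 37)) (S (nat_lit 39))) (nat_lit 65535)))) (Nat.add (Nat.shiftLeft (nat_lit 1) (Nat.land (Nat.shiftRight (V (nat_lit 37)) (S (nat_lit 40))) (nat_lit 65535))) (Nat.shiftLeft (nat_lit 1) (Nat.land (Nat.shiftRight (V (nat_lit 37)) (S (nat_lit 49))) (nat_lit 65535)))))))) (Nat.add (Nat.add (Nat.add (Nat.add (Nat.shiftLeft (nat_lit 1) (Nat.land (Nat.shiftRight (V (nat_lit 39)) (S (nat_lit 2))) (nat_lit 65535))) (Nat.add (Nat.shiftLeft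 (nat_lit 1) (Nat.land (Nat.shiftRight (V (nat_lit 39)) (S (nat_lit 6))) (nat_lit 65535))) (Nat.shiftLeft (nat_lit 1) (Nat.land (Nat.shiftRight (V (nat_lit 39)) (S (nat_lit 15))) (nat_lit 65535))))) (Nat.add (Nat.add (Nat.shiftLeft (nat_lit 1) (Nat.land (Nat.shiftRight (V (nat_lit 39)) (S (nat_lit 37))) (nat_lit 65535))) (Nat.shiftLeft (nat_lit 1) (Nat.land (Nat.shiftRight (V (nat_lit 39)) (S (nat_lit 40))) (nat_lit 65535)))) (Nat.add (Nat.shiftLeft (nat_lit 1) (Nat.land (Nat.shiftRight (V (nat_lit 39)) (S (nat_lit 51))) (nat_lit 65535))) (Nat.shiftLeft (nat_lit 1) (Nat.land (Nat.shiftRight (V (nat_lit 40)) (S (nat_lit 1))) (nat_lit 65535)))))) (Nat.add (Nat.add (Nat.add (Nat.shiftLeft (nat_lit 1) (Nat.land (Nat.shiftRight (V (nat_lit 40)) (S (nat_lit 7))) (nat_lit 65535))) (Nat.shiftLeft (nat_lit 1) (Nat.land (Nat.shiftRight (V (nat_lit 40)) (S (nat_lit 22))) (nat_lit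 65535)))) (Nat.add (Nat.shiftLeft (nat_lit 1) (Nat.land (Nat.shiftRight (V (nat_lit 40)) (S (nat_lit 29))) (nat_lit 65535))) (Nat.shiftLeft (nat_lit 1) (Nat.land (Nat.shiftRight (V (nat_lit 40)) (S (nat_lit 37))) (nat_lit 65535))))) (Nat.add (Nat.add (Nat.shiftLeft (nat_lit 1) (Nat.land (Nat.shiftRight (V (nat_lit 40)) (S (nat_lit 39))) (nat_lit 65535))) (Nat.shiftLeft (nat_lit 1) (Nat.land (Nat.shiftRight (V (nat_lit 49)) (S (nat_lit 5))) (nat_lit 65535)))) (Nat.add (Nat.shiftLeft (nat_lit 1) (Nat.land (Nat.shiftRight (V (nat_lit 49)) (S (nat_lit 7))) (nat_lit 65535))) (Nat.shiftLeft (nat_lit 1) (Nat.land (Nat.shiftRight (V (nat_lit 49)) (S (nat_lit 24))) (nat_lit 65535))))))) (Nat.add (Nat.add (Nat.add (Nat.shiftLeft (nat_lit 1) (Nat.land (Nat.shiftRight (V (nat_lit 49)) (S (nat_lit 37))) (nat_lit 65535))) (Nat.add (Nat.shiftLeft (nat_lit 1) (Nat.land (Nat.shiftRight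 (V (nat_lit 49)) (S (nat_lit 51))) (nat_lit 65535))) (Nat.shiftLeft (nat_lit 1) (Nat.land (Nat.shiftRight (V (nat_lit 49)) (S (nat_lit 52))) (nat_lit 65535))))) (Nat.add (Nat.add (Nat.shiftLeft (nat_lit 1) (Nat.land (Nat.shiftRight (V (nat_lit 51)) (S (nat_lit 1))) (nat_lit 65535))) (Nat.shiftLeft (nat_lit 1) (Nat.land (Nat.shiftRight (V (nat_lit 51)) (S (nat_lit 9))) (nat_lit 65535)))) (Nat.add (Nat.shiftLeft (nat_lit 1) (Nat.land (Nat.shiftRight (V (nat_lit 51)) (S (nat_lit 15))) (nat_lit 65535))) (Nat.shiftLeft (nat_lit 1) (Nat.land (Nat.shiftRight (V (nat_lit 51)) (S (nat_lit 39))) (nat_lit 65535)))))) (Nat.add (Nat.add (Nat.add (Nat.shiftLeft (nat_lit 1) (Nat.land (Nat.shiftRight (V (nat_lit 51)) (S (nat_lit 49))) (nat_lit 65535))) (Nat.shiftLeft (nat_lit 1) (Nat.land (Nat.shiftRight (V (nat_lit 51)) (S (nat_lit 52))) (nat_lit 65535)))) (Nat.add (Nat.shiftLeft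 (nat_lit 1) (Nat.land (Nat.shiftRight (V (nat_lit 52)) (S (nat_lit 2))) (nat_lit 65535))) (Nat.shiftLeft (nat_lit 1) (Nat.land (Nat.shiftRight (V (nat_lit 52)) (S (nat_lit 10))) (nat_lit 65535))))) (Nat.add (Nat.add (Nat.shiftLeft (nat_lit 1) (Nat.land (Nat.shiftRight (V (nat_lit 52)) (S (nat_lit 19))) (nat_lit 65535))) (Nat.shiftLeft (nat_lit 1) (Nat.land (Nat.shiftRight (V (nat_lit 52)) (S (nat_lit 28))) (nat_lit 65535)))) (Nat.add (Nat.shiftLeft (nat_lit 1) (Nat.land (Nat.shiftRight (V (nat_lit 52)) (S (nat_lit 49))) (nat_lit 65535))) (Nat.shiftLeft (nat_lit 1) (Nat.land (Nat.shiftRight (V (nat_lit 52)) (S (nat_lit 51))) (nat_lit 65535)))))))))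
def E8_0 (V S : ℕ → ℕ) : ℕ := Nat.add (Nat.add (Nat.add (Nat.add (Nat.add (Nat.add (Nat.shiftLeft (nat_lit 1) (Nat.land (Nat.shiftRight (V (nat_lit 1)) (S (nat_lit 5))) (nat_lit 65535))) (Nat.add (Nat.shiftLeft (nat_lit 1) (Nat.land (Nat.shiftRight (V (nat_lit 1)) (S (nat_lit 6))) (nat_lit 65535))) (Nat.shiftLeft (nat_lit 1) (Nat.land (Nat.shiftRight (V (nat_lit 1)) (S (nat_lit 10))) (nat_lit 65535))))) (Nat.add (Nat.add (Nat.shiftLeft (nat_lit 1) (Nat.land (Nat.shiftRight (V (nat_lit 1)) (S (nat_lit 29))) (nat_lit 65535))) (Nat.shiftLeft (nat_lit 1) (Nat.land (Nat.shiftRight (V (nat_lit 1)) (S (nat_lit 39))) (nat_lit 65535)))) (Nat.add (Nat.shiftLeft (nat_lit 1) (Nat.land (Nat.shiftRight (V (nat_lit 1)) (S (nat_lit 52))) (nat_lit 65535))) (Nat.shiftLeft (nat_lit 1) (Nat.land (Nat.shiftRight (V (nat_lit 2)) (S (nat_lit 4))) (nat_lit 65535)))))) (Nat.add (Nat.add (Nat.add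 (Nat.shiftLeft (nat_lit 1) (Nat.land (Nat.shiftRight (V (nat_lit 2)) (S (nat_lit 7))) (nat_lit 65535))) (Nat.shiftLeft (nat_lit 1) (Nat.land (Nat.shiftRight (V (nat_lit 2)) (S (nat_lit 9))) (nat_lit 65535)))) (Nat.add (Nat.shiftLeft (nat_lit 1) (Nat.land (Nat.shiftRight (V (nat_lit 2)) (S (nat_lit 28))) (nat_lit 65535))) (Nat.shiftLeft (nat_lit 1) (Nat.land (Nat.shiftRight (V (nat_lit 2)) (S (nat_lit 40))) (nat_lit 65535))))) (Nat.add (Nat.add (Nat.shiftLeft (nat_lit 1) (Nat.land (Nat.shiftRight (V (nat_lit 2)) (S (nat_lit 51))) (nat_lit 65535))) (Nat.shiftLeft (nat_lit 1) (Nat.land (Nat.shiftRight (V (nat_lit 4)) (S (nat_lit 2))) (nat_lit 65535)))) (Nat.add (Nat.shiftLeft (nat_lit 1) (Nat.land (Nat.shiftRight (V (nat_lit 4)) (S (nat_lit 7))) (nat_lit 65535))) (Nat.shiftLeft (nat_lit 1) (Nat.land (Nat.shiftRight (V (nat_lit 4)) (S (nat_lit 9))) (nat_lit 65535)))))))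 (Nat.add (Nat.add (Nat.add (Nat.shiftLeft (nat_lit 1) (Nat.land (Nat.shiftRight (V (nat_lit 4)) (S (nat_lit 19))) (nat_lit 65535))) (Nat.add (Nat.shiftLeft (nat_lit 1) (Nat.land (Nat.shiftRight (V (nat_lit 4)) (S (nat_lit 24))) (nat_lit 65535))) (Nat.shiftLeft (nat_lit 1) (Nat.land (Nat.shiftRight (V (nat_lit 4)) (S (nat_lit 39))) (nat_lit 65535))))) (Nat.add (Nat.add (Nat.shiftLeft (nat_lit 1) (Nat.land (Nat.shiftRight (V (nat_lit 5)) (S (nat_lit 1))) (nat_lit 65535))) (Nat.shiftLeft (nat_lit 1) (Nat.land (Nat.shiftRight (V (nat_lit 5)) (S (nat_lit 6))) (nat_lit 65535)))) (Nat.add (Nat.shiftLeft (nat_lit 1) (Nat.land (Nat.shiftRight (V (nat_lit 5)) (S (nat_lit 10))) (nat_lit 65535))) (Nat.shiftLeft (nat_lit 1) (Nat.land (Nat.shiftRight (V (nat_lit 5)) (S (nat_lit 22))) (nat_lit 65535)))))) (Nat.add (Nat.add (Nat.add (Nat.shiftLeft (nat_lit 1) (Nat.land (Nat.shiftRight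 (V (nat_lit 5)) (S (nat_lit 24))) (nat_lit 65535))) (Nat.shiftLeft (nat_lit 1) (Nat.land (Nat.shiftRight (V (nat_lit 5)) (S (nat_lit 51))) (nat_lit 65535)))) (Nat.add (Nat.shiftLeft (nat_lit 1) (Nat.land (Nat.shiftRight (V (nat_lit 6)) (S (nat_lit 1))) (nat_lit 65535))) (Nat.shiftLeft (nat_lit 1) (Nat.land (Nat.shiftRight (V (nat_lit 6)) (S (nat_lit 5))) (nat_lit 65535))))) (Nat.add (Nat.add (Nat.shiftLeft (nat_lit 1) (Nat.land (Nat.shiftRight (V (nat_lit 6)) (S (nat_lit 10))) (nat_lit 65535))) (Nat.shiftLeft (nat_lit 1) (Nat.land (Nat.shiftRight (V (nat_lit 6)) (S (nat_lit 15))) (nat_lit 65535)))) (Nat.add (Nat.shiftLeft (nat_lit 1) (Nat.land (Nat.shiftRight (V (nat_lit 6)) (S (nat_lit 28))) (nat_lit 65535))) (Nat.shiftLeft (nat_lit 1) (Nat.land (Nat.shiftRight (V (nat_lit 6)) (S (nat_lit 37))) (nat_lit 65535)))))))) (Nat.add (Nat.add (Nat.add (Nat.add (Nat.shiftLeft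 (nat_lit 1) (Nat.land (Nat.shiftRight (V (nat_lit 7)) (S (nat_lit 2))) (nat_lit 65535))) (Nat.add (Nat.shiftLeft (nat_lit 1) (Nat.land (Nat.shiftRight (V (nat_lit 7)) (S (nat_lit 4))) (nat_lit 65535))) (Nat.shiftLeft (nat_lit 1) (Nat.land (Nat.shiftRight (V (nat_lit 7)) (S (nat_lit 9))) (nat_lit 65535))))) (Nat.add (Nat.add (Nat.shiftLeft (nat_lit 1) (Nat.land (Nat.shiftRight (V (nat_lit 7)) (S (nat_lit 22))) (nat_lit 65535))) (Nat.shiftLeft (nat_lit 1) (Nat.land (Nat.shiftRight (V (nat_lit 7)) (S (nat_lit 37))) (nat_lit 65535)))) (Nat.add (Nat.shiftLeft (nat_lit 1) (Nat.land (Nat.shiftRight (V (nat_lit 7)) (S (nat_lit 52))) (nat_lit 65535))) (Nat.shiftLeft (nat_lit 1) (Nat.land (Nat.shiftRight (V (nat_lit 9)) (S (nat_lit 2))) (nat_lit 65535)))))) (Nat.add (Nat.add (Nat.add (Nat.shiftLeft (nat_lit 1) (Nat.land (Nat.shiftRight (V (nat_lit 9)) (S (nat_lit 4))) (nat_lit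 65535))) (Nat.shiftLeft (nat_lit 1) (Nat.land (Nat.shiftRight (V (nat_lit 9)) (S (nat_lit 7))) (nat_lit 65535)))) (Nat.add (Nat.shiftLeft (nat_lit 1) (Nat.land (Nat.shiftRight (V (nat_lit 9)) (S (nat_lit 15))) (nat_lit 65535))) (Nat.shiftLeft (nat_lit 1) (Nat.land (Nat.shiftRight (V (nat_lit 9)) (S (nat_lit 29))) (nat_lit 65535))))) (Nat.add (Nat.add (Nat.shiftLeft (nat_lit 1) (Nat.land (Nat.shiftRight (V (nat_lit 9)) (S (nat_lit 49))) (nat_lit 65535))) (Nat.shiftLeft (nat_lit 1) (Nat.land (Nat.shiftRight (V (nat_lit 10)) (S (nat_lit 1))) (nat_lit 65535)))) (Nat.add (Nat.shiftLeft (nat_lit 1) (Nat.land (Nat.shiftRight (V (nat_lit 10)) (S (nat_lit 5))) (nat_lit 65535))) (Nat.shiftLeft (nat_lit 1) (Nat.land (Nat.shiftRight (V (nat_lit 10)) (S (nat_lit 6))) (nat_lit 65535))))))) (Nat.add (Nat.add (Nat.add (Nat.shiftLeft (nat_lit 1) (Nat.land (Nat.shiftRight (V (nat_lit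 10)) (S (nat_lit 19))) (nat_lit 65535))) (Nat.add (Nat.shiftLeft (nat_lit 1) (Nat.land (Nat.shiftRight (V (nat_lit 10)) (S (nat_lit 40))) (nat_lit 65535))) (Nat.shiftLeft (nat_lit 1) (Nat.land (Nat.shiftRight (V (nat_lit 10)) (S (nat_lit 49))) (nat_lit 65535))))) (Nat.add (Nat.add (Nat.shiftLeft (nat_lit 1) (Nat.land (Nat.shiftRight (V (nat_lit 15)) (S (nat_lit 6))) (nat_lit 65535))) (Nat.shiftLeft (nat_lit 1) (Nat.land (Nat.shiftRight (V (nat_lit 15)) (S (nat_lit 9))) (nat_lit 65535)))) (Nat.add (Nat.shiftLeft (nat_lit 1) (Nat.land (Nat.shiftRight (V (nat_lit 15)) (S (nat_lit 28))) (nat_lit 65535))) (Nat.shiftLeft (nat_lit 1) (Nat.land (Nat.shiftRight (V (nat_lit 15)) (S (nat_lit 29))) (nat_lit 65535)))))) (Nat.add (Nat.add (Nat.add (Nat.shiftLeft (nat_lit 1) (Nat.land (Nat.shiftRight (V (nat_lit 15)) (S (nat_lit 37))) (nat_lit 65535))) (Nat.shiftLeft (nat_lit 1)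 (Nat.land (Nat.shiftRight (V (nat_lit 15)) (S (nat_lit 49))) (nat_lit 65535)))) (Nat.add (Nat.shiftLeft (nat_lit 1) (Nat.land (Nat.shiftRight (V (nat_lit 19)) (S (nat_lit 4))) (nat_lit 65535))) (Nat.shiftLeft (nat_lit 1) (Nat.land (Nat.shiftRight (V (nat_lit 19)) (S (nat_lit 10))) (nat_lit 65535))))) (Nat.add (Nat.add (Nat.shiftLeft (nat_lit 1) (Nat.land (Nat.shiftRight (V (nat_lit 19)) (S (nat_lit 24))) (nat_lit 65535))) (Nat.shiftLeft (nat_lit 1) (Nat.land (Nat.shiftRight (V (nat_lit 19)) (S (nat_lit 39))) (nat_lit 65535)))) (Nat.add (Nat.shiftLeft (nat_lit 1) (Nat.land (Nat.shiftRight (V (nat_lit 19)) (S (nat_lit 40))) (nat_lit 65535))) (Nat.shiftLeft (nat_lit 1) (Nat.land (Nat.shiftRight (V (nat_lit 19)) (S (nat_lit 49))) (nat_lit 65535))))))))) (Nat.add (Nat.add (Nat.add (Nat.add (Nat.add (Nat.shiftLeft (nat_lit 1) (Nat.land (Nat.shiftRight (V (nat_lit 22)) (S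 (nat_lit 5))) (nat_lit 65535))) (Nat.add (Nat.shiftLeft (nat_lit 1) (Nat.land (Nat.shiftRight (V (nat_lit 22)) (S (nat_lit 7))) (nat_lit 65535))) (Nat.shiftLeft (nat_lit 1) (Nat.land (Nat.shiftRight (V (nat_lit 22)) (S (nat_lit 24))) (nat_lit 65535))))) (Nat.add (Nat.add (Nat.shiftLeft (nat_lit 1) (Nat.land (Nat.shiftRight (V (nat_lit 22)) (S (nat_lit 37))) (nat_lit 65535))) (Nat.shiftLeft (nat_lit 1) (Nat.land (Nat.shiftRight (V (nat_lit 22)) (S (nat_lit 51))) (nat_lit 65535)))) (Nat.add (Nat.shiftLeft (nat_lit 1) (Nat.land (Nat.shiftRight (V (nat_lit 22)) (S (nat_lit 52))) (nat_lit 65535))) (Nat.shiftLeft (nat_lit 1) (Nat.land (Nat.shiftRight (V (nat_lit 24)) (S (nat_lit 4))) (nat_lit 65535)))))) (Nat.add (Nat.add (Nat.add (Nat.shiftLeft (nat_lit 1) (Nat.land (Nat.shiftRight (V (nat_lit 24)) (S (nat_lit 5))) (nat_lit 65535))) (Nat.shiftLeft (nat_lit 1) (Nat.land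 (Nat.shiftRight (V (nat_lit 24)) (S (nat_lit 19))) (nat_lit 65535)))) (Nat.add (Nat.shiftLeft (nat_lit 1) (Nat.land (Nat.shiftRight (V (nat_lit 24)) (S (nat_lit 22))) (nat_lit 65535))) (Nat.shiftLeft (nat_lit 1) (Nat.land (Nat.shiftRight (V (nat_lit 24)) (S (nat_lit 39))) (nat_lit 65535))))) (Nat.add (Nat.add (Nat.shiftLeft (nat_lit 1) (Nat.land (Nat.shiftRight (V (nat_lit 24)) (S (nat_lit 51))) (nat_lit 65535))) (Nat.shiftLeft (nat_lit 1) (Nat.land (Nat.shiftRight (V (nat_lit 28)) (S (nat_lit 2))) (nat_lit 65535)))) (Nat.add (Nat.shiftLeft (nat_lit 1) (Nat.land (Nat.shiftRight (V (nat_lit 28)) (S (nat_lit 6))) (nat_lit 65535))) (Nat.shiftLeft (nat_lit 1) (Nat.land (Nat.shiftRight (V (nat_lit 28)) (S (nat_lit 15))) (nat_lit 65535))))))) (Nat.add (Nat.add (Nat.add (Nat.shiftLeft (nat_lit 1) (Nat.land (Nat.shiftRight (V (nat_lit 28)) (S (nat_lit 37))) (nat_lit 65535)))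 (Nat.add (Nat.shiftLeft (nat_lit 1) (Nat.land (Nat.shiftRight (V (nat_lit 28)) (S (nat_lit 40))) (nat_lit 65535))) (Nat.shiftLeft (nat_lit 1) (Nat.land (Nat.shiftRight (V (nat_lit 28)) (S (nat_lit 51))) (nat_lit 65535))))) (Nat.add (Nat.add (Nat.shiftLeft (nat_lit 1) (Nat.land (Nat.shiftRight (V (nat_lit 29)) (S (nat_lit 1))) (nat_lit 65535))) (Nat.shiftLeft (nat_lit 1) (Nat.land (Nat.shiftRight (V (nat_lit 29)) (S (nat_lit 9))) (nat_lit 65535)))) (Nat.add (Nat.shiftLeft (nat_lit 1) (Nat.land (Nat.shiftRight (V (nat_lit 29)) (S (nat_lit 15))) (nat_lit 65535))) (Nat.shiftLeft (nat_lit 1) (Nat.land (Nat.shiftRight (V (nat_lit 29)) (S (nat_lit 39))) (nat_lit 65535)))))) (Nat.add (Nat.add (Nat.add (Nat.shiftLeft (nat_lit 1) (Nat.land (Nat.shiftRight (V (nat_lit 29)) (S (nat_lit 49))) (nat_lit 65535))) (Nat.shiftLeft (nat_lit 1) (Nat.land (Nat.shiftRight (V (nat_lit 29))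 (S (nat_lit 52))) (nat_lit 65535)))) (Nat.add (Nat.shiftLeft (nat_lit 1) (Nat.land (Nat.shiftRight (V (nat_lit 37)) (S (nat_lit 6))) (nat_lit 65535))) (Nat.shiftLeft (nat_lit 1) (Nat.land (Nat.shiftRight (V (nat_lit 37)) (S (nat_lit 7))) (nat_lit 65535))))) (Nat.add (Nat.add (Nat.shiftLeft (nat_lit 1) (Nat.land (Nat.shiftRight (V (nat_lit 37)) (S (nat_lit 15))) (nat_lit 65535))) (Nat.shiftLeft (nat_lit 1) (Nat.land (Nat.shiftRight (V (nat_lit 37)) (S (nat_lit 22))) (nat_lit 65535)))) (Nat.add (Nat.shiftLeft (nat_lit 1) (Nat.land (Nat.shiftRight (V (nat_lit 37)) (S (nat_lit 28))) (nat_lit 65535))) (Nat.shiftLeft (nat_lit 1) (Nat.land (Nat.shiftRight (V (nat_lit 37)) (S (nat_lit 52))) (nat_lit 65535)))))))) (Nat.add (Nat.add (Nat.add (Nat.add (Nat.shiftLeft (nat_lit 1) (Nat.land (Nat.shiftRight (V (nat_lit 39)) (S (nat_lit 1))) (nat_lit 65535))) (Nat.add (Nat.shiftLeft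 (nat_lit 1) (Nat.land (Nat.shiftRight (V (nat_lit 39)) (S (nat_lit 4))) (nat_lit 65535))) (Nat.shiftLeft (nat_lit 1) (Nat.land (Nat.shiftRight (V (nat_lit 39)) (S (nat_lit 19))) (nat_lit 65535))))) (Nat.add (Nat.add (Nat.shiftLeft (nat_lit 1) (Nat.land (Nat.shiftRight (V (nat_lit 39)) (S (nat_lit 24))) (nat_lit 65535))) (Nat.shiftLeft (nat_lit 1) (Nat.land (Nat.shiftRight (V (nat_lit 39)) (S (nat_lit 29))) (nat_lit 65535)))) (Nat.add (Nat.shiftLeft (nat_lit 1) (Nat.land (Nat.shiftRight (V (nat_lit 39)) (S (nat_lit 52))) (nat_lit 65535))) (Nat.shiftLeft (nat_lit 1) (Nat.land (Nat.shiftRight (V (nat_lit 40)) (S (nat_lit 2))) (nat_lit 65535)))))) (Nat.add (Nat.add (Nat.add (Nat.shiftLeft (nat_lit 1) (Nat.land (Nat.shiftRight (V (nat_lit 40)) (S (nat_lit 10))) (nat_lit 65535))) (Nat.shiftLeft (nat_lit 1) (Nat.land (Nat.shiftRight (V (nat_lit 40)) (S (nat_lit 19))) (nat_lit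 65535)))) (Nat.add (Nat.shiftLeft (nat_lit 1) (Nat.land (Nat.shiftRight (V (nat_lit 40)) (S (nat_lit 28))) (nat_lit 65535))) (Nat.shiftLeft (nat_lit 1) (Nat.land (Nat.shiftRight (V (nat_lit 40)) (S (nat_lit 49))) (nat_lit 65535))))) (Nat.add (Nat.add (Nat.shiftLeft (nat_lit 1) (Nat.land (Nat.shiftRight (V (nat_lit 40)) (S (nat_lit 51))) (nat_lit 65535))) (Nat.shiftLeft (nat_lit 1) (Nat.land (Nat.shiftRight (V (nat_lit 49)) (S (nat_lit 9))) (nat_lit 65535)))) (Nat.add (Nat.shiftLeft (nat_lit 1) (Nat.land (Nat.shiftRight (V (nat_lit 49)) (S (nat_lit 10))) (nat_lit 65535))) (Nat.shiftLeft (nat_lit 1) (Nat.land (Nat.shiftRight (V (nat_lit 49)) (S (nat_lit 15))) (nat_lit 65535))))))) (Nat.add (Nat.add (Nat.add (Nat.shiftLeft (nat_lit 1) (Nat.land (Nat.shiftRight (V (nat_lit 49)) (S (nat_lit 19))) (nat_lit 65535))) (Nat.add (Nat.shiftLeft (nat_lit 1) (Nat.land (Nat.shiftRight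 (V (nat_lit 49)) (S (nat_lit 29))) (nat_lit 65535))) (Nat.shiftLeft (nat_lit 1) (Nat.land (Nat.shiftRight (V (nat_lit 49)) (S (nat_lit 40))) (nat_lit 65535))))) (Nat.add (Nat.add (Nat.shiftLeft (nat_lit 1) (Nat.land (Nat.shiftRight (V (nat_lit 51)) (S (nat_lit 2))) (nat_lit 65535))) (Nat.shiftLeft (nat_lit 1) (Nat.land (Nat.shiftRight (V (nat_lit 51)) (S (nat_lit 5))) (nat_lit 65535)))) (Nat.add (Nat.shiftLeft (nat_lit 1) (Nat.land (Nat.shiftRight (V (nat_lit 51)) (S (nat_lit 22))) (nat_lit 65535))) (Nat.shiftLeft (nat_lit 1) (Nat.land (Nat.shiftRight (V (nat_lit 51)) (S (nat_lit 24))) (nat_lit 65535)))))) (Nat.add (Nat.add (Nat.add (Nat.shiftLeft (nat_lit 1) (Nat.land (Nat.shiftRight (V (nat_lit 51)) (S (nat_lit 28))) (nat_lit 65535))) (Nat.shiftLeft (nat_lit 1) (Nat.land (Nat.shiftRight (V (nat_lit 51)) (S (nat_lit 40))) (nat_lit 65535)))) (Nat.add (Nat.shiftLeft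 (nat_lit 1) (Nat.land (Nat.shiftRight (V (nat_lit 52)) (S (nat_lit 1))) (nat_lit 65535))) (Nat.shiftLeft (nat_lit 1) (Nat.land (Nat.shiftRight (V (nat_lit 52)) (S (nat_lit 7))) (nat_lit 65535))))) (Nat.add (Nat.add (Nat.shiftLeft (nat_lit 1) (Nat.land (Nat.shiftRight (V (nat_lit 52)) (S (nat_lit 22))) (nat_lit 65535))) (Nat.shiftLeft (nat_lit 1) (Nat.land (Nat.shiftRight (V (nat_lit 52)) (S (nat_lit 29))) (nat_lit 65535)))) (Nat.add (Nat.shiftLeft (nat_lit 1) (Nat.land (Nat.shiftRight (V (nat_lit 52)) (S (nat_lit 37))) (nat_lit 65535))) (Nat.shiftLeft (nat_lit 1) (Nat.land (Nat.shiftRight (V (nat_lit 52)) (S (nat_lit 39))) (nat_lit 65535)))))))))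
def E9_0 (V S : ℕ → ℕ) : ℕ := Nat.add (Nat.add (Nat.add (Nat.add (Nat.add (Nat.add (Nat.shiftLeft (nat_lit 1) (Nat.land (Nat.shiftRight (V (nat_lit 1)) (S (nat_lit 12))) (nat_lit 65535))) (Nat.add (Nat.shiftLeft (nat_lit 1) (Nat.land (Nat.shiftRight (V (nat_lit 1)) (S (nat_lit 13))) (nat_lit 65535))) (Nat.shiftLeft (nat_lit 1) (Nat.land (Nat.shiftRight (V (nat_lit 1)) (S (nat_lit 14))) (nat_lit 65535))))) (Nat.add (Nat.add (Nat.shiftLeft (nat_lit 1) (Nat.land (Nat.shiftRight (V (nat_lit 2)) (S (nat_lit 12))) (nat_lit 65535))) (Nat.shiftLeft (nat_lit 1) (Nat.land (Nat.shiftRight (V (nat_lit 2)) (S (nat_lit 13))) (nat_lit 65535)))) (Nat.add (Nat.shiftLeft (nat_lit 1) (Nat.land (Nat.shiftRight (V (nat_lit 2)) (S (nat_lit 14))) (nat_lit 65535))) (Nat.shiftLeft (nat_lit 1) (Nat.land (Nat.shiftRight (V (nat_lit 3)) (S (nat_lit 15))) (nat_lit 65535)))))) (Nat.add (Nat.add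 (Nat.add (Nat.shiftLeft (nat_lit 1) (Nat.land (Nat.shiftRight (V (nat_lit 3)) (S (nat_lit 24))) (nat_lit 65535))) (Nat.shiftLeft (nat_lit 1) (Nat.land (Nat.shiftRight (V (nat_lit 3)) (S (nat_lit 40))) (nat_lit 65535)))) (Nat.add (Nat.shiftLeft (nat_lit 1) (Nat.land (Nat.shiftRight (V (nat_lit 3)) (S (nat_lit 52))) (nat_lit 65535))) (Nat.shiftLeft (nat_lit 1) (Nat.land (Nat.shiftRight (V (nat_lit 4)) (S (nat_lit 53))) (nat_lit 65535))))) (Nat.add (Nat.add (Nat.shiftLeft (nat_lit 1) (Nat.land (Nat.shiftRight (V (nat_lit 4)) (S (nat_lit 55))) (nat_lit 65535))) (Nat.shiftLeft (nat_lit 1) (Nat.land (Nat.shiftRight (V (nat_lit 4)) (S (nat_lit 59))) (nat_lit 65535)))) (Nat.add (Nat.shiftLeft (nat_lit 1) (Nat.land (Nat.shiftRight (V (nat_lit 5)) (S (nat_lit 41))) (nat_lit 65535))) (Nat.shiftLeft (nat_lit 1) (Nat.land (Nat.shiftRight (V (nat_lit 5)) (S (nat_lit 43))) (nat_lit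 65535))))))) (Nat.add (Nat.add (Nat.add (Nat.shiftLeft (nat_lit 1) (Nat.land (Nat.shiftRight (V (nat_lit 5)) (S (nat_lit 47))) (nat_lit 65535))) (Nat.add (Nat.shiftLeft (nat_lit 1) (Nat.land (Nat.shiftRight (V (nat_lit 6)) (S (nat_lit 53))) (nat_lit 65535))) (Nat.shiftLeft (nat_lit 1) (Nat.land (Nat.shiftRight (V (nat_lit 6)) (S (nat_lit 55))) (nat_lit 65535))))) (Nat.add (Nat.add (Nat.shiftLeft (nat_lit 1) (Nat.land (Nat.shiftRight (V (nat_lit 6)) (S (nat_lit 59))) (nat_lit 65535))) (Nat.shiftLeft (nat_lit 1) (Nat.land (Nat.shiftRight (V (nat_lit 7)) (S (nat_lit 27))) (nat_lit 65535)))) (Nat.add (Nat.shiftLeft (nat_lit 1) (Nat.land (Nat.shiftRight (V (nat_lit 7)) (S (nat_lit 30))) (nat_lit 65535))) (Nat.shiftLeft (nat_lit 1) (Nat.land (Nat.shiftRight (V (nat_lit 7)) (S (nat_lit 33))) (nat_lit 65535)))))) (Nat.add (Nat.add (Nat.add (Nat.shiftLeft (nat_lit 1) (Nat.land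 (Nat.shiftRight (V (nat_lit 8)) (S (nat_lit 19))) (nat_lit 65535))) (Nat.shiftLeft (nat_lit 1) (Nat.land (Nat.shiftRight (V (nat_lit 8)) (S (nat_lit 29))) (nat_lit 65535)))) (Nat.add (Nat.shiftLeft (nat_lit 1) (Nat.land (Nat.shiftRight (V (nat_lit 8)) (S (nat_lit 37))) (nat_lit 65535))) (Nat.shiftLeft (nat_lit 1) (Nat.land (Nat.shiftRight (V (nat_lit 8)) (S (nat_lit 51))) (nat_lit 65535))))) (Nat.add (Nat.add (Nat.shiftLeft (nat_lit 1) (Nat.land (Nat.shiftRight (V (nat_lit 9)) (S (nat_lit 41))) (nat_lit 65535))) (Nat.shiftLeft (nat_lit 1) (Nat.land (Nat.shiftRight (V (nat_lit 9)) (S (nat_lit 43))) (nat_lit 65535)))) (Nat.add (Nat.shiftLeft (nat_lit 1) (Nat.land (Nat.shiftRight (V (nat_lit 9)) (S (nat_lit 47))) (nat_lit 65535))) (Nat.shiftLeft (nat_lit 1) (Nat.land (Nat.shiftRight (V (nat_lit 10)) (S (nat_lit 27))) (nat_lit 65535)))))))) (Nat.add (Nat.add (Nat.add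 (Nat.add (Nat.shiftLeft (nat_lit 1) (Nat.land (Nat.shiftRight (V (nat_lit 10)) (S (nat_lit 30))) (nat_lit 65535))) (Nat.add (Nat.shiftLeft (nat_lit 1) (Nat.land (Nat.shiftRight (V (nat_lit 10)) (S (nat_lit 33))) (nat_lit 65535))) (Nat.shiftLeft (nat_lit 1) (Nat.land (Nat.shiftRight (V (nat_lit 11)) (S (nat_lit 22))) (nat_lit 65535))))) (Nat.add (Nat.add (Nat.shiftLeft (nat_lit 1) (Nat.land (Nat.shiftRight (V (nat_lit 11)) (S (nat_lit 28))) (nat_lit 65535))) (Nat.shiftLeft (nat_lit 1) (Nat.land (Nat.shiftRight (V (nat_lit 11)) (S (nat_lit 39))) (nat_lit 65535)))) (Nat.add (Nat.shiftLeft (nat_lit 1) (Nat.land (Nat.shiftRight (V (nat_lit 11)) (S (nat_lit 49))) (nat_lit 65535))) (Nat.shiftLeft (nat_lit 1) (Nat.land (Nat.shiftRight (V (nat_lit 12)) (S (nat_lit 1))) (nat_lit 65535)))))) (Nat.add (Nat.add (Nat.add (Nat.shiftLeft (nat_lit 1) (Nat.land (Nat.shiftRight (V (nat_lit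 12)) (S (nat_lit 2))) (nat_lit 65535))) (Nat.shiftLeft (nat_lit 1) (Nat.land (Nat.shiftRight (V (nat_lit 12)) (S (nat_lit 15))) (nat_lit 65535)))) (Nat.add (Nat.shiftLeft (nat_lit 1) (Nat.land (Nat.shiftRight (V (nat_lit 12)) (S (nat_lit 24))) (nat_lit 65535))) (Nat.shiftLeft (nat_lit 1) (Nat.land (Nat.shiftRight (V (nat_lit 13)) (S (nat_lit 1))) (nat_lit 65535))))) (Nat.add (Nat.add (Nat.shiftLeft (nat_lit 1) (Nat.land (Nat.shiftRight (V (nat_lit 13)) (S (nat_lit 2))) (nat_lit 65535))) (Nat.shiftLeft (nat_lit 1) (Nat.land (Nat.shiftRight (V (nat_lit 13)) (S (nat_lit 22))) (nat_lit 65535)))) (Nat.add (Nat.shiftLeft (nat_lit 1) (Nat.land (Nat.shiftRight (V (nat_lit 13)) (S (nat_lit 49))) (nat_lit 65535))) (Nat.shiftLeft (nat_lit 1) (Nat.land (Nat.shiftRight (V (nat_lit 14)) (S (nat_lit 1))) (nat_lit 65535))))))) (Nat.add (Nat.add (Nat.add (Nat.shiftLeft (nat_lit 1)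 (Nat.land (Nat.shiftRight (V (nat_lit 14)) (S (nat_lit 2))) (nat_lit 65535))) (Nat.add (Nat.shiftLeft (nat_lit 1) (Nat.land (Nat.shiftRight (V (nat_lit 14)) (S (nat_lit 19))) (nat_lit 65535))) (Nat.shiftLeft (nat_lit 1) (Nat.land (Nat.shiftRight (V (nat_lit 14)) (S (nat_lit 37))) (nat_lit 65535))))) (Nat.add (Nat.add (Nat.shiftLeft (nat_lit 1) (Nat.land (Nat.shiftRight (V (nat_lit 15)) (S (nat_lit 3))) (nat_lit 65535))) (Nat.shiftLeft (nat_lit 1) (Nat.land (Nat.shiftRight (V (nat_lit 15)) (S (nat_lit 12))) (nat_lit 65535)))) (Nat.add (Nat.shiftLeft (nat_lit 1) (Nat.land (Nat.shiftRight (V (nat_lit 15)) (S (nat_lit 27))) (nat_lit 65535))) (Nat.shiftLeft (nat_lit 1) (Nat.land (Nat.shiftRight (V (nat_lit 19)) (S (nat_lit 8))) (nat_lit 65535)))))) (Nat.add (Nat.add (Nat.add (Nat.shiftLeft (nat_lit 1) (Nat.land (Nat.shiftRight (V (nat_lit 19)) (S (nat_lit 14))) (nat_lit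 65535))) (Nat.shiftLeft (nat_lit 1) (Nat.land (Nat.shiftRight (V (nat_lit 19)) (S (nat_lit 41))) (nat_lit 65535)))) (Nat.add (Nat.shiftLeft (nat_lit 1) (Nat.land (Nat.shiftRight (V (nat_lit 22)) (S (nat_lit 11))) (nat_lit 65535))) (Nat.shiftLeft (nat_lit 1) (Nat.land (Nat.shiftRight (V (nat_lit 22)) (S (nat_lit 13))) (nat_lit 65535))))) (Nat.add (Nat.add (Nat.shiftLeft (nat_lit 1) (Nat.land (Nat.shiftRight (V (nat_lit 22)) (S (nat_lit 53))) (nat_lit 65535))) (Nat.shiftLeft (nat_lit 1) (Nat.land (Nat.shiftRight (V (nat_lit 24)) (S (nat_lit 3))) (nat_lit 65535)))) (Nat.add (Nat.shiftLeft (nat_lit 1) (Nat.land (Nat.shiftRight (V (nat_lit 24)) (S (nat_lit 12))) (nat_lit 65535))) (Nat.shiftLeft (nat_lit 1) (Nat.land (Nat.shiftRight (V (nat_lit 24)) (S (nat_lit 27))) (nat_lit 65535))))))))) (Nat.add (Nat.add (Nat.add (Nat.add (Nat.add (Nat.shiftLeft (nat_lit 1) (Nat.land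 (Nat.shiftRight (V (nat_lit 27)) (S (nat_lit 7))) (nat_lit 65535))) (Nat.add (Nat.shiftLeft (nat_lit 1) (Nat.land (Nat.shiftRight (V (nat_lit 27)) (S (nat_lit 10))) (nat_lit 65535))) (Nat.shiftLeft (nat_lit 1) (Nat.land (Nat.shiftRight (V (nat_lit 27)) (S (nat_lit 15))) (nat_lit 65535))))) (Nat.add (Nat.add (Nat.shiftLeft (nat_lit 1) (Nat.land (Nat.shiftRight (V (nat_lit 27)) (S (nat_lit 24))) (nat_lit 65535))) (Nat.shiftLeft (nat_lit 1) (Nat.land (Nat.shiftRight (V (nat_lit 28)) (S (nat_lit 11))) (nat_lit 65535)))) (Nat.add (Nat.shiftLeft (nat_lit 1) (Nat.land (Nat.shiftRight (V (nat_lit 28)) (S (nat_lit 33))) (nat_lit 65535))) (Nat.shiftLeft (nat_lit 1) (Nat.land (Nat.shiftRight (V (nat_lit 28)) (S (nat_lit 47))) (nat_lit 65535)))))) (Nat.add (Nat.add (Nat.add (Nat.shiftLeft (nat_lit 1) (Nat.land (Nat.shiftRight (V (nat_lit 29)) (S (nat_lit 8))) (nat_lit 65535)))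 (Nat.shiftLeft (nat_lit 1) (Nat.land (Nat.shiftRight (V (nat_lit 29)) (S (nat_lit 30))) (nat_lit 65535)))) (Nat.add (Nat.shiftLeft (nat_lit 1) (Nat.land (Nat.shiftRight (V (nat_lit 29)) (S (nat_lit 59))) (nat_lit 65535))) (Nat.shiftLeft (nat_lit 1) (Nat.land (Nat.shiftRight (V (nat_lit 30)) (S (nat_lit 7))) (nat_lit 65535))))) (Nat.add (Nat.add (Nat.shiftLeft (nat_lit 1) (Nat.land (Nat.shiftRight (V (nat_lit 30)) (S (nat_lit 10))) (nat_lit 65535))) (Nat.shiftLeft (nat_lit 1) (Nat.land (Nat.shiftRight (V (nat_lit 30)) (S (nat_lit 29))) (nat_lit 65535)))) (Nat.add (Nat.shiftLeft (nat_lit 1) (Nat.land (Nat.shiftRight (V (nat_lit 30)) (S (nat_lit 51))) (nat_lit 65535))) (Nat.shiftLeft (nat_lit 1) (Nat.land (Nat.shiftRight (V (nat_lit 33)) (S (nat_lit 7))) (nat_lit 65535))))))) (Nat.add (Nat.add (Nat.add (Nat.shiftLeft (nat_lit 1) (Nat.land (Nat.shiftRight (V (nat_lit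 33)) (S (nat_lit 10))) (nat_lit 65535))) (Nat.add (Nat.shiftLeft (nat_lit 1) (Nat.land (Nat.shiftRight (V (nat_lit 33)) (S (nat_lit 28))) (nat_lit 65535))) (Nat.shiftLeft (nat_lit 1) (Nat.land (Nat.shiftRight (V (nat_lit 33)) (S (nat_lit 39))) (nat_lit 65535))))) (Nat.add (Nat.add (Nat.shiftLeft (nat_lit 1) (Nat.land (Nat.shiftRight (V (nat_lit 37)) (S (nat_lit 8))) (nat_lit 65535))) (Nat.shiftLeft (nat_lit 1) (Nat.land (Nat.shiftRight (V (nat_lit 37)) (S (nat_lit 14))) (nat_lit 65535)))) (Nat.add (Nat.shiftLeft (nat_lit 1) (Nat.land (Nat.shiftRight (V (nat_lit 37)) (S (nat_lit 41))) (nat_lit 65535))) (Nat.shiftLeft (nat_lit 1) (Nat.land (Nat.shiftRight (V (nat_lit 39)) (S (nat_lit 11))) (nat_lit 65535)))))) (Nat.add (Nat.add (Nat.add (Nat.shiftLeft (nat_lit 1) (Nat.land (Nat.shiftRight (V (nat_lit 39)) (S (nat_lit 33))) (nat_lit 65535))) (Nat.shiftLeft (nat_lit 1)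 (Nat.land (Nat.shiftRight (V (nat_lit 39)) (S (nat_lit 47))) (nat_lit 65535)))) (Nat.add (Nat.shiftLeft (nat_lit 1) (Nat.land (Nat.shiftRight (V (nat_lit 40)) (S (nat_lit 3))) (nat_lit 65535))) (Nat.shiftLeft (nat_lit 1) (Nat.land (Nat.shiftRight (V (nat_lit 40)) (S (nat_lit 43))) (nat_lit 65535))))) (Nat.add (Nat.add (Nat.shiftLeft (nat_lit 1) (Nat.land (Nat.shiftRight (V (nat_lit 40)) (S (nat_lit 55))) (nat_lit 65535))) (Nat.shiftLeft (nat_lit 1) (Nat.land (Nat.shiftRight (V (nat_lit 41)) (S (nat_lit 5))) (nat_lit 65535)))) (Nat.add (Nat.shiftLeft (nat_lit 1) (Nat.land (Nat.shiftRight (V (nat_lit 41)) (S (nat_lit 9))) (nat_lit 65535))) (Nat.shiftLeft (nat_lit 1) (Nat.land (Nat.shiftRight (V (nat_lit 41)) (S (nat_lit 19))) (nat_lit 65535)))))))) (Nat.add (Nat.add (Nat.add (Nat.add (Nat.shiftLeft (nat_lit 1) (Nat.land (Nat.shiftRight (V (nat_lit 41)) (S (nat_lit 37)))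 (nat_lit 65535))) (Nat.add (Nat.shiftLeft (nat_lit 1) (Nat.land (Nat.shiftRight (V (nat_lit 43)) (S (nat_lit 5))) (nat_lit 65535))) (Nat.shiftLeft (nat_lit 1) (Nat.land (Nat.shiftRight (V (nat_lit 43)) (S (nat_lit 9))) (nat_lit 65535))))) (Nat.add (Nat.add (Nat.shiftLeft (nat_lit 1) (Nat.land (Nat.shiftRight (V (nat_lit 43)) (S (nat_lit 40))) (nat_lit 65535))) (Nat.shiftLeft (nat_lit 1) (Nat.land (Nat.shiftRight (V (nat_lit 43)) (S (nat_lit 52))) (nat_lit 65535)))) (Nat.add (Nat.shiftLeft (nat_lit 1) (Nat.land (Nat.shiftRight (V (nat_lit 47)) (S (nat_lit 5))) (nat_lit 65535))) (Nat.shiftLeft (nat_lit 1) (Nat.land (Nat.shiftRight (V (nat_lit 47)) (S (nat_lit 9))) (nat_lit 65535)))))) (Nat.add (Nat.add (Nat.add (Nat.shiftLeft (nat_lit 1) (Nat.land (Nat.shiftRight (V (nat_lit 47)) (S (nat_lit 28))) (nat_lit 65535))) (Nat.shiftLeft (nat_lit 1) (Nat.land (Nat.shiftRight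 (V (nat_lit 47)) (S (nat_lit 39))) (nat_lit 65535)))) (Nat.add (Nat.shiftLeft (nat_lit 1) (Nat.land (Nat.shiftRight (V (nat_lit 49)) (S (nat_lit 11))) (nat_lit 65535))) (Nat.shiftLeft (nat_lit 1) (Nat.land (Nat.shiftRight (V (nat_lit 49)) (S (nat_lit 13))) (nat_lit 65535))))) (Nat.add (Nat.add (Nat.shiftLeft (nat_lit 1) (Nat.land (Nat.shiftRight (V (nat_lit 49)) (S (nat_lit 53))) (nat_lit 65535))) (Nat.shiftLeft (nat_lit 1) (Nat.land (Nat.shiftRight (V (nat_lit 51)) (S (nat_lit 8))) (nat_lit 65535)))) (Nat.add (Nat.shiftLeft (nat_lit 1) (Nat.land (Nat.shiftRight (V (nat_lit 51)) (S (nat_lit 30))) (nat_lit 65535))) (Nat.shiftLeft (nat_lit 1) (Nat.land (Nat.shiftRight (V (nat_lit 51)) (S (nat_lit 59))) (nat_lit 65535))))))) (Nat.add (Nat.add (Nat.add (Nat.shiftLeft (nat_lit 1) (Nat.land (Nat.shiftRight (V (nat_lit 52)) (S (nat_lit 3))) (nat_lit 65535))) (Nat.add (Nat.shiftLeft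 (nat_lit 1) (Nat.land (Nat.shiftRight (V (nat_lit 52)) (S (nat_lit 43))) (nat_lit 65535))) (Nat.shiftLeft (nat_lit 1) (Nat.land (Nat.shiftRight (V (nat_lit 52)) (S (nat_lit 55))) (nat_lit 65535))))) (Nat.add (Nat.add (Nat.shiftLeft (nat_lit 1) (Nat.land (Nat.shiftRight (V (nat_lit 53)) (S (nat_lit 4))) (nat_lit 65535))) (Nat.shiftLeft (nat_lit 1) (Nat.land (Nat.shiftRight (V (nat_lit 53)) (S (nat_lit 6))) (nat_lit 65535)))) (Nat.add (Nat.shiftLeft (nat_lit 1) (Nat.land (Nat.shiftRight (V (nat_lit 53)) (S (nat_lit 22))) (nat_lit 65535))) (Nat.shiftLeft (nat_lit 1) (Nat.land (Nat.shiftRight (V (nat_lit 53)) (S (nat_lit 49))) (nat_lit 65535)))))) (Nat.add (Nat.add (Nat.add (Nat.shiftLeft (nat_lit 1) (Nat.land (Nat.shiftRight (V (nat_lit 55)) (S (nat_lit 4))) (nat_lit 65535))) (Nat.shiftLeft (nat_lit 1) (Nat.land (Nat.shiftRight (V (nat_lit 55)) (S (nat_lit 6))) (nat_lit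 65535)))) (Nat.add (Nat.shiftLeft (nat_lit 1) (Nat.land (Nat.shiftRight (V (nat_lit 55)) (S (nat_lit 40))) (nat_lit 65535))) (Nat.shiftLeft (nat_lit 1) (Nat.land (Nat.shiftRight (V (nat_lit 55)) (S (nat_lit 52))) (nat_lit 65535))))) (Nat.add (Nat.add (Nat.shiftLeft (nat_lit 1) (Nat.land (Nat.shiftRight (V (nat_lit 59)) (S (nat_lit 4))) (nat_lit 65535))) (Nat.shiftLeft (nat_lit 1) (Nat.land (Nat.shiftRight (V (nat_lit 59)) (S (nat_lit 6))) (nat_lit 65535)))) (Nat.add (Nat.shiftLeft (nat_lit 1) (Nat.land (Nat.shiftRight (V (nat_lit 59)) (S (nat_lit 29))) (nat_lit 65535))) (Nat.shiftLeft (nat_lit 1) (Nat.land (Nat.shiftRight (V (nat_lit 59)) (S (nat_lit 51))) (nat_lit 65535)))))))))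
def E10_0 (V S : ℕ → ℕ) : ℕ := Nat.add (Nat.add (Nat.add (Nat.add (Nat.add (Nat.add (Nat.shiftLeft (nat_lit 1) (Nat.land (Nat.shiftRight (V (nat_lit 1)) (S (nat_lit 15))) (nat_lit 65535))) (Nat.add (Nat.shiftLeft (nat_lit 1) (Nat.land (Nat.shiftRight (V (nat_lit 1)) (S (nat_lit 19))) (nat_lit 65535))) (Nat.shiftLeft (nat_lit 1) (Nat.land (Nat.shiftRight (V (nat_lit 1)) (S (nat_lit 22))) (nat_lit 65535))))) (Nat.add (Nat.add (Nat.shiftLeft (nat_lit 1) (Nat.land (Nat.shiftRight (V (nat_lit 1)) (S (nat_lit 24))) (nat_lit 65535))) (Nat.shiftLeft (nat_lit 1) (Nat.land (Nat.shiftRight (V (nat_lit 1)) (S (nat_lit 37))) (nat_lit 65535)))) (Nat.add (Nat.shiftLeft (nat_lit 1) (Nat.land (Nat.shiftRight (V (nat_lit 1)) (S (nat_lit 49))) (nat_lit 65535))) (Nat.shiftLeft (nat_lit 1) (Nat.land (Nat.shiftRight (V (nat_lit 2)) (S (nat_lit 15))) (nat_lit 65535)))))) (Nat.add (Nat.add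 (Nat.add (Nat.shiftLeft (nat_lit 1) (Nat.land (Nat.shiftRight (V (nat_lit 2)) (S (nat_lit 19))) (nat_lit 65535))) (Nat.shiftLeft (nat_lit 1) (Nat.land (Nat.shiftRight (V (nat_lit 2)) (S (nat_lit 22))) (nat_lit 65535)))) (Nat.add (Nat.shiftLeft (nat_lit 1) (Nat.land (Nat.shiftRight (V (nat_lit 2)) (S (nat_lit 24))) (nat_lit 65535))) (Nat.shiftLeft (nat_lit 1) (Nat.land (Nat.shiftRight (V (nat_lit 2)) (S (nat_lit 37))) (nat_lit 65535))))) (Nat.add (Nat.add (Nat.shiftLeft (nat_lit 1) (Nat.land (Nat.shiftRight (V (nat_lit 2)) (S (nat_lit 49))) (nat_lit 65535))) (Nat.shiftLeft (nat_lit 1) (Nat.land (Nat.shiftRight (V (nat_lit 4)) (S (nat_lit 22))) (nat_lit 65535)))) (Nat.add (Nat.shiftLeft (nat_lit 1) (Nat.land (Nat.shiftRight (V (nat_lit 4)) (S (nat_lit 29))) (nat_lit 65535))) (Nat.shiftLeft (nat_lit 1) (Nat.land (Nat.shiftRight (V (nat_lit 4)) (S (nat_lit 40))) (nat_lit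 65535))))))) (Nat.add (Nat.add (Nat.add (Nat.shiftLeft (nat_lit 1) (Nat.land (Nat.shiftRight (V (nat_lit 4)) (S (nat_lit 49))) (nat_lit 65535))) (Nat.add (Nat.shiftLeft (nat_lit 1) (Nat.land (Nat.shiftRight (V (nat_lit 4)) (S (nat_lit 51))) (nat_lit 65535))) (Nat.shiftLeft (nat_lit 1) (Nat.land (Nat.shiftRight (V (nat_lit 4)) (S (nat_lit 52))) (nat_lit 65535))))) (Nat.add (Nat.add (Nat.shiftLeft (nat_lit 1) (Nat.land (Nat.shiftRight (V (nat_lit 5)) (S (nat_lit 19))) (nat_lit 65535))) (Nat.shiftLeft (nat_lit 1) (Nat.land (Nat.shiftRight (V (nat_lit 5)) (S (nat_lit 28))) (nat_lit 65535)))) (Nat.add (Nat.shiftLeft (nat_lit 1) (Nat.land (Nat.shiftRight (V (nat_lit 5)) (S (nat_lit 37))) (nat_lit 65535))) (Nat.shiftLeft (nat_lit 1) (Nat.land (Nat.shiftRight (V (nat_lit 5)) (S (nat_lit 39))) (nat_lit 65535)))))) (Nat.add (Nat.add (Nat.add (Nat.shiftLeft (nat_lit 1) (Nat.land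 (Nat.shiftRight (V (nat_lit 5)) (S (nat_lit 40))) (nat_lit 65535))) (Nat.shiftLeft (nat_lit 1) (Nat.land (Nat.shiftRight (V (nat_lit 5)) (S (nat_lit 52))) (nat_lit 65535)))) (Nat.add (Nat.shiftLeft (nat_lit 1) (Nat.land (Nat.shiftRight (V (nat_lit 6)) (S (nat_lit 22))) (nat_lit 65535))) (Nat.shiftLeft (nat_lit 1) (Nat.land (Nat.shiftRight (V (nat_lit 6)) (S (nat_lit 29))) (nat_lit 65535))))) (Nat.add (Nat.add (Nat.shiftLeft (nat_lit 1) (Nat.land (Nat.shiftRight (V (nat_lit 6)) (S (nat_lit 40))) (nat_lit 65535))) (Nat.shiftLeft (nat_lit 1) (Nat.land (Nat.shiftRight (V (nat_lit 6)) (S (nat_lit 49))) (nat_lit 65535)))) (Nat.add (Nat.shiftLeft (nat_lit 1) (Nat.land (Nat.shiftRight (V (nat_lit 6)) (S (nat_lit 51))) (nat_lit 65535))) (Nat.shiftLeft (nat_lit 1) (Nat.land (Nat.shiftRight (V (nat_lit 6)) (S (nat_lit 52))) (nat_lit 65535)))))))) (Nat.add (Nat.add (Nat.add (Nat.add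 (Nat.shiftLeft (nat_lit 1) (Nat.land (Nat.shiftRight (V (nat_lit 7)) (S (nat_lit 15))) (nat_lit 65535))) (Nat.add (Nat.shiftLeft (nat_lit 1) (Nat.land (Nat.shiftRight (V (nat_lit 7)) (S (nat_lit 24))) (nat_lit 65535))) (Nat.shiftLeft (nat_lit 1) (Nat.land (Nat.shiftRight (V (nat_lit 7)) (S (nat_lit 28))) (nat_lit 65535))))) (Nat.add (Nat.add (Nat.shiftLeft (nat_lit 1) (Nat.land (Nat.shiftRight (V (nat_lit 7)) (S (nat_lit 29))) (nat_lit 65535))) (Nat.shiftLeft (nat_lit 1) (Nat.land (Nat.shiftRight (V (nat_lit 7)) (S (nat_lit 39))) (nat_lit 65535)))) (Nat.add (Nat.shiftLeft (nat_lit 1) (Nat.land (Nat.shiftRight (V (nat_lit 7)) (S (nat_lit 51))) (nat_lit 65535))) (Nat.shiftLeft (nat_lit 1) (Nat.land (Nat.shiftRight (V (nat_lit 9)) (S (nat_lit 19))) (nat_lit 65535)))))) (Nat.add (Nat.add (Nat.add (Nat.shiftLeft (nat_lit 1) (Nat.land (Nat.shiftRight (V (nat_lit 9)) (S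 (nat_lit 28))) (nat_lit 65535))) (Nat.shiftLeft (nat_lit 1) (Nat.land (Nat.shiftRight (V (nat_lit 9)) (S (nat_lit 37))) (nat_lit 65535)))) (Nat.add (Nat.shiftLeft (nat_lit 1) (Nat.land (Nat.shiftRight (V (nat_lit 9)) (S (nat_lit 39))) (nat_lit 65535))) (Nat.shiftLeft (nat_lit 1) (Nat.land (Nat.shiftRight (V (nat_lit 9)) (S (nat_lit 40))) (nat_lit 65535))))) (Nat.add (Nat.add (Nat.shiftLeft (nat_lit 1) (Nat.land (Nat.shiftRight (V (nat_lit 9)) (S (nat_lit 52))) (nat_lit 65535))) (Nat.shiftLeft (nat_lit 1) (Nat.land (Nat.shiftRight (V (nat_lit 10)) (S (nat_lit 15))) (nat_lit 65535)))) (Nat.add (Nat.shiftLeft (nat_lit 1) (Nat.land (Nat.shiftRight (V (nat_lit 10)) (S (nat_lit 24))) (nat_lit 65535))) (Nat.shiftLeft (nat_lit 1) (Nat.land (Nat.shiftRight (V (nat_lit 10)) (S (nat_lit 28))) (nat_lit 65535))))))) (Nat.add (Nat.add (Nat.add (Nat.shiftLeft (nat_lit 1) (Nat.land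 (Nat.shiftRight (V (nat_lit 10)) (S (nat_lit 29))) (nat_lit 65535))) (Nat.add (Nat.shiftLeft (nat_lit 1) (Nat.land (Nat.shiftRight (V (nat_lit 10)) (S (nat_lit 39))) (nat_lit 65535))) (Nat.shiftLeft (nat_lit 1) (Nat.land (Nat.shiftRight (V (nat_lit 10)) (S (nat_lit 51))) (nat_lit 65535))))) (Nat.add (Nat.add (Nat.shiftLeft (nat_lit 1) (Nat.land (Nat.shiftRight (V (nat_lit 15)) (S (nat_lit 1))) (nat_lit 65535))) (Nat.shiftLeft (nat_lit 1) (Nat.land (Nat.shiftRight (V (nat_lit 15)) (S (nat_lit 2))) (nat_lit 65535)))) (Nat.add (Nat.shiftLeft (nat_lit 1) (Nat.land (Nat.shiftRight (V (nat_lit 15)) (S (nat_lit 7))) (nat_lit 65535))) (Nat.shiftLeft (nat_lit 1) (Nat.land (Nat.shiftRight (V (nat_lit 15)) (S (nat_lit 10))) (nat_lit 65535)))))) (Nat.add (Nat.add (Nat.add (Nat.shiftLeft (nat_lit 1) (Nat.land (Nat.shiftRight (V (nat_lit 15)) (S (nat_lit 40))) (nat_lit 65535)))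 (Nat.shiftLeft (nat_lit 1) (Nat.land (Nat.shiftRight (V (nat_lit 15)) (S (nat_lit 52))) (nat_lit 65535)))) (Nat.add (Nat.shiftLeft (nat_lit 1) (Nat.land (Nat.shiftRight (V (nat_lit 19)) (S (nat_lit 1))) (nat_lit 65535))) (Nat.shiftLeft (nat_lit 1) (Nat.land (Nat.shiftRight (V (nat_lit 19)) (S (nat_lit 2))) (nat_lit 65535))))) (Nat.add (Nat.add (Nat.shiftLeft (nat_lit 1) (Nat.land (Nat.shiftRight (V (nat_lit 19)) (S (nat_lit 5))) (nat_lit 65535))) (Nat.shiftLeft (nat_lit 1) (Nat.land (Nat.shiftRight (V (nat_lit 19)) (S (nat_lit 9))) (nat_lit 65535)))) (Nat.add (Nat.shiftLeft (nat_lit 1) (Nat.land (Nat.shiftRight (V (nat_lit 19)) (S (nat_lit 29))) (nat_lit 65535))) (Nat.shiftLeft (nat_lit 1) (Nat.land (Nat.shiftRight (V (nat_lit 19)) (S (nat_lit 51))) (nat_lit 65535))))))))) (Nat.add (Nat.add (Nat.add (Nat.add (Nat.add (Nat.shiftLeft (nat_lit 1) (Nat.land (Nat.shiftRight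 (V (nat_lit 22)) (S (nat_lit 1))) (nat_lit 65535))) (Nat.add (Nat.shiftLeft (nat_lit 1) (Nat.land (Nat.shiftRight (V (nat_lit 22)) (S (nat_lit 2))) (nat_lit 65535))) (Nat.shiftLeft (nat_lit 1) (Nat.land (Nat.shiftRight (V (nat_lit 22)) (S (nat_lit 4))) (nat_lit 65535))))) (Nat.add (Nat.add (Nat.shiftLeft (nat_lit 1) (Nat.land (Nat.shiftRight (V (nat_lit 22)) (S (nat_lit 6))) (nat_lit 65535))) (Nat.shiftLeft (nat_lit 1) (Nat.land (Nat.shiftRight (V (nat_lit 22)) (S (nat_lit 28))) (nat_lit 65535)))) (Nat.add (Nat.shiftLeft (nat_lit 1) (Nat.land (Nat.shiftRight (V (nat_lit 22)) (S (nat_lit 39))) (nat_lit 65535))) (Nat.shiftLeft (nat_lit 1) (Nat.land (Nat.shiftRight (V (nat_lit 24)) (S (nat_lit 1))) (nat_lit 65535)))))) (Nat.add (Nat.add (Nat.add (Nat.shiftLeft (nat_lit 1) (Nat.land (Nat.shiftRight (V (nat_lit 24)) (S (nat_lit 2))) (nat_lit 65535))) (Nat.shiftLeft (nat_lit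 1) (Nat.land (Nat.shiftRight (V (nat_lit 24)) (S (nat_lit 7))) (nat_lit 65535)))) (Nat.add (Nat.shiftLeft (nat_lit 1) (Nat.land (Nat.shiftRight (V (nat_lit 24)) (S (nat_lit 10))) (nat_lit 65535))) (Nat.shiftLeft (nat_lit 1) (Nat.land (Nat.shiftRight (V (nat_lit 24)) (S (nat_lit 40))) (nat_lit 65535))))) (Nat.add (Nat.add (Nat.shiftLeft (nat_lit 1) (Nat.land (Nat.shiftRight (V (nat_lit 24)) (S (nat_lit 52))) (nat_lit 65535))) (Nat.shiftLeft (nat_lit 1) (Nat.land (Nat.shiftRight (V (nat_lit 28)) (S (nat_lit 5))) (nat_lit 65535)))) (Nat.add (Nat.shiftLeft (nat_lit 1) (Nat.land (Nat.shiftRight (V (nat_lit 28)) (S (nat_lit 7))) (nat_lit 65535))) (Nat.shiftLeft (nat_lit 1) (Nat.land (Nat.shiftRight (V (nat_lit 28)) (S (nat_lit 9))) (nat_lit 65535))))))) (Nat.add (Nat.add (Nat.add (Nat.shiftLeft (nat_lit 1) (Nat.land (Nat.shiftRight (V (nat_lit 28)) (S (nat_lit 10))) (nat_lit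 65535))) (Nat.add (Nat.shiftLeft (nat_lit 1) (Nat.land (Nat.shiftRight (V (nat_lit 28)) (S (nat_lit 22))) (nat_lit 65535))) (Nat.shiftLeft (nat_lit 1) (Nat.land (Nat.shiftRight (V (nat_lit 28)) (S (nat_lit 49))) (nat_lit 65535))))) (Nat.add (Nat.add (Nat.shiftLeft (nat_lit 1) (Nat.land (Nat.shiftRight (V (nat_lit 29)) (S (nat_lit 4))) (nat_lit 65535))) (Nat.shiftLeft (nat_lit 1) (Nat.land (Nat.shiftRight (V (nat_lit 29)) (S (nat_lit 6))) (nat_lit 65535)))) (Nat.add (Nat.shiftLeft (nat_lit 1) (Nat.land (Nat.shiftRight (V (nat_lit 29)) (S (nat_lit 7))) (nat_lit 65535))) (Nat.shiftLeft (nat_lit 1) (Nat.land (Nat.shiftRight (V (nat_lit 29)) (S (nat_lit 10))) (nat_lit 65535)))))) (Nat.add (Nat.add (Nat.add (Nat.shiftLeft (nat_lit 1) (Nat.land (Nat.shiftRight (V (nat_lit 29)) (S (nat_lit 19))) (nat_lit 65535))) (Nat.shiftLeft (nat_lit 1) (Nat.land (Nat.shiftRight (V (nat_lit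 29)) (S (nat_lit 37))) (nat_lit 65535)))) (Nat.add (Nat.shiftLeft (nat_lit 1) (Nat.land (Nat.shiftRight (V (nat_lit 37)) (S (nat_lit 1))) (nat_lit 65535))) (Nat.shiftLeft (nat_lit 1) (Nat.land (Nat.shiftRight (V (nat_lit 37)) (S (nat_lit 2))) (nat_lit 65535))))) (Nat.add (Nat.add (Nat.shiftLeft (nat_lit 1) (Nat.land (Nat.shiftRight (V (nat_lit 37)) (S (nat_lit 5))) (nat_lit 65535))) (Nat.shiftLeft (nat_lit 1) (Nat.land (Nat.shiftRight (V (nat_lit 37)) (S (nat_lit 9))) (nat_lit 65535)))) (Nat.add (Nat.shiftLeft (nat_lit 1) (Nat.land (Nat.shiftRight (V (nat_lit 37)) (S (nat_lit 29))) (nat_lit 65535))) (Nat.shiftLeft (nat_lit 1) (Nat.land (Nat.shiftRight (V (nat_lit 37)) (S (nat_lit 51))) (nat_lit 65535)))))))) (Nat.add (Nat.add (Nat.add (Nat.add (Nat.shiftLeft (nat_lit 1) (Nat.land (Nat.shiftRight (V (nat_lit 39)) (S (nat_lit 5))) (nat_lit 65535))) (Nat.add (Nat.shiftLeft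 (nat_lit 1) (Nat.land (Nat.shiftRight (V (nat_lit 39)) (S (nat_lit 7))) (nat_lit 65535))) (Nat.shiftLeft (nat_lit 1) (Nat.land (Nat.shiftRight (V (nat_lit 39)) (S (nat_lit 9))) (nat_lit 65535))))) (Nat.add (Nat.add (Nat.shiftLeft (nat_lit 1) (Nat.land (Nat.shiftRight (V (nat_lit 39)) (S (nat_lit 10))) (nat_lit 65535))) (Nat.shiftLeft (nat_lit 1) (Nat.land (Nat.shiftRight (V (nat_lit 39)) (S (nat_lit 22))) (nat_lit 65535)))) (Nat.add (Nat.shiftLeft (nat_lit 1) (Nat.land (Nat.shiftRight (V (nat_lit 39)) (S (nat_lit 49))) (nat_lit 65535))) (Nat.shiftLeft (nat_lit 1) (Nat.land (Nat.shiftRight (V (nat_lit 40)) (S (nat_lit 4))) (nat_lit 65535)))))) (Nat.add (Nat.add (Nat.add (Nat.shiftLeft (nat_lit 1) (Nat.land (Nat.shiftRight (V (nat_lit 40)) (S (nat_lit 5))) (nat_lit 65535))) (Nat.shiftLeft (nat_lit 1) (Nat.land (Nat.shiftRight (V (nat_lit 40)) (S (nat_lit 6))) (nat_lit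 65535)))) (Nat.add (Nat.shiftLeft (nat_lit 1) (Nat.land (Nat.shiftRight (V (nat_lit 40)) (S (nat_lit 9))) (nat_lit 65535))) (Nat.shiftLeft (nat_lit 1) (Nat.land (Nat.shiftRight (V (nat_lit 40)) (S (nat_lit 15))) (nat_lit 65535))))) (Nat.add (Nat.add (Nat.shiftLeft (nat_lit 1) (Nat.land (Nat.shiftRight (V (nat_lit 40)) (S (nat_lit 24))) (nat_lit 65535))) (Nat.shiftLeft (nat_lit 1) (Nat.land (Nat.shiftRight (V (nat_lit 49)) (S (nat_lit 1))) (nat_lit 65535)))) (Nat.add (Nat.shiftLeft (nat_lit 1) (Nat.land (Nat.shiftRight (V (nat_lit 49)) (S (nat_lit 2))) (nat_lit 65535))) (Nat.shiftLeft (nat_lit 1) (Nat.land (Nat.shiftRight (V (nat_lit 49)) (S (nat_lit 4))) (nat_lit 65535))))))) (Nat.add (Nat.add (Nat.add (Nat.shiftLeft (nat_lit 1) (Nat.land (Nat.shiftRight (V (nat_lit 49)) (S (nat_lit 6))) (nat_lit 65535))) (Nat.add (Nat.shiftLeft (nat_lit 1) (Nat.land (Nat.shiftRight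 (V (nat_lit 49)) (S (nat_lit 28))) (nat_lit 65535))) (Nat.shiftLeft (nat_lit 1) (Nat.land (Nat.shiftRight (V (nat_lit 49)) (S (nat_lit 39))) (nat_lit 65535))))) (Nat.add (Nat.add (Nat.shiftLeft (nat_lit 1) (Nat.land (Nat.shiftRight (V (nat_lit 51)) (S (nat_lit 4))) (nat_lit 65535))) (Nat.shiftLeft (nat_lit 1) (Nat.land (Nat.shiftRight (V (nat_lit 51)) (S (nat_lit 6))) (nat_lit 65535)))) (Nat.add (Nat.shiftLeft (nat_lit 1) (Nat.land (Nat.shiftRight (V (nat_lit 51)) (S (nat_lit 7))) (nat_lit 65535))) (Nat.shiftLeft (nat_lit 1) (Nat.land (Nat.shiftRight (V (nat_lit 51)) (S (nat_lit 10))) (nat_lit 65535)))))) (Nat.add (Nat.add (Nat.add (Nat.shiftLeft (nat_lit 1) (Nat.land (Nat.shiftRight (V (nat_lit 51)) (S (nat_lit 19))) (nat_lit 65535))) (Nat.shiftLeft (nat_lit 1) (Nat.land (Nat.shiftRight (V (nat_lit 51)) (S (nat_lit 37))) (nat_lit 65535)))) (Nat.add (Nat.shiftLeft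 (nat_lit 1) (Nat.land (Nat.shiftRight (V (nat_lit 52)) (S (nat_lit 4))) (nat_lit 65535))) (Nat.shiftLeft (nat_lit 1) (Nat.land (Nat.shiftRight (V (nat_lit 52)) (S (nat_lit 5))) (nat_lit 65535))))) (Nat.add (Nat.add (Nat.shiftLeft (nat_lit 1) (Nat.land (Nat.shiftRight (V (nat_lit 52)) (S (nat_lit 6))) (nat_lit 65535))) (Nat.shiftLeft (nat_lit 1) (Nat.land (Nat.shiftRight (V (nat_lit 52)) (S (nat_lit 9))) (nat_lit 65535)))) (Nat.add (Nat.shiftLeft (nat_lit 1) (Nat.land (Nat.shiftRight (V (nat_lit 52)) (S (nat_lit 15))) (nat_lit 65535))) (Nat.shiftLeft (nat_lit 1) (Nat.land (Nat.shiftRight (V (nat_lit 52)) (S (nat_lit 24))) (nat_lit 65535)))))))))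
def E11_0 (V S : ℕ → ℕ) : ℕ := Nat.add (Nat.add (Nat.add (Nat.add (Nat.add (Nat.add (Nat.add (Nat.shiftLeft (nat_lit 1) (Nat.land (Nat.shiftRight (V (nat_lit 1)) (S (nat_lit 16))) (nat_lit 65535))) (Nat.add (Nat.shiftLeft (nat_lit 1) (Nat.land (Nat.shiftRight (V (nat_lit 1)) (S (nat_lit 18))) (nat_lit 65535))) (Nat.shiftLeft (nat_lit 1) (Nat.land (Nat.shiftRight (V (nat_lit 1)) (S (nat_lit 23))) (nat_lit 65535))))) (Nat.add (Nat.add (Nat.shiftLeft (nat_lit 1) (Nat.land (Nat.shiftRight (V (nat_lit 1)) (S (nat_lit 25))) (nat_lit 65535))) (Nat.shiftLeft (nat_lit 1) (Nat.land (Nat.shiftRight (V (nat_lit 1)) (S (nat_lit 36))) (nat_lit 65535)))) (Nat.add (Nat.shiftLeft (nat_lit 1) (Nat.land (Nat.shiftRight (V (nat_lit 1)) (S (nat_lit 50))) (nat_lit 65535))) (Nat.shiftLeft (nat_lit 1) (Nat.land (Nat.shiftRight (V (nat_lit 2)) (S (nat_lit 17))) (nat_lit 65535)))))) (Nat.add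 (Nat.add (Nat.add (Nat.shiftLeft (nat_lit 1) (Nat.land (Nat.shiftRight (V (nat_lit 2)) (S (nat_lit 20))) (nat_lit 65535))) (Nat.shiftLeft (nat_lit 1) (Nat.land (Nat.shiftRight (V (nat_lit 2)) (S (nat_lit 21))) (nat_lit 65535)))) (Nat.add (Nat.shiftLeft (nat_lit 1) (Nat.land (Nat.shiftRight (V (nat_lit 2)) (S (nat_lit 26))) (nat_lit 65535))) (Nat.shiftLeft (nat_lit 1) (Nat.land (Nat.shiftRight (V (nat_lit 2)) (S (nat_lit 38))) (nat_lit 65535))))) (Nat.add (Nat.add (Nat.shiftLeft (nat_lit 1) (Nat.land (Nat.shiftRight (V (nat_lit 2)) (S (nat_lit 48))) (nat_lit 65535))) (Nat.shiftLeft (nat_lit 1) (Nat.land (Nat.shiftRight (V (nat_lit 4)) (S (nat_lit 16))) (nat_lit 65535)))) (Nat.add (Nat.shiftLeft (nat_lit 1) (Nat.land (Nat.shiftRight (V (nat_lit 4)) (S (nat_lit 35))) (nat_lit 65535))) (Nat.shiftLeft (nat_lit 1) (Nat.land (Nat.shiftRight (V (nat_lit 4)) (S (nat_lit 44)))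 (nat_lit 65535))))))) (Nat.add (Nat.add (Nat.add (Nat.shiftLeft (nat_lit 1) (Nat.land (Nat.shiftRight (V (nat_lit 4)) (S (nat_lit 50))) (nat_lit 65535))) (Nat.add (Nat.shiftLeft (nat_lit 1) (Nat.land (Nat.shiftRight (V (nat_lit 4)) (S (nat_lit 54))) (nat_lit 65535))) (Nat.shiftLeft (nat_lit 1) (Nat.land (Nat.shiftRight (V (nat_lit 4)) (S (nat_lit 56))) (nat_lit 65535))))) (Nat.add (Nat.add (Nat.shiftLeft (nat_lit 1) (Nat.land (Nat.shiftRight (V (nat_lit 5)) (S (nat_lit 17))) (nat_lit 65535))) (Nat.shiftLeft (nat_lit 1) (Nat.land (Nat.shiftRight (V (nat_lit 5)) (S (nat_lit 32))) (nat_lit 65535)))) (Nat.add (Nat.shiftLeft (nat_lit 1) (Nat.land (Nat.shiftRight (V (nat_lit 5)) (S (nat_lit 38))) (nat_lit 65535))) (Nat.shiftLeft (nat_lit 1) (Nat.land (Nat.shiftRight (V (nat_lit 5)) (S (nat_lit 42))) (nat_lit 65535)))))) (Nat.add (Nat.add (Nat.add (Nat.shiftLeft (nat_lit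 1) (Nat.land (Nat.shiftRight (V (nat_lit 5)) (S (nat_lit 44))) (nat_lit 65535))) (Nat.shiftLeft (nat_lit 1) (Nat.land (Nat.shiftRight (V (nat_lit 5)) (S (nat_lit 56))) (nat_lit 65535)))) (Nat.add (Nat.shiftLeft (nat_lit 1) (Nat.land (Nat.shiftRight (V (nat_lit 6)) (S (nat_lit 20))) (nat_lit 65535))) (Nat.shiftLeft (nat_lit 1) (Nat.land (Nat.shiftRight (V (nat_lit 6)) (S (nat_lit 31))) (nat_lit 65535))))) (Nat.add (Nat.add (Nat.shiftLeft (nat_lit 1) (Nat.land (Nat.shiftRight (V (nat_lit 6)) (S (nat_lit 46))) (nat_lit 65535))) (Nat.shiftLeft (nat_lit 1) (Nat.land (Nat.shiftRight (V (nat_lit 6)) (S (nat_lit 48))) (nat_lit 65535)))) (Nat.add (Nat.shiftLeft (nat_lit 1) (Nat.land (Nat.shiftRight (V (nat_lit 6)) (S (nat_lit 57))) (nat_lit 65535))) (Nat.shiftLeft (nat_lit 1) (Nat.land (Nat.shiftRight (V (nat_lit 6)) (S (nat_lit 58))) (nat_lit 65535)))))))) (Nat.add (Nat.add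 (Nat.add (Nat.add (Nat.shiftLeft (nat_lit 1) (Nat.land (Nat.shiftRight (V (nat_lit 7)) (S (nat_lit 18))) (nat_lit 65535))) (Nat.add (Nat.shiftLeft (nat_lit 1) (Nat.land (Nat.shiftRight (V (nat_lit 7)) (S (nat_lit 25))) (nat_lit 65535))) (Nat.shiftLeft (nat_lit 1) (Nat.land (Nat.shiftRight (V (nat_lit 7)) (S (nat_lit 31))) (nat_lit 65535))))) (Nat.add (Nat.add (Nat.shiftLeft (nat_lit 1) (Nat.land (Nat.shiftRight (V (nat_lit 7)) (S (nat_lit 32))) (nat_lit 65535))) (Nat.shiftLeft (nat_lit 1) (Nat.land (Nat.shiftRight (V (nat_lit 7)) (S (nat_lit 42))) (nat_lit 65535)))) (Nat.add (Nat.shiftLeft (nat_lit 1) (Nat.land (Nat.shiftRight (V (nat_lit 7)) (S (nat_lit 57))) (nat_lit 65535))) (Nat.shiftLeft (nat_lit 1) (Nat.land (Nat.shiftRight (V (nat_lit 9)) (S (nat_lit 23))) (nat_lit 65535)))))) (Nat.add (Nat.add (Nat.add (Nat.shiftLeft (nat_lit 1) (Nat.land (Nat.shiftRight (V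 (nat_lit 9)) (S (nat_lit 34))) (nat_lit 65535))) (Nat.shiftLeft (nat_lit 1) (Nat.land (Nat.shiftRight (V (nat_lit 9)) (S (nat_lit 36))) (nat_lit 65535)))) (Nat.add (Nat.shiftLeft (nat_lit 1) (Nat.land (Nat.shiftRight (V (nat_lit 9)) (S (nat_lit 45))) (nat_lit 65535))) (Nat.shiftLeft (nat_lit 1) (Nat.land (Nat.shiftRight (V (nat_lit 9)) (S (nat_lit 46))) (nat_lit 65535))))) (Nat.add (Nat.add (Nat.shiftLeft (nat_lit 1) (Nat.land (Nat.shiftRight (V (nat_lit 9)) (S (nat_lit 58))) (nat_lit 65535))) (Nat.shiftLeft (nat_lit 1) (Nat.land (Nat.shiftRight (V (nat_lit 10)) (S (nat_lit 21))) (nat_lit 65535)))) (Nat.add (Nat.shiftLeft (nat_lit 1) (Nat.land (Nat.shiftRight (V (nat_lit 10)) (S (nat_lit 26))) (nat_lit 65535))) (Nat.shiftLeft (nat_lit 1) (Nat.land (Nat.shiftRight (V (nat_lit 10)) (S (nat_lit 34))) (nat_lit 65535))))))) (Nat.add (Nat.add (Nat.add (Nat.shiftLeft (nat_lit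 1) (Nat.land (Nat.shiftRight (V (nat_lit 10)) (S (nat_lit 35))) (nat_lit 65535))) (Nat.add (Nat.shiftLeft (nat_lit 1) (Nat.land (Nat.shiftRight (V (nat_lit 10)) (S (nat_lit 45))) (nat_lit 65535))) (Nat.shiftLeft (nat_lit 1) (Nat.land (Nat.shiftRight (V (nat_lit 10)) (S (nat_lit 54))) (nat_lit 65535))))) (Nat.add (Nat.add (Nat.shiftLeft (nat_lit 1) (Nat.land (Nat.shiftRight (V (nat_lit 15)) (S (nat_lit 16))) (nat_lit 65535))) (Nat.shiftLeft (nat_lit 1) (Nat.land (Nat.shiftRight (V (nat_lit 15)) (S (nat_lit 17))) (nat_lit 65535)))) (Nat.add (Nat.shiftLeft (nat_lit 1) (Nat.land (Nat.shiftRight (V (nat_lit 15)) (S (nat_lit 18))) (nat_lit 65535))) (Nat.shiftLeft (nat_lit 1) (Nat.land (Nat.shiftRight (V (nat_lit 15)) (S (nat_lit 21))) (nat_lit 65535)))))) (Nat.add (Nat.add (Nat.add (Nat.shiftLeft (nat_lit 1) (Nat.land (Nat.shiftRight (V (nat_lit 15)) (S (nat_lit 42))) (nat_lit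 65535))) (Nat.shiftLeft (nat_lit 1) (Nat.land (Nat.shiftRight (V (nat_lit 15)) (S (nat_lit 54))) (nat_lit 65535)))) (Nat.add (Nat.shiftLeft (nat_lit 1) (Nat.land (Nat.shiftRight (V (nat_lit 16)) (S (nat_lit 1))) (nat_lit 65535))) (Nat.shiftLeft (nat_lit 1) (Nat.land (Nat.shiftRight (V (nat_lit 16)) (S (nat_lit 4))) (nat_lit 65535))))) (Nat.add (Nat.add (Nat.shiftLeft (nat_lit 1) (Nat.land (Nat.shiftRight (V (nat_lit 16)) (S (nat_lit 15))) (nat_lit 65535))) (Nat.shiftLeft (nat_lit 1) (Nat.land (Nat.shiftRight (V (nat_lit 16)) (S (nat_lit 22))) (nat_lit 65535)))) (Nat.add (Nat.shiftLeft (nat_lit 1) (Nat.land (Nat.shiftRight (V (nat_lit 16)) (S (nat_lit 40))) (nat_lit 65535))) (Nat.shiftLeft (nat_lit 1) (Nat.land (Nat.shiftRight (V (nat_lit 17)) (S (nat_lit 2))) (nat_lit 65535))))))))) (Nat.add (Nat.add (Nat.add (Nat.add (Nat.add (Nat.shiftLeft (nat_lit 1) (Nat.land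 (Nat.shiftRight (V (nat_lit 17)) (S (nat_lit 5))) (nat_lit 65535))) (Nat.add (Nat.shiftLeft (nat_lit 1) (Nat.land (Nat.shiftRight (V (nat_lit 17)) (S (nat_lit 15))) (nat_lit 65535))) (Nat.shiftLeft (nat_lit 1) (Nat.land (Nat.shiftRight (V (nat_lit 17)) (S (nat_lit 19))) (nat_lit 65535))))) (Nat.add (Nat.add (Nat.shiftLeft (nat_lit 1) (Nat.land (Nat.shiftRight (V (nat_lit 17)) (S (nat_lit 52))) (nat_lit 65535))) (Nat.shiftLeft (nat_lit 1) (Nat.land (Nat.shiftRight (V (nat_lit 18)) (S (nat_lit 1))) (nat_lit 65535)))) (Nat.add (Nat.shiftLeft (nat_lit 1) (Nat.land (Nat.shiftRight (V (nat_lit 18)) (S (nat_lit 7))) (nat_lit 65535))) (Nat.shiftLeft (nat_lit 1) (Nat.land (Nat.shiftRight (V (nat_lit 18)) (S (nat_lit 15))) (nat_lit 65535)))))) (Nat.add (Nat.add (Nat.add (Nat.shiftLeft (nat_lit 1) (Nat.land (Nat.shiftRight (V (nat_lit 18)) (S (nat_lit 19))) (nat_lit 65535)))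 (Nat.shiftLeft (nat_lit 1) (Nat.land (Nat.shiftRight (V (nat_lit 18)) (S (nat_lit 51))) (nat_lit 65535)))) (Nat.add (Nat.shiftLeft (nat_lit 1) (Nat.land (Nat.shiftRight (V (nat_lit 19)) (S (nat_lit 17))) (nat_lit 65535))) (Nat.shiftLeft (nat_lit 1) (Nat.land (Nat.shiftRight (V (nat_lit 19)) (S (nat_lit 18))) (nat_lit 65535))))) (Nat.add (Nat.add (Nat.shiftLeft (nat_lit 1) (Nat.land (Nat.shiftRight (V (nat_lit 19)) (S (nat_lit 20))) (nat_lit 65535))) (Nat.shiftLeft (nat_lit 1) (Nat.land (Nat.shiftRight (V (nat_lit 19)) (S (nat_lit 23))) (nat_lit 65535)))) (Nat.add (Nat.shiftLeft (nat_lit 1) (Nat.land (Nat.shiftRight (V (nat_lit 19)) (S (nat_lit 32))) (nat_lit 65535))) (Nat.shiftLeft (nat_lit 1) (Nat.land (Nat.shiftRight (V (nat_lit 19)) (S (nat_lit 58))) (nat_lit 65535))))))) (Nat.add (Nat.add (Nat.add (Nat.shiftLeft (nat_lit 1) (Nat.land (Nat.shiftRight (V (nat_lit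 20)) (S (nat_lit 2))) (nat_lit 65535))) (Nat.add (Nat.shiftLeft (nat_lit 1) (Nat.land (Nat.shiftRight (V (nat_lit 20)) (S (nat_lit 6))) (nat_lit 65535))) (Nat.shiftLeft (nat_lit 1) (Nat.land (Nat.shiftRight (V (nat_lit 20)) (S (nat_lit 19))) (nat_lit 65535))))) (Nat.add (Nat.add (Nat.shiftLeft (nat_lit 1) (Nat.land (Nat.shiftRight (V (nat_lit 20)) (S (nat_lit 22))) (nat_lit 65535))) (Nat.shiftLeft (nat_lit 1) (Nat.land (Nat.shiftRight (V (nat_lit 20)) (S (nat_lit 29))) (nat_lit 65535)))) (Nat.add (Nat.shiftLeft (nat_lit 1) (Nat.land (Nat.shiftRight (V (nat_lit 21)) (S (nat_lit 2))) (nat_lit 65535))) (Nat.shiftLeft (nat_lit 1) (Nat.land (Nat.shiftRight (V (nat_lit 21)) (S (nat_lit 10))) (nat_lit 65535)))))) (Nat.add (Nat.add (Nat.add (Nat.shiftLeft (nat_lit 1) (Nat.land (Nat.shiftRight (V (nat_lit 21)) (S (nat_lit 15))) (nat_lit 65535))) (Nat.shiftLeft (nat_lit 1)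 (Nat.land (Nat.shiftRight (V (nat_lit 21)) (S (nat_lit 22))) (nat_lit 65535)))) (Nat.add (Nat.shiftLeft (nat_lit 1) (Nat.land (Nat.shiftRight (V (nat_lit 21)) (S (nat_lit 39))) (nat_lit 65535))) (Nat.shiftLeft (nat_lit 1) (Nat.land (Nat.shiftRight (V (nat_lit 22)) (S (nat_lit 16))) (nat_lit 65535))))) (Nat.add (Nat.add (Nat.shiftLeft (nat_lit 1) (Nat.land (Nat.shiftRight (V (nat_lit 22)) (S (nat_lit 20))) (nat_lit 65535))) (Nat.shiftLeft (nat_lit 1) (Nat.land (Nat.shiftRight (V (nat_lit 22)) (S (nat_lit 21))) (nat_lit 65535)))) (Nat.add (Nat.shiftLeft (nat_lit 1) (Nat.land (Nat.shiftRight (V (nat_lit 22)) (S (nat_lit 23))) (nat_lit 65535))) (Nat.shiftLeft (nat_lit 1) (Nat.land (Nat.shiftRight (V (nat_lit 22)) (S (nat_lit 35))) (nat_lit 65535)))))))) (Nat.add (Nat.add (Nat.add (Nat.add (Nat.shiftLeft (nat_lit 1) (Nat.land (Nat.shiftRight (V (nat_lit 22)) (S (nat_lit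 46))) (nat_lit 65535))) (Nat.add (Nat.shiftLeft (nat_lit 1) (Nat.land (Nat.shiftRight (V (nat_lit 23)) (S (nat_lit 1))) (nat_lit 65535))) (Nat.shiftLeft (nat_lit 1) (Nat.land (Nat.shiftRight (V (nat_lit 23)) (S (nat_lit 9))) (nat_lit 65535))))) (Nat.add (Nat.add (Nat.shiftLeft (nat_lit 1) (Nat.land (Nat.shiftRight (V (nat_lit 23)) (S (nat_lit 19))) (nat_lit 65535))) (Nat.shiftLeft (nat_lit 1) (Nat.land (Nat.shiftRight (V (nat_lit 23)) (S (nat_lit 22))) (nat_lit 65535)))) (Nat.add (Nat.shiftLeft (nat_lit 1) (Nat.land (Nat.shiftRight (V (nat_lit 23)) (S (nat_lit 28))) (nat_lit 65535))) (Nat.shiftLeft (nat_lit 1) (Nat.land (Nat.shiftRight (V (nat_lit 24)) (S (nat_lit 25))) (nat_lit 65535)))))) (Nat.add (Nat.add (Nat.add (Nat.shiftLeft (nat_lit 1) (Nat.land (Nat.shiftRight (V (nat_lit 24)) (S (nat_lit 26))) (nat_lit 65535))) (Nat.shiftLeft (nat_lit 1) (Nat.land (Nat.shiftRight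 (V (nat_lit 24)) (S (nat_lit 31))) (nat_lit 65535)))) (Nat.add (Nat.shiftLeft (nat_lit 1) (Nat.land (Nat.shiftRight (V (nat_lit 24)) (S (nat_lit 34))) (nat_lit 65535))) (Nat.shiftLeft (nat_lit 1) (Nat.land (Nat.shiftRight (V (nat_lit 24)) (S (nat_lit 36))) (nat_lit 65535))))) (Nat.add (Nat.add (Nat.shiftLeft (nat_lit 1) (Nat.land (Nat.shiftRight (V (nat_lit 24)) (S (nat_lit 48))) (nat_lit 65535))) (Nat.shiftLeft (nat_lit 1) (Nat.land (Nat.shiftRight (V (nat_lit 25)) (S (nat_lit 1))) (nat_lit 65535)))) (Nat.add (Nat.shiftLeft (nat_lit 1) (Nat.land (Nat.shiftRight (V (nat_lit 25)) (S (nat_lit 7))) (nat_lit 65535))) (Nat.shiftLeft (nat_lit 1) (Nat.land (Nat.shiftRight (V (nat_lit 25)) (S (nat_lit 24))) (nat_lit 65535))))))) (Nat.add (Nat.add (Nat.add (Nat.shiftLeft (nat_lit 1) (Nat.land (Nat.shiftRight (V (nat_lit 25)) (S (nat_lit 28))) (nat_lit 65535))) (Nat.add (Nat.shiftLeft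 (nat_lit 1) (Nat.land (Nat.shiftRight (V (nat_lit 25)) (S (nat_lit 49))) (nat_lit 65535))) (Nat.shiftLeft (nat_lit 1) (Nat.land (Nat.shiftRight (V (nat_lit 26)) (S (nat_lit 2))) (nat_lit 65535))))) (Nat.add (Nat.add (Nat.shiftLeft (nat_lit 1) (Nat.land (Nat.shiftRight (V (nat_lit 26)) (S (nat_lit 10))) (nat_lit 65535))) (Nat.shiftLeft (nat_lit 1) (Nat.land (Nat.shiftRight (V (nat_lit 26)) (S (nat_lit 24))) (nat_lit 65535)))) (Nat.add (Nat.shiftLeft (nat_lit 1) (Nat.land (Nat.shiftRight (V (nat_lit 26)) (S (nat_lit 29))) (nat_lit 65535))) (Nat.shiftLeft (nat_lit 1) (Nat.land (Nat.shiftRight (V (nat_lit 26)) (S (nat_lit 37))) (nat_lit 65535)))))) (Nat.add (Nat.add (Nat.add (Nat.shiftLeft (nat_lit 1) (Nat.land (Nat.shiftRight (V (nat_lit 28)) (S (nat_lit 23))) (nat_lit 65535))) (Nat.shiftLeft (nat_lit 1) (Nat.land (Nat.shiftRight (V (nat_lit 28)) (S (nat_lit 25))) (nat_lit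 65535)))) (Nat.add (Nat.shiftLeft (nat_lit 1) (Nat.land (Nat.shiftRight (V (nat_lit 28)) (S (nat_lit 32))) (nat_lit 65535))) (Nat.shiftLeft (nat_lit 1) (Nat.land (Nat.shiftRight (V (nat_lit 28)) (S (nat_lit 34))) (nat_lit 65535))))) (Nat.add (Nat.add (Nat.shiftLeft (nat_lit 1) (Nat.land (Nat.shiftRight (V (nat_lit 28)) (S (nat_lit 35))) (nat_lit 65535))) (Nat.shiftLeft (nat_lit 1) (Nat.land (Nat.shiftRight (V (nat_lit 28)) (S (nat_lit 56))) (nat_lit 65535)))) (Nat.add (Nat.shiftLeft (nat_lit 1) (Nat.land (Nat.shiftRight (V (nat_lit 29)) (S (nat_lit 20))) (nat_lit 65535))) (Nat.shiftLeft (nat_lit 1) (Nat.land (Nat.shiftRight (V (nat_lit 29)) (S (nat_lit 26))) (nat_lit 65535)))))))))) (Nat.add (Nat.add (Nat.add (Nat.add (Nat.add (Nat.add (Nat.shiftLeft (nat_lit 1) (Nat.land (Nat.shiftRight (V (nat_lit 29)) (S (nat_lit 31))) (nat_lit 65535))) (Nat.add (Nat.shiftLeft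 (nat_lit 1) (Nat.land (Nat.shiftRight (V (nat_lit 29)) (S (nat_lit 32))) (nat_lit 65535))) (Nat.shiftLeft (nat_lit 1) (Nat.land (Nat.shiftRight (V (nat_lit 29)) (S (nat_lit 35))) (nat_lit 65535))))) (Nat.add (Nat.add (Nat.shiftLeft (nat_lit 1) (Nat.land (Nat.shiftRight (V (nat_lit 29)) (S (nat_lit 44))) (nat_lit 65535))) (Nat.shiftLeft (nat_lit 1) (Nat.land (Nat.shiftRight (V (nat_lit 31)) (S (nat_lit 6))) (nat_lit 65535)))) (Nat.add (Nat.shiftLeft (nat_lit 1) (Nat.land (Nat.shiftRight (V (nat_lit 31)) (S (nat_lit 7))) (nat_lit 65535))) (Nat.shiftLeft (nat_lit 1) (Nat.land (Nat.shiftRight (V (nat_lit 31)) (S (nat_lit 24))) (nat_lit 65535)))))) (Nat.add (Nat.add (Nat.add (Nat.shiftLeft (nat_lit 1) (Nat.land (Nat.shiftRight (V (nat_lit 31)) (S (nat_lit 29))) (nat_lit 65535))) (Nat.shiftLeft (nat_lit 1) (Nat.land (Nat.shiftRight (V (nat_lit 31)) (S (nat_lit 40))) (nat_lit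 65535)))) (Nat.add (Nat.shiftLeft (nat_lit 1) (Nat.land (Nat.shiftRight (V (nat_lit 32)) (S (nat_lit 5))) (nat_lit 65535))) (Nat.shiftLeft (nat_lit 1) (Nat.land (Nat.shiftRight (V (nat_lit 32)) (S (nat_lit 7))) (nat_lit 65535))))) (Nat.add (Nat.add (Nat.shiftLeft (nat_lit 1) (Nat.land (Nat.shiftRight (V (nat_lit 32)) (S (nat_lit 19))) (nat_lit 65535))) (Nat.shiftLeft (nat_lit 1) (Nat.land (Nat.shiftRight (V (nat_lit 32)) (S (nat_lit 28))) (nat_lit 65535)))) (Nat.add (Nat.shiftLeft (nat_lit 1) (Nat.land (Nat.shiftRight (V (nat_lit 32)) (S (nat_lit 29))) (nat_lit 65535))) (Nat.shiftLeft (nat_lit 1) (Nat.land (Nat.shiftRight (V (nat_lit 34)) (S (nat_lit 9))) (nat_lit 65535))))))) (Nat.add (Nat.add (Nat.add (Nat.shiftLeft (nat_lit 1) (Nat.land (Nat.shiftRight (V (nat_lit 34)) (S (nat_lit 10))) (nat_lit 65535))) (Nat.add (Nat.shiftLeft (nat_lit 1) (Nat.land (Nat.shiftRight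 (V (nat_lit 34)) (S (nat_lit 24))) (nat_lit 65535))) (Nat.shiftLeft (nat_lit 1) (Nat.land (Nat.shiftRight (V (nat_lit 34)) (S (nat_lit 28))) (nat_lit 65535))))) (Nat.add (Nat.add (Nat.shiftLeft (nat_lit 1) (Nat.land (Nat.shiftRight (V (nat_lit 34)) (S (nat_lit 52))) (nat_lit 65535))) (Nat.shiftLeft (nat_lit 1) (Nat.land (Nat.shiftRight (V (nat_lit 35)) (S (nat_lit 4))) (nat_lit 65535)))) (Nat.add (Nat.shiftLeft (nat_lit 1) (Nat.land (Nat.shiftRight (V (nat_lit 35)) (S (nat_lit 10))) (nat_lit 65535))) (Nat.shiftLeft (nat_lit 1) (Nat.land (Nat.shiftRight (V (nat_lit 35)) (S (nat_lit 22))) (nat_lit 65535)))))) (Nat.add (Nat.add (Nat.add (Nat.shiftLeft (nat_lit 1) (Nat.land (Nat.shiftRight (V (nat_lit 35)) (S (nat_lit 28))) (nat_lit 65535))) (Nat.shiftLeft (nat_lit 1) (Nat.land (Nat.shiftRight (V (nat_lit 35)) (S (nat_lit 29))) (nat_lit 65535)))) (Nat.add (Nat.shiftLeft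 (nat_lit 1) (Nat.land (Nat.shiftRight (V (nat_lit 36)) (S (nat_lit 1))) (nat_lit 65535))) (Nat.shiftLeft (nat_lit 1) (Nat.land (Nat.shiftRight (V (nat_lit 36)) (S (nat_lit 9))) (nat_lit 65535))))) (Nat.add (Nat.add (Nat.shiftLeft (nat_lit 1) (Nat.land (Nat.shiftRight (V (nat_lit 36)) (S (nat_lit 24))) (nat_lit 65535))) (Nat.shiftLeft (nat_lit 1) (Nat.land (Nat.shiftRight (V (nat_lit 36)) (S (nat_lit 37))) (nat_lit 65535)))) (Nat.add (Nat.shiftLeft (nat_lit 1) (Nat.land (Nat.shiftRight (V (nat_lit 36)) (S (nat_lit 40))) (nat_lit 65535))) (Nat.shiftLeft (nat_lit 1) (Nat.land (Nat.shiftRight (V (nat_lit 37)) (S (nat_lit 26))) (nat_lit 65535)))))))) (Nat.add (Nat.add (Nat.add (Nat.add (Nat.shiftLeft (nat_lit 1) (Nat.land (Nat.shiftRight (V (nat_lit 37)) (S (nat_lit 36))) (nat_lit 65535))) (Nat.add (Nat.shiftLeft (nat_lit 1) (Nat.land (Nat.shiftRight (V (nat_lit 37)) (S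 (nat_lit 38))) (nat_lit 65535))) (Nat.shiftLeft (nat_lit 1) (Nat.land (Nat.shiftRight (V (nat_lit 37)) (S (nat_lit 44))) (nat_lit 65535))))) (Nat.add (Nat.add (Nat.shiftLeft (nat_lit 1) (Nat.land (Nat.shiftRight (V (nat_lit 37)) (S (nat_lit 45))) (nat_lit 65535))) (Nat.shiftLeft (nat_lit 1) (Nat.land (Nat.shiftRight (V (nat_lit 37)) (S (nat_lit 50))) (nat_lit 65535)))) (Nat.add (Nat.shiftLeft (nat_lit 1) (Nat.land (Nat.shiftRight (V (nat_lit 38)) (S (nat_lit 2))) (nat_lit 65535))) (Nat.shiftLeft (nat_lit 1) (Nat.land (Nat.shiftRight (V (nat_lit 38)) (S (nat_lit 5))) (nat_lit 65535)))))) (Nat.add (Nat.add (Nat.add (Nat.shiftLeft (nat_lit 1) (Nat.land (Nat.shiftRight (V (nat_lit 38)) (S (nat_lit 37))) (nat_lit 65535))) (Nat.shiftLeft (nat_lit 1) (Nat.land (Nat.shiftRight (V (nat_lit 38)) (S (nat_lit 39))) (nat_lit 65535)))) (Nat.add (Nat.shiftLeft (nat_lit 1) (Nat.land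 (Nat.shiftRight (V (nat_lit 38)) (S (nat_lit 49))) (nat_lit 65535))) (Nat.shiftLeft (nat_lit 1) (Nat.land (Nat.shiftRight (V (nat_lit 39)) (S (nat_lit 21))) (nat_lit 65535))))) (Nat.add (Nat.add (Nat.shiftLeft (nat_lit 1) (Nat.land (Nat.shiftRight (V (nat_lit 39)) (S (nat_lit 38))) (nat_lit 65535))) (Nat.shiftLeft (nat_lit 1) (Nat.land (Nat.shiftRight (V (nat_lit 39)) (S (nat_lit 42))) (nat_lit 65535)))) (Nat.add (Nat.shiftLeft (nat_lit 1) (Nat.land (Nat.shiftRight (V (nat_lit 39)) (S (nat_lit 45))) (nat_lit 65535))) (Nat.shiftLeft (nat_lit 1) (Nat.land (Nat.shiftRight (V (nat_lit 39)) (S (nat_lit 46))) (nat_lit 65535))))))) (Nat.add (Nat.add (Nat.add (Nat.shiftLeft (nat_lit 1) (Nat.land (Nat.shiftRight (V (nat_lit 39)) (S (nat_lit 57))) (nat_lit 65535))) (Nat.add (Nat.shiftLeft (nat_lit 1) (Nat.land (Nat.shiftRight (V (nat_lit 40)) (S (nat_lit 16))) (nat_lit 65535)))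 (Nat.shiftLeft (nat_lit 1) (Nat.land (Nat.shiftRight (V (nat_lit 40)) (S (nat_lit 31))) (nat_lit 65535))))) (Nat.add (Nat.add (Nat.shiftLeft (nat_lit 1) (Nat.land (Nat.shiftRight (V (nat_lit 40)) (S (nat_lit 36))) (nat_lit 65535))) (Nat.shiftLeft (nat_lit 1) (Nat.land (Nat.shiftRight (V (nat_lit 40)) (S (nat_lit 42))) (nat_lit 65535)))) (Nat.add (Nat.shiftLeft (nat_lit 1) (Nat.land (Nat.shiftRight (V (nat_lit 40)) (S (nat_lit 44))) (nat_lit 65535))) (Nat.shiftLeft (nat_lit 1) (Nat.land (Nat.shiftRight (V (nat_lit 40)) (S (nat_lit 46))) (nat_lit 65535)))))) (Nat.add (Nat.add (Nat.add (Nat.shiftLeft (nat_lit 1) (Nat.land (Nat.shiftRight (V (nat_lit 42)) (S (nat_lit 5))) (nat_lit 65535))) (Nat.shiftLeft (nat_lit 1) (Nat.land (Nat.shiftRight (V (nat_lit 42)) (S (nat_lit 7))) (nat_lit 65535)))) (Nat.add (Nat.shiftLeft (nat_lit 1) (Nat.land (Nat.shiftRight (V (nat_lit 42))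 (S (nat_lit 15))) (nat_lit 65535))) (Nat.shiftLeft (nat_lit 1) (Nat.land (Nat.shiftRight (V (nat_lit 42)) (S (nat_lit 39))) (nat_lit 65535))))) (Nat.add (Nat.add (Nat.shiftLeft (nat_lit 1) (Nat.land (Nat.shiftRight (V (nat_lit 42)) (S (nat_lit 40))) (nat_lit 65535))) (Nat.shiftLeft (nat_lit 1) (Nat.land (Nat.shiftRight (V (nat_lit 44)) (S (nat_lit 4))) (nat_lit 65535)))) (Nat.add (Nat.shiftLeft (nat_lit 1) (Nat.land (Nat.shiftRight (V (nat_lit 44)) (S (nat_lit 5))) (nat_lit 65535))) (Nat.shiftLeft (nat_lit 1) (Nat.land (Nat.shiftRight (V (nat_lit 44)) (S (nat_lit 29))) (nat_lit 65535))))))))) (Nat.add (Nat.add (Nat.add (Nat.add (Nat.add (Nat.shiftLeft (nat_lit 1) (Nat.land (Nat.shiftRight (V (nat_lit 44)) (S (nat_lit 37))) (nat_lit 65535))) (Nat.add (Nat.shiftLeft (nat_lit 1) (Nat.land (Nat.shiftRight (V (nat_lit 44)) (S (nat_lit 40))) (nat_lit 65535))) (Nat.shiftLeft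 (nat_lit 1) (Nat.land (Nat.shiftRight (V (nat_lit 45)) (S (nat_lit 9))) (nat_lit 65535))))) (Nat.add (Nat.add (Nat.shiftLeft (nat_lit 1) (Nat.land (Nat.shiftRight (V (nat_lit 45)) (S (nat_lit 10))) (nat_lit 65535))) (Nat.shiftLeft (nat_lit 1) (Nat.land (Nat.shiftRight (V (nat_lit 45)) (S (nat_lit 37))) (nat_lit 65535)))) (Nat.add (Nat.shiftLeft (nat_lit 1) (Nat.land (Nat.shiftRight (V (nat_lit 45)) (S (nat_lit 39))) (nat_lit 65535))) (Nat.shiftLeft (nat_lit 1) (Nat.land (Nat.shiftRight (V (nat_lit 45)) (S (nat_lit 51))) (nat_lit 65535)))))) (Nat.add (Nat.add (Nat.add (Nat.shiftLeft (nat_lit 1) (Nat.land (Nat.shiftRight (V (nat_lit 46)) (S (nat_lit 6))) (nat_lit 65535))) (Nat.shiftLeft (nat_lit 1) (Nat.land (Nat.shiftRight (V (nat_lit 46)) (S (nat_lit 9))) (nat_lit 65535)))) (Nat.add (Nat.shiftLeft (nat_lit 1) (Nat.land (Nat.shiftRight (V (nat_lit 46)) (S (nat_lit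 22))) (nat_lit 65535))) (Nat.shiftLeft (nat_lit 1) (Nat.land (Nat.shiftRight (V (nat_lit 46)) (S (nat_lit 39))) (nat_lit 65535))))) (Nat.add (Nat.add (Nat.shiftLeft (nat_lit 1) (Nat.land (Nat.shiftRight (V (nat_lit 46)) (S (nat_lit 40))) (nat_lit 65535))) (Nat.shiftLeft (nat_lit 1) (Nat.land (Nat.shiftRight (V (nat_lit 48)) (S (nat_lit 2))) (nat_lit 65535)))) (Nat.add (Nat.shiftLeft (nat_lit 1) (Nat.land (Nat.shiftRight (V (nat_lit 48)) (S (nat_lit 6))) (nat_lit 65535))) (Nat.shiftLeft (nat_lit 1) (Nat.land (Nat.shiftRight (V (nat_lit 48)) (S (nat_lit 24))) (nat_lit 65535))))))) (Nat.add (Nat.add (Nat.add (Nat.shiftLeft (nat_lit 1) (Nat.land (Nat.shiftRight (V (nat_lit 48)) (S (nat_lit 49))) (nat_lit 65535))) (Nat.add (Nat.shiftLeft (nat_lit 1) (Nat.land (Nat.shiftRight (V (nat_lit 48)) (S (nat_lit 52))) (nat_lit 65535))) (Nat.shiftLeft (nat_lit 1) (Nat.land (Nat.shiftRight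 (V (nat_lit 49)) (S (nat_lit 25))) (nat_lit 65535))))) (Nat.add (Nat.add (Nat.shiftLeft (nat_lit 1) (Nat.land (Nat.shiftRight (V (nat_lit 49)) (S (nat_lit 38))) (nat_lit 65535))) (Nat.shiftLeft (nat_lit 1) (Nat.land (Nat.shiftRight (V (nat_lit 49)) (S (nat_lit 48))) (nat_lit 65535)))) (Nat.add (Nat.shiftLeft (nat_lit 1) (Nat.land (Nat.shiftRight (V (nat_lit 49)) (S (nat_lit 50))) (nat_lit 65535))) (Nat.shiftLeft (nat_lit 1) (Nat.land (Nat.shiftRight (V (nat_lit 49)) (S (nat_lit 56))) (nat_lit 65535)))))) (Nat.add (Nat.add (Nat.add (Nat.shiftLeft (nat_lit 1) (Nat.land (Nat.shiftRight (V (nat_lit 49)) (S (nat_lit 57))) (nat_lit 65535))) (Nat.shiftLeft (nat_lit 1) (Nat.land (Nat.shiftRight (V (nat_lit 50)) (S (nat_lit 1))) (nat_lit 65535)))) (Nat.add (Nat.shiftLeft (nat_lit 1) (Nat.land (Nat.shiftRight (V (nat_lit 50)) (S (nat_lit 4))) (nat_lit 65535))) (Nat.shiftLeft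 (nat_lit 1) (Nat.land (Nat.shiftRight (V (nat_lit 50)) (S (nat_lit 37))) (nat_lit 65535))))) (Nat.add (Nat.add (Nat.shiftLeft (nat_lit 1) (Nat.land (Nat.shiftRight (V (nat_lit 50)) (S (nat_lit 49))) (nat_lit 65535))) (Nat.shiftLeft (nat_lit 1) (Nat.land (Nat.shiftRight (V (nat_lit 50)) (S (nat_lit 51))) (nat_lit 65535)))) (Nat.add (Nat.shiftLeft (nat_lit 1) (Nat.land (Nat.shiftRight (V (nat_lit 51)) (S (nat_lit 18))) (nat_lit 65535))) (Nat.shiftLeft (nat_lit 1) (Nat.land (Nat.shiftRight (V (nat_lit 51)) (S (nat_lit 45))) (nat_lit 65535)))))))) (Nat.add (Nat.add (Nat.add (Nat.add (Nat.shiftLeft (nat_lit 1) (Nat.land (Nat.shiftRight (V (nat_lit 51)) (S (nat_lit 50))) (nat_lit 65535))) (Nat.add (Nat.shiftLeft (nat_lit 1) (Nat.land (Nat.shiftRight (V (nat_lit 51)) (S (nat_lit 54))) (nat_lit 65535))) (Nat.shiftLeft (nat_lit 1) (Nat.land (Nat.shiftRight (V (nat_lit 51))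 (S (nat_lit 57))) (nat_lit 65535))))) (Nat.add (Nat.add (Nat.shiftLeft (nat_lit 1) (Nat.land (Nat.shiftRight (V (nat_lit 51)) (S (nat_lit 58))) (nat_lit 65535))) (Nat.shiftLeft (nat_lit 1) (Nat.land (Nat.shiftRight (V (nat_lit 52)) (S (nat_lit 17))) (nat_lit 65535)))) (Nat.add (Nat.shiftLeft (nat_lit 1) (Nat.land (Nat.shiftRight (V (nat_lit 52)) (S (nat_lit 34))) (nat_lit 65535))) (Nat.shiftLeft (nat_lit 1) (Nat.land (Nat.shiftRight (V (nat_lit 52)) (S (nat_lit 48))) (nat_lit 65535)))))) (Nat.add (Nat.add (Nat.add (Nat.shiftLeft (nat_lit 1) (Nat.land (Nat.shiftRight (V (nat_lit 52)) (S (nat_lit 54))) (nat_lit 65535))) (Nat.shiftLeft (nat_lit 1) (Nat.land (Nat.shiftRight (V (nat_lit 52)) (S (nat_lit 56))) (nat_lit 65535)))) (Nat.add (Nat.shiftLeft (nat_lit 1) (Nat.land (Nat.shiftRight (V (nat_lit 52)) (S (nat_lit 58))) (nat_lit 65535))) (Nat.shiftLeft (nat_lit 1) (Nat.land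 (Nat.shiftRight (V (nat_lit 54)) (S (nat_lit 4))) (nat_lit 65535))))) (Nat.add (Nat.add (Nat.shiftLeft (nat_lit 1) (Nat.land (Nat.shiftRight (V (nat_lit 54)) (S (nat_lit 10))) (nat_lit 65535))) (Nat.shiftLeft (nat_lit 1) (Nat.land (Nat.shiftRight (V (nat_lit 54)) (S (nat_lit 15))) (nat_lit 65535)))) (Nat.add (Nat.shiftLeft (nat_lit 1) (Nat.land (Nat.shiftRight (V (nat_lit 54)) (S (nat_lit 51))) (nat_lit 65535))) (Nat.shiftLeft (nat_lit 1) (Nat.land (Nat.shiftRight (V (nat_lit 54)) (S (nat_lit 52))) (nat_lit 65535))))))) (Nat.add (Nat.add (Nat.add (Nat.shiftLeft (nat_lit 1) (Nat.land (Nat.shiftRight (V (nat_lit 56)) (S (nat_lit 4))) (nat_lit 65535))) (Nat.add (Nat.shiftLeft (nat_lit 1) (Nat.land (Nat.shiftRight (V (nat_lit 56)) (S (nat_lit 5))) (nat_lit 65535))) (Nat.shiftLeft (nat_lit 1) (Nat.land (Nat.shiftRight (V (nat_lit 56)) (S (nat_lit 28))) (nat_lit 65535)))))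 (Nat.add (Nat.add (Nat.shiftLeft (nat_lit 1) (Nat.land (Nat.shiftRight (V (nat_lit 56)) (S (nat_lit 49))) (nat_lit 65535))) (Nat.shiftLeft (nat_lit 1) (Nat.land (Nat.shiftRight (V (nat_lit 56)) (S (nat_lit 52))) (nat_lit 65535)))) (Nat.add (Nat.shiftLeft (nat_lit 1) (Nat.land (Nat.shiftRight (V (nat_lit 57)) (S (nat_lit 6))) (nat_lit 65535))) (Nat.shiftLeft (nat_lit 1) (Nat.land (Nat.shiftRight (V (nat_lit 57)) (S (nat_lit 7))) (nat_lit 65535)))))) (Nat.add (Nat.add (Nat.add (Nat.shiftLeft (nat_lit 1) (Nat.land (Nat.shiftRight (V (nat_lit 57)) (S (nat_lit 39))) (nat_lit 65535))) (Nat.shiftLeft (nat_lit 1) (Nat.land (Nat.shiftRight (V (nat_lit 57)) (S (nat_lit 49))) (nat_lit 65535)))) (Nat.add (Nat.shiftLeft (nat_lit 1) (Nat.land (Nat.shiftRight (V (nat_lit 57)) (S (nat_lit 51))) (nat_lit 65535))) (Nat.shiftLeft (nat_lit 1) (Nat.land (Nat.shiftRight (V (nat_lit 58))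 (S (nat_lit 6))) (nat_lit 65535))))) (Nat.add (Nat.add (Nat.shiftLeft (nat_lit 1) (Nat.land (Nat.shiftRight (V (nat_lit 58)) (S (nat_lit 9))) (nat_lit 65535))) (Nat.shiftLeft (nat_lit 1) (Nat.land (Nat.shiftRight (V (nat_lit 58)) (S (nat_lit 19))) (nat_lit 65535)))) (Nat.add (Nat.shiftLeft (nat_lit 1) (Nat.land (Nat.shiftRight (V (nat_lit 58)) (S (nat_lit 51))) (nat_lit 65535))) (Nat.shiftLeft (nat_lit 1) (Nat.land (Nat.shiftRight (V (nat_lit 58)) (S (nat_lit 52))) (nat_lit 65535))))))))))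
def E12_0 (V S : ℕ → ℕ) : ℕ := Nat.add (Nat.add (Nat.add (Nat.add (Nat.add (Nat.add (Nat.add (Nat.shiftLeft (nat_lit 1) (Nat.land (Nat.shiftRight (V (nat_lit 1)) (S (nat_lit 17))) (nat_lit 65535))) (Nat.add (Nat.shiftLeft (nat_lit 1) (Nat.land (Nat.shiftRight (V (nat_lit 1)) (S (nat_lit 20))) (nat_lit 65535))) (Nat.shiftLeft (nat_lit 1) (Nat.land (Nat.shiftRight (V (nat_lit 1)) (S (nat_lit 21))) (nat_lit 65535))))) (Nat.add (Nat.add (Nat.shiftLeft (nat_lit 1) (Nat.land (Nat.shiftRight (V (nat_lit 1)) (S (nat_lit 26))) (nat_lit 65535))) (Nat.shiftLeft (nat_lit 1) (Nat.land (Nat.shiftRight (V (nat_lit 1)) (S (nat_lit 38))) (nat_lit 65535)))) (Nat.add (Nat.shiftLeft (nat_lit 1) (Nat.land (Nat.shiftRight (V (nat_lit 1)) (S (nat_lit 48))) (nat_lit 65535))) (Nat.shiftLeft (nat_lit 1) (Nat.land (Nat.shiftRight (V (nat_lit 2)) (S (nat_lit 16))) (nat_lit 65535)))))) (Nat.add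 (Nat.add (Nat.add (Nat.shiftLeft (nat_lit 1) (Nat.land (Nat.shiftRight (V (nat_lit 2)) (S (nat_lit 18))) (nat_lit 65535))) (Nat.shiftLeft (nat_lit 1) (Nat.land (Nat.shiftRight (V (nat_lit 2)) (S (nat_lit 23))) (nat_lit 65535)))) (Nat.add (Nat.shiftLeft (nat_lit 1) (Nat.land (Nat.shiftRight (V (nat_lit 2)) (S (nat_lit 25))) (nat_lit 65535))) (Nat.shiftLeft (nat_lit 1) (Nat.land (Nat.shiftRight (V (nat_lit 2)) (S (nat_lit 36))) (nat_lit 65535))))) (Nat.add (Nat.add (Nat.shiftLeft (nat_lit 1) (Nat.land (Nat.shiftRight (V (nat_lit 2)) (S (nat_lit 50))) (nat_lit 65535))) (Nat.shiftLeft (nat_lit 1) (Nat.land (Nat.shiftRight (V (nat_lit 4)) (S (nat_lit 20))) (nat_lit 65535)))) (Nat.add (Nat.shiftLeft (nat_lit 1) (Nat.land (Nat.shiftRight (V (nat_lit 4)) (S (nat_lit 31))) (nat_lit 65535))) (Nat.shiftLeft (nat_lit 1) (Nat.land (Nat.shiftRight (V (nat_lit 4)) (S (nat_lit 46)))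 (nat_lit 65535))))))) (Nat.add (Nat.add (Nat.add (Nat.shiftLeft (nat_lit 1) (Nat.land (Nat.shiftRight (V (nat_lit 4)) (S (nat_lit 48))) (nat_lit 65535))) (Nat.add (Nat.shiftLeft (nat_lit 1) (Nat.land (Nat.shiftRight (V (nat_lit 4)) (S (nat_lit 57))) (nat_lit 65535))) (Nat.shiftLeft (nat_lit 1) (Nat.land (Nat.shiftRight (V (nat_lit 4)) (S (nat_lit 58))) (nat_lit 65535))))) (Nat.add (Nat.add (Nat.shiftLeft (nat_lit 1) (Nat.land (Nat.shiftRight (V (nat_lit 5)) (S (nat_lit 23))) (nat_lit 65535))) (Nat.shiftLeft (nat_lit 1) (Nat.land (Nat.shiftRight (V (nat_lit 5)) (S (nat_lit 34))) (nat_lit 65535)))) (Nat.add (Nat.shiftLeft (nat_lit 1) (Nat.land (Nat.shiftRight (V (nat_lit 5)) (S (nat_lit 36))) (nat_lit 65535))) (Nat.shiftLeft (nat_lit 1) (Nat.land (Nat.shiftRight (V (nat_lit 5)) (S (nat_lit 45))) (nat_lit 65535)))))) (Nat.add (Nat.add (Nat.add (Nat.shiftLeft (nat_lit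 1) (Nat.land (Nat.shiftRight (V (nat_lit 5)) (S (nat_lit 46))) (nat_lit 65535))) (Nat.shiftLeft (nat_lit 1) (Nat.land (Nat.shiftRight (V (nat_lit 5)) (S (nat_lit 58))) (nat_lit 65535)))) (Nat.add (Nat.shiftLeft (nat_lit 1) (Nat.land (Nat.shiftRight (V (nat_lit 6)) (S (nat_lit 16))) (nat_lit 65535))) (Nat.shiftLeft (nat_lit 1) (Nat.land (Nat.shiftRight (V (nat_lit 6)) (S (nat_lit 35))) (nat_lit 65535))))) (Nat.add (Nat.add (Nat.shiftLeft (nat_lit 1) (Nat.land (Nat.shiftRight (V (nat_lit 6)) (S (nat_lit 44))) (nat_lit 65535))) (Nat.shiftLeft (nat_lit 1) (Nat.land (Nat.shiftRight (V (nat_lit 6)) (S (nat_lit 50))) (nat_lit 65535)))) (Nat.add (Nat.shiftLeft (nat_lit 1) (Nat.land (Nat.shiftRight (V (nat_lit 6)) (S (nat_lit 54))) (nat_lit 65535))) (Nat.shiftLeft (nat_lit 1) (Nat.land (Nat.shiftRight (V (nat_lit 6)) (S (nat_lit 56))) (nat_lit 65535)))))))) (Nat.add (Nat.add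 (Nat.add (Nat.add (Nat.shiftLeft (nat_lit 1) (Nat.land (Nat.shiftRight (V (nat_lit 7)) (S (nat_lit 21))) (nat_lit 65535))) (Nat.add (Nat.shiftLeft (nat_lit 1) (Nat.land (Nat.shiftRight (V (nat_lit 7)) (S (nat_lit 26))) (nat_lit 65535))) (Nat.shiftLeft (nat_lit 1) (Nat.land (Nat.shiftRight (V (nat_lit 7)) (S (nat_lit 34))) (nat_lit 65535))))) (Nat.add (Nat.add (Nat.shiftLeft (nat_lit 1) (Nat.land (Nat.shiftRight (V (nat_lit 7)) (S (nat_lit 35))) (nat_lit 65535))) (Nat.shiftLeft (nat_lit 1) (Nat.land (Nat.shiftRight (V (nat_lit 7)) (S (nat_lit 45))) (nat_lit 65535)))) (Nat.add (Nat.shiftLeft (nat_lit 1) (Nat.land (Nat.shiftRight (V (nat_lit 7)) (S (nat_lit 54))) (nat_lit 65535))) (Nat.shiftLeft (nat_lit 1) (Nat.land (Nat.shiftRight (V (nat_lit 9)) (S (nat_lit 17))) (nat_lit 65535)))))) (Nat.add (Nat.add (Nat.add (Nat.shiftLeft (nat_lit 1) (Nat.land (Nat.shiftRight (V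 (nat_lit 9)) (S (nat_lit 32))) (nat_lit 65535))) (Nat.shiftLeft (nat_lit 1) (Nat.land (Nat.shiftRight (V (nat_lit 9)) (S (nat_lit 38))) (nat_lit 65535)))) (Nat.add (Nat.shiftLeft (nat_lit 1) (Nat.land (Nat.shiftRight (V (nat_lit 9)) (S (nat_lit 42))) (nat_lit 65535))) (Nat.shiftLeft (nat_lit 1) (Nat.land (Nat.shiftRight (V (nat_lit 9)) (S (nat_lit 44))) (nat_lit 65535))))) (Nat.add (Nat.add (Nat.shiftLeft (nat_lit 1) (Nat.land (Nat.shiftRight (V (nat_lit 9)) (S (nat_lit 56))) (nat_lit 65535))) (Nat.shiftLeft (nat_lit 1) (Nat.land (Nat.shiftRight (V (nat_lit 10)) (S (nat_lit 18))) (nat_lit 65535)))) (Nat.add (Nat.shiftLeft (nat_lit 1) (Nat.land (Nat.shiftRight (V (nat_lit 10)) (S (nat_lit 25))) (nat_lit 65535))) (Nat.shiftLeft (nat_lit 1) (Nat.land (Nat.shiftRight (V (nat_lit 10)) (S (nat_lit 31))) (nat_lit 65535))))))) (Nat.add (Nat.add (Nat.add (Nat.shiftLeft (nat_lit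 1) (Nat.land (Nat.shiftRight (V (nat_lit 10)) (S (nat_lit 32))) (nat_lit 65535))) (Nat.add (Nat.shiftLeft (nat_lit 1) (Nat.land (Nat.shiftRight (V (nat_lit 10)) (S (nat_lit 42))) (nat_lit 65535))) (Nat.shiftLeft (nat_lit 1) (Nat.land (Nat.shiftRight (V (nat_lit 10)) (S (nat_lit 57))) (nat_lit 65535))))) (Nat.add (Nat.add (Nat.shiftLeft (nat_lit 1) (Nat.land (Nat.shiftRight (V (nat_lit 15)) (S (nat_lit 25))) (nat_lit 65535))) (Nat.shiftLeft (nat_lit 1) (Nat.land (Nat.shiftRight (V (nat_lit 15)) (S (nat_lit 26))) (nat_lit 65535)))) (Nat.add (Nat.shiftLeft (nat_lit 1) (Nat.land (Nat.shiftRight (V (nat_lit 15)) (S (nat_lit 31))) (nat_lit 65535))) (Nat.shiftLeft (nat_lit 1) (Nat.land (Nat.shiftRight (V (nat_lit 15)) (S (nat_lit 34))) (nat_lit 65535)))))) (Nat.add (Nat.add (Nat.add (Nat.shiftLeft (nat_lit 1) (Nat.land (Nat.shiftRight (V (nat_lit 15)) (S (nat_lit 36))) (nat_lit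 65535))) (Nat.shiftLeft (nat_lit 1) (Nat.land (Nat.shiftRight (V (nat_lit 15)) (S (nat_lit 48))) (nat_lit 65535)))) (Nat.add (Nat.shiftLeft (nat_lit 1) (Nat.land (Nat.shiftRight (V (nat_lit 16)) (S (nat_lit 2))) (nat_lit 65535))) (Nat.shiftLeft (nat_lit 1) (Nat.land (Nat.shiftRight (V (nat_lit 16)) (S (nat_lit 6))) (nat_lit 65535))))) (Nat.add (Nat.add (Nat.shiftLeft (nat_lit 1) (Nat.land (Nat.shiftRight (V (nat_lit 16)) (S (nat_lit 24))) (nat_lit 65535))) (Nat.shiftLeft (nat_lit 1) (Nat.land (Nat.shiftRight (V (nat_lit 16)) (S (nat_lit 49))) (nat_lit 65535)))) (Nat.add (Nat.shiftLeft (nat_lit 1) (Nat.land (Nat.shiftRight (V (nat_lit 16)) (S (nat_lit 52))) (nat_lit 65535))) (Nat.shiftLeft (nat_lit 1) (Nat.land (Nat.shiftRight (V (nat_lit 17)) (S (nat_lit 1))) (nat_lit 65535))))))))) (Nat.add (Nat.add (Nat.add (Nat.add (Nat.add (Nat.shiftLeft (nat_lit 1) (Nat.land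 (Nat.shiftRight (V (nat_lit 17)) (S (nat_lit 9))) (nat_lit 65535))) (Nat.add (Nat.shiftLeft (nat_lit 1) (Nat.land (Nat.shiftRight (V (nat_lit 17)) (S (nat_lit 24))) (nat_lit 65535))) (Nat.shiftLeft (nat_lit 1) (Nat.land (Nat.shiftRight (V (nat_lit 17)) (S (nat_lit 37))) (nat_lit 65535))))) (Nat.add (Nat.add (Nat.shiftLeft (nat_lit 1) (Nat.land (Nat.shiftRight (V (nat_lit 17)) (S (nat_lit 40))) (nat_lit 65535))) (Nat.shiftLeft (nat_lit 1) (Nat.land (Nat.shiftRight (V (nat_lit 18)) (S (nat_lit 2))) (nat_lit 65535)))) (Nat.add (Nat.shiftLeft (nat_lit 1) (Nat.land (Nat.shiftRight (V (nat_lit 18)) (S (nat_lit 10))) (nat_lit 65535))) (Nat.shiftLeft (nat_lit 1) (Nat.land (Nat.shiftRight (V (nat_lit 18)) (S (nat_lit 24))) (nat_lit 65535)))))) (Nat.add (Nat.add (Nat.add (Nat.shiftLeft (nat_lit 1) (Nat.land (Nat.shiftRight (V (nat_lit 18)) (S (nat_lit 29))) (nat_lit 65535)))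 (Nat.shiftLeft (nat_lit 1) (Nat.land (Nat.shiftRight (V (nat_lit 18)) (S (nat_lit 37))) (nat_lit 65535)))) (Nat.add (Nat.shiftLeft (nat_lit 1) (Nat.land (Nat.shiftRight (V (nat_lit 19)) (S (nat_lit 26))) (nat_lit 65535))) (Nat.shiftLeft (nat_lit 1) (Nat.land (Nat.shiftRight (V (nat_lit 19)) (S (nat_lit 36))) (nat_lit 65535))))) (Nat.add (Nat.add (Nat.shiftLeft (nat_lit 1) (Nat.land (Nat.shiftRight (V (nat_lit 19)) (S (nat_lit 38))) (nat_lit 65535))) (Nat.shiftLeft (nat_lit 1) (Nat.land (Nat.shiftRight (V (nat_lit 19)) (S (nat_lit 44))) (nat_lit 65535)))) (Nat.add (Nat.shiftLeft (nat_lit 1) (Nat.land (Nat.shiftRight (V (nat_lit 19)) (S (nat_lit 45))) (nat_lit 65535))) (Nat.shiftLeft (nat_lit 1) (Nat.land (Nat.shiftRight (V (nat_lit 19)) (S (nat_lit 50))) (nat_lit 65535))))))) (Nat.add (Nat.add (Nat.add (Nat.shiftLeft (nat_lit 1) (Nat.land (Nat.shiftRight (V (nat_lit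 20)) (S (nat_lit 1))) (nat_lit 65535))) (Nat.add (Nat.shiftLeft (nat_lit 1) (Nat.land (Nat.shiftRight (V (nat_lit 20)) (S (nat_lit 4))) (nat_lit 65535))) (Nat.shiftLeft (nat_lit 1) (Nat.land (Nat.shiftRight (V (nat_lit 20)) (S (nat_lit 37))) (nat_lit 65535))))) (Nat.add (Nat.add (Nat.shiftLeft (nat_lit 1) (Nat.land (Nat.shiftRight (V (nat_lit 20)) (S (nat_lit 49))) (nat_lit 65535))) (Nat.shiftLeft (nat_lit 1) (Nat.land (Nat.shiftRight (V (nat_lit 20)) (S (nat_lit 51))) (nat_lit 65535)))) (Nat.add (Nat.shiftLeft (nat_lit 1) (Nat.land (Nat.shiftRight (V (nat_lit 21)) (S (nat_lit 1))) (nat_lit 65535))) (Nat.shiftLeft (nat_lit 1) (Nat.land (Nat.shiftRight (V (nat_lit 21)) (S (nat_lit 7))) (nat_lit 65535)))))) (Nat.add (Nat.add (Nat.add (Nat.shiftLeft (nat_lit 1) (Nat.land (Nat.shiftRight (V (nat_lit 21)) (S (nat_lit 24))) (nat_lit 65535))) (Nat.shiftLeft (nat_lit 1) (Nat.land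 (Nat.shiftRight (V (nat_lit 21)) (S (nat_lit 28))) (nat_lit 65535)))) (Nat.add (Nat.shiftLeft (nat_lit 1) (Nat.land (Nat.shiftRight (V (nat_lit 21)) (S (nat_lit 49))) (nat_lit 65535))) (Nat.shiftLeft (nat_lit 1) (Nat.land (Nat.shiftRight (V (nat_lit 22)) (S (nat_lit 25))) (nat_lit 65535))))) (Nat.add (Nat.add (Nat.shiftLeft (nat_lit 1) (Nat.land (Nat.shiftRight (V (nat_lit 22)) (S (nat_lit 38))) (nat_lit 65535))) (Nat.shiftLeft (nat_lit 1) (Nat.land (Nat.shiftRight (V (nat_lit 22)) (S (nat_lit 48))) (nat_lit 65535)))) (Nat.add (Nat.shiftLeft (nat_lit 1) (Nat.land (Nat.shiftRight (V (nat_lit 22)) (S (nat_lit 50))) (nat_lit 65535))) (Nat.shiftLeft (nat_lit 1) (Nat.land (Nat.shiftRight (V (nat_lit 22)) (S (nat_lit 56))) (nat_lit 65535)))))))) (Nat.add (Nat.add (Nat.add (Nat.add (Nat.shiftLeft (nat_lit 1) (Nat.land (Nat.shiftRight (V (nat_lit 22)) (S (nat_lit 57))) (nat_lit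 65535))) (Nat.add (Nat.shiftLeft (nat_lit 1) (Nat.land (Nat.shiftRight (V (nat_lit 23)) (S (nat_lit 2))) (nat_lit 65535))) (Nat.shiftLeft (nat_lit 1) (Nat.land (Nat.shiftRight (V (nat_lit 23)) (S (nat_lit 5))) (nat_lit 65535))))) (Nat.add (Nat.add (Nat.shiftLeft (nat_lit 1) (Nat.land (Nat.shiftRight (V (nat_lit 23)) (S (nat_lit 37))) (nat_lit 65535))) (Nat.shiftLeft (nat_lit 1) (Nat.land (Nat.shiftRight (V (nat_lit 23)) (S (nat_lit 39))) (nat_lit 65535)))) (Nat.add (Nat.shiftLeft (nat_lit 1) (Nat.land (Nat.shiftRight (V (nat_lit 23)) (S (nat_lit 49))) (nat_lit 65535))) (Nat.shiftLeft (nat_lit 1) (Nat.land (Nat.shiftRight (V (nat_lit 24)) (S (nat_lit 16))) (nat_lit 65535)))))) (Nat.add (Nat.add (Nat.add (Nat.shiftLeft (nat_lit 1) (Nat.land (Nat.shiftRight (V (nat_lit 24)) (S (nat_lit 17))) (nat_lit 65535))) (Nat.shiftLeft (nat_lit 1) (Nat.land (Nat.shiftRight (V (nat_lit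 24)) (S (nat_lit 18))) (nat_lit 65535)))) (Nat.add (Nat.shiftLeft (nat_lit 1) (Nat.land (Nat.shiftRight (V (nat_lit 24)) (S (nat_lit 21))) (nat_lit 65535))) (Nat.shiftLeft (nat_lit 1) (Nat.land (Nat.shiftRight (V (nat_lit 24)) (S (nat_lit 42))) (nat_lit 65535))))) (Nat.add (Nat.add (Nat.shiftLeft (nat_lit 1) (Nat.land (Nat.shiftRight (V (nat_lit 24)) (S (nat_lit 54))) (nat_lit 65535))) (Nat.shiftLeft (nat_lit 1) (Nat.land (Nat.shiftRight (V (nat_lit 25)) (S (nat_lit 2))) (nat_lit 65535)))) (Nat.add (Nat.shiftLeft (nat_lit 1) (Nat.land (Nat.shiftRight (V (nat_lit 25)) (S (nat_lit 10))) (nat_lit 65535))) (Nat.shiftLeft (nat_lit 1) (Nat.land (Nat.shiftRight (V (nat_lit 25)) (S (nat_lit 15))) (nat_lit 65535))))))) (Nat.add (Nat.add (Nat.add (Nat.shiftLeft (nat_lit 1) (Nat.land (Nat.shiftRight (V (nat_lit 25)) (S (nat_lit 22))) (nat_lit 65535))) (Nat.add (Nat.shiftLeft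 (nat_lit 1) (Nat.land (Nat.shiftRight (V (nat_lit 25)) (S (nat_lit 39))) (nat_lit 65535))) (Nat.shiftLeft (nat_lit 1) (Nat.land (Nat.shiftRight (V (nat_lit 26)) (S (nat_lit 1))) (nat_lit 65535))))) (Nat.add (Nat.add (Nat.shiftLeft (nat_lit 1) (Nat.land (Nat.shiftRight (V (nat_lit 26)) (S (nat_lit 7))) (nat_lit 65535))) (Nat.shiftLeft (nat_lit 1) (Nat.land (Nat.shiftRight (V (nat_lit 26)) (S (nat_lit 15))) (nat_lit 65535)))) (Nat.add (Nat.shiftLeft (nat_lit 1) (Nat.land (Nat.shiftRight (V (nat_lit 26)) (S (nat_lit 19))) (nat_lit 65535))) (Nat.shiftLeft (nat_lit 1) (Nat.land (Nat.shiftRight (V (nat_lit 26)) (S (nat_lit 51))) (nat_lit 65535)))))) (Nat.add (Nat.add (Nat.add (Nat.shiftLeft (nat_lit 1) (Nat.land (Nat.shiftRight (V (nat_lit 28)) (S (nat_lit 21))) (nat_lit 65535))) (Nat.shiftLeft (nat_lit 1) (Nat.land (Nat.shiftRight (V (nat_lit 28)) (S (nat_lit 38))) (nat_lit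 65535)))) (Nat.add (Nat.shiftLeft (nat_lit 1) (Nat.land (Nat.shiftRight (V (nat_lit 28)) (S (nat_lit 42))) (nat_lit 65535))) (Nat.shiftLeft (nat_lit 1) (Nat.land (Nat.shiftRight (V (nat_lit 28)) (S (nat_lit 45))) (nat_lit 65535))))) (Nat.add (Nat.add (Nat.shiftLeft (nat_lit 1) (Nat.land (Nat.shiftRight (V (nat_lit 28)) (S (nat_lit 46))) (nat_lit 65535))) (Nat.shiftLeft (nat_lit 1) (Nat.land (Nat.shiftRight (V (nat_lit 28)) (S (nat_lit 57))) (nat_lit 65535)))) (Nat.add (Nat.shiftLeft (nat_lit 1) (Nat.land (Nat.shiftRight (V (nat_lit 29)) (S (nat_lit 18))) (nat_lit 65535))) (Nat.shiftLeft (nat_lit 1) (Nat.land (Nat.shiftRight (V (nat_lit 29)) (S (nat_lit 45))) (nat_lit 65535)))))))))) (Nat.add (Nat.add (Nat.add (Nat.add (Nat.add (Nat.add (Nat.shiftLeft (nat_lit 1) (Nat.land (Nat.shiftRight (V (nat_lit 29)) (S (nat_lit 50))) (nat_lit 65535))) (Nat.add (Nat.shiftLeft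 (nat_lit 1) (Nat.land (Nat.shiftRight (V (nat_lit 29)) (S (nat_lit 54))) (nat_lit 65535))) (Nat.shiftLeft (nat_lit 1) (Nat.land (Nat.shiftRight (V (nat_lit 29)) (S (nat_lit 57))) (nat_lit 65535))))) (Nat.add (Nat.add (Nat.shiftLeft (nat_lit 1) (Nat.land (Nat.shiftRight (V (nat_lit 29)) (S (nat_lit 58))) (nat_lit 65535))) (Nat.shiftLeft (nat_lit 1) (Nat.land (Nat.shiftRight (V (nat_lit 31)) (S (nat_lit 4))) (nat_lit 65535)))) (Nat.add (Nat.shiftLeft (nat_lit 1) (Nat.land (Nat.shiftRight (V (nat_lit 31)) (S (nat_lit 10))) (nat_lit 65535))) (Nat.shiftLeft (nat_lit 1) (Nat.land (Nat.shiftRight (V (nat_lit 31)) (S (nat_lit 15))) (nat_lit 65535)))))) (Nat.add (Nat.add (Nat.add (Nat.shiftLeft (nat_lit 1) (Nat.land (Nat.shiftRight (V (nat_lit 31)) (S (nat_lit 51))) (nat_lit 65535))) (Nat.shiftLeft (nat_lit 1) (Nat.land (Nat.shiftRight (V (nat_lit 31)) (S (nat_lit 52))) (nat_lit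 65535)))) (Nat.add (Nat.shiftLeft (nat_lit 1) (Nat.land (Nat.shiftRight (V (nat_lit 32)) (S (nat_lit 9))) (nat_lit 65535))) (Nat.shiftLeft (nat_lit 1) (Nat.land (Nat.shiftRight (V (nat_lit 32)) (S (nat_lit 10))) (nat_lit 65535))))) (Nat.add (Nat.add (Nat.shiftLeft (nat_lit 1) (Nat.land (Nat.shiftRight (V (nat_lit 32)) (S (nat_lit 37))) (nat_lit 65535))) (Nat.shiftLeft (nat_lit 1) (Nat.land (Nat.shiftRight (V (nat_lit 32)) (S (nat_lit 39))) (nat_lit 65535)))) (Nat.add (Nat.shiftLeft (nat_lit 1) (Nat.land (Nat.shiftRight (V (nat_lit 32)) (S (nat_lit 51))) (nat_lit 65535))) (Nat.shiftLeft (nat_lit 1) (Nat.land (Nat.shiftRight (V (nat_lit 34)) (S (nat_lit 5))) (nat_lit 65535))))))) (Nat.add (Nat.add (Nat.add (Nat.shiftLeft (nat_lit 1) (Nat.land (Nat.shiftRight (V (nat_lit 34)) (S (nat_lit 7))) (nat_lit 65535))) (Nat.add (Nat.shiftLeft (nat_lit 1) (Nat.land (Nat.shiftRight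 (V (nat_lit 34)) (S (nat_lit 15))) (nat_lit 65535))) (Nat.shiftLeft (nat_lit 1) (Nat.land (Nat.shiftRight (V (nat_lit 34)) (S (nat_lit 39))) (nat_lit 65535))))) (Nat.add (Nat.add (Nat.shiftLeft (nat_lit 1) (Nat.land (Nat.shiftRight (V (nat_lit 34)) (S (nat_lit 40))) (nat_lit 65535))) (Nat.shiftLeft (nat_lit 1) (Nat.land (Nat.shiftRight (V (nat_lit 35)) (S (nat_lit 6))) (nat_lit 65535)))) (Nat.add (Nat.shiftLeft (nat_lit 1) (Nat.land (Nat.shiftRight (V (nat_lit 35)) (S (nat_lit 7))) (nat_lit 65535))) (Nat.shiftLeft (nat_lit 1) (Nat.land (Nat.shiftRight (V (nat_lit 35)) (S (nat_lit 39))) (nat_lit 65535)))))) (Nat.add (Nat.add (Nat.add (Nat.shiftLeft (nat_lit 1) (Nat.land (Nat.shiftRight (V (nat_lit 35)) (S (nat_lit 49))) (nat_lit 65535))) (Nat.shiftLeft (nat_lit 1) (Nat.land (Nat.shiftRight (V (nat_lit 35)) (S (nat_lit 51))) (nat_lit 65535)))) (Nat.add (Nat.shiftLeft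 (nat_lit 1) (Nat.land (Nat.shiftRight (V (nat_lit 36)) (S (nat_lit 2))) (nat_lit 65535))) (Nat.shiftLeft (nat_lit 1) (Nat.land (Nat.shiftRight (V (nat_lit 36)) (S (nat_lit 5))) (nat_lit 65535))))) (Nat.add (Nat.add (Nat.shiftLeft (nat_lit 1) (Nat.land (Nat.shiftRight (V (nat_lit 36)) (S (nat_lit 15))) (nat_lit 65535))) (Nat.shiftLeft (nat_lit 1) (Nat.land (Nat.shiftRight (V (nat_lit 36)) (S (nat_lit 19))) (nat_lit 65535)))) (Nat.add (Nat.shiftLeft (nat_lit 1) (Nat.land (Nat.shiftRight (V (nat_lit 36)) (S (nat_lit 52))) (nat_lit 65535))) (Nat.shiftLeft (nat_lit 1) (Nat.land (Nat.shiftRight (V (nat_lit 37)) (S (nat_lit 17))) (nat_lit 65535)))))))) (Nat.add (Nat.add (Nat.add (Nat.add (Nat.shiftLeft (nat_lit 1) (Nat.land (Nat.shiftRight (V (nat_lit 37)) (S (nat_lit 18))) (nat_lit 65535))) (Nat.add (Nat.shiftLeft (nat_lit 1) (Nat.land (Nat.shiftRight (V (nat_lit 37)) (S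 (nat_lit 20))) (nat_lit 65535))) (Nat.shiftLeft (nat_lit 1) (Nat.land (Nat.shiftRight (V (nat_lit 37)) (S (nat_lit 23))) (nat_lit 65535))))) (Nat.add (Nat.add (Nat.shiftLeft (nat_lit 1) (Nat.land (Nat.shiftRight (V (nat_lit 37)) (S (nat_lit 32))) (nat_lit 65535))) (Nat.shiftLeft (nat_lit 1) (Nat.land (Nat.shiftRight (V (nat_lit 37)) (S (nat_lit 58))) (nat_lit 65535)))) (Nat.add (Nat.shiftLeft (nat_lit 1) (Nat.land (Nat.shiftRight (V (nat_lit 38)) (S (nat_lit 1))) (nat_lit 65535))) (Nat.shiftLeft (nat_lit 1) (Nat.land (Nat.shiftRight (V (nat_lit 38)) (S (nat_lit 9))) (nat_lit 65535)))))) (Nat.add (Nat.add (Nat.add (Nat.shiftLeft (nat_lit 1) (Nat.land (Nat.shiftRight (V (nat_lit 38)) (S (nat_lit 19))) (nat_lit 65535))) (Nat.shiftLeft (nat_lit 1) (Nat.land (Nat.shiftRight (V (nat_lit 38)) (S (nat_lit 22))) (nat_lit 65535)))) (Nat.add (Nat.shiftLeft (nat_lit 1) (Nat.land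 (Nat.shiftRight (V (nat_lit 38)) (S (nat_lit 28))) (nat_lit 65535))) (Nat.shiftLeft (nat_lit 1) (Nat.land (Nat.shiftRight (V (nat_lit 39)) (S (nat_lit 23))) (nat_lit 65535))))) (Nat.add (Nat.add (Nat.shiftLeft (nat_lit 1) (Nat.land (Nat.shiftRight (V (nat_lit 39)) (S (nat_lit 25))) (nat_lit 65535))) (Nat.shiftLeft (nat_lit 1) (Nat.land (Nat.shiftRight (V (nat_lit 39)) (S (nat_lit 32))) (nat_lit 65535)))) (Nat.add (Nat.shiftLeft (nat_lit 1) (Nat.land (Nat.shiftRight (V (nat_lit 39)) (S (nat_lit 34))) (nat_lit 65535))) (Nat.shiftLeft (nat_lit 1) (Nat.land (Nat.shiftRight (V (nat_lit 39)) (S (nat_lit 35))) (nat_lit 65535))))))) (Nat.add (Nat.add (Nat.add (Nat.shiftLeft (nat_lit 1) (Nat.land (Nat.shiftRight (V (nat_lit 39)) (S (nat_lit 56))) (nat_lit 65535))) (Nat.add (Nat.shiftLeft (nat_lit 1) (Nat.land (Nat.shiftRight (V (nat_lit 40)) (S (nat_lit 17))) (nat_lit 65535)))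 (Nat.shiftLeft (nat_lit 1) (Nat.land (Nat.shiftRight (V (nat_lit 40)) (S (nat_lit 34))) (nat_lit 65535))))) (Nat.add (Nat.add (Nat.shiftLeft (nat_lit 1) (Nat.land (Nat.shiftRight (V (nat_lit 40)) (S (nat_lit 48))) (nat_lit 65535))) (Nat.shiftLeft (nat_lit 1) (Nat.land (Nat.shiftRight (V (nat_lit 40)) (S (nat_lit 54))) (nat_lit 65535)))) (Nat.add (Nat.shiftLeft (nat_lit 1) (Nat.land (Nat.shiftRight (V (nat_lit 40)) (S (nat_lit 56))) (nat_lit 65535))) (Nat.shiftLeft (nat_lit 1) (Nat.land (Nat.shiftRight (V (nat_lit 40)) (S (nat_lit 58))) (nat_lit 65535)))))) (Nat.add (Nat.add (Nat.add (Nat.shiftLeft (nat_lit 1) (Nat.land (Nat.shiftRight (V (nat_lit 42)) (S (nat_lit 9))) (nat_lit 65535))) (Nat.shiftLeft (nat_lit 1) (Nat.land (Nat.shiftRight (V (nat_lit 42)) (S (nat_lit 10))) (nat_lit 65535)))) (Nat.add (Nat.shiftLeft (nat_lit 1) (Nat.land (Nat.shiftRight (V (nat_lit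 42)) (S (nat_lit 24))) (nat_lit 65535))) (Nat.shiftLeft (nat_lit 1) (Nat.land (Nat.shiftRight (V (nat_lit 42)) (S (nat_lit 28))) (nat_lit 65535))))) (Nat.add (Nat.add (Nat.shiftLeft (nat_lit 1) (Nat.land (Nat.shiftRight (V (nat_lit 42)) (S (nat_lit 52))) (nat_lit 65535))) (Nat.shiftLeft (nat_lit 1) (Nat.land (Nat.shiftRight (V (nat_lit 44)) (S (nat_lit 6))) (nat_lit 65535)))) (Nat.add (Nat.shiftLeft (nat_lit 1) (Nat.land (Nat.shiftRight (V (nat_lit 44)) (S (nat_lit 9))) (nat_lit 65535))) (Nat.shiftLeft (nat_lit 1) (Nat.land (Nat.shiftRight (V (nat_lit 44)) (S (nat_lit 19))) (nat_lit 65535))))))))) (Nat.add (Nat.add (Nat.add (Nat.add (Nat.add (Nat.shiftLeft (nat_lit 1) (Nat.land (Nat.shiftRight (V (nat_lit 44)) (S (nat_lit 51))) (nat_lit 65535))) (Nat.add (Nat.shiftLeft (nat_lit 1) (Nat.land (Nat.shiftRight (V (nat_lit 44)) (S (nat_lit 52))) (nat_lit 65535))) (Nat.shiftLeft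 (nat_lit 1) (Nat.land (Nat.shiftRight (V (nat_lit 45)) (S (nat_lit 5))) (nat_lit 65535))))) (Nat.add (Nat.add (Nat.shiftLeft (nat_lit 1) (Nat.land (Nat.shiftRight (V (nat_lit 45)) (S (nat_lit 7))) (nat_lit 65535))) (Nat.shiftLeft (nat_lit 1) (Nat.land (Nat.shiftRight (V (nat_lit 45)) (S (nat_lit 19))) (nat_lit 65535)))) (Nat.add (Nat.shiftLeft (nat_lit 1) (Nat.land (Nat.shiftRight (V (nat_lit 45)) (S (nat_lit 28))) (nat_lit 65535))) (Nat.shiftLeft (nat_lit 1) (Nat.land (Nat.shiftRight (V (nat_lit 45)) (S (nat_lit 29))) (nat_lit 65535)))))) (Nat.add (Nat.add (Nat.add (Nat.shiftLeft (nat_lit 1) (Nat.land (Nat.shiftRight (V (nat_lit 46)) (S (nat_lit 4))) (nat_lit 65535))) (Nat.shiftLeft (nat_lit 1) (Nat.land (Nat.shiftRight (V (nat_lit 46)) (S (nat_lit 5))) (nat_lit 65535)))) (Nat.add (Nat.shiftLeft (nat_lit 1) (Nat.land (Nat.shiftRight (V (nat_lit 46)) (S (nat_lit 28)))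 (nat_lit 65535))) (Nat.shiftLeft (nat_lit 1) (Nat.land (Nat.shiftRight (V (nat_lit 46)) (S (nat_lit 49))) (nat_lit 65535))))) (Nat.add (Nat.add (Nat.shiftLeft (nat_lit 1) (Nat.land (Nat.shiftRight (V (nat_lit 46)) (S (nat_lit 52))) (nat_lit 65535))) (Nat.shiftLeft (nat_lit 1) (Nat.land (Nat.shiftRight (V (nat_lit 48)) (S (nat_lit 1))) (nat_lit 65535)))) (Nat.add (Nat.shiftLeft (nat_lit 1) (Nat.land (Nat.shiftRight (V (nat_lit 48)) (S (nat_lit 4))) (nat_lit 65535))) (Nat.shiftLeft (nat_lit 1) (Nat.land (Nat.shiftRight (V (nat_lit 48)) (S (nat_lit 15))) (nat_lit 65535))))))) (Nat.add (Nat.add (Nat.add (Nat.shiftLeft (nat_lit 1) (Nat.land (Nat.shiftRight (V (nat_lit 48)) (S (nat_lit 22))) (nat_lit 65535))) (Nat.add (Nat.shiftLeft (nat_lit 1) (Nat.land (Nat.shiftRight (V (nat_lit 48)) (S (nat_lit 40))) (nat_lit 65535))) (Nat.shiftLeft (nat_lit 1) (Nat.land (Nat.shiftRight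 (V (nat_lit 49)) (S (nat_lit 16))) (nat_lit 65535))))) (Nat.add (Nat.add (Nat.shiftLeft (nat_lit 1) (Nat.land (Nat.shiftRight (V (nat_lit 49)) (S (nat_lit 20))) (nat_lit 65535))) (Nat.shiftLeft (nat_lit 1) (Nat.land (Nat.shiftRight (V (nat_lit 49)) (S (nat_lit 21))) (nat_lit 65535)))) (Nat.add (Nat.shiftLeft (nat_lit 1) (Nat.land (Nat.shiftRight (V (nat_lit 49)) (S (nat_lit 23))) (nat_lit 65535))) (Nat.shiftLeft (nat_lit 1) (Nat.land (Nat.shiftRight (V (nat_lit 49)) (S (nat_lit 35))) (nat_lit 65535)))))) (Nat.add (Nat.add (Nat.add (Nat.shiftLeft (nat_lit 1) (Nat.land (Nat.shiftRight (V (nat_lit 49)) (S (nat_lit 46))) (nat_lit 65535))) (Nat.shiftLeft (nat_lit 1) (Nat.land (Nat.shiftRight (V (nat_lit 50)) (S (nat_lit 2))) (nat_lit 65535)))) (Nat.add (Nat.shiftLeft (nat_lit 1) (Nat.land (Nat.shiftRight (V (nat_lit 50)) (S (nat_lit 6))) (nat_lit 65535))) (Nat.shiftLeft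 (nat_lit 1) (Nat.land (Nat.shiftRight (V (nat_lit 50)) (S (nat_lit 19))) (nat_lit 65535))))) (Nat.add (Nat.add (Nat.shiftLeft (nat_lit 1) (Nat.land (Nat.shiftRight (V (nat_lit 50)) (S (nat_lit 22))) (nat_lit 65535))) (Nat.shiftLeft (nat_lit 1) (Nat.land (Nat.shiftRight (V (nat_lit 50)) (S (nat_lit 29))) (nat_lit 65535)))) (Nat.add (Nat.shiftLeft (nat_lit 1) (Nat.land (Nat.shiftRight (V (nat_lit 51)) (S (nat_lit 20))) (nat_lit 65535))) (Nat.shiftLeft (nat_lit 1) (Nat.land (Nat.shiftRight (V (nat_lit 51)) (S (nat_lit 26))) (nat_lit 65535)))))))) (Nat.add (Nat.add (Nat.add (Nat.add (Nat.shiftLeft (nat_lit 1) (Nat.land (Nat.shiftRight (V (nat_lit 51)) (S (nat_lit 31))) (nat_lit 65535))) (Nat.add (Nat.shiftLeft (nat_lit 1) (Nat.land (Nat.shiftRight (V (nat_lit 51)) (S (nat_lit 32))) (nat_lit 65535))) (Nat.shiftLeft (nat_lit 1) (Nat.land (Nat.shiftRight (V (nat_lit 51))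 (S (nat_lit 35))) (nat_lit 65535))))) (Nat.add (Nat.add (Nat.shiftLeft (nat_lit 1) (Nat.land (Nat.shiftRight (V (nat_lit 51)) (S (nat_lit 44))) (nat_lit 65535))) (Nat.shiftLeft (nat_lit 1) (Nat.land (Nat.shiftRight (V (nat_lit 52)) (S (nat_lit 16))) (nat_lit 65535)))) (Nat.add (Nat.shiftLeft (nat_lit 1) (Nat.land (Nat.shiftRight (V (nat_lit 52)) (S (nat_lit 31))) (nat_lit 65535))) (Nat.shiftLeft (nat_lit 1) (Nat.land (Nat.shiftRight (V (nat_lit 52)) (S (nat_lit 36))) (nat_lit 65535)))))) (Nat.add (Nat.add (Nat.add (Nat.shiftLeft (nat_lit 1) (Nat.land (Nat.shiftRight (V (nat_lit 52)) (S (nat_lit 42))) (nat_lit 65535))) (Nat.shiftLeft (nat_lit 1) (Nat.land (Nat.shiftRight (V (nat_lit 52)) (S (nat_lit 44))) (nat_lit 65535)))) (Nat.add (Nat.shiftLeft (nat_lit 1) (Nat.land (Nat.shiftRight (V (nat_lit 52)) (S (nat_lit 46))) (nat_lit 65535))) (Nat.shiftLeft (nat_lit 1) (Nat.land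 (Nat.shiftRight (V (nat_lit 54)) (S (nat_lit 6))) (nat_lit 65535))))) (Nat.add (Nat.add (Nat.shiftLeft (nat_lit 1) (Nat.land (Nat.shiftRight (V (nat_lit 54)) (S (nat_lit 7))) (nat_lit 65535))) (Nat.shiftLeft (nat_lit 1) (Nat.land (Nat.shiftRight (V (nat_lit 54)) (S (nat_lit 24))) (nat_lit 65535)))) (Nat.add (Nat.shiftLeft (nat_lit 1) (Nat.land (Nat.shiftRight (V (nat_lit 54)) (S (nat_lit 29))) (nat_lit 65535))) (Nat.shiftLeft (nat_lit 1) (Nat.land (Nat.shiftRight (V (nat_lit 54)) (S (nat_lit 40))) (nat_lit 65535))))))) (Nat.add (Nat.add (Nat.add (Nat.shiftLeft (nat_lit 1) (Nat.land (Nat.shiftRight (V (nat_lit 56)) (S (nat_lit 6))) (nat_lit 65535))) (Nat.add (Nat.shiftLeft (nat_lit 1) (Nat.land (Nat.shiftRight (V (nat_lit 56)) (S (nat_lit 9))) (nat_lit 65535))) (Nat.shiftLeft (nat_lit 1) (Nat.land (Nat.shiftRight (V (nat_lit 56)) (S (nat_lit 22))) (nat_lit 65535)))))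 (Nat.add (Nat.add (Nat.shiftLeft (nat_lit 1) (Nat.land (Nat.shiftRight (V (nat_lit 56)) (S (nat_lit 39))) (nat_lit 65535))) (Nat.shiftLeft (nat_lit 1) (Nat.land (Nat.shiftRight (V (nat_lit 56)) (S (nat_lit 40))) (nat_lit 65535)))) (Nat.add (Nat.shiftLeft (nat_lit 1) (Nat.land (Nat.shiftRight (V (nat_lit 57)) (S (nat_lit 4))) (nat_lit 65535))) (Nat.shiftLeft (nat_lit 1) (Nat.land (Nat.shiftRight (V (nat_lit 57)) (S (nat_lit 10))) (nat_lit 65535)))))) (Nat.add (Nat.add (Nat.add (Nat.shiftLeft (nat_lit 1) (Nat.land (Nat.shiftRight (V (nat_lit 57)) (S (nat_lit 22))) (nat_lit 65535))) (Nat.shiftLeft (nat_lit 1) (Nat.land (Nat.shiftRight (V (nat_lit 57)) (S (nat_lit 28))) (nat_lit 65535)))) (Nat.add (Nat.shiftLeft (nat_lit 1) (Nat.land (Nat.shiftRight (V (nat_lit 57)) (S (nat_lit 29))) (nat_lit 65535))) (Nat.shiftLeft (nat_lit 1) (Nat.land (Nat.shiftRight (V (nat_lit 58))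 (S (nat_lit 4))) (nat_lit 65535))))) (Nat.add (Nat.add (Nat.shiftLeft (nat_lit 1) (Nat.land (Nat.shiftRight (V (nat_lit 58)) (S (nat_lit 5))) (nat_lit 65535))) (Nat.shiftLeft (nat_lit 1) (Nat.land (Nat.shiftRight (V (nat_lit 58)) (S (nat_lit 29))) (nat_lit 65535)))) (Nat.add (Nat.shiftLeft (nat_lit 1) (Nat.land (Nat.shiftRight (V (nat_lit 58)) (S (nat_lit 37))) (nat_lit 65535))) (Nat.shiftLeft (nat_lit 1) (Nat.land (Nat.shiftRight (V (nat_lit 58)) (S (nat_lit 40))) (nat_lit 65535))))))))))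
def E13_0 (V S : ℕ → ℕ) : ℕ := Nat.add (Nat.add (Nat.add (Nat.add (Nat.add (Nat.add (Nat.add (Nat.shiftLeft (nat_lit 1) (Nat.land (Nat.shiftRight (V (nat_lit 1)) (S (nat_lit 30))) (nat_lit 65535))) (Nat.add (Nat.shiftLeft (nat_lit 1) (Nat.land (Nat.shiftRight (V (nat_lit 1)) (S (nat_lit 33))) (nat_lit 65535))) (Nat.shiftLeft (nat_lit 1) (Nat.land (Nat.shiftRight (V (nat_lit 1)) (S (nat_lit 43))) (nat_lit 65535))))) (Nat.add (Nat.add (Nat.shiftLeft (nat_lit 1) (Nat.land (Nat.shiftRight (V (nat_lit 1)) (S (nat_lit 47))) (nat_lit 65535))) (Nat.shiftLeft (nat_lit 1) (Nat.land (Nat.shiftRight (V (nat_lit 1)) (S (nat_lit 55))) (nat_lit 65535)))) (Nat.add (Nat.shiftLeft (nat_lit 1) (Nat.land (Nat.shiftRight (V (nat_lit 1)) (S (nat_lit 59))) (nat_lit 65535))) (Nat.shiftLeft (nat_lit 1) (Nat.land (Nat.shiftRight (V (nat_lit 2)) (S (nat_lit 30))) (nat_lit 65535)))))) (Nat.add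 (Nat.add (Nat.add (Nat.shiftLeft (nat_lit 1) (Nat.land (Nat.shiftRight (V (nat_lit 2)) (S (nat_lit 33))) (nat_lit 65535))) (Nat.shiftLeft (nat_lit 1) (Nat.land (Nat.shiftRight (V (nat_lit 2)) (S (nat_lit 43))) (nat_lit 65535)))) (Nat.add (Nat.shiftLeft (nat_lit 1) (Nat.land (Nat.shiftRight (V (nat_lit 2)) (S (nat_lit 47))) (nat_lit 65535))) (Nat.shiftLeft (nat_lit 1) (Nat.land (Nat.shiftRight (V (nat_lit 2)) (S (nat_lit 55))) (nat_lit 65535))))) (Nat.add (Nat.add (Nat.shiftLeft (nat_lit 1) (Nat.land (Nat.shiftRight (V (nat_lit 2)) (S (nat_lit 59))) (nat_lit 65535))) (Nat.shiftLeft (nat_lit 1) (Nat.land (Nat.shiftRight (V (nat_lit 3)) (S (nat_lit 19))) (nat_lit 65535)))) (Nat.add (Nat.shiftLeft (nat_lit 1) (Nat.land (Nat.shiftRight (V (nat_lit 3)) (S (nat_lit 22))) (nat_lit 65535))) (Nat.shiftLeft (nat_lit 1) (Nat.land (Nat.shiftRight (V (nat_lit 3)) (S (nat_lit 28)))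 (nat_lit 65535))))))) (Nat.add (Nat.add (Nat.add (Nat.shiftLeft (nat_lit 1) (Nat.land (Nat.shiftRight (V (nat_lit 3)) (S (nat_lit 29))) (nat_lit 65535))) (Nat.add (Nat.shiftLeft (nat_lit 1) (Nat.land (Nat.shiftRight (V (nat_lit 3)) (S (nat_lit 37))) (nat_lit 65535))) (Nat.shiftLeft (nat_lit 1) (Nat.land (Nat.shiftRight (V (nat_lit 3)) (S (nat_lit 39))) (nat_lit 65535))))) (Nat.add (Nat.add (Nat.shiftLeft (nat_lit 1) (Nat.land (Nat.shiftRight (V (nat_lit 3)) (S (nat_lit 49))) (nat_lit 65535))) (Nat.shiftLeft (nat_lit 1) (Nat.land (Nat.shiftRight (V (nat_lit 3)) (S (nat_lit 51))) (nat_lit 65535)))) (Nat.add (Nat.shiftLeft (nat_lit 1) (Nat.land (Nat.shiftRight (V (nat_lit 4)) (S (nat_lit 12))) (nat_lit 65535))) (Nat.shiftLeft (nat_lit 1) (Nat.land (Nat.shiftRight (V (nat_lit 4)) (S (nat_lit 14))) (nat_lit 65535)))))) (Nat.add (Nat.add (Nat.add (Nat.shiftLeft (nat_lit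 1) (Nat.land (Nat.shiftRight (V (nat_lit 4)) (S (nat_lit 27))) (nat_lit 65535))) (Nat.shiftLeft (nat_lit 1) (Nat.land (Nat.shiftRight (V (nat_lit 4)) (S (nat_lit 33))) (nat_lit 65535)))) (Nat.add (Nat.shiftLeft (nat_lit 1) (Nat.land (Nat.shiftRight (V (nat_lit 4)) (S (nat_lit 41))) (nat_lit 65535))) (Nat.shiftLeft (nat_lit 1) (Nat.land (Nat.shiftRight (V (nat_lit 4)) (S (nat_lit 47))) (nat_lit 65535))))) (Nat.add (Nat.add (Nat.shiftLeft (nat_lit 1) (Nat.land (Nat.shiftRight (V (nat_lit 5)) (S (nat_lit 12))) (nat_lit 65535))) (Nat.shiftLeft (nat_lit 1) (Nat.land (Nat.shiftRight (V (nat_lit 5)) (S (nat_lit 13))) (nat_lit 65535)))) (Nat.add (Nat.shiftLeft (nat_lit 1) (Nat.land (Nat.shiftRight (V (nat_lit 5)) (S (nat_lit 27))) (nat_lit 65535))) (Nat.shiftLeft (nat_lit 1) (Nat.land (Nat.shiftRight (V (nat_lit 5)) (S (nat_lit 30))) (nat_lit 65535)))))))) (Nat.add (Nat.add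 (Nat.add (Nat.add (Nat.shiftLeft (nat_lit 1) (Nat.land (Nat.shiftRight (V (nat_lit 5)) (S (nat_lit 53))) (nat_lit 65535))) (Nat.add (Nat.shiftLeft (nat_lit 1) (Nat.land (Nat.shiftRight (V (nat_lit 5)) (S (nat_lit 59))) (nat_lit 65535))) (Nat.shiftLeft (nat_lit 1) (Nat.land (Nat.shiftRight (V (nat_lit 6)) (S (nat_lit 12))) (nat_lit 65535))))) (Nat.add (Nat.add (Nat.shiftLeft (nat_lit 1) (Nat.land (Nat.shiftRight (V (nat_lit 6)) (S (nat_lit 14))) (nat_lit 65535))) (Nat.shiftLeft (nat_lit 1) (Nat.land (Nat.shiftRight (V (nat_lit 6)) (S (nat_lit 27))) (nat_lit 65535)))) (Nat.add (Nat.shiftLeft (nat_lit 1) (Nat.land (Nat.shiftRight (V (nat_lit 6)) (S (nat_lit 33))) (nat_lit 65535))) (Nat.shiftLeft (nat_lit 1) (Nat.land (Nat.shiftRight (V (nat_lit 6)) (S (nat_lit 41))) (nat_lit 65535)))))) (Nat.add (Nat.add (Nat.add (Nat.shiftLeft (nat_lit 1) (Nat.land (Nat.shiftRight (V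 (nat_lit 6)) (S (nat_lit 47))) (nat_lit 65535))) (Nat.shiftLeft (nat_lit 1) (Nat.land (Nat.shiftRight (V (nat_lit 7)) (S (nat_lit 13))) (nat_lit 65535)))) (Nat.add (Nat.shiftLeft (nat_lit 1) (Nat.land (Nat.shiftRight (V (nat_lit 7)) (S (nat_lit 14))) (nat_lit 65535))) (Nat.shiftLeft (nat_lit 1) (Nat.land (Nat.shiftRight (V (nat_lit 7)) (S (nat_lit 41))) (nat_lit 65535))))) (Nat.add (Nat.add (Nat.shiftLeft (nat_lit 1) (Nat.land (Nat.shiftRight (V (nat_lit 7)) (S (nat_lit 43))) (nat_lit 65535))) (Nat.shiftLeft (nat_lit 1) (Nat.land (Nat.shiftRight (V (nat_lit 7)) (S (nat_lit 53))) (nat_lit 65535)))) (Nat.add (Nat.shiftLeft (nat_lit 1) (Nat.land (Nat.shiftRight (V (nat_lit 7)) (S (nat_lit 55))) (nat_lit 65535))) (Nat.shiftLeft (nat_lit 1) (Nat.land (Nat.shiftRight (V (nat_lit 8)) (S (nat_lit 15))) (nat_lit 65535))))))) (Nat.add (Nat.add (Nat.add (Nat.shiftLeft (nat_lit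 1) (Nat.land (Nat.shiftRight (V (nat_lit 8)) (S (nat_lit 22))) (nat_lit 65535))) (Nat.add (Nat.shiftLeft (nat_lit 1) (Nat.land (Nat.shiftRight (V (nat_lit 8)) (S (nat_lit 24))) (nat_lit 65535))) (Nat.shiftLeft (nat_lit 1) (Nat.land (Nat.shiftRight (V (nat_lit 8)) (S (nat_lit 28))) (nat_lit 65535))))) (Nat.add (Nat.add (Nat.shiftLeft (nat_lit 1) (Nat.land (Nat.shiftRight (V (nat_lit 8)) (S (nat_lit 39))) (nat_lit 65535))) (Nat.shiftLeft (nat_lit 1) (Nat.land (Nat.shiftRight (V (nat_lit 8)) (S (nat_lit 40))) (nat_lit 65535)))) (Nat.add (Nat.shiftLeft (nat_lit 1) (Nat.land (Nat.shiftRight (V (nat_lit 8)) (S (nat_lit 49))) (nat_lit 65535))) (Nat.shiftLeft (nat_lit 1) (Nat.land (Nat.shiftRight (V (nat_lit 8)) (S (nat_lit 52))) (nat_lit 65535)))))) (Nat.add (Nat.add (Nat.add (Nat.shiftLeft (nat_lit 1) (Nat.land (Nat.shiftRight (V (nat_lit 9)) (S (nat_lit 12))) (nat_lit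 65535))) (Nat.shiftLeft (nat_lit 1) (Nat.land (Nat.shiftRight (V (nat_lit 9)) (S (nat_lit 13))) (nat_lit 65535)))) (Nat.add (Nat.shiftLeft (nat_lit 1) (Nat.land (Nat.shiftRight (V (nat_lit 9)) (S (nat_lit 27))) (nat_lit 65535))) (Nat.shiftLeft (nat_lit 1) (Nat.land (Nat.shiftRight (V (nat_lit 9)) (S (nat_lit 30))) (nat_lit 65535))))) (Nat.add (Nat.add (Nat.shiftLeft (nat_lit 1) (Nat.land (Nat.shiftRight (V (nat_lit 9)) (S (nat_lit 53))) (nat_lit 65535))) (Nat.shiftLeft (nat_lit 1) (Nat.land (Nat.shiftRight (V (nat_lit 9)) (S (nat_lit 59))) (nat_lit 65535)))) (Nat.add (Nat.shiftLeft (nat_lit 1) (Nat.land (Nat.shiftRight (V (nat_lit 10)) (S (nat_lit 13))) (nat_lit 65535))) (Nat.shiftLeft (nat_lit 1) (Nat.land (Nat.shiftRight (V (nat_lit 10)) (S (nat_lit 14))) (nat_lit 65535))))))))) (Nat.add (Nat.add (Nat.add (Nat.add (Nat.add (Nat.shiftLeft (nat_lit 1) (Nat.land (Nat.shiftRight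 (V (nat_lit 10)) (S (nat_lit 41))) (nat_lit 65535))) (Nat.add (Nat.shiftLeft (nat_lit 1) (Nat.land (Nat.shiftRight (V (nat_lit 10)) (S (nat_lit 43))) (nat_lit 65535))) (Nat.shiftLeft (nat_lit 1) (Nat.land (Nat.shiftRight (V (nat_lit 10)) (S (nat_lit 53))) (nat_lit 65535))))) (Nat.add (Nat.add (Nat.shiftLeft (nat_lit 1) (Nat.land (Nat.shiftRight (V (nat_lit 10)) (S (nat_lit 55))) (nat_lit 65535))) (Nat.shiftLeft (nat_lit 1) (Nat.land (Nat.shiftRight (V (nat_lit 11)) (S (nat_lit 15))) (nat_lit 65535)))) (Nat.add (Nat.shiftLeft (nat_lit 1) (Nat.land (Nat.shiftRight (V (nat_lit 11)) (S (nat_lit 19))) (nat_lit 65535))) (Nat.shiftLeft (nat_lit 1) (Nat.land (Nat.shiftRight (V (nat_lit 11)) (S (nat_lit 24))) (nat_lit 65535)))))) (Nat.add (Nat.add (Nat.add (Nat.shiftLeft (nat_lit 1) (Nat.land (Nat.shiftRight (V (nat_lit 11)) (S (nat_lit 29))) (nat_lit 65535))) (Nat.shiftLeft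 (nat_lit 1) (Nat.land (Nat.shiftRight (V (nat_lit 11)) (S (nat_lit 37))) (nat_lit 65535)))) (Nat.add (Nat.shiftLeft (nat_lit 1) (Nat.land (Nat.shiftRight (V (nat_lit 11)) (S (nat_lit 40))) (nat_lit 65535))) (Nat.shiftLeft (nat_lit 1) (Nat.land (Nat.shiftRight (V (nat_lit 11)) (S (nat_lit 51))) (nat_lit 65535))))) (Nat.add (Nat.add (Nat.shiftLeft (nat_lit 1) (Nat.land (Nat.shiftRight (V (nat_lit 11)) (S (nat_lit 52))) (nat_lit 65535))) (Nat.shiftLeft (nat_lit 1) (Nat.land (Nat.shiftRight (V (nat_lit 12)) (S (nat_lit 4))) (nat_lit 65535)))) (Nat.add (Nat.shiftLeft (nat_lit 1) (Nat.land (Nat.shiftRight (V (nat_lit 12)) (S (nat_lit 5))) (nat_lit 65535))) (Nat.shiftLeft (nat_lit 1) (Nat.land (Nat.shiftRight (V (nat_lit 12)) (S (nat_lit 6))) (nat_lit 65535))))))) (Nat.add (Nat.add (Nat.add (Nat.shiftLeft (nat_lit 1) (Nat.land (Nat.shiftRight (V (nat_lit 12)) (S (nat_lit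 9))) (nat_lit 65535))) (Nat.add (Nat.shiftLeft (nat_lit 1) (Nat.land (Nat.shiftRight (V (nat_lit 12)) (S (nat_lit 28))) (nat_lit 65535))) (Nat.shiftLeft (nat_lit 1) (Nat.land (Nat.shiftRight (V (nat_lit 12)) (S (nat_lit 29))) (nat_lit 65535))))) (Nat.add (Nat.add (Nat.shiftLeft (nat_lit 1) (Nat.land (Nat.shiftRight (V (nat_lit 12)) (S (nat_lit 39))) (nat_lit 65535))) (Nat.shiftLeft (nat_lit 1) (Nat.land (Nat.shiftRight (V (nat_lit 12)) (S (nat_lit 51))) (nat_lit 65535)))) (Nat.add (Nat.shiftLeft (nat_lit 1) (Nat.land (Nat.shiftRight (V (nat_lit 13)) (S (nat_lit 5))) (nat_lit 65535))) (Nat.shiftLeft (nat_lit 1) (Nat.land (Nat.shiftRight (V (nat_lit 13)) (S (nat_lit 7))) (nat_lit 65535)))))) (Nat.add (Nat.add (Nat.add (Nat.shiftLeft (nat_lit 1) (Nat.land (Nat.shiftRight (V (nat_lit 13)) (S (nat_lit 9))) (nat_lit 65535))) (Nat.shiftLeft (nat_lit 1) (Nat.land (Nat.shiftRight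 (V (nat_lit 13)) (S (nat_lit 10))) (nat_lit 65535)))) (Nat.add (Nat.shiftLeft (nat_lit 1) (Nat.land (Nat.shiftRight (V (nat_lit 13)) (S (nat_lit 29))) (nat_lit 65535))) (Nat.shiftLeft (nat_lit 1) (Nat.land (Nat.shiftRight (V (nat_lit 13)) (S (nat_lit 40))) (nat_lit 65535))))) (Nat.add (Nat.add (Nat.shiftLeft (nat_lit 1) (Nat.land (Nat.shiftRight (V (nat_lit 13)) (S (nat_lit 51))) (nat_lit 65535))) (Nat.shiftLeft (nat_lit 1) (Nat.land (Nat.shiftRight (V (nat_lit 13)) (S (nat_lit 52))) (nat_lit 65535)))) (Nat.add (Nat.shiftLeft (nat_lit 1) (Nat.land (Nat.shiftRight (V (nat_lit 14)) (S (nat_lit 4))) (nat_lit 65535))) (Nat.shiftLeft (nat_lit 1) (Nat.land (Nat.shiftRight (V (nat_lit 14)) (S (nat_lit 6))) (nat_lit 65535)))))))) (Nat.add (Nat.add (Nat.add (Nat.add (Nat.shiftLeft (nat_lit 1) (Nat.land (Nat.shiftRight (V (nat_lit 14)) (S (nat_lit 7))) (nat_lit 65535))) (Nat.add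 (Nat.shiftLeft (nat_lit 1) (Nat.land (Nat.shiftRight (V (nat_lit 14)) (S (nat_lit 10))) (nat_lit 65535))) (Nat.shiftLeft (nat_lit 1) (Nat.land (Nat.shiftRight (V (nat_lit 14)) (S (nat_lit 28))) (nat_lit 65535))))) (Nat.add (Nat.add (Nat.shiftLeft (nat_lit 1) (Nat.land (Nat.shiftRight (V (nat_lit 14)) (S (nat_lit 39))) (nat_lit 65535))) (Nat.shiftLeft (nat_lit 1) (Nat.land (Nat.shiftRight (V (nat_lit 14)) (S (nat_lit 40))) (nat_lit 65535)))) (Nat.add (Nat.shiftLeft (nat_lit 1) (Nat.land (Nat.shiftRight (V (nat_lit 14)) (S (nat_lit 52))) (nat_lit 65535))) (Nat.shiftLeft (nat_lit 1) (Nat.land (Nat.shiftRight (V (nat_lit 15)) (S (nat_lit 8))) (nat_lit 65535)))))) (Nat.add (Nat.add (Nat.add (Nat.shiftLeft (nat_lit 1) (Nat.land (Nat.shiftRight (V (nat_lit 15)) (S (nat_lit 11))) (nat_lit 65535))) (Nat.shiftLeft (nat_lit 1) (Nat.land (Nat.shiftRight (V (nat_lit 15)) (S (nat_lit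 41))) (nat_lit 65535)))) (Nat.add (Nat.shiftLeft (nat_lit 1) (Nat.land (Nat.shiftRight (V (nat_lit 15)) (S (nat_lit 47))) (nat_lit 65535))) (Nat.shiftLeft (nat_lit 1) (Nat.land (Nat.shiftRight (V (nat_lit 15)) (S (nat_lit 53))) (nat_lit 65535))))) (Nat.add (Nat.add (Nat.shiftLeft (nat_lit 1) (Nat.land (Nat.shiftRight (V (nat_lit 15)) (S (nat_lit 59))) (nat_lit 65535))) (Nat.shiftLeft (nat_lit 1) (Nat.land (Nat.shiftRight (V (nat_lit 19)) (S (nat_lit 3))) (nat_lit 65535)))) (Nat.add (Nat.shiftLeft (nat_lit 1) (Nat.land (Nat.shiftRight (V (nat_lit 19)) (S (nat_lit 11))) (nat_lit 65535))) (Nat.shiftLeft (nat_lit 1) (Nat.land (Nat.shiftRight (V (nat_lit 19)) (S (nat_lit 27))) (nat_lit 65535))))))) (Nat.add (Nat.add (Nat.add (Nat.shiftLeft (nat_lit 1) (Nat.land (Nat.shiftRight (V (nat_lit 19)) (S (nat_lit 33))) (nat_lit 65535))) (Nat.add (Nat.shiftLeft (nat_lit 1) (Nat.land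 (Nat.shiftRight (V (nat_lit 19)) (S (nat_lit 53))) (nat_lit 65535))) (Nat.shiftLeft (nat_lit 1) (Nat.land (Nat.shiftRight (V (nat_lit 19)) (S (nat_lit 55))) (nat_lit 65535))))) (Nat.add (Nat.add (Nat.shiftLeft (nat_lit 1) (Nat.land (Nat.shiftRight (V (nat_lit 22)) (S (nat_lit 3))) (nat_lit 65535))) (Nat.shiftLeft (nat_lit 1) (Nat.land (Nat.shiftRight (V (nat_lit 22)) (S (nat_lit 8))) (nat_lit 65535)))) (Nat.add (Nat.shiftLeft (nat_lit 1) (Nat.land (Nat.shiftRight (V (nat_lit 22)) (S (nat_lit 27))) (nat_lit 65535))) (Nat.shiftLeft (nat_lit 1) (Nat.land (Nat.shiftRight (V (nat_lit 22)) (S (nat_lit 30))) (nat_lit 65535)))))) (Nat.add (Nat.add (Nat.add (Nat.shiftLeft (nat_lit 1) (Nat.land (Nat.shiftRight (V (nat_lit 22)) (S (nat_lit 41))) (nat_lit 65535))) (Nat.shiftLeft (nat_lit 1) (Nat.land (Nat.shiftRight (V (nat_lit 22)) (S (nat_lit 43))) (nat_lit 65535)))) (Nat.add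 (Nat.shiftLeft (nat_lit 1) (Nat.land (Nat.shiftRight (V (nat_lit 24)) (S (nat_lit 8))) (nat_lit 65535))) (Nat.shiftLeft (nat_lit 1) (Nat.land (Nat.shiftRight (V (nat_lit 24)) (S (nat_lit 11))) (nat_lit 65535))))) (Nat.add (Nat.add (Nat.shiftLeft (nat_lit 1) (Nat.land (Nat.shiftRight (V (nat_lit 24)) (S (nat_lit 41))) (nat_lit 65535))) (Nat.shiftLeft (nat_lit 1) (Nat.land (Nat.shiftRight (V (nat_lit 24)) (S (nat_lit 47))) (nat_lit 65535)))) (Nat.add (Nat.shiftLeft (nat_lit 1) (Nat.land (Nat.shiftRight (V (nat_lit 24)) (S (nat_lit 53))) (nat_lit 65535))) (Nat.shiftLeft (nat_lit 1) (Nat.land (Nat.shiftRight (V (nat_lit 24)) (S (nat_lit 59))) (nat_lit 65535)))))))))) (Nat.add (Nat.add (Nat.add (Nat.add (Nat.add (Nat.add (Nat.shiftLeft (nat_lit 1) (Nat.land (Nat.shiftRight (V (nat_lit 27)) (S (nat_lit 4))) (nat_lit 65535))) (Nat.add (Nat.shiftLeft (nat_lit 1) (Nat.land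 (Nat.shiftRight (V (nat_lit 27)) (S (nat_lit 5))) (nat_lit 65535))) (Nat.shiftLeft (nat_lit 1) (Nat.land (Nat.shiftRight (V (nat_lit 27)) (S (nat_lit 6))) (nat_lit 65535))))) (Nat.add (Nat.add (Nat.shiftLeft (nat_lit 1) (Nat.land (Nat.shiftRight (V (nat_lit 27)) (S (nat_lit 9))) (nat_lit 65535))) (Nat.shiftLeft (nat_lit 1) (Nat.land (Nat.shiftRight (V (nat_lit 27)) (S (nat_lit 19))) (nat_lit 65535)))) (Nat.add (Nat.shiftLeft (nat_lit 1) (Nat.land (Nat.shiftRight (V (nat_lit 27)) (S (nat_lit 22))) (nat_lit 65535))) (Nat.shiftLeft (nat_lit 1) (Nat.land (Nat.shiftRight (V (nat_lit 27)) (S (nat_lit 37))) (nat_lit 65535)))))) (Nat.add (Nat.add (Nat.add (Nat.shiftLeft (nat_lit 1) (Nat.land (Nat.shiftRight (V (nat_lit 27)) (S (nat_lit 49))) (nat_lit 65535))) (Nat.shiftLeft (nat_lit 1) (Nat.land (Nat.shiftRight (V (nat_lit 28)) (S (nat_lit 3))) (nat_lit 65535)))) (Nat.add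 (Nat.shiftLeft (nat_lit 1) (Nat.land (Nat.shiftRight (V (nat_lit 28)) (S (nat_lit 8))) (nat_lit 65535))) (Nat.shiftLeft (nat_lit 1) (Nat.land (Nat.shiftRight (V (nat_lit 28)) (S (nat_lit 12))) (nat_lit 65535))))) (Nat.add (Nat.add (Nat.shiftLeft (nat_lit 1) (Nat.land (Nat.shiftRight (V (nat_lit 28)) (S (nat_lit 14))) (nat_lit 65535))) (Nat.shiftLeft (nat_lit 1) (Nat.land (Nat.shiftRight (V (nat_lit 28)) (S (nat_lit 55))) (nat_lit 65535)))) (Nat.add (Nat.shiftLeft (nat_lit 1) (Nat.land (Nat.shiftRight (V (nat_lit 28)) (S (nat_lit 59))) (nat_lit 65535))) (Nat.shiftLeft (nat_lit 1) (Nat.land (Nat.shiftRight (V (nat_lit 29)) (S (nat_lit 3))) (nat_lit 65535))))))) (Nat.add (Nat.add (Nat.add (Nat.shiftLeft (nat_lit 1) (Nat.land (Nat.shiftRight (V (nat_lit 29)) (S (nat_lit 11))) (nat_lit 65535))) (Nat.add (Nat.shiftLeft (nat_lit 1) (Nat.land (Nat.shiftRight (V (nat_lit 29))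 (S (nat_lit 12))) (nat_lit 65535))) (Nat.shiftLeft (nat_lit 1) (Nat.land (Nat.shiftRight (V (nat_lit 29)) (S (nat_lit 13))) (nat_lit 65535))))) (Nat.add (Nat.add (Nat.shiftLeft (nat_lit 1) (Nat.land (Nat.shiftRight (V (nat_lit 29)) (S (nat_lit 43))) (nat_lit 65535))) (Nat.shiftLeft (nat_lit 1) (Nat.land (Nat.shiftRight (V (nat_lit 29)) (S (nat_lit 47))) (nat_lit 65535)))) (Nat.add (Nat.shiftLeft (nat_lit 1) (Nat.land (Nat.shiftRight (V (nat_lit 30)) (S (nat_lit 1))) (nat_lit 65535))) (Nat.shiftLeft (nat_lit 1) (Nat.land (Nat.shiftRight (V (nat_lit 30)) (S (nat_lit 2))) (nat_lit 65535)))))) (Nat.add (Nat.add (Nat.add (Nat.shiftLeft (nat_lit 1) (Nat.land (Nat.shiftRight (V (nat_lit 30)) (S (nat_lit 5))) (nat_lit 65535))) (Nat.shiftLeft (nat_lit 1) (Nat.land (Nat.shiftRight (V (nat_lit 30)) (S (nat_lit 9))) (nat_lit 65535)))) (Nat.add (Nat.shiftLeft (nat_lit 1) (Nat.land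 (Nat.shiftRight (V (nat_lit 30)) (S (nat_lit 22))) (nat_lit 65535))) (Nat.shiftLeft (nat_lit 1) (Nat.land (Nat.shiftRight (V (nat_lit 30)) (S (nat_lit 40))) (nat_lit 65535))))) (Nat.add (Nat.add (Nat.shiftLeft (nat_lit 1) (Nat.land (Nat.shiftRight (V (nat_lit 30)) (S (nat_lit 49))) (nat_lit 65535))) (Nat.shiftLeft (nat_lit 1) (Nat.land (Nat.shiftRight (V (nat_lit 30)) (S (nat_lit 52))) (nat_lit 65535)))) (Nat.add (Nat.shiftLeft (nat_lit 1) (Nat.land (Nat.shiftRight (V (nat_lit 33)) (S (nat_lit 1))) (nat_lit 65535))) (Nat.shiftLeft (nat_lit 1) (Nat.land (Nat.shiftRight (V (nat_lit 33)) (S (nat_lit 2))) (nat_lit 65535)))))))) (Nat.add (Nat.add (Nat.add (Nat.add (Nat.shiftLeft (nat_lit 1) (Nat.land (Nat.shiftRight (V (nat_lit 33)) (S (nat_lit 4))) (nat_lit 65535))) (Nat.add (Nat.shiftLeft (nat_lit 1) (Nat.land (Nat.shiftRight (V (nat_lit 33)) (S (nat_lit 6))) (nat_lit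 65535))) (Nat.shiftLeft (nat_lit 1) (Nat.land (Nat.shiftRight (V (nat_lit 33)) (S (nat_lit 19))) (nat_lit 65535))))) (Nat.add (Nat.add (Nat.shiftLeft (nat_lit 1) (Nat.land (Nat.shiftRight (V (nat_lit 33)) (S (nat_lit 37))) (nat_lit 65535))) (Nat.shiftLeft (nat_lit 1) (Nat.land (Nat.shiftRight (V (nat_lit 33)) (S (nat_lit 40))) (nat_lit 65535)))) (Nat.add (Nat.shiftLeft (nat_lit 1) (Nat.land (Nat.shiftRight (V (nat_lit 33)) (S (nat_lit 52))) (nat_lit 65535))) (Nat.shiftLeft (nat_lit 1) (Nat.land (Nat.shiftRight (V (nat_lit 37)) (S (nat_lit 3))) (nat_lit 65535)))))) (Nat.add (Nat.add (Nat.add (Nat.shiftLeft (nat_lit 1) (Nat.land (Nat.shiftRight (V (nat_lit 37)) (S (nat_lit 11))) (nat_lit 65535))) (Nat.shiftLeft (nat_lit 1) (Nat.land (Nat.shiftRight (V (nat_lit 37)) (S (nat_lit 27))) (nat_lit 65535)))) (Nat.add (Nat.shiftLeft (nat_lit 1) (Nat.land (Nat.shiftRight (V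 (nat_lit 37)) (S (nat_lit 33))) (nat_lit 65535))) (Nat.shiftLeft (nat_lit 1) (Nat.land (Nat.shiftRight (V (nat_lit 37)) (S (nat_lit 53))) (nat_lit 65535))))) (Nat.add (Nat.add (Nat.shiftLeft (nat_lit 1) (Nat.land (Nat.shiftRight (V (nat_lit 37)) (S (nat_lit 55))) (nat_lit 65535))) (Nat.shiftLeft (nat_lit 1) (Nat.land (Nat.shiftRight (V (nat_lit 39)) (S (nat_lit 3))) (nat_lit 65535)))) (Nat.add (Nat.shiftLeft (nat_lit 1) (Nat.land (Nat.shiftRight (V (nat_lit 39)) (S (nat_lit 8))) (nat_lit 65535))) (Nat.shiftLeft (nat_lit 1) (Nat.land (Nat.shiftRight (V (nat_lit 39)) (S (nat_lit 12))) (nat_lit 65535))))))) (Nat.add (Nat.add (Nat.add (Nat.shiftLeft (nat_lit 1) (Nat.land (Nat.shiftRight (V (nat_lit 39)) (S (nat_lit 14))) (nat_lit 65535))) (Nat.add (Nat.shiftLeft (nat_lit 1) (Nat.land (Nat.shiftRight (V (nat_lit 39)) (S (nat_lit 55))) (nat_lit 65535))) (Nat.shiftLeft (nat_lit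 1) (Nat.land (Nat.shiftRight (V (nat_lit 39)) (S (nat_lit 59))) (nat_lit 65535))))) (Nat.add (Nat.add (Nat.shiftLeft (nat_lit 1) (Nat.land (Nat.shiftRight (V (nat_lit 40)) (S (nat_lit 8))) (nat_lit 65535))) (Nat.shiftLeft (nat_lit 1) (Nat.land (Nat.shiftRight (V (nat_lit 40)) (S (nat_lit 11))) (nat_lit 65535)))) (Nat.add (Nat.shiftLeft (nat_lit 1) (Nat.land (Nat.shiftRight (V (nat_lit 40)) (S (nat_lit 13))) (nat_lit 65535))) (Nat.shiftLeft (nat_lit 1) (Nat.land (Nat.shiftRight (V (nat_lit 40)) (S (nat_lit 14))) (nat_lit 65535)))))) (Nat.add (Nat.add (Nat.add (Nat.shiftLeft (nat_lit 1) (Nat.land (Nat.shiftRight (V (nat_lit 40)) (S (nat_lit 30))) (nat_lit 65535))) (Nat.shiftLeft (nat_lit 1) (Nat.land (Nat.shiftRight (V (nat_lit 40)) (S (nat_lit 33))) (nat_lit 65535)))) (Nat.add (Nat.shiftLeft (nat_lit 1) (Nat.land (Nat.shiftRight (V (nat_lit 41)) (S (nat_lit 4))) (nat_lit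 65535))) (Nat.shiftLeft (nat_lit 1) (Nat.land (Nat.shiftRight (V (nat_lit 41)) (S (nat_lit 6))) (nat_lit 65535))))) (Nat.add (Nat.add (Nat.shiftLeft (nat_lit 1) (Nat.land (Nat.shiftRight (V (nat_lit 41)) (S (nat_lit 7))) (nat_lit 65535))) (Nat.shiftLeft (nat_lit 1) (Nat.land (Nat.shiftRight (V (nat_lit 41)) (S (nat_lit 10))) (nat_lit 65535)))) (Nat.add (Nat.shiftLeft (nat_lit 1) (Nat.land (Nat.shiftRight (V (nat_lit 41)) (S (nat_lit 15))) (nat_lit 65535))) (Nat.shiftLeft (nat_lit 1) (Nat.land (Nat.shiftRight (V (nat_lit 41)) (S (nat_lit 22))) (nat_lit 65535))))))))) (Nat.add (Nat.add (Nat.add (Nat.add (Nat.add (Nat.shiftLeft (nat_lit 1) (Nat.land (Nat.shiftRight (V (nat_lit 41)) (S (nat_lit 24))) (nat_lit 65535))) (Nat.add (Nat.shiftLeft (nat_lit 1) (Nat.land (Nat.shiftRight (V (nat_lit 41)) (S (nat_lit 49))) (nat_lit 65535))) (Nat.shiftLeft (nat_lit 1) (Nat.land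 (Nat.shiftRight (V (nat_lit 43)) (S (nat_lit 1))) (nat_lit 65535))))) (Nat.add (Nat.add (Nat.shiftLeft (nat_lit 1) (Nat.land (Nat.shiftRight (V (nat_lit 43)) (S (nat_lit 2))) (nat_lit 65535))) (Nat.shiftLeft (nat_lit 1) (Nat.land (Nat.shiftRight (V (nat_lit 43)) (S (nat_lit 7))) (nat_lit 65535)))) (Nat.add (Nat.shiftLeft (nat_lit 1) (Nat.land (Nat.shiftRight (V (nat_lit 43)) (S (nat_lit 10))) (nat_lit 65535))) (Nat.shiftLeft (nat_lit 1) (Nat.land (Nat.shiftRight (V (nat_lit 43)) (S (nat_lit 22))) (nat_lit 65535)))))) (Nat.add (Nat.add (Nat.add (Nat.shiftLeft (nat_lit 1) (Nat.land (Nat.shiftRight (V (nat_lit 43)) (S (nat_lit 29))) (nat_lit 65535))) (Nat.shiftLeft (nat_lit 1) (Nat.land (Nat.shiftRight (V (nat_lit 43)) (S (nat_lit 49))) (nat_lit 65535)))) (Nat.add (Nat.shiftLeft (nat_lit 1) (Nat.land (Nat.shiftRight (V (nat_lit 43)) (S (nat_lit 51))) (nat_lit 65535)))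 (Nat.shiftLeft (nat_lit 1) (Nat.land (Nat.shiftRight (V (nat_lit 47)) (S (nat_lit 1))) (nat_lit 65535))))) (Nat.add (Nat.add (Nat.shiftLeft (nat_lit 1) (Nat.land (Nat.shiftRight (V (nat_lit 47)) (S (nat_lit 2))) (nat_lit 65535))) (Nat.shiftLeft (nat_lit 1) (Nat.land (Nat.shiftRight (V (nat_lit 47)) (S (nat_lit 4))) (nat_lit 65535)))) (Nat.add (Nat.shiftLeft (nat_lit 1) (Nat.land (Nat.shiftRight (V (nat_lit 47)) (S (nat_lit 6))) (nat_lit 65535))) (Nat.shiftLeft (nat_lit 1) (Nat.land (Nat.shiftRight (V (nat_lit 47)) (S (nat_lit 15))) (nat_lit 65535))))))) (Nat.add (Nat.add (Nat.add (Nat.shiftLeft (nat_lit 1) (Nat.land (Nat.shiftRight (V (nat_lit 47)) (S (nat_lit 24))) (nat_lit 65535))) (Nat.add (Nat.shiftLeft (nat_lit 1) (Nat.land (Nat.shiftRight (V (nat_lit 47)) (S (nat_lit 29))) (nat_lit 65535))) (Nat.shiftLeft (nat_lit 1) (Nat.land (Nat.shiftRight (V (nat_lit 47))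 (S (nat_lit 51))) (nat_lit 65535))))) (Nat.add (Nat.add (Nat.shiftLeft (nat_lit 1) (Nat.land (Nat.shiftRight (V (nat_lit 49)) (S (nat_lit 3))) (nat_lit 65535))) (Nat.shiftLeft (nat_lit 1) (Nat.land (Nat.shiftRight (V (nat_lit 49)) (S (nat_lit 8))) (nat_lit 65535)))) (Nat.add (Nat.shiftLeft (nat_lit 1) (Nat.land (Nat.shiftRight (V (nat_lit 49)) (S (nat_lit 27))) (nat_lit 65535))) (Nat.shiftLeft (nat_lit 1) (Nat.land (Nat.shiftRight (V (nat_lit 49)) (S (nat_lit 30))) (nat_lit 65535)))))) (Nat.add (Nat.add (Nat.add (Nat.shiftLeft (nat_lit 1) (Nat.land (Nat.shiftRight (V (nat_lit 49)) (S (nat_lit 41))) (nat_lit 65535))) (Nat.shiftLeft (nat_lit 1) (Nat.land (Nat.shiftRight (V (nat_lit 49)) (S (nat_lit 43))) (nat_lit 65535)))) (Nat.add (Nat.shiftLeft (nat_lit 1) (Nat.land (Nat.shiftRight (V (nat_lit 51)) (S (nat_lit 3))) (nat_lit 65535))) (Nat.shiftLeft (nat_lit 1) (Nat.land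 (Nat.shiftRight (V (nat_lit 51)) (S (nat_lit 11))) (nat_lit 65535))))) (Nat.add (Nat.add (Nat.shiftLeft (nat_lit 1) (Nat.land (Nat.shiftRight (V (nat_lit 51)) (S (nat_lit 12))) (nat_lit 65535))) (Nat.shiftLeft (nat_lit 1) (Nat.land (Nat.shiftRight (V (nat_lit 51)) (S (nat_lit 13))) (nat_lit 65535)))) (Nat.add (Nat.shiftLeft (nat_lit 1) (Nat.land (Nat.shiftRight (V (nat_lit 51)) (S (nat_lit 43))) (nat_lit 65535))) (Nat.shiftLeft (nat_lit 1) (Nat.land (Nat.shiftRight (V (nat_lit 51)) (S (nat_lit 47))) (nat_lit 65535)))))))) (Nat.add (Nat.add (Nat.add (Nat.add (Nat.shiftLeft (nat_lit 1) (Nat.land (Nat.shiftRight (V (nat_lit 52)) (S (nat_lit 8))) (nat_lit 65535))) (Nat.add (Nat.shiftLeft (nat_lit 1) (Nat.land (Nat.shiftRight (V (nat_lit 52)) (S (nat_lit 11))) (nat_lit 65535))) (Nat.shiftLeft (nat_lit 1) (Nat.land (Nat.shiftRight (V (nat_lit 52)) (S (nat_lit 13))) (nat_lit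 65535))))) (Nat.add (Nat.add (Nat.shiftLeft (nat_lit 1) (Nat.land (Nat.shiftRight (V (nat_lit 52)) (S (nat_lit 14))) (nat_lit 65535))) (Nat.shiftLeft (nat_lit 1) (Nat.land (Nat.shiftRight (V (nat_lit 52)) (S (nat_lit 30))) (nat_lit 65535)))) (Nat.add (Nat.shiftLeft (nat_lit 1) (Nat.land (Nat.shiftRight (V (nat_lit 52)) (S (nat_lit 33))) (nat_lit 65535))) (Nat.shiftLeft (nat_lit 1) (Nat.land (Nat.shiftRight (V (nat_lit 53)) (S (nat_lit 5))) (nat_lit 65535)))))) (Nat.add (Nat.add (Nat.add (Nat.shiftLeft (nat_lit 1) (Nat.land (Nat.shiftRight (V (nat_lit 53)) (S (nat_lit 7))) (nat_lit 65535))) (Nat.shiftLeft (nat_lit 1) (Nat.land (Nat.shiftRight (V (nat_lit 53)) (S (nat_lit 9))) (nat_lit 65535)))) (Nat.add (Nat.shiftLeft (nat_lit 1) (Nat.land (Nat.shiftRight (V (nat_lit 53)) (S (nat_lit 10))) (nat_lit 65535))) (Nat.shiftLeft (nat_lit 1) (Nat.land (Nat.shiftRight (V (nat_lit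 53)) (S (nat_lit 15))) (nat_lit 65535))))) (Nat.add (Nat.add (Nat.shiftLeft (nat_lit 1) (Nat.land (Nat.shiftRight (V (nat_lit 53)) (S (nat_lit 19))) (nat_lit 65535))) (Nat.shiftLeft (nat_lit 1) (Nat.land (Nat.shiftRight (V (nat_lit 53)) (S (nat_lit 24))) (nat_lit 65535)))) (Nat.add (Nat.shiftLeft (nat_lit 1) (Nat.land (Nat.shiftRight (V (nat_lit 53)) (S (nat_lit 37))) (nat_lit 65535))) (Nat.shiftLeft (nat_lit 1) (Nat.land (Nat.shiftRight (V (nat_lit 55)) (S (nat_lit 1))) (nat_lit 65535))))))) (Nat.add (Nat.add (Nat.add (Nat.shiftLeft (nat_lit 1) (Nat.land (Nat.shiftRight (V (nat_lit 55)) (S (nat_lit 2))) (nat_lit 65535))) (Nat.add (Nat.shiftLeft (nat_lit 1) (Nat.land (Nat.shiftRight (V (nat_lit 55)) (S (nat_lit 7))) (nat_lit 65535))) (Nat.shiftLeft (nat_lit 1) (Nat.land (Nat.shiftRight (V (nat_lit 55)) (S (nat_lit 10))) (nat_lit 65535))))) (Nat.add (Nat.add (Nat.shiftLeft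 (nat_lit 1) (Nat.land (Nat.shiftRight (V (nat_lit 55)) (S (nat_lit 19))) (nat_lit 65535))) (Nat.shiftLeft (nat_lit 1) (Nat.land (Nat.shiftRight (V (nat_lit 55)) (S (nat_lit 28))) (nat_lit 65535)))) (Nat.add (Nat.shiftLeft (nat_lit 1) (Nat.land (Nat.shiftRight (V (nat_lit 55)) (S (nat_lit 37))) (nat_lit 65535))) (Nat.shiftLeft (nat_lit 1) (Nat.land (Nat.shiftRight (V (nat_lit 55)) (S (nat_lit 39))) (nat_lit 65535)))))) (Nat.add (Nat.add (Nat.add (Nat.shiftLeft (nat_lit 1) (Nat.land (Nat.shiftRight (V (nat_lit 59)) (S (nat_lit 1))) (nat_lit 65535))) (Nat.shiftLeft (nat_lit 1) (Nat.land (Nat.shiftRight (V (nat_lit 59)) (S (nat_lit 2))) (nat_lit 65535)))) (Nat.add (Nat.shiftLeft (nat_lit 1) (Nat.land (Nat.shiftRight (V (nat_lit 59)) (S (nat_lit 5))) (nat_lit 65535))) (Nat.shiftLeft (nat_lit 1) (Nat.land (Nat.shiftRight (V (nat_lit 59)) (S (nat_lit 9))) (nat_lit 65535)))))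 (Nat.add (Nat.add (Nat.shiftLeft (nat_lit 1) (Nat.land (Nat.shiftRight (V (nat_lit 59)) (S (nat_lit 15))) (nat_lit 65535))) (Nat.shiftLeft (nat_lit 1) (Nat.land (Nat.shiftRight (V (nat_lit 59)) (S (nat_lit 24))) (nat_lit 65535)))) (Nat.add (Nat.shiftLeft (nat_lit 1) (Nat.land (Nat.shiftRight (V (nat_lit 59)) (S (nat_lit 28))) (nat_lit 65535))) (Nat.shiftLeft (nat_lit 1) (Nat.land (Nat.shiftRight (V (nat_lit 59)) (S (nat_lit 39))) (nat_lit 65535))))))))))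
def E14_0 (V S : ℕ → ℕ) : ℕ := Nat.add (Nat.add (Nat.add (Nat.add (Nat.add (Nat.add (Nat.add (Nat.shiftLeft (nat_lit 1) (Nat.land (Nat.shiftRight (V (nat_lit 1)) (S (nat_lit 31))) (nat_lit 65535))) (Nat.add (Nat.shiftLeft (nat_lit 1) (Nat.land (Nat.shiftRight (V (nat_lit 1)) (S (nat_lit 35))) (nat_lit 65535))) (Nat.shiftLeft (nat_lit 1) (Nat.land (Nat.shiftRight (V (nat_lit 1)) (S (nat_lit 42))) (nat_lit 65535))))) (Nat.add (Nat.add (Nat.shiftLeft (nat_lit 1) (Nat.land (Nat.shiftRight (V (nat_lit 1)) (S (nat_lit 45))) (nat_lit 65535))) (Nat.shiftLeft (nat_lit 1) (Nat.land (Nat.shiftRight (V (nat_lit 1)) (S (nat_lit 56))) (nat_lit 65535)))) (Nat.add (Nat.shiftLeft (nat_lit 1) (Nat.land (Nat.shiftRight (V (nat_lit 1)) (S (nat_lit 58))) (nat_lit 65535))) (Nat.shiftLeft (nat_lit 1) (Nat.land (Nat.shiftRight (V (nat_lit 2)) (S (nat_lit 32))) (nat_lit 65535)))))) (Nat.add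 (Nat.add (Nat.add (Nat.shiftLeft (nat_lit 1) (Nat.land (Nat.shiftRight (V (nat_lit 2)) (S (nat_lit 34))) (nat_lit 65535))) (Nat.shiftLeft (nat_lit 1) (Nat.land (Nat.shiftRight (V (nat_lit 2)) (S (nat_lit 44))) (nat_lit 65535)))) (Nat.add (Nat.shiftLeft (nat_lit 1) (Nat.land (Nat.shiftRight (V (nat_lit 2)) (S (nat_lit 46))) (nat_lit 65535))) (Nat.shiftLeft (nat_lit 1) (Nat.land (Nat.shiftRight (V (nat_lit 2)) (S (nat_lit 54))) (nat_lit 65535))))) (Nat.add (Nat.add (Nat.shiftLeft (nat_lit 1) (Nat.land (Nat.shiftRight (V (nat_lit 2)) (S (nat_lit 57))) (nat_lit 65535))) (Nat.shiftLeft (nat_lit 1) (Nat.land (Nat.shiftRight (V (nat_lit 4)) (S (nat_lit 17))) (nat_lit 65535)))) (Nat.add (Nat.shiftLeft (nat_lit 1) (Nat.land (Nat.shiftRight (V (nat_lit 4)) (S (nat_lit 23))) (nat_lit 65535))) (Nat.shiftLeft (nat_lit 1) (Nat.land (Nat.shiftRight (V (nat_lit 4)) (S (nat_lit 25)))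 (nat_lit 65535))))))) (Nat.add (Nat.add (Nat.add (Nat.shiftLeft (nat_lit 1) (Nat.land (Nat.shiftRight (V (nat_lit 4)) (S (nat_lit 26))) (nat_lit 65535))) (Nat.add (Nat.shiftLeft (nat_lit 1) (Nat.land (Nat.shiftRight (V (nat_lit 4)) (S (nat_lit 42))) (nat_lit 65535))) (Nat.shiftLeft (nat_lit 1) (Nat.land (Nat.shiftRight (V (nat_lit 4)) (S (nat_lit 45))) (nat_lit 65535))))) (Nat.add (Nat.add (Nat.shiftLeft (nat_lit 1) (Nat.land (Nat.shiftRight (V (nat_lit 5)) (S (nat_lit 16))) (nat_lit 65535))) (Nat.shiftLeft (nat_lit 1) (Nat.land (Nat.shiftRight (V (nat_lit 5)) (S (nat_lit 20))) (nat_lit 65535)))) (Nat.add (Nat.shiftLeft (nat_lit 1) (Nat.land (Nat.shiftRight (V (nat_lit 5)) (S (nat_lit 25))) (nat_lit 65535))) (Nat.shiftLeft (nat_lit 1) (Nat.land (Nat.shiftRight (V (nat_lit 5)) (S (nat_lit 26))) (nat_lit 65535)))))) (Nat.add (Nat.add (Nat.add (Nat.shiftLeft (nat_lit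 1) (Nat.land (Nat.shiftRight (V (nat_lit 5)) (S (nat_lit 54))) (nat_lit 65535))) (Nat.shiftLeft (nat_lit 1) (Nat.land (Nat.shiftRight (V (nat_lit 5)) (S (nat_lit 57))) (nat_lit 65535)))) (Nat.add (Nat.shiftLeft (nat_lit 1) (Nat.land (Nat.shiftRight (V (nat_lit 6)) (S (nat_lit 18))) (nat_lit 65535))) (Nat.shiftLeft (nat_lit 1) (Nat.land (Nat.shiftRight (V (nat_lit 6)) (S (nat_lit 21))) (nat_lit 65535))))) (Nat.add (Nat.add (Nat.shiftLeft (nat_lit 1) (Nat.land (Nat.shiftRight (V (nat_lit 6)) (S (nat_lit 32))) (nat_lit 65535))) (Nat.shiftLeft (nat_lit 1) (Nat.land (Nat.shiftRight (V (nat_lit 6)) (S (nat_lit 34))) (nat_lit 65535)))) (Nat.add (Nat.shiftLeft (nat_lit 1) (Nat.land (Nat.shiftRight (V (nat_lit 6)) (S (nat_lit 36))) (nat_lit 65535))) (Nat.shiftLeft (nat_lit 1) (Nat.land (Nat.shiftRight (V (nat_lit 6)) (S (nat_lit 38))) (nat_lit 65535)))))))) (Nat.add (Nat.add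 (Nat.add (Nat.add (Nat.shiftLeft (nat_lit 1) (Nat.land (Nat.shiftRight (V (nat_lit 7)) (S (nat_lit 16))) (nat_lit 65535))) (Nat.add (Nat.shiftLeft (nat_lit 1) (Nat.land (Nat.shiftRight (V (nat_lit 7)) (S (nat_lit 20))) (nat_lit 65535))) (Nat.shiftLeft (nat_lit 1) (Nat.land (Nat.shiftRight (V (nat_lit 7)) (S (nat_lit 36))) (nat_lit 65535))))) (Nat.add (Nat.add (Nat.shiftLeft (nat_lit 1) (Nat.land (Nat.shiftRight (V (nat_lit 7)) (S (nat_lit 38))) (nat_lit 65535))) (Nat.shiftLeft (nat_lit 1) (Nat.land (Nat.shiftRight (V (nat_lit 7)) (S (nat_lit 56))) (nat_lit 65535)))) (Nat.add (Nat.shiftLeft (nat_lit 1) (Nat.land (Nat.shiftRight (V (nat_lit 7)) (S (nat_lit 58))) (nat_lit 65535))) (Nat.shiftLeft (nat_lit 1) (Nat.land (Nat.shiftRight (V (nat_lit 9)) (S (nat_lit 18))) (nat_lit 65535)))))) (Nat.add (Nat.add (Nat.add (Nat.shiftLeft (nat_lit 1) (Nat.land (Nat.shiftRight (V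 (nat_lit 9)) (S (nat_lit 21))) (nat_lit 65535))) (Nat.shiftLeft (nat_lit 1) (Nat.land (Nat.shiftRight (V (nat_lit 9)) (S (nat_lit 31))) (nat_lit 65535)))) (Nat.add (Nat.shiftLeft (nat_lit 1) (Nat.land (Nat.shiftRight (V (nat_lit 9)) (S (nat_lit 35))) (nat_lit 65535))) (Nat.shiftLeft (nat_lit 1) (Nat.land (Nat.shiftRight (V (nat_lit 9)) (S (nat_lit 48))) (nat_lit 65535))))) (Nat.add (Nat.add (Nat.shiftLeft (nat_lit 1) (Nat.land (Nat.shiftRight (V (nat_lit 9)) (S (nat_lit 50))) (nat_lit 65535))) (Nat.shiftLeft (nat_lit 1) (Nat.land (Nat.shiftRight (V (nat_lit 10)) (S (nat_lit 17))) (nat_lit 65535)))) (Nat.add (Nat.shiftLeft (nat_lit 1) (Nat.land (Nat.shiftRight (V (nat_lit 10)) (S (nat_lit 23))) (nat_lit 65535))) (Nat.shiftLeft (nat_lit 1) (Nat.land (Nat.shiftRight (V (nat_lit 10)) (S (nat_lit 44))) (nat_lit 65535))))))) (Nat.add (Nat.add (Nat.add (Nat.shiftLeft (nat_lit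 1) (Nat.land (Nat.shiftRight (V (nat_lit 10)) (S (nat_lit 46))) (nat_lit 65535))) (Nat.add (Nat.shiftLeft (nat_lit 1) (Nat.land (Nat.shiftRight (V (nat_lit 10)) (S (nat_lit 48))) (nat_lit 65535))) (Nat.shiftLeft (nat_lit 1) (Nat.land (Nat.shiftRight (V (nat_lit 10)) (S (nat_lit 50))) (nat_lit 65535))))) (Nat.add (Nat.add (Nat.shiftLeft (nat_lit 1) (Nat.land (Nat.shiftRight (V (nat_lit 15)) (S (nat_lit 20))) (nat_lit 65535))) (Nat.shiftLeft (nat_lit 1) (Nat.land (Nat.shiftRight (V (nat_lit 15)) (S (nat_lit 23))) (nat_lit 65535)))) (Nat.add (Nat.shiftLeft (nat_lit 1) (Nat.land (Nat.shiftRight (V (nat_lit 15)) (S (nat_lit 44))) (nat_lit 65535))) (Nat.shiftLeft (nat_lit 1) (Nat.land (Nat.shiftRight (V (nat_lit 15)) (S (nat_lit 45))) (nat_lit 65535)))))) (Nat.add (Nat.add (Nat.add (Nat.shiftLeft (nat_lit 1) (Nat.land (Nat.shiftRight (V (nat_lit 15)) (S (nat_lit 56))) (nat_lit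 65535))) (Nat.shiftLeft (nat_lit 1) (Nat.land (Nat.shiftRight (V (nat_lit 15)) (S (nat_lit 57))) (nat_lit 65535)))) (Nat.add (Nat.shiftLeft (nat_lit 1) (Nat.land (Nat.shiftRight (V (nat_lit 16)) (S (nat_lit 5))) (nat_lit 65535))) (Nat.shiftLeft (nat_lit 1) (Nat.land (Nat.shiftRight (V (nat_lit 16)) (S (nat_lit 7))) (nat_lit 65535))))) (Nat.add (Nat.add (Nat.shiftLeft (nat_lit 1) (Nat.land (Nat.shiftRight (V (nat_lit 16)) (S (nat_lit 19))) (nat_lit 65535))) (Nat.shiftLeft (nat_lit 1) (Nat.land (Nat.shiftRight (V (nat_lit 16)) (S (nat_lit 28))) (nat_lit 65535)))) (Nat.add (Nat.shiftLeft (nat_lit 1) (Nat.land (Nat.shiftRight (V (nat_lit 16)) (S (nat_lit 29))) (nat_lit 65535))) (Nat.shiftLeft (nat_lit 1) (Nat.land (Nat.shiftRight (V (nat_lit 17)) (S (nat_lit 4))) (nat_lit 65535))))))))) (Nat.add (Nat.add (Nat.add (Nat.add (Nat.add (Nat.shiftLeft (nat_lit 1) (Nat.land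 (Nat.shiftRight (V (nat_lit 17)) (S (nat_lit 10))) (nat_lit 65535))) (Nat.add (Nat.shiftLeft (nat_lit 1) (Nat.land (Nat.shiftRight (V (nat_lit 17)) (S (nat_lit 22))) (nat_lit 65535))) (Nat.shiftLeft (nat_lit 1) (Nat.land (Nat.shiftRight (V (nat_lit 17)) (S (nat_lit 28))) (nat_lit 65535))))) (Nat.add (Nat.add (Nat.shiftLeft (nat_lit 1) (Nat.land (Nat.shiftRight (V (nat_lit 17)) (S (nat_lit 29))) (nat_lit 65535))) (Nat.shiftLeft (nat_lit 1) (Nat.land (Nat.shiftRight (V (nat_lit 18)) (S (nat_lit 6))) (nat_lit 65535)))) (Nat.add (Nat.shiftLeft (nat_lit 1) (Nat.land (Nat.shiftRight (V (nat_lit 18)) (S (nat_lit 9))) (nat_lit 65535))) (Nat.shiftLeft (nat_lit 1) (Nat.land (Nat.shiftRight (V (nat_lit 18)) (S (nat_lit 22))) (nat_lit 65535)))))) (Nat.add (Nat.add (Nat.add (Nat.shiftLeft (nat_lit 1) (Nat.land (Nat.shiftRight (V (nat_lit 18)) (S (nat_lit 39))) (nat_lit 65535)))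 (Nat.shiftLeft (nat_lit 1) (Nat.land (Nat.shiftRight (V (nat_lit 18)) (S (nat_lit 40))) (nat_lit 65535)))) (Nat.add (Nat.shiftLeft (nat_lit 1) (Nat.land (Nat.shiftRight (V (nat_lit 19)) (S (nat_lit 16))) (nat_lit 65535))) (Nat.shiftLeft (nat_lit 1) (Nat.land (Nat.shiftRight (V (nat_lit 19)) (S (nat_lit 21))) (nat_lit 65535))))) (Nat.add (Nat.add (Nat.shiftLeft (nat_lit 1) (Nat.land (Nat.shiftRight (V (nat_lit 19)) (S (nat_lit 31))) (nat_lit 65535))) (Nat.shiftLeft (nat_lit 1) (Nat.land (Nat.shiftRight (V (nat_lit 19)) (S (nat_lit 34))) (nat_lit 65535)))) (Nat.add (Nat.shiftLeft (nat_lit 1) (Nat.land (Nat.shiftRight (V (nat_lit 19)) (S (nat_lit 56))) (nat_lit 65535))) (Nat.shiftLeft (nat_lit 1) (Nat.land (Nat.shiftRight (V (nat_lit 19)) (S (nat_lit 57))) (nat_lit 65535))))))) (Nat.add (Nat.add (Nat.add (Nat.shiftLeft (nat_lit 1) (Nat.land (Nat.shiftRight (V (nat_lit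 20)) (S (nat_lit 5))) (nat_lit 65535))) (Nat.add (Nat.shiftLeft (nat_lit 1) (Nat.land (Nat.shiftRight (V (nat_lit 20)) (S (nat_lit 7))) (nat_lit 65535))) (Nat.shiftLeft (nat_lit 1) (Nat.land (Nat.shiftRight (V (nat_lit 20)) (S (nat_lit 15))) (nat_lit 65535))))) (Nat.add (Nat.add (Nat.shiftLeft (nat_lit 1) (Nat.land (Nat.shiftRight (V (nat_lit 20)) (S (nat_lit 39))) (nat_lit 65535))) (Nat.shiftLeft (nat_lit 1) (Nat.land (Nat.shiftRight (V (nat_lit 20)) (S (nat_lit 40))) (nat_lit 65535)))) (Nat.add (Nat.shiftLeft (nat_lit 1) (Nat.land (Nat.shiftRight (V (nat_lit 21)) (S (nat_lit 6))) (nat_lit 65535))) (Nat.shiftLeft (nat_lit 1) (Nat.land (Nat.shiftRight (V (nat_lit 21)) (S (nat_lit 9))) (nat_lit 65535)))))) (Nat.add (Nat.add (Nat.add (Nat.shiftLeft (nat_lit 1) (Nat.land (Nat.shiftRight (V (nat_lit 21)) (S (nat_lit 19))) (nat_lit 65535))) (Nat.shiftLeft (nat_lit 1) (Nat.land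 (Nat.shiftRight (V (nat_lit 21)) (S (nat_lit 51))) (nat_lit 65535)))) (Nat.add (Nat.shiftLeft (nat_lit 1) (Nat.land (Nat.shiftRight (V (nat_lit 21)) (S (nat_lit 52))) (nat_lit 65535))) (Nat.shiftLeft (nat_lit 1) (Nat.land (Nat.shiftRight (V (nat_lit 22)) (S (nat_lit 17))) (nat_lit 65535))))) (Nat.add (Nat.add (Nat.shiftLeft (nat_lit 1) (Nat.land (Nat.shiftRight (V (nat_lit 22)) (S (nat_lit 18))) (nat_lit 65535))) (Nat.shiftLeft (nat_lit 1) (Nat.land (Nat.shiftRight (V (nat_lit 22)) (S (nat_lit 31))) (nat_lit 65535)))) (Nat.add (Nat.shiftLeft (nat_lit 1) (Nat.land (Nat.shiftRight (V (nat_lit 22)) (S (nat_lit 34))) (nat_lit 65535))) (Nat.shiftLeft (nat_lit 1) (Nat.land (Nat.shiftRight (V (nat_lit 22)) (S (nat_lit 44))) (nat_lit 65535)))))))) (Nat.add (Nat.add (Nat.add (Nat.add (Nat.shiftLeft (nat_lit 1) (Nat.land (Nat.shiftRight (V (nat_lit 22)) (S (nat_lit 45))) (nat_lit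 65535))) (Nat.add (Nat.shiftLeft (nat_lit 1) (Nat.land (Nat.shiftRight (V (nat_lit 23)) (S (nat_lit 4))) (nat_lit 65535))) (Nat.shiftLeft (nat_lit 1) (Nat.land (Nat.shiftRight (V (nat_lit 23)) (S (nat_lit 10))) (nat_lit 65535))))) (Nat.add (Nat.add (Nat.shiftLeft (nat_lit 1) (Nat.land (Nat.shiftRight (V (nat_lit 23)) (S (nat_lit 15))) (nat_lit 65535))) (Nat.shiftLeft (nat_lit 1) (Nat.land (Nat.shiftRight (V (nat_lit 23)) (S (nat_lit 51))) (nat_lit 65535)))) (Nat.add (Nat.shiftLeft (nat_lit 1) (Nat.land (Nat.shiftRight (V (nat_lit 23)) (S (nat_lit 52))) (nat_lit 65535))) (Nat.shiftLeft (nat_lit 1) (Nat.land (Nat.shiftRight (V (nat_lit 24)) (S (nat_lit 32))) (nat_lit 65535)))))) (Nat.add (Nat.add (Nat.add (Nat.shiftLeft (nat_lit 1) (Nat.land (Nat.shiftRight (V (nat_lit 24)) (S (nat_lit 35))) (nat_lit 65535))) (Nat.shiftLeft (nat_lit 1) (Nat.land (Nat.shiftRight (V (nat_lit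 24)) (S (nat_lit 38))) (nat_lit 65535)))) (Nat.add (Nat.shiftLeft (nat_lit 1) (Nat.land (Nat.shiftRight (V (nat_lit 24)) (S (nat_lit 46))) (nat_lit 65535))) (Nat.shiftLeft (nat_lit 1) (Nat.land (Nat.shiftRight (V (nat_lit 24)) (S (nat_lit 50))) (nat_lit 65535))))) (Nat.add (Nat.add (Nat.shiftLeft (nat_lit 1) (Nat.land (Nat.shiftRight (V (nat_lit 24)) (S (nat_lit 58))) (nat_lit 65535))) (Nat.shiftLeft (nat_lit 1) (Nat.land (Nat.shiftRight (V (nat_lit 25)) (S (nat_lit 4))) (nat_lit 65535)))) (Nat.add (Nat.shiftLeft (nat_lit 1) (Nat.land (Nat.shiftRight (V (nat_lit 25)) (S (nat_lit 5))) (nat_lit 65535))) (Nat.shiftLeft (nat_lit 1) (Nat.land (Nat.shiftRight (V (nat_lit 25)) (S (nat_lit 29))) (nat_lit 65535))))))) (Nat.add (Nat.add (Nat.add (Nat.shiftLeft (nat_lit 1) (Nat.land (Nat.shiftRight (V (nat_lit 25)) (S (nat_lit 37))) (nat_lit 65535))) (Nat.add (Nat.shiftLeft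 (nat_lit 1) (Nat.land (Nat.shiftRight (V (nat_lit 25)) (S (nat_lit 40))) (nat_lit 65535))) (Nat.shiftLeft (nat_lit 1) (Nat.land (Nat.shiftRight (V (nat_lit 26)) (S (nat_lit 4))) (nat_lit 65535))))) (Nat.add (Nat.add (Nat.shiftLeft (nat_lit 1) (Nat.land (Nat.shiftRight (V (nat_lit 26)) (S (nat_lit 5))) (nat_lit 65535))) (Nat.shiftLeft (nat_lit 1) (Nat.land (Nat.shiftRight (V (nat_lit 26)) (S (nat_lit 28))) (nat_lit 65535)))) (Nat.add (Nat.shiftLeft (nat_lit 1) (Nat.land (Nat.shiftRight (V (nat_lit 26)) (S (nat_lit 49))) (nat_lit 65535))) (Nat.shiftLeft (nat_lit 1) (Nat.land (Nat.shiftRight (V (nat_lit 26)) (S (nat_lit 52))) (nat_lit 65535)))))) (Nat.add (Nat.add (Nat.add (Nat.shiftLeft (nat_lit 1) (Nat.land (Nat.shiftRight (V (nat_lit 28)) (S (nat_lit 16))) (nat_lit 65535))) (Nat.shiftLeft (nat_lit 1) (Nat.land (Nat.shiftRight (V (nat_lit 28)) (S (nat_lit 17))) (nat_lit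 65535)))) (Nat.add (Nat.shiftLeft (nat_lit 1) (Nat.land (Nat.shiftRight (V (nat_lit 28)) (S (nat_lit 26))) (nat_lit 65535))) (Nat.shiftLeft (nat_lit 1) (Nat.land (Nat.shiftRight (V (nat_lit 28)) (S (nat_lit 31))) (nat_lit 65535))))) (Nat.add (Nat.add (Nat.shiftLeft (nat_lit 1) (Nat.land (Nat.shiftRight (V (nat_lit 28)) (S (nat_lit 50))) (nat_lit 65535))) (Nat.shiftLeft (nat_lit 1) (Nat.land (Nat.shiftRight (V (nat_lit 28)) (S (nat_lit 58))) (nat_lit 65535)))) (Nat.add (Nat.shiftLeft (nat_lit 1) (Nat.land (Nat.shiftRight (V (nat_lit 29)) (S (nat_lit 16))) (nat_lit 65535))) (Nat.shiftLeft (nat_lit 1) (Nat.land (Nat.shiftRight (V (nat_lit 29)) (S (nat_lit 17))) (nat_lit 65535)))))))))) (Nat.add (Nat.add (Nat.add (Nat.add (Nat.add (Nat.add (Nat.shiftLeft (nat_lit 1) (Nat.land (Nat.shiftRight (V (nat_lit 29)) (S (nat_lit 25))) (nat_lit 65535))) (Nat.add (Nat.shiftLeft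 (nat_lit 1) (Nat.land (Nat.shiftRight (V (nat_lit 29)) (S (nat_lit 34))) (nat_lit 65535))) (Nat.shiftLeft (nat_lit 1) (Nat.land (Nat.shiftRight (V (nat_lit 29)) (S (nat_lit 38))) (nat_lit 65535))))) (Nat.add (Nat.add (Nat.shiftLeft (nat_lit 1) (Nat.land (Nat.shiftRight (V (nat_lit 29)) (S (nat_lit 46))) (nat_lit 65535))) (Nat.shiftLeft (nat_lit 1) (Nat.land (Nat.shiftRight (V (nat_lit 31)) (S (nat_lit 1))) (nat_lit 65535)))) (Nat.add (Nat.shiftLeft (nat_lit 1) (Nat.land (Nat.shiftRight (V (nat_lit 31)) (S (nat_lit 9))) (nat_lit 65535))) (Nat.shiftLeft (nat_lit 1) (Nat.land (Nat.shiftRight (V (nat_lit 31)) (S (nat_lit 19))) (nat_lit 65535)))))) (Nat.add (Nat.add (Nat.add (Nat.shiftLeft (nat_lit 1) (Nat.land (Nat.shiftRight (V (nat_lit 31)) (S (nat_lit 22))) (nat_lit 65535))) (Nat.shiftLeft (nat_lit 1) (Nat.land (Nat.shiftRight (V (nat_lit 31)) (S (nat_lit 28))) (nat_lit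 65535)))) (Nat.add (Nat.shiftLeft (nat_lit 1) (Nat.land (Nat.shiftRight (V (nat_lit 32)) (S (nat_lit 2))) (nat_lit 65535))) (Nat.shiftLeft (nat_lit 1) (Nat.land (Nat.shiftRight (V (nat_lit 32)) (S (nat_lit 6))) (nat_lit 65535))))) (Nat.add (Nat.add (Nat.shiftLeft (nat_lit 1) (Nat.land (Nat.shiftRight (V (nat_lit 32)) (S (nat_lit 24))) (nat_lit 65535))) (Nat.shiftLeft (nat_lit 1) (Nat.land (Nat.shiftRight (V (nat_lit 32)) (S (nat_lit 49))) (nat_lit 65535)))) (Nat.add (Nat.shiftLeft (nat_lit 1) (Nat.land (Nat.shiftRight (V (nat_lit 32)) (S (nat_lit 52))) (nat_lit 65535))) (Nat.shiftLeft (nat_lit 1) (Nat.land (Nat.shiftRight (V (nat_lit 34)) (S (nat_lit 2))) (nat_lit 65535))))))) (Nat.add (Nat.add (Nat.add (Nat.shiftLeft (nat_lit 1) (Nat.land (Nat.shiftRight (V (nat_lit 34)) (S (nat_lit 6))) (nat_lit 65535))) (Nat.add (Nat.shiftLeft (nat_lit 1) (Nat.land (Nat.shiftRight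 (V (nat_lit 34)) (S (nat_lit 19))) (nat_lit 65535))) (Nat.shiftLeft (nat_lit 1) (Nat.land (Nat.shiftRight (V (nat_lit 34)) (S (nat_lit 22))) (nat_lit 65535))))) (Nat.add (Nat.add (Nat.shiftLeft (nat_lit 1) (Nat.land (Nat.shiftRight (V (nat_lit 34)) (S (nat_lit 29))) (nat_lit 65535))) (Nat.shiftLeft (nat_lit 1) (Nat.land (Nat.shiftRight (V (nat_lit 35)) (S (nat_lit 1))) (nat_lit 65535)))) (Nat.add (Nat.shiftLeft (nat_lit 1) (Nat.land (Nat.shiftRight (V (nat_lit 35)) (S (nat_lit 9))) (nat_lit 65535))) (Nat.shiftLeft (nat_lit 1) (Nat.land (Nat.shiftRight (V (nat_lit 35)) (S (nat_lit 24))) (nat_lit 65535)))))) (Nat.add (Nat.add (Nat.add (Nat.shiftLeft (nat_lit 1) (Nat.land (Nat.shiftRight (V (nat_lit 35)) (S (nat_lit 37))) (nat_lit 65535))) (Nat.shiftLeft (nat_lit 1) (Nat.land (Nat.shiftRight (V (nat_lit 35)) (S (nat_lit 40))) (nat_lit 65535)))) (Nat.add (Nat.shiftLeft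 (nat_lit 1) (Nat.land (Nat.shiftRight (V (nat_lit 36)) (S (nat_lit 6))) (nat_lit 65535))) (Nat.shiftLeft (nat_lit 1) (Nat.land (Nat.shiftRight (V (nat_lit 36)) (S (nat_lit 7))) (nat_lit 65535))))) (Nat.add (Nat.add (Nat.shiftLeft (nat_lit 1) (Nat.land (Nat.shiftRight (V (nat_lit 36)) (S (nat_lit 39))) (nat_lit 65535))) (Nat.shiftLeft (nat_lit 1) (Nat.land (Nat.shiftRight (V (nat_lit 36)) (S (nat_lit 49))) (nat_lit 65535)))) (Nat.add (Nat.shiftLeft (nat_lit 1) (Nat.land (Nat.shiftRight (V (nat_lit 36)) (S (nat_lit 51))) (nat_lit 65535))) (Nat.shiftLeft (nat_lit 1) (Nat.land (Nat.shiftRight (V (nat_lit 37)) (S (nat_lit 25))) (nat_lit 65535)))))))) (Nat.add (Nat.add (Nat.add (Nat.add (Nat.shiftLeft (nat_lit 1) (Nat.land (Nat.shiftRight (V (nat_lit 37)) (S (nat_lit 35))) (nat_lit 65535))) (Nat.add (Nat.shiftLeft (nat_lit 1) (Nat.land (Nat.shiftRight (V (nat_lit 37)) (S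 (nat_lit 42))) (nat_lit 65535))) (Nat.shiftLeft (nat_lit 1) (Nat.land (Nat.shiftRight (V (nat_lit 37)) (S (nat_lit 46))) (nat_lit 65535))))) (Nat.add (Nat.add (Nat.shiftLeft (nat_lit 1) (Nat.land (Nat.shiftRight (V (nat_lit 37)) (S (nat_lit 48))) (nat_lit 65535))) (Nat.shiftLeft (nat_lit 1) (Nat.land (Nat.shiftRight (V (nat_lit 37)) (S (nat_lit 54))) (nat_lit 65535)))) (Nat.add (Nat.shiftLeft (nat_lit 1) (Nat.land (Nat.shiftRight (V (nat_lit 38)) (S (nat_lit 6))) (nat_lit 65535))) (Nat.shiftLeft (nat_lit 1) (Nat.land (Nat.shiftRight (V (nat_lit 38)) (S (nat_lit 7))) (nat_lit 65535)))))) (Nat.add (Nat.add (Nat.add (Nat.shiftLeft (nat_lit 1) (Nat.land (Nat.shiftRight (V (nat_lit 38)) (S (nat_lit 24))) (nat_lit 65535))) (Nat.shiftLeft (nat_lit 1) (Nat.land (Nat.shiftRight (V (nat_lit 38)) (S (nat_lit 29))) (nat_lit 65535)))) (Nat.add (Nat.shiftLeft (nat_lit 1) (Nat.land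 (Nat.shiftRight (V (nat_lit 38)) (S (nat_lit 40))) (nat_lit 65535))) (Nat.shiftLeft (nat_lit 1) (Nat.land (Nat.shiftRight (V (nat_lit 39)) (S (nat_lit 18))) (nat_lit 65535))))) (Nat.add (Nat.add (Nat.shiftLeft (nat_lit 1) (Nat.land (Nat.shiftRight (V (nat_lit 39)) (S (nat_lit 20))) (nat_lit 65535))) (Nat.shiftLeft (nat_lit 1) (Nat.land (Nat.shiftRight (V (nat_lit 39)) (S (nat_lit 36))) (nat_lit 65535)))) (Nat.add (Nat.shiftLeft (nat_lit 1) (Nat.land (Nat.shiftRight (V (nat_lit 39)) (S (nat_lit 44))) (nat_lit 65535))) (Nat.shiftLeft (nat_lit 1) (Nat.land (Nat.shiftRight (V (nat_lit 39)) (S (nat_lit 48))) (nat_lit 65535))))))) (Nat.add (Nat.add (Nat.add (Nat.shiftLeft (nat_lit 1) (Nat.land (Nat.shiftRight (V (nat_lit 39)) (S (nat_lit 54))) (nat_lit 65535))) (Nat.add (Nat.shiftLeft (nat_lit 1) (Nat.land (Nat.shiftRight (V (nat_lit 40)) (S (nat_lit 18))) (nat_lit 65535)))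 (Nat.shiftLeft (nat_lit 1) (Nat.land (Nat.shiftRight (V (nat_lit 40)) (S (nat_lit 20))) (nat_lit 65535))))) (Nat.add (Nat.add (Nat.shiftLeft (nat_lit 1) (Nat.land (Nat.shiftRight (V (nat_lit 40)) (S (nat_lit 25))) (nat_lit 65535))) (Nat.shiftLeft (nat_lit 1) (Nat.land (Nat.shiftRight (V (nat_lit 40)) (S (nat_lit 35))) (nat_lit 65535)))) (Nat.add (Nat.shiftLeft (nat_lit 1) (Nat.land (Nat.shiftRight (V (nat_lit 40)) (S (nat_lit 38))) (nat_lit 65535))) (Nat.shiftLeft (nat_lit 1) (Nat.land (Nat.shiftRight (V (nat_lit 40)) (S (nat_lit 45))) (nat_lit 65535)))))) (Nat.add (Nat.add (Nat.add (Nat.shiftLeft (nat_lit 1) (Nat.land (Nat.shiftRight (V (nat_lit 42)) (S (nat_lit 1))) (nat_lit 65535))) (Nat.shiftLeft (nat_lit 1) (Nat.land (Nat.shiftRight (V (nat_lit 42)) (S (nat_lit 4))) (nat_lit 65535)))) (Nat.add (Nat.shiftLeft (nat_lit 1) (Nat.land (Nat.shiftRight (V (nat_lit 42))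 (S (nat_lit 37))) (nat_lit 65535))) (Nat.shiftLeft (nat_lit 1) (Nat.land (Nat.shiftRight (V (nat_lit 42)) (S (nat_lit 49))) (nat_lit 65535))))) (Nat.add (Nat.add (Nat.shiftLeft (nat_lit 1) (Nat.land (Nat.shiftRight (V (nat_lit 42)) (S (nat_lit 51))) (nat_lit 65535))) (Nat.shiftLeft (nat_lit 1) (Nat.land (Nat.shiftRight (V (nat_lit 44)) (S (nat_lit 2))) (nat_lit 65535)))) (Nat.add (Nat.shiftLeft (nat_lit 1) (Nat.land (Nat.shiftRight (V (nat_lit 44)) (S (nat_lit 10))) (nat_lit 65535))) (Nat.shiftLeft (nat_lit 1) (Nat.land (Nat.shiftRight (V (nat_lit 44)) (S (nat_lit 15))) (nat_lit 65535))))))))) (Nat.add (Nat.add (Nat.add (Nat.add (Nat.add (Nat.shiftLeft (nat_lit 1) (Nat.land (Nat.shiftRight (V (nat_lit 44)) (S (nat_lit 22))) (nat_lit 65535))) (Nat.add (Nat.shiftLeft (nat_lit 1) (Nat.land (Nat.shiftRight (V (nat_lit 44)) (S (nat_lit 39))) (nat_lit 65535))) (Nat.shiftLeft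 (nat_lit 1) (Nat.land (Nat.shiftRight (V (nat_lit 45)) (S (nat_lit 1))) (nat_lit 65535))))) (Nat.add (Nat.add (Nat.shiftLeft (nat_lit 1) (Nat.land (Nat.shiftRight (V (nat_lit 45)) (S (nat_lit 4))) (nat_lit 65535))) (Nat.shiftLeft (nat_lit 1) (Nat.land (Nat.shiftRight (V (nat_lit 45)) (S (nat_lit 15))) (nat_lit 65535)))) (Nat.add (Nat.shiftLeft (nat_lit 1) (Nat.land (Nat.shiftRight (V (nat_lit 45)) (S (nat_lit 22))) (nat_lit 65535))) (Nat.shiftLeft (nat_lit 1) (Nat.land (Nat.shiftRight (V (nat_lit 45)) (S (nat_lit 40))) (nat_lit 65535)))))) (Nat.add (Nat.add (Nat.add (Nat.shiftLeft (nat_lit 1) (Nat.land (Nat.shiftRight (V (nat_lit 46)) (S (nat_lit 2))) (nat_lit 65535))) (Nat.shiftLeft (nat_lit 1) (Nat.land (Nat.shiftRight (V (nat_lit 46)) (S (nat_lit 10))) (nat_lit 65535)))) (Nat.add (Nat.shiftLeft (nat_lit 1) (Nat.land (Nat.shiftRight (V (nat_lit 46)) (S (nat_lit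 24))) (nat_lit 65535))) (Nat.shiftLeft (nat_lit 1) (Nat.land (Nat.shiftRight (V (nat_lit 46)) (S (nat_lit 29))) (nat_lit 65535))))) (Nat.add (Nat.add (Nat.shiftLeft (nat_lit 1) (Nat.land (Nat.shiftRight (V (nat_lit 46)) (S (nat_lit 37))) (nat_lit 65535))) (Nat.shiftLeft (nat_lit 1) (Nat.land (Nat.shiftRight (V (nat_lit 48)) (S (nat_lit 9))) (nat_lit 65535)))) (Nat.add (Nat.shiftLeft (nat_lit 1) (Nat.land (Nat.shiftRight (V (nat_lit 48)) (S (nat_lit 10))) (nat_lit 65535))) (Nat.shiftLeft (nat_lit 1) (Nat.land (Nat.shiftRight (V (nat_lit 48)) (S (nat_lit 37))) (nat_lit 65535))))))) (Nat.add (Nat.add (Nat.add (Nat.shiftLeft (nat_lit 1) (Nat.land (Nat.shiftRight (V (nat_lit 48)) (S (nat_lit 39))) (nat_lit 65535))) (Nat.add (Nat.shiftLeft (nat_lit 1) (Nat.land (Nat.shiftRight (V (nat_lit 48)) (S (nat_lit 51))) (nat_lit 65535))) (Nat.shiftLeft (nat_lit 1) (Nat.land (Nat.shiftRight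 (V (nat_lit 49)) (S (nat_lit 26))) (nat_lit 65535))))) (Nat.add (Nat.add (Nat.shiftLeft (nat_lit 1) (Nat.land (Nat.shiftRight (V (nat_lit 49)) (S (nat_lit 32))) (nat_lit 65535))) (Nat.shiftLeft (nat_lit 1) (Nat.land (Nat.shiftRight (V (nat_lit 49)) (S (nat_lit 36))) (nat_lit 65535)))) (Nat.add (Nat.shiftLeft (nat_lit 1) (Nat.land (Nat.shiftRight (V (nat_lit 49)) (S (nat_lit 42))) (nat_lit 65535))) (Nat.shiftLeft (nat_lit 1) (Nat.land (Nat.shiftRight (V (nat_lit 49)) (S (nat_lit 54))) (nat_lit 65535)))))) (Nat.add (Nat.add (Nat.add (Nat.shiftLeft (nat_lit 1) (Nat.land (Nat.shiftRight (V (nat_lit 49)) (S (nat_lit 58))) (nat_lit 65535))) (Nat.shiftLeft (nat_lit 1) (Nat.land (Nat.shiftRight (V (nat_lit 50)) (S (nat_lit 9))) (nat_lit 65535)))) (Nat.add (Nat.shiftLeft (nat_lit 1) (Nat.land (Nat.shiftRight (V (nat_lit 50)) (S (nat_lit 10))) (nat_lit 65535))) (Nat.shiftLeft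 (nat_lit 1) (Nat.land (Nat.shiftRight (V (nat_lit 50)) (S (nat_lit 24))) (nat_lit 65535))))) (Nat.add (Nat.add (Nat.shiftLeft (nat_lit 1) (Nat.land (Nat.shiftRight (V (nat_lit 50)) (S (nat_lit 28))) (nat_lit 65535))) (Nat.shiftLeft (nat_lit 1) (Nat.land (Nat.shiftRight (V (nat_lit 50)) (S (nat_lit 52))) (nat_lit 65535)))) (Nat.add (Nat.shiftLeft (nat_lit 1) (Nat.land (Nat.shiftRight (V (nat_lit 51)) (S (nat_lit 21))) (nat_lit 65535))) (Nat.shiftLeft (nat_lit 1) (Nat.land (Nat.shiftRight (V (nat_lit 51)) (S (nat_lit 23))) (nat_lit 65535)))))))) (Nat.add (Nat.add (Nat.add (Nat.add (Nat.shiftLeft (nat_lit 1) (Nat.land (Nat.shiftRight (V (nat_lit 51)) (S (nat_lit 36))) (nat_lit 65535))) (Nat.add (Nat.shiftLeft (nat_lit 1) (Nat.land (Nat.shiftRight (V (nat_lit 51)) (S (nat_lit 42))) (nat_lit 65535))) (Nat.shiftLeft (nat_lit 1) (Nat.land (Nat.shiftRight (V (nat_lit 51))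 (S (nat_lit 48))) (nat_lit 65535))))) (Nat.add (Nat.add (Nat.shiftLeft (nat_lit 1) (Nat.land (Nat.shiftRight (V (nat_lit 51)) (S (nat_lit 56))) (nat_lit 65535))) (Nat.shiftLeft (nat_lit 1) (Nat.land (Nat.shiftRight (V (nat_lit 52)) (S (nat_lit 21))) (nat_lit 65535)))) (Nat.add (Nat.shiftLeft (nat_lit 1) (Nat.land (Nat.shiftRight (V (nat_lit 52)) (S (nat_lit 23))) (nat_lit 65535))) (Nat.shiftLeft (nat_lit 1) (Nat.land (Nat.shiftRight (V (nat_lit 52)) (S (nat_lit 26))) (nat_lit 65535)))))) (Nat.add (Nat.add (Nat.add (Nat.shiftLeft (nat_lit 1) (Nat.land (Nat.shiftRight (V (nat_lit 52)) (S (nat_lit 32))) (nat_lit 65535))) (Nat.shiftLeft (nat_lit 1) (Nat.land (Nat.shiftRight (V (nat_lit 52)) (S (nat_lit 50))) (nat_lit 65535)))) (Nat.add (Nat.shiftLeft (nat_lit 1) (Nat.land (Nat.shiftRight (V (nat_lit 52)) (S (nat_lit 57))) (nat_lit 65535))) (Nat.shiftLeft (nat_lit 1) (Nat.land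 (Nat.shiftRight (V (nat_lit 54)) (S (nat_lit 2))) (nat_lit 65535))))) (Nat.add (Nat.add (Nat.shiftLeft (nat_lit 1) (Nat.land (Nat.shiftRight (V (nat_lit 54)) (S (nat_lit 5))) (nat_lit 65535))) (Nat.shiftLeft (nat_lit 1) (Nat.land (Nat.shiftRight (V (nat_lit 54)) (S (nat_lit 37))) (nat_lit 65535)))) (Nat.add (Nat.shiftLeft (nat_lit 1) (Nat.land (Nat.shiftRight (V (nat_lit 54)) (S (nat_lit 39))) (nat_lit 65535))) (Nat.shiftLeft (nat_lit 1) (Nat.land (Nat.shiftRight (V (nat_lit 54)) (S (nat_lit 49))) (nat_lit 65535))))))) (Nat.add (Nat.add (Nat.add (Nat.shiftLeft (nat_lit 1) (Nat.land (Nat.shiftRight (V (nat_lit 56)) (S (nat_lit 1))) (nat_lit 65535))) (Nat.add (Nat.shiftLeft (nat_lit 1) (Nat.land (Nat.shiftRight (V (nat_lit 56)) (S (nat_lit 7))) (nat_lit 65535))) (Nat.shiftLeft (nat_lit 1) (Nat.land (Nat.shiftRight (V (nat_lit 56)) (S (nat_lit 15))) (nat_lit 65535)))))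 (Nat.add (Nat.add (Nat.shiftLeft (nat_lit 1) (Nat.land (Nat.shiftRight (V (nat_lit 56)) (S (nat_lit 19))) (nat_lit 65535))) (Nat.shiftLeft (nat_lit 1) (Nat.land (Nat.shiftRight (V (nat_lit 56)) (S (nat_lit 51))) (nat_lit 65535)))) (Nat.add (Nat.shiftLeft (nat_lit 1) (Nat.land (Nat.shiftRight (V (nat_lit 57)) (S (nat_lit 2))) (nat_lit 65535))) (Nat.shiftLeft (nat_lit 1) (Nat.land (Nat.shiftRight (V (nat_lit 57)) (S (nat_lit 5))) (nat_lit 65535)))))) (Nat.add (Nat.add (Nat.add (Nat.shiftLeft (nat_lit 1) (Nat.land (Nat.shiftRight (V (nat_lit 57)) (S (nat_lit 15))) (nat_lit 65535))) (Nat.shiftLeft (nat_lit 1) (Nat.land (Nat.shiftRight (V (nat_lit 57)) (S (nat_lit 19))) (nat_lit 65535)))) (Nat.add (Nat.shiftLeft (nat_lit 1) (Nat.land (Nat.shiftRight (V (nat_lit 57)) (S (nat_lit 52))) (nat_lit 65535))) (Nat.shiftLeft (nat_lit 1) (Nat.land (Nat.shiftRight (V (nat_lit 58))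 (S (nat_lit 1))) (nat_lit 65535))))) (Nat.add (Nat.add (Nat.shiftLeft (nat_lit 1) (Nat.land (Nat.shiftRight (V (nat_lit 58)) (S (nat_lit 7))) (nat_lit 65535))) (Nat.shiftLeft (nat_lit 1) (Nat.land (Nat.shiftRight (V (nat_lit 58)) (S (nat_lit 24))) (nat_lit 65535)))) (Nat.add (Nat.shiftLeft (nat_lit 1) (Nat.land (Nat.shiftRight (V (nat_lit 58)) (S (nat_lit 28))) (nat_lit 65535))) (Nat.shiftLeft (nat_lit 1) (Nat.land (Nat.shiftRight (V (nat_lit 58)) (S (nat_lit 49))) (nat_lit 65535))))))))))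
def E15_0 (V S : ℕ → ℕ) : ℕ := Nat.add (Nat.add (Nat.add (Nat.add (Nat.add (Nat.add (Nat.add (Nat.shiftLeft (nat_lit 1) (Nat.land (Nat.shiftRight (V (nat_lit 1)) (S (nat_lit 32))) (nat_lit 65535))) (Nat.add (Nat.shiftLeft (nat_lit 1) (Nat.land (Nat.shiftRight (V (nat_lit 1)) (S (nat_lit 34))) (nat_lit 65535))) (Nat.shiftLeft (nat_lit 1) (Nat.land (Nat.shiftRight (V (nat_lit 1)) (S (nat_lit 44))) (nat_lit 65535))))) (Nat.add (Nat.add (Nat.shiftLeft (nat_lit 1) (Nat.land (Nat.shiftRight (V (nat_lit 1)) (S (nat_lit 46))) (nat_lit 65535))) (Nat.shiftLeft (nat_lit 1) (Nat.land (Nat.shiftRight (V (nat_lit 1)) (S (nat_lit 54))) (nat_lit 65535)))) (Nat.add (Nat.shiftLeft (nat_lit 1) (Nat.land (Nat.shiftRight (V (nat_lit 1)) (S (nat_lit 57))) (nat_lit 65535))) (Nat.shiftLeft (nat_lit 1) (Nat.land (Nat.shiftRight (V (nat_lit 2)) (S (nat_lit 31))) (nat_lit 65535)))))) (Nat.add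 (Nat.add (Nat.add (Nat.shiftLeft (nat_lit 1) (Nat.land (Nat.shiftRight (V (nat_lit 2)) (S (nat_lit 35))) (nat_lit 65535))) (Nat.shiftLeft (nat_lit 1) (Nat.land (Nat.shiftRight (V (nat_lit 2)) (S (nat_lit 42))) (nat_lit 65535)))) (Nat.add (Nat.shiftLeft (nat_lit 1) (Nat.land (Nat.shiftRight (V (nat_lit 2)) (S (nat_lit 45))) (nat_lit 65535))) (Nat.shiftLeft (nat_lit 1) (Nat.land (Nat.shiftRight (V (nat_lit 2)) (S (nat_lit 56))) (nat_lit 65535))))) (Nat.add (Nat.add (Nat.shiftLeft (nat_lit 1) (Nat.land (Nat.shiftRight (V (nat_lit 2)) (S (nat_lit 58))) (nat_lit 65535))) (Nat.shiftLeft (nat_lit 1) (Nat.land (Nat.shiftRight (V (nat_lit 4)) (S (nat_lit 18))) (nat_lit 65535)))) (Nat.add (Nat.shiftLeft (nat_lit 1) (Nat.land (Nat.shiftRight (V (nat_lit 4)) (S (nat_lit 21))) (nat_lit 65535))) (Nat.shiftLeft (nat_lit 1) (Nat.land (Nat.shiftRight (V (nat_lit 4)) (S (nat_lit 32)))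 (nat_lit 65535))))))) (Nat.add (Nat.add (Nat.add (Nat.shiftLeft (nat_lit 1) (Nat.land (Nat.shiftRight (V (nat_lit 4)) (S (nat_lit 34))) (nat_lit 65535))) (Nat.add (Nat.shiftLeft (nat_lit 1) (Nat.land (Nat.shiftRight (V (nat_lit 4)) (S (nat_lit 36))) (nat_lit 65535))) (Nat.shiftLeft (nat_lit 1) (Nat.land (Nat.shiftRight (V (nat_lit 4)) (S (nat_lit 38))) (nat_lit 65535))))) (Nat.add (Nat.add (Nat.shiftLeft (nat_lit 1) (Nat.land (Nat.shiftRight (V (nat_lit 5)) (S (nat_lit 18))) (nat_lit 65535))) (Nat.shiftLeft (nat_lit 1) (Nat.land (Nat.shiftRight (V (nat_lit 5)) (S (nat_lit 21))) (nat_lit 65535)))) (Nat.add (Nat.shiftLeft (nat_lit 1) (Nat.land (Nat.shiftRight (V (nat_lit 5)) (S (nat_lit 31))) (nat_lit 65535))) (Nat.shiftLeft (nat_lit 1) (Nat.land (Nat.shiftRight (V (nat_lit 5)) (S (nat_lit 35))) (nat_lit 65535)))))) (Nat.add (Nat.add (Nat.add (Nat.shiftLeft (nat_lit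 1) (Nat.land (Nat.shiftRight (V (nat_lit 5)) (S (nat_lit 48))) (nat_lit 65535))) (Nat.shiftLeft (nat_lit 1) (Nat.land (Nat.shiftRight (V (nat_lit 5)) (S (nat_lit 50))) (nat_lit 65535)))) (Nat.add (Nat.shiftLeft (nat_lit 1) (Nat.land (Nat.shiftRight (V (nat_lit 6)) (S (nat_lit 17))) (nat_lit 65535))) (Nat.shiftLeft (nat_lit 1) (Nat.land (Nat.shiftRight (V (nat_lit 6)) (S (nat_lit 23))) (nat_lit 65535))))) (Nat.add (Nat.add (Nat.shiftLeft (nat_lit 1) (Nat.land (Nat.shiftRight (V (nat_lit 6)) (S (nat_lit 25))) (nat_lit 65535))) (Nat.shiftLeft (nat_lit 1) (Nat.land (Nat.shiftRight (V (nat_lit 6)) (S (nat_lit 26))) (nat_lit 65535)))) (Nat.add (Nat.shiftLeft (nat_lit 1) (Nat.land (Nat.shiftRight (V (nat_lit 6)) (S (nat_lit 42))) (nat_lit 65535))) (Nat.shiftLeft (nat_lit 1) (Nat.land (Nat.shiftRight (V (nat_lit 6)) (S (nat_lit 45))) (nat_lit 65535)))))))) (Nat.add (Nat.add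 (Nat.add (Nat.add (Nat.shiftLeft (nat_lit 1) (Nat.land (Nat.shiftRight (V (nat_lit 7)) (S (nat_lit 17))) (nat_lit 65535))) (Nat.add (Nat.shiftLeft (nat_lit 1) (Nat.land (Nat.shiftRight (V (nat_lit 7)) (S (nat_lit 23))) (nat_lit 65535))) (Nat.shiftLeft (nat_lit 1) (Nat.land (Nat.shiftRight (V (nat_lit 7)) (S (nat_lit 44))) (nat_lit 65535))))) (Nat.add (Nat.add (Nat.shiftLeft (nat_lit 1) (Nat.land (Nat.shiftRight (V (nat_lit 7)) (S (nat_lit 46))) (nat_lit 65535))) (Nat.shiftLeft (nat_lit 1) (Nat.land (Nat.shiftRight (V (nat_lit 7)) (S (nat_lit 48))) (nat_lit 65535)))) (Nat.add (Nat.shiftLeft (nat_lit 1) (Nat.land (Nat.shiftRight (V (nat_lit 7)) (S (nat_lit 50))) (nat_lit 65535))) (Nat.shiftLeft (nat_lit 1) (Nat.land (Nat.shiftRight (V (nat_lit 9)) (S (nat_lit 16))) (nat_lit 65535)))))) (Nat.add (Nat.add (Nat.add (Nat.shiftLeft (nat_lit 1) (Nat.land (Nat.shiftRight (V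 (nat_lit 9)) (S (nat_lit 20))) (nat_lit 65535))) (Nat.shiftLeft (nat_lit 1) (Nat.land (Nat.shiftRight (V (nat_lit 9)) (S (nat_lit 25))) (nat_lit 65535)))) (Nat.add (Nat.shiftLeft (nat_lit 1) (Nat.land (Nat.shiftRight (V (nat_lit 9)) (S (nat_lit 26))) (nat_lit 65535))) (Nat.shiftLeft (nat_lit 1) (Nat.land (Nat.shiftRight (V (nat_lit 9)) (S (nat_lit 54))) (nat_lit 65535))))) (Nat.add (Nat.add (Nat.shiftLeft (nat_lit 1) (Nat.land (Nat.shiftRight (V (nat_lit 9)) (S (nat_lit 57))) (nat_lit 65535))) (Nat.shiftLeft (nat_lit 1) (Nat.land (Nat.shiftRight (V (nat_lit 10)) (S (nat_lit 16))) (nat_lit 65535)))) (Nat.add (Nat.shiftLeft (nat_lit 1) (Nat.land (Nat.shiftRight (V (nat_lit 10)) (S (nat_lit 20))) (nat_lit 65535))) (Nat.shiftLeft (nat_lit 1) (Nat.land (Nat.shiftRight (V (nat_lit 10)) (S (nat_lit 36))) (nat_lit 65535))))))) (Nat.add (Nat.add (Nat.add (Nat.shiftLeft (nat_lit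 1) (Nat.land (Nat.shiftRight (V (nat_lit 10)) (S (nat_lit 38))) (nat_lit 65535))) (Nat.add (Nat.shiftLeft (nat_lit 1) (Nat.land (Nat.shiftRight (V (nat_lit 10)) (S (nat_lit 56))) (nat_lit 65535))) (Nat.shiftLeft (nat_lit 1) (Nat.land (Nat.shiftRight (V (nat_lit 10)) (S (nat_lit 58))) (nat_lit 65535))))) (Nat.add (Nat.add (Nat.shiftLeft (nat_lit 1) (Nat.land (Nat.shiftRight (V (nat_lit 15)) (S (nat_lit 32))) (nat_lit 65535))) (Nat.shiftLeft (nat_lit 1) (Nat.land (Nat.shiftRight (V (nat_lit 15)) (S (nat_lit 35))) (nat_lit 65535)))) (Nat.add (Nat.shiftLeft (nat_lit 1) (Nat.land (Nat.shiftRight (V (nat_lit 15)) (S (nat_lit 38))) (nat_lit 65535))) (Nat.shiftLeft (nat_lit 1) (Nat.land (Nat.shiftRight (V (nat_lit 15)) (S (nat_lit 46))) (nat_lit 65535)))))) (Nat.add (Nat.add (Nat.add (Nat.shiftLeft (nat_lit 1) (Nat.land (Nat.shiftRight (V (nat_lit 15)) (S (nat_lit 50))) (nat_lit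 65535))) (Nat.shiftLeft (nat_lit 1) (Nat.land (Nat.shiftRight (V (nat_lit 15)) (S (nat_lit 58))) (nat_lit 65535)))) (Nat.add (Nat.shiftLeft (nat_lit 1) (Nat.land (Nat.shiftRight (V (nat_lit 16)) (S (nat_lit 9))) (nat_lit 65535))) (Nat.shiftLeft (nat_lit 1) (Nat.land (Nat.shiftRight (V (nat_lit 16)) (S (nat_lit 10))) (nat_lit 65535))))) (Nat.add (Nat.add (Nat.shiftLeft (nat_lit 1) (Nat.land (Nat.shiftRight (V (nat_lit 16)) (S (nat_lit 37))) (nat_lit 65535))) (Nat.shiftLeft (nat_lit 1) (Nat.land (Nat.shiftRight (V (nat_lit 16)) (S (nat_lit 39))) (nat_lit 65535)))) (Nat.add (Nat.shiftLeft (nat_lit 1) (Nat.land (Nat.shiftRight (V (nat_lit 16)) (S (nat_lit 51))) (nat_lit 65535))) (Nat.shiftLeft (nat_lit 1) (Nat.land (Nat.shiftRight (V (nat_lit 17)) (S (nat_lit 6))) (nat_lit 65535))))))))) (Nat.add (Nat.add (Nat.add (Nat.add (Nat.add (Nat.shiftLeft (nat_lit 1) (Nat.land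 (Nat.shiftRight (V (nat_lit 17)) (S (nat_lit 7))) (nat_lit 65535))) (Nat.add (Nat.shiftLeft (nat_lit 1) (Nat.land (Nat.shiftRight (V (nat_lit 17)) (S (nat_lit 39))) (nat_lit 65535))) (Nat.shiftLeft (nat_lit 1) (Nat.land (Nat.shiftRight (V (nat_lit 17)) (S (nat_lit 49))) (nat_lit 65535))))) (Nat.add (Nat.add (Nat.shiftLeft (nat_lit 1) (Nat.land (Nat.shiftRight (V (nat_lit 17)) (S (nat_lit 51))) (nat_lit 65535))) (Nat.shiftLeft (nat_lit 1) (Nat.land (Nat.shiftRight (V (nat_lit 18)) (S (nat_lit 4))) (nat_lit 65535)))) (Nat.add (Nat.shiftLeft (nat_lit 1) (Nat.land (Nat.shiftRight (V (nat_lit 18)) (S (nat_lit 5))) (nat_lit 65535))) (Nat.shiftLeft (nat_lit 1) (Nat.land (Nat.shiftRight (V (nat_lit 18)) (S (nat_lit 28))) (nat_lit 65535)))))) (Nat.add (Nat.add (Nat.add (Nat.shiftLeft (nat_lit 1) (Nat.land (Nat.shiftRight (V (nat_lit 18)) (S (nat_lit 49))) (nat_lit 65535)))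 (Nat.shiftLeft (nat_lit 1) (Nat.land (Nat.shiftRight (V (nat_lit 18)) (S (nat_lit 52))) (nat_lit 65535)))) (Nat.add (Nat.shiftLeft (nat_lit 1) (Nat.land (Nat.shiftRight (V (nat_lit 19)) (S (nat_lit 25))) (nat_lit 65535))) (Nat.shiftLeft (nat_lit 1) (Nat.land (Nat.shiftRight (V (nat_lit 19)) (S (nat_lit 35))) (nat_lit 65535))))) (Nat.add (Nat.add (Nat.shiftLeft (nat_lit 1) (Nat.land (Nat.shiftRight (V (nat_lit 19)) (S (nat_lit 42))) (nat_lit 65535))) (Nat.shiftLeft (nat_lit 1) (Nat.land (Nat.shiftRight (V (nat_lit 19)) (S (nat_lit 46))) (nat_lit 65535)))) (Nat.add (Nat.shiftLeft (nat_lit 1) (Nat.land (Nat.shiftRight (V (nat_lit 19)) (S (nat_lit 48))) (nat_lit 65535))) (Nat.shiftLeft (nat_lit 1) (Nat.land (Nat.shiftRight (V (nat_lit 19)) (S (nat_lit 54))) (nat_lit 65535))))))) (Nat.add (Nat.add (Nat.add (Nat.shiftLeft (nat_lit 1) (Nat.land (Nat.shiftRight (V (nat_lit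 20)) (S (nat_lit 9))) (nat_lit 65535))) (Nat.add (Nat.shiftLeft (nat_lit 1) (Nat.land (Nat.shiftRight (V (nat_lit 20)) (S (nat_lit 10))) (nat_lit 65535))) (Nat.shiftLeft (nat_lit 1) (Nat.land (Nat.shiftRight (V (nat_lit 20)) (S (nat_lit 24))) (nat_lit 65535))))) (Nat.add (Nat.add (Nat.shiftLeft (nat_lit 1) (Nat.land (Nat.shiftRight (V (nat_lit 20)) (S (nat_lit 28))) (nat_lit 65535))) (Nat.shiftLeft (nat_lit 1) (Nat.land (Nat.shiftRight (V (nat_lit 20)) (S (nat_lit 52))) (nat_lit 65535)))) (Nat.add (Nat.shiftLeft (nat_lit 1) (Nat.land (Nat.shiftRight (V (nat_lit 21)) (S (nat_lit 4))) (nat_lit 65535))) (Nat.shiftLeft (nat_lit 1) (Nat.land (Nat.shiftRight (V (nat_lit 21)) (S (nat_lit 5))) (nat_lit 65535)))))) (Nat.add (Nat.add (Nat.add (Nat.shiftLeft (nat_lit 1) (Nat.land (Nat.shiftRight (V (nat_lit 21)) (S (nat_lit 29))) (nat_lit 65535))) (Nat.shiftLeft (nat_lit 1)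 (Nat.land (Nat.shiftRight (V (nat_lit 21)) (S (nat_lit 37))) (nat_lit 65535)))) (Nat.add (Nat.shiftLeft (nat_lit 1) (Nat.land (Nat.shiftRight (V (nat_lit 21)) (S (nat_lit 40))) (nat_lit 65535))) (Nat.shiftLeft (nat_lit 1) (Nat.land (Nat.shiftRight (V (nat_lit 22)) (S (nat_lit 26))) (nat_lit 65535))))) (Nat.add (Nat.add (Nat.shiftLeft (nat_lit 1) (Nat.land (Nat.shiftRight (V (nat_lit 22)) (S (nat_lit 32))) (nat_lit 65535))) (Nat.shiftLeft (nat_lit 1) (Nat.land (Nat.shiftRight (V (nat_lit 22)) (S (nat_lit 36))) (nat_lit 65535)))) (Nat.add (Nat.shiftLeft (nat_lit 1) (Nat.land (Nat.shiftRight (V (nat_lit 22)) (S (nat_lit 42))) (nat_lit 65535))) (Nat.shiftLeft (nat_lit 1) (Nat.land (Nat.shiftRight (V (nat_lit 22)) (S (nat_lit 54))) (nat_lit 65535)))))))) (Nat.add (Nat.add (Nat.add (Nat.add (Nat.shiftLeft (nat_lit 1) (Nat.land (Nat.shiftRight (V (nat_lit 22)) (S (nat_lit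 58))) (nat_lit 65535))) (Nat.add (Nat.shiftLeft (nat_lit 1) (Nat.land (Nat.shiftRight (V (nat_lit 23)) (S (nat_lit 6))) (nat_lit 65535))) (Nat.shiftLeft (nat_lit 1) (Nat.land (Nat.shiftRight (V (nat_lit 23)) (S (nat_lit 7))) (nat_lit 65535))))) (Nat.add (Nat.add (Nat.shiftLeft (nat_lit 1) (Nat.land (Nat.shiftRight (V (nat_lit 23)) (S (nat_lit 24))) (nat_lit 65535))) (Nat.shiftLeft (nat_lit 1) (Nat.land (Nat.shiftRight (V (nat_lit 23)) (S (nat_lit 29))) (nat_lit 65535)))) (Nat.add (Nat.shiftLeft (nat_lit 1) (Nat.land (Nat.shiftRight (V (nat_lit 23)) (S (nat_lit 40))) (nat_lit 65535))) (Nat.shiftLeft (nat_lit 1) (Nat.land (Nat.shiftRight (V (nat_lit 24)) (S (nat_lit 20))) (nat_lit 65535)))))) (Nat.add (Nat.add (Nat.add (Nat.shiftLeft (nat_lit 1) (Nat.land (Nat.shiftRight (V (nat_lit 24)) (S (nat_lit 23))) (nat_lit 65535))) (Nat.shiftLeft (nat_lit 1) (Nat.land (Nat.shiftRight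 (V (nat_lit 24)) (S (nat_lit 44))) (nat_lit 65535)))) (Nat.add (Nat.shiftLeft (nat_lit 1) (Nat.land (Nat.shiftRight (V (nat_lit 24)) (S (nat_lit 45))) (nat_lit 65535))) (Nat.shiftLeft (nat_lit 1) (Nat.land (Nat.shiftRight (V (nat_lit 24)) (S (nat_lit 56))) (nat_lit 65535))))) (Nat.add (Nat.add (Nat.shiftLeft (nat_lit 1) (Nat.land (Nat.shiftRight (V (nat_lit 24)) (S (nat_lit 57))) (nat_lit 65535))) (Nat.shiftLeft (nat_lit 1) (Nat.land (Nat.shiftRight (V (nat_lit 25)) (S (nat_lit 6))) (nat_lit 65535)))) (Nat.add (Nat.shiftLeft (nat_lit 1) (Nat.land (Nat.shiftRight (V (nat_lit 25)) (S (nat_lit 9))) (nat_lit 65535))) (Nat.shiftLeft (nat_lit 1) (Nat.land (Nat.shiftRight (V (nat_lit 25)) (S (nat_lit 19))) (nat_lit 65535))))))) (Nat.add (Nat.add (Nat.add (Nat.shiftLeft (nat_lit 1) (Nat.land (Nat.shiftRight (V (nat_lit 25)) (S (nat_lit 51))) (nat_lit 65535))) (Nat.add (Nat.shiftLeft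 (nat_lit 1) (Nat.land (Nat.shiftRight (V (nat_lit 25)) (S (nat_lit 52))) (nat_lit 65535))) (Nat.shiftLeft (nat_lit 1) (Nat.land (Nat.shiftRight (V (nat_lit 26)) (S (nat_lit 6))) (nat_lit 65535))))) (Nat.add (Nat.add (Nat.shiftLeft (nat_lit 1) (Nat.land (Nat.shiftRight (V (nat_lit 26)) (S (nat_lit 9))) (nat_lit 65535))) (Nat.shiftLeft (nat_lit 1) (Nat.land (Nat.shiftRight (V (nat_lit 26)) (S (nat_lit 22))) (nat_lit 65535)))) (Nat.add (Nat.shiftLeft (nat_lit 1) (Nat.land (Nat.shiftRight (V (nat_lit 26)) (S (nat_lit 39))) (nat_lit 65535))) (Nat.shiftLeft (nat_lit 1) (Nat.land (Nat.shiftRight (V (nat_lit 26)) (S (nat_lit 40))) (nat_lit 65535)))))) (Nat.add (Nat.add (Nat.add (Nat.shiftLeft (nat_lit 1) (Nat.land (Nat.shiftRight (V (nat_lit 28)) (S (nat_lit 18))) (nat_lit 65535))) (Nat.shiftLeft (nat_lit 1) (Nat.land (Nat.shiftRight (V (nat_lit 28)) (S (nat_lit 20))) (nat_lit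 65535)))) (Nat.add (Nat.shiftLeft (nat_lit 1) (Nat.land (Nat.shiftRight (V (nat_lit 28)) (S (nat_lit 36))) (nat_lit 65535))) (Nat.shiftLeft (nat_lit 1) (Nat.land (Nat.shiftRight (V (nat_lit 28)) (S (nat_lit 44))) (nat_lit 65535))))) (Nat.add (Nat.add (Nat.shiftLeft (nat_lit 1) (Nat.land (Nat.shiftRight (V (nat_lit 28)) (S (nat_lit 48))) (nat_lit 65535))) (Nat.shiftLeft (nat_lit 1) (Nat.land (Nat.shiftRight (V (nat_lit 28)) (S (nat_lit 54))) (nat_lit 65535)))) (Nat.add (Nat.shiftLeft (nat_lit 1) (Nat.land (Nat.shiftRight (V (nat_lit 29)) (S (nat_lit 21))) (nat_lit 65535))) (Nat.shiftLeft (nat_lit 1) (Nat.land (Nat.shiftRight (V (nat_lit 29)) (S (nat_lit 23))) (nat_lit 65535)))))))))) (Nat.add (Nat.add (Nat.add (Nat.add (Nat.add (Nat.add (Nat.shiftLeft (nat_lit 1) (Nat.land (Nat.shiftRight (V (nat_lit 29)) (S (nat_lit 36))) (nat_lit 65535))) (Nat.add (Nat.shiftLeft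 (nat_lit 1) (Nat.land (Nat.shiftRight (V (nat_lit 29)) (S (nat_lit 42))) (nat_lit 65535))) (Nat.shiftLeft (nat_lit 1) (Nat.land (Nat.shiftRight (V (nat_lit 29)) (S (nat_lit 48))) (nat_lit 65535))))) (Nat.add (Nat.add (Nat.shiftLeft (nat_lit 1) (Nat.land (Nat.shiftRight (V (nat_lit 29)) (S (nat_lit 56))) (nat_lit 65535))) (Nat.shiftLeft (nat_lit 1) (Nat.land (Nat.shiftRight (V (nat_lit 31)) (S (nat_lit 2))) (nat_lit 65535)))) (Nat.add (Nat.shiftLeft (nat_lit 1) (Nat.land (Nat.shiftRight (V (nat_lit 31)) (S (nat_lit 5))) (nat_lit 65535))) (Nat.shiftLeft (nat_lit 1) (Nat.land (Nat.shiftRight (V (nat_lit 31)) (S (nat_lit 37))) (nat_lit 65535)))))) (Nat.add (Nat.add (Nat.add (Nat.shiftLeft (nat_lit 1) (Nat.land (Nat.shiftRight (V (nat_lit 31)) (S (nat_lit 39))) (nat_lit 65535))) (Nat.shiftLeft (nat_lit 1) (Nat.land (Nat.shiftRight (V (nat_lit 31)) (S (nat_lit 49))) (nat_lit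 65535)))) (Nat.add (Nat.shiftLeft (nat_lit 1) (Nat.land (Nat.shiftRight (V (nat_lit 32)) (S (nat_lit 1))) (nat_lit 65535))) (Nat.shiftLeft (nat_lit 1) (Nat.land (Nat.shiftRight (V (nat_lit 32)) (S (nat_lit 4))) (nat_lit 65535))))) (Nat.add (Nat.add (Nat.shiftLeft (nat_lit 1) (Nat.land (Nat.shiftRight (V (nat_lit 32)) (S (nat_lit 15))) (nat_lit 65535))) (Nat.shiftLeft (nat_lit 1) (Nat.land (Nat.shiftRight (V (nat_lit 32)) (S (nat_lit 22))) (nat_lit 65535)))) (Nat.add (Nat.shiftLeft (nat_lit 1) (Nat.land (Nat.shiftRight (V (nat_lit 32)) (S (nat_lit 40))) (nat_lit 65535))) (Nat.shiftLeft (nat_lit 1) (Nat.land (Nat.shiftRight (V (nat_lit 34)) (S (nat_lit 1))) (nat_lit 65535))))))) (Nat.add (Nat.add (Nat.add (Nat.shiftLeft (nat_lit 1) (Nat.land (Nat.shiftRight (V (nat_lit 34)) (S (nat_lit 4))) (nat_lit 65535))) (Nat.add (Nat.shiftLeft (nat_lit 1) (Nat.land (Nat.shiftRight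 (V (nat_lit 34)) (S (nat_lit 37))) (nat_lit 65535))) (Nat.shiftLeft (nat_lit 1) (Nat.land (Nat.shiftRight (V (nat_lit 34)) (S (nat_lit 49))) (nat_lit 65535))))) (Nat.add (Nat.add (Nat.shiftLeft (nat_lit 1) (Nat.land (Nat.shiftRight (V (nat_lit 34)) (S (nat_lit 51))) (nat_lit 65535))) (Nat.shiftLeft (nat_lit 1) (Nat.land (Nat.shiftRight (V (nat_lit 35)) (S (nat_lit 2))) (nat_lit 65535)))) (Nat.add (Nat.shiftLeft (nat_lit 1) (Nat.land (Nat.shiftRight (V (nat_lit 35)) (S (nat_lit 5))) (nat_lit 65535))) (Nat.shiftLeft (nat_lit 1) (Nat.land (Nat.shiftRight (V (nat_lit 35)) (S (nat_lit 15))) (nat_lit 65535)))))) (Nat.add (Nat.add (Nat.add (Nat.shiftLeft (nat_lit 1) (Nat.land (Nat.shiftRight (V (nat_lit 35)) (S (nat_lit 19))) (nat_lit 65535))) (Nat.shiftLeft (nat_lit 1) (Nat.land (Nat.shiftRight (V (nat_lit 35)) (S (nat_lit 52))) (nat_lit 65535)))) (Nat.add (Nat.shiftLeft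 (nat_lit 1) (Nat.land (Nat.shiftRight (V (nat_lit 36)) (S (nat_lit 4))) (nat_lit 65535))) (Nat.shiftLeft (nat_lit 1) (Nat.land (Nat.shiftRight (V (nat_lit 36)) (S (nat_lit 10))) (nat_lit 65535))))) (Nat.add (Nat.add (Nat.shiftLeft (nat_lit 1) (Nat.land (Nat.shiftRight (V (nat_lit 36)) (S (nat_lit 22))) (nat_lit 65535))) (Nat.shiftLeft (nat_lit 1) (Nat.land (Nat.shiftRight (V (nat_lit 36)) (S (nat_lit 28))) (nat_lit 65535)))) (Nat.add (Nat.shiftLeft (nat_lit 1) (Nat.land (Nat.shiftRight (V (nat_lit 36)) (S (nat_lit 29))) (nat_lit 65535))) (Nat.shiftLeft (nat_lit 1) (Nat.land (Nat.shiftRight (V (nat_lit 37)) (S (nat_lit 16))) (nat_lit 65535)))))))) (Nat.add (Nat.add (Nat.add (Nat.add (Nat.shiftLeft (nat_lit 1) (Nat.land (Nat.shiftRight (V (nat_lit 37)) (S (nat_lit 21))) (nat_lit 65535))) (Nat.add (Nat.shiftLeft (nat_lit 1) (Nat.land (Nat.shiftRight (V (nat_lit 37))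 (S (nat_lit 31))) (nat_lit 65535))) (Nat.shiftLeft (nat_lit 1) (Nat.land (Nat.shiftRight (V (nat_lit 37)) (S (nat_lit 34))) (nat_lit 65535))))) (Nat.add (Nat.add (Nat.shiftLeft (nat_lit 1) (Nat.land (Nat.shiftRight (V (nat_lit 37)) (S (nat_lit 56))) (nat_lit 65535))) (Nat.shiftLeft (nat_lit 1) (Nat.land (Nat.shiftRight (V (nat_lit 37)) (S (nat_lit 57))) (nat_lit 65535)))) (Nat.add (Nat.shiftLeft (nat_lit 1) (Nat.land (Nat.shiftRight (V (nat_lit 38)) (S (nat_lit 4))) (nat_lit 65535))) (Nat.shiftLeft (nat_lit 1) (Nat.land (Nat.shiftRight (V (nat_lit 38)) (S (nat_lit 10))) (nat_lit 65535)))))) (Nat.add (Nat.add (Nat.add (Nat.shiftLeft (nat_lit 1) (Nat.land (Nat.shiftRight (V (nat_lit 38)) (S (nat_lit 15))) (nat_lit 65535))) (Nat.shiftLeft (nat_lit 1) (Nat.land (Nat.shiftRight (V (nat_lit 38)) (S (nat_lit 51))) (nat_lit 65535)))) (Nat.add (Nat.shiftLeft (nat_lit 1) (Nat.land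 (Nat.shiftRight (V (nat_lit 38)) (S (nat_lit 52))) (nat_lit 65535))) (Nat.shiftLeft (nat_lit 1) (Nat.land (Nat.shiftRight (V (nat_lit 39)) (S (nat_lit 16))) (nat_lit 65535))))) (Nat.add (Nat.add (Nat.shiftLeft (nat_lit 1) (Nat.land (Nat.shiftRight (V (nat_lit 39)) (S (nat_lit 17))) (nat_lit 65535))) (Nat.shiftLeft (nat_lit 1) (Nat.land (Nat.shiftRight (V (nat_lit 39)) (S (nat_lit 26))) (nat_lit 65535)))) (Nat.add (Nat.shiftLeft (nat_lit 1) (Nat.land (Nat.shiftRight (V (nat_lit 39)) (S (nat_lit 31))) (nat_lit 65535))) (Nat.shiftLeft (nat_lit 1) (Nat.land (Nat.shiftRight (V (nat_lit 39)) (S (nat_lit 50))) (nat_lit 65535))))))) (Nat.add (Nat.add (Nat.add (Nat.shiftLeft (nat_lit 1) (Nat.land (Nat.shiftRight (V (nat_lit 39)) (S (nat_lit 58))) (nat_lit 65535))) (Nat.add (Nat.shiftLeft (nat_lit 1) (Nat.land (Nat.shiftRight (V (nat_lit 40)) (S (nat_lit 21))) (nat_lit 65535)))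 (Nat.shiftLeft (nat_lit 1) (Nat.land (Nat.shiftRight (V (nat_lit 40)) (S (nat_lit 23))) (nat_lit 65535))))) (Nat.add (Nat.add (Nat.shiftLeft (nat_lit 1) (Nat.land (Nat.shiftRight (V (nat_lit 40)) (S (nat_lit 26))) (nat_lit 65535))) (Nat.shiftLeft (nat_lit 1) (Nat.land (Nat.shiftRight (V (nat_lit 40)) (S (nat_lit 32))) (nat_lit 65535)))) (Nat.add (Nat.shiftLeft (nat_lit 1) (Nat.land (Nat.shiftRight (V (nat_lit 40)) (S (nat_lit 50))) (nat_lit 65535))) (Nat.shiftLeft (nat_lit 1) (Nat.land (Nat.shiftRight (V (nat_lit 40)) (S (nat_lit 57))) (nat_lit 65535)))))) (Nat.add (Nat.add (Nat.add (Nat.shiftLeft (nat_lit 1) (Nat.land (Nat.shiftRight (V (nat_lit 42)) (S (nat_lit 2))) (nat_lit 65535))) (Nat.shiftLeft (nat_lit 1) (Nat.land (Nat.shiftRight (V (nat_lit 42)) (S (nat_lit 6))) (nat_lit 65535)))) (Nat.add (Nat.shiftLeft (nat_lit 1) (Nat.land (Nat.shiftRight (V (nat_lit 42))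 (S (nat_lit 19))) (nat_lit 65535))) (Nat.shiftLeft (nat_lit 1) (Nat.land (Nat.shiftRight (V (nat_lit 42)) (S (nat_lit 22))) (nat_lit 65535))))) (Nat.add (Nat.add (Nat.shiftLeft (nat_lit 1) (Nat.land (Nat.shiftRight (V (nat_lit 42)) (S (nat_lit 29))) (nat_lit 65535))) (Nat.shiftLeft (nat_lit 1) (Nat.land (Nat.shiftRight (V (nat_lit 44)) (S (nat_lit 1))) (nat_lit 65535)))) (Nat.add (Nat.shiftLeft (nat_lit 1) (Nat.land (Nat.shiftRight (V (nat_lit 44)) (S (nat_lit 7))) (nat_lit 65535))) (Nat.shiftLeft (nat_lit 1) (Nat.land (Nat.shiftRight (V (nat_lit 44)) (S (nat_lit 24))) (nat_lit 65535))))))))) (Nat.add (Nat.add (Nat.add (Nat.add (Nat.add (Nat.shiftLeft (nat_lit 1) (Nat.land (Nat.shiftRight (V (nat_lit 44)) (S (nat_lit 28))) (nat_lit 65535))) (Nat.add (Nat.shiftLeft (nat_lit 1) (Nat.land (Nat.shiftRight (V (nat_lit 44)) (S (nat_lit 49))) (nat_lit 65535))) (Nat.shiftLeft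 (nat_lit 1) (Nat.land (Nat.shiftRight (V (nat_lit 45)) (S (nat_lit 2))) (nat_lit 65535))))) (Nat.add (Nat.add (Nat.shiftLeft (nat_lit 1) (Nat.land (Nat.shiftRight (V (nat_lit 45)) (S (nat_lit 6))) (nat_lit 65535))) (Nat.shiftLeft (nat_lit 1) (Nat.land (Nat.shiftRight (V (nat_lit 45)) (S (nat_lit 24))) (nat_lit 65535)))) (Nat.add (Nat.shiftLeft (nat_lit 1) (Nat.land (Nat.shiftRight (V (nat_lit 45)) (S (nat_lit 49))) (nat_lit 65535))) (Nat.shiftLeft (nat_lit 1) (Nat.land (Nat.shiftRight (V (nat_lit 45)) (S (nat_lit 52))) (nat_lit 65535)))))) (Nat.add (Nat.add (Nat.add (Nat.shiftLeft (nat_lit 1) (Nat.land (Nat.shiftRight (V (nat_lit 46)) (S (nat_lit 1))) (nat_lit 65535))) (Nat.shiftLeft (nat_lit 1) (Nat.land (Nat.shiftRight (V (nat_lit 46)) (S (nat_lit 7))) (nat_lit 65535)))) (Nat.add (Nat.shiftLeft (nat_lit 1) (Nat.land (Nat.shiftRight (V (nat_lit 46)) (S (nat_lit 15)))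 (nat_lit 65535))) (Nat.shiftLeft (nat_lit 1) (Nat.land (Nat.shiftRight (V (nat_lit 46)) (S (nat_lit 19))) (nat_lit 65535))))) (Nat.add (Nat.add (Nat.shiftLeft (nat_lit 1) (Nat.land (Nat.shiftRight (V (nat_lit 46)) (S (nat_lit 51))) (nat_lit 65535))) (Nat.shiftLeft (nat_lit 1) (Nat.land (Nat.shiftRight (V (nat_lit 48)) (S (nat_lit 5))) (nat_lit 65535)))) (Nat.add (Nat.shiftLeft (nat_lit 1) (Nat.land (Nat.shiftRight (V (nat_lit 48)) (S (nat_lit 7))) (nat_lit 65535))) (Nat.shiftLeft (nat_lit 1) (Nat.land (Nat.shiftRight (V (nat_lit 48)) (S (nat_lit 19))) (nat_lit 65535))))))) (Nat.add (Nat.add (Nat.add (Nat.shiftLeft (nat_lit 1) (Nat.land (Nat.shiftRight (V (nat_lit 48)) (S (nat_lit 28))) (nat_lit 65535))) (Nat.add (Nat.shiftLeft (nat_lit 1) (Nat.land (Nat.shiftRight (V (nat_lit 48)) (S (nat_lit 29))) (nat_lit 65535))) (Nat.shiftLeft (nat_lit 1) (Nat.land (Nat.shiftRight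 (V (nat_lit 49)) (S (nat_lit 17))) (nat_lit 65535))))) (Nat.add (Nat.add (Nat.shiftLeft (nat_lit 1) (Nat.land (Nat.shiftRight (V (nat_lit 49)) (S (nat_lit 18))) (nat_lit 65535))) (Nat.shiftLeft (nat_lit 1) (Nat.land (Nat.shiftRight (V (nat_lit 49)) (S (nat_lit 31))) (nat_lit 65535)))) (Nat.add (Nat.shiftLeft (nat_lit 1) (Nat.land (Nat.shiftRight (V (nat_lit 49)) (S (nat_lit 34))) (nat_lit 65535))) (Nat.shiftLeft (nat_lit 1) (Nat.land (Nat.shiftRight (V (nat_lit 49)) (S (nat_lit 44))) (nat_lit 65535)))))) (Nat.add (Nat.add (Nat.add (Nat.shiftLeft (nat_lit 1) (Nat.land (Nat.shiftRight (V (nat_lit 49)) (S (nat_lit 45))) (nat_lit 65535))) (Nat.shiftLeft (nat_lit 1) (Nat.land (Nat.shiftRight (V (nat_lit 50)) (S (nat_lit 5))) (nat_lit 65535)))) (Nat.add (Nat.shiftLeft (nat_lit 1) (Nat.land (Nat.shiftRight (V (nat_lit 50)) (S (nat_lit 7))) (nat_lit 65535))) (Nat.shiftLeft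 (nat_lit 1) (Nat.land (Nat.shiftRight (V (nat_lit 50)) (S (nat_lit 15))) (nat_lit 65535))))) (Nat.add (Nat.add (Nat.shiftLeft (nat_lit 1) (Nat.land (Nat.shiftRight (V (nat_lit 50)) (S (nat_lit 39))) (nat_lit 65535))) (Nat.shiftLeft (nat_lit 1) (Nat.land (Nat.shiftRight (V (nat_lit 50)) (S (nat_lit 40))) (nat_lit 65535)))) (Nat.add (Nat.shiftLeft (nat_lit 1) (Nat.land (Nat.shiftRight (V (nat_lit 51)) (S (nat_lit 16))) (nat_lit 65535))) (Nat.shiftLeft (nat_lit 1) (Nat.land (Nat.shiftRight (V (nat_lit 51)) (S (nat_lit 17))) (nat_lit 65535)))))))) (Nat.add (Nat.add (Nat.add (Nat.add (Nat.shiftLeft (nat_lit 1) (Nat.land (Nat.shiftRight (V (nat_lit 51)) (S (nat_lit 25))) (nat_lit 65535))) (Nat.add (Nat.shiftLeft (nat_lit 1) (Nat.land (Nat.shiftRight (V (nat_lit 51)) (S (nat_lit 34))) (nat_lit 65535))) (Nat.shiftLeft (nat_lit 1) (Nat.land (Nat.shiftRight (V (nat_lit 51))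 (S (nat_lit 38))) (nat_lit 65535))))) (Nat.add (Nat.add (Nat.shiftLeft (nat_lit 1) (Nat.land (Nat.shiftRight (V (nat_lit 51)) (S (nat_lit 46))) (nat_lit 65535))) (Nat.shiftLeft (nat_lit 1) (Nat.land (Nat.shiftRight (V (nat_lit 52)) (S (nat_lit 18))) (nat_lit 65535)))) (Nat.add (Nat.shiftLeft (nat_lit 1) (Nat.land (Nat.shiftRight (V (nat_lit 52)) (S (nat_lit 20))) (nat_lit 65535))) (Nat.shiftLeft (nat_lit 1) (Nat.land (Nat.shiftRight (V (nat_lit 52)) (S (nat_lit 25))) (nat_lit 65535)))))) (Nat.add (Nat.add (Nat.add (Nat.shiftLeft (nat_lit 1) (Nat.land (Nat.shiftRight (V (nat_lit 52)) (S (nat_lit 35))) (nat_lit 65535))) (Nat.shiftLeft (nat_lit 1) (Nat.land (Nat.shiftRight (V (nat_lit 52)) (S (nat_lit 38))) (nat_lit 65535)))) (Nat.add (Nat.shiftLeft (nat_lit 1) (Nat.land (Nat.shiftRight (V (nat_lit 52)) (S (nat_lit 45))) (nat_lit 65535))) (Nat.shiftLeft (nat_lit 1) (Nat.land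 (Nat.shiftRight (V (nat_lit 54)) (S (nat_lit 1))) (nat_lit 65535))))) (Nat.add (Nat.add (Nat.shiftLeft (nat_lit 1) (Nat.land (Nat.shiftRight (V (nat_lit 54)) (S (nat_lit 9))) (nat_lit 65535))) (Nat.shiftLeft (nat_lit 1) (Nat.land (Nat.shiftRight (V (nat_lit 54)) (S (nat_lit 19))) (nat_lit 65535)))) (Nat.add (Nat.shiftLeft (nat_lit 1) (Nat.land (Nat.shiftRight (V (nat_lit 54)) (S (nat_lit 22))) (nat_lit 65535))) (Nat.shiftLeft (nat_lit 1) (Nat.land (Nat.shiftRight (V (nat_lit 54)) (S (nat_lit 28))) (nat_lit 65535))))))) (Nat.add (Nat.add (Nat.add (Nat.shiftLeft (nat_lit 1) (Nat.land (Nat.shiftRight (V (nat_lit 56)) (S (nat_lit 2))) (nat_lit 65535))) (Nat.add (Nat.shiftLeft (nat_lit 1) (Nat.land (Nat.shiftRight (V (nat_lit 56)) (S (nat_lit 10))) (nat_lit 65535))) (Nat.shiftLeft (nat_lit 1) (Nat.land (Nat.shiftRight (V (nat_lit 56)) (S (nat_lit 24))) (nat_lit 65535)))))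 (Nat.add (Nat.add (Nat.shiftLeft (nat_lit 1) (Nat.land (Nat.shiftRight (V (nat_lit 56)) (S (nat_lit 29))) (nat_lit 65535))) (Nat.shiftLeft (nat_lit 1) (Nat.land (Nat.shiftRight (V (nat_lit 56)) (S (nat_lit 37))) (nat_lit 65535)))) (Nat.add (Nat.shiftLeft (nat_lit 1) (Nat.land (Nat.shiftRight (V (nat_lit 57)) (S (nat_lit 1))) (nat_lit 65535))) (Nat.shiftLeft (nat_lit 1) (Nat.land (Nat.shiftRight (V (nat_lit 57)) (S (nat_lit 9))) (nat_lit 65535)))))) (Nat.add (Nat.add (Nat.add (Nat.shiftLeft (nat_lit 1) (Nat.land (Nat.shiftRight (V (nat_lit 57)) (S (nat_lit 24))) (nat_lit 65535))) (Nat.shiftLeft (nat_lit 1) (Nat.land (Nat.shiftRight (V (nat_lit 57)) (S (nat_lit 37))) (nat_lit 65535)))) (Nat.add (Nat.shiftLeft (nat_lit 1) (Nat.land (Nat.shiftRight (V (nat_lit 57)) (S (nat_lit 40))) (nat_lit 65535))) (Nat.shiftLeft (nat_lit 1) (Nat.land (Nat.shiftRight (V (nat_lit 58))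 (S (nat_lit 2))) (nat_lit 65535))))) (Nat.add (Nat.add (Nat.shiftLeft (nat_lit 1) (Nat.land (Nat.shiftRight (V (nat_lit 58)) (S (nat_lit 10))) (nat_lit 65535))) (Nat.shiftLeft (nat_lit 1) (Nat.land (Nat.shiftRight (V (nat_lit 58)) (S (nat_lit 15))) (nat_lit 65535)))) (Nat.add (Nat.shiftLeft (nat_lit 1) (Nat.land (Nat.shiftRight (V (nat_lit 58)) (S (nat_lit 22))) (nat_lit 65535))) (Nat.shiftLeft (nat_lit 1) (Nat.land (Nat.shiftRight (V (nat_lit 58)) (S (nat_lit 39))) (nat_lit 65535))))))))))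
def E16_0 (V S : ℕ → ℕ) : ℕ := Nat.add (Nat.add (Nat.add (Nat.shiftLeft (nat_lit 1) (Nat.land (Nat.shiftRight (V (nat_lit 3)) (S (nat_lit 3))) (nat_lit 65535))) (Nat.add (Nat.shiftLeft (nat_lit 1) (Nat.land (Nat.shiftRight (V (nat_lit 8)) (S (nat_lit 8))) (nat_lit 65535))) (Nat.shiftLeft (nat_lit 1) (Nat.land (Nat.shiftRight (V (nat_lit 11)) (S (nat_lit 11))) (nat_lit 65535))))) (Nat.add (Nat.add (Nat.shiftLeft (nat_lit 1) (Nat.land (Nat.shiftRight (V (nat_lit 12)) (S (nat_lit 12))) (nat_lit 65535))) (Nat.shiftLeft (nat_lit 1) (Nat.land (Nat.shiftRight (V (nat_lit 13)) (S (nat_lit 13))) (nat_lit 65535)))) (Nat.add (Nat.shiftLeft (nat_lit 1) (Nat.land (Nat.shiftRight (V (nat_lit 14)) (S (nat_lit 14))) (nat_lit 65535))) (Nat.shiftLeft (nat_lit 1) (Nat.land (Nat.shiftRight (V (nat_lit 27)) (S (nat_lit 27))) (nat_lit 65535)))))) (Nat.add (Nat.add (Nat.add (Nat.shiftLeft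 (nat_lit 1) (Nat.land (Nat.shiftRight (V (nat_lit 30)) (S (nat_lit 30))) (nat_lit 65535))) (Nat.shiftLeft (nat_lit 1) (Nat.land (Nat.shiftRight (V (nat_lit 33)) (S (nat_lit 33))) (nat_lit 65535)))) (Nat.add (Nat.shiftLeft (nat_lit 1) (Nat.land (Nat.shiftRight (V (nat_lit 41)) (S (nat_lit 41))) (nat_lit 65535))) (Nat.shiftLeft (nat_lit 1) (Nat.land (Nat.shiftRight (V (nat_lit 43)) (S (nat_lit 43))) (nat_lit 65535))))) (Nat.add (Nat.add (Nat.shiftLeft (nat_lit 1) (Nat.land (Nat.shiftRight (V (nat_lit 47)) (S (nat_lit 47))) (nat_lit 65535))) (Nat.shiftLeft (nat_lit 1) (Nat.land (Nat.shiftRight (V (nat_lit 53)) (S (nat_lit 53))) (nat_lit 65535)))) (Nat.add (Nat.shiftLeft (nat_lit 1) (Nat.land (Nat.shiftRight (V (nat_lit 55)) (S (nat_lit 55))) (nat_lit 65535))) (Nat.shiftLeft (nat_lit 1) (Nat.land (Nat.shiftRight (V (nat_lit 59)) (S (nat_lit 59))) (nat_lit 65535))))))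
def E17_0 (V S : ℕ → ℕ) : ℕ := Nat.add (Nat.add (Nat.add (Nat.add (Nat.shiftLeft (nat_lit 1) (Nat.land (Nat.shiftRight (V (nat_lit 3)) (S (nat_lit 8))) (nat_lit 65535))) (Nat.add (Nat.shiftLeft (nat_lit 1) (Nat.land (Nat.shiftRight (V (nat_lit 3)) (S (nat_lit 11))) (nat_lit 65535))) (Nat.shiftLeft (nat_lit 1) (Nat.land (Nat.shiftRight (V (nat_lit 8)) (S (nat_lit 3))) (nat_lit 65535))))) (Nat.add (Nat.add (Nat.shiftLeft (nat_lit 1) (Nat.land (Nat.shiftRight (V (nat_lit 8)) (S (nat_lit 11))) (nat_lit 65535))) (Nat.shiftLeft (nat_lit 1) (Nat.land (Nat.shiftRight (V (nat_lit 11)) (S (nat_lit 3))) (nat_lit 65535)))) (Nat.add (Nat.shiftLeft (nat_lit 1) (Nat.land (Nat.shiftRight (V (nat_lit 11)) (S (nat_lit 8))) (nat_lit 65535))) (Nat.shiftLeft (nat_lit 1) (Nat.land (Nat.shiftRight (V (nat_lit 12)) (S (nat_lit 47))) (nat_lit 65535)))))) (Nat.add (Nat.add (Nat.add (Nat.shiftLeft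 (nat_lit 1) (Nat.land (Nat.shiftRight (V (nat_lit 12)) (S (nat_lit 59))) (nat_lit 65535))) (Nat.shiftLeft (nat_lit 1) (Nat.land (Nat.shiftRight (V (nat_lit 13)) (S (nat_lit 30))) (nat_lit 65535)))) (Nat.add (Nat.shiftLeft (nat_lit 1) (Nat.land (Nat.shiftRight (V (nat_lit 13)) (S (nat_lit 43))) (nat_lit 65535))) (Nat.shiftLeft (nat_lit 1) (Nat.land (Nat.shiftRight (V (nat_lit 14)) (S (nat_lit 33))) (nat_lit 65535))))) (Nat.add (Nat.add (Nat.shiftLeft (nat_lit 1) (Nat.land (Nat.shiftRight (V (nat_lit 14)) (S (nat_lit 55))) (nat_lit 65535))) (Nat.shiftLeft (nat_lit 1) (Nat.land (Nat.shiftRight (V (nat_lit 27)) (S (nat_lit 41))) (nat_lit 65535)))) (Nat.add (Nat.shiftLeft (nat_lit 1) (Nat.land (Nat.shiftRight (V (nat_lit 27)) (S (nat_lit 53))) (nat_lit 65535))) (Nat.shiftLeft (nat_lit 1) (Nat.land (Nat.shiftRight (V (nat_lit 30)) (S (nat_lit 13))) (nat_lit 65535)))))))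 (Nat.add (Nat.add (Nat.add (Nat.shiftLeft (nat_lit 1) (Nat.land (Nat.shiftRight (V (nat_lit 30)) (S (nat_lit 43))) (nat_lit 65535))) (Nat.add (Nat.shiftLeft (nat_lit 1) (Nat.land (Nat.shiftRight (V (nat_lit 33)) (S (nat_lit 14))) (nat_lit 65535))) (Nat.shiftLeft (nat_lit 1) (Nat.land (Nat.shiftRight (V (nat_lit 33)) (S (nat_lit 55))) (nat_lit 65535))))) (Nat.add (Nat.add (Nat.shiftLeft (nat_lit 1) (Nat.land (Nat.shiftRight (V (nat_lit 41)) (S (nat_lit 27))) (nat_lit 65535))) (Nat.shiftLeft (nat_lit 1) (Nat.land (Nat.shiftRight (V (nat_lit 41)) (S (nat_lit 53))) (nat_lit 65535)))) (Nat.add (Nat.shiftLeft (nat_lit 1) (Nat.land (Nat.shiftRight (V (nat_lit 43)) (S (nat_lit 13))) (nat_lit 65535))) (Nat.shiftLeft (nat_lit 1) (Nat.land (Nat.shiftRight (V (nat_lit 43)) (S (nat_lit 30))) (nat_lit 65535)))))) (Nat.add (Nat.add (Nat.add (Nat.shiftLeft (nat_lit 1) (Nat.land (Nat.shiftRight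 (V (nat_lit 47)) (S (nat_lit 12))) (nat_lit 65535))) (Nat.shiftLeft (nat_lit 1) (Nat.land (Nat.shiftRight (V (nat_lit 47)) (S (nat_lit 59))) (nat_lit 65535)))) (Nat.add (Nat.shiftLeft (nat_lit 1) (Nat.land (Nat.shiftRight (V (nat_lit 53)) (S (nat_lit 27))) (nat_lit 65535))) (Nat.shiftLeft (nat_lit 1) (Nat.land (Nat.shiftRight (V (nat_lit 53)) (S (nat_lit 41))) (nat_lit 65535))))) (Nat.add (Nat.add (Nat.shiftLeft (nat_lit 1) (Nat.land (Nat.shiftRight (V (nat_lit 55)) (S (nat_lit 14))) (nat_lit 65535))) (Nat.shiftLeft (nat_lit 1) (Nat.land (Nat.shiftRight (V (nat_lit 55)) (S (nat_lit 33))) (nat_lit 65535)))) (Nat.add (Nat.shiftLeft (nat_lit 1) (Nat.land (Nat.shiftRight (V (nat_lit 59)) (S (nat_lit 12))) (nat_lit 65535))) (Nat.shiftLeft (nat_lit 1) (Nat.land (Nat.shiftRight (V (nat_lit 59)) (S (nat_lit 47))) (nat_lit 65535)))))))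
def E18_0 (V S : ℕ → ℕ) : ℕ := Nat.add (Nat.add (Nat.add (Nat.add (Nat.add (Nat.shiftLeft (nat_lit 1) (Nat.land (Nat.shiftRight (V (nat_lit 3)) (S (nat_lit 12))) (nat_lit 65535))) (Nat.add (Nat.shiftLeft (nat_lit 1) (Nat.land (Nat.shiftRight (V (nat_lit 3)) (S (nat_lit 27))) (nat_lit 65535))) (Nat.shiftLeft (nat_lit 1) (Nat.land (Nat.shiftRight (V (nat_lit 3)) (S (nat_lit 43))) (nat_lit 65535))))) (Nat.add (Nat.add (Nat.shiftLeft (nat_lit 1) (Nat.land (Nat.shiftRight (V (nat_lit 3)) (S (nat_lit 55))) (nat_lit 65535))) (Nat.shiftLeft (nat_lit 1) (Nat.land (Nat.shiftRight (V (nat_lit 8)) (S (nat_lit 14))) (nat_lit 65535)))) (Nat.add (Nat.shiftLeft (nat_lit 1) (Nat.land (Nat.shiftRight (V (nat_lit 8)) (S (nat_lit 30))) (nat_lit 65535))) (Nat.shiftLeft (nat_lit 1) (Nat.land (Nat.shiftRight (V (nat_lit 8)) (S (nat_lit 41))) (nat_lit 65535)))))) (Nat.add (Nat.add (Nat.add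 (Nat.shiftLeft (nat_lit 1) (Nat.land (Nat.shiftRight (V (nat_lit 8)) (S (nat_lit 59))) (nat_lit 65535))) (Nat.shiftLeft (nat_lit 1) (Nat.land (Nat.shiftRight (V (nat_lit 11)) (S (nat_lit 13))) (nat_lit 65535)))) (Nat.add (Nat.shiftLeft (nat_lit 1) (Nat.land (Nat.shiftRight (V (nat_lit 11)) (S (nat_lit 33))) (nat_lit 65535))) (Nat.shiftLeft (nat_lit 1) (Nat.land (Nat.shiftRight (V (nat_lit 11)) (S (nat_lit 47))) (nat_lit 65535))))) (Nat.add (Nat.add (Nat.shiftLeft (nat_lit 1) (Nat.land (Nat.shiftRight (V (nat_lit 11)) (S (nat_lit 53))) (nat_lit 65535))) (Nat.shiftLeft (nat_lit 1) (Nat.land (Nat.shiftRight (V (nat_lit 12)) (S (nat_lit 3))) (nat_lit 65535)))) (Nat.add (Nat.shiftLeft (nat_lit 1) (Nat.land (Nat.shiftRight (V (nat_lit 12)) (S (nat_lit 13))) (nat_lit 65535))) (Nat.shiftLeft (nat_lit 1) (Nat.land (Nat.shiftRight (V (nat_lit 12)) (S (nat_lit 14))) (nat_lit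 65535))))))) (Nat.add (Nat.add (Nat.add (Nat.shiftLeft (nat_lit 1) (Nat.land (Nat.shiftRight (V (nat_lit 12)) (S (nat_lit 27))) (nat_lit 65535))) (Nat.add (Nat.shiftLeft (nat_lit 1) (Nat.land (Nat.shiftRight (V (nat_lit 13)) (S (nat_lit 11))) (nat_lit 65535))) (Nat.shiftLeft (nat_lit 1) (Nat.land (Nat.shiftRight (V (nat_lit 13)) (S (nat_lit 12))) (nat_lit 65535))))) (Nat.add (Nat.add (Nat.shiftLeft (nat_lit 1) (Nat.land (Nat.shiftRight (V (nat_lit 13)) (S (nat_lit 14))) (nat_lit 65535))) (Nat.shiftLeft (nat_lit 1) (Nat.land (Nat.shiftRight (V (nat_lit 13)) (S (nat_lit 53))) (nat_lit 65535)))) (Nat.add (Nat.shiftLeft (nat_lit 1) (Nat.land (Nat.shiftRight (V (nat_lit 14)) (S (nat_lit 8))) (nat_lit 65535))) (Nat.shiftLeft (nat_lit 1) (Nat.land (Nat.shiftRight (V (nat_lit 14)) (S (nat_lit 12))) (nat_lit 65535)))))) (Nat.add (Nat.add (Nat.add (Nat.shiftLeft (nat_lit 1)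 (Nat.land (Nat.shiftRight (V (nat_lit 14)) (S (nat_lit 13))) (nat_lit 65535))) (Nat.shiftLeft (nat_lit 1) (Nat.land (Nat.shiftRight (V (nat_lit 14)) (S (nat_lit 41))) (nat_lit 65535)))) (Nat.add (Nat.shiftLeft (nat_lit 1) (Nat.land (Nat.shiftRight (V (nat_lit 27)) (S (nat_lit 3))) (nat_lit 65535))) (Nat.shiftLeft (nat_lit 1) (Nat.land (Nat.shiftRight (V (nat_lit 27)) (S (nat_lit 12))) (nat_lit 65535))))) (Nat.add (Nat.add (Nat.shiftLeft (nat_lit 1) (Nat.land (Nat.shiftRight (V (nat_lit 27)) (S (nat_lit 30))) (nat_lit 65535))) (Nat.shiftLeft (nat_lit 1) (Nat.land (Nat.shiftRight (V (nat_lit 27)) (S (nat_lit 33))) (nat_lit 65535)))) (Nat.add (Nat.shiftLeft (nat_lit 1) (Nat.land (Nat.shiftRight (V (nat_lit 30)) (S (nat_lit 8))) (nat_lit 65535))) (Nat.shiftLeft (nat_lit 1) (Nat.land (Nat.shiftRight (V (nat_lit 30)) (S (nat_lit 27))) (nat_lit 65535)))))))) (Nat.add (Nat.add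 (Nat.add (Nat.add (Nat.shiftLeft (nat_lit 1) (Nat.land (Nat.shiftRight (V (nat_lit 30)) (S (nat_lit 33))) (nat_lit 65535))) (Nat.add (Nat.shiftLeft (nat_lit 1) (Nat.land (Nat.shiftRight (V (nat_lit 30)) (S (nat_lit 59))) (nat_lit 65535))) (Nat.shiftLeft (nat_lit 1) (Nat.land (Nat.shiftRight (V (nat_lit 33)) (S (nat_lit 11))) (nat_lit 65535))))) (Nat.add (Nat.add (Nat.shiftLeft (nat_lit 1) (Nat.land (Nat.shiftRight (V (nat_lit 33)) (S (nat_lit 27))) (nat_lit 65535))) (Nat.shiftLeft (nat_lit 1) (Nat.land (Nat.shiftRight (V (nat_lit 33)) (S (nat_lit 30))) (nat_lit 65535)))) (Nat.add (Nat.shiftLeft (nat_lit 1) (Nat.land (Nat.shiftRight (V (nat_lit 33)) (S (nat_lit 47))) (nat_lit 65535))) (Nat.shiftLeft (nat_lit 1) (Nat.land (Nat.shiftRight (V (nat_lit 41)) (S (nat_lit 8))) (nat_lit 65535)))))) (Nat.add (Nat.add (Nat.add (Nat.shiftLeft (nat_lit 1) (Nat.land (Nat.shiftRight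 (V (nat_lit 41)) (S (nat_lit 14))) (nat_lit 65535))) (Nat.shiftLeft (nat_lit 1) (Nat.land (Nat.shiftRight (V (nat_lit 41)) (S (nat_lit 43))) (nat_lit 65535)))) (Nat.add (Nat.shiftLeft (nat_lit 1) (Nat.land (Nat.shiftRight (V (nat_lit 41)) (S (nat_lit 47))) (nat_lit 65535))) (Nat.shiftLeft (nat_lit 1) (Nat.land (Nat.shiftRight (V (nat_lit 43)) (S (nat_lit 3))) (nat_lit 65535))))) (Nat.add (Nat.add (Nat.shiftLeft (nat_lit 1) (Nat.land (Nat.shiftRight (V (nat_lit 43)) (S (nat_lit 41))) (nat_lit 65535))) (Nat.shiftLeft (nat_lit 1) (Nat.land (Nat.shiftRight (V (nat_lit 43)) (S (nat_lit 47))) (nat_lit 65535)))) (Nat.add (Nat.shiftLeft (nat_lit 1) (Nat.land (Nat.shiftRight (V (nat_lit 43)) (S (nat_lit 55))) (nat_lit 65535))) (Nat.shiftLeft (nat_lit 1) (Nat.land (Nat.shiftRight (V (nat_lit 47)) (S (nat_lit 11))) (nat_lit 65535))))))) (Nat.add (Nat.add (Nat.add (Nat.shiftLeft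 (nat_lit 1) (Nat.land (Nat.shiftRight (V (nat_lit 47)) (S (nat_lit 33))) (nat_lit 65535))) (Nat.add (Nat.shiftLeft (nat_lit 1) (Nat.land (Nat.shiftRight (V (nat_lit 47)) (S (nat_lit 41))) (nat_lit 65535))) (Nat.shiftLeft (nat_lit 1) (Nat.land (Nat.shiftRight (V (nat_lit 47)) (S (nat_lit 43))) (nat_lit 65535))))) (Nat.add (Nat.add (Nat.shiftLeft (nat_lit 1) (Nat.land (Nat.shiftRight (V (nat_lit 53)) (S (nat_lit 11))) (nat_lit 65535))) (Nat.shiftLeft (nat_lit 1) (Nat.land (Nat.shiftRight (V (nat_lit 53)) (S (nat_lit 13))) (nat_lit 65535)))) (Nat.add (Nat.shiftLeft (nat_lit 1) (Nat.land (Nat.shiftRight (V (nat_lit 53)) (S (nat_lit 55))) (nat_lit 65535))) (Nat.shiftLeft (nat_lit 1) (Nat.land (Nat.shiftRight (V (nat_lit 53)) (S (nat_lit 59))) (nat_lit 65535)))))) (Nat.add (Nat.add (Nat.add (Nat.shiftLeft (nat_lit 1) (Nat.land (Nat.shiftRight (V (nat_lit 55)) (S (nat_lit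 3))) (nat_lit 65535))) (Nat.shiftLeft (nat_lit 1) (Nat.land (Nat.shiftRight (V (nat_lit 55)) (S (nat_lit 43))) (nat_lit 65535)))) (Nat.add (Nat.shiftLeft (nat_lit 1) (Nat.land (Nat.shiftRight (V (nat_lit 55)) (S (nat_lit 53))) (nat_lit 65535))) (Nat.shiftLeft (nat_lit 1) (Nat.land (Nat.shiftRight (V (nat_lit 55)) (S (nat_lit 59))) (nat_lit 65535))))) (Nat.add (Nat.add (Nat.shiftLeft (nat_lit 1) (Nat.land (Nat.shiftRight (V (nat_lit 59)) (S (nat_lit 8))) (nat_lit 65535))) (Nat.shiftLeft (nat_lit 1) (Nat.land (Nat.shiftRight (V (nat_lit 59)) (S (nat_lit 30))) (nat_lit 65535)))) (Nat.add (Nat.shiftLeft (nat_lit 1) (Nat.land (Nat.shiftRight (V (nat_lit 59)) (S (nat_lit 53))) (nat_lit 65535))) (Nat.shiftLeft (nat_lit 1) (Nat.land (Nat.shiftRight (V (nat_lit 59)) (S (nat_lit 55))) (nat_lit 65535))))))))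
def E19_0 (V S : ℕ → ℕ) : ℕ := Nat.add (Nat.add (Nat.add (Nat.add (Nat.add (Nat.add (Nat.shiftLeft (nat_lit 1) (Nat.land (Nat.shiftRight (V (nat_lit 3)) (S (nat_lit 13))) (nat_lit 65535))) (Nat.add (Nat.shiftLeft (nat_lit 1) (Nat.land (Nat.shiftRight (V (nat_lit 3)) (S (nat_lit 14))) (nat_lit 65535))) (Nat.shiftLeft (nat_lit 1) (Nat.land (Nat.shiftRight (V (nat_lit 3)) (S (nat_lit 30))) (nat_lit 65535))))) (Nat.add (Nat.add (Nat.shiftLeft (nat_lit 1) (Nat.land (Nat.shiftRight (V (nat_lit 3)) (S (nat_lit 33))) (nat_lit 65535))) (Nat.shiftLeft (nat_lit 1) (Nat.land (Nat.shiftRight (V (nat_lit 3)) (S (nat_lit 41))) (nat_lit 65535)))) (Nat.add (Nat.shiftLeft (nat_lit 1) (Nat.land (Nat.shiftRight (V (nat_lit 3)) (S (nat_lit 47))) (nat_lit 65535))) (Nat.shiftLeft (nat_lit 1) (Nat.land (Nat.shiftRight (V (nat_lit 3)) (S (nat_lit 53))) (nat_lit 65535)))))) (Nat.add (Nat.add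 (Nat.add (Nat.shiftLeft (nat_lit 1) (Nat.land (Nat.shiftRight (V (nat_lit 3)) (S (nat_lit 59))) (nat_lit 65535))) (Nat.shiftLeft (nat_lit 1) (Nat.land (Nat.shiftRight (V (nat_lit 8)) (S (nat_lit 12))) (nat_lit 65535)))) (Nat.add (Nat.shiftLeft (nat_lit 1) (Nat.land (Nat.shiftRight (V (nat_lit 8)) (S (nat_lit 13))) (nat_lit 65535))) (Nat.shiftLeft (nat_lit 1) (Nat.land (Nat.shiftRight (V (nat_lit 8)) (S (nat_lit 27))) (nat_lit 65535))))) (Nat.add (Nat.add (Nat.shiftLeft (nat_lit 1) (Nat.land (Nat.shiftRight (V (nat_lit 8)) (S (nat_lit 33))) (nat_lit 65535))) (Nat.shiftLeft (nat_lit 1) (Nat.land (Nat.shiftRight (V (nat_lit 8)) (S (nat_lit 43))) (nat_lit 65535)))) (Nat.add (Nat.shiftLeft (nat_lit 1) (Nat.land (Nat.shiftRight (V (nat_lit 8)) (S (nat_lit 47))) (nat_lit 65535))) (Nat.shiftLeft (nat_lit 1) (Nat.land (Nat.shiftRight (V (nat_lit 8)) (S (nat_lit 53))) (nat_lit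 65535))))))) (Nat.add (Nat.add (Nat.add (Nat.shiftLeft (nat_lit 1) (Nat.land (Nat.shiftRight (V (nat_lit 8)) (S (nat_lit 55))) (nat_lit 65535))) (Nat.add (Nat.shiftLeft (nat_lit 1) (Nat.land (Nat.shiftRight (V (nat_lit 11)) (S (nat_lit 12))) (nat_lit 65535))) (Nat.shiftLeft (nat_lit 1) (Nat.land (Nat.shiftRight (V (nat_lit 11)) (S (nat_lit 14))) (nat_lit 65535))))) (Nat.add (Nat.add (Nat.shiftLeft (nat_lit 1) (Nat.land (Nat.shiftRight (V (nat_lit 11)) (S (nat_lit 27))) (nat_lit 65535))) (Nat.shiftLeft (nat_lit 1) (Nat.land (Nat.shiftRight (V (nat_lit 11)) (S (nat_lit 30))) (nat_lit 65535)))) (Nat.add (Nat.shiftLeft (nat_lit 1) (Nat.land (Nat.shiftRight (V (nat_lit 11)) (S (nat_lit 41))) (nat_lit 65535))) (Nat.shiftLeft (nat_lit 1) (Nat.land (Nat.shiftRight (V (nat_lit 11)) (S (nat_lit 43))) (nat_lit 65535)))))) (Nat.add (Nat.add (Nat.add (Nat.shiftLeft (nat_lit 1)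 (Nat.land (Nat.shiftRight (V (nat_lit 11)) (S (nat_lit 55))) (nat_lit 65535))) (Nat.shiftLeft (nat_lit 1) (Nat.land (Nat.shiftRight (V (nat_lit 11)) (S (nat_lit 59))) (nat_lit 65535)))) (Nat.add (Nat.shiftLeft (nat_lit 1) (Nat.land (Nat.shiftRight (V (nat_lit 12)) (S (nat_lit 8))) (nat_lit 65535))) (Nat.shiftLeft (nat_lit 1) (Nat.land (Nat.shiftRight (V (nat_lit 12)) (S (nat_lit 11))) (nat_lit 65535))))) (Nat.add (Nat.add (Nat.shiftLeft (nat_lit 1) (Nat.land (Nat.shiftRight (V (nat_lit 12)) (S (nat_lit 30))) (nat_lit 65535))) (Nat.shiftLeft (nat_lit 1) (Nat.land (Nat.shiftRight (V (nat_lit 12)) (S (nat_lit 33))) (nat_lit 65535)))) (Nat.add (Nat.shiftLeft (nat_lit 1) (Nat.land (Nat.shiftRight (V (nat_lit 12)) (S (nat_lit 41))) (nat_lit 65535))) (Nat.shiftLeft (nat_lit 1) (Nat.land (Nat.shiftRight (V (nat_lit 12)) (S (nat_lit 43))) (nat_lit 65535)))))))) (Nat.add (Nat.add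 (Nat.add (Nat.add (Nat.shiftLeft (nat_lit 1) (Nat.land (Nat.shiftRight (V (nat_lit 12)) (S (nat_lit 53))) (nat_lit 65535))) (Nat.add (Nat.shiftLeft (nat_lit 1) (Nat.land (Nat.shiftRight (V (nat_lit 12)) (S (nat_lit 55))) (nat_lit 65535))) (Nat.shiftLeft (nat_lit 1) (Nat.land (Nat.shiftRight (V (nat_lit 13)) (S (nat_lit 3))) (nat_lit 65535))))) (Nat.add (Nat.add (Nat.shiftLeft (nat_lit 1) (Nat.land (Nat.shiftRight (V (nat_lit 13)) (S (nat_lit 8))) (nat_lit 65535))) (Nat.shiftLeft (nat_lit 1) (Nat.land (Nat.shiftRight (V (nat_lit 13)) (S (nat_lit 27))) (nat_lit 65535)))) (Nat.add (Nat.shiftLeft (nat_lit 1) (Nat.land (Nat.shiftRight (V (nat_lit 13)) (S (nat_lit 33))) (nat_lit 65535))) (Nat.shiftLeft (nat_lit 1) (Nat.land (Nat.shiftRight (V (nat_lit 13)) (S (nat_lit 41))) (nat_lit 65535)))))) (Nat.add (Nat.add (Nat.add (Nat.shiftLeft (nat_lit 1) (Nat.land (Nat.shiftRight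 (V (nat_lit 13)) (S (nat_lit 47))) (nat_lit 65535))) (Nat.shiftLeft (nat_lit 1) (Nat.land (Nat.shiftRight (V (nat_lit 13)) (S (nat_lit 55))) (nat_lit 65535)))) (Nat.add (Nat.shiftLeft (nat_lit 1) (Nat.land (Nat.shiftRight (V (nat_lit 13)) (S (nat_lit 59))) (nat_lit 65535))) (Nat.shiftLeft (nat_lit 1) (Nat.land (Nat.shiftRight (V (nat_lit 14)) (S (nat_lit 3))) (nat_lit 65535))))) (Nat.add (Nat.add (Nat.shiftLeft (nat_lit 1) (Nat.land (Nat.shiftRight (V (nat_lit 14)) (S (nat_lit 11))) (nat_lit 65535))) (Nat.shiftLeft (nat_lit 1) (Nat.land (Nat.shiftRight (V (nat_lit 14)) (S (nat_lit 27))) (nat_lit 65535)))) (Nat.add (Nat.shiftLeft (nat_lit 1) (Nat.land (Nat.shiftRight (V (nat_lit 14)) (S (nat_lit 30))) (nat_lit 65535))) (Nat.shiftLeft (nat_lit 1) (Nat.land (Nat.shiftRight (V (nat_lit 14)) (S (nat_lit 43))) (nat_lit 65535))))))) (Nat.add (Nat.add (Nat.add (Nat.shiftLeft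 (nat_lit 1) (Nat.land (Nat.shiftRight (V (nat_lit 14)) (S (nat_lit 47))) (nat_lit 65535))) (Nat.add (Nat.shiftLeft (nat_lit 1) (Nat.land (Nat.shiftRight (V (nat_lit 14)) (S (nat_lit 53))) (nat_lit 65535))) (Nat.shiftLeft (nat_lit 1) (Nat.land (Nat.shiftRight (V (nat_lit 14)) (S (nat_lit 59))) (nat_lit 65535))))) (Nat.add (Nat.add (Nat.shiftLeft (nat_lit 1) (Nat.land (Nat.shiftRight (V (nat_lit 27)) (S (nat_lit 8))) (nat_lit 65535))) (Nat.shiftLeft (nat_lit 1) (Nat.land (Nat.shiftRight (V (nat_lit 27)) (S (nat_lit 11))) (nat_lit 65535)))) (Nat.add (Nat.shiftLeft (nat_lit 1) (Nat.land (Nat.shiftRight (V (nat_lit 27)) (S (nat_lit 13))) (nat_lit 65535))) (Nat.shiftLeft (nat_lit 1) (Nat.land (Nat.shiftRight (V (nat_lit 27)) (S (nat_lit 14))) (nat_lit 65535)))))) (Nat.add (Nat.add (Nat.add (Nat.shiftLeft (nat_lit 1) (Nat.land (Nat.shiftRight (V (nat_lit 27)) (S (nat_lit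 43))) (nat_lit 65535))) (Nat.shiftLeft (nat_lit 1) (Nat.land (Nat.shiftRight (V (nat_lit 27)) (S (nat_lit 47))) (nat_lit 65535)))) (Nat.add (Nat.shiftLeft (nat_lit 1) (Nat.land (Nat.shiftRight (V (nat_lit 27)) (S (nat_lit 55))) (nat_lit 65535))) (Nat.shiftLeft (nat_lit 1) (Nat.land (Nat.shiftRight (V (nat_lit 27)) (S (nat_lit 59))) (nat_lit 65535))))) (Nat.add (Nat.add (Nat.shiftLeft (nat_lit 1) (Nat.land (Nat.shiftRight (V (nat_lit 30)) (S (nat_lit 3))) (nat_lit 65535))) (Nat.shiftLeft (nat_lit 1) (Nat.land (Nat.shiftRight (V (nat_lit 30)) (S (nat_lit 11))) (nat_lit 65535)))) (Nat.add (Nat.shiftLeft (nat_lit 1) (Nat.land (Nat.shiftRight (V (nat_lit 30)) (S (nat_lit 12))) (nat_lit 65535))) (Nat.shiftLeft (nat_lit 1) (Nat.land (Nat.shiftRight (V (nat_lit 30)) (S (nat_lit 14))) (nat_lit 65535))))))))) (Nat.add (Nat.add (Nat.add (Nat.add (Nat.add (Nat.shiftLeft (nat_lit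 1) (Nat.land (Nat.shiftRight (V (nat_lit 30)) (S (nat_lit 41))) (nat_lit 65535))) (Nat.add (Nat.shiftLeft (nat_lit 1) (Nat.land (Nat.shiftRight (V (nat_lit 30)) (S (nat_lit 47))) (nat_lit 65535))) (Nat.shiftLeft (nat_lit 1) (Nat.land (Nat.shiftRight (V (nat_lit 30)) (S (nat_lit 53))) (nat_lit 65535))))) (Nat.add (Nat.add (Nat.shiftLeft (nat_lit 1) (Nat.land (Nat.shiftRight (V (nat_lit 30)) (S (nat_lit 55))) (nat_lit 65535))) (Nat.shiftLeft (nat_lit 1) (Nat.land (Nat.shiftRight (V (nat_lit 33)) (S (nat_lit 3))) (nat_lit 65535)))) (Nat.add (Nat.shiftLeft (nat_lit 1) (Nat.land (Nat.shiftRight (V (nat_lit 33)) (S (nat_lit 8))) (nat_lit 65535))) (Nat.shiftLeft (nat_lit 1) (Nat.land (Nat.shiftRight (V (nat_lit 33)) (S (nat_lit 12))) (nat_lit 65535)))))) (Nat.add (Nat.add (Nat.add (Nat.shiftLeft (nat_lit 1) (Nat.land (Nat.shiftRight (V (nat_lit 33)) (S (nat_lit 13))) (nat_lit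 65535))) (Nat.shiftLeft (nat_lit 1) (Nat.land (Nat.shiftRight (V (nat_lit 33)) (S (nat_lit 41))) (nat_lit 65535)))) (Nat.add (Nat.shiftLeft (nat_lit 1) (Nat.land (Nat.shiftRight (V (nat_lit 33)) (S (nat_lit 43))) (nat_lit 65535))) (Nat.shiftLeft (nat_lit 1) (Nat.land (Nat.shiftRight (V (nat_lit 33)) (S (nat_lit 53))) (nat_lit 65535))))) (Nat.add (Nat.add (Nat.shiftLeft (nat_lit 1) (Nat.land (Nat.shiftRight (V (nat_lit 33)) (S (nat_lit 59))) (nat_lit 65535))) (Nat.shiftLeft (nat_lit 1) (Nat.land (Nat.shiftRight (V (nat_lit 41)) (S (nat_lit 3))) (nat_lit 65535)))) (Nat.add (Nat.shiftLeft (nat_lit 1) (Nat.land (Nat.shiftRight (V (nat_lit 41)) (S (nat_lit 11))) (nat_lit 65535))) (Nat.shiftLeft (nat_lit 1) (Nat.land (Nat.shiftRight (V (nat_lit 41)) (S (nat_lit 12))) (nat_lit 65535))))))) (Nat.add (Nat.add (Nat.add (Nat.shiftLeft (nat_lit 1) (Nat.land (Nat.shiftRight (V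 (nat_lit 41)) (S (nat_lit 13))) (nat_lit 65535))) (Nat.add (Nat.shiftLeft (nat_lit 1) (Nat.land (Nat.shiftRight (V (nat_lit 41)) (S (nat_lit 30))) (nat_lit 65535))) (Nat.shiftLeft (nat_lit 1) (Nat.land (Nat.shiftRight (V (nat_lit 41)) (S (nat_lit 33))) (nat_lit 65535))))) (Nat.add (Nat.add (Nat.shiftLeft (nat_lit 1) (Nat.land (Nat.shiftRight (V (nat_lit 41)) (S (nat_lit 55))) (nat_lit 65535))) (Nat.shiftLeft (nat_lit 1) (Nat.land (Nat.shiftRight (V (nat_lit 41)) (S (nat_lit 59))) (nat_lit 65535)))) (Nat.add (Nat.shiftLeft (nat_lit 1) (Nat.land (Nat.shiftRight (V (nat_lit 43)) (S (nat_lit 8))) (nat_lit 65535))) (Nat.shiftLeft (nat_lit 1) (Nat.land (Nat.shiftRight (V (nat_lit 43)) (S (nat_lit 11))) (nat_lit 65535)))))) (Nat.add (Nat.add (Nat.add (Nat.shiftLeft (nat_lit 1) (Nat.land (Nat.shiftRight (V (nat_lit 43)) (S (nat_lit 12))) (nat_lit 65535))) (Nat.shiftLeft (nat_lit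 1) (Nat.land (Nat.shiftRight (V (nat_lit 43)) (S (nat_lit 14))) (nat_lit 65535)))) (Nat.add (Nat.shiftLeft (nat_lit 1) (Nat.land (Nat.shiftRight (V (nat_lit 43)) (S (nat_lit 27))) (nat_lit 65535))) (Nat.shiftLeft (nat_lit 1) (Nat.land (Nat.shiftRight (V (nat_lit 43)) (S (nat_lit 33))) (nat_lit 65535))))) (Nat.add (Nat.add (Nat.shiftLeft (nat_lit 1) (Nat.land (Nat.shiftRight (V (nat_lit 43)) (S (nat_lit 53))) (nat_lit 65535))) (Nat.shiftLeft (nat_lit 1) (Nat.land (Nat.shiftRight (V (nat_lit 43)) (S (nat_lit 59))) (nat_lit 65535)))) (Nat.add (Nat.shiftLeft (nat_lit 1) (Nat.land (Nat.shiftRight (V (nat_lit 47)) (S (nat_lit 3))) (nat_lit 65535))) (Nat.shiftLeft (nat_lit 1) (Nat.land (Nat.shiftRight (V (nat_lit 47)) (S (nat_lit 8))) (nat_lit 65535)))))))) (Nat.add (Nat.add (Nat.add (Nat.add (Nat.shiftLeft (nat_lit 1) (Nat.land (Nat.shiftRight (V (nat_lit 47)) (S (nat_lit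 13))) (nat_lit 65535))) (Nat.add (Nat.shiftLeft (nat_lit 1) (Nat.land (Nat.shiftRight (V (nat_lit 47)) (S (nat_lit 14))) (nat_lit 65535))) (Nat.shiftLeft (nat_lit 1) (Nat.land (Nat.shiftRight (V (nat_lit 47)) (S (nat_lit 27))) (nat_lit 65535))))) (Nat.add (Nat.add (Nat.shiftLeft (nat_lit 1) (Nat.land (Nat.shiftRight (V (nat_lit 47)) (S (nat_lit 30))) (nat_lit 65535))) (Nat.shiftLeft (nat_lit 1) (Nat.land (Nat.shiftRight (V (nat_lit 47)) (S (nat_lit 53))) (nat_lit 65535)))) (Nat.add (Nat.shiftLeft (nat_lit 1) (Nat.land (Nat.shiftRight (V (nat_lit 47)) (S (nat_lit 55))) (nat_lit 65535))) (Nat.shiftLeft (nat_lit 1) (Nat.land (Nat.shiftRight (V (nat_lit 53)) (S (nat_lit 3))) (nat_lit 65535)))))) (Nat.add (Nat.add (Nat.add (Nat.shiftLeft (nat_lit 1) (Nat.land (Nat.shiftRight (V (nat_lit 53)) (S (nat_lit 8))) (nat_lit 65535))) (Nat.shiftLeft (nat_lit 1) (Nat.land (Nat.shiftRight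 (V (nat_lit 53)) (S (nat_lit 12))) (nat_lit 65535)))) (Nat.add (Nat.shiftLeft (nat_lit 1) (Nat.land (Nat.shiftRight (V (nat_lit 53)) (S (nat_lit 14))) (nat_lit 65535))) (Nat.shiftLeft (nat_lit 1) (Nat.land (Nat.shiftRight (V (nat_lit 53)) (S (nat_lit 30))) (nat_lit 65535))))) (Nat.add (Nat.add (Nat.shiftLeft (nat_lit 1) (Nat.land (Nat.shiftRight (V (nat_lit 53)) (S (nat_lit 33))) (nat_lit 65535))) (Nat.shiftLeft (nat_lit 1) (Nat.land (Nat.shiftRight (V (nat_lit 53)) (S (nat_lit 43))) (nat_lit 65535)))) (Nat.add (Nat.shiftLeft (nat_lit 1) (Nat.land (Nat.shiftRight (V (nat_lit 53)) (S (nat_lit 47))) (nat_lit 65535))) (Nat.shiftLeft (nat_lit 1) (Nat.land (Nat.shiftRight (V (nat_lit 55)) (S (nat_lit 8))) (nat_lit 65535))))))) (Nat.add (Nat.add (Nat.add (Nat.shiftLeft (nat_lit 1) (Nat.land (Nat.shiftRight (V (nat_lit 55)) (S (nat_lit 11))) (nat_lit 65535))) (Nat.add (Nat.shiftLeft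 (nat_lit 1) (Nat.land (Nat.shiftRight (V (nat_lit 55)) (S (nat_lit 12))) (nat_lit 65535))) (Nat.shiftLeft (nat_lit 1) (Nat.land (Nat.shiftRight (V (nat_lit 55)) (S (nat_lit 13))) (nat_lit 65535))))) (Nat.add (Nat.add (Nat.shiftLeft (nat_lit 1) (Nat.land (Nat.shiftRight (V (nat_lit 55)) (S (nat_lit 27))) (nat_lit 65535))) (Nat.shiftLeft (nat_lit 1) (Nat.land (Nat.shiftRight (V (nat_lit 55)) (S (nat_lit 30))) (nat_lit 65535)))) (Nat.add (Nat.shiftLeft (nat_lit 1) (Nat.land (Nat.shiftRight (V (nat_lit 55)) (S (nat_lit 41))) (nat_lit 65535))) (Nat.shiftLeft (nat_lit 1) (Nat.land (Nat.shiftRight (V (nat_lit 55)) (S (nat_lit 47))) (nat_lit 65535)))))) (Nat.add (Nat.add (Nat.add (Nat.shiftLeft (nat_lit 1) (Nat.land (Nat.shiftRight (V (nat_lit 59)) (S (nat_lit 3))) (nat_lit 65535))) (Nat.shiftLeft (nat_lit 1) (Nat.land (Nat.shiftRight (V (nat_lit 59)) (S (nat_lit 11))) (nat_lit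 65535)))) (Nat.add (Nat.shiftLeft (nat_lit 1) (Nat.land (Nat.shiftRight (V (nat_lit 59)) (S (nat_lit 13))) (nat_lit 65535))) (Nat.shiftLeft (nat_lit 1) (Nat.land (Nat.shiftRight (V (nat_lit 59)) (S (nat_lit 14))) (nat_lit 65535))))) (Nat.add (Nat.add (Nat.shiftLeft (nat_lit 1) (Nat.land (Nat.shiftRight (V (nat_lit 59)) (S (nat_lit 27))) (nat_lit 65535))) (Nat.shiftLeft (nat_lit 1) (Nat.land (Nat.shiftRight (V (nat_lit 59)) (S (nat_lit 33))) (nat_lit 65535)))) (Nat.add (Nat.shiftLeft (nat_lit 1) (Nat.land (Nat.shiftRight (V (nat_lit 59)) (S (nat_lit 41))) (nat_lit 65535))) (Nat.shiftLeft (nat_lit 1) (Nat.land (Nat.shiftRight (V (nat_lit 59)) (S (nat_lit 43))) (nat_lit 65535)))))))))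
def E20_0 (V S : ℕ → ℕ) : ℕ := Nat.add (Nat.add (Nat.add (Nat.add (Nat.add (Nat.add (Nat.add (Nat.shiftLeft (nat_lit 1) (Nat.land (Nat.shiftRight (V (nat_lit 3)) (S (nat_lit 16))) (nat_lit 65535))) (Nat.add (Nat.shiftLeft (nat_lit 1) (Nat.land (Nat.shiftRight (V (nat_lit 3)) (S (nat_lit 17))) (nat_lit 65535))) (Nat.shiftLeft (nat_lit 1) (Nat.land (Nat.shiftRight (V (nat_lit 3)) (S (nat_lit 31))) (nat_lit 65535))))) (Nat.add (Nat.add (Nat.shiftLeft (nat_lit 1) (Nat.land (Nat.shiftRight (V (nat_lit 3)) (S (nat_lit 34))) (nat_lit 65535))) (Nat.shiftLeft (nat_lit 1) (Nat.land (Nat.shiftRight (V (nat_lit 3)) (S (nat_lit 36))) (nat_lit 65535)))) (Nat.add (Nat.shiftLeft (nat_lit 1) (Nat.land (Nat.shiftRight (V (nat_lit 3)) (S (nat_lit 42))) (nat_lit 65535))) (Nat.shiftLeft (nat_lit 1) (Nat.land (Nat.shiftRight (V (nat_lit 3)) (S (nat_lit 48))) (nat_lit 65535)))))) (Nat.add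 (Nat.add (Nat.add (Nat.shiftLeft (nat_lit 1) (Nat.land (Nat.shiftRight (V (nat_lit 3)) (S (nat_lit 54))) (nat_lit 65535))) (Nat.shiftLeft (nat_lit 1) (Nat.land (Nat.shiftRight (V (nat_lit 8)) (S (nat_lit 18))) (nat_lit 65535)))) (Nat.add (Nat.shiftLeft (nat_lit 1) (Nat.land (Nat.shiftRight (V (nat_lit 8)) (S (nat_lit 20))) (nat_lit 65535))) (Nat.shiftLeft (nat_lit 1) (Nat.land (Nat.shiftRight (V (nat_lit 8)) (S (nat_lit 26))) (nat_lit 65535))))) (Nat.add (Nat.add (Nat.shiftLeft (nat_lit 1) (Nat.land (Nat.shiftRight (V (nat_lit 8)) (S (nat_lit 32))) (nat_lit 65535))) (Nat.shiftLeft (nat_lit 1) (Nat.land (Nat.shiftRight (V (nat_lit 8)) (S (nat_lit 44))) (nat_lit 65535)))) (Nat.add (Nat.shiftLeft (nat_lit 1) (Nat.land (Nat.shiftRight (V (nat_lit 8)) (S (nat_lit 45))) (nat_lit 65535))) (Nat.shiftLeft (nat_lit 1) (Nat.land (Nat.shiftRight (V (nat_lit 8)) (S (nat_lit 50)))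 (nat_lit 65535))))))) (Nat.add (Nat.add (Nat.add (Nat.shiftLeft (nat_lit 1) (Nat.land (Nat.shiftRight (V (nat_lit 8)) (S (nat_lit 58))) (nat_lit 65535))) (Nat.add (Nat.shiftLeft (nat_lit 1) (Nat.land (Nat.shiftRight (V (nat_lit 11)) (S (nat_lit 21))) (nat_lit 65535))) (Nat.shiftLeft (nat_lit 1) (Nat.land (Nat.shiftRight (V (nat_lit 11)) (S (nat_lit 23))) (nat_lit 65535))))) (Nat.add (Nat.add (Nat.shiftLeft (nat_lit 1) (Nat.land (Nat.shiftRight (V (nat_lit 11)) (S (nat_lit 25))) (nat_lit 65535))) (Nat.shiftLeft (nat_lit 1) (Nat.land (Nat.shiftRight (V (nat_lit 11)) (S (nat_lit 35))) (nat_lit 65535)))) (Nat.add (Nat.shiftLeft (nat_lit 1) (Nat.land (Nat.shiftRight (V (nat_lit 11)) (S (nat_lit 38))) (nat_lit 65535))) (Nat.shiftLeft (nat_lit 1) (Nat.land (Nat.shiftRight (V (nat_lit 11)) (S (nat_lit 46))) (nat_lit 65535)))))) (Nat.add (Nat.add (Nat.add (Nat.shiftLeft (nat_lit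 1) (Nat.land (Nat.shiftRight (V (nat_lit 11)) (S (nat_lit 56))) (nat_lit 65535))) (Nat.shiftLeft (nat_lit 1) (Nat.land (Nat.shiftRight (V (nat_lit 11)) (S (nat_lit 57))) (nat_lit 65535)))) (Nat.add (Nat.shiftLeft (nat_lit 1) (Nat.land (Nat.shiftRight (V (nat_lit 12)) (S (nat_lit 16))) (nat_lit 65535))) (Nat.shiftLeft (nat_lit 1) (Nat.land (Nat.shiftRight (V (nat_lit 12)) (S (nat_lit 17))) (nat_lit 65535))))) (Nat.add (Nat.add (Nat.shiftLeft (nat_lit 1) (Nat.land (Nat.shiftRight (V (nat_lit 12)) (S (nat_lit 18))) (nat_lit 65535))) (Nat.shiftLeft (nat_lit 1) (Nat.land (Nat.shiftRight (V (nat_lit 12)) (S (nat_lit 21))) (nat_lit 65535)))) (Nat.add (Nat.shiftLeft (nat_lit 1) (Nat.land (Nat.shiftRight (V (nat_lit 12)) (S (nat_lit 25))) (nat_lit 65535))) (Nat.shiftLeft (nat_lit 1) (Nat.land (Nat.shiftRight (V (nat_lit 12)) (S (nat_lit 26))) (nat_lit 65535)))))))) (Nat.add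 (Nat.add (Nat.add (Nat.add (Nat.shiftLeft (nat_lit 1) (Nat.land (Nat.shiftRight (V (nat_lit 12)) (S (nat_lit 36))) (nat_lit 65535))) (Nat.add (Nat.shiftLeft (nat_lit 1) (Nat.land (Nat.shiftRight (V (nat_lit 12)) (S (nat_lit 48))) (nat_lit 65535))) (Nat.shiftLeft (nat_lit 1) (Nat.land (Nat.shiftRight (V (nat_lit 13)) (S (nat_lit 16))) (nat_lit 65535))))) (Nat.add (Nat.add (Nat.shiftLeft (nat_lit 1) (Nat.land (Nat.shiftRight (V (nat_lit 13)) (S (nat_lit 20))) (nat_lit 65535))) (Nat.shiftLeft (nat_lit 1) (Nat.land (Nat.shiftRight (V (nat_lit 13)) (S (nat_lit 21))) (nat_lit 65535)))) (Nat.add (Nat.shiftLeft (nat_lit 1) (Nat.land (Nat.shiftRight (V (nat_lit 13)) (S (nat_lit 23))) (nat_lit 65535))) (Nat.shiftLeft (nat_lit 1) (Nat.land (Nat.shiftRight (V (nat_lit 13)) (S (nat_lit 25))) (nat_lit 65535)))))) (Nat.add (Nat.add (Nat.add (Nat.shiftLeft (nat_lit 1) (Nat.land (Nat.shiftRight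 (V (nat_lit 13)) (S (nat_lit 38))) (nat_lit 65535))) (Nat.shiftLeft (nat_lit 1) (Nat.land (Nat.shiftRight (V (nat_lit 13)) (S (nat_lit 48))) (nat_lit 65535)))) (Nat.add (Nat.shiftLeft (nat_lit 1) (Nat.land (Nat.shiftRight (V (nat_lit 13)) (S (nat_lit 50))) (nat_lit 65535))) (Nat.shiftLeft (nat_lit 1) (Nat.land (Nat.shiftRight (V (nat_lit 14)) (S (nat_lit 17))) (nat_lit 65535))))) (Nat.add (Nat.add (Nat.shiftLeft (nat_lit 1) (Nat.land (Nat.shiftRight (V (nat_lit 14)) (S (nat_lit 18))) (nat_lit 65535))) (Nat.shiftLeft (nat_lit 1) (Nat.land (Nat.shiftRight (V (nat_lit 14)) (S (nat_lit 20))) (nat_lit 65535)))) (Nat.add (Nat.shiftLeft (nat_lit 1) (Nat.land (Nat.shiftRight (V (nat_lit 14)) (S (nat_lit 23))) (nat_lit 65535))) (Nat.shiftLeft (nat_lit 1) (Nat.land (Nat.shiftRight (V (nat_lit 14)) (S (nat_lit 26))) (nat_lit 65535))))))) (Nat.add (Nat.add (Nat.add (Nat.shiftLeft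 (nat_lit 1) (Nat.land (Nat.shiftRight (V (nat_lit 14)) (S (nat_lit 36))) (nat_lit 65535))) (Nat.add (Nat.shiftLeft (nat_lit 1) (Nat.land (Nat.shiftRight (V (nat_lit 14)) (S (nat_lit 38))) (nat_lit 65535))) (Nat.shiftLeft (nat_lit 1) (Nat.land (Nat.shiftRight (V (nat_lit 14)) (S (nat_lit 50))) (nat_lit 65535))))) (Nat.add (Nat.add (Nat.shiftLeft (nat_lit 1) (Nat.land (Nat.shiftRight (V (nat_lit 16)) (S (nat_lit 3))) (nat_lit 65535))) (Nat.shiftLeft (nat_lit 1) (Nat.land (Nat.shiftRight (V (nat_lit 16)) (S (nat_lit 12))) (nat_lit 65535)))) (Nat.add (Nat.shiftLeft (nat_lit 1) (Nat.land (Nat.shiftRight (V (nat_lit 16)) (S (nat_lit 13))) (nat_lit 65535))) (Nat.shiftLeft (nat_lit 1) (Nat.land (Nat.shiftRight (V (nat_lit 16)) (S (nat_lit 53))) (nat_lit 65535)))))) (Nat.add (Nat.add (Nat.add (Nat.shiftLeft (nat_lit 1) (Nat.land (Nat.shiftRight (V (nat_lit 16)) (S (nat_lit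 55))) (nat_lit 65535))) (Nat.shiftLeft (nat_lit 1) (Nat.land (Nat.shiftRight (V (nat_lit 17)) (S (nat_lit 3))) (nat_lit 65535)))) (Nat.add (Nat.shiftLeft (nat_lit 1) (Nat.land (Nat.shiftRight (V (nat_lit 17)) (S (nat_lit 12))) (nat_lit 65535))) (Nat.shiftLeft (nat_lit 1) (Nat.land (Nat.shiftRight (V (nat_lit 17)) (S (nat_lit 14))) (nat_lit 65535))))) (Nat.add (Nat.add (Nat.shiftLeft (nat_lit 1) (Nat.land (Nat.shiftRight (V (nat_lit 17)) (S (nat_lit 41))) (nat_lit 65535))) (Nat.shiftLeft (nat_lit 1) (Nat.land (Nat.shiftRight (V (nat_lit 17)) (S (nat_lit 43))) (nat_lit 65535)))) (Nat.add (Nat.shiftLeft (nat_lit 1) (Nat.land (Nat.shiftRight (V (nat_lit 18)) (S (nat_lit 8))) (nat_lit 65535))) (Nat.shiftLeft (nat_lit 1) (Nat.land (Nat.shiftRight (V (nat_lit 18)) (S (nat_lit 12))) (nat_lit 65535))))))))) (Nat.add (Nat.add (Nat.add (Nat.add (Nat.add (Nat.shiftLeft (nat_lit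 1) (Nat.land (Nat.shiftRight (V (nat_lit 18)) (S (nat_lit 14))) (nat_lit 65535))) (Nat.add (Nat.shiftLeft (nat_lit 1) (Nat.land (Nat.shiftRight (V (nat_lit 18)) (S (nat_lit 27))) (nat_lit 65535))) (Nat.shiftLeft (nat_lit 1) (Nat.land (Nat.shiftRight (V (nat_lit 18)) (S (nat_lit 30))) (nat_lit 65535))))) (Nat.add (Nat.add (Nat.shiftLeft (nat_lit 1) (Nat.land (Nat.shiftRight (V (nat_lit 20)) (S (nat_lit 8))) (nat_lit 65535))) (Nat.shiftLeft (nat_lit 1) (Nat.land (Nat.shiftRight (V (nat_lit 20)) (S (nat_lit 13))) (nat_lit 65535)))) (Nat.add (Nat.shiftLeft (nat_lit 1) (Nat.land (Nat.shiftRight (V (nat_lit 20)) (S (nat_lit 14))) (nat_lit 65535))) (Nat.shiftLeft (nat_lit 1) (Nat.land (Nat.shiftRight (V (nat_lit 20)) (S (nat_lit 53))) (nat_lit 65535)))))) (Nat.add (Nat.add (Nat.add (Nat.shiftLeft (nat_lit 1) (Nat.land (Nat.shiftRight (V (nat_lit 20)) (S (nat_lit 59))) (nat_lit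 65535))) (Nat.shiftLeft (nat_lit 1) (Nat.land (Nat.shiftRight (V (nat_lit 21)) (S (nat_lit 11))) (nat_lit 65535)))) (Nat.add (Nat.shiftLeft (nat_lit 1) (Nat.land (Nat.shiftRight (V (nat_lit 21)) (S (nat_lit 12))) (nat_lit 65535))) (Nat.shiftLeft (nat_lit 1) (Nat.land (Nat.shiftRight (V (nat_lit 21)) (S (nat_lit 13))) (nat_lit 65535))))) (Nat.add (Nat.add (Nat.shiftLeft (nat_lit 1) (Nat.land (Nat.shiftRight (V (nat_lit 21)) (S (nat_lit 27))) (nat_lit 65535))) (Nat.shiftLeft (nat_lit 1) (Nat.land (Nat.shiftRight (V (nat_lit 21)) (S (nat_lit 33))) (nat_lit 65535)))) (Nat.add (Nat.shiftLeft (nat_lit 1) (Nat.land (Nat.shiftRight (V (nat_lit 23)) (S (nat_lit 11))) (nat_lit 65535))) (Nat.shiftLeft (nat_lit 1) (Nat.land (Nat.shiftRight (V (nat_lit 23)) (S (nat_lit 13))) (nat_lit 65535))))))) (Nat.add (Nat.add (Nat.add (Nat.shiftLeft (nat_lit 1) (Nat.land (Nat.shiftRight (V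 (nat_lit 23)) (S (nat_lit 14))) (nat_lit 65535))) (Nat.add (Nat.shiftLeft (nat_lit 1) (Nat.land (Nat.shiftRight (V (nat_lit 23)) (S (nat_lit 41))) (nat_lit 65535))) (Nat.shiftLeft (nat_lit 1) (Nat.land (Nat.shiftRight (V (nat_lit 23)) (S (nat_lit 47))) (nat_lit 65535))))) (Nat.add (Nat.add (Nat.shiftLeft (nat_lit 1) (Nat.land (Nat.shiftRight (V (nat_lit 25)) (S (nat_lit 11))) (nat_lit 65535))) (Nat.shiftLeft (nat_lit 1) (Nat.land (Nat.shiftRight (V (nat_lit 25)) (S (nat_lit 12))) (nat_lit 65535)))) (Nat.add (Nat.shiftLeft (nat_lit 1) (Nat.land (Nat.shiftRight (V (nat_lit 25)) (S (nat_lit 13))) (nat_lit 65535))) (Nat.shiftLeft (nat_lit 1) (Nat.land (Nat.shiftRight (V (nat_lit 25)) (S (nat_lit 27))) (nat_lit 65535)))))) (Nat.add (Nat.add (Nat.add (Nat.shiftLeft (nat_lit 1) (Nat.land (Nat.shiftRight (V (nat_lit 25)) (S (nat_lit 33))) (nat_lit 65535))) (Nat.shiftLeft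 (nat_lit 1) (Nat.land (Nat.shiftRight (V (nat_lit 26)) (S (nat_lit 8))) (nat_lit 65535)))) (Nat.add (Nat.shiftLeft (nat_lit 1) (Nat.land (Nat.shiftRight (V (nat_lit 26)) (S (nat_lit 12))) (nat_lit 65535))) (Nat.shiftLeft (nat_lit 1) (Nat.land (Nat.shiftRight (V (nat_lit 26)) (S (nat_lit 14))) (nat_lit 65535))))) (Nat.add (Nat.add (Nat.shiftLeft (nat_lit 1) (Nat.land (Nat.shiftRight (V (nat_lit 26)) (S (nat_lit 27))) (nat_lit 65535))) (Nat.shiftLeft (nat_lit 1) (Nat.land (Nat.shiftRight (V (nat_lit 26)) (S (nat_lit 30))) (nat_lit 65535)))) (Nat.add (Nat.shiftLeft (nat_lit 1) (Nat.land (Nat.shiftRight (V (nat_lit 27)) (S (nat_lit 18))) (nat_lit 65535))) (Nat.shiftLeft (nat_lit 1) (Nat.land (Nat.shiftRight (V (nat_lit 27)) (S (nat_lit 21))) (nat_lit 65535)))))))) (Nat.add (Nat.add (Nat.add (Nat.add (Nat.shiftLeft (nat_lit 1) (Nat.land (Nat.shiftRight (V (nat_lit 27))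 (S (nat_lit 25))) (nat_lit 65535))) (Nat.add (Nat.shiftLeft (nat_lit 1) (Nat.land (Nat.shiftRight (V (nat_lit 27)) (S (nat_lit 26))) (nat_lit 65535))) (Nat.shiftLeft (nat_lit 1) (Nat.land (Nat.shiftRight (V (nat_lit 27)) (S (nat_lit 31))) (nat_lit 65535))))) (Nat.add (Nat.add (Nat.shiftLeft (nat_lit 1) (Nat.land (Nat.shiftRight (V (nat_lit 27)) (S (nat_lit 34))) (nat_lit 65535))) (Nat.shiftLeft (nat_lit 1) (Nat.land (Nat.shiftRight (V (nat_lit 27)) (S (nat_lit 42))) (nat_lit 65535)))) (Nat.add (Nat.shiftLeft (nat_lit 1) (Nat.land (Nat.shiftRight (V (nat_lit 27)) (S (nat_lit 54))) (nat_lit 65535))) (Nat.shiftLeft (nat_lit 1) (Nat.land (Nat.shiftRight (V (nat_lit 30)) (S (nat_lit 18))) (nat_lit 65535)))))) (Nat.add (Nat.add (Nat.add (Nat.shiftLeft (nat_lit 1) (Nat.land (Nat.shiftRight (V (nat_lit 30)) (S (nat_lit 26))) (nat_lit 65535))) (Nat.shiftLeft (nat_lit 1) (Nat.land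 (Nat.shiftRight (V (nat_lit 30)) (S (nat_lit 31))) (nat_lit 65535)))) (Nat.add (Nat.shiftLeft (nat_lit 1) (Nat.land (Nat.shiftRight (V (nat_lit 30)) (S (nat_lit 32))) (nat_lit 65535))) (Nat.shiftLeft (nat_lit 1) (Nat.land (Nat.shiftRight (V (nat_lit 30)) (S (nat_lit 35))) (nat_lit 65535))))) (Nat.add (Nat.add (Nat.shiftLeft (nat_lit 1) (Nat.land (Nat.shiftRight (V (nat_lit 30)) (S (nat_lit 45))) (nat_lit 65535))) (Nat.shiftLeft (nat_lit 1) (Nat.land (Nat.shiftRight (V (nat_lit 30)) (S (nat_lit 54))) (nat_lit 65535)))) (Nat.add (Nat.shiftLeft (nat_lit 1) (Nat.land (Nat.shiftRight (V (nat_lit 30)) (S (nat_lit 57))) (nat_lit 65535))) (Nat.shiftLeft (nat_lit 1) (Nat.land (Nat.shiftRight (V (nat_lit 31)) (S (nat_lit 3))) (nat_lit 65535))))))) (Nat.add (Nat.add (Nat.add (Nat.shiftLeft (nat_lit 1) (Nat.land (Nat.shiftRight (V (nat_lit 31)) (S (nat_lit 27))) (nat_lit 65535)))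 (Nat.add (Nat.shiftLeft (nat_lit 1) (Nat.land (Nat.shiftRight (V (nat_lit 31)) (S (nat_lit 30))) (nat_lit 65535))) (Nat.shiftLeft (nat_lit 1) (Nat.land (Nat.shiftRight (V (nat_lit 31)) (S (nat_lit 55))) (nat_lit 65535))))) (Nat.add (Nat.add (Nat.shiftLeft (nat_lit 1) (Nat.land (Nat.shiftRight (V (nat_lit 31)) (S (nat_lit 59))) (nat_lit 65535))) (Nat.shiftLeft (nat_lit 1) (Nat.land (Nat.shiftRight (V (nat_lit 32)) (S (nat_lit 8))) (nat_lit 65535)))) (Nat.add (Nat.shiftLeft (nat_lit 1) (Nat.land (Nat.shiftRight (V (nat_lit 32)) (S (nat_lit 30))) (nat_lit 65535))) (Nat.shiftLeft (nat_lit 1) (Nat.land (Nat.shiftRight (V (nat_lit 32)) (S (nat_lit 33))) (nat_lit 65535)))))) (Nat.add (Nat.add (Nat.add (Nat.shiftLeft (nat_lit 1) (Nat.land (Nat.shiftRight (V (nat_lit 32)) (S (nat_lit 41))) (nat_lit 65535))) (Nat.shiftLeft (nat_lit 1) (Nat.land (Nat.shiftRight (V (nat_lit 32))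 (S (nat_lit 47))) (nat_lit 65535)))) (Nat.add (Nat.shiftLeft (nat_lit 1) (Nat.land (Nat.shiftRight (V (nat_lit 33)) (S (nat_lit 21))) (nat_lit 65535))) (Nat.shiftLeft (nat_lit 1) (Nat.land (Nat.shiftRight (V (nat_lit 33)) (S (nat_lit 25))) (nat_lit 65535))))) (Nat.add (Nat.add (Nat.shiftLeft (nat_lit 1) (Nat.land (Nat.shiftRight (V (nat_lit 33)) (S (nat_lit 32))) (nat_lit 65535))) (Nat.shiftLeft (nat_lit 1) (Nat.land (Nat.shiftRight (V (nat_lit 33)) (S (nat_lit 34))) (nat_lit 65535)))) (Nat.add (Nat.shiftLeft (nat_lit 1) (Nat.land (Nat.shiftRight (V (nat_lit 33)) (S (nat_lit 35))) (nat_lit 65535))) (Nat.shiftLeft (nat_lit 1) (Nat.land (Nat.shiftRight (V (nat_lit 33)) (S (nat_lit 42))) (nat_lit 65535)))))))))) (Nat.add (Nat.add (Nat.add (Nat.add (Nat.add (Nat.add (Nat.shiftLeft (nat_lit 1) (Nat.land (Nat.shiftRight (V (nat_lit 33)) (S (nat_lit 45))) (nat_lit 65535)))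 (Nat.add (Nat.shiftLeft (nat_lit 1) (Nat.land (Nat.shiftRight (V (nat_lit 33)) (S (nat_lit 57))) (nat_lit 65535))) (Nat.shiftLeft (nat_lit 1) (Nat.land (Nat.shiftRight (V (nat_lit 34)) (S (nat_lit 3))) (nat_lit 65535))))) (Nat.add (Nat.add (Nat.shiftLeft (nat_lit 1) (Nat.land (Nat.shiftRight (V (nat_lit 34)) (S (nat_lit 27))) (nat_lit 65535))) (Nat.shiftLeft (nat_lit 1) (Nat.land (Nat.shiftRight (V (nat_lit 34)) (S (nat_lit 33))) (nat_lit 65535)))) (Nat.add (Nat.shiftLeft (nat_lit 1) (Nat.land (Nat.shiftRight (V (nat_lit 34)) (S (nat_lit 43))) (nat_lit 65535))) (Nat.shiftLeft (nat_lit 1) (Nat.land (Nat.shiftRight (V (nat_lit 34)) (S (nat_lit 47))) (nat_lit 65535)))))) (Nat.add (Nat.add (Nat.add (Nat.shiftLeft (nat_lit 1) (Nat.land (Nat.shiftRight (V (nat_lit 35)) (S (nat_lit 11))) (nat_lit 65535))) (Nat.shiftLeft (nat_lit 1) (Nat.land (Nat.shiftRight (V (nat_lit 35))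 (S (nat_lit 30))) (nat_lit 65535)))) (Nat.add (Nat.shiftLeft (nat_lit 1) (Nat.land (Nat.shiftRight (V (nat_lit 35)) (S (nat_lit 33))) (nat_lit 65535))) (Nat.shiftLeft (nat_lit 1) (Nat.land (Nat.shiftRight (V (nat_lit 35)) (S (nat_lit 53))) (nat_lit 65535))))) (Nat.add (Nat.add (Nat.shiftLeft (nat_lit 1) (Nat.land (Nat.shiftRight (V (nat_lit 35)) (S (nat_lit 59))) (nat_lit 65535))) (Nat.shiftLeft (nat_lit 1) (Nat.land (Nat.shiftRight (V (nat_lit 36)) (S (nat_lit 3))) (nat_lit 65535)))) (Nat.add (Nat.shiftLeft (nat_lit 1) (Nat.land (Nat.shiftRight (V (nat_lit 36)) (S (nat_lit 12))) (nat_lit 65535))) (Nat.shiftLeft (nat_lit 1) (Nat.land (Nat.shiftRight (V (nat_lit 36)) (S (nat_lit 14))) (nat_lit 65535))))))) (Nat.add (Nat.add (Nat.add (Nat.shiftLeft (nat_lit 1) (Nat.land (Nat.shiftRight (V (nat_lit 36)) (S (nat_lit 41))) (nat_lit 65535))) (Nat.add (Nat.shiftLeft (nat_lit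 1) (Nat.land (Nat.shiftRight (V (nat_lit 36)) (S (nat_lit 43))) (nat_lit 65535))) (Nat.shiftLeft (nat_lit 1) (Nat.land (Nat.shiftRight (V (nat_lit 38)) (S (nat_lit 11))) (nat_lit 65535))))) (Nat.add (Nat.add (Nat.shiftLeft (nat_lit 1) (Nat.land (Nat.shiftRight (V (nat_lit 38)) (S (nat_lit 13))) (nat_lit 65535))) (Nat.shiftLeft (nat_lit 1) (Nat.land (Nat.shiftRight (V (nat_lit 38)) (S (nat_lit 14))) (nat_lit 65535)))) (Nat.add (Nat.shiftLeft (nat_lit 1) (Nat.land (Nat.shiftRight (V (nat_lit 38)) (S (nat_lit 41))) (nat_lit 65535))) (Nat.shiftLeft (nat_lit 1) (Nat.land (Nat.shiftRight (V (nat_lit 38)) (S (nat_lit 47))) (nat_lit 65535)))))) (Nat.add (Nat.add (Nat.add (Nat.shiftLeft (nat_lit 1) (Nat.land (Nat.shiftRight (V (nat_lit 41)) (S (nat_lit 17))) (nat_lit 65535))) (Nat.shiftLeft (nat_lit 1) (Nat.land (Nat.shiftRight (V (nat_lit 41)) (S (nat_lit 23))) (nat_lit 65535))))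 (Nat.add (Nat.shiftLeft (nat_lit 1) (Nat.land (Nat.shiftRight (V (nat_lit 41)) (S (nat_lit 32))) (nat_lit 65535))) (Nat.shiftLeft (nat_lit 1) (Nat.land (Nat.shiftRight (V (nat_lit 41)) (S (nat_lit 36))) (nat_lit 65535))))) (Nat.add (Nat.add (Nat.shiftLeft (nat_lit 1) (Nat.land (Nat.shiftRight (V (nat_lit 41)) (S (nat_lit 38))) (nat_lit 65535))) (Nat.shiftLeft (nat_lit 1) (Nat.land (Nat.shiftRight (V (nat_lit 41)) (S (nat_lit 44))) (nat_lit 65535)))) (Nat.add (Nat.shiftLeft (nat_lit 1) (Nat.land (Nat.shiftRight (V (nat_lit 41)) (S (nat_lit 45))) (nat_lit 65535))) (Nat.shiftLeft (nat_lit 1) (Nat.land (Nat.shiftRight (V (nat_lit 41)) (S (nat_lit 58))) (nat_lit 65535)))))))) (Nat.add (Nat.add (Nat.add (Nat.add (Nat.shiftLeft (nat_lit 1) (Nat.land (Nat.shiftRight (V (nat_lit 42)) (S (nat_lit 3))) (nat_lit 65535))) (Nat.add (Nat.shiftLeft (nat_lit 1) (Nat.land (Nat.shiftRight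 (V (nat_lit 42)) (S (nat_lit 27))) (nat_lit 65535))) (Nat.shiftLeft (nat_lit 1) (Nat.land (Nat.shiftRight (V (nat_lit 42)) (S (nat_lit 33))) (nat_lit 65535))))) (Nat.add (Nat.add (Nat.shiftLeft (nat_lit 1) (Nat.land (Nat.shiftRight (V (nat_lit 42)) (S (nat_lit 43))) (nat_lit 65535))) (Nat.shiftLeft (nat_lit 1) (Nat.land (Nat.shiftRight (V (nat_lit 42)) (S (nat_lit 47))) (nat_lit 65535)))) (Nat.add (Nat.shiftLeft (nat_lit 1) (Nat.land (Nat.shiftRight (V (nat_lit 43)) (S (nat_lit 17))) (nat_lit 65535))) (Nat.shiftLeft (nat_lit 1) (Nat.land (Nat.shiftRight (V (nat_lit 43)) (S (nat_lit 34))) (nat_lit 65535)))))) (Nat.add (Nat.add (Nat.add (Nat.shiftLeft (nat_lit 1) (Nat.land (Nat.shiftRight (V (nat_lit 43)) (S (nat_lit 36))) (nat_lit 65535))) (Nat.shiftLeft (nat_lit 1) (Nat.land (Nat.shiftRight (V (nat_lit 43)) (S (nat_lit 42))) (nat_lit 65535)))) (Nat.add (Nat.shiftLeft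 (nat_lit 1) (Nat.land (Nat.shiftRight (V (nat_lit 43)) (S (nat_lit 44))) (nat_lit 65535))) (Nat.shiftLeft (nat_lit 1) (Nat.land (Nat.shiftRight (V (nat_lit 43)) (S (nat_lit 46))) (nat_lit 65535))))) (Nat.add (Nat.add (Nat.shiftLeft (nat_lit 1) (Nat.land (Nat.shiftRight (V (nat_lit 43)) (S (nat_lit 56))) (nat_lit 65535))) (Nat.shiftLeft (nat_lit 1) (Nat.land (Nat.shiftRight (V (nat_lit 43)) (S (nat_lit 58))) (nat_lit 65535)))) (Nat.add (Nat.shiftLeft (nat_lit 1) (Nat.land (Nat.shiftRight (V (nat_lit 44)) (S (nat_lit 8))) (nat_lit 65535))) (Nat.shiftLeft (nat_lit 1) (Nat.land (Nat.shiftRight (V (nat_lit 44)) (S (nat_lit 41))) (nat_lit 65535))))))) (Nat.add (Nat.add (Nat.add (Nat.shiftLeft (nat_lit 1) (Nat.land (Nat.shiftRight (V (nat_lit 44)) (S (nat_lit 43))) (nat_lit 65535))) (Nat.add (Nat.shiftLeft (nat_lit 1) (Nat.land (Nat.shiftRight (V (nat_lit 44)) (S (nat_lit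 55))) (nat_lit 65535))) (Nat.shiftLeft (nat_lit 1) (Nat.land (Nat.shiftRight (V (nat_lit 44)) (S (nat_lit 59))) (nat_lit 65535))))) (Nat.add (Nat.add (Nat.shiftLeft (nat_lit 1) (Nat.land (Nat.shiftRight (V (nat_lit 45)) (S (nat_lit 8))) (nat_lit 65535))) (Nat.shiftLeft (nat_lit 1) (Nat.land (Nat.shiftRight (V (nat_lit 45)) (S (nat_lit 30))) (nat_lit 65535)))) (Nat.add (Nat.shiftLeft (nat_lit 1) (Nat.land (Nat.shiftRight (V (nat_lit 45)) (S (nat_lit 33))) (nat_lit 65535))) (Nat.shiftLeft (nat_lit 1) (Nat.land (Nat.shiftRight (V (nat_lit 45)) (S (nat_lit 41))) (nat_lit 65535)))))) (Nat.add (Nat.add (Nat.add (Nat.shiftLeft (nat_lit 1) (Nat.land (Nat.shiftRight (V (nat_lit 45)) (S (nat_lit 47))) (nat_lit 65535))) (Nat.shiftLeft (nat_lit 1) (Nat.land (Nat.shiftRight (V (nat_lit 46)) (S (nat_lit 11))) (nat_lit 65535)))) (Nat.add (Nat.shiftLeft (nat_lit 1) (Nat.land (Nat.shiftRight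 (V (nat_lit 46)) (S (nat_lit 43))) (nat_lit 65535))) (Nat.shiftLeft (nat_lit 1) (Nat.land (Nat.shiftRight (V (nat_lit 46)) (S (nat_lit 47))) (nat_lit 65535))))) (Nat.add (Nat.add (Nat.shiftLeft (nat_lit 1) (Nat.land (Nat.shiftRight (V (nat_lit 46)) (S (nat_lit 53))) (nat_lit 65535))) (Nat.shiftLeft (nat_lit 1) (Nat.land (Nat.shiftRight (V (nat_lit 46)) (S (nat_lit 55))) (nat_lit 65535)))) (Nat.add (Nat.shiftLeft (nat_lit 1) (Nat.land (Nat.shiftRight (V (nat_lit 47)) (S (nat_lit 23))) (nat_lit 65535))) (Nat.shiftLeft (nat_lit 1) (Nat.land (Nat.shiftRight (V (nat_lit 47)) (S (nat_lit 32))) (nat_lit 65535))))))))) (Nat.add (Nat.add (Nat.add (Nat.add (Nat.add (Nat.shiftLeft (nat_lit 1) (Nat.land (Nat.shiftRight (V (nat_lit 47)) (S (nat_lit 34))) (nat_lit 65535))) (Nat.add (Nat.shiftLeft (nat_lit 1) (Nat.land (Nat.shiftRight (V (nat_lit 47)) (S (nat_lit 38))) (nat_lit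 65535))) (Nat.shiftLeft (nat_lit 1) (Nat.land (Nat.shiftRight (V (nat_lit 47)) (S (nat_lit 42))) (nat_lit 65535))))) (Nat.add (Nat.add (Nat.shiftLeft (nat_lit 1) (Nat.land (Nat.shiftRight (V (nat_lit 47)) (S (nat_lit 45))) (nat_lit 65535))) (Nat.shiftLeft (nat_lit 1) (Nat.land (Nat.shiftRight (V (nat_lit 47)) (S (nat_lit 46))) (nat_lit 65535)))) (Nat.add (Nat.shiftLeft (nat_lit 1) (Nat.land (Nat.shiftRight (V (nat_lit 47)) (S (nat_lit 56))) (nat_lit 65535))) (Nat.shiftLeft (nat_lit 1) (Nat.land (Nat.shiftRight (V (nat_lit 48)) (S (nat_lit 3))) (nat_lit 65535)))))) (Nat.add (Nat.add (Nat.add (Nat.shiftLeft (nat_lit 1) (Nat.land (Nat.shiftRight (V (nat_lit 48)) (S (nat_lit 12))) (nat_lit 65535))) (Nat.shiftLeft (nat_lit 1) (Nat.land (Nat.shiftRight (V (nat_lit 48)) (S (nat_lit 13))) (nat_lit 65535)))) (Nat.add (Nat.shiftLeft (nat_lit 1) (Nat.land (Nat.shiftRight (V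 (nat_lit 48)) (S (nat_lit 53))) (nat_lit 65535))) (Nat.shiftLeft (nat_lit 1) (Nat.land (Nat.shiftRight (V (nat_lit 48)) (S (nat_lit 55))) (nat_lit 65535))))) (Nat.add (Nat.add (Nat.shiftLeft (nat_lit 1) (Nat.land (Nat.shiftRight (V (nat_lit 50)) (S (nat_lit 8))) (nat_lit 65535))) (Nat.shiftLeft (nat_lit 1) (Nat.land (Nat.shiftRight (V (nat_lit 50)) (S (nat_lit 13))) (nat_lit 65535)))) (Nat.add (Nat.shiftLeft (nat_lit 1) (Nat.land (Nat.shiftRight (V (nat_lit 50)) (S (nat_lit 14))) (nat_lit 65535))) (Nat.shiftLeft (nat_lit 1) (Nat.land (Nat.shiftRight (V (nat_lit 50)) (S (nat_lit 53))) (nat_lit 65535))))))) (Nat.add (Nat.add (Nat.add (Nat.shiftLeft (nat_lit 1) (Nat.land (Nat.shiftRight (V (nat_lit 50)) (S (nat_lit 59))) (nat_lit 65535))) (Nat.add (Nat.shiftLeft (nat_lit 1) (Nat.land (Nat.shiftRight (V (nat_lit 53)) (S (nat_lit 16))) (nat_lit 65535))) (Nat.shiftLeft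 (nat_lit 1) (Nat.land (Nat.shiftRight (V (nat_lit 53)) (S (nat_lit 20))) (nat_lit 65535))))) (Nat.add (Nat.add (Nat.shiftLeft (nat_lit 1) (Nat.land (Nat.shiftRight (V (nat_lit 53)) (S (nat_lit 35))) (nat_lit 65535))) (Nat.shiftLeft (nat_lit 1) (Nat.land (Nat.shiftRight (V (nat_lit 53)) (S (nat_lit 46))) (nat_lit 65535)))) (Nat.add (Nat.shiftLeft (nat_lit 1) (Nat.land (Nat.shiftRight (V (nat_lit 53)) (S (nat_lit 48))) (nat_lit 65535))) (Nat.shiftLeft (nat_lit 1) (Nat.land (Nat.shiftRight (V (nat_lit 53)) (S (nat_lit 50))) (nat_lit 65535)))))) (Nat.add (Nat.add (Nat.add (Nat.shiftLeft (nat_lit 1) (Nat.land (Nat.shiftRight (V (nat_lit 53)) (S (nat_lit 56))) (nat_lit 65535))) (Nat.shiftLeft (nat_lit 1) (Nat.land (Nat.shiftRight (V (nat_lit 53)) (S (nat_lit 57))) (nat_lit 65535)))) (Nat.add (Nat.shiftLeft (nat_lit 1) (Nat.land (Nat.shiftRight (V (nat_lit 54)) (S (nat_lit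 3))) (nat_lit 65535))) (Nat.shiftLeft (nat_lit 1) (Nat.land (Nat.shiftRight (V (nat_lit 54)) (S (nat_lit 27))) (nat_lit 65535))))) (Nat.add (Nat.add (Nat.shiftLeft (nat_lit 1) (Nat.land (Nat.shiftRight (V (nat_lit 54)) (S (nat_lit 30))) (nat_lit 65535))) (Nat.shiftLeft (nat_lit 1) (Nat.land (Nat.shiftRight (V (nat_lit 54)) (S (nat_lit 55))) (nat_lit 65535)))) (Nat.add (Nat.shiftLeft (nat_lit 1) (Nat.land (Nat.shiftRight (V (nat_lit 54)) (S (nat_lit 59))) (nat_lit 65535))) (Nat.shiftLeft (nat_lit 1) (Nat.land (Nat.shiftRight (V (nat_lit 55)) (S (nat_lit 16))) (nat_lit 65535)))))))) (Nat.add (Nat.add (Nat.add (Nat.add (Nat.shiftLeft (nat_lit 1) (Nat.land (Nat.shiftRight (V (nat_lit 55)) (S (nat_lit 31))) (nat_lit 65535))) (Nat.add (Nat.shiftLeft (nat_lit 1) (Nat.land (Nat.shiftRight (V (nat_lit 55)) (S (nat_lit 44))) (nat_lit 65535))) (Nat.shiftLeft (nat_lit 1) (Nat.land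 (Nat.shiftRight (V (nat_lit 55)) (S (nat_lit 46))) (nat_lit 65535))))) (Nat.add (Nat.add (Nat.shiftLeft (nat_lit 1) (Nat.land (Nat.shiftRight (V (nat_lit 55)) (S (nat_lit 48))) (nat_lit 65535))) (Nat.shiftLeft (nat_lit 1) (Nat.land (Nat.shiftRight (V (nat_lit 55)) (S (nat_lit 54))) (nat_lit 65535)))) (Nat.add (Nat.shiftLeft (nat_lit 1) (Nat.land (Nat.shiftRight (V (nat_lit 55)) (S (nat_lit 56))) (nat_lit 65535))) (Nat.shiftLeft (nat_lit 1) (Nat.land (Nat.shiftRight (V (nat_lit 55)) (S (nat_lit 58))) (nat_lit 65535)))))) (Nat.add (Nat.add (Nat.add (Nat.shiftLeft (nat_lit 1) (Nat.land (Nat.shiftRight (V (nat_lit 56)) (S (nat_lit 11))) (nat_lit 65535))) (Nat.shiftLeft (nat_lit 1) (Nat.land (Nat.shiftRight (V (nat_lit 56)) (S (nat_lit 43))) (nat_lit 65535)))) (Nat.add (Nat.shiftLeft (nat_lit 1) (Nat.land (Nat.shiftRight (V (nat_lit 56)) (S (nat_lit 47))) (nat_lit 65535)))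 (Nat.shiftLeft (nat_lit 1) (Nat.land (Nat.shiftRight (V (nat_lit 56)) (S (nat_lit 53))) (nat_lit 65535))))) (Nat.add (Nat.add (Nat.shiftLeft (nat_lit 1) (Nat.land (Nat.shiftRight (V (nat_lit 56)) (S (nat_lit 55))) (nat_lit 65535))) (Nat.shiftLeft (nat_lit 1) (Nat.land (Nat.shiftRight (V (nat_lit 57)) (S (nat_lit 11))) (nat_lit 65535)))) (Nat.add (Nat.shiftLeft (nat_lit 1) (Nat.land (Nat.shiftRight (V (nat_lit 57)) (S (nat_lit 30))) (nat_lit 65535))) (Nat.shiftLeft (nat_lit 1) (Nat.land (Nat.shiftRight (V (nat_lit 57)) (S (nat_lit 33))) (nat_lit 65535))))))) (Nat.add (Nat.add (Nat.add (Nat.shiftLeft (nat_lit 1) (Nat.land (Nat.shiftRight (V (nat_lit 57)) (S (nat_lit 53))) (nat_lit 65535))) (Nat.add (Nat.shiftLeft (nat_lit 1) (Nat.land (Nat.shiftRight (V (nat_lit 57)) (S (nat_lit 59))) (nat_lit 65535))) (Nat.shiftLeft (nat_lit 1) (Nat.land (Nat.shiftRight (V (nat_lit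 58)) (S (nat_lit 8))) (nat_lit 65535))))) (Nat.add (Nat.add (Nat.shiftLeft (nat_lit 1) (Nat.land (Nat.shiftRight (V (nat_lit 58)) (S (nat_lit 41))) (nat_lit 65535))) (Nat.shiftLeft (nat_lit 1) (Nat.land (Nat.shiftRight (V (nat_lit 58)) (S (nat_lit 43))) (nat_lit 65535)))) (Nat.add (Nat.shiftLeft (nat_lit 1) (Nat.land (Nat.shiftRight (V (nat_lit 58)) (S (nat_lit 55))) (nat_lit 65535))) (Nat.shiftLeft (nat_lit 1) (Nat.land (Nat.shiftRight (V (nat_lit 58)) (S (nat_lit 59))) (nat_lit 65535)))))) (Nat.add (Nat.add (Nat.add (Nat.shiftLeft (nat_lit 1) (Nat.land (Nat.shiftRight (V (nat_lit 59)) (S (nat_lit 20))) (nat_lit 65535))) (Nat.shiftLeft (nat_lit 1) (Nat.land (Nat.shiftRight (V (nat_lit 59)) (S (nat_lit 31))) (nat_lit 65535)))) (Nat.add (Nat.shiftLeft (nat_lit 1) (Nat.land (Nat.shiftRight (V (nat_lit 59)) (S (nat_lit 35))) (nat_lit 65535))) (Nat.shiftLeft (nat_lit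 1) (Nat.land (Nat.shiftRight (V (nat_lit 59)) (S (nat_lit 44))) (nat_lit 65535))))) (Nat.add (Nat.add (Nat.shiftLeft (nat_lit 1) (Nat.land (Nat.shiftRight (V (nat_lit 59)) (S (nat_lit 50))) (nat_lit 65535))) (Nat.shiftLeft (nat_lit 1) (Nat.land (Nat.shiftRight (V (nat_lit 59)) (S (nat_lit 54))) (nat_lit 65535)))) (Nat.add (Nat.shiftLeft (nat_lit 1) (Nat.land (Nat.shiftRight (V (nat_lit 59)) (S (nat_lit 57))) (nat_lit 65535))) (Nat.shiftLeft (nat_lit 1) (Nat.land (Nat.shiftRight (V (nat_lit 59)) (S (nat_lit 58))) (nat_lit 65535))))))))))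
def E21_0 (V S : ℕ → ℕ) : ℕ := Nat.add (Nat.add (Nat.add (Nat.add (Nat.add (Nat.add (Nat.add (Nat.shiftLeft (nat_lit 1) (Nat.land (Nat.shiftRight (V (nat_lit 3)) (S (nat_lit 18))) (nat_lit 65535))) (Nat.add (Nat.shiftLeft (nat_lit 1) (Nat.land (Nat.shiftRight (V (nat_lit 3)) (S (nat_lit 21))) (nat_lit 65535))) (Nat.shiftLeft (nat_lit 1) (Nat.land (Nat.shiftRight (V (nat_lit 3)) (S (nat_lit 25))) (nat_lit 65535))))) (Nat.add (Nat.add (Nat.shiftLeft (nat_lit 1) (Nat.land (Nat.shiftRight (V (nat_lit 3)) (S (nat_lit 26))) (nat_lit 65535))) (Nat.shiftLeft (nat_lit 1) (Nat.land (Nat.shiftRight (V (nat_lit 3)) (S (nat_lit 44))) (nat_lit 65535)))) (Nat.add (Nat.shiftLeft (nat_lit 1) (Nat.land (Nat.shiftRight (V (nat_lit 3)) (S (nat_lit 46))) (nat_lit 65535))) (Nat.shiftLeft (nat_lit 1) (Nat.land (Nat.shiftRight (V (nat_lit 3)) (S (nat_lit 56))) (nat_lit 65535)))))) (Nat.add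 (Nat.add (Nat.add (Nat.shiftLeft (nat_lit 1) (Nat.land (Nat.shiftRight (V (nat_lit 3)) (S (nat_lit 58))) (nat_lit 65535))) (Nat.shiftLeft (nat_lit 1) (Nat.land (Nat.shiftRight (V (nat_lit 8)) (S (nat_lit 17))) (nat_lit 65535)))) (Nat.add (Nat.shiftLeft (nat_lit 1) (Nat.land (Nat.shiftRight (V (nat_lit 8)) (S (nat_lit 23))) (nat_lit 65535))) (Nat.shiftLeft (nat_lit 1) (Nat.land (Nat.shiftRight (V (nat_lit 8)) (S (nat_lit 31))) (nat_lit 65535))))) (Nat.add (Nat.add (Nat.shiftLeft (nat_lit 1) (Nat.land (Nat.shiftRight (V (nat_lit 8)) (S (nat_lit 35))) (nat_lit 65535))) (Nat.shiftLeft (nat_lit 1) (Nat.land (Nat.shiftRight (V (nat_lit 8)) (S (nat_lit 36))) (nat_lit 65535)))) (Nat.add (Nat.shiftLeft (nat_lit 1) (Nat.land (Nat.shiftRight (V (nat_lit 8)) (S (nat_lit 38))) (nat_lit 65535))) (Nat.shiftLeft (nat_lit 1) (Nat.land (Nat.shiftRight (V (nat_lit 8)) (S (nat_lit 54)))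 (nat_lit 65535))))))) (Nat.add (Nat.add (Nat.add (Nat.shiftLeft (nat_lit 1) (Nat.land (Nat.shiftRight (V (nat_lit 8)) (S (nat_lit 57))) (nat_lit 65535))) (Nat.add (Nat.shiftLeft (nat_lit 1) (Nat.land (Nat.shiftRight (V (nat_lit 11)) (S (nat_lit 16))) (nat_lit 65535))) (Nat.shiftLeft (nat_lit 1) (Nat.land (Nat.shiftRight (V (nat_lit 11)) (S (nat_lit 20))) (nat_lit 65535))))) (Nat.add (Nat.add (Nat.shiftLeft (nat_lit 1) (Nat.land (Nat.shiftRight (V (nat_lit 11)) (S (nat_lit 32))) (nat_lit 65535))) (Nat.shiftLeft (nat_lit 1) (Nat.land (Nat.shiftRight (V (nat_lit 11)) (S (nat_lit 34))) (nat_lit 65535)))) (Nat.add (Nat.shiftLeft (nat_lit 1) (Nat.land (Nat.shiftRight (V (nat_lit 11)) (S (nat_lit 42))) (nat_lit 65535))) (Nat.shiftLeft (nat_lit 1) (Nat.land (Nat.shiftRight (V (nat_lit 11)) (S (nat_lit 45))) (nat_lit 65535)))))) (Nat.add (Nat.add (Nat.add (Nat.shiftLeft (nat_lit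 1) (Nat.land (Nat.shiftRight (V (nat_lit 11)) (S (nat_lit 48))) (nat_lit 65535))) (Nat.shiftLeft (nat_lit 1) (Nat.land (Nat.shiftRight (V (nat_lit 11)) (S (nat_lit 50))) (nat_lit 65535)))) (Nat.add (Nat.shiftLeft (nat_lit 1) (Nat.land (Nat.shiftRight (V (nat_lit 12)) (S (nat_lit 20))) (nat_lit 65535))) (Nat.shiftLeft (nat_lit 1) (Nat.land (Nat.shiftRight (V (nat_lit 12)) (S (nat_lit 23))) (nat_lit 65535))))) (Nat.add (Nat.add (Nat.shiftLeft (nat_lit 1) (Nat.land (Nat.shiftRight (V (nat_lit 12)) (S (nat_lit 31))) (nat_lit 65535))) (Nat.shiftLeft (nat_lit 1) (Nat.land (Nat.shiftRight (V (nat_lit 12)) (S (nat_lit 34))) (nat_lit 65535)))) (Nat.add (Nat.shiftLeft (nat_lit 1) (Nat.land (Nat.shiftRight (V (nat_lit 12)) (S (nat_lit 38))) (nat_lit 65535))) (Nat.shiftLeft (nat_lit 1) (Nat.land (Nat.shiftRight (V (nat_lit 12)) (S (nat_lit 42))) (nat_lit 65535)))))))) (Nat.add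 (Nat.add (Nat.add (Nat.add (Nat.shiftLeft (nat_lit 1) (Nat.land (Nat.shiftRight (V (nat_lit 12)) (S (nat_lit 50))) (nat_lit 65535))) (Nat.add (Nat.shiftLeft (nat_lit 1) (Nat.land (Nat.shiftRight (V (nat_lit 12)) (S (nat_lit 54))) (nat_lit 65535))) (Nat.shiftLeft (nat_lit 1) (Nat.land (Nat.shiftRight (V (nat_lit 13)) (S (nat_lit 17))) (nat_lit 65535))))) (Nat.add (Nat.add (Nat.shiftLeft (nat_lit 1) (Nat.land (Nat.shiftRight (V (nat_lit 13)) (S (nat_lit 18))) (nat_lit 65535))) (Nat.shiftLeft (nat_lit 1) (Nat.land (Nat.shiftRight (V (nat_lit 13)) (S (nat_lit 26))) (nat_lit 65535)))) (Nat.add (Nat.shiftLeft (nat_lit 1) (Nat.land (Nat.shiftRight (V (nat_lit 13)) (S (nat_lit 35))) (nat_lit 65535))) (Nat.shiftLeft (nat_lit 1) (Nat.land (Nat.shiftRight (V (nat_lit 13)) (S (nat_lit 36))) (nat_lit 65535)))))) (Nat.add (Nat.add (Nat.add (Nat.shiftLeft (nat_lit 1) (Nat.land (Nat.shiftRight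 (V (nat_lit 13)) (S (nat_lit 46))) (nat_lit 65535))) (Nat.shiftLeft (nat_lit 1) (Nat.land (Nat.shiftRight (V (nat_lit 13)) (S (nat_lit 56))) (nat_lit 65535)))) (Nat.add (Nat.shiftLeft (nat_lit 1) (Nat.land (Nat.shiftRight (V (nat_lit 13)) (S (nat_lit 57))) (nat_lit 65535))) (Nat.shiftLeft (nat_lit 1) (Nat.land (Nat.shiftRight (V (nat_lit 14)) (S (nat_lit 16))) (nat_lit 65535))))) (Nat.add (Nat.add (Nat.shiftLeft (nat_lit 1) (Nat.land (Nat.shiftRight (V (nat_lit 14)) (S (nat_lit 21))) (nat_lit 65535))) (Nat.shiftLeft (nat_lit 1) (Nat.land (Nat.shiftRight (V (nat_lit 14)) (S (nat_lit 25))) (nat_lit 65535)))) (Nat.add (Nat.shiftLeft (nat_lit 1) (Nat.land (Nat.shiftRight (V (nat_lit 14)) (S (nat_lit 32))) (nat_lit 65535))) (Nat.shiftLeft (nat_lit 1) (Nat.land (Nat.shiftRight (V (nat_lit 14)) (S (nat_lit 44))) (nat_lit 65535))))))) (Nat.add (Nat.add (Nat.add (Nat.shiftLeft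 (nat_lit 1) (Nat.land (Nat.shiftRight (V (nat_lit 14)) (S (nat_lit 45))) (nat_lit 65535))) (Nat.add (Nat.shiftLeft (nat_lit 1) (Nat.land (Nat.shiftRight (V (nat_lit 14)) (S (nat_lit 48))) (nat_lit 65535))) (Nat.shiftLeft (nat_lit 1) (Nat.land (Nat.shiftRight (V (nat_lit 14)) (S (nat_lit 58))) (nat_lit 65535))))) (Nat.add (Nat.add (Nat.shiftLeft (nat_lit 1) (Nat.land (Nat.shiftRight (V (nat_lit 16)) (S (nat_lit 11))) (nat_lit 65535))) (Nat.shiftLeft (nat_lit 1) (Nat.land (Nat.shiftRight (V (nat_lit 16)) (S (nat_lit 14))) (nat_lit 65535)))) (Nat.add (Nat.shiftLeft (nat_lit 1) (Nat.land (Nat.shiftRight (V (nat_lit 16)) (S (nat_lit 27))) (nat_lit 65535))) (Nat.shiftLeft (nat_lit 1) (Nat.land (Nat.shiftRight (V (nat_lit 16)) (S (nat_lit 43))) (nat_lit 65535)))))) (Nat.add (Nat.add (Nat.add (Nat.shiftLeft (nat_lit 1) (Nat.land (Nat.shiftRight (V (nat_lit 16)) (S (nat_lit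 59))) (nat_lit 65535))) (Nat.shiftLeft (nat_lit 1) (Nat.land (Nat.shiftRight (V (nat_lit 17)) (S (nat_lit 8))) (nat_lit 65535)))) (Nat.add (Nat.shiftLeft (nat_lit 1) (Nat.land (Nat.shiftRight (V (nat_lit 17)) (S (nat_lit 13))) (nat_lit 65535))) (Nat.shiftLeft (nat_lit 1) (Nat.land (Nat.shiftRight (V (nat_lit 17)) (S (nat_lit 27))) (nat_lit 65535))))) (Nat.add (Nat.add (Nat.shiftLeft (nat_lit 1) (Nat.land (Nat.shiftRight (V (nat_lit 17)) (S (nat_lit 47))) (nat_lit 65535))) (Nat.shiftLeft (nat_lit 1) (Nat.land (Nat.shiftRight (V (nat_lit 17)) (S (nat_lit 55))) (nat_lit 65535)))) (Nat.add (Nat.shiftLeft (nat_lit 1) (Nat.land (Nat.shiftRight (V (nat_lit 18)) (S (nat_lit 3))) (nat_lit 65535))) (Nat.shiftLeft (nat_lit 1) (Nat.land (Nat.shiftRight (V (nat_lit 18)) (S (nat_lit 13))) (nat_lit 65535))))))))) (Nat.add (Nat.add (Nat.add (Nat.add (Nat.add (Nat.shiftLeft (nat_lit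 1) (Nat.land (Nat.shiftRight (V (nat_lit 18)) (S (nat_lit 33))) (nat_lit 65535))) (Nat.add (Nat.shiftLeft (nat_lit 1) (Nat.land (Nat.shiftRight (V (nat_lit 18)) (S (nat_lit 41))) (nat_lit 65535))) (Nat.shiftLeft (nat_lit 1) (Nat.land (Nat.shiftRight (V (nat_lit 18)) (S (nat_lit 59))) (nat_lit 65535))))) (Nat.add (Nat.add (Nat.shiftLeft (nat_lit 1) (Nat.land (Nat.shiftRight (V (nat_lit 20)) (S (nat_lit 11))) (nat_lit 65535))) (Nat.shiftLeft (nat_lit 1) (Nat.land (Nat.shiftRight (V (nat_lit 20)) (S (nat_lit 12))) (nat_lit 65535)))) (Nat.add (Nat.shiftLeft (nat_lit 1) (Nat.land (Nat.shiftRight (V (nat_lit 20)) (S (nat_lit 30))) (nat_lit 65535))) (Nat.shiftLeft (nat_lit 1) (Nat.land (Nat.shiftRight (V (nat_lit 20)) (S (nat_lit 41))) (nat_lit 65535)))))) (Nat.add (Nat.add (Nat.add (Nat.shiftLeft (nat_lit 1) (Nat.land (Nat.shiftRight (V (nat_lit 20)) (S (nat_lit 55))) (nat_lit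 65535))) (Nat.shiftLeft (nat_lit 1) (Nat.land (Nat.shiftRight (V (nat_lit 21)) (S (nat_lit 3))) (nat_lit 65535)))) (Nat.add (Nat.shiftLeft (nat_lit 1) (Nat.land (Nat.shiftRight (V (nat_lit 21)) (S (nat_lit 14))) (nat_lit 65535))) (Nat.shiftLeft (nat_lit 1) (Nat.land (Nat.shiftRight (V (nat_lit 21)) (S (nat_lit 30))) (nat_lit 65535))))) (Nat.add (Nat.add (Nat.shiftLeft (nat_lit 1) (Nat.land (Nat.shiftRight (V (nat_lit 21)) (S (nat_lit 47))) (nat_lit 65535))) (Nat.shiftLeft (nat_lit 1) (Nat.land (Nat.shiftRight (V (nat_lit 21)) (S (nat_lit 53))) (nat_lit 65535)))) (Nat.add (Nat.shiftLeft (nat_lit 1) (Nat.land (Nat.shiftRight (V (nat_lit 23)) (S (nat_lit 8))) (nat_lit 65535))) (Nat.shiftLeft (nat_lit 1) (Nat.land (Nat.shiftRight (V (nat_lit 23)) (S (nat_lit 12))) (nat_lit 65535))))))) (Nat.add (Nat.add (Nat.add (Nat.shiftLeft (nat_lit 1) (Nat.land (Nat.shiftRight (V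 (nat_lit 23)) (S (nat_lit 33))) (nat_lit 65535))) (Nat.add (Nat.shiftLeft (nat_lit 1) (Nat.land (Nat.shiftRight (V (nat_lit 23)) (S (nat_lit 43))) (nat_lit 65535))) (Nat.shiftLeft (nat_lit 1) (Nat.land (Nat.shiftRight (V (nat_lit 23)) (S (nat_lit 53))) (nat_lit 65535))))) (Nat.add (Nat.add (Nat.shiftLeft (nat_lit 1) (Nat.land (Nat.shiftRight (V (nat_lit 25)) (S (nat_lit 3))) (nat_lit 65535))) (Nat.shiftLeft (nat_lit 1) (Nat.land (Nat.shiftRight (V (nat_lit 25)) (S (nat_lit 14))) (nat_lit 65535)))) (Nat.add (Nat.shiftLeft (nat_lit 1) (Nat.land (Nat.shiftRight (V (nat_lit 25)) (S (nat_lit 30))) (nat_lit 65535))) (Nat.shiftLeft (nat_lit 1) (Nat.land (Nat.shiftRight (V (nat_lit 25)) (S (nat_lit 47))) (nat_lit 65535)))))) (Nat.add (Nat.add (Nat.add (Nat.shiftLeft (nat_lit 1) (Nat.land (Nat.shiftRight (V (nat_lit 25)) (S (nat_lit 53))) (nat_lit 65535))) (Nat.shiftLeft (nat_lit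 1) (Nat.land (Nat.shiftRight (V (nat_lit 26)) (S (nat_lit 3))) (nat_lit 65535)))) (Nat.add (Nat.shiftLeft (nat_lit 1) (Nat.land (Nat.shiftRight (V (nat_lit 26)) (S (nat_lit 13))) (nat_lit 65535))) (Nat.shiftLeft (nat_lit 1) (Nat.land (Nat.shiftRight (V (nat_lit 26)) (S (nat_lit 33))) (nat_lit 65535))))) (Nat.add (Nat.add (Nat.shiftLeft (nat_lit 1) (Nat.land (Nat.shiftRight (V (nat_lit 26)) (S (nat_lit 41))) (nat_lit 65535))) (Nat.shiftLeft (nat_lit 1) (Nat.land (Nat.shiftRight (V (nat_lit 26)) (S (nat_lit 59))) (nat_lit 65535)))) (Nat.add (Nat.shiftLeft (nat_lit 1) (Nat.land (Nat.shiftRight (V (nat_lit 27)) (S (nat_lit 16))) (nat_lit 65535))) (Nat.shiftLeft (nat_lit 1) (Nat.land (Nat.shiftRight (V (nat_lit 27)) (S (nat_lit 17))) (nat_lit 65535)))))))) (Nat.add (Nat.add (Nat.add (Nat.add (Nat.shiftLeft (nat_lit 1) (Nat.land (Nat.shiftRight (V (nat_lit 27)) (S (nat_lit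 32))) (nat_lit 65535))) (Nat.add (Nat.shiftLeft (nat_lit 1) (Nat.land (Nat.shiftRight (V (nat_lit 27)) (S (nat_lit 35))) (nat_lit 65535))) (Nat.shiftLeft (nat_lit 1) (Nat.land (Nat.shiftRight (V (nat_lit 27)) (S (nat_lit 36))) (nat_lit 65535))))) (Nat.add (Nat.add (Nat.shiftLeft (nat_lit 1) (Nat.land (Nat.shiftRight (V (nat_lit 27)) (S (nat_lit 45))) (nat_lit 65535))) (Nat.shiftLeft (nat_lit 1) (Nat.land (Nat.shiftRight (V (nat_lit 27)) (S (nat_lit 48))) (nat_lit 65535)))) (Nat.add (Nat.shiftLeft (nat_lit 1) (Nat.land (Nat.shiftRight (V (nat_lit 27)) (S (nat_lit 57))) (nat_lit 65535))) (Nat.shiftLeft (nat_lit 1) (Nat.land (Nat.shiftRight (V (nat_lit 30)) (S (nat_lit 20))) (nat_lit 65535)))))) (Nat.add (Nat.add (Nat.add (Nat.shiftLeft (nat_lit 1) (Nat.land (Nat.shiftRight (V (nat_lit 30)) (S (nat_lit 21))) (nat_lit 65535))) (Nat.shiftLeft (nat_lit 1) (Nat.land (Nat.shiftRight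 (V (nat_lit 30)) (S (nat_lit 25))) (nat_lit 65535)))) (Nat.add (Nat.shiftLeft (nat_lit 1) (Nat.land (Nat.shiftRight (V (nat_lit 30)) (S (nat_lit 34))) (nat_lit 65535))) (Nat.shiftLeft (nat_lit 1) (Nat.land (Nat.shiftRight (V (nat_lit 30)) (S (nat_lit 42))) (nat_lit 65535))))) (Nat.add (Nat.add (Nat.shiftLeft (nat_lit 1) (Nat.land (Nat.shiftRight (V (nat_lit 30)) (S (nat_lit 44))) (nat_lit 65535))) (Nat.shiftLeft (nat_lit 1) (Nat.land (Nat.shiftRight (V (nat_lit 30)) (S (nat_lit 50))) (nat_lit 65535)))) (Nat.add (Nat.shiftLeft (nat_lit 1) (Nat.land (Nat.shiftRight (V (nat_lit 30)) (S (nat_lit 58))) (nat_lit 65535))) (Nat.shiftLeft (nat_lit 1) (Nat.land (Nat.shiftRight (V (nat_lit 31)) (S (nat_lit 8))) (nat_lit 65535))))))) (Nat.add (Nat.add (Nat.add (Nat.shiftLeft (nat_lit 1) (Nat.land (Nat.shiftRight (V (nat_lit 31)) (S (nat_lit 12))) (nat_lit 65535))) (Nat.add (Nat.shiftLeft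 (nat_lit 1) (Nat.land (Nat.shiftRight (V (nat_lit 31)) (S (nat_lit 33))) (nat_lit 65535))) (Nat.shiftLeft (nat_lit 1) (Nat.land (Nat.shiftRight (V (nat_lit 31)) (S (nat_lit 43))) (nat_lit 65535))))) (Nat.add (Nat.add (Nat.shiftLeft (nat_lit 1) (Nat.land (Nat.shiftRight (V (nat_lit 31)) (S (nat_lit 53))) (nat_lit 65535))) (Nat.shiftLeft (nat_lit 1) (Nat.land (Nat.shiftRight (V (nat_lit 32)) (S (nat_lit 11))) (nat_lit 65535)))) (Nat.add (Nat.shiftLeft (nat_lit 1) (Nat.land (Nat.shiftRight (V (nat_lit 32)) (S (nat_lit 14))) (nat_lit 65535))) (Nat.shiftLeft (nat_lit 1) (Nat.land (Nat.shiftRight (V (nat_lit 32)) (S (nat_lit 27))) (nat_lit 65535)))))) (Nat.add (Nat.add (Nat.add (Nat.shiftLeft (nat_lit 1) (Nat.land (Nat.shiftRight (V (nat_lit 32)) (S (nat_lit 43))) (nat_lit 65535))) (Nat.shiftLeft (nat_lit 1) (Nat.land (Nat.shiftRight (V (nat_lit 32)) (S (nat_lit 59))) (nat_lit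 65535)))) (Nat.add (Nat.shiftLeft (nat_lit 1) (Nat.land (Nat.shiftRight (V (nat_lit 33)) (S (nat_lit 18))) (nat_lit 65535))) (Nat.shiftLeft (nat_lit 1) (Nat.land (Nat.shiftRight (V (nat_lit 33)) (S (nat_lit 23))) (nat_lit 65535))))) (Nat.add (Nat.add (Nat.shiftLeft (nat_lit 1) (Nat.land (Nat.shiftRight (V (nat_lit 33)) (S (nat_lit 26))) (nat_lit 65535))) (Nat.shiftLeft (nat_lit 1) (Nat.land (Nat.shiftRight (V (nat_lit 33)) (S (nat_lit 31))) (nat_lit 65535)))) (Nat.add (Nat.shiftLeft (nat_lit 1) (Nat.land (Nat.shiftRight (V (nat_lit 33)) (S (nat_lit 38))) (nat_lit 65535))) (Nat.shiftLeft (nat_lit 1) (Nat.land (Nat.shiftRight (V (nat_lit 33)) (S (nat_lit 46))) (nat_lit 65535)))))))))) (Nat.add (Nat.add (Nat.add (Nat.add (Nat.add (Nat.add (Nat.shiftLeft (nat_lit 1) (Nat.land (Nat.shiftRight (V (nat_lit 33)) (S (nat_lit 54))) (nat_lit 65535))) (Nat.add (Nat.shiftLeft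 (nat_lit 1) (Nat.land (Nat.shiftRight (V (nat_lit 33)) (S (nat_lit 56))) (nat_lit 65535))) (Nat.shiftLeft (nat_lit 1) (Nat.land (Nat.shiftRight (V (nat_lit 34)) (S (nat_lit 11))) (nat_lit 65535))))) (Nat.add (Nat.add (Nat.shiftLeft (nat_lit 1) (Nat.land (Nat.shiftRight (V (nat_lit 34)) (S (nat_lit 12))) (nat_lit 65535))) (Nat.shiftLeft (nat_lit 1) (Nat.land (Nat.shiftRight (V (nat_lit 34)) (S (nat_lit 30))) (nat_lit 65535)))) (Nat.add (Nat.shiftLeft (nat_lit 1) (Nat.land (Nat.shiftRight (V (nat_lit 34)) (S (nat_lit 41))) (nat_lit 65535))) (Nat.shiftLeft (nat_lit 1) (Nat.land (Nat.shiftRight (V (nat_lit 34)) (S (nat_lit 55))) (nat_lit 65535)))))) (Nat.add (Nat.add (Nat.add (Nat.shiftLeft (nat_lit 1) (Nat.land (Nat.shiftRight (V (nat_lit 35)) (S (nat_lit 8))) (nat_lit 65535))) (Nat.shiftLeft (nat_lit 1) (Nat.land (Nat.shiftRight (V (nat_lit 35)) (S (nat_lit 13))) (nat_lit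 65535)))) (Nat.add (Nat.shiftLeft (nat_lit 1) (Nat.land (Nat.shiftRight (V (nat_lit 35)) (S (nat_lit 27))) (nat_lit 65535))) (Nat.shiftLeft (nat_lit 1) (Nat.land (Nat.shiftRight (V (nat_lit 35)) (S (nat_lit 47))) (nat_lit 65535))))) (Nat.add (Nat.add (Nat.shiftLeft (nat_lit 1) (Nat.land (Nat.shiftRight (V (nat_lit 35)) (S (nat_lit 55))) (nat_lit 65535))) (Nat.shiftLeft (nat_lit 1) (Nat.land (Nat.shiftRight (V (nat_lit 36)) (S (nat_lit 8))) (nat_lit 65535)))) (Nat.add (Nat.shiftLeft (nat_lit 1) (Nat.land (Nat.shiftRight (V (nat_lit 36)) (S (nat_lit 13))) (nat_lit 65535))) (Nat.shiftLeft (nat_lit 1) (Nat.land (Nat.shiftRight (V (nat_lit 36)) (S (nat_lit 27))) (nat_lit 65535))))))) (Nat.add (Nat.add (Nat.add (Nat.shiftLeft (nat_lit 1) (Nat.land (Nat.shiftRight (V (nat_lit 36)) (S (nat_lit 47))) (nat_lit 65535))) (Nat.add (Nat.shiftLeft (nat_lit 1) (Nat.land (Nat.shiftRight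 (V (nat_lit 36)) (S (nat_lit 55))) (nat_lit 65535))) (Nat.shiftLeft (nat_lit 1) (Nat.land (Nat.shiftRight (V (nat_lit 38)) (S (nat_lit 8))) (nat_lit 65535))))) (Nat.add (Nat.add (Nat.shiftLeft (nat_lit 1) (Nat.land (Nat.shiftRight (V (nat_lit 38)) (S (nat_lit 12))) (nat_lit 65535))) (Nat.shiftLeft (nat_lit 1) (Nat.land (Nat.shiftRight (V (nat_lit 38)) (S (nat_lit 33))) (nat_lit 65535)))) (Nat.add (Nat.shiftLeft (nat_lit 1) (Nat.land (Nat.shiftRight (V (nat_lit 38)) (S (nat_lit 43))) (nat_lit 65535))) (Nat.shiftLeft (nat_lit 1) (Nat.land (Nat.shiftRight (V (nat_lit 38)) (S (nat_lit 53))) (nat_lit 65535)))))) (Nat.add (Nat.add (Nat.add (Nat.shiftLeft (nat_lit 1) (Nat.land (Nat.shiftRight (V (nat_lit 41)) (S (nat_lit 18))) (nat_lit 65535))) (Nat.shiftLeft (nat_lit 1) (Nat.land (Nat.shiftRight (V (nat_lit 41)) (S (nat_lit 20))) (nat_lit 65535)))) (Nat.add (Nat.shiftLeft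 (nat_lit 1) (Nat.land (Nat.shiftRight (V (nat_lit 41)) (S (nat_lit 26))) (nat_lit 65535))) (Nat.shiftLeft (nat_lit 1) (Nat.land (Nat.shiftRight (V (nat_lit 41)) (S (nat_lit 34))) (nat_lit 65535))))) (Nat.add (Nat.add (Nat.shiftLeft (nat_lit 1) (Nat.land (Nat.shiftRight (V (nat_lit 41)) (S (nat_lit 42))) (nat_lit 65535))) (Nat.shiftLeft (nat_lit 1) (Nat.land (Nat.shiftRight (V (nat_lit 41)) (S (nat_lit 46))) (nat_lit 65535)))) (Nat.add (Nat.shiftLeft (nat_lit 1) (Nat.land (Nat.shiftRight (V (nat_lit 41)) (S (nat_lit 50))) (nat_lit 65535))) (Nat.shiftLeft (nat_lit 1) (Nat.land (Nat.shiftRight (V (nat_lit 41)) (S (nat_lit 56))) (nat_lit 65535)))))))) (Nat.add (Nat.add (Nat.add (Nat.add (Nat.shiftLeft (nat_lit 1) (Nat.land (Nat.shiftRight (V (nat_lit 42)) (S (nat_lit 11))) (nat_lit 65535))) (Nat.add (Nat.shiftLeft (nat_lit 1) (Nat.land (Nat.shiftRight (V (nat_lit 42))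 (S (nat_lit 12))) (nat_lit 65535))) (Nat.shiftLeft (nat_lit 1) (Nat.land (Nat.shiftRight (V (nat_lit 42)) (S (nat_lit 30))) (nat_lit 65535))))) (Nat.add (Nat.add (Nat.shiftLeft (nat_lit 1) (Nat.land (Nat.shiftRight (V (nat_lit 42)) (S (nat_lit 41))) (nat_lit 65535))) (Nat.shiftLeft (nat_lit 1) (Nat.land (Nat.shiftRight (V (nat_lit 42)) (S (nat_lit 55))) (nat_lit 65535)))) (Nat.add (Nat.shiftLeft (nat_lit 1) (Nat.land (Nat.shiftRight (V (nat_lit 43)) (S (nat_lit 16))) (nat_lit 65535))) (Nat.shiftLeft (nat_lit 1) (Nat.land (Nat.shiftRight (V (nat_lit 43)) (S (nat_lit 23))) (nat_lit 65535)))))) (Nat.add (Nat.add (Nat.add (Nat.shiftLeft (nat_lit 1) (Nat.land (Nat.shiftRight (V (nat_lit 43)) (S (nat_lit 31))) (nat_lit 65535))) (Nat.shiftLeft (nat_lit 1) (Nat.land (Nat.shiftRight (V (nat_lit 43)) (S (nat_lit 32))) (nat_lit 65535)))) (Nat.add (Nat.shiftLeft (nat_lit 1) (Nat.land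 (Nat.shiftRight (V (nat_lit 43)) (S (nat_lit 38))) (nat_lit 65535))) (Nat.shiftLeft (nat_lit 1) (Nat.land (Nat.shiftRight (V (nat_lit 43)) (S (nat_lit 45))) (nat_lit 65535))))) (Nat.add (Nat.add (Nat.shiftLeft (nat_lit 1) (Nat.land (Nat.shiftRight (V (nat_lit 43)) (S (nat_lit 48))) (nat_lit 65535))) (Nat.shiftLeft (nat_lit 1) (Nat.land (Nat.shiftRight (V (nat_lit 43)) (S (nat_lit 54))) (nat_lit 65535)))) (Nat.add (Nat.shiftLeft (nat_lit 1) (Nat.land (Nat.shiftRight (V (nat_lit 44)) (S (nat_lit 3))) (nat_lit 65535))) (Nat.shiftLeft (nat_lit 1) (Nat.land (Nat.shiftRight (V (nat_lit 44)) (S (nat_lit 14))) (nat_lit 65535))))))) (Nat.add (Nat.add (Nat.add (Nat.shiftLeft (nat_lit 1) (Nat.land (Nat.shiftRight (V (nat_lit 44)) (S (nat_lit 30))) (nat_lit 65535))) (Nat.add (Nat.shiftLeft (nat_lit 1) (Nat.land (Nat.shiftRight (V (nat_lit 44)) (S (nat_lit 47))) (nat_lit 65535)))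 (Nat.shiftLeft (nat_lit 1) (Nat.land (Nat.shiftRight (V (nat_lit 44)) (S (nat_lit 53))) (nat_lit 65535))))) (Nat.add (Nat.add (Nat.shiftLeft (nat_lit 1) (Nat.land (Nat.shiftRight (V (nat_lit 45)) (S (nat_lit 11))) (nat_lit 65535))) (Nat.shiftLeft (nat_lit 1) (Nat.land (Nat.shiftRight (V (nat_lit 45)) (S (nat_lit 14))) (nat_lit 65535)))) (Nat.add (Nat.shiftLeft (nat_lit 1) (Nat.land (Nat.shiftRight (V (nat_lit 45)) (S (nat_lit 27))) (nat_lit 65535))) (Nat.shiftLeft (nat_lit 1) (Nat.land (Nat.shiftRight (V (nat_lit 45)) (S (nat_lit 43))) (nat_lit 65535)))))) (Nat.add (Nat.add (Nat.add (Nat.shiftLeft (nat_lit 1) (Nat.land (Nat.shiftRight (V (nat_lit 45)) (S (nat_lit 59))) (nat_lit 65535))) (Nat.shiftLeft (nat_lit 1) (Nat.land (Nat.shiftRight (V (nat_lit 46)) (S (nat_lit 3))) (nat_lit 65535)))) (Nat.add (Nat.shiftLeft (nat_lit 1) (Nat.land (Nat.shiftRight (V (nat_lit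 46)) (S (nat_lit 13))) (nat_lit 65535))) (Nat.shiftLeft (nat_lit 1) (Nat.land (Nat.shiftRight (V (nat_lit 46)) (S (nat_lit 33))) (nat_lit 65535))))) (Nat.add (Nat.add (Nat.shiftLeft (nat_lit 1) (Nat.land (Nat.shiftRight (V (nat_lit 46)) (S (nat_lit 41))) (nat_lit 65535))) (Nat.shiftLeft (nat_lit 1) (Nat.land (Nat.shiftRight (V (nat_lit 46)) (S (nat_lit 59))) (nat_lit 65535)))) (Nat.add (Nat.shiftLeft (nat_lit 1) (Nat.land (Nat.shiftRight (V (nat_lit 47)) (S (nat_lit 17))) (nat_lit 65535))) (Nat.shiftLeft (nat_lit 1) (Nat.land (Nat.shiftRight (V (nat_lit 47)) (S (nat_lit 21))) (nat_lit 65535))))))))) (Nat.add (Nat.add (Nat.add (Nat.add (Nat.add (Nat.shiftLeft (nat_lit 1) (Nat.land (Nat.shiftRight (V (nat_lit 47)) (S (nat_lit 25))) (nat_lit 65535))) (Nat.add (Nat.shiftLeft (nat_lit 1) (Nat.land (Nat.shiftRight (V (nat_lit 47)) (S (nat_lit 35))) (nat_lit 65535))) (Nat.shiftLeft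 (nat_lit 1) (Nat.land (Nat.shiftRight (V (nat_lit 47)) (S (nat_lit 36))) (nat_lit 65535))))) (Nat.add (Nat.add (Nat.shiftLeft (nat_lit 1) (Nat.land (Nat.shiftRight (V (nat_lit 47)) (S (nat_lit 44))) (nat_lit 65535))) (Nat.shiftLeft (nat_lit 1) (Nat.land (Nat.shiftRight (V (nat_lit 47)) (S (nat_lit 57))) (nat_lit 65535)))) (Nat.add (Nat.shiftLeft (nat_lit 1) (Nat.land (Nat.shiftRight (V (nat_lit 47)) (S (nat_lit 58))) (nat_lit 65535))) (Nat.shiftLeft (nat_lit 1) (Nat.land (Nat.shiftRight (V (nat_lit 48)) (S (nat_lit 11))) (nat_lit 65535)))))) (Nat.add (Nat.add (Nat.add (Nat.shiftLeft (nat_lit 1) (Nat.land (Nat.shiftRight (V (nat_lit 48)) (S (nat_lit 14))) (nat_lit 65535))) (Nat.shiftLeft (nat_lit 1) (Nat.land (Nat.shiftRight (V (nat_lit 48)) (S (nat_lit 27))) (nat_lit 65535)))) (Nat.add (Nat.shiftLeft (nat_lit 1) (Nat.land (Nat.shiftRight (V (nat_lit 48)) (S (nat_lit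 43))) (nat_lit 65535))) (Nat.shiftLeft (nat_lit 1) (Nat.land (Nat.shiftRight (V (nat_lit 48)) (S (nat_lit 59))) (nat_lit 65535))))) (Nat.add (Nat.add (Nat.shiftLeft (nat_lit 1) (Nat.land (Nat.shiftRight (V (nat_lit 50)) (S (nat_lit 11))) (nat_lit 65535))) (Nat.shiftLeft (nat_lit 1) (Nat.land (Nat.shiftRight (V (nat_lit 50)) (S (nat_lit 12))) (nat_lit 65535)))) (Nat.add (Nat.shiftLeft (nat_lit 1) (Nat.land (Nat.shiftRight (V (nat_lit 50)) (S (nat_lit 30))) (nat_lit 65535))) (Nat.shiftLeft (nat_lit 1) (Nat.land (Nat.shiftRight (V (nat_lit 50)) (S (nat_lit 41))) (nat_lit 65535))))))) (Nat.add (Nat.add (Nat.add (Nat.shiftLeft (nat_lit 1) (Nat.land (Nat.shiftRight (V (nat_lit 50)) (S (nat_lit 55))) (nat_lit 65535))) (Nat.add (Nat.shiftLeft (nat_lit 1) (Nat.land (Nat.shiftRight (V (nat_lit 53)) (S (nat_lit 21))) (nat_lit 65535))) (Nat.shiftLeft (nat_lit 1) (Nat.land (Nat.shiftRight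 (V (nat_lit 53)) (S (nat_lit 23))) (nat_lit 65535))))) (Nat.add (Nat.add (Nat.shiftLeft (nat_lit 1) (Nat.land (Nat.shiftRight (V (nat_lit 53)) (S (nat_lit 25))) (nat_lit 65535))) (Nat.shiftLeft (nat_lit 1) (Nat.land (Nat.shiftRight (V (nat_lit 53)) (S (nat_lit 31))) (nat_lit 65535)))) (Nat.add (Nat.shiftLeft (nat_lit 1) (Nat.land (Nat.shiftRight (V (nat_lit 53)) (S (nat_lit 38))) (nat_lit 65535))) (Nat.shiftLeft (nat_lit 1) (Nat.land (Nat.shiftRight (V (nat_lit 53)) (S (nat_lit 44))) (nat_lit 65535)))))) (Nat.add (Nat.add (Nat.add (Nat.shiftLeft (nat_lit 1) (Nat.land (Nat.shiftRight (V (nat_lit 53)) (S (nat_lit 54))) (nat_lit 65535))) (Nat.shiftLeft (nat_lit 1) (Nat.land (Nat.shiftRight (V (nat_lit 53)) (S (nat_lit 58))) (nat_lit 65535)))) (Nat.add (Nat.shiftLeft (nat_lit 1) (Nat.land (Nat.shiftRight (V (nat_lit 54)) (S (nat_lit 8))) (nat_lit 65535))) (Nat.shiftLeft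 (nat_lit 1) (Nat.land (Nat.shiftRight (V (nat_lit 54)) (S (nat_lit 12))) (nat_lit 65535))))) (Nat.add (Nat.add (Nat.shiftLeft (nat_lit 1) (Nat.land (Nat.shiftRight (V (nat_lit 54)) (S (nat_lit 33))) (nat_lit 65535))) (Nat.shiftLeft (nat_lit 1) (Nat.land (Nat.shiftRight (V (nat_lit 54)) (S (nat_lit 43))) (nat_lit 65535)))) (Nat.add (Nat.shiftLeft (nat_lit 1) (Nat.land (Nat.shiftRight (V (nat_lit 54)) (S (nat_lit 53))) (nat_lit 65535))) (Nat.shiftLeft (nat_lit 1) (Nat.land (Nat.shiftRight (V (nat_lit 55)) (S (nat_lit 17))) (nat_lit 65535)))))))) (Nat.add (Nat.add (Nat.add (Nat.add (Nat.shiftLeft (nat_lit 1) (Nat.land (Nat.shiftRight (V (nat_lit 55)) (S (nat_lit 20))) (nat_lit 65535))) (Nat.add (Nat.shiftLeft (nat_lit 1) (Nat.land (Nat.shiftRight (V (nat_lit 55)) (S (nat_lit 34))) (nat_lit 65535))) (Nat.shiftLeft (nat_lit 1) (Nat.land (Nat.shiftRight (V (nat_lit 55))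 (S (nat_lit 35))) (nat_lit 65535))))) (Nat.add (Nat.add (Nat.shiftLeft (nat_lit 1) (Nat.land (Nat.shiftRight (V (nat_lit 55)) (S (nat_lit 36))) (nat_lit 65535))) (Nat.shiftLeft (nat_lit 1) (Nat.land (Nat.shiftRight (V (nat_lit 55)) (S (nat_lit 42))) (nat_lit 65535)))) (Nat.add (Nat.shiftLeft (nat_lit 1) (Nat.land (Nat.shiftRight (V (nat_lit 55)) (S (nat_lit 50))) (nat_lit 65535))) (Nat.shiftLeft (nat_lit 1) (Nat.land (Nat.shiftRight (V (nat_lit 55)) (S (nat_lit 57))) (nat_lit 65535)))))) (Nat.add (Nat.add (Nat.add (Nat.shiftLeft (nat_lit 1) (Nat.land (Nat.shiftRight (V (nat_lit 56)) (S (nat_lit 3))) (nat_lit 65535))) (Nat.shiftLeft (nat_lit 1) (Nat.land (Nat.shiftRight (V (nat_lit 56)) (S (nat_lit 13))) (nat_lit 65535)))) (Nat.add (Nat.shiftLeft (nat_lit 1) (Nat.land (Nat.shiftRight (V (nat_lit 56)) (S (nat_lit 33))) (nat_lit 65535))) (Nat.shiftLeft (nat_lit 1) (Nat.land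 (Nat.shiftRight (V (nat_lit 56)) (S (nat_lit 41))) (nat_lit 65535))))) (Nat.add (Nat.add (Nat.shiftLeft (nat_lit 1) (Nat.land (Nat.shiftRight (V (nat_lit 56)) (S (nat_lit 59))) (nat_lit 65535))) (Nat.shiftLeft (nat_lit 1) (Nat.land (Nat.shiftRight (V (nat_lit 57)) (S (nat_lit 8))) (nat_lit 65535)))) (Nat.add (Nat.shiftLeft (nat_lit 1) (Nat.land (Nat.shiftRight (V (nat_lit 57)) (S (nat_lit 13))) (nat_lit 65535))) (Nat.shiftLeft (nat_lit 1) (Nat.land (Nat.shiftRight (V (nat_lit 57)) (S (nat_lit 27))) (nat_lit 65535))))))) (Nat.add (Nat.add (Nat.add (Nat.shiftLeft (nat_lit 1) (Nat.land (Nat.shiftRight (V (nat_lit 57)) (S (nat_lit 47))) (nat_lit 65535))) (Nat.add (Nat.shiftLeft (nat_lit 1) (Nat.land (Nat.shiftRight (V (nat_lit 57)) (S (nat_lit 55))) (nat_lit 65535))) (Nat.shiftLeft (nat_lit 1) (Nat.land (Nat.shiftRight (V (nat_lit 58)) (S (nat_lit 3))) (nat_lit 65535)))))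 (Nat.add (Nat.add (Nat.shiftLeft (nat_lit 1) (Nat.land (Nat.shiftRight (V (nat_lit 58)) (S (nat_lit 14))) (nat_lit 65535))) (Nat.shiftLeft (nat_lit 1) (Nat.land (Nat.shiftRight (V (nat_lit 58)) (S (nat_lit 30))) (nat_lit 65535)))) (Nat.add (Nat.shiftLeft (nat_lit 1) (Nat.land (Nat.shiftRight (V (nat_lit 58)) (S (nat_lit 47))) (nat_lit 65535))) (Nat.shiftLeft (nat_lit 1) (Nat.land (Nat.shiftRight (V (nat_lit 58)) (S (nat_lit 53))) (nat_lit 65535)))))) (Nat.add (Nat.add (Nat.add (Nat.shiftLeft (nat_lit 1) (Nat.land (Nat.shiftRight (V (nat_lit 59)) (S (nat_lit 16))) (nat_lit 65535))) (Nat.shiftLeft (nat_lit 1) (Nat.land (Nat.shiftRight (V (nat_lit 59)) (S (nat_lit 18))) (nat_lit 65535)))) (Nat.add (Nat.shiftLeft (nat_lit 1) (Nat.land (Nat.shiftRight (V (nat_lit 59)) (S (nat_lit 26))) (nat_lit 65535))) (Nat.shiftLeft (nat_lit 1) (Nat.land (Nat.shiftRight (V (nat_lit 59))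 (S (nat_lit 32))) (nat_lit 65535))))) (Nat.add (Nat.add (Nat.shiftLeft (nat_lit 1) (Nat.land (Nat.shiftRight (V (nat_lit 59)) (S (nat_lit 45))) (nat_lit 65535))) (Nat.shiftLeft (nat_lit 1) (Nat.land (Nat.shiftRight (V (nat_lit 59)) (S (nat_lit 46))) (nat_lit 65535)))) (Nat.add (Nat.shiftLeft (nat_lit 1) (Nat.land (Nat.shiftRight (V (nat_lit 59)) (S (nat_lit 48))) (nat_lit 65535))) (Nat.shiftLeft (nat_lit 1) (Nat.land (Nat.shiftRight (V (nat_lit 59)) (S (nat_lit 56))) (nat_lit 65535))))))))))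
def E22_0 (V S : ℕ → ℕ) : ℕ := Nat.add (Nat.add (Nat.add (Nat.add (Nat.add (Nat.add (Nat.add (Nat.shiftLeft (nat_lit 1) (Nat.land (Nat.shiftRight (V (nat_lit 3)) (S (nat_lit 20))) (nat_lit 65535))) (Nat.add (Nat.shiftLeft (nat_lit 1) (Nat.land (Nat.shiftRight (V (nat_lit 3)) (S (nat_lit 23))) (nat_lit 65535))) (Nat.shiftLeft (nat_lit 1) (Nat.land (Nat.shiftRight (V (nat_lit 3)) (S (nat_lit 32))) (nat_lit 65535))))) (Nat.add (Nat.add (Nat.shiftLeft (nat_lit 1) (Nat.land (Nat.shiftRight (V (nat_lit 3)) (S (nat_lit 35))) (nat_lit 65535))) (Nat.shiftLeft (nat_lit 1) (Nat.land (Nat.shiftRight (V (nat_lit 3)) (S (nat_lit 38))) (nat_lit 65535)))) (Nat.add (Nat.shiftLeft (nat_lit 1) (Nat.land (Nat.shiftRight (V (nat_lit 3)) (S (nat_lit 45))) (nat_lit 65535))) (Nat.shiftLeft (nat_lit 1) (Nat.land (Nat.shiftRight (V (nat_lit 3)) (S (nat_lit 50))) (nat_lit 65535)))))) (Nat.add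 (Nat.add (Nat.add (Nat.shiftLeft (nat_lit 1) (Nat.land (Nat.shiftRight (V (nat_lit 3)) (S (nat_lit 57))) (nat_lit 65535))) (Nat.shiftLeft (nat_lit 1) (Nat.land (Nat.shiftRight (V (nat_lit 8)) (S (nat_lit 16))) (nat_lit 65535)))) (Nat.add (Nat.shiftLeft (nat_lit 1) (Nat.land (Nat.shiftRight (V (nat_lit 8)) (S (nat_lit 21))) (nat_lit 65535))) (Nat.shiftLeft (nat_lit 1) (Nat.land (Nat.shiftRight (V (nat_lit 8)) (S (nat_lit 25))) (nat_lit 65535))))) (Nat.add (Nat.add (Nat.shiftLeft (nat_lit 1) (Nat.land (Nat.shiftRight (V (nat_lit 8)) (S (nat_lit 34))) (nat_lit 65535))) (Nat.shiftLeft (nat_lit 1) (Nat.land (Nat.shiftRight (V (nat_lit 8)) (S (nat_lit 42))) (nat_lit 65535)))) (Nat.add (Nat.shiftLeft (nat_lit 1) (Nat.land (Nat.shiftRight (V (nat_lit 8)) (S (nat_lit 46))) (nat_lit 65535))) (Nat.shiftLeft (nat_lit 1) (Nat.land (Nat.shiftRight (V (nat_lit 8)) (S (nat_lit 48)))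 (nat_lit 65535))))))) (Nat.add (Nat.add (Nat.add (Nat.shiftLeft (nat_lit 1) (Nat.land (Nat.shiftRight (V (nat_lit 8)) (S (nat_lit 56))) (nat_lit 65535))) (Nat.add (Nat.shiftLeft (nat_lit 1) (Nat.land (Nat.shiftRight (V (nat_lit 11)) (S (nat_lit 17))) (nat_lit 65535))) (Nat.shiftLeft (nat_lit 1) (Nat.land (Nat.shiftRight (V (nat_lit 11)) (S (nat_lit 18))) (nat_lit 65535))))) (Nat.add (Nat.add (Nat.shiftLeft (nat_lit 1) (Nat.land (Nat.shiftRight (V (nat_lit 11)) (S (nat_lit 26))) (nat_lit 65535))) (Nat.shiftLeft (nat_lit 1) (Nat.land (Nat.shiftRight (V (nat_lit 11)) (S (nat_lit 31))) (nat_lit 65535)))) (Nat.add (Nat.shiftLeft (nat_lit 1) (Nat.land (Nat.shiftRight (V (nat_lit 11)) (S (nat_lit 36))) (nat_lit 65535))) (Nat.shiftLeft (nat_lit 1) (Nat.land (Nat.shiftRight (V (nat_lit 11)) (S (nat_lit 44))) (nat_lit 65535)))))) (Nat.add (Nat.add (Nat.add (Nat.shiftLeft (nat_lit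 1) (Nat.land (Nat.shiftRight (V (nat_lit 11)) (S (nat_lit 54))) (nat_lit 65535))) (Nat.shiftLeft (nat_lit 1) (Nat.land (Nat.shiftRight (V (nat_lit 11)) (S (nat_lit 58))) (nat_lit 65535)))) (Nat.add (Nat.shiftLeft (nat_lit 1) (Nat.land (Nat.shiftRight (V (nat_lit 12)) (S (nat_lit 32))) (nat_lit 65535))) (Nat.shiftLeft (nat_lit 1) (Nat.land (Nat.shiftRight (V (nat_lit 12)) (S (nat_lit 35))) (nat_lit 65535))))) (Nat.add (Nat.add (Nat.shiftLeft (nat_lit 1) (Nat.land (Nat.shiftRight (V (nat_lit 12)) (S (nat_lit 44))) (nat_lit 65535))) (Nat.shiftLeft (nat_lit 1) (Nat.land (Nat.shiftRight (V (nat_lit 12)) (S (nat_lit 45))) (nat_lit 65535)))) (Nat.add (Nat.shiftLeft (nat_lit 1) (Nat.land (Nat.shiftRight (V (nat_lit 12)) (S (nat_lit 46))) (nat_lit 65535))) (Nat.shiftLeft (nat_lit 1) (Nat.land (Nat.shiftRight (V (nat_lit 12)) (S (nat_lit 56))) (nat_lit 65535)))))))) (Nat.add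 (Nat.add (Nat.add (Nat.add (Nat.shiftLeft (nat_lit 1) (Nat.land (Nat.shiftRight (V (nat_lit 12)) (S (nat_lit 57))) (nat_lit 65535))) (Nat.add (Nat.shiftLeft (nat_lit 1) (Nat.land (Nat.shiftRight (V (nat_lit 12)) (S (nat_lit 58))) (nat_lit 65535))) (Nat.shiftLeft (nat_lit 1) (Nat.land (Nat.shiftRight (V (nat_lit 13)) (S (nat_lit 31))) (nat_lit 65535))))) (Nat.add (Nat.add (Nat.shiftLeft (nat_lit 1) (Nat.land (Nat.shiftRight (V (nat_lit 13)) (S (nat_lit 32))) (nat_lit 65535))) (Nat.shiftLeft (nat_lit 1) (Nat.land (Nat.shiftRight (V (nat_lit 13)) (S (nat_lit 34))) (nat_lit 65535)))) (Nat.add (Nat.shiftLeft (nat_lit 1) (Nat.land (Nat.shiftRight (V (nat_lit 13)) (S (nat_lit 42))) (nat_lit 65535))) (Nat.shiftLeft (nat_lit 1) (Nat.land (Nat.shiftRight (V (nat_lit 13)) (S (nat_lit 44))) (nat_lit 65535)))))) (Nat.add (Nat.add (Nat.add (Nat.shiftLeft (nat_lit 1) (Nat.land (Nat.shiftRight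 (V (nat_lit 13)) (S (nat_lit 45))) (nat_lit 65535))) (Nat.shiftLeft (nat_lit 1) (Nat.land (Nat.shiftRight (V (nat_lit 13)) (S (nat_lit 54))) (nat_lit 65535)))) (Nat.add (Nat.shiftLeft (nat_lit 1) (Nat.land (Nat.shiftRight (V (nat_lit 13)) (S (nat_lit 58))) (nat_lit 65535))) (Nat.shiftLeft (nat_lit 1) (Nat.land (Nat.shiftRight (V (nat_lit 14)) (S (nat_lit 31))) (nat_lit 65535))))) (Nat.add (Nat.add (Nat.shiftLeft (nat_lit 1) (Nat.land (Nat.shiftRight (V (nat_lit 14)) (S (nat_lit 34))) (nat_lit 65535))) (Nat.shiftLeft (nat_lit 1) (Nat.land (Nat.shiftRight (V (nat_lit 14)) (S (nat_lit 35))) (nat_lit 65535)))) (Nat.add (Nat.shiftLeft (nat_lit 1) (Nat.land (Nat.shiftRight (V (nat_lit 14)) (S (nat_lit 42))) (nat_lit 65535))) (Nat.shiftLeft (nat_lit 1) (Nat.land (Nat.shiftRight (V (nat_lit 14)) (S (nat_lit 46))) (nat_lit 65535))))))) (Nat.add (Nat.add (Nat.add (Nat.shiftLeft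 (nat_lit 1) (Nat.land (Nat.shiftRight (V (nat_lit 14)) (S (nat_lit 54))) (nat_lit 65535))) (Nat.add (Nat.shiftLeft (nat_lit 1) (Nat.land (Nat.shiftRight (V (nat_lit 14)) (S (nat_lit 56))) (nat_lit 65535))) (Nat.shiftLeft (nat_lit 1) (Nat.land (Nat.shiftRight (V (nat_lit 14)) (S (nat_lit 57))) (nat_lit 65535))))) (Nat.add (Nat.add (Nat.shiftLeft (nat_lit 1) (Nat.land (Nat.shiftRight (V (nat_lit 16)) (S (nat_lit 8))) (nat_lit 65535))) (Nat.shiftLeft (nat_lit 1) (Nat.land (Nat.shiftRight (V (nat_lit 16)) (S (nat_lit 30))) (nat_lit 65535)))) (Nat.add (Nat.shiftLeft (nat_lit 1) (Nat.land (Nat.shiftRight (V (nat_lit 16)) (S (nat_lit 33))) (nat_lit 65535))) (Nat.shiftLeft (nat_lit 1) (Nat.land (Nat.shiftRight (V (nat_lit 16)) (S (nat_lit 41))) (nat_lit 65535)))))) (Nat.add (Nat.add (Nat.add (Nat.shiftLeft (nat_lit 1) (Nat.land (Nat.shiftRight (V (nat_lit 16)) (S (nat_lit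 47))) (nat_lit 65535))) (Nat.shiftLeft (nat_lit 1) (Nat.land (Nat.shiftRight (V (nat_lit 17)) (S (nat_lit 11))) (nat_lit 65535)))) (Nat.add (Nat.shiftLeft (nat_lit 1) (Nat.land (Nat.shiftRight (V (nat_lit 17)) (S (nat_lit 30))) (nat_lit 65535))) (Nat.shiftLeft (nat_lit 1) (Nat.land (Nat.shiftRight (V (nat_lit 17)) (S (nat_lit 33))) (nat_lit 65535))))) (Nat.add (Nat.add (Nat.shiftLeft (nat_lit 1) (Nat.land (Nat.shiftRight (V (nat_lit 17)) (S (nat_lit 53))) (nat_lit 65535))) (Nat.shiftLeft (nat_lit 1) (Nat.land (Nat.shiftRight (V (nat_lit 17)) (S (nat_lit 59))) (nat_lit 65535)))) (Nat.add (Nat.shiftLeft (nat_lit 1) (Nat.land (Nat.shiftRight (V (nat_lit 18)) (S (nat_lit 11))) (nat_lit 65535))) (Nat.shiftLeft (nat_lit 1) (Nat.land (Nat.shiftRight (V (nat_lit 18)) (S (nat_lit 43))) (nat_lit 65535))))))))) (Nat.add (Nat.add (Nat.add (Nat.add (Nat.add (Nat.shiftLeft (nat_lit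 1) (Nat.land (Nat.shiftRight (V (nat_lit 18)) (S (nat_lit 47))) (nat_lit 65535))) (Nat.add (Nat.shiftLeft (nat_lit 1) (Nat.land (Nat.shiftRight (V (nat_lit 18)) (S (nat_lit 53))) (nat_lit 65535))) (Nat.shiftLeft (nat_lit 1) (Nat.land (Nat.shiftRight (V (nat_lit 18)) (S (nat_lit 55))) (nat_lit 65535))))) (Nat.add (Nat.add (Nat.shiftLeft (nat_lit 1) (Nat.land (Nat.shiftRight (V (nat_lit 20)) (S (nat_lit 3))) (nat_lit 65535))) (Nat.shiftLeft (nat_lit 1) (Nat.land (Nat.shiftRight (V (nat_lit 20)) (S (nat_lit 27))) (nat_lit 65535)))) (Nat.add (Nat.shiftLeft (nat_lit 1) (Nat.land (Nat.shiftRight (V (nat_lit 20)) (S (nat_lit 33))) (nat_lit 65535))) (Nat.shiftLeft (nat_lit 1) (Nat.land (Nat.shiftRight (V (nat_lit 20)) (S (nat_lit 43))) (nat_lit 65535)))))) (Nat.add (Nat.add (Nat.add (Nat.shiftLeft (nat_lit 1) (Nat.land (Nat.shiftRight (V (nat_lit 20)) (S (nat_lit 47))) (nat_lit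 65535))) (Nat.shiftLeft (nat_lit 1) (Nat.land (Nat.shiftRight (V (nat_lit 21)) (S (nat_lit 8))) (nat_lit 65535)))) (Nat.add (Nat.shiftLeft (nat_lit 1) (Nat.land (Nat.shiftRight (V (nat_lit 21)) (S (nat_lit 41))) (nat_lit 65535))) (Nat.shiftLeft (nat_lit 1) (Nat.land (Nat.shiftRight (V (nat_lit 21)) (S (nat_lit 43))) (nat_lit 65535))))) (Nat.add (Nat.add (Nat.shiftLeft (nat_lit 1) (Nat.land (Nat.shiftRight (V (nat_lit 21)) (S (nat_lit 55))) (nat_lit 65535))) (Nat.shiftLeft (nat_lit 1) (Nat.land (Nat.shiftRight (V (nat_lit 21)) (S (nat_lit 59))) (nat_lit 65535)))) (Nat.add (Nat.shiftLeft (nat_lit 1) (Nat.land (Nat.shiftRight (V (nat_lit 23)) (S (nat_lit 3))) (nat_lit 65535))) (Nat.shiftLeft (nat_lit 1) (Nat.land (Nat.shiftRight (V (nat_lit 23)) (S (nat_lit 27))) (nat_lit 65535))))))) (Nat.add (Nat.add (Nat.add (Nat.shiftLeft (nat_lit 1) (Nat.land (Nat.shiftRight (V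 (nat_lit 23)) (S (nat_lit 30))) (nat_lit 65535))) (Nat.add (Nat.shiftLeft (nat_lit 1) (Nat.land (Nat.shiftRight (V (nat_lit 23)) (S (nat_lit 55))) (nat_lit 65535))) (Nat.shiftLeft (nat_lit 1) (Nat.land (Nat.shiftRight (V (nat_lit 23)) (S (nat_lit 59))) (nat_lit 65535))))) (Nat.add (Nat.add (Nat.shiftLeft (nat_lit 1) (Nat.land (Nat.shiftRight (V (nat_lit 25)) (S (nat_lit 8))) (nat_lit 65535))) (Nat.shiftLeft (nat_lit 1) (Nat.land (Nat.shiftRight (V (nat_lit 25)) (S (nat_lit 41))) (nat_lit 65535)))) (Nat.add (Nat.shiftLeft (nat_lit 1) (Nat.land (Nat.shiftRight (V (nat_lit 25)) (S (nat_lit 43))) (nat_lit 65535))) (Nat.shiftLeft (nat_lit 1) (Nat.land (Nat.shiftRight (V (nat_lit 25)) (S (nat_lit 55))) (nat_lit 65535)))))) (Nat.add (Nat.add (Nat.add (Nat.shiftLeft (nat_lit 1) (Nat.land (Nat.shiftRight (V (nat_lit 25)) (S (nat_lit 59))) (nat_lit 65535))) (Nat.shiftLeft (nat_lit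 1) (Nat.land (Nat.shiftRight (V (nat_lit 26)) (S (nat_lit 11))) (nat_lit 65535)))) (Nat.add (Nat.shiftLeft (nat_lit 1) (Nat.land (Nat.shiftRight (V (nat_lit 26)) (S (nat_lit 43))) (nat_lit 65535))) (Nat.shiftLeft (nat_lit 1) (Nat.land (Nat.shiftRight (V (nat_lit 26)) (S (nat_lit 47))) (nat_lit 65535))))) (Nat.add (Nat.add (Nat.shiftLeft (nat_lit 1) (Nat.land (Nat.shiftRight (V (nat_lit 26)) (S (nat_lit 53))) (nat_lit 65535))) (Nat.shiftLeft (nat_lit 1) (Nat.land (Nat.shiftRight (V (nat_lit 26)) (S (nat_lit 55))) (nat_lit 65535)))) (Nat.add (Nat.shiftLeft (nat_lit 1) (Nat.land (Nat.shiftRight (V (nat_lit 27)) (S (nat_lit 20))) (nat_lit 65535))) (Nat.shiftLeft (nat_lit 1) (Nat.land (Nat.shiftRight (V (nat_lit 27)) (S (nat_lit 23))) (nat_lit 65535)))))))) (Nat.add (Nat.add (Nat.add (Nat.add (Nat.shiftLeft (nat_lit 1) (Nat.land (Nat.shiftRight (V (nat_lit 27)) (S (nat_lit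 38))) (nat_lit 65535))) (Nat.add (Nat.shiftLeft (nat_lit 1) (Nat.land (Nat.shiftRight (V (nat_lit 27)) (S (nat_lit 44))) (nat_lit 65535))) (Nat.shiftLeft (nat_lit 1) (Nat.land (Nat.shiftRight (V (nat_lit 27)) (S (nat_lit 46))) (nat_lit 65535))))) (Nat.add (Nat.add (Nat.shiftLeft (nat_lit 1) (Nat.land (Nat.shiftRight (V (nat_lit 27)) (S (nat_lit 50))) (nat_lit 65535))) (Nat.shiftLeft (nat_lit 1) (Nat.land (Nat.shiftRight (V (nat_lit 27)) (S (nat_lit 56))) (nat_lit 65535)))) (Nat.add (Nat.shiftLeft (nat_lit 1) (Nat.land (Nat.shiftRight (V (nat_lit 27)) (S (nat_lit 58))) (nat_lit 65535))) (Nat.shiftLeft (nat_lit 1) (Nat.land (Nat.shiftRight (V (nat_lit 30)) (S (nat_lit 16))) (nat_lit 65535)))))) (Nat.add (Nat.add (Nat.add (Nat.shiftLeft (nat_lit 1) (Nat.land (Nat.shiftRight (V (nat_lit 30)) (S (nat_lit 17))) (nat_lit 65535))) (Nat.shiftLeft (nat_lit 1) (Nat.land (Nat.shiftRight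 (V (nat_lit 30)) (S (nat_lit 23))) (nat_lit 65535)))) (Nat.add (Nat.shiftLeft (nat_lit 1) (Nat.land (Nat.shiftRight (V (nat_lit 30)) (S (nat_lit 36))) (nat_lit 65535))) (Nat.shiftLeft (nat_lit 1) (Nat.land (Nat.shiftRight (V (nat_lit 30)) (S (nat_lit 38))) (nat_lit 65535))))) (Nat.add (Nat.add (Nat.shiftLeft (nat_lit 1) (Nat.land (Nat.shiftRight (V (nat_lit 30)) (S (nat_lit 46))) (nat_lit 65535))) (Nat.shiftLeft (nat_lit 1) (Nat.land (Nat.shiftRight (V (nat_lit 30)) (S (nat_lit 48))) (nat_lit 65535)))) (Nat.add (Nat.shiftLeft (nat_lit 1) (Nat.land (Nat.shiftRight (V (nat_lit 30)) (S (nat_lit 56))) (nat_lit 65535))) (Nat.shiftLeft (nat_lit 1) (Nat.land (Nat.shiftRight (V (nat_lit 31)) (S (nat_lit 11))) (nat_lit 65535))))))) (Nat.add (Nat.add (Nat.add (Nat.shiftLeft (nat_lit 1) (Nat.land (Nat.shiftRight (V (nat_lit 31)) (S (nat_lit 13))) (nat_lit 65535))) (Nat.add (Nat.shiftLeft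 (nat_lit 1) (Nat.land (Nat.shiftRight (V (nat_lit 31)) (S (nat_lit 14))) (nat_lit 65535))) (Nat.shiftLeft (nat_lit 1) (Nat.land (Nat.shiftRight (V (nat_lit 31)) (S (nat_lit 41))) (nat_lit 65535))))) (Nat.add (Nat.add (Nat.shiftLeft (nat_lit 1) (Nat.land (Nat.shiftRight (V (nat_lit 31)) (S (nat_lit 47))) (nat_lit 65535))) (Nat.shiftLeft (nat_lit 1) (Nat.land (Nat.shiftRight (V (nat_lit 32)) (S (nat_lit 3))) (nat_lit 65535)))) (Nat.add (Nat.shiftLeft (nat_lit 1) (Nat.land (Nat.shiftRight (V (nat_lit 32)) (S (nat_lit 12))) (nat_lit 65535))) (Nat.shiftLeft (nat_lit 1) (Nat.land (Nat.shiftRight (V (nat_lit 32)) (S (nat_lit 13))) (nat_lit 65535)))))) (Nat.add (Nat.add (Nat.add (Nat.shiftLeft (nat_lit 1) (Nat.land (Nat.shiftRight (V (nat_lit 32)) (S (nat_lit 53))) (nat_lit 65535))) (Nat.shiftLeft (nat_lit 1) (Nat.land (Nat.shiftRight (V (nat_lit 32)) (S (nat_lit 55))) (nat_lit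 65535)))) (Nat.add (Nat.shiftLeft (nat_lit 1) (Nat.land (Nat.shiftRight (V (nat_lit 33)) (S (nat_lit 16))) (nat_lit 65535))) (Nat.shiftLeft (nat_lit 1) (Nat.land (Nat.shiftRight (V (nat_lit 33)) (S (nat_lit 17))) (nat_lit 65535))))) (Nat.add (Nat.add (Nat.shiftLeft (nat_lit 1) (Nat.land (Nat.shiftRight (V (nat_lit 33)) (S (nat_lit 20))) (nat_lit 65535))) (Nat.shiftLeft (nat_lit 1) (Nat.land (Nat.shiftRight (V (nat_lit 33)) (S (nat_lit 36))) (nat_lit 65535)))) (Nat.add (Nat.shiftLeft (nat_lit 1) (Nat.land (Nat.shiftRight (V (nat_lit 33)) (S (nat_lit 44))) (nat_lit 65535))) (Nat.shiftLeft (nat_lit 1) (Nat.land (Nat.shiftRight (V (nat_lit 33)) (S (nat_lit 48))) (nat_lit 65535)))))))))) (Nat.add (Nat.add (Nat.add (Nat.add (Nat.add (Nat.add (Nat.shiftLeft (nat_lit 1) (Nat.land (Nat.shiftRight (V (nat_lit 33)) (S (nat_lit 50))) (nat_lit 65535))) (Nat.add (Nat.shiftLeft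 (nat_lit 1) (Nat.land (Nat.shiftRight (V (nat_lit 33)) (S (nat_lit 58))) (nat_lit 65535))) (Nat.shiftLeft (nat_lit 1) (Nat.land (Nat.shiftRight (V (nat_lit 34)) (S (nat_lit 8))) (nat_lit 65535))))) (Nat.add (Nat.add (Nat.shiftLeft (nat_lit 1) (Nat.land (Nat.shiftRight (V (nat_lit 34)) (S (nat_lit 13))) (nat_lit 65535))) (Nat.shiftLeft (nat_lit 1) (Nat.land (Nat.shiftRight (V (nat_lit 34)) (S (nat_lit 14))) (nat_lit 65535)))) (Nat.add (Nat.shiftLeft (nat_lit 1) (Nat.land (Nat.shiftRight (V (nat_lit 34)) (S (nat_lit 53))) (nat_lit 65535))) (Nat.shiftLeft (nat_lit 1) (Nat.land (Nat.shiftRight (V (nat_lit 34)) (S (nat_lit 59))) (nat_lit 65535)))))) (Nat.add (Nat.add (Nat.add (Nat.shiftLeft (nat_lit 1) (Nat.land (Nat.shiftRight (V (nat_lit 35)) (S (nat_lit 3))) (nat_lit 65535))) (Nat.shiftLeft (nat_lit 1) (Nat.land (Nat.shiftRight (V (nat_lit 35)) (S (nat_lit 12))) (nat_lit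 65535)))) (Nat.add (Nat.shiftLeft (nat_lit 1) (Nat.land (Nat.shiftRight (V (nat_lit 35)) (S (nat_lit 14))) (nat_lit 65535))) (Nat.shiftLeft (nat_lit 1) (Nat.land (Nat.shiftRight (V (nat_lit 35)) (S (nat_lit 41))) (nat_lit 65535))))) (Nat.add (Nat.add (Nat.shiftLeft (nat_lit 1) (Nat.land (Nat.shiftRight (V (nat_lit 35)) (S (nat_lit 43))) (nat_lit 65535))) (Nat.shiftLeft (nat_lit 1) (Nat.land (Nat.shiftRight (V (nat_lit 36)) (S (nat_lit 11))) (nat_lit 65535)))) (Nat.add (Nat.shiftLeft (nat_lit 1) (Nat.land (Nat.shiftRight (V (nat_lit 36)) (S (nat_lit 30))) (nat_lit 65535))) (Nat.shiftLeft (nat_lit 1) (Nat.land (Nat.shiftRight (V (nat_lit 36)) (S (nat_lit 33))) (nat_lit 65535))))))) (Nat.add (Nat.add (Nat.add (Nat.shiftLeft (nat_lit 1) (Nat.land (Nat.shiftRight (V (nat_lit 36)) (S (nat_lit 53))) (nat_lit 65535))) (Nat.add (Nat.shiftLeft (nat_lit 1) (Nat.land (Nat.shiftRight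 (V (nat_lit 36)) (S (nat_lit 59))) (nat_lit 65535))) (Nat.shiftLeft (nat_lit 1) (Nat.land (Nat.shiftRight (V (nat_lit 38)) (S (nat_lit 3))) (nat_lit 65535))))) (Nat.add (Nat.add (Nat.shiftLeft (nat_lit 1) (Nat.land (Nat.shiftRight (V (nat_lit 38)) (S (nat_lit 27))) (nat_lit 65535))) (Nat.shiftLeft (nat_lit 1) (Nat.land (Nat.shiftRight (V (nat_lit 38)) (S (nat_lit 30))) (nat_lit 65535)))) (Nat.add (Nat.shiftLeft (nat_lit 1) (Nat.land (Nat.shiftRight (V (nat_lit 38)) (S (nat_lit 55))) (nat_lit 65535))) (Nat.shiftLeft (nat_lit 1) (Nat.land (Nat.shiftRight (V (nat_lit 38)) (S (nat_lit 59))) (nat_lit 65535)))))) (Nat.add (Nat.add (Nat.add (Nat.shiftLeft (nat_lit 1) (Nat.land (Nat.shiftRight (V (nat_lit 41)) (S (nat_lit 16))) (nat_lit 65535))) (Nat.shiftLeft (nat_lit 1) (Nat.land (Nat.shiftRight (V (nat_lit 41)) (S (nat_lit 21))) (nat_lit 65535)))) (Nat.add (Nat.shiftLeft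 (nat_lit 1) (Nat.land (Nat.shiftRight (V (nat_lit 41)) (S (nat_lit 25))) (nat_lit 65535))) (Nat.shiftLeft (nat_lit 1) (Nat.land (Nat.shiftRight (V (nat_lit 41)) (S (nat_lit 31))) (nat_lit 65535))))) (Nat.add (Nat.add (Nat.shiftLeft (nat_lit 1) (Nat.land (Nat.shiftRight (V (nat_lit 41)) (S (nat_lit 35))) (nat_lit 65535))) (Nat.shiftLeft (nat_lit 1) (Nat.land (Nat.shiftRight (V (nat_lit 41)) (S (nat_lit 48))) (nat_lit 65535)))) (Nat.add (Nat.shiftLeft (nat_lit 1) (Nat.land (Nat.shiftRight (V (nat_lit 41)) (S (nat_lit 54))) (nat_lit 65535))) (Nat.shiftLeft (nat_lit 1) (Nat.land (Nat.shiftRight (V (nat_lit 41)) (S (nat_lit 57))) (nat_lit 65535)))))))) (Nat.add (Nat.add (Nat.add (Nat.add (Nat.shiftLeft (nat_lit 1) (Nat.land (Nat.shiftRight (V (nat_lit 42)) (S (nat_lit 8))) (nat_lit 65535))) (Nat.add (Nat.shiftLeft (nat_lit 1) (Nat.land (Nat.shiftRight (V (nat_lit 42))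 (S (nat_lit 13))) (nat_lit 65535))) (Nat.shiftLeft (nat_lit 1) (Nat.land (Nat.shiftRight (V (nat_lit 42)) (S (nat_lit 14))) (nat_lit 65535))))) (Nat.add (Nat.add (Nat.shiftLeft (nat_lit 1) (Nat.land (Nat.shiftRight (V (nat_lit 42)) (S (nat_lit 53))) (nat_lit 65535))) (Nat.shiftLeft (nat_lit 1) (Nat.land (Nat.shiftRight (V (nat_lit 42)) (S (nat_lit 59))) (nat_lit 65535)))) (Nat.add (Nat.shiftLeft (nat_lit 1) (Nat.land (Nat.shiftRight (V (nat_lit 43)) (S (nat_lit 18))) (nat_lit 65535))) (Nat.shiftLeft (nat_lit 1) (Nat.land (Nat.shiftRight (V (nat_lit 43)) (S (nat_lit 20))) (nat_lit 65535)))))) (Nat.add (Nat.add (Nat.add (Nat.shiftLeft (nat_lit 1) (Nat.land (Nat.shiftRight (V (nat_lit 43)) (S (nat_lit 21))) (nat_lit 65535))) (Nat.shiftLeft (nat_lit 1) (Nat.land (Nat.shiftRight (V (nat_lit 43)) (S (nat_lit 25))) (nat_lit 65535)))) (Nat.add (Nat.shiftLeft (nat_lit 1) (Nat.land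 (Nat.shiftRight (V (nat_lit 43)) (S (nat_lit 26))) (nat_lit 65535))) (Nat.shiftLeft (nat_lit 1) (Nat.land (Nat.shiftRight (V (nat_lit 43)) (S (nat_lit 35))) (nat_lit 65535))))) (Nat.add (Nat.add (Nat.shiftLeft (nat_lit 1) (Nat.land (Nat.shiftRight (V (nat_lit 43)) (S (nat_lit 50))) (nat_lit 65535))) (Nat.shiftLeft (nat_lit 1) (Nat.land (Nat.shiftRight (V (nat_lit 43)) (S (nat_lit 57))) (nat_lit 65535)))) (Nat.add (Nat.shiftLeft (nat_lit 1) (Nat.land (Nat.shiftRight (V (nat_lit 44)) (S (nat_lit 11))) (nat_lit 65535))) (Nat.shiftLeft (nat_lit 1) (Nat.land (Nat.shiftRight (V (nat_lit 44)) (S (nat_lit 12))) (nat_lit 65535))))))) (Nat.add (Nat.add (Nat.add (Nat.shiftLeft (nat_lit 1) (Nat.land (Nat.shiftRight (V (nat_lit 44)) (S (nat_lit 13))) (nat_lit 65535))) (Nat.add (Nat.shiftLeft (nat_lit 1) (Nat.land (Nat.shiftRight (V (nat_lit 44)) (S (nat_lit 27))) (nat_lit 65535)))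 (Nat.shiftLeft (nat_lit 1) (Nat.land (Nat.shiftRight (V (nat_lit 44)) (S (nat_lit 33))) (nat_lit 65535))))) (Nat.add (Nat.add (Nat.shiftLeft (nat_lit 1) (Nat.land (Nat.shiftRight (V (nat_lit 45)) (S (nat_lit 3))) (nat_lit 65535))) (Nat.shiftLeft (nat_lit 1) (Nat.land (Nat.shiftRight (V (nat_lit 45)) (S (nat_lit 12))) (nat_lit 65535)))) (Nat.add (Nat.shiftLeft (nat_lit 1) (Nat.land (Nat.shiftRight (V (nat_lit 45)) (S (nat_lit 13))) (nat_lit 65535))) (Nat.shiftLeft (nat_lit 1) (Nat.land (Nat.shiftRight (V (nat_lit 45)) (S (nat_lit 53))) (nat_lit 65535)))))) (Nat.add (Nat.add (Nat.add (Nat.shiftLeft (nat_lit 1) (Nat.land (Nat.shiftRight (V (nat_lit 45)) (S (nat_lit 55))) (nat_lit 65535))) (Nat.shiftLeft (nat_lit 1) (Nat.land (Nat.shiftRight (V (nat_lit 46)) (S (nat_lit 8))) (nat_lit 65535)))) (Nat.add (Nat.shiftLeft (nat_lit 1) (Nat.land (Nat.shiftRight (V (nat_lit 46))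 (S (nat_lit 12))) (nat_lit 65535))) (Nat.shiftLeft (nat_lit 1) (Nat.land (Nat.shiftRight (V (nat_lit 46)) (S (nat_lit 14))) (nat_lit 65535))))) (Nat.add (Nat.add (Nat.shiftLeft (nat_lit 1) (Nat.land (Nat.shiftRight (V (nat_lit 46)) (S (nat_lit 27))) (nat_lit 65535))) (Nat.shiftLeft (nat_lit 1) (Nat.land (Nat.shiftRight (V (nat_lit 46)) (S (nat_lit 30))) (nat_lit 65535)))) (Nat.add (Nat.shiftLeft (nat_lit 1) (Nat.land (Nat.shiftRight (V (nat_lit 47)) (S (nat_lit 16))) (nat_lit 65535))) (Nat.shiftLeft (nat_lit 1) (Nat.land (Nat.shiftRight (V (nat_lit 47)) (S (nat_lit 18))) (nat_lit 65535))))))))) (Nat.add (Nat.add (Nat.add (Nat.add (Nat.add (Nat.shiftLeft (nat_lit 1) (Nat.land (Nat.shiftRight (V (nat_lit 47)) (S (nat_lit 20))) (nat_lit 65535))) (Nat.add (Nat.shiftLeft (nat_lit 1) (Nat.land (Nat.shiftRight (V (nat_lit 47)) (S (nat_lit 26))) (nat_lit 65535))) (Nat.shiftLeft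 (nat_lit 1) (Nat.land (Nat.shiftRight (V (nat_lit 47)) (S (nat_lit 31))) (nat_lit 65535))))) (Nat.add (Nat.add (Nat.shiftLeft (nat_lit 1) (Nat.land (Nat.shiftRight (V (nat_lit 47)) (S (nat_lit 48))) (nat_lit 65535))) (Nat.shiftLeft (nat_lit 1) (Nat.land (Nat.shiftRight (V (nat_lit 47)) (S (nat_lit 50))) (nat_lit 65535)))) (Nat.add (Nat.shiftLeft (nat_lit 1) (Nat.land (Nat.shiftRight (V (nat_lit 47)) (S (nat_lit 54))) (nat_lit 65535))) (Nat.shiftLeft (nat_lit 1) (Nat.land (Nat.shiftRight (V (nat_lit 48)) (S (nat_lit 8))) (nat_lit 65535)))))) (Nat.add (Nat.add (Nat.add (Nat.shiftLeft (nat_lit 1) (Nat.land (Nat.shiftRight (V (nat_lit 48)) (S (nat_lit 30))) (nat_lit 65535))) (Nat.shiftLeft (nat_lit 1) (Nat.land (Nat.shiftRight (V (nat_lit 48)) (S (nat_lit 33))) (nat_lit 65535)))) (Nat.add (Nat.shiftLeft (nat_lit 1) (Nat.land (Nat.shiftRight (V (nat_lit 48)) (S (nat_lit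 41))) (nat_lit 65535))) (Nat.shiftLeft (nat_lit 1) (Nat.land (Nat.shiftRight (V (nat_lit 48)) (S (nat_lit 47))) (nat_lit 65535))))) (Nat.add (Nat.add (Nat.shiftLeft (nat_lit 1) (Nat.land (Nat.shiftRight (V (nat_lit 50)) (S (nat_lit 3))) (nat_lit 65535))) (Nat.shiftLeft (nat_lit 1) (Nat.land (Nat.shiftRight (V (nat_lit 50)) (S (nat_lit 27))) (nat_lit 65535)))) (Nat.add (Nat.shiftLeft (nat_lit 1) (Nat.land (Nat.shiftRight (V (nat_lit 50)) (S (nat_lit 33))) (nat_lit 65535))) (Nat.shiftLeft (nat_lit 1) (Nat.land (Nat.shiftRight (V (nat_lit 50)) (S (nat_lit 43))) (nat_lit 65535))))))) (Nat.add (Nat.add (Nat.add (Nat.shiftLeft (nat_lit 1) (Nat.land (Nat.shiftRight (V (nat_lit 50)) (S (nat_lit 47))) (nat_lit 65535))) (Nat.add (Nat.shiftLeft (nat_lit 1) (Nat.land (Nat.shiftRight (V (nat_lit 53)) (S (nat_lit 17))) (nat_lit 65535))) (Nat.shiftLeft (nat_lit 1) (Nat.land (Nat.shiftRight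 (V (nat_lit 53)) (S (nat_lit 18))) (nat_lit 65535))))) (Nat.add (Nat.add (Nat.shiftLeft (nat_lit 1) (Nat.land (Nat.shiftRight (V (nat_lit 53)) (S (nat_lit 26))) (nat_lit 65535))) (Nat.shiftLeft (nat_lit 1) (Nat.land (Nat.shiftRight (V (nat_lit 53)) (S (nat_lit 32))) (nat_lit 65535)))) (Nat.add (Nat.shiftLeft (nat_lit 1) (Nat.land (Nat.shiftRight (V (nat_lit 53)) (S (nat_lit 34))) (nat_lit 65535))) (Nat.shiftLeft (nat_lit 1) (Nat.land (Nat.shiftRight (V (nat_lit 53)) (S (nat_lit 36))) (nat_lit 65535)))))) (Nat.add (Nat.add (Nat.add (Nat.shiftLeft (nat_lit 1) (Nat.land (Nat.shiftRight (V (nat_lit 53)) (S (nat_lit 42))) (nat_lit 65535))) (Nat.shiftLeft (nat_lit 1) (Nat.land (Nat.shiftRight (V (nat_lit 53)) (S (nat_lit 45))) (nat_lit 65535)))) (Nat.add (Nat.shiftLeft (nat_lit 1) (Nat.land (Nat.shiftRight (V (nat_lit 54)) (S (nat_lit 11))) (nat_lit 65535))) (Nat.shiftLeft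 (nat_lit 1) (Nat.land (Nat.shiftRight (V (nat_lit 54)) (S (nat_lit 13))) (nat_lit 65535))))) (Nat.add (Nat.add (Nat.shiftLeft (nat_lit 1) (Nat.land (Nat.shiftRight (V (nat_lit 54)) (S (nat_lit 14))) (nat_lit 65535))) (Nat.shiftLeft (nat_lit 1) (Nat.land (Nat.shiftRight (V (nat_lit 54)) (S (nat_lit 41))) (nat_lit 65535)))) (Nat.add (Nat.shiftLeft (nat_lit 1) (Nat.land (Nat.shiftRight (V (nat_lit 54)) (S (nat_lit 47))) (nat_lit 65535))) (Nat.shiftLeft (nat_lit 1) (Nat.land (Nat.shiftRight (V (nat_lit 55)) (S (nat_lit 18))) (nat_lit 65535)))))))) (Nat.add (Nat.add (Nat.add (Nat.add (Nat.shiftLeft (nat_lit 1) (Nat.land (Nat.shiftRight (V (nat_lit 55)) (S (nat_lit 21))) (nat_lit 65535))) (Nat.add (Nat.shiftLeft (nat_lit 1) (Nat.land (Nat.shiftRight (V (nat_lit 55)) (S (nat_lit 23))) (nat_lit 65535))) (Nat.shiftLeft (nat_lit 1) (Nat.land (Nat.shiftRight (V (nat_lit 55))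 (S (nat_lit 25))) (nat_lit 65535))))) (Nat.add (Nat.add (Nat.shiftLeft (nat_lit 1) (Nat.land (Nat.shiftRight (V (nat_lit 55)) (S (nat_lit 26))) (nat_lit 65535))) (Nat.shiftLeft (nat_lit 1) (Nat.land (Nat.shiftRight (V (nat_lit 55)) (S (nat_lit 32))) (nat_lit 65535)))) (Nat.add (Nat.shiftLeft (nat_lit 1) (Nat.land (Nat.shiftRight (V (nat_lit 55)) (S (nat_lit 38))) (nat_lit 65535))) (Nat.shiftLeft (nat_lit 1) (Nat.land (Nat.shiftRight (V (nat_lit 55)) (S (nat_lit 45))) (nat_lit 65535)))))) (Nat.add (Nat.add (Nat.add (Nat.shiftLeft (nat_lit 1) (Nat.land (Nat.shiftRight (V (nat_lit 56)) (S (nat_lit 8))) (nat_lit 65535))) (Nat.shiftLeft (nat_lit 1) (Nat.land (Nat.shiftRight (V (nat_lit 56)) (S (nat_lit 12))) (nat_lit 65535)))) (Nat.add (Nat.shiftLeft (nat_lit 1) (Nat.land (Nat.shiftRight (V (nat_lit 56)) (S (nat_lit 14))) (nat_lit 65535))) (Nat.shiftLeft (nat_lit 1) (Nat.land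 (Nat.shiftRight (V (nat_lit 56)) (S (nat_lit 27))) (nat_lit 65535))))) (Nat.add (Nat.add (Nat.shiftLeft (nat_lit 1) (Nat.land (Nat.shiftRight (V (nat_lit 56)) (S (nat_lit 30))) (nat_lit 65535))) (Nat.shiftLeft (nat_lit 1) (Nat.land (Nat.shiftRight (V (nat_lit 57)) (S (nat_lit 3))) (nat_lit 65535)))) (Nat.add (Nat.shiftLeft (nat_lit 1) (Nat.land (Nat.shiftRight (V (nat_lit 57)) (S (nat_lit 12))) (nat_lit 65535))) (Nat.shiftLeft (nat_lit 1) (Nat.land (Nat.shiftRight (V (nat_lit 57)) (S (nat_lit 14))) (nat_lit 65535))))))) (Nat.add (Nat.add (Nat.add (Nat.shiftLeft (nat_lit 1) (Nat.land (Nat.shiftRight (V (nat_lit 57)) (S (nat_lit 41))) (nat_lit 65535))) (Nat.add (Nat.shiftLeft (nat_lit 1) (Nat.land (Nat.shiftRight (V (nat_lit 57)) (S (nat_lit 43))) (nat_lit 65535))) (Nat.shiftLeft (nat_lit 1) (Nat.land (Nat.shiftRight (V (nat_lit 58)) (S (nat_lit 11))) (nat_lit 65535)))))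 (Nat.add (Nat.add (Nat.shiftLeft (nat_lit 1) (Nat.land (Nat.shiftRight (V (nat_lit 58)) (S (nat_lit 12))) (nat_lit 65535))) (Nat.shiftLeft (nat_lit 1) (Nat.land (Nat.shiftRight (V (nat_lit 58)) (S (nat_lit 13))) (nat_lit 65535)))) (Nat.add (Nat.shiftLeft (nat_lit 1) (Nat.land (Nat.shiftRight (V (nat_lit 58)) (S (nat_lit 27))) (nat_lit 65535))) (Nat.shiftLeft (nat_lit 1) (Nat.land (Nat.shiftRight (V (nat_lit 58)) (S (nat_lit 33))) (nat_lit 65535)))))) (Nat.add (Nat.add (Nat.add (Nat.shiftLeft (nat_lit 1) (Nat.land (Nat.shiftRight (V (nat_lit 59)) (S (nat_lit 17))) (nat_lit 65535))) (Nat.shiftLeft (nat_lit 1) (Nat.land (Nat.shiftRight (V (nat_lit 59)) (S (nat_lit 21))) (nat_lit 65535)))) (Nat.add (Nat.shiftLeft (nat_lit 1) (Nat.land (Nat.shiftRight (V (nat_lit 59)) (S (nat_lit 23))) (nat_lit 65535))) (Nat.shiftLeft (nat_lit 1) (Nat.land (Nat.shiftRight (V (nat_lit 59))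 (S (nat_lit 25))) (nat_lit 65535))))) (Nat.add (Nat.add (Nat.shiftLeft (nat_lit 1) (Nat.land (Nat.shiftRight (V (nat_lit 59)) (S (nat_lit 34))) (nat_lit 65535))) (Nat.shiftLeft (nat_lit 1) (Nat.land (Nat.shiftRight (V (nat_lit 59)) (S (nat_lit 36))) (nat_lit 65535)))) (Nat.add (Nat.shiftLeft (nat_lit 1) (Nat.land (Nat.shiftRight (V (nat_lit 59)) (S (nat_lit 38))) (nat_lit 65535))) (Nat.shiftLeft (nat_lit 1) (Nat.land (Nat.shiftRight (V (nat_lit 59)) (S (nat_lit 42))) (nat_lit 65535))))))))))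
def E23_0 (V S : ℕ → ℕ) : ℕ := Nat.add (Nat.add (Nat.add (Nat.add (Nat.shiftLeft (nat_lit 1) (Nat.land (Nat.shiftRight (V (nat_lit 16)) (S (nat_lit 16))) (nat_lit 65535))) (Nat.add (Nat.shiftLeft (nat_lit 1) (Nat.land (Nat.shiftRight (V (nat_lit 17)) (S (nat_lit 17))) (nat_lit 65535))) (Nat.shiftLeft (nat_lit 1) (Nat.land (Nat.shiftRight (V (nat_lit 18)) (S (nat_lit 18))) (nat_lit 65535))))) (Nat.add (Nat.shiftLeft (nat_lit 1) (Nat.land (Nat.shiftRight (V (nat_lit 20)) (S (nat_lit 20))) (nat_lit 65535))) (Nat.add (Nat.shiftLeft (nat_lit 1) (Nat.land (Nat.shiftRight (V (nat_lit 21)) (S (nat_lit 21))) (nat_lit 65535))) (Nat.shiftLeft (nat_lit 1) (Nat.land (Nat.shiftRight (V (nat_lit 23)) (S (nat_lit 23))) (nat_lit 65535)))))) (Nat.add (Nat.add (Nat.shiftLeft (nat_lit 1) (Nat.land (Nat.shiftRight (V (nat_lit 25)) (S (nat_lit 25))) (nat_lit 65535))) (Nat.add (Nat.shiftLeft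 (nat_lit 1) (Nat.land (Nat.shiftRight (V (nat_lit 26)) (S (nat_lit 26))) (nat_lit 65535))) (Nat.shiftLeft (nat_lit 1) (Nat.land (Nat.shiftRight (V (nat_lit 31)) (S (nat_lit 31))) (nat_lit 65535))))) (Nat.add (Nat.shiftLeft (nat_lit 1) (Nat.land (Nat.shiftRight (V (nat_lit 32)) (S (nat_lit 32))) (nat_lit 65535))) (Nat.add (Nat.shiftLeft (nat_lit 1) (Nat.land (Nat.shiftRight (V (nat_lit 34)) (S (nat_lit 34))) (nat_lit 65535))) (Nat.shiftLeft (nat_lit 1) (Nat.land (Nat.shiftRight (V (nat_lit 35)) (S (nat_lit 35))) (nat_lit 65535))))))) (Nat.add (Nat.add (Nat.add (Nat.shiftLeft (nat_lit 1) (Nat.land (Nat.shiftRight (V (nat_lit 36)) (S (nat_lit 36))) (nat_lit 65535))) (Nat.add (Nat.shiftLeft (nat_lit 1) (Nat.land (Nat.shiftRight (V (nat_lit 38)) (S (nat_lit 38))) (nat_lit 65535))) (Nat.shiftLeft (nat_lit 1) (Nat.land (Nat.shiftRight (V (nat_lit 42)) (S (nat_lit 42))) (nat_lit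 65535))))) (Nat.add (Nat.shiftLeft (nat_lit 1) (Nat.land (Nat.shiftRight (V (nat_lit 44)) (S (nat_lit 44))) (nat_lit 65535))) (Nat.add (Nat.shiftLeft (nat_lit 1) (Nat.land (Nat.shiftRight (V (nat_lit 45)) (S (nat_lit 45))) (nat_lit 65535))) (Nat.shiftLeft (nat_lit 1) (Nat.land (Nat.shiftRight (V (nat_lit 46)) (S (nat_lit 46))) (nat_lit 65535)))))) (Nat.add (Nat.add (Nat.shiftLeft (nat_lit 1) (Nat.land (Nat.shiftRight (V (nat_lit 48)) (S (nat_lit 48))) (nat_lit 65535))) (Nat.add (Nat.shiftLeft (nat_lit 1) (Nat.land (Nat.shiftRight (V (nat_lit 50)) (S (nat_lit 50))) (nat_lit 65535))) (Nat.shiftLeft (nat_lit 1) (Nat.land (Nat.shiftRight (V (nat_lit 54)) (S (nat_lit 54))) (nat_lit 65535))))) (Nat.add (Nat.shiftLeft (nat_lit 1) (Nat.land (Nat.shiftRight (V (nat_lit 56)) (S (nat_lit 56))) (nat_lit 65535))) (Nat.add (Nat.shiftLeft (nat_lit 1) (Nat.land (Nat.shiftRight (V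 (nat_lit 57)) (S (nat_lit 57))) (nat_lit 65535))) (Nat.shiftLeft (nat_lit 1) (Nat.land (Nat.shiftRight (V (nat_lit 58)) (S (nat_lit 58))) (nat_lit 65535)))))))
def E24_0 (V S : ℕ → ℕ) : ℕ := Nat.add (Nat.add (Nat.add (Nat.add (Nat.add (Nat.add (Nat.shiftLeft (nat_lit 1) (Nat.land (Nat.shiftRight (V (nat_lit 16)) (S (nat_lit 17))) (nat_lit 65535))) (Nat.add (Nat.shiftLeft (nat_lit 1) (Nat.land (Nat.shiftRight (V (nat_lit 16)) (S (nat_lit 20))) (nat_lit 65535))) (Nat.shiftLeft (nat_lit 1) (Nat.land (Nat.shiftRight (V (nat_lit 16)) (S (nat_lit 25))) (nat_lit 65535))))) (Nat.add (Nat.add (Nat.shiftLeft (nat_lit 1) (Nat.land (Nat.shiftRight (V (nat_lit 16)) (S (nat_lit 31))) (nat_lit 65535))) (Nat.shiftLeft (nat_lit 1) (Nat.land (Nat.shiftRight (V (nat_lit 16)) (S (nat_lit 56))) (nat_lit 65535)))) (Nat.add (Nat.shiftLeft (nat_lit 1) (Nat.land (Nat.shiftRight (V (nat_lit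 17)) (S (nat_lit 16))) (nat_lit 65535))) (Nat.shiftLeft (nat_lit 1) (Nat.land (Nat.shiftRight (V (nat_lit 17)) (S (nat_lit 23))) (nat_lit 65535)))))) (Nat.add (Nat.add (Nat.add (Nat.shiftLeft (nat_lit 1) (Nat.land (Nat.shiftRight (V (nat_lit 17)) (S (nat_lit 26))) (nat_lit 65535))) (Nat.shiftLeft (nat_lit 1) (Nat.land (Nat.shiftRight (V (nat_lit 17)) (S (nat_lit 34))) (nat_lit 65535)))) (Nat.add (Nat.shiftLeft (nat_lit 1) (Nat.land (Nat.shiftRight (V (nat_lit 17)) (S (nat_lit 44))) (nat_lit 65535))) (Nat.shiftLeft (nat_lit 1) (Nat.land (Nat.shiftRight (V (nat_lit 18)) (S (nat_lit 20))) (nat_lit 65535))))) (Nat.add (Nat.add (Nat.shiftLeft (nat_lit 1) (Nat.land (Nat.shiftRight (V (nat_lit 18)) (S (nat_lit 21))) (nat_lit 65535))) (Nat.shiftLeft (nat_lit 1) (Nat.land (Nat.shiftRight (V (nat_lit 18)) (S (nat_lit 31))) (nat_lit 65535)))) (Nat.add (Nat.shiftLeft (nat_lit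 1) (Nat.land (Nat.shiftRight (V (nat_lit 18)) (S (nat_lit 36))) (nat_lit 65535))) (Nat.shiftLeft (nat_lit 1) (Nat.land (Nat.shiftRight (V (nat_lit 18)) (S (nat_lit 45))) (nat_lit 65535))))))) (Nat.add (Nat.add (Nat.add (Nat.shiftLeft (nat_lit 1) (Nat.land (Nat.shiftRight (V (nat_lit 20)) (S (nat_lit 16))) (nat_lit 65535))) (Nat.add (Nat.shiftLeft (nat_lit 1) (Nat.land (Nat.shiftRight (V (nat_lit 20)) (S (nat_lit 18))) (nat_lit 65535))) (Nat.shiftLeft (nat_lit 1) (Nat.land (Nat.shiftRight (V (nat_lit 20)) (S (nat_lit 38))) (nat_lit 65535))))) (Nat.add (Nat.add (Nat.shiftLeft (nat_lit 1) (Nat.land (Nat.shiftRight (V (nat_lit 20)) (S (nat_lit 44))) (nat_lit 65535))) (Nat.shiftLeft (nat_lit 1) (Nat.land (Nat.shiftRight (V (nat_lit 20)) (S (nat_lit 57))) (nat_lit 65535)))) (Nat.add (Nat.shiftLeft (nat_lit 1) (Nat.land (Nat.shiftRight (V (nat_lit 21)) (S (nat_lit 18)))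 (nat_lit 65535))) (Nat.shiftLeft (nat_lit 1) (Nat.land (Nat.shiftRight (V (nat_lit 21)) (S (nat_lit 23))) (nat_lit 65535)))))) (Nat.add (Nat.add (Nat.add (Nat.shiftLeft (nat_lit 1) (Nat.land (Nat.shiftRight (V (nat_lit 21)) (S (nat_lit 34))) (nat_lit 65535))) (Nat.shiftLeft (nat_lit 1) (Nat.land (Nat.shiftRight (V (nat_lit 21)) (S (nat_lit 48))) (nat_lit 65535)))) (Nat.add (Nat.shiftLeft (nat_lit 1) (Nat.land (Nat.shiftRight (V (nat_lit 21)) (S (nat_lit 57))) (nat_lit 65535))) (Nat.shiftLeft (nat_lit 1) (Nat.land (Nat.shiftRight (V (nat_lit 23)) (S (nat_lit 17))) (nat_lit 65535))))) (Nat.add (Nat.add (Nat.shiftLeft (nat_lit 1) (Nat.land (Nat.shiftRight (V (nat_lit 23)) (S (nat_lit 21))) (nat_lit 65535))) (Nat.shiftLeft (nat_lit 1) (Nat.land (Nat.shiftRight (V (nat_lit 23)) (S (nat_lit 45))) (nat_lit 65535)))) (Nat.add (Nat.shiftLeft (nat_lit 1) (Nat.land (Nat.shiftRight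 (V (nat_lit 23)) (S (nat_lit 50))) (nat_lit 65535))) (Nat.shiftLeft (nat_lit 1) (Nat.land (Nat.shiftRight (V (nat_lit 23)) (S (nat_lit 56))) (nat_lit 65535)))))))) (Nat.add (Nat.add (Nat.add (Nat.add (Nat.shiftLeft (nat_lit 1) (Nat.land (Nat.shiftRight (V (nat_lit 25)) (S (nat_lit 16))) (nat_lit 65535))) (Nat.add (Nat.shiftLeft (nat_lit 1) (Nat.land (Nat.shiftRight (V (nat_lit 25)) (S (nat_lit 26))) (nat_lit 65535))) (Nat.shiftLeft (nat_lit 1) (Nat.land (Nat.shiftRight (V (nat_lit 25)) (S (nat_lit 35))) (nat_lit 65535))))) (Nat.add (Nat.add (Nat.shiftLeft (nat_lit 1) (Nat.land (Nat.shiftRight (V (nat_lit 25)) (S (nat_lit 38))) (nat_lit 65535))) (Nat.shiftLeft (nat_lit 1) (Nat.land (Nat.shiftRight (V (nat_lit 25)) (S (nat_lit 42))) (nat_lit 65535)))) (Nat.add (Nat.shiftLeft (nat_lit 1) (Nat.land (Nat.shiftRight (V (nat_lit 26)) (S (nat_lit 17))) (nat_lit 65535))) (Nat.shiftLeft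 (nat_lit 1) (Nat.land (Nat.shiftRight (V (nat_lit 26)) (S (nat_lit 25))) (nat_lit 65535)))))) (Nat.add (Nat.add (Nat.add (Nat.shiftLeft (nat_lit 1) (Nat.land (Nat.shiftRight (V (nat_lit 26)) (S (nat_lit 32))) (nat_lit 65535))) (Nat.shiftLeft (nat_lit 1) (Nat.land (Nat.shiftRight (V (nat_lit 26)) (S (nat_lit 50))) (nat_lit 65535)))) (Nat.add (Nat.shiftLeft (nat_lit 1) (Nat.land (Nat.shiftRight (V (nat_lit 26)) (S (nat_lit 54))) (nat_lit 65535))) (Nat.shiftLeft (nat_lit 1) (Nat.land (Nat.shiftRight (V (nat_lit 31)) (S (nat_lit 16))) (nat_lit 65535))))) (Nat.add (Nat.add (Nat.shiftLeft (nat_lit 1) (Nat.land (Nat.shiftRight (V (nat_lit 31)) (S (nat_lit 18))) (nat_lit 65535))) (Nat.shiftLeft (nat_lit 1) (Nat.land (Nat.shiftRight (V (nat_lit 31)) (S (nat_lit 34))) (nat_lit 65535)))) (Nat.add (Nat.shiftLeft (nat_lit 1) (Nat.land (Nat.shiftRight (V (nat_lit 31)) (S (nat_lit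 35))) (nat_lit 65535))) (Nat.shiftLeft (nat_lit 1) (Nat.land (Nat.shiftRight (V (nat_lit 31)) (S (nat_lit 58))) (nat_lit 65535))))))) (Nat.add (Nat.add (Nat.add (Nat.shiftLeft (nat_lit 1) (Nat.land (Nat.shiftRight (V (nat_lit 32)) (S (nat_lit 26))) (nat_lit 65535))) (Nat.add (Nat.shiftLeft (nat_lit 1) (Nat.land (Nat.shiftRight (V (nat_lit 32)) (S (nat_lit 34))) (nat_lit 65535))) (Nat.shiftLeft (nat_lit 1) (Nat.land (Nat.shiftRight (V (nat_lit 32)) (S (nat_lit 38))) (nat_lit 65535))))) (Nat.add (Nat.add (Nat.shiftLeft (nat_lit 1) (Nat.land (Nat.shiftRight (V (nat_lit 32)) (S (nat_lit 57))) (nat_lit 65535))) (Nat.shiftLeft (nat_lit 1) (Nat.land (Nat.shiftRight (V (nat_lit 32)) (S (nat_lit 58))) (nat_lit 65535)))) (Nat.add (Nat.shiftLeft (nat_lit 1) (Nat.land (Nat.shiftRight (V (nat_lit 34)) (S (nat_lit 17))) (nat_lit 65535))) (Nat.shiftLeft (nat_lit 1) (Nat.land (Nat.shiftRight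 (V (nat_lit 34)) (S (nat_lit 21))) (nat_lit 65535)))))) (Nat.add (Nat.add (Nat.add (Nat.shiftLeft (nat_lit 1) (Nat.land (Nat.shiftRight (V (nat_lit 34)) (S (nat_lit 31))) (nat_lit 65535))) (Nat.shiftLeft (nat_lit 1) (Nat.land (Nat.shiftRight (V (nat_lit 34)) (S (nat_lit 32))) (nat_lit 65535)))) (Nat.add (Nat.shiftLeft (nat_lit 1) (Nat.land (Nat.shiftRight (V (nat_lit 34)) (S (nat_lit 46))) (nat_lit 65535))) (Nat.shiftLeft (nat_lit 1) (Nat.land (Nat.shiftRight (V (nat_lit 35)) (S (nat_lit 25))) (nat_lit 65535))))) (Nat.add (Nat.add (Nat.shiftLeft (nat_lit 1) (Nat.land (Nat.shiftRight (V (nat_lit 35)) (S (nat_lit 31))) (nat_lit 65535))) (Nat.shiftLeft (nat_lit 1) (Nat.land (Nat.shiftRight (V (nat_lit 35)) (S (nat_lit 45))) (nat_lit 65535)))) (Nat.add (Nat.shiftLeft (nat_lit 1) (Nat.land (Nat.shiftRight (V (nat_lit 35)) (S (nat_lit 46))) (nat_lit 65535))) (Nat.shiftLeft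 (nat_lit 1) (Nat.land (Nat.shiftRight (V (nat_lit 35)) (S (nat_lit 50))) (nat_lit 65535))))))))) (Nat.add (Nat.add (Nat.add (Nat.add (Nat.add (Nat.shiftLeft (nat_lit 1) (Nat.land (Nat.shiftRight (V (nat_lit 36)) (S (nat_lit 18))) (nat_lit 65535))) (Nat.add (Nat.shiftLeft (nat_lit 1) (Nat.land (Nat.shiftRight (V (nat_lit 36)) (S (nat_lit 38))) (nat_lit 65535))) (Nat.shiftLeft (nat_lit 1) (Nat.land (Nat.shiftRight (V (nat_lit 36)) (S (nat_lit 42))) (nat_lit 65535))))) (Nat.add (Nat.add (Nat.shiftLeft (nat_lit 1) (Nat.land (Nat.shiftRight (V (nat_lit 36)) (S (nat_lit 48))) (nat_lit 65535))) (Nat.shiftLeft (nat_lit 1) (Nat.land (Nat.shiftRight (V (nat_lit 36)) (S (nat_lit 58))) (nat_lit 65535)))) (Nat.add (Nat.shiftLeft (nat_lit 1) (Nat.land (Nat.shiftRight (V (nat_lit 38)) (S (nat_lit 20))) (nat_lit 65535))) (Nat.shiftLeft (nat_lit 1) (Nat.land (Nat.shiftRight (V (nat_lit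 38)) (S (nat_lit 25))) (nat_lit 65535)))))) (Nat.add (Nat.add (Nat.add (Nat.shiftLeft (nat_lit 1) (Nat.land (Nat.shiftRight (V (nat_lit 38)) (S (nat_lit 32))) (nat_lit 65535))) (Nat.shiftLeft (nat_lit 1) (Nat.land (Nat.shiftRight (V (nat_lit 38)) (S (nat_lit 36))) (nat_lit 65535)))) (Nat.add (Nat.shiftLeft (nat_lit 1) (Nat.land (Nat.shiftRight (V (nat_lit 38)) (S (nat_lit 46))) (nat_lit 65535))) (Nat.shiftLeft (nat_lit 1) (Nat.land (Nat.shiftRight (V (nat_lit 42)) (S (nat_lit 25))) (nat_lit 65535))))) (Nat.add (Nat.add (Nat.shiftLeft (nat_lit 1) (Nat.land (Nat.shiftRight (V (nat_lit 42)) (S (nat_lit 36))) (nat_lit 65535))) (Nat.shiftLeft (nat_lit 1) (Nat.land (Nat.shiftRight (V (nat_lit 42)) (S (nat_lit 45))) (nat_lit 65535)))) (Nat.add (Nat.shiftLeft (nat_lit 1) (Nat.land (Nat.shiftRight (V (nat_lit 42)) (S (nat_lit 54))) (nat_lit 65535))) (Nat.shiftLeft (nat_lit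 1) (Nat.land (Nat.shiftRight (V (nat_lit 42)) (S (nat_lit 56))) (nat_lit 65535))))))) (Nat.add (Nat.add (Nat.add (Nat.shiftLeft (nat_lit 1) (Nat.land (Nat.shiftRight (V (nat_lit 44)) (S (nat_lit 17))) (nat_lit 65535))) (Nat.add (Nat.shiftLeft (nat_lit 1) (Nat.land (Nat.shiftRight (V (nat_lit 44)) (S (nat_lit 20))) (nat_lit 65535))) (Nat.shiftLeft (nat_lit 1) (Nat.land (Nat.shiftRight (V (nat_lit 44)) (S (nat_lit 45))) (nat_lit 65535))))) (Nat.add (Nat.add (Nat.shiftLeft (nat_lit 1) (Nat.land (Nat.shiftRight (V (nat_lit 44)) (S (nat_lit 46))) (nat_lit 65535))) (Nat.shiftLeft (nat_lit 1) (Nat.land (Nat.shiftRight (V (nat_lit 44)) (S (nat_lit 54))) (nat_lit 65535)))) (Nat.add (Nat.shiftLeft (nat_lit 1) (Nat.land (Nat.shiftRight (V (nat_lit 45)) (S (nat_lit 18))) (nat_lit 65535))) (Nat.shiftLeft (nat_lit 1) (Nat.land (Nat.shiftRight (V (nat_lit 45)) (S (nat_lit 23)))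 (nat_lit 65535)))))) (Nat.add (Nat.add (Nat.add (Nat.shiftLeft (nat_lit 1) (Nat.land (Nat.shiftRight (V (nat_lit 45)) (S (nat_lit 35))) (nat_lit 65535))) (Nat.shiftLeft (nat_lit 1) (Nat.land (Nat.shiftRight (V (nat_lit 45)) (S (nat_lit 42))) (nat_lit 65535)))) (Nat.add (Nat.shiftLeft (nat_lit 1) (Nat.land (Nat.shiftRight (V (nat_lit 45)) (S (nat_lit 44))) (nat_lit 65535))) (Nat.shiftLeft (nat_lit 1) (Nat.land (Nat.shiftRight (V (nat_lit 46)) (S (nat_lit 34))) (nat_lit 65535))))) (Nat.add (Nat.add (Nat.shiftLeft (nat_lit 1) (Nat.land (Nat.shiftRight (V (nat_lit 46)) (S (nat_lit 35))) (nat_lit 65535))) (Nat.shiftLeft (nat_lit 1) (Nat.land (Nat.shiftRight (V (nat_lit 46)) (S (nat_lit 38))) (nat_lit 65535)))) (Nat.add (Nat.shiftLeft (nat_lit 1) (Nat.land (Nat.shiftRight (V (nat_lit 46)) (S (nat_lit 44))) (nat_lit 65535))) (Nat.shiftLeft (nat_lit 1) (Nat.land (Nat.shiftRight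 (V (nat_lit 46)) (S (nat_lit 48))) (nat_lit 65535)))))))) (Nat.add (Nat.add (Nat.add (Nat.add (Nat.shiftLeft (nat_lit 1) (Nat.land (Nat.shiftRight (V (nat_lit 48)) (S (nat_lit 21))) (nat_lit 65535))) (Nat.add (Nat.shiftLeft (nat_lit 1) (Nat.land (Nat.shiftRight (V (nat_lit 48)) (S (nat_lit 36))) (nat_lit 65535))) (Nat.shiftLeft (nat_lit 1) (Nat.land (Nat.shiftRight (V (nat_lit 48)) (S (nat_lit 46))) (nat_lit 65535))))) (Nat.add (Nat.add (Nat.shiftLeft (nat_lit 1) (Nat.land (Nat.shiftRight (V (nat_lit 48)) (S (nat_lit 50))) (nat_lit 65535))) (Nat.shiftLeft (nat_lit 1) (Nat.land (Nat.shiftRight (V (nat_lit 48)) (S (nat_lit 54))) (nat_lit 65535)))) (Nat.add (Nat.shiftLeft (nat_lit 1) (Nat.land (Nat.shiftRight (V (nat_lit 50)) (S (nat_lit 23))) (nat_lit 65535))) (Nat.shiftLeft (nat_lit 1) (Nat.land (Nat.shiftRight (V (nat_lit 50)) (S (nat_lit 26))) (nat_lit 65535))))))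 (Nat.add (Nat.add (Nat.add (Nat.shiftLeft (nat_lit 1) (Nat.land (Nat.shiftRight (V (nat_lit 50)) (S (nat_lit 35))) (nat_lit 65535))) (Nat.shiftLeft (nat_lit 1) (Nat.land (Nat.shiftRight (V (nat_lit 50)) (S (nat_lit 48))) (nat_lit 65535)))) (Nat.add (Nat.shiftLeft (nat_lit 1) (Nat.land (Nat.shiftRight (V (nat_lit 50)) (S (nat_lit 58))) (nat_lit 65535))) (Nat.shiftLeft (nat_lit 1) (Nat.land (Nat.shiftRight (V (nat_lit 54)) (S (nat_lit 26))) (nat_lit 65535))))) (Nat.add (Nat.add (Nat.shiftLeft (nat_lit 1) (Nat.land (Nat.shiftRight (V (nat_lit 54)) (S (nat_lit 42))) (nat_lit 65535))) (Nat.shiftLeft (nat_lit 1) (Nat.land (Nat.shiftRight (V (nat_lit 54)) (S (nat_lit 44))) (nat_lit 65535)))) (Nat.add (Nat.shiftLeft (nat_lit 1) (Nat.land (Nat.shiftRight (V (nat_lit 54)) (S (nat_lit 48))) (nat_lit 65535))) (Nat.shiftLeft (nat_lit 1) (Nat.land (Nat.shiftRight (V (nat_lit 54))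 (S (nat_lit 57))) (nat_lit 65535))))))) (Nat.add (Nat.add (Nat.add (Nat.shiftLeft (nat_lit 1) (Nat.land (Nat.shiftRight (V (nat_lit 56)) (S (nat_lit 16))) (nat_lit 65535))) (Nat.add (Nat.shiftLeft (nat_lit 1) (Nat.land (Nat.shiftRight (V (nat_lit 56)) (S (nat_lit 23))) (nat_lit 65535))) (Nat.shiftLeft (nat_lit 1) (Nat.land (Nat.shiftRight (V (nat_lit 56)) (S (nat_lit 42))) (nat_lit 65535))))) (Nat.add (Nat.add (Nat.shiftLeft (nat_lit 1) (Nat.land (Nat.shiftRight (V (nat_lit 56)) (S (nat_lit 57))) (nat_lit 65535))) (Nat.shiftLeft (nat_lit 1) (Nat.land (Nat.shiftRight (V (nat_lit 56)) (S (nat_lit 58))) (nat_lit 65535)))) (Nat.add (Nat.shiftLeft (nat_lit 1) (Nat.land (Nat.shiftRight (V (nat_lit 57)) (S (nat_lit 20))) (nat_lit 65535))) (Nat.shiftLeft (nat_lit 1) (Nat.land (Nat.shiftRight (V (nat_lit 57)) (S (nat_lit 21))) (nat_lit 65535)))))) (Nat.add (Nat.add (Nat.add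 (Nat.shiftLeft (nat_lit 1) (Nat.land (Nat.shiftRight (V (nat_lit 57)) (S (nat_lit 32))) (nat_lit 65535))) (Nat.shiftLeft (nat_lit 1) (Nat.land (Nat.shiftRight (V (nat_lit 57)) (S (nat_lit 54))) (nat_lit 65535)))) (Nat.add (Nat.shiftLeft (nat_lit 1) (Nat.land (Nat.shiftRight (V (nat_lit 57)) (S (nat_lit 56))) (nat_lit 65535))) (Nat.shiftLeft (nat_lit 1) (Nat.land (Nat.shiftRight (V (nat_lit 58)) (S (nat_lit 31))) (nat_lit 65535))))) (Nat.add (Nat.add (Nat.shiftLeft (nat_lit 1) (Nat.land (Nat.shiftRight (V (nat_lit 58)) (S (nat_lit 32))) (nat_lit 65535))) (Nat.shiftLeft (nat_lit 1) (Nat.land (Nat.shiftRight (V (nat_lit 58)) (S (nat_lit 36))) (nat_lit 65535)))) (Nat.add (Nat.shiftLeft (nat_lit 1) (Nat.land (Nat.shiftRight (V (nat_lit 58)) (S (nat_lit 50))) (nat_lit 65535))) (Nat.shiftLeft (nat_lit 1) (Nat.land (Nat.shiftRight (V (nat_lit 58)) (S (nat_lit 56))) (nat_lit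 65535)))))))))
def E25_0 (V S : ℕ → ℕ) : ℕ := Nat.add (Nat.add (Nat.add (Nat.add (Nat.add (Nat.add (Nat.shiftLeft (nat_lit 1) (Nat.land (Nat.shiftRight (V (nat_lit 16)) (S (nat_lit 18))) (nat_lit 65535))) (Nat.add (Nat.shiftLeft (nat_lit 1) (Nat.land (Nat.shiftRight (V (nat_lit 16)) (S (nat_lit 23))) (nat_lit 65535))) (Nat.shiftLeft (nat_lit 1) (Nat.land (Nat.shiftRight (V (nat_lit 16)) (S (nat_lit 35))) (nat_lit 65535))))) (Nat.add (Nat.add (Nat.shiftLeft (nat_lit 1) (Nat.land (Nat.shiftRight (V (nat_lit 16)) (S (nat_lit 42))) (nat_lit 65535))) (Nat.shiftLeft (nat_lit 1) (Nat.land (Nat.shiftRight (V (nat_lit 16)) (S (nat_lit 44))) (nat_lit 65535)))) (Nat.add (Nat.shiftLeft (nat_lit 1) (Nat.land (Nat.shiftRight (V (nat_lit 17)) (S (nat_lit 20))) (nat_lit 65535))) (Nat.shiftLeft (nat_lit 1) (Nat.land (Nat.shiftRight (V (nat_lit 17)) (S (nat_lit 21))) (nat_lit 65535))))))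 (Nat.add (Nat.add (Nat.add (Nat.shiftLeft (nat_lit 1) (Nat.land (Nat.shiftRight (V (nat_lit 17)) (S (nat_lit 32))) (nat_lit 65535))) (Nat.shiftLeft (nat_lit 1) (Nat.land (Nat.shiftRight (V (nat_lit 17)) (S (nat_lit 54))) (nat_lit 65535)))) (Nat.add (Nat.shiftLeft (nat_lit 1) (Nat.land (Nat.shiftRight (V (nat_lit 17)) (S (nat_lit 56))) (nat_lit 65535))) (Nat.shiftLeft (nat_lit 1) (Nat.land (Nat.shiftRight (V (nat_lit 18)) (S (nat_lit 16))) (nat_lit 65535))))) (Nat.add (Nat.add (Nat.shiftLeft (nat_lit 1) (Nat.land (Nat.shiftRight (V (nat_lit 18)) (S (nat_lit 23))) (nat_lit 65535))) (Nat.shiftLeft (nat_lit 1) (Nat.land (Nat.shiftRight (V (nat_lit 18)) (S (nat_lit 42))) (nat_lit 65535)))) (Nat.add (Nat.shiftLeft (nat_lit 1) (Nat.land (Nat.shiftRight (V (nat_lit 18)) (S (nat_lit 57))) (nat_lit 65535))) (Nat.shiftLeft (nat_lit 1) (Nat.land (Nat.shiftRight (V (nat_lit 18))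 (S (nat_lit 58))) (nat_lit 65535))))))) (Nat.add (Nat.add (Nat.add (Nat.shiftLeft (nat_lit 1) (Nat.land (Nat.shiftRight (V (nat_lit 20)) (S (nat_lit 17))) (nat_lit 65535))) (Nat.add (Nat.shiftLeft (nat_lit 1) (Nat.land (Nat.shiftRight (V (nat_lit 20)) (S (nat_lit 21))) (nat_lit 65535))) (Nat.shiftLeft (nat_lit 1) (Nat.land (Nat.shiftRight (V (nat_lit 20)) (S (nat_lit 31))) (nat_lit 65535))))) (Nat.add (Nat.add (Nat.shiftLeft (nat_lit 1) (Nat.land (Nat.shiftRight (V (nat_lit 20)) (S (nat_lit 32))) (nat_lit 65535))) (Nat.shiftLeft (nat_lit 1) (Nat.land (Nat.shiftRight (V (nat_lit 20)) (S (nat_lit 46))) (nat_lit 65535)))) (Nat.add (Nat.shiftLeft (nat_lit 1) (Nat.land (Nat.shiftRight (V (nat_lit 21)) (S (nat_lit 17))) (nat_lit 65535))) (Nat.shiftLeft (nat_lit 1) (Nat.land (Nat.shiftRight (V (nat_lit 21)) (S (nat_lit 20))) (nat_lit 65535)))))) (Nat.add (Nat.add (Nat.add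 (Nat.shiftLeft (nat_lit 1) (Nat.land (Nat.shiftRight (V (nat_lit 21)) (S (nat_lit 45))) (nat_lit 65535))) (Nat.shiftLeft (nat_lit 1) (Nat.land (Nat.shiftRight (V (nat_lit 21)) (S (nat_lit 46))) (nat_lit 65535)))) (Nat.add (Nat.shiftLeft (nat_lit 1) (Nat.land (Nat.shiftRight (V (nat_lit 21)) (S (nat_lit 54))) (nat_lit 65535))) (Nat.shiftLeft (nat_lit 1) (Nat.land (Nat.shiftRight (V (nat_lit 23)) (S (nat_lit 16))) (nat_lit 65535))))) (Nat.add (Nat.add (Nat.shiftLeft (nat_lit 1) (Nat.land (Nat.shiftRight (V (nat_lit 23)) (S (nat_lit 18))) (nat_lit 65535))) (Nat.shiftLeft (nat_lit 1) (Nat.land (Nat.shiftRight (V (nat_lit 23)) (S (nat_lit 34))) (nat_lit 65535)))) (Nat.add (Nat.shiftLeft (nat_lit 1) (Nat.land (Nat.shiftRight (V (nat_lit 23)) (S (nat_lit 35))) (nat_lit 65535))) (Nat.shiftLeft (nat_lit 1) (Nat.land (Nat.shiftRight (V (nat_lit 23)) (S (nat_lit 58))) (nat_lit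 65535)))))))) (Nat.add (Nat.add (Nat.add (Nat.add (Nat.shiftLeft (nat_lit 1) (Nat.land (Nat.shiftRight (V (nat_lit 25)) (S (nat_lit 31))) (nat_lit 65535))) (Nat.add (Nat.shiftLeft (nat_lit 1) (Nat.land (Nat.shiftRight (V (nat_lit 25)) (S (nat_lit 32))) (nat_lit 65535))) (Nat.shiftLeft (nat_lit 1) (Nat.land (Nat.shiftRight (V (nat_lit 25)) (S (nat_lit 36))) (nat_lit 65535))))) (Nat.add (Nat.add (Nat.shiftLeft (nat_lit 1) (Nat.land (Nat.shiftRight (V (nat_lit 25)) (S (nat_lit 50))) (nat_lit 65535))) (Nat.shiftLeft (nat_lit 1) (Nat.land (Nat.shiftRight (V (nat_lit 25)) (S (nat_lit 56))) (nat_lit 65535)))) (Nat.add (Nat.shiftLeft (nat_lit 1) (Nat.land (Nat.shiftRight (V (nat_lit 26)) (S (nat_lit 34))) (nat_lit 65535))) (Nat.shiftLeft (nat_lit 1) (Nat.land (Nat.shiftRight (V (nat_lit 26)) (S (nat_lit 35))) (nat_lit 65535)))))) (Nat.add (Nat.add (Nat.add (Nat.shiftLeft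 (nat_lit 1) (Nat.land (Nat.shiftRight (V (nat_lit 26)) (S (nat_lit 38))) (nat_lit 65535))) (Nat.shiftLeft (nat_lit 1) (Nat.land (Nat.shiftRight (V (nat_lit 26)) (S (nat_lit 44))) (nat_lit 65535)))) (Nat.add (Nat.shiftLeft (nat_lit 1) (Nat.land (Nat.shiftRight (V (nat_lit 26)) (S (nat_lit 48))) (nat_lit 65535))) (Nat.shiftLeft (nat_lit 1) (Nat.land (Nat.shiftRight (V (nat_lit 31)) (S (nat_lit 20))) (nat_lit 65535))))) (Nat.add (Nat.add (Nat.shiftLeft (nat_lit 1) (Nat.land (Nat.shiftRight (V (nat_lit 31)) (S (nat_lit 25))) (nat_lit 65535))) (Nat.shiftLeft (nat_lit 1) (Nat.land (Nat.shiftRight (V (nat_lit 31)) (S (nat_lit 32))) (nat_lit 65535)))) (Nat.add (Nat.shiftLeft (nat_lit 1) (Nat.land (Nat.shiftRight (V (nat_lit 31)) (S (nat_lit 36))) (nat_lit 65535))) (Nat.shiftLeft (nat_lit 1) (Nat.land (Nat.shiftRight (V (nat_lit 31)) (S (nat_lit 46))) (nat_lit 65535)))))))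 (Nat.add (Nat.add (Nat.add (Nat.shiftLeft (nat_lit 1) (Nat.land (Nat.shiftRight (V (nat_lit 32)) (S (nat_lit 17))) (nat_lit 65535))) (Nat.add (Nat.shiftLeft (nat_lit 1) (Nat.land (Nat.shiftRight (V (nat_lit 32)) (S (nat_lit 20))) (nat_lit 65535))) (Nat.shiftLeft (nat_lit 1) (Nat.land (Nat.shiftRight (V (nat_lit 32)) (S (nat_lit 25))) (nat_lit 65535))))) (Nat.add (Nat.add (Nat.shiftLeft (nat_lit 1) (Nat.land (Nat.shiftRight (V (nat_lit 32)) (S (nat_lit 31))) (nat_lit 65535))) (Nat.shiftLeft (nat_lit 1) (Nat.land (Nat.shiftRight (V (nat_lit 32)) (S (nat_lit 56))) (nat_lit 65535)))) (Nat.add (Nat.shiftLeft (nat_lit 1) (Nat.land (Nat.shiftRight (V (nat_lit 34)) (S (nat_lit 23))) (nat_lit 65535))) (Nat.shiftLeft (nat_lit 1) (Nat.land (Nat.shiftRight (V (nat_lit 34)) (S (nat_lit 26))) (nat_lit 65535)))))) (Nat.add (Nat.add (Nat.add (Nat.shiftLeft (nat_lit 1) (Nat.land (Nat.shiftRight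 (V (nat_lit 34)) (S (nat_lit 35))) (nat_lit 65535))) (Nat.shiftLeft (nat_lit 1) (Nat.land (Nat.shiftRight (V (nat_lit 34)) (S (nat_lit 48))) (nat_lit 65535)))) (Nat.add (Nat.shiftLeft (nat_lit 1) (Nat.land (Nat.shiftRight (V (nat_lit 34)) (S (nat_lit 58))) (nat_lit 65535))) (Nat.shiftLeft (nat_lit 1) (Nat.land (Nat.shiftRight (V (nat_lit 35)) (S (nat_lit 16))) (nat_lit 65535))))) (Nat.add (Nat.add (Nat.shiftLeft (nat_lit 1) (Nat.land (Nat.shiftRight (V (nat_lit 35)) (S (nat_lit 23))) (nat_lit 65535))) (Nat.shiftLeft (nat_lit 1) (Nat.land (Nat.shiftRight (V (nat_lit 35)) (S (nat_lit 26))) (nat_lit 65535)))) (Nat.add (Nat.shiftLeft (nat_lit 1) (Nat.land (Nat.shiftRight (V (nat_lit 35)) (S (nat_lit 34))) (nat_lit 65535))) (Nat.shiftLeft (nat_lit 1) (Nat.land (Nat.shiftRight (V (nat_lit 35)) (S (nat_lit 44))) (nat_lit 65535))))))))) (Nat.add (Nat.add (Nat.add (Nat.add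 (Nat.add (Nat.shiftLeft (nat_lit 1) (Nat.land (Nat.shiftRight (V (nat_lit 36)) (S (nat_lit 25))) (nat_lit 65535))) (Nat.add (Nat.shiftLeft (nat_lit 1) (Nat.land (Nat.shiftRight (V (nat_lit 36)) (S (nat_lit 31))) (nat_lit 65535))) (Nat.shiftLeft (nat_lit 1) (Nat.land (Nat.shiftRight (V (nat_lit 36)) (S (nat_lit 45))) (nat_lit 65535))))) (Nat.add (Nat.add (Nat.shiftLeft (nat_lit 1) (Nat.land (Nat.shiftRight (V (nat_lit 36)) (S (nat_lit 46))) (nat_lit 65535))) (Nat.shiftLeft (nat_lit 1) (Nat.land (Nat.shiftRight (V (nat_lit 36)) (S (nat_lit 50))) (nat_lit 65535)))) (Nat.add (Nat.shiftLeft (nat_lit 1) (Nat.land (Nat.shiftRight (V (nat_lit 38)) (S (nat_lit 26))) (nat_lit 65535))) (Nat.shiftLeft (nat_lit 1) (Nat.land (Nat.shiftRight (V (nat_lit 38)) (S (nat_lit 42))) (nat_lit 65535)))))) (Nat.add (Nat.add (Nat.add (Nat.shiftLeft (nat_lit 1) (Nat.land (Nat.shiftRight (V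 (nat_lit 38)) (S (nat_lit 44))) (nat_lit 65535))) (Nat.shiftLeft (nat_lit 1) (Nat.land (Nat.shiftRight (V (nat_lit 38)) (S (nat_lit 48))) (nat_lit 65535)))) (Nat.add (Nat.shiftLeft (nat_lit 1) (Nat.land (Nat.shiftRight (V (nat_lit 38)) (S (nat_lit 57))) (nat_lit 65535))) (Nat.shiftLeft (nat_lit 1) (Nat.land (Nat.shiftRight (V (nat_lit 42)) (S (nat_lit 16))) (nat_lit 65535))))) (Nat.add (Nat.add (Nat.shiftLeft (nat_lit 1) (Nat.land (Nat.shiftRight (V (nat_lit 42)) (S (nat_lit 18))) (nat_lit 65535))) (Nat.shiftLeft (nat_lit 1) (Nat.land (Nat.shiftRight (V (nat_lit 42)) (S (nat_lit 38))) (nat_lit 65535)))) (Nat.add (Nat.shiftLeft (nat_lit 1) (Nat.land (Nat.shiftRight (V (nat_lit 42)) (S (nat_lit 44))) (nat_lit 65535))) (Nat.shiftLeft (nat_lit 1) (Nat.land (Nat.shiftRight (V (nat_lit 42)) (S (nat_lit 57))) (nat_lit 65535))))))) (Nat.add (Nat.add (Nat.add (Nat.shiftLeft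 (nat_lit 1) (Nat.land (Nat.shiftRight (V (nat_lit 44)) (S (nat_lit 16))) (nat_lit 65535))) (Nat.add (Nat.shiftLeft (nat_lit 1) (Nat.land (Nat.shiftRight (V (nat_lit 44)) (S (nat_lit 26))) (nat_lit 65535))) (Nat.shiftLeft (nat_lit 1) (Nat.land (Nat.shiftRight (V (nat_lit 44)) (S (nat_lit 35))) (nat_lit 65535))))) (Nat.add (Nat.add (Nat.shiftLeft (nat_lit 1) (Nat.land (Nat.shiftRight (V (nat_lit 44)) (S (nat_lit 38))) (nat_lit 65535))) (Nat.shiftLeft (nat_lit 1) (Nat.land (Nat.shiftRight (V (nat_lit 44)) (S (nat_lit 42))) (nat_lit 65535)))) (Nat.add (Nat.shiftLeft (nat_lit 1) (Nat.land (Nat.shiftRight (V (nat_lit 45)) (S (nat_lit 21))) (nat_lit 65535))) (Nat.shiftLeft (nat_lit 1) (Nat.land (Nat.shiftRight (V (nat_lit 45)) (S (nat_lit 36))) (nat_lit 65535)))))) (Nat.add (Nat.add (Nat.add (Nat.shiftLeft (nat_lit 1) (Nat.land (Nat.shiftRight (V (nat_lit 45)) (S (nat_lit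 46))) (nat_lit 65535))) (Nat.shiftLeft (nat_lit 1) (Nat.land (Nat.shiftRight (V (nat_lit 45)) (S (nat_lit 50))) (nat_lit 65535)))) (Nat.add (Nat.shiftLeft (nat_lit 1) (Nat.land (Nat.shiftRight (V (nat_lit 45)) (S (nat_lit 54))) (nat_lit 65535))) (Nat.shiftLeft (nat_lit 1) (Nat.land (Nat.shiftRight (V (nat_lit 46)) (S (nat_lit 20))) (nat_lit 65535))))) (Nat.add (Nat.add (Nat.shiftLeft (nat_lit 1) (Nat.land (Nat.shiftRight (V (nat_lit 46)) (S (nat_lit 21))) (nat_lit 65535))) (Nat.shiftLeft (nat_lit 1) (Nat.land (Nat.shiftRight (V (nat_lit 46)) (S (nat_lit 31))) (nat_lit 65535)))) (Nat.add (Nat.shiftLeft (nat_lit 1) (Nat.land (Nat.shiftRight (V (nat_lit 46)) (S (nat_lit 36))) (nat_lit 65535))) (Nat.shiftLeft (nat_lit 1) (Nat.land (Nat.shiftRight (V (nat_lit 46)) (S (nat_lit 45))) (nat_lit 65535)))))))) (Nat.add (Nat.add (Nat.add (Nat.add (Nat.shiftLeft (nat_lit 1) (Nat.land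 (Nat.shiftRight (V (nat_lit 48)) (S (nat_lit 26))) (nat_lit 65535))) (Nat.add (Nat.shiftLeft (nat_lit 1) (Nat.land (Nat.shiftRight (V (nat_lit 48)) (S (nat_lit 34))) (nat_lit 65535))) (Nat.shiftLeft (nat_lit 1) (Nat.land (Nat.shiftRight (V (nat_lit 48)) (S (nat_lit 38))) (nat_lit 65535))))) (Nat.add (Nat.add (Nat.shiftLeft (nat_lit 1) (Nat.land (Nat.shiftRight (V (nat_lit 48)) (S (nat_lit 57))) (nat_lit 65535))) (Nat.shiftLeft (nat_lit 1) (Nat.land (Nat.shiftRight (V (nat_lit 48)) (S (nat_lit 58))) (nat_lit 65535)))) (Nat.add (Nat.shiftLeft (nat_lit 1) (Nat.land (Nat.shiftRight (V (nat_lit 50)) (S (nat_lit 25))) (nat_lit 65535))) (Nat.shiftLeft (nat_lit 1) (Nat.land (Nat.shiftRight (V (nat_lit 50)) (S (nat_lit 36))) (nat_lit 65535)))))) (Nat.add (Nat.add (Nat.add (Nat.shiftLeft (nat_lit 1) (Nat.land (Nat.shiftRight (V (nat_lit 50)) (S (nat_lit 45))) (nat_lit 65535)))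 (Nat.shiftLeft (nat_lit 1) (Nat.land (Nat.shiftRight (V (nat_lit 50)) (S (nat_lit 54))) (nat_lit 65535)))) (Nat.add (Nat.shiftLeft (nat_lit 1) (Nat.land (Nat.shiftRight (V (nat_lit 50)) (S (nat_lit 56))) (nat_lit 65535))) (Nat.shiftLeft (nat_lit 1) (Nat.land (Nat.shiftRight (V (nat_lit 54)) (S (nat_lit 17))) (nat_lit 65535))))) (Nat.add (Nat.add (Nat.shiftLeft (nat_lit 1) (Nat.land (Nat.shiftRight (V (nat_lit 54)) (S (nat_lit 21))) (nat_lit 65535))) (Nat.shiftLeft (nat_lit 1) (Nat.land (Nat.shiftRight (V (nat_lit 54)) (S (nat_lit 45))) (nat_lit 65535)))) (Nat.add (Nat.shiftLeft (nat_lit 1) (Nat.land (Nat.shiftRight (V (nat_lit 54)) (S (nat_lit 50))) (nat_lit 65535))) (Nat.shiftLeft (nat_lit 1) (Nat.land (Nat.shiftRight (V (nat_lit 54)) (S (nat_lit 56))) (nat_lit 65535))))))) (Nat.add (Nat.add (Nat.add (Nat.shiftLeft (nat_lit 1) (Nat.land (Nat.shiftRight (V (nat_lit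 56)) (S (nat_lit 17))) (nat_lit 65535))) (Nat.add (Nat.shiftLeft (nat_lit 1) (Nat.land (Nat.shiftRight (V (nat_lit 56)) (S (nat_lit 25))) (nat_lit 65535))) (Nat.shiftLeft (nat_lit 1) (Nat.land (Nat.shiftRight (V (nat_lit 56)) (S (nat_lit 32))) (nat_lit 65535))))) (Nat.add (Nat.add (Nat.shiftLeft (nat_lit 1) (Nat.land (Nat.shiftRight (V (nat_lit 56)) (S (nat_lit 50))) (nat_lit 65535))) (Nat.shiftLeft (nat_lit 1) (Nat.land (Nat.shiftRight (V (nat_lit 56)) (S (nat_lit 54))) (nat_lit 65535)))) (Nat.add (Nat.shiftLeft (nat_lit 1) (Nat.land (Nat.shiftRight (V (nat_lit 57)) (S (nat_lit 18))) (nat_lit 65535))) (Nat.shiftLeft (nat_lit 1) (Nat.land (Nat.shiftRight (V (nat_lit 57)) (S (nat_lit 38))) (nat_lit 65535)))))) (Nat.add (Nat.add (Nat.add (Nat.shiftLeft (nat_lit 1) (Nat.land (Nat.shiftRight (V (nat_lit 57)) (S (nat_lit 42))) (nat_lit 65535))) (Nat.shiftLeft (nat_lit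 1) (Nat.land (Nat.shiftRight (V (nat_lit 57)) (S (nat_lit 48))) (nat_lit 65535)))) (Nat.add (Nat.shiftLeft (nat_lit 1) (Nat.land (Nat.shiftRight (V (nat_lit 57)) (S (nat_lit 58))) (nat_lit 65535))) (Nat.shiftLeft (nat_lit 1) (Nat.land (Nat.shiftRight (V (nat_lit 58)) (S (nat_lit 18))) (nat_lit 65535))))) (Nat.add (Nat.add (Nat.shiftLeft (nat_lit 1) (Nat.land (Nat.shiftRight (V (nat_lit 58)) (S (nat_lit 23))) (nat_lit 65535))) (Nat.shiftLeft (nat_lit 1) (Nat.land (Nat.shiftRight (V (nat_lit 58)) (S (nat_lit 34))) (nat_lit 65535)))) (Nat.add (Nat.shiftLeft (nat_lit 1) (Nat.land (Nat.shiftRight (V (nat_lit 58)) (S (nat_lit 48))) (nat_lit 65535))) (Nat.shiftLeft (nat_lit 1) (Nat.land (Nat.shiftRight (V (nat_lit 58)) (S (nat_lit 57))) (nat_lit 65535)))))))))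
def E26_0 (V S : ℕ → ℕ) : ℕ := Nat.add (Nat.add (Nat.add (Nat.add (Nat.add (Nat.add (Nat.shiftLeft (nat_lit 1) (Nat.land (Nat.shiftRight (V (nat_lit 16)) (S (nat_lit 21))) (nat_lit 65535))) (Nat.add (Nat.shiftLeft (nat_lit 1) (Nat.land (Nat.shiftRight (V (nat_lit 16)) (S (nat_lit 36))) (nat_lit 65535))) (Nat.shiftLeft (nat_lit 1) (Nat.land (Nat.shiftRight (V (nat_lit 16)) (S (nat_lit 46))) (nat_lit 65535))))) (Nat.add (Nat.add (Nat.shiftLeft (nat_lit 1) (Nat.land (Nat.shiftRight (V (nat_lit 16)) (S (nat_lit 50))) (nat_lit 65535))) (Nat.shiftLeft (nat_lit 1) (Nat.land (Nat.shiftRight (V (nat_lit 16)) (S (nat_lit 54))) (nat_lit 65535)))) (Nat.add (Nat.shiftLeft (nat_lit 1) (Nat.land (Nat.shiftRight (V (nat_lit 17)) (S (nat_lit 18))) (nat_lit 65535))) (Nat.shiftLeft (nat_lit 1) (Nat.land (Nat.shiftRight (V (nat_lit 17)) (S (nat_lit 38))) (nat_lit 65535)))))) (Nat.add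 (Nat.add (Nat.add (Nat.shiftLeft (nat_lit 1) (Nat.land (Nat.shiftRight (V (nat_lit 17)) (S (nat_lit 42))) (nat_lit 65535))) (Nat.shiftLeft (nat_lit 1) (Nat.land (Nat.shiftRight (V (nat_lit 17)) (S (nat_lit 48))) (nat_lit 65535)))) (Nat.add (Nat.shiftLeft (nat_lit 1) (Nat.land (Nat.shiftRight (V (nat_lit 17)) (S (nat_lit 58))) (nat_lit 65535))) (Nat.shiftLeft (nat_lit 1) (Nat.land (Nat.shiftRight (V (nat_lit 18)) (S (nat_lit 17))) (nat_lit 65535))))) (Nat.add (Nat.add (Nat.shiftLeft (nat_lit 1) (Nat.land (Nat.shiftRight (V (nat_lit 18)) (S (nat_lit 25))) (nat_lit 65535))) (Nat.shiftLeft (nat_lit 1) (Nat.land (Nat.shiftRight (V (nat_lit 18)) (S (nat_lit 32))) (nat_lit 65535)))) (Nat.add (Nat.shiftLeft (nat_lit 1) (Nat.land (Nat.shiftRight (V (nat_lit 18)) (S (nat_lit 50))) (nat_lit 65535))) (Nat.shiftLeft (nat_lit 1) (Nat.land (Nat.shiftRight (V (nat_lit 18)) (S (nat_lit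 54))) (nat_lit 65535))))))) (Nat.add (Nat.add (Nat.add (Nat.shiftLeft (nat_lit 1) (Nat.land (Nat.shiftRight (V (nat_lit 20)) (S (nat_lit 23))) (nat_lit 65535))) (Nat.add (Nat.shiftLeft (nat_lit 1) (Nat.land (Nat.shiftRight (V (nat_lit 20)) (S (nat_lit 26))) (nat_lit 65535))) (Nat.shiftLeft (nat_lit 1) (Nat.land (Nat.shiftRight (V (nat_lit 20)) (S (nat_lit 35))) (nat_lit 65535))))) (Nat.add (Nat.add (Nat.shiftLeft (nat_lit 1) (Nat.land (Nat.shiftRight (V (nat_lit 20)) (S (nat_lit 48))) (nat_lit 65535))) (Nat.shiftLeft (nat_lit 1) (Nat.land (Nat.shiftRight (V (nat_lit 20)) (S (nat_lit 58))) (nat_lit 65535)))) (Nat.add (Nat.shiftLeft (nat_lit 1) (Nat.land (Nat.shiftRight (V (nat_lit 21)) (S (nat_lit 16))) (nat_lit 65535))) (Nat.shiftLeft (nat_lit 1) (Nat.land (Nat.shiftRight (V (nat_lit 21)) (S (nat_lit 26))) (nat_lit 65535)))))) (Nat.add (Nat.add (Nat.add (Nat.shiftLeft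 (nat_lit 1) (Nat.land (Nat.shiftRight (V (nat_lit 21)) (S (nat_lit 35))) (nat_lit 65535))) (Nat.shiftLeft (nat_lit 1) (Nat.land (Nat.shiftRight (V (nat_lit 21)) (S (nat_lit 38))) (nat_lit 65535)))) (Nat.add (Nat.shiftLeft (nat_lit 1) (Nat.land (Nat.shiftRight (V (nat_lit 21)) (S (nat_lit 42))) (nat_lit 65535))) (Nat.shiftLeft (nat_lit 1) (Nat.land (Nat.shiftRight (V (nat_lit 23)) (S (nat_lit 20))) (nat_lit 65535))))) (Nat.add (Nat.add (Nat.shiftLeft (nat_lit 1) (Nat.land (Nat.shiftRight (V (nat_lit 23)) (S (nat_lit 25))) (nat_lit 65535))) (Nat.shiftLeft (nat_lit 1) (Nat.land (Nat.shiftRight (V (nat_lit 23)) (S (nat_lit 32))) (nat_lit 65535)))) (Nat.add (Nat.shiftLeft (nat_lit 1) (Nat.land (Nat.shiftRight (V (nat_lit 23)) (S (nat_lit 36))) (nat_lit 65535))) (Nat.shiftLeft (nat_lit 1) (Nat.land (Nat.shiftRight (V (nat_lit 23)) (S (nat_lit 46))) (nat_lit 65535))))))))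 (Nat.add (Nat.add (Nat.add (Nat.add (Nat.shiftLeft (nat_lit 1) (Nat.land (Nat.shiftRight (V (nat_lit 25)) (S (nat_lit 18))) (nat_lit 65535))) (Nat.add (Nat.shiftLeft (nat_lit 1) (Nat.land (Nat.shiftRight (V (nat_lit 25)) (S (nat_lit 23))) (nat_lit 65535))) (Nat.shiftLeft (nat_lit 1) (Nat.land (Nat.shiftRight (V (nat_lit 25)) (S (nat_lit 34))) (nat_lit 65535))))) (Nat.add (Nat.add (Nat.shiftLeft (nat_lit 1) (Nat.land (Nat.shiftRight (V (nat_lit 25)) (S (nat_lit 48))) (nat_lit 65535))) (Nat.shiftLeft (nat_lit 1) (Nat.land (Nat.shiftRight (V (nat_lit 25)) (S (nat_lit 57))) (nat_lit 65535)))) (Nat.add (Nat.shiftLeft (nat_lit 1) (Nat.land (Nat.shiftRight (V (nat_lit 26)) (S (nat_lit 20))) (nat_lit 65535))) (Nat.shiftLeft (nat_lit 1) (Nat.land (Nat.shiftRight (V (nat_lit 26)) (S (nat_lit 21))) (nat_lit 65535)))))) (Nat.add (Nat.add (Nat.add (Nat.shiftLeft (nat_lit 1) (Nat.land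 (Nat.shiftRight (V (nat_lit 26)) (S (nat_lit 31))) (nat_lit 65535))) (Nat.shiftLeft (nat_lit 1) (Nat.land (Nat.shiftRight (V (nat_lit 26)) (S (nat_lit 36))) (nat_lit 65535)))) (Nat.add (Nat.shiftLeft (nat_lit 1) (Nat.land (Nat.shiftRight (V (nat_lit 26)) (S (nat_lit 45))) (nat_lit 65535))) (Nat.shiftLeft (nat_lit 1) (Nat.land (Nat.shiftRight (V (nat_lit 31)) (S (nat_lit 26))) (nat_lit 65535))))) (Nat.add (Nat.add (Nat.shiftLeft (nat_lit 1) (Nat.land (Nat.shiftRight (V (nat_lit 31)) (S (nat_lit 42))) (nat_lit 65535))) (Nat.shiftLeft (nat_lit 1) (Nat.land (Nat.shiftRight (V (nat_lit 31)) (S (nat_lit 44))) (nat_lit 65535)))) (Nat.add (Nat.shiftLeft (nat_lit 1) (Nat.land (Nat.shiftRight (V (nat_lit 31)) (S (nat_lit 48))) (nat_lit 65535))) (Nat.shiftLeft (nat_lit 1) (Nat.land (Nat.shiftRight (V (nat_lit 31)) (S (nat_lit 57))) (nat_lit 65535))))))) (Nat.add (Nat.add (Nat.add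 (Nat.shiftLeft (nat_lit 1) (Nat.land (Nat.shiftRight (V (nat_lit 32)) (S (nat_lit 18))) (nat_lit 65535))) (Nat.add (Nat.shiftLeft (nat_lit 1) (Nat.land (Nat.shiftRight (V (nat_lit 32)) (S (nat_lit 23))) (nat_lit 65535))) (Nat.shiftLeft (nat_lit 1) (Nat.land (Nat.shiftRight (V (nat_lit 32)) (S (nat_lit 35))) (nat_lit 65535))))) (Nat.add (Nat.add (Nat.shiftLeft (nat_lit 1) (Nat.land (Nat.shiftRight (V (nat_lit 32)) (S (nat_lit 42))) (nat_lit 65535))) (Nat.shiftLeft (nat_lit 1) (Nat.land (Nat.shiftRight (V (nat_lit 32)) (S (nat_lit 44))) (nat_lit 65535)))) (Nat.add (Nat.shiftLeft (nat_lit 1) (Nat.land (Nat.shiftRight (V (nat_lit 34)) (S (nat_lit 25))) (nat_lit 65535))) (Nat.shiftLeft (nat_lit 1) (Nat.land (Nat.shiftRight (V (nat_lit 34)) (S (nat_lit 36))) (nat_lit 65535)))))) (Nat.add (Nat.add (Nat.add (Nat.shiftLeft (nat_lit 1) (Nat.land (Nat.shiftRight (V (nat_lit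 34)) (S (nat_lit 45))) (nat_lit 65535))) (Nat.shiftLeft (nat_lit 1) (Nat.land (Nat.shiftRight (V (nat_lit 34)) (S (nat_lit 54))) (nat_lit 65535)))) (Nat.add (Nat.shiftLeft (nat_lit 1) (Nat.land (Nat.shiftRight (V (nat_lit 34)) (S (nat_lit 56))) (nat_lit 65535))) (Nat.shiftLeft (nat_lit 1) (Nat.land (Nat.shiftRight (V (nat_lit 35)) (S (nat_lit 20))) (nat_lit 65535))))) (Nat.add (Nat.add (Nat.shiftLeft (nat_lit 1) (Nat.land (Nat.shiftRight (V (nat_lit 35)) (S (nat_lit 21))) (nat_lit 65535))) (Nat.shiftLeft (nat_lit 1) (Nat.land (Nat.shiftRight (V (nat_lit 35)) (S (nat_lit 32))) (nat_lit 65535)))) (Nat.add (Nat.shiftLeft (nat_lit 1) (Nat.land (Nat.shiftRight (V (nat_lit 35)) (S (nat_lit 54))) (nat_lit 65535))) (Nat.shiftLeft (nat_lit 1) (Nat.land (Nat.shiftRight (V (nat_lit 35)) (S (nat_lit 56))) (nat_lit 65535))))))))) (Nat.add (Nat.add (Nat.add (Nat.add (Nat.add (Nat.shiftLeft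 (nat_lit 1) (Nat.land (Nat.shiftRight (V (nat_lit 36)) (S (nat_lit 16))) (nat_lit 65535))) (Nat.add (Nat.shiftLeft (nat_lit 1) (Nat.land (Nat.shiftRight (V (nat_lit 36)) (S (nat_lit 23))) (nat_lit 65535))) (Nat.shiftLeft (nat_lit 1) (Nat.land (Nat.shiftRight (V (nat_lit 36)) (S (nat_lit 26))) (nat_lit 65535))))) (Nat.add (Nat.add (Nat.shiftLeft (nat_lit 1) (Nat.land (Nat.shiftRight (V (nat_lit 36)) (S (nat_lit 34))) (nat_lit 65535))) (Nat.shiftLeft (nat_lit 1) (Nat.land (Nat.shiftRight (V (nat_lit 36)) (S (nat_lit 44))) (nat_lit 65535)))) (Nat.add (Nat.shiftLeft (nat_lit 1) (Nat.land (Nat.shiftRight (V (nat_lit 38)) (S (nat_lit 17))) (nat_lit 65535))) (Nat.shiftLeft (nat_lit 1) (Nat.land (Nat.shiftRight (V (nat_lit 38)) (S (nat_lit 21))) (nat_lit 65535)))))) (Nat.add (Nat.add (Nat.add (Nat.shiftLeft (nat_lit 1) (Nat.land (Nat.shiftRight (V (nat_lit 38)) (S (nat_lit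 45))) (nat_lit 65535))) (Nat.shiftLeft (nat_lit 1) (Nat.land (Nat.shiftRight (V (nat_lit 38)) (S (nat_lit 50))) (nat_lit 65535)))) (Nat.add (Nat.shiftLeft (nat_lit 1) (Nat.land (Nat.shiftRight (V (nat_lit 38)) (S (nat_lit 56))) (nat_lit 65535))) (Nat.shiftLeft (nat_lit 1) (Nat.land (Nat.shiftRight (V (nat_lit 42)) (S (nat_lit 17))) (nat_lit 65535))))) (Nat.add (Nat.add (Nat.shiftLeft (nat_lit 1) (Nat.land (Nat.shiftRight (V (nat_lit 42)) (S (nat_lit 21))) (nat_lit 65535))) (Nat.shiftLeft (nat_lit 1) (Nat.land (Nat.shiftRight (V (nat_lit 42)) (S (nat_lit 31))) (nat_lit 65535)))) (Nat.add (Nat.shiftLeft (nat_lit 1) (Nat.land (Nat.shiftRight (V (nat_lit 42)) (S (nat_lit 32))) (nat_lit 65535))) (Nat.shiftLeft (nat_lit 1) (Nat.land (Nat.shiftRight (V (nat_lit 42)) (S (nat_lit 46))) (nat_lit 65535))))))) (Nat.add (Nat.add (Nat.add (Nat.shiftLeft (nat_lit 1) (Nat.land (Nat.shiftRight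 (V (nat_lit 44)) (S (nat_lit 31))) (nat_lit 65535))) (Nat.add (Nat.shiftLeft (nat_lit 1) (Nat.land (Nat.shiftRight (V (nat_lit 44)) (S (nat_lit 32))) (nat_lit 65535))) (Nat.shiftLeft (nat_lit 1) (Nat.land (Nat.shiftRight (V (nat_lit 44)) (S (nat_lit 36))) (nat_lit 65535))))) (Nat.add (Nat.add (Nat.shiftLeft (nat_lit 1) (Nat.land (Nat.shiftRight (V (nat_lit 44)) (S (nat_lit 50))) (nat_lit 65535))) (Nat.shiftLeft (nat_lit 1) (Nat.land (Nat.shiftRight (V (nat_lit 44)) (S (nat_lit 56))) (nat_lit 65535)))) (Nat.add (Nat.shiftLeft (nat_lit 1) (Nat.land (Nat.shiftRight (V (nat_lit 45)) (S (nat_lit 26))) (nat_lit 65535))) (Nat.shiftLeft (nat_lit 1) (Nat.land (Nat.shiftRight (V (nat_lit 45)) (S (nat_lit 34))) (nat_lit 65535)))))) (Nat.add (Nat.add (Nat.add (Nat.shiftLeft (nat_lit 1) (Nat.land (Nat.shiftRight (V (nat_lit 45)) (S (nat_lit 38))) (nat_lit 65535))) (Nat.shiftLeft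 (nat_lit 1) (Nat.land (Nat.shiftRight (V (nat_lit 45)) (S (nat_lit 57))) (nat_lit 65535)))) (Nat.add (Nat.shiftLeft (nat_lit 1) (Nat.land (Nat.shiftRight (V (nat_lit 45)) (S (nat_lit 58))) (nat_lit 65535))) (Nat.shiftLeft (nat_lit 1) (Nat.land (Nat.shiftRight (V (nat_lit 46)) (S (nat_lit 16))) (nat_lit 65535))))) (Nat.add (Nat.add (Nat.shiftLeft (nat_lit 1) (Nat.land (Nat.shiftRight (V (nat_lit 46)) (S (nat_lit 23))) (nat_lit 65535))) (Nat.shiftLeft (nat_lit 1) (Nat.land (Nat.shiftRight (V (nat_lit 46)) (S (nat_lit 42))) (nat_lit 65535)))) (Nat.add (Nat.shiftLeft (nat_lit 1) (Nat.land (Nat.shiftRight (V (nat_lit 46)) (S (nat_lit 57))) (nat_lit 65535))) (Nat.shiftLeft (nat_lit 1) (Nat.land (Nat.shiftRight (V (nat_lit 46)) (S (nat_lit 58))) (nat_lit 65535)))))))) (Nat.add (Nat.add (Nat.add (Nat.add (Nat.shiftLeft (nat_lit 1) (Nat.land (Nat.shiftRight (V (nat_lit 48))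 (S (nat_lit 17))) (nat_lit 65535))) (Nat.add (Nat.shiftLeft (nat_lit 1) (Nat.land (Nat.shiftRight (V (nat_lit 48)) (S (nat_lit 20))) (nat_lit 65535))) (Nat.shiftLeft (nat_lit 1) (Nat.land (Nat.shiftRight (V (nat_lit 48)) (S (nat_lit 25))) (nat_lit 65535))))) (Nat.add (Nat.add (Nat.shiftLeft (nat_lit 1) (Nat.land (Nat.shiftRight (V (nat_lit 48)) (S (nat_lit 31))) (nat_lit 65535))) (Nat.shiftLeft (nat_lit 1) (Nat.land (Nat.shiftRight (V (nat_lit 48)) (S (nat_lit 56))) (nat_lit 65535)))) (Nat.add (Nat.shiftLeft (nat_lit 1) (Nat.land (Nat.shiftRight (V (nat_lit 50)) (S (nat_lit 16))) (nat_lit 65535))) (Nat.shiftLeft (nat_lit 1) (Nat.land (Nat.shiftRight (V (nat_lit 50)) (S (nat_lit 18))) (nat_lit 65535)))))) (Nat.add (Nat.add (Nat.add (Nat.shiftLeft (nat_lit 1) (Nat.land (Nat.shiftRight (V (nat_lit 50)) (S (nat_lit 38))) (nat_lit 65535))) (Nat.shiftLeft (nat_lit 1) (Nat.land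 (Nat.shiftRight (V (nat_lit 50)) (S (nat_lit 44))) (nat_lit 65535)))) (Nat.add (Nat.shiftLeft (nat_lit 1) (Nat.land (Nat.shiftRight (V (nat_lit 50)) (S (nat_lit 57))) (nat_lit 65535))) (Nat.shiftLeft (nat_lit 1) (Nat.land (Nat.shiftRight (V (nat_lit 54)) (S (nat_lit 16))) (nat_lit 65535))))) (Nat.add (Nat.add (Nat.shiftLeft (nat_lit 1) (Nat.land (Nat.shiftRight (V (nat_lit 54)) (S (nat_lit 18))) (nat_lit 65535))) (Nat.shiftLeft (nat_lit 1) (Nat.land (Nat.shiftRight (V (nat_lit 54)) (S (nat_lit 34))) (nat_lit 65535)))) (Nat.add (Nat.shiftLeft (nat_lit 1) (Nat.land (Nat.shiftRight (V (nat_lit 54)) (S (nat_lit 35))) (nat_lit 65535))) (Nat.shiftLeft (nat_lit 1) (Nat.land (Nat.shiftRight (V (nat_lit 54)) (S (nat_lit 58))) (nat_lit 65535))))))) (Nat.add (Nat.add (Nat.add (Nat.shiftLeft (nat_lit 1) (Nat.land (Nat.shiftRight (V (nat_lit 56)) (S (nat_lit 34))) (nat_lit 65535)))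 (Nat.add (Nat.shiftLeft (nat_lit 1) (Nat.land (Nat.shiftRight (V (nat_lit 56)) (S (nat_lit 35))) (nat_lit 65535))) (Nat.shiftLeft (nat_lit 1) (Nat.land (Nat.shiftRight (V (nat_lit 56)) (S (nat_lit 38))) (nat_lit 65535))))) (Nat.add (Nat.add (Nat.shiftLeft (nat_lit 1) (Nat.land (Nat.shiftRight (V (nat_lit 56)) (S (nat_lit 44))) (nat_lit 65535))) (Nat.shiftLeft (nat_lit 1) (Nat.land (Nat.shiftRight (V (nat_lit 56)) (S (nat_lit 48))) (nat_lit 65535)))) (Nat.add (Nat.shiftLeft (nat_lit 1) (Nat.land (Nat.shiftRight (V (nat_lit 57)) (S (nat_lit 25))) (nat_lit 65535))) (Nat.shiftLeft (nat_lit 1) (Nat.land (Nat.shiftRight (V (nat_lit 57)) (S (nat_lit 31))) (nat_lit 65535)))))) (Nat.add (Nat.add (Nat.add (Nat.shiftLeft (nat_lit 1) (Nat.land (Nat.shiftRight (V (nat_lit 57)) (S (nat_lit 45))) (nat_lit 65535))) (Nat.shiftLeft (nat_lit 1) (Nat.land (Nat.shiftRight (V (nat_lit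 57)) (S (nat_lit 46))) (nat_lit 65535)))) (Nat.add (Nat.shiftLeft (nat_lit 1) (Nat.land (Nat.shiftRight (V (nat_lit 57)) (S (nat_lit 50))) (nat_lit 65535))) (Nat.shiftLeft (nat_lit 1) (Nat.land (Nat.shiftRight (V (nat_lit 58)) (S (nat_lit 17))) (nat_lit 65535))))) (Nat.add (Nat.add (Nat.shiftLeft (nat_lit 1) (Nat.land (Nat.shiftRight (V (nat_lit 58)) (S (nat_lit 20))) (nat_lit 65535))) (Nat.shiftLeft (nat_lit 1) (Nat.land (Nat.shiftRight (V (nat_lit 58)) (S (nat_lit 45))) (nat_lit 65535)))) (Nat.add (Nat.shiftLeft (nat_lit 1) (Nat.land (Nat.shiftRight (V (nat_lit 58)) (S (nat_lit 46))) (nat_lit 65535))) (Nat.shiftLeft (nat_lit 1) (Nat.land (Nat.shiftRight (V (nat_lit 58)) (S (nat_lit 54))) (nat_lit 65535)))))))))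
def E27_0 (V S : ℕ → ℕ) : ℕ := Nat.add (Nat.add (Nat.add (Nat.add (Nat.add (Nat.add (Nat.shiftLeft (nat_lit 1) (Nat.land (Nat.shiftRight (V (nat_lit 16)) (S (nat_lit 26))) (nat_lit 65535))) (Nat.add (Nat.shiftLeft (nat_lit 1) (Nat.land (Nat.shiftRight (V (nat_lit 16)) (S (nat_lit 34))) (nat_lit 65535))) (Nat.shiftLeft (nat_lit 1) (Nat.land (Nat.shiftRight (V (nat_lit 16)) (S (nat_lit 38))) (nat_lit 65535))))) (Nat.add (Nat.add (Nat.shiftLeft (nat_lit 1) (Nat.land (Nat.shiftRight (V (nat_lit 16)) (S (nat_lit 57))) (nat_lit 65535))) (Nat.shiftLeft (nat_lit 1) (Nat.land (Nat.shiftRight (V (nat_lit 16)) (S (nat_lit 58))) (nat_lit 65535)))) (Nat.add (Nat.shiftLeft (nat_lit 1) (Nat.land (Nat.shiftRight (V (nat_lit 17)) (S (nat_lit 25))) (nat_lit 65535))) (Nat.shiftLeft (nat_lit 1) (Nat.land (Nat.shiftRight (V (nat_lit 17)) (S (nat_lit 31))) (nat_lit 65535)))))) (Nat.add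 (Nat.add (Nat.add (Nat.shiftLeft (nat_lit 1) (Nat.land (Nat.shiftRight (V (nat_lit 17)) (S (nat_lit 45))) (nat_lit 65535))) (Nat.shiftLeft (nat_lit 1) (Nat.land (Nat.shiftRight (V (nat_lit 17)) (S (nat_lit 46))) (nat_lit 65535)))) (Nat.add (Nat.shiftLeft (nat_lit 1) (Nat.land (Nat.shiftRight (V (nat_lit 17)) (S (nat_lit 50))) (nat_lit 65535))) (Nat.shiftLeft (nat_lit 1) (Nat.land (Nat.shiftRight (V (nat_lit 18)) (S (nat_lit 34))) (nat_lit 65535))))) (Nat.add (Nat.add (Nat.shiftLeft (nat_lit 1) (Nat.land (Nat.shiftRight (V (nat_lit 18)) (S (nat_lit 35))) (nat_lit 65535))) (Nat.shiftLeft (nat_lit 1) (Nat.land (Nat.shiftRight (V (nat_lit 18)) (S (nat_lit 38))) (nat_lit 65535)))) (Nat.add (Nat.shiftLeft (nat_lit 1) (Nat.land (Nat.shiftRight (V (nat_lit 18)) (S (nat_lit 44))) (nat_lit 65535))) (Nat.shiftLeft (nat_lit 1) (Nat.land (Nat.shiftRight (V (nat_lit 18)) (S (nat_lit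 48))) (nat_lit 65535))))))) (Nat.add (Nat.add (Nat.add (Nat.shiftLeft (nat_lit 1) (Nat.land (Nat.shiftRight (V (nat_lit 20)) (S (nat_lit 25))) (nat_lit 65535))) (Nat.add (Nat.shiftLeft (nat_lit 1) (Nat.land (Nat.shiftRight (V (nat_lit 20)) (S (nat_lit 36))) (nat_lit 65535))) (Nat.shiftLeft (nat_lit 1) (Nat.land (Nat.shiftRight (V (nat_lit 20)) (S (nat_lit 45))) (nat_lit 65535))))) (Nat.add (Nat.add (Nat.shiftLeft (nat_lit 1) (Nat.land (Nat.shiftRight (V (nat_lit 20)) (S (nat_lit 54))) (nat_lit 65535))) (Nat.shiftLeft (nat_lit 1) (Nat.land (Nat.shiftRight (V (nat_lit 20)) (S (nat_lit 56))) (nat_lit 65535)))) (Nat.add (Nat.shiftLeft (nat_lit 1) (Nat.land (Nat.shiftRight (V (nat_lit 21)) (S (nat_lit 31))) (nat_lit 65535))) (Nat.shiftLeft (nat_lit 1) (Nat.land (Nat.shiftRight (V (nat_lit 21)) (S (nat_lit 32))) (nat_lit 65535)))))) (Nat.add (Nat.add (Nat.add (Nat.shiftLeft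 (nat_lit 1) (Nat.land (Nat.shiftRight (V (nat_lit 21)) (S (nat_lit 36))) (nat_lit 65535))) (Nat.shiftLeft (nat_lit 1) (Nat.land (Nat.shiftRight (V (nat_lit 21)) (S (nat_lit 50))) (nat_lit 65535)))) (Nat.add (Nat.shiftLeft (nat_lit 1) (Nat.land (Nat.shiftRight (V (nat_lit 21)) (S (nat_lit 56))) (nat_lit 65535))) (Nat.shiftLeft (nat_lit 1) (Nat.land (Nat.shiftRight (V (nat_lit 23)) (S (nat_lit 26))) (nat_lit 65535))))) (Nat.add (Nat.add (Nat.shiftLeft (nat_lit 1) (Nat.land (Nat.shiftRight (V (nat_lit 23)) (S (nat_lit 42))) (nat_lit 65535))) (Nat.shiftLeft (nat_lit 1) (Nat.land (Nat.shiftRight (V (nat_lit 23)) (S (nat_lit 44))) (nat_lit 65535)))) (Nat.add (Nat.shiftLeft (nat_lit 1) (Nat.land (Nat.shiftRight (V (nat_lit 23)) (S (nat_lit 48))) (nat_lit 65535))) (Nat.shiftLeft (nat_lit 1) (Nat.land (Nat.shiftRight (V (nat_lit 23)) (S (nat_lit 57))) (nat_lit 65535))))))))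 (Nat.add (Nat.add (Nat.add (Nat.add (Nat.shiftLeft (nat_lit 1) (Nat.land (Nat.shiftRight (V (nat_lit 25)) (S (nat_lit 17))) (nat_lit 65535))) (Nat.add (Nat.shiftLeft (nat_lit 1) (Nat.land (Nat.shiftRight (V (nat_lit 25)) (S (nat_lit 20))) (nat_lit 65535))) (Nat.shiftLeft (nat_lit 1) (Nat.land (Nat.shiftRight (V (nat_lit 25)) (S (nat_lit 45))) (nat_lit 65535))))) (Nat.add (Nat.add (Nat.shiftLeft (nat_lit 1) (Nat.land (Nat.shiftRight (V (nat_lit 25)) (S (nat_lit 46))) (nat_lit 65535))) (Nat.shiftLeft (nat_lit 1) (Nat.land (Nat.shiftRight (V (nat_lit 25)) (S (nat_lit 54))) (nat_lit 65535)))) (Nat.add (Nat.shiftLeft (nat_lit 1) (Nat.land (Nat.shiftRight (V (nat_lit 26)) (S (nat_lit 16))) (nat_lit 65535))) (Nat.shiftLeft (nat_lit 1) (Nat.land (Nat.shiftRight (V (nat_lit 26)) (S (nat_lit 23))) (nat_lit 65535)))))) (Nat.add (Nat.add (Nat.add (Nat.shiftLeft (nat_lit 1) (Nat.land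 (Nat.shiftRight (V (nat_lit 26)) (S (nat_lit 42))) (nat_lit 65535))) (Nat.shiftLeft (nat_lit 1) (Nat.land (Nat.shiftRight (V (nat_lit 26)) (S (nat_lit 57))) (nat_lit 65535)))) (Nat.add (Nat.shiftLeft (nat_lit 1) (Nat.land (Nat.shiftRight (V (nat_lit 26)) (S (nat_lit 58))) (nat_lit 65535))) (Nat.shiftLeft (nat_lit 1) (Nat.land (Nat.shiftRight (V (nat_lit 31)) (S (nat_lit 17))) (nat_lit 65535))))) (Nat.add (Nat.add (Nat.shiftLeft (nat_lit 1) (Nat.land (Nat.shiftRight (V (nat_lit 31)) (S (nat_lit 21))) (nat_lit 65535))) (Nat.shiftLeft (nat_lit 1) (Nat.land (Nat.shiftRight (V (nat_lit 31)) (S (nat_lit 45))) (nat_lit 65535)))) (Nat.add (Nat.shiftLeft (nat_lit 1) (Nat.land (Nat.shiftRight (V (nat_lit 31)) (S (nat_lit 50))) (nat_lit 65535))) (Nat.shiftLeft (nat_lit 1) (Nat.land (Nat.shiftRight (V (nat_lit 31)) (S (nat_lit 56))) (nat_lit 65535))))))) (Nat.add (Nat.add (Nat.add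 (Nat.shiftLeft (nat_lit 1) (Nat.land (Nat.shiftRight (V (nat_lit 32)) (S (nat_lit 21))) (nat_lit 65535))) (Nat.add (Nat.shiftLeft (nat_lit 1) (Nat.land (Nat.shiftRight (V (nat_lit 32)) (S (nat_lit 36))) (nat_lit 65535))) (Nat.shiftLeft (nat_lit 1) (Nat.land (Nat.shiftRight (V (nat_lit 32)) (S (nat_lit 46))) (nat_lit 65535))))) (Nat.add (Nat.add (Nat.shiftLeft (nat_lit 1) (Nat.land (Nat.shiftRight (V (nat_lit 32)) (S (nat_lit 50))) (nat_lit 65535))) (Nat.shiftLeft (nat_lit 1) (Nat.land (Nat.shiftRight (V (nat_lit 32)) (S (nat_lit 54))) (nat_lit 65535)))) (Nat.add (Nat.shiftLeft (nat_lit 1) (Nat.land (Nat.shiftRight (V (nat_lit 34)) (S (nat_lit 16))) (nat_lit 65535))) (Nat.shiftLeft (nat_lit 1) (Nat.land (Nat.shiftRight (V (nat_lit 34)) (S (nat_lit 18))) (nat_lit 65535)))))) (Nat.add (Nat.add (Nat.add (Nat.shiftLeft (nat_lit 1) (Nat.land (Nat.shiftRight (V (nat_lit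 34)) (S (nat_lit 38))) (nat_lit 65535))) (Nat.shiftLeft (nat_lit 1) (Nat.land (Nat.shiftRight (V (nat_lit 34)) (S (nat_lit 44))) (nat_lit 65535)))) (Nat.add (Nat.shiftLeft (nat_lit 1) (Nat.land (Nat.shiftRight (V (nat_lit 34)) (S (nat_lit 57))) (nat_lit 65535))) (Nat.shiftLeft (nat_lit 1) (Nat.land (Nat.shiftRight (V (nat_lit 35)) (S (nat_lit 18))) (nat_lit 65535))))) (Nat.add (Nat.add (Nat.shiftLeft (nat_lit 1) (Nat.land (Nat.shiftRight (V (nat_lit 35)) (S (nat_lit 38))) (nat_lit 65535))) (Nat.shiftLeft (nat_lit 1) (Nat.land (Nat.shiftRight (V (nat_lit 35)) (S (nat_lit 42))) (nat_lit 65535)))) (Nat.add (Nat.shiftLeft (nat_lit 1) (Nat.land (Nat.shiftRight (V (nat_lit 35)) (S (nat_lit 48))) (nat_lit 65535))) (Nat.shiftLeft (nat_lit 1) (Nat.land (Nat.shiftRight (V (nat_lit 35)) (S (nat_lit 58))) (nat_lit 65535))))))))) (Nat.add (Nat.add (Nat.add (Nat.add (Nat.add (Nat.shiftLeft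 (nat_lit 1) (Nat.land (Nat.shiftRight (V (nat_lit 36)) (S (nat_lit 20))) (nat_lit 65535))) (Nat.add (Nat.shiftLeft (nat_lit 1) (Nat.land (Nat.shiftRight (V (nat_lit 36)) (S (nat_lit 21))) (nat_lit 65535))) (Nat.shiftLeft (nat_lit 1) (Nat.land (Nat.shiftRight (V (nat_lit 36)) (S (nat_lit 32))) (nat_lit 65535))))) (Nat.add (Nat.add (Nat.shiftLeft (nat_lit 1) (Nat.land (Nat.shiftRight (V (nat_lit 36)) (S (nat_lit 54))) (nat_lit 65535))) (Nat.shiftLeft (nat_lit 1) (Nat.land (Nat.shiftRight (V (nat_lit 36)) (S (nat_lit 56))) (nat_lit 65535)))) (Nat.add (Nat.shiftLeft (nat_lit 1) (Nat.land (Nat.shiftRight (V (nat_lit 38)) (S (nat_lit 16))) (nat_lit 65535))) (Nat.shiftLeft (nat_lit 1) (Nat.land (Nat.shiftRight (V (nat_lit 38)) (S (nat_lit 18))) (nat_lit 65535)))))) (Nat.add (Nat.add (Nat.add (Nat.shiftLeft (nat_lit 1) (Nat.land (Nat.shiftRight (V (nat_lit 38)) (S (nat_lit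 34))) (nat_lit 65535))) (Nat.shiftLeft (nat_lit 1) (Nat.land (Nat.shiftRight (V (nat_lit 38)) (S (nat_lit 35))) (nat_lit 65535)))) (Nat.add (Nat.shiftLeft (nat_lit 1) (Nat.land (Nat.shiftRight (V (nat_lit 38)) (S (nat_lit 58))) (nat_lit 65535))) (Nat.shiftLeft (nat_lit 1) (Nat.land (Nat.shiftRight (V (nat_lit 42)) (S (nat_lit 23))) (nat_lit 65535))))) (Nat.add (Nat.add (Nat.shiftLeft (nat_lit 1) (Nat.land (Nat.shiftRight (V (nat_lit 42)) (S (nat_lit 26))) (nat_lit 65535))) (Nat.shiftLeft (nat_lit 1) (Nat.land (Nat.shiftRight (V (nat_lit 42)) (S (nat_lit 35))) (nat_lit 65535)))) (Nat.add (Nat.shiftLeft (nat_lit 1) (Nat.land (Nat.shiftRight (V (nat_lit 42)) (S (nat_lit 48))) (nat_lit 65535))) (Nat.shiftLeft (nat_lit 1) (Nat.land (Nat.shiftRight (V (nat_lit 42)) (S (nat_lit 58))) (nat_lit 65535))))))) (Nat.add (Nat.add (Nat.add (Nat.shiftLeft (nat_lit 1) (Nat.land (Nat.shiftRight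 (V (nat_lit 44)) (S (nat_lit 18))) (nat_lit 65535))) (Nat.add (Nat.shiftLeft (nat_lit 1) (Nat.land (Nat.shiftRight (V (nat_lit 44)) (S (nat_lit 23))) (nat_lit 65535))) (Nat.shiftLeft (nat_lit 1) (Nat.land (Nat.shiftRight (V (nat_lit 44)) (S (nat_lit 34))) (nat_lit 65535))))) (Nat.add (Nat.add (Nat.shiftLeft (nat_lit 1) (Nat.land (Nat.shiftRight (V (nat_lit 44)) (S (nat_lit 48))) (nat_lit 65535))) (Nat.shiftLeft (nat_lit 1) (Nat.land (Nat.shiftRight (V (nat_lit 44)) (S (nat_lit 57))) (nat_lit 65535)))) (Nat.add (Nat.shiftLeft (nat_lit 1) (Nat.land (Nat.shiftRight (V (nat_lit 45)) (S (nat_lit 17))) (nat_lit 65535))) (Nat.shiftLeft (nat_lit 1) (Nat.land (Nat.shiftRight (V (nat_lit 45)) (S (nat_lit 20))) (nat_lit 65535)))))) (Nat.add (Nat.add (Nat.add (Nat.shiftLeft (nat_lit 1) (Nat.land (Nat.shiftRight (V (nat_lit 45)) (S (nat_lit 25))) (nat_lit 65535))) (Nat.shiftLeft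 (nat_lit 1) (Nat.land (Nat.shiftRight (V (nat_lit 45)) (S (nat_lit 31))) (nat_lit 65535)))) (Nat.add (Nat.shiftLeft (nat_lit 1) (Nat.land (Nat.shiftRight (V (nat_lit 45)) (S (nat_lit 56))) (nat_lit 65535))) (Nat.shiftLeft (nat_lit 1) (Nat.land (Nat.shiftRight (V (nat_lit 46)) (S (nat_lit 17))) (nat_lit 65535))))) (Nat.add (Nat.add (Nat.shiftLeft (nat_lit 1) (Nat.land (Nat.shiftRight (V (nat_lit 46)) (S (nat_lit 25))) (nat_lit 65535))) (Nat.shiftLeft (nat_lit 1) (Nat.land (Nat.shiftRight (V (nat_lit 46)) (S (nat_lit 32))) (nat_lit 65535)))) (Nat.add (Nat.shiftLeft (nat_lit 1) (Nat.land (Nat.shiftRight (V (nat_lit 46)) (S (nat_lit 50))) (nat_lit 65535))) (Nat.shiftLeft (nat_lit 1) (Nat.land (Nat.shiftRight (V (nat_lit 46)) (S (nat_lit 54))) (nat_lit 65535)))))))) (Nat.add (Nat.add (Nat.add (Nat.add (Nat.shiftLeft (nat_lit 1) (Nat.land (Nat.shiftRight (V (nat_lit 48))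 (S (nat_lit 18))) (nat_lit 65535))) (Nat.add (Nat.shiftLeft (nat_lit 1) (Nat.land (Nat.shiftRight (V (nat_lit 48)) (S (nat_lit 23))) (nat_lit 65535))) (Nat.shiftLeft (nat_lit 1) (Nat.land (Nat.shiftRight (V (nat_lit 48)) (S (nat_lit 35))) (nat_lit 65535))))) (Nat.add (Nat.add (Nat.shiftLeft (nat_lit 1) (Nat.land (Nat.shiftRight (V (nat_lit 48)) (S (nat_lit 42))) (nat_lit 65535))) (Nat.shiftLeft (nat_lit 1) (Nat.land (Nat.shiftRight (V (nat_lit 48)) (S (nat_lit 44))) (nat_lit 65535)))) (Nat.add (Nat.shiftLeft (nat_lit 1) (Nat.land (Nat.shiftRight (V (nat_lit 50)) (S (nat_lit 17))) (nat_lit 65535))) (Nat.shiftLeft (nat_lit 1) (Nat.land (Nat.shiftRight (V (nat_lit 50)) (S (nat_lit 21))) (nat_lit 65535)))))) (Nat.add (Nat.add (Nat.add (Nat.shiftLeft (nat_lit 1) (Nat.land (Nat.shiftRight (V (nat_lit 50)) (S (nat_lit 31))) (nat_lit 65535))) (Nat.shiftLeft (nat_lit 1) (Nat.land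 (Nat.shiftRight (V (nat_lit 50)) (S (nat_lit 32))) (nat_lit 65535)))) (Nat.add (Nat.shiftLeft (nat_lit 1) (Nat.land (Nat.shiftRight (V (nat_lit 50)) (S (nat_lit 46))) (nat_lit 65535))) (Nat.shiftLeft (nat_lit 1) (Nat.land (Nat.shiftRight (V (nat_lit 54)) (S (nat_lit 20))) (nat_lit 65535))))) (Nat.add (Nat.add (Nat.shiftLeft (nat_lit 1) (Nat.land (Nat.shiftRight (V (nat_lit 54)) (S (nat_lit 25))) (nat_lit 65535))) (Nat.shiftLeft (nat_lit 1) (Nat.land (Nat.shiftRight (V (nat_lit 54)) (S (nat_lit 32))) (nat_lit 65535)))) (Nat.add (Nat.shiftLeft (nat_lit 1) (Nat.land (Nat.shiftRight (V (nat_lit 54)) (S (nat_lit 36))) (nat_lit 65535))) (Nat.shiftLeft (nat_lit 1) (Nat.land (Nat.shiftRight (V (nat_lit 54)) (S (nat_lit 46))) (nat_lit 65535))))))) (Nat.add (Nat.add (Nat.add (Nat.shiftLeft (nat_lit 1) (Nat.land (Nat.shiftRight (V (nat_lit 56)) (S (nat_lit 20))) (nat_lit 65535)))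 (Nat.add (Nat.shiftLeft (nat_lit 1) (Nat.land (Nat.shiftRight (V (nat_lit 56)) (S (nat_lit 21))) (nat_lit 65535))) (Nat.shiftLeft (nat_lit 1) (Nat.land (Nat.shiftRight (V (nat_lit 56)) (S (nat_lit 31))) (nat_lit 65535))))) (Nat.add (Nat.add (Nat.shiftLeft (nat_lit 1) (Nat.land (Nat.shiftRight (V (nat_lit 56)) (S (nat_lit 36))) (nat_lit 65535))) (Nat.shiftLeft (nat_lit 1) (Nat.land (Nat.shiftRight (V (nat_lit 56)) (S (nat_lit 45))) (nat_lit 65535)))) (Nat.add (Nat.shiftLeft (nat_lit 1) (Nat.land (Nat.shiftRight (V (nat_lit 57)) (S (nat_lit 16))) (nat_lit 65535))) (Nat.shiftLeft (nat_lit 1) (Nat.land (Nat.shiftRight (V (nat_lit 57)) (S (nat_lit 23))) (nat_lit 65535)))))) (Nat.add (Nat.add (Nat.add (Nat.shiftLeft (nat_lit 1) (Nat.land (Nat.shiftRight (V (nat_lit 57)) (S (nat_lit 26))) (nat_lit 65535))) (Nat.shiftLeft (nat_lit 1) (Nat.land (Nat.shiftRight (V (nat_lit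 57)) (S (nat_lit 34))) (nat_lit 65535)))) (Nat.add (Nat.shiftLeft (nat_lit 1) (Nat.land (Nat.shiftRight (V (nat_lit 57)) (S (nat_lit 44))) (nat_lit 65535))) (Nat.shiftLeft (nat_lit 1) (Nat.land (Nat.shiftRight (V (nat_lit 58)) (S (nat_lit 16))) (nat_lit 65535))))) (Nat.add (Nat.add (Nat.shiftLeft (nat_lit 1) (Nat.land (Nat.shiftRight (V (nat_lit 58)) (S (nat_lit 26))) (nat_lit 65535))) (Nat.shiftLeft (nat_lit 1) (Nat.land (Nat.shiftRight (V (nat_lit 58)) (S (nat_lit 35))) (nat_lit 65535)))) (Nat.add (Nat.shiftLeft (nat_lit 1) (Nat.land (Nat.shiftRight (V (nat_lit 58)) (S (nat_lit 38))) (nat_lit 65535))) (Nat.shiftLeft (nat_lit 1) (Nat.land (Nat.shiftRight (V (nat_lit 58)) (S (nat_lit 42))) (nat_lit 65535)))))))))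
def E28_0 (V S : ℕ → ℕ) : ℕ := Nat.add (Nat.add (Nat.add (Nat.add (Nat.add (Nat.shiftLeft (nat_lit 1) (Nat.land (Nat.shiftRight (V (nat_lit 16)) (S (nat_lit 32))) (nat_lit 65535))) (Nat.add (Nat.shiftLeft (nat_lit 1) (Nat.land (Nat.shiftRight (V (nat_lit 16)) (S (nat_lit 45))) (nat_lit 65535))) (Nat.shiftLeft (nat_lit 1) (Nat.land (Nat.shiftRight (V (nat_lit 17)) (S (nat_lit 35))) (nat_lit 65535))))) (Nat.add (Nat.shiftLeft (nat_lit 1) (Nat.land (Nat.shiftRight (V (nat_lit 17)) (S (nat_lit 57))) (nat_lit 65535))) (Nat.add (Nat.shiftLeft (nat_lit 1) (Nat.land (Nat.shiftRight (V (nat_lit 18)) (S (nat_lit 46))) (nat_lit 65535))) (Nat.shiftLeft (nat_lit 1) (Nat.land (Nat.shiftRight (V (nat_lit 18)) (S (nat_lit 56))) (nat_lit 65535)))))) (Nat.add (Nat.add (Nat.shiftLeft (nat_lit 1) (Nat.land (Nat.shiftRight (V (nat_lit 20)) (S (nat_lit 34))) (nat_lit 65535))) (Nat.add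 (Nat.shiftLeft (nat_lit 1) (Nat.land (Nat.shiftRight (V (nat_lit 20)) (S (nat_lit 42))) (nat_lit 65535))) (Nat.shiftLeft (nat_lit 1) (Nat.land (Nat.shiftRight (V (nat_lit 21)) (S (nat_lit 44))) (nat_lit 65535))))) (Nat.add (Nat.shiftLeft (nat_lit 1) (Nat.land (Nat.shiftRight (V (nat_lit 21)) (S (nat_lit 58))) (nat_lit 65535))) (Nat.add (Nat.shiftLeft (nat_lit 1) (Nat.land (Nat.shiftRight (V (nat_lit 23)) (S (nat_lit 31))) (nat_lit 65535))) (Nat.shiftLeft (nat_lit 1) (Nat.land (Nat.shiftRight (V (nat_lit 23)) (S (nat_lit 54))) (nat_lit 65535))))))) (Nat.add (Nat.add (Nat.add (Nat.shiftLeft (nat_lit 1) (Nat.land (Nat.shiftRight (V (nat_lit 25)) (S (nat_lit 44))) (nat_lit 65535))) (Nat.add (Nat.shiftLeft (nat_lit 1) (Nat.land (Nat.shiftRight (V (nat_lit 25)) (S (nat_lit 58))) (nat_lit 65535))) (Nat.shiftLeft (nat_lit 1) (Nat.land (Nat.shiftRight (V (nat_lit 26)) (S (nat_lit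 46))) (nat_lit 65535))))) (Nat.add (Nat.shiftLeft (nat_lit 1) (Nat.land (Nat.shiftRight (V (nat_lit 26)) (S (nat_lit 56))) (nat_lit 65535))) (Nat.add (Nat.shiftLeft (nat_lit 1) (Nat.land (Nat.shiftRight (V (nat_lit 31)) (S (nat_lit 23))) (nat_lit 65535))) (Nat.shiftLeft (nat_lit 1) (Nat.land (Nat.shiftRight (V (nat_lit 31)) (S (nat_lit 38))) (nat_lit 65535)))))) (Nat.add (Nat.add (Nat.shiftLeft (nat_lit 1) (Nat.land (Nat.shiftRight (V (nat_lit 32)) (S (nat_lit 16))) (nat_lit 65535))) (Nat.add (Nat.shiftLeft (nat_lit 1) (Nat.land (Nat.shiftRight (V (nat_lit 32)) (S (nat_lit 48))) (nat_lit 65535))) (Nat.shiftLeft (nat_lit 1) (Nat.land (Nat.shiftRight (V (nat_lit 34)) (S (nat_lit 20))) (nat_lit 65535))))) (Nat.add (Nat.shiftLeft (nat_lit 1) (Nat.land (Nat.shiftRight (V (nat_lit 34)) (S (nat_lit 50))) (nat_lit 65535))) (Nat.add (Nat.shiftLeft (nat_lit 1) (Nat.land (Nat.shiftRight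 (V (nat_lit 35)) (S (nat_lit 17))) (nat_lit 65535))) (Nat.shiftLeft (nat_lit 1) (Nat.land (Nat.shiftRight (V (nat_lit 35)) (S (nat_lit 36))) (nat_lit 65535)))))))) (Nat.add (Nat.add (Nat.add (Nat.add (Nat.shiftLeft (nat_lit 1) (Nat.land (Nat.shiftRight (V (nat_lit 36)) (S (nat_lit 35))) (nat_lit 65535))) (Nat.add (Nat.shiftLeft (nat_lit 1) (Nat.land (Nat.shiftRight (V (nat_lit 36)) (S (nat_lit 57))) (nat_lit 65535))) (Nat.shiftLeft (nat_lit 1) (Nat.land (Nat.shiftRight (V (nat_lit 38)) (S (nat_lit 31))) (nat_lit 65535))))) (Nat.add (Nat.shiftLeft (nat_lit 1) (Nat.land (Nat.shiftRight (V (nat_lit 38)) (S (nat_lit 54))) (nat_lit 65535))) (Nat.add (Nat.shiftLeft (nat_lit 1) (Nat.land (Nat.shiftRight (V (nat_lit 42)) (S (nat_lit 20))) (nat_lit 65535))) (Nat.shiftLeft (nat_lit 1) (Nat.land (Nat.shiftRight (V (nat_lit 42)) (S (nat_lit 50))) (nat_lit 65535)))))) (Nat.add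 (Nat.add (Nat.shiftLeft (nat_lit 1) (Nat.land (Nat.shiftRight (V (nat_lit 44)) (S (nat_lit 21))) (nat_lit 65535))) (Nat.add (Nat.shiftLeft (nat_lit 1) (Nat.land (Nat.shiftRight (V (nat_lit 44)) (S (nat_lit 25))) (nat_lit 65535))) (Nat.shiftLeft (nat_lit 1) (Nat.land (Nat.shiftRight (V (nat_lit 45)) (S (nat_lit 16))) (nat_lit 65535))))) (Nat.add (Nat.shiftLeft (nat_lit 1) (Nat.land (Nat.shiftRight (V (nat_lit 45)) (S (nat_lit 48))) (nat_lit 65535))) (Nat.add (Nat.shiftLeft (nat_lit 1) (Nat.land (Nat.shiftRight (V (nat_lit 46)) (S (nat_lit 18))) (nat_lit 65535))) (Nat.shiftLeft (nat_lit 1) (Nat.land (Nat.shiftRight (V (nat_lit 46)) (S (nat_lit 26))) (nat_lit 65535))))))) (Nat.add (Nat.add (Nat.add (Nat.shiftLeft (nat_lit 1) (Nat.land (Nat.shiftRight (V (nat_lit 48)) (S (nat_lit 32))) (nat_lit 65535))) (Nat.add (Nat.shiftLeft (nat_lit 1) (Nat.land (Nat.shiftRight (V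 (nat_lit 48)) (S (nat_lit 45))) (nat_lit 65535))) (Nat.shiftLeft (nat_lit 1) (Nat.land (Nat.shiftRight (V (nat_lit 50)) (S (nat_lit 34))) (nat_lit 65535))))) (Nat.add (Nat.shiftLeft (nat_lit 1) (Nat.land (Nat.shiftRight (V (nat_lit 50)) (S (nat_lit 42))) (nat_lit 65535))) (Nat.add (Nat.shiftLeft (nat_lit 1) (Nat.land (Nat.shiftRight (V (nat_lit 54)) (S (nat_lit 23))) (nat_lit 65535))) (Nat.shiftLeft (nat_lit 1) (Nat.land (Nat.shiftRight (V (nat_lit 54)) (S (nat_lit 38))) (nat_lit 65535)))))) (Nat.add (Nat.add (Nat.shiftLeft (nat_lit 1) (Nat.land (Nat.shiftRight (V (nat_lit 56)) (S (nat_lit 18))) (nat_lit 65535))) (Nat.add (Nat.shiftLeft (nat_lit 1) (Nat.land (Nat.shiftRight (V (nat_lit 56)) (S (nat_lit 26))) (nat_lit 65535))) (Nat.shiftLeft (nat_lit 1) (Nat.land (Nat.shiftRight (V (nat_lit 57)) (S (nat_lit 17))) (nat_lit 65535))))) (Nat.add (Nat.shiftLeft (nat_lit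 1) (Nat.land (Nat.shiftRight (V (nat_lit 57)) (S (nat_lit 36))) (nat_lit 65535))) (Nat.add (Nat.shiftLeft (nat_lit 1) (Nat.land (Nat.shiftRight (V (nat_lit 58)) (S (nat_lit 21))) (nat_lit 65535))) (Nat.shiftLeft (nat_lit 1) (Nat.land (Nat.shiftRight (V (nat_lit 58)) (S (nat_lit 25))) (nat_lit 65535))))))))
def E29_0 (V S : ℕ → ℕ) : ℕ := Nat.add (Nat.add (Nat.add (Nat.add (Nat.shiftLeft (nat_lit 1) (Nat.land (Nat.shiftRight (V (nat_lit 16)) (S (nat_lit 48))) (nat_lit 65535))) (Nat.add (Nat.shiftLeft (nat_lit 1) (Nat.land (Nat.shiftRight (V (nat_lit 17)) (S (nat_lit 36))) (nat_lit 65535))) (Nat.shiftLeft (nat_lit 1) (Nat.land (Nat.shiftRight (V (nat_lit 18)) (S (nat_lit 26))) (nat_lit 65535))))) (Nat.add (Nat.shiftLeft (nat_lit 1) (Nat.land (Nat.shiftRight (V (nat_lit 20)) (S (nat_lit 50))) (nat_lit 65535))) (Nat.add (Nat.shiftLeft (nat_lit 1) (Nat.land (Nat.shiftRight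 (V (nat_lit 21)) (S (nat_lit 25))) (nat_lit 65535))) (Nat.shiftLeft (nat_lit 1) (Nat.land (Nat.shiftRight (V (nat_lit 23)) (S (nat_lit 38))) (nat_lit 65535)))))) (Nat.add (Nat.add (Nat.shiftLeft (nat_lit 1) (Nat.land (Nat.shiftRight (V (nat_lit 25)) (S (nat_lit 21))) (nat_lit 65535))) (Nat.add (Nat.shiftLeft (nat_lit 1) (Nat.land (Nat.shiftRight (V (nat_lit 26)) (S (nat_lit 18))) (nat_lit 65535))) (Nat.shiftLeft (nat_lit 1) (Nat.land (Nat.shiftRight (V (nat_lit 31)) (S (nat_lit 54))) (nat_lit 65535))))) (Nat.add (Nat.shiftLeft (nat_lit 1) (Nat.land (Nat.shiftRight (V (nat_lit 32)) (S (nat_lit 45))) (nat_lit 65535))) (Nat.add (Nat.shiftLeft (nat_lit 1) (Nat.land (Nat.shiftRight (V (nat_lit 34)) (S (nat_lit 42))) (nat_lit 65535))) (Nat.shiftLeft (nat_lit 1) (Nat.land (Nat.shiftRight (V (nat_lit 35)) (S (nat_lit 57))) (nat_lit 65535))))))) (Nat.add (Nat.add (Nat.add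 (Nat.shiftLeft (nat_lit 1) (Nat.land (Nat.shiftRight (V (nat_lit 36)) (S (nat_lit 17))) (nat_lit 65535))) (Nat.add (Nat.shiftLeft (nat_lit 1) (Nat.land (Nat.shiftRight (V (nat_lit 38)) (S (nat_lit 23))) (nat_lit 65535))) (Nat.shiftLeft (nat_lit 1) (Nat.land (Nat.shiftRight (V (nat_lit 42)) (S (nat_lit 34))) (nat_lit 65535))))) (Nat.add (Nat.shiftLeft (nat_lit 1) (Nat.land (Nat.shiftRight (V (nat_lit 44)) (S (nat_lit 58))) (nat_lit 65535))) (Nat.add (Nat.shiftLeft (nat_lit 1) (Nat.land (Nat.shiftRight (V (nat_lit 45)) (S (nat_lit 32))) (nat_lit 65535))) (Nat.shiftLeft (nat_lit 1) (Nat.land (Nat.shiftRight (V (nat_lit 46)) (S (nat_lit 56))) (nat_lit 65535)))))) (Nat.add (Nat.add (Nat.shiftLeft (nat_lit 1) (Nat.land (Nat.shiftRight (V (nat_lit 48)) (S (nat_lit 16))) (nat_lit 65535))) (Nat.add (Nat.shiftLeft (nat_lit 1) (Nat.land (Nat.shiftRight (V (nat_lit 50)) (S (nat_lit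 20))) (nat_lit 65535))) (Nat.shiftLeft (nat_lit 1) (Nat.land (Nat.shiftRight (V (nat_lit 54)) (S (nat_lit 31))) (nat_lit 65535))))) (Nat.add (Nat.shiftLeft (nat_lit 1) (Nat.land (Nat.shiftRight (V (nat_lit 56)) (S (nat_lit 46))) (nat_lit 65535))) (Nat.add (Nat.shiftLeft (nat_lit 1) (Nat.land (Nat.shiftRight (V (nat_lit 57)) (S (nat_lit 35))) (nat_lit 65535))) (Nat.shiftLeft (nat_lit 1) (Nat.land (Nat.shiftRight (V (nat_lit 58)) (S (nat_lit 44))) (nat_lit 65535)))))))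
def E2_1 (V S : ℕ → ℕ) : ℕ := Nat.add (Nat.shiftLeft (nat_lit 1) (Nat.land (Nat.shiftRight (V (nat_lit 0)) (S (nat_lit 0))) (nat_lit 65535))) (Nat.shiftLeft (nat_lit 1) (Nat.land (Nat.shiftRight (V (nat_lit 3)) (S (nat_lit 3))) (nat_lit 65535)))
def E6_1 (V S : ℕ → ℕ) : ℕ := Nat.add (Nat.add (Nat.add (Nat.add (Nat.add (Nat.shiftLeft (nat_lit 1) (Nat.land (Nat.shiftRight (V (nat_lit 0)) (S (nat_lit 1))) (nat_lit 65535))) (Nat.shiftLeft (nat_lit 1) (Nat.land (Nat.shiftRight (V (nat_lit 0)) (S (nat_lit 2))) (nat_lit 65535)))) (Nat.add (Nat.shiftLeft (nat_lit 1) (Nat.land (Nat.shiftRight (V (nat_lit 0)) (S (nat_lit 4))) (nat_lit 65535))) (Nat.shiftLeft (nat_lit 1) (Nat.land (Nat.shiftRight (V (nat_lit 0)) (S (nat_lit 5))) (nat_lit 65535))))) (Nat.add (Nat.add (Nat.shiftLeft (nat_lit 1) (Nat.land (Nat.shiftRight (V (nat_lit 0)) (S (nat_lit 6))) (nat_lit 65535))) (Nat.shiftLeft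 (nat_lit 1) (Nat.land (Nat.shiftRight (V (nat_lit 0)) (S (nat_lit 7))) (nat_lit 65535)))) (Nat.add (Nat.shiftLeft (nat_lit 1) (Nat.land (Nat.shiftRight (V (nat_lit 0)) (S (nat_lit 9))) (nat_lit 65535))) (Nat.shiftLeft (nat_lit 1) (Nat.land (Nat.shiftRight (V (nat_lit 0)) (S (nat_lit 10))) (nat_lit 65535)))))) (Nat.add (Nat.add (Nat.add (Nat.shiftLeft (nat_lit 1) (Nat.land (Nat.shiftRight (V (nat_lit 1)) (S (nat_lit 0))) (nat_lit 65535))) (Nat.shiftLeft (nat_lit 1) (Nat.land (Nat.shiftRight (V (nat_lit 1)) (S (nat_lit 3))) (nat_lit 65535)))) (Nat.add (Nat.shiftLeft (nat_lit 1) (Nat.land (Nat.shiftRight (V (nat_lit 2)) (S (nat_lit 0))) (nat_lit 65535))) (Nat.shiftLeft (nat_lit 1) (Nat.land (Nat.shiftRight (V (nat_lit 2)) (S (nat_lit 3))) (nat_lit 65535))))) (Nat.add (Nat.add (Nat.shiftLeft (nat_lit 1) (Nat.land (Nat.shiftRight (V (nat_lit 3)) (S (nat_lit 1))) (nat_lit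 65535))) (Nat.shiftLeft (nat_lit 1) (Nat.land (Nat.shiftRight (V (nat_lit 3)) (S (nat_lit 2))) (nat_lit 65535)))) (Nat.add (Nat.shiftLeft (nat_lit 1) (Nat.land (Nat.shiftRight (V (nat_lit 3)) (S (nat_lit 4))) (nat_lit 65535))) (Nat.shiftLeft (nat_lit 1) (Nat.land (Nat.shiftRight (V (nat_lit 3)) (S (nat_lit 5))) (nat_lit 65535))))))) (Nat.add (Nat.add (Nat.add (Nat.add (Nat.shiftLeft (nat_lit 1) (Nat.land (Nat.shiftRight (V (nat_lit 3)) (S (nat_lit 6))) (nat_lit 65535))) (Nat.shiftLeft (nat_lit 1) (Nat.land (Nat.shiftRight (V (nat_lit 3)) (S (nat_lit 7))) (nat_lit 65535)))) (Nat.add (Nat.shiftLeft (nat_lit 1) (Nat.land (Nat.shiftRight (V (nat_lit 3)) (S (nat_lit 9))) (nat_lit 65535))) (Nat.shiftLeft (nat_lit 1) (Nat.land (Nat.shiftRight (V (nat_lit 3)) (S (nat_lit 10))) (nat_lit 65535))))) (Nat.add (Nat.add (Nat.shiftLeft (nat_lit 1) (Nat.land (Nat.shiftRight (V (nat_lit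 4)) (S (nat_lit 0))) (nat_lit 65535))) (Nat.shiftLeft (nat_lit 1) (Nat.land (Nat.shiftRight (V (nat_lit 4)) (S (nat_lit 3))) (nat_lit 65535)))) (Nat.add (Nat.shiftLeft (nat_lit 1) (Nat.land (Nat.shiftRight (V (nat_lit 5)) (S (nat_lit 0))) (nat_lit 65535))) (Nat.shiftLeft (nat_lit 1) (Nat.land (Nat.shiftRight (V (nat_lit 5)) (S (nat_lit 3))) (nat_lit 65535)))))) (Nat.add (Nat.add (Nat.add (Nat.shiftLeft (nat_lit 1) (Nat.land (Nat.shiftRight (V (nat_lit 6)) (S (nat_lit 0))) (nat_lit 65535))) (Nat.shiftLeft (nat_lit 1) (Nat.land (Nat.shiftRight (V (nat_lit 6)) (S (nat_lit 3))) (nat_lit 65535)))) (Nat.add (Nat.shiftLeft (nat_lit 1) (Nat.land (Nat.shiftRight (V (nat_lit 7)) (S (nat_lit 0))) (nat_lit 65535))) (Nat.shiftLeft (nat_lit 1) (Nat.land (Nat.shiftRight (V (nat_lit 7)) (S (nat_lit 3))) (nat_lit 65535))))) (Nat.add (Nat.add (Nat.shiftLeft (nat_lit 1) (Nat.land (Nat.shiftRight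 (V (nat_lit 9)) (S (nat_lit 0))) (nat_lit 65535))) (Nat.shiftLeft (nat_lit 1) (Nat.land (Nat.shiftRight (V (nat_lit 9)) (S (nat_lit 3))) (nat_lit 65535)))) (Nat.add (Nat.shiftLeft (nat_lit 1) (Nat.land (Nat.shiftRight (V (nat_lit 10)) (S (nat_lit 0))) (nat_lit 65535))) (Nat.shiftLeft (nat_lit 1) (Nat.land (Nat.shiftRight (V (nat_lit 10)) (S (nat_lit 3))) (nat_lit 65535)))))))
def E8_1 (V S : ℕ → ℕ) : ℕ := Nat.add (Nat.add (Nat.add (Nat.shiftLeft (nat_lit 1) (Nat.land (Nat.shiftRight (V (nat_lit 1)) (S (nat_lit 1))) (nat_lit 65535))) (Nat.shiftLeft (nat_lit 1) (Nat.land (Nat.shiftRight (V (nat_lit 2)) (S (nat_lit 2))) (nat_lit 65535)))) (Nat.add (Nat.shiftLeft (nat_lit 1) (Nat.land (Nat.shiftRight (V (nat_lit 4)) (S (nat_lit 4))) (nat_lit 65535))) (Nat.shiftLeft (nat_lit 1) (Nat.land (Nat.shiftRight (V (nat_lit 5)) (S (nat_lit 5))) (nat_lit 65535))))) (Nat.add (Nat.add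 (Nat.shiftLeft (nat_lit 1) (Nat.land (Nat.shiftRight (V (nat_lit 6)) (S (nat_lit 6))) (nat_lit 65535))) (Nat.shiftLeft (nat_lit 1) (Nat.land (Nat.shiftRight (V (nat_lit 7)) (S (nat_lit 7))) (nat_lit 65535)))) (Nat.add (Nat.shiftLeft (nat_lit 1) (Nat.land (Nat.shiftRight (V (nat_lit 9)) (S (nat_lit 9))) (nat_lit 65535))) (Nat.shiftLeft (nat_lit 1) (Nat.land (Nat.shiftRight (V (nat_lit 10)) (S (nat_lit 10))) (nat_lit 65535)))))
def E9_1 (V S : ℕ → ℕ) : ℕ := Nat.add (Nat.add (Nat.add (Nat.add (Nat.shiftLeft (nat_lit 1) (Nat.land (Nat.shiftRight (V (nat_lit 0)) (S (nat_lit 15))) (nat_lit 65535))) (Nat.add (Nat.shiftLeft (nat_lit 1) (Nat.land (Nat.shiftRight (V (nat_lit 0)) (S (nat_lit 24))) (nat_lit 65535))) (Nat.shiftLeft (nat_lit 1) (Nat.land (Nat.shiftRight (V (nat_lit 0)) (S (nat_lit 40))) (nat_lit 65535))))) (Nat.add (Nat.shiftLeft (nat_lit 1) (Nat.land (Nat.shiftRight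 (V (nat_lit 0)) (S (nat_lit 52))) (nat_lit 65535))) (Nat.add (Nat.shiftLeft (nat_lit 1) (Nat.land (Nat.shiftRight (V (nat_lit 3)) (S (nat_lit 12))) (nat_lit 65535))) (Nat.shiftLeft (nat_lit 1) (Nat.land (Nat.shiftRight (V (nat_lit 3)) (S (nat_lit 27))) (nat_lit 65535)))))) (Nat.add (Nat.add (Nat.shiftLeft (nat_lit 1) (Nat.land (Nat.shiftRight (V (nat_lit 3)) (S (nat_lit 43))) (nat_lit 65535))) (Nat.add (Nat.shiftLeft (nat_lit 1) (Nat.land (Nat.shiftRight (V (nat_lit 3)) (S (nat_lit 55))) (nat_lit 65535))) (Nat.shiftLeft (nat_lit 1) (Nat.land (Nat.shiftRight (V (nat_lit 12)) (S (nat_lit 3))) (nat_lit 65535))))) (Nat.add (Nat.shiftLeft (nat_lit 1) (Nat.land (Nat.shiftRight (V (nat_lit 12)) (S (nat_lit 12))) (nat_lit 65535))) (Nat.add (Nat.shiftLeft (nat_lit 1) (Nat.land (Nat.shiftRight (V (nat_lit 15)) (S (nat_lit 0))) (nat_lit 65535))) (Nat.shiftLeft (nat_lit 1) (Nat.land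 (Nat.shiftRight (V (nat_lit 15)) (S (nat_lit 15))) (nat_lit 65535))))))) (Nat.add (Nat.add (Nat.add (Nat.shiftLeft (nat_lit 1) (Nat.land (Nat.shiftRight (V (nat_lit 24)) (S (nat_lit 0))) (nat_lit 65535))) (Nat.add (Nat.shiftLeft (nat_lit 1) (Nat.land (Nat.shiftRight (V (nat_lit 24)) (S (nat_lit 24))) (nat_lit 65535))) (Nat.shiftLeft (nat_lit 1) (Nat.land (Nat.shiftRight (V (nat_lit 27)) (S (nat_lit 3))) (nat_lit 65535))))) (Nat.add (Nat.shiftLeft (nat_lit 1) (Nat.land (Nat.shiftRight (V (nat_lit 27)) (S (nat_lit 27))) (nat_lit 65535))) (Nat.add (Nat.shiftLeft (nat_lit 1) (Nat.land (Nat.shiftRight (V (nat_lit 40)) (S (nat_lit 0))) (nat_lit 65535))) (Nat.shiftLeft (nat_lit 1) (Nat.land (Nat.shiftRight (V (nat_lit 40)) (S (nat_lit 40))) (nat_lit 65535)))))) (Nat.add (Nat.add (Nat.shiftLeft (nat_lit 1) (Nat.land (Nat.shiftRight (V (nat_lit 43)) (S (nat_lit 3))) (nat_lit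 65535))) (Nat.add (Nat.shiftLeft (nat_lit 1) (Nat.land (Nat.shiftRight (V (nat_lit 43)) (S (nat_lit 43))) (nat_lit 65535))) (Nat.shiftLeft (nat_lit 1) (Nat.land (Nat.shiftRight (V (nat_lit 52)) (S (nat_lit 0))) (nat_lit 65535))))) (Nat.add (Nat.shiftLeft (nat_lit 1) (Nat.land (Nat.shiftRight (V (nat_lit 52)) (S (nat_lit 52))) (nat_lit 65535))) (Nat.add (Nat.shiftLeft (nat_lit 1) (Nat.land (Nat.shiftRight (V (nat_lit 55)) (S (nat_lit 3))) (nat_lit 65535))) (Nat.shiftLeft (nat_lit 1) (Nat.land (Nat.shiftRight (V (nat_lit 55)) (S (nat_lit 55))) (nat_lit 65535)))))))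
def E13_1 (V S : ℕ → ℕ) : ℕ := Nat.add (Nat.add (Nat.add (Nat.add (Nat.add (Nat.shiftLeft (nat_lit 1) (Nat.land (Nat.shiftRight (V (nat_lit 0)) (S (nat_lit 19))) (nat_lit 65535))) (Nat.shiftLeft (nat_lit 1) (Nat.land (Nat.shiftRight (V (nat_lit 0)) (S (nat_lit 22))) (nat_lit 65535)))) (Nat.add (Nat.shiftLeft (nat_lit 1) (Nat.land (Nat.shiftRight (V (nat_lit 0)) (S (nat_lit 28))) (nat_lit 65535))) (Nat.shiftLeft (nat_lit 1) (Nat.land (Nat.shiftRight (V (nat_lit 0)) (S (nat_lit 29))) (nat_lit 65535))))) (Nat.add (Nat.add (Nat.shiftLeft (nat_lit 1) (Nat.land (Nat.shiftRight (V (nat_lit 0)) (S (nat_lit 37))) (nat_lit 65535))) (Nat.shiftLeft (nat_lit 1) (Nat.land (Nat.shiftRight (V (nat_lit 0)) (S (nat_lit 39))) (nat_lit 65535)))) (Nat.add (Nat.shiftLeft (nat_lit 1) (Nat.land (Nat.shiftRight (V (nat_lit 0)) (S (nat_lit 49))) (nat_lit 65535))) (Nat.shiftLeft (nat_lit 1)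 (Nat.land (Nat.shiftRight (V (nat_lit 0)) (S (nat_lit 51))) (nat_lit 65535)))))) (Nat.add (Nat.add (Nat.add (Nat.shiftLeft (nat_lit 1) (Nat.land (Nat.shiftRight (V (nat_lit 3)) (S (nat_lit 16))) (nat_lit 65535))) (Nat.shiftLeft (nat_lit 1) (Nat.land (Nat.shiftRight (V (nat_lit 3)) (S (nat_lit 17))) (nat_lit 65535)))) (Nat.add (Nat.shiftLeft (nat_lit 1) (Nat.land (Nat.shiftRight (V (nat_lit 3)) (S (nat_lit 31))) (nat_lit 65535))) (Nat.shiftLeft (nat_lit 1) (Nat.land (Nat.shiftRight (V (nat_lit 3)) (S (nat_lit 34))) (nat_lit 65535))))) (Nat.add (Nat.add (Nat.shiftLeft (nat_lit 1) (Nat.land (Nat.shiftRight (V (nat_lit 3)) (S (nat_lit 36))) (nat_lit 65535))) (Nat.shiftLeft (nat_lit 1) (Nat.land (Nat.shiftRight (V (nat_lit 3)) (S (nat_lit 42))) (nat_lit 65535)))) (Nat.add (Nat.shiftLeft (nat_lit 1) (Nat.land (Nat.shiftRight (V (nat_lit 3)) (S (nat_lit 48))) (nat_lit 65535)))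 (Nat.shiftLeft (nat_lit 1) (Nat.land (Nat.shiftRight (V (nat_lit 3)) (S (nat_lit 54))) (nat_lit 65535))))))) (Nat.add (Nat.add (Nat.add (Nat.add (Nat.shiftLeft (nat_lit 1) (Nat.land (Nat.shiftRight (V (nat_lit 16)) (S (nat_lit 3))) (nat_lit 65535))) (Nat.shiftLeft (nat_lit 1) (Nat.land (Nat.shiftRight (V (nat_lit 17)) (S (nat_lit 3))) (nat_lit 65535)))) (Nat.add (Nat.shiftLeft (nat_lit 1) (Nat.land (Nat.shiftRight (V (nat_lit 19)) (S (nat_lit 0))) (nat_lit 65535))) (Nat.shiftLeft (nat_lit 1) (Nat.land (Nat.shiftRight (V (nat_lit 22)) (S (nat_lit 0))) (nat_lit 65535))))) (Nat.add (Nat.add (Nat.shiftLeft (nat_lit 1) (Nat.land (Nat.shiftRight (V (nat_lit 28)) (S (nat_lit 0))) (nat_lit 65535))) (Nat.shiftLeft (nat_lit 1) (Nat.land (Nat.shiftRight (V (nat_lit 29)) (S (nat_lit 0))) (nat_lit 65535)))) (Nat.add (Nat.shiftLeft (nat_lit 1) (Nat.land (Nat.shiftRight (V (nat_lit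 31)) (S (nat_lit 3))) (nat_lit 65535))) (Nat.shiftLeft (nat_lit 1) (Nat.land (Nat.shiftRight (V (nat_lit 34)) (S (nat_lit 3))) (nat_lit 65535)))))) (Nat.add (Nat.add (Nat.add (Nat.shiftLeft (nat_lit 1) (Nat.land (Nat.shiftRight (V (nat_lit 36)) (S (nat_lit 3))) (nat_lit 65535))) (Nat.shiftLeft (nat_lit 1) (Nat.land (Nat.shiftRight (V (nat_lit 37)) (S (nat_lit 0))) (nat_lit 65535)))) (Nat.add (Nat.shiftLeft (nat_lit 1) (Nat.land (Nat.shiftRight (V (nat_lit 39)) (S (nat_lit 0))) (nat_lit 65535))) (Nat.shiftLeft (nat_lit 1) (Nat.land (Nat.shiftRight (V (nat_lit 42)) (S (nat_lit 3))) (nat_lit 65535))))) (Nat.add (Nat.add (Nat.shiftLeft (nat_lit 1) (Nat.land (Nat.shiftRight (V (nat_lit 48)) (S (nat_lit 3))) (nat_lit 65535))) (Nat.shiftLeft (nat_lit 1) (Nat.land (Nat.shiftRight (V (nat_lit 49)) (S (nat_lit 0))) (nat_lit 65535)))) (Nat.add (Nat.shiftLeft (nat_lit 1) (Nat.land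 (Nat.shiftRight (V (nat_lit 51)) (S (nat_lit 0))) (nat_lit 65535))) (Nat.shiftLeft (nat_lit 1) (Nat.land (Nat.shiftRight (V (nat_lit 54)) (S (nat_lit 3))) (nat_lit 65535)))))))
def E14_1 (V S : ℕ → ℕ) : ℕ := Nat.add (Nat.add (Nat.add (Nat.add (Nat.shiftLeft (nat_lit 1) (Nat.land (Nat.shiftRight (V (nat_lit 16)) (S (nat_lit 16))) (nat_lit 65535))) (Nat.shiftLeft (nat_lit 1) (Nat.land (Nat.shiftRight (V (nat_lit 17)) (S (nat_lit 17))) (nat_lit 65535)))) (Nat.add (Nat.shiftLeft (nat_lit 1) (Nat.land (Nat.shiftRight (V (nat_lit 19)) (S (nat_lit 19))) (nat_lit 65535))) (Nat.shiftLeft (nat_lit 1) (Nat.land (Nat.shiftRight (V (nat_lit 22)) (S (nat_lit 22))) (nat_lit 65535))))) (Nat.add (Nat.add (Nat.shiftLeft (nat_lit 1) (Nat.land (Nat.shiftRight (V (nat_lit 28)) (S (nat_lit 28))) (nat_lit 65535))) (Nat.shiftLeft (nat_lit 1) (Nat.land (Nat.shiftRight (V (nat_lit 29)) (S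 (nat_lit 29))) (nat_lit 65535)))) (Nat.add (Nat.shiftLeft (nat_lit 1) (Nat.land (Nat.shiftRight (V (nat_lit 31)) (S (nat_lit 31))) (nat_lit 65535))) (Nat.shiftLeft (nat_lit 1) (Nat.land (Nat.shiftRight (V (nat_lit 34)) (S (nat_lit 34))) (nat_lit 65535)))))) (Nat.add (Nat.add (Nat.add (Nat.shiftLeft (nat_lit 1) (Nat.land (Nat.shiftRight (V (nat_lit 36)) (S (nat_lit 36))) (nat_lit 65535))) (Nat.shiftLeft (nat_lit 1) (Nat.land (Nat.shiftRight (V (nat_lit 37)) (S (nat_lit 37))) (nat_lit 65535)))) (Nat.add (Nat.shiftLeft (nat_lit 1) (Nat.land (Nat.shiftRight (V (nat_lit 39)) (S (nat_lit 39))) (nat_lit 65535))) (Nat.shiftLeft (nat_lit 1) (Nat.land (Nat.shiftRight (V (nat_lit 42)) (S (nat_lit 42))) (nat_lit 65535))))) (Nat.add (Nat.add (Nat.shiftLeft (nat_lit 1) (Nat.land (Nat.shiftRight (V (nat_lit 48)) (S (nat_lit 48))) (nat_lit 65535))) (Nat.shiftLeft (nat_lit 1) (Nat.land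 (Nat.shiftRight (V (nat_lit 49)) (S (nat_lit 49))) (nat_lit 65535)))) (Nat.add (Nat.shiftLeft (nat_lit 1) (Nat.land (Nat.shiftRight (V (nat_lit 51)) (S (nat_lit 51))) (nat_lit 65535))) (Nat.shiftLeft (nat_lit 1) (Nat.land (Nat.shiftRight (V (nat_lit 54)) (S (nat_lit 54))) (nat_lit 65535))))))
def E16_1 (V S : ℕ → ℕ) : ℕ := Nat.add (Nat.shiftLeft (nat_lit 1) (Nat.land (Nat.shiftRight (V (nat_lit 0)) (S (nat_lit 3))) (nat_lit 65535))) (Nat.shiftLeft (nat_lit 1) (Nat.land (Nat.shiftRight (V (nat_lit 3)) (S (nat_lit 0))) (nat_lit 65535)))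
def E17_1 (V S : ℕ → ℕ) : ℕ := Nat.add (Nat.add (Nat.add (Nat.shiftLeft (nat_lit 1) (Nat.land (Nat.shiftRight (V (nat_lit 0)) (S (nat_lit 8))) (nat_lit 65535))) (Nat.shiftLeft (nat_lit 1) (Nat.land (Nat.shiftRight (V (nat_lit 0)) (S (nat_lit 11))) (nat_lit 65535)))) (Nat.add (Nat.shiftLeft (nat_lit 1) (Nat.land (Nat.shiftRight (V (nat_lit 3)) (S (nat_lit 8))) (nat_lit 65535))) (Nat.add (Nat.shiftLeft (nat_lit 1) (Nat.land (Nat.shiftRight (V (nat_lit 3)) (S (nat_lit 11))) (nat_lit 65535))) (Nat.shiftLeft (nat_lit 1) (Nat.land (Nat.shiftRight (V (nat_lit 8)) (S (nat_lit 0))) (nat_lit 65535)))))) (Nat.add (Nat.add (Nat.shiftLeft (nat_lit 1) (Nat.land (Nat.shiftRight (V (nat_lit 8)) (S (nat_lit 3))) (nat_lit 65535))) (Nat.shiftLeft (nat_lit 1) (Nat.land (Nat.shiftRight (V (nat_lit 8)) (S (nat_lit 8))) (nat_lit 65535)))) (Nat.add (Nat.shiftLeft (nat_lit 1) (Nat.land (Nat.shiftRight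 (V (nat_lit 11)) (S (nat_lit 0))) (nat_lit 65535))) (Nat.add (Nat.shiftLeft (nat_lit 1) (Nat.land (Nat.shiftRight (V (nat_lit 11)) (S (nat_lit 3))) (nat_lit 65535))) (Nat.shiftLeft (nat_lit 1) (Nat.land (Nat.shiftRight (V (nat_lit 11)) (S (nat_lit 11))) (nat_lit 65535))))))
def E18_1 (V S : ℕ → ℕ) : ℕ := Nat.add (Nat.add (Nat.add (Nat.add (Nat.shiftLeft (nat_lit 1) (Nat.land (Nat.shiftRight (V (nat_lit 0)) (S (nat_lit 12))) (nat_lit 65535))) (Nat.shiftLeft (nat_lit 1) (Nat.land (Nat.shiftRight (V (nat_lit 0)) (S (nat_lit 27))) (nat_lit 65535)))) (Nat.add (Nat.shiftLeft (nat_lit 1) (Nat.land (Nat.shiftRight (V (nat_lit 0)) (S (nat_lit 43))) (nat_lit 65535))) (Nat.shiftLeft (nat_lit 1) (Nat.land (Nat.shiftRight (V (nat_lit 0)) (S (nat_lit 55))) (nat_lit 65535))))) (Nat.add (Nat.add (Nat.shiftLeft (nat_lit 1) (Nat.land (Nat.shiftRight (V (nat_lit 3)) (S (nat_lit 15)))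 (nat_lit 65535))) (Nat.shiftLeft (nat_lit 1) (Nat.land (Nat.shiftRight (V (nat_lit 3)) (S (nat_lit 24))) (nat_lit 65535)))) (Nat.add (Nat.shiftLeft (nat_lit 1) (Nat.land (Nat.shiftRight (V (nat_lit 3)) (S (nat_lit 40))) (nat_lit 65535))) (Nat.shiftLeft (nat_lit 1) (Nat.land (Nat.shiftRight (V (nat_lit 3)) (S (nat_lit 52))) (nat_lit 65535)))))) (Nat.add (Nat.add (Nat.add (Nat.shiftLeft (nat_lit 1) (Nat.land (Nat.shiftRight (V (nat_lit 12)) (S (nat_lit 0))) (nat_lit 65535))) (Nat.shiftLeft (nat_lit 1) (Nat.land (Nat.shiftRight (V (nat_lit 15)) (S (nat_lit 3))) (nat_lit 65535)))) (Nat.add (Nat.shiftLeft (nat_lit 1) (Nat.land (Nat.shiftRight (V (nat_lit 24)) (S (nat_lit 3))) (nat_lit 65535))) (Nat.shiftLeft (nat_lit 1) (Nat.land (Nat.shiftRight (V (nat_lit 27)) (S (nat_lit 0))) (nat_lit 65535))))) (Nat.add (Nat.add (Nat.shiftLeft (nat_lit 1) (Nat.land (Nat.shiftRight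 (V (nat_lit 40)) (S (nat_lit 3))) (nat_lit 65535))) (Nat.shiftLeft (nat_lit 1) (Nat.land (Nat.shiftRight (V (nat_lit 43)) (S (nat_lit 0))) (nat_lit 65535)))) (Nat.add (Nat.shiftLeft (nat_lit 1) (Nat.land (Nat.shiftRight (V (nat_lit 52)) (S (nat_lit 3))) (nat_lit 65535))) (Nat.shiftLeft (nat_lit 1) (Nat.land (Nat.shiftRight (V (nat_lit 55)) (S (nat_lit 0))) (nat_lit 65535))))))
def E19_1 (V S : ℕ → ℕ) : ℕ := Nat.add (Nat.add (Nat.add (Nat.add (Nat.add (Nat.shiftLeft (nat_lit 1) (Nat.land (Nat.shiftRight (V (nat_lit 0)) (S (nat_lit 13))) (nat_lit 65535))) (Nat.shiftLeft (nat_lit 1) (Nat.land (Nat.shiftRight (V (nat_lit 0)) (S (nat_lit 14))) (nat_lit 65535)))) (Nat.add (Nat.shiftLeft (nat_lit 1) (Nat.land (Nat.shiftRight (V (nat_lit 0)) (S (nat_lit 30))) (nat_lit 65535))) (Nat.shiftLeft (nat_lit 1) (Nat.land (Nat.shiftRight (V (nat_lit 0)) (S (nat_lit 33))) (nat_lit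 65535))))) (Nat.add (Nat.add (Nat.shiftLeft (nat_lit 1) (Nat.land (Nat.shiftRight (V (nat_lit 0)) (S (nat_lit 41))) (nat_lit 65535))) (Nat.shiftLeft (nat_lit 1) (Nat.land (Nat.shiftRight (V (nat_lit 0)) (S (nat_lit 47))) (nat_lit 65535)))) (Nat.add (Nat.shiftLeft (nat_lit 1) (Nat.land (Nat.shiftRight (V (nat_lit 0)) (S (nat_lit 53))) (nat_lit 65535))) (Nat.shiftLeft (nat_lit 1) (Nat.land (Nat.shiftRight (V (nat_lit 0)) (S (nat_lit 59))) (nat_lit 65535)))))) (Nat.add (Nat.add (Nat.add (Nat.shiftLeft (nat_lit 1) (Nat.land (Nat.shiftRight (V (nat_lit 3)) (S (nat_lit 18))) (nat_lit 65535))) (Nat.shiftLeft (nat_lit 1) (Nat.land (Nat.shiftRight (V (nat_lit 3)) (S (nat_lit 21))) (nat_lit 65535)))) (Nat.add (Nat.shiftLeft (nat_lit 1) (Nat.land (Nat.shiftRight (V (nat_lit 3)) (S (nat_lit 25))) (nat_lit 65535))) (Nat.shiftLeft (nat_lit 1) (Nat.land (Nat.shiftRight (V (nat_lit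 3)) (S (nat_lit 26))) (nat_lit 65535))))) (Nat.add (Nat.add (Nat.shiftLeft (nat_lit 1) (Nat.land (Nat.shiftRight (V (nat_lit 3)) (S (nat_lit 44))) (nat_lit 65535))) (Nat.shiftLeft (nat_lit 1) (Nat.land (Nat.shiftRight (V (nat_lit 3)) (S (nat_lit 46))) (nat_lit 65535)))) (Nat.add (Nat.shiftLeft (nat_lit 1) (Nat.land (Nat.shiftRight (V (nat_lit 3)) (S (nat_lit 56))) (nat_lit 65535))) (Nat.shiftLeft (nat_lit 1) (Nat.land (Nat.shiftRight (V (nat_lit 3)) (S (nat_lit 58))) (nat_lit 65535))))))) (Nat.add (Nat.add (Nat.add (Nat.add (Nat.shiftLeft (nat_lit 1) (Nat.land (Nat.shiftRight (V (nat_lit 13)) (S (nat_lit 0))) (nat_lit 65535))) (Nat.shiftLeft (nat_lit 1) (Nat.land (Nat.shiftRight (V (nat_lit 14)) (S (nat_lit 0))) (nat_lit 65535)))) (Nat.add (Nat.shiftLeft (nat_lit 1) (Nat.land (Nat.shiftRight (V (nat_lit 18)) (S (nat_lit 3))) (nat_lit 65535))) (Nat.shiftLeft (nat_lit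 1) (Nat.land (Nat.shiftRight (V (nat_lit 21)) (S (nat_lit 3))) (nat_lit 65535))))) (Nat.add (Nat.add (Nat.shiftLeft (nat_lit 1) (Nat.land (Nat.shiftRight (V (nat_lit 25)) (S (nat_lit 3))) (nat_lit 65535))) (Nat.shiftLeft (nat_lit 1) (Nat.land (Nat.shiftRight (V (nat_lit 26)) (S (nat_lit 3))) (nat_lit 65535)))) (Nat.add (Nat.shiftLeft (nat_lit 1) (Nat.land (Nat.shiftRight (V (nat_lit 30)) (S (nat_lit 0))) (nat_lit 65535))) (Nat.shiftLeft (nat_lit 1) (Nat.land (Nat.shiftRight (V (nat_lit 33)) (S (nat_lit 0))) (nat_lit 65535)))))) (Nat.add (Nat.add (Nat.add (Nat.shiftLeft (nat_lit 1) (Nat.land (Nat.shiftRight (V (nat_lit 41)) (S (nat_lit 0))) (nat_lit 65535))) (Nat.shiftLeft (nat_lit 1) (Nat.land (Nat.shiftRight (V (nat_lit 44)) (S (nat_lit 3))) (nat_lit 65535)))) (Nat.add (Nat.shiftLeft (nat_lit 1) (Nat.land (Nat.shiftRight (V (nat_lit 46)) (S (nat_lit 3))) (nat_lit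 65535))) (Nat.shiftLeft (nat_lit 1) (Nat.land (Nat.shiftRight (V (nat_lit 47)) (S (nat_lit 0))) (nat_lit 65535))))) (Nat.add (Nat.add (Nat.shiftLeft (nat_lit 1) (Nat.land (Nat.shiftRight (V (nat_lit 53)) (S (nat_lit 0))) (nat_lit 65535))) (Nat.shiftLeft (nat_lit 1) (Nat.land (Nat.shiftRight (V (nat_lit 56)) (S (nat_lit 3))) (nat_lit 65535)))) (Nat.add (Nat.shiftLeft (nat_lit 1) (Nat.land (Nat.shiftRight (V (nat_lit 58)) (S (nat_lit 3))) (nat_lit 65535))) (Nat.shiftLeft (nat_lit 1) (Nat.land (Nat.shiftRight (V (nat_lit 59)) (S (nat_lit 0))) (nat_lit 65535)))))))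
def E20_1 (V S : ℕ → ℕ) : ℕ := Nat.add (Nat.add (Nat.add (Nat.add (Nat.add (Nat.shiftLeft (nat_lit 1) (Nat.land (Nat.shiftRight (V (nat_lit 0)) (S (nat_lit 16))) (nat_lit 65535))) (Nat.shiftLeft (nat_lit 1) (Nat.land (Nat.shiftRight (V (nat_lit 0)) (S (nat_lit 17))) (nat_lit 65535)))) (Nat.add (Nat.shiftLeft (nat_lit 1) (Nat.land (Nat.shiftRight (V (nat_lit 0)) (S (nat_lit 31))) (nat_lit 65535))) (Nat.shiftLeft (nat_lit 1) (Nat.land (Nat.shiftRight (V (nat_lit 0)) (S (nat_lit 34))) (nat_lit 65535))))) (Nat.add (Nat.add (Nat.shiftLeft (nat_lit 1) (Nat.land (Nat.shiftRight (V (nat_lit 0)) (S (nat_lit 36))) (nat_lit 65535))) (Nat.shiftLeft (nat_lit 1) (Nat.land (Nat.shiftRight (V (nat_lit 0)) (S (nat_lit 42))) (nat_lit 65535)))) (Nat.add (Nat.shiftLeft (nat_lit 1) (Nat.land (Nat.shiftRight (V (nat_lit 0)) (S (nat_lit 48))) (nat_lit 65535))) (Nat.shiftLeft (nat_lit 1)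 (Nat.land (Nat.shiftRight (V (nat_lit 0)) (S (nat_lit 54))) (nat_lit 65535)))))) (Nat.add (Nat.add (Nat.add (Nat.shiftLeft (nat_lit 1) (Nat.land (Nat.shiftRight (V (nat_lit 3)) (S (nat_lit 19))) (nat_lit 65535))) (Nat.shiftLeft (nat_lit 1) (Nat.land (Nat.shiftRight (V (nat_lit 3)) (S (nat_lit 22))) (nat_lit 65535)))) (Nat.add (Nat.shiftLeft (nat_lit 1) (Nat.land (Nat.shiftRight (V (nat_lit 3)) (S (nat_lit 28))) (nat_lit 65535))) (Nat.shiftLeft (nat_lit 1) (Nat.land (Nat.shiftRight (V (nat_lit 3)) (S (nat_lit 29))) (nat_lit 65535))))) (Nat.add (Nat.add (Nat.shiftLeft (nat_lit 1) (Nat.land (Nat.shiftRight (V (nat_lit 3)) (S (nat_lit 37))) (nat_lit 65535))) (Nat.shiftLeft (nat_lit 1) (Nat.land (Nat.shiftRight (V (nat_lit 3)) (S (nat_lit 39))) (nat_lit 65535)))) (Nat.add (Nat.shiftLeft (nat_lit 1) (Nat.land (Nat.shiftRight (V (nat_lit 3)) (S (nat_lit 49))) (nat_lit 65535)))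 (Nat.shiftLeft (nat_lit 1) (Nat.land (Nat.shiftRight (V (nat_lit 3)) (S (nat_lit 51))) (nat_lit 65535))))))) (Nat.add (Nat.add (Nat.add (Nat.add (Nat.shiftLeft (nat_lit 1) (Nat.land (Nat.shiftRight (V (nat_lit 16)) (S (nat_lit 0))) (nat_lit 65535))) (Nat.shiftLeft (nat_lit 1) (Nat.land (Nat.shiftRight (V (nat_lit 17)) (S (nat_lit 0))) (nat_lit 65535)))) (Nat.add (Nat.shiftLeft (nat_lit 1) (Nat.land (Nat.shiftRight (V (nat_lit 19)) (S (nat_lit 3))) (nat_lit 65535))) (Nat.shiftLeft (nat_lit 1) (Nat.land (Nat.shiftRight (V (nat_lit 22)) (S (nat_lit 3))) (nat_lit 65535))))) (Nat.add (Nat.add (Nat.shiftLeft (nat_lit 1) (Nat.land (Nat.shiftRight (V (nat_lit 28)) (S (nat_lit 3))) (nat_lit 65535))) (Nat.shiftLeft (nat_lit 1) (Nat.land (Nat.shiftRight (V (nat_lit 29)) (S (nat_lit 3))) (nat_lit 65535)))) (Nat.add (Nat.shiftLeft (nat_lit 1) (Nat.land (Nat.shiftRight (V (nat_lit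 31)) (S (nat_lit 0))) (nat_lit 65535))) (Nat.shiftLeft (nat_lit 1) (Nat.land (Nat.shiftRight (V (nat_lit 34)) (S (nat_lit 0))) (nat_lit 65535)))))) (Nat.add (Nat.add (Nat.add (Nat.shiftLeft (nat_lit 1) (Nat.land (Nat.shiftRight (V (nat_lit 36)) (S (nat_lit 0))) (nat_lit 65535))) (Nat.shiftLeft (nat_lit 1) (Nat.land (Nat.shiftRight (V (nat_lit 37)) (S (nat_lit 3))) (nat_lit 65535)))) (Nat.add (Nat.shiftLeft (nat_lit 1) (Nat.land (Nat.shiftRight (V (nat_lit 39)) (S (nat_lit 3))) (nat_lit 65535))) (Nat.shiftLeft (nat_lit 1) (Nat.land (Nat.shiftRight (V (nat_lit 42)) (S (nat_lit 0))) (nat_lit 65535))))) (Nat.add (Nat.add (Nat.shiftLeft (nat_lit 1) (Nat.land (Nat.shiftRight (V (nat_lit 48)) (S (nat_lit 0))) (nat_lit 65535))) (Nat.shiftLeft (nat_lit 1) (Nat.land (Nat.shiftRight (V (nat_lit 49)) (S (nat_lit 3))) (nat_lit 65535)))) (Nat.add (Nat.shiftLeft (nat_lit 1) (Nat.land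 (Nat.shiftRight (V (nat_lit 51)) (S (nat_lit 3))) (nat_lit 65535))) (Nat.shiftLeft (nat_lit 1) (Nat.land (Nat.shiftRight (V (nat_lit 54)) (S (nat_lit 0))) (nat_lit 65535)))))))
def E21_1 (V S : ℕ → ℕ) : ℕ := Nat.add (Nat.add (Nat.add (Nat.add (Nat.add (Nat.shiftLeft (nat_lit 1) (Nat.land (Nat.shiftRight (V (nat_lit 0)) (S (nat_lit 18))) (nat_lit 65535))) (Nat.add (Nat.shiftLeft (nat_lit 1) (Nat.land (Nat.shiftRight (V (nat_lit 0)) (S (nat_lit 21))) (nat_lit 65535))) (Nat.shiftLeft (nat_lit 1) (Nat.land (Nat.shiftRight (V (nat_lit 0)) (S (nat_lit 25))) (nat_lit 65535))))) (Nat.add (Nat.shiftLeft (nat_lit 1) (Nat.land (Nat.shiftRight (V (nat_lit 0)) (S (nat_lit 26))) (nat_lit 65535))) (Nat.add (Nat.shiftLeft (nat_lit 1) (Nat.land (Nat.shiftRight (V (nat_lit 0)) (S (nat_lit 44))) (nat_lit 65535))) (Nat.shiftLeft (nat_lit 1) (Nat.land (Nat.shiftRight (V (nat_lit 0)) (S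 (nat_lit 46))) (nat_lit 65535)))))) (Nat.add (Nat.add (Nat.shiftLeft (nat_lit 1) (Nat.land (Nat.shiftRight (V (nat_lit 0)) (S (nat_lit 56))) (nat_lit 65535))) (Nat.add (Nat.shiftLeft (nat_lit 1) (Nat.land (Nat.shiftRight (V (nat_lit 0)) (S (nat_lit 58))) (nat_lit 65535))) (Nat.shiftLeft (nat_lit 1) (Nat.land (Nat.shiftRight (V (nat_lit 3)) (S (nat_lit 13))) (nat_lit 65535))))) (Nat.add (Nat.shiftLeft (nat_lit 1) (Nat.land (Nat.shiftRight (V (nat_lit 3)) (S (nat_lit 14))) (nat_lit 65535))) (Nat.add (Nat.shiftLeft (nat_lit 1) (Nat.land (Nat.shiftRight (V (nat_lit 3)) (S (nat_lit 30))) (nat_lit 65535))) (Nat.shiftLeft (nat_lit 1) (Nat.land (Nat.shiftRight (V (nat_lit 3)) (S (nat_lit 33))) (nat_lit 65535))))))) (Nat.add (Nat.add (Nat.add (Nat.shiftLeft (nat_lit 1) (Nat.land (Nat.shiftRight (V (nat_lit 3)) (S (nat_lit 41))) (nat_lit 65535))) (Nat.add (Nat.shiftLeft (nat_lit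 1) (Nat.land (Nat.shiftRight (V (nat_lit 3)) (S (nat_lit 47))) (nat_lit 65535))) (Nat.shiftLeft (nat_lit 1) (Nat.land (Nat.shiftRight (V (nat_lit 3)) (S (nat_lit 53))) (nat_lit 65535))))) (Nat.add (Nat.shiftLeft (nat_lit 1) (Nat.land (Nat.shiftRight (V (nat_lit 3)) (S (nat_lit 59))) (nat_lit 65535))) (Nat.add (Nat.shiftLeft (nat_lit 1) (Nat.land (Nat.shiftRight (V (nat_lit 13)) (S (nat_lit 3))) (nat_lit 65535))) (Nat.shiftLeft (nat_lit 1) (Nat.land (Nat.shiftRight (V (nat_lit 13)) (S (nat_lit 13))) (nat_lit 65535)))))) (Nat.add (Nat.add (Nat.shiftLeft (nat_lit 1) (Nat.land (Nat.shiftRight (V (nat_lit 14)) (S (nat_lit 3))) (nat_lit 65535))) (Nat.add (Nat.shiftLeft (nat_lit 1) (Nat.land (Nat.shiftRight (V (nat_lit 14)) (S (nat_lit 14))) (nat_lit 65535))) (Nat.shiftLeft (nat_lit 1) (Nat.land (Nat.shiftRight (V (nat_lit 18)) (S (nat_lit 0))) (nat_lit 65535))))) (Nat.add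 (Nat.shiftLeft (nat_lit 1) (Nat.land (Nat.shiftRight (V (nat_lit 18)) (S (nat_lit 18))) (nat_lit 65535))) (Nat.add (Nat.shiftLeft (nat_lit 1) (Nat.land (Nat.shiftRight (V (nat_lit 21)) (S (nat_lit 0))) (nat_lit 65535))) (Nat.shiftLeft (nat_lit 1) (Nat.land (Nat.shiftRight (V (nat_lit 21)) (S (nat_lit 21))) (nat_lit 65535)))))))) (Nat.add (Nat.add (Nat.add (Nat.add (Nat.shiftLeft (nat_lit 1) (Nat.land (Nat.shiftRight (V (nat_lit 25)) (S (nat_lit 0))) (nat_lit 65535))) (Nat.add (Nat.shiftLeft (nat_lit 1) (Nat.land (Nat.shiftRight (V (nat_lit 25)) (S (nat_lit 25))) (nat_lit 65535))) (Nat.shiftLeft (nat_lit 1) (Nat.land (Nat.shiftRight (V (nat_lit 26)) (S (nat_lit 0))) (nat_lit 65535))))) (Nat.add (Nat.shiftLeft (nat_lit 1) (Nat.land (Nat.shiftRight (V (nat_lit 26)) (S (nat_lit 26))) (nat_lit 65535))) (Nat.add (Nat.shiftLeft (nat_lit 1) (Nat.land (Nat.shiftRight (V (nat_lit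 30)) (S (nat_lit 3))) (nat_lit 65535))) (Nat.shiftLeft (nat_lit 1) (Nat.land (Nat.shiftRight (V (nat_lit 30)) (S (nat_lit 30))) (nat_lit 65535)))))) (Nat.add (Nat.add (Nat.shiftLeft (nat_lit 1) (Nat.land (Nat.shiftRight (V (nat_lit 33)) (S (nat_lit 3))) (nat_lit 65535))) (Nat.add (Nat.shiftLeft (nat_lit 1) (Nat.land (Nat.shiftRight (V (nat_lit 33)) (S (nat_lit 33))) (nat_lit 65535))) (Nat.shiftLeft (nat_lit 1) (Nat.land (Nat.shiftRight (V (nat_lit 41)) (S (nat_lit 3))) (nat_lit 65535))))) (Nat.add (Nat.shiftLeft (nat_lit 1) (Nat.land (Nat.shiftRight (V (nat_lit 41)) (S (nat_lit 41))) (nat_lit 65535))) (Nat.add (Nat.shiftLeft (nat_lit 1) (Nat.land (Nat.shiftRight (V (nat_lit 44)) (S (nat_lit 0))) (nat_lit 65535))) (Nat.shiftLeft (nat_lit 1) (Nat.land (Nat.shiftRight (V (nat_lit 44)) (S (nat_lit 44))) (nat_lit 65535))))))) (Nat.add (Nat.add (Nat.add (Nat.shiftLeft (nat_lit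 1) (Nat.land (Nat.shiftRight (V (nat_lit 46)) (S (nat_lit 0))) (nat_lit 65535))) (Nat.add (Nat.shiftLeft (nat_lit 1) (Nat.land (Nat.shiftRight (V (nat_lit 46)) (S (nat_lit 46))) (nat_lit 65535))) (Nat.shiftLeft (nat_lit 1) (Nat.land (Nat.shiftRight (V (nat_lit 47)) (S (nat_lit 3))) (nat_lit 65535))))) (Nat.add (Nat.shiftLeft (nat_lit 1) (Nat.land (Nat.shiftRight (V (nat_lit 47)) (S (nat_lit 47))) (nat_lit 65535))) (Nat.add (Nat.shiftLeft (nat_lit 1) (Nat.land (Nat.shiftRight (V (nat_lit 53)) (S (nat_lit 3))) (nat_lit 65535))) (Nat.shiftLeft (nat_lit 1) (Nat.land (Nat.shiftRight (V (nat_lit 53)) (S (nat_lit 53))) (nat_lit 65535)))))) (Nat.add (Nat.add (Nat.shiftLeft (nat_lit 1) (Nat.land (Nat.shiftRight (V (nat_lit 56)) (S (nat_lit 0))) (nat_lit 65535))) (Nat.add (Nat.shiftLeft (nat_lit 1) (Nat.land (Nat.shiftRight (V (nat_lit 56)) (S (nat_lit 56))) (nat_lit 65535)))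 (Nat.shiftLeft (nat_lit 1) (Nat.land (Nat.shiftRight (V (nat_lit 58)) (S (nat_lit 0))) (nat_lit 65535))))) (Nat.add (Nat.shiftLeft (nat_lit 1) (Nat.land (Nat.shiftRight (V (nat_lit 58)) (S (nat_lit 58))) (nat_lit 65535))) (Nat.add (Nat.shiftLeft (nat_lit 1) (Nat.land (Nat.shiftRight (V (nat_lit 59)) (S (nat_lit 3))) (nat_lit 65535))) (Nat.shiftLeft (nat_lit 1) (Nat.land (Nat.shiftRight (V (nat_lit 59)) (S (nat_lit 59))) (nat_lit 65535))))))))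
def E22_1 (V S : ℕ → ℕ) : ℕ := Nat.add (Nat.add (Nat.add (Nat.add (Nat.add (Nat.shiftLeft (nat_lit 1) (Nat.land (Nat.shiftRight (V (nat_lit 0)) (S (nat_lit 20))) (nat_lit 65535))) (Nat.shiftLeft (nat_lit 1) (Nat.land (Nat.shiftRight (V (nat_lit 0)) (S (nat_lit 23))) (nat_lit 65535)))) (Nat.add (Nat.shiftLeft (nat_lit 1) (Nat.land (Nat.shiftRight (V (nat_lit 0)) (S (nat_lit 32))) (nat_lit 65535))) (Nat.shiftLeft (nat_lit 1) (Nat.land (Nat.shiftRight (V (nat_lit 0)) (S (nat_lit 35))) (nat_lit 65535))))) (Nat.add (Nat.add (Nat.shiftLeft (nat_lit 1) (Nat.land (Nat.shiftRight (V (nat_lit 0)) (S (nat_lit 38))) (nat_lit 65535))) (Nat.shiftLeft (nat_lit 1) (Nat.land (Nat.shiftRight (V (nat_lit 0)) (S (nat_lit 45))) (nat_lit 65535)))) (Nat.add (Nat.shiftLeft (nat_lit 1) (Nat.land (Nat.shiftRight (V (nat_lit 0)) (S (nat_lit 50))) (nat_lit 65535))) (Nat.shiftLeft (nat_lit 1)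 (Nat.land (Nat.shiftRight (V (nat_lit 0)) (S (nat_lit 57))) (nat_lit 65535)))))) (Nat.add (Nat.add (Nat.add (Nat.shiftLeft (nat_lit 1) (Nat.land (Nat.shiftRight (V (nat_lit 3)) (S (nat_lit 20))) (nat_lit 65535))) (Nat.shiftLeft (nat_lit 1) (Nat.land (Nat.shiftRight (V (nat_lit 3)) (S (nat_lit 23))) (nat_lit 65535)))) (Nat.add (Nat.shiftLeft (nat_lit 1) (Nat.land (Nat.shiftRight (V (nat_lit 3)) (S (nat_lit 32))) (nat_lit 65535))) (Nat.shiftLeft (nat_lit 1) (Nat.land (Nat.shiftRight (V (nat_lit 3)) (S (nat_lit 35))) (nat_lit 65535))))) (Nat.add (Nat.add (Nat.shiftLeft (nat_lit 1) (Nat.land (Nat.shiftRight (V (nat_lit 3)) (S (nat_lit 38))) (nat_lit 65535))) (Nat.shiftLeft (nat_lit 1) (Nat.land (Nat.shiftRight (V (nat_lit 3)) (S (nat_lit 45))) (nat_lit 65535)))) (Nat.add (Nat.shiftLeft (nat_lit 1) (Nat.land (Nat.shiftRight (V (nat_lit 3)) (S (nat_lit 50))) (nat_lit 65535)))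 (Nat.shiftLeft (nat_lit 1) (Nat.land (Nat.shiftRight (V (nat_lit 3)) (S (nat_lit 57))) (nat_lit 65535))))))) (Nat.add (Nat.add (Nat.add (Nat.add (Nat.shiftLeft (nat_lit 1) (Nat.land (Nat.shiftRight (V (nat_lit 20)) (S (nat_lit 0))) (nat_lit 65535))) (Nat.shiftLeft (nat_lit 1) (Nat.land (Nat.shiftRight (V (nat_lit 20)) (S (nat_lit 3))) (nat_lit 65535)))) (Nat.add (Nat.shiftLeft (nat_lit 1) (Nat.land (Nat.shiftRight (V (nat_lit 23)) (S (nat_lit 0))) (nat_lit 65535))) (Nat.shiftLeft (nat_lit 1) (Nat.land (Nat.shiftRight (V (nat_lit 23)) (S (nat_lit 3))) (nat_lit 65535))))) (Nat.add (Nat.add (Nat.shiftLeft (nat_lit 1) (Nat.land (Nat.shiftRight (V (nat_lit 32)) (S (nat_lit 0))) (nat_lit 65535))) (Nat.shiftLeft (nat_lit 1) (Nat.land (Nat.shiftRight (V (nat_lit 32)) (S (nat_lit 3))) (nat_lit 65535)))) (Nat.add (Nat.shiftLeft (nat_lit 1) (Nat.land (Nat.shiftRight (V (nat_lit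 35)) (S (nat_lit 0))) (nat_lit 65535))) (Nat.shiftLeft (nat_lit 1) (Nat.land (Nat.shiftRight (V (nat_lit 35)) (S (nat_lit 3))) (nat_lit 65535)))))) (Nat.add (Nat.add (Nat.add (Nat.shiftLeft (nat_lit 1) (Nat.land (Nat.shiftRight (V (nat_lit 38)) (S (nat_lit 0))) (nat_lit 65535))) (Nat.shiftLeft (nat_lit 1) (Nat.land (Nat.shiftRight (V (nat_lit 38)) (S (nat_lit 3))) (nat_lit 65535)))) (Nat.add (Nat.shiftLeft (nat_lit 1) (Nat.land (Nat.shiftRight (V (nat_lit 45)) (S (nat_lit 0))) (nat_lit 65535))) (Nat.shiftLeft (nat_lit 1) (Nat.land (Nat.shiftRight (V (nat_lit 45)) (S (nat_lit 3))) (nat_lit 65535))))) (Nat.add (Nat.add (Nat.shiftLeft (nat_lit 1) (Nat.land (Nat.shiftRight (V (nat_lit 50)) (S (nat_lit 0))) (nat_lit 65535))) (Nat.shiftLeft (nat_lit 1) (Nat.land (Nat.shiftRight (V (nat_lit 50)) (S (nat_lit 3))) (nat_lit 65535)))) (Nat.add (Nat.shiftLeft (nat_lit 1) (Nat.land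 (Nat.shiftRight (V (nat_lit 57)) (S (nat_lit 0))) (nat_lit 65535))) (Nat.shiftLeft (nat_lit 1) (Nat.land (Nat.shiftRight (V (nat_lit 57)) (S (nat_lit 3))) (nat_lit 65535)))))))
def E26_1 (V S : ℕ → ℕ) : ℕ := Nat.add (Nat.add (Nat.add (Nat.shiftLeft (nat_lit 1) (Nat.land (Nat.shiftRight (V (nat_lit 20)) (S (nat_lit 20))) (nat_lit 65535))) (Nat.shiftLeft (nat_lit 1) (Nat.land (Nat.shiftRight (V (nat_lit 23)) (S (nat_lit 23))) (nat_lit 65535)))) (Nat.add (Nat.shiftLeft (nat_lit 1) (Nat.land (Nat.shiftRight (V (nat_lit 32)) (S (nat_lit 32))) (nat_lit 65535))) (Nat.shiftLeft (nat_lit 1) (Nat.land (Nat.shiftRight (V (nat_lit 35)) (S (nat_lit 35))) (nat_lit 65535))))) (Nat.add (Nat.add (Nat.shiftLeft (nat_lit 1) (Nat.land (Nat.shiftRight (V (nat_lit 38)) (S (nat_lit 38))) (nat_lit 65535))) (Nat.shiftLeft (nat_lit 1) (Nat.land (Nat.shiftRight (V (nat_lit 45)) (S (nat_lit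 45))) (nat_lit 65535)))) (Nat.add (Nat.shiftLeft (nat_lit 1) (Nat.land (Nat.shiftRight (V (nat_lit 50)) (S (nat_lit 50))) (nat_lit 65535))) (Nat.shiftLeft (nat_lit 1) (Nat.land (Nat.shiftRight (V (nat_lit 57)) (S (nat_lit 57))) (nat_lit 65535)))))
def E30_1 (V S : ℕ → ℕ) : ℕ := Nat.add (Nat.add (Nat.add (Nat.add (Nat.shiftLeft (nat_lit 1) (Nat.land (Nat.shiftRight (V (nat_lit 1)) (S (nat_lit 2))) (nat_lit 65535))) (Nat.shiftLeft (nat_lit 1) (Nat.land (Nat.shiftRight (V (nat_lit 1)) (S (nat_lit 7))) (nat_lit 65535)))) (Nat.add (Nat.shiftLeft (nat_lit 1) (Nat.land (Nat.shiftRight (V (nat_lit 2)) (S (nat_lit 1))) (nat_lit 65535))) (Nat.shiftLeft (nat_lit 1) (Nat.land (Nat.shiftRight (V (nat_lit 2)) (S (nat_lit 10))) (nat_lit 65535))))) (Nat.add (Nat.add (Nat.shiftLeft (nat_lit 1) (Nat.land (Nat.shiftRight (V (nat_lit 4)) (S (nat_lit 5))) (nat_lit 65535))) (Nat.shiftLeft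 (nat_lit 1) (Nat.land (Nat.shiftRight (V (nat_lit 4)) (S (nat_lit 6))) (nat_lit 65535)))) (Nat.add (Nat.shiftLeft (nat_lit 1) (Nat.land (Nat.shiftRight (V (nat_lit 5)) (S (nat_lit 4))) (nat_lit 65535))) (Nat.shiftLeft (nat_lit 1) (Nat.land (Nat.shiftRight (V (nat_lit 5)) (S (nat_lit 9))) (nat_lit 65535)))))) (Nat.add (Nat.add (Nat.add (Nat.shiftLeft (nat_lit 1) (Nat.land (Nat.shiftRight (V (nat_lit 6)) (S (nat_lit 4))) (nat_lit 65535))) (Nat.shiftLeft (nat_lit 1) (Nat.land (Nat.shiftRight (V (nat_lit 6)) (S (nat_lit 9))) (nat_lit 65535)))) (Nat.add (Nat.shiftLeft (nat_lit 1) (Nat.land (Nat.shiftRight (V (nat_lit 7)) (S (nat_lit 1))) (nat_lit 65535))) (Nat.shiftLeft (nat_lit 1) (Nat.land (Nat.shiftRight (V (nat_lit 7)) (S (nat_lit 10))) (nat_lit 65535))))) (Nat.add (Nat.add (Nat.shiftLeft (nat_lit 1) (Nat.land (Nat.shiftRight (V (nat_lit 9)) (S (nat_lit 5))) (nat_lit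 65535))) (Nat.shiftLeft (nat_lit 1) (Nat.land (Nat.shiftRight (V (nat_lit 9)) (S (nat_lit 6))) (nat_lit 65535)))) (Nat.add (Nat.shiftLeft (nat_lit 1) (Nat.land (Nat.shiftRight (V (nat_lit 10)) (S (nat_lit 2))) (nat_lit 65535))) (Nat.shiftLeft (nat_lit 1) (Nat.land (Nat.shiftRight (V (nat_lit 10)) (S (nat_lit 7))) (nat_lit 65535))))))
def E31_1 (V S : ℕ → ℕ) : ℕ := Nat.add (Nat.add (Nat.add (Nat.shiftLeft (nat_lit 1) (Nat.land (Nat.shiftRight (V (nat_lit 12)) (S (nat_lit 27))) (nat_lit 65535))) (Nat.shiftLeft (nat_lit 1) (Nat.land (Nat.shiftRight (V (nat_lit 15)) (S (nat_lit 24))) (nat_lit 65535)))) (Nat.add (Nat.shiftLeft (nat_lit 1) (Nat.land (Nat.shiftRight (V (nat_lit 24)) (S (nat_lit 15))) (nat_lit 65535))) (Nat.shiftLeft (nat_lit 1) (Nat.land (Nat.shiftRight (V (nat_lit 27)) (S (nat_lit 12))) (nat_lit 65535))))) (Nat.add (Nat.add (Nat.shiftLeft (nat_lit 1) (Nat.land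 (Nat.shiftRight (V (nat_lit 40)) (S (nat_lit 52))) (nat_lit 65535))) (Nat.shiftLeft (nat_lit 1) (Nat.land (Nat.shiftRight (V (nat_lit 43)) (S (nat_lit 55))) (nat_lit 65535)))) (Nat.add (Nat.shiftLeft (nat_lit 1) (Nat.land (Nat.shiftRight (V (nat_lit 52)) (S (nat_lit 40))) (nat_lit 65535))) (Nat.shiftLeft (nat_lit 1) (Nat.land (Nat.shiftRight (V (nat_lit 55)) (S (nat_lit 43))) (nat_lit 65535)))))
def E33_1 (V S : ℕ → ℕ) : ℕ := Nat.add (Nat.add (Nat.add (Nat.add (Nat.shiftLeft (nat_lit 1) (Nat.land (Nat.shiftRight (V (nat_lit 16)) (S (nat_lit 42))) (nat_lit 65535))) (Nat.shiftLeft (nat_lit 1) (Nat.land (Nat.shiftRight (V (nat_lit 17)) (S (nat_lit 54))) (nat_lit 65535)))) (Nat.add (Nat.shiftLeft (nat_lit 1) (Nat.land (Nat.shiftRight (V (nat_lit 19)) (S (nat_lit 37))) (nat_lit 65535))) (Nat.shiftLeft (nat_lit 1) (Nat.land (Nat.shiftRight (V (nat_lit 22)) (S (nat_lit 49)))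 (nat_lit 65535))))) (Nat.add (Nat.add (Nat.shiftLeft (nat_lit 1) (Nat.land (Nat.shiftRight (V (nat_lit 28)) (S (nat_lit 39))) (nat_lit 65535))) (Nat.shiftLeft (nat_lit 1) (Nat.land (Nat.shiftRight (V (nat_lit 29)) (S (nat_lit 51))) (nat_lit 65535)))) (Nat.add (Nat.shiftLeft (nat_lit 1) (Nat.land (Nat.shiftRight (V (nat_lit 31)) (S (nat_lit 36))) (nat_lit 65535))) (Nat.shiftLeft (nat_lit 1) (Nat.land (Nat.shiftRight (V (nat_lit 34)) (S (nat_lit 48))) (nat_lit 65535)))))) (Nat.add (Nat.add (Nat.add (Nat.shiftLeft (nat_lit 1) (Nat.land (Nat.shiftRight (V (nat_lit 36)) (S (nat_lit 31))) (nat_lit 65535))) (Nat.shiftLeft (nat_lit 1) (Nat.land (Nat.shiftRight (V (nat_lit 37)) (S (nat_lit 19))) (nat_lit 65535)))) (Nat.add (Nat.shiftLeft (nat_lit 1) (Nat.land (Nat.shiftRight (V (nat_lit 39)) (S (nat_lit 28))) (nat_lit 65535))) (Nat.shiftLeft (nat_lit 1) (Nat.land (Nat.shiftRight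 (V (nat_lit 42)) (S (nat_lit 16))) (nat_lit 65535))))) (Nat.add (Nat.add (Nat.shiftLeft (nat_lit 1) (Nat.land (Nat.shiftRight (V (nat_lit 48)) (S (nat_lit 34))) (nat_lit 65535))) (Nat.shiftLeft (nat_lit 1) (Nat.land (Nat.shiftRight (V (nat_lit 49)) (S (nat_lit 22))) (nat_lit 65535)))) (Nat.add (Nat.shiftLeft (nat_lit 1) (Nat.land (Nat.shiftRight (V (nat_lit 51)) (S (nat_lit 29))) (nat_lit 65535))) (Nat.shiftLeft (nat_lit 1) (Nat.land (Nat.shiftRight (V (nat_lit 54)) (S (nat_lit 17))) (nat_lit 65535))))))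
def E34_1 (V S : ℕ → ℕ) : ℕ := Nat.add (Nat.add (Nat.add (Nat.add (Nat.shiftLeft (nat_lit 1) (Nat.land (Nat.shiftRight (V (nat_lit 1)) (S (nat_lit 4))) (nat_lit 65535))) (Nat.shiftLeft (nat_lit 1) (Nat.land (Nat.shiftRight (V (nat_lit 1)) (S (nat_lit 9))) (nat_lit 65535)))) (Nat.add (Nat.shiftLeft (nat_lit 1) (Nat.land (Nat.shiftRight (V (nat_lit 2)) (S (nat_lit 5))) (nat_lit 65535))) (Nat.shiftLeft (nat_lit 1) (Nat.land (Nat.shiftRight (V (nat_lit 2)) (S (nat_lit 6))) (nat_lit 65535))))) (Nat.add (Nat.add (Nat.shiftLeft (nat_lit 1) (Nat.land (Nat.shiftRight (V (nat_lit 4)) (S (nat_lit 1))) (nat_lit 65535))) (Nat.shiftLeft (nat_lit 1) (Nat.land (Nat.shiftRight (V (nat_lit 4)) (S (nat_lit 10))) (nat_lit 65535)))) (Nat.add (Nat.shiftLeft (nat_lit 1) (Nat.land (Nat.shiftRight (V (nat_lit 5)) (S (nat_lit 2))) (nat_lit 65535))) (Nat.shiftLeft (nat_lit 1) (Nat.land (Nat.shiftRight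 (V (nat_lit 5)) (S (nat_lit 7))) (nat_lit 65535)))))) (Nat.add (Nat.add (Nat.add (Nat.shiftLeft (nat_lit 1) (Nat.land (Nat.shiftRight (V (nat_lit 6)) (S (nat_lit 2))) (nat_lit 65535))) (Nat.shiftLeft (nat_lit 1) (Nat.land (Nat.shiftRight (V (nat_lit 6)) (S (nat_lit 7))) (nat_lit 65535)))) (Nat.add (Nat.shiftLeft (nat_lit 1) (Nat.land (Nat.shiftRight (V (nat_lit 7)) (S (nat_lit 5))) (nat_lit 65535))) (Nat.shiftLeft (nat_lit 1) (Nat.land (Nat.shiftRight (V (nat_lit 7)) (S (nat_lit 6))) (nat_lit 65535))))) (Nat.add (Nat.add (Nat.shiftLeft (nat_lit 1) (Nat.land (Nat.shiftRight (V (nat_lit 9)) (S (nat_lit 1))) (nat_lit 65535))) (Nat.shiftLeft (nat_lit 1) (Nat.land (Nat.shiftRight (V (nat_lit 9)) (S (nat_lit 10))) (nat_lit 65535)))) (Nat.add (Nat.shiftLeft (nat_lit 1) (Nat.land (Nat.shiftRight (V (nat_lit 10)) (S (nat_lit 4))) (nat_lit 65535))) (Nat.shiftLeft (nat_lit 1)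 (Nat.land (Nat.shiftRight (V (nat_lit 10)) (S (nat_lit 9))) (nat_lit 65535))))))
def E35_1 (V S : ℕ → ℕ) : ℕ := Nat.add (Nat.add (Nat.add (Nat.add (Nat.shiftLeft (nat_lit 1) (Nat.land (Nat.shiftRight (V (nat_lit 1)) (S (nat_lit 5))) (nat_lit 65535))) (Nat.shiftLeft (nat_lit 1) (Nat.land (Nat.shiftRight (V (nat_lit 1)) (S (nat_lit 6))) (nat_lit 65535)))) (Nat.add (Nat.shiftLeft (nat_lit 1) (Nat.land (Nat.shiftRight (V (nat_lit 2)) (S (nat_lit 4))) (nat_lit 65535))) (Nat.shiftLeft (nat_lit 1) (Nat.land (Nat.shiftRight (V (nat_lit 2)) (S (nat_lit 9))) (nat_lit 65535))))) (Nat.add (Nat.add (Nat.shiftLeft (nat_lit 1) (Nat.land (Nat.shiftRight (V (nat_lit 4)) (S (nat_lit 2))) (nat_lit 65535))) (Nat.shiftLeft (nat_lit 1) (Nat.land (Nat.shiftRight (V (nat_lit 4)) (S (nat_lit 7))) (nat_lit 65535)))) (Nat.add (Nat.shiftLeft (nat_lit 1) (Nat.land (Nat.shiftRight (V (nat_lit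 5)) (S (nat_lit 1))) (nat_lit 65535))) (Nat.shiftLeft (nat_lit 1) (Nat.land (Nat.shiftRight (V (nat_lit 5)) (S (nat_lit 10))) (nat_lit 65535)))))) (Nat.add (Nat.add (Nat.add (Nat.shiftLeft (nat_lit 1) (Nat.land (Nat.shiftRight (V (nat_lit 6)) (S (nat_lit 1))) (nat_lit 65535))) (Nat.shiftLeft (nat_lit 1) (Nat.land (Nat.shiftRight (V (nat_lit 6)) (S (nat_lit 10))) (nat_lit 65535)))) (Nat.add (Nat.shiftLeft (nat_lit 1) (Nat.land (Nat.shiftRight (V (nat_lit 7)) (S (nat_lit 4))) (nat_lit 65535))) (Nat.shiftLeft (nat_lit 1) (Nat.land (Nat.shiftRight (V (nat_lit 7)) (S (nat_lit 9))) (nat_lit 65535))))) (Nat.add (Nat.add (Nat.shiftLeft (nat_lit 1) (Nat.land (Nat.shiftRight (V (nat_lit 9)) (S (nat_lit 2))) (nat_lit 65535))) (Nat.shiftLeft (nat_lit 1) (Nat.land (Nat.shiftRight (V (nat_lit 9)) (S (nat_lit 7))) (nat_lit 65535)))) (Nat.add (Nat.shiftLeft (nat_lit 1) (Nat.land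 (Nat.shiftRight (V (nat_lit 10)) (S (nat_lit 5))) (nat_lit 65535))) (Nat.shiftLeft (nat_lit 1) (Nat.land (Nat.shiftRight (V (nat_lit 10)) (S (nat_lit 6))) (nat_lit 65535))))))
def E36_1 (V S : ℕ → ℕ) : ℕ := Nat.add (Nat.add (Nat.add (Nat.add (Nat.add (Nat.shiftLeft (nat_lit 1) (Nat.land (Nat.shiftRight (V (nat_lit 1)) (S (nat_lit 8))) (nat_lit 65535))) (Nat.shiftLeft (nat_lit 1) (Nat.land (Nat.shiftRight (V (nat_lit 1)) (S (nat_lit 11))) (nat_lit 65535)))) (Nat.add (Nat.shiftLeft (nat_lit 1) (Nat.land (Nat.shiftRight (V (nat_lit 2)) (S (nat_lit 8))) (nat_lit 65535))) (Nat.shiftLeft (nat_lit 1) (Nat.land (Nat.shiftRight (V (nat_lit 2)) (S (nat_lit 11))) (nat_lit 65535))))) (Nat.add (Nat.add (Nat.shiftLeft (nat_lit 1) (Nat.land (Nat.shiftRight (V (nat_lit 4)) (S (nat_lit 8))) (nat_lit 65535))) (Nat.shiftLeft (nat_lit 1) (Nat.land (Nat.shiftRight (V (nat_lit 4)) (S (nat_lit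 11))) (nat_lit 65535)))) (Nat.add (Nat.shiftLeft (nat_lit 1) (Nat.land (Nat.shiftRight (V (nat_lit 5)) (S (nat_lit 8))) (nat_lit 65535))) (Nat.shiftLeft (nat_lit 1) (Nat.land (Nat.shiftRight (V (nat_lit 5)) (S (nat_lit 11))) (nat_lit 65535)))))) (Nat.add (Nat.add (Nat.add (Nat.shiftLeft (nat_lit 1) (Nat.land (Nat.shiftRight (V (nat_lit 6)) (S (nat_lit 8))) (nat_lit 65535))) (Nat.shiftLeft (nat_lit 1) (Nat.land (Nat.shiftRight (V (nat_lit 6)) (S (nat_lit 11))) (nat_lit 65535)))) (Nat.add (Nat.shiftLeft (nat_lit 1) (Nat.land (Nat.shiftRight (V (nat_lit 7)) (S (nat_lit 8))) (nat_lit 65535))) (Nat.shiftLeft (nat_lit 1) (Nat.land (Nat.shiftRight (V (nat_lit 7)) (S (nat_lit 11))) (nat_lit 65535))))) (Nat.add (Nat.add (Nat.shiftLeft (nat_lit 1) (Nat.land (Nat.shiftRight (V (nat_lit 8)) (S (nat_lit 1))) (nat_lit 65535))) (Nat.shiftLeft (nat_lit 1) (Nat.land (Nat.shiftRight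 (V (nat_lit 8)) (S (nat_lit 2))) (nat_lit 65535)))) (Nat.add (Nat.shiftLeft (nat_lit 1) (Nat.land (Nat.shiftRight (V (nat_lit 8)) (S (nat_lit 4))) (nat_lit 65535))) (Nat.shiftLeft (nat_lit 1) (Nat.land (Nat.shiftRight (V (nat_lit 8)) (S (nat_lit 5))) (nat_lit 65535))))))) (Nat.add (Nat.add (Nat.add (Nat.add (Nat.shiftLeft (nat_lit 1) (Nat.land (Nat.shiftRight (V (nat_lit 8)) (S (nat_lit 6))) (nat_lit 65535))) (Nat.shiftLeft (nat_lit 1) (Nat.land (Nat.shiftRight (V (nat_lit 8)) (S (nat_lit 7))) (nat_lit 65535)))) (Nat.add (Nat.shiftLeft (nat_lit 1) (Nat.land (Nat.shiftRight (V (nat_lit 8)) (S (nat_lit 9))) (nat_lit 65535))) (Nat.shiftLeft (nat_lit 1) (Nat.land (Nat.shiftRight (V (nat_lit 8)) (S (nat_lit 10))) (nat_lit 65535))))) (Nat.add (Nat.add (Nat.shiftLeft (nat_lit 1) (Nat.land (Nat.shiftRight (V (nat_lit 9)) (S (nat_lit 8))) (nat_lit 65535))) (Nat.shiftLeft (nat_lit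 1) (Nat.land (Nat.shiftRight (V (nat_lit 9)) (S (nat_lit 11))) (nat_lit 65535)))) (Nat.add (Nat.shiftLeft (nat_lit 1) (Nat.land (Nat.shiftRight (V (nat_lit 10)) (S (nat_lit 8))) (nat_lit 65535))) (Nat.shiftLeft (nat_lit 1) (Nat.land (Nat.shiftRight (V (nat_lit 10)) (S (nat_lit 11))) (nat_lit 65535)))))) (Nat.add (Nat.add (Nat.add (Nat.shiftLeft (nat_lit 1) (Nat.land (Nat.shiftRight (V (nat_lit 11)) (S (nat_lit 1))) (nat_lit 65535))) (Nat.shiftLeft (nat_lit 1) (Nat.land (Nat.shiftRight (V (nat_lit 11)) (S (nat_lit 2))) (nat_lit 65535)))) (Nat.add (Nat.shiftLeft (nat_lit 1) (Nat.land (Nat.shiftRight (V (nat_lit 11)) (S (nat_lit 4))) (nat_lit 65535))) (Nat.shiftLeft (nat_lit 1) (Nat.land (Nat.shiftRight (V (nat_lit 11)) (S (nat_lit 5))) (nat_lit 65535))))) (Nat.add (Nat.add (Nat.shiftLeft (nat_lit 1) (Nat.land (Nat.shiftRight (V (nat_lit 11)) (S (nat_lit 6))) (nat_lit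 65535))) (Nat.shiftLeft (nat_lit 1) (Nat.land (Nat.shiftRight (V (nat_lit 11)) (S (nat_lit 7))) (nat_lit 65535)))) (Nat.add (Nat.shiftLeft (nat_lit 1) (Nat.land (Nat.shiftRight (V (nat_lit 11)) (S (nat_lit 9))) (nat_lit 65535))) (Nat.shiftLeft (nat_lit 1) (Nat.land (Nat.shiftRight (V (nat_lit 11)) (S (nat_lit 10))) (nat_lit 65535)))))))
def E37_1 (V S : ℕ → ℕ) : ℕ := Nat.add (Nat.add (Nat.add (Nat.shiftLeft (nat_lit 1) (Nat.land (Nat.shiftRight (V (nat_lit 1)) (S (nat_lit 10))) (nat_lit 65535))) (Nat.shiftLeft (nat_lit 1) (Nat.land (Nat.shiftRight (V (nat_lit 2)) (S (nat_lit 7))) (nat_lit 65535)))) (Nat.add (Nat.shiftLeft (nat_lit 1) (Nat.land (Nat.shiftRight (V (nat_lit 4)) (S (nat_lit 9))) (nat_lit 65535))) (Nat.shiftLeft (nat_lit 1) (Nat.land (Nat.shiftRight (V (nat_lit 5)) (S (nat_lit 6))) (nat_lit 65535))))) (Nat.add (Nat.add (Nat.shiftLeft (nat_lit 1) (Nat.land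 (Nat.shiftRight (V (nat_lit 6)) (S (nat_lit 5))) (nat_lit 65535))) (Nat.shiftLeft (nat_lit 1) (Nat.land (Nat.shiftRight (V (nat_lit 7)) (S (nat_lit 2))) (nat_lit 65535)))) (Nat.add (Nat.shiftLeft (nat_lit 1) (Nat.land (Nat.shiftRight (V (nat_lit 9)) (S (nat_lit 4))) (nat_lit 65535))) (Nat.shiftLeft (nat_lit 1) (Nat.land (Nat.shiftRight (V (nat_lit 10)) (S (nat_lit 1))) (nat_lit 65535)))))
def E38_1 (V S : ℕ → ℕ) : ℕ := Nat.add (Nat.add (Nat.add (Nat.add (Nat.add (Nat.shiftLeft (nat_lit 1) (Nat.land (Nat.shiftRight (V (nat_lit 1)) (S (nat_lit 12))) (nat_lit 65535))) (Nat.add (Nat.shiftLeft (nat_lit 1) (Nat.land (Nat.shiftRight (V (nat_lit 1)) (S (nat_lit 52))) (nat_lit 65535))) (Nat.shiftLeft (nat_lit 1) (Nat.land (Nat.shiftRight (V (nat_lit 2)) (S (nat_lit 12))) (nat_lit 65535))))) (Nat.add (Nat.shiftLeft (nat_lit 1) (Nat.land (Nat.shiftRight (V (nat_lit 2)) (S (nat_lit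 40))) (nat_lit 65535))) (Nat.add (Nat.shiftLeft (nat_lit 1) (Nat.land (Nat.shiftRight (V (nat_lit 4)) (S (nat_lit 24))) (nat_lit 65535))) (Nat.shiftLeft (nat_lit 1) (Nat.land (Nat.shiftRight (V (nat_lit 4)) (S (nat_lit 55))) (nat_lit 65535)))))) (Nat.add (Nat.add (Nat.shiftLeft (nat_lit 1) (Nat.land (Nat.shiftRight (V (nat_lit 5)) (S (nat_lit 24))) (nat_lit 65535))) (Nat.add (Nat.shiftLeft (nat_lit 1) (Nat.land (Nat.shiftRight (V (nat_lit 5)) (S (nat_lit 43))) (nat_lit 65535))) (Nat.shiftLeft (nat_lit 1) (Nat.land (Nat.shiftRight (V (nat_lit 6)) (S (nat_lit 15))) (nat_lit 65535))))) (Nat.add (Nat.shiftLeft (nat_lit 1) (Nat.land (Nat.shiftRight (V (nat_lit 6)) (S (nat_lit 55))) (nat_lit 65535))) (Nat.add (Nat.shiftLeft (nat_lit 1) (Nat.land (Nat.shiftRight (V (nat_lit 7)) (S (nat_lit 27))) (nat_lit 65535))) (Nat.shiftLeft (nat_lit 1) (Nat.land (Nat.shiftRight (V (nat_lit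 7)) (S (nat_lit 52))) (nat_lit 65535))))))) (Nat.add (Nat.add (Nat.add (Nat.shiftLeft (nat_lit 1) (Nat.land (Nat.shiftRight (V (nat_lit 9)) (S (nat_lit 15))) (nat_lit 65535))) (Nat.add (Nat.shiftLeft (nat_lit 1) (Nat.land (Nat.shiftRight (V (nat_lit 9)) (S (nat_lit 43))) (nat_lit 65535))) (Nat.shiftLeft (nat_lit 1) (Nat.land (Nat.shiftRight (V (nat_lit 10)) (S (nat_lit 27))) (nat_lit 65535))))) (Nat.add (Nat.shiftLeft (nat_lit 1) (Nat.land (Nat.shiftRight (V (nat_lit 10)) (S (nat_lit 40))) (nat_lit 65535))) (Nat.add (Nat.shiftLeft (nat_lit 1) (Nat.land (Nat.shiftRight (V (nat_lit 12)) (S (nat_lit 1))) (nat_lit 65535))) (Nat.shiftLeft (nat_lit 1) (Nat.land (Nat.shiftRight (V (nat_lit 12)) (S (nat_lit 2))) (nat_lit 65535)))))) (Nat.add (Nat.add (Nat.shiftLeft (nat_lit 1) (Nat.land (Nat.shiftRight (V (nat_lit 12)) (S (nat_lit 40))) (nat_lit 65535))) (Nat.add (Nat.shiftLeft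 (nat_lit 1) (Nat.land (Nat.shiftRight (V (nat_lit 12)) (S (nat_lit 52))) (nat_lit 65535))) (Nat.shiftLeft (nat_lit 1) (Nat.land (Nat.shiftRight (V (nat_lit 15)) (S (nat_lit 6))) (nat_lit 65535))))) (Nat.add (Nat.shiftLeft (nat_lit 1) (Nat.land (Nat.shiftRight (V (nat_lit 15)) (S (nat_lit 9))) (nat_lit 65535))) (Nat.add (Nat.shiftLeft (nat_lit 1) (Nat.land (Nat.shiftRight (V (nat_lit 15)) (S (nat_lit 43))) (nat_lit 65535))) (Nat.shiftLeft (nat_lit 1) (Nat.land (Nat.shiftRight (V (nat_lit 15)) (S (nat_lit 55))) (nat_lit 65535)))))))) (Nat.add (Nat.add (Nat.add (Nat.add (Nat.shiftLeft (nat_lit 1) (Nat.land (Nat.shiftRight (V (nat_lit 24)) (S (nat_lit 4))) (nat_lit 65535))) (Nat.add (Nat.shiftLeft (nat_lit 1) (Nat.land (Nat.shiftRight (V (nat_lit 24)) (S (nat_lit 5))) (nat_lit 65535))) (Nat.shiftLeft (nat_lit 1) (Nat.land (Nat.shiftRight (V (nat_lit 24)) (S (nat_lit 43)))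 (nat_lit 65535))))) (Nat.add (Nat.shiftLeft (nat_lit 1) (Nat.land (Nat.shiftRight (V (nat_lit 24)) (S (nat_lit 55))) (nat_lit 65535))) (Nat.add (Nat.shiftLeft (nat_lit 1) (Nat.land (Nat.shiftRight (V (nat_lit 27)) (S (nat_lit 7))) (nat_lit 65535))) (Nat.shiftLeft (nat_lit 1) (Nat.land (Nat.shiftRight (V (nat_lit 27)) (S (nat_lit 10))) (nat_lit 65535)))))) (Nat.add (Nat.add (Nat.shiftLeft (nat_lit 1) (Nat.land (Nat.shiftRight (V (nat_lit 27)) (S (nat_lit 40))) (nat_lit 65535))) (Nat.add (Nat.shiftLeft (nat_lit 1) (Nat.land (Nat.shiftRight (V (nat_lit 27)) (S (nat_lit 52))) (nat_lit 65535))) (Nat.shiftLeft (nat_lit 1) (Nat.land (Nat.shiftRight (V (nat_lit 40)) (S (nat_lit 2))) (nat_lit 65535))))) (Nat.add (Nat.shiftLeft (nat_lit 1) (Nat.land (Nat.shiftRight (V (nat_lit 40)) (S (nat_lit 10))) (nat_lit 65535))) (Nat.add (Nat.shiftLeft (nat_lit 1) (Nat.land (Nat.shiftRight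 (V (nat_lit 40)) (S (nat_lit 12))) (nat_lit 65535))) (Nat.shiftLeft (nat_lit 1) (Nat.land (Nat.shiftRight (V (nat_lit 40)) (S (nat_lit 27))) (nat_lit 65535))))))) (Nat.add (Nat.add (Nat.add (Nat.shiftLeft (nat_lit 1) (Nat.land (Nat.shiftRight (V (nat_lit 43)) (S (nat_lit 5))) (nat_lit 65535))) (Nat.add (Nat.shiftLeft (nat_lit 1) (Nat.land (Nat.shiftRight (V (nat_lit 43)) (S (nat_lit 9))) (nat_lit 65535))) (Nat.shiftLeft (nat_lit 1) (Nat.land (Nat.shiftRight (V (nat_lit 43)) (S (nat_lit 15))) (nat_lit 65535))))) (Nat.add (Nat.shiftLeft (nat_lit 1) (Nat.land (Nat.shiftRight (V (nat_lit 43)) (S (nat_lit 24))) (nat_lit 65535))) (Nat.add (Nat.shiftLeft (nat_lit 1) (Nat.land (Nat.shiftRight (V (nat_lit 52)) (S (nat_lit 1))) (nat_lit 65535))) (Nat.shiftLeft (nat_lit 1) (Nat.land (Nat.shiftRight (V (nat_lit 52)) (S (nat_lit 7))) (nat_lit 65535)))))) (Nat.add (Nat.add (Nat.shiftLeft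 (nat_lit 1) (Nat.land (Nat.shiftRight (V (nat_lit 52)) (S (nat_lit 12))) (nat_lit 65535))) (Nat.add (Nat.shiftLeft (nat_lit 1) (Nat.land (Nat.shiftRight (V (nat_lit 52)) (S (nat_lit 27))) (nat_lit 65535))) (Nat.shiftLeft (nat_lit 1) (Nat.land (Nat.shiftRight (V (nat_lit 55)) (S (nat_lit 4))) (nat_lit 65535))))) (Nat.add (Nat.shiftLeft (nat_lit 1) (Nat.land (Nat.shiftRight (V (nat_lit 55)) (S (nat_lit 6))) (nat_lit 65535))) (Nat.add (Nat.shiftLeft (nat_lit 1) (Nat.land (Nat.shiftRight (V (nat_lit 55)) (S (nat_lit 15))) (nat_lit 65535))) (Nat.shiftLeft (nat_lit 1) (Nat.land (Nat.shiftRight (V (nat_lit 55)) (S (nat_lit 24))) (nat_lit 65535))))))))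
def E39_1 (V S : ℕ → ℕ) : ℕ := Nat.add (Nat.add (Nat.add (Nat.add (Nat.add (Nat.shiftLeft (nat_lit 1) (Nat.land (Nat.shiftRight (V (nat_lit 1)) (S (nat_lit 27))) (nat_lit 65535))) (Nat.shiftLeft (nat_lit 1) (Nat.land (Nat.shiftRight (V (nat_lit 1)) (S (nat_lit 40))) (nat_lit 65535)))) (Nat.add (Nat.shiftLeft (nat_lit 1) (Nat.land (Nat.shiftRight (V (nat_lit 2)) (S (nat_lit 27))) (nat_lit 65535))) (Nat.shiftLeft (nat_lit 1) (Nat.land (Nat.shiftRight (V (nat_lit 2)) (S (nat_lit 52))) (nat_lit 65535))))) (Nat.add (Nat.add (Nat.shiftLeft (nat_lit 1) (Nat.land (Nat.shiftRight (V (nat_lit 4)) (S (nat_lit 15))) (nat_lit 65535))) (Nat.shiftLeft (nat_lit 1) (Nat.land (Nat.shiftRight (V (nat_lit 4)) (S (nat_lit 43))) (nat_lit 65535)))) (Nat.add (Nat.shiftLeft (nat_lit 1) (Nat.land (Nat.shiftRight (V (nat_lit 5)) (S (nat_lit 15))) (nat_lit 65535))) (Nat.shiftLeft (nat_lit 1)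 (Nat.land (Nat.shiftRight (V (nat_lit 5)) (S (nat_lit 55))) (nat_lit 65535)))))) (Nat.add (Nat.add (Nat.add (Nat.shiftLeft (nat_lit 1) (Nat.land (Nat.shiftRight (V (nat_lit 6)) (S (nat_lit 24))) (nat_lit 65535))) (Nat.shiftLeft (nat_lit 1) (Nat.land (Nat.shiftRight (V (nat_lit 6)) (S (nat_lit 43))) (nat_lit 65535)))) (Nat.add (Nat.shiftLeft (nat_lit 1) (Nat.land (Nat.shiftRight (V (nat_lit 7)) (S (nat_lit 12))) (nat_lit 65535))) (Nat.shiftLeft (nat_lit 1) (Nat.land (Nat.shiftRight (V (nat_lit 7)) (S (nat_lit 40))) (nat_lit 65535))))) (Nat.add (Nat.add (Nat.shiftLeft (nat_lit 1) (Nat.land (Nat.shiftRight (V (nat_lit 9)) (S (nat_lit 24))) (nat_lit 65535))) (Nat.shiftLeft (nat_lit 1) (Nat.land (Nat.shiftRight (V (nat_lit 9)) (S (nat_lit 55))) (nat_lit 65535)))) (Nat.add (Nat.shiftLeft (nat_lit 1) (Nat.land (Nat.shiftRight (V (nat_lit 10)) (S (nat_lit 12))) (nat_lit 65535)))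 (Nat.shiftLeft (nat_lit 1) (Nat.land (Nat.shiftRight (V (nat_lit 10)) (S (nat_lit 52))) (nat_lit 65535))))))) (Nat.add (Nat.add (Nat.add (Nat.add (Nat.shiftLeft (nat_lit 1) (Nat.land (Nat.shiftRight (V (nat_lit 12)) (S (nat_lit 7))) (nat_lit 65535))) (Nat.shiftLeft (nat_lit 1) (Nat.land (Nat.shiftRight (V (nat_lit 12)) (S (nat_lit 10))) (nat_lit 65535)))) (Nat.add (Nat.shiftLeft (nat_lit 1) (Nat.land (Nat.shiftRight (V (nat_lit 15)) (S (nat_lit 4))) (nat_lit 65535))) (Nat.shiftLeft (nat_lit 1) (Nat.land (Nat.shiftRight (V (nat_lit 15)) (S (nat_lit 5))) (nat_lit 65535))))) (Nat.add (Nat.add (Nat.shiftLeft (nat_lit 1) (Nat.land (Nat.shiftRight (V (nat_lit 24)) (S (nat_lit 6))) (nat_lit 65535))) (Nat.shiftLeft (nat_lit 1) (Nat.land (Nat.shiftRight (V (nat_lit 24)) (S (nat_lit 9))) (nat_lit 65535)))) (Nat.add (Nat.shiftLeft (nat_lit 1) (Nat.land (Nat.shiftRight (V (nat_lit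 27)) (S (nat_lit 1))) (nat_lit 65535))) (Nat.shiftLeft (nat_lit 1) (Nat.land (Nat.shiftRight (V (nat_lit 27)) (S (nat_lit 2))) (nat_lit 65535)))))) (Nat.add (Nat.add (Nat.add (Nat.shiftLeft (nat_lit 1) (Nat.land (Nat.shiftRight (V (nat_lit 40)) (S (nat_lit 1))) (nat_lit 65535))) (Nat.shiftLeft (nat_lit 1) (Nat.land (Nat.shiftRight (V (nat_lit 40)) (S (nat_lit 7))) (nat_lit 65535)))) (Nat.add (Nat.shiftLeft (nat_lit 1) (Nat.land (Nat.shiftRight (V (nat_lit 43)) (S (nat_lit 4))) (nat_lit 65535))) (Nat.shiftLeft (nat_lit 1) (Nat.land (Nat.shiftRight (V (nat_lit 43)) (S (nat_lit 6))) (nat_lit 65535))))) (Nat.add (Nat.add (Nat.shiftLeft (nat_lit 1) (Nat.land (Nat.shiftRight (V (nat_lit 52)) (S (nat_lit 2))) (nat_lit 65535))) (Nat.shiftLeft (nat_lit 1) (Nat.land (Nat.shiftRight (V (nat_lit 52)) (S (nat_lit 10))) (nat_lit 65535)))) (Nat.add (Nat.shiftLeft (nat_lit 1) (Nat.land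 (Nat.shiftRight (V (nat_lit 55)) (S (nat_lit 5))) (nat_lit 65535))) (Nat.shiftLeft (nat_lit 1) (Nat.land (Nat.shiftRight (V (nat_lit 55)) (S (nat_lit 9))) (nat_lit 65535)))))))
def E40_1 (V S : ℕ → ℕ) : ℕ := Nat.add (Nat.add (Nat.add (Nat.add (Nat.add (Nat.add (Nat.shiftLeft (nat_lit 1) (Nat.land (Nat.shiftRight (V (nat_lit 1)) (S (nat_lit 29))) (nat_lit 65535))) (Nat.shiftLeft (nat_lit 1) (Nat.land (Nat.shiftRight (V (nat_lit 1)) (S (nat_lit 31))) (nat_lit 65535)))) (Nat.add (Nat.shiftLeft (nat_lit 1) (Nat.land (Nat.shiftRight (V (nat_lit 1)) (S (nat_lit 39))) (nat_lit 65535))) (Nat.shiftLeft (nat_lit 1) (Nat.land (Nat.shiftRight (V (nat_lit 1)) (S (nat_lit 42))) (nat_lit 65535))))) (Nat.add (Nat.add (Nat.shiftLeft (nat_lit 1) (Nat.land (Nat.shiftRight (V (nat_lit 2)) (S (nat_lit 28))) (nat_lit 65535))) (Nat.shiftLeft (nat_lit 1) (Nat.land (Nat.shiftRight (V (nat_lit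 2)) (S (nat_lit 34))) (nat_lit 65535)))) (Nat.add (Nat.shiftLeft (nat_lit 1) (Nat.land (Nat.shiftRight (V (nat_lit 2)) (S (nat_lit 51))) (nat_lit 65535))) (Nat.shiftLeft (nat_lit 1) (Nat.land (Nat.shiftRight (V (nat_lit 2)) (S (nat_lit 54))) (nat_lit 65535)))))) (Nat.add (Nat.add (Nat.add (Nat.shiftLeft (nat_lit 1) (Nat.land (Nat.shiftRight (V (nat_lit 4)) (S (nat_lit 17))) (nat_lit 65535))) (Nat.shiftLeft (nat_lit 1) (Nat.land (Nat.shiftRight (V (nat_lit 4)) (S (nat_lit 19))) (nat_lit 65535)))) (Nat.add (Nat.shiftLeft (nat_lit 1) (Nat.land (Nat.shiftRight (V (nat_lit 4)) (S (nat_lit 39))) (nat_lit 65535))) (Nat.shiftLeft (nat_lit 1) (Nat.land (Nat.shiftRight (V (nat_lit 4)) (S (nat_lit 42))) (nat_lit 65535))))) (Nat.add (Nat.add (Nat.shiftLeft (nat_lit 1) (Nat.land (Nat.shiftRight (V (nat_lit 5)) (S (nat_lit 16))) (nat_lit 65535))) (Nat.shiftLeft (nat_lit 1) (Nat.land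 (Nat.shiftRight (V (nat_lit 5)) (S (nat_lit 22))) (nat_lit 65535)))) (Nat.add (Nat.shiftLeft (nat_lit 1) (Nat.land (Nat.shiftRight (V (nat_lit 5)) (S (nat_lit 51))) (nat_lit 65535))) (Nat.shiftLeft (nat_lit 1) (Nat.land (Nat.shiftRight (V (nat_lit 5)) (S (nat_lit 54))) (nat_lit 65535))))))) (Nat.add (Nat.add (Nat.add (Nat.add (Nat.shiftLeft (nat_lit 1) (Nat.land (Nat.shiftRight (V (nat_lit 6)) (S (nat_lit 28))) (nat_lit 65535))) (Nat.shiftLeft (nat_lit 1) (Nat.land (Nat.shiftRight (V (nat_lit 6)) (S (nat_lit 34))) (nat_lit 65535)))) (Nat.add (Nat.shiftLeft (nat_lit 1) (Nat.land (Nat.shiftRight (V (nat_lit 6)) (S (nat_lit 36))) (nat_lit 65535))) (Nat.shiftLeft (nat_lit 1) (Nat.land (Nat.shiftRight (V (nat_lit 6)) (S (nat_lit 37))) (nat_lit 65535))))) (Nat.add (Nat.add (Nat.shiftLeft (nat_lit 1) (Nat.land (Nat.shiftRight (V (nat_lit 7)) (S (nat_lit 16))) (nat_lit 65535)))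 (Nat.shiftLeft (nat_lit 1) (Nat.land (Nat.shiftRight (V (nat_lit 7)) (S (nat_lit 22))) (nat_lit 65535)))) (Nat.add (Nat.shiftLeft (nat_lit 1) (Nat.land (Nat.shiftRight (V (nat_lit 7)) (S (nat_lit 36))) (nat_lit 65535))) (Nat.shiftLeft (nat_lit 1) (Nat.land (Nat.shiftRight (V (nat_lit 7)) (S (nat_lit 37))) (nat_lit 65535)))))) (Nat.add (Nat.add (Nat.add (Nat.shiftLeft (nat_lit 1) (Nat.land (Nat.shiftRight (V (nat_lit 9)) (S (nat_lit 29))) (nat_lit 65535))) (Nat.shiftLeft (nat_lit 1) (Nat.land (Nat.shiftRight (V (nat_lit 9)) (S (nat_lit 31))) (nat_lit 65535)))) (Nat.add (Nat.shiftLeft (nat_lit 1) (Nat.land (Nat.shiftRight (V (nat_lit 9)) (S (nat_lit 48))) (nat_lit 65535))) (Nat.shiftLeft (nat_lit 1) (Nat.land (Nat.shiftRight (V (nat_lit 9)) (S (nat_lit 49))) (nat_lit 65535))))) (Nat.add (Nat.add (Nat.shiftLeft (nat_lit 1) (Nat.land (Nat.shiftRight (V (nat_lit 10)) (S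 (nat_lit 17))) (nat_lit 65535))) (Nat.shiftLeft (nat_lit 1) (Nat.land (Nat.shiftRight (V (nat_lit 10)) (S (nat_lit 19))) (nat_lit 65535)))) (Nat.add (Nat.shiftLeft (nat_lit 1) (Nat.land (Nat.shiftRight (V (nat_lit 10)) (S (nat_lit 48))) (nat_lit 65535))) (Nat.shiftLeft (nat_lit 1) (Nat.land (Nat.shiftRight (V (nat_lit 10)) (S (nat_lit 49))) (nat_lit 65535)))))))) (Nat.add (Nat.add (Nat.add (Nat.add (Nat.add (Nat.shiftLeft (nat_lit 1) (Nat.land (Nat.shiftRight (V (nat_lit 16)) (S (nat_lit 5))) (nat_lit 65535))) (Nat.shiftLeft (nat_lit 1) (Nat.land (Nat.shiftRight (V (nat_lit 16)) (S (nat_lit 7))) (nat_lit 65535)))) (Nat.add (Nat.shiftLeft (nat_lit 1) (Nat.land (Nat.shiftRight (V (nat_lit 17)) (S (nat_lit 4))) (nat_lit 65535))) (Nat.shiftLeft (nat_lit 1) (Nat.land (Nat.shiftRight (V (nat_lit 17)) (S (nat_lit 10))) (nat_lit 65535))))) (Nat.add (Nat.add (Nat.shiftLeft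 (nat_lit 1) (Nat.land (Nat.shiftRight (V (nat_lit 19)) (S (nat_lit 4))) (nat_lit 65535))) (Nat.shiftLeft (nat_lit 1) (Nat.land (Nat.shiftRight (V (nat_lit 19)) (S (nat_lit 10))) (nat_lit 65535)))) (Nat.add (Nat.shiftLeft (nat_lit 1) (Nat.land (Nat.shiftRight (V (nat_lit 22)) (S (nat_lit 5))) (nat_lit 65535))) (Nat.shiftLeft (nat_lit 1) (Nat.land (Nat.shiftRight (V (nat_lit 22)) (S (nat_lit 7))) (nat_lit 65535)))))) (Nat.add (Nat.add (Nat.add (Nat.shiftLeft (nat_lit 1) (Nat.land (Nat.shiftRight (V (nat_lit 28)) (S (nat_lit 2))) (nat_lit 65535))) (Nat.shiftLeft (nat_lit 1) (Nat.land (Nat.shiftRight (V (nat_lit 28)) (S (nat_lit 6))) (nat_lit 65535)))) (Nat.add (Nat.shiftLeft (nat_lit 1) (Nat.land (Nat.shiftRight (V (nat_lit 29)) (S (nat_lit 1))) (nat_lit 65535))) (Nat.shiftLeft (nat_lit 1) (Nat.land (Nat.shiftRight (V (nat_lit 29)) (S (nat_lit 9))) (nat_lit 65535)))))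 (Nat.add (Nat.add (Nat.shiftLeft (nat_lit 1) (Nat.land (Nat.shiftRight (V (nat_lit 31)) (S (nat_lit 1))) (nat_lit 65535))) (Nat.shiftLeft (nat_lit 1) (Nat.land (Nat.shiftRight (V (nat_lit 31)) (S (nat_lit 9))) (nat_lit 65535)))) (Nat.add (Nat.shiftLeft (nat_lit 1) (Nat.land (Nat.shiftRight (V (nat_lit 34)) (S (nat_lit 2))) (nat_lit 65535))) (Nat.shiftLeft (nat_lit 1) (Nat.land (Nat.shiftRight (V (nat_lit 34)) (S (nat_lit 6))) (nat_lit 65535))))))) (Nat.add (Nat.add (Nat.add (Nat.add (Nat.shiftLeft (nat_lit 1) (Nat.land (Nat.shiftRight (V (nat_lit 36)) (S (nat_lit 6))) (nat_lit 65535))) (Nat.shiftLeft (nat_lit 1) (Nat.land (Nat.shiftRight (V (nat_lit 36)) (S (nat_lit 7))) (nat_lit 65535)))) (Nat.add (Nat.shiftLeft (nat_lit 1) (Nat.land (Nat.shiftRight (V (nat_lit 37)) (S (nat_lit 6))) (nat_lit 65535))) (Nat.shiftLeft (nat_lit 1) (Nat.land (Nat.shiftRight (V (nat_lit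 37)) (S (nat_lit 7))) (nat_lit 65535))))) (Nat.add (Nat.add (Nat.shiftLeft (nat_lit 1) (Nat.land (Nat.shiftRight (V (nat_lit 39)) (S (nat_lit 1))) (nat_lit 65535))) (Nat.shiftLeft (nat_lit 1) (Nat.land (Nat.shiftRight (V (nat_lit 39)) (S (nat_lit 4))) (nat_lit 65535)))) (Nat.add (Nat.shiftLeft (nat_lit 1) (Nat.land (Nat.shiftRight (V (nat_lit 42)) (S (nat_lit 1))) (nat_lit 65535))) (Nat.shiftLeft (nat_lit 1) (Nat.land (Nat.shiftRight (V (nat_lit 42)) (S (nat_lit 4))) (nat_lit 65535)))))) (Nat.add (Nat.add (Nat.add (Nat.shiftLeft (nat_lit 1) (Nat.land (Nat.shiftRight (V (nat_lit 48)) (S (nat_lit 9))) (nat_lit 65535))) (Nat.shiftLeft (nat_lit 1) (Nat.land (Nat.shiftRight (V (nat_lit 48)) (S (nat_lit 10))) (nat_lit 65535)))) (Nat.add (Nat.shiftLeft (nat_lit 1) (Nat.land (Nat.shiftRight (V (nat_lit 49)) (S (nat_lit 9))) (nat_lit 65535))) (Nat.shiftLeft (nat_lit 1) (Nat.land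 (Nat.shiftRight (V (nat_lit 49)) (S (nat_lit 10))) (nat_lit 65535))))) (Nat.add (Nat.add (Nat.shiftLeft (nat_lit 1) (Nat.land (Nat.shiftRight (V (nat_lit 51)) (S (nat_lit 2))) (nat_lit 65535))) (Nat.shiftLeft (nat_lit 1) (Nat.land (Nat.shiftRight (V (nat_lit 51)) (S (nat_lit 5))) (nat_lit 65535)))) (Nat.add (Nat.shiftLeft (nat_lit 1) (Nat.land (Nat.shiftRight (V (nat_lit 54)) (S (nat_lit 2))) (nat_lit 65535))) (Nat.shiftLeft (nat_lit 1) (Nat.land (Nat.shiftRight (V (nat_lit 54)) (S (nat_lit 5))) (nat_lit 65535))))))))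
def E42_1 (V S : ℕ → ℕ) : ℕ := Nat.add (Nat.add (Nat.add (Nat.add (Nat.add (Nat.shiftLeft (nat_lit 1) (Nat.land (Nat.shiftRight (V (nat_lit 16)) (S (nat_lit 17))) (nat_lit 65535))) (Nat.shiftLeft (nat_lit 1) (Nat.land (Nat.shiftRight (V (nat_lit 16)) (S (nat_lit 31))) (nat_lit 65535)))) (Nat.add (Nat.shiftLeft (nat_lit 1) (Nat.land (Nat.shiftRight (V (nat_lit 17)) (S (nat_lit 16))) (nat_lit 65535))) (Nat.shiftLeft (nat_lit 1) (Nat.land (Nat.shiftRight (V (nat_lit 17)) (S (nat_lit 34))) (nat_lit 65535))))) (Nat.add (Nat.add (Nat.shiftLeft (nat_lit 1) (Nat.land (Nat.shiftRight (V (nat_lit 19)) (S (nat_lit 22))) (nat_lit 65535))) (Nat.shiftLeft (nat_lit 1) (Nat.land (Nat.shiftRight (V (nat_lit 19)) (S (nat_lit 28))) (nat_lit 65535)))) (Nat.add (Nat.shiftLeft (nat_lit 1) (Nat.land (Nat.shiftRight (V (nat_lit 22)) (S (nat_lit 19))) (nat_lit 65535))) (Nat.shiftLeft (nat_lit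 1) (Nat.land (Nat.shiftRight (V (nat_lit 22)) (S (nat_lit 29))) (nat_lit 65535)))))) (Nat.add (Nat.add (Nat.add (Nat.shiftLeft (nat_lit 1) (Nat.land (Nat.shiftRight (V (nat_lit 28)) (S (nat_lit 19))) (nat_lit 65535))) (Nat.shiftLeft (nat_lit 1) (Nat.land (Nat.shiftRight (V (nat_lit 28)) (S (nat_lit 29))) (nat_lit 65535)))) (Nat.add (Nat.shiftLeft (nat_lit 1) (Nat.land (Nat.shiftRight (V (nat_lit 29)) (S (nat_lit 22))) (nat_lit 65535))) (Nat.shiftLeft (nat_lit 1) (Nat.land (Nat.shiftRight (V (nat_lit 29)) (S (nat_lit 28))) (nat_lit 65535))))) (Nat.add (Nat.add (Nat.shiftLeft (nat_lit 1) (Nat.land (Nat.shiftRight (V (nat_lit 31)) (S (nat_lit 16))) (nat_lit 65535))) (Nat.shiftLeft (nat_lit 1) (Nat.land (Nat.shiftRight (V (nat_lit 31)) (S (nat_lit 34))) (nat_lit 65535)))) (Nat.add (Nat.shiftLeft (nat_lit 1) (Nat.land (Nat.shiftRight (V (nat_lit 34)) (S (nat_lit 17)))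 (nat_lit 65535))) (Nat.shiftLeft (nat_lit 1) (Nat.land (Nat.shiftRight (V (nat_lit 34)) (S (nat_lit 31))) (nat_lit 65535))))))) (Nat.add (Nat.add (Nat.add (Nat.add (Nat.shiftLeft (nat_lit 1) (Nat.land (Nat.shiftRight (V (nat_lit 36)) (S (nat_lit 42))) (nat_lit 65535))) (Nat.shiftLeft (nat_lit 1) (Nat.land (Nat.shiftRight (V (nat_lit 36)) (S (nat_lit 48))) (nat_lit 65535)))) (Nat.add (Nat.shiftLeft (nat_lit 1) (Nat.land (Nat.shiftRight (V (nat_lit 37)) (S (nat_lit 39))) (nat_lit 65535))) (Nat.shiftLeft (nat_lit 1) (Nat.land (Nat.shiftRight (V (nat_lit 37)) (S (nat_lit 49))) (nat_lit 65535))))) (Nat.add (Nat.add (Nat.shiftLeft (nat_lit 1) (Nat.land (Nat.shiftRight (V (nat_lit 39)) (S (nat_lit 37))) (nat_lit 65535))) (Nat.shiftLeft (nat_lit 1) (Nat.land (Nat.shiftRight (V (nat_lit 39)) (S (nat_lit 51))) (nat_lit 65535)))) (Nat.add (Nat.shiftLeft (nat_lit 1) (Nat.land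 (Nat.shiftRight (V (nat_lit 42)) (S (nat_lit 36))) (nat_lit 65535))) (Nat.shiftLeft (nat_lit 1) (Nat.land (Nat.shiftRight (V (nat_lit 42)) (S (nat_lit 54))) (nat_lit 65535)))))) (Nat.add (Nat.add (Nat.add (Nat.shiftLeft (nat_lit 1) (Nat.land (Nat.shiftRight (V (nat_lit 48)) (S (nat_lit 36))) (nat_lit 65535))) (Nat.shiftLeft (nat_lit 1) (Nat.land (Nat.shiftRight (V (nat_lit 48)) (S (nat_lit 54))) (nat_lit 65535)))) (Nat.add (Nat.shiftLeft (nat_lit 1) (Nat.land (Nat.shiftRight (V (nat_lit 49)) (S (nat_lit 37))) (nat_lit 65535))) (Nat.shiftLeft (nat_lit 1) (Nat.land (Nat.shiftRight (V (nat_lit 49)) (S (nat_lit 51))) (nat_lit 65535))))) (Nat.add (Nat.add (Nat.shiftLeft (nat_lit 1) (Nat.land (Nat.shiftRight (V (nat_lit 51)) (S (nat_lit 39))) (nat_lit 65535))) (Nat.shiftLeft (nat_lit 1) (Nat.land (Nat.shiftRight (V (nat_lit 51)) (S (nat_lit 49))) (nat_lit 65535)))) (Nat.add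 (Nat.shiftLeft (nat_lit 1) (Nat.land (Nat.shiftRight (V (nat_lit 54)) (S (nat_lit 42))) (nat_lit 65535))) (Nat.shiftLeft (nat_lit 1) (Nat.land (Nat.shiftRight (V (nat_lit 54)) (S (nat_lit 48))) (nat_lit 65535)))))))
def E45_1 (V S : ℕ → ℕ) : ℕ := Nat.add (Nat.add (Nat.add (Nat.add (Nat.shiftLeft (nat_lit 1) (Nat.land (Nat.shiftRight (V (nat_lit 12)) (S (nat_lit 15))) (nat_lit 65535))) (Nat.shiftLeft (nat_lit 1) (Nat.land (Nat.shiftRight (V (nat_lit 12)) (S (nat_lit 24))) (nat_lit 65535)))) (Nat.add (Nat.shiftLeft (nat_lit 1) (Nat.land (Nat.shiftRight (V (nat_lit 15)) (S (nat_lit 12))) (nat_lit 65535))) (Nat.shiftLeft (nat_lit 1) (Nat.land (Nat.shiftRight (V (nat_lit 15)) (S (nat_lit 27))) (nat_lit 65535))))) (Nat.add (Nat.add (Nat.shiftLeft (nat_lit 1) (Nat.land (Nat.shiftRight (V (nat_lit 24)) (S (nat_lit 12))) (nat_lit 65535))) (Nat.shiftLeft (nat_lit 1) (Nat.land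 (Nat.shiftRight (V (nat_lit 24)) (S (nat_lit 27))) (nat_lit 65535)))) (Nat.add (Nat.shiftLeft (nat_lit 1) (Nat.land (Nat.shiftRight (V (nat_lit 27)) (S (nat_lit 15))) (nat_lit 65535))) (Nat.shiftLeft (nat_lit 1) (Nat.land (Nat.shiftRight (V (nat_lit 27)) (S (nat_lit 24))) (nat_lit 65535)))))) (Nat.add (Nat.add (Nat.add (Nat.shiftLeft (nat_lit 1) (Nat.land (Nat.shiftRight (V (nat_lit 40)) (S (nat_lit 43))) (nat_lit 65535))) (Nat.shiftLeft (nat_lit 1) (Nat.land (Nat.shiftRight (V (nat_lit 40)) (S (nat_lit 55))) (nat_lit 65535)))) (Nat.add (Nat.shiftLeft (nat_lit 1) (Nat.land (Nat.shiftRight (V (nat_lit 43)) (S (nat_lit 40))) (nat_lit 65535))) (Nat.shiftLeft (nat_lit 1) (Nat.land (Nat.shiftRight (V (nat_lit 43)) (S (nat_lit 52))) (nat_lit 65535))))) (Nat.add (Nat.add (Nat.shiftLeft (nat_lit 1) (Nat.land (Nat.shiftRight (V (nat_lit 52)) (S (nat_lit 43))) (nat_lit 65535)))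 (Nat.shiftLeft (nat_lit 1) (Nat.land (Nat.shiftRight (V (nat_lit 52)) (S (nat_lit 55))) (nat_lit 65535)))) (Nat.add (Nat.shiftLeft (nat_lit 1) (Nat.land (Nat.shiftRight (V (nat_lit 55)) (S (nat_lit 40))) (nat_lit 65535))) (Nat.shiftLeft (nat_lit 1) (Nat.land (Nat.shiftRight (V (nat_lit 55)) (S (nat_lit 52))) (nat_lit 65535))))))
def E46_1 (V S : ℕ → ℕ) : ℕ := Nat.add (Nat.add (Nat.add (Nat.add (Nat.add (Nat.shiftLeft (nat_lit 1) (Nat.land (Nat.shiftRight (V (nat_lit 12)) (S (nat_lit 13))) (nat_lit 65535))) (Nat.add (Nat.shiftLeft (nat_lit 1) (Nat.land (Nat.shiftRight (V (nat_lit 12)) (S (nat_lit 14))) (nat_lit 65535))) (Nat.shiftLeft (nat_lit 1) (Nat.land (Nat.shiftRight (V (nat_lit 12)) (S (nat_lit 43))) (nat_lit 65535))))) (Nat.add (Nat.shiftLeft (nat_lit 1) (Nat.land (Nat.shiftRight (V (nat_lit 12)) (S (nat_lit 55))) (nat_lit 65535))) (Nat.add (Nat.shiftLeft (nat_lit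 1) (Nat.land (Nat.shiftRight (V (nat_lit 13)) (S (nat_lit 12))) (nat_lit 65535))) (Nat.shiftLeft (nat_lit 1) (Nat.land (Nat.shiftRight (V (nat_lit 14)) (S (nat_lit 12))) (nat_lit 65535)))))) (Nat.add (Nat.add (Nat.shiftLeft (nat_lit 1) (Nat.land (Nat.shiftRight (V (nat_lit 15)) (S (nat_lit 18))) (nat_lit 65535))) (Nat.add (Nat.shiftLeft (nat_lit 1) (Nat.land (Nat.shiftRight (V (nat_lit 15)) (S (nat_lit 21))) (nat_lit 65535))) (Nat.shiftLeft (nat_lit 1) (Nat.land (Nat.shiftRight (V (nat_lit 15)) (S (nat_lit 40))) (nat_lit 65535))))) (Nat.add (Nat.shiftLeft (nat_lit 1) (Nat.land (Nat.shiftRight (V (nat_lit 15)) (S (nat_lit 52))) (nat_lit 65535))) (Nat.add (Nat.shiftLeft (nat_lit 1) (Nat.land (Nat.shiftRight (V (nat_lit 18)) (S (nat_lit 15))) (nat_lit 65535))) (Nat.shiftLeft (nat_lit 1) (Nat.land (Nat.shiftRight (V (nat_lit 21)) (S (nat_lit 15))) (nat_lit 65535)))))))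 (Nat.add (Nat.add (Nat.add (Nat.shiftLeft (nat_lit 1) (Nat.land (Nat.shiftRight (V (nat_lit 24)) (S (nat_lit 25))) (nat_lit 65535))) (Nat.add (Nat.shiftLeft (nat_lit 1) (Nat.land (Nat.shiftRight (V (nat_lit 24)) (S (nat_lit 26))) (nat_lit 65535))) (Nat.shiftLeft (nat_lit 1) (Nat.land (Nat.shiftRight (V (nat_lit 24)) (S (nat_lit 40))) (nat_lit 65535))))) (Nat.add (Nat.shiftLeft (nat_lit 1) (Nat.land (Nat.shiftRight (V (nat_lit 24)) (S (nat_lit 52))) (nat_lit 65535))) (Nat.add (Nat.shiftLeft (nat_lit 1) (Nat.land (Nat.shiftRight (V (nat_lit 25)) (S (nat_lit 24))) (nat_lit 65535))) (Nat.shiftLeft (nat_lit 1) (Nat.land (Nat.shiftRight (V (nat_lit 26)) (S (nat_lit 24))) (nat_lit 65535)))))) (Nat.add (Nat.add (Nat.shiftLeft (nat_lit 1) (Nat.land (Nat.shiftRight (V (nat_lit 27)) (S (nat_lit 30))) (nat_lit 65535))) (Nat.add (Nat.shiftLeft (nat_lit 1) (Nat.land (Nat.shiftRight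 (V (nat_lit 27)) (S (nat_lit 33))) (nat_lit 65535))) (Nat.shiftLeft (nat_lit 1) (Nat.land (Nat.shiftRight (V (nat_lit 27)) (S (nat_lit 43))) (nat_lit 65535))))) (Nat.add (Nat.shiftLeft (nat_lit 1) (Nat.land (Nat.shiftRight (V (nat_lit 27)) (S (nat_lit 55))) (nat_lit 65535))) (Nat.add (Nat.shiftLeft (nat_lit 1) (Nat.land (Nat.shiftRight (V (nat_lit 30)) (S (nat_lit 27))) (nat_lit 65535))) (Nat.shiftLeft (nat_lit 1) (Nat.land (Nat.shiftRight (V (nat_lit 33)) (S (nat_lit 27))) (nat_lit 65535)))))))) (Nat.add (Nat.add (Nat.add (Nat.add (Nat.shiftLeft (nat_lit 1) (Nat.land (Nat.shiftRight (V (nat_lit 40)) (S (nat_lit 15))) (nat_lit 65535))) (Nat.add (Nat.shiftLeft (nat_lit 1) (Nat.land (Nat.shiftRight (V (nat_lit 40)) (S (nat_lit 24))) (nat_lit 65535))) (Nat.shiftLeft (nat_lit 1) (Nat.land (Nat.shiftRight (V (nat_lit 40)) (S (nat_lit 44))) (nat_lit 65535))))) (Nat.add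 (Nat.shiftLeft (nat_lit 1) (Nat.land (Nat.shiftRight (V (nat_lit 40)) (S (nat_lit 46))) (nat_lit 65535))) (Nat.add (Nat.shiftLeft (nat_lit 1) (Nat.land (Nat.shiftRight (V (nat_lit 41)) (S (nat_lit 43))) (nat_lit 65535))) (Nat.shiftLeft (nat_lit 1) (Nat.land (Nat.shiftRight (V (nat_lit 43)) (S (nat_lit 12))) (nat_lit 65535)))))) (Nat.add (Nat.add (Nat.shiftLeft (nat_lit 1) (Nat.land (Nat.shiftRight (V (nat_lit 43)) (S (nat_lit 27))) (nat_lit 65535))) (Nat.add (Nat.shiftLeft (nat_lit 1) (Nat.land (Nat.shiftRight (V (nat_lit 43)) (S (nat_lit 41))) (nat_lit 65535))) (Nat.shiftLeft (nat_lit 1) (Nat.land (Nat.shiftRight (V (nat_lit 43)) (S (nat_lit 47))) (nat_lit 65535))))) (Nat.add (Nat.shiftLeft (nat_lit 1) (Nat.land (Nat.shiftRight (V (nat_lit 44)) (S (nat_lit 40))) (nat_lit 65535))) (Nat.add (Nat.shiftLeft (nat_lit 1) (Nat.land (Nat.shiftRight (V (nat_lit 46)) (S (nat_lit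 40))) (nat_lit 65535))) (Nat.shiftLeft (nat_lit 1) (Nat.land (Nat.shiftRight (V (nat_lit 47)) (S (nat_lit 43))) (nat_lit 65535))))))) (Nat.add (Nat.add (Nat.add (Nat.shiftLeft (nat_lit 1) (Nat.land (Nat.shiftRight (V (nat_lit 52)) (S (nat_lit 15))) (nat_lit 65535))) (Nat.add (Nat.shiftLeft (nat_lit 1) (Nat.land (Nat.shiftRight (V (nat_lit 52)) (S (nat_lit 24))) (nat_lit 65535))) (Nat.shiftLeft (nat_lit 1) (Nat.land (Nat.shiftRight (V (nat_lit 52)) (S (nat_lit 56))) (nat_lit 65535))))) (Nat.add (Nat.shiftLeft (nat_lit 1) (Nat.land (Nat.shiftRight (V (nat_lit 52)) (S (nat_lit 58))) (nat_lit 65535))) (Nat.add (Nat.shiftLeft (nat_lit 1) (Nat.land (Nat.shiftRight (V (nat_lit 53)) (S (nat_lit 55))) (nat_lit 65535))) (Nat.shiftLeft (nat_lit 1) (Nat.land (Nat.shiftRight (V (nat_lit 55)) (S (nat_lit 12))) (nat_lit 65535)))))) (Nat.add (Nat.add (Nat.shiftLeft (nat_lit 1) (Nat.land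 (Nat.shiftRight (V (nat_lit 55)) (S (nat_lit 27))) (nat_lit 65535))) (Nat.add (Nat.shiftLeft (nat_lit 1) (Nat.land (Nat.shiftRight (V (nat_lit 55)) (S (nat_lit 53))) (nat_lit 65535))) (Nat.shiftLeft (nat_lit 1) (Nat.land (Nat.shiftRight (V (nat_lit 55)) (S (nat_lit 59))) (nat_lit 65535))))) (Nat.add (Nat.shiftLeft (nat_lit 1) (Nat.land (Nat.shiftRight (V (nat_lit 56)) (S (nat_lit 52))) (nat_lit 65535))) (Nat.add (Nat.shiftLeft (nat_lit 1) (Nat.land (Nat.shiftRight (V (nat_lit 58)) (S (nat_lit 52))) (nat_lit 65535))) (Nat.shiftLeft (nat_lit 1) (Nat.land (Nat.shiftRight (V (nat_lit 59)) (S (nat_lit 55))) (nat_lit 65535))))))))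
def E47_1 (V S : ℕ → ℕ) : ℕ := Nat.add (Nat.add (Nat.add (Nat.add (Nat.add (Nat.shiftLeft (nat_lit 1) (Nat.land (Nat.shiftRight (V (nat_lit 12)) (S (nat_lit 30))) (nat_lit 65535))) (Nat.add (Nat.shiftLeft (nat_lit 1) (Nat.land (Nat.shiftRight (V (nat_lit 12)) (S (nat_lit 33))) (nat_lit 65535))) (Nat.shiftLeft (nat_lit 1) (Nat.land (Nat.shiftRight (V (nat_lit 13)) (S (nat_lit 14))) (nat_lit 65535))))) (Nat.add (Nat.shiftLeft (nat_lit 1) (Nat.land (Nat.shiftRight (V (nat_lit 13)) (S (nat_lit 27))) (nat_lit 65535))) (Nat.add (Nat.shiftLeft (nat_lit 1) (Nat.land (Nat.shiftRight (V (nat_lit 14)) (S (nat_lit 13))) (nat_lit 65535))) (Nat.shiftLeft (nat_lit 1) (Nat.land (Nat.shiftRight (V (nat_lit 14)) (S (nat_lit 27))) (nat_lit 65535)))))) (Nat.add (Nat.add (Nat.shiftLeft (nat_lit 1) (Nat.land (Nat.shiftRight (V (nat_lit 15)) (S (nat_lit 25))) (nat_lit 65535))) (Nat.add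 (Nat.shiftLeft (nat_lit 1) (Nat.land (Nat.shiftRight (V (nat_lit 15)) (S (nat_lit 26))) (nat_lit 65535))) (Nat.shiftLeft (nat_lit 1) (Nat.land (Nat.shiftRight (V (nat_lit 18)) (S (nat_lit 21))) (nat_lit 65535))))) (Nat.add (Nat.shiftLeft (nat_lit 1) (Nat.land (Nat.shiftRight (V (nat_lit 18)) (S (nat_lit 24))) (nat_lit 65535))) (Nat.add (Nat.shiftLeft (nat_lit 1) (Nat.land (Nat.shiftRight (V (nat_lit 21)) (S (nat_lit 18))) (nat_lit 65535))) (Nat.shiftLeft (nat_lit 1) (Nat.land (Nat.shiftRight (V (nat_lit 21)) (S (nat_lit 24))) (nat_lit 65535))))))) (Nat.add (Nat.add (Nat.add (Nat.shiftLeft (nat_lit 1) (Nat.land (Nat.shiftRight (V (nat_lit 24)) (S (nat_lit 18))) (nat_lit 65535))) (Nat.add (Nat.shiftLeft (nat_lit 1) (Nat.land (Nat.shiftRight (V (nat_lit 24)) (S (nat_lit 21))) (nat_lit 65535))) (Nat.shiftLeft (nat_lit 1) (Nat.land (Nat.shiftRight (V (nat_lit 25)) (S (nat_lit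 15))) (nat_lit 65535))))) (Nat.add (Nat.shiftLeft (nat_lit 1) (Nat.land (Nat.shiftRight (V (nat_lit 25)) (S (nat_lit 26))) (nat_lit 65535))) (Nat.add (Nat.shiftLeft (nat_lit 1) (Nat.land (Nat.shiftRight (V (nat_lit 26)) (S (nat_lit 15))) (nat_lit 65535))) (Nat.shiftLeft (nat_lit 1) (Nat.land (Nat.shiftRight (V (nat_lit 26)) (S (nat_lit 25))) (nat_lit 65535)))))) (Nat.add (Nat.add (Nat.shiftLeft (nat_lit 1) (Nat.land (Nat.shiftRight (V (nat_lit 27)) (S (nat_lit 13))) (nat_lit 65535))) (Nat.add (Nat.shiftLeft (nat_lit 1) (Nat.land (Nat.shiftRight (V (nat_lit 27)) (S (nat_lit 14))) (nat_lit 65535))) (Nat.shiftLeft (nat_lit 1) (Nat.land (Nat.shiftRight (V (nat_lit 30)) (S (nat_lit 12))) (nat_lit 65535))))) (Nat.add (Nat.shiftLeft (nat_lit 1) (Nat.land (Nat.shiftRight (V (nat_lit 30)) (S (nat_lit 33))) (nat_lit 65535))) (Nat.add (Nat.shiftLeft (nat_lit 1) (Nat.land (Nat.shiftRight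 (V (nat_lit 33)) (S (nat_lit 12))) (nat_lit 65535))) (Nat.shiftLeft (nat_lit 1) (Nat.land (Nat.shiftRight (V (nat_lit 33)) (S (nat_lit 30))) (nat_lit 65535)))))))) (Nat.add (Nat.add (Nat.add (Nat.add (Nat.shiftLeft (nat_lit 1) (Nat.land (Nat.shiftRight (V (nat_lit 40)) (S (nat_lit 56))) (nat_lit 65535))) (Nat.add (Nat.shiftLeft (nat_lit 1) (Nat.land (Nat.shiftRight (V (nat_lit 40)) (S (nat_lit 58))) (nat_lit 65535))) (Nat.shiftLeft (nat_lit 1) (Nat.land (Nat.shiftRight (V (nat_lit 41)) (S (nat_lit 47))) (nat_lit 65535))))) (Nat.add (Nat.shiftLeft (nat_lit 1) (Nat.land (Nat.shiftRight (V (nat_lit 41)) (S (nat_lit 55))) (nat_lit 65535))) (Nat.add (Nat.shiftLeft (nat_lit 1) (Nat.land (Nat.shiftRight (V (nat_lit 43)) (S (nat_lit 53))) (nat_lit 65535))) (Nat.shiftLeft (nat_lit 1) (Nat.land (Nat.shiftRight (V (nat_lit 43)) (S (nat_lit 59))) (nat_lit 65535)))))) (Nat.add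 (Nat.add (Nat.shiftLeft (nat_lit 1) (Nat.land (Nat.shiftRight (V (nat_lit 44)) (S (nat_lit 46))) (nat_lit 65535))) (Nat.add (Nat.shiftLeft (nat_lit 1) (Nat.land (Nat.shiftRight (V (nat_lit 44)) (S (nat_lit 52))) (nat_lit 65535))) (Nat.shiftLeft (nat_lit 1) (Nat.land (Nat.shiftRight (V (nat_lit 46)) (S (nat_lit 44))) (nat_lit 65535))))) (Nat.add (Nat.shiftLeft (nat_lit 1) (Nat.land (Nat.shiftRight (V (nat_lit 46)) (S (nat_lit 52))) (nat_lit 65535))) (Nat.add (Nat.shiftLeft (nat_lit 1) (Nat.land (Nat.shiftRight (V (nat_lit 47)) (S (nat_lit 41))) (nat_lit 65535))) (Nat.shiftLeft (nat_lit 1) (Nat.land (Nat.shiftRight (V (nat_lit 47)) (S (nat_lit 55))) (nat_lit 65535))))))) (Nat.add (Nat.add (Nat.add (Nat.shiftLeft (nat_lit 1) (Nat.land (Nat.shiftRight (V (nat_lit 52)) (S (nat_lit 44))) (nat_lit 65535))) (Nat.add (Nat.shiftLeft (nat_lit 1) (Nat.land (Nat.shiftRight (V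 (nat_lit 52)) (S (nat_lit 46))) (nat_lit 65535))) (Nat.shiftLeft (nat_lit 1) (Nat.land (Nat.shiftRight (V (nat_lit 53)) (S (nat_lit 43))) (nat_lit 65535))))) (Nat.add (Nat.shiftLeft (nat_lit 1) (Nat.land (Nat.shiftRight (V (nat_lit 53)) (S (nat_lit 59))) (nat_lit 65535))) (Nat.add (Nat.shiftLeft (nat_lit 1) (Nat.land (Nat.shiftRight (V (nat_lit 55)) (S (nat_lit 41))) (nat_lit 65535))) (Nat.shiftLeft (nat_lit 1) (Nat.land (Nat.shiftRight (V (nat_lit 55)) (S (nat_lit 47))) (nat_lit 65535)))))) (Nat.add (Nat.add (Nat.shiftLeft (nat_lit 1) (Nat.land (Nat.shiftRight (V (nat_lit 56)) (S (nat_lit 40))) (nat_lit 65535))) (Nat.add (Nat.shiftLeft (nat_lit 1) (Nat.land (Nat.shiftRight (V (nat_lit 56)) (S (nat_lit 58))) (nat_lit 65535))) (Nat.shiftLeft (nat_lit 1) (Nat.land (Nat.shiftRight (V (nat_lit 58)) (S (nat_lit 40))) (nat_lit 65535))))) (Nat.add (Nat.shiftLeft (nat_lit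 1) (Nat.land (Nat.shiftRight (V (nat_lit 58)) (S (nat_lit 56))) (nat_lit 65535))) (Nat.add (Nat.shiftLeft (nat_lit 1) (Nat.land (Nat.shiftRight (V (nat_lit 59)) (S (nat_lit 43))) (nat_lit 65535))) (Nat.shiftLeft (nat_lit 1) (Nat.land (Nat.shiftRight (V (nat_lit 59)) (S (nat_lit 53))) (nat_lit 65535))))))))
def E48_1 (V S : ℕ → ℕ) : ℕ := Nat.add (Nat.add (Nat.add (Nat.add (Nat.add (Nat.shiftLeft (nat_lit 1) (Nat.land (Nat.shiftRight (V (nat_lit 12)) (S (nat_lit 41))) (nat_lit 65535))) (Nat.add (Nat.shiftLeft (nat_lit 1) (Nat.land (Nat.shiftRight (V (nat_lit 12)) (S (nat_lit 53))) (nat_lit 65535))) (Nat.shiftLeft (nat_lit 1) (Nat.land (Nat.shiftRight (V (nat_lit 13)) (S (nat_lit 53))) (nat_lit 65535))))) (Nat.add (Nat.shiftLeft (nat_lit 1) (Nat.land (Nat.shiftRight (V (nat_lit 13)) (S (nat_lit 55))) (nat_lit 65535))) (Nat.add (Nat.shiftLeft (nat_lit 1) (Nat.land (Nat.shiftRight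 (V (nat_lit 14)) (S (nat_lit 41))) (nat_lit 65535))) (Nat.shiftLeft (nat_lit 1) (Nat.land (Nat.shiftRight (V (nat_lit 14)) (S (nat_lit 43))) (nat_lit 65535)))))) (Nat.add (Nat.add (Nat.shiftLeft (nat_lit 1) (Nat.land (Nat.shiftRight (V (nat_lit 15)) (S (nat_lit 46))) (nat_lit 65535))) (Nat.add (Nat.shiftLeft (nat_lit 1) (Nat.land (Nat.shiftRight (V (nat_lit 15)) (S (nat_lit 58))) (nat_lit 65535))) (Nat.shiftLeft (nat_lit 1) (Nat.land (Nat.shiftRight (V (nat_lit 18)) (S (nat_lit 52))) (nat_lit 65535))))) (Nat.add (Nat.shiftLeft (nat_lit 1) (Nat.land (Nat.shiftRight (V (nat_lit 18)) (S (nat_lit 58))) (nat_lit 65535))) (Nat.add (Nat.shiftLeft (nat_lit 1) (Nat.land (Nat.shiftRight (V (nat_lit 21)) (S (nat_lit 40))) (nat_lit 65535))) (Nat.shiftLeft (nat_lit 1) (Nat.land (Nat.shiftRight (V (nat_lit 21)) (S (nat_lit 46))) (nat_lit 65535))))))) (Nat.add (Nat.add (Nat.add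 (Nat.shiftLeft (nat_lit 1) (Nat.land (Nat.shiftRight (V (nat_lit 24)) (S (nat_lit 44))) (nat_lit 65535))) (Nat.add (Nat.shiftLeft (nat_lit 1) (Nat.land (Nat.shiftRight (V (nat_lit 24)) (S (nat_lit 56))) (nat_lit 65535))) (Nat.shiftLeft (nat_lit 1) (Nat.land (Nat.shiftRight (V (nat_lit 25)) (S (nat_lit 52))) (nat_lit 65535))))) (Nat.add (Nat.shiftLeft (nat_lit 1) (Nat.land (Nat.shiftRight (V (nat_lit 25)) (S (nat_lit 56))) (nat_lit 65535))) (Nat.add (Nat.shiftLeft (nat_lit 1) (Nat.land (Nat.shiftRight (V (nat_lit 26)) (S (nat_lit 40))) (nat_lit 65535))) (Nat.shiftLeft (nat_lit 1) (Nat.land (Nat.shiftRight (V (nat_lit 26)) (S (nat_lit 44))) (nat_lit 65535)))))) (Nat.add (Nat.add (Nat.shiftLeft (nat_lit 1) (Nat.land (Nat.shiftRight (V (nat_lit 27)) (S (nat_lit 47))) (nat_lit 65535))) (Nat.add (Nat.shiftLeft (nat_lit 1) (Nat.land (Nat.shiftRight (V (nat_lit 27)) (S (nat_lit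 59))) (nat_lit 65535))) (Nat.shiftLeft (nat_lit 1) (Nat.land (Nat.shiftRight (V (nat_lit 30)) (S (nat_lit 55))) (nat_lit 65535))))) (Nat.add (Nat.shiftLeft (nat_lit 1) (Nat.land (Nat.shiftRight (V (nat_lit 30)) (S (nat_lit 59))) (nat_lit 65535))) (Nat.add (Nat.shiftLeft (nat_lit 1) (Nat.land (Nat.shiftRight (V (nat_lit 33)) (S (nat_lit 43))) (nat_lit 65535))) (Nat.shiftLeft (nat_lit 1) (Nat.land (Nat.shiftRight (V (nat_lit 33)) (S (nat_lit 47))) (nat_lit 65535)))))))) (Nat.add (Nat.add (Nat.add (Nat.add (Nat.shiftLeft (nat_lit 1) (Nat.land (Nat.shiftRight (V (nat_lit 40)) (S (nat_lit 21))) (nat_lit 65535))) (Nat.add (Nat.shiftLeft (nat_lit 1) (Nat.land (Nat.shiftRight (V (nat_lit 40)) (S (nat_lit 26))) (nat_lit 65535))) (Nat.shiftLeft (nat_lit 1) (Nat.land (Nat.shiftRight (V (nat_lit 41)) (S (nat_lit 12))) (nat_lit 65535))))) (Nat.add (Nat.shiftLeft (nat_lit 1) (Nat.land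 (Nat.shiftRight (V (nat_lit 41)) (S (nat_lit 14))) (nat_lit 65535))) (Nat.add (Nat.shiftLeft (nat_lit 1) (Nat.land (Nat.shiftRight (V (nat_lit 43)) (S (nat_lit 14))) (nat_lit 65535))) (Nat.shiftLeft (nat_lit 1) (Nat.land (Nat.shiftRight (V (nat_lit 43)) (S (nat_lit 33))) (nat_lit 65535)))))) (Nat.add (Nat.add (Nat.shiftLeft (nat_lit 1) (Nat.land (Nat.shiftRight (V (nat_lit 44)) (S (nat_lit 24))) (nat_lit 65535))) (Nat.add (Nat.shiftLeft (nat_lit 1) (Nat.land (Nat.shiftRight (V (nat_lit 44)) (S (nat_lit 26))) (nat_lit 65535))) (Nat.shiftLeft (nat_lit 1) (Nat.land (Nat.shiftRight (V (nat_lit 46)) (S (nat_lit 15))) (nat_lit 65535))))) (Nat.add (Nat.shiftLeft (nat_lit 1) (Nat.land (Nat.shiftRight (V (nat_lit 46)) (S (nat_lit 21))) (nat_lit 65535))) (Nat.add (Nat.shiftLeft (nat_lit 1) (Nat.land (Nat.shiftRight (V (nat_lit 47)) (S (nat_lit 27))) (nat_lit 65535))) (Nat.shiftLeft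 (nat_lit 1) (Nat.land (Nat.shiftRight (V (nat_lit 47)) (S (nat_lit 33))) (nat_lit 65535))))))) (Nat.add (Nat.add (Nat.add (Nat.shiftLeft (nat_lit 1) (Nat.land (Nat.shiftRight (V (nat_lit 52)) (S (nat_lit 18))) (nat_lit 65535))) (Nat.add (Nat.shiftLeft (nat_lit 1) (Nat.land (Nat.shiftRight (V (nat_lit 52)) (S (nat_lit 25))) (nat_lit 65535))) (Nat.shiftLeft (nat_lit 1) (Nat.land (Nat.shiftRight (V (nat_lit 53)) (S (nat_lit 12))) (nat_lit 65535))))) (Nat.add (Nat.shiftLeft (nat_lit 1) (Nat.land (Nat.shiftRight (V (nat_lit 53)) (S (nat_lit 13))) (nat_lit 65535))) (Nat.add (Nat.shiftLeft (nat_lit 1) (Nat.land (Nat.shiftRight (V (nat_lit 55)) (S (nat_lit 13))) (nat_lit 65535))) (Nat.shiftLeft (nat_lit 1) (Nat.land (Nat.shiftRight (V (nat_lit 55)) (S (nat_lit 30))) (nat_lit 65535)))))) (Nat.add (Nat.add (Nat.shiftLeft (nat_lit 1) (Nat.land (Nat.shiftRight (V (nat_lit 56))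 (S (nat_lit 24))) (nat_lit 65535))) (Nat.add (Nat.shiftLeft (nat_lit 1) (Nat.land (Nat.shiftRight (V (nat_lit 56)) (S (nat_lit 25))) (nat_lit 65535))) (Nat.shiftLeft (nat_lit 1) (Nat.land (Nat.shiftRight (V (nat_lit 58)) (S (nat_lit 15))) (nat_lit 65535))))) (Nat.add (Nat.shiftLeft (nat_lit 1) (Nat.land (Nat.shiftRight (V (nat_lit 58)) (S (nat_lit 18))) (nat_lit 65535))) (Nat.add (Nat.shiftLeft (nat_lit 1) (Nat.land (Nat.shiftRight (V (nat_lit 59)) (S (nat_lit 27))) (nat_lit 65535))) (Nat.shiftLeft (nat_lit 1) (Nat.land (Nat.shiftRight (V (nat_lit 59)) (S (nat_lit 30))) (nat_lit 65535))))))))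
def E51_1 (V S : ℕ → ℕ) : ℕ := Nat.add (Nat.add (Nat.add (Nat.add (Nat.shiftLeft (nat_lit 1) (Nat.land (Nat.shiftRight (V (nat_lit 16)) (S (nat_lit 22))) (nat_lit 65535))) (Nat.shiftLeft (nat_lit 1) (Nat.land (Nat.shiftRight (V (nat_lit 17)) (S (nat_lit 19))) (nat_lit 65535)))) (Nat.add (Nat.shiftLeft (nat_lit 1) (Nat.land (Nat.shiftRight (V (nat_lit 19)) (S (nat_lit 17))) (nat_lit 65535))) (Nat.shiftLeft (nat_lit 1) (Nat.land (Nat.shiftRight (V (nat_lit 22)) (S (nat_lit 16))) (nat_lit 65535))))) (Nat.add (Nat.add (Nat.shiftLeft (nat_lit 1) (Nat.land (Nat.shiftRight (V (nat_lit 28)) (S (nat_lit 34))) (nat_lit 65535))) (Nat.shiftLeft (nat_lit 1) (Nat.land (Nat.shiftRight (V (nat_lit 29)) (S (nat_lit 31))) (nat_lit 65535)))) (Nat.add (Nat.shiftLeft (nat_lit 1) (Nat.land (Nat.shiftRight (V (nat_lit 31)) (S (nat_lit 29))) (nat_lit 65535))) (Nat.shiftLeft (nat_lit 1) (Nat.land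 (Nat.shiftRight (V (nat_lit 34)) (S (nat_lit 28))) (nat_lit 65535)))))) (Nat.add (Nat.add (Nat.add (Nat.shiftLeft (nat_lit 1) (Nat.land (Nat.shiftRight (V (nat_lit 36)) (S (nat_lit 37))) (nat_lit 65535))) (Nat.shiftLeft (nat_lit 1) (Nat.land (Nat.shiftRight (V (nat_lit 37)) (S (nat_lit 36))) (nat_lit 65535)))) (Nat.add (Nat.shiftLeft (nat_lit 1) (Nat.land (Nat.shiftRight (V (nat_lit 39)) (S (nat_lit 42))) (nat_lit 65535))) (Nat.shiftLeft (nat_lit 1) (Nat.land (Nat.shiftRight (V (nat_lit 42)) (S (nat_lit 39))) (nat_lit 65535))))) (Nat.add (Nat.add (Nat.shiftLeft (nat_lit 1) (Nat.land (Nat.shiftRight (V (nat_lit 48)) (S (nat_lit 49))) (nat_lit 65535))) (Nat.shiftLeft (nat_lit 1) (Nat.land (Nat.shiftRight (V (nat_lit 49)) (S (nat_lit 48))) (nat_lit 65535)))) (Nat.add (Nat.shiftLeft (nat_lit 1) (Nat.land (Nat.shiftRight (V (nat_lit 51)) (S (nat_lit 54))) (nat_lit 65535)))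 (Nat.shiftLeft (nat_lit 1) (Nat.land (Nat.shiftRight (V (nat_lit 54)) (S (nat_lit 51))) (nat_lit 65535))))))
def E52_1 (V S : ℕ → ℕ) : ℕ := Nat.add (Nat.add (Nat.add (Nat.add (Nat.shiftLeft (nat_lit 1) (Nat.land (Nat.shiftRight (V (nat_lit 16)) (S (nat_lit 34))) (nat_lit 65535))) (Nat.shiftLeft (nat_lit 1) (Nat.land (Nat.shiftRight (V (nat_lit 17)) (S (nat_lit 31))) (nat_lit 65535)))) (Nat.add (Nat.shiftLeft (nat_lit 1) (Nat.land (Nat.shiftRight (V (nat_lit 19)) (S (nat_lit 29))) (nat_lit 65535))) (Nat.shiftLeft (nat_lit 1) (Nat.land (Nat.shiftRight (V (nat_lit 22)) (S (nat_lit 28))) (nat_lit 65535))))) (Nat.add (Nat.add (Nat.shiftLeft (nat_lit 1) (Nat.land (Nat.shiftRight (V (nat_lit 28)) (S (nat_lit 22))) (nat_lit 65535))) (Nat.shiftLeft (nat_lit 1) (Nat.land (Nat.shiftRight (V (nat_lit 29)) (S (nat_lit 19))) (nat_lit 65535)))) (Nat.add (Nat.shiftLeft (nat_lit 1)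 (Nat.land (Nat.shiftRight (V (nat_lit 31)) (S (nat_lit 17))) (nat_lit 65535))) (Nat.shiftLeft (nat_lit 1) (Nat.land (Nat.shiftRight (V (nat_lit 34)) (S (nat_lit 16))) (nat_lit 65535)))))) (Nat.add (Nat.add (Nat.add (Nat.shiftLeft (nat_lit 1) (Nat.land (Nat.shiftRight (V (nat_lit 36)) (S (nat_lit 54))) (nat_lit 65535))) (Nat.shiftLeft (nat_lit 1) (Nat.land (Nat.shiftRight (V (nat_lit 37)) (S (nat_lit 51))) (nat_lit 65535)))) (Nat.add (Nat.shiftLeft (nat_lit 1) (Nat.land (Nat.shiftRight (V (nat_lit 39)) (S (nat_lit 49))) (nat_lit 65535))) (Nat.shiftLeft (nat_lit 1) (Nat.land (Nat.shiftRight (V (nat_lit 42)) (S (nat_lit 48))) (nat_lit 65535))))) (Nat.add (Nat.add (Nat.shiftLeft (nat_lit 1) (Nat.land (Nat.shiftRight (V (nat_lit 48)) (S (nat_lit 42))) (nat_lit 65535))) (Nat.shiftLeft (nat_lit 1) (Nat.land (Nat.shiftRight (V (nat_lit 49)) (S (nat_lit 39))) (nat_lit 65535))))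 (Nat.add (Nat.shiftLeft (nat_lit 1) (Nat.land (Nat.shiftRight (V (nat_lit 51)) (S (nat_lit 37))) (nat_lit 65535))) (Nat.shiftLeft (nat_lit 1) (Nat.land (Nat.shiftRight (V (nat_lit 54)) (S (nat_lit 36))) (nat_lit 65535))))))
def E54_1 (V S : ℕ → ℕ) : ℕ := Nat.add (Nat.add (Nat.add (Nat.add (Nat.shiftLeft (nat_lit 1) (Nat.land (Nat.shiftRight (V (nat_lit 16)) (S (nat_lit 48))) (nat_lit 65535))) (Nat.shiftLeft (nat_lit 1) (Nat.land (Nat.shiftRight (V (nat_lit 17)) (S (nat_lit 36))) (nat_lit 65535)))) (Nat.add (Nat.shiftLeft (nat_lit 1) (Nat.land (Nat.shiftRight (V (nat_lit 19)) (S (nat_lit 51))) (nat_lit 65535))) (Nat.shiftLeft (nat_lit 1) (Nat.land (Nat.shiftRight (V (nat_lit 22)) (S (nat_lit 39))) (nat_lit 65535))))) (Nat.add (Nat.add (Nat.shiftLeft (nat_lit 1) (Nat.land (Nat.shiftRight (V (nat_lit 28)) (S (nat_lit 49))) (nat_lit 65535))) (Nat.shiftLeft (nat_lit 1)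 (Nat.land (Nat.shiftRight (V (nat_lit 29)) (S (nat_lit 37))) (nat_lit 65535)))) (Nat.add (Nat.shiftLeft (nat_lit 1) (Nat.land (Nat.shiftRight (V (nat_lit 31)) (S (nat_lit 54))) (nat_lit 65535))) (Nat.shiftLeft (nat_lit 1) (Nat.land (Nat.shiftRight (V (nat_lit 34)) (S (nat_lit 42))) (nat_lit 65535)))))) (Nat.add (Nat.add (Nat.add (Nat.shiftLeft (nat_lit 1) (Nat.land (Nat.shiftRight (V (nat_lit 36)) (S (nat_lit 17))) (nat_lit 65535))) (Nat.shiftLeft (nat_lit 1) (Nat.land (Nat.shiftRight (V (nat_lit 37)) (S (nat_lit 29))) (nat_lit 65535)))) (Nat.add (Nat.shiftLeft (nat_lit 1) (Nat.land (Nat.shiftRight (V (nat_lit 39)) (S (nat_lit 22))) (nat_lit 65535))) (Nat.shiftLeft (nat_lit 1) (Nat.land (Nat.shiftRight (V (nat_lit 42)) (S (nat_lit 34))) (nat_lit 65535))))) (Nat.add (Nat.add (Nat.shiftLeft (nat_lit 1) (Nat.land (Nat.shiftRight (V (nat_lit 48)) (S (nat_lit 16))) (nat_lit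 65535))) (Nat.shiftLeft (nat_lit 1) (Nat.land (Nat.shiftRight (V (nat_lit 49)) (S (nat_lit 28))) (nat_lit 65535)))) (Nat.add (Nat.shiftLeft (nat_lit 1) (Nat.land (Nat.shiftRight (V (nat_lit 51)) (S (nat_lit 19))) (nat_lit 65535))) (Nat.shiftLeft (nat_lit 1) (Nat.land (Nat.shiftRight (V (nat_lit 54)) (S (nat_lit 31))) (nat_lit 65535))))))
def E58_1 (V S : ℕ → ℕ) : ℕ := Nat.add (Nat.add (Nat.add (Nat.add (Nat.shiftLeft (nat_lit 1) (Nat.land (Nat.shiftRight (V (nat_lit 20)) (S (nat_lit 38))) (nat_lit 65535))) (Nat.shiftLeft (nat_lit 1) (Nat.land (Nat.shiftRight (V (nat_lit 20)) (S (nat_lit 57))) (nat_lit 65535)))) (Nat.add (Nat.shiftLeft (nat_lit 1) (Nat.land (Nat.shiftRight (V (nat_lit 23)) (S (nat_lit 45))) (nat_lit 65535))) (Nat.shiftLeft (nat_lit 1) (Nat.land (Nat.shiftRight (V (nat_lit 23)) (S (nat_lit 50))) (nat_lit 65535))))) (Nat.add (Nat.add (Nat.shiftLeft (nat_lit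 1) (Nat.land (Nat.shiftRight (V (nat_lit 32)) (S (nat_lit 38))) (nat_lit 65535))) (Nat.shiftLeft (nat_lit 1) (Nat.land (Nat.shiftRight (V (nat_lit 32)) (S (nat_lit 57))) (nat_lit 65535)))) (Nat.add (Nat.shiftLeft (nat_lit 1) (Nat.land (Nat.shiftRight (V (nat_lit 35)) (S (nat_lit 45))) (nat_lit 65535))) (Nat.shiftLeft (nat_lit 1) (Nat.land (Nat.shiftRight (V (nat_lit 35)) (S (nat_lit 50))) (nat_lit 65535)))))) (Nat.add (Nat.add (Nat.add (Nat.shiftLeft (nat_lit 1) (Nat.land (Nat.shiftRight (V (nat_lit 38)) (S (nat_lit 20))) (nat_lit 65535))) (Nat.shiftLeft (nat_lit 1) (Nat.land (Nat.shiftRight (V (nat_lit 38)) (S (nat_lit 32))) (nat_lit 65535)))) (Nat.add (Nat.shiftLeft (nat_lit 1) (Nat.land (Nat.shiftRight (V (nat_lit 45)) (S (nat_lit 23))) (nat_lit 65535))) (Nat.shiftLeft (nat_lit 1) (Nat.land (Nat.shiftRight (V (nat_lit 45)) (S (nat_lit 35))) (nat_lit 65535)))))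 (Nat.add (Nat.add (Nat.shiftLeft (nat_lit 1) (Nat.land (Nat.shiftRight (V (nat_lit 50)) (S (nat_lit 23))) (nat_lit 65535))) (Nat.shiftLeft (nat_lit 1) (Nat.land (Nat.shiftRight (V (nat_lit 50)) (S (nat_lit 35))) (nat_lit 65535)))) (Nat.add (Nat.shiftLeft (nat_lit 1) (Nat.land (Nat.shiftRight (V (nat_lit 57)) (S (nat_lit 20))) (nat_lit 65535))) (Nat.shiftLeft (nat_lit 1) (Nat.land (Nat.shiftRight (V (nat_lit 57)) (S (nat_lit 32))) (nat_lit 65535))))))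
def E59_1 (V S : ℕ → ℕ) : ℕ := Nat.add (Nat.add (Nat.add (Nat.add (Nat.add (Nat.shiftLeft (nat_lit 1) (Nat.land (Nat.shiftRight (V (nat_lit 16)) (S (nat_lit 19))) (nat_lit 65535))) (Nat.shiftLeft (nat_lit 1) (Nat.land (Nat.shiftRight (V (nat_lit 16)) (S (nat_lit 29))) (nat_lit 65535)))) (Nat.add (Nat.shiftLeft (nat_lit 1) (Nat.land (Nat.shiftRight (V (nat_lit 17)) (S (nat_lit 22))) (nat_lit 65535))) (Nat.shiftLeft (nat_lit 1) (Nat.land (Nat.shiftRight (V (nat_lit 17)) (S (nat_lit 28))) (nat_lit 65535))))) (Nat.add (Nat.add (Nat.shiftLeft (nat_lit 1) (Nat.land (Nat.shiftRight (V (nat_lit 19)) (S (nat_lit 16))) (nat_lit 65535))) (Nat.shiftLeft (nat_lit 1) (Nat.land (Nat.shiftRight (V (nat_lit 19)) (S (nat_lit 34))) (nat_lit 65535)))) (Nat.add (Nat.shiftLeft (nat_lit 1) (Nat.land (Nat.shiftRight (V (nat_lit 22)) (S (nat_lit 17))) (nat_lit 65535))) (Nat.shiftLeft (nat_lit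 1) (Nat.land (Nat.shiftRight (V (nat_lit 22)) (S (nat_lit 31))) (nat_lit 65535)))))) (Nat.add (Nat.add (Nat.add (Nat.shiftLeft (nat_lit 1) (Nat.land (Nat.shiftRight (V (nat_lit 28)) (S (nat_lit 17))) (nat_lit 65535))) (Nat.shiftLeft (nat_lit 1) (Nat.land (Nat.shiftRight (V (nat_lit 28)) (S (nat_lit 31))) (nat_lit 65535)))) (Nat.add (Nat.shiftLeft (nat_lit 1) (Nat.land (Nat.shiftRight (V (nat_lit 29)) (S (nat_lit 16))) (nat_lit 65535))) (Nat.shiftLeft (nat_lit 1) (Nat.land (Nat.shiftRight (V (nat_lit 29)) (S (nat_lit 34))) (nat_lit 65535))))) (Nat.add (Nat.add (Nat.shiftLeft (nat_lit 1) (Nat.land (Nat.shiftRight (V (nat_lit 31)) (S (nat_lit 22))) (nat_lit 65535))) (Nat.shiftLeft (nat_lit 1) (Nat.land (Nat.shiftRight (V (nat_lit 31)) (S (nat_lit 28))) (nat_lit 65535)))) (Nat.add (Nat.shiftLeft (nat_lit 1) (Nat.land (Nat.shiftRight (V (nat_lit 34)) (S (nat_lit 19)))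 (nat_lit 65535))) (Nat.shiftLeft (nat_lit 1) (Nat.land (Nat.shiftRight (V (nat_lit 34)) (S (nat_lit 29))) (nat_lit 65535))))))) (Nat.add (Nat.add (Nat.add (Nat.add (Nat.shiftLeft (nat_lit 1) (Nat.land (Nat.shiftRight (V (nat_lit 36)) (S (nat_lit 39))) (nat_lit 65535))) (Nat.shiftLeft (nat_lit 1) (Nat.land (Nat.shiftRight (V (nat_lit 36)) (S (nat_lit 49))) (nat_lit 65535)))) (Nat.add (Nat.shiftLeft (nat_lit 1) (Nat.land (Nat.shiftRight (V (nat_lit 37)) (S (nat_lit 42))) (nat_lit 65535))) (Nat.shiftLeft (nat_lit 1) (Nat.land (Nat.shiftRight (V (nat_lit 37)) (S (nat_lit 48))) (nat_lit 65535))))) (Nat.add (Nat.add (Nat.shiftLeft (nat_lit 1) (Nat.land (Nat.shiftRight (V (nat_lit 39)) (S (nat_lit 36))) (nat_lit 65535))) (Nat.shiftLeft (nat_lit 1) (Nat.land (Nat.shiftRight (V (nat_lit 39)) (S (nat_lit 54))) (nat_lit 65535)))) (Nat.add (Nat.shiftLeft (nat_lit 1) (Nat.land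 (Nat.shiftRight (V (nat_lit 42)) (S (nat_lit 37))) (nat_lit 65535))) (Nat.shiftLeft (nat_lit 1) (Nat.land (Nat.shiftRight (V (nat_lit 42)) (S (nat_lit 51))) (nat_lit 65535)))))) (Nat.add (Nat.add (Nat.add (Nat.shiftLeft (nat_lit 1) (Nat.land (Nat.shiftRight (V (nat_lit 48)) (S (nat_lit 37))) (nat_lit 65535))) (Nat.shiftLeft (nat_lit 1) (Nat.land (Nat.shiftRight (V (nat_lit 48)) (S (nat_lit 51))) (nat_lit 65535)))) (Nat.add (Nat.shiftLeft (nat_lit 1) (Nat.land (Nat.shiftRight (V (nat_lit 49)) (S (nat_lit 36))) (nat_lit 65535))) (Nat.shiftLeft (nat_lit 1) (Nat.land (Nat.shiftRight (V (nat_lit 49)) (S (nat_lit 54))) (nat_lit 65535))))) (Nat.add (Nat.add (Nat.shiftLeft (nat_lit 1) (Nat.land (Nat.shiftRight (V (nat_lit 51)) (S (nat_lit 42))) (nat_lit 65535))) (Nat.shiftLeft (nat_lit 1) (Nat.land (Nat.shiftRight (V (nat_lit 51)) (S (nat_lit 48))) (nat_lit 65535)))) (Nat.add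 (Nat.shiftLeft (nat_lit 1) (Nat.land (Nat.shiftRight (V (nat_lit 54)) (S (nat_lit 39))) (nat_lit 65535))) (Nat.shiftLeft (nat_lit 1) (Nat.land (Nat.shiftRight (V (nat_lit 54)) (S (nat_lit 49))) (nat_lit 65535)))))))
def E60_1 (V S : ℕ → ℕ) : ℕ := Nat.add (Nat.add (Nat.add (Nat.add (Nat.add (Nat.shiftLeft (nat_lit 1) (Nat.land (Nat.shiftRight (V (nat_lit 16)) (S (nat_lit 37))) (nat_lit 65535))) (Nat.shiftLeft (nat_lit 1) (Nat.land (Nat.shiftRight (V (nat_lit 16)) (S (nat_lit 51))) (nat_lit 65535)))) (Nat.add (Nat.shiftLeft (nat_lit 1) (Nat.land (Nat.shiftRight (V (nat_lit 17)) (S (nat_lit 39))) (nat_lit 65535))) (Nat.shiftLeft (nat_lit 1) (Nat.land (Nat.shiftRight (V (nat_lit 17)) (S (nat_lit 49))) (nat_lit 65535))))) (Nat.add (Nat.add (Nat.shiftLeft (nat_lit 1) (Nat.land (Nat.shiftRight (V (nat_lit 19)) (S (nat_lit 42))) (nat_lit 65535))) (Nat.shiftLeft (nat_lit 1)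 (Nat.land (Nat.shiftRight (V (nat_lit 19)) (S (nat_lit 48))) (nat_lit 65535)))) (Nat.add (Nat.shiftLeft (nat_lit 1) (Nat.land (Nat.shiftRight (V (nat_lit 22)) (S (nat_lit 36))) (nat_lit 65535))) (Nat.shiftLeft (nat_lit 1) (Nat.land (Nat.shiftRight (V (nat_lit 22)) (S (nat_lit 54))) (nat_lit 65535)))))) (Nat.add (Nat.add (Nat.add (Nat.shiftLeft (nat_lit 1) (Nat.land (Nat.shiftRight (V (nat_lit 28)) (S (nat_lit 36))) (nat_lit 65535))) (Nat.shiftLeft (nat_lit 1) (Nat.land (Nat.shiftRight (V (nat_lit 28)) (S (nat_lit 54))) (nat_lit 65535)))) (Nat.add (Nat.shiftLeft (nat_lit 1) (Nat.land (Nat.shiftRight (V (nat_lit 29)) (S (nat_lit 42))) (nat_lit 65535))) (Nat.shiftLeft (nat_lit 1) (Nat.land (Nat.shiftRight (V (nat_lit 29)) (S (nat_lit 48))) (nat_lit 65535))))) (Nat.add (Nat.add (Nat.shiftLeft (nat_lit 1) (Nat.land (Nat.shiftRight (V (nat_lit 31)) (S (nat_lit 39))) (nat_lit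 65535))) (Nat.shiftLeft (nat_lit 1) (Nat.land (Nat.shiftRight (V (nat_lit 31)) (S (nat_lit 49))) (nat_lit 65535)))) (Nat.add (Nat.shiftLeft (nat_lit 1) (Nat.land (Nat.shiftRight (V (nat_lit 34)) (S (nat_lit 37))) (nat_lit 65535))) (Nat.shiftLeft (nat_lit 1) (Nat.land (Nat.shiftRight (V (nat_lit 34)) (S (nat_lit 51))) (nat_lit 65535))))))) (Nat.add (Nat.add (Nat.add (Nat.add (Nat.shiftLeft (nat_lit 1) (Nat.land (Nat.shiftRight (V (nat_lit 36)) (S (nat_lit 22))) (nat_lit 65535))) (Nat.shiftLeft (nat_lit 1) (Nat.land (Nat.shiftRight (V (nat_lit 36)) (S (nat_lit 28))) (nat_lit 65535)))) (Nat.add (Nat.shiftLeft (nat_lit 1) (Nat.land (Nat.shiftRight (V (nat_lit 37)) (S (nat_lit 16))) (nat_lit 65535))) (Nat.shiftLeft (nat_lit 1) (Nat.land (Nat.shiftRight (V (nat_lit 37)) (S (nat_lit 34))) (nat_lit 65535))))) (Nat.add (Nat.add (Nat.shiftLeft (nat_lit 1) (Nat.land (Nat.shiftRight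 (V (nat_lit 39)) (S (nat_lit 17))) (nat_lit 65535))) (Nat.shiftLeft (nat_lit 1) (Nat.land (Nat.shiftRight (V (nat_lit 39)) (S (nat_lit 31))) (nat_lit 65535)))) (Nat.add (Nat.shiftLeft (nat_lit 1) (Nat.land (Nat.shiftRight (V (nat_lit 42)) (S (nat_lit 19))) (nat_lit 65535))) (Nat.shiftLeft (nat_lit 1) (Nat.land (Nat.shiftRight (V (nat_lit 42)) (S (nat_lit 29))) (nat_lit 65535)))))) (Nat.add (Nat.add (Nat.add (Nat.shiftLeft (nat_lit 1) (Nat.land (Nat.shiftRight (V (nat_lit 48)) (S (nat_lit 19))) (nat_lit 65535))) (Nat.shiftLeft (nat_lit 1) (Nat.land (Nat.shiftRight (V (nat_lit 48)) (S (nat_lit 29))) (nat_lit 65535)))) (Nat.add (Nat.shiftLeft (nat_lit 1) (Nat.land (Nat.shiftRight (V (nat_lit 49)) (S (nat_lit 17))) (nat_lit 65535))) (Nat.shiftLeft (nat_lit 1) (Nat.land (Nat.shiftRight (V (nat_lit 49)) (S (nat_lit 31))) (nat_lit 65535))))) (Nat.add (Nat.add (Nat.shiftLeft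 (nat_lit 1) (Nat.land (Nat.shiftRight (V (nat_lit 51)) (S (nat_lit 16))) (nat_lit 65535))) (Nat.shiftLeft (nat_lit 1) (Nat.land (Nat.shiftRight (V (nat_lit 51)) (S (nat_lit 34))) (nat_lit 65535)))) (Nat.add (Nat.shiftLeft (nat_lit 1) (Nat.land (Nat.shiftRight (V (nat_lit 54)) (S (nat_lit 22))) (nat_lit 65535))) (Nat.shiftLeft (nat_lit 1) (Nat.land (Nat.shiftRight (V (nat_lit 54)) (S (nat_lit 28))) (nat_lit 65535)))))))
def E61_1 (V S : ℕ → ℕ) : ℕ := Nat.add (Nat.add (Nat.add (Nat.add (Nat.shiftLeft (nat_lit 1) (Nat.land (Nat.shiftRight (V (nat_lit 16)) (S (nat_lit 28))) (nat_lit 65535))) (Nat.shiftLeft (nat_lit 1) (Nat.land (Nat.shiftRight (V (nat_lit 17)) (S (nat_lit 29))) (nat_lit 65535)))) (Nat.add (Nat.shiftLeft (nat_lit 1) (Nat.land (Nat.shiftRight (V (nat_lit 19)) (S (nat_lit 31))) (nat_lit 65535))) (Nat.shiftLeft (nat_lit 1) (Nat.land (Nat.shiftRight (V (nat_lit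 22)) (S (nat_lit 34))) (nat_lit 65535))))) (Nat.add (Nat.add (Nat.shiftLeft (nat_lit 1) (Nat.land (Nat.shiftRight (V (nat_lit 28)) (S (nat_lit 16))) (nat_lit 65535))) (Nat.shiftLeft (nat_lit 1) (Nat.land (Nat.shiftRight (V (nat_lit 29)) (S (nat_lit 17))) (nat_lit 65535)))) (Nat.add (Nat.shiftLeft (nat_lit 1) (Nat.land (Nat.shiftRight (V (nat_lit 31)) (S (nat_lit 19))) (nat_lit 65535))) (Nat.shiftLeft (nat_lit 1) (Nat.land (Nat.shiftRight (V (nat_lit 34)) (S (nat_lit 22))) (nat_lit 65535)))))) (Nat.add (Nat.add (Nat.add (Nat.shiftLeft (nat_lit 1) (Nat.land (Nat.shiftRight (V (nat_lit 36)) (S (nat_lit 51))) (nat_lit 65535))) (Nat.shiftLeft (nat_lit 1) (Nat.land (Nat.shiftRight (V (nat_lit 37)) (S (nat_lit 54))) (nat_lit 65535)))) (Nat.add (Nat.shiftLeft (nat_lit 1) (Nat.land (Nat.shiftRight (V (nat_lit 39)) (S (nat_lit 48))) (nat_lit 65535))) (Nat.shiftLeft (nat_lit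 1) (Nat.land (Nat.shiftRight (V (nat_lit 42)) (S (nat_lit 49))) (nat_lit 65535))))) (Nat.add (Nat.add (Nat.shiftLeft (nat_lit 1) (Nat.land (Nat.shiftRight (V (nat_lit 48)) (S (nat_lit 39))) (nat_lit 65535))) (Nat.shiftLeft (nat_lit 1) (Nat.land (Nat.shiftRight (V (nat_lit 49)) (S (nat_lit 42))) (nat_lit 65535)))) (Nat.add (Nat.shiftLeft (nat_lit 1) (Nat.land (Nat.shiftRight (V (nat_lit 51)) (S (nat_lit 36))) (nat_lit 65535))) (Nat.shiftLeft (nat_lit 1) (Nat.land (Nat.shiftRight (V (nat_lit 54)) (S (nat_lit 37))) (nat_lit 65535))))))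
def E62_1 (V S : ℕ → ℕ) : ℕ := Nat.add (Nat.add (Nat.add (Nat.add (Nat.add (Nat.add (Nat.shiftLeft (nat_lit 1) (Nat.land (Nat.shiftRight (V (nat_lit 13)) (S (nat_lit 17))) (nat_lit 65535))) (Nat.add (Nat.shiftLeft (nat_lit 1) (Nat.land (Nat.shiftRight (V (nat_lit 13)) (S (nat_lit 21))) (nat_lit 65535))) (Nat.shiftLeft (nat_lit 1) (Nat.land (Nat.shiftRight (V (nat_lit 13)) (S (nat_lit 25))) (nat_lit 65535))))) (Nat.add (Nat.shiftLeft (nat_lit 1) (Nat.land (Nat.shiftRight (V (nat_lit 13)) (S (nat_lit 36))) (nat_lit 65535))) (Nat.add (Nat.shiftLeft (nat_lit 1) (Nat.land (Nat.shiftRight (V (nat_lit 14)) (S (nat_lit 16))) (nat_lit 65535))) (Nat.shiftLeft (nat_lit 1) (Nat.land (Nat.shiftRight (V (nat_lit 14)) (S (nat_lit 18))) (nat_lit 65535)))))) (Nat.add (Nat.add (Nat.shiftLeft (nat_lit 1) (Nat.land (Nat.shiftRight (V (nat_lit 14)) (S (nat_lit 26))) (nat_lit 65535)))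 (Nat.add (Nat.shiftLeft (nat_lit 1) (Nat.land (Nat.shiftRight (V (nat_lit 14)) (S (nat_lit 48))) (nat_lit 65535))) (Nat.shiftLeft (nat_lit 1) (Nat.land (Nat.shiftRight (V (nat_lit 16)) (S (nat_lit 14))) (nat_lit 65535))))) (Nat.add (Nat.shiftLeft (nat_lit 1) (Nat.land (Nat.shiftRight (V (nat_lit 16)) (S (nat_lit 59))) (nat_lit 65535))) (Nat.add (Nat.shiftLeft (nat_lit 1) (Nat.land (Nat.shiftRight (V (nat_lit 17)) (S (nat_lit 13))) (nat_lit 65535))) (Nat.shiftLeft (nat_lit 1) (Nat.land (Nat.shiftRight (V (nat_lit 17)) (S (nat_lit 47))) (nat_lit 65535))))))) (Nat.add (Nat.add (Nat.add (Nat.shiftLeft (nat_lit 1) (Nat.land (Nat.shiftRight (V (nat_lit 18)) (S (nat_lit 14))) (nat_lit 65535))) (Nat.add (Nat.shiftLeft (nat_lit 1) (Nat.land (Nat.shiftRight (V (nat_lit 18)) (S (nat_lit 22))) (nat_lit 65535))) (Nat.shiftLeft (nat_lit 1) (Nat.land (Nat.shiftRight (V (nat_lit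 18)) (S (nat_lit 30))) (nat_lit 65535))))) (Nat.add (Nat.shiftLeft (nat_lit 1) (Nat.land (Nat.shiftRight (V (nat_lit 18)) (S (nat_lit 39))) (nat_lit 65535))) (Nat.add (Nat.shiftLeft (nat_lit 1) (Nat.land (Nat.shiftRight (V (nat_lit 19)) (S (nat_lit 21))) (nat_lit 65535))) (Nat.shiftLeft (nat_lit 1) (Nat.land (Nat.shiftRight (V (nat_lit 19)) (S (nat_lit 56))) (nat_lit 65535)))))) (Nat.add (Nat.add (Nat.shiftLeft (nat_lit 1) (Nat.land (Nat.shiftRight (V (nat_lit 21)) (S (nat_lit 13))) (nat_lit 65535))) (Nat.add (Nat.shiftLeft (nat_lit 1) (Nat.land (Nat.shiftRight (V (nat_lit 21)) (S (nat_lit 19))) (nat_lit 65535))) (Nat.shiftLeft (nat_lit 1) (Nat.land (Nat.shiftRight (V (nat_lit 21)) (S (nat_lit 33))) (nat_lit 65535))))) (Nat.add (Nat.shiftLeft (nat_lit 1) (Nat.land (Nat.shiftRight (V (nat_lit 21)) (S (nat_lit 51))) (nat_lit 65535))) (Nat.add (Nat.shiftLeft (nat_lit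 1) (Nat.land (Nat.shiftRight (V (nat_lit 22)) (S (nat_lit 18))) (nat_lit 65535))) (Nat.shiftLeft (nat_lit 1) (Nat.land (Nat.shiftRight (V (nat_lit 22)) (S (nat_lit 44))) (nat_lit 65535)))))))) (Nat.add (Nat.add (Nat.add (Nat.add (Nat.shiftLeft (nat_lit 1) (Nat.land (Nat.shiftRight (V (nat_lit 25)) (S (nat_lit 13))) (nat_lit 65535))) (Nat.add (Nat.shiftLeft (nat_lit 1) (Nat.land (Nat.shiftRight (V (nat_lit 25)) (S (nat_lit 29))) (nat_lit 65535))) (Nat.shiftLeft (nat_lit 1) (Nat.land (Nat.shiftRight (V (nat_lit 25)) (S (nat_lit 33))) (nat_lit 65535))))) (Nat.add (Nat.shiftLeft (nat_lit 1) (Nat.land (Nat.shiftRight (V (nat_lit 25)) (S (nat_lit 37))) (nat_lit 65535))) (Nat.add (Nat.shiftLeft (nat_lit 1) (Nat.land (Nat.shiftRight (V (nat_lit 26)) (S (nat_lit 14))) (nat_lit 65535))) (Nat.shiftLeft (nat_lit 1) (Nat.land (Nat.shiftRight (V (nat_lit 26)) (S (nat_lit 28)))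 (nat_lit 65535)))))) (Nat.add (Nat.add (Nat.shiftLeft (nat_lit 1) (Nat.land (Nat.shiftRight (V (nat_lit 26)) (S (nat_lit 30))) (nat_lit 65535))) (Nat.add (Nat.shiftLeft (nat_lit 1) (Nat.land (Nat.shiftRight (V (nat_lit 26)) (S (nat_lit 49))) (nat_lit 65535))) (Nat.shiftLeft (nat_lit 1) (Nat.land (Nat.shiftRight (V (nat_lit 28)) (S (nat_lit 26))) (nat_lit 65535))))) (Nat.add (Nat.shiftLeft (nat_lit 1) (Nat.land (Nat.shiftRight (V (nat_lit 28)) (S (nat_lit 58))) (nat_lit 65535))) (Nat.add (Nat.shiftLeft (nat_lit 1) (Nat.land (Nat.shiftRight (V (nat_lit 29)) (S (nat_lit 25))) (nat_lit 65535))) (Nat.shiftLeft (nat_lit 1) (Nat.land (Nat.shiftRight (V (nat_lit 29)) (S (nat_lit 46))) (nat_lit 65535))))))) (Nat.add (Nat.add (Nat.add (Nat.shiftLeft (nat_lit 1) (Nat.land (Nat.shiftRight (V (nat_lit 30)) (S (nat_lit 18))) (nat_lit 65535))) (Nat.add (Nat.shiftLeft (nat_lit 1)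 (Nat.land (Nat.shiftRight (V (nat_lit 30)) (S (nat_lit 26))) (nat_lit 65535))) (Nat.shiftLeft (nat_lit 1) (Nat.land (Nat.shiftRight (V (nat_lit 30)) (S (nat_lit 34))) (nat_lit 65535))))) (Nat.add (Nat.shiftLeft (nat_lit 1) (Nat.land (Nat.shiftRight (V (nat_lit 30)) (S (nat_lit 42))) (nat_lit 65535))) (Nat.add (Nat.shiftLeft (nat_lit 1) (Nat.land (Nat.shiftRight (V (nat_lit 31)) (S (nat_lit 33))) (nat_lit 65535))) (Nat.shiftLeft (nat_lit 1) (Nat.land (Nat.shiftRight (V (nat_lit 31)) (S (nat_lit 53))) (nat_lit 65535)))))) (Nat.add (Nat.add (Nat.shiftLeft (nat_lit 1) (Nat.land (Nat.shiftRight (V (nat_lit 33)) (S (nat_lit 21))) (nat_lit 65535))) (Nat.add (Nat.shiftLeft (nat_lit 1) (Nat.land (Nat.shiftRight (V (nat_lit 33)) (S (nat_lit 25))) (nat_lit 65535))) (Nat.shiftLeft (nat_lit 1) (Nat.land (Nat.shiftRight (V (nat_lit 33)) (S (nat_lit 31))) (nat_lit 65535))))) (Nat.add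 (Nat.shiftLeft (nat_lit 1) (Nat.land (Nat.shiftRight (V (nat_lit 33)) (S (nat_lit 54))) (nat_lit 65535))) (Nat.add (Nat.shiftLeft (nat_lit 1) (Nat.land (Nat.shiftRight (V (nat_lit 34)) (S (nat_lit 30))) (nat_lit 65535))) (Nat.shiftLeft (nat_lit 1) (Nat.land (Nat.shiftRight (V (nat_lit 34)) (S (nat_lit 41))) (nat_lit 65535))))))))) (Nat.add (Nat.add (Nat.add (Nat.add (Nat.add (Nat.shiftLeft (nat_lit 1) (Nat.land (Nat.shiftRight (V (nat_lit 36)) (S (nat_lit 13))) (nat_lit 65535))) (Nat.add (Nat.shiftLeft (nat_lit 1) (Nat.land (Nat.shiftRight (V (nat_lit 36)) (S (nat_lit 47))) (nat_lit 65535))) (Nat.shiftLeft (nat_lit 1) (Nat.land (Nat.shiftRight (V (nat_lit 37)) (S (nat_lit 25))) (nat_lit 65535))))) (Nat.add (Nat.shiftLeft (nat_lit 1) (Nat.land (Nat.shiftRight (V (nat_lit 37)) (S (nat_lit 46))) (nat_lit 65535))) (Nat.add (Nat.shiftLeft (nat_lit 1) (Nat.land (Nat.shiftRight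 (V (nat_lit 39)) (S (nat_lit 18))) (nat_lit 65535))) (Nat.shiftLeft (nat_lit 1) (Nat.land (Nat.shiftRight (V (nat_lit 39)) (S (nat_lit 44))) (nat_lit 65535)))))) (Nat.add (Nat.add (Nat.shiftLeft (nat_lit 1) (Nat.land (Nat.shiftRight (V (nat_lit 41)) (S (nat_lit 34))) (nat_lit 65535))) (Nat.add (Nat.shiftLeft (nat_lit 1) (Nat.land (Nat.shiftRight (V (nat_lit 41)) (S (nat_lit 42))) (nat_lit 65535))) (Nat.shiftLeft (nat_lit 1) (Nat.land (Nat.shiftRight (V (nat_lit 41)) (S (nat_lit 44))) (nat_lit 65535))))) (Nat.add (Nat.shiftLeft (nat_lit 1) (Nat.land (Nat.shiftRight (V (nat_lit 41)) (S (nat_lit 58))) (nat_lit 65535))) (Nat.add (Nat.shiftLeft (nat_lit 1) (Nat.land (Nat.shiftRight (V (nat_lit 42)) (S (nat_lit 30))) (nat_lit 65535))) (Nat.shiftLeft (nat_lit 1) (Nat.land (Nat.shiftRight (V (nat_lit 42)) (S (nat_lit 41))) (nat_lit 65535))))))) (Nat.add (Nat.add (Nat.add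 (Nat.shiftLeft (nat_lit 1) (Nat.land (Nat.shiftRight (V (nat_lit 44)) (S (nat_lit 22))) (nat_lit 65535))) (Nat.add (Nat.shiftLeft (nat_lit 1) (Nat.land (Nat.shiftRight (V (nat_lit 44)) (S (nat_lit 39))) (nat_lit 65535))) (Nat.shiftLeft (nat_lit 1) (Nat.land (Nat.shiftRight (V (nat_lit 44)) (S (nat_lit 41))) (nat_lit 65535))))) (Nat.add (Nat.shiftLeft (nat_lit 1) (Nat.land (Nat.shiftRight (V (nat_lit 44)) (S (nat_lit 59))) (nat_lit 65535))) (Nat.add (Nat.shiftLeft (nat_lit 1) (Nat.land (Nat.shiftRight (V (nat_lit 46)) (S (nat_lit 29))) (nat_lit 65535))) (Nat.shiftLeft (nat_lit 1) (Nat.land (Nat.shiftRight (V (nat_lit 46)) (S (nat_lit 37))) (nat_lit 65535)))))) (Nat.add (Nat.add (Nat.shiftLeft (nat_lit 1) (Nat.land (Nat.shiftRight (V (nat_lit 46)) (S (nat_lit 47))) (nat_lit 65535))) (Nat.add (Nat.shiftLeft (nat_lit 1) (Nat.land (Nat.shiftRight (V (nat_lit 46)) (S (nat_lit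 53))) (nat_lit 65535))) (Nat.shiftLeft (nat_lit 1) (Nat.land (Nat.shiftRight (V (nat_lit 47)) (S (nat_lit 17))) (nat_lit 65535))))) (Nat.add (Nat.shiftLeft (nat_lit 1) (Nat.land (Nat.shiftRight (V (nat_lit 47)) (S (nat_lit 36))) (nat_lit 65535))) (Nat.add (Nat.shiftLeft (nat_lit 1) (Nat.land (Nat.shiftRight (V (nat_lit 47)) (S (nat_lit 46))) (nat_lit 65535))) (Nat.shiftLeft (nat_lit 1) (Nat.land (Nat.shiftRight (V (nat_lit 47)) (S (nat_lit 56))) (nat_lit 65535)))))))) (Nat.add (Nat.add (Nat.add (Nat.add (Nat.shiftLeft (nat_lit 1) (Nat.land (Nat.shiftRight (V (nat_lit 48)) (S (nat_lit 14))) (nat_lit 65535))) (Nat.add (Nat.shiftLeft (nat_lit 1) (Nat.land (Nat.shiftRight (V (nat_lit 48)) (S (nat_lit 59))) (nat_lit 65535))) (Nat.shiftLeft (nat_lit 1) (Nat.land (Nat.shiftRight (V (nat_lit 49)) (S (nat_lit 26))) (nat_lit 65535))))) (Nat.add (Nat.shiftLeft (nat_lit 1) (Nat.land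 (Nat.shiftRight (V (nat_lit 49)) (S (nat_lit 58))) (nat_lit 65535))) (Nat.add (Nat.shiftLeft (nat_lit 1) (Nat.land (Nat.shiftRight (V (nat_lit 51)) (S (nat_lit 21))) (nat_lit 65535))) (Nat.shiftLeft (nat_lit 1) (Nat.land (Nat.shiftRight (V (nat_lit 51)) (S (nat_lit 56))) (nat_lit 65535)))))) (Nat.add (Nat.add (Nat.shiftLeft (nat_lit 1) (Nat.land (Nat.shiftRight (V (nat_lit 53)) (S (nat_lit 31))) (nat_lit 65535))) (Nat.add (Nat.shiftLeft (nat_lit 1) (Nat.land (Nat.shiftRight (V (nat_lit 53)) (S (nat_lit 46))) (nat_lit 65535))) (Nat.shiftLeft (nat_lit 1) (Nat.land (Nat.shiftRight (V (nat_lit 53)) (S (nat_lit 54))) (nat_lit 65535))))) (Nat.add (Nat.shiftLeft (nat_lit 1) (Nat.land (Nat.shiftRight (V (nat_lit 53)) (S (nat_lit 56))) (nat_lit 65535))) (Nat.add (Nat.shiftLeft (nat_lit 1) (Nat.land (Nat.shiftRight (V (nat_lit 54)) (S (nat_lit 33))) (nat_lit 65535))) (Nat.shiftLeft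 (nat_lit 1) (Nat.land (Nat.shiftRight (V (nat_lit 54)) (S (nat_lit 53))) (nat_lit 65535))))))) (Nat.add (Nat.add (Nat.add (Nat.shiftLeft (nat_lit 1) (Nat.land (Nat.shiftRight (V (nat_lit 56)) (S (nat_lit 19))) (nat_lit 65535))) (Nat.add (Nat.shiftLeft (nat_lit 1) (Nat.land (Nat.shiftRight (V (nat_lit 56)) (S (nat_lit 47))) (nat_lit 65535))) (Nat.shiftLeft (nat_lit 1) (Nat.land (Nat.shiftRight (V (nat_lit 56)) (S (nat_lit 51))) (nat_lit 65535))))) (Nat.add (Nat.shiftLeft (nat_lit 1) (Nat.land (Nat.shiftRight (V (nat_lit 56)) (S (nat_lit 53))) (nat_lit 65535))) (Nat.add (Nat.shiftLeft (nat_lit 1) (Nat.land (Nat.shiftRight (V (nat_lit 58)) (S (nat_lit 28))) (nat_lit 65535))) (Nat.shiftLeft (nat_lit 1) (Nat.land (Nat.shiftRight (V (nat_lit 58)) (S (nat_lit 41))) (nat_lit 65535)))))) (Nat.add (Nat.add (Nat.shiftLeft (nat_lit 1) (Nat.land (Nat.shiftRight (V (nat_lit 58))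 (S (nat_lit 49))) (nat_lit 65535))) (Nat.add (Nat.shiftLeft (nat_lit 1) (Nat.land (Nat.shiftRight (V (nat_lit 58)) (S (nat_lit 59))) (nat_lit 65535))) (Nat.shiftLeft (nat_lit 1) (Nat.land (Nat.shiftRight (V (nat_lit 59)) (S (nat_lit 16))) (nat_lit 65535))))) (Nat.add (Nat.shiftLeft (nat_lit 1) (Nat.land (Nat.shiftRight (V (nat_lit 59)) (S (nat_lit 44))) (nat_lit 65535))) (Nat.add (Nat.shiftLeft (nat_lit 1) (Nat.land (Nat.shiftRight (V (nat_lit 59)) (S (nat_lit 48))) (nat_lit 65535))) (Nat.shiftLeft (nat_lit 1) (Nat.land (Nat.shiftRight (V (nat_lit 59)) (S (nat_lit 58))) (nat_lit 65535)))))))))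
def E63_1 (V S : ℕ → ℕ) : ℕ := Nat.add (Nat.add (Nat.add (Nat.add (Nat.add (Nat.shiftLeft (nat_lit 1) (Nat.land (Nat.shiftRight (V (nat_lit 8)) (S (nat_lit 16))) (nat_lit 65535))) (Nat.add (Nat.shiftLeft (nat_lit 1) (Nat.land (Nat.shiftRight (V (nat_lit 8)) (S (nat_lit 20))) (nat_lit 65535))) (Nat.shiftLeft (nat_lit 1) (Nat.land (Nat.shiftRight (V (nat_lit 8)) (S (nat_lit 22))) (nat_lit 65535))))) (Nat.add (Nat.shiftLeft (nat_lit 1) (Nat.land (Nat.shiftRight (V (nat_lit 8)) (S (nat_lit 28))) (nat_lit 65535))) (Nat.add (Nat.shiftLeft (nat_lit 1) (Nat.land (Nat.shiftRight (V (nat_lit 8)) (S (nat_lit 32))) (nat_lit 65535))) (Nat.shiftLeft (nat_lit 1) (Nat.land (Nat.shiftRight (V (nat_lit 8)) (S (nat_lit 34))) (nat_lit 65535)))))) (Nat.add (Nat.add (Nat.shiftLeft (nat_lit 1) (Nat.land (Nat.shiftRight (V (nat_lit 8)) (S (nat_lit 39))) (nat_lit 65535))) (Nat.add (Nat.shiftLeft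 (nat_lit 1) (Nat.land (Nat.shiftRight (V (nat_lit 8)) (S (nat_lit 42))) (nat_lit 65535))) (Nat.shiftLeft (nat_lit 1) (Nat.land (Nat.shiftRight (V (nat_lit 8)) (S (nat_lit 45))) (nat_lit 65535))))) (Nat.add (Nat.shiftLeft (nat_lit 1) (Nat.land (Nat.shiftRight (V (nat_lit 8)) (S (nat_lit 48))) (nat_lit 65535))) (Nat.add (Nat.shiftLeft (nat_lit 1) (Nat.land (Nat.shiftRight (V (nat_lit 8)) (S (nat_lit 49))) (nat_lit 65535))) (Nat.shiftLeft (nat_lit 1) (Nat.land (Nat.shiftRight (V (nat_lit 8)) (S (nat_lit 50))) (nat_lit 65535))))))) (Nat.add (Nat.add (Nat.add (Nat.shiftLeft (nat_lit 1) (Nat.land (Nat.shiftRight (V (nat_lit 11)) (S (nat_lit 17))) (nat_lit 65535))) (Nat.add (Nat.shiftLeft (nat_lit 1) (Nat.land (Nat.shiftRight (V (nat_lit 11)) (S (nat_lit 19))) (nat_lit 65535))) (Nat.shiftLeft (nat_lit 1) (Nat.land (Nat.shiftRight (V (nat_lit 11)) (S (nat_lit 23))) (nat_lit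 65535))))) (Nat.add (Nat.shiftLeft (nat_lit 1) (Nat.land (Nat.shiftRight (V (nat_lit 11)) (S (nat_lit 29))) (nat_lit 65535))) (Nat.add (Nat.shiftLeft (nat_lit 1) (Nat.land (Nat.shiftRight (V (nat_lit 11)) (S (nat_lit 31))) (nat_lit 65535))) (Nat.shiftLeft (nat_lit 1) (Nat.land (Nat.shiftRight (V (nat_lit 11)) (S (nat_lit 35))) (nat_lit 65535)))))) (Nat.add (Nat.add (Nat.shiftLeft (nat_lit 1) (Nat.land (Nat.shiftRight (V (nat_lit 11)) (S (nat_lit 36))) (nat_lit 65535))) (Nat.add (Nat.shiftLeft (nat_lit 1) (Nat.land (Nat.shiftRight (V (nat_lit 11)) (S (nat_lit 37))) (nat_lit 65535))) (Nat.shiftLeft (nat_lit 1) (Nat.land (Nat.shiftRight (V (nat_lit 11)) (S (nat_lit 38))) (nat_lit 65535))))) (Nat.add (Nat.shiftLeft (nat_lit 1) (Nat.land (Nat.shiftRight (V (nat_lit 11)) (S (nat_lit 51))) (nat_lit 65535))) (Nat.add (Nat.shiftLeft (nat_lit 1) (Nat.land (Nat.shiftRight (V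 (nat_lit 11)) (S (nat_lit 54))) (nat_lit 65535))) (Nat.shiftLeft (nat_lit 1) (Nat.land (Nat.shiftRight (V (nat_lit 11)) (S (nat_lit 57))) (nat_lit 65535)))))))) (Nat.add (Nat.add (Nat.add (Nat.add (Nat.shiftLeft (nat_lit 1) (Nat.land (Nat.shiftRight (V (nat_lit 16)) (S (nat_lit 8))) (nat_lit 65535))) (Nat.add (Nat.shiftLeft (nat_lit 1) (Nat.land (Nat.shiftRight (V (nat_lit 17)) (S (nat_lit 11))) (nat_lit 65535))) (Nat.shiftLeft (nat_lit 1) (Nat.land (Nat.shiftRight (V (nat_lit 19)) (S (nat_lit 11))) (nat_lit 65535))))) (Nat.add (Nat.shiftLeft (nat_lit 1) (Nat.land (Nat.shiftRight (V (nat_lit 20)) (S (nat_lit 8))) (nat_lit 65535))) (Nat.add (Nat.shiftLeft (nat_lit 1) (Nat.land (Nat.shiftRight (V (nat_lit 22)) (S (nat_lit 8))) (nat_lit 65535))) (Nat.shiftLeft (nat_lit 1) (Nat.land (Nat.shiftRight (V (nat_lit 23)) (S (nat_lit 11))) (nat_lit 65535)))))) (Nat.add (Nat.add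 (Nat.shiftLeft (nat_lit 1) (Nat.land (Nat.shiftRight (V (nat_lit 28)) (S (nat_lit 8))) (nat_lit 65535))) (Nat.add (Nat.shiftLeft (nat_lit 1) (Nat.land (Nat.shiftRight (V (nat_lit 29)) (S (nat_lit 11))) (nat_lit 65535))) (Nat.shiftLeft (nat_lit 1) (Nat.land (Nat.shiftRight (V (nat_lit 31)) (S (nat_lit 11))) (nat_lit 65535))))) (Nat.add (Nat.shiftLeft (nat_lit 1) (Nat.land (Nat.shiftRight (V (nat_lit 32)) (S (nat_lit 8))) (nat_lit 65535))) (Nat.add (Nat.shiftLeft (nat_lit 1) (Nat.land (Nat.shiftRight (V (nat_lit 34)) (S (nat_lit 8))) (nat_lit 65535))) (Nat.shiftLeft (nat_lit 1) (Nat.land (Nat.shiftRight (V (nat_lit 35)) (S (nat_lit 11))) (nat_lit 65535))))))) (Nat.add (Nat.add (Nat.add (Nat.shiftLeft (nat_lit 1) (Nat.land (Nat.shiftRight (V (nat_lit 36)) (S (nat_lit 11))) (nat_lit 65535))) (Nat.add (Nat.shiftLeft (nat_lit 1) (Nat.land (Nat.shiftRight (V (nat_lit 37))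 (S (nat_lit 11))) (nat_lit 65535))) (Nat.shiftLeft (nat_lit 1) (Nat.land (Nat.shiftRight (V (nat_lit 38)) (S (nat_lit 11))) (nat_lit 65535))))) (Nat.add (Nat.shiftLeft (nat_lit 1) (Nat.land (Nat.shiftRight (V (nat_lit 39)) (S (nat_lit 8))) (nat_lit 65535))) (Nat.add (Nat.shiftLeft (nat_lit 1) (Nat.land (Nat.shiftRight (V (nat_lit 42)) (S (nat_lit 8))) (nat_lit 65535))) (Nat.shiftLeft (nat_lit 1) (Nat.land (Nat.shiftRight (V (nat_lit 45)) (S (nat_lit 8))) (nat_lit 65535)))))) (Nat.add (Nat.add (Nat.shiftLeft (nat_lit 1) (Nat.land (Nat.shiftRight (V (nat_lit 48)) (S (nat_lit 8))) (nat_lit 65535))) (Nat.add (Nat.shiftLeft (nat_lit 1) (Nat.land (Nat.shiftRight (V (nat_lit 49)) (S (nat_lit 8))) (nat_lit 65535))) (Nat.shiftLeft (nat_lit 1) (Nat.land (Nat.shiftRight (V (nat_lit 50)) (S (nat_lit 8))) (nat_lit 65535))))) (Nat.add (Nat.shiftLeft (nat_lit 1) (Nat.land (Nat.shiftRight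 (V (nat_lit 51)) (S (nat_lit 11))) (nat_lit 65535))) (Nat.add (Nat.shiftLeft (nat_lit 1) (Nat.land (Nat.shiftRight (V (nat_lit 54)) (S (nat_lit 11))) (nat_lit 65535))) (Nat.shiftLeft (nat_lit 1) (Nat.land (Nat.shiftRight (V (nat_lit 57)) (S (nat_lit 11))) (nat_lit 65535))))))))
def E64_1 (V S : ℕ → ℕ) : ℕ := Nat.add (Nat.add (Nat.add (Nat.add (Nat.add (Nat.shiftLeft (nat_lit 1) (Nat.land (Nat.shiftRight (V (nat_lit 16)) (S (nat_lit 50))) (nat_lit 65535))) (Nat.shiftLeft (nat_lit 1) (Nat.land (Nat.shiftRight (V (nat_lit 17)) (S (nat_lit 38))) (nat_lit 65535)))) (Nat.add (Nat.shiftLeft (nat_lit 1) (Nat.land (Nat.shiftRight (V (nat_lit 19)) (S (nat_lit 57))) (nat_lit 65535))) (Nat.shiftLeft (nat_lit 1) (Nat.land (Nat.shiftRight (V (nat_lit 20)) (S (nat_lit 39))) (nat_lit 65535))))) (Nat.add (Nat.add (Nat.shiftLeft (nat_lit 1) (Nat.land (Nat.shiftRight (V (nat_lit 20))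 (S (nat_lit 48))) (nat_lit 65535))) (Nat.shiftLeft (nat_lit 1) (Nat.land (Nat.shiftRight (V (nat_lit 22)) (S (nat_lit 45))) (nat_lit 65535)))) (Nat.add (Nat.shiftLeft (nat_lit 1) (Nat.land (Nat.shiftRight (V (nat_lit 23)) (S (nat_lit 36))) (nat_lit 65535))) (Nat.shiftLeft (nat_lit 1) (Nat.land (Nat.shiftRight (V (nat_lit 23)) (S (nat_lit 51))) (nat_lit 65535)))))) (Nat.add (Nat.add (Nat.add (Nat.shiftLeft (nat_lit 1) (Nat.land (Nat.shiftRight (V (nat_lit 28)) (S (nat_lit 50))) (nat_lit 65535))) (Nat.shiftLeft (nat_lit 1) (Nat.land (Nat.shiftRight (V (nat_lit 29)) (S (nat_lit 38))) (nat_lit 65535)))) (Nat.add (Nat.shiftLeft (nat_lit 1) (Nat.land (Nat.shiftRight (V (nat_lit 31)) (S (nat_lit 57))) (nat_lit 65535))) (Nat.shiftLeft (nat_lit 1) (Nat.land (Nat.shiftRight (V (nat_lit 32)) (S (nat_lit 42))) (nat_lit 65535))))) (Nat.add (Nat.add (Nat.shiftLeft (nat_lit 1) (Nat.land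 (Nat.shiftRight (V (nat_lit 32)) (S (nat_lit 49))) (nat_lit 65535))) (Nat.shiftLeft (nat_lit 1) (Nat.land (Nat.shiftRight (V (nat_lit 34)) (S (nat_lit 45))) (nat_lit 65535)))) (Nat.add (Nat.shiftLeft (nat_lit 1) (Nat.land (Nat.shiftRight (V (nat_lit 35)) (S (nat_lit 37))) (nat_lit 65535))) (Nat.shiftLeft (nat_lit 1) (Nat.land (Nat.shiftRight (V (nat_lit 35)) (S (nat_lit 54))) (nat_lit 65535))))))) (Nat.add (Nat.add (Nat.add (Nat.add (Nat.shiftLeft (nat_lit 1) (Nat.land (Nat.shiftRight (V (nat_lit 36)) (S (nat_lit 23))) (nat_lit 65535))) (Nat.shiftLeft (nat_lit 1) (Nat.land (Nat.shiftRight (V (nat_lit 37)) (S (nat_lit 35))) (nat_lit 65535)))) (Nat.add (Nat.shiftLeft (nat_lit 1) (Nat.land (Nat.shiftRight (V (nat_lit 38)) (S (nat_lit 17))) (nat_lit 65535))) (Nat.shiftLeft (nat_lit 1) (Nat.land (Nat.shiftRight (V (nat_lit 38)) (S (nat_lit 29))) (nat_lit 65535))))) (Nat.add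 (Nat.add (Nat.shiftLeft (nat_lit 1) (Nat.land (Nat.shiftRight (V (nat_lit 39)) (S (nat_lit 20))) (nat_lit 65535))) (Nat.shiftLeft (nat_lit 1) (Nat.land (Nat.shiftRight (V (nat_lit 42)) (S (nat_lit 32))) (nat_lit 65535)))) (Nat.add (Nat.shiftLeft (nat_lit 1) (Nat.land (Nat.shiftRight (V (nat_lit 45)) (S (nat_lit 22))) (nat_lit 65535))) (Nat.shiftLeft (nat_lit 1) (Nat.land (Nat.shiftRight (V (nat_lit 45)) (S (nat_lit 34))) (nat_lit 65535)))))) (Nat.add (Nat.add (Nat.add (Nat.shiftLeft (nat_lit 1) (Nat.land (Nat.shiftRight (V (nat_lit 48)) (S (nat_lit 20))) (nat_lit 65535))) (Nat.shiftLeft (nat_lit 1) (Nat.land (Nat.shiftRight (V (nat_lit 49)) (S (nat_lit 32))) (nat_lit 65535)))) (Nat.add (Nat.shiftLeft (nat_lit 1) (Nat.land (Nat.shiftRight (V (nat_lit 50)) (S (nat_lit 16))) (nat_lit 65535))) (Nat.shiftLeft (nat_lit 1) (Nat.land (Nat.shiftRight (V (nat_lit 50)) (S (nat_lit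 28))) (nat_lit 65535))))) (Nat.add (Nat.add (Nat.shiftLeft (nat_lit 1) (Nat.land (Nat.shiftRight (V (nat_lit 51)) (S (nat_lit 23))) (nat_lit 65535))) (Nat.shiftLeft (nat_lit 1) (Nat.land (Nat.shiftRight (V (nat_lit 54)) (S (nat_lit 35))) (nat_lit 65535)))) (Nat.add (Nat.shiftLeft (nat_lit 1) (Nat.land (Nat.shiftRight (V (nat_lit 57)) (S (nat_lit 19))) (nat_lit 65535))) (Nat.shiftLeft (nat_lit 1) (Nat.land (Nat.shiftRight (V (nat_lit 57)) (S (nat_lit 31))) (nat_lit 65535)))))))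
def E65_1 (V S : ℕ → ℕ) : ℕ := Nat.add (Nat.add (Nat.add (Nat.shiftLeft (nat_lit 1) (Nat.land (Nat.shiftRight (V (nat_lit 20)) (S (nat_lit 32))) (nat_lit 65535))) (Nat.shiftLeft (nat_lit 1) (Nat.land (Nat.shiftRight (V (nat_lit 23)) (S (nat_lit 35))) (nat_lit 65535)))) (Nat.add (Nat.shiftLeft (nat_lit 1) (Nat.land (Nat.shiftRight (V (nat_lit 32)) (S (nat_lit 20))) (nat_lit 65535))) (Nat.shiftLeft (nat_lit 1) (Nat.land (Nat.shiftRight (V (nat_lit 35)) (S (nat_lit 23))) (nat_lit 65535))))) (Nat.add (Nat.add (Nat.shiftLeft (nat_lit 1) (Nat.land (Nat.shiftRight (V (nat_lit 38)) (S (nat_lit 57))) (nat_lit 65535))) (Nat.shiftLeft (nat_lit 1) (Nat.land (Nat.shiftRight (V (nat_lit 45)) (S (nat_lit 50))) (nat_lit 65535)))) (Nat.add (Nat.shiftLeft (nat_lit 1) (Nat.land (Nat.shiftRight (V (nat_lit 50)) (S (nat_lit 45))) (nat_lit 65535))) (Nat.shiftLeft (nat_lit 1) (Nat.land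 (Nat.shiftRight (V (nat_lit 57)) (S (nat_lit 38))) (nat_lit 65535)))))
def E67_1 (V S : ℕ → ℕ) : ℕ := Nat.add (Nat.shiftLeft (nat_lit 1) (Nat.land (Nat.shiftRight (V (nat_lit 8)) (S (nat_lit 11))) (nat_lit 65535))) (Nat.shiftLeft (nat_lit 1) (Nat.land (Nat.shiftRight (V (nat_lit 11)) (S (nat_lit 8))) (nat_lit 65535)))
def E68_1 (V S : ℕ → ℕ) : ℕ := Nat.add (Nat.add (Nat.add (Nat.add (Nat.add (Nat.add (Nat.shiftLeft (nat_lit 1) (Nat.land (Nat.shiftRight (V (nat_lit 8)) (S (nat_lit 13))) (nat_lit 65535))) (Nat.shiftLeft (nat_lit 1) (Nat.land (Nat.shiftRight (V (nat_lit 8)) (S (nat_lit 21))) (nat_lit 65535)))) (Nat.add (Nat.shiftLeft (nat_lit 1) (Nat.land (Nat.shiftRight (V (nat_lit 8)) (S (nat_lit 23))) (nat_lit 65535))) (Nat.shiftLeft (nat_lit 1) (Nat.land (Nat.shiftRight (V (nat_lit 8)) (S (nat_lit 25))) (nat_lit 65535))))) (Nat.add (Nat.add (Nat.shiftLeft (nat_lit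 1) (Nat.land (Nat.shiftRight (V (nat_lit 8)) (S (nat_lit 33))) (nat_lit 65535))) (Nat.shiftLeft (nat_lit 1) (Nat.land (Nat.shiftRight (V (nat_lit 8)) (S (nat_lit 35))) (nat_lit 65535)))) (Nat.add (Nat.shiftLeft (nat_lit 1) (Nat.land (Nat.shiftRight (V (nat_lit 8)) (S (nat_lit 38))) (nat_lit 65535))) (Nat.shiftLeft (nat_lit 1) (Nat.land (Nat.shiftRight (V (nat_lit 8)) (S (nat_lit 46))) (nat_lit 65535)))))) (Nat.add (Nat.add (Nat.add (Nat.shiftLeft (nat_lit 1) (Nat.land (Nat.shiftRight (V (nat_lit 8)) (S (nat_lit 47))) (nat_lit 65535))) (Nat.shiftLeft (nat_lit 1) (Nat.land (Nat.shiftRight (V (nat_lit 8)) (S (nat_lit 53))) (nat_lit 65535)))) (Nat.add (Nat.shiftLeft (nat_lit 1) (Nat.land (Nat.shiftRight (V (nat_lit 8)) (S (nat_lit 56))) (nat_lit 65535))) (Nat.shiftLeft (nat_lit 1) (Nat.land (Nat.shiftRight (V (nat_lit 8)) (S (nat_lit 57))) (nat_lit 65535))))) (Nat.add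 (Nat.add (Nat.shiftLeft (nat_lit 1) (Nat.land (Nat.shiftRight (V (nat_lit 11)) (S (nat_lit 14))) (nat_lit 65535))) (Nat.shiftLeft (nat_lit 1) (Nat.land (Nat.shiftRight (V (nat_lit 11)) (S (nat_lit 18))) (nat_lit 65535)))) (Nat.add (Nat.shiftLeft (nat_lit 1) (Nat.land (Nat.shiftRight (V (nat_lit 11)) (S (nat_lit 20))) (nat_lit 65535))) (Nat.shiftLeft (nat_lit 1) (Nat.land (Nat.shiftRight (V (nat_lit 11)) (S (nat_lit 26))) (nat_lit 65535))))))) (Nat.add (Nat.add (Nat.add (Nat.add (Nat.shiftLeft (nat_lit 1) (Nat.land (Nat.shiftRight (V (nat_lit 11)) (S (nat_lit 30))) (nat_lit 65535))) (Nat.shiftLeft (nat_lit 1) (Nat.land (Nat.shiftRight (V (nat_lit 11)) (S (nat_lit 32))) (nat_lit 65535)))) (Nat.add (Nat.shiftLeft (nat_lit 1) (Nat.land (Nat.shiftRight (V (nat_lit 11)) (S (nat_lit 41))) (nat_lit 65535))) (Nat.shiftLeft (nat_lit 1) (Nat.land (Nat.shiftRight (V (nat_lit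 11)) (S (nat_lit 44))) (nat_lit 65535))))) (Nat.add (Nat.add (Nat.shiftLeft (nat_lit 1) (Nat.land (Nat.shiftRight (V (nat_lit 11)) (S (nat_lit 45))) (nat_lit 65535))) (Nat.shiftLeft (nat_lit 1) (Nat.land (Nat.shiftRight (V (nat_lit 11)) (S (nat_lit 50))) (nat_lit 65535)))) (Nat.add (Nat.shiftLeft (nat_lit 1) (Nat.land (Nat.shiftRight (V (nat_lit 11)) (S (nat_lit 58))) (nat_lit 65535))) (Nat.shiftLeft (nat_lit 1) (Nat.land (Nat.shiftRight (V (nat_lit 11)) (S (nat_lit 59))) (nat_lit 65535)))))) (Nat.add (Nat.add (Nat.add (Nat.shiftLeft (nat_lit 1) (Nat.land (Nat.shiftRight (V (nat_lit 13)) (S (nat_lit 8))) (nat_lit 65535))) (Nat.shiftLeft (nat_lit 1) (Nat.land (Nat.shiftRight (V (nat_lit 13)) (S (nat_lit 30))) (nat_lit 65535)))) (Nat.add (Nat.shiftLeft (nat_lit 1) (Nat.land (Nat.shiftRight (V (nat_lit 14)) (S (nat_lit 11))) (nat_lit 65535))) (Nat.shiftLeft (nat_lit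 1) (Nat.land (Nat.shiftRight (V (nat_lit 14)) (S (nat_lit 33))) (nat_lit 65535))))) (Nat.add (Nat.add (Nat.shiftLeft (nat_lit 1) (Nat.land (Nat.shiftRight (V (nat_lit 18)) (S (nat_lit 11))) (nat_lit 65535))) (Nat.shiftLeft (nat_lit 1) (Nat.land (Nat.shiftRight (V (nat_lit 18)) (S (nat_lit 25))) (nat_lit 65535)))) (Nat.add (Nat.shiftLeft (nat_lit 1) (Nat.land (Nat.shiftRight (V (nat_lit 20)) (S (nat_lit 11))) (nat_lit 65535))) (Nat.shiftLeft (nat_lit 1) (Nat.land (Nat.shiftRight (V (nat_lit 21)) (S (nat_lit 8))) (nat_lit 65535)))))))) (Nat.add (Nat.add (Nat.add (Nat.add (Nat.add (Nat.shiftLeft (nat_lit 1) (Nat.land (Nat.shiftRight (V (nat_lit 21)) (S (nat_lit 26))) (nat_lit 65535))) (Nat.shiftLeft (nat_lit 1) (Nat.land (Nat.shiftRight (V (nat_lit 23)) (S (nat_lit 8))) (nat_lit 65535)))) (Nat.add (Nat.shiftLeft (nat_lit 1) (Nat.land (Nat.shiftRight (V (nat_lit 25))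 (S (nat_lit 8))) (nat_lit 65535))) (Nat.shiftLeft (nat_lit 1) (Nat.land (Nat.shiftRight (V (nat_lit 25)) (S (nat_lit 18))) (nat_lit 65535))))) (Nat.add (Nat.add (Nat.shiftLeft (nat_lit 1) (Nat.land (Nat.shiftRight (V (nat_lit 26)) (S (nat_lit 11))) (nat_lit 65535))) (Nat.shiftLeft (nat_lit 1) (Nat.land (Nat.shiftRight (V (nat_lit 26)) (S (nat_lit 21))) (nat_lit 65535)))) (Nat.add (Nat.shiftLeft (nat_lit 1) (Nat.land (Nat.shiftRight (V (nat_lit 30)) (S (nat_lit 11))) (nat_lit 65535))) (Nat.shiftLeft (nat_lit 1) (Nat.land (Nat.shiftRight (V (nat_lit 30)) (S (nat_lit 13))) (nat_lit 65535)))))) (Nat.add (Nat.add (Nat.add (Nat.shiftLeft (nat_lit 1) (Nat.land (Nat.shiftRight (V (nat_lit 32)) (S (nat_lit 11))) (nat_lit 65535))) (Nat.shiftLeft (nat_lit 1) (Nat.land (Nat.shiftRight (V (nat_lit 33)) (S (nat_lit 8))) (nat_lit 65535)))) (Nat.add (Nat.shiftLeft (nat_lit 1) (Nat.land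 (Nat.shiftRight (V (nat_lit 33)) (S (nat_lit 14))) (nat_lit 65535))) (Nat.shiftLeft (nat_lit 1) (Nat.land (Nat.shiftRight (V (nat_lit 35)) (S (nat_lit 8))) (nat_lit 65535))))) (Nat.add (Nat.add (Nat.shiftLeft (nat_lit 1) (Nat.land (Nat.shiftRight (V (nat_lit 38)) (S (nat_lit 8))) (nat_lit 65535))) (Nat.shiftLeft (nat_lit 1) (Nat.land (Nat.shiftRight (V (nat_lit 41)) (S (nat_lit 11))) (nat_lit 65535)))) (Nat.add (Nat.shiftLeft (nat_lit 1) (Nat.land (Nat.shiftRight (V (nat_lit 41)) (S (nat_lit 53))) (nat_lit 65535))) (Nat.shiftLeft (nat_lit 1) (Nat.land (Nat.shiftRight (V (nat_lit 44)) (S (nat_lit 11))) (nat_lit 65535))))))) (Nat.add (Nat.add (Nat.add (Nat.add (Nat.shiftLeft (nat_lit 1) (Nat.land (Nat.shiftRight (V (nat_lit 44)) (S (nat_lit 56))) (nat_lit 65535))) (Nat.shiftLeft (nat_lit 1) (Nat.land (Nat.shiftRight (V (nat_lit 45)) (S (nat_lit 11))) (nat_lit 65535))))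 (Nat.add (Nat.shiftLeft (nat_lit 1) (Nat.land (Nat.shiftRight (V (nat_lit 46)) (S (nat_lit 8))) (nat_lit 65535))) (Nat.shiftLeft (nat_lit 1) (Nat.land (Nat.shiftRight (V (nat_lit 46)) (S (nat_lit 58))) (nat_lit 65535))))) (Nat.add (Nat.add (Nat.shiftLeft (nat_lit 1) (Nat.land (Nat.shiftRight (V (nat_lit 47)) (S (nat_lit 8))) (nat_lit 65535))) (Nat.shiftLeft (nat_lit 1) (Nat.land (Nat.shiftRight (V (nat_lit 47)) (S (nat_lit 59))) (nat_lit 65535)))) (Nat.add (Nat.shiftLeft (nat_lit 1) (Nat.land (Nat.shiftRight (V (nat_lit 50)) (S (nat_lit 11))) (nat_lit 65535))) (Nat.shiftLeft (nat_lit 1) (Nat.land (Nat.shiftRight (V (nat_lit 53)) (S (nat_lit 8))) (nat_lit 65535)))))) (Nat.add (Nat.add (Nat.add (Nat.shiftLeft (nat_lit 1) (Nat.land (Nat.shiftRight (V (nat_lit 53)) (S (nat_lit 41))) (nat_lit 65535))) (Nat.shiftLeft (nat_lit 1) (Nat.land (Nat.shiftRight (V (nat_lit 56))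 (S (nat_lit 8))) (nat_lit 65535)))) (Nat.add (Nat.shiftLeft (nat_lit 1) (Nat.land (Nat.shiftRight (V (nat_lit 56)) (S (nat_lit 44))) (nat_lit 65535))) (Nat.shiftLeft (nat_lit 1) (Nat.land (Nat.shiftRight (V (nat_lit 57)) (S (nat_lit 8))) (nat_lit 65535))))) (Nat.add (Nat.add (Nat.shiftLeft (nat_lit 1) (Nat.land (Nat.shiftRight (V (nat_lit 58)) (S (nat_lit 11))) (nat_lit 65535))) (Nat.shiftLeft (nat_lit 1) (Nat.land (Nat.shiftRight (V (nat_lit 58)) (S (nat_lit 46))) (nat_lit 65535)))) (Nat.add (Nat.shiftLeft (nat_lit 1) (Nat.land (Nat.shiftRight (V (nat_lit 59)) (S (nat_lit 11))) (nat_lit 65535))) (Nat.shiftLeft (nat_lit 1) (Nat.land (Nat.shiftRight (V (nat_lit 59)) (S (nat_lit 47))) (nat_lit 65535))))))))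
def E69_1 (V S : ℕ → ℕ) : ℕ := Nat.add (Nat.add (Nat.add (Nat.add (Nat.add (Nat.shiftLeft (nat_lit 1) (Nat.land (Nat.shiftRight (V (nat_lit 13)) (S (nat_lit 18))) (nat_lit 65535))) (Nat.shiftLeft (nat_lit 1) (Nat.land (Nat.shiftRight (V (nat_lit 13)) (S (nat_lit 26))) (nat_lit 65535)))) (Nat.add (Nat.shiftLeft (nat_lit 1) (Nat.land (Nat.shiftRight (V (nat_lit 14)) (S (nat_lit 21))) (nat_lit 65535))) (Nat.shiftLeft (nat_lit 1) (Nat.land (Nat.shiftRight (V (nat_lit 14)) (S (nat_lit 25))) (nat_lit 65535))))) (Nat.add (Nat.add (Nat.shiftLeft (nat_lit 1) (Nat.land (Nat.shiftRight (V (nat_lit 18)) (S (nat_lit 13))) (nat_lit 65535))) (Nat.shiftLeft (nat_lit 1) (Nat.land (Nat.shiftRight (V (nat_lit 18)) (S (nat_lit 33))) (nat_lit 65535)))) (Nat.add (Nat.shiftLeft (nat_lit 1) (Nat.land (Nat.shiftRight (V (nat_lit 21)) (S (nat_lit 14))) (nat_lit 65535))) (Nat.shiftLeft (nat_lit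 1) (Nat.land (Nat.shiftRight (V (nat_lit 21)) (S (nat_lit 30))) (nat_lit 65535)))))) (Nat.add (Nat.add (Nat.add (Nat.shiftLeft (nat_lit 1) (Nat.land (Nat.shiftRight (V (nat_lit 25)) (S (nat_lit 14))) (nat_lit 65535))) (Nat.shiftLeft (nat_lit 1) (Nat.land (Nat.shiftRight (V (nat_lit 25)) (S (nat_lit 30))) (nat_lit 65535)))) (Nat.add (Nat.shiftLeft (nat_lit 1) (Nat.land (Nat.shiftRight (V (nat_lit 26)) (S (nat_lit 13))) (nat_lit 65535))) (Nat.shiftLeft (nat_lit 1) (Nat.land (Nat.shiftRight (V (nat_lit 26)) (S (nat_lit 33))) (nat_lit 65535))))) (Nat.add (Nat.add (Nat.shiftLeft (nat_lit 1) (Nat.land (Nat.shiftRight (V (nat_lit 30)) (S (nat_lit 21))) (nat_lit 65535))) (Nat.shiftLeft (nat_lit 1) (Nat.land (Nat.shiftRight (V (nat_lit 30)) (S (nat_lit 25))) (nat_lit 65535)))) (Nat.add (Nat.shiftLeft (nat_lit 1) (Nat.land (Nat.shiftRight (V (nat_lit 33)) (S (nat_lit 18)))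 (nat_lit 65535))) (Nat.shiftLeft (nat_lit 1) (Nat.land (Nat.shiftRight (V (nat_lit 33)) (S (nat_lit 26))) (nat_lit 65535))))))) (Nat.add (Nat.add (Nat.add (Nat.add (Nat.shiftLeft (nat_lit 1) (Nat.land (Nat.shiftRight (V (nat_lit 41)) (S (nat_lit 46))) (nat_lit 65535))) (Nat.shiftLeft (nat_lit 1) (Nat.land (Nat.shiftRight (V (nat_lit 41)) (S (nat_lit 56))) (nat_lit 65535)))) (Nat.add (Nat.shiftLeft (nat_lit 1) (Nat.land (Nat.shiftRight (V (nat_lit 44)) (S (nat_lit 47))) (nat_lit 65535))) (Nat.shiftLeft (nat_lit 1) (Nat.land (Nat.shiftRight (V (nat_lit 44)) (S (nat_lit 53))) (nat_lit 65535))))) (Nat.add (Nat.add (Nat.shiftLeft (nat_lit 1) (Nat.land (Nat.shiftRight (V (nat_lit 46)) (S (nat_lit 41))) (nat_lit 65535))) (Nat.shiftLeft (nat_lit 1) (Nat.land (Nat.shiftRight (V (nat_lit 46)) (S (nat_lit 59))) (nat_lit 65535)))) (Nat.add (Nat.shiftLeft (nat_lit 1) (Nat.land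 (Nat.shiftRight (V (nat_lit 47)) (S (nat_lit 44))) (nat_lit 65535))) (Nat.shiftLeft (nat_lit 1) (Nat.land (Nat.shiftRight (V (nat_lit 47)) (S (nat_lit 58))) (nat_lit 65535)))))) (Nat.add (Nat.add (Nat.add (Nat.shiftLeft (nat_lit 1) (Nat.land (Nat.shiftRight (V (nat_lit 53)) (S (nat_lit 44))) (nat_lit 65535))) (Nat.shiftLeft (nat_lit 1) (Nat.land (Nat.shiftRight (V (nat_lit 53)) (S (nat_lit 58))) (nat_lit 65535)))) (Nat.add (Nat.shiftLeft (nat_lit 1) (Nat.land (Nat.shiftRight (V (nat_lit 56)) (S (nat_lit 41))) (nat_lit 65535))) (Nat.shiftLeft (nat_lit 1) (Nat.land (Nat.shiftRight (V (nat_lit 56)) (S (nat_lit 59))) (nat_lit 65535))))) (Nat.add (Nat.add (Nat.shiftLeft (nat_lit 1) (Nat.land (Nat.shiftRight (V (nat_lit 58)) (S (nat_lit 47))) (nat_lit 65535))) (Nat.shiftLeft (nat_lit 1) (Nat.land (Nat.shiftRight (V (nat_lit 58)) (S (nat_lit 53))) (nat_lit 65535)))) (Nat.add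 (Nat.shiftLeft (nat_lit 1) (Nat.land (Nat.shiftRight (V (nat_lit 59)) (S (nat_lit 46))) (nat_lit 65535))) (Nat.shiftLeft (nat_lit 1) (Nat.land (Nat.shiftRight (V (nat_lit 59)) (S (nat_lit 56))) (nat_lit 65535)))))))
def E70_1 (V S : ℕ → ℕ) : ℕ := Nat.add (Nat.add (Nat.add (Nat.add (Nat.add (Nat.shiftLeft (nat_lit 1) (Nat.land (Nat.shiftRight (V (nat_lit 13)) (S (nat_lit 33))) (nat_lit 65535))) (Nat.add (Nat.shiftLeft (nat_lit 1) (Nat.land (Nat.shiftRight (V (nat_lit 13)) (S (nat_lit 41))) (nat_lit 65535))) (Nat.shiftLeft (nat_lit 1) (Nat.land (Nat.shiftRight (V (nat_lit 13)) (S (nat_lit 59))) (nat_lit 65535))))) (Nat.add (Nat.shiftLeft (nat_lit 1) (Nat.land (Nat.shiftRight (V (nat_lit 14)) (S (nat_lit 30))) (nat_lit 65535))) (Nat.add (Nat.shiftLeft (nat_lit 1) (Nat.land (Nat.shiftRight (V (nat_lit 14)) (S (nat_lit 47))) (nat_lit 65535))) (Nat.shiftLeft (nat_lit 1)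 (Nat.land (Nat.shiftRight (V (nat_lit 14)) (S (nat_lit 53))) (nat_lit 65535)))))) (Nat.add (Nat.add (Nat.shiftLeft (nat_lit 1) (Nat.land (Nat.shiftRight (V (nat_lit 18)) (S (nat_lit 26))) (nat_lit 65535))) (Nat.add (Nat.shiftLeft (nat_lit 1) (Nat.land (Nat.shiftRight (V (nat_lit 18)) (S (nat_lit 46))) (nat_lit 65535))) (Nat.shiftLeft (nat_lit 1) (Nat.land (Nat.shiftRight (V (nat_lit 18)) (S (nat_lit 56))) (nat_lit 65535))))) (Nat.add (Nat.shiftLeft (nat_lit 1) (Nat.land (Nat.shiftRight (V (nat_lit 21)) (S (nat_lit 25))) (nat_lit 65535))) (Nat.add (Nat.shiftLeft (nat_lit 1) (Nat.land (Nat.shiftRight (V (nat_lit 21)) (S (nat_lit 44))) (nat_lit 65535))) (Nat.shiftLeft (nat_lit 1) (Nat.land (Nat.shiftRight (V (nat_lit 21)) (S (nat_lit 58))) (nat_lit 65535))))))) (Nat.add (Nat.add (Nat.add (Nat.shiftLeft (nat_lit 1) (Nat.land (Nat.shiftRight (V (nat_lit 25)) (S (nat_lit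 21))) (nat_lit 65535))) (Nat.add (Nat.shiftLeft (nat_lit 1) (Nat.land (Nat.shiftRight (V (nat_lit 25)) (S (nat_lit 44))) (nat_lit 65535))) (Nat.shiftLeft (nat_lit 1) (Nat.land (Nat.shiftRight (V (nat_lit 25)) (S (nat_lit 58))) (nat_lit 65535))))) (Nat.add (Nat.shiftLeft (nat_lit 1) (Nat.land (Nat.shiftRight (V (nat_lit 26)) (S (nat_lit 18))) (nat_lit 65535))) (Nat.add (Nat.shiftLeft (nat_lit 1) (Nat.land (Nat.shiftRight (V (nat_lit 26)) (S (nat_lit 46))) (nat_lit 65535))) (Nat.shiftLeft (nat_lit 1) (Nat.land (Nat.shiftRight (V (nat_lit 26)) (S (nat_lit 56))) (nat_lit 65535)))))) (Nat.add (Nat.add (Nat.shiftLeft (nat_lit 1) (Nat.land (Nat.shiftRight (V (nat_lit 30)) (S (nat_lit 14))) (nat_lit 65535))) (Nat.add (Nat.shiftLeft (nat_lit 1) (Nat.land (Nat.shiftRight (V (nat_lit 30)) (S (nat_lit 47))) (nat_lit 65535))) (Nat.shiftLeft (nat_lit 1) (Nat.land (Nat.shiftRight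 (V (nat_lit 30)) (S (nat_lit 53))) (nat_lit 65535))))) (Nat.add (Nat.shiftLeft (nat_lit 1) (Nat.land (Nat.shiftRight (V (nat_lit 33)) (S (nat_lit 13))) (nat_lit 65535))) (Nat.add (Nat.shiftLeft (nat_lit 1) (Nat.land (Nat.shiftRight (V (nat_lit 33)) (S (nat_lit 41))) (nat_lit 65535))) (Nat.shiftLeft (nat_lit 1) (Nat.land (Nat.shiftRight (V (nat_lit 33)) (S (nat_lit 59))) (nat_lit 65535)))))))) (Nat.add (Nat.add (Nat.add (Nat.add (Nat.shiftLeft (nat_lit 1) (Nat.land (Nat.shiftRight (V (nat_lit 41)) (S (nat_lit 13))) (nat_lit 65535))) (Nat.add (Nat.shiftLeft (nat_lit 1) (Nat.land (Nat.shiftRight (V (nat_lit 41)) (S (nat_lit 33))) (nat_lit 65535))) (Nat.shiftLeft (nat_lit 1) (Nat.land (Nat.shiftRight (V (nat_lit 41)) (S (nat_lit 59))) (nat_lit 65535))))) (Nat.add (Nat.shiftLeft (nat_lit 1) (Nat.land (Nat.shiftRight (V (nat_lit 44)) (S (nat_lit 21))) (nat_lit 65535)))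 (Nat.add (Nat.shiftLeft (nat_lit 1) (Nat.land (Nat.shiftRight (V (nat_lit 44)) (S (nat_lit 25))) (nat_lit 65535))) (Nat.shiftLeft (nat_lit 1) (Nat.land (Nat.shiftRight (V (nat_lit 44)) (S (nat_lit 58))) (nat_lit 65535)))))) (Nat.add (Nat.add (Nat.shiftLeft (nat_lit 1) (Nat.land (Nat.shiftRight (V (nat_lit 46)) (S (nat_lit 18))) (nat_lit 65535))) (Nat.add (Nat.shiftLeft (nat_lit 1) (Nat.land (Nat.shiftRight (V (nat_lit 46)) (S (nat_lit 26))) (nat_lit 65535))) (Nat.shiftLeft (nat_lit 1) (Nat.land (Nat.shiftRight (V (nat_lit 46)) (S (nat_lit 56))) (nat_lit 65535))))) (Nat.add (Nat.shiftLeft (nat_lit 1) (Nat.land (Nat.shiftRight (V (nat_lit 47)) (S (nat_lit 14))) (nat_lit 65535))) (Nat.add (Nat.shiftLeft (nat_lit 1) (Nat.land (Nat.shiftRight (V (nat_lit 47)) (S (nat_lit 30))) (nat_lit 65535))) (Nat.shiftLeft (nat_lit 1) (Nat.land (Nat.shiftRight (V (nat_lit 47)) (S (nat_lit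 53))) (nat_lit 65535))))))) (Nat.add (Nat.add (Nat.add (Nat.shiftLeft (nat_lit 1) (Nat.land (Nat.shiftRight (V (nat_lit 53)) (S (nat_lit 14))) (nat_lit 65535))) (Nat.add (Nat.shiftLeft (nat_lit 1) (Nat.land (Nat.shiftRight (V (nat_lit 53)) (S (nat_lit 30))) (nat_lit 65535))) (Nat.shiftLeft (nat_lit 1) (Nat.land (Nat.shiftRight (V (nat_lit 53)) (S (nat_lit 47))) (nat_lit 65535))))) (Nat.add (Nat.shiftLeft (nat_lit 1) (Nat.land (Nat.shiftRight (V (nat_lit 56)) (S (nat_lit 18))) (nat_lit 65535))) (Nat.add (Nat.shiftLeft (nat_lit 1) (Nat.land (Nat.shiftRight (V (nat_lit 56)) (S (nat_lit 26))) (nat_lit 65535))) (Nat.shiftLeft (nat_lit 1) (Nat.land (Nat.shiftRight (V (nat_lit 56)) (S (nat_lit 46))) (nat_lit 65535)))))) (Nat.add (Nat.add (Nat.shiftLeft (nat_lit 1) (Nat.land (Nat.shiftRight (V (nat_lit 58)) (S (nat_lit 21))) (nat_lit 65535))) (Nat.add (Nat.shiftLeft (nat_lit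 1) (Nat.land (Nat.shiftRight (V (nat_lit 58)) (S (nat_lit 25))) (nat_lit 65535))) (Nat.shiftLeft (nat_lit 1) (Nat.land (Nat.shiftRight (V (nat_lit 58)) (S (nat_lit 44))) (nat_lit 65535))))) (Nat.add (Nat.shiftLeft (nat_lit 1) (Nat.land (Nat.shiftRight (V (nat_lit 59)) (S (nat_lit 13))) (nat_lit 65535))) (Nat.add (Nat.shiftLeft (nat_lit 1) (Nat.land (Nat.shiftRight (V (nat_lit 59)) (S (nat_lit 33))) (nat_lit 65535))) (Nat.shiftLeft (nat_lit 1) (Nat.land (Nat.shiftRight (V (nat_lit 59)) (S (nat_lit 41))) (nat_lit 65535))))))))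
def E71_1 (V S : ℕ → ℕ) : ℕ := Nat.add (Nat.add (Nat.add (Nat.add (Nat.add (Nat.add (Nat.shiftLeft (nat_lit 1) (Nat.land (Nat.shiftRight (V (nat_lit 13)) (S (nat_lit 35))) (nat_lit 65535))) (Nat.add (Nat.shiftLeft (nat_lit 1) (Nat.land (Nat.shiftRight (V (nat_lit 13)) (S (nat_lit 44))) (nat_lit 65535))) (Nat.shiftLeft (nat_lit 1) (Nat.land (Nat.shiftRight (V (nat_lit 13)) (S (nat_lit 57))) (nat_lit 65535))))) (Nat.add (Nat.shiftLeft (nat_lit 1) (Nat.land (Nat.shiftRight (V (nat_lit 13)) (S (nat_lit 58))) (nat_lit 65535))) (Nat.add (Nat.shiftLeft (nat_lit 1) (Nat.land (Nat.shiftRight (V (nat_lit 14)) (S (nat_lit 32))) (nat_lit 65535))) (Nat.shiftLeft (nat_lit 1) (Nat.land (Nat.shiftRight (V (nat_lit 14)) (S (nat_lit 45))) (nat_lit 65535)))))) (Nat.add (Nat.add (Nat.shiftLeft (nat_lit 1) (Nat.land (Nat.shiftRight (V (nat_lit 14)) (S (nat_lit 46))) (nat_lit 65535)))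 (Nat.add (Nat.shiftLeft (nat_lit 1) (Nat.land (Nat.shiftRight (V (nat_lit 14)) (S (nat_lit 56))) (nat_lit 65535))) (Nat.shiftLeft (nat_lit 1) (Nat.land (Nat.shiftRight (V (nat_lit 18)) (S (nat_lit 32))) (nat_lit 65535))))) (Nat.add (Nat.shiftLeft (nat_lit 1) (Nat.land (Nat.shiftRight (V (nat_lit 18)) (S (nat_lit 47))) (nat_lit 65535))) (Nat.add (Nat.shiftLeft (nat_lit 1) (Nat.land (Nat.shiftRight (V (nat_lit 18)) (S (nat_lit 50))) (nat_lit 65535))) (Nat.shiftLeft (nat_lit 1) (Nat.land (Nat.shiftRight (V (nat_lit 18)) (S (nat_lit 53))) (nat_lit 65535))))))) (Nat.add (Nat.add (Nat.add (Nat.shiftLeft (nat_lit 1) (Nat.land (Nat.shiftRight (V (nat_lit 20)) (S (nat_lit 26))) (nat_lit 65535))) (Nat.add (Nat.shiftLeft (nat_lit 1) (Nat.land (Nat.shiftRight (V (nat_lit 20)) (S (nat_lit 30))) (nat_lit 65535))) (Nat.shiftLeft (nat_lit 1) (Nat.land (Nat.shiftRight (V (nat_lit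 20)) (S (nat_lit 41))) (nat_lit 65535))))) (Nat.add (Nat.shiftLeft (nat_lit 1) (Nat.land (Nat.shiftRight (V (nat_lit 20)) (S (nat_lit 58))) (nat_lit 65535))) (Nat.add (Nat.shiftLeft (nat_lit 1) (Nat.land (Nat.shiftRight (V (nat_lit 21)) (S (nat_lit 35))) (nat_lit 65535))) (Nat.shiftLeft (nat_lit 1) (Nat.land (Nat.shiftRight (V (nat_lit 21)) (S (nat_lit 38))) (nat_lit 65535)))))) (Nat.add (Nat.add (Nat.shiftLeft (nat_lit 1) (Nat.land (Nat.shiftRight (V (nat_lit 21)) (S (nat_lit 41))) (nat_lit 65535))) (Nat.add (Nat.shiftLeft (nat_lit 1) (Nat.land (Nat.shiftRight (V (nat_lit 21)) (S (nat_lit 59))) (nat_lit 65535))) (Nat.shiftLeft (nat_lit 1) (Nat.land (Nat.shiftRight (V (nat_lit 23)) (S (nat_lit 25))) (nat_lit 65535))))) (Nat.add (Nat.shiftLeft (nat_lit 1) (Nat.land (Nat.shiftRight (V (nat_lit 23)) (S (nat_lit 33))) (nat_lit 65535))) (Nat.add (Nat.shiftLeft (nat_lit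 1) (Nat.land (Nat.shiftRight (V (nat_lit 23)) (S (nat_lit 46))) (nat_lit 65535))) (Nat.shiftLeft (nat_lit 1) (Nat.land (Nat.shiftRight (V (nat_lit 23)) (S (nat_lit 53))) (nat_lit 65535)))))))) (Nat.add (Nat.add (Nat.add (Nat.add (Nat.shiftLeft (nat_lit 1) (Nat.land (Nat.shiftRight (V (nat_lit 25)) (S (nat_lit 23))) (nat_lit 65535))) (Nat.add (Nat.shiftLeft (nat_lit 1) (Nat.land (Nat.shiftRight (V (nat_lit 25)) (S (nat_lit 41))) (nat_lit 65535))) (Nat.shiftLeft (nat_lit 1) (Nat.land (Nat.shiftRight (V (nat_lit 25)) (S (nat_lit 57))) (nat_lit 65535))))) (Nat.add (Nat.shiftLeft (nat_lit 1) (Nat.land (Nat.shiftRight (V (nat_lit 25)) (S (nat_lit 59))) (nat_lit 65535))) (Nat.add (Nat.shiftLeft (nat_lit 1) (Nat.land (Nat.shiftRight (V (nat_lit 26)) (S (nat_lit 20))) (nat_lit 65535))) (Nat.shiftLeft (nat_lit 1) (Nat.land (Nat.shiftRight (V (nat_lit 26)) (S (nat_lit 45)))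 (nat_lit 65535)))))) (Nat.add (Nat.add (Nat.shiftLeft (nat_lit 1) (Nat.land (Nat.shiftRight (V (nat_lit 26)) (S (nat_lit 47))) (nat_lit 65535))) (Nat.add (Nat.shiftLeft (nat_lit 1) (Nat.land (Nat.shiftRight (V (nat_lit 26)) (S (nat_lit 53))) (nat_lit 65535))) (Nat.shiftLeft (nat_lit 1) (Nat.land (Nat.shiftRight (V (nat_lit 30)) (S (nat_lit 20))) (nat_lit 65535))))) (Nat.add (Nat.shiftLeft (nat_lit 1) (Nat.land (Nat.shiftRight (V (nat_lit 30)) (S (nat_lit 46))) (nat_lit 65535))) (Nat.add (Nat.shiftLeft (nat_lit 1) (Nat.land (Nat.shiftRight (V (nat_lit 30)) (S (nat_lit 50))) (nat_lit 65535))) (Nat.shiftLeft (nat_lit 1) (Nat.land (Nat.shiftRight (V (nat_lit 30)) (S (nat_lit 56))) (nat_lit 65535))))))) (Nat.add (Nat.add (Nat.add (Nat.shiftLeft (nat_lit 1) (Nat.land (Nat.shiftRight (V (nat_lit 32)) (S (nat_lit 14))) (nat_lit 65535))) (Nat.add (Nat.shiftLeft (nat_lit 1)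 (Nat.land (Nat.shiftRight (V (nat_lit 32)) (S (nat_lit 18))) (nat_lit 65535))) (Nat.shiftLeft (nat_lit 1) (Nat.land (Nat.shiftRight (V (nat_lit 32)) (S (nat_lit 44))) (nat_lit 65535))))) (Nat.add (Nat.shiftLeft (nat_lit 1) (Nat.land (Nat.shiftRight (V (nat_lit 32)) (S (nat_lit 59))) (nat_lit 65535))) (Nat.add (Nat.shiftLeft (nat_lit 1) (Nat.land (Nat.shiftRight (V (nat_lit 33)) (S (nat_lit 23))) (nat_lit 65535))) (Nat.shiftLeft (nat_lit 1) (Nat.land (Nat.shiftRight (V (nat_lit 33)) (S (nat_lit 38))) (nat_lit 65535)))))) (Nat.add (Nat.add (Nat.shiftLeft (nat_lit 1) (Nat.land (Nat.shiftRight (V (nat_lit 33)) (S (nat_lit 44))) (nat_lit 65535))) (Nat.add (Nat.shiftLeft (nat_lit 1) (Nat.land (Nat.shiftRight (V (nat_lit 33)) (S (nat_lit 58))) (nat_lit 65535))) (Nat.shiftLeft (nat_lit 1) (Nat.land (Nat.shiftRight (V (nat_lit 35)) (S (nat_lit 13))) (nat_lit 65535))))) (Nat.add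 (Nat.shiftLeft (nat_lit 1) (Nat.land (Nat.shiftRight (V (nat_lit 35)) (S (nat_lit 21))) (nat_lit 65535))) (Nat.add (Nat.shiftLeft (nat_lit 1) (Nat.land (Nat.shiftRight (V (nat_lit 35)) (S (nat_lit 47))) (nat_lit 65535))) (Nat.shiftLeft (nat_lit 1) (Nat.land (Nat.shiftRight (V (nat_lit 35)) (S (nat_lit 56))) (nat_lit 65535))))))))) (Nat.add (Nat.add (Nat.add (Nat.add (Nat.add (Nat.shiftLeft (nat_lit 1) (Nat.land (Nat.shiftRight (V (nat_lit 38)) (S (nat_lit 21))) (nat_lit 65535))) (Nat.add (Nat.shiftLeft (nat_lit 1) (Nat.land (Nat.shiftRight (V (nat_lit 38)) (S (nat_lit 33))) (nat_lit 65535))) (Nat.shiftLeft (nat_lit 1) (Nat.land (Nat.shiftRight (V (nat_lit 38)) (S (nat_lit 53))) (nat_lit 65535))))) (Nat.add (Nat.shiftLeft (nat_lit 1) (Nat.land (Nat.shiftRight (V (nat_lit 38)) (S (nat_lit 56))) (nat_lit 65535))) (Nat.add (Nat.shiftLeft (nat_lit 1) (Nat.land (Nat.shiftRight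 (V (nat_lit 41)) (S (nat_lit 20))) (nat_lit 65535))) (Nat.shiftLeft (nat_lit 1) (Nat.land (Nat.shiftRight (V (nat_lit 41)) (S (nat_lit 21))) (nat_lit 65535)))))) (Nat.add (Nat.add (Nat.shiftLeft (nat_lit 1) (Nat.land (Nat.shiftRight (V (nat_lit 41)) (S (nat_lit 25))) (nat_lit 65535))) (Nat.add (Nat.shiftLeft (nat_lit 1) (Nat.land (Nat.shiftRight (V (nat_lit 41)) (S (nat_lit 50))) (nat_lit 65535))) (Nat.shiftLeft (nat_lit 1) (Nat.land (Nat.shiftRight (V (nat_lit 44)) (S (nat_lit 13))) (nat_lit 65535))))) (Nat.add (Nat.shiftLeft (nat_lit 1) (Nat.land (Nat.shiftRight (V (nat_lit 44)) (S (nat_lit 32))) (nat_lit 65535))) (Nat.add (Nat.shiftLeft (nat_lit 1) (Nat.land (Nat.shiftRight (V (nat_lit 44)) (S (nat_lit 33))) (nat_lit 65535))) (Nat.shiftLeft (nat_lit 1) (Nat.land (Nat.shiftRight (V (nat_lit 44)) (S (nat_lit 50))) (nat_lit 65535))))))) (Nat.add (Nat.add (Nat.add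 (Nat.shiftLeft (nat_lit 1) (Nat.land (Nat.shiftRight (V (nat_lit 45)) (S (nat_lit 14))) (nat_lit 65535))) (Nat.add (Nat.shiftLeft (nat_lit 1) (Nat.land (Nat.shiftRight (V (nat_lit 45)) (S (nat_lit 26))) (nat_lit 65535))) (Nat.shiftLeft (nat_lit 1) (Nat.land (Nat.shiftRight (V (nat_lit 45)) (S (nat_lit 58))) (nat_lit 65535))))) (Nat.add (Nat.shiftLeft (nat_lit 1) (Nat.land (Nat.shiftRight (V (nat_lit 45)) (S (nat_lit 59))) (nat_lit 65535))) (Nat.add (Nat.shiftLeft (nat_lit 1) (Nat.land (Nat.shiftRight (V (nat_lit 46)) (S (nat_lit 14))) (nat_lit 65535))) (Nat.shiftLeft (nat_lit 1) (Nat.land (Nat.shiftRight (V (nat_lit 46)) (S (nat_lit 23))) (nat_lit 65535)))))) (Nat.add (Nat.add (Nat.shiftLeft (nat_lit 1) (Nat.land (Nat.shiftRight (V (nat_lit 46)) (S (nat_lit 30))) (nat_lit 65535))) (Nat.add (Nat.shiftLeft (nat_lit 1) (Nat.land (Nat.shiftRight (V (nat_lit 46)) (S (nat_lit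 57))) (nat_lit 65535))) (Nat.shiftLeft (nat_lit 1) (Nat.land (Nat.shiftRight (V (nat_lit 47)) (S (nat_lit 18))) (nat_lit 65535))))) (Nat.add (Nat.shiftLeft (nat_lit 1) (Nat.land (Nat.shiftRight (V (nat_lit 47)) (S (nat_lit 26))) (nat_lit 65535))) (Nat.add (Nat.shiftLeft (nat_lit 1) (Nat.land (Nat.shiftRight (V (nat_lit 47)) (S (nat_lit 35))) (nat_lit 65535))) (Nat.shiftLeft (nat_lit 1) (Nat.land (Nat.shiftRight (V (nat_lit 47)) (S (nat_lit 57))) (nat_lit 65535)))))))) (Nat.add (Nat.add (Nat.add (Nat.add (Nat.shiftLeft (nat_lit 1) (Nat.land (Nat.shiftRight (V (nat_lit 50)) (S (nat_lit 18))) (nat_lit 65535))) (Nat.add (Nat.shiftLeft (nat_lit 1) (Nat.land (Nat.shiftRight (V (nat_lit 50)) (S (nat_lit 30))) (nat_lit 65535))) (Nat.shiftLeft (nat_lit 1) (Nat.land (Nat.shiftRight (V (nat_lit 50)) (S (nat_lit 41))) (nat_lit 65535))))) (Nat.add (Nat.shiftLeft (nat_lit 1) (Nat.land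 (Nat.shiftRight (V (nat_lit 50)) (S (nat_lit 44))) (nat_lit 65535))) (Nat.add (Nat.shiftLeft (nat_lit 1) (Nat.land (Nat.shiftRight (V (nat_lit 53)) (S (nat_lit 18))) (nat_lit 65535))) (Nat.shiftLeft (nat_lit 1) (Nat.land (Nat.shiftRight (V (nat_lit 53)) (S (nat_lit 23))) (nat_lit 65535)))))) (Nat.add (Nat.add (Nat.shiftLeft (nat_lit 1) (Nat.land (Nat.shiftRight (V (nat_lit 53)) (S (nat_lit 26))) (nat_lit 65535))) (Nat.add (Nat.shiftLeft (nat_lit 1) (Nat.land (Nat.shiftRight (V (nat_lit 53)) (S (nat_lit 38))) (nat_lit 65535))) (Nat.shiftLeft (nat_lit 1) (Nat.land (Nat.shiftRight (V (nat_lit 56)) (S (nat_lit 14))) (nat_lit 65535))))) (Nat.add (Nat.shiftLeft (nat_lit 1) (Nat.land (Nat.shiftRight (V (nat_lit 56)) (S (nat_lit 30))) (nat_lit 65535))) (Nat.add (Nat.shiftLeft (nat_lit 1) (Nat.land (Nat.shiftRight (V (nat_lit 56)) (S (nat_lit 35))) (nat_lit 65535))) (Nat.shiftLeft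 (nat_lit 1) (Nat.land (Nat.shiftRight (V (nat_lit 56)) (S (nat_lit 38))) (nat_lit 65535))))))) (Nat.add (Nat.add (Nat.add (Nat.shiftLeft (nat_lit 1) (Nat.land (Nat.shiftRight (V (nat_lit 57)) (S (nat_lit 13))) (nat_lit 65535))) (Nat.add (Nat.shiftLeft (nat_lit 1) (Nat.land (Nat.shiftRight (V (nat_lit 57)) (S (nat_lit 25))) (nat_lit 65535))) (Nat.shiftLeft (nat_lit 1) (Nat.land (Nat.shiftRight (V (nat_lit 57)) (S (nat_lit 46))) (nat_lit 65535))))) (Nat.add (Nat.shiftLeft (nat_lit 1) (Nat.land (Nat.shiftRight (V (nat_lit 57)) (S (nat_lit 47))) (nat_lit 65535))) (Nat.add (Nat.shiftLeft (nat_lit 1) (Nat.land (Nat.shiftRight (V (nat_lit 58)) (S (nat_lit 13))) (nat_lit 65535))) (Nat.shiftLeft (nat_lit 1) (Nat.land (Nat.shiftRight (V (nat_lit 58)) (S (nat_lit 20))) (nat_lit 65535)))))) (Nat.add (Nat.add (Nat.shiftLeft (nat_lit 1) (Nat.land (Nat.shiftRight (V (nat_lit 58))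 (S (nat_lit 33))) (nat_lit 65535))) (Nat.add (Nat.shiftLeft (nat_lit 1) (Nat.land (Nat.shiftRight (V (nat_lit 58)) (S (nat_lit 45))) (nat_lit 65535))) (Nat.shiftLeft (nat_lit 1) (Nat.land (Nat.shiftRight (V (nat_lit 59)) (S (nat_lit 21))) (nat_lit 65535))))) (Nat.add (Nat.shiftLeft (nat_lit 1) (Nat.land (Nat.shiftRight (V (nat_lit 59)) (S (nat_lit 25))) (nat_lit 65535))) (Nat.add (Nat.shiftLeft (nat_lit 1) (Nat.land (Nat.shiftRight (V (nat_lit 59)) (S (nat_lit 32))) (nat_lit 65535))) (Nat.shiftLeft (nat_lit 1) (Nat.land (Nat.shiftRight (V (nat_lit 59)) (S (nat_lit 45))) (nat_lit 65535)))))))))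
def E72_1 (V S : ℕ → ℕ) : ℕ := Nat.add (Nat.add (Nat.add (Nat.add (Nat.add (Nat.shiftLeft (nat_lit 1) (Nat.land (Nat.shiftRight (V (nat_lit 13)) (S (nat_lit 46))) (nat_lit 65535))) (Nat.shiftLeft (nat_lit 1) (Nat.land (Nat.shiftRight (V (nat_lit 13)) (S (nat_lit 56))) (nat_lit 65535)))) (Nat.add (Nat.shiftLeft (nat_lit 1) (Nat.land (Nat.shiftRight (V (nat_lit 14)) (S (nat_lit 44))) (nat_lit 65535))) (Nat.shiftLeft (nat_lit 1) (Nat.land (Nat.shiftRight (V (nat_lit 14)) (S (nat_lit 58))) (nat_lit 65535))))) (Nat.add (Nat.add (Nat.shiftLeft (nat_lit 1) (Nat.land (Nat.shiftRight (V (nat_lit 18)) (S (nat_lit 41))) (nat_lit 65535))) (Nat.shiftLeft (nat_lit 1) (Nat.land (Nat.shiftRight (V (nat_lit 18)) (S (nat_lit 59))) (nat_lit 65535)))) (Nat.add (Nat.shiftLeft (nat_lit 1) (Nat.land (Nat.shiftRight (V (nat_lit 21)) (S (nat_lit 47))) (nat_lit 65535))) (Nat.shiftLeft (nat_lit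 1) (Nat.land (Nat.shiftRight (V (nat_lit 21)) (S (nat_lit 53))) (nat_lit 65535)))))) (Nat.add (Nat.add (Nat.add (Nat.shiftLeft (nat_lit 1) (Nat.land (Nat.shiftRight (V (nat_lit 25)) (S (nat_lit 47))) (nat_lit 65535))) (Nat.shiftLeft (nat_lit 1) (Nat.land (Nat.shiftRight (V (nat_lit 25)) (S (nat_lit 53))) (nat_lit 65535)))) (Nat.add (Nat.shiftLeft (nat_lit 1) (Nat.land (Nat.shiftRight (V (nat_lit 26)) (S (nat_lit 41))) (nat_lit 65535))) (Nat.shiftLeft (nat_lit 1) (Nat.land (Nat.shiftRight (V (nat_lit 26)) (S (nat_lit 59))) (nat_lit 65535))))) (Nat.add (Nat.add (Nat.shiftLeft (nat_lit 1) (Nat.land (Nat.shiftRight (V (nat_lit 30)) (S (nat_lit 44))) (nat_lit 65535))) (Nat.shiftLeft (nat_lit 1) (Nat.land (Nat.shiftRight (V (nat_lit 30)) (S (nat_lit 58))) (nat_lit 65535)))) (Nat.add (Nat.shiftLeft (nat_lit 1) (Nat.land (Nat.shiftRight (V (nat_lit 33)) (S (nat_lit 46)))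 (nat_lit 65535))) (Nat.shiftLeft (nat_lit 1) (Nat.land (Nat.shiftRight (V (nat_lit 33)) (S (nat_lit 56))) (nat_lit 65535))))))) (Nat.add (Nat.add (Nat.add (Nat.add (Nat.shiftLeft (nat_lit 1) (Nat.land (Nat.shiftRight (V (nat_lit 41)) (S (nat_lit 18))) (nat_lit 65535))) (Nat.shiftLeft (nat_lit 1) (Nat.land (Nat.shiftRight (V (nat_lit 41)) (S (nat_lit 26))) (nat_lit 65535)))) (Nat.add (Nat.shiftLeft (nat_lit 1) (Nat.land (Nat.shiftRight (V (nat_lit 44)) (S (nat_lit 14))) (nat_lit 65535))) (Nat.shiftLeft (nat_lit 1) (Nat.land (Nat.shiftRight (V (nat_lit 44)) (S (nat_lit 30))) (nat_lit 65535))))) (Nat.add (Nat.add (Nat.shiftLeft (nat_lit 1) (Nat.land (Nat.shiftRight (V (nat_lit 46)) (S (nat_lit 13))) (nat_lit 65535))) (Nat.shiftLeft (nat_lit 1) (Nat.land (Nat.shiftRight (V (nat_lit 46)) (S (nat_lit 33))) (nat_lit 65535)))) (Nat.add (Nat.shiftLeft (nat_lit 1) (Nat.land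 (Nat.shiftRight (V (nat_lit 47)) (S (nat_lit 21))) (nat_lit 65535))) (Nat.shiftLeft (nat_lit 1) (Nat.land (Nat.shiftRight (V (nat_lit 47)) (S (nat_lit 25))) (nat_lit 65535)))))) (Nat.add (Nat.add (Nat.add (Nat.shiftLeft (nat_lit 1) (Nat.land (Nat.shiftRight (V (nat_lit 53)) (S (nat_lit 21))) (nat_lit 65535))) (Nat.shiftLeft (nat_lit 1) (Nat.land (Nat.shiftRight (V (nat_lit 53)) (S (nat_lit 25))) (nat_lit 65535)))) (Nat.add (Nat.shiftLeft (nat_lit 1) (Nat.land (Nat.shiftRight (V (nat_lit 56)) (S (nat_lit 13))) (nat_lit 65535))) (Nat.shiftLeft (nat_lit 1) (Nat.land (Nat.shiftRight (V (nat_lit 56)) (S (nat_lit 33))) (nat_lit 65535))))) (Nat.add (Nat.add (Nat.shiftLeft (nat_lit 1) (Nat.land (Nat.shiftRight (V (nat_lit 58)) (S (nat_lit 14))) (nat_lit 65535))) (Nat.shiftLeft (nat_lit 1) (Nat.land (Nat.shiftRight (V (nat_lit 58)) (S (nat_lit 30))) (nat_lit 65535)))) (Nat.add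 (Nat.shiftLeft (nat_lit 1) (Nat.land (Nat.shiftRight (V (nat_lit 59)) (S (nat_lit 18))) (nat_lit 65535))) (Nat.shiftLeft (nat_lit 1) (Nat.land (Nat.shiftRight (V (nat_lit 59)) (S (nat_lit 26))) (nat_lit 65535)))))))
def E73_1 (V S : ℕ → ℕ) : ℕ := Nat.add (Nat.add (Nat.add (Nat.add (Nat.shiftLeft (nat_lit 1) (Nat.land (Nat.shiftRight (V (nat_lit 13)) (S (nat_lit 47))) (nat_lit 65535))) (Nat.shiftLeft (nat_lit 1) (Nat.land (Nat.shiftRight (V (nat_lit 14)) (S (nat_lit 59))) (nat_lit 65535)))) (Nat.add (Nat.shiftLeft (nat_lit 1) (Nat.land (Nat.shiftRight (V (nat_lit 18)) (S (nat_lit 44))) (nat_lit 65535))) (Nat.shiftLeft (nat_lit 1) (Nat.land (Nat.shiftRight (V (nat_lit 21)) (S (nat_lit 56))) (nat_lit 65535))))) (Nat.add (Nat.add (Nat.shiftLeft (nat_lit 1) (Nat.land (Nat.shiftRight (V (nat_lit 25)) (S (nat_lit 46))) (nat_lit 65535))) (Nat.shiftLeft (nat_lit 1) (Nat.land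 (Nat.shiftRight (V (nat_lit 26)) (S (nat_lit 58))) (nat_lit 65535)))) (Nat.add (Nat.shiftLeft (nat_lit 1) (Nat.land (Nat.shiftRight (V (nat_lit 30)) (S (nat_lit 41))) (nat_lit 65535))) (Nat.shiftLeft (nat_lit 1) (Nat.land (Nat.shiftRight (V (nat_lit 33)) (S (nat_lit 53))) (nat_lit 65535)))))) (Nat.add (Nat.add (Nat.add (Nat.shiftLeft (nat_lit 1) (Nat.land (Nat.shiftRight (V (nat_lit 41)) (S (nat_lit 30))) (nat_lit 65535))) (Nat.shiftLeft (nat_lit 1) (Nat.land (Nat.shiftRight (V (nat_lit 44)) (S (nat_lit 18))) (nat_lit 65535)))) (Nat.add (Nat.shiftLeft (nat_lit 1) (Nat.land (Nat.shiftRight (V (nat_lit 46)) (S (nat_lit 25))) (nat_lit 65535))) (Nat.shiftLeft (nat_lit 1) (Nat.land (Nat.shiftRight (V (nat_lit 47)) (S (nat_lit 13))) (nat_lit 65535))))) (Nat.add (Nat.add (Nat.shiftLeft (nat_lit 1) (Nat.land (Nat.shiftRight (V (nat_lit 53)) (S (nat_lit 33))) (nat_lit 65535)))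 (Nat.shiftLeft (nat_lit 1) (Nat.land (Nat.shiftRight (V (nat_lit 56)) (S (nat_lit 21))) (nat_lit 65535)))) (Nat.add (Nat.shiftLeft (nat_lit 1) (Nat.land (Nat.shiftRight (V (nat_lit 58)) (S (nat_lit 26))) (nat_lit 65535))) (Nat.shiftLeft (nat_lit 1) (Nat.land (Nat.shiftRight (V (nat_lit 59)) (S (nat_lit 14))) (nat_lit 65535))))))
def E74_1 (V S : ℕ → ℕ) : ℕ := Nat.add (Nat.add (Nat.add (Nat.add (Nat.shiftLeft (nat_lit 1) (Nat.land (Nat.shiftRight (V (nat_lit 20)) (S (nat_lit 23))) (nat_lit 65535))) (Nat.shiftLeft (nat_lit 1) (Nat.land (Nat.shiftRight (V (nat_lit 20)) (S (nat_lit 35))) (nat_lit 65535)))) (Nat.add (Nat.shiftLeft (nat_lit 1) (Nat.land (Nat.shiftRight (V (nat_lit 23)) (S (nat_lit 20))) (nat_lit 65535))) (Nat.shiftLeft (nat_lit 1) (Nat.land (Nat.shiftRight (V (nat_lit 23)) (S (nat_lit 32))) (nat_lit 65535))))) (Nat.add (Nat.add (Nat.shiftLeft (nat_lit 1)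 (Nat.land (Nat.shiftRight (V (nat_lit 32)) (S (nat_lit 23))) (nat_lit 65535))) (Nat.shiftLeft (nat_lit 1) (Nat.land (Nat.shiftRight (V (nat_lit 32)) (S (nat_lit 35))) (nat_lit 65535)))) (Nat.add (Nat.shiftLeft (nat_lit 1) (Nat.land (Nat.shiftRight (V (nat_lit 35)) (S (nat_lit 20))) (nat_lit 65535))) (Nat.shiftLeft (nat_lit 1) (Nat.land (Nat.shiftRight (V (nat_lit 35)) (S (nat_lit 32))) (nat_lit 65535)))))) (Nat.add (Nat.add (Nat.add (Nat.shiftLeft (nat_lit 1) (Nat.land (Nat.shiftRight (V (nat_lit 38)) (S (nat_lit 45))) (nat_lit 65535))) (Nat.shiftLeft (nat_lit 1) (Nat.land (Nat.shiftRight (V (nat_lit 38)) (S (nat_lit 50))) (nat_lit 65535)))) (Nat.add (Nat.shiftLeft (nat_lit 1) (Nat.land (Nat.shiftRight (V (nat_lit 45)) (S (nat_lit 38))) (nat_lit 65535))) (Nat.shiftLeft (nat_lit 1) (Nat.land (Nat.shiftRight (V (nat_lit 45)) (S (nat_lit 57))) (nat_lit 65535))))) (Nat.add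 (Nat.add (Nat.shiftLeft (nat_lit 1) (Nat.land (Nat.shiftRight (V (nat_lit 50)) (S (nat_lit 38))) (nat_lit 65535))) (Nat.shiftLeft (nat_lit 1) (Nat.land (Nat.shiftRight (V (nat_lit 50)) (S (nat_lit 57))) (nat_lit 65535)))) (Nat.add (Nat.shiftLeft (nat_lit 1) (Nat.land (Nat.shiftRight (V (nat_lit 57)) (S (nat_lit 45))) (nat_lit 65535))) (Nat.shiftLeft (nat_lit 1) (Nat.land (Nat.shiftRight (V (nat_lit 57)) (S (nat_lit 50))) (nat_lit 65535))))))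
def E75_1 (V S : ℕ → ℕ) : ℕ := Nat.add (Nat.add (Nat.add (Nat.add (Nat.shiftLeft (nat_lit 1) (Nat.land (Nat.shiftRight (V (nat_lit 20)) (S (nat_lit 45))) (nat_lit 65535))) (Nat.shiftLeft (nat_lit 1) (Nat.land (Nat.shiftRight (V (nat_lit 20)) (S (nat_lit 50))) (nat_lit 65535)))) (Nat.add (Nat.shiftLeft (nat_lit 1) (Nat.land (Nat.shiftRight (V (nat_lit 23)) (S (nat_lit 38))) (nat_lit 65535))) (Nat.shiftLeft (nat_lit 1) (Nat.land (Nat.shiftRight (V (nat_lit 23)) (S (nat_lit 57))) (nat_lit 65535))))) (Nat.add (Nat.add (Nat.shiftLeft (nat_lit 1) (Nat.land (Nat.shiftRight (V (nat_lit 32)) (S (nat_lit 45))) (nat_lit 65535))) (Nat.shiftLeft (nat_lit 1) (Nat.land (Nat.shiftRight (V (nat_lit 32)) (S (nat_lit 50))) (nat_lit 65535)))) (Nat.add (Nat.shiftLeft (nat_lit 1) (Nat.land (Nat.shiftRight (V (nat_lit 35)) (S (nat_lit 38))) (nat_lit 65535))) (Nat.shiftLeft (nat_lit 1) (Nat.land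 (Nat.shiftRight (V (nat_lit 35)) (S (nat_lit 57))) (nat_lit 65535)))))) (Nat.add (Nat.add (Nat.add (Nat.shiftLeft (nat_lit 1) (Nat.land (Nat.shiftRight (V (nat_lit 38)) (S (nat_lit 23))) (nat_lit 65535))) (Nat.shiftLeft (nat_lit 1) (Nat.land (Nat.shiftRight (V (nat_lit 38)) (S (nat_lit 35))) (nat_lit 65535)))) (Nat.add (Nat.shiftLeft (nat_lit 1) (Nat.land (Nat.shiftRight (V (nat_lit 45)) (S (nat_lit 20))) (nat_lit 65535))) (Nat.shiftLeft (nat_lit 1) (Nat.land (Nat.shiftRight (V (nat_lit 45)) (S (nat_lit 32))) (nat_lit 65535))))) (Nat.add (Nat.add (Nat.shiftLeft (nat_lit 1) (Nat.land (Nat.shiftRight (V (nat_lit 50)) (S (nat_lit 20))) (nat_lit 65535))) (Nat.shiftLeft (nat_lit 1) (Nat.land (Nat.shiftRight (V (nat_lit 50)) (S (nat_lit 32))) (nat_lit 65535)))) (Nat.add (Nat.shiftLeft (nat_lit 1) (Nat.land (Nat.shiftRight (V (nat_lit 57)) (S (nat_lit 23))) (nat_lit 65535)))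 (Nat.shiftLeft (nat_lit 1) (Nat.land (Nat.shiftRight (V (nat_lit 57)) (S (nat_lit 35))) (nat_lit 65535))))))
def E78_1 (V S : ℕ → ℕ) : ℕ := Nat.add (Nat.add (Nat.add (Nat.add (Nat.add (Nat.add (Nat.add (Nat.shiftLeft (nat_lit 1) (Nat.land (Nat.shiftRight (V (nat_lit 1)) (S (nat_lit 13))) (nat_lit 65535))) (Nat.add (Nat.shiftLeft (nat_lit 1) (Nat.land (Nat.shiftRight (V (nat_lit 1)) (S (nat_lit 14))) (nat_lit 65535))) (Nat.shiftLeft (nat_lit 1) (Nat.land (Nat.shiftRight (V (nat_lit 1)) (S (nat_lit 56))) (nat_lit 65535))))) (Nat.add (Nat.shiftLeft (nat_lit 1) (Nat.land (Nat.shiftRight (V (nat_lit 1)) (S (nat_lit 58))) (nat_lit 65535))) (Nat.add (Nat.shiftLeft (nat_lit 1) (Nat.land (Nat.shiftRight (V (nat_lit 2)) (S (nat_lit 13))) (nat_lit 65535))) (Nat.shiftLeft (nat_lit 1) (Nat.land (Nat.shiftRight (V (nat_lit 2)) (S (nat_lit 14))) (nat_lit 65535)))))) (Nat.add (Nat.add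 (Nat.shiftLeft (nat_lit 1) (Nat.land (Nat.shiftRight (V (nat_lit 2)) (S (nat_lit 44))) (nat_lit 65535))) (Nat.add (Nat.shiftLeft (nat_lit 1) (Nat.land (Nat.shiftRight (V (nat_lit 2)) (S (nat_lit 46))) (nat_lit 65535))) (Nat.shiftLeft (nat_lit 1) (Nat.land (Nat.shiftRight (V (nat_lit 4)) (S (nat_lit 25))) (nat_lit 65535))))) (Nat.add (Nat.shiftLeft (nat_lit 1) (Nat.land (Nat.shiftRight (V (nat_lit 4)) (S (nat_lit 26))) (nat_lit 65535))) (Nat.add (Nat.shiftLeft (nat_lit 1) (Nat.land (Nat.shiftRight (V (nat_lit 4)) (S (nat_lit 53))) (nat_lit 65535))) (Nat.shiftLeft (nat_lit 1) (Nat.land (Nat.shiftRight (V (nat_lit 4)) (S (nat_lit 59))) (nat_lit 65535))))))) (Nat.add (Nat.add (Nat.add (Nat.shiftLeft (nat_lit 1) (Nat.land (Nat.shiftRight (V (nat_lit 5)) (S (nat_lit 25))) (nat_lit 65535))) (Nat.add (Nat.shiftLeft (nat_lit 1) (Nat.land (Nat.shiftRight (V (nat_lit 5)) (S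 (nat_lit 26))) (nat_lit 65535))) (Nat.shiftLeft (nat_lit 1) (Nat.land (Nat.shiftRight (V (nat_lit 5)) (S (nat_lit 41))) (nat_lit 65535))))) (Nat.add (Nat.shiftLeft (nat_lit 1) (Nat.land (Nat.shiftRight (V (nat_lit 5)) (S (nat_lit 47))) (nat_lit 65535))) (Nat.add (Nat.shiftLeft (nat_lit 1) (Nat.land (Nat.shiftRight (V (nat_lit 6)) (S (nat_lit 18))) (nat_lit 65535))) (Nat.shiftLeft (nat_lit 1) (Nat.land (Nat.shiftRight (V (nat_lit 6)) (S (nat_lit 21))) (nat_lit 65535)))))) (Nat.add (Nat.add (Nat.shiftLeft (nat_lit 1) (Nat.land (Nat.shiftRight (V (nat_lit 6)) (S (nat_lit 53))) (nat_lit 65535))) (Nat.add (Nat.shiftLeft (nat_lit 1) (Nat.land (Nat.shiftRight (V (nat_lit 6)) (S (nat_lit 59))) (nat_lit 65535))) (Nat.shiftLeft (nat_lit 1) (Nat.land (Nat.shiftRight (V (nat_lit 7)) (S (nat_lit 30))) (nat_lit 65535))))) (Nat.add (Nat.shiftLeft (nat_lit 1) (Nat.land (Nat.shiftRight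 (V (nat_lit 7)) (S (nat_lit 33))) (nat_lit 65535))) (Nat.add (Nat.shiftLeft (nat_lit 1) (Nat.land (Nat.shiftRight (V (nat_lit 7)) (S (nat_lit 56))) (nat_lit 65535))) (Nat.shiftLeft (nat_lit 1) (Nat.land (Nat.shiftRight (V (nat_lit 7)) (S (nat_lit 58))) (nat_lit 65535)))))))) (Nat.add (Nat.add (Nat.add (Nat.add (Nat.shiftLeft (nat_lit 1) (Nat.land (Nat.shiftRight (V (nat_lit 9)) (S (nat_lit 18))) (nat_lit 65535))) (Nat.add (Nat.shiftLeft (nat_lit 1) (Nat.land (Nat.shiftRight (V (nat_lit 9)) (S (nat_lit 21))) (nat_lit 65535))) (Nat.shiftLeft (nat_lit 1) (Nat.land (Nat.shiftRight (V (nat_lit 9)) (S (nat_lit 41))) (nat_lit 65535))))) (Nat.add (Nat.shiftLeft (nat_lit 1) (Nat.land (Nat.shiftRight (V (nat_lit 9)) (S (nat_lit 47))) (nat_lit 65535))) (Nat.add (Nat.shiftLeft (nat_lit 1) (Nat.land (Nat.shiftRight (V (nat_lit 10)) (S (nat_lit 30))) (nat_lit 65535))) (Nat.shiftLeft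 (nat_lit 1) (Nat.land (Nat.shiftRight (V (nat_lit 10)) (S (nat_lit 33))) (nat_lit 65535)))))) (Nat.add (Nat.add (Nat.shiftLeft (nat_lit 1) (Nat.land (Nat.shiftRight (V (nat_lit 10)) (S (nat_lit 44))) (nat_lit 65535))) (Nat.add (Nat.shiftLeft (nat_lit 1) (Nat.land (Nat.shiftRight (V (nat_lit 10)) (S (nat_lit 46))) (nat_lit 65535))) (Nat.shiftLeft (nat_lit 1) (Nat.land (Nat.shiftRight (V (nat_lit 12)) (S (nat_lit 18))) (nat_lit 65535))))) (Nat.add (Nat.shiftLeft (nat_lit 1) (Nat.land (Nat.shiftRight (V (nat_lit 12)) (S (nat_lit 21))) (nat_lit 65535))) (Nat.add (Nat.shiftLeft (nat_lit 1) (Nat.land (Nat.shiftRight (V (nat_lit 12)) (S (nat_lit 25))) (nat_lit 65535))) (Nat.shiftLeft (nat_lit 1) (Nat.land (Nat.shiftRight (V (nat_lit 12)) (S (nat_lit 26))) (nat_lit 65535))))))) (Nat.add (Nat.add (Nat.add (Nat.shiftLeft (nat_lit 1) (Nat.land (Nat.shiftRight (V (nat_lit 12))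 (S (nat_lit 31))) (nat_lit 65535))) (Nat.add (Nat.shiftLeft (nat_lit 1) (Nat.land (Nat.shiftRight (V (nat_lit 12)) (S (nat_lit 34))) (nat_lit 65535))) (Nat.shiftLeft (nat_lit 1) (Nat.land (Nat.shiftRight (V (nat_lit 12)) (S (nat_lit 42))) (nat_lit 65535))))) (Nat.add (Nat.shiftLeft (nat_lit 1) (Nat.land (Nat.shiftRight (V (nat_lit 12)) (S (nat_lit 54))) (nat_lit 65535))) (Nat.add (Nat.shiftLeft (nat_lit 1) (Nat.land (Nat.shiftRight (V (nat_lit 13)) (S (nat_lit 1))) (nat_lit 65535))) (Nat.shiftLeft (nat_lit 1) (Nat.land (Nat.shiftRight (V (nat_lit 13)) (S (nat_lit 2))) (nat_lit 65535)))))) (Nat.add (Nat.add (Nat.shiftLeft (nat_lit 1) (Nat.land (Nat.shiftRight (V (nat_lit 13)) (S (nat_lit 15))) (nat_lit 65535))) (Nat.add (Nat.shiftLeft (nat_lit 1) (Nat.land (Nat.shiftRight (V (nat_lit 13)) (S (nat_lit 24))) (nat_lit 65535))) (Nat.shiftLeft (nat_lit 1) (Nat.land (Nat.shiftRight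 (V (nat_lit 14)) (S (nat_lit 1))) (nat_lit 65535))))) (Nat.add (Nat.shiftLeft (nat_lit 1) (Nat.land (Nat.shiftRight (V (nat_lit 14)) (S (nat_lit 2))) (nat_lit 65535))) (Nat.add (Nat.shiftLeft (nat_lit 1) (Nat.land (Nat.shiftRight (V (nat_lit 14)) (S (nat_lit 15))) (nat_lit 65535))) (Nat.shiftLeft (nat_lit 1) (Nat.land (Nat.shiftRight (V (nat_lit 14)) (S (nat_lit 24))) (nat_lit 65535))))))))) (Nat.add (Nat.add (Nat.add (Nat.add (Nat.add (Nat.shiftLeft (nat_lit 1) (Nat.land (Nat.shiftRight (V (nat_lit 15)) (S (nat_lit 13))) (nat_lit 65535))) (Nat.add (Nat.shiftLeft (nat_lit 1) (Nat.land (Nat.shiftRight (V (nat_lit 15)) (S (nat_lit 14))) (nat_lit 65535))) (Nat.shiftLeft (nat_lit 1) (Nat.land (Nat.shiftRight (V (nat_lit 15)) (S (nat_lit 28))) (nat_lit 65535))))) (Nat.add (Nat.shiftLeft (nat_lit 1) (Nat.land (Nat.shiftRight (V (nat_lit 15)) (S (nat_lit 29))) (nat_lit 65535)))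 (Nat.add (Nat.shiftLeft (nat_lit 1) (Nat.land (Nat.shiftRight (V (nat_lit 15)) (S (nat_lit 30))) (nat_lit 65535))) (Nat.shiftLeft (nat_lit 1) (Nat.land (Nat.shiftRight (V (nat_lit 15)) (S (nat_lit 33))) (nat_lit 65535)))))) (Nat.add (Nat.add (Nat.shiftLeft (nat_lit 1) (Nat.land (Nat.shiftRight (V (nat_lit 15)) (S (nat_lit 37))) (nat_lit 65535))) (Nat.add (Nat.shiftLeft (nat_lit 1) (Nat.land (Nat.shiftRight (V (nat_lit 15)) (S (nat_lit 49))) (nat_lit 65535))) (Nat.shiftLeft (nat_lit 1) (Nat.land (Nat.shiftRight (V (nat_lit 16)) (S (nat_lit 27))) (nat_lit 65535))))) (Nat.add (Nat.shiftLeft (nat_lit 1) (Nat.land (Nat.shiftRight (V (nat_lit 16)) (S (nat_lit 43))) (nat_lit 65535))) (Nat.add (Nat.shiftLeft (nat_lit 1) (Nat.land (Nat.shiftRight (V (nat_lit 17)) (S (nat_lit 27))) (nat_lit 65535))) (Nat.shiftLeft (nat_lit 1) (Nat.land (Nat.shiftRight (V (nat_lit 17)) (S (nat_lit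 55))) (nat_lit 65535))))))) (Nat.add (Nat.add (Nat.add (Nat.shiftLeft (nat_lit 1) (Nat.land (Nat.shiftRight (V (nat_lit 18)) (S (nat_lit 6))) (nat_lit 65535))) (Nat.add (Nat.shiftLeft (nat_lit 1) (Nat.land (Nat.shiftRight (V (nat_lit 18)) (S (nat_lit 9))) (nat_lit 65535))) (Nat.shiftLeft (nat_lit 1) (Nat.land (Nat.shiftRight (V (nat_lit 18)) (S (nat_lit 12))) (nat_lit 65535))))) (Nat.add (Nat.shiftLeft (nat_lit 1) (Nat.land (Nat.shiftRight (V (nat_lit 18)) (S (nat_lit 27))) (nat_lit 65535))) (Nat.add (Nat.shiftLeft (nat_lit 1) (Nat.land (Nat.shiftRight (V (nat_lit 19)) (S (nat_lit 24))) (nat_lit 65535))) (Nat.shiftLeft (nat_lit 1) (Nat.land (Nat.shiftRight (V (nat_lit 19)) (S (nat_lit 40))) (nat_lit 65535)))))) (Nat.add (Nat.add (Nat.shiftLeft (nat_lit 1) (Nat.land (Nat.shiftRight (V (nat_lit 21)) (S (nat_lit 6))) (nat_lit 65535))) (Nat.add (Nat.shiftLeft (nat_lit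 1) (Nat.land (Nat.shiftRight (V (nat_lit 21)) (S (nat_lit 9))) (nat_lit 65535))) (Nat.shiftLeft (nat_lit 1) (Nat.land (Nat.shiftRight (V (nat_lit 21)) (S (nat_lit 12))) (nat_lit 65535))))) (Nat.add (Nat.shiftLeft (nat_lit 1) (Nat.land (Nat.shiftRight (V (nat_lit 21)) (S (nat_lit 27))) (nat_lit 65535))) (Nat.add (Nat.shiftLeft (nat_lit 1) (Nat.land (Nat.shiftRight (V (nat_lit 22)) (S (nat_lit 24))) (nat_lit 65535))) (Nat.shiftLeft (nat_lit 1) (Nat.land (Nat.shiftRight (V (nat_lit 22)) (S (nat_lit 52))) (nat_lit 65535)))))))) (Nat.add (Nat.add (Nat.add (Nat.add (Nat.shiftLeft (nat_lit 1) (Nat.land (Nat.shiftRight (V (nat_lit 24)) (S (nat_lit 13))) (nat_lit 65535))) (Nat.add (Nat.shiftLeft (nat_lit 1) (Nat.land (Nat.shiftRight (V (nat_lit 24)) (S (nat_lit 14))) (nat_lit 65535))) (Nat.shiftLeft (nat_lit 1) (Nat.land (Nat.shiftRight (V (nat_lit 24)) (S (nat_lit 19))) (nat_lit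 65535))))) (Nat.add (Nat.shiftLeft (nat_lit 1) (Nat.land (Nat.shiftRight (V (nat_lit 24)) (S (nat_lit 22))) (nat_lit 65535))) (Nat.add (Nat.shiftLeft (nat_lit 1) (Nat.land (Nat.shiftRight (V (nat_lit 24)) (S (nat_lit 30))) (nat_lit 65535))) (Nat.shiftLeft (nat_lit 1) (Nat.land (Nat.shiftRight (V (nat_lit 24)) (S (nat_lit 33))) (nat_lit 65535)))))) (Nat.add (Nat.add (Nat.shiftLeft (nat_lit 1) (Nat.land (Nat.shiftRight (V (nat_lit 24)) (S (nat_lit 39))) (nat_lit 65535))) (Nat.add (Nat.shiftLeft (nat_lit 1) (Nat.land (Nat.shiftRight (V (nat_lit 24)) (S (nat_lit 51))) (nat_lit 65535))) (Nat.shiftLeft (nat_lit 1) (Nat.land (Nat.shiftRight (V (nat_lit 25)) (S (nat_lit 4))) (nat_lit 65535))))) (Nat.add (Nat.shiftLeft (nat_lit 1) (Nat.land (Nat.shiftRight (V (nat_lit 25)) (S (nat_lit 5))) (nat_lit 65535))) (Nat.add (Nat.shiftLeft (nat_lit 1) (Nat.land (Nat.shiftRight (V (nat_lit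 25)) (S (nat_lit 12))) (nat_lit 65535))) (Nat.shiftLeft (nat_lit 1) (Nat.land (Nat.shiftRight (V (nat_lit 25)) (S (nat_lit 27))) (nat_lit 65535))))))) (Nat.add (Nat.add (Nat.add (Nat.shiftLeft (nat_lit 1) (Nat.land (Nat.shiftRight (V (nat_lit 26)) (S (nat_lit 4))) (nat_lit 65535))) (Nat.add (Nat.shiftLeft (nat_lit 1) (Nat.land (Nat.shiftRight (V (nat_lit 26)) (S (nat_lit 5))) (nat_lit 65535))) (Nat.shiftLeft (nat_lit 1) (Nat.land (Nat.shiftRight (V (nat_lit 26)) (S (nat_lit 12))) (nat_lit 65535))))) (Nat.add (Nat.shiftLeft (nat_lit 1) (Nat.land (Nat.shiftRight (V (nat_lit 26)) (S (nat_lit 27))) (nat_lit 65535))) (Nat.add (Nat.shiftLeft (nat_lit 1) (Nat.land (Nat.shiftRight (V (nat_lit 27)) (S (nat_lit 16))) (nat_lit 65535))) (Nat.shiftLeft (nat_lit 1) (Nat.land (Nat.shiftRight (V (nat_lit 27)) (S (nat_lit 17))) (nat_lit 65535)))))) (Nat.add (Nat.add (Nat.shiftLeft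 (nat_lit 1) (Nat.land (Nat.shiftRight (V (nat_lit 27)) (S (nat_lit 18))) (nat_lit 65535))) (Nat.add (Nat.shiftLeft (nat_lit 1) (Nat.land (Nat.shiftRight (V (nat_lit 27)) (S (nat_lit 21))) (nat_lit 65535))) (Nat.shiftLeft (nat_lit 1) (Nat.land (Nat.shiftRight (V (nat_lit 27)) (S (nat_lit 25))) (nat_lit 65535))))) (Nat.add (Nat.shiftLeft (nat_lit 1) (Nat.land (Nat.shiftRight (V (nat_lit 27)) (S (nat_lit 26))) (nat_lit 65535))) (Nat.add (Nat.shiftLeft (nat_lit 1) (Nat.land (Nat.shiftRight (V (nat_lit 27)) (S (nat_lit 36))) (nat_lit 65535))) (Nat.shiftLeft (nat_lit 1) (Nat.land (Nat.shiftRight (V (nat_lit 27)) (S (nat_lit 48))) (nat_lit 65535)))))))))) (Nat.add (Nat.add (Nat.add (Nat.add (Nat.add (Nat.add (Nat.shiftLeft (nat_lit 1) (Nat.land (Nat.shiftRight (V (nat_lit 28)) (S (nat_lit 15))) (nat_lit 65535))) (Nat.add (Nat.shiftLeft (nat_lit 1) (Nat.land (Nat.shiftRight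 (V (nat_lit 28)) (S (nat_lit 40))) (nat_lit 65535))) (Nat.shiftLeft (nat_lit 1) (Nat.land (Nat.shiftRight (V (nat_lit 29)) (S (nat_lit 15))) (nat_lit 65535))))) (Nat.add (Nat.shiftLeft (nat_lit 1) (Nat.land (Nat.shiftRight (V (nat_lit 29)) (S (nat_lit 52))) (nat_lit 65535))) (Nat.add (Nat.shiftLeft (nat_lit 1) (Nat.land (Nat.shiftRight (V (nat_lit 30)) (S (nat_lit 7))) (nat_lit 65535))) (Nat.shiftLeft (nat_lit 1) (Nat.land (Nat.shiftRight (V (nat_lit 30)) (S (nat_lit 10))) (nat_lit 65535)))))) (Nat.add (Nat.add (Nat.shiftLeft (nat_lit 1) (Nat.land (Nat.shiftRight (V (nat_lit 30)) (S (nat_lit 15))) (nat_lit 65535))) (Nat.add (Nat.shiftLeft (nat_lit 1) (Nat.land (Nat.shiftRight (V (nat_lit 30)) (S (nat_lit 24))) (nat_lit 65535))) (Nat.shiftLeft (nat_lit 1) (Nat.land (Nat.shiftRight (V (nat_lit 31)) (S (nat_lit 12))) (nat_lit 65535))))) (Nat.add (Nat.shiftLeft (nat_lit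 1) (Nat.land (Nat.shiftRight (V (nat_lit 31)) (S (nat_lit 43))) (nat_lit 65535))) (Nat.add (Nat.shiftLeft (nat_lit 1) (Nat.land (Nat.shiftRight (V (nat_lit 33)) (S (nat_lit 7))) (nat_lit 65535))) (Nat.shiftLeft (nat_lit 1) (Nat.land (Nat.shiftRight (V (nat_lit 33)) (S (nat_lit 10))) (nat_lit 65535))))))) (Nat.add (Nat.add (Nat.add (Nat.shiftLeft (nat_lit 1) (Nat.land (Nat.shiftRight (V (nat_lit 33)) (S (nat_lit 15))) (nat_lit 65535))) (Nat.add (Nat.shiftLeft (nat_lit 1) (Nat.land (Nat.shiftRight (V (nat_lit 33)) (S (nat_lit 24))) (nat_lit 65535))) (Nat.shiftLeft (nat_lit 1) (Nat.land (Nat.shiftRight (V (nat_lit 34)) (S (nat_lit 12))) (nat_lit 65535))))) (Nat.add (Nat.shiftLeft (nat_lit 1) (Nat.land (Nat.shiftRight (V (nat_lit 34)) (S (nat_lit 55))) (nat_lit 65535))) (Nat.add (Nat.shiftLeft (nat_lit 1) (Nat.land (Nat.shiftRight (V (nat_lit 36)) (S (nat_lit 27))) (nat_lit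 65535))) (Nat.shiftLeft (nat_lit 1) (Nat.land (Nat.shiftRight (V (nat_lit 36)) (S (nat_lit 55))) (nat_lit 65535)))))) (Nat.add (Nat.add (Nat.shiftLeft (nat_lit 1) (Nat.land (Nat.shiftRight (V (nat_lit 37)) (S (nat_lit 15))) (nat_lit 65535))) (Nat.add (Nat.shiftLeft (nat_lit 1) (Nat.land (Nat.shiftRight (V (nat_lit 37)) (S (nat_lit 52))) (nat_lit 65535))) (Nat.shiftLeft (nat_lit 1) (Nat.land (Nat.shiftRight (V (nat_lit 39)) (S (nat_lit 24))) (nat_lit 65535))))) (Nat.add (Nat.shiftLeft (nat_lit 1) (Nat.land (Nat.shiftRight (V (nat_lit 39)) (S (nat_lit 52))) (nat_lit 65535))) (Nat.add (Nat.shiftLeft (nat_lit 1) (Nat.land (Nat.shiftRight (V (nat_lit 40)) (S (nat_lit 19))) (nat_lit 65535))) (Nat.shiftLeft (nat_lit 1) (Nat.land (Nat.shiftRight (V (nat_lit 40)) (S (nat_lit 28))) (nat_lit 65535)))))))) (Nat.add (Nat.add (Nat.add (Nat.add (Nat.shiftLeft (nat_lit 1) (Nat.land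 (Nat.shiftRight (V (nat_lit 40)) (S (nat_lit 41))) (nat_lit 65535))) (Nat.add (Nat.shiftLeft (nat_lit 1) (Nat.land (Nat.shiftRight (V (nat_lit 40)) (S (nat_lit 47))) (nat_lit 65535))) (Nat.shiftLeft (nat_lit 1) (Nat.land (Nat.shiftRight (V (nat_lit 40)) (S (nat_lit 49))) (nat_lit 65535))))) (Nat.add (Nat.shiftLeft (nat_lit 1) (Nat.land (Nat.shiftRight (V (nat_lit 40)) (S (nat_lit 51))) (nat_lit 65535))) (Nat.add (Nat.shiftLeft (nat_lit 1) (Nat.land (Nat.shiftRight (V (nat_lit 40)) (S (nat_lit 53))) (nat_lit 65535))) (Nat.shiftLeft (nat_lit 1) (Nat.land (Nat.shiftRight (V (nat_lit 40)) (S (nat_lit 59))) (nat_lit 65535)))))) (Nat.add (Nat.add (Nat.shiftLeft (nat_lit 1) (Nat.land (Nat.shiftRight (V (nat_lit 41)) (S (nat_lit 5))) (nat_lit 65535))) (Nat.add (Nat.shiftLeft (nat_lit 1) (Nat.land (Nat.shiftRight (V (nat_lit 41)) (S (nat_lit 9))) (nat_lit 65535))) (Nat.shiftLeft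 (nat_lit 1) (Nat.land (Nat.shiftRight (V (nat_lit 41)) (S (nat_lit 40))) (nat_lit 65535))))) (Nat.add (Nat.shiftLeft (nat_lit 1) (Nat.land (Nat.shiftRight (V (nat_lit 41)) (S (nat_lit 52))) (nat_lit 65535))) (Nat.add (Nat.shiftLeft (nat_lit 1) (Nat.land (Nat.shiftRight (V (nat_lit 42)) (S (nat_lit 12))) (nat_lit 65535))) (Nat.shiftLeft (nat_lit 1) (Nat.land (Nat.shiftRight (V (nat_lit 42)) (S (nat_lit 55))) (nat_lit 65535))))))) (Nat.add (Nat.add (Nat.add (Nat.shiftLeft (nat_lit 1) (Nat.land (Nat.shiftRight (V (nat_lit 43)) (S (nat_lit 16))) (nat_lit 65535))) (Nat.add (Nat.shiftLeft (nat_lit 1) (Nat.land (Nat.shiftRight (V (nat_lit 43)) (S (nat_lit 31))) (nat_lit 65535))) (Nat.shiftLeft (nat_lit 1) (Nat.land (Nat.shiftRight (V (nat_lit 43)) (S (nat_lit 44))) (nat_lit 65535))))) (Nat.add (Nat.shiftLeft (nat_lit 1) (Nat.land (Nat.shiftRight (V (nat_lit 43)) (S (nat_lit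 46))) (nat_lit 65535))) (Nat.add (Nat.shiftLeft (nat_lit 1) (Nat.land (Nat.shiftRight (V (nat_lit 43)) (S (nat_lit 48))) (nat_lit 65535))) (Nat.shiftLeft (nat_lit 1) (Nat.land (Nat.shiftRight (V (nat_lit 43)) (S (nat_lit 54))) (nat_lit 65535)))))) (Nat.add (Nat.add (Nat.shiftLeft (nat_lit 1) (Nat.land (Nat.shiftRight (V (nat_lit 43)) (S (nat_lit 56))) (nat_lit 65535))) (Nat.add (Nat.shiftLeft (nat_lit 1) (Nat.land (Nat.shiftRight (V (nat_lit 43)) (S (nat_lit 58))) (nat_lit 65535))) (Nat.shiftLeft (nat_lit 1) (Nat.land (Nat.shiftRight (V (nat_lit 44)) (S (nat_lit 2))) (nat_lit 65535))))) (Nat.add (Nat.shiftLeft (nat_lit 1) (Nat.land (Nat.shiftRight (V (nat_lit 44)) (S (nat_lit 10))) (nat_lit 65535))) (Nat.add (Nat.shiftLeft (nat_lit 1) (Nat.land (Nat.shiftRight (V (nat_lit 44)) (S (nat_lit 43))) (nat_lit 65535))) (Nat.shiftLeft (nat_lit 1) (Nat.land (Nat.shiftRight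 (V (nat_lit 44)) (S (nat_lit 55))) (nat_lit 65535))))))))) (Nat.add (Nat.add (Nat.add (Nat.add (Nat.add (Nat.shiftLeft (nat_lit 1) (Nat.land (Nat.shiftRight (V (nat_lit 46)) (S (nat_lit 2))) (nat_lit 65535))) (Nat.add (Nat.shiftLeft (nat_lit 1) (Nat.land (Nat.shiftRight (V (nat_lit 46)) (S (nat_lit 10))) (nat_lit 65535))) (Nat.shiftLeft (nat_lit 1) (Nat.land (Nat.shiftRight (V (nat_lit 46)) (S (nat_lit 43))) (nat_lit 65535))))) (Nat.add (Nat.shiftLeft (nat_lit 1) (Nat.land (Nat.shiftRight (V (nat_lit 46)) (S (nat_lit 55))) (nat_lit 65535))) (Nat.add (Nat.shiftLeft (nat_lit 1) (Nat.land (Nat.shiftRight (V (nat_lit 47)) (S (nat_lit 5))) (nat_lit 65535))) (Nat.shiftLeft (nat_lit 1) (Nat.land (Nat.shiftRight (V (nat_lit 47)) (S (nat_lit 9))) (nat_lit 65535)))))) (Nat.add (Nat.add (Nat.shiftLeft (nat_lit 1) (Nat.land (Nat.shiftRight (V (nat_lit 47)) (S (nat_lit 40))) (nat_lit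 65535))) (Nat.add (Nat.shiftLeft (nat_lit 1) (Nat.land (Nat.shiftRight (V (nat_lit 47)) (S (nat_lit 52))) (nat_lit 65535))) (Nat.shiftLeft (nat_lit 1) (Nat.land (Nat.shiftRight (V (nat_lit 48)) (S (nat_lit 27))) (nat_lit 65535))))) (Nat.add (Nat.shiftLeft (nat_lit 1) (Nat.land (Nat.shiftRight (V (nat_lit 48)) (S (nat_lit 43))) (nat_lit 65535))) (Nat.add (Nat.shiftLeft (nat_lit 1) (Nat.land (Nat.shiftRight (V (nat_lit 49)) (S (nat_lit 15))) (nat_lit 65535))) (Nat.shiftLeft (nat_lit 1) (Nat.land (Nat.shiftRight (V (nat_lit 49)) (S (nat_lit 40))) (nat_lit 65535))))))) (Nat.add (Nat.add (Nat.add (Nat.shiftLeft (nat_lit 1) (Nat.land (Nat.shiftRight (V (nat_lit 51)) (S (nat_lit 24))) (nat_lit 65535))) (Nat.add (Nat.shiftLeft (nat_lit 1) (Nat.land (Nat.shiftRight (V (nat_lit 51)) (S (nat_lit 40))) (nat_lit 65535))) (Nat.shiftLeft (nat_lit 1) (Nat.land (Nat.shiftRight (V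 (nat_lit 52)) (S (nat_lit 22))) (nat_lit 65535))))) (Nat.add (Nat.shiftLeft (nat_lit 1) (Nat.land (Nat.shiftRight (V (nat_lit 52)) (S (nat_lit 29))) (nat_lit 65535))) (Nat.add (Nat.shiftLeft (nat_lit 1) (Nat.land (Nat.shiftRight (V (nat_lit 52)) (S (nat_lit 37))) (nat_lit 65535))) (Nat.shiftLeft (nat_lit 1) (Nat.land (Nat.shiftRight (V (nat_lit 52)) (S (nat_lit 39))) (nat_lit 65535)))))) (Nat.add (Nat.add (Nat.shiftLeft (nat_lit 1) (Nat.land (Nat.shiftRight (V (nat_lit 52)) (S (nat_lit 41))) (nat_lit 65535))) (Nat.add (Nat.shiftLeft (nat_lit 1) (Nat.land (Nat.shiftRight (V (nat_lit 52)) (S (nat_lit 47))) (nat_lit 65535))) (Nat.shiftLeft (nat_lit 1) (Nat.land (Nat.shiftRight (V (nat_lit 52)) (S (nat_lit 53))) (nat_lit 65535))))) (Nat.add (Nat.shiftLeft (nat_lit 1) (Nat.land (Nat.shiftRight (V (nat_lit 52)) (S (nat_lit 59))) (nat_lit 65535))) (Nat.add (Nat.shiftLeft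 (nat_lit 1) (Nat.land (Nat.shiftRight (V (nat_lit 53)) (S (nat_lit 4))) (nat_lit 65535))) (Nat.shiftLeft (nat_lit 1) (Nat.land (Nat.shiftRight (V (nat_lit 53)) (S (nat_lit 6))) (nat_lit 65535)))))))) (Nat.add (Nat.add (Nat.add (Nat.add (Nat.shiftLeft (nat_lit 1) (Nat.land (Nat.shiftRight (V (nat_lit 53)) (S (nat_lit 40))) (nat_lit 65535))) (Nat.add (Nat.shiftLeft (nat_lit 1) (Nat.land (Nat.shiftRight (V (nat_lit 53)) (S (nat_lit 52))) (nat_lit 65535))) (Nat.shiftLeft (nat_lit 1) (Nat.land (Nat.shiftRight (V (nat_lit 54)) (S (nat_lit 12))) (nat_lit 65535))))) (Nat.add (Nat.shiftLeft (nat_lit 1) (Nat.land (Nat.shiftRight (V (nat_lit 54)) (S (nat_lit 43))) (nat_lit 65535))) (Nat.add (Nat.shiftLeft (nat_lit 1) (Nat.land (Nat.shiftRight (V (nat_lit 55)) (S (nat_lit 17))) (nat_lit 65535))) (Nat.shiftLeft (nat_lit 1) (Nat.land (Nat.shiftRight (V (nat_lit 55)) (S (nat_lit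 34))) (nat_lit 65535)))))) (Nat.add (Nat.add (Nat.shiftLeft (nat_lit 1) (Nat.land (Nat.shiftRight (V (nat_lit 55)) (S (nat_lit 36))) (nat_lit 65535))) (Nat.add (Nat.shiftLeft (nat_lit 1) (Nat.land (Nat.shiftRight (V (nat_lit 55)) (S (nat_lit 42))) (nat_lit 65535))) (Nat.shiftLeft (nat_lit 1) (Nat.land (Nat.shiftRight (V (nat_lit 55)) (S (nat_lit 44))) (nat_lit 65535))))) (Nat.add (Nat.shiftLeft (nat_lit 1) (Nat.land (Nat.shiftRight (V (nat_lit 55)) (S (nat_lit 46))) (nat_lit 65535))) (Nat.add (Nat.shiftLeft (nat_lit 1) (Nat.land (Nat.shiftRight (V (nat_lit 55)) (S (nat_lit 56))) (nat_lit 65535))) (Nat.shiftLeft (nat_lit 1) (Nat.land (Nat.shiftRight (V (nat_lit 55)) (S (nat_lit 58))) (nat_lit 65535))))))) (Nat.add (Nat.add (Nat.add (Nat.shiftLeft (nat_lit 1) (Nat.land (Nat.shiftRight (V (nat_lit 56)) (S (nat_lit 1))) (nat_lit 65535))) (Nat.add (Nat.shiftLeft (nat_lit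 1) (Nat.land (Nat.shiftRight (V (nat_lit 56)) (S (nat_lit 7))) (nat_lit 65535))) (Nat.shiftLeft (nat_lit 1) (Nat.land (Nat.shiftRight (V (nat_lit 56)) (S (nat_lit 43))) (nat_lit 65535))))) (Nat.add (Nat.shiftLeft (nat_lit 1) (Nat.land (Nat.shiftRight (V (nat_lit 56)) (S (nat_lit 55))) (nat_lit 65535))) (Nat.add (Nat.shiftLeft (nat_lit 1) (Nat.land (Nat.shiftRight (V (nat_lit 58)) (S (nat_lit 1))) (nat_lit 65535))) (Nat.shiftLeft (nat_lit 1) (Nat.land (Nat.shiftRight (V (nat_lit 58)) (S (nat_lit 7))) (nat_lit 65535)))))) (Nat.add (Nat.add (Nat.shiftLeft (nat_lit 1) (Nat.land (Nat.shiftRight (V (nat_lit 58)) (S (nat_lit 43))) (nat_lit 65535))) (Nat.add (Nat.shiftLeft (nat_lit 1) (Nat.land (Nat.shiftRight (V (nat_lit 58)) (S (nat_lit 55))) (nat_lit 65535))) (Nat.shiftLeft (nat_lit 1) (Nat.land (Nat.shiftRight (V (nat_lit 59)) (S (nat_lit 4))) (nat_lit 65535))))) (Nat.add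 (Nat.shiftLeft (nat_lit 1) (Nat.land (Nat.shiftRight (V (nat_lit 59)) (S (nat_lit 6))) (nat_lit 65535))) (Nat.add (Nat.shiftLeft (nat_lit 1) (Nat.land (Nat.shiftRight (V (nat_lit 59)) (S (nat_lit 40))) (nat_lit 65535))) (Nat.shiftLeft (nat_lit 1) (Nat.land (Nat.shiftRight (V (nat_lit 59)) (S (nat_lit 52))) (nat_lit 65535))))))))))
def E79_1 (V S : ℕ → ℕ) : ℕ := Nat.add (Nat.add (Nat.add (Nat.add (Nat.add (Nat.add (Nat.add (Nat.shiftLeft (nat_lit 1) (Nat.land (Nat.shiftRight (V (nat_lit 1)) (S (nat_lit 15))) (nat_lit 65535))) (Nat.shiftLeft (nat_lit 1) (Nat.land (Nat.shiftRight (V (nat_lit 1)) (S (nat_lit 24))) (nat_lit 65535)))) (Nat.add (Nat.shiftLeft (nat_lit 1) (Nat.land (Nat.shiftRight (V (nat_lit 1)) (S (nat_lit 43))) (nat_lit 65535))) (Nat.shiftLeft (nat_lit 1) (Nat.land (Nat.shiftRight (V (nat_lit 1)) (S (nat_lit 55))) (nat_lit 65535))))) (Nat.add (Nat.add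 (Nat.shiftLeft (nat_lit 1) (Nat.land (Nat.shiftRight (V (nat_lit 2)) (S (nat_lit 15))) (nat_lit 65535))) (Nat.shiftLeft (nat_lit 1) (Nat.land (Nat.shiftRight (V (nat_lit 2)) (S (nat_lit 24))) (nat_lit 65535)))) (Nat.add (Nat.shiftLeft (nat_lit 1) (Nat.land (Nat.shiftRight (V (nat_lit 2)) (S (nat_lit 43))) (nat_lit 65535))) (Nat.shiftLeft (nat_lit 1) (Nat.land (Nat.shiftRight (V (nat_lit 2)) (S (nat_lit 55))) (nat_lit 65535)))))) (Nat.add (Nat.add (Nat.add (Nat.shiftLeft (nat_lit 1) (Nat.land (Nat.shiftRight (V (nat_lit 4)) (S (nat_lit 12))) (nat_lit 65535))) (Nat.shiftLeft (nat_lit 1) (Nat.land (Nat.shiftRight (V (nat_lit 4)) (S (nat_lit 27))) (nat_lit 65535)))) (Nat.add (Nat.shiftLeft (nat_lit 1) (Nat.land (Nat.shiftRight (V (nat_lit 4)) (S (nat_lit 40))) (nat_lit 65535))) (Nat.shiftLeft (nat_lit 1) (Nat.land (Nat.shiftRight (V (nat_lit 4)) (S (nat_lit 52))) (nat_lit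 65535))))) (Nat.add (Nat.add (Nat.shiftLeft (nat_lit 1) (Nat.land (Nat.shiftRight (V (nat_lit 5)) (S (nat_lit 12))) (nat_lit 65535))) (Nat.shiftLeft (nat_lit 1) (Nat.land (Nat.shiftRight (V (nat_lit 5)) (S (nat_lit 27))) (nat_lit 65535)))) (Nat.add (Nat.shiftLeft (nat_lit 1) (Nat.land (Nat.shiftRight (V (nat_lit 5)) (S (nat_lit 40))) (nat_lit 65535))) (Nat.shiftLeft (nat_lit 1) (Nat.land (Nat.shiftRight (V (nat_lit 5)) (S (nat_lit 52))) (nat_lit 65535))))))) (Nat.add (Nat.add (Nat.add (Nat.add (Nat.shiftLeft (nat_lit 1) (Nat.land (Nat.shiftRight (V (nat_lit 6)) (S (nat_lit 12))) (nat_lit 65535))) (Nat.shiftLeft (nat_lit 1) (Nat.land (Nat.shiftRight (V (nat_lit 6)) (S (nat_lit 27))) (nat_lit 65535)))) (Nat.add (Nat.shiftLeft (nat_lit 1) (Nat.land (Nat.shiftRight (V (nat_lit 6)) (S (nat_lit 40))) (nat_lit 65535))) (Nat.shiftLeft (nat_lit 1) (Nat.land (Nat.shiftRight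 (V (nat_lit 6)) (S (nat_lit 52))) (nat_lit 65535))))) (Nat.add (Nat.add (Nat.shiftLeft (nat_lit 1) (Nat.land (Nat.shiftRight (V (nat_lit 7)) (S (nat_lit 15))) (nat_lit 65535))) (Nat.shiftLeft (nat_lit 1) (Nat.land (Nat.shiftRight (V (nat_lit 7)) (S (nat_lit 24))) (nat_lit 65535)))) (Nat.add (Nat.shiftLeft (nat_lit 1) (Nat.land (Nat.shiftRight (V (nat_lit 7)) (S (nat_lit 43))) (nat_lit 65535))) (Nat.shiftLeft (nat_lit 1) (Nat.land (Nat.shiftRight (V (nat_lit 7)) (S (nat_lit 55))) (nat_lit 65535)))))) (Nat.add (Nat.add (Nat.add (Nat.shiftLeft (nat_lit 1) (Nat.land (Nat.shiftRight (V (nat_lit 9)) (S (nat_lit 12))) (nat_lit 65535))) (Nat.shiftLeft (nat_lit 1) (Nat.land (Nat.shiftRight (V (nat_lit 9)) (S (nat_lit 27))) (nat_lit 65535)))) (Nat.add (Nat.shiftLeft (nat_lit 1) (Nat.land (Nat.shiftRight (V (nat_lit 9)) (S (nat_lit 40))) (nat_lit 65535))) (Nat.shiftLeft (nat_lit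 1) (Nat.land (Nat.shiftRight (V (nat_lit 9)) (S (nat_lit 52))) (nat_lit 65535))))) (Nat.add (Nat.add (Nat.shiftLeft (nat_lit 1) (Nat.land (Nat.shiftRight (V (nat_lit 10)) (S (nat_lit 15))) (nat_lit 65535))) (Nat.shiftLeft (nat_lit 1) (Nat.land (Nat.shiftRight (V (nat_lit 10)) (S (nat_lit 24))) (nat_lit 65535)))) (Nat.add (Nat.shiftLeft (nat_lit 1) (Nat.land (Nat.shiftRight (V (nat_lit 10)) (S (nat_lit 43))) (nat_lit 65535))) (Nat.shiftLeft (nat_lit 1) (Nat.land (Nat.shiftRight (V (nat_lit 10)) (S (nat_lit 55))) (nat_lit 65535)))))))) (Nat.add (Nat.add (Nat.add (Nat.add (Nat.add (Nat.shiftLeft (nat_lit 1) (Nat.land (Nat.shiftRight (V (nat_lit 12)) (S (nat_lit 4))) (nat_lit 65535))) (Nat.shiftLeft (nat_lit 1) (Nat.land (Nat.shiftRight (V (nat_lit 12)) (S (nat_lit 5))) (nat_lit 65535)))) (Nat.add (Nat.shiftLeft (nat_lit 1) (Nat.land (Nat.shiftRight (V (nat_lit 12)) (S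 (nat_lit 6))) (nat_lit 65535))) (Nat.shiftLeft (nat_lit 1) (Nat.land (Nat.shiftRight (V (nat_lit 12)) (S (nat_lit 9))) (nat_lit 65535))))) (Nat.add (Nat.add (Nat.shiftLeft (nat_lit 1) (Nat.land (Nat.shiftRight (V (nat_lit 12)) (S (nat_lit 19))) (nat_lit 65535))) (Nat.shiftLeft (nat_lit 1) (Nat.land (Nat.shiftRight (V (nat_lit 12)) (S (nat_lit 22))) (nat_lit 65535)))) (Nat.add (Nat.shiftLeft (nat_lit 1) (Nat.land (Nat.shiftRight (V (nat_lit 12)) (S (nat_lit 37))) (nat_lit 65535))) (Nat.shiftLeft (nat_lit 1) (Nat.land (Nat.shiftRight (V (nat_lit 12)) (S (nat_lit 49))) (nat_lit 65535)))))) (Nat.add (Nat.add (Nat.add (Nat.shiftLeft (nat_lit 1) (Nat.land (Nat.shiftRight (V (nat_lit 15)) (S (nat_lit 1))) (nat_lit 65535))) (Nat.shiftLeft (nat_lit 1) (Nat.land (Nat.shiftRight (V (nat_lit 15)) (S (nat_lit 2))) (nat_lit 65535)))) (Nat.add (Nat.shiftLeft (nat_lit 1) (Nat.land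 (Nat.shiftRight (V (nat_lit 15)) (S (nat_lit 7))) (nat_lit 65535))) (Nat.shiftLeft (nat_lit 1) (Nat.land (Nat.shiftRight (V (nat_lit 15)) (S (nat_lit 10))) (nat_lit 65535))))) (Nat.add (Nat.add (Nat.shiftLeft (nat_lit 1) (Nat.land (Nat.shiftRight (V (nat_lit 15)) (S (nat_lit 16))) (nat_lit 65535))) (Nat.shiftLeft (nat_lit 1) (Nat.land (Nat.shiftRight (V (nat_lit 15)) (S (nat_lit 17))) (nat_lit 65535)))) (Nat.add (Nat.shiftLeft (nat_lit 1) (Nat.land (Nat.shiftRight (V (nat_lit 15)) (S (nat_lit 42))) (nat_lit 65535))) (Nat.shiftLeft (nat_lit 1) (Nat.land (Nat.shiftRight (V (nat_lit 15)) (S (nat_lit 54))) (nat_lit 65535))))))) (Nat.add (Nat.add (Nat.add (Nat.add (Nat.shiftLeft (nat_lit 1) (Nat.land (Nat.shiftRight (V (nat_lit 16)) (S (nat_lit 15))) (nat_lit 65535))) (Nat.shiftLeft (nat_lit 1) (Nat.land (Nat.shiftRight (V (nat_lit 16)) (S (nat_lit 40))) (nat_lit 65535))))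 (Nat.add (Nat.shiftLeft (nat_lit 1) (Nat.land (Nat.shiftRight (V (nat_lit 17)) (S (nat_lit 15))) (nat_lit 65535))) (Nat.shiftLeft (nat_lit 1) (Nat.land (Nat.shiftRight (V (nat_lit 17)) (S (nat_lit 52))) (nat_lit 65535))))) (Nat.add (Nat.add (Nat.shiftLeft (nat_lit 1) (Nat.land (Nat.shiftRight (V (nat_lit 19)) (S (nat_lit 12))) (nat_lit 65535))) (Nat.shiftLeft (nat_lit 1) (Nat.land (Nat.shiftRight (V (nat_lit 19)) (S (nat_lit 43))) (nat_lit 65535)))) (Nat.add (Nat.shiftLeft (nat_lit 1) (Nat.land (Nat.shiftRight (V (nat_lit 22)) (S (nat_lit 12))) (nat_lit 65535))) (Nat.shiftLeft (nat_lit 1) (Nat.land (Nat.shiftRight (V (nat_lit 22)) (S (nat_lit 55))) (nat_lit 65535)))))) (Nat.add (Nat.add (Nat.add (Nat.shiftLeft (nat_lit 1) (Nat.land (Nat.shiftRight (V (nat_lit 24)) (S (nat_lit 1))) (nat_lit 65535))) (Nat.shiftLeft (nat_lit 1) (Nat.land (Nat.shiftRight (V (nat_lit 24))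 (S (nat_lit 2))) (nat_lit 65535)))) (Nat.add (Nat.shiftLeft (nat_lit 1) (Nat.land (Nat.shiftRight (V (nat_lit 24)) (S (nat_lit 7))) (nat_lit 65535))) (Nat.shiftLeft (nat_lit 1) (Nat.land (Nat.shiftRight (V (nat_lit 24)) (S (nat_lit 10))) (nat_lit 65535))))) (Nat.add (Nat.add (Nat.shiftLeft (nat_lit 1) (Nat.land (Nat.shiftRight (V (nat_lit 24)) (S (nat_lit 31))) (nat_lit 65535))) (Nat.shiftLeft (nat_lit 1) (Nat.land (Nat.shiftRight (V (nat_lit 24)) (S (nat_lit 34))) (nat_lit 65535)))) (Nat.add (Nat.shiftLeft (nat_lit 1) (Nat.land (Nat.shiftRight (V (nat_lit 24)) (S (nat_lit 36))) (nat_lit 65535))) (Nat.shiftLeft (nat_lit 1) (Nat.land (Nat.shiftRight (V (nat_lit 24)) (S (nat_lit 48))) (nat_lit 65535))))))))) (Nat.add (Nat.add (Nat.add (Nat.add (Nat.add (Nat.add (Nat.shiftLeft (nat_lit 1) (Nat.land (Nat.shiftRight (V (nat_lit 27)) (S (nat_lit 4))) (nat_lit 65535))) (Nat.shiftLeft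 (nat_lit 1) (Nat.land (Nat.shiftRight (V (nat_lit 27)) (S (nat_lit 5))) (nat_lit 65535)))) (Nat.add (Nat.shiftLeft (nat_lit 1) (Nat.land (Nat.shiftRight (V (nat_lit 27)) (S (nat_lit 6))) (nat_lit 65535))) (Nat.shiftLeft (nat_lit 1) (Nat.land (Nat.shiftRight (V (nat_lit 27)) (S (nat_lit 9))) (nat_lit 65535))))) (Nat.add (Nat.add (Nat.shiftLeft (nat_lit 1) (Nat.land (Nat.shiftRight (V (nat_lit 27)) (S (nat_lit 28))) (nat_lit 65535))) (Nat.shiftLeft (nat_lit 1) (Nat.land (Nat.shiftRight (V (nat_lit 27)) (S (nat_lit 29))) (nat_lit 65535)))) (Nat.add (Nat.shiftLeft (nat_lit 1) (Nat.land (Nat.shiftRight (V (nat_lit 27)) (S (nat_lit 39))) (nat_lit 65535))) (Nat.shiftLeft (nat_lit 1) (Nat.land (Nat.shiftRight (V (nat_lit 27)) (S (nat_lit 51))) (nat_lit 65535)))))) (Nat.add (Nat.add (Nat.add (Nat.shiftLeft (nat_lit 1) (Nat.land (Nat.shiftRight (V (nat_lit 28)) (S (nat_lit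 27))) (nat_lit 65535))) (Nat.shiftLeft (nat_lit 1) (Nat.land (Nat.shiftRight (V (nat_lit 28)) (S (nat_lit 43))) (nat_lit 65535)))) (Nat.add (Nat.shiftLeft (nat_lit 1) (Nat.land (Nat.shiftRight (V (nat_lit 29)) (S (nat_lit 27))) (nat_lit 65535))) (Nat.shiftLeft (nat_lit 1) (Nat.land (Nat.shiftRight (V (nat_lit 29)) (S (nat_lit 55))) (nat_lit 65535))))) (Nat.add (Nat.add (Nat.shiftLeft (nat_lit 1) (Nat.land (Nat.shiftRight (V (nat_lit 31)) (S (nat_lit 24))) (nat_lit 65535))) (Nat.shiftLeft (nat_lit 1) (Nat.land (Nat.shiftRight (V (nat_lit 31)) (S (nat_lit 40))) (nat_lit 65535)))) (Nat.add (Nat.shiftLeft (nat_lit 1) (Nat.land (Nat.shiftRight (V (nat_lit 34)) (S (nat_lit 24))) (nat_lit 65535))) (Nat.shiftLeft (nat_lit 1) (Nat.land (Nat.shiftRight (V (nat_lit 34)) (S (nat_lit 52))) (nat_lit 65535))))))) (Nat.add (Nat.add (Nat.add (Nat.add (Nat.shiftLeft (nat_lit 1) (Nat.land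 (Nat.shiftRight (V (nat_lit 36)) (S (nat_lit 24))) (nat_lit 65535))) (Nat.shiftLeft (nat_lit 1) (Nat.land (Nat.shiftRight (V (nat_lit 36)) (S (nat_lit 40))) (nat_lit 65535)))) (Nat.add (Nat.shiftLeft (nat_lit 1) (Nat.land (Nat.shiftRight (V (nat_lit 37)) (S (nat_lit 12))) (nat_lit 65535))) (Nat.shiftLeft (nat_lit 1) (Nat.land (Nat.shiftRight (V (nat_lit 37)) (S (nat_lit 43))) (nat_lit 65535))))) (Nat.add (Nat.add (Nat.shiftLeft (nat_lit 1) (Nat.land (Nat.shiftRight (V (nat_lit 39)) (S (nat_lit 27))) (nat_lit 65535))) (Nat.shiftLeft (nat_lit 1) (Nat.land (Nat.shiftRight (V (nat_lit 39)) (S (nat_lit 43))) (nat_lit 65535)))) (Nat.add (Nat.shiftLeft (nat_lit 1) (Nat.land (Nat.shiftRight (V (nat_lit 40)) (S (nat_lit 4))) (nat_lit 65535))) (Nat.shiftLeft (nat_lit 1) (Nat.land (Nat.shiftRight (V (nat_lit 40)) (S (nat_lit 5))) (nat_lit 65535)))))) (Nat.add (Nat.add (Nat.add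 (Nat.shiftLeft (nat_lit 1) (Nat.land (Nat.shiftRight (V (nat_lit 40)) (S (nat_lit 6))) (nat_lit 65535))) (Nat.shiftLeft (nat_lit 1) (Nat.land (Nat.shiftRight (V (nat_lit 40)) (S (nat_lit 9))) (nat_lit 65535)))) (Nat.add (Nat.shiftLeft (nat_lit 1) (Nat.land (Nat.shiftRight (V (nat_lit 40)) (S (nat_lit 16))) (nat_lit 65535))) (Nat.shiftLeft (nat_lit 1) (Nat.land (Nat.shiftRight (V (nat_lit 40)) (S (nat_lit 31))) (nat_lit 65535))))) (Nat.add (Nat.add (Nat.shiftLeft (nat_lit 1) (Nat.land (Nat.shiftRight (V (nat_lit 40)) (S (nat_lit 36))) (nat_lit 65535))) (Nat.shiftLeft (nat_lit 1) (Nat.land (Nat.shiftRight (V (nat_lit 40)) (S (nat_lit 42))) (nat_lit 65535)))) (Nat.add (Nat.shiftLeft (nat_lit 1) (Nat.land (Nat.shiftRight (V (nat_lit 42)) (S (nat_lit 15))) (nat_lit 65535))) (Nat.shiftLeft (nat_lit 1) (Nat.land (Nat.shiftRight (V (nat_lit 42)) (S (nat_lit 40))) (nat_lit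 65535)))))))) (Nat.add (Nat.add (Nat.add (Nat.add (Nat.add (Nat.shiftLeft (nat_lit 1) (Nat.land (Nat.shiftRight (V (nat_lit 43)) (S (nat_lit 1))) (nat_lit 65535))) (Nat.shiftLeft (nat_lit 1) (Nat.land (Nat.shiftRight (V (nat_lit 43)) (S (nat_lit 2))) (nat_lit 65535)))) (Nat.add (Nat.shiftLeft (nat_lit 1) (Nat.land (Nat.shiftRight (V (nat_lit 43)) (S (nat_lit 7))) (nat_lit 65535))) (Nat.shiftLeft (nat_lit 1) (Nat.land (Nat.shiftRight (V (nat_lit 43)) (S (nat_lit 10))) (nat_lit 65535))))) (Nat.add (Nat.add (Nat.shiftLeft (nat_lit 1) (Nat.land (Nat.shiftRight (V (nat_lit 43)) (S (nat_lit 19))) (nat_lit 65535))) (Nat.shiftLeft (nat_lit 1) (Nat.land (Nat.shiftRight (V (nat_lit 43)) (S (nat_lit 28))) (nat_lit 65535)))) (Nat.add (Nat.shiftLeft (nat_lit 1) (Nat.land (Nat.shiftRight (V (nat_lit 43)) (S (nat_lit 37))) (nat_lit 65535))) (Nat.shiftLeft (nat_lit 1) (Nat.land (Nat.shiftRight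 (V (nat_lit 43)) (S (nat_lit 39))) (nat_lit 65535)))))) (Nat.add (Nat.add (Nat.add (Nat.shiftLeft (nat_lit 1) (Nat.land (Nat.shiftRight (V (nat_lit 48)) (S (nat_lit 24))) (nat_lit 65535))) (Nat.shiftLeft (nat_lit 1) (Nat.land (Nat.shiftRight (V (nat_lit 48)) (S (nat_lit 52))) (nat_lit 65535)))) (Nat.add (Nat.shiftLeft (nat_lit 1) (Nat.land (Nat.shiftRight (V (nat_lit 49)) (S (nat_lit 12))) (nat_lit 65535))) (Nat.shiftLeft (nat_lit 1) (Nat.land (Nat.shiftRight (V (nat_lit 49)) (S (nat_lit 55))) (nat_lit 65535))))) (Nat.add (Nat.add (Nat.shiftLeft (nat_lit 1) (Nat.land (Nat.shiftRight (V (nat_lit 51)) (S (nat_lit 27))) (nat_lit 65535))) (Nat.shiftLeft (nat_lit 1) (Nat.land (Nat.shiftRight (V (nat_lit 51)) (S (nat_lit 55))) (nat_lit 65535)))) (Nat.add (Nat.shiftLeft (nat_lit 1) (Nat.land (Nat.shiftRight (V (nat_lit 52)) (S (nat_lit 4))) (nat_lit 65535))) (Nat.shiftLeft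 (nat_lit 1) (Nat.land (Nat.shiftRight (V (nat_lit 52)) (S (nat_lit 5))) (nat_lit 65535))))))) (Nat.add (Nat.add (Nat.add (Nat.add (Nat.shiftLeft (nat_lit 1) (Nat.land (Nat.shiftRight (V (nat_lit 52)) (S (nat_lit 6))) (nat_lit 65535))) (Nat.shiftLeft (nat_lit 1) (Nat.land (Nat.shiftRight (V (nat_lit 52)) (S (nat_lit 9))) (nat_lit 65535)))) (Nat.add (Nat.shiftLeft (nat_lit 1) (Nat.land (Nat.shiftRight (V (nat_lit 52)) (S (nat_lit 17))) (nat_lit 65535))) (Nat.shiftLeft (nat_lit 1) (Nat.land (Nat.shiftRight (V (nat_lit 52)) (S (nat_lit 34))) (nat_lit 65535))))) (Nat.add (Nat.add (Nat.shiftLeft (nat_lit 1) (Nat.land (Nat.shiftRight (V (nat_lit 52)) (S (nat_lit 48))) (nat_lit 65535))) (Nat.shiftLeft (nat_lit 1) (Nat.land (Nat.shiftRight (V (nat_lit 52)) (S (nat_lit 54))) (nat_lit 65535)))) (Nat.add (Nat.shiftLeft (nat_lit 1) (Nat.land (Nat.shiftRight (V (nat_lit 54)) (S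 (nat_lit 15))) (nat_lit 65535))) (Nat.shiftLeft (nat_lit 1) (Nat.land (Nat.shiftRight (V (nat_lit 54)) (S (nat_lit 52))) (nat_lit 65535)))))) (Nat.add (Nat.add (Nat.add (Nat.shiftLeft (nat_lit 1) (Nat.land (Nat.shiftRight (V (nat_lit 55)) (S (nat_lit 1))) (nat_lit 65535))) (Nat.shiftLeft (nat_lit 1) (Nat.land (Nat.shiftRight (V (nat_lit 55)) (S (nat_lit 2))) (nat_lit 65535)))) (Nat.add (Nat.shiftLeft (nat_lit 1) (Nat.land (Nat.shiftRight (V (nat_lit 55)) (S (nat_lit 7))) (nat_lit 65535))) (Nat.shiftLeft (nat_lit 1) (Nat.land (Nat.shiftRight (V (nat_lit 55)) (S (nat_lit 10))) (nat_lit 65535))))) (Nat.add (Nat.add (Nat.shiftLeft (nat_lit 1) (Nat.land (Nat.shiftRight (V (nat_lit 55)) (S (nat_lit 22))) (nat_lit 65535))) (Nat.shiftLeft (nat_lit 1) (Nat.land (Nat.shiftRight (V (nat_lit 55)) (S (nat_lit 29))) (nat_lit 65535)))) (Nat.add (Nat.shiftLeft (nat_lit 1) (Nat.land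 (Nat.shiftRight (V (nat_lit 55)) (S (nat_lit 49))) (nat_lit 65535))) (Nat.shiftLeft (nat_lit 1) (Nat.land (Nat.shiftRight (V (nat_lit 55)) (S (nat_lit 51))) (nat_lit 65535)))))))))
def E80_1 (V S : ℕ → ℕ) : ℕ := Nat.add (Nat.add (Nat.add (Nat.add (Nat.add (Nat.add (Nat.shiftLeft (nat_lit 1) (Nat.land (Nat.shiftRight (V (nat_lit 1)) (S (nat_lit 16))) (nat_lit 65535))) (Nat.shiftLeft (nat_lit 1) (Nat.land (Nat.shiftRight (V (nat_lit 1)) (S (nat_lit 28))) (nat_lit 65535)))) (Nat.add (Nat.shiftLeft (nat_lit 1) (Nat.land (Nat.shiftRight (V (nat_lit 1)) (S (nat_lit 36))) (nat_lit 65535))) (Nat.shiftLeft (nat_lit 1) (Nat.land (Nat.shiftRight (V (nat_lit 1)) (S (nat_lit 51))) (nat_lit 65535))))) (Nat.add (Nat.add (Nat.shiftLeft (nat_lit 1) (Nat.land (Nat.shiftRight (V (nat_lit 2)) (S (nat_lit 17))) (nat_lit 65535))) (Nat.shiftLeft (nat_lit 1) (Nat.land (Nat.shiftRight (V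 (nat_lit 2)) (S (nat_lit 29))) (nat_lit 65535)))) (Nat.add (Nat.shiftLeft (nat_lit 1) (Nat.land (Nat.shiftRight (V (nat_lit 2)) (S (nat_lit 39))) (nat_lit 65535))) (Nat.shiftLeft (nat_lit 1) (Nat.land (Nat.shiftRight (V (nat_lit 2)) (S (nat_lit 48))) (nat_lit 65535)))))) (Nat.add (Nat.add (Nat.add (Nat.shiftLeft (nat_lit 1) (Nat.land (Nat.shiftRight (V (nat_lit 4)) (S (nat_lit 16))) (nat_lit 65535))) (Nat.shiftLeft (nat_lit 1) (Nat.land (Nat.shiftRight (V (nat_lit 4)) (S (nat_lit 28))) (nat_lit 65535)))) (Nat.add (Nat.shiftLeft (nat_lit 1) (Nat.land (Nat.shiftRight (V (nat_lit 4)) (S (nat_lit 37))) (nat_lit 65535))) (Nat.shiftLeft (nat_lit 1) (Nat.land (Nat.shiftRight (V (nat_lit 4)) (S (nat_lit 54))) (nat_lit 65535))))) (Nat.add (Nat.add (Nat.shiftLeft (nat_lit 1) (Nat.land (Nat.shiftRight (V (nat_lit 5)) (S (nat_lit 17))) (nat_lit 65535))) (Nat.shiftLeft (nat_lit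 1) (Nat.land (Nat.shiftRight (V (nat_lit 5)) (S (nat_lit 29))) (nat_lit 65535)))) (Nat.add (Nat.shiftLeft (nat_lit 1) (Nat.land (Nat.shiftRight (V (nat_lit 5)) (S (nat_lit 42))) (nat_lit 65535))) (Nat.shiftLeft (nat_lit 1) (Nat.land (Nat.shiftRight (V (nat_lit 5)) (S (nat_lit 49))) (nat_lit 65535))))))) (Nat.add (Nat.add (Nat.add (Nat.add (Nat.shiftLeft (nat_lit 1) (Nat.land (Nat.shiftRight (V (nat_lit 6)) (S (nat_lit 19))) (nat_lit 65535))) (Nat.shiftLeft (nat_lit 1) (Nat.land (Nat.shiftRight (V (nat_lit 6)) (S (nat_lit 31))) (nat_lit 65535)))) (Nat.add (Nat.shiftLeft (nat_lit 1) (Nat.land (Nat.shiftRight (V (nat_lit 6)) (S (nat_lit 39))) (nat_lit 65535))) (Nat.shiftLeft (nat_lit 1) (Nat.land (Nat.shiftRight (V (nat_lit 6)) (S (nat_lit 48))) (nat_lit 65535))))) (Nat.add (Nat.add (Nat.shiftLeft (nat_lit 1) (Nat.land (Nat.shiftRight (V (nat_lit 7)) (S (nat_lit 19)))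 (nat_lit 65535))) (Nat.shiftLeft (nat_lit 1) (Nat.land (Nat.shiftRight (V (nat_lit 7)) (S (nat_lit 31))) (nat_lit 65535)))) (Nat.add (Nat.shiftLeft (nat_lit 1) (Nat.land (Nat.shiftRight (V (nat_lit 7)) (S (nat_lit 42))) (nat_lit 65535))) (Nat.shiftLeft (nat_lit 1) (Nat.land (Nat.shiftRight (V (nat_lit 7)) (S (nat_lit 49))) (nat_lit 65535)))))) (Nat.add (Nat.add (Nat.add (Nat.shiftLeft (nat_lit 1) (Nat.land (Nat.shiftRight (V (nat_lit 9)) (S (nat_lit 22))) (nat_lit 65535))) (Nat.shiftLeft (nat_lit 1) (Nat.land (Nat.shiftRight (V (nat_lit 9)) (S (nat_lit 34))) (nat_lit 65535)))) (Nat.add (Nat.shiftLeft (nat_lit 1) (Nat.land (Nat.shiftRight (V (nat_lit 9)) (S (nat_lit 36))) (nat_lit 65535))) (Nat.shiftLeft (nat_lit 1) (Nat.land (Nat.shiftRight (V (nat_lit 9)) (S (nat_lit 51))) (nat_lit 65535))))) (Nat.add (Nat.add (Nat.shiftLeft (nat_lit 1) (Nat.land (Nat.shiftRight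 (V (nat_lit 10)) (S (nat_lit 22))) (nat_lit 65535))) (Nat.shiftLeft (nat_lit 1) (Nat.land (Nat.shiftRight (V (nat_lit 10)) (S (nat_lit 34))) (nat_lit 65535)))) (Nat.add (Nat.shiftLeft (nat_lit 1) (Nat.land (Nat.shiftRight (V (nat_lit 10)) (S (nat_lit 37))) (nat_lit 65535))) (Nat.shiftLeft (nat_lit 1) (Nat.land (Nat.shiftRight (V (nat_lit 10)) (S (nat_lit 54))) (nat_lit 65535)))))))) (Nat.add (Nat.add (Nat.add (Nat.add (Nat.add (Nat.shiftLeft (nat_lit 1) (Nat.land (Nat.shiftRight (V (nat_lit 16)) (S (nat_lit 1))) (nat_lit 65535))) (Nat.shiftLeft (nat_lit 1) (Nat.land (Nat.shiftRight (V (nat_lit 16)) (S (nat_lit 4))) (nat_lit 65535)))) (Nat.add (Nat.shiftLeft (nat_lit 1) (Nat.land (Nat.shiftRight (V (nat_lit 17)) (S (nat_lit 2))) (nat_lit 65535))) (Nat.shiftLeft (nat_lit 1) (Nat.land (Nat.shiftRight (V (nat_lit 17)) (S (nat_lit 5))) (nat_lit 65535))))) (Nat.add (Nat.add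 (Nat.shiftLeft (nat_lit 1) (Nat.land (Nat.shiftRight (V (nat_lit 19)) (S (nat_lit 6))) (nat_lit 65535))) (Nat.shiftLeft (nat_lit 1) (Nat.land (Nat.shiftRight (V (nat_lit 19)) (S (nat_lit 7))) (nat_lit 65535)))) (Nat.add (Nat.shiftLeft (nat_lit 1) (Nat.land (Nat.shiftRight (V (nat_lit 22)) (S (nat_lit 9))) (nat_lit 65535))) (Nat.shiftLeft (nat_lit 1) (Nat.land (Nat.shiftRight (V (nat_lit 22)) (S (nat_lit 10))) (nat_lit 65535)))))) (Nat.add (Nat.add (Nat.add (Nat.shiftLeft (nat_lit 1) (Nat.land (Nat.shiftRight (V (nat_lit 28)) (S (nat_lit 1))) (nat_lit 65535))) (Nat.shiftLeft (nat_lit 1) (Nat.land (Nat.shiftRight (V (nat_lit 28)) (S (nat_lit 4))) (nat_lit 65535)))) (Nat.add (Nat.shiftLeft (nat_lit 1) (Nat.land (Nat.shiftRight (V (nat_lit 29)) (S (nat_lit 2))) (nat_lit 65535))) (Nat.shiftLeft (nat_lit 1) (Nat.land (Nat.shiftRight (V (nat_lit 29)) (S (nat_lit 5))) (nat_lit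 65535))))) (Nat.add (Nat.add (Nat.shiftLeft (nat_lit 1) (Nat.land (Nat.shiftRight (V (nat_lit 31)) (S (nat_lit 6))) (nat_lit 65535))) (Nat.shiftLeft (nat_lit 1) (Nat.land (Nat.shiftRight (V (nat_lit 31)) (S (nat_lit 7))) (nat_lit 65535)))) (Nat.add (Nat.shiftLeft (nat_lit 1) (Nat.land (Nat.shiftRight (V (nat_lit 34)) (S (nat_lit 9))) (nat_lit 65535))) (Nat.shiftLeft (nat_lit 1) (Nat.land (Nat.shiftRight (V (nat_lit 34)) (S (nat_lit 10))) (nat_lit 65535))))))) (Nat.add (Nat.add (Nat.add (Nat.add (Nat.shiftLeft (nat_lit 1) (Nat.land (Nat.shiftRight (V (nat_lit 36)) (S (nat_lit 1))) (nat_lit 65535))) (Nat.shiftLeft (nat_lit 1) (Nat.land (Nat.shiftRight (V (nat_lit 36)) (S (nat_lit 9))) (nat_lit 65535)))) (Nat.add (Nat.shiftLeft (nat_lit 1) (Nat.land (Nat.shiftRight (V (nat_lit 37)) (S (nat_lit 4))) (nat_lit 65535))) (Nat.shiftLeft (nat_lit 1) (Nat.land (Nat.shiftRight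 (V (nat_lit 37)) (S (nat_lit 10))) (nat_lit 65535))))) (Nat.add (Nat.add (Nat.shiftLeft (nat_lit 1) (Nat.land (Nat.shiftRight (V (nat_lit 39)) (S (nat_lit 2))) (nat_lit 65535))) (Nat.shiftLeft (nat_lit 1) (Nat.land (Nat.shiftRight (V (nat_lit 39)) (S (nat_lit 6))) (nat_lit 65535)))) (Nat.add (Nat.shiftLeft (nat_lit 1) (Nat.land (Nat.shiftRight (V (nat_lit 42)) (S (nat_lit 5))) (nat_lit 65535))) (Nat.shiftLeft (nat_lit 1) (Nat.land (Nat.shiftRight (V (nat_lit 42)) (S (nat_lit 7))) (nat_lit 65535)))))) (Nat.add (Nat.add (Nat.add (Nat.shiftLeft (nat_lit 1) (Nat.land (Nat.shiftRight (V (nat_lit 48)) (S (nat_lit 2))) (nat_lit 65535))) (Nat.shiftLeft (nat_lit 1) (Nat.land (Nat.shiftRight (V (nat_lit 48)) (S (nat_lit 6))) (nat_lit 65535)))) (Nat.add (Nat.shiftLeft (nat_lit 1) (Nat.land (Nat.shiftRight (V (nat_lit 49)) (S (nat_lit 5))) (nat_lit 65535))) (Nat.shiftLeft (nat_lit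 1) (Nat.land (Nat.shiftRight (V (nat_lit 49)) (S (nat_lit 7))) (nat_lit 65535))))) (Nat.add (Nat.add (Nat.shiftLeft (nat_lit 1) (Nat.land (Nat.shiftRight (V (nat_lit 51)) (S (nat_lit 1))) (nat_lit 65535))) (Nat.shiftLeft (nat_lit 1) (Nat.land (Nat.shiftRight (V (nat_lit 51)) (S (nat_lit 9))) (nat_lit 65535)))) (Nat.add (Nat.shiftLeft (nat_lit 1) (Nat.land (Nat.shiftRight (V (nat_lit 54)) (S (nat_lit 4))) (nat_lit 65535))) (Nat.shiftLeft (nat_lit 1) (Nat.land (Nat.shiftRight (V (nat_lit 54)) (S (nat_lit 10))) (nat_lit 65535))))))))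
def E81_1 (V S : ℕ → ℕ) : ℕ := Nat.add (Nat.add (Nat.add (Nat.add (Nat.add (Nat.add (Nat.shiftLeft (nat_lit 1) (Nat.land (Nat.shiftRight (V (nat_lit 1)) (S (nat_lit 17))) (nat_lit 65535))) (Nat.shiftLeft (nat_lit 1) (Nat.land (Nat.shiftRight (V (nat_lit 1)) (S (nat_lit 19))) (nat_lit 65535)))) (Nat.add (Nat.shiftLeft (nat_lit 1) (Nat.land (Nat.shiftRight (V (nat_lit 1)) (S (nat_lit 48))) (nat_lit 65535))) (Nat.shiftLeft (nat_lit 1) (Nat.land (Nat.shiftRight (V (nat_lit 1)) (S (nat_lit 49))) (nat_lit 65535))))) (Nat.add (Nat.add (Nat.shiftLeft (nat_lit 1) (Nat.land (Nat.shiftRight (V (nat_lit 2)) (S (nat_lit 16))) (nat_lit 65535))) (Nat.shiftLeft (nat_lit 1) (Nat.land (Nat.shiftRight (V (nat_lit 2)) (S (nat_lit 22))) (nat_lit 65535)))) (Nat.add (Nat.shiftLeft (nat_lit 1) (Nat.land (Nat.shiftRight (V (nat_lit 2)) (S (nat_lit 36))) (nat_lit 65535))) (Nat.shiftLeft (nat_lit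 1) (Nat.land (Nat.shiftRight (V (nat_lit 2)) (S (nat_lit 37))) (nat_lit 65535)))))) (Nat.add (Nat.add (Nat.add (Nat.shiftLeft (nat_lit 1) (Nat.land (Nat.shiftRight (V (nat_lit 4)) (S (nat_lit 29))) (nat_lit 65535))) (Nat.shiftLeft (nat_lit 1) (Nat.land (Nat.shiftRight (V (nat_lit 4)) (S (nat_lit 31))) (nat_lit 65535)))) (Nat.add (Nat.shiftLeft (nat_lit 1) (Nat.land (Nat.shiftRight (V (nat_lit 4)) (S (nat_lit 48))) (nat_lit 65535))) (Nat.shiftLeft (nat_lit 1) (Nat.land (Nat.shiftRight (V (nat_lit 4)) (S (nat_lit 49))) (nat_lit 65535))))) (Nat.add (Nat.add (Nat.shiftLeft (nat_lit 1) (Nat.land (Nat.shiftRight (V (nat_lit 5)) (S (nat_lit 28))) (nat_lit 65535))) (Nat.shiftLeft (nat_lit 1) (Nat.land (Nat.shiftRight (V (nat_lit 5)) (S (nat_lit 34))) (nat_lit 65535)))) (Nat.add (Nat.shiftLeft (nat_lit 1) (Nat.land (Nat.shiftRight (V (nat_lit 5)) (S (nat_lit 36))) (nat_lit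 65535))) (Nat.shiftLeft (nat_lit 1) (Nat.land (Nat.shiftRight (V (nat_lit 5)) (S (nat_lit 37))) (nat_lit 65535))))))) (Nat.add (Nat.add (Nat.add (Nat.add (Nat.shiftLeft (nat_lit 1) (Nat.land (Nat.shiftRight (V (nat_lit 6)) (S (nat_lit 16))) (nat_lit 65535))) (Nat.shiftLeft (nat_lit 1) (Nat.land (Nat.shiftRight (V (nat_lit 6)) (S (nat_lit 22))) (nat_lit 65535)))) (Nat.add (Nat.shiftLeft (nat_lit 1) (Nat.land (Nat.shiftRight (V (nat_lit 6)) (S (nat_lit 51))) (nat_lit 65535))) (Nat.shiftLeft (nat_lit 1) (Nat.land (Nat.shiftRight (V (nat_lit 6)) (S (nat_lit 54))) (nat_lit 65535))))) (Nat.add (Nat.add (Nat.shiftLeft (nat_lit 1) (Nat.land (Nat.shiftRight (V (nat_lit 7)) (S (nat_lit 28))) (nat_lit 65535))) (Nat.shiftLeft (nat_lit 1) (Nat.land (Nat.shiftRight (V (nat_lit 7)) (S (nat_lit 34))) (nat_lit 65535)))) (Nat.add (Nat.shiftLeft (nat_lit 1) (Nat.land (Nat.shiftRight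 (V (nat_lit 7)) (S (nat_lit 51))) (nat_lit 65535))) (Nat.shiftLeft (nat_lit 1) (Nat.land (Nat.shiftRight (V (nat_lit 7)) (S (nat_lit 54))) (nat_lit 65535)))))) (Nat.add (Nat.add (Nat.add (Nat.shiftLeft (nat_lit 1) (Nat.land (Nat.shiftRight (V (nat_lit 9)) (S (nat_lit 17))) (nat_lit 65535))) (Nat.shiftLeft (nat_lit 1) (Nat.land (Nat.shiftRight (V (nat_lit 9)) (S (nat_lit 19))) (nat_lit 65535)))) (Nat.add (Nat.shiftLeft (nat_lit 1) (Nat.land (Nat.shiftRight (V (nat_lit 9)) (S (nat_lit 39))) (nat_lit 65535))) (Nat.shiftLeft (nat_lit 1) (Nat.land (Nat.shiftRight (V (nat_lit 9)) (S (nat_lit 42))) (nat_lit 65535))))) (Nat.add (Nat.add (Nat.shiftLeft (nat_lit 1) (Nat.land (Nat.shiftRight (V (nat_lit 10)) (S (nat_lit 29))) (nat_lit 65535))) (Nat.shiftLeft (nat_lit 1) (Nat.land (Nat.shiftRight (V (nat_lit 10)) (S (nat_lit 31))) (nat_lit 65535)))) (Nat.add (Nat.shiftLeft (nat_lit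 1) (Nat.land (Nat.shiftRight (V (nat_lit 10)) (S (nat_lit 39))) (nat_lit 65535))) (Nat.shiftLeft (nat_lit 1) (Nat.land (Nat.shiftRight (V (nat_lit 10)) (S (nat_lit 42))) (nat_lit 65535)))))))) (Nat.add (Nat.add (Nat.add (Nat.add (Nat.add (Nat.shiftLeft (nat_lit 1) (Nat.land (Nat.shiftRight (V (nat_lit 16)) (S (nat_lit 2))) (nat_lit 65535))) (Nat.shiftLeft (nat_lit 1) (Nat.land (Nat.shiftRight (V (nat_lit 16)) (S (nat_lit 6))) (nat_lit 65535)))) (Nat.add (Nat.shiftLeft (nat_lit 1) (Nat.land (Nat.shiftRight (V (nat_lit 17)) (S (nat_lit 1))) (nat_lit 65535))) (Nat.shiftLeft (nat_lit 1) (Nat.land (Nat.shiftRight (V (nat_lit 17)) (S (nat_lit 9))) (nat_lit 65535))))) (Nat.add (Nat.add (Nat.shiftLeft (nat_lit 1) (Nat.land (Nat.shiftRight (V (nat_lit 19)) (S (nat_lit 1))) (nat_lit 65535))) (Nat.shiftLeft (nat_lit 1) (Nat.land (Nat.shiftRight (V (nat_lit 19)) (S (nat_lit 9)))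 (nat_lit 65535)))) (Nat.add (Nat.shiftLeft (nat_lit 1) (Nat.land (Nat.shiftRight (V (nat_lit 22)) (S (nat_lit 2))) (nat_lit 65535))) (Nat.shiftLeft (nat_lit 1) (Nat.land (Nat.shiftRight (V (nat_lit 22)) (S (nat_lit 6))) (nat_lit 65535)))))) (Nat.add (Nat.add (Nat.add (Nat.shiftLeft (nat_lit 1) (Nat.land (Nat.shiftRight (V (nat_lit 28)) (S (nat_lit 5))) (nat_lit 65535))) (Nat.shiftLeft (nat_lit 1) (Nat.land (Nat.shiftRight (V (nat_lit 28)) (S (nat_lit 7))) (nat_lit 65535)))) (Nat.add (Nat.shiftLeft (nat_lit 1) (Nat.land (Nat.shiftRight (V (nat_lit 29)) (S (nat_lit 4))) (nat_lit 65535))) (Nat.shiftLeft (nat_lit 1) (Nat.land (Nat.shiftRight (V (nat_lit 29)) (S (nat_lit 10))) (nat_lit 65535))))) (Nat.add (Nat.add (Nat.shiftLeft (nat_lit 1) (Nat.land (Nat.shiftRight (V (nat_lit 31)) (S (nat_lit 4))) (nat_lit 65535))) (Nat.shiftLeft (nat_lit 1) (Nat.land (Nat.shiftRight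 (V (nat_lit 31)) (S (nat_lit 10))) (nat_lit 65535)))) (Nat.add (Nat.shiftLeft (nat_lit 1) (Nat.land (Nat.shiftRight (V (nat_lit 34)) (S (nat_lit 5))) (nat_lit 65535))) (Nat.shiftLeft (nat_lit 1) (Nat.land (Nat.shiftRight (V (nat_lit 34)) (S (nat_lit 7))) (nat_lit 65535))))))) (Nat.add (Nat.add (Nat.add (Nat.add (Nat.shiftLeft (nat_lit 1) (Nat.land (Nat.shiftRight (V (nat_lit 36)) (S (nat_lit 2))) (nat_lit 65535))) (Nat.shiftLeft (nat_lit 1) (Nat.land (Nat.shiftRight (V (nat_lit 36)) (S (nat_lit 5))) (nat_lit 65535)))) (Nat.add (Nat.shiftLeft (nat_lit 1) (Nat.land (Nat.shiftRight (V (nat_lit 37)) (S (nat_lit 2))) (nat_lit 65535))) (Nat.shiftLeft (nat_lit 1) (Nat.land (Nat.shiftRight (V (nat_lit 37)) (S (nat_lit 5))) (nat_lit 65535))))) (Nat.add (Nat.add (Nat.shiftLeft (nat_lit 1) (Nat.land (Nat.shiftRight (V (nat_lit 39)) (S (nat_lit 9))) (nat_lit 65535))) (Nat.shiftLeft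 (nat_lit 1) (Nat.land (Nat.shiftRight (V (nat_lit 39)) (S (nat_lit 10))) (nat_lit 65535)))) (Nat.add (Nat.shiftLeft (nat_lit 1) (Nat.land (Nat.shiftRight (V (nat_lit 42)) (S (nat_lit 9))) (nat_lit 65535))) (Nat.shiftLeft (nat_lit 1) (Nat.land (Nat.shiftRight (V (nat_lit 42)) (S (nat_lit 10))) (nat_lit 65535)))))) (Nat.add (Nat.add (Nat.add (Nat.shiftLeft (nat_lit 1) (Nat.land (Nat.shiftRight (V (nat_lit 48)) (S (nat_lit 1))) (nat_lit 65535))) (Nat.shiftLeft (nat_lit 1) (Nat.land (Nat.shiftRight (V (nat_lit 48)) (S (nat_lit 4))) (nat_lit 65535)))) (Nat.add (Nat.shiftLeft (nat_lit 1) (Nat.land (Nat.shiftRight (V (nat_lit 49)) (S (nat_lit 1))) (nat_lit 65535))) (Nat.shiftLeft (nat_lit 1) (Nat.land (Nat.shiftRight (V (nat_lit 49)) (S (nat_lit 4))) (nat_lit 65535))))) (Nat.add (Nat.add (Nat.shiftLeft (nat_lit 1) (Nat.land (Nat.shiftRight (V (nat_lit 51)) (S (nat_lit 6)))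 (nat_lit 65535))) (Nat.shiftLeft (nat_lit 1) (Nat.land (Nat.shiftRight (V (nat_lit 51)) (S (nat_lit 7))) (nat_lit 65535)))) (Nat.add (Nat.shiftLeft (nat_lit 1) (Nat.land (Nat.shiftRight (V (nat_lit 54)) (S (nat_lit 6))) (nat_lit 65535))) (Nat.shiftLeft (nat_lit 1) (Nat.land (Nat.shiftRight (V (nat_lit 54)) (S (nat_lit 7))) (nat_lit 65535))))))))
def E82_1 (V S : ℕ → ℕ) : ℕ := Nat.add (Nat.add (Nat.add (Nat.add (Nat.add (Nat.add (Nat.shiftLeft (nat_lit 1) (Nat.land (Nat.shiftRight (V (nat_lit 1)) (S (nat_lit 18))) (nat_lit 65535))) (Nat.shiftLeft (nat_lit 1) (Nat.land (Nat.shiftRight (V (nat_lit 1)) (S (nat_lit 25))) (nat_lit 65535)))) (Nat.add (Nat.shiftLeft (nat_lit 1) (Nat.land (Nat.shiftRight (V (nat_lit 1)) (S (nat_lit 41))) (nat_lit 65535))) (Nat.shiftLeft (nat_lit 1) (Nat.land (Nat.shiftRight (V (nat_lit 1)) (S (nat_lit 53))) (nat_lit 65535))))) (Nat.add (Nat.add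 (Nat.shiftLeft (nat_lit 1) (Nat.land (Nat.shiftRight (V (nat_lit 2)) (S (nat_lit 21))) (nat_lit 65535))) (Nat.shiftLeft (nat_lit 1) (Nat.land (Nat.shiftRight (V (nat_lit 2)) (S (nat_lit 26))) (nat_lit 65535)))) (Nat.add (Nat.shiftLeft (nat_lit 1) (Nat.land (Nat.shiftRight (V (nat_lit 2)) (S (nat_lit 41))) (nat_lit 65535))) (Nat.shiftLeft (nat_lit 1) (Nat.land (Nat.shiftRight (V (nat_lit 2)) (S (nat_lit 53))) (nat_lit 65535)))))) (Nat.add (Nat.add (Nat.add (Nat.shiftLeft (nat_lit 1) (Nat.land (Nat.shiftRight (V (nat_lit 4)) (S (nat_lit 13))) (nat_lit 65535))) (Nat.shiftLeft (nat_lit 1) (Nat.land (Nat.shiftRight (V (nat_lit 4)) (S (nat_lit 30))) (nat_lit 65535)))) (Nat.add (Nat.shiftLeft (nat_lit 1) (Nat.land (Nat.shiftRight (V (nat_lit 4)) (S (nat_lit 44))) (nat_lit 65535))) (Nat.shiftLeft (nat_lit 1) (Nat.land (Nat.shiftRight (V (nat_lit 4)) (S (nat_lit 56))) (nat_lit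 65535))))) (Nat.add (Nat.add (Nat.shiftLeft (nat_lit 1) (Nat.land (Nat.shiftRight (V (nat_lit 5)) (S (nat_lit 14))) (nat_lit 65535))) (Nat.shiftLeft (nat_lit 1) (Nat.land (Nat.shiftRight (V (nat_lit 5)) (S (nat_lit 33))) (nat_lit 65535)))) (Nat.add (Nat.shiftLeft (nat_lit 1) (Nat.land (Nat.shiftRight (V (nat_lit 5)) (S (nat_lit 44))) (nat_lit 65535))) (Nat.shiftLeft (nat_lit 1) (Nat.land (Nat.shiftRight (V (nat_lit 5)) (S (nat_lit 56))) (nat_lit 65535))))))) (Nat.add (Nat.add (Nat.add (Nat.add (Nat.shiftLeft (nat_lit 1) (Nat.land (Nat.shiftRight (V (nat_lit 6)) (S (nat_lit 13))) (nat_lit 65535))) (Nat.shiftLeft (nat_lit 1) (Nat.land (Nat.shiftRight (V (nat_lit 6)) (S (nat_lit 30))) (nat_lit 65535)))) (Nat.add (Nat.shiftLeft (nat_lit 1) (Nat.land (Nat.shiftRight (V (nat_lit 6)) (S (nat_lit 46))) (nat_lit 65535))) (Nat.shiftLeft (nat_lit 1) (Nat.land (Nat.shiftRight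 (V (nat_lit 6)) (S (nat_lit 58))) (nat_lit 65535))))) (Nat.add (Nat.add (Nat.shiftLeft (nat_lit 1) (Nat.land (Nat.shiftRight (V (nat_lit 7)) (S (nat_lit 18))) (nat_lit 65535))) (Nat.shiftLeft (nat_lit 1) (Nat.land (Nat.shiftRight (V (nat_lit 7)) (S (nat_lit 25))) (nat_lit 65535)))) (Nat.add (Nat.shiftLeft (nat_lit 1) (Nat.land (Nat.shiftRight (V (nat_lit 7)) (S (nat_lit 47))) (nat_lit 65535))) (Nat.shiftLeft (nat_lit 1) (Nat.land (Nat.shiftRight (V (nat_lit 7)) (S (nat_lit 59))) (nat_lit 65535)))))) (Nat.add (Nat.add (Nat.add (Nat.shiftLeft (nat_lit 1) (Nat.land (Nat.shiftRight (V (nat_lit 9)) (S (nat_lit 14))) (nat_lit 65535))) (Nat.shiftLeft (nat_lit 1) (Nat.land (Nat.shiftRight (V (nat_lit 9)) (S (nat_lit 33))) (nat_lit 65535)))) (Nat.add (Nat.shiftLeft (nat_lit 1) (Nat.land (Nat.shiftRight (V (nat_lit 9)) (S (nat_lit 46))) (nat_lit 65535))) (Nat.shiftLeft (nat_lit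 1) (Nat.land (Nat.shiftRight (V (nat_lit 9)) (S (nat_lit 58))) (nat_lit 65535))))) (Nat.add (Nat.add (Nat.shiftLeft (nat_lit 1) (Nat.land (Nat.shiftRight (V (nat_lit 10)) (S (nat_lit 21))) (nat_lit 65535))) (Nat.shiftLeft (nat_lit 1) (Nat.land (Nat.shiftRight (V (nat_lit 10)) (S (nat_lit 26))) (nat_lit 65535)))) (Nat.add (Nat.shiftLeft (nat_lit 1) (Nat.land (Nat.shiftRight (V (nat_lit 10)) (S (nat_lit 47))) (nat_lit 65535))) (Nat.shiftLeft (nat_lit 1) (Nat.land (Nat.shiftRight (V (nat_lit 10)) (S (nat_lit 59))) (nat_lit 65535)))))))) (Nat.add (Nat.add (Nat.add (Nat.add (Nat.add (Nat.shiftLeft (nat_lit 1) (Nat.land (Nat.shiftRight (V (nat_lit 13)) (S (nat_lit 4))) (nat_lit 65535))) (Nat.shiftLeft (nat_lit 1) (Nat.land (Nat.shiftRight (V (nat_lit 13)) (S (nat_lit 6))) (nat_lit 65535)))) (Nat.add (Nat.shiftLeft (nat_lit 1) (Nat.land (Nat.shiftRight (V (nat_lit 14)) (S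 (nat_lit 5))) (nat_lit 65535))) (Nat.shiftLeft (nat_lit 1) (Nat.land (Nat.shiftRight (V (nat_lit 14)) (S (nat_lit 9))) (nat_lit 65535))))) (Nat.add (Nat.add (Nat.shiftLeft (nat_lit 1) (Nat.land (Nat.shiftRight (V (nat_lit 18)) (S (nat_lit 1))) (nat_lit 65535))) (Nat.shiftLeft (nat_lit 1) (Nat.land (Nat.shiftRight (V (nat_lit 18)) (S (nat_lit 7))) (nat_lit 65535)))) (Nat.add (Nat.shiftLeft (nat_lit 1) (Nat.land (Nat.shiftRight (V (nat_lit 21)) (S (nat_lit 2))) (nat_lit 65535))) (Nat.shiftLeft (nat_lit 1) (Nat.land (Nat.shiftRight (V (nat_lit 21)) (S (nat_lit 10))) (nat_lit 65535)))))) (Nat.add (Nat.add (Nat.add (Nat.shiftLeft (nat_lit 1) (Nat.land (Nat.shiftRight (V (nat_lit 25)) (S (nat_lit 1))) (nat_lit 65535))) (Nat.shiftLeft (nat_lit 1) (Nat.land (Nat.shiftRight (V (nat_lit 25)) (S (nat_lit 7))) (nat_lit 65535)))) (Nat.add (Nat.shiftLeft (nat_lit 1) (Nat.land (Nat.shiftRight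 (V (nat_lit 26)) (S (nat_lit 2))) (nat_lit 65535))) (Nat.shiftLeft (nat_lit 1) (Nat.land (Nat.shiftRight (V (nat_lit 26)) (S (nat_lit 10))) (nat_lit 65535))))) (Nat.add (Nat.add (Nat.shiftLeft (nat_lit 1) (Nat.land (Nat.shiftRight (V (nat_lit 30)) (S (nat_lit 4))) (nat_lit 65535))) (Nat.shiftLeft (nat_lit 1) (Nat.land (Nat.shiftRight (V (nat_lit 30)) (S (nat_lit 6))) (nat_lit 65535)))) (Nat.add (Nat.shiftLeft (nat_lit 1) (Nat.land (Nat.shiftRight (V (nat_lit 33)) (S (nat_lit 5))) (nat_lit 65535))) (Nat.shiftLeft (nat_lit 1) (Nat.land (Nat.shiftRight (V (nat_lit 33)) (S (nat_lit 9))) (nat_lit 65535))))))) (Nat.add (Nat.add (Nat.add (Nat.add (Nat.shiftLeft (nat_lit 1) (Nat.land (Nat.shiftRight (V (nat_lit 41)) (S (nat_lit 1))) (nat_lit 65535))) (Nat.shiftLeft (nat_lit 1) (Nat.land (Nat.shiftRight (V (nat_lit 41)) (S (nat_lit 2))) (nat_lit 65535)))) (Nat.add (Nat.shiftLeft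 (nat_lit 1) (Nat.land (Nat.shiftRight (V (nat_lit 44)) (S (nat_lit 4))) (nat_lit 65535))) (Nat.shiftLeft (nat_lit 1) (Nat.land (Nat.shiftRight (V (nat_lit 44)) (S (nat_lit 5))) (nat_lit 65535))))) (Nat.add (Nat.add (Nat.shiftLeft (nat_lit 1) (Nat.land (Nat.shiftRight (V (nat_lit 46)) (S (nat_lit 6))) (nat_lit 65535))) (Nat.shiftLeft (nat_lit 1) (Nat.land (Nat.shiftRight (V (nat_lit 46)) (S (nat_lit 9))) (nat_lit 65535)))) (Nat.add (Nat.shiftLeft (nat_lit 1) (Nat.land (Nat.shiftRight (V (nat_lit 47)) (S (nat_lit 7))) (nat_lit 65535))) (Nat.shiftLeft (nat_lit 1) (Nat.land (Nat.shiftRight (V (nat_lit 47)) (S (nat_lit 10))) (nat_lit 65535)))))) (Nat.add (Nat.add (Nat.add (Nat.shiftLeft (nat_lit 1) (Nat.land (Nat.shiftRight (V (nat_lit 53)) (S (nat_lit 1))) (nat_lit 65535))) (Nat.shiftLeft (nat_lit 1) (Nat.land (Nat.shiftRight (V (nat_lit 53)) (S (nat_lit 2))) (nat_lit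 65535)))) (Nat.add (Nat.shiftLeft (nat_lit 1) (Nat.land (Nat.shiftRight (V (nat_lit 56)) (S (nat_lit 4))) (nat_lit 65535))) (Nat.shiftLeft (nat_lit 1) (Nat.land (Nat.shiftRight (V (nat_lit 56)) (S (nat_lit 5))) (nat_lit 65535))))) (Nat.add (Nat.add (Nat.shiftLeft (nat_lit 1) (Nat.land (Nat.shiftRight (V (nat_lit 58)) (S (nat_lit 6))) (nat_lit 65535))) (Nat.shiftLeft (nat_lit 1) (Nat.land (Nat.shiftRight (V (nat_lit 58)) (S (nat_lit 9))) (nat_lit 65535)))) (Nat.add (Nat.shiftLeft (nat_lit 1) (Nat.land (Nat.shiftRight (V (nat_lit 59)) (S (nat_lit 7))) (nat_lit 65535))) (Nat.shiftLeft (nat_lit 1) (Nat.land (Nat.shiftRight (V (nat_lit 59)) (S (nat_lit 10))) (nat_lit 65535))))))))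
def E83_1 (V S : ℕ → ℕ) : ℕ := Nat.add (Nat.add (Nat.add (Nat.add (Nat.add (Nat.add (Nat.shiftLeft (nat_lit 1) (Nat.land (Nat.shiftRight (V (nat_lit 1)) (S (nat_lit 20))) (nat_lit 65535))) (Nat.shiftLeft (nat_lit 1) (Nat.land (Nat.shiftRight (V (nat_lit 1)) (S (nat_lit 32))) (nat_lit 65535)))) (Nat.add (Nat.shiftLeft (nat_lit 1) (Nat.land (Nat.shiftRight (V (nat_lit 1)) (S (nat_lit 38))) (nat_lit 65535))) (Nat.shiftLeft (nat_lit 1) (Nat.land (Nat.shiftRight (V (nat_lit 1)) (S (nat_lit 57))) (nat_lit 65535))))) (Nat.add (Nat.add (Nat.shiftLeft (nat_lit 1) (Nat.land (Nat.shiftRight (V (nat_lit 2)) (S (nat_lit 23))) (nat_lit 65535))) (Nat.shiftLeft (nat_lit 1) (Nat.land (Nat.shiftRight (V (nat_lit 2)) (S (nat_lit 35))) (nat_lit 65535)))) (Nat.add (Nat.shiftLeft (nat_lit 1) (Nat.land (Nat.shiftRight (V (nat_lit 2)) (S (nat_lit 45))) (nat_lit 65535))) (Nat.shiftLeft (nat_lit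 1) (Nat.land (Nat.shiftRight (V (nat_lit 2)) (S (nat_lit 50))) (nat_lit 65535)))))) (Nat.add (Nat.add (Nat.add (Nat.shiftLeft (nat_lit 1) (Nat.land (Nat.shiftRight (V (nat_lit 4)) (S (nat_lit 20))) (nat_lit 65535))) (Nat.shiftLeft (nat_lit 1) (Nat.land (Nat.shiftRight (V (nat_lit 4)) (S (nat_lit 32))) (nat_lit 65535)))) (Nat.add (Nat.shiftLeft (nat_lit 1) (Nat.land (Nat.shiftRight (V (nat_lit 4)) (S (nat_lit 38))) (nat_lit 65535))) (Nat.shiftLeft (nat_lit 1) (Nat.land (Nat.shiftRight (V (nat_lit 4)) (S (nat_lit 57))) (nat_lit 65535))))) (Nat.add (Nat.add (Nat.shiftLeft (nat_lit 1) (Nat.land (Nat.shiftRight (V (nat_lit 5)) (S (nat_lit 23))) (nat_lit 65535))) (Nat.shiftLeft (nat_lit 1) (Nat.land (Nat.shiftRight (V (nat_lit 5)) (S (nat_lit 35))) (nat_lit 65535)))) (Nat.add (Nat.shiftLeft (nat_lit 1) (Nat.land (Nat.shiftRight (V (nat_lit 5)) (S (nat_lit 45))) (nat_lit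 65535))) (Nat.shiftLeft (nat_lit 1) (Nat.land (Nat.shiftRight (V (nat_lit 5)) (S (nat_lit 50))) (nat_lit 65535))))))) (Nat.add (Nat.add (Nat.add (Nat.add (Nat.shiftLeft (nat_lit 1) (Nat.land (Nat.shiftRight (V (nat_lit 6)) (S (nat_lit 23))) (nat_lit 65535))) (Nat.shiftLeft (nat_lit 1) (Nat.land (Nat.shiftRight (V (nat_lit 6)) (S (nat_lit 35))) (nat_lit 65535)))) (Nat.add (Nat.shiftLeft (nat_lit 1) (Nat.land (Nat.shiftRight (V (nat_lit 6)) (S (nat_lit 45))) (nat_lit 65535))) (Nat.shiftLeft (nat_lit 1) (Nat.land (Nat.shiftRight (V (nat_lit 6)) (S (nat_lit 50))) (nat_lit 65535))))) (Nat.add (Nat.add (Nat.shiftLeft (nat_lit 1) (Nat.land (Nat.shiftRight (V (nat_lit 7)) (S (nat_lit 23))) (nat_lit 65535))) (Nat.shiftLeft (nat_lit 1) (Nat.land (Nat.shiftRight (V (nat_lit 7)) (S (nat_lit 35))) (nat_lit 65535)))) (Nat.add (Nat.shiftLeft (nat_lit 1) (Nat.land (Nat.shiftRight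 (V (nat_lit 7)) (S (nat_lit 45))) (nat_lit 65535))) (Nat.shiftLeft (nat_lit 1) (Nat.land (Nat.shiftRight (V (nat_lit 7)) (S (nat_lit 50))) (nat_lit 65535)))))) (Nat.add (Nat.add (Nat.add (Nat.shiftLeft (nat_lit 1) (Nat.land (Nat.shiftRight (V (nat_lit 9)) (S (nat_lit 20))) (nat_lit 65535))) (Nat.shiftLeft (nat_lit 1) (Nat.land (Nat.shiftRight (V (nat_lit 9)) (S (nat_lit 32))) (nat_lit 65535)))) (Nat.add (Nat.shiftLeft (nat_lit 1) (Nat.land (Nat.shiftRight (V (nat_lit 9)) (S (nat_lit 38))) (nat_lit 65535))) (Nat.shiftLeft (nat_lit 1) (Nat.land (Nat.shiftRight (V (nat_lit 9)) (S (nat_lit 57))) (nat_lit 65535))))) (Nat.add (Nat.add (Nat.shiftLeft (nat_lit 1) (Nat.land (Nat.shiftRight (V (nat_lit 10)) (S (nat_lit 20))) (nat_lit 65535))) (Nat.shiftLeft (nat_lit 1) (Nat.land (Nat.shiftRight (V (nat_lit 10)) (S (nat_lit 32))) (nat_lit 65535)))) (Nat.add (Nat.shiftLeft (nat_lit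 1) (Nat.land (Nat.shiftRight (V (nat_lit 10)) (S (nat_lit 38))) (nat_lit 65535))) (Nat.shiftLeft (nat_lit 1) (Nat.land (Nat.shiftRight (V (nat_lit 10)) (S (nat_lit 57))) (nat_lit 65535)))))))) (Nat.add (Nat.add (Nat.add (Nat.add (Nat.add (Nat.shiftLeft (nat_lit 1) (Nat.land (Nat.shiftRight (V (nat_lit 20)) (S (nat_lit 1))) (nat_lit 65535))) (Nat.shiftLeft (nat_lit 1) (Nat.land (Nat.shiftRight (V (nat_lit 20)) (S (nat_lit 4))) (nat_lit 65535)))) (Nat.add (Nat.shiftLeft (nat_lit 1) (Nat.land (Nat.shiftRight (V (nat_lit 20)) (S (nat_lit 9))) (nat_lit 65535))) (Nat.shiftLeft (nat_lit 1) (Nat.land (Nat.shiftRight (V (nat_lit 20)) (S (nat_lit 10))) (nat_lit 65535))))) (Nat.add (Nat.add (Nat.shiftLeft (nat_lit 1) (Nat.land (Nat.shiftRight (V (nat_lit 23)) (S (nat_lit 2))) (nat_lit 65535))) (Nat.shiftLeft (nat_lit 1) (Nat.land (Nat.shiftRight (V (nat_lit 23)) (S (nat_lit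 5))) (nat_lit 65535)))) (Nat.add (Nat.shiftLeft (nat_lit 1) (Nat.land (Nat.shiftRight (V (nat_lit 23)) (S (nat_lit 6))) (nat_lit 65535))) (Nat.shiftLeft (nat_lit 1) (Nat.land (Nat.shiftRight (V (nat_lit 23)) (S (nat_lit 7))) (nat_lit 65535)))))) (Nat.add (Nat.add (Nat.add (Nat.shiftLeft (nat_lit 1) (Nat.land (Nat.shiftRight (V (nat_lit 32)) (S (nat_lit 1))) (nat_lit 65535))) (Nat.shiftLeft (nat_lit 1) (Nat.land (Nat.shiftRight (V (nat_lit 32)) (S (nat_lit 4))) (nat_lit 65535)))) (Nat.add (Nat.shiftLeft (nat_lit 1) (Nat.land (Nat.shiftRight (V (nat_lit 32)) (S (nat_lit 9))) (nat_lit 65535))) (Nat.shiftLeft (nat_lit 1) (Nat.land (Nat.shiftRight (V (nat_lit 32)) (S (nat_lit 10))) (nat_lit 65535))))) (Nat.add (Nat.add (Nat.shiftLeft (nat_lit 1) (Nat.land (Nat.shiftRight (V (nat_lit 35)) (S (nat_lit 2))) (nat_lit 65535))) (Nat.shiftLeft (nat_lit 1) (Nat.land (Nat.shiftRight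 (V (nat_lit 35)) (S (nat_lit 5))) (nat_lit 65535)))) (Nat.add (Nat.shiftLeft (nat_lit 1) (Nat.land (Nat.shiftRight (V (nat_lit 35)) (S (nat_lit 6))) (nat_lit 65535))) (Nat.shiftLeft (nat_lit 1) (Nat.land (Nat.shiftRight (V (nat_lit 35)) (S (nat_lit 7))) (nat_lit 65535))))))) (Nat.add (Nat.add (Nat.add (Nat.add (Nat.shiftLeft (nat_lit 1) (Nat.land (Nat.shiftRight (V (nat_lit 38)) (S (nat_lit 1))) (nat_lit 65535))) (Nat.shiftLeft (nat_lit 1) (Nat.land (Nat.shiftRight (V (nat_lit 38)) (S (nat_lit 4))) (nat_lit 65535)))) (Nat.add (Nat.shiftLeft (nat_lit 1) (Nat.land (Nat.shiftRight (V (nat_lit 38)) (S (nat_lit 9))) (nat_lit 65535))) (Nat.shiftLeft (nat_lit 1) (Nat.land (Nat.shiftRight (V (nat_lit 38)) (S (nat_lit 10))) (nat_lit 65535))))) (Nat.add (Nat.add (Nat.shiftLeft (nat_lit 1) (Nat.land (Nat.shiftRight (V (nat_lit 45)) (S (nat_lit 2))) (nat_lit 65535))) (Nat.shiftLeft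 (nat_lit 1) (Nat.land (Nat.shiftRight (V (nat_lit 45)) (S (nat_lit 5))) (nat_lit 65535)))) (Nat.add (Nat.shiftLeft (nat_lit 1) (Nat.land (Nat.shiftRight (V (nat_lit 45)) (S (nat_lit 6))) (nat_lit 65535))) (Nat.shiftLeft (nat_lit 1) (Nat.land (Nat.shiftRight (V (nat_lit 45)) (S (nat_lit 7))) (nat_lit 65535)))))) (Nat.add (Nat.add (Nat.add (Nat.shiftLeft (nat_lit 1) (Nat.land (Nat.shiftRight (V (nat_lit 50)) (S (nat_lit 2))) (nat_lit 65535))) (Nat.shiftLeft (nat_lit 1) (Nat.land (Nat.shiftRight (V (nat_lit 50)) (S (nat_lit 5))) (nat_lit 65535)))) (Nat.add (Nat.shiftLeft (nat_lit 1) (Nat.land (Nat.shiftRight (V (nat_lit 50)) (S (nat_lit 6))) (nat_lit 65535))) (Nat.shiftLeft (nat_lit 1) (Nat.land (Nat.shiftRight (V (nat_lit 50)) (S (nat_lit 7))) (nat_lit 65535))))) (Nat.add (Nat.add (Nat.shiftLeft (nat_lit 1) (Nat.land (Nat.shiftRight (V (nat_lit 57)) (S (nat_lit 1)))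 (nat_lit 65535))) (Nat.shiftLeft (nat_lit 1) (Nat.land (Nat.shiftRight (V (nat_lit 57)) (S (nat_lit 4))) (nat_lit 65535)))) (Nat.add (Nat.shiftLeft (nat_lit 1) (Nat.land (Nat.shiftRight (V (nat_lit 57)) (S (nat_lit 9))) (nat_lit 65535))) (Nat.shiftLeft (nat_lit 1) (Nat.land (Nat.shiftRight (V (nat_lit 57)) (S (nat_lit 10))) (nat_lit 65535))))))))
def E84_1 (V S : ℕ → ℕ) : ℕ := Nat.add (Nat.add (Nat.add (Nat.add (Nat.add (Nat.add (Nat.add (Nat.shiftLeft (nat_lit 1) (Nat.land (Nat.shiftRight (V (nat_lit 1)) (S (nat_lit 21))) (nat_lit 65535))) (Nat.shiftLeft (nat_lit 1) (Nat.land (Nat.shiftRight (V (nat_lit 1)) (S (nat_lit 26))) (nat_lit 65535)))) (Nat.add (Nat.shiftLeft (nat_lit 1) (Nat.land (Nat.shiftRight (V (nat_lit 1)) (S (nat_lit 47))) (nat_lit 65535))) (Nat.shiftLeft (nat_lit 1) (Nat.land (Nat.shiftRight (V (nat_lit 1)) (S (nat_lit 59))) (nat_lit 65535))))) (Nat.add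 (Nat.add (Nat.shiftLeft (nat_lit 1) (Nat.land (Nat.shiftRight (V (nat_lit 2)) (S (nat_lit 18))) (nat_lit 65535))) (Nat.shiftLeft (nat_lit 1) (Nat.land (Nat.shiftRight (V (nat_lit 2)) (S (nat_lit 25))) (nat_lit 65535)))) (Nat.add (Nat.shiftLeft (nat_lit 1) (Nat.land (Nat.shiftRight (V (nat_lit 2)) (S (nat_lit 47))) (nat_lit 65535))) (Nat.shiftLeft (nat_lit 1) (Nat.land (Nat.shiftRight (V (nat_lit 2)) (S (nat_lit 59))) (nat_lit 65535)))))) (Nat.add (Nat.add (Nat.add (Nat.shiftLeft (nat_lit 1) (Nat.land (Nat.shiftRight (V (nat_lit 4)) (S (nat_lit 14))) (nat_lit 65535))) (Nat.shiftLeft (nat_lit 1) (Nat.land (Nat.shiftRight (V (nat_lit 4)) (S (nat_lit 33))) (nat_lit 65535)))) (Nat.add (Nat.shiftLeft (nat_lit 1) (Nat.land (Nat.shiftRight (V (nat_lit 4)) (S (nat_lit 46))) (nat_lit 65535))) (Nat.shiftLeft (nat_lit 1) (Nat.land (Nat.shiftRight (V (nat_lit 4)) (S (nat_lit 58)))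 (nat_lit 65535))))) (Nat.add (Nat.add (Nat.shiftLeft (nat_lit 1) (Nat.land (Nat.shiftRight (V (nat_lit 5)) (S (nat_lit 13))) (nat_lit 65535))) (Nat.shiftLeft (nat_lit 1) (Nat.land (Nat.shiftRight (V (nat_lit 5)) (S (nat_lit 30))) (nat_lit 65535)))) (Nat.add (Nat.shiftLeft (nat_lit 1) (Nat.land (Nat.shiftRight (V (nat_lit 5)) (S (nat_lit 46))) (nat_lit 65535))) (Nat.shiftLeft (nat_lit 1) (Nat.land (Nat.shiftRight (V (nat_lit 5)) (S (nat_lit 58))) (nat_lit 65535))))))) (Nat.add (Nat.add (Nat.add (Nat.add (Nat.shiftLeft (nat_lit 1) (Nat.land (Nat.shiftRight (V (nat_lit 6)) (S (nat_lit 14))) (nat_lit 65535))) (Nat.shiftLeft (nat_lit 1) (Nat.land (Nat.shiftRight (V (nat_lit 6)) (S (nat_lit 33))) (nat_lit 65535)))) (Nat.add (Nat.shiftLeft (nat_lit 1) (Nat.land (Nat.shiftRight (V (nat_lit 6)) (S (nat_lit 44))) (nat_lit 65535))) (Nat.shiftLeft (nat_lit 1) (Nat.land (Nat.shiftRight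 (V (nat_lit 6)) (S (nat_lit 56))) (nat_lit 65535))))) (Nat.add (Nat.add (Nat.shiftLeft (nat_lit 1) (Nat.land (Nat.shiftRight (V (nat_lit 7)) (S (nat_lit 21))) (nat_lit 65535))) (Nat.shiftLeft (nat_lit 1) (Nat.land (Nat.shiftRight (V (nat_lit 7)) (S (nat_lit 26))) (nat_lit 65535)))) (Nat.add (Nat.shiftLeft (nat_lit 1) (Nat.land (Nat.shiftRight (V (nat_lit 7)) (S (nat_lit 41))) (nat_lit 65535))) (Nat.shiftLeft (nat_lit 1) (Nat.land (Nat.shiftRight (V (nat_lit 7)) (S (nat_lit 53))) (nat_lit 65535)))))) (Nat.add (Nat.add (Nat.add (Nat.shiftLeft (nat_lit 1) (Nat.land (Nat.shiftRight (V (nat_lit 9)) (S (nat_lit 13))) (nat_lit 65535))) (Nat.shiftLeft (nat_lit 1) (Nat.land (Nat.shiftRight (V (nat_lit 9)) (S (nat_lit 30))) (nat_lit 65535)))) (Nat.add (Nat.shiftLeft (nat_lit 1) (Nat.land (Nat.shiftRight (V (nat_lit 9)) (S (nat_lit 44))) (nat_lit 65535))) (Nat.shiftLeft (nat_lit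 1) (Nat.land (Nat.shiftRight (V (nat_lit 9)) (S (nat_lit 56))) (nat_lit 65535))))) (Nat.add (Nat.add (Nat.shiftLeft (nat_lit 1) (Nat.land (Nat.shiftRight (V (nat_lit 10)) (S (nat_lit 18))) (nat_lit 65535))) (Nat.shiftLeft (nat_lit 1) (Nat.land (Nat.shiftRight (V (nat_lit 10)) (S (nat_lit 25))) (nat_lit 65535)))) (Nat.add (Nat.shiftLeft (nat_lit 1) (Nat.land (Nat.shiftRight (V (nat_lit 10)) (S (nat_lit 41))) (nat_lit 65535))) (Nat.shiftLeft (nat_lit 1) (Nat.land (Nat.shiftRight (V (nat_lit 10)) (S (nat_lit 53))) (nat_lit 65535)))))))) (Nat.add (Nat.add (Nat.add (Nat.add (Nat.add (Nat.shiftLeft (nat_lit 1) (Nat.land (Nat.shiftRight (V (nat_lit 13)) (S (nat_lit 5))) (nat_lit 65535))) (Nat.shiftLeft (nat_lit 1) (Nat.land (Nat.shiftRight (V (nat_lit 13)) (S (nat_lit 9))) (nat_lit 65535)))) (Nat.add (Nat.shiftLeft (nat_lit 1) (Nat.land (Nat.shiftRight (V (nat_lit 13)) (S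 (nat_lit 28))) (nat_lit 65535))) (Nat.shiftLeft (nat_lit 1) (Nat.land (Nat.shiftRight (V (nat_lit 13)) (S (nat_lit 39))) (nat_lit 65535))))) (Nat.add (Nat.add (Nat.shiftLeft (nat_lit 1) (Nat.land (Nat.shiftRight (V (nat_lit 14)) (S (nat_lit 4))) (nat_lit 65535))) (Nat.shiftLeft (nat_lit 1) (Nat.land (Nat.shiftRight (V (nat_lit 14)) (S (nat_lit 6))) (nat_lit 65535)))) (Nat.add (Nat.shiftLeft (nat_lit 1) (Nat.land (Nat.shiftRight (V (nat_lit 14)) (S (nat_lit 29))) (nat_lit 65535))) (Nat.shiftLeft (nat_lit 1) (Nat.land (Nat.shiftRight (V (nat_lit 14)) (S (nat_lit 51))) (nat_lit 65535)))))) (Nat.add (Nat.add (Nat.add (Nat.shiftLeft (nat_lit 1) (Nat.land (Nat.shiftRight (V (nat_lit 16)) (S (nat_lit 25))) (nat_lit 65535))) (Nat.shiftLeft (nat_lit 1) (Nat.land (Nat.shiftRight (V (nat_lit 16)) (S (nat_lit 56))) (nat_lit 65535)))) (Nat.add (Nat.shiftLeft (nat_lit 1) (Nat.land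 (Nat.shiftRight (V (nat_lit 17)) (S (nat_lit 26))) (nat_lit 65535))) (Nat.shiftLeft (nat_lit 1) (Nat.land (Nat.shiftRight (V (nat_lit 17)) (S (nat_lit 44))) (nat_lit 65535))))) (Nat.add (Nat.add (Nat.shiftLeft (nat_lit 1) (Nat.land (Nat.shiftRight (V (nat_lit 18)) (S (nat_lit 2))) (nat_lit 65535))) (Nat.shiftLeft (nat_lit 1) (Nat.land (Nat.shiftRight (V (nat_lit 18)) (S (nat_lit 10))) (nat_lit 65535)))) (Nat.add (Nat.shiftLeft (nat_lit 1) (Nat.land (Nat.shiftRight (V (nat_lit 18)) (S (nat_lit 31))) (nat_lit 65535))) (Nat.shiftLeft (nat_lit 1) (Nat.land (Nat.shiftRight (V (nat_lit 18)) (S (nat_lit 36))) (nat_lit 65535))))))) (Nat.add (Nat.add (Nat.add (Nat.add (Nat.shiftLeft (nat_lit 1) (Nat.land (Nat.shiftRight (V (nat_lit 19)) (S (nat_lit 30))) (nat_lit 65535))) (Nat.shiftLeft (nat_lit 1) (Nat.land (Nat.shiftRight (V (nat_lit 19)) (S (nat_lit 59))) (nat_lit 65535))))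 (Nat.add (Nat.shiftLeft (nat_lit 1) (Nat.land (Nat.shiftRight (V (nat_lit 21)) (S (nat_lit 1))) (nat_lit 65535))) (Nat.shiftLeft (nat_lit 1) (Nat.land (Nat.shiftRight (V (nat_lit 21)) (S (nat_lit 7))) (nat_lit 65535))))) (Nat.add (Nat.add (Nat.shiftLeft (nat_lit 1) (Nat.land (Nat.shiftRight (V (nat_lit 21)) (S (nat_lit 34))) (nat_lit 65535))) (Nat.shiftLeft (nat_lit 1) (Nat.land (Nat.shiftRight (V (nat_lit 21)) (S (nat_lit 48))) (nat_lit 65535)))) (Nat.add (Nat.shiftLeft (nat_lit 1) (Nat.land (Nat.shiftRight (V (nat_lit 22)) (S (nat_lit 33))) (nat_lit 65535))) (Nat.shiftLeft (nat_lit 1) (Nat.land (Nat.shiftRight (V (nat_lit 22)) (S (nat_lit 47))) (nat_lit 65535)))))) (Nat.add (Nat.add (Nat.add (Nat.shiftLeft (nat_lit 1) (Nat.land (Nat.shiftRight (V (nat_lit 25)) (S (nat_lit 2))) (nat_lit 65535))) (Nat.shiftLeft (nat_lit 1) (Nat.land (Nat.shiftRight (V (nat_lit 25))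 (S (nat_lit 10))) (nat_lit 65535)))) (Nat.add (Nat.shiftLeft (nat_lit 1) (Nat.land (Nat.shiftRight (V (nat_lit 25)) (S (nat_lit 16))) (nat_lit 65535))) (Nat.shiftLeft (nat_lit 1) (Nat.land (Nat.shiftRight (V (nat_lit 25)) (S (nat_lit 42))) (nat_lit 65535))))) (Nat.add (Nat.add (Nat.shiftLeft (nat_lit 1) (Nat.land (Nat.shiftRight (V (nat_lit 26)) (S (nat_lit 1))) (nat_lit 65535))) (Nat.shiftLeft (nat_lit 1) (Nat.land (Nat.shiftRight (V (nat_lit 26)) (S (nat_lit 7))) (nat_lit 65535)))) (Nat.add (Nat.shiftLeft (nat_lit 1) (Nat.land (Nat.shiftRight (V (nat_lit 26)) (S (nat_lit 17))) (nat_lit 65535))) (Nat.shiftLeft (nat_lit 1) (Nat.land (Nat.shiftRight (V (nat_lit 26)) (S (nat_lit 54))) (nat_lit 65535))))))))) (Nat.add (Nat.add (Nat.add (Nat.add (Nat.add (Nat.add (Nat.shiftLeft (nat_lit 1) (Nat.land (Nat.shiftRight (V (nat_lit 28)) (S (nat_lit 13))) (nat_lit 65535)))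 (Nat.shiftLeft (nat_lit 1) (Nat.land (Nat.shiftRight (V (nat_lit 28)) (S (nat_lit 53))) (nat_lit 65535)))) (Nat.add (Nat.shiftLeft (nat_lit 1) (Nat.land (Nat.shiftRight (V (nat_lit 29)) (S (nat_lit 14))) (nat_lit 65535))) (Nat.shiftLeft (nat_lit 1) (Nat.land (Nat.shiftRight (V (nat_lit 29)) (S (nat_lit 41))) (nat_lit 65535))))) (Nat.add (Nat.add (Nat.shiftLeft (nat_lit 1) (Nat.land (Nat.shiftRight (V (nat_lit 30)) (S (nat_lit 5))) (nat_lit 65535))) (Nat.shiftLeft (nat_lit 1) (Nat.land (Nat.shiftRight (V (nat_lit 30)) (S (nat_lit 9))) (nat_lit 65535)))) (Nat.add (Nat.shiftLeft (nat_lit 1) (Nat.land (Nat.shiftRight (V (nat_lit 30)) (S (nat_lit 19))) (nat_lit 65535))) (Nat.shiftLeft (nat_lit 1) (Nat.land (Nat.shiftRight (V (nat_lit 30)) (S (nat_lit 37))) (nat_lit 65535)))))) (Nat.add (Nat.add (Nat.add (Nat.shiftLeft (nat_lit 1) (Nat.land (Nat.shiftRight (V (nat_lit 31))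 (S (nat_lit 18))) (nat_lit 65535))) (Nat.shiftLeft (nat_lit 1) (Nat.land (Nat.shiftRight (V (nat_lit 31)) (S (nat_lit 58))) (nat_lit 65535)))) (Nat.add (Nat.shiftLeft (nat_lit 1) (Nat.land (Nat.shiftRight (V (nat_lit 33)) (S (nat_lit 4))) (nat_lit 65535))) (Nat.shiftLeft (nat_lit 1) (Nat.land (Nat.shiftRight (V (nat_lit 33)) (S (nat_lit 6))) (nat_lit 65535))))) (Nat.add (Nat.add (Nat.shiftLeft (nat_lit 1) (Nat.land (Nat.shiftRight (V (nat_lit 33)) (S (nat_lit 22))) (nat_lit 65535))) (Nat.shiftLeft (nat_lit 1) (Nat.land (Nat.shiftRight (V (nat_lit 33)) (S (nat_lit 49))) (nat_lit 65535)))) (Nat.add (Nat.shiftLeft (nat_lit 1) (Nat.land (Nat.shiftRight (V (nat_lit 34)) (S (nat_lit 21))) (nat_lit 65535))) (Nat.shiftLeft (nat_lit 1) (Nat.land (Nat.shiftRight (V (nat_lit 34)) (S (nat_lit 46))) (nat_lit 65535))))))) (Nat.add (Nat.add (Nat.add (Nat.add (Nat.shiftLeft (nat_lit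 1) (Nat.land (Nat.shiftRight (V (nat_lit 36)) (S (nat_lit 18))) (nat_lit 65535))) (Nat.shiftLeft (nat_lit 1) (Nat.land (Nat.shiftRight (V (nat_lit 36)) (S (nat_lit 58))) (nat_lit 65535)))) (Nat.add (Nat.shiftLeft (nat_lit 1) (Nat.land (Nat.shiftRight (V (nat_lit 37)) (S (nat_lit 30))) (nat_lit 65535))) (Nat.shiftLeft (nat_lit 1) (Nat.land (Nat.shiftRight (V (nat_lit 37)) (S (nat_lit 59))) (nat_lit 65535))))) (Nat.add (Nat.add (Nat.shiftLeft (nat_lit 1) (Nat.land (Nat.shiftRight (V (nat_lit 39)) (S (nat_lit 13))) (nat_lit 65535))) (Nat.shiftLeft (nat_lit 1) (Nat.land (Nat.shiftRight (V (nat_lit 39)) (S (nat_lit 53))) (nat_lit 65535)))) (Nat.add (Nat.shiftLeft (nat_lit 1) (Nat.land (Nat.shiftRight (V (nat_lit 41)) (S (nat_lit 7))) (nat_lit 65535))) (Nat.shiftLeft (nat_lit 1) (Nat.land (Nat.shiftRight (V (nat_lit 41)) (S (nat_lit 10))) (nat_lit 65535)))))) (Nat.add (Nat.add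 (Nat.add (Nat.shiftLeft (nat_lit 1) (Nat.land (Nat.shiftRight (V (nat_lit 41)) (S (nat_lit 29))) (nat_lit 65535))) (Nat.shiftLeft (nat_lit 1) (Nat.land (Nat.shiftRight (V (nat_lit 41)) (S (nat_lit 51))) (nat_lit 65535)))) (Nat.add (Nat.shiftLeft (nat_lit 1) (Nat.land (Nat.shiftRight (V (nat_lit 42)) (S (nat_lit 25))) (nat_lit 65535))) (Nat.shiftLeft (nat_lit 1) (Nat.land (Nat.shiftRight (V (nat_lit 42)) (S (nat_lit 56))) (nat_lit 65535))))) (Nat.add (Nat.add (Nat.shiftLeft (nat_lit 1) (Nat.land (Nat.shiftRight (V (nat_lit 44)) (S (nat_lit 6))) (nat_lit 65535))) (Nat.shiftLeft (nat_lit 1) (Nat.land (Nat.shiftRight (V (nat_lit 44)) (S (nat_lit 9))) (nat_lit 65535)))) (Nat.add (Nat.shiftLeft (nat_lit 1) (Nat.land (Nat.shiftRight (V (nat_lit 44)) (S (nat_lit 17))) (nat_lit 65535))) (Nat.shiftLeft (nat_lit 1) (Nat.land (Nat.shiftRight (V (nat_lit 44)) (S (nat_lit 54)))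 (nat_lit 65535)))))))) (Nat.add (Nat.add (Nat.add (Nat.add (Nat.add (Nat.shiftLeft (nat_lit 1) (Nat.land (Nat.shiftRight (V (nat_lit 46)) (S (nat_lit 4))) (nat_lit 65535))) (Nat.shiftLeft (nat_lit 1) (Nat.land (Nat.shiftRight (V (nat_lit 46)) (S (nat_lit 5))) (nat_lit 65535)))) (Nat.add (Nat.shiftLeft (nat_lit 1) (Nat.land (Nat.shiftRight (V (nat_lit 46)) (S (nat_lit 34))) (nat_lit 65535))) (Nat.shiftLeft (nat_lit 1) (Nat.land (Nat.shiftRight (V (nat_lit 46)) (S (nat_lit 48))) (nat_lit 65535))))) (Nat.add (Nat.add (Nat.shiftLeft (nat_lit 1) (Nat.land (Nat.shiftRight (V (nat_lit 47)) (S (nat_lit 1))) (nat_lit 65535))) (Nat.shiftLeft (nat_lit 1) (Nat.land (Nat.shiftRight (V (nat_lit 47)) (S (nat_lit 2))) (nat_lit 65535)))) (Nat.add (Nat.shiftLeft (nat_lit 1) (Nat.land (Nat.shiftRight (V (nat_lit 47)) (S (nat_lit 22))) (nat_lit 65535))) (Nat.shiftLeft (nat_lit 1) (Nat.land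 (Nat.shiftRight (V (nat_lit 47)) (S (nat_lit 49))) (nat_lit 65535)))))) (Nat.add (Nat.add (Nat.add (Nat.shiftLeft (nat_lit 1) (Nat.land (Nat.shiftRight (V (nat_lit 48)) (S (nat_lit 21))) (nat_lit 65535))) (Nat.shiftLeft (nat_lit 1) (Nat.land (Nat.shiftRight (V (nat_lit 48)) (S (nat_lit 46))) (nat_lit 65535)))) (Nat.add (Nat.shiftLeft (nat_lit 1) (Nat.land (Nat.shiftRight (V (nat_lit 49)) (S (nat_lit 33))) (nat_lit 65535))) (Nat.shiftLeft (nat_lit 1) (Nat.land (Nat.shiftRight (V (nat_lit 49)) (S (nat_lit 47))) (nat_lit 65535))))) (Nat.add (Nat.add (Nat.shiftLeft (nat_lit 1) (Nat.land (Nat.shiftRight (V (nat_lit 51)) (S (nat_lit 14))) (nat_lit 65535))) (Nat.shiftLeft (nat_lit 1) (Nat.land (Nat.shiftRight (V (nat_lit 51)) (S (nat_lit 41))) (nat_lit 65535)))) (Nat.add (Nat.shiftLeft (nat_lit 1) (Nat.land (Nat.shiftRight (V (nat_lit 53)) (S (nat_lit 7))) (nat_lit 65535)))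 (Nat.shiftLeft (nat_lit 1) (Nat.land (Nat.shiftRight (V (nat_lit 53)) (S (nat_lit 10))) (nat_lit 65535))))))) (Nat.add (Nat.add (Nat.add (Nat.add (Nat.shiftLeft (nat_lit 1) (Nat.land (Nat.shiftRight (V (nat_lit 53)) (S (nat_lit 28))) (nat_lit 65535))) (Nat.shiftLeft (nat_lit 1) (Nat.land (Nat.shiftRight (V (nat_lit 53)) (S (nat_lit 39))) (nat_lit 65535)))) (Nat.add (Nat.shiftLeft (nat_lit 1) (Nat.land (Nat.shiftRight (V (nat_lit 54)) (S (nat_lit 26))) (nat_lit 65535))) (Nat.shiftLeft (nat_lit 1) (Nat.land (Nat.shiftRight (V (nat_lit 54)) (S (nat_lit 44))) (nat_lit 65535))))) (Nat.add (Nat.add (Nat.shiftLeft (nat_lit 1) (Nat.land (Nat.shiftRight (V (nat_lit 56)) (S (nat_lit 6))) (nat_lit 65535))) (Nat.shiftLeft (nat_lit 1) (Nat.land (Nat.shiftRight (V (nat_lit 56)) (S (nat_lit 9))) (nat_lit 65535)))) (Nat.add (Nat.shiftLeft (nat_lit 1) (Nat.land (Nat.shiftRight (V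 (nat_lit 56)) (S (nat_lit 16))) (nat_lit 65535))) (Nat.shiftLeft (nat_lit 1) (Nat.land (Nat.shiftRight (V (nat_lit 56)) (S (nat_lit 42))) (nat_lit 65535)))))) (Nat.add (Nat.add (Nat.add (Nat.shiftLeft (nat_lit 1) (Nat.land (Nat.shiftRight (V (nat_lit 58)) (S (nat_lit 4))) (nat_lit 65535))) (Nat.shiftLeft (nat_lit 1) (Nat.land (Nat.shiftRight (V (nat_lit 58)) (S (nat_lit 5))) (nat_lit 65535)))) (Nat.add (Nat.shiftLeft (nat_lit 1) (Nat.land (Nat.shiftRight (V (nat_lit 58)) (S (nat_lit 31))) (nat_lit 65535))) (Nat.shiftLeft (nat_lit 1) (Nat.land (Nat.shiftRight (V (nat_lit 58)) (S (nat_lit 36))) (nat_lit 65535))))) (Nat.add (Nat.add (Nat.shiftLeft (nat_lit 1) (Nat.land (Nat.shiftRight (V (nat_lit 59)) (S (nat_lit 1))) (nat_lit 65535))) (Nat.shiftLeft (nat_lit 1) (Nat.land (Nat.shiftRight (V (nat_lit 59)) (S (nat_lit 2))) (nat_lit 65535)))) (Nat.add (Nat.shiftLeft (nat_lit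 1) (Nat.land (Nat.shiftRight (V (nat_lit 59)) (S (nat_lit 19))) (nat_lit 65535))) (Nat.shiftLeft (nat_lit 1) (Nat.land (Nat.shiftRight (V (nat_lit 59)) (S (nat_lit 37))) (nat_lit 65535)))))))))
def E85_1 (V S : ℕ → ℕ) : ℕ := Nat.add (Nat.add (Nat.add (Nat.add (Nat.add (Nat.add (Nat.shiftLeft (nat_lit 1) (Nat.land (Nat.shiftRight (V (nat_lit 1)) (S (nat_lit 22))) (nat_lit 65535))) (Nat.shiftLeft (nat_lit 1) (Nat.land (Nat.shiftRight (V (nat_lit 1)) (S (nat_lit 34))) (nat_lit 65535)))) (Nat.add (Nat.shiftLeft (nat_lit 1) (Nat.land (Nat.shiftRight (V (nat_lit 1)) (S (nat_lit 37))) (nat_lit 65535))) (Nat.shiftLeft (nat_lit 1) (Nat.land (Nat.shiftRight (V (nat_lit 1)) (S (nat_lit 54))) (nat_lit 65535))))) (Nat.add (Nat.add (Nat.shiftLeft (nat_lit 1) (Nat.land (Nat.shiftRight (V (nat_lit 2)) (S (nat_lit 19))) (nat_lit 65535))) (Nat.shiftLeft (nat_lit 1) (Nat.land (Nat.shiftRight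 (V (nat_lit 2)) (S (nat_lit 31))) (nat_lit 65535)))) (Nat.add (Nat.shiftLeft (nat_lit 1) (Nat.land (Nat.shiftRight (V (nat_lit 2)) (S (nat_lit 42))) (nat_lit 65535))) (Nat.shiftLeft (nat_lit 1) (Nat.land (Nat.shiftRight (V (nat_lit 2)) (S (nat_lit 49))) (nat_lit 65535)))))) (Nat.add (Nat.add (Nat.add (Nat.shiftLeft (nat_lit 1) (Nat.land (Nat.shiftRight (V (nat_lit 4)) (S (nat_lit 22))) (nat_lit 65535))) (Nat.shiftLeft (nat_lit 1) (Nat.land (Nat.shiftRight (V (nat_lit 4)) (S (nat_lit 34))) (nat_lit 65535)))) (Nat.add (Nat.shiftLeft (nat_lit 1) (Nat.land (Nat.shiftRight (V (nat_lit 4)) (S (nat_lit 36))) (nat_lit 65535))) (Nat.shiftLeft (nat_lit 1) (Nat.land (Nat.shiftRight (V (nat_lit 4)) (S (nat_lit 51))) (nat_lit 65535))))) (Nat.add (Nat.add (Nat.shiftLeft (nat_lit 1) (Nat.land (Nat.shiftRight (V (nat_lit 5)) (S (nat_lit 19))) (nat_lit 65535))) (Nat.shiftLeft (nat_lit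 1) (Nat.land (Nat.shiftRight (V (nat_lit 5)) (S (nat_lit 31))) (nat_lit 65535)))) (Nat.add (Nat.shiftLeft (nat_lit 1) (Nat.land (Nat.shiftRight (V (nat_lit 5)) (S (nat_lit 39))) (nat_lit 65535))) (Nat.shiftLeft (nat_lit 1) (Nat.land (Nat.shiftRight (V (nat_lit 5)) (S (nat_lit 48))) (nat_lit 65535))))))) (Nat.add (Nat.add (Nat.add (Nat.add (Nat.shiftLeft (nat_lit 1) (Nat.land (Nat.shiftRight (V (nat_lit 6)) (S (nat_lit 17))) (nat_lit 65535))) (Nat.shiftLeft (nat_lit 1) (Nat.land (Nat.shiftRight (V (nat_lit 6)) (S (nat_lit 29))) (nat_lit 65535)))) (Nat.add (Nat.shiftLeft (nat_lit 1) (Nat.land (Nat.shiftRight (V (nat_lit 6)) (S (nat_lit 42))) (nat_lit 65535))) (Nat.shiftLeft (nat_lit 1) (Nat.land (Nat.shiftRight (V (nat_lit 6)) (S (nat_lit 49))) (nat_lit 65535))))) (Nat.add (Nat.add (Nat.shiftLeft (nat_lit 1) (Nat.land (Nat.shiftRight (V (nat_lit 7)) (S (nat_lit 17)))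 (nat_lit 65535))) (Nat.shiftLeft (nat_lit 1) (Nat.land (Nat.shiftRight (V (nat_lit 7)) (S (nat_lit 29))) (nat_lit 65535)))) (Nat.add (Nat.shiftLeft (nat_lit 1) (Nat.land (Nat.shiftRight (V (nat_lit 7)) (S (nat_lit 39))) (nat_lit 65535))) (Nat.shiftLeft (nat_lit 1) (Nat.land (Nat.shiftRight (V (nat_lit 7)) (S (nat_lit 48))) (nat_lit 65535)))))) (Nat.add (Nat.add (Nat.add (Nat.shiftLeft (nat_lit 1) (Nat.land (Nat.shiftRight (V (nat_lit 9)) (S (nat_lit 16))) (nat_lit 65535))) (Nat.shiftLeft (nat_lit 1) (Nat.land (Nat.shiftRight (V (nat_lit 9)) (S (nat_lit 28))) (nat_lit 65535)))) (Nat.add (Nat.shiftLeft (nat_lit 1) (Nat.land (Nat.shiftRight (V (nat_lit 9)) (S (nat_lit 37))) (nat_lit 65535))) (Nat.shiftLeft (nat_lit 1) (Nat.land (Nat.shiftRight (V (nat_lit 9)) (S (nat_lit 54))) (nat_lit 65535))))) (Nat.add (Nat.add (Nat.shiftLeft (nat_lit 1) (Nat.land (Nat.shiftRight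 (V (nat_lit 10)) (S (nat_lit 16))) (nat_lit 65535))) (Nat.shiftLeft (nat_lit 1) (Nat.land (Nat.shiftRight (V (nat_lit 10)) (S (nat_lit 28))) (nat_lit 65535)))) (Nat.add (Nat.shiftLeft (nat_lit 1) (Nat.land (Nat.shiftRight (V (nat_lit 10)) (S (nat_lit 36))) (nat_lit 65535))) (Nat.shiftLeft (nat_lit 1) (Nat.land (Nat.shiftRight (V (nat_lit 10)) (S (nat_lit 51))) (nat_lit 65535)))))))) (Nat.add (Nat.add (Nat.add (Nat.add (Nat.add (Nat.shiftLeft (nat_lit 1) (Nat.land (Nat.shiftRight (V (nat_lit 16)) (S (nat_lit 9))) (nat_lit 65535))) (Nat.shiftLeft (nat_lit 1) (Nat.land (Nat.shiftRight (V (nat_lit 16)) (S (nat_lit 10))) (nat_lit 65535)))) (Nat.add (Nat.shiftLeft (nat_lit 1) (Nat.land (Nat.shiftRight (V (nat_lit 17)) (S (nat_lit 6))) (nat_lit 65535))) (Nat.shiftLeft (nat_lit 1) (Nat.land (Nat.shiftRight (V (nat_lit 17)) (S (nat_lit 7))) (nat_lit 65535))))) (Nat.add (Nat.add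 (Nat.shiftLeft (nat_lit 1) (Nat.land (Nat.shiftRight (V (nat_lit 19)) (S (nat_lit 2))) (nat_lit 65535))) (Nat.shiftLeft (nat_lit 1) (Nat.land (Nat.shiftRight (V (nat_lit 19)) (S (nat_lit 5))) (nat_lit 65535)))) (Nat.add (Nat.shiftLeft (nat_lit 1) (Nat.land (Nat.shiftRight (V (nat_lit 22)) (S (nat_lit 1))) (nat_lit 65535))) (Nat.shiftLeft (nat_lit 1) (Nat.land (Nat.shiftRight (V (nat_lit 22)) (S (nat_lit 4))) (nat_lit 65535)))))) (Nat.add (Nat.add (Nat.add (Nat.shiftLeft (nat_lit 1) (Nat.land (Nat.shiftRight (V (nat_lit 28)) (S (nat_lit 9))) (nat_lit 65535))) (Nat.shiftLeft (nat_lit 1) (Nat.land (Nat.shiftRight (V (nat_lit 28)) (S (nat_lit 10))) (nat_lit 65535)))) (Nat.add (Nat.shiftLeft (nat_lit 1) (Nat.land (Nat.shiftRight (V (nat_lit 29)) (S (nat_lit 6))) (nat_lit 65535))) (Nat.shiftLeft (nat_lit 1) (Nat.land (Nat.shiftRight (V (nat_lit 29)) (S (nat_lit 7))) (nat_lit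 65535))))) (Nat.add (Nat.add (Nat.shiftLeft (nat_lit 1) (Nat.land (Nat.shiftRight (V (nat_lit 31)) (S (nat_lit 2))) (nat_lit 65535))) (Nat.shiftLeft (nat_lit 1) (Nat.land (Nat.shiftRight (V (nat_lit 31)) (S (nat_lit 5))) (nat_lit 65535)))) (Nat.add (Nat.shiftLeft (nat_lit 1) (Nat.land (Nat.shiftRight (V (nat_lit 34)) (S (nat_lit 1))) (nat_lit 65535))) (Nat.shiftLeft (nat_lit 1) (Nat.land (Nat.shiftRight (V (nat_lit 34)) (S (nat_lit 4))) (nat_lit 65535))))))) (Nat.add (Nat.add (Nat.add (Nat.add (Nat.shiftLeft (nat_lit 1) (Nat.land (Nat.shiftRight (V (nat_lit 36)) (S (nat_lit 4))) (nat_lit 65535))) (Nat.shiftLeft (nat_lit 1) (Nat.land (Nat.shiftRight (V (nat_lit 36)) (S (nat_lit 10))) (nat_lit 65535)))) (Nat.add (Nat.shiftLeft (nat_lit 1) (Nat.land (Nat.shiftRight (V (nat_lit 37)) (S (nat_lit 1))) (nat_lit 65535))) (Nat.shiftLeft (nat_lit 1) (Nat.land (Nat.shiftRight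 (V (nat_lit 37)) (S (nat_lit 9))) (nat_lit 65535))))) (Nat.add (Nat.add (Nat.shiftLeft (nat_lit 1) (Nat.land (Nat.shiftRight (V (nat_lit 39)) (S (nat_lit 5))) (nat_lit 65535))) (Nat.shiftLeft (nat_lit 1) (Nat.land (Nat.shiftRight (V (nat_lit 39)) (S (nat_lit 7))) (nat_lit 65535)))) (Nat.add (Nat.shiftLeft (nat_lit 1) (Nat.land (Nat.shiftRight (V (nat_lit 42)) (S (nat_lit 2))) (nat_lit 65535))) (Nat.shiftLeft (nat_lit 1) (Nat.land (Nat.shiftRight (V (nat_lit 42)) (S (nat_lit 6))) (nat_lit 65535)))))) (Nat.add (Nat.add (Nat.add (Nat.shiftLeft (nat_lit 1) (Nat.land (Nat.shiftRight (V (nat_lit 48)) (S (nat_lit 5))) (nat_lit 65535))) (Nat.shiftLeft (nat_lit 1) (Nat.land (Nat.shiftRight (V (nat_lit 48)) (S (nat_lit 7))) (nat_lit 65535)))) (Nat.add (Nat.shiftLeft (nat_lit 1) (Nat.land (Nat.shiftRight (V (nat_lit 49)) (S (nat_lit 2))) (nat_lit 65535))) (Nat.shiftLeft (nat_lit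 1) (Nat.land (Nat.shiftRight (V (nat_lit 49)) (S (nat_lit 6))) (nat_lit 65535))))) (Nat.add (Nat.add (Nat.shiftLeft (nat_lit 1) (Nat.land (Nat.shiftRight (V (nat_lit 51)) (S (nat_lit 4))) (nat_lit 65535))) (Nat.shiftLeft (nat_lit 1) (Nat.land (Nat.shiftRight (V (nat_lit 51)) (S (nat_lit 10))) (nat_lit 65535)))) (Nat.add (Nat.shiftLeft (nat_lit 1) (Nat.land (Nat.shiftRight (V (nat_lit 54)) (S (nat_lit 1))) (nat_lit 65535))) (Nat.shiftLeft (nat_lit 1) (Nat.land (Nat.shiftRight (V (nat_lit 54)) (S (nat_lit 9))) (nat_lit 65535))))))))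
def E86_1 (V S : ℕ → ℕ) : ℕ := Nat.add (Nat.add (Nat.add (Nat.add (Nat.add (Nat.shiftLeft (nat_lit 1) (Nat.land (Nat.shiftRight (V (nat_lit 1)) (S (nat_lit 23))) (nat_lit 65535))) (Nat.shiftLeft (nat_lit 1) (Nat.land (Nat.shiftRight (V (nat_lit 1)) (S (nat_lit 50))) (nat_lit 65535)))) (Nat.add (Nat.shiftLeft (nat_lit 1) (Nat.land (Nat.shiftRight (V (nat_lit 2)) (S (nat_lit 20))) (nat_lit 65535))) (Nat.shiftLeft (nat_lit 1) (Nat.land (Nat.shiftRight (V (nat_lit 2)) (S (nat_lit 38))) (nat_lit 65535))))) (Nat.add (Nat.add (Nat.shiftLeft (nat_lit 1) (Nat.land (Nat.shiftRight (V (nat_lit 4)) (S (nat_lit 35))) (nat_lit 65535))) (Nat.shiftLeft (nat_lit 1) (Nat.land (Nat.shiftRight (V (nat_lit 4)) (S (nat_lit 50))) (nat_lit 65535)))) (Nat.add (Nat.shiftLeft (nat_lit 1) (Nat.land (Nat.shiftRight (V (nat_lit 5)) (S (nat_lit 32))) (nat_lit 65535))) (Nat.shiftLeft (nat_lit 1)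 (Nat.land (Nat.shiftRight (V (nat_lit 5)) (S (nat_lit 38))) (nat_lit 65535)))))) (Nat.add (Nat.add (Nat.add (Nat.shiftLeft (nat_lit 1) (Nat.land (Nat.shiftRight (V (nat_lit 6)) (S (nat_lit 20))) (nat_lit 65535))) (Nat.shiftLeft (nat_lit 1) (Nat.land (Nat.shiftRight (V (nat_lit 6)) (S (nat_lit 57))) (nat_lit 65535)))) (Nat.add (Nat.shiftLeft (nat_lit 1) (Nat.land (Nat.shiftRight (V (nat_lit 7)) (S (nat_lit 32))) (nat_lit 65535))) (Nat.shiftLeft (nat_lit 1) (Nat.land (Nat.shiftRight (V (nat_lit 7)) (S (nat_lit 57))) (nat_lit 65535))))) (Nat.add (Nat.add (Nat.shiftLeft (nat_lit 1) (Nat.land (Nat.shiftRight (V (nat_lit 9)) (S (nat_lit 23))) (nat_lit 65535))) (Nat.shiftLeft (nat_lit 1) (Nat.land (Nat.shiftRight (V (nat_lit 9)) (S (nat_lit 45))) (nat_lit 65535)))) (Nat.add (Nat.shiftLeft (nat_lit 1) (Nat.land (Nat.shiftRight (V (nat_lit 10)) (S (nat_lit 35))) (nat_lit 65535)))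 (Nat.shiftLeft (nat_lit 1) (Nat.land (Nat.shiftRight (V (nat_lit 10)) (S (nat_lit 45))) (nat_lit 65535))))))) (Nat.add (Nat.add (Nat.add (Nat.add (Nat.shiftLeft (nat_lit 1) (Nat.land (Nat.shiftRight (V (nat_lit 20)) (S (nat_lit 2))) (nat_lit 65535))) (Nat.shiftLeft (nat_lit 1) (Nat.land (Nat.shiftRight (V (nat_lit 20)) (S (nat_lit 6))) (nat_lit 65535)))) (Nat.add (Nat.shiftLeft (nat_lit 1) (Nat.land (Nat.shiftRight (V (nat_lit 23)) (S (nat_lit 1))) (nat_lit 65535))) (Nat.shiftLeft (nat_lit 1) (Nat.land (Nat.shiftRight (V (nat_lit 23)) (S (nat_lit 9))) (nat_lit 65535))))) (Nat.add (Nat.add (Nat.shiftLeft (nat_lit 1) (Nat.land (Nat.shiftRight (V (nat_lit 32)) (S (nat_lit 5))) (nat_lit 65535))) (Nat.shiftLeft (nat_lit 1) (Nat.land (Nat.shiftRight (V (nat_lit 32)) (S (nat_lit 7))) (nat_lit 65535)))) (Nat.add (Nat.shiftLeft (nat_lit 1) (Nat.land (Nat.shiftRight (V (nat_lit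 35)) (S (nat_lit 4))) (nat_lit 65535))) (Nat.shiftLeft (nat_lit 1) (Nat.land (Nat.shiftRight (V (nat_lit 35)) (S (nat_lit 10))) (nat_lit 65535)))))) (Nat.add (Nat.add (Nat.add (Nat.shiftLeft (nat_lit 1) (Nat.land (Nat.shiftRight (V (nat_lit 38)) (S (nat_lit 2))) (nat_lit 65535))) (Nat.shiftLeft (nat_lit 1) (Nat.land (Nat.shiftRight (V (nat_lit 38)) (S (nat_lit 5))) (nat_lit 65535)))) (Nat.add (Nat.shiftLeft (nat_lit 1) (Nat.land (Nat.shiftRight (V (nat_lit 45)) (S (nat_lit 9))) (nat_lit 65535))) (Nat.shiftLeft (nat_lit 1) (Nat.land (Nat.shiftRight (V (nat_lit 45)) (S (nat_lit 10))) (nat_lit 65535))))) (Nat.add (Nat.add (Nat.shiftLeft (nat_lit 1) (Nat.land (Nat.shiftRight (V (nat_lit 50)) (S (nat_lit 1))) (nat_lit 65535))) (Nat.shiftLeft (nat_lit 1) (Nat.land (Nat.shiftRight (V (nat_lit 50)) (S (nat_lit 4))) (nat_lit 65535)))) (Nat.add (Nat.shiftLeft (nat_lit 1) (Nat.land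 (Nat.shiftRight (V (nat_lit 57)) (S (nat_lit 6))) (nat_lit 65535))) (Nat.shiftLeft (nat_lit 1) (Nat.land (Nat.shiftRight (V (nat_lit 57)) (S (nat_lit 7))) (nat_lit 65535)))))))
def E87_1 (V S : ℕ → ℕ) : ℕ := Nat.add (Nat.add (Nat.add (Nat.add (Nat.add (Nat.add (Nat.add (Nat.shiftLeft (nat_lit 1) (Nat.land (Nat.shiftRight (V (nat_lit 1)) (S (nat_lit 30))) (nat_lit 65535))) (Nat.shiftLeft (nat_lit 1) (Nat.land (Nat.shiftRight (V (nat_lit 1)) (S (nat_lit 33))) (nat_lit 65535)))) (Nat.add (Nat.shiftLeft (nat_lit 1) (Nat.land (Nat.shiftRight (V (nat_lit 1)) (S (nat_lit 44))) (nat_lit 65535))) (Nat.shiftLeft (nat_lit 1) (Nat.land (Nat.shiftRight (V (nat_lit 1)) (S (nat_lit 46))) (nat_lit 65535))))) (Nat.add (Nat.add (Nat.shiftLeft (nat_lit 1) (Nat.land (Nat.shiftRight (V (nat_lit 2)) (S (nat_lit 30))) (nat_lit 65535))) (Nat.shiftLeft (nat_lit 1) (Nat.land (Nat.shiftRight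 (V (nat_lit 2)) (S (nat_lit 33))) (nat_lit 65535)))) (Nat.add (Nat.shiftLeft (nat_lit 1) (Nat.land (Nat.shiftRight (V (nat_lit 2)) (S (nat_lit 56))) (nat_lit 65535))) (Nat.shiftLeft (nat_lit 1) (Nat.land (Nat.shiftRight (V (nat_lit 2)) (S (nat_lit 58))) (nat_lit 65535)))))) (Nat.add (Nat.add (Nat.add (Nat.shiftLeft (nat_lit 1) (Nat.land (Nat.shiftRight (V (nat_lit 4)) (S (nat_lit 18))) (nat_lit 65535))) (Nat.shiftLeft (nat_lit 1) (Nat.land (Nat.shiftRight (V (nat_lit 4)) (S (nat_lit 21))) (nat_lit 65535)))) (Nat.add (Nat.shiftLeft (nat_lit 1) (Nat.land (Nat.shiftRight (V (nat_lit 4)) (S (nat_lit 41))) (nat_lit 65535))) (Nat.shiftLeft (nat_lit 1) (Nat.land (Nat.shiftRight (V (nat_lit 4)) (S (nat_lit 47))) (nat_lit 65535))))) (Nat.add (Nat.add (Nat.shiftLeft (nat_lit 1) (Nat.land (Nat.shiftRight (V (nat_lit 5)) (S (nat_lit 18))) (nat_lit 65535))) (Nat.shiftLeft (nat_lit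 1) (Nat.land (Nat.shiftRight (V (nat_lit 5)) (S (nat_lit 21))) (nat_lit 65535)))) (Nat.add (Nat.shiftLeft (nat_lit 1) (Nat.land (Nat.shiftRight (V (nat_lit 5)) (S (nat_lit 53))) (nat_lit 65535))) (Nat.shiftLeft (nat_lit 1) (Nat.land (Nat.shiftRight (V (nat_lit 5)) (S (nat_lit 59))) (nat_lit 65535))))))) (Nat.add (Nat.add (Nat.add (Nat.add (Nat.shiftLeft (nat_lit 1) (Nat.land (Nat.shiftRight (V (nat_lit 6)) (S (nat_lit 25))) (nat_lit 65535))) (Nat.shiftLeft (nat_lit 1) (Nat.land (Nat.shiftRight (V (nat_lit 6)) (S (nat_lit 26))) (nat_lit 65535)))) (Nat.add (Nat.shiftLeft (nat_lit 1) (Nat.land (Nat.shiftRight (V (nat_lit 6)) (S (nat_lit 41))) (nat_lit 65535))) (Nat.shiftLeft (nat_lit 1) (Nat.land (Nat.shiftRight (V (nat_lit 6)) (S (nat_lit 47))) (nat_lit 65535))))) (Nat.add (Nat.add (Nat.shiftLeft (nat_lit 1) (Nat.land (Nat.shiftRight (V (nat_lit 7)) (S (nat_lit 13)))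 (nat_lit 65535))) (Nat.shiftLeft (nat_lit 1) (Nat.land (Nat.shiftRight (V (nat_lit 7)) (S (nat_lit 14))) (nat_lit 65535)))) (Nat.add (Nat.shiftLeft (nat_lit 1) (Nat.land (Nat.shiftRight (V (nat_lit 7)) (S (nat_lit 44))) (nat_lit 65535))) (Nat.shiftLeft (nat_lit 1) (Nat.land (Nat.shiftRight (V (nat_lit 7)) (S (nat_lit 46))) (nat_lit 65535)))))) (Nat.add (Nat.add (Nat.add (Nat.shiftLeft (nat_lit 1) (Nat.land (Nat.shiftRight (V (nat_lit 9)) (S (nat_lit 25))) (nat_lit 65535))) (Nat.shiftLeft (nat_lit 1) (Nat.land (Nat.shiftRight (V (nat_lit 9)) (S (nat_lit 26))) (nat_lit 65535)))) (Nat.add (Nat.shiftLeft (nat_lit 1) (Nat.land (Nat.shiftRight (V (nat_lit 9)) (S (nat_lit 53))) (nat_lit 65535))) (Nat.shiftLeft (nat_lit 1) (Nat.land (Nat.shiftRight (V (nat_lit 9)) (S (nat_lit 59))) (nat_lit 65535))))) (Nat.add (Nat.add (Nat.shiftLeft (nat_lit 1) (Nat.land (Nat.shiftRight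 (V (nat_lit 10)) (S (nat_lit 13))) (nat_lit 65535))) (Nat.shiftLeft (nat_lit 1) (Nat.land (Nat.shiftRight (V (nat_lit 10)) (S (nat_lit 14))) (nat_lit 65535)))) (Nat.add (Nat.shiftLeft (nat_lit 1) (Nat.land (Nat.shiftRight (V (nat_lit 10)) (S (nat_lit 56))) (nat_lit 65535))) (Nat.shiftLeft (nat_lit 1) (Nat.land (Nat.shiftRight (V (nat_lit 10)) (S (nat_lit 58))) (nat_lit 65535)))))))) (Nat.add (Nat.add (Nat.add (Nat.add (Nat.add (Nat.shiftLeft (nat_lit 1) (Nat.land (Nat.shiftRight (V (nat_lit 13)) (S (nat_lit 7))) (nat_lit 65535))) (Nat.shiftLeft (nat_lit 1) (Nat.land (Nat.shiftRight (V (nat_lit 13)) (S (nat_lit 10))) (nat_lit 65535)))) (Nat.add (Nat.shiftLeft (nat_lit 1) (Nat.land (Nat.shiftRight (V (nat_lit 13)) (S (nat_lit 19))) (nat_lit 65535))) (Nat.shiftLeft (nat_lit 1) (Nat.land (Nat.shiftRight (V (nat_lit 13)) (S (nat_lit 37))) (nat_lit 65535))))) (Nat.add (Nat.add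 (Nat.shiftLeft (nat_lit 1) (Nat.land (Nat.shiftRight (V (nat_lit 14)) (S (nat_lit 7))) (nat_lit 65535))) (Nat.shiftLeft (nat_lit 1) (Nat.land (Nat.shiftRight (V (nat_lit 14)) (S (nat_lit 10))) (nat_lit 65535)))) (Nat.add (Nat.shiftLeft (nat_lit 1) (Nat.land (Nat.shiftRight (V (nat_lit 14)) (S (nat_lit 22))) (nat_lit 65535))) (Nat.shiftLeft (nat_lit 1) (Nat.land (Nat.shiftRight (V (nat_lit 14)) (S (nat_lit 49))) (nat_lit 65535)))))) (Nat.add (Nat.add (Nat.add (Nat.shiftLeft (nat_lit 1) (Nat.land (Nat.shiftRight (V (nat_lit 16)) (S (nat_lit 18))) (nat_lit 65535))) (Nat.shiftLeft (nat_lit 1) (Nat.land (Nat.shiftRight (V (nat_lit 16)) (S (nat_lit 44))) (nat_lit 65535)))) (Nat.add (Nat.shiftLeft (nat_lit 1) (Nat.land (Nat.shiftRight (V (nat_lit 17)) (S (nat_lit 21))) (nat_lit 65535))) (Nat.shiftLeft (nat_lit 1) (Nat.land (Nat.shiftRight (V (nat_lit 17)) (S (nat_lit 56)))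 (nat_lit 65535))))) (Nat.add (Nat.add (Nat.shiftLeft (nat_lit 1) (Nat.land (Nat.shiftRight (V (nat_lit 18)) (S (nat_lit 4))) (nat_lit 65535))) (Nat.shiftLeft (nat_lit 1) (Nat.land (Nat.shiftRight (V (nat_lit 18)) (S (nat_lit 5))) (nat_lit 65535)))) (Nat.add (Nat.shiftLeft (nat_lit 1) (Nat.land (Nat.shiftRight (V (nat_lit 18)) (S (nat_lit 16))) (nat_lit 65535))) (Nat.shiftLeft (nat_lit 1) (Nat.land (Nat.shiftRight (V (nat_lit 18)) (S (nat_lit 42))) (nat_lit 65535))))))) (Nat.add (Nat.add (Nat.add (Nat.add (Nat.shiftLeft (nat_lit 1) (Nat.land (Nat.shiftRight (V (nat_lit 19)) (S (nat_lit 13))) (nat_lit 65535))) (Nat.shiftLeft (nat_lit 1) (Nat.land (Nat.shiftRight (V (nat_lit 19)) (S (nat_lit 47))) (nat_lit 65535)))) (Nat.add (Nat.shiftLeft (nat_lit 1) (Nat.land (Nat.shiftRight (V (nat_lit 21)) (S (nat_lit 4))) (nat_lit 65535))) (Nat.shiftLeft (nat_lit 1) (Nat.land (Nat.shiftRight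 (V (nat_lit 21)) (S (nat_lit 5))) (nat_lit 65535))))) (Nat.add (Nat.add (Nat.shiftLeft (nat_lit 1) (Nat.land (Nat.shiftRight (V (nat_lit 21)) (S (nat_lit 17))) (nat_lit 65535))) (Nat.shiftLeft (nat_lit 1) (Nat.land (Nat.shiftRight (V (nat_lit 21)) (S (nat_lit 54))) (nat_lit 65535)))) (Nat.add (Nat.shiftLeft (nat_lit 1) (Nat.land (Nat.shiftRight (V (nat_lit 22)) (S (nat_lit 14))) (nat_lit 65535))) (Nat.shiftLeft (nat_lit 1) (Nat.land (Nat.shiftRight (V (nat_lit 22)) (S (nat_lit 59))) (nat_lit 65535)))))) (Nat.add (Nat.add (Nat.add (Nat.shiftLeft (nat_lit 1) (Nat.land (Nat.shiftRight (V (nat_lit 25)) (S (nat_lit 6))) (nat_lit 65535))) (Nat.shiftLeft (nat_lit 1) (Nat.land (Nat.shiftRight (V (nat_lit 25)) (S (nat_lit 9))) (nat_lit 65535)))) (Nat.add (Nat.shiftLeft (nat_lit 1) (Nat.land (Nat.shiftRight (V (nat_lit 25)) (S (nat_lit 31))) (nat_lit 65535))) (Nat.shiftLeft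 (nat_lit 1) (Nat.land (Nat.shiftRight (V (nat_lit 25)) (S (nat_lit 36))) (nat_lit 65535))))) (Nat.add (Nat.add (Nat.shiftLeft (nat_lit 1) (Nat.land (Nat.shiftRight (V (nat_lit 26)) (S (nat_lit 6))) (nat_lit 65535))) (Nat.shiftLeft (nat_lit 1) (Nat.land (Nat.shiftRight (V (nat_lit 26)) (S (nat_lit 9))) (nat_lit 65535)))) (Nat.add (Nat.shiftLeft (nat_lit 1) (Nat.land (Nat.shiftRight (V (nat_lit 26)) (S (nat_lit 34))) (nat_lit 65535))) (Nat.shiftLeft (nat_lit 1) (Nat.land (Nat.shiftRight (V (nat_lit 26)) (S (nat_lit 48))) (nat_lit 65535))))))))) (Nat.add (Nat.add (Nat.add (Nat.add (Nat.add (Nat.add (Nat.shiftLeft (nat_lit 1) (Nat.land (Nat.shiftRight (V (nat_lit 28)) (S (nat_lit 30))) (nat_lit 65535))) (Nat.shiftLeft (nat_lit 1) (Nat.land (Nat.shiftRight (V (nat_lit 28)) (S (nat_lit 41))) (nat_lit 65535)))) (Nat.add (Nat.shiftLeft (nat_lit 1) (Nat.land (Nat.shiftRight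 (V (nat_lit 29)) (S (nat_lit 33))) (nat_lit 65535))) (Nat.shiftLeft (nat_lit 1) (Nat.land (Nat.shiftRight (V (nat_lit 29)) (S (nat_lit 53))) (nat_lit 65535))))) (Nat.add (Nat.add (Nat.shiftLeft (nat_lit 1) (Nat.land (Nat.shiftRight (V (nat_lit 30)) (S (nat_lit 1))) (nat_lit 65535))) (Nat.shiftLeft (nat_lit 1) (Nat.land (Nat.shiftRight (V (nat_lit 30)) (S (nat_lit 2))) (nat_lit 65535)))) (Nat.add (Nat.shiftLeft (nat_lit 1) (Nat.land (Nat.shiftRight (V (nat_lit 30)) (S (nat_lit 28))) (nat_lit 65535))) (Nat.shiftLeft (nat_lit 1) (Nat.land (Nat.shiftRight (V (nat_lit 30)) (S (nat_lit 39))) (nat_lit 65535)))))) (Nat.add (Nat.add (Nat.add (Nat.shiftLeft (nat_lit 1) (Nat.land (Nat.shiftRight (V (nat_lit 31)) (S (nat_lit 25))) (nat_lit 65535))) (Nat.shiftLeft (nat_lit 1) (Nat.land (Nat.shiftRight (V (nat_lit 31)) (S (nat_lit 46))) (nat_lit 65535)))) (Nat.add (Nat.shiftLeft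 (nat_lit 1) (Nat.land (Nat.shiftRight (V (nat_lit 33)) (S (nat_lit 1))) (nat_lit 65535))) (Nat.shiftLeft (nat_lit 1) (Nat.land (Nat.shiftRight (V (nat_lit 33)) (S (nat_lit 2))) (nat_lit 65535))))) (Nat.add (Nat.add (Nat.shiftLeft (nat_lit 1) (Nat.land (Nat.shiftRight (V (nat_lit 33)) (S (nat_lit 29))) (nat_lit 65535))) (Nat.shiftLeft (nat_lit 1) (Nat.land (Nat.shiftRight (V (nat_lit 33)) (S (nat_lit 51))) (nat_lit 65535)))) (Nat.add (Nat.shiftLeft (nat_lit 1) (Nat.land (Nat.shiftRight (V (nat_lit 34)) (S (nat_lit 26))) (nat_lit 65535))) (Nat.shiftLeft (nat_lit 1) (Nat.land (Nat.shiftRight (V (nat_lit 34)) (S (nat_lit 58))) (nat_lit 65535))))))) (Nat.add (Nat.add (Nat.add (Nat.add (Nat.shiftLeft (nat_lit 1) (Nat.land (Nat.shiftRight (V (nat_lit 36)) (S (nat_lit 25))) (nat_lit 65535))) (Nat.shiftLeft (nat_lit 1) (Nat.land (Nat.shiftRight (V (nat_lit 36)) (S (nat_lit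 46))) (nat_lit 65535)))) (Nat.add (Nat.shiftLeft (nat_lit 1) (Nat.land (Nat.shiftRight (V (nat_lit 37)) (S (nat_lit 13))) (nat_lit 65535))) (Nat.shiftLeft (nat_lit 1) (Nat.land (Nat.shiftRight (V (nat_lit 37)) (S (nat_lit 47))) (nat_lit 65535))))) (Nat.add (Nat.add (Nat.shiftLeft (nat_lit 1) (Nat.land (Nat.shiftRight (V (nat_lit 39)) (S (nat_lit 30))) (nat_lit 65535))) (Nat.shiftLeft (nat_lit 1) (Nat.land (Nat.shiftRight (V (nat_lit 39)) (S (nat_lit 41))) (nat_lit 65535)))) (Nat.add (Nat.shiftLeft (nat_lit 1) (Nat.land (Nat.shiftRight (V (nat_lit 41)) (S (nat_lit 4))) (nat_lit 65535))) (Nat.shiftLeft (nat_lit 1) (Nat.land (Nat.shiftRight (V (nat_lit 41)) (S (nat_lit 6))) (nat_lit 65535)))))) (Nat.add (Nat.add (Nat.add (Nat.shiftLeft (nat_lit 1) (Nat.land (Nat.shiftRight (V (nat_lit 41)) (S (nat_lit 28))) (nat_lit 65535))) (Nat.shiftLeft (nat_lit 1) (Nat.land (Nat.shiftRight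 (V (nat_lit 41)) (S (nat_lit 39))) (nat_lit 65535)))) (Nat.add (Nat.shiftLeft (nat_lit 1) (Nat.land (Nat.shiftRight (V (nat_lit 42)) (S (nat_lit 18))) (nat_lit 65535))) (Nat.shiftLeft (nat_lit 1) (Nat.land (Nat.shiftRight (V (nat_lit 42)) (S (nat_lit 44))) (nat_lit 65535))))) (Nat.add (Nat.add (Nat.shiftLeft (nat_lit 1) (Nat.land (Nat.shiftRight (V (nat_lit 44)) (S (nat_lit 1))) (nat_lit 65535))) (Nat.shiftLeft (nat_lit 1) (Nat.land (Nat.shiftRight (V (nat_lit 44)) (S (nat_lit 7))) (nat_lit 65535)))) (Nat.add (Nat.shiftLeft (nat_lit 1) (Nat.land (Nat.shiftRight (V (nat_lit 44)) (S (nat_lit 16))) (nat_lit 65535))) (Nat.shiftLeft (nat_lit 1) (Nat.land (Nat.shiftRight (V (nat_lit 44)) (S (nat_lit 42))) (nat_lit 65535)))))))) (Nat.add (Nat.add (Nat.add (Nat.add (Nat.add (Nat.shiftLeft (nat_lit 1) (Nat.land (Nat.shiftRight (V (nat_lit 46)) (S (nat_lit 1))) (nat_lit 65535)))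 (Nat.shiftLeft (nat_lit 1) (Nat.land (Nat.shiftRight (V (nat_lit 46)) (S (nat_lit 7))) (nat_lit 65535)))) (Nat.add (Nat.shiftLeft (nat_lit 1) (Nat.land (Nat.shiftRight (V (nat_lit 46)) (S (nat_lit 31))) (nat_lit 65535))) (Nat.shiftLeft (nat_lit 1) (Nat.land (Nat.shiftRight (V (nat_lit 46)) (S (nat_lit 36))) (nat_lit 65535))))) (Nat.add (Nat.add (Nat.shiftLeft (nat_lit 1) (Nat.land (Nat.shiftRight (V (nat_lit 47)) (S (nat_lit 4))) (nat_lit 65535))) (Nat.shiftLeft (nat_lit 1) (Nat.land (Nat.shiftRight (V (nat_lit 47)) (S (nat_lit 6))) (nat_lit 65535)))) (Nat.add (Nat.shiftLeft (nat_lit 1) (Nat.land (Nat.shiftRight (V (nat_lit 47)) (S (nat_lit 19))) (nat_lit 65535))) (Nat.shiftLeft (nat_lit 1) (Nat.land (Nat.shiftRight (V (nat_lit 47)) (S (nat_lit 37))) (nat_lit 65535)))))) (Nat.add (Nat.add (Nat.add (Nat.shiftLeft (nat_lit 1) (Nat.land (Nat.shiftRight (V (nat_lit 48))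 (S (nat_lit 26))) (nat_lit 65535))) (Nat.shiftLeft (nat_lit 1) (Nat.land (Nat.shiftRight (V (nat_lit 48)) (S (nat_lit 58))) (nat_lit 65535)))) (Nat.add (Nat.shiftLeft (nat_lit 1) (Nat.land (Nat.shiftRight (V (nat_lit 49)) (S (nat_lit 14))) (nat_lit 65535))) (Nat.shiftLeft (nat_lit 1) (Nat.land (Nat.shiftRight (V (nat_lit 49)) (S (nat_lit 59))) (nat_lit 65535))))) (Nat.add (Nat.add (Nat.shiftLeft (nat_lit 1) (Nat.land (Nat.shiftRight (V (nat_lit 51)) (S (nat_lit 33))) (nat_lit 65535))) (Nat.shiftLeft (nat_lit 1) (Nat.land (Nat.shiftRight (V (nat_lit 51)) (S (nat_lit 53))) (nat_lit 65535)))) (Nat.add (Nat.shiftLeft (nat_lit 1) (Nat.land (Nat.shiftRight (V (nat_lit 53)) (S (nat_lit 5))) (nat_lit 65535))) (Nat.shiftLeft (nat_lit 1) (Nat.land (Nat.shiftRight (V (nat_lit 53)) (S (nat_lit 9))) (nat_lit 65535))))))) (Nat.add (Nat.add (Nat.add (Nat.add (Nat.shiftLeft (nat_lit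 1) (Nat.land (Nat.shiftRight (V (nat_lit 53)) (S (nat_lit 29))) (nat_lit 65535))) (Nat.shiftLeft (nat_lit 1) (Nat.land (Nat.shiftRight (V (nat_lit 53)) (S (nat_lit 51))) (nat_lit 65535)))) (Nat.add (Nat.shiftLeft (nat_lit 1) (Nat.land (Nat.shiftRight (V (nat_lit 54)) (S (nat_lit 21))) (nat_lit 65535))) (Nat.shiftLeft (nat_lit 1) (Nat.land (Nat.shiftRight (V (nat_lit 54)) (S (nat_lit 56))) (nat_lit 65535))))) (Nat.add (Nat.add (Nat.shiftLeft (nat_lit 1) (Nat.land (Nat.shiftRight (V (nat_lit 56)) (S (nat_lit 2))) (nat_lit 65535))) (Nat.shiftLeft (nat_lit 1) (Nat.land (Nat.shiftRight (V (nat_lit 56)) (S (nat_lit 10))) (nat_lit 65535)))) (Nat.add (Nat.shiftLeft (nat_lit 1) (Nat.land (Nat.shiftRight (V (nat_lit 56)) (S (nat_lit 17))) (nat_lit 65535))) (Nat.shiftLeft (nat_lit 1) (Nat.land (Nat.shiftRight (V (nat_lit 56)) (S (nat_lit 54))) (nat_lit 65535)))))) (Nat.add (Nat.add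 (Nat.add (Nat.shiftLeft (nat_lit 1) (Nat.land (Nat.shiftRight (V (nat_lit 58)) (S (nat_lit 2))) (nat_lit 65535))) (Nat.shiftLeft (nat_lit 1) (Nat.land (Nat.shiftRight (V (nat_lit 58)) (S (nat_lit 10))) (nat_lit 65535)))) (Nat.add (Nat.shiftLeft (nat_lit 1) (Nat.land (Nat.shiftRight (V (nat_lit 58)) (S (nat_lit 34))) (nat_lit 65535))) (Nat.shiftLeft (nat_lit 1) (Nat.land (Nat.shiftRight (V (nat_lit 58)) (S (nat_lit 48))) (nat_lit 65535))))) (Nat.add (Nat.add (Nat.shiftLeft (nat_lit 1) (Nat.land (Nat.shiftRight (V (nat_lit 59)) (S (nat_lit 5))) (nat_lit 65535))) (Nat.shiftLeft (nat_lit 1) (Nat.land (Nat.shiftRight (V (nat_lit 59)) (S (nat_lit 9))) (nat_lit 65535)))) (Nat.add (Nat.shiftLeft (nat_lit 1) (Nat.land (Nat.shiftRight (V (nat_lit 59)) (S (nat_lit 22))) (nat_lit 65535))) (Nat.shiftLeft (nat_lit 1) (Nat.land (Nat.shiftRight (V (nat_lit 59)) (S (nat_lit 49)))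 (nat_lit 65535)))))))))
def E88_1 (V S : ℕ → ℕ) : ℕ := Nat.add (Nat.add (Nat.add (Nat.add (Nat.add (Nat.add (Nat.shiftLeft (nat_lit 1) (Nat.land (Nat.shiftRight (V (nat_lit 1)) (S (nat_lit 35))) (nat_lit 65535))) (Nat.shiftLeft (nat_lit 1) (Nat.land (Nat.shiftRight (V (nat_lit 1)) (S (nat_lit 45))) (nat_lit 65535)))) (Nat.add (Nat.shiftLeft (nat_lit 1) (Nat.land (Nat.shiftRight (V (nat_lit 2)) (S (nat_lit 32))) (nat_lit 65535))) (Nat.shiftLeft (nat_lit 1) (Nat.land (Nat.shiftRight (V (nat_lit 2)) (S (nat_lit 57))) (nat_lit 65535))))) (Nat.add (Nat.add (Nat.shiftLeft (nat_lit 1) (Nat.land (Nat.shiftRight (V (nat_lit 4)) (S (nat_lit 23))) (nat_lit 65535))) (Nat.shiftLeft (nat_lit 1) (Nat.land (Nat.shiftRight (V (nat_lit 4)) (S (nat_lit 45))) (nat_lit 65535)))) (Nat.add (Nat.shiftLeft (nat_lit 1) (Nat.land (Nat.shiftRight (V (nat_lit 5)) (S (nat_lit 20))) (nat_lit 65535)))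 (Nat.shiftLeft (nat_lit 1) (Nat.land (Nat.shiftRight (V (nat_lit 5)) (S (nat_lit 57))) (nat_lit 65535)))))) (Nat.add (Nat.add (Nat.add (Nat.shiftLeft (nat_lit 1) (Nat.land (Nat.shiftRight (V (nat_lit 6)) (S (nat_lit 32))) (nat_lit 65535))) (Nat.shiftLeft (nat_lit 1) (Nat.land (Nat.shiftRight (V (nat_lit 6)) (S (nat_lit 38))) (nat_lit 65535)))) (Nat.add (Nat.shiftLeft (nat_lit 1) (Nat.land (Nat.shiftRight (V (nat_lit 7)) (S (nat_lit 20))) (nat_lit 65535))) (Nat.shiftLeft (nat_lit 1) (Nat.land (Nat.shiftRight (V (nat_lit 7)) (S (nat_lit 38))) (nat_lit 65535))))) (Nat.add (Nat.add (Nat.shiftLeft (nat_lit 1) (Nat.land (Nat.shiftRight (V (nat_lit 9)) (S (nat_lit 35))) (nat_lit 65535))) (Nat.shiftLeft (nat_lit 1) (Nat.land (Nat.shiftRight (V (nat_lit 9)) (S (nat_lit 50))) (nat_lit 65535)))) (Nat.add (Nat.shiftLeft (nat_lit 1) (Nat.land (Nat.shiftRight (V (nat_lit 10)) (S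 (nat_lit 23))) (nat_lit 65535))) (Nat.shiftLeft (nat_lit 1) (Nat.land (Nat.shiftRight (V (nat_lit 10)) (S (nat_lit 50))) (nat_lit 65535))))))) (Nat.add (Nat.add (Nat.add (Nat.add (Nat.shiftLeft (nat_lit 1) (Nat.land (Nat.shiftRight (V (nat_lit 16)) (S (nat_lit 36))) (nat_lit 65535))) (Nat.shiftLeft (nat_lit 1) (Nat.land (Nat.shiftRight (V (nat_lit 16)) (S (nat_lit 54))) (nat_lit 65535)))) (Nat.add (Nat.shiftLeft (nat_lit 1) (Nat.land (Nat.shiftRight (V (nat_lit 17)) (S (nat_lit 42))) (nat_lit 65535))) (Nat.shiftLeft (nat_lit 1) (Nat.land (Nat.shiftRight (V (nat_lit 17)) (S (nat_lit 48))) (nat_lit 65535))))) (Nat.add (Nat.add (Nat.shiftLeft (nat_lit 1) (Nat.land (Nat.shiftRight (V (nat_lit 19)) (S (nat_lit 39))) (nat_lit 65535))) (Nat.shiftLeft (nat_lit 1) (Nat.land (Nat.shiftRight (V (nat_lit 19)) (S (nat_lit 49))) (nat_lit 65535)))) (Nat.add (Nat.shiftLeft (nat_lit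 1) (Nat.land (Nat.shiftRight (V (nat_lit 20)) (S (nat_lit 5))) (nat_lit 65535))) (Nat.shiftLeft (nat_lit 1) (Nat.land (Nat.shiftRight (V (nat_lit 20)) (S (nat_lit 7))) (nat_lit 65535)))))) (Nat.add (Nat.add (Nat.add (Nat.shiftLeft (nat_lit 1) (Nat.land (Nat.shiftRight (V (nat_lit 22)) (S (nat_lit 37))) (nat_lit 65535))) (Nat.shiftLeft (nat_lit 1) (Nat.land (Nat.shiftRight (V (nat_lit 22)) (S (nat_lit 51))) (nat_lit 65535)))) (Nat.add (Nat.shiftLeft (nat_lit 1) (Nat.land (Nat.shiftRight (V (nat_lit 23)) (S (nat_lit 4))) (nat_lit 65535))) (Nat.shiftLeft (nat_lit 1) (Nat.land (Nat.shiftRight (V (nat_lit 23)) (S (nat_lit 10))) (nat_lit 65535))))) (Nat.add (Nat.add (Nat.shiftLeft (nat_lit 1) (Nat.land (Nat.shiftRight (V (nat_lit 28)) (S (nat_lit 37))) (nat_lit 65535))) (Nat.shiftLeft (nat_lit 1) (Nat.land (Nat.shiftRight (V (nat_lit 28)) (S (nat_lit 51))) (nat_lit 65535))))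 (Nat.add (Nat.shiftLeft (nat_lit 1) (Nat.land (Nat.shiftRight (V (nat_lit 29)) (S (nat_lit 39))) (nat_lit 65535))) (Nat.shiftLeft (nat_lit 1) (Nat.land (Nat.shiftRight (V (nat_lit 29)) (S (nat_lit 49))) (nat_lit 65535)))))))) (Nat.add (Nat.add (Nat.add (Nat.add (Nat.add (Nat.shiftLeft (nat_lit 1) (Nat.land (Nat.shiftRight (V (nat_lit 31)) (S (nat_lit 42))) (nat_lit 65535))) (Nat.shiftLeft (nat_lit 1) (Nat.land (Nat.shiftRight (V (nat_lit 31)) (S (nat_lit 48))) (nat_lit 65535)))) (Nat.add (Nat.shiftLeft (nat_lit 1) (Nat.land (Nat.shiftRight (V (nat_lit 32)) (S (nat_lit 2))) (nat_lit 65535))) (Nat.shiftLeft (nat_lit 1) (Nat.land (Nat.shiftRight (V (nat_lit 32)) (S (nat_lit 6))) (nat_lit 65535))))) (Nat.add (Nat.add (Nat.shiftLeft (nat_lit 1) (Nat.land (Nat.shiftRight (V (nat_lit 34)) (S (nat_lit 36))) (nat_lit 65535))) (Nat.shiftLeft (nat_lit 1) (Nat.land (Nat.shiftRight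 (V (nat_lit 34)) (S (nat_lit 54))) (nat_lit 65535)))) (Nat.add (Nat.shiftLeft (nat_lit 1) (Nat.land (Nat.shiftRight (V (nat_lit 35)) (S (nat_lit 1))) (nat_lit 65535))) (Nat.shiftLeft (nat_lit 1) (Nat.land (Nat.shiftRight (V (nat_lit 35)) (S (nat_lit 9))) (nat_lit 65535)))))) (Nat.add (Nat.add (Nat.add (Nat.shiftLeft (nat_lit 1) (Nat.land (Nat.shiftRight (V (nat_lit 36)) (S (nat_lit 16))) (nat_lit 65535))) (Nat.shiftLeft (nat_lit 1) (Nat.land (Nat.shiftRight (V (nat_lit 36)) (S (nat_lit 34))) (nat_lit 65535)))) (Nat.add (Nat.shiftLeft (nat_lit 1) (Nat.land (Nat.shiftRight (V (nat_lit 37)) (S (nat_lit 22))) (nat_lit 65535))) (Nat.shiftLeft (nat_lit 1) (Nat.land (Nat.shiftRight (V (nat_lit 37)) (S (nat_lit 28))) (nat_lit 65535))))) (Nat.add (Nat.add (Nat.shiftLeft (nat_lit 1) (Nat.land (Nat.shiftRight (V (nat_lit 38)) (S (nat_lit 6))) (nat_lit 65535))) (Nat.shiftLeft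 (nat_lit 1) (Nat.land (Nat.shiftRight (V (nat_lit 38)) (S (nat_lit 7))) (nat_lit 65535)))) (Nat.add (Nat.shiftLeft (nat_lit 1) (Nat.land (Nat.shiftRight (V (nat_lit 39)) (S (nat_lit 19))) (nat_lit 65535))) (Nat.shiftLeft (nat_lit 1) (Nat.land (Nat.shiftRight (V (nat_lit 39)) (S (nat_lit 29))) (nat_lit 65535))))))) (Nat.add (Nat.add (Nat.add (Nat.add (Nat.shiftLeft (nat_lit 1) (Nat.land (Nat.shiftRight (V (nat_lit 42)) (S (nat_lit 17))) (nat_lit 65535))) (Nat.shiftLeft (nat_lit 1) (Nat.land (Nat.shiftRight (V (nat_lit 42)) (S (nat_lit 31))) (nat_lit 65535)))) (Nat.add (Nat.shiftLeft (nat_lit 1) (Nat.land (Nat.shiftRight (V (nat_lit 45)) (S (nat_lit 1))) (nat_lit 65535))) (Nat.shiftLeft (nat_lit 1) (Nat.land (Nat.shiftRight (V (nat_lit 45)) (S (nat_lit 4))) (nat_lit 65535))))) (Nat.add (Nat.add (Nat.shiftLeft (nat_lit 1) (Nat.land (Nat.shiftRight (V (nat_lit 48)) (S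 (nat_lit 17))) (nat_lit 65535))) (Nat.shiftLeft (nat_lit 1) (Nat.land (Nat.shiftRight (V (nat_lit 48)) (S (nat_lit 31))) (nat_lit 65535)))) (Nat.add (Nat.shiftLeft (nat_lit 1) (Nat.land (Nat.shiftRight (V (nat_lit 49)) (S (nat_lit 19))) (nat_lit 65535))) (Nat.shiftLeft (nat_lit 1) (Nat.land (Nat.shiftRight (V (nat_lit 49)) (S (nat_lit 29))) (nat_lit 65535)))))) (Nat.add (Nat.add (Nat.add (Nat.shiftLeft (nat_lit 1) (Nat.land (Nat.shiftRight (V (nat_lit 50)) (S (nat_lit 9))) (nat_lit 65535))) (Nat.shiftLeft (nat_lit 1) (Nat.land (Nat.shiftRight (V (nat_lit 50)) (S (nat_lit 10))) (nat_lit 65535)))) (Nat.add (Nat.shiftLeft (nat_lit 1) (Nat.land (Nat.shiftRight (V (nat_lit 51)) (S (nat_lit 22))) (nat_lit 65535))) (Nat.shiftLeft (nat_lit 1) (Nat.land (Nat.shiftRight (V (nat_lit 51)) (S (nat_lit 28))) (nat_lit 65535))))) (Nat.add (Nat.add (Nat.shiftLeft (nat_lit 1) (Nat.land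 (Nat.shiftRight (V (nat_lit 54)) (S (nat_lit 16))) (nat_lit 65535))) (Nat.shiftLeft (nat_lit 1) (Nat.land (Nat.shiftRight (V (nat_lit 54)) (S (nat_lit 34))) (nat_lit 65535)))) (Nat.add (Nat.shiftLeft (nat_lit 1) (Nat.land (Nat.shiftRight (V (nat_lit 57)) (S (nat_lit 2))) (nat_lit 65535))) (Nat.shiftLeft (nat_lit 1) (Nat.land (Nat.shiftRight (V (nat_lit 57)) (S (nat_lit 5))) (nat_lit 65535))))))))
def E89_1 (V S : ℕ → ℕ) : ℕ := Nat.add (Nat.add (Nat.add (Nat.add (Nat.add (Nat.add (Nat.shiftLeft (nat_lit 1) (Nat.land (Nat.shiftRight (V (nat_lit 12)) (S (nat_lit 16))) (nat_lit 65535))) (Nat.shiftLeft (nat_lit 1) (Nat.land (Nat.shiftRight (V (nat_lit 12)) (S (nat_lit 17))) (nat_lit 65535)))) (Nat.add (Nat.shiftLeft (nat_lit 1) (Nat.land (Nat.shiftRight (V (nat_lit 12)) (S (nat_lit 36))) (nat_lit 65535))) (Nat.shiftLeft (nat_lit 1) (Nat.land (Nat.shiftRight (V (nat_lit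 12)) (S (nat_lit 48))) (nat_lit 65535))))) (Nat.add (Nat.add (Nat.shiftLeft (nat_lit 1) (Nat.land (Nat.shiftRight (V (nat_lit 15)) (S (nat_lit 19))) (nat_lit 65535))) (Nat.shiftLeft (nat_lit 1) (Nat.land (Nat.shiftRight (V (nat_lit 15)) (S (nat_lit 22))) (nat_lit 65535)))) (Nat.add (Nat.shiftLeft (nat_lit 1) (Nat.land (Nat.shiftRight (V (nat_lit 15)) (S (nat_lit 39))) (nat_lit 65535))) (Nat.shiftLeft (nat_lit 1) (Nat.land (Nat.shiftRight (V (nat_lit 15)) (S (nat_lit 51))) (nat_lit 65535)))))) (Nat.add (Nat.add (Nat.add (Nat.shiftLeft (nat_lit 1) (Nat.land (Nat.shiftRight (V (nat_lit 16)) (S (nat_lit 12))) (nat_lit 65535))) (Nat.shiftLeft (nat_lit 1) (Nat.land (Nat.shiftRight (V (nat_lit 16)) (S (nat_lit 55))) (nat_lit 65535)))) (Nat.add (Nat.shiftLeft (nat_lit 1) (Nat.land (Nat.shiftRight (V (nat_lit 17)) (S (nat_lit 12))) (nat_lit 65535))) (Nat.shiftLeft (nat_lit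 1) (Nat.land (Nat.shiftRight (V (nat_lit 17)) (S (nat_lit 43))) (nat_lit 65535))))) (Nat.add (Nat.add (Nat.shiftLeft (nat_lit 1) (Nat.land (Nat.shiftRight (V (nat_lit 19)) (S (nat_lit 15))) (nat_lit 65535))) (Nat.shiftLeft (nat_lit 1) (Nat.land (Nat.shiftRight (V (nat_lit 19)) (S (nat_lit 52))) (nat_lit 65535)))) (Nat.add (Nat.shiftLeft (nat_lit 1) (Nat.land (Nat.shiftRight (V (nat_lit 22)) (S (nat_lit 15))) (nat_lit 65535))) (Nat.shiftLeft (nat_lit 1) (Nat.land (Nat.shiftRight (V (nat_lit 22)) (S (nat_lit 40))) (nat_lit 65535))))))) (Nat.add (Nat.add (Nat.add (Nat.add (Nat.shiftLeft (nat_lit 1) (Nat.land (Nat.shiftRight (V (nat_lit 24)) (S (nat_lit 28))) (nat_lit 65535))) (Nat.shiftLeft (nat_lit 1) (Nat.land (Nat.shiftRight (V (nat_lit 24)) (S (nat_lit 29))) (nat_lit 65535)))) (Nat.add (Nat.shiftLeft (nat_lit 1) (Nat.land (Nat.shiftRight (V (nat_lit 24)) (S (nat_lit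 37))) (nat_lit 65535))) (Nat.shiftLeft (nat_lit 1) (Nat.land (Nat.shiftRight (V (nat_lit 24)) (S (nat_lit 49))) (nat_lit 65535))))) (Nat.add (Nat.add (Nat.shiftLeft (nat_lit 1) (Nat.land (Nat.shiftRight (V (nat_lit 27)) (S (nat_lit 31))) (nat_lit 65535))) (Nat.shiftLeft (nat_lit 1) (Nat.land (Nat.shiftRight (V (nat_lit 27)) (S (nat_lit 34))) (nat_lit 65535)))) (Nat.add (Nat.shiftLeft (nat_lit 1) (Nat.land (Nat.shiftRight (V (nat_lit 27)) (S (nat_lit 42))) (nat_lit 65535))) (Nat.shiftLeft (nat_lit 1) (Nat.land (Nat.shiftRight (V (nat_lit 27)) (S (nat_lit 54))) (nat_lit 65535)))))) (Nat.add (Nat.add (Nat.add (Nat.shiftLeft (nat_lit 1) (Nat.land (Nat.shiftRight (V (nat_lit 28)) (S (nat_lit 24))) (nat_lit 65535))) (Nat.shiftLeft (nat_lit 1) (Nat.land (Nat.shiftRight (V (nat_lit 28)) (S (nat_lit 52))) (nat_lit 65535)))) (Nat.add (Nat.shiftLeft (nat_lit 1) (Nat.land (Nat.shiftRight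 (V (nat_lit 29)) (S (nat_lit 24))) (nat_lit 65535))) (Nat.shiftLeft (nat_lit 1) (Nat.land (Nat.shiftRight (V (nat_lit 29)) (S (nat_lit 40))) (nat_lit 65535))))) (Nat.add (Nat.add (Nat.shiftLeft (nat_lit 1) (Nat.land (Nat.shiftRight (V (nat_lit 31)) (S (nat_lit 27))) (nat_lit 65535))) (Nat.shiftLeft (nat_lit 1) (Nat.land (Nat.shiftRight (V (nat_lit 31)) (S (nat_lit 55))) (nat_lit 65535)))) (Nat.add (Nat.shiftLeft (nat_lit 1) (Nat.land (Nat.shiftRight (V (nat_lit 34)) (S (nat_lit 27))) (nat_lit 65535))) (Nat.shiftLeft (nat_lit 1) (Nat.land (Nat.shiftRight (V (nat_lit 34)) (S (nat_lit 43))) (nat_lit 65535)))))))) (Nat.add (Nat.add (Nat.add (Nat.add (Nat.add (Nat.shiftLeft (nat_lit 1) (Nat.land (Nat.shiftRight (V (nat_lit 36)) (S (nat_lit 12))) (nat_lit 65535))) (Nat.shiftLeft (nat_lit 1) (Nat.land (Nat.shiftRight (V (nat_lit 36)) (S (nat_lit 43))) (nat_lit 65535))))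 (Nat.add (Nat.shiftLeft (nat_lit 1) (Nat.land (Nat.shiftRight (V (nat_lit 37)) (S (nat_lit 24))) (nat_lit 65535))) (Nat.shiftLeft (nat_lit 1) (Nat.land (Nat.shiftRight (V (nat_lit 37)) (S (nat_lit 40))) (nat_lit 65535))))) (Nat.add (Nat.add (Nat.shiftLeft (nat_lit 1) (Nat.land (Nat.shiftRight (V (nat_lit 39)) (S (nat_lit 15))) (nat_lit 65535))) (Nat.shiftLeft (nat_lit 1) (Nat.land (Nat.shiftRight (V (nat_lit 39)) (S (nat_lit 40))) (nat_lit 65535)))) (Nat.add (Nat.shiftLeft (nat_lit 1) (Nat.land (Nat.shiftRight (V (nat_lit 40)) (S (nat_lit 22))) (nat_lit 65535))) (Nat.shiftLeft (nat_lit 1) (Nat.land (Nat.shiftRight (V (nat_lit 40)) (S (nat_lit 29))) (nat_lit 65535)))))) (Nat.add (Nat.add (Nat.add (Nat.shiftLeft (nat_lit 1) (Nat.land (Nat.shiftRight (V (nat_lit 40)) (S (nat_lit 37))) (nat_lit 65535))) (Nat.shiftLeft (nat_lit 1) (Nat.land (Nat.shiftRight (V (nat_lit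 40)) (S (nat_lit 39))) (nat_lit 65535)))) (Nat.add (Nat.shiftLeft (nat_lit 1) (Nat.land (Nat.shiftRight (V (nat_lit 42)) (S (nat_lit 27))) (nat_lit 65535))) (Nat.shiftLeft (nat_lit 1) (Nat.land (Nat.shiftRight (V (nat_lit 42)) (S (nat_lit 43))) (nat_lit 65535))))) (Nat.add (Nat.add (Nat.shiftLeft (nat_lit 1) (Nat.land (Nat.shiftRight (V (nat_lit 43)) (S (nat_lit 17))) (nat_lit 65535))) (Nat.shiftLeft (nat_lit 1) (Nat.land (Nat.shiftRight (V (nat_lit 43)) (S (nat_lit 34))) (nat_lit 65535)))) (Nat.add (Nat.shiftLeft (nat_lit 1) (Nat.land (Nat.shiftRight (V (nat_lit 43)) (S (nat_lit 36))) (nat_lit 65535))) (Nat.shiftLeft (nat_lit 1) (Nat.land (Nat.shiftRight (V (nat_lit 43)) (S (nat_lit 42))) (nat_lit 65535))))))) (Nat.add (Nat.add (Nat.add (Nat.add (Nat.shiftLeft (nat_lit 1) (Nat.land (Nat.shiftRight (V (nat_lit 48)) (S (nat_lit 12))) (nat_lit 65535))) (Nat.shiftLeft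 (nat_lit 1) (Nat.land (Nat.shiftRight (V (nat_lit 48)) (S (nat_lit 55))) (nat_lit 65535)))) (Nat.add (Nat.shiftLeft (nat_lit 1) (Nat.land (Nat.shiftRight (V (nat_lit 49)) (S (nat_lit 24))) (nat_lit 65535))) (Nat.shiftLeft (nat_lit 1) (Nat.land (Nat.shiftRight (V (nat_lit 49)) (S (nat_lit 52))) (nat_lit 65535))))) (Nat.add (Nat.add (Nat.shiftLeft (nat_lit 1) (Nat.land (Nat.shiftRight (V (nat_lit 51)) (S (nat_lit 15))) (nat_lit 65535))) (Nat.shiftLeft (nat_lit 1) (Nat.land (Nat.shiftRight (V (nat_lit 51)) (S (nat_lit 52))) (nat_lit 65535)))) (Nat.add (Nat.shiftLeft (nat_lit 1) (Nat.land (Nat.shiftRight (V (nat_lit 52)) (S (nat_lit 19))) (nat_lit 65535))) (Nat.shiftLeft (nat_lit 1) (Nat.land (Nat.shiftRight (V (nat_lit 52)) (S (nat_lit 28))) (nat_lit 65535)))))) (Nat.add (Nat.add (Nat.add (Nat.shiftLeft (nat_lit 1) (Nat.land (Nat.shiftRight (V (nat_lit 52)) (S (nat_lit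 49))) (nat_lit 65535))) (Nat.shiftLeft (nat_lit 1) (Nat.land (Nat.shiftRight (V (nat_lit 52)) (S (nat_lit 51))) (nat_lit 65535)))) (Nat.add (Nat.shiftLeft (nat_lit 1) (Nat.land (Nat.shiftRight (V (nat_lit 54)) (S (nat_lit 27))) (nat_lit 65535))) (Nat.shiftLeft (nat_lit 1) (Nat.land (Nat.shiftRight (V (nat_lit 54)) (S (nat_lit 55))) (nat_lit 65535))))) (Nat.add (Nat.add (Nat.shiftLeft (nat_lit 1) (Nat.land (Nat.shiftRight (V (nat_lit 55)) (S (nat_lit 16))) (nat_lit 65535))) (Nat.shiftLeft (nat_lit 1) (Nat.land (Nat.shiftRight (V (nat_lit 55)) (S (nat_lit 31))) (nat_lit 65535)))) (Nat.add (Nat.shiftLeft (nat_lit 1) (Nat.land (Nat.shiftRight (V (nat_lit 55)) (S (nat_lit 48))) (nat_lit 65535))) (Nat.shiftLeft (nat_lit 1) (Nat.land (Nat.shiftRight (V (nat_lit 55)) (S (nat_lit 54))) (nat_lit 65535))))))))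
def E92_1 (V S : ℕ → ℕ) : ℕ := Nat.add (Nat.add (Nat.add (Nat.add (Nat.add (Nat.add (Nat.shiftLeft (nat_lit 1) (Nat.land (Nat.shiftRight (V (nat_lit 12)) (S (nat_lit 28))) (nat_lit 65535))) (Nat.shiftLeft (nat_lit 1) (Nat.land (Nat.shiftRight (V (nat_lit 12)) (S (nat_lit 29))) (nat_lit 65535)))) (Nat.add (Nat.shiftLeft (nat_lit 1) (Nat.land (Nat.shiftRight (V (nat_lit 12)) (S (nat_lit 39))) (nat_lit 65535))) (Nat.shiftLeft (nat_lit 1) (Nat.land (Nat.shiftRight (V (nat_lit 12)) (S (nat_lit 51))) (nat_lit 65535))))) (Nat.add (Nat.add (Nat.shiftLeft (nat_lit 1) (Nat.land (Nat.shiftRight (V (nat_lit 15)) (S (nat_lit 31))) (nat_lit 65535))) (Nat.shiftLeft (nat_lit 1) (Nat.land (Nat.shiftRight (V (nat_lit 15)) (S (nat_lit 34))) (nat_lit 65535)))) (Nat.add (Nat.shiftLeft (nat_lit 1) (Nat.land (Nat.shiftRight (V (nat_lit 15)) (S (nat_lit 36))) (nat_lit 65535))) (Nat.shiftLeft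 (nat_lit 1) (Nat.land (Nat.shiftRight (V (nat_lit 15)) (S (nat_lit 48))) (nat_lit 65535)))))) (Nat.add (Nat.add (Nat.add (Nat.shiftLeft (nat_lit 1) (Nat.land (Nat.shiftRight (V (nat_lit 16)) (S (nat_lit 24))) (nat_lit 65535))) (Nat.shiftLeft (nat_lit 1) (Nat.land (Nat.shiftRight (V (nat_lit 16)) (S (nat_lit 52))) (nat_lit 65535)))) (Nat.add (Nat.shiftLeft (nat_lit 1) (Nat.land (Nat.shiftRight (V (nat_lit 17)) (S (nat_lit 24))) (nat_lit 65535))) (Nat.shiftLeft (nat_lit 1) (Nat.land (Nat.shiftRight (V (nat_lit 17)) (S (nat_lit 40))) (nat_lit 65535))))) (Nat.add (Nat.add (Nat.shiftLeft (nat_lit 1) (Nat.land (Nat.shiftRight (V (nat_lit 19)) (S (nat_lit 27))) (nat_lit 65535))) (Nat.shiftLeft (nat_lit 1) (Nat.land (Nat.shiftRight (V (nat_lit 19)) (S (nat_lit 55))) (nat_lit 65535)))) (Nat.add (Nat.shiftLeft (nat_lit 1) (Nat.land (Nat.shiftRight (V (nat_lit 22)) (S (nat_lit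 27))) (nat_lit 65535))) (Nat.shiftLeft (nat_lit 1) (Nat.land (Nat.shiftRight (V (nat_lit 22)) (S (nat_lit 43))) (nat_lit 65535))))))) (Nat.add (Nat.add (Nat.add (Nat.add (Nat.shiftLeft (nat_lit 1) (Nat.land (Nat.shiftRight (V (nat_lit 24)) (S (nat_lit 16))) (nat_lit 65535))) (Nat.shiftLeft (nat_lit 1) (Nat.land (Nat.shiftRight (V (nat_lit 24)) (S (nat_lit 17))) (nat_lit 65535)))) (Nat.add (Nat.shiftLeft (nat_lit 1) (Nat.land (Nat.shiftRight (V (nat_lit 24)) (S (nat_lit 42))) (nat_lit 65535))) (Nat.shiftLeft (nat_lit 1) (Nat.land (Nat.shiftRight (V (nat_lit 24)) (S (nat_lit 54))) (nat_lit 65535))))) (Nat.add (Nat.add (Nat.shiftLeft (nat_lit 1) (Nat.land (Nat.shiftRight (V (nat_lit 27)) (S (nat_lit 19))) (nat_lit 65535))) (Nat.shiftLeft (nat_lit 1) (Nat.land (Nat.shiftRight (V (nat_lit 27)) (S (nat_lit 22))) (nat_lit 65535)))) (Nat.add (Nat.shiftLeft (nat_lit 1) (Nat.land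 (Nat.shiftRight (V (nat_lit 27)) (S (nat_lit 37))) (nat_lit 65535))) (Nat.shiftLeft (nat_lit 1) (Nat.land (Nat.shiftRight (V (nat_lit 27)) (S (nat_lit 49))) (nat_lit 65535)))))) (Nat.add (Nat.add (Nat.add (Nat.shiftLeft (nat_lit 1) (Nat.land (Nat.shiftRight (V (nat_lit 28)) (S (nat_lit 12))) (nat_lit 65535))) (Nat.shiftLeft (nat_lit 1) (Nat.land (Nat.shiftRight (V (nat_lit 28)) (S (nat_lit 55))) (nat_lit 65535)))) (Nat.add (Nat.shiftLeft (nat_lit 1) (Nat.land (Nat.shiftRight (V (nat_lit 29)) (S (nat_lit 12))) (nat_lit 65535))) (Nat.shiftLeft (nat_lit 1) (Nat.land (Nat.shiftRight (V (nat_lit 29)) (S (nat_lit 43))) (nat_lit 65535))))) (Nat.add (Nat.add (Nat.shiftLeft (nat_lit 1) (Nat.land (Nat.shiftRight (V (nat_lit 31)) (S (nat_lit 15))) (nat_lit 65535))) (Nat.shiftLeft (nat_lit 1) (Nat.land (Nat.shiftRight (V (nat_lit 31)) (S (nat_lit 52))) (nat_lit 65535)))) (Nat.add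 (Nat.shiftLeft (nat_lit 1) (Nat.land (Nat.shiftRight (V (nat_lit 34)) (S (nat_lit 15))) (nat_lit 65535))) (Nat.shiftLeft (nat_lit 1) (Nat.land (Nat.shiftRight (V (nat_lit 34)) (S (nat_lit 40))) (nat_lit 65535)))))))) (Nat.add (Nat.add (Nat.add (Nat.add (Nat.add (Nat.shiftLeft (nat_lit 1) (Nat.land (Nat.shiftRight (V (nat_lit 36)) (S (nat_lit 15))) (nat_lit 65535))) (Nat.shiftLeft (nat_lit 1) (Nat.land (Nat.shiftRight (V (nat_lit 36)) (S (nat_lit 52))) (nat_lit 65535)))) (Nat.add (Nat.shiftLeft (nat_lit 1) (Nat.land (Nat.shiftRight (V (nat_lit 37)) (S (nat_lit 27))) (nat_lit 65535))) (Nat.shiftLeft (nat_lit 1) (Nat.land (Nat.shiftRight (V (nat_lit 37)) (S (nat_lit 55))) (nat_lit 65535))))) (Nat.add (Nat.add (Nat.shiftLeft (nat_lit 1) (Nat.land (Nat.shiftRight (V (nat_lit 39)) (S (nat_lit 12))) (nat_lit 65535))) (Nat.shiftLeft (nat_lit 1) (Nat.land (Nat.shiftRight (V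 (nat_lit 39)) (S (nat_lit 55))) (nat_lit 65535)))) (Nat.add (Nat.shiftLeft (nat_lit 1) (Nat.land (Nat.shiftRight (V (nat_lit 40)) (S (nat_lit 17))) (nat_lit 65535))) (Nat.shiftLeft (nat_lit 1) (Nat.land (Nat.shiftRight (V (nat_lit 40)) (S (nat_lit 34))) (nat_lit 65535)))))) (Nat.add (Nat.add (Nat.add (Nat.shiftLeft (nat_lit 1) (Nat.land (Nat.shiftRight (V (nat_lit 40)) (S (nat_lit 48))) (nat_lit 65535))) (Nat.shiftLeft (nat_lit 1) (Nat.land (Nat.shiftRight (V (nat_lit 40)) (S (nat_lit 54))) (nat_lit 65535)))) (Nat.add (Nat.shiftLeft (nat_lit 1) (Nat.land (Nat.shiftRight (V (nat_lit 42)) (S (nat_lit 24))) (nat_lit 65535))) (Nat.shiftLeft (nat_lit 1) (Nat.land (Nat.shiftRight (V (nat_lit 42)) (S (nat_lit 52))) (nat_lit 65535))))) (Nat.add (Nat.add (Nat.shiftLeft (nat_lit 1) (Nat.land (Nat.shiftRight (V (nat_lit 43)) (S (nat_lit 22))) (nat_lit 65535))) (Nat.shiftLeft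 (nat_lit 1) (Nat.land (Nat.shiftRight (V (nat_lit 43)) (S (nat_lit 29))) (nat_lit 65535)))) (Nat.add (Nat.shiftLeft (nat_lit 1) (Nat.land (Nat.shiftRight (V (nat_lit 43)) (S (nat_lit 49))) (nat_lit 65535))) (Nat.shiftLeft (nat_lit 1) (Nat.land (Nat.shiftRight (V (nat_lit 43)) (S (nat_lit 51))) (nat_lit 65535))))))) (Nat.add (Nat.add (Nat.add (Nat.add (Nat.shiftLeft (nat_lit 1) (Nat.land (Nat.shiftRight (V (nat_lit 48)) (S (nat_lit 15))) (nat_lit 65535))) (Nat.shiftLeft (nat_lit 1) (Nat.land (Nat.shiftRight (V (nat_lit 48)) (S (nat_lit 40))) (nat_lit 65535)))) (Nat.add (Nat.shiftLeft (nat_lit 1) (Nat.land (Nat.shiftRight (V (nat_lit 49)) (S (nat_lit 27))) (nat_lit 65535))) (Nat.shiftLeft (nat_lit 1) (Nat.land (Nat.shiftRight (V (nat_lit 49)) (S (nat_lit 43))) (nat_lit 65535))))) (Nat.add (Nat.add (Nat.shiftLeft (nat_lit 1) (Nat.land (Nat.shiftRight (V (nat_lit 51))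 (S (nat_lit 12))) (nat_lit 65535))) (Nat.shiftLeft (nat_lit 1) (Nat.land (Nat.shiftRight (V (nat_lit 51)) (S (nat_lit 43))) (nat_lit 65535)))) (Nat.add (Nat.shiftLeft (nat_lit 1) (Nat.land (Nat.shiftRight (V (nat_lit 52)) (S (nat_lit 16))) (nat_lit 65535))) (Nat.shiftLeft (nat_lit 1) (Nat.land (Nat.shiftRight (V (nat_lit 52)) (S (nat_lit 31))) (nat_lit 65535)))))) (Nat.add (Nat.add (Nat.add (Nat.shiftLeft (nat_lit 1) (Nat.land (Nat.shiftRight (V (nat_lit 52)) (S (nat_lit 36))) (nat_lit 65535))) (Nat.shiftLeft (nat_lit 1) (Nat.land (Nat.shiftRight (V (nat_lit 52)) (S (nat_lit 42))) (nat_lit 65535)))) (Nat.add (Nat.shiftLeft (nat_lit 1) (Nat.land (Nat.shiftRight (V (nat_lit 54)) (S (nat_lit 24))) (nat_lit 65535))) (Nat.shiftLeft (nat_lit 1) (Nat.land (Nat.shiftRight (V (nat_lit 54)) (S (nat_lit 40))) (nat_lit 65535))))) (Nat.add (Nat.add (Nat.shiftLeft (nat_lit 1) (Nat.land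 (Nat.shiftRight (V (nat_lit 55)) (S (nat_lit 19))) (nat_lit 65535))) (Nat.shiftLeft (nat_lit 1) (Nat.land (Nat.shiftRight (V (nat_lit 55)) (S (nat_lit 28))) (nat_lit 65535)))) (Nat.add (Nat.shiftLeft (nat_lit 1) (Nat.land (Nat.shiftRight (V (nat_lit 55)) (S (nat_lit 37))) (nat_lit 65535))) (Nat.shiftLeft (nat_lit 1) (Nat.land (Nat.shiftRight (V (nat_lit 55)) (S (nat_lit 39))) (nat_lit 65535))))))))
def E93_1 (V S : ℕ → ℕ) : ℕ := Nat.add (Nat.add (Nat.add (Nat.add (Nat.add (Nat.add (Nat.add (Nat.shiftLeft (nat_lit 1) (Nat.land (Nat.shiftRight (V (nat_lit 12)) (S (nat_lit 20))) (nat_lit 65535))) (Nat.add (Nat.shiftLeft (nat_lit 1) (Nat.land (Nat.shiftRight (V (nat_lit 12)) (S (nat_lit 23))) (nat_lit 65535))) (Nat.shiftLeft (nat_lit 1) (Nat.land (Nat.shiftRight (V (nat_lit 12)) (S (nat_lit 38))) (nat_lit 65535))))) (Nat.add (Nat.shiftLeft (nat_lit 1) (Nat.land (Nat.shiftRight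 (V (nat_lit 12)) (S (nat_lit 44))) (nat_lit 65535))) (Nat.add (Nat.shiftLeft (nat_lit 1) (Nat.land (Nat.shiftRight (V (nat_lit 12)) (S (nat_lit 46))) (nat_lit 65535))) (Nat.shiftLeft (nat_lit 1) (Nat.land (Nat.shiftRight (V (nat_lit 12)) (S (nat_lit 50))) (nat_lit 65535)))))) (Nat.add (Nat.add (Nat.shiftLeft (nat_lit 1) (Nat.land (Nat.shiftRight (V (nat_lit 12)) (S (nat_lit 56))) (nat_lit 65535))) (Nat.add (Nat.shiftLeft (nat_lit 1) (Nat.land (Nat.shiftRight (V (nat_lit 12)) (S (nat_lit 58))) (nat_lit 65535))) (Nat.shiftLeft (nat_lit 1) (Nat.land (Nat.shiftRight (V (nat_lit 13)) (S (nat_lit 22))) (nat_lit 65535))))) (Nat.add (Nat.shiftLeft (nat_lit 1) (Nat.land (Nat.shiftRight (V (nat_lit 13)) (S (nat_lit 40))) (nat_lit 65535))) (Nat.add (Nat.shiftLeft (nat_lit 1) (Nat.land (Nat.shiftRight (V (nat_lit 13)) (S (nat_lit 49))) (nat_lit 65535))) (Nat.shiftLeft (nat_lit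 1) (Nat.land (Nat.shiftRight (V (nat_lit 13)) (S (nat_lit 52))) (nat_lit 65535))))))) (Nat.add (Nat.add (Nat.add (Nat.shiftLeft (nat_lit 1) (Nat.land (Nat.shiftRight (V (nat_lit 14)) (S (nat_lit 19))) (nat_lit 65535))) (Nat.add (Nat.shiftLeft (nat_lit 1) (Nat.land (Nat.shiftRight (V (nat_lit 14)) (S (nat_lit 37))) (nat_lit 65535))) (Nat.shiftLeft (nat_lit 1) (Nat.land (Nat.shiftRight (V (nat_lit 14)) (S (nat_lit 40))) (nat_lit 65535))))) (Nat.add (Nat.shiftLeft (nat_lit 1) (Nat.land (Nat.shiftRight (V (nat_lit 14)) (S (nat_lit 52))) (nat_lit 65535))) (Nat.add (Nat.shiftLeft (nat_lit 1) (Nat.land (Nat.shiftRight (V (nat_lit 15)) (S (nat_lit 20))) (nat_lit 65535))) (Nat.shiftLeft (nat_lit 1) (Nat.land (Nat.shiftRight (V (nat_lit 15)) (S (nat_lit 23))) (nat_lit 65535)))))) (Nat.add (Nat.add (Nat.shiftLeft (nat_lit 1) (Nat.land (Nat.shiftRight (V (nat_lit 15)) (S (nat_lit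 41))) (nat_lit 65535))) (Nat.add (Nat.shiftLeft (nat_lit 1) (Nat.land (Nat.shiftRight (V (nat_lit 15)) (S (nat_lit 45))) (nat_lit 65535))) (Nat.shiftLeft (nat_lit 1) (Nat.land (Nat.shiftRight (V (nat_lit 15)) (S (nat_lit 47))) (nat_lit 65535))))) (Nat.add (Nat.shiftLeft (nat_lit 1) (Nat.land (Nat.shiftRight (V (nat_lit 15)) (S (nat_lit 53))) (nat_lit 65535))) (Nat.add (Nat.shiftLeft (nat_lit 1) (Nat.land (Nat.shiftRight (V (nat_lit 15)) (S (nat_lit 57))) (nat_lit 65535))) (Nat.shiftLeft (nat_lit 1) (Nat.land (Nat.shiftRight (V (nat_lit 15)) (S (nat_lit 59))) (nat_lit 65535)))))))) (Nat.add (Nat.add (Nat.add (Nat.add (Nat.shiftLeft (nat_lit 1) (Nat.land (Nat.shiftRight (V (nat_lit 16)) (S (nat_lit 21))) (nat_lit 65535))) (Nat.add (Nat.shiftLeft (nat_lit 1) (Nat.land (Nat.shiftRight (V (nat_lit 16)) (S (nat_lit 46))) (nat_lit 65535))) (Nat.shiftLeft (nat_lit 1) (Nat.land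 (Nat.shiftRight (V (nat_lit 17)) (S (nat_lit 18))) (nat_lit 65535))))) (Nat.add (Nat.shiftLeft (nat_lit 1) (Nat.land (Nat.shiftRight (V (nat_lit 17)) (S (nat_lit 58))) (nat_lit 65535))) (Nat.add (Nat.shiftLeft (nat_lit 1) (Nat.land (Nat.shiftRight (V (nat_lit 18)) (S (nat_lit 17))) (nat_lit 65535))) (Nat.shiftLeft (nat_lit 1) (Nat.land (Nat.shiftRight (V (nat_lit 18)) (S (nat_lit 43))) (nat_lit 65535)))))) (Nat.add (Nat.add (Nat.shiftLeft (nat_lit 1) (Nat.land (Nat.shiftRight (V (nat_lit 18)) (S (nat_lit 54))) (nat_lit 65535))) (Nat.add (Nat.shiftLeft (nat_lit 1) (Nat.land (Nat.shiftRight (V (nat_lit 18)) (S (nat_lit 55))) (nat_lit 65535))) (Nat.shiftLeft (nat_lit 1) (Nat.land (Nat.shiftRight (V (nat_lit 19)) (S (nat_lit 14))) (nat_lit 65535))))) (Nat.add (Nat.shiftLeft (nat_lit 1) (Nat.land (Nat.shiftRight (V (nat_lit 19)) (S (nat_lit 41))) (nat_lit 65535))) (Nat.add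 (Nat.shiftLeft (nat_lit 1) (Nat.land (Nat.shiftRight (V (nat_lit 20)) (S (nat_lit 12))) (nat_lit 65535))) (Nat.shiftLeft (nat_lit 1) (Nat.land (Nat.shiftRight (V (nat_lit 20)) (S (nat_lit 15))) (nat_lit 65535))))))) (Nat.add (Nat.add (Nat.add (Nat.shiftLeft (nat_lit 1) (Nat.land (Nat.shiftRight (V (nat_lit 20)) (S (nat_lit 40))) (nat_lit 65535))) (Nat.add (Nat.shiftLeft (nat_lit 1) (Nat.land (Nat.shiftRight (V (nat_lit 20)) (S (nat_lit 55))) (nat_lit 65535))) (Nat.shiftLeft (nat_lit 1) (Nat.land (Nat.shiftRight (V (nat_lit 21)) (S (nat_lit 16))) (nat_lit 65535))))) (Nat.add (Nat.shiftLeft (nat_lit 1) (Nat.land (Nat.shiftRight (V (nat_lit 21)) (S (nat_lit 42))) (nat_lit 65535))) (Nat.add (Nat.shiftLeft (nat_lit 1) (Nat.land (Nat.shiftRight (V (nat_lit 21)) (S (nat_lit 43))) (nat_lit 65535))) (Nat.shiftLeft (nat_lit 1) (Nat.land (Nat.shiftRight (V (nat_lit 21)) (S (nat_lit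 55))) (nat_lit 65535)))))) (Nat.add (Nat.add (Nat.shiftLeft (nat_lit 1) (Nat.land (Nat.shiftRight (V (nat_lit 22)) (S (nat_lit 13))) (nat_lit 65535))) (Nat.add (Nat.shiftLeft (nat_lit 1) (Nat.land (Nat.shiftRight (V (nat_lit 22)) (S (nat_lit 53))) (nat_lit 65535))) (Nat.shiftLeft (nat_lit 1) (Nat.land (Nat.shiftRight (V (nat_lit 23)) (S (nat_lit 12))) (nat_lit 65535))))) (Nat.add (Nat.shiftLeft (nat_lit 1) (Nat.land (Nat.shiftRight (V (nat_lit 23)) (S (nat_lit 15))) (nat_lit 65535))) (Nat.add (Nat.shiftLeft (nat_lit 1) (Nat.land (Nat.shiftRight (V (nat_lit 23)) (S (nat_lit 43))) (nat_lit 65535))) (Nat.shiftLeft (nat_lit 1) (Nat.land (Nat.shiftRight (V (nat_lit 23)) (S (nat_lit 52))) (nat_lit 65535))))))))) (Nat.add (Nat.add (Nat.add (Nat.add (Nat.add (Nat.shiftLeft (nat_lit 1) (Nat.land (Nat.shiftRight (V (nat_lit 24)) (S (nat_lit 32))) (nat_lit 65535))) (Nat.add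 (Nat.shiftLeft (nat_lit 1) (Nat.land (Nat.shiftRight (V (nat_lit 24)) (S (nat_lit 35))) (nat_lit 65535))) (Nat.shiftLeft (nat_lit 1) (Nat.land (Nat.shiftRight (V (nat_lit 24)) (S (nat_lit 38))) (nat_lit 65535))))) (Nat.add (Nat.shiftLeft (nat_lit 1) (Nat.land (Nat.shiftRight (V (nat_lit 24)) (S (nat_lit 41))) (nat_lit 65535))) (Nat.add (Nat.shiftLeft (nat_lit 1) (Nat.land (Nat.shiftRight (V (nat_lit 24)) (S (nat_lit 47))) (nat_lit 65535))) (Nat.shiftLeft (nat_lit 1) (Nat.land (Nat.shiftRight (V (nat_lit 24)) (S (nat_lit 50))) (nat_lit 65535)))))) (Nat.add (Nat.add (Nat.shiftLeft (nat_lit 1) (Nat.land (Nat.shiftRight (V (nat_lit 24)) (S (nat_lit 53))) (nat_lit 65535))) (Nat.add (Nat.shiftLeft (nat_lit 1) (Nat.land (Nat.shiftRight (V (nat_lit 24)) (S (nat_lit 59))) (nat_lit 65535))) (Nat.shiftLeft (nat_lit 1) (Nat.land (Nat.shiftRight (V (nat_lit 25)) (S (nat_lit 34)))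 (nat_lit 65535))))) (Nat.add (Nat.shiftLeft (nat_lit 1) (Nat.land (Nat.shiftRight (V (nat_lit 25)) (S (nat_lit 43))) (nat_lit 65535))) (Nat.add (Nat.shiftLeft (nat_lit 1) (Nat.land (Nat.shiftRight (V (nat_lit 25)) (S (nat_lit 48))) (nat_lit 65535))) (Nat.shiftLeft (nat_lit 1) (Nat.land (Nat.shiftRight (V (nat_lit 25)) (S (nat_lit 55))) (nat_lit 65535))))))) (Nat.add (Nat.add (Nat.add (Nat.shiftLeft (nat_lit 1) (Nat.land (Nat.shiftRight (V (nat_lit 26)) (S (nat_lit 31))) (nat_lit 65535))) (Nat.add (Nat.shiftLeft (nat_lit 1) (Nat.land (Nat.shiftRight (V (nat_lit 26)) (S (nat_lit 36))) (nat_lit 65535))) (Nat.shiftLeft (nat_lit 1) (Nat.land (Nat.shiftRight (V (nat_lit 26)) (S (nat_lit 43))) (nat_lit 65535))))) (Nat.add (Nat.shiftLeft (nat_lit 1) (Nat.land (Nat.shiftRight (V (nat_lit 26)) (S (nat_lit 55))) (nat_lit 65535))) (Nat.add (Nat.shiftLeft (nat_lit 1) (Nat.land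 (Nat.shiftRight (V (nat_lit 27)) (S (nat_lit 32))) (nat_lit 65535))) (Nat.shiftLeft (nat_lit 1) (Nat.land (Nat.shiftRight (V (nat_lit 27)) (S (nat_lit 35))) (nat_lit 65535)))))) (Nat.add (Nat.add (Nat.shiftLeft (nat_lit 1) (Nat.land (Nat.shiftRight (V (nat_lit 27)) (S (nat_lit 44))) (nat_lit 65535))) (Nat.add (Nat.shiftLeft (nat_lit 1) (Nat.land (Nat.shiftRight (V (nat_lit 27)) (S (nat_lit 45))) (nat_lit 65535))) (Nat.shiftLeft (nat_lit 1) (Nat.land (Nat.shiftRight (V (nat_lit 27)) (S (nat_lit 46))) (nat_lit 65535))))) (Nat.add (Nat.shiftLeft (nat_lit 1) (Nat.land (Nat.shiftRight (V (nat_lit 27)) (S (nat_lit 56))) (nat_lit 65535))) (Nat.add (Nat.shiftLeft (nat_lit 1) (Nat.land (Nat.shiftRight (V (nat_lit 27)) (S (nat_lit 57))) (nat_lit 65535))) (Nat.shiftLeft (nat_lit 1) (Nat.land (Nat.shiftRight (V (nat_lit 27)) (S (nat_lit 58))) (nat_lit 65535)))))))) (Nat.add (Nat.add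 (Nat.add (Nat.add (Nat.shiftLeft (nat_lit 1) (Nat.land (Nat.shiftRight (V (nat_lit 28)) (S (nat_lit 33))) (nat_lit 65535))) (Nat.add (Nat.shiftLeft (nat_lit 1) (Nat.land (Nat.shiftRight (V (nat_lit 28)) (S (nat_lit 47))) (nat_lit 65535))) (Nat.shiftLeft (nat_lit 1) (Nat.land (Nat.shiftRight (V (nat_lit 29)) (S (nat_lit 30))) (nat_lit 65535))))) (Nat.add (Nat.shiftLeft (nat_lit 1) (Nat.land (Nat.shiftRight (V (nat_lit 29)) (S (nat_lit 59))) (nat_lit 65535))) (Nat.add (Nat.shiftLeft (nat_lit 1) (Nat.land (Nat.shiftRight (V (nat_lit 30)) (S (nat_lit 29))) (nat_lit 65535))) (Nat.shiftLeft (nat_lit 1) (Nat.land (Nat.shiftRight (V (nat_lit 30)) (S (nat_lit 40))) (nat_lit 65535)))))) (Nat.add (Nat.add (Nat.shiftLeft (nat_lit 1) (Nat.land (Nat.shiftRight (V (nat_lit 30)) (S (nat_lit 51))) (nat_lit 65535))) (Nat.add (Nat.shiftLeft (nat_lit 1) (Nat.land (Nat.shiftRight (V (nat_lit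 30)) (S (nat_lit 52))) (nat_lit 65535))) (Nat.shiftLeft (nat_lit 1) (Nat.land (Nat.shiftRight (V (nat_lit 31)) (S (nat_lit 26))) (nat_lit 65535))))) (Nat.add (Nat.shiftLeft (nat_lit 1) (Nat.land (Nat.shiftRight (V (nat_lit 31)) (S (nat_lit 44))) (nat_lit 65535))) (Nat.add (Nat.shiftLeft (nat_lit 1) (Nat.land (Nat.shiftRight (V (nat_lit 32)) (S (nat_lit 24))) (nat_lit 65535))) (Nat.shiftLeft (nat_lit 1) (Nat.land (Nat.shiftRight (V (nat_lit 32)) (S (nat_lit 27))) (nat_lit 65535))))))) (Nat.add (Nat.add (Nat.add (Nat.shiftLeft (nat_lit 1) (Nat.land (Nat.shiftRight (V (nat_lit 32)) (S (nat_lit 43))) (nat_lit 65535))) (Nat.add (Nat.shiftLeft (nat_lit 1) (Nat.land (Nat.shiftRight (V (nat_lit 32)) (S (nat_lit 52))) (nat_lit 65535))) (Nat.shiftLeft (nat_lit 1) (Nat.land (Nat.shiftRight (V (nat_lit 33)) (S (nat_lit 28))) (nat_lit 65535))))) (Nat.add (Nat.shiftLeft (nat_lit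 1) (Nat.land (Nat.shiftRight (V (nat_lit 33)) (S (nat_lit 39))) (nat_lit 65535))) (Nat.add (Nat.shiftLeft (nat_lit 1) (Nat.land (Nat.shiftRight (V (nat_lit 33)) (S (nat_lit 40))) (nat_lit 65535))) (Nat.shiftLeft (nat_lit 1) (Nat.land (Nat.shiftRight (V (nat_lit 33)) (S (nat_lit 52))) (nat_lit 65535)))))) (Nat.add (Nat.add (Nat.shiftLeft (nat_lit 1) (Nat.land (Nat.shiftRight (V (nat_lit 34)) (S (nat_lit 25))) (nat_lit 65535))) (Nat.add (Nat.shiftLeft (nat_lit 1) (Nat.land (Nat.shiftRight (V (nat_lit 34)) (S (nat_lit 56))) (nat_lit 65535))) (Nat.shiftLeft (nat_lit 1) (Nat.land (Nat.shiftRight (V (nat_lit 35)) (S (nat_lit 24))) (nat_lit 65535))))) (Nat.add (Nat.shiftLeft (nat_lit 1) (Nat.land (Nat.shiftRight (V (nat_lit 35)) (S (nat_lit 27))) (nat_lit 65535))) (Nat.add (Nat.shiftLeft (nat_lit 1) (Nat.land (Nat.shiftRight (V (nat_lit 35)) (S (nat_lit 40))) (nat_lit 65535)))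 (Nat.shiftLeft (nat_lit 1) (Nat.land (Nat.shiftRight (V (nat_lit 35)) (S (nat_lit 55))) (nat_lit 65535)))))))))) (Nat.add (Nat.add (Nat.add (Nat.add (Nat.add (Nat.add (Nat.shiftLeft (nat_lit 1) (Nat.land (Nat.shiftRight (V (nat_lit 36)) (S (nat_lit 26))) (nat_lit 65535))) (Nat.add (Nat.shiftLeft (nat_lit 1) (Nat.land (Nat.shiftRight (V (nat_lit 36)) (S (nat_lit 44))) (nat_lit 65535))) (Nat.shiftLeft (nat_lit 1) (Nat.land (Nat.shiftRight (V (nat_lit 37)) (S (nat_lit 14))) (nat_lit 65535))))) (Nat.add (Nat.shiftLeft (nat_lit 1) (Nat.land (Nat.shiftRight (V (nat_lit 37)) (S (nat_lit 41))) (nat_lit 65535))) (Nat.add (Nat.shiftLeft (nat_lit 1) (Nat.land (Nat.shiftRight (V (nat_lit 38)) (S (nat_lit 12))) (nat_lit 65535))) (Nat.shiftLeft (nat_lit 1) (Nat.land (Nat.shiftRight (V (nat_lit 38)) (S (nat_lit 24))) (nat_lit 65535)))))) (Nat.add (Nat.add (Nat.shiftLeft (nat_lit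 1) (Nat.land (Nat.shiftRight (V (nat_lit 38)) (S (nat_lit 40))) (nat_lit 65535))) (Nat.add (Nat.shiftLeft (nat_lit 1) (Nat.land (Nat.shiftRight (V (nat_lit 38)) (S (nat_lit 43))) (nat_lit 65535))) (Nat.shiftLeft (nat_lit 1) (Nat.land (Nat.shiftRight (V (nat_lit 39)) (S (nat_lit 33))) (nat_lit 65535))))) (Nat.add (Nat.shiftLeft (nat_lit 1) (Nat.land (Nat.shiftRight (V (nat_lit 39)) (S (nat_lit 47))) (nat_lit 65535))) (Nat.add (Nat.shiftLeft (nat_lit 1) (Nat.land (Nat.shiftRight (V (nat_lit 40)) (S (nat_lit 13))) (nat_lit 65535))) (Nat.shiftLeft (nat_lit 1) (Nat.land (Nat.shiftRight (V (nat_lit 40)) (S (nat_lit 14))) (nat_lit 65535))))))) (Nat.add (Nat.add (Nat.add (Nat.shiftLeft (nat_lit 1) (Nat.land (Nat.shiftRight (V (nat_lit 40)) (S (nat_lit 20))) (nat_lit 65535))) (Nat.add (Nat.shiftLeft (nat_lit 1) (Nat.land (Nat.shiftRight (V (nat_lit 40)) (S (nat_lit 30))) (nat_lit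 65535))) (Nat.shiftLeft (nat_lit 1) (Nat.land (Nat.shiftRight (V (nat_lit 40)) (S (nat_lit 33))) (nat_lit 65535))))) (Nat.add (Nat.shiftLeft (nat_lit 1) (Nat.land (Nat.shiftRight (V (nat_lit 40)) (S (nat_lit 35))) (nat_lit 65535))) (Nat.add (Nat.shiftLeft (nat_lit 1) (Nat.land (Nat.shiftRight (V (nat_lit 40)) (S (nat_lit 38))) (nat_lit 65535))) (Nat.shiftLeft (nat_lit 1) (Nat.land (Nat.shiftRight (V (nat_lit 40)) (S (nat_lit 45))) (nat_lit 65535)))))) (Nat.add (Nat.add (Nat.shiftLeft (nat_lit 1) (Nat.land (Nat.shiftRight (V (nat_lit 41)) (S (nat_lit 15))) (nat_lit 65535))) (Nat.add (Nat.shiftLeft (nat_lit 1) (Nat.land (Nat.shiftRight (V (nat_lit 41)) (S (nat_lit 19))) (nat_lit 65535))) (Nat.shiftLeft (nat_lit 1) (Nat.land (Nat.shiftRight (V (nat_lit 41)) (S (nat_lit 24))) (nat_lit 65535))))) (Nat.add (Nat.shiftLeft (nat_lit 1) (Nat.land (Nat.shiftRight (V (nat_lit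 41)) (S (nat_lit 37))) (nat_lit 65535))) (Nat.add (Nat.shiftLeft (nat_lit 1) (Nat.land (Nat.shiftRight (V (nat_lit 42)) (S (nat_lit 21))) (nat_lit 65535))) (Nat.shiftLeft (nat_lit 1) (Nat.land (Nat.shiftRight (V (nat_lit 42)) (S (nat_lit 46))) (nat_lit 65535)))))))) (Nat.add (Nat.add (Nat.add (Nat.add (Nat.shiftLeft (nat_lit 1) (Nat.land (Nat.shiftRight (V (nat_lit 43)) (S (nat_lit 18))) (nat_lit 65535))) (Nat.add (Nat.shiftLeft (nat_lit 1) (Nat.land (Nat.shiftRight (V (nat_lit 43)) (S (nat_lit 21))) (nat_lit 65535))) (Nat.shiftLeft (nat_lit 1) (Nat.land (Nat.shiftRight (V (nat_lit 43)) (S (nat_lit 23))) (nat_lit 65535))))) (Nat.add (Nat.shiftLeft (nat_lit 1) (Nat.land (Nat.shiftRight (V (nat_lit 43)) (S (nat_lit 25))) (nat_lit 65535))) (Nat.add (Nat.shiftLeft (nat_lit 1) (Nat.land (Nat.shiftRight (V (nat_lit 43)) (S (nat_lit 26))) (nat_lit 65535))) (Nat.shiftLeft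 (nat_lit 1) (Nat.land (Nat.shiftRight (V (nat_lit 43)) (S (nat_lit 32))) (nat_lit 65535)))))) (Nat.add (Nat.add (Nat.shiftLeft (nat_lit 1) (Nat.land (Nat.shiftRight (V (nat_lit 43)) (S (nat_lit 38))) (nat_lit 65535))) (Nat.add (Nat.shiftLeft (nat_lit 1) (Nat.land (Nat.shiftRight (V (nat_lit 43)) (S (nat_lit 45))) (nat_lit 65535))) (Nat.shiftLeft (nat_lit 1) (Nat.land (Nat.shiftRight (V (nat_lit 44)) (S (nat_lit 12))) (nat_lit 65535))))) (Nat.add (Nat.shiftLeft (nat_lit 1) (Nat.land (Nat.shiftRight (V (nat_lit 44)) (S (nat_lit 27))) (nat_lit 65535))) (Nat.add (Nat.shiftLeft (nat_lit 1) (Nat.land (Nat.shiftRight (V (nat_lit 44)) (S (nat_lit 31))) (nat_lit 65535))) (Nat.shiftLeft (nat_lit 1) (Nat.land (Nat.shiftRight (V (nat_lit 44)) (S (nat_lit 36))) (nat_lit 65535))))))) (Nat.add (Nat.add (Nat.add (Nat.shiftLeft (nat_lit 1) (Nat.land (Nat.shiftRight (V (nat_lit 45))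 (S (nat_lit 15))) (nat_lit 65535))) (Nat.add (Nat.shiftLeft (nat_lit 1) (Nat.land (Nat.shiftRight (V (nat_lit 45)) (S (nat_lit 27))) (nat_lit 65535))) (Nat.shiftLeft (nat_lit 1) (Nat.land (Nat.shiftRight (V (nat_lit 45)) (S (nat_lit 40))) (nat_lit 65535))))) (Nat.add (Nat.shiftLeft (nat_lit 1) (Nat.land (Nat.shiftRight (V (nat_lit 45)) (S (nat_lit 43))) (nat_lit 65535))) (Nat.add (Nat.shiftLeft (nat_lit 1) (Nat.land (Nat.shiftRight (V (nat_lit 46)) (S (nat_lit 12))) (nat_lit 65535))) (Nat.shiftLeft (nat_lit 1) (Nat.land (Nat.shiftRight (V (nat_lit 46)) (S (nat_lit 16))) (nat_lit 65535)))))) (Nat.add (Nat.add (Nat.shiftLeft (nat_lit 1) (Nat.land (Nat.shiftRight (V (nat_lit 46)) (S (nat_lit 27))) (nat_lit 65535))) (Nat.add (Nat.shiftLeft (nat_lit 1) (Nat.land (Nat.shiftRight (V (nat_lit 46)) (S (nat_lit 42))) (nat_lit 65535))) (Nat.shiftLeft (nat_lit 1) (Nat.land (Nat.shiftRight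 (V (nat_lit 47)) (S (nat_lit 15))) (nat_lit 65535))))) (Nat.add (Nat.shiftLeft (nat_lit 1) (Nat.land (Nat.shiftRight (V (nat_lit 47)) (S (nat_lit 24))) (nat_lit 65535))) (Nat.add (Nat.shiftLeft (nat_lit 1) (Nat.land (Nat.shiftRight (V (nat_lit 47)) (S (nat_lit 28))) (nat_lit 65535))) (Nat.shiftLeft (nat_lit 1) (Nat.land (Nat.shiftRight (V (nat_lit 47)) (S (nat_lit 39))) (nat_lit 65535))))))))) (Nat.add (Nat.add (Nat.add (Nat.add (Nat.add (Nat.shiftLeft (nat_lit 1) (Nat.land (Nat.shiftRight (V (nat_lit 48)) (S (nat_lit 25))) (nat_lit 65535))) (Nat.add (Nat.shiftLeft (nat_lit 1) (Nat.land (Nat.shiftRight (V (nat_lit 48)) (S (nat_lit 56))) (nat_lit 65535))) (Nat.shiftLeft (nat_lit 1) (Nat.land (Nat.shiftRight (V (nat_lit 49)) (S (nat_lit 13))) (nat_lit 65535))))) (Nat.add (Nat.shiftLeft (nat_lit 1) (Nat.land (Nat.shiftRight (V (nat_lit 49)) (S (nat_lit 53))) (nat_lit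 65535))) (Nat.add (Nat.shiftLeft (nat_lit 1) (Nat.land (Nat.shiftRight (V (nat_lit 50)) (S (nat_lit 12))) (nat_lit 65535))) (Nat.shiftLeft (nat_lit 1) (Nat.land (Nat.shiftRight (V (nat_lit 50)) (S (nat_lit 24))) (nat_lit 65535)))))) (Nat.add (Nat.add (Nat.shiftLeft (nat_lit 1) (Nat.land (Nat.shiftRight (V (nat_lit 50)) (S (nat_lit 52))) (nat_lit 65535))) (Nat.add (Nat.shiftLeft (nat_lit 1) (Nat.land (Nat.shiftRight (V (nat_lit 50)) (S (nat_lit 55))) (nat_lit 65535))) (Nat.shiftLeft (nat_lit 1) (Nat.land (Nat.shiftRight (V (nat_lit 51)) (S (nat_lit 30))) (nat_lit 65535))))) (Nat.add (Nat.shiftLeft (nat_lit 1) (Nat.land (Nat.shiftRight (V (nat_lit 51)) (S (nat_lit 59))) (nat_lit 65535))) (Nat.add (Nat.shiftLeft (nat_lit 1) (Nat.land (Nat.shiftRight (V (nat_lit 52)) (S (nat_lit 13))) (nat_lit 65535))) (Nat.shiftLeft (nat_lit 1) (Nat.land (Nat.shiftRight (V (nat_lit 52))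 (S (nat_lit 14))) (nat_lit 65535))))))) (Nat.add (Nat.add (Nat.add (Nat.shiftLeft (nat_lit 1) (Nat.land (Nat.shiftRight (V (nat_lit 52)) (S (nat_lit 23))) (nat_lit 65535))) (Nat.add (Nat.shiftLeft (nat_lit 1) (Nat.land (Nat.shiftRight (V (nat_lit 52)) (S (nat_lit 30))) (nat_lit 65535))) (Nat.shiftLeft (nat_lit 1) (Nat.land (Nat.shiftRight (V (nat_lit 52)) (S (nat_lit 32))) (nat_lit 65535))))) (Nat.add (Nat.shiftLeft (nat_lit 1) (Nat.land (Nat.shiftRight (V (nat_lit 52)) (S (nat_lit 33))) (nat_lit 65535))) (Nat.add (Nat.shiftLeft (nat_lit 1) (Nat.land (Nat.shiftRight (V (nat_lit 52)) (S (nat_lit 50))) (nat_lit 65535))) (Nat.shiftLeft (nat_lit 1) (Nat.land (Nat.shiftRight (V (nat_lit 52)) (S (nat_lit 57))) (nat_lit 65535)))))) (Nat.add (Nat.add (Nat.shiftLeft (nat_lit 1) (Nat.land (Nat.shiftRight (V (nat_lit 53)) (S (nat_lit 15))) (nat_lit 65535))) (Nat.add (Nat.shiftLeft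 (nat_lit 1) (Nat.land (Nat.shiftRight (V (nat_lit 53)) (S (nat_lit 22))) (nat_lit 65535))) (Nat.shiftLeft (nat_lit 1) (Nat.land (Nat.shiftRight (V (nat_lit 53)) (S (nat_lit 24))) (nat_lit 65535))))) (Nat.add (Nat.shiftLeft (nat_lit 1) (Nat.land (Nat.shiftRight (V (nat_lit 53)) (S (nat_lit 49))) (nat_lit 65535))) (Nat.add (Nat.shiftLeft (nat_lit 1) (Nat.land (Nat.shiftRight (V (nat_lit 54)) (S (nat_lit 18))) (nat_lit 65535))) (Nat.shiftLeft (nat_lit 1) (Nat.land (Nat.shiftRight (V (nat_lit 54)) (S (nat_lit 58))) (nat_lit 65535)))))))) (Nat.add (Nat.add (Nat.add (Nat.add (Nat.shiftLeft (nat_lit 1) (Nat.land (Nat.shiftRight (V (nat_lit 55)) (S (nat_lit 18))) (nat_lit 65535))) (Nat.add (Nat.shiftLeft (nat_lit 1) (Nat.land (Nat.shiftRight (V (nat_lit 55)) (S (nat_lit 20))) (nat_lit 65535))) (Nat.shiftLeft (nat_lit 1) (Nat.land (Nat.shiftRight (V (nat_lit 55)) (S (nat_lit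 21))) (nat_lit 65535))))) (Nat.add (Nat.shiftLeft (nat_lit 1) (Nat.land (Nat.shiftRight (V (nat_lit 55)) (S (nat_lit 25))) (nat_lit 65535))) (Nat.add (Nat.shiftLeft (nat_lit 1) (Nat.land (Nat.shiftRight (V (nat_lit 55)) (S (nat_lit 26))) (nat_lit 65535))) (Nat.shiftLeft (nat_lit 1) (Nat.land (Nat.shiftRight (V (nat_lit 55)) (S (nat_lit 35))) (nat_lit 65535)))))) (Nat.add (Nat.add (Nat.shiftLeft (nat_lit 1) (Nat.land (Nat.shiftRight (V (nat_lit 55)) (S (nat_lit 50))) (nat_lit 65535))) (Nat.add (Nat.shiftLeft (nat_lit 1) (Nat.land (Nat.shiftRight (V (nat_lit 55)) (S (nat_lit 57))) (nat_lit 65535))) (Nat.shiftLeft (nat_lit 1) (Nat.land (Nat.shiftRight (V (nat_lit 56)) (S (nat_lit 12))) (nat_lit 65535))))) (Nat.add (Nat.shiftLeft (nat_lit 1) (Nat.land (Nat.shiftRight (V (nat_lit 56)) (S (nat_lit 27))) (nat_lit 65535))) (Nat.add (Nat.shiftLeft (nat_lit 1) (Nat.land (Nat.shiftRight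 (V (nat_lit 56)) (S (nat_lit 34))) (nat_lit 65535))) (Nat.shiftLeft (nat_lit 1) (Nat.land (Nat.shiftRight (V (nat_lit 56)) (S (nat_lit 48))) (nat_lit 65535))))))) (Nat.add (Nat.add (Nat.add (Nat.shiftLeft (nat_lit 1) (Nat.land (Nat.shiftRight (V (nat_lit 57)) (S (nat_lit 15))) (nat_lit 65535))) (Nat.add (Nat.shiftLeft (nat_lit 1) (Nat.land (Nat.shiftRight (V (nat_lit 57)) (S (nat_lit 27))) (nat_lit 65535))) (Nat.shiftLeft (nat_lit 1) (Nat.land (Nat.shiftRight (V (nat_lit 57)) (S (nat_lit 52))) (nat_lit 65535))))) (Nat.add (Nat.shiftLeft (nat_lit 1) (Nat.land (Nat.shiftRight (V (nat_lit 57)) (S (nat_lit 55))) (nat_lit 65535))) (Nat.add (Nat.shiftLeft (nat_lit 1) (Nat.land (Nat.shiftRight (V (nat_lit 58)) (S (nat_lit 12))) (nat_lit 65535))) (Nat.shiftLeft (nat_lit 1) (Nat.land (Nat.shiftRight (V (nat_lit 58)) (S (nat_lit 17))) (nat_lit 65535)))))) (Nat.add (Nat.add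 (Nat.shiftLeft (nat_lit 1) (Nat.land (Nat.shiftRight (V (nat_lit 58)) (S (nat_lit 27))) (nat_lit 65535))) (Nat.add (Nat.shiftLeft (nat_lit 1) (Nat.land (Nat.shiftRight (V (nat_lit 58)) (S (nat_lit 54))) (nat_lit 65535))) (Nat.shiftLeft (nat_lit 1) (Nat.land (Nat.shiftRight (V (nat_lit 59)) (S (nat_lit 15))) (nat_lit 65535))))) (Nat.add (Nat.shiftLeft (nat_lit 1) (Nat.land (Nat.shiftRight (V (nat_lit 59)) (S (nat_lit 24))) (nat_lit 65535))) (Nat.add (Nat.shiftLeft (nat_lit 1) (Nat.land (Nat.shiftRight (V (nat_lit 59)) (S (nat_lit 29))) (nat_lit 65535))) (Nat.shiftLeft (nat_lit 1) (Nat.land (Nat.shiftRight (V (nat_lit 59)) (S (nat_lit 51))) (nat_lit 65535))))))))))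
def E94_1 (V S : ℕ → ℕ) : ℕ := Nat.add (Nat.add (Nat.add (Nat.add (Nat.add (Nat.add (Nat.add (Nat.shiftLeft (nat_lit 1) (Nat.land (Nat.shiftRight (V (nat_lit 8)) (S (nat_lit 12))) (nat_lit 65535))) (Nat.shiftLeft (nat_lit 1) (Nat.land (Nat.shiftRight (V (nat_lit 8)) (S (nat_lit 14))) (nat_lit 65535)))) (Nat.add (Nat.shiftLeft (nat_lit 1) (Nat.land (Nat.shiftRight (V (nat_lit 8)) (S (nat_lit 15))) (nat_lit 65535))) (Nat.shiftLeft (nat_lit 1) (Nat.land (Nat.shiftRight (V (nat_lit 8)) (S (nat_lit 17))) (nat_lit 65535))))) (Nat.add (Nat.add (Nat.shiftLeft (nat_lit 1) (Nat.land (Nat.shiftRight (V (nat_lit 8)) (S (nat_lit 18))) (nat_lit 65535))) (Nat.shiftLeft (nat_lit 1) (Nat.land (Nat.shiftRight (V (nat_lit 8)) (S (nat_lit 19))) (nat_lit 65535)))) (Nat.add (Nat.shiftLeft (nat_lit 1) (Nat.land (Nat.shiftRight (V (nat_lit 8)) (S (nat_lit 24))) (nat_lit 65535))) (Nat.shiftLeft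 (nat_lit 1) (Nat.land (Nat.shiftRight (V (nat_lit 8)) (S (nat_lit 26))) (nat_lit 65535)))))) (Nat.add (Nat.add (Nat.add (Nat.shiftLeft (nat_lit 1) (Nat.land (Nat.shiftRight (V (nat_lit 8)) (S (nat_lit 27))) (nat_lit 65535))) (Nat.shiftLeft (nat_lit 1) (Nat.land (Nat.shiftRight (V (nat_lit 8)) (S (nat_lit 29))) (nat_lit 65535)))) (Nat.add (Nat.shiftLeft (nat_lit 1) (Nat.land (Nat.shiftRight (V (nat_lit 8)) (S (nat_lit 30))) (nat_lit 65535))) (Nat.shiftLeft (nat_lit 1) (Nat.land (Nat.shiftRight (V (nat_lit 8)) (S (nat_lit 31))) (nat_lit 65535))))) (Nat.add (Nat.add (Nat.shiftLeft (nat_lit 1) (Nat.land (Nat.shiftRight (V (nat_lit 8)) (S (nat_lit 36))) (nat_lit 65535))) (Nat.shiftLeft (nat_lit 1) (Nat.land (Nat.shiftRight (V (nat_lit 8)) (S (nat_lit 37))) (nat_lit 65535)))) (Nat.add (Nat.shiftLeft (nat_lit 1) (Nat.land (Nat.shiftRight (V (nat_lit 8)) (S (nat_lit 40)))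 (nat_lit 65535))) (Nat.shiftLeft (nat_lit 1) (Nat.land (Nat.shiftRight (V (nat_lit 8)) (S (nat_lit 41))) (nat_lit 65535))))))) (Nat.add (Nat.add (Nat.add (Nat.add (Nat.shiftLeft (nat_lit 1) (Nat.land (Nat.shiftRight (V (nat_lit 8)) (S (nat_lit 43))) (nat_lit 65535))) (Nat.shiftLeft (nat_lit 1) (Nat.land (Nat.shiftRight (V (nat_lit 8)) (S (nat_lit 44))) (nat_lit 65535)))) (Nat.add (Nat.shiftLeft (nat_lit 1) (Nat.land (Nat.shiftRight (V (nat_lit 8)) (S (nat_lit 51))) (nat_lit 65535))) (Nat.shiftLeft (nat_lit 1) (Nat.land (Nat.shiftRight (V (nat_lit 8)) (S (nat_lit 52))) (nat_lit 65535))))) (Nat.add (Nat.add (Nat.shiftLeft (nat_lit 1) (Nat.land (Nat.shiftRight (V (nat_lit 8)) (S (nat_lit 54))) (nat_lit 65535))) (Nat.shiftLeft (nat_lit 1) (Nat.land (Nat.shiftRight (V (nat_lit 8)) (S (nat_lit 55))) (nat_lit 65535)))) (Nat.add (Nat.shiftLeft (nat_lit 1) (Nat.land (Nat.shiftRight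 (V (nat_lit 8)) (S (nat_lit 58))) (nat_lit 65535))) (Nat.shiftLeft (nat_lit 1) (Nat.land (Nat.shiftRight (V (nat_lit 8)) (S (nat_lit 59))) (nat_lit 65535)))))) (Nat.add (Nat.add (Nat.add (Nat.shiftLeft (nat_lit 1) (Nat.land (Nat.shiftRight (V (nat_lit 11)) (S (nat_lit 12))) (nat_lit 65535))) (Nat.shiftLeft (nat_lit 1) (Nat.land (Nat.shiftRight (V (nat_lit 11)) (S (nat_lit 13))) (nat_lit 65535)))) (Nat.add (Nat.shiftLeft (nat_lit 1) (Nat.land (Nat.shiftRight (V (nat_lit 11)) (S (nat_lit 15))) (nat_lit 65535))) (Nat.shiftLeft (nat_lit 1) (Nat.land (Nat.shiftRight (V (nat_lit 11)) (S (nat_lit 16))) (nat_lit 65535))))) (Nat.add (Nat.add (Nat.shiftLeft (nat_lit 1) (Nat.land (Nat.shiftRight (V (nat_lit 11)) (S (nat_lit 21))) (nat_lit 65535))) (Nat.shiftLeft (nat_lit 1) (Nat.land (Nat.shiftRight (V (nat_lit 11)) (S (nat_lit 22))) (nat_lit 65535)))) (Nat.add (Nat.shiftLeft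 (nat_lit 1) (Nat.land (Nat.shiftRight (V (nat_lit 11)) (S (nat_lit 24))) (nat_lit 65535))) (Nat.shiftLeft (nat_lit 1) (Nat.land (Nat.shiftRight (V (nat_lit 11)) (S (nat_lit 25))) (nat_lit 65535)))))))) (Nat.add (Nat.add (Nat.add (Nat.add (Nat.add (Nat.shiftLeft (nat_lit 1) (Nat.land (Nat.shiftRight (V (nat_lit 11)) (S (nat_lit 27))) (nat_lit 65535))) (Nat.shiftLeft (nat_lit 1) (Nat.land (Nat.shiftRight (V (nat_lit 11)) (S (nat_lit 28))) (nat_lit 65535)))) (Nat.add (Nat.shiftLeft (nat_lit 1) (Nat.land (Nat.shiftRight (V (nat_lit 11)) (S (nat_lit 33))) (nat_lit 65535))) (Nat.shiftLeft (nat_lit 1) (Nat.land (Nat.shiftRight (V (nat_lit 11)) (S (nat_lit 34))) (nat_lit 65535))))) (Nat.add (Nat.add (Nat.shiftLeft (nat_lit 1) (Nat.land (Nat.shiftRight (V (nat_lit 11)) (S (nat_lit 39))) (nat_lit 65535))) (Nat.shiftLeft (nat_lit 1) (Nat.land (Nat.shiftRight (V (nat_lit 11))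 (S (nat_lit 40))) (nat_lit 65535)))) (Nat.add (Nat.shiftLeft (nat_lit 1) (Nat.land (Nat.shiftRight (V (nat_lit 11)) (S (nat_lit 42))) (nat_lit 65535))) (Nat.shiftLeft (nat_lit 1) (Nat.land (Nat.shiftRight (V (nat_lit 11)) (S (nat_lit 43))) (nat_lit 65535)))))) (Nat.add (Nat.add (Nat.add (Nat.shiftLeft (nat_lit 1) (Nat.land (Nat.shiftRight (V (nat_lit 11)) (S (nat_lit 46))) (nat_lit 65535))) (Nat.shiftLeft (nat_lit 1) (Nat.land (Nat.shiftRight (V (nat_lit 11)) (S (nat_lit 47))) (nat_lit 65535)))) (Nat.add (Nat.shiftLeft (nat_lit 1) (Nat.land (Nat.shiftRight (V (nat_lit 11)) (S (nat_lit 48))) (nat_lit 65535))) (Nat.shiftLeft (nat_lit 1) (Nat.land (Nat.shiftRight (V (nat_lit 11)) (S (nat_lit 49))) (nat_lit 65535))))) (Nat.add (Nat.add (Nat.shiftLeft (nat_lit 1) (Nat.land (Nat.shiftRight (V (nat_lit 11)) (S (nat_lit 52))) (nat_lit 65535))) (Nat.shiftLeft (nat_lit 1) (Nat.land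 (Nat.shiftRight (V (nat_lit 11)) (S (nat_lit 53))) (nat_lit 65535)))) (Nat.add (Nat.shiftLeft (nat_lit 1) (Nat.land (Nat.shiftRight (V (nat_lit 11)) (S (nat_lit 55))) (nat_lit 65535))) (Nat.shiftLeft (nat_lit 1) (Nat.land (Nat.shiftRight (V (nat_lit 11)) (S (nat_lit 56))) (nat_lit 65535))))))) (Nat.add (Nat.add (Nat.add (Nat.add (Nat.shiftLeft (nat_lit 1) (Nat.land (Nat.shiftRight (V (nat_lit 12)) (S (nat_lit 8))) (nat_lit 65535))) (Nat.shiftLeft (nat_lit 1) (Nat.land (Nat.shiftRight (V (nat_lit 12)) (S (nat_lit 11))) (nat_lit 65535)))) (Nat.add (Nat.shiftLeft (nat_lit 1) (Nat.land (Nat.shiftRight (V (nat_lit 12)) (S (nat_lit 47))) (nat_lit 65535))) (Nat.shiftLeft (nat_lit 1) (Nat.land (Nat.shiftRight (V (nat_lit 12)) (S (nat_lit 59))) (nat_lit 65535))))) (Nat.add (Nat.add (Nat.shiftLeft (nat_lit 1) (Nat.land (Nat.shiftRight (V (nat_lit 13)) (S (nat_lit 11))) (nat_lit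 65535))) (Nat.shiftLeft (nat_lit 1) (Nat.land (Nat.shiftRight (V (nat_lit 13)) (S (nat_lit 43))) (nat_lit 65535)))) (Nat.add (Nat.shiftLeft (nat_lit 1) (Nat.land (Nat.shiftRight (V (nat_lit 14)) (S (nat_lit 8))) (nat_lit 65535))) (Nat.shiftLeft (nat_lit 1) (Nat.land (Nat.shiftRight (V (nat_lit 14)) (S (nat_lit 55))) (nat_lit 65535)))))) (Nat.add (Nat.add (Nat.add (Nat.shiftLeft (nat_lit 1) (Nat.land (Nat.shiftRight (V (nat_lit 15)) (S (nat_lit 8))) (nat_lit 65535))) (Nat.shiftLeft (nat_lit 1) (Nat.land (Nat.shiftRight (V (nat_lit 15)) (S (nat_lit 11))) (nat_lit 65535)))) (Nat.add (Nat.shiftLeft (nat_lit 1) (Nat.land (Nat.shiftRight (V (nat_lit 15)) (S (nat_lit 44))) (nat_lit 65535))) (Nat.shiftLeft (nat_lit 1) (Nat.land (Nat.shiftRight (V (nat_lit 15)) (S (nat_lit 56))) (nat_lit 65535))))) (Nat.add (Nat.add (Nat.shiftLeft (nat_lit 1) (Nat.land (Nat.shiftRight (V (nat_lit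 16)) (S (nat_lit 11))) (nat_lit 65535))) (Nat.shiftLeft (nat_lit 1) (Nat.land (Nat.shiftRight (V (nat_lit 17)) (S (nat_lit 8))) (nat_lit 65535)))) (Nat.add (Nat.shiftLeft (nat_lit 1) (Nat.land (Nat.shiftRight (V (nat_lit 18)) (S (nat_lit 8))) (nat_lit 65535))) (Nat.shiftLeft (nat_lit 1) (Nat.land (Nat.shiftRight (V (nat_lit 18)) (S (nat_lit 40))) (nat_lit 65535))))))))) (Nat.add (Nat.add (Nat.add (Nat.add (Nat.add (Nat.add (Nat.shiftLeft (nat_lit 1) (Nat.land (Nat.shiftRight (V (nat_lit 19)) (S (nat_lit 8))) (nat_lit 65535))) (Nat.shiftLeft (nat_lit 1) (Nat.land (Nat.shiftRight (V (nat_lit 21)) (S (nat_lit 11))) (nat_lit 65535)))) (Nat.add (Nat.shiftLeft (nat_lit 1) (Nat.land (Nat.shiftRight (V (nat_lit 21)) (S (nat_lit 52))) (nat_lit 65535))) (Nat.shiftLeft (nat_lit 1) (Nat.land (Nat.shiftRight (V (nat_lit 22)) (S (nat_lit 11))) (nat_lit 65535))))) (Nat.add (Nat.add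 (Nat.shiftLeft (nat_lit 1) (Nat.land (Nat.shiftRight (V (nat_lit 24)) (S (nat_lit 8))) (nat_lit 65535))) (Nat.shiftLeft (nat_lit 1) (Nat.land (Nat.shiftRight (V (nat_lit 24)) (S (nat_lit 11))) (nat_lit 65535)))) (Nat.add (Nat.shiftLeft (nat_lit 1) (Nat.land (Nat.shiftRight (V (nat_lit 24)) (S (nat_lit 46))) (nat_lit 65535))) (Nat.shiftLeft (nat_lit 1) (Nat.land (Nat.shiftRight (V (nat_lit 24)) (S (nat_lit 58))) (nat_lit 65535)))))) (Nat.add (Nat.add (Nat.add (Nat.shiftLeft (nat_lit 1) (Nat.land (Nat.shiftRight (V (nat_lit 25)) (S (nat_lit 11))) (nat_lit 65535))) (Nat.shiftLeft (nat_lit 1) (Nat.land (Nat.shiftRight (V (nat_lit 25)) (S (nat_lit 40))) (nat_lit 65535)))) (Nat.add (Nat.shiftLeft (nat_lit 1) (Nat.land (Nat.shiftRight (V (nat_lit 26)) (S (nat_lit 8))) (nat_lit 65535))) (Nat.shiftLeft (nat_lit 1) (Nat.land (Nat.shiftRight (V (nat_lit 26)) (S (nat_lit 52)))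 (nat_lit 65535))))) (Nat.add (Nat.add (Nat.shiftLeft (nat_lit 1) (Nat.land (Nat.shiftRight (V (nat_lit 27)) (S (nat_lit 8))) (nat_lit 65535))) (Nat.shiftLeft (nat_lit 1) (Nat.land (Nat.shiftRight (V (nat_lit 27)) (S (nat_lit 11))) (nat_lit 65535)))) (Nat.add (Nat.shiftLeft (nat_lit 1) (Nat.land (Nat.shiftRight (V (nat_lit 27)) (S (nat_lit 41))) (nat_lit 65535))) (Nat.shiftLeft (nat_lit 1) (Nat.land (Nat.shiftRight (V (nat_lit 27)) (S (nat_lit 53))) (nat_lit 65535))))))) (Nat.add (Nat.add (Nat.add (Nat.add (Nat.shiftLeft (nat_lit 1) (Nat.land (Nat.shiftRight (V (nat_lit 28)) (S (nat_lit 11))) (nat_lit 65535))) (Nat.shiftLeft (nat_lit 1) (Nat.land (Nat.shiftRight (V (nat_lit 29)) (S (nat_lit 8))) (nat_lit 65535)))) (Nat.add (Nat.shiftLeft (nat_lit 1) (Nat.land (Nat.shiftRight (V (nat_lit 30)) (S (nat_lit 8))) (nat_lit 65535))) (Nat.shiftLeft (nat_lit 1) (Nat.land (Nat.shiftRight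 (V (nat_lit 30)) (S (nat_lit 43))) (nat_lit 65535))))) (Nat.add (Nat.add (Nat.shiftLeft (nat_lit 1) (Nat.land (Nat.shiftRight (V (nat_lit 31)) (S (nat_lit 8))) (nat_lit 65535))) (Nat.shiftLeft (nat_lit 1) (Nat.land (Nat.shiftRight (V (nat_lit 33)) (S (nat_lit 11))) (nat_lit 65535)))) (Nat.add (Nat.shiftLeft (nat_lit 1) (Nat.land (Nat.shiftRight (V (nat_lit 33)) (S (nat_lit 55))) (nat_lit 65535))) (Nat.shiftLeft (nat_lit 1) (Nat.land (Nat.shiftRight (V (nat_lit 34)) (S (nat_lit 11))) (nat_lit 65535)))))) (Nat.add (Nat.add (Nat.add (Nat.shiftLeft (nat_lit 1) (Nat.land (Nat.shiftRight (V (nat_lit 36)) (S (nat_lit 8))) (nat_lit 65535))) (Nat.shiftLeft (nat_lit 1) (Nat.land (Nat.shiftRight (V (nat_lit 37)) (S (nat_lit 8))) (nat_lit 65535)))) (Nat.add (Nat.shiftLeft (nat_lit 1) (Nat.land (Nat.shiftRight (V (nat_lit 39)) (S (nat_lit 11))) (nat_lit 65535))) (Nat.shiftLeft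 (nat_lit 1) (Nat.land (Nat.shiftRight (V (nat_lit 40)) (S (nat_lit 8))) (nat_lit 65535))))) (Nat.add (Nat.add (Nat.shiftLeft (nat_lit 1) (Nat.land (Nat.shiftRight (V (nat_lit 40)) (S (nat_lit 11))) (nat_lit 65535))) (Nat.shiftLeft (nat_lit 1) (Nat.land (Nat.shiftRight (V (nat_lit 40)) (S (nat_lit 18))) (nat_lit 65535)))) (Nat.add (Nat.shiftLeft (nat_lit 1) (Nat.land (Nat.shiftRight (V (nat_lit 40)) (S (nat_lit 25))) (nat_lit 65535))) (Nat.shiftLeft (nat_lit 1) (Nat.land (Nat.shiftRight (V (nat_lit 41)) (S (nat_lit 8))) (nat_lit 65535)))))))) (Nat.add (Nat.add (Nat.add (Nat.add (Nat.add (Nat.shiftLeft (nat_lit 1) (Nat.land (Nat.shiftRight (V (nat_lit 41)) (S (nat_lit 27))) (nat_lit 65535))) (Nat.shiftLeft (nat_lit 1) (Nat.land (Nat.shiftRight (V (nat_lit 42)) (S (nat_lit 11))) (nat_lit 65535)))) (Nat.add (Nat.shiftLeft (nat_lit 1) (Nat.land (Nat.shiftRight (V (nat_lit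 43)) (S (nat_lit 8))) (nat_lit 65535))) (Nat.shiftLeft (nat_lit 1) (Nat.land (Nat.shiftRight (V (nat_lit 43)) (S (nat_lit 11))) (nat_lit 65535))))) (Nat.add (Nat.add (Nat.shiftLeft (nat_lit 1) (Nat.land (Nat.shiftRight (V (nat_lit 43)) (S (nat_lit 13))) (nat_lit 65535))) (Nat.shiftLeft (nat_lit 1) (Nat.land (Nat.shiftRight (V (nat_lit 43)) (S (nat_lit 30))) (nat_lit 65535)))) (Nat.add (Nat.shiftLeft (nat_lit 1) (Nat.land (Nat.shiftRight (V (nat_lit 44)) (S (nat_lit 8))) (nat_lit 65535))) (Nat.shiftLeft (nat_lit 1) (Nat.land (Nat.shiftRight (V (nat_lit 44)) (S (nat_lit 15))) (nat_lit 65535)))))) (Nat.add (Nat.add (Nat.add (Nat.shiftLeft (nat_lit 1) (Nat.land (Nat.shiftRight (V (nat_lit 46)) (S (nat_lit 11))) (nat_lit 65535))) (Nat.shiftLeft (nat_lit 1) (Nat.land (Nat.shiftRight (V (nat_lit 46)) (S (nat_lit 24))) (nat_lit 65535)))) (Nat.add (Nat.shiftLeft (nat_lit 1)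 (Nat.land (Nat.shiftRight (V (nat_lit 47)) (S (nat_lit 11))) (nat_lit 65535))) (Nat.shiftLeft (nat_lit 1) (Nat.land (Nat.shiftRight (V (nat_lit 47)) (S (nat_lit 12))) (nat_lit 65535))))) (Nat.add (Nat.add (Nat.shiftLeft (nat_lit 1) (Nat.land (Nat.shiftRight (V (nat_lit 48)) (S (nat_lit 11))) (nat_lit 65535))) (Nat.shiftLeft (nat_lit 1) (Nat.land (Nat.shiftRight (V (nat_lit 49)) (S (nat_lit 11))) (nat_lit 65535)))) (Nat.add (Nat.shiftLeft (nat_lit 1) (Nat.land (Nat.shiftRight (V (nat_lit 51)) (S (nat_lit 8))) (nat_lit 65535))) (Nat.shiftLeft (nat_lit 1) (Nat.land (Nat.shiftRight (V (nat_lit 52)) (S (nat_lit 8))) (nat_lit 65535))))))) (Nat.add (Nat.add (Nat.add (Nat.add (Nat.shiftLeft (nat_lit 1) (Nat.land (Nat.shiftRight (V (nat_lit 52)) (S (nat_lit 11))) (nat_lit 65535))) (Nat.shiftLeft (nat_lit 1) (Nat.land (Nat.shiftRight (V (nat_lit 52)) (S (nat_lit 21))) (nat_lit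 65535)))) (Nat.add (Nat.shiftLeft (nat_lit 1) (Nat.land (Nat.shiftRight (V (nat_lit 52)) (S (nat_lit 26))) (nat_lit 65535))) (Nat.shiftLeft (nat_lit 1) (Nat.land (Nat.shiftRight (V (nat_lit 53)) (S (nat_lit 11))) (nat_lit 65535))))) (Nat.add (Nat.add (Nat.shiftLeft (nat_lit 1) (Nat.land (Nat.shiftRight (V (nat_lit 53)) (S (nat_lit 27))) (nat_lit 65535))) (Nat.shiftLeft (nat_lit 1) (Nat.land (Nat.shiftRight (V (nat_lit 54)) (S (nat_lit 8))) (nat_lit 65535)))) (Nat.add (Nat.shiftLeft (nat_lit 1) (Nat.land (Nat.shiftRight (V (nat_lit 55)) (S (nat_lit 8))) (nat_lit 65535))) (Nat.shiftLeft (nat_lit 1) (Nat.land (Nat.shiftRight (V (nat_lit 55)) (S (nat_lit 11))) (nat_lit 65535)))))) (Nat.add (Nat.add (Nat.add (Nat.shiftLeft (nat_lit 1) (Nat.land (Nat.shiftRight (V (nat_lit 55)) (S (nat_lit 14))) (nat_lit 65535))) (Nat.shiftLeft (nat_lit 1) (Nat.land (Nat.shiftRight (V (nat_lit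 55)) (S (nat_lit 33))) (nat_lit 65535)))) (Nat.add (Nat.shiftLeft (nat_lit 1) (Nat.land (Nat.shiftRight (V (nat_lit 56)) (S (nat_lit 11))) (nat_lit 65535))) (Nat.shiftLeft (nat_lit 1) (Nat.land (Nat.shiftRight (V (nat_lit 56)) (S (nat_lit 15))) (nat_lit 65535))))) (Nat.add (Nat.add (Nat.shiftLeft (nat_lit 1) (Nat.land (Nat.shiftRight (V (nat_lit 58)) (S (nat_lit 8))) (nat_lit 65535))) (Nat.shiftLeft (nat_lit 1) (Nat.land (Nat.shiftRight (V (nat_lit 58)) (S (nat_lit 24))) (nat_lit 65535)))) (Nat.add (Nat.shiftLeft (nat_lit 1) (Nat.land (Nat.shiftRight (V (nat_lit 59)) (S (nat_lit 8))) (nat_lit 65535))) (Nat.shiftLeft (nat_lit 1) (Nat.land (Nat.shiftRight (V (nat_lit 59)) (S (nat_lit 12))) (nat_lit 65535)))))))))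
def E95_1 (V S : ℕ → ℕ) : ℕ := Nat.add (Nat.add (Nat.add (Nat.add (Nat.add (Nat.add (Nat.shiftLeft (nat_lit 1) (Nat.land (Nat.shiftRight (V (nat_lit 12)) (S (nat_lit 32))) (nat_lit 65535))) (Nat.shiftLeft (nat_lit 1) (Nat.land (Nat.shiftRight (V (nat_lit 12)) (S (nat_lit 35))) (nat_lit 65535)))) (Nat.add (Nat.shiftLeft (nat_lit 1) (Nat.land (Nat.shiftRight (V (nat_lit 12)) (S (nat_lit 45))) (nat_lit 65535))) (Nat.shiftLeft (nat_lit 1) (Nat.land (Nat.shiftRight (V (nat_lit 12)) (S (nat_lit 57))) (nat_lit 65535))))) (Nat.add (Nat.add (Nat.shiftLeft (nat_lit 1) (Nat.land (Nat.shiftRight (V (nat_lit 15)) (S (nat_lit 32))) (nat_lit 65535))) (Nat.shiftLeft (nat_lit 1) (Nat.land (Nat.shiftRight (V (nat_lit 15)) (S (nat_lit 35))) (nat_lit 65535)))) (Nat.add (Nat.shiftLeft (nat_lit 1) (Nat.land (Nat.shiftRight (V (nat_lit 15)) (S (nat_lit 38))) (nat_lit 65535))) (Nat.shiftLeft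 (nat_lit 1) (Nat.land (Nat.shiftRight (V (nat_lit 15)) (S (nat_lit 50))) (nat_lit 65535)))))) (Nat.add (Nat.add (Nat.add (Nat.shiftLeft (nat_lit 1) (Nat.land (Nat.shiftRight (V (nat_lit 20)) (S (nat_lit 24))) (nat_lit 65535))) (Nat.shiftLeft (nat_lit 1) (Nat.land (Nat.shiftRight (V (nat_lit 20)) (S (nat_lit 27))) (nat_lit 65535)))) (Nat.add (Nat.shiftLeft (nat_lit 1) (Nat.land (Nat.shiftRight (V (nat_lit 20)) (S (nat_lit 43))) (nat_lit 65535))) (Nat.shiftLeft (nat_lit 1) (Nat.land (Nat.shiftRight (V (nat_lit 20)) (S (nat_lit 52))) (nat_lit 65535))))) (Nat.add (Nat.add (Nat.shiftLeft (nat_lit 1) (Nat.land (Nat.shiftRight (V (nat_lit 23)) (S (nat_lit 24))) (nat_lit 65535))) (Nat.shiftLeft (nat_lit 1) (Nat.land (Nat.shiftRight (V (nat_lit 23)) (S (nat_lit 27))) (nat_lit 65535)))) (Nat.add (Nat.shiftLeft (nat_lit 1) (Nat.land (Nat.shiftRight (V (nat_lit 23)) (S (nat_lit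 40))) (nat_lit 65535))) (Nat.shiftLeft (nat_lit 1) (Nat.land (Nat.shiftRight (V (nat_lit 23)) (S (nat_lit 55))) (nat_lit 65535))))))) (Nat.add (Nat.add (Nat.add (Nat.add (Nat.shiftLeft (nat_lit 1) (Nat.land (Nat.shiftRight (V (nat_lit 24)) (S (nat_lit 20))) (nat_lit 65535))) (Nat.shiftLeft (nat_lit 1) (Nat.land (Nat.shiftRight (V (nat_lit 24)) (S (nat_lit 23))) (nat_lit 65535)))) (Nat.add (Nat.shiftLeft (nat_lit 1) (Nat.land (Nat.shiftRight (V (nat_lit 24)) (S (nat_lit 45))) (nat_lit 65535))) (Nat.shiftLeft (nat_lit 1) (Nat.land (Nat.shiftRight (V (nat_lit 24)) (S (nat_lit 57))) (nat_lit 65535))))) (Nat.add (Nat.add (Nat.shiftLeft (nat_lit 1) (Nat.land (Nat.shiftRight (V (nat_lit 27)) (S (nat_lit 20))) (nat_lit 65535))) (Nat.shiftLeft (nat_lit 1) (Nat.land (Nat.shiftRight (V (nat_lit 27)) (S (nat_lit 23))) (nat_lit 65535)))) (Nat.add (Nat.shiftLeft (nat_lit 1) (Nat.land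 (Nat.shiftRight (V (nat_lit 27)) (S (nat_lit 38))) (nat_lit 65535))) (Nat.shiftLeft (nat_lit 1) (Nat.land (Nat.shiftRight (V (nat_lit 27)) (S (nat_lit 50))) (nat_lit 65535)))))) (Nat.add (Nat.add (Nat.add (Nat.shiftLeft (nat_lit 1) (Nat.land (Nat.shiftRight (V (nat_lit 32)) (S (nat_lit 12))) (nat_lit 65535))) (Nat.shiftLeft (nat_lit 1) (Nat.land (Nat.shiftRight (V (nat_lit 32)) (S (nat_lit 15))) (nat_lit 65535)))) (Nat.add (Nat.shiftLeft (nat_lit 1) (Nat.land (Nat.shiftRight (V (nat_lit 32)) (S (nat_lit 40))) (nat_lit 65535))) (Nat.shiftLeft (nat_lit 1) (Nat.land (Nat.shiftRight (V (nat_lit 32)) (S (nat_lit 55))) (nat_lit 65535))))) (Nat.add (Nat.add (Nat.shiftLeft (nat_lit 1) (Nat.land (Nat.shiftRight (V (nat_lit 35)) (S (nat_lit 12))) (nat_lit 65535))) (Nat.shiftLeft (nat_lit 1) (Nat.land (Nat.shiftRight (V (nat_lit 35)) (S (nat_lit 15))) (nat_lit 65535)))) (Nat.add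 (Nat.shiftLeft (nat_lit 1) (Nat.land (Nat.shiftRight (V (nat_lit 35)) (S (nat_lit 43))) (nat_lit 65535))) (Nat.shiftLeft (nat_lit 1) (Nat.land (Nat.shiftRight (V (nat_lit 35)) (S (nat_lit 52))) (nat_lit 65535)))))))) (Nat.add (Nat.add (Nat.add (Nat.add (Nat.add (Nat.shiftLeft (nat_lit 1) (Nat.land (Nat.shiftRight (V (nat_lit 38)) (S (nat_lit 15))) (nat_lit 65535))) (Nat.shiftLeft (nat_lit 1) (Nat.land (Nat.shiftRight (V (nat_lit 38)) (S (nat_lit 27))) (nat_lit 65535)))) (Nat.add (Nat.shiftLeft (nat_lit 1) (Nat.land (Nat.shiftRight (V (nat_lit 38)) (S (nat_lit 52))) (nat_lit 65535))) (Nat.shiftLeft (nat_lit 1) (Nat.land (Nat.shiftRight (V (nat_lit 38)) (S (nat_lit 55))) (nat_lit 65535))))) (Nat.add (Nat.add (Nat.shiftLeft (nat_lit 1) (Nat.land (Nat.shiftRight (V (nat_lit 40)) (S (nat_lit 23))) (nat_lit 65535))) (Nat.shiftLeft (nat_lit 1) (Nat.land (Nat.shiftRight (V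 (nat_lit 40)) (S (nat_lit 32))) (nat_lit 65535)))) (Nat.add (Nat.shiftLeft (nat_lit 1) (Nat.land (Nat.shiftRight (V (nat_lit 40)) (S (nat_lit 50))) (nat_lit 65535))) (Nat.shiftLeft (nat_lit 1) (Nat.land (Nat.shiftRight (V (nat_lit 40)) (S (nat_lit 57))) (nat_lit 65535)))))) (Nat.add (Nat.add (Nat.add (Nat.shiftLeft (nat_lit 1) (Nat.land (Nat.shiftRight (V (nat_lit 43)) (S (nat_lit 20))) (nat_lit 65535))) (Nat.shiftLeft (nat_lit 1) (Nat.land (Nat.shiftRight (V (nat_lit 43)) (S (nat_lit 35))) (nat_lit 65535)))) (Nat.add (Nat.shiftLeft (nat_lit 1) (Nat.land (Nat.shiftRight (V (nat_lit 43)) (S (nat_lit 50))) (nat_lit 65535))) (Nat.shiftLeft (nat_lit 1) (Nat.land (Nat.shiftRight (V (nat_lit 43)) (S (nat_lit 57))) (nat_lit 65535))))) (Nat.add (Nat.add (Nat.shiftLeft (nat_lit 1) (Nat.land (Nat.shiftRight (V (nat_lit 45)) (S (nat_lit 12))) (nat_lit 65535))) (Nat.shiftLeft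 (nat_lit 1) (Nat.land (Nat.shiftRight (V (nat_lit 45)) (S (nat_lit 24))) (nat_lit 65535)))) (Nat.add (Nat.shiftLeft (nat_lit 1) (Nat.land (Nat.shiftRight (V (nat_lit 45)) (S (nat_lit 52))) (nat_lit 65535))) (Nat.shiftLeft (nat_lit 1) (Nat.land (Nat.shiftRight (V (nat_lit 45)) (S (nat_lit 55))) (nat_lit 65535))))))) (Nat.add (Nat.add (Nat.add (Nat.add (Nat.shiftLeft (nat_lit 1) (Nat.land (Nat.shiftRight (V (nat_lit 50)) (S (nat_lit 15))) (nat_lit 65535))) (Nat.shiftLeft (nat_lit 1) (Nat.land (Nat.shiftRight (V (nat_lit 50)) (S (nat_lit 27))) (nat_lit 65535)))) (Nat.add (Nat.shiftLeft (nat_lit 1) (Nat.land (Nat.shiftRight (V (nat_lit 50)) (S (nat_lit 40))) (nat_lit 65535))) (Nat.shiftLeft (nat_lit 1) (Nat.land (Nat.shiftRight (V (nat_lit 50)) (S (nat_lit 43))) (nat_lit 65535))))) (Nat.add (Nat.add (Nat.shiftLeft (nat_lit 1) (Nat.land (Nat.shiftRight (V (nat_lit 52))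 (S (nat_lit 20))) (nat_lit 65535))) (Nat.shiftLeft (nat_lit 1) (Nat.land (Nat.shiftRight (V (nat_lit 52)) (S (nat_lit 35))) (nat_lit 65535)))) (Nat.add (Nat.shiftLeft (nat_lit 1) (Nat.land (Nat.shiftRight (V (nat_lit 52)) (S (nat_lit 38))) (nat_lit 65535))) (Nat.shiftLeft (nat_lit 1) (Nat.land (Nat.shiftRight (V (nat_lit 52)) (S (nat_lit 45))) (nat_lit 65535)))))) (Nat.add (Nat.add (Nat.add (Nat.shiftLeft (nat_lit 1) (Nat.land (Nat.shiftRight (V (nat_lit 55)) (S (nat_lit 23))) (nat_lit 65535))) (Nat.shiftLeft (nat_lit 1) (Nat.land (Nat.shiftRight (V (nat_lit 55)) (S (nat_lit 32))) (nat_lit 65535)))) (Nat.add (Nat.shiftLeft (nat_lit 1) (Nat.land (Nat.shiftRight (V (nat_lit 55)) (S (nat_lit 38))) (nat_lit 65535))) (Nat.shiftLeft (nat_lit 1) (Nat.land (Nat.shiftRight (V (nat_lit 55)) (S (nat_lit 45))) (nat_lit 65535))))) (Nat.add (Nat.add (Nat.shiftLeft (nat_lit 1) (Nat.land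 (Nat.shiftRight (V (nat_lit 57)) (S (nat_lit 12))) (nat_lit 65535))) (Nat.shiftLeft (nat_lit 1) (Nat.land (Nat.shiftRight (V (nat_lit 57)) (S (nat_lit 24))) (nat_lit 65535)))) (Nat.add (Nat.shiftLeft (nat_lit 1) (Nat.land (Nat.shiftRight (V (nat_lit 57)) (S (nat_lit 40))) (nat_lit 65535))) (Nat.shiftLeft (nat_lit 1) (Nat.land (Nat.shiftRight (V (nat_lit 57)) (S (nat_lit 43))) (nat_lit 65535))))))))
def E96_1 (V S : ℕ → ℕ) : ℕ := Nat.add (Nat.add (Nat.add (Nat.add (Nat.add (Nat.shiftLeft (nat_lit 1) (Nat.land (Nat.shiftRight (V (nat_lit 16)) (S (nat_lit 20))) (nat_lit 65535))) (Nat.shiftLeft (nat_lit 1) (Nat.land (Nat.shiftRight (V (nat_lit 17)) (S (nat_lit 23))) (nat_lit 65535)))) (Nat.add (Nat.shiftLeft (nat_lit 1) (Nat.land (Nat.shiftRight (V (nat_lit 19)) (S (nat_lit 23))) (nat_lit 65535))) (Nat.shiftLeft (nat_lit 1) (Nat.land (Nat.shiftRight (V (nat_lit 20)) (S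 (nat_lit 16))) (nat_lit 65535))))) (Nat.add (Nat.add (Nat.shiftLeft (nat_lit 1) (Nat.land (Nat.shiftRight (V (nat_lit 20)) (S (nat_lit 22))) (nat_lit 65535))) (Nat.shiftLeft (nat_lit 1) (Nat.land (Nat.shiftRight (V (nat_lit 22)) (S (nat_lit 20))) (nat_lit 65535)))) (Nat.add (Nat.shiftLeft (nat_lit 1) (Nat.land (Nat.shiftRight (V (nat_lit 23)) (S (nat_lit 17))) (nat_lit 65535))) (Nat.shiftLeft (nat_lit 1) (Nat.land (Nat.shiftRight (V (nat_lit 23)) (S (nat_lit 19))) (nat_lit 65535)))))) (Nat.add (Nat.add (Nat.add (Nat.shiftLeft (nat_lit 1) (Nat.land (Nat.shiftRight (V (nat_lit 28)) (S (nat_lit 32))) (nat_lit 65535))) (Nat.shiftLeft (nat_lit 1) (Nat.land (Nat.shiftRight (V (nat_lit 29)) (S (nat_lit 35))) (nat_lit 65535)))) (Nat.add (Nat.shiftLeft (nat_lit 1) (Nat.land (Nat.shiftRight (V (nat_lit 31)) (S (nat_lit 35))) (nat_lit 65535))) (Nat.shiftLeft (nat_lit 1) (Nat.land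 (Nat.shiftRight (V (nat_lit 32)) (S (nat_lit 28))) (nat_lit 65535))))) (Nat.add (Nat.add (Nat.shiftLeft (nat_lit 1) (Nat.land (Nat.shiftRight (V (nat_lit 32)) (S (nat_lit 34))) (nat_lit 65535))) (Nat.shiftLeft (nat_lit 1) (Nat.land (Nat.shiftRight (V (nat_lit 34)) (S (nat_lit 32))) (nat_lit 65535)))) (Nat.add (Nat.shiftLeft (nat_lit 1) (Nat.land (Nat.shiftRight (V (nat_lit 35)) (S (nat_lit 29))) (nat_lit 65535))) (Nat.shiftLeft (nat_lit 1) (Nat.land (Nat.shiftRight (V (nat_lit 35)) (S (nat_lit 31))) (nat_lit 65535))))))) (Nat.add (Nat.add (Nat.add (Nat.add (Nat.shiftLeft (nat_lit 1) (Nat.land (Nat.shiftRight (V (nat_lit 36)) (S (nat_lit 38))) (nat_lit 65535))) (Nat.shiftLeft (nat_lit 1) (Nat.land (Nat.shiftRight (V (nat_lit 37)) (S (nat_lit 38))) (nat_lit 65535)))) (Nat.add (Nat.shiftLeft (nat_lit 1) (Nat.land (Nat.shiftRight (V (nat_lit 38)) (S (nat_lit 36))) (nat_lit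 65535))) (Nat.shiftLeft (nat_lit 1) (Nat.land (Nat.shiftRight (V (nat_lit 38)) (S (nat_lit 37))) (nat_lit 65535))))) (Nat.add (Nat.add (Nat.shiftLeft (nat_lit 1) (Nat.land (Nat.shiftRight (V (nat_lit 39)) (S (nat_lit 45))) (nat_lit 65535))) (Nat.shiftLeft (nat_lit 1) (Nat.land (Nat.shiftRight (V (nat_lit 42)) (S (nat_lit 45))) (nat_lit 65535)))) (Nat.add (Nat.shiftLeft (nat_lit 1) (Nat.land (Nat.shiftRight (V (nat_lit 45)) (S (nat_lit 39))) (nat_lit 65535))) (Nat.shiftLeft (nat_lit 1) (Nat.land (Nat.shiftRight (V (nat_lit 45)) (S (nat_lit 42))) (nat_lit 65535)))))) (Nat.add (Nat.add (Nat.add (Nat.shiftLeft (nat_lit 1) (Nat.land (Nat.shiftRight (V (nat_lit 48)) (S (nat_lit 50))) (nat_lit 65535))) (Nat.shiftLeft (nat_lit 1) (Nat.land (Nat.shiftRight (V (nat_lit 49)) (S (nat_lit 50))) (nat_lit 65535)))) (Nat.add (Nat.shiftLeft (nat_lit 1) (Nat.land (Nat.shiftRight (V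 (nat_lit 50)) (S (nat_lit 48))) (nat_lit 65535))) (Nat.shiftLeft (nat_lit 1) (Nat.land (Nat.shiftRight (V (nat_lit 50)) (S (nat_lit 49))) (nat_lit 65535))))) (Nat.add (Nat.add (Nat.shiftLeft (nat_lit 1) (Nat.land (Nat.shiftRight (V (nat_lit 51)) (S (nat_lit 57))) (nat_lit 65535))) (Nat.shiftLeft (nat_lit 1) (Nat.land (Nat.shiftRight (V (nat_lit 54)) (S (nat_lit 57))) (nat_lit 65535)))) (Nat.add (Nat.shiftLeft (nat_lit 1) (Nat.land (Nat.shiftRight (V (nat_lit 57)) (S (nat_lit 51))) (nat_lit 65535))) (Nat.shiftLeft (nat_lit 1) (Nat.land (Nat.shiftRight (V (nat_lit 57)) (S (nat_lit 54))) (nat_lit 65535)))))))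
def E100_1 (V S : ℕ → ℕ) : ℕ := Nat.add (Nat.add (Nat.add (Nat.add (Nat.add (Nat.add (Nat.shiftLeft (nat_lit 1) (Nat.land (Nat.shiftRight (V (nat_lit 16)) (S (nat_lit 23))) (nat_lit 65535))) (Nat.shiftLeft (nat_lit 1) (Nat.land (Nat.shiftRight (V (nat_lit 16)) (S (nat_lit 35))) (nat_lit 65535)))) (Nat.add (Nat.shiftLeft (nat_lit 1) (Nat.land (Nat.shiftRight (V (nat_lit 17)) (S (nat_lit 20))) (nat_lit 65535))) (Nat.shiftLeft (nat_lit 1) (Nat.land (Nat.shiftRight (V (nat_lit 17)) (S (nat_lit 32))) (nat_lit 65535))))) (Nat.add (Nat.add (Nat.shiftLeft (nat_lit 1) (Nat.land (Nat.shiftRight (V (nat_lit 19)) (S (nat_lit 20))) (nat_lit 65535))) (Nat.shiftLeft (nat_lit 1) (Nat.land (Nat.shiftRight (V (nat_lit 19)) (S (nat_lit 32))) (nat_lit 65535)))) (Nat.add (Nat.shiftLeft (nat_lit 1) (Nat.land (Nat.shiftRight (V (nat_lit 20)) (S (nat_lit 17))) (nat_lit 65535))) (Nat.shiftLeft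 (nat_lit 1) (Nat.land (Nat.shiftRight (V (nat_lit 20)) (S (nat_lit 19))) (nat_lit 65535)))))) (Nat.add (Nat.add (Nat.add (Nat.shiftLeft (nat_lit 1) (Nat.land (Nat.shiftRight (V (nat_lit 20)) (S (nat_lit 29))) (nat_lit 65535))) (Nat.shiftLeft (nat_lit 1) (Nat.land (Nat.shiftRight (V (nat_lit 20)) (S (nat_lit 31))) (nat_lit 65535)))) (Nat.add (Nat.shiftLeft (nat_lit 1) (Nat.land (Nat.shiftRight (V (nat_lit 22)) (S (nat_lit 23))) (nat_lit 65535))) (Nat.shiftLeft (nat_lit 1) (Nat.land (Nat.shiftRight (V (nat_lit 22)) (S (nat_lit 35))) (nat_lit 65535))))) (Nat.add (Nat.add (Nat.shiftLeft (nat_lit 1) (Nat.land (Nat.shiftRight (V (nat_lit 23)) (S (nat_lit 16))) (nat_lit 65535))) (Nat.shiftLeft (nat_lit 1) (Nat.land (Nat.shiftRight (V (nat_lit 23)) (S (nat_lit 22))) (nat_lit 65535)))) (Nat.add (Nat.shiftLeft (nat_lit 1) (Nat.land (Nat.shiftRight (V (nat_lit 23)) (S (nat_lit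 28))) (nat_lit 65535))) (Nat.shiftLeft (nat_lit 1) (Nat.land (Nat.shiftRight (V (nat_lit 23)) (S (nat_lit 34))) (nat_lit 65535))))))) (Nat.add (Nat.add (Nat.add (Nat.add (Nat.shiftLeft (nat_lit 1) (Nat.land (Nat.shiftRight (V (nat_lit 28)) (S (nat_lit 23))) (nat_lit 65535))) (Nat.shiftLeft (nat_lit 1) (Nat.land (Nat.shiftRight (V (nat_lit 28)) (S (nat_lit 35))) (nat_lit 65535)))) (Nat.add (Nat.shiftLeft (nat_lit 1) (Nat.land (Nat.shiftRight (V (nat_lit 29)) (S (nat_lit 20))) (nat_lit 65535))) (Nat.shiftLeft (nat_lit 1) (Nat.land (Nat.shiftRight (V (nat_lit 29)) (S (nat_lit 32))) (nat_lit 65535))))) (Nat.add (Nat.add (Nat.shiftLeft (nat_lit 1) (Nat.land (Nat.shiftRight (V (nat_lit 31)) (S (nat_lit 20))) (nat_lit 65535))) (Nat.shiftLeft (nat_lit 1) (Nat.land (Nat.shiftRight (V (nat_lit 31)) (S (nat_lit 32))) (nat_lit 65535)))) (Nat.add (Nat.shiftLeft (nat_lit 1) (Nat.land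 (Nat.shiftRight (V (nat_lit 32)) (S (nat_lit 17))) (nat_lit 65535))) (Nat.shiftLeft (nat_lit 1) (Nat.land (Nat.shiftRight (V (nat_lit 32)) (S (nat_lit 19))) (nat_lit 65535)))))) (Nat.add (Nat.add (Nat.add (Nat.shiftLeft (nat_lit 1) (Nat.land (Nat.shiftRight (V (nat_lit 32)) (S (nat_lit 29))) (nat_lit 65535))) (Nat.shiftLeft (nat_lit 1) (Nat.land (Nat.shiftRight (V (nat_lit 32)) (S (nat_lit 31))) (nat_lit 65535)))) (Nat.add (Nat.shiftLeft (nat_lit 1) (Nat.land (Nat.shiftRight (V (nat_lit 34)) (S (nat_lit 23))) (nat_lit 65535))) (Nat.shiftLeft (nat_lit 1) (Nat.land (Nat.shiftRight (V (nat_lit 34)) (S (nat_lit 35))) (nat_lit 65535))))) (Nat.add (Nat.add (Nat.shiftLeft (nat_lit 1) (Nat.land (Nat.shiftRight (V (nat_lit 35)) (S (nat_lit 16))) (nat_lit 65535))) (Nat.shiftLeft (nat_lit 1) (Nat.land (Nat.shiftRight (V (nat_lit 35)) (S (nat_lit 22))) (nat_lit 65535)))) (Nat.add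 (Nat.shiftLeft (nat_lit 1) (Nat.land (Nat.shiftRight (V (nat_lit 35)) (S (nat_lit 28))) (nat_lit 65535))) (Nat.shiftLeft (nat_lit 1) (Nat.land (Nat.shiftRight (V (nat_lit 35)) (S (nat_lit 34))) (nat_lit 65535)))))))) (Nat.add (Nat.add (Nat.add (Nat.add (Nat.add (Nat.shiftLeft (nat_lit 1) (Nat.land (Nat.shiftRight (V (nat_lit 36)) (S (nat_lit 45))) (nat_lit 65535))) (Nat.shiftLeft (nat_lit 1) (Nat.land (Nat.shiftRight (V (nat_lit 36)) (S (nat_lit 50))) (nat_lit 65535)))) (Nat.add (Nat.shiftLeft (nat_lit 1) (Nat.land (Nat.shiftRight (V (nat_lit 37)) (S (nat_lit 45))) (nat_lit 65535))) (Nat.shiftLeft (nat_lit 1) (Nat.land (Nat.shiftRight (V (nat_lit 37)) (S (nat_lit 50))) (nat_lit 65535))))) (Nat.add (Nat.add (Nat.shiftLeft (nat_lit 1) (Nat.land (Nat.shiftRight (V (nat_lit 38)) (S (nat_lit 39))) (nat_lit 65535))) (Nat.shiftLeft (nat_lit 1) (Nat.land (Nat.shiftRight (V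 (nat_lit 38)) (S (nat_lit 42))) (nat_lit 65535)))) (Nat.add (Nat.shiftLeft (nat_lit 1) (Nat.land (Nat.shiftRight (V (nat_lit 38)) (S (nat_lit 48))) (nat_lit 65535))) (Nat.shiftLeft (nat_lit 1) (Nat.land (Nat.shiftRight (V (nat_lit 38)) (S (nat_lit 49))) (nat_lit 65535)))))) (Nat.add (Nat.add (Nat.add (Nat.shiftLeft (nat_lit 1) (Nat.land (Nat.shiftRight (V (nat_lit 39)) (S (nat_lit 38))) (nat_lit 65535))) (Nat.shiftLeft (nat_lit 1) (Nat.land (Nat.shiftRight (V (nat_lit 39)) (S (nat_lit 57))) (nat_lit 65535)))) (Nat.add (Nat.shiftLeft (nat_lit 1) (Nat.land (Nat.shiftRight (V (nat_lit 42)) (S (nat_lit 38))) (nat_lit 65535))) (Nat.shiftLeft (nat_lit 1) (Nat.land (Nat.shiftRight (V (nat_lit 42)) (S (nat_lit 57))) (nat_lit 65535))))) (Nat.add (Nat.add (Nat.shiftLeft (nat_lit 1) (Nat.land (Nat.shiftRight (V (nat_lit 45)) (S (nat_lit 36))) (nat_lit 65535))) (Nat.shiftLeft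 (nat_lit 1) (Nat.land (Nat.shiftRight (V (nat_lit 45)) (S (nat_lit 37))) (nat_lit 65535)))) (Nat.add (Nat.shiftLeft (nat_lit 1) (Nat.land (Nat.shiftRight (V (nat_lit 45)) (S (nat_lit 51))) (nat_lit 65535))) (Nat.shiftLeft (nat_lit 1) (Nat.land (Nat.shiftRight (V (nat_lit 45)) (S (nat_lit 54))) (nat_lit 65535))))))) (Nat.add (Nat.add (Nat.add (Nat.add (Nat.shiftLeft (nat_lit 1) (Nat.land (Nat.shiftRight (V (nat_lit 48)) (S (nat_lit 38))) (nat_lit 65535))) (Nat.shiftLeft (nat_lit 1) (Nat.land (Nat.shiftRight (V (nat_lit 48)) (S (nat_lit 57))) (nat_lit 65535)))) (Nat.add (Nat.shiftLeft (nat_lit 1) (Nat.land (Nat.shiftRight (V (nat_lit 49)) (S (nat_lit 38))) (nat_lit 65535))) (Nat.shiftLeft (nat_lit 1) (Nat.land (Nat.shiftRight (V (nat_lit 49)) (S (nat_lit 57))) (nat_lit 65535))))) (Nat.add (Nat.add (Nat.shiftLeft (nat_lit 1) (Nat.land (Nat.shiftRight (V (nat_lit 50))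 (S (nat_lit 36))) (nat_lit 65535))) (Nat.shiftLeft (nat_lit 1) (Nat.land (Nat.shiftRight (V (nat_lit 50)) (S (nat_lit 37))) (nat_lit 65535)))) (Nat.add (Nat.shiftLeft (nat_lit 1) (Nat.land (Nat.shiftRight (V (nat_lit 50)) (S (nat_lit 51))) (nat_lit 65535))) (Nat.shiftLeft (nat_lit 1) (Nat.land (Nat.shiftRight (V (nat_lit 50)) (S (nat_lit 54))) (nat_lit 65535)))))) (Nat.add (Nat.add (Nat.add (Nat.shiftLeft (nat_lit 1) (Nat.land (Nat.shiftRight (V (nat_lit 51)) (S (nat_lit 45))) (nat_lit 65535))) (Nat.shiftLeft (nat_lit 1) (Nat.land (Nat.shiftRight (V (nat_lit 51)) (S (nat_lit 50))) (nat_lit 65535)))) (Nat.add (Nat.shiftLeft (nat_lit 1) (Nat.land (Nat.shiftRight (V (nat_lit 54)) (S (nat_lit 45))) (nat_lit 65535))) (Nat.shiftLeft (nat_lit 1) (Nat.land (Nat.shiftRight (V (nat_lit 54)) (S (nat_lit 50))) (nat_lit 65535))))) (Nat.add (Nat.add (Nat.shiftLeft (nat_lit 1) (Nat.land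 (Nat.shiftRight (V (nat_lit 57)) (S (nat_lit 39))) (nat_lit 65535))) (Nat.shiftLeft (nat_lit 1) (Nat.land (Nat.shiftRight (V (nat_lit 57)) (S (nat_lit 42))) (nat_lit 65535)))) (Nat.add (Nat.shiftLeft (nat_lit 1) (Nat.land (Nat.shiftRight (V (nat_lit 57)) (S (nat_lit 48))) (nat_lit 65535))) (Nat.shiftLeft (nat_lit 1) (Nat.land (Nat.shiftRight (V (nat_lit 57)) (S (nat_lit 49))) (nat_lit 65535))))))))
def E101_1 (V S : ℕ → ℕ) : ℕ := Nat.add (Nat.add (Nat.add (Nat.add (Nat.add (Nat.add (Nat.shiftLeft (nat_lit 1) (Nat.land (Nat.shiftRight (V (nat_lit 13)) (S (nat_lit 16))) (nat_lit 65535))) (Nat.shiftLeft (nat_lit 1) (Nat.land (Nat.shiftRight (V (nat_lit 13)) (S (nat_lit 48))) (nat_lit 65535)))) (Nat.add (Nat.shiftLeft (nat_lit 1) (Nat.land (Nat.shiftRight (V (nat_lit 14)) (S (nat_lit 17))) (nat_lit 65535))) (Nat.shiftLeft (nat_lit 1) (Nat.land (Nat.shiftRight (V (nat_lit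 14)) (S (nat_lit 36))) (nat_lit 65535))))) (Nat.add (Nat.add (Nat.shiftLeft (nat_lit 1) (Nat.land (Nat.shiftRight (V (nat_lit 16)) (S (nat_lit 13))) (nat_lit 65535))) (Nat.shiftLeft (nat_lit 1) (Nat.land (Nat.shiftRight (V (nat_lit 16)) (S (nat_lit 53))) (nat_lit 65535)))) (Nat.add (Nat.shiftLeft (nat_lit 1) (Nat.land (Nat.shiftRight (V (nat_lit 17)) (S (nat_lit 14))) (nat_lit 65535))) (Nat.shiftLeft (nat_lit 1) (Nat.land (Nat.shiftRight (V (nat_lit 17)) (S (nat_lit 41))) (nat_lit 65535)))))) (Nat.add (Nat.add (Nat.add (Nat.shiftLeft (nat_lit 1) (Nat.land (Nat.shiftRight (V (nat_lit 18)) (S (nat_lit 19))) (nat_lit 65535))) (Nat.shiftLeft (nat_lit 1) (Nat.land (Nat.shiftRight (V (nat_lit 18)) (S (nat_lit 51))) (nat_lit 65535)))) (Nat.add (Nat.shiftLeft (nat_lit 1) (Nat.land (Nat.shiftRight (V (nat_lit 19)) (S (nat_lit 18))) (nat_lit 65535))) (Nat.shiftLeft (nat_lit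 1) (Nat.land (Nat.shiftRight (V (nat_lit 19)) (S (nat_lit 58))) (nat_lit 65535))))) (Nat.add (Nat.add (Nat.shiftLeft (nat_lit 1) (Nat.land (Nat.shiftRight (V (nat_lit 21)) (S (nat_lit 22))) (nat_lit 65535))) (Nat.shiftLeft (nat_lit 1) (Nat.land (Nat.shiftRight (V (nat_lit 21)) (S (nat_lit 39))) (nat_lit 65535)))) (Nat.add (Nat.shiftLeft (nat_lit 1) (Nat.land (Nat.shiftRight (V (nat_lit 22)) (S (nat_lit 21))) (nat_lit 65535))) (Nat.shiftLeft (nat_lit 1) (Nat.land (Nat.shiftRight (V (nat_lit 22)) (S (nat_lit 46))) (nat_lit 65535))))))) (Nat.add (Nat.add (Nat.add (Nat.add (Nat.shiftLeft (nat_lit 1) (Nat.land (Nat.shiftRight (V (nat_lit 25)) (S (nat_lit 28))) (nat_lit 65535))) (Nat.shiftLeft (nat_lit 1) (Nat.land (Nat.shiftRight (V (nat_lit 25)) (S (nat_lit 49))) (nat_lit 65535)))) (Nat.add (Nat.shiftLeft (nat_lit 1) (Nat.land (Nat.shiftRight (V (nat_lit 26)) (S (nat_lit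 29))) (nat_lit 65535))) (Nat.shiftLeft (nat_lit 1) (Nat.land (Nat.shiftRight (V (nat_lit 26)) (S (nat_lit 37))) (nat_lit 65535))))) (Nat.add (Nat.add (Nat.shiftLeft (nat_lit 1) (Nat.land (Nat.shiftRight (V (nat_lit 28)) (S (nat_lit 25))) (nat_lit 65535))) (Nat.shiftLeft (nat_lit 1) (Nat.land (Nat.shiftRight (V (nat_lit 28)) (S (nat_lit 56))) (nat_lit 65535)))) (Nat.add (Nat.shiftLeft (nat_lit 1) (Nat.land (Nat.shiftRight (V (nat_lit 29)) (S (nat_lit 26))) (nat_lit 65535))) (Nat.shiftLeft (nat_lit 1) (Nat.land (Nat.shiftRight (V (nat_lit 29)) (S (nat_lit 44))) (nat_lit 65535)))))) (Nat.add (Nat.add (Nat.add (Nat.shiftLeft (nat_lit 1) (Nat.land (Nat.shiftRight (V (nat_lit 30)) (S (nat_lit 31))) (nat_lit 65535))) (Nat.shiftLeft (nat_lit 1) (Nat.land (Nat.shiftRight (V (nat_lit 30)) (S (nat_lit 54))) (nat_lit 65535)))) (Nat.add (Nat.shiftLeft (nat_lit 1) (Nat.land (Nat.shiftRight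 (V (nat_lit 31)) (S (nat_lit 30))) (nat_lit 65535))) (Nat.shiftLeft (nat_lit 1) (Nat.land (Nat.shiftRight (V (nat_lit 31)) (S (nat_lit 59))) (nat_lit 65535))))) (Nat.add (Nat.add (Nat.shiftLeft (nat_lit 1) (Nat.land (Nat.shiftRight (V (nat_lit 33)) (S (nat_lit 34))) (nat_lit 65535))) (Nat.shiftLeft (nat_lit 1) (Nat.land (Nat.shiftRight (V (nat_lit 33)) (S (nat_lit 42))) (nat_lit 65535)))) (Nat.add (Nat.shiftLeft (nat_lit 1) (Nat.land (Nat.shiftRight (V (nat_lit 34)) (S (nat_lit 33))) (nat_lit 65535))) (Nat.shiftLeft (nat_lit 1) (Nat.land (Nat.shiftRight (V (nat_lit 34)) (S (nat_lit 47))) (nat_lit 65535)))))))) (Nat.add (Nat.add (Nat.add (Nat.add (Nat.add (Nat.shiftLeft (nat_lit 1) (Nat.land (Nat.shiftRight (V (nat_lit 36)) (S (nat_lit 14))) (nat_lit 65535))) (Nat.shiftLeft (nat_lit 1) (Nat.land (Nat.shiftRight (V (nat_lit 36)) (S (nat_lit 41))) (nat_lit 65535))))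 (Nat.add (Nat.shiftLeft (nat_lit 1) (Nat.land (Nat.shiftRight (V (nat_lit 37)) (S (nat_lit 26))) (nat_lit 65535))) (Nat.shiftLeft (nat_lit 1) (Nat.land (Nat.shiftRight (V (nat_lit 37)) (S (nat_lit 44))) (nat_lit 65535))))) (Nat.add (Nat.add (Nat.shiftLeft (nat_lit 1) (Nat.land (Nat.shiftRight (V (nat_lit 39)) (S (nat_lit 21))) (nat_lit 65535))) (Nat.shiftLeft (nat_lit 1) (Nat.land (Nat.shiftRight (V (nat_lit 39)) (S (nat_lit 46))) (nat_lit 65535)))) (Nat.add (Nat.shiftLeft (nat_lit 1) (Nat.land (Nat.shiftRight (V (nat_lit 41)) (S (nat_lit 17))) (nat_lit 65535))) (Nat.shiftLeft (nat_lit 1) (Nat.land (Nat.shiftRight (V (nat_lit 41)) (S (nat_lit 36))) (nat_lit 65535)))))) (Nat.add (Nat.add (Nat.add (Nat.shiftLeft (nat_lit 1) (Nat.land (Nat.shiftRight (V (nat_lit 42)) (S (nat_lit 33))) (nat_lit 65535))) (Nat.shiftLeft (nat_lit 1) (Nat.land (Nat.shiftRight (V (nat_lit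 42)) (S (nat_lit 47))) (nat_lit 65535)))) (Nat.add (Nat.shiftLeft (nat_lit 1) (Nat.land (Nat.shiftRight (V (nat_lit 44)) (S (nat_lit 29))) (nat_lit 65535))) (Nat.shiftLeft (nat_lit 1) (Nat.land (Nat.shiftRight (V (nat_lit 44)) (S (nat_lit 37))) (nat_lit 65535))))) (Nat.add (Nat.add (Nat.shiftLeft (nat_lit 1) (Nat.land (Nat.shiftRight (V (nat_lit 46)) (S (nat_lit 22))) (nat_lit 65535))) (Nat.shiftLeft (nat_lit 1) (Nat.land (Nat.shiftRight (V (nat_lit 46)) (S (nat_lit 39))) (nat_lit 65535)))) (Nat.add (Nat.shiftLeft (nat_lit 1) (Nat.land (Nat.shiftRight (V (nat_lit 47)) (S (nat_lit 34))) (nat_lit 65535))) (Nat.shiftLeft (nat_lit 1) (Nat.land (Nat.shiftRight (V (nat_lit 47)) (S (nat_lit 42))) (nat_lit 65535))))))) (Nat.add (Nat.add (Nat.add (Nat.add (Nat.shiftLeft (nat_lit 1) (Nat.land (Nat.shiftRight (V (nat_lit 48)) (S (nat_lit 13))) (nat_lit 65535))) (Nat.shiftLeft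 (nat_lit 1) (Nat.land (Nat.shiftRight (V (nat_lit 48)) (S (nat_lit 53))) (nat_lit 65535)))) (Nat.add (Nat.shiftLeft (nat_lit 1) (Nat.land (Nat.shiftRight (V (nat_lit 49)) (S (nat_lit 25))) (nat_lit 65535))) (Nat.shiftLeft (nat_lit 1) (Nat.land (Nat.shiftRight (V (nat_lit 49)) (S (nat_lit 56))) (nat_lit 65535))))) (Nat.add (Nat.add (Nat.shiftLeft (nat_lit 1) (Nat.land (Nat.shiftRight (V (nat_lit 51)) (S (nat_lit 18))) (nat_lit 65535))) (Nat.shiftLeft (nat_lit 1) (Nat.land (Nat.shiftRight (V (nat_lit 51)) (S (nat_lit 58))) (nat_lit 65535)))) (Nat.add (Nat.shiftLeft (nat_lit 1) (Nat.land (Nat.shiftRight (V (nat_lit 53)) (S (nat_lit 16))) (nat_lit 65535))) (Nat.shiftLeft (nat_lit 1) (Nat.land (Nat.shiftRight (V (nat_lit 53)) (S (nat_lit 48))) (nat_lit 65535)))))) (Nat.add (Nat.add (Nat.add (Nat.shiftLeft (nat_lit 1) (Nat.land (Nat.shiftRight (V (nat_lit 54)) (S (nat_lit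 30))) (nat_lit 65535))) (Nat.shiftLeft (nat_lit 1) (Nat.land (Nat.shiftRight (V (nat_lit 54)) (S (nat_lit 59))) (nat_lit 65535)))) (Nat.add (Nat.shiftLeft (nat_lit 1) (Nat.land (Nat.shiftRight (V (nat_lit 56)) (S (nat_lit 28))) (nat_lit 65535))) (Nat.shiftLeft (nat_lit 1) (Nat.land (Nat.shiftRight (V (nat_lit 56)) (S (nat_lit 49))) (nat_lit 65535))))) (Nat.add (Nat.add (Nat.shiftLeft (nat_lit 1) (Nat.land (Nat.shiftRight (V (nat_lit 58)) (S (nat_lit 19))) (nat_lit 65535))) (Nat.shiftLeft (nat_lit 1) (Nat.land (Nat.shiftRight (V (nat_lit 58)) (S (nat_lit 51))) (nat_lit 65535)))) (Nat.add (Nat.shiftLeft (nat_lit 1) (Nat.land (Nat.shiftRight (V (nat_lit 59)) (S (nat_lit 31))) (nat_lit 65535))) (Nat.shiftLeft (nat_lit 1) (Nat.land (Nat.shiftRight (V (nat_lit 59)) (S (nat_lit 54))) (nat_lit 65535))))))))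
def E102_1 (V S : ℕ → ℕ) : ℕ := Nat.add (Nat.add (Nat.add (Nat.add (Nat.add (Nat.shiftLeft (nat_lit 1) (Nat.land (Nat.shiftRight (V (nat_lit 16)) (S (nat_lit 45))) (nat_lit 65535))) (Nat.shiftLeft (nat_lit 1) (Nat.land (Nat.shiftRight (V (nat_lit 17)) (S (nat_lit 57))) (nat_lit 65535)))) (Nat.add (Nat.shiftLeft (nat_lit 1) (Nat.land (Nat.shiftRight (V (nat_lit 19)) (S (nat_lit 38))) (nat_lit 65535))) (Nat.shiftLeft (nat_lit 1) (Nat.land (Nat.shiftRight (V (nat_lit 20)) (S (nat_lit 42))) (nat_lit 65535))))) (Nat.add (Nat.add (Nat.shiftLeft (nat_lit 1) (Nat.land (Nat.shiftRight (V (nat_lit 20)) (S (nat_lit 49))) (nat_lit 65535))) (Nat.shiftLeft (nat_lit 1) (Nat.land (Nat.shiftRight (V (nat_lit 22)) (S (nat_lit 50))) (nat_lit 65535)))) (Nat.add (Nat.shiftLeft (nat_lit 1) (Nat.land (Nat.shiftRight (V (nat_lit 23)) (S (nat_lit 37))) (nat_lit 65535))) (Nat.shiftLeft (nat_lit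 1) (Nat.land (Nat.shiftRight (V (nat_lit 23)) (S (nat_lit 54))) (nat_lit 65535)))))) (Nat.add (Nat.add (Nat.add (Nat.shiftLeft (nat_lit 1) (Nat.land (Nat.shiftRight (V (nat_lit 28)) (S (nat_lit 45))) (nat_lit 65535))) (Nat.shiftLeft (nat_lit 1) (Nat.land (Nat.shiftRight (V (nat_lit 29)) (S (nat_lit 57))) (nat_lit 65535)))) (Nat.add (Nat.shiftLeft (nat_lit 1) (Nat.land (Nat.shiftRight (V (nat_lit 31)) (S (nat_lit 38))) (nat_lit 65535))) (Nat.shiftLeft (nat_lit 1) (Nat.land (Nat.shiftRight (V (nat_lit 32)) (S (nat_lit 39))) (nat_lit 65535))))) (Nat.add (Nat.add (Nat.shiftLeft (nat_lit 1) (Nat.land (Nat.shiftRight (V (nat_lit 32)) (S (nat_lit 48))) (nat_lit 65535))) (Nat.shiftLeft (nat_lit 1) (Nat.land (Nat.shiftRight (V (nat_lit 34)) (S (nat_lit 50))) (nat_lit 65535)))) (Nat.add (Nat.shiftLeft (nat_lit 1) (Nat.land (Nat.shiftRight (V (nat_lit 35)) (S (nat_lit 36)))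 (nat_lit 65535))) (Nat.shiftLeft (nat_lit 1) (Nat.land (Nat.shiftRight (V (nat_lit 35)) (S (nat_lit 51))) (nat_lit 65535))))))) (Nat.add (Nat.add (Nat.add (Nat.add (Nat.shiftLeft (nat_lit 1) (Nat.land (Nat.shiftRight (V (nat_lit 36)) (S (nat_lit 35))) (nat_lit 65535))) (Nat.shiftLeft (nat_lit 1) (Nat.land (Nat.shiftRight (V (nat_lit 37)) (S (nat_lit 23))) (nat_lit 65535)))) (Nat.add (Nat.shiftLeft (nat_lit 1) (Nat.land (Nat.shiftRight (V (nat_lit 38)) (S (nat_lit 19))) (nat_lit 65535))) (Nat.shiftLeft (nat_lit 1) (Nat.land (Nat.shiftRight (V (nat_lit 38)) (S (nat_lit 31))) (nat_lit 65535))))) (Nat.add (Nat.add (Nat.shiftLeft (nat_lit 1) (Nat.land (Nat.shiftRight (V (nat_lit 39)) (S (nat_lit 32))) (nat_lit 65535))) (Nat.shiftLeft (nat_lit 1) (Nat.land (Nat.shiftRight (V (nat_lit 42)) (S (nat_lit 20))) (nat_lit 65535)))) (Nat.add (Nat.shiftLeft (nat_lit 1) (Nat.land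 (Nat.shiftRight (V (nat_lit 45)) (S (nat_lit 16))) (nat_lit 65535))) (Nat.shiftLeft (nat_lit 1) (Nat.land (Nat.shiftRight (V (nat_lit 45)) (S (nat_lit 28))) (nat_lit 65535)))))) (Nat.add (Nat.add (Nat.add (Nat.shiftLeft (nat_lit 1) (Nat.land (Nat.shiftRight (V (nat_lit 48)) (S (nat_lit 32))) (nat_lit 65535))) (Nat.shiftLeft (nat_lit 1) (Nat.land (Nat.shiftRight (V (nat_lit 49)) (S (nat_lit 20))) (nat_lit 65535)))) (Nat.add (Nat.shiftLeft (nat_lit 1) (Nat.land (Nat.shiftRight (V (nat_lit 50)) (S (nat_lit 22))) (nat_lit 65535))) (Nat.shiftLeft (nat_lit 1) (Nat.land (Nat.shiftRight (V (nat_lit 50)) (S (nat_lit 34))) (nat_lit 65535))))) (Nat.add (Nat.add (Nat.shiftLeft (nat_lit 1) (Nat.land (Nat.shiftRight (V (nat_lit 51)) (S (nat_lit 35))) (nat_lit 65535))) (Nat.shiftLeft (nat_lit 1) (Nat.land (Nat.shiftRight (V (nat_lit 54)) (S (nat_lit 23))) (nat_lit 65535)))) (Nat.add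 (Nat.shiftLeft (nat_lit 1) (Nat.land (Nat.shiftRight (V (nat_lit 57)) (S (nat_lit 17))) (nat_lit 65535))) (Nat.shiftLeft (nat_lit 1) (Nat.land (Nat.shiftRight (V (nat_lit 57)) (S (nat_lit 29))) (nat_lit 65535)))))))
def E103_1 (V S : ℕ → ℕ) : ℕ := Nat.add (Nat.add (Nat.add (Nat.add (Nat.add (Nat.add (Nat.shiftLeft (nat_lit 1) (Nat.land (Nat.shiftRight (V (nat_lit 16)) (S (nat_lit 38))) (nat_lit 65535))) (Nat.shiftLeft (nat_lit 1) (Nat.land (Nat.shiftRight (V (nat_lit 16)) (S (nat_lit 57))) (nat_lit 65535)))) (Nat.add (Nat.shiftLeft (nat_lit 1) (Nat.land (Nat.shiftRight (V (nat_lit 17)) (S (nat_lit 45))) (nat_lit 65535))) (Nat.shiftLeft (nat_lit 1) (Nat.land (Nat.shiftRight (V (nat_lit 17)) (S (nat_lit 50))) (nat_lit 65535))))) (Nat.add (Nat.add (Nat.shiftLeft (nat_lit 1) (Nat.land (Nat.shiftRight (V (nat_lit 19)) (S (nat_lit 45))) (nat_lit 65535))) (Nat.shiftLeft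 (nat_lit 1) (Nat.land (Nat.shiftRight (V (nat_lit 19)) (S (nat_lit 50))) (nat_lit 65535)))) (Nat.add (Nat.shiftLeft (nat_lit 1) (Nat.land (Nat.shiftRight (V (nat_lit 20)) (S (nat_lit 36))) (nat_lit 65535))) (Nat.shiftLeft (nat_lit 1) (Nat.land (Nat.shiftRight (V (nat_lit 20)) (S (nat_lit 37))) (nat_lit 65535)))))) (Nat.add (Nat.add (Nat.add (Nat.shiftLeft (nat_lit 1) (Nat.land (Nat.shiftRight (V (nat_lit 20)) (S (nat_lit 51))) (nat_lit 65535))) (Nat.shiftLeft (nat_lit 1) (Nat.land (Nat.shiftRight (V (nat_lit 20)) (S (nat_lit 54))) (nat_lit 65535)))) (Nat.add (Nat.shiftLeft (nat_lit 1) (Nat.land (Nat.shiftRight (V (nat_lit 22)) (S (nat_lit 38))) (nat_lit 65535))) (Nat.shiftLeft (nat_lit 1) (Nat.land (Nat.shiftRight (V (nat_lit 22)) (S (nat_lit 57))) (nat_lit 65535))))) (Nat.add (Nat.add (Nat.shiftLeft (nat_lit 1) (Nat.land (Nat.shiftRight (V (nat_lit 23)) (S (nat_lit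 39))) (nat_lit 65535))) (Nat.shiftLeft (nat_lit 1) (Nat.land (Nat.shiftRight (V (nat_lit 23)) (S (nat_lit 42))) (nat_lit 65535)))) (Nat.add (Nat.shiftLeft (nat_lit 1) (Nat.land (Nat.shiftRight (V (nat_lit 23)) (S (nat_lit 48))) (nat_lit 65535))) (Nat.shiftLeft (nat_lit 1) (Nat.land (Nat.shiftRight (V (nat_lit 23)) (S (nat_lit 49))) (nat_lit 65535))))))) (Nat.add (Nat.add (Nat.add (Nat.add (Nat.shiftLeft (nat_lit 1) (Nat.land (Nat.shiftRight (V (nat_lit 28)) (S (nat_lit 38))) (nat_lit 65535))) (Nat.shiftLeft (nat_lit 1) (Nat.land (Nat.shiftRight (V (nat_lit 28)) (S (nat_lit 57))) (nat_lit 65535)))) (Nat.add (Nat.shiftLeft (nat_lit 1) (Nat.land (Nat.shiftRight (V (nat_lit 29)) (S (nat_lit 45))) (nat_lit 65535))) (Nat.shiftLeft (nat_lit 1) (Nat.land (Nat.shiftRight (V (nat_lit 29)) (S (nat_lit 50))) (nat_lit 65535))))) (Nat.add (Nat.add (Nat.shiftLeft (nat_lit 1) (Nat.land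 (Nat.shiftRight (V (nat_lit 31)) (S (nat_lit 45))) (nat_lit 65535))) (Nat.shiftLeft (nat_lit 1) (Nat.land (Nat.shiftRight (V (nat_lit 31)) (S (nat_lit 50))) (nat_lit 65535)))) (Nat.add (Nat.shiftLeft (nat_lit 1) (Nat.land (Nat.shiftRight (V (nat_lit 32)) (S (nat_lit 36))) (nat_lit 65535))) (Nat.shiftLeft (nat_lit 1) (Nat.land (Nat.shiftRight (V (nat_lit 32)) (S (nat_lit 37))) (nat_lit 65535)))))) (Nat.add (Nat.add (Nat.add (Nat.shiftLeft (nat_lit 1) (Nat.land (Nat.shiftRight (V (nat_lit 32)) (S (nat_lit 51))) (nat_lit 65535))) (Nat.shiftLeft (nat_lit 1) (Nat.land (Nat.shiftRight (V (nat_lit 32)) (S (nat_lit 54))) (nat_lit 65535)))) (Nat.add (Nat.shiftLeft (nat_lit 1) (Nat.land (Nat.shiftRight (V (nat_lit 34)) (S (nat_lit 38))) (nat_lit 65535))) (Nat.shiftLeft (nat_lit 1) (Nat.land (Nat.shiftRight (V (nat_lit 34)) (S (nat_lit 57))) (nat_lit 65535))))) (Nat.add (Nat.add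 (Nat.shiftLeft (nat_lit 1) (Nat.land (Nat.shiftRight (V (nat_lit 35)) (S (nat_lit 39))) (nat_lit 65535))) (Nat.shiftLeft (nat_lit 1) (Nat.land (Nat.shiftRight (V (nat_lit 35)) (S (nat_lit 42))) (nat_lit 65535)))) (Nat.add (Nat.shiftLeft (nat_lit 1) (Nat.land (Nat.shiftRight (V (nat_lit 35)) (S (nat_lit 48))) (nat_lit 65535))) (Nat.shiftLeft (nat_lit 1) (Nat.land (Nat.shiftRight (V (nat_lit 35)) (S (nat_lit 49))) (nat_lit 65535)))))))) (Nat.add (Nat.add (Nat.add (Nat.add (Nat.add (Nat.shiftLeft (nat_lit 1) (Nat.land (Nat.shiftRight (V (nat_lit 36)) (S (nat_lit 20))) (nat_lit 65535))) (Nat.shiftLeft (nat_lit 1) (Nat.land (Nat.shiftRight (V (nat_lit 36)) (S (nat_lit 32))) (nat_lit 65535)))) (Nat.add (Nat.shiftLeft (nat_lit 1) (Nat.land (Nat.shiftRight (V (nat_lit 37)) (S (nat_lit 20))) (nat_lit 65535))) (Nat.shiftLeft (nat_lit 1) (Nat.land (Nat.shiftRight (V (nat_lit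 37)) (S (nat_lit 32))) (nat_lit 65535))))) (Nat.add (Nat.add (Nat.shiftLeft (nat_lit 1) (Nat.land (Nat.shiftRight (V (nat_lit 38)) (S (nat_lit 16))) (nat_lit 65535))) (Nat.shiftLeft (nat_lit 1) (Nat.land (Nat.shiftRight (V (nat_lit 38)) (S (nat_lit 22))) (nat_lit 65535)))) (Nat.add (Nat.shiftLeft (nat_lit 1) (Nat.land (Nat.shiftRight (V (nat_lit 38)) (S (nat_lit 28))) (nat_lit 65535))) (Nat.shiftLeft (nat_lit 1) (Nat.land (Nat.shiftRight (V (nat_lit 38)) (S (nat_lit 34))) (nat_lit 65535)))))) (Nat.add (Nat.add (Nat.add (Nat.shiftLeft (nat_lit 1) (Nat.land (Nat.shiftRight (V (nat_lit 39)) (S (nat_lit 23))) (nat_lit 65535))) (Nat.shiftLeft (nat_lit 1) (Nat.land (Nat.shiftRight (V (nat_lit 39)) (S (nat_lit 35))) (nat_lit 65535)))) (Nat.add (Nat.shiftLeft (nat_lit 1) (Nat.land (Nat.shiftRight (V (nat_lit 42)) (S (nat_lit 23))) (nat_lit 65535))) (Nat.shiftLeft (nat_lit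 1) (Nat.land (Nat.shiftRight (V (nat_lit 42)) (S (nat_lit 35))) (nat_lit 65535))))) (Nat.add (Nat.add (Nat.shiftLeft (nat_lit 1) (Nat.land (Nat.shiftRight (V (nat_lit 45)) (S (nat_lit 17))) (nat_lit 65535))) (Nat.shiftLeft (nat_lit 1) (Nat.land (Nat.shiftRight (V (nat_lit 45)) (S (nat_lit 19))) (nat_lit 65535)))) (Nat.add (Nat.shiftLeft (nat_lit 1) (Nat.land (Nat.shiftRight (V (nat_lit 45)) (S (nat_lit 29))) (nat_lit 65535))) (Nat.shiftLeft (nat_lit 1) (Nat.land (Nat.shiftRight (V (nat_lit 45)) (S (nat_lit 31))) (nat_lit 65535))))))) (Nat.add (Nat.add (Nat.add (Nat.add (Nat.shiftLeft (nat_lit 1) (Nat.land (Nat.shiftRight (V (nat_lit 48)) (S (nat_lit 23))) (nat_lit 65535))) (Nat.shiftLeft (nat_lit 1) (Nat.land (Nat.shiftRight (V (nat_lit 48)) (S (nat_lit 35))) (nat_lit 65535)))) (Nat.add (Nat.shiftLeft (nat_lit 1) (Nat.land (Nat.shiftRight (V (nat_lit 49)) (S (nat_lit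 23))) (nat_lit 65535))) (Nat.shiftLeft (nat_lit 1) (Nat.land (Nat.shiftRight (V (nat_lit 49)) (S (nat_lit 35))) (nat_lit 65535))))) (Nat.add (Nat.add (Nat.shiftLeft (nat_lit 1) (Nat.land (Nat.shiftRight (V (nat_lit 50)) (S (nat_lit 17))) (nat_lit 65535))) (Nat.shiftLeft (nat_lit 1) (Nat.land (Nat.shiftRight (V (nat_lit 50)) (S (nat_lit 19))) (nat_lit 65535)))) (Nat.add (Nat.shiftLeft (nat_lit 1) (Nat.land (Nat.shiftRight (V (nat_lit 50)) (S (nat_lit 29))) (nat_lit 65535))) (Nat.shiftLeft (nat_lit 1) (Nat.land (Nat.shiftRight (V (nat_lit 50)) (S (nat_lit 31))) (nat_lit 65535)))))) (Nat.add (Nat.add (Nat.add (Nat.shiftLeft (nat_lit 1) (Nat.land (Nat.shiftRight (V (nat_lit 51)) (S (nat_lit 20))) (nat_lit 65535))) (Nat.shiftLeft (nat_lit 1) (Nat.land (Nat.shiftRight (V (nat_lit 51)) (S (nat_lit 32))) (nat_lit 65535)))) (Nat.add (Nat.shiftLeft (nat_lit 1) (Nat.land (Nat.shiftRight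 (V (nat_lit 54)) (S (nat_lit 20))) (nat_lit 65535))) (Nat.shiftLeft (nat_lit 1) (Nat.land (Nat.shiftRight (V (nat_lit 54)) (S (nat_lit 32))) (nat_lit 65535))))) (Nat.add (Nat.add (Nat.shiftLeft (nat_lit 1) (Nat.land (Nat.shiftRight (V (nat_lit 57)) (S (nat_lit 16))) (nat_lit 65535))) (Nat.shiftLeft (nat_lit 1) (Nat.land (Nat.shiftRight (V (nat_lit 57)) (S (nat_lit 22))) (nat_lit 65535)))) (Nat.add (Nat.shiftLeft (nat_lit 1) (Nat.land (Nat.shiftRight (V (nat_lit 57)) (S (nat_lit 28))) (nat_lit 65535))) (Nat.shiftLeft (nat_lit 1) (Nat.land (Nat.shiftRight (V (nat_lit 57)) (S (nat_lit 34))) (nat_lit 65535))))))))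
def E104_1 (V S : ℕ → ℕ) : ℕ := Nat.add (Nat.add (Nat.add (Nat.add (Nat.add (Nat.add (Nat.add (Nat.shiftLeft (nat_lit 1) (Nat.land (Nat.shiftRight (V (nat_lit 13)) (S (nat_lit 23))) (nat_lit 65535))) (Nat.shiftLeft (nat_lit 1) (Nat.land (Nat.shiftRight (V (nat_lit 13)) (S (nat_lit 34))) (nat_lit 65535)))) (Nat.add (Nat.shiftLeft (nat_lit 1) (Nat.land (Nat.shiftRight (V (nat_lit 13)) (S (nat_lit 38))) (nat_lit 65535))) (Nat.shiftLeft (nat_lit 1) (Nat.land (Nat.shiftRight (V (nat_lit 13)) (S (nat_lit 42))) (nat_lit 65535))))) (Nat.add (Nat.add (Nat.shiftLeft (nat_lit 1) (Nat.land (Nat.shiftRight (V (nat_lit 14)) (S (nat_lit 20))) (nat_lit 65535))) (Nat.shiftLeft (nat_lit 1) (Nat.land (Nat.shiftRight (V (nat_lit 14)) (S (nat_lit 31))) (nat_lit 65535)))) (Nat.add (Nat.shiftLeft (nat_lit 1) (Nat.land (Nat.shiftRight (V (nat_lit 14)) (S (nat_lit 50))) (nat_lit 65535)))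 (Nat.shiftLeft (nat_lit 1) (Nat.land (Nat.shiftRight (V (nat_lit 14)) (S (nat_lit 54))) (nat_lit 65535)))))) (Nat.add (Nat.add (Nat.add (Nat.shiftLeft (nat_lit 1) (Nat.land (Nat.shiftRight (V (nat_lit 16)) (S (nat_lit 33))) (nat_lit 65535))) (Nat.shiftLeft (nat_lit 1) (Nat.land (Nat.shiftRight (V (nat_lit 16)) (S (nat_lit 47))) (nat_lit 65535)))) (Nat.add (Nat.shiftLeft (nat_lit 1) (Nat.land (Nat.shiftRight (V (nat_lit 17)) (S (nat_lit 30))) (nat_lit 65535))) (Nat.shiftLeft (nat_lit 1) (Nat.land (Nat.shiftRight (V (nat_lit 17)) (S (nat_lit 59))) (nat_lit 65535))))) (Nat.add (Nat.add (Nat.shiftLeft (nat_lit 1) (Nat.land (Nat.shiftRight (V (nat_lit 18)) (S (nat_lit 20))) (nat_lit 65535))) (Nat.shiftLeft (nat_lit 1) (Nat.land (Nat.shiftRight (V (nat_lit 18)) (S (nat_lit 29))) (nat_lit 65535)))) (Nat.add (Nat.shiftLeft (nat_lit 1) (Nat.land (Nat.shiftRight (V (nat_lit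 18)) (S (nat_lit 37))) (nat_lit 65535))) (Nat.shiftLeft (nat_lit 1) (Nat.land (Nat.shiftRight (V (nat_lit 18)) (S (nat_lit 45))) (nat_lit 65535))))))) (Nat.add (Nat.add (Nat.add (Nat.add (Nat.shiftLeft (nat_lit 1) (Nat.land (Nat.shiftRight (V (nat_lit 19)) (S (nat_lit 26))) (nat_lit 65535))) (Nat.shiftLeft (nat_lit 1) (Nat.land (Nat.shiftRight (V (nat_lit 19)) (S (nat_lit 44))) (nat_lit 65535)))) (Nat.add (Nat.shiftLeft (nat_lit 1) (Nat.land (Nat.shiftRight (V (nat_lit 20)) (S (nat_lit 14))) (nat_lit 65535))) (Nat.shiftLeft (nat_lit 1) (Nat.land (Nat.shiftRight (V (nat_lit 20)) (S (nat_lit 18))) (nat_lit 65535))))) (Nat.add (Nat.add (Nat.shiftLeft (nat_lit 1) (Nat.land (Nat.shiftRight (V (nat_lit 20)) (S (nat_lit 44))) (nat_lit 65535))) (Nat.shiftLeft (nat_lit 1) (Nat.land (Nat.shiftRight (V (nat_lit 20)) (S (nat_lit 59))) (nat_lit 65535)))) (Nat.add (Nat.shiftLeft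 (nat_lit 1) (Nat.land (Nat.shiftRight (V (nat_lit 21)) (S (nat_lit 23))) (nat_lit 65535))) (Nat.shiftLeft (nat_lit 1) (Nat.land (Nat.shiftRight (V (nat_lit 21)) (S (nat_lit 28))) (nat_lit 65535)))))) (Nat.add (Nat.add (Nat.add (Nat.shiftLeft (nat_lit 1) (Nat.land (Nat.shiftRight (V (nat_lit 21)) (S (nat_lit 49))) (nat_lit 65535))) (Nat.shiftLeft (nat_lit 1) (Nat.land (Nat.shiftRight (V (nat_lit 21)) (S (nat_lit 57))) (nat_lit 65535)))) (Nat.add (Nat.shiftLeft (nat_lit 1) (Nat.land (Nat.shiftRight (V (nat_lit 22)) (S (nat_lit 25))) (nat_lit 65535))) (Nat.shiftLeft (nat_lit 1) (Nat.land (Nat.shiftRight (V (nat_lit 22)) (S (nat_lit 56))) (nat_lit 65535))))) (Nat.add (Nat.add (Nat.shiftLeft (nat_lit 1) (Nat.land (Nat.shiftRight (V (nat_lit 23)) (S (nat_lit 13))) (nat_lit 65535))) (Nat.shiftLeft (nat_lit 1) (Nat.land (Nat.shiftRight (V (nat_lit 23)) (S (nat_lit 21))) (nat_lit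 65535)))) (Nat.add (Nat.shiftLeft (nat_lit 1) (Nat.land (Nat.shiftRight (V (nat_lit 23)) (S (nat_lit 47))) (nat_lit 65535))) (Nat.shiftLeft (nat_lit 1) (Nat.land (Nat.shiftRight (V (nat_lit 23)) (S (nat_lit 56))) (nat_lit 65535)))))))) (Nat.add (Nat.add (Nat.add (Nat.add (Nat.add (Nat.shiftLeft (nat_lit 1) (Nat.land (Nat.shiftRight (V (nat_lit 25)) (S (nat_lit 22))) (nat_lit 65535))) (Nat.shiftLeft (nat_lit 1) (Nat.land (Nat.shiftRight (V (nat_lit 25)) (S (nat_lit 35))) (nat_lit 65535)))) (Nat.add (Nat.shiftLeft (nat_lit 1) (Nat.land (Nat.shiftRight (V (nat_lit 25)) (S (nat_lit 38))) (nat_lit 65535))) (Nat.shiftLeft (nat_lit 1) (Nat.land (Nat.shiftRight (V (nat_lit 25)) (S (nat_lit 39))) (nat_lit 65535))))) (Nat.add (Nat.add (Nat.shiftLeft (nat_lit 1) (Nat.land (Nat.shiftRight (V (nat_lit 26)) (S (nat_lit 19))) (nat_lit 65535))) (Nat.shiftLeft (nat_lit 1) (Nat.land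 (Nat.shiftRight (V (nat_lit 26)) (S (nat_lit 32))) (nat_lit 65535)))) (Nat.add (Nat.shiftLeft (nat_lit 1) (Nat.land (Nat.shiftRight (V (nat_lit 26)) (S (nat_lit 50))) (nat_lit 65535))) (Nat.shiftLeft (nat_lit 1) (Nat.land (Nat.shiftRight (V (nat_lit 26)) (S (nat_lit 51))) (nat_lit 65535)))))) (Nat.add (Nat.add (Nat.add (Nat.shiftLeft (nat_lit 1) (Nat.land (Nat.shiftRight (V (nat_lit 28)) (S (nat_lit 21))) (nat_lit 65535))) (Nat.shiftLeft (nat_lit 1) (Nat.land (Nat.shiftRight (V (nat_lit 28)) (S (nat_lit 46))) (nat_lit 65535)))) (Nat.add (Nat.shiftLeft (nat_lit 1) (Nat.land (Nat.shiftRight (V (nat_lit 29)) (S (nat_lit 18))) (nat_lit 65535))) (Nat.shiftLeft (nat_lit 1) (Nat.land (Nat.shiftRight (V (nat_lit 29)) (S (nat_lit 58))) (nat_lit 65535))))) (Nat.add (Nat.add (Nat.shiftLeft (nat_lit 1) (Nat.land (Nat.shiftRight (V (nat_lit 30)) (S (nat_lit 17))) (nat_lit 65535)))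 (Nat.shiftLeft (nat_lit 1) (Nat.land (Nat.shiftRight (V (nat_lit 30)) (S (nat_lit 32))) (nat_lit 65535)))) (Nat.add (Nat.shiftLeft (nat_lit 1) (Nat.land (Nat.shiftRight (V (nat_lit 30)) (S (nat_lit 36))) (nat_lit 65535))) (Nat.shiftLeft (nat_lit 1) (Nat.land (Nat.shiftRight (V (nat_lit 30)) (S (nat_lit 45))) (nat_lit 65535))))))) (Nat.add (Nat.add (Nat.add (Nat.add (Nat.shiftLeft (nat_lit 1) (Nat.land (Nat.shiftRight (V (nat_lit 31)) (S (nat_lit 14))) (nat_lit 65535))) (Nat.shiftLeft (nat_lit 1) (Nat.land (Nat.shiftRight (V (nat_lit 31)) (S (nat_lit 41))) (nat_lit 65535)))) (Nat.add (Nat.shiftLeft (nat_lit 1) (Nat.land (Nat.shiftRight (V (nat_lit 32)) (S (nat_lit 26))) (nat_lit 65535))) (Nat.shiftLeft (nat_lit 1) (Nat.land (Nat.shiftRight (V (nat_lit 32)) (S (nat_lit 30))) (nat_lit 65535))))) (Nat.add (Nat.add (Nat.shiftLeft (nat_lit 1) (Nat.land (Nat.shiftRight (V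 (nat_lit 32)) (S (nat_lit 41))) (nat_lit 65535))) (Nat.shiftLeft (nat_lit 1) (Nat.land (Nat.shiftRight (V (nat_lit 32)) (S (nat_lit 58))) (nat_lit 65535)))) (Nat.add (Nat.shiftLeft (nat_lit 1) (Nat.land (Nat.shiftRight (V (nat_lit 33)) (S (nat_lit 16))) (nat_lit 65535))) (Nat.shiftLeft (nat_lit 1) (Nat.land (Nat.shiftRight (V (nat_lit 33)) (S (nat_lit 35))) (nat_lit 65535)))))) (Nat.add (Nat.add (Nat.add (Nat.shiftLeft (nat_lit 1) (Nat.land (Nat.shiftRight (V (nat_lit 33)) (S (nat_lit 48))) (nat_lit 65535))) (Nat.shiftLeft (nat_lit 1) (Nat.land (Nat.shiftRight (V (nat_lit 33)) (S (nat_lit 57))) (nat_lit 65535)))) (Nat.add (Nat.shiftLeft (nat_lit 1) (Nat.land (Nat.shiftRight (V (nat_lit 34)) (S (nat_lit 13))) (nat_lit 65535))) (Nat.shiftLeft (nat_lit 1) (Nat.land (Nat.shiftRight (V (nat_lit 34)) (S (nat_lit 53))) (nat_lit 65535))))) (Nat.add (Nat.add (Nat.shiftLeft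 (nat_lit 1) (Nat.land (Nat.shiftRight (V (nat_lit 35)) (S (nat_lit 25))) (nat_lit 65535))) (Nat.shiftLeft (nat_lit 1) (Nat.land (Nat.shiftRight (V (nat_lit 35)) (S (nat_lit 33))) (nat_lit 65535)))) (Nat.add (Nat.shiftLeft (nat_lit 1) (Nat.land (Nat.shiftRight (V (nat_lit 35)) (S (nat_lit 46))) (nat_lit 65535))) (Nat.shiftLeft (nat_lit 1) (Nat.land (Nat.shiftRight (V (nat_lit 35)) (S (nat_lit 53))) (nat_lit 65535))))))))) (Nat.add (Nat.add (Nat.add (Nat.add (Nat.add (Nat.add (Nat.shiftLeft (nat_lit 1) (Nat.land (Nat.shiftRight (V (nat_lit 36)) (S (nat_lit 30))) (nat_lit 65535))) (Nat.shiftLeft (nat_lit 1) (Nat.land (Nat.shiftRight (V (nat_lit 36)) (S (nat_lit 59))) (nat_lit 65535)))) (Nat.add (Nat.shiftLeft (nat_lit 1) (Nat.land (Nat.shiftRight (V (nat_lit 37)) (S (nat_lit 18))) (nat_lit 65535))) (Nat.shiftLeft (nat_lit 1) (Nat.land (Nat.shiftRight (V (nat_lit 37))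 (S (nat_lit 58))) (nat_lit 65535))))) (Nat.add (Nat.add (Nat.shiftLeft (nat_lit 1) (Nat.land (Nat.shiftRight (V (nat_lit 38)) (S (nat_lit 13))) (nat_lit 65535))) (Nat.shiftLeft (nat_lit 1) (Nat.land (Nat.shiftRight (V (nat_lit 38)) (S (nat_lit 25))) (nat_lit 65535)))) (Nat.add (Nat.shiftLeft (nat_lit 1) (Nat.land (Nat.shiftRight (V (nat_lit 38)) (S (nat_lit 46))) (nat_lit 65535))) (Nat.shiftLeft (nat_lit 1) (Nat.land (Nat.shiftRight (V (nat_lit 38)) (S (nat_lit 47))) (nat_lit 65535)))))) (Nat.add (Nat.add (Nat.add (Nat.shiftLeft (nat_lit 1) (Nat.land (Nat.shiftRight (V (nat_lit 39)) (S (nat_lit 25))) (nat_lit 65535))) (Nat.shiftLeft (nat_lit 1) (Nat.land (Nat.shiftRight (V (nat_lit 39)) (S (nat_lit 56))) (nat_lit 65535)))) (Nat.add (Nat.shiftLeft (nat_lit 1) (Nat.land (Nat.shiftRight (V (nat_lit 41)) (S (nat_lit 31))) (nat_lit 65535))) (Nat.shiftLeft (nat_lit 1) (Nat.land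 (Nat.shiftRight (V (nat_lit 41)) (S (nat_lit 32))) (nat_lit 65535))))) (Nat.add (Nat.add (Nat.shiftLeft (nat_lit 1) (Nat.land (Nat.shiftRight (V (nat_lit 41)) (S (nat_lit 45))) (nat_lit 65535))) (Nat.shiftLeft (nat_lit 1) (Nat.land (Nat.shiftRight (V (nat_lit 41)) (S (nat_lit 54))) (nat_lit 65535)))) (Nat.add (Nat.shiftLeft (nat_lit 1) (Nat.land (Nat.shiftRight (V (nat_lit 42)) (S (nat_lit 13))) (nat_lit 65535))) (Nat.shiftLeft (nat_lit 1) (Nat.land (Nat.shiftRight (V (nat_lit 42)) (S (nat_lit 53))) (nat_lit 65535))))))) (Nat.add (Nat.add (Nat.add (Nat.add (Nat.shiftLeft (nat_lit 1) (Nat.land (Nat.shiftRight (V (nat_lit 44)) (S (nat_lit 19))) (nat_lit 65535))) (Nat.shiftLeft (nat_lit 1) (Nat.land (Nat.shiftRight (V (nat_lit 44)) (S (nat_lit 20))) (nat_lit 65535)))) (Nat.add (Nat.shiftLeft (nat_lit 1) (Nat.land (Nat.shiftRight (V (nat_lit 44)) (S (nat_lit 45))) (nat_lit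 65535))) (Nat.shiftLeft (nat_lit 1) (Nat.land (Nat.shiftRight (V (nat_lit 44)) (S (nat_lit 51))) (nat_lit 65535))))) (Nat.add (Nat.add (Nat.shiftLeft (nat_lit 1) (Nat.land (Nat.shiftRight (V (nat_lit 45)) (S (nat_lit 18))) (nat_lit 65535))) (Nat.shiftLeft (nat_lit 1) (Nat.land (Nat.shiftRight (V (nat_lit 45)) (S (nat_lit 30))) (nat_lit 65535)))) (Nat.add (Nat.shiftLeft (nat_lit 1) (Nat.land (Nat.shiftRight (V (nat_lit 45)) (S (nat_lit 41))) (nat_lit 65535))) (Nat.shiftLeft (nat_lit 1) (Nat.land (Nat.shiftRight (V (nat_lit 45)) (S (nat_lit 44))) (nat_lit 65535)))))) (Nat.add (Nat.add (Nat.add (Nat.shiftLeft (nat_lit 1) (Nat.land (Nat.shiftRight (V (nat_lit 46)) (S (nat_lit 28))) (nat_lit 65535))) (Nat.shiftLeft (nat_lit 1) (Nat.land (Nat.shiftRight (V (nat_lit 46)) (S (nat_lit 35))) (nat_lit 65535)))) (Nat.add (Nat.shiftLeft (nat_lit 1) (Nat.land (Nat.shiftRight (V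 (nat_lit 46)) (S (nat_lit 38))) (nat_lit 65535))) (Nat.shiftLeft (nat_lit 1) (Nat.land (Nat.shiftRight (V (nat_lit 46)) (S (nat_lit 49))) (nat_lit 65535))))) (Nat.add (Nat.add (Nat.shiftLeft (nat_lit 1) (Nat.land (Nat.shiftRight (V (nat_lit 47)) (S (nat_lit 16))) (nat_lit 65535))) (Nat.shiftLeft (nat_lit 1) (Nat.land (Nat.shiftRight (V (nat_lit 47)) (S (nat_lit 23))) (nat_lit 65535)))) (Nat.add (Nat.shiftLeft (nat_lit 1) (Nat.land (Nat.shiftRight (V (nat_lit 47)) (S (nat_lit 38))) (nat_lit 65535))) (Nat.shiftLeft (nat_lit 1) (Nat.land (Nat.shiftRight (V (nat_lit 47)) (S (nat_lit 48))) (nat_lit 65535)))))))) (Nat.add (Nat.add (Nat.add (Nat.add (Nat.add (Nat.shiftLeft (nat_lit 1) (Nat.land (Nat.shiftRight (V (nat_lit 48)) (S (nat_lit 33))) (nat_lit 65535))) (Nat.shiftLeft (nat_lit 1) (Nat.land (Nat.shiftRight (V (nat_lit 48)) (S (nat_lit 47))) (nat_lit 65535)))) (Nat.add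 (Nat.shiftLeft (nat_lit 1) (Nat.land (Nat.shiftRight (V (nat_lit 49)) (S (nat_lit 21))) (nat_lit 65535))) (Nat.shiftLeft (nat_lit 1) (Nat.land (Nat.shiftRight (V (nat_lit 49)) (S (nat_lit 46))) (nat_lit 65535))))) (Nat.add (Nat.add (Nat.shiftLeft (nat_lit 1) (Nat.land (Nat.shiftRight (V (nat_lit 50)) (S (nat_lit 14))) (nat_lit 65535))) (Nat.shiftLeft (nat_lit 1) (Nat.land (Nat.shiftRight (V (nat_lit 50)) (S (nat_lit 26))) (nat_lit 65535)))) (Nat.add (Nat.shiftLeft (nat_lit 1) (Nat.land (Nat.shiftRight (V (nat_lit 50)) (S (nat_lit 58))) (nat_lit 65535))) (Nat.shiftLeft (nat_lit 1) (Nat.land (Nat.shiftRight (V (nat_lit 50)) (S (nat_lit 59))) (nat_lit 65535)))))) (Nat.add (Nat.add (Nat.add (Nat.shiftLeft (nat_lit 1) (Nat.land (Nat.shiftRight (V (nat_lit 51)) (S (nat_lit 26))) (nat_lit 65535))) (Nat.shiftLeft (nat_lit 1) (Nat.land (Nat.shiftRight (V (nat_lit 51)) (S (nat_lit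 44))) (nat_lit 65535)))) (Nat.add (Nat.shiftLeft (nat_lit 1) (Nat.land (Nat.shiftRight (V (nat_lit 53)) (S (nat_lit 34))) (nat_lit 65535))) (Nat.shiftLeft (nat_lit 1) (Nat.land (Nat.shiftRight (V (nat_lit 53)) (S (nat_lit 35))) (nat_lit 65535))))) (Nat.add (Nat.add (Nat.shiftLeft (nat_lit 1) (Nat.land (Nat.shiftRight (V (nat_lit 53)) (S (nat_lit 42))) (nat_lit 65535))) (Nat.shiftLeft (nat_lit 1) (Nat.land (Nat.shiftRight (V (nat_lit 53)) (S (nat_lit 57))) (nat_lit 65535)))) (Nat.add (Nat.shiftLeft (nat_lit 1) (Nat.land (Nat.shiftRight (V (nat_lit 54)) (S (nat_lit 14))) (nat_lit 65535))) (Nat.shiftLeft (nat_lit 1) (Nat.land (Nat.shiftRight (V (nat_lit 54)) (S (nat_lit 41))) (nat_lit 65535))))))) (Nat.add (Nat.add (Nat.add (Nat.add (Nat.shiftLeft (nat_lit 1) (Nat.land (Nat.shiftRight (V (nat_lit 56)) (S (nat_lit 22))) (nat_lit 65535))) (Nat.shiftLeft (nat_lit 1) (Nat.land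 (Nat.shiftRight (V (nat_lit 56)) (S (nat_lit 23))) (nat_lit 65535)))) (Nat.add (Nat.shiftLeft (nat_lit 1) (Nat.land (Nat.shiftRight (V (nat_lit 56)) (S (nat_lit 39))) (nat_lit 65535))) (Nat.shiftLeft (nat_lit 1) (Nat.land (Nat.shiftRight (V (nat_lit 56)) (S (nat_lit 57))) (nat_lit 65535))))) (Nat.add (Nat.add (Nat.shiftLeft (nat_lit 1) (Nat.land (Nat.shiftRight (V (nat_lit 57)) (S (nat_lit 21))) (nat_lit 65535))) (Nat.shiftLeft (nat_lit 1) (Nat.land (Nat.shiftRight (V (nat_lit 57)) (S (nat_lit 33))) (nat_lit 65535)))) (Nat.add (Nat.shiftLeft (nat_lit 1) (Nat.land (Nat.shiftRight (V (nat_lit 57)) (S (nat_lit 53))) (nat_lit 65535))) (Nat.shiftLeft (nat_lit 1) (Nat.land (Nat.shiftRight (V (nat_lit 57)) (S (nat_lit 56))) (nat_lit 65535)))))) (Nat.add (Nat.add (Nat.add (Nat.shiftLeft (nat_lit 1) (Nat.land (Nat.shiftRight (V (nat_lit 58)) (S (nat_lit 29))) (nat_lit 65535)))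 (Nat.shiftLeft (nat_lit 1) (Nat.land (Nat.shiftRight (V (nat_lit 58)) (S (nat_lit 32))) (nat_lit 65535)))) (Nat.add (Nat.shiftLeft (nat_lit 1) (Nat.land (Nat.shiftRight (V (nat_lit 58)) (S (nat_lit 37))) (nat_lit 65535))) (Nat.shiftLeft (nat_lit 1) (Nat.land (Nat.shiftRight (V (nat_lit 58)) (S (nat_lit 50))) (nat_lit 65535))))) (Nat.add (Nat.add (Nat.shiftLeft (nat_lit 1) (Nat.land (Nat.shiftRight (V (nat_lit 59)) (S (nat_lit 17))) (nat_lit 65535))) (Nat.shiftLeft (nat_lit 1) (Nat.land (Nat.shiftRight (V (nat_lit 59)) (S (nat_lit 20))) (nat_lit 65535)))) (Nat.add (Nat.shiftLeft (nat_lit 1) (Nat.land (Nat.shiftRight (V (nat_lit 59)) (S (nat_lit 36))) (nat_lit 65535))) (Nat.shiftLeft (nat_lit 1) (Nat.land (Nat.shiftRight (V (nat_lit 59)) (S (nat_lit 50))) (nat_lit 65535)))))))))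
def E105_1 (V S : ℕ → ℕ) : ℕ := Nat.add (Nat.add (Nat.add (Nat.add (Nat.add (Nat.shiftLeft (nat_lit 1) (Nat.land (Nat.shiftRight (V (nat_lit 16)) (S (nat_lit 39))) (nat_lit 65535))) (Nat.shiftLeft (nat_lit 1) (Nat.land (Nat.shiftRight (V (nat_lit 16)) (S (nat_lit 49))) (nat_lit 65535)))) (Nat.add (Nat.shiftLeft (nat_lit 1) (Nat.land (Nat.shiftRight (V (nat_lit 17)) (S (nat_lit 37))) (nat_lit 65535))) (Nat.shiftLeft (nat_lit 1) (Nat.land (Nat.shiftRight (V (nat_lit 17)) (S (nat_lit 51))) (nat_lit 65535))))) (Nat.add (Nat.add (Nat.shiftLeft (nat_lit 1) (Nat.land (Nat.shiftRight (V (nat_lit 19)) (S (nat_lit 36))) (nat_lit 65535))) (Nat.shiftLeft (nat_lit 1) (Nat.land (Nat.shiftRight (V (nat_lit 19)) (S (nat_lit 54))) (nat_lit 65535)))) (Nat.add (Nat.shiftLeft (nat_lit 1) (Nat.land (Nat.shiftRight (V (nat_lit 22)) (S (nat_lit 42))) (nat_lit 65535))) (Nat.shiftLeft (nat_lit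 1) (Nat.land (Nat.shiftRight (V (nat_lit 22)) (S (nat_lit 48))) (nat_lit 65535)))))) (Nat.add (Nat.add (Nat.add (Nat.shiftLeft (nat_lit 1) (Nat.land (Nat.shiftRight (V (nat_lit 28)) (S (nat_lit 42))) (nat_lit 65535))) (Nat.shiftLeft (nat_lit 1) (Nat.land (Nat.shiftRight (V (nat_lit 28)) (S (nat_lit 48))) (nat_lit 65535)))) (Nat.add (Nat.shiftLeft (nat_lit 1) (Nat.land (Nat.shiftRight (V (nat_lit 29)) (S (nat_lit 36))) (nat_lit 65535))) (Nat.shiftLeft (nat_lit 1) (Nat.land (Nat.shiftRight (V (nat_lit 29)) (S (nat_lit 54))) (nat_lit 65535))))) (Nat.add (Nat.add (Nat.shiftLeft (nat_lit 1) (Nat.land (Nat.shiftRight (V (nat_lit 31)) (S (nat_lit 37))) (nat_lit 65535))) (Nat.shiftLeft (nat_lit 1) (Nat.land (Nat.shiftRight (V (nat_lit 31)) (S (nat_lit 51))) (nat_lit 65535)))) (Nat.add (Nat.shiftLeft (nat_lit 1) (Nat.land (Nat.shiftRight (V (nat_lit 34)) (S (nat_lit 39)))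 (nat_lit 65535))) (Nat.shiftLeft (nat_lit 1) (Nat.land (Nat.shiftRight (V (nat_lit 34)) (S (nat_lit 49))) (nat_lit 65535))))))) (Nat.add (Nat.add (Nat.add (Nat.add (Nat.shiftLeft (nat_lit 1) (Nat.land (Nat.shiftRight (V (nat_lit 36)) (S (nat_lit 19))) (nat_lit 65535))) (Nat.shiftLeft (nat_lit 1) (Nat.land (Nat.shiftRight (V (nat_lit 36)) (S (nat_lit 29))) (nat_lit 65535)))) (Nat.add (Nat.shiftLeft (nat_lit 1) (Nat.land (Nat.shiftRight (V (nat_lit 37)) (S (nat_lit 17))) (nat_lit 65535))) (Nat.shiftLeft (nat_lit 1) (Nat.land (Nat.shiftRight (V (nat_lit 37)) (S (nat_lit 31))) (nat_lit 65535))))) (Nat.add (Nat.add (Nat.shiftLeft (nat_lit 1) (Nat.land (Nat.shiftRight (V (nat_lit 39)) (S (nat_lit 16))) (nat_lit 65535))) (Nat.shiftLeft (nat_lit 1) (Nat.land (Nat.shiftRight (V (nat_lit 39)) (S (nat_lit 34))) (nat_lit 65535)))) (Nat.add (Nat.shiftLeft (nat_lit 1) (Nat.land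 (Nat.shiftRight (V (nat_lit 42)) (S (nat_lit 22))) (nat_lit 65535))) (Nat.shiftLeft (nat_lit 1) (Nat.land (Nat.shiftRight (V (nat_lit 42)) (S (nat_lit 28))) (nat_lit 65535)))))) (Nat.add (Nat.add (Nat.add (Nat.shiftLeft (nat_lit 1) (Nat.land (Nat.shiftRight (V (nat_lit 48)) (S (nat_lit 22))) (nat_lit 65535))) (Nat.shiftLeft (nat_lit 1) (Nat.land (Nat.shiftRight (V (nat_lit 48)) (S (nat_lit 28))) (nat_lit 65535)))) (Nat.add (Nat.shiftLeft (nat_lit 1) (Nat.land (Nat.shiftRight (V (nat_lit 49)) (S (nat_lit 16))) (nat_lit 65535))) (Nat.shiftLeft (nat_lit 1) (Nat.land (Nat.shiftRight (V (nat_lit 49)) (S (nat_lit 34))) (nat_lit 65535))))) (Nat.add (Nat.add (Nat.shiftLeft (nat_lit 1) (Nat.land (Nat.shiftRight (V (nat_lit 51)) (S (nat_lit 17))) (nat_lit 65535))) (Nat.shiftLeft (nat_lit 1) (Nat.land (Nat.shiftRight (V (nat_lit 51)) (S (nat_lit 31))) (nat_lit 65535)))) (Nat.add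 (Nat.shiftLeft (nat_lit 1) (Nat.land (Nat.shiftRight (V (nat_lit 54)) (S (nat_lit 19))) (nat_lit 65535))) (Nat.shiftLeft (nat_lit 1) (Nat.land (Nat.shiftRight (V (nat_lit 54)) (S (nat_lit 29))) (nat_lit 65535)))))))
def E107_1 (V S : ℕ → ℕ) : ℕ := Nat.add (Nat.add (Nat.add (Nat.add (Nat.add (Nat.add (Nat.add (Nat.shiftLeft (nat_lit 1) (Nat.land (Nat.shiftRight (V (nat_lit 13)) (S (nat_lit 20))) (nat_lit 65535))) (Nat.shiftLeft (nat_lit 1) (Nat.land (Nat.shiftRight (V (nat_lit 13)) (S (nat_lit 31))) (nat_lit 65535)))) (Nat.add (Nat.shiftLeft (nat_lit 1) (Nat.land (Nat.shiftRight (V (nat_lit 13)) (S (nat_lit 50))) (nat_lit 65535))) (Nat.shiftLeft (nat_lit 1) (Nat.land (Nat.shiftRight (V (nat_lit 13)) (S (nat_lit 54))) (nat_lit 65535))))) (Nat.add (Nat.add (Nat.shiftLeft (nat_lit 1) (Nat.land (Nat.shiftRight (V (nat_lit 14)) (S (nat_lit 23))) (nat_lit 65535))) (Nat.shiftLeft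 (nat_lit 1) (Nat.land (Nat.shiftRight (V (nat_lit 14)) (S (nat_lit 34))) (nat_lit 65535)))) (Nat.add (Nat.shiftLeft (nat_lit 1) (Nat.land (Nat.shiftRight (V (nat_lit 14)) (S (nat_lit 38))) (nat_lit 65535))) (Nat.shiftLeft (nat_lit 1) (Nat.land (Nat.shiftRight (V (nat_lit 14)) (S (nat_lit 42))) (nat_lit 65535)))))) (Nat.add (Nat.add (Nat.add (Nat.shiftLeft (nat_lit 1) (Nat.land (Nat.shiftRight (V (nat_lit 16)) (S (nat_lit 30))) (nat_lit 65535))) (Nat.shiftLeft (nat_lit 1) (Nat.land (Nat.shiftRight (V (nat_lit 16)) (S (nat_lit 41))) (nat_lit 65535)))) (Nat.add (Nat.shiftLeft (nat_lit 1) (Nat.land (Nat.shiftRight (V (nat_lit 17)) (S (nat_lit 33))) (nat_lit 65535))) (Nat.shiftLeft (nat_lit 1) (Nat.land (Nat.shiftRight (V (nat_lit 17)) (S (nat_lit 53))) (nat_lit 65535))))) (Nat.add (Nat.add (Nat.shiftLeft (nat_lit 1) (Nat.land (Nat.shiftRight (V (nat_lit 18)) (S (nat_lit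 23))) (nat_lit 65535))) (Nat.shiftLeft (nat_lit 1) (Nat.land (Nat.shiftRight (V (nat_lit 18)) (S (nat_lit 28))) (nat_lit 65535)))) (Nat.add (Nat.shiftLeft (nat_lit 1) (Nat.land (Nat.shiftRight (V (nat_lit 18)) (S (nat_lit 49))) (nat_lit 65535))) (Nat.shiftLeft (nat_lit 1) (Nat.land (Nat.shiftRight (V (nat_lit 18)) (S (nat_lit 57))) (nat_lit 65535))))))) (Nat.add (Nat.add (Nat.add (Nat.add (Nat.shiftLeft (nat_lit 1) (Nat.land (Nat.shiftRight (V (nat_lit 19)) (S (nat_lit 25))) (nat_lit 65535))) (Nat.shiftLeft (nat_lit 1) (Nat.land (Nat.shiftRight (V (nat_lit 19)) (S (nat_lit 46))) (nat_lit 65535)))) (Nat.add (Nat.shiftLeft (nat_lit 1) (Nat.land (Nat.shiftRight (V (nat_lit 20)) (S (nat_lit 13))) (nat_lit 65535))) (Nat.shiftLeft (nat_lit 1) (Nat.land (Nat.shiftRight (V (nat_lit 20)) (S (nat_lit 21))) (nat_lit 65535))))) (Nat.add (Nat.add (Nat.shiftLeft (nat_lit 1) (Nat.land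 (Nat.shiftRight (V (nat_lit 20)) (S (nat_lit 46))) (nat_lit 65535))) (Nat.shiftLeft (nat_lit 1) (Nat.land (Nat.shiftRight (V (nat_lit 20)) (S (nat_lit 53))) (nat_lit 65535)))) (Nat.add (Nat.shiftLeft (nat_lit 1) (Nat.land (Nat.shiftRight (V (nat_lit 21)) (S (nat_lit 20))) (nat_lit 65535))) (Nat.shiftLeft (nat_lit 1) (Nat.land (Nat.shiftRight (V (nat_lit 21)) (S (nat_lit 29))) (nat_lit 65535)))))) (Nat.add (Nat.add (Nat.add (Nat.shiftLeft (nat_lit 1) (Nat.land (Nat.shiftRight (V (nat_lit 21)) (S (nat_lit 37))) (nat_lit 65535))) (Nat.shiftLeft (nat_lit 1) (Nat.land (Nat.shiftRight (V (nat_lit 21)) (S (nat_lit 45))) (nat_lit 65535)))) (Nat.add (Nat.shiftLeft (nat_lit 1) (Nat.land (Nat.shiftRight (V (nat_lit 22)) (S (nat_lit 26))) (nat_lit 65535))) (Nat.shiftLeft (nat_lit 1) (Nat.land (Nat.shiftRight (V (nat_lit 22)) (S (nat_lit 58))) (nat_lit 65535))))) (Nat.add (Nat.add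 (Nat.shiftLeft (nat_lit 1) (Nat.land (Nat.shiftRight (V (nat_lit 23)) (S (nat_lit 14))) (nat_lit 65535))) (Nat.shiftLeft (nat_lit 1) (Nat.land (Nat.shiftRight (V (nat_lit 23)) (S (nat_lit 18))) (nat_lit 65535)))) (Nat.add (Nat.shiftLeft (nat_lit 1) (Nat.land (Nat.shiftRight (V (nat_lit 23)) (S (nat_lit 41))) (nat_lit 65535))) (Nat.shiftLeft (nat_lit 1) (Nat.land (Nat.shiftRight (V (nat_lit 23)) (S (nat_lit 58))) (nat_lit 65535)))))))) (Nat.add (Nat.add (Nat.add (Nat.add (Nat.add (Nat.shiftLeft (nat_lit 1) (Nat.land (Nat.shiftRight (V (nat_lit 25)) (S (nat_lit 19))) (nat_lit 65535))) (Nat.shiftLeft (nat_lit 1) (Nat.land (Nat.shiftRight (V (nat_lit 25)) (S (nat_lit 32))) (nat_lit 65535)))) (Nat.add (Nat.shiftLeft (nat_lit 1) (Nat.land (Nat.shiftRight (V (nat_lit 25)) (S (nat_lit 50))) (nat_lit 65535))) (Nat.shiftLeft (nat_lit 1) (Nat.land (Nat.shiftRight (V (nat_lit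 25)) (S (nat_lit 51))) (nat_lit 65535))))) (Nat.add (Nat.add (Nat.shiftLeft (nat_lit 1) (Nat.land (Nat.shiftRight (V (nat_lit 26)) (S (nat_lit 22))) (nat_lit 65535))) (Nat.shiftLeft (nat_lit 1) (Nat.land (Nat.shiftRight (V (nat_lit 26)) (S (nat_lit 35))) (nat_lit 65535)))) (Nat.add (Nat.shiftLeft (nat_lit 1) (Nat.land (Nat.shiftRight (V (nat_lit 26)) (S (nat_lit 38))) (nat_lit 65535))) (Nat.shiftLeft (nat_lit 1) (Nat.land (Nat.shiftRight (V (nat_lit 26)) (S (nat_lit 39))) (nat_lit 65535)))))) (Nat.add (Nat.add (Nat.add (Nat.shiftLeft (nat_lit 1) (Nat.land (Nat.shiftRight (V (nat_lit 28)) (S (nat_lit 18))) (nat_lit 65535))) (Nat.shiftLeft (nat_lit 1) (Nat.land (Nat.shiftRight (V (nat_lit 28)) (S (nat_lit 44))) (nat_lit 65535)))) (Nat.add (Nat.shiftLeft (nat_lit 1) (Nat.land (Nat.shiftRight (V (nat_lit 29)) (S (nat_lit 21))) (nat_lit 65535))) (Nat.shiftLeft (nat_lit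 1) (Nat.land (Nat.shiftRight (V (nat_lit 29)) (S (nat_lit 56))) (nat_lit 65535))))) (Nat.add (Nat.add (Nat.shiftLeft (nat_lit 1) (Nat.land (Nat.shiftRight (V (nat_lit 30)) (S (nat_lit 16))) (nat_lit 65535))) (Nat.shiftLeft (nat_lit 1) (Nat.land (Nat.shiftRight (V (nat_lit 30)) (S (nat_lit 35))) (nat_lit 65535)))) (Nat.add (Nat.shiftLeft (nat_lit 1) (Nat.land (Nat.shiftRight (V (nat_lit 30)) (S (nat_lit 48))) (nat_lit 65535))) (Nat.shiftLeft (nat_lit 1) (Nat.land (Nat.shiftRight (V (nat_lit 30)) (S (nat_lit 57))) (nat_lit 65535))))))) (Nat.add (Nat.add (Nat.add (Nat.add (Nat.shiftLeft (nat_lit 1) (Nat.land (Nat.shiftRight (V (nat_lit 31)) (S (nat_lit 13))) (nat_lit 65535))) (Nat.shiftLeft (nat_lit 1) (Nat.land (Nat.shiftRight (V (nat_lit 31)) (S (nat_lit 47))) (nat_lit 65535)))) (Nat.add (Nat.shiftLeft (nat_lit 1) (Nat.land (Nat.shiftRight (V (nat_lit 32)) (S (nat_lit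 25))) (nat_lit 65535))) (Nat.shiftLeft (nat_lit 1) (Nat.land (Nat.shiftRight (V (nat_lit 32)) (S (nat_lit 33))) (nat_lit 65535))))) (Nat.add (Nat.add (Nat.shiftLeft (nat_lit 1) (Nat.land (Nat.shiftRight (V (nat_lit 32)) (S (nat_lit 47))) (nat_lit 65535))) (Nat.shiftLeft (nat_lit 1) (Nat.land (Nat.shiftRight (V (nat_lit 32)) (S (nat_lit 56))) (nat_lit 65535)))) (Nat.add (Nat.shiftLeft (nat_lit 1) (Nat.land (Nat.shiftRight (V (nat_lit 33)) (S (nat_lit 17))) (nat_lit 65535))) (Nat.shiftLeft (nat_lit 1) (Nat.land (Nat.shiftRight (V (nat_lit 33)) (S (nat_lit 32))) (nat_lit 65535)))))) (Nat.add (Nat.add (Nat.add (Nat.shiftLeft (nat_lit 1) (Nat.land (Nat.shiftRight (V (nat_lit 33)) (S (nat_lit 36))) (nat_lit 65535))) (Nat.shiftLeft (nat_lit 1) (Nat.land (Nat.shiftRight (V (nat_lit 33)) (S (nat_lit 45))) (nat_lit 65535)))) (Nat.add (Nat.shiftLeft (nat_lit 1) (Nat.land (Nat.shiftRight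 (V (nat_lit 34)) (S (nat_lit 14))) (nat_lit 65535))) (Nat.shiftLeft (nat_lit 1) (Nat.land (Nat.shiftRight (V (nat_lit 34)) (S (nat_lit 59))) (nat_lit 65535))))) (Nat.add (Nat.add (Nat.shiftLeft (nat_lit 1) (Nat.land (Nat.shiftRight (V (nat_lit 35)) (S (nat_lit 26))) (nat_lit 65535))) (Nat.shiftLeft (nat_lit 1) (Nat.land (Nat.shiftRight (V (nat_lit 35)) (S (nat_lit 30))) (nat_lit 65535)))) (Nat.add (Nat.shiftLeft (nat_lit 1) (Nat.land (Nat.shiftRight (V (nat_lit 35)) (S (nat_lit 44))) (nat_lit 65535))) (Nat.shiftLeft (nat_lit 1) (Nat.land (Nat.shiftRight (V (nat_lit 35)) (S (nat_lit 59))) (nat_lit 65535))))))))) (Nat.add (Nat.add (Nat.add (Nat.add (Nat.add (Nat.add (Nat.shiftLeft (nat_lit 1) (Nat.land (Nat.shiftRight (V (nat_lit 36)) (S (nat_lit 33))) (nat_lit 65535))) (Nat.shiftLeft (nat_lit 1) (Nat.land (Nat.shiftRight (V (nat_lit 36)) (S (nat_lit 53))) (nat_lit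 65535)))) (Nat.add (Nat.shiftLeft (nat_lit 1) (Nat.land (Nat.shiftRight (V (nat_lit 37)) (S (nat_lit 21))) (nat_lit 65535))) (Nat.shiftLeft (nat_lit 1) (Nat.land (Nat.shiftRight (V (nat_lit 37)) (S (nat_lit 56))) (nat_lit 65535))))) (Nat.add (Nat.add (Nat.shiftLeft (nat_lit 1) (Nat.land (Nat.shiftRight (V (nat_lit 38)) (S (nat_lit 14))) (nat_lit 65535))) (Nat.shiftLeft (nat_lit 1) (Nat.land (Nat.shiftRight (V (nat_lit 38)) (S (nat_lit 26))) (nat_lit 65535)))) (Nat.add (Nat.shiftLeft (nat_lit 1) (Nat.land (Nat.shiftRight (V (nat_lit 38)) (S (nat_lit 41))) (nat_lit 65535))) (Nat.shiftLeft (nat_lit 1) (Nat.land (Nat.shiftRight (V (nat_lit 38)) (S (nat_lit 44))) (nat_lit 65535)))))) (Nat.add (Nat.add (Nat.add (Nat.shiftLeft (nat_lit 1) (Nat.land (Nat.shiftRight (V (nat_lit 39)) (S (nat_lit 26))) (nat_lit 65535))) (Nat.shiftLeft (nat_lit 1) (Nat.land (Nat.shiftRight (V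 (nat_lit 39)) (S (nat_lit 58))) (nat_lit 65535)))) (Nat.add (Nat.shiftLeft (nat_lit 1) (Nat.land (Nat.shiftRight (V (nat_lit 41)) (S (nat_lit 16))) (nat_lit 65535))) (Nat.shiftLeft (nat_lit 1) (Nat.land (Nat.shiftRight (V (nat_lit 41)) (S (nat_lit 23))) (nat_lit 65535))))) (Nat.add (Nat.add (Nat.shiftLeft (nat_lit 1) (Nat.land (Nat.shiftRight (V (nat_lit 41)) (S (nat_lit 38))) (nat_lit 65535))) (Nat.shiftLeft (nat_lit 1) (Nat.land (Nat.shiftRight (V (nat_lit 41)) (S (nat_lit 48))) (nat_lit 65535)))) (Nat.add (Nat.shiftLeft (nat_lit 1) (Nat.land (Nat.shiftRight (V (nat_lit 42)) (S (nat_lit 14))) (nat_lit 65535))) (Nat.shiftLeft (nat_lit 1) (Nat.land (Nat.shiftRight (V (nat_lit 42)) (S (nat_lit 59))) (nat_lit 65535))))))) (Nat.add (Nat.add (Nat.add (Nat.add (Nat.shiftLeft (nat_lit 1) (Nat.land (Nat.shiftRight (V (nat_lit 44)) (S (nat_lit 28))) (nat_lit 65535))) (Nat.shiftLeft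 (nat_lit 1) (Nat.land (Nat.shiftRight (V (nat_lit 44)) (S (nat_lit 35))) (nat_lit 65535)))) (Nat.add (Nat.shiftLeft (nat_lit 1) (Nat.land (Nat.shiftRight (V (nat_lit 44)) (S (nat_lit 38))) (nat_lit 65535))) (Nat.shiftLeft (nat_lit 1) (Nat.land (Nat.shiftRight (V (nat_lit 44)) (S (nat_lit 49))) (nat_lit 65535))))) (Nat.add (Nat.add (Nat.shiftLeft (nat_lit 1) (Nat.land (Nat.shiftRight (V (nat_lit 45)) (S (nat_lit 21))) (nat_lit 65535))) (Nat.shiftLeft (nat_lit 1) (Nat.land (Nat.shiftRight (V (nat_lit 45)) (S (nat_lit 33))) (nat_lit 65535)))) (Nat.add (Nat.shiftLeft (nat_lit 1) (Nat.land (Nat.shiftRight (V (nat_lit 45)) (S (nat_lit 46))) (nat_lit 65535))) (Nat.shiftLeft (nat_lit 1) (Nat.land (Nat.shiftRight (V (nat_lit 45)) (S (nat_lit 47))) (nat_lit 65535)))))) (Nat.add (Nat.add (Nat.add (Nat.shiftLeft (nat_lit 1) (Nat.land (Nat.shiftRight (V (nat_lit 46)) (S (nat_lit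 19))) (nat_lit 65535))) (Nat.shiftLeft (nat_lit 1) (Nat.land (Nat.shiftRight (V (nat_lit 46)) (S (nat_lit 20))) (nat_lit 65535)))) (Nat.add (Nat.shiftLeft (nat_lit 1) (Nat.land (Nat.shiftRight (V (nat_lit 46)) (S (nat_lit 45))) (nat_lit 65535))) (Nat.shiftLeft (nat_lit 1) (Nat.land (Nat.shiftRight (V (nat_lit 46)) (S (nat_lit 51))) (nat_lit 65535))))) (Nat.add (Nat.add (Nat.shiftLeft (nat_lit 1) (Nat.land (Nat.shiftRight (V (nat_lit 47)) (S (nat_lit 31))) (nat_lit 65535))) (Nat.shiftLeft (nat_lit 1) (Nat.land (Nat.shiftRight (V (nat_lit 47)) (S (nat_lit 32))) (nat_lit 65535)))) (Nat.add (Nat.shiftLeft (nat_lit 1) (Nat.land (Nat.shiftRight (V (nat_lit 47)) (S (nat_lit 45))) (nat_lit 65535))) (Nat.shiftLeft (nat_lit 1) (Nat.land (Nat.shiftRight (V (nat_lit 47)) (S (nat_lit 54))) (nat_lit 65535)))))))) (Nat.add (Nat.add (Nat.add (Nat.add (Nat.add (Nat.shiftLeft (nat_lit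 1) (Nat.land (Nat.shiftRight (V (nat_lit 48)) (S (nat_lit 30))) (nat_lit 65535))) (Nat.shiftLeft (nat_lit 1) (Nat.land (Nat.shiftRight (V (nat_lit 48)) (S (nat_lit 41))) (nat_lit 65535)))) (Nat.add (Nat.shiftLeft (nat_lit 1) (Nat.land (Nat.shiftRight (V (nat_lit 49)) (S (nat_lit 18))) (nat_lit 65535))) (Nat.shiftLeft (nat_lit 1) (Nat.land (Nat.shiftRight (V (nat_lit 49)) (S (nat_lit 44))) (nat_lit 65535))))) (Nat.add (Nat.add (Nat.shiftLeft (nat_lit 1) (Nat.land (Nat.shiftRight (V (nat_lit 50)) (S (nat_lit 13))) (nat_lit 65535))) (Nat.shiftLeft (nat_lit 1) (Nat.land (Nat.shiftRight (V (nat_lit 50)) (S (nat_lit 25))) (nat_lit 65535)))) (Nat.add (Nat.shiftLeft (nat_lit 1) (Nat.land (Nat.shiftRight (V (nat_lit 50)) (S (nat_lit 53))) (nat_lit 65535))) (Nat.shiftLeft (nat_lit 1) (Nat.land (Nat.shiftRight (V (nat_lit 50)) (S (nat_lit 56))) (nat_lit 65535)))))) (Nat.add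 (Nat.add (Nat.add (Nat.shiftLeft (nat_lit 1) (Nat.land (Nat.shiftRight (V (nat_lit 51)) (S (nat_lit 25))) (nat_lit 65535))) (Nat.shiftLeft (nat_lit 1) (Nat.land (Nat.shiftRight (V (nat_lit 51)) (S (nat_lit 46))) (nat_lit 65535)))) (Nat.add (Nat.shiftLeft (nat_lit 1) (Nat.land (Nat.shiftRight (V (nat_lit 53)) (S (nat_lit 17))) (nat_lit 65535))) (Nat.shiftLeft (nat_lit 1) (Nat.land (Nat.shiftRight (V (nat_lit 53)) (S (nat_lit 20))) (nat_lit 65535))))) (Nat.add (Nat.add (Nat.shiftLeft (nat_lit 1) (Nat.land (Nat.shiftRight (V (nat_lit 53)) (S (nat_lit 36))) (nat_lit 65535))) (Nat.shiftLeft (nat_lit 1) (Nat.land (Nat.shiftRight (V (nat_lit 53)) (S (nat_lit 50))) (nat_lit 65535)))) (Nat.add (Nat.shiftLeft (nat_lit 1) (Nat.land (Nat.shiftRight (V (nat_lit 54)) (S (nat_lit 13))) (nat_lit 65535))) (Nat.shiftLeft (nat_lit 1) (Nat.land (Nat.shiftRight (V (nat_lit 54)) (S (nat_lit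 47))) (nat_lit 65535))))))) (Nat.add (Nat.add (Nat.add (Nat.add (Nat.shiftLeft (nat_lit 1) (Nat.land (Nat.shiftRight (V (nat_lit 56)) (S (nat_lit 29))) (nat_lit 65535))) (Nat.shiftLeft (nat_lit 1) (Nat.land (Nat.shiftRight (V (nat_lit 56)) (S (nat_lit 32))) (nat_lit 65535)))) (Nat.add (Nat.shiftLeft (nat_lit 1) (Nat.land (Nat.shiftRight (V (nat_lit 56)) (S (nat_lit 37))) (nat_lit 65535))) (Nat.shiftLeft (nat_lit 1) (Nat.land (Nat.shiftRight (V (nat_lit 56)) (S (nat_lit 50))) (nat_lit 65535))))) (Nat.add (Nat.add (Nat.shiftLeft (nat_lit 1) (Nat.land (Nat.shiftRight (V (nat_lit 57)) (S (nat_lit 18))) (nat_lit 65535))) (Nat.shiftLeft (nat_lit 1) (Nat.land (Nat.shiftRight (V (nat_lit 57)) (S (nat_lit 30))) (nat_lit 65535)))) (Nat.add (Nat.shiftLeft (nat_lit 1) (Nat.land (Nat.shiftRight (V (nat_lit 57)) (S (nat_lit 58))) (nat_lit 65535))) (Nat.shiftLeft (nat_lit 1) (Nat.land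 (Nat.shiftRight (V (nat_lit 57)) (S (nat_lit 59))) (nat_lit 65535)))))) (Nat.add (Nat.add (Nat.add (Nat.shiftLeft (nat_lit 1) (Nat.land (Nat.shiftRight (V (nat_lit 58)) (S (nat_lit 22))) (nat_lit 65535))) (Nat.shiftLeft (nat_lit 1) (Nat.land (Nat.shiftRight (V (nat_lit 58)) (S (nat_lit 23))) (nat_lit 65535)))) (Nat.add (Nat.shiftLeft (nat_lit 1) (Nat.land (Nat.shiftRight (V (nat_lit 58)) (S (nat_lit 39))) (nat_lit 65535))) (Nat.shiftLeft (nat_lit 1) (Nat.land (Nat.shiftRight (V (nat_lit 58)) (S (nat_lit 57))) (nat_lit 65535))))) (Nat.add (Nat.add (Nat.shiftLeft (nat_lit 1) (Nat.land (Nat.shiftRight (V (nat_lit 59)) (S (nat_lit 34))) (nat_lit 65535))) (Nat.shiftLeft (nat_lit 1) (Nat.land (Nat.shiftRight (V (nat_lit 59)) (S (nat_lit 35))) (nat_lit 65535)))) (Nat.add (Nat.shiftLeft (nat_lit 1) (Nat.land (Nat.shiftRight (V (nat_lit 59)) (S (nat_lit 42))) (nat_lit 65535)))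 (Nat.shiftLeft (nat_lit 1) (Nat.land (Nat.shiftRight (V (nat_lit 59)) (S (nat_lit 57))) (nat_lit 65535)))))))))
def E108_1 (V S : ℕ → ℕ) : ℕ := Nat.add (Nat.add (Nat.add (Nat.add (Nat.add (Nat.shiftLeft (nat_lit 1) (Nat.land (Nat.shiftRight (V (nat_lit 16)) (S (nat_lit 32))) (nat_lit 65535))) (Nat.shiftLeft (nat_lit 1) (Nat.land (Nat.shiftRight (V (nat_lit 17)) (S (nat_lit 35))) (nat_lit 65535)))) (Nat.add (Nat.shiftLeft (nat_lit 1) (Nat.land (Nat.shiftRight (V (nat_lit 19)) (S (nat_lit 35))) (nat_lit 65535))) (Nat.shiftLeft (nat_lit 1) (Nat.land (Nat.shiftRight (V (nat_lit 20)) (S (nat_lit 28))) (nat_lit 65535))))) (Nat.add (Nat.add (Nat.shiftLeft (nat_lit 1) (Nat.land (Nat.shiftRight (V (nat_lit 20)) (S (nat_lit 34))) (nat_lit 65535))) (Nat.shiftLeft (nat_lit 1) (Nat.land (Nat.shiftRight (V (nat_lit 22)) (S (nat_lit 32))) (nat_lit 65535)))) (Nat.add (Nat.shiftLeft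 (nat_lit 1) (Nat.land (Nat.shiftRight (V (nat_lit 23)) (S (nat_lit 29))) (nat_lit 65535))) (Nat.shiftLeft (nat_lit 1) (Nat.land (Nat.shiftRight (V (nat_lit 23)) (S (nat_lit 31))) (nat_lit 65535)))))) (Nat.add (Nat.add (Nat.add (Nat.shiftLeft (nat_lit 1) (Nat.land (Nat.shiftRight (V (nat_lit 28)) (S (nat_lit 20))) (nat_lit 65535))) (Nat.shiftLeft (nat_lit 1) (Nat.land (Nat.shiftRight (V (nat_lit 29)) (S (nat_lit 23))) (nat_lit 65535)))) (Nat.add (Nat.shiftLeft (nat_lit 1) (Nat.land (Nat.shiftRight (V (nat_lit 31)) (S (nat_lit 23))) (nat_lit 65535))) (Nat.shiftLeft (nat_lit 1) (Nat.land (Nat.shiftRight (V (nat_lit 32)) (S (nat_lit 16))) (nat_lit 65535))))) (Nat.add (Nat.add (Nat.shiftLeft (nat_lit 1) (Nat.land (Nat.shiftRight (V (nat_lit 32)) (S (nat_lit 22))) (nat_lit 65535))) (Nat.shiftLeft (nat_lit 1) (Nat.land (Nat.shiftRight (V (nat_lit 34)) (S (nat_lit 20))) (nat_lit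 65535)))) (Nat.add (Nat.shiftLeft (nat_lit 1) (Nat.land (Nat.shiftRight (V (nat_lit 35)) (S (nat_lit 17))) (nat_lit 65535))) (Nat.shiftLeft (nat_lit 1) (Nat.land (Nat.shiftRight (V (nat_lit 35)) (S (nat_lit 19))) (nat_lit 65535))))))) (Nat.add (Nat.add (Nat.add (Nat.add (Nat.shiftLeft (nat_lit 1) (Nat.land (Nat.shiftRight (V (nat_lit 36)) (S (nat_lit 57))) (nat_lit 65535))) (Nat.shiftLeft (nat_lit 1) (Nat.land (Nat.shiftRight (V (nat_lit 37)) (S (nat_lit 57))) (nat_lit 65535)))) (Nat.add (Nat.shiftLeft (nat_lit 1) (Nat.land (Nat.shiftRight (V (nat_lit 38)) (S (nat_lit 51))) (nat_lit 65535))) (Nat.shiftLeft (nat_lit 1) (Nat.land (Nat.shiftRight (V (nat_lit 38)) (S (nat_lit 54))) (nat_lit 65535))))) (Nat.add (Nat.add (Nat.shiftLeft (nat_lit 1) (Nat.land (Nat.shiftRight (V (nat_lit 39)) (S (nat_lit 50))) (nat_lit 65535))) (Nat.shiftLeft (nat_lit 1) (Nat.land (Nat.shiftRight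 (V (nat_lit 42)) (S (nat_lit 50))) (nat_lit 65535)))) (Nat.add (Nat.shiftLeft (nat_lit 1) (Nat.land (Nat.shiftRight (V (nat_lit 45)) (S (nat_lit 48))) (nat_lit 65535))) (Nat.shiftLeft (nat_lit 1) (Nat.land (Nat.shiftRight (V (nat_lit 45)) (S (nat_lit 49))) (nat_lit 65535)))))) (Nat.add (Nat.add (Nat.add (Nat.shiftLeft (nat_lit 1) (Nat.land (Nat.shiftRight (V (nat_lit 48)) (S (nat_lit 45))) (nat_lit 65535))) (Nat.shiftLeft (nat_lit 1) (Nat.land (Nat.shiftRight (V (nat_lit 49)) (S (nat_lit 45))) (nat_lit 65535)))) (Nat.add (Nat.shiftLeft (nat_lit 1) (Nat.land (Nat.shiftRight (V (nat_lit 50)) (S (nat_lit 39))) (nat_lit 65535))) (Nat.shiftLeft (nat_lit 1) (Nat.land (Nat.shiftRight (V (nat_lit 50)) (S (nat_lit 42))) (nat_lit 65535))))) (Nat.add (Nat.add (Nat.shiftLeft (nat_lit 1) (Nat.land (Nat.shiftRight (V (nat_lit 51)) (S (nat_lit 38))) (nat_lit 65535))) (Nat.shiftLeft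 (nat_lit 1) (Nat.land (Nat.shiftRight (V (nat_lit 54)) (S (nat_lit 38))) (nat_lit 65535)))) (Nat.add (Nat.shiftLeft (nat_lit 1) (Nat.land (Nat.shiftRight (V (nat_lit 57)) (S (nat_lit 36))) (nat_lit 65535))) (Nat.shiftLeft (nat_lit 1) (Nat.land (Nat.shiftRight (V (nat_lit 57)) (S (nat_lit 37))) (nat_lit 65535)))))))
def E109_1 (V S : ℕ → ℕ) : ℕ := Nat.add (Nat.add (Nat.add (Nat.add (Nat.add (Nat.add (Nat.shiftLeft (nat_lit 1) (Nat.land (Nat.shiftRight (V (nat_lit 13)) (S (nat_lit 29))) (nat_lit 65535))) (Nat.shiftLeft (nat_lit 1) (Nat.land (Nat.shiftRight (V (nat_lit 13)) (S (nat_lit 51))) (nat_lit 65535)))) (Nat.add (Nat.shiftLeft (nat_lit 1) (Nat.land (Nat.shiftRight (V (nat_lit 14)) (S (nat_lit 28))) (nat_lit 65535))) (Nat.shiftLeft (nat_lit 1) (Nat.land (Nat.shiftRight (V (nat_lit 14)) (S (nat_lit 39))) (nat_lit 65535))))) (Nat.add (Nat.add (Nat.shiftLeft (nat_lit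 1) (Nat.land (Nat.shiftRight (V (nat_lit 16)) (S (nat_lit 26))) (nat_lit 65535))) (Nat.shiftLeft (nat_lit 1) (Nat.land (Nat.shiftRight (V (nat_lit 16)) (S (nat_lit 58))) (nat_lit 65535)))) (Nat.add (Nat.shiftLeft (nat_lit 1) (Nat.land (Nat.shiftRight (V (nat_lit 17)) (S (nat_lit 25))) (nat_lit 65535))) (Nat.shiftLeft (nat_lit 1) (Nat.land (Nat.shiftRight (V (nat_lit 17)) (S (nat_lit 46))) (nat_lit 65535)))))) (Nat.add (Nat.add (Nat.add (Nat.shiftLeft (nat_lit 1) (Nat.land (Nat.shiftRight (V (nat_lit 18)) (S (nat_lit 34))) (nat_lit 65535))) (Nat.shiftLeft (nat_lit 1) (Nat.land (Nat.shiftRight (V (nat_lit 18)) (S (nat_lit 48))) (nat_lit 65535)))) (Nat.add (Nat.shiftLeft (nat_lit 1) (Nat.land (Nat.shiftRight (V (nat_lit 19)) (S (nat_lit 33))) (nat_lit 65535))) (Nat.shiftLeft (nat_lit 1) (Nat.land (Nat.shiftRight (V (nat_lit 19)) (S (nat_lit 53))) (nat_lit 65535)))))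 (Nat.add (Nat.add (Nat.shiftLeft (nat_lit 1) (Nat.land (Nat.shiftRight (V (nat_lit 21)) (S (nat_lit 31))) (nat_lit 65535))) (Nat.shiftLeft (nat_lit 1) (Nat.land (Nat.shiftRight (V (nat_lit 21)) (S (nat_lit 36))) (nat_lit 65535)))) (Nat.add (Nat.shiftLeft (nat_lit 1) (Nat.land (Nat.shiftRight (V (nat_lit 22)) (S (nat_lit 30))) (nat_lit 65535))) (Nat.shiftLeft (nat_lit 1) (Nat.land (Nat.shiftRight (V (nat_lit 22)) (S (nat_lit 41))) (nat_lit 65535))))))) (Nat.add (Nat.add (Nat.add (Nat.add (Nat.shiftLeft (nat_lit 1) (Nat.land (Nat.shiftRight (V (nat_lit 25)) (S (nat_lit 17))) (nat_lit 65535))) (Nat.shiftLeft (nat_lit 1) (Nat.land (Nat.shiftRight (V (nat_lit 25)) (S (nat_lit 54))) (nat_lit 65535)))) (Nat.add (Nat.shiftLeft (nat_lit 1) (Nat.land (Nat.shiftRight (V (nat_lit 26)) (S (nat_lit 16))) (nat_lit 65535))) (Nat.shiftLeft (nat_lit 1) (Nat.land (Nat.shiftRight (V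 (nat_lit 26)) (S (nat_lit 42))) (nat_lit 65535))))) (Nat.add (Nat.add (Nat.shiftLeft (nat_lit 1) (Nat.land (Nat.shiftRight (V (nat_lit 28)) (S (nat_lit 14))) (nat_lit 65535))) (Nat.shiftLeft (nat_lit 1) (Nat.land (Nat.shiftRight (V (nat_lit 28)) (S (nat_lit 59))) (nat_lit 65535)))) (Nat.add (Nat.shiftLeft (nat_lit 1) (Nat.land (Nat.shiftRight (V (nat_lit 29)) (S (nat_lit 13))) (nat_lit 65535))) (Nat.shiftLeft (nat_lit 1) (Nat.land (Nat.shiftRight (V (nat_lit 29)) (S (nat_lit 47))) (nat_lit 65535)))))) (Nat.add (Nat.add (Nat.add (Nat.shiftLeft (nat_lit 1) (Nat.land (Nat.shiftRight (V (nat_lit 30)) (S (nat_lit 22))) (nat_lit 65535))) (Nat.shiftLeft (nat_lit 1) (Nat.land (Nat.shiftRight (V (nat_lit 30)) (S (nat_lit 49))) (nat_lit 65535)))) (Nat.add (Nat.shiftLeft (nat_lit 1) (Nat.land (Nat.shiftRight (V (nat_lit 31)) (S (nat_lit 21))) (nat_lit 65535))) (Nat.shiftLeft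 (nat_lit 1) (Nat.land (Nat.shiftRight (V (nat_lit 31)) (S (nat_lit 56))) (nat_lit 65535))))) (Nat.add (Nat.add (Nat.shiftLeft (nat_lit 1) (Nat.land (Nat.shiftRight (V (nat_lit 33)) (S (nat_lit 19))) (nat_lit 65535))) (Nat.shiftLeft (nat_lit 1) (Nat.land (Nat.shiftRight (V (nat_lit 33)) (S (nat_lit 37))) (nat_lit 65535)))) (Nat.add (Nat.shiftLeft (nat_lit 1) (Nat.land (Nat.shiftRight (V (nat_lit 34)) (S (nat_lit 18))) (nat_lit 65535))) (Nat.shiftLeft (nat_lit 1) (Nat.land (Nat.shiftRight (V (nat_lit 34)) (S (nat_lit 44))) (nat_lit 65535)))))))) (Nat.add (Nat.add (Nat.add (Nat.add (Nat.add (Nat.shiftLeft (nat_lit 1) (Nat.land (Nat.shiftRight (V (nat_lit 36)) (S (nat_lit 21))) (nat_lit 65535))) (Nat.shiftLeft (nat_lit 1) (Nat.land (Nat.shiftRight (V (nat_lit 36)) (S (nat_lit 56))) (nat_lit 65535)))) (Nat.add (Nat.shiftLeft (nat_lit 1) (Nat.land (Nat.shiftRight (V (nat_lit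 37)) (S (nat_lit 33))) (nat_lit 65535))) (Nat.shiftLeft (nat_lit 1) (Nat.land (Nat.shiftRight (V (nat_lit 37)) (S (nat_lit 53))) (nat_lit 65535))))) (Nat.add (Nat.add (Nat.shiftLeft (nat_lit 1) (Nat.land (Nat.shiftRight (V (nat_lit 39)) (S (nat_lit 14))) (nat_lit 65535))) (Nat.shiftLeft (nat_lit 1) (Nat.land (Nat.shiftRight (V (nat_lit 39)) (S (nat_lit 59))) (nat_lit 65535)))) (Nat.add (Nat.shiftLeft (nat_lit 1) (Nat.land (Nat.shiftRight (V (nat_lit 41)) (S (nat_lit 22))) (nat_lit 65535))) (Nat.shiftLeft (nat_lit 1) (Nat.land (Nat.shiftRight (V (nat_lit 41)) (S (nat_lit 49))) (nat_lit 65535)))))) (Nat.add (Nat.add (Nat.add (Nat.shiftLeft (nat_lit 1) (Nat.land (Nat.shiftRight (V (nat_lit 42)) (S (nat_lit 26))) (nat_lit 65535))) (Nat.shiftLeft (nat_lit 1) (Nat.land (Nat.shiftRight (V (nat_lit 42)) (S (nat_lit 58))) (nat_lit 65535)))) (Nat.add (Nat.shiftLeft (nat_lit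 1) (Nat.land (Nat.shiftRight (V (nat_lit 44)) (S (nat_lit 34))) (nat_lit 65535))) (Nat.shiftLeft (nat_lit 1) (Nat.land (Nat.shiftRight (V (nat_lit 44)) (S (nat_lit 48))) (nat_lit 65535))))) (Nat.add (Nat.add (Nat.shiftLeft (nat_lit 1) (Nat.land (Nat.shiftRight (V (nat_lit 46)) (S (nat_lit 17))) (nat_lit 65535))) (Nat.shiftLeft (nat_lit 1) (Nat.land (Nat.shiftRight (V (nat_lit 46)) (S (nat_lit 54))) (nat_lit 65535)))) (Nat.add (Nat.shiftLeft (nat_lit 1) (Nat.land (Nat.shiftRight (V (nat_lit 47)) (S (nat_lit 29))) (nat_lit 65535))) (Nat.shiftLeft (nat_lit 1) (Nat.land (Nat.shiftRight (V (nat_lit 47)) (S (nat_lit 51))) (nat_lit 65535))))))) (Nat.add (Nat.add (Nat.add (Nat.add (Nat.shiftLeft (nat_lit 1) (Nat.land (Nat.shiftRight (V (nat_lit 48)) (S (nat_lit 18))) (nat_lit 65535))) (Nat.shiftLeft (nat_lit 1) (Nat.land (Nat.shiftRight (V (nat_lit 48)) (S (nat_lit 44)))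 (nat_lit 65535)))) (Nat.add (Nat.shiftLeft (nat_lit 1) (Nat.land (Nat.shiftRight (V (nat_lit 49)) (S (nat_lit 30))) (nat_lit 65535))) (Nat.shiftLeft (nat_lit 1) (Nat.land (Nat.shiftRight (V (nat_lit 49)) (S (nat_lit 41))) (nat_lit 65535))))) (Nat.add (Nat.add (Nat.shiftLeft (nat_lit 1) (Nat.land (Nat.shiftRight (V (nat_lit 51)) (S (nat_lit 13))) (nat_lit 65535))) (Nat.shiftLeft (nat_lit 1) (Nat.land (Nat.shiftRight (V (nat_lit 51)) (S (nat_lit 47))) (nat_lit 65535)))) (Nat.add (Nat.shiftLeft (nat_lit 1) (Nat.land (Nat.shiftRight (V (nat_lit 53)) (S (nat_lit 19))) (nat_lit 65535))) (Nat.shiftLeft (nat_lit 1) (Nat.land (Nat.shiftRight (V (nat_lit 53)) (S (nat_lit 37))) (nat_lit 65535)))))) (Nat.add (Nat.add (Nat.add (Nat.shiftLeft (nat_lit 1) (Nat.land (Nat.shiftRight (V (nat_lit 54)) (S (nat_lit 25))) (nat_lit 65535))) (Nat.shiftLeft (nat_lit 1) (Nat.land (Nat.shiftRight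 (V (nat_lit 54)) (S (nat_lit 46))) (nat_lit 65535)))) (Nat.add (Nat.shiftLeft (nat_lit 1) (Nat.land (Nat.shiftRight (V (nat_lit 56)) (S (nat_lit 31))) (nat_lit 65535))) (Nat.shiftLeft (nat_lit 1) (Nat.land (Nat.shiftRight (V (nat_lit 56)) (S (nat_lit 36))) (nat_lit 65535))))) (Nat.add (Nat.add (Nat.shiftLeft (nat_lit 1) (Nat.land (Nat.shiftRight (V (nat_lit 58)) (S (nat_lit 16))) (nat_lit 65535))) (Nat.shiftLeft (nat_lit 1) (Nat.land (Nat.shiftRight (V (nat_lit 58)) (S (nat_lit 42))) (nat_lit 65535)))) (Nat.add (Nat.shiftLeft (nat_lit 1) (Nat.land (Nat.shiftRight (V (nat_lit 59)) (S (nat_lit 28))) (nat_lit 65535))) (Nat.shiftLeft (nat_lit 1) (Nat.land (Nat.shiftRight (V (nat_lit 59)) (S (nat_lit 39))) (nat_lit 65535))))))))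
def E110_1 (V S : ℕ → ℕ) : ℕ := Nat.add (Nat.add (Nat.add (Nat.add (Nat.add (Nat.add (Nat.shiftLeft (nat_lit 1) (Nat.land (Nat.shiftRight (V (nat_lit 13)) (S (nat_lit 32))) (nat_lit 65535))) (Nat.shiftLeft (nat_lit 1) (Nat.land (Nat.shiftRight (V (nat_lit 13)) (S (nat_lit 45))) (nat_lit 65535)))) (Nat.add (Nat.shiftLeft (nat_lit 1) (Nat.land (Nat.shiftRight (V (nat_lit 14)) (S (nat_lit 35))) (nat_lit 65535))) (Nat.shiftLeft (nat_lit 1) (Nat.land (Nat.shiftRight (V (nat_lit 14)) (S (nat_lit 57))) (nat_lit 65535))))) (Nat.add (Nat.add (Nat.shiftLeft (nat_lit 1) (Nat.land (Nat.shiftRight (V (nat_lit 18)) (S (nat_lit 35))) (nat_lit 65535))) (Nat.shiftLeft (nat_lit 1) (Nat.land (Nat.shiftRight (V (nat_lit 18)) (S (nat_lit 38))) (nat_lit 65535)))) (Nat.add (Nat.shiftLeft (nat_lit 1) (Nat.land (Nat.shiftRight (V (nat_lit 20)) (S (nat_lit 25))) (nat_lit 65535))) (Nat.shiftLeft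 (nat_lit 1) (Nat.land (Nat.shiftRight (V (nat_lit 20)) (S (nat_lit 33))) (nat_lit 65535)))))) (Nat.add (Nat.add (Nat.add (Nat.shiftLeft (nat_lit 1) (Nat.land (Nat.shiftRight (V (nat_lit 20)) (S (nat_lit 47))) (nat_lit 65535))) (Nat.shiftLeft (nat_lit 1) (Nat.land (Nat.shiftRight (V (nat_lit 20)) (S (nat_lit 56))) (nat_lit 65535)))) (Nat.add (Nat.shiftLeft (nat_lit 1) (Nat.land (Nat.shiftRight (V (nat_lit 21)) (S (nat_lit 32))) (nat_lit 65535))) (Nat.shiftLeft (nat_lit 1) (Nat.land (Nat.shiftRight (V (nat_lit 21)) (S (nat_lit 50))) (nat_lit 65535))))) (Nat.add (Nat.add (Nat.shiftLeft (nat_lit 1) (Nat.land (Nat.shiftRight (V (nat_lit 23)) (S (nat_lit 26))) (nat_lit 65535))) (Nat.shiftLeft (nat_lit 1) (Nat.land (Nat.shiftRight (V (nat_lit 23)) (S (nat_lit 30))) (nat_lit 65535)))) (Nat.add (Nat.shiftLeft (nat_lit 1) (Nat.land (Nat.shiftRight (V (nat_lit 23)) (S (nat_lit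 44))) (nat_lit 65535))) (Nat.shiftLeft (nat_lit 1) (Nat.land (Nat.shiftRight (V (nat_lit 23)) (S (nat_lit 59))) (nat_lit 65535))))))) (Nat.add (Nat.add (Nat.add (Nat.add (Nat.shiftLeft (nat_lit 1) (Nat.land (Nat.shiftRight (V (nat_lit 25)) (S (nat_lit 20))) (nat_lit 65535))) (Nat.shiftLeft (nat_lit 1) (Nat.land (Nat.shiftRight (V (nat_lit 25)) (S (nat_lit 45))) (nat_lit 65535)))) (Nat.add (Nat.shiftLeft (nat_lit 1) (Nat.land (Nat.shiftRight (V (nat_lit 26)) (S (nat_lit 23))) (nat_lit 65535))) (Nat.shiftLeft (nat_lit 1) (Nat.land (Nat.shiftRight (V (nat_lit 26)) (S (nat_lit 57))) (nat_lit 65535))))) (Nat.add (Nat.add (Nat.shiftLeft (nat_lit 1) (Nat.land (Nat.shiftRight (V (nat_lit 30)) (S (nat_lit 23))) (nat_lit 65535))) (Nat.shiftLeft (nat_lit 1) (Nat.land (Nat.shiftRight (V (nat_lit 30)) (S (nat_lit 38))) (nat_lit 65535)))) (Nat.add (Nat.shiftLeft (nat_lit 1) (Nat.land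 (Nat.shiftRight (V (nat_lit 32)) (S (nat_lit 13))) (nat_lit 65535))) (Nat.shiftLeft (nat_lit 1) (Nat.land (Nat.shiftRight (V (nat_lit 32)) (S (nat_lit 21))) (nat_lit 65535)))))) (Nat.add (Nat.add (Nat.add (Nat.shiftLeft (nat_lit 1) (Nat.land (Nat.shiftRight (V (nat_lit 32)) (S (nat_lit 46))) (nat_lit 65535))) (Nat.shiftLeft (nat_lit 1) (Nat.land (Nat.shiftRight (V (nat_lit 32)) (S (nat_lit 53))) (nat_lit 65535)))) (Nat.add (Nat.shiftLeft (nat_lit 1) (Nat.land (Nat.shiftRight (V (nat_lit 33)) (S (nat_lit 20))) (nat_lit 65535))) (Nat.shiftLeft (nat_lit 1) (Nat.land (Nat.shiftRight (V (nat_lit 33)) (S (nat_lit 50))) (nat_lit 65535))))) (Nat.add (Nat.add (Nat.shiftLeft (nat_lit 1) (Nat.land (Nat.shiftRight (V (nat_lit 35)) (S (nat_lit 14))) (nat_lit 65535))) (Nat.shiftLeft (nat_lit 1) (Nat.land (Nat.shiftRight (V (nat_lit 35)) (S (nat_lit 18))) (nat_lit 65535)))) (Nat.add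 (Nat.shiftLeft (nat_lit 1) (Nat.land (Nat.shiftRight (V (nat_lit 35)) (S (nat_lit 41))) (nat_lit 65535))) (Nat.shiftLeft (nat_lit 1) (Nat.land (Nat.shiftRight (V (nat_lit 35)) (S (nat_lit 58))) (nat_lit 65535)))))))) (Nat.add (Nat.add (Nat.add (Nat.add (Nat.add (Nat.shiftLeft (nat_lit 1) (Nat.land (Nat.shiftRight (V (nat_lit 38)) (S (nat_lit 18))) (nat_lit 65535))) (Nat.shiftLeft (nat_lit 1) (Nat.land (Nat.shiftRight (V (nat_lit 38)) (S (nat_lit 30))) (nat_lit 65535)))) (Nat.add (Nat.shiftLeft (nat_lit 1) (Nat.land (Nat.shiftRight (V (nat_lit 38)) (S (nat_lit 58))) (nat_lit 65535))) (Nat.shiftLeft (nat_lit 1) (Nat.land (Nat.shiftRight (V (nat_lit 38)) (S (nat_lit 59))) (nat_lit 65535))))) (Nat.add (Nat.add (Nat.shiftLeft (nat_lit 1) (Nat.land (Nat.shiftRight (V (nat_lit 41)) (S (nat_lit 35))) (nat_lit 65535))) (Nat.shiftLeft (nat_lit 1) (Nat.land (Nat.shiftRight (V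 (nat_lit 41)) (S (nat_lit 57))) (nat_lit 65535)))) (Nat.add (Nat.shiftLeft (nat_lit 1) (Nat.land (Nat.shiftRight (V (nat_lit 44)) (S (nat_lit 23))) (nat_lit 65535))) (Nat.shiftLeft (nat_lit 1) (Nat.land (Nat.shiftRight (V (nat_lit 44)) (S (nat_lit 57))) (nat_lit 65535)))))) (Nat.add (Nat.add (Nat.add (Nat.shiftLeft (nat_lit 1) (Nat.land (Nat.shiftRight (V (nat_lit 45)) (S (nat_lit 13))) (nat_lit 65535))) (Nat.shiftLeft (nat_lit 1) (Nat.land (Nat.shiftRight (V (nat_lit 45)) (S (nat_lit 25))) (nat_lit 65535)))) (Nat.add (Nat.shiftLeft (nat_lit 1) (Nat.land (Nat.shiftRight (V (nat_lit 45)) (S (nat_lit 53))) (nat_lit 65535))) (Nat.shiftLeft (nat_lit 1) (Nat.land (Nat.shiftRight (V (nat_lit 45)) (S (nat_lit 56))) (nat_lit 65535))))) (Nat.add (Nat.add (Nat.shiftLeft (nat_lit 1) (Nat.land (Nat.shiftRight (V (nat_lit 46)) (S (nat_lit 32))) (nat_lit 65535))) (Nat.shiftLeft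 (nat_lit 1) (Nat.land (Nat.shiftRight (V (nat_lit 46)) (S (nat_lit 50))) (nat_lit 65535)))) (Nat.add (Nat.shiftLeft (nat_lit 1) (Nat.land (Nat.shiftRight (V (nat_lit 47)) (S (nat_lit 20))) (nat_lit 65535))) (Nat.shiftLeft (nat_lit 1) (Nat.land (Nat.shiftRight (V (nat_lit 47)) (S (nat_lit 50))) (nat_lit 65535))))))) (Nat.add (Nat.add (Nat.add (Nat.add (Nat.shiftLeft (nat_lit 1) (Nat.land (Nat.shiftRight (V (nat_lit 50)) (S (nat_lit 21))) (nat_lit 65535))) (Nat.shiftLeft (nat_lit 1) (Nat.land (Nat.shiftRight (V (nat_lit 50)) (S (nat_lit 33))) (nat_lit 65535)))) (Nat.add (Nat.shiftLeft (nat_lit 1) (Nat.land (Nat.shiftRight (V (nat_lit 50)) (S (nat_lit 46))) (nat_lit 65535))) (Nat.shiftLeft (nat_lit 1) (Nat.land (Nat.shiftRight (V (nat_lit 50)) (S (nat_lit 47))) (nat_lit 65535))))) (Nat.add (Nat.add (Nat.shiftLeft (nat_lit 1) (Nat.land (Nat.shiftRight (V (nat_lit 53))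 (S (nat_lit 32))) (nat_lit 65535))) (Nat.shiftLeft (nat_lit 1) (Nat.land (Nat.shiftRight (V (nat_lit 53)) (S (nat_lit 45))) (nat_lit 65535)))) (Nat.add (Nat.shiftLeft (nat_lit 1) (Nat.land (Nat.shiftRight (V (nat_lit 56)) (S (nat_lit 20))) (nat_lit 65535))) (Nat.shiftLeft (nat_lit 1) (Nat.land (Nat.shiftRight (V (nat_lit 56)) (S (nat_lit 45))) (nat_lit 65535)))))) (Nat.add (Nat.add (Nat.add (Nat.shiftLeft (nat_lit 1) (Nat.land (Nat.shiftRight (V (nat_lit 57)) (S (nat_lit 14))) (nat_lit 65535))) (Nat.shiftLeft (nat_lit 1) (Nat.land (Nat.shiftRight (V (nat_lit 57)) (S (nat_lit 26))) (nat_lit 65535)))) (Nat.add (Nat.shiftLeft (nat_lit 1) (Nat.land (Nat.shiftRight (V (nat_lit 57)) (S (nat_lit 41))) (nat_lit 65535))) (Nat.shiftLeft (nat_lit 1) (Nat.land (Nat.shiftRight (V (nat_lit 57)) (S (nat_lit 44))) (nat_lit 65535))))) (Nat.add (Nat.add (Nat.shiftLeft (nat_lit 1) (Nat.land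 (Nat.shiftRight (V (nat_lit 58)) (S (nat_lit 35))) (nat_lit 65535))) (Nat.shiftLeft (nat_lit 1) (Nat.land (Nat.shiftRight (V (nat_lit 58)) (S (nat_lit 38))) (nat_lit 65535)))) (Nat.add (Nat.shiftLeft (nat_lit 1) (Nat.land (Nat.shiftRight (V (nat_lit 59)) (S (nat_lit 23))) (nat_lit 65535))) (Nat.shiftLeft (nat_lit 1) (Nat.land (Nat.shiftRight (V (nat_lit 59)) (S (nat_lit 38))) (nat_lit 65535))))))))
def E1_2 (V S : ℕ → ℕ) : ℕ := Nat.add (Nat.shiftLeft (nat_lit 1) (Nat.land (Nat.shiftRight (V (nat_lit 0)) (S (nat_lit 0))) (nat_lit 65535))) (Nat.shiftLeft (nat_lit 1) (Nat.land (Nat.shiftRight (V (nat_lit 1)) (S (nat_lit 1))) (nat_lit 65535)))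
def E4_2 (V S : ℕ → ℕ) : ℕ := Nat.add (Nat.shiftLeft (nat_lit 1) (Nat.land (Nat.shiftRight (V (nat_lit 0)) (S (nat_lit 1))) (nat_lit 65535))) (Nat.shiftLeft (nat_lit 1) (Nat.land (Nat.shiftRight (V (nat_lit 1)) (S (nat_lit 0))) (nat_lit 65535)))
def E5_2 (V S : ℕ → ℕ) : ℕ := Nat.add (Nat.add (Nat.shiftLeft (nat_lit 1) (Nat.land (Nat.shiftRight (V (nat_lit 0)) (S (nat_lit 2))) (nat_lit 65535))) (Nat.shiftLeft (nat_lit 1) (Nat.land (Nat.shiftRight (V (nat_lit 1)) (S (nat_lit 2))) (nat_lit 65535)))) (Nat.add (Nat.shiftLeft (nat_lit 1) (Nat.land (Nat.shiftRight (V (nat_lit 2)) (S (nat_lit 0))) (nat_lit 65535))) (Nat.add (Nat.shiftLeft (nat_lit 1) (Nat.land (Nat.shiftRight (V (nat_lit 2)) (S (nat_lit 1))) (nat_lit 65535))) (Nat.shiftLeft (nat_lit 1) (Nat.land (Nat.shiftRight (V (nat_lit 2)) (S (nat_lit 2))) (nat_lit 65535)))))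
def E6_2 (V S : ℕ → ℕ) : ℕ := Nat.add (Nat.add (Nat.add (Nat.add (Nat.add (Nat.shiftLeft (nat_lit 1) (Nat.land (Nat.shiftRight (V (nat_lit 0)) (S (nat_lit 3))) (nat_lit 65535))) (Nat.shiftLeft (nat_lit 1) (Nat.land (Nat.shiftRight (V (nat_lit 0)) (S (nat_lit 8))) (nat_lit 65535)))) (Nat.add (Nat.shiftLeft (nat_lit 1) (Nat.land (Nat.shiftRight (V (nat_lit 0)) (S (nat_lit 11))) (nat_lit 65535))) (Nat.shiftLeft (nat_lit 1) (Nat.land (Nat.shiftRight (V (nat_lit 0)) (S (nat_lit 27))) (nat_lit 65535))))) (Nat.add (Nat.add (Nat.shiftLeft (nat_lit 1) (Nat.land (Nat.shiftRight (V (nat_lit 0)) (S (nat_lit 41))) (nat_lit 65535))) (Nat.shiftLeft (nat_lit 1) (Nat.land (Nat.shiftRight (V (nat_lit 0)) (S (nat_lit 53))) (nat_lit 65535)))) (Nat.add (Nat.shiftLeft (nat_lit 1) (Nat.land (Nat.shiftRight (V (nat_lit 1)) (S (nat_lit 5))) (nat_lit 65535))) (Nat.add (Nat.shiftLeft (nat_lit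 1) (Nat.land (Nat.shiftRight (V (nat_lit 1)) (S (nat_lit 6))) (nat_lit 65535))) (Nat.shiftLeft (nat_lit 1) (Nat.land (Nat.shiftRight (V (nat_lit 1)) (S (nat_lit 10))) (nat_lit 65535))))))) (Nat.add (Nat.add (Nat.add (Nat.shiftLeft (nat_lit 1) (Nat.land (Nat.shiftRight (V (nat_lit 1)) (S (nat_lit 29))) (nat_lit 65535))) (Nat.shiftLeft (nat_lit 1) (Nat.land (Nat.shiftRight (V (nat_lit 1)) (S (nat_lit 39))) (nat_lit 65535)))) (Nat.add (Nat.shiftLeft (nat_lit 1) (Nat.land (Nat.shiftRight (V (nat_lit 1)) (S (nat_lit 52))) (nat_lit 65535))) (Nat.shiftLeft (nat_lit 1) (Nat.land (Nat.shiftRight (V (nat_lit 3)) (S (nat_lit 0))) (nat_lit 65535))))) (Nat.add (Nat.add (Nat.shiftLeft (nat_lit 1) (Nat.land (Nat.shiftRight (V (nat_lit 3)) (S (nat_lit 3))) (nat_lit 65535))) (Nat.shiftLeft (nat_lit 1) (Nat.land (Nat.shiftRight (V (nat_lit 5)) (S (nat_lit 1))) (nat_lit 65535)))) (Nat.add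 (Nat.shiftLeft (nat_lit 1) (Nat.land (Nat.shiftRight (V (nat_lit 5)) (S (nat_lit 5))) (nat_lit 65535))) (Nat.add (Nat.shiftLeft (nat_lit 1) (Nat.land (Nat.shiftRight (V (nat_lit 6)) (S (nat_lit 1))) (nat_lit 65535))) (Nat.shiftLeft (nat_lit 1) (Nat.land (Nat.shiftRight (V (nat_lit 6)) (S (nat_lit 6))) (nat_lit 65535)))))))) (Nat.add (Nat.add (Nat.add (Nat.add (Nat.shiftLeft (nat_lit 1) (Nat.land (Nat.shiftRight (V (nat_lit 8)) (S (nat_lit 0))) (nat_lit 65535))) (Nat.shiftLeft (nat_lit 1) (Nat.land (Nat.shiftRight (V (nat_lit 8)) (S (nat_lit 8))) (nat_lit 65535)))) (Nat.add (Nat.shiftLeft (nat_lit 1) (Nat.land (Nat.shiftRight (V (nat_lit 10)) (S (nat_lit 1))) (nat_lit 65535))) (Nat.shiftLeft (nat_lit 1) (Nat.land (Nat.shiftRight (V (nat_lit 10)) (S (nat_lit 10))) (nat_lit 65535))))) (Nat.add (Nat.add (Nat.shiftLeft (nat_lit 1) (Nat.land (Nat.shiftRight (V (nat_lit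 11)) (S (nat_lit 0))) (nat_lit 65535))) (Nat.shiftLeft (nat_lit 1) (Nat.land (Nat.shiftRight (V (nat_lit 11)) (S (nat_lit 11))) (nat_lit 65535)))) (Nat.add (Nat.shiftLeft (nat_lit 1) (Nat.land (Nat.shiftRight (V (nat_lit 27)) (S (nat_lit 0))) (nat_lit 65535))) (Nat.add (Nat.shiftLeft (nat_lit 1) (Nat.land (Nat.shiftRight (V (nat_lit 27)) (S (nat_lit 27))) (nat_lit 65535))) (Nat.shiftLeft (nat_lit 1) (Nat.land (Nat.shiftRight (V (nat_lit 29)) (S (nat_lit 1))) (nat_lit 65535))))))) (Nat.add (Nat.add (Nat.add (Nat.shiftLeft (nat_lit 1) (Nat.land (Nat.shiftRight (V (nat_lit 29)) (S (nat_lit 29))) (nat_lit 65535))) (Nat.shiftLeft (nat_lit 1) (Nat.land (Nat.shiftRight (V (nat_lit 39)) (S (nat_lit 1))) (nat_lit 65535)))) (Nat.add (Nat.shiftLeft (nat_lit 1) (Nat.land (Nat.shiftRight (V (nat_lit 39)) (S (nat_lit 39))) (nat_lit 65535))) (Nat.shiftLeft (nat_lit 1) (Nat.land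 (Nat.shiftRight (V (nat_lit 41)) (S (nat_lit 0))) (nat_lit 65535))))) (Nat.add (Nat.add (Nat.shiftLeft (nat_lit 1) (Nat.land (Nat.shiftRight (V (nat_lit 41)) (S (nat_lit 41))) (nat_lit 65535))) (Nat.shiftLeft (nat_lit 1) (Nat.land (Nat.shiftRight (V (nat_lit 52)) (S (nat_lit 1))) (nat_lit 65535)))) (Nat.add (Nat.shiftLeft (nat_lit 1) (Nat.land (Nat.shiftRight (V (nat_lit 52)) (S (nat_lit 52))) (nat_lit 65535))) (Nat.add (Nat.shiftLeft (nat_lit 1) (Nat.land (Nat.shiftRight (V (nat_lit 53)) (S (nat_lit 0))) (nat_lit 65535))) (Nat.shiftLeft (nat_lit 1) (Nat.land (Nat.shiftRight (V (nat_lit 53)) (S (nat_lit 53))) (nat_lit 65535))))))))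
def E7_2 (V S : ℕ → ℕ) : ℕ := Nat.add (Nat.add (Nat.add (Nat.add (Nat.shiftLeft (nat_lit 1) (Nat.land (Nat.shiftRight (V (nat_lit 0)) (S (nat_lit 4))) (nat_lit 65535))) (Nat.add (Nat.shiftLeft (nat_lit 1) (Nat.land (Nat.shiftRight (V (nat_lit 0)) (S (nat_lit 7))) (nat_lit 65535))) (Nat.shiftLeft (nat_lit 1) (Nat.land (Nat.shiftRight (V (nat_lit 0)) (S (nat_lit 9))) (nat_lit 65535))))) (Nat.add (Nat.add (Nat.shiftLeft (nat_lit 1) (Nat.land (Nat.shiftRight (V (nat_lit 0)) (S (nat_lit 28))) (nat_lit 65535))) (Nat.shiftLeft (nat_lit 1) (Nat.land (Nat.shiftRight (V (nat_lit 0)) (S (nat_lit 40))) (nat_lit 65535)))) (Nat.add (Nat.shiftLeft (nat_lit 1) (Nat.land (Nat.shiftRight (V (nat_lit 0)) (S (nat_lit 51))) (nat_lit 65535))) (Nat.shiftLeft (nat_lit 1) (Nat.land (Nat.shiftRight (V (nat_lit 1)) (S (nat_lit 4))) (nat_lit 65535)))))) (Nat.add (Nat.add (Nat.add (Nat.shiftLeft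 (nat_lit 1) (Nat.land (Nat.shiftRight (V (nat_lit 1)) (S (nat_lit 7))) (nat_lit 65535))) (Nat.shiftLeft (nat_lit 1) (Nat.land (Nat.shiftRight (V (nat_lit 1)) (S (nat_lit 9))) (nat_lit 65535)))) (Nat.add (Nat.shiftLeft (nat_lit 1) (Nat.land (Nat.shiftRight (V (nat_lit 1)) (S (nat_lit 28))) (nat_lit 65535))) (Nat.shiftLeft (nat_lit 1) (Nat.land (Nat.shiftRight (V (nat_lit 1)) (S (nat_lit 40))) (nat_lit 65535))))) (Nat.add (Nat.add (Nat.shiftLeft (nat_lit 1) (Nat.land (Nat.shiftRight (V (nat_lit 1)) (S (nat_lit 51))) (nat_lit 65535))) (Nat.shiftLeft (nat_lit 1) (Nat.land (Nat.shiftRight (V (nat_lit 4)) (S (nat_lit 0))) (nat_lit 65535)))) (Nat.add (Nat.shiftLeft (nat_lit 1) (Nat.land (Nat.shiftRight (V (nat_lit 4)) (S (nat_lit 1))) (nat_lit 65535))) (Nat.shiftLeft (nat_lit 1) (Nat.land (Nat.shiftRight (V (nat_lit 4)) (S (nat_lit 4))) (nat_lit 65535))))))) (Nat.add (Nat.add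 (Nat.add (Nat.shiftLeft (nat_lit 1) (Nat.land (Nat.shiftRight (V (nat_lit 7)) (S (nat_lit 0))) (nat_lit 65535))) (Nat.add (Nat.shiftLeft (nat_lit 1) (Nat.land (Nat.shiftRight (V (nat_lit 7)) (S (nat_lit 1))) (nat_lit 65535))) (Nat.shiftLeft (nat_lit 1) (Nat.land (Nat.shiftRight (V (nat_lit 7)) (S (nat_lit 7))) (nat_lit 65535))))) (Nat.add (Nat.add (Nat.shiftLeft (nat_lit 1) (Nat.land (Nat.shiftRight (V (nat_lit 9)) (S (nat_lit 0))) (nat_lit 65535))) (Nat.shiftLeft (nat_lit 1) (Nat.land (Nat.shiftRight (V (nat_lit 9)) (S (nat_lit 1))) (nat_lit 65535)))) (Nat.add (Nat.shiftLeft (nat_lit 1) (Nat.land (Nat.shiftRight (V (nat_lit 9)) (S (nat_lit 9))) (nat_lit 65535))) (Nat.shiftLeft (nat_lit 1) (Nat.land (Nat.shiftRight (V (nat_lit 28)) (S (nat_lit 0))) (nat_lit 65535)))))) (Nat.add (Nat.add (Nat.add (Nat.shiftLeft (nat_lit 1) (Nat.land (Nat.shiftRight (V (nat_lit 28))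 (S (nat_lit 1))) (nat_lit 65535))) (Nat.shiftLeft (nat_lit 1) (Nat.land (Nat.shiftRight (V (nat_lit 28)) (S (nat_lit 28))) (nat_lit 65535)))) (Nat.add (Nat.shiftLeft (nat_lit 1) (Nat.land (Nat.shiftRight (V (nat_lit 40)) (S (nat_lit 0))) (nat_lit 65535))) (Nat.shiftLeft (nat_lit 1) (Nat.land (Nat.shiftRight (V (nat_lit 40)) (S (nat_lit 1))) (nat_lit 65535))))) (Nat.add (Nat.add (Nat.shiftLeft (nat_lit 1) (Nat.land (Nat.shiftRight (V (nat_lit 40)) (S (nat_lit 40))) (nat_lit 65535))) (Nat.shiftLeft (nat_lit 1) (Nat.land (Nat.shiftRight (V (nat_lit 51)) (S (nat_lit 0))) (nat_lit 65535)))) (Nat.add (Nat.shiftLeft (nat_lit 1) (Nat.land (Nat.shiftRight (V (nat_lit 51)) (S (nat_lit 1))) (nat_lit 65535))) (Nat.shiftLeft (nat_lit 1) (Nat.land (Nat.shiftRight (V (nat_lit 51)) (S (nat_lit 51))) (nat_lit 65535)))))))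
def E8_2 (V S : ℕ → ℕ) : ℕ := Nat.add (Nat.add (Nat.add (Nat.add (Nat.shiftLeft (nat_lit 1) (Nat.land (Nat.shiftRight (V (nat_lit 0)) (S (nat_lit 5))) (nat_lit 65535))) (Nat.add (Nat.shiftLeft (nat_lit 1) (Nat.land (Nat.shiftRight (V (nat_lit 0)) (S (nat_lit 6))) (nat_lit 65535))) (Nat.shiftLeft (nat_lit 1) (Nat.land (Nat.shiftRight (V (nat_lit 0)) (S (nat_lit 10))) (nat_lit 65535))))) (Nat.add (Nat.shiftLeft (nat_lit 1) (Nat.land (Nat.shiftRight (V (nat_lit 0)) (S (nat_lit 29))) (nat_lit 65535))) (Nat.add (Nat.shiftLeft (nat_lit 1) (Nat.land (Nat.shiftRight (V (nat_lit 0)) (S (nat_lit 39))) (nat_lit 65535))) (Nat.shiftLeft (nat_lit 1) (Nat.land (Nat.shiftRight (V (nat_lit 0)) (S (nat_lit 52))) (nat_lit 65535)))))) (Nat.add (Nat.add (Nat.shiftLeft (nat_lit 1) (Nat.land (Nat.shiftRight (V (nat_lit 1)) (S (nat_lit 3))) (nat_lit 65535))) (Nat.add (Nat.shiftLeft (nat_lit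 1) (Nat.land (Nat.shiftRight (V (nat_lit 1)) (S (nat_lit 8))) (nat_lit 65535))) (Nat.shiftLeft (nat_lit 1) (Nat.land (Nat.shiftRight (V (nat_lit 1)) (S (nat_lit 11))) (nat_lit 65535))))) (Nat.add (Nat.shiftLeft (nat_lit 1) (Nat.land (Nat.shiftRight (V (nat_lit 1)) (S (nat_lit 27))) (nat_lit 65535))) (Nat.add (Nat.shiftLeft (nat_lit 1) (Nat.land (Nat.shiftRight (V (nat_lit 1)) (S (nat_lit 41))) (nat_lit 65535))) (Nat.shiftLeft (nat_lit 1) (Nat.land (Nat.shiftRight (V (nat_lit 1)) (S (nat_lit 53))) (nat_lit 65535))))))) (Nat.add (Nat.add (Nat.add (Nat.shiftLeft (nat_lit 1) (Nat.land (Nat.shiftRight (V (nat_lit 3)) (S (nat_lit 1))) (nat_lit 65535))) (Nat.add (Nat.shiftLeft (nat_lit 1) (Nat.land (Nat.shiftRight (V (nat_lit 5)) (S (nat_lit 0))) (nat_lit 65535))) (Nat.shiftLeft (nat_lit 1) (Nat.land (Nat.shiftRight (V (nat_lit 6)) (S (nat_lit 0))) (nat_lit 65535))))) (Nat.add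 (Nat.shiftLeft (nat_lit 1) (Nat.land (Nat.shiftRight (V (nat_lit 8)) (S (nat_lit 1))) (nat_lit 65535))) (Nat.add (Nat.shiftLeft (nat_lit 1) (Nat.land (Nat.shiftRight (V (nat_lit 10)) (S (nat_lit 0))) (nat_lit 65535))) (Nat.shiftLeft (nat_lit 1) (Nat.land (Nat.shiftRight (V (nat_lit 11)) (S (nat_lit 1))) (nat_lit 65535)))))) (Nat.add (Nat.add (Nat.shiftLeft (nat_lit 1) (Nat.land (Nat.shiftRight (V (nat_lit 27)) (S (nat_lit 1))) (nat_lit 65535))) (Nat.add (Nat.shiftLeft (nat_lit 1) (Nat.land (Nat.shiftRight (V (nat_lit 29)) (S (nat_lit 0))) (nat_lit 65535))) (Nat.shiftLeft (nat_lit 1) (Nat.land (Nat.shiftRight (V (nat_lit 39)) (S (nat_lit 0))) (nat_lit 65535))))) (Nat.add (Nat.shiftLeft (nat_lit 1) (Nat.land (Nat.shiftRight (V (nat_lit 41)) (S (nat_lit 1))) (nat_lit 65535))) (Nat.add (Nat.shiftLeft (nat_lit 1) (Nat.land (Nat.shiftRight (V (nat_lit 52)) (S (nat_lit 0)))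 (nat_lit 65535))) (Nat.shiftLeft (nat_lit 1) (Nat.land (Nat.shiftRight (V (nat_lit 53)) (S (nat_lit 1))) (nat_lit 65535)))))))
def E9_2 (V S : ℕ → ℕ) : ℕ := Nat.add (Nat.add (Nat.add (Nat.shiftLeft (nat_lit 1) (Nat.land (Nat.shiftRight (V (nat_lit 0)) (S (nat_lit 12))) (nat_lit 65535))) (Nat.add (Nat.shiftLeft (nat_lit 1) (Nat.land (Nat.shiftRight (V (nat_lit 0)) (S (nat_lit 13))) (nat_lit 65535))) (Nat.shiftLeft (nat_lit 1) (Nat.land (Nat.shiftRight (V (nat_lit 0)) (S (nat_lit 14))) (nat_lit 65535))))) (Nat.add (Nat.shiftLeft (nat_lit 1) (Nat.land (Nat.shiftRight (V (nat_lit 1)) (S (nat_lit 12))) (nat_lit 65535))) (Nat.add (Nat.shiftLeft (nat_lit 1) (Nat.land (Nat.shiftRight (V (nat_lit 1)) (S (nat_lit 13))) (nat_lit 65535))) (Nat.shiftLeft (nat_lit 1) (Nat.land (Nat.shiftRight (V (nat_lit 1)) (S (nat_lit 14))) (nat_lit 65535)))))) (Nat.add (Nat.add (Nat.shiftLeft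 (nat_lit 1) (Nat.land (Nat.shiftRight (V (nat_lit 12)) (S (nat_lit 0))) (nat_lit 65535))) (Nat.add (Nat.shiftLeft (nat_lit 1) (Nat.land (Nat.shiftRight (V (nat_lit 12)) (S (nat_lit 1))) (nat_lit 65535))) (Nat.shiftLeft (nat_lit 1) (Nat.land (Nat.shiftRight (V (nat_lit 13)) (S (nat_lit 0))) (nat_lit 65535))))) (Nat.add (Nat.shiftLeft (nat_lit 1) (Nat.land (Nat.shiftRight (V (nat_lit 13)) (S (nat_lit 1))) (nat_lit 65535))) (Nat.add (Nat.shiftLeft (nat_lit 1) (Nat.land (Nat.shiftRight (V (nat_lit 14)) (S (nat_lit 0))) (nat_lit 65535))) (Nat.shiftLeft (nat_lit 1) (Nat.land (Nat.shiftRight (V (nat_lit 14)) (S (nat_lit 1))) (nat_lit 65535))))))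
def E10_2 (V S : ℕ → ℕ) : ℕ := Nat.add (Nat.add (Nat.add (Nat.add (Nat.shiftLeft (nat_lit 1) (Nat.land (Nat.shiftRight (V (nat_lit 0)) (S (nat_lit 15))) (nat_lit 65535))) (Nat.add (Nat.shiftLeft (nat_lit 1) (Nat.land (Nat.shiftRight (V (nat_lit 0)) (S (nat_lit 19))) (nat_lit 65535))) (Nat.shiftLeft (nat_lit 1) (Nat.land (Nat.shiftRight (V (nat_lit 0)) (S (nat_lit 22))) (nat_lit 65535))))) (Nat.add (Nat.shiftLeft (nat_lit 1) (Nat.land (Nat.shiftRight (V (nat_lit 0)) (S (nat_lit 24))) (nat_lit 65535))) (Nat.add (Nat.shiftLeft (nat_lit 1) (Nat.land (Nat.shiftRight (V (nat_lit 0)) (S (nat_lit 37))) (nat_lit 65535))) (Nat.shiftLeft (nat_lit 1) (Nat.land (Nat.shiftRight (V (nat_lit 0)) (S (nat_lit 49))) (nat_lit 65535)))))) (Nat.add (Nat.add (Nat.shiftLeft (nat_lit 1) (Nat.land (Nat.shiftRight (V (nat_lit 1)) (S (nat_lit 16))) (nat_lit 65535))) (Nat.add (Nat.shiftLeft (nat_lit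 1) (Nat.land (Nat.shiftRight (V (nat_lit 1)) (S (nat_lit 18))) (nat_lit 65535))) (Nat.shiftLeft (nat_lit 1) (Nat.land (Nat.shiftRight (V (nat_lit 1)) (S (nat_lit 23))) (nat_lit 65535))))) (Nat.add (Nat.shiftLeft (nat_lit 1) (Nat.land (Nat.shiftRight (V (nat_lit 1)) (S (nat_lit 25))) (nat_lit 65535))) (Nat.add (Nat.shiftLeft (nat_lit 1) (Nat.land (Nat.shiftRight (V (nat_lit 1)) (S (nat_lit 36))) (nat_lit 65535))) (Nat.shiftLeft (nat_lit 1) (Nat.land (Nat.shiftRight (V (nat_lit 1)) (S (nat_lit 50))) (nat_lit 65535))))))) (Nat.add (Nat.add (Nat.add (Nat.shiftLeft (nat_lit 1) (Nat.land (Nat.shiftRight (V (nat_lit 15)) (S (nat_lit 0))) (nat_lit 65535))) (Nat.add (Nat.shiftLeft (nat_lit 1) (Nat.land (Nat.shiftRight (V (nat_lit 16)) (S (nat_lit 1))) (nat_lit 65535))) (Nat.shiftLeft (nat_lit 1) (Nat.land (Nat.shiftRight (V (nat_lit 18)) (S (nat_lit 1))) (nat_lit 65535)))))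 (Nat.add (Nat.shiftLeft (nat_lit 1) (Nat.land (Nat.shiftRight (V (nat_lit 19)) (S (nat_lit 0))) (nat_lit 65535))) (Nat.add (Nat.shiftLeft (nat_lit 1) (Nat.land (Nat.shiftRight (V (nat_lit 22)) (S (nat_lit 0))) (nat_lit 65535))) (Nat.shiftLeft (nat_lit 1) (Nat.land (Nat.shiftRight (V (nat_lit 23)) (S (nat_lit 1))) (nat_lit 65535)))))) (Nat.add (Nat.add (Nat.shiftLeft (nat_lit 1) (Nat.land (Nat.shiftRight (V (nat_lit 24)) (S (nat_lit 0))) (nat_lit 65535))) (Nat.add (Nat.shiftLeft (nat_lit 1) (Nat.land (Nat.shiftRight (V (nat_lit 25)) (S (nat_lit 1))) (nat_lit 65535))) (Nat.shiftLeft (nat_lit 1) (Nat.land (Nat.shiftRight (V (nat_lit 36)) (S (nat_lit 1))) (nat_lit 65535))))) (Nat.add (Nat.shiftLeft (nat_lit 1) (Nat.land (Nat.shiftRight (V (nat_lit 37)) (S (nat_lit 0))) (nat_lit 65535))) (Nat.add (Nat.shiftLeft (nat_lit 1) (Nat.land (Nat.shiftRight (V (nat_lit 49)) (S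 (nat_lit 0))) (nat_lit 65535))) (Nat.shiftLeft (nat_lit 1) (Nat.land (Nat.shiftRight (V (nat_lit 50)) (S (nat_lit 1))) (nat_lit 65535)))))))
def E11_2 (V S : ℕ → ℕ) : ℕ := Nat.add (Nat.add (Nat.add (Nat.add (Nat.add (Nat.shiftLeft (nat_lit 1) (Nat.land (Nat.shiftRight (V (nat_lit 0)) (S (nat_lit 16))) (nat_lit 65535))) (Nat.shiftLeft (nat_lit 1) (Nat.land (Nat.shiftRight (V (nat_lit 0)) (S (nat_lit 18))) (nat_lit 65535)))) (Nat.add (Nat.shiftLeft (nat_lit 1) (Nat.land (Nat.shiftRight (V (nat_lit 0)) (S (nat_lit 23))) (nat_lit 65535))) (Nat.shiftLeft (nat_lit 1) (Nat.land (Nat.shiftRight (V (nat_lit 0)) (S (nat_lit 25))) (nat_lit 65535))))) (Nat.add (Nat.add (Nat.shiftLeft (nat_lit 1) (Nat.land (Nat.shiftRight (V (nat_lit 0)) (S (nat_lit 36))) (nat_lit 65535))) (Nat.shiftLeft (nat_lit 1) (Nat.land (Nat.shiftRight (V (nat_lit 0)) (S (nat_lit 50))) (nat_lit 65535))))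 (Nat.add (Nat.shiftLeft (nat_lit 1) (Nat.land (Nat.shiftRight (V (nat_lit 1)) (S (nat_lit 15))) (nat_lit 65535))) (Nat.add (Nat.shiftLeft (nat_lit 1) (Nat.land (Nat.shiftRight (V (nat_lit 1)) (S (nat_lit 19))) (nat_lit 65535))) (Nat.shiftLeft (nat_lit 1) (Nat.land (Nat.shiftRight (V (nat_lit 1)) (S (nat_lit 22))) (nat_lit 65535))))))) (Nat.add (Nat.add (Nat.add (Nat.shiftLeft (nat_lit 1) (Nat.land (Nat.shiftRight (V (nat_lit 1)) (S (nat_lit 24))) (nat_lit 65535))) (Nat.shiftLeft (nat_lit 1) (Nat.land (Nat.shiftRight (V (nat_lit 1)) (S (nat_lit 37))) (nat_lit 65535)))) (Nat.add (Nat.shiftLeft (nat_lit 1) (Nat.land (Nat.shiftRight (V (nat_lit 1)) (S (nat_lit 49))) (nat_lit 65535))) (Nat.shiftLeft (nat_lit 1) (Nat.land (Nat.shiftRight (V (nat_lit 15)) (S (nat_lit 1))) (nat_lit 65535))))) (Nat.add (Nat.add (Nat.shiftLeft (nat_lit 1) (Nat.land (Nat.shiftRight (V (nat_lit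 15)) (S (nat_lit 15))) (nat_lit 65535))) (Nat.shiftLeft (nat_lit 1) (Nat.land (Nat.shiftRight (V (nat_lit 16)) (S (nat_lit 0))) (nat_lit 65535)))) (Nat.add (Nat.shiftLeft (nat_lit 1) (Nat.land (Nat.shiftRight (V (nat_lit 16)) (S (nat_lit 16))) (nat_lit 65535))) (Nat.add (Nat.shiftLeft (nat_lit 1) (Nat.land (Nat.shiftRight (V (nat_lit 18)) (S (nat_lit 0))) (nat_lit 65535))) (Nat.shiftLeft (nat_lit 1) (Nat.land (Nat.shiftRight (V (nat_lit 18)) (S (nat_lit 18))) (nat_lit 65535)))))))) (Nat.add (Nat.add (Nat.add (Nat.add (Nat.shiftLeft (nat_lit 1) (Nat.land (Nat.shiftRight (V (nat_lit 19)) (S (nat_lit 1))) (nat_lit 65535))) (Nat.shiftLeft (nat_lit 1) (Nat.land (Nat.shiftRight (V (nat_lit 19)) (S (nat_lit 19))) (nat_lit 65535)))) (Nat.add (Nat.shiftLeft (nat_lit 1) (Nat.land (Nat.shiftRight (V (nat_lit 22)) (S (nat_lit 1))) (nat_lit 65535))) (Nat.shiftLeft (nat_lit 1)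 (Nat.land (Nat.shiftRight (V (nat_lit 22)) (S (nat_lit 22))) (nat_lit 65535))))) (Nat.add (Nat.add (Nat.shiftLeft (nat_lit 1) (Nat.land (Nat.shiftRight (V (nat_lit 23)) (S (nat_lit 0))) (nat_lit 65535))) (Nat.shiftLeft (nat_lit 1) (Nat.land (Nat.shiftRight (V (nat_lit 23)) (S (nat_lit 23))) (nat_lit 65535)))) (Nat.add (Nat.shiftLeft (nat_lit 1) (Nat.land (Nat.shiftRight (V (nat_lit 24)) (S (nat_lit 1))) (nat_lit 65535))) (Nat.add (Nat.shiftLeft (nat_lit 1) (Nat.land (Nat.shiftRight (V (nat_lit 24)) (S (nat_lit 24))) (nat_lit 65535))) (Nat.shiftLeft (nat_lit 1) (Nat.land (Nat.shiftRight (V (nat_lit 25)) (S (nat_lit 0))) (nat_lit 65535))))))) (Nat.add (Nat.add (Nat.add (Nat.shiftLeft (nat_lit 1) (Nat.land (Nat.shiftRight (V (nat_lit 25)) (S (nat_lit 25))) (nat_lit 65535))) (Nat.shiftLeft (nat_lit 1) (Nat.land (Nat.shiftRight (V (nat_lit 36)) (S (nat_lit 0))) (nat_lit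 65535)))) (Nat.add (Nat.shiftLeft (nat_lit 1) (Nat.land (Nat.shiftRight (V (nat_lit 36)) (S (nat_lit 36))) (nat_lit 65535))) (Nat.shiftLeft (nat_lit 1) (Nat.land (Nat.shiftRight (V (nat_lit 37)) (S (nat_lit 1))) (nat_lit 65535))))) (Nat.add (Nat.add (Nat.shiftLeft (nat_lit 1) (Nat.land (Nat.shiftRight (V (nat_lit 37)) (S (nat_lit 37))) (nat_lit 65535))) (Nat.shiftLeft (nat_lit 1) (Nat.land (Nat.shiftRight (V (nat_lit 49)) (S (nat_lit 1))) (nat_lit 65535)))) (Nat.add (Nat.shiftLeft (nat_lit 1) (Nat.land (Nat.shiftRight (V (nat_lit 49)) (S (nat_lit 49))) (nat_lit 65535))) (Nat.add (Nat.shiftLeft (nat_lit 1) (Nat.land (Nat.shiftRight (V (nat_lit 50)) (S (nat_lit 0))) (nat_lit 65535))) (Nat.shiftLeft (nat_lit 1) (Nat.land (Nat.shiftRight (V (nat_lit 50)) (S (nat_lit 50))) (nat_lit 65535))))))))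
def E12_2 (V S : ℕ → ℕ) : ℕ := Nat.add (Nat.add (Nat.add (Nat.add (Nat.shiftLeft (nat_lit 1) (Nat.land (Nat.shiftRight (V (nat_lit 0)) (S (nat_lit 17))) (nat_lit 65535))) (Nat.add (Nat.shiftLeft (nat_lit 1) (Nat.land (Nat.shiftRight (V (nat_lit 0)) (S (nat_lit 20))) (nat_lit 65535))) (Nat.shiftLeft (nat_lit 1) (Nat.land (Nat.shiftRight (V (nat_lit 0)) (S (nat_lit 21))) (nat_lit 65535))))) (Nat.add (Nat.shiftLeft (nat_lit 1) (Nat.land (Nat.shiftRight (V (nat_lit 0)) (S (nat_lit 26))) (nat_lit 65535))) (Nat.add (Nat.shiftLeft (nat_lit 1) (Nat.land (Nat.shiftRight (V (nat_lit 0)) (S (nat_lit 38))) (nat_lit 65535))) (Nat.shiftLeft (nat_lit 1) (Nat.land (Nat.shiftRight (V (nat_lit 0)) (S (nat_lit 48))) (nat_lit 65535)))))) (Nat.add (Nat.add (Nat.shiftLeft (nat_lit 1) (Nat.land (Nat.shiftRight (V (nat_lit 1)) (S (nat_lit 17))) (nat_lit 65535))) (Nat.add (Nat.shiftLeft (nat_lit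 1) (Nat.land (Nat.shiftRight (V (nat_lit 1)) (S (nat_lit 20))) (nat_lit 65535))) (Nat.shiftLeft (nat_lit 1) (Nat.land (Nat.shiftRight (V (nat_lit 1)) (S (nat_lit 21))) (nat_lit 65535))))) (Nat.add (Nat.shiftLeft (nat_lit 1) (Nat.land (Nat.shiftRight (V (nat_lit 1)) (S (nat_lit 26))) (nat_lit 65535))) (Nat.add (Nat.shiftLeft (nat_lit 1) (Nat.land (Nat.shiftRight (V (nat_lit 1)) (S (nat_lit 38))) (nat_lit 65535))) (Nat.shiftLeft (nat_lit 1) (Nat.land (Nat.shiftRight (V (nat_lit 1)) (S (nat_lit 48))) (nat_lit 65535))))))) (Nat.add (Nat.add (Nat.add (Nat.shiftLeft (nat_lit 1) (Nat.land (Nat.shiftRight (V (nat_lit 17)) (S (nat_lit 0))) (nat_lit 65535))) (Nat.add (Nat.shiftLeft (nat_lit 1) (Nat.land (Nat.shiftRight (V (nat_lit 17)) (S (nat_lit 1))) (nat_lit 65535))) (Nat.shiftLeft (nat_lit 1) (Nat.land (Nat.shiftRight (V (nat_lit 20)) (S (nat_lit 0))) (nat_lit 65535)))))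 (Nat.add (Nat.shiftLeft (nat_lit 1) (Nat.land (Nat.shiftRight (V (nat_lit 20)) (S (nat_lit 1))) (nat_lit 65535))) (Nat.add (Nat.shiftLeft (nat_lit 1) (Nat.land (Nat.shiftRight (V (nat_lit 21)) (S (nat_lit 0))) (nat_lit 65535))) (Nat.shiftLeft (nat_lit 1) (Nat.land (Nat.shiftRight (V (nat_lit 21)) (S (nat_lit 1))) (nat_lit 65535)))))) (Nat.add (Nat.add (Nat.shiftLeft (nat_lit 1) (Nat.land (Nat.shiftRight (V (nat_lit 26)) (S (nat_lit 0))) (nat_lit 65535))) (Nat.add (Nat.shiftLeft (nat_lit 1) (Nat.land (Nat.shiftRight (V (nat_lit 26)) (S (nat_lit 1))) (nat_lit 65535))) (Nat.shiftLeft (nat_lit 1) (Nat.land (Nat.shiftRight (V (nat_lit 38)) (S (nat_lit 0))) (nat_lit 65535))))) (Nat.add (Nat.shiftLeft (nat_lit 1) (Nat.land (Nat.shiftRight (V (nat_lit 38)) (S (nat_lit 1))) (nat_lit 65535))) (Nat.add (Nat.shiftLeft (nat_lit 1) (Nat.land (Nat.shiftRight (V (nat_lit 48)) (S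 (nat_lit 0))) (nat_lit 65535))) (Nat.shiftLeft (nat_lit 1) (Nat.land (Nat.shiftRight (V (nat_lit 48)) (S (nat_lit 1))) (nat_lit 65535)))))))
def E13_2 (V S : ℕ → ℕ) : ℕ := Nat.add (Nat.add (Nat.add (Nat.add (Nat.shiftLeft (nat_lit 1) (Nat.land (Nat.shiftRight (V (nat_lit 0)) (S (nat_lit 30))) (nat_lit 65535))) (Nat.add (Nat.shiftLeft (nat_lit 1) (Nat.land (Nat.shiftRight (V (nat_lit 0)) (S (nat_lit 33))) (nat_lit 65535))) (Nat.shiftLeft (nat_lit 1) (Nat.land (Nat.shiftRight (V (nat_lit 0)) (S (nat_lit 43))) (nat_lit 65535))))) (Nat.add (Nat.shiftLeft (nat_lit 1) (Nat.land (Nat.shiftRight (V (nat_lit 0)) (S (nat_lit 47))) (nat_lit 65535))) (Nat.add (Nat.shiftLeft (nat_lit 1) (Nat.land (Nat.shiftRight (V (nat_lit 0)) (S (nat_lit 55))) (nat_lit 65535))) (Nat.shiftLeft (nat_lit 1) (Nat.land (Nat.shiftRight (V (nat_lit 0)) (S (nat_lit 59))) (nat_lit 65535)))))) (Nat.add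 (Nat.add (Nat.shiftLeft (nat_lit 1) (Nat.land (Nat.shiftRight (V (nat_lit 1)) (S (nat_lit 31))) (nat_lit 65535))) (Nat.add (Nat.shiftLeft (nat_lit 1) (Nat.land (Nat.shiftRight (V (nat_lit 1)) (S (nat_lit 35))) (nat_lit 65535))) (Nat.shiftLeft (nat_lit 1) (Nat.land (Nat.shiftRight (V (nat_lit 1)) (S (nat_lit 42))) (nat_lit 65535))))) (Nat.add (Nat.shiftLeft (nat_lit 1) (Nat.land (Nat.shiftRight (V (nat_lit 1)) (S (nat_lit 45))) (nat_lit 65535))) (Nat.add (Nat.shiftLeft (nat_lit 1) (Nat.land (Nat.shiftRight (V (nat_lit 1)) (S (nat_lit 56))) (nat_lit 65535))) (Nat.shiftLeft (nat_lit 1) (Nat.land (Nat.shiftRight (V (nat_lit 1)) (S (nat_lit 58))) (nat_lit 65535))))))) (Nat.add (Nat.add (Nat.add (Nat.shiftLeft (nat_lit 1) (Nat.land (Nat.shiftRight (V (nat_lit 30)) (S (nat_lit 0))) (nat_lit 65535))) (Nat.add (Nat.shiftLeft (nat_lit 1) (Nat.land (Nat.shiftRight (V (nat_lit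 31)) (S (nat_lit 1))) (nat_lit 65535))) (Nat.shiftLeft (nat_lit 1) (Nat.land (Nat.shiftRight (V (nat_lit 33)) (S (nat_lit 0))) (nat_lit 65535))))) (Nat.add (Nat.shiftLeft (nat_lit 1) (Nat.land (Nat.shiftRight (V (nat_lit 35)) (S (nat_lit 1))) (nat_lit 65535))) (Nat.add (Nat.shiftLeft (nat_lit 1) (Nat.land (Nat.shiftRight (V (nat_lit 42)) (S (nat_lit 1))) (nat_lit 65535))) (Nat.shiftLeft (nat_lit 1) (Nat.land (Nat.shiftRight (V (nat_lit 43)) (S (nat_lit 0))) (nat_lit 65535)))))) (Nat.add (Nat.add (Nat.shiftLeft (nat_lit 1) (Nat.land (Nat.shiftRight (V (nat_lit 45)) (S (nat_lit 1))) (nat_lit 65535))) (Nat.add (Nat.shiftLeft (nat_lit 1) (Nat.land (Nat.shiftRight (V (nat_lit 47)) (S (nat_lit 0))) (nat_lit 65535))) (Nat.shiftLeft (nat_lit 1) (Nat.land (Nat.shiftRight (V (nat_lit 55)) (S (nat_lit 0))) (nat_lit 65535))))) (Nat.add (Nat.shiftLeft (nat_lit 1) (Nat.land (Nat.shiftRight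 (V (nat_lit 56)) (S (nat_lit 1))) (nat_lit 65535))) (Nat.add (Nat.shiftLeft (nat_lit 1) (Nat.land (Nat.shiftRight (V (nat_lit 58)) (S (nat_lit 1))) (nat_lit 65535))) (Nat.shiftLeft (nat_lit 1) (Nat.land (Nat.shiftRight (V (nat_lit 59)) (S (nat_lit 0))) (nat_lit 65535)))))))
def E14_2 (V S : ℕ → ℕ) : ℕ := Nat.add (Nat.add (Nat.add (Nat.add (Nat.shiftLeft (nat_lit 1) (Nat.land (Nat.shiftRight (V (nat_lit 0)) (S (nat_lit 31))) (nat_lit 65535))) (Nat.add (Nat.shiftLeft (nat_lit 1) (Nat.land (Nat.shiftRight (V (nat_lit 0)) (S (nat_lit 35))) (nat_lit 65535))) (Nat.shiftLeft (nat_lit 1) (Nat.land (Nat.shiftRight (V (nat_lit 0)) (S (nat_lit 42))) (nat_lit 65535))))) (Nat.add (Nat.shiftLeft (nat_lit 1) (Nat.land (Nat.shiftRight (V (nat_lit 0)) (S (nat_lit 45))) (nat_lit 65535))) (Nat.add (Nat.shiftLeft (nat_lit 1) (Nat.land (Nat.shiftRight (V (nat_lit 0)) (S (nat_lit 56)))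 (nat_lit 65535))) (Nat.shiftLeft (nat_lit 1) (Nat.land (Nat.shiftRight (V (nat_lit 0)) (S (nat_lit 58))) (nat_lit 65535)))))) (Nat.add (Nat.add (Nat.shiftLeft (nat_lit 1) (Nat.land (Nat.shiftRight (V (nat_lit 1)) (S (nat_lit 30))) (nat_lit 65535))) (Nat.add (Nat.shiftLeft (nat_lit 1) (Nat.land (Nat.shiftRight (V (nat_lit 1)) (S (nat_lit 33))) (nat_lit 65535))) (Nat.shiftLeft (nat_lit 1) (Nat.land (Nat.shiftRight (V (nat_lit 1)) (S (nat_lit 43))) (nat_lit 65535))))) (Nat.add (Nat.shiftLeft (nat_lit 1) (Nat.land (Nat.shiftRight (V (nat_lit 1)) (S (nat_lit 47))) (nat_lit 65535))) (Nat.add (Nat.shiftLeft (nat_lit 1) (Nat.land (Nat.shiftRight (V (nat_lit 1)) (S (nat_lit 55))) (nat_lit 65535))) (Nat.shiftLeft (nat_lit 1) (Nat.land (Nat.shiftRight (V (nat_lit 1)) (S (nat_lit 59))) (nat_lit 65535))))))) (Nat.add (Nat.add (Nat.add (Nat.shiftLeft (nat_lit 1) (Nat.land (Nat.shiftRight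 (V (nat_lit 30)) (S (nat_lit 1))) (nat_lit 65535))) (Nat.add (Nat.shiftLeft (nat_lit 1) (Nat.land (Nat.shiftRight (V (nat_lit 31)) (S (nat_lit 0))) (nat_lit 65535))) (Nat.shiftLeft (nat_lit 1) (Nat.land (Nat.shiftRight (V (nat_lit 33)) (S (nat_lit 1))) (nat_lit 65535))))) (Nat.add (Nat.shiftLeft (nat_lit 1) (Nat.land (Nat.shiftRight (V (nat_lit 35)) (S (nat_lit 0))) (nat_lit 65535))) (Nat.add (Nat.shiftLeft (nat_lit 1) (Nat.land (Nat.shiftRight (V (nat_lit 42)) (S (nat_lit 0))) (nat_lit 65535))) (Nat.shiftLeft (nat_lit 1) (Nat.land (Nat.shiftRight (V (nat_lit 43)) (S (nat_lit 1))) (nat_lit 65535)))))) (Nat.add (Nat.add (Nat.shiftLeft (nat_lit 1) (Nat.land (Nat.shiftRight (V (nat_lit 45)) (S (nat_lit 0))) (nat_lit 65535))) (Nat.add (Nat.shiftLeft (nat_lit 1) (Nat.land (Nat.shiftRight (V (nat_lit 47)) (S (nat_lit 1))) (nat_lit 65535))) (Nat.shiftLeft (nat_lit 1) (Nat.land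 (Nat.shiftRight (V (nat_lit 55)) (S (nat_lit 1))) (nat_lit 65535))))) (Nat.add (Nat.shiftLeft (nat_lit 1) (Nat.land (Nat.shiftRight (V (nat_lit 56)) (S (nat_lit 0))) (nat_lit 65535))) (Nat.add (Nat.shiftLeft (nat_lit 1) (Nat.land (Nat.shiftRight (V (nat_lit 58)) (S (nat_lit 0))) (nat_lit 65535))) (Nat.shiftLeft (nat_lit 1) (Nat.land (Nat.shiftRight (V (nat_lit 59)) (S (nat_lit 1))) (nat_lit 65535)))))))
def E15_2 (V S : ℕ → ℕ) : ℕ := Nat.add (Nat.add (Nat.add (Nat.add (Nat.shiftLeft (nat_lit 1) (Nat.land (Nat.shiftRight (V (nat_lit 0)) (S (nat_lit 32))) (nat_lit 65535))) (Nat.add (Nat.shiftLeft (nat_lit 1) (Nat.land (Nat.shiftRight (V (nat_lit 0)) (S (nat_lit 34))) (nat_lit 65535))) (Nat.shiftLeft (nat_lit 1) (Nat.land (Nat.shiftRight (V (nat_lit 0)) (S (nat_lit 44))) (nat_lit 65535))))) (Nat.add (Nat.shiftLeft (nat_lit 1) (Nat.land (Nat.shiftRight (V (nat_lit 0))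 (S (nat_lit 46))) (nat_lit 65535))) (Nat.add (Nat.shiftLeft (nat_lit 1) (Nat.land (Nat.shiftRight (V (nat_lit 0)) (S (nat_lit 54))) (nat_lit 65535))) (Nat.shiftLeft (nat_lit 1) (Nat.land (Nat.shiftRight (V (nat_lit 0)) (S (nat_lit 57))) (nat_lit 65535)))))) (Nat.add (Nat.add (Nat.shiftLeft (nat_lit 1) (Nat.land (Nat.shiftRight (V (nat_lit 1)) (S (nat_lit 32))) (nat_lit 65535))) (Nat.add (Nat.shiftLeft (nat_lit 1) (Nat.land (Nat.shiftRight (V (nat_lit 1)) (S (nat_lit 34))) (nat_lit 65535))) (Nat.shiftLeft (nat_lit 1) (Nat.land (Nat.shiftRight (V (nat_lit 1)) (S (nat_lit 44))) (nat_lit 65535))))) (Nat.add (Nat.shiftLeft (nat_lit 1) (Nat.land (Nat.shiftRight (V (nat_lit 1)) (S (nat_lit 46))) (nat_lit 65535))) (Nat.add (Nat.shiftLeft (nat_lit 1) (Nat.land (Nat.shiftRight (V (nat_lit 1)) (S (nat_lit 54))) (nat_lit 65535))) (Nat.shiftLeft (nat_lit 1) (Nat.land (Nat.shiftRight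 (V (nat_lit 1)) (S (nat_lit 57))) (nat_lit 65535))))))) (Nat.add (Nat.add (Nat.add (Nat.shiftLeft (nat_lit 1) (Nat.land (Nat.shiftRight (V (nat_lit 32)) (S (nat_lit 0))) (nat_lit 65535))) (Nat.add (Nat.shiftLeft (nat_lit 1) (Nat.land (Nat.shiftRight (V (nat_lit 32)) (S (nat_lit 1))) (nat_lit 65535))) (Nat.shiftLeft (nat_lit 1) (Nat.land (Nat.shiftRight (V (nat_lit 34)) (S (nat_lit 0))) (nat_lit 65535))))) (Nat.add (Nat.shiftLeft (nat_lit 1) (Nat.land (Nat.shiftRight (V (nat_lit 34)) (S (nat_lit 1))) (nat_lit 65535))) (Nat.add (Nat.shiftLeft (nat_lit 1) (Nat.land (Nat.shiftRight (V (nat_lit 44)) (S (nat_lit 0))) (nat_lit 65535))) (Nat.shiftLeft (nat_lit 1) (Nat.land (Nat.shiftRight (V (nat_lit 44)) (S (nat_lit 1))) (nat_lit 65535)))))) (Nat.add (Nat.add (Nat.shiftLeft (nat_lit 1) (Nat.land (Nat.shiftRight (V (nat_lit 46)) (S (nat_lit 0))) (nat_lit 65535))) (Nat.add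 (Nat.shiftLeft (nat_lit 1) (Nat.land (Nat.shiftRight (V (nat_lit 46)) (S (nat_lit 1))) (nat_lit 65535))) (Nat.shiftLeft (nat_lit 1) (Nat.land (Nat.shiftRight (V (nat_lit 54)) (S (nat_lit 0))) (nat_lit 65535))))) (Nat.add (Nat.shiftLeft (nat_lit 1) (Nat.land (Nat.shiftRight (V (nat_lit 54)) (S (nat_lit 1))) (nat_lit 65535))) (Nat.add (Nat.shiftLeft (nat_lit 1) (Nat.land (Nat.shiftRight (V (nat_lit 57)) (S (nat_lit 0))) (nat_lit 65535))) (Nat.shiftLeft (nat_lit 1) (Nat.land (Nat.shiftRight (V (nat_lit 57)) (S (nat_lit 1))) (nat_lit 65535)))))))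
def E18_2 (V S : ℕ → ℕ) : ℕ := Nat.add (Nat.shiftLeft (nat_lit 1) (Nat.land (Nat.shiftRight (V (nat_lit 12)) (S (nat_lit 12))) (nat_lit 65535))) (Nat.add (Nat.shiftLeft (nat_lit 1) (Nat.land (Nat.shiftRight (V (nat_lit 13)) (S (nat_lit 13))) (nat_lit 65535))) (Nat.shiftLeft (nat_lit 1) (Nat.land (Nat.shiftRight (V (nat_lit 14)) (S (nat_lit 14))) (nat_lit 65535))))
def E20_2 (V S : ℕ → ℕ) : ℕ := Nat.add (Nat.add (Nat.add (Nat.shiftLeft (nat_lit 1) (Nat.land (Nat.shiftRight (V (nat_lit 30)) (S (nat_lit 30))) (nat_lit 65535))) (Nat.add (Nat.shiftLeft (nat_lit 1) (Nat.land (Nat.shiftRight (V (nat_lit 31)) (S (nat_lit 31))) (nat_lit 65535))) (Nat.shiftLeft (nat_lit 1) (Nat.land (Nat.shiftRight (V (nat_lit 33)) (S (nat_lit 33))) (nat_lit 65535))))) (Nat.add (Nat.shiftLeft (nat_lit 1) (Nat.land (Nat.shiftRight (V (nat_lit 35)) (S (nat_lit 35))) (nat_lit 65535))) (Nat.add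 (Nat.shiftLeft (nat_lit 1) (Nat.land (Nat.shiftRight (V (nat_lit 42)) (S (nat_lit 42))) (nat_lit 65535))) (Nat.shiftLeft (nat_lit 1) (Nat.land (Nat.shiftRight (V (nat_lit 43)) (S (nat_lit 43))) (nat_lit 65535)))))) (Nat.add (Nat.add (Nat.shiftLeft (nat_lit 1) (Nat.land (Nat.shiftRight (V (nat_lit 45)) (S (nat_lit 45))) (nat_lit 65535))) (Nat.add (Nat.shiftLeft (nat_lit 1) (Nat.land (Nat.shiftRight (V (nat_lit 47)) (S (nat_lit 47))) (nat_lit 65535))) (Nat.shiftLeft (nat_lit 1) (Nat.land (Nat.shiftRight (V (nat_lit 55)) (S (nat_lit 55))) (nat_lit 65535))))) (Nat.add (Nat.shiftLeft (nat_lit 1) (Nat.land (Nat.shiftRight (V (nat_lit 56)) (S (nat_lit 56))) (nat_lit 65535))) (Nat.add (Nat.shiftLeft (nat_lit 1) (Nat.land (Nat.shiftRight (V (nat_lit 58)) (S (nat_lit 58))) (nat_lit 65535))) (Nat.shiftLeft (nat_lit 1) (Nat.land (Nat.shiftRight (V (nat_lit 59)) (S (nat_lit 59)))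 (nat_lit 65535))))))
def E24_2 (V S : ℕ → ℕ) : ℕ := Nat.add (Nat.add (Nat.shiftLeft (nat_lit 1) (Nat.land (Nat.shiftRight (V (nat_lit 17)) (S (nat_lit 17))) (nat_lit 65535))) (Nat.add (Nat.shiftLeft (nat_lit 1) (Nat.land (Nat.shiftRight (V (nat_lit 20)) (S (nat_lit 20))) (nat_lit 65535))) (Nat.shiftLeft (nat_lit 1) (Nat.land (Nat.shiftRight (V (nat_lit 21)) (S (nat_lit 21))) (nat_lit 65535))))) (Nat.add (Nat.shiftLeft (nat_lit 1) (Nat.land (Nat.shiftRight (V (nat_lit 26)) (S (nat_lit 26))) (nat_lit 65535))) (Nat.add (Nat.shiftLeft (nat_lit 1) (Nat.land (Nat.shiftRight (V (nat_lit 38)) (S (nat_lit 38))) (nat_lit 65535))) (Nat.shiftLeft (nat_lit 1) (Nat.land (Nat.shiftRight (V (nat_lit 48)) (S (nat_lit 48))) (nat_lit 65535)))))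
def E25_2 (V S : ℕ → ℕ) : ℕ := Nat.add (Nat.add (Nat.shiftLeft (nat_lit 1) (Nat.land (Nat.shiftRight (V (nat_lit 32)) (S (nat_lit 32))) (nat_lit 65535))) (Nat.add (Nat.shiftLeft (nat_lit 1) (Nat.land (Nat.shiftRight (V (nat_lit 34)) (S (nat_lit 34))) (nat_lit 65535))) (Nat.shiftLeft (nat_lit 1) (Nat.land (Nat.shiftRight (V (nat_lit 44)) (S (nat_lit 44))) (nat_lit 65535))))) (Nat.add (Nat.shiftLeft (nat_lit 1) (Nat.land (Nat.shiftRight (V (nat_lit 46)) (S (nat_lit 46))) (nat_lit 65535))) (Nat.add (Nat.shiftLeft (nat_lit 1) (Nat.land (Nat.shiftRight (V (nat_lit 54)) (S (nat_lit 54))) (nat_lit 65535))) (Nat.shiftLeft (nat_lit 1) (Nat.land (Nat.shiftRight (V (nat_lit 57)) (S (nat_lit 57))) (nat_lit 65535)))))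
def E30_2 (V S : ℕ → ℕ) : ℕ := Nat.add (Nat.add (Nat.add (Nat.add (Nat.add (Nat.shiftLeft (nat_lit 1) (Nat.land (Nat.shiftRight (V (nat_lit 2)) (S (nat_lit 3))) (nat_lit 65535))) (Nat.add (Nat.shiftLeft (nat_lit 1) (Nat.land (Nat.shiftRight (V (nat_lit 2)) (S (nat_lit 4))) (nat_lit 65535))) (Nat.shiftLeft (nat_lit 1) (Nat.land (Nat.shiftRight (V (nat_lit 2)) (S (nat_lit 5))) (nat_lit 65535))))) (Nat.add (Nat.add (Nat.shiftLeft (nat_lit 1) (Nat.land (Nat.shiftRight (V (nat_lit 2)) (S (nat_lit 6))) (nat_lit 65535))) (Nat.shiftLeft (nat_lit 1) (Nat.land (Nat.shiftRight (V (nat_lit 2)) (S (nat_lit 7))) (nat_lit 65535)))) (Nat.add (Nat.shiftLeft (nat_lit 1) (Nat.land (Nat.shiftRight (V (nat_lit 2)) (S (nat_lit 8))) (nat_lit 65535))) (Nat.shiftLeft (nat_lit 1) (Nat.land (Nat.shiftRight (V (nat_lit 2)) (S (nat_lit 9))) (nat_lit 65535)))))) (Nat.add (Nat.add (Nat.add (Nat.shiftLeft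 (nat_lit 1) (Nat.land (Nat.shiftRight (V (nat_lit 2)) (S (nat_lit 10))) (nat_lit 65535))) (Nat.shiftLeft (nat_lit 1) (Nat.land (Nat.shiftRight (V (nat_lit 2)) (S (nat_lit 11))) (nat_lit 65535)))) (Nat.add (Nat.shiftLeft (nat_lit 1) (Nat.land (Nat.shiftRight (V (nat_lit 2)) (S (nat_lit 27))) (nat_lit 65535))) (Nat.shiftLeft (nat_lit 1) (Nat.land (Nat.shiftRight (V (nat_lit 2)) (S (nat_lit 28))) (nat_lit 65535))))) (Nat.add (Nat.add (Nat.shiftLeft (nat_lit 1) (Nat.land (Nat.shiftRight (V (nat_lit 2)) (S (nat_lit 29))) (nat_lit 65535))) (Nat.shiftLeft (nat_lit 1) (Nat.land (Nat.shiftRight (V (nat_lit 2)) (S (nat_lit 39))) (nat_lit 65535)))) (Nat.add (Nat.shiftLeft (nat_lit 1) (Nat.land (Nat.shiftRight (V (nat_lit 2)) (S (nat_lit 40))) (nat_lit 65535))) (Nat.shiftLeft (nat_lit 1) (Nat.land (Nat.shiftRight (V (nat_lit 2)) (S (nat_lit 41))) (nat_lit 65535))))))) (Nat.add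 (Nat.add (Nat.add (Nat.shiftLeft (nat_lit 1) (Nat.land (Nat.shiftRight (V (nat_lit 2)) (S (nat_lit 51))) (nat_lit 65535))) (Nat.add (Nat.shiftLeft (nat_lit 1) (Nat.land (Nat.shiftRight (V (nat_lit 2)) (S (nat_lit 52))) (nat_lit 65535))) (Nat.shiftLeft (nat_lit 1) (Nat.land (Nat.shiftRight (V (nat_lit 2)) (S (nat_lit 53))) (nat_lit 65535))))) (Nat.add (Nat.add (Nat.shiftLeft (nat_lit 1) (Nat.land (Nat.shiftRight (V (nat_lit 3)) (S (nat_lit 2))) (nat_lit 65535))) (Nat.shiftLeft (nat_lit 1) (Nat.land (Nat.shiftRight (V (nat_lit 3)) (S (nat_lit 7))) (nat_lit 65535)))) (Nat.add (Nat.shiftLeft (nat_lit 1) (Nat.land (Nat.shiftRight (V (nat_lit 4)) (S (nat_lit 2))) (nat_lit 65535))) (Nat.shiftLeft (nat_lit 1) (Nat.land (Nat.shiftRight (V (nat_lit 4)) (S (nat_lit 6))) (nat_lit 65535)))))) (Nat.add (Nat.add (Nat.add (Nat.shiftLeft (nat_lit 1) (Nat.land (Nat.shiftRight (V (nat_lit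 4)) (S (nat_lit 11))) (nat_lit 65535))) (Nat.shiftLeft (nat_lit 1) (Nat.land (Nat.shiftRight (V (nat_lit 5)) (S (nat_lit 2))) (nat_lit 65535)))) (Nat.add (Nat.shiftLeft (nat_lit 1) (Nat.land (Nat.shiftRight (V (nat_lit 5)) (S (nat_lit 9))) (nat_lit 65535))) (Nat.shiftLeft (nat_lit 1) (Nat.land (Nat.shiftRight (V (nat_lit 6)) (S (nat_lit 2))) (nat_lit 65535))))) (Nat.add (Nat.add (Nat.shiftLeft (nat_lit 1) (Nat.land (Nat.shiftRight (V (nat_lit 6)) (S (nat_lit 4))) (nat_lit 65535))) (Nat.shiftLeft (nat_lit 1) (Nat.land (Nat.shiftRight (V (nat_lit 7)) (S (nat_lit 2))) (nat_lit 65535)))) (Nat.add (Nat.shiftLeft (nat_lit 1) (Nat.land (Nat.shiftRight (V (nat_lit 7)) (S (nat_lit 3))) (nat_lit 65535))) (Nat.shiftLeft (nat_lit 1) (Nat.land (Nat.shiftRight (V (nat_lit 7)) (S (nat_lit 10))) (nat_lit 65535)))))))) (Nat.add (Nat.add (Nat.add (Nat.add (Nat.shiftLeft (nat_lit 1)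 (Nat.land (Nat.shiftRight (V (nat_lit 8)) (S (nat_lit 2))) (nat_lit 65535))) (Nat.add (Nat.shiftLeft (nat_lit 1) (Nat.land (Nat.shiftRight (V (nat_lit 8)) (S (nat_lit 9))) (nat_lit 65535))) (Nat.shiftLeft (nat_lit 1) (Nat.land (Nat.shiftRight (V (nat_lit 9)) (S (nat_lit 2))) (nat_lit 65535))))) (Nat.add (Nat.add (Nat.shiftLeft (nat_lit 1) (Nat.land (Nat.shiftRight (V (nat_lit 9)) (S (nat_lit 5))) (nat_lit 65535))) (Nat.shiftLeft (nat_lit 1) (Nat.land (Nat.shiftRight (V (nat_lit 9)) (S (nat_lit 8))) (nat_lit 65535)))) (Nat.add (Nat.shiftLeft (nat_lit 1) (Nat.land (Nat.shiftRight (V (nat_lit 10)) (S (nat_lit 2))) (nat_lit 65535))) (Nat.shiftLeft (nat_lit 1) (Nat.land (Nat.shiftRight (V (nat_lit 10)) (S (nat_lit 7))) (nat_lit 65535)))))) (Nat.add (Nat.add (Nat.add (Nat.shiftLeft (nat_lit 1) (Nat.land (Nat.shiftRight (V (nat_lit 11)) (S (nat_lit 2))) (nat_lit 65535)))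 (Nat.shiftLeft (nat_lit 1) (Nat.land (Nat.shiftRight (V (nat_lit 11)) (S (nat_lit 4))) (nat_lit 65535)))) (Nat.add (Nat.shiftLeft (nat_lit 1) (Nat.land (Nat.shiftRight (V (nat_lit 27)) (S (nat_lit 2))) (nat_lit 65535))) (Nat.shiftLeft (nat_lit 1) (Nat.land (Nat.shiftRight (V (nat_lit 27)) (S (nat_lit 40))) (nat_lit 65535))))) (Nat.add (Nat.add (Nat.shiftLeft (nat_lit 1) (Nat.land (Nat.shiftRight (V (nat_lit 28)) (S (nat_lit 2))) (nat_lit 65535))) (Nat.shiftLeft (nat_lit 1) (Nat.land (Nat.shiftRight (V (nat_lit 28)) (S (nat_lit 39))) (nat_lit 65535)))) (Nat.add (Nat.shiftLeft (nat_lit 1) (Nat.land (Nat.shiftRight (V (nat_lit 28)) (S (nat_lit 53))) (nat_lit 65535))) (Nat.shiftLeft (nat_lit 1) (Nat.land (Nat.shiftRight (V (nat_lit 29)) (S (nat_lit 2))) (nat_lit 65535))))))) (Nat.add (Nat.add (Nat.add (Nat.shiftLeft (nat_lit 1) (Nat.land (Nat.shiftRight (V (nat_lit 29))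 (S (nat_lit 51))) (nat_lit 65535))) (Nat.add (Nat.shiftLeft (nat_lit 1) (Nat.land (Nat.shiftRight (V (nat_lit 39)) (S (nat_lit 2))) (nat_lit 65535))) (Nat.shiftLeft (nat_lit 1) (Nat.land (Nat.shiftRight (V (nat_lit 39)) (S (nat_lit 28))) (nat_lit 65535))))) (Nat.add (Nat.add (Nat.shiftLeft (nat_lit 1) (Nat.land (Nat.shiftRight (V (nat_lit 40)) (S (nat_lit 2))) (nat_lit 65535))) (Nat.shiftLeft (nat_lit 1) (Nat.land (Nat.shiftRight (V (nat_lit 40)) (S (nat_lit 27))) (nat_lit 65535)))) (Nat.add (Nat.shiftLeft (nat_lit 1) (Nat.land (Nat.shiftRight (V (nat_lit 40)) (S (nat_lit 52))) (nat_lit 65535))) (Nat.shiftLeft (nat_lit 1) (Nat.land (Nat.shiftRight (V (nat_lit 41)) (S (nat_lit 2))) (nat_lit 65535)))))) (Nat.add (Nat.add (Nat.add (Nat.shiftLeft (nat_lit 1) (Nat.land (Nat.shiftRight (V (nat_lit 41)) (S (nat_lit 51))) (nat_lit 65535))) (Nat.shiftLeft (nat_lit 1) (Nat.land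 (Nat.shiftRight (V (nat_lit 51)) (S (nat_lit 2))) (nat_lit 65535)))) (Nat.add (Nat.shiftLeft (nat_lit 1) (Nat.land (Nat.shiftRight (V (nat_lit 51)) (S (nat_lit 29))) (nat_lit 65535))) (Nat.shiftLeft (nat_lit 1) (Nat.land (Nat.shiftRight (V (nat_lit 51)) (S (nat_lit 41))) (nat_lit 65535))))) (Nat.add (Nat.add (Nat.shiftLeft (nat_lit 1) (Nat.land (Nat.shiftRight (V (nat_lit 52)) (S (nat_lit 2))) (nat_lit 65535))) (Nat.shiftLeft (nat_lit 1) (Nat.land (Nat.shiftRight (V (nat_lit 52)) (S (nat_lit 40))) (nat_lit 65535)))) (Nat.add (Nat.shiftLeft (nat_lit 1) (Nat.land (Nat.shiftRight (V (nat_lit 53)) (S (nat_lit 2))) (nat_lit 65535))) (Nat.shiftLeft (nat_lit 1) (Nat.land (Nat.shiftRight (V (nat_lit 53)) (S (nat_lit 28))) (nat_lit 65535))))))))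
def E31_2 (V S : ℕ → ℕ) : ℕ := Nat.add (Nat.add (Nat.shiftLeft (nat_lit 1) (Nat.land (Nat.shiftRight (V (nat_lit 2)) (S (nat_lit 12))) (nat_lit 65535))) (Nat.add (Nat.shiftLeft (nat_lit 1) (Nat.land (Nat.shiftRight (V (nat_lit 2)) (S (nat_lit 13))) (nat_lit 65535))) (Nat.shiftLeft (nat_lit 1) (Nat.land (Nat.shiftRight (V (nat_lit 2)) (S (nat_lit 14))) (nat_lit 65535))))) (Nat.add (Nat.shiftLeft (nat_lit 1) (Nat.land (Nat.shiftRight (V (nat_lit 12)) (S (nat_lit 2))) (nat_lit 65535))) (Nat.add (Nat.shiftLeft (nat_lit 1) (Nat.land (Nat.shiftRight (V (nat_lit 13)) (S (nat_lit 2))) (nat_lit 65535))) (Nat.shiftLeft (nat_lit 1) (Nat.land (Nat.shiftRight (V (nat_lit 14)) (S (nat_lit 2))) (nat_lit 65535)))))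
def E32_2 (V S : ℕ → ℕ) : ℕ := Nat.add (Nat.add (Nat.add (Nat.add (Nat.add (Nat.shiftLeft (nat_lit 1) (Nat.land (Nat.shiftRight (V (nat_lit 2)) (S (nat_lit 15))) (nat_lit 65535))) (Nat.add (Nat.shiftLeft (nat_lit 1) (Nat.land (Nat.shiftRight (V (nat_lit 2)) (S (nat_lit 16))) (nat_lit 65535))) (Nat.shiftLeft (nat_lit 1) (Nat.land (Nat.shiftRight (V (nat_lit 2)) (S (nat_lit 17))) (nat_lit 65535))))) (Nat.add (Nat.shiftLeft (nat_lit 1) (Nat.land (Nat.shiftRight (V (nat_lit 2)) (S (nat_lit 18))) (nat_lit 65535))) (Nat.add (Nat.shiftLeft (nat_lit 1) (Nat.land (Nat.shiftRight (V (nat_lit 2)) (S (nat_lit 19))) (nat_lit 65535))) (Nat.shiftLeft (nat_lit 1) (Nat.land (Nat.shiftRight (V (nat_lit 2)) (S (nat_lit 20))) (nat_lit 65535)))))) (Nat.add (Nat.add (Nat.shiftLeft (nat_lit 1) (Nat.land (Nat.shiftRight (V (nat_lit 2)) (S (nat_lit 21))) (nat_lit 65535))) (Nat.add (Nat.shiftLeft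 (nat_lit 1) (Nat.land (Nat.shiftRight (V (nat_lit 2)) (S (nat_lit 22))) (nat_lit 65535))) (Nat.shiftLeft (nat_lit 1) (Nat.land (Nat.shiftRight (V (nat_lit 2)) (S (nat_lit 23))) (nat_lit 65535))))) (Nat.add (Nat.shiftLeft (nat_lit 1) (Nat.land (Nat.shiftRight (V (nat_lit 2)) (S (nat_lit 24))) (nat_lit 65535))) (Nat.add (Nat.shiftLeft (nat_lit 1) (Nat.land (Nat.shiftRight (V (nat_lit 2)) (S (nat_lit 25))) (nat_lit 65535))) (Nat.shiftLeft (nat_lit 1) (Nat.land (Nat.shiftRight (V (nat_lit 2)) (S (nat_lit 26))) (nat_lit 65535))))))) (Nat.add (Nat.add (Nat.add (Nat.shiftLeft (nat_lit 1) (Nat.land (Nat.shiftRight (V (nat_lit 2)) (S (nat_lit 36))) (nat_lit 65535))) (Nat.add (Nat.shiftLeft (nat_lit 1) (Nat.land (Nat.shiftRight (V (nat_lit 2)) (S (nat_lit 37))) (nat_lit 65535))) (Nat.shiftLeft (nat_lit 1) (Nat.land (Nat.shiftRight (V (nat_lit 2)) (S (nat_lit 38))) (nat_lit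 65535))))) (Nat.add (Nat.shiftLeft (nat_lit 1) (Nat.land (Nat.shiftRight (V (nat_lit 2)) (S (nat_lit 48))) (nat_lit 65535))) (Nat.add (Nat.shiftLeft (nat_lit 1) (Nat.land (Nat.shiftRight (V (nat_lit 2)) (S (nat_lit 49))) (nat_lit 65535))) (Nat.shiftLeft (nat_lit 1) (Nat.land (Nat.shiftRight (V (nat_lit 2)) (S (nat_lit 50))) (nat_lit 65535)))))) (Nat.add (Nat.add (Nat.shiftLeft (nat_lit 1) (Nat.land (Nat.shiftRight (V (nat_lit 15)) (S (nat_lit 2))) (nat_lit 65535))) (Nat.add (Nat.shiftLeft (nat_lit 1) (Nat.land (Nat.shiftRight (V (nat_lit 15)) (S (nat_lit 24))) (nat_lit 65535))) (Nat.shiftLeft (nat_lit 1) (Nat.land (Nat.shiftRight (V (nat_lit 16)) (S (nat_lit 2))) (nat_lit 65535))))) (Nat.add (Nat.shiftLeft (nat_lit 1) (Nat.land (Nat.shiftRight (V (nat_lit 16)) (S (nat_lit 25))) (nat_lit 65535))) (Nat.add (Nat.shiftLeft (nat_lit 1) (Nat.land (Nat.shiftRight (V (nat_lit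 17)) (S (nat_lit 2))) (nat_lit 65535))) (Nat.shiftLeft (nat_lit 1) (Nat.land (Nat.shiftRight (V (nat_lit 18)) (S (nat_lit 2))) (nat_lit 65535)))))))) (Nat.add (Nat.add (Nat.add (Nat.add (Nat.shiftLeft (nat_lit 1) (Nat.land (Nat.shiftRight (V (nat_lit 18)) (S (nat_lit 36))) (nat_lit 65535))) (Nat.add (Nat.shiftLeft (nat_lit 1) (Nat.land (Nat.shiftRight (V (nat_lit 19)) (S (nat_lit 2))) (nat_lit 65535))) (Nat.shiftLeft (nat_lit 1) (Nat.land (Nat.shiftRight (V (nat_lit 19)) (S (nat_lit 37))) (nat_lit 65535))))) (Nat.add (Nat.shiftLeft (nat_lit 1) (Nat.land (Nat.shiftRight (V (nat_lit 20)) (S (nat_lit 2))) (nat_lit 65535))) (Nat.add (Nat.shiftLeft (nat_lit 1) (Nat.land (Nat.shiftRight (V (nat_lit 21)) (S (nat_lit 2))) (nat_lit 65535))) (Nat.shiftLeft (nat_lit 1) (Nat.land (Nat.shiftRight (V (nat_lit 22)) (S (nat_lit 2))) (nat_lit 65535)))))) (Nat.add (Nat.add (Nat.shiftLeft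 (nat_lit 1) (Nat.land (Nat.shiftRight (V (nat_lit 22)) (S (nat_lit 49))) (nat_lit 65535))) (Nat.add (Nat.shiftLeft (nat_lit 1) (Nat.land (Nat.shiftRight (V (nat_lit 23)) (S (nat_lit 2))) (nat_lit 65535))) (Nat.shiftLeft (nat_lit 1) (Nat.land (Nat.shiftRight (V (nat_lit 23)) (S (nat_lit 50))) (nat_lit 65535))))) (Nat.add (Nat.shiftLeft (nat_lit 1) (Nat.land (Nat.shiftRight (V (nat_lit 24)) (S (nat_lit 2))) (nat_lit 65535))) (Nat.add (Nat.shiftLeft (nat_lit 1) (Nat.land (Nat.shiftRight (V (nat_lit 24)) (S (nat_lit 15))) (nat_lit 65535))) (Nat.shiftLeft (nat_lit 1) (Nat.land (Nat.shiftRight (V (nat_lit 25)) (S (nat_lit 2))) (nat_lit 65535))))))) (Nat.add (Nat.add (Nat.add (Nat.shiftLeft (nat_lit 1) (Nat.land (Nat.shiftRight (V (nat_lit 25)) (S (nat_lit 16))) (nat_lit 65535))) (Nat.add (Nat.shiftLeft (nat_lit 1) (Nat.land (Nat.shiftRight (V (nat_lit 26)) (S (nat_lit 2)))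 (nat_lit 65535))) (Nat.shiftLeft (nat_lit 1) (Nat.land (Nat.shiftRight (V (nat_lit 36)) (S (nat_lit 2))) (nat_lit 65535))))) (Nat.add (Nat.shiftLeft (nat_lit 1) (Nat.land (Nat.shiftRight (V (nat_lit 36)) (S (nat_lit 18))) (nat_lit 65535))) (Nat.add (Nat.shiftLeft (nat_lit 1) (Nat.land (Nat.shiftRight (V (nat_lit 37)) (S (nat_lit 2))) (nat_lit 65535))) (Nat.shiftLeft (nat_lit 1) (Nat.land (Nat.shiftRight (V (nat_lit 37)) (S (nat_lit 19))) (nat_lit 65535)))))) (Nat.add (Nat.add (Nat.shiftLeft (nat_lit 1) (Nat.land (Nat.shiftRight (V (nat_lit 38)) (S (nat_lit 2))) (nat_lit 65535))) (Nat.add (Nat.shiftLeft (nat_lit 1) (Nat.land (Nat.shiftRight (V (nat_lit 48)) (S (nat_lit 2))) (nat_lit 65535))) (Nat.shiftLeft (nat_lit 1) (Nat.land (Nat.shiftRight (V (nat_lit 49)) (S (nat_lit 2))) (nat_lit 65535))))) (Nat.add (Nat.shiftLeft (nat_lit 1) (Nat.land (Nat.shiftRight (V (nat_lit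 49)) (S (nat_lit 22))) (nat_lit 65535))) (Nat.add (Nat.shiftLeft (nat_lit 1) (Nat.land (Nat.shiftRight (V (nat_lit 50)) (S (nat_lit 2))) (nat_lit 65535))) (Nat.shiftLeft (nat_lit 1) (Nat.land (Nat.shiftRight (V (nat_lit 50)) (S (nat_lit 23))) (nat_lit 65535))))))))
def E33_2 (V S : ℕ → ℕ) : ℕ := Nat.add (Nat.add (Nat.add (Nat.add (Nat.add (Nat.shiftLeft (nat_lit 1) (Nat.land (Nat.shiftRight (V (nat_lit 2)) (S (nat_lit 30))) (nat_lit 65535))) (Nat.shiftLeft (nat_lit 1) (Nat.land (Nat.shiftRight (V (nat_lit 2)) (S (nat_lit 31))) (nat_lit 65535)))) (Nat.add (Nat.shiftLeft (nat_lit 1) (Nat.land (Nat.shiftRight (V (nat_lit 2)) (S (nat_lit 32))) (nat_lit 65535))) (Nat.shiftLeft (nat_lit 1) (Nat.land (Nat.shiftRight (V (nat_lit 2)) (S (nat_lit 33))) (nat_lit 65535))))) (Nat.add (Nat.add (Nat.shiftLeft (nat_lit 1) (Nat.land (Nat.shiftRight (V (nat_lit 2)) (S (nat_lit 34)))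 (nat_lit 65535))) (Nat.shiftLeft (nat_lit 1) (Nat.land (Nat.shiftRight (V (nat_lit 2)) (S (nat_lit 35))) (nat_lit 65535)))) (Nat.add (Nat.shiftLeft (nat_lit 1) (Nat.land (Nat.shiftRight (V (nat_lit 2)) (S (nat_lit 42))) (nat_lit 65535))) (Nat.add (Nat.shiftLeft (nat_lit 1) (Nat.land (Nat.shiftRight (V (nat_lit 2)) (S (nat_lit 43))) (nat_lit 65535))) (Nat.shiftLeft (nat_lit 1) (Nat.land (Nat.shiftRight (V (nat_lit 2)) (S (nat_lit 44))) (nat_lit 65535))))))) (Nat.add (Nat.add (Nat.add (Nat.shiftLeft (nat_lit 1) (Nat.land (Nat.shiftRight (V (nat_lit 2)) (S (nat_lit 45))) (nat_lit 65535))) (Nat.shiftLeft (nat_lit 1) (Nat.land (Nat.shiftRight (V (nat_lit 2)) (S (nat_lit 46))) (nat_lit 65535)))) (Nat.add (Nat.shiftLeft (nat_lit 1) (Nat.land (Nat.shiftRight (V (nat_lit 2)) (S (nat_lit 47))) (nat_lit 65535))) (Nat.shiftLeft (nat_lit 1) (Nat.land (Nat.shiftRight (V (nat_lit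 2)) (S (nat_lit 54))) (nat_lit 65535))))) (Nat.add (Nat.add (Nat.shiftLeft (nat_lit 1) (Nat.land (Nat.shiftRight (V (nat_lit 2)) (S (nat_lit 55))) (nat_lit 65535))) (Nat.shiftLeft (nat_lit 1) (Nat.land (Nat.shiftRight (V (nat_lit 2)) (S (nat_lit 56))) (nat_lit 65535)))) (Nat.add (Nat.shiftLeft (nat_lit 1) (Nat.land (Nat.shiftRight (V (nat_lit 2)) (S (nat_lit 57))) (nat_lit 65535))) (Nat.add (Nat.shiftLeft (nat_lit 1) (Nat.land (Nat.shiftRight (V (nat_lit 2)) (S (nat_lit 58))) (nat_lit 65535))) (Nat.shiftLeft (nat_lit 1) (Nat.land (Nat.shiftRight (V (nat_lit 2)) (S (nat_lit 59))) (nat_lit 65535)))))))) (Nat.add (Nat.add (Nat.add (Nat.add (Nat.shiftLeft (nat_lit 1) (Nat.land (Nat.shiftRight (V (nat_lit 30)) (S (nat_lit 2))) (nat_lit 65535))) (Nat.shiftLeft (nat_lit 1) (Nat.land (Nat.shiftRight (V (nat_lit 31)) (S (nat_lit 2))) (nat_lit 65535)))) (Nat.add (Nat.shiftLeft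 (nat_lit 1) (Nat.land (Nat.shiftRight (V (nat_lit 32)) (S (nat_lit 2))) (nat_lit 65535))) (Nat.shiftLeft (nat_lit 1) (Nat.land (Nat.shiftRight (V (nat_lit 33)) (S (nat_lit 2))) (nat_lit 65535))))) (Nat.add (Nat.add (Nat.shiftLeft (nat_lit 1) (Nat.land (Nat.shiftRight (V (nat_lit 34)) (S (nat_lit 2))) (nat_lit 65535))) (Nat.shiftLeft (nat_lit 1) (Nat.land (Nat.shiftRight (V (nat_lit 35)) (S (nat_lit 2))) (nat_lit 65535)))) (Nat.add (Nat.shiftLeft (nat_lit 1) (Nat.land (Nat.shiftRight (V (nat_lit 42)) (S (nat_lit 2))) (nat_lit 65535))) (Nat.add (Nat.shiftLeft (nat_lit 1) (Nat.land (Nat.shiftRight (V (nat_lit 43)) (S (nat_lit 2))) (nat_lit 65535))) (Nat.shiftLeft (nat_lit 1) (Nat.land (Nat.shiftRight (V (nat_lit 44)) (S (nat_lit 2))) (nat_lit 65535))))))) (Nat.add (Nat.add (Nat.add (Nat.shiftLeft (nat_lit 1) (Nat.land (Nat.shiftRight (V (nat_lit 45)) (S (nat_lit 2)))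 (nat_lit 65535))) (Nat.shiftLeft (nat_lit 1) (Nat.land (Nat.shiftRight (V (nat_lit 46)) (S (nat_lit 2))) (nat_lit 65535)))) (Nat.add (Nat.shiftLeft (nat_lit 1) (Nat.land (Nat.shiftRight (V (nat_lit 47)) (S (nat_lit 2))) (nat_lit 65535))) (Nat.shiftLeft (nat_lit 1) (Nat.land (Nat.shiftRight (V (nat_lit 54)) (S (nat_lit 2))) (nat_lit 65535))))) (Nat.add (Nat.add (Nat.shiftLeft (nat_lit 1) (Nat.land (Nat.shiftRight (V (nat_lit 55)) (S (nat_lit 2))) (nat_lit 65535))) (Nat.shiftLeft (nat_lit 1) (Nat.land (Nat.shiftRight (V (nat_lit 56)) (S (nat_lit 2))) (nat_lit 65535)))) (Nat.add (Nat.shiftLeft (nat_lit 1) (Nat.land (Nat.shiftRight (V (nat_lit 57)) (S (nat_lit 2))) (nat_lit 65535))) (Nat.add (Nat.shiftLeft (nat_lit 1) (Nat.land (Nat.shiftRight (V (nat_lit 58)) (S (nat_lit 2))) (nat_lit 65535))) (Nat.shiftLeft (nat_lit 1) (Nat.land (Nat.shiftRight (V (nat_lit 59)) (S (nat_lit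 2))) (nat_lit 65535))))))))
def E34_2 (V S : ℕ → ℕ) : ℕ := Nat.add (Nat.add (Nat.add (Nat.add (Nat.add (Nat.shiftLeft (nat_lit 1) (Nat.land (Nat.shiftRight (V (nat_lit 3)) (S (nat_lit 4))) (nat_lit 65535))) (Nat.add (Nat.shiftLeft (nat_lit 1) (Nat.land (Nat.shiftRight (V (nat_lit 3)) (S (nat_lit 9))) (nat_lit 65535))) (Nat.shiftLeft (nat_lit 1) (Nat.land (Nat.shiftRight (V (nat_lit 4)) (S (nat_lit 3))) (nat_lit 65535))))) (Nat.add (Nat.add (Nat.shiftLeft (nat_lit 1) (Nat.land (Nat.shiftRight (V (nat_lit 4)) (S (nat_lit 5))) (nat_lit 65535))) (Nat.shiftLeft (nat_lit 1) (Nat.land (Nat.shiftRight (V (nat_lit 4)) (S (nat_lit 7))) (nat_lit 65535)))) (Nat.add (Nat.shiftLeft (nat_lit 1) (Nat.land (Nat.shiftRight (V (nat_lit 4)) (S (nat_lit 8))) (nat_lit 65535))) (Nat.shiftLeft (nat_lit 1) (Nat.land (Nat.shiftRight (V (nat_lit 4)) (S (nat_lit 9))) (nat_lit 65535)))))) (Nat.add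 (Nat.add (Nat.add (Nat.shiftLeft (nat_lit 1) (Nat.land (Nat.shiftRight (V (nat_lit 4)) (S (nat_lit 10))) (nat_lit 65535))) (Nat.shiftLeft (nat_lit 1) (Nat.land (Nat.shiftRight (V (nat_lit 5)) (S (nat_lit 4))) (nat_lit 65535)))) (Nat.add (Nat.shiftLeft (nat_lit 1) (Nat.land (Nat.shiftRight (V (nat_lit 5)) (S (nat_lit 7))) (nat_lit 65535))) (Nat.shiftLeft (nat_lit 1) (Nat.land (Nat.shiftRight (V (nat_lit 6)) (S (nat_lit 7))) (nat_lit 65535))))) (Nat.add (Nat.add (Nat.shiftLeft (nat_lit 1) (Nat.land (Nat.shiftRight (V (nat_lit 6)) (S (nat_lit 9))) (nat_lit 65535))) (Nat.shiftLeft (nat_lit 1) (Nat.land (Nat.shiftRight (V (nat_lit 7)) (S (nat_lit 4))) (nat_lit 65535)))) (Nat.add (Nat.shiftLeft (nat_lit 1) (Nat.land (Nat.shiftRight (V (nat_lit 7)) (S (nat_lit 5))) (nat_lit 65535))) (Nat.shiftLeft (nat_lit 1) (Nat.land (Nat.shiftRight (V (nat_lit 7)) (S (nat_lit 6))) (nat_lit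 65535))))))) (Nat.add (Nat.add (Nat.add (Nat.shiftLeft (nat_lit 1) (Nat.land (Nat.shiftRight (V (nat_lit 7)) (S (nat_lit 8))) (nat_lit 65535))) (Nat.add (Nat.shiftLeft (nat_lit 1) (Nat.land (Nat.shiftRight (V (nat_lit 7)) (S (nat_lit 9))) (nat_lit 65535))) (Nat.shiftLeft (nat_lit 1) (Nat.land (Nat.shiftRight (V (nat_lit 7)) (S (nat_lit 11))) (nat_lit 65535))))) (Nat.add (Nat.add (Nat.shiftLeft (nat_lit 1) (Nat.land (Nat.shiftRight (V (nat_lit 8)) (S (nat_lit 4))) (nat_lit 65535))) (Nat.shiftLeft (nat_lit 1) (Nat.land (Nat.shiftRight (V (nat_lit 8)) (S (nat_lit 7))) (nat_lit 65535)))) (Nat.add (Nat.shiftLeft (nat_lit 1) (Nat.land (Nat.shiftRight (V (nat_lit 9)) (S (nat_lit 3))) (nat_lit 65535))) (Nat.shiftLeft (nat_lit 1) (Nat.land (Nat.shiftRight (V (nat_lit 9)) (S (nat_lit 4))) (nat_lit 65535)))))) (Nat.add (Nat.add (Nat.add (Nat.shiftLeft (nat_lit 1) (Nat.land (Nat.shiftRight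 (V (nat_lit 9)) (S (nat_lit 6))) (nat_lit 65535))) (Nat.shiftLeft (nat_lit 1) (Nat.land (Nat.shiftRight (V (nat_lit 9)) (S (nat_lit 7))) (nat_lit 65535)))) (Nat.add (Nat.shiftLeft (nat_lit 1) (Nat.land (Nat.shiftRight (V (nat_lit 9)) (S (nat_lit 10))) (nat_lit 65535))) (Nat.shiftLeft (nat_lit 1) (Nat.land (Nat.shiftRight (V (nat_lit 9)) (S (nat_lit 11))) (nat_lit 65535))))) (Nat.add (Nat.add (Nat.shiftLeft (nat_lit 1) (Nat.land (Nat.shiftRight (V (nat_lit 10)) (S (nat_lit 4))) (nat_lit 65535))) (Nat.shiftLeft (nat_lit 1) (Nat.land (Nat.shiftRight (V (nat_lit 10)) (S (nat_lit 9))) (nat_lit 65535)))) (Nat.add (Nat.shiftLeft (nat_lit 1) (Nat.land (Nat.shiftRight (V (nat_lit 11)) (S (nat_lit 7))) (nat_lit 65535))) (Nat.shiftLeft (nat_lit 1) (Nat.land (Nat.shiftRight (V (nat_lit 11)) (S (nat_lit 9))) (nat_lit 65535)))))))) (Nat.add (Nat.add (Nat.add (Nat.add (Nat.shiftLeft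 (nat_lit 1) (Nat.land (Nat.shiftRight (V (nat_lit 27)) (S (nat_lit 28))) (nat_lit 65535))) (Nat.add (Nat.shiftLeft (nat_lit 1) (Nat.land (Nat.shiftRight (V (nat_lit 27)) (S (nat_lit 51))) (nat_lit 65535))) (Nat.shiftLeft (nat_lit 1) (Nat.land (Nat.shiftRight (V (nat_lit 28)) (S (nat_lit 27))) (nat_lit 65535))))) (Nat.add (Nat.add (Nat.shiftLeft (nat_lit 1) (Nat.land (Nat.shiftRight (V (nat_lit 28)) (S (nat_lit 29))) (nat_lit 65535))) (Nat.shiftLeft (nat_lit 1) (Nat.land (Nat.shiftRight (V (nat_lit 28)) (S (nat_lit 40))) (nat_lit 65535)))) (Nat.add (Nat.shiftLeft (nat_lit 1) (Nat.land (Nat.shiftRight (V (nat_lit 28)) (S (nat_lit 41))) (nat_lit 65535))) (Nat.shiftLeft (nat_lit 1) (Nat.land (Nat.shiftRight (V (nat_lit 28)) (S (nat_lit 51))) (nat_lit 65535)))))) (Nat.add (Nat.add (Nat.add (Nat.shiftLeft (nat_lit 1) (Nat.land (Nat.shiftRight (V (nat_lit 28)) (S (nat_lit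 52))) (nat_lit 65535))) (Nat.shiftLeft (nat_lit 1) (Nat.land (Nat.shiftRight (V (nat_lit 29)) (S (nat_lit 28))) (nat_lit 65535)))) (Nat.add (Nat.shiftLeft (nat_lit 1) (Nat.land (Nat.shiftRight (V (nat_lit 29)) (S (nat_lit 40))) (nat_lit 65535))) (Nat.shiftLeft (nat_lit 1) (Nat.land (Nat.shiftRight (V (nat_lit 39)) (S (nat_lit 40))) (nat_lit 65535))))) (Nat.add (Nat.add (Nat.shiftLeft (nat_lit 1) (Nat.land (Nat.shiftRight (V (nat_lit 39)) (S (nat_lit 51))) (nat_lit 65535))) (Nat.shiftLeft (nat_lit 1) (Nat.land (Nat.shiftRight (V (nat_lit 40)) (S (nat_lit 28))) (nat_lit 65535)))) (Nat.add (Nat.shiftLeft (nat_lit 1) (Nat.land (Nat.shiftRight (V (nat_lit 40)) (S (nat_lit 29))) (nat_lit 65535))) (Nat.shiftLeft (nat_lit 1) (Nat.land (Nat.shiftRight (V (nat_lit 40)) (S (nat_lit 39))) (nat_lit 65535))))))) (Nat.add (Nat.add (Nat.add (Nat.shiftLeft (nat_lit 1) (Nat.land (Nat.shiftRight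 (V (nat_lit 40)) (S (nat_lit 41))) (nat_lit 65535))) (Nat.add (Nat.shiftLeft (nat_lit 1) (Nat.land (Nat.shiftRight (V (nat_lit 40)) (S (nat_lit 51))) (nat_lit 65535))) (Nat.shiftLeft (nat_lit 1) (Nat.land (Nat.shiftRight (V (nat_lit 40)) (S (nat_lit 53))) (nat_lit 65535))))) (Nat.add (Nat.add (Nat.shiftLeft (nat_lit 1) (Nat.land (Nat.shiftRight (V (nat_lit 41)) (S (nat_lit 28))) (nat_lit 65535))) (Nat.shiftLeft (nat_lit 1) (Nat.land (Nat.shiftRight (V (nat_lit 41)) (S (nat_lit 40))) (nat_lit 65535)))) (Nat.add (Nat.shiftLeft (nat_lit 1) (Nat.land (Nat.shiftRight (V (nat_lit 51)) (S (nat_lit 27))) (nat_lit 65535))) (Nat.shiftLeft (nat_lit 1) (Nat.land (Nat.shiftRight (V (nat_lit 51)) (S (nat_lit 28))) (nat_lit 65535)))))) (Nat.add (Nat.add (Nat.add (Nat.shiftLeft (nat_lit 1) (Nat.land (Nat.shiftRight (V (nat_lit 51)) (S (nat_lit 39))) (nat_lit 65535))) (Nat.shiftLeft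 (nat_lit 1) (Nat.land (Nat.shiftRight (V (nat_lit 51)) (S (nat_lit 40))) (nat_lit 65535)))) (Nat.add (Nat.shiftLeft (nat_lit 1) (Nat.land (Nat.shiftRight (V (nat_lit 51)) (S (nat_lit 52))) (nat_lit 65535))) (Nat.shiftLeft (nat_lit 1) (Nat.land (Nat.shiftRight (V (nat_lit 51)) (S (nat_lit 53))) (nat_lit 65535))))) (Nat.add (Nat.add (Nat.shiftLeft (nat_lit 1) (Nat.land (Nat.shiftRight (V (nat_lit 52)) (S (nat_lit 28))) (nat_lit 65535))) (Nat.shiftLeft (nat_lit 1) (Nat.land (Nat.shiftRight (V (nat_lit 52)) (S (nat_lit 51))) (nat_lit 65535)))) (Nat.add (Nat.shiftLeft (nat_lit 1) (Nat.land (Nat.shiftRight (V (nat_lit 53)) (S (nat_lit 40))) (nat_lit 65535))) (Nat.shiftLeft (nat_lit 1) (Nat.land (Nat.shiftRight (V (nat_lit 53)) (S (nat_lit 51))) (nat_lit 65535))))))))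
def E35_2 (V S : ℕ → ℕ) : ℕ := Nat.add (Nat.add (Nat.add (Nat.add (Nat.shiftLeft (nat_lit 1) (Nat.land (Nat.shiftRight (V (nat_lit 3)) (S (nat_lit 5))) (nat_lit 65535))) (Nat.add (Nat.shiftLeft (nat_lit 1) (Nat.land (Nat.shiftRight (V (nat_lit 3)) (S (nat_lit 6))) (nat_lit 65535))) (Nat.shiftLeft (nat_lit 1) (Nat.land (Nat.shiftRight (V (nat_lit 5)) (S (nat_lit 3))) (nat_lit 65535))))) (Nat.add (Nat.shiftLeft (nat_lit 1) (Nat.land (Nat.shiftRight (V (nat_lit 5)) (S (nat_lit 11))) (nat_lit 65535))) (Nat.add (Nat.shiftLeft (nat_lit 1) (Nat.land (Nat.shiftRight (V (nat_lit 6)) (S (nat_lit 3))) (nat_lit 65535))) (Nat.shiftLeft (nat_lit 1) (Nat.land (Nat.shiftRight (V (nat_lit 6)) (S (nat_lit 8))) (nat_lit 65535)))))) (Nat.add (Nat.add (Nat.shiftLeft (nat_lit 1) (Nat.land (Nat.shiftRight (V (nat_lit 8)) (S (nat_lit 6))) (nat_lit 65535))) (Nat.add (Nat.shiftLeft (nat_lit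 1) (Nat.land (Nat.shiftRight (V (nat_lit 8)) (S (nat_lit 10))) (nat_lit 65535))) (Nat.shiftLeft (nat_lit 1) (Nat.land (Nat.shiftRight (V (nat_lit 10)) (S (nat_lit 8))) (nat_lit 65535))))) (Nat.add (Nat.shiftLeft (nat_lit 1) (Nat.land (Nat.shiftRight (V (nat_lit 10)) (S (nat_lit 11))) (nat_lit 65535))) (Nat.add (Nat.shiftLeft (nat_lit 1) (Nat.land (Nat.shiftRight (V (nat_lit 11)) (S (nat_lit 5))) (nat_lit 65535))) (Nat.shiftLeft (nat_lit 1) (Nat.land (Nat.shiftRight (V (nat_lit 11)) (S (nat_lit 10))) (nat_lit 65535))))))) (Nat.add (Nat.add (Nat.add (Nat.shiftLeft (nat_lit 1) (Nat.land (Nat.shiftRight (V (nat_lit 27)) (S (nat_lit 29))) (nat_lit 65535))) (Nat.add (Nat.shiftLeft (nat_lit 1) (Nat.land (Nat.shiftRight (V (nat_lit 27)) (S (nat_lit 39))) (nat_lit 65535))) (Nat.shiftLeft (nat_lit 1) (Nat.land (Nat.shiftRight (V (nat_lit 29)) (S (nat_lit 27))) (nat_lit 65535)))))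 (Nat.add (Nat.shiftLeft (nat_lit 1) (Nat.land (Nat.shiftRight (V (nat_lit 29)) (S (nat_lit 53))) (nat_lit 65535))) (Nat.add (Nat.shiftLeft (nat_lit 1) (Nat.land (Nat.shiftRight (V (nat_lit 39)) (S (nat_lit 27))) (nat_lit 65535))) (Nat.shiftLeft (nat_lit 1) (Nat.land (Nat.shiftRight (V (nat_lit 39)) (S (nat_lit 41))) (nat_lit 65535)))))) (Nat.add (Nat.add (Nat.shiftLeft (nat_lit 1) (Nat.land (Nat.shiftRight (V (nat_lit 41)) (S (nat_lit 39))) (nat_lit 65535))) (Nat.add (Nat.shiftLeft (nat_lit 1) (Nat.land (Nat.shiftRight (V (nat_lit 41)) (S (nat_lit 52))) (nat_lit 65535))) (Nat.shiftLeft (nat_lit 1) (Nat.land (Nat.shiftRight (V (nat_lit 52)) (S (nat_lit 41))) (nat_lit 65535))))) (Nat.add (Nat.shiftLeft (nat_lit 1) (Nat.land (Nat.shiftRight (V (nat_lit 52)) (S (nat_lit 53))) (nat_lit 65535))) (Nat.add (Nat.shiftLeft (nat_lit 1) (Nat.land (Nat.shiftRight (V (nat_lit 53))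 (S (nat_lit 29))) (nat_lit 65535))) (Nat.shiftLeft (nat_lit 1) (Nat.land (Nat.shiftRight (V (nat_lit 53)) (S (nat_lit 52))) (nat_lit 65535)))))))
def E36_2 (V S : ℕ → ℕ) : ℕ := Nat.add (Nat.add (Nat.add (Nat.add (Nat.shiftLeft (nat_lit 1) (Nat.land (Nat.shiftRight (V (nat_lit 3)) (S (nat_lit 8))) (nat_lit 65535))) (Nat.add (Nat.shiftLeft (nat_lit 1) (Nat.land (Nat.shiftRight (V (nat_lit 3)) (S (nat_lit 11))) (nat_lit 65535))) (Nat.shiftLeft (nat_lit 1) (Nat.land (Nat.shiftRight (V (nat_lit 5)) (S (nat_lit 6))) (nat_lit 65535))))) (Nat.add (Nat.shiftLeft (nat_lit 1) (Nat.land (Nat.shiftRight (V (nat_lit 5)) (S (nat_lit 10))) (nat_lit 65535))) (Nat.add (Nat.shiftLeft (nat_lit 1) (Nat.land (Nat.shiftRight (V (nat_lit 6)) (S (nat_lit 5))) (nat_lit 65535))) (Nat.shiftLeft (nat_lit 1) (Nat.land (Nat.shiftRight (V (nat_lit 6)) (S (nat_lit 10))) (nat_lit 65535)))))) (Nat.add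 (Nat.add (Nat.shiftLeft (nat_lit 1) (Nat.land (Nat.shiftRight (V (nat_lit 8)) (S (nat_lit 3))) (nat_lit 65535))) (Nat.add (Nat.shiftLeft (nat_lit 1) (Nat.land (Nat.shiftRight (V (nat_lit 8)) (S (nat_lit 11))) (nat_lit 65535))) (Nat.shiftLeft (nat_lit 1) (Nat.land (Nat.shiftRight (V (nat_lit 10)) (S (nat_lit 5))) (nat_lit 65535))))) (Nat.add (Nat.shiftLeft (nat_lit 1) (Nat.land (Nat.shiftRight (V (nat_lit 10)) (S (nat_lit 6))) (nat_lit 65535))) (Nat.add (Nat.shiftLeft (nat_lit 1) (Nat.land (Nat.shiftRight (V (nat_lit 11)) (S (nat_lit 3))) (nat_lit 65535))) (Nat.shiftLeft (nat_lit 1) (Nat.land (Nat.shiftRight (V (nat_lit 11)) (S (nat_lit 8))) (nat_lit 65535))))))) (Nat.add (Nat.add (Nat.add (Nat.shiftLeft (nat_lit 1) (Nat.land (Nat.shiftRight (V (nat_lit 27)) (S (nat_lit 41))) (nat_lit 65535))) (Nat.add (Nat.shiftLeft (nat_lit 1) (Nat.land (Nat.shiftRight (V (nat_lit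 27)) (S (nat_lit 53))) (nat_lit 65535))) (Nat.shiftLeft (nat_lit 1) (Nat.land (Nat.shiftRight (V (nat_lit 29)) (S (nat_lit 39))) (nat_lit 65535))))) (Nat.add (Nat.shiftLeft (nat_lit 1) (Nat.land (Nat.shiftRight (V (nat_lit 29)) (S (nat_lit 52))) (nat_lit 65535))) (Nat.add (Nat.shiftLeft (nat_lit 1) (Nat.land (Nat.shiftRight (V (nat_lit 39)) (S (nat_lit 29))) (nat_lit 65535))) (Nat.shiftLeft (nat_lit 1) (Nat.land (Nat.shiftRight (V (nat_lit 39)) (S (nat_lit 52))) (nat_lit 65535)))))) (Nat.add (Nat.add (Nat.shiftLeft (nat_lit 1) (Nat.land (Nat.shiftRight (V (nat_lit 41)) (S (nat_lit 27))) (nat_lit 65535))) (Nat.add (Nat.shiftLeft (nat_lit 1) (Nat.land (Nat.shiftRight (V (nat_lit 41)) (S (nat_lit 53))) (nat_lit 65535))) (Nat.shiftLeft (nat_lit 1) (Nat.land (Nat.shiftRight (V (nat_lit 52)) (S (nat_lit 29))) (nat_lit 65535))))) (Nat.add (Nat.shiftLeft (nat_lit 1) (Nat.land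 (Nat.shiftRight (V (nat_lit 52)) (S (nat_lit 39))) (nat_lit 65535))) (Nat.add (Nat.shiftLeft (nat_lit 1) (Nat.land (Nat.shiftRight (V (nat_lit 53)) (S (nat_lit 27))) (nat_lit 65535))) (Nat.shiftLeft (nat_lit 1) (Nat.land (Nat.shiftRight (V (nat_lit 53)) (S (nat_lit 41))) (nat_lit 65535)))))))
def E37_2 (V S : ℕ → ℕ) : ℕ := Nat.add (Nat.add (Nat.add (Nat.shiftLeft (nat_lit 1) (Nat.land (Nat.shiftRight (V (nat_lit 3)) (S (nat_lit 10))) (nat_lit 65535))) (Nat.add (Nat.shiftLeft (nat_lit 1) (Nat.land (Nat.shiftRight (V (nat_lit 5)) (S (nat_lit 8))) (nat_lit 65535))) (Nat.shiftLeft (nat_lit 1) (Nat.land (Nat.shiftRight (V (nat_lit 6)) (S (nat_lit 11))) (nat_lit 65535))))) (Nat.add (Nat.shiftLeft (nat_lit 1) (Nat.land (Nat.shiftRight (V (nat_lit 8)) (S (nat_lit 5))) (nat_lit 65535))) (Nat.add (Nat.shiftLeft (nat_lit 1) (Nat.land (Nat.shiftRight (V (nat_lit 10)) (S (nat_lit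 3))) (nat_lit 65535))) (Nat.shiftLeft (nat_lit 1) (Nat.land (Nat.shiftRight (V (nat_lit 11)) (S (nat_lit 6))) (nat_lit 65535)))))) (Nat.add (Nat.add (Nat.shiftLeft (nat_lit 1) (Nat.land (Nat.shiftRight (V (nat_lit 27)) (S (nat_lit 52))) (nat_lit 65535))) (Nat.add (Nat.shiftLeft (nat_lit 1) (Nat.land (Nat.shiftRight (V (nat_lit 29)) (S (nat_lit 41))) (nat_lit 65535))) (Nat.shiftLeft (nat_lit 1) (Nat.land (Nat.shiftRight (V (nat_lit 39)) (S (nat_lit 53))) (nat_lit 65535))))) (Nat.add (Nat.shiftLeft (nat_lit 1) (Nat.land (Nat.shiftRight (V (nat_lit 41)) (S (nat_lit 29))) (nat_lit 65535))) (Nat.add (Nat.shiftLeft (nat_lit 1) (Nat.land (Nat.shiftRight (V (nat_lit 52)) (S (nat_lit 27))) (nat_lit 65535))) (Nat.shiftLeft (nat_lit 1) (Nat.land (Nat.shiftRight (V (nat_lit 53)) (S (nat_lit 39))) (nat_lit 65535))))))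
def E38_2 (V S : ℕ → ℕ) : ℕ := Nat.add (Nat.add (Nat.add (Nat.add (Nat.add (Nat.shiftLeft (nat_lit 1) (Nat.land (Nat.shiftRight (V (nat_lit 3)) (S (nat_lit 12))) (nat_lit 65535))) (Nat.shiftLeft (nat_lit 1) (Nat.land (Nat.shiftRight (V (nat_lit 3)) (S (nat_lit 52))) (nat_lit 65535)))) (Nat.add (Nat.shiftLeft (nat_lit 1) (Nat.land (Nat.shiftRight (V (nat_lit 5)) (S (nat_lit 14))) (nat_lit 65535))) (Nat.shiftLeft (nat_lit 1) (Nat.land (Nat.shiftRight (V (nat_lit 5)) (S (nat_lit 41))) (nat_lit 65535))))) (Nat.add (Nat.add (Nat.shiftLeft (nat_lit 1) (Nat.land (Nat.shiftRight (V (nat_lit 6)) (S (nat_lit 13))) (nat_lit 65535))) (Nat.shiftLeft (nat_lit 1) (Nat.land (Nat.shiftRight (V (nat_lit 6)) (S (nat_lit 53))) (nat_lit 65535)))) (Nat.add (Nat.shiftLeft (nat_lit 1) (Nat.land (Nat.shiftRight (V (nat_lit 8)) (S (nat_lit 14))) (nat_lit 65535))) (Nat.add (Nat.shiftLeft (nat_lit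 1) (Nat.land (Nat.shiftRight (V (nat_lit 8)) (S (nat_lit 29))) (nat_lit 65535))) (Nat.shiftLeft (nat_lit 1) (Nat.land (Nat.shiftRight (V (nat_lit 10)) (S (nat_lit 12))) (nat_lit 65535))))))) (Nat.add (Nat.add (Nat.add (Nat.shiftLeft (nat_lit 1) (Nat.land (Nat.shiftRight (V (nat_lit 10)) (S (nat_lit 27))) (nat_lit 65535))) (Nat.shiftLeft (nat_lit 1) (Nat.land (Nat.shiftRight (V (nat_lit 11)) (S (nat_lit 13))) (nat_lit 65535)))) (Nat.add (Nat.shiftLeft (nat_lit 1) (Nat.land (Nat.shiftRight (V (nat_lit 11)) (S (nat_lit 39))) (nat_lit 65535))) (Nat.shiftLeft (nat_lit 1) (Nat.land (Nat.shiftRight (V (nat_lit 12)) (S (nat_lit 3))) (nat_lit 65535))))) (Nat.add (Nat.add (Nat.shiftLeft (nat_lit 1) (Nat.land (Nat.shiftRight (V (nat_lit 12)) (S (nat_lit 10))) (nat_lit 65535))) (Nat.shiftLeft (nat_lit 1) (Nat.land (Nat.shiftRight (V (nat_lit 12)) (S (nat_lit 27))) (nat_lit 65535))))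 (Nat.add (Nat.shiftLeft (nat_lit 1) (Nat.land (Nat.shiftRight (V (nat_lit 12)) (S (nat_lit 52))) (nat_lit 65535))) (Nat.add (Nat.shiftLeft (nat_lit 1) (Nat.land (Nat.shiftRight (V (nat_lit 13)) (S (nat_lit 6))) (nat_lit 65535))) (Nat.shiftLeft (nat_lit 1) (Nat.land (Nat.shiftRight (V (nat_lit 13)) (S (nat_lit 11))) (nat_lit 65535)))))))) (Nat.add (Nat.add (Nat.add (Nat.add (Nat.shiftLeft (nat_lit 1) (Nat.land (Nat.shiftRight (V (nat_lit 13)) (S (nat_lit 39))) (nat_lit 65535))) (Nat.shiftLeft (nat_lit 1) (Nat.land (Nat.shiftRight (V (nat_lit 13)) (S (nat_lit 53))) (nat_lit 65535)))) (Nat.add (Nat.shiftLeft (nat_lit 1) (Nat.land (Nat.shiftRight (V (nat_lit 14)) (S (nat_lit 5))) (nat_lit 65535))) (Nat.shiftLeft (nat_lit 1) (Nat.land (Nat.shiftRight (V (nat_lit 14)) (S (nat_lit 8))) (nat_lit 65535))))) (Nat.add (Nat.add (Nat.shiftLeft (nat_lit 1) (Nat.land (Nat.shiftRight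 (V (nat_lit 14)) (S (nat_lit 29))) (nat_lit 65535))) (Nat.shiftLeft (nat_lit 1) (Nat.land (Nat.shiftRight (V (nat_lit 14)) (S (nat_lit 41))) (nat_lit 65535)))) (Nat.add (Nat.shiftLeft (nat_lit 1) (Nat.land (Nat.shiftRight (V (nat_lit 27)) (S (nat_lit 10))) (nat_lit 65535))) (Nat.add (Nat.shiftLeft (nat_lit 1) (Nat.land (Nat.shiftRight (V (nat_lit 27)) (S (nat_lit 12))) (nat_lit 65535))) (Nat.shiftLeft (nat_lit 1) (Nat.land (Nat.shiftRight (V (nat_lit 29)) (S (nat_lit 8))) (nat_lit 65535))))))) (Nat.add (Nat.add (Nat.add (Nat.shiftLeft (nat_lit 1) (Nat.land (Nat.shiftRight (V (nat_lit 29)) (S (nat_lit 14))) (nat_lit 65535))) (Nat.shiftLeft (nat_lit 1) (Nat.land (Nat.shiftRight (V (nat_lit 39)) (S (nat_lit 11))) (nat_lit 65535)))) (Nat.add (Nat.shiftLeft (nat_lit 1) (Nat.land (Nat.shiftRight (V (nat_lit 39)) (S (nat_lit 13))) (nat_lit 65535))) (Nat.shiftLeft (nat_lit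 1) (Nat.land (Nat.shiftRight (V (nat_lit 41)) (S (nat_lit 5))) (nat_lit 65535))))) (Nat.add (Nat.add (Nat.shiftLeft (nat_lit 1) (Nat.land (Nat.shiftRight (V (nat_lit 41)) (S (nat_lit 14))) (nat_lit 65535))) (Nat.shiftLeft (nat_lit 1) (Nat.land (Nat.shiftRight (V (nat_lit 52)) (S (nat_lit 3))) (nat_lit 65535)))) (Nat.add (Nat.shiftLeft (nat_lit 1) (Nat.land (Nat.shiftRight (V (nat_lit 52)) (S (nat_lit 12))) (nat_lit 65535))) (Nat.add (Nat.shiftLeft (nat_lit 1) (Nat.land (Nat.shiftRight (V (nat_lit 53)) (S (nat_lit 6))) (nat_lit 65535))) (Nat.shiftLeft (nat_lit 1) (Nat.land (Nat.shiftRight (V (nat_lit 53)) (S (nat_lit 13))) (nat_lit 65535))))))))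
def E39_2 (V S : ℕ → ℕ) : ℕ := Nat.add (Nat.add (Nat.add (Nat.add (Nat.add (Nat.shiftLeft (nat_lit 1) (Nat.land (Nat.shiftRight (V (nat_lit 3)) (S (nat_lit 27))) (nat_lit 65535))) (Nat.add (Nat.shiftLeft (nat_lit 1) (Nat.land (Nat.shiftRight (V (nat_lit 3)) (S (nat_lit 40))) (nat_lit 65535))) (Nat.shiftLeft (nat_lit 1) (Nat.land (Nat.shiftRight (V (nat_lit 4)) (S (nat_lit 13))) (nat_lit 65535))))) (Nat.add (Nat.shiftLeft (nat_lit 1) (Nat.land (Nat.shiftRight (V (nat_lit 4)) (S (nat_lit 39))) (nat_lit 65535))) (Nat.add (Nat.shiftLeft (nat_lit 1) (Nat.land (Nat.shiftRight (V (nat_lit 4)) (S (nat_lit 53))) (nat_lit 65535))) (Nat.shiftLeft (nat_lit 1) (Nat.land (Nat.shiftRight (V (nat_lit 5)) (S (nat_lit 29))) (nat_lit 65535)))))) (Nat.add (Nat.add (Nat.shiftLeft (nat_lit 1) (Nat.land (Nat.shiftRight (V (nat_lit 5)) (S (nat_lit 51))) (nat_lit 65535))) (Nat.add (Nat.shiftLeft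 (nat_lit 1) (Nat.land (Nat.shiftRight (V (nat_lit 6)) (S (nat_lit 28))) (nat_lit 65535))) (Nat.shiftLeft (nat_lit 1) (Nat.land (Nat.shiftRight (V (nat_lit 6)) (S (nat_lit 39))) (nat_lit 65535))))) (Nat.add (Nat.shiftLeft (nat_lit 1) (Nat.land (Nat.shiftRight (V (nat_lit 7)) (S (nat_lit 12))) (nat_lit 65535))) (Nat.add (Nat.shiftLeft (nat_lit 1) (Nat.land (Nat.shiftRight (V (nat_lit 7)) (S (nat_lit 27))) (nat_lit 65535))) (Nat.shiftLeft (nat_lit 1) (Nat.land (Nat.shiftRight (V (nat_lit 7)) (S (nat_lit 52))) (nat_lit 65535))))))) (Nat.add (Nat.add (Nat.add (Nat.shiftLeft (nat_lit 1) (Nat.land (Nat.shiftRight (V (nat_lit 8)) (S (nat_lit 41))) (nat_lit 65535))) (Nat.add (Nat.shiftLeft (nat_lit 1) (Nat.land (Nat.shiftRight (V (nat_lit 8)) (S (nat_lit 51))) (nat_lit 65535))) (Nat.shiftLeft (nat_lit 1) (Nat.land (Nat.shiftRight (V (nat_lit 9)) (S (nat_lit 14))) (nat_lit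 65535))))) (Nat.add (Nat.shiftLeft (nat_lit 1) (Nat.land (Nat.shiftRight (V (nat_lit 9)) (S (nat_lit 29))) (nat_lit 65535))) (Nat.add (Nat.shiftLeft (nat_lit 1) (Nat.land (Nat.shiftRight (V (nat_lit 9)) (S (nat_lit 41))) (nat_lit 65535))) (Nat.shiftLeft (nat_lit 1) (Nat.land (Nat.shiftRight (V (nat_lit 10)) (S (nat_lit 40))) (nat_lit 65535)))))) (Nat.add (Nat.add (Nat.shiftLeft (nat_lit 1) (Nat.land (Nat.shiftRight (V (nat_lit 10)) (S (nat_lit 52))) (nat_lit 65535))) (Nat.add (Nat.shiftLeft (nat_lit 1) (Nat.land (Nat.shiftRight (V (nat_lit 11)) (S (nat_lit 28))) (nat_lit 65535))) (Nat.shiftLeft (nat_lit 1) (Nat.land (Nat.shiftRight (V (nat_lit 11)) (S (nat_lit 53))) (nat_lit 65535))))) (Nat.add (Nat.shiftLeft (nat_lit 1) (Nat.land (Nat.shiftRight (V (nat_lit 12)) (S (nat_lit 7))) (nat_lit 65535))) (Nat.add (Nat.shiftLeft (nat_lit 1) (Nat.land (Nat.shiftRight (V (nat_lit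 12)) (S (nat_lit 40))) (nat_lit 65535))) (Nat.shiftLeft (nat_lit 1) (Nat.land (Nat.shiftRight (V (nat_lit 13)) (S (nat_lit 4))) (nat_lit 65535)))))))) (Nat.add (Nat.add (Nat.add (Nat.add (Nat.shiftLeft (nat_lit 1) (Nat.land (Nat.shiftRight (V (nat_lit 13)) (S (nat_lit 28))) (nat_lit 65535))) (Nat.add (Nat.shiftLeft (nat_lit 1) (Nat.land (Nat.shiftRight (V (nat_lit 14)) (S (nat_lit 9))) (nat_lit 65535))) (Nat.shiftLeft (nat_lit 1) (Nat.land (Nat.shiftRight (V (nat_lit 14)) (S (nat_lit 51))) (nat_lit 65535))))) (Nat.add (Nat.shiftLeft (nat_lit 1) (Nat.land (Nat.shiftRight (V (nat_lit 27)) (S (nat_lit 3))) (nat_lit 65535))) (Nat.add (Nat.shiftLeft (nat_lit 1) (Nat.land (Nat.shiftRight (V (nat_lit 27)) (S (nat_lit 7))) (nat_lit 65535))) (Nat.shiftLeft (nat_lit 1) (Nat.land (Nat.shiftRight (V (nat_lit 28)) (S (nat_lit 6))) (nat_lit 65535)))))) (Nat.add (Nat.add (Nat.shiftLeft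 (nat_lit 1) (Nat.land (Nat.shiftRight (V (nat_lit 28)) (S (nat_lit 11))) (nat_lit 65535))) (Nat.add (Nat.shiftLeft (nat_lit 1) (Nat.land (Nat.shiftRight (V (nat_lit 28)) (S (nat_lit 13))) (nat_lit 65535))) (Nat.shiftLeft (nat_lit 1) (Nat.land (Nat.shiftRight (V (nat_lit 29)) (S (nat_lit 5))) (nat_lit 65535))))) (Nat.add (Nat.shiftLeft (nat_lit 1) (Nat.land (Nat.shiftRight (V (nat_lit 29)) (S (nat_lit 9))) (nat_lit 65535))) (Nat.add (Nat.shiftLeft (nat_lit 1) (Nat.land (Nat.shiftRight (V (nat_lit 39)) (S (nat_lit 4))) (nat_lit 65535))) (Nat.shiftLeft (nat_lit 1) (Nat.land (Nat.shiftRight (V (nat_lit 39)) (S (nat_lit 6))) (nat_lit 65535))))))) (Nat.add (Nat.add (Nat.add (Nat.shiftLeft (nat_lit 1) (Nat.land (Nat.shiftRight (V (nat_lit 40)) (S (nat_lit 3))) (nat_lit 65535))) (Nat.add (Nat.shiftLeft (nat_lit 1) (Nat.land (Nat.shiftRight (V (nat_lit 40)) (S (nat_lit 10)))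 (nat_lit 65535))) (Nat.shiftLeft (nat_lit 1) (Nat.land (Nat.shiftRight (V (nat_lit 40)) (S (nat_lit 12))) (nat_lit 65535))))) (Nat.add (Nat.shiftLeft (nat_lit 1) (Nat.land (Nat.shiftRight (V (nat_lit 41)) (S (nat_lit 8))) (nat_lit 65535))) (Nat.add (Nat.shiftLeft (nat_lit 1) (Nat.land (Nat.shiftRight (V (nat_lit 41)) (S (nat_lit 9))) (nat_lit 65535))) (Nat.shiftLeft (nat_lit 1) (Nat.land (Nat.shiftRight (V (nat_lit 51)) (S (nat_lit 5))) (nat_lit 65535)))))) (Nat.add (Nat.add (Nat.shiftLeft (nat_lit 1) (Nat.land (Nat.shiftRight (V (nat_lit 51)) (S (nat_lit 8))) (nat_lit 65535))) (Nat.add (Nat.shiftLeft (nat_lit 1) (Nat.land (Nat.shiftRight (V (nat_lit 51)) (S (nat_lit 14))) (nat_lit 65535))) (Nat.shiftLeft (nat_lit 1) (Nat.land (Nat.shiftRight (V (nat_lit 52)) (S (nat_lit 7))) (nat_lit 65535))))) (Nat.add (Nat.shiftLeft (nat_lit 1) (Nat.land (Nat.shiftRight (V (nat_lit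 52)) (S (nat_lit 10))) (nat_lit 65535))) (Nat.add (Nat.shiftLeft (nat_lit 1) (Nat.land (Nat.shiftRight (V (nat_lit 53)) (S (nat_lit 4))) (nat_lit 65535))) (Nat.shiftLeft (nat_lit 1) (Nat.land (Nat.shiftRight (V (nat_lit 53)) (S (nat_lit 11))) (nat_lit 65535))))))))
def E40_2 (V S : ℕ → ℕ) : ℕ := Nat.add (Nat.add (Nat.add (Nat.add (Nat.add (Nat.add (Nat.shiftLeft (nat_lit 1) (Nat.land (Nat.shiftRight (V (nat_lit 3)) (S (nat_lit 29))) (nat_lit 65535))) (Nat.shiftLeft (nat_lit 1) (Nat.land (Nat.shiftRight (V (nat_lit 3)) (S (nat_lit 31))) (nat_lit 65535)))) (Nat.add (Nat.shiftLeft (nat_lit 1) (Nat.land (Nat.shiftRight (V (nat_lit 3)) (S (nat_lit 39))) (nat_lit 65535))) (Nat.shiftLeft (nat_lit 1) (Nat.land (Nat.shiftRight (V (nat_lit 3)) (S (nat_lit 42))) (nat_lit 65535))))) (Nat.add (Nat.add (Nat.shiftLeft (nat_lit 1) (Nat.land (Nat.shiftRight (V (nat_lit 5)) (S (nat_lit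 27))) (nat_lit 65535))) (Nat.shiftLeft (nat_lit 1) (Nat.land (Nat.shiftRight (V (nat_lit 5)) (S (nat_lit 33))) (nat_lit 65535)))) (Nat.add (Nat.shiftLeft (nat_lit 1) (Nat.land (Nat.shiftRight (V (nat_lit 5)) (S (nat_lit 53))) (nat_lit 65535))) (Nat.add (Nat.shiftLeft (nat_lit 1) (Nat.land (Nat.shiftRight (V (nat_lit 5)) (S (nat_lit 55))) (nat_lit 65535))) (Nat.shiftLeft (nat_lit 1) (Nat.land (Nat.shiftRight (V (nat_lit 6)) (S (nat_lit 27))) (nat_lit 65535))))))) (Nat.add (Nat.add (Nat.add (Nat.shiftLeft (nat_lit 1) (Nat.land (Nat.shiftRight (V (nat_lit 6)) (S (nat_lit 30))) (nat_lit 65535))) (Nat.shiftLeft (nat_lit 1) (Nat.land (Nat.shiftRight (V (nat_lit 6)) (S (nat_lit 41))) (nat_lit 65535)))) (Nat.add (Nat.shiftLeft (nat_lit 1) (Nat.land (Nat.shiftRight (V (nat_lit 6)) (S (nat_lit 43))) (nat_lit 65535))) (Nat.shiftLeft (nat_lit 1) (Nat.land (Nat.shiftRight (V (nat_lit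 8)) (S (nat_lit 39))) (nat_lit 65535))))) (Nat.add (Nat.add (Nat.shiftLeft (nat_lit 1) (Nat.land (Nat.shiftRight (V (nat_lit 8)) (S (nat_lit 45))) (nat_lit 65535))) (Nat.shiftLeft (nat_lit 1) (Nat.land (Nat.shiftRight (V (nat_lit 8)) (S (nat_lit 52))) (nat_lit 65535)))) (Nat.add (Nat.shiftLeft (nat_lit 1) (Nat.land (Nat.shiftRight (V (nat_lit 8)) (S (nat_lit 58))) (nat_lit 65535))) (Nat.add (Nat.shiftLeft (nat_lit 1) (Nat.land (Nat.shiftRight (V (nat_lit 10)) (S (nat_lit 41))) (nat_lit 65535))) (Nat.shiftLeft (nat_lit 1) (Nat.land (Nat.shiftRight (V (nat_lit 10)) (S (nat_lit 47))) (nat_lit 65535)))))))) (Nat.add (Nat.add (Nat.add (Nat.add (Nat.shiftLeft (nat_lit 1) (Nat.land (Nat.shiftRight (V (nat_lit 10)) (S (nat_lit 53))) (nat_lit 65535))) (Nat.shiftLeft (nat_lit 1) (Nat.land (Nat.shiftRight (V (nat_lit 10)) (S (nat_lit 59))) (nat_lit 65535)))) (Nat.add (Nat.shiftLeft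 (nat_lit 1) (Nat.land (Nat.shiftRight (V (nat_lit 11)) (S (nat_lit 29))) (nat_lit 65535))) (Nat.shiftLeft (nat_lit 1) (Nat.land (Nat.shiftRight (V (nat_lit 11)) (S (nat_lit 35))) (nat_lit 65535))))) (Nat.add (Nat.add (Nat.shiftLeft (nat_lit 1) (Nat.land (Nat.shiftRight (V (nat_lit 11)) (S (nat_lit 52))) (nat_lit 65535))) (Nat.shiftLeft (nat_lit 1) (Nat.land (Nat.shiftRight (V (nat_lit 11)) (S (nat_lit 56))) (nat_lit 65535)))) (Nat.add (Nat.shiftLeft (nat_lit 1) (Nat.land (Nat.shiftRight (V (nat_lit 27)) (S (nat_lit 5))) (nat_lit 65535))) (Nat.add (Nat.shiftLeft (nat_lit 1) (Nat.land (Nat.shiftRight (V (nat_lit 27)) (S (nat_lit 6))) (nat_lit 65535))) (Nat.shiftLeft (nat_lit 1) (Nat.land (Nat.shiftRight (V (nat_lit 27)) (S (nat_lit 31))) (nat_lit 65535))))))) (Nat.add (Nat.add (Nat.add (Nat.shiftLeft (nat_lit 1) (Nat.land (Nat.shiftRight (V (nat_lit 27)) (S (nat_lit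 42))) (nat_lit 65535))) (Nat.shiftLeft (nat_lit 1) (Nat.land (Nat.shiftRight (V (nat_lit 29)) (S (nat_lit 3))) (nat_lit 65535)))) (Nat.add (Nat.shiftLeft (nat_lit 1) (Nat.land (Nat.shiftRight (V (nat_lit 29)) (S (nat_lit 11))) (nat_lit 65535))) (Nat.shiftLeft (nat_lit 1) (Nat.land (Nat.shiftRight (V (nat_lit 29)) (S (nat_lit 33))) (nat_lit 65535))))) (Nat.add (Nat.add (Nat.shiftLeft (nat_lit 1) (Nat.land (Nat.shiftRight (V (nat_lit 29)) (S (nat_lit 55))) (nat_lit 65535))) (Nat.shiftLeft (nat_lit 1) (Nat.land (Nat.shiftRight (V (nat_lit 30)) (S (nat_lit 6))) (nat_lit 65535)))) (Nat.add (Nat.shiftLeft (nat_lit 1) (Nat.land (Nat.shiftRight (V (nat_lit 30)) (S (nat_lit 39))) (nat_lit 65535))) (Nat.add (Nat.shiftLeft (nat_lit 1) (Nat.land (Nat.shiftRight (V (nat_lit 31)) (S (nat_lit 3))) (nat_lit 65535))) (Nat.shiftLeft (nat_lit 1) (Nat.land (Nat.shiftRight (V (nat_lit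 31)) (S (nat_lit 27))) (nat_lit 65535))))))))) (Nat.add (Nat.add (Nat.add (Nat.add (Nat.add (Nat.shiftLeft (nat_lit 1) (Nat.land (Nat.shiftRight (V (nat_lit 33)) (S (nat_lit 5))) (nat_lit 65535))) (Nat.shiftLeft (nat_lit 1) (Nat.land (Nat.shiftRight (V (nat_lit 33)) (S (nat_lit 29))) (nat_lit 65535)))) (Nat.add (Nat.shiftLeft (nat_lit 1) (Nat.land (Nat.shiftRight (V (nat_lit 35)) (S (nat_lit 11))) (nat_lit 65535))) (Nat.shiftLeft (nat_lit 1) (Nat.land (Nat.shiftRight (V (nat_lit 35)) (S (nat_lit 53))) (nat_lit 65535))))) (Nat.add (Nat.add (Nat.shiftLeft (nat_lit 1) (Nat.land (Nat.shiftRight (V (nat_lit 39)) (S (nat_lit 3))) (nat_lit 65535))) (Nat.shiftLeft (nat_lit 1) (Nat.land (Nat.shiftRight (V (nat_lit 39)) (S (nat_lit 8))) (nat_lit 65535)))) (Nat.add (Nat.shiftLeft (nat_lit 1) (Nat.land (Nat.shiftRight (V (nat_lit 39)) (S (nat_lit 30))) (nat_lit 65535))) (Nat.add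 (Nat.shiftLeft (nat_lit 1) (Nat.land (Nat.shiftRight (V (nat_lit 39)) (S (nat_lit 43))) (nat_lit 65535))) (Nat.shiftLeft (nat_lit 1) (Nat.land (Nat.shiftRight (V (nat_lit 41)) (S (nat_lit 6))) (nat_lit 65535))))))) (Nat.add (Nat.add (Nat.add (Nat.shiftLeft (nat_lit 1) (Nat.land (Nat.shiftRight (V (nat_lit 41)) (S (nat_lit 10))) (nat_lit 65535))) (Nat.shiftLeft (nat_lit 1) (Nat.land (Nat.shiftRight (V (nat_lit 41)) (S (nat_lit 45))) (nat_lit 65535)))) (Nat.add (Nat.shiftLeft (nat_lit 1) (Nat.land (Nat.shiftRight (V (nat_lit 41)) (S (nat_lit 58))) (nat_lit 65535))) (Nat.shiftLeft (nat_lit 1) (Nat.land (Nat.shiftRight (V (nat_lit 42)) (S (nat_lit 3))) (nat_lit 65535))))) (Nat.add (Nat.add (Nat.shiftLeft (nat_lit 1) (Nat.land (Nat.shiftRight (V (nat_lit 42)) (S (nat_lit 27))) (nat_lit 65535))) (Nat.shiftLeft (nat_lit 1) (Nat.land (Nat.shiftRight (V (nat_lit 43)) (S (nat_lit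 6))) (nat_lit 65535)))) (Nat.add (Nat.shiftLeft (nat_lit 1) (Nat.land (Nat.shiftRight (V (nat_lit 43)) (S (nat_lit 39))) (nat_lit 65535))) (Nat.add (Nat.shiftLeft (nat_lit 1) (Nat.land (Nat.shiftRight (V (nat_lit 45)) (S (nat_lit 8))) (nat_lit 65535))) (Nat.shiftLeft (nat_lit 1) (Nat.land (Nat.shiftRight (V (nat_lit 45)) (S (nat_lit 41))) (nat_lit 65535)))))))) (Nat.add (Nat.add (Nat.add (Nat.add (Nat.shiftLeft (nat_lit 1) (Nat.land (Nat.shiftRight (V (nat_lit 47)) (S (nat_lit 10))) (nat_lit 65535))) (Nat.shiftLeft (nat_lit 1) (Nat.land (Nat.shiftRight (V (nat_lit 47)) (S (nat_lit 52))) (nat_lit 65535)))) (Nat.add (Nat.shiftLeft (nat_lit 1) (Nat.land (Nat.shiftRight (V (nat_lit 52)) (S (nat_lit 8))) (nat_lit 65535))) (Nat.shiftLeft (nat_lit 1) (Nat.land (Nat.shiftRight (V (nat_lit 52)) (S (nat_lit 11))) (nat_lit 65535))))) (Nat.add (Nat.add (Nat.shiftLeft (nat_lit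 1) (Nat.land (Nat.shiftRight (V (nat_lit 52)) (S (nat_lit 47))) (nat_lit 65535))) (Nat.shiftLeft (nat_lit 1) (Nat.land (Nat.shiftRight (V (nat_lit 52)) (S (nat_lit 59))) (nat_lit 65535)))) (Nat.add (Nat.shiftLeft (nat_lit 1) (Nat.land (Nat.shiftRight (V (nat_lit 53)) (S (nat_lit 5))) (nat_lit 65535))) (Nat.add (Nat.shiftLeft (nat_lit 1) (Nat.land (Nat.shiftRight (V (nat_lit 53)) (S (nat_lit 10))) (nat_lit 65535))) (Nat.shiftLeft (nat_lit 1) (Nat.land (Nat.shiftRight (V (nat_lit 53)) (S (nat_lit 35))) (nat_lit 65535))))))) (Nat.add (Nat.add (Nat.add (Nat.shiftLeft (nat_lit 1) (Nat.land (Nat.shiftRight (V (nat_lit 53)) (S (nat_lit 56))) (nat_lit 65535))) (Nat.shiftLeft (nat_lit 1) (Nat.land (Nat.shiftRight (V (nat_lit 55)) (S (nat_lit 5))) (nat_lit 65535)))) (Nat.add (Nat.shiftLeft (nat_lit 1) (Nat.land (Nat.shiftRight (V (nat_lit 55)) (S (nat_lit 29))) (nat_lit 65535)))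 (Nat.shiftLeft (nat_lit 1) (Nat.land (Nat.shiftRight (V (nat_lit 56)) (S (nat_lit 11))) (nat_lit 65535))))) (Nat.add (Nat.add (Nat.shiftLeft (nat_lit 1) (Nat.land (Nat.shiftRight (V (nat_lit 56)) (S (nat_lit 53))) (nat_lit 65535))) (Nat.shiftLeft (nat_lit 1) (Nat.land (Nat.shiftRight (V (nat_lit 58)) (S (nat_lit 8))) (nat_lit 65535)))) (Nat.add (Nat.shiftLeft (nat_lit 1) (Nat.land (Nat.shiftRight (V (nat_lit 58)) (S (nat_lit 41))) (nat_lit 65535))) (Nat.add (Nat.shiftLeft (nat_lit 1) (Nat.land (Nat.shiftRight (V (nat_lit 59)) (S (nat_lit 10))) (nat_lit 65535))) (Nat.shiftLeft (nat_lit 1) (Nat.land (Nat.shiftRight (V (nat_lit 59)) (S (nat_lit 52))) (nat_lit 65535)))))))))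
def E41_2 (V S : ℕ → ℕ) : ℕ := Nat.add (Nat.add (Nat.add (Nat.add (Nat.add (Nat.shiftLeft (nat_lit 1) (Nat.land (Nat.shiftRight (V (nat_lit 4)) (S (nat_lit 15))) (nat_lit 65535))) (Nat.add (Nat.shiftLeft (nat_lit 1) (Nat.land (Nat.shiftRight (V (nat_lit 4)) (S (nat_lit 16))) (nat_lit 65535))) (Nat.shiftLeft (nat_lit 1) (Nat.land (Nat.shiftRight (V (nat_lit 4)) (S (nat_lit 37))) (nat_lit 65535))))) (Nat.add (Nat.add (Nat.shiftLeft (nat_lit 1) (Nat.land (Nat.shiftRight (V (nat_lit 4)) (S (nat_lit 40))) (nat_lit 65535))) (Nat.shiftLeft (nat_lit 1) (Nat.land (Nat.shiftRight (V (nat_lit 4)) (S (nat_lit 50))) (nat_lit 65535)))) (Nat.add (Nat.shiftLeft (nat_lit 1) (Nat.land (Nat.shiftRight (V (nat_lit 4)) (S (nat_lit 51))) (nat_lit 65535))) (Nat.shiftLeft (nat_lit 1) (Nat.land (Nat.shiftRight (V (nat_lit 7)) (S (nat_lit 18))) (nat_lit 65535)))))) (Nat.add (Nat.add (Nat.add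 (Nat.shiftLeft (nat_lit 1) (Nat.land (Nat.shiftRight (V (nat_lit 7)) (S (nat_lit 19))) (nat_lit 65535))) (Nat.shiftLeft (nat_lit 1) (Nat.land (Nat.shiftRight (V (nat_lit 7)) (S (nat_lit 25))) (nat_lit 65535)))) (Nat.add (Nat.shiftLeft (nat_lit 1) (Nat.land (Nat.shiftRight (V (nat_lit 7)) (S (nat_lit 28))) (nat_lit 65535))) (Nat.shiftLeft (nat_lit 1) (Nat.land (Nat.shiftRight (V (nat_lit 7)) (S (nat_lit 49))) (nat_lit 65535))))) (Nat.add (Nat.add (Nat.shiftLeft (nat_lit 1) (Nat.land (Nat.shiftRight (V (nat_lit 7)) (S (nat_lit 51))) (nat_lit 65535))) (Nat.shiftLeft (nat_lit 1) (Nat.land (Nat.shiftRight (V (nat_lit 9)) (S (nat_lit 22))) (nat_lit 65535)))) (Nat.add (Nat.shiftLeft (nat_lit 1) (Nat.land (Nat.shiftRight (V (nat_lit 9)) (S (nat_lit 23))) (nat_lit 65535))) (Nat.shiftLeft (nat_lit 1) (Nat.land (Nat.shiftRight (V (nat_lit 9)) (S (nat_lit 24))) (nat_lit 65535)))))))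 (Nat.add (Nat.add (Nat.add (Nat.shiftLeft (nat_lit 1) (Nat.land (Nat.shiftRight (V (nat_lit 9)) (S (nat_lit 28))) (nat_lit 65535))) (Nat.add (Nat.shiftLeft (nat_lit 1) (Nat.land (Nat.shiftRight (V (nat_lit 9)) (S (nat_lit 36))) (nat_lit 65535))) (Nat.shiftLeft (nat_lit 1) (Nat.land (Nat.shiftRight (V (nat_lit 9)) (S (nat_lit 40))) (nat_lit 65535))))) (Nat.add (Nat.add (Nat.shiftLeft (nat_lit 1) (Nat.land (Nat.shiftRight (V (nat_lit 15)) (S (nat_lit 4))) (nat_lit 65535))) (Nat.shiftLeft (nat_lit 1) (Nat.land (Nat.shiftRight (V (nat_lit 15)) (S (nat_lit 51))) (nat_lit 65535)))) (Nat.add (Nat.shiftLeft (nat_lit 1) (Nat.land (Nat.shiftRight (V (nat_lit 16)) (S (nat_lit 4))) (nat_lit 65535))) (Nat.shiftLeft (nat_lit 1) (Nat.land (Nat.shiftRight (V (nat_lit 16)) (S (nat_lit 40))) (nat_lit 65535)))))) (Nat.add (Nat.add (Nat.add (Nat.shiftLeft (nat_lit 1) (Nat.land (Nat.shiftRight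 (V (nat_lit 18)) (S (nat_lit 7))) (nat_lit 65535))) (Nat.shiftLeft (nat_lit 1) (Nat.land (Nat.shiftRight (V (nat_lit 18)) (S (nat_lit 51))) (nat_lit 65535)))) (Nat.add (Nat.shiftLeft (nat_lit 1) (Nat.land (Nat.shiftRight (V (nat_lit 19)) (S (nat_lit 7))) (nat_lit 65535))) (Nat.shiftLeft (nat_lit 1) (Nat.land (Nat.shiftRight (V (nat_lit 19)) (S (nat_lit 28))) (nat_lit 65535))))) (Nat.add (Nat.add (Nat.shiftLeft (nat_lit 1) (Nat.land (Nat.shiftRight (V (nat_lit 22)) (S (nat_lit 9))) (nat_lit 65535))) (Nat.shiftLeft (nat_lit 1) (Nat.land (Nat.shiftRight (V (nat_lit 22)) (S (nat_lit 40))) (nat_lit 65535)))) (Nat.add (Nat.shiftLeft (nat_lit 1) (Nat.land (Nat.shiftRight (V (nat_lit 23)) (S (nat_lit 9))) (nat_lit 65535))) (Nat.shiftLeft (nat_lit 1) (Nat.land (Nat.shiftRight (V (nat_lit 23)) (S (nat_lit 28))) (nat_lit 65535)))))))) (Nat.add (Nat.add (Nat.add (Nat.add (Nat.shiftLeft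 (nat_lit 1) (Nat.land (Nat.shiftRight (V (nat_lit 24)) (S (nat_lit 9))) (nat_lit 65535))) (Nat.add (Nat.shiftLeft (nat_lit 1) (Nat.land (Nat.shiftRight (V (nat_lit 24)) (S (nat_lit 28))) (nat_lit 65535))) (Nat.shiftLeft (nat_lit 1) (Nat.land (Nat.shiftRight (V (nat_lit 25)) (S (nat_lit 7))) (nat_lit 65535))))) (Nat.add (Nat.add (Nat.shiftLeft (nat_lit 1) (Nat.land (Nat.shiftRight (V (nat_lit 25)) (S (nat_lit 28))) (nat_lit 65535))) (Nat.shiftLeft (nat_lit 1) (Nat.land (Nat.shiftRight (V (nat_lit 28)) (S (nat_lit 7))) (nat_lit 65535)))) (Nat.add (Nat.shiftLeft (nat_lit 1) (Nat.land (Nat.shiftRight (V (nat_lit 28)) (S (nat_lit 9))) (nat_lit 65535))) (Nat.shiftLeft (nat_lit 1) (Nat.land (Nat.shiftRight (V (nat_lit 28)) (S (nat_lit 19))) (nat_lit 65535)))))) (Nat.add (Nat.add (Nat.add (Nat.shiftLeft (nat_lit 1) (Nat.land (Nat.shiftRight (V (nat_lit 28)) (S (nat_lit 23)))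 (nat_lit 65535))) (Nat.shiftLeft (nat_lit 1) (Nat.land (Nat.shiftRight (V (nat_lit 28)) (S (nat_lit 24))) (nat_lit 65535)))) (Nat.add (Nat.shiftLeft (nat_lit 1) (Nat.land (Nat.shiftRight (V (nat_lit 28)) (S (nat_lit 25))) (nat_lit 65535))) (Nat.shiftLeft (nat_lit 1) (Nat.land (Nat.shiftRight (V (nat_lit 36)) (S (nat_lit 9))) (nat_lit 65535))))) (Nat.add (Nat.add (Nat.shiftLeft (nat_lit 1) (Nat.land (Nat.shiftRight (V (nat_lit 36)) (S (nat_lit 40))) (nat_lit 65535))) (Nat.shiftLeft (nat_lit 1) (Nat.land (Nat.shiftRight (V (nat_lit 37)) (S (nat_lit 4))) (nat_lit 65535)))) (Nat.add (Nat.shiftLeft (nat_lit 1) (Nat.land (Nat.shiftRight (V (nat_lit 37)) (S (nat_lit 40))) (nat_lit 65535))) (Nat.shiftLeft (nat_lit 1) (Nat.land (Nat.shiftRight (V (nat_lit 40)) (S (nat_lit 4))) (nat_lit 65535))))))) (Nat.add (Nat.add (Nat.add (Nat.shiftLeft (nat_lit 1) (Nat.land (Nat.shiftRight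 (V (nat_lit 40)) (S (nat_lit 9))) (nat_lit 65535))) (Nat.add (Nat.shiftLeft (nat_lit 1) (Nat.land (Nat.shiftRight (V (nat_lit 40)) (S (nat_lit 16))) (nat_lit 65535))) (Nat.shiftLeft (nat_lit 1) (Nat.land (Nat.shiftRight (V (nat_lit 40)) (S (nat_lit 22))) (nat_lit 65535))))) (Nat.add (Nat.add (Nat.shiftLeft (nat_lit 1) (Nat.land (Nat.shiftRight (V (nat_lit 40)) (S (nat_lit 36))) (nat_lit 65535))) (Nat.shiftLeft (nat_lit 1) (Nat.land (Nat.shiftRight (V (nat_lit 40)) (S (nat_lit 37))) (nat_lit 65535)))) (Nat.add (Nat.shiftLeft (nat_lit 1) (Nat.land (Nat.shiftRight (V (nat_lit 49)) (S (nat_lit 7))) (nat_lit 65535))) (Nat.shiftLeft (nat_lit 1) (Nat.land (Nat.shiftRight (V (nat_lit 49)) (S (nat_lit 51))) (nat_lit 65535)))))) (Nat.add (Nat.add (Nat.add (Nat.shiftLeft (nat_lit 1) (Nat.land (Nat.shiftRight (V (nat_lit 50)) (S (nat_lit 4))) (nat_lit 65535))) (Nat.shiftLeft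 (nat_lit 1) (Nat.land (Nat.shiftRight (V (nat_lit 50)) (S (nat_lit 51))) (nat_lit 65535)))) (Nat.add (Nat.shiftLeft (nat_lit 1) (Nat.land (Nat.shiftRight (V (nat_lit 51)) (S (nat_lit 4))) (nat_lit 65535))) (Nat.shiftLeft (nat_lit 1) (Nat.land (Nat.shiftRight (V (nat_lit 51)) (S (nat_lit 7))) (nat_lit 65535))))) (Nat.add (Nat.add (Nat.shiftLeft (nat_lit 1) (Nat.land (Nat.shiftRight (V (nat_lit 51)) (S (nat_lit 15))) (nat_lit 65535))) (Nat.shiftLeft (nat_lit 1) (Nat.land (Nat.shiftRight (V (nat_lit 51)) (S (nat_lit 18))) (nat_lit 65535)))) (Nat.add (Nat.shiftLeft (nat_lit 1) (Nat.land (Nat.shiftRight (V (nat_lit 51)) (S (nat_lit 49))) (nat_lit 65535))) (Nat.shiftLeft (nat_lit 1) (Nat.land (Nat.shiftRight (V (nat_lit 51)) (S (nat_lit 50))) (nat_lit 65535))))))))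
def E42_2 (V S : ℕ → ℕ) : ℕ := Nat.add (Nat.add (Nat.add (Nat.add (Nat.add (Nat.add (Nat.shiftLeft (nat_lit 1) (Nat.land (Nat.shiftRight (V (nat_lit 4)) (S (nat_lit 17))) (nat_lit 65535))) (Nat.shiftLeft (nat_lit 1) (Nat.land (Nat.shiftRight (V (nat_lit 4)) (S (nat_lit 26))) (nat_lit 65535)))) (Nat.add (Nat.shiftLeft (nat_lit 1) (Nat.land (Nat.shiftRight (V (nat_lit 4)) (S (nat_lit 31))) (nat_lit 65535))) (Nat.shiftLeft (nat_lit 1) (Nat.land (Nat.shiftRight (V (nat_lit 4)) (S (nat_lit 33))) (nat_lit 65535))))) (Nat.add (Nat.add (Nat.shiftLeft (nat_lit 1) (Nat.land (Nat.shiftRight (V (nat_lit 4)) (S (nat_lit 47))) (nat_lit 65535))) (Nat.shiftLeft (nat_lit 1) (Nat.land (Nat.shiftRight (V (nat_lit 4)) (S (nat_lit 58))) (nat_lit 65535)))) (Nat.add (Nat.shiftLeft (nat_lit 1) (Nat.land (Nat.shiftRight (V (nat_lit 7)) (S (nat_lit 20))) (nat_lit 65535))) (Nat.add (Nat.shiftLeft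 (nat_lit 1) (Nat.land (Nat.shiftRight (V (nat_lit 7)) (S (nat_lit 35))) (nat_lit 65535))) (Nat.shiftLeft (nat_lit 1) (Nat.land (Nat.shiftRight (V (nat_lit 7)) (S (nat_lit 38))) (nat_lit 65535))))))) (Nat.add (Nat.add (Nat.add (Nat.shiftLeft (nat_lit 1) (Nat.land (Nat.shiftRight (V (nat_lit 7)) (S (nat_lit 43))) (nat_lit 65535))) (Nat.shiftLeft (nat_lit 1) (Nat.land (Nat.shiftRight (V (nat_lit 7)) (S (nat_lit 45))) (nat_lit 65535)))) (Nat.add (Nat.shiftLeft (nat_lit 1) (Nat.land (Nat.shiftRight (V (nat_lit 7)) (S (nat_lit 55))) (nat_lit 65535))) (Nat.shiftLeft (nat_lit 1) (Nat.land (Nat.shiftRight (V (nat_lit 9)) (S (nat_lit 21))) (nat_lit 65535))))) (Nat.add (Nat.add (Nat.shiftLeft (nat_lit 1) (Nat.land (Nat.shiftRight (V (nat_lit 9)) (S (nat_lit 30))) (nat_lit 65535))) (Nat.shiftLeft (nat_lit 1) (Nat.land (Nat.shiftRight (V (nat_lit 9)) (S (nat_lit 42))) (nat_lit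 65535)))) (Nat.add (Nat.shiftLeft (nat_lit 1) (Nat.land (Nat.shiftRight (V (nat_lit 9)) (S (nat_lit 48))) (nat_lit 65535))) (Nat.add (Nat.shiftLeft (nat_lit 1) (Nat.land (Nat.shiftRight (V (nat_lit 9)) (S (nat_lit 56))) (nat_lit 65535))) (Nat.shiftLeft (nat_lit 1) (Nat.land (Nat.shiftRight (V (nat_lit 9)) (S (nat_lit 59))) (nat_lit 65535)))))))) (Nat.add (Nat.add (Nat.add (Nat.add (Nat.shiftLeft (nat_lit 1) (Nat.land (Nat.shiftRight (V (nat_lit 17)) (S (nat_lit 4))) (nat_lit 65535))) (Nat.shiftLeft (nat_lit 1) (Nat.land (Nat.shiftRight (V (nat_lit 17)) (S (nat_lit 28))) (nat_lit 65535)))) (Nat.add (Nat.shiftLeft (nat_lit 1) (Nat.land (Nat.shiftRight (V (nat_lit 20)) (S (nat_lit 7))) (nat_lit 65535))) (Nat.shiftLeft (nat_lit 1) (Nat.land (Nat.shiftRight (V (nat_lit 20)) (S (nat_lit 40))) (nat_lit 65535))))) (Nat.add (Nat.add (Nat.shiftLeft (nat_lit 1) (Nat.land (Nat.shiftRight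 (V (nat_lit 21)) (S (nat_lit 9))) (nat_lit 65535))) (Nat.shiftLeft (nat_lit 1) (Nat.land (Nat.shiftRight (V (nat_lit 21)) (S (nat_lit 51))) (nat_lit 65535)))) (Nat.add (Nat.shiftLeft (nat_lit 1) (Nat.land (Nat.shiftRight (V (nat_lit 26)) (S (nat_lit 4))) (nat_lit 65535))) (Nat.add (Nat.shiftLeft (nat_lit 1) (Nat.land (Nat.shiftRight (V (nat_lit 26)) (S (nat_lit 28))) (nat_lit 65535))) (Nat.shiftLeft (nat_lit 1) (Nat.land (Nat.shiftRight (V (nat_lit 28)) (S (nat_lit 17))) (nat_lit 65535))))))) (Nat.add (Nat.add (Nat.add (Nat.shiftLeft (nat_lit 1) (Nat.land (Nat.shiftRight (V (nat_lit 28)) (S (nat_lit 26))) (nat_lit 65535))) (Nat.shiftLeft (nat_lit 1) (Nat.land (Nat.shiftRight (V (nat_lit 28)) (S (nat_lit 42))) (nat_lit 65535)))) (Nat.add (Nat.shiftLeft (nat_lit 1) (Nat.land (Nat.shiftRight (V (nat_lit 28)) (S (nat_lit 45))) (nat_lit 65535))) (Nat.shiftLeft (nat_lit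 1) (Nat.land (Nat.shiftRight (V (nat_lit 28)) (S (nat_lit 55))) (nat_lit 65535))))) (Nat.add (Nat.add (Nat.shiftLeft (nat_lit 1) (Nat.land (Nat.shiftRight (V (nat_lit 28)) (S (nat_lit 59))) (nat_lit 65535))) (Nat.shiftLeft (nat_lit 1) (Nat.land (Nat.shiftRight (V (nat_lit 30)) (S (nat_lit 9))) (nat_lit 65535)))) (Nat.add (Nat.shiftLeft (nat_lit 1) (Nat.land (Nat.shiftRight (V (nat_lit 30)) (S (nat_lit 40))) (nat_lit 65535))) (Nat.add (Nat.shiftLeft (nat_lit 1) (Nat.land (Nat.shiftRight (V (nat_lit 31)) (S (nat_lit 4))) (nat_lit 65535))) (Nat.shiftLeft (nat_lit 1) (Nat.land (Nat.shiftRight (V (nat_lit 31)) (S (nat_lit 51))) (nat_lit 65535))))))))) (Nat.add (Nat.add (Nat.add (Nat.add (Nat.add (Nat.shiftLeft (nat_lit 1) (Nat.land (Nat.shiftRight (V (nat_lit 33)) (S (nat_lit 4))) (nat_lit 65535))) (Nat.shiftLeft (nat_lit 1) (Nat.land (Nat.shiftRight (V (nat_lit 33)) (S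 (nat_lit 40))) (nat_lit 65535)))) (Nat.add (Nat.shiftLeft (nat_lit 1) (Nat.land (Nat.shiftRight (V (nat_lit 35)) (S (nat_lit 7))) (nat_lit 65535))) (Nat.shiftLeft (nat_lit 1) (Nat.land (Nat.shiftRight (V (nat_lit 35)) (S (nat_lit 51))) (nat_lit 65535))))) (Nat.add (Nat.add (Nat.shiftLeft (nat_lit 1) (Nat.land (Nat.shiftRight (V (nat_lit 38)) (S (nat_lit 7))) (nat_lit 65535))) (Nat.shiftLeft (nat_lit 1) (Nat.land (Nat.shiftRight (V (nat_lit 38)) (S (nat_lit 40))) (nat_lit 65535)))) (Nat.add (Nat.shiftLeft (nat_lit 1) (Nat.land (Nat.shiftRight (V (nat_lit 40)) (S (nat_lit 20))) (nat_lit 65535))) (Nat.add (Nat.shiftLeft (nat_lit 1) (Nat.land (Nat.shiftRight (V (nat_lit 40)) (S (nat_lit 30))) (nat_lit 65535))) (Nat.shiftLeft (nat_lit 1) (Nat.land (Nat.shiftRight (V (nat_lit 40)) (S (nat_lit 33))) (nat_lit 65535))))))) (Nat.add (Nat.add (Nat.add (Nat.shiftLeft (nat_lit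 1) (Nat.land (Nat.shiftRight (V (nat_lit 40)) (S (nat_lit 38))) (nat_lit 65535))) (Nat.shiftLeft (nat_lit 1) (Nat.land (Nat.shiftRight (V (nat_lit 40)) (S (nat_lit 56))) (nat_lit 65535)))) (Nat.add (Nat.shiftLeft (nat_lit 1) (Nat.land (Nat.shiftRight (V (nat_lit 40)) (S (nat_lit 58))) (nat_lit 65535))) (Nat.shiftLeft (nat_lit 1) (Nat.land (Nat.shiftRight (V (nat_lit 42)) (S (nat_lit 9))) (nat_lit 65535))))) (Nat.add (Nat.add (Nat.shiftLeft (nat_lit 1) (Nat.land (Nat.shiftRight (V (nat_lit 42)) (S (nat_lit 28))) (nat_lit 65535))) (Nat.shiftLeft (nat_lit 1) (Nat.land (Nat.shiftRight (V (nat_lit 43)) (S (nat_lit 7))) (nat_lit 65535)))) (Nat.add (Nat.shiftLeft (nat_lit 1) (Nat.land (Nat.shiftRight (V (nat_lit 43)) (S (nat_lit 51))) (nat_lit 65535))) (Nat.add (Nat.shiftLeft (nat_lit 1) (Nat.land (Nat.shiftRight (V (nat_lit 45)) (S (nat_lit 7))) (nat_lit 65535))) (Nat.shiftLeft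 (nat_lit 1) (Nat.land (Nat.shiftRight (V (nat_lit 45)) (S (nat_lit 28))) (nat_lit 65535)))))))) (Nat.add (Nat.add (Nat.add (Nat.add (Nat.shiftLeft (nat_lit 1) (Nat.land (Nat.shiftRight (V (nat_lit 47)) (S (nat_lit 4))) (nat_lit 65535))) (Nat.shiftLeft (nat_lit 1) (Nat.land (Nat.shiftRight (V (nat_lit 47)) (S (nat_lit 51))) (nat_lit 65535)))) (Nat.add (Nat.shiftLeft (nat_lit 1) (Nat.land (Nat.shiftRight (V (nat_lit 48)) (S (nat_lit 9))) (nat_lit 65535))) (Nat.shiftLeft (nat_lit 1) (Nat.land (Nat.shiftRight (V (nat_lit 48)) (S (nat_lit 51))) (nat_lit 65535))))) (Nat.add (Nat.add (Nat.shiftLeft (nat_lit 1) (Nat.land (Nat.shiftRight (V (nat_lit 51)) (S (nat_lit 21))) (nat_lit 65535))) (Nat.shiftLeft (nat_lit 1) (Nat.land (Nat.shiftRight (V (nat_lit 51)) (S (nat_lit 31))) (nat_lit 65535)))) (Nat.add (Nat.shiftLeft (nat_lit 1) (Nat.land (Nat.shiftRight (V (nat_lit 51))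 (S (nat_lit 35))) (nat_lit 65535))) (Nat.add (Nat.shiftLeft (nat_lit 1) (Nat.land (Nat.shiftRight (V (nat_lit 51)) (S (nat_lit 43))) (nat_lit 65535))) (Nat.shiftLeft (nat_lit 1) (Nat.land (Nat.shiftRight (V (nat_lit 51)) (S (nat_lit 47))) (nat_lit 65535))))))) (Nat.add (Nat.add (Nat.add (Nat.shiftLeft (nat_lit 1) (Nat.land (Nat.shiftRight (V (nat_lit 51)) (S (nat_lit 48))) (nat_lit 65535))) (Nat.shiftLeft (nat_lit 1) (Nat.land (Nat.shiftRight (V (nat_lit 55)) (S (nat_lit 7))) (nat_lit 65535)))) (Nat.add (Nat.shiftLeft (nat_lit 1) (Nat.land (Nat.shiftRight (V (nat_lit 55)) (S (nat_lit 28))) (nat_lit 65535))) (Nat.shiftLeft (nat_lit 1) (Nat.land (Nat.shiftRight (V (nat_lit 56)) (S (nat_lit 9))) (nat_lit 65535))))) (Nat.add (Nat.add (Nat.shiftLeft (nat_lit 1) (Nat.land (Nat.shiftRight (V (nat_lit 56)) (S (nat_lit 40))) (nat_lit 65535))) (Nat.shiftLeft (nat_lit 1) (Nat.land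 (Nat.shiftRight (V (nat_lit 58)) (S (nat_lit 4))) (nat_lit 65535)))) (Nat.add (Nat.shiftLeft (nat_lit 1) (Nat.land (Nat.shiftRight (V (nat_lit 58)) (S (nat_lit 40))) (nat_lit 65535))) (Nat.add (Nat.shiftLeft (nat_lit 1) (Nat.land (Nat.shiftRight (V (nat_lit 59)) (S (nat_lit 9))) (nat_lit 65535))) (Nat.shiftLeft (nat_lit 1) (Nat.land (Nat.shiftRight (V (nat_lit 59)) (S (nat_lit 28))) (nat_lit 65535)))))))))
def E43_2 (V S : ℕ → ℕ) : ℕ := Nat.add (Nat.add (Nat.shiftLeft (nat_lit 1) (Nat.land (Nat.shiftRight (V (nat_lit 4)) (S (nat_lit 28))) (nat_lit 65535))) (Nat.add (Nat.shiftLeft (nat_lit 1) (Nat.land (Nat.shiftRight (V (nat_lit 7)) (S (nat_lit 40))) (nat_lit 65535))) (Nat.shiftLeft (nat_lit 1) (Nat.land (Nat.shiftRight (V (nat_lit 9)) (S (nat_lit 51))) (nat_lit 65535))))) (Nat.add (Nat.shiftLeft (nat_lit 1) (Nat.land (Nat.shiftRight (V (nat_lit 28)) (S (nat_lit 4)))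 (nat_lit 65535))) (Nat.add (Nat.shiftLeft (nat_lit 1) (Nat.land (Nat.shiftRight (V (nat_lit 40)) (S (nat_lit 7))) (nat_lit 65535))) (Nat.shiftLeft (nat_lit 1) (Nat.land (Nat.shiftRight (V (nat_lit 51)) (S (nat_lit 9))) (nat_lit 65535)))))
def E44_2 (V S : ℕ → ℕ) : ℕ := Nat.add (Nat.add (Nat.add (Nat.add (Nat.shiftLeft (nat_lit 1) (Nat.land (Nat.shiftRight (V (nat_lit 4)) (S (nat_lit 32))) (nat_lit 65535))) (Nat.add (Nat.shiftLeft (nat_lit 1) (Nat.land (Nat.shiftRight (V (nat_lit 4)) (S (nat_lit 34))) (nat_lit 65535))) (Nat.shiftLeft (nat_lit 1) (Nat.land (Nat.shiftRight (V (nat_lit 7)) (S (nat_lit 44))) (nat_lit 65535))))) (Nat.add (Nat.shiftLeft (nat_lit 1) (Nat.land (Nat.shiftRight (V (nat_lit 7)) (S (nat_lit 46))) (nat_lit 65535))) (Nat.add (Nat.shiftLeft (nat_lit 1) (Nat.land (Nat.shiftRight (V (nat_lit 9)) (S (nat_lit 54))) (nat_lit 65535))) (Nat.shiftLeft (nat_lit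 1) (Nat.land (Nat.shiftRight (V (nat_lit 9)) (S (nat_lit 57))) (nat_lit 65535)))))) (Nat.add (Nat.add (Nat.shiftLeft (nat_lit 1) (Nat.land (Nat.shiftRight (V (nat_lit 28)) (S (nat_lit 44))) (nat_lit 65535))) (Nat.add (Nat.shiftLeft (nat_lit 1) (Nat.land (Nat.shiftRight (V (nat_lit 28)) (S (nat_lit 54))) (nat_lit 65535))) (Nat.shiftLeft (nat_lit 1) (Nat.land (Nat.shiftRight (V (nat_lit 32)) (S (nat_lit 4))) (nat_lit 65535))))) (Nat.add (Nat.shiftLeft (nat_lit 1) (Nat.land (Nat.shiftRight (V (nat_lit 32)) (S (nat_lit 40))) (nat_lit 65535))) (Nat.add (Nat.shiftLeft (nat_lit 1) (Nat.land (Nat.shiftRight (V (nat_lit 34)) (S (nat_lit 4))) (nat_lit 65535))) (Nat.shiftLeft (nat_lit 1) (Nat.land (Nat.shiftRight (V (nat_lit 34)) (S (nat_lit 51))) (nat_lit 65535))))))) (Nat.add (Nat.add (Nat.add (Nat.shiftLeft (nat_lit 1) (Nat.land (Nat.shiftRight (V (nat_lit 40)) (S (nat_lit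 32))) (nat_lit 65535))) (Nat.add (Nat.shiftLeft (nat_lit 1) (Nat.land (Nat.shiftRight (V (nat_lit 40)) (S (nat_lit 57))) (nat_lit 65535))) (Nat.shiftLeft (nat_lit 1) (Nat.land (Nat.shiftRight (V (nat_lit 44)) (S (nat_lit 7))) (nat_lit 65535))))) (Nat.add (Nat.shiftLeft (nat_lit 1) (Nat.land (Nat.shiftRight (V (nat_lit 44)) (S (nat_lit 28))) (nat_lit 65535))) (Nat.add (Nat.shiftLeft (nat_lit 1) (Nat.land (Nat.shiftRight (V (nat_lit 46)) (S (nat_lit 7))) (nat_lit 65535))) (Nat.shiftLeft (nat_lit 1) (Nat.land (Nat.shiftRight (V (nat_lit 46)) (S (nat_lit 51))) (nat_lit 65535)))))) (Nat.add (Nat.add (Nat.shiftLeft (nat_lit 1) (Nat.land (Nat.shiftRight (V (nat_lit 51)) (S (nat_lit 34))) (nat_lit 65535))) (Nat.add (Nat.shiftLeft (nat_lit 1) (Nat.land (Nat.shiftRight (V (nat_lit 51)) (S (nat_lit 46))) (nat_lit 65535))) (Nat.shiftLeft (nat_lit 1) (Nat.land (Nat.shiftRight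 (V (nat_lit 54)) (S (nat_lit 9))) (nat_lit 65535))))) (Nat.add (Nat.shiftLeft (nat_lit 1) (Nat.land (Nat.shiftRight (V (nat_lit 54)) (S (nat_lit 28))) (nat_lit 65535))) (Nat.add (Nat.shiftLeft (nat_lit 1) (Nat.land (Nat.shiftRight (V (nat_lit 57)) (S (nat_lit 9))) (nat_lit 65535))) (Nat.shiftLeft (nat_lit 1) (Nat.land (Nat.shiftRight (V (nat_lit 57)) (S (nat_lit 40))) (nat_lit 65535)))))))
def E45_2 (V S : ℕ → ℕ) : ℕ := Nat.add (Nat.add (Nat.shiftLeft (nat_lit 1) (Nat.land (Nat.shiftRight (V (nat_lit 12)) (S (nat_lit 13))) (nat_lit 65535))) (Nat.add (Nat.shiftLeft (nat_lit 1) (Nat.land (Nat.shiftRight (V (nat_lit 12)) (S (nat_lit 14))) (nat_lit 65535))) (Nat.shiftLeft (nat_lit 1) (Nat.land (Nat.shiftRight (V (nat_lit 13)) (S (nat_lit 12))) (nat_lit 65535))))) (Nat.add (Nat.shiftLeft (nat_lit 1) (Nat.land (Nat.shiftRight (V (nat_lit 13)) (S (nat_lit 14))) (nat_lit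 65535))) (Nat.add (Nat.shiftLeft (nat_lit 1) (Nat.land (Nat.shiftRight (V (nat_lit 14)) (S (nat_lit 12))) (nat_lit 65535))) (Nat.shiftLeft (nat_lit 1) (Nat.land (Nat.shiftRight (V (nat_lit 14)) (S (nat_lit 13))) (nat_lit 65535)))))
def E46_2 (V S : ℕ → ℕ) : ℕ := Nat.add (Nat.add (Nat.add (Nat.add (Nat.shiftLeft (nat_lit 1) (Nat.land (Nat.shiftRight (V (nat_lit 12)) (S (nat_lit 15))) (nat_lit 65535))) (Nat.add (Nat.shiftLeft (nat_lit 1) (Nat.land (Nat.shiftRight (V (nat_lit 12)) (S (nat_lit 23))) (nat_lit 65535))) (Nat.shiftLeft (nat_lit 1) (Nat.land (Nat.shiftRight (V (nat_lit 12)) (S (nat_lit 24))) (nat_lit 65535))))) (Nat.add (Nat.shiftLeft (nat_lit 1) (Nat.land (Nat.shiftRight (V (nat_lit 12)) (S (nat_lit 50))) (nat_lit 65535))) (Nat.add (Nat.shiftLeft (nat_lit 1) (Nat.land (Nat.shiftRight (V (nat_lit 13)) (S (nat_lit 18))) (nat_lit 65535))) (Nat.shiftLeft (nat_lit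 1) (Nat.land (Nat.shiftRight (V (nat_lit 13)) (S (nat_lit 22))) (nat_lit 65535)))))) (Nat.add (Nat.add (Nat.shiftLeft (nat_lit 1) (Nat.land (Nat.shiftRight (V (nat_lit 13)) (S (nat_lit 36))) (nat_lit 65535))) (Nat.add (Nat.shiftLeft (nat_lit 1) (Nat.land (Nat.shiftRight (V (nat_lit 13)) (S (nat_lit 49))) (nat_lit 65535))) (Nat.shiftLeft (nat_lit 1) (Nat.land (Nat.shiftRight (V (nat_lit 14)) (S (nat_lit 16))) (nat_lit 65535))))) (Nat.add (Nat.shiftLeft (nat_lit 1) (Nat.land (Nat.shiftRight (V (nat_lit 14)) (S (nat_lit 19))) (nat_lit 65535))) (Nat.add (Nat.shiftLeft (nat_lit 1) (Nat.land (Nat.shiftRight (V (nat_lit 14)) (S (nat_lit 25))) (nat_lit 65535))) (Nat.shiftLeft (nat_lit 1) (Nat.land (Nat.shiftRight (V (nat_lit 14)) (S (nat_lit 37))) (nat_lit 65535))))))) (Nat.add (Nat.add (Nat.add (Nat.shiftLeft (nat_lit 1) (Nat.land (Nat.shiftRight (V (nat_lit 15)) (S (nat_lit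 12))) (nat_lit 65535))) (Nat.add (Nat.shiftLeft (nat_lit 1) (Nat.land (Nat.shiftRight (V (nat_lit 16)) (S (nat_lit 14))) (nat_lit 65535))) (Nat.shiftLeft (nat_lit 1) (Nat.land (Nat.shiftRight (V (nat_lit 18)) (S (nat_lit 13))) (nat_lit 65535))))) (Nat.add (Nat.shiftLeft (nat_lit 1) (Nat.land (Nat.shiftRight (V (nat_lit 19)) (S (nat_lit 14))) (nat_lit 65535))) (Nat.add (Nat.shiftLeft (nat_lit 1) (Nat.land (Nat.shiftRight (V (nat_lit 22)) (S (nat_lit 13))) (nat_lit 65535))) (Nat.shiftLeft (nat_lit 1) (Nat.land (Nat.shiftRight (V (nat_lit 23)) (S (nat_lit 12))) (nat_lit 65535)))))) (Nat.add (Nat.add (Nat.shiftLeft (nat_lit 1) (Nat.land (Nat.shiftRight (V (nat_lit 24)) (S (nat_lit 12))) (nat_lit 65535))) (Nat.add (Nat.shiftLeft (nat_lit 1) (Nat.land (Nat.shiftRight (V (nat_lit 25)) (S (nat_lit 14))) (nat_lit 65535))) (Nat.shiftLeft (nat_lit 1) (Nat.land (Nat.shiftRight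 (V (nat_lit 36)) (S (nat_lit 13))) (nat_lit 65535))))) (Nat.add (Nat.shiftLeft (nat_lit 1) (Nat.land (Nat.shiftRight (V (nat_lit 37)) (S (nat_lit 14))) (nat_lit 65535))) (Nat.add (Nat.shiftLeft (nat_lit 1) (Nat.land (Nat.shiftRight (V (nat_lit 49)) (S (nat_lit 13))) (nat_lit 65535))) (Nat.shiftLeft (nat_lit 1) (Nat.land (Nat.shiftRight (V (nat_lit 50)) (S (nat_lit 12))) (nat_lit 65535)))))))
def E47_2 (V S : ℕ → ℕ) : ℕ := Nat.add (Nat.add (Nat.add (Nat.shiftLeft (nat_lit 1) (Nat.land (Nat.shiftRight (V (nat_lit 12)) (S (nat_lit 20))) (nat_lit 65535))) (Nat.add (Nat.shiftLeft (nat_lit 1) (Nat.land (Nat.shiftRight (V (nat_lit 12)) (S (nat_lit 38))) (nat_lit 65535))) (Nat.shiftLeft (nat_lit 1) (Nat.land (Nat.shiftRight (V (nat_lit 13)) (S (nat_lit 17))) (nat_lit 65535))))) (Nat.add (Nat.shiftLeft (nat_lit 1) (Nat.land (Nat.shiftRight (V (nat_lit 13)) (S (nat_lit 26)))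 (nat_lit 65535))) (Nat.add (Nat.shiftLeft (nat_lit 1) (Nat.land (Nat.shiftRight (V (nat_lit 14)) (S (nat_lit 21))) (nat_lit 65535))) (Nat.shiftLeft (nat_lit 1) (Nat.land (Nat.shiftRight (V (nat_lit 14)) (S (nat_lit 48))) (nat_lit 65535)))))) (Nat.add (Nat.add (Nat.shiftLeft (nat_lit 1) (Nat.land (Nat.shiftRight (V (nat_lit 17)) (S (nat_lit 13))) (nat_lit 65535))) (Nat.add (Nat.shiftLeft (nat_lit 1) (Nat.land (Nat.shiftRight (V (nat_lit 20)) (S (nat_lit 12))) (nat_lit 65535))) (Nat.shiftLeft (nat_lit 1) (Nat.land (Nat.shiftRight (V (nat_lit 21)) (S (nat_lit 14))) (nat_lit 65535))))) (Nat.add (Nat.shiftLeft (nat_lit 1) (Nat.land (Nat.shiftRight (V (nat_lit 26)) (S (nat_lit 13))) (nat_lit 65535))) (Nat.add (Nat.shiftLeft (nat_lit 1) (Nat.land (Nat.shiftRight (V (nat_lit 38)) (S (nat_lit 12))) (nat_lit 65535))) (Nat.shiftLeft (nat_lit 1) (Nat.land (Nat.shiftRight (V (nat_lit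 48)) (S (nat_lit 14))) (nat_lit 65535))))))
def E48_2 (V S : ℕ → ℕ) : ℕ := Nat.add (Nat.add (Nat.add (Nat.shiftLeft (nat_lit 1) (Nat.land (Nat.shiftRight (V (nat_lit 12)) (S (nat_lit 34))) (nat_lit 65535))) (Nat.add (Nat.shiftLeft (nat_lit 1) (Nat.land (Nat.shiftRight (V (nat_lit 12)) (S (nat_lit 54))) (nat_lit 65535))) (Nat.shiftLeft (nat_lit 1) (Nat.land (Nat.shiftRight (V (nat_lit 13)) (S (nat_lit 46))) (nat_lit 65535))))) (Nat.add (Nat.shiftLeft (nat_lit 1) (Nat.land (Nat.shiftRight (V (nat_lit 13)) (S (nat_lit 57))) (nat_lit 65535))) (Nat.add (Nat.shiftLeft (nat_lit 1) (Nat.land (Nat.shiftRight (V (nat_lit 14)) (S (nat_lit 32))) (nat_lit 65535))) (Nat.shiftLeft (nat_lit 1) (Nat.land (Nat.shiftRight (V (nat_lit 14)) (S (nat_lit 44))) (nat_lit 65535)))))) (Nat.add (Nat.add (Nat.shiftLeft (nat_lit 1) (Nat.land (Nat.shiftRight (V (nat_lit 32)) (S (nat_lit 14))) (nat_lit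 65535))) (Nat.add (Nat.shiftLeft (nat_lit 1) (Nat.land (Nat.shiftRight (V (nat_lit 34)) (S (nat_lit 12))) (nat_lit 65535))) (Nat.shiftLeft (nat_lit 1) (Nat.land (Nat.shiftRight (V (nat_lit 44)) (S (nat_lit 14))) (nat_lit 65535))))) (Nat.add (Nat.shiftLeft (nat_lit 1) (Nat.land (Nat.shiftRight (V (nat_lit 46)) (S (nat_lit 13))) (nat_lit 65535))) (Nat.add (Nat.shiftLeft (nat_lit 1) (Nat.land (Nat.shiftRight (V (nat_lit 54)) (S (nat_lit 12))) (nat_lit 65535))) (Nat.shiftLeft (nat_lit 1) (Nat.land (Nat.shiftRight (V (nat_lit 57)) (S (nat_lit 13))) (nat_lit 65535))))))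
def E49_2 (V S : ℕ → ℕ) : ℕ := Nat.add (Nat.add (Nat.add (Nat.add (Nat.shiftLeft (nat_lit 1) (Nat.land (Nat.shiftRight (V (nat_lit 15)) (S (nat_lit 16))) (nat_lit 65535))) (Nat.add (Nat.shiftLeft (nat_lit 1) (Nat.land (Nat.shiftRight (V (nat_lit 15)) (S (nat_lit 18))) (nat_lit 65535))) (Nat.shiftLeft (nat_lit 1) (Nat.land (Nat.shiftRight (V (nat_lit 16)) (S (nat_lit 15))) (nat_lit 65535))))) (Nat.add (Nat.shiftLeft (nat_lit 1) (Nat.land (Nat.shiftRight (V (nat_lit 16)) (S (nat_lit 22))) (nat_lit 65535))) (Nat.add (Nat.shiftLeft (nat_lit 1) (Nat.land (Nat.shiftRight (V (nat_lit 18)) (S (nat_lit 15))) (nat_lit 65535))) (Nat.shiftLeft (nat_lit 1) (Nat.land (Nat.shiftRight (V (nat_lit 18)) (S (nat_lit 19))) (nat_lit 65535)))))) (Nat.add (Nat.add (Nat.shiftLeft (nat_lit 1) (Nat.land (Nat.shiftRight (V (nat_lit 19)) (S (nat_lit 18))) (nat_lit 65535))) (Nat.add (Nat.shiftLeft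 (nat_lit 1) (Nat.land (Nat.shiftRight (V (nat_lit 19)) (S (nat_lit 23))) (nat_lit 65535))) (Nat.shiftLeft (nat_lit 1) (Nat.land (Nat.shiftRight (V (nat_lit 22)) (S (nat_lit 16))) (nat_lit 65535))))) (Nat.add (Nat.shiftLeft (nat_lit 1) (Nat.land (Nat.shiftRight (V (nat_lit 22)) (S (nat_lit 23))) (nat_lit 65535))) (Nat.add (Nat.shiftLeft (nat_lit 1) (Nat.land (Nat.shiftRight (V (nat_lit 23)) (S (nat_lit 19))) (nat_lit 65535))) (Nat.shiftLeft (nat_lit 1) (Nat.land (Nat.shiftRight (V (nat_lit 23)) (S (nat_lit 22))) (nat_lit 65535))))))) (Nat.add (Nat.add (Nat.add (Nat.shiftLeft (nat_lit 1) (Nat.land (Nat.shiftRight (V (nat_lit 24)) (S (nat_lit 25))) (nat_lit 65535))) (Nat.add (Nat.shiftLeft (nat_lit 1) (Nat.land (Nat.shiftRight (V (nat_lit 24)) (S (nat_lit 36))) (nat_lit 65535))) (Nat.shiftLeft (nat_lit 1) (Nat.land (Nat.shiftRight (V (nat_lit 25)) (S (nat_lit 24))) (nat_lit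 65535))))) (Nat.add (Nat.shiftLeft (nat_lit 1) (Nat.land (Nat.shiftRight (V (nat_lit 25)) (S (nat_lit 49))) (nat_lit 65535))) (Nat.add (Nat.shiftLeft (nat_lit 1) (Nat.land (Nat.shiftRight (V (nat_lit 36)) (S (nat_lit 24))) (nat_lit 65535))) (Nat.shiftLeft (nat_lit 1) (Nat.land (Nat.shiftRight (V (nat_lit 36)) (S (nat_lit 37))) (nat_lit 65535)))))) (Nat.add (Nat.add (Nat.shiftLeft (nat_lit 1) (Nat.land (Nat.shiftRight (V (nat_lit 37)) (S (nat_lit 36))) (nat_lit 65535))) (Nat.add (Nat.shiftLeft (nat_lit 1) (Nat.land (Nat.shiftRight (V (nat_lit 37)) (S (nat_lit 50))) (nat_lit 65535))) (Nat.shiftLeft (nat_lit 1) (Nat.land (Nat.shiftRight (V (nat_lit 49)) (S (nat_lit 25))) (nat_lit 65535))))) (Nat.add (Nat.shiftLeft (nat_lit 1) (Nat.land (Nat.shiftRight (V (nat_lit 49)) (S (nat_lit 50))) (nat_lit 65535))) (Nat.add (Nat.shiftLeft (nat_lit 1) (Nat.land (Nat.shiftRight (V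 (nat_lit 50)) (S (nat_lit 37))) (nat_lit 65535))) (Nat.shiftLeft (nat_lit 1) (Nat.land (Nat.shiftRight (V (nat_lit 50)) (S (nat_lit 49))) (nat_lit 65535)))))))
def E50_2 (V S : ℕ → ℕ) : ℕ := Nat.add (Nat.add (Nat.add (Nat.add (Nat.add (Nat.add (Nat.shiftLeft (nat_lit 1) (Nat.land (Nat.shiftRight (V (nat_lit 15)) (S (nat_lit 17))) (nat_lit 65535))) (Nat.shiftLeft (nat_lit 1) (Nat.land (Nat.shiftRight (V (nat_lit 15)) (S (nat_lit 21))) (nat_lit 65535)))) (Nat.add (Nat.shiftLeft (nat_lit 1) (Nat.land (Nat.shiftRight (V (nat_lit 15)) (S (nat_lit 25))) (nat_lit 65535))) (Nat.shiftLeft (nat_lit 1) (Nat.land (Nat.shiftRight (V (nat_lit 15)) (S (nat_lit 36))) (nat_lit 65535))))) (Nat.add (Nat.add (Nat.shiftLeft (nat_lit 1) (Nat.land (Nat.shiftRight (V (nat_lit 16)) (S (nat_lit 17))) (nat_lit 65535))) (Nat.shiftLeft (nat_lit 1) (Nat.land (Nat.shiftRight (V (nat_lit 16)) (S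 (nat_lit 20))) (nat_lit 65535)))) (Nat.add (Nat.shiftLeft (nat_lit 1) (Nat.land (Nat.shiftRight (V (nat_lit 16)) (S (nat_lit 24))) (nat_lit 65535))) (Nat.add (Nat.shiftLeft (nat_lit 1) (Nat.land (Nat.shiftRight (V (nat_lit 16)) (S (nat_lit 49))) (nat_lit 65535))) (Nat.shiftLeft (nat_lit 1) (Nat.land (Nat.shiftRight (V (nat_lit 17)) (S (nat_lit 15))) (nat_lit 65535))))))) (Nat.add (Nat.add (Nat.add (Nat.shiftLeft (nat_lit 1) (Nat.land (Nat.shiftRight (V (nat_lit 17)) (S (nat_lit 16))) (nat_lit 65535))) (Nat.shiftLeft (nat_lit 1) (Nat.land (Nat.shiftRight (V (nat_lit 17)) (S (nat_lit 19))) (nat_lit 65535)))) (Nat.add (Nat.shiftLeft (nat_lit 1) (Nat.land (Nat.shiftRight (V (nat_lit 17)) (S (nat_lit 23))) (nat_lit 65535))) (Nat.shiftLeft (nat_lit 1) (Nat.land (Nat.shiftRight (V (nat_lit 18)) (S (nat_lit 20))) (nat_lit 65535))))) (Nat.add (Nat.add (Nat.shiftLeft (nat_lit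 1) (Nat.land (Nat.shiftRight (V (nat_lit 18)) (S (nat_lit 21))) (nat_lit 65535))) (Nat.shiftLeft (nat_lit 1) (Nat.land (Nat.shiftRight (V (nat_lit 18)) (S (nat_lit 24))) (nat_lit 65535)))) (Nat.add (Nat.shiftLeft (nat_lit 1) (Nat.land (Nat.shiftRight (V (nat_lit 18)) (S (nat_lit 37))) (nat_lit 65535))) (Nat.add (Nat.shiftLeft (nat_lit 1) (Nat.land (Nat.shiftRight (V (nat_lit 19)) (S (nat_lit 17))) (nat_lit 65535))) (Nat.shiftLeft (nat_lit 1) (Nat.land (Nat.shiftRight (V (nat_lit 19)) (S (nat_lit 20))) (nat_lit 65535)))))))) (Nat.add (Nat.add (Nat.add (Nat.add (Nat.shiftLeft (nat_lit 1) (Nat.land (Nat.shiftRight (V (nat_lit 19)) (S (nat_lit 36))) (nat_lit 65535))) (Nat.shiftLeft (nat_lit 1) (Nat.land (Nat.shiftRight (V (nat_lit 19)) (S (nat_lit 50))) (nat_lit 65535)))) (Nat.add (Nat.shiftLeft (nat_lit 1) (Nat.land (Nat.shiftRight (V (nat_lit 20)) (S (nat_lit 16)))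 (nat_lit 65535))) (Nat.shiftLeft (nat_lit 1) (Nat.land (Nat.shiftRight (V (nat_lit 20)) (S (nat_lit 18))) (nat_lit 65535))))) (Nat.add (Nat.add (Nat.shiftLeft (nat_lit 1) (Nat.land (Nat.shiftRight (V (nat_lit 20)) (S (nat_lit 19))) (nat_lit 65535))) (Nat.shiftLeft (nat_lit 1) (Nat.land (Nat.shiftRight (V (nat_lit 20)) (S (nat_lit 22))) (nat_lit 65535)))) (Nat.add (Nat.shiftLeft (nat_lit 1) (Nat.land (Nat.shiftRight (V (nat_lit 21)) (S (nat_lit 15))) (nat_lit 65535))) (Nat.add (Nat.shiftLeft (nat_lit 1) (Nat.land (Nat.shiftRight (V (nat_lit 21)) (S (nat_lit 18))) (nat_lit 65535))) (Nat.shiftLeft (nat_lit 1) (Nat.land (Nat.shiftRight (V (nat_lit 21)) (S (nat_lit 22))) (nat_lit 65535))))))) (Nat.add (Nat.add (Nat.add (Nat.shiftLeft (nat_lit 1) (Nat.land (Nat.shiftRight (V (nat_lit 21)) (S (nat_lit 23))) (nat_lit 65535))) (Nat.shiftLeft (nat_lit 1) (Nat.land (Nat.shiftRight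 (V (nat_lit 22)) (S (nat_lit 20))) (nat_lit 65535)))) (Nat.add (Nat.shiftLeft (nat_lit 1) (Nat.land (Nat.shiftRight (V (nat_lit 22)) (S (nat_lit 21))) (nat_lit 65535))) (Nat.shiftLeft (nat_lit 1) (Nat.land (Nat.shiftRight (V (nat_lit 22)) (S (nat_lit 25))) (nat_lit 65535))))) (Nat.add (Nat.add (Nat.shiftLeft (nat_lit 1) (Nat.land (Nat.shiftRight (V (nat_lit 22)) (S (nat_lit 50))) (nat_lit 65535))) (Nat.shiftLeft (nat_lit 1) (Nat.land (Nat.shiftRight (V (nat_lit 23)) (S (nat_lit 17))) (nat_lit 65535)))) (Nat.add (Nat.shiftLeft (nat_lit 1) (Nat.land (Nat.shiftRight (V (nat_lit 23)) (S (nat_lit 21))) (nat_lit 65535))) (Nat.add (Nat.shiftLeft (nat_lit 1) (Nat.land (Nat.shiftRight (V (nat_lit 23)) (S (nat_lit 37))) (nat_lit 65535))) (Nat.shiftLeft (nat_lit 1) (Nat.land (Nat.shiftRight (V (nat_lit 23)) (S (nat_lit 49))) (nat_lit 65535))))))))) (Nat.add (Nat.add (Nat.add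 (Nat.add (Nat.add (Nat.shiftLeft (nat_lit 1) (Nat.land (Nat.shiftRight (V (nat_lit 24)) (S (nat_lit 16))) (nat_lit 65535))) (Nat.shiftLeft (nat_lit 1) (Nat.land (Nat.shiftRight (V (nat_lit 24)) (S (nat_lit 18))) (nat_lit 65535)))) (Nat.add (Nat.shiftLeft (nat_lit 1) (Nat.land (Nat.shiftRight (V (nat_lit 24)) (S (nat_lit 26))) (nat_lit 65535))) (Nat.shiftLeft (nat_lit 1) (Nat.land (Nat.shiftRight (V (nat_lit 24)) (S (nat_lit 48))) (nat_lit 65535))))) (Nat.add (Nat.add (Nat.shiftLeft (nat_lit 1) (Nat.land (Nat.shiftRight (V (nat_lit 25)) (S (nat_lit 15))) (nat_lit 65535))) (Nat.shiftLeft (nat_lit 1) (Nat.land (Nat.shiftRight (V (nat_lit 25)) (S (nat_lit 22))) (nat_lit 65535)))) (Nat.add (Nat.shiftLeft (nat_lit 1) (Nat.land (Nat.shiftRight (V (nat_lit 25)) (S (nat_lit 26))) (nat_lit 65535))) (Nat.add (Nat.shiftLeft (nat_lit 1) (Nat.land (Nat.shiftRight (V (nat_lit 25))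 (S (nat_lit 38))) (nat_lit 65535))) (Nat.shiftLeft (nat_lit 1) (Nat.land (Nat.shiftRight (V (nat_lit 26)) (S (nat_lit 24))) (nat_lit 65535))))))) (Nat.add (Nat.add (Nat.add (Nat.shiftLeft (nat_lit 1) (Nat.land (Nat.shiftRight (V (nat_lit 26)) (S (nat_lit 25))) (nat_lit 65535))) (Nat.shiftLeft (nat_lit 1) (Nat.land (Nat.shiftRight (V (nat_lit 26)) (S (nat_lit 37))) (nat_lit 65535)))) (Nat.add (Nat.shiftLeft (nat_lit 1) (Nat.land (Nat.shiftRight (V (nat_lit 26)) (S (nat_lit 50))) (nat_lit 65535))) (Nat.shiftLeft (nat_lit 1) (Nat.land (Nat.shiftRight (V (nat_lit 36)) (S (nat_lit 15))) (nat_lit 65535))))) (Nat.add (Nat.add (Nat.shiftLeft (nat_lit 1) (Nat.land (Nat.shiftRight (V (nat_lit 36)) (S (nat_lit 19))) (nat_lit 65535))) (Nat.shiftLeft (nat_lit 1) (Nat.land (Nat.shiftRight (V (nat_lit 36)) (S (nat_lit 38))) (nat_lit 65535)))) (Nat.add (Nat.shiftLeft (nat_lit 1)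 (Nat.land (Nat.shiftRight (V (nat_lit 36)) (S (nat_lit 48))) (nat_lit 65535))) (Nat.add (Nat.shiftLeft (nat_lit 1) (Nat.land (Nat.shiftRight (V (nat_lit 37)) (S (nat_lit 18))) (nat_lit 65535))) (Nat.shiftLeft (nat_lit 1) (Nat.land (Nat.shiftRight (V (nat_lit 37)) (S (nat_lit 23))) (nat_lit 65535)))))))) (Nat.add (Nat.add (Nat.add (Nat.add (Nat.shiftLeft (nat_lit 1) (Nat.land (Nat.shiftRight (V (nat_lit 37)) (S (nat_lit 26))) (nat_lit 65535))) (Nat.shiftLeft (nat_lit 1) (Nat.land (Nat.shiftRight (V (nat_lit 37)) (S (nat_lit 38))) (nat_lit 65535)))) (Nat.add (Nat.shiftLeft (nat_lit 1) (Nat.land (Nat.shiftRight (V (nat_lit 38)) (S (nat_lit 25))) (nat_lit 65535))) (Nat.shiftLeft (nat_lit 1) (Nat.land (Nat.shiftRight (V (nat_lit 38)) (S (nat_lit 36))) (nat_lit 65535))))) (Nat.add (Nat.add (Nat.shiftLeft (nat_lit 1) (Nat.land (Nat.shiftRight (V (nat_lit 38)) (S (nat_lit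 37))) (nat_lit 65535))) (Nat.shiftLeft (nat_lit 1) (Nat.land (Nat.shiftRight (V (nat_lit 38)) (S (nat_lit 49))) (nat_lit 65535)))) (Nat.add (Nat.shiftLeft (nat_lit 1) (Nat.land (Nat.shiftRight (V (nat_lit 48)) (S (nat_lit 24))) (nat_lit 65535))) (Nat.add (Nat.shiftLeft (nat_lit 1) (Nat.land (Nat.shiftRight (V (nat_lit 48)) (S (nat_lit 36))) (nat_lit 65535))) (Nat.shiftLeft (nat_lit 1) (Nat.land (Nat.shiftRight (V (nat_lit 48)) (S (nat_lit 49))) (nat_lit 65535))))))) (Nat.add (Nat.add (Nat.add (Nat.shiftLeft (nat_lit 1) (Nat.land (Nat.shiftRight (V (nat_lit 48)) (S (nat_lit 50))) (nat_lit 65535))) (Nat.shiftLeft (nat_lit 1) (Nat.land (Nat.shiftRight (V (nat_lit 49)) (S (nat_lit 16))) (nat_lit 65535)))) (Nat.add (Nat.shiftLeft (nat_lit 1) (Nat.land (Nat.shiftRight (V (nat_lit 49)) (S (nat_lit 23))) (nat_lit 65535))) (Nat.shiftLeft (nat_lit 1) (Nat.land (Nat.shiftRight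 (V (nat_lit 49)) (S (nat_lit 38))) (nat_lit 65535))))) (Nat.add (Nat.add (Nat.shiftLeft (nat_lit 1) (Nat.land (Nat.shiftRight (V (nat_lit 49)) (S (nat_lit 48))) (nat_lit 65535))) (Nat.shiftLeft (nat_lit 1) (Nat.land (Nat.shiftRight (V (nat_lit 50)) (S (nat_lit 19))) (nat_lit 65535)))) (Nat.add (Nat.shiftLeft (nat_lit 1) (Nat.land (Nat.shiftRight (V (nat_lit 50)) (S (nat_lit 22))) (nat_lit 65535))) (Nat.add (Nat.shiftLeft (nat_lit 1) (Nat.land (Nat.shiftRight (V (nat_lit 50)) (S (nat_lit 26))) (nat_lit 65535))) (Nat.shiftLeft (nat_lit 1) (Nat.land (Nat.shiftRight (V (nat_lit 50)) (S (nat_lit 48))) (nat_lit 65535)))))))))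
def E51_2 (V S : ℕ → ℕ) : ℕ := Nat.add (Nat.add (Nat.add (Nat.add (Nat.add (Nat.shiftLeft (nat_lit 1) (Nat.land (Nat.shiftRight (V (nat_lit 15)) (S (nat_lit 23))) (nat_lit 65535))) (Nat.shiftLeft (nat_lit 1) (Nat.land (Nat.shiftRight (V (nat_lit 15)) (S (nat_lit 42))) (nat_lit 65535)))) (Nat.add (Nat.shiftLeft (nat_lit 1) (Nat.land (Nat.shiftRight (V (nat_lit 16)) (S (nat_lit 19))) (nat_lit 65535))) (Nat.shiftLeft (nat_lit 1) (Nat.land (Nat.shiftRight (V (nat_lit 16)) (S (nat_lit 55))) (nat_lit 65535))))) (Nat.add (Nat.add (Nat.shiftLeft (nat_lit 1) (Nat.land (Nat.shiftRight (V (nat_lit 18)) (S (nat_lit 22))) (nat_lit 65535))) (Nat.shiftLeft (nat_lit 1) (Nat.land (Nat.shiftRight (V (nat_lit 18)) (S (nat_lit 30))) (nat_lit 65535)))) (Nat.add (Nat.shiftLeft (nat_lit 1) (Nat.land (Nat.shiftRight (V (nat_lit 19)) (S (nat_lit 16))) (nat_lit 65535))) (Nat.add (Nat.shiftLeft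 (nat_lit 1) (Nat.land (Nat.shiftRight (V (nat_lit 19)) (S (nat_lit 58))) (nat_lit 65535))) (Nat.shiftLeft (nat_lit 1) (Nat.land (Nat.shiftRight (V (nat_lit 22)) (S (nat_lit 18))) (nat_lit 65535))))))) (Nat.add (Nat.add (Nat.add (Nat.shiftLeft (nat_lit 1) (Nat.land (Nat.shiftRight (V (nat_lit 22)) (S (nat_lit 35))) (nat_lit 65535))) (Nat.shiftLeft (nat_lit 1) (Nat.land (Nat.shiftRight (V (nat_lit 23)) (S (nat_lit 15))) (nat_lit 65535)))) (Nat.add (Nat.shiftLeft (nat_lit 1) (Nat.land (Nat.shiftRight (V (nat_lit 23)) (S (nat_lit 47))) (nat_lit 65535))) (Nat.shiftLeft (nat_lit 1) (Nat.land (Nat.shiftRight (V (nat_lit 24)) (S (nat_lit 31))) (nat_lit 65535))))) (Nat.add (Nat.add (Nat.shiftLeft (nat_lit 1) (Nat.land (Nat.shiftRight (V (nat_lit 24)) (S (nat_lit 50))) (nat_lit 65535))) (Nat.shiftLeft (nat_lit 1) (Nat.land (Nat.shiftRight (V (nat_lit 25)) (S (nat_lit 33)))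 (nat_lit 65535)))) (Nat.add (Nat.shiftLeft (nat_lit 1) (Nat.land (Nat.shiftRight (V (nat_lit 25)) (S (nat_lit 37))) (nat_lit 65535))) (Nat.add (Nat.shiftLeft (nat_lit 1) (Nat.land (Nat.shiftRight (V (nat_lit 30)) (S (nat_lit 18))) (nat_lit 65535))) (Nat.shiftLeft (nat_lit 1) (Nat.land (Nat.shiftRight (V (nat_lit 31)) (S (nat_lit 24))) (nat_lit 65535)))))))) (Nat.add (Nat.add (Nat.add (Nat.add (Nat.shiftLeft (nat_lit 1) (Nat.land (Nat.shiftRight (V (nat_lit 33)) (S (nat_lit 25))) (nat_lit 65535))) (Nat.shiftLeft (nat_lit 1) (Nat.land (Nat.shiftRight (V (nat_lit 35)) (S (nat_lit 22))) (nat_lit 65535)))) (Nat.add (Nat.shiftLeft (nat_lit 1) (Nat.land (Nat.shiftRight (V (nat_lit 36)) (S (nat_lit 43))) (nat_lit 65535))) (Nat.shiftLeft (nat_lit 1) (Nat.land (Nat.shiftRight (V (nat_lit 36)) (S (nat_lit 49))) (nat_lit 65535))))) (Nat.add (Nat.add (Nat.shiftLeft (nat_lit 1)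 (Nat.land (Nat.shiftRight (V (nat_lit 37)) (S (nat_lit 25))) (nat_lit 65535))) (Nat.shiftLeft (nat_lit 1) (Nat.land (Nat.shiftRight (V (nat_lit 37)) (S (nat_lit 45))) (nat_lit 65535)))) (Nat.add (Nat.shiftLeft (nat_lit 1) (Nat.land (Nat.shiftRight (V (nat_lit 42)) (S (nat_lit 15))) (nat_lit 65535))) (Nat.add (Nat.shiftLeft (nat_lit 1) (Nat.land (Nat.shiftRight (V (nat_lit 43)) (S (nat_lit 36))) (nat_lit 65535))) (Nat.shiftLeft (nat_lit 1) (Nat.land (Nat.shiftRight (V (nat_lit 45)) (S (nat_lit 37))) (nat_lit 65535))))))) (Nat.add (Nat.add (Nat.add (Nat.shiftLeft (nat_lit 1) (Nat.land (Nat.shiftRight (V (nat_lit 47)) (S (nat_lit 23))) (nat_lit 65535))) (Nat.shiftLeft (nat_lit 1) (Nat.land (Nat.shiftRight (V (nat_lit 49)) (S (nat_lit 36))) (nat_lit 65535)))) (Nat.add (Nat.shiftLeft (nat_lit 1) (Nat.land (Nat.shiftRight (V (nat_lit 49)) (S (nat_lit 56))) (nat_lit 65535)))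 (Nat.shiftLeft (nat_lit 1) (Nat.land (Nat.shiftRight (V (nat_lit 50)) (S (nat_lit 24))) (nat_lit 65535))))) (Nat.add (Nat.add (Nat.shiftLeft (nat_lit 1) (Nat.land (Nat.shiftRight (V (nat_lit 50)) (S (nat_lit 59))) (nat_lit 65535))) (Nat.shiftLeft (nat_lit 1) (Nat.land (Nat.shiftRight (V (nat_lit 55)) (S (nat_lit 16))) (nat_lit 65535)))) (Nat.add (Nat.shiftLeft (nat_lit 1) (Nat.land (Nat.shiftRight (V (nat_lit 56)) (S (nat_lit 49))) (nat_lit 65535))) (Nat.add (Nat.shiftLeft (nat_lit 1) (Nat.land (Nat.shiftRight (V (nat_lit 58)) (S (nat_lit 19))) (nat_lit 65535))) (Nat.shiftLeft (nat_lit 1) (Nat.land (Nat.shiftRight (V (nat_lit 59)) (S (nat_lit 50))) (nat_lit 65535))))))))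
def E52_2 (V S : ℕ → ℕ) : ℕ := Nat.add (Nat.add (Nat.add (Nat.add (Nat.shiftLeft (nat_lit 1) (Nat.land (Nat.shiftRight (V (nat_lit 15)) (S (nat_lit 47))) (nat_lit 65535))) (Nat.add (Nat.shiftLeft (nat_lit 1) (Nat.land (Nat.shiftRight (V (nat_lit 16)) (S (nat_lit 58))) (nat_lit 65535))) (Nat.shiftLeft (nat_lit 1) (Nat.land (Nat.shiftRight (V (nat_lit 18)) (S (nat_lit 35))) (nat_lit 65535))))) (Nat.add (Nat.shiftLeft (nat_lit 1) (Nat.land (Nat.shiftRight (V (nat_lit 19)) (S (nat_lit 55))) (nat_lit 65535))) (Nat.add (Nat.shiftLeft (nat_lit 1) (Nat.land (Nat.shiftRight (V (nat_lit 22)) (S (nat_lit 30))) (nat_lit 65535))) (Nat.shiftLeft (nat_lit 1) (Nat.land (Nat.shiftRight (V (nat_lit 23)) (S (nat_lit 42))) (nat_lit 65535)))))) (Nat.add (Nat.add (Nat.shiftLeft (nat_lit 1) (Nat.land (Nat.shiftRight (V (nat_lit 24)) (S (nat_lit 59))) (nat_lit 65535))) (Nat.add (Nat.shiftLeft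 (nat_lit 1) (Nat.land (Nat.shiftRight (V (nat_lit 25)) (S (nat_lit 45))) (nat_lit 65535))) (Nat.shiftLeft (nat_lit 1) (Nat.land (Nat.shiftRight (V (nat_lit 30)) (S (nat_lit 22))) (nat_lit 65535))))) (Nat.add (Nat.shiftLeft (nat_lit 1) (Nat.land (Nat.shiftRight (V (nat_lit 31)) (S (nat_lit 50))) (nat_lit 65535))) (Nat.add (Nat.shiftLeft (nat_lit 1) (Nat.land (Nat.shiftRight (V (nat_lit 33)) (S (nat_lit 37))) (nat_lit 65535))) (Nat.shiftLeft (nat_lit 1) (Nat.land (Nat.shiftRight (V (nat_lit 35)) (S (nat_lit 18))) (nat_lit 65535))))))) (Nat.add (Nat.add (Nat.add (Nat.shiftLeft (nat_lit 1) (Nat.land (Nat.shiftRight (V (nat_lit 36)) (S (nat_lit 56))) (nat_lit 65535))) (Nat.add (Nat.shiftLeft (nat_lit 1) (Nat.land (Nat.shiftRight (V (nat_lit 37)) (S (nat_lit 33))) (nat_lit 65535))) (Nat.shiftLeft (nat_lit 1) (Nat.land (Nat.shiftRight (V (nat_lit 42)) (S (nat_lit 23))) (nat_lit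 65535))))) (Nat.add (Nat.shiftLeft (nat_lit 1) (Nat.land (Nat.shiftRight (V (nat_lit 43)) (S (nat_lit 49))) (nat_lit 65535))) (Nat.add (Nat.shiftLeft (nat_lit 1) (Nat.land (Nat.shiftRight (V (nat_lit 45)) (S (nat_lit 25))) (nat_lit 65535))) (Nat.shiftLeft (nat_lit 1) (Nat.land (Nat.shiftRight (V (nat_lit 47)) (S (nat_lit 15))) (nat_lit 65535)))))) (Nat.add (Nat.add (Nat.shiftLeft (nat_lit 1) (Nat.land (Nat.shiftRight (V (nat_lit 49)) (S (nat_lit 43))) (nat_lit 65535))) (Nat.add (Nat.shiftLeft (nat_lit 1) (Nat.land (Nat.shiftRight (V (nat_lit 50)) (S (nat_lit 31))) (nat_lit 65535))) (Nat.shiftLeft (nat_lit 1) (Nat.land (Nat.shiftRight (V (nat_lit 55)) (S (nat_lit 19))) (nat_lit 65535))))) (Nat.add (Nat.shiftLeft (nat_lit 1) (Nat.land (Nat.shiftRight (V (nat_lit 56)) (S (nat_lit 36))) (nat_lit 65535))) (Nat.add (Nat.shiftLeft (nat_lit 1) (Nat.land (Nat.shiftRight (V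 (nat_lit 58)) (S (nat_lit 16))) (nat_lit 65535))) (Nat.shiftLeft (nat_lit 1) (Nat.land (Nat.shiftRight (V (nat_lit 59)) (S (nat_lit 24))) (nat_lit 65535)))))))
def E53_2 (V S : ℕ → ℕ) : ℕ := Nat.add (Nat.add (Nat.add (Nat.add (Nat.add (Nat.shiftLeft (nat_lit 1) (Nat.land (Nat.shiftRight (V (nat_lit 15)) (S (nat_lit 50))) (nat_lit 65535))) (Nat.shiftLeft (nat_lit 1) (Nat.land (Nat.shiftRight (V (nat_lit 15)) (S (nat_lit 54))) (nat_lit 65535)))) (Nat.add (Nat.shiftLeft (nat_lit 1) (Nat.land (Nat.shiftRight (V (nat_lit 16)) (S (nat_lit 37))) (nat_lit 65535))) (Nat.shiftLeft (nat_lit 1) (Nat.land (Nat.shiftRight (V (nat_lit 16)) (S (nat_lit 44))) (nat_lit 65535))))) (Nat.add (Nat.add (Nat.shiftLeft (nat_lit 1) (Nat.land (Nat.shiftRight (V (nat_lit 18)) (S (nat_lit 49))) (nat_lit 65535))) (Nat.shiftLeft (nat_lit 1) (Nat.land (Nat.shiftRight (V (nat_lit 18)) (S (nat_lit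 57))) (nat_lit 65535)))) (Nat.add (Nat.shiftLeft (nat_lit 1) (Nat.land (Nat.shiftRight (V (nat_lit 19)) (S (nat_lit 25))) (nat_lit 65535))) (Nat.add (Nat.shiftLeft (nat_lit 1) (Nat.land (Nat.shiftRight (V (nat_lit 19)) (S (nat_lit 32))) (nat_lit 65535))) (Nat.shiftLeft (nat_lit 1) (Nat.land (Nat.shiftRight (V (nat_lit 22)) (S (nat_lit 36))) (nat_lit 65535))))))) (Nat.add (Nat.add (Nat.add (Nat.shiftLeft (nat_lit 1) (Nat.land (Nat.shiftRight (V (nat_lit 22)) (S (nat_lit 46))) (nat_lit 65535))) (Nat.shiftLeft (nat_lit 1) (Nat.land (Nat.shiftRight (V (nat_lit 23)) (S (nat_lit 24))) (nat_lit 65535)))) (Nat.add (Nat.shiftLeft (nat_lit 1) (Nat.land (Nat.shiftRight (V (nat_lit 23)) (S (nat_lit 34))) (nat_lit 65535))) (Nat.shiftLeft (nat_lit 1) (Nat.land (Nat.shiftRight (V (nat_lit 24)) (S (nat_lit 23))) (nat_lit 65535))))) (Nat.add (Nat.add (Nat.shiftLeft (nat_lit 1) (Nat.land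 (Nat.shiftRight (V (nat_lit 24)) (S (nat_lit 34))) (nat_lit 65535))) (Nat.shiftLeft (nat_lit 1) (Nat.land (Nat.shiftRight (V (nat_lit 25)) (S (nat_lit 19))) (nat_lit 65535)))) (Nat.add (Nat.shiftLeft (nat_lit 1) (Nat.land (Nat.shiftRight (V (nat_lit 25)) (S (nat_lit 32))) (nat_lit 65535))) (Nat.add (Nat.shiftLeft (nat_lit 1) (Nat.land (Nat.shiftRight (V (nat_lit 32)) (S (nat_lit 19))) (nat_lit 65535))) (Nat.shiftLeft (nat_lit 1) (Nat.land (Nat.shiftRight (V (nat_lit 32)) (S (nat_lit 25))) (nat_lit 65535)))))))) (Nat.add (Nat.add (Nat.add (Nat.add (Nat.shiftLeft (nat_lit 1) (Nat.land (Nat.shiftRight (V (nat_lit 34)) (S (nat_lit 23))) (nat_lit 65535))) (Nat.shiftLeft (nat_lit 1) (Nat.land (Nat.shiftRight (V (nat_lit 34)) (S (nat_lit 24))) (nat_lit 65535)))) (Nat.add (Nat.shiftLeft (nat_lit 1) (Nat.land (Nat.shiftRight (V (nat_lit 36)) (S (nat_lit 22))) (nat_lit 65535)))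 (Nat.shiftLeft (nat_lit 1) (Nat.land (Nat.shiftRight (V (nat_lit 36)) (S (nat_lit 46))) (nat_lit 65535))))) (Nat.add (Nat.add (Nat.shiftLeft (nat_lit 1) (Nat.land (Nat.shiftRight (V (nat_lit 37)) (S (nat_lit 16))) (nat_lit 65535))) (Nat.shiftLeft (nat_lit 1) (Nat.land (Nat.shiftRight (V (nat_lit 37)) (S (nat_lit 44))) (nat_lit 65535)))) (Nat.add (Nat.shiftLeft (nat_lit 1) (Nat.land (Nat.shiftRight (V (nat_lit 44)) (S (nat_lit 16))) (nat_lit 65535))) (Nat.add (Nat.shiftLeft (nat_lit 1) (Nat.land (Nat.shiftRight (V (nat_lit 44)) (S (nat_lit 37))) (nat_lit 65535))) (Nat.shiftLeft (nat_lit 1) (Nat.land (Nat.shiftRight (V (nat_lit 46)) (S (nat_lit 22))) (nat_lit 65535))))))) (Nat.add (Nat.add (Nat.add (Nat.shiftLeft (nat_lit 1) (Nat.land (Nat.shiftRight (V (nat_lit 46)) (S (nat_lit 36))) (nat_lit 65535))) (Nat.shiftLeft (nat_lit 1) (Nat.land (Nat.shiftRight (V (nat_lit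 49)) (S (nat_lit 18))) (nat_lit 65535)))) (Nat.add (Nat.shiftLeft (nat_lit 1) (Nat.land (Nat.shiftRight (V (nat_lit 49)) (S (nat_lit 57))) (nat_lit 65535))) (Nat.shiftLeft (nat_lit 1) (Nat.land (Nat.shiftRight (V (nat_lit 50)) (S (nat_lit 15))) (nat_lit 65535))))) (Nat.add (Nat.add (Nat.shiftLeft (nat_lit 1) (Nat.land (Nat.shiftRight (V (nat_lit 50)) (S (nat_lit 54))) (nat_lit 65535))) (Nat.shiftLeft (nat_lit 1) (Nat.land (Nat.shiftRight (V (nat_lit 54)) (S (nat_lit 15))) (nat_lit 65535)))) (Nat.add (Nat.shiftLeft (nat_lit 1) (Nat.land (Nat.shiftRight (V (nat_lit 54)) (S (nat_lit 50))) (nat_lit 65535))) (Nat.add (Nat.shiftLeft (nat_lit 1) (Nat.land (Nat.shiftRight (V (nat_lit 57)) (S (nat_lit 18))) (nat_lit 65535))) (Nat.shiftLeft (nat_lit 1) (Nat.land (Nat.shiftRight (V (nat_lit 57)) (S (nat_lit 49))) (nat_lit 65535))))))))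
def E54_2 (V S : ℕ → ℕ) : ℕ := Nat.add (Nat.add (Nat.add (Nat.add (Nat.shiftLeft (nat_lit 1) (Nat.land (Nat.shiftRight (V (nat_lit 15)) (S (nat_lit 59))) (nat_lit 65535))) (Nat.add (Nat.shiftLeft (nat_lit 1) (Nat.land (Nat.shiftRight (V (nat_lit 16)) (S (nat_lit 45))) (nat_lit 65535))) (Nat.shiftLeft (nat_lit 1) (Nat.land (Nat.shiftRight (V (nat_lit 18)) (S (nat_lit 56))) (nat_lit 65535))))) (Nat.add (Nat.shiftLeft (nat_lit 1) (Nat.land (Nat.shiftRight (V (nat_lit 19)) (S (nat_lit 33))) (nat_lit 65535))) (Nat.add (Nat.shiftLeft (nat_lit 1) (Nat.land (Nat.shiftRight (V (nat_lit 22)) (S (nat_lit 43))) (nat_lit 65535))) (Nat.shiftLeft (nat_lit 1) (Nat.land (Nat.shiftRight (V (nat_lit 23)) (S (nat_lit 31))) (nat_lit 65535)))))) (Nat.add (Nat.add (Nat.shiftLeft (nat_lit 1) (Nat.land (Nat.shiftRight (V (nat_lit 24)) (S (nat_lit 47))) (nat_lit 65535))) (Nat.add (Nat.shiftLeft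 (nat_lit 1) (Nat.land (Nat.shiftRight (V (nat_lit 25)) (S (nat_lit 58))) (nat_lit 65535))) (Nat.shiftLeft (nat_lit 1) (Nat.land (Nat.shiftRight (V (nat_lit 30)) (S (nat_lit 49))) (nat_lit 65535))))) (Nat.add (Nat.shiftLeft (nat_lit 1) (Nat.land (Nat.shiftRight (V (nat_lit 31)) (S (nat_lit 23))) (nat_lit 65535))) (Nat.add (Nat.shiftLeft (nat_lit 1) (Nat.land (Nat.shiftRight (V (nat_lit 33)) (S (nat_lit 19))) (nat_lit 65535))) (Nat.shiftLeft (nat_lit 1) (Nat.land (Nat.shiftRight (V (nat_lit 35)) (S (nat_lit 36))) (nat_lit 65535))))))) (Nat.add (Nat.add (Nat.add (Nat.shiftLeft (nat_lit 1) (Nat.land (Nat.shiftRight (V (nat_lit 36)) (S (nat_lit 35))) (nat_lit 65535))) (Nat.add (Nat.shiftLeft (nat_lit 1) (Nat.land (Nat.shiftRight (V (nat_lit 37)) (S (nat_lit 55))) (nat_lit 65535))) (Nat.shiftLeft (nat_lit 1) (Nat.land (Nat.shiftRight (V (nat_lit 42)) (S (nat_lit 50))) (nat_lit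 65535))))) (Nat.add (Nat.shiftLeft (nat_lit 1) (Nat.land (Nat.shiftRight (V (nat_lit 43)) (S (nat_lit 22))) (nat_lit 65535))) (Nat.add (Nat.shiftLeft (nat_lit 1) (Nat.land (Nat.shiftRight (V (nat_lit 45)) (S (nat_lit 16))) (nat_lit 65535))) (Nat.shiftLeft (nat_lit 1) (Nat.land (Nat.shiftRight (V (nat_lit 47)) (S (nat_lit 24))) (nat_lit 65535)))))) (Nat.add (Nat.add (Nat.shiftLeft (nat_lit 1) (Nat.land (Nat.shiftRight (V (nat_lit 49)) (S (nat_lit 30))) (nat_lit 65535))) (Nat.add (Nat.shiftLeft (nat_lit 1) (Nat.land (Nat.shiftRight (V (nat_lit 50)) (S (nat_lit 42))) (nat_lit 65535))) (Nat.shiftLeft (nat_lit 1) (Nat.land (Nat.shiftRight (V (nat_lit 55)) (S (nat_lit 37))) (nat_lit 65535))))) (Nat.add (Nat.shiftLeft (nat_lit 1) (Nat.land (Nat.shiftRight (V (nat_lit 56)) (S (nat_lit 18))) (nat_lit 65535))) (Nat.add (Nat.shiftLeft (nat_lit 1) (Nat.land (Nat.shiftRight (V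 (nat_lit 58)) (S (nat_lit 25))) (nat_lit 65535))) (Nat.shiftLeft (nat_lit 1) (Nat.land (Nat.shiftRight (V (nat_lit 59)) (S (nat_lit 15))) (nat_lit 65535)))))))
def E55_2 (V S : ℕ → ℕ) : ℕ := Nat.add (Nat.add (Nat.add (Nat.add (Nat.shiftLeft (nat_lit 1) (Nat.land (Nat.shiftRight (V (nat_lit 17)) (S (nat_lit 20))) (nat_lit 65535))) (Nat.add (Nat.shiftLeft (nat_lit 1) (Nat.land (Nat.shiftRight (V (nat_lit 17)) (S (nat_lit 21))) (nat_lit 65535))) (Nat.shiftLeft (nat_lit 1) (Nat.land (Nat.shiftRight (V (nat_lit 20)) (S (nat_lit 17))) (nat_lit 65535))))) (Nat.add (Nat.shiftLeft (nat_lit 1) (Nat.land (Nat.shiftRight (V (nat_lit 20)) (S (nat_lit 21))) (nat_lit 65535))) (Nat.add (Nat.shiftLeft (nat_lit 1) (Nat.land (Nat.shiftRight (V (nat_lit 21)) (S (nat_lit 17))) (nat_lit 65535))) (Nat.shiftLeft (nat_lit 1) (Nat.land (Nat.shiftRight (V (nat_lit 21)) (S (nat_lit 20))) (nat_lit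 65535)))))) (Nat.add (Nat.add (Nat.shiftLeft (nat_lit 1) (Nat.land (Nat.shiftRight (V (nat_lit 26)) (S (nat_lit 38))) (nat_lit 65535))) (Nat.add (Nat.shiftLeft (nat_lit 1) (Nat.land (Nat.shiftRight (V (nat_lit 26)) (S (nat_lit 48))) (nat_lit 65535))) (Nat.shiftLeft (nat_lit 1) (Nat.land (Nat.shiftRight (V (nat_lit 32)) (S (nat_lit 34))) (nat_lit 65535))))) (Nat.add (Nat.shiftLeft (nat_lit 1) (Nat.land (Nat.shiftRight (V (nat_lit 32)) (S (nat_lit 57))) (nat_lit 65535))) (Nat.add (Nat.shiftLeft (nat_lit 1) (Nat.land (Nat.shiftRight (V (nat_lit 34)) (S (nat_lit 32))) (nat_lit 65535))) (Nat.shiftLeft (nat_lit 1) (Nat.land (Nat.shiftRight (V (nat_lit 34)) (S (nat_lit 46))) (nat_lit 65535))))))) (Nat.add (Nat.add (Nat.add (Nat.shiftLeft (nat_lit 1) (Nat.land (Nat.shiftRight (V (nat_lit 38)) (S (nat_lit 26))) (nat_lit 65535))) (Nat.add (Nat.shiftLeft (nat_lit 1) (Nat.land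 (Nat.shiftRight (V (nat_lit 38)) (S (nat_lit 48))) (nat_lit 65535))) (Nat.shiftLeft (nat_lit 1) (Nat.land (Nat.shiftRight (V (nat_lit 44)) (S (nat_lit 46))) (nat_lit 65535))))) (Nat.add (Nat.shiftLeft (nat_lit 1) (Nat.land (Nat.shiftRight (V (nat_lit 44)) (S (nat_lit 54))) (nat_lit 65535))) (Nat.add (Nat.shiftLeft (nat_lit 1) (Nat.land (Nat.shiftRight (V (nat_lit 46)) (S (nat_lit 34))) (nat_lit 65535))) (Nat.shiftLeft (nat_lit 1) (Nat.land (Nat.shiftRight (V (nat_lit 46)) (S (nat_lit 44))) (nat_lit 65535)))))) (Nat.add (Nat.add (Nat.shiftLeft (nat_lit 1) (Nat.land (Nat.shiftRight (V (nat_lit 48)) (S (nat_lit 26))) (nat_lit 65535))) (Nat.add (Nat.shiftLeft (nat_lit 1) (Nat.land (Nat.shiftRight (V (nat_lit 48)) (S (nat_lit 38))) (nat_lit 65535))) (Nat.shiftLeft (nat_lit 1) (Nat.land (Nat.shiftRight (V (nat_lit 54)) (S (nat_lit 44))) (nat_lit 65535))))) (Nat.add (Nat.shiftLeft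 (nat_lit 1) (Nat.land (Nat.shiftRight (V (nat_lit 54)) (S (nat_lit 57))) (nat_lit 65535))) (Nat.add (Nat.shiftLeft (nat_lit 1) (Nat.land (Nat.shiftRight (V (nat_lit 57)) (S (nat_lit 32))) (nat_lit 65535))) (Nat.shiftLeft (nat_lit 1) (Nat.land (Nat.shiftRight (V (nat_lit 57)) (S (nat_lit 54))) (nat_lit 65535)))))))
def E56_2 (V S : ℕ → ℕ) : ℕ := Nat.add (Nat.add (Nat.shiftLeft (nat_lit 1) (Nat.land (Nat.shiftRight (V (nat_lit 17)) (S (nat_lit 26))) (nat_lit 65535))) (Nat.add (Nat.shiftLeft (nat_lit 1) (Nat.land (Nat.shiftRight (V (nat_lit 20)) (S (nat_lit 38))) (nat_lit 65535))) (Nat.shiftLeft (nat_lit 1) (Nat.land (Nat.shiftRight (V (nat_lit 21)) (S (nat_lit 48))) (nat_lit 65535))))) (Nat.add (Nat.shiftLeft (nat_lit 1) (Nat.land (Nat.shiftRight (V (nat_lit 26)) (S (nat_lit 17))) (nat_lit 65535))) (Nat.add (Nat.shiftLeft (nat_lit 1) (Nat.land (Nat.shiftRight (V (nat_lit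 38)) (S (nat_lit 20))) (nat_lit 65535))) (Nat.shiftLeft (nat_lit 1) (Nat.land (Nat.shiftRight (V (nat_lit 48)) (S (nat_lit 21))) (nat_lit 65535)))))
def E57_2 (V S : ℕ → ℕ) : ℕ := Nat.add (Nat.add (Nat.add (Nat.add (Nat.add (Nat.shiftLeft (nat_lit 1) (Nat.land (Nat.shiftRight (V (nat_lit 17)) (S (nat_lit 32))) (nat_lit 65535))) (Nat.add (Nat.shiftLeft (nat_lit 1) (Nat.land (Nat.shiftRight (V (nat_lit 17)) (S (nat_lit 34))) (nat_lit 65535))) (Nat.shiftLeft (nat_lit 1) (Nat.land (Nat.shiftRight (V (nat_lit 17)) (S (nat_lit 44))) (nat_lit 65535))))) (Nat.add (Nat.shiftLeft (nat_lit 1) (Nat.land (Nat.shiftRight (V (nat_lit 17)) (S (nat_lit 54))) (nat_lit 65535))) (Nat.add (Nat.shiftLeft (nat_lit 1) (Nat.land (Nat.shiftRight (V (nat_lit 20)) (S (nat_lit 32))) (nat_lit 65535))) (Nat.shiftLeft (nat_lit 1) (Nat.land (Nat.shiftRight (V (nat_lit 20)) (S (nat_lit 44))) (nat_lit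 65535)))))) (Nat.add (Nat.add (Nat.shiftLeft (nat_lit 1) (Nat.land (Nat.shiftRight (V (nat_lit 20)) (S (nat_lit 46))) (nat_lit 65535))) (Nat.add (Nat.shiftLeft (nat_lit 1) (Nat.land (Nat.shiftRight (V (nat_lit 20)) (S (nat_lit 57))) (nat_lit 65535))) (Nat.shiftLeft (nat_lit 1) (Nat.land (Nat.shiftRight (V (nat_lit 21)) (S (nat_lit 34))) (nat_lit 65535))))) (Nat.add (Nat.shiftLeft (nat_lit 1) (Nat.land (Nat.shiftRight (V (nat_lit 21)) (S (nat_lit 46))) (nat_lit 65535))) (Nat.add (Nat.shiftLeft (nat_lit 1) (Nat.land (Nat.shiftRight (V (nat_lit 21)) (S (nat_lit 54))) (nat_lit 65535))) (Nat.shiftLeft (nat_lit 1) (Nat.land (Nat.shiftRight (V (nat_lit 21)) (S (nat_lit 57))) (nat_lit 65535))))))) (Nat.add (Nat.add (Nat.add (Nat.shiftLeft (nat_lit 1) (Nat.land (Nat.shiftRight (V (nat_lit 26)) (S (nat_lit 32))) (nat_lit 65535))) (Nat.add (Nat.shiftLeft (nat_lit 1) (Nat.land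 (Nat.shiftRight (V (nat_lit 26)) (S (nat_lit 34))) (nat_lit 65535))) (Nat.shiftLeft (nat_lit 1) (Nat.land (Nat.shiftRight (V (nat_lit 26)) (S (nat_lit 44))) (nat_lit 65535))))) (Nat.add (Nat.shiftLeft (nat_lit 1) (Nat.land (Nat.shiftRight (V (nat_lit 26)) (S (nat_lit 54))) (nat_lit 65535))) (Nat.add (Nat.shiftLeft (nat_lit 1) (Nat.land (Nat.shiftRight (V (nat_lit 32)) (S (nat_lit 17))) (nat_lit 65535))) (Nat.shiftLeft (nat_lit 1) (Nat.land (Nat.shiftRight (V (nat_lit 32)) (S (nat_lit 20))) (nat_lit 65535)))))) (Nat.add (Nat.add (Nat.shiftLeft (nat_lit 1) (Nat.land (Nat.shiftRight (V (nat_lit 32)) (S (nat_lit 26))) (nat_lit 65535))) (Nat.add (Nat.shiftLeft (nat_lit 1) (Nat.land (Nat.shiftRight (V (nat_lit 32)) (S (nat_lit 38))) (nat_lit 65535))) (Nat.shiftLeft (nat_lit 1) (Nat.land (Nat.shiftRight (V (nat_lit 34)) (S (nat_lit 17))) (nat_lit 65535))))) (Nat.add (Nat.shiftLeft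 (nat_lit 1) (Nat.land (Nat.shiftRight (V (nat_lit 34)) (S (nat_lit 21))) (nat_lit 65535))) (Nat.add (Nat.shiftLeft (nat_lit 1) (Nat.land (Nat.shiftRight (V (nat_lit 34)) (S (nat_lit 26))) (nat_lit 65535))) (Nat.shiftLeft (nat_lit 1) (Nat.land (Nat.shiftRight (V (nat_lit 34)) (S (nat_lit 48))) (nat_lit 65535)))))))) (Nat.add (Nat.add (Nat.add (Nat.add (Nat.shiftLeft (nat_lit 1) (Nat.land (Nat.shiftRight (V (nat_lit 38)) (S (nat_lit 32))) (nat_lit 65535))) (Nat.add (Nat.shiftLeft (nat_lit 1) (Nat.land (Nat.shiftRight (V (nat_lit 38)) (S (nat_lit 44))) (nat_lit 65535))) (Nat.shiftLeft (nat_lit 1) (Nat.land (Nat.shiftRight (V (nat_lit 38)) (S (nat_lit 46))) (nat_lit 65535))))) (Nat.add (Nat.shiftLeft (nat_lit 1) (Nat.land (Nat.shiftRight (V (nat_lit 38)) (S (nat_lit 57))) (nat_lit 65535))) (Nat.add (Nat.shiftLeft (nat_lit 1) (Nat.land (Nat.shiftRight (V (nat_lit 44))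 (S (nat_lit 17))) (nat_lit 65535))) (Nat.shiftLeft (nat_lit 1) (Nat.land (Nat.shiftRight (V (nat_lit 44)) (S (nat_lit 20))) (nat_lit 65535)))))) (Nat.add (Nat.add (Nat.shiftLeft (nat_lit 1) (Nat.land (Nat.shiftRight (V (nat_lit 44)) (S (nat_lit 26))) (nat_lit 65535))) (Nat.add (Nat.shiftLeft (nat_lit 1) (Nat.land (Nat.shiftRight (V (nat_lit 44)) (S (nat_lit 38))) (nat_lit 65535))) (Nat.shiftLeft (nat_lit 1) (Nat.land (Nat.shiftRight (V (nat_lit 46)) (S (nat_lit 20))) (nat_lit 65535))))) (Nat.add (Nat.shiftLeft (nat_lit 1) (Nat.land (Nat.shiftRight (V (nat_lit 46)) (S (nat_lit 21))) (nat_lit 65535))) (Nat.add (Nat.shiftLeft (nat_lit 1) (Nat.land (Nat.shiftRight (V (nat_lit 46)) (S (nat_lit 38))) (nat_lit 65535))) (Nat.shiftLeft (nat_lit 1) (Nat.land (Nat.shiftRight (V (nat_lit 46)) (S (nat_lit 48))) (nat_lit 65535))))))) (Nat.add (Nat.add (Nat.add (Nat.shiftLeft (nat_lit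 1) (Nat.land (Nat.shiftRight (V (nat_lit 48)) (S (nat_lit 34))) (nat_lit 65535))) (Nat.add (Nat.shiftLeft (nat_lit 1) (Nat.land (Nat.shiftRight (V (nat_lit 48)) (S (nat_lit 46))) (nat_lit 65535))) (Nat.shiftLeft (nat_lit 1) (Nat.land (Nat.shiftRight (V (nat_lit 48)) (S (nat_lit 54))) (nat_lit 65535))))) (Nat.add (Nat.shiftLeft (nat_lit 1) (Nat.land (Nat.shiftRight (V (nat_lit 48)) (S (nat_lit 57))) (nat_lit 65535))) (Nat.add (Nat.shiftLeft (nat_lit 1) (Nat.land (Nat.shiftRight (V (nat_lit 54)) (S (nat_lit 17))) (nat_lit 65535))) (Nat.shiftLeft (nat_lit 1) (Nat.land (Nat.shiftRight (V (nat_lit 54)) (S (nat_lit 21))) (nat_lit 65535)))))) (Nat.add (Nat.add (Nat.shiftLeft (nat_lit 1) (Nat.land (Nat.shiftRight (V (nat_lit 54)) (S (nat_lit 26))) (nat_lit 65535))) (Nat.add (Nat.shiftLeft (nat_lit 1) (Nat.land (Nat.shiftRight (V (nat_lit 54)) (S (nat_lit 48))) (nat_lit 65535)))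 (Nat.shiftLeft (nat_lit 1) (Nat.land (Nat.shiftRight (V (nat_lit 57)) (S (nat_lit 20))) (nat_lit 65535))))) (Nat.add (Nat.shiftLeft (nat_lit 1) (Nat.land (Nat.shiftRight (V (nat_lit 57)) (S (nat_lit 21))) (nat_lit 65535))) (Nat.add (Nat.shiftLeft (nat_lit 1) (Nat.land (Nat.shiftRight (V (nat_lit 57)) (S (nat_lit 38))) (nat_lit 65535))) (Nat.shiftLeft (nat_lit 1) (Nat.land (Nat.shiftRight (V (nat_lit 57)) (S (nat_lit 48))) (nat_lit 65535))))))))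
def E58_2 (V S : ℕ → ℕ) : ℕ := Nat.add (Nat.add (Nat.add (Nat.shiftLeft (nat_lit 1) (Nat.land (Nat.shiftRight (V (nat_lit 17)) (S (nat_lit 38))) (nat_lit 65535))) (Nat.add (Nat.shiftLeft (nat_lit 1) (Nat.land (Nat.shiftRight (V (nat_lit 17)) (S (nat_lit 48))) (nat_lit 65535))) (Nat.shiftLeft (nat_lit 1) (Nat.land (Nat.shiftRight (V (nat_lit 20)) (S (nat_lit 26))) (nat_lit 65535))))) (Nat.add (Nat.shiftLeft (nat_lit 1) (Nat.land (Nat.shiftRight (V (nat_lit 20)) (S (nat_lit 48))) (nat_lit 65535))) (Nat.add (Nat.shiftLeft (nat_lit 1) (Nat.land (Nat.shiftRight (V (nat_lit 21)) (S (nat_lit 26))) (nat_lit 65535))) (Nat.shiftLeft (nat_lit 1) (Nat.land (Nat.shiftRight (V (nat_lit 21)) (S (nat_lit 38))) (nat_lit 65535)))))) (Nat.add (Nat.add (Nat.shiftLeft (nat_lit 1) (Nat.land (Nat.shiftRight (V (nat_lit 26)) (S (nat_lit 20))) (nat_lit 65535))) (Nat.add (Nat.shiftLeft (nat_lit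 1) (Nat.land (Nat.shiftRight (V (nat_lit 26)) (S (nat_lit 21))) (nat_lit 65535))) (Nat.shiftLeft (nat_lit 1) (Nat.land (Nat.shiftRight (V (nat_lit 38)) (S (nat_lit 17))) (nat_lit 65535))))) (Nat.add (Nat.shiftLeft (nat_lit 1) (Nat.land (Nat.shiftRight (V (nat_lit 38)) (S (nat_lit 21))) (nat_lit 65535))) (Nat.add (Nat.shiftLeft (nat_lit 1) (Nat.land (Nat.shiftRight (V (nat_lit 48)) (S (nat_lit 17))) (nat_lit 65535))) (Nat.shiftLeft (nat_lit 1) (Nat.land (Nat.shiftRight (V (nat_lit 48)) (S (nat_lit 20))) (nat_lit 65535))))))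
def E59_2 (V S : ℕ → ℕ) : ℕ := Nat.add (Nat.add (Nat.add (Nat.add (Nat.shiftLeft (nat_lit 1) (Nat.land (Nat.shiftRight (V (nat_lit 30)) (S (nat_lit 31))) (nat_lit 65535))) (Nat.add (Nat.shiftLeft (nat_lit 1) (Nat.land (Nat.shiftRight (V (nat_lit 30)) (S (nat_lit 45))) (nat_lit 65535))) (Nat.shiftLeft (nat_lit 1) (Nat.land (Nat.shiftRight (V (nat_lit 31)) (S (nat_lit 30))) (nat_lit 65535))))) (Nat.add (Nat.shiftLeft (nat_lit 1) (Nat.land (Nat.shiftRight (V (nat_lit 31)) (S (nat_lit 55))) (nat_lit 65535))) (Nat.add (Nat.shiftLeft (nat_lit 1) (Nat.land (Nat.shiftRight (V (nat_lit 33)) (S (nat_lit 35))) (nat_lit 65535))) (Nat.shiftLeft (nat_lit 1) (Nat.land (Nat.shiftRight (V (nat_lit 33)) (S (nat_lit 42))) (nat_lit 65535)))))) (Nat.add (Nat.add (Nat.shiftLeft (nat_lit 1) (Nat.land (Nat.shiftRight (V (nat_lit 35)) (S (nat_lit 33))) (nat_lit 65535))) (Nat.add (Nat.shiftLeft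 (nat_lit 1) (Nat.land (Nat.shiftRight (V (nat_lit 35)) (S (nat_lit 59))) (nat_lit 65535))) (Nat.shiftLeft (nat_lit 1) (Nat.land (Nat.shiftRight (V (nat_lit 42)) (S (nat_lit 33))) (nat_lit 65535))))) (Nat.add (Nat.shiftLeft (nat_lit 1) (Nat.land (Nat.shiftRight (V (nat_lit 42)) (S (nat_lit 43))) (nat_lit 65535))) (Nat.add (Nat.shiftLeft (nat_lit 1) (Nat.land (Nat.shiftRight (V (nat_lit 43)) (S (nat_lit 42))) (nat_lit 65535))) (Nat.shiftLeft (nat_lit 1) (Nat.land (Nat.shiftRight (V (nat_lit 43)) (S (nat_lit 58))) (nat_lit 65535))))))) (Nat.add (Nat.add (Nat.add (Nat.shiftLeft (nat_lit 1) (Nat.land (Nat.shiftRight (V (nat_lit 45)) (S (nat_lit 30))) (nat_lit 65535))) (Nat.add (Nat.shiftLeft (nat_lit 1) (Nat.land (Nat.shiftRight (V (nat_lit 45)) (S (nat_lit 47))) (nat_lit 65535))) (Nat.shiftLeft (nat_lit 1) (Nat.land (Nat.shiftRight (V (nat_lit 47)) (S (nat_lit 45))) (nat_lit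 65535))))) (Nat.add (Nat.shiftLeft (nat_lit 1) (Nat.land (Nat.shiftRight (V (nat_lit 47)) (S (nat_lit 56))) (nat_lit 65535))) (Nat.add (Nat.shiftLeft (nat_lit 1) (Nat.land (Nat.shiftRight (V (nat_lit 55)) (S (nat_lit 31))) (nat_lit 65535))) (Nat.shiftLeft (nat_lit 1) (Nat.land (Nat.shiftRight (V (nat_lit 55)) (S (nat_lit 56))) (nat_lit 65535)))))) (Nat.add (Nat.add (Nat.shiftLeft (nat_lit 1) (Nat.land (Nat.shiftRight (V (nat_lit 56)) (S (nat_lit 47))) (nat_lit 65535))) (Nat.add (Nat.shiftLeft (nat_lit 1) (Nat.land (Nat.shiftRight (V (nat_lit 56)) (S (nat_lit 55))) (nat_lit 65535))) (Nat.shiftLeft (nat_lit 1) (Nat.land (Nat.shiftRight (V (nat_lit 58)) (S (nat_lit 43))) (nat_lit 65535))))) (Nat.add (Nat.shiftLeft (nat_lit 1) (Nat.land (Nat.shiftRight (V (nat_lit 58)) (S (nat_lit 59))) (nat_lit 65535))) (Nat.add (Nat.shiftLeft (nat_lit 1) (Nat.land (Nat.shiftRight (V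 (nat_lit 59)) (S (nat_lit 35))) (nat_lit 65535))) (Nat.shiftLeft (nat_lit 1) (Nat.land (Nat.shiftRight (V (nat_lit 59)) (S (nat_lit 58))) (nat_lit 65535)))))))
def E60_2 (V S : ℕ → ℕ) : ℕ := Nat.add (Nat.add (Nat.add (Nat.add (Nat.add (Nat.shiftLeft (nat_lit 1) (Nat.land (Nat.shiftRight (V (nat_lit 30)) (S (nat_lit 32))) (nat_lit 65535))) (Nat.add (Nat.shiftLeft (nat_lit 1) (Nat.land (Nat.shiftRight (V (nat_lit 30)) (S (nat_lit 54))) (nat_lit 65535))) (Nat.shiftLeft (nat_lit 1) (Nat.land (Nat.shiftRight (V (nat_lit 31)) (S (nat_lit 32))) (nat_lit 65535))))) (Nat.add (Nat.shiftLeft (nat_lit 1) (Nat.land (Nat.shiftRight (V (nat_lit 31)) (S (nat_lit 46))) (nat_lit 65535))) (Nat.add (Nat.shiftLeft (nat_lit 1) (Nat.land (Nat.shiftRight (V (nat_lit 32)) (S (nat_lit 30))) (nat_lit 65535))) (Nat.shiftLeft (nat_lit 1) (Nat.land (Nat.shiftRight (V (nat_lit 32)) (S (nat_lit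 31))) (nat_lit 65535)))))) (Nat.add (Nat.add (Nat.shiftLeft (nat_lit 1) (Nat.land (Nat.shiftRight (V (nat_lit 32)) (S (nat_lit 47))) (nat_lit 65535))) (Nat.add (Nat.shiftLeft (nat_lit 1) (Nat.land (Nat.shiftRight (V (nat_lit 32)) (S (nat_lit 56))) (nat_lit 65535))) (Nat.shiftLeft (nat_lit 1) (Nat.land (Nat.shiftRight (V (nat_lit 33)) (S (nat_lit 34))) (nat_lit 65535))))) (Nat.add (Nat.shiftLeft (nat_lit 1) (Nat.land (Nat.shiftRight (V (nat_lit 33)) (S (nat_lit 57))) (nat_lit 65535))) (Nat.add (Nat.shiftLeft (nat_lit 1) (Nat.land (Nat.shiftRight (V (nat_lit 34)) (S (nat_lit 33))) (nat_lit 65535))) (Nat.shiftLeft (nat_lit 1) (Nat.land (Nat.shiftRight (V (nat_lit 34)) (S (nat_lit 35))) (nat_lit 65535))))))) (Nat.add (Nat.add (Nat.add (Nat.shiftLeft (nat_lit 1) (Nat.land (Nat.shiftRight (V (nat_lit 34)) (S (nat_lit 43))) (nat_lit 65535))) (Nat.add (Nat.shiftLeft (nat_lit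 1) (Nat.land (Nat.shiftRight (V (nat_lit 34)) (S (nat_lit 58))) (nat_lit 65535))) (Nat.shiftLeft (nat_lit 1) (Nat.land (Nat.shiftRight (V (nat_lit 35)) (S (nat_lit 34))) (nat_lit 65535))))) (Nat.add (Nat.shiftLeft (nat_lit 1) (Nat.land (Nat.shiftRight (V (nat_lit 35)) (S (nat_lit 44))) (nat_lit 65535))) (Nat.add (Nat.shiftLeft (nat_lit 1) (Nat.land (Nat.shiftRight (V (nat_lit 42)) (S (nat_lit 44))) (nat_lit 65535))) (Nat.shiftLeft (nat_lit 1) (Nat.land (Nat.shiftRight (V (nat_lit 42)) (S (nat_lit 57))) (nat_lit 65535)))))) (Nat.add (Nat.add (Nat.shiftLeft (nat_lit 1) (Nat.land (Nat.shiftRight (V (nat_lit 43)) (S (nat_lit 34))) (nat_lit 65535))) (Nat.add (Nat.shiftLeft (nat_lit 1) (Nat.land (Nat.shiftRight (V (nat_lit 43)) (S (nat_lit 44))) (nat_lit 65535))) (Nat.shiftLeft (nat_lit 1) (Nat.land (Nat.shiftRight (V (nat_lit 44)) (S (nat_lit 35))) (nat_lit 65535)))))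 (Nat.add (Nat.shiftLeft (nat_lit 1) (Nat.land (Nat.shiftRight (V (nat_lit 44)) (S (nat_lit 42))) (nat_lit 65535))) (Nat.add (Nat.shiftLeft (nat_lit 1) (Nat.land (Nat.shiftRight (V (nat_lit 44)) (S (nat_lit 43))) (nat_lit 65535))) (Nat.shiftLeft (nat_lit 1) (Nat.land (Nat.shiftRight (V (nat_lit 44)) (S (nat_lit 59))) (nat_lit 65535)))))))) (Nat.add (Nat.add (Nat.add (Nat.add (Nat.shiftLeft (nat_lit 1) (Nat.land (Nat.shiftRight (V (nat_lit 45)) (S (nat_lit 46))) (nat_lit 65535))) (Nat.add (Nat.shiftLeft (nat_lit 1) (Nat.land (Nat.shiftRight (V (nat_lit 45)) (S (nat_lit 54))) (nat_lit 65535))) (Nat.shiftLeft (nat_lit 1) (Nat.land (Nat.shiftRight (V (nat_lit 46)) (S (nat_lit 31))) (nat_lit 65535))))) (Nat.add (Nat.shiftLeft (nat_lit 1) (Nat.land (Nat.shiftRight (V (nat_lit 46)) (S (nat_lit 45))) (nat_lit 65535))) (Nat.add (Nat.shiftLeft (nat_lit 1) (Nat.land (Nat.shiftRight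 (V (nat_lit 46)) (S (nat_lit 47))) (nat_lit 65535))) (Nat.shiftLeft (nat_lit 1) (Nat.land (Nat.shiftRight (V (nat_lit 46)) (S (nat_lit 55))) (nat_lit 65535)))))) (Nat.add (Nat.add (Nat.shiftLeft (nat_lit 1) (Nat.land (Nat.shiftRight (V (nat_lit 47)) (S (nat_lit 32))) (nat_lit 65535))) (Nat.add (Nat.shiftLeft (nat_lit 1) (Nat.land (Nat.shiftRight (V (nat_lit 47)) (S (nat_lit 46))) (nat_lit 65535))) (Nat.shiftLeft (nat_lit 1) (Nat.land (Nat.shiftRight (V (nat_lit 54)) (S (nat_lit 30))) (nat_lit 65535))))) (Nat.add (Nat.shiftLeft (nat_lit 1) (Nat.land (Nat.shiftRight (V (nat_lit 54)) (S (nat_lit 45))) (nat_lit 65535))) (Nat.add (Nat.shiftLeft (nat_lit 1) (Nat.land (Nat.shiftRight (V (nat_lit 54)) (S (nat_lit 55))) (nat_lit 65535))) (Nat.shiftLeft (nat_lit 1) (Nat.land (Nat.shiftRight (V (nat_lit 54)) (S (nat_lit 56))) (nat_lit 65535))))))) (Nat.add (Nat.add (Nat.add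 (Nat.shiftLeft (nat_lit 1) (Nat.land (Nat.shiftRight (V (nat_lit 55)) (S (nat_lit 46))) (nat_lit 65535))) (Nat.add (Nat.shiftLeft (nat_lit 1) (Nat.land (Nat.shiftRight (V (nat_lit 55)) (S (nat_lit 54))) (nat_lit 65535))) (Nat.shiftLeft (nat_lit 1) (Nat.land (Nat.shiftRight (V (nat_lit 56)) (S (nat_lit 32))) (nat_lit 65535))))) (Nat.add (Nat.shiftLeft (nat_lit 1) (Nat.land (Nat.shiftRight (V (nat_lit 56)) (S (nat_lit 54))) (nat_lit 65535))) (Nat.add (Nat.shiftLeft (nat_lit 1) (Nat.land (Nat.shiftRight (V (nat_lit 57)) (S (nat_lit 33))) (nat_lit 65535))) (Nat.shiftLeft (nat_lit 1) (Nat.land (Nat.shiftRight (V (nat_lit 57)) (S (nat_lit 42))) (nat_lit 65535)))))) (Nat.add (Nat.add (Nat.shiftLeft (nat_lit 1) (Nat.land (Nat.shiftRight (V (nat_lit 57)) (S (nat_lit 58))) (nat_lit 65535))) (Nat.add (Nat.shiftLeft (nat_lit 1) (Nat.land (Nat.shiftRight (V (nat_lit 57)) (S (nat_lit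 59))) (nat_lit 65535))) (Nat.shiftLeft (nat_lit 1) (Nat.land (Nat.shiftRight (V (nat_lit 58)) (S (nat_lit 34))) (nat_lit 65535))))) (Nat.add (Nat.shiftLeft (nat_lit 1) (Nat.land (Nat.shiftRight (V (nat_lit 58)) (S (nat_lit 57))) (nat_lit 65535))) (Nat.add (Nat.shiftLeft (nat_lit 1) (Nat.land (Nat.shiftRight (V (nat_lit 59)) (S (nat_lit 44))) (nat_lit 65535))) (Nat.shiftLeft (nat_lit 1) (Nat.land (Nat.shiftRight (V (nat_lit 59)) (S (nat_lit 57))) (nat_lit 65535))))))))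
def E61_2 (V S : ℕ → ℕ) : ℕ := Nat.add (Nat.add (Nat.add (Nat.shiftLeft (nat_lit 1) (Nat.land (Nat.shiftRight (V (nat_lit 30)) (S (nat_lit 35))) (nat_lit 65535))) (Nat.add (Nat.shiftLeft (nat_lit 1) (Nat.land (Nat.shiftRight (V (nat_lit 31)) (S (nat_lit 59))) (nat_lit 65535))) (Nat.shiftLeft (nat_lit 1) (Nat.land (Nat.shiftRight (V (nat_lit 33)) (S (nat_lit 45))) (nat_lit 65535))))) (Nat.add (Nat.shiftLeft (nat_lit 1) (Nat.land (Nat.shiftRight (V (nat_lit 35)) (S (nat_lit 30))) (nat_lit 65535))) (Nat.add (Nat.shiftLeft (nat_lit 1) (Nat.land (Nat.shiftRight (V (nat_lit 42)) (S (nat_lit 47))) (nat_lit 65535))) (Nat.shiftLeft (nat_lit 1) (Nat.land (Nat.shiftRight (V (nat_lit 43)) (S (nat_lit 56))) (nat_lit 65535)))))) (Nat.add (Nat.add (Nat.shiftLeft (nat_lit 1) (Nat.land (Nat.shiftRight (V (nat_lit 45)) (S (nat_lit 33))) (nat_lit 65535))) (Nat.add (Nat.shiftLeft (nat_lit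 1) (Nat.land (Nat.shiftRight (V (nat_lit 47)) (S (nat_lit 42))) (nat_lit 65535))) (Nat.shiftLeft (nat_lit 1) (Nat.land (Nat.shiftRight (V (nat_lit 55)) (S (nat_lit 58))) (nat_lit 65535))))) (Nat.add (Nat.shiftLeft (nat_lit 1) (Nat.land (Nat.shiftRight (V (nat_lit 56)) (S (nat_lit 43))) (nat_lit 65535))) (Nat.add (Nat.shiftLeft (nat_lit 1) (Nat.land (Nat.shiftRight (V (nat_lit 58)) (S (nat_lit 55))) (nat_lit 65535))) (Nat.shiftLeft (nat_lit 1) (Nat.land (Nat.shiftRight (V (nat_lit 59)) (S (nat_lit 31))) (nat_lit 65535))))))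
def E62_2 (V S : ℕ → ℕ) : ℕ := Nat.add (Nat.add (Nat.add (Nat.add (Nat.shiftLeft (nat_lit 1) (Nat.land (Nat.shiftRight (V (nat_lit 30)) (S (nat_lit 42))) (nat_lit 65535))) (Nat.add (Nat.shiftLeft (nat_lit 1) (Nat.land (Nat.shiftRight (V (nat_lit 30)) (S (nat_lit 58))) (nat_lit 65535))) (Nat.shiftLeft (nat_lit 1) (Nat.land (Nat.shiftRight (V (nat_lit 31)) (S (nat_lit 33))) (nat_lit 65535))))) (Nat.add (Nat.shiftLeft (nat_lit 1) (Nat.land (Nat.shiftRight (V (nat_lit 31)) (S (nat_lit 43))) (nat_lit 65535))) (Nat.add (Nat.shiftLeft (nat_lit 1) (Nat.land (Nat.shiftRight (V (nat_lit 33)) (S (nat_lit 31))) (nat_lit 65535))) (Nat.shiftLeft (nat_lit 1) (Nat.land (Nat.shiftRight (V (nat_lit 33)) (S (nat_lit 56))) (nat_lit 65535)))))) (Nat.add (Nat.add (Nat.shiftLeft (nat_lit 1) (Nat.land (Nat.shiftRight (V (nat_lit 35)) (S (nat_lit 47))) (nat_lit 65535))) (Nat.add (Nat.shiftLeft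 (nat_lit 1) (Nat.land (Nat.shiftRight (V (nat_lit 35)) (S (nat_lit 55))) (nat_lit 65535))) (Nat.shiftLeft (nat_lit 1) (Nat.land (Nat.shiftRight (V (nat_lit 42)) (S (nat_lit 30))) (nat_lit 65535))))) (Nat.add (Nat.shiftLeft (nat_lit 1) (Nat.land (Nat.shiftRight (V (nat_lit 42)) (S (nat_lit 55))) (nat_lit 65535))) (Nat.add (Nat.shiftLeft (nat_lit 1) (Nat.land (Nat.shiftRight (V (nat_lit 43)) (S (nat_lit 31))) (nat_lit 65535))) (Nat.shiftLeft (nat_lit 1) (Nat.land (Nat.shiftRight (V (nat_lit 43)) (S (nat_lit 45))) (nat_lit 65535))))))) (Nat.add (Nat.add (Nat.add (Nat.shiftLeft (nat_lit 1) (Nat.land (Nat.shiftRight (V (nat_lit 45)) (S (nat_lit 43))) (nat_lit 65535))) (Nat.add (Nat.shiftLeft (nat_lit 1) (Nat.land (Nat.shiftRight (V (nat_lit 45)) (S (nat_lit 59))) (nat_lit 65535))) (Nat.shiftLeft (nat_lit 1) (Nat.land (Nat.shiftRight (V (nat_lit 47)) (S (nat_lit 35))) (nat_lit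 65535))))) (Nat.add (Nat.shiftLeft (nat_lit 1) (Nat.land (Nat.shiftRight (V (nat_lit 47)) (S (nat_lit 58))) (nat_lit 65535))) (Nat.add (Nat.shiftLeft (nat_lit 1) (Nat.land (Nat.shiftRight (V (nat_lit 55)) (S (nat_lit 35))) (nat_lit 65535))) (Nat.shiftLeft (nat_lit 1) (Nat.land (Nat.shiftRight (V (nat_lit 55)) (S (nat_lit 42))) (nat_lit 65535)))))) (Nat.add (Nat.add (Nat.shiftLeft (nat_lit 1) (Nat.land (Nat.shiftRight (V (nat_lit 56)) (S (nat_lit 33))) (nat_lit 65535))) (Nat.add (Nat.shiftLeft (nat_lit 1) (Nat.land (Nat.shiftRight (V (nat_lit 56)) (S (nat_lit 59))) (nat_lit 65535))) (Nat.shiftLeft (nat_lit 1) (Nat.land (Nat.shiftRight (V (nat_lit 58)) (S (nat_lit 30))) (nat_lit 65535))))) (Nat.add (Nat.shiftLeft (nat_lit 1) (Nat.land (Nat.shiftRight (V (nat_lit 58)) (S (nat_lit 47))) (nat_lit 65535))) (Nat.add (Nat.shiftLeft (nat_lit 1) (Nat.land (Nat.shiftRight (V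 (nat_lit 59)) (S (nat_lit 45))) (nat_lit 65535))) (Nat.shiftLeft (nat_lit 1) (Nat.land (Nat.shiftRight (V (nat_lit 59)) (S (nat_lit 56))) (nat_lit 65535)))))))
def E63_2 (V S : ℕ → ℕ) : ℕ := Nat.add (Nat.add (Nat.add (Nat.shiftLeft (nat_lit 1) (Nat.land (Nat.shiftRight (V (nat_lit 30)) (S (nat_lit 43))) (nat_lit 65535))) (Nat.add (Nat.shiftLeft (nat_lit 1) (Nat.land (Nat.shiftRight (V (nat_lit 31)) (S (nat_lit 42))) (nat_lit 65535))) (Nat.shiftLeft (nat_lit 1) (Nat.land (Nat.shiftRight (V (nat_lit 33)) (S (nat_lit 55))) (nat_lit 65535))))) (Nat.add (Nat.shiftLeft (nat_lit 1) (Nat.land (Nat.shiftRight (V (nat_lit 35)) (S (nat_lit 56))) (nat_lit 65535))) (Nat.add (Nat.shiftLeft (nat_lit 1) (Nat.land (Nat.shiftRight (V (nat_lit 42)) (S (nat_lit 31))) (nat_lit 65535))) (Nat.shiftLeft (nat_lit 1) (Nat.land (Nat.shiftRight (V (nat_lit 43)) (S (nat_lit 30))) (nat_lit 65535))))))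 (Nat.add (Nat.add (Nat.shiftLeft (nat_lit 1) (Nat.land (Nat.shiftRight (V (nat_lit 45)) (S (nat_lit 58))) (nat_lit 65535))) (Nat.add (Nat.shiftLeft (nat_lit 1) (Nat.land (Nat.shiftRight (V (nat_lit 47)) (S (nat_lit 59))) (nat_lit 65535))) (Nat.shiftLeft (nat_lit 1) (Nat.land (Nat.shiftRight (V (nat_lit 55)) (S (nat_lit 33))) (nat_lit 65535))))) (Nat.add (Nat.shiftLeft (nat_lit 1) (Nat.land (Nat.shiftRight (V (nat_lit 56)) (S (nat_lit 35))) (nat_lit 65535))) (Nat.add (Nat.shiftLeft (nat_lit 1) (Nat.land (Nat.shiftRight (V (nat_lit 58)) (S (nat_lit 45))) (nat_lit 65535))) (Nat.shiftLeft (nat_lit 1) (Nat.land (Nat.shiftRight (V (nat_lit 59)) (S (nat_lit 47))) (nat_lit 65535))))))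
def E64_2 (V S : ℕ → ℕ) : ℕ := Nat.add (Nat.add (Nat.add (Nat.shiftLeft (nat_lit 1) (Nat.land (Nat.shiftRight (V (nat_lit 30)) (S (nat_lit 56))) (nat_lit 65535))) (Nat.add (Nat.shiftLeft (nat_lit 1) (Nat.land (Nat.shiftRight (V (nat_lit 31)) (S (nat_lit 47))) (nat_lit 65535))) (Nat.shiftLeft (nat_lit 1) (Nat.land (Nat.shiftRight (V (nat_lit 33)) (S (nat_lit 58))) (nat_lit 65535))))) (Nat.add (Nat.shiftLeft (nat_lit 1) (Nat.land (Nat.shiftRight (V (nat_lit 35)) (S (nat_lit 43))) (nat_lit 65535))) (Nat.add (Nat.shiftLeft (nat_lit 1) (Nat.land (Nat.shiftRight (V (nat_lit 42)) (S (nat_lit 59))) (nat_lit 65535))) (Nat.shiftLeft (nat_lit 1) (Nat.land (Nat.shiftRight (V (nat_lit 43)) (S (nat_lit 35))) (nat_lit 65535)))))) (Nat.add (Nat.add (Nat.shiftLeft (nat_lit 1) (Nat.land (Nat.shiftRight (V (nat_lit 45)) (S (nat_lit 55))) (nat_lit 65535))) (Nat.add (Nat.shiftLeft (nat_lit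 1) (Nat.land (Nat.shiftRight (V (nat_lit 47)) (S (nat_lit 31))) (nat_lit 65535))) (Nat.shiftLeft (nat_lit 1) (Nat.land (Nat.shiftRight (V (nat_lit 55)) (S (nat_lit 45))) (nat_lit 65535))))) (Nat.add (Nat.shiftLeft (nat_lit 1) (Nat.land (Nat.shiftRight (V (nat_lit 56)) (S (nat_lit 30))) (nat_lit 65535))) (Nat.add (Nat.shiftLeft (nat_lit 1) (Nat.land (Nat.shiftRight (V (nat_lit 58)) (S (nat_lit 33))) (nat_lit 65535))) (Nat.shiftLeft (nat_lit 1) (Nat.land (Nat.shiftRight (V (nat_lit 59)) (S (nat_lit 42))) (nat_lit 65535))))))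
def E65_2 (V S : ℕ → ℕ) : ℕ := Nat.add (Nat.add (Nat.shiftLeft (nat_lit 1) (Nat.land (Nat.shiftRight (V (nat_lit 32)) (S (nat_lit 44))) (nat_lit 65535))) (Nat.add (Nat.shiftLeft (nat_lit 1) (Nat.land (Nat.shiftRight (V (nat_lit 34)) (S (nat_lit 54))) (nat_lit 65535))) (Nat.shiftLeft (nat_lit 1) (Nat.land (Nat.shiftRight (V (nat_lit 44)) (S (nat_lit 32))) (nat_lit 65535))))) (Nat.add (Nat.shiftLeft (nat_lit 1) (Nat.land (Nat.shiftRight (V (nat_lit 46)) (S (nat_lit 57))) (nat_lit 65535))) (Nat.add (Nat.shiftLeft (nat_lit 1) (Nat.land (Nat.shiftRight (V (nat_lit 54)) (S (nat_lit 34))) (nat_lit 65535))) (Nat.shiftLeft (nat_lit 1) (Nat.land (Nat.shiftRight (V (nat_lit 57)) (S (nat_lit 46))) (nat_lit 65535)))))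
def E66_2 (V S : ℕ → ℕ) : ℕ := Nat.add (Nat.add (Nat.add (Nat.shiftLeft (nat_lit 1) (Nat.land (Nat.shiftRight (V (nat_lit 32)) (S (nat_lit 46))) (nat_lit 65535))) (Nat.add (Nat.shiftLeft (nat_lit 1) (Nat.land (Nat.shiftRight (V (nat_lit 32)) (S (nat_lit 54))) (nat_lit 65535))) (Nat.shiftLeft (nat_lit 1) (Nat.land (Nat.shiftRight (V (nat_lit 34)) (S (nat_lit 44))) (nat_lit 65535))))) (Nat.add (Nat.shiftLeft (nat_lit 1) (Nat.land (Nat.shiftRight (V (nat_lit 34)) (S (nat_lit 57))) (nat_lit 65535))) (Nat.add (Nat.shiftLeft (nat_lit 1) (Nat.land (Nat.shiftRight (V (nat_lit 44)) (S (nat_lit 34))) (nat_lit 65535))) (Nat.shiftLeft (nat_lit 1) (Nat.land (Nat.shiftRight (V (nat_lit 44)) (S (nat_lit 57))) (nat_lit 65535)))))) (Nat.add (Nat.add (Nat.shiftLeft (nat_lit 1) (Nat.land (Nat.shiftRight (V (nat_lit 46)) (S (nat_lit 32))) (nat_lit 65535))) (Nat.add (Nat.shiftLeft (nat_lit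 1) (Nat.land (Nat.shiftRight (V (nat_lit 46)) (S (nat_lit 54))) (nat_lit 65535))) (Nat.shiftLeft (nat_lit 1) (Nat.land (Nat.shiftRight (V (nat_lit 54)) (S (nat_lit 32))) (nat_lit 65535))))) (Nat.add (Nat.shiftLeft (nat_lit 1) (Nat.land (Nat.shiftRight (V (nat_lit 54)) (S (nat_lit 46))) (nat_lit 65535))) (Nat.add (Nat.shiftLeft (nat_lit 1) (Nat.land (Nat.shiftRight (V (nat_lit 57)) (S (nat_lit 34))) (nat_lit 65535))) (Nat.shiftLeft (nat_lit 1) (Nat.land (Nat.shiftRight (V (nat_lit 57)) (S (nat_lit 44))) (nat_lit 65535))))))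
def E78_2 (V S : ℕ → ℕ) : ℕ := Nat.add (Nat.add (Nat.add (Nat.add (Nat.add (Nat.add (Nat.shiftLeft (nat_lit 1) (Nat.land (Nat.shiftRight (V (nat_lit 3)) (S (nat_lit 13))) (nat_lit 65535))) (Nat.add (Nat.shiftLeft (nat_lit 1) (Nat.land (Nat.shiftRight (V (nat_lit 3)) (S (nat_lit 14))) (nat_lit 65535))) (Nat.shiftLeft (nat_lit 1) (Nat.land (Nat.shiftRight (V (nat_lit 3)) (S (nat_lit 56))) (nat_lit 65535))))) (Nat.add (Nat.shiftLeft (nat_lit 1) (Nat.land (Nat.shiftRight (V (nat_lit 3)) (S (nat_lit 58))) (nat_lit 65535))) (Nat.add (Nat.shiftLeft (nat_lit 1) (Nat.land (Nat.shiftRight (V (nat_lit 5)) (S (nat_lit 12))) (nat_lit 65535))) (Nat.shiftLeft (nat_lit 1) (Nat.land (Nat.shiftRight (V (nat_lit 5)) (S (nat_lit 13))) (nat_lit 65535)))))) (Nat.add (Nat.add (Nat.shiftLeft (nat_lit 1) (Nat.land (Nat.shiftRight (V (nat_lit 5)) (S (nat_lit 43))) (nat_lit 65535))) (Nat.add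 (Nat.shiftLeft (nat_lit 1) (Nat.land (Nat.shiftRight (V (nat_lit 5)) (S (nat_lit 47))) (nat_lit 65535))) (Nat.shiftLeft (nat_lit 1) (Nat.land (Nat.shiftRight (V (nat_lit 6)) (S (nat_lit 12))) (nat_lit 65535))))) (Nat.add (Nat.shiftLeft (nat_lit 1) (Nat.land (Nat.shiftRight (V (nat_lit 6)) (S (nat_lit 14))) (nat_lit 65535))) (Nat.add (Nat.shiftLeft (nat_lit 1) (Nat.land (Nat.shiftRight (V (nat_lit 6)) (S (nat_lit 55))) (nat_lit 65535))) (Nat.shiftLeft (nat_lit 1) (Nat.land (Nat.shiftRight (V (nat_lit 6)) (S (nat_lit 59))) (nat_lit 65535))))))) (Nat.add (Nat.add (Nat.add (Nat.shiftLeft (nat_lit 1) (Nat.land (Nat.shiftRight (V (nat_lit 8)) (S (nat_lit 12))) (nat_lit 65535))) (Nat.add (Nat.shiftLeft (nat_lit 1) (Nat.land (Nat.shiftRight (V (nat_lit 8)) (S (nat_lit 13))) (nat_lit 65535))) (Nat.shiftLeft (nat_lit 1) (Nat.land (Nat.shiftRight (V (nat_lit 8)) (S (nat_lit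 31))) (nat_lit 65535))))) (Nat.add (Nat.shiftLeft (nat_lit 1) (Nat.land (Nat.shiftRight (V (nat_lit 8)) (S (nat_lit 35))) (nat_lit 65535))) (Nat.add (Nat.shiftLeft (nat_lit 1) (Nat.land (Nat.shiftRight (V (nat_lit 10)) (S (nat_lit 13))) (nat_lit 65535))) (Nat.shiftLeft (nat_lit 1) (Nat.land (Nat.shiftRight (V (nat_lit 10)) (S (nat_lit 14))) (nat_lit 65535)))))) (Nat.add (Nat.add (Nat.shiftLeft (nat_lit 1) (Nat.land (Nat.shiftRight (V (nat_lit 10)) (S (nat_lit 30))) (nat_lit 65535))) (Nat.add (Nat.shiftLeft (nat_lit 1) (Nat.land (Nat.shiftRight (V (nat_lit 10)) (S (nat_lit 33))) (nat_lit 65535))) (Nat.shiftLeft (nat_lit 1) (Nat.land (Nat.shiftRight (V (nat_lit 11)) (S (nat_lit 12))) (nat_lit 65535))))) (Nat.add (Nat.shiftLeft (nat_lit 1) (Nat.land (Nat.shiftRight (V (nat_lit 11)) (S (nat_lit 14))) (nat_lit 65535))) (Nat.add (Nat.shiftLeft (nat_lit 1) (Nat.land (Nat.shiftRight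 (V (nat_lit 11)) (S (nat_lit 42))) (nat_lit 65535))) (Nat.shiftLeft (nat_lit 1) (Nat.land (Nat.shiftRight (V (nat_lit 11)) (S (nat_lit 45))) (nat_lit 65535)))))))) (Nat.add (Nat.add (Nat.add (Nat.add (Nat.shiftLeft (nat_lit 1) (Nat.land (Nat.shiftRight (V (nat_lit 12)) (S (nat_lit 5))) (nat_lit 65535))) (Nat.add (Nat.shiftLeft (nat_lit 1) (Nat.land (Nat.shiftRight (V (nat_lit 12)) (S (nat_lit 6))) (nat_lit 65535))) (Nat.shiftLeft (nat_lit 1) (Nat.land (Nat.shiftRight (V (nat_lit 12)) (S (nat_lit 8))) (nat_lit 65535))))) (Nat.add (Nat.shiftLeft (nat_lit 1) (Nat.land (Nat.shiftRight (V (nat_lit 12)) (S (nat_lit 11))) (nat_lit 65535))) (Nat.add (Nat.shiftLeft (nat_lit 1) (Nat.land (Nat.shiftRight (V (nat_lit 12)) (S (nat_lit 29))) (nat_lit 65535))) (Nat.shiftLeft (nat_lit 1) (Nat.land (Nat.shiftRight (V (nat_lit 12)) (S (nat_lit 39))) (nat_lit 65535)))))) (Nat.add (Nat.add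 (Nat.shiftLeft (nat_lit 1) (Nat.land (Nat.shiftRight (V (nat_lit 12)) (S (nat_lit 41))) (nat_lit 65535))) (Nat.add (Nat.shiftLeft (nat_lit 1) (Nat.land (Nat.shiftRight (V (nat_lit 12)) (S (nat_lit 53))) (nat_lit 65535))) (Nat.shiftLeft (nat_lit 1) (Nat.land (Nat.shiftRight (V (nat_lit 13)) (S (nat_lit 3))) (nat_lit 65535))))) (Nat.add (Nat.shiftLeft (nat_lit 1) (Nat.land (Nat.shiftRight (V (nat_lit 13)) (S (nat_lit 5))) (nat_lit 65535))) (Nat.add (Nat.shiftLeft (nat_lit 1) (Nat.land (Nat.shiftRight (V (nat_lit 13)) (S (nat_lit 8))) (nat_lit 65535))) (Nat.shiftLeft (nat_lit 1) (Nat.land (Nat.shiftRight (V (nat_lit 13)) (S (nat_lit 10))) (nat_lit 65535))))))) (Nat.add (Nat.add (Nat.add (Nat.shiftLeft (nat_lit 1) (Nat.land (Nat.shiftRight (V (nat_lit 13)) (S (nat_lit 27))) (nat_lit 65535))) (Nat.add (Nat.shiftLeft (nat_lit 1) (Nat.land (Nat.shiftRight (V (nat_lit 13))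 (S (nat_lit 29))) (nat_lit 65535))) (Nat.shiftLeft (nat_lit 1) (Nat.land (Nat.shiftRight (V (nat_lit 13)) (S (nat_lit 41))) (nat_lit 65535))))) (Nat.add (Nat.shiftLeft (nat_lit 1) (Nat.land (Nat.shiftRight (V (nat_lit 13)) (S (nat_lit 52))) (nat_lit 65535))) (Nat.add (Nat.shiftLeft (nat_lit 1) (Nat.land (Nat.shiftRight (V (nat_lit 14)) (S (nat_lit 3))) (nat_lit 65535))) (Nat.shiftLeft (nat_lit 1) (Nat.land (Nat.shiftRight (V (nat_lit 14)) (S (nat_lit 6))) (nat_lit 65535)))))) (Nat.add (Nat.add (Nat.shiftLeft (nat_lit 1) (Nat.land (Nat.shiftRight (V (nat_lit 14)) (S (nat_lit 10))) (nat_lit 65535))) (Nat.add (Nat.shiftLeft (nat_lit 1) (Nat.land (Nat.shiftRight (V (nat_lit 14)) (S (nat_lit 11))) (nat_lit 65535))) (Nat.shiftLeft (nat_lit 1) (Nat.land (Nat.shiftRight (V (nat_lit 14)) (S (nat_lit 27))) (nat_lit 65535))))) (Nat.add (Nat.shiftLeft (nat_lit 1) (Nat.land (Nat.shiftRight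 (V (nat_lit 14)) (S (nat_lit 39))) (nat_lit 65535))) (Nat.add (Nat.shiftLeft (nat_lit 1) (Nat.land (Nat.shiftRight (V (nat_lit 14)) (S (nat_lit 52))) (nat_lit 65535))) (Nat.shiftLeft (nat_lit 1) (Nat.land (Nat.shiftRight (V (nat_lit 14)) (S (nat_lit 53))) (nat_lit 65535))))))))) (Nat.add (Nat.add (Nat.add (Nat.add (Nat.add (Nat.shiftLeft (nat_lit 1) (Nat.land (Nat.shiftRight (V (nat_lit 27)) (S (nat_lit 13))) (nat_lit 65535))) (Nat.add (Nat.shiftLeft (nat_lit 1) (Nat.land (Nat.shiftRight (V (nat_lit 27)) (S (nat_lit 14))) (nat_lit 65535))) (Nat.shiftLeft (nat_lit 1) (Nat.land (Nat.shiftRight (V (nat_lit 27)) (S (nat_lit 35))) (nat_lit 65535))))) (Nat.add (Nat.shiftLeft (nat_lit 1) (Nat.land (Nat.shiftRight (V (nat_lit 27)) (S (nat_lit 45))) (nat_lit 65535))) (Nat.add (Nat.shiftLeft (nat_lit 1) (Nat.land (Nat.shiftRight (V (nat_lit 29)) (S (nat_lit 12))) (nat_lit 65535)))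 (Nat.shiftLeft (nat_lit 1) (Nat.land (Nat.shiftRight (V (nat_lit 29)) (S (nat_lit 13))) (nat_lit 65535)))))) (Nat.add (Nat.add (Nat.shiftLeft (nat_lit 1) (Nat.land (Nat.shiftRight (V (nat_lit 29)) (S (nat_lit 30))) (nat_lit 65535))) (Nat.add (Nat.shiftLeft (nat_lit 1) (Nat.land (Nat.shiftRight (V (nat_lit 29)) (S (nat_lit 59))) (nat_lit 65535))) (Nat.shiftLeft (nat_lit 1) (Nat.land (Nat.shiftRight (V (nat_lit 30)) (S (nat_lit 10))) (nat_lit 65535))))) (Nat.add (Nat.shiftLeft (nat_lit 1) (Nat.land (Nat.shiftRight (V (nat_lit 30)) (S (nat_lit 29))) (nat_lit 65535))) (Nat.add (Nat.shiftLeft (nat_lit 1) (Nat.land (Nat.shiftRight (V (nat_lit 31)) (S (nat_lit 8))) (nat_lit 65535))) (Nat.shiftLeft (nat_lit 1) (Nat.land (Nat.shiftRight (V (nat_lit 31)) (S (nat_lit 53))) (nat_lit 65535))))))) (Nat.add (Nat.add (Nat.add (Nat.shiftLeft (nat_lit 1) (Nat.land (Nat.shiftRight (V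 (nat_lit 33)) (S (nat_lit 10))) (nat_lit 65535))) (Nat.add (Nat.shiftLeft (nat_lit 1) (Nat.land (Nat.shiftRight (V (nat_lit 33)) (S (nat_lit 39))) (nat_lit 65535))) (Nat.shiftLeft (nat_lit 1) (Nat.land (Nat.shiftRight (V (nat_lit 35)) (S (nat_lit 8))) (nat_lit 65535))))) (Nat.add (Nat.shiftLeft (nat_lit 1) (Nat.land (Nat.shiftRight (V (nat_lit 35)) (S (nat_lit 27))) (nat_lit 65535))) (Nat.add (Nat.shiftLeft (nat_lit 1) (Nat.land (Nat.shiftRight (V (nat_lit 39)) (S (nat_lit 12))) (nat_lit 65535))) (Nat.shiftLeft (nat_lit 1) (Nat.land (Nat.shiftRight (V (nat_lit 39)) (S (nat_lit 14))) (nat_lit 65535)))))) (Nat.add (Nat.add (Nat.shiftLeft (nat_lit 1) (Nat.land (Nat.shiftRight (V (nat_lit 39)) (S (nat_lit 33))) (nat_lit 65535))) (Nat.add (Nat.shiftLeft (nat_lit 1) (Nat.land (Nat.shiftRight (V (nat_lit 39)) (S (nat_lit 47))) (nat_lit 65535))) (Nat.shiftLeft (nat_lit 1)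 (Nat.land (Nat.shiftRight (V (nat_lit 41)) (S (nat_lit 12))) (nat_lit 65535))))) (Nat.add (Nat.shiftLeft (nat_lit 1) (Nat.land (Nat.shiftRight (V (nat_lit 41)) (S (nat_lit 13))) (nat_lit 65535))) (Nat.add (Nat.shiftLeft (nat_lit 1) (Nat.land (Nat.shiftRight (V (nat_lit 41)) (S (nat_lit 42))) (nat_lit 65535))) (Nat.shiftLeft (nat_lit 1) (Nat.land (Nat.shiftRight (V (nat_lit 41)) (S (nat_lit 56))) (nat_lit 65535)))))))) (Nat.add (Nat.add (Nat.add (Nat.add (Nat.shiftLeft (nat_lit 1) (Nat.land (Nat.shiftRight (V (nat_lit 42)) (S (nat_lit 11))) (nat_lit 65535))) (Nat.add (Nat.shiftLeft (nat_lit 1) (Nat.land (Nat.shiftRight (V (nat_lit 42)) (S (nat_lit 41))) (nat_lit 65535))) (Nat.shiftLeft (nat_lit 1) (Nat.land (Nat.shiftRight (V (nat_lit 43)) (S (nat_lit 5))) (nat_lit 65535))))) (Nat.add (Nat.shiftLeft (nat_lit 1) (Nat.land (Nat.shiftRight (V (nat_lit 43)) (S (nat_lit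 52))) (nat_lit 65535))) (Nat.add (Nat.shiftLeft (nat_lit 1) (Nat.land (Nat.shiftRight (V (nat_lit 45)) (S (nat_lit 11))) (nat_lit 65535))) (Nat.shiftLeft (nat_lit 1) (Nat.land (Nat.shiftRight (V (nat_lit 45)) (S (nat_lit 27))) (nat_lit 65535)))))) (Nat.add (Nat.add (Nat.shiftLeft (nat_lit 1) (Nat.land (Nat.shiftRight (V (nat_lit 47)) (S (nat_lit 5))) (nat_lit 65535))) (Nat.add (Nat.shiftLeft (nat_lit 1) (Nat.land (Nat.shiftRight (V (nat_lit 47)) (S (nat_lit 39))) (nat_lit 65535))) (Nat.shiftLeft (nat_lit 1) (Nat.land (Nat.shiftRight (V (nat_lit 52)) (S (nat_lit 13))) (nat_lit 65535))))) (Nat.add (Nat.shiftLeft (nat_lit 1) (Nat.land (Nat.shiftRight (V (nat_lit 52)) (S (nat_lit 14))) (nat_lit 65535))) (Nat.add (Nat.shiftLeft (nat_lit 1) (Nat.land (Nat.shiftRight (V (nat_lit 52)) (S (nat_lit 43))) (nat_lit 65535))) (Nat.shiftLeft (nat_lit 1) (Nat.land (Nat.shiftRight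 (V (nat_lit 52)) (S (nat_lit 55))) (nat_lit 65535))))))) (Nat.add (Nat.add (Nat.add (Nat.shiftLeft (nat_lit 1) (Nat.land (Nat.shiftRight (V (nat_lit 53)) (S (nat_lit 12))) (nat_lit 65535))) (Nat.add (Nat.shiftLeft (nat_lit 1) (Nat.land (Nat.shiftRight (V (nat_lit 53)) (S (nat_lit 14))) (nat_lit 65535))) (Nat.shiftLeft (nat_lit 1) (Nat.land (Nat.shiftRight (V (nat_lit 53)) (S (nat_lit 31))) (nat_lit 65535))))) (Nat.add (Nat.shiftLeft (nat_lit 1) (Nat.land (Nat.shiftRight (V (nat_lit 53)) (S (nat_lit 58))) (nat_lit 65535))) (Nat.add (Nat.shiftLeft (nat_lit 1) (Nat.land (Nat.shiftRight (V (nat_lit 55)) (S (nat_lit 6))) (nat_lit 65535))) (Nat.shiftLeft (nat_lit 1) (Nat.land (Nat.shiftRight (V (nat_lit 55)) (S (nat_lit 52))) (nat_lit 65535)))))) (Nat.add (Nat.add (Nat.shiftLeft (nat_lit 1) (Nat.land (Nat.shiftRight (V (nat_lit 56)) (S (nat_lit 3))) (nat_lit 65535))) (Nat.add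 (Nat.shiftLeft (nat_lit 1) (Nat.land (Nat.shiftRight (V (nat_lit 56)) (S (nat_lit 41))) (nat_lit 65535))) (Nat.shiftLeft (nat_lit 1) (Nat.land (Nat.shiftRight (V (nat_lit 58)) (S (nat_lit 3))) (nat_lit 65535))))) (Nat.add (Nat.shiftLeft (nat_lit 1) (Nat.land (Nat.shiftRight (V (nat_lit 58)) (S (nat_lit 53))) (nat_lit 65535))) (Nat.add (Nat.shiftLeft (nat_lit 1) (Nat.land (Nat.shiftRight (V (nat_lit 59)) (S (nat_lit 6))) (nat_lit 65535))) (Nat.shiftLeft (nat_lit 1) (Nat.land (Nat.shiftRight (V (nat_lit 59)) (S (nat_lit 29))) (nat_lit 65535)))))))))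
def E79_2 (V S : ℕ → ℕ) : ℕ := Nat.add (Nat.add (Nat.add (Nat.add (Nat.add (Nat.add (Nat.add (Nat.shiftLeft (nat_lit 1) (Nat.land (Nat.shiftRight (V (nat_lit 3)) (S (nat_lit 15))) (nat_lit 65535))) (Nat.shiftLeft (nat_lit 1) (Nat.land (Nat.shiftRight (V (nat_lit 3)) (S (nat_lit 24))) (nat_lit 65535)))) (Nat.add (Nat.shiftLeft (nat_lit 1) (Nat.land (Nat.shiftRight (V (nat_lit 3)) (S (nat_lit 43))) (nat_lit 65535))) (Nat.shiftLeft (nat_lit 1) (Nat.land (Nat.shiftRight (V (nat_lit 3)) (S (nat_lit 55))) (nat_lit 65535))))) (Nat.add (Nat.add (Nat.shiftLeft (nat_lit 1) (Nat.land (Nat.shiftRight (V (nat_lit 5)) (S (nat_lit 16))) (nat_lit 65535))) (Nat.shiftLeft (nat_lit 1) (Nat.land (Nat.shiftRight (V (nat_lit 5)) (S (nat_lit 25))) (nat_lit 65535)))) (Nat.add (Nat.shiftLeft (nat_lit 1) (Nat.land (Nat.shiftRight (V (nat_lit 5)) (S (nat_lit 42))) (nat_lit 65535))) (Nat.add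 (Nat.shiftLeft (nat_lit 1) (Nat.land (Nat.shiftRight (V (nat_lit 5)) (S (nat_lit 56))) (nat_lit 65535))) (Nat.shiftLeft (nat_lit 1) (Nat.land (Nat.shiftRight (V (nat_lit 6)) (S (nat_lit 18))) (nat_lit 65535))))))) (Nat.add (Nat.add (Nat.add (Nat.shiftLeft (nat_lit 1) (Nat.land (Nat.shiftRight (V (nat_lit 6)) (S (nat_lit 31))) (nat_lit 65535))) (Nat.shiftLeft (nat_lit 1) (Nat.land (Nat.shiftRight (V (nat_lit 6)) (S (nat_lit 36))) (nat_lit 65535)))) (Nat.add (Nat.shiftLeft (nat_lit 1) (Nat.land (Nat.shiftRight (V (nat_lit 6)) (S (nat_lit 58))) (nat_lit 65535))) (Nat.shiftLeft (nat_lit 1) (Nat.land (Nat.shiftRight (V (nat_lit 8)) (S (nat_lit 19))) (nat_lit 65535))))) (Nat.add (Nat.add (Nat.shiftLeft (nat_lit 1) (Nat.land (Nat.shiftRight (V (nat_lit 8)) (S (nat_lit 30))) (nat_lit 65535))) (Nat.shiftLeft (nat_lit 1) (Nat.land (Nat.shiftRight (V (nat_lit 8)) (S (nat_lit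 37))) (nat_lit 65535)))) (Nat.add (Nat.shiftLeft (nat_lit 1) (Nat.land (Nat.shiftRight (V (nat_lit 8)) (S (nat_lit 59))) (nat_lit 65535))) (Nat.add (Nat.shiftLeft (nat_lit 1) (Nat.land (Nat.shiftRight (V (nat_lit 10)) (S (nat_lit 23))) (nat_lit 65535))) (Nat.shiftLeft (nat_lit 1) (Nat.land (Nat.shiftRight (V (nat_lit 10)) (S (nat_lit 35))) (nat_lit 65535)))))))) (Nat.add (Nat.add (Nat.add (Nat.add (Nat.shiftLeft (nat_lit 1) (Nat.land (Nat.shiftRight (V (nat_lit 10)) (S (nat_lit 45))) (nat_lit 65535))) (Nat.shiftLeft (nat_lit 1) (Nat.land (Nat.shiftRight (V (nat_lit 10)) (S (nat_lit 50))) (nat_lit 65535)))) (Nat.add (Nat.shiftLeft (nat_lit 1) (Nat.land (Nat.shiftRight (V (nat_lit 11)) (S (nat_lit 22))) (nat_lit 65535))) (Nat.shiftLeft (nat_lit 1) (Nat.land (Nat.shiftRight (V (nat_lit 11)) (S (nat_lit 33))) (nat_lit 65535))))) (Nat.add (Nat.add (Nat.shiftLeft (nat_lit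 1) (Nat.land (Nat.shiftRight (V (nat_lit 11)) (S (nat_lit 47))) (nat_lit 65535))) (Nat.shiftLeft (nat_lit 1) (Nat.land (Nat.shiftRight (V (nat_lit 11)) (S (nat_lit 49))) (nat_lit 65535)))) (Nat.add (Nat.shiftLeft (nat_lit 1) (Nat.land (Nat.shiftRight (V (nat_lit 12)) (S (nat_lit 16))) (nat_lit 65535))) (Nat.add (Nat.shiftLeft (nat_lit 1) (Nat.land (Nat.shiftRight (V (nat_lit 12)) (S (nat_lit 18))) (nat_lit 65535))) (Nat.shiftLeft (nat_lit 1) (Nat.land (Nat.shiftRight (V (nat_lit 12)) (S (nat_lit 19))) (nat_lit 65535))))))) (Nat.add (Nat.add (Nat.add (Nat.shiftLeft (nat_lit 1) (Nat.land (Nat.shiftRight (V (nat_lit 12)) (S (nat_lit 22))) (nat_lit 65535))) (Nat.shiftLeft (nat_lit 1) (Nat.land (Nat.shiftRight (V (nat_lit 12)) (S (nat_lit 25))) (nat_lit 65535)))) (Nat.add (Nat.shiftLeft (nat_lit 1) (Nat.land (Nat.shiftRight (V (nat_lit 12)) (S (nat_lit 36))) (nat_lit 65535)))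 (Nat.shiftLeft (nat_lit 1) (Nat.land (Nat.shiftRight (V (nat_lit 12)) (S (nat_lit 37))) (nat_lit 65535))))) (Nat.add (Nat.add (Nat.shiftLeft (nat_lit 1) (Nat.land (Nat.shiftRight (V (nat_lit 12)) (S (nat_lit 49))) (nat_lit 65535))) (Nat.shiftLeft (nat_lit 1) (Nat.land (Nat.shiftRight (V (nat_lit 13)) (S (nat_lit 15))) (nat_lit 65535)))) (Nat.add (Nat.shiftLeft (nat_lit 1) (Nat.land (Nat.shiftRight (V (nat_lit 13)) (S (nat_lit 16))) (nat_lit 65535))) (Nat.add (Nat.shiftLeft (nat_lit 1) (Nat.land (Nat.shiftRight (V (nat_lit 13)) (S (nat_lit 19))) (nat_lit 65535))) (Nat.shiftLeft (nat_lit 1) (Nat.land (Nat.shiftRight (V (nat_lit 13)) (S (nat_lit 23))) (nat_lit 65535))))))))) (Nat.add (Nat.add (Nat.add (Nat.add (Nat.add (Nat.shiftLeft (nat_lit 1) (Nat.land (Nat.shiftRight (V (nat_lit 13)) (S (nat_lit 24))) (nat_lit 65535))) (Nat.shiftLeft (nat_lit 1) (Nat.land (Nat.shiftRight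 (V (nat_lit 13)) (S (nat_lit 25))) (nat_lit 65535)))) (Nat.add (Nat.shiftLeft (nat_lit 1) (Nat.land (Nat.shiftRight (V (nat_lit 13)) (S (nat_lit 37))) (nat_lit 65535))) (Nat.shiftLeft (nat_lit 1) (Nat.land (Nat.shiftRight (V (nat_lit 13)) (S (nat_lit 50))) (nat_lit 65535))))) (Nat.add (Nat.add (Nat.shiftLeft (nat_lit 1) (Nat.land (Nat.shiftRight (V (nat_lit 14)) (S (nat_lit 15))) (nat_lit 65535))) (Nat.shiftLeft (nat_lit 1) (Nat.land (Nat.shiftRight (V (nat_lit 14)) (S (nat_lit 18))) (nat_lit 65535)))) (Nat.add (Nat.shiftLeft (nat_lit 1) (Nat.land (Nat.shiftRight (V (nat_lit 14)) (S (nat_lit 22))) (nat_lit 65535))) (Nat.add (Nat.shiftLeft (nat_lit 1) (Nat.land (Nat.shiftRight (V (nat_lit 14)) (S (nat_lit 23))) (nat_lit 65535))) (Nat.shiftLeft (nat_lit 1) (Nat.land (Nat.shiftRight (V (nat_lit 14)) (S (nat_lit 24))) (nat_lit 65535))))))) (Nat.add (Nat.add (Nat.add (Nat.shiftLeft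 (nat_lit 1) (Nat.land (Nat.shiftRight (V (nat_lit 14)) (S (nat_lit 36))) (nat_lit 65535))) (Nat.shiftLeft (nat_lit 1) (Nat.land (Nat.shiftRight (V (nat_lit 14)) (S (nat_lit 49))) (nat_lit 65535)))) (Nat.add (Nat.shiftLeft (nat_lit 1) (Nat.land (Nat.shiftRight (V (nat_lit 14)) (S (nat_lit 50))) (nat_lit 65535))) (Nat.shiftLeft (nat_lit 1) (Nat.land (Nat.shiftRight (V (nat_lit 15)) (S (nat_lit 3))) (nat_lit 65535))))) (Nat.add (Nat.add (Nat.shiftLeft (nat_lit 1) (Nat.land (Nat.shiftRight (V (nat_lit 15)) (S (nat_lit 13))) (nat_lit 65535))) (Nat.shiftLeft (nat_lit 1) (Nat.land (Nat.shiftRight (V (nat_lit 15)) (S (nat_lit 14))) (nat_lit 65535)))) (Nat.add (Nat.shiftLeft (nat_lit 1) (Nat.land (Nat.shiftRight (V (nat_lit 15)) (S (nat_lit 27))) (nat_lit 65535))) (Nat.add (Nat.shiftLeft (nat_lit 1) (Nat.land (Nat.shiftRight (V (nat_lit 16)) (S (nat_lit 5))) (nat_lit 65535)))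 (Nat.shiftLeft (nat_lit 1) (Nat.land (Nat.shiftRight (V (nat_lit 16)) (S (nat_lit 12))) (nat_lit 65535)))))))) (Nat.add (Nat.add (Nat.add (Nat.add (Nat.shiftLeft (nat_lit 1) (Nat.land (Nat.shiftRight (V (nat_lit 16)) (S (nat_lit 13))) (nat_lit 65535))) (Nat.shiftLeft (nat_lit 1) (Nat.land (Nat.shiftRight (V (nat_lit 16)) (S (nat_lit 29))) (nat_lit 65535)))) (Nat.add (Nat.shiftLeft (nat_lit 1) (Nat.land (Nat.shiftRight (V (nat_lit 18)) (S (nat_lit 6))) (nat_lit 65535))) (Nat.shiftLeft (nat_lit 1) (Nat.land (Nat.shiftRight (V (nat_lit 18)) (S (nat_lit 12))) (nat_lit 65535))))) (Nat.add (Nat.add (Nat.shiftLeft (nat_lit 1) (Nat.land (Nat.shiftRight (V (nat_lit 18)) (S (nat_lit 14))) (nat_lit 65535))) (Nat.shiftLeft (nat_lit 1) (Nat.land (Nat.shiftRight (V (nat_lit 18)) (S (nat_lit 39))) (nat_lit 65535)))) (Nat.add (Nat.shiftLeft (nat_lit 1) (Nat.land (Nat.shiftRight (V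 (nat_lit 19)) (S (nat_lit 8))) (nat_lit 65535))) (Nat.add (Nat.shiftLeft (nat_lit 1) (Nat.land (Nat.shiftRight (V (nat_lit 19)) (S (nat_lit 12))) (nat_lit 65535))) (Nat.shiftLeft (nat_lit 1) (Nat.land (Nat.shiftRight (V (nat_lit 19)) (S (nat_lit 13))) (nat_lit 65535))))))) (Nat.add (Nat.add (Nat.add (Nat.shiftLeft (nat_lit 1) (Nat.land (Nat.shiftRight (V (nat_lit 19)) (S (nat_lit 41))) (nat_lit 65535))) (Nat.shiftLeft (nat_lit 1) (Nat.land (Nat.shiftRight (V (nat_lit 22)) (S (nat_lit 11))) (nat_lit 65535)))) (Nat.add (Nat.shiftLeft (nat_lit 1) (Nat.land (Nat.shiftRight (V (nat_lit 22)) (S (nat_lit 12))) (nat_lit 65535))) (Nat.shiftLeft (nat_lit 1) (Nat.land (Nat.shiftRight (V (nat_lit 22)) (S (nat_lit 14))) (nat_lit 65535))))) (Nat.add (Nat.add (Nat.shiftLeft (nat_lit 1) (Nat.land (Nat.shiftRight (V (nat_lit 22)) (S (nat_lit 53))) (nat_lit 65535))) (Nat.shiftLeft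 (nat_lit 1) (Nat.land (Nat.shiftRight (V (nat_lit 23)) (S (nat_lit 10))) (nat_lit 65535)))) (Nat.add (Nat.shiftLeft (nat_lit 1) (Nat.land (Nat.shiftRight (V (nat_lit 23)) (S (nat_lit 13))) (nat_lit 65535))) (Nat.add (Nat.shiftLeft (nat_lit 1) (Nat.land (Nat.shiftRight (V (nat_lit 23)) (S (nat_lit 14))) (nat_lit 65535))) (Nat.shiftLeft (nat_lit 1) (Nat.land (Nat.shiftRight (V (nat_lit 23)) (S (nat_lit 52))) (nat_lit 65535)))))))))) (Nat.add (Nat.add (Nat.add (Nat.add (Nat.add (Nat.add (Nat.shiftLeft (nat_lit 1) (Nat.land (Nat.shiftRight (V (nat_lit 24)) (S (nat_lit 3))) (nat_lit 65535))) (Nat.shiftLeft (nat_lit 1) (Nat.land (Nat.shiftRight (V (nat_lit 24)) (S (nat_lit 13))) (nat_lit 65535)))) (Nat.add (Nat.shiftLeft (nat_lit 1) (Nat.land (Nat.shiftRight (V (nat_lit 24)) (S (nat_lit 14))) (nat_lit 65535))) (Nat.shiftLeft (nat_lit 1) (Nat.land (Nat.shiftRight (V (nat_lit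 24)) (S (nat_lit 27))) (nat_lit 65535))))) (Nat.add (Nat.add (Nat.shiftLeft (nat_lit 1) (Nat.land (Nat.shiftRight (V (nat_lit 25)) (S (nat_lit 5))) (nat_lit 65535))) (Nat.shiftLeft (nat_lit 1) (Nat.land (Nat.shiftRight (V (nat_lit 25)) (S (nat_lit 12))) (nat_lit 65535)))) (Nat.add (Nat.shiftLeft (nat_lit 1) (Nat.land (Nat.shiftRight (V (nat_lit 25)) (S (nat_lit 13))) (nat_lit 65535))) (Nat.add (Nat.shiftLeft (nat_lit 1) (Nat.land (Nat.shiftRight (V (nat_lit 25)) (S (nat_lit 29))) (nat_lit 65535))) (Nat.shiftLeft (nat_lit 1) (Nat.land (Nat.shiftRight (V (nat_lit 27)) (S (nat_lit 15))) (nat_lit 65535))))))) (Nat.add (Nat.add (Nat.add (Nat.shiftLeft (nat_lit 1) (Nat.land (Nat.shiftRight (V (nat_lit 27)) (S (nat_lit 24))) (nat_lit 65535))) (Nat.shiftLeft (nat_lit 1) (Nat.land (Nat.shiftRight (V (nat_lit 27)) (S (nat_lit 30))) (nat_lit 65535)))) (Nat.add (Nat.shiftLeft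 (nat_lit 1) (Nat.land (Nat.shiftRight (V (nat_lit 27)) (S (nat_lit 33))) (nat_lit 65535))) (Nat.shiftLeft (nat_lit 1) (Nat.land (Nat.shiftRight (V (nat_lit 29)) (S (nat_lit 16))) (nat_lit 65535))))) (Nat.add (Nat.add (Nat.shiftLeft (nat_lit 1) (Nat.land (Nat.shiftRight (V (nat_lit 29)) (S (nat_lit 25))) (nat_lit 65535))) (Nat.shiftLeft (nat_lit 1) (Nat.land (Nat.shiftRight (V (nat_lit 29)) (S (nat_lit 31))) (nat_lit 65535)))) (Nat.add (Nat.shiftLeft (nat_lit 1) (Nat.land (Nat.shiftRight (V (nat_lit 29)) (S (nat_lit 35))) (nat_lit 65535))) (Nat.add (Nat.shiftLeft (nat_lit 1) (Nat.land (Nat.shiftRight (V (nat_lit 30)) (S (nat_lit 8))) (nat_lit 65535))) (Nat.shiftLeft (nat_lit 1) (Nat.land (Nat.shiftRight (V (nat_lit 30)) (S (nat_lit 27))) (nat_lit 65535)))))))) (Nat.add (Nat.add (Nat.add (Nat.add (Nat.shiftLeft (nat_lit 1) (Nat.land (Nat.shiftRight (V (nat_lit 31))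 (S (nat_lit 6))) (nat_lit 65535))) (Nat.shiftLeft (nat_lit 1) (Nat.land (Nat.shiftRight (V (nat_lit 31)) (S (nat_lit 29))) (nat_lit 65535)))) (Nat.add (Nat.shiftLeft (nat_lit 1) (Nat.land (Nat.shiftRight (V (nat_lit 33)) (S (nat_lit 11))) (nat_lit 65535))) (Nat.shiftLeft (nat_lit 1) (Nat.land (Nat.shiftRight (V (nat_lit 33)) (S (nat_lit 27))) (nat_lit 65535))))) (Nat.add (Nat.add (Nat.shiftLeft (nat_lit 1) (Nat.land (Nat.shiftRight (V (nat_lit 35)) (S (nat_lit 10))) (nat_lit 65535))) (Nat.shiftLeft (nat_lit 1) (Nat.land (Nat.shiftRight (V (nat_lit 35)) (S (nat_lit 29))) (nat_lit 65535)))) (Nat.add (Nat.shiftLeft (nat_lit 1) (Nat.land (Nat.shiftRight (V (nat_lit 36)) (S (nat_lit 6))) (nat_lit 65535))) (Nat.add (Nat.shiftLeft (nat_lit 1) (Nat.land (Nat.shiftRight (V (nat_lit 36)) (S (nat_lit 12))) (nat_lit 65535))) (Nat.shiftLeft (nat_lit 1) (Nat.land (Nat.shiftRight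 (V (nat_lit 36)) (S (nat_lit 14))) (nat_lit 65535))))))) (Nat.add (Nat.add (Nat.add (Nat.shiftLeft (nat_lit 1) (Nat.land (Nat.shiftRight (V (nat_lit 36)) (S (nat_lit 39))) (nat_lit 65535))) (Nat.shiftLeft (nat_lit 1) (Nat.land (Nat.shiftRight (V (nat_lit 37)) (S (nat_lit 8))) (nat_lit 65535)))) (Nat.add (Nat.shiftLeft (nat_lit 1) (Nat.land (Nat.shiftRight (V (nat_lit 37)) (S (nat_lit 12))) (nat_lit 65535))) (Nat.shiftLeft (nat_lit 1) (Nat.land (Nat.shiftRight (V (nat_lit 37)) (S (nat_lit 13))) (nat_lit 65535))))) (Nat.add (Nat.add (Nat.shiftLeft (nat_lit 1) (Nat.land (Nat.shiftRight (V (nat_lit 37)) (S (nat_lit 41))) (nat_lit 65535))) (Nat.shiftLeft (nat_lit 1) (Nat.land (Nat.shiftRight (V (nat_lit 39)) (S (nat_lit 18))) (nat_lit 65535)))) (Nat.add (Nat.shiftLeft (nat_lit 1) (Nat.land (Nat.shiftRight (V (nat_lit 39)) (S (nat_lit 36))) (nat_lit 65535))) (Nat.add (Nat.shiftLeft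 (nat_lit 1) (Nat.land (Nat.shiftRight (V (nat_lit 39)) (S (nat_lit 42))) (nat_lit 65535))) (Nat.shiftLeft (nat_lit 1) (Nat.land (Nat.shiftRight (V (nat_lit 39)) (S (nat_lit 45))) (nat_lit 65535))))))))) (Nat.add (Nat.add (Nat.add (Nat.add (Nat.add (Nat.shiftLeft (nat_lit 1) (Nat.land (Nat.shiftRight (V (nat_lit 41)) (S (nat_lit 19))) (nat_lit 65535))) (Nat.shiftLeft (nat_lit 1) (Nat.land (Nat.shiftRight (V (nat_lit 41)) (S (nat_lit 37))) (nat_lit 65535)))) (Nat.add (Nat.shiftLeft (nat_lit 1) (Nat.land (Nat.shiftRight (V (nat_lit 41)) (S (nat_lit 43))) (nat_lit 65535))) (Nat.shiftLeft (nat_lit 1) (Nat.land (Nat.shiftRight (V (nat_lit 41)) (S (nat_lit 47))) (nat_lit 65535))))) (Nat.add (Nat.add (Nat.shiftLeft (nat_lit 1) (Nat.land (Nat.shiftRight (V (nat_lit 42)) (S (nat_lit 5))) (nat_lit 65535))) (Nat.shiftLeft (nat_lit 1) (Nat.land (Nat.shiftRight (V (nat_lit 42))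 (S (nat_lit 39))) (nat_lit 65535)))) (Nat.add (Nat.shiftLeft (nat_lit 1) (Nat.land (Nat.shiftRight (V (nat_lit 43)) (S (nat_lit 3))) (nat_lit 65535))) (Nat.add (Nat.shiftLeft (nat_lit 1) (Nat.land (Nat.shiftRight (V (nat_lit 43)) (S (nat_lit 41))) (nat_lit 65535))) (Nat.shiftLeft (nat_lit 1) (Nat.land (Nat.shiftRight (V (nat_lit 45)) (S (nat_lit 10))) (nat_lit 65535))))))) (Nat.add (Nat.add (Nat.add (Nat.shiftLeft (nat_lit 1) (Nat.land (Nat.shiftRight (V (nat_lit 45)) (S (nat_lit 39))) (nat_lit 65535))) (Nat.shiftLeft (nat_lit 1) (Nat.land (Nat.shiftRight (V (nat_lit 47)) (S (nat_lit 11))) (nat_lit 65535)))) (Nat.add (Nat.shiftLeft (nat_lit 1) (Nat.land (Nat.shiftRight (V (nat_lit 47)) (S (nat_lit 41))) (nat_lit 65535))) (Nat.shiftLeft (nat_lit 1) (Nat.land (Nat.shiftRight (V (nat_lit 49)) (S (nat_lit 11))) (nat_lit 65535))))) (Nat.add (Nat.add (Nat.shiftLeft (nat_lit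 1) (Nat.land (Nat.shiftRight (V (nat_lit 49)) (S (nat_lit 12))) (nat_lit 65535))) (Nat.shiftLeft (nat_lit 1) (Nat.land (Nat.shiftRight (V (nat_lit 49)) (S (nat_lit 14))) (nat_lit 65535)))) (Nat.add (Nat.shiftLeft (nat_lit 1) (Nat.land (Nat.shiftRight (V (nat_lit 49)) (S (nat_lit 53))) (nat_lit 65535))) (Nat.add (Nat.shiftLeft (nat_lit 1) (Nat.land (Nat.shiftRight (V (nat_lit 50)) (S (nat_lit 10))) (nat_lit 65535))) (Nat.shiftLeft (nat_lit 1) (Nat.land (Nat.shiftRight (V (nat_lit 50)) (S (nat_lit 13))) (nat_lit 65535)))))))) (Nat.add (Nat.add (Nat.add (Nat.add (Nat.shiftLeft (nat_lit 1) (Nat.land (Nat.shiftRight (V (nat_lit 50)) (S (nat_lit 14))) (nat_lit 65535))) (Nat.shiftLeft (nat_lit 1) (Nat.land (Nat.shiftRight (V (nat_lit 50)) (S (nat_lit 52))) (nat_lit 65535)))) (Nat.add (Nat.shiftLeft (nat_lit 1) (Nat.land (Nat.shiftRight (V (nat_lit 52)) (S (nat_lit 23)))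 (nat_lit 65535))) (Nat.shiftLeft (nat_lit 1) (Nat.land (Nat.shiftRight (V (nat_lit 52)) (S (nat_lit 50))) (nat_lit 65535))))) (Nat.add (Nat.add (Nat.shiftLeft (nat_lit 1) (Nat.land (Nat.shiftRight (V (nat_lit 52)) (S (nat_lit 56))) (nat_lit 65535))) (Nat.shiftLeft (nat_lit 1) (Nat.land (Nat.shiftRight (V (nat_lit 52)) (S (nat_lit 58))) (nat_lit 65535)))) (Nat.add (Nat.shiftLeft (nat_lit 1) (Nat.land (Nat.shiftRight (V (nat_lit 53)) (S (nat_lit 22))) (nat_lit 65535))) (Nat.add (Nat.shiftLeft (nat_lit 1) (Nat.land (Nat.shiftRight (V (nat_lit 53)) (S (nat_lit 49))) (nat_lit 65535))) (Nat.shiftLeft (nat_lit 1) (Nat.land (Nat.shiftRight (V (nat_lit 53)) (S (nat_lit 55))) (nat_lit 65535))))))) (Nat.add (Nat.add (Nat.add (Nat.shiftLeft (nat_lit 1) (Nat.land (Nat.shiftRight (V (nat_lit 53)) (S (nat_lit 59))) (nat_lit 65535))) (Nat.shiftLeft (nat_lit 1) (Nat.land (Nat.shiftRight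 (V (nat_lit 55)) (S (nat_lit 3))) (nat_lit 65535)))) (Nat.add (Nat.shiftLeft (nat_lit 1) (Nat.land (Nat.shiftRight (V (nat_lit 55)) (S (nat_lit 53))) (nat_lit 65535))) (Nat.shiftLeft (nat_lit 1) (Nat.land (Nat.shiftRight (V (nat_lit 56)) (S (nat_lit 5))) (nat_lit 65535))))) (Nat.add (Nat.add (Nat.shiftLeft (nat_lit 1) (Nat.land (Nat.shiftRight (V (nat_lit 56)) (S (nat_lit 52))) (nat_lit 65535))) (Nat.shiftLeft (nat_lit 1) (Nat.land (Nat.shiftRight (V (nat_lit 58)) (S (nat_lit 6))) (nat_lit 65535)))) (Nat.add (Nat.shiftLeft (nat_lit 1) (Nat.land (Nat.shiftRight (V (nat_lit 58)) (S (nat_lit 52))) (nat_lit 65535))) (Nat.add (Nat.shiftLeft (nat_lit 1) (Nat.land (Nat.shiftRight (V (nat_lit 59)) (S (nat_lit 8))) (nat_lit 65535))) (Nat.shiftLeft (nat_lit 1) (Nat.land (Nat.shiftRight (V (nat_lit 59)) (S (nat_lit 53))) (nat_lit 65535))))))))))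
def E80_2 (V S : ℕ → ℕ) : ℕ := Nat.add (Nat.add (Nat.add (Nat.add (Nat.add (Nat.add (Nat.add (Nat.shiftLeft (nat_lit 1) (Nat.land (Nat.shiftRight (V (nat_lit 3)) (S (nat_lit 16))) (nat_lit 65535))) (Nat.add (Nat.shiftLeft (nat_lit 1) (Nat.land (Nat.shiftRight (V (nat_lit 3)) (S (nat_lit 28))) (nat_lit 65535))) (Nat.shiftLeft (nat_lit 1) (Nat.land (Nat.shiftRight (V (nat_lit 3)) (S (nat_lit 36))) (nat_lit 65535))))) (Nat.add (Nat.shiftLeft (nat_lit 1) (Nat.land (Nat.shiftRight (V (nat_lit 3)) (S (nat_lit 51))) (nat_lit 65535))) (Nat.add (Nat.shiftLeft (nat_lit 1) (Nat.land (Nat.shiftRight (V (nat_lit 4)) (S (nat_lit 19))) (nat_lit 65535))) (Nat.shiftLeft (nat_lit 1) (Nat.land (Nat.shiftRight (V (nat_lit 4)) (S (nat_lit 23))) (nat_lit 65535)))))) (Nat.add (Nat.add (Nat.shiftLeft (nat_lit 1) (Nat.land (Nat.shiftRight (V (nat_lit 4)) (S (nat_lit 24))) (nat_lit 65535)))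 (Nat.add (Nat.shiftLeft (nat_lit 1) (Nat.land (Nat.shiftRight (V (nat_lit 4)) (S (nat_lit 25))) (nat_lit 65535))) (Nat.shiftLeft (nat_lit 1) (Nat.land (Nat.shiftRight (V (nat_lit 4)) (S (nat_lit 27))) (nat_lit 65535))))) (Nat.add (Nat.shiftLeft (nat_lit 1) (Nat.land (Nat.shiftRight (V (nat_lit 4)) (S (nat_lit 29))) (nat_lit 65535))) (Nat.add (Nat.shiftLeft (nat_lit 1) (Nat.land (Nat.shiftRight (V (nat_lit 4)) (S (nat_lit 30))) (nat_lit 65535))) (Nat.shiftLeft (nat_lit 1) (Nat.land (Nat.shiftRight (V (nat_lit 4)) (S (nat_lit 35))) (nat_lit 65535))))))) (Nat.add (Nat.add (Nat.add (Nat.shiftLeft (nat_lit 1) (Nat.land (Nat.shiftRight (V (nat_lit 4)) (S (nat_lit 41))) (nat_lit 65535))) (Nat.add (Nat.shiftLeft (nat_lit 1) (Nat.land (Nat.shiftRight (V (nat_lit 4)) (S (nat_lit 43))) (nat_lit 65535))) (Nat.shiftLeft (nat_lit 1) (Nat.land (Nat.shiftRight (V (nat_lit 4)) (S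 (nat_lit 52))) (nat_lit 65535))))) (Nat.add (Nat.shiftLeft (nat_lit 1) (Nat.land (Nat.shiftRight (V (nat_lit 4)) (S (nat_lit 56))) (nat_lit 65535))) (Nat.add (Nat.shiftLeft (nat_lit 1) (Nat.land (Nat.shiftRight (V (nat_lit 5)) (S (nat_lit 15))) (nat_lit 65535))) (Nat.shiftLeft (nat_lit 1) (Nat.land (Nat.shiftRight (V (nat_lit 5)) (S (nat_lit 28))) (nat_lit 65535)))))) (Nat.add (Nat.add (Nat.shiftLeft (nat_lit 1) (Nat.land (Nat.shiftRight (V (nat_lit 5)) (S (nat_lit 40))) (nat_lit 65535))) (Nat.add (Nat.shiftLeft (nat_lit 1) (Nat.land (Nat.shiftRight (V (nat_lit 5)) (S (nat_lit 49))) (nat_lit 65535))) (Nat.shiftLeft (nat_lit 1) (Nat.land (Nat.shiftRight (V (nat_lit 6)) (S (nat_lit 19))) (nat_lit 65535))))) (Nat.add (Nat.shiftLeft (nat_lit 1) (Nat.land (Nat.shiftRight (V (nat_lit 6)) (S (nat_lit 24))) (nat_lit 65535))) (Nat.add (Nat.shiftLeft (nat_lit 1) (Nat.land (Nat.shiftRight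 (V (nat_lit 6)) (S (nat_lit 40))) (nat_lit 65535))) (Nat.shiftLeft (nat_lit 1) (Nat.land (Nat.shiftRight (V (nat_lit 6)) (S (nat_lit 51))) (nat_lit 65535)))))))) (Nat.add (Nat.add (Nat.add (Nat.add (Nat.shiftLeft (nat_lit 1) (Nat.land (Nat.shiftRight (V (nat_lit 7)) (S (nat_lit 16))) (nat_lit 65535))) (Nat.add (Nat.shiftLeft (nat_lit 1) (Nat.land (Nat.shiftRight (V (nat_lit 7)) (S (nat_lit 22))) (nat_lit 65535))) (Nat.shiftLeft (nat_lit 1) (Nat.land (Nat.shiftRight (V (nat_lit 7)) (S (nat_lit 29))) (nat_lit 65535))))) (Nat.add (Nat.shiftLeft (nat_lit 1) (Nat.land (Nat.shiftRight (V (nat_lit 7)) (S (nat_lit 31))) (nat_lit 65535))) (Nat.add (Nat.shiftLeft (nat_lit 1) (Nat.land (Nat.shiftRight (V (nat_lit 7)) (S (nat_lit 36))) (nat_lit 65535))) (Nat.shiftLeft (nat_lit 1) (Nat.land (Nat.shiftRight (V (nat_lit 7)) (S (nat_lit 37))) (nat_lit 65535)))))) (Nat.add (Nat.add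 (Nat.shiftLeft (nat_lit 1) (Nat.land (Nat.shiftRight (V (nat_lit 7)) (S (nat_lit 39))) (nat_lit 65535))) (Nat.add (Nat.shiftLeft (nat_lit 1) (Nat.land (Nat.shiftRight (V (nat_lit 7)) (S (nat_lit 41))) (nat_lit 65535))) (Nat.shiftLeft (nat_lit 1) (Nat.land (Nat.shiftRight (V (nat_lit 7)) (S (nat_lit 42))) (nat_lit 65535))))) (Nat.add (Nat.shiftLeft (nat_lit 1) (Nat.land (Nat.shiftRight (V (nat_lit 7)) (S (nat_lit 47))) (nat_lit 65535))) (Nat.add (Nat.shiftLeft (nat_lit 1) (Nat.land (Nat.shiftRight (V (nat_lit 7)) (S (nat_lit 53))) (nat_lit 65535))) (Nat.shiftLeft (nat_lit 1) (Nat.land (Nat.shiftRight (V (nat_lit 7)) (S (nat_lit 59))) (nat_lit 65535))))))) (Nat.add (Nat.add (Nat.add (Nat.shiftLeft (nat_lit 1) (Nat.land (Nat.shiftRight (V (nat_lit 8)) (S (nat_lit 18))) (nat_lit 65535))) (Nat.add (Nat.shiftLeft (nat_lit 1) (Nat.land (Nat.shiftRight (V (nat_lit 8)) (S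 (nat_lit 28))) (nat_lit 65535))) (Nat.shiftLeft (nat_lit 1) (Nat.land (Nat.shiftRight (V (nat_lit 8)) (S (nat_lit 40))) (nat_lit 65535))))) (Nat.add (Nat.shiftLeft (nat_lit 1) (Nat.land (Nat.shiftRight (V (nat_lit 8)) (S (nat_lit 50))) (nat_lit 65535))) (Nat.add (Nat.shiftLeft (nat_lit 1) (Nat.land (Nat.shiftRight (V (nat_lit 9)) (S (nat_lit 15))) (nat_lit 65535))) (Nat.shiftLeft (nat_lit 1) (Nat.land (Nat.shiftRight (V (nat_lit 9)) (S (nat_lit 18))) (nat_lit 65535)))))) (Nat.add (Nat.add (Nat.shiftLeft (nat_lit 1) (Nat.land (Nat.shiftRight (V (nat_lit 9)) (S (nat_lit 27))) (nat_lit 65535))) (Nat.add (Nat.shiftLeft (nat_lit 1) (Nat.land (Nat.shiftRight (V (nat_lit 9)) (S (nat_lit 33))) (nat_lit 65535))) (Nat.shiftLeft (nat_lit 1) (Nat.land (Nat.shiftRight (V (nat_lit 9)) (S (nat_lit 39))) (nat_lit 65535))))) (Nat.add (Nat.shiftLeft (nat_lit 1) (Nat.land (Nat.shiftRight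 (V (nat_lit 9)) (S (nat_lit 45))) (nat_lit 65535))) (Nat.add (Nat.shiftLeft (nat_lit 1) (Nat.land (Nat.shiftRight (V (nat_lit 9)) (S (nat_lit 49))) (nat_lit 65535))) (Nat.shiftLeft (nat_lit 1) (Nat.land (Nat.shiftRight (V (nat_lit 9)) (S (nat_lit 50))) (nat_lit 65535))))))))) (Nat.add (Nat.add (Nat.add (Nat.add (Nat.add (Nat.shiftLeft (nat_lit 1) (Nat.land (Nat.shiftRight (V (nat_lit 9)) (S (nat_lit 52))) (nat_lit 65535))) (Nat.add (Nat.shiftLeft (nat_lit 1) (Nat.land (Nat.shiftRight (V (nat_lit 9)) (S (nat_lit 53))) (nat_lit 65535))) (Nat.shiftLeft (nat_lit 1) (Nat.land (Nat.shiftRight (V (nat_lit 9)) (S (nat_lit 55))) (nat_lit 65535))))) (Nat.add (Nat.shiftLeft (nat_lit 1) (Nat.land (Nat.shiftRight (V (nat_lit 9)) (S (nat_lit 58))) (nat_lit 65535))) (Nat.add (Nat.shiftLeft (nat_lit 1) (Nat.land (Nat.shiftRight (V (nat_lit 10)) (S (nat_lit 22))) (nat_lit 65535)))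 (Nat.shiftLeft (nat_lit 1) (Nat.land (Nat.shiftRight (V (nat_lit 10)) (S (nat_lit 28))) (nat_lit 65535)))))) (Nat.add (Nat.add (Nat.shiftLeft (nat_lit 1) (Nat.land (Nat.shiftRight (V (nat_lit 10)) (S (nat_lit 37))) (nat_lit 65535))) (Nat.add (Nat.shiftLeft (nat_lit 1) (Nat.land (Nat.shiftRight (V (nat_lit 10)) (S (nat_lit 51))) (nat_lit 65535))) (Nat.shiftLeft (nat_lit 1) (Nat.land (Nat.shiftRight (V (nat_lit 11)) (S (nat_lit 23))) (nat_lit 65535))))) (Nat.add (Nat.shiftLeft (nat_lit 1) (Nat.land (Nat.shiftRight (V (nat_lit 11)) (S (nat_lit 25))) (nat_lit 65535))) (Nat.add (Nat.shiftLeft (nat_lit 1) (Nat.land (Nat.shiftRight (V (nat_lit 11)) (S (nat_lit 40))) (nat_lit 65535))) (Nat.shiftLeft (nat_lit 1) (Nat.land (Nat.shiftRight (V (nat_lit 11)) (S (nat_lit 51))) (nat_lit 65535))))))) (Nat.add (Nat.add (Nat.add (Nat.shiftLeft (nat_lit 1) (Nat.land (Nat.shiftRight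 (V (nat_lit 15)) (S (nat_lit 5))) (nat_lit 65535))) (Nat.add (Nat.shiftLeft (nat_lit 1) (Nat.land (Nat.shiftRight (V (nat_lit 15)) (S (nat_lit 9))) (nat_lit 65535))) (Nat.shiftLeft (nat_lit 1) (Nat.land (Nat.shiftRight (V (nat_lit 15)) (S (nat_lit 28))) (nat_lit 65535))))) (Nat.add (Nat.shiftLeft (nat_lit 1) (Nat.land (Nat.shiftRight (V (nat_lit 15)) (S (nat_lit 39))) (nat_lit 65535))) (Nat.add (Nat.shiftLeft (nat_lit 1) (Nat.land (Nat.shiftRight (V (nat_lit 16)) (S (nat_lit 3))) (nat_lit 65535))) (Nat.shiftLeft (nat_lit 1) (Nat.land (Nat.shiftRight (V (nat_lit 16)) (S (nat_lit 7))) (nat_lit 65535)))))) (Nat.add (Nat.add (Nat.shiftLeft (nat_lit 1) (Nat.land (Nat.shiftRight (V (nat_lit 16)) (S (nat_lit 28))) (nat_lit 65535))) (Nat.add (Nat.shiftLeft (nat_lit 1) (Nat.land (Nat.shiftRight (V (nat_lit 16)) (S (nat_lit 53))) (nat_lit 65535))) (Nat.shiftLeft (nat_lit 1)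 (Nat.land (Nat.shiftRight (V (nat_lit 18)) (S (nat_lit 8))) (nat_lit 65535))))) (Nat.add (Nat.shiftLeft (nat_lit 1) (Nat.land (Nat.shiftRight (V (nat_lit 18)) (S (nat_lit 9))) (nat_lit 65535))) (Nat.add (Nat.shiftLeft (nat_lit 1) (Nat.land (Nat.shiftRight (V (nat_lit 18)) (S (nat_lit 27))) (nat_lit 65535))) (Nat.shiftLeft (nat_lit 1) (Nat.land (Nat.shiftRight (V (nat_lit 18)) (S (nat_lit 40))) (nat_lit 65535)))))))) (Nat.add (Nat.add (Nat.add (Nat.add (Nat.shiftLeft (nat_lit 1) (Nat.land (Nat.shiftRight (V (nat_lit 19)) (S (nat_lit 4))) (nat_lit 65535))) (Nat.add (Nat.shiftLeft (nat_lit 1) (Nat.land (Nat.shiftRight (V (nat_lit 19)) (S (nat_lit 6))) (nat_lit 65535))) (Nat.shiftLeft (nat_lit 1) (Nat.land (Nat.shiftRight (V (nat_lit 19)) (S (nat_lit 40))) (nat_lit 65535))))) (Nat.add (Nat.shiftLeft (nat_lit 1) (Nat.land (Nat.shiftRight (V (nat_lit 19)) (S (nat_lit 52)))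 (nat_lit 65535))) (Nat.add (Nat.shiftLeft (nat_lit 1) (Nat.land (Nat.shiftRight (V (nat_lit 22)) (S (nat_lit 7))) (nat_lit 65535))) (Nat.shiftLeft (nat_lit 1) (Nat.land (Nat.shiftRight (V (nat_lit 22)) (S (nat_lit 10))) (nat_lit 65535)))))) (Nat.add (Nat.add (Nat.shiftLeft (nat_lit 1) (Nat.land (Nat.shiftRight (V (nat_lit 22)) (S (nat_lit 29))) (nat_lit 65535))) (Nat.add (Nat.shiftLeft (nat_lit 1) (Nat.land (Nat.shiftRight (V (nat_lit 22)) (S (nat_lit 51))) (nat_lit 65535))) (Nat.shiftLeft (nat_lit 1) (Nat.land (Nat.shiftRight (V (nat_lit 23)) (S (nat_lit 4))) (nat_lit 65535))))) (Nat.add (Nat.shiftLeft (nat_lit 1) (Nat.land (Nat.shiftRight (V (nat_lit 23)) (S (nat_lit 11))) (nat_lit 65535))) (Nat.add (Nat.shiftLeft (nat_lit 1) (Nat.land (Nat.shiftRight (V (nat_lit 23)) (S (nat_lit 41))) (nat_lit 65535))) (Nat.shiftLeft (nat_lit 1) (Nat.land (Nat.shiftRight (V (nat_lit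 23)) (S (nat_lit 51))) (nat_lit 65535))))))) (Nat.add (Nat.add (Nat.add (Nat.shiftLeft (nat_lit 1) (Nat.land (Nat.shiftRight (V (nat_lit 24)) (S (nat_lit 4))) (nat_lit 65535))) (Nat.add (Nat.shiftLeft (nat_lit 1) (Nat.land (Nat.shiftRight (V (nat_lit 24)) (S (nat_lit 6))) (nat_lit 65535))) (Nat.shiftLeft (nat_lit 1) (Nat.land (Nat.shiftRight (V (nat_lit 24)) (S (nat_lit 29))) (nat_lit 65535))))) (Nat.add (Nat.shiftLeft (nat_lit 1) (Nat.land (Nat.shiftRight (V (nat_lit 24)) (S (nat_lit 51))) (nat_lit 65535))) (Nat.add (Nat.shiftLeft (nat_lit 1) (Nat.land (Nat.shiftRight (V (nat_lit 25)) (S (nat_lit 4))) (nat_lit 65535))) (Nat.shiftLeft (nat_lit 1) (Nat.land (Nat.shiftRight (V (nat_lit 25)) (S (nat_lit 11))) (nat_lit 65535)))))) (Nat.add (Nat.add (Nat.shiftLeft (nat_lit 1) (Nat.land (Nat.shiftRight (V (nat_lit 25)) (S (nat_lit 27))) (nat_lit 65535))) (Nat.add (Nat.shiftLeft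 (nat_lit 1) (Nat.land (Nat.shiftRight (V (nat_lit 25)) (S (nat_lit 40))) (nat_lit 65535))) (Nat.shiftLeft (nat_lit 1) (Nat.land (Nat.shiftRight (V (nat_lit 27)) (S (nat_lit 4))) (nat_lit 65535))))) (Nat.add (Nat.shiftLeft (nat_lit 1) (Nat.land (Nat.shiftRight (V (nat_lit 27)) (S (nat_lit 9))) (nat_lit 65535))) (Nat.add (Nat.shiftLeft (nat_lit 1) (Nat.land (Nat.shiftRight (V (nat_lit 27)) (S (nat_lit 18))) (nat_lit 65535))) (Nat.shiftLeft (nat_lit 1) (Nat.land (Nat.shiftRight (V (nat_lit 27)) (S (nat_lit 25))) (nat_lit 65535)))))))))) (Nat.add (Nat.add (Nat.add (Nat.add (Nat.add (Nat.add (Nat.shiftLeft (nat_lit 1) (Nat.land (Nat.shiftRight (V (nat_lit 28)) (S (nat_lit 3))) (nat_lit 65535))) (Nat.add (Nat.shiftLeft (nat_lit 1) (Nat.land (Nat.shiftRight (V (nat_lit 28)) (S (nat_lit 5))) (nat_lit 65535))) (Nat.shiftLeft (nat_lit 1) (Nat.land (Nat.shiftRight (V (nat_lit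 28)) (S (nat_lit 8))) (nat_lit 65535))))) (Nat.add (Nat.shiftLeft (nat_lit 1) (Nat.land (Nat.shiftRight (V (nat_lit 28)) (S (nat_lit 10))) (nat_lit 65535))) (Nat.add (Nat.shiftLeft (nat_lit 1) (Nat.land (Nat.shiftRight (V (nat_lit 28)) (S (nat_lit 15))) (nat_lit 65535))) (Nat.shiftLeft (nat_lit 1) (Nat.land (Nat.shiftRight (V (nat_lit 28)) (S (nat_lit 16))) (nat_lit 65535)))))) (Nat.add (Nat.add (Nat.shiftLeft (nat_lit 1) (Nat.land (Nat.shiftRight (V (nat_lit 28)) (S (nat_lit 30))) (nat_lit 65535))) (Nat.add (Nat.shiftLeft (nat_lit 1) (Nat.land (Nat.shiftRight (V (nat_lit 28)) (S (nat_lit 35))) (nat_lit 65535))) (Nat.shiftLeft (nat_lit 1) (Nat.land (Nat.shiftRight (V (nat_lit 28)) (S (nat_lit 37))) (nat_lit 65535))))) (Nat.add (Nat.shiftLeft (nat_lit 1) (Nat.land (Nat.shiftRight (V (nat_lit 28)) (S (nat_lit 43))) (nat_lit 65535))) (Nat.add (Nat.shiftLeft (nat_lit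 1) (Nat.land (Nat.shiftRight (V (nat_lit 28)) (S (nat_lit 50))) (nat_lit 65535))) (Nat.shiftLeft (nat_lit 1) (Nat.land (Nat.shiftRight (V (nat_lit 28)) (S (nat_lit 56))) (nat_lit 65535))))))) (Nat.add (Nat.add (Nat.add (Nat.shiftLeft (nat_lit 1) (Nat.land (Nat.shiftRight (V (nat_lit 29)) (S (nat_lit 4))) (nat_lit 65535))) (Nat.add (Nat.shiftLeft (nat_lit 1) (Nat.land (Nat.shiftRight (V (nat_lit 29)) (S (nat_lit 7))) (nat_lit 65535))) (Nat.shiftLeft (nat_lit 1) (Nat.land (Nat.shiftRight (V (nat_lit 29)) (S (nat_lit 22))) (nat_lit 65535))))) (Nat.add (Nat.shiftLeft (nat_lit 1) (Nat.land (Nat.shiftRight (V (nat_lit 29)) (S (nat_lit 24))) (nat_lit 65535))) (Nat.add (Nat.shiftLeft (nat_lit 1) (Nat.land (Nat.shiftRight (V (nat_lit 30)) (S (nat_lit 4))) (nat_lit 65535))) (Nat.shiftLeft (nat_lit 1) (Nat.land (Nat.shiftRight (V (nat_lit 30)) (S (nat_lit 28))) (nat_lit 65535))))))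 (Nat.add (Nat.add (Nat.shiftLeft (nat_lit 1) (Nat.land (Nat.shiftRight (V (nat_lit 31)) (S (nat_lit 7))) (nat_lit 65535))) (Nat.add (Nat.shiftLeft (nat_lit 1) (Nat.land (Nat.shiftRight (V (nat_lit 31)) (S (nat_lit 40))) (nat_lit 65535))) (Nat.shiftLeft (nat_lit 1) (Nat.land (Nat.shiftRight (V (nat_lit 33)) (S (nat_lit 9))) (nat_lit 65535))))) (Nat.add (Nat.shiftLeft (nat_lit 1) (Nat.land (Nat.shiftRight (V (nat_lit 33)) (S (nat_lit 51))) (nat_lit 65535))) (Nat.add (Nat.shiftLeft (nat_lit 1) (Nat.land (Nat.shiftRight (V (nat_lit 35)) (S (nat_lit 4))) (nat_lit 65535))) (Nat.shiftLeft (nat_lit 1) (Nat.land (Nat.shiftRight (V (nat_lit 35)) (S (nat_lit 28))) (nat_lit 65535)))))))) (Nat.add (Nat.add (Nat.add (Nat.add (Nat.shiftLeft (nat_lit 1) (Nat.land (Nat.shiftRight (V (nat_lit 36)) (S (nat_lit 3))) (nat_lit 65535))) (Nat.add (Nat.shiftLeft (nat_lit 1) (Nat.land (Nat.shiftRight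 (V (nat_lit 36)) (S (nat_lit 7))) (nat_lit 65535))) (Nat.shiftLeft (nat_lit 1) (Nat.land (Nat.shiftRight (V (nat_lit 36)) (S (nat_lit 41))) (nat_lit 65535))))) (Nat.add (Nat.shiftLeft (nat_lit 1) (Nat.land (Nat.shiftRight (V (nat_lit 36)) (S (nat_lit 51))) (nat_lit 65535))) (Nat.add (Nat.shiftLeft (nat_lit 1) (Nat.land (Nat.shiftRight (V (nat_lit 37)) (S (nat_lit 7))) (nat_lit 65535))) (Nat.shiftLeft (nat_lit 1) (Nat.land (Nat.shiftRight (V (nat_lit 37)) (S (nat_lit 10))) (nat_lit 65535)))))) (Nat.add (Nat.add (Nat.shiftLeft (nat_lit 1) (Nat.land (Nat.shiftRight (V (nat_lit 37)) (S (nat_lit 28))) (nat_lit 65535))) (Nat.add (Nat.shiftLeft (nat_lit 1) (Nat.land (Nat.shiftRight (V (nat_lit 37)) (S (nat_lit 39))) (nat_lit 65535))) (Nat.shiftLeft (nat_lit 1) (Nat.land (Nat.shiftRight (V (nat_lit 39)) (S (nat_lit 7))) (nat_lit 65535))))) (Nat.add (Nat.shiftLeft (nat_lit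 1) (Nat.land (Nat.shiftRight (V (nat_lit 39)) (S (nat_lit 9))) (nat_lit 65535))) (Nat.add (Nat.shiftLeft (nat_lit 1) (Nat.land (Nat.shiftRight (V (nat_lit 39)) (S (nat_lit 15))) (nat_lit 65535))) (Nat.shiftLeft (nat_lit 1) (Nat.land (Nat.shiftRight (V (nat_lit 39)) (S (nat_lit 37))) (nat_lit 65535))))))) (Nat.add (Nat.add (Nat.add (Nat.shiftLeft (nat_lit 1) (Nat.land (Nat.shiftRight (V (nat_lit 40)) (S (nat_lit 5))) (nat_lit 65535))) (Nat.add (Nat.shiftLeft (nat_lit 1) (Nat.land (Nat.shiftRight (V (nat_lit 40)) (S (nat_lit 6))) (nat_lit 65535))) (Nat.shiftLeft (nat_lit 1) (Nat.land (Nat.shiftRight (V (nat_lit 40)) (S (nat_lit 8))) (nat_lit 65535))))) (Nat.add (Nat.shiftLeft (nat_lit 1) (Nat.land (Nat.shiftRight (V (nat_lit 40)) (S (nat_lit 11))) (nat_lit 65535))) (Nat.add (Nat.shiftLeft (nat_lit 1) (Nat.land (Nat.shiftRight (V (nat_lit 40)) (S (nat_lit 18))) (nat_lit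 65535))) (Nat.shiftLeft (nat_lit 1) (Nat.land (Nat.shiftRight (V (nat_lit 40)) (S (nat_lit 19))) (nat_lit 65535)))))) (Nat.add (Nat.add (Nat.shiftLeft (nat_lit 1) (Nat.land (Nat.shiftRight (V (nat_lit 40)) (S (nat_lit 25))) (nat_lit 65535))) (Nat.add (Nat.shiftLeft (nat_lit 1) (Nat.land (Nat.shiftRight (V (nat_lit 40)) (S (nat_lit 31))) (nat_lit 65535))) (Nat.shiftLeft (nat_lit 1) (Nat.land (Nat.shiftRight (V (nat_lit 40)) (S (nat_lit 42))) (nat_lit 65535))))) (Nat.add (Nat.shiftLeft (nat_lit 1) (Nat.land (Nat.shiftRight (V (nat_lit 40)) (S (nat_lit 47))) (nat_lit 65535))) (Nat.add (Nat.shiftLeft (nat_lit 1) (Nat.land (Nat.shiftRight (V (nat_lit 40)) (S (nat_lit 49))) (nat_lit 65535))) (Nat.shiftLeft (nat_lit 1) (Nat.land (Nat.shiftRight (V (nat_lit 40)) (S (nat_lit 59))) (nat_lit 65535))))))))) (Nat.add (Nat.add (Nat.add (Nat.add (Nat.add (Nat.shiftLeft (nat_lit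 1) (Nat.land (Nat.shiftRight (V (nat_lit 41)) (S (nat_lit 4))) (nat_lit 65535))) (Nat.add (Nat.shiftLeft (nat_lit 1) (Nat.land (Nat.shiftRight (V (nat_lit 41)) (S (nat_lit 7))) (nat_lit 65535))) (Nat.shiftLeft (nat_lit 1) (Nat.land (Nat.shiftRight (V (nat_lit 41)) (S (nat_lit 23))) (nat_lit 65535))))) (Nat.add (Nat.shiftLeft (nat_lit 1) (Nat.land (Nat.shiftRight (V (nat_lit 41)) (S (nat_lit 36))) (nat_lit 65535))) (Nat.add (Nat.shiftLeft (nat_lit 1) (Nat.land (Nat.shiftRight (V (nat_lit 42)) (S (nat_lit 7))) (nat_lit 65535))) (Nat.shiftLeft (nat_lit 1) (Nat.land (Nat.shiftRight (V (nat_lit 42)) (S (nat_lit 40))) (nat_lit 65535)))))) (Nat.add (Nat.add (Nat.shiftLeft (nat_lit 1) (Nat.land (Nat.shiftRight (V (nat_lit 43)) (S (nat_lit 4))) (nat_lit 65535))) (Nat.add (Nat.shiftLeft (nat_lit 1) (Nat.land (Nat.shiftRight (V (nat_lit 43)) (S (nat_lit 28))) (nat_lit 65535)))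 (Nat.shiftLeft (nat_lit 1) (Nat.land (Nat.shiftRight (V (nat_lit 45)) (S (nat_lit 9))) (nat_lit 65535))))) (Nat.add (Nat.shiftLeft (nat_lit 1) (Nat.land (Nat.shiftRight (V (nat_lit 45)) (S (nat_lit 51))) (nat_lit 65535))) (Nat.add (Nat.shiftLeft (nat_lit 1) (Nat.land (Nat.shiftRight (V (nat_lit 47)) (S (nat_lit 7))) (nat_lit 65535))) (Nat.shiftLeft (nat_lit 1) (Nat.land (Nat.shiftRight (V (nat_lit 47)) (S (nat_lit 40))) (nat_lit 65535))))))) (Nat.add (Nat.add (Nat.add (Nat.shiftLeft (nat_lit 1) (Nat.land (Nat.shiftRight (V (nat_lit 49)) (S (nat_lit 5))) (nat_lit 65535))) (Nat.add (Nat.shiftLeft (nat_lit 1) (Nat.land (Nat.shiftRight (V (nat_lit 49)) (S (nat_lit 9))) (nat_lit 65535))) (Nat.shiftLeft (nat_lit 1) (Nat.land (Nat.shiftRight (V (nat_lit 49)) (S (nat_lit 40))) (nat_lit 65535))))) (Nat.add (Nat.shiftLeft (nat_lit 1) (Nat.land (Nat.shiftRight (V (nat_lit 49))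 (S (nat_lit 52))) (nat_lit 65535))) (Nat.add (Nat.shiftLeft (nat_lit 1) (Nat.land (Nat.shiftRight (V (nat_lit 50)) (S (nat_lit 8))) (nat_lit 65535))) (Nat.shiftLeft (nat_lit 1) (Nat.land (Nat.shiftRight (V (nat_lit 50)) (S (nat_lit 9))) (nat_lit 65535)))))) (Nat.add (Nat.add (Nat.shiftLeft (nat_lit 1) (Nat.land (Nat.shiftRight (V (nat_lit 50)) (S (nat_lit 28))) (nat_lit 65535))) (Nat.add (Nat.shiftLeft (nat_lit 1) (Nat.land (Nat.shiftRight (V (nat_lit 50)) (S (nat_lit 53))) (nat_lit 65535))) (Nat.shiftLeft (nat_lit 1) (Nat.land (Nat.shiftRight (V (nat_lit 51)) (S (nat_lit 3))) (nat_lit 65535))))) (Nat.add (Nat.shiftLeft (nat_lit 1) (Nat.land (Nat.shiftRight (V (nat_lit 51)) (S (nat_lit 6))) (nat_lit 65535))) (Nat.add (Nat.shiftLeft (nat_lit 1) (Nat.land (Nat.shiftRight (V (nat_lit 51)) (S (nat_lit 10))) (nat_lit 65535))) (Nat.shiftLeft (nat_lit 1) (Nat.land (Nat.shiftRight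 (V (nat_lit 51)) (S (nat_lit 11))) (nat_lit 65535)))))))) (Nat.add (Nat.add (Nat.add (Nat.add (Nat.shiftLeft (nat_lit 1) (Nat.land (Nat.shiftRight (V (nat_lit 51)) (S (nat_lit 22))) (nat_lit 65535))) (Nat.add (Nat.shiftLeft (nat_lit 1) (Nat.land (Nat.shiftRight (V (nat_lit 51)) (S (nat_lit 23))) (nat_lit 65535))) (Nat.shiftLeft (nat_lit 1) (Nat.land (Nat.shiftRight (V (nat_lit 51)) (S (nat_lit 24))) (nat_lit 65535))))) (Nat.add (Nat.shiftLeft (nat_lit 1) (Nat.land (Nat.shiftRight (V (nat_lit 51)) (S (nat_lit 33))) (nat_lit 65535))) (Nat.add (Nat.shiftLeft (nat_lit 1) (Nat.land (Nat.shiftRight (V (nat_lit 51)) (S (nat_lit 36))) (nat_lit 65535))) (Nat.shiftLeft (nat_lit 1) (Nat.land (Nat.shiftRight (V (nat_lit 51)) (S (nat_lit 45))) (nat_lit 65535)))))) (Nat.add (Nat.add (Nat.shiftLeft (nat_lit 1) (Nat.land (Nat.shiftRight (V (nat_lit 51)) (S (nat_lit 55))) (nat_lit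 65535))) (Nat.add (Nat.shiftLeft (nat_lit 1) (Nat.land (Nat.shiftRight (V (nat_lit 51)) (S (nat_lit 58))) (nat_lit 65535))) (Nat.shiftLeft (nat_lit 1) (Nat.land (Nat.shiftRight (V (nat_lit 52)) (S (nat_lit 4))) (nat_lit 65535))))) (Nat.add (Nat.shiftLeft (nat_lit 1) (Nat.land (Nat.shiftRight (V (nat_lit 52)) (S (nat_lit 9))) (nat_lit 65535))) (Nat.add (Nat.shiftLeft (nat_lit 1) (Nat.land (Nat.shiftRight (V (nat_lit 52)) (S (nat_lit 19))) (nat_lit 65535))) (Nat.shiftLeft (nat_lit 1) (Nat.land (Nat.shiftRight (V (nat_lit 52)) (S (nat_lit 49))) (nat_lit 65535))))))) (Nat.add (Nat.add (Nat.add (Nat.shiftLeft (nat_lit 1) (Nat.land (Nat.shiftRight (V (nat_lit 53)) (S (nat_lit 7))) (nat_lit 65535))) (Nat.add (Nat.shiftLeft (nat_lit 1) (Nat.land (Nat.shiftRight (V (nat_lit 53)) (S (nat_lit 9))) (nat_lit 65535))) (Nat.shiftLeft (nat_lit 1) (Nat.land (Nat.shiftRight (V (nat_lit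 53)) (S (nat_lit 16))) (nat_lit 65535))))) (Nat.add (Nat.shiftLeft (nat_lit 1) (Nat.land (Nat.shiftRight (V (nat_lit 53)) (S (nat_lit 50))) (nat_lit 65535))) (Nat.add (Nat.shiftLeft (nat_lit 1) (Nat.land (Nat.shiftRight (V (nat_lit 55)) (S (nat_lit 9))) (nat_lit 65535))) (Nat.shiftLeft (nat_lit 1) (Nat.land (Nat.shiftRight (V (nat_lit 55)) (S (nat_lit 51))) (nat_lit 65535)))))) (Nat.add (Nat.add (Nat.shiftLeft (nat_lit 1) (Nat.land (Nat.shiftRight (V (nat_lit 56)) (S (nat_lit 4))) (nat_lit 65535))) (Nat.add (Nat.shiftLeft (nat_lit 1) (Nat.land (Nat.shiftRight (V (nat_lit 56)) (S (nat_lit 28))) (nat_lit 65535))) (Nat.shiftLeft (nat_lit 1) (Nat.land (Nat.shiftRight (V (nat_lit 58)) (S (nat_lit 9))) (nat_lit 65535))))) (Nat.add (Nat.shiftLeft (nat_lit 1) (Nat.land (Nat.shiftRight (V (nat_lit 58)) (S (nat_lit 51))) (nat_lit 65535))) (Nat.add (Nat.shiftLeft (nat_lit 1)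 (Nat.land (Nat.shiftRight (V (nat_lit 59)) (S (nat_lit 7))) (nat_lit 65535))) (Nat.shiftLeft (nat_lit 1) (Nat.land (Nat.shiftRight (V (nat_lit 59)) (S (nat_lit 40))) (nat_lit 65535))))))))))
def E81_2 (V S : ℕ → ℕ) : ℕ := Nat.add (Nat.add (Nat.add (Nat.add (Nat.add (Nat.add (Nat.add (Nat.shiftLeft (nat_lit 1) (Nat.land (Nat.shiftRight (V (nat_lit 3)) (S (nat_lit 17))) (nat_lit 65535))) (Nat.shiftLeft (nat_lit 1) (Nat.land (Nat.shiftRight (V (nat_lit 3)) (S (nat_lit 19))) (nat_lit 65535)))) (Nat.add (Nat.shiftLeft (nat_lit 1) (Nat.land (Nat.shiftRight (V (nat_lit 3)) (S (nat_lit 48))) (nat_lit 65535))) (Nat.shiftLeft (nat_lit 1) (Nat.land (Nat.shiftRight (V (nat_lit 3)) (S (nat_lit 49))) (nat_lit 65535))))) (Nat.add (Nat.add (Nat.shiftLeft (nat_lit 1) (Nat.land (Nat.shiftRight (V (nat_lit 5)) (S (nat_lit 17))) (nat_lit 65535))) (Nat.shiftLeft (nat_lit 1) (Nat.land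 (Nat.shiftRight (V (nat_lit 5)) (S (nat_lit 23))) (nat_lit 65535)))) (Nat.add (Nat.shiftLeft (nat_lit 1) (Nat.land (Nat.shiftRight (V (nat_lit 5)) (S (nat_lit 36))) (nat_lit 65535))) (Nat.add (Nat.shiftLeft (nat_lit 1) (Nat.land (Nat.shiftRight (V (nat_lit 5)) (S (nat_lit 38))) (nat_lit 65535))) (Nat.shiftLeft (nat_lit 1) (Nat.land (Nat.shiftRight (V (nat_lit 6)) (S (nat_lit 16))) (nat_lit 65535))))))) (Nat.add (Nat.add (Nat.add (Nat.shiftLeft (nat_lit 1) (Nat.land (Nat.shiftRight (V (nat_lit 6)) (S (nat_lit 20))) (nat_lit 65535))) (Nat.shiftLeft (nat_lit 1) (Nat.land (Nat.shiftRight (V (nat_lit 6)) (S (nat_lit 48))) (nat_lit 65535)))) (Nat.add (Nat.shiftLeft (nat_lit 1) (Nat.land (Nat.shiftRight (V (nat_lit 6)) (S (nat_lit 50))) (nat_lit 65535))) (Nat.shiftLeft (nat_lit 1) (Nat.land (Nat.shiftRight (V (nat_lit 8)) (S (nat_lit 20))) (nat_lit 65535))))) (Nat.add (Nat.add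 (Nat.shiftLeft (nat_lit 1) (Nat.land (Nat.shiftRight (V (nat_lit 8)) (S (nat_lit 22))) (nat_lit 65535))) (Nat.shiftLeft (nat_lit 1) (Nat.land (Nat.shiftRight (V (nat_lit 8)) (S (nat_lit 24))) (nat_lit 65535)))) (Nat.add (Nat.shiftLeft (nat_lit 1) (Nat.land (Nat.shiftRight (V (nat_lit 8)) (S (nat_lit 26))) (nat_lit 65535))) (Nat.add (Nat.shiftLeft (nat_lit 1) (Nat.land (Nat.shiftRight (V (nat_lit 10)) (S (nat_lit 18))) (nat_lit 65535))) (Nat.shiftLeft (nat_lit 1) (Nat.land (Nat.shiftRight (V (nat_lit 10)) (S (nat_lit 21))) (nat_lit 65535)))))))) (Nat.add (Nat.add (Nat.add (Nat.add (Nat.shiftLeft (nat_lit 1) (Nat.land (Nat.shiftRight (V (nat_lit 10)) (S (nat_lit 25))) (nat_lit 65535))) (Nat.shiftLeft (nat_lit 1) (Nat.land (Nat.shiftRight (V (nat_lit 10)) (S (nat_lit 26))) (nat_lit 65535)))) (Nat.add (Nat.shiftLeft (nat_lit 1) (Nat.land (Nat.shiftRight (V (nat_lit 11))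 (S (nat_lit 15))) (nat_lit 65535))) (Nat.shiftLeft (nat_lit 1) (Nat.land (Nat.shiftRight (V (nat_lit 11)) (S (nat_lit 21))) (nat_lit 65535))))) (Nat.add (Nat.add (Nat.shiftLeft (nat_lit 1) (Nat.land (Nat.shiftRight (V (nat_lit 11)) (S (nat_lit 37))) (nat_lit 65535))) (Nat.shiftLeft (nat_lit 1) (Nat.land (Nat.shiftRight (V (nat_lit 11)) (S (nat_lit 38))) (nat_lit 65535)))) (Nat.add (Nat.shiftLeft (nat_lit 1) (Nat.land (Nat.shiftRight (V (nat_lit 15)) (S (nat_lit 11))) (nat_lit 65535))) (Nat.add (Nat.shiftLeft (nat_lit 1) (Nat.land (Nat.shiftRight (V (nat_lit 15)) (S (nat_lit 33))) (nat_lit 65535))) (Nat.shiftLeft (nat_lit 1) (Nat.land (Nat.shiftRight (V (nat_lit 15)) (S (nat_lit 41))) (nat_lit 65535))))))) (Nat.add (Nat.add (Nat.add (Nat.shiftLeft (nat_lit 1) (Nat.land (Nat.shiftRight (V (nat_lit 15)) (S (nat_lit 43))) (nat_lit 65535))) (Nat.shiftLeft (nat_lit 1) (Nat.land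 (Nat.shiftRight (V (nat_lit 16)) (S (nat_lit 6))) (nat_lit 65535)))) (Nat.add (Nat.shiftLeft (nat_lit 1) (Nat.land (Nat.shiftRight (V (nat_lit 16)) (S (nat_lit 31))) (nat_lit 65535))) (Nat.shiftLeft (nat_lit 1) (Nat.land (Nat.shiftRight (V (nat_lit 16)) (S (nat_lit 52))) (nat_lit 65535))))) (Nat.add (Nat.add (Nat.shiftLeft (nat_lit 1) (Nat.land (Nat.shiftRight (V (nat_lit 16)) (S (nat_lit 56))) (nat_lit 65535))) (Nat.shiftLeft (nat_lit 1) (Nat.land (Nat.shiftRight (V (nat_lit 17)) (S (nat_lit 3))) (nat_lit 65535)))) (Nat.add (Nat.shiftLeft (nat_lit 1) (Nat.land (Nat.shiftRight (V (nat_lit 17)) (S (nat_lit 5))) (nat_lit 65535))) (Nat.add (Nat.shiftLeft (nat_lit 1) (Nat.land (Nat.shiftRight (V (nat_lit 17)) (S (nat_lit 41))) (nat_lit 65535))) (Nat.shiftLeft (nat_lit 1) (Nat.land (Nat.shiftRight (V (nat_lit 17)) (S (nat_lit 52))) (nat_lit 65535))))))))) (Nat.add (Nat.add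 (Nat.add (Nat.add (Nat.add (Nat.shiftLeft (nat_lit 1) (Nat.land (Nat.shiftRight (V (nat_lit 18)) (S (nat_lit 10))) (nat_lit 65535))) (Nat.shiftLeft (nat_lit 1) (Nat.land (Nat.shiftRight (V (nat_lit 18)) (S (nat_lit 29))) (nat_lit 65535)))) (Nat.add (Nat.shiftLeft (nat_lit 1) (Nat.land (Nat.shiftRight (V (nat_lit 18)) (S (nat_lit 31))) (nat_lit 65535))) (Nat.shiftLeft (nat_lit 1) (Nat.land (Nat.shiftRight (V (nat_lit 18)) (S (nat_lit 45))) (nat_lit 65535))))) (Nat.add (Nat.add (Nat.shiftLeft (nat_lit 1) (Nat.land (Nat.shiftRight (V (nat_lit 19)) (S (nat_lit 3))) (nat_lit 65535))) (Nat.shiftLeft (nat_lit 1) (Nat.land (Nat.shiftRight (V (nat_lit 19)) (S (nat_lit 43))) (nat_lit 65535)))) (Nat.add (Nat.shiftLeft (nat_lit 1) (Nat.land (Nat.shiftRight (V (nat_lit 19)) (S (nat_lit 53))) (nat_lit 65535))) (Nat.add (Nat.shiftLeft (nat_lit 1) (Nat.land (Nat.shiftRight (V (nat_lit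 19)) (S (nat_lit 59))) (nat_lit 65535))) (Nat.shiftLeft (nat_lit 1) (Nat.land (Nat.shiftRight (V (nat_lit 20)) (S (nat_lit 6))) (nat_lit 65535))))))) (Nat.add (Nat.add (Nat.add (Nat.shiftLeft (nat_lit 1) (Nat.land (Nat.shiftRight (V (nat_lit 20)) (S (nat_lit 8))) (nat_lit 65535))) (Nat.shiftLeft (nat_lit 1) (Nat.land (Nat.shiftRight (V (nat_lit 20)) (S (nat_lit 29))) (nat_lit 65535)))) (Nat.add (Nat.shiftLeft (nat_lit 1) (Nat.land (Nat.shiftRight (V (nat_lit 20)) (S (nat_lit 53))) (nat_lit 65535))) (Nat.shiftLeft (nat_lit 1) (Nat.land (Nat.shiftRight (V (nat_lit 21)) (S (nat_lit 10))) (nat_lit 65535))))) (Nat.add (Nat.add (Nat.shiftLeft (nat_lit 1) (Nat.land (Nat.shiftRight (V (nat_lit 21)) (S (nat_lit 11))) (nat_lit 65535))) (Nat.shiftLeft (nat_lit 1) (Nat.land (Nat.shiftRight (V (nat_lit 21)) (S (nat_lit 27))) (nat_lit 65535)))) (Nat.add (Nat.shiftLeft (nat_lit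 1) (Nat.land (Nat.shiftRight (V (nat_lit 21)) (S (nat_lit 39))) (nat_lit 65535))) (Nat.add (Nat.shiftLeft (nat_lit 1) (Nat.land (Nat.shiftRight (V (nat_lit 22)) (S (nat_lit 8))) (nat_lit 65535))) (Nat.shiftLeft (nat_lit 1) (Nat.land (Nat.shiftRight (V (nat_lit 22)) (S (nat_lit 27))) (nat_lit 65535)))))))) (Nat.add (Nat.add (Nat.add (Nat.add (Nat.shiftLeft (nat_lit 1) (Nat.land (Nat.shiftRight (V (nat_lit 22)) (S (nat_lit 33))) (nat_lit 65535))) (Nat.shiftLeft (nat_lit 1) (Nat.land (Nat.shiftRight (V (nat_lit 22)) (S (nat_lit 59))) (nat_lit 65535)))) (Nat.add (Nat.shiftLeft (nat_lit 1) (Nat.land (Nat.shiftRight (V (nat_lit 23)) (S (nat_lit 5))) (nat_lit 65535))) (Nat.shiftLeft (nat_lit 1) (Nat.land (Nat.shiftRight (V (nat_lit 23)) (S (nat_lit 39))) (nat_lit 65535))))) (Nat.add (Nat.add (Nat.shiftLeft (nat_lit 1) (Nat.land (Nat.shiftRight (V (nat_lit 23)) (S (nat_lit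 45))) (nat_lit 65535))) (Nat.shiftLeft (nat_lit 1) (Nat.land (Nat.shiftRight (V (nat_lit 23)) (S (nat_lit 56))) (nat_lit 65535)))) (Nat.add (Nat.shiftLeft (nat_lit 1) (Nat.land (Nat.shiftRight (V (nat_lit 24)) (S (nat_lit 8))) (nat_lit 65535))) (Nat.add (Nat.shiftLeft (nat_lit 1) (Nat.land (Nat.shiftRight (V (nat_lit 24)) (S (nat_lit 30))) (nat_lit 65535))) (Nat.shiftLeft (nat_lit 1) (Nat.land (Nat.shiftRight (V (nat_lit 24)) (S (nat_lit 53))) (nat_lit 65535))))))) (Nat.add (Nat.add (Nat.add (Nat.shiftLeft (nat_lit 1) (Nat.land (Nat.shiftRight (V (nat_lit 24)) (S (nat_lit 55))) (nat_lit 65535))) (Nat.shiftLeft (nat_lit 1) (Nat.land (Nat.shiftRight (V (nat_lit 25)) (S (nat_lit 10))) (nat_lit 65535)))) (Nat.add (Nat.shiftLeft (nat_lit 1) (Nat.land (Nat.shiftRight (V (nat_lit 25)) (S (nat_lit 35))) (nat_lit 65535))) (Nat.shiftLeft (nat_lit 1) (Nat.land (Nat.shiftRight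 (V (nat_lit 25)) (S (nat_lit 39))) (nat_lit 65535))))) (Nat.add (Nat.add (Nat.shiftLeft (nat_lit 1) (Nat.land (Nat.shiftRight (V (nat_lit 25)) (S (nat_lit 42))) (nat_lit 65535))) (Nat.shiftLeft (nat_lit 1) (Nat.land (Nat.shiftRight (V (nat_lit 26)) (S (nat_lit 8))) (nat_lit 65535)))) (Nat.add (Nat.shiftLeft (nat_lit 1) (Nat.land (Nat.shiftRight (V (nat_lit 26)) (S (nat_lit 10))) (nat_lit 65535))) (Nat.add (Nat.shiftLeft (nat_lit 1) (Nat.land (Nat.shiftRight (V (nat_lit 26)) (S (nat_lit 27))) (nat_lit 65535))) (Nat.shiftLeft (nat_lit 1) (Nat.land (Nat.shiftRight (V (nat_lit 26)) (S (nat_lit 29))) (nat_lit 65535)))))))))) (Nat.add (Nat.add (Nat.add (Nat.add (Nat.add (Nat.add (Nat.shiftLeft (nat_lit 1) (Nat.land (Nat.shiftRight (V (nat_lit 27)) (S (nat_lit 21))) (nat_lit 65535))) (Nat.shiftLeft (nat_lit 1) (Nat.land (Nat.shiftRight (V (nat_lit 27)) (S (nat_lit 22)))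 (nat_lit 65535)))) (Nat.add (Nat.shiftLeft (nat_lit 1) (Nat.land (Nat.shiftRight (V (nat_lit 27)) (S (nat_lit 26))) (nat_lit 65535))) (Nat.shiftLeft (nat_lit 1) (Nat.land (Nat.shiftRight (V (nat_lit 27)) (S (nat_lit 37))) (nat_lit 65535))))) (Nat.add (Nat.add (Nat.shiftLeft (nat_lit 1) (Nat.land (Nat.shiftRight (V (nat_lit 29)) (S (nat_lit 18))) (nat_lit 65535))) (Nat.shiftLeft (nat_lit 1) (Nat.land (Nat.shiftRight (V (nat_lit 29)) (S (nat_lit 20))) (nat_lit 65535)))) (Nat.add (Nat.shiftLeft (nat_lit 1) (Nat.land (Nat.shiftRight (V (nat_lit 29)) (S (nat_lit 26))) (nat_lit 65535))) (Nat.add (Nat.shiftLeft (nat_lit 1) (Nat.land (Nat.shiftRight (V (nat_lit 29)) (S (nat_lit 50))) (nat_lit 65535))) (Nat.shiftLeft (nat_lit 1) (Nat.land (Nat.shiftRight (V (nat_lit 30)) (S (nat_lit 24))) (nat_lit 65535))))))) (Nat.add (Nat.add (Nat.add (Nat.shiftLeft (nat_lit 1) (Nat.land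 (Nat.shiftRight (V (nat_lit 30)) (S (nat_lit 37))) (nat_lit 65535))) (Nat.shiftLeft (nat_lit 1) (Nat.land (Nat.shiftRight (V (nat_lit 31)) (S (nat_lit 16))) (nat_lit 65535)))) (Nat.add (Nat.shiftLeft (nat_lit 1) (Nat.land (Nat.shiftRight (V (nat_lit 31)) (S (nat_lit 18))) (nat_lit 65535))) (Nat.shiftLeft (nat_lit 1) (Nat.land (Nat.shiftRight (V (nat_lit 33)) (S (nat_lit 15))) (nat_lit 65535))))) (Nat.add (Nat.add (Nat.shiftLeft (nat_lit 1) (Nat.land (Nat.shiftRight (V (nat_lit 33)) (S (nat_lit 22))) (nat_lit 65535))) (Nat.shiftLeft (nat_lit 1) (Nat.land (Nat.shiftRight (V (nat_lit 35)) (S (nat_lit 25))) (nat_lit 65535)))) (Nat.add (Nat.shiftLeft (nat_lit 1) (Nat.land (Nat.shiftRight (V (nat_lit 35)) (S (nat_lit 50))) (nat_lit 65535))) (Nat.add (Nat.shiftLeft (nat_lit 1) (Nat.land (Nat.shiftRight (V (nat_lit 36)) (S (nat_lit 5))) (nat_lit 65535))) (Nat.shiftLeft (nat_lit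 1) (Nat.land (Nat.shiftRight (V (nat_lit 36)) (S (nat_lit 42))) (nat_lit 65535)))))))) (Nat.add (Nat.add (Nat.add (Nat.add (Nat.shiftLeft (nat_lit 1) (Nat.land (Nat.shiftRight (V (nat_lit 36)) (S (nat_lit 52))) (nat_lit 65535))) (Nat.shiftLeft (nat_lit 1) (Nat.land (Nat.shiftRight (V (nat_lit 36)) (S (nat_lit 58))) (nat_lit 65535)))) (Nat.add (Nat.shiftLeft (nat_lit 1) (Nat.land (Nat.shiftRight (V (nat_lit 37)) (S (nat_lit 11))) (nat_lit 65535))) (Nat.shiftLeft (nat_lit 1) (Nat.land (Nat.shiftRight (V (nat_lit 37)) (S (nat_lit 27))) (nat_lit 65535))))) (Nat.add (Nat.add (Nat.shiftLeft (nat_lit 1) (Nat.land (Nat.shiftRight (V (nat_lit 37)) (S (nat_lit 30))) (nat_lit 65535))) (Nat.shiftLeft (nat_lit 1) (Nat.land (Nat.shiftRight (V (nat_lit 37)) (S (nat_lit 47))) (nat_lit 65535)))) (Nat.add (Nat.shiftLeft (nat_lit 1) (Nat.land (Nat.shiftRight (V (nat_lit 38)) (S (nat_lit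 5))) (nat_lit 65535))) (Nat.add (Nat.shiftLeft (nat_lit 1) (Nat.land (Nat.shiftRight (V (nat_lit 38)) (S (nat_lit 11))) (nat_lit 65535))) (Nat.shiftLeft (nat_lit 1) (Nat.land (Nat.shiftRight (V (nat_lit 38)) (S (nat_lit 39))) (nat_lit 65535))))))) (Nat.add (Nat.add (Nat.add (Nat.shiftLeft (nat_lit 1) (Nat.land (Nat.shiftRight (V (nat_lit 38)) (S (nat_lit 41))) (nat_lit 65535))) (Nat.shiftLeft (nat_lit 1) (Nat.land (Nat.shiftRight (V (nat_lit 39)) (S (nat_lit 21))) (nat_lit 65535)))) (Nat.add (Nat.shiftLeft (nat_lit 1) (Nat.land (Nat.shiftRight (V (nat_lit 39)) (S (nat_lit 23))) (nat_lit 65535))) (Nat.shiftLeft (nat_lit 1) (Nat.land (Nat.shiftRight (V (nat_lit 39)) (S (nat_lit 25))) (nat_lit 65535))))) (Nat.add (Nat.add (Nat.shiftLeft (nat_lit 1) (Nat.land (Nat.shiftRight (V (nat_lit 39)) (S (nat_lit 38))) (nat_lit 65535))) (Nat.shiftLeft (nat_lit 1) (Nat.land (Nat.shiftRight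 (V (nat_lit 41)) (S (nat_lit 15))) (nat_lit 65535)))) (Nat.add (Nat.shiftLeft (nat_lit 1) (Nat.land (Nat.shiftRight (V (nat_lit 41)) (S (nat_lit 17))) (nat_lit 65535))) (Nat.add (Nat.shiftLeft (nat_lit 1) (Nat.land (Nat.shiftRight (V (nat_lit 41)) (S (nat_lit 38))) (nat_lit 65535))) (Nat.shiftLeft (nat_lit 1) (Nat.land (Nat.shiftRight (V (nat_lit 41)) (S (nat_lit 49))) (nat_lit 65535))))))))) (Nat.add (Nat.add (Nat.add (Nat.add (Nat.add (Nat.shiftLeft (nat_lit 1) (Nat.land (Nat.shiftRight (V (nat_lit 42)) (S (nat_lit 25))) (nat_lit 65535))) (Nat.shiftLeft (nat_lit 1) (Nat.land (Nat.shiftRight (V (nat_lit 42)) (S (nat_lit 36))) (nat_lit 65535)))) (Nat.add (Nat.shiftLeft (nat_lit 1) (Nat.land (Nat.shiftRight (V (nat_lit 43)) (S (nat_lit 15))) (nat_lit 65535))) (Nat.shiftLeft (nat_lit 1) (Nat.land (Nat.shiftRight (V (nat_lit 43)) (S (nat_lit 19))) (nat_lit 65535)))))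 (Nat.add (Nat.add (Nat.shiftLeft (nat_lit 1) (Nat.land (Nat.shiftRight (V (nat_lit 45)) (S (nat_lit 18))) (nat_lit 65535))) (Nat.shiftLeft (nat_lit 1) (Nat.land (Nat.shiftRight (V (nat_lit 45)) (S (nat_lit 23))) (nat_lit 65535)))) (Nat.add (Nat.shiftLeft (nat_lit 1) (Nat.land (Nat.shiftRight (V (nat_lit 47)) (S (nat_lit 37))) (nat_lit 65535))) (Nat.add (Nat.shiftLeft (nat_lit 1) (Nat.land (Nat.shiftRight (V (nat_lit 47)) (S (nat_lit 49))) (nat_lit 65535))) (Nat.shiftLeft (nat_lit 1) (Nat.land (Nat.shiftRight (V (nat_lit 48)) (S (nat_lit 3))) (nat_lit 65535))))))) (Nat.add (Nat.add (Nat.add (Nat.shiftLeft (nat_lit 1) (Nat.land (Nat.shiftRight (V (nat_lit 48)) (S (nat_lit 6))) (nat_lit 65535))) (Nat.shiftLeft (nat_lit 1) (Nat.land (Nat.shiftRight (V (nat_lit 48)) (S (nat_lit 52))) (nat_lit 65535)))) (Nat.add (Nat.shiftLeft (nat_lit 1) (Nat.land (Nat.shiftRight (V (nat_lit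 48)) (S (nat_lit 53))) (nat_lit 65535))) (Nat.shiftLeft (nat_lit 1) (Nat.land (Nat.shiftRight (V (nat_lit 49)) (S (nat_lit 3))) (nat_lit 65535))))) (Nat.add (Nat.add (Nat.shiftLeft (nat_lit 1) (Nat.land (Nat.shiftRight (V (nat_lit 49)) (S (nat_lit 41))) (nat_lit 65535))) (Nat.shiftLeft (nat_lit 1) (Nat.land (Nat.shiftRight (V (nat_lit 49)) (S (nat_lit 47))) (nat_lit 65535)))) (Nat.add (Nat.shiftLeft (nat_lit 1) (Nat.land (Nat.shiftRight (V (nat_lit 49)) (S (nat_lit 55))) (nat_lit 65535))) (Nat.add (Nat.shiftLeft (nat_lit 1) (Nat.land (Nat.shiftRight (V (nat_lit 50)) (S (nat_lit 6))) (nat_lit 65535))) (Nat.shiftLeft (nat_lit 1) (Nat.land (Nat.shiftRight (V (nat_lit 50)) (S (nat_lit 29))) (nat_lit 65535)))))))) (Nat.add (Nat.add (Nat.add (Nat.add (Nat.shiftLeft (nat_lit 1) (Nat.land (Nat.shiftRight (V (nat_lit 50)) (S (nat_lit 35))) (nat_lit 65535))) (Nat.shiftLeft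 (nat_lit 1) (Nat.land (Nat.shiftRight (V (nat_lit 50)) (S (nat_lit 58))) (nat_lit 65535)))) (Nat.add (Nat.shiftLeft (nat_lit 1) (Nat.land (Nat.shiftRight (V (nat_lit 52)) (S (nat_lit 16))) (nat_lit 65535))) (Nat.shiftLeft (nat_lit 1) (Nat.land (Nat.shiftRight (V (nat_lit 52)) (S (nat_lit 17))) (nat_lit 65535))))) (Nat.add (Nat.add (Nat.shiftLeft (nat_lit 1) (Nat.land (Nat.shiftRight (V (nat_lit 52)) (S (nat_lit 36))) (nat_lit 65535))) (Nat.shiftLeft (nat_lit 1) (Nat.land (Nat.shiftRight (V (nat_lit 52)) (S (nat_lit 48))) (nat_lit 65535)))) (Nat.add (Nat.shiftLeft (nat_lit 1) (Nat.land (Nat.shiftRight (V (nat_lit 53)) (S (nat_lit 19))) (nat_lit 65535))) (Nat.add (Nat.shiftLeft (nat_lit 1) (Nat.land (Nat.shiftRight (V (nat_lit 53)) (S (nat_lit 20))) (nat_lit 65535))) (Nat.shiftLeft (nat_lit 1) (Nat.land (Nat.shiftRight (V (nat_lit 53)) (S (nat_lit 24))) (nat_lit 65535)))))))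 (Nat.add (Nat.add (Nat.add (Nat.shiftLeft (nat_lit 1) (Nat.land (Nat.shiftRight (V (nat_lit 53)) (S (nat_lit 48))) (nat_lit 65535))) (Nat.shiftLeft (nat_lit 1) (Nat.land (Nat.shiftRight (V (nat_lit 55)) (S (nat_lit 24))) (nat_lit 65535)))) (Nat.add (Nat.shiftLeft (nat_lit 1) (Nat.land (Nat.shiftRight (V (nat_lit 55)) (S (nat_lit 49))) (nat_lit 65535))) (Nat.shiftLeft (nat_lit 1) (Nat.land (Nat.shiftRight (V (nat_lit 56)) (S (nat_lit 16))) (nat_lit 65535))))) (Nat.add (Nat.add (Nat.shiftLeft (nat_lit 1) (Nat.land (Nat.shiftRight (V (nat_lit 56)) (S (nat_lit 23))) (nat_lit 65535))) (Nat.shiftLeft (nat_lit 1) (Nat.land (Nat.shiftRight (V (nat_lit 58)) (S (nat_lit 36))) (nat_lit 65535)))) (Nat.add (Nat.shiftLeft (nat_lit 1) (Nat.land (Nat.shiftRight (V (nat_lit 58)) (S (nat_lit 50))) (nat_lit 65535))) (Nat.add (Nat.shiftLeft (nat_lit 1) (Nat.land (Nat.shiftRight (V (nat_lit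 59)) (S (nat_lit 19))) (nat_lit 65535))) (Nat.shiftLeft (nat_lit 1) (Nat.land (Nat.shiftRight (V (nat_lit 59)) (S (nat_lit 22))) (nat_lit 65535))))))))))
def E82_2 (V S : ℕ → ℕ) : ℕ := Nat.add (Nat.add (Nat.add (Nat.add (Nat.add (Nat.add (Nat.shiftLeft (nat_lit 1) (Nat.land (Nat.shiftRight (V (nat_lit 3)) (S (nat_lit 18))) (nat_lit 65535))) (Nat.shiftLeft (nat_lit 1) (Nat.land (Nat.shiftRight (V (nat_lit 3)) (S (nat_lit 25))) (nat_lit 65535)))) (Nat.add (Nat.shiftLeft (nat_lit 1) (Nat.land (Nat.shiftRight (V (nat_lit 3)) (S (nat_lit 41))) (nat_lit 65535))) (Nat.shiftLeft (nat_lit 1) (Nat.land (Nat.shiftRight (V (nat_lit 3)) (S (nat_lit 53))) (nat_lit 65535))))) (Nat.add (Nat.add (Nat.shiftLeft (nat_lit 1) (Nat.land (Nat.shiftRight (V (nat_lit 5)) (S (nat_lit 22))) (nat_lit 65535))) (Nat.shiftLeft (nat_lit 1) (Nat.land (Nat.shiftRight (V (nat_lit 5)) (S (nat_lit 24)))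 (nat_lit 65535)))) (Nat.add (Nat.shiftLeft (nat_lit 1) (Nat.land (Nat.shiftRight (V (nat_lit 5)) (S (nat_lit 39))) (nat_lit 65535))) (Nat.add (Nat.shiftLeft (nat_lit 1) (Nat.land (Nat.shiftRight (V (nat_lit 5)) (S (nat_lit 52))) (nat_lit 65535))) (Nat.shiftLeft (nat_lit 1) (Nat.land (Nat.shiftRight (V (nat_lit 6)) (S (nat_lit 15))) (nat_lit 65535))))))) (Nat.add (Nat.add (Nat.add (Nat.shiftLeft (nat_lit 1) (Nat.land (Nat.shiftRight (V (nat_lit 6)) (S (nat_lit 29))) (nat_lit 65535))) (Nat.shiftLeft (nat_lit 1) (Nat.land (Nat.shiftRight (V (nat_lit 6)) (S (nat_lit 37))) (nat_lit 65535)))) (Nat.add (Nat.shiftLeft (nat_lit 1) (Nat.land (Nat.shiftRight (V (nat_lit 6)) (S (nat_lit 52))) (nat_lit 65535))) (Nat.shiftLeft (nat_lit 1) (Nat.land (Nat.shiftRight (V (nat_lit 8)) (S (nat_lit 23))) (nat_lit 65535))))) (Nat.add (Nat.add (Nat.shiftLeft (nat_lit 1) (Nat.land (Nat.shiftRight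 (V (nat_lit 8)) (S (nat_lit 27))) (nat_lit 65535))) (Nat.shiftLeft (nat_lit 1) (Nat.land (Nat.shiftRight (V (nat_lit 8)) (S (nat_lit 36))) (nat_lit 65535)))) (Nat.add (Nat.shiftLeft (nat_lit 1) (Nat.land (Nat.shiftRight (V (nat_lit 8)) (S (nat_lit 53))) (nat_lit 65535))) (Nat.add (Nat.shiftLeft (nat_lit 1) (Nat.land (Nat.shiftRight (V (nat_lit 10)) (S (nat_lit 19))) (nat_lit 65535))) (Nat.shiftLeft (nat_lit 1) (Nat.land (Nat.shiftRight (V (nat_lit 10)) (S (nat_lit 29))) (nat_lit 65535)))))))) (Nat.add (Nat.add (Nat.add (Nat.add (Nat.shiftLeft (nat_lit 1) (Nat.land (Nat.shiftRight (V (nat_lit 10)) (S (nat_lit 39))) (nat_lit 65535))) (Nat.shiftLeft (nat_lit 1) (Nat.land (Nat.shiftRight (V (nat_lit 10)) (S (nat_lit 49))) (nat_lit 65535)))) (Nat.add (Nat.shiftLeft (nat_lit 1) (Nat.land (Nat.shiftRight (V (nat_lit 11)) (S (nat_lit 16))) (nat_lit 65535))) (Nat.shiftLeft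 (nat_lit 1) (Nat.land (Nat.shiftRight (V (nat_lit 11)) (S (nat_lit 27))) (nat_lit 65535))))) (Nat.add (Nat.add (Nat.shiftLeft (nat_lit 1) (Nat.land (Nat.shiftRight (V (nat_lit 11)) (S (nat_lit 41))) (nat_lit 65535))) (Nat.shiftLeft (nat_lit 1) (Nat.land (Nat.shiftRight (V (nat_lit 11)) (S (nat_lit 50))) (nat_lit 65535)))) (Nat.add (Nat.shiftLeft (nat_lit 1) (Nat.land (Nat.shiftRight (V (nat_lit 15)) (S (nat_lit 6))) (nat_lit 65535))) (Nat.add (Nat.shiftLeft (nat_lit 1) (Nat.land (Nat.shiftRight (V (nat_lit 15)) (S (nat_lit 29))) (nat_lit 65535))) (Nat.shiftLeft (nat_lit 1) (Nat.land (Nat.shiftRight (V (nat_lit 16)) (S (nat_lit 11))) (nat_lit 65535))))))) (Nat.add (Nat.add (Nat.add (Nat.shiftLeft (nat_lit 1) (Nat.land (Nat.shiftRight (V (nat_lit 16)) (S (nat_lit 27))) (nat_lit 65535))) (Nat.shiftLeft (nat_lit 1) (Nat.land (Nat.shiftRight (V (nat_lit 18)) (S (nat_lit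 3))) (nat_lit 65535)))) (Nat.add (Nat.shiftLeft (nat_lit 1) (Nat.land (Nat.shiftRight (V (nat_lit 18)) (S (nat_lit 41))) (nat_lit 65535))) (Nat.shiftLeft (nat_lit 1) (Nat.land (Nat.shiftRight (V (nat_lit 19)) (S (nat_lit 10))) (nat_lit 65535))))) (Nat.add (Nat.add (Nat.shiftLeft (nat_lit 1) (Nat.land (Nat.shiftRight (V (nat_lit 19)) (S (nat_lit 39))) (nat_lit 65535))) (Nat.shiftLeft (nat_lit 1) (Nat.land (Nat.shiftRight (V (nat_lit 22)) (S (nat_lit 5))) (nat_lit 65535)))) (Nat.add (Nat.shiftLeft (nat_lit 1) (Nat.land (Nat.shiftRight (V (nat_lit 22)) (S (nat_lit 52))) (nat_lit 65535))) (Nat.add (Nat.shiftLeft (nat_lit 1) (Nat.land (Nat.shiftRight (V (nat_lit 23)) (S (nat_lit 8))) (nat_lit 65535))) (Nat.shiftLeft (nat_lit 1) (Nat.land (Nat.shiftRight (V (nat_lit 23)) (S (nat_lit 53))) (nat_lit 65535))))))))) (Nat.add (Nat.add (Nat.add (Nat.add (Nat.add (Nat.shiftLeft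 (nat_lit 1) (Nat.land (Nat.shiftRight (V (nat_lit 24)) (S (nat_lit 5))) (nat_lit 65535))) (Nat.shiftLeft (nat_lit 1) (Nat.land (Nat.shiftRight (V (nat_lit 24)) (S (nat_lit 39))) (nat_lit 65535)))) (Nat.add (Nat.shiftLeft (nat_lit 1) (Nat.land (Nat.shiftRight (V (nat_lit 25)) (S (nat_lit 3))) (nat_lit 65535))) (Nat.shiftLeft (nat_lit 1) (Nat.land (Nat.shiftRight (V (nat_lit 25)) (S (nat_lit 53))) (nat_lit 65535))))) (Nat.add (Nat.add (Nat.shiftLeft (nat_lit 1) (Nat.land (Nat.shiftRight (V (nat_lit 27)) (S (nat_lit 8))) (nat_lit 65535))) (Nat.shiftLeft (nat_lit 1) (Nat.land (Nat.shiftRight (V (nat_lit 27)) (S (nat_lit 11))) (nat_lit 65535)))) (Nat.add (Nat.shiftLeft (nat_lit 1) (Nat.land (Nat.shiftRight (V (nat_lit 27)) (S (nat_lit 16))) (nat_lit 65535))) (Nat.add (Nat.shiftLeft (nat_lit 1) (Nat.land (Nat.shiftRight (V (nat_lit 27)) (S (nat_lit 36))) (nat_lit 65535)))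 (Nat.shiftLeft (nat_lit 1) (Nat.land (Nat.shiftRight (V (nat_lit 29)) (S (nat_lit 6))) (nat_lit 65535))))))) (Nat.add (Nat.add (Nat.add (Nat.shiftLeft (nat_lit 1) (Nat.land (Nat.shiftRight (V (nat_lit 29)) (S (nat_lit 10))) (nat_lit 65535))) (Nat.shiftLeft (nat_lit 1) (Nat.land (Nat.shiftRight (V (nat_lit 29)) (S (nat_lit 15))) (nat_lit 65535)))) (Nat.add (Nat.shiftLeft (nat_lit 1) (Nat.land (Nat.shiftRight (V (nat_lit 29)) (S (nat_lit 49))) (nat_lit 65535))) (Nat.shiftLeft (nat_lit 1) (Nat.land (Nat.shiftRight (V (nat_lit 36)) (S (nat_lit 8))) (nat_lit 65535))))) (Nat.add (Nat.add (Nat.shiftLeft (nat_lit 1) (Nat.land (Nat.shiftRight (V (nat_lit 36)) (S (nat_lit 27))) (nat_lit 65535))) (Nat.shiftLeft (nat_lit 1) (Nat.land (Nat.shiftRight (V (nat_lit 37)) (S (nat_lit 6))) (nat_lit 65535)))) (Nat.add (Nat.shiftLeft (nat_lit 1) (Nat.land (Nat.shiftRight (V (nat_lit 37))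 (S (nat_lit 52))) (nat_lit 65535))) (Nat.add (Nat.shiftLeft (nat_lit 1) (Nat.land (Nat.shiftRight (V (nat_lit 39)) (S (nat_lit 5))) (nat_lit 65535))) (Nat.shiftLeft (nat_lit 1) (Nat.land (Nat.shiftRight (V (nat_lit 39)) (S (nat_lit 10))) (nat_lit 65535)))))))) (Nat.add (Nat.add (Nat.add (Nat.add (Nat.shiftLeft (nat_lit 1) (Nat.land (Nat.shiftRight (V (nat_lit 39)) (S (nat_lit 19))) (nat_lit 65535))) (Nat.shiftLeft (nat_lit 1) (Nat.land (Nat.shiftRight (V (nat_lit 39)) (S (nat_lit 24))) (nat_lit 65535)))) (Nat.add (Nat.shiftLeft (nat_lit 1) (Nat.land (Nat.shiftRight (V (nat_lit 41)) (S (nat_lit 3))) (nat_lit 65535))) (Nat.shiftLeft (nat_lit 1) (Nat.land (Nat.shiftRight (V (nat_lit 41)) (S (nat_lit 11))) (nat_lit 65535))))) (Nat.add (Nat.add (Nat.shiftLeft (nat_lit 1) (Nat.land (Nat.shiftRight (V (nat_lit 41)) (S (nat_lit 18))) (nat_lit 65535))) (Nat.shiftLeft (nat_lit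 1) (Nat.land (Nat.shiftRight (V (nat_lit 41)) (S (nat_lit 50))) (nat_lit 65535)))) (Nat.add (Nat.shiftLeft (nat_lit 1) (Nat.land (Nat.shiftRight (V (nat_lit 49)) (S (nat_lit 10))) (nat_lit 65535))) (Nat.add (Nat.shiftLeft (nat_lit 1) (Nat.land (Nat.shiftRight (V (nat_lit 49)) (S (nat_lit 29))) (nat_lit 65535))) (Nat.shiftLeft (nat_lit 1) (Nat.land (Nat.shiftRight (V (nat_lit 50)) (S (nat_lit 11))) (nat_lit 65535))))))) (Nat.add (Nat.add (Nat.add (Nat.shiftLeft (nat_lit 1) (Nat.land (Nat.shiftRight (V (nat_lit 50)) (S (nat_lit 41))) (nat_lit 65535))) (Nat.shiftLeft (nat_lit 1) (Nat.land (Nat.shiftRight (V (nat_lit 52)) (S (nat_lit 5))) (nat_lit 65535)))) (Nat.add (Nat.shiftLeft (nat_lit 1) (Nat.land (Nat.shiftRight (V (nat_lit 52)) (S (nat_lit 6))) (nat_lit 65535))) (Nat.shiftLeft (nat_lit 1) (Nat.land (Nat.shiftRight (V (nat_lit 52)) (S (nat_lit 22))) (nat_lit 65535)))))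 (Nat.add (Nat.add (Nat.shiftLeft (nat_lit 1) (Nat.land (Nat.shiftRight (V (nat_lit 52)) (S (nat_lit 37))) (nat_lit 65535))) (Nat.shiftLeft (nat_lit 1) (Nat.land (Nat.shiftRight (V (nat_lit 53)) (S (nat_lit 3))) (nat_lit 65535)))) (Nat.add (Nat.shiftLeft (nat_lit 1) (Nat.land (Nat.shiftRight (V (nat_lit 53)) (S (nat_lit 8))) (nat_lit 65535))) (Nat.add (Nat.shiftLeft (nat_lit 1) (Nat.land (Nat.shiftRight (V (nat_lit 53)) (S (nat_lit 23))) (nat_lit 65535))) (Nat.shiftLeft (nat_lit 1) (Nat.land (Nat.shiftRight (V (nat_lit 53)) (S (nat_lit 25))) (nat_lit 65535)))))))))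
def E83_2 (V S : ℕ → ℕ) : ℕ := Nat.add (Nat.add (Nat.add (Nat.add (Nat.add (Nat.add (Nat.shiftLeft (nat_lit 1) (Nat.land (Nat.shiftRight (V (nat_lit 3)) (S (nat_lit 20))) (nat_lit 65535))) (Nat.add (Nat.shiftLeft (nat_lit 1) (Nat.land (Nat.shiftRight (V (nat_lit 3)) (S (nat_lit 32))) (nat_lit 65535))) (Nat.shiftLeft (nat_lit 1) (Nat.land (Nat.shiftRight (V (nat_lit 3)) (S (nat_lit 38))) (nat_lit 65535))))) (Nat.add (Nat.shiftLeft (nat_lit 1) (Nat.land (Nat.shiftRight (V (nat_lit 3)) (S (nat_lit 57))) (nat_lit 65535))) (Nat.add (Nat.shiftLeft (nat_lit 1) (Nat.land (Nat.shiftRight (V (nat_lit 5)) (S (nat_lit 21))) (nat_lit 65535))) (Nat.shiftLeft (nat_lit 1) (Nat.land (Nat.shiftRight (V (nat_lit 5)) (S (nat_lit 34))) (nat_lit 65535)))))) (Nat.add (Nat.add (Nat.shiftLeft (nat_lit 1) (Nat.land (Nat.shiftRight (V (nat_lit 5)) (S (nat_lit 46))) (nat_lit 65535))) (Nat.add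 (Nat.shiftLeft (nat_lit 1) (Nat.land (Nat.shiftRight (V (nat_lit 5)) (S (nat_lit 48))) (nat_lit 65535))) (Nat.shiftLeft (nat_lit 1) (Nat.land (Nat.shiftRight (V (nat_lit 6)) (S (nat_lit 17))) (nat_lit 65535))))) (Nat.add (Nat.shiftLeft (nat_lit 1) (Nat.land (Nat.shiftRight (V (nat_lit 6)) (S (nat_lit 26))) (nat_lit 65535))) (Nat.add (Nat.shiftLeft (nat_lit 1) (Nat.land (Nat.shiftRight (V (nat_lit 6)) (S (nat_lit 44))) (nat_lit 65535))) (Nat.shiftLeft (nat_lit 1) (Nat.land (Nat.shiftRight (V (nat_lit 6)) (S (nat_lit 54))) (nat_lit 65535))))))) (Nat.add (Nat.add (Nat.add (Nat.shiftLeft (nat_lit 1) (Nat.land (Nat.shiftRight (V (nat_lit 8)) (S (nat_lit 21))) (nat_lit 65535))) (Nat.add (Nat.shiftLeft (nat_lit 1) (Nat.land (Nat.shiftRight (V (nat_lit 8)) (S (nat_lit 34))) (nat_lit 65535))) (Nat.shiftLeft (nat_lit 1) (Nat.land (Nat.shiftRight (V (nat_lit 8)) (S (nat_lit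 46))) (nat_lit 65535))))) (Nat.add (Nat.shiftLeft (nat_lit 1) (Nat.land (Nat.shiftRight (V (nat_lit 8)) (S (nat_lit 48))) (nat_lit 65535))) (Nat.add (Nat.shiftLeft (nat_lit 1) (Nat.land (Nat.shiftRight (V (nat_lit 10)) (S (nat_lit 20))) (nat_lit 65535))) (Nat.shiftLeft (nat_lit 1) (Nat.land (Nat.shiftRight (V (nat_lit 10)) (S (nat_lit 32))) (nat_lit 65535)))))) (Nat.add (Nat.add (Nat.shiftLeft (nat_lit 1) (Nat.land (Nat.shiftRight (V (nat_lit 10)) (S (nat_lit 38))) (nat_lit 65535))) (Nat.add (Nat.shiftLeft (nat_lit 1) (Nat.land (Nat.shiftRight (V (nat_lit 10)) (S (nat_lit 57))) (nat_lit 65535))) (Nat.shiftLeft (nat_lit 1) (Nat.land (Nat.shiftRight (V (nat_lit 11)) (S (nat_lit 17))) (nat_lit 65535))))) (Nat.add (Nat.shiftLeft (nat_lit 1) (Nat.land (Nat.shiftRight (V (nat_lit 11)) (S (nat_lit 26))) (nat_lit 65535))) (Nat.add (Nat.shiftLeft (nat_lit 1) (Nat.land (Nat.shiftRight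 (V (nat_lit 11)) (S (nat_lit 44))) (nat_lit 65535))) (Nat.shiftLeft (nat_lit 1) (Nat.land (Nat.shiftRight (V (nat_lit 11)) (S (nat_lit 54))) (nat_lit 65535)))))))) (Nat.add (Nat.add (Nat.add (Nat.add (Nat.shiftLeft (nat_lit 1) (Nat.land (Nat.shiftRight (V (nat_lit 17)) (S (nat_lit 6))) (nat_lit 65535))) (Nat.add (Nat.shiftLeft (nat_lit 1) (Nat.land (Nat.shiftRight (V (nat_lit 17)) (S (nat_lit 11))) (nat_lit 65535))) (Nat.shiftLeft (nat_lit 1) (Nat.land (Nat.shiftRight (V (nat_lit 17)) (S (nat_lit 39))) (nat_lit 65535))))) (Nat.add (Nat.shiftLeft (nat_lit 1) (Nat.land (Nat.shiftRight (V (nat_lit 17)) (S (nat_lit 53))) (nat_lit 65535))) (Nat.add (Nat.shiftLeft (nat_lit 1) (Nat.land (Nat.shiftRight (V (nat_lit 20)) (S (nat_lit 3))) (nat_lit 65535))) (Nat.shiftLeft (nat_lit 1) (Nat.land (Nat.shiftRight (V (nat_lit 20)) (S (nat_lit 10))) (nat_lit 65535)))))) (Nat.add (Nat.add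 (Nat.shiftLeft (nat_lit 1) (Nat.land (Nat.shiftRight (V (nat_lit 20)) (S (nat_lit 27))) (nat_lit 65535))) (Nat.add (Nat.shiftLeft (nat_lit 1) (Nat.land (Nat.shiftRight (V (nat_lit 20)) (S (nat_lit 52))) (nat_lit 65535))) (Nat.shiftLeft (nat_lit 1) (Nat.land (Nat.shiftRight (V (nat_lit 21)) (S (nat_lit 5))) (nat_lit 65535))))) (Nat.add (Nat.shiftLeft (nat_lit 1) (Nat.land (Nat.shiftRight (V (nat_lit 21)) (S (nat_lit 8))) (nat_lit 65535))) (Nat.add (Nat.shiftLeft (nat_lit 1) (Nat.land (Nat.shiftRight (V (nat_lit 21)) (S (nat_lit 29))) (nat_lit 65535))) (Nat.shiftLeft (nat_lit 1) (Nat.land (Nat.shiftRight (V (nat_lit 21)) (S (nat_lit 41))) (nat_lit 65535))))))) (Nat.add (Nat.add (Nat.add (Nat.shiftLeft (nat_lit 1) (Nat.land (Nat.shiftRight (V (nat_lit 26)) (S (nat_lit 6))) (nat_lit 65535))) (Nat.add (Nat.shiftLeft (nat_lit 1) (Nat.land (Nat.shiftRight (V (nat_lit 26))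 (S (nat_lit 11))) (nat_lit 65535))) (Nat.shiftLeft (nat_lit 1) (Nat.land (Nat.shiftRight (V (nat_lit 26)) (S (nat_lit 39))) (nat_lit 65535))))) (Nat.add (Nat.shiftLeft (nat_lit 1) (Nat.land (Nat.shiftRight (V (nat_lit 26)) (S (nat_lit 53))) (nat_lit 65535))) (Nat.add (Nat.shiftLeft (nat_lit 1) (Nat.land (Nat.shiftRight (V (nat_lit 27)) (S (nat_lit 20))) (nat_lit 65535))) (Nat.shiftLeft (nat_lit 1) (Nat.land (Nat.shiftRight (V (nat_lit 27)) (S (nat_lit 38))) (nat_lit 65535)))))) (Nat.add (Nat.add (Nat.shiftLeft (nat_lit 1) (Nat.land (Nat.shiftRight (V (nat_lit 27)) (S (nat_lit 44))) (nat_lit 65535))) (Nat.add (Nat.shiftLeft (nat_lit 1) (Nat.land (Nat.shiftRight (V (nat_lit 27)) (S (nat_lit 46))) (nat_lit 65535))) (Nat.shiftLeft (nat_lit 1) (Nat.land (Nat.shiftRight (V (nat_lit 29)) (S (nat_lit 21))) (nat_lit 65535))))) (Nat.add (Nat.shiftLeft (nat_lit 1) (Nat.land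 (Nat.shiftRight (V (nat_lit 29)) (S (nat_lit 48))) (nat_lit 65535))) (Nat.add (Nat.shiftLeft (nat_lit 1) (Nat.land (Nat.shiftRight (V (nat_lit 29)) (S (nat_lit 54))) (nat_lit 65535))) (Nat.shiftLeft (nat_lit 1) (Nat.land (Nat.shiftRight (V (nat_lit 29)) (S (nat_lit 57))) (nat_lit 65535))))))))) (Nat.add (Nat.add (Nat.add (Nat.add (Nat.add (Nat.shiftLeft (nat_lit 1) (Nat.land (Nat.shiftRight (V (nat_lit 32)) (S (nat_lit 3))) (nat_lit 65535))) (Nat.add (Nat.shiftLeft (nat_lit 1) (Nat.land (Nat.shiftRight (V (nat_lit 32)) (S (nat_lit 10))) (nat_lit 65535))) (Nat.shiftLeft (nat_lit 1) (Nat.land (Nat.shiftRight (V (nat_lit 32)) (S (nat_lit 39))) (nat_lit 65535))))) (Nat.add (Nat.shiftLeft (nat_lit 1) (Nat.land (Nat.shiftRight (V (nat_lit 32)) (S (nat_lit 53))) (nat_lit 65535))) (Nat.add (Nat.shiftLeft (nat_lit 1) (Nat.land (Nat.shiftRight (V (nat_lit 34)) (S (nat_lit 5)))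 (nat_lit 65535))) (Nat.shiftLeft (nat_lit 1) (Nat.land (Nat.shiftRight (V (nat_lit 34)) (S (nat_lit 8))) (nat_lit 65535)))))) (Nat.add (Nat.add (Nat.shiftLeft (nat_lit 1) (Nat.land (Nat.shiftRight (V (nat_lit 34)) (S (nat_lit 39))) (nat_lit 65535))) (Nat.add (Nat.shiftLeft (nat_lit 1) (Nat.land (Nat.shiftRight (V (nat_lit 34)) (S (nat_lit 53))) (nat_lit 65535))) (Nat.shiftLeft (nat_lit 1) (Nat.land (Nat.shiftRight (V (nat_lit 38)) (S (nat_lit 3))) (nat_lit 65535))))) (Nat.add (Nat.shiftLeft (nat_lit 1) (Nat.land (Nat.shiftRight (V (nat_lit 38)) (S (nat_lit 10))) (nat_lit 65535))) (Nat.add (Nat.shiftLeft (nat_lit 1) (Nat.land (Nat.shiftRight (V (nat_lit 38)) (S (nat_lit 27))) (nat_lit 65535))) (Nat.shiftLeft (nat_lit 1) (Nat.land (Nat.shiftRight (V (nat_lit 38)) (S (nat_lit 52))) (nat_lit 65535))))))) (Nat.add (Nat.add (Nat.add (Nat.shiftLeft (nat_lit 1) (Nat.land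 (Nat.shiftRight (V (nat_lit 39)) (S (nat_lit 17))) (nat_lit 65535))) (Nat.add (Nat.shiftLeft (nat_lit 1) (Nat.land (Nat.shiftRight (V (nat_lit 39)) (S (nat_lit 26))) (nat_lit 65535))) (Nat.shiftLeft (nat_lit 1) (Nat.land (Nat.shiftRight (V (nat_lit 39)) (S (nat_lit 32))) (nat_lit 65535))))) (Nat.add (Nat.shiftLeft (nat_lit 1) (Nat.land (Nat.shiftRight (V (nat_lit 39)) (S (nat_lit 34))) (nat_lit 65535))) (Nat.add (Nat.shiftLeft (nat_lit 1) (Nat.land (Nat.shiftRight (V (nat_lit 41)) (S (nat_lit 21))) (nat_lit 65535))) (Nat.shiftLeft (nat_lit 1) (Nat.land (Nat.shiftRight (V (nat_lit 41)) (S (nat_lit 48))) (nat_lit 65535)))))) (Nat.add (Nat.add (Nat.shiftLeft (nat_lit 1) (Nat.land (Nat.shiftRight (V (nat_lit 41)) (S (nat_lit 54))) (nat_lit 65535))) (Nat.add (Nat.shiftLeft (nat_lit 1) (Nat.land (Nat.shiftRight (V (nat_lit 41)) (S (nat_lit 57))) (nat_lit 65535))) (Nat.shiftLeft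 (nat_lit 1) (Nat.land (Nat.shiftRight (V (nat_lit 44)) (S (nat_lit 6))) (nat_lit 65535))))) (Nat.add (Nat.shiftLeft (nat_lit 1) (Nat.land (Nat.shiftRight (V (nat_lit 44)) (S (nat_lit 11))) (nat_lit 65535))) (Nat.add (Nat.shiftLeft (nat_lit 1) (Nat.land (Nat.shiftRight (V (nat_lit 44)) (S (nat_lit 27))) (nat_lit 65535))) (Nat.shiftLeft (nat_lit 1) (Nat.land (Nat.shiftRight (V (nat_lit 44)) (S (nat_lit 52))) (nat_lit 65535)))))))) (Nat.add (Nat.add (Nat.add (Nat.add (Nat.shiftLeft (nat_lit 1) (Nat.land (Nat.shiftRight (V (nat_lit 46)) (S (nat_lit 5))) (nat_lit 65535))) (Nat.add (Nat.shiftLeft (nat_lit 1) (Nat.land (Nat.shiftRight (V (nat_lit 46)) (S (nat_lit 8))) (nat_lit 65535))) (Nat.shiftLeft (nat_lit 1) (Nat.land (Nat.shiftRight (V (nat_lit 46)) (S (nat_lit 27))) (nat_lit 65535))))) (Nat.add (Nat.shiftLeft (nat_lit 1) (Nat.land (Nat.shiftRight (V (nat_lit 46)) (S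 (nat_lit 52))) (nat_lit 65535))) (Nat.add (Nat.shiftLeft (nat_lit 1) (Nat.land (Nat.shiftRight (V (nat_lit 48)) (S (nat_lit 5))) (nat_lit 65535))) (Nat.shiftLeft (nat_lit 1) (Nat.land (Nat.shiftRight (V (nat_lit 48)) (S (nat_lit 8))) (nat_lit 65535)))))) (Nat.add (Nat.add (Nat.shiftLeft (nat_lit 1) (Nat.land (Nat.shiftRight (V (nat_lit 48)) (S (nat_lit 29))) (nat_lit 65535))) (Nat.add (Nat.shiftLeft (nat_lit 1) (Nat.land (Nat.shiftRight (V (nat_lit 48)) (S (nat_lit 41))) (nat_lit 65535))) (Nat.shiftLeft (nat_lit 1) (Nat.land (Nat.shiftRight (V (nat_lit 52)) (S (nat_lit 20))) (nat_lit 65535))))) (Nat.add (Nat.shiftLeft (nat_lit 1) (Nat.land (Nat.shiftRight (V (nat_lit 52)) (S (nat_lit 38))) (nat_lit 65535))) (Nat.add (Nat.shiftLeft (nat_lit 1) (Nat.land (Nat.shiftRight (V (nat_lit 52)) (S (nat_lit 44))) (nat_lit 65535))) (Nat.shiftLeft (nat_lit 1) (Nat.land (Nat.shiftRight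 (V (nat_lit 52)) (S (nat_lit 46))) (nat_lit 65535))))))) (Nat.add (Nat.add (Nat.add (Nat.shiftLeft (nat_lit 1) (Nat.land (Nat.shiftRight (V (nat_lit 53)) (S (nat_lit 17))) (nat_lit 65535))) (Nat.add (Nat.shiftLeft (nat_lit 1) (Nat.land (Nat.shiftRight (V (nat_lit 53)) (S (nat_lit 26))) (nat_lit 65535))) (Nat.shiftLeft (nat_lit 1) (Nat.land (Nat.shiftRight (V (nat_lit 53)) (S (nat_lit 32))) (nat_lit 65535))))) (Nat.add (Nat.shiftLeft (nat_lit 1) (Nat.land (Nat.shiftRight (V (nat_lit 53)) (S (nat_lit 34))) (nat_lit 65535))) (Nat.add (Nat.shiftLeft (nat_lit 1) (Nat.land (Nat.shiftRight (V (nat_lit 54)) (S (nat_lit 6))) (nat_lit 65535))) (Nat.shiftLeft (nat_lit 1) (Nat.land (Nat.shiftRight (V (nat_lit 54)) (S (nat_lit 11))) (nat_lit 65535)))))) (Nat.add (Nat.add (Nat.shiftLeft (nat_lit 1) (Nat.land (Nat.shiftRight (V (nat_lit 54)) (S (nat_lit 29))) (nat_lit 65535))) (Nat.add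 (Nat.shiftLeft (nat_lit 1) (Nat.land (Nat.shiftRight (V (nat_lit 54)) (S (nat_lit 41))) (nat_lit 65535))) (Nat.shiftLeft (nat_lit 1) (Nat.land (Nat.shiftRight (V (nat_lit 57)) (S (nat_lit 3))) (nat_lit 65535))))) (Nat.add (Nat.shiftLeft (nat_lit 1) (Nat.land (Nat.shiftRight (V (nat_lit 57)) (S (nat_lit 10))) (nat_lit 65535))) (Nat.add (Nat.shiftLeft (nat_lit 1) (Nat.land (Nat.shiftRight (V (nat_lit 57)) (S (nat_lit 29))) (nat_lit 65535))) (Nat.shiftLeft (nat_lit 1) (Nat.land (Nat.shiftRight (V (nat_lit 57)) (S (nat_lit 41))) (nat_lit 65535)))))))))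
def E84_2 (V S : ℕ → ℕ) : ℕ := Nat.add (Nat.add (Nat.add (Nat.add (Nat.add (Nat.add (Nat.shiftLeft (nat_lit 1) (Nat.land (Nat.shiftRight (V (nat_lit 3)) (S (nat_lit 21))) (nat_lit 65535))) (Nat.add (Nat.shiftLeft (nat_lit 1) (Nat.land (Nat.shiftRight (V (nat_lit 3)) (S (nat_lit 26))) (nat_lit 65535))) (Nat.shiftLeft (nat_lit 1) (Nat.land (Nat.shiftRight (V (nat_lit 3)) (S (nat_lit 47))) (nat_lit 65535))))) (Nat.add (Nat.shiftLeft (nat_lit 1) (Nat.land (Nat.shiftRight (V (nat_lit 3)) (S (nat_lit 59))) (nat_lit 65535))) (Nat.add (Nat.shiftLeft (nat_lit 1) (Nat.land (Nat.shiftRight (V (nat_lit 5)) (S (nat_lit 20))) (nat_lit 65535))) (Nat.shiftLeft (nat_lit 1) (Nat.land (Nat.shiftRight (V (nat_lit 5)) (S (nat_lit 26))) (nat_lit 65535)))))) (Nat.add (Nat.add (Nat.shiftLeft (nat_lit 1) (Nat.land (Nat.shiftRight (V (nat_lit 5)) (S (nat_lit 45))) (nat_lit 65535))) (Nat.add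 (Nat.shiftLeft (nat_lit 1) (Nat.land (Nat.shiftRight (V (nat_lit 5)) (S (nat_lit 58))) (nat_lit 65535))) (Nat.shiftLeft (nat_lit 1) (Nat.land (Nat.shiftRight (V (nat_lit 6)) (S (nat_lit 21))) (nat_lit 65535))))) (Nat.add (Nat.shiftLeft (nat_lit 1) (Nat.land (Nat.shiftRight (V (nat_lit 6)) (S (nat_lit 35))) (nat_lit 65535))) (Nat.add (Nat.shiftLeft (nat_lit 1) (Nat.land (Nat.shiftRight (V (nat_lit 6)) (S (nat_lit 38))) (nat_lit 65535))) (Nat.shiftLeft (nat_lit 1) (Nat.land (Nat.shiftRight (V (nat_lit 6)) (S (nat_lit 56))) (nat_lit 65535))))))) (Nat.add (Nat.add (Nat.add (Nat.shiftLeft (nat_lit 1) (Nat.land (Nat.shiftRight (V (nat_lit 8)) (S (nat_lit 17))) (nat_lit 65535))) (Nat.add (Nat.shiftLeft (nat_lit 1) (Nat.land (Nat.shiftRight (V (nat_lit 8)) (S (nat_lit 33))) (nat_lit 65535))) (Nat.shiftLeft (nat_lit 1) (Nat.land (Nat.shiftRight (V (nat_lit 8)) (S (nat_lit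 38))) (nat_lit 65535))))) (Nat.add (Nat.shiftLeft (nat_lit 1) (Nat.land (Nat.shiftRight (V (nat_lit 8)) (S (nat_lit 55))) (nat_lit 65535))) (Nat.add (Nat.shiftLeft (nat_lit 1) (Nat.land (Nat.shiftRight (V (nat_lit 10)) (S (nat_lit 17))) (nat_lit 65535))) (Nat.shiftLeft (nat_lit 1) (Nat.land (Nat.shiftRight (V (nat_lit 10)) (S (nat_lit 31))) (nat_lit 65535)))))) (Nat.add (Nat.add (Nat.shiftLeft (nat_lit 1) (Nat.land (Nat.shiftRight (V (nat_lit 10)) (S (nat_lit 42))) (nat_lit 65535))) (Nat.add (Nat.shiftLeft (nat_lit 1) (Nat.land (Nat.shiftRight (V (nat_lit 10)) (S (nat_lit 48))) (nat_lit 65535))) (Nat.shiftLeft (nat_lit 1) (Nat.land (Nat.shiftRight (V (nat_lit 11)) (S (nat_lit 20))) (nat_lit 65535))))) (Nat.add (Nat.shiftLeft (nat_lit 1) (Nat.land (Nat.shiftRight (V (nat_lit 11)) (S (nat_lit 30))) (nat_lit 65535))) (Nat.add (Nat.shiftLeft (nat_lit 1) (Nat.land (Nat.shiftRight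 (V (nat_lit 11)) (S (nat_lit 43))) (nat_lit 65535))) (Nat.shiftLeft (nat_lit 1) (Nat.land (Nat.shiftRight (V (nat_lit 11)) (S (nat_lit 48))) (nat_lit 65535)))))))) (Nat.add (Nat.add (Nat.add (Nat.add (Nat.shiftLeft (nat_lit 1) (Nat.land (Nat.shiftRight (V (nat_lit 17)) (S (nat_lit 8))) (nat_lit 65535))) (Nat.add (Nat.shiftLeft (nat_lit 1) (Nat.land (Nat.shiftRight (V (nat_lit 17)) (S (nat_lit 10))) (nat_lit 65535))) (Nat.shiftLeft (nat_lit 1) (Nat.land (Nat.shiftRight (V (nat_lit 17)) (S (nat_lit 27))) (nat_lit 65535))))) (Nat.add (Nat.shiftLeft (nat_lit 1) (Nat.land (Nat.shiftRight (V (nat_lit 17)) (S (nat_lit 29))) (nat_lit 65535))) (Nat.add (Nat.shiftLeft (nat_lit 1) (Nat.land (Nat.shiftRight (V (nat_lit 20)) (S (nat_lit 5))) (nat_lit 65535))) (Nat.shiftLeft (nat_lit 1) (Nat.land (Nat.shiftRight (V (nat_lit 20)) (S (nat_lit 11))) (nat_lit 65535)))))) (Nat.add (Nat.add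 (Nat.shiftLeft (nat_lit 1) (Nat.land (Nat.shiftRight (V (nat_lit 20)) (S (nat_lit 39))) (nat_lit 65535))) (Nat.add (Nat.shiftLeft (nat_lit 1) (Nat.land (Nat.shiftRight (V (nat_lit 20)) (S (nat_lit 41))) (nat_lit 65535))) (Nat.shiftLeft (nat_lit 1) (Nat.land (Nat.shiftRight (V (nat_lit 21)) (S (nat_lit 3))) (nat_lit 65535))))) (Nat.add (Nat.shiftLeft (nat_lit 1) (Nat.land (Nat.shiftRight (V (nat_lit 21)) (S (nat_lit 6))) (nat_lit 65535))) (Nat.add (Nat.shiftLeft (nat_lit 1) (Nat.land (Nat.shiftRight (V (nat_lit 21)) (S (nat_lit 52))) (nat_lit 65535))) (Nat.shiftLeft (nat_lit 1) (Nat.land (Nat.shiftRight (V (nat_lit 21)) (S (nat_lit 53))) (nat_lit 65535))))))) (Nat.add (Nat.add (Nat.add (Nat.shiftLeft (nat_lit 1) (Nat.land (Nat.shiftRight (V (nat_lit 26)) (S (nat_lit 3))) (nat_lit 65535))) (Nat.add (Nat.shiftLeft (nat_lit 1) (Nat.land (Nat.shiftRight (V (nat_lit 26))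 (S (nat_lit 5))) (nat_lit 65535))) (Nat.shiftLeft (nat_lit 1) (Nat.land (Nat.shiftRight (V (nat_lit 26)) (S (nat_lit 41))) (nat_lit 65535))))) (Nat.add (Nat.shiftLeft (nat_lit 1) (Nat.land (Nat.shiftRight (V (nat_lit 26)) (S (nat_lit 52))) (nat_lit 65535))) (Nat.add (Nat.shiftLeft (nat_lit 1) (Nat.land (Nat.shiftRight (V (nat_lit 27)) (S (nat_lit 17))) (nat_lit 65535))) (Nat.shiftLeft (nat_lit 1) (Nat.land (Nat.shiftRight (V (nat_lit 27)) (S (nat_lit 47))) (nat_lit 65535)))))) (Nat.add (Nat.add (Nat.shiftLeft (nat_lit 1) (Nat.land (Nat.shiftRight (V (nat_lit 27)) (S (nat_lit 48))) (nat_lit 65535))) (Nat.add (Nat.shiftLeft (nat_lit 1) (Nat.land (Nat.shiftRight (V (nat_lit 27)) (S (nat_lit 59))) (nat_lit 65535))) (Nat.shiftLeft (nat_lit 1) (Nat.land (Nat.shiftRight (V (nat_lit 29)) (S (nat_lit 17))) (nat_lit 65535))))) (Nat.add (Nat.shiftLeft (nat_lit 1) (Nat.land (Nat.shiftRight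 (V (nat_lit 29)) (S (nat_lit 38))) (nat_lit 65535))) (Nat.add (Nat.shiftLeft (nat_lit 1) (Nat.land (Nat.shiftRight (V (nat_lit 29)) (S (nat_lit 45))) (nat_lit 65535))) (Nat.shiftLeft (nat_lit 1) (Nat.land (Nat.shiftRight (V (nat_lit 29)) (S (nat_lit 58))) (nat_lit 65535))))))))) (Nat.add (Nat.add (Nat.add (Nat.add (Nat.add (Nat.shiftLeft (nat_lit 1) (Nat.land (Nat.shiftRight (V (nat_lit 30)) (S (nat_lit 11))) (nat_lit 65535))) (Nat.add (Nat.shiftLeft (nat_lit 1) (Nat.land (Nat.shiftRight (V (nat_lit 30)) (S (nat_lit 53))) (nat_lit 65535))) (Nat.shiftLeft (nat_lit 1) (Nat.land (Nat.shiftRight (V (nat_lit 31)) (S (nat_lit 10))) (nat_lit 65535))))) (Nat.add (Nat.shiftLeft (nat_lit 1) (Nat.land (Nat.shiftRight (V (nat_lit 31)) (S (nat_lit 52))) (nat_lit 65535))) (Nat.add (Nat.shiftLeft (nat_lit 1) (Nat.land (Nat.shiftRight (V (nat_lit 33)) (S (nat_lit 8))) (nat_lit 65535)))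 (Nat.shiftLeft (nat_lit 1) (Nat.land (Nat.shiftRight (V (nat_lit 33)) (S (nat_lit 41))) (nat_lit 65535)))))) (Nat.add (Nat.add (Nat.shiftLeft (nat_lit 1) (Nat.land (Nat.shiftRight (V (nat_lit 35)) (S (nat_lit 6))) (nat_lit 65535))) (Nat.add (Nat.shiftLeft (nat_lit 1) (Nat.land (Nat.shiftRight (V (nat_lit 35)) (S (nat_lit 39))) (nat_lit 65535))) (Nat.shiftLeft (nat_lit 1) (Nat.land (Nat.shiftRight (V (nat_lit 38)) (S (nat_lit 6))) (nat_lit 65535))))) (Nat.add (Nat.shiftLeft (nat_lit 1) (Nat.land (Nat.shiftRight (V (nat_lit 38)) (S (nat_lit 8))) (nat_lit 65535))) (Nat.add (Nat.shiftLeft (nat_lit 1) (Nat.land (Nat.shiftRight (V (nat_lit 38)) (S (nat_lit 29))) (nat_lit 65535))) (Nat.shiftLeft (nat_lit 1) (Nat.land (Nat.shiftRight (V (nat_lit 38)) (S (nat_lit 53))) (nat_lit 65535))))))) (Nat.add (Nat.add (Nat.add (Nat.shiftLeft (nat_lit 1) (Nat.land (Nat.shiftRight (V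 (nat_lit 39)) (S (nat_lit 20))) (nat_lit 65535))) (Nat.add (Nat.shiftLeft (nat_lit 1) (Nat.land (Nat.shiftRight (V (nat_lit 39)) (S (nat_lit 35))) (nat_lit 65535))) (Nat.shiftLeft (nat_lit 1) (Nat.land (Nat.shiftRight (V (nat_lit 39)) (S (nat_lit 48))) (nat_lit 65535))))) (Nat.add (Nat.shiftLeft (nat_lit 1) (Nat.land (Nat.shiftRight (V (nat_lit 39)) (S (nat_lit 56))) (nat_lit 65535))) (Nat.add (Nat.shiftLeft (nat_lit 1) (Nat.land (Nat.shiftRight (V (nat_lit 41)) (S (nat_lit 20))) (nat_lit 65535))) (Nat.shiftLeft (nat_lit 1) (Nat.land (Nat.shiftRight (V (nat_lit 41)) (S (nat_lit 26))) (nat_lit 65535)))))) (Nat.add (Nat.add (Nat.shiftLeft (nat_lit 1) (Nat.land (Nat.shiftRight (V (nat_lit 41)) (S (nat_lit 33))) (nat_lit 65535))) (Nat.add (Nat.shiftLeft (nat_lit 1) (Nat.land (Nat.shiftRight (V (nat_lit 41)) (S (nat_lit 55))) (nat_lit 65535))) (Nat.shiftLeft (nat_lit 1)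 (Nat.land (Nat.shiftRight (V (nat_lit 42)) (S (nat_lit 10))) (nat_lit 65535))))) (Nat.add (Nat.shiftLeft (nat_lit 1) (Nat.land (Nat.shiftRight (V (nat_lit 42)) (S (nat_lit 52))) (nat_lit 65535))) (Nat.add (Nat.shiftLeft (nat_lit 1) (Nat.land (Nat.shiftRight (V (nat_lit 43)) (S (nat_lit 11))) (nat_lit 65535))) (Nat.shiftLeft (nat_lit 1) (Nat.land (Nat.shiftRight (V (nat_lit 43)) (S (nat_lit 53))) (nat_lit 65535)))))))) (Nat.add (Nat.add (Nat.add (Nat.add (Nat.shiftLeft (nat_lit 1) (Nat.land (Nat.shiftRight (V (nat_lit 45)) (S (nat_lit 5))) (nat_lit 65535))) (Nat.add (Nat.shiftLeft (nat_lit 1) (Nat.land (Nat.shiftRight (V (nat_lit 45)) (S (nat_lit 29))) (nat_lit 65535))) (Nat.shiftLeft (nat_lit 1) (Nat.land (Nat.shiftRight (V (nat_lit 47)) (S (nat_lit 3))) (nat_lit 65535))))) (Nat.add (Nat.shiftLeft (nat_lit 1) (Nat.land (Nat.shiftRight (V (nat_lit 47)) (S (nat_lit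 27))) (nat_lit 65535))) (Nat.add (Nat.shiftLeft (nat_lit 1) (Nat.land (Nat.shiftRight (V (nat_lit 48)) (S (nat_lit 10))) (nat_lit 65535))) (Nat.shiftLeft (nat_lit 1) (Nat.land (Nat.shiftRight (V (nat_lit 48)) (S (nat_lit 11))) (nat_lit 65535)))))) (Nat.add (Nat.add (Nat.shiftLeft (nat_lit 1) (Nat.land (Nat.shiftRight (V (nat_lit 48)) (S (nat_lit 27))) (nat_lit 65535))) (Nat.add (Nat.shiftLeft (nat_lit 1) (Nat.land (Nat.shiftRight (V (nat_lit 48)) (S (nat_lit 39))) (nat_lit 65535))) (Nat.shiftLeft (nat_lit 1) (Nat.land (Nat.shiftRight (V (nat_lit 52)) (S (nat_lit 21))) (nat_lit 65535))))) (Nat.add (Nat.shiftLeft (nat_lit 1) (Nat.land (Nat.shiftRight (V (nat_lit 52)) (S (nat_lit 26))) (nat_lit 65535))) (Nat.add (Nat.shiftLeft (nat_lit 1) (Nat.land (Nat.shiftRight (V (nat_lit 52)) (S (nat_lit 31))) (nat_lit 65535))) (Nat.shiftLeft (nat_lit 1) (Nat.land (Nat.shiftRight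 (V (nat_lit 52)) (S (nat_lit 42))) (nat_lit 65535))))))) (Nat.add (Nat.add (Nat.add (Nat.shiftLeft (nat_lit 1) (Nat.land (Nat.shiftRight (V (nat_lit 53)) (S (nat_lit 21))) (nat_lit 65535))) (Nat.add (Nat.shiftLeft (nat_lit 1) (Nat.land (Nat.shiftRight (V (nat_lit 53)) (S (nat_lit 30))) (nat_lit 65535))) (Nat.shiftLeft (nat_lit 1) (Nat.land (Nat.shiftRight (V (nat_lit 53)) (S (nat_lit 38))) (nat_lit 65535))))) (Nat.add (Nat.shiftLeft (nat_lit 1) (Nat.land (Nat.shiftRight (V (nat_lit 53)) (S (nat_lit 43))) (nat_lit 65535))) (Nat.add (Nat.shiftLeft (nat_lit 1) (Nat.land (Nat.shiftRight (V (nat_lit 55)) (S (nat_lit 8))) (nat_lit 65535))) (Nat.shiftLeft (nat_lit 1) (Nat.land (Nat.shiftRight (V (nat_lit 55)) (S (nat_lit 41))) (nat_lit 65535)))))) (Nat.add (Nat.add (Nat.shiftLeft (nat_lit 1) (Nat.land (Nat.shiftRight (V (nat_lit 56)) (S (nat_lit 6))) (nat_lit 65535))) (Nat.add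 (Nat.shiftLeft (nat_lit 1) (Nat.land (Nat.shiftRight (V (nat_lit 56)) (S (nat_lit 39))) (nat_lit 65535))) (Nat.shiftLeft (nat_lit 1) (Nat.land (Nat.shiftRight (V (nat_lit 58)) (S (nat_lit 5))) (nat_lit 65535))))) (Nat.add (Nat.shiftLeft (nat_lit 1) (Nat.land (Nat.shiftRight (V (nat_lit 58)) (S (nat_lit 29))) (nat_lit 65535))) (Nat.add (Nat.shiftLeft (nat_lit 1) (Nat.land (Nat.shiftRight (V (nat_lit 59)) (S (nat_lit 3))) (nat_lit 65535))) (Nat.shiftLeft (nat_lit 1) (Nat.land (Nat.shiftRight (V (nat_lit 59)) (S (nat_lit 27))) (nat_lit 65535)))))))))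
def E85_2 (V S : ℕ → ℕ) : ℕ := Nat.add (Nat.add (Nat.add (Nat.add (Nat.add (Nat.add (Nat.add (Nat.shiftLeft (nat_lit 1) (Nat.land (Nat.shiftRight (V (nat_lit 3)) (S (nat_lit 22))) (nat_lit 65535))) (Nat.shiftLeft (nat_lit 1) (Nat.land (Nat.shiftRight (V (nat_lit 3)) (S (nat_lit 34))) (nat_lit 65535)))) (Nat.add (Nat.shiftLeft (nat_lit 1) (Nat.land (Nat.shiftRight (V (nat_lit 3)) (S (nat_lit 37))) (nat_lit 65535))) (Nat.shiftLeft (nat_lit 1) (Nat.land (Nat.shiftRight (V (nat_lit 3)) (S (nat_lit 54))) (nat_lit 65535))))) (Nat.add (Nat.add (Nat.shiftLeft (nat_lit 1) (Nat.land (Nat.shiftRight (V (nat_lit 5)) (S (nat_lit 18))) (nat_lit 65535))) (Nat.shiftLeft (nat_lit 1) (Nat.land (Nat.shiftRight (V (nat_lit 5)) (S (nat_lit 32))) (nat_lit 65535)))) (Nat.add (Nat.shiftLeft (nat_lit 1) (Nat.land (Nat.shiftRight (V (nat_lit 5)) (S (nat_lit 44))) (nat_lit 65535))) (Nat.add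 (Nat.shiftLeft (nat_lit 1) (Nat.land (Nat.shiftRight (V (nat_lit 5)) (S (nat_lit 50))) (nat_lit 65535))) (Nat.shiftLeft (nat_lit 1) (Nat.land (Nat.shiftRight (V (nat_lit 6)) (S (nat_lit 23))) (nat_lit 65535))))))) (Nat.add (Nat.add (Nat.add (Nat.shiftLeft (nat_lit 1) (Nat.land (Nat.shiftRight (V (nat_lit 6)) (S (nat_lit 25))) (nat_lit 65535))) (Nat.shiftLeft (nat_lit 1) (Nat.land (Nat.shiftRight (V (nat_lit 6)) (S (nat_lit 46))) (nat_lit 65535)))) (Nat.add (Nat.shiftLeft (nat_lit 1) (Nat.land (Nat.shiftRight (V (nat_lit 6)) (S (nat_lit 57))) (nat_lit 65535))) (Nat.shiftLeft (nat_lit 1) (Nat.land (Nat.shiftRight (V (nat_lit 8)) (S (nat_lit 15))) (nat_lit 65535))))) (Nat.add (Nat.add (Nat.shiftLeft (nat_lit 1) (Nat.land (Nat.shiftRight (V (nat_lit 8)) (S (nat_lit 32))) (nat_lit 65535))) (Nat.shiftLeft (nat_lit 1) (Nat.land (Nat.shiftRight (V (nat_lit 8)) (S (nat_lit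 44))) (nat_lit 65535)))) (Nat.add (Nat.shiftLeft (nat_lit 1) (Nat.land (Nat.shiftRight (V (nat_lit 8)) (S (nat_lit 49))) (nat_lit 65535))) (Nat.add (Nat.shiftLeft (nat_lit 1) (Nat.land (Nat.shiftRight (V (nat_lit 10)) (S (nat_lit 16))) (nat_lit 65535))) (Nat.shiftLeft (nat_lit 1) (Nat.land (Nat.shiftRight (V (nat_lit 10)) (S (nat_lit 34))) (nat_lit 65535)))))))) (Nat.add (Nat.add (Nat.add (Nat.add (Nat.shiftLeft (nat_lit 1) (Nat.land (Nat.shiftRight (V (nat_lit 10)) (S (nat_lit 36))) (nat_lit 65535))) (Nat.shiftLeft (nat_lit 1) (Nat.land (Nat.shiftRight (V (nat_lit 10)) (S (nat_lit 54))) (nat_lit 65535)))) (Nat.add (Nat.shiftLeft (nat_lit 1) (Nat.land (Nat.shiftRight (V (nat_lit 11)) (S (nat_lit 19))) (nat_lit 65535))) (Nat.shiftLeft (nat_lit 1) (Nat.land (Nat.shiftRight (V (nat_lit 11)) (S (nat_lit 24))) (nat_lit 65535))))) (Nat.add (Nat.add (Nat.shiftLeft (nat_lit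 1) (Nat.land (Nat.shiftRight (V (nat_lit 11)) (S (nat_lit 46))) (nat_lit 65535))) (Nat.shiftLeft (nat_lit 1) (Nat.land (Nat.shiftRight (V (nat_lit 11)) (S (nat_lit 57))) (nat_lit 65535)))) (Nat.add (Nat.shiftLeft (nat_lit 1) (Nat.land (Nat.shiftRight (V (nat_lit 15)) (S (nat_lit 8))) (nat_lit 65535))) (Nat.add (Nat.shiftLeft (nat_lit 1) (Nat.land (Nat.shiftRight (V (nat_lit 15)) (S (nat_lit 30))) (nat_lit 65535))) (Nat.shiftLeft (nat_lit 1) (Nat.land (Nat.shiftRight (V (nat_lit 15)) (S (nat_lit 53))) (nat_lit 65535))))))) (Nat.add (Nat.add (Nat.add (Nat.shiftLeft (nat_lit 1) (Nat.land (Nat.shiftRight (V (nat_lit 15)) (S (nat_lit 55))) (nat_lit 65535))) (Nat.shiftLeft (nat_lit 1) (Nat.land (Nat.shiftRight (V (nat_lit 16)) (S (nat_lit 10))) (nat_lit 65535)))) (Nat.add (Nat.shiftLeft (nat_lit 1) (Nat.land (Nat.shiftRight (V (nat_lit 16)) (S (nat_lit 35))) (nat_lit 65535)))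 (Nat.shiftLeft (nat_lit 1) (Nat.land (Nat.shiftRight (V (nat_lit 16)) (S (nat_lit 39))) (nat_lit 65535))))) (Nat.add (Nat.add (Nat.shiftLeft (nat_lit 1) (Nat.land (Nat.shiftRight (V (nat_lit 16)) (S (nat_lit 42))) (nat_lit 65535))) (Nat.shiftLeft (nat_lit 1) (Nat.land (Nat.shiftRight (V (nat_lit 18)) (S (nat_lit 5))) (nat_lit 65535)))) (Nat.add (Nat.shiftLeft (nat_lit 1) (Nat.land (Nat.shiftRight (V (nat_lit 18)) (S (nat_lit 42))) (nat_lit 65535))) (Nat.add (Nat.shiftLeft (nat_lit 1) (Nat.land (Nat.shiftRight (V (nat_lit 18)) (S (nat_lit 52))) (nat_lit 65535))) (Nat.shiftLeft (nat_lit 1) (Nat.land (Nat.shiftRight (V (nat_lit 18)) (S (nat_lit 58))) (nat_lit 65535))))))))) (Nat.add (Nat.add (Nat.add (Nat.add (Nat.add (Nat.shiftLeft (nat_lit 1) (Nat.land (Nat.shiftRight (V (nat_lit 19)) (S (nat_lit 11))) (nat_lit 65535))) (Nat.shiftLeft (nat_lit 1) (Nat.land (Nat.shiftRight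 (V (nat_lit 19)) (S (nat_lit 27))) (nat_lit 65535)))) (Nat.add (Nat.shiftLeft (nat_lit 1) (Nat.land (Nat.shiftRight (V (nat_lit 19)) (S (nat_lit 30))) (nat_lit 65535))) (Nat.shiftLeft (nat_lit 1) (Nat.land (Nat.shiftRight (V (nat_lit 19)) (S (nat_lit 47))) (nat_lit 65535))))) (Nat.add (Nat.add (Nat.shiftLeft (nat_lit 1) (Nat.land (Nat.shiftRight (V (nat_lit 22)) (S (nat_lit 3))) (nat_lit 65535))) (Nat.shiftLeft (nat_lit 1) (Nat.land (Nat.shiftRight (V (nat_lit 22)) (S (nat_lit 41))) (nat_lit 65535)))) (Nat.add (Nat.shiftLeft (nat_lit 1) (Nat.land (Nat.shiftRight (V (nat_lit 22)) (S (nat_lit 47))) (nat_lit 65535))) (Nat.add (Nat.shiftLeft (nat_lit 1) (Nat.land (Nat.shiftRight (V (nat_lit 22)) (S (nat_lit 55))) (nat_lit 65535))) (Nat.shiftLeft (nat_lit 1) (Nat.land (Nat.shiftRight (V (nat_lit 23)) (S (nat_lit 6))) (nat_lit 65535))))))) (Nat.add (Nat.add (Nat.add (Nat.shiftLeft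 (nat_lit 1) (Nat.land (Nat.shiftRight (V (nat_lit 23)) (S (nat_lit 29))) (nat_lit 65535))) (Nat.shiftLeft (nat_lit 1) (Nat.land (Nat.shiftRight (V (nat_lit 23)) (S (nat_lit 35))) (nat_lit 65535)))) (Nat.add (Nat.shiftLeft (nat_lit 1) (Nat.land (Nat.shiftRight (V (nat_lit 23)) (S (nat_lit 58))) (nat_lit 65535))) (Nat.shiftLeft (nat_lit 1) (Nat.land (Nat.shiftRight (V (nat_lit 24)) (S (nat_lit 11))) (nat_lit 65535))))) (Nat.add (Nat.add (Nat.shiftLeft (nat_lit 1) (Nat.land (Nat.shiftRight (V (nat_lit 24)) (S (nat_lit 33))) (nat_lit 65535))) (Nat.shiftLeft (nat_lit 1) (Nat.land (Nat.shiftRight (V (nat_lit 24)) (S (nat_lit 41))) (nat_lit 65535)))) (Nat.add (Nat.shiftLeft (nat_lit 1) (Nat.land (Nat.shiftRight (V (nat_lit 24)) (S (nat_lit 43))) (nat_lit 65535))) (Nat.add (Nat.shiftLeft (nat_lit 1) (Nat.land (Nat.shiftRight (V (nat_lit 25)) (S (nat_lit 6))) (nat_lit 65535)))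 (Nat.shiftLeft (nat_lit 1) (Nat.land (Nat.shiftRight (V (nat_lit 25)) (S (nat_lit 31))) (nat_lit 65535)))))))) (Nat.add (Nat.add (Nat.add (Nat.add (Nat.shiftLeft (nat_lit 1) (Nat.land (Nat.shiftRight (V (nat_lit 25)) (S (nat_lit 52))) (nat_lit 65535))) (Nat.shiftLeft (nat_lit 1) (Nat.land (Nat.shiftRight (V (nat_lit 25)) (S (nat_lit 56))) (nat_lit 65535)))) (Nat.add (Nat.shiftLeft (nat_lit 1) (Nat.land (Nat.shiftRight (V (nat_lit 27)) (S (nat_lit 19))) (nat_lit 65535))) (Nat.shiftLeft (nat_lit 1) (Nat.land (Nat.shiftRight (V (nat_lit 27)) (S (nat_lit 34))) (nat_lit 65535))))) (Nat.add (Nat.add (Nat.shiftLeft (nat_lit 1) (Nat.land (Nat.shiftRight (V (nat_lit 27)) (S (nat_lit 49))) (nat_lit 65535))) (Nat.shiftLeft (nat_lit 1) (Nat.land (Nat.shiftRight (V (nat_lit 27)) (S (nat_lit 54))) (nat_lit 65535)))) (Nat.add (Nat.shiftLeft (nat_lit 1) (Nat.land (Nat.shiftRight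 (V (nat_lit 29)) (S (nat_lit 23))) (nat_lit 65535))) (Nat.add (Nat.shiftLeft (nat_lit 1) (Nat.land (Nat.shiftRight (V (nat_lit 29)) (S (nat_lit 32))) (nat_lit 65535))) (Nat.shiftLeft (nat_lit 1) (Nat.land (Nat.shiftRight (V (nat_lit 29)) (S (nat_lit 36))) (nat_lit 65535))))))) (Nat.add (Nat.add (Nat.add (Nat.shiftLeft (nat_lit 1) (Nat.land (Nat.shiftRight (V (nat_lit 29)) (S (nat_lit 44))) (nat_lit 65535))) (Nat.shiftLeft (nat_lit 1) (Nat.land (Nat.shiftRight (V (nat_lit 30)) (S (nat_lit 15))) (nat_lit 65535)))) (Nat.add (Nat.shiftLeft (nat_lit 1) (Nat.land (Nat.shiftRight (V (nat_lit 30)) (S (nat_lit 19))) (nat_lit 65535))) (Nat.shiftLeft (nat_lit 1) (Nat.land (Nat.shiftRight (V (nat_lit 31)) (S (nat_lit 25))) (nat_lit 65535))))) (Nat.add (Nat.add (Nat.shiftLeft (nat_lit 1) (Nat.land (Nat.shiftRight (V (nat_lit 31)) (S (nat_lit 36))) (nat_lit 65535))) (Nat.shiftLeft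 (nat_lit 1) (Nat.land (Nat.shiftRight (V (nat_lit 32)) (S (nat_lit 5))) (nat_lit 65535)))) (Nat.add (Nat.shiftLeft (nat_lit 1) (Nat.land (Nat.shiftRight (V (nat_lit 32)) (S (nat_lit 8))) (nat_lit 65535))) (Nat.add (Nat.shiftLeft (nat_lit 1) (Nat.land (Nat.shiftRight (V (nat_lit 32)) (S (nat_lit 29))) (nat_lit 65535))) (Nat.shiftLeft (nat_lit 1) (Nat.land (Nat.shiftRight (V (nat_lit 32)) (S (nat_lit 41))) (nat_lit 65535)))))))))) (Nat.add (Nat.add (Nat.add (Nat.add (Nat.add (Nat.add (Nat.shiftLeft (nat_lit 1) (Nat.land (Nat.shiftRight (V (nat_lit 33)) (S (nat_lit 24))) (nat_lit 65535))) (Nat.shiftLeft (nat_lit 1) (Nat.land (Nat.shiftRight (V (nat_lit 33)) (S (nat_lit 49))) (nat_lit 65535)))) (Nat.add (Nat.shiftLeft (nat_lit 1) (Nat.land (Nat.shiftRight (V (nat_lit 34)) (S (nat_lit 3))) (nat_lit 65535))) (Nat.shiftLeft (nat_lit 1) (Nat.land (Nat.shiftRight (V (nat_lit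 34)) (S (nat_lit 10))) (nat_lit 65535))))) (Nat.add (Nat.add (Nat.shiftLeft (nat_lit 1) (Nat.land (Nat.shiftRight (V (nat_lit 34)) (S (nat_lit 27))) (nat_lit 65535))) (Nat.shiftLeft (nat_lit 1) (Nat.land (Nat.shiftRight (V (nat_lit 34)) (S (nat_lit 52))) (nat_lit 65535)))) (Nat.add (Nat.shiftLeft (nat_lit 1) (Nat.land (Nat.shiftRight (V (nat_lit 35)) (S (nat_lit 16))) (nat_lit 65535))) (Nat.add (Nat.shiftLeft (nat_lit 1) (Nat.land (Nat.shiftRight (V (nat_lit 35)) (S (nat_lit 23))) (nat_lit 65535))) (Nat.shiftLeft (nat_lit 1) (Nat.land (Nat.shiftRight (V (nat_lit 36)) (S (nat_lit 10))) (nat_lit 65535))))))) (Nat.add (Nat.add (Nat.add (Nat.shiftLeft (nat_lit 1) (Nat.land (Nat.shiftRight (V (nat_lit 36)) (S (nat_lit 29))) (nat_lit 65535))) (Nat.shiftLeft (nat_lit 1) (Nat.land (Nat.shiftRight (V (nat_lit 36)) (S (nat_lit 31))) (nat_lit 65535)))) (Nat.add (Nat.shiftLeft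 (nat_lit 1) (Nat.land (Nat.shiftRight (V (nat_lit 36)) (S (nat_lit 45))) (nat_lit 65535))) (Nat.shiftLeft (nat_lit 1) (Nat.land (Nat.shiftRight (V (nat_lit 37)) (S (nat_lit 3))) (nat_lit 65535))))) (Nat.add (Nat.add (Nat.shiftLeft (nat_lit 1) (Nat.land (Nat.shiftRight (V (nat_lit 37)) (S (nat_lit 43))) (nat_lit 65535))) (Nat.shiftLeft (nat_lit 1) (Nat.land (Nat.shiftRight (V (nat_lit 37)) (S (nat_lit 53))) (nat_lit 65535)))) (Nat.add (Nat.shiftLeft (nat_lit 1) (Nat.land (Nat.shiftRight (V (nat_lit 37)) (S (nat_lit 59))) (nat_lit 65535))) (Nat.add (Nat.shiftLeft (nat_lit 1) (Nat.land (Nat.shiftRight (V (nat_lit 39)) (S (nat_lit 16))) (nat_lit 65535))) (Nat.shiftLeft (nat_lit 1) (Nat.land (Nat.shiftRight (V (nat_lit 39)) (S (nat_lit 46))) (nat_lit 65535)))))))) (Nat.add (Nat.add (Nat.add (Nat.add (Nat.shiftLeft (nat_lit 1) (Nat.land (Nat.shiftRight (V (nat_lit 39))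 (S (nat_lit 50))) (nat_lit 65535))) (Nat.shiftLeft (nat_lit 1) (Nat.land (Nat.shiftRight (V (nat_lit 39)) (S (nat_lit 57))) (nat_lit 65535)))) (Nat.add (Nat.shiftLeft (nat_lit 1) (Nat.land (Nat.shiftRight (V (nat_lit 41)) (S (nat_lit 22))) (nat_lit 65535))) (Nat.shiftLeft (nat_lit 1) (Nat.land (Nat.shiftRight (V (nat_lit 41)) (S (nat_lit 24))) (nat_lit 65535))))) (Nat.add (Nat.add (Nat.shiftLeft (nat_lit 1) (Nat.land (Nat.shiftRight (V (nat_lit 41)) (S (nat_lit 32))) (nat_lit 65535))) (Nat.shiftLeft (nat_lit 1) (Nat.land (Nat.shiftRight (V (nat_lit 41)) (S (nat_lit 44))) (nat_lit 65535)))) (Nat.add (Nat.shiftLeft (nat_lit 1) (Nat.land (Nat.shiftRight (V (nat_lit 42)) (S (nat_lit 16))) (nat_lit 65535))) (Nat.add (Nat.shiftLeft (nat_lit 1) (Nat.land (Nat.shiftRight (V (nat_lit 42)) (S (nat_lit 18))) (nat_lit 65535))) (Nat.shiftLeft (nat_lit 1) (Nat.land (Nat.shiftRight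 (V (nat_lit 43)) (S (nat_lit 24))) (nat_lit 65535))))))) (Nat.add (Nat.add (Nat.add (Nat.shiftLeft (nat_lit 1) (Nat.land (Nat.shiftRight (V (nat_lit 43)) (S (nat_lit 37))) (nat_lit 65535))) (Nat.shiftLeft (nat_lit 1) (Nat.land (Nat.shiftRight (V (nat_lit 44)) (S (nat_lit 5))) (nat_lit 65535)))) (Nat.add (Nat.shiftLeft (nat_lit 1) (Nat.land (Nat.shiftRight (V (nat_lit 44)) (S (nat_lit 8))) (nat_lit 65535))) (Nat.shiftLeft (nat_lit 1) (Nat.land (Nat.shiftRight (V (nat_lit 44)) (S (nat_lit 29))) (nat_lit 65535))))) (Nat.add (Nat.add (Nat.shiftLeft (nat_lit 1) (Nat.land (Nat.shiftRight (V (nat_lit 44)) (S (nat_lit 41))) (nat_lit 65535))) (Nat.shiftLeft (nat_lit 1) (Nat.land (Nat.shiftRight (V (nat_lit 45)) (S (nat_lit 36))) (nat_lit 65535)))) (Nat.add (Nat.shiftLeft (nat_lit 1) (Nat.land (Nat.shiftRight (V (nat_lit 45)) (S (nat_lit 50))) (nat_lit 65535))) (Nat.add (Nat.shiftLeft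 (nat_lit 1) (Nat.land (Nat.shiftRight (V (nat_lit 46)) (S (nat_lit 6))) (nat_lit 65535))) (Nat.shiftLeft (nat_lit 1) (Nat.land (Nat.shiftRight (V (nat_lit 46)) (S (nat_lit 11))) (nat_lit 65535))))))))) (Nat.add (Nat.add (Nat.add (Nat.add (Nat.add (Nat.shiftLeft (nat_lit 1) (Nat.land (Nat.shiftRight (V (nat_lit 46)) (S (nat_lit 39))) (nat_lit 65535))) (Nat.shiftLeft (nat_lit 1) (Nat.land (Nat.shiftRight (V (nat_lit 46)) (S (nat_lit 53))) (nat_lit 65535)))) (Nat.add (Nat.shiftLeft (nat_lit 1) (Nat.land (Nat.shiftRight (V (nat_lit 47)) (S (nat_lit 19))) (nat_lit 65535))) (Nat.shiftLeft (nat_lit 1) (Nat.land (Nat.shiftRight (V (nat_lit 47)) (S (nat_lit 22))) (nat_lit 65535))))) (Nat.add (Nat.add (Nat.shiftLeft (nat_lit 1) (Nat.land (Nat.shiftRight (V (nat_lit 49)) (S (nat_lit 8))) (nat_lit 65535))) (Nat.shiftLeft (nat_lit 1) (Nat.land (Nat.shiftRight (V (nat_lit 49))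 (S (nat_lit 27))) (nat_lit 65535)))) (Nat.add (Nat.shiftLeft (nat_lit 1) (Nat.land (Nat.shiftRight (V (nat_lit 49)) (S (nat_lit 33))) (nat_lit 65535))) (Nat.add (Nat.shiftLeft (nat_lit 1) (Nat.land (Nat.shiftRight (V (nat_lit 49)) (S (nat_lit 59))) (nat_lit 65535))) (Nat.shiftLeft (nat_lit 1) (Nat.land (Nat.shiftRight (V (nat_lit 50)) (S (nat_lit 5))) (nat_lit 65535))))))) (Nat.add (Nat.add (Nat.add (Nat.shiftLeft (nat_lit 1) (Nat.land (Nat.shiftRight (V (nat_lit 50)) (S (nat_lit 39))) (nat_lit 65535))) (Nat.shiftLeft (nat_lit 1) (Nat.land (Nat.shiftRight (V (nat_lit 50)) (S (nat_lit 45))) (nat_lit 65535)))) (Nat.add (Nat.shiftLeft (nat_lit 1) (Nat.land (Nat.shiftRight (V (nat_lit 50)) (S (nat_lit 56))) (nat_lit 65535))) (Nat.shiftLeft (nat_lit 1) (Nat.land (Nat.shiftRight (V (nat_lit 52)) (S (nat_lit 18))) (nat_lit 65535))))) (Nat.add (Nat.add (Nat.shiftLeft (nat_lit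 1) (Nat.land (Nat.shiftRight (V (nat_lit 52)) (S (nat_lit 25))) (nat_lit 65535))) (Nat.shiftLeft (nat_lit 1) (Nat.land (Nat.shiftRight (V (nat_lit 52)) (S (nat_lit 34))) (nat_lit 65535)))) (Nat.add (Nat.shiftLeft (nat_lit 1) (Nat.land (Nat.shiftRight (V (nat_lit 52)) (S (nat_lit 54))) (nat_lit 65535))) (Nat.add (Nat.shiftLeft (nat_lit 1) (Nat.land (Nat.shiftRight (V (nat_lit 53)) (S (nat_lit 15))) (nat_lit 65535))) (Nat.shiftLeft (nat_lit 1) (Nat.land (Nat.shiftRight (V (nat_lit 53)) (S (nat_lit 37))) (nat_lit 65535)))))))) (Nat.add (Nat.add (Nat.add (Nat.add (Nat.shiftLeft (nat_lit 1) (Nat.land (Nat.shiftRight (V (nat_lit 53)) (S (nat_lit 46))) (nat_lit 65535))) (Nat.shiftLeft (nat_lit 1) (Nat.land (Nat.shiftRight (V (nat_lit 53)) (S (nat_lit 57))) (nat_lit 65535)))) (Nat.add (Nat.shiftLeft (nat_lit 1) (Nat.land (Nat.shiftRight (V (nat_lit 54)) (S (nat_lit 3))) (nat_lit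 65535))) (Nat.shiftLeft (nat_lit 1) (Nat.land (Nat.shiftRight (V (nat_lit 54)) (S (nat_lit 10))) (nat_lit 65535))))) (Nat.add (Nat.add (Nat.shiftLeft (nat_lit 1) (Nat.land (Nat.shiftRight (V (nat_lit 54)) (S (nat_lit 27))) (nat_lit 65535))) (Nat.shiftLeft (nat_lit 1) (Nat.land (Nat.shiftRight (V (nat_lit 54)) (S (nat_lit 52))) (nat_lit 65535)))) (Nat.add (Nat.shiftLeft (nat_lit 1) (Nat.land (Nat.shiftRight (V (nat_lit 55)) (S (nat_lit 15))) (nat_lit 65535))) (Nat.add (Nat.shiftLeft (nat_lit 1) (Nat.land (Nat.shiftRight (V (nat_lit 55)) (S (nat_lit 22))) (nat_lit 65535))) (Nat.shiftLeft (nat_lit 1) (Nat.land (Nat.shiftRight (V (nat_lit 56)) (S (nat_lit 25))) (nat_lit 65535))))))) (Nat.add (Nat.add (Nat.add (Nat.shiftLeft (nat_lit 1) (Nat.land (Nat.shiftRight (V (nat_lit 56)) (S (nat_lit 50))) (nat_lit 65535))) (Nat.shiftLeft (nat_lit 1) (Nat.land (Nat.shiftRight (V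 (nat_lit 57)) (S (nat_lit 6))) (nat_lit 65535)))) (Nat.add (Nat.shiftLeft (nat_lit 1) (Nat.land (Nat.shiftRight (V (nat_lit 57)) (S (nat_lit 11))) (nat_lit 65535))) (Nat.shiftLeft (nat_lit 1) (Nat.land (Nat.shiftRight (V (nat_lit 57)) (S (nat_lit 39))) (nat_lit 65535))))) (Nat.add (Nat.add (Nat.shiftLeft (nat_lit 1) (Nat.land (Nat.shiftRight (V (nat_lit 57)) (S (nat_lit 53))) (nat_lit 65535))) (Nat.shiftLeft (nat_lit 1) (Nat.land (Nat.shiftRight (V (nat_lit 58)) (S (nat_lit 18))) (nat_lit 65535)))) (Nat.add (Nat.shiftLeft (nat_lit 1) (Nat.land (Nat.shiftRight (V (nat_lit 58)) (S (nat_lit 23))) (nat_lit 65535))) (Nat.add (Nat.shiftLeft (nat_lit 1) (Nat.land (Nat.shiftRight (V (nat_lit 59)) (S (nat_lit 37))) (nat_lit 65535))) (Nat.shiftLeft (nat_lit 1) (Nat.land (Nat.shiftRight (V (nat_lit 59)) (S (nat_lit 49))) (nat_lit 65535))))))))))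
def E86_2 (V S : ℕ → ℕ) : ℕ := Nat.add (Nat.add (Nat.add (Nat.add (Nat.add (Nat.add (Nat.shiftLeft (nat_lit 1) (Nat.land (Nat.shiftRight (V (nat_lit 3)) (S (nat_lit 23))) (nat_lit 65535))) (Nat.shiftLeft (nat_lit 1) (Nat.land (Nat.shiftRight (V (nat_lit 3)) (S (nat_lit 50))) (nat_lit 65535)))) (Nat.add (Nat.shiftLeft (nat_lit 1) (Nat.land (Nat.shiftRight (V (nat_lit 5)) (S (nat_lit 19))) (nat_lit 65535))) (Nat.shiftLeft (nat_lit 1) (Nat.land (Nat.shiftRight (V (nat_lit 5)) (S (nat_lit 37))) (nat_lit 65535))))) (Nat.add (Nat.add (Nat.shiftLeft (nat_lit 1) (Nat.land (Nat.shiftRight (V (nat_lit 6)) (S (nat_lit 22))) (nat_lit 65535))) (Nat.shiftLeft (nat_lit 1) (Nat.land (Nat.shiftRight (V (nat_lit 6)) (S (nat_lit 49))) (nat_lit 65535)))) (Nat.add (Nat.shiftLeft (nat_lit 1) (Nat.land (Nat.shiftRight (V (nat_lit 8)) (S (nat_lit 16))) (nat_lit 65535))) (Nat.add (Nat.shiftLeft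 (nat_lit 1) (Nat.land (Nat.shiftRight (V (nat_lit 8)) (S (nat_lit 25))) (nat_lit 65535))) (Nat.shiftLeft (nat_lit 1) (Nat.land (Nat.shiftRight (V (nat_lit 10)) (S (nat_lit 15))) (nat_lit 65535))))))) (Nat.add (Nat.add (Nat.add (Nat.shiftLeft (nat_lit 1) (Nat.land (Nat.shiftRight (V (nat_lit 10)) (S (nat_lit 24))) (nat_lit 65535))) (Nat.shiftLeft (nat_lit 1) (Nat.land (Nat.shiftRight (V (nat_lit 11)) (S (nat_lit 18))) (nat_lit 65535)))) (Nat.add (Nat.shiftLeft (nat_lit 1) (Nat.land (Nat.shiftRight (V (nat_lit 11)) (S (nat_lit 36))) (nat_lit 65535))) (Nat.shiftLeft (nat_lit 1) (Nat.land (Nat.shiftRight (V (nat_lit 15)) (S (nat_lit 10))) (nat_lit 65535))))) (Nat.add (Nat.add (Nat.shiftLeft (nat_lit 1) (Nat.land (Nat.shiftRight (V (nat_lit 15)) (S (nat_lit 37))) (nat_lit 65535))) (Nat.shiftLeft (nat_lit 1) (Nat.land (Nat.shiftRight (V (nat_lit 15)) (S (nat_lit 49))) (nat_lit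 65535)))) (Nat.add (Nat.shiftLeft (nat_lit 1) (Nat.land (Nat.shiftRight (V (nat_lit 15)) (S (nat_lit 52))) (nat_lit 65535))) (Nat.add (Nat.shiftLeft (nat_lit 1) (Nat.land (Nat.shiftRight (V (nat_lit 16)) (S (nat_lit 8))) (nat_lit 65535))) (Nat.shiftLeft (nat_lit 1) (Nat.land (Nat.shiftRight (V (nat_lit 16)) (S (nat_lit 36))) (nat_lit 65535)))))))) (Nat.add (Nat.add (Nat.add (Nat.add (Nat.shiftLeft (nat_lit 1) (Nat.land (Nat.shiftRight (V (nat_lit 16)) (S (nat_lit 41))) (nat_lit 65535))) (Nat.shiftLeft (nat_lit 1) (Nat.land (Nat.shiftRight (V (nat_lit 16)) (S (nat_lit 50))) (nat_lit 65535)))) (Nat.add (Nat.shiftLeft (nat_lit 1) (Nat.land (Nat.shiftRight (V (nat_lit 18)) (S (nat_lit 11))) (nat_lit 65535))) (Nat.shiftLeft (nat_lit 1) (Nat.land (Nat.shiftRight (V (nat_lit 18)) (S (nat_lit 25))) (nat_lit 65535))))) (Nat.add (Nat.add (Nat.shiftLeft (nat_lit 1) (Nat.land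 (Nat.shiftRight (V (nat_lit 18)) (S (nat_lit 50))) (nat_lit 65535))) (Nat.shiftLeft (nat_lit 1) (Nat.land (Nat.shiftRight (V (nat_lit 18)) (S (nat_lit 53))) (nat_lit 65535)))) (Nat.add (Nat.shiftLeft (nat_lit 1) (Nat.land (Nat.shiftRight (V (nat_lit 19)) (S (nat_lit 5))) (nat_lit 65535))) (Nat.add (Nat.shiftLeft (nat_lit 1) (Nat.land (Nat.shiftRight (V (nat_lit 19)) (S (nat_lit 24))) (nat_lit 65535))) (Nat.shiftLeft (nat_lit 1) (Nat.land (Nat.shiftRight (V (nat_lit 19)) (S (nat_lit 29))) (nat_lit 65535))))))) (Nat.add (Nat.add (Nat.add (Nat.shiftLeft (nat_lit 1) (Nat.land (Nat.shiftRight (V (nat_lit 19)) (S (nat_lit 49))) (nat_lit 65535))) (Nat.shiftLeft (nat_lit 1) (Nat.land (Nat.shiftRight (V (nat_lit 22)) (S (nat_lit 6))) (nat_lit 65535)))) (Nat.add (Nat.shiftLeft (nat_lit 1) (Nat.land (Nat.shiftRight (V (nat_lit 22)) (S (nat_lit 24))) (nat_lit 65535))) (Nat.shiftLeft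 (nat_lit 1) (Nat.land (Nat.shiftRight (V (nat_lit 22)) (S (nat_lit 37))) (nat_lit 65535))))) (Nat.add (Nat.add (Nat.shiftLeft (nat_lit 1) (Nat.land (Nat.shiftRight (V (nat_lit 22)) (S (nat_lit 39))) (nat_lit 65535))) (Nat.shiftLeft (nat_lit 1) (Nat.land (Nat.shiftRight (V (nat_lit 23)) (S (nat_lit 3))) (nat_lit 65535)))) (Nat.add (Nat.shiftLeft (nat_lit 1) (Nat.land (Nat.shiftRight (V (nat_lit 23)) (S (nat_lit 25))) (nat_lit 65535))) (Nat.add (Nat.shiftLeft (nat_lit 1) (Nat.land (Nat.shiftRight (V (nat_lit 23)) (S (nat_lit 27))) (nat_lit 65535))) (Nat.shiftLeft (nat_lit 1) (Nat.land (Nat.shiftRight (V (nat_lit 23)) (S (nat_lit 36))) (nat_lit 65535))))))))) (Nat.add (Nat.add (Nat.add (Nat.add (Nat.add (Nat.shiftLeft (nat_lit 1) (Nat.land (Nat.shiftRight (V (nat_lit 24)) (S (nat_lit 10))) (nat_lit 65535))) (Nat.shiftLeft (nat_lit 1) (Nat.land (Nat.shiftRight (V (nat_lit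 24)) (S (nat_lit 19))) (nat_lit 65535)))) (Nat.add (Nat.shiftLeft (nat_lit 1) (Nat.land (Nat.shiftRight (V (nat_lit 24)) (S (nat_lit 22))) (nat_lit 65535))) (Nat.shiftLeft (nat_lit 1) (Nat.land (Nat.shiftRight (V (nat_lit 24)) (S (nat_lit 52))) (nat_lit 65535))))) (Nat.add (Nat.add (Nat.shiftLeft (nat_lit 1) (Nat.land (Nat.shiftRight (V (nat_lit 25)) (S (nat_lit 8))) (nat_lit 65535))) (Nat.shiftLeft (nat_lit 1) (Nat.land (Nat.shiftRight (V (nat_lit 25)) (S (nat_lit 18))) (nat_lit 65535)))) (Nat.add (Nat.shiftLeft (nat_lit 1) (Nat.land (Nat.shiftRight (V (nat_lit 25)) (S (nat_lit 23))) (nat_lit 65535))) (Nat.add (Nat.shiftLeft (nat_lit 1) (Nat.land (Nat.shiftRight (V (nat_lit 25)) (S (nat_lit 41))) (nat_lit 65535))) (Nat.shiftLeft (nat_lit 1) (Nat.land (Nat.shiftRight (V (nat_lit 27)) (S (nat_lit 23))) (nat_lit 65535))))))) (Nat.add (Nat.add (Nat.add (Nat.shiftLeft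 (nat_lit 1) (Nat.land (Nat.shiftRight (V (nat_lit 27)) (S (nat_lit 50))) (nat_lit 65535))) (Nat.shiftLeft (nat_lit 1) (Nat.land (Nat.shiftRight (V (nat_lit 29)) (S (nat_lit 19))) (nat_lit 65535)))) (Nat.add (Nat.shiftLeft (nat_lit 1) (Nat.land (Nat.shiftRight (V (nat_lit 29)) (S (nat_lit 37))) (nat_lit 65535))) (Nat.shiftLeft (nat_lit 1) (Nat.land (Nat.shiftRight (V (nat_lit 36)) (S (nat_lit 11))) (nat_lit 65535))))) (Nat.add (Nat.add (Nat.shiftLeft (nat_lit 1) (Nat.land (Nat.shiftRight (V (nat_lit 36)) (S (nat_lit 16))) (nat_lit 65535))) (Nat.shiftLeft (nat_lit 1) (Nat.land (Nat.shiftRight (V (nat_lit 36)) (S (nat_lit 23))) (nat_lit 65535)))) (Nat.add (Nat.shiftLeft (nat_lit 1) (Nat.land (Nat.shiftRight (V (nat_lit 36)) (S (nat_lit 53))) (nat_lit 65535))) (Nat.add (Nat.shiftLeft (nat_lit 1) (Nat.land (Nat.shiftRight (V (nat_lit 37)) (S (nat_lit 5))) (nat_lit 65535)))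 (Nat.shiftLeft (nat_lit 1) (Nat.land (Nat.shiftRight (V (nat_lit 37)) (S (nat_lit 15))) (nat_lit 65535)))))))) (Nat.add (Nat.add (Nat.add (Nat.add (Nat.shiftLeft (nat_lit 1) (Nat.land (Nat.shiftRight (V (nat_lit 37)) (S (nat_lit 22))) (nat_lit 65535))) (Nat.shiftLeft (nat_lit 1) (Nat.land (Nat.shiftRight (V (nat_lit 37)) (S (nat_lit 29))) (nat_lit 65535)))) (Nat.add (Nat.shiftLeft (nat_lit 1) (Nat.land (Nat.shiftRight (V (nat_lit 39)) (S (nat_lit 22))) (nat_lit 65535))) (Nat.shiftLeft (nat_lit 1) (Nat.land (Nat.shiftRight (V (nat_lit 39)) (S (nat_lit 49))) (nat_lit 65535))))) (Nat.add (Nat.add (Nat.shiftLeft (nat_lit 1) (Nat.land (Nat.shiftRight (V (nat_lit 41)) (S (nat_lit 16))) (nat_lit 65535))) (Nat.shiftLeft (nat_lit 1) (Nat.land (Nat.shiftRight (V (nat_lit 41)) (S (nat_lit 25))) (nat_lit 65535)))) (Nat.add (Nat.shiftLeft (nat_lit 1) (Nat.land (Nat.shiftRight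 (V (nat_lit 49)) (S (nat_lit 6))) (nat_lit 65535))) (Nat.add (Nat.shiftLeft (nat_lit 1) (Nat.land (Nat.shiftRight (V (nat_lit 49)) (S (nat_lit 15))) (nat_lit 65535))) (Nat.shiftLeft (nat_lit 1) (Nat.land (Nat.shiftRight (V (nat_lit 49)) (S (nat_lit 19))) (nat_lit 65535))))))) (Nat.add (Nat.add (Nat.add (Nat.shiftLeft (nat_lit 1) (Nat.land (Nat.shiftRight (V (nat_lit 49)) (S (nat_lit 39))) (nat_lit 65535))) (Nat.shiftLeft (nat_lit 1) (Nat.land (Nat.shiftRight (V (nat_lit 50)) (S (nat_lit 3))) (nat_lit 65535)))) (Nat.add (Nat.shiftLeft (nat_lit 1) (Nat.land (Nat.shiftRight (V (nat_lit 50)) (S (nat_lit 16))) (nat_lit 65535))) (Nat.shiftLeft (nat_lit 1) (Nat.land (Nat.shiftRight (V (nat_lit 50)) (S (nat_lit 18))) (nat_lit 65535))))) (Nat.add (Nat.add (Nat.shiftLeft (nat_lit 1) (Nat.land (Nat.shiftRight (V (nat_lit 50)) (S (nat_lit 27))) (nat_lit 65535))) (Nat.shiftLeft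 (nat_lit 1) (Nat.land (Nat.shiftRight (V (nat_lit 52)) (S (nat_lit 15))) (nat_lit 65535)))) (Nat.add (Nat.shiftLeft (nat_lit 1) (Nat.land (Nat.shiftRight (V (nat_lit 52)) (S (nat_lit 24))) (nat_lit 65535))) (Nat.add (Nat.shiftLeft (nat_lit 1) (Nat.land (Nat.shiftRight (V (nat_lit 53)) (S (nat_lit 18))) (nat_lit 65535))) (Nat.shiftLeft (nat_lit 1) (Nat.land (Nat.shiftRight (V (nat_lit 53)) (S (nat_lit 36))) (nat_lit 65535)))))))))
def E87_2 (V S : ℕ → ℕ) : ℕ := Nat.add (Nat.add (Nat.add (Nat.add (Nat.add (Nat.add (Nat.shiftLeft (nat_lit 1) (Nat.land (Nat.shiftRight (V (nat_lit 3)) (S (nat_lit 30))) (nat_lit 65535))) (Nat.add (Nat.shiftLeft (nat_lit 1) (Nat.land (Nat.shiftRight (V (nat_lit 3)) (S (nat_lit 33))) (nat_lit 65535))) (Nat.shiftLeft (nat_lit 1) (Nat.land (Nat.shiftRight (V (nat_lit 3)) (S (nat_lit 44))) (nat_lit 65535))))) (Nat.add (Nat.shiftLeft (nat_lit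 1) (Nat.land (Nat.shiftRight (V (nat_lit 3)) (S (nat_lit 46))) (nat_lit 65535))) (Nat.add (Nat.shiftLeft (nat_lit 1) (Nat.land (Nat.shiftRight (V (nat_lit 5)) (S (nat_lit 31))) (nat_lit 65535))) (Nat.shiftLeft (nat_lit 1) (Nat.land (Nat.shiftRight (V (nat_lit 5)) (S (nat_lit 35))) (nat_lit 65535)))))) (Nat.add (Nat.add (Nat.shiftLeft (nat_lit 1) (Nat.land (Nat.shiftRight (V (nat_lit 5)) (S (nat_lit 54))) (nat_lit 65535))) (Nat.add (Nat.shiftLeft (nat_lit 1) (Nat.land (Nat.shiftRight (V (nat_lit 5)) (S (nat_lit 57))) (nat_lit 65535))) (Nat.shiftLeft (nat_lit 1) (Nat.land (Nat.shiftRight (V (nat_lit 6)) (S (nat_lit 32))) (nat_lit 65535))))) (Nat.add (Nat.shiftLeft (nat_lit 1) (Nat.land (Nat.shiftRight (V (nat_lit 6)) (S (nat_lit 34))) (nat_lit 65535))) (Nat.add (Nat.shiftLeft (nat_lit 1) (Nat.land (Nat.shiftRight (V (nat_lit 6)) (S (nat_lit 42))) (nat_lit 65535))) (Nat.shiftLeft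 (nat_lit 1) (Nat.land (Nat.shiftRight (V (nat_lit 6)) (S (nat_lit 45))) (nat_lit 65535))))))) (Nat.add (Nat.add (Nat.add (Nat.shiftLeft (nat_lit 1) (Nat.land (Nat.shiftRight (V (nat_lit 8)) (S (nat_lit 43))) (nat_lit 65535))) (Nat.add (Nat.shiftLeft (nat_lit 1) (Nat.land (Nat.shiftRight (V (nat_lit 8)) (S (nat_lit 47))) (nat_lit 65535))) (Nat.shiftLeft (nat_lit 1) (Nat.land (Nat.shiftRight (V (nat_lit 8)) (S (nat_lit 54))) (nat_lit 65535))))) (Nat.add (Nat.shiftLeft (nat_lit 1) (Nat.land (Nat.shiftRight (V (nat_lit 8)) (S (nat_lit 57))) (nat_lit 65535))) (Nat.add (Nat.shiftLeft (nat_lit 1) (Nat.land (Nat.shiftRight (V (nat_lit 10)) (S (nat_lit 44))) (nat_lit 65535))) (Nat.shiftLeft (nat_lit 1) (Nat.land (Nat.shiftRight (V (nat_lit 10)) (S (nat_lit 46))) (nat_lit 65535)))))) (Nat.add (Nat.add (Nat.shiftLeft (nat_lit 1) (Nat.land (Nat.shiftRight (V (nat_lit 10)) (S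 (nat_lit 56))) (nat_lit 65535))) (Nat.add (Nat.shiftLeft (nat_lit 1) (Nat.land (Nat.shiftRight (V (nat_lit 10)) (S (nat_lit 58))) (nat_lit 65535))) (Nat.shiftLeft (nat_lit 1) (Nat.land (Nat.shiftRight (V (nat_lit 11)) (S (nat_lit 32))) (nat_lit 65535))))) (Nat.add (Nat.shiftLeft (nat_lit 1) (Nat.land (Nat.shiftRight (V (nat_lit 11)) (S (nat_lit 34))) (nat_lit 65535))) (Nat.add (Nat.shiftLeft (nat_lit 1) (Nat.land (Nat.shiftRight (V (nat_lit 11)) (S (nat_lit 55))) (nat_lit 65535))) (Nat.shiftLeft (nat_lit 1) (Nat.land (Nat.shiftRight (V (nat_lit 11)) (S (nat_lit 59))) (nat_lit 65535)))))))) (Nat.add (Nat.add (Nat.add (Nat.add (Nat.shiftLeft (nat_lit 1) (Nat.land (Nat.shiftRight (V (nat_lit 27)) (S (nat_lit 32))) (nat_lit 65535))) (Nat.add (Nat.shiftLeft (nat_lit 1) (Nat.land (Nat.shiftRight (V (nat_lit 27)) (S (nat_lit 43))) (nat_lit 65535))) (Nat.shiftLeft (nat_lit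 1) (Nat.land (Nat.shiftRight (V (nat_lit 27)) (S (nat_lit 55))) (nat_lit 65535))))) (Nat.add (Nat.shiftLeft (nat_lit 1) (Nat.land (Nat.shiftRight (V (nat_lit 27)) (S (nat_lit 57))) (nat_lit 65535))) (Nat.add (Nat.shiftLeft (nat_lit 1) (Nat.land (Nat.shiftRight (V (nat_lit 29)) (S (nat_lit 34))) (nat_lit 65535))) (Nat.shiftLeft (nat_lit 1) (Nat.land (Nat.shiftRight (V (nat_lit 29)) (S (nat_lit 42))) (nat_lit 65535)))))) (Nat.add (Nat.add (Nat.shiftLeft (nat_lit 1) (Nat.land (Nat.shiftRight (V (nat_lit 29)) (S (nat_lit 46))) (nat_lit 65535))) (Nat.add (Nat.shiftLeft (nat_lit 1) (Nat.land (Nat.shiftRight (V (nat_lit 29)) (S (nat_lit 56))) (nat_lit 65535))) (Nat.shiftLeft (nat_lit 1) (Nat.land (Nat.shiftRight (V (nat_lit 30)) (S (nat_lit 3))) (nat_lit 65535))))) (Nat.add (Nat.shiftLeft (nat_lit 1) (Nat.land (Nat.shiftRight (V (nat_lit 30)) (S (nat_lit 41))) (nat_lit 65535)))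 (Nat.add (Nat.shiftLeft (nat_lit 1) (Nat.land (Nat.shiftRight (V (nat_lit 31)) (S (nat_lit 5))) (nat_lit 65535))) (Nat.shiftLeft (nat_lit 1) (Nat.land (Nat.shiftRight (V (nat_lit 31)) (S (nat_lit 39))) (nat_lit 65535))))))) (Nat.add (Nat.add (Nat.add (Nat.shiftLeft (nat_lit 1) (Nat.land (Nat.shiftRight (V (nat_lit 32)) (S (nat_lit 6))) (nat_lit 65535))) (Nat.add (Nat.shiftLeft (nat_lit 1) (Nat.land (Nat.shiftRight (V (nat_lit 32)) (S (nat_lit 11))) (nat_lit 65535))) (Nat.shiftLeft (nat_lit 1) (Nat.land (Nat.shiftRight (V (nat_lit 32)) (S (nat_lit 27))) (nat_lit 65535))))) (Nat.add (Nat.shiftLeft (nat_lit 1) (Nat.land (Nat.shiftRight (V (nat_lit 32)) (S (nat_lit 52))) (nat_lit 65535))) (Nat.add (Nat.shiftLeft (nat_lit 1) (Nat.land (Nat.shiftRight (V (nat_lit 33)) (S (nat_lit 3))) (nat_lit 65535))) (Nat.shiftLeft (nat_lit 1) (Nat.land (Nat.shiftRight (V (nat_lit 33))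 (S (nat_lit 53))) (nat_lit 65535)))))) (Nat.add (Nat.add (Nat.shiftLeft (nat_lit 1) (Nat.land (Nat.shiftRight (V (nat_lit 34)) (S (nat_lit 6))) (nat_lit 65535))) (Nat.add (Nat.shiftLeft (nat_lit 1) (Nat.land (Nat.shiftRight (V (nat_lit 34)) (S (nat_lit 11))) (nat_lit 65535))) (Nat.shiftLeft (nat_lit 1) (Nat.land (Nat.shiftRight (V (nat_lit 34)) (S (nat_lit 29))) (nat_lit 65535))))) (Nat.add (Nat.shiftLeft (nat_lit 1) (Nat.land (Nat.shiftRight (V (nat_lit 34)) (S (nat_lit 41))) (nat_lit 65535))) (Nat.add (Nat.shiftLeft (nat_lit 1) (Nat.land (Nat.shiftRight (V (nat_lit 35)) (S (nat_lit 5))) (nat_lit 65535))) (Nat.shiftLeft (nat_lit 1) (Nat.land (Nat.shiftRight (V (nat_lit 35)) (S (nat_lit 52))) (nat_lit 65535))))))))) (Nat.add (Nat.add (Nat.add (Nat.add (Nat.add (Nat.shiftLeft (nat_lit 1) (Nat.land (Nat.shiftRight (V (nat_lit 39)) (S (nat_lit 31))) (nat_lit 65535)))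 (Nat.add (Nat.shiftLeft (nat_lit 1) (Nat.land (Nat.shiftRight (V (nat_lit 39)) (S (nat_lit 44))) (nat_lit 65535))) (Nat.shiftLeft (nat_lit 1) (Nat.land (Nat.shiftRight (V (nat_lit 39)) (S (nat_lit 54))) (nat_lit 65535))))) (Nat.add (Nat.shiftLeft (nat_lit 1) (Nat.land (Nat.shiftRight (V (nat_lit 39)) (S (nat_lit 58))) (nat_lit 65535))) (Nat.add (Nat.shiftLeft (nat_lit 1) (Nat.land (Nat.shiftRight (V (nat_lit 41)) (S (nat_lit 30))) (nat_lit 65535))) (Nat.shiftLeft (nat_lit 1) (Nat.land (Nat.shiftRight (V (nat_lit 41)) (S (nat_lit 34))) (nat_lit 65535)))))) (Nat.add (Nat.add (Nat.shiftLeft (nat_lit 1) (Nat.land (Nat.shiftRight (V (nat_lit 41)) (S (nat_lit 46))) (nat_lit 65535))) (Nat.add (Nat.shiftLeft (nat_lit 1) (Nat.land (Nat.shiftRight (V (nat_lit 41)) (S (nat_lit 59))) (nat_lit 65535))) (Nat.shiftLeft (nat_lit 1) (Nat.land (Nat.shiftRight (V (nat_lit 42)) (S (nat_lit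 6))) (nat_lit 65535))))) (Nat.add (Nat.shiftLeft (nat_lit 1) (Nat.land (Nat.shiftRight (V (nat_lit 42)) (S (nat_lit 29))) (nat_lit 65535))) (Nat.add (Nat.shiftLeft (nat_lit 1) (Nat.land (Nat.shiftRight (V (nat_lit 43)) (S (nat_lit 8))) (nat_lit 65535))) (Nat.shiftLeft (nat_lit 1) (Nat.land (Nat.shiftRight (V (nat_lit 43)) (S (nat_lit 27))) (nat_lit 65535))))))) (Nat.add (Nat.add (Nat.add (Nat.shiftLeft (nat_lit 1) (Nat.land (Nat.shiftRight (V (nat_lit 44)) (S (nat_lit 3))) (nat_lit 65535))) (Nat.add (Nat.shiftLeft (nat_lit 1) (Nat.land (Nat.shiftRight (V (nat_lit 44)) (S (nat_lit 10))) (nat_lit 65535))) (Nat.shiftLeft (nat_lit 1) (Nat.land (Nat.shiftRight (V (nat_lit 44)) (S (nat_lit 39))) (nat_lit 65535))))) (Nat.add (Nat.shiftLeft (nat_lit 1) (Nat.land (Nat.shiftRight (V (nat_lit 44)) (S (nat_lit 53))) (nat_lit 65535))) (Nat.add (Nat.shiftLeft (nat_lit 1) (Nat.land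 (Nat.shiftRight (V (nat_lit 45)) (S (nat_lit 6))) (nat_lit 65535))) (Nat.shiftLeft (nat_lit 1) (Nat.land (Nat.shiftRight (V (nat_lit 45)) (S (nat_lit 52))) (nat_lit 65535)))))) (Nat.add (Nat.add (Nat.shiftLeft (nat_lit 1) (Nat.land (Nat.shiftRight (V (nat_lit 46)) (S (nat_lit 3))) (nat_lit 65535))) (Nat.add (Nat.shiftLeft (nat_lit 1) (Nat.land (Nat.shiftRight (V (nat_lit 46)) (S (nat_lit 10))) (nat_lit 65535))) (Nat.shiftLeft (nat_lit 1) (Nat.land (Nat.shiftRight (V (nat_lit 46)) (S (nat_lit 29))) (nat_lit 65535))))) (Nat.add (Nat.shiftLeft (nat_lit 1) (Nat.land (Nat.shiftRight (V (nat_lit 46)) (S (nat_lit 41))) (nat_lit 65535))) (Nat.add (Nat.shiftLeft (nat_lit 1) (Nat.land (Nat.shiftRight (V (nat_lit 47)) (S (nat_lit 8))) (nat_lit 65535))) (Nat.shiftLeft (nat_lit 1) (Nat.land (Nat.shiftRight (V (nat_lit 47)) (S (nat_lit 53))) (nat_lit 65535)))))))) (Nat.add (Nat.add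 (Nat.add (Nat.add (Nat.shiftLeft (nat_lit 1) (Nat.land (Nat.shiftRight (V (nat_lit 52)) (S (nat_lit 32))) (nat_lit 65535))) (Nat.add (Nat.shiftLeft (nat_lit 1) (Nat.land (Nat.shiftRight (V (nat_lit 52)) (S (nat_lit 35))) (nat_lit 65535))) (Nat.shiftLeft (nat_lit 1) (Nat.land (Nat.shiftRight (V (nat_lit 52)) (S (nat_lit 45))) (nat_lit 65535))))) (Nat.add (Nat.shiftLeft (nat_lit 1) (Nat.land (Nat.shiftRight (V (nat_lit 52)) (S (nat_lit 57))) (nat_lit 65535))) (Nat.add (Nat.shiftLeft (nat_lit 1) (Nat.land (Nat.shiftRight (V (nat_lit 53)) (S (nat_lit 33))) (nat_lit 65535))) (Nat.shiftLeft (nat_lit 1) (Nat.land (Nat.shiftRight (V (nat_lit 53)) (S (nat_lit 44))) (nat_lit 65535)))))) (Nat.add (Nat.add (Nat.shiftLeft (nat_lit 1) (Nat.land (Nat.shiftRight (V (nat_lit 53)) (S (nat_lit 47))) (nat_lit 65535))) (Nat.add (Nat.shiftLeft (nat_lit 1) (Nat.land (Nat.shiftRight (V (nat_lit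 53)) (S (nat_lit 54))) (nat_lit 65535))) (Nat.shiftLeft (nat_lit 1) (Nat.land (Nat.shiftRight (V (nat_lit 54)) (S (nat_lit 5))) (nat_lit 65535))))) (Nat.add (Nat.shiftLeft (nat_lit 1) (Nat.land (Nat.shiftRight (V (nat_lit 54)) (S (nat_lit 8))) (nat_lit 65535))) (Nat.add (Nat.shiftLeft (nat_lit 1) (Nat.land (Nat.shiftRight (V (nat_lit 54)) (S (nat_lit 39))) (nat_lit 65535))) (Nat.shiftLeft (nat_lit 1) (Nat.land (Nat.shiftRight (V (nat_lit 54)) (S (nat_lit 53))) (nat_lit 65535))))))) (Nat.add (Nat.add (Nat.add (Nat.shiftLeft (nat_lit 1) (Nat.land (Nat.shiftRight (V (nat_lit 55)) (S (nat_lit 11))) (nat_lit 65535))) (Nat.add (Nat.shiftLeft (nat_lit 1) (Nat.land (Nat.shiftRight (V (nat_lit 55)) (S (nat_lit 27))) (nat_lit 65535))) (Nat.shiftLeft (nat_lit 1) (Nat.land (Nat.shiftRight (V (nat_lit 56)) (S (nat_lit 10))) (nat_lit 65535))))) (Nat.add (Nat.shiftLeft (nat_lit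 1) (Nat.land (Nat.shiftRight (V (nat_lit 56)) (S (nat_lit 29))) (nat_lit 65535))) (Nat.add (Nat.shiftLeft (nat_lit 1) (Nat.land (Nat.shiftRight (V (nat_lit 57)) (S (nat_lit 5))) (nat_lit 65535))) (Nat.shiftLeft (nat_lit 1) (Nat.land (Nat.shiftRight (V (nat_lit 57)) (S (nat_lit 8))) (nat_lit 65535)))))) (Nat.add (Nat.add (Nat.shiftLeft (nat_lit 1) (Nat.land (Nat.shiftRight (V (nat_lit 57)) (S (nat_lit 27))) (nat_lit 65535))) (Nat.add (Nat.shiftLeft (nat_lit 1) (Nat.land (Nat.shiftRight (V (nat_lit 57)) (S (nat_lit 52))) (nat_lit 65535))) (Nat.shiftLeft (nat_lit 1) (Nat.land (Nat.shiftRight (V (nat_lit 58)) (S (nat_lit 10))) (nat_lit 65535))))) (Nat.add (Nat.shiftLeft (nat_lit 1) (Nat.land (Nat.shiftRight (V (nat_lit 58)) (S (nat_lit 39))) (nat_lit 65535))) (Nat.add (Nat.shiftLeft (nat_lit 1) (Nat.land (Nat.shiftRight (V (nat_lit 59)) (S (nat_lit 11))) (nat_lit 65535)))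 (Nat.shiftLeft (nat_lit 1) (Nat.land (Nat.shiftRight (V (nat_lit 59)) (S (nat_lit 41))) (nat_lit 65535)))))))))
def E88_2 (V S : ℕ → ℕ) : ℕ := Nat.add (Nat.add (Nat.add (Nat.add (Nat.add (Nat.shiftLeft (nat_lit 1) (Nat.land (Nat.shiftRight (V (nat_lit 3)) (S (nat_lit 35))) (nat_lit 65535))) (Nat.add (Nat.shiftLeft (nat_lit 1) (Nat.land (Nat.shiftRight (V (nat_lit 3)) (S (nat_lit 45))) (nat_lit 65535))) (Nat.shiftLeft (nat_lit 1) (Nat.land (Nat.shiftRight (V (nat_lit 5)) (S (nat_lit 30))) (nat_lit 65535))))) (Nat.add (Nat.shiftLeft (nat_lit 1) (Nat.land (Nat.shiftRight (V (nat_lit 5)) (S (nat_lit 59))) (nat_lit 65535))) (Nat.add (Nat.shiftLeft (nat_lit 1) (Nat.land (Nat.shiftRight (V (nat_lit 6)) (S (nat_lit 33))) (nat_lit 65535))) (Nat.shiftLeft (nat_lit 1) (Nat.land (Nat.shiftRight (V (nat_lit 6)) (S (nat_lit 47))) (nat_lit 65535)))))) (Nat.add (Nat.add (Nat.shiftLeft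 (nat_lit 1) (Nat.land (Nat.shiftRight (V (nat_lit 8)) (S (nat_lit 42))) (nat_lit 65535))) (Nat.add (Nat.shiftLeft (nat_lit 1) (Nat.land (Nat.shiftRight (V (nat_lit 8)) (S (nat_lit 56))) (nat_lit 65535))) (Nat.shiftLeft (nat_lit 1) (Nat.land (Nat.shiftRight (V (nat_lit 10)) (S (nat_lit 43))) (nat_lit 65535))))) (Nat.add (Nat.shiftLeft (nat_lit 1) (Nat.land (Nat.shiftRight (V (nat_lit 10)) (S (nat_lit 55))) (nat_lit 65535))) (Nat.add (Nat.shiftLeft (nat_lit 1) (Nat.land (Nat.shiftRight (V (nat_lit 11)) (S (nat_lit 31))) (nat_lit 65535))) (Nat.shiftLeft (nat_lit 1) (Nat.land (Nat.shiftRight (V (nat_lit 11)) (S (nat_lit 58))) (nat_lit 65535))))))) (Nat.add (Nat.add (Nat.add (Nat.shiftLeft (nat_lit 1) (Nat.land (Nat.shiftRight (V (nat_lit 27)) (S (nat_lit 56))) (nat_lit 65535))) (Nat.add (Nat.shiftLeft (nat_lit 1) (Nat.land (Nat.shiftRight (V (nat_lit 27)) (S (nat_lit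 58))) (nat_lit 65535))) (Nat.shiftLeft (nat_lit 1) (Nat.land (Nat.shiftRight (V (nat_lit 29)) (S (nat_lit 43))) (nat_lit 65535))))) (Nat.add (Nat.shiftLeft (nat_lit 1) (Nat.land (Nat.shiftRight (V (nat_lit 29)) (S (nat_lit 47))) (nat_lit 65535))) (Nat.add (Nat.shiftLeft (nat_lit 1) (Nat.land (Nat.shiftRight (V (nat_lit 30)) (S (nat_lit 5))) (nat_lit 65535))) (Nat.shiftLeft (nat_lit 1) (Nat.land (Nat.shiftRight (V (nat_lit 30)) (S (nat_lit 52))) (nat_lit 65535)))))) (Nat.add (Nat.add (Nat.shiftLeft (nat_lit 1) (Nat.land (Nat.shiftRight (V (nat_lit 31)) (S (nat_lit 11))) (nat_lit 65535))) (Nat.add (Nat.shiftLeft (nat_lit 1) (Nat.land (Nat.shiftRight (V (nat_lit 31)) (S (nat_lit 41))) (nat_lit 65535))) (Nat.shiftLeft (nat_lit 1) (Nat.land (Nat.shiftRight (V (nat_lit 33)) (S (nat_lit 6))) (nat_lit 65535))))) (Nat.add (Nat.shiftLeft (nat_lit 1) (Nat.land (Nat.shiftRight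 (V (nat_lit 33)) (S (nat_lit 52))) (nat_lit 65535))) (Nat.add (Nat.shiftLeft (nat_lit 1) (Nat.land (Nat.shiftRight (V (nat_lit 35)) (S (nat_lit 3))) (nat_lit 65535))) (Nat.shiftLeft (nat_lit 1) (Nat.land (Nat.shiftRight (V (nat_lit 35)) (S (nat_lit 41))) (nat_lit 65535)))))))) (Nat.add (Nat.add (Nat.add (Nat.add (Nat.shiftLeft (nat_lit 1) (Nat.land (Nat.shiftRight (V (nat_lit 39)) (S (nat_lit 55))) (nat_lit 65535))) (Nat.add (Nat.shiftLeft (nat_lit 1) (Nat.land (Nat.shiftRight (V (nat_lit 39)) (S (nat_lit 59))) (nat_lit 65535))) (Nat.shiftLeft (nat_lit 1) (Nat.land (Nat.shiftRight (V (nat_lit 41)) (S (nat_lit 31))) (nat_lit 65535))))) (Nat.add (Nat.shiftLeft (nat_lit 1) (Nat.land (Nat.shiftRight (V (nat_lit 41)) (S (nat_lit 35))) (nat_lit 65535))) (Nat.add (Nat.shiftLeft (nat_lit 1) (Nat.land (Nat.shiftRight (V (nat_lit 42)) (S (nat_lit 8))) (nat_lit 65535))) (Nat.shiftLeft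 (nat_lit 1) (Nat.land (Nat.shiftRight (V (nat_lit 42)) (S (nat_lit 53))) (nat_lit 65535)))))) (Nat.add (Nat.add (Nat.shiftLeft (nat_lit 1) (Nat.land (Nat.shiftRight (V (nat_lit 43)) (S (nat_lit 10))) (nat_lit 65535))) (Nat.add (Nat.shiftLeft (nat_lit 1) (Nat.land (Nat.shiftRight (V (nat_lit 43)) (S (nat_lit 29))) (nat_lit 65535))) (Nat.shiftLeft (nat_lit 1) (Nat.land (Nat.shiftRight (V (nat_lit 45)) (S (nat_lit 3))) (nat_lit 65535))))) (Nat.add (Nat.shiftLeft (nat_lit 1) (Nat.land (Nat.shiftRight (V (nat_lit 45)) (S (nat_lit 53))) (nat_lit 65535))) (Nat.add (Nat.shiftLeft (nat_lit 1) (Nat.land (Nat.shiftRight (V (nat_lit 47)) (S (nat_lit 6))) (nat_lit 65535))) (Nat.shiftLeft (nat_lit 1) (Nat.land (Nat.shiftRight (V (nat_lit 47)) (S (nat_lit 29))) (nat_lit 65535))))))) (Nat.add (Nat.add (Nat.add (Nat.shiftLeft (nat_lit 1) (Nat.land (Nat.shiftRight (V (nat_lit 52))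 (S (nat_lit 30))) (nat_lit 65535))) (Nat.add (Nat.shiftLeft (nat_lit 1) (Nat.land (Nat.shiftRight (V (nat_lit 52)) (S (nat_lit 33))) (nat_lit 65535))) (Nat.shiftLeft (nat_lit 1) (Nat.land (Nat.shiftRight (V (nat_lit 53)) (S (nat_lit 42))) (nat_lit 65535))))) (Nat.add (Nat.shiftLeft (nat_lit 1) (Nat.land (Nat.shiftRight (V (nat_lit 53)) (S (nat_lit 45))) (nat_lit 65535))) (Nat.add (Nat.shiftLeft (nat_lit 1) (Nat.land (Nat.shiftRight (V (nat_lit 55)) (S (nat_lit 10))) (nat_lit 65535))) (Nat.shiftLeft (nat_lit 1) (Nat.land (Nat.shiftRight (V (nat_lit 55)) (S (nat_lit 39))) (nat_lit 65535)))))) (Nat.add (Nat.add (Nat.shiftLeft (nat_lit 1) (Nat.land (Nat.shiftRight (V (nat_lit 56)) (S (nat_lit 8))) (nat_lit 65535))) (Nat.add (Nat.shiftLeft (nat_lit 1) (Nat.land (Nat.shiftRight (V (nat_lit 56)) (S (nat_lit 27))) (nat_lit 65535))) (Nat.shiftLeft (nat_lit 1) (Nat.land (Nat.shiftRight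 (V (nat_lit 58)) (S (nat_lit 11))) (nat_lit 65535))))) (Nat.add (Nat.shiftLeft (nat_lit 1) (Nat.land (Nat.shiftRight (V (nat_lit 58)) (S (nat_lit 27))) (nat_lit 65535))) (Nat.add (Nat.shiftLeft (nat_lit 1) (Nat.land (Nat.shiftRight (V (nat_lit 59)) (S (nat_lit 5))) (nat_lit 65535))) (Nat.shiftLeft (nat_lit 1) (Nat.land (Nat.shiftRight (V (nat_lit 59)) (S (nat_lit 39))) (nat_lit 65535))))))))
def E89_2 (V S : ℕ → ℕ) : ℕ := Nat.add (Nat.add (Nat.add (Nat.add (Nat.add (Nat.add (Nat.shiftLeft (nat_lit 1) (Nat.land (Nat.shiftRight (V (nat_lit 4)) (S (nat_lit 12))) (nat_lit 65535))) (Nat.shiftLeft (nat_lit 1) (Nat.land (Nat.shiftRight (V (nat_lit 4)) (S (nat_lit 14))) (nat_lit 65535)))) (Nat.add (Nat.shiftLeft (nat_lit 1) (Nat.land (Nat.shiftRight (V (nat_lit 4)) (S (nat_lit 42))) (nat_lit 65535))) (Nat.shiftLeft (nat_lit 1) (Nat.land (Nat.shiftRight (V (nat_lit 4)) (S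 (nat_lit 45))) (nat_lit 65535))))) (Nat.add (Nat.add (Nat.shiftLeft (nat_lit 1) (Nat.land (Nat.shiftRight (V (nat_lit 4)) (S (nat_lit 55))) (nat_lit 65535))) (Nat.shiftLeft (nat_lit 1) (Nat.land (Nat.shiftRight (V (nat_lit 4)) (S (nat_lit 59))) (nat_lit 65535)))) (Nat.add (Nat.shiftLeft (nat_lit 1) (Nat.land (Nat.shiftRight (V (nat_lit 7)) (S (nat_lit 13))) (nat_lit 65535))) (Nat.add (Nat.shiftLeft (nat_lit 1) (Nat.land (Nat.shiftRight (V (nat_lit 7)) (S (nat_lit 14))) (nat_lit 65535))) (Nat.shiftLeft (nat_lit 1) (Nat.land (Nat.shiftRight (V (nat_lit 7)) (S (nat_lit 30))) (nat_lit 65535))))))) (Nat.add (Nat.add (Nat.add (Nat.shiftLeft (nat_lit 1) (Nat.land (Nat.shiftRight (V (nat_lit 7)) (S (nat_lit 33))) (nat_lit 65535))) (Nat.shiftLeft (nat_lit 1) (Nat.land (Nat.shiftRight (V (nat_lit 7)) (S (nat_lit 56))) (nat_lit 65535)))) (Nat.add (Nat.shiftLeft (nat_lit 1) (Nat.land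 (Nat.shiftRight (V (nat_lit 7)) (S (nat_lit 58))) (nat_lit 65535))) (Nat.shiftLeft (nat_lit 1) (Nat.land (Nat.shiftRight (V (nat_lit 9)) (S (nat_lit 12))) (nat_lit 65535))))) (Nat.add (Nat.add (Nat.shiftLeft (nat_lit 1) (Nat.land (Nat.shiftRight (V (nat_lit 9)) (S (nat_lit 13))) (nat_lit 65535))) (Nat.shiftLeft (nat_lit 1) (Nat.land (Nat.shiftRight (V (nat_lit 9)) (S (nat_lit 31))) (nat_lit 65535)))) (Nat.add (Nat.shiftLeft (nat_lit 1) (Nat.land (Nat.shiftRight (V (nat_lit 9)) (S (nat_lit 35))) (nat_lit 65535))) (Nat.add (Nat.shiftLeft (nat_lit 1) (Nat.land (Nat.shiftRight (V (nat_lit 9)) (S (nat_lit 43))) (nat_lit 65535))) (Nat.shiftLeft (nat_lit 1) (Nat.land (Nat.shiftRight (V (nat_lit 9)) (S (nat_lit 47))) (nat_lit 65535)))))))) (Nat.add (Nat.add (Nat.add (Nat.add (Nat.shiftLeft (nat_lit 1) (Nat.land (Nat.shiftRight (V (nat_lit 12)) (S (nat_lit 4))) (nat_lit 65535)))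 (Nat.shiftLeft (nat_lit 1) (Nat.land (Nat.shiftRight (V (nat_lit 12)) (S (nat_lit 9))) (nat_lit 65535)))) (Nat.add (Nat.shiftLeft (nat_lit 1) (Nat.land (Nat.shiftRight (V (nat_lit 12)) (S (nat_lit 28))) (nat_lit 65535))) (Nat.shiftLeft (nat_lit 1) (Nat.land (Nat.shiftRight (V (nat_lit 12)) (S (nat_lit 51))) (nat_lit 65535))))) (Nat.add (Nat.add (Nat.shiftLeft (nat_lit 1) (Nat.land (Nat.shiftRight (V (nat_lit 13)) (S (nat_lit 7))) (nat_lit 65535))) (Nat.shiftLeft (nat_lit 1) (Nat.land (Nat.shiftRight (V (nat_lit 13)) (S (nat_lit 9))) (nat_lit 65535)))) (Nat.add (Nat.shiftLeft (nat_lit 1) (Nat.land (Nat.shiftRight (V (nat_lit 13)) (S (nat_lit 40))) (nat_lit 65535))) (Nat.add (Nat.shiftLeft (nat_lit 1) (Nat.land (Nat.shiftRight (V (nat_lit 13)) (S (nat_lit 51))) (nat_lit 65535))) (Nat.shiftLeft (nat_lit 1) (Nat.land (Nat.shiftRight (V (nat_lit 14)) (S (nat_lit 4))) (nat_lit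 65535))))))) (Nat.add (Nat.add (Nat.add (Nat.shiftLeft (nat_lit 1) (Nat.land (Nat.shiftRight (V (nat_lit 14)) (S (nat_lit 7))) (nat_lit 65535))) (Nat.shiftLeft (nat_lit 1) (Nat.land (Nat.shiftRight (V (nat_lit 14)) (S (nat_lit 28))) (nat_lit 65535)))) (Nat.add (Nat.shiftLeft (nat_lit 1) (Nat.land (Nat.shiftRight (V (nat_lit 14)) (S (nat_lit 40))) (nat_lit 65535))) (Nat.shiftLeft (nat_lit 1) (Nat.land (Nat.shiftRight (V (nat_lit 28)) (S (nat_lit 12))) (nat_lit 65535))))) (Nat.add (Nat.add (Nat.shiftLeft (nat_lit 1) (Nat.land (Nat.shiftRight (V (nat_lit 28)) (S (nat_lit 14))) (nat_lit 65535))) (Nat.shiftLeft (nat_lit 1) (Nat.land (Nat.shiftRight (V (nat_lit 28)) (S (nat_lit 31))) (nat_lit 65535)))) (Nat.add (Nat.shiftLeft (nat_lit 1) (Nat.land (Nat.shiftRight (V (nat_lit 28)) (S (nat_lit 33))) (nat_lit 65535))) (Nat.add (Nat.shiftLeft (nat_lit 1) (Nat.land (Nat.shiftRight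 (V (nat_lit 28)) (S (nat_lit 47))) (nat_lit 65535))) (Nat.shiftLeft (nat_lit 1) (Nat.land (Nat.shiftRight (V (nat_lit 28)) (S (nat_lit 58))) (nat_lit 65535))))))))) (Nat.add (Nat.add (Nat.add (Nat.add (Nat.add (Nat.shiftLeft (nat_lit 1) (Nat.land (Nat.shiftRight (V (nat_lit 30)) (S (nat_lit 7))) (nat_lit 65535))) (Nat.shiftLeft (nat_lit 1) (Nat.land (Nat.shiftRight (V (nat_lit 30)) (S (nat_lit 51))) (nat_lit 65535)))) (Nat.add (Nat.shiftLeft (nat_lit 1) (Nat.land (Nat.shiftRight (V (nat_lit 31)) (S (nat_lit 9))) (nat_lit 65535))) (Nat.shiftLeft (nat_lit 1) (Nat.land (Nat.shiftRight (V (nat_lit 31)) (S (nat_lit 28))) (nat_lit 65535))))) (Nat.add (Nat.add (Nat.shiftLeft (nat_lit 1) (Nat.land (Nat.shiftRight (V (nat_lit 33)) (S (nat_lit 7))) (nat_lit 65535))) (Nat.shiftLeft (nat_lit 1) (Nat.land (Nat.shiftRight (V (nat_lit 33)) (S (nat_lit 28))) (nat_lit 65535)))) (Nat.add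 (Nat.shiftLeft (nat_lit 1) (Nat.land (Nat.shiftRight (V (nat_lit 35)) (S (nat_lit 9))) (nat_lit 65535))) (Nat.add (Nat.shiftLeft (nat_lit 1) (Nat.land (Nat.shiftRight (V (nat_lit 35)) (S (nat_lit 40))) (nat_lit 65535))) (Nat.shiftLeft (nat_lit 1) (Nat.land (Nat.shiftRight (V (nat_lit 40)) (S (nat_lit 13))) (nat_lit 65535))))))) (Nat.add (Nat.add (Nat.add (Nat.shiftLeft (nat_lit 1) (Nat.land (Nat.shiftRight (V (nat_lit 40)) (S (nat_lit 14))) (nat_lit 65535))) (Nat.shiftLeft (nat_lit 1) (Nat.land (Nat.shiftRight (V (nat_lit 40)) (S (nat_lit 35))) (nat_lit 65535)))) (Nat.add (Nat.shiftLeft (nat_lit 1) (Nat.land (Nat.shiftRight (V (nat_lit 40)) (S (nat_lit 43))) (nat_lit 65535))) (Nat.shiftLeft (nat_lit 1) (Nat.land (Nat.shiftRight (V (nat_lit 40)) (S (nat_lit 45))) (nat_lit 65535))))) (Nat.add (Nat.add (Nat.shiftLeft (nat_lit 1) (Nat.land (Nat.shiftRight (V (nat_lit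 40)) (S (nat_lit 55))) (nat_lit 65535))) (Nat.shiftLeft (nat_lit 1) (Nat.land (Nat.shiftRight (V (nat_lit 42)) (S (nat_lit 4))) (nat_lit 65535)))) (Nat.add (Nat.shiftLeft (nat_lit 1) (Nat.land (Nat.shiftRight (V (nat_lit 42)) (S (nat_lit 51))) (nat_lit 65535))) (Nat.add (Nat.shiftLeft (nat_lit 1) (Nat.land (Nat.shiftRight (V (nat_lit 43)) (S (nat_lit 9))) (nat_lit 65535))) (Nat.shiftLeft (nat_lit 1) (Nat.land (Nat.shiftRight (V (nat_lit 43)) (S (nat_lit 40))) (nat_lit 65535)))))))) (Nat.add (Nat.add (Nat.add (Nat.add (Nat.shiftLeft (nat_lit 1) (Nat.land (Nat.shiftRight (V (nat_lit 45)) (S (nat_lit 4))) (nat_lit 65535))) (Nat.shiftLeft (nat_lit 1) (Nat.land (Nat.shiftRight (V (nat_lit 45)) (S (nat_lit 40))) (nat_lit 65535)))) (Nat.add (Nat.shiftLeft (nat_lit 1) (Nat.land (Nat.shiftRight (V (nat_lit 47)) (S (nat_lit 9))) (nat_lit 65535))) (Nat.shiftLeft (nat_lit 1)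 (Nat.land (Nat.shiftRight (V (nat_lit 47)) (S (nat_lit 28))) (nat_lit 65535))))) (Nat.add (Nat.add (Nat.shiftLeft (nat_lit 1) (Nat.land (Nat.shiftRight (V (nat_lit 51)) (S (nat_lit 12))) (nat_lit 65535))) (Nat.shiftLeft (nat_lit 1) (Nat.land (Nat.shiftRight (V (nat_lit 51)) (S (nat_lit 13))) (nat_lit 65535)))) (Nat.add (Nat.shiftLeft (nat_lit 1) (Nat.land (Nat.shiftRight (V (nat_lit 51)) (S (nat_lit 30))) (nat_lit 65535))) (Nat.add (Nat.shiftLeft (nat_lit 1) (Nat.land (Nat.shiftRight (V (nat_lit 51)) (S (nat_lit 42))) (nat_lit 65535))) (Nat.shiftLeft (nat_lit 1) (Nat.land (Nat.shiftRight (V (nat_lit 51)) (S (nat_lit 56))) (nat_lit 65535))))))) (Nat.add (Nat.add (Nat.add (Nat.shiftLeft (nat_lit 1) (Nat.land (Nat.shiftRight (V (nat_lit 51)) (S (nat_lit 59))) (nat_lit 65535))) (Nat.shiftLeft (nat_lit 1) (Nat.land (Nat.shiftRight (V (nat_lit 55)) (S (nat_lit 4))) (nat_lit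 65535)))) (Nat.add (Nat.shiftLeft (nat_lit 1) (Nat.land (Nat.shiftRight (V (nat_lit 55)) (S (nat_lit 40))) (nat_lit 65535))) (Nat.shiftLeft (nat_lit 1) (Nat.land (Nat.shiftRight (V (nat_lit 56)) (S (nat_lit 7))) (nat_lit 65535))))) (Nat.add (Nat.add (Nat.shiftLeft (nat_lit 1) (Nat.land (Nat.shiftRight (V (nat_lit 56)) (S (nat_lit 51))) (nat_lit 65535))) (Nat.shiftLeft (nat_lit 1) (Nat.land (Nat.shiftRight (V (nat_lit 58)) (S (nat_lit 7))) (nat_lit 65535)))) (Nat.add (Nat.shiftLeft (nat_lit 1) (Nat.land (Nat.shiftRight (V (nat_lit 58)) (S (nat_lit 28))) (nat_lit 65535))) (Nat.add (Nat.shiftLeft (nat_lit 1) (Nat.land (Nat.shiftRight (V (nat_lit 59)) (S (nat_lit 4))) (nat_lit 65535))) (Nat.shiftLeft (nat_lit 1) (Nat.land (Nat.shiftRight (V (nat_lit 59)) (S (nat_lit 51))) (nat_lit 65535)))))))))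
def E90_2 (V S : ℕ → ℕ) : ℕ := Nat.add (Nat.add (Nat.add (Nat.add (Nat.add (Nat.add (Nat.shiftLeft (nat_lit 1) (Nat.land (Nat.shiftRight (V (nat_lit 4)) (S (nat_lit 18))) (nat_lit 65535))) (Nat.add (Nat.shiftLeft (nat_lit 1) (Nat.land (Nat.shiftRight (V (nat_lit 4)) (S (nat_lit 22))) (nat_lit 65535))) (Nat.shiftLeft (nat_lit 1) (Nat.land (Nat.shiftRight (V (nat_lit 4)) (S (nat_lit 36))) (nat_lit 65535))))) (Nat.add (Nat.shiftLeft (nat_lit 1) (Nat.land (Nat.shiftRight (V (nat_lit 4)) (S (nat_lit 44))) (nat_lit 65535))) (Nat.add (Nat.shiftLeft (nat_lit 1) (Nat.land (Nat.shiftRight (V (nat_lit 4)) (S (nat_lit 49))) (nat_lit 65535))) (Nat.shiftLeft (nat_lit 1) (Nat.land (Nat.shiftRight (V (nat_lit 4)) (S (nat_lit 54))) (nat_lit 65535)))))) (Nat.add (Nat.add (Nat.shiftLeft (nat_lit 1) (Nat.land (Nat.shiftRight (V (nat_lit 7)) (S (nat_lit 15))) (nat_lit 65535))) (Nat.add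 (Nat.shiftLeft (nat_lit 1) (Nat.land (Nat.shiftRight (V (nat_lit 7)) (S (nat_lit 23))) (nat_lit 65535))) (Nat.shiftLeft (nat_lit 1) (Nat.land (Nat.shiftRight (V (nat_lit 7)) (S (nat_lit 24))) (nat_lit 65535))))) (Nat.add (Nat.shiftLeft (nat_lit 1) (Nat.land (Nat.shiftRight (V (nat_lit 7)) (S (nat_lit 32))) (nat_lit 65535))) (Nat.add (Nat.shiftLeft (nat_lit 1) (Nat.land (Nat.shiftRight (V (nat_lit 7)) (S (nat_lit 50))) (nat_lit 65535))) (Nat.shiftLeft (nat_lit 1) (Nat.land (Nat.shiftRight (V (nat_lit 7)) (S (nat_lit 57))) (nat_lit 65535))))))) (Nat.add (Nat.add (Nat.add (Nat.shiftLeft (nat_lit 1) (Nat.land (Nat.shiftRight (V (nat_lit 9)) (S (nat_lit 16))) (nat_lit 65535))) (Nat.add (Nat.shiftLeft (nat_lit 1) (Nat.land (Nat.shiftRight (V (nat_lit 9)) (S (nat_lit 19))) (nat_lit 65535))) (Nat.shiftLeft (nat_lit 1) (Nat.land (Nat.shiftRight (V (nat_lit 9)) (S (nat_lit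 25))) (nat_lit 65535))))) (Nat.add (Nat.shiftLeft (nat_lit 1) (Nat.land (Nat.shiftRight (V (nat_lit 9)) (S (nat_lit 34))) (nat_lit 65535))) (Nat.add (Nat.shiftLeft (nat_lit 1) (Nat.land (Nat.shiftRight (V (nat_lit 9)) (S (nat_lit 37))) (nat_lit 65535))) (Nat.shiftLeft (nat_lit 1) (Nat.land (Nat.shiftRight (V (nat_lit 9)) (S (nat_lit 46))) (nat_lit 65535)))))) (Nat.add (Nat.add (Nat.shiftLeft (nat_lit 1) (Nat.land (Nat.shiftRight (V (nat_lit 15)) (S (nat_lit 7))) (nat_lit 65535))) (Nat.add (Nat.shiftLeft (nat_lit 1) (Nat.land (Nat.shiftRight (V (nat_lit 15)) (S (nat_lit 19))) (nat_lit 65535))) (Nat.shiftLeft (nat_lit 1) (Nat.land (Nat.shiftRight (V (nat_lit 15)) (S (nat_lit 22))) (nat_lit 65535))))) (Nat.add (Nat.shiftLeft (nat_lit 1) (Nat.land (Nat.shiftRight (V (nat_lit 15)) (S (nat_lit 40))) (nat_lit 65535))) (Nat.add (Nat.shiftLeft (nat_lit 1) (Nat.land (Nat.shiftRight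 (V (nat_lit 16)) (S (nat_lit 9))) (nat_lit 65535))) (Nat.shiftLeft (nat_lit 1) (Nat.land (Nat.shiftRight (V (nat_lit 16)) (S (nat_lit 18))) (nat_lit 65535)))))))) (Nat.add (Nat.add (Nat.add (Nat.add (Nat.shiftLeft (nat_lit 1) (Nat.land (Nat.shiftRight (V (nat_lit 16)) (S (nat_lit 23))) (nat_lit 65535))) (Nat.add (Nat.shiftLeft (nat_lit 1) (Nat.land (Nat.shiftRight (V (nat_lit 16)) (S (nat_lit 51))) (nat_lit 65535))) (Nat.shiftLeft (nat_lit 1) (Nat.land (Nat.shiftRight (V (nat_lit 18)) (S (nat_lit 4))) (nat_lit 65535))))) (Nat.add (Nat.shiftLeft (nat_lit 1) (Nat.land (Nat.shiftRight (V (nat_lit 18)) (S (nat_lit 16))) (nat_lit 65535))) (Nat.add (Nat.shiftLeft (nat_lit 1) (Nat.land (Nat.shiftRight (V (nat_lit 18)) (S (nat_lit 23))) (nat_lit 65535))) (Nat.shiftLeft (nat_lit 1) (Nat.land (Nat.shiftRight (V (nat_lit 18)) (S (nat_lit 28))) (nat_lit 65535)))))) (Nat.add (Nat.add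 (Nat.shiftLeft (nat_lit 1) (Nat.land (Nat.shiftRight (V (nat_lit 19)) (S (nat_lit 9))) (nat_lit 65535))) (Nat.add (Nat.shiftLeft (nat_lit 1) (Nat.land (Nat.shiftRight (V (nat_lit 19)) (S (nat_lit 15))) (nat_lit 65535))) (Nat.shiftLeft (nat_lit 1) (Nat.land (Nat.shiftRight (V (nat_lit 19)) (S (nat_lit 22))) (nat_lit 65535))))) (Nat.add (Nat.shiftLeft (nat_lit 1) (Nat.land (Nat.shiftRight (V (nat_lit 19)) (S (nat_lit 51))) (nat_lit 65535))) (Nat.add (Nat.shiftLeft (nat_lit 1) (Nat.land (Nat.shiftRight (V (nat_lit 22)) (S (nat_lit 4))) (nat_lit 65535))) (Nat.shiftLeft (nat_lit 1) (Nat.land (Nat.shiftRight (V (nat_lit 22)) (S (nat_lit 15))) (nat_lit 65535))))))) (Nat.add (Nat.add (Nat.add (Nat.shiftLeft (nat_lit 1) (Nat.land (Nat.shiftRight (V (nat_lit 22)) (S (nat_lit 19))) (nat_lit 65535))) (Nat.add (Nat.shiftLeft (nat_lit 1) (Nat.land (Nat.shiftRight (V (nat_lit 22))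 (S (nat_lit 28))) (nat_lit 65535))) (Nat.shiftLeft (nat_lit 1) (Nat.land (Nat.shiftRight (V (nat_lit 23)) (S (nat_lit 7))) (nat_lit 65535))))) (Nat.add (Nat.shiftLeft (nat_lit 1) (Nat.land (Nat.shiftRight (V (nat_lit 23)) (S (nat_lit 16))) (nat_lit 65535))) (Nat.add (Nat.shiftLeft (nat_lit 1) (Nat.land (Nat.shiftRight (V (nat_lit 23)) (S (nat_lit 18))) (nat_lit 65535))) (Nat.shiftLeft (nat_lit 1) (Nat.land (Nat.shiftRight (V (nat_lit 23)) (S (nat_lit 40))) (nat_lit 65535)))))) (Nat.add (Nat.add (Nat.shiftLeft (nat_lit 1) (Nat.land (Nat.shiftRight (V (nat_lit 24)) (S (nat_lit 7))) (nat_lit 65535))) (Nat.add (Nat.shiftLeft (nat_lit 1) (Nat.land (Nat.shiftRight (V (nat_lit 24)) (S (nat_lit 37))) (nat_lit 65535))) (Nat.shiftLeft (nat_lit 1) (Nat.land (Nat.shiftRight (V (nat_lit 24)) (S (nat_lit 40))) (nat_lit 65535))))) (Nat.add (Nat.shiftLeft (nat_lit 1) (Nat.land (Nat.shiftRight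 (V (nat_lit 24)) (S (nat_lit 49))) (nat_lit 65535))) (Nat.add (Nat.shiftLeft (nat_lit 1) (Nat.land (Nat.shiftRight (V (nat_lit 25)) (S (nat_lit 9))) (nat_lit 65535))) (Nat.shiftLeft (nat_lit 1) (Nat.land (Nat.shiftRight (V (nat_lit 25)) (S (nat_lit 36))) (nat_lit 65535))))))))) (Nat.add (Nat.add (Nat.add (Nat.add (Nat.add (Nat.shiftLeft (nat_lit 1) (Nat.land (Nat.shiftRight (V (nat_lit 25)) (S (nat_lit 50))) (nat_lit 65535))) (Nat.add (Nat.shiftLeft (nat_lit 1) (Nat.land (Nat.shiftRight (V (nat_lit 25)) (S (nat_lit 51))) (nat_lit 65535))) (Nat.shiftLeft (nat_lit 1) (Nat.land (Nat.shiftRight (V (nat_lit 28)) (S (nat_lit 18))) (nat_lit 65535))))) (Nat.add (Nat.shiftLeft (nat_lit 1) (Nat.land (Nat.shiftRight (V (nat_lit 28)) (S (nat_lit 22))) (nat_lit 65535))) (Nat.add (Nat.shiftLeft (nat_lit 1) (Nat.land (Nat.shiftRight (V (nat_lit 28)) (S (nat_lit 32))) (nat_lit 65535)))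 (Nat.shiftLeft (nat_lit 1) (Nat.land (Nat.shiftRight (V (nat_lit 28)) (S (nat_lit 34))) (nat_lit 65535)))))) (Nat.add (Nat.add (Nat.shiftLeft (nat_lit 1) (Nat.land (Nat.shiftRight (V (nat_lit 28)) (S (nat_lit 36))) (nat_lit 65535))) (Nat.add (Nat.shiftLeft (nat_lit 1) (Nat.land (Nat.shiftRight (V (nat_lit 28)) (S (nat_lit 49))) (nat_lit 65535))) (Nat.shiftLeft (nat_lit 1) (Nat.land (Nat.shiftRight (V (nat_lit 32)) (S (nat_lit 7))) (nat_lit 65535))))) (Nat.add (Nat.shiftLeft (nat_lit 1) (Nat.land (Nat.shiftRight (V (nat_lit 32)) (S (nat_lit 28))) (nat_lit 65535))) (Nat.add (Nat.shiftLeft (nat_lit 1) (Nat.land (Nat.shiftRight (V (nat_lit 34)) (S (nat_lit 9))) (nat_lit 65535))) (Nat.shiftLeft (nat_lit 1) (Nat.land (Nat.shiftRight (V (nat_lit 34)) (S (nat_lit 28))) (nat_lit 65535))))))) (Nat.add (Nat.add (Nat.add (Nat.shiftLeft (nat_lit 1) (Nat.land (Nat.shiftRight (V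 (nat_lit 36)) (S (nat_lit 4))) (nat_lit 65535))) (Nat.add (Nat.shiftLeft (nat_lit 1) (Nat.land (Nat.shiftRight (V (nat_lit 36)) (S (nat_lit 25))) (nat_lit 65535))) (Nat.shiftLeft (nat_lit 1) (Nat.land (Nat.shiftRight (V (nat_lit 36)) (S (nat_lit 28))) (nat_lit 65535))))) (Nat.add (Nat.shiftLeft (nat_lit 1) (Nat.land (Nat.shiftRight (V (nat_lit 36)) (S (nat_lit 50))) (nat_lit 65535))) (Nat.add (Nat.shiftLeft (nat_lit 1) (Nat.land (Nat.shiftRight (V (nat_lit 37)) (S (nat_lit 9))) (nat_lit 65535))) (Nat.shiftLeft (nat_lit 1) (Nat.land (Nat.shiftRight (V (nat_lit 37)) (S (nat_lit 24))) (nat_lit 65535)))))) (Nat.add (Nat.add (Nat.shiftLeft (nat_lit 1) (Nat.land (Nat.shiftRight (V (nat_lit 37)) (S (nat_lit 49))) (nat_lit 65535))) (Nat.add (Nat.shiftLeft (nat_lit 1) (Nat.land (Nat.shiftRight (V (nat_lit 37)) (S (nat_lit 51))) (nat_lit 65535))) (Nat.shiftLeft (nat_lit 1)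 (Nat.land (Nat.shiftRight (V (nat_lit 40)) (S (nat_lit 15))) (nat_lit 65535))))) (Nat.add (Nat.shiftLeft (nat_lit 1) (Nat.land (Nat.shiftRight (V (nat_lit 40)) (S (nat_lit 23))) (nat_lit 65535))) (Nat.add (Nat.shiftLeft (nat_lit 1) (Nat.land (Nat.shiftRight (V (nat_lit 40)) (S (nat_lit 24))) (nat_lit 65535))) (Nat.shiftLeft (nat_lit 1) (Nat.land (Nat.shiftRight (V (nat_lit 40)) (S (nat_lit 44))) (nat_lit 65535)))))))) (Nat.add (Nat.add (Nat.add (Nat.add (Nat.shiftLeft (nat_lit 1) (Nat.land (Nat.shiftRight (V (nat_lit 40)) (S (nat_lit 46))) (nat_lit 65535))) (Nat.add (Nat.shiftLeft (nat_lit 1) (Nat.land (Nat.shiftRight (V (nat_lit 40)) (S (nat_lit 50))) (nat_lit 65535))) (Nat.shiftLeft (nat_lit 1) (Nat.land (Nat.shiftRight (V (nat_lit 44)) (S (nat_lit 4))) (nat_lit 65535))))) (Nat.add (Nat.shiftLeft (nat_lit 1) (Nat.land (Nat.shiftRight (V (nat_lit 44)) (S (nat_lit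 40))) (nat_lit 65535))) (Nat.add (Nat.shiftLeft (nat_lit 1) (Nat.land (Nat.shiftRight (V (nat_lit 46)) (S (nat_lit 9))) (nat_lit 65535))) (Nat.shiftLeft (nat_lit 1) (Nat.land (Nat.shiftRight (V (nat_lit 46)) (S (nat_lit 40))) (nat_lit 65535)))))) (Nat.add (Nat.add (Nat.shiftLeft (nat_lit 1) (Nat.land (Nat.shiftRight (V (nat_lit 49)) (S (nat_lit 4))) (nat_lit 65535))) (Nat.add (Nat.shiftLeft (nat_lit 1) (Nat.land (Nat.shiftRight (V (nat_lit 49)) (S (nat_lit 24))) (nat_lit 65535))) (Nat.shiftLeft (nat_lit 1) (Nat.land (Nat.shiftRight (V (nat_lit 49)) (S (nat_lit 28))) (nat_lit 65535))))) (Nat.add (Nat.shiftLeft (nat_lit 1) (Nat.land (Nat.shiftRight (V (nat_lit 49)) (S (nat_lit 37))) (nat_lit 65535))) (Nat.add (Nat.shiftLeft (nat_lit 1) (Nat.land (Nat.shiftRight (V (nat_lit 50)) (S (nat_lit 7))) (nat_lit 65535))) (Nat.shiftLeft (nat_lit 1) (Nat.land (Nat.shiftRight (V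 (nat_lit 50)) (S (nat_lit 25))) (nat_lit 65535))))))) (Nat.add (Nat.add (Nat.add (Nat.shiftLeft (nat_lit 1) (Nat.land (Nat.shiftRight (V (nat_lit 50)) (S (nat_lit 36))) (nat_lit 65535))) (Nat.add (Nat.shiftLeft (nat_lit 1) (Nat.land (Nat.shiftRight (V (nat_lit 50)) (S (nat_lit 40))) (nat_lit 65535))) (Nat.shiftLeft (nat_lit 1) (Nat.land (Nat.shiftRight (V (nat_lit 51)) (S (nat_lit 16))) (nat_lit 65535))))) (Nat.add (Nat.shiftLeft (nat_lit 1) (Nat.land (Nat.shiftRight (V (nat_lit 51)) (S (nat_lit 19))) (nat_lit 65535))) (Nat.add (Nat.shiftLeft (nat_lit 1) (Nat.land (Nat.shiftRight (V (nat_lit 51)) (S (nat_lit 25))) (nat_lit 65535))) (Nat.shiftLeft (nat_lit 1) (Nat.land (Nat.shiftRight (V (nat_lit 51)) (S (nat_lit 37))) (nat_lit 65535)))))) (Nat.add (Nat.add (Nat.shiftLeft (nat_lit 1) (Nat.land (Nat.shiftRight (V (nat_lit 51)) (S (nat_lit 54))) (nat_lit 65535))) (Nat.add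 (Nat.shiftLeft (nat_lit 1) (Nat.land (Nat.shiftRight (V (nat_lit 51)) (S (nat_lit 57))) (nat_lit 65535))) (Nat.shiftLeft (nat_lit 1) (Nat.land (Nat.shiftRight (V (nat_lit 54)) (S (nat_lit 4))) (nat_lit 65535))))) (Nat.add (Nat.shiftLeft (nat_lit 1) (Nat.land (Nat.shiftRight (V (nat_lit 54)) (S (nat_lit 51))) (nat_lit 65535))) (Nat.add (Nat.shiftLeft (nat_lit 1) (Nat.land (Nat.shiftRight (V (nat_lit 57)) (S (nat_lit 7))) (nat_lit 65535))) (Nat.shiftLeft (nat_lit 1) (Nat.land (Nat.shiftRight (V (nat_lit 57)) (S (nat_lit 51))) (nat_lit 65535)))))))))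
def E91_2 (V S : ℕ → ℕ) : ℕ := Nat.add (Nat.add (Nat.add (Nat.add (Nat.add (Nat.add (Nat.shiftLeft (nat_lit 1) (Nat.land (Nat.shiftRight (V (nat_lit 4)) (S (nat_lit 20))) (nat_lit 65535))) (Nat.shiftLeft (nat_lit 1) (Nat.land (Nat.shiftRight (V (nat_lit 4)) (S (nat_lit 21))) (nat_lit 65535)))) (Nat.add (Nat.shiftLeft (nat_lit 1) (Nat.land (Nat.shiftRight (V (nat_lit 4)) (S (nat_lit 38))) (nat_lit 65535))) (Nat.shiftLeft (nat_lit 1) (Nat.land (Nat.shiftRight (V (nat_lit 4)) (S (nat_lit 46))) (nat_lit 65535))))) (Nat.add (Nat.add (Nat.shiftLeft (nat_lit 1) (Nat.land (Nat.shiftRight (V (nat_lit 4)) (S (nat_lit 48))) (nat_lit 65535))) (Nat.shiftLeft (nat_lit 1) (Nat.land (Nat.shiftRight (V (nat_lit 4)) (S (nat_lit 57))) (nat_lit 65535)))) (Nat.add (Nat.shiftLeft (nat_lit 1) (Nat.land (Nat.shiftRight (V (nat_lit 7)) (S (nat_lit 17))) (nat_lit 65535))) (Nat.add (Nat.shiftLeft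 (nat_lit 1) (Nat.land (Nat.shiftRight (V (nat_lit 7)) (S (nat_lit 21))) (nat_lit 65535))) (Nat.shiftLeft (nat_lit 1) (Nat.land (Nat.shiftRight (V (nat_lit 7)) (S (nat_lit 26))) (nat_lit 65535))))))) (Nat.add (Nat.add (Nat.add (Nat.shiftLeft (nat_lit 1) (Nat.land (Nat.shiftRight (V (nat_lit 7)) (S (nat_lit 34))) (nat_lit 65535))) (Nat.shiftLeft (nat_lit 1) (Nat.land (Nat.shiftRight (V (nat_lit 7)) (S (nat_lit 48))) (nat_lit 65535)))) (Nat.add (Nat.shiftLeft (nat_lit 1) (Nat.land (Nat.shiftRight (V (nat_lit 7)) (S (nat_lit 54))) (nat_lit 65535))) (Nat.shiftLeft (nat_lit 1) (Nat.land (Nat.shiftRight (V (nat_lit 9)) (S (nat_lit 17))) (nat_lit 65535))))) (Nat.add (Nat.add (Nat.shiftLeft (nat_lit 1) (Nat.land (Nat.shiftRight (V (nat_lit 9)) (S (nat_lit 20))) (nat_lit 65535))) (Nat.shiftLeft (nat_lit 1) (Nat.land (Nat.shiftRight (V (nat_lit 9)) (S (nat_lit 26))) (nat_lit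 65535)))) (Nat.add (Nat.shiftLeft (nat_lit 1) (Nat.land (Nat.shiftRight (V (nat_lit 9)) (S (nat_lit 32))) (nat_lit 65535))) (Nat.add (Nat.shiftLeft (nat_lit 1) (Nat.land (Nat.shiftRight (V (nat_lit 9)) (S (nat_lit 38))) (nat_lit 65535))) (Nat.shiftLeft (nat_lit 1) (Nat.land (Nat.shiftRight (V (nat_lit 9)) (S (nat_lit 44))) (nat_lit 65535)))))))) (Nat.add (Nat.add (Nat.add (Nat.add (Nat.shiftLeft (nat_lit 1) (Nat.land (Nat.shiftRight (V (nat_lit 17)) (S (nat_lit 7))) (nat_lit 65535))) (Nat.shiftLeft (nat_lit 1) (Nat.land (Nat.shiftRight (V (nat_lit 17)) (S (nat_lit 9))) (nat_lit 65535)))) (Nat.add (Nat.shiftLeft (nat_lit 1) (Nat.land (Nat.shiftRight (V (nat_lit 17)) (S (nat_lit 40))) (nat_lit 65535))) (Nat.shiftLeft (nat_lit 1) (Nat.land (Nat.shiftRight (V (nat_lit 17)) (S (nat_lit 51))) (nat_lit 65535))))) (Nat.add (Nat.add (Nat.shiftLeft (nat_lit 1) (Nat.land (Nat.shiftRight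 (V (nat_lit 20)) (S (nat_lit 4))) (nat_lit 65535))) (Nat.shiftLeft (nat_lit 1) (Nat.land (Nat.shiftRight (V (nat_lit 20)) (S (nat_lit 9))) (nat_lit 65535)))) (Nat.add (Nat.shiftLeft (nat_lit 1) (Nat.land (Nat.shiftRight (V (nat_lit 20)) (S (nat_lit 28))) (nat_lit 65535))) (Nat.add (Nat.shiftLeft (nat_lit 1) (Nat.land (Nat.shiftRight (V (nat_lit 20)) (S (nat_lit 51))) (nat_lit 65535))) (Nat.shiftLeft (nat_lit 1) (Nat.land (Nat.shiftRight (V (nat_lit 21)) (S (nat_lit 4))) (nat_lit 65535))))))) (Nat.add (Nat.add (Nat.add (Nat.shiftLeft (nat_lit 1) (Nat.land (Nat.shiftRight (V (nat_lit 21)) (S (nat_lit 7))) (nat_lit 65535))) (Nat.shiftLeft (nat_lit 1) (Nat.land (Nat.shiftRight (V (nat_lit 21)) (S (nat_lit 28))) (nat_lit 65535)))) (Nat.add (Nat.shiftLeft (nat_lit 1) (Nat.land (Nat.shiftRight (V (nat_lit 21)) (S (nat_lit 40))) (nat_lit 65535))) (Nat.shiftLeft (nat_lit 1)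 (Nat.land (Nat.shiftRight (V (nat_lit 26)) (S (nat_lit 7))) (nat_lit 65535))))) (Nat.add (Nat.add (Nat.shiftLeft (nat_lit 1) (Nat.land (Nat.shiftRight (V (nat_lit 26)) (S (nat_lit 9))) (nat_lit 65535))) (Nat.shiftLeft (nat_lit 1) (Nat.land (Nat.shiftRight (V (nat_lit 26)) (S (nat_lit 40))) (nat_lit 65535)))) (Nat.add (Nat.shiftLeft (nat_lit 1) (Nat.land (Nat.shiftRight (V (nat_lit 26)) (S (nat_lit 51))) (nat_lit 65535))) (Nat.add (Nat.shiftLeft (nat_lit 1) (Nat.land (Nat.shiftRight (V (nat_lit 28)) (S (nat_lit 20))) (nat_lit 65535))) (Nat.shiftLeft (nat_lit 1) (Nat.land (Nat.shiftRight (V (nat_lit 28)) (S (nat_lit 21))) (nat_lit 65535))))))))) (Nat.add (Nat.add (Nat.add (Nat.add (Nat.add (Nat.shiftLeft (nat_lit 1) (Nat.land (Nat.shiftRight (V (nat_lit 28)) (S (nat_lit 38))) (nat_lit 65535))) (Nat.shiftLeft (nat_lit 1) (Nat.land (Nat.shiftRight (V (nat_lit 28)) (S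 (nat_lit 46))) (nat_lit 65535)))) (Nat.add (Nat.shiftLeft (nat_lit 1) (Nat.land (Nat.shiftRight (V (nat_lit 28)) (S (nat_lit 48))) (nat_lit 65535))) (Nat.shiftLeft (nat_lit 1) (Nat.land (Nat.shiftRight (V (nat_lit 28)) (S (nat_lit 57))) (nat_lit 65535))))) (Nat.add (Nat.add (Nat.shiftLeft (nat_lit 1) (Nat.land (Nat.shiftRight (V (nat_lit 32)) (S (nat_lit 9))) (nat_lit 65535))) (Nat.shiftLeft (nat_lit 1) (Nat.land (Nat.shiftRight (V (nat_lit 32)) (S (nat_lit 51))) (nat_lit 65535)))) (Nat.add (Nat.shiftLeft (nat_lit 1) (Nat.land (Nat.shiftRight (V (nat_lit 34)) (S (nat_lit 7))) (nat_lit 65535))) (Nat.add (Nat.shiftLeft (nat_lit 1) (Nat.land (Nat.shiftRight (V (nat_lit 34)) (S (nat_lit 40))) (nat_lit 65535))) (Nat.shiftLeft (nat_lit 1) (Nat.land (Nat.shiftRight (V (nat_lit 38)) (S (nat_lit 4))) (nat_lit 65535))))))) (Nat.add (Nat.add (Nat.add (Nat.shiftLeft (nat_lit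 1) (Nat.land (Nat.shiftRight (V (nat_lit 38)) (S (nat_lit 9))) (nat_lit 65535))) (Nat.shiftLeft (nat_lit 1) (Nat.land (Nat.shiftRight (V (nat_lit 38)) (S (nat_lit 28))) (nat_lit 65535)))) (Nat.add (Nat.shiftLeft (nat_lit 1) (Nat.land (Nat.shiftRight (V (nat_lit 38)) (S (nat_lit 51))) (nat_lit 65535))) (Nat.shiftLeft (nat_lit 1) (Nat.land (Nat.shiftRight (V (nat_lit 40)) (S (nat_lit 17))) (nat_lit 65535))))) (Nat.add (Nat.add (Nat.shiftLeft (nat_lit 1) (Nat.land (Nat.shiftRight (V (nat_lit 40)) (S (nat_lit 21))) (nat_lit 65535))) (Nat.shiftLeft (nat_lit 1) (Nat.land (Nat.shiftRight (V (nat_lit 40)) (S (nat_lit 26))) (nat_lit 65535)))) (Nat.add (Nat.shiftLeft (nat_lit 1) (Nat.land (Nat.shiftRight (V (nat_lit 40)) (S (nat_lit 34))) (nat_lit 65535))) (Nat.add (Nat.shiftLeft (nat_lit 1) (Nat.land (Nat.shiftRight (V (nat_lit 40)) (S (nat_lit 48))) (nat_lit 65535))) (Nat.shiftLeft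 (nat_lit 1) (Nat.land (Nat.shiftRight (V (nat_lit 40)) (S (nat_lit 54))) (nat_lit 65535)))))))) (Nat.add (Nat.add (Nat.add (Nat.add (Nat.shiftLeft (nat_lit 1) (Nat.land (Nat.shiftRight (V (nat_lit 44)) (S (nat_lit 9))) (nat_lit 65535))) (Nat.shiftLeft (nat_lit 1) (Nat.land (Nat.shiftRight (V (nat_lit 44)) (S (nat_lit 51))) (nat_lit 65535)))) (Nat.add (Nat.shiftLeft (nat_lit 1) (Nat.land (Nat.shiftRight (V (nat_lit 46)) (S (nat_lit 4))) (nat_lit 65535))) (Nat.shiftLeft (nat_lit 1) (Nat.land (Nat.shiftRight (V (nat_lit 46)) (S (nat_lit 28))) (nat_lit 65535))))) (Nat.add (Nat.add (Nat.shiftLeft (nat_lit 1) (Nat.land (Nat.shiftRight (V (nat_lit 48)) (S (nat_lit 4))) (nat_lit 65535))) (Nat.shiftLeft (nat_lit 1) (Nat.land (Nat.shiftRight (V (nat_lit 48)) (S (nat_lit 7))) (nat_lit 65535)))) (Nat.add (Nat.shiftLeft (nat_lit 1) (Nat.land (Nat.shiftRight (V (nat_lit 48)) (S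 (nat_lit 28))) (nat_lit 65535))) (Nat.add (Nat.shiftLeft (nat_lit 1) (Nat.land (Nat.shiftRight (V (nat_lit 48)) (S (nat_lit 40))) (nat_lit 65535))) (Nat.shiftLeft (nat_lit 1) (Nat.land (Nat.shiftRight (V (nat_lit 51)) (S (nat_lit 17))) (nat_lit 65535))))))) (Nat.add (Nat.add (Nat.add (Nat.shiftLeft (nat_lit 1) (Nat.land (Nat.shiftRight (V (nat_lit 51)) (S (nat_lit 20))) (nat_lit 65535))) (Nat.shiftLeft (nat_lit 1) (Nat.land (Nat.shiftRight (V (nat_lit 51)) (S (nat_lit 26))) (nat_lit 65535)))) (Nat.add (Nat.shiftLeft (nat_lit 1) (Nat.land (Nat.shiftRight (V (nat_lit 51)) (S (nat_lit 32))) (nat_lit 65535))) (Nat.shiftLeft (nat_lit 1) (Nat.land (Nat.shiftRight (V (nat_lit 51)) (S (nat_lit 38))) (nat_lit 65535))))) (Nat.add (Nat.add (Nat.shiftLeft (nat_lit 1) (Nat.land (Nat.shiftRight (V (nat_lit 51)) (S (nat_lit 44))) (nat_lit 65535))) (Nat.shiftLeft (nat_lit 1) (Nat.land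 (Nat.shiftRight (V (nat_lit 54)) (S (nat_lit 7))) (nat_lit 65535)))) (Nat.add (Nat.shiftLeft (nat_lit 1) (Nat.land (Nat.shiftRight (V (nat_lit 54)) (S (nat_lit 40))) (nat_lit 65535))) (Nat.add (Nat.shiftLeft (nat_lit 1) (Nat.land (Nat.shiftRight (V (nat_lit 57)) (S (nat_lit 4))) (nat_lit 65535))) (Nat.shiftLeft (nat_lit 1) (Nat.land (Nat.shiftRight (V (nat_lit 57)) (S (nat_lit 28))) (nat_lit 65535)))))))))
def E92_2 (V S : ℕ → ℕ) : ℕ := Nat.add (Nat.add (Nat.add (Nat.add (Nat.add (Nat.shiftLeft (nat_lit 1) (Nat.land (Nat.shiftRight (V (nat_lit 12)) (S (nat_lit 17))) (nat_lit 65535))) (Nat.add (Nat.shiftLeft (nat_lit 1) (Nat.land (Nat.shiftRight (V (nat_lit 12)) (S (nat_lit 21))) (nat_lit 65535))) (Nat.shiftLeft (nat_lit 1) (Nat.land (Nat.shiftRight (V (nat_lit 12)) (S (nat_lit 26))) (nat_lit 65535))))) (Nat.add (Nat.shiftLeft (nat_lit 1) (Nat.land (Nat.shiftRight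 (V (nat_lit 12)) (S (nat_lit 48))) (nat_lit 65535))) (Nat.add (Nat.shiftLeft (nat_lit 1) (Nat.land (Nat.shiftRight (V (nat_lit 13)) (S (nat_lit 20))) (nat_lit 65535))) (Nat.shiftLeft (nat_lit 1) (Nat.land (Nat.shiftRight (V (nat_lit 13)) (S (nat_lit 21))) (nat_lit 65535)))))) (Nat.add (Nat.add (Nat.shiftLeft (nat_lit 1) (Nat.land (Nat.shiftRight (V (nat_lit 13)) (S (nat_lit 38))) (nat_lit 65535))) (Nat.add (Nat.shiftLeft (nat_lit 1) (Nat.land (Nat.shiftRight (V (nat_lit 13)) (S (nat_lit 48))) (nat_lit 65535))) (Nat.shiftLeft (nat_lit 1) (Nat.land (Nat.shiftRight (V (nat_lit 14)) (S (nat_lit 17))) (nat_lit 65535))))) (Nat.add (Nat.shiftLeft (nat_lit 1) (Nat.land (Nat.shiftRight (V (nat_lit 14)) (S (nat_lit 20))) (nat_lit 65535))) (Nat.add (Nat.shiftLeft (nat_lit 1) (Nat.land (Nat.shiftRight (V (nat_lit 14)) (S (nat_lit 26))) (nat_lit 65535))) (Nat.shiftLeft (nat_lit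 1) (Nat.land (Nat.shiftRight (V (nat_lit 14)) (S (nat_lit 38))) (nat_lit 65535))))))) (Nat.add (Nat.add (Nat.add (Nat.shiftLeft (nat_lit 1) (Nat.land (Nat.shiftRight (V (nat_lit 17)) (S (nat_lit 12))) (nat_lit 65535))) (Nat.add (Nat.shiftLeft (nat_lit 1) (Nat.land (Nat.shiftRight (V (nat_lit 17)) (S (nat_lit 14))) (nat_lit 65535))) (Nat.shiftLeft (nat_lit 1) (Nat.land (Nat.shiftRight (V (nat_lit 20)) (S (nat_lit 13))) (nat_lit 65535))))) (Nat.add (Nat.shiftLeft (nat_lit 1) (Nat.land (Nat.shiftRight (V (nat_lit 20)) (S (nat_lit 14))) (nat_lit 65535))) (Nat.add (Nat.shiftLeft (nat_lit 1) (Nat.land (Nat.shiftRight (V (nat_lit 21)) (S (nat_lit 12))) (nat_lit 65535))) (Nat.shiftLeft (nat_lit 1) (Nat.land (Nat.shiftRight (V (nat_lit 21)) (S (nat_lit 13))) (nat_lit 65535)))))) (Nat.add (Nat.add (Nat.shiftLeft (nat_lit 1) (Nat.land (Nat.shiftRight (V (nat_lit 26)) (S (nat_lit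 12))) (nat_lit 65535))) (Nat.add (Nat.shiftLeft (nat_lit 1) (Nat.land (Nat.shiftRight (V (nat_lit 26)) (S (nat_lit 14))) (nat_lit 65535))) (Nat.shiftLeft (nat_lit 1) (Nat.land (Nat.shiftRight (V (nat_lit 30)) (S (nat_lit 33))) (nat_lit 65535))))) (Nat.add (Nat.shiftLeft (nat_lit 1) (Nat.land (Nat.shiftRight (V (nat_lit 30)) (S (nat_lit 59))) (nat_lit 65535))) (Nat.add (Nat.shiftLeft (nat_lit 1) (Nat.land (Nat.shiftRight (V (nat_lit 31)) (S (nat_lit 35))) (nat_lit 65535))) (Nat.shiftLeft (nat_lit 1) (Nat.land (Nat.shiftRight (V (nat_lit 31)) (S (nat_lit 58))) (nat_lit 65535)))))))) (Nat.add (Nat.add (Nat.add (Nat.add (Nat.shiftLeft (nat_lit 1) (Nat.land (Nat.shiftRight (V (nat_lit 33)) (S (nat_lit 30))) (nat_lit 65535))) (Nat.add (Nat.shiftLeft (nat_lit 1) (Nat.land (Nat.shiftRight (V (nat_lit 33)) (S (nat_lit 47))) (nat_lit 65535))) (Nat.shiftLeft (nat_lit 1) (Nat.land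 (Nat.shiftRight (V (nat_lit 35)) (S (nat_lit 31))) (nat_lit 65535))))) (Nat.add (Nat.shiftLeft (nat_lit 1) (Nat.land (Nat.shiftRight (V (nat_lit 35)) (S (nat_lit 45))) (nat_lit 65535))) (Nat.add (Nat.shiftLeft (nat_lit 1) (Nat.land (Nat.shiftRight (V (nat_lit 38)) (S (nat_lit 13))) (nat_lit 65535))) (Nat.shiftLeft (nat_lit 1) (Nat.land (Nat.shiftRight (V (nat_lit 38)) (S (nat_lit 14))) (nat_lit 65535)))))) (Nat.add (Nat.add (Nat.shiftLeft (nat_lit 1) (Nat.land (Nat.shiftRight (V (nat_lit 42)) (S (nat_lit 45))) (nat_lit 65535))) (Nat.add (Nat.shiftLeft (nat_lit 1) (Nat.land (Nat.shiftRight (V (nat_lit 42)) (S (nat_lit 56))) (nat_lit 65535))) (Nat.shiftLeft (nat_lit 1) (Nat.land (Nat.shiftRight (V (nat_lit 43)) (S (nat_lit 47))) (nat_lit 65535))))) (Nat.add (Nat.shiftLeft (nat_lit 1) (Nat.land (Nat.shiftRight (V (nat_lit 43)) (S (nat_lit 55))) (nat_lit 65535))) (Nat.add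 (Nat.shiftLeft (nat_lit 1) (Nat.land (Nat.shiftRight (V (nat_lit 45)) (S (nat_lit 35))) (nat_lit 65535))) (Nat.shiftLeft (nat_lit 1) (Nat.land (Nat.shiftRight (V (nat_lit 45)) (S (nat_lit 42))) (nat_lit 65535))))))) (Nat.add (Nat.add (Nat.add (Nat.shiftLeft (nat_lit 1) (Nat.land (Nat.shiftRight (V (nat_lit 47)) (S (nat_lit 33))) (nat_lit 65535))) (Nat.add (Nat.shiftLeft (nat_lit 1) (Nat.land (Nat.shiftRight (V (nat_lit 47)) (S (nat_lit 43))) (nat_lit 65535))) (Nat.shiftLeft (nat_lit 1) (Nat.land (Nat.shiftRight (V (nat_lit 48)) (S (nat_lit 12))) (nat_lit 65535))))) (Nat.add (Nat.shiftLeft (nat_lit 1) (Nat.land (Nat.shiftRight (V (nat_lit 48)) (S (nat_lit 13))) (nat_lit 65535))) (Nat.add (Nat.shiftLeft (nat_lit 1) (Nat.land (Nat.shiftRight (V (nat_lit 55)) (S (nat_lit 43))) (nat_lit 65535))) (Nat.shiftLeft (nat_lit 1) (Nat.land (Nat.shiftRight (V (nat_lit 55)) (S (nat_lit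 59))) (nat_lit 65535)))))) (Nat.add (Nat.add (Nat.shiftLeft (nat_lit 1) (Nat.land (Nat.shiftRight (V (nat_lit 56)) (S (nat_lit 42))) (nat_lit 65535))) (Nat.add (Nat.shiftLeft (nat_lit 1) (Nat.land (Nat.shiftRight (V (nat_lit 56)) (S (nat_lit 58))) (nat_lit 65535))) (Nat.shiftLeft (nat_lit 1) (Nat.land (Nat.shiftRight (V (nat_lit 58)) (S (nat_lit 31))) (nat_lit 65535))))) (Nat.add (Nat.shiftLeft (nat_lit 1) (Nat.land (Nat.shiftRight (V (nat_lit 58)) (S (nat_lit 56))) (nat_lit 65535))) (Nat.add (Nat.shiftLeft (nat_lit 1) (Nat.land (Nat.shiftRight (V (nat_lit 59)) (S (nat_lit 30))) (nat_lit 65535))) (Nat.shiftLeft (nat_lit 1) (Nat.land (Nat.shiftRight (V (nat_lit 59)) (S (nat_lit 55))) (nat_lit 65535))))))))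
def E93_2 (V S : ℕ → ℕ) : ℕ := Nat.add (Nat.add (Nat.add (Nat.add (Nat.add (Nat.shiftLeft (nat_lit 1) (Nat.land (Nat.shiftRight (V (nat_lit 12)) (S (nat_lit 30))) (nat_lit 65535))) (Nat.add (Nat.shiftLeft (nat_lit 1) (Nat.land (Nat.shiftRight (V (nat_lit 12)) (S (nat_lit 33))) (nat_lit 65535))) (Nat.shiftLeft (nat_lit 1) (Nat.land (Nat.shiftRight (V (nat_lit 12)) (S (nat_lit 35))) (nat_lit 65535))))) (Nat.add (Nat.shiftLeft (nat_lit 1) (Nat.land (Nat.shiftRight (V (nat_lit 12)) (S (nat_lit 43))) (nat_lit 65535))) (Nat.add (Nat.shiftLeft (nat_lit 1) (Nat.land (Nat.shiftRight (V (nat_lit 12)) (S (nat_lit 45))) (nat_lit 65535))) (Nat.shiftLeft (nat_lit 1) (Nat.land (Nat.shiftRight (V (nat_lit 12)) (S (nat_lit 55))) (nat_lit 65535)))))) (Nat.add (Nat.add (Nat.shiftLeft (nat_lit 1) (Nat.land (Nat.shiftRight (V (nat_lit 12)) (S (nat_lit 56))) (nat_lit 65535))) (Nat.add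 (Nat.shiftLeft (nat_lit 1) (Nat.land (Nat.shiftRight (V (nat_lit 12)) (S (nat_lit 58))) (nat_lit 65535))) (Nat.shiftLeft (nat_lit 1) (Nat.land (Nat.shiftRight (V (nat_lit 13)) (S (nat_lit 31))) (nat_lit 65535))))) (Nat.add (Nat.shiftLeft (nat_lit 1) (Nat.land (Nat.shiftRight (V (nat_lit 13)) (S (nat_lit 33))) (nat_lit 65535))) (Nat.add (Nat.shiftLeft (nat_lit 1) (Nat.land (Nat.shiftRight (V (nat_lit 13)) (S (nat_lit 42))) (nat_lit 65535))) (Nat.shiftLeft (nat_lit 1) (Nat.land (Nat.shiftRight (V (nat_lit 13)) (S (nat_lit 45))) (nat_lit 65535))))))) (Nat.add (Nat.add (Nat.add (Nat.shiftLeft (nat_lit 1) (Nat.land (Nat.shiftRight (V (nat_lit 13)) (S (nat_lit 47))) (nat_lit 65535))) (Nat.add (Nat.shiftLeft (nat_lit 1) (Nat.land (Nat.shiftRight (V (nat_lit 13)) (S (nat_lit 55))) (nat_lit 65535))) (Nat.shiftLeft (nat_lit 1) (Nat.land (Nat.shiftRight (V (nat_lit 13)) (S (nat_lit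 58))) (nat_lit 65535))))) (Nat.add (Nat.shiftLeft (nat_lit 1) (Nat.land (Nat.shiftRight (V (nat_lit 13)) (S (nat_lit 59))) (nat_lit 65535))) (Nat.add (Nat.shiftLeft (nat_lit 1) (Nat.land (Nat.shiftRight (V (nat_lit 14)) (S (nat_lit 30))) (nat_lit 65535))) (Nat.shiftLeft (nat_lit 1) (Nat.land (Nat.shiftRight (V (nat_lit 14)) (S (nat_lit 31))) (nat_lit 65535)))))) (Nat.add (Nat.add (Nat.shiftLeft (nat_lit 1) (Nat.land (Nat.shiftRight (V (nat_lit 14)) (S (nat_lit 35))) (nat_lit 65535))) (Nat.add (Nat.shiftLeft (nat_lit 1) (Nat.land (Nat.shiftRight (V (nat_lit 14)) (S (nat_lit 42))) (nat_lit 65535))) (Nat.shiftLeft (nat_lit 1) (Nat.land (Nat.shiftRight (V (nat_lit 14)) (S (nat_lit 43))) (nat_lit 65535))))) (Nat.add (Nat.shiftLeft (nat_lit 1) (Nat.land (Nat.shiftRight (V (nat_lit 14)) (S (nat_lit 47))) (nat_lit 65535))) (Nat.add (Nat.shiftLeft (nat_lit 1) (Nat.land (Nat.shiftRight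 (V (nat_lit 14)) (S (nat_lit 56))) (nat_lit 65535))) (Nat.shiftLeft (nat_lit 1) (Nat.land (Nat.shiftRight (V (nat_lit 14)) (S (nat_lit 59))) (nat_lit 65535)))))))) (Nat.add (Nat.add (Nat.add (Nat.add (Nat.shiftLeft (nat_lit 1) (Nat.land (Nat.shiftRight (V (nat_lit 30)) (S (nat_lit 12))) (nat_lit 65535))) (Nat.add (Nat.shiftLeft (nat_lit 1) (Nat.land (Nat.shiftRight (V (nat_lit 30)) (S (nat_lit 14))) (nat_lit 65535))) (Nat.shiftLeft (nat_lit 1) (Nat.land (Nat.shiftRight (V (nat_lit 31)) (S (nat_lit 13))) (nat_lit 65535))))) (Nat.add (Nat.shiftLeft (nat_lit 1) (Nat.land (Nat.shiftRight (V (nat_lit 31)) (S (nat_lit 14))) (nat_lit 65535))) (Nat.add (Nat.shiftLeft (nat_lit 1) (Nat.land (Nat.shiftRight (V (nat_lit 33)) (S (nat_lit 12))) (nat_lit 65535))) (Nat.shiftLeft (nat_lit 1) (Nat.land (Nat.shiftRight (V (nat_lit 33)) (S (nat_lit 13))) (nat_lit 65535)))))) (Nat.add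 (Nat.add (Nat.shiftLeft (nat_lit 1) (Nat.land (Nat.shiftRight (V (nat_lit 35)) (S (nat_lit 12))) (nat_lit 65535))) (Nat.add (Nat.shiftLeft (nat_lit 1) (Nat.land (Nat.shiftRight (V (nat_lit 35)) (S (nat_lit 14))) (nat_lit 65535))) (Nat.shiftLeft (nat_lit 1) (Nat.land (Nat.shiftRight (V (nat_lit 42)) (S (nat_lit 13))) (nat_lit 65535))))) (Nat.add (Nat.shiftLeft (nat_lit 1) (Nat.land (Nat.shiftRight (V (nat_lit 42)) (S (nat_lit 14))) (nat_lit 65535))) (Nat.add (Nat.shiftLeft (nat_lit 1) (Nat.land (Nat.shiftRight (V (nat_lit 43)) (S (nat_lit 12))) (nat_lit 65535))) (Nat.shiftLeft (nat_lit 1) (Nat.land (Nat.shiftRight (V (nat_lit 43)) (S (nat_lit 14))) (nat_lit 65535))))))) (Nat.add (Nat.add (Nat.add (Nat.shiftLeft (nat_lit 1) (Nat.land (Nat.shiftRight (V (nat_lit 45)) (S (nat_lit 12))) (nat_lit 65535))) (Nat.add (Nat.shiftLeft (nat_lit 1) (Nat.land (Nat.shiftRight (V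 (nat_lit 45)) (S (nat_lit 13))) (nat_lit 65535))) (Nat.shiftLeft (nat_lit 1) (Nat.land (Nat.shiftRight (V (nat_lit 47)) (S (nat_lit 13))) (nat_lit 65535))))) (Nat.add (Nat.shiftLeft (nat_lit 1) (Nat.land (Nat.shiftRight (V (nat_lit 47)) (S (nat_lit 14))) (nat_lit 65535))) (Nat.add (Nat.shiftLeft (nat_lit 1) (Nat.land (Nat.shiftRight (V (nat_lit 55)) (S (nat_lit 12))) (nat_lit 65535))) (Nat.shiftLeft (nat_lit 1) (Nat.land (Nat.shiftRight (V (nat_lit 55)) (S (nat_lit 13))) (nat_lit 65535)))))) (Nat.add (Nat.add (Nat.shiftLeft (nat_lit 1) (Nat.land (Nat.shiftRight (V (nat_lit 56)) (S (nat_lit 12))) (nat_lit 65535))) (Nat.add (Nat.shiftLeft (nat_lit 1) (Nat.land (Nat.shiftRight (V (nat_lit 56)) (S (nat_lit 14))) (nat_lit 65535))) (Nat.shiftLeft (nat_lit 1) (Nat.land (Nat.shiftRight (V (nat_lit 58)) (S (nat_lit 12))) (nat_lit 65535))))) (Nat.add (Nat.shiftLeft (nat_lit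 1) (Nat.land (Nat.shiftRight (V (nat_lit 58)) (S (nat_lit 13))) (nat_lit 65535))) (Nat.add (Nat.shiftLeft (nat_lit 1) (Nat.land (Nat.shiftRight (V (nat_lit 59)) (S (nat_lit 13))) (nat_lit 65535))) (Nat.shiftLeft (nat_lit 1) (Nat.land (Nat.shiftRight (V (nat_lit 59)) (S (nat_lit 14))) (nat_lit 65535))))))))
def E94_2 (V S : ℕ → ℕ) : ℕ := Nat.add (Nat.add (Nat.add (Nat.add (Nat.shiftLeft (nat_lit 1) (Nat.land (Nat.shiftRight (V (nat_lit 12)) (S (nat_lit 31))) (nat_lit 65535))) (Nat.add (Nat.shiftLeft (nat_lit 1) (Nat.land (Nat.shiftRight (V (nat_lit 12)) (S (nat_lit 42))) (nat_lit 65535))) (Nat.shiftLeft (nat_lit 1) (Nat.land (Nat.shiftRight (V (nat_lit 12)) (S (nat_lit 47))) (nat_lit 65535))))) (Nat.add (Nat.shiftLeft (nat_lit 1) (Nat.land (Nat.shiftRight (V (nat_lit 12)) (S (nat_lit 59))) (nat_lit 65535))) (Nat.add (Nat.shiftLeft (nat_lit 1) (Nat.land (Nat.shiftRight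 (V (nat_lit 13)) (S (nat_lit 30))) (nat_lit 65535))) (Nat.shiftLeft (nat_lit 1) (Nat.land (Nat.shiftRight (V (nat_lit 13)) (S (nat_lit 35))) (nat_lit 65535)))))) (Nat.add (Nat.add (Nat.shiftLeft (nat_lit 1) (Nat.land (Nat.shiftRight (V (nat_lit 13)) (S (nat_lit 43))) (nat_lit 65535))) (Nat.add (Nat.shiftLeft (nat_lit 1) (Nat.land (Nat.shiftRight (V (nat_lit 13)) (S (nat_lit 56))) (nat_lit 65535))) (Nat.shiftLeft (nat_lit 1) (Nat.land (Nat.shiftRight (V (nat_lit 14)) (S (nat_lit 33))) (nat_lit 65535))))) (Nat.add (Nat.shiftLeft (nat_lit 1) (Nat.land (Nat.shiftRight (V (nat_lit 14)) (S (nat_lit 45))) (nat_lit 65535))) (Nat.add (Nat.shiftLeft (nat_lit 1) (Nat.land (Nat.shiftRight (V (nat_lit 14)) (S (nat_lit 55))) (nat_lit 65535))) (Nat.shiftLeft (nat_lit 1) (Nat.land (Nat.shiftRight (V (nat_lit 14)) (S (nat_lit 58))) (nat_lit 65535))))))) (Nat.add (Nat.add (Nat.add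 (Nat.shiftLeft (nat_lit 1) (Nat.land (Nat.shiftRight (V (nat_lit 30)) (S (nat_lit 13))) (nat_lit 65535))) (Nat.add (Nat.shiftLeft (nat_lit 1) (Nat.land (Nat.shiftRight (V (nat_lit 31)) (S (nat_lit 12))) (nat_lit 65535))) (Nat.shiftLeft (nat_lit 1) (Nat.land (Nat.shiftRight (V (nat_lit 33)) (S (nat_lit 14))) (nat_lit 65535))))) (Nat.add (Nat.shiftLeft (nat_lit 1) (Nat.land (Nat.shiftRight (V (nat_lit 35)) (S (nat_lit 13))) (nat_lit 65535))) (Nat.add (Nat.shiftLeft (nat_lit 1) (Nat.land (Nat.shiftRight (V (nat_lit 42)) (S (nat_lit 12))) (nat_lit 65535))) (Nat.shiftLeft (nat_lit 1) (Nat.land (Nat.shiftRight (V (nat_lit 43)) (S (nat_lit 13))) (nat_lit 65535)))))) (Nat.add (Nat.add (Nat.shiftLeft (nat_lit 1) (Nat.land (Nat.shiftRight (V (nat_lit 45)) (S (nat_lit 14))) (nat_lit 65535))) (Nat.add (Nat.shiftLeft (nat_lit 1) (Nat.land (Nat.shiftRight (V (nat_lit 47)) (S (nat_lit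 12))) (nat_lit 65535))) (Nat.shiftLeft (nat_lit 1) (Nat.land (Nat.shiftRight (V (nat_lit 55)) (S (nat_lit 14))) (nat_lit 65535))))) (Nat.add (Nat.shiftLeft (nat_lit 1) (Nat.land (Nat.shiftRight (V (nat_lit 56)) (S (nat_lit 13))) (nat_lit 65535))) (Nat.add (Nat.shiftLeft (nat_lit 1) (Nat.land (Nat.shiftRight (V (nat_lit 58)) (S (nat_lit 14))) (nat_lit 65535))) (Nat.shiftLeft (nat_lit 1) (Nat.land (Nat.shiftRight (V (nat_lit 59)) (S (nat_lit 12))) (nat_lit 65535)))))))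
def E95_2 (V S : ℕ → ℕ) : ℕ := Nat.add (Nat.add (Nat.add (Nat.add (Nat.shiftLeft (nat_lit 1) (Nat.land (Nat.shiftRight (V (nat_lit 12)) (S (nat_lit 32))) (nat_lit 65535))) (Nat.add (Nat.shiftLeft (nat_lit 1) (Nat.land (Nat.shiftRight (V (nat_lit 12)) (S (nat_lit 44))) (nat_lit 65535))) (Nat.shiftLeft (nat_lit 1) (Nat.land (Nat.shiftRight (V (nat_lit 12)) (S (nat_lit 46))) (nat_lit 65535))))) (Nat.add (Nat.shiftLeft (nat_lit 1) (Nat.land (Nat.shiftRight (V (nat_lit 12)) (S (nat_lit 57))) (nat_lit 65535))) (Nat.add (Nat.shiftLeft (nat_lit 1) (Nat.land (Nat.shiftRight (V (nat_lit 13)) (S (nat_lit 32))) (nat_lit 65535))) (Nat.shiftLeft (nat_lit 1) (Nat.land (Nat.shiftRight (V (nat_lit 13)) (S (nat_lit 34))) (nat_lit 65535)))))) (Nat.add (Nat.add (Nat.shiftLeft (nat_lit 1) (Nat.land (Nat.shiftRight (V (nat_lit 13)) (S (nat_lit 44))) (nat_lit 65535))) (Nat.add (Nat.shiftLeft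 (nat_lit 1) (Nat.land (Nat.shiftRight (V (nat_lit 13)) (S (nat_lit 54))) (nat_lit 65535))) (Nat.shiftLeft (nat_lit 1) (Nat.land (Nat.shiftRight (V (nat_lit 14)) (S (nat_lit 34))) (nat_lit 65535))))) (Nat.add (Nat.shiftLeft (nat_lit 1) (Nat.land (Nat.shiftRight (V (nat_lit 14)) (S (nat_lit 46))) (nat_lit 65535))) (Nat.add (Nat.shiftLeft (nat_lit 1) (Nat.land (Nat.shiftRight (V (nat_lit 14)) (S (nat_lit 54))) (nat_lit 65535))) (Nat.shiftLeft (nat_lit 1) (Nat.land (Nat.shiftRight (V (nat_lit 14)) (S (nat_lit 57))) (nat_lit 65535))))))) (Nat.add (Nat.add (Nat.add (Nat.shiftLeft (nat_lit 1) (Nat.land (Nat.shiftRight (V (nat_lit 32)) (S (nat_lit 12))) (nat_lit 65535))) (Nat.add (Nat.shiftLeft (nat_lit 1) (Nat.land (Nat.shiftRight (V (nat_lit 32)) (S (nat_lit 13))) (nat_lit 65535))) (Nat.shiftLeft (nat_lit 1) (Nat.land (Nat.shiftRight (V (nat_lit 34)) (S (nat_lit 13))) (nat_lit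 65535))))) (Nat.add (Nat.shiftLeft (nat_lit 1) (Nat.land (Nat.shiftRight (V (nat_lit 34)) (S (nat_lit 14))) (nat_lit 65535))) (Nat.add (Nat.shiftLeft (nat_lit 1) (Nat.land (Nat.shiftRight (V (nat_lit 44)) (S (nat_lit 12))) (nat_lit 65535))) (Nat.shiftLeft (nat_lit 1) (Nat.land (Nat.shiftRight (V (nat_lit 44)) (S (nat_lit 13))) (nat_lit 65535)))))) (Nat.add (Nat.add (Nat.shiftLeft (nat_lit 1) (Nat.land (Nat.shiftRight (V (nat_lit 46)) (S (nat_lit 12))) (nat_lit 65535))) (Nat.add (Nat.shiftLeft (nat_lit 1) (Nat.land (Nat.shiftRight (V (nat_lit 46)) (S (nat_lit 14))) (nat_lit 65535))) (Nat.shiftLeft (nat_lit 1) (Nat.land (Nat.shiftRight (V (nat_lit 54)) (S (nat_lit 13))) (nat_lit 65535))))) (Nat.add (Nat.shiftLeft (nat_lit 1) (Nat.land (Nat.shiftRight (V (nat_lit 54)) (S (nat_lit 14))) (nat_lit 65535))) (Nat.add (Nat.shiftLeft (nat_lit 1) (Nat.land (Nat.shiftRight (V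 (nat_lit 57)) (S (nat_lit 12))) (nat_lit 65535))) (Nat.shiftLeft (nat_lit 1) (Nat.land (Nat.shiftRight (V (nat_lit 57)) (S (nat_lit 14))) (nat_lit 65535)))))))
def E96_2 (V S : ℕ → ℕ) : ℕ := Nat.add (Nat.add (Nat.add (Nat.add (Nat.add (Nat.shiftLeft (nat_lit 1) (Nat.land (Nat.shiftRight (V (nat_lit 15)) (S (nat_lit 20))) (nat_lit 65535))) (Nat.add (Nat.shiftLeft (nat_lit 1) (Nat.land (Nat.shiftRight (V (nat_lit 15)) (S (nat_lit 31))) (nat_lit 65535))) (Nat.shiftLeft (nat_lit 1) (Nat.land (Nat.shiftRight (V (nat_lit 16)) (S (nat_lit 21))) (nat_lit 65535))))) (Nat.add (Nat.shiftLeft (nat_lit 1) (Nat.land (Nat.shiftRight (V (nat_lit 16)) (S (nat_lit 33))) (nat_lit 65535))) (Nat.add (Nat.shiftLeft (nat_lit 1) (Nat.land (Nat.shiftRight (V (nat_lit 17)) (S (nat_lit 18))) (nat_lit 65535))) (Nat.shiftLeft (nat_lit 1) (Nat.land (Nat.shiftRight (V (nat_lit 17)) (S (nat_lit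 22))) (nat_lit 65535)))))) (Nat.add (Nat.add (Nat.shiftLeft (nat_lit 1) (Nat.land (Nat.shiftRight (V (nat_lit 18)) (S (nat_lit 17))) (nat_lit 65535))) (Nat.add (Nat.shiftLeft (nat_lit 1) (Nat.land (Nat.shiftRight (V (nat_lit 18)) (S (nat_lit 43))) (nat_lit 65535))) (Nat.shiftLeft (nat_lit 1) (Nat.land (Nat.shiftRight (V (nat_lit 19)) (S (nat_lit 21))) (nat_lit 65535))))) (Nat.add (Nat.shiftLeft (nat_lit 1) (Nat.land (Nat.shiftRight (V (nat_lit 19)) (S (nat_lit 45))) (nat_lit 65535))) (Nat.add (Nat.shiftLeft (nat_lit 1) (Nat.land (Nat.shiftRight (V (nat_lit 20)) (S (nat_lit 15))) (nat_lit 65535))) (Nat.shiftLeft (nat_lit 1) (Nat.land (Nat.shiftRight (V (nat_lit 20)) (S (nat_lit 23))) (nat_lit 65535))))))) (Nat.add (Nat.add (Nat.add (Nat.shiftLeft (nat_lit 1) (Nat.land (Nat.shiftRight (V (nat_lit 21)) (S (nat_lit 16))) (nat_lit 65535))) (Nat.add (Nat.shiftLeft (nat_lit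 1) (Nat.land (Nat.shiftRight (V (nat_lit 21)) (S (nat_lit 19))) (nat_lit 65535))) (Nat.shiftLeft (nat_lit 1) (Nat.land (Nat.shiftRight (V (nat_lit 22)) (S (nat_lit 17))) (nat_lit 65535))))) (Nat.add (Nat.shiftLeft (nat_lit 1) (Nat.land (Nat.shiftRight (V (nat_lit 22)) (S (nat_lit 56))) (nat_lit 65535))) (Nat.add (Nat.shiftLeft (nat_lit 1) (Nat.land (Nat.shiftRight (V (nat_lit 23)) (S (nat_lit 20))) (nat_lit 65535))) (Nat.shiftLeft (nat_lit 1) (Nat.land (Nat.shiftRight (V (nat_lit 23)) (S (nat_lit 59))) (nat_lit 65535)))))) (Nat.add (Nat.add (Nat.shiftLeft (nat_lit 1) (Nat.land (Nat.shiftRight (V (nat_lit 24)) (S (nat_lit 38))) (nat_lit 65535))) (Nat.add (Nat.shiftLeft (nat_lit 1) (Nat.land (Nat.shiftRight (V (nat_lit 24)) (S (nat_lit 42))) (nat_lit 65535))) (Nat.shiftLeft (nat_lit 1) (Nat.land (Nat.shiftRight (V (nat_lit 25)) (S (nat_lit 48))) (nat_lit 65535)))))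 (Nat.add (Nat.shiftLeft (nat_lit 1) (Nat.land (Nat.shiftRight (V (nat_lit 25)) (S (nat_lit 55))) (nat_lit 65535))) (Nat.add (Nat.shiftLeft (nat_lit 1) (Nat.land (Nat.shiftRight (V (nat_lit 26)) (S (nat_lit 36))) (nat_lit 65535))) (Nat.shiftLeft (nat_lit 1) (Nat.land (Nat.shiftRight (V (nat_lit 26)) (S (nat_lit 49))) (nat_lit 65535)))))))) (Nat.add (Nat.add (Nat.add (Nat.add (Nat.shiftLeft (nat_lit 1) (Nat.land (Nat.shiftRight (V (nat_lit 30)) (S (nat_lit 36))) (nat_lit 65535))) (Nat.add (Nat.shiftLeft (nat_lit 1) (Nat.land (Nat.shiftRight (V (nat_lit 31)) (S (nat_lit 15))) (nat_lit 65535))) (Nat.shiftLeft (nat_lit 1) (Nat.land (Nat.shiftRight (V (nat_lit 33)) (S (nat_lit 16))) (nat_lit 65535))))) (Nat.add (Nat.shiftLeft (nat_lit 1) (Nat.land (Nat.shiftRight (V (nat_lit 35)) (S (nat_lit 49))) (nat_lit 65535))) (Nat.add (Nat.shiftLeft (nat_lit 1) (Nat.land (Nat.shiftRight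 (V (nat_lit 36)) (S (nat_lit 26))) (nat_lit 65535))) (Nat.shiftLeft (nat_lit 1) (Nat.land (Nat.shiftRight (V (nat_lit 36)) (S (nat_lit 30))) (nat_lit 65535)))))) (Nat.add (Nat.add (Nat.shiftLeft (nat_lit 1) (Nat.land (Nat.shiftRight (V (nat_lit 37)) (S (nat_lit 48))) (nat_lit 65535))) (Nat.add (Nat.shiftLeft (nat_lit 1) (Nat.land (Nat.shiftRight (V (nat_lit 37)) (S (nat_lit 58))) (nat_lit 65535))) (Nat.shiftLeft (nat_lit 1) (Nat.land (Nat.shiftRight (V (nat_lit 38)) (S (nat_lit 24))) (nat_lit 65535))))) (Nat.add (Nat.shiftLeft (nat_lit 1) (Nat.land (Nat.shiftRight (V (nat_lit 38)) (S (nat_lit 50))) (nat_lit 65535))) (Nat.add (Nat.shiftLeft (nat_lit 1) (Nat.land (Nat.shiftRight (V (nat_lit 42)) (S (nat_lit 24))) (nat_lit 65535))) (Nat.shiftLeft (nat_lit 1) (Nat.land (Nat.shiftRight (V (nat_lit 43)) (S (nat_lit 18))) (nat_lit 65535))))))) (Nat.add (Nat.add (Nat.add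 (Nat.shiftLeft (nat_lit 1) (Nat.land (Nat.shiftRight (V (nat_lit 45)) (S (nat_lit 19))) (nat_lit 65535))) (Nat.add (Nat.shiftLeft (nat_lit 1) (Nat.land (Nat.shiftRight (V (nat_lit 47)) (S (nat_lit 50))) (nat_lit 65535))) (Nat.shiftLeft (nat_lit 1) (Nat.land (Nat.shiftRight (V (nat_lit 48)) (S (nat_lit 25))) (nat_lit 65535))))) (Nat.add (Nat.shiftLeft (nat_lit 1) (Nat.land (Nat.shiftRight (V (nat_lit 48)) (S (nat_lit 37))) (nat_lit 65535))) (Nat.add (Nat.shiftLeft (nat_lit 1) (Nat.land (Nat.shiftRight (V (nat_lit 49)) (S (nat_lit 26))) (nat_lit 65535))) (Nat.shiftLeft (nat_lit 1) (Nat.land (Nat.shiftRight (V (nat_lit 49)) (S (nat_lit 35))) (nat_lit 65535)))))) (Nat.add (Nat.add (Nat.shiftLeft (nat_lit 1) (Nat.land (Nat.shiftRight (V (nat_lit 50)) (S (nat_lit 38))) (nat_lit 65535))) (Nat.add (Nat.shiftLeft (nat_lit 1) (Nat.land (Nat.shiftRight (V (nat_lit 50)) (S (nat_lit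 47))) (nat_lit 65535))) (Nat.shiftLeft (nat_lit 1) (Nat.land (Nat.shiftRight (V (nat_lit 55)) (S (nat_lit 25))) (nat_lit 65535))))) (Nat.add (Nat.shiftLeft (nat_lit 1) (Nat.land (Nat.shiftRight (V (nat_lit 56)) (S (nat_lit 22))) (nat_lit 65535))) (Nat.add (Nat.shiftLeft (nat_lit 1) (Nat.land (Nat.shiftRight (V (nat_lit 58)) (S (nat_lit 37))) (nat_lit 65535))) (Nat.shiftLeft (nat_lit 1) (Nat.land (Nat.shiftRight (V (nat_lit 59)) (S (nat_lit 23))) (nat_lit 65535))))))))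
def E97_2 (V S : ℕ → ℕ) : ℕ := Nat.add (Nat.add (Nat.add (Nat.add (Nat.add (Nat.shiftLeft (nat_lit 1) (Nat.land (Nat.shiftRight (V (nat_lit 15)) (S (nat_lit 26))) (nat_lit 65535))) (Nat.add (Nat.shiftLeft (nat_lit 1) (Nat.land (Nat.shiftRight (V (nat_lit 15)) (S (nat_lit 48))) (nat_lit 65535))) (Nat.shiftLeft (nat_lit 1) (Nat.land (Nat.shiftRight (V (nat_lit 16)) (S (nat_lit 26))) (nat_lit 65535))))) (Nat.add (Nat.shiftLeft (nat_lit 1) (Nat.land (Nat.shiftRight (V (nat_lit 16)) (S (nat_lit 38))) (nat_lit 65535))) (Nat.add (Nat.shiftLeft (nat_lit 1) (Nat.land (Nat.shiftRight (V (nat_lit 17)) (S (nat_lit 24))) (nat_lit 65535))) (Nat.shiftLeft (nat_lit 1) (Nat.land (Nat.shiftRight (V (nat_lit 17)) (S (nat_lit 25))) (nat_lit 65535)))))) (Nat.add (Nat.add (Nat.shiftLeft (nat_lit 1) (Nat.land (Nat.shiftRight (V (nat_lit 17)) (S (nat_lit 37))) (nat_lit 65535))) (Nat.add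 (Nat.shiftLeft (nat_lit 1) (Nat.land (Nat.shiftRight (V (nat_lit 17)) (S (nat_lit 50))) (nat_lit 65535))) (Nat.shiftLeft (nat_lit 1) (Nat.land (Nat.shiftRight (V (nat_lit 18)) (S (nat_lit 38))) (nat_lit 65535))))) (Nat.add (Nat.shiftLeft (nat_lit 1) (Nat.land (Nat.shiftRight (V (nat_lit 18)) (S (nat_lit 48))) (nat_lit 65535))) (Nat.add (Nat.shiftLeft (nat_lit 1) (Nat.land (Nat.shiftRight (V (nat_lit 19)) (S (nat_lit 26))) (nat_lit 65535))) (Nat.shiftLeft (nat_lit 1) (Nat.land (Nat.shiftRight (V (nat_lit 19)) (S (nat_lit 38))) (nat_lit 65535))))))) (Nat.add (Nat.add (Nat.add (Nat.shiftLeft (nat_lit 1) (Nat.land (Nat.shiftRight (V (nat_lit 20)) (S (nat_lit 25))) (nat_lit 65535))) (Nat.add (Nat.shiftLeft (nat_lit 1) (Nat.land (Nat.shiftRight (V (nat_lit 20)) (S (nat_lit 36))) (nat_lit 65535))) (Nat.shiftLeft (nat_lit 1) (Nat.land (Nat.shiftRight (V (nat_lit 20)) (S (nat_lit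 37))) (nat_lit 65535))))) (Nat.add (Nat.shiftLeft (nat_lit 1) (Nat.land (Nat.shiftRight (V (nat_lit 20)) (S (nat_lit 49))) (nat_lit 65535))) (Nat.add (Nat.shiftLeft (nat_lit 1) (Nat.land (Nat.shiftRight (V (nat_lit 21)) (S (nat_lit 24))) (nat_lit 65535))) (Nat.shiftLeft (nat_lit 1) (Nat.land (Nat.shiftRight (V (nat_lit 21)) (S (nat_lit 36))) (nat_lit 65535)))))) (Nat.add (Nat.add (Nat.shiftLeft (nat_lit 1) (Nat.land (Nat.shiftRight (V (nat_lit 21)) (S (nat_lit 49))) (nat_lit 65535))) (Nat.add (Nat.shiftLeft (nat_lit 1) (Nat.land (Nat.shiftRight (V (nat_lit 21)) (S (nat_lit 50))) (nat_lit 65535))) (Nat.shiftLeft (nat_lit 1) (Nat.land (Nat.shiftRight (V (nat_lit 22)) (S (nat_lit 38))) (nat_lit 65535))))) (Nat.add (Nat.shiftLeft (nat_lit 1) (Nat.land (Nat.shiftRight (V (nat_lit 22)) (S (nat_lit 48))) (nat_lit 65535))) (Nat.add (Nat.shiftLeft (nat_lit 1) (Nat.land (Nat.shiftRight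 (V (nat_lit 23)) (S (nat_lit 26))) (nat_lit 65535))) (Nat.shiftLeft (nat_lit 1) (Nat.land (Nat.shiftRight (V (nat_lit 23)) (S (nat_lit 48))) (nat_lit 65535)))))))) (Nat.add (Nat.add (Nat.add (Nat.add (Nat.shiftLeft (nat_lit 1) (Nat.land (Nat.shiftRight (V (nat_lit 24)) (S (nat_lit 17))) (nat_lit 65535))) (Nat.add (Nat.shiftLeft (nat_lit 1) (Nat.land (Nat.shiftRight (V (nat_lit 24)) (S (nat_lit 21))) (nat_lit 65535))) (Nat.shiftLeft (nat_lit 1) (Nat.land (Nat.shiftRight (V (nat_lit 25)) (S (nat_lit 17))) (nat_lit 65535))))) (Nat.add (Nat.shiftLeft (nat_lit 1) (Nat.land (Nat.shiftRight (V (nat_lit 25)) (S (nat_lit 20))) (nat_lit 65535))) (Nat.add (Nat.shiftLeft (nat_lit 1) (Nat.land (Nat.shiftRight (V (nat_lit 26)) (S (nat_lit 15))) (nat_lit 65535))) (Nat.shiftLeft (nat_lit 1) (Nat.land (Nat.shiftRight (V (nat_lit 26)) (S (nat_lit 16))) (nat_lit 65535)))))) (Nat.add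 (Nat.add (Nat.shiftLeft (nat_lit 1) (Nat.land (Nat.shiftRight (V (nat_lit 26)) (S (nat_lit 19))) (nat_lit 65535))) (Nat.add (Nat.shiftLeft (nat_lit 1) (Nat.land (Nat.shiftRight (V (nat_lit 26)) (S (nat_lit 23))) (nat_lit 65535))) (Nat.shiftLeft (nat_lit 1) (Nat.land (Nat.shiftRight (V (nat_lit 36)) (S (nat_lit 20))) (nat_lit 65535))))) (Nat.add (Nat.shiftLeft (nat_lit 1) (Nat.land (Nat.shiftRight (V (nat_lit 36)) (S (nat_lit 21))) (nat_lit 65535))) (Nat.add (Nat.shiftLeft (nat_lit 1) (Nat.land (Nat.shiftRight (V (nat_lit 37)) (S (nat_lit 17))) (nat_lit 65535))) (Nat.shiftLeft (nat_lit 1) (Nat.land (Nat.shiftRight (V (nat_lit 37)) (S (nat_lit 20))) (nat_lit 65535))))))) (Nat.add (Nat.add (Nat.add (Nat.shiftLeft (nat_lit 1) (Nat.land (Nat.shiftRight (V (nat_lit 38)) (S (nat_lit 16))) (nat_lit 65535))) (Nat.add (Nat.shiftLeft (nat_lit 1) (Nat.land (Nat.shiftRight (V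 (nat_lit 38)) (S (nat_lit 18))) (nat_lit 65535))) (Nat.shiftLeft (nat_lit 1) (Nat.land (Nat.shiftRight (V (nat_lit 38)) (S (nat_lit 19))) (nat_lit 65535))))) (Nat.add (Nat.shiftLeft (nat_lit 1) (Nat.land (Nat.shiftRight (V (nat_lit 38)) (S (nat_lit 22))) (nat_lit 65535))) (Nat.add (Nat.shiftLeft (nat_lit 1) (Nat.land (Nat.shiftRight (V (nat_lit 48)) (S (nat_lit 15))) (nat_lit 65535))) (Nat.shiftLeft (nat_lit 1) (Nat.land (Nat.shiftRight (V (nat_lit 48)) (S (nat_lit 18))) (nat_lit 65535)))))) (Nat.add (Nat.add (Nat.shiftLeft (nat_lit 1) (Nat.land (Nat.shiftRight (V (nat_lit 48)) (S (nat_lit 22))) (nat_lit 65535))) (Nat.add (Nat.shiftLeft (nat_lit 1) (Nat.land (Nat.shiftRight (V (nat_lit 48)) (S (nat_lit 23))) (nat_lit 65535))) (Nat.shiftLeft (nat_lit 1) (Nat.land (Nat.shiftRight (V (nat_lit 49)) (S (nat_lit 20))) (nat_lit 65535))))) (Nat.add (Nat.shiftLeft (nat_lit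 1) (Nat.land (Nat.shiftRight (V (nat_lit 49)) (S (nat_lit 21))) (nat_lit 65535))) (Nat.add (Nat.shiftLeft (nat_lit 1) (Nat.land (Nat.shiftRight (V (nat_lit 50)) (S (nat_lit 17))) (nat_lit 65535))) (Nat.shiftLeft (nat_lit 1) (Nat.land (Nat.shiftRight (V (nat_lit 50)) (S (nat_lit 21))) (nat_lit 65535))))))))
def E98_2 (V S : ℕ → ℕ) : ℕ := Nat.add (Nat.add (Nat.add (Nat.add (Nat.add (Nat.shiftLeft (nat_lit 1) (Nat.land (Nat.shiftRight (V (nat_lit 15)) (S (nat_lit 32))) (nat_lit 65535))) (Nat.add (Nat.shiftLeft (nat_lit 1) (Nat.land (Nat.shiftRight (V (nat_lit 15)) (S (nat_lit 46))) (nat_lit 65535))) (Nat.shiftLeft (nat_lit 1) (Nat.land (Nat.shiftRight (V (nat_lit 16)) (S (nat_lit 34))) (nat_lit 65535))))) (Nat.add (Nat.shiftLeft (nat_lit 1) (Nat.land (Nat.shiftRight (V (nat_lit 16)) (S (nat_lit 57))) (nat_lit 65535))) (Nat.add (Nat.shiftLeft (nat_lit 1) (Nat.land (Nat.shiftRight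 (V (nat_lit 18)) (S (nat_lit 34))) (nat_lit 65535))) (Nat.shiftLeft (nat_lit 1) (Nat.land (Nat.shiftRight (V (nat_lit 18)) (S (nat_lit 44))) (nat_lit 65535)))))) (Nat.add (Nat.add (Nat.shiftLeft (nat_lit 1) (Nat.land (Nat.shiftRight (V (nat_lit 19)) (S (nat_lit 46))) (nat_lit 65535))) (Nat.add (Nat.shiftLeft (nat_lit 1) (Nat.land (Nat.shiftRight (V (nat_lit 19)) (S (nat_lit 54))) (nat_lit 65535))) (Nat.shiftLeft (nat_lit 1) (Nat.land (Nat.shiftRight (V (nat_lit 22)) (S (nat_lit 32))) (nat_lit 65535))))) (Nat.add (Nat.shiftLeft (nat_lit 1) (Nat.land (Nat.shiftRight (V (nat_lit 22)) (S (nat_lit 54))) (nat_lit 65535))) (Nat.add (Nat.shiftLeft (nat_lit 1) (Nat.land (Nat.shiftRight (V (nat_lit 23)) (S (nat_lit 44))) (nat_lit 65535))) (Nat.shiftLeft (nat_lit 1) (Nat.land (Nat.shiftRight (V (nat_lit 23)) (S (nat_lit 57))) (nat_lit 65535))))))) (Nat.add (Nat.add (Nat.add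 (Nat.shiftLeft (nat_lit 1) (Nat.land (Nat.shiftRight (V (nat_lit 24)) (S (nat_lit 44))) (nat_lit 65535))) (Nat.add (Nat.shiftLeft (nat_lit 1) (Nat.land (Nat.shiftRight (V (nat_lit 24)) (S (nat_lit 57))) (nat_lit 65535))) (Nat.shiftLeft (nat_lit 1) (Nat.land (Nat.shiftRight (V (nat_lit 25)) (S (nat_lit 46))) (nat_lit 65535))))) (Nat.add (Nat.shiftLeft (nat_lit 1) (Nat.land (Nat.shiftRight (V (nat_lit 25)) (S (nat_lit 54))) (nat_lit 65535))) (Nat.add (Nat.shiftLeft (nat_lit 1) (Nat.land (Nat.shiftRight (V (nat_lit 32)) (S (nat_lit 15))) (nat_lit 65535))) (Nat.shiftLeft (nat_lit 1) (Nat.land (Nat.shiftRight (V (nat_lit 32)) (S (nat_lit 22))) (nat_lit 65535)))))) (Nat.add (Nat.add (Nat.shiftLeft (nat_lit 1) (Nat.land (Nat.shiftRight (V (nat_lit 32)) (S (nat_lit 36))) (nat_lit 65535))) (Nat.add (Nat.shiftLeft (nat_lit 1) (Nat.land (Nat.shiftRight (V (nat_lit 32)) (S (nat_lit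 50))) (nat_lit 65535))) (Nat.shiftLeft (nat_lit 1) (Nat.land (Nat.shiftRight (V (nat_lit 34)) (S (nat_lit 16))) (nat_lit 65535))))) (Nat.add (Nat.shiftLeft (nat_lit 1) (Nat.land (Nat.shiftRight (V (nat_lit 34)) (S (nat_lit 18))) (nat_lit 65535))) (Nat.add (Nat.shiftLeft (nat_lit 1) (Nat.land (Nat.shiftRight (V (nat_lit 34)) (S (nat_lit 37))) (nat_lit 65535))) (Nat.shiftLeft (nat_lit 1) (Nat.land (Nat.shiftRight (V (nat_lit 34)) (S (nat_lit 49))) (nat_lit 65535)))))))) (Nat.add (Nat.add (Nat.add (Nat.add (Nat.shiftLeft (nat_lit 1) (Nat.land (Nat.shiftRight (V (nat_lit 36)) (S (nat_lit 32))) (nat_lit 65535))) (Nat.add (Nat.shiftLeft (nat_lit 1) (Nat.land (Nat.shiftRight (V (nat_lit 36)) (S (nat_lit 54))) (nat_lit 65535))) (Nat.shiftLeft (nat_lit 1) (Nat.land (Nat.shiftRight (V (nat_lit 37)) (S (nat_lit 34))) (nat_lit 65535))))) (Nat.add (Nat.shiftLeft (nat_lit 1) (Nat.land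 (Nat.shiftRight (V (nat_lit 37)) (S (nat_lit 57))) (nat_lit 65535))) (Nat.add (Nat.shiftLeft (nat_lit 1) (Nat.land (Nat.shiftRight (V (nat_lit 44)) (S (nat_lit 18))) (nat_lit 65535))) (Nat.shiftLeft (nat_lit 1) (Nat.land (Nat.shiftRight (V (nat_lit 44)) (S (nat_lit 23))) (nat_lit 65535)))))) (Nat.add (Nat.add (Nat.shiftLeft (nat_lit 1) (Nat.land (Nat.shiftRight (V (nat_lit 44)) (S (nat_lit 24))) (nat_lit 65535))) (Nat.add (Nat.shiftLeft (nat_lit 1) (Nat.land (Nat.shiftRight (V (nat_lit 44)) (S (nat_lit 49))) (nat_lit 65535))) (Nat.shiftLeft (nat_lit 1) (Nat.land (Nat.shiftRight (V (nat_lit 46)) (S (nat_lit 15))) (nat_lit 65535))))) (Nat.add (Nat.shiftLeft (nat_lit 1) (Nat.land (Nat.shiftRight (V (nat_lit 46)) (S (nat_lit 19))) (nat_lit 65535))) (Nat.add (Nat.shiftLeft (nat_lit 1) (Nat.land (Nat.shiftRight (V (nat_lit 46)) (S (nat_lit 25))) (nat_lit 65535))) (Nat.shiftLeft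 (nat_lit 1) (Nat.land (Nat.shiftRight (V (nat_lit 46)) (S (nat_lit 50))) (nat_lit 65535))))))) (Nat.add (Nat.add (Nat.add (Nat.shiftLeft (nat_lit 1) (Nat.land (Nat.shiftRight (V (nat_lit 49)) (S (nat_lit 34))) (nat_lit 65535))) (Nat.add (Nat.shiftLeft (nat_lit 1) (Nat.land (Nat.shiftRight (V (nat_lit 49)) (S (nat_lit 44))) (nat_lit 65535))) (Nat.shiftLeft (nat_lit 1) (Nat.land (Nat.shiftRight (V (nat_lit 50)) (S (nat_lit 32))) (nat_lit 65535))))) (Nat.add (Nat.shiftLeft (nat_lit 1) (Nat.land (Nat.shiftRight (V (nat_lit 50)) (S (nat_lit 46))) (nat_lit 65535))) (Nat.add (Nat.shiftLeft (nat_lit 1) (Nat.land (Nat.shiftRight (V (nat_lit 54)) (S (nat_lit 19))) (nat_lit 65535))) (Nat.shiftLeft (nat_lit 1) (Nat.land (Nat.shiftRight (V (nat_lit 54)) (S (nat_lit 22))) (nat_lit 65535)))))) (Nat.add (Nat.add (Nat.shiftLeft (nat_lit 1) (Nat.land (Nat.shiftRight (V (nat_lit 54))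 (S (nat_lit 25))) (nat_lit 65535))) (Nat.add (Nat.shiftLeft (nat_lit 1) (Nat.land (Nat.shiftRight (V (nat_lit 54)) (S (nat_lit 36))) (nat_lit 65535))) (Nat.shiftLeft (nat_lit 1) (Nat.land (Nat.shiftRight (V (nat_lit 57)) (S (nat_lit 16))) (nat_lit 65535))))) (Nat.add (Nat.shiftLeft (nat_lit 1) (Nat.land (Nat.shiftRight (V (nat_lit 57)) (S (nat_lit 23))) (nat_lit 65535))) (Nat.add (Nat.shiftLeft (nat_lit 1) (Nat.land (Nat.shiftRight (V (nat_lit 57)) (S (nat_lit 24))) (nat_lit 65535))) (Nat.shiftLeft (nat_lit 1) (Nat.land (Nat.shiftRight (V (nat_lit 57)) (S (nat_lit 37))) (nat_lit 65535))))))))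
def E99_2 (V S : ℕ → ℕ) : ℕ := Nat.add (Nat.add (Nat.add (Nat.add (Nat.add (Nat.shiftLeft (nat_lit 1) (Nat.land (Nat.shiftRight (V (nat_lit 15)) (S (nat_lit 34))) (nat_lit 65535))) (Nat.add (Nat.shiftLeft (nat_lit 1) (Nat.land (Nat.shiftRight (V (nat_lit 15)) (S (nat_lit 38))) (nat_lit 65535))) (Nat.shiftLeft (nat_lit 1) (Nat.land (Nat.shiftRight (V (nat_lit 16)) (S (nat_lit 32))) (nat_lit 65535))))) (Nat.add (Nat.shiftLeft (nat_lit 1) (Nat.land (Nat.shiftRight (V (nat_lit 16)) (S (nat_lit 48))) (nat_lit 65535))) (Nat.add (Nat.shiftLeft (nat_lit 1) (Nat.land (Nat.shiftRight (V (nat_lit 17)) (S (nat_lit 36))) (nat_lit 65535))) (Nat.shiftLeft (nat_lit 1) (Nat.land (Nat.shiftRight (V (nat_lit 17)) (S (nat_lit 49))) (nat_lit 65535)))))) (Nat.add (Nat.add (Nat.shiftLeft (nat_lit 1) (Nat.land (Nat.shiftRight (V (nat_lit 18)) (S (nat_lit 26))) (nat_lit 65535))) (Nat.add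 (Nat.shiftLeft (nat_lit 1) (Nat.land (Nat.shiftRight (V (nat_lit 18)) (S (nat_lit 46))) (nat_lit 65535))) (Nat.shiftLeft (nat_lit 1) (Nat.land (Nat.shiftRight (V (nat_lit 19)) (S (nat_lit 44))) (nat_lit 65535))))) (Nat.add (Nat.shiftLeft (nat_lit 1) (Nat.land (Nat.shiftRight (V (nat_lit 19)) (S (nat_lit 48))) (nat_lit 65535))) (Nat.add (Nat.shiftLeft (nat_lit 1) (Nat.land (Nat.shiftRight (V (nat_lit 20)) (S (nat_lit 24))) (nat_lit 65535))) (Nat.shiftLeft (nat_lit 1) (Nat.land (Nat.shiftRight (V (nat_lit 20)) (S (nat_lit 50))) (nat_lit 65535))))))) (Nat.add (Nat.add (Nat.add (Nat.shiftLeft (nat_lit 1) (Nat.land (Nat.shiftRight (V (nat_lit 21)) (S (nat_lit 25))) (nat_lit 65535))) (Nat.add (Nat.shiftLeft (nat_lit 1) (Nat.land (Nat.shiftRight (V (nat_lit 21)) (S (nat_lit 37))) (nat_lit 65535))) (Nat.shiftLeft (nat_lit 1) (Nat.land (Nat.shiftRight (V (nat_lit 22)) (S (nat_lit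 26))) (nat_lit 65535))))) (Nat.add (Nat.shiftLeft (nat_lit 1) (Nat.land (Nat.shiftRight (V (nat_lit 22)) (S (nat_lit 57))) (nat_lit 65535))) (Nat.add (Nat.shiftLeft (nat_lit 1) (Nat.land (Nat.shiftRight (V (nat_lit 23)) (S (nat_lit 38))) (nat_lit 65535))) (Nat.shiftLeft (nat_lit 1) (Nat.land (Nat.shiftRight (V (nat_lit 23)) (S (nat_lit 54))) (nat_lit 65535)))))) (Nat.add (Nat.add (Nat.shiftLeft (nat_lit 1) (Nat.land (Nat.shiftRight (V (nat_lit 24)) (S (nat_lit 20))) (nat_lit 65535))) (Nat.add (Nat.shiftLeft (nat_lit 1) (Nat.land (Nat.shiftRight (V (nat_lit 24)) (S (nat_lit 54))) (nat_lit 65535))) (Nat.shiftLeft (nat_lit 1) (Nat.land (Nat.shiftRight (V (nat_lit 25)) (S (nat_lit 21))) (nat_lit 65535))))) (Nat.add (Nat.shiftLeft (nat_lit 1) (Nat.land (Nat.shiftRight (V (nat_lit 25)) (S (nat_lit 44))) (nat_lit 65535))) (Nat.add (Nat.shiftLeft (nat_lit 1) (Nat.land (Nat.shiftRight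 (V (nat_lit 26)) (S (nat_lit 18))) (nat_lit 65535))) (Nat.shiftLeft (nat_lit 1) (Nat.land (Nat.shiftRight (V (nat_lit 26)) (S (nat_lit 22))) (nat_lit 65535)))))))) (Nat.add (Nat.add (Nat.add (Nat.add (Nat.shiftLeft (nat_lit 1) (Nat.land (Nat.shiftRight (V (nat_lit 32)) (S (nat_lit 16))) (nat_lit 65535))) (Nat.add (Nat.shiftLeft (nat_lit 1) (Nat.land (Nat.shiftRight (V (nat_lit 32)) (S (nat_lit 37))) (nat_lit 65535))) (Nat.shiftLeft (nat_lit 1) (Nat.land (Nat.shiftRight (V (nat_lit 34)) (S (nat_lit 15))) (nat_lit 65535))))) (Nat.add (Nat.shiftLeft (nat_lit 1) (Nat.land (Nat.shiftRight (V (nat_lit 34)) (S (nat_lit 50))) (nat_lit 65535))) (Nat.add (Nat.shiftLeft (nat_lit 1) (Nat.land (Nat.shiftRight (V (nat_lit 36)) (S (nat_lit 17))) (nat_lit 65535))) (Nat.shiftLeft (nat_lit 1) (Nat.land (Nat.shiftRight (V (nat_lit 36)) (S (nat_lit 57))) (nat_lit 65535)))))) (Nat.add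 (Nat.add (Nat.shiftLeft (nat_lit 1) (Nat.land (Nat.shiftRight (V (nat_lit 37)) (S (nat_lit 21))) (nat_lit 65535))) (Nat.add (Nat.shiftLeft (nat_lit 1) (Nat.land (Nat.shiftRight (V (nat_lit 37)) (S (nat_lit 32))) (nat_lit 65535))) (Nat.shiftLeft (nat_lit 1) (Nat.land (Nat.shiftRight (V (nat_lit 38)) (S (nat_lit 15))) (nat_lit 65535))))) (Nat.add (Nat.shiftLeft (nat_lit 1) (Nat.land (Nat.shiftRight (V (nat_lit 38)) (S (nat_lit 23))) (nat_lit 65535))) (Nat.add (Nat.shiftLeft (nat_lit 1) (Nat.land (Nat.shiftRight (V (nat_lit 44)) (S (nat_lit 19))) (nat_lit 65535))) (Nat.shiftLeft (nat_lit 1) (Nat.land (Nat.shiftRight (V (nat_lit 44)) (S (nat_lit 25))) (nat_lit 65535))))))) (Nat.add (Nat.add (Nat.add (Nat.shiftLeft (nat_lit 1) (Nat.land (Nat.shiftRight (V (nat_lit 46)) (S (nat_lit 18))) (nat_lit 65535))) (Nat.add (Nat.shiftLeft (nat_lit 1) (Nat.land (Nat.shiftRight (V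 (nat_lit 46)) (S (nat_lit 49))) (nat_lit 65535))) (Nat.shiftLeft (nat_lit 1) (Nat.land (Nat.shiftRight (V (nat_lit 48)) (S (nat_lit 16))) (nat_lit 65535))))) (Nat.add (Nat.shiftLeft (nat_lit 1) (Nat.land (Nat.shiftRight (V (nat_lit 48)) (S (nat_lit 19))) (nat_lit 65535))) (Nat.add (Nat.shiftLeft (nat_lit 1) (Nat.land (Nat.shiftRight (V (nat_lit 49)) (S (nat_lit 17))) (nat_lit 65535))) (Nat.shiftLeft (nat_lit 1) (Nat.land (Nat.shiftRight (V (nat_lit 49)) (S (nat_lit 46))) (nat_lit 65535)))))) (Nat.add (Nat.add (Nat.shiftLeft (nat_lit 1) (Nat.land (Nat.shiftRight (V (nat_lit 50)) (S (nat_lit 20))) (nat_lit 65535))) (Nat.add (Nat.shiftLeft (nat_lit 1) (Nat.land (Nat.shiftRight (V (nat_lit 50)) (S (nat_lit 34))) (nat_lit 65535))) (Nat.shiftLeft (nat_lit 1) (Nat.land (Nat.shiftRight (V (nat_lit 54)) (S (nat_lit 23))) (nat_lit 65535))))) (Nat.add (Nat.shiftLeft (nat_lit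 1) (Nat.land (Nat.shiftRight (V (nat_lit 54)) (S (nat_lit 24))) (nat_lit 65535))) (Nat.add (Nat.shiftLeft (nat_lit 1) (Nat.land (Nat.shiftRight (V (nat_lit 57)) (S (nat_lit 22))) (nat_lit 65535))) (Nat.shiftLeft (nat_lit 1) (Nat.land (Nat.shiftRight (V (nat_lit 57)) (S (nat_lit 36))) (nat_lit 65535))))))))
def E100_2 (V S : ℕ → ℕ) : ℕ := Nat.add (Nat.add (Nat.add (Nat.add (Nat.add (Nat.add (Nat.shiftLeft (nat_lit 1) (Nat.land (Nat.shiftRight (V (nat_lit 15)) (S (nat_lit 35))) (nat_lit 65535))) (Nat.add (Nat.shiftLeft (nat_lit 1) (Nat.land (Nat.shiftRight (V (nat_lit 15)) (S (nat_lit 44))) (nat_lit 65535))) (Nat.shiftLeft (nat_lit 1) (Nat.land (Nat.shiftRight (V (nat_lit 15)) (S (nat_lit 57))) (nat_lit 65535))))) (Nat.add (Nat.shiftLeft (nat_lit 1) (Nat.land (Nat.shiftRight (V (nat_lit 15)) (S (nat_lit 58))) (nat_lit 65535))) (Nat.add (Nat.shiftLeft (nat_lit 1) (Nat.land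 (Nat.shiftRight (V (nat_lit 16)) (S (nat_lit 30))) (nat_lit 65535))) (Nat.shiftLeft (nat_lit 1) (Nat.land (Nat.shiftRight (V (nat_lit 16)) (S (nat_lit 46))) (nat_lit 65535)))))) (Nat.add (Nat.add (Nat.shiftLeft (nat_lit 1) (Nat.land (Nat.shiftRight (V (nat_lit 16)) (S (nat_lit 47))) (nat_lit 65535))) (Nat.add (Nat.shiftLeft (nat_lit 1) (Nat.land (Nat.shiftRight (V (nat_lit 16)) (S (nat_lit 54))) (nat_lit 65535))) (Nat.shiftLeft (nat_lit 1) (Nat.land (Nat.shiftRight (V (nat_lit 18)) (S (nat_lit 32))) (nat_lit 65535))))) (Nat.add (Nat.shiftLeft (nat_lit 1) (Nat.land (Nat.shiftRight (V (nat_lit 18)) (S (nat_lit 47))) (nat_lit 65535))) (Nat.add (Nat.shiftLeft (nat_lit 1) (Nat.land (Nat.shiftRight (V (nat_lit 18)) (S (nat_lit 54))) (nat_lit 65535))) (Nat.shiftLeft (nat_lit 1) (Nat.land (Nat.shiftRight (V (nat_lit 18)) (S (nat_lit 55))) (nat_lit 65535))))))) (Nat.add (Nat.add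 (Nat.add (Nat.shiftLeft (nat_lit 1) (Nat.land (Nat.shiftRight (V (nat_lit 19)) (S (nat_lit 34))) (nat_lit 65535))) (Nat.add (Nat.shiftLeft (nat_lit 1) (Nat.land (Nat.shiftRight (V (nat_lit 19)) (S (nat_lit 35))) (nat_lit 65535))) (Nat.shiftLeft (nat_lit 1) (Nat.land (Nat.shiftRight (V (nat_lit 19)) (S (nat_lit 42))) (nat_lit 65535))))) (Nat.add (Nat.shiftLeft (nat_lit 1) (Nat.land (Nat.shiftRight (V (nat_lit 19)) (S (nat_lit 57))) (nat_lit 65535))) (Nat.add (Nat.shiftLeft (nat_lit 1) (Nat.land (Nat.shiftRight (V (nat_lit 22)) (S (nat_lit 34))) (nat_lit 65535))) (Nat.shiftLeft (nat_lit 1) (Nat.land (Nat.shiftRight (V (nat_lit 22)) (S (nat_lit 42))) (nat_lit 65535)))))) (Nat.add (Nat.add (Nat.shiftLeft (nat_lit 1) (Nat.land (Nat.shiftRight (V (nat_lit 22)) (S (nat_lit 44))) (nat_lit 65535))) (Nat.add (Nat.shiftLeft (nat_lit 1) (Nat.land (Nat.shiftRight (V (nat_lit 22))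 (S (nat_lit 58))) (nat_lit 65535))) (Nat.shiftLeft (nat_lit 1) (Nat.land (Nat.shiftRight (V (nat_lit 23)) (S (nat_lit 30))) (nat_lit 65535))))) (Nat.add (Nat.shiftLeft (nat_lit 1) (Nat.land (Nat.shiftRight (V (nat_lit 23)) (S (nat_lit 32))) (nat_lit 65535))) (Nat.add (Nat.shiftLeft (nat_lit 1) (Nat.land (Nat.shiftRight (V (nat_lit 23)) (S (nat_lit 46))) (nat_lit 65535))) (Nat.shiftLeft (nat_lit 1) (Nat.land (Nat.shiftRight (V (nat_lit 23)) (S (nat_lit 55))) (nat_lit 65535)))))))) (Nat.add (Nat.add (Nat.add (Nat.add (Nat.shiftLeft (nat_lit 1) (Nat.land (Nat.shiftRight (V (nat_lit 24)) (S (nat_lit 32))) (nat_lit 65535))) (Nat.add (Nat.shiftLeft (nat_lit 1) (Nat.land (Nat.shiftRight (V (nat_lit 24)) (S (nat_lit 45))) (nat_lit 65535))) (Nat.shiftLeft (nat_lit 1) (Nat.land (Nat.shiftRight (V (nat_lit 24)) (S (nat_lit 46))) (nat_lit 65535))))) (Nat.add (Nat.shiftLeft (nat_lit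 1) (Nat.land (Nat.shiftRight (V (nat_lit 24)) (S (nat_lit 56))) (nat_lit 65535))) (Nat.add (Nat.shiftLeft (nat_lit 1) (Nat.land (Nat.shiftRight (V (nat_lit 25)) (S (nat_lit 34))) (nat_lit 65535))) (Nat.shiftLeft (nat_lit 1) (Nat.land (Nat.shiftRight (V (nat_lit 25)) (S (nat_lit 43))) (nat_lit 65535)))))) (Nat.add (Nat.add (Nat.shiftLeft (nat_lit 1) (Nat.land (Nat.shiftRight (V (nat_lit 25)) (S (nat_lit 57))) (nat_lit 65535))) (Nat.add (Nat.shiftLeft (nat_lit 1) (Nat.land (Nat.shiftRight (V (nat_lit 25)) (S (nat_lit 59))) (nat_lit 65535))) (Nat.shiftLeft (nat_lit 1) (Nat.land (Nat.shiftRight (V (nat_lit 30)) (S (nat_lit 16))) (nat_lit 65535))))) (Nat.add (Nat.shiftLeft (nat_lit 1) (Nat.land (Nat.shiftRight (V (nat_lit 30)) (S (nat_lit 23))) (nat_lit 65535))) (Nat.add (Nat.shiftLeft (nat_lit 1) (Nat.land (Nat.shiftRight (V (nat_lit 31)) (S (nat_lit 37))) (nat_lit 65535)))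 (Nat.shiftLeft (nat_lit 1) (Nat.land (Nat.shiftRight (V (nat_lit 31)) (S (nat_lit 49))) (nat_lit 65535))))))) (Nat.add (Nat.add (Nat.add (Nat.shiftLeft (nat_lit 1) (Nat.land (Nat.shiftRight (V (nat_lit 32)) (S (nat_lit 18))) (nat_lit 65535))) (Nat.add (Nat.shiftLeft (nat_lit 1) (Nat.land (Nat.shiftRight (V (nat_lit 32)) (S (nat_lit 23))) (nat_lit 65535))) (Nat.shiftLeft (nat_lit 1) (Nat.land (Nat.shiftRight (V (nat_lit 32)) (S (nat_lit 24))) (nat_lit 65535))))) (Nat.add (Nat.shiftLeft (nat_lit 1) (Nat.land (Nat.shiftRight (V (nat_lit 32)) (S (nat_lit 49))) (nat_lit 65535))) (Nat.add (Nat.shiftLeft (nat_lit 1) (Nat.land (Nat.shiftRight (V (nat_lit 33)) (S (nat_lit 36))) (nat_lit 65535))) (Nat.shiftLeft (nat_lit 1) (Nat.land (Nat.shiftRight (V (nat_lit 33)) (S (nat_lit 50))) (nat_lit 65535)))))) (Nat.add (Nat.add (Nat.shiftLeft (nat_lit 1) (Nat.land (Nat.shiftRight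 (V (nat_lit 34)) (S (nat_lit 19))) (nat_lit 65535))) (Nat.add (Nat.shiftLeft (nat_lit 1) (Nat.land (Nat.shiftRight (V (nat_lit 34)) (S (nat_lit 22))) (nat_lit 65535))) (Nat.shiftLeft (nat_lit 1) (Nat.land (Nat.shiftRight (V (nat_lit 34)) (S (nat_lit 25))) (nat_lit 65535))))) (Nat.add (Nat.shiftLeft (nat_lit 1) (Nat.land (Nat.shiftRight (V (nat_lit 34)) (S (nat_lit 36))) (nat_lit 65535))) (Nat.add (Nat.shiftLeft (nat_lit 1) (Nat.land (Nat.shiftRight (V (nat_lit 35)) (S (nat_lit 15))) (nat_lit 65535))) (Nat.shiftLeft (nat_lit 1) (Nat.land (Nat.shiftRight (V (nat_lit 35)) (S (nat_lit 19))) (nat_lit 65535))))))))) (Nat.add (Nat.add (Nat.add (Nat.add (Nat.add (Nat.shiftLeft (nat_lit 1) (Nat.land (Nat.shiftRight (V (nat_lit 36)) (S (nat_lit 33))) (nat_lit 65535))) (Nat.add (Nat.shiftLeft (nat_lit 1) (Nat.land (Nat.shiftRight (V (nat_lit 36)) (S (nat_lit 34))) (nat_lit 65535)))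 (Nat.shiftLeft (nat_lit 1) (Nat.land (Nat.shiftRight (V (nat_lit 36)) (S (nat_lit 44))) (nat_lit 65535))))) (Nat.add (Nat.shiftLeft (nat_lit 1) (Nat.land (Nat.shiftRight (V (nat_lit 36)) (S (nat_lit 59))) (nat_lit 65535))) (Nat.add (Nat.shiftLeft (nat_lit 1) (Nat.land (Nat.shiftRight (V (nat_lit 37)) (S (nat_lit 31))) (nat_lit 65535))) (Nat.shiftLeft (nat_lit 1) (Nat.land (Nat.shiftRight (V (nat_lit 37)) (S (nat_lit 46))) (nat_lit 65535)))))) (Nat.add (Nat.add (Nat.shiftLeft (nat_lit 1) (Nat.land (Nat.shiftRight (V (nat_lit 37)) (S (nat_lit 54))) (nat_lit 65535))) (Nat.add (Nat.shiftLeft (nat_lit 1) (Nat.land (Nat.shiftRight (V (nat_lit 37)) (S (nat_lit 56))) (nat_lit 65535))) (Nat.shiftLeft (nat_lit 1) (Nat.land (Nat.shiftRight (V (nat_lit 42)) (S (nat_lit 19))) (nat_lit 65535))))) (Nat.add (Nat.shiftLeft (nat_lit 1) (Nat.land (Nat.shiftRight (V (nat_lit 42)) (S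 (nat_lit 22))) (nat_lit 65535))) (Nat.add (Nat.shiftLeft (nat_lit 1) (Nat.land (Nat.shiftRight (V (nat_lit 43)) (S (nat_lit 25))) (nat_lit 65535))) (Nat.shiftLeft (nat_lit 1) (Nat.land (Nat.shiftRight (V (nat_lit 43)) (S (nat_lit 50))) (nat_lit 65535))))))) (Nat.add (Nat.add (Nat.add (Nat.shiftLeft (nat_lit 1) (Nat.land (Nat.shiftRight (V (nat_lit 44)) (S (nat_lit 15))) (nat_lit 65535))) (Nat.add (Nat.shiftLeft (nat_lit 1) (Nat.land (Nat.shiftRight (V (nat_lit 44)) (S (nat_lit 22))) (nat_lit 65535))) (Nat.shiftLeft (nat_lit 1) (Nat.land (Nat.shiftRight (V (nat_lit 44)) (S (nat_lit 36))) (nat_lit 65535))))) (Nat.add (Nat.shiftLeft (nat_lit 1) (Nat.land (Nat.shiftRight (V (nat_lit 44)) (S (nat_lit 50))) (nat_lit 65535))) (Nat.add (Nat.shiftLeft (nat_lit 1) (Nat.land (Nat.shiftRight (V (nat_lit 45)) (S (nat_lit 24))) (nat_lit 65535))) (Nat.shiftLeft (nat_lit 1) (Nat.land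 (Nat.shiftRight (V (nat_lit 45)) (S (nat_lit 49))) (nat_lit 65535)))))) (Nat.add (Nat.add (Nat.shiftLeft (nat_lit 1) (Nat.land (Nat.shiftRight (V (nat_lit 46)) (S (nat_lit 16))) (nat_lit 65535))) (Nat.add (Nat.shiftLeft (nat_lit 1) (Nat.land (Nat.shiftRight (V (nat_lit 46)) (S (nat_lit 23))) (nat_lit 65535))) (Nat.shiftLeft (nat_lit 1) (Nat.land (Nat.shiftRight (V (nat_lit 46)) (S (nat_lit 24))) (nat_lit 65535))))) (Nat.add (Nat.shiftLeft (nat_lit 1) (Nat.land (Nat.shiftRight (V (nat_lit 46)) (S (nat_lit 37))) (nat_lit 65535))) (Nat.add (Nat.shiftLeft (nat_lit 1) (Nat.land (Nat.shiftRight (V (nat_lit 47)) (S (nat_lit 16))) (nat_lit 65535))) (Nat.shiftLeft (nat_lit 1) (Nat.land (Nat.shiftRight (V (nat_lit 47)) (S (nat_lit 18))) (nat_lit 65535)))))))) (Nat.add (Nat.add (Nat.add (Nat.add (Nat.shiftLeft (nat_lit 1) (Nat.land (Nat.shiftRight (V (nat_lit 49)) (S (nat_lit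 31))) (nat_lit 65535))) (Nat.add (Nat.shiftLeft (nat_lit 1) (Nat.land (Nat.shiftRight (V (nat_lit 49)) (S (nat_lit 32))) (nat_lit 65535))) (Nat.shiftLeft (nat_lit 1) (Nat.land (Nat.shiftRight (V (nat_lit 49)) (S (nat_lit 45))) (nat_lit 65535))))) (Nat.add (Nat.shiftLeft (nat_lit 1) (Nat.land (Nat.shiftRight (V (nat_lit 49)) (S (nat_lit 54))) (nat_lit 65535))) (Nat.add (Nat.shiftLeft (nat_lit 1) (Nat.land (Nat.shiftRight (V (nat_lit 50)) (S (nat_lit 33))) (nat_lit 65535))) (Nat.shiftLeft (nat_lit 1) (Nat.land (Nat.shiftRight (V (nat_lit 50)) (S (nat_lit 43))) (nat_lit 65535)))))) (Nat.add (Nat.add (Nat.shiftLeft (nat_lit 1) (Nat.land (Nat.shiftRight (V (nat_lit 50)) (S (nat_lit 44))) (nat_lit 65535))) (Nat.add (Nat.shiftLeft (nat_lit 1) (Nat.land (Nat.shiftRight (V (nat_lit 50)) (S (nat_lit 57))) (nat_lit 65535))) (Nat.shiftLeft (nat_lit 1) (Nat.land (Nat.shiftRight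 (V (nat_lit 54)) (S (nat_lit 16))) (nat_lit 65535))))) (Nat.add (Nat.shiftLeft (nat_lit 1) (Nat.land (Nat.shiftRight (V (nat_lit 54)) (S (nat_lit 18))) (nat_lit 65535))) (Nat.add (Nat.shiftLeft (nat_lit 1) (Nat.land (Nat.shiftRight (V (nat_lit 54)) (S (nat_lit 37))) (nat_lit 65535))) (Nat.shiftLeft (nat_lit 1) (Nat.land (Nat.shiftRight (V (nat_lit 54)) (S (nat_lit 49))) (nat_lit 65535))))))) (Nat.add (Nat.add (Nat.add (Nat.shiftLeft (nat_lit 1) (Nat.land (Nat.shiftRight (V (nat_lit 55)) (S (nat_lit 18))) (nat_lit 65535))) (Nat.add (Nat.shiftLeft (nat_lit 1) (Nat.land (Nat.shiftRight (V (nat_lit 55)) (S (nat_lit 23))) (nat_lit 65535))) (Nat.shiftLeft (nat_lit 1) (Nat.land (Nat.shiftRight (V (nat_lit 56)) (S (nat_lit 24))) (nat_lit 65535))))) (Nat.add (Nat.shiftLeft (nat_lit 1) (Nat.land (Nat.shiftRight (V (nat_lit 56)) (S (nat_lit 37))) (nat_lit 65535))) (Nat.add (Nat.shiftLeft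 (nat_lit 1) (Nat.land (Nat.shiftRight (V (nat_lit 57)) (S (nat_lit 15))) (nat_lit 65535))) (Nat.shiftLeft (nat_lit 1) (Nat.land (Nat.shiftRight (V (nat_lit 57)) (S (nat_lit 19))) (nat_lit 65535)))))) (Nat.add (Nat.add (Nat.shiftLeft (nat_lit 1) (Nat.land (Nat.shiftRight (V (nat_lit 57)) (S (nat_lit 25))) (nat_lit 65535))) (Nat.add (Nat.shiftLeft (nat_lit 1) (Nat.land (Nat.shiftRight (V (nat_lit 57)) (S (nat_lit 50))) (nat_lit 65535))) (Nat.shiftLeft (nat_lit 1) (Nat.land (Nat.shiftRight (V (nat_lit 58)) (S (nat_lit 15))) (nat_lit 65535))))) (Nat.add (Nat.shiftLeft (nat_lit 1) (Nat.land (Nat.shiftRight (V (nat_lit 58)) (S (nat_lit 22))) (nat_lit 65535))) (Nat.add (Nat.shiftLeft (nat_lit 1) (Nat.land (Nat.shiftRight (V (nat_lit 59)) (S (nat_lit 25))) (nat_lit 65535))) (Nat.shiftLeft (nat_lit 1) (Nat.land (Nat.shiftRight (V (nat_lit 59)) (S (nat_lit 36))) (nat_lit 65535)))))))))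
def E101_2 (V S : ℕ → ℕ) : ℕ := Nat.add (Nat.add (Nat.add (Nat.add (Nat.add (Nat.shiftLeft (nat_lit 1) (Nat.land (Nat.shiftRight (V (nat_lit 15)) (S (nat_lit 45))) (nat_lit 65535))) (Nat.add (Nat.shiftLeft (nat_lit 1) (Nat.land (Nat.shiftRight (V (nat_lit 15)) (S (nat_lit 56))) (nat_lit 65535))) (Nat.shiftLeft (nat_lit 1) (Nat.land (Nat.shiftRight (V (nat_lit 16)) (S (nat_lit 43))) (nat_lit 65535))))) (Nat.add (Nat.shiftLeft (nat_lit 1) (Nat.land (Nat.shiftRight (V (nat_lit 16)) (S (nat_lit 59))) (nat_lit 65535))) (Nat.add (Nat.shiftLeft (nat_lit 1) (Nat.land (Nat.shiftRight (V (nat_lit 18)) (S (nat_lit 33))) (nat_lit 65535))) (Nat.shiftLeft (nat_lit 1) (Nat.land (Nat.shiftRight (V (nat_lit 18)) (S (nat_lit 59))) (nat_lit 65535)))))) (Nat.add (Nat.add (Nat.shiftLeft (nat_lit 1) (Nat.land (Nat.shiftRight (V (nat_lit 19)) (S (nat_lit 31))) (nat_lit 65535))) (Nat.add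 (Nat.shiftLeft (nat_lit 1) (Nat.land (Nat.shiftRight (V (nat_lit 19)) (S (nat_lit 56))) (nat_lit 65535))) (Nat.shiftLeft (nat_lit 1) (Nat.land (Nat.shiftRight (V (nat_lit 22)) (S (nat_lit 31))) (nat_lit 65535))))) (Nat.add (Nat.shiftLeft (nat_lit 1) (Nat.land (Nat.shiftRight (V (nat_lit 22)) (S (nat_lit 45))) (nat_lit 65535))) (Nat.add (Nat.shiftLeft (nat_lit 1) (Nat.land (Nat.shiftRight (V (nat_lit 23)) (S (nat_lit 33))) (nat_lit 65535))) (Nat.shiftLeft (nat_lit 1) (Nat.land (Nat.shiftRight (V (nat_lit 23)) (S (nat_lit 43))) (nat_lit 65535))))))) (Nat.add (Nat.add (Nat.add (Nat.shiftLeft (nat_lit 1) (Nat.land (Nat.shiftRight (V (nat_lit 24)) (S (nat_lit 35))) (nat_lit 65535))) (Nat.add (Nat.shiftLeft (nat_lit 1) (Nat.land (Nat.shiftRight (V (nat_lit 24)) (S (nat_lit 58))) (nat_lit 65535))) (Nat.shiftLeft (nat_lit 1) (Nat.land (Nat.shiftRight (V (nat_lit 25)) (S (nat_lit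 30))) (nat_lit 65535))))) (Nat.add (Nat.shiftLeft (nat_lit 1) (Nat.land (Nat.shiftRight (V (nat_lit 25)) (S (nat_lit 47))) (nat_lit 65535))) (Nat.add (Nat.shiftLeft (nat_lit 1) (Nat.land (Nat.shiftRight (V (nat_lit 30)) (S (nat_lit 25))) (nat_lit 65535))) (Nat.shiftLeft (nat_lit 1) (Nat.land (Nat.shiftRight (V (nat_lit 30)) (S (nat_lit 50))) (nat_lit 65535)))))) (Nat.add (Nat.add (Nat.shiftLeft (nat_lit 1) (Nat.land (Nat.shiftRight (V (nat_lit 31)) (S (nat_lit 19))) (nat_lit 65535))) (Nat.add (Nat.shiftLeft (nat_lit 1) (Nat.land (Nat.shiftRight (V (nat_lit 31)) (S (nat_lit 22))) (nat_lit 65535))) (Nat.shiftLeft (nat_lit 1) (Nat.land (Nat.shiftRight (V (nat_lit 33)) (S (nat_lit 18))) (nat_lit 65535))))) (Nat.add (Nat.shiftLeft (nat_lit 1) (Nat.land (Nat.shiftRight (V (nat_lit 33)) (S (nat_lit 23))) (nat_lit 65535))) (Nat.add (Nat.shiftLeft (nat_lit 1) (Nat.land (Nat.shiftRight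 (V (nat_lit 35)) (S (nat_lit 24))) (nat_lit 65535))) (Nat.shiftLeft (nat_lit 1) (Nat.land (Nat.shiftRight (V (nat_lit 35)) (S (nat_lit 37))) (nat_lit 65535)))))))) (Nat.add (Nat.add (Nat.add (Nat.add (Nat.shiftLeft (nat_lit 1) (Nat.land (Nat.shiftRight (V (nat_lit 36)) (S (nat_lit 47))) (nat_lit 65535))) (Nat.add (Nat.shiftLeft (nat_lit 1) (Nat.land (Nat.shiftRight (V (nat_lit 36)) (S (nat_lit 55))) (nat_lit 65535))) (Nat.shiftLeft (nat_lit 1) (Nat.land (Nat.shiftRight (V (nat_lit 37)) (S (nat_lit 35))) (nat_lit 65535))))) (Nat.add (Nat.shiftLeft (nat_lit 1) (Nat.land (Nat.shiftRight (V (nat_lit 37)) (S (nat_lit 42))) (nat_lit 65535))) (Nat.add (Nat.shiftLeft (nat_lit 1) (Nat.land (Nat.shiftRight (V (nat_lit 42)) (S (nat_lit 37))) (nat_lit 65535))) (Nat.shiftLeft (nat_lit 1) (Nat.land (Nat.shiftRight (V (nat_lit 42)) (S (nat_lit 49))) (nat_lit 65535)))))) (Nat.add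 (Nat.add (Nat.shiftLeft (nat_lit 1) (Nat.land (Nat.shiftRight (V (nat_lit 43)) (S (nat_lit 16))) (nat_lit 65535))) (Nat.add (Nat.shiftLeft (nat_lit 1) (Nat.land (Nat.shiftRight (V (nat_lit 43)) (S (nat_lit 23))) (nat_lit 65535))) (Nat.shiftLeft (nat_lit 1) (Nat.land (Nat.shiftRight (V (nat_lit 45)) (S (nat_lit 15))) (nat_lit 65535))))) (Nat.add (Nat.shiftLeft (nat_lit 1) (Nat.land (Nat.shiftRight (V (nat_lit 45)) (S (nat_lit 22))) (nat_lit 65535))) (Nat.add (Nat.shiftLeft (nat_lit 1) (Nat.land (Nat.shiftRight (V (nat_lit 47)) (S (nat_lit 25))) (nat_lit 65535))) (Nat.shiftLeft (nat_lit 1) (Nat.land (Nat.shiftRight (V (nat_lit 47)) (S (nat_lit 36))) (nat_lit 65535))))))) (Nat.add (Nat.add (Nat.add (Nat.shiftLeft (nat_lit 1) (Nat.land (Nat.shiftRight (V (nat_lit 49)) (S (nat_lit 42))) (nat_lit 65535))) (Nat.add (Nat.shiftLeft (nat_lit 1) (Nat.land (Nat.shiftRight (V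 (nat_lit 49)) (S (nat_lit 58))) (nat_lit 65535))) (Nat.shiftLeft (nat_lit 1) (Nat.land (Nat.shiftRight (V (nat_lit 50)) (S (nat_lit 30))) (nat_lit 65535))))) (Nat.add (Nat.shiftLeft (nat_lit 1) (Nat.land (Nat.shiftRight (V (nat_lit 50)) (S (nat_lit 55))) (nat_lit 65535))) (Nat.add (Nat.shiftLeft (nat_lit 1) (Nat.land (Nat.shiftRight (V (nat_lit 55)) (S (nat_lit 36))) (nat_lit 65535))) (Nat.shiftLeft (nat_lit 1) (Nat.land (Nat.shiftRight (V (nat_lit 55)) (S (nat_lit 50))) (nat_lit 65535)))))) (Nat.add (Nat.add (Nat.shiftLeft (nat_lit 1) (Nat.land (Nat.shiftRight (V (nat_lit 56)) (S (nat_lit 15))) (nat_lit 65535))) (Nat.add (Nat.shiftLeft (nat_lit 1) (Nat.land (Nat.shiftRight (V (nat_lit 56)) (S (nat_lit 19))) (nat_lit 65535))) (Nat.shiftLeft (nat_lit 1) (Nat.land (Nat.shiftRight (V (nat_lit 58)) (S (nat_lit 24))) (nat_lit 65535))))) (Nat.add (Nat.shiftLeft (nat_lit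 1) (Nat.land (Nat.shiftRight (V (nat_lit 58)) (S (nat_lit 49))) (nat_lit 65535))) (Nat.add (Nat.shiftLeft (nat_lit 1) (Nat.land (Nat.shiftRight (V (nat_lit 59)) (S (nat_lit 16))) (nat_lit 65535))) (Nat.shiftLeft (nat_lit 1) (Nat.land (Nat.shiftRight (V (nat_lit 59)) (S (nat_lit 18))) (nat_lit 65535))))))))
def E102_2 (V S : ℕ → ℕ) : ℕ := Nat.add (Nat.add (Nat.add (Nat.add (Nat.shiftLeft (nat_lit 1) (Nat.land (Nat.shiftRight (V (nat_lit 17)) (S (nat_lit 30))) (nat_lit 65535))) (Nat.add (Nat.shiftLeft (nat_lit 1) (Nat.land (Nat.shiftRight (V (nat_lit 17)) (S (nat_lit 35))) (nat_lit 65535))) (Nat.shiftLeft (nat_lit 1) (Nat.land (Nat.shiftRight (V (nat_lit 20)) (S (nat_lit 42))) (nat_lit 65535))))) (Nat.add (Nat.shiftLeft (nat_lit 1) (Nat.land (Nat.shiftRight (V (nat_lit 20)) (S (nat_lit 47))) (nat_lit 65535))) (Nat.add (Nat.shiftLeft (nat_lit 1) (Nat.land (Nat.shiftRight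 (V (nat_lit 21)) (S (nat_lit 55))) (nat_lit 65535))) (Nat.shiftLeft (nat_lit 1) (Nat.land (Nat.shiftRight (V (nat_lit 21)) (S (nat_lit 58))) (nat_lit 65535)))))) (Nat.add (Nat.add (Nat.shiftLeft (nat_lit 1) (Nat.land (Nat.shiftRight (V (nat_lit 26)) (S (nat_lit 43))) (nat_lit 65535))) (Nat.add (Nat.shiftLeft (nat_lit 1) (Nat.land (Nat.shiftRight (V (nat_lit 26)) (S (nat_lit 56))) (nat_lit 65535))) (Nat.shiftLeft (nat_lit 1) (Nat.land (Nat.shiftRight (V (nat_lit 30)) (S (nat_lit 17))) (nat_lit 65535))))) (Nat.add (Nat.shiftLeft (nat_lit 1) (Nat.land (Nat.shiftRight (V (nat_lit 31)) (S (nat_lit 38))) (nat_lit 65535))) (Nat.add (Nat.shiftLeft (nat_lit 1) (Nat.land (Nat.shiftRight (V (nat_lit 33)) (S (nat_lit 48))) (nat_lit 65535))) (Nat.shiftLeft (nat_lit 1) (Nat.land (Nat.shiftRight (V (nat_lit 35)) (S (nat_lit 17))) (nat_lit 65535))))))) (Nat.add (Nat.add (Nat.add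 (Nat.shiftLeft (nat_lit 1) (Nat.land (Nat.shiftRight (V (nat_lit 38)) (S (nat_lit 31))) (nat_lit 65535))) (Nat.add (Nat.shiftLeft (nat_lit 1) (Nat.land (Nat.shiftRight (V (nat_lit 38)) (S (nat_lit 59))) (nat_lit 65535))) (Nat.shiftLeft (nat_lit 1) (Nat.land (Nat.shiftRight (V (nat_lit 42)) (S (nat_lit 20))) (nat_lit 65535))))) (Nat.add (Nat.shiftLeft (nat_lit 1) (Nat.land (Nat.shiftRight (V (nat_lit 43)) (S (nat_lit 26))) (nat_lit 65535))) (Nat.add (Nat.shiftLeft (nat_lit 1) (Nat.land (Nat.shiftRight (V (nat_lit 45)) (S (nat_lit 48))) (nat_lit 65535))) (Nat.shiftLeft (nat_lit 1) (Nat.land (Nat.shiftRight (V (nat_lit 47)) (S (nat_lit 20))) (nat_lit 65535)))))) (Nat.add (Nat.add (Nat.shiftLeft (nat_lit 1) (Nat.land (Nat.shiftRight (V (nat_lit 48)) (S (nat_lit 33))) (nat_lit 65535))) (Nat.add (Nat.shiftLeft (nat_lit 1) (Nat.land (Nat.shiftRight (V (nat_lit 48)) (S (nat_lit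 45))) (nat_lit 65535))) (Nat.shiftLeft (nat_lit 1) (Nat.land (Nat.shiftRight (V (nat_lit 55)) (S (nat_lit 21))) (nat_lit 65535))))) (Nat.add (Nat.shiftLeft (nat_lit 1) (Nat.land (Nat.shiftRight (V (nat_lit 56)) (S (nat_lit 26))) (nat_lit 65535))) (Nat.add (Nat.shiftLeft (nat_lit 1) (Nat.land (Nat.shiftRight (V (nat_lit 58)) (S (nat_lit 21))) (nat_lit 65535))) (Nat.shiftLeft (nat_lit 1) (Nat.land (Nat.shiftRight (V (nat_lit 59)) (S (nat_lit 38))) (nat_lit 65535)))))))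
def E103_2 (V S : ℕ → ℕ) : ℕ := Nat.add (Nat.add (Nat.add (Nat.add (Nat.add (Nat.shiftLeft (nat_lit 1) (Nat.land (Nat.shiftRight (V (nat_lit 17)) (S (nat_lit 31))) (nat_lit 65535))) (Nat.add (Nat.shiftLeft (nat_lit 1) (Nat.land (Nat.shiftRight (V (nat_lit 17)) (S (nat_lit 33))) (nat_lit 65535))) (Nat.shiftLeft (nat_lit 1) (Nat.land (Nat.shiftRight (V (nat_lit 17)) (S (nat_lit 45))) (nat_lit 65535))))) (Nat.add (Nat.shiftLeft (nat_lit 1) (Nat.land (Nat.shiftRight (V (nat_lit 17)) (S (nat_lit 59))) (nat_lit 65535))) (Nat.add (Nat.shiftLeft (nat_lit 1) (Nat.land (Nat.shiftRight (V (nat_lit 20)) (S (nat_lit 33))) (nat_lit 65535))) (Nat.shiftLeft (nat_lit 1) (Nat.land (Nat.shiftRight (V (nat_lit 20)) (S (nat_lit 43))) (nat_lit 65535)))))) (Nat.add (Nat.add (Nat.shiftLeft (nat_lit 1) (Nat.land (Nat.shiftRight (V (nat_lit 20)) (S (nat_lit 45))) (nat_lit 65535))) (Nat.add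 (Nat.shiftLeft (nat_lit 1) (Nat.land (Nat.shiftRight (V (nat_lit 20)) (S (nat_lit 56))) (nat_lit 65535))) (Nat.shiftLeft (nat_lit 1) (Nat.land (Nat.shiftRight (V (nat_lit 21)) (S (nat_lit 31))) (nat_lit 65535))))) (Nat.add (Nat.shiftLeft (nat_lit 1) (Nat.land (Nat.shiftRight (V (nat_lit 21)) (S (nat_lit 43))) (nat_lit 65535))) (Nat.add (Nat.shiftLeft (nat_lit 1) (Nat.land (Nat.shiftRight (V (nat_lit 21)) (S (nat_lit 56))) (nat_lit 65535))) (Nat.shiftLeft (nat_lit 1) (Nat.land (Nat.shiftRight (V (nat_lit 21)) (S (nat_lit 59))) (nat_lit 65535))))))) (Nat.add (Nat.add (Nat.add (Nat.shiftLeft (nat_lit 1) (Nat.land (Nat.shiftRight (V (nat_lit 26)) (S (nat_lit 42))) (nat_lit 65535))) (Nat.add (Nat.shiftLeft (nat_lit 1) (Nat.land (Nat.shiftRight (V (nat_lit 26)) (S (nat_lit 47))) (nat_lit 65535))) (Nat.shiftLeft (nat_lit 1) (Nat.land (Nat.shiftRight (V (nat_lit 26)) (S (nat_lit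 55))) (nat_lit 65535))))) (Nat.add (Nat.shiftLeft (nat_lit 1) (Nat.land (Nat.shiftRight (V (nat_lit 26)) (S (nat_lit 58))) (nat_lit 65535))) (Nat.add (Nat.shiftLeft (nat_lit 1) (Nat.land (Nat.shiftRight (V (nat_lit 30)) (S (nat_lit 38))) (nat_lit 65535))) (Nat.shiftLeft (nat_lit 1) (Nat.land (Nat.shiftRight (V (nat_lit 30)) (S (nat_lit 48))) (nat_lit 65535)))))) (Nat.add (Nat.add (Nat.shiftLeft (nat_lit 1) (Nat.land (Nat.shiftRight (V (nat_lit 31)) (S (nat_lit 17))) (nat_lit 65535))) (Nat.add (Nat.shiftLeft (nat_lit 1) (Nat.land (Nat.shiftRight (V (nat_lit 31)) (S (nat_lit 21))) (nat_lit 65535))) (Nat.shiftLeft (nat_lit 1) (Nat.land (Nat.shiftRight (V (nat_lit 33)) (S (nat_lit 17))) (nat_lit 65535))))) (Nat.add (Nat.shiftLeft (nat_lit 1) (Nat.land (Nat.shiftRight (V (nat_lit 33)) (S (nat_lit 20))) (nat_lit 65535))) (Nat.add (Nat.shiftLeft (nat_lit 1) (Nat.land (Nat.shiftRight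 (V (nat_lit 35)) (S (nat_lit 38))) (nat_lit 65535))) (Nat.shiftLeft (nat_lit 1) (Nat.land (Nat.shiftRight (V (nat_lit 35)) (S (nat_lit 48))) (nat_lit 65535)))))))) (Nat.add (Nat.add (Nat.add (Nat.add (Nat.shiftLeft (nat_lit 1) (Nat.land (Nat.shiftRight (V (nat_lit 38)) (S (nat_lit 30))) (nat_lit 65535))) (Nat.add (Nat.shiftLeft (nat_lit 1) (Nat.land (Nat.shiftRight (V (nat_lit 38)) (S (nat_lit 35))) (nat_lit 65535))) (Nat.shiftLeft (nat_lit 1) (Nat.land (Nat.shiftRight (V (nat_lit 38)) (S (nat_lit 55))) (nat_lit 65535))))) (Nat.add (Nat.shiftLeft (nat_lit 1) (Nat.land (Nat.shiftRight (V (nat_lit 38)) (S (nat_lit 58))) (nat_lit 65535))) (Nat.add (Nat.shiftLeft (nat_lit 1) (Nat.land (Nat.shiftRight (V (nat_lit 42)) (S (nat_lit 26))) (nat_lit 65535))) (Nat.shiftLeft (nat_lit 1) (Nat.land (Nat.shiftRight (V (nat_lit 42)) (S (nat_lit 48))) (nat_lit 65535)))))) (Nat.add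 (Nat.add (Nat.shiftLeft (nat_lit 1) (Nat.land (Nat.shiftRight (V (nat_lit 43)) (S (nat_lit 20))) (nat_lit 65535))) (Nat.add (Nat.shiftLeft (nat_lit 1) (Nat.land (Nat.shiftRight (V (nat_lit 43)) (S (nat_lit 21))) (nat_lit 65535))) (Nat.shiftLeft (nat_lit 1) (Nat.land (Nat.shiftRight (V (nat_lit 45)) (S (nat_lit 17))) (nat_lit 65535))))) (Nat.add (Nat.shiftLeft (nat_lit 1) (Nat.land (Nat.shiftRight (V (nat_lit 45)) (S (nat_lit 20))) (nat_lit 65535))) (Nat.add (Nat.shiftLeft (nat_lit 1) (Nat.land (Nat.shiftRight (V (nat_lit 47)) (S (nat_lit 26))) (nat_lit 65535))) (Nat.shiftLeft (nat_lit 1) (Nat.land (Nat.shiftRight (V (nat_lit 47)) (S (nat_lit 48))) (nat_lit 65535))))))) (Nat.add (Nat.add (Nat.add (Nat.shiftLeft (nat_lit 1) (Nat.land (Nat.shiftRight (V (nat_lit 48)) (S (nat_lit 30))) (nat_lit 65535))) (Nat.add (Nat.shiftLeft (nat_lit 1) (Nat.land (Nat.shiftRight (V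 (nat_lit 48)) (S (nat_lit 35))) (nat_lit 65535))) (Nat.shiftLeft (nat_lit 1) (Nat.land (Nat.shiftRight (V (nat_lit 48)) (S (nat_lit 42))) (nat_lit 65535))))) (Nat.add (Nat.shiftLeft (nat_lit 1) (Nat.land (Nat.shiftRight (V (nat_lit 48)) (S (nat_lit 47))) (nat_lit 65535))) (Nat.add (Nat.shiftLeft (nat_lit 1) (Nat.land (Nat.shiftRight (V (nat_lit 55)) (S (nat_lit 26))) (nat_lit 65535))) (Nat.shiftLeft (nat_lit 1) (Nat.land (Nat.shiftRight (V (nat_lit 55)) (S (nat_lit 38))) (nat_lit 65535)))))) (Nat.add (Nat.add (Nat.shiftLeft (nat_lit 1) (Nat.land (Nat.shiftRight (V (nat_lit 56)) (S (nat_lit 20))) (nat_lit 65535))) (Nat.add (Nat.shiftLeft (nat_lit 1) (Nat.land (Nat.shiftRight (V (nat_lit 56)) (S (nat_lit 21))) (nat_lit 65535))) (Nat.shiftLeft (nat_lit 1) (Nat.land (Nat.shiftRight (V (nat_lit 58)) (S (nat_lit 26))) (nat_lit 65535))))) (Nat.add (Nat.shiftLeft (nat_lit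 1) (Nat.land (Nat.shiftRight (V (nat_lit 58)) (S (nat_lit 38))) (nat_lit 65535))) (Nat.add (Nat.shiftLeft (nat_lit 1) (Nat.land (Nat.shiftRight (V (nat_lit 59)) (S (nat_lit 17))) (nat_lit 65535))) (Nat.shiftLeft (nat_lit 1) (Nat.land (Nat.shiftRight (V (nat_lit 59)) (S (nat_lit 21))) (nat_lit 65535))))))))
def E104_2 (V S : ℕ → ℕ) : ℕ := Nat.add (Nat.add (Nat.add (Nat.add (Nat.add (Nat.shiftLeft (nat_lit 1) (Nat.land (Nat.shiftRight (V (nat_lit 17)) (S (nat_lit 42))) (nat_lit 65535))) (Nat.add (Nat.shiftLeft (nat_lit 1) (Nat.land (Nat.shiftRight (V (nat_lit 17)) (S (nat_lit 47))) (nat_lit 65535))) (Nat.shiftLeft (nat_lit 1) (Nat.land (Nat.shiftRight (V (nat_lit 17)) (S (nat_lit 55))) (nat_lit 65535))))) (Nat.add (Nat.shiftLeft (nat_lit 1) (Nat.land (Nat.shiftRight (V (nat_lit 17)) (S (nat_lit 58))) (nat_lit 65535))) (Nat.add (Nat.shiftLeft (nat_lit 1) (Nat.land (Nat.shiftRight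 (V (nat_lit 20)) (S (nat_lit 30))) (nat_lit 65535))) (Nat.shiftLeft (nat_lit 1) (Nat.land (Nat.shiftRight (V (nat_lit 20)) (S (nat_lit 35))) (nat_lit 65535)))))) (Nat.add (Nat.add (Nat.shiftLeft (nat_lit 1) (Nat.land (Nat.shiftRight (V (nat_lit 20)) (S (nat_lit 55))) (nat_lit 65535))) (Nat.add (Nat.shiftLeft (nat_lit 1) (Nat.land (Nat.shiftRight (V (nat_lit 20)) (S (nat_lit 58))) (nat_lit 65535))) (Nat.shiftLeft (nat_lit 1) (Nat.land (Nat.shiftRight (V (nat_lit 21)) (S (nat_lit 30))) (nat_lit 65535))))) (Nat.add (Nat.shiftLeft (nat_lit 1) (Nat.land (Nat.shiftRight (V (nat_lit 21)) (S (nat_lit 35))) (nat_lit 65535))) (Nat.add (Nat.shiftLeft (nat_lit 1) (Nat.land (Nat.shiftRight (V (nat_lit 21)) (S (nat_lit 42))) (nat_lit 65535))) (Nat.shiftLeft (nat_lit 1) (Nat.land (Nat.shiftRight (V (nat_lit 21)) (S (nat_lit 47))) (nat_lit 65535))))))) (Nat.add (Nat.add (Nat.add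 (Nat.shiftLeft (nat_lit 1) (Nat.land (Nat.shiftRight (V (nat_lit 26)) (S (nat_lit 31))) (nat_lit 65535))) (Nat.add (Nat.shiftLeft (nat_lit 1) (Nat.land (Nat.shiftRight (V (nat_lit 26)) (S (nat_lit 33))) (nat_lit 65535))) (Nat.shiftLeft (nat_lit 1) (Nat.land (Nat.shiftRight (V (nat_lit 26)) (S (nat_lit 45))) (nat_lit 65535))))) (Nat.add (Nat.shiftLeft (nat_lit 1) (Nat.land (Nat.shiftRight (V (nat_lit 26)) (S (nat_lit 59))) (nat_lit 65535))) (Nat.add (Nat.shiftLeft (nat_lit 1) (Nat.land (Nat.shiftRight (V (nat_lit 30)) (S (nat_lit 20))) (nat_lit 65535))) (Nat.shiftLeft (nat_lit 1) (Nat.land (Nat.shiftRight (V (nat_lit 30)) (S (nat_lit 21))) (nat_lit 65535)))))) (Nat.add (Nat.add (Nat.shiftLeft (nat_lit 1) (Nat.land (Nat.shiftRight (V (nat_lit 31)) (S (nat_lit 26))) (nat_lit 65535))) (Nat.add (Nat.shiftLeft (nat_lit 1) (Nat.land (Nat.shiftRight (V (nat_lit 31)) (S (nat_lit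 48))) (nat_lit 65535))) (Nat.shiftLeft (nat_lit 1) (Nat.land (Nat.shiftRight (V (nat_lit 33)) (S (nat_lit 26))) (nat_lit 65535))))) (Nat.add (Nat.shiftLeft (nat_lit 1) (Nat.land (Nat.shiftRight (V (nat_lit 33)) (S (nat_lit 38))) (nat_lit 65535))) (Nat.add (Nat.shiftLeft (nat_lit 1) (Nat.land (Nat.shiftRight (V (nat_lit 35)) (S (nat_lit 20))) (nat_lit 65535))) (Nat.shiftLeft (nat_lit 1) (Nat.land (Nat.shiftRight (V (nat_lit 35)) (S (nat_lit 21))) (nat_lit 65535)))))))) (Nat.add (Nat.add (Nat.add (Nat.add (Nat.shiftLeft (nat_lit 1) (Nat.land (Nat.shiftRight (V (nat_lit 38)) (S (nat_lit 33))) (nat_lit 65535))) (Nat.add (Nat.shiftLeft (nat_lit 1) (Nat.land (Nat.shiftRight (V (nat_lit 38)) (S (nat_lit 43))) (nat_lit 65535))) (Nat.shiftLeft (nat_lit 1) (Nat.land (Nat.shiftRight (V (nat_lit 38)) (S (nat_lit 45))) (nat_lit 65535))))) (Nat.add (Nat.shiftLeft (nat_lit 1) (Nat.land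 (Nat.shiftRight (V (nat_lit 38)) (S (nat_lit 56))) (nat_lit 65535))) (Nat.add (Nat.shiftLeft (nat_lit 1) (Nat.land (Nat.shiftRight (V (nat_lit 42)) (S (nat_lit 17))) (nat_lit 65535))) (Nat.shiftLeft (nat_lit 1) (Nat.land (Nat.shiftRight (V (nat_lit 42)) (S (nat_lit 21))) (nat_lit 65535)))))) (Nat.add (Nat.add (Nat.shiftLeft (nat_lit 1) (Nat.land (Nat.shiftRight (V (nat_lit 43)) (S (nat_lit 38))) (nat_lit 65535))) (Nat.add (Nat.shiftLeft (nat_lit 1) (Nat.land (Nat.shiftRight (V (nat_lit 43)) (S (nat_lit 48))) (nat_lit 65535))) (Nat.shiftLeft (nat_lit 1) (Nat.land (Nat.shiftRight (V (nat_lit 45)) (S (nat_lit 26))) (nat_lit 65535))))) (Nat.add (Nat.shiftLeft (nat_lit 1) (Nat.land (Nat.shiftRight (V (nat_lit 45)) (S (nat_lit 38))) (nat_lit 65535))) (Nat.add (Nat.shiftLeft (nat_lit 1) (Nat.land (Nat.shiftRight (V (nat_lit 47)) (S (nat_lit 17))) (nat_lit 65535))) (Nat.shiftLeft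 (nat_lit 1) (Nat.land (Nat.shiftRight (V (nat_lit 47)) (S (nat_lit 21))) (nat_lit 65535))))))) (Nat.add (Nat.add (Nat.add (Nat.shiftLeft (nat_lit 1) (Nat.land (Nat.shiftRight (V (nat_lit 48)) (S (nat_lit 31))) (nat_lit 65535))) (Nat.add (Nat.shiftLeft (nat_lit 1) (Nat.land (Nat.shiftRight (V (nat_lit 48)) (S (nat_lit 43))) (nat_lit 65535))) (Nat.shiftLeft (nat_lit 1) (Nat.land (Nat.shiftRight (V (nat_lit 48)) (S (nat_lit 56))) (nat_lit 65535))))) (Nat.add (Nat.shiftLeft (nat_lit 1) (Nat.land (Nat.shiftRight (V (nat_lit 48)) (S (nat_lit 59))) (nat_lit 65535))) (Nat.add (Nat.shiftLeft (nat_lit 1) (Nat.land (Nat.shiftRight (V (nat_lit 55)) (S (nat_lit 17))) (nat_lit 65535))) (Nat.shiftLeft (nat_lit 1) (Nat.land (Nat.shiftRight (V (nat_lit 55)) (S (nat_lit 20))) (nat_lit 65535)))))) (Nat.add (Nat.add (Nat.shiftLeft (nat_lit 1) (Nat.land (Nat.shiftRight (V (nat_lit 56))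 (S (nat_lit 38))) (nat_lit 65535))) (Nat.add (Nat.shiftLeft (nat_lit 1) (Nat.land (Nat.shiftRight (V (nat_lit 56)) (S (nat_lit 48))) (nat_lit 65535))) (Nat.shiftLeft (nat_lit 1) (Nat.land (Nat.shiftRight (V (nat_lit 58)) (S (nat_lit 17))) (nat_lit 65535))))) (Nat.add (Nat.shiftLeft (nat_lit 1) (Nat.land (Nat.shiftRight (V (nat_lit 58)) (S (nat_lit 20))) (nat_lit 65535))) (Nat.add (Nat.shiftLeft (nat_lit 1) (Nat.land (Nat.shiftRight (V (nat_lit 59)) (S (nat_lit 26))) (nat_lit 65535))) (Nat.shiftLeft (nat_lit 1) (Nat.land (Nat.shiftRight (V (nat_lit 59)) (S (nat_lit 48))) (nat_lit 65535))))))))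
def E105_2 (V S : ℕ → ℕ) : ℕ := Nat.add (Nat.add (Nat.add (Nat.add (Nat.add (Nat.shiftLeft (nat_lit 1) (Nat.land (Nat.shiftRight (V (nat_lit 17)) (S (nat_lit 43))) (nat_lit 65535))) (Nat.add (Nat.shiftLeft (nat_lit 1) (Nat.land (Nat.shiftRight (V (nat_lit 17)) (S (nat_lit 56))) (nat_lit 65535))) (Nat.shiftLeft (nat_lit 1) (Nat.land (Nat.shiftRight (V (nat_lit 20)) (S (nat_lit 31))) (nat_lit 65535))))) (Nat.add (Nat.shiftLeft (nat_lit 1) (Nat.land (Nat.shiftRight (V (nat_lit 20)) (S (nat_lit 59))) (nat_lit 65535))) (Nat.add (Nat.shiftLeft (nat_lit 1) (Nat.land (Nat.shiftRight (V (nat_lit 21)) (S (nat_lit 33))) (nat_lit 65535))) (Nat.shiftLeft (nat_lit 1) (Nat.land (Nat.shiftRight (V (nat_lit 21)) (S (nat_lit 45))) (nat_lit 65535)))))) (Nat.add (Nat.add (Nat.shiftLeft (nat_lit 1) (Nat.land (Nat.shiftRight (V (nat_lit 26)) (S (nat_lit 30))) (nat_lit 65535))) (Nat.add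 (Nat.shiftLeft (nat_lit 1) (Nat.land (Nat.shiftRight (V (nat_lit 26)) (S (nat_lit 35))) (nat_lit 65535))) (Nat.shiftLeft (nat_lit 1) (Nat.land (Nat.shiftRight (V (nat_lit 30)) (S (nat_lit 26))) (nat_lit 65535))))) (Nat.add (Nat.shiftLeft (nat_lit 1) (Nat.land (Nat.shiftRight (V (nat_lit 30)) (S (nat_lit 57))) (nat_lit 65535))) (Nat.add (Nat.shiftLeft (nat_lit 1) (Nat.land (Nat.shiftRight (V (nat_lit 31)) (S (nat_lit 20))) (nat_lit 65535))) (Nat.shiftLeft (nat_lit 1) (Nat.land (Nat.shiftRight (V (nat_lit 31)) (S (nat_lit 34))) (nat_lit 65535))))))) (Nat.add (Nat.add (Nat.add (Nat.shiftLeft (nat_lit 1) (Nat.land (Nat.shiftRight (V (nat_lit 32)) (S (nat_lit 33))) (nat_lit 65535))) (Nat.add (Nat.shiftLeft (nat_lit 1) (Nat.land (Nat.shiftRight (V (nat_lit 32)) (S (nat_lit 58))) (nat_lit 65535))) (Nat.shiftLeft (nat_lit 1) (Nat.land (Nat.shiftRight (V (nat_lit 33)) (S (nat_lit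 21))) (nat_lit 65535))))) (Nat.add (Nat.shiftLeft (nat_lit 1) (Nat.land (Nat.shiftRight (V (nat_lit 33)) (S (nat_lit 32))) (nat_lit 65535))) (Nat.add (Nat.shiftLeft (nat_lit 1) (Nat.land (Nat.shiftRight (V (nat_lit 34)) (S (nat_lit 31))) (nat_lit 65535))) (Nat.shiftLeft (nat_lit 1) (Nat.land (Nat.shiftRight (V (nat_lit 34)) (S (nat_lit 47))) (nat_lit 65535)))))) (Nat.add (Nat.add (Nat.shiftLeft (nat_lit 1) (Nat.land (Nat.shiftRight (V (nat_lit 35)) (S (nat_lit 26))) (nat_lit 65535))) (Nat.add (Nat.shiftLeft (nat_lit 1) (Nat.land (Nat.shiftRight (V (nat_lit 35)) (S (nat_lit 46))) (nat_lit 65535))) (Nat.shiftLeft (nat_lit 1) (Nat.land (Nat.shiftRight (V (nat_lit 38)) (S (nat_lit 42))) (nat_lit 65535))))) (Nat.add (Nat.shiftLeft (nat_lit 1) (Nat.land (Nat.shiftRight (V (nat_lit 38)) (S (nat_lit 47))) (nat_lit 65535))) (Nat.add (Nat.shiftLeft (nat_lit 1) (Nat.land (Nat.shiftRight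 (V (nat_lit 42)) (S (nat_lit 38))) (nat_lit 65535))) (Nat.shiftLeft (nat_lit 1) (Nat.land (Nat.shiftRight (V (nat_lit 42)) (S (nat_lit 54))) (nat_lit 65535)))))))) (Nat.add (Nat.add (Nat.add (Nat.add (Nat.shiftLeft (nat_lit 1) (Nat.land (Nat.shiftRight (V (nat_lit 43)) (S (nat_lit 17))) (nat_lit 65535))) (Nat.add (Nat.shiftLeft (nat_lit 1) (Nat.land (Nat.shiftRight (V (nat_lit 43)) (S (nat_lit 46))) (nat_lit 65535))) (Nat.shiftLeft (nat_lit 1) (Nat.land (Nat.shiftRight (V (nat_lit 44)) (S (nat_lit 45))) (nat_lit 65535))))) (Nat.add (Nat.shiftLeft (nat_lit 1) (Nat.land (Nat.shiftRight (V (nat_lit 44)) (S (nat_lit 55))) (nat_lit 65535))) (Nat.add (Nat.shiftLeft (nat_lit 1) (Nat.land (Nat.shiftRight (V (nat_lit 45)) (S (nat_lit 21))) (nat_lit 65535))) (Nat.shiftLeft (nat_lit 1) (Nat.land (Nat.shiftRight (V (nat_lit 45)) (S (nat_lit 44))) (nat_lit 65535)))))) (Nat.add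 (Nat.add (Nat.shiftLeft (nat_lit 1) (Nat.land (Nat.shiftRight (V (nat_lit 46)) (S (nat_lit 35))) (nat_lit 65535))) (Nat.add (Nat.shiftLeft (nat_lit 1) (Nat.land (Nat.shiftRight (V (nat_lit 46)) (S (nat_lit 43))) (nat_lit 65535))) (Nat.shiftLeft (nat_lit 1) (Nat.land (Nat.shiftRight (V (nat_lit 47)) (S (nat_lit 34))) (nat_lit 65535))))) (Nat.add (Nat.shiftLeft (nat_lit 1) (Nat.land (Nat.shiftRight (V (nat_lit 47)) (S (nat_lit 38))) (nat_lit 65535))) (Nat.add (Nat.shiftLeft (nat_lit 1) (Nat.land (Nat.shiftRight (V (nat_lit 48)) (S (nat_lit 55))) (nat_lit 65535))) (Nat.shiftLeft (nat_lit 1) (Nat.land (Nat.shiftRight (V (nat_lit 48)) (S (nat_lit 58))) (nat_lit 65535))))))) (Nat.add (Nat.add (Nat.add (Nat.shiftLeft (nat_lit 1) (Nat.land (Nat.shiftRight (V (nat_lit 54)) (S (nat_lit 42))) (nat_lit 65535))) (Nat.add (Nat.shiftLeft (nat_lit 1) (Nat.land (Nat.shiftRight (V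 (nat_lit 54)) (S (nat_lit 59))) (nat_lit 65535))) (Nat.shiftLeft (nat_lit 1) (Nat.land (Nat.shiftRight (V (nat_lit 55)) (S (nat_lit 44))) (nat_lit 65535))))) (Nat.add (Nat.shiftLeft (nat_lit 1) (Nat.land (Nat.shiftRight (V (nat_lit 55)) (S (nat_lit 48))) (nat_lit 65535))) (Nat.add (Nat.shiftLeft (nat_lit 1) (Nat.land (Nat.shiftRight (V (nat_lit 56)) (S (nat_lit 17))) (nat_lit 65535))) (Nat.shiftLeft (nat_lit 1) (Nat.land (Nat.shiftRight (V (nat_lit 56)) (S (nat_lit 57))) (nat_lit 65535)))))) (Nat.add (Nat.add (Nat.shiftLeft (nat_lit 1) (Nat.land (Nat.shiftRight (V (nat_lit 57)) (S (nat_lit 30))) (nat_lit 65535))) (Nat.add (Nat.shiftLeft (nat_lit 1) (Nat.land (Nat.shiftRight (V (nat_lit 57)) (S (nat_lit 56))) (nat_lit 65535))) (Nat.shiftLeft (nat_lit 1) (Nat.land (Nat.shiftRight (V (nat_lit 58)) (S (nat_lit 32))) (nat_lit 65535))))) (Nat.add (Nat.shiftLeft (nat_lit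 1) (Nat.land (Nat.shiftRight (V (nat_lit 58)) (S (nat_lit 48))) (nat_lit 65535))) (Nat.add (Nat.shiftLeft (nat_lit 1) (Nat.land (Nat.shiftRight (V (nat_lit 59)) (S (nat_lit 20))) (nat_lit 65535))) (Nat.shiftLeft (nat_lit 1) (Nat.land (Nat.shiftRight (V (nat_lit 59)) (S (nat_lit 54))) (nat_lit 65535))))))))
def E106_2 (V S : ℕ → ℕ) : ℕ := Nat.add (Nat.add (Nat.add (Nat.add (Nat.shiftLeft (nat_lit 1) (Nat.land (Nat.shiftRight (V (nat_lit 17)) (S (nat_lit 46))) (nat_lit 65535))) (Nat.add (Nat.shiftLeft (nat_lit 1) (Nat.land (Nat.shiftRight (V (nat_lit 17)) (S (nat_lit 57))) (nat_lit 65535))) (Nat.shiftLeft (nat_lit 1) (Nat.land (Nat.shiftRight (V (nat_lit 20)) (S (nat_lit 34))) (nat_lit 65535))))) (Nat.add (Nat.shiftLeft (nat_lit 1) (Nat.land (Nat.shiftRight (V (nat_lit 20)) (S (nat_lit 54))) (nat_lit 65535))) (Nat.add (Nat.shiftLeft (nat_lit 1) (Nat.land (Nat.shiftRight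 (V (nat_lit 21)) (S (nat_lit 32))) (nat_lit 65535))) (Nat.shiftLeft (nat_lit 1) (Nat.land (Nat.shiftRight (V (nat_lit 21)) (S (nat_lit 44))) (nat_lit 65535)))))) (Nat.add (Nat.add (Nat.shiftLeft (nat_lit 1) (Nat.land (Nat.shiftRight (V (nat_lit 26)) (S (nat_lit 46))) (nat_lit 65535))) (Nat.add (Nat.shiftLeft (nat_lit 1) (Nat.land (Nat.shiftRight (V (nat_lit 26)) (S (nat_lit 57))) (nat_lit 65535))) (Nat.shiftLeft (nat_lit 1) (Nat.land (Nat.shiftRight (V (nat_lit 32)) (S (nat_lit 21))) (nat_lit 65535))))) (Nat.add (Nat.shiftLeft (nat_lit 1) (Nat.land (Nat.shiftRight (V (nat_lit 32)) (S (nat_lit 48))) (nat_lit 65535))) (Nat.add (Nat.shiftLeft (nat_lit 1) (Nat.land (Nat.shiftRight (V (nat_lit 34)) (S (nat_lit 20))) (nat_lit 65535))) (Nat.shiftLeft (nat_lit 1) (Nat.land (Nat.shiftRight (V (nat_lit 34)) (S (nat_lit 38))) (nat_lit 65535))))))) (Nat.add (Nat.add (Nat.add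 (Nat.shiftLeft (nat_lit 1) (Nat.land (Nat.shiftRight (V (nat_lit 38)) (S (nat_lit 34))) (nat_lit 65535))) (Nat.add (Nat.shiftLeft (nat_lit 1) (Nat.land (Nat.shiftRight (V (nat_lit 38)) (S (nat_lit 54))) (nat_lit 65535))) (Nat.shiftLeft (nat_lit 1) (Nat.land (Nat.shiftRight (V (nat_lit 44)) (S (nat_lit 21))) (nat_lit 65535))))) (Nat.add (Nat.shiftLeft (nat_lit 1) (Nat.land (Nat.shiftRight (V (nat_lit 44)) (S (nat_lit 48))) (nat_lit 65535))) (Nat.add (Nat.shiftLeft (nat_lit 1) (Nat.land (Nat.shiftRight (V (nat_lit 46)) (S (nat_lit 17))) (nat_lit 65535))) (Nat.shiftLeft (nat_lit 1) (Nat.land (Nat.shiftRight (V (nat_lit 46)) (S (nat_lit 26))) (nat_lit 65535)))))) (Nat.add (Nat.add (Nat.shiftLeft (nat_lit 1) (Nat.land (Nat.shiftRight (V (nat_lit 48)) (S (nat_lit 32))) (nat_lit 65535))) (Nat.add (Nat.shiftLeft (nat_lit 1) (Nat.land (Nat.shiftRight (V (nat_lit 48)) (S (nat_lit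 44))) (nat_lit 65535))) (Nat.shiftLeft (nat_lit 1) (Nat.land (Nat.shiftRight (V (nat_lit 54)) (S (nat_lit 20))) (nat_lit 65535))))) (Nat.add (Nat.shiftLeft (nat_lit 1) (Nat.land (Nat.shiftRight (V (nat_lit 54)) (S (nat_lit 38))) (nat_lit 65535))) (Nat.add (Nat.shiftLeft (nat_lit 1) (Nat.land (Nat.shiftRight (V (nat_lit 57)) (S (nat_lit 17))) (nat_lit 65535))) (Nat.shiftLeft (nat_lit 1) (Nat.land (Nat.shiftRight (V (nat_lit 57)) (S (nat_lit 26))) (nat_lit 65535)))))))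
def E107_2 (V S : ℕ → ℕ) : ℕ := Nat.add (Nat.add (Nat.add (Nat.add (Nat.add (Nat.shiftLeft (nat_lit 1) (Nat.land (Nat.shiftRight (V (nat_lit 30)) (S (nat_lit 34))) (nat_lit 65535))) (Nat.add (Nat.shiftLeft (nat_lit 1) (Nat.land (Nat.shiftRight (V (nat_lit 30)) (S (nat_lit 44))) (nat_lit 65535))) (Nat.shiftLeft (nat_lit 1) (Nat.land (Nat.shiftRight (V (nat_lit 31)) (S (nat_lit 44))) (nat_lit 65535))))) (Nat.add (Nat.shiftLeft (nat_lit 1) (Nat.land (Nat.shiftRight (V (nat_lit 31)) (S (nat_lit 57))) (nat_lit 65535))) (Nat.add (Nat.shiftLeft (nat_lit 1) (Nat.land (Nat.shiftRight (V (nat_lit 32)) (S (nat_lit 35))) (nat_lit 65535))) (Nat.shiftLeft (nat_lit 1) (Nat.land (Nat.shiftRight (V (nat_lit 32)) (S (nat_lit 42))) (nat_lit 65535)))))) (Nat.add (Nat.add (Nat.shiftLeft (nat_lit 1) (Nat.land (Nat.shiftRight (V (nat_lit 32)) (S (nat_lit 43))) (nat_lit 65535))) (Nat.add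 (Nat.shiftLeft (nat_lit 1) (Nat.land (Nat.shiftRight (V (nat_lit 32)) (S (nat_lit 59))) (nat_lit 65535))) (Nat.shiftLeft (nat_lit 1) (Nat.land (Nat.shiftRight (V (nat_lit 33)) (S (nat_lit 46))) (nat_lit 65535))))) (Nat.add (Nat.shiftLeft (nat_lit 1) (Nat.land (Nat.shiftRight (V (nat_lit 33)) (S (nat_lit 54))) (nat_lit 65535))) (Nat.add (Nat.shiftLeft (nat_lit 1) (Nat.land (Nat.shiftRight (V (nat_lit 34)) (S (nat_lit 30))) (nat_lit 65535))) (Nat.shiftLeft (nat_lit 1) (Nat.land (Nat.shiftRight (V (nat_lit 34)) (S (nat_lit 45))) (nat_lit 65535))))))) (Nat.add (Nat.add (Nat.add (Nat.shiftLeft (nat_lit 1) (Nat.land (Nat.shiftRight (V (nat_lit 34)) (S (nat_lit 55))) (nat_lit 65535))) (Nat.add (Nat.shiftLeft (nat_lit 1) (Nat.land (Nat.shiftRight (V (nat_lit 34)) (S (nat_lit 56))) (nat_lit 65535))) (Nat.shiftLeft (nat_lit 1) (Nat.land (Nat.shiftRight (V (nat_lit 35)) (S (nat_lit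 32))) (nat_lit 65535))))) (Nat.add (Nat.shiftLeft (nat_lit 1) (Nat.land (Nat.shiftRight (V (nat_lit 35)) (S (nat_lit 54))) (nat_lit 65535))) (Nat.add (Nat.shiftLeft (nat_lit 1) (Nat.land (Nat.shiftRight (V (nat_lit 42)) (S (nat_lit 32))) (nat_lit 65535))) (Nat.shiftLeft (nat_lit 1) (Nat.land (Nat.shiftRight (V (nat_lit 42)) (S (nat_lit 46))) (nat_lit 65535)))))) (Nat.add (Nat.add (Nat.shiftLeft (nat_lit 1) (Nat.land (Nat.shiftRight (V (nat_lit 43)) (S (nat_lit 32))) (nat_lit 65535))) (Nat.add (Nat.shiftLeft (nat_lit 1) (Nat.land (Nat.shiftRight (V (nat_lit 43)) (S (nat_lit 54))) (nat_lit 65535))) (Nat.shiftLeft (nat_lit 1) (Nat.land (Nat.shiftRight (V (nat_lit 44)) (S (nat_lit 30))) (nat_lit 65535))))) (Nat.add (Nat.shiftLeft (nat_lit 1) (Nat.land (Nat.shiftRight (V (nat_lit 44)) (S (nat_lit 31))) (nat_lit 65535))) (Nat.add (Nat.shiftLeft (nat_lit 1) (Nat.land (Nat.shiftRight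 (V (nat_lit 44)) (S (nat_lit 47))) (nat_lit 65535))) (Nat.shiftLeft (nat_lit 1) (Nat.land (Nat.shiftRight (V (nat_lit 44)) (S (nat_lit 56))) (nat_lit 65535)))))))) (Nat.add (Nat.add (Nat.add (Nat.add (Nat.shiftLeft (nat_lit 1) (Nat.land (Nat.shiftRight (V (nat_lit 45)) (S (nat_lit 34))) (nat_lit 65535))) (Nat.add (Nat.shiftLeft (nat_lit 1) (Nat.land (Nat.shiftRight (V (nat_lit 45)) (S (nat_lit 57))) (nat_lit 65535))) (Nat.shiftLeft (nat_lit 1) (Nat.land (Nat.shiftRight (V (nat_lit 46)) (S (nat_lit 33))) (nat_lit 65535))))) (Nat.add (Nat.shiftLeft (nat_lit 1) (Nat.land (Nat.shiftRight (V (nat_lit 46)) (S (nat_lit 42))) (nat_lit 65535))) (Nat.add (Nat.shiftLeft (nat_lit 1) (Nat.land (Nat.shiftRight (V (nat_lit 46)) (S (nat_lit 58))) (nat_lit 65535))) (Nat.shiftLeft (nat_lit 1) (Nat.land (Nat.shiftRight (V (nat_lit 46)) (S (nat_lit 59))) (nat_lit 65535)))))) (Nat.add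 (Nat.add (Nat.shiftLeft (nat_lit 1) (Nat.land (Nat.shiftRight (V (nat_lit 47)) (S (nat_lit 44))) (nat_lit 65535))) (Nat.add (Nat.shiftLeft (nat_lit 1) (Nat.land (Nat.shiftRight (V (nat_lit 47)) (S (nat_lit 57))) (nat_lit 65535))) (Nat.shiftLeft (nat_lit 1) (Nat.land (Nat.shiftRight (V (nat_lit 54)) (S (nat_lit 33))) (nat_lit 65535))))) (Nat.add (Nat.shiftLeft (nat_lit 1) (Nat.land (Nat.shiftRight (V (nat_lit 54)) (S (nat_lit 35))) (nat_lit 65535))) (Nat.add (Nat.shiftLeft (nat_lit 1) (Nat.land (Nat.shiftRight (V (nat_lit 54)) (S (nat_lit 43))) (nat_lit 65535))) (Nat.shiftLeft (nat_lit 1) (Nat.land (Nat.shiftRight (V (nat_lit 54)) (S (nat_lit 58))) (nat_lit 65535))))))) (Nat.add (Nat.add (Nat.add (Nat.shiftLeft (nat_lit 1) (Nat.land (Nat.shiftRight (V (nat_lit 55)) (S (nat_lit 34))) (nat_lit 65535))) (Nat.add (Nat.shiftLeft (nat_lit 1) (Nat.land (Nat.shiftRight (V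 (nat_lit 55)) (S (nat_lit 57))) (nat_lit 65535))) (Nat.shiftLeft (nat_lit 1) (Nat.land (Nat.shiftRight (V (nat_lit 56)) (S (nat_lit 34))) (nat_lit 65535))))) (Nat.add (Nat.shiftLeft (nat_lit 1) (Nat.land (Nat.shiftRight (V (nat_lit 56)) (S (nat_lit 44))) (nat_lit 65535))) (Nat.add (Nat.shiftLeft (nat_lit 1) (Nat.land (Nat.shiftRight (V (nat_lit 57)) (S (nat_lit 31))) (nat_lit 65535))) (Nat.shiftLeft (nat_lit 1) (Nat.land (Nat.shiftRight (V (nat_lit 57)) (S (nat_lit 45))) (nat_lit 65535)))))) (Nat.add (Nat.add (Nat.shiftLeft (nat_lit 1) (Nat.land (Nat.shiftRight (V (nat_lit 57)) (S (nat_lit 47))) (nat_lit 65535))) (Nat.add (Nat.shiftLeft (nat_lit 1) (Nat.land (Nat.shiftRight (V (nat_lit 57)) (S (nat_lit 55))) (nat_lit 65535))) (Nat.shiftLeft (nat_lit 1) (Nat.land (Nat.shiftRight (V (nat_lit 58)) (S (nat_lit 46))) (nat_lit 65535))))) (Nat.add (Nat.shiftLeft (nat_lit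 1) (Nat.land (Nat.shiftRight (V (nat_lit 58)) (S (nat_lit 54))) (nat_lit 65535))) (Nat.add (Nat.shiftLeft (nat_lit 1) (Nat.land (Nat.shiftRight (V (nat_lit 59)) (S (nat_lit 32))) (nat_lit 65535))) (Nat.shiftLeft (nat_lit 1) (Nat.land (Nat.shiftRight (V (nat_lit 59)) (S (nat_lit 46))) (nat_lit 65535))))))))
def E108_2 (V S : ℕ → ℕ) : ℕ := Nat.add (Nat.add (Nat.add (Nat.add (Nat.shiftLeft (nat_lit 1) (Nat.land (Nat.shiftRight (V (nat_lit 30)) (S (nat_lit 46))) (nat_lit 65535))) (Nat.add (Nat.shiftLeft (nat_lit 1) (Nat.land (Nat.shiftRight (V (nat_lit 31)) (S (nat_lit 54))) (nat_lit 65535))) (Nat.shiftLeft (nat_lit 1) (Nat.land (Nat.shiftRight (V (nat_lit 32)) (S (nat_lit 45))) (nat_lit 65535))))) (Nat.add (Nat.shiftLeft (nat_lit 1) (Nat.land (Nat.shiftRight (V (nat_lit 32)) (S (nat_lit 55))) (nat_lit 65535))) (Nat.add (Nat.shiftLeft (nat_lit 1) (Nat.land (Nat.shiftRight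 (V (nat_lit 33)) (S (nat_lit 44))) (nat_lit 65535))) (Nat.shiftLeft (nat_lit 1) (Nat.land (Nat.shiftRight (V (nat_lit 34)) (S (nat_lit 42))) (nat_lit 65535)))))) (Nat.add (Nat.add (Nat.shiftLeft (nat_lit 1) (Nat.land (Nat.shiftRight (V (nat_lit 34)) (S (nat_lit 59))) (nat_lit 65535))) (Nat.add (Nat.shiftLeft (nat_lit 1) (Nat.land (Nat.shiftRight (V (nat_lit 35)) (S (nat_lit 57))) (nat_lit 65535))) (Nat.shiftLeft (nat_lit 1) (Nat.land (Nat.shiftRight (V (nat_lit 42)) (S (nat_lit 34))) (nat_lit 65535))))) (Nat.add (Nat.shiftLeft (nat_lit 1) (Nat.land (Nat.shiftRight (V (nat_lit 43)) (S (nat_lit 57))) (nat_lit 65535))) (Nat.add (Nat.shiftLeft (nat_lit 1) (Nat.land (Nat.shiftRight (V (nat_lit 44)) (S (nat_lit 33))) (nat_lit 65535))) (Nat.shiftLeft (nat_lit 1) (Nat.land (Nat.shiftRight (V (nat_lit 44)) (S (nat_lit 58))) (nat_lit 65535))))))) (Nat.add (Nat.add (Nat.add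 (Nat.shiftLeft (nat_lit 1) (Nat.land (Nat.shiftRight (V (nat_lit 45)) (S (nat_lit 32))) (nat_lit 65535))) (Nat.add (Nat.shiftLeft (nat_lit 1) (Nat.land (Nat.shiftRight (V (nat_lit 46)) (S (nat_lit 30))) (nat_lit 65535))) (Nat.shiftLeft (nat_lit 1) (Nat.land (Nat.shiftRight (V (nat_lit 46)) (S (nat_lit 56))) (nat_lit 65535))))) (Nat.add (Nat.shiftLeft (nat_lit 1) (Nat.land (Nat.shiftRight (V (nat_lit 47)) (S (nat_lit 54))) (nat_lit 65535))) (Nat.add (Nat.shiftLeft (nat_lit 1) (Nat.land (Nat.shiftRight (V (nat_lit 54)) (S (nat_lit 31))) (nat_lit 65535))) (Nat.shiftLeft (nat_lit 1) (Nat.land (Nat.shiftRight (V (nat_lit 54)) (S (nat_lit 47))) (nat_lit 65535)))))) (Nat.add (Nat.add (Nat.shiftLeft (nat_lit 1) (Nat.land (Nat.shiftRight (V (nat_lit 55)) (S (nat_lit 32))) (nat_lit 65535))) (Nat.add (Nat.shiftLeft (nat_lit 1) (Nat.land (Nat.shiftRight (V (nat_lit 56)) (S (nat_lit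 46))) (nat_lit 65535))) (Nat.shiftLeft (nat_lit 1) (Nat.land (Nat.shiftRight (V (nat_lit 57)) (S (nat_lit 35))) (nat_lit 65535))))) (Nat.add (Nat.shiftLeft (nat_lit 1) (Nat.land (Nat.shiftRight (V (nat_lit 57)) (S (nat_lit 43))) (nat_lit 65535))) (Nat.add (Nat.shiftLeft (nat_lit 1) (Nat.land (Nat.shiftRight (V (nat_lit 58)) (S (nat_lit 44))) (nat_lit 65535))) (Nat.shiftLeft (nat_lit 1) (Nat.land (Nat.shiftRight (V (nat_lit 59)) (S (nat_lit 34))) (nat_lit 65535)))))))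
def E109_2 (V S : ℕ → ℕ) : ℕ := Nat.add (Nat.add (Nat.add (Nat.add (Nat.shiftLeft (nat_lit 1) (Nat.land (Nat.shiftRight (V (nat_lit 30)) (S (nat_lit 47))) (nat_lit 65535))) (Nat.add (Nat.shiftLeft (nat_lit 1) (Nat.land (Nat.shiftRight (V (nat_lit 30)) (S (nat_lit 55))) (nat_lit 65535))) (Nat.shiftLeft (nat_lit 1) (Nat.land (Nat.shiftRight (V (nat_lit 31)) (S (nat_lit 45))) (nat_lit 65535))))) (Nat.add (Nat.shiftLeft (nat_lit 1) (Nat.land (Nat.shiftRight (V (nat_lit 31)) (S (nat_lit 56))) (nat_lit 65535))) (Nat.add (Nat.shiftLeft (nat_lit 1) (Nat.land (Nat.shiftRight (V (nat_lit 33)) (S (nat_lit 43))) (nat_lit 65535))) (Nat.shiftLeft (nat_lit 1) (Nat.land (Nat.shiftRight (V (nat_lit 33)) (S (nat_lit 59))) (nat_lit 65535)))))) (Nat.add (Nat.add (Nat.shiftLeft (nat_lit 1) (Nat.land (Nat.shiftRight (V (nat_lit 35)) (S (nat_lit 42))) (nat_lit 65535))) (Nat.add (Nat.shiftLeft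 (nat_lit 1) (Nat.land (Nat.shiftRight (V (nat_lit 35)) (S (nat_lit 58))) (nat_lit 65535))) (Nat.shiftLeft (nat_lit 1) (Nat.land (Nat.shiftRight (V (nat_lit 42)) (S (nat_lit 35))) (nat_lit 65535))))) (Nat.add (Nat.shiftLeft (nat_lit 1) (Nat.land (Nat.shiftRight (V (nat_lit 42)) (S (nat_lit 58))) (nat_lit 65535))) (Nat.add (Nat.shiftLeft (nat_lit 1) (Nat.land (Nat.shiftRight (V (nat_lit 43)) (S (nat_lit 33))) (nat_lit 65535))) (Nat.shiftLeft (nat_lit 1) (Nat.land (Nat.shiftRight (V (nat_lit 43)) (S (nat_lit 59))) (nat_lit 65535))))))) (Nat.add (Nat.add (Nat.add (Nat.shiftLeft (nat_lit 1) (Nat.land (Nat.shiftRight (V (nat_lit 45)) (S (nat_lit 31))) (nat_lit 65535))) (Nat.add (Nat.shiftLeft (nat_lit 1) (Nat.land (Nat.shiftRight (V (nat_lit 45)) (S (nat_lit 56))) (nat_lit 65535))) (Nat.shiftLeft (nat_lit 1) (Nat.land (Nat.shiftRight (V (nat_lit 47)) (S (nat_lit 30))) (nat_lit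 65535))))) (Nat.add (Nat.shiftLeft (nat_lit 1) (Nat.land (Nat.shiftRight (V (nat_lit 47)) (S (nat_lit 55))) (nat_lit 65535))) (Nat.add (Nat.shiftLeft (nat_lit 1) (Nat.land (Nat.shiftRight (V (nat_lit 55)) (S (nat_lit 30))) (nat_lit 65535))) (Nat.shiftLeft (nat_lit 1) (Nat.land (Nat.shiftRight (V (nat_lit 55)) (S (nat_lit 47))) (nat_lit 65535)))))) (Nat.add (Nat.add (Nat.shiftLeft (nat_lit 1) (Nat.land (Nat.shiftRight (V (nat_lit 56)) (S (nat_lit 31))) (nat_lit 65535))) (Nat.add (Nat.shiftLeft (nat_lit 1) (Nat.land (Nat.shiftRight (V (nat_lit 56)) (S (nat_lit 45))) (nat_lit 65535))) (Nat.shiftLeft (nat_lit 1) (Nat.land (Nat.shiftRight (V (nat_lit 58)) (S (nat_lit 35))) (nat_lit 65535))))) (Nat.add (Nat.shiftLeft (nat_lit 1) (Nat.land (Nat.shiftRight (V (nat_lit 58)) (S (nat_lit 42))) (nat_lit 65535))) (Nat.add (Nat.shiftLeft (nat_lit 1) (Nat.land (Nat.shiftRight (V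 (nat_lit 59)) (S (nat_lit 33))) (nat_lit 65535))) (Nat.shiftLeft (nat_lit 1) (Nat.land (Nat.shiftRight (V (nat_lit 59)) (S (nat_lit 43))) (nat_lit 65535)))))))
def E3_3 (V S : ℕ → ℕ) : ℕ := Nat.add (Nat.shiftLeft (nat_lit 1) (Nat.land (Nat.shiftRight (V (nat_lit 0)) (S (nat_lit 0))) (nat_lit 65535))) (Nat.shiftLeft (nat_lit 1) (Nat.land (Nat.shiftRight (V (nat_lit 16)) (S (nat_lit 16))) (nat_lit 65535)))
def E10_3 (V S : ℕ → ℕ) : ℕ := Nat.add (Nat.add (Nat.shiftLeft (nat_lit 1) (Nat.land (Nat.shiftRight (V (nat_lit 1)) (S (nat_lit 1))) (nat_lit 65535))) (Nat.shiftLeft (nat_lit 1) (Nat.land (Nat.shiftRight (V (nat_lit 4)) (S (nat_lit 4))) (nat_lit 65535)))) (Nat.add (Nat.shiftLeft (nat_lit 1) (Nat.land (Nat.shiftRight (V (nat_lit 15)) (S (nat_lit 15))) (nat_lit 65535))) (Nat.add (Nat.shiftLeft (nat_lit 1) (Nat.land (Nat.shiftRight (V (nat_lit 22)) (S (nat_lit 22)))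 (nat_lit 65535))) (Nat.shiftLeft (nat_lit 1) (Nat.land (Nat.shiftRight (V (nat_lit 40)) (S (nat_lit 40))) (nat_lit 65535)))))
def E11_3 (V S : ℕ → ℕ) : ℕ := Nat.add (Nat.add (Nat.add (Nat.add (Nat.shiftLeft (nat_lit 1) (Nat.land (Nat.shiftRight (V (nat_lit 0)) (S (nat_lit 1))) (nat_lit 65535))) (Nat.shiftLeft (nat_lit 1) (Nat.land (Nat.shiftRight (V (nat_lit 0)) (S (nat_lit 4))) (nat_lit 65535)))) (Nat.add (Nat.shiftLeft (nat_lit 1) (Nat.land (Nat.shiftRight (V (nat_lit 0)) (S (nat_lit 15))) (nat_lit 65535))) (Nat.add (Nat.shiftLeft (nat_lit 1) (Nat.land (Nat.shiftRight (V (nat_lit 0)) (S (nat_lit 22))) (nat_lit 65535))) (Nat.shiftLeft (nat_lit 1) (Nat.land (Nat.shiftRight (V (nat_lit 0)) (S (nat_lit 40))) (nat_lit 65535)))))) (Nat.add (Nat.add (Nat.shiftLeft (nat_lit 1) (Nat.land (Nat.shiftRight (V (nat_lit 1)) (S (nat_lit 0))) (nat_lit 65535))) (Nat.shiftLeft (nat_lit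 1) (Nat.land (Nat.shiftRight (V (nat_lit 1)) (S (nat_lit 16))) (nat_lit 65535)))) (Nat.add (Nat.shiftLeft (nat_lit 1) (Nat.land (Nat.shiftRight (V (nat_lit 4)) (S (nat_lit 0))) (nat_lit 65535))) (Nat.add (Nat.shiftLeft (nat_lit 1) (Nat.land (Nat.shiftRight (V (nat_lit 4)) (S (nat_lit 16))) (nat_lit 65535))) (Nat.shiftLeft (nat_lit 1) (Nat.land (Nat.shiftRight (V (nat_lit 15)) (S (nat_lit 0))) (nat_lit 65535))))))) (Nat.add (Nat.add (Nat.add (Nat.shiftLeft (nat_lit 1) (Nat.land (Nat.shiftRight (V (nat_lit 15)) (S (nat_lit 16))) (nat_lit 65535))) (Nat.shiftLeft (nat_lit 1) (Nat.land (Nat.shiftRight (V (nat_lit 16)) (S (nat_lit 1))) (nat_lit 65535)))) (Nat.add (Nat.shiftLeft (nat_lit 1) (Nat.land (Nat.shiftRight (V (nat_lit 16)) (S (nat_lit 4))) (nat_lit 65535))) (Nat.add (Nat.shiftLeft (nat_lit 1) (Nat.land (Nat.shiftRight (V (nat_lit 16)) (S (nat_lit 15))) (nat_lit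 65535))) (Nat.shiftLeft (nat_lit 1) (Nat.land (Nat.shiftRight (V (nat_lit 16)) (S (nat_lit 22))) (nat_lit 65535)))))) (Nat.add (Nat.add (Nat.shiftLeft (nat_lit 1) (Nat.land (Nat.shiftRight (V (nat_lit 16)) (S (nat_lit 40))) (nat_lit 65535))) (Nat.shiftLeft (nat_lit 1) (Nat.land (Nat.shiftRight (V (nat_lit 22)) (S (nat_lit 0))) (nat_lit 65535)))) (Nat.add (Nat.shiftLeft (nat_lit 1) (Nat.land (Nat.shiftRight (V (nat_lit 22)) (S (nat_lit 16))) (nat_lit 65535))) (Nat.add (Nat.shiftLeft (nat_lit 1) (Nat.land (Nat.shiftRight (V (nat_lit 40)) (S (nat_lit 0))) (nat_lit 65535))) (Nat.shiftLeft (nat_lit 1) (Nat.land (Nat.shiftRight (V (nat_lit 40)) (S (nat_lit 16))) (nat_lit 65535)))))))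
def E12_3 (V S : ℕ → ℕ) : ℕ := Nat.add (Nat.add (Nat.add (Nat.add (Nat.shiftLeft (nat_lit 1) (Nat.land (Nat.shiftRight (V (nat_lit 0)) (S (nat_lit 2))) (nat_lit 65535))) (Nat.add (Nat.shiftLeft (nat_lit 1) (Nat.land (Nat.shiftRight (V (nat_lit 0)) (S (nat_lit 6))) (nat_lit 65535))) (Nat.shiftLeft (nat_lit 1) (Nat.land (Nat.shiftRight (V (nat_lit 0)) (S (nat_lit 24))) (nat_lit 65535))))) (Nat.add (Nat.add (Nat.shiftLeft (nat_lit 1) (Nat.land (Nat.shiftRight (V (nat_lit 0)) (S (nat_lit 49))) (nat_lit 65535))) (Nat.shiftLeft (nat_lit 1) (Nat.land (Nat.shiftRight (V (nat_lit 0)) (S (nat_lit 52))) (nat_lit 65535)))) (Nat.add (Nat.shiftLeft (nat_lit 1) (Nat.land (Nat.shiftRight (V (nat_lit 2)) (S (nat_lit 0))) (nat_lit 65535))) (Nat.shiftLeft (nat_lit 1) (Nat.land (Nat.shiftRight (V (nat_lit 2)) (S (nat_lit 2))) (nat_lit 65535)))))) (Nat.add (Nat.add (Nat.add (Nat.shiftLeft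 (nat_lit 1) (Nat.land (Nat.shiftRight (V (nat_lit 6)) (S (nat_lit 0))) (nat_lit 65535))) (Nat.shiftLeft (nat_lit 1) (Nat.land (Nat.shiftRight (V (nat_lit 6)) (S (nat_lit 6))) (nat_lit 65535)))) (Nat.add (Nat.shiftLeft (nat_lit 1) (Nat.land (Nat.shiftRight (V (nat_lit 16)) (S (nat_lit 17))) (nat_lit 65535))) (Nat.shiftLeft (nat_lit 1) (Nat.land (Nat.shiftRight (V (nat_lit 16)) (S (nat_lit 20))) (nat_lit 65535))))) (Nat.add (Nat.add (Nat.shiftLeft (nat_lit 1) (Nat.land (Nat.shiftRight (V (nat_lit 16)) (S (nat_lit 25))) (nat_lit 65535))) (Nat.shiftLeft (nat_lit 1) (Nat.land (Nat.shiftRight (V (nat_lit 16)) (S (nat_lit 31))) (nat_lit 65535)))) (Nat.add (Nat.shiftLeft (nat_lit 1) (Nat.land (Nat.shiftRight (V (nat_lit 16)) (S (nat_lit 56))) (nat_lit 65535))) (Nat.shiftLeft (nat_lit 1) (Nat.land (Nat.shiftRight (V (nat_lit 17)) (S (nat_lit 16))) (nat_lit 65535))))))) (Nat.add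 (Nat.add (Nat.add (Nat.shiftLeft (nat_lit 1) (Nat.land (Nat.shiftRight (V (nat_lit 17)) (S (nat_lit 17))) (nat_lit 65535))) (Nat.add (Nat.shiftLeft (nat_lit 1) (Nat.land (Nat.shiftRight (V (nat_lit 20)) (S (nat_lit 16))) (nat_lit 65535))) (Nat.shiftLeft (nat_lit 1) (Nat.land (Nat.shiftRight (V (nat_lit 20)) (S (nat_lit 20))) (nat_lit 65535))))) (Nat.add (Nat.add (Nat.shiftLeft (nat_lit 1) (Nat.land (Nat.shiftRight (V (nat_lit 24)) (S (nat_lit 0))) (nat_lit 65535))) (Nat.shiftLeft (nat_lit 1) (Nat.land (Nat.shiftRight (V (nat_lit 24)) (S (nat_lit 24))) (nat_lit 65535)))) (Nat.add (Nat.shiftLeft (nat_lit 1) (Nat.land (Nat.shiftRight (V (nat_lit 25)) (S (nat_lit 16))) (nat_lit 65535))) (Nat.shiftLeft (nat_lit 1) (Nat.land (Nat.shiftRight (V (nat_lit 25)) (S (nat_lit 25))) (nat_lit 65535)))))) (Nat.add (Nat.add (Nat.add (Nat.shiftLeft (nat_lit 1) (Nat.land (Nat.shiftRight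 (V (nat_lit 31)) (S (nat_lit 16))) (nat_lit 65535))) (Nat.shiftLeft (nat_lit 1) (Nat.land (Nat.shiftRight (V (nat_lit 31)) (S (nat_lit 31))) (nat_lit 65535)))) (Nat.add (Nat.shiftLeft (nat_lit 1) (Nat.land (Nat.shiftRight (V (nat_lit 49)) (S (nat_lit 0))) (nat_lit 65535))) (Nat.shiftLeft (nat_lit 1) (Nat.land (Nat.shiftRight (V (nat_lit 49)) (S (nat_lit 49))) (nat_lit 65535))))) (Nat.add (Nat.add (Nat.shiftLeft (nat_lit 1) (Nat.land (Nat.shiftRight (V (nat_lit 52)) (S (nat_lit 0))) (nat_lit 65535))) (Nat.shiftLeft (nat_lit 1) (Nat.land (Nat.shiftRight (V (nat_lit 52)) (S (nat_lit 52))) (nat_lit 65535)))) (Nat.add (Nat.shiftLeft (nat_lit 1) (Nat.land (Nat.shiftRight (V (nat_lit 56)) (S (nat_lit 16))) (nat_lit 65535))) (Nat.shiftLeft (nat_lit 1) (Nat.land (Nat.shiftRight (V (nat_lit 56)) (S (nat_lit 56))) (nat_lit 65535)))))))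
def E13_3 (V S : ℕ → ℕ) : ℕ := Nat.add (Nat.add (Nat.add (Nat.shiftLeft (nat_lit 1) (Nat.land (Nat.shiftRight (V (nat_lit 3)) (S (nat_lit 3))) (nat_lit 65535))) (Nat.shiftLeft (nat_lit 1) (Nat.land (Nat.shiftRight (V (nat_lit 5)) (S (nat_lit 5))) (nat_lit 65535)))) (Nat.add (Nat.shiftLeft (nat_lit 1) (Nat.land (Nat.shiftRight (V (nat_lit 7)) (S (nat_lit 7))) (nat_lit 65535))) (Nat.add (Nat.shiftLeft (nat_lit 1) (Nat.land (Nat.shiftRight (V (nat_lit 12)) (S (nat_lit 12))) (nat_lit 65535))) (Nat.shiftLeft (nat_lit 1) (Nat.land (Nat.shiftRight (V (nat_lit 13)) (S (nat_lit 13))) (nat_lit 65535)))))) (Nat.add (Nat.add (Nat.shiftLeft (nat_lit 1) (Nat.land (Nat.shiftRight (V (nat_lit 19)) (S (nat_lit 19))) (nat_lit 65535))) (Nat.shiftLeft (nat_lit 1) (Nat.land (Nat.shiftRight (V (nat_lit 28)) (S (nat_lit 28))) (nat_lit 65535)))) (Nat.add (Nat.shiftLeft (nat_lit 1) (Nat.land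 (Nat.shiftRight (V (nat_lit 29)) (S (nat_lit 29))) (nat_lit 65535))) (Nat.add (Nat.shiftLeft (nat_lit 1) (Nat.land (Nat.shiftRight (V (nat_lit 53)) (S (nat_lit 53))) (nat_lit 65535))) (Nat.shiftLeft (nat_lit 1) (Nat.land (Nat.shiftRight (V (nat_lit 55)) (S (nat_lit 55))) (nat_lit 65535))))))
def E14_3 (V S : ℕ → ℕ) : ℕ := Nat.add (Nat.add (Nat.add (Nat.add (Nat.shiftLeft (nat_lit 1) (Nat.land (Nat.shiftRight (V (nat_lit 0)) (S (nat_lit 5))) (nat_lit 65535))) (Nat.shiftLeft (nat_lit 1) (Nat.land (Nat.shiftRight (V (nat_lit 0)) (S (nat_lit 7))) (nat_lit 65535)))) (Nat.add (Nat.shiftLeft (nat_lit 1) (Nat.land (Nat.shiftRight (V (nat_lit 0)) (S (nat_lit 19))) (nat_lit 65535))) (Nat.add (Nat.shiftLeft (nat_lit 1) (Nat.land (Nat.shiftRight (V (nat_lit 0)) (S (nat_lit 28))) (nat_lit 65535))) (Nat.shiftLeft (nat_lit 1) (Nat.land (Nat.shiftRight (V (nat_lit 0)) (S (nat_lit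 29))) (nat_lit 65535)))))) (Nat.add (Nat.add (Nat.shiftLeft (nat_lit 1) (Nat.land (Nat.shiftRight (V (nat_lit 3)) (S (nat_lit 16))) (nat_lit 65535))) (Nat.shiftLeft (nat_lit 1) (Nat.land (Nat.shiftRight (V (nat_lit 5)) (S (nat_lit 0))) (nat_lit 65535)))) (Nat.add (Nat.shiftLeft (nat_lit 1) (Nat.land (Nat.shiftRight (V (nat_lit 7)) (S (nat_lit 0))) (nat_lit 65535))) (Nat.add (Nat.shiftLeft (nat_lit 1) (Nat.land (Nat.shiftRight (V (nat_lit 12)) (S (nat_lit 16))) (nat_lit 65535))) (Nat.shiftLeft (nat_lit 1) (Nat.land (Nat.shiftRight (V (nat_lit 13)) (S (nat_lit 16))) (nat_lit 65535))))))) (Nat.add (Nat.add (Nat.add (Nat.shiftLeft (nat_lit 1) (Nat.land (Nat.shiftRight (V (nat_lit 16)) (S (nat_lit 3))) (nat_lit 65535))) (Nat.shiftLeft (nat_lit 1) (Nat.land (Nat.shiftRight (V (nat_lit 16)) (S (nat_lit 12))) (nat_lit 65535)))) (Nat.add (Nat.shiftLeft (nat_lit 1) (Nat.land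 (Nat.shiftRight (V (nat_lit 16)) (S (nat_lit 13))) (nat_lit 65535))) (Nat.add (Nat.shiftLeft (nat_lit 1) (Nat.land (Nat.shiftRight (V (nat_lit 16)) (S (nat_lit 53))) (nat_lit 65535))) (Nat.shiftLeft (nat_lit 1) (Nat.land (Nat.shiftRight (V (nat_lit 16)) (S (nat_lit 55))) (nat_lit 65535)))))) (Nat.add (Nat.add (Nat.shiftLeft (nat_lit 1) (Nat.land (Nat.shiftRight (V (nat_lit 19)) (S (nat_lit 0))) (nat_lit 65535))) (Nat.shiftLeft (nat_lit 1) (Nat.land (Nat.shiftRight (V (nat_lit 28)) (S (nat_lit 0))) (nat_lit 65535)))) (Nat.add (Nat.shiftLeft (nat_lit 1) (Nat.land (Nat.shiftRight (V (nat_lit 29)) (S (nat_lit 0))) (nat_lit 65535))) (Nat.add (Nat.shiftLeft (nat_lit 1) (Nat.land (Nat.shiftRight (V (nat_lit 53)) (S (nat_lit 16))) (nat_lit 65535))) (Nat.shiftLeft (nat_lit 1) (Nat.land (Nat.shiftRight (V (nat_lit 55)) (S (nat_lit 16))) (nat_lit 65535)))))))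
def E15_3 (V S : ℕ → ℕ) : ℕ := Nat.add (Nat.add (Nat.add (Nat.add (Nat.shiftLeft (nat_lit 1) (Nat.land (Nat.shiftRight (V (nat_lit 0)) (S (nat_lit 9))) (nat_lit 65535))) (Nat.add (Nat.shiftLeft (nat_lit 1) (Nat.land (Nat.shiftRight (V (nat_lit 0)) (S (nat_lit 10))) (nat_lit 65535))) (Nat.shiftLeft (nat_lit 1) (Nat.land (Nat.shiftRight (V (nat_lit 0)) (S (nat_lit 37))) (nat_lit 65535))))) (Nat.add (Nat.add (Nat.shiftLeft (nat_lit 1) (Nat.land (Nat.shiftRight (V (nat_lit 0)) (S (nat_lit 39))) (nat_lit 65535))) (Nat.shiftLeft (nat_lit 1) (Nat.land (Nat.shiftRight (V (nat_lit 0)) (S (nat_lit 51))) (nat_lit 65535)))) (Nat.add (Nat.shiftLeft (nat_lit 1) (Nat.land (Nat.shiftRight (V (nat_lit 9)) (S (nat_lit 0))) (nat_lit 65535))) (Nat.shiftLeft (nat_lit 1) (Nat.land (Nat.shiftRight (V (nat_lit 9)) (S (nat_lit 9))) (nat_lit 65535)))))) (Nat.add (Nat.add (Nat.add (Nat.shiftLeft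 (nat_lit 1) (Nat.land (Nat.shiftRight (V (nat_lit 10)) (S (nat_lit 0))) (nat_lit 65535))) (Nat.shiftLeft (nat_lit 1) (Nat.land (Nat.shiftRight (V (nat_lit 10)) (S (nat_lit 10))) (nat_lit 65535)))) (Nat.add (Nat.shiftLeft (nat_lit 1) (Nat.land (Nat.shiftRight (V (nat_lit 16)) (S (nat_lit 18))) (nat_lit 65535))) (Nat.shiftLeft (nat_lit 1) (Nat.land (Nat.shiftRight (V (nat_lit 16)) (S (nat_lit 23))) (nat_lit 65535))))) (Nat.add (Nat.add (Nat.shiftLeft (nat_lit 1) (Nat.land (Nat.shiftRight (V (nat_lit 16)) (S (nat_lit 35))) (nat_lit 65535))) (Nat.shiftLeft (nat_lit 1) (Nat.land (Nat.shiftRight (V (nat_lit 16)) (S (nat_lit 42))) (nat_lit 65535)))) (Nat.add (Nat.shiftLeft (nat_lit 1) (Nat.land (Nat.shiftRight (V (nat_lit 16)) (S (nat_lit 44))) (nat_lit 65535))) (Nat.shiftLeft (nat_lit 1) (Nat.land (Nat.shiftRight (V (nat_lit 18)) (S (nat_lit 16))) (nat_lit 65535)))))))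 (Nat.add (Nat.add (Nat.add (Nat.shiftLeft (nat_lit 1) (Nat.land (Nat.shiftRight (V (nat_lit 18)) (S (nat_lit 18))) (nat_lit 65535))) (Nat.add (Nat.shiftLeft (nat_lit 1) (Nat.land (Nat.shiftRight (V (nat_lit 23)) (S (nat_lit 16))) (nat_lit 65535))) (Nat.shiftLeft (nat_lit 1) (Nat.land (Nat.shiftRight (V (nat_lit 23)) (S (nat_lit 23))) (nat_lit 65535))))) (Nat.add (Nat.add (Nat.shiftLeft (nat_lit 1) (Nat.land (Nat.shiftRight (V (nat_lit 35)) (S (nat_lit 16))) (nat_lit 65535))) (Nat.shiftLeft (nat_lit 1) (Nat.land (Nat.shiftRight (V (nat_lit 35)) (S (nat_lit 35))) (nat_lit 65535)))) (Nat.add (Nat.shiftLeft (nat_lit 1) (Nat.land (Nat.shiftRight (V (nat_lit 37)) (S (nat_lit 0))) (nat_lit 65535))) (Nat.shiftLeft (nat_lit 1) (Nat.land (Nat.shiftRight (V (nat_lit 37)) (S (nat_lit 37))) (nat_lit 65535)))))) (Nat.add (Nat.add (Nat.add (Nat.shiftLeft (nat_lit 1) (Nat.land (Nat.shiftRight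 (V (nat_lit 39)) (S (nat_lit 0))) (nat_lit 65535))) (Nat.shiftLeft (nat_lit 1) (Nat.land (Nat.shiftRight (V (nat_lit 39)) (S (nat_lit 39))) (nat_lit 65535)))) (Nat.add (Nat.shiftLeft (nat_lit 1) (Nat.land (Nat.shiftRight (V (nat_lit 42)) (S (nat_lit 16))) (nat_lit 65535))) (Nat.shiftLeft (nat_lit 1) (Nat.land (Nat.shiftRight (V (nat_lit 42)) (S (nat_lit 42))) (nat_lit 65535))))) (Nat.add (Nat.add (Nat.shiftLeft (nat_lit 1) (Nat.land (Nat.shiftRight (V (nat_lit 44)) (S (nat_lit 16))) (nat_lit 65535))) (Nat.shiftLeft (nat_lit 1) (Nat.land (Nat.shiftRight (V (nat_lit 44)) (S (nat_lit 44))) (nat_lit 65535)))) (Nat.add (Nat.shiftLeft (nat_lit 1) (Nat.land (Nat.shiftRight (V (nat_lit 51)) (S (nat_lit 0))) (nat_lit 65535))) (Nat.shiftLeft (nat_lit 1) (Nat.land (Nat.shiftRight (V (nat_lit 51)) (S (nat_lit 51))) (nat_lit 65535)))))))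
def E19_3 (V S : ℕ → ℕ) : ℕ := Nat.add (Nat.add (Nat.shiftLeft (nat_lit 1) (Nat.land (Nat.shiftRight (V (nat_lit 11)) (S (nat_lit 11))) (nat_lit 65535))) (Nat.shiftLeft (nat_lit 1) (Nat.land (Nat.shiftRight (V (nat_lit 14)) (S (nat_lit 14))) (nat_lit 65535)))) (Nat.add (Nat.shiftLeft (nat_lit 1) (Nat.land (Nat.shiftRight (V (nat_lit 27)) (S (nat_lit 27))) (nat_lit 65535))) (Nat.add (Nat.shiftLeft (nat_lit 1) (Nat.land (Nat.shiftRight (V (nat_lit 43)) (S (nat_lit 43))) (nat_lit 65535))) (Nat.shiftLeft (nat_lit 1) (Nat.land (Nat.shiftRight (V (nat_lit 59)) (S (nat_lit 59))) (nat_lit 65535)))))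
def E20_3 (V S : ℕ → ℕ) : ℕ := Nat.add (Nat.add (Nat.add (Nat.add (Nat.shiftLeft (nat_lit 1) (Nat.land (Nat.shiftRight (V (nat_lit 0)) (S (nat_lit 3))) (nat_lit 65535))) (Nat.shiftLeft (nat_lit 1) (Nat.land (Nat.shiftRight (V (nat_lit 0)) (S (nat_lit 12))) (nat_lit 65535)))) (Nat.add (Nat.shiftLeft (nat_lit 1) (Nat.land (Nat.shiftRight (V (nat_lit 0)) (S (nat_lit 13))) (nat_lit 65535))) (Nat.add (Nat.shiftLeft (nat_lit 1) (Nat.land (Nat.shiftRight (V (nat_lit 0)) (S (nat_lit 53))) (nat_lit 65535))) (Nat.shiftLeft (nat_lit 1) (Nat.land (Nat.shiftRight (V (nat_lit 0)) (S (nat_lit 55))) (nat_lit 65535)))))) (Nat.add (Nat.add (Nat.shiftLeft (nat_lit 1) (Nat.land (Nat.shiftRight (V (nat_lit 3)) (S (nat_lit 0))) (nat_lit 65535))) (Nat.shiftLeft (nat_lit 1) (Nat.land (Nat.shiftRight (V (nat_lit 5)) (S (nat_lit 16))) (nat_lit 65535)))) (Nat.add (Nat.shiftLeft (nat_lit 1)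 (Nat.land (Nat.shiftRight (V (nat_lit 7)) (S (nat_lit 16))) (nat_lit 65535))) (Nat.add (Nat.shiftLeft (nat_lit 1) (Nat.land (Nat.shiftRight (V (nat_lit 12)) (S (nat_lit 0))) (nat_lit 65535))) (Nat.shiftLeft (nat_lit 1) (Nat.land (Nat.shiftRight (V (nat_lit 13)) (S (nat_lit 0))) (nat_lit 65535))))))) (Nat.add (Nat.add (Nat.add (Nat.shiftLeft (nat_lit 1) (Nat.land (Nat.shiftRight (V (nat_lit 16)) (S (nat_lit 5))) (nat_lit 65535))) (Nat.shiftLeft (nat_lit 1) (Nat.land (Nat.shiftRight (V (nat_lit 16)) (S (nat_lit 7))) (nat_lit 65535)))) (Nat.add (Nat.shiftLeft (nat_lit 1) (Nat.land (Nat.shiftRight (V (nat_lit 16)) (S (nat_lit 19))) (nat_lit 65535))) (Nat.add (Nat.shiftLeft (nat_lit 1) (Nat.land (Nat.shiftRight (V (nat_lit 16)) (S (nat_lit 28))) (nat_lit 65535))) (Nat.shiftLeft (nat_lit 1) (Nat.land (Nat.shiftRight (V (nat_lit 16)) (S (nat_lit 29))) (nat_lit 65535))))))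 (Nat.add (Nat.add (Nat.shiftLeft (nat_lit 1) (Nat.land (Nat.shiftRight (V (nat_lit 19)) (S (nat_lit 16))) (nat_lit 65535))) (Nat.shiftLeft (nat_lit 1) (Nat.land (Nat.shiftRight (V (nat_lit 28)) (S (nat_lit 16))) (nat_lit 65535)))) (Nat.add (Nat.shiftLeft (nat_lit 1) (Nat.land (Nat.shiftRight (V (nat_lit 29)) (S (nat_lit 16))) (nat_lit 65535))) (Nat.add (Nat.shiftLeft (nat_lit 1) (Nat.land (Nat.shiftRight (V (nat_lit 53)) (S (nat_lit 0))) (nat_lit 65535))) (Nat.shiftLeft (nat_lit 1) (Nat.land (Nat.shiftRight (V (nat_lit 55)) (S (nat_lit 0))) (nat_lit 65535)))))))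
def E21_3 (V S : ℕ → ℕ) : ℕ := Nat.add (Nat.add (Nat.add (Nat.add (Nat.shiftLeft (nat_lit 1) (Nat.land (Nat.shiftRight (V (nat_lit 0)) (S (nat_lit 11))) (nat_lit 65535))) (Nat.shiftLeft (nat_lit 1) (Nat.land (Nat.shiftRight (V (nat_lit 0)) (S (nat_lit 14))) (nat_lit 65535)))) (Nat.add (Nat.shiftLeft (nat_lit 1) (Nat.land (Nat.shiftRight (V (nat_lit 0)) (S (nat_lit 27))) (nat_lit 65535))) (Nat.add (Nat.shiftLeft (nat_lit 1) (Nat.land (Nat.shiftRight (V (nat_lit 0)) (S (nat_lit 43))) (nat_lit 65535))) (Nat.shiftLeft (nat_lit 1) (Nat.land (Nat.shiftRight (V (nat_lit 0)) (S (nat_lit 59))) (nat_lit 65535)))))) (Nat.add (Nat.add (Nat.shiftLeft (nat_lit 1) (Nat.land (Nat.shiftRight (V (nat_lit 11)) (S (nat_lit 0))) (nat_lit 65535))) (Nat.shiftLeft (nat_lit 1) (Nat.land (Nat.shiftRight (V (nat_lit 11)) (S (nat_lit 16))) (nat_lit 65535)))) (Nat.add (Nat.shiftLeft (nat_lit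 1) (Nat.land (Nat.shiftRight (V (nat_lit 14)) (S (nat_lit 0))) (nat_lit 65535))) (Nat.add (Nat.shiftLeft (nat_lit 1) (Nat.land (Nat.shiftRight (V (nat_lit 14)) (S (nat_lit 16))) (nat_lit 65535))) (Nat.shiftLeft (nat_lit 1) (Nat.land (Nat.shiftRight (V (nat_lit 16)) (S (nat_lit 11))) (nat_lit 65535))))))) (Nat.add (Nat.add (Nat.add (Nat.shiftLeft (nat_lit 1) (Nat.land (Nat.shiftRight (V (nat_lit 16)) (S (nat_lit 14))) (nat_lit 65535))) (Nat.shiftLeft (nat_lit 1) (Nat.land (Nat.shiftRight (V (nat_lit 16)) (S (nat_lit 27))) (nat_lit 65535)))) (Nat.add (Nat.shiftLeft (nat_lit 1) (Nat.land (Nat.shiftRight (V (nat_lit 16)) (S (nat_lit 43))) (nat_lit 65535))) (Nat.add (Nat.shiftLeft (nat_lit 1) (Nat.land (Nat.shiftRight (V (nat_lit 16)) (S (nat_lit 59))) (nat_lit 65535))) (Nat.shiftLeft (nat_lit 1) (Nat.land (Nat.shiftRight (V (nat_lit 27)) (S (nat_lit 0))) (nat_lit 65535))))))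 (Nat.add (Nat.add (Nat.shiftLeft (nat_lit 1) (Nat.land (Nat.shiftRight (V (nat_lit 27)) (S (nat_lit 16))) (nat_lit 65535))) (Nat.shiftLeft (nat_lit 1) (Nat.land (Nat.shiftRight (V (nat_lit 43)) (S (nat_lit 0))) (nat_lit 65535)))) (Nat.add (Nat.shiftLeft (nat_lit 1) (Nat.land (Nat.shiftRight (V (nat_lit 43)) (S (nat_lit 16))) (nat_lit 65535))) (Nat.add (Nat.shiftLeft (nat_lit 1) (Nat.land (Nat.shiftRight (V (nat_lit 59)) (S (nat_lit 0))) (nat_lit 65535))) (Nat.shiftLeft (nat_lit 1) (Nat.land (Nat.shiftRight (V (nat_lit 59)) (S (nat_lit 16))) (nat_lit 65535)))))))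
def E22_3 (V S : ℕ → ℕ) : ℕ := Nat.add (Nat.add (Nat.add (Nat.add (Nat.shiftLeft (nat_lit 1) (Nat.land (Nat.shiftRight (V (nat_lit 0)) (S (nat_lit 8))) (nat_lit 65535))) (Nat.add (Nat.shiftLeft (nat_lit 1) (Nat.land (Nat.shiftRight (V (nat_lit 0)) (S (nat_lit 30))) (nat_lit 65535))) (Nat.shiftLeft (nat_lit 1) (Nat.land (Nat.shiftRight (V (nat_lit 0)) (S (nat_lit 33))) (nat_lit 65535))))) (Nat.add (Nat.add (Nat.shiftLeft (nat_lit 1) (Nat.land (Nat.shiftRight (V (nat_lit 0)) (S (nat_lit 41))) (nat_lit 65535))) (Nat.shiftLeft (nat_lit 1) (Nat.land (Nat.shiftRight (V (nat_lit 0)) (S (nat_lit 47))) (nat_lit 65535)))) (Nat.add (Nat.shiftLeft (nat_lit 1) (Nat.land (Nat.shiftRight (V (nat_lit 8)) (S (nat_lit 0))) (nat_lit 65535))) (Nat.shiftLeft (nat_lit 1) (Nat.land (Nat.shiftRight (V (nat_lit 8)) (S (nat_lit 8))) (nat_lit 65535)))))) (Nat.add (Nat.add (Nat.add (Nat.shiftLeft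 (nat_lit 1) (Nat.land (Nat.shiftRight (V (nat_lit 16)) (S (nat_lit 21))) (nat_lit 65535))) (Nat.shiftLeft (nat_lit 1) (Nat.land (Nat.shiftRight (V (nat_lit 16)) (S (nat_lit 36))) (nat_lit 65535)))) (Nat.add (Nat.shiftLeft (nat_lit 1) (Nat.land (Nat.shiftRight (V (nat_lit 16)) (S (nat_lit 46))) (nat_lit 65535))) (Nat.shiftLeft (nat_lit 1) (Nat.land (Nat.shiftRight (V (nat_lit 16)) (S (nat_lit 50))) (nat_lit 65535))))) (Nat.add (Nat.add (Nat.shiftLeft (nat_lit 1) (Nat.land (Nat.shiftRight (V (nat_lit 16)) (S (nat_lit 54))) (nat_lit 65535))) (Nat.shiftLeft (nat_lit 1) (Nat.land (Nat.shiftRight (V (nat_lit 21)) (S (nat_lit 16))) (nat_lit 65535)))) (Nat.add (Nat.shiftLeft (nat_lit 1) (Nat.land (Nat.shiftRight (V (nat_lit 21)) (S (nat_lit 21))) (nat_lit 65535))) (Nat.shiftLeft (nat_lit 1) (Nat.land (Nat.shiftRight (V (nat_lit 30)) (S (nat_lit 0))) (nat_lit 65535)))))))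 (Nat.add (Nat.add (Nat.add (Nat.shiftLeft (nat_lit 1) (Nat.land (Nat.shiftRight (V (nat_lit 30)) (S (nat_lit 30))) (nat_lit 65535))) (Nat.add (Nat.shiftLeft (nat_lit 1) (Nat.land (Nat.shiftRight (V (nat_lit 33)) (S (nat_lit 0))) (nat_lit 65535))) (Nat.shiftLeft (nat_lit 1) (Nat.land (Nat.shiftRight (V (nat_lit 33)) (S (nat_lit 33))) (nat_lit 65535))))) (Nat.add (Nat.add (Nat.shiftLeft (nat_lit 1) (Nat.land (Nat.shiftRight (V (nat_lit 36)) (S (nat_lit 16))) (nat_lit 65535))) (Nat.shiftLeft (nat_lit 1) (Nat.land (Nat.shiftRight (V (nat_lit 36)) (S (nat_lit 36))) (nat_lit 65535)))) (Nat.add (Nat.shiftLeft (nat_lit 1) (Nat.land (Nat.shiftRight (V (nat_lit 41)) (S (nat_lit 0))) (nat_lit 65535))) (Nat.shiftLeft (nat_lit 1) (Nat.land (Nat.shiftRight (V (nat_lit 41)) (S (nat_lit 41))) (nat_lit 65535)))))) (Nat.add (Nat.add (Nat.add (Nat.shiftLeft (nat_lit 1) (Nat.land (Nat.shiftRight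 (V (nat_lit 46)) (S (nat_lit 16))) (nat_lit 65535))) (Nat.shiftLeft (nat_lit 1) (Nat.land (Nat.shiftRight (V (nat_lit 46)) (S (nat_lit 46))) (nat_lit 65535)))) (Nat.add (Nat.shiftLeft (nat_lit 1) (Nat.land (Nat.shiftRight (V (nat_lit 47)) (S (nat_lit 0))) (nat_lit 65535))) (Nat.shiftLeft (nat_lit 1) (Nat.land (Nat.shiftRight (V (nat_lit 47)) (S (nat_lit 47))) (nat_lit 65535))))) (Nat.add (Nat.add (Nat.shiftLeft (nat_lit 1) (Nat.land (Nat.shiftRight (V (nat_lit 50)) (S (nat_lit 16))) (nat_lit 65535))) (Nat.shiftLeft (nat_lit 1) (Nat.land (Nat.shiftRight (V (nat_lit 50)) (S (nat_lit 50))) (nat_lit 65535)))) (Nat.add (Nat.shiftLeft (nat_lit 1) (Nat.land (Nat.shiftRight (V (nat_lit 54)) (S (nat_lit 16))) (nat_lit 65535))) (Nat.shiftLeft (nat_lit 1) (Nat.land (Nat.shiftRight (V (nat_lit 54)) (S (nat_lit 54))) (nat_lit 65535)))))))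
def E23_3 (V S : ℕ → ℕ) : ℕ := Nat.add (Nat.shiftLeft (nat_lit 1) (Nat.land (Nat.shiftRight (V (nat_lit 0)) (S (nat_lit 16))) (nat_lit 65535))) (Nat.shiftLeft (nat_lit 1) (Nat.land (Nat.shiftRight (V (nat_lit 16)) (S (nat_lit 0))) (nat_lit 65535)))
def E24_3 (V S : ℕ → ℕ) : ℕ := Nat.add (Nat.add (Nat.add (Nat.add (Nat.shiftLeft (nat_lit 1) (Nat.land (Nat.shiftRight (V (nat_lit 0)) (S (nat_lit 17))) (nat_lit 65535))) (Nat.shiftLeft (nat_lit 1) (Nat.land (Nat.shiftRight (V (nat_lit 0)) (S (nat_lit 20))) (nat_lit 65535)))) (Nat.add (Nat.shiftLeft (nat_lit 1) (Nat.land (Nat.shiftRight (V (nat_lit 0)) (S (nat_lit 25))) (nat_lit 65535))) (Nat.add (Nat.shiftLeft (nat_lit 1) (Nat.land (Nat.shiftRight (V (nat_lit 0)) (S (nat_lit 31))) (nat_lit 65535))) (Nat.shiftLeft (nat_lit 1) (Nat.land (Nat.shiftRight (V (nat_lit 0)) (S (nat_lit 56))) (nat_lit 65535)))))) (Nat.add (Nat.add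 (Nat.shiftLeft (nat_lit 1) (Nat.land (Nat.shiftRight (V (nat_lit 2)) (S (nat_lit 16))) (nat_lit 65535))) (Nat.shiftLeft (nat_lit 1) (Nat.land (Nat.shiftRight (V (nat_lit 6)) (S (nat_lit 16))) (nat_lit 65535)))) (Nat.add (Nat.shiftLeft (nat_lit 1) (Nat.land (Nat.shiftRight (V (nat_lit 16)) (S (nat_lit 2))) (nat_lit 65535))) (Nat.add (Nat.shiftLeft (nat_lit 1) (Nat.land (Nat.shiftRight (V (nat_lit 16)) (S (nat_lit 6))) (nat_lit 65535))) (Nat.shiftLeft (nat_lit 1) (Nat.land (Nat.shiftRight (V (nat_lit 16)) (S (nat_lit 24))) (nat_lit 65535))))))) (Nat.add (Nat.add (Nat.add (Nat.shiftLeft (nat_lit 1) (Nat.land (Nat.shiftRight (V (nat_lit 16)) (S (nat_lit 49))) (nat_lit 65535))) (Nat.shiftLeft (nat_lit 1) (Nat.land (Nat.shiftRight (V (nat_lit 16)) (S (nat_lit 52))) (nat_lit 65535)))) (Nat.add (Nat.shiftLeft (nat_lit 1) (Nat.land (Nat.shiftRight (V (nat_lit 17)) (S (nat_lit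 0))) (nat_lit 65535))) (Nat.add (Nat.shiftLeft (nat_lit 1) (Nat.land (Nat.shiftRight (V (nat_lit 20)) (S (nat_lit 0))) (nat_lit 65535))) (Nat.shiftLeft (nat_lit 1) (Nat.land (Nat.shiftRight (V (nat_lit 24)) (S (nat_lit 16))) (nat_lit 65535)))))) (Nat.add (Nat.add (Nat.shiftLeft (nat_lit 1) (Nat.land (Nat.shiftRight (V (nat_lit 25)) (S (nat_lit 0))) (nat_lit 65535))) (Nat.shiftLeft (nat_lit 1) (Nat.land (Nat.shiftRight (V (nat_lit 31)) (S (nat_lit 0))) (nat_lit 65535)))) (Nat.add (Nat.shiftLeft (nat_lit 1) (Nat.land (Nat.shiftRight (V (nat_lit 49)) (S (nat_lit 16))) (nat_lit 65535))) (Nat.add (Nat.shiftLeft (nat_lit 1) (Nat.land (Nat.shiftRight (V (nat_lit 52)) (S (nat_lit 16))) (nat_lit 65535))) (Nat.shiftLeft (nat_lit 1) (Nat.land (Nat.shiftRight (V (nat_lit 56)) (S (nat_lit 0))) (nat_lit 65535)))))))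
def E25_3 (V S : ℕ → ℕ) : ℕ := Nat.add (Nat.add (Nat.add (Nat.add (Nat.shiftLeft (nat_lit 1) (Nat.land (Nat.shiftRight (V (nat_lit 0)) (S (nat_lit 18))) (nat_lit 65535))) (Nat.shiftLeft (nat_lit 1) (Nat.land (Nat.shiftRight (V (nat_lit 0)) (S (nat_lit 23))) (nat_lit 65535)))) (Nat.add (Nat.shiftLeft (nat_lit 1) (Nat.land (Nat.shiftRight (V (nat_lit 0)) (S (nat_lit 35))) (nat_lit 65535))) (Nat.add (Nat.shiftLeft (nat_lit 1) (Nat.land (Nat.shiftRight (V (nat_lit 0)) (S (nat_lit 42))) (nat_lit 65535))) (Nat.shiftLeft (nat_lit 1) (Nat.land (Nat.shiftRight (V (nat_lit 0)) (S (nat_lit 44))) (nat_lit 65535)))))) (Nat.add (Nat.add (Nat.shiftLeft (nat_lit 1) (Nat.land (Nat.shiftRight (V (nat_lit 9)) (S (nat_lit 16))) (nat_lit 65535))) (Nat.shiftLeft (nat_lit 1) (Nat.land (Nat.shiftRight (V (nat_lit 10)) (S (nat_lit 16))) (nat_lit 65535)))) (Nat.add (Nat.shiftLeft (nat_lit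 1) (Nat.land (Nat.shiftRight (V (nat_lit 16)) (S (nat_lit 9))) (nat_lit 65535))) (Nat.add (Nat.shiftLeft (nat_lit 1) (Nat.land (Nat.shiftRight (V (nat_lit 16)) (S (nat_lit 10))) (nat_lit 65535))) (Nat.shiftLeft (nat_lit 1) (Nat.land (Nat.shiftRight (V (nat_lit 16)) (S (nat_lit 37))) (nat_lit 65535))))))) (Nat.add (Nat.add (Nat.add (Nat.shiftLeft (nat_lit 1) (Nat.land (Nat.shiftRight (V (nat_lit 16)) (S (nat_lit 39))) (nat_lit 65535))) (Nat.shiftLeft (nat_lit 1) (Nat.land (Nat.shiftRight (V (nat_lit 16)) (S (nat_lit 51))) (nat_lit 65535)))) (Nat.add (Nat.shiftLeft (nat_lit 1) (Nat.land (Nat.shiftRight (V (nat_lit 18)) (S (nat_lit 0))) (nat_lit 65535))) (Nat.add (Nat.shiftLeft (nat_lit 1) (Nat.land (Nat.shiftRight (V (nat_lit 23)) (S (nat_lit 0))) (nat_lit 65535))) (Nat.shiftLeft (nat_lit 1) (Nat.land (Nat.shiftRight (V (nat_lit 35)) (S (nat_lit 0))) (nat_lit 65535))))))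 (Nat.add (Nat.add (Nat.shiftLeft (nat_lit 1) (Nat.land (Nat.shiftRight (V (nat_lit 37)) (S (nat_lit 16))) (nat_lit 65535))) (Nat.shiftLeft (nat_lit 1) (Nat.land (Nat.shiftRight (V (nat_lit 39)) (S (nat_lit 16))) (nat_lit 65535)))) (Nat.add (Nat.shiftLeft (nat_lit 1) (Nat.land (Nat.shiftRight (V (nat_lit 42)) (S (nat_lit 0))) (nat_lit 65535))) (Nat.add (Nat.shiftLeft (nat_lit 1) (Nat.land (Nat.shiftRight (V (nat_lit 44)) (S (nat_lit 0))) (nat_lit 65535))) (Nat.shiftLeft (nat_lit 1) (Nat.land (Nat.shiftRight (V (nat_lit 51)) (S (nat_lit 16))) (nat_lit 65535)))))))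
def E26_3 (V S : ℕ → ℕ) : ℕ := Nat.add (Nat.add (Nat.add (Nat.add (Nat.shiftLeft (nat_lit 1) (Nat.land (Nat.shiftRight (V (nat_lit 0)) (S (nat_lit 21))) (nat_lit 65535))) (Nat.shiftLeft (nat_lit 1) (Nat.land (Nat.shiftRight (V (nat_lit 0)) (S (nat_lit 36))) (nat_lit 65535)))) (Nat.add (Nat.shiftLeft (nat_lit 1) (Nat.land (Nat.shiftRight (V (nat_lit 0)) (S (nat_lit 46))) (nat_lit 65535))) (Nat.add (Nat.shiftLeft (nat_lit 1) (Nat.land (Nat.shiftRight (V (nat_lit 0)) (S (nat_lit 50))) (nat_lit 65535))) (Nat.shiftLeft (nat_lit 1) (Nat.land (Nat.shiftRight (V (nat_lit 0)) (S (nat_lit 54))) (nat_lit 65535)))))) (Nat.add (Nat.add (Nat.shiftLeft (nat_lit 1) (Nat.land (Nat.shiftRight (V (nat_lit 8)) (S (nat_lit 16))) (nat_lit 65535))) (Nat.shiftLeft (nat_lit 1) (Nat.land (Nat.shiftRight (V (nat_lit 16)) (S (nat_lit 8))) (nat_lit 65535)))) (Nat.add (Nat.shiftLeft (nat_lit 1)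 (Nat.land (Nat.shiftRight (V (nat_lit 16)) (S (nat_lit 30))) (nat_lit 65535))) (Nat.add (Nat.shiftLeft (nat_lit 1) (Nat.land (Nat.shiftRight (V (nat_lit 16)) (S (nat_lit 33))) (nat_lit 65535))) (Nat.shiftLeft (nat_lit 1) (Nat.land (Nat.shiftRight (V (nat_lit 16)) (S (nat_lit 41))) (nat_lit 65535))))))) (Nat.add (Nat.add (Nat.add (Nat.shiftLeft (nat_lit 1) (Nat.land (Nat.shiftRight (V (nat_lit 16)) (S (nat_lit 47))) (nat_lit 65535))) (Nat.shiftLeft (nat_lit 1) (Nat.land (Nat.shiftRight (V (nat_lit 21)) (S (nat_lit 0))) (nat_lit 65535)))) (Nat.add (Nat.shiftLeft (nat_lit 1) (Nat.land (Nat.shiftRight (V (nat_lit 30)) (S (nat_lit 16))) (nat_lit 65535))) (Nat.add (Nat.shiftLeft (nat_lit 1) (Nat.land (Nat.shiftRight (V (nat_lit 33)) (S (nat_lit 16))) (nat_lit 65535))) (Nat.shiftLeft (nat_lit 1) (Nat.land (Nat.shiftRight (V (nat_lit 36)) (S (nat_lit 0))) (nat_lit 65535))))))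 (Nat.add (Nat.add (Nat.shiftLeft (nat_lit 1) (Nat.land (Nat.shiftRight (V (nat_lit 41)) (S (nat_lit 16))) (nat_lit 65535))) (Nat.shiftLeft (nat_lit 1) (Nat.land (Nat.shiftRight (V (nat_lit 46)) (S (nat_lit 0))) (nat_lit 65535)))) (Nat.add (Nat.shiftLeft (nat_lit 1) (Nat.land (Nat.shiftRight (V (nat_lit 47)) (S (nat_lit 16))) (nat_lit 65535))) (Nat.add (Nat.shiftLeft (nat_lit 1) (Nat.land (Nat.shiftRight (V (nat_lit 50)) (S (nat_lit 0))) (nat_lit 65535))) (Nat.shiftLeft (nat_lit 1) (Nat.land (Nat.shiftRight (V (nat_lit 54)) (S (nat_lit 0))) (nat_lit 65535)))))))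
def E27_3 (V S : ℕ → ℕ) : ℕ := Nat.add (Nat.add (Nat.add (Nat.add (Nat.shiftLeft (nat_lit 1) (Nat.land (Nat.shiftRight (V (nat_lit 0)) (S (nat_lit 26))) (nat_lit 65535))) (Nat.add (Nat.shiftLeft (nat_lit 1) (Nat.land (Nat.shiftRight (V (nat_lit 0)) (S (nat_lit 34))) (nat_lit 65535))) (Nat.shiftLeft (nat_lit 1) (Nat.land (Nat.shiftRight (V (nat_lit 0)) (S (nat_lit 38))) (nat_lit 65535))))) (Nat.add (Nat.shiftLeft (nat_lit 1) (Nat.land (Nat.shiftRight (V (nat_lit 0)) (S (nat_lit 57))) (nat_lit 65535))) (Nat.add (Nat.shiftLeft (nat_lit 1) (Nat.land (Nat.shiftRight (V (nat_lit 0)) (S (nat_lit 58))) (nat_lit 65535))) (Nat.shiftLeft (nat_lit 1) (Nat.land (Nat.shiftRight (V (nat_lit 16)) (S (nat_lit 26))) (nat_lit 65535)))))) (Nat.add (Nat.add (Nat.shiftLeft (nat_lit 1) (Nat.land (Nat.shiftRight (V (nat_lit 16)) (S (nat_lit 34))) (nat_lit 65535))) (Nat.add (Nat.shiftLeft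 (nat_lit 1) (Nat.land (Nat.shiftRight (V (nat_lit 16)) (S (nat_lit 38))) (nat_lit 65535))) (Nat.shiftLeft (nat_lit 1) (Nat.land (Nat.shiftRight (V (nat_lit 16)) (S (nat_lit 57))) (nat_lit 65535))))) (Nat.add (Nat.shiftLeft (nat_lit 1) (Nat.land (Nat.shiftRight (V (nat_lit 16)) (S (nat_lit 58))) (nat_lit 65535))) (Nat.add (Nat.shiftLeft (nat_lit 1) (Nat.land (Nat.shiftRight (V (nat_lit 26)) (S (nat_lit 0))) (nat_lit 65535))) (Nat.shiftLeft (nat_lit 1) (Nat.land (Nat.shiftRight (V (nat_lit 26)) (S (nat_lit 16))) (nat_lit 65535))))))) (Nat.add (Nat.add (Nat.add (Nat.shiftLeft (nat_lit 1) (Nat.land (Nat.shiftRight (V (nat_lit 26)) (S (nat_lit 26))) (nat_lit 65535))) (Nat.add (Nat.shiftLeft (nat_lit 1) (Nat.land (Nat.shiftRight (V (nat_lit 34)) (S (nat_lit 0))) (nat_lit 65535))) (Nat.shiftLeft (nat_lit 1) (Nat.land (Nat.shiftRight (V (nat_lit 34)) (S (nat_lit 16))) (nat_lit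 65535))))) (Nat.add (Nat.shiftLeft (nat_lit 1) (Nat.land (Nat.shiftRight (V (nat_lit 34)) (S (nat_lit 34))) (nat_lit 65535))) (Nat.add (Nat.shiftLeft (nat_lit 1) (Nat.land (Nat.shiftRight (V (nat_lit 38)) (S (nat_lit 0))) (nat_lit 65535))) (Nat.shiftLeft (nat_lit 1) (Nat.land (Nat.shiftRight (V (nat_lit 38)) (S (nat_lit 16))) (nat_lit 65535)))))) (Nat.add (Nat.add (Nat.shiftLeft (nat_lit 1) (Nat.land (Nat.shiftRight (V (nat_lit 38)) (S (nat_lit 38))) (nat_lit 65535))) (Nat.add (Nat.shiftLeft (nat_lit 1) (Nat.land (Nat.shiftRight (V (nat_lit 57)) (S (nat_lit 0))) (nat_lit 65535))) (Nat.shiftLeft (nat_lit 1) (Nat.land (Nat.shiftRight (V (nat_lit 57)) (S (nat_lit 16))) (nat_lit 65535))))) (Nat.add (Nat.add (Nat.shiftLeft (nat_lit 1) (Nat.land (Nat.shiftRight (V (nat_lit 57)) (S (nat_lit 57))) (nat_lit 65535))) (Nat.shiftLeft (nat_lit 1) (Nat.land (Nat.shiftRight (V (nat_lit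 58)) (S (nat_lit 0))) (nat_lit 65535)))) (Nat.add (Nat.shiftLeft (nat_lit 1) (Nat.land (Nat.shiftRight (V (nat_lit 58)) (S (nat_lit 16))) (nat_lit 65535))) (Nat.shiftLeft (nat_lit 1) (Nat.land (Nat.shiftRight (V (nat_lit 58)) (S (nat_lit 58))) (nat_lit 65535)))))))
def E28_3 (V S : ℕ → ℕ) : ℕ := Nat.add (Nat.add (Nat.add (Nat.shiftLeft (nat_lit 1) (Nat.land (Nat.shiftRight (V (nat_lit 0)) (S (nat_lit 32))) (nat_lit 65535))) (Nat.shiftLeft (nat_lit 1) (Nat.land (Nat.shiftRight (V (nat_lit 0)) (S (nat_lit 45))) (nat_lit 65535)))) (Nat.add (Nat.shiftLeft (nat_lit 1) (Nat.land (Nat.shiftRight (V (nat_lit 16)) (S (nat_lit 45))) (nat_lit 65535))) (Nat.add (Nat.shiftLeft (nat_lit 1) (Nat.land (Nat.shiftRight (V (nat_lit 16)) (S (nat_lit 48))) (nat_lit 65535))) (Nat.shiftLeft (nat_lit 1) (Nat.land (Nat.shiftRight (V (nat_lit 32)) (S (nat_lit 0))) (nat_lit 65535)))))) (Nat.add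 (Nat.add (Nat.shiftLeft (nat_lit 1) (Nat.land (Nat.shiftRight (V (nat_lit 32)) (S (nat_lit 32))) (nat_lit 65535))) (Nat.shiftLeft (nat_lit 1) (Nat.land (Nat.shiftRight (V (nat_lit 45)) (S (nat_lit 0))) (nat_lit 65535)))) (Nat.add (Nat.shiftLeft (nat_lit 1) (Nat.land (Nat.shiftRight (V (nat_lit 45)) (S (nat_lit 16))) (nat_lit 65535))) (Nat.add (Nat.shiftLeft (nat_lit 1) (Nat.land (Nat.shiftRight (V (nat_lit 48)) (S (nat_lit 16))) (nat_lit 65535))) (Nat.shiftLeft (nat_lit 1) (Nat.land (Nat.shiftRight (V (nat_lit 48)) (S (nat_lit 48))) (nat_lit 65535))))))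
def E29_3 (V S : ℕ → ℕ) : ℕ := Nat.add (Nat.add (Nat.shiftLeft (nat_lit 1) (Nat.land (Nat.shiftRight (V (nat_lit 0)) (S (nat_lit 48))) (nat_lit 65535))) (Nat.shiftLeft (nat_lit 1) (Nat.land (Nat.shiftRight (V (nat_lit 16)) (S (nat_lit 32))) (nat_lit 65535)))) (Nat.add (Nat.shiftLeft (nat_lit 1) (Nat.land (Nat.shiftRight (V (nat_lit 32)) (S (nat_lit 16))) (nat_lit 65535))) (Nat.add (Nat.shiftLeft (nat_lit 1) (Nat.land (Nat.shiftRight (V (nat_lit 45)) (S (nat_lit 45))) (nat_lit 65535))) (Nat.shiftLeft (nat_lit 1) (Nat.land (Nat.shiftRight (V (nat_lit 48)) (S (nat_lit 0))) (nat_lit 65535)))))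
def E32_3 (V S : ℕ → ℕ) : ℕ := Nat.add (Nat.add (Nat.add (Nat.add (Nat.shiftLeft (nat_lit 1) (Nat.land (Nat.shiftRight (V (nat_lit 1)) (S (nat_lit 2))) (nat_lit 65535))) (Nat.shiftLeft (nat_lit 1) (Nat.land (Nat.shiftRight (V (nat_lit 1)) (S (nat_lit 25))) (nat_lit 65535)))) (Nat.add (Nat.shiftLeft (nat_lit 1) (Nat.land (Nat.shiftRight (V (nat_lit 2)) (S (nat_lit 1))) (nat_lit 65535))) (Nat.add (Nat.shiftLeft (nat_lit 1) (Nat.land (Nat.shiftRight (V (nat_lit 4)) (S (nat_lit 6))) (nat_lit 65535))) (Nat.shiftLeft (nat_lit 1) (Nat.land (Nat.shiftRight (V (nat_lit 4)) (S (nat_lit 56))) (nat_lit 65535)))))) (Nat.add (Nat.add (Nat.shiftLeft (nat_lit 1) (Nat.land (Nat.shiftRight (V (nat_lit 6)) (S (nat_lit 4))) (nat_lit 65535))) (Nat.shiftLeft (nat_lit 1) (Nat.land (Nat.shiftRight (V (nat_lit 15)) (S (nat_lit 17))) (nat_lit 65535)))) (Nat.add (Nat.shiftLeft (nat_lit 1) (Nat.land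 (Nat.shiftRight (V (nat_lit 15)) (S (nat_lit 24))) (nat_lit 65535))) (Nat.add (Nat.shiftLeft (nat_lit 1) (Nat.land (Nat.shiftRight (V (nat_lit 17)) (S (nat_lit 15))) (nat_lit 65535))) (Nat.shiftLeft (nat_lit 1) (Nat.land (Nat.shiftRight (V (nat_lit 20)) (S (nat_lit 22))) (nat_lit 65535))))))) (Nat.add (Nat.add (Nat.add (Nat.shiftLeft (nat_lit 1) (Nat.land (Nat.shiftRight (V (nat_lit 22)) (S (nat_lit 20))) (nat_lit 65535))) (Nat.shiftLeft (nat_lit 1) (Nat.land (Nat.shiftRight (V (nat_lit 22)) (S (nat_lit 49))) (nat_lit 65535)))) (Nat.add (Nat.shiftLeft (nat_lit 1) (Nat.land (Nat.shiftRight (V (nat_lit 24)) (S (nat_lit 15))) (nat_lit 65535))) (Nat.add (Nat.shiftLeft (nat_lit 1) (Nat.land (Nat.shiftRight (V (nat_lit 25)) (S (nat_lit 1))) (nat_lit 65535))) (Nat.shiftLeft (nat_lit 1) (Nat.land (Nat.shiftRight (V (nat_lit 31)) (S (nat_lit 40))) (nat_lit 65535)))))) (Nat.add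 (Nat.add (Nat.shiftLeft (nat_lit 1) (Nat.land (Nat.shiftRight (V (nat_lit 40)) (S (nat_lit 31))) (nat_lit 65535))) (Nat.shiftLeft (nat_lit 1) (Nat.land (Nat.shiftRight (V (nat_lit 40)) (S (nat_lit 52))) (nat_lit 65535)))) (Nat.add (Nat.shiftLeft (nat_lit 1) (Nat.land (Nat.shiftRight (V (nat_lit 49)) (S (nat_lit 22))) (nat_lit 65535))) (Nat.add (Nat.shiftLeft (nat_lit 1) (Nat.land (Nat.shiftRight (V (nat_lit 52)) (S (nat_lit 40))) (nat_lit 65535))) (Nat.shiftLeft (nat_lit 1) (Nat.land (Nat.shiftRight (V (nat_lit 56)) (S (nat_lit 4))) (nat_lit 65535)))))))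
def E33_3 (V S : ℕ → ℕ) : ℕ := Nat.add (Nat.add (Nat.add (Nat.add (Nat.shiftLeft (nat_lit 1) (Nat.land (Nat.shiftRight (V (nat_lit 3)) (S (nat_lit 42))) (nat_lit 65535))) (Nat.shiftLeft (nat_lit 1) (Nat.land (Nat.shiftRight (V (nat_lit 5)) (S (nat_lit 9))) (nat_lit 65535)))) (Nat.add (Nat.shiftLeft (nat_lit 1) (Nat.land (Nat.shiftRight (V (nat_lit 7)) (S (nat_lit 10))) (nat_lit 65535))) (Nat.add (Nat.shiftLeft (nat_lit 1) (Nat.land (Nat.shiftRight (V (nat_lit 9)) (S (nat_lit 5))) (nat_lit 65535))) (Nat.shiftLeft (nat_lit 1) (Nat.land (Nat.shiftRight (V (nat_lit 10)) (S (nat_lit 7))) (nat_lit 65535)))))) (Nat.add (Nat.add (Nat.shiftLeft (nat_lit 1) (Nat.land (Nat.shiftRight (V (nat_lit 12)) (S (nat_lit 18))) (nat_lit 65535))) (Nat.shiftLeft (nat_lit 1) (Nat.land (Nat.shiftRight (V (nat_lit 13)) (S (nat_lit 23))) (nat_lit 65535)))) (Nat.add (Nat.shiftLeft (nat_lit 1)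 (Nat.land (Nat.shiftRight (V (nat_lit 18)) (S (nat_lit 12))) (nat_lit 65535))) (Nat.add (Nat.shiftLeft (nat_lit 1) (Nat.land (Nat.shiftRight (V (nat_lit 19)) (S (nat_lit 37))) (nat_lit 65535))) (Nat.shiftLeft (nat_lit 1) (Nat.land (Nat.shiftRight (V (nat_lit 23)) (S (nat_lit 13))) (nat_lit 65535))))))) (Nat.add (Nat.add (Nat.add (Nat.shiftLeft (nat_lit 1) (Nat.land (Nat.shiftRight (V (nat_lit 28)) (S (nat_lit 39))) (nat_lit 65535))) (Nat.shiftLeft (nat_lit 1) (Nat.land (Nat.shiftRight (V (nat_lit 29)) (S (nat_lit 51))) (nat_lit 65535)))) (Nat.add (Nat.shiftLeft (nat_lit 1) (Nat.land (Nat.shiftRight (V (nat_lit 35)) (S (nat_lit 53))) (nat_lit 65535))) (Nat.add (Nat.shiftLeft (nat_lit 1) (Nat.land (Nat.shiftRight (V (nat_lit 37)) (S (nat_lit 19))) (nat_lit 65535))) (Nat.shiftLeft (nat_lit 1) (Nat.land (Nat.shiftRight (V (nat_lit 39)) (S (nat_lit 28))) (nat_lit 65535))))))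 (Nat.add (Nat.add (Nat.shiftLeft (nat_lit 1) (Nat.land (Nat.shiftRight (V (nat_lit 42)) (S (nat_lit 3))) (nat_lit 65535))) (Nat.shiftLeft (nat_lit 1) (Nat.land (Nat.shiftRight (V (nat_lit 44)) (S (nat_lit 55))) (nat_lit 65535)))) (Nat.add (Nat.shiftLeft (nat_lit 1) (Nat.land (Nat.shiftRight (V (nat_lit 51)) (S (nat_lit 29))) (nat_lit 65535))) (Nat.add (Nat.shiftLeft (nat_lit 1) (Nat.land (Nat.shiftRight (V (nat_lit 53)) (S (nat_lit 35))) (nat_lit 65535))) (Nat.shiftLeft (nat_lit 1) (Nat.land (Nat.shiftRight (V (nat_lit 55)) (S (nat_lit 44))) (nat_lit 65535)))))))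
def E40_3 (V S : ℕ → ℕ) : ℕ := Nat.add (Nat.add (Nat.add (Nat.add (Nat.shiftLeft (nat_lit 1) (Nat.land (Nat.shiftRight (V (nat_lit 3)) (S (nat_lit 5))) (nat_lit 65535))) (Nat.shiftLeft (nat_lit 1) (Nat.land (Nat.shiftRight (V (nat_lit 3)) (S (nat_lit 7))) (nat_lit 65535)))) (Nat.add (Nat.shiftLeft (nat_lit 1) (Nat.land (Nat.shiftRight (V (nat_lit 5)) (S (nat_lit 3))) (nat_lit 65535))) (Nat.add (Nat.shiftLeft (nat_lit 1) (Nat.land (Nat.shiftRight (V (nat_lit 5)) (S (nat_lit 55))) (nat_lit 65535))) (Nat.shiftLeft (nat_lit 1) (Nat.land (Nat.shiftRight (V (nat_lit 7)) (S (nat_lit 3))) (nat_lit 65535)))))) (Nat.add (Nat.add (Nat.shiftLeft (nat_lit 1) (Nat.land (Nat.shiftRight (V (nat_lit 7)) (S (nat_lit 12))) (nat_lit 65535))) (Nat.shiftLeft (nat_lit 1) (Nat.land (Nat.shiftRight (V (nat_lit 12)) (S (nat_lit 7))) (nat_lit 65535)))) (Nat.add (Nat.shiftLeft (nat_lit 1) (Nat.land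 (Nat.shiftRight (V (nat_lit 12)) (S (nat_lit 19))) (nat_lit 65535))) (Nat.add (Nat.shiftLeft (nat_lit 1) (Nat.land (Nat.shiftRight (V (nat_lit 13)) (S (nat_lit 19))) (nat_lit 65535))) (Nat.shiftLeft (nat_lit 1) (Nat.land (Nat.shiftRight (V (nat_lit 13)) (S (nat_lit 28))) (nat_lit 65535))))))) (Nat.add (Nat.add (Nat.add (Nat.shiftLeft (nat_lit 1) (Nat.land (Nat.shiftRight (V (nat_lit 19)) (S (nat_lit 12))) (nat_lit 65535))) (Nat.shiftLeft (nat_lit 1) (Nat.land (Nat.shiftRight (V (nat_lit 19)) (S (nat_lit 13))) (nat_lit 65535)))) (Nat.add (Nat.shiftLeft (nat_lit 1) (Nat.land (Nat.shiftRight (V (nat_lit 28)) (S (nat_lit 13))) (nat_lit 65535))) (Nat.add (Nat.shiftLeft (nat_lit 1) (Nat.land (Nat.shiftRight (V (nat_lit 28)) (S (nat_lit 53))) (nat_lit 65535))) (Nat.shiftLeft (nat_lit 1) (Nat.land (Nat.shiftRight (V (nat_lit 29)) (S (nat_lit 53))) (nat_lit 65535)))))) (Nat.add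 (Nat.add (Nat.shiftLeft (nat_lit 1) (Nat.land (Nat.shiftRight (V (nat_lit 29)) (S (nat_lit 55))) (nat_lit 65535))) (Nat.shiftLeft (nat_lit 1) (Nat.land (Nat.shiftRight (V (nat_lit 53)) (S (nat_lit 28))) (nat_lit 65535)))) (Nat.add (Nat.shiftLeft (nat_lit 1) (Nat.land (Nat.shiftRight (V (nat_lit 53)) (S (nat_lit 29))) (nat_lit 65535))) (Nat.add (Nat.shiftLeft (nat_lit 1) (Nat.land (Nat.shiftRight (V (nat_lit 55)) (S (nat_lit 5))) (nat_lit 65535))) (Nat.shiftLeft (nat_lit 1) (Nat.land (Nat.shiftRight (V (nat_lit 55)) (S (nat_lit 29))) (nat_lit 65535)))))))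
def E41_3 (V S : ℕ → ℕ) : ℕ := Nat.add (Nat.add (Nat.add (Nat.shiftLeft (nat_lit 1) (Nat.land (Nat.shiftRight (V (nat_lit 1)) (S (nat_lit 4))) (nat_lit 65535))) (Nat.shiftLeft (nat_lit 1) (Nat.land (Nat.shiftRight (V (nat_lit 1)) (S (nat_lit 40))) (nat_lit 65535)))) (Nat.add (Nat.shiftLeft (nat_lit 1) (Nat.land (Nat.shiftRight (V (nat_lit 4)) (S (nat_lit 1))) (nat_lit 65535))) (Nat.add (Nat.shiftLeft (nat_lit 1) (Nat.land (Nat.shiftRight (V (nat_lit 4)) (S (nat_lit 15))) (nat_lit 65535))) (Nat.shiftLeft (nat_lit 1) (Nat.land (Nat.shiftRight (V (nat_lit 15)) (S (nat_lit 4))) (nat_lit 65535)))))) (Nat.add (Nat.add (Nat.shiftLeft (nat_lit 1) (Nat.land (Nat.shiftRight (V (nat_lit 15)) (S (nat_lit 22))) (nat_lit 65535))) (Nat.shiftLeft (nat_lit 1) (Nat.land (Nat.shiftRight (V (nat_lit 22)) (S (nat_lit 15))) (nat_lit 65535)))) (Nat.add (Nat.shiftLeft (nat_lit 1) (Nat.land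 (Nat.shiftRight (V (nat_lit 22)) (S (nat_lit 40))) (nat_lit 65535))) (Nat.add (Nat.shiftLeft (nat_lit 1) (Nat.land (Nat.shiftRight (V (nat_lit 40)) (S (nat_lit 1))) (nat_lit 65535))) (Nat.shiftLeft (nat_lit 1) (Nat.land (Nat.shiftRight (V (nat_lit 40)) (S (nat_lit 22))) (nat_lit 65535))))))
def E42_3 (V S : ℕ → ℕ) : ℕ := Nat.add (Nat.add (Nat.add (Nat.add (Nat.add (Nat.shiftLeft (nat_lit 1) (Nat.land (Nat.shiftRight (V (nat_lit 2)) (S (nat_lit 5))) (nat_lit 65535))) (Nat.shiftLeft (nat_lit 1) (Nat.land (Nat.shiftRight (V (nat_lit 2)) (S (nat_lit 29))) (nat_lit 65535)))) (Nat.add (Nat.shiftLeft (nat_lit 1) (Nat.land (Nat.shiftRight (V (nat_lit 3)) (S (nat_lit 17))) (nat_lit 65535))) (Nat.add (Nat.shiftLeft (nat_lit 1) (Nat.land (Nat.shiftRight (V (nat_lit 3)) (S (nat_lit 31))) (nat_lit 65535))) (Nat.shiftLeft (nat_lit 1) (Nat.land (Nat.shiftRight (V (nat_lit 5)) (S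 (nat_lit 2))) (nat_lit 65535)))))) (Nat.add (Nat.add (Nat.shiftLeft (nat_lit 1) (Nat.land (Nat.shiftRight (V (nat_lit 5)) (S (nat_lit 49))) (nat_lit 65535))) (Nat.shiftLeft (nat_lit 1) (Nat.land (Nat.shiftRight (V (nat_lit 6)) (S (nat_lit 7))) (nat_lit 65535)))) (Nat.add (Nat.shiftLeft (nat_lit 1) (Nat.land (Nat.shiftRight (V (nat_lit 6)) (S (nat_lit 19))) (nat_lit 65535))) (Nat.add (Nat.shiftLeft (nat_lit 1) (Nat.land (Nat.shiftRight (V (nat_lit 7)) (S (nat_lit 6))) (nat_lit 65535))) (Nat.shiftLeft (nat_lit 1) (Nat.land (Nat.shiftRight (V (nat_lit 7)) (S (nat_lit 49))) (nat_lit 65535))))))) (Nat.add (Nat.add (Nat.add (Nat.shiftLeft (nat_lit 1) (Nat.land (Nat.shiftRight (V (nat_lit 12)) (S (nat_lit 17))) (nat_lit 65535))) (Nat.shiftLeft (nat_lit 1) (Nat.land (Nat.shiftRight (V (nat_lit 12)) (S (nat_lit 25))) (nat_lit 65535)))) (Nat.add (Nat.shiftLeft (nat_lit 1) (Nat.land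 (Nat.shiftRight (V (nat_lit 13)) (S (nat_lit 20))) (nat_lit 65535))) (Nat.add (Nat.shiftLeft (nat_lit 1) (Nat.land (Nat.shiftRight (V (nat_lit 13)) (S (nat_lit 25))) (nat_lit 65535))) (Nat.shiftLeft (nat_lit 1) (Nat.land (Nat.shiftRight (V (nat_lit 17)) (S (nat_lit 3))) (nat_lit 65535)))))) (Nat.add (Nat.add (Nat.shiftLeft (nat_lit 1) (Nat.land (Nat.shiftRight (V (nat_lit 17)) (S (nat_lit 12))) (nat_lit 65535))) (Nat.shiftLeft (nat_lit 1) (Nat.land (Nat.shiftRight (V (nat_lit 19)) (S (nat_lit 6))) (nat_lit 65535)))) (Nat.add (Nat.shiftLeft (nat_lit 1) (Nat.land (Nat.shiftRight (V (nat_lit 19)) (S (nat_lit 52))) (nat_lit 65535))) (Nat.add (Nat.shiftLeft (nat_lit 1) (Nat.land (Nat.shiftRight (V (nat_lit 20)) (S (nat_lit 13))) (nat_lit 65535))) (Nat.shiftLeft (nat_lit 1) (Nat.land (Nat.shiftRight (V (nat_lit 20)) (S (nat_lit 53))) (nat_lit 65535)))))))) (Nat.add (Nat.add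 (Nat.add (Nat.add (Nat.shiftLeft (nat_lit 1) (Nat.land (Nat.shiftRight (V (nat_lit 24)) (S (nat_lit 28))) (nat_lit 65535))) (Nat.shiftLeft (nat_lit 1) (Nat.land (Nat.shiftRight (V (nat_lit 24)) (S (nat_lit 29))) (nat_lit 65535)))) (Nat.add (Nat.shiftLeft (nat_lit 1) (Nat.land (Nat.shiftRight (V (nat_lit 25)) (S (nat_lit 12))) (nat_lit 65535))) (Nat.add (Nat.shiftLeft (nat_lit 1) (Nat.land (Nat.shiftRight (V (nat_lit 25)) (S (nat_lit 13))) (nat_lit 65535))) (Nat.shiftLeft (nat_lit 1) (Nat.land (Nat.shiftRight (V (nat_lit 28)) (S (nat_lit 24))) (nat_lit 65535)))))) (Nat.add (Nat.add (Nat.shiftLeft (nat_lit 1) (Nat.land (Nat.shiftRight (V (nat_lit 28)) (S (nat_lit 52))) (nat_lit 65535))) (Nat.shiftLeft (nat_lit 1) (Nat.land (Nat.shiftRight (V (nat_lit 29)) (S (nat_lit 2))) (nat_lit 65535)))) (Nat.add (Nat.shiftLeft (nat_lit 1) (Nat.land (Nat.shiftRight (V (nat_lit 29))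 (S (nat_lit 24))) (nat_lit 65535))) (Nat.add (Nat.shiftLeft (nat_lit 1) (Nat.land (Nat.shiftRight (V (nat_lit 31)) (S (nat_lit 3))) (nat_lit 65535))) (Nat.shiftLeft (nat_lit 1) (Nat.land (Nat.shiftRight (V (nat_lit 31)) (S (nat_lit 55))) (nat_lit 65535))))))) (Nat.add (Nat.add (Nat.add (Nat.shiftLeft (nat_lit 1) (Nat.land (Nat.shiftRight (V (nat_lit 49)) (S (nat_lit 5))) (nat_lit 65535))) (Nat.shiftLeft (nat_lit 1) (Nat.land (Nat.shiftRight (V (nat_lit 49)) (S (nat_lit 7))) (nat_lit 65535)))) (Nat.add (Nat.shiftLeft (nat_lit 1) (Nat.land (Nat.shiftRight (V (nat_lit 52)) (S (nat_lit 19))) (nat_lit 65535))) (Nat.add (Nat.shiftLeft (nat_lit 1) (Nat.land (Nat.shiftRight (V (nat_lit 52)) (S (nat_lit 28))) (nat_lit 65535))) (Nat.shiftLeft (nat_lit 1) (Nat.land (Nat.shiftRight (V (nat_lit 53)) (S (nat_lit 20))) (nat_lit 65535)))))) (Nat.add (Nat.add (Nat.shiftLeft (nat_lit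 1) (Nat.land (Nat.shiftRight (V (nat_lit 53)) (S (nat_lit 56))) (nat_lit 65535))) (Nat.shiftLeft (nat_lit 1) (Nat.land (Nat.shiftRight (V (nat_lit 55)) (S (nat_lit 31))) (nat_lit 65535)))) (Nat.add (Nat.shiftLeft (nat_lit 1) (Nat.land (Nat.shiftRight (V (nat_lit 55)) (S (nat_lit 56))) (nat_lit 65535))) (Nat.add (Nat.shiftLeft (nat_lit 1) (Nat.land (Nat.shiftRight (V (nat_lit 56)) (S (nat_lit 53))) (nat_lit 65535))) (Nat.shiftLeft (nat_lit 1) (Nat.land (Nat.shiftRight (V (nat_lit 56)) (S (nat_lit 55))) (nat_lit 65535))))))))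
def E44_3 (V S : ℕ → ℕ) : ℕ := Nat.add (Nat.add (Nat.add (Nat.add (Nat.shiftLeft (nat_lit 1) (Nat.land (Nat.shiftRight (V (nat_lit 9)) (S (nat_lit 10))) (nat_lit 65535))) (Nat.shiftLeft (nat_lit 1) (Nat.land (Nat.shiftRight (V (nat_lit 9)) (S (nat_lit 51))) (nat_lit 65535)))) (Nat.add (Nat.shiftLeft (nat_lit 1) (Nat.land (Nat.shiftRight (V (nat_lit 10)) (S (nat_lit 9))) (nat_lit 65535))) (Nat.add (Nat.shiftLeft (nat_lit 1) (Nat.land (Nat.shiftRight (V (nat_lit 10)) (S (nat_lit 37))) (nat_lit 65535))) (Nat.shiftLeft (nat_lit 1) (Nat.land (Nat.shiftRight (V (nat_lit 18)) (S (nat_lit 23))) (nat_lit 65535)))))) (Nat.add (Nat.add (Nat.shiftLeft (nat_lit 1) (Nat.land (Nat.shiftRight (V (nat_lit 18)) (S (nat_lit 42))) (nat_lit 65535))) (Nat.shiftLeft (nat_lit 1) (Nat.land (Nat.shiftRight (V (nat_lit 23)) (S (nat_lit 18))) (nat_lit 65535)))) (Nat.add (Nat.shiftLeft (nat_lit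 1) (Nat.land (Nat.shiftRight (V (nat_lit 23)) (S (nat_lit 35))) (nat_lit 65535))) (Nat.add (Nat.shiftLeft (nat_lit 1) (Nat.land (Nat.shiftRight (V (nat_lit 35)) (S (nat_lit 23))) (nat_lit 65535))) (Nat.shiftLeft (nat_lit 1) (Nat.land (Nat.shiftRight (V (nat_lit 35)) (S (nat_lit 44))) (nat_lit 65535))))))) (Nat.add (Nat.add (Nat.add (Nat.shiftLeft (nat_lit 1) (Nat.land (Nat.shiftRight (V (nat_lit 37)) (S (nat_lit 10))) (nat_lit 65535))) (Nat.shiftLeft (nat_lit 1) (Nat.land (Nat.shiftRight (V (nat_lit 37)) (S (nat_lit 39))) (nat_lit 65535)))) (Nat.add (Nat.shiftLeft (nat_lit 1) (Nat.land (Nat.shiftRight (V (nat_lit 39)) (S (nat_lit 37))) (nat_lit 65535))) (Nat.add (Nat.shiftLeft (nat_lit 1) (Nat.land (Nat.shiftRight (V (nat_lit 39)) (S (nat_lit 51))) (nat_lit 65535))) (Nat.shiftLeft (nat_lit 1) (Nat.land (Nat.shiftRight (V (nat_lit 42)) (S (nat_lit 18))) (nat_lit 65535))))))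 (Nat.add (Nat.add (Nat.shiftLeft (nat_lit 1) (Nat.land (Nat.shiftRight (V (nat_lit 42)) (S (nat_lit 44))) (nat_lit 65535))) (Nat.shiftLeft (nat_lit 1) (Nat.land (Nat.shiftRight (V (nat_lit 44)) (S (nat_lit 35))) (nat_lit 65535)))) (Nat.add (Nat.shiftLeft (nat_lit 1) (Nat.land (Nat.shiftRight (V (nat_lit 44)) (S (nat_lit 42))) (nat_lit 65535))) (Nat.add (Nat.shiftLeft (nat_lit 1) (Nat.land (Nat.shiftRight (V (nat_lit 51)) (S (nat_lit 9))) (nat_lit 65535))) (Nat.shiftLeft (nat_lit 1) (Nat.land (Nat.shiftRight (V (nat_lit 51)) (S (nat_lit 39))) (nat_lit 65535)))))))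
def E46_3 (V S : ℕ → ℕ) : ℕ := Nat.add (Nat.add (Nat.add (Nat.shiftLeft (nat_lit 1) (Nat.land (Nat.shiftRight (V (nat_lit 1)) (S (nat_lit 14))) (nat_lit 65535))) (Nat.shiftLeft (nat_lit 1) (Nat.land (Nat.shiftRight (V (nat_lit 4)) (S (nat_lit 59))) (nat_lit 65535)))) (Nat.add (Nat.shiftLeft (nat_lit 1) (Nat.land (Nat.shiftRight (V (nat_lit 11)) (S (nat_lit 22))) (nat_lit 65535))) (Nat.add (Nat.shiftLeft (nat_lit 1) (Nat.land (Nat.shiftRight (V (nat_lit 14)) (S (nat_lit 1))) (nat_lit 65535))) (Nat.shiftLeft (nat_lit 1) (Nat.land (Nat.shiftRight (V (nat_lit 15)) (S (nat_lit 27))) (nat_lit 65535)))))) (Nat.add (Nat.add (Nat.shiftLeft (nat_lit 1) (Nat.land (Nat.shiftRight (V (nat_lit 22)) (S (nat_lit 11))) (nat_lit 65535))) (Nat.shiftLeft (nat_lit 1) (Nat.land (Nat.shiftRight (V (nat_lit 27)) (S (nat_lit 15))) (nat_lit 65535)))) (Nat.add (Nat.shiftLeft (nat_lit 1) (Nat.land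 (Nat.shiftRight (V (nat_lit 40)) (S (nat_lit 43))) (nat_lit 65535))) (Nat.add (Nat.shiftLeft (nat_lit 1) (Nat.land (Nat.shiftRight (V (nat_lit 43)) (S (nat_lit 40))) (nat_lit 65535))) (Nat.shiftLeft (nat_lit 1) (Nat.land (Nat.shiftRight (V (nat_lit 59)) (S (nat_lit 4))) (nat_lit 65535))))))
def E47_3 (V S : ℕ → ℕ) : ℕ := Nat.add (Nat.add (Nat.add (Nat.add (Nat.shiftLeft (nat_lit 1) (Nat.land (Nat.shiftRight (V (nat_lit 2)) (S (nat_lit 14))) (nat_lit 65535))) (Nat.shiftLeft (nat_lit 1) (Nat.land (Nat.shiftRight (V (nat_lit 6)) (S (nat_lit 59))) (nat_lit 65535)))) (Nat.add (Nat.shiftLeft (nat_lit 1) (Nat.land (Nat.shiftRight (V (nat_lit 11)) (S (nat_lit 20))) (nat_lit 65535))) (Nat.add (Nat.shiftLeft (nat_lit 1) (Nat.land (Nat.shiftRight (V (nat_lit 11)) (S (nat_lit 49))) (nat_lit 65535))) (Nat.shiftLeft (nat_lit 1) (Nat.land (Nat.shiftRight (V (nat_lit 14)) (S (nat_lit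 2))) (nat_lit 65535)))))) (Nat.add (Nat.add (Nat.shiftLeft (nat_lit 1) (Nat.land (Nat.shiftRight (V (nat_lit 14)) (S (nat_lit 25))) (nat_lit 65535))) (Nat.shiftLeft (nat_lit 1) (Nat.land (Nat.shiftRight (V (nat_lit 17)) (S (nat_lit 27))) (nat_lit 65535)))) (Nat.add (Nat.shiftLeft (nat_lit 1) (Nat.land (Nat.shiftRight (V (nat_lit 20)) (S (nat_lit 11))) (nat_lit 65535))) (Nat.add (Nat.shiftLeft (nat_lit 1) (Nat.land (Nat.shiftRight (V (nat_lit 24)) (S (nat_lit 27))) (nat_lit 65535))) (Nat.shiftLeft (nat_lit 1) (Nat.land (Nat.shiftRight (V (nat_lit 25)) (S (nat_lit 14))) (nat_lit 65535))))))) (Nat.add (Nat.add (Nat.add (Nat.shiftLeft (nat_lit 1) (Nat.land (Nat.shiftRight (V (nat_lit 27)) (S (nat_lit 17))) (nat_lit 65535))) (Nat.shiftLeft (nat_lit 1) (Nat.land (Nat.shiftRight (V (nat_lit 27)) (S (nat_lit 24))) (nat_lit 65535)))) (Nat.add (Nat.shiftLeft (nat_lit 1) (Nat.land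 (Nat.shiftRight (V (nat_lit 31)) (S (nat_lit 43))) (nat_lit 65535))) (Nat.add (Nat.shiftLeft (nat_lit 1) (Nat.land (Nat.shiftRight (V (nat_lit 43)) (S (nat_lit 31))) (nat_lit 65535))) (Nat.shiftLeft (nat_lit 1) (Nat.land (Nat.shiftRight (V (nat_lit 43)) (S (nat_lit 52))) (nat_lit 65535)))))) (Nat.add (Nat.add (Nat.shiftLeft (nat_lit 1) (Nat.land (Nat.shiftRight (V (nat_lit 49)) (S (nat_lit 11))) (nat_lit 65535))) (Nat.shiftLeft (nat_lit 1) (Nat.land (Nat.shiftRight (V (nat_lit 52)) (S (nat_lit 43))) (nat_lit 65535)))) (Nat.add (Nat.shiftLeft (nat_lit 1) (Nat.land (Nat.shiftRight (V (nat_lit 56)) (S (nat_lit 59))) (nat_lit 65535))) (Nat.add (Nat.shiftLeft (nat_lit 1) (Nat.land (Nat.shiftRight (V (nat_lit 59)) (S (nat_lit 6))) (nat_lit 65535))) (Nat.shiftLeft (nat_lit 1) (Nat.land (Nat.shiftRight (V (nat_lit 59)) (S (nat_lit 56))) (nat_lit 65535)))))))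
def E48_3 (V S : ℕ → ℕ) : ℕ := Nat.add (Nat.add (Nat.add (Nat.add (Nat.shiftLeft (nat_lit 1) (Nat.land (Nat.shiftRight (V (nat_lit 9)) (S (nat_lit 43))) (nat_lit 65535))) (Nat.shiftLeft (nat_lit 1) (Nat.land (Nat.shiftRight (V (nat_lit 10)) (S (nat_lit 27))) (nat_lit 65535)))) (Nat.add (Nat.shiftLeft (nat_lit 1) (Nat.land (Nat.shiftRight (V (nat_lit 11)) (S (nat_lit 39))) (nat_lit 65535))) (Nat.add (Nat.shiftLeft (nat_lit 1) (Nat.land (Nat.shiftRight (V (nat_lit 11)) (S (nat_lit 42))) (nat_lit 65535))) (Nat.shiftLeft (nat_lit 1) (Nat.land (Nat.shiftRight (V (nat_lit 14)) (S (nat_lit 37))) (nat_lit 65535)))))) (Nat.add (Nat.add (Nat.shiftLeft (nat_lit 1) (Nat.land (Nat.shiftRight (V (nat_lit 14)) (S (nat_lit 44))) (nat_lit 65535))) (Nat.shiftLeft (nat_lit 1) (Nat.land (Nat.shiftRight (V (nat_lit 18)) (S (nat_lit 59))) (nat_lit 65535)))) (Nat.add (Nat.shiftLeft (nat_lit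 1) (Nat.land (Nat.shiftRight (V (nat_lit 23)) (S (nat_lit 43))) (nat_lit 65535))) (Nat.add (Nat.shiftLeft (nat_lit 1) (Nat.land (Nat.shiftRight (V (nat_lit 27)) (S (nat_lit 10))) (nat_lit 65535))) (Nat.shiftLeft (nat_lit 1) (Nat.land (Nat.shiftRight (V (nat_lit 27)) (S (nat_lit 35))) (nat_lit 65535))))))) (Nat.add (Nat.add (Nat.add (Nat.shiftLeft (nat_lit 1) (Nat.land (Nat.shiftRight (V (nat_lit 35)) (S (nat_lit 27))) (nat_lit 65535))) (Nat.shiftLeft (nat_lit 1) (Nat.land (Nat.shiftRight (V (nat_lit 37)) (S (nat_lit 14))) (nat_lit 65535)))) (Nat.add (Nat.shiftLeft (nat_lit 1) (Nat.land (Nat.shiftRight (V (nat_lit 39)) (S (nat_lit 11))) (nat_lit 65535))) (Nat.add (Nat.shiftLeft (nat_lit 1) (Nat.land (Nat.shiftRight (V (nat_lit 42)) (S (nat_lit 11))) (nat_lit 65535))) (Nat.shiftLeft (nat_lit 1) (Nat.land (Nat.shiftRight (V (nat_lit 43)) (S (nat_lit 9))) (nat_lit 65535))))))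 (Nat.add (Nat.add (Nat.shiftLeft (nat_lit 1) (Nat.land (Nat.shiftRight (V (nat_lit 43)) (S (nat_lit 23))) (nat_lit 65535))) (Nat.shiftLeft (nat_lit 1) (Nat.land (Nat.shiftRight (V (nat_lit 44)) (S (nat_lit 14))) (nat_lit 65535)))) (Nat.add (Nat.shiftLeft (nat_lit 1) (Nat.land (Nat.shiftRight (V (nat_lit 51)) (S (nat_lit 59))) (nat_lit 65535))) (Nat.add (Nat.shiftLeft (nat_lit 1) (Nat.land (Nat.shiftRight (V (nat_lit 59)) (S (nat_lit 18))) (nat_lit 65535))) (Nat.shiftLeft (nat_lit 1) (Nat.land (Nat.shiftRight (V (nat_lit 59)) (S (nat_lit 51))) (nat_lit 65535)))))))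
def E49_3 (V S : ℕ → ℕ) : ℕ := Nat.add (Nat.add (Nat.add (Nat.shiftLeft (nat_lit 1) (Nat.land (Nat.shiftRight (V (nat_lit 1)) (S (nat_lit 15))) (nat_lit 65535))) (Nat.shiftLeft (nat_lit 1) (Nat.land (Nat.shiftRight (V (nat_lit 1)) (S (nat_lit 22))) (nat_lit 65535)))) (Nat.add (Nat.shiftLeft (nat_lit 1) (Nat.land (Nat.shiftRight (V (nat_lit 4)) (S (nat_lit 22))) (nat_lit 65535))) (Nat.add (Nat.shiftLeft (nat_lit 1) (Nat.land (Nat.shiftRight (V (nat_lit 4)) (S (nat_lit 40))) (nat_lit 65535))) (Nat.shiftLeft (nat_lit 1) (Nat.land (Nat.shiftRight (V (nat_lit 15)) (S (nat_lit 1))) (nat_lit 65535)))))) (Nat.add (Nat.add (Nat.shiftLeft (nat_lit 1) (Nat.land (Nat.shiftRight (V (nat_lit 15)) (S (nat_lit 40))) (nat_lit 65535))) (Nat.shiftLeft (nat_lit 1) (Nat.land (Nat.shiftRight (V (nat_lit 22)) (S (nat_lit 1))) (nat_lit 65535)))) (Nat.add (Nat.shiftLeft (nat_lit 1) (Nat.land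 (Nat.shiftRight (V (nat_lit 22)) (S (nat_lit 4))) (nat_lit 65535))) (Nat.add (Nat.shiftLeft (nat_lit 1) (Nat.land (Nat.shiftRight (V (nat_lit 40)) (S (nat_lit 4))) (nat_lit 65535))) (Nat.shiftLeft (nat_lit 1) (Nat.land (Nat.shiftRight (V (nat_lit 40)) (S (nat_lit 15))) (nat_lit 65535))))))
def E50_3 (V S : ℕ → ℕ) : ℕ := Nat.add (Nat.add (Nat.add (Nat.add (Nat.add (Nat.shiftLeft (nat_lit 1) (Nat.land (Nat.shiftRight (V (nat_lit 1)) (S (nat_lit 17))) (nat_lit 65535))) (Nat.add (Nat.shiftLeft (nat_lit 1) (Nat.land (Nat.shiftRight (V (nat_lit 1)) (S (nat_lit 20))) (nat_lit 65535))) (Nat.shiftLeft (nat_lit 1) (Nat.land (Nat.shiftRight (V (nat_lit 1)) (S (nat_lit 24))) (nat_lit 65535))))) (Nat.add (Nat.add (Nat.shiftLeft (nat_lit 1) (Nat.land (Nat.shiftRight (V (nat_lit 1)) (S (nat_lit 49))) (nat_lit 65535))) (Nat.shiftLeft (nat_lit 1) (Nat.land (Nat.shiftRight (V (nat_lit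 2)) (S (nat_lit 15))) (nat_lit 65535)))) (Nat.add (Nat.shiftLeft (nat_lit 1) (Nat.land (Nat.shiftRight (V (nat_lit 2)) (S (nat_lit 17))) (nat_lit 65535))) (Nat.shiftLeft (nat_lit 1) (Nat.land (Nat.shiftRight (V (nat_lit 2)) (S (nat_lit 20))) (nat_lit 65535)))))) (Nat.add (Nat.add (Nat.add (Nat.shiftLeft (nat_lit 1) (Nat.land (Nat.shiftRight (V (nat_lit 2)) (S (nat_lit 22))) (nat_lit 65535))) (Nat.shiftLeft (nat_lit 1) (Nat.land (Nat.shiftRight (V (nat_lit 4)) (S (nat_lit 20))) (nat_lit 65535)))) (Nat.add (Nat.shiftLeft (nat_lit 1) (Nat.land (Nat.shiftRight (V (nat_lit 4)) (S (nat_lit 31))) (nat_lit 65535))) (Nat.shiftLeft (nat_lit 1) (Nat.land (Nat.shiftRight (V (nat_lit 4)) (S (nat_lit 49))) (nat_lit 65535))))) (Nat.add (Nat.add (Nat.shiftLeft (nat_lit 1) (Nat.land (Nat.shiftRight (V (nat_lit 4)) (S (nat_lit 52))) (nat_lit 65535))) (Nat.shiftLeft (nat_lit 1) (Nat.land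 (Nat.shiftRight (V (nat_lit 6)) (S (nat_lit 20))) (nat_lit 65535)))) (Nat.add (Nat.shiftLeft (nat_lit 1) (Nat.land (Nat.shiftRight (V (nat_lit 6)) (S (nat_lit 22))) (nat_lit 65535))) (Nat.shiftLeft (nat_lit 1) (Nat.land (Nat.shiftRight (V (nat_lit 6)) (S (nat_lit 31))) (nat_lit 65535))))))) (Nat.add (Nat.add (Nat.add (Nat.shiftLeft (nat_lit 1) (Nat.land (Nat.shiftRight (V (nat_lit 6)) (S (nat_lit 40))) (nat_lit 65535))) (Nat.add (Nat.shiftLeft (nat_lit 1) (Nat.land (Nat.shiftRight (V (nat_lit 15)) (S (nat_lit 2))) (nat_lit 65535))) (Nat.shiftLeft (nat_lit 1) (Nat.land (Nat.shiftRight (V (nat_lit 15)) (S (nat_lit 25))) (nat_lit 65535))))) (Nat.add (Nat.add (Nat.shiftLeft (nat_lit 1) (Nat.land (Nat.shiftRight (V (nat_lit 15)) (S (nat_lit 31))) (nat_lit 65535))) (Nat.shiftLeft (nat_lit 1) (Nat.land (Nat.shiftRight (V (nat_lit 15)) (S (nat_lit 52))) (nat_lit 65535))))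 (Nat.add (Nat.shiftLeft (nat_lit 1) (Nat.land (Nat.shiftRight (V (nat_lit 17)) (S (nat_lit 1))) (nat_lit 65535))) (Nat.shiftLeft (nat_lit 1) (Nat.land (Nat.shiftRight (V (nat_lit 17)) (S (nat_lit 2))) (nat_lit 65535)))))) (Nat.add (Nat.add (Nat.add (Nat.shiftLeft (nat_lit 1) (Nat.land (Nat.shiftRight (V (nat_lit 17)) (S (nat_lit 40))) (nat_lit 65535))) (Nat.shiftLeft (nat_lit 1) (Nat.land (Nat.shiftRight (V (nat_lit 17)) (S (nat_lit 52))) (nat_lit 65535)))) (Nat.add (Nat.shiftLeft (nat_lit 1) (Nat.land (Nat.shiftRight (V (nat_lit 20)) (S (nat_lit 1))) (nat_lit 65535))) (Nat.shiftLeft (nat_lit 1) (Nat.land (Nat.shiftRight (V (nat_lit 20)) (S (nat_lit 2))) (nat_lit 65535))))) (Nat.add (Nat.add (Nat.shiftLeft (nat_lit 1) (Nat.land (Nat.shiftRight (V (nat_lit 20)) (S (nat_lit 4))) (nat_lit 65535))) (Nat.shiftLeft (nat_lit 1) (Nat.land (Nat.shiftRight (V (nat_lit 20))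 (S (nat_lit 6))) (nat_lit 65535)))) (Nat.add (Nat.shiftLeft (nat_lit 1) (Nat.land (Nat.shiftRight (V (nat_lit 22)) (S (nat_lit 2))) (nat_lit 65535))) (Nat.shiftLeft (nat_lit 1) (Nat.land (Nat.shiftRight (V (nat_lit 22)) (S (nat_lit 6))) (nat_lit 65535)))))))) (Nat.add (Nat.add (Nat.add (Nat.add (Nat.shiftLeft (nat_lit 1) (Nat.land (Nat.shiftRight (V (nat_lit 22)) (S (nat_lit 25))) (nat_lit 65535))) (Nat.add (Nat.shiftLeft (nat_lit 1) (Nat.land (Nat.shiftRight (V (nat_lit 22)) (S (nat_lit 56))) (nat_lit 65535))) (Nat.shiftLeft (nat_lit 1) (Nat.land (Nat.shiftRight (V (nat_lit 24)) (S (nat_lit 1))) (nat_lit 65535))))) (Nat.add (Nat.add (Nat.shiftLeft (nat_lit 1) (Nat.land (Nat.shiftRight (V (nat_lit 24)) (S (nat_lit 25))) (nat_lit 65535))) (Nat.shiftLeft (nat_lit 1) (Nat.land (Nat.shiftRight (V (nat_lit 24)) (S (nat_lit 31))) (nat_lit 65535)))) (Nat.add (Nat.shiftLeft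 (nat_lit 1) (Nat.land (Nat.shiftRight (V (nat_lit 24)) (S (nat_lit 40))) (nat_lit 65535))) (Nat.shiftLeft (nat_lit 1) (Nat.land (Nat.shiftRight (V (nat_lit 25)) (S (nat_lit 15))) (nat_lit 65535)))))) (Nat.add (Nat.add (Nat.add (Nat.shiftLeft (nat_lit 1) (Nat.land (Nat.shiftRight (V (nat_lit 25)) (S (nat_lit 22))) (nat_lit 65535))) (Nat.shiftLeft (nat_lit 1) (Nat.land (Nat.shiftRight (V (nat_lit 25)) (S (nat_lit 24))) (nat_lit 65535)))) (Nat.add (Nat.shiftLeft (nat_lit 1) (Nat.land (Nat.shiftRight (V (nat_lit 25)) (S (nat_lit 49))) (nat_lit 65535))) (Nat.shiftLeft (nat_lit 1) (Nat.land (Nat.shiftRight (V (nat_lit 31)) (S (nat_lit 4))) (nat_lit 65535))))) (Nat.add (Nat.add (Nat.shiftLeft (nat_lit 1) (Nat.land (Nat.shiftRight (V (nat_lit 31)) (S (nat_lit 6))) (nat_lit 65535))) (Nat.shiftLeft (nat_lit 1) (Nat.land (Nat.shiftRight (V (nat_lit 31)) (S (nat_lit 15))) (nat_lit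 65535)))) (Nat.add (Nat.shiftLeft (nat_lit 1) (Nat.land (Nat.shiftRight (V (nat_lit 31)) (S (nat_lit 24))) (nat_lit 65535))) (Nat.shiftLeft (nat_lit 1) (Nat.land (Nat.shiftRight (V (nat_lit 40)) (S (nat_lit 6))) (nat_lit 65535))))))) (Nat.add (Nat.add (Nat.add (Nat.shiftLeft (nat_lit 1) (Nat.land (Nat.shiftRight (V (nat_lit 40)) (S (nat_lit 17))) (nat_lit 65535))) (Nat.add (Nat.shiftLeft (nat_lit 1) (Nat.land (Nat.shiftRight (V (nat_lit 40)) (S (nat_lit 24))) (nat_lit 65535))) (Nat.shiftLeft (nat_lit 1) (Nat.land (Nat.shiftRight (V (nat_lit 40)) (S (nat_lit 56))) (nat_lit 65535))))) (Nat.add (Nat.add (Nat.shiftLeft (nat_lit 1) (Nat.land (Nat.shiftRight (V (nat_lit 49)) (S (nat_lit 1))) (nat_lit 65535))) (Nat.shiftLeft (nat_lit 1) (Nat.land (Nat.shiftRight (V (nat_lit 49)) (S (nat_lit 4))) (nat_lit 65535)))) (Nat.add (Nat.shiftLeft (nat_lit 1) (Nat.land (Nat.shiftRight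 (V (nat_lit 49)) (S (nat_lit 25))) (nat_lit 65535))) (Nat.shiftLeft (nat_lit 1) (Nat.land (Nat.shiftRight (V (nat_lit 49)) (S (nat_lit 56))) (nat_lit 65535)))))) (Nat.add (Nat.add (Nat.add (Nat.shiftLeft (nat_lit 1) (Nat.land (Nat.shiftRight (V (nat_lit 52)) (S (nat_lit 4))) (nat_lit 65535))) (Nat.shiftLeft (nat_lit 1) (Nat.land (Nat.shiftRight (V (nat_lit 52)) (S (nat_lit 15))) (nat_lit 65535)))) (Nat.add (Nat.shiftLeft (nat_lit 1) (Nat.land (Nat.shiftRight (V (nat_lit 52)) (S (nat_lit 17))) (nat_lit 65535))) (Nat.shiftLeft (nat_lit 1) (Nat.land (Nat.shiftRight (V (nat_lit 52)) (S (nat_lit 56))) (nat_lit 65535))))) (Nat.add (Nat.add (Nat.shiftLeft (nat_lit 1) (Nat.land (Nat.shiftRight (V (nat_lit 56)) (S (nat_lit 22))) (nat_lit 65535))) (Nat.shiftLeft (nat_lit 1) (Nat.land (Nat.shiftRight (V (nat_lit 56)) (S (nat_lit 40))) (nat_lit 65535)))) (Nat.add (Nat.shiftLeft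 (nat_lit 1) (Nat.land (Nat.shiftRight (V (nat_lit 56)) (S (nat_lit 49))) (nat_lit 65535))) (Nat.shiftLeft (nat_lit 1) (Nat.land (Nat.shiftRight (V (nat_lit 56)) (S (nat_lit 52))) (nat_lit 65535))))))))
def E51_3 (V S : ℕ → ℕ) : ℕ := Nat.add (Nat.add (Nat.add (Nat.add (Nat.shiftLeft (nat_lit 1) (Nat.land (Nat.shiftRight (V (nat_lit 1)) (S (nat_lit 19))) (nat_lit 65535))) (Nat.shiftLeft (nat_lit 1) (Nat.land (Nat.shiftRight (V (nat_lit 1)) (S (nat_lit 55))) (nat_lit 65535)))) (Nat.add (Nat.shiftLeft (nat_lit 1) (Nat.land (Nat.shiftRight (V (nat_lit 3)) (S (nat_lit 22))) (nat_lit 65535))) (Nat.add (Nat.shiftLeft (nat_lit 1) (Nat.land (Nat.shiftRight (V (nat_lit 4)) (S (nat_lit 12))) (nat_lit 65535))) (Nat.shiftLeft (nat_lit 1) (Nat.land (Nat.shiftRight (V (nat_lit 4)) (S (nat_lit 29))) (nat_lit 65535)))))) (Nat.add (Nat.add (Nat.shiftLeft (nat_lit 1) (Nat.land (Nat.shiftRight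 (V (nat_lit 5)) (S (nat_lit 40))) (nat_lit 65535))) (Nat.shiftLeft (nat_lit 1) (Nat.land (Nat.shiftRight (V (nat_lit 7)) (S (nat_lit 15))) (nat_lit 65535)))) (Nat.add (Nat.shiftLeft (nat_lit 1) (Nat.land (Nat.shiftRight (V (nat_lit 12)) (S (nat_lit 4))) (nat_lit 65535))) (Nat.add (Nat.shiftLeft (nat_lit 1) (Nat.land (Nat.shiftRight (V (nat_lit 13)) (S (nat_lit 40))) (nat_lit 65535))) (Nat.shiftLeft (nat_lit 1) (Nat.land (Nat.shiftRight (V (nat_lit 15)) (S (nat_lit 7))) (nat_lit 65535))))))) (Nat.add (Nat.add (Nat.add (Nat.shiftLeft (nat_lit 1) (Nat.land (Nat.shiftRight (V (nat_lit 15)) (S (nat_lit 53))) (nat_lit 65535))) (Nat.shiftLeft (nat_lit 1) (Nat.land (Nat.shiftRight (V (nat_lit 19)) (S (nat_lit 1))) (nat_lit 65535)))) (Nat.add (Nat.shiftLeft (nat_lit 1) (Nat.land (Nat.shiftRight (V (nat_lit 22)) (S (nat_lit 3))) (nat_lit 65535))) (Nat.add (Nat.shiftLeft (nat_lit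 1) (Nat.land (Nat.shiftRight (V (nat_lit 22)) (S (nat_lit 28))) (nat_lit 65535))) (Nat.shiftLeft (nat_lit 1) (Nat.land (Nat.shiftRight (V (nat_lit 28)) (S (nat_lit 22))) (nat_lit 65535)))))) (Nat.add (Nat.add (Nat.shiftLeft (nat_lit 1) (Nat.land (Nat.shiftRight (V (nat_lit 29)) (S (nat_lit 4))) (nat_lit 65535))) (Nat.shiftLeft (nat_lit 1) (Nat.land (Nat.shiftRight (V (nat_lit 40)) (S (nat_lit 5))) (nat_lit 65535)))) (Nat.add (Nat.shiftLeft (nat_lit 1) (Nat.land (Nat.shiftRight (V (nat_lit 40)) (S (nat_lit 13))) (nat_lit 65535))) (Nat.add (Nat.shiftLeft (nat_lit 1) (Nat.land (Nat.shiftRight (V (nat_lit 53)) (S (nat_lit 15))) (nat_lit 65535))) (Nat.shiftLeft (nat_lit 1) (Nat.land (Nat.shiftRight (V (nat_lit 55)) (S (nat_lit 1))) (nat_lit 65535)))))))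
def E52_3 (V S : ℕ → ℕ) : ℕ := Nat.add (Nat.add (Nat.add (Nat.add (Nat.shiftLeft (nat_lit 1) (Nat.land (Nat.shiftRight (V (nat_lit 1)) (S (nat_lit 58))) (nat_lit 65535))) (Nat.add (Nat.shiftLeft (nat_lit 1) (Nat.land (Nat.shiftRight (V (nat_lit 3)) (S (nat_lit 34))) (nat_lit 65535))) (Nat.shiftLeft (nat_lit 1) (Nat.land (Nat.shiftRight (V (nat_lit 4)) (S (nat_lit 26))) (nat_lit 65535))))) (Nat.add (Nat.add (Nat.shiftLeft (nat_lit 1) (Nat.land (Nat.shiftRight (V (nat_lit 5)) (S (nat_lit 38))) (nat_lit 65535))) (Nat.shiftLeft (nat_lit 1) (Nat.land (Nat.shiftRight (V (nat_lit 7)) (S (nat_lit 57))) (nat_lit 65535)))) (Nat.add (Nat.shiftLeft (nat_lit 1) (Nat.land (Nat.shiftRight (V (nat_lit 12)) (S (nat_lit 26))) (nat_lit 65535))) (Nat.shiftLeft (nat_lit 1) (Nat.land (Nat.shiftRight (V (nat_lit 13)) (S (nat_lit 38))) (nat_lit 65535)))))) (Nat.add (Nat.add (Nat.add (Nat.shiftLeft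 (nat_lit 1) (Nat.land (Nat.shiftRight (V (nat_lit 15)) (S (nat_lit 57))) (nat_lit 65535))) (Nat.shiftLeft (nat_lit 1) (Nat.land (Nat.shiftRight (V (nat_lit 19)) (S (nat_lit 58))) (nat_lit 65535)))) (Nat.add (Nat.shiftLeft (nat_lit 1) (Nat.land (Nat.shiftRight (V (nat_lit 22)) (S (nat_lit 34))) (nat_lit 65535))) (Nat.shiftLeft (nat_lit 1) (Nat.land (Nat.shiftRight (V (nat_lit 26)) (S (nat_lit 4))) (nat_lit 65535))))) (Nat.add (Nat.add (Nat.shiftLeft (nat_lit 1) (Nat.land (Nat.shiftRight (V (nat_lit 26)) (S (nat_lit 12))) (nat_lit 65535))) (Nat.shiftLeft (nat_lit 1) (Nat.land (Nat.shiftRight (V (nat_lit 26)) (S (nat_lit 29))) (nat_lit 65535)))) (Nat.add (Nat.shiftLeft (nat_lit 1) (Nat.land (Nat.shiftRight (V (nat_lit 28)) (S (nat_lit 34))) (nat_lit 65535))) (Nat.shiftLeft (nat_lit 1) (Nat.land (Nat.shiftRight (V (nat_lit 29)) (S (nat_lit 26))) (nat_lit 65535)))))))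 (Nat.add (Nat.add (Nat.add (Nat.shiftLeft (nat_lit 1) (Nat.land (Nat.shiftRight (V (nat_lit 34)) (S (nat_lit 3))) (nat_lit 65535))) (Nat.add (Nat.shiftLeft (nat_lit 1) (Nat.land (Nat.shiftRight (V (nat_lit 34)) (S (nat_lit 22))) (nat_lit 65535))) (Nat.shiftLeft (nat_lit 1) (Nat.land (Nat.shiftRight (V (nat_lit 34)) (S (nat_lit 28))) (nat_lit 65535))))) (Nat.add (Nat.add (Nat.shiftLeft (nat_lit 1) (Nat.land (Nat.shiftRight (V (nat_lit 38)) (S (nat_lit 5))) (nat_lit 65535))) (Nat.shiftLeft (nat_lit 1) (Nat.land (Nat.shiftRight (V (nat_lit 38)) (S (nat_lit 13))) (nat_lit 65535)))) (Nat.add (Nat.shiftLeft (nat_lit 1) (Nat.land (Nat.shiftRight (V (nat_lit 38)) (S (nat_lit 40))) (nat_lit 65535))) (Nat.shiftLeft (nat_lit 1) (Nat.land (Nat.shiftRight (V (nat_lit 40)) (S (nat_lit 38))) (nat_lit 65535)))))) (Nat.add (Nat.add (Nat.add (Nat.shiftLeft (nat_lit 1) (Nat.land (Nat.shiftRight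 (V (nat_lit 53)) (S (nat_lit 57))) (nat_lit 65535))) (Nat.shiftLeft (nat_lit 1) (Nat.land (Nat.shiftRight (V (nat_lit 55)) (S (nat_lit 58))) (nat_lit 65535)))) (Nat.add (Nat.shiftLeft (nat_lit 1) (Nat.land (Nat.shiftRight (V (nat_lit 57)) (S (nat_lit 7))) (nat_lit 65535))) (Nat.shiftLeft (nat_lit 1) (Nat.land (Nat.shiftRight (V (nat_lit 57)) (S (nat_lit 15))) (nat_lit 65535))))) (Nat.add (Nat.add (Nat.shiftLeft (nat_lit 1) (Nat.land (Nat.shiftRight (V (nat_lit 57)) (S (nat_lit 53))) (nat_lit 65535))) (Nat.shiftLeft (nat_lit 1) (Nat.land (Nat.shiftRight (V (nat_lit 58)) (S (nat_lit 1))) (nat_lit 65535)))) (Nat.add (Nat.shiftLeft (nat_lit 1) (Nat.land (Nat.shiftRight (V (nat_lit 58)) (S (nat_lit 19))) (nat_lit 65535))) (Nat.shiftLeft (nat_lit 1) (Nat.land (Nat.shiftRight (V (nat_lit 58)) (S (nat_lit 55))) (nat_lit 65535)))))))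
def E53_3 (V S : ℕ → ℕ) : ℕ := Nat.add (Nat.add (Nat.add (Nat.add (Nat.shiftLeft (nat_lit 1) (Nat.land (Nat.shiftRight (V (nat_lit 1)) (S (nat_lit 37))) (nat_lit 65535))) (Nat.add (Nat.shiftLeft (nat_lit 1) (Nat.land (Nat.shiftRight (V (nat_lit 1)) (S (nat_lit 44))) (nat_lit 65535))) (Nat.shiftLeft (nat_lit 1) (Nat.land (Nat.shiftRight (V (nat_lit 4)) (S (nat_lit 18))) (nat_lit 65535))))) (Nat.add (Nat.add (Nat.shiftLeft (nat_lit 1) (Nat.land (Nat.shiftRight (V (nat_lit 4)) (S (nat_lit 51))) (nat_lit 65535))) (Nat.shiftLeft (nat_lit 1) (Nat.land (Nat.shiftRight (V (nat_lit 9)) (S (nat_lit 23))) (nat_lit 65535)))) (Nat.add (Nat.shiftLeft (nat_lit 1) (Nat.land (Nat.shiftRight (V (nat_lit 9)) (S (nat_lit 40))) (nat_lit 65535))) (Nat.shiftLeft (nat_lit 1) (Nat.land (Nat.shiftRight (V (nat_lit 10)) (S (nat_lit 15))) (nat_lit 65535)))))) (Nat.add (Nat.add (Nat.add (Nat.shiftLeft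 (nat_lit 1) (Nat.land (Nat.shiftRight (V (nat_lit 10)) (S (nat_lit 35))) (nat_lit 65535))) (Nat.shiftLeft (nat_lit 1) (Nat.land (Nat.shiftRight (V (nat_lit 15)) (S (nat_lit 10))) (nat_lit 65535)))) (Nat.add (Nat.shiftLeft (nat_lit 1) (Nat.land (Nat.shiftRight (V (nat_lit 15)) (S (nat_lit 35))) (nat_lit 65535))) (Nat.shiftLeft (nat_lit 1) (Nat.land (Nat.shiftRight (V (nat_lit 18)) (S (nat_lit 4))) (nat_lit 65535))))) (Nat.add (Nat.add (Nat.shiftLeft (nat_lit 1) (Nat.land (Nat.shiftRight (V (nat_lit 18)) (S (nat_lit 51))) (nat_lit 65535))) (Nat.shiftLeft (nat_lit 1) (Nat.land (Nat.shiftRight (V (nat_lit 22)) (S (nat_lit 39))) (nat_lit 65535)))) (Nat.add (Nat.shiftLeft (nat_lit 1) (Nat.land (Nat.shiftRight (V (nat_lit 22)) (S (nat_lit 42))) (nat_lit 65535))) (Nat.shiftLeft (nat_lit 1) (Nat.land (Nat.shiftRight (V (nat_lit 23)) (S (nat_lit 9))) (nat_lit 65535))))))) (Nat.add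 (Nat.add (Nat.add (Nat.shiftLeft (nat_lit 1) (Nat.land (Nat.shiftRight (V (nat_lit 23)) (S (nat_lit 40))) (nat_lit 65535))) (Nat.add (Nat.shiftLeft (nat_lit 1) (Nat.land (Nat.shiftRight (V (nat_lit 35)) (S (nat_lit 10))) (nat_lit 65535))) (Nat.shiftLeft (nat_lit 1) (Nat.land (Nat.shiftRight (V (nat_lit 35)) (S (nat_lit 15))) (nat_lit 65535))))) (Nat.add (Nat.add (Nat.shiftLeft (nat_lit 1) (Nat.land (Nat.shiftRight (V (nat_lit 37)) (S (nat_lit 1))) (nat_lit 65535))) (Nat.shiftLeft (nat_lit 1) (Nat.land (Nat.shiftRight (V (nat_lit 37)) (S (nat_lit 44))) (nat_lit 65535)))) (Nat.add (Nat.shiftLeft (nat_lit 1) (Nat.land (Nat.shiftRight (V (nat_lit 39)) (S (nat_lit 22))) (nat_lit 65535))) (Nat.shiftLeft (nat_lit 1) (Nat.land (Nat.shiftRight (V (nat_lit 39)) (S (nat_lit 42))) (nat_lit 65535)))))) (Nat.add (Nat.add (Nat.add (Nat.shiftLeft (nat_lit 1) (Nat.land (Nat.shiftRight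 (V (nat_lit 40)) (S (nat_lit 9))) (nat_lit 65535))) (Nat.shiftLeft (nat_lit 1) (Nat.land (Nat.shiftRight (V (nat_lit 40)) (S (nat_lit 23))) (nat_lit 65535)))) (Nat.add (Nat.shiftLeft (nat_lit 1) (Nat.land (Nat.shiftRight (V (nat_lit 42)) (S (nat_lit 22))) (nat_lit 65535))) (Nat.shiftLeft (nat_lit 1) (Nat.land (Nat.shiftRight (V (nat_lit 42)) (S (nat_lit 39))) (nat_lit 65535))))) (Nat.add (Nat.add (Nat.shiftLeft (nat_lit 1) (Nat.land (Nat.shiftRight (V (nat_lit 44)) (S (nat_lit 1))) (nat_lit 65535))) (Nat.shiftLeft (nat_lit 1) (Nat.land (Nat.shiftRight (V (nat_lit 44)) (S (nat_lit 37))) (nat_lit 65535)))) (Nat.add (Nat.shiftLeft (nat_lit 1) (Nat.land (Nat.shiftRight (V (nat_lit 51)) (S (nat_lit 4))) (nat_lit 65535))) (Nat.shiftLeft (nat_lit 1) (Nat.land (Nat.shiftRight (V (nat_lit 51)) (S (nat_lit 18))) (nat_lit 65535)))))))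
def E54_3 (V S : ℕ → ℕ) : ℕ := Nat.add (Nat.add (Nat.add (Nat.add (Nat.shiftLeft (nat_lit 1) (Nat.land (Nat.shiftRight (V (nat_lit 1)) (S (nat_lit 45))) (nat_lit 65535))) (Nat.add (Nat.shiftLeft (nat_lit 1) (Nat.land (Nat.shiftRight (V (nat_lit 3)) (S (nat_lit 48))) (nat_lit 65535))) (Nat.shiftLeft (nat_lit 1) (Nat.land (Nat.shiftRight (V (nat_lit 4)) (S (nat_lit 45))) (nat_lit 65535))))) (Nat.add (Nat.add (Nat.shiftLeft (nat_lit 1) (Nat.land (Nat.shiftRight (V (nat_lit 5)) (S (nat_lit 32))) (nat_lit 65535))) (Nat.shiftLeft (nat_lit 1) (Nat.land (Nat.shiftRight (V (nat_lit 7)) (S (nat_lit 32))) (nat_lit 65535)))) (Nat.add (Nat.shiftLeft (nat_lit 1) (Nat.land (Nat.shiftRight (V (nat_lit 12)) (S (nat_lit 48))) (nat_lit 65535))) (Nat.shiftLeft (nat_lit 1) (Nat.land (Nat.shiftRight (V (nat_lit 13)) (S (nat_lit 48))) (nat_lit 65535)))))) (Nat.add (Nat.add (Nat.add (Nat.shiftLeft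 (nat_lit 1) (Nat.land (Nat.shiftRight (V (nat_lit 15)) (S (nat_lit 45))) (nat_lit 65535))) (Nat.shiftLeft (nat_lit 1) (Nat.land (Nat.shiftRight (V (nat_lit 19)) (S (nat_lit 32))) (nat_lit 65535)))) (Nat.add (Nat.shiftLeft (nat_lit 1) (Nat.land (Nat.shiftRight (V (nat_lit 22)) (S (nat_lit 45))) (nat_lit 65535))) (Nat.shiftLeft (nat_lit 1) (Nat.land (Nat.shiftRight (V (nat_lit 28)) (S (nat_lit 32))) (nat_lit 65535))))) (Nat.add (Nat.add (Nat.shiftLeft (nat_lit 1) (Nat.land (Nat.shiftRight (V (nat_lit 29)) (S (nat_lit 32))) (nat_lit 65535))) (Nat.shiftLeft (nat_lit 1) (Nat.land (Nat.shiftRight (V (nat_lit 32)) (S (nat_lit 5))) (nat_lit 65535)))) (Nat.add (Nat.shiftLeft (nat_lit 1) (Nat.land (Nat.shiftRight (V (nat_lit 32)) (S (nat_lit 7))) (nat_lit 65535))) (Nat.shiftLeft (nat_lit 1) (Nat.land (Nat.shiftRight (V (nat_lit 32)) (S (nat_lit 19))) (nat_lit 65535))))))) (Nat.add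 (Nat.add (Nat.add (Nat.shiftLeft (nat_lit 1) (Nat.land (Nat.shiftRight (V (nat_lit 32)) (S (nat_lit 28))) (nat_lit 65535))) (Nat.add (Nat.shiftLeft (nat_lit 1) (Nat.land (Nat.shiftRight (V (nat_lit 32)) (S (nat_lit 29))) (nat_lit 65535))) (Nat.shiftLeft (nat_lit 1) (Nat.land (Nat.shiftRight (V (nat_lit 40)) (S (nat_lit 45))) (nat_lit 65535))))) (Nat.add (Nat.add (Nat.shiftLeft (nat_lit 1) (Nat.land (Nat.shiftRight (V (nat_lit 45)) (S (nat_lit 1))) (nat_lit 65535))) (Nat.shiftLeft (nat_lit 1) (Nat.land (Nat.shiftRight (V (nat_lit 45)) (S (nat_lit 4))) (nat_lit 65535)))) (Nat.add (Nat.shiftLeft (nat_lit 1) (Nat.land (Nat.shiftRight (V (nat_lit 45)) (S (nat_lit 15))) (nat_lit 65535))) (Nat.shiftLeft (nat_lit 1) (Nat.land (Nat.shiftRight (V (nat_lit 45)) (S (nat_lit 22))) (nat_lit 65535)))))) (Nat.add (Nat.add (Nat.add (Nat.shiftLeft (nat_lit 1) (Nat.land (Nat.shiftRight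 (V (nat_lit 45)) (S (nat_lit 40))) (nat_lit 65535))) (Nat.shiftLeft (nat_lit 1) (Nat.land (Nat.shiftRight (V (nat_lit 48)) (S (nat_lit 3))) (nat_lit 65535)))) (Nat.add (Nat.shiftLeft (nat_lit 1) (Nat.land (Nat.shiftRight (V (nat_lit 48)) (S (nat_lit 12))) (nat_lit 65535))) (Nat.shiftLeft (nat_lit 1) (Nat.land (Nat.shiftRight (V (nat_lit 48)) (S (nat_lit 13))) (nat_lit 65535))))) (Nat.add (Nat.add (Nat.shiftLeft (nat_lit 1) (Nat.land (Nat.shiftRight (V (nat_lit 48)) (S (nat_lit 53))) (nat_lit 65535))) (Nat.shiftLeft (nat_lit 1) (Nat.land (Nat.shiftRight (V (nat_lit 48)) (S (nat_lit 55))) (nat_lit 65535)))) (Nat.add (Nat.shiftLeft (nat_lit 1) (Nat.land (Nat.shiftRight (V (nat_lit 53)) (S (nat_lit 48))) (nat_lit 65535))) (Nat.shiftLeft (nat_lit 1) (Nat.land (Nat.shiftRight (V (nat_lit 55)) (S (nat_lit 48))) (nat_lit 65535)))))))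
def E55_3 (V S : ℕ → ℕ) : ℕ := Nat.add (Nat.add (Nat.add (Nat.add (Nat.add (Nat.shiftLeft (nat_lit 1) (Nat.land (Nat.shiftRight (V (nat_lit 2)) (S (nat_lit 18))) (nat_lit 65535))) (Nat.shiftLeft (nat_lit 1) (Nat.land (Nat.shiftRight (V (nat_lit 2)) (S (nat_lit 23))) (nat_lit 65535)))) (Nat.add (Nat.shiftLeft (nat_lit 1) (Nat.land (Nat.shiftRight (V (nat_lit 6)) (S (nat_lit 35))) (nat_lit 65535))) (Nat.add (Nat.shiftLeft (nat_lit 1) (Nat.land (Nat.shiftRight (V (nat_lit 6)) (S (nat_lit 44))) (nat_lit 65535))) (Nat.shiftLeft (nat_lit 1) (Nat.land (Nat.shiftRight (V (nat_lit 9)) (S (nat_lit 20))) (nat_lit 65535)))))) (Nat.add (Nat.add (Nat.shiftLeft (nat_lit 1) (Nat.land (Nat.shiftRight (V (nat_lit 9)) (S (nat_lit 25))) (nat_lit 65535))) (Nat.shiftLeft (nat_lit 1) (Nat.land (Nat.shiftRight (V (nat_lit 10)) (S (nat_lit 20))) (nat_lit 65535)))) (Nat.add (Nat.shiftLeft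 (nat_lit 1) (Nat.land (Nat.shiftRight (V (nat_lit 10)) (S (nat_lit 56))) (nat_lit 65535))) (Nat.add (Nat.shiftLeft (nat_lit 1) (Nat.land (Nat.shiftRight (V (nat_lit 17)) (S (nat_lit 39))) (nat_lit 65535))) (Nat.shiftLeft (nat_lit 1) (Nat.land (Nat.shiftRight (V (nat_lit 17)) (S (nat_lit 51))) (nat_lit 65535))))))) (Nat.add (Nat.add (Nat.add (Nat.shiftLeft (nat_lit 1) (Nat.land (Nat.shiftRight (V (nat_lit 18)) (S (nat_lit 2))) (nat_lit 65535))) (Nat.shiftLeft (nat_lit 1) (Nat.land (Nat.shiftRight (V (nat_lit 18)) (S (nat_lit 24))) (nat_lit 65535)))) (Nat.add (Nat.shiftLeft (nat_lit 1) (Nat.land (Nat.shiftRight (V (nat_lit 20)) (S (nat_lit 9))) (nat_lit 65535))) (Nat.add (Nat.shiftLeft (nat_lit 1) (Nat.land (Nat.shiftRight (V (nat_lit 20)) (S (nat_lit 10))) (nat_lit 65535))) (Nat.shiftLeft (nat_lit 1) (Nat.land (Nat.shiftRight (V (nat_lit 23)) (S (nat_lit 2))) (nat_lit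 65535)))))) (Nat.add (Nat.add (Nat.shiftLeft (nat_lit 1) (Nat.land (Nat.shiftRight (V (nat_lit 23)) (S (nat_lit 49))) (nat_lit 65535))) (Nat.shiftLeft (nat_lit 1) (Nat.land (Nat.shiftRight (V (nat_lit 24)) (S (nat_lit 18))) (nat_lit 65535)))) (Nat.add (Nat.shiftLeft (nat_lit 1) (Nat.land (Nat.shiftRight (V (nat_lit 24)) (S (nat_lit 42))) (nat_lit 65535))) (Nat.add (Nat.shiftLeft (nat_lit 1) (Nat.land (Nat.shiftRight (V (nat_lit 25)) (S (nat_lit 9))) (nat_lit 65535))) (Nat.shiftLeft (nat_lit 1) (Nat.land (Nat.shiftRight (V (nat_lit 25)) (S (nat_lit 51))) (nat_lit 65535)))))))) (Nat.add (Nat.add (Nat.add (Nat.add (Nat.shiftLeft (nat_lit 1) (Nat.land (Nat.shiftRight (V (nat_lit 31)) (S (nat_lit 37))) (nat_lit 65535))) (Nat.shiftLeft (nat_lit 1) (Nat.land (Nat.shiftRight (V (nat_lit 31)) (S (nat_lit 39))) (nat_lit 65535)))) (Nat.add (Nat.shiftLeft (nat_lit 1) (Nat.land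 (Nat.shiftRight (V (nat_lit 35)) (S (nat_lit 6))) (nat_lit 65535))) (Nat.add (Nat.shiftLeft (nat_lit 1) (Nat.land (Nat.shiftRight (V (nat_lit 35)) (S (nat_lit 49))) (nat_lit 65535))) (Nat.shiftLeft (nat_lit 1) (Nat.land (Nat.shiftRight (V (nat_lit 37)) (S (nat_lit 31))) (nat_lit 65535)))))) (Nat.add (Nat.add (Nat.shiftLeft (nat_lit 1) (Nat.land (Nat.shiftRight (V (nat_lit 37)) (S (nat_lit 56))) (nat_lit 65535))) (Nat.shiftLeft (nat_lit 1) (Nat.land (Nat.shiftRight (V (nat_lit 39)) (S (nat_lit 17))) (nat_lit 65535)))) (Nat.add (Nat.shiftLeft (nat_lit 1) (Nat.land (Nat.shiftRight (V (nat_lit 39)) (S (nat_lit 31))) (nat_lit 65535))) (Nat.add (Nat.shiftLeft (nat_lit 1) (Nat.land (Nat.shiftRight (V (nat_lit 42)) (S (nat_lit 24))) (nat_lit 65535))) (Nat.shiftLeft (nat_lit 1) (Nat.land (Nat.shiftRight (V (nat_lit 42)) (S (nat_lit 52))) (nat_lit 65535))))))) (Nat.add (Nat.add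 (Nat.add (Nat.shiftLeft (nat_lit 1) (Nat.land (Nat.shiftRight (V (nat_lit 44)) (S (nat_lit 6))) (nat_lit 65535))) (Nat.shiftLeft (nat_lit 1) (Nat.land (Nat.shiftRight (V (nat_lit 44)) (S (nat_lit 52))) (nat_lit 65535)))) (Nat.add (Nat.shiftLeft (nat_lit 1) (Nat.land (Nat.shiftRight (V (nat_lit 49)) (S (nat_lit 23))) (nat_lit 65535))) (Nat.add (Nat.shiftLeft (nat_lit 1) (Nat.land (Nat.shiftRight (V (nat_lit 49)) (S (nat_lit 35))) (nat_lit 65535))) (Nat.shiftLeft (nat_lit 1) (Nat.land (Nat.shiftRight (V (nat_lit 51)) (S (nat_lit 17))) (nat_lit 65535)))))) (Nat.add (Nat.add (Nat.shiftLeft (nat_lit 1) (Nat.land (Nat.shiftRight (V (nat_lit 51)) (S (nat_lit 25))) (nat_lit 65535))) (Nat.shiftLeft (nat_lit 1) (Nat.land (Nat.shiftRight (V (nat_lit 52)) (S (nat_lit 42))) (nat_lit 65535)))) (Nat.add (Nat.shiftLeft (nat_lit 1) (Nat.land (Nat.shiftRight (V (nat_lit 52)) (S (nat_lit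 44))) (nat_lit 65535))) (Nat.add (Nat.shiftLeft (nat_lit 1) (Nat.land (Nat.shiftRight (V (nat_lit 56)) (S (nat_lit 10))) (nat_lit 65535))) (Nat.shiftLeft (nat_lit 1) (Nat.land (Nat.shiftRight (V (nat_lit 56)) (S (nat_lit 37))) (nat_lit 65535))))))))
def E56_3 (V S : ℕ → ℕ) : ℕ := Nat.add (Nat.add (Nat.add (Nat.shiftLeft (nat_lit 1) (Nat.land (Nat.shiftRight (V (nat_lit 2)) (S (nat_lit 25))) (nat_lit 65535))) (Nat.shiftLeft (nat_lit 1) (Nat.land (Nat.shiftRight (V (nat_lit 6)) (S (nat_lit 56))) (nat_lit 65535)))) (Nat.add (Nat.shiftLeft (nat_lit 1) (Nat.land (Nat.shiftRight (V (nat_lit 17)) (S (nat_lit 24))) (nat_lit 65535))) (Nat.add (Nat.shiftLeft (nat_lit 1) (Nat.land (Nat.shiftRight (V (nat_lit 20)) (S (nat_lit 49))) (nat_lit 65535))) (Nat.shiftLeft (nat_lit 1) (Nat.land (Nat.shiftRight (V (nat_lit 24)) (S (nat_lit 17))) (nat_lit 65535)))))) (Nat.add (Nat.add (Nat.shiftLeft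 (nat_lit 1) (Nat.land (Nat.shiftRight (V (nat_lit 25)) (S (nat_lit 2))) (nat_lit 65535))) (Nat.shiftLeft (nat_lit 1) (Nat.land (Nat.shiftRight (V (nat_lit 31)) (S (nat_lit 52))) (nat_lit 65535)))) (Nat.add (Nat.shiftLeft (nat_lit 1) (Nat.land (Nat.shiftRight (V (nat_lit 49)) (S (nat_lit 20))) (nat_lit 65535))) (Nat.add (Nat.shiftLeft (nat_lit 1) (Nat.land (Nat.shiftRight (V (nat_lit 52)) (S (nat_lit 31))) (nat_lit 65535))) (Nat.shiftLeft (nat_lit 1) (Nat.land (Nat.shiftRight (V (nat_lit 56)) (S (nat_lit 6))) (nat_lit 65535))))))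
def E57_3 (V S : ℕ → ℕ) : ℕ := Nat.add (Nat.add (Nat.add (Nat.add (Nat.add (Nat.add (Nat.shiftLeft (nat_lit 1) (Nat.land (Nat.shiftRight (V (nat_lit 2)) (S (nat_lit 31))) (nat_lit 65535))) (Nat.shiftLeft (nat_lit 1) (Nat.land (Nat.shiftRight (V (nat_lit 2)) (S (nat_lit 35))) (nat_lit 65535)))) (Nat.add (Nat.shiftLeft (nat_lit 1) (Nat.land (Nat.shiftRight (V (nat_lit 2)) (S (nat_lit 42))) (nat_lit 65535))) (Nat.add (Nat.shiftLeft (nat_lit 1) (Nat.land (Nat.shiftRight (V (nat_lit 2)) (S (nat_lit 56))) (nat_lit 65535))) (Nat.shiftLeft (nat_lit 1) (Nat.land (Nat.shiftRight (V (nat_lit 6)) (S (nat_lit 17))) (nat_lit 65535)))))) (Nat.add (Nat.add (Nat.shiftLeft (nat_lit 1) (Nat.land (Nat.shiftRight (V (nat_lit 6)) (S (nat_lit 23))) (nat_lit 65535))) (Nat.shiftLeft (nat_lit 1) (Nat.land (Nat.shiftRight (V (nat_lit 6)) (S (nat_lit 25))) (nat_lit 65535)))) (Nat.add (Nat.shiftLeft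 (nat_lit 1) (Nat.land (Nat.shiftRight (V (nat_lit 6)) (S (nat_lit 42))) (nat_lit 65535))) (Nat.add (Nat.shiftLeft (nat_lit 1) (Nat.land (Nat.shiftRight (V (nat_lit 9)) (S (nat_lit 17))) (nat_lit 65535))) (Nat.shiftLeft (nat_lit 1) (Nat.land (Nat.shiftRight (V (nat_lit 9)) (S (nat_lit 42))) (nat_lit 65535))))))) (Nat.add (Nat.add (Nat.add (Nat.shiftLeft (nat_lit 1) (Nat.land (Nat.shiftRight (V (nat_lit 9)) (S (nat_lit 44))) (nat_lit 65535))) (Nat.shiftLeft (nat_lit 1) (Nat.land (Nat.shiftRight (V (nat_lit 9)) (S (nat_lit 56))) (nat_lit 65535)))) (Nat.add (Nat.shiftLeft (nat_lit 1) (Nat.land (Nat.shiftRight (V (nat_lit 10)) (S (nat_lit 18))) (nat_lit 65535))) (Nat.add (Nat.shiftLeft (nat_lit 1) (Nat.land (Nat.shiftRight (V (nat_lit 10)) (S (nat_lit 25))) (nat_lit 65535))) (Nat.shiftLeft (nat_lit 1) (Nat.land (Nat.shiftRight (V (nat_lit 10)) (S (nat_lit 31))) (nat_lit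 65535)))))) (Nat.add (Nat.add (Nat.shiftLeft (nat_lit 1) (Nat.land (Nat.shiftRight (V (nat_lit 10)) (S (nat_lit 42))) (nat_lit 65535))) (Nat.shiftLeft (nat_lit 1) (Nat.land (Nat.shiftRight (V (nat_lit 17)) (S (nat_lit 6))) (nat_lit 65535)))) (Nat.add (Nat.shiftLeft (nat_lit 1) (Nat.land (Nat.shiftRight (V (nat_lit 17)) (S (nat_lit 9))) (nat_lit 65535))) (Nat.add (Nat.shiftLeft (nat_lit 1) (Nat.land (Nat.shiftRight (V (nat_lit 17)) (S (nat_lit 37))) (nat_lit 65535))) (Nat.shiftLeft (nat_lit 1) (Nat.land (Nat.shiftRight (V (nat_lit 17)) (S (nat_lit 49))) (nat_lit 65535)))))))) (Nat.add (Nat.add (Nat.add (Nat.add (Nat.shiftLeft (nat_lit 1) (Nat.land (Nat.shiftRight (V (nat_lit 18)) (S (nat_lit 10))) (nat_lit 65535))) (Nat.shiftLeft (nat_lit 1) (Nat.land (Nat.shiftRight (V (nat_lit 18)) (S (nat_lit 37))) (nat_lit 65535)))) (Nat.add (Nat.shiftLeft (nat_lit 1) (Nat.land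 (Nat.shiftRight (V (nat_lit 18)) (S (nat_lit 49))) (nat_lit 65535))) (Nat.add (Nat.shiftLeft (nat_lit 1) (Nat.land (Nat.shiftRight (V (nat_lit 18)) (S (nat_lit 52))) (nat_lit 65535))) (Nat.shiftLeft (nat_lit 1) (Nat.land (Nat.shiftRight (V (nat_lit 20)) (S (nat_lit 24))) (nat_lit 65535)))))) (Nat.add (Nat.add (Nat.shiftLeft (nat_lit 1) (Nat.land (Nat.shiftRight (V (nat_lit 20)) (S (nat_lit 37))) (nat_lit 65535))) (Nat.shiftLeft (nat_lit 1) (Nat.land (Nat.shiftRight (V (nat_lit 20)) (S (nat_lit 51))) (nat_lit 65535)))) (Nat.add (Nat.shiftLeft (nat_lit 1) (Nat.land (Nat.shiftRight (V (nat_lit 20)) (S (nat_lit 52))) (nat_lit 65535))) (Nat.add (Nat.shiftLeft (nat_lit 1) (Nat.land (Nat.shiftRight (V (nat_lit 23)) (S (nat_lit 6))) (nat_lit 65535))) (Nat.shiftLeft (nat_lit 1) (Nat.land (Nat.shiftRight (V (nat_lit 23)) (S (nat_lit 24))) (nat_lit 65535))))))) (Nat.add (Nat.add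 (Nat.add (Nat.shiftLeft (nat_lit 1) (Nat.land (Nat.shiftRight (V (nat_lit 23)) (S (nat_lit 37))) (nat_lit 65535))) (Nat.shiftLeft (nat_lit 1) (Nat.land (Nat.shiftRight (V (nat_lit 23)) (S (nat_lit 39))) (nat_lit 65535)))) (Nat.add (Nat.shiftLeft (nat_lit 1) (Nat.land (Nat.shiftRight (V (nat_lit 24)) (S (nat_lit 20))) (nat_lit 65535))) (Nat.add (Nat.shiftLeft (nat_lit 1) (Nat.land (Nat.shiftRight (V (nat_lit 24)) (S (nat_lit 23))) (nat_lit 65535))) (Nat.shiftLeft (nat_lit 1) (Nat.land (Nat.shiftRight (V (nat_lit 24)) (S (nat_lit 44))) (nat_lit 65535)))))) (Nat.add (Nat.add (Nat.shiftLeft (nat_lit 1) (Nat.land (Nat.shiftRight (V (nat_lit 24)) (S (nat_lit 56))) (nat_lit 65535))) (Nat.shiftLeft (nat_lit 1) (Nat.land (Nat.shiftRight (V (nat_lit 25)) (S (nat_lit 6))) (nat_lit 65535)))) (Nat.add (Nat.shiftLeft (nat_lit 1) (Nat.land (Nat.shiftRight (V (nat_lit 25)) (S (nat_lit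 10))) (nat_lit 65535))) (Nat.add (Nat.shiftLeft (nat_lit 1) (Nat.land (Nat.shiftRight (V (nat_lit 25)) (S (nat_lit 39))) (nat_lit 65535))) (Nat.shiftLeft (nat_lit 1) (Nat.land (Nat.shiftRight (V (nat_lit 25)) (S (nat_lit 52))) (nat_lit 65535))))))))) (Nat.add (Nat.add (Nat.add (Nat.add (Nat.add (Nat.shiftLeft (nat_lit 1) (Nat.land (Nat.shiftRight (V (nat_lit 31)) (S (nat_lit 2))) (nat_lit 65535))) (Nat.shiftLeft (nat_lit 1) (Nat.land (Nat.shiftRight (V (nat_lit 31)) (S (nat_lit 10))) (nat_lit 65535)))) (Nat.add (Nat.shiftLeft (nat_lit 1) (Nat.land (Nat.shiftRight (V (nat_lit 31)) (S (nat_lit 49))) (nat_lit 65535))) (Nat.add (Nat.shiftLeft (nat_lit 1) (Nat.land (Nat.shiftRight (V (nat_lit 31)) (S (nat_lit 51))) (nat_lit 65535))) (Nat.shiftLeft (nat_lit 1) (Nat.land (Nat.shiftRight (V (nat_lit 35)) (S (nat_lit 2))) (nat_lit 65535)))))) (Nat.add (Nat.add (Nat.shiftLeft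 (nat_lit 1) (Nat.land (Nat.shiftRight (V (nat_lit 35)) (S (nat_lit 39))) (nat_lit 65535))) (Nat.shiftLeft (nat_lit 1) (Nat.land (Nat.shiftRight (V (nat_lit 35)) (S (nat_lit 51))) (nat_lit 65535)))) (Nat.add (Nat.shiftLeft (nat_lit 1) (Nat.land (Nat.shiftRight (V (nat_lit 35)) (S (nat_lit 52))) (nat_lit 65535))) (Nat.add (Nat.shiftLeft (nat_lit 1) (Nat.land (Nat.shiftRight (V (nat_lit 37)) (S (nat_lit 17))) (nat_lit 65535))) (Nat.shiftLeft (nat_lit 1) (Nat.land (Nat.shiftRight (V (nat_lit 37)) (S (nat_lit 18))) (nat_lit 65535))))))) (Nat.add (Nat.add (Nat.add (Nat.shiftLeft (nat_lit 1) (Nat.land (Nat.shiftRight (V (nat_lit 37)) (S (nat_lit 20))) (nat_lit 65535))) (Nat.shiftLeft (nat_lit 1) (Nat.land (Nat.shiftRight (V (nat_lit 37)) (S (nat_lit 23))) (nat_lit 65535)))) (Nat.add (Nat.shiftLeft (nat_lit 1) (Nat.land (Nat.shiftRight (V (nat_lit 39)) (S (nat_lit 23))) (nat_lit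 65535))) (Nat.add (Nat.shiftLeft (nat_lit 1) (Nat.land (Nat.shiftRight (V (nat_lit 39)) (S (nat_lit 25))) (nat_lit 65535))) (Nat.shiftLeft (nat_lit 1) (Nat.land (Nat.shiftRight (V (nat_lit 39)) (S (nat_lit 35))) (nat_lit 65535)))))) (Nat.add (Nat.add (Nat.shiftLeft (nat_lit 1) (Nat.land (Nat.shiftRight (V (nat_lit 39)) (S (nat_lit 56))) (nat_lit 65535))) (Nat.shiftLeft (nat_lit 1) (Nat.land (Nat.shiftRight (V (nat_lit 42)) (S (nat_lit 2))) (nat_lit 65535)))) (Nat.add (Nat.shiftLeft (nat_lit 1) (Nat.land (Nat.shiftRight (V (nat_lit 42)) (S (nat_lit 6))) (nat_lit 65535))) (Nat.add (Nat.shiftLeft (nat_lit 1) (Nat.land (Nat.shiftRight (V (nat_lit 42)) (S (nat_lit 9))) (nat_lit 65535))) (Nat.shiftLeft (nat_lit 1) (Nat.land (Nat.shiftRight (V (nat_lit 42)) (S (nat_lit 10))) (nat_lit 65535)))))))) (Nat.add (Nat.add (Nat.add (Nat.add (Nat.shiftLeft (nat_lit 1) (Nat.land (Nat.shiftRight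 (V (nat_lit 44)) (S (nat_lit 9))) (nat_lit 65535))) (Nat.shiftLeft (nat_lit 1) (Nat.land (Nat.shiftRight (V (nat_lit 44)) (S (nat_lit 24))) (nat_lit 65535)))) (Nat.add (Nat.shiftLeft (nat_lit 1) (Nat.land (Nat.shiftRight (V (nat_lit 44)) (S (nat_lit 49))) (nat_lit 65535))) (Nat.add (Nat.shiftLeft (nat_lit 1) (Nat.land (Nat.shiftRight (V (nat_lit 44)) (S (nat_lit 51))) (nat_lit 65535))) (Nat.shiftLeft (nat_lit 1) (Nat.land (Nat.shiftRight (V (nat_lit 49)) (S (nat_lit 17))) (nat_lit 65535)))))) (Nat.add (Nat.add (Nat.shiftLeft (nat_lit 1) (Nat.land (Nat.shiftRight (V (nat_lit 49)) (S (nat_lit 18))) (nat_lit 65535))) (Nat.shiftLeft (nat_lit 1) (Nat.land (Nat.shiftRight (V (nat_lit 49)) (S (nat_lit 31))) (nat_lit 65535)))) (Nat.add (Nat.shiftLeft (nat_lit 1) (Nat.land (Nat.shiftRight (V (nat_lit 49)) (S (nat_lit 44))) (nat_lit 65535))) (Nat.add (Nat.shiftLeft (nat_lit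 1) (Nat.land (Nat.shiftRight (V (nat_lit 51)) (S (nat_lit 20))) (nat_lit 65535))) (Nat.shiftLeft (nat_lit 1) (Nat.land (Nat.shiftRight (V (nat_lit 51)) (S (nat_lit 31))) (nat_lit 65535))))))) (Nat.add (Nat.add (Nat.add (Nat.shiftLeft (nat_lit 1) (Nat.land (Nat.shiftRight (V (nat_lit 51)) (S (nat_lit 35))) (nat_lit 65535))) (Nat.shiftLeft (nat_lit 1) (Nat.land (Nat.shiftRight (V (nat_lit 51)) (S (nat_lit 44))) (nat_lit 65535)))) (Nat.add (Nat.shiftLeft (nat_lit 1) (Nat.land (Nat.shiftRight (V (nat_lit 52)) (S (nat_lit 18))) (nat_lit 65535))) (Nat.add (Nat.shiftLeft (nat_lit 1) (Nat.land (Nat.shiftRight (V (nat_lit 52)) (S (nat_lit 20))) (nat_lit 65535))) (Nat.shiftLeft (nat_lit 1) (Nat.land (Nat.shiftRight (V (nat_lit 52)) (S (nat_lit 25))) (nat_lit 65535)))))) (Nat.add (Nat.add (Nat.shiftLeft (nat_lit 1) (Nat.land (Nat.shiftRight (V (nat_lit 52)) (S (nat_lit 35)))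 (nat_lit 65535))) (Nat.shiftLeft (nat_lit 1) (Nat.land (Nat.shiftRight (V (nat_lit 56)) (S (nat_lit 2))) (nat_lit 65535)))) (Nat.add (Nat.shiftLeft (nat_lit 1) (Nat.land (Nat.shiftRight (V (nat_lit 56)) (S (nat_lit 9))) (nat_lit 65535))) (Nat.add (Nat.shiftLeft (nat_lit 1) (Nat.land (Nat.shiftRight (V (nat_lit 56)) (S (nat_lit 24))) (nat_lit 65535))) (Nat.shiftLeft (nat_lit 1) (Nat.land (Nat.shiftRight (V (nat_lit 56)) (S (nat_lit 39))) (nat_lit 65535)))))))))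
def E58_3 (V S : ℕ → ℕ) : ℕ := Nat.add (Nat.add (Nat.add (Nat.add (Nat.add (Nat.shiftLeft (nat_lit 1) (Nat.land (Nat.shiftRight (V (nat_lit 2)) (S (nat_lit 36))) (nat_lit 65535))) (Nat.shiftLeft (nat_lit 1) (Nat.land (Nat.shiftRight (V (nat_lit 2)) (S (nat_lit 50))) (nat_lit 65535)))) (Nat.add (Nat.shiftLeft (nat_lit 1) (Nat.land (Nat.shiftRight (V (nat_lit 6)) (S (nat_lit 50))) (nat_lit 65535))) (Nat.add (Nat.shiftLeft (nat_lit 1) (Nat.land (Nat.shiftRight (V (nat_lit 6)) (S (nat_lit 54))) (nat_lit 65535))) (Nat.shiftLeft (nat_lit 1) (Nat.land (Nat.shiftRight (V (nat_lit 8)) (S (nat_lit 25))) (nat_lit 65535)))))) (Nat.add (Nat.add (Nat.shiftLeft (nat_lit 1) (Nat.land (Nat.shiftRight (V (nat_lit 8)) (S (nat_lit 56))) (nat_lit 65535))) (Nat.shiftLeft (nat_lit 1) (Nat.land (Nat.shiftRight (V (nat_lit 17)) (S (nat_lit 30))) (nat_lit 65535)))) (Nat.add (Nat.shiftLeft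 (nat_lit 1) (Nat.land (Nat.shiftRight (V (nat_lit 17)) (S (nat_lit 33))) (nat_lit 65535))) (Nat.add (Nat.shiftLeft (nat_lit 1) (Nat.land (Nat.shiftRight (V (nat_lit 20)) (S (nat_lit 33))) (nat_lit 65535))) (Nat.shiftLeft (nat_lit 1) (Nat.land (Nat.shiftRight (V (nat_lit 20)) (S (nat_lit 47))) (nat_lit 65535))))))) (Nat.add (Nat.add (Nat.add (Nat.shiftLeft (nat_lit 1) (Nat.land (Nat.shiftRight (V (nat_lit 21)) (S (nat_lit 24))) (nat_lit 65535))) (Nat.shiftLeft (nat_lit 1) (Nat.land (Nat.shiftRight (V (nat_lit 21)) (S (nat_lit 49))) (nat_lit 65535)))) (Nat.add (Nat.shiftLeft (nat_lit 1) (Nat.land (Nat.shiftRight (V (nat_lit 24)) (S (nat_lit 21))) (nat_lit 65535))) (Nat.add (Nat.shiftLeft (nat_lit 1) (Nat.land (Nat.shiftRight (V (nat_lit 24)) (S (nat_lit 54))) (nat_lit 65535))) (Nat.shiftLeft (nat_lit 1) (Nat.land (Nat.shiftRight (V (nat_lit 25)) (S (nat_lit 8))) (nat_lit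 65535)))))) (Nat.add (Nat.add (Nat.shiftLeft (nat_lit 1) (Nat.land (Nat.shiftRight (V (nat_lit 25)) (S (nat_lit 41))) (nat_lit 65535))) (Nat.shiftLeft (nat_lit 1) (Nat.land (Nat.shiftRight (V (nat_lit 30)) (S (nat_lit 17))) (nat_lit 65535)))) (Nat.add (Nat.shiftLeft (nat_lit 1) (Nat.land (Nat.shiftRight (V (nat_lit 30)) (S (nat_lit 56))) (nat_lit 65535))) (Nat.add (Nat.shiftLeft (nat_lit 1) (Nat.land (Nat.shiftRight (V (nat_lit 31)) (S (nat_lit 41))) (nat_lit 65535))) (Nat.shiftLeft (nat_lit 1) (Nat.land (Nat.shiftRight (V (nat_lit 31)) (S (nat_lit 47))) (nat_lit 65535)))))))) (Nat.add (Nat.add (Nat.add (Nat.add (Nat.shiftLeft (nat_lit 1) (Nat.land (Nat.shiftRight (V (nat_lit 33)) (S (nat_lit 17))) (nat_lit 65535))) (Nat.shiftLeft (nat_lit 1) (Nat.land (Nat.shiftRight (V (nat_lit 33)) (S (nat_lit 20))) (nat_lit 65535)))) (Nat.add (Nat.shiftLeft (nat_lit 1) (Nat.land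 (Nat.shiftRight (V (nat_lit 36)) (S (nat_lit 2))) (nat_lit 65535))) (Nat.add (Nat.shiftLeft (nat_lit 1) (Nat.land (Nat.shiftRight (V (nat_lit 36)) (S (nat_lit 52))) (nat_lit 65535))) (Nat.shiftLeft (nat_lit 1) (Nat.land (Nat.shiftRight (V (nat_lit 41)) (S (nat_lit 25))) (nat_lit 65535)))))) (Nat.add (Nat.add (Nat.shiftLeft (nat_lit 1) (Nat.land (Nat.shiftRight (V (nat_lit 41)) (S (nat_lit 31))) (nat_lit 65535))) (Nat.shiftLeft (nat_lit 1) (Nat.land (Nat.shiftRight (V (nat_lit 46)) (S (nat_lit 49))) (nat_lit 65535)))) (Nat.add (Nat.shiftLeft (nat_lit 1) (Nat.land (Nat.shiftRight (V (nat_lit 46)) (S (nat_lit 52))) (nat_lit 65535))) (Nat.add (Nat.shiftLeft (nat_lit 1) (Nat.land (Nat.shiftRight (V (nat_lit 47)) (S (nat_lit 20))) (nat_lit 65535))) (Nat.shiftLeft (nat_lit 1) (Nat.land (Nat.shiftRight (V (nat_lit 47)) (S (nat_lit 31))) (nat_lit 65535))))))) (Nat.add (Nat.add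 (Nat.add (Nat.shiftLeft (nat_lit 1) (Nat.land (Nat.shiftRight (V (nat_lit 49)) (S (nat_lit 21))) (nat_lit 65535))) (Nat.shiftLeft (nat_lit 1) (Nat.land (Nat.shiftRight (V (nat_lit 49)) (S (nat_lit 46))) (nat_lit 65535)))) (Nat.add (Nat.shiftLeft (nat_lit 1) (Nat.land (Nat.shiftRight (V (nat_lit 50)) (S (nat_lit 2))) (nat_lit 65535))) (Nat.add (Nat.shiftLeft (nat_lit 1) (Nat.land (Nat.shiftRight (V (nat_lit 50)) (S (nat_lit 6))) (nat_lit 65535))) (Nat.shiftLeft (nat_lit 1) (Nat.land (Nat.shiftRight (V (nat_lit 52)) (S (nat_lit 36))) (nat_lit 65535)))))) (Nat.add (Nat.add (Nat.shiftLeft (nat_lit 1) (Nat.land (Nat.shiftRight (V (nat_lit 52)) (S (nat_lit 46))) (nat_lit 65535))) (Nat.shiftLeft (nat_lit 1) (Nat.land (Nat.shiftRight (V (nat_lit 54)) (S (nat_lit 6))) (nat_lit 65535)))) (Nat.add (Nat.shiftLeft (nat_lit 1) (Nat.land (Nat.shiftRight (V (nat_lit 54)) (S (nat_lit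 24))) (nat_lit 65535))) (Nat.add (Nat.shiftLeft (nat_lit 1) (Nat.land (Nat.shiftRight (V (nat_lit 56)) (S (nat_lit 8))) (nat_lit 65535))) (Nat.shiftLeft (nat_lit 1) (Nat.land (Nat.shiftRight (V (nat_lit 56)) (S (nat_lit 30))) (nat_lit 65535))))))))
def E59_3 (V S : ℕ → ℕ) : ℕ := Nat.add (Nat.add (Nat.add (Nat.add (Nat.shiftLeft (nat_lit 1) (Nat.land (Nat.shiftRight (V (nat_lit 3)) (S (nat_lit 19))) (nat_lit 65535))) (Nat.shiftLeft (nat_lit 1) (Nat.land (Nat.shiftRight (V (nat_lit 3)) (S (nat_lit 29))) (nat_lit 65535)))) (Nat.add (Nat.shiftLeft (nat_lit 1) (Nat.land (Nat.shiftRight (V (nat_lit 5)) (S (nat_lit 12))) (nat_lit 65535))) (Nat.add (Nat.shiftLeft (nat_lit 1) (Nat.land (Nat.shiftRight (V (nat_lit 5)) (S (nat_lit 53))) (nat_lit 65535))) (Nat.shiftLeft (nat_lit 1) (Nat.land (Nat.shiftRight (V (nat_lit 7)) (S (nat_lit 13))) (nat_lit 65535)))))) (Nat.add (Nat.add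 (Nat.shiftLeft (nat_lit 1) (Nat.land (Nat.shiftRight (V (nat_lit 7)) (S (nat_lit 55))) (nat_lit 65535))) (Nat.shiftLeft (nat_lit 1) (Nat.land (Nat.shiftRight (V (nat_lit 12)) (S (nat_lit 5))) (nat_lit 65535)))) (Nat.add (Nat.shiftLeft (nat_lit 1) (Nat.land (Nat.shiftRight (V (nat_lit 12)) (S (nat_lit 28))) (nat_lit 65535))) (Nat.add (Nat.shiftLeft (nat_lit 1) (Nat.land (Nat.shiftRight (V (nat_lit 13)) (S (nat_lit 7))) (nat_lit 65535))) (Nat.shiftLeft (nat_lit 1) (Nat.land (Nat.shiftRight (V (nat_lit 13)) (S (nat_lit 29))) (nat_lit 65535))))))) (Nat.add (Nat.add (Nat.add (Nat.shiftLeft (nat_lit 1) (Nat.land (Nat.shiftRight (V (nat_lit 19)) (S (nat_lit 3))) (nat_lit 65535))) (Nat.shiftLeft (nat_lit 1) (Nat.land (Nat.shiftRight (V (nat_lit 19)) (S (nat_lit 53))) (nat_lit 65535)))) (Nat.add (Nat.shiftLeft (nat_lit 1) (Nat.land (Nat.shiftRight (V (nat_lit 28)) (S (nat_lit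 12))) (nat_lit 65535))) (Nat.add (Nat.shiftLeft (nat_lit 1) (Nat.land (Nat.shiftRight (V (nat_lit 28)) (S (nat_lit 55))) (nat_lit 65535))) (Nat.shiftLeft (nat_lit 1) (Nat.land (Nat.shiftRight (V (nat_lit 29)) (S (nat_lit 3))) (nat_lit 65535)))))) (Nat.add (Nat.add (Nat.shiftLeft (nat_lit 1) (Nat.land (Nat.shiftRight (V (nat_lit 29)) (S (nat_lit 13))) (nat_lit 65535))) (Nat.shiftLeft (nat_lit 1) (Nat.land (Nat.shiftRight (V (nat_lit 53)) (S (nat_lit 5))) (nat_lit 65535)))) (Nat.add (Nat.shiftLeft (nat_lit 1) (Nat.land (Nat.shiftRight (V (nat_lit 53)) (S (nat_lit 19))) (nat_lit 65535))) (Nat.add (Nat.shiftLeft (nat_lit 1) (Nat.land (Nat.shiftRight (V (nat_lit 55)) (S (nat_lit 7))) (nat_lit 65535))) (Nat.shiftLeft (nat_lit 1) (Nat.land (Nat.shiftRight (V (nat_lit 55)) (S (nat_lit 28))) (nat_lit 65535)))))))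
def E60_3 (V S : ℕ → ℕ) : ℕ := Nat.add (Nat.add (Nat.add (Nat.add (Nat.add (Nat.shiftLeft (nat_lit 1) (Nat.land (Nat.shiftRight (V (nat_lit 3)) (S (nat_lit 37))) (nat_lit 65535))) (Nat.add (Nat.shiftLeft (nat_lit 1) (Nat.land (Nat.shiftRight (V (nat_lit 3)) (S (nat_lit 51))) (nat_lit 65535))) (Nat.shiftLeft (nat_lit 1) (Nat.land (Nat.shiftRight (V (nat_lit 5)) (S (nat_lit 18))) (nat_lit 65535))))) (Nat.add (Nat.add (Nat.shiftLeft (nat_lit 1) (Nat.land (Nat.shiftRight (V (nat_lit 5)) (S (nat_lit 35))) (nat_lit 65535))) (Nat.shiftLeft (nat_lit 1) (Nat.land (Nat.shiftRight (V (nat_lit 7)) (S (nat_lit 23))) (nat_lit 65535)))) (Nat.add (Nat.shiftLeft (nat_lit 1) (Nat.land (Nat.shiftRight (V (nat_lit 7)) (S (nat_lit 44))) (nat_lit 65535))) (Nat.shiftLeft (nat_lit 1) (Nat.land (Nat.shiftRight (V (nat_lit 9)) (S (nat_lit 12))) (nat_lit 65535)))))) (Nat.add (Nat.add (Nat.add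 (Nat.shiftLeft (nat_lit 1) (Nat.land (Nat.shiftRight (V (nat_lit 9)) (S (nat_lit 18))) (nat_lit 65535))) (Nat.shiftLeft (nat_lit 1) (Nat.land (Nat.shiftRight (V (nat_lit 9)) (S (nat_lit 35))) (nat_lit 65535)))) (Nat.add (Nat.shiftLeft (nat_lit 1) (Nat.land (Nat.shiftRight (V (nat_lit 9)) (S (nat_lit 53))) (nat_lit 65535))) (Nat.shiftLeft (nat_lit 1) (Nat.land (Nat.shiftRight (V (nat_lit 10)) (S (nat_lit 13))) (nat_lit 65535))))) (Nat.add (Nat.add (Nat.shiftLeft (nat_lit 1) (Nat.land (Nat.shiftRight (V (nat_lit 10)) (S (nat_lit 23))) (nat_lit 65535))) (Nat.shiftLeft (nat_lit 1) (Nat.land (Nat.shiftRight (V (nat_lit 10)) (S (nat_lit 44))) (nat_lit 65535)))) (Nat.add (Nat.shiftLeft (nat_lit 1) (Nat.land (Nat.shiftRight (V (nat_lit 10)) (S (nat_lit 55))) (nat_lit 65535))) (Nat.shiftLeft (nat_lit 1) (Nat.land (Nat.shiftRight (V (nat_lit 12)) (S (nat_lit 9))) (nat_lit 65535)))))))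 (Nat.add (Nat.add (Nat.add (Nat.shiftLeft (nat_lit 1) (Nat.land (Nat.shiftRight (V (nat_lit 12)) (S (nat_lit 39))) (nat_lit 65535))) (Nat.add (Nat.shiftLeft (nat_lit 1) (Nat.land (Nat.shiftRight (V (nat_lit 13)) (S (nat_lit 10))) (nat_lit 65535))) (Nat.shiftLeft (nat_lit 1) (Nat.land (Nat.shiftRight (V (nat_lit 13)) (S (nat_lit 51))) (nat_lit 65535))))) (Nat.add (Nat.add (Nat.shiftLeft (nat_lit 1) (Nat.land (Nat.shiftRight (V (nat_lit 18)) (S (nat_lit 5))) (nat_lit 65535))) (Nat.shiftLeft (nat_lit 1) (Nat.land (Nat.shiftRight (V (nat_lit 18)) (S (nat_lit 9))) (nat_lit 65535)))) (Nat.add (Nat.shiftLeft (nat_lit 1) (Nat.land (Nat.shiftRight (V (nat_lit 18)) (S (nat_lit 28))) (nat_lit 65535))) (Nat.shiftLeft (nat_lit 1) (Nat.land (Nat.shiftRight (V (nat_lit 18)) (S (nat_lit 39))) (nat_lit 65535)))))) (Nat.add (Nat.add (Nat.add (Nat.shiftLeft (nat_lit 1) (Nat.land (Nat.shiftRight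 (V (nat_lit 19)) (S (nat_lit 35))) (nat_lit 65535))) (Nat.shiftLeft (nat_lit 1) (Nat.land (Nat.shiftRight (V (nat_lit 19)) (S (nat_lit 42))) (nat_lit 65535)))) (Nat.add (Nat.shiftLeft (nat_lit 1) (Nat.land (Nat.shiftRight (V (nat_lit 23)) (S (nat_lit 7))) (nat_lit 65535))) (Nat.shiftLeft (nat_lit 1) (Nat.land (Nat.shiftRight (V (nat_lit 23)) (S (nat_lit 10))) (nat_lit 65535))))) (Nat.add (Nat.add (Nat.shiftLeft (nat_lit 1) (Nat.land (Nat.shiftRight (V (nat_lit 23)) (S (nat_lit 29))) (nat_lit 65535))) (Nat.shiftLeft (nat_lit 1) (Nat.land (Nat.shiftRight (V (nat_lit 23)) (S (nat_lit 51))) (nat_lit 65535)))) (Nat.add (Nat.shiftLeft (nat_lit 1) (Nat.land (Nat.shiftRight (V (nat_lit 28)) (S (nat_lit 18))) (nat_lit 65535))) (Nat.shiftLeft (nat_lit 1) (Nat.land (Nat.shiftRight (V (nat_lit 28)) (S (nat_lit 44))) (nat_lit 65535)))))))) (Nat.add (Nat.add (Nat.add (Nat.add (Nat.shiftLeft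 (nat_lit 1) (Nat.land (Nat.shiftRight (V (nat_lit 29)) (S (nat_lit 23))) (nat_lit 65535))) (Nat.add (Nat.shiftLeft (nat_lit 1) (Nat.land (Nat.shiftRight (V (nat_lit 29)) (S (nat_lit 42))) (nat_lit 65535))) (Nat.shiftLeft (nat_lit 1) (Nat.land (Nat.shiftRight (V (nat_lit 35)) (S (nat_lit 5))) (nat_lit 65535))))) (Nat.add (Nat.add (Nat.shiftLeft (nat_lit 1) (Nat.land (Nat.shiftRight (V (nat_lit 35)) (S (nat_lit 9))) (nat_lit 65535))) (Nat.shiftLeft (nat_lit 1) (Nat.land (Nat.shiftRight (V (nat_lit 35)) (S (nat_lit 19))) (nat_lit 65535)))) (Nat.add (Nat.shiftLeft (nat_lit 1) (Nat.land (Nat.shiftRight (V (nat_lit 35)) (S (nat_lit 37))) (nat_lit 65535))) (Nat.shiftLeft (nat_lit 1) (Nat.land (Nat.shiftRight (V (nat_lit 37)) (S (nat_lit 3))) (nat_lit 65535)))))) (Nat.add (Nat.add (Nat.add (Nat.shiftLeft (nat_lit 1) (Nat.land (Nat.shiftRight (V (nat_lit 37)) (S (nat_lit 35)))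 (nat_lit 65535))) (Nat.shiftLeft (nat_lit 1) (Nat.land (Nat.shiftRight (V (nat_lit 37)) (S (nat_lit 42))) (nat_lit 65535)))) (Nat.add (Nat.shiftLeft (nat_lit 1) (Nat.land (Nat.shiftRight (V (nat_lit 37)) (S (nat_lit 53))) (nat_lit 65535))) (Nat.shiftLeft (nat_lit 1) (Nat.land (Nat.shiftRight (V (nat_lit 39)) (S (nat_lit 12))) (nat_lit 65535))))) (Nat.add (Nat.add (Nat.shiftLeft (nat_lit 1) (Nat.land (Nat.shiftRight (V (nat_lit 39)) (S (nat_lit 18))) (nat_lit 65535))) (Nat.shiftLeft (nat_lit 1) (Nat.land (Nat.shiftRight (V (nat_lit 39)) (S (nat_lit 44))) (nat_lit 65535)))) (Nat.add (Nat.shiftLeft (nat_lit 1) (Nat.land (Nat.shiftRight (V (nat_lit 39)) (S (nat_lit 55))) (nat_lit 65535))) (Nat.shiftLeft (nat_lit 1) (Nat.land (Nat.shiftRight (V (nat_lit 42)) (S (nat_lit 19))) (nat_lit 65535))))))) (Nat.add (Nat.add (Nat.add (Nat.shiftLeft (nat_lit 1) (Nat.land (Nat.shiftRight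 (V (nat_lit 42)) (S (nat_lit 29))) (nat_lit 65535))) (Nat.add (Nat.shiftLeft (nat_lit 1) (Nat.land (Nat.shiftRight (V (nat_lit 42)) (S (nat_lit 37))) (nat_lit 65535))) (Nat.shiftLeft (nat_lit 1) (Nat.land (Nat.shiftRight (V (nat_lit 42)) (S (nat_lit 51))) (nat_lit 65535))))) (Nat.add (Nat.add (Nat.shiftLeft (nat_lit 1) (Nat.land (Nat.shiftRight (V (nat_lit 44)) (S (nat_lit 7))) (nat_lit 65535))) (Nat.shiftLeft (nat_lit 1) (Nat.land (Nat.shiftRight (V (nat_lit 44)) (S (nat_lit 10))) (nat_lit 65535)))) (Nat.add (Nat.shiftLeft (nat_lit 1) (Nat.land (Nat.shiftRight (V (nat_lit 44)) (S (nat_lit 28))) (nat_lit 65535))) (Nat.shiftLeft (nat_lit 1) (Nat.land (Nat.shiftRight (V (nat_lit 44)) (S (nat_lit 39))) (nat_lit 65535)))))) (Nat.add (Nat.add (Nat.add (Nat.shiftLeft (nat_lit 1) (Nat.land (Nat.shiftRight (V (nat_lit 51)) (S (nat_lit 3))) (nat_lit 65535))) (Nat.shiftLeft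 (nat_lit 1) (Nat.land (Nat.shiftRight (V (nat_lit 51)) (S (nat_lit 13))) (nat_lit 65535)))) (Nat.add (Nat.shiftLeft (nat_lit 1) (Nat.land (Nat.shiftRight (V (nat_lit 51)) (S (nat_lit 23))) (nat_lit 65535))) (Nat.shiftLeft (nat_lit 1) (Nat.land (Nat.shiftRight (V (nat_lit 51)) (S (nat_lit 42))) (nat_lit 65535))))) (Nat.add (Nat.add (Nat.shiftLeft (nat_lit 1) (Nat.land (Nat.shiftRight (V (nat_lit 53)) (S (nat_lit 9))) (nat_lit 65535))) (Nat.shiftLeft (nat_lit 1) (Nat.land (Nat.shiftRight (V (nat_lit 53)) (S (nat_lit 37))) (nat_lit 65535)))) (Nat.add (Nat.shiftLeft (nat_lit 1) (Nat.land (Nat.shiftRight (V (nat_lit 55)) (S (nat_lit 10))) (nat_lit 65535))) (Nat.shiftLeft (nat_lit 1) (Nat.land (Nat.shiftRight (V (nat_lit 55)) (S (nat_lit 39))) (nat_lit 65535))))))))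
def E61_3 (V S : ℕ → ℕ) : ℕ := Nat.add (Nat.add (Nat.add (Nat.shiftLeft (nat_lit 1) (Nat.land (Nat.shiftRight (V (nat_lit 3)) (S (nat_lit 28))) (nat_lit 65535))) (Nat.shiftLeft (nat_lit 1) (Nat.land (Nat.shiftRight (V (nat_lit 5)) (S (nat_lit 13))) (nat_lit 65535)))) (Nat.add (Nat.shiftLeft (nat_lit 1) (Nat.land (Nat.shiftRight (V (nat_lit 7)) (S (nat_lit 53))) (nat_lit 65535))) (Nat.add (Nat.shiftLeft (nat_lit 1) (Nat.land (Nat.shiftRight (V (nat_lit 12)) (S (nat_lit 29))) (nat_lit 65535))) (Nat.shiftLeft (nat_lit 1) (Nat.land (Nat.shiftRight (V (nat_lit 13)) (S (nat_lit 5))) (nat_lit 65535)))))) (Nat.add (Nat.add (Nat.shiftLeft (nat_lit 1) (Nat.land (Nat.shiftRight (V (nat_lit 19)) (S (nat_lit 55))) (nat_lit 65535))) (Nat.shiftLeft (nat_lit 1) (Nat.land (Nat.shiftRight (V (nat_lit 28)) (S (nat_lit 3))) (nat_lit 65535)))) (Nat.add (Nat.shiftLeft (nat_lit 1) (Nat.land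 (Nat.shiftRight (V (nat_lit 29)) (S (nat_lit 12))) (nat_lit 65535))) (Nat.add (Nat.shiftLeft (nat_lit 1) (Nat.land (Nat.shiftRight (V (nat_lit 53)) (S (nat_lit 7))) (nat_lit 65535))) (Nat.shiftLeft (nat_lit 1) (Nat.land (Nat.shiftRight (V (nat_lit 55)) (S (nat_lit 19))) (nat_lit 65535))))))
def E62_3 (V S : ℕ → ℕ) : ℕ := Nat.add (Nat.add (Nat.add (Nat.add (Nat.add (Nat.shiftLeft (nat_lit 1) (Nat.land (Nat.shiftRight (V (nat_lit 3)) (S (nat_lit 14))) (nat_lit 65535))) (Nat.shiftLeft (nat_lit 1) (Nat.land (Nat.shiftRight (V (nat_lit 3)) (S (nat_lit 59))) (nat_lit 65535)))) (Nat.add (Nat.shiftLeft (nat_lit 1) (Nat.land (Nat.shiftRight (V (nat_lit 5)) (S (nat_lit 27))) (nat_lit 65535))) (Nat.add (Nat.shiftLeft (nat_lit 1) (Nat.land (Nat.shiftRight (V (nat_lit 5)) (S (nat_lit 59))) (nat_lit 65535))) (Nat.shiftLeft (nat_lit 1) (Nat.land (Nat.shiftRight (V (nat_lit 7)) (S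 (nat_lit 14))) (nat_lit 65535)))))) (Nat.add (Nat.add (Nat.shiftLeft (nat_lit 1) (Nat.land (Nat.shiftRight (V (nat_lit 7)) (S (nat_lit 43))) (nat_lit 65535))) (Nat.shiftLeft (nat_lit 1) (Nat.land (Nat.shiftRight (V (nat_lit 11)) (S (nat_lit 12))) (nat_lit 65535)))) (Nat.add (Nat.shiftLeft (nat_lit 1) (Nat.land (Nat.shiftRight (V (nat_lit 11)) (S (nat_lit 19))) (nat_lit 65535))) (Nat.add (Nat.shiftLeft (nat_lit 1) (Nat.land (Nat.shiftRight (V (nat_lit 11)) (S (nat_lit 29))) (nat_lit 65535))) (Nat.shiftLeft (nat_lit 1) (Nat.land (Nat.shiftRight (V (nat_lit 11)) (S (nat_lit 55))) (nat_lit 65535))))))) (Nat.add (Nat.add (Nat.add (Nat.shiftLeft (nat_lit 1) (Nat.land (Nat.shiftRight (V (nat_lit 12)) (S (nat_lit 11))) (nat_lit 65535))) (Nat.shiftLeft (nat_lit 1) (Nat.land (Nat.shiftRight (V (nat_lit 12)) (S (nat_lit 43))) (nat_lit 65535)))) (Nat.add (Nat.shiftLeft (nat_lit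 1) (Nat.land (Nat.shiftRight (V (nat_lit 13)) (S (nat_lit 27))) (nat_lit 65535))) (Nat.add (Nat.shiftLeft (nat_lit 1) (Nat.land (Nat.shiftRight (V (nat_lit 13)) (S (nat_lit 59))) (nat_lit 65535))) (Nat.shiftLeft (nat_lit 1) (Nat.land (Nat.shiftRight (V (nat_lit 14)) (S (nat_lit 3))) (nat_lit 65535)))))) (Nat.add (Nat.add (Nat.shiftLeft (nat_lit 1) (Nat.land (Nat.shiftRight (V (nat_lit 14)) (S (nat_lit 7))) (nat_lit 65535))) (Nat.shiftLeft (nat_lit 1) (Nat.land (Nat.shiftRight (V (nat_lit 14)) (S (nat_lit 28))) (nat_lit 65535)))) (Nat.add (Nat.shiftLeft (nat_lit 1) (Nat.land (Nat.shiftRight (V (nat_lit 14)) (S (nat_lit 53))) (nat_lit 65535))) (Nat.add (Nat.shiftLeft (nat_lit 1) (Nat.land (Nat.shiftRight (V (nat_lit 19)) (S (nat_lit 11))) (nat_lit 65535))) (Nat.shiftLeft (nat_lit 1) (Nat.land (Nat.shiftRight (V (nat_lit 19)) (S (nat_lit 27))) (nat_lit 65535))))))))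 (Nat.add (Nat.add (Nat.add (Nat.add (Nat.shiftLeft (nat_lit 1) (Nat.land (Nat.shiftRight (V (nat_lit 27)) (S (nat_lit 5))) (nat_lit 65535))) (Nat.shiftLeft (nat_lit 1) (Nat.land (Nat.shiftRight (V (nat_lit 27)) (S (nat_lit 13))) (nat_lit 65535)))) (Nat.add (Nat.shiftLeft (nat_lit 1) (Nat.land (Nat.shiftRight (V (nat_lit 27)) (S (nat_lit 19))) (nat_lit 65535))) (Nat.add (Nat.shiftLeft (nat_lit 1) (Nat.land (Nat.shiftRight (V (nat_lit 27)) (S (nat_lit 55))) (nat_lit 65535))) (Nat.shiftLeft (nat_lit 1) (Nat.land (Nat.shiftRight (V (nat_lit 28)) (S (nat_lit 14))) (nat_lit 65535)))))) (Nat.add (Nat.add (Nat.shiftLeft (nat_lit 1) (Nat.land (Nat.shiftRight (V (nat_lit 28)) (S (nat_lit 59))) (nat_lit 65535))) (Nat.shiftLeft (nat_lit 1) (Nat.land (Nat.shiftRight (V (nat_lit 29)) (S (nat_lit 11))) (nat_lit 65535)))) (Nat.add (Nat.shiftLeft (nat_lit 1) (Nat.land (Nat.shiftRight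 (V (nat_lit 29)) (S (nat_lit 43))) (nat_lit 65535))) (Nat.add (Nat.shiftLeft (nat_lit 1) (Nat.land (Nat.shiftRight (V (nat_lit 43)) (S (nat_lit 7))) (nat_lit 65535))) (Nat.shiftLeft (nat_lit 1) (Nat.land (Nat.shiftRight (V (nat_lit 43)) (S (nat_lit 12))) (nat_lit 65535))))))) (Nat.add (Nat.add (Nat.add (Nat.shiftLeft (nat_lit 1) (Nat.land (Nat.shiftRight (V (nat_lit 43)) (S (nat_lit 29))) (nat_lit 65535))) (Nat.shiftLeft (nat_lit 1) (Nat.land (Nat.shiftRight (V (nat_lit 43)) (S (nat_lit 53))) (nat_lit 65535)))) (Nat.add (Nat.shiftLeft (nat_lit 1) (Nat.land (Nat.shiftRight (V (nat_lit 53)) (S (nat_lit 14))) (nat_lit 65535))) (Nat.add (Nat.shiftLeft (nat_lit 1) (Nat.land (Nat.shiftRight (V (nat_lit 53)) (S (nat_lit 43))) (nat_lit 65535))) (Nat.shiftLeft (nat_lit 1) (Nat.land (Nat.shiftRight (V (nat_lit 55)) (S (nat_lit 11))) (nat_lit 65535)))))) (Nat.add (Nat.add (Nat.shiftLeft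 (nat_lit 1) (Nat.land (Nat.shiftRight (V (nat_lit 55)) (S (nat_lit 27))) (nat_lit 65535))) (Nat.shiftLeft (nat_lit 1) (Nat.land (Nat.shiftRight (V (nat_lit 59)) (S (nat_lit 3))) (nat_lit 65535)))) (Nat.add (Nat.shiftLeft (nat_lit 1) (Nat.land (Nat.shiftRight (V (nat_lit 59)) (S (nat_lit 5))) (nat_lit 65535))) (Nat.add (Nat.shiftLeft (nat_lit 1) (Nat.land (Nat.shiftRight (V (nat_lit 59)) (S (nat_lit 13))) (nat_lit 65535))) (Nat.shiftLeft (nat_lit 1) (Nat.land (Nat.shiftRight (V (nat_lit 59)) (S (nat_lit 28))) (nat_lit 65535))))))))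
def E63_3 (V S : ℕ → ℕ) : ℕ := Nat.add (Nat.add (Nat.add (Nat.add (Nat.shiftLeft (nat_lit 1) (Nat.land (Nat.shiftRight (V (nat_lit 3)) (S (nat_lit 8))) (nat_lit 65535))) (Nat.shiftLeft (nat_lit 1) (Nat.land (Nat.shiftRight (V (nat_lit 5)) (S (nat_lit 54))) (nat_lit 65535)))) (Nat.add (Nat.shiftLeft (nat_lit 1) (Nat.land (Nat.shiftRight (V (nat_lit 7)) (S (nat_lit 36))) (nat_lit 65535))) (Nat.add (Nat.shiftLeft (nat_lit 1) (Nat.land (Nat.shiftRight (V (nat_lit 8)) (S (nat_lit 3))) (nat_lit 65535))) (Nat.shiftLeft (nat_lit 1) (Nat.land (Nat.shiftRight (V (nat_lit 12)) (S (nat_lit 47))) (nat_lit 65535)))))) (Nat.add (Nat.add (Nat.shiftLeft (nat_lit 1) (Nat.land (Nat.shiftRight (V (nat_lit 13)) (S (nat_lit 30))) (nat_lit 65535))) (Nat.shiftLeft (nat_lit 1) (Nat.land (Nat.shiftRight (V (nat_lit 19)) (S (nat_lit 21))) (nat_lit 65535)))) (Nat.add (Nat.shiftLeft (nat_lit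 1) (Nat.land (Nat.shiftRight (V (nat_lit 21)) (S (nat_lit 19))) (nat_lit 65535))) (Nat.add (Nat.shiftLeft (nat_lit 1) (Nat.land (Nat.shiftRight (V (nat_lit 28)) (S (nat_lit 50))) (nat_lit 65535))) (Nat.shiftLeft (nat_lit 1) (Nat.land (Nat.shiftRight (V (nat_lit 29)) (S (nat_lit 46))) (nat_lit 65535))))))) (Nat.add (Nat.add (Nat.add (Nat.shiftLeft (nat_lit 1) (Nat.land (Nat.shiftRight (V (nat_lit 30)) (S (nat_lit 13))) (nat_lit 65535))) (Nat.shiftLeft (nat_lit 1) (Nat.land (Nat.shiftRight (V (nat_lit 33)) (S (nat_lit 55))) (nat_lit 65535)))) (Nat.add (Nat.shiftLeft (nat_lit 1) (Nat.land (Nat.shiftRight (V (nat_lit 36)) (S (nat_lit 7))) (nat_lit 65535))) (Nat.add (Nat.shiftLeft (nat_lit 1) (Nat.land (Nat.shiftRight (V (nat_lit 41)) (S (nat_lit 53))) (nat_lit 65535))) (Nat.shiftLeft (nat_lit 1) (Nat.land (Nat.shiftRight (V (nat_lit 46)) (S (nat_lit 29))) (nat_lit 65535))))))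 (Nat.add (Nat.add (Nat.shiftLeft (nat_lit 1) (Nat.land (Nat.shiftRight (V (nat_lit 47)) (S (nat_lit 12))) (nat_lit 65535))) (Nat.shiftLeft (nat_lit 1) (Nat.land (Nat.shiftRight (V (nat_lit 50)) (S (nat_lit 28))) (nat_lit 65535)))) (Nat.add (Nat.shiftLeft (nat_lit 1) (Nat.land (Nat.shiftRight (V (nat_lit 53)) (S (nat_lit 41))) (nat_lit 65535))) (Nat.add (Nat.shiftLeft (nat_lit 1) (Nat.land (Nat.shiftRight (V (nat_lit 54)) (S (nat_lit 5))) (nat_lit 65535))) (Nat.shiftLeft (nat_lit 1) (Nat.land (Nat.shiftRight (V (nat_lit 55)) (S (nat_lit 33))) (nat_lit 65535)))))))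
def E64_3 (V S : ℕ → ℕ) : ℕ := Nat.add (Nat.add (Nat.add (Nat.add (Nat.shiftLeft (nat_lit 1) (Nat.land (Nat.shiftRight (V (nat_lit 3)) (S (nat_lit 50))) (nat_lit 65535))) (Nat.add (Nat.shiftLeft (nat_lit 1) (Nat.land (Nat.shiftRight (V (nat_lit 5)) (S (nat_lit 30))) (nat_lit 65535))) (Nat.shiftLeft (nat_lit 1) (Nat.land (Nat.shiftRight (V (nat_lit 7)) (S (nat_lit 41))) (nat_lit 65535))))) (Nat.add (Nat.add (Nat.shiftLeft (nat_lit 1) (Nat.land (Nat.shiftRight (V (nat_lit 8)) (S (nat_lit 28))) (nat_lit 65535))) (Nat.shiftLeft (nat_lit 1) (Nat.land (Nat.shiftRight (V (nat_lit 8)) (S (nat_lit 50))) (nat_lit 65535)))) (Nat.add (Nat.shiftLeft (nat_lit 1) (Nat.land (Nat.shiftRight (V (nat_lit 12)) (S (nat_lit 46))) (nat_lit 65535))) (Nat.shiftLeft (nat_lit 1) (Nat.land (Nat.shiftRight (V (nat_lit 13)) (S (nat_lit 54))) (nat_lit 65535)))))) (Nat.add (Nat.add (Nat.add (Nat.shiftLeft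 (nat_lit 1) (Nat.land (Nat.shiftRight (V (nat_lit 19)) (S (nat_lit 33))) (nat_lit 65535))) (Nat.shiftLeft (nat_lit 1) (Nat.land (Nat.shiftRight (V (nat_lit 21)) (S (nat_lit 33))) (nat_lit 65535)))) (Nat.add (Nat.shiftLeft (nat_lit 1) (Nat.land (Nat.shiftRight (V (nat_lit 21)) (S (nat_lit 55))) (nat_lit 65535))) (Nat.shiftLeft (nat_lit 1) (Nat.land (Nat.shiftRight (V (nat_lit 28)) (S (nat_lit 8))) (nat_lit 65535))))) (Nat.add (Nat.add (Nat.shiftLeft (nat_lit 1) (Nat.land (Nat.shiftRight (V (nat_lit 29)) (S (nat_lit 47))) (nat_lit 65535))) (Nat.shiftLeft (nat_lit 1) (Nat.land (Nat.shiftRight (V (nat_lit 30)) (S (nat_lit 5))) (nat_lit 65535)))) (Nat.add (Nat.shiftLeft (nat_lit 1) (Nat.land (Nat.shiftRight (V (nat_lit 30)) (S (nat_lit 54))) (nat_lit 65535))) (Nat.shiftLeft (nat_lit 1) (Nat.land (Nat.shiftRight (V (nat_lit 33)) (S (nat_lit 19))) (nat_lit 65535))))))) (Nat.add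 (Nat.add (Nat.add (Nat.shiftLeft (nat_lit 1) (Nat.land (Nat.shiftRight (V (nat_lit 33)) (S (nat_lit 21))) (nat_lit 65535))) (Nat.add (Nat.shiftLeft (nat_lit 1) (Nat.land (Nat.shiftRight (V (nat_lit 36)) (S (nat_lit 41))) (nat_lit 65535))) (Nat.shiftLeft (nat_lit 1) (Nat.land (Nat.shiftRight (V (nat_lit 36)) (S (nat_lit 53))) (nat_lit 65535))))) (Nat.add (Nat.add (Nat.shiftLeft (nat_lit 1) (Nat.land (Nat.shiftRight (V (nat_lit 41)) (S (nat_lit 7))) (nat_lit 65535))) (Nat.shiftLeft (nat_lit 1) (Nat.land (Nat.shiftRight (V (nat_lit 41)) (S (nat_lit 36))) (nat_lit 65535)))) (Nat.add (Nat.shiftLeft (nat_lit 1) (Nat.land (Nat.shiftRight (V (nat_lit 46)) (S (nat_lit 12))) (nat_lit 65535))) (Nat.shiftLeft (nat_lit 1) (Nat.land (Nat.shiftRight (V (nat_lit 46)) (S (nat_lit 47))) (nat_lit 65535)))))) (Nat.add (Nat.add (Nat.add (Nat.shiftLeft (nat_lit 1) (Nat.land (Nat.shiftRight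 (V (nat_lit 47)) (S (nat_lit 29))) (nat_lit 65535))) (Nat.shiftLeft (nat_lit 1) (Nat.land (Nat.shiftRight (V (nat_lit 47)) (S (nat_lit 46))) (nat_lit 65535)))) (Nat.add (Nat.shiftLeft (nat_lit 1) (Nat.land (Nat.shiftRight (V (nat_lit 50)) (S (nat_lit 3))) (nat_lit 65535))) (Nat.shiftLeft (nat_lit 1) (Nat.land (Nat.shiftRight (V (nat_lit 50)) (S (nat_lit 8))) (nat_lit 65535))))) (Nat.add (Nat.add (Nat.shiftLeft (nat_lit 1) (Nat.land (Nat.shiftRight (V (nat_lit 53)) (S (nat_lit 36))) (nat_lit 65535))) (Nat.shiftLeft (nat_lit 1) (Nat.land (Nat.shiftRight (V (nat_lit 54)) (S (nat_lit 13))) (nat_lit 65535)))) (Nat.add (Nat.shiftLeft (nat_lit 1) (Nat.land (Nat.shiftRight (V (nat_lit 54)) (S (nat_lit 30))) (nat_lit 65535))) (Nat.shiftLeft (nat_lit 1) (Nat.land (Nat.shiftRight (V (nat_lit 55)) (S (nat_lit 21))) (nat_lit 65535)))))))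
def E65_3 (V S : ℕ → ℕ) : ℕ := Nat.add (Nat.add (Nat.add (Nat.add (Nat.shiftLeft (nat_lit 1) (Nat.land (Nat.shiftRight (V (nat_lit 8)) (S (nat_lit 42))) (nat_lit 65535))) (Nat.shiftLeft (nat_lit 1) (Nat.land (Nat.shiftRight (V (nat_lit 9)) (S (nat_lit 54))) (nat_lit 65535)))) (Nat.add (Nat.shiftLeft (nat_lit 1) (Nat.land (Nat.shiftRight (V (nat_lit 10)) (S (nat_lit 36))) (nat_lit 65535))) (Nat.add (Nat.shiftLeft (nat_lit 1) (Nat.land (Nat.shiftRight (V (nat_lit 18)) (S (nat_lit 47))) (nat_lit 65535))) (Nat.shiftLeft (nat_lit 1) (Nat.land (Nat.shiftRight (V (nat_lit 21)) (S (nat_lit 37))) (nat_lit 65535)))))) (Nat.add (Nat.add (Nat.shiftLeft (nat_lit 1) (Nat.land (Nat.shiftRight (V (nat_lit 23)) (S (nat_lit 30))) (nat_lit 65535))) (Nat.shiftLeft (nat_lit 1) (Nat.land (Nat.shiftRight (V (nat_lit 30)) (S (nat_lit 23))) (nat_lit 65535)))) (Nat.add (Nat.shiftLeft (nat_lit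 1) (Nat.land (Nat.shiftRight (V (nat_lit 33)) (S (nat_lit 44))) (nat_lit 65535))) (Nat.add (Nat.shiftLeft (nat_lit 1) (Nat.land (Nat.shiftRight (V (nat_lit 35)) (S (nat_lit 41))) (nat_lit 65535))) (Nat.shiftLeft (nat_lit 1) (Nat.land (Nat.shiftRight (V (nat_lit 36)) (S (nat_lit 10))) (nat_lit 65535))))))) (Nat.add (Nat.add (Nat.add (Nat.shiftLeft (nat_lit 1) (Nat.land (Nat.shiftRight (V (nat_lit 37)) (S (nat_lit 21))) (nat_lit 65535))) (Nat.shiftLeft (nat_lit 1) (Nat.land (Nat.shiftRight (V (nat_lit 39)) (S (nat_lit 50))) (nat_lit 65535)))) (Nat.add (Nat.shiftLeft (nat_lit 1) (Nat.land (Nat.shiftRight (V (nat_lit 41)) (S (nat_lit 35))) (nat_lit 65535))) (Nat.add (Nat.shiftLeft (nat_lit 1) (Nat.land (Nat.shiftRight (V (nat_lit 42)) (S (nat_lit 8))) (nat_lit 65535))) (Nat.shiftLeft (nat_lit 1) (Nat.land (Nat.shiftRight (V (nat_lit 44)) (S (nat_lit 33))) (nat_lit 65535))))))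 (Nat.add (Nat.add (Nat.shiftLeft (nat_lit 1) (Nat.land (Nat.shiftRight (V (nat_lit 46)) (S (nat_lit 51))) (nat_lit 65535))) (Nat.shiftLeft (nat_lit 1) (Nat.land (Nat.shiftRight (V (nat_lit 47)) (S (nat_lit 18))) (nat_lit 65535)))) (Nat.add (Nat.shiftLeft (nat_lit 1) (Nat.land (Nat.shiftRight (V (nat_lit 50)) (S (nat_lit 39))) (nat_lit 65535))) (Nat.add (Nat.shiftLeft (nat_lit 1) (Nat.land (Nat.shiftRight (V (nat_lit 51)) (S (nat_lit 46))) (nat_lit 65535))) (Nat.shiftLeft (nat_lit 1) (Nat.land (Nat.shiftRight (V (nat_lit 54)) (S (nat_lit 9))) (nat_lit 65535)))))))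
def E66_3 (V S : ℕ → ℕ) : ℕ := Nat.add (Nat.add (Nat.add (Nat.add (Nat.add (Nat.shiftLeft (nat_lit 1) (Nat.land (Nat.shiftRight (V (nat_lit 9)) (S (nat_lit 26))) (nat_lit 65535))) (Nat.add (Nat.shiftLeft (nat_lit 1) (Nat.land (Nat.shiftRight (V (nat_lit 9)) (S (nat_lit 57))) (nat_lit 65535))) (Nat.shiftLeft (nat_lit 1) (Nat.land (Nat.shiftRight (V (nat_lit 10)) (S (nat_lit 38))) (nat_lit 65535))))) (Nat.add (Nat.shiftLeft (nat_lit 1) (Nat.land (Nat.shiftRight (V (nat_lit 10)) (S (nat_lit 58))) (nat_lit 65535))) (Nat.add (Nat.shiftLeft (nat_lit 1) (Nat.land (Nat.shiftRight (V (nat_lit 18)) (S (nat_lit 34))) (nat_lit 65535))) (Nat.shiftLeft (nat_lit 1) (Nat.land (Nat.shiftRight (V (nat_lit 18)) (S (nat_lit 38))) (nat_lit 65535)))))) (Nat.add (Nat.add (Nat.shiftLeft (nat_lit 1) (Nat.land (Nat.shiftRight (V (nat_lit 23)) (S (nat_lit 26))) (nat_lit 65535))) (Nat.add (Nat.shiftLeft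 (nat_lit 1) (Nat.land (Nat.shiftRight (V (nat_lit 23)) (S (nat_lit 57))) (nat_lit 65535))) (Nat.shiftLeft (nat_lit 1) (Nat.land (Nat.shiftRight (V (nat_lit 26)) (S (nat_lit 9))) (nat_lit 65535))))) (Nat.add (Nat.shiftLeft (nat_lit 1) (Nat.land (Nat.shiftRight (V (nat_lit 26)) (S (nat_lit 23))) (nat_lit 65535))) (Nat.add (Nat.shiftLeft (nat_lit 1) (Nat.land (Nat.shiftRight (V (nat_lit 26)) (S (nat_lit 34))) (nat_lit 65535))) (Nat.shiftLeft (nat_lit 1) (Nat.land (Nat.shiftRight (V (nat_lit 26)) (S (nat_lit 38))) (nat_lit 65535))))))) (Nat.add (Nat.add (Nat.add (Nat.shiftLeft (nat_lit 1) (Nat.land (Nat.shiftRight (V (nat_lit 26)) (S (nat_lit 39))) (nat_lit 65535))) (Nat.add (Nat.shiftLeft (nat_lit 1) (Nat.land (Nat.shiftRight (V (nat_lit 26)) (S (nat_lit 42))) (nat_lit 65535))) (Nat.shiftLeft (nat_lit 1) (Nat.land (Nat.shiftRight (V (nat_lit 34)) (S (nat_lit 18))) (nat_lit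 65535))))) (Nat.add (Nat.shiftLeft (nat_lit 1) (Nat.land (Nat.shiftRight (V (nat_lit 34)) (S (nat_lit 26))) (nat_lit 65535))) (Nat.add (Nat.shiftLeft (nat_lit 1) (Nat.land (Nat.shiftRight (V (nat_lit 34)) (S (nat_lit 37))) (nat_lit 65535))) (Nat.shiftLeft (nat_lit 1) (Nat.land (Nat.shiftRight (V (nat_lit 34)) (S (nat_lit 44))) (nat_lit 65535)))))) (Nat.add (Nat.add (Nat.shiftLeft (nat_lit 1) (Nat.land (Nat.shiftRight (V (nat_lit 34)) (S (nat_lit 51))) (nat_lit 65535))) (Nat.add (Nat.shiftLeft (nat_lit 1) (Nat.land (Nat.shiftRight (V (nat_lit 34)) (S (nat_lit 58))) (nat_lit 65535))) (Nat.shiftLeft (nat_lit 1) (Nat.land (Nat.shiftRight (V (nat_lit 35)) (S (nat_lit 38))) (nat_lit 65535))))) (Nat.add (Nat.add (Nat.shiftLeft (nat_lit 1) (Nat.land (Nat.shiftRight (V (nat_lit 35)) (S (nat_lit 58))) (nat_lit 65535))) (Nat.shiftLeft (nat_lit 1) (Nat.land (Nat.shiftRight (V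 (nat_lit 37)) (S (nat_lit 34))) (nat_lit 65535)))) (Nat.add (Nat.shiftLeft (nat_lit 1) (Nat.land (Nat.shiftRight (V (nat_lit 37)) (S (nat_lit 57))) (nat_lit 65535))) (Nat.shiftLeft (nat_lit 1) (Nat.land (Nat.shiftRight (V (nat_lit 38)) (S (nat_lit 10))) (nat_lit 65535)))))))) (Nat.add (Nat.add (Nat.add (Nat.add (Nat.shiftLeft (nat_lit 1) (Nat.land (Nat.shiftRight (V (nat_lit 38)) (S (nat_lit 18))) (nat_lit 65535))) (Nat.add (Nat.shiftLeft (nat_lit 1) (Nat.land (Nat.shiftRight (V (nat_lit 38)) (S (nat_lit 26))) (nat_lit 65535))) (Nat.shiftLeft (nat_lit 1) (Nat.land (Nat.shiftRight (V (nat_lit 38)) (S (nat_lit 35))) (nat_lit 65535))))) (Nat.add (Nat.shiftLeft (nat_lit 1) (Nat.land (Nat.shiftRight (V (nat_lit 38)) (S (nat_lit 51))) (nat_lit 65535))) (Nat.add (Nat.shiftLeft (nat_lit 1) (Nat.land (Nat.shiftRight (V (nat_lit 38)) (S (nat_lit 57))) (nat_lit 65535))) (Nat.shiftLeft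 (nat_lit 1) (Nat.land (Nat.shiftRight (V (nat_lit 39)) (S (nat_lit 26))) (nat_lit 65535)))))) (Nat.add (Nat.add (Nat.shiftLeft (nat_lit 1) (Nat.land (Nat.shiftRight (V (nat_lit 39)) (S (nat_lit 58))) (nat_lit 65535))) (Nat.add (Nat.shiftLeft (nat_lit 1) (Nat.land (Nat.shiftRight (V (nat_lit 42)) (S (nat_lit 26))) (nat_lit 65535))) (Nat.shiftLeft (nat_lit 1) (Nat.land (Nat.shiftRight (V (nat_lit 42)) (S (nat_lit 58))) (nat_lit 65535))))) (Nat.add (Nat.shiftLeft (nat_lit 1) (Nat.land (Nat.shiftRight (V (nat_lit 44)) (S (nat_lit 34))) (nat_lit 65535))) (Nat.add (Nat.shiftLeft (nat_lit 1) (Nat.land (Nat.shiftRight (V (nat_lit 44)) (S (nat_lit 57))) (nat_lit 65535))) (Nat.shiftLeft (nat_lit 1) (Nat.land (Nat.shiftRight (V (nat_lit 51)) (S (nat_lit 34))) (nat_lit 65535))))))) (Nat.add (Nat.add (Nat.add (Nat.shiftLeft (nat_lit 1) (Nat.land (Nat.shiftRight (V (nat_lit 51))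 (S (nat_lit 38))) (nat_lit 65535))) (Nat.add (Nat.shiftLeft (nat_lit 1) (Nat.land (Nat.shiftRight (V (nat_lit 57)) (S (nat_lit 9))) (nat_lit 65535))) (Nat.shiftLeft (nat_lit 1) (Nat.land (Nat.shiftRight (V (nat_lit 57)) (S (nat_lit 23))) (nat_lit 65535))))) (Nat.add (Nat.shiftLeft (nat_lit 1) (Nat.land (Nat.shiftRight (V (nat_lit 57)) (S (nat_lit 37))) (nat_lit 65535))) (Nat.add (Nat.shiftLeft (nat_lit 1) (Nat.land (Nat.shiftRight (V (nat_lit 57)) (S (nat_lit 38))) (nat_lit 65535))) (Nat.shiftLeft (nat_lit 1) (Nat.land (Nat.shiftRight (V (nat_lit 57)) (S (nat_lit 44))) (nat_lit 65535)))))) (Nat.add (Nat.add (Nat.shiftLeft (nat_lit 1) (Nat.land (Nat.shiftRight (V (nat_lit 57)) (S (nat_lit 58))) (nat_lit 65535))) (Nat.add (Nat.shiftLeft (nat_lit 1) (Nat.land (Nat.shiftRight (V (nat_lit 58)) (S (nat_lit 10))) (nat_lit 65535))) (Nat.shiftLeft (nat_lit 1) (Nat.land (Nat.shiftRight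 (V (nat_lit 58)) (S (nat_lit 34))) (nat_lit 65535))))) (Nat.add (Nat.add (Nat.shiftLeft (nat_lit 1) (Nat.land (Nat.shiftRight (V (nat_lit 58)) (S (nat_lit 35))) (nat_lit 65535))) (Nat.shiftLeft (nat_lit 1) (Nat.land (Nat.shiftRight (V (nat_lit 58)) (S (nat_lit 39))) (nat_lit 65535)))) (Nat.add (Nat.shiftLeft (nat_lit 1) (Nat.land (Nat.shiftRight (V (nat_lit 58)) (S (nat_lit 42))) (nat_lit 65535))) (Nat.shiftLeft (nat_lit 1) (Nat.land (Nat.shiftRight (V (nat_lit 58)) (S (nat_lit 57))) (nat_lit 65535))))))))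
def E68_3 (V S : ℕ → ℕ) : ℕ := Nat.add (Nat.add (Nat.add (Nat.add (Nat.shiftLeft (nat_lit 1) (Nat.land (Nat.shiftRight (V (nat_lit 8)) (S (nat_lit 11))) (nat_lit 65535))) (Nat.shiftLeft (nat_lit 1) (Nat.land (Nat.shiftRight (V (nat_lit 11)) (S (nat_lit 8))) (nat_lit 65535)))) (Nat.add (Nat.shiftLeft (nat_lit 1) (Nat.land (Nat.shiftRight (V (nat_lit 11)) (S (nat_lit 50))) (nat_lit 65535))) (Nat.add (Nat.shiftLeft (nat_lit 1) (Nat.land (Nat.shiftRight (V (nat_lit 14)) (S (nat_lit 21))) (nat_lit 65535))) (Nat.shiftLeft (nat_lit 1) (Nat.land (Nat.shiftRight (V (nat_lit 14)) (S (nat_lit 33))) (nat_lit 65535)))))) (Nat.add (Nat.add (Nat.shiftLeft (nat_lit 1) (Nat.land (Nat.shiftRight (V (nat_lit 21)) (S (nat_lit 14))) (nat_lit 65535))) (Nat.shiftLeft (nat_lit 1) (Nat.land (Nat.shiftRight (V (nat_lit 27)) (S (nat_lit 36))) (nat_lit 65535)))) (Nat.add (Nat.shiftLeft (nat_lit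 1) (Nat.land (Nat.shiftRight (V (nat_lit 27)) (S (nat_lit 41))) (nat_lit 65535))) (Nat.add (Nat.shiftLeft (nat_lit 1) (Nat.land (Nat.shiftRight (V (nat_lit 30)) (S (nat_lit 43))) (nat_lit 65535))) (Nat.shiftLeft (nat_lit 1) (Nat.land (Nat.shiftRight (V (nat_lit 33)) (S (nat_lit 14))) (nat_lit 65535))))))) (Nat.add (Nat.add (Nat.add (Nat.shiftLeft (nat_lit 1) (Nat.land (Nat.shiftRight (V (nat_lit 36)) (S (nat_lit 27))) (nat_lit 65535))) (Nat.shiftLeft (nat_lit 1) (Nat.land (Nat.shiftRight (V (nat_lit 41)) (S (nat_lit 27))) (nat_lit 65535)))) (Nat.add (Nat.shiftLeft (nat_lit 1) (Nat.land (Nat.shiftRight (V (nat_lit 43)) (S (nat_lit 30))) (nat_lit 65535))) (Nat.add (Nat.shiftLeft (nat_lit 1) (Nat.land (Nat.shiftRight (V (nat_lit 43)) (S (nat_lit 54))) (nat_lit 65535))) (Nat.shiftLeft (nat_lit 1) (Nat.land (Nat.shiftRight (V (nat_lit 46)) (S (nat_lit 59))) (nat_lit 65535))))))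 (Nat.add (Nat.add (Nat.shiftLeft (nat_lit 1) (Nat.land (Nat.shiftRight (V (nat_lit 47)) (S (nat_lit 59))) (nat_lit 65535))) (Nat.shiftLeft (nat_lit 1) (Nat.land (Nat.shiftRight (V (nat_lit 50)) (S (nat_lit 11))) (nat_lit 65535)))) (Nat.add (Nat.shiftLeft (nat_lit 1) (Nat.land (Nat.shiftRight (V (nat_lit 54)) (S (nat_lit 43))) (nat_lit 65535))) (Nat.add (Nat.shiftLeft (nat_lit 1) (Nat.land (Nat.shiftRight (V (nat_lit 59)) (S (nat_lit 46))) (nat_lit 65535))) (Nat.shiftLeft (nat_lit 1) (Nat.land (Nat.shiftRight (V (nat_lit 59)) (S (nat_lit 47))) (nat_lit 65535)))))))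
def E69_3 (V S : ℕ → ℕ) : ℕ := Nat.add (Nat.add (Nat.add (Nat.shiftLeft (nat_lit 1) (Nat.land (Nat.shiftRight (V (nat_lit 11)) (S (nat_lit 14))) (nat_lit 65535))) (Nat.shiftLeft (nat_lit 1) (Nat.land (Nat.shiftRight (V (nat_lit 11)) (S (nat_lit 59))) (nat_lit 65535)))) (Nat.add (Nat.shiftLeft (nat_lit 1) (Nat.land (Nat.shiftRight (V (nat_lit 14)) (S (nat_lit 11))) (nat_lit 65535))) (Nat.add (Nat.shiftLeft (nat_lit 1) (Nat.land (Nat.shiftRight (V (nat_lit 14)) (S (nat_lit 27))) (nat_lit 65535))) (Nat.shiftLeft (nat_lit 1) (Nat.land (Nat.shiftRight (V (nat_lit 27)) (S (nat_lit 14))) (nat_lit 65535)))))) (Nat.add (Nat.add (Nat.shiftLeft (nat_lit 1) (Nat.land (Nat.shiftRight (V (nat_lit 27)) (S (nat_lit 43))) (nat_lit 65535))) (Nat.shiftLeft (nat_lit 1) (Nat.land (Nat.shiftRight (V (nat_lit 43)) (S (nat_lit 27))) (nat_lit 65535)))) (Nat.add (Nat.shiftLeft (nat_lit 1)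 (Nat.land (Nat.shiftRight (V (nat_lit 43)) (S (nat_lit 59))) (nat_lit 65535))) (Nat.add (Nat.shiftLeft (nat_lit 1) (Nat.land (Nat.shiftRight (V (nat_lit 59)) (S (nat_lit 11))) (nat_lit 65535))) (Nat.shiftLeft (nat_lit 1) (Nat.land (Nat.shiftRight (V (nat_lit 59)) (S (nat_lit 43))) (nat_lit 65535))))))
def E70_3 (V S : ℕ → ℕ) : ℕ := Nat.add (Nat.add (Nat.add (Nat.add (Nat.shiftLeft (nat_lit 1) (Nat.land (Nat.shiftRight (V (nat_lit 11)) (S (nat_lit 32))) (nat_lit 65535))) (Nat.add (Nat.shiftLeft (nat_lit 1) (Nat.land (Nat.shiftRight (V (nat_lit 11)) (S (nat_lit 45))) (nat_lit 65535))) (Nat.shiftLeft (nat_lit 1) (Nat.land (Nat.shiftRight (V (nat_lit 11)) (S (nat_lit 48))) (nat_lit 65535))))) (Nat.add (Nat.add (Nat.shiftLeft (nat_lit 1) (Nat.land (Nat.shiftRight (V (nat_lit 14)) (S (nat_lit 32))) (nat_lit 65535))) (Nat.shiftLeft (nat_lit 1) (Nat.land (Nat.shiftRight (V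 (nat_lit 14)) (S (nat_lit 45))) (nat_lit 65535)))) (Nat.add (Nat.shiftLeft (nat_lit 1) (Nat.land (Nat.shiftRight (V (nat_lit 14)) (S (nat_lit 48))) (nat_lit 65535))) (Nat.shiftLeft (nat_lit 1) (Nat.land (Nat.shiftRight (V (nat_lit 27)) (S (nat_lit 32))) (nat_lit 65535)))))) (Nat.add (Nat.add (Nat.add (Nat.shiftLeft (nat_lit 1) (Nat.land (Nat.shiftRight (V (nat_lit 27)) (S (nat_lit 45))) (nat_lit 65535))) (Nat.shiftLeft (nat_lit 1) (Nat.land (Nat.shiftRight (V (nat_lit 27)) (S (nat_lit 48))) (nat_lit 65535)))) (Nat.add (Nat.shiftLeft (nat_lit 1) (Nat.land (Nat.shiftRight (V (nat_lit 32)) (S (nat_lit 11))) (nat_lit 65535))) (Nat.shiftLeft (nat_lit 1) (Nat.land (Nat.shiftRight (V (nat_lit 32)) (S (nat_lit 14))) (nat_lit 65535))))) (Nat.add (Nat.add (Nat.shiftLeft (nat_lit 1) (Nat.land (Nat.shiftRight (V (nat_lit 32)) (S (nat_lit 27))) (nat_lit 65535))) (Nat.shiftLeft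 (nat_lit 1) (Nat.land (Nat.shiftRight (V (nat_lit 32)) (S (nat_lit 43))) (nat_lit 65535)))) (Nat.add (Nat.shiftLeft (nat_lit 1) (Nat.land (Nat.shiftRight (V (nat_lit 32)) (S (nat_lit 59))) (nat_lit 65535))) (Nat.shiftLeft (nat_lit 1) (Nat.land (Nat.shiftRight (V (nat_lit 43)) (S (nat_lit 32))) (nat_lit 65535))))))) (Nat.add (Nat.add (Nat.add (Nat.shiftLeft (nat_lit 1) (Nat.land (Nat.shiftRight (V (nat_lit 43)) (S (nat_lit 45))) (nat_lit 65535))) (Nat.add (Nat.shiftLeft (nat_lit 1) (Nat.land (Nat.shiftRight (V (nat_lit 43)) (S (nat_lit 48))) (nat_lit 65535))) (Nat.shiftLeft (nat_lit 1) (Nat.land (Nat.shiftRight (V (nat_lit 45)) (S (nat_lit 11))) (nat_lit 65535))))) (Nat.add (Nat.add (Nat.shiftLeft (nat_lit 1) (Nat.land (Nat.shiftRight (V (nat_lit 45)) (S (nat_lit 14))) (nat_lit 65535))) (Nat.shiftLeft (nat_lit 1) (Nat.land (Nat.shiftRight (V (nat_lit 45)) (S (nat_lit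 27))) (nat_lit 65535)))) (Nat.add (Nat.shiftLeft (nat_lit 1) (Nat.land (Nat.shiftRight (V (nat_lit 45)) (S (nat_lit 43))) (nat_lit 65535))) (Nat.shiftLeft (nat_lit 1) (Nat.land (Nat.shiftRight (V (nat_lit 45)) (S (nat_lit 59))) (nat_lit 65535)))))) (Nat.add (Nat.add (Nat.add (Nat.shiftLeft (nat_lit 1) (Nat.land (Nat.shiftRight (V (nat_lit 48)) (S (nat_lit 11))) (nat_lit 65535))) (Nat.shiftLeft (nat_lit 1) (Nat.land (Nat.shiftRight (V (nat_lit 48)) (S (nat_lit 14))) (nat_lit 65535)))) (Nat.add (Nat.shiftLeft (nat_lit 1) (Nat.land (Nat.shiftRight (V (nat_lit 48)) (S (nat_lit 27))) (nat_lit 65535))) (Nat.shiftLeft (nat_lit 1) (Nat.land (Nat.shiftRight (V (nat_lit 48)) (S (nat_lit 43))) (nat_lit 65535))))) (Nat.add (Nat.add (Nat.shiftLeft (nat_lit 1) (Nat.land (Nat.shiftRight (V (nat_lit 48)) (S (nat_lit 59))) (nat_lit 65535))) (Nat.shiftLeft (nat_lit 1) (Nat.land (Nat.shiftRight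 (V (nat_lit 59)) (S (nat_lit 32))) (nat_lit 65535)))) (Nat.add (Nat.shiftLeft (nat_lit 1) (Nat.land (Nat.shiftRight (V (nat_lit 59)) (S (nat_lit 45))) (nat_lit 65535))) (Nat.shiftLeft (nat_lit 1) (Nat.land (Nat.shiftRight (V (nat_lit 59)) (S (nat_lit 48))) (nat_lit 65535)))))))
def E71_3 (V S : ℕ → ℕ) : ℕ := Nat.add (Nat.add (Nat.add (Nat.add (Nat.add (Nat.shiftLeft (nat_lit 1) (Nat.land (Nat.shiftRight (V (nat_lit 8)) (S (nat_lit 27))) (nat_lit 65535))) (Nat.add (Nat.shiftLeft (nat_lit 1) (Nat.land (Nat.shiftRight (V (nat_lit 8)) (S (nat_lit 36))) (nat_lit 65535))) (Nat.shiftLeft (nat_lit 1) (Nat.land (Nat.shiftRight (V (nat_lit 8)) (S (nat_lit 43))) (nat_lit 65535))))) (Nat.add (Nat.add (Nat.shiftLeft (nat_lit 1) (Nat.land (Nat.shiftRight (V (nat_lit 8)) (S (nat_lit 54))) (nat_lit 65535))) (Nat.shiftLeft (nat_lit 1) (Nat.land (Nat.shiftRight (V (nat_lit 11)) (S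 (nat_lit 30))) (nat_lit 65535)))) (Nat.add (Nat.shiftLeft (nat_lit 1) (Nat.land (Nat.shiftRight (V (nat_lit 11)) (S (nat_lit 36))) (nat_lit 65535))) (Nat.shiftLeft (nat_lit 1) (Nat.land (Nat.shiftRight (V (nat_lit 11)) (S (nat_lit 41))) (nat_lit 65535)))))) (Nat.add (Nat.add (Nat.add (Nat.shiftLeft (nat_lit 1) (Nat.land (Nat.shiftRight (V (nat_lit 11)) (S (nat_lit 54))) (nat_lit 65535))) (Nat.shiftLeft (nat_lit 1) (Nat.land (Nat.shiftRight (V (nat_lit 14)) (S (nat_lit 30))) (nat_lit 65535)))) (Nat.add (Nat.shiftLeft (nat_lit 1) (Nat.land (Nat.shiftRight (V (nat_lit 14)) (S (nat_lit 46))) (nat_lit 65535))) (Nat.shiftLeft (nat_lit 1) (Nat.land (Nat.shiftRight (V (nat_lit 14)) (S (nat_lit 47))) (nat_lit 65535))))) (Nat.add (Nat.add (Nat.shiftLeft (nat_lit 1) (Nat.land (Nat.shiftRight (V (nat_lit 14)) (S (nat_lit 54))) (nat_lit 65535))) (Nat.shiftLeft (nat_lit 1) (Nat.land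 (Nat.shiftRight (V (nat_lit 21)) (S (nat_lit 30))) (nat_lit 65535)))) (Nat.add (Nat.shiftLeft (nat_lit 1) (Nat.land (Nat.shiftRight (V (nat_lit 21)) (S (nat_lit 43))) (nat_lit 65535))) (Nat.shiftLeft (nat_lit 1) (Nat.land (Nat.shiftRight (V (nat_lit 21)) (S (nat_lit 47))) (nat_lit 65535))))))) (Nat.add (Nat.add (Nat.add (Nat.shiftLeft (nat_lit 1) (Nat.land (Nat.shiftRight (V (nat_lit 21)) (S (nat_lit 59))) (nat_lit 65535))) (Nat.add (Nat.shiftLeft (nat_lit 1) (Nat.land (Nat.shiftRight (V (nat_lit 27)) (S (nat_lit 8))) (nat_lit 65535))) (Nat.shiftLeft (nat_lit 1) (Nat.land (Nat.shiftRight (V (nat_lit 27)) (S (nat_lit 46))) (nat_lit 65535))))) (Nat.add (Nat.add (Nat.shiftLeft (nat_lit 1) (Nat.land (Nat.shiftRight (V (nat_lit 27)) (S (nat_lit 47))) (nat_lit 65535))) (Nat.shiftLeft (nat_lit 1) (Nat.land (Nat.shiftRight (V (nat_lit 27)) (S (nat_lit 50))) (nat_lit 65535))))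 (Nat.add (Nat.shiftLeft (nat_lit 1) (Nat.land (Nat.shiftRight (V (nat_lit 30)) (S (nat_lit 11))) (nat_lit 65535))) (Nat.shiftLeft (nat_lit 1) (Nat.land (Nat.shiftRight (V (nat_lit 30)) (S (nat_lit 14))) (nat_lit 65535)))))) (Nat.add (Nat.add (Nat.add (Nat.shiftLeft (nat_lit 1) (Nat.land (Nat.shiftRight (V (nat_lit 30)) (S (nat_lit 21))) (nat_lit 65535))) (Nat.shiftLeft (nat_lit 1) (Nat.land (Nat.shiftRight (V (nat_lit 30)) (S (nat_lit 50))) (nat_lit 65535)))) (Nat.add (Nat.shiftLeft (nat_lit 1) (Nat.land (Nat.shiftRight (V (nat_lit 33)) (S (nat_lit 43))) (nat_lit 65535))) (Nat.shiftLeft (nat_lit 1) (Nat.land (Nat.shiftRight (V (nat_lit 33)) (S (nat_lit 46))) (nat_lit 65535))))) (Nat.add (Nat.add (Nat.shiftLeft (nat_lit 1) (Nat.land (Nat.shiftRight (V (nat_lit 33)) (S (nat_lit 54))) (nat_lit 65535))) (Nat.shiftLeft (nat_lit 1) (Nat.land (Nat.shiftRight (V (nat_lit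 33)) (S (nat_lit 59))) (nat_lit 65535)))) (Nat.add (Nat.shiftLeft (nat_lit 1) (Nat.land (Nat.shiftRight (V (nat_lit 36)) (S (nat_lit 8))) (nat_lit 65535))) (Nat.shiftLeft (nat_lit 1) (Nat.land (Nat.shiftRight (V (nat_lit 36)) (S (nat_lit 11))) (nat_lit 65535)))))))) (Nat.add (Nat.add (Nat.add (Nat.add (Nat.shiftLeft (nat_lit 1) (Nat.land (Nat.shiftRight (V (nat_lit 36)) (S (nat_lit 47))) (nat_lit 65535))) (Nat.add (Nat.shiftLeft (nat_lit 1) (Nat.land (Nat.shiftRight (V (nat_lit 36)) (S (nat_lit 59))) (nat_lit 65535))) (Nat.shiftLeft (nat_lit 1) (Nat.land (Nat.shiftRight (V (nat_lit 41)) (S (nat_lit 11))) (nat_lit 65535))))) (Nat.add (Nat.add (Nat.shiftLeft (nat_lit 1) (Nat.land (Nat.shiftRight (V (nat_lit 41)) (S (nat_lit 46))) (nat_lit 65535))) (Nat.shiftLeft (nat_lit 1) (Nat.land (Nat.shiftRight (V (nat_lit 41)) (S (nat_lit 50))) (nat_lit 65535)))) (Nat.add (Nat.shiftLeft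 (nat_lit 1) (Nat.land (Nat.shiftRight (V (nat_lit 41)) (S (nat_lit 59))) (nat_lit 65535))) (Nat.shiftLeft (nat_lit 1) (Nat.land (Nat.shiftRight (V (nat_lit 43)) (S (nat_lit 8))) (nat_lit 65535)))))) (Nat.add (Nat.add (Nat.add (Nat.shiftLeft (nat_lit 1) (Nat.land (Nat.shiftRight (V (nat_lit 43)) (S (nat_lit 21))) (nat_lit 65535))) (Nat.shiftLeft (nat_lit 1) (Nat.land (Nat.shiftRight (V (nat_lit 43)) (S (nat_lit 33))) (nat_lit 65535)))) (Nat.add (Nat.shiftLeft (nat_lit 1) (Nat.land (Nat.shiftRight (V (nat_lit 43)) (S (nat_lit 50))) (nat_lit 65535))) (Nat.shiftLeft (nat_lit 1) (Nat.land (Nat.shiftRight (V (nat_lit 46)) (S (nat_lit 14))) (nat_lit 65535))))) (Nat.add (Nat.add (Nat.shiftLeft (nat_lit 1) (Nat.land (Nat.shiftRight (V (nat_lit 46)) (S (nat_lit 27))) (nat_lit 65535))) (Nat.shiftLeft (nat_lit 1) (Nat.land (Nat.shiftRight (V (nat_lit 46)) (S (nat_lit 33))) (nat_lit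 65535)))) (Nat.add (Nat.shiftLeft (nat_lit 1) (Nat.land (Nat.shiftRight (V (nat_lit 46)) (S (nat_lit 41))) (nat_lit 65535))) (Nat.shiftLeft (nat_lit 1) (Nat.land (Nat.shiftRight (V (nat_lit 47)) (S (nat_lit 14))) (nat_lit 65535))))))) (Nat.add (Nat.add (Nat.add (Nat.shiftLeft (nat_lit 1) (Nat.land (Nat.shiftRight (V (nat_lit 47)) (S (nat_lit 21))) (nat_lit 65535))) (Nat.add (Nat.shiftLeft (nat_lit 1) (Nat.land (Nat.shiftRight (V (nat_lit 47)) (S (nat_lit 27))) (nat_lit 65535))) (Nat.shiftLeft (nat_lit 1) (Nat.land (Nat.shiftRight (V (nat_lit 47)) (S (nat_lit 36))) (nat_lit 65535))))) (Nat.add (Nat.add (Nat.shiftLeft (nat_lit 1) (Nat.land (Nat.shiftRight (V (nat_lit 50)) (S (nat_lit 27))) (nat_lit 65535))) (Nat.shiftLeft (nat_lit 1) (Nat.land (Nat.shiftRight (V (nat_lit 50)) (S (nat_lit 30))) (nat_lit 65535)))) (Nat.add (Nat.shiftLeft (nat_lit 1) (Nat.land (Nat.shiftRight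 (V (nat_lit 50)) (S (nat_lit 41))) (nat_lit 65535))) (Nat.shiftLeft (nat_lit 1) (Nat.land (Nat.shiftRight (V (nat_lit 50)) (S (nat_lit 43))) (nat_lit 65535)))))) (Nat.add (Nat.add (Nat.add (Nat.shiftLeft (nat_lit 1) (Nat.land (Nat.shiftRight (V (nat_lit 54)) (S (nat_lit 8))) (nat_lit 65535))) (Nat.shiftLeft (nat_lit 1) (Nat.land (Nat.shiftRight (V (nat_lit 54)) (S (nat_lit 11))) (nat_lit 65535)))) (Nat.add (Nat.shiftLeft (nat_lit 1) (Nat.land (Nat.shiftRight (V (nat_lit 54)) (S (nat_lit 14))) (nat_lit 65535))) (Nat.shiftLeft (nat_lit 1) (Nat.land (Nat.shiftRight (V (nat_lit 54)) (S (nat_lit 33))) (nat_lit 65535))))) (Nat.add (Nat.add (Nat.shiftLeft (nat_lit 1) (Nat.land (Nat.shiftRight (V (nat_lit 59)) (S (nat_lit 21))) (nat_lit 65535))) (Nat.shiftLeft (nat_lit 1) (Nat.land (Nat.shiftRight (V (nat_lit 59)) (S (nat_lit 33))) (nat_lit 65535)))) (Nat.add (Nat.shiftLeft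 (nat_lit 1) (Nat.land (Nat.shiftRight (V (nat_lit 59)) (S (nat_lit 36))) (nat_lit 65535))) (Nat.shiftLeft (nat_lit 1) (Nat.land (Nat.shiftRight (V (nat_lit 59)) (S (nat_lit 41))) (nat_lit 65535))))))))
def E72_3 (V S : ℕ → ℕ) : ℕ := Nat.add (Nat.add (Nat.add (Nat.shiftLeft (nat_lit 1) (Nat.land (Nat.shiftRight (V (nat_lit 11)) (S (nat_lit 27))) (nat_lit 65535))) (Nat.shiftLeft (nat_lit 1) (Nat.land (Nat.shiftRight (V (nat_lit 11)) (S (nat_lit 43))) (nat_lit 65535)))) (Nat.add (Nat.shiftLeft (nat_lit 1) (Nat.land (Nat.shiftRight (V (nat_lit 14)) (S (nat_lit 43))) (nat_lit 65535))) (Nat.add (Nat.shiftLeft (nat_lit 1) (Nat.land (Nat.shiftRight (V (nat_lit 14)) (S (nat_lit 59))) (nat_lit 65535))) (Nat.shiftLeft (nat_lit 1) (Nat.land (Nat.shiftRight (V (nat_lit 27)) (S (nat_lit 11))) (nat_lit 65535)))))) (Nat.add (Nat.add (Nat.shiftLeft (nat_lit 1) (Nat.land (Nat.shiftRight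 (V (nat_lit 27)) (S (nat_lit 59))) (nat_lit 65535))) (Nat.shiftLeft (nat_lit 1) (Nat.land (Nat.shiftRight (V (nat_lit 43)) (S (nat_lit 11))) (nat_lit 65535)))) (Nat.add (Nat.shiftLeft (nat_lit 1) (Nat.land (Nat.shiftRight (V (nat_lit 43)) (S (nat_lit 14))) (nat_lit 65535))) (Nat.add (Nat.shiftLeft (nat_lit 1) (Nat.land (Nat.shiftRight (V (nat_lit 59)) (S (nat_lit 14))) (nat_lit 65535))) (Nat.shiftLeft (nat_lit 1) (Nat.land (Nat.shiftRight (V (nat_lit 59)) (S (nat_lit 27))) (nat_lit 65535))))))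
def E73_3 (V S : ℕ → ℕ) : ℕ := Nat.add (Nat.add (Nat.add (Nat.shiftLeft (nat_lit 1) (Nat.land (Nat.shiftRight (V (nat_lit 11)) (S (nat_lit 34))) (nat_lit 65535))) (Nat.shiftLeft (nat_lit 1) (Nat.land (Nat.shiftRight (V (nat_lit 14)) (S (nat_lit 58))) (nat_lit 65535)))) (Nat.add (Nat.shiftLeft (nat_lit 1) (Nat.land (Nat.shiftRight (V (nat_lit 26)) (S (nat_lit 59))) (nat_lit 65535))) (Nat.add (Nat.shiftLeft (nat_lit 1) (Nat.land (Nat.shiftRight (V (nat_lit 27)) (S (nat_lit 57))) (nat_lit 65535))) (Nat.shiftLeft (nat_lit 1) (Nat.land (Nat.shiftRight (V (nat_lit 34)) (S (nat_lit 11))) (nat_lit 65535)))))) (Nat.add (Nat.add (Nat.shiftLeft (nat_lit 1) (Nat.land (Nat.shiftRight (V (nat_lit 38)) (S (nat_lit 43))) (nat_lit 65535))) (Nat.shiftLeft (nat_lit 1) (Nat.land (Nat.shiftRight (V (nat_lit 43)) (S (nat_lit 38))) (nat_lit 65535)))) (Nat.add (Nat.shiftLeft (nat_lit 1)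 (Nat.land (Nat.shiftRight (V (nat_lit 57)) (S (nat_lit 27))) (nat_lit 65535))) (Nat.add (Nat.shiftLeft (nat_lit 1) (Nat.land (Nat.shiftRight (V (nat_lit 58)) (S (nat_lit 14))) (nat_lit 65535))) (Nat.shiftLeft (nat_lit 1) (Nat.land (Nat.shiftRight (V (nat_lit 59)) (S (nat_lit 26))) (nat_lit 65535))))))
def E74_3 (V S : ℕ → ℕ) : ℕ := Nat.add (Nat.add (Nat.add (Nat.add (Nat.shiftLeft (nat_lit 1) (Nat.land (Nat.shiftRight (V (nat_lit 8)) (S (nat_lit 21))) (nat_lit 65535))) (Nat.shiftLeft (nat_lit 1) (Nat.land (Nat.shiftRight (V (nat_lit 8)) (S (nat_lit 46))) (nat_lit 65535)))) (Nat.add (Nat.shiftLeft (nat_lit 1) (Nat.land (Nat.shiftRight (V (nat_lit 21)) (S (nat_lit 8))) (nat_lit 65535))) (Nat.add (Nat.shiftLeft (nat_lit 1) (Nat.land (Nat.shiftRight (V (nat_lit 21)) (S (nat_lit 41))) (nat_lit 65535))) (Nat.shiftLeft (nat_lit 1) (Nat.land (Nat.shiftRight (V (nat_lit 30))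 (S (nat_lit 36))) (nat_lit 65535)))))) (Nat.add (Nat.add (Nat.shiftLeft (nat_lit 1) (Nat.land (Nat.shiftRight (V (nat_lit 30)) (S (nat_lit 46))) (nat_lit 65535))) (Nat.shiftLeft (nat_lit 1) (Nat.land (Nat.shiftRight (V (nat_lit 33)) (S (nat_lit 36))) (nat_lit 65535)))) (Nat.add (Nat.shiftLeft (nat_lit 1) (Nat.land (Nat.shiftRight (V (nat_lit 33)) (S (nat_lit 50))) (nat_lit 65535))) (Nat.add (Nat.shiftLeft (nat_lit 1) (Nat.land (Nat.shiftRight (V (nat_lit 36)) (S (nat_lit 30))) (nat_lit 65535))) (Nat.shiftLeft (nat_lit 1) (Nat.land (Nat.shiftRight (V (nat_lit 36)) (S (nat_lit 33))) (nat_lit 65535))))))) (Nat.add (Nat.add (Nat.add (Nat.shiftLeft (nat_lit 1) (Nat.land (Nat.shiftRight (V (nat_lit 41)) (S (nat_lit 21))) (nat_lit 65535))) (Nat.shiftLeft (nat_lit 1) (Nat.land (Nat.shiftRight (V (nat_lit 41)) (S (nat_lit 54))) (nat_lit 65535)))) (Nat.add (Nat.shiftLeft (nat_lit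 1) (Nat.land (Nat.shiftRight (V (nat_lit 46)) (S (nat_lit 8))) (nat_lit 65535))) (Nat.add (Nat.shiftLeft (nat_lit 1) (Nat.land (Nat.shiftRight (V (nat_lit 46)) (S (nat_lit 30))) (nat_lit 65535))) (Nat.shiftLeft (nat_lit 1) (Nat.land (Nat.shiftRight (V (nat_lit 47)) (S (nat_lit 50))) (nat_lit 65535)))))) (Nat.add (Nat.add (Nat.shiftLeft (nat_lit 1) (Nat.land (Nat.shiftRight (V (nat_lit 47)) (S (nat_lit 54))) (nat_lit 65535))) (Nat.shiftLeft (nat_lit 1) (Nat.land (Nat.shiftRight (V (nat_lit 50)) (S (nat_lit 33))) (nat_lit 65535)))) (Nat.add (Nat.shiftLeft (nat_lit 1) (Nat.land (Nat.shiftRight (V (nat_lit 50)) (S (nat_lit 47))) (nat_lit 65535))) (Nat.add (Nat.shiftLeft (nat_lit 1) (Nat.land (Nat.shiftRight (V (nat_lit 54)) (S (nat_lit 41))) (nat_lit 65535))) (Nat.shiftLeft (nat_lit 1) (Nat.land (Nat.shiftRight (V (nat_lit 54)) (S (nat_lit 47))) (nat_lit 65535)))))))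
def E75_3 (V S : ℕ → ℕ) : ℕ := Nat.add (Nat.add (Nat.add (Nat.add (Nat.add (Nat.shiftLeft (nat_lit 1) (Nat.land (Nat.shiftRight (V (nat_lit 8)) (S (nat_lit 34))) (nat_lit 65535))) (Nat.add (Nat.shiftLeft (nat_lit 1) (Nat.land (Nat.shiftRight (V (nat_lit 8)) (S (nat_lit 48))) (nat_lit 65535))) (Nat.shiftLeft (nat_lit 1) (Nat.land (Nat.shiftRight (V (nat_lit 21)) (S (nat_lit 32))) (nat_lit 65535))))) (Nat.add (Nat.shiftLeft (nat_lit 1) (Nat.land (Nat.shiftRight (V (nat_lit 21)) (S (nat_lit 58))) (nat_lit 65535))) (Nat.add (Nat.shiftLeft (nat_lit 1) (Nat.land (Nat.shiftRight (V (nat_lit 26)) (S (nat_lit 45))) (nat_lit 65535))) (Nat.shiftLeft (nat_lit 1) (Nat.land (Nat.shiftRight (V (nat_lit 26)) (S (nat_lit 46))) (nat_lit 65535)))))) (Nat.add (Nat.add (Nat.shiftLeft (nat_lit 1) (Nat.land (Nat.shiftRight (V (nat_lit 26)) (S (nat_lit 47))) (nat_lit 65535))) (Nat.add (Nat.shiftLeft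 (nat_lit 1) (Nat.land (Nat.shiftRight (V (nat_lit 30)) (S (nat_lit 38))) (nat_lit 65535))) (Nat.shiftLeft (nat_lit 1) (Nat.land (Nat.shiftRight (V (nat_lit 30)) (S (nat_lit 48))) (nat_lit 65535))))) (Nat.add (Nat.shiftLeft (nat_lit 1) (Nat.land (Nat.shiftRight (V (nat_lit 32)) (S (nat_lit 21))) (nat_lit 65535))) (Nat.add (Nat.shiftLeft (nat_lit 1) (Nat.land (Nat.shiftRight (V (nat_lit 32)) (S (nat_lit 36))) (nat_lit 65535))) (Nat.shiftLeft (nat_lit 1) (Nat.land (Nat.shiftRight (V (nat_lit 32)) (S (nat_lit 46))) (nat_lit 65535))))))) (Nat.add (Nat.add (Nat.add (Nat.shiftLeft (nat_lit 1) (Nat.land (Nat.shiftRight (V (nat_lit 32)) (S (nat_lit 50))) (nat_lit 65535))) (Nat.add (Nat.shiftLeft (nat_lit 1) (Nat.land (Nat.shiftRight (V (nat_lit 32)) (S (nat_lit 54))) (nat_lit 65535))) (Nat.shiftLeft (nat_lit 1) (Nat.land (Nat.shiftRight (V (nat_lit 33)) (S (nat_lit 48))) (nat_lit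 65535))))) (Nat.add (Nat.shiftLeft (nat_lit 1) (Nat.land (Nat.shiftRight (V (nat_lit 33)) (S (nat_lit 58))) (nat_lit 65535))) (Nat.add (Nat.shiftLeft (nat_lit 1) (Nat.land (Nat.shiftRight (V (nat_lit 34)) (S (nat_lit 8))) (nat_lit 65535))) (Nat.shiftLeft (nat_lit 1) (Nat.land (Nat.shiftRight (V (nat_lit 34)) (S (nat_lit 45))) (nat_lit 65535)))))) (Nat.add (Nat.add (Nat.shiftLeft (nat_lit 1) (Nat.land (Nat.shiftRight (V (nat_lit 34)) (S (nat_lit 50))) (nat_lit 65535))) (Nat.add (Nat.shiftLeft (nat_lit 1) (Nat.land (Nat.shiftRight (V (nat_lit 36)) (S (nat_lit 32))) (nat_lit 65535))) (Nat.shiftLeft (nat_lit 1) (Nat.land (Nat.shiftRight (V (nat_lit 36)) (S (nat_lit 57))) (nat_lit 65535))))) (Nat.add (Nat.add (Nat.shiftLeft (nat_lit 1) (Nat.land (Nat.shiftRight (V (nat_lit 38)) (S (nat_lit 30))) (nat_lit 65535))) (Nat.shiftLeft (nat_lit 1) (Nat.land (Nat.shiftRight (V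 (nat_lit 38)) (S (nat_lit 45))) (nat_lit 65535)))) (Nat.add (Nat.shiftLeft (nat_lit 1) (Nat.land (Nat.shiftRight (V (nat_lit 38)) (S (nat_lit 54))) (nat_lit 65535))) (Nat.shiftLeft (nat_lit 1) (Nat.land (Nat.shiftRight (V (nat_lit 41)) (S (nat_lit 48))) (nat_lit 65535)))))))) (Nat.add (Nat.add (Nat.add (Nat.add (Nat.shiftLeft (nat_lit 1) (Nat.land (Nat.shiftRight (V (nat_lit 41)) (S (nat_lit 57))) (nat_lit 65535))) (Nat.add (Nat.shiftLeft (nat_lit 1) (Nat.land (Nat.shiftRight (V (nat_lit 45)) (S (nat_lit 26))) (nat_lit 65535))) (Nat.shiftLeft (nat_lit 1) (Nat.land (Nat.shiftRight (V (nat_lit 45)) (S (nat_lit 34))) (nat_lit 65535))))) (Nat.add (Nat.shiftLeft (nat_lit 1) (Nat.land (Nat.shiftRight (V (nat_lit 45)) (S (nat_lit 38))) (nat_lit 65535))) (Nat.add (Nat.shiftLeft (nat_lit 1) (Nat.land (Nat.shiftRight (V (nat_lit 45)) (S (nat_lit 57))) (nat_lit 65535))) (Nat.shiftLeft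 (nat_lit 1) (Nat.land (Nat.shiftRight (V (nat_lit 45)) (S (nat_lit 58))) (nat_lit 65535)))))) (Nat.add (Nat.add (Nat.shiftLeft (nat_lit 1) (Nat.land (Nat.shiftRight (V (nat_lit 46)) (S (nat_lit 26))) (nat_lit 65535))) (Nat.add (Nat.shiftLeft (nat_lit 1) (Nat.land (Nat.shiftRight (V (nat_lit 46)) (S (nat_lit 32))) (nat_lit 65535))) (Nat.shiftLeft (nat_lit 1) (Nat.land (Nat.shiftRight (V (nat_lit 47)) (S (nat_lit 26))) (nat_lit 65535))))) (Nat.add (Nat.shiftLeft (nat_lit 1) (Nat.land (Nat.shiftRight (V (nat_lit 47)) (S (nat_lit 48))) (nat_lit 65535))) (Nat.add (Nat.shiftLeft (nat_lit 1) (Nat.land (Nat.shiftRight (V (nat_lit 48)) (S (nat_lit 8))) (nat_lit 65535))) (Nat.shiftLeft (nat_lit 1) (Nat.land (Nat.shiftRight (V (nat_lit 48)) (S (nat_lit 30))) (nat_lit 65535))))))) (Nat.add (Nat.add (Nat.add (Nat.shiftLeft (nat_lit 1) (Nat.land (Nat.shiftRight (V (nat_lit 48))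 (S (nat_lit 33))) (nat_lit 65535))) (Nat.add (Nat.shiftLeft (nat_lit 1) (Nat.land (Nat.shiftRight (V (nat_lit 48)) (S (nat_lit 41))) (nat_lit 65535))) (Nat.shiftLeft (nat_lit 1) (Nat.land (Nat.shiftRight (V (nat_lit 48)) (S (nat_lit 47))) (nat_lit 65535))))) (Nat.add (Nat.shiftLeft (nat_lit 1) (Nat.land (Nat.shiftRight (V (nat_lit 50)) (S (nat_lit 32))) (nat_lit 65535))) (Nat.add (Nat.shiftLeft (nat_lit 1) (Nat.land (Nat.shiftRight (V (nat_lit 50)) (S (nat_lit 34))) (nat_lit 65535))) (Nat.shiftLeft (nat_lit 1) (Nat.land (Nat.shiftRight (V (nat_lit 54)) (S (nat_lit 32))) (nat_lit 65535)))))) (Nat.add (Nat.add (Nat.shiftLeft (nat_lit 1) (Nat.land (Nat.shiftRight (V (nat_lit 54)) (S (nat_lit 38))) (nat_lit 65535))) (Nat.add (Nat.shiftLeft (nat_lit 1) (Nat.land (Nat.shiftRight (V (nat_lit 57)) (S (nat_lit 36))) (nat_lit 65535))) (Nat.shiftLeft (nat_lit 1) (Nat.land (Nat.shiftRight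 (V (nat_lit 57)) (S (nat_lit 41))) (nat_lit 65535))))) (Nat.add (Nat.add (Nat.shiftLeft (nat_lit 1) (Nat.land (Nat.shiftRight (V (nat_lit 57)) (S (nat_lit 45))) (nat_lit 65535))) (Nat.shiftLeft (nat_lit 1) (Nat.land (Nat.shiftRight (V (nat_lit 58)) (S (nat_lit 21))) (nat_lit 65535)))) (Nat.add (Nat.shiftLeft (nat_lit 1) (Nat.land (Nat.shiftRight (V (nat_lit 58)) (S (nat_lit 33))) (nat_lit 65535))) (Nat.shiftLeft (nat_lit 1) (Nat.land (Nat.shiftRight (V (nat_lit 58)) (S (nat_lit 45))) (nat_lit 65535))))))))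
def E76_3 (V S : ℕ → ℕ) : ℕ := Nat.add (Nat.add (Nat.add (Nat.shiftLeft (nat_lit 1) (Nat.land (Nat.shiftRight (V (nat_lit 26)) (S (nat_lit 57))) (nat_lit 65535))) (Nat.shiftLeft (nat_lit 1) (Nat.land (Nat.shiftRight (V (nat_lit 26)) (S (nat_lit 58))) (nat_lit 65535)))) (Nat.add (Nat.shiftLeft (nat_lit 1) (Nat.land (Nat.shiftRight (V (nat_lit 34)) (S (nat_lit 38))) (nat_lit 65535))) (Nat.add (Nat.shiftLeft (nat_lit 1) (Nat.land (Nat.shiftRight (V (nat_lit 34)) (S (nat_lit 57))) (nat_lit 65535))) (Nat.shiftLeft (nat_lit 1) (Nat.land (Nat.shiftRight (V (nat_lit 38)) (S (nat_lit 34))) (nat_lit 65535)))))) (Nat.add (Nat.add (Nat.shiftLeft (nat_lit 1) (Nat.land (Nat.shiftRight (V (nat_lit 38)) (S (nat_lit 58))) (nat_lit 65535))) (Nat.shiftLeft (nat_lit 1) (Nat.land (Nat.shiftRight (V (nat_lit 57)) (S (nat_lit 26))) (nat_lit 65535)))) (Nat.add (Nat.shiftLeft (nat_lit 1)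 (Nat.land (Nat.shiftRight (V (nat_lit 57)) (S (nat_lit 34))) (nat_lit 65535))) (Nat.add (Nat.shiftLeft (nat_lit 1) (Nat.land (Nat.shiftRight (V (nat_lit 58)) (S (nat_lit 26))) (nat_lit 65535))) (Nat.shiftLeft (nat_lit 1) (Nat.land (Nat.shiftRight (V (nat_lit 58)) (S (nat_lit 38))) (nat_lit 65535))))))
def E77_3 (V S : ℕ → ℕ) : ℕ := Nat.add (Nat.add (Nat.shiftLeft (nat_lit 1) (Nat.land (Nat.shiftRight (V (nat_lit 32)) (S (nat_lit 45))) (nat_lit 65535))) (Nat.add (Nat.shiftLeft (nat_lit 1) (Nat.land (Nat.shiftRight (V (nat_lit 32)) (S (nat_lit 48))) (nat_lit 65535))) (Nat.shiftLeft (nat_lit 1) (Nat.land (Nat.shiftRight (V (nat_lit 45)) (S (nat_lit 32))) (nat_lit 65535))))) (Nat.add (Nat.shiftLeft (nat_lit 1) (Nat.land (Nat.shiftRight (V (nat_lit 45)) (S (nat_lit 48))) (nat_lit 65535))) (Nat.add (Nat.shiftLeft (nat_lit 1) (Nat.land (Nat.shiftRight (V (nat_lit 48)) (S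 (nat_lit 32))) (nat_lit 65535))) (Nat.shiftLeft (nat_lit 1) (Nat.land (Nat.shiftRight (V (nat_lit 48)) (S (nat_lit 45))) (nat_lit 65535)))))
def E78_3 (V S : ℕ → ℕ) : ℕ := Nat.add (Nat.add (Nat.add (Nat.add (Nat.add (Nat.shiftLeft (nat_lit 1) (Nat.land (Nat.shiftRight (V (nat_lit 3)) (S (nat_lit 27))) (nat_lit 65535))) (Nat.shiftLeft (nat_lit 1) (Nat.land (Nat.shiftRight (V (nat_lit 3)) (S (nat_lit 43))) (nat_lit 65535)))) (Nat.add (Nat.shiftLeft (nat_lit 1) (Nat.land (Nat.shiftRight (V (nat_lit 5)) (S (nat_lit 11))) (nat_lit 65535))) (Nat.add (Nat.shiftLeft (nat_lit 1) (Nat.land (Nat.shiftRight (V (nat_lit 5)) (S (nat_lit 14))) (nat_lit 65535))) (Nat.shiftLeft (nat_lit 1) (Nat.land (Nat.shiftRight (V (nat_lit 7)) (S (nat_lit 11))) (nat_lit 65535)))))) (Nat.add (Nat.add (Nat.shiftLeft (nat_lit 1) (Nat.land (Nat.shiftRight (V (nat_lit 7)) (S (nat_lit 59))) (nat_lit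 65535))) (Nat.shiftLeft (nat_lit 1) (Nat.land (Nat.shiftRight (V (nat_lit 11)) (S (nat_lit 5))) (nat_lit 65535)))) (Nat.add (Nat.shiftLeft (nat_lit 1) (Nat.land (Nat.shiftRight (V (nat_lit 11)) (S (nat_lit 7))) (nat_lit 65535))) (Nat.add (Nat.shiftLeft (nat_lit 1) (Nat.land (Nat.shiftRight (V (nat_lit 11)) (S (nat_lit 13))) (nat_lit 65535))) (Nat.shiftLeft (nat_lit 1) (Nat.land (Nat.shiftRight (V (nat_lit 11)) (S (nat_lit 53))) (nat_lit 65535))))))) (Nat.add (Nat.add (Nat.add (Nat.shiftLeft (nat_lit 1) (Nat.land (Nat.shiftRight (V (nat_lit 12)) (S (nat_lit 14))) (nat_lit 65535))) (Nat.shiftLeft (nat_lit 1) (Nat.land (Nat.shiftRight (V (nat_lit 12)) (S (nat_lit 27))) (nat_lit 65535)))) (Nat.add (Nat.shiftLeft (nat_lit 1) (Nat.land (Nat.shiftRight (V (nat_lit 13)) (S (nat_lit 11))) (nat_lit 65535))) (Nat.add (Nat.shiftLeft (nat_lit 1) (Nat.land (Nat.shiftRight (V (nat_lit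 13)) (S (nat_lit 14))) (nat_lit 65535))) (Nat.shiftLeft (nat_lit 1) (Nat.land (Nat.shiftRight (V (nat_lit 14)) (S (nat_lit 5))) (nat_lit 65535)))))) (Nat.add (Nat.add (Nat.shiftLeft (nat_lit 1) (Nat.land (Nat.shiftRight (V (nat_lit 14)) (S (nat_lit 12))) (nat_lit 65535))) (Nat.shiftLeft (nat_lit 1) (Nat.land (Nat.shiftRight (V (nat_lit 14)) (S (nat_lit 13))) (nat_lit 65535)))) (Nat.add (Nat.shiftLeft (nat_lit 1) (Nat.land (Nat.shiftRight (V (nat_lit 14)) (S (nat_lit 29))) (nat_lit 65535))) (Nat.add (Nat.shiftLeft (nat_lit 1) (Nat.land (Nat.shiftRight (V (nat_lit 19)) (S (nat_lit 43))) (nat_lit 65535))) (Nat.shiftLeft (nat_lit 1) (Nat.land (Nat.shiftRight (V (nat_lit 19)) (S (nat_lit 59))) (nat_lit 65535)))))))) (Nat.add (Nat.add (Nat.add (Nat.add (Nat.shiftLeft (nat_lit 1) (Nat.land (Nat.shiftRight (V (nat_lit 27)) (S (nat_lit 3))) (nat_lit 65535))) (Nat.shiftLeft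 (nat_lit 1) (Nat.land (Nat.shiftRight (V (nat_lit 27)) (S (nat_lit 12))) (nat_lit 65535)))) (Nat.add (Nat.shiftLeft (nat_lit 1) (Nat.land (Nat.shiftRight (V (nat_lit 27)) (S (nat_lit 28))) (nat_lit 65535))) (Nat.add (Nat.shiftLeft (nat_lit 1) (Nat.land (Nat.shiftRight (V (nat_lit 27)) (S (nat_lit 29))) (nat_lit 65535))) (Nat.shiftLeft (nat_lit 1) (Nat.land (Nat.shiftRight (V (nat_lit 28)) (S (nat_lit 27))) (nat_lit 65535)))))) (Nat.add (Nat.add (Nat.shiftLeft (nat_lit 1) (Nat.land (Nat.shiftRight (V (nat_lit 28)) (S (nat_lit 43))) (nat_lit 65535))) (Nat.shiftLeft (nat_lit 1) (Nat.land (Nat.shiftRight (V (nat_lit 29)) (S (nat_lit 14))) (nat_lit 65535)))) (Nat.add (Nat.shiftLeft (nat_lit 1) (Nat.land (Nat.shiftRight (V (nat_lit 29)) (S (nat_lit 27))) (nat_lit 65535))) (Nat.add (Nat.shiftLeft (nat_lit 1) (Nat.land (Nat.shiftRight (V (nat_lit 43)) (S (nat_lit 3))) (nat_lit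 65535))) (Nat.shiftLeft (nat_lit 1) (Nat.land (Nat.shiftRight (V (nat_lit 43)) (S (nat_lit 19))) (nat_lit 65535))))))) (Nat.add (Nat.add (Nat.add (Nat.shiftLeft (nat_lit 1) (Nat.land (Nat.shiftRight (V (nat_lit 43)) (S (nat_lit 28))) (nat_lit 65535))) (Nat.shiftLeft (nat_lit 1) (Nat.land (Nat.shiftRight (V (nat_lit 43)) (S (nat_lit 55))) (nat_lit 65535)))) (Nat.add (Nat.shiftLeft (nat_lit 1) (Nat.land (Nat.shiftRight (V (nat_lit 53)) (S (nat_lit 11))) (nat_lit 65535))) (Nat.add (Nat.shiftLeft (nat_lit 1) (Nat.land (Nat.shiftRight (V (nat_lit 53)) (S (nat_lit 59))) (nat_lit 65535))) (Nat.shiftLeft (nat_lit 1) (Nat.land (Nat.shiftRight (V (nat_lit 55)) (S (nat_lit 43))) (nat_lit 65535)))))) (Nat.add (Nat.add (Nat.shiftLeft (nat_lit 1) (Nat.land (Nat.shiftRight (V (nat_lit 55)) (S (nat_lit 59))) (nat_lit 65535))) (Nat.shiftLeft (nat_lit 1) (Nat.land (Nat.shiftRight (V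 (nat_lit 59)) (S (nat_lit 7))) (nat_lit 65535)))) (Nat.add (Nat.shiftLeft (nat_lit 1) (Nat.land (Nat.shiftRight (V (nat_lit 59)) (S (nat_lit 19))) (nat_lit 65535))) (Nat.add (Nat.shiftLeft (nat_lit 1) (Nat.land (Nat.shiftRight (V (nat_lit 59)) (S (nat_lit 53))) (nat_lit 65535))) (Nat.shiftLeft (nat_lit 1) (Nat.land (Nat.shiftRight (V (nat_lit 59)) (S (nat_lit 55))) (nat_lit 65535))))))))
def E79_3 (V S : ℕ → ℕ) : ℕ := Nat.add (Nat.add (Nat.add (Nat.add (Nat.add (Nat.shiftLeft (nat_lit 1) (Nat.land (Nat.shiftRight (V (nat_lit 1)) (S (nat_lit 5))) (nat_lit 65535))) (Nat.shiftLeft (nat_lit 1) (Nat.land (Nat.shiftRight (V (nat_lit 1)) (S (nat_lit 12))) (nat_lit 65535)))) (Nat.add (Nat.shiftLeft (nat_lit 1) (Nat.land (Nat.shiftRight (V (nat_lit 1)) (S (nat_lit 13))) (nat_lit 65535))) (Nat.add (Nat.shiftLeft (nat_lit 1) (Nat.land (Nat.shiftRight (V (nat_lit 1)) (S (nat_lit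 29))) (nat_lit 65535))) (Nat.shiftLeft (nat_lit 1) (Nat.land (Nat.shiftRight (V (nat_lit 3)) (S (nat_lit 15))) (nat_lit 65535)))))) (Nat.add (Nat.add (Nat.shiftLeft (nat_lit 1) (Nat.land (Nat.shiftRight (V (nat_lit 3)) (S (nat_lit 40))) (nat_lit 65535))) (Nat.shiftLeft (nat_lit 1) (Nat.land (Nat.shiftRight (V (nat_lit 4)) (S (nat_lit 7))) (nat_lit 65535)))) (Nat.add (Nat.shiftLeft (nat_lit 1) (Nat.land (Nat.shiftRight (V (nat_lit 4)) (S (nat_lit 19))) (nat_lit 65535))) (Nat.add (Nat.shiftLeft (nat_lit 1) (Nat.land (Nat.shiftRight (V (nat_lit 4)) (S (nat_lit 53))) (nat_lit 65535))) (Nat.shiftLeft (nat_lit 1) (Nat.land (Nat.shiftRight (V (nat_lit 4)) (S (nat_lit 55))) (nat_lit 65535))))))) (Nat.add (Nat.add (Nat.add (Nat.shiftLeft (nat_lit 1) (Nat.land (Nat.shiftRight (V (nat_lit 5)) (S (nat_lit 1))) (nat_lit 65535))) (Nat.shiftLeft (nat_lit 1) (Nat.land (Nat.shiftRight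 (V (nat_lit 5)) (S (nat_lit 22))) (nat_lit 65535)))) (Nat.add (Nat.shiftLeft (nat_lit 1) (Nat.land (Nat.shiftRight (V (nat_lit 7)) (S (nat_lit 4))) (nat_lit 65535))) (Nat.add (Nat.shiftLeft (nat_lit 1) (Nat.land (Nat.shiftRight (V (nat_lit 7)) (S (nat_lit 22))) (nat_lit 65535))) (Nat.shiftLeft (nat_lit 1) (Nat.land (Nat.shiftRight (V (nat_lit 12)) (S (nat_lit 1))) (nat_lit 65535)))))) (Nat.add (Nat.add (Nat.shiftLeft (nat_lit 1) (Nat.land (Nat.shiftRight (V (nat_lit 12)) (S (nat_lit 15))) (nat_lit 65535))) (Nat.shiftLeft (nat_lit 1) (Nat.land (Nat.shiftRight (V (nat_lit 13)) (S (nat_lit 1))) (nat_lit 65535)))) (Nat.add (Nat.shiftLeft (nat_lit 1) (Nat.land (Nat.shiftRight (V (nat_lit 13)) (S (nat_lit 22))) (nat_lit 65535))) (Nat.add (Nat.shiftLeft (nat_lit 1) (Nat.land (Nat.shiftRight (V (nat_lit 15)) (S (nat_lit 3))) (nat_lit 65535))) (Nat.shiftLeft (nat_lit 1) (Nat.land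 (Nat.shiftRight (V (nat_lit 15)) (S (nat_lit 12))) (nat_lit 65535)))))))) (Nat.add (Nat.add (Nat.add (Nat.add (Nat.shiftLeft (nat_lit 1) (Nat.land (Nat.shiftRight (V (nat_lit 15)) (S (nat_lit 28))) (nat_lit 65535))) (Nat.shiftLeft (nat_lit 1) (Nat.land (Nat.shiftRight (V (nat_lit 15)) (S (nat_lit 29))) (nat_lit 65535)))) (Nat.add (Nat.shiftLeft (nat_lit 1) (Nat.land (Nat.shiftRight (V (nat_lit 19)) (S (nat_lit 4))) (nat_lit 65535))) (Nat.add (Nat.shiftLeft (nat_lit 1) (Nat.land (Nat.shiftRight (V (nat_lit 19)) (S (nat_lit 40))) (nat_lit 65535))) (Nat.shiftLeft (nat_lit 1) (Nat.land (Nat.shiftRight (V (nat_lit 22)) (S (nat_lit 5))) (nat_lit 65535)))))) (Nat.add (Nat.add (Nat.shiftLeft (nat_lit 1) (Nat.land (Nat.shiftRight (V (nat_lit 22)) (S (nat_lit 7))) (nat_lit 65535))) (Nat.shiftLeft (nat_lit 1) (Nat.land (Nat.shiftRight (V (nat_lit 22)) (S (nat_lit 13))) (nat_lit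 65535)))) (Nat.add (Nat.shiftLeft (nat_lit 1) (Nat.land (Nat.shiftRight (V (nat_lit 22)) (S (nat_lit 53))) (nat_lit 65535))) (Nat.add (Nat.shiftLeft (nat_lit 1) (Nat.land (Nat.shiftRight (V (nat_lit 28)) (S (nat_lit 15))) (nat_lit 65535))) (Nat.shiftLeft (nat_lit 1) (Nat.land (Nat.shiftRight (V (nat_lit 28)) (S (nat_lit 40))) (nat_lit 65535))))))) (Nat.add (Nat.add (Nat.add (Nat.shiftLeft (nat_lit 1) (Nat.land (Nat.shiftRight (V (nat_lit 29)) (S (nat_lit 1))) (nat_lit 65535))) (Nat.shiftLeft (nat_lit 1) (Nat.land (Nat.shiftRight (V (nat_lit 29)) (S (nat_lit 15))) (nat_lit 65535)))) (Nat.add (Nat.shiftLeft (nat_lit 1) (Nat.land (Nat.shiftRight (V (nat_lit 40)) (S (nat_lit 3))) (nat_lit 65535))) (Nat.add (Nat.shiftLeft (nat_lit 1) (Nat.land (Nat.shiftRight (V (nat_lit 40)) (S (nat_lit 19))) (nat_lit 65535))) (Nat.shiftLeft (nat_lit 1) (Nat.land (Nat.shiftRight (V (nat_lit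 40)) (S (nat_lit 28))) (nat_lit 65535)))))) (Nat.add (Nat.add (Nat.shiftLeft (nat_lit 1) (Nat.land (Nat.shiftRight (V (nat_lit 40)) (S (nat_lit 55))) (nat_lit 65535))) (Nat.shiftLeft (nat_lit 1) (Nat.land (Nat.shiftRight (V (nat_lit 53)) (S (nat_lit 4))) (nat_lit 65535)))) (Nat.add (Nat.shiftLeft (nat_lit 1) (Nat.land (Nat.shiftRight (V (nat_lit 53)) (S (nat_lit 22))) (nat_lit 65535))) (Nat.add (Nat.shiftLeft (nat_lit 1) (Nat.land (Nat.shiftRight (V (nat_lit 55)) (S (nat_lit 4))) (nat_lit 65535))) (Nat.shiftLeft (nat_lit 1) (Nat.land (Nat.shiftRight (V (nat_lit 55)) (S (nat_lit 40))) (nat_lit 65535))))))))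
def E80_3 (V S : ℕ → ℕ) : ℕ := Nat.add (Nat.add (Nat.add (Nat.add (Nat.add (Nat.shiftLeft (nat_lit 1) (Nat.land (Nat.shiftRight (V (nat_lit 1)) (S (nat_lit 3))) (nat_lit 65535))) (Nat.shiftLeft (nat_lit 1) (Nat.land (Nat.shiftRight (V (nat_lit 1)) (S (nat_lit 7))) (nat_lit 65535)))) (Nat.add (Nat.shiftLeft (nat_lit 1) (Nat.land (Nat.shiftRight (V (nat_lit 1)) (S (nat_lit 28))) (nat_lit 65535))) (Nat.add (Nat.shiftLeft (nat_lit 1) (Nat.land (Nat.shiftRight (V (nat_lit 1)) (S (nat_lit 53))) (nat_lit 65535))) (Nat.shiftLeft (nat_lit 1) (Nat.land (Nat.shiftRight (V (nat_lit 3)) (S (nat_lit 1))) (nat_lit 65535)))))) (Nat.add (Nat.add (Nat.shiftLeft (nat_lit 1) (Nat.land (Nat.shiftRight (V (nat_lit 3)) (S (nat_lit 4))) (nat_lit 65535))) (Nat.shiftLeft (nat_lit 1) (Nat.land (Nat.shiftRight (V (nat_lit 4)) (S (nat_lit 3))) (nat_lit 65535)))) (Nat.add (Nat.shiftLeft (nat_lit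 1) (Nat.land (Nat.shiftRight (V (nat_lit 4)) (S (nat_lit 5))) (nat_lit 65535))) (Nat.add (Nat.shiftLeft (nat_lit 1) (Nat.land (Nat.shiftRight (V (nat_lit 4)) (S (nat_lit 13))) (nat_lit 65535))) (Nat.shiftLeft (nat_lit 1) (Nat.land (Nat.shiftRight (V (nat_lit 4)) (S (nat_lit 28))) (nat_lit 65535))))))) (Nat.add (Nat.add (Nat.add (Nat.shiftLeft (nat_lit 1) (Nat.land (Nat.shiftRight (V (nat_lit 5)) (S (nat_lit 4))) (nat_lit 65535))) (Nat.shiftLeft (nat_lit 1) (Nat.land (Nat.shiftRight (V (nat_lit 5)) (S (nat_lit 15))) (nat_lit 65535)))) (Nat.add (Nat.shiftLeft (nat_lit 1) (Nat.land (Nat.shiftRight (V (nat_lit 7)) (S (nat_lit 1))) (nat_lit 65535))) (Nat.add (Nat.shiftLeft (nat_lit 1) (Nat.land (Nat.shiftRight (V (nat_lit 7)) (S (nat_lit 40))) (nat_lit 65535))) (Nat.shiftLeft (nat_lit 1) (Nat.land (Nat.shiftRight (V (nat_lit 12)) (S (nat_lit 22))) (nat_lit 65535))))))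 (Nat.add (Nat.add (Nat.shiftLeft (nat_lit 1) (Nat.land (Nat.shiftRight (V (nat_lit 12)) (S (nat_lit 40))) (nat_lit 65535))) (Nat.shiftLeft (nat_lit 1) (Nat.land (Nat.shiftRight (V (nat_lit 13)) (S (nat_lit 4))) (nat_lit 65535)))) (Nat.add (Nat.shiftLeft (nat_lit 1) (Nat.land (Nat.shiftRight (V (nat_lit 13)) (S (nat_lit 15))) (nat_lit 65535))) (Nat.add (Nat.shiftLeft (nat_lit 1) (Nat.land (Nat.shiftRight (V (nat_lit 15)) (S (nat_lit 5))) (nat_lit 65535))) (Nat.shiftLeft (nat_lit 1) (Nat.land (Nat.shiftRight (V (nat_lit 15)) (S (nat_lit 13))) (nat_lit 65535)))))))) (Nat.add (Nat.add (Nat.add (Nat.add (Nat.shiftLeft (nat_lit 1) (Nat.land (Nat.shiftRight (V (nat_lit 15)) (S (nat_lit 19))) (nat_lit 65535))) (Nat.shiftLeft (nat_lit 1) (Nat.land (Nat.shiftRight (V (nat_lit 15)) (S (nat_lit 55))) (nat_lit 65535)))) (Nat.add (Nat.shiftLeft (nat_lit 1) (Nat.land (Nat.shiftRight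 (V (nat_lit 19)) (S (nat_lit 15))) (nat_lit 65535))) (Nat.add (Nat.shiftLeft (nat_lit 1) (Nat.land (Nat.shiftRight (V (nat_lit 19)) (S (nat_lit 22))) (nat_lit 65535))) (Nat.shiftLeft (nat_lit 1) (Nat.land (Nat.shiftRight (V (nat_lit 22)) (S (nat_lit 12))) (nat_lit 65535)))))) (Nat.add (Nat.add (Nat.shiftLeft (nat_lit 1) (Nat.land (Nat.shiftRight (V (nat_lit 22)) (S (nat_lit 19))) (nat_lit 65535))) (Nat.shiftLeft (nat_lit 1) (Nat.land (Nat.shiftRight (V (nat_lit 22)) (S (nat_lit 29))) (nat_lit 65535)))) (Nat.add (Nat.shiftLeft (nat_lit 1) (Nat.land (Nat.shiftRight (V (nat_lit 22)) (S (nat_lit 55))) (nat_lit 65535))) (Nat.add (Nat.shiftLeft (nat_lit 1) (Nat.land (Nat.shiftRight (V (nat_lit 28)) (S (nat_lit 1))) (nat_lit 65535))) (Nat.shiftLeft (nat_lit 1) (Nat.land (Nat.shiftRight (V (nat_lit 28)) (S (nat_lit 4))) (nat_lit 65535))))))) (Nat.add (Nat.add (Nat.add (Nat.shiftLeft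 (nat_lit 1) (Nat.land (Nat.shiftRight (V (nat_lit 29)) (S (nat_lit 22))) (nat_lit 65535))) (Nat.shiftLeft (nat_lit 1) (Nat.land (Nat.shiftRight (V (nat_lit 29)) (S (nat_lit 40))) (nat_lit 65535)))) (Nat.add (Nat.shiftLeft (nat_lit 1) (Nat.land (Nat.shiftRight (V (nat_lit 40)) (S (nat_lit 7))) (nat_lit 65535))) (Nat.add (Nat.shiftLeft (nat_lit 1) (Nat.land (Nat.shiftRight (V (nat_lit 40)) (S (nat_lit 12))) (nat_lit 65535))) (Nat.shiftLeft (nat_lit 1) (Nat.land (Nat.shiftRight (V (nat_lit 40)) (S (nat_lit 29))) (nat_lit 65535)))))) (Nat.add (Nat.add (Nat.shiftLeft (nat_lit 1) (Nat.land (Nat.shiftRight (V (nat_lit 40)) (S (nat_lit 53))) (nat_lit 65535))) (Nat.shiftLeft (nat_lit 1) (Nat.land (Nat.shiftRight (V (nat_lit 53)) (S (nat_lit 1))) (nat_lit 65535)))) (Nat.add (Nat.shiftLeft (nat_lit 1) (Nat.land (Nat.shiftRight (V (nat_lit 53)) (S (nat_lit 40))) (nat_lit 65535)))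 (Nat.add (Nat.shiftLeft (nat_lit 1) (Nat.land (Nat.shiftRight (V (nat_lit 55)) (S (nat_lit 15))) (nat_lit 65535))) (Nat.shiftLeft (nat_lit 1) (Nat.land (Nat.shiftRight (V (nat_lit 55)) (S (nat_lit 22))) (nat_lit 65535))))))))
def E81_3 (V S : ℕ → ℕ) : ℕ := Nat.add (Nat.add (Nat.add (Nat.add (Nat.add (Nat.add (Nat.shiftLeft (nat_lit 1) (Nat.land (Nat.shiftRight (V (nat_lit 1)) (S (nat_lit 6))) (nat_lit 65535))) (Nat.shiftLeft (nat_lit 1) (Nat.land (Nat.shiftRight (V (nat_lit 1)) (S (nat_lit 31))) (nat_lit 65535)))) (Nat.add (Nat.shiftLeft (nat_lit 1) (Nat.land (Nat.shiftRight (V (nat_lit 1)) (S (nat_lit 52))) (nat_lit 65535))) (Nat.add (Nat.shiftLeft (nat_lit 1) (Nat.land (Nat.shiftRight (V (nat_lit 1)) (S (nat_lit 56))) (nat_lit 65535))) (Nat.shiftLeft (nat_lit 1) (Nat.land (Nat.shiftRight (V (nat_lit 2)) (S (nat_lit 3))) (nat_lit 65535)))))) (Nat.add (Nat.add (Nat.shiftLeft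 (nat_lit 1) (Nat.land (Nat.shiftRight (V (nat_lit 2)) (S (nat_lit 4))) (nat_lit 65535))) (Nat.shiftLeft (nat_lit 1) (Nat.land (Nat.shiftRight (V (nat_lit 2)) (S (nat_lit 40))) (nat_lit 65535)))) (Nat.add (Nat.shiftLeft (nat_lit 1) (Nat.land (Nat.shiftRight (V (nat_lit 2)) (S (nat_lit 53))) (nat_lit 65535))) (Nat.add (Nat.shiftLeft (nat_lit 1) (Nat.land (Nat.shiftRight (V (nat_lit 3)) (S (nat_lit 2))) (nat_lit 65535))) (Nat.shiftLeft (nat_lit 1) (Nat.land (Nat.shiftRight (V (nat_lit 3)) (S (nat_lit 6))) (nat_lit 65535))))))) (Nat.add (Nat.add (Nat.add (Nat.shiftLeft (nat_lit 1) (Nat.land (Nat.shiftRight (V (nat_lit 4)) (S (nat_lit 2))) (nat_lit 65535))) (Nat.shiftLeft (nat_lit 1) (Nat.land (Nat.shiftRight (V (nat_lit 4)) (S (nat_lit 17))) (nat_lit 65535)))) (Nat.add (Nat.shiftLeft (nat_lit 1) (Nat.land (Nat.shiftRight (V (nat_lit 4)) (S (nat_lit 24))) (nat_lit 65535)))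 (Nat.add (Nat.shiftLeft (nat_lit 1) (Nat.land (Nat.shiftRight (V (nat_lit 4)) (S (nat_lit 25))) (nat_lit 65535))) (Nat.shiftLeft (nat_lit 1) (Nat.land (Nat.shiftRight (V (nat_lit 5)) (S (nat_lit 17))) (nat_lit 65535)))))) (Nat.add (Nat.add (Nat.shiftLeft (nat_lit 1) (Nat.land (Nat.shiftRight (V (nat_lit 5)) (S (nat_lit 56))) (nat_lit 65535))) (Nat.shiftLeft (nat_lit 1) (Nat.land (Nat.shiftRight (V (nat_lit 6)) (S (nat_lit 1))) (nat_lit 65535)))) (Nat.add (Nat.shiftLeft (nat_lit 1) (Nat.land (Nat.shiftRight (V (nat_lit 6)) (S (nat_lit 3))) (nat_lit 65535))) (Nat.add (Nat.shiftLeft (nat_lit 1) (Nat.land (Nat.shiftRight (V (nat_lit 6)) (S (nat_lit 13))) (nat_lit 65535))) (Nat.shiftLeft (nat_lit 1) (Nat.land (Nat.shiftRight (V (nat_lit 6)) (S (nat_lit 15))) (nat_lit 65535)))))))) (Nat.add (Nat.add (Nat.add (Nat.add (Nat.shiftLeft (nat_lit 1) (Nat.land (Nat.shiftRight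 (V (nat_lit 7)) (S (nat_lit 25))) (nat_lit 65535))) (Nat.shiftLeft (nat_lit 1) (Nat.land (Nat.shiftRight (V (nat_lit 7)) (S (nat_lit 31))) (nat_lit 65535)))) (Nat.add (Nat.shiftLeft (nat_lit 1) (Nat.land (Nat.shiftRight (V (nat_lit 12)) (S (nat_lit 49))) (nat_lit 65535))) (Nat.add (Nat.shiftLeft (nat_lit 1) (Nat.land (Nat.shiftRight (V (nat_lit 12)) (S (nat_lit 52))) (nat_lit 65535))) (Nat.shiftLeft (nat_lit 1) (Nat.land (Nat.shiftRight (V (nat_lit 13)) (S (nat_lit 6))) (nat_lit 65535)))))) (Nat.add (Nat.add (Nat.shiftLeft (nat_lit 1) (Nat.land (Nat.shiftRight (V (nat_lit 13)) (S (nat_lit 24))) (nat_lit 65535))) (Nat.shiftLeft (nat_lit 1) (Nat.land (Nat.shiftRight (V (nat_lit 15)) (S (nat_lit 6))) (nat_lit 65535)))) (Nat.add (Nat.shiftLeft (nat_lit 1) (Nat.land (Nat.shiftRight (V (nat_lit 15)) (S (nat_lit 20))) (nat_lit 65535))) (Nat.add (Nat.shiftLeft (nat_lit 1)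 (Nat.land (Nat.shiftRight (V (nat_lit 15)) (S (nat_lit 49))) (nat_lit 65535))) (Nat.shiftLeft (nat_lit 1) (Nat.land (Nat.shiftRight (V (nat_lit 15)) (S (nat_lit 56))) (nat_lit 65535))))))) (Nat.add (Nat.add (Nat.add (Nat.shiftLeft (nat_lit 1) (Nat.land (Nat.shiftRight (V (nat_lit 17)) (S (nat_lit 4))) (nat_lit 65535))) (Nat.shiftLeft (nat_lit 1) (Nat.land (Nat.shiftRight (V (nat_lit 17)) (S (nat_lit 5))) (nat_lit 65535)))) (Nat.add (Nat.shiftLeft (nat_lit 1) (Nat.land (Nat.shiftRight (V (nat_lit 17)) (S (nat_lit 19))) (nat_lit 65535))) (Nat.add (Nat.shiftLeft (nat_lit 1) (Nat.land (Nat.shiftRight (V (nat_lit 17)) (S (nat_lit 22))) (nat_lit 65535))) (Nat.shiftLeft (nat_lit 1) (Nat.land (Nat.shiftRight (V (nat_lit 19)) (S (nat_lit 17))) (nat_lit 65535)))))) (Nat.add (Nat.add (Nat.shiftLeft (nat_lit 1) (Nat.land (Nat.shiftRight (V (nat_lit 19)) (S (nat_lit 20))) (nat_lit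 65535))) (Nat.shiftLeft (nat_lit 1) (Nat.land (Nat.shiftRight (V (nat_lit 20)) (S (nat_lit 15))) (nat_lit 65535)))) (Nat.add (Nat.shiftLeft (nat_lit 1) (Nat.land (Nat.shiftRight (V (nat_lit 20)) (S (nat_lit 19))) (nat_lit 65535))) (Nat.add (Nat.shiftLeft (nat_lit 1) (Nat.land (Nat.shiftRight (V (nat_lit 20)) (S (nat_lit 29))) (nat_lit 65535))) (Nat.shiftLeft (nat_lit 1) (Nat.land (Nat.shiftRight (V (nat_lit 20)) (S (nat_lit 40))) (nat_lit 65535))))))))) (Nat.add (Nat.add (Nat.add (Nat.add (Nat.add (Nat.shiftLeft (nat_lit 1) (Nat.land (Nat.shiftRight (V (nat_lit 22)) (S (nat_lit 17))) (nat_lit 65535))) (Nat.shiftLeft (nat_lit 1) (Nat.land (Nat.shiftRight (V (nat_lit 22)) (S (nat_lit 24))) (nat_lit 65535)))) (Nat.add (Nat.shiftLeft (nat_lit 1) (Nat.land (Nat.shiftRight (V (nat_lit 22)) (S (nat_lit 31))) (nat_lit 65535))) (Nat.add (Nat.shiftLeft (nat_lit 1) (Nat.land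 (Nat.shiftRight (V (nat_lit 22)) (S (nat_lit 52))) (nat_lit 65535))) (Nat.shiftLeft (nat_lit 1) (Nat.land (Nat.shiftRight (V (nat_lit 24)) (S (nat_lit 4))) (nat_lit 65535)))))) (Nat.add (Nat.add (Nat.shiftLeft (nat_lit 1) (Nat.land (Nat.shiftRight (V (nat_lit 24)) (S (nat_lit 13))) (nat_lit 65535))) (Nat.shiftLeft (nat_lit 1) (Nat.land (Nat.shiftRight (V (nat_lit 24)) (S (nat_lit 22))) (nat_lit 65535)))) (Nat.add (Nat.shiftLeft (nat_lit 1) (Nat.land (Nat.shiftRight (V (nat_lit 24)) (S (nat_lit 55))) (nat_lit 65535))) (Nat.add (Nat.shiftLeft (nat_lit 1) (Nat.land (Nat.shiftRight (V (nat_lit 25)) (S (nat_lit 4))) (nat_lit 65535))) (Nat.shiftLeft (nat_lit 1) (Nat.land (Nat.shiftRight (V (nat_lit 25)) (S (nat_lit 7))) (nat_lit 65535))))))) (Nat.add (Nat.add (Nat.add (Nat.shiftLeft (nat_lit 1) (Nat.land (Nat.shiftRight (V (nat_lit 25)) (S (nat_lit 28))) (nat_lit 65535)))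 (Nat.shiftLeft (nat_lit 1) (Nat.land (Nat.shiftRight (V (nat_lit 25)) (S (nat_lit 40))) (nat_lit 65535)))) (Nat.add (Nat.shiftLeft (nat_lit 1) (Nat.land (Nat.shiftRight (V (nat_lit 28)) (S (nat_lit 25))) (nat_lit 65535))) (Nat.add (Nat.shiftLeft (nat_lit 1) (Nat.land (Nat.shiftRight (V (nat_lit 28)) (S (nat_lit 56))) (nat_lit 65535))) (Nat.shiftLeft (nat_lit 1) (Nat.land (Nat.shiftRight (V (nat_lit 29)) (S (nat_lit 20))) (nat_lit 65535)))))) (Nat.add (Nat.add (Nat.shiftLeft (nat_lit 1) (Nat.land (Nat.shiftRight (V (nat_lit 29)) (S (nat_lit 31))) (nat_lit 65535))) (Nat.shiftLeft (nat_lit 1) (Nat.land (Nat.shiftRight (V (nat_lit 31)) (S (nat_lit 1))) (nat_lit 65535)))) (Nat.add (Nat.shiftLeft (nat_lit 1) (Nat.land (Nat.shiftRight (V (nat_lit 31)) (S (nat_lit 7))) (nat_lit 65535))) (Nat.add (Nat.shiftLeft (nat_lit 1) (Nat.land (Nat.shiftRight (V (nat_lit 31)) (S (nat_lit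 22))) (nat_lit 65535))) (Nat.shiftLeft (nat_lit 1) (Nat.land (Nat.shiftRight (V (nat_lit 31)) (S (nat_lit 29))) (nat_lit 65535)))))))) (Nat.add (Nat.add (Nat.add (Nat.add (Nat.shiftLeft (nat_lit 1) (Nat.land (Nat.shiftRight (V (nat_lit 40)) (S (nat_lit 2))) (nat_lit 65535))) (Nat.shiftLeft (nat_lit 1) (Nat.land (Nat.shiftRight (V (nat_lit 40)) (S (nat_lit 20))) (nat_lit 65535)))) (Nat.add (Nat.shiftLeft (nat_lit 1) (Nat.land (Nat.shiftRight (V (nat_lit 40)) (S (nat_lit 25))) (nat_lit 65535))) (Nat.add (Nat.shiftLeft (nat_lit 1) (Nat.land (Nat.shiftRight (V (nat_lit 40)) (S (nat_lit 49))) (nat_lit 65535))) (Nat.shiftLeft (nat_lit 1) (Nat.land (Nat.shiftRight (V (nat_lit 49)) (S (nat_lit 12))) (nat_lit 65535)))))) (Nat.add (Nat.add (Nat.shiftLeft (nat_lit 1) (Nat.land (Nat.shiftRight (V (nat_lit 49)) (S (nat_lit 15))) (nat_lit 65535))) (Nat.shiftLeft (nat_lit 1) (Nat.land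 (Nat.shiftRight (V (nat_lit 49)) (S (nat_lit 40))) (nat_lit 65535)))) (Nat.add (Nat.shiftLeft (nat_lit 1) (Nat.land (Nat.shiftRight (V (nat_lit 49)) (S (nat_lit 55))) (nat_lit 65535))) (Nat.add (Nat.shiftLeft (nat_lit 1) (Nat.land (Nat.shiftRight (V (nat_lit 52)) (S (nat_lit 1))) (nat_lit 65535))) (Nat.shiftLeft (nat_lit 1) (Nat.land (Nat.shiftRight (V (nat_lit 52)) (S (nat_lit 12))) (nat_lit 65535))))))) (Nat.add (Nat.add (Nat.add (Nat.shiftLeft (nat_lit 1) (Nat.land (Nat.shiftRight (V (nat_lit 52)) (S (nat_lit 22))) (nat_lit 65535))) (Nat.shiftLeft (nat_lit 1) (Nat.land (Nat.shiftRight (V (nat_lit 52)) (S (nat_lit 53))) (nat_lit 65535)))) (Nat.add (Nat.shiftLeft (nat_lit 1) (Nat.land (Nat.shiftRight (V (nat_lit 53)) (S (nat_lit 2))) (nat_lit 65535))) (Nat.add (Nat.shiftLeft (nat_lit 1) (Nat.land (Nat.shiftRight (V (nat_lit 53)) (S (nat_lit 52))) (nat_lit 65535)))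 (Nat.shiftLeft (nat_lit 1) (Nat.land (Nat.shiftRight (V (nat_lit 55)) (S (nat_lit 24))) (nat_lit 65535)))))) (Nat.add (Nat.add (Nat.shiftLeft (nat_lit 1) (Nat.land (Nat.shiftRight (V (nat_lit 55)) (S (nat_lit 49))) (nat_lit 65535))) (Nat.shiftLeft (nat_lit 1) (Nat.land (Nat.shiftRight (V (nat_lit 56)) (S (nat_lit 1))) (nat_lit 65535)))) (Nat.add (Nat.shiftLeft (nat_lit 1) (Nat.land (Nat.shiftRight (V (nat_lit 56)) (S (nat_lit 5))) (nat_lit 65535))) (Nat.add (Nat.shiftLeft (nat_lit 1) (Nat.land (Nat.shiftRight (V (nat_lit 56)) (S (nat_lit 15))) (nat_lit 65535))) (Nat.shiftLeft (nat_lit 1) (Nat.land (Nat.shiftRight (V (nat_lit 56)) (S (nat_lit 28))) (nat_lit 65535)))))))))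
def E82_3 (V S : ℕ → ℕ) : ℕ := Nat.add (Nat.add (Nat.add (Nat.add (Nat.shiftLeft (nat_lit 1) (Nat.land (Nat.shiftRight (V (nat_lit 1)) (S (nat_lit 11))) (nat_lit 65535))) (Nat.shiftLeft (nat_lit 1) (Nat.land (Nat.shiftRight (V (nat_lit 1)) (S (nat_lit 27))) (nat_lit 65535)))) (Nat.add (Nat.shiftLeft (nat_lit 1) (Nat.land (Nat.shiftRight (V (nat_lit 4)) (S (nat_lit 11))) (nat_lit 65535))) (Nat.add (Nat.shiftLeft (nat_lit 1) (Nat.land (Nat.shiftRight (V (nat_lit 4)) (S (nat_lit 43))) (nat_lit 65535))) (Nat.shiftLeft (nat_lit 1) (Nat.land (Nat.shiftRight (V (nat_lit 11)) (S (nat_lit 1))) (nat_lit 65535)))))) (Nat.add (Nat.add (Nat.shiftLeft (nat_lit 1) (Nat.land (Nat.shiftRight (V (nat_lit 11)) (S (nat_lit 4))) (nat_lit 65535))) (Nat.shiftLeft (nat_lit 1) (Nat.land (Nat.shiftRight (V (nat_lit 14)) (S (nat_lit 15))) (nat_lit 65535)))) (Nat.add (Nat.shiftLeft (nat_lit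 1) (Nat.land (Nat.shiftRight (V (nat_lit 14)) (S (nat_lit 22))) (nat_lit 65535))) (Nat.add (Nat.shiftLeft (nat_lit 1) (Nat.land (Nat.shiftRight (V (nat_lit 15)) (S (nat_lit 14))) (nat_lit 65535))) (Nat.shiftLeft (nat_lit 1) (Nat.land (Nat.shiftRight (V (nat_lit 15)) (S (nat_lit 43))) (nat_lit 65535))))))) (Nat.add (Nat.add (Nat.add (Nat.shiftLeft (nat_lit 1) (Nat.land (Nat.shiftRight (V (nat_lit 22)) (S (nat_lit 14))) (nat_lit 65535))) (Nat.shiftLeft (nat_lit 1) (Nat.land (Nat.shiftRight (V (nat_lit 22)) (S (nat_lit 59))) (nat_lit 65535)))) (Nat.add (Nat.shiftLeft (nat_lit 1) (Nat.land (Nat.shiftRight (V (nat_lit 27)) (S (nat_lit 1))) (nat_lit 65535))) (Nat.add (Nat.shiftLeft (nat_lit 1) (Nat.land (Nat.shiftRight (V (nat_lit 27)) (S (nat_lit 40))) (nat_lit 65535))) (Nat.shiftLeft (nat_lit 1) (Nat.land (Nat.shiftRight (V (nat_lit 40)) (S (nat_lit 27))) (nat_lit 65535))))))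 (Nat.add (Nat.add (Nat.shiftLeft (nat_lit 1) (Nat.land (Nat.shiftRight (V (nat_lit 40)) (S (nat_lit 59))) (nat_lit 65535))) (Nat.shiftLeft (nat_lit 1) (Nat.land (Nat.shiftRight (V (nat_lit 43)) (S (nat_lit 4))) (nat_lit 65535)))) (Nat.add (Nat.shiftLeft (nat_lit 1) (Nat.land (Nat.shiftRight (V (nat_lit 43)) (S (nat_lit 15))) (nat_lit 65535))) (Nat.add (Nat.shiftLeft (nat_lit 1) (Nat.land (Nat.shiftRight (V (nat_lit 59)) (S (nat_lit 22))) (nat_lit 65535))) (Nat.shiftLeft (nat_lit 1) (Nat.land (Nat.shiftRight (V (nat_lit 59)) (S (nat_lit 40))) (nat_lit 65535)))))))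
def E83_3 (V S : ℕ → ℕ) : ℕ := Nat.add (Nat.add (Nat.add (Nat.add (Nat.add (Nat.add (Nat.shiftLeft (nat_lit 1) (Nat.land (Nat.shiftRight (V (nat_lit 2)) (S (nat_lit 8))) (nat_lit 65535))) (Nat.add (Nat.shiftLeft (nat_lit 1) (Nat.land (Nat.shiftRight (V (nat_lit 2)) (S (nat_lit 9))) (nat_lit 65535))) (Nat.shiftLeft (nat_lit 1) (Nat.land (Nat.shiftRight (V (nat_lit 2)) (S (nat_lit 41))) (nat_lit 65535))))) (Nat.add (Nat.add (Nat.shiftLeft (nat_lit 1) (Nat.land (Nat.shiftRight (V (nat_lit 2)) (S (nat_lit 51))) (nat_lit 65535))) (Nat.shiftLeft (nat_lit 1) (Nat.land (Nat.shiftRight (V (nat_lit 6)) (S (nat_lit 8))) (nat_lit 65535)))) (Nat.add (Nat.shiftLeft (nat_lit 1) (Nat.land (Nat.shiftRight (V (nat_lit 6)) (S (nat_lit 10))) (nat_lit 65535))) (Nat.shiftLeft (nat_lit 1) (Nat.land (Nat.shiftRight (V (nat_lit 6)) (S (nat_lit 30))) (nat_lit 65535)))))) (Nat.add (Nat.add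 (Nat.add (Nat.shiftLeft (nat_lit 1) (Nat.land (Nat.shiftRight (V (nat_lit 6)) (S (nat_lit 37))) (nat_lit 65535))) (Nat.shiftLeft (nat_lit 1) (Nat.land (Nat.shiftRight (V (nat_lit 8)) (S (nat_lit 2))) (nat_lit 65535)))) (Nat.add (Nat.shiftLeft (nat_lit 1) (Nat.land (Nat.shiftRight (V (nat_lit 8)) (S (nat_lit 6))) (nat_lit 65535))) (Nat.shiftLeft (nat_lit 1) (Nat.land (Nat.shiftRight (V (nat_lit 8)) (S (nat_lit 9))) (nat_lit 65535))))) (Nat.add (Nat.add (Nat.shiftLeft (nat_lit 1) (Nat.land (Nat.shiftRight (V (nat_lit 8)) (S (nat_lit 10))) (nat_lit 65535))) (Nat.shiftLeft (nat_lit 1) (Nat.land (Nat.shiftRight (V (nat_lit 9)) (S (nat_lit 2))) (nat_lit 65535)))) (Nat.add (Nat.shiftLeft (nat_lit 1) (Nat.land (Nat.shiftRight (V (nat_lit 9)) (S (nat_lit 8))) (nat_lit 65535))) (Nat.shiftLeft (nat_lit 1) (Nat.land (Nat.shiftRight (V (nat_lit 9)) (S (nat_lit 33))) (nat_lit 65535)))))))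 (Nat.add (Nat.add (Nat.add (Nat.shiftLeft (nat_lit 1) (Nat.land (Nat.shiftRight (V (nat_lit 9)) (S (nat_lit 49))) (nat_lit 65535))) (Nat.add (Nat.shiftLeft (nat_lit 1) (Nat.land (Nat.shiftRight (V (nat_lit 10)) (S (nat_lit 6))) (nat_lit 65535))) (Nat.shiftLeft (nat_lit 1) (Nat.land (Nat.shiftRight (V (nat_lit 10)) (S (nat_lit 8))) (nat_lit 65535))))) (Nat.add (Nat.add (Nat.shiftLeft (nat_lit 1) (Nat.land (Nat.shiftRight (V (nat_lit 10)) (S (nat_lit 47))) (nat_lit 65535))) (Nat.shiftLeft (nat_lit 1) (Nat.land (Nat.shiftRight (V (nat_lit 10)) (S (nat_lit 49))) (nat_lit 65535)))) (Nat.add (Nat.shiftLeft (nat_lit 1) (Nat.land (Nat.shiftRight (V (nat_lit 17)) (S (nat_lit 18))) (nat_lit 65535))) (Nat.shiftLeft (nat_lit 1) (Nat.land (Nat.shiftRight (V (nat_lit 17)) (S (nat_lit 21))) (nat_lit 65535)))))) (Nat.add (Nat.add (Nat.add (Nat.shiftLeft (nat_lit 1) (Nat.land (Nat.shiftRight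 (V (nat_lit 17)) (S (nat_lit 42))) (nat_lit 65535))) (Nat.shiftLeft (nat_lit 1) (Nat.land (Nat.shiftRight (V (nat_lit 17)) (S (nat_lit 54))) (nat_lit 65535)))) (Nat.add (Nat.shiftLeft (nat_lit 1) (Nat.land (Nat.shiftRight (V (nat_lit 18)) (S (nat_lit 17))) (nat_lit 65535))) (Nat.shiftLeft (nat_lit 1) (Nat.land (Nat.shiftRight (V (nat_lit 18)) (S (nat_lit 21))) (nat_lit 65535))))) (Nat.add (Nat.add (Nat.shiftLeft (nat_lit 1) (Nat.land (Nat.shiftRight (V (nat_lit 18)) (S (nat_lit 25))) (nat_lit 65535))) (Nat.shiftLeft (nat_lit 1) (Nat.land (Nat.shiftRight (V (nat_lit 18)) (S (nat_lit 36))) (nat_lit 65535)))) (Nat.add (Nat.shiftLeft (nat_lit 1) (Nat.land (Nat.shiftRight (V (nat_lit 20)) (S (nat_lit 21))) (nat_lit 65535))) (Nat.shiftLeft (nat_lit 1) (Nat.land (Nat.shiftRight (V (nat_lit 20)) (S (nat_lit 23))) (nat_lit 65535)))))))) (Nat.add (Nat.add (Nat.add (Nat.add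 (Nat.shiftLeft (nat_lit 1) (Nat.land (Nat.shiftRight (V (nat_lit 20)) (S (nat_lit 35))) (nat_lit 65535))) (Nat.add (Nat.shiftLeft (nat_lit 1) (Nat.land (Nat.shiftRight (V (nat_lit 20)) (S (nat_lit 46))) (nat_lit 65535))) (Nat.shiftLeft (nat_lit 1) (Nat.land (Nat.shiftRight (V (nat_lit 21)) (S (nat_lit 17))) (nat_lit 65535))))) (Nat.add (Nat.add (Nat.shiftLeft (nat_lit 1) (Nat.land (Nat.shiftRight (V (nat_lit 21)) (S (nat_lit 18))) (nat_lit 65535))) (Nat.shiftLeft (nat_lit 1) (Nat.land (Nat.shiftRight (V (nat_lit 21)) (S (nat_lit 20))) (nat_lit 65535)))) (Nat.add (Nat.shiftLeft (nat_lit 1) (Nat.land (Nat.shiftRight (V (nat_lit 21)) (S (nat_lit 23))) (nat_lit 65535))) (Nat.shiftLeft (nat_lit 1) (Nat.land (Nat.shiftRight (V (nat_lit 23)) (S (nat_lit 20))) (nat_lit 65535)))))) (Nat.add (Nat.add (Nat.add (Nat.shiftLeft (nat_lit 1) (Nat.land (Nat.shiftRight (V (nat_lit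 23)) (S (nat_lit 21))) (nat_lit 65535))) (Nat.shiftLeft (nat_lit 1) (Nat.land (Nat.shiftRight (V (nat_lit 23)) (S (nat_lit 25))) (nat_lit 65535)))) (Nat.add (Nat.shiftLeft (nat_lit 1) (Nat.land (Nat.shiftRight (V (nat_lit 23)) (S (nat_lit 50))) (nat_lit 65535))) (Nat.shiftLeft (nat_lit 1) (Nat.land (Nat.shiftRight (V (nat_lit 24)) (S (nat_lit 30))) (nat_lit 65535))))) (Nat.add (Nat.add (Nat.shiftLeft (nat_lit 1) (Nat.land (Nat.shiftRight (V (nat_lit 24)) (S (nat_lit 33))) (nat_lit 65535))) (Nat.shiftLeft (nat_lit 1) (Nat.land (Nat.shiftRight (V (nat_lit 24)) (S (nat_lit 39))) (nat_lit 65535)))) (Nat.add (Nat.shiftLeft (nat_lit 1) (Nat.land (Nat.shiftRight (V (nat_lit 24)) (S (nat_lit 51))) (nat_lit 65535))) (Nat.shiftLeft (nat_lit 1) (Nat.land (Nat.shiftRight (V (nat_lit 25)) (S (nat_lit 18))) (nat_lit 65535))))))) (Nat.add (Nat.add (Nat.add (Nat.shiftLeft (nat_lit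 1) (Nat.land (Nat.shiftRight (V (nat_lit 25)) (S (nat_lit 23))) (nat_lit 65535))) (Nat.add (Nat.shiftLeft (nat_lit 1) (Nat.land (Nat.shiftRight (V (nat_lit 25)) (S (nat_lit 36))) (nat_lit 65535))) (Nat.shiftLeft (nat_lit 1) (Nat.land (Nat.shiftRight (V (nat_lit 25)) (S (nat_lit 50))) (nat_lit 65535))))) (Nat.add (Nat.add (Nat.shiftLeft (nat_lit 1) (Nat.land (Nat.shiftRight (V (nat_lit 30)) (S (nat_lit 6))) (nat_lit 65535))) (Nat.shiftLeft (nat_lit 1) (Nat.land (Nat.shiftRight (V (nat_lit 30)) (S (nat_lit 24))) (nat_lit 65535)))) (Nat.add (Nat.shiftLeft (nat_lit 1) (Nat.land (Nat.shiftRight (V (nat_lit 30)) (S (nat_lit 37))) (nat_lit 65535))) (Nat.shiftLeft (nat_lit 1) (Nat.land (Nat.shiftRight (V (nat_lit 30)) (S (nat_lit 39))) (nat_lit 65535)))))) (Nat.add (Nat.add (Nat.add (Nat.shiftLeft (nat_lit 1) (Nat.land (Nat.shiftRight (V (nat_lit 31)) (S (nat_lit 36))) (nat_lit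 65535))) (Nat.shiftLeft (nat_lit 1) (Nat.land (Nat.shiftRight (V (nat_lit 31)) (S (nat_lit 42))) (nat_lit 65535)))) (Nat.add (Nat.shiftLeft (nat_lit 1) (Nat.land (Nat.shiftRight (V (nat_lit 31)) (S (nat_lit 44))) (nat_lit 65535))) (Nat.shiftLeft (nat_lit 1) (Nat.land (Nat.shiftRight (V (nat_lit 31)) (S (nat_lit 46))) (nat_lit 65535))))) (Nat.add (Nat.add (Nat.shiftLeft (nat_lit 1) (Nat.land (Nat.shiftRight (V (nat_lit 33)) (S (nat_lit 9))) (nat_lit 65535))) (Nat.shiftLeft (nat_lit 1) (Nat.land (Nat.shiftRight (V (nat_lit 33)) (S (nat_lit 24))) (nat_lit 65535)))) (Nat.add (Nat.shiftLeft (nat_lit 1) (Nat.land (Nat.shiftRight (V (nat_lit 33)) (S (nat_lit 49))) (nat_lit 65535))) (Nat.shiftLeft (nat_lit 1) (Nat.land (Nat.shiftRight (V (nat_lit 33)) (S (nat_lit 51))) (nat_lit 65535))))))))) (Nat.add (Nat.add (Nat.add (Nat.add (Nat.add (Nat.shiftLeft (nat_lit 1) (Nat.land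 (Nat.shiftRight (V (nat_lit 35)) (S (nat_lit 20))) (nat_lit 65535))) (Nat.add (Nat.shiftLeft (nat_lit 1) (Nat.land (Nat.shiftRight (V (nat_lit 35)) (S (nat_lit 46))) (nat_lit 65535))) (Nat.shiftLeft (nat_lit 1) (Nat.land (Nat.shiftRight (V (nat_lit 35)) (S (nat_lit 50))) (nat_lit 65535))))) (Nat.add (Nat.add (Nat.shiftLeft (nat_lit 1) (Nat.land (Nat.shiftRight (V (nat_lit 35)) (S (nat_lit 56))) (nat_lit 65535))) (Nat.shiftLeft (nat_lit 1) (Nat.land (Nat.shiftRight (V (nat_lit 36)) (S (nat_lit 18))) (nat_lit 65535)))) (Nat.add (Nat.shiftLeft (nat_lit 1) (Nat.land (Nat.shiftRight (V (nat_lit 36)) (S (nat_lit 25))) (nat_lit 65535))) (Nat.shiftLeft (nat_lit 1) (Nat.land (Nat.shiftRight (V (nat_lit 36)) (S (nat_lit 31))) (nat_lit 65535)))))) (Nat.add (Nat.add (Nat.add (Nat.shiftLeft (nat_lit 1) (Nat.land (Nat.shiftRight (V (nat_lit 36)) (S (nat_lit 42))) (nat_lit 65535)))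 (Nat.shiftLeft (nat_lit 1) (Nat.land (Nat.shiftRight (V (nat_lit 37)) (S (nat_lit 6))) (nat_lit 65535)))) (Nat.add (Nat.shiftLeft (nat_lit 1) (Nat.land (Nat.shiftRight (V (nat_lit 37)) (S (nat_lit 30))) (nat_lit 65535))) (Nat.shiftLeft (nat_lit 1) (Nat.land (Nat.shiftRight (V (nat_lit 37)) (S (nat_lit 47))) (nat_lit 65535))))) (Nat.add (Nat.add (Nat.shiftLeft (nat_lit 1) (Nat.land (Nat.shiftRight (V (nat_lit 37)) (S (nat_lit 52))) (nat_lit 65535))) (Nat.shiftLeft (nat_lit 1) (Nat.land (Nat.shiftRight (V (nat_lit 39)) (S (nat_lit 24))) (nat_lit 65535)))) (Nat.add (Nat.shiftLeft (nat_lit 1) (Nat.land (Nat.shiftRight (V (nat_lit 39)) (S (nat_lit 30))) (nat_lit 65535))) (Nat.shiftLeft (nat_lit 1) (Nat.land (Nat.shiftRight (V (nat_lit 39)) (S (nat_lit 41))) (nat_lit 65535))))))) (Nat.add (Nat.add (Nat.add (Nat.shiftLeft (nat_lit 1) (Nat.land (Nat.shiftRight (V (nat_lit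 39)) (S (nat_lit 52))) (nat_lit 65535))) (Nat.add (Nat.shiftLeft (nat_lit 1) (Nat.land (Nat.shiftRight (V (nat_lit 41)) (S (nat_lit 2))) (nat_lit 65535))) (Nat.shiftLeft (nat_lit 1) (Nat.land (Nat.shiftRight (V (nat_lit 41)) (S (nat_lit 39))) (nat_lit 65535))))) (Nat.add (Nat.add (Nat.shiftLeft (nat_lit 1) (Nat.land (Nat.shiftRight (V (nat_lit 41)) (S (nat_lit 51))) (nat_lit 65535))) (Nat.shiftLeft (nat_lit 1) (Nat.land (Nat.shiftRight (V (nat_lit 41)) (S (nat_lit 52))) (nat_lit 65535)))) (Nat.add (Nat.shiftLeft (nat_lit 1) (Nat.land (Nat.shiftRight (V (nat_lit 42)) (S (nat_lit 17))) (nat_lit 65535))) (Nat.shiftLeft (nat_lit 1) (Nat.land (Nat.shiftRight (V (nat_lit 42)) (S (nat_lit 31))) (nat_lit 65535)))))) (Nat.add (Nat.add (Nat.add (Nat.shiftLeft (nat_lit 1) (Nat.land (Nat.shiftRight (V (nat_lit 42)) (S (nat_lit 36))) (nat_lit 65535))) (Nat.shiftLeft (nat_lit 1)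 (Nat.land (Nat.shiftRight (V (nat_lit 42)) (S (nat_lit 54))) (nat_lit 65535)))) (Nat.add (Nat.shiftLeft (nat_lit 1) (Nat.land (Nat.shiftRight (V (nat_lit 44)) (S (nat_lit 31))) (nat_lit 65535))) (Nat.shiftLeft (nat_lit 1) (Nat.land (Nat.shiftRight (V (nat_lit 44)) (S (nat_lit 46))) (nat_lit 65535))))) (Nat.add (Nat.add (Nat.shiftLeft (nat_lit 1) (Nat.land (Nat.shiftRight (V (nat_lit 44)) (S (nat_lit 54))) (nat_lit 65535))) (Nat.shiftLeft (nat_lit 1) (Nat.land (Nat.shiftRight (V (nat_lit 44)) (S (nat_lit 56))) (nat_lit 65535)))) (Nat.add (Nat.shiftLeft (nat_lit 1) (Nat.land (Nat.shiftRight (V (nat_lit 46)) (S (nat_lit 20))) (nat_lit 65535))) (Nat.shiftLeft (nat_lit 1) (Nat.land (Nat.shiftRight (V (nat_lit 46)) (S (nat_lit 31))) (nat_lit 65535)))))))) (Nat.add (Nat.add (Nat.add (Nat.add (Nat.shiftLeft (nat_lit 1) (Nat.land (Nat.shiftRight (V (nat_lit 46)) (S (nat_lit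 35))) (nat_lit 65535))) (Nat.add (Nat.shiftLeft (nat_lit 1) (Nat.land (Nat.shiftRight (V (nat_lit 46)) (S (nat_lit 44))) (nat_lit 65535))) (Nat.shiftLeft (nat_lit 1) (Nat.land (Nat.shiftRight (V (nat_lit 47)) (S (nat_lit 10))) (nat_lit 65535))))) (Nat.add (Nat.add (Nat.shiftLeft (nat_lit 1) (Nat.land (Nat.shiftRight (V (nat_lit 47)) (S (nat_lit 37))) (nat_lit 65535))) (Nat.shiftLeft (nat_lit 1) (Nat.land (Nat.shiftRight (V (nat_lit 47)) (S (nat_lit 49))) (nat_lit 65535)))) (Nat.add (Nat.shiftLeft (nat_lit 1) (Nat.land (Nat.shiftRight (V (nat_lit 47)) (S (nat_lit 52))) (nat_lit 65535))) (Nat.shiftLeft (nat_lit 1) (Nat.land (Nat.shiftRight (V (nat_lit 49)) (S (nat_lit 9))) (nat_lit 65535)))))) (Nat.add (Nat.add (Nat.add (Nat.shiftLeft (nat_lit 1) (Nat.land (Nat.shiftRight (V (nat_lit 49)) (S (nat_lit 10))) (nat_lit 65535))) (Nat.shiftLeft (nat_lit 1) (Nat.land (Nat.shiftRight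 (V (nat_lit 49)) (S (nat_lit 33))) (nat_lit 65535)))) (Nat.add (Nat.shiftLeft (nat_lit 1) (Nat.land (Nat.shiftRight (V (nat_lit 49)) (S (nat_lit 47))) (nat_lit 65535))) (Nat.shiftLeft (nat_lit 1) (Nat.land (Nat.shiftRight (V (nat_lit 50)) (S (nat_lit 23))) (nat_lit 65535))))) (Nat.add (Nat.add (Nat.shiftLeft (nat_lit 1) (Nat.land (Nat.shiftRight (V (nat_lit 50)) (S (nat_lit 25))) (nat_lit 65535))) (Nat.shiftLeft (nat_lit 1) (Nat.land (Nat.shiftRight (V (nat_lit 50)) (S (nat_lit 35))) (nat_lit 65535)))) (Nat.add (Nat.shiftLeft (nat_lit 1) (Nat.land (Nat.shiftRight (V (nat_lit 50)) (S (nat_lit 56))) (nat_lit 65535))) (Nat.shiftLeft (nat_lit 1) (Nat.land (Nat.shiftRight (V (nat_lit 51)) (S (nat_lit 2))) (nat_lit 65535))))))) (Nat.add (Nat.add (Nat.add (Nat.shiftLeft (nat_lit 1) (Nat.land (Nat.shiftRight (V (nat_lit 51)) (S (nat_lit 24))) (nat_lit 65535))) (Nat.add (Nat.shiftLeft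 (nat_lit 1) (Nat.land (Nat.shiftRight (V (nat_lit 51)) (S (nat_lit 33))) (nat_lit 65535))) (Nat.shiftLeft (nat_lit 1) (Nat.land (Nat.shiftRight (V (nat_lit 51)) (S (nat_lit 41))) (nat_lit 65535))))) (Nat.add (Nat.add (Nat.shiftLeft (nat_lit 1) (Nat.land (Nat.shiftRight (V (nat_lit 52)) (S (nat_lit 37))) (nat_lit 65535))) (Nat.shiftLeft (nat_lit 1) (Nat.land (Nat.shiftRight (V (nat_lit 52)) (S (nat_lit 39))) (nat_lit 65535)))) (Nat.add (Nat.shiftLeft (nat_lit 1) (Nat.land (Nat.shiftRight (V (nat_lit 52)) (S (nat_lit 41))) (nat_lit 65535))) (Nat.shiftLeft (nat_lit 1) (Nat.land (Nat.shiftRight (V (nat_lit 52)) (S (nat_lit 47))) (nat_lit 65535)))))) (Nat.add (Nat.add (Nat.add (Nat.shiftLeft (nat_lit 1) (Nat.land (Nat.shiftRight (V (nat_lit 54)) (S (nat_lit 17))) (nat_lit 65535))) (Nat.shiftLeft (nat_lit 1) (Nat.land (Nat.shiftRight (V (nat_lit 54)) (S (nat_lit 42))) (nat_lit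 65535)))) (Nat.add (Nat.shiftLeft (nat_lit 1) (Nat.land (Nat.shiftRight (V (nat_lit 54)) (S (nat_lit 44))) (nat_lit 65535))) (Nat.shiftLeft (nat_lit 1) (Nat.land (Nat.shiftRight (V (nat_lit 54)) (S (nat_lit 56))) (nat_lit 65535))))) (Nat.add (Nat.add (Nat.shiftLeft (nat_lit 1) (Nat.land (Nat.shiftRight (V (nat_lit 56)) (S (nat_lit 35))) (nat_lit 65535))) (Nat.shiftLeft (nat_lit 1) (Nat.land (Nat.shiftRight (V (nat_lit 56)) (S (nat_lit 44))) (nat_lit 65535)))) (Nat.add (Nat.shiftLeft (nat_lit 1) (Nat.land (Nat.shiftRight (V (nat_lit 56)) (S (nat_lit 50))) (nat_lit 65535))) (Nat.shiftLeft (nat_lit 1) (Nat.land (Nat.shiftRight (V (nat_lit 56)) (S (nat_lit 54))) (nat_lit 65535)))))))))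
def E84_3 (V S : ℕ → ℕ) : ℕ := Nat.add (Nat.add (Nat.add (Nat.add (Nat.add (Nat.add (Nat.shiftLeft (nat_lit 1) (Nat.land (Nat.shiftRight (V (nat_lit 2)) (S (nat_lit 7))) (nat_lit 65535))) (Nat.shiftLeft (nat_lit 1) (Nat.land (Nat.shiftRight (V (nat_lit 2)) (S (nat_lit 11))) (nat_lit 65535)))) (Nat.add (Nat.shiftLeft (nat_lit 1) (Nat.land (Nat.shiftRight (V (nat_lit 2)) (S (nat_lit 27))) (nat_lit 65535))) (Nat.add (Nat.shiftLeft (nat_lit 1) (Nat.land (Nat.shiftRight (V (nat_lit 2)) (S (nat_lit 28))) (nat_lit 65535))) (Nat.shiftLeft (nat_lit 1) (Nat.land (Nat.shiftRight (V (nat_lit 3)) (S (nat_lit 25))) (nat_lit 65535)))))) (Nat.add (Nat.add (Nat.shiftLeft (nat_lit 1) (Nat.land (Nat.shiftRight (V (nat_lit 3)) (S (nat_lit 56))) (nat_lit 65535))) (Nat.shiftLeft (nat_lit 1) (Nat.land (Nat.shiftRight (V (nat_lit 5)) (S (nat_lit 6))) (nat_lit 65535)))) (Nat.add (Nat.shiftLeft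 (nat_lit 1) (Nat.land (Nat.shiftRight (V (nat_lit 5)) (S (nat_lit 24))) (nat_lit 65535))) (Nat.add (Nat.shiftLeft (nat_lit 1) (Nat.land (Nat.shiftRight (V (nat_lit 6)) (S (nat_lit 5))) (nat_lit 65535))) (Nat.shiftLeft (nat_lit 1) (Nat.land (Nat.shiftRight (V (nat_lit 6)) (S (nat_lit 11))) (nat_lit 65535))))))) (Nat.add (Nat.add (Nat.add (Nat.shiftLeft (nat_lit 1) (Nat.land (Nat.shiftRight (V (nat_lit 6)) (S (nat_lit 28))) (nat_lit 65535))) (Nat.shiftLeft (nat_lit 1) (Nat.land (Nat.shiftRight (V (nat_lit 6)) (S (nat_lit 43))) (nat_lit 65535)))) (Nat.add (Nat.shiftLeft (nat_lit 1) (Nat.land (Nat.shiftRight (V (nat_lit 7)) (S (nat_lit 2))) (nat_lit 65535))) (Nat.add (Nat.shiftLeft (nat_lit 1) (Nat.land (Nat.shiftRight (V (nat_lit 7)) (S (nat_lit 52))) (nat_lit 65535))) (Nat.shiftLeft (nat_lit 1) (Nat.land (Nat.shiftRight (V (nat_lit 11)) (S (nat_lit 2))) (nat_lit 65535))))))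 (Nat.add (Nat.add (Nat.shiftLeft (nat_lit 1) (Nat.land (Nat.shiftRight (V (nat_lit 11)) (S (nat_lit 6))) (nat_lit 65535))) (Nat.shiftLeft (nat_lit 1) (Nat.land (Nat.shiftRight (V (nat_lit 11)) (S (nat_lit 25))) (nat_lit 65535)))) (Nat.add (Nat.shiftLeft (nat_lit 1) (Nat.land (Nat.shiftRight (V (nat_lit 11)) (S (nat_lit 56))) (nat_lit 65535))) (Nat.add (Nat.shiftLeft (nat_lit 1) (Nat.land (Nat.shiftRight (V (nat_lit 12)) (S (nat_lit 20))) (nat_lit 65535))) (Nat.shiftLeft (nat_lit 1) (Nat.land (Nat.shiftRight (V (nat_lit 12)) (S (nat_lit 31))) (nat_lit 65535)))))))) (Nat.add (Nat.add (Nat.add (Nat.add (Nat.shiftLeft (nat_lit 1) (Nat.land (Nat.shiftRight (V (nat_lit 13)) (S (nat_lit 17))) (nat_lit 65535))) (Nat.shiftLeft (nat_lit 1) (Nat.land (Nat.shiftRight (V (nat_lit 13)) (S (nat_lit 56))) (nat_lit 65535)))) (Nat.add (Nat.shiftLeft (nat_lit 1) (Nat.land (Nat.shiftRight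 (V (nat_lit 14)) (S (nat_lit 17))) (nat_lit 65535))) (Nat.add (Nat.shiftLeft (nat_lit 1) (Nat.land (Nat.shiftRight (V (nat_lit 14)) (S (nat_lit 20))) (nat_lit 65535))) (Nat.shiftLeft (nat_lit 1) (Nat.land (Nat.shiftRight (V (nat_lit 14)) (S (nat_lit 24))) (nat_lit 65535)))))) (Nat.add (Nat.add (Nat.shiftLeft (nat_lit 1) (Nat.land (Nat.shiftRight (V (nat_lit 14)) (S (nat_lit 49))) (nat_lit 65535))) (Nat.shiftLeft (nat_lit 1) (Nat.land (Nat.shiftRight (V (nat_lit 17)) (S (nat_lit 13))) (nat_lit 65535)))) (Nat.add (Nat.shiftLeft (nat_lit 1) (Nat.land (Nat.shiftRight (V (nat_lit 17)) (S (nat_lit 14))) (nat_lit 65535))) (Nat.add (Nat.shiftLeft (nat_lit 1) (Nat.land (Nat.shiftRight (V (nat_lit 17)) (S (nat_lit 43))) (nat_lit 65535))) (Nat.shiftLeft (nat_lit 1) (Nat.land (Nat.shiftRight (V (nat_lit 17)) (S (nat_lit 55))) (nat_lit 65535))))))) (Nat.add (Nat.add (Nat.add (Nat.shiftLeft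 (nat_lit 1) (Nat.land (Nat.shiftRight (V (nat_lit 19)) (S (nat_lit 24))) (nat_lit 65535))) (Nat.shiftLeft (nat_lit 1) (Nat.land (Nat.shiftRight (V (nat_lit 19)) (S (nat_lit 49))) (nat_lit 65535)))) (Nat.add (Nat.shiftLeft (nat_lit 1) (Nat.land (Nat.shiftRight (V (nat_lit 20)) (S (nat_lit 12))) (nat_lit 65535))) (Nat.add (Nat.shiftLeft (nat_lit 1) (Nat.land (Nat.shiftRight (V (nat_lit 20)) (S (nat_lit 14))) (nat_lit 65535))) (Nat.shiftLeft (nat_lit 1) (Nat.land (Nat.shiftRight (V (nat_lit 20)) (S (nat_lit 55))) (nat_lit 65535)))))) (Nat.add (Nat.add (Nat.shiftLeft (nat_lit 1) (Nat.land (Nat.shiftRight (V (nat_lit 20)) (S (nat_lit 59))) (nat_lit 65535))) (Nat.shiftLeft (nat_lit 1) (Nat.land (Nat.shiftRight (V (nat_lit 24)) (S (nat_lit 5))) (nat_lit 65535)))) (Nat.add (Nat.shiftLeft (nat_lit 1) (Nat.land (Nat.shiftRight (V (nat_lit 24)) (S (nat_lit 14))) (nat_lit 65535)))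 (Nat.add (Nat.shiftLeft (nat_lit 1) (Nat.land (Nat.shiftRight (V (nat_lit 24)) (S (nat_lit 19))) (nat_lit 65535))) (Nat.shiftLeft (nat_lit 1) (Nat.land (Nat.shiftRight (V (nat_lit 24)) (S (nat_lit 43))) (nat_lit 65535))))))))) (Nat.add (Nat.add (Nat.add (Nat.add (Nat.add (Nat.shiftLeft (nat_lit 1) (Nat.land (Nat.shiftRight (V (nat_lit 25)) (S (nat_lit 3))) (nat_lit 65535))) (Nat.shiftLeft (nat_lit 1) (Nat.land (Nat.shiftRight (V (nat_lit 25)) (S (nat_lit 11))) (nat_lit 65535)))) (Nat.add (Nat.shiftLeft (nat_lit 1) (Nat.land (Nat.shiftRight (V (nat_lit 25)) (S (nat_lit 27))) (nat_lit 65535))) (Nat.add (Nat.shiftLeft (nat_lit 1) (Nat.land (Nat.shiftRight (V (nat_lit 25)) (S (nat_lit 53))) (nat_lit 65535))) (Nat.shiftLeft (nat_lit 1) (Nat.land (Nat.shiftRight (V (nat_lit 27)) (S (nat_lit 2))) (nat_lit 65535)))))) (Nat.add (Nat.add (Nat.shiftLeft (nat_lit 1) (Nat.land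 (Nat.shiftRight (V (nat_lit 27)) (S (nat_lit 25))) (nat_lit 65535))) (Nat.shiftLeft (nat_lit 1) (Nat.land (Nat.shiftRight (V (nat_lit 27)) (S (nat_lit 31))) (nat_lit 65535)))) (Nat.add (Nat.shiftLeft (nat_lit 1) (Nat.land (Nat.shiftRight (V (nat_lit 27)) (S (nat_lit 52))) (nat_lit 65535))) (Nat.add (Nat.shiftLeft (nat_lit 1) (Nat.land (Nat.shiftRight (V (nat_lit 28)) (S (nat_lit 2))) (nat_lit 65535))) (Nat.shiftLeft (nat_lit 1) (Nat.land (Nat.shiftRight (V (nat_lit 28)) (S (nat_lit 6))) (nat_lit 65535))))))) (Nat.add (Nat.add (Nat.add (Nat.shiftLeft (nat_lit 1) (Nat.land (Nat.shiftRight (V (nat_lit 29)) (S (nat_lit 49))) (nat_lit 65535))) (Nat.shiftLeft (nat_lit 1) (Nat.land (Nat.shiftRight (V (nat_lit 29)) (S (nat_lit 52))) (nat_lit 65535)))) (Nat.add (Nat.shiftLeft (nat_lit 1) (Nat.land (Nat.shiftRight (V (nat_lit 31)) (S (nat_lit 12))) (nat_lit 65535))) (Nat.add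 (Nat.shiftLeft (nat_lit 1) (Nat.land (Nat.shiftRight (V (nat_lit 31)) (S (nat_lit 27))) (nat_lit 65535))) (Nat.shiftLeft (nat_lit 1) (Nat.land (Nat.shiftRight (V (nat_lit 31)) (S (nat_lit 53))) (nat_lit 65535)))))) (Nat.add (Nat.add (Nat.shiftLeft (nat_lit 1) (Nat.land (Nat.shiftRight (V (nat_lit 31)) (S (nat_lit 59))) (nat_lit 65535))) (Nat.shiftLeft (nat_lit 1) (Nat.land (Nat.shiftRight (V (nat_lit 43)) (S (nat_lit 6))) (nat_lit 65535)))) (Nat.add (Nat.shiftLeft (nat_lit 1) (Nat.land (Nat.shiftRight (V (nat_lit 43)) (S (nat_lit 17))) (nat_lit 65535))) (Nat.add (Nat.shiftLeft (nat_lit 1) (Nat.land (Nat.shiftRight (V (nat_lit 43)) (S (nat_lit 24))) (nat_lit 65535))) (Nat.shiftLeft (nat_lit 1) (Nat.land (Nat.shiftRight (V (nat_lit 43)) (S (nat_lit 56))) (nat_lit 65535)))))))) (Nat.add (Nat.add (Nat.add (Nat.add (Nat.shiftLeft (nat_lit 1) (Nat.land (Nat.shiftRight (V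 (nat_lit 49)) (S (nat_lit 14))) (nat_lit 65535))) (Nat.shiftLeft (nat_lit 1) (Nat.land (Nat.shiftRight (V (nat_lit 49)) (S (nat_lit 19))) (nat_lit 65535)))) (Nat.add (Nat.shiftLeft (nat_lit 1) (Nat.land (Nat.shiftRight (V (nat_lit 49)) (S (nat_lit 29))) (nat_lit 65535))) (Nat.add (Nat.shiftLeft (nat_lit 1) (Nat.land (Nat.shiftRight (V (nat_lit 49)) (S (nat_lit 59))) (nat_lit 65535))) (Nat.shiftLeft (nat_lit 1) (Nat.land (Nat.shiftRight (V (nat_lit 52)) (S (nat_lit 7))) (nat_lit 65535)))))) (Nat.add (Nat.add (Nat.shiftLeft (nat_lit 1) (Nat.land (Nat.shiftRight (V (nat_lit 52)) (S (nat_lit 27))) (nat_lit 65535))) (Nat.shiftLeft (nat_lit 1) (Nat.land (Nat.shiftRight (V (nat_lit 52)) (S (nat_lit 29))) (nat_lit 65535)))) (Nat.add (Nat.shiftLeft (nat_lit 1) (Nat.land (Nat.shiftRight (V (nat_lit 52)) (S (nat_lit 59))) (nat_lit 65535))) (Nat.add (Nat.shiftLeft (nat_lit 1)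 (Nat.land (Nat.shiftRight (V (nat_lit 53)) (S (nat_lit 25))) (nat_lit 65535))) (Nat.shiftLeft (nat_lit 1) (Nat.land (Nat.shiftRight (V (nat_lit 53)) (S (nat_lit 31))) (nat_lit 65535))))))) (Nat.add (Nat.add (Nat.add (Nat.shiftLeft (nat_lit 1) (Nat.land (Nat.shiftRight (V (nat_lit 55)) (S (nat_lit 17))) (nat_lit 65535))) (Nat.shiftLeft (nat_lit 1) (Nat.land (Nat.shiftRight (V (nat_lit 55)) (S (nat_lit 20))) (nat_lit 65535)))) (Nat.add (Nat.shiftLeft (nat_lit 1) (Nat.land (Nat.shiftRight (V (nat_lit 56)) (S (nat_lit 3))) (nat_lit 65535))) (Nat.add (Nat.shiftLeft (nat_lit 1) (Nat.land (Nat.shiftRight (V (nat_lit 56)) (S (nat_lit 11))) (nat_lit 65535))) (Nat.shiftLeft (nat_lit 1) (Nat.land (Nat.shiftRight (V (nat_lit 56)) (S (nat_lit 13))) (nat_lit 65535)))))) (Nat.add (Nat.add (Nat.shiftLeft (nat_lit 1) (Nat.land (Nat.shiftRight (V (nat_lit 56)) (S (nat_lit 43))) (nat_lit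 65535))) (Nat.shiftLeft (nat_lit 1) (Nat.land (Nat.shiftRight (V (nat_lit 59)) (S (nat_lit 20))) (nat_lit 65535)))) (Nat.add (Nat.shiftLeft (nat_lit 1) (Nat.land (Nat.shiftRight (V (nat_lit 59)) (S (nat_lit 31))) (nat_lit 65535))) (Nat.add (Nat.shiftLeft (nat_lit 1) (Nat.land (Nat.shiftRight (V (nat_lit 59)) (S (nat_lit 49))) (nat_lit 65535))) (Nat.shiftLeft (nat_lit 1) (Nat.land (Nat.shiftRight (V (nat_lit 59)) (S (nat_lit 52))) (nat_lit 65535)))))))))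
def E85_3 (V S : ℕ → ℕ) : ℕ := Nat.add (Nat.add (Nat.add (Nat.add (Nat.add (Nat.add (Nat.shiftLeft (nat_lit 1) (Nat.land (Nat.shiftRight (V (nat_lit 1)) (S (nat_lit 10))) (nat_lit 65535))) (Nat.shiftLeft (nat_lit 1) (Nat.land (Nat.shiftRight (V (nat_lit 1)) (S (nat_lit 35))) (nat_lit 65535)))) (Nat.add (Nat.shiftLeft (nat_lit 1) (Nat.land (Nat.shiftRight (V (nat_lit 1)) (S (nat_lit 39))) (nat_lit 65535))) (Nat.add (Nat.shiftLeft (nat_lit 1) (Nat.land (Nat.shiftRight (V (nat_lit 1)) (S (nat_lit 42))) (nat_lit 65535))) (Nat.shiftLeft (nat_lit 1) (Nat.land (Nat.shiftRight (V (nat_lit 3)) (S (nat_lit 9))) (nat_lit 65535)))))) (Nat.add (Nat.add (Nat.shiftLeft (nat_lit 1) (Nat.land (Nat.shiftRight (V (nat_lit 3)) (S (nat_lit 10))) (nat_lit 65535))) (Nat.shiftLeft (nat_lit 1) (Nat.land (Nat.shiftRight (V (nat_lit 4)) (S (nat_lit 9))) (nat_lit 65535)))) (Nat.add (Nat.shiftLeft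 (nat_lit 1) (Nat.land (Nat.shiftRight (V (nat_lit 4)) (S (nat_lit 23))) (nat_lit 65535))) (Nat.add (Nat.shiftLeft (nat_lit 1) (Nat.land (Nat.shiftRight (V (nat_lit 4)) (S (nat_lit 39))) (nat_lit 65535))) (Nat.shiftLeft (nat_lit 1) (Nat.land (Nat.shiftRight (V (nat_lit 4)) (S (nat_lit 42))) (nat_lit 65535))))))) (Nat.add (Nat.add (Nat.add (Nat.shiftLeft (nat_lit 1) (Nat.land (Nat.shiftRight (V (nat_lit 5)) (S (nat_lit 42))) (nat_lit 65535))) (Nat.shiftLeft (nat_lit 1) (Nat.land (Nat.shiftRight (V (nat_lit 5)) (S (nat_lit 44))) (nat_lit 65535)))) (Nat.add (Nat.shiftLeft (nat_lit 1) (Nat.land (Nat.shiftRight (V (nat_lit 7)) (S (nat_lit 18))) (nat_lit 65535))) (Nat.add (Nat.shiftLeft (nat_lit 1) (Nat.land (Nat.shiftRight (V (nat_lit 7)) (S (nat_lit 42))) (nat_lit 65535))) (Nat.shiftLeft (nat_lit 1) (Nat.land (Nat.shiftRight (V (nat_lit 9)) (S (nat_lit 3))) (nat_lit 65535))))))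 (Nat.add (Nat.add (Nat.shiftLeft (nat_lit 1) (Nat.land (Nat.shiftRight (V (nat_lit 9)) (S (nat_lit 4))) (nat_lit 65535))) (Nat.shiftLeft (nat_lit 1) (Nat.land (Nat.shiftRight (V (nat_lit 9)) (S (nat_lit 15))) (nat_lit 65535)))) (Nat.add (Nat.shiftLeft (nat_lit 1) (Nat.land (Nat.shiftRight (V (nat_lit 9)) (S (nat_lit 55))) (nat_lit 65535))) (Nat.add (Nat.shiftLeft (nat_lit 1) (Nat.land (Nat.shiftRight (V (nat_lit 10)) (S (nat_lit 1))) (nat_lit 65535))) (Nat.shiftLeft (nat_lit 1) (Nat.land (Nat.shiftRight (V (nat_lit 10)) (S (nat_lit 3))) (nat_lit 65535)))))))) (Nat.add (Nat.add (Nat.add (Nat.add (Nat.shiftLeft (nat_lit 1) (Nat.land (Nat.shiftRight (V (nat_lit 10)) (S (nat_lit 12))) (nat_lit 65535))) (Nat.shiftLeft (nat_lit 1) (Nat.land (Nat.shiftRight (V (nat_lit 10)) (S (nat_lit 40))) (nat_lit 65535)))) (Nat.add (Nat.shiftLeft (nat_lit 1) (Nat.land (Nat.shiftRight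 (V (nat_lit 12)) (S (nat_lit 10))) (nat_lit 65535))) (Nat.add (Nat.shiftLeft (nat_lit 1) (Nat.land (Nat.shiftRight (V (nat_lit 12)) (S (nat_lit 37))) (nat_lit 65535))) (Nat.shiftLeft (nat_lit 1) (Nat.land (Nat.shiftRight (V (nat_lit 13)) (S (nat_lit 37))) (nat_lit 65535)))))) (Nat.add (Nat.add (Nat.shiftLeft (nat_lit 1) (Nat.land (Nat.shiftRight (V (nat_lit 13)) (S (nat_lit 39))) (nat_lit 65535))) (Nat.shiftLeft (nat_lit 1) (Nat.land (Nat.shiftRight (V (nat_lit 15)) (S (nat_lit 9))) (nat_lit 65535)))) (Nat.add (Nat.shiftLeft (nat_lit 1) (Nat.land (Nat.shiftRight (V (nat_lit 15)) (S (nat_lit 23))) (nat_lit 65535))) (Nat.add (Nat.shiftLeft (nat_lit 1) (Nat.land (Nat.shiftRight (V (nat_lit 15)) (S (nat_lit 37))) (nat_lit 65535))) (Nat.shiftLeft (nat_lit 1) (Nat.land (Nat.shiftRight (V (nat_lit 15)) (S (nat_lit 44))) (nat_lit 65535))))))) (Nat.add (Nat.add (Nat.add (Nat.shiftLeft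 (nat_lit 1) (Nat.land (Nat.shiftRight (V (nat_lit 18)) (S (nat_lit 7))) (nat_lit 65535))) (Nat.shiftLeft (nat_lit 1) (Nat.land (Nat.shiftRight (V (nat_lit 18)) (S (nat_lit 19))) (nat_lit 65535)))) (Nat.add (Nat.shiftLeft (nat_lit 1) (Nat.land (Nat.shiftRight (V (nat_lit 18)) (S (nat_lit 22))) (nat_lit 65535))) (Nat.add (Nat.shiftLeft (nat_lit 1) (Nat.land (Nat.shiftRight (V (nat_lit 18)) (S (nat_lit 40))) (nat_lit 65535))) (Nat.shiftLeft (nat_lit 1) (Nat.land (Nat.shiftRight (V (nat_lit 19)) (S (nat_lit 18))) (nat_lit 65535)))))) (Nat.add (Nat.add (Nat.shiftLeft (nat_lit 1) (Nat.land (Nat.shiftRight (V (nat_lit 19)) (S (nat_lit 23))) (nat_lit 65535))) (Nat.shiftLeft (nat_lit 1) (Nat.land (Nat.shiftRight (V (nat_lit 22)) (S (nat_lit 18))) (nat_lit 65535)))) (Nat.add (Nat.shiftLeft (nat_lit 1) (Nat.land (Nat.shiftRight (V (nat_lit 22)) (S (nat_lit 37))) (nat_lit 65535)))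 (Nat.add (Nat.shiftLeft (nat_lit 1) (Nat.land (Nat.shiftRight (V (nat_lit 22)) (S (nat_lit 44))) (nat_lit 65535))) (Nat.shiftLeft (nat_lit 1) (Nat.land (Nat.shiftRight (V (nat_lit 22)) (S (nat_lit 51))) (nat_lit 65535))))))))) (Nat.add (Nat.add (Nat.add (Nat.add (Nat.add (Nat.shiftLeft (nat_lit 1) (Nat.land (Nat.shiftRight (V (nat_lit 23)) (S (nat_lit 4))) (nat_lit 65535))) (Nat.shiftLeft (nat_lit 1) (Nat.land (Nat.shiftRight (V (nat_lit 23)) (S (nat_lit 15))) (nat_lit 65535)))) (Nat.add (Nat.shiftLeft (nat_lit 1) (Nat.land (Nat.shiftRight (V (nat_lit 23)) (S (nat_lit 19))) (nat_lit 65535))) (Nat.add (Nat.shiftLeft (nat_lit 1) (Nat.land (Nat.shiftRight (V (nat_lit 23)) (S (nat_lit 28))) (nat_lit 65535))) (Nat.shiftLeft (nat_lit 1) (Nat.land (Nat.shiftRight (V (nat_lit 28)) (S (nat_lit 23))) (nat_lit 65535)))))) (Nat.add (Nat.add (Nat.shiftLeft (nat_lit 1) (Nat.land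 (Nat.shiftRight (V (nat_lit 28)) (S (nat_lit 35))) (nat_lit 65535))) (Nat.shiftLeft (nat_lit 1) (Nat.land (Nat.shiftRight (V (nat_lit 29)) (S (nat_lit 35))) (nat_lit 65535)))) (Nat.add (Nat.shiftLeft (nat_lit 1) (Nat.land (Nat.shiftRight (V (nat_lit 29)) (S (nat_lit 44))) (nat_lit 65535))) (Nat.add (Nat.shiftLeft (nat_lit 1) (Nat.land (Nat.shiftRight (V (nat_lit 35)) (S (nat_lit 1))) (nat_lit 65535))) (Nat.shiftLeft (nat_lit 1) (Nat.land (Nat.shiftRight (V (nat_lit 35)) (S (nat_lit 28))) (nat_lit 65535))))))) (Nat.add (Nat.add (Nat.add (Nat.shiftLeft (nat_lit 1) (Nat.land (Nat.shiftRight (V (nat_lit 35)) (S (nat_lit 29))) (nat_lit 65535))) (Nat.shiftLeft (nat_lit 1) (Nat.land (Nat.shiftRight (V (nat_lit 35)) (S (nat_lit 40))) (nat_lit 65535)))) (Nat.add (Nat.shiftLeft (nat_lit 1) (Nat.land (Nat.shiftRight (V (nat_lit 37)) (S (nat_lit 12))) (nat_lit 65535))) (Nat.add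 (Nat.shiftLeft (nat_lit 1) (Nat.land (Nat.shiftRight (V (nat_lit 37)) (S (nat_lit 13))) (nat_lit 65535))) (Nat.shiftLeft (nat_lit 1) (Nat.land (Nat.shiftRight (V (nat_lit 37)) (S (nat_lit 15))) (nat_lit 65535)))))) (Nat.add (Nat.add (Nat.shiftLeft (nat_lit 1) (Nat.land (Nat.shiftRight (V (nat_lit 37)) (S (nat_lit 22))) (nat_lit 65535))) (Nat.shiftLeft (nat_lit 1) (Nat.land (Nat.shiftRight (V (nat_lit 39)) (S (nat_lit 1))) (nat_lit 65535)))) (Nat.add (Nat.shiftLeft (nat_lit 1) (Nat.land (Nat.shiftRight (V (nat_lit 39)) (S (nat_lit 4))) (nat_lit 65535))) (Nat.add (Nat.shiftLeft (nat_lit 1) (Nat.land (Nat.shiftRight (V (nat_lit 39)) (S (nat_lit 13))) (nat_lit 65535))) (Nat.shiftLeft (nat_lit 1) (Nat.land (Nat.shiftRight (V (nat_lit 39)) (S (nat_lit 53))) (nat_lit 65535)))))))) (Nat.add (Nat.add (Nat.add (Nat.add (Nat.shiftLeft (nat_lit 1) (Nat.land (Nat.shiftRight (V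 (nat_lit 40)) (S (nat_lit 10))) (nat_lit 65535))) (Nat.shiftLeft (nat_lit 1) (Nat.land (Nat.shiftRight (V (nat_lit 40)) (S (nat_lit 18))) (nat_lit 65535)))) (Nat.add (Nat.shiftLeft (nat_lit 1) (Nat.land (Nat.shiftRight (V (nat_lit 40)) (S (nat_lit 35))) (nat_lit 65535))) (Nat.add (Nat.shiftLeft (nat_lit 1) (Nat.land (Nat.shiftRight (V (nat_lit 40)) (S (nat_lit 51))) (nat_lit 65535))) (Nat.shiftLeft (nat_lit 1) (Nat.land (Nat.shiftRight (V (nat_lit 42)) (S (nat_lit 1))) (nat_lit 65535)))))) (Nat.add (Nat.add (Nat.shiftLeft (nat_lit 1) (Nat.land (Nat.shiftRight (V (nat_lit 42)) (S (nat_lit 4))) (nat_lit 65535))) (Nat.shiftLeft (nat_lit 1) (Nat.land (Nat.shiftRight (V (nat_lit 42)) (S (nat_lit 5))) (nat_lit 65535)))) (Nat.add (Nat.shiftLeft (nat_lit 1) (Nat.land (Nat.shiftRight (V (nat_lit 42)) (S (nat_lit 7))) (nat_lit 65535))) (Nat.add (Nat.shiftLeft (nat_lit 1) (Nat.land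 (Nat.shiftRight (V (nat_lit 44)) (S (nat_lit 5))) (nat_lit 65535))) (Nat.shiftLeft (nat_lit 1) (Nat.land (Nat.shiftRight (V (nat_lit 44)) (S (nat_lit 15))) (nat_lit 65535))))))) (Nat.add (Nat.add (Nat.add (Nat.shiftLeft (nat_lit 1) (Nat.land (Nat.shiftRight (V (nat_lit 44)) (S (nat_lit 22))) (nat_lit 65535))) (Nat.shiftLeft (nat_lit 1) (Nat.land (Nat.shiftRight (V (nat_lit 44)) (S (nat_lit 29))) (nat_lit 65535)))) (Nat.add (Nat.shiftLeft (nat_lit 1) (Nat.land (Nat.shiftRight (V (nat_lit 51)) (S (nat_lit 22))) (nat_lit 65535))) (Nat.add (Nat.shiftLeft (nat_lit 1) (Nat.land (Nat.shiftRight (V (nat_lit 51)) (S (nat_lit 40))) (nat_lit 65535))) (Nat.shiftLeft (nat_lit 1) (Nat.land (Nat.shiftRight (V (nat_lit 51)) (S (nat_lit 53))) (nat_lit 65535)))))) (Nat.add (Nat.add (Nat.shiftLeft (nat_lit 1) (Nat.land (Nat.shiftRight (V (nat_lit 51)) (S (nat_lit 55))) (nat_lit 65535)))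 (Nat.shiftLeft (nat_lit 1) (Nat.land (Nat.shiftRight (V (nat_lit 53)) (S (nat_lit 39))) (nat_lit 65535)))) (Nat.add (Nat.shiftLeft (nat_lit 1) (Nat.land (Nat.shiftRight (V (nat_lit 53)) (S (nat_lit 51))) (nat_lit 65535))) (Nat.add (Nat.shiftLeft (nat_lit 1) (Nat.land (Nat.shiftRight (V (nat_lit 55)) (S (nat_lit 9))) (nat_lit 65535))) (Nat.shiftLeft (nat_lit 1) (Nat.land (Nat.shiftRight (V (nat_lit 55)) (S (nat_lit 51))) (nat_lit 65535)))))))))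
def E86_3 (V S : ℕ → ℕ) : ℕ := Nat.add (Nat.add (Nat.add (Nat.add (Nat.add (Nat.shiftLeft (nat_lit 1) (Nat.land (Nat.shiftRight (V (nat_lit 1)) (S (nat_lit 8))) (nat_lit 65535))) (Nat.shiftLeft (nat_lit 1) (Nat.land (Nat.shiftRight (V (nat_lit 1)) (S (nat_lit 36))) (nat_lit 65535)))) (Nat.add (Nat.shiftLeft (nat_lit 1) (Nat.land (Nat.shiftRight (V (nat_lit 1)) (S (nat_lit 41))) (nat_lit 65535))) (Nat.add (Nat.shiftLeft (nat_lit 1) (Nat.land (Nat.shiftRight (V (nat_lit 1)) (S (nat_lit 50))) (nat_lit 65535))) (Nat.shiftLeft (nat_lit 1) (Nat.land (Nat.shiftRight (V (nat_lit 4)) (S (nat_lit 8))) (nat_lit 65535)))))) (Nat.add (Nat.add (Nat.shiftLeft (nat_lit 1) (Nat.land (Nat.shiftRight (V (nat_lit 4)) (S (nat_lit 30))) (nat_lit 65535))) (Nat.shiftLeft (nat_lit 1) (Nat.land (Nat.shiftRight (V (nat_lit 4)) (S (nat_lit 50))) (nat_lit 65535)))) (Nat.add (Nat.shiftLeft (nat_lit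 1) (Nat.land (Nat.shiftRight (V (nat_lit 4)) (S (nat_lit 54))) (nat_lit 65535))) (Nat.add (Nat.shiftLeft (nat_lit 1) (Nat.land (Nat.shiftRight (V (nat_lit 8)) (S (nat_lit 1))) (nat_lit 65535))) (Nat.shiftLeft (nat_lit 1) (Nat.land (Nat.shiftRight (V (nat_lit 8)) (S (nat_lit 4))) (nat_lit 65535))))))) (Nat.add (Nat.add (Nat.add (Nat.shiftLeft (nat_lit 1) (Nat.land (Nat.shiftRight (V (nat_lit 15)) (S (nat_lit 21))) (nat_lit 65535))) (Nat.shiftLeft (nat_lit 1) (Nat.land (Nat.shiftRight (V (nat_lit 15)) (S (nat_lit 30))) (nat_lit 65535)))) (Nat.add (Nat.shiftLeft (nat_lit 1) (Nat.land (Nat.shiftRight (V (nat_lit 15)) (S (nat_lit 33))) (nat_lit 65535))) (Nat.add (Nat.shiftLeft (nat_lit 1) (Nat.land (Nat.shiftRight (V (nat_lit 15)) (S (nat_lit 54))) (nat_lit 65535))) (Nat.shiftLeft (nat_lit 1) (Nat.land (Nat.shiftRight (V (nat_lit 21)) (S (nat_lit 15))) (nat_lit 65535))))))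 (Nat.add (Nat.add (Nat.shiftLeft (nat_lit 1) (Nat.land (Nat.shiftRight (V (nat_lit 21)) (S (nat_lit 22))) (nat_lit 65535))) (Nat.shiftLeft (nat_lit 1) (Nat.land (Nat.shiftRight (V (nat_lit 22)) (S (nat_lit 21))) (nat_lit 65535)))) (Nat.add (Nat.shiftLeft (nat_lit 1) (Nat.land (Nat.shiftRight (V (nat_lit 22)) (S (nat_lit 33))) (nat_lit 65535))) (Nat.add (Nat.shiftLeft (nat_lit 1) (Nat.land (Nat.shiftRight (V (nat_lit 22)) (S (nat_lit 46))) (nat_lit 65535))) (Nat.shiftLeft (nat_lit 1) (Nat.land (Nat.shiftRight (V (nat_lit 22)) (S (nat_lit 47))) (nat_lit 65535)))))))) (Nat.add (Nat.add (Nat.add (Nat.add (Nat.shiftLeft (nat_lit 1) (Nat.land (Nat.shiftRight (V (nat_lit 30)) (S (nat_lit 4))) (nat_lit 65535))) (Nat.shiftLeft (nat_lit 1) (Nat.land (Nat.shiftRight (V (nat_lit 30)) (S (nat_lit 15))) (nat_lit 65535)))) (Nat.add (Nat.shiftLeft (nat_lit 1) (Nat.land (Nat.shiftRight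 (V (nat_lit 33)) (S (nat_lit 15))) (nat_lit 65535))) (Nat.add (Nat.shiftLeft (nat_lit 1) (Nat.land (Nat.shiftRight (V (nat_lit 33)) (S (nat_lit 22))) (nat_lit 65535))) (Nat.shiftLeft (nat_lit 1) (Nat.land (Nat.shiftRight (V (nat_lit 36)) (S (nat_lit 1))) (nat_lit 65535)))))) (Nat.add (Nat.add (Nat.shiftLeft (nat_lit 1) (Nat.land (Nat.shiftRight (V (nat_lit 36)) (S (nat_lit 40))) (nat_lit 65535))) (Nat.shiftLeft (nat_lit 1) (Nat.land (Nat.shiftRight (V (nat_lit 40)) (S (nat_lit 36))) (nat_lit 65535)))) (Nat.add (Nat.shiftLeft (nat_lit 1) (Nat.land (Nat.shiftRight (V (nat_lit 40)) (S (nat_lit 41))) (nat_lit 65535))) (Nat.add (Nat.shiftLeft (nat_lit 1) (Nat.land (Nat.shiftRight (V (nat_lit 40)) (S (nat_lit 46))) (nat_lit 65535))) (Nat.shiftLeft (nat_lit 1) (Nat.land (Nat.shiftRight (V (nat_lit 40)) (S (nat_lit 47))) (nat_lit 65535))))))) (Nat.add (Nat.add (Nat.add (Nat.shiftLeft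 (nat_lit 1) (Nat.land (Nat.shiftRight (V (nat_lit 41)) (S (nat_lit 1))) (nat_lit 65535))) (Nat.shiftLeft (nat_lit 1) (Nat.land (Nat.shiftRight (V (nat_lit 41)) (S (nat_lit 40))) (nat_lit 65535)))) (Nat.add (Nat.shiftLeft (nat_lit 1) (Nat.land (Nat.shiftRight (V (nat_lit 46)) (S (nat_lit 22))) (nat_lit 65535))) (Nat.add (Nat.shiftLeft (nat_lit 1) (Nat.land (Nat.shiftRight (V (nat_lit 46)) (S (nat_lit 40))) (nat_lit 65535))) (Nat.shiftLeft (nat_lit 1) (Nat.land (Nat.shiftRight (V (nat_lit 47)) (S (nat_lit 22))) (nat_lit 65535)))))) (Nat.add (Nat.add (Nat.shiftLeft (nat_lit 1) (Nat.land (Nat.shiftRight (V (nat_lit 47)) (S (nat_lit 40))) (nat_lit 65535))) (Nat.shiftLeft (nat_lit 1) (Nat.land (Nat.shiftRight (V (nat_lit 50)) (S (nat_lit 1))) (nat_lit 65535)))) (Nat.add (Nat.shiftLeft (nat_lit 1) (Nat.land (Nat.shiftRight (V (nat_lit 50)) (S (nat_lit 4))) (nat_lit 65535)))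 (Nat.add (Nat.shiftLeft (nat_lit 1) (Nat.land (Nat.shiftRight (V (nat_lit 54)) (S (nat_lit 4))) (nat_lit 65535))) (Nat.shiftLeft (nat_lit 1) (Nat.land (Nat.shiftRight (V (nat_lit 54)) (S (nat_lit 15))) (nat_lit 65535))))))))
def E87_3 (V S : ℕ → ℕ) : ℕ := Nat.add (Nat.add (Nat.add (Nat.add (Nat.add (Nat.add (Nat.shiftLeft (nat_lit 1) (Nat.land (Nat.shiftRight (V (nat_lit 3)) (S (nat_lit 18))) (nat_lit 65535))) (Nat.shiftLeft (nat_lit 1) (Nat.land (Nat.shiftRight (V (nat_lit 3)) (S (nat_lit 44))) (nat_lit 65535)))) (Nat.add (Nat.shiftLeft (nat_lit 1) (Nat.land (Nat.shiftRight (V (nat_lit 5)) (S (nat_lit 10))) (nat_lit 65535))) (Nat.add (Nat.shiftLeft (nat_lit 1) (Nat.land (Nat.shiftRight (V (nat_lit 5)) (S (nat_lit 51))) (nat_lit 65535))) (Nat.shiftLeft (nat_lit 1) (Nat.land (Nat.shiftRight (V (nat_lit 7)) (S (nat_lit 9))) (nat_lit 65535)))))) (Nat.add (Nat.add (Nat.shiftLeft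 (nat_lit 1) (Nat.land (Nat.shiftRight (V (nat_lit 7)) (S (nat_lit 37))) (nat_lit 65535))) (Nat.shiftLeft (nat_lit 1) (Nat.land (Nat.shiftRight (V (nat_lit 9)) (S (nat_lit 7))) (nat_lit 65535)))) (Nat.add (Nat.shiftLeft (nat_lit 1) (Nat.land (Nat.shiftRight (V (nat_lit 9)) (S (nat_lit 11))) (nat_lit 65535))) (Nat.add (Nat.shiftLeft (nat_lit 1) (Nat.land (Nat.shiftRight (V (nat_lit 9)) (S (nat_lit 14))) (nat_lit 65535))) (Nat.shiftLeft (nat_lit 1) (Nat.land (Nat.shiftRight (V (nat_lit 9)) (S (nat_lit 29))) (nat_lit 65535))))))) (Nat.add (Nat.add (Nat.add (Nat.shiftLeft (nat_lit 1) (Nat.land (Nat.shiftRight (V (nat_lit 10)) (S (nat_lit 5))) (nat_lit 65535))) (Nat.shiftLeft (nat_lit 1) (Nat.land (Nat.shiftRight (V (nat_lit 10)) (S (nat_lit 11))) (nat_lit 65535)))) (Nat.add (Nat.shiftLeft (nat_lit 1) (Nat.land (Nat.shiftRight (V (nat_lit 10)) (S (nat_lit 19))) (nat_lit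 65535))) (Nat.add (Nat.shiftLeft (nat_lit 1) (Nat.land (Nat.shiftRight (V (nat_lit 10)) (S (nat_lit 59))) (nat_lit 65535))) (Nat.shiftLeft (nat_lit 1) (Nat.land (Nat.shiftRight (V (nat_lit 11)) (S (nat_lit 9))) (nat_lit 65535)))))) (Nat.add (Nat.add (Nat.shiftLeft (nat_lit 1) (Nat.land (Nat.shiftRight (V (nat_lit 11)) (S (nat_lit 10))) (nat_lit 65535))) (Nat.shiftLeft (nat_lit 1) (Nat.land (Nat.shiftRight (V (nat_lit 11)) (S (nat_lit 23))) (nat_lit 65535)))) (Nat.add (Nat.shiftLeft (nat_lit 1) (Nat.land (Nat.shiftRight (V (nat_lit 11)) (S (nat_lit 35))) (nat_lit 65535))) (Nat.add (Nat.shiftLeft (nat_lit 1) (Nat.land (Nat.shiftRight (V (nat_lit 12)) (S (nat_lit 23))) (nat_lit 65535))) (Nat.shiftLeft (nat_lit 1) (Nat.land (Nat.shiftRight (V (nat_lit 12)) (S (nat_lit 42))) (nat_lit 65535)))))))) (Nat.add (Nat.add (Nat.add (Nat.add (Nat.shiftLeft (nat_lit 1) (Nat.land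 (Nat.shiftRight (V (nat_lit 13)) (S (nat_lit 18))) (nat_lit 65535))) (Nat.shiftLeft (nat_lit 1) (Nat.land (Nat.shiftRight (V (nat_lit 13)) (S (nat_lit 35))) (nat_lit 65535)))) (Nat.add (Nat.shiftLeft (nat_lit 1) (Nat.land (Nat.shiftRight (V (nat_lit 14)) (S (nat_lit 9))) (nat_lit 65535))) (Nat.add (Nat.shiftLeft (nat_lit 1) (Nat.land (Nat.shiftRight (V (nat_lit 14)) (S (nat_lit 18))) (nat_lit 65535))) (Nat.shiftLeft (nat_lit 1) (Nat.land (Nat.shiftRight (V (nat_lit 14)) (S (nat_lit 23))) (nat_lit 65535)))))) (Nat.add (Nat.add (Nat.shiftLeft (nat_lit 1) (Nat.land (Nat.shiftRight (V (nat_lit 14)) (S (nat_lit 51))) (nat_lit 65535))) (Nat.shiftLeft (nat_lit 1) (Nat.land (Nat.shiftRight (V (nat_lit 18)) (S (nat_lit 3))) (nat_lit 65535)))) (Nat.add (Nat.shiftLeft (nat_lit 1) (Nat.land (Nat.shiftRight (V (nat_lit 18)) (S (nat_lit 13))) (nat_lit 65535))) (Nat.add (Nat.shiftLeft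 (nat_lit 1) (Nat.land (Nat.shiftRight (V (nat_lit 18)) (S (nat_lit 14))) (nat_lit 65535))) (Nat.shiftLeft (nat_lit 1) (Nat.land (Nat.shiftRight (V (nat_lit 18)) (S (nat_lit 27))) (nat_lit 65535))))))) (Nat.add (Nat.add (Nat.add (Nat.shiftLeft (nat_lit 1) (Nat.land (Nat.shiftRight (V (nat_lit 19)) (S (nat_lit 10))) (nat_lit 65535))) (Nat.shiftLeft (nat_lit 1) (Nat.land (Nat.shiftRight (V (nat_lit 19)) (S (nat_lit 39))) (nat_lit 65535)))) (Nat.add (Nat.shiftLeft (nat_lit 1) (Nat.land (Nat.shiftRight (V (nat_lit 23)) (S (nat_lit 11))) (nat_lit 65535))) (Nat.add (Nat.shiftLeft (nat_lit 1) (Nat.land (Nat.shiftRight (V (nat_lit 23)) (S (nat_lit 12))) (nat_lit 65535))) (Nat.shiftLeft (nat_lit 1) (Nat.land (Nat.shiftRight (V (nat_lit 23)) (S (nat_lit 14))) (nat_lit 65535)))))) (Nat.add (Nat.add (Nat.shiftLeft (nat_lit 1) (Nat.land (Nat.shiftRight (V (nat_lit 23)) (S (nat_lit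 53))) (nat_lit 65535))) (Nat.shiftLeft (nat_lit 1) (Nat.land (Nat.shiftRight (V (nat_lit 27)) (S (nat_lit 18))) (nat_lit 65535)))) (Nat.add (Nat.shiftLeft (nat_lit 1) (Nat.land (Nat.shiftRight (V (nat_lit 27)) (S (nat_lit 39))) (nat_lit 65535))) (Nat.add (Nat.shiftLeft (nat_lit 1) (Nat.land (Nat.shiftRight (V (nat_lit 27)) (S (nat_lit 42))) (nat_lit 65535))) (Nat.shiftLeft (nat_lit 1) (Nat.land (Nat.shiftRight (V (nat_lit 27)) (S (nat_lit 51))) (nat_lit 65535))))))))) (Nat.add (Nat.add (Nat.add (Nat.add (Nat.add (Nat.shiftLeft (nat_lit 1) (Nat.land (Nat.shiftRight (V (nat_lit 28)) (S (nat_lit 37))) (nat_lit 65535))) (Nat.shiftLeft (nat_lit 1) (Nat.land (Nat.shiftRight (V (nat_lit 28)) (S (nat_lit 51))) (nat_lit 65535)))) (Nat.add (Nat.shiftLeft (nat_lit 1) (Nat.land (Nat.shiftRight (V (nat_lit 29)) (S (nat_lit 9))) (nat_lit 65535))) (Nat.add (Nat.shiftLeft (nat_lit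 1) (Nat.land (Nat.shiftRight (V (nat_lit 29)) (S (nat_lit 39))) (nat_lit 65535))) (Nat.shiftLeft (nat_lit 1) (Nat.land (Nat.shiftRight (V (nat_lit 35)) (S (nat_lit 11))) (nat_lit 65535)))))) (Nat.add (Nat.add (Nat.shiftLeft (nat_lit 1) (Nat.land (Nat.shiftRight (V (nat_lit 35)) (S (nat_lit 13))) (nat_lit 65535))) (Nat.shiftLeft (nat_lit 1) (Nat.land (Nat.shiftRight (V (nat_lit 35)) (S (nat_lit 55))) (nat_lit 65535)))) (Nat.add (Nat.shiftLeft (nat_lit 1) (Nat.land (Nat.shiftRight (V (nat_lit 35)) (S (nat_lit 59))) (nat_lit 65535))) (Nat.add (Nat.shiftLeft (nat_lit 1) (Nat.land (Nat.shiftRight (V (nat_lit 37)) (S (nat_lit 7))) (nat_lit 65535))) (Nat.shiftLeft (nat_lit 1) (Nat.land (Nat.shiftRight (V (nat_lit 37)) (S (nat_lit 28))) (nat_lit 65535))))))) (Nat.add (Nat.add (Nat.add (Nat.shiftLeft (nat_lit 1) (Nat.land (Nat.shiftRight (V (nat_lit 37)) (S (nat_lit 43)))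 (nat_lit 65535))) (Nat.shiftLeft (nat_lit 1) (Nat.land (Nat.shiftRight (V (nat_lit 37)) (S (nat_lit 59))) (nat_lit 65535)))) (Nat.add (Nat.shiftLeft (nat_lit 1) (Nat.land (Nat.shiftRight (V (nat_lit 39)) (S (nat_lit 19))) (nat_lit 65535))) (Nat.add (Nat.shiftLeft (nat_lit 1) (Nat.land (Nat.shiftRight (V (nat_lit 39)) (S (nat_lit 27))) (nat_lit 65535))) (Nat.shiftLeft (nat_lit 1) (Nat.land (Nat.shiftRight (V (nat_lit 39)) (S (nat_lit 29))) (nat_lit 65535)))))) (Nat.add (Nat.add (Nat.shiftLeft (nat_lit 1) (Nat.land (Nat.shiftRight (V (nat_lit 39)) (S (nat_lit 43))) (nat_lit 65535))) (Nat.shiftLeft (nat_lit 1) (Nat.land (Nat.shiftRight (V (nat_lit 42)) (S (nat_lit 12))) (nat_lit 65535)))) (Nat.add (Nat.shiftLeft (nat_lit 1) (Nat.land (Nat.shiftRight (V (nat_lit 42)) (S (nat_lit 27))) (nat_lit 65535))) (Nat.add (Nat.shiftLeft (nat_lit 1) (Nat.land (Nat.shiftRight (V (nat_lit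 42)) (S (nat_lit 43))) (nat_lit 65535))) (Nat.shiftLeft (nat_lit 1) (Nat.land (Nat.shiftRight (V (nat_lit 42)) (S (nat_lit 55))) (nat_lit 65535)))))))) (Nat.add (Nat.add (Nat.add (Nat.add (Nat.shiftLeft (nat_lit 1) (Nat.land (Nat.shiftRight (V (nat_lit 43)) (S (nat_lit 37))) (nat_lit 65535))) (Nat.shiftLeft (nat_lit 1) (Nat.land (Nat.shiftRight (V (nat_lit 43)) (S (nat_lit 39))) (nat_lit 65535)))) (Nat.add (Nat.shiftLeft (nat_lit 1) (Nat.land (Nat.shiftRight (V (nat_lit 43)) (S (nat_lit 42))) (nat_lit 65535))) (Nat.add (Nat.shiftLeft (nat_lit 1) (Nat.land (Nat.shiftRight (V (nat_lit 43)) (S (nat_lit 44))) (nat_lit 65535))) (Nat.shiftLeft (nat_lit 1) (Nat.land (Nat.shiftRight (V (nat_lit 44)) (S (nat_lit 3))) (nat_lit 65535)))))) (Nat.add (Nat.add (Nat.shiftLeft (nat_lit 1) (Nat.land (Nat.shiftRight (V (nat_lit 44)) (S (nat_lit 43))) (nat_lit 65535))) (Nat.shiftLeft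 (nat_lit 1) (Nat.land (Nat.shiftRight (V (nat_lit 44)) (S (nat_lit 53))) (nat_lit 65535)))) (Nat.add (Nat.shiftLeft (nat_lit 1) (Nat.land (Nat.shiftRight (V (nat_lit 44)) (S (nat_lit 59))) (nat_lit 65535))) (Nat.add (Nat.shiftLeft (nat_lit 1) (Nat.land (Nat.shiftRight (V (nat_lit 51)) (S (nat_lit 5))) (nat_lit 65535))) (Nat.shiftLeft (nat_lit 1) (Nat.land (Nat.shiftRight (V (nat_lit 51)) (S (nat_lit 14))) (nat_lit 65535))))))) (Nat.add (Nat.add (Nat.add (Nat.shiftLeft (nat_lit 1) (Nat.land (Nat.shiftRight (V (nat_lit 51)) (S (nat_lit 27))) (nat_lit 65535))) (Nat.shiftLeft (nat_lit 1) (Nat.land (Nat.shiftRight (V (nat_lit 51)) (S (nat_lit 28))) (nat_lit 65535)))) (Nat.add (Nat.shiftLeft (nat_lit 1) (Nat.land (Nat.shiftRight (V (nat_lit 53)) (S (nat_lit 23))) (nat_lit 65535))) (Nat.add (Nat.shiftLeft (nat_lit 1) (Nat.land (Nat.shiftRight (V (nat_lit 53)) (S (nat_lit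 44))) (nat_lit 65535))) (Nat.shiftLeft (nat_lit 1) (Nat.land (Nat.shiftRight (V (nat_lit 55)) (S (nat_lit 35))) (nat_lit 65535)))))) (Nat.add (Nat.add (Nat.shiftLeft (nat_lit 1) (Nat.land (Nat.shiftRight (V (nat_lit 55)) (S (nat_lit 42))) (nat_lit 65535))) (Nat.shiftLeft (nat_lit 1) (Nat.land (Nat.shiftRight (V (nat_lit 59)) (S (nat_lit 10))) (nat_lit 65535)))) (Nat.add (Nat.shiftLeft (nat_lit 1) (Nat.land (Nat.shiftRight (V (nat_lit 59)) (S (nat_lit 35))) (nat_lit 65535))) (Nat.add (Nat.shiftLeft (nat_lit 1) (Nat.land (Nat.shiftRight (V (nat_lit 59)) (S (nat_lit 37))) (nat_lit 65535))) (Nat.shiftLeft (nat_lit 1) (Nat.land (Nat.shiftRight (V (nat_lit 59)) (S (nat_lit 44))) (nat_lit 65535)))))))))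
def E88_3 (V S : ℕ → ℕ) : ℕ := Nat.add (Nat.add (Nat.add (Nat.add (Nat.add (Nat.shiftLeft (nat_lit 1) (Nat.land (Nat.shiftRight (V (nat_lit 3)) (S (nat_lit 36))) (nat_lit 65535))) (Nat.shiftLeft (nat_lit 1) (Nat.land (Nat.shiftRight (V (nat_lit 3)) (S (nat_lit 54))) (nat_lit 65535)))) (Nat.add (Nat.shiftLeft (nat_lit 1) (Nat.land (Nat.shiftRight (V (nat_lit 5)) (S (nat_lit 8))) (nat_lit 65535))) (Nat.add (Nat.shiftLeft (nat_lit 1) (Nat.land (Nat.shiftRight (V (nat_lit 5)) (S (nat_lit 33))) (nat_lit 65535))) (Nat.shiftLeft (nat_lit 1) (Nat.land (Nat.shiftRight (V (nat_lit 7)) (S (nat_lit 8))) (nat_lit 65535)))))) (Nat.add (Nat.add (Nat.shiftLeft (nat_lit 1) (Nat.land (Nat.shiftRight (V (nat_lit 7)) (S (nat_lit 47))) (nat_lit 65535))) (Nat.shiftLeft (nat_lit 1) (Nat.land (Nat.shiftRight (V (nat_lit 8)) (S (nat_lit 5))) (nat_lit 65535)))) (Nat.add (Nat.shiftLeft (nat_lit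 1) (Nat.land (Nat.shiftRight (V (nat_lit 8)) (S (nat_lit 7))) (nat_lit 65535))) (Nat.add (Nat.shiftLeft (nat_lit 1) (Nat.land (Nat.shiftRight (V (nat_lit 12)) (S (nat_lit 21))) (nat_lit 65535))) (Nat.shiftLeft (nat_lit 1) (Nat.land (Nat.shiftRight (V (nat_lit 12)) (S (nat_lit 36))) (nat_lit 65535))))))) (Nat.add (Nat.add (Nat.add (Nat.shiftLeft (nat_lit 1) (Nat.land (Nat.shiftRight (V (nat_lit 13)) (S (nat_lit 21))) (nat_lit 65535))) (Nat.shiftLeft (nat_lit 1) (Nat.land (Nat.shiftRight (V (nat_lit 13)) (S (nat_lit 50))) (nat_lit 65535)))) (Nat.add (Nat.shiftLeft (nat_lit 1) (Nat.land (Nat.shiftRight (V (nat_lit 19)) (S (nat_lit 30))) (nat_lit 65535))) (Nat.add (Nat.shiftLeft (nat_lit 1) (Nat.land (Nat.shiftRight (V (nat_lit 19)) (S (nat_lit 47))) (nat_lit 65535))) (Nat.shiftLeft (nat_lit 1) (Nat.land (Nat.shiftRight (V (nat_lit 21)) (S (nat_lit 12))) (nat_lit 65535))))))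 (Nat.add (Nat.add (Nat.shiftLeft (nat_lit 1) (Nat.land (Nat.shiftRight (V (nat_lit 21)) (S (nat_lit 13))) (nat_lit 65535))) (Nat.shiftLeft (nat_lit 1) (Nat.land (Nat.shiftRight (V (nat_lit 28)) (S (nat_lit 30))) (nat_lit 65535)))) (Nat.add (Nat.shiftLeft (nat_lit 1) (Nat.land (Nat.shiftRight (V (nat_lit 28)) (S (nat_lit 41))) (nat_lit 65535))) (Nat.add (Nat.shiftLeft (nat_lit 1) (Nat.land (Nat.shiftRight (V (nat_lit 29)) (S (nat_lit 33))) (nat_lit 65535))) (Nat.shiftLeft (nat_lit 1) (Nat.land (Nat.shiftRight (V (nat_lit 29)) (S (nat_lit 41))) (nat_lit 65535)))))))) (Nat.add (Nat.add (Nat.add (Nat.add (Nat.shiftLeft (nat_lit 1) (Nat.land (Nat.shiftRight (V (nat_lit 30)) (S (nat_lit 19))) (nat_lit 65535))) (Nat.shiftLeft (nat_lit 1) (Nat.land (Nat.shiftRight (V (nat_lit 30)) (S (nat_lit 28))) (nat_lit 65535)))) (Nat.add (Nat.shiftLeft (nat_lit 1) (Nat.land (Nat.shiftRight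 (V (nat_lit 33)) (S (nat_lit 5))) (nat_lit 65535))) (Nat.add (Nat.shiftLeft (nat_lit 1) (Nat.land (Nat.shiftRight (V (nat_lit 33)) (S (nat_lit 29))) (nat_lit 65535))) (Nat.shiftLeft (nat_lit 1) (Nat.land (Nat.shiftRight (V (nat_lit 36)) (S (nat_lit 3))) (nat_lit 65535)))))) (Nat.add (Nat.add (Nat.shiftLeft (nat_lit 1) (Nat.land (Nat.shiftRight (V (nat_lit 36)) (S (nat_lit 12))) (nat_lit 65535))) (Nat.shiftLeft (nat_lit 1) (Nat.land (Nat.shiftRight (V (nat_lit 41)) (S (nat_lit 28))) (nat_lit 65535)))) (Nat.add (Nat.shiftLeft (nat_lit 1) (Nat.land (Nat.shiftRight (V (nat_lit 41)) (S (nat_lit 29))) (nat_lit 65535))) (Nat.add (Nat.shiftLeft (nat_lit 1) (Nat.land (Nat.shiftRight (V (nat_lit 46)) (S (nat_lit 53))) (nat_lit 65535))) (Nat.shiftLeft (nat_lit 1) (Nat.land (Nat.shiftRight (V (nat_lit 46)) (S (nat_lit 55))) (nat_lit 65535))))))) (Nat.add (Nat.add (Nat.add (Nat.shiftLeft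 (nat_lit 1) (Nat.land (Nat.shiftRight (V (nat_lit 47)) (S (nat_lit 7))) (nat_lit 65535))) (Nat.shiftLeft (nat_lit 1) (Nat.land (Nat.shiftRight (V (nat_lit 47)) (S (nat_lit 19))) (nat_lit 65535)))) (Nat.add (Nat.shiftLeft (nat_lit 1) (Nat.land (Nat.shiftRight (V (nat_lit 50)) (S (nat_lit 13))) (nat_lit 65535))) (Nat.add (Nat.shiftLeft (nat_lit 1) (Nat.land (Nat.shiftRight (V (nat_lit 50)) (S (nat_lit 53))) (nat_lit 65535))) (Nat.shiftLeft (nat_lit 1) (Nat.land (Nat.shiftRight (V (nat_lit 53)) (S (nat_lit 46))) (nat_lit 65535)))))) (Nat.add (Nat.add (Nat.shiftLeft (nat_lit 1) (Nat.land (Nat.shiftRight (V (nat_lit 53)) (S (nat_lit 50))) (nat_lit 65535))) (Nat.shiftLeft (nat_lit 1) (Nat.land (Nat.shiftRight (V (nat_lit 54)) (S (nat_lit 3))) (nat_lit 65535)))) (Nat.add (Nat.shiftLeft (nat_lit 1) (Nat.land (Nat.shiftRight (V (nat_lit 54)) (S (nat_lit 55))) (nat_lit 65535)))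 (Nat.add (Nat.shiftLeft (nat_lit 1) (Nat.land (Nat.shiftRight (V (nat_lit 55)) (S (nat_lit 46))) (nat_lit 65535))) (Nat.shiftLeft (nat_lit 1) (Nat.land (Nat.shiftRight (V (nat_lit 55)) (S (nat_lit 54))) (nat_lit 65535))))))))
def E89_3 (V S : ℕ → ℕ) : ℕ := Nat.add (Nat.add (Nat.add (Nat.add (Nat.shiftLeft (nat_lit 1) (Nat.land (Nat.shiftRight (V (nat_lit 3)) (S (nat_lit 12))) (nat_lit 65535))) (Nat.shiftLeft (nat_lit 1) (Nat.land (Nat.shiftRight (V (nat_lit 3)) (S (nat_lit 55))) (nat_lit 65535)))) (Nat.add (Nat.shiftLeft (nat_lit 1) (Nat.land (Nat.shiftRight (V (nat_lit 5)) (S (nat_lit 7))) (nat_lit 65535))) (Nat.add (Nat.shiftLeft (nat_lit 1) (Nat.land (Nat.shiftRight (V (nat_lit 5)) (S (nat_lit 29))) (nat_lit 65535))) (Nat.shiftLeft (nat_lit 1) (Nat.land (Nat.shiftRight (V (nat_lit 7)) (S (nat_lit 5))) (nat_lit 65535)))))) (Nat.add (Nat.add (Nat.shiftLeft (nat_lit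 1) (Nat.land (Nat.shiftRight (V (nat_lit 7)) (S (nat_lit 19))) (nat_lit 65535))) (Nat.shiftLeft (nat_lit 1) (Nat.land (Nat.shiftRight (V (nat_lit 12)) (S (nat_lit 3))) (nat_lit 65535)))) (Nat.add (Nat.shiftLeft (nat_lit 1) (Nat.land (Nat.shiftRight (V (nat_lit 12)) (S (nat_lit 13))) (nat_lit 65535))) (Nat.add (Nat.shiftLeft (nat_lit 1) (Nat.land (Nat.shiftRight (V (nat_lit 13)) (S (nat_lit 12))) (nat_lit 65535))) (Nat.shiftLeft (nat_lit 1) (Nat.land (Nat.shiftRight (V (nat_lit 13)) (S (nat_lit 53))) (nat_lit 65535))))))) (Nat.add (Nat.add (Nat.add (Nat.shiftLeft (nat_lit 1) (Nat.land (Nat.shiftRight (V (nat_lit 19)) (S (nat_lit 7))) (nat_lit 65535))) (Nat.shiftLeft (nat_lit 1) (Nat.land (Nat.shiftRight (V (nat_lit 19)) (S (nat_lit 28))) (nat_lit 65535)))) (Nat.add (Nat.shiftLeft (nat_lit 1) (Nat.land (Nat.shiftRight (V (nat_lit 28)) (S (nat_lit 19))) (nat_lit 65535)))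 (Nat.add (Nat.shiftLeft (nat_lit 1) (Nat.land (Nat.shiftRight (V (nat_lit 28)) (S (nat_lit 29))) (nat_lit 65535))) (Nat.shiftLeft (nat_lit 1) (Nat.land (Nat.shiftRight (V (nat_lit 29)) (S (nat_lit 5))) (nat_lit 65535)))))) (Nat.add (Nat.add (Nat.shiftLeft (nat_lit 1) (Nat.land (Nat.shiftRight (V (nat_lit 29)) (S (nat_lit 28))) (nat_lit 65535))) (Nat.shiftLeft (nat_lit 1) (Nat.land (Nat.shiftRight (V (nat_lit 53)) (S (nat_lit 13))) (nat_lit 65535)))) (Nat.add (Nat.shiftLeft (nat_lit 1) (Nat.land (Nat.shiftRight (V (nat_lit 53)) (S (nat_lit 55))) (nat_lit 65535))) (Nat.add (Nat.shiftLeft (nat_lit 1) (Nat.land (Nat.shiftRight (V (nat_lit 55)) (S (nat_lit 3))) (nat_lit 65535))) (Nat.shiftLeft (nat_lit 1) (Nat.land (Nat.shiftRight (V (nat_lit 55)) (S (nat_lit 53))) (nat_lit 65535)))))))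
def E90_3 (V S : ℕ → ℕ) : ℕ := Nat.add (Nat.add (Nat.add (Nat.add (Nat.add (Nat.shiftLeft (nat_lit 1) (Nat.land (Nat.shiftRight (V (nat_lit 1)) (S (nat_lit 9))) (nat_lit 65535))) (Nat.shiftLeft (nat_lit 1) (Nat.land (Nat.shiftRight (V (nat_lit 1)) (S (nat_lit 18))) (nat_lit 65535)))) (Nat.add (Nat.shiftLeft (nat_lit 1) (Nat.land (Nat.shiftRight (V (nat_lit 1)) (S (nat_lit 23))) (nat_lit 65535))) (Nat.add (Nat.shiftLeft (nat_lit 1) (Nat.land (Nat.shiftRight (V (nat_lit 1)) (S (nat_lit 51))) (nat_lit 65535))) (Nat.shiftLeft (nat_lit 1) (Nat.land (Nat.shiftRight (V (nat_lit 4)) (S (nat_lit 10))) (nat_lit 65535)))))) (Nat.add (Nat.add (Nat.shiftLeft (nat_lit 1) (Nat.land (Nat.shiftRight (V (nat_lit 4)) (S (nat_lit 35))) (nat_lit 65535))) (Nat.shiftLeft (nat_lit 1) (Nat.land (Nat.shiftRight (V (nat_lit 4)) (S (nat_lit 37))) (nat_lit 65535)))) (Nat.add (Nat.shiftLeft (nat_lit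 1) (Nat.land (Nat.shiftRight (V (nat_lit 4)) (S (nat_lit 44))) (nat_lit 65535))) (Nat.add (Nat.shiftLeft (nat_lit 1) (Nat.land (Nat.shiftRight (V (nat_lit 9)) (S (nat_lit 1))) (nat_lit 65535))) (Nat.shiftLeft (nat_lit 1) (Nat.land (Nat.shiftRight (V (nat_lit 9)) (S (nat_lit 22))) (nat_lit 65535))))))) (Nat.add (Nat.add (Nat.add (Nat.shiftLeft (nat_lit 1) (Nat.land (Nat.shiftRight (V (nat_lit 10)) (S (nat_lit 4))) (nat_lit 65535))) (Nat.shiftLeft (nat_lit 1) (Nat.land (Nat.shiftRight (V (nat_lit 10)) (S (nat_lit 22))) (nat_lit 65535)))) (Nat.add (Nat.shiftLeft (nat_lit 1) (Nat.land (Nat.shiftRight (V (nat_lit 15)) (S (nat_lit 18))) (nat_lit 65535))) (Nat.add (Nat.shiftLeft (nat_lit 1) (Nat.land (Nat.shiftRight (V (nat_lit 15)) (S (nat_lit 39))) (nat_lit 65535))) (Nat.shiftLeft (nat_lit 1) (Nat.land (Nat.shiftRight (V (nat_lit 15)) (S (nat_lit 42))) (nat_lit 65535))))))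 (Nat.add (Nat.add (Nat.shiftLeft (nat_lit 1) (Nat.land (Nat.shiftRight (V (nat_lit 15)) (S (nat_lit 51))) (nat_lit 65535))) (Nat.shiftLeft (nat_lit 1) (Nat.land (Nat.shiftRight (V (nat_lit 18)) (S (nat_lit 1))) (nat_lit 65535)))) (Nat.add (Nat.shiftLeft (nat_lit 1) (Nat.land (Nat.shiftRight (V (nat_lit 18)) (S (nat_lit 15))) (nat_lit 65535))) (Nat.add (Nat.shiftLeft (nat_lit 1) (Nat.land (Nat.shiftRight (V (nat_lit 22)) (S (nat_lit 9))) (nat_lit 65535))) (Nat.shiftLeft (nat_lit 1) (Nat.land (Nat.shiftRight (V (nat_lit 22)) (S (nat_lit 10))) (nat_lit 65535)))))))) (Nat.add (Nat.add (Nat.add (Nat.add (Nat.shiftLeft (nat_lit 1) (Nat.land (Nat.shiftRight (V (nat_lit 22)) (S (nat_lit 23))) (nat_lit 65535))) (Nat.shiftLeft (nat_lit 1) (Nat.land (Nat.shiftRight (V (nat_lit 22)) (S (nat_lit 35))) (nat_lit 65535)))) (Nat.add (Nat.shiftLeft (nat_lit 1) (Nat.land (Nat.shiftRight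 (V (nat_lit 23)) (S (nat_lit 1))) (nat_lit 65535))) (Nat.add (Nat.shiftLeft (nat_lit 1) (Nat.land (Nat.shiftRight (V (nat_lit 23)) (S (nat_lit 22))) (nat_lit 65535))) (Nat.shiftLeft (nat_lit 1) (Nat.land (Nat.shiftRight (V (nat_lit 35)) (S (nat_lit 4))) (nat_lit 65535)))))) (Nat.add (Nat.add (Nat.shiftLeft (nat_lit 1) (Nat.land (Nat.shiftRight (V (nat_lit 35)) (S (nat_lit 22))) (nat_lit 65535))) (Nat.shiftLeft (nat_lit 1) (Nat.land (Nat.shiftRight (V (nat_lit 37)) (S (nat_lit 4))) (nat_lit 65535)))) (Nat.add (Nat.shiftLeft (nat_lit 1) (Nat.land (Nat.shiftRight (V (nat_lit 37)) (S (nat_lit 40))) (nat_lit 65535))) (Nat.add (Nat.shiftLeft (nat_lit 1) (Nat.land (Nat.shiftRight (V (nat_lit 39)) (S (nat_lit 15))) (nat_lit 65535))) (Nat.shiftLeft (nat_lit 1) (Nat.land (Nat.shiftRight (V (nat_lit 39)) (S (nat_lit 40))) (nat_lit 65535))))))) (Nat.add (Nat.add (Nat.add (Nat.shiftLeft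 (nat_lit 1) (Nat.land (Nat.shiftRight (V (nat_lit 40)) (S (nat_lit 37))) (nat_lit 65535))) (Nat.shiftLeft (nat_lit 1) (Nat.land (Nat.shiftRight (V (nat_lit 40)) (S (nat_lit 39))) (nat_lit 65535)))) (Nat.add (Nat.shiftLeft (nat_lit 1) (Nat.land (Nat.shiftRight (V (nat_lit 40)) (S (nat_lit 42))) (nat_lit 65535))) (Nat.add (Nat.shiftLeft (nat_lit 1) (Nat.land (Nat.shiftRight (V (nat_lit 40)) (S (nat_lit 44))) (nat_lit 65535))) (Nat.shiftLeft (nat_lit 1) (Nat.land (Nat.shiftRight (V (nat_lit 42)) (S (nat_lit 15))) (nat_lit 65535)))))) (Nat.add (Nat.add (Nat.shiftLeft (nat_lit 1) (Nat.land (Nat.shiftRight (V (nat_lit 42)) (S (nat_lit 40))) (nat_lit 65535))) (Nat.shiftLeft (nat_lit 1) (Nat.land (Nat.shiftRight (V (nat_lit 44)) (S (nat_lit 4))) (nat_lit 65535)))) (Nat.add (Nat.shiftLeft (nat_lit 1) (Nat.land (Nat.shiftRight (V (nat_lit 44)) (S (nat_lit 40))) (nat_lit 65535)))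 (Nat.add (Nat.shiftLeft (nat_lit 1) (Nat.land (Nat.shiftRight (V (nat_lit 51)) (S (nat_lit 1))) (nat_lit 65535))) (Nat.shiftLeft (nat_lit 1) (Nat.land (Nat.shiftRight (V (nat_lit 51)) (S (nat_lit 15))) (nat_lit 65535))))))))
def E91_3 (V S : ℕ → ℕ) : ℕ := Nat.add (Nat.add (Nat.add (Nat.add (Nat.add (Nat.shiftLeft (nat_lit 1) (Nat.land (Nat.shiftRight (V (nat_lit 2)) (S (nat_lit 6))) (nat_lit 65535))) (Nat.add (Nat.shiftLeft (nat_lit 1) (Nat.land (Nat.shiftRight (V (nat_lit 2)) (S (nat_lit 10))) (nat_lit 65535))) (Nat.shiftLeft (nat_lit 1) (Nat.land (Nat.shiftRight (V (nat_lit 2)) (S (nat_lit 39))) (nat_lit 65535))))) (Nat.add (Nat.add (Nat.shiftLeft (nat_lit 1) (Nat.land (Nat.shiftRight (V (nat_lit 2)) (S (nat_lit 52))) (nat_lit 65535))) (Nat.shiftLeft (nat_lit 1) (Nat.land (Nat.shiftRight (V (nat_lit 6)) (S (nat_lit 2))) (nat_lit 65535)))) (Nat.add (Nat.shiftLeft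 (nat_lit 1) (Nat.land (Nat.shiftRight (V (nat_lit 6)) (S (nat_lit 9))) (nat_lit 65535))) (Nat.shiftLeft (nat_lit 1) (Nat.land (Nat.shiftRight (V (nat_lit 6)) (S (nat_lit 24))) (nat_lit 65535)))))) (Nat.add (Nat.add (Nat.add (Nat.shiftLeft (nat_lit 1) (Nat.land (Nat.shiftRight (V (nat_lit 6)) (S (nat_lit 39))) (nat_lit 65535))) (Nat.shiftLeft (nat_lit 1) (Nat.land (Nat.shiftRight (V (nat_lit 9)) (S (nat_lit 6))) (nat_lit 65535)))) (Nat.add (Nat.shiftLeft (nat_lit 1) (Nat.land (Nat.shiftRight (V (nat_lit 9)) (S (nat_lit 24))) (nat_lit 65535))) (Nat.shiftLeft (nat_lit 1) (Nat.land (Nat.shiftRight (V (nat_lit 10)) (S (nat_lit 2))) (nat_lit 65535))))) (Nat.add (Nat.add (Nat.shiftLeft (nat_lit 1) (Nat.land (Nat.shiftRight (V (nat_lit 10)) (S (nat_lit 52))) (nat_lit 65535))) (Nat.shiftLeft (nat_lit 1) (Nat.land (Nat.shiftRight (V (nat_lit 17)) (S (nat_lit 20))) (nat_lit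 65535)))) (Nat.add (Nat.shiftLeft (nat_lit 1) (Nat.land (Nat.shiftRight (V (nat_lit 17)) (S (nat_lit 23))) (nat_lit 65535))) (Nat.shiftLeft (nat_lit 1) (Nat.land (Nat.shiftRight (V (nat_lit 17)) (S (nat_lit 44))) (nat_lit 65535))))))) (Nat.add (Nat.add (Nat.add (Nat.shiftLeft (nat_lit 1) (Nat.land (Nat.shiftRight (V (nat_lit 17)) (S (nat_lit 56))) (nat_lit 65535))) (Nat.add (Nat.shiftLeft (nat_lit 1) (Nat.land (Nat.shiftRight (V (nat_lit 18)) (S (nat_lit 20))) (nat_lit 65535))) (Nat.shiftLeft (nat_lit 1) (Nat.land (Nat.shiftRight (V (nat_lit 18)) (S (nat_lit 31))) (nat_lit 65535))))) (Nat.add (Nat.add (Nat.shiftLeft (nat_lit 1) (Nat.land (Nat.shiftRight (V (nat_lit 20)) (S (nat_lit 17))) (nat_lit 65535))) (Nat.shiftLeft (nat_lit 1) (Nat.land (Nat.shiftRight (V (nat_lit 20)) (S (nat_lit 18))) (nat_lit 65535)))) (Nat.add (Nat.shiftLeft (nat_lit 1) (Nat.land (Nat.shiftRight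 (V (nat_lit 20)) (S (nat_lit 31))) (nat_lit 65535))) (Nat.shiftLeft (nat_lit 1) (Nat.land (Nat.shiftRight (V (nat_lit 20)) (S (nat_lit 44))) (nat_lit 65535)))))) (Nat.add (Nat.add (Nat.add (Nat.shiftLeft (nat_lit 1) (Nat.land (Nat.shiftRight (V (nat_lit 23)) (S (nat_lit 17))) (nat_lit 65535))) (Nat.shiftLeft (nat_lit 1) (Nat.land (Nat.shiftRight (V (nat_lit 23)) (S (nat_lit 56))) (nat_lit 65535)))) (Nat.add (Nat.shiftLeft (nat_lit 1) (Nat.land (Nat.shiftRight (V (nat_lit 24)) (S (nat_lit 6))) (nat_lit 65535))) (Nat.shiftLeft (nat_lit 1) (Nat.land (Nat.shiftRight (V (nat_lit 24)) (S (nat_lit 9))) (nat_lit 65535))))) (Nat.add (Nat.add (Nat.shiftLeft (nat_lit 1) (Nat.land (Nat.shiftRight (V (nat_lit 24)) (S (nat_lit 37))) (nat_lit 65535))) (Nat.shiftLeft (nat_lit 1) (Nat.land (Nat.shiftRight (V (nat_lit 24)) (S (nat_lit 49))) (nat_lit 65535)))) (Nat.add (Nat.shiftLeft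 (nat_lit 1) (Nat.land (Nat.shiftRight (V (nat_lit 25)) (S (nat_lit 31))) (nat_lit 65535))) (Nat.shiftLeft (nat_lit 1) (Nat.land (Nat.shiftRight (V (nat_lit 25)) (S (nat_lit 35))) (nat_lit 65535)))))))) (Nat.add (Nat.add (Nat.add (Nat.add (Nat.shiftLeft (nat_lit 1) (Nat.land (Nat.shiftRight (V (nat_lit 25)) (S (nat_lit 42))) (nat_lit 65535))) (Nat.add (Nat.shiftLeft (nat_lit 1) (Nat.land (Nat.shiftRight (V (nat_lit 25)) (S (nat_lit 56))) (nat_lit 65535))) (Nat.shiftLeft (nat_lit 1) (Nat.land (Nat.shiftRight (V (nat_lit 31)) (S (nat_lit 18))) (nat_lit 65535))))) (Nat.add (Nat.add (Nat.shiftLeft (nat_lit 1) (Nat.land (Nat.shiftRight (V (nat_lit 31)) (S (nat_lit 20))) (nat_lit 65535))) (Nat.shiftLeft (nat_lit 1) (Nat.land (Nat.shiftRight (V (nat_lit 31)) (S (nat_lit 25))) (nat_lit 65535)))) (Nat.add (Nat.shiftLeft (nat_lit 1) (Nat.land (Nat.shiftRight (V (nat_lit 31))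 (S (nat_lit 35))) (nat_lit 65535))) (Nat.shiftLeft (nat_lit 1) (Nat.land (Nat.shiftRight (V (nat_lit 35)) (S (nat_lit 25))) (nat_lit 65535)))))) (Nat.add (Nat.add (Nat.add (Nat.shiftLeft (nat_lit 1) (Nat.land (Nat.shiftRight (V (nat_lit 35)) (S (nat_lit 31))) (nat_lit 65535))) (Nat.shiftLeft (nat_lit 1) (Nat.land (Nat.shiftRight (V (nat_lit 37)) (S (nat_lit 24))) (nat_lit 65535)))) (Nat.add (Nat.shiftLeft (nat_lit 1) (Nat.land (Nat.shiftRight (V (nat_lit 37)) (S (nat_lit 49))) (nat_lit 65535))) (Nat.shiftLeft (nat_lit 1) (Nat.land (Nat.shiftRight (V (nat_lit 39)) (S (nat_lit 2))) (nat_lit 65535))))) (Nat.add (Nat.add (Nat.shiftLeft (nat_lit 1) (Nat.land (Nat.shiftRight (V (nat_lit 39)) (S (nat_lit 6))) (nat_lit 65535))) (Nat.shiftLeft (nat_lit 1) (Nat.land (Nat.shiftRight (V (nat_lit 42)) (S (nat_lit 25))) (nat_lit 65535)))) (Nat.add (Nat.shiftLeft (nat_lit 1) (Nat.land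 (Nat.shiftRight (V (nat_lit 42)) (S (nat_lit 56))) (nat_lit 65535))) (Nat.shiftLeft (nat_lit 1) (Nat.land (Nat.shiftRight (V (nat_lit 44)) (S (nat_lit 17))) (nat_lit 65535))))))) (Nat.add (Nat.add (Nat.add (Nat.shiftLeft (nat_lit 1) (Nat.land (Nat.shiftRight (V (nat_lit 44)) (S (nat_lit 20))) (nat_lit 65535))) (Nat.add (Nat.shiftLeft (nat_lit 1) (Nat.land (Nat.shiftRight (V (nat_lit 49)) (S (nat_lit 24))) (nat_lit 65535))) (Nat.shiftLeft (nat_lit 1) (Nat.land (Nat.shiftRight (V (nat_lit 49)) (S (nat_lit 37))) (nat_lit 65535))))) (Nat.add (Nat.add (Nat.shiftLeft (nat_lit 1) (Nat.land (Nat.shiftRight (V (nat_lit 49)) (S (nat_lit 51))) (nat_lit 65535))) (Nat.shiftLeft (nat_lit 1) (Nat.land (Nat.shiftRight (V (nat_lit 49)) (S (nat_lit 52))) (nat_lit 65535)))) (Nat.add (Nat.shiftLeft (nat_lit 1) (Nat.land (Nat.shiftRight (V (nat_lit 51)) (S (nat_lit 49))) (nat_lit 65535)))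 (Nat.shiftLeft (nat_lit 1) (Nat.land (Nat.shiftRight (V (nat_lit 51)) (S (nat_lit 52))) (nat_lit 65535)))))) (Nat.add (Nat.add (Nat.add (Nat.shiftLeft (nat_lit 1) (Nat.land (Nat.shiftRight (V (nat_lit 52)) (S (nat_lit 2))) (nat_lit 65535))) (Nat.shiftLeft (nat_lit 1) (Nat.land (Nat.shiftRight (V (nat_lit 52)) (S (nat_lit 10))) (nat_lit 65535)))) (Nat.add (Nat.shiftLeft (nat_lit 1) (Nat.land (Nat.shiftRight (V (nat_lit 52)) (S (nat_lit 49))) (nat_lit 65535))) (Nat.shiftLeft (nat_lit 1) (Nat.land (Nat.shiftRight (V (nat_lit 52)) (S (nat_lit 51))) (nat_lit 65535))))) (Nat.add (Nat.add (Nat.shiftLeft (nat_lit 1) (Nat.land (Nat.shiftRight (V (nat_lit 56)) (S (nat_lit 17))) (nat_lit 65535))) (Nat.shiftLeft (nat_lit 1) (Nat.land (Nat.shiftRight (V (nat_lit 56)) (S (nat_lit 23))) (nat_lit 65535)))) (Nat.add (Nat.shiftLeft (nat_lit 1) (Nat.land (Nat.shiftRight (V (nat_lit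 56)) (S (nat_lit 25))) (nat_lit 65535))) (Nat.shiftLeft (nat_lit 1) (Nat.land (Nat.shiftRight (V (nat_lit 56)) (S (nat_lit 42))) (nat_lit 65535))))))))
def E92_3 (V S : ℕ → ℕ) : ℕ := Nat.add (Nat.add (Nat.add (Nat.add (Nat.add (Nat.shiftLeft (nat_lit 1) (Nat.land (Nat.shiftRight (V (nat_lit 2)) (S (nat_lit 12))) (nat_lit 65535))) (Nat.shiftLeft (nat_lit 1) (Nat.land (Nat.shiftRight (V (nat_lit 2)) (S (nat_lit 13))) (nat_lit 65535)))) (Nat.add (Nat.shiftLeft (nat_lit 1) (Nat.land (Nat.shiftRight (V (nat_lit 3)) (S (nat_lit 24))) (nat_lit 65535))) (Nat.add (Nat.shiftLeft (nat_lit 1) (Nat.land (Nat.shiftRight (V (nat_lit 3)) (S (nat_lit 52))) (nat_lit 65535))) (Nat.shiftLeft (nat_lit 1) (Nat.land (Nat.shiftRight (V (nat_lit 5)) (S (nat_lit 20))) (nat_lit 65535)))))) (Nat.add (Nat.add (Nat.shiftLeft (nat_lit 1) (Nat.land (Nat.shiftRight (V (nat_lit 5)) (S (nat_lit 25)))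 (nat_lit 65535))) (Nat.shiftLeft (nat_lit 1) (Nat.land (Nat.shiftRight (V (nat_lit 6)) (S (nat_lit 53))) (nat_lit 65535)))) (Nat.add (Nat.shiftLeft (nat_lit 1) (Nat.land (Nat.shiftRight (V (nat_lit 6)) (S (nat_lit 55))) (nat_lit 65535))) (Nat.add (Nat.shiftLeft (nat_lit 1) (Nat.land (Nat.shiftRight (V (nat_lit 7)) (S (nat_lit 20))) (nat_lit 65535))) (Nat.shiftLeft (nat_lit 1) (Nat.land (Nat.shiftRight (V (nat_lit 7)) (S (nat_lit 56))) (nat_lit 65535))))))) (Nat.add (Nat.add (Nat.add (Nat.shiftLeft (nat_lit 1) (Nat.land (Nat.shiftRight (V (nat_lit 12)) (S (nat_lit 2))) (nat_lit 65535))) (Nat.shiftLeft (nat_lit 1) (Nat.land (Nat.shiftRight (V (nat_lit 12)) (S (nat_lit 24))) (nat_lit 65535)))) (Nat.add (Nat.shiftLeft (nat_lit 1) (Nat.land (Nat.shiftRight (V (nat_lit 13)) (S (nat_lit 2))) (nat_lit 65535))) (Nat.add (Nat.shiftLeft (nat_lit 1) (Nat.land (Nat.shiftRight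 (V (nat_lit 13)) (S (nat_lit 49))) (nat_lit 65535))) (Nat.shiftLeft (nat_lit 1) (Nat.land (Nat.shiftRight (V (nat_lit 17)) (S (nat_lit 28))) (nat_lit 65535)))))) (Nat.add (Nat.add (Nat.shiftLeft (nat_lit 1) (Nat.land (Nat.shiftRight (V (nat_lit 17)) (S (nat_lit 29))) (nat_lit 65535))) (Nat.shiftLeft (nat_lit 1) (Nat.land (Nat.shiftRight (V (nat_lit 19)) (S (nat_lit 31))) (nat_lit 65535)))) (Nat.add (Nat.shiftLeft (nat_lit 1) (Nat.land (Nat.shiftRight (V (nat_lit 19)) (S (nat_lit 56))) (nat_lit 65535))) (Nat.add (Nat.shiftLeft (nat_lit 1) (Nat.land (Nat.shiftRight (V (nat_lit 20)) (S (nat_lit 5))) (nat_lit 65535))) (Nat.shiftLeft (nat_lit 1) (Nat.land (Nat.shiftRight (V (nat_lit 20)) (S (nat_lit 7))) (nat_lit 65535)))))))) (Nat.add (Nat.add (Nat.add (Nat.add (Nat.shiftLeft (nat_lit 1) (Nat.land (Nat.shiftRight (V (nat_lit 24)) (S (nat_lit 3))) (nat_lit 65535))) (Nat.shiftLeft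 (nat_lit 1) (Nat.land (Nat.shiftRight (V (nat_lit 24)) (S (nat_lit 12))) (nat_lit 65535)))) (Nat.add (Nat.shiftLeft (nat_lit 1) (Nat.land (Nat.shiftRight (V (nat_lit 25)) (S (nat_lit 5))) (nat_lit 65535))) (Nat.add (Nat.shiftLeft (nat_lit 1) (Nat.land (Nat.shiftRight (V (nat_lit 25)) (S (nat_lit 29))) (nat_lit 65535))) (Nat.shiftLeft (nat_lit 1) (Nat.land (Nat.shiftRight (V (nat_lit 28)) (S (nat_lit 17))) (nat_lit 65535)))))) (Nat.add (Nat.add (Nat.shiftLeft (nat_lit 1) (Nat.land (Nat.shiftRight (V (nat_lit 28)) (S (nat_lit 31))) (nat_lit 65535))) (Nat.shiftLeft (nat_lit 1) (Nat.land (Nat.shiftRight (V (nat_lit 29)) (S (nat_lit 17))) (nat_lit 65535)))) (Nat.add (Nat.shiftLeft (nat_lit 1) (Nat.land (Nat.shiftRight (V (nat_lit 29)) (S (nat_lit 25))) (nat_lit 65535))) (Nat.add (Nat.shiftLeft (nat_lit 1) (Nat.land (Nat.shiftRight (V (nat_lit 31)) (S (nat_lit 19))) (nat_lit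 65535))) (Nat.shiftLeft (nat_lit 1) (Nat.land (Nat.shiftRight (V (nat_lit 31)) (S (nat_lit 28))) (nat_lit 65535))))))) (Nat.add (Nat.add (Nat.add (Nat.shiftLeft (nat_lit 1) (Nat.land (Nat.shiftRight (V (nat_lit 49)) (S (nat_lit 13))) (nat_lit 65535))) (Nat.shiftLeft (nat_lit 1) (Nat.land (Nat.shiftRight (V (nat_lit 49)) (S (nat_lit 53))) (nat_lit 65535)))) (Nat.add (Nat.shiftLeft (nat_lit 1) (Nat.land (Nat.shiftRight (V (nat_lit 52)) (S (nat_lit 3))) (nat_lit 65535))) (Nat.add (Nat.shiftLeft (nat_lit 1) (Nat.land (Nat.shiftRight (V (nat_lit 52)) (S (nat_lit 55))) (nat_lit 65535))) (Nat.shiftLeft (nat_lit 1) (Nat.land (Nat.shiftRight (V (nat_lit 53)) (S (nat_lit 6))) (nat_lit 65535)))))) (Nat.add (Nat.add (Nat.shiftLeft (nat_lit 1) (Nat.land (Nat.shiftRight (V (nat_lit 53)) (S (nat_lit 49))) (nat_lit 65535))) (Nat.shiftLeft (nat_lit 1) (Nat.land (Nat.shiftRight (V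 (nat_lit 55)) (S (nat_lit 6))) (nat_lit 65535)))) (Nat.add (Nat.shiftLeft (nat_lit 1) (Nat.land (Nat.shiftRight (V (nat_lit 55)) (S (nat_lit 52))) (nat_lit 65535))) (Nat.add (Nat.shiftLeft (nat_lit 1) (Nat.land (Nat.shiftRight (V (nat_lit 56)) (S (nat_lit 7))) (nat_lit 65535))) (Nat.shiftLeft (nat_lit 1) (Nat.land (Nat.shiftRight (V (nat_lit 56)) (S (nat_lit 19))) (nat_lit 65535))))))))
def E93_3 (V S : ℕ → ℕ) : ℕ := Nat.add (Nat.add (Nat.add (Nat.add (Nat.add (Nat.add (Nat.shiftLeft (nat_lit 1) (Nat.land (Nat.shiftRight (V (nat_lit 3)) (S (nat_lit 21))) (nat_lit 65535))) (Nat.shiftLeft (nat_lit 1) (Nat.land (Nat.shiftRight (V (nat_lit 3)) (S (nat_lit 46))) (nat_lit 65535)))) (Nat.add (Nat.shiftLeft (nat_lit 1) (Nat.land (Nat.shiftRight (V (nat_lit 5)) (S (nat_lit 41))) (nat_lit 65535))) (Nat.add (Nat.shiftLeft (nat_lit 1) (Nat.land (Nat.shiftRight (V (nat_lit 5))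 (S (nat_lit 47))) (nat_lit 65535))) (Nat.shiftLeft (nat_lit 1) (Nat.land (Nat.shiftRight (V (nat_lit 7)) (S (nat_lit 30))) (nat_lit 65535)))))) (Nat.add (Nat.add (Nat.shiftLeft (nat_lit 1) (Nat.land (Nat.shiftRight (V (nat_lit 7)) (S (nat_lit 33))) (nat_lit 65535))) (Nat.shiftLeft (nat_lit 1) (Nat.land (Nat.shiftRight (V (nat_lit 8)) (S (nat_lit 14))) (nat_lit 65535)))) (Nat.add (Nat.shiftLeft (nat_lit 1) (Nat.land (Nat.shiftRight (V (nat_lit 8)) (S (nat_lit 19))) (nat_lit 65535))) (Nat.add (Nat.shiftLeft (nat_lit 1) (Nat.land (Nat.shiftRight (V (nat_lit 8)) (S (nat_lit 29))) (nat_lit 65535))) (Nat.shiftLeft (nat_lit 1) (Nat.land (Nat.shiftRight (V (nat_lit 8)) (S (nat_lit 59))) (nat_lit 65535))))))) (Nat.add (Nat.add (Nat.add (Nat.shiftLeft (nat_lit 1) (Nat.land (Nat.shiftRight (V (nat_lit 11)) (S (nat_lit 21))) (nat_lit 65535))) (Nat.shiftLeft (nat_lit 1) (Nat.land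 (Nat.shiftRight (V (nat_lit 11)) (S (nat_lit 33))) (nat_lit 65535)))) (Nat.add (Nat.shiftLeft (nat_lit 1) (Nat.land (Nat.shiftRight (V (nat_lit 11)) (S (nat_lit 46))) (nat_lit 65535))) (Nat.add (Nat.shiftLeft (nat_lit 1) (Nat.land (Nat.shiftRight (V (nat_lit 11)) (S (nat_lit 47))) (nat_lit 65535))) (Nat.shiftLeft (nat_lit 1) (Nat.land (Nat.shiftRight (V (nat_lit 12)) (S (nat_lit 50))) (nat_lit 65535)))))) (Nat.add (Nat.add (Nat.shiftLeft (nat_lit 1) (Nat.land (Nat.shiftRight (V (nat_lit 12)) (S (nat_lit 54))) (nat_lit 65535))) (Nat.shiftLeft (nat_lit 1) (Nat.land (Nat.shiftRight (V (nat_lit 13)) (S (nat_lit 36))) (nat_lit 65535)))) (Nat.add (Nat.shiftLeft (nat_lit 1) (Nat.land (Nat.shiftRight (V (nat_lit 13)) (S (nat_lit 46))) (nat_lit 65535))) (Nat.add (Nat.shiftLeft (nat_lit 1) (Nat.land (Nat.shiftRight (V (nat_lit 14)) (S (nat_lit 8))) (nat_lit 65535))) (Nat.shiftLeft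 (nat_lit 1) (Nat.land (Nat.shiftRight (V (nat_lit 14)) (S (nat_lit 36))) (nat_lit 65535)))))))) (Nat.add (Nat.add (Nat.add (Nat.add (Nat.shiftLeft (nat_lit 1) (Nat.land (Nat.shiftRight (V (nat_lit 14)) (S (nat_lit 41))) (nat_lit 65535))) (Nat.shiftLeft (nat_lit 1) (Nat.land (Nat.shiftRight (V (nat_lit 14)) (S (nat_lit 50))) (nat_lit 65535)))) (Nat.add (Nat.shiftLeft (nat_lit 1) (Nat.land (Nat.shiftRight (V (nat_lit 19)) (S (nat_lit 8))) (nat_lit 65535))) (Nat.add (Nat.shiftLeft (nat_lit 1) (Nat.land (Nat.shiftRight (V (nat_lit 19)) (S (nat_lit 41))) (nat_lit 65535))) (Nat.shiftLeft (nat_lit 1) (Nat.land (Nat.shiftRight (V (nat_lit 21)) (S (nat_lit 3))) (nat_lit 65535)))))) (Nat.add (Nat.add (Nat.shiftLeft (nat_lit 1) (Nat.land (Nat.shiftRight (V (nat_lit 21)) (S (nat_lit 11))) (nat_lit 65535))) (Nat.shiftLeft (nat_lit 1) (Nat.land (Nat.shiftRight (V (nat_lit 21))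 (S (nat_lit 27))) (nat_lit 65535)))) (Nat.add (Nat.shiftLeft (nat_lit 1) (Nat.land (Nat.shiftRight (V (nat_lit 21)) (S (nat_lit 53))) (nat_lit 65535))) (Nat.add (Nat.shiftLeft (nat_lit 1) (Nat.land (Nat.shiftRight (V (nat_lit 27)) (S (nat_lit 21))) (nat_lit 65535))) (Nat.shiftLeft (nat_lit 1) (Nat.land (Nat.shiftRight (V (nat_lit 27)) (S (nat_lit 30))) (nat_lit 65535))))))) (Nat.add (Nat.add (Nat.add (Nat.shiftLeft (nat_lit 1) (Nat.land (Nat.shiftRight (V (nat_lit 27)) (S (nat_lit 33))) (nat_lit 65535))) (Nat.shiftLeft (nat_lit 1) (Nat.land (Nat.shiftRight (V (nat_lit 27)) (S (nat_lit 54))) (nat_lit 65535)))) (Nat.add (Nat.shiftLeft (nat_lit 1) (Nat.land (Nat.shiftRight (V (nat_lit 28)) (S (nat_lit 33))) (nat_lit 65535))) (Nat.add (Nat.shiftLeft (nat_lit 1) (Nat.land (Nat.shiftRight (V (nat_lit 28)) (S (nat_lit 47))) (nat_lit 65535))) (Nat.shiftLeft (nat_lit 1) (Nat.land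 (Nat.shiftRight (V (nat_lit 29)) (S (nat_lit 8))) (nat_lit 65535)))))) (Nat.add (Nat.add (Nat.shiftLeft (nat_lit 1) (Nat.land (Nat.shiftRight (V (nat_lit 29)) (S (nat_lit 30))) (nat_lit 65535))) (Nat.shiftLeft (nat_lit 1) (Nat.land (Nat.shiftRight (V (nat_lit 30)) (S (nat_lit 7))) (nat_lit 65535)))) (Nat.add (Nat.shiftLeft (nat_lit 1) (Nat.land (Nat.shiftRight (V (nat_lit 30)) (S (nat_lit 27))) (nat_lit 65535))) (Nat.add (Nat.shiftLeft (nat_lit 1) (Nat.land (Nat.shiftRight (V (nat_lit 30)) (S (nat_lit 29))) (nat_lit 65535))) (Nat.shiftLeft (nat_lit 1) (Nat.land (Nat.shiftRight (V (nat_lit 30)) (S (nat_lit 59))) (nat_lit 65535))))))))) (Nat.add (Nat.add (Nat.add (Nat.add (Nat.add (Nat.shiftLeft (nat_lit 1) (Nat.land (Nat.shiftRight (V (nat_lit 33)) (S (nat_lit 7))) (nat_lit 65535))) (Nat.shiftLeft (nat_lit 1) (Nat.land (Nat.shiftRight (V (nat_lit 33)) (S (nat_lit 11)))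 (nat_lit 65535)))) (Nat.add (Nat.shiftLeft (nat_lit 1) (Nat.land (Nat.shiftRight (V (nat_lit 33)) (S (nat_lit 27))) (nat_lit 65535))) (Nat.add (Nat.shiftLeft (nat_lit 1) (Nat.land (Nat.shiftRight (V (nat_lit 33)) (S (nat_lit 28))) (nat_lit 65535))) (Nat.shiftLeft (nat_lit 1) (Nat.land (Nat.shiftRight (V (nat_lit 36)) (S (nat_lit 13))) (nat_lit 65535)))))) (Nat.add (Nat.add (Nat.shiftLeft (nat_lit 1) (Nat.land (Nat.shiftRight (V (nat_lit 36)) (S (nat_lit 14))) (nat_lit 65535))) (Nat.shiftLeft (nat_lit 1) (Nat.land (Nat.shiftRight (V (nat_lit 36)) (S (nat_lit 43))) (nat_lit 65535)))) (Nat.add (Nat.shiftLeft (nat_lit 1) (Nat.land (Nat.shiftRight (V (nat_lit 36)) (S (nat_lit 55))) (nat_lit 65535))) (Nat.add (Nat.shiftLeft (nat_lit 1) (Nat.land (Nat.shiftRight (V (nat_lit 41)) (S (nat_lit 5))) (nat_lit 65535))) (Nat.shiftLeft (nat_lit 1) (Nat.land (Nat.shiftRight (V (nat_lit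 41)) (S (nat_lit 14))) (nat_lit 65535))))))) (Nat.add (Nat.add (Nat.add (Nat.shiftLeft (nat_lit 1) (Nat.land (Nat.shiftRight (V (nat_lit 41)) (S (nat_lit 19))) (nat_lit 65535))) (Nat.shiftLeft (nat_lit 1) (Nat.land (Nat.shiftRight (V (nat_lit 41)) (S (nat_lit 43))) (nat_lit 65535)))) (Nat.add (Nat.shiftLeft (nat_lit 1) (Nat.land (Nat.shiftRight (V (nat_lit 43)) (S (nat_lit 36))) (nat_lit 65535))) (Nat.add (Nat.shiftLeft (nat_lit 1) (Nat.land (Nat.shiftRight (V (nat_lit 43)) (S (nat_lit 41))) (nat_lit 65535))) (Nat.shiftLeft (nat_lit 1) (Nat.land (Nat.shiftRight (V (nat_lit 43)) (S (nat_lit 46))) (nat_lit 65535)))))) (Nat.add (Nat.add (Nat.shiftLeft (nat_lit 1) (Nat.land (Nat.shiftRight (V (nat_lit 43)) (S (nat_lit 47))) (nat_lit 65535))) (Nat.shiftLeft (nat_lit 1) (Nat.land (Nat.shiftRight (V (nat_lit 46)) (S (nat_lit 3))) (nat_lit 65535)))) (Nat.add (Nat.shiftLeft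 (nat_lit 1) (Nat.land (Nat.shiftRight (V (nat_lit 46)) (S (nat_lit 11))) (nat_lit 65535))) (Nat.add (Nat.shiftLeft (nat_lit 1) (Nat.land (Nat.shiftRight (V (nat_lit 46)) (S (nat_lit 13))) (nat_lit 65535))) (Nat.shiftLeft (nat_lit 1) (Nat.land (Nat.shiftRight (V (nat_lit 46)) (S (nat_lit 43))) (nat_lit 65535)))))))) (Nat.add (Nat.add (Nat.add (Nat.add (Nat.shiftLeft (nat_lit 1) (Nat.land (Nat.shiftRight (V (nat_lit 47)) (S (nat_lit 5))) (nat_lit 65535))) (Nat.shiftLeft (nat_lit 1) (Nat.land (Nat.shiftRight (V (nat_lit 47)) (S (nat_lit 11))) (nat_lit 65535)))) (Nat.add (Nat.shiftLeft (nat_lit 1) (Nat.land (Nat.shiftRight (V (nat_lit 47)) (S (nat_lit 28))) (nat_lit 65535))) (Nat.add (Nat.shiftLeft (nat_lit 1) (Nat.land (Nat.shiftRight (V (nat_lit 47)) (S (nat_lit 43))) (nat_lit 65535))) (Nat.shiftLeft (nat_lit 1) (Nat.land (Nat.shiftRight (V (nat_lit 50)) (S (nat_lit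 12))) (nat_lit 65535)))))) (Nat.add (Nat.add (Nat.shiftLeft (nat_lit 1) (Nat.land (Nat.shiftRight (V (nat_lit 50)) (S (nat_lit 14))) (nat_lit 65535))) (Nat.shiftLeft (nat_lit 1) (Nat.land (Nat.shiftRight (V (nat_lit 50)) (S (nat_lit 55))) (nat_lit 65535)))) (Nat.add (Nat.shiftLeft (nat_lit 1) (Nat.land (Nat.shiftRight (V (nat_lit 50)) (S (nat_lit 59))) (nat_lit 65535))) (Nat.add (Nat.shiftLeft (nat_lit 1) (Nat.land (Nat.shiftRight (V (nat_lit 53)) (S (nat_lit 21))) (nat_lit 65535))) (Nat.shiftLeft (nat_lit 1) (Nat.land (Nat.shiftRight (V (nat_lit 53)) (S (nat_lit 54))) (nat_lit 65535))))))) (Nat.add (Nat.add (Nat.add (Nat.shiftLeft (nat_lit 1) (Nat.land (Nat.shiftRight (V (nat_lit 54)) (S (nat_lit 12))) (nat_lit 65535))) (Nat.shiftLeft (nat_lit 1) (Nat.land (Nat.shiftRight (V (nat_lit 54)) (S (nat_lit 27))) (nat_lit 65535)))) (Nat.add (Nat.shiftLeft (nat_lit 1) (Nat.land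 (Nat.shiftRight (V (nat_lit 54)) (S (nat_lit 53))) (nat_lit 65535))) (Nat.add (Nat.shiftLeft (nat_lit 1) (Nat.land (Nat.shiftRight (V (nat_lit 54)) (S (nat_lit 59))) (nat_lit 65535))) (Nat.shiftLeft (nat_lit 1) (Nat.land (Nat.shiftRight (V (nat_lit 55)) (S (nat_lit 36))) (nat_lit 65535)))))) (Nat.add (Nat.add (Nat.shiftLeft (nat_lit 1) (Nat.land (Nat.shiftRight (V (nat_lit 55)) (S (nat_lit 50))) (nat_lit 65535))) (Nat.shiftLeft (nat_lit 1) (Nat.land (Nat.shiftRight (V (nat_lit 59)) (S (nat_lit 8))) (nat_lit 65535)))) (Nat.add (Nat.shiftLeft (nat_lit 1) (Nat.land (Nat.shiftRight (V (nat_lit 59)) (S (nat_lit 30))) (nat_lit 65535))) (Nat.add (Nat.shiftLeft (nat_lit 1) (Nat.land (Nat.shiftRight (V (nat_lit 59)) (S (nat_lit 50))) (nat_lit 65535))) (Nat.shiftLeft (nat_lit 1) (Nat.land (Nat.shiftRight (V (nat_lit 59)) (S (nat_lit 54))) (nat_lit 65535)))))))))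
def E94_3 (V S : ℕ → ℕ) : ℕ := Nat.add (Nat.add (Nat.add (Nat.add (Nat.shiftLeft (nat_lit 1) (Nat.land (Nat.shiftRight (V (nat_lit 3)) (S (nat_lit 11))) (nat_lit 65535))) (Nat.shiftLeft (nat_lit 1) (Nat.land (Nat.shiftRight (V (nat_lit 5)) (S (nat_lit 43))) (nat_lit 65535)))) (Nat.add (Nat.shiftLeft (nat_lit 1) (Nat.land (Nat.shiftRight (V (nat_lit 7)) (S (nat_lit 27))) (nat_lit 65535))) (Nat.add (Nat.shiftLeft (nat_lit 1) (Nat.land (Nat.shiftRight (V (nat_lit 11)) (S (nat_lit 3))) (nat_lit 65535))) (Nat.shiftLeft (nat_lit 1) (Nat.land (Nat.shiftRight (V (nat_lit 11)) (S (nat_lit 28))) (nat_lit 65535)))))) (Nat.add (Nat.add (Nat.shiftLeft (nat_lit 1) (Nat.land (Nat.shiftRight (V (nat_lit 12)) (S (nat_lit 59))) (nat_lit 65535))) (Nat.shiftLeft (nat_lit 1) (Nat.land (Nat.shiftRight (V (nat_lit 13)) (S (nat_lit 43))) (nat_lit 65535)))) (Nat.add (Nat.shiftLeft (nat_lit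 1) (Nat.land (Nat.shiftRight (V (nat_lit 14)) (S (nat_lit 19))) (nat_lit 65535))) (Nat.add (Nat.shiftLeft (nat_lit 1) (Nat.land (Nat.shiftRight (V (nat_lit 14)) (S (nat_lit 55))) (nat_lit 65535))) (Nat.shiftLeft (nat_lit 1) (Nat.land (Nat.shiftRight (V (nat_lit 19)) (S (nat_lit 14))) (nat_lit 65535))))))) (Nat.add (Nat.add (Nat.add (Nat.shiftLeft (nat_lit 1) (Nat.land (Nat.shiftRight (V (nat_lit 27)) (S (nat_lit 7))) (nat_lit 65535))) (Nat.shiftLeft (nat_lit 1) (Nat.land (Nat.shiftRight (V (nat_lit 27)) (S (nat_lit 53))) (nat_lit 65535)))) (Nat.add (Nat.shiftLeft (nat_lit 1) (Nat.land (Nat.shiftRight (V (nat_lit 28)) (S (nat_lit 11))) (nat_lit 65535))) (Nat.add (Nat.shiftLeft (nat_lit 1) (Nat.land (Nat.shiftRight (V (nat_lit 29)) (S (nat_lit 59))) (nat_lit 65535))) (Nat.shiftLeft (nat_lit 1) (Nat.land (Nat.shiftRight (V (nat_lit 43)) (S (nat_lit 5))) (nat_lit 65535))))))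 (Nat.add (Nat.add (Nat.shiftLeft (nat_lit 1) (Nat.land (Nat.shiftRight (V (nat_lit 43)) (S (nat_lit 13))) (nat_lit 65535))) (Nat.shiftLeft (nat_lit 1) (Nat.land (Nat.shiftRight (V (nat_lit 53)) (S (nat_lit 27))) (nat_lit 65535)))) (Nat.add (Nat.shiftLeft (nat_lit 1) (Nat.land (Nat.shiftRight (V (nat_lit 55)) (S (nat_lit 14))) (nat_lit 65535))) (Nat.add (Nat.shiftLeft (nat_lit 1) (Nat.land (Nat.shiftRight (V (nat_lit 59)) (S (nat_lit 12))) (nat_lit 65535))) (Nat.shiftLeft (nat_lit 1) (Nat.land (Nat.shiftRight (V (nat_lit 59)) (S (nat_lit 29))) (nat_lit 65535)))))))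
def E95_3 (V S : ℕ → ℕ) : ℕ := Nat.add (Nat.add (Nat.add (Nat.add (Nat.add (Nat.shiftLeft (nat_lit 1) (Nat.land (Nat.shiftRight (V (nat_lit 8)) (S (nat_lit 30))) (nat_lit 65535))) (Nat.add (Nat.shiftLeft (nat_lit 1) (Nat.land (Nat.shiftRight (V (nat_lit 8)) (S (nat_lit 37))) (nat_lit 65535))) (Nat.shiftLeft (nat_lit 1) (Nat.land (Nat.shiftRight (V (nat_lit 8)) (S (nat_lit 41))) (nat_lit 65535))))) (Nat.add (Nat.add (Nat.shiftLeft (nat_lit 1) (Nat.land (Nat.shiftRight (V (nat_lit 8)) (S (nat_lit 51))) (nat_lit 65535))) (Nat.shiftLeft (nat_lit 1) (Nat.land (Nat.shiftRight (V (nat_lit 9)) (S (nat_lit 41))) (nat_lit 65535)))) (Nat.add (Nat.shiftLeft (nat_lit 1) (Nat.land (Nat.shiftRight (V (nat_lit 9)) (S (nat_lit 47))) (nat_lit 65535))) (Nat.shiftLeft (nat_lit 1) (Nat.land (Nat.shiftRight (V (nat_lit 10)) (S (nat_lit 30))) (nat_lit 65535)))))) (Nat.add (Nat.add (Nat.add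 (Nat.shiftLeft (nat_lit 1) (Nat.land (Nat.shiftRight (V (nat_lit 10)) (S (nat_lit 33))) (nat_lit 65535))) (Nat.shiftLeft (nat_lit 1) (Nat.land (Nat.shiftRight (V (nat_lit 18)) (S (nat_lit 50))) (nat_lit 65535)))) (Nat.add (Nat.shiftLeft (nat_lit 1) (Nat.land (Nat.shiftRight (V (nat_lit 18)) (S (nat_lit 54))) (nat_lit 65535))) (Nat.shiftLeft (nat_lit 1) (Nat.land (Nat.shiftRight (V (nat_lit 21)) (S (nat_lit 35))) (nat_lit 65535))))) (Nat.add (Nat.add (Nat.shiftLeft (nat_lit 1) (Nat.land (Nat.shiftRight (V (nat_lit 21)) (S (nat_lit 42))) (nat_lit 65535))) (Nat.shiftLeft (nat_lit 1) (Nat.land (Nat.shiftRight (V (nat_lit 21)) (S (nat_lit 46))) (nat_lit 65535)))) (Nat.add (Nat.shiftLeft (nat_lit 1) (Nat.land (Nat.shiftRight (V (nat_lit 21)) (S (nat_lit 54))) (nat_lit 65535))) (Nat.shiftLeft (nat_lit 1) (Nat.land (Nat.shiftRight (V (nat_lit 23)) (S (nat_lit 36))) (nat_lit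 65535))))))) (Nat.add (Nat.add (Nat.add (Nat.shiftLeft (nat_lit 1) (Nat.land (Nat.shiftRight (V (nat_lit 23)) (S (nat_lit 46))) (nat_lit 65535))) (Nat.add (Nat.shiftLeft (nat_lit 1) (Nat.land (Nat.shiftRight (V (nat_lit 30)) (S (nat_lit 8))) (nat_lit 65535))) (Nat.shiftLeft (nat_lit 1) (Nat.land (Nat.shiftRight (V (nat_lit 30)) (S (nat_lit 10))) (nat_lit 65535))))) (Nat.add (Nat.add (Nat.shiftLeft (nat_lit 1) (Nat.land (Nat.shiftRight (V (nat_lit 30)) (S (nat_lit 33))) (nat_lit 65535))) (Nat.shiftLeft (nat_lit 1) (Nat.land (Nat.shiftRight (V (nat_lit 30)) (S (nat_lit 51))) (nat_lit 65535)))) (Nat.add (Nat.shiftLeft (nat_lit 1) (Nat.land (Nat.shiftRight (V (nat_lit 33)) (S (nat_lit 10))) (nat_lit 65535))) (Nat.shiftLeft (nat_lit 1) (Nat.land (Nat.shiftRight (V (nat_lit 33)) (S (nat_lit 30))) (nat_lit 65535)))))) (Nat.add (Nat.add (Nat.add (Nat.shiftLeft (nat_lit 1)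 (Nat.land (Nat.shiftRight (V (nat_lit 33)) (S (nat_lit 39))) (nat_lit 65535))) (Nat.shiftLeft (nat_lit 1) (Nat.land (Nat.shiftRight (V (nat_lit 33)) (S (nat_lit 47))) (nat_lit 65535)))) (Nat.add (Nat.shiftLeft (nat_lit 1) (Nat.land (Nat.shiftRight (V (nat_lit 35)) (S (nat_lit 21))) (nat_lit 65535))) (Nat.shiftLeft (nat_lit 1) (Nat.land (Nat.shiftRight (V (nat_lit 35)) (S (nat_lit 54))) (nat_lit 65535))))) (Nat.add (Nat.add (Nat.shiftLeft (nat_lit 1) (Nat.land (Nat.shiftRight (V (nat_lit 36)) (S (nat_lit 23))) (nat_lit 65535))) (Nat.shiftLeft (nat_lit 1) (Nat.land (Nat.shiftRight (V (nat_lit 36)) (S (nat_lit 44))) (nat_lit 65535)))) (Nat.add (Nat.shiftLeft (nat_lit 1) (Nat.land (Nat.shiftRight (V (nat_lit 36)) (S (nat_lit 46))) (nat_lit 65535))) (Nat.shiftLeft (nat_lit 1) (Nat.land (Nat.shiftRight (V (nat_lit 36)) (S (nat_lit 50))) (nat_lit 65535)))))))) (Nat.add (Nat.add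 (Nat.add (Nat.add (Nat.shiftLeft (nat_lit 1) (Nat.land (Nat.shiftRight (V (nat_lit 37)) (S (nat_lit 8))) (nat_lit 65535))) (Nat.add (Nat.shiftLeft (nat_lit 1) (Nat.land (Nat.shiftRight (V (nat_lit 37)) (S (nat_lit 41))) (nat_lit 65535))) (Nat.shiftLeft (nat_lit 1) (Nat.land (Nat.shiftRight (V (nat_lit 39)) (S (nat_lit 33))) (nat_lit 65535))))) (Nat.add (Nat.add (Nat.shiftLeft (nat_lit 1) (Nat.land (Nat.shiftRight (V (nat_lit 39)) (S (nat_lit 47))) (nat_lit 65535))) (Nat.shiftLeft (nat_lit 1) (Nat.land (Nat.shiftRight (V (nat_lit 41)) (S (nat_lit 8))) (nat_lit 65535)))) (Nat.add (Nat.shiftLeft (nat_lit 1) (Nat.land (Nat.shiftRight (V (nat_lit 41)) (S (nat_lit 9))) (nat_lit 65535))) (Nat.shiftLeft (nat_lit 1) (Nat.land (Nat.shiftRight (V (nat_lit 41)) (S (nat_lit 37))) (nat_lit 65535)))))) (Nat.add (Nat.add (Nat.add (Nat.shiftLeft (nat_lit 1) (Nat.land (Nat.shiftRight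 (V (nat_lit 41)) (S (nat_lit 47))) (nat_lit 65535))) (Nat.shiftLeft (nat_lit 1) (Nat.land (Nat.shiftRight (V (nat_lit 42)) (S (nat_lit 21))) (nat_lit 65535)))) (Nat.add (Nat.shiftLeft (nat_lit 1) (Nat.land (Nat.shiftRight (V (nat_lit 42)) (S (nat_lit 46))) (nat_lit 65535))) (Nat.shiftLeft (nat_lit 1) (Nat.land (Nat.shiftRight (V (nat_lit 44)) (S (nat_lit 36))) (nat_lit 65535))))) (Nat.add (Nat.add (Nat.shiftLeft (nat_lit 1) (Nat.land (Nat.shiftRight (V (nat_lit 44)) (S (nat_lit 50))) (nat_lit 65535))) (Nat.shiftLeft (nat_lit 1) (Nat.land (Nat.shiftRight (V (nat_lit 46)) (S (nat_lit 21))) (nat_lit 65535)))) (Nat.add (Nat.shiftLeft (nat_lit 1) (Nat.land (Nat.shiftRight (V (nat_lit 46)) (S (nat_lit 23))) (nat_lit 65535))) (Nat.shiftLeft (nat_lit 1) (Nat.land (Nat.shiftRight (V (nat_lit 46)) (S (nat_lit 36))) (nat_lit 65535))))))) (Nat.add (Nat.add (Nat.add (Nat.shiftLeft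 (nat_lit 1) (Nat.land (Nat.shiftRight (V (nat_lit 46)) (S (nat_lit 42))) (nat_lit 65535))) (Nat.add (Nat.shiftLeft (nat_lit 1) (Nat.land (Nat.shiftRight (V (nat_lit 47)) (S (nat_lit 9))) (nat_lit 65535))) (Nat.shiftLeft (nat_lit 1) (Nat.land (Nat.shiftRight (V (nat_lit 47)) (S (nat_lit 33))) (nat_lit 65535))))) (Nat.add (Nat.add (Nat.shiftLeft (nat_lit 1) (Nat.land (Nat.shiftRight (V (nat_lit 47)) (S (nat_lit 39))) (nat_lit 65535))) (Nat.shiftLeft (nat_lit 1) (Nat.land (Nat.shiftRight (V (nat_lit 47)) (S (nat_lit 41))) (nat_lit 65535)))) (Nat.add (Nat.shiftLeft (nat_lit 1) (Nat.land (Nat.shiftRight (V (nat_lit 50)) (S (nat_lit 18))) (nat_lit 65535))) (Nat.shiftLeft (nat_lit 1) (Nat.land (Nat.shiftRight (V (nat_lit 50)) (S (nat_lit 36))) (nat_lit 65535)))))) (Nat.add (Nat.add (Nat.add (Nat.shiftLeft (nat_lit 1) (Nat.land (Nat.shiftRight (V (nat_lit 50)) (S (nat_lit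 44))) (nat_lit 65535))) (Nat.shiftLeft (nat_lit 1) (Nat.land (Nat.shiftRight (V (nat_lit 50)) (S (nat_lit 54))) (nat_lit 65535)))) (Nat.add (Nat.shiftLeft (nat_lit 1) (Nat.land (Nat.shiftRight (V (nat_lit 51)) (S (nat_lit 8))) (nat_lit 65535))) (Nat.shiftLeft (nat_lit 1) (Nat.land (Nat.shiftRight (V (nat_lit 51)) (S (nat_lit 30))) (nat_lit 65535))))) (Nat.add (Nat.add (Nat.shiftLeft (nat_lit 1) (Nat.land (Nat.shiftRight (V (nat_lit 54)) (S (nat_lit 18))) (nat_lit 65535))) (Nat.shiftLeft (nat_lit 1) (Nat.land (Nat.shiftRight (V (nat_lit 54)) (S (nat_lit 21))) (nat_lit 65535)))) (Nat.add (Nat.shiftLeft (nat_lit 1) (Nat.land (Nat.shiftRight (V (nat_lit 54)) (S (nat_lit 35))) (nat_lit 65535))) (Nat.shiftLeft (nat_lit 1) (Nat.land (Nat.shiftRight (V (nat_lit 54)) (S (nat_lit 50))) (nat_lit 65535))))))))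
def E96_3 (V S : ℕ → ℕ) : ℕ := Nat.add (Nat.add (Nat.add (Nat.add (Nat.add (Nat.shiftLeft (nat_lit 1) (Nat.land (Nat.shiftRight (V (nat_lit 1)) (S (nat_lit 21))) (nat_lit 65535))) (Nat.add (Nat.shiftLeft (nat_lit 1) (Nat.land (Nat.shiftRight (V (nat_lit 1)) (S (nat_lit 33))) (nat_lit 65535))) (Nat.shiftLeft (nat_lit 1) (Nat.land (Nat.shiftRight (V (nat_lit 2)) (S (nat_lit 19))) (nat_lit 65535))))) (Nat.add (Nat.add (Nat.shiftLeft (nat_lit 1) (Nat.land (Nat.shiftRight (V (nat_lit 2)) (S (nat_lit 21))) (nat_lit 65535))) (Nat.shiftLeft (nat_lit 1) (Nat.land (Nat.shiftRight (V (nat_lit 3)) (S (nat_lit 20))) (nat_lit 65535)))) (Nat.add (Nat.shiftLeft (nat_lit 1) (Nat.land (Nat.shiftRight (V (nat_lit 4)) (S (nat_lit 46))) (nat_lit 65535))) (Nat.shiftLeft (nat_lit 1) (Nat.land (Nat.shiftRight (V (nat_lit 4)) (S (nat_lit 47))) (nat_lit 65535)))))) (Nat.add (Nat.add (Nat.add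 (Nat.shiftLeft (nat_lit 1) (Nat.land (Nat.shiftRight (V (nat_lit 5)) (S (nat_lit 52))) (nat_lit 65535))) (Nat.shiftLeft (nat_lit 1) (Nat.land (Nat.shiftRight (V (nat_lit 6)) (S (nat_lit 29))) (nat_lit 65535)))) (Nat.add (Nat.shiftLeft (nat_lit 1) (Nat.land (Nat.shiftRight (V (nat_lit 6)) (S (nat_lit 46))) (nat_lit 65535))) (Nat.shiftLeft (nat_lit 1) (Nat.land (Nat.shiftRight (V (nat_lit 7)) (S (nat_lit 24))) (nat_lit 65535))))) (Nat.add (Nat.add (Nat.shiftLeft (nat_lit 1) (Nat.land (Nat.shiftRight (V (nat_lit 8)) (S (nat_lit 20))) (nat_lit 65535))) (Nat.shiftLeft (nat_lit 1) (Nat.land (Nat.shiftRight (V (nat_lit 8)) (S (nat_lit 22))) (nat_lit 65535)))) (Nat.add (Nat.shiftLeft (nat_lit 1) (Nat.land (Nat.shiftRight (V (nat_lit 12)) (S (nat_lit 56))) (nat_lit 65535))) (Nat.shiftLeft (nat_lit 1) (Nat.land (Nat.shiftRight (V (nat_lit 13)) (S (nat_lit 31))) (nat_lit 65535)))))))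 (Nat.add (Nat.add (Nat.add (Nat.shiftLeft (nat_lit 1) (Nat.land (Nat.shiftRight (V (nat_lit 15)) (S (nat_lit 36))) (nat_lit 65535))) (Nat.add (Nat.shiftLeft (nat_lit 1) (Nat.land (Nat.shiftRight (V (nat_lit 15)) (S (nat_lit 41))) (nat_lit 65535))) (Nat.shiftLeft (nat_lit 1) (Nat.land (Nat.shiftRight (V (nat_lit 17)) (S (nat_lit 41))) (nat_lit 65535))))) (Nat.add (Nat.add (Nat.shiftLeft (nat_lit 1) (Nat.land (Nat.shiftRight (V (nat_lit 17)) (S (nat_lit 53))) (nat_lit 65535))) (Nat.shiftLeft (nat_lit 1) (Nat.land (Nat.shiftRight (V (nat_lit 19)) (S (nat_lit 2))) (nat_lit 65535)))) (Nat.add (Nat.shiftLeft (nat_lit 1) (Nat.land (Nat.shiftRight (V (nat_lit 20)) (S (nat_lit 3))) (nat_lit 65535))) (Nat.shiftLeft (nat_lit 1) (Nat.land (Nat.shiftRight (V (nat_lit 20)) (S (nat_lit 8))) (nat_lit 65535)))))) (Nat.add (Nat.add (Nat.add (Nat.shiftLeft (nat_lit 1) (Nat.land (Nat.shiftRight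 (V (nat_lit 21)) (S (nat_lit 1))) (nat_lit 65535))) (Nat.shiftLeft (nat_lit 1) (Nat.land (Nat.shiftRight (V (nat_lit 21)) (S (nat_lit 2))) (nat_lit 65535)))) (Nat.add (Nat.shiftLeft (nat_lit 1) (Nat.land (Nat.shiftRight (V (nat_lit 22)) (S (nat_lit 8))) (nat_lit 65535))) (Nat.shiftLeft (nat_lit 1) (Nat.land (Nat.shiftRight (V (nat_lit 22)) (S (nat_lit 50))) (nat_lit 65535))))) (Nat.add (Nat.add (Nat.shiftLeft (nat_lit 1) (Nat.land (Nat.shiftRight (V (nat_lit 24)) (S (nat_lit 7))) (nat_lit 65535))) (Nat.shiftLeft (nat_lit 1) (Nat.land (Nat.shiftRight (V (nat_lit 24)) (S (nat_lit 36))) (nat_lit 65535)))) (Nat.add (Nat.shiftLeft (nat_lit 1) (Nat.land (Nat.shiftRight (V (nat_lit 25)) (S (nat_lit 33))) (nat_lit 65535))) (Nat.shiftLeft (nat_lit 1) (Nat.land (Nat.shiftRight (V (nat_lit 25)) (S (nat_lit 55))) (nat_lit 65535)))))))) (Nat.add (Nat.add (Nat.add (Nat.add (Nat.shiftLeft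 (nat_lit 1) (Nat.land (Nat.shiftRight (V (nat_lit 28)) (S (nat_lit 49))) (nat_lit 65535))) (Nat.add (Nat.shiftLeft (nat_lit 1) (Nat.land (Nat.shiftRight (V (nat_lit 29)) (S (nat_lit 6))) (nat_lit 65535))) (Nat.shiftLeft (nat_lit 1) (Nat.land (Nat.shiftRight (V (nat_lit 30)) (S (nat_lit 31))) (nat_lit 65535))))) (Nat.add (Nat.add (Nat.shiftLeft (nat_lit 1) (Nat.land (Nat.shiftRight (V (nat_lit 30)) (S (nat_lit 40))) (nat_lit 65535))) (Nat.shiftLeft (nat_lit 1) (Nat.land (Nat.shiftRight (V (nat_lit 31)) (S (nat_lit 13))) (nat_lit 65535)))) (Nat.add (Nat.shiftLeft (nat_lit 1) (Nat.land (Nat.shiftRight (V (nat_lit 31)) (S (nat_lit 30))) (nat_lit 65535))) (Nat.shiftLeft (nat_lit 1) (Nat.land (Nat.shiftRight (V (nat_lit 33)) (S (nat_lit 1))) (nat_lit 65535)))))) (Nat.add (Nat.add (Nat.add (Nat.shiftLeft (nat_lit 1) (Nat.land (Nat.shiftRight (V (nat_lit 33)) (S (nat_lit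 25))) (nat_lit 65535))) (Nat.shiftLeft (nat_lit 1) (Nat.land (Nat.shiftRight (V (nat_lit 36)) (S (nat_lit 15))) (nat_lit 65535)))) (Nat.add (Nat.shiftLeft (nat_lit 1) (Nat.land (Nat.shiftRight (V (nat_lit 36)) (S (nat_lit 24))) (nat_lit 65535))) (Nat.shiftLeft (nat_lit 1) (Nat.land (Nat.shiftRight (V (nat_lit 40)) (S (nat_lit 30))) (nat_lit 65535))))) (Nat.add (Nat.add (Nat.shiftLeft (nat_lit 1) (Nat.land (Nat.shiftRight (V (nat_lit 40)) (S (nat_lit 54))) (nat_lit 65535))) (Nat.shiftLeft (nat_lit 1) (Nat.land (Nat.shiftRight (V (nat_lit 41)) (S (nat_lit 15))) (nat_lit 65535)))) (Nat.add (Nat.shiftLeft (nat_lit 1) (Nat.land (Nat.shiftRight (V (nat_lit 41)) (S (nat_lit 17))) (nat_lit 65535))) (Nat.shiftLeft (nat_lit 1) (Nat.land (Nat.shiftRight (V (nat_lit 46)) (S (nat_lit 4))) (nat_lit 65535))))))) (Nat.add (Nat.add (Nat.add (Nat.shiftLeft (nat_lit 1) (Nat.land (Nat.shiftRight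 (V (nat_lit 46)) (S (nat_lit 6))) (nat_lit 65535))) (Nat.add (Nat.shiftLeft (nat_lit 1) (Nat.land (Nat.shiftRight (V (nat_lit 47)) (S (nat_lit 4))) (nat_lit 65535))) (Nat.shiftLeft (nat_lit 1) (Nat.land (Nat.shiftRight (V (nat_lit 47)) (S (nat_lit 56))) (nat_lit 65535))))) (Nat.add (Nat.add (Nat.shiftLeft (nat_lit 1) (Nat.land (Nat.shiftRight (V (nat_lit 49)) (S (nat_lit 28))) (nat_lit 65535))) (Nat.shiftLeft (nat_lit 1) (Nat.land (Nat.shiftRight (V (nat_lit 49)) (S (nat_lit 50))) (nat_lit 65535)))) (Nat.add (Nat.shiftLeft (nat_lit 1) (Nat.land (Nat.shiftRight (V (nat_lit 50)) (S (nat_lit 22))) (nat_lit 65535))) (Nat.shiftLeft (nat_lit 1) (Nat.land (Nat.shiftRight (V (nat_lit 50)) (S (nat_lit 49))) (nat_lit 65535)))))) (Nat.add (Nat.add (Nat.add (Nat.shiftLeft (nat_lit 1) (Nat.land (Nat.shiftRight (V (nat_lit 52)) (S (nat_lit 5))) (nat_lit 65535))) (Nat.shiftLeft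 (nat_lit 1) (Nat.land (Nat.shiftRight (V (nat_lit 52)) (S (nat_lit 54))) (nat_lit 65535)))) (Nat.add (Nat.shiftLeft (nat_lit 1) (Nat.land (Nat.shiftRight (V (nat_lit 53)) (S (nat_lit 17))) (nat_lit 65535))) (Nat.shiftLeft (nat_lit 1) (Nat.land (Nat.shiftRight (V (nat_lit 54)) (S (nat_lit 40))) (nat_lit 65535))))) (Nat.add (Nat.add (Nat.shiftLeft (nat_lit 1) (Nat.land (Nat.shiftRight (V (nat_lit 54)) (S (nat_lit 52))) (nat_lit 65535))) (Nat.shiftLeft (nat_lit 1) (Nat.land (Nat.shiftRight (V (nat_lit 55)) (S (nat_lit 25))) (nat_lit 65535)))) (Nat.add (Nat.shiftLeft (nat_lit 1) (Nat.land (Nat.shiftRight (V (nat_lit 56)) (S (nat_lit 12))) (nat_lit 65535))) (Nat.shiftLeft (nat_lit 1) (Nat.land (Nat.shiftRight (V (nat_lit 56)) (S (nat_lit 47))) (nat_lit 65535))))))))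
def E97_3 (V S : ℕ → ℕ) : ℕ := Nat.add (Nat.add (Nat.add (Nat.add (Nat.add (Nat.add (Nat.shiftLeft (nat_lit 1) (Nat.land (Nat.shiftRight (V (nat_lit 1)) (S (nat_lit 26))) (nat_lit 65535))) (Nat.shiftLeft (nat_lit 1) (Nat.land (Nat.shiftRight (V (nat_lit 1)) (S (nat_lit 38))) (nat_lit 65535)))) (Nat.add (Nat.shiftLeft (nat_lit 1) (Nat.land (Nat.shiftRight (V (nat_lit 2)) (S (nat_lit 24))) (nat_lit 65535))) (Nat.add (Nat.shiftLeft (nat_lit 1) (Nat.land (Nat.shiftRight (V (nat_lit 2)) (S (nat_lit 26))) (nat_lit 65535))) (Nat.shiftLeft (nat_lit 1) (Nat.land (Nat.shiftRight (V (nat_lit 2)) (S (nat_lit 38))) (nat_lit 65535)))))) (Nat.add (Nat.add (Nat.shiftLeft (nat_lit 1) (Nat.land (Nat.shiftRight (V (nat_lit 2)) (S (nat_lit 49))) (nat_lit 65535))) (Nat.shiftLeft (nat_lit 1) (Nat.land (Nat.shiftRight (V (nat_lit 4)) (S (nat_lit 57))) (nat_lit 65535)))) (Nat.add (Nat.shiftLeft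 (nat_lit 1) (Nat.land (Nat.shiftRight (V (nat_lit 4)) (S (nat_lit 58))) (nat_lit 65535))) (Nat.add (Nat.shiftLeft (nat_lit 1) (Nat.land (Nat.shiftRight (V (nat_lit 6)) (S (nat_lit 49))) (nat_lit 65535))) (Nat.shiftLeft (nat_lit 1) (Nat.land (Nat.shiftRight (V (nat_lit 6)) (S (nat_lit 52))) (nat_lit 65535))))))) (Nat.add (Nat.add (Nat.add (Nat.shiftLeft (nat_lit 1) (Nat.land (Nat.shiftRight (V (nat_lit 6)) (S (nat_lit 57))) (nat_lit 65535))) (Nat.shiftLeft (nat_lit 1) (Nat.land (Nat.shiftRight (V (nat_lit 6)) (S (nat_lit 58))) (nat_lit 65535)))) (Nat.add (Nat.shiftLeft (nat_lit 1) (Nat.land (Nat.shiftRight (V (nat_lit 15)) (S (nat_lit 26))) (nat_lit 65535))) (Nat.add (Nat.shiftLeft (nat_lit 1) (Nat.land (Nat.shiftRight (V (nat_lit 15)) (S (nat_lit 34))) (nat_lit 65535))) (Nat.shiftLeft (nat_lit 1) (Nat.land (Nat.shiftRight (V (nat_lit 17)) (S (nat_lit 25))) (nat_lit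 65535)))))) (Nat.add (Nat.add (Nat.shiftLeft (nat_lit 1) (Nat.land (Nat.shiftRight (V (nat_lit 17)) (S (nat_lit 26))) (nat_lit 65535))) (Nat.shiftLeft (nat_lit 1) (Nat.land (Nat.shiftRight (V (nat_lit 17)) (S (nat_lit 31))) (nat_lit 65535)))) (Nat.add (Nat.shiftLeft (nat_lit 1) (Nat.land (Nat.shiftRight (V (nat_lit 17)) (S (nat_lit 34))) (nat_lit 65535))) (Nat.add (Nat.shiftLeft (nat_lit 1) (Nat.land (Nat.shiftRight (V (nat_lit 20)) (S (nat_lit 25))) (nat_lit 65535))) (Nat.shiftLeft (nat_lit 1) (Nat.land (Nat.shiftRight (V (nat_lit 20)) (S (nat_lit 38))) (nat_lit 65535)))))))) (Nat.add (Nat.add (Nat.add (Nat.add (Nat.shiftLeft (nat_lit 1) (Nat.land (Nat.shiftRight (V (nat_lit 20)) (S (nat_lit 56))) (nat_lit 65535))) (Nat.shiftLeft (nat_lit 1) (Nat.land (Nat.shiftRight (V (nat_lit 20)) (S (nat_lit 57))) (nat_lit 65535)))) (Nat.add (Nat.shiftLeft (nat_lit 1) (Nat.land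 (Nat.shiftRight (V (nat_lit 22)) (S (nat_lit 38))) (nat_lit 65535))) (Nat.add (Nat.shiftLeft (nat_lit 1) (Nat.land (Nat.shiftRight (V (nat_lit 22)) (S (nat_lit 57))) (nat_lit 65535))) (Nat.shiftLeft (nat_lit 1) (Nat.land (Nat.shiftRight (V (nat_lit 24)) (S (nat_lit 2))) (nat_lit 65535)))))) (Nat.add (Nat.add (Nat.shiftLeft (nat_lit 1) (Nat.land (Nat.shiftRight (V (nat_lit 24)) (S (nat_lit 26))) (nat_lit 65535))) (Nat.shiftLeft (nat_lit 1) (Nat.land (Nat.shiftRight (V (nat_lit 24)) (S (nat_lit 34))) (nat_lit 65535)))) (Nat.add (Nat.shiftLeft (nat_lit 1) (Nat.land (Nat.shiftRight (V (nat_lit 24)) (S (nat_lit 52))) (nat_lit 65535))) (Nat.add (Nat.shiftLeft (nat_lit 1) (Nat.land (Nat.shiftRight (V (nat_lit 25)) (S (nat_lit 17))) (nat_lit 65535))) (Nat.shiftLeft (nat_lit 1) (Nat.land (Nat.shiftRight (V (nat_lit 25)) (S (nat_lit 20))) (nat_lit 65535))))))) (Nat.add (Nat.add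 (Nat.add (Nat.shiftLeft (nat_lit 1) (Nat.land (Nat.shiftRight (V (nat_lit 25)) (S (nat_lit 26))) (nat_lit 65535))) (Nat.shiftLeft (nat_lit 1) (Nat.land (Nat.shiftRight (V (nat_lit 25)) (S (nat_lit 38))) (nat_lit 65535)))) (Nat.add (Nat.shiftLeft (nat_lit 1) (Nat.land (Nat.shiftRight (V (nat_lit 26)) (S (nat_lit 1))) (nat_lit 65535))) (Nat.add (Nat.shiftLeft (nat_lit 1) (Nat.land (Nat.shiftRight (V (nat_lit 26)) (S (nat_lit 2))) (nat_lit 65535))) (Nat.shiftLeft (nat_lit 1) (Nat.land (Nat.shiftRight (V (nat_lit 26)) (S (nat_lit 15))) (nat_lit 65535)))))) (Nat.add (Nat.add (Nat.shiftLeft (nat_lit 1) (Nat.land (Nat.shiftRight (V (nat_lit 26)) (S (nat_lit 17))) (nat_lit 65535))) (Nat.shiftLeft (nat_lit 1) (Nat.land (Nat.shiftRight (V (nat_lit 26)) (S (nat_lit 24))) (nat_lit 65535)))) (Nat.add (Nat.shiftLeft (nat_lit 1) (Nat.land (Nat.shiftRight (V (nat_lit 26)) (S (nat_lit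 25))) (nat_lit 65535))) (Nat.add (Nat.shiftLeft (nat_lit 1) (Nat.land (Nat.shiftRight (V (nat_lit 31)) (S (nat_lit 17))) (nat_lit 65535))) (Nat.shiftLeft (nat_lit 1) (Nat.land (Nat.shiftRight (V (nat_lit 31)) (S (nat_lit 34))) (nat_lit 65535))))))))) (Nat.add (Nat.add (Nat.add (Nat.add (Nat.add (Nat.shiftLeft (nat_lit 1) (Nat.land (Nat.shiftRight (V (nat_lit 31)) (S (nat_lit 56))) (nat_lit 65535))) (Nat.shiftLeft (nat_lit 1) (Nat.land (Nat.shiftRight (V (nat_lit 31)) (S (nat_lit 58))) (nat_lit 65535)))) (Nat.add (Nat.shiftLeft (nat_lit 1) (Nat.land (Nat.shiftRight (V (nat_lit 34)) (S (nat_lit 15))) (nat_lit 65535))) (Nat.add (Nat.shiftLeft (nat_lit 1) (Nat.land (Nat.shiftRight (V (nat_lit 34)) (S (nat_lit 17))) (nat_lit 65535))) (Nat.shiftLeft (nat_lit 1) (Nat.land (Nat.shiftRight (V (nat_lit 34)) (S (nat_lit 24))) (nat_lit 65535)))))) (Nat.add (Nat.add (Nat.shiftLeft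 (nat_lit 1) (Nat.land (Nat.shiftRight (V (nat_lit 34)) (S (nat_lit 31))) (nat_lit 65535))) (Nat.shiftLeft (nat_lit 1) (Nat.land (Nat.shiftRight (V (nat_lit 34)) (S (nat_lit 40))) (nat_lit 65535)))) (Nat.add (Nat.shiftLeft (nat_lit 1) (Nat.land (Nat.shiftRight (V (nat_lit 34)) (S (nat_lit 52))) (nat_lit 65535))) (Nat.add (Nat.shiftLeft (nat_lit 1) (Nat.land (Nat.shiftRight (V (nat_lit 38)) (S (nat_lit 1))) (nat_lit 65535))) (Nat.shiftLeft (nat_lit 1) (Nat.land (Nat.shiftRight (V (nat_lit 38)) (S (nat_lit 2))) (nat_lit 65535))))))) (Nat.add (Nat.add (Nat.add (Nat.shiftLeft (nat_lit 1) (Nat.land (Nat.shiftRight (V (nat_lit 38)) (S (nat_lit 20))) (nat_lit 65535))) (Nat.shiftLeft (nat_lit 1) (Nat.land (Nat.shiftRight (V (nat_lit 38)) (S (nat_lit 22))) (nat_lit 65535)))) (Nat.add (Nat.shiftLeft (nat_lit 1) (Nat.land (Nat.shiftRight (V (nat_lit 38)) (S (nat_lit 25))) (nat_lit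 65535))) (Nat.add (Nat.shiftLeft (nat_lit 1) (Nat.land (Nat.shiftRight (V (nat_lit 38)) (S (nat_lit 49))) (nat_lit 65535))) (Nat.shiftLeft (nat_lit 1) (Nat.land (Nat.shiftRight (V (nat_lit 40)) (S (nat_lit 34))) (nat_lit 65535)))))) (Nat.add (Nat.add (Nat.shiftLeft (nat_lit 1) (Nat.land (Nat.shiftRight (V (nat_lit 40)) (S (nat_lit 58))) (nat_lit 65535))) (Nat.shiftLeft (nat_lit 1) (Nat.land (Nat.shiftRight (V (nat_lit 49)) (S (nat_lit 2))) (nat_lit 65535)))) (Nat.add (Nat.shiftLeft (nat_lit 1) (Nat.land (Nat.shiftRight (V (nat_lit 49)) (S (nat_lit 6))) (nat_lit 65535))) (Nat.add (Nat.shiftLeft (nat_lit 1) (Nat.land (Nat.shiftRight (V (nat_lit 49)) (S (nat_lit 38))) (nat_lit 65535))) (Nat.shiftLeft (nat_lit 1) (Nat.land (Nat.shiftRight (V (nat_lit 49)) (S (nat_lit 57))) (nat_lit 65535)))))))) (Nat.add (Nat.add (Nat.add (Nat.add (Nat.shiftLeft (nat_lit 1) (Nat.land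 (Nat.shiftRight (V (nat_lit 52)) (S (nat_lit 6))) (nat_lit 65535))) (Nat.shiftLeft (nat_lit 1) (Nat.land (Nat.shiftRight (V (nat_lit 52)) (S (nat_lit 24))) (nat_lit 65535)))) (Nat.add (Nat.shiftLeft (nat_lit 1) (Nat.land (Nat.shiftRight (V (nat_lit 52)) (S (nat_lit 34))) (nat_lit 65535))) (Nat.add (Nat.shiftLeft (nat_lit 1) (Nat.land (Nat.shiftRight (V (nat_lit 52)) (S (nat_lit 58))) (nat_lit 65535))) (Nat.shiftLeft (nat_lit 1) (Nat.land (Nat.shiftRight (V (nat_lit 56)) (S (nat_lit 20))) (nat_lit 65535)))))) (Nat.add (Nat.add (Nat.shiftLeft (nat_lit 1) (Nat.land (Nat.shiftRight (V (nat_lit 56)) (S (nat_lit 31))) (nat_lit 65535))) (Nat.shiftLeft (nat_lit 1) (Nat.land (Nat.shiftRight (V (nat_lit 56)) (S (nat_lit 57))) (nat_lit 65535)))) (Nat.add (Nat.shiftLeft (nat_lit 1) (Nat.land (Nat.shiftRight (V (nat_lit 56)) (S (nat_lit 58))) (nat_lit 65535))) (Nat.add (Nat.shiftLeft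 (nat_lit 1) (Nat.land (Nat.shiftRight (V (nat_lit 57)) (S (nat_lit 4))) (nat_lit 65535))) (Nat.shiftLeft (nat_lit 1) (Nat.land (Nat.shiftRight (V (nat_lit 57)) (S (nat_lit 6))) (nat_lit 65535))))))) (Nat.add (Nat.add (Nat.add (Nat.shiftLeft (nat_lit 1) (Nat.land (Nat.shiftRight (V (nat_lit 57)) (S (nat_lit 20))) (nat_lit 65535))) (Nat.shiftLeft (nat_lit 1) (Nat.land (Nat.shiftRight (V (nat_lit 57)) (S (nat_lit 22))) (nat_lit 65535)))) (Nat.add (Nat.shiftLeft (nat_lit 1) (Nat.land (Nat.shiftRight (V (nat_lit 57)) (S (nat_lit 49))) (nat_lit 65535))) (Nat.add (Nat.shiftLeft (nat_lit 1) (Nat.land (Nat.shiftRight (V (nat_lit 57)) (S (nat_lit 56))) (nat_lit 65535))) (Nat.shiftLeft (nat_lit 1) (Nat.land (Nat.shiftRight (V (nat_lit 58)) (S (nat_lit 4))) (nat_lit 65535)))))) (Nat.add (Nat.add (Nat.shiftLeft (nat_lit 1) (Nat.land (Nat.shiftRight (V (nat_lit 58)) (S (nat_lit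 6))) (nat_lit 65535))) (Nat.shiftLeft (nat_lit 1) (Nat.land (Nat.shiftRight (V (nat_lit 58)) (S (nat_lit 31))) (nat_lit 65535)))) (Nat.add (Nat.shiftLeft (nat_lit 1) (Nat.land (Nat.shiftRight (V (nat_lit 58)) (S (nat_lit 40))) (nat_lit 65535))) (Nat.add (Nat.shiftLeft (nat_lit 1) (Nat.land (Nat.shiftRight (V (nat_lit 58)) (S (nat_lit 52))) (nat_lit 65535))) (Nat.shiftLeft (nat_lit 1) (Nat.land (Nat.shiftRight (V (nat_lit 58)) (S (nat_lit 56))) (nat_lit 65535)))))))))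
def E98_3 (V S : ℕ → ℕ) : ℕ := Nat.add (Nat.add (Nat.add (Nat.add (Nat.add (Nat.add (Nat.shiftLeft (nat_lit 1) (Nat.land (Nat.shiftRight (V (nat_lit 1)) (S (nat_lit 34))) (nat_lit 65535))) (Nat.shiftLeft (nat_lit 1) (Nat.land (Nat.shiftRight (V (nat_lit 1)) (S (nat_lit 57))) (nat_lit 65535)))) (Nat.add (Nat.shiftLeft (nat_lit 1) (Nat.land (Nat.shiftRight (V (nat_lit 4)) (S (nat_lit 34))) (nat_lit 65535))) (Nat.add (Nat.shiftLeft (nat_lit 1) (Nat.land (Nat.shiftRight (V (nat_lit 4)) (S (nat_lit 38))) (nat_lit 65535))) (Nat.shiftLeft (nat_lit 1) (Nat.land (Nat.shiftRight (V (nat_lit 9)) (S (nat_lit 34))) (nat_lit 65535)))))) (Nat.add (Nat.add (Nat.shiftLeft (nat_lit 1) (Nat.land (Nat.shiftRight (V (nat_lit 9)) (S (nat_lit 37))) (nat_lit 65535))) (Nat.shiftLeft (nat_lit 1) (Nat.land (Nat.shiftRight (V (nat_lit 9)) (S (nat_lit 39))) (nat_lit 65535)))) (Nat.add (Nat.shiftLeft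 (nat_lit 1) (Nat.land (Nat.shiftRight (V (nat_lit 9)) (S (nat_lit 58))) (nat_lit 65535))) (Nat.add (Nat.shiftLeft (nat_lit 1) (Nat.land (Nat.shiftRight (V (nat_lit 10)) (S (nat_lit 26))) (nat_lit 65535))) (Nat.shiftLeft (nat_lit 1) (Nat.land (Nat.shiftRight (V (nat_lit 10)) (S (nat_lit 34))) (nat_lit 65535))))))) (Nat.add (Nat.add (Nat.add (Nat.shiftLeft (nat_lit 1) (Nat.land (Nat.shiftRight (V (nat_lit 10)) (S (nat_lit 39))) (nat_lit 65535))) (Nat.shiftLeft (nat_lit 1) (Nat.land (Nat.shiftRight (V (nat_lit 10)) (S (nat_lit 51))) (nat_lit 65535)))) (Nat.add (Nat.shiftLeft (nat_lit 1) (Nat.land (Nat.shiftRight (V (nat_lit 15)) (S (nat_lit 38))) (nat_lit 65535))) (Nat.add (Nat.shiftLeft (nat_lit 1) (Nat.land (Nat.shiftRight (V (nat_lit 15)) (S (nat_lit 58))) (nat_lit 65535))) (Nat.shiftLeft (nat_lit 1) (Nat.land (Nat.shiftRight (V (nat_lit 18)) (S (nat_lit 35))) (nat_lit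 65535)))))) (Nat.add (Nat.add (Nat.shiftLeft (nat_lit 1) (Nat.land (Nat.shiftRight (V (nat_lit 18)) (S (nat_lit 44))) (nat_lit 65535))) (Nat.shiftLeft (nat_lit 1) (Nat.land (Nat.shiftRight (V (nat_lit 18)) (S (nat_lit 57))) (nat_lit 65535)))) (Nat.add (Nat.shiftLeft (nat_lit 1) (Nat.land (Nat.shiftRight (V (nat_lit 18)) (S (nat_lit 58))) (nat_lit 65535))) (Nat.add (Nat.shiftLeft (nat_lit 1) (Nat.land (Nat.shiftRight (V (nat_lit 22)) (S (nat_lit 26))) (nat_lit 65535))) (Nat.shiftLeft (nat_lit 1) (Nat.land (Nat.shiftRight (V (nat_lit 22)) (S (nat_lit 58))) (nat_lit 65535)))))))) (Nat.add (Nat.add (Nat.add (Nat.add (Nat.shiftLeft (nat_lit 1) (Nat.land (Nat.shiftRight (V (nat_lit 23)) (S (nat_lit 34))) (nat_lit 65535))) (Nat.shiftLeft (nat_lit 1) (Nat.land (Nat.shiftRight (V (nat_lit 23)) (S (nat_lit 42))) (nat_lit 65535)))) (Nat.add (Nat.shiftLeft (nat_lit 1) (Nat.land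 (Nat.shiftRight (V (nat_lit 23)) (S (nat_lit 44))) (nat_lit 65535))) (Nat.add (Nat.shiftLeft (nat_lit 1) (Nat.land (Nat.shiftRight (V (nat_lit 23)) (S (nat_lit 58))) (nat_lit 65535))) (Nat.shiftLeft (nat_lit 1) (Nat.land (Nat.shiftRight (V (nat_lit 26)) (S (nat_lit 10))) (nat_lit 65535)))))) (Nat.add (Nat.add (Nat.shiftLeft (nat_lit 1) (Nat.land (Nat.shiftRight (V (nat_lit 26)) (S (nat_lit 22))) (nat_lit 65535))) (Nat.shiftLeft (nat_lit 1) (Nat.land (Nat.shiftRight (V (nat_lit 26)) (S (nat_lit 35))) (nat_lit 65535)))) (Nat.add (Nat.shiftLeft (nat_lit 1) (Nat.land (Nat.shiftRight (V (nat_lit 26)) (S (nat_lit 37))) (nat_lit 65535))) (Nat.add (Nat.shiftLeft (nat_lit 1) (Nat.land (Nat.shiftRight (V (nat_lit 26)) (S (nat_lit 40))) (nat_lit 65535))) (Nat.shiftLeft (nat_lit 1) (Nat.land (Nat.shiftRight (V (nat_lit 26)) (S (nat_lit 44))) (nat_lit 65535))))))) (Nat.add (Nat.add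 (Nat.add (Nat.shiftLeft (nat_lit 1) (Nat.land (Nat.shiftRight (V (nat_lit 34)) (S (nat_lit 1))) (nat_lit 65535))) (Nat.shiftLeft (nat_lit 1) (Nat.land (Nat.shiftRight (V (nat_lit 34)) (S (nat_lit 4))) (nat_lit 65535)))) (Nat.add (Nat.shiftLeft (nat_lit 1) (Nat.land (Nat.shiftRight (V (nat_lit 34)) (S (nat_lit 9))) (nat_lit 65535))) (Nat.add (Nat.shiftLeft (nat_lit 1) (Nat.land (Nat.shiftRight (V (nat_lit 34)) (S (nat_lit 10))) (nat_lit 65535))) (Nat.shiftLeft (nat_lit 1) (Nat.land (Nat.shiftRight (V (nat_lit 34)) (S (nat_lit 23))) (nat_lit 65535)))))) (Nat.add (Nat.add (Nat.shiftLeft (nat_lit 1) (Nat.land (Nat.shiftRight (V (nat_lit 34)) (S (nat_lit 35))) (nat_lit 65535))) (Nat.shiftLeft (nat_lit 1) (Nat.land (Nat.shiftRight (V (nat_lit 35)) (S (nat_lit 18))) (nat_lit 65535)))) (Nat.add (Nat.shiftLeft (nat_lit 1) (Nat.land (Nat.shiftRight (V (nat_lit 35)) (S (nat_lit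 26))) (nat_lit 65535))) (Nat.add (Nat.shiftLeft (nat_lit 1) (Nat.land (Nat.shiftRight (V (nat_lit 35)) (S (nat_lit 34))) (nat_lit 65535))) (Nat.shiftLeft (nat_lit 1) (Nat.land (Nat.shiftRight (V (nat_lit 35)) (S (nat_lit 42))) (nat_lit 65535))))))))) (Nat.add (Nat.add (Nat.add (Nat.add (Nat.add (Nat.shiftLeft (nat_lit 1) (Nat.land (Nat.shiftRight (V (nat_lit 37)) (S (nat_lit 9))) (nat_lit 65535))) (Nat.shiftLeft (nat_lit 1) (Nat.land (Nat.shiftRight (V (nat_lit 37)) (S (nat_lit 26))) (nat_lit 65535)))) (Nat.add (Nat.shiftLeft (nat_lit 1) (Nat.land (Nat.shiftRight (V (nat_lit 37)) (S (nat_lit 38))) (nat_lit 65535))) (Nat.add (Nat.shiftLeft (nat_lit 1) (Nat.land (Nat.shiftRight (V (nat_lit 37)) (S (nat_lit 51))) (nat_lit 65535))) (Nat.shiftLeft (nat_lit 1) (Nat.land (Nat.shiftRight (V (nat_lit 38)) (S (nat_lit 4))) (nat_lit 65535)))))) (Nat.add (Nat.add (Nat.shiftLeft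 (nat_lit 1) (Nat.land (Nat.shiftRight (V (nat_lit 38)) (S (nat_lit 15))) (nat_lit 65535))) (Nat.shiftLeft (nat_lit 1) (Nat.land (Nat.shiftRight (V (nat_lit 38)) (S (nat_lit 37))) (nat_lit 65535)))) (Nat.add (Nat.shiftLeft (nat_lit 1) (Nat.land (Nat.shiftRight (V (nat_lit 38)) (S (nat_lit 39))) (nat_lit 65535))) (Nat.add (Nat.shiftLeft (nat_lit 1) (Nat.land (Nat.shiftRight (V (nat_lit 38)) (S (nat_lit 42))) (nat_lit 65535))) (Nat.shiftLeft (nat_lit 1) (Nat.land (Nat.shiftRight (V (nat_lit 38)) (S (nat_lit 44))) (nat_lit 65535))))))) (Nat.add (Nat.add (Nat.add (Nat.shiftLeft (nat_lit 1) (Nat.land (Nat.shiftRight (V (nat_lit 39)) (S (nat_lit 9))) (nat_lit 65535))) (Nat.shiftLeft (nat_lit 1) (Nat.land (Nat.shiftRight (V (nat_lit 39)) (S (nat_lit 10))) (nat_lit 65535)))) (Nat.add (Nat.shiftLeft (nat_lit 1) (Nat.land (Nat.shiftRight (V (nat_lit 39)) (S (nat_lit 38))) (nat_lit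 65535))) (Nat.add (Nat.shiftLeft (nat_lit 1) (Nat.land (Nat.shiftRight (V (nat_lit 39)) (S (nat_lit 57))) (nat_lit 65535))) (Nat.shiftLeft (nat_lit 1) (Nat.land (Nat.shiftRight (V (nat_lit 40)) (S (nat_lit 26))) (nat_lit 65535)))))) (Nat.add (Nat.add (Nat.shiftLeft (nat_lit 1) (Nat.land (Nat.shiftRight (V (nat_lit 40)) (S (nat_lit 57))) (nat_lit 65535))) (Nat.shiftLeft (nat_lit 1) (Nat.land (Nat.shiftRight (V (nat_lit 42)) (S (nat_lit 23))) (nat_lit 65535)))) (Nat.add (Nat.shiftLeft (nat_lit 1) (Nat.land (Nat.shiftRight (V (nat_lit 42)) (S (nat_lit 35))) (nat_lit 65535))) (Nat.add (Nat.shiftLeft (nat_lit 1) (Nat.land (Nat.shiftRight (V (nat_lit 42)) (S (nat_lit 38))) (nat_lit 65535))) (Nat.shiftLeft (nat_lit 1) (Nat.land (Nat.shiftRight (V (nat_lit 42)) (S (nat_lit 57))) (nat_lit 65535)))))))) (Nat.add (Nat.add (Nat.add (Nat.add (Nat.shiftLeft (nat_lit 1) (Nat.land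 (Nat.shiftRight (V (nat_lit 44)) (S (nat_lit 18))) (nat_lit 65535))) (Nat.shiftLeft (nat_lit 1) (Nat.land (Nat.shiftRight (V (nat_lit 44)) (S (nat_lit 23))) (nat_lit 65535)))) (Nat.add (Nat.shiftLeft (nat_lit 1) (Nat.land (Nat.shiftRight (V (nat_lit 44)) (S (nat_lit 26))) (nat_lit 65535))) (Nat.add (Nat.shiftLeft (nat_lit 1) (Nat.land (Nat.shiftRight (V (nat_lit 44)) (S (nat_lit 38))) (nat_lit 65535))) (Nat.shiftLeft (nat_lit 1) (Nat.land (Nat.shiftRight (V (nat_lit 51)) (S (nat_lit 10))) (nat_lit 65535)))))) (Nat.add (Nat.add (Nat.shiftLeft (nat_lit 1) (Nat.land (Nat.shiftRight (V (nat_lit 51)) (S (nat_lit 37))) (nat_lit 65535))) (Nat.shiftLeft (nat_lit 1) (Nat.land (Nat.shiftRight (V (nat_lit 51)) (S (nat_lit 57))) (nat_lit 65535)))) (Nat.add (Nat.shiftLeft (nat_lit 1) (Nat.land (Nat.shiftRight (V (nat_lit 51)) (S (nat_lit 58))) (nat_lit 65535))) (Nat.add (Nat.shiftLeft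 (nat_lit 1) (Nat.land (Nat.shiftRight (V (nat_lit 57)) (S (nat_lit 1))) (nat_lit 65535))) (Nat.shiftLeft (nat_lit 1) (Nat.land (Nat.shiftRight (V (nat_lit 57)) (S (nat_lit 18))) (nat_lit 65535))))))) (Nat.add (Nat.add (Nat.add (Nat.shiftLeft (nat_lit 1) (Nat.land (Nat.shiftRight (V (nat_lit 57)) (S (nat_lit 39))) (nat_lit 65535))) (Nat.shiftLeft (nat_lit 1) (Nat.land (Nat.shiftRight (V (nat_lit 57)) (S (nat_lit 40))) (nat_lit 65535)))) (Nat.add (Nat.shiftLeft (nat_lit 1) (Nat.land (Nat.shiftRight (V (nat_lit 57)) (S (nat_lit 42))) (nat_lit 65535))) (Nat.add (Nat.shiftLeft (nat_lit 1) (Nat.land (Nat.shiftRight (V (nat_lit 57)) (S (nat_lit 51))) (nat_lit 65535))) (Nat.shiftLeft (nat_lit 1) (Nat.land (Nat.shiftRight (V (nat_lit 58)) (S (nat_lit 9))) (nat_lit 65535)))))) (Nat.add (Nat.add (Nat.shiftLeft (nat_lit 1) (Nat.land (Nat.shiftRight (V (nat_lit 58)) (S (nat_lit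 15))) (nat_lit 65535))) (Nat.shiftLeft (nat_lit 1) (Nat.land (Nat.shiftRight (V (nat_lit 58)) (S (nat_lit 18))) (nat_lit 65535)))) (Nat.add (Nat.shiftLeft (nat_lit 1) (Nat.land (Nat.shiftRight (V (nat_lit 58)) (S (nat_lit 22))) (nat_lit 65535))) (Nat.add (Nat.shiftLeft (nat_lit 1) (Nat.land (Nat.shiftRight (V (nat_lit 58)) (S (nat_lit 23))) (nat_lit 65535))) (Nat.shiftLeft (nat_lit 1) (Nat.land (Nat.shiftRight (V (nat_lit 58)) (S (nat_lit 51))) (nat_lit 65535)))))))))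
def E99_3 (V S : ℕ → ℕ) : ℕ := Nat.add (Nat.add (Nat.add (Nat.add (Nat.add (Nat.add (Nat.shiftLeft (nat_lit 1) (Nat.land (Nat.shiftRight (V (nat_lit 1)) (S (nat_lit 32))) (nat_lit 65535))) (Nat.shiftLeft (nat_lit 1) (Nat.land (Nat.shiftRight (V (nat_lit 1)) (S (nat_lit 48))) (nat_lit 65535)))) (Nat.add (Nat.shiftLeft (nat_lit 1) (Nat.land (Nat.shiftRight (V (nat_lit 2)) (S (nat_lit 37))) (nat_lit 65535))) (Nat.add (Nat.shiftLeft (nat_lit 1) (Nat.land (Nat.shiftRight (V (nat_lit 2)) (S (nat_lit 48))) (nat_lit 65535))) (Nat.shiftLeft (nat_lit 1) (Nat.land (Nat.shiftRight (V (nat_lit 4)) (S (nat_lit 32))) (nat_lit 65535)))))) (Nat.add (Nat.add (Nat.shiftLeft (nat_lit 1) (Nat.land (Nat.shiftRight (V (nat_lit 4)) (S (nat_lit 48))) (nat_lit 65535))) (Nat.shiftLeft (nat_lit 1) (Nat.land (Nat.shiftRight (V (nat_lit 6)) (S (nat_lit 48))) (nat_lit 65535)))) (Nat.add (Nat.shiftLeft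 (nat_lit 1) (Nat.land (Nat.shiftRight (V (nat_lit 6)) (S (nat_lit 51))) (nat_lit 65535))) (Nat.add (Nat.shiftLeft (nat_lit 1) (Nat.land (Nat.shiftRight (V (nat_lit 9)) (S (nat_lit 45))) (nat_lit 65535))) (Nat.shiftLeft (nat_lit 1) (Nat.land (Nat.shiftRight (V (nat_lit 9)) (S (nat_lit 52))) (nat_lit 65535))))))) (Nat.add (Nat.add (Nat.add (Nat.shiftLeft (nat_lit 1) (Nat.land (Nat.shiftRight (V (nat_lit 10)) (S (nat_lit 24))) (nat_lit 65535))) (Nat.shiftLeft (nat_lit 1) (Nat.land (Nat.shiftRight (V (nat_lit 10)) (S (nat_lit 45))) (nat_lit 65535)))) (Nat.add (Nat.shiftLeft (nat_lit 1) (Nat.land (Nat.shiftRight (V (nat_lit 15)) (S (nat_lit 32))) (nat_lit 65535))) (Nat.add (Nat.shiftLeft (nat_lit 1) (Nat.land (Nat.shiftRight (V (nat_lit 15)) (S (nat_lit 48))) (nat_lit 65535))) (Nat.shiftLeft (nat_lit 1) (Nat.land (Nat.shiftRight (V (nat_lit 17)) (S (nat_lit 32))) (nat_lit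 65535)))))) (Nat.add (Nat.add (Nat.shiftLeft (nat_lit 1) (Nat.land (Nat.shiftRight (V (nat_lit 17)) (S (nat_lit 35))) (nat_lit 65535))) (Nat.shiftLeft (nat_lit 1) (Nat.land (Nat.shiftRight (V (nat_lit 18)) (S (nat_lit 45))) (nat_lit 65535)))) (Nat.add (Nat.shiftLeft (nat_lit 1) (Nat.land (Nat.shiftRight (V (nat_lit 18)) (S (nat_lit 56))) (nat_lit 65535))) (Nat.add (Nat.shiftLeft (nat_lit 1) (Nat.land (Nat.shiftRight (V (nat_lit 20)) (S (nat_lit 32))) (nat_lit 65535))) (Nat.shiftLeft (nat_lit 1) (Nat.land (Nat.shiftRight (V (nat_lit 20)) (S (nat_lit 42))) (nat_lit 65535)))))))) (Nat.add (Nat.add (Nat.add (Nat.add (Nat.shiftLeft (nat_lit 1) (Nat.land (Nat.shiftRight (V (nat_lit 22)) (S (nat_lit 32))) (nat_lit 65535))) (Nat.shiftLeft (nat_lit 1) (Nat.land (Nat.shiftRight (V (nat_lit 22)) (S (nat_lit 48))) (nat_lit 65535)))) (Nat.add (Nat.shiftLeft (nat_lit 1) (Nat.land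 (Nat.shiftRight (V (nat_lit 23)) (S (nat_lit 31))) (nat_lit 65535))) (Nat.add (Nat.shiftLeft (nat_lit 1) (Nat.land (Nat.shiftRight (V (nat_lit 23)) (S (nat_lit 45))) (nat_lit 65535))) (Nat.shiftLeft (nat_lit 1) (Nat.land (Nat.shiftRight (V (nat_lit 24)) (S (nat_lit 10))) (nat_lit 65535)))))) (Nat.add (Nat.add (Nat.shiftLeft (nat_lit 1) (Nat.land (Nat.shiftRight (V (nat_lit 24)) (S (nat_lit 48))) (nat_lit 65535))) (Nat.shiftLeft (nat_lit 1) (Nat.land (Nat.shiftRight (V (nat_lit 25)) (S (nat_lit 32))) (nat_lit 65535)))) (Nat.add (Nat.shiftLeft (nat_lit 1) (Nat.land (Nat.shiftRight (V (nat_lit 25)) (S (nat_lit 44))) (nat_lit 65535))) (Nat.add (Nat.shiftLeft (nat_lit 1) (Nat.land (Nat.shiftRight (V (nat_lit 31)) (S (nat_lit 23))) (nat_lit 65535))) (Nat.shiftLeft (nat_lit 1) (Nat.land (Nat.shiftRight (V (nat_lit 31)) (S (nat_lit 32))) (nat_lit 65535))))))) (Nat.add (Nat.add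 (Nat.add (Nat.shiftLeft (nat_lit 1) (Nat.land (Nat.shiftRight (V (nat_lit 32)) (S (nat_lit 1))) (nat_lit 65535))) (Nat.shiftLeft (nat_lit 1) (Nat.land (Nat.shiftRight (V (nat_lit 32)) (S (nat_lit 4))) (nat_lit 65535)))) (Nat.add (Nat.shiftLeft (nat_lit 1) (Nat.land (Nat.shiftRight (V (nat_lit 32)) (S (nat_lit 15))) (nat_lit 65535))) (Nat.add (Nat.shiftLeft (nat_lit 1) (Nat.land (Nat.shiftRight (V (nat_lit 32)) (S (nat_lit 17))) (nat_lit 65535))) (Nat.shiftLeft (nat_lit 1) (Nat.land (Nat.shiftRight (V (nat_lit 32)) (S (nat_lit 20))) (nat_lit 65535)))))) (Nat.add (Nat.add (Nat.shiftLeft (nat_lit 1) (Nat.land (Nat.shiftRight (V (nat_lit 32)) (S (nat_lit 22))) (nat_lit 65535))) (Nat.shiftLeft (nat_lit 1) (Nat.land (Nat.shiftRight (V (nat_lit 32)) (S (nat_lit 25))) (nat_lit 65535)))) (Nat.add (Nat.shiftLeft (nat_lit 1) (Nat.land (Nat.shiftRight (V (nat_lit 32)) (S (nat_lit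 31))) (nat_lit 65535))) (Nat.add (Nat.shiftLeft (nat_lit 1) (Nat.land (Nat.shiftRight (V (nat_lit 32)) (S (nat_lit 40))) (nat_lit 65535))) (Nat.shiftLeft (nat_lit 1) (Nat.land (Nat.shiftRight (V (nat_lit 32)) (S (nat_lit 56))) (nat_lit 65535))))))))) (Nat.add (Nat.add (Nat.add (Nat.add (Nat.add (Nat.shiftLeft (nat_lit 1) (Nat.land (Nat.shiftRight (V (nat_lit 35)) (S (nat_lit 17))) (nat_lit 65535))) (Nat.shiftLeft (nat_lit 1) (Nat.land (Nat.shiftRight (V (nat_lit 35)) (S (nat_lit 45))) (nat_lit 65535)))) (Nat.add (Nat.shiftLeft (nat_lit 1) (Nat.land (Nat.shiftRight (V (nat_lit 37)) (S (nat_lit 2))) (nat_lit 65535))) (Nat.add (Nat.shiftLeft (nat_lit 1) (Nat.land (Nat.shiftRight (V (nat_lit 37)) (S (nat_lit 45))) (nat_lit 65535))) (Nat.shiftLeft (nat_lit 1) (Nat.land (Nat.shiftRight (V (nat_lit 39)) (S (nat_lit 45))) (nat_lit 65535)))))) (Nat.add (Nat.add (Nat.shiftLeft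 (nat_lit 1) (Nat.land (Nat.shiftRight (V (nat_lit 39)) (S (nat_lit 49))) (nat_lit 65535))) (Nat.shiftLeft (nat_lit 1) (Nat.land (Nat.shiftRight (V (nat_lit 40)) (S (nat_lit 32))) (nat_lit 65535)))) (Nat.add (Nat.shiftLeft (nat_lit 1) (Nat.land (Nat.shiftRight (V (nat_lit 40)) (S (nat_lit 48))) (nat_lit 65535))) (Nat.add (Nat.shiftLeft (nat_lit 1) (Nat.land (Nat.shiftRight (V (nat_lit 42)) (S (nat_lit 20))) (nat_lit 65535))) (Nat.shiftLeft (nat_lit 1) (Nat.land (Nat.shiftRight (V (nat_lit 42)) (S (nat_lit 45))) (nat_lit 65535))))))) (Nat.add (Nat.add (Nat.add (Nat.shiftLeft (nat_lit 1) (Nat.land (Nat.shiftRight (V (nat_lit 44)) (S (nat_lit 25))) (nat_lit 65535))) (Nat.shiftLeft (nat_lit 1) (Nat.land (Nat.shiftRight (V (nat_lit 44)) (S (nat_lit 45))) (nat_lit 65535)))) (Nat.add (Nat.shiftLeft (nat_lit 1) (Nat.land (Nat.shiftRight (V (nat_lit 45)) (S (nat_lit 9))) (nat_lit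 65535))) (Nat.add (Nat.shiftLeft (nat_lit 1) (Nat.land (Nat.shiftRight (V (nat_lit 45)) (S (nat_lit 10))) (nat_lit 65535))) (Nat.shiftLeft (nat_lit 1) (Nat.land (Nat.shiftRight (V (nat_lit 45)) (S (nat_lit 18))) (nat_lit 65535)))))) (Nat.add (Nat.add (Nat.shiftLeft (nat_lit 1) (Nat.land (Nat.shiftRight (V (nat_lit 45)) (S (nat_lit 23))) (nat_lit 65535))) (Nat.shiftLeft (nat_lit 1) (Nat.land (Nat.shiftRight (V (nat_lit 45)) (S (nat_lit 35))) (nat_lit 65535)))) (Nat.add (Nat.shiftLeft (nat_lit 1) (Nat.land (Nat.shiftRight (V (nat_lit 45)) (S (nat_lit 37))) (nat_lit 65535))) (Nat.add (Nat.shiftLeft (nat_lit 1) (Nat.land (Nat.shiftRight (V (nat_lit 45)) (S (nat_lit 39))) (nat_lit 65535))) (Nat.shiftLeft (nat_lit 1) (Nat.land (Nat.shiftRight (V (nat_lit 45)) (S (nat_lit 42))) (nat_lit 65535)))))))) (Nat.add (Nat.add (Nat.add (Nat.add (Nat.shiftLeft (nat_lit 1) (Nat.land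 (Nat.shiftRight (V (nat_lit 45)) (S (nat_lit 44))) (nat_lit 65535))) (Nat.shiftLeft (nat_lit 1) (Nat.land (Nat.shiftRight (V (nat_lit 45)) (S (nat_lit 51))) (nat_lit 65535)))) (Nat.add (Nat.shiftLeft (nat_lit 1) (Nat.land (Nat.shiftRight (V (nat_lit 48)) (S (nat_lit 1))) (nat_lit 65535))) (Nat.add (Nat.shiftLeft (nat_lit 1) (Nat.land (Nat.shiftRight (V (nat_lit 48)) (S (nat_lit 2))) (nat_lit 65535))) (Nat.shiftLeft (nat_lit 1) (Nat.land (Nat.shiftRight (V (nat_lit 48)) (S (nat_lit 4))) (nat_lit 65535)))))) (Nat.add (Nat.add (Nat.shiftLeft (nat_lit 1) (Nat.land (Nat.shiftRight (V (nat_lit 48)) (S (nat_lit 6))) (nat_lit 65535))) (Nat.shiftLeft (nat_lit 1) (Nat.land (Nat.shiftRight (V (nat_lit 48)) (S (nat_lit 15))) (nat_lit 65535)))) (Nat.add (Nat.shiftLeft (nat_lit 1) (Nat.land (Nat.shiftRight (V (nat_lit 48)) (S (nat_lit 22))) (nat_lit 65535))) (Nat.add (Nat.shiftLeft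 (nat_lit 1) (Nat.land (Nat.shiftRight (V (nat_lit 48)) (S (nat_lit 24))) (nat_lit 65535))) (Nat.shiftLeft (nat_lit 1) (Nat.land (Nat.shiftRight (V (nat_lit 48)) (S (nat_lit 40))) (nat_lit 65535))))))) (Nat.add (Nat.add (Nat.add (Nat.shiftLeft (nat_lit 1) (Nat.land (Nat.shiftRight (V (nat_lit 48)) (S (nat_lit 49))) (nat_lit 65535))) (Nat.shiftLeft (nat_lit 1) (Nat.land (Nat.shiftRight (V (nat_lit 48)) (S (nat_lit 52))) (nat_lit 65535)))) (Nat.add (Nat.shiftLeft (nat_lit 1) (Nat.land (Nat.shiftRight (V (nat_lit 49)) (S (nat_lit 39))) (nat_lit 65535))) (Nat.add (Nat.shiftLeft (nat_lit 1) (Nat.land (Nat.shiftRight (V (nat_lit 49)) (S (nat_lit 48))) (nat_lit 65535))) (Nat.shiftLeft (nat_lit 1) (Nat.land (Nat.shiftRight (V (nat_lit 51)) (S (nat_lit 6))) (nat_lit 65535)))))) (Nat.add (Nat.add (Nat.shiftLeft (nat_lit 1) (Nat.land (Nat.shiftRight (V (nat_lit 51)) (S (nat_lit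 45))) (nat_lit 65535))) (Nat.shiftLeft (nat_lit 1) (Nat.land (Nat.shiftRight (V (nat_lit 52)) (S (nat_lit 9))) (nat_lit 65535)))) (Nat.add (Nat.shiftLeft (nat_lit 1) (Nat.land (Nat.shiftRight (V (nat_lit 52)) (S (nat_lit 48))) (nat_lit 65535))) (Nat.add (Nat.shiftLeft (nat_lit 1) (Nat.land (Nat.shiftRight (V (nat_lit 56)) (S (nat_lit 18))) (nat_lit 65535))) (Nat.shiftLeft (nat_lit 1) (Nat.land (Nat.shiftRight (V (nat_lit 56)) (S (nat_lit 32))) (nat_lit 65535)))))))))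
def E100_3 (V S : ℕ → ℕ) : ℕ := Nat.add (Nat.add (Nat.add (Nat.add (Nat.add (Nat.add (Nat.shiftLeft (nat_lit 1) (Nat.land (Nat.shiftRight (V (nat_lit 1)) (S (nat_lit 30))) (nat_lit 65535))) (Nat.add (Nat.shiftLeft (nat_lit 1) (Nat.land (Nat.shiftRight (V (nat_lit 1)) (S (nat_lit 46))) (nat_lit 65535))) (Nat.shiftLeft (nat_lit 1) (Nat.land (Nat.shiftRight (V (nat_lit 1)) (S (nat_lit 47))) (nat_lit 65535))))) (Nat.add (Nat.add (Nat.shiftLeft (nat_lit 1) (Nat.land (Nat.shiftRight (V (nat_lit 1)) (S (nat_lit 54))) (nat_lit 65535))) (Nat.shiftLeft (nat_lit 1) (Nat.land (Nat.shiftRight (V (nat_lit 3)) (S (nat_lit 23))) (nat_lit 65535)))) (Nat.add (Nat.shiftLeft (nat_lit 1) (Nat.land (Nat.shiftRight (V (nat_lit 3)) (S (nat_lit 35))) (nat_lit 65535))) (Nat.shiftLeft (nat_lit 1) (Nat.land (Nat.shiftRight (V (nat_lit 4)) (S (nat_lit 21))) (nat_lit 65535)))))) (Nat.add (Nat.add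 (Nat.add (Nat.shiftLeft (nat_lit 1) (Nat.land (Nat.shiftRight (V (nat_lit 4)) (S (nat_lit 33))) (nat_lit 65535))) (Nat.shiftLeft (nat_lit 1) (Nat.land (Nat.shiftRight (V (nat_lit 4)) (S (nat_lit 36))) (nat_lit 65535)))) (Nat.add (Nat.shiftLeft (nat_lit 1) (Nat.land (Nat.shiftRight (V (nat_lit 4)) (S (nat_lit 41))) (nat_lit 65535))) (Nat.shiftLeft (nat_lit 1) (Nat.land (Nat.shiftRight (V (nat_lit 5)) (S (nat_lit 37))) (nat_lit 65535))))) (Nat.add (Nat.add (Nat.shiftLeft (nat_lit 1) (Nat.land (Nat.shiftRight (V (nat_lit 5)) (S (nat_lit 39))) (nat_lit 65535))) (Nat.shiftLeft (nat_lit 1) (Nat.land (Nat.shiftRight (V (nat_lit 7)) (S (nat_lit 39))) (nat_lit 65535)))) (Nat.add (Nat.shiftLeft (nat_lit 1) (Nat.land (Nat.shiftRight (V (nat_lit 7)) (S (nat_lit 51))) (nat_lit 65535))) (Nat.shiftLeft (nat_lit 1) (Nat.land (Nat.shiftRight (V (nat_lit 8)) (S (nat_lit 15))) (nat_lit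 65535))))))) (Nat.add (Nat.add (Nat.add (Nat.shiftLeft (nat_lit 1) (Nat.land (Nat.shiftRight (V (nat_lit 8)) (S (nat_lit 18))) (nat_lit 65535))) (Nat.add (Nat.shiftLeft (nat_lit 1) (Nat.land (Nat.shiftRight (V (nat_lit 8)) (S (nat_lit 40))) (nat_lit 65535))) (Nat.shiftLeft (nat_lit 1) (Nat.land (Nat.shiftRight (V (nat_lit 8)) (S (nat_lit 44))) (nat_lit 65535))))) (Nat.add (Nat.add (Nat.shiftLeft (nat_lit 1) (Nat.land (Nat.shiftRight (V (nat_lit 9)) (S (nat_lit 19))) (nat_lit 65535))) (Nat.shiftLeft (nat_lit 1) (Nat.land (Nat.shiftRight (V (nat_lit 9)) (S (nat_lit 28))) (nat_lit 65535)))) (Nat.add (Nat.shiftLeft (nat_lit 1) (Nat.land (Nat.shiftRight (V (nat_lit 9)) (S (nat_lit 36))) (nat_lit 65535))) (Nat.shiftLeft (nat_lit 1) (Nat.land (Nat.shiftRight (V (nat_lit 9)) (S (nat_lit 46))) (nat_lit 65535)))))) (Nat.add (Nat.add (Nat.add (Nat.shiftLeft (nat_lit 1) (Nat.land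 (Nat.shiftRight (V (nat_lit 10)) (S (nat_lit 21))) (nat_lit 65535))) (Nat.shiftLeft (nat_lit 1) (Nat.land (Nat.shiftRight (V (nat_lit 10)) (S (nat_lit 28))) (nat_lit 65535)))) (Nat.add (Nat.shiftLeft (nat_lit 1) (Nat.land (Nat.shiftRight (V (nat_lit 10)) (S (nat_lit 29))) (nat_lit 65535))) (Nat.shiftLeft (nat_lit 1) (Nat.land (Nat.shiftRight (V (nat_lit 10)) (S (nat_lit 54))) (nat_lit 65535))))) (Nat.add (Nat.add (Nat.shiftLeft (nat_lit 1) (Nat.land (Nat.shiftRight (V (nat_lit 12)) (S (nat_lit 35))) (nat_lit 65535))) (Nat.shiftLeft (nat_lit 1) (Nat.land (Nat.shiftRight (V (nat_lit 12)) (S (nat_lit 44))) (nat_lit 65535)))) (Nat.add (Nat.shiftLeft (nat_lit 1) (Nat.land (Nat.shiftRight (V (nat_lit 13)) (S (nat_lit 42))) (nat_lit 65535))) (Nat.shiftLeft (nat_lit 1) (Nat.land (Nat.shiftRight (V (nat_lit 13)) (S (nat_lit 44))) (nat_lit 65535)))))))) (Nat.add (Nat.add (Nat.add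 (Nat.add (Nat.shiftLeft (nat_lit 1) (Nat.land (Nat.shiftRight (V (nat_lit 15)) (S (nat_lit 8))) (nat_lit 65535))) (Nat.add (Nat.shiftLeft (nat_lit 1) (Nat.land (Nat.shiftRight (V (nat_lit 15)) (S (nat_lit 46))) (nat_lit 65535))) (Nat.shiftLeft (nat_lit 1) (Nat.land (Nat.shiftRight (V (nat_lit 15)) (S (nat_lit 47))) (nat_lit 65535))))) (Nat.add (Nat.add (Nat.shiftLeft (nat_lit 1) (Nat.land (Nat.shiftRight (V (nat_lit 15)) (S (nat_lit 50))) (nat_lit 65535))) (Nat.shiftLeft (nat_lit 1) (Nat.land (Nat.shiftRight (V (nat_lit 18)) (S (nat_lit 8))) (nat_lit 65535)))) (Nat.add (Nat.shiftLeft (nat_lit 1) (Nat.land (Nat.shiftRight (V (nat_lit 18)) (S (nat_lit 30))) (nat_lit 65535))) (Nat.shiftLeft (nat_lit 1) (Nat.land (Nat.shiftRight (V (nat_lit 18)) (S (nat_lit 53))) (nat_lit 65535)))))) (Nat.add (Nat.add (Nat.add (Nat.shiftLeft (nat_lit 1) (Nat.land (Nat.shiftRight (V (nat_lit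 18)) (S (nat_lit 55))) (nat_lit 65535))) (Nat.shiftLeft (nat_lit 1) (Nat.land (Nat.shiftRight (V (nat_lit 19)) (S (nat_lit 9))) (nat_lit 65535)))) (Nat.add (Nat.shiftLeft (nat_lit 1) (Nat.land (Nat.shiftRight (V (nat_lit 19)) (S (nat_lit 51))) (nat_lit 65535))) (Nat.shiftLeft (nat_lit 1) (Nat.land (Nat.shiftRight (V (nat_lit 21)) (S (nat_lit 4))) (nat_lit 65535))))) (Nat.add (Nat.add (Nat.shiftLeft (nat_lit 1) (Nat.land (Nat.shiftRight (V (nat_lit 21)) (S (nat_lit 10))) (nat_lit 65535))) (Nat.shiftLeft (nat_lit 1) (Nat.land (Nat.shiftRight (V (nat_lit 21)) (S (nat_lit 39))) (nat_lit 65535)))) (Nat.add (Nat.shiftLeft (nat_lit 1) (Nat.land (Nat.shiftRight (V (nat_lit 21)) (S (nat_lit 40))) (nat_lit 65535))) (Nat.shiftLeft (nat_lit 1) (Nat.land (Nat.shiftRight (V (nat_lit 22)) (S (nat_lit 30))) (nat_lit 65535))))))) (Nat.add (Nat.add (Nat.add (Nat.shiftLeft (nat_lit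 1) (Nat.land (Nat.shiftRight (V (nat_lit 22)) (S (nat_lit 36))) (nat_lit 65535))) (Nat.add (Nat.shiftLeft (nat_lit 1) (Nat.land (Nat.shiftRight (V (nat_lit 22)) (S (nat_lit 41))) (nat_lit 65535))) (Nat.shiftLeft (nat_lit 1) (Nat.land (Nat.shiftRight (V (nat_lit 22)) (S (nat_lit 54))) (nat_lit 65535))))) (Nat.add (Nat.add (Nat.shiftLeft (nat_lit 1) (Nat.land (Nat.shiftRight (V (nat_lit 23)) (S (nat_lit 3))) (nat_lit 65535))) (Nat.shiftLeft (nat_lit 1) (Nat.land (Nat.shiftRight (V (nat_lit 23)) (S (nat_lit 41))) (nat_lit 65535)))) (Nat.add (Nat.shiftLeft (nat_lit 1) (Nat.land (Nat.shiftRight (V (nat_lit 23)) (S (nat_lit 47))) (nat_lit 65535))) (Nat.shiftLeft (nat_lit 1) (Nat.land (Nat.shiftRight (V (nat_lit 23)) (S (nat_lit 55))) (nat_lit 65535)))))) (Nat.add (Nat.add (Nat.add (Nat.shiftLeft (nat_lit 1) (Nat.land (Nat.shiftRight (V (nat_lit 28)) (S (nat_lit 9))) (nat_lit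 65535))) (Nat.shiftLeft (nat_lit 1) (Nat.land (Nat.shiftRight (V (nat_lit 28)) (S (nat_lit 10))) (nat_lit 65535)))) (Nat.add (Nat.shiftLeft (nat_lit 1) (Nat.land (Nat.shiftRight (V (nat_lit 29)) (S (nat_lit 10))) (nat_lit 65535))) (Nat.shiftLeft (nat_lit 1) (Nat.land (Nat.shiftRight (V (nat_lit 29)) (S (nat_lit 37))) (nat_lit 65535))))) (Nat.add (Nat.add (Nat.shiftLeft (nat_lit 1) (Nat.land (Nat.shiftRight (V (nat_lit 30)) (S (nat_lit 1))) (nat_lit 65535))) (Nat.shiftLeft (nat_lit 1) (Nat.land (Nat.shiftRight (V (nat_lit 30)) (S (nat_lit 18))) (nat_lit 65535)))) (Nat.add (Nat.shiftLeft (nat_lit 1) (Nat.land (Nat.shiftRight (V (nat_lit 30)) (S (nat_lit 22))) (nat_lit 65535))) (Nat.shiftLeft (nat_lit 1) (Nat.land (Nat.shiftRight (V (nat_lit 30)) (S (nat_lit 35))) (nat_lit 65535))))))))) (Nat.add (Nat.add (Nat.add (Nat.add (Nat.add (Nat.shiftLeft (nat_lit 1) (Nat.land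 (Nat.shiftRight (V (nat_lit 33)) (S (nat_lit 4))) (nat_lit 65535))) (Nat.add (Nat.shiftLeft (nat_lit 1) (Nat.land (Nat.shiftRight (V (nat_lit 33)) (S (nat_lit 35))) (nat_lit 65535))) (Nat.shiftLeft (nat_lit 1) (Nat.land (Nat.shiftRight (V (nat_lit 33)) (S (nat_lit 40))) (nat_lit 65535))))) (Nat.add (Nat.add (Nat.shiftLeft (nat_lit 1) (Nat.land (Nat.shiftRight (V (nat_lit 33)) (S (nat_lit 42))) (nat_lit 65535))) (Nat.shiftLeft (nat_lit 1) (Nat.land (Nat.shiftRight (V (nat_lit 35)) (S (nat_lit 3))) (nat_lit 65535)))) (Nat.add (Nat.shiftLeft (nat_lit 1) (Nat.land (Nat.shiftRight (V (nat_lit 35)) (S (nat_lit 12))) (nat_lit 65535))) (Nat.shiftLeft (nat_lit 1) (Nat.land (Nat.shiftRight (V (nat_lit 35)) (S (nat_lit 30))) (nat_lit 65535)))))) (Nat.add (Nat.add (Nat.add (Nat.shiftLeft (nat_lit 1) (Nat.land (Nat.shiftRight (V (nat_lit 35)) (S (nat_lit 33))) (nat_lit 65535)))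 (Nat.shiftLeft (nat_lit 1) (Nat.land (Nat.shiftRight (V (nat_lit 36)) (S (nat_lit 4))) (nat_lit 65535)))) (Nat.add (Nat.shiftLeft (nat_lit 1) (Nat.land (Nat.shiftRight (V (nat_lit 36)) (S (nat_lit 9))) (nat_lit 65535))) (Nat.shiftLeft (nat_lit 1) (Nat.land (Nat.shiftRight (V (nat_lit 36)) (S (nat_lit 22))) (nat_lit 65535))))) (Nat.add (Nat.add (Nat.shiftLeft (nat_lit 1) (Nat.land (Nat.shiftRight (V (nat_lit 36)) (S (nat_lit 37))) (nat_lit 65535))) (Nat.shiftLeft (nat_lit 1) (Nat.land (Nat.shiftRight (V (nat_lit 37)) (S (nat_lit 5))) (nat_lit 65535)))) (Nat.add (Nat.shiftLeft (nat_lit 1) (Nat.land (Nat.shiftRight (V (nat_lit 37)) (S (nat_lit 29))) (nat_lit 65535))) (Nat.shiftLeft (nat_lit 1) (Nat.land (Nat.shiftRight (V (nat_lit 37)) (S (nat_lit 36))) (nat_lit 65535))))))) (Nat.add (Nat.add (Nat.add (Nat.shiftLeft (nat_lit 1) (Nat.land (Nat.shiftRight (V (nat_lit 37))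 (S (nat_lit 50))) (nat_lit 65535))) (Nat.add (Nat.shiftLeft (nat_lit 1) (Nat.land (Nat.shiftRight (V (nat_lit 39)) (S (nat_lit 5))) (nat_lit 65535))) (Nat.shiftLeft (nat_lit 1) (Nat.land (Nat.shiftRight (V (nat_lit 39)) (S (nat_lit 7))) (nat_lit 65535))))) (Nat.add (Nat.add (Nat.shiftLeft (nat_lit 1) (Nat.land (Nat.shiftRight (V (nat_lit 39)) (S (nat_lit 21))) (nat_lit 65535))) (Nat.shiftLeft (nat_lit 1) (Nat.land (Nat.shiftRight (V (nat_lit 39)) (S (nat_lit 46))) (nat_lit 65535)))) (Nat.add (Nat.shiftLeft (nat_lit 1) (Nat.land (Nat.shiftRight (V (nat_lit 40)) (S (nat_lit 8))) (nat_lit 65535))) (Nat.shiftLeft (nat_lit 1) (Nat.land (Nat.shiftRight (V (nat_lit 40)) (S (nat_lit 21))) (nat_lit 65535)))))) (Nat.add (Nat.add (Nat.add (Nat.shiftLeft (nat_lit 1) (Nat.land (Nat.shiftRight (V (nat_lit 40)) (S (nat_lit 33))) (nat_lit 65535))) (Nat.shiftLeft (nat_lit 1) (Nat.land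 (Nat.shiftRight (V (nat_lit 40)) (S (nat_lit 50))) (nat_lit 65535)))) (Nat.add (Nat.shiftLeft (nat_lit 1) (Nat.land (Nat.shiftRight (V (nat_lit 41)) (S (nat_lit 4))) (nat_lit 65535))) (Nat.shiftLeft (nat_lit 1) (Nat.land (Nat.shiftRight (V (nat_lit 41)) (S (nat_lit 22))) (nat_lit 65535))))) (Nat.add (Nat.add (Nat.shiftLeft (nat_lit 1) (Nat.land (Nat.shiftRight (V (nat_lit 41)) (S (nat_lit 23))) (nat_lit 65535))) (Nat.shiftLeft (nat_lit 1) (Nat.land (Nat.shiftRight (V (nat_lit 41)) (S (nat_lit 44))) (nat_lit 65535)))) (Nat.add (Nat.shiftLeft (nat_lit 1) (Nat.land (Nat.shiftRight (V (nat_lit 42)) (S (nat_lit 13))) (nat_lit 65535))) (Nat.shiftLeft (nat_lit 1) (Nat.land (Nat.shiftRight (V (nat_lit 42)) (S (nat_lit 33))) (nat_lit 65535)))))))) (Nat.add (Nat.add (Nat.add (Nat.add (Nat.shiftLeft (nat_lit 1) (Nat.land (Nat.shiftRight (V (nat_lit 42)) (S (nat_lit 47))) (nat_lit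 65535))) (Nat.add (Nat.shiftLeft (nat_lit 1) (Nat.land (Nat.shiftRight (V (nat_lit 42)) (S (nat_lit 53))) (nat_lit 65535))) (Nat.shiftLeft (nat_lit 1) (Nat.land (Nat.shiftRight (V (nat_lit 44)) (S (nat_lit 8))) (nat_lit 65535))))) (Nat.add (Nat.add (Nat.shiftLeft (nat_lit 1) (Nat.land (Nat.shiftRight (V (nat_lit 44)) (S (nat_lit 12))) (nat_lit 65535))) (Nat.shiftLeft (nat_lit 1) (Nat.land (Nat.shiftRight (V (nat_lit 44)) (S (nat_lit 13))) (nat_lit 65535)))) (Nat.add (Nat.shiftLeft (nat_lit 1) (Nat.land (Nat.shiftRight (V (nat_lit 44)) (S (nat_lit 41))) (nat_lit 65535))) (Nat.shiftLeft (nat_lit 1) (Nat.land (Nat.shiftRight (V (nat_lit 46)) (S (nat_lit 1))) (nat_lit 65535)))))) (Nat.add (Nat.add (Nat.add (Nat.shiftLeft (nat_lit 1) (Nat.land (Nat.shiftRight (V (nat_lit 46)) (S (nat_lit 9))) (nat_lit 65535))) (Nat.shiftLeft (nat_lit 1) (Nat.land (Nat.shiftRight (V (nat_lit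 46)) (S (nat_lit 15))) (nat_lit 65535)))) (Nat.add (Nat.shiftLeft (nat_lit 1) (Nat.land (Nat.shiftRight (V (nat_lit 46)) (S (nat_lit 39))) (nat_lit 65535))) (Nat.shiftLeft (nat_lit 1) (Nat.land (Nat.shiftRight (V (nat_lit 47)) (S (nat_lit 1))) (nat_lit 65535))))) (Nat.add (Nat.add (Nat.shiftLeft (nat_lit 1) (Nat.land (Nat.shiftRight (V (nat_lit 47)) (S (nat_lit 15))) (nat_lit 65535))) (Nat.shiftLeft (nat_lit 1) (Nat.land (Nat.shiftRight (V (nat_lit 47)) (S (nat_lit 23))) (nat_lit 65535)))) (Nat.add (Nat.shiftLeft (nat_lit 1) (Nat.land (Nat.shiftRight (V (nat_lit 47)) (S (nat_lit 42))) (nat_lit 65535))) (Nat.shiftLeft (nat_lit 1) (Nat.land (Nat.shiftRight (V (nat_lit 50)) (S (nat_lit 15))) (nat_lit 65535))))))) (Nat.add (Nat.add (Nat.add (Nat.shiftLeft (nat_lit 1) (Nat.land (Nat.shiftRight (V (nat_lit 50)) (S (nat_lit 37))) (nat_lit 65535))) (Nat.add (Nat.shiftLeft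 (nat_lit 1) (Nat.land (Nat.shiftRight (V (nat_lit 50)) (S (nat_lit 40))) (nat_lit 65535))) (Nat.shiftLeft (nat_lit 1) (Nat.land (Nat.shiftRight (V (nat_lit 50)) (S (nat_lit 51))) (nat_lit 65535))))) (Nat.add (Nat.add (Nat.shiftLeft (nat_lit 1) (Nat.land (Nat.shiftRight (V (nat_lit 51)) (S (nat_lit 7))) (nat_lit 65535))) (Nat.shiftLeft (nat_lit 1) (Nat.land (Nat.shiftRight (V (nat_lit 51)) (S (nat_lit 19))) (nat_lit 65535)))) (Nat.add (Nat.shiftLeft (nat_lit 1) (Nat.land (Nat.shiftRight (V (nat_lit 51)) (S (nat_lit 50))) (nat_lit 65535))) (Nat.shiftLeft (nat_lit 1) (Nat.land (Nat.shiftRight (V (nat_lit 51)) (S (nat_lit 54))) (nat_lit 65535)))))) (Nat.add (Nat.add (Nat.add (Nat.shiftLeft (nat_lit 1) (Nat.land (Nat.shiftRight (V (nat_lit 53)) (S (nat_lit 18))) (nat_lit 65535))) (Nat.shiftLeft (nat_lit 1) (Nat.land (Nat.shiftRight (V (nat_lit 53)) (S (nat_lit 42))) (nat_lit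 65535)))) (Nat.add (Nat.shiftLeft (nat_lit 1) (Nat.land (Nat.shiftRight (V (nat_lit 54)) (S (nat_lit 1))) (nat_lit 65535))) (Nat.shiftLeft (nat_lit 1) (Nat.land (Nat.shiftRight (V (nat_lit 54)) (S (nat_lit 10))) (nat_lit 65535))))) (Nat.add (Nat.add (Nat.shiftLeft (nat_lit 1) (Nat.land (Nat.shiftRight (V (nat_lit 54)) (S (nat_lit 22))) (nat_lit 65535))) (Nat.shiftLeft (nat_lit 1) (Nat.land (Nat.shiftRight (V (nat_lit 54)) (S (nat_lit 51))) (nat_lit 65535)))) (Nat.add (Nat.shiftLeft (nat_lit 1) (Nat.land (Nat.shiftRight (V (nat_lit 55)) (S (nat_lit 18))) (nat_lit 65535))) (Nat.shiftLeft (nat_lit 1) (Nat.land (Nat.shiftRight (V (nat_lit 55)) (S (nat_lit 23))) (nat_lit 65535)))))))))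
def E101_3 (V S : ℕ → ℕ) : ℕ := Nat.add (Nat.add (Nat.add (Nat.add (Nat.add (Nat.shiftLeft (nat_lit 1) (Nat.land (Nat.shiftRight (V (nat_lit 1)) (S (nat_lit 43))) (nat_lit 65535))) (Nat.shiftLeft (nat_lit 1) (Nat.land (Nat.shiftRight (V (nat_lit 1)) (S (nat_lit 59))) (nat_lit 65535)))) (Nat.add (Nat.shiftLeft (nat_lit 1) (Nat.land (Nat.shiftRight (V (nat_lit 3)) (S (nat_lit 13))) (nat_lit 65535))) (Nat.add (Nat.shiftLeft (nat_lit 1) (Nat.land (Nat.shiftRight (V (nat_lit 3)) (S (nat_lit 53))) (nat_lit 65535))) (Nat.shiftLeft (nat_lit 1) (Nat.land (Nat.shiftRight (V (nat_lit 4)) (S (nat_lit 14))) (nat_lit 65535)))))) (Nat.add (Nat.add (Nat.shiftLeft (nat_lit 1) (Nat.land (Nat.shiftRight (V (nat_lit 4)) (S (nat_lit 27))) (nat_lit 65535))) (Nat.shiftLeft (nat_lit 1) (Nat.land (Nat.shiftRight (V (nat_lit 5)) (S (nat_lit 19))) (nat_lit 65535)))) (Nat.add (Nat.shiftLeft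 (nat_lit 1) (Nat.land (Nat.shiftRight (V (nat_lit 5)) (S (nat_lit 28))) (nat_lit 65535))) (Nat.add (Nat.shiftLeft (nat_lit 1) (Nat.land (Nat.shiftRight (V (nat_lit 7)) (S (nat_lit 28))) (nat_lit 65535))) (Nat.shiftLeft (nat_lit 1) (Nat.land (Nat.shiftRight (V (nat_lit 7)) (S (nat_lit 29))) (nat_lit 65535))))))) (Nat.add (Nat.add (Nat.add (Nat.shiftLeft (nat_lit 1) (Nat.land (Nat.shiftRight (V (nat_lit 11)) (S (nat_lit 15))) (nat_lit 65535))) (Nat.shiftLeft (nat_lit 1) (Nat.land (Nat.shiftRight (V (nat_lit 11)) (S (nat_lit 40))) (nat_lit 65535)))) (Nat.add (Nat.shiftLeft (nat_lit 1) (Nat.land (Nat.shiftRight (V (nat_lit 12)) (S (nat_lit 53))) (nat_lit 65535))) (Nat.add (Nat.shiftLeft (nat_lit 1) (Nat.land (Nat.shiftRight (V (nat_lit 12)) (S (nat_lit 55))) (nat_lit 65535))) (Nat.shiftLeft (nat_lit 1) (Nat.land (Nat.shiftRight (V (nat_lit 13)) (S (nat_lit 3))) (nat_lit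 65535)))))) (Nat.add (Nat.add (Nat.shiftLeft (nat_lit 1) (Nat.land (Nat.shiftRight (V (nat_lit 13)) (S (nat_lit 55))) (nat_lit 65535))) (Nat.shiftLeft (nat_lit 1) (Nat.land (Nat.shiftRight (V (nat_lit 14)) (S (nat_lit 4))) (nat_lit 65535)))) (Nat.add (Nat.shiftLeft (nat_lit 1) (Nat.land (Nat.shiftRight (V (nat_lit 14)) (S (nat_lit 40))) (nat_lit 65535))) (Nat.add (Nat.shiftLeft (nat_lit 1) (Nat.land (Nat.shiftRight (V (nat_lit 15)) (S (nat_lit 11))) (nat_lit 65535))) (Nat.shiftLeft (nat_lit 1) (Nat.land (Nat.shiftRight (V (nat_lit 15)) (S (nat_lit 59))) (nat_lit 65535)))))))) (Nat.add (Nat.add (Nat.add (Nat.add (Nat.shiftLeft (nat_lit 1) (Nat.land (Nat.shiftRight (V (nat_lit 19)) (S (nat_lit 5))) (nat_lit 65535))) (Nat.shiftLeft (nat_lit 1) (Nat.land (Nat.shiftRight (V (nat_lit 19)) (S (nat_lit 29))) (nat_lit 65535)))) (Nat.add (Nat.shiftLeft (nat_lit 1) (Nat.land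 (Nat.shiftRight (V (nat_lit 22)) (S (nat_lit 27))) (nat_lit 65535))) (Nat.add (Nat.shiftLeft (nat_lit 1) (Nat.land (Nat.shiftRight (V (nat_lit 22)) (S (nat_lit 43))) (nat_lit 65535))) (Nat.shiftLeft (nat_lit 1) (Nat.land (Nat.shiftRight (V (nat_lit 27)) (S (nat_lit 4))) (nat_lit 65535)))))) (Nat.add (Nat.add (Nat.shiftLeft (nat_lit 1) (Nat.land (Nat.shiftRight (V (nat_lit 27)) (S (nat_lit 22))) (nat_lit 65535))) (Nat.shiftLeft (nat_lit 1) (Nat.land (Nat.shiftRight (V (nat_lit 28)) (S (nat_lit 5))) (nat_lit 65535)))) (Nat.add (Nat.shiftLeft (nat_lit 1) (Nat.land (Nat.shiftRight (V (nat_lit 28)) (S (nat_lit 7))) (nat_lit 65535))) (Nat.add (Nat.shiftLeft (nat_lit 1) (Nat.land (Nat.shiftRight (V (nat_lit 29)) (S (nat_lit 7))) (nat_lit 65535))) (Nat.shiftLeft (nat_lit 1) (Nat.land (Nat.shiftRight (V (nat_lit 29)) (S (nat_lit 19))) (nat_lit 65535))))))) (Nat.add (Nat.add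 (Nat.add (Nat.shiftLeft (nat_lit 1) (Nat.land (Nat.shiftRight (V (nat_lit 40)) (S (nat_lit 11))) (nat_lit 65535))) (Nat.shiftLeft (nat_lit 1) (Nat.land (Nat.shiftRight (V (nat_lit 40)) (S (nat_lit 14))) (nat_lit 65535)))) (Nat.add (Nat.shiftLeft (nat_lit 1) (Nat.land (Nat.shiftRight (V (nat_lit 43)) (S (nat_lit 1))) (nat_lit 65535))) (Nat.add (Nat.shiftLeft (nat_lit 1) (Nat.land (Nat.shiftRight (V (nat_lit 43)) (S (nat_lit 22))) (nat_lit 65535))) (Nat.shiftLeft (nat_lit 1) (Nat.land (Nat.shiftRight (V (nat_lit 53)) (S (nat_lit 3))) (nat_lit 65535)))))) (Nat.add (Nat.add (Nat.shiftLeft (nat_lit 1) (Nat.land (Nat.shiftRight (V (nat_lit 53)) (S (nat_lit 12))) (nat_lit 65535))) (Nat.shiftLeft (nat_lit 1) (Nat.land (Nat.shiftRight (V (nat_lit 55)) (S (nat_lit 12))) (nat_lit 65535)))) (Nat.add (Nat.shiftLeft (nat_lit 1) (Nat.land (Nat.shiftRight (V (nat_lit 55)) (S (nat_lit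 13))) (nat_lit 65535))) (Nat.add (Nat.shiftLeft (nat_lit 1) (Nat.land (Nat.shiftRight (V (nat_lit 59)) (S (nat_lit 1))) (nat_lit 65535))) (Nat.shiftLeft (nat_lit 1) (Nat.land (Nat.shiftRight (V (nat_lit 59)) (S (nat_lit 15))) (nat_lit 65535))))))))
def E102_3 (V S : ℕ → ℕ) : ℕ := Nat.add (Nat.add (Nat.add (Nat.add (Nat.add (Nat.add (Nat.shiftLeft (nat_lit 1) (Nat.land (Nat.shiftRight (V (nat_lit 2)) (S (nat_lit 32))) (nat_lit 65535))) (Nat.shiftLeft (nat_lit 1) (Nat.land (Nat.shiftRight (V (nat_lit 2)) (S (nat_lit 33))) (nat_lit 65535)))) (Nat.add (Nat.shiftLeft (nat_lit 1) (Nat.land (Nat.shiftRight (V (nat_lit 3)) (S (nat_lit 45))) (nat_lit 65535))) (Nat.add (Nat.shiftLeft (nat_lit 1) (Nat.land (Nat.shiftRight (V (nat_lit 5)) (S (nat_lit 45))) (nat_lit 65535))) (Nat.shiftLeft (nat_lit 1) (Nat.land (Nat.shiftRight (V (nat_lit 6)) (S (nat_lit 32))) (nat_lit 65535))))))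 (Nat.add (Nat.add (Nat.shiftLeft (nat_lit 1) (Nat.land (Nat.shiftRight (V (nat_lit 6)) (S (nat_lit 47))) (nat_lit 65535))) (Nat.shiftLeft (nat_lit 1) (Nat.land (Nat.shiftRight (V (nat_lit 7)) (S (nat_lit 45))) (nat_lit 65535)))) (Nat.add (Nat.shiftLeft (nat_lit 1) (Nat.land (Nat.shiftRight (V (nat_lit 8)) (S (nat_lit 32))) (nat_lit 65535))) (Nat.add (Nat.shiftLeft (nat_lit 1) (Nat.land (Nat.shiftRight (V (nat_lit 8)) (S (nat_lit 49))) (nat_lit 65535))) (Nat.shiftLeft (nat_lit 1) (Nat.land (Nat.shiftRight (V (nat_lit 12)) (S (nat_lit 45))) (nat_lit 65535))))))) (Nat.add (Nat.add (Nat.add (Nat.shiftLeft (nat_lit 1) (Nat.land (Nat.shiftRight (V (nat_lit 13)) (S (nat_lit 45))) (nat_lit 65535))) (Nat.shiftLeft (nat_lit 1) (Nat.land (Nat.shiftRight (V (nat_lit 17)) (S (nat_lit 36))) (nat_lit 65535)))) (Nat.add (Nat.shiftLeft (nat_lit 1) (Nat.land (Nat.shiftRight (V (nat_lit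 17)) (S (nat_lit 48))) (nat_lit 65535))) (Nat.add (Nat.shiftLeft (nat_lit 1) (Nat.land (Nat.shiftRight (V (nat_lit 19)) (S (nat_lit 45))) (nat_lit 65535))) (Nat.shiftLeft (nat_lit 1) (Nat.land (Nat.shiftRight (V (nat_lit 20)) (S (nat_lit 48))) (nat_lit 65535)))))) (Nat.add (Nat.add (Nat.shiftLeft (nat_lit 1) (Nat.land (Nat.shiftRight (V (nat_lit 20)) (S (nat_lit 50))) (nat_lit 65535))) (Nat.shiftLeft (nat_lit 1) (Nat.land (Nat.shiftRight (V (nat_lit 21)) (S (nat_lit 25))) (nat_lit 65535)))) (Nat.add (Nat.shiftLeft (nat_lit 1) (Nat.land (Nat.shiftRight (V (nat_lit 21)) (S (nat_lit 48))) (nat_lit 65535))) (Nat.add (Nat.shiftLeft (nat_lit 1) (Nat.land (Nat.shiftRight (V (nat_lit 24)) (S (nat_lit 32))) (nat_lit 65535))) (Nat.shiftLeft (nat_lit 1) (Nat.land (Nat.shiftRight (V (nat_lit 24)) (S (nat_lit 41))) (nat_lit 65535)))))))) (Nat.add (Nat.add (Nat.add (Nat.add (Nat.shiftLeft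 (nat_lit 1) (Nat.land (Nat.shiftRight (V (nat_lit 25)) (S (nat_lit 21))) (nat_lit 65535))) (Nat.shiftLeft (nat_lit 1) (Nat.land (Nat.shiftRight (V (nat_lit 25)) (S (nat_lit 48))) (nat_lit 65535)))) (Nat.add (Nat.shiftLeft (nat_lit 1) (Nat.land (Nat.shiftRight (V (nat_lit 28)) (S (nat_lit 45))) (nat_lit 65535))) (Nat.add (Nat.shiftLeft (nat_lit 1) (Nat.land (Nat.shiftRight (V (nat_lit 29)) (S (nat_lit 45))) (nat_lit 65535))) (Nat.shiftLeft (nat_lit 1) (Nat.land (Nat.shiftRight (V (nat_lit 30)) (S (nat_lit 32))) (nat_lit 65535)))))) (Nat.add (Nat.add (Nat.shiftLeft (nat_lit 1) (Nat.land (Nat.shiftRight (V (nat_lit 30)) (S (nat_lit 52))) (nat_lit 65535))) (Nat.shiftLeft (nat_lit 1) (Nat.land (Nat.shiftRight (V (nat_lit 31)) (S (nat_lit 48))) (nat_lit 65535)))) (Nat.add (Nat.shiftLeft (nat_lit 1) (Nat.land (Nat.shiftRight (V (nat_lit 31)) (S (nat_lit 54))) (nat_lit 65535)))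 (Nat.add (Nat.shiftLeft (nat_lit 1) (Nat.land (Nat.shiftRight (V (nat_lit 32)) (S (nat_lit 2))) (nat_lit 65535))) (Nat.shiftLeft (nat_lit 1) (Nat.land (Nat.shiftRight (V (nat_lit 32)) (S (nat_lit 6))) (nat_lit 65535))))))) (Nat.add (Nat.add (Nat.add (Nat.shiftLeft (nat_lit 1) (Nat.land (Nat.shiftRight (V (nat_lit 32)) (S (nat_lit 8))) (nat_lit 65535))) (Nat.shiftLeft (nat_lit 1) (Nat.land (Nat.shiftRight (V (nat_lit 32)) (S (nat_lit 24))) (nat_lit 65535)))) (Nat.add (Nat.shiftLeft (nat_lit 1) (Nat.land (Nat.shiftRight (V (nat_lit 32)) (S (nat_lit 30))) (nat_lit 65535))) (Nat.add (Nat.shiftLeft (nat_lit 1) (Nat.land (Nat.shiftRight (V (nat_lit 32)) (S (nat_lit 33))) (nat_lit 65535))) (Nat.shiftLeft (nat_lit 1) (Nat.land (Nat.shiftRight (V (nat_lit 32)) (S (nat_lit 41))) (nat_lit 65535)))))) (Nat.add (Nat.add (Nat.shiftLeft (nat_lit 1) (Nat.land (Nat.shiftRight (V (nat_lit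 32)) (S (nat_lit 47))) (nat_lit 65535))) (Nat.shiftLeft (nat_lit 1) (Nat.land (Nat.shiftRight (V (nat_lit 32)) (S (nat_lit 49))) (nat_lit 65535)))) (Nat.add (Nat.shiftLeft (nat_lit 1) (Nat.land (Nat.shiftRight (V (nat_lit 32)) (S (nat_lit 52))) (nat_lit 65535))) (Nat.add (Nat.shiftLeft (nat_lit 1) (Nat.land (Nat.shiftRight (V (nat_lit 33)) (S (nat_lit 2))) (nat_lit 65535))) (Nat.shiftLeft (nat_lit 1) (Nat.land (Nat.shiftRight (V (nat_lit 33)) (S (nat_lit 32))) (nat_lit 65535))))))))) (Nat.add (Nat.add (Nat.add (Nat.add (Nat.add (Nat.shiftLeft (nat_lit 1) (Nat.land (Nat.shiftRight (V (nat_lit 36)) (S (nat_lit 17))) (nat_lit 65535))) (Nat.shiftLeft (nat_lit 1) (Nat.land (Nat.shiftRight (V (nat_lit 36)) (S (nat_lit 48))) (nat_lit 65535)))) (Nat.add (Nat.shiftLeft (nat_lit 1) (Nat.land (Nat.shiftRight (V (nat_lit 41)) (S (nat_lit 24))) (nat_lit 65535))) (Nat.add (Nat.shiftLeft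 (nat_lit 1) (Nat.land (Nat.shiftRight (V (nat_lit 41)) (S (nat_lit 32))) (nat_lit 65535))) (Nat.shiftLeft (nat_lit 1) (Nat.land (Nat.shiftRight (V (nat_lit 45)) (S (nat_lit 3))) (nat_lit 65535)))))) (Nat.add (Nat.add (Nat.shiftLeft (nat_lit 1) (Nat.land (Nat.shiftRight (V (nat_lit 45)) (S (nat_lit 5))) (nat_lit 65535))) (Nat.shiftLeft (nat_lit 1) (Nat.land (Nat.shiftRight (V (nat_lit 45)) (S (nat_lit 7))) (nat_lit 65535)))) (Nat.add (Nat.shiftLeft (nat_lit 1) (Nat.land (Nat.shiftRight (V (nat_lit 45)) (S (nat_lit 12))) (nat_lit 65535))) (Nat.add (Nat.shiftLeft (nat_lit 1) (Nat.land (Nat.shiftRight (V (nat_lit 45)) (S (nat_lit 13))) (nat_lit 65535))) (Nat.shiftLeft (nat_lit 1) (Nat.land (Nat.shiftRight (V (nat_lit 45)) (S (nat_lit 19))) (nat_lit 65535))))))) (Nat.add (Nat.add (Nat.add (Nat.shiftLeft (nat_lit 1) (Nat.land (Nat.shiftRight (V (nat_lit 45)) (S (nat_lit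 28))) (nat_lit 65535))) (Nat.shiftLeft (nat_lit 1) (Nat.land (Nat.shiftRight (V (nat_lit 45)) (S (nat_lit 29))) (nat_lit 65535)))) (Nat.add (Nat.shiftLeft (nat_lit 1) (Nat.land (Nat.shiftRight (V (nat_lit 45)) (S (nat_lit 53))) (nat_lit 65535))) (Nat.add (Nat.shiftLeft (nat_lit 1) (Nat.land (Nat.shiftRight (V (nat_lit 45)) (S (nat_lit 55))) (nat_lit 65535))) (Nat.shiftLeft (nat_lit 1) (Nat.land (Nat.shiftRight (V (nat_lit 46)) (S (nat_lit 48))) (nat_lit 65535)))))) (Nat.add (Nat.add (Nat.shiftLeft (nat_lit 1) (Nat.land (Nat.shiftRight (V (nat_lit 46)) (S (nat_lit 56))) (nat_lit 65535))) (Nat.shiftLeft (nat_lit 1) (Nat.land (Nat.shiftRight (V (nat_lit 47)) (S (nat_lit 6))) (nat_lit 65535)))) (Nat.add (Nat.shiftLeft (nat_lit 1) (Nat.land (Nat.shiftRight (V (nat_lit 47)) (S (nat_lit 32))) (nat_lit 65535))) (Nat.add (Nat.shiftLeft (nat_lit 1) (Nat.land (Nat.shiftRight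 (V (nat_lit 48)) (S (nat_lit 17))) (nat_lit 65535))) (Nat.shiftLeft (nat_lit 1) (Nat.land (Nat.shiftRight (V (nat_lit 48)) (S (nat_lit 20))) (nat_lit 65535)))))))) (Nat.add (Nat.add (Nat.add (Nat.add (Nat.shiftLeft (nat_lit 1) (Nat.land (Nat.shiftRight (V (nat_lit 48)) (S (nat_lit 21))) (nat_lit 65535))) (Nat.shiftLeft (nat_lit 1) (Nat.land (Nat.shiftRight (V (nat_lit 48)) (S (nat_lit 25))) (nat_lit 65535)))) (Nat.add (Nat.shiftLeft (nat_lit 1) (Nat.land (Nat.shiftRight (V (nat_lit 48)) (S (nat_lit 31))) (nat_lit 65535))) (Nat.add (Nat.shiftLeft (nat_lit 1) (Nat.land (Nat.shiftRight (V (nat_lit 48)) (S (nat_lit 36))) (nat_lit 65535))) (Nat.shiftLeft (nat_lit 1) (Nat.land (Nat.shiftRight (V (nat_lit 48)) (S (nat_lit 46))) (nat_lit 65535)))))) (Nat.add (Nat.add (Nat.shiftLeft (nat_lit 1) (Nat.land (Nat.shiftRight (V (nat_lit 48)) (S (nat_lit 50))) (nat_lit 65535)))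 (Nat.shiftLeft (nat_lit 1) (Nat.land (Nat.shiftRight (V (nat_lit 48)) (S (nat_lit 54))) (nat_lit 65535)))) (Nat.add (Nat.shiftLeft (nat_lit 1) (Nat.land (Nat.shiftRight (V (nat_lit 48)) (S (nat_lit 56))) (nat_lit 65535))) (Nat.add (Nat.shiftLeft (nat_lit 1) (Nat.land (Nat.shiftRight (V (nat_lit 49)) (S (nat_lit 8))) (nat_lit 65535))) (Nat.shiftLeft (nat_lit 1) (Nat.land (Nat.shiftRight (V (nat_lit 49)) (S (nat_lit 32))) (nat_lit 65535))))))) (Nat.add (Nat.add (Nat.add (Nat.shiftLeft (nat_lit 1) (Nat.land (Nat.shiftRight (V (nat_lit 50)) (S (nat_lit 20))) (nat_lit 65535))) (Nat.shiftLeft (nat_lit 1) (Nat.land (Nat.shiftRight (V (nat_lit 50)) (S (nat_lit 48))) (nat_lit 65535)))) (Nat.add (Nat.shiftLeft (nat_lit 1) (Nat.land (Nat.shiftRight (V (nat_lit 52)) (S (nat_lit 30))) (nat_lit 65535))) (Nat.add (Nat.shiftLeft (nat_lit 1) (Nat.land (Nat.shiftRight (V (nat_lit 52))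 (S (nat_lit 32))) (nat_lit 65535))) (Nat.shiftLeft (nat_lit 1) (Nat.land (Nat.shiftRight (V (nat_lit 53)) (S (nat_lit 45))) (nat_lit 65535)))))) (Nat.add (Nat.add (Nat.shiftLeft (nat_lit 1) (Nat.land (Nat.shiftRight (V (nat_lit 54)) (S (nat_lit 31))) (nat_lit 65535))) (Nat.shiftLeft (nat_lit 1) (Nat.land (Nat.shiftRight (V (nat_lit 54)) (S (nat_lit 48))) (nat_lit 65535)))) (Nat.add (Nat.shiftLeft (nat_lit 1) (Nat.land (Nat.shiftRight (V (nat_lit 55)) (S (nat_lit 45))) (nat_lit 65535))) (Nat.add (Nat.shiftLeft (nat_lit 1) (Nat.land (Nat.shiftRight (V (nat_lit 56)) (S (nat_lit 46))) (nat_lit 65535))) (Nat.shiftLeft (nat_lit 1) (Nat.land (Nat.shiftRight (V (nat_lit 56)) (S (nat_lit 48))) (nat_lit 65535)))))))))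
def E103_3 (V S : ℕ → ℕ) : ℕ := Nat.add (Nat.add (Nat.add (Nat.add (Nat.add (Nat.add (Nat.add (Nat.shiftLeft (nat_lit 1) (Nat.land (Nat.shiftRight (V (nat_lit 2)) (S (nat_lit 30))) (nat_lit 65535))) (Nat.shiftLeft (nat_lit 1) (Nat.land (Nat.shiftRight (V (nat_lit 2)) (S (nat_lit 34))) (nat_lit 65535)))) (Nat.add (Nat.shiftLeft (nat_lit 1) (Nat.land (Nat.shiftRight (V (nat_lit 2)) (S (nat_lit 47))) (nat_lit 65535))) (Nat.add (Nat.shiftLeft (nat_lit 1) (Nat.land (Nat.shiftRight (V (nat_lit 2)) (S (nat_lit 57))) (nat_lit 65535))) (Nat.shiftLeft (nat_lit 1) (Nat.land (Nat.shiftRight (V (nat_lit 3)) (S (nat_lit 38))) (nat_lit 65535)))))) (Nat.add (Nat.add (Nat.shiftLeft (nat_lit 1) (Nat.land (Nat.shiftRight (V (nat_lit 3)) (S (nat_lit 57))) (nat_lit 65535))) (Nat.shiftLeft (nat_lit 1) (Nat.land (Nat.shiftRight (V (nat_lit 5)) (S (nat_lit 34))) (nat_lit 65535)))) (Nat.add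 (Nat.shiftLeft (nat_lit 1) (Nat.land (Nat.shiftRight (V (nat_lit 5)) (S (nat_lit 58))) (nat_lit 65535))) (Nat.add (Nat.shiftLeft (nat_lit 1) (Nat.land (Nat.shiftRight (V (nat_lit 6)) (S (nat_lit 33))) (nat_lit 65535))) (Nat.shiftLeft (nat_lit 1) (Nat.land (Nat.shiftRight (V (nat_lit 6)) (S (nat_lit 34))) (nat_lit 65535))))))) (Nat.add (Nat.add (Nat.add (Nat.shiftLeft (nat_lit 1) (Nat.land (Nat.shiftRight (V (nat_lit 6)) (S (nat_lit 38))) (nat_lit 65535))) (Nat.shiftLeft (nat_lit 1) (Nat.land (Nat.shiftRight (V (nat_lit 6)) (S (nat_lit 41))) (nat_lit 65535)))) (Nat.add (Nat.shiftLeft (nat_lit 1) (Nat.land (Nat.shiftRight (V (nat_lit 7)) (S (nat_lit 26))) (nat_lit 65535))) (Nat.add (Nat.shiftLeft (nat_lit 1) (Nat.land (Nat.shiftRight (V (nat_lit 7)) (S (nat_lit 34))) (nat_lit 65535))) (Nat.shiftLeft (nat_lit 1) (Nat.land (Nat.shiftRight (V (nat_lit 8)) (S (nat_lit 24)))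 (nat_lit 65535)))))) (Nat.add (Nat.add (Nat.shiftLeft (nat_lit 1) (Nat.land (Nat.shiftRight (V (nat_lit 8)) (S (nat_lit 26))) (nat_lit 65535))) (Nat.shiftLeft (nat_lit 1) (Nat.land (Nat.shiftRight (V (nat_lit 8)) (S (nat_lit 52))) (nat_lit 65535)))) (Nat.add (Nat.shiftLeft (nat_lit 1) (Nat.land (Nat.shiftRight (V (nat_lit 8)) (S (nat_lit 58))) (nat_lit 65535))) (Nat.add (Nat.shiftLeft (nat_lit 1) (Nat.land (Nat.shiftRight (V (nat_lit 12)) (S (nat_lit 57))) (nat_lit 65535))) (Nat.shiftLeft (nat_lit 1) (Nat.land (Nat.shiftRight (V (nat_lit 12)) (S (nat_lit 58))) (nat_lit 65535)))))))) (Nat.add (Nat.add (Nat.add (Nat.add (Nat.shiftLeft (nat_lit 1) (Nat.land (Nat.shiftRight (V (nat_lit 13)) (S (nat_lit 34))) (nat_lit 65535))) (Nat.shiftLeft (nat_lit 1) (Nat.land (Nat.shiftRight (V (nat_lit 13)) (S (nat_lit 58))) (nat_lit 65535)))) (Nat.add (Nat.shiftLeft (nat_lit 1) (Nat.land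 (Nat.shiftRight (V (nat_lit 17)) (S (nat_lit 38))) (nat_lit 65535))) (Nat.add (Nat.shiftLeft (nat_lit 1) (Nat.land (Nat.shiftRight (V (nat_lit 17)) (S (nat_lit 46))) (nat_lit 65535))) (Nat.shiftLeft (nat_lit 1) (Nat.land (Nat.shiftRight (V (nat_lit 17)) (S (nat_lit 50))) (nat_lit 65535)))))) (Nat.add (Nat.add (Nat.shiftLeft (nat_lit 1) (Nat.land (Nat.shiftRight (V (nat_lit 17)) (S (nat_lit 58))) (nat_lit 65535))) (Nat.shiftLeft (nat_lit 1) (Nat.land (Nat.shiftRight (V (nat_lit 19)) (S (nat_lit 26))) (nat_lit 65535)))) (Nat.add (Nat.shiftLeft (nat_lit 1) (Nat.land (Nat.shiftRight (V (nat_lit 19)) (S (nat_lit 38))) (nat_lit 65535))) (Nat.add (Nat.shiftLeft (nat_lit 1) (Nat.land (Nat.shiftRight (V (nat_lit 20)) (S (nat_lit 26))) (nat_lit 65535))) (Nat.shiftLeft (nat_lit 1) (Nat.land (Nat.shiftRight (V (nat_lit 20)) (S (nat_lit 36))) (nat_lit 65535))))))) (Nat.add (Nat.add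 (Nat.add (Nat.shiftLeft (nat_lit 1) (Nat.land (Nat.shiftRight (V (nat_lit 20)) (S (nat_lit 54))) (nat_lit 65535))) (Nat.shiftLeft (nat_lit 1) (Nat.land (Nat.shiftRight (V (nat_lit 20)) (S (nat_lit 58))) (nat_lit 65535)))) (Nat.add (Nat.shiftLeft (nat_lit 1) (Nat.land (Nat.shiftRight (V (nat_lit 21)) (S (nat_lit 31))) (nat_lit 65535))) (Nat.add (Nat.shiftLeft (nat_lit 1) (Nat.land (Nat.shiftRight (V (nat_lit 21)) (S (nat_lit 34))) (nat_lit 65535))) (Nat.shiftLeft (nat_lit 1) (Nat.land (Nat.shiftRight (V (nat_lit 21)) (S (nat_lit 56))) (nat_lit 65535)))))) (Nat.add (Nat.add (Nat.shiftLeft (nat_lit 1) (Nat.land (Nat.shiftRight (V (nat_lit 21)) (S (nat_lit 57))) (nat_lit 65535))) (Nat.shiftLeft (nat_lit 1) (Nat.land (Nat.shiftRight (V (nat_lit 24)) (S (nat_lit 8))) (nat_lit 65535)))) (Nat.add (Nat.shiftLeft (nat_lit 1) (Nat.land (Nat.shiftRight (V (nat_lit 24)) (S (nat_lit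 38))) (nat_lit 65535))) (Nat.add (Nat.shiftLeft (nat_lit 1) (Nat.land (Nat.shiftRight (V (nat_lit 24)) (S (nat_lit 47))) (nat_lit 65535))) (Nat.shiftLeft (nat_lit 1) (Nat.land (Nat.shiftRight (V (nat_lit 24)) (S (nat_lit 58))) (nat_lit 65535))))))))) (Nat.add (Nat.add (Nat.add (Nat.add (Nat.add (Nat.shiftLeft (nat_lit 1) (Nat.land (Nat.shiftRight (V (nat_lit 25)) (S (nat_lit 34))) (nat_lit 65535))) (Nat.shiftLeft (nat_lit 1) (Nat.land (Nat.shiftRight (V (nat_lit 25)) (S (nat_lit 46))) (nat_lit 65535)))) (Nat.add (Nat.shiftLeft (nat_lit 1) (Nat.land (Nat.shiftRight (V (nat_lit 25)) (S (nat_lit 54))) (nat_lit 65535))) (Nat.add (Nat.shiftLeft (nat_lit 1) (Nat.land (Nat.shiftRight (V (nat_lit 25)) (S (nat_lit 57))) (nat_lit 65535))) (Nat.shiftLeft (nat_lit 1) (Nat.land (Nat.shiftRight (V (nat_lit 26)) (S (nat_lit 7))) (nat_lit 65535)))))) (Nat.add (Nat.add (Nat.shiftLeft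 (nat_lit 1) (Nat.land (Nat.shiftRight (V (nat_lit 26)) (S (nat_lit 8))) (nat_lit 65535))) (Nat.shiftLeft (nat_lit 1) (Nat.land (Nat.shiftRight (V (nat_lit 26)) (S (nat_lit 19))) (nat_lit 65535)))) (Nat.add (Nat.shiftLeft (nat_lit 1) (Nat.land (Nat.shiftRight (V (nat_lit 26)) (S (nat_lit 20))) (nat_lit 65535))) (Nat.add (Nat.shiftLeft (nat_lit 1) (Nat.land (Nat.shiftRight (V (nat_lit 26)) (S (nat_lit 30))) (nat_lit 65535))) (Nat.shiftLeft (nat_lit 1) (Nat.land (Nat.shiftRight (V (nat_lit 26)) (S (nat_lit 31))) (nat_lit 65535))))))) (Nat.add (Nat.add (Nat.add (Nat.shiftLeft (nat_lit 1) (Nat.land (Nat.shiftRight (V (nat_lit 26)) (S (nat_lit 49))) (nat_lit 65535))) (Nat.shiftLeft (nat_lit 1) (Nat.land (Nat.shiftRight (V (nat_lit 26)) (S (nat_lit 50))) (nat_lit 65535)))) (Nat.add (Nat.shiftLeft (nat_lit 1) (Nat.land (Nat.shiftRight (V (nat_lit 26)) (S (nat_lit 52))) (nat_lit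 65535))) (Nat.add (Nat.shiftLeft (nat_lit 1) (Nat.land (Nat.shiftRight (V (nat_lit 26)) (S (nat_lit 53))) (nat_lit 65535))) (Nat.shiftLeft (nat_lit 1) (Nat.land (Nat.shiftRight (V (nat_lit 26)) (S (nat_lit 54))) (nat_lit 65535)))))) (Nat.add (Nat.add (Nat.shiftLeft (nat_lit 1) (Nat.land (Nat.shiftRight (V (nat_lit 26)) (S (nat_lit 55))) (nat_lit 65535))) (Nat.shiftLeft (nat_lit 1) (Nat.land (Nat.shiftRight (V (nat_lit 28)) (S (nat_lit 38))) (nat_lit 65535)))) (Nat.add (Nat.shiftLeft (nat_lit 1) (Nat.land (Nat.shiftRight (V (nat_lit 28)) (S (nat_lit 57))) (nat_lit 65535))) (Nat.add (Nat.shiftLeft (nat_lit 1) (Nat.land (Nat.shiftRight (V (nat_lit 29)) (S (nat_lit 57))) (nat_lit 65535))) (Nat.shiftLeft (nat_lit 1) (Nat.land (Nat.shiftRight (V (nat_lit 29)) (S (nat_lit 58))) (nat_lit 65535)))))))) (Nat.add (Nat.add (Nat.add (Nat.add (Nat.shiftLeft (nat_lit 1) (Nat.land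 (Nat.shiftRight (V (nat_lit 30)) (S (nat_lit 2))) (nat_lit 65535))) (Nat.shiftLeft (nat_lit 1) (Nat.land (Nat.shiftRight (V (nat_lit 30)) (S (nat_lit 26))) (nat_lit 65535)))) (Nat.add (Nat.shiftLeft (nat_lit 1) (Nat.land (Nat.shiftRight (V (nat_lit 30)) (S (nat_lit 49))) (nat_lit 65535))) (Nat.add (Nat.shiftLeft (nat_lit 1) (Nat.land (Nat.shiftRight (V (nat_lit 30)) (S (nat_lit 57))) (nat_lit 65535))) (Nat.shiftLeft (nat_lit 1) (Nat.land (Nat.shiftRight (V (nat_lit 31)) (S (nat_lit 21))) (nat_lit 65535)))))) (Nat.add (Nat.add (Nat.shiftLeft (nat_lit 1) (Nat.land (Nat.shiftRight (V (nat_lit 31)) (S (nat_lit 26))) (nat_lit 65535))) (Nat.shiftLeft (nat_lit 1) (Nat.land (Nat.shiftRight (V (nat_lit 31)) (S (nat_lit 50))) (nat_lit 65535)))) (Nat.add (Nat.shiftLeft (nat_lit 1) (Nat.land (Nat.shiftRight (V (nat_lit 31)) (S (nat_lit 57))) (nat_lit 65535))) (Nat.add (Nat.shiftLeft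 (nat_lit 1) (Nat.land (Nat.shiftRight (V (nat_lit 33)) (S (nat_lit 6))) (nat_lit 65535))) (Nat.shiftLeft (nat_lit 1) (Nat.land (Nat.shiftRight (V (nat_lit 33)) (S (nat_lit 34))) (nat_lit 65535))))))) (Nat.add (Nat.add (Nat.add (Nat.shiftLeft (nat_lit 1) (Nat.land (Nat.shiftRight (V (nat_lit 33)) (S (nat_lit 52))) (nat_lit 65535))) (Nat.shiftLeft (nat_lit 1) (Nat.land (Nat.shiftRight (V (nat_lit 33)) (S (nat_lit 57))) (nat_lit 65535)))) (Nat.add (Nat.shiftLeft (nat_lit 1) (Nat.land (Nat.shiftRight (V (nat_lit 34)) (S (nat_lit 2))) (nat_lit 65535))) (Nat.add (Nat.shiftLeft (nat_lit 1) (Nat.land (Nat.shiftRight (V (nat_lit 34)) (S (nat_lit 5))) (nat_lit 65535))) (Nat.shiftLeft (nat_lit 1) (Nat.land (Nat.shiftRight (V (nat_lit 34)) (S (nat_lit 6))) (nat_lit 65535)))))) (Nat.add (Nat.add (Nat.shiftLeft (nat_lit 1) (Nat.land (Nat.shiftRight (V (nat_lit 34)) (S (nat_lit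 7))) (nat_lit 65535))) (Nat.shiftLeft (nat_lit 1) (Nat.land (Nat.shiftRight (V (nat_lit 34)) (S (nat_lit 13))) (nat_lit 65535)))) (Nat.add (Nat.shiftLeft (nat_lit 1) (Nat.land (Nat.shiftRight (V (nat_lit 34)) (S (nat_lit 21))) (nat_lit 65535))) (Nat.add (Nat.shiftLeft (nat_lit 1) (Nat.land (Nat.shiftRight (V (nat_lit 34)) (S (nat_lit 25))) (nat_lit 65535))) (Nat.shiftLeft (nat_lit 1) (Nat.land (Nat.shiftRight (V (nat_lit 34)) (S (nat_lit 33))) (nat_lit 65535)))))))))) (Nat.add (Nat.add (Nat.add (Nat.add (Nat.add (Nat.add (Nat.shiftLeft (nat_lit 1) (Nat.land (Nat.shiftRight (V (nat_lit 34)) (S (nat_lit 46))) (nat_lit 65535))) (Nat.shiftLeft (nat_lit 1) (Nat.land (Nat.shiftRight (V (nat_lit 34)) (S (nat_lit 47))) (nat_lit 65535)))) (Nat.add (Nat.shiftLeft (nat_lit 1) (Nat.land (Nat.shiftRight (V (nat_lit 34)) (S (nat_lit 53))) (nat_lit 65535))) (Nat.add (Nat.shiftLeft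 (nat_lit 1) (Nat.land (Nat.shiftRight (V (nat_lit 34)) (S (nat_lit 56))) (nat_lit 65535))) (Nat.shiftLeft (nat_lit 1) (Nat.land (Nat.shiftRight (V (nat_lit 36)) (S (nat_lit 20))) (nat_lit 65535)))))) (Nat.add (Nat.add (Nat.shiftLeft (nat_lit 1) (Nat.land (Nat.shiftRight (V (nat_lit 36)) (S (nat_lit 38))) (nat_lit 65535))) (Nat.shiftLeft (nat_lit 1) (Nat.land (Nat.shiftRight (V (nat_lit 36)) (S (nat_lit 56))) (nat_lit 65535)))) (Nat.add (Nat.shiftLeft (nat_lit 1) (Nat.land (Nat.shiftRight (V (nat_lit 36)) (S (nat_lit 58))) (nat_lit 65535))) (Nat.add (Nat.shiftLeft (nat_lit 1) (Nat.land (Nat.shiftRight (V (nat_lit 38)) (S (nat_lit 3))) (nat_lit 65535))) (Nat.shiftLeft (nat_lit 1) (Nat.land (Nat.shiftRight (V (nat_lit 38)) (S (nat_lit 6))) (nat_lit 65535))))))) (Nat.add (Nat.add (Nat.add (Nat.shiftLeft (nat_lit 1) (Nat.land (Nat.shiftRight (V (nat_lit 38)) (S (nat_lit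 17))) (nat_lit 65535))) (Nat.shiftLeft (nat_lit 1) (Nat.land (Nat.shiftRight (V (nat_lit 38)) (S (nat_lit 19))) (nat_lit 65535)))) (Nat.add (Nat.shiftLeft (nat_lit 1) (Nat.land (Nat.shiftRight (V (nat_lit 38)) (S (nat_lit 24))) (nat_lit 65535))) (Nat.add (Nat.shiftLeft (nat_lit 1) (Nat.land (Nat.shiftRight (V (nat_lit 38)) (S (nat_lit 28))) (nat_lit 65535))) (Nat.shiftLeft (nat_lit 1) (Nat.land (Nat.shiftRight (V (nat_lit 38)) (S (nat_lit 36))) (nat_lit 65535)))))) (Nat.add (Nat.add (Nat.shiftLeft (nat_lit 1) (Nat.land (Nat.shiftRight (V (nat_lit 38)) (S (nat_lit 41))) (nat_lit 65535))) (Nat.shiftLeft (nat_lit 1) (Nat.land (Nat.shiftRight (V (nat_lit 38)) (S (nat_lit 46))) (nat_lit 65535)))) (Nat.add (Nat.shiftLeft (nat_lit 1) (Nat.land (Nat.shiftRight (V (nat_lit 38)) (S (nat_lit 47))) (nat_lit 65535))) (Nat.add (Nat.shiftLeft (nat_lit 1) (Nat.land (Nat.shiftRight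 (V (nat_lit 38)) (S (nat_lit 55))) (nat_lit 65535))) (Nat.shiftLeft (nat_lit 1) (Nat.land (Nat.shiftRight (V (nat_lit 38)) (S (nat_lit 56))) (nat_lit 65535)))))))) (Nat.add (Nat.add (Nat.add (Nat.add (Nat.shiftLeft (nat_lit 1) (Nat.land (Nat.shiftRight (V (nat_lit 41)) (S (nat_lit 6))) (nat_lit 65535))) (Nat.shiftLeft (nat_lit 1) (Nat.land (Nat.shiftRight (V (nat_lit 41)) (S (nat_lit 38))) (nat_lit 65535)))) (Nat.add (Nat.shiftLeft (nat_lit 1) (Nat.land (Nat.shiftRight (V (nat_lit 41)) (S (nat_lit 49))) (nat_lit 65535))) (Nat.add (Nat.shiftLeft (nat_lit 1) (Nat.land (Nat.shiftRight (V (nat_lit 41)) (S (nat_lit 58))) (nat_lit 65535))) (Nat.shiftLeft (nat_lit 1) (Nat.land (Nat.shiftRight (V (nat_lit 46)) (S (nat_lit 17))) (nat_lit 65535)))))) (Nat.add (Nat.add (Nat.shiftLeft (nat_lit 1) (Nat.land (Nat.shiftRight (V (nat_lit 46)) (S (nat_lit 25))) (nat_lit 65535))) (Nat.shiftLeft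 (nat_lit 1) (Nat.land (Nat.shiftRight (V (nat_lit 46)) (S (nat_lit 34))) (nat_lit 65535)))) (Nat.add (Nat.shiftLeft (nat_lit 1) (Nat.land (Nat.shiftRight (V (nat_lit 46)) (S (nat_lit 38))) (nat_lit 65535))) (Nat.add (Nat.shiftLeft (nat_lit 1) (Nat.land (Nat.shiftRight (V (nat_lit 47)) (S (nat_lit 2))) (nat_lit 65535))) (Nat.shiftLeft (nat_lit 1) (Nat.land (Nat.shiftRight (V (nat_lit 47)) (S (nat_lit 24))) (nat_lit 65535))))))) (Nat.add (Nat.add (Nat.add (Nat.shiftLeft (nat_lit 1) (Nat.land (Nat.shiftRight (V (nat_lit 47)) (S (nat_lit 34))) (nat_lit 65535))) (Nat.shiftLeft (nat_lit 1) (Nat.land (Nat.shiftRight (V (nat_lit 47)) (S (nat_lit 38))) (nat_lit 65535)))) (Nat.add (Nat.shiftLeft (nat_lit 1) (Nat.land (Nat.shiftRight (V (nat_lit 49)) (S (nat_lit 26))) (nat_lit 65535))) (Nat.add (Nat.shiftLeft (nat_lit 1) (Nat.land (Nat.shiftRight (V (nat_lit 49)) (S (nat_lit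 30))) (nat_lit 65535))) (Nat.shiftLeft (nat_lit 1) (Nat.land (Nat.shiftRight (V (nat_lit 49)) (S (nat_lit 41))) (nat_lit 65535)))))) (Nat.add (Nat.add (Nat.shiftLeft (nat_lit 1) (Nat.land (Nat.shiftRight (V (nat_lit 49)) (S (nat_lit 58))) (nat_lit 65535))) (Nat.shiftLeft (nat_lit 1) (Nat.land (Nat.shiftRight (V (nat_lit 50)) (S (nat_lit 17))) (nat_lit 65535)))) (Nat.add (Nat.shiftLeft (nat_lit 1) (Nat.land (Nat.shiftRight (V (nat_lit 50)) (S (nat_lit 26))) (nat_lit 65535))) (Nat.add (Nat.shiftLeft (nat_lit 1) (Nat.land (Nat.shiftRight (V (nat_lit 50)) (S (nat_lit 31))) (nat_lit 65535))) (Nat.shiftLeft (nat_lit 1) (Nat.land (Nat.shiftRight (V (nat_lit 50)) (S (nat_lit 58))) (nat_lit 65535))))))))) (Nat.add (Nat.add (Nat.add (Nat.add (Nat.add (Nat.shiftLeft (nat_lit 1) (Nat.land (Nat.shiftRight (V (nat_lit 52)) (S (nat_lit 8))) (nat_lit 65535))) (Nat.shiftLeft (nat_lit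 1) (Nat.land (Nat.shiftRight (V (nat_lit 52)) (S (nat_lit 26))) (nat_lit 65535)))) (Nat.add (Nat.shiftLeft (nat_lit 1) (Nat.land (Nat.shiftRight (V (nat_lit 52)) (S (nat_lit 33))) (nat_lit 65535))) (Nat.add (Nat.shiftLeft (nat_lit 1) (Nat.land (Nat.shiftRight (V (nat_lit 52)) (S (nat_lit 57))) (nat_lit 65535))) (Nat.shiftLeft (nat_lit 1) (Nat.land (Nat.shiftRight (V (nat_lit 53)) (S (nat_lit 26))) (nat_lit 65535)))))) (Nat.add (Nat.add (Nat.shiftLeft (nat_lit 1) (Nat.land (Nat.shiftRight (V (nat_lit 53)) (S (nat_lit 34))) (nat_lit 65535))) (Nat.shiftLeft (nat_lit 1) (Nat.land (Nat.shiftRight (V (nat_lit 54)) (S (nat_lit 20))) (nat_lit 65535)))) (Nat.add (Nat.shiftLeft (nat_lit 1) (Nat.land (Nat.shiftRight (V (nat_lit 54)) (S (nat_lit 25))) (nat_lit 65535))) (Nat.add (Nat.shiftLeft (nat_lit 1) (Nat.land (Nat.shiftRight (V (nat_lit 54)) (S (nat_lit 26))) (nat_lit 65535)))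 (Nat.shiftLeft (nat_lit 1) (Nat.land (Nat.shiftRight (V (nat_lit 54)) (S (nat_lit 57))) (nat_lit 65535))))))) (Nat.add (Nat.add (Nat.add (Nat.shiftLeft (nat_lit 1) (Nat.land (Nat.shiftRight (V (nat_lit 55)) (S (nat_lit 26))) (nat_lit 65535))) (Nat.shiftLeft (nat_lit 1) (Nat.land (Nat.shiftRight (V (nat_lit 55)) (S (nat_lit 38))) (nat_lit 65535)))) (Nat.add (Nat.shiftLeft (nat_lit 1) (Nat.land (Nat.shiftRight (V (nat_lit 56)) (S (nat_lit 21))) (nat_lit 65535))) (Nat.add (Nat.shiftLeft (nat_lit 1) (Nat.land (Nat.shiftRight (V (nat_lit 56)) (S (nat_lit 34))) (nat_lit 65535))) (Nat.shiftLeft (nat_lit 1) (Nat.land (Nat.shiftRight (V (nat_lit 56)) (S (nat_lit 36))) (nat_lit 65535)))))) (Nat.add (Nat.add (Nat.shiftLeft (nat_lit 1) (Nat.land (Nat.shiftRight (V (nat_lit 56)) (S (nat_lit 38))) (nat_lit 65535))) (Nat.shiftLeft (nat_lit 1) (Nat.land (Nat.shiftRight (V (nat_lit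 57)) (S (nat_lit 2))) (nat_lit 65535)))) (Nat.add (Nat.shiftLeft (nat_lit 1) (Nat.land (Nat.shiftRight (V (nat_lit 57)) (S (nat_lit 3))) (nat_lit 65535))) (Nat.add (Nat.shiftLeft (nat_lit 1) (Nat.land (Nat.shiftRight (V (nat_lit 57)) (S (nat_lit 12))) (nat_lit 65535))) (Nat.shiftLeft (nat_lit 1) (Nat.land (Nat.shiftRight (V (nat_lit 57)) (S (nat_lit 21))) (nat_lit 65535)))))))) (Nat.add (Nat.add (Nat.add (Nat.add (Nat.shiftLeft (nat_lit 1) (Nat.land (Nat.shiftRight (V (nat_lit 57)) (S (nat_lit 25))) (nat_lit 65535))) (Nat.shiftLeft (nat_lit 1) (Nat.land (Nat.shiftRight (V (nat_lit 57)) (S (nat_lit 28))) (nat_lit 65535)))) (Nat.add (Nat.shiftLeft (nat_lit 1) (Nat.land (Nat.shiftRight (V (nat_lit 57)) (S (nat_lit 29))) (nat_lit 65535))) (Nat.add (Nat.shiftLeft (nat_lit 1) (Nat.land (Nat.shiftRight (V (nat_lit 57)) (S (nat_lit 30))) (nat_lit 65535))) (Nat.shiftLeft (nat_lit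 1) (Nat.land (Nat.shiftRight (V (nat_lit 57)) (S (nat_lit 31))) (nat_lit 65535)))))) (Nat.add (Nat.add (Nat.shiftLeft (nat_lit 1) (Nat.land (Nat.shiftRight (V (nat_lit 57)) (S (nat_lit 33))) (nat_lit 65535))) (Nat.shiftLeft (nat_lit 1) (Nat.land (Nat.shiftRight (V (nat_lit 57)) (S (nat_lit 52))) (nat_lit 65535)))) (Nat.add (Nat.shiftLeft (nat_lit 1) (Nat.land (Nat.shiftRight (V (nat_lit 57)) (S (nat_lit 54))) (nat_lit 65535))) (Nat.add (Nat.shiftLeft (nat_lit 1) (Nat.land (Nat.shiftRight (V (nat_lit 58)) (S (nat_lit 5))) (nat_lit 65535))) (Nat.shiftLeft (nat_lit 1) (Nat.land (Nat.shiftRight (V (nat_lit 58)) (S (nat_lit 8))) (nat_lit 65535))))))) (Nat.add (Nat.add (Nat.add (Nat.shiftLeft (nat_lit 1) (Nat.land (Nat.shiftRight (V (nat_lit 58)) (S (nat_lit 12))) (nat_lit 65535))) (Nat.shiftLeft (nat_lit 1) (Nat.land (Nat.shiftRight (V (nat_lit 58)) (S (nat_lit 13))) (nat_lit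 65535)))) (Nat.add (Nat.shiftLeft (nat_lit 1) (Nat.land (Nat.shiftRight (V (nat_lit 58)) (S (nat_lit 17))) (nat_lit 65535))) (Nat.add (Nat.shiftLeft (nat_lit 1) (Nat.land (Nat.shiftRight (V (nat_lit 58)) (S (nat_lit 20))) (nat_lit 65535))) (Nat.shiftLeft (nat_lit 1) (Nat.land (Nat.shiftRight (V (nat_lit 58)) (S (nat_lit 24))) (nat_lit 65535)))))) (Nat.add (Nat.add (Nat.shiftLeft (nat_lit 1) (Nat.land (Nat.shiftRight (V (nat_lit 58)) (S (nat_lit 29))) (nat_lit 65535))) (Nat.shiftLeft (nat_lit 1) (Nat.land (Nat.shiftRight (V (nat_lit 58)) (S (nat_lit 36))) (nat_lit 65535)))) (Nat.add (Nat.shiftLeft (nat_lit 1) (Nat.land (Nat.shiftRight (V (nat_lit 58)) (S (nat_lit 41))) (nat_lit 65535))) (Nat.add (Nat.shiftLeft (nat_lit 1) (Nat.land (Nat.shiftRight (V (nat_lit 58)) (S (nat_lit 49))) (nat_lit 65535))) (Nat.shiftLeft (nat_lit 1) (Nat.land (Nat.shiftRight (V (nat_lit 58))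 (S (nat_lit 50))) (nat_lit 65535))))))))))
def E104_3 (V S : ℕ → ℕ) : ℕ := Nat.add (Nat.add (Nat.add (Nat.add (Nat.add (Nat.add (Nat.shiftLeft (nat_lit 1) (Nat.land (Nat.shiftRight (V (nat_lit 2)) (S (nat_lit 43))) (nat_lit 65535))) (Nat.add (Nat.shiftLeft (nat_lit 1) (Nat.land (Nat.shiftRight (V (nat_lit 2)) (S (nat_lit 46))) (nat_lit 65535))) (Nat.shiftLeft (nat_lit 1) (Nat.land (Nat.shiftRight (V (nat_lit 2)) (S (nat_lit 54))) (nat_lit 65535))))) (Nat.add (Nat.add (Nat.shiftLeft (nat_lit 1) (Nat.land (Nat.shiftRight (V (nat_lit 2)) (S (nat_lit 59))) (nat_lit 65535))) (Nat.shiftLeft (nat_lit 1) (Nat.land (Nat.shiftRight (V (nat_lit 3)) (S (nat_lit 33))) (nat_lit 65535)))) (Nat.add (Nat.shiftLeft (nat_lit 1) (Nat.land (Nat.shiftRight (V (nat_lit 3)) (S (nat_lit 47))) (nat_lit 65535))) (Nat.shiftLeft (nat_lit 1) (Nat.land (Nat.shiftRight (V (nat_lit 5)) (S (nat_lit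 36))) (nat_lit 65535)))))) (Nat.add (Nat.add (Nat.add (Nat.shiftLeft (nat_lit 1) (Nat.land (Nat.shiftRight (V (nat_lit 5)) (S (nat_lit 46))) (nat_lit 65535))) (Nat.shiftLeft (nat_lit 1) (Nat.land (Nat.shiftRight (V (nat_lit 6)) (S (nat_lit 14))) (nat_lit 65535)))) (Nat.add (Nat.shiftLeft (nat_lit 1) (Nat.land (Nat.shiftRight (V (nat_lit 6)) (S (nat_lit 21))) (nat_lit 65535))) (Nat.shiftLeft (nat_lit 1) (Nat.land (Nat.shiftRight (V (nat_lit 6)) (S (nat_lit 27))) (nat_lit 65535))))) (Nat.add (Nat.add (Nat.shiftLeft (nat_lit 1) (Nat.land (Nat.shiftRight (V (nat_lit 6)) (S (nat_lit 36))) (nat_lit 65535))) (Nat.shiftLeft (nat_lit 1) (Nat.land (Nat.shiftRight (V (nat_lit 7)) (S (nat_lit 21))) (nat_lit 65535)))) (Nat.add (Nat.shiftLeft (nat_lit 1) (Nat.land (Nat.shiftRight (V (nat_lit 7)) (S (nat_lit 54))) (nat_lit 65535))) (Nat.shiftLeft (nat_lit 1) (Nat.land (Nat.shiftRight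 (V (nat_lit 8)) (S (nat_lit 12))) (nat_lit 65535))))))) (Nat.add (Nat.add (Nat.add (Nat.shiftLeft (nat_lit 1) (Nat.land (Nat.shiftRight (V (nat_lit 8)) (S (nat_lit 17))) (nat_lit 65535))) (Nat.add (Nat.shiftLeft (nat_lit 1) (Nat.land (Nat.shiftRight (V (nat_lit 8)) (S (nat_lit 31))) (nat_lit 65535))) (Nat.shiftLeft (nat_lit 1) (Nat.land (Nat.shiftRight (V (nat_lit 8)) (S (nat_lit 55))) (nat_lit 65535))))) (Nat.add (Nat.add (Nat.shiftLeft (nat_lit 1) (Nat.land (Nat.shiftRight (V (nat_lit 11)) (S (nat_lit 17))) (nat_lit 65535))) (Nat.shiftLeft (nat_lit 1) (Nat.land (Nat.shiftRight (V (nat_lit 11)) (S (nat_lit 24))) (nat_lit 65535)))) (Nat.add (Nat.shiftLeft (nat_lit 1) (Nat.land (Nat.shiftRight (V (nat_lit 11)) (S (nat_lit 31))) (nat_lit 65535))) (Nat.shiftLeft (nat_lit 1) (Nat.land (Nat.shiftRight (V (nat_lit 11)) (S (nat_lit 52))) (nat_lit 65535)))))) (Nat.add (Nat.add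 (Nat.add (Nat.shiftLeft (nat_lit 1) (Nat.land (Nat.shiftRight (V (nat_lit 12)) (S (nat_lit 8))) (nat_lit 65535))) (Nat.shiftLeft (nat_lit 1) (Nat.land (Nat.shiftRight (V (nat_lit 12)) (S (nat_lit 30))) (nat_lit 65535)))) (Nat.add (Nat.shiftLeft (nat_lit 1) (Nat.land (Nat.shiftRight (V (nat_lit 13)) (S (nat_lit 41))) (nat_lit 65535))) (Nat.shiftLeft (nat_lit 1) (Nat.land (Nat.shiftRight (V (nat_lit 13)) (S (nat_lit 47))) (nat_lit 65535))))) (Nat.add (Nat.add (Nat.shiftLeft (nat_lit 1) (Nat.land (Nat.shiftRight (V (nat_lit 14)) (S (nat_lit 6))) (nat_lit 65535))) (Nat.shiftLeft (nat_lit 1) (Nat.land (Nat.shiftRight (V (nat_lit 14)) (S (nat_lit 31))) (nat_lit 65535)))) (Nat.add (Nat.shiftLeft (nat_lit 1) (Nat.land (Nat.shiftRight (V (nat_lit 14)) (S (nat_lit 52))) (nat_lit 65535))) (Nat.shiftLeft (nat_lit 1) (Nat.land (Nat.shiftRight (V (nat_lit 14)) (S (nat_lit 56)))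 (nat_lit 65535)))))))) (Nat.add (Nat.add (Nat.add (Nat.add (Nat.shiftLeft (nat_lit 1) (Nat.land (Nat.shiftRight (V (nat_lit 17)) (S (nat_lit 8))) (nat_lit 65535))) (Nat.add (Nat.shiftLeft (nat_lit 1) (Nat.land (Nat.shiftRight (V (nat_lit 17)) (S (nat_lit 11))) (nat_lit 65535))) (Nat.shiftLeft (nat_lit 1) (Nat.land (Nat.shiftRight (V (nat_lit 17)) (S (nat_lit 47))) (nat_lit 65535))))) (Nat.add (Nat.add (Nat.shiftLeft (nat_lit 1) (Nat.land (Nat.shiftRight (V (nat_lit 17)) (S (nat_lit 59))) (nat_lit 65535))) (Nat.shiftLeft (nat_lit 1) (Nat.land (Nat.shiftRight (V (nat_lit 19)) (S (nat_lit 36))) (nat_lit 65535)))) (Nat.add (Nat.shiftLeft (nat_lit 1) (Nat.land (Nat.shiftRight (V (nat_lit 19)) (S (nat_lit 50))) (nat_lit 65535))) (Nat.shiftLeft (nat_lit 1) (Nat.land (Nat.shiftRight (V (nat_lit 20)) (S (nat_lit 27))) (nat_lit 65535)))))) (Nat.add (Nat.add (Nat.add (Nat.shiftLeft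 (nat_lit 1) (Nat.land (Nat.shiftRight (V (nat_lit 20)) (S (nat_lit 30))) (nat_lit 65535))) (Nat.shiftLeft (nat_lit 1) (Nat.land (Nat.shiftRight (V (nat_lit 20)) (S (nat_lit 41))) (nat_lit 65535)))) (Nat.add (Nat.shiftLeft (nat_lit 1) (Nat.land (Nat.shiftRight (V (nat_lit 20)) (S (nat_lit 43))) (nat_lit 65535))) (Nat.shiftLeft (nat_lit 1) (Nat.land (Nat.shiftRight (V (nat_lit 21)) (S (nat_lit 6))) (nat_lit 65535))))) (Nat.add (Nat.add (Nat.shiftLeft (nat_lit 1) (Nat.land (Nat.shiftRight (V (nat_lit 21)) (S (nat_lit 7))) (nat_lit 65535))) (Nat.shiftLeft (nat_lit 1) (Nat.land (Nat.shiftRight (V (nat_lit 21)) (S (nat_lit 28))) (nat_lit 65535)))) (Nat.add (Nat.shiftLeft (nat_lit 1) (Nat.land (Nat.shiftRight (V (nat_lit 21)) (S (nat_lit 52))) (nat_lit 65535))) (Nat.shiftLeft (nat_lit 1) (Nat.land (Nat.shiftRight (V (nat_lit 24)) (S (nat_lit 11))) (nat_lit 65535))))))) (Nat.add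 (Nat.add (Nat.add (Nat.shiftLeft (nat_lit 1) (Nat.land (Nat.shiftRight (V (nat_lit 24)) (S (nat_lit 46))) (nat_lit 65535))) (Nat.add (Nat.shiftLeft (nat_lit 1) (Nat.land (Nat.shiftRight (V (nat_lit 24)) (S (nat_lit 50))) (nat_lit 65535))) (Nat.shiftLeft (nat_lit 1) (Nat.land (Nat.shiftRight (V (nat_lit 24)) (S (nat_lit 59))) (nat_lit 65535))))) (Nat.add (Nat.add (Nat.shiftLeft (nat_lit 1) (Nat.land (Nat.shiftRight (V (nat_lit 25)) (S (nat_lit 30))) (nat_lit 65535))) (Nat.shiftLeft (nat_lit 1) (Nat.land (Nat.shiftRight (V (nat_lit 25)) (S (nat_lit 43))) (nat_lit 65535)))) (Nat.add (Nat.shiftLeft (nat_lit 1) (Nat.land (Nat.shiftRight (V (nat_lit 25)) (S (nat_lit 47))) (nat_lit 65535))) (Nat.shiftLeft (nat_lit 1) (Nat.land (Nat.shiftRight (V (nat_lit 25)) (S (nat_lit 59))) (nat_lit 65535)))))) (Nat.add (Nat.add (Nat.add (Nat.shiftLeft (nat_lit 1) (Nat.land (Nat.shiftRight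 (V (nat_lit 27)) (S (nat_lit 6))) (nat_lit 65535))) (Nat.shiftLeft (nat_lit 1) (Nat.land (Nat.shiftRight (V (nat_lit 27)) (S (nat_lit 20))) (nat_lit 65535)))) (Nat.add (Nat.shiftLeft (nat_lit 1) (Nat.land (Nat.shiftRight (V (nat_lit 27)) (S (nat_lit 49))) (nat_lit 65535))) (Nat.shiftLeft (nat_lit 1) (Nat.land (Nat.shiftRight (V (nat_lit 27)) (S (nat_lit 56))) (nat_lit 65535))))) (Nat.add (Nat.add (Nat.shiftLeft (nat_lit 1) (Nat.land (Nat.shiftRight (V (nat_lit 28)) (S (nat_lit 21))) (nat_lit 65535))) (Nat.shiftLeft (nat_lit 1) (Nat.land (Nat.shiftRight (V (nat_lit 28)) (S (nat_lit 46))) (nat_lit 65535)))) (Nat.add (Nat.shiftLeft (nat_lit 1) (Nat.land (Nat.shiftRight (V (nat_lit 29)) (S (nat_lit 50))) (nat_lit 65535))) (Nat.shiftLeft (nat_lit 1) (Nat.land (Nat.shiftRight (V (nat_lit 29)) (S (nat_lit 54))) (nat_lit 65535))))))))) (Nat.add (Nat.add (Nat.add (Nat.add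 (Nat.add (Nat.shiftLeft (nat_lit 1) (Nat.land (Nat.shiftRight (V (nat_lit 30)) (S (nat_lit 12))) (nat_lit 65535))) (Nat.add (Nat.shiftLeft (nat_lit 1) (Nat.land (Nat.shiftRight (V (nat_lit 30)) (S (nat_lit 20))) (nat_lit 65535))) (Nat.shiftLeft (nat_lit 1) (Nat.land (Nat.shiftRight (V (nat_lit 30)) (S (nat_lit 25))) (nat_lit 65535))))) (Nat.add (Nat.add (Nat.shiftLeft (nat_lit 1) (Nat.land (Nat.shiftRight (V (nat_lit 30)) (S (nat_lit 53))) (nat_lit 65535))) (Nat.shiftLeft (nat_lit 1) (Nat.land (Nat.shiftRight (V (nat_lit 31)) (S (nat_lit 8))) (nat_lit 65535)))) (Nat.add (Nat.shiftLeft (nat_lit 1) (Nat.land (Nat.shiftRight (V (nat_lit 31)) (S (nat_lit 11))) (nat_lit 65535))) (Nat.shiftLeft (nat_lit 1) (Nat.land (Nat.shiftRight (V (nat_lit 31)) (S (nat_lit 14))) (nat_lit 65535)))))) (Nat.add (Nat.add (Nat.add (Nat.shiftLeft (nat_lit 1) (Nat.land (Nat.shiftRight (V (nat_lit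 31)) (S (nat_lit 33))) (nat_lit 65535))) (Nat.shiftLeft (nat_lit 1) (Nat.land (Nat.shiftRight (V (nat_lit 33)) (S (nat_lit 3))) (nat_lit 65535)))) (Nat.add (Nat.shiftLeft (nat_lit 1) (Nat.land (Nat.shiftRight (V (nat_lit 33)) (S (nat_lit 31))) (nat_lit 65535))) (Nat.shiftLeft (nat_lit 1) (Nat.land (Nat.shiftRight (V (nat_lit 33)) (S (nat_lit 53))) (nat_lit 65535))))) (Nat.add (Nat.add (Nat.shiftLeft (nat_lit 1) (Nat.land (Nat.shiftRight (V (nat_lit 33)) (S (nat_lit 56))) (nat_lit 65535))) (Nat.shiftLeft (nat_lit 1) (Nat.land (Nat.shiftRight (V (nat_lit 36)) (S (nat_lit 5))) (nat_lit 65535)))) (Nat.add (Nat.shiftLeft (nat_lit 1) (Nat.land (Nat.shiftRight (V (nat_lit 36)) (S (nat_lit 6))) (nat_lit 65535))) (Nat.shiftLeft (nat_lit 1) (Nat.land (Nat.shiftRight (V (nat_lit 36)) (S (nat_lit 19))) (nat_lit 65535))))))) (Nat.add (Nat.add (Nat.add (Nat.shiftLeft (nat_lit 1)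 (Nat.land (Nat.shiftRight (V (nat_lit 36)) (S (nat_lit 49))) (nat_lit 65535))) (Nat.add (Nat.shiftLeft (nat_lit 1) (Nat.land (Nat.shiftRight (V (nat_lit 41)) (S (nat_lit 13))) (nat_lit 65535))) (Nat.shiftLeft (nat_lit 1) (Nat.land (Nat.shiftRight (V (nat_lit 41)) (S (nat_lit 20))) (nat_lit 65535))))) (Nat.add (Nat.add (Nat.shiftLeft (nat_lit 1) (Nat.land (Nat.shiftRight (V (nat_lit 41)) (S (nat_lit 55))) (nat_lit 65535))) (Nat.shiftLeft (nat_lit 1) (Nat.land (Nat.shiftRight (V (nat_lit 41)) (S (nat_lit 56))) (nat_lit 65535)))) (Nat.add (Nat.shiftLeft (nat_lit 1) (Nat.land (Nat.shiftRight (V (nat_lit 43)) (S (nat_lit 2))) (nat_lit 65535))) (Nat.shiftLeft (nat_lit 1) (Nat.land (Nat.shiftRight (V (nat_lit 43)) (S (nat_lit 20))) (nat_lit 65535)))))) (Nat.add (Nat.add (Nat.add (Nat.shiftLeft (nat_lit 1) (Nat.land (Nat.shiftRight (V (nat_lit 43)) (S (nat_lit 25))) (nat_lit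 65535))) (Nat.shiftLeft (nat_lit 1) (Nat.land (Nat.shiftRight (V (nat_lit 43)) (S (nat_lit 49))) (nat_lit 65535)))) (Nat.add (Nat.shiftLeft (nat_lit 1) (Nat.land (Nat.shiftRight (V (nat_lit 46)) (S (nat_lit 2))) (nat_lit 65535))) (Nat.shiftLeft (nat_lit 1) (Nat.land (Nat.shiftRight (V (nat_lit 46)) (S (nat_lit 5))) (nat_lit 65535))))) (Nat.add (Nat.add (Nat.shiftLeft (nat_lit 1) (Nat.land (Nat.shiftRight (V (nat_lit 46)) (S (nat_lit 24))) (nat_lit 65535))) (Nat.shiftLeft (nat_lit 1) (Nat.land (Nat.shiftRight (V (nat_lit 46)) (S (nat_lit 28))) (nat_lit 65535)))) (Nat.add (Nat.shiftLeft (nat_lit 1) (Nat.land (Nat.shiftRight (V (nat_lit 47)) (S (nat_lit 3))) (nat_lit 65535))) (Nat.shiftLeft (nat_lit 1) (Nat.land (Nat.shiftRight (V (nat_lit 47)) (S (nat_lit 13))) (nat_lit 65535)))))))) (Nat.add (Nat.add (Nat.add (Nat.add (Nat.shiftLeft (nat_lit 1) (Nat.land (Nat.shiftRight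 (V (nat_lit 47)) (S (nat_lit 17))) (nat_lit 65535))) (Nat.add (Nat.shiftLeft (nat_lit 1) (Nat.land (Nat.shiftRight (V (nat_lit 47)) (S (nat_lit 25))) (nat_lit 65535))) (Nat.shiftLeft (nat_lit 1) (Nat.land (Nat.shiftRight (V (nat_lit 49)) (S (nat_lit 27))) (nat_lit 65535))))) (Nat.add (Nat.add (Nat.shiftLeft (nat_lit 1) (Nat.land (Nat.shiftRight (V (nat_lit 49)) (S (nat_lit 36))) (nat_lit 65535))) (Nat.shiftLeft (nat_lit 1) (Nat.land (Nat.shiftRight (V (nat_lit 49)) (S (nat_lit 43))) (nat_lit 65535)))) (Nat.add (Nat.shiftLeft (nat_lit 1) (Nat.land (Nat.shiftRight (V (nat_lit 49)) (S (nat_lit 54))) (nat_lit 65535))) (Nat.shiftLeft (nat_lit 1) (Nat.land (Nat.shiftRight (V (nat_lit 50)) (S (nat_lit 19))) (nat_lit 65535)))))) (Nat.add (Nat.add (Nat.add (Nat.shiftLeft (nat_lit 1) (Nat.land (Nat.shiftRight (V (nat_lit 50)) (S (nat_lit 24))) (nat_lit 65535))) (Nat.shiftLeft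 (nat_lit 1) (Nat.land (Nat.shiftRight (V (nat_lit 50)) (S (nat_lit 29))) (nat_lit 65535)))) (Nat.add (Nat.shiftLeft (nat_lit 1) (Nat.land (Nat.shiftRight (V (nat_lit 50)) (S (nat_lit 52))) (nat_lit 65535))) (Nat.shiftLeft (nat_lit 1) (Nat.land (Nat.shiftRight (V (nat_lit 52)) (S (nat_lit 11))) (nat_lit 65535))))) (Nat.add (Nat.add (Nat.shiftLeft (nat_lit 1) (Nat.land (Nat.shiftRight (V (nat_lit 52)) (S (nat_lit 14))) (nat_lit 65535))) (Nat.shiftLeft (nat_lit 1) (Nat.land (Nat.shiftRight (V (nat_lit 52)) (S (nat_lit 21))) (nat_lit 65535)))) (Nat.add (Nat.shiftLeft (nat_lit 1) (Nat.land (Nat.shiftRight (V (nat_lit 52)) (S (nat_lit 50))) (nat_lit 65535))) (Nat.shiftLeft (nat_lit 1) (Nat.land (Nat.shiftRight (V (nat_lit 53)) (S (nat_lit 30))) (nat_lit 65535))))))) (Nat.add (Nat.add (Nat.add (Nat.shiftLeft (nat_lit 1) (Nat.land (Nat.shiftRight (V (nat_lit 53)) (S (nat_lit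 33))) (nat_lit 65535))) (Nat.add (Nat.shiftLeft (nat_lit 1) (Nat.land (Nat.shiftRight (V (nat_lit 54)) (S (nat_lit 2))) (nat_lit 65535))) (Nat.shiftLeft (nat_lit 1) (Nat.land (Nat.shiftRight (V (nat_lit 54)) (S (nat_lit 7))) (nat_lit 65535))))) (Nat.add (Nat.add (Nat.shiftLeft (nat_lit 1) (Nat.land (Nat.shiftRight (V (nat_lit 54)) (S (nat_lit 29))) (nat_lit 65535))) (Nat.shiftLeft (nat_lit 1) (Nat.land (Nat.shiftRight (V (nat_lit 54)) (S (nat_lit 49))) (nat_lit 65535)))) (Nat.add (Nat.shiftLeft (nat_lit 1) (Nat.land (Nat.shiftRight (V (nat_lit 55)) (S (nat_lit 8))) (nat_lit 65535))) (Nat.shiftLeft (nat_lit 1) (Nat.land (Nat.shiftRight (V (nat_lit 55)) (S (nat_lit 41))) (nat_lit 65535)))))) (Nat.add (Nat.add (Nat.add (Nat.shiftLeft (nat_lit 1) (Nat.land (Nat.shiftRight (V (nat_lit 56)) (S (nat_lit 14))) (nat_lit 65535))) (Nat.shiftLeft (nat_lit 1) (Nat.land (Nat.shiftRight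 (V (nat_lit 56)) (S (nat_lit 27))) (nat_lit 65535)))) (Nat.add (Nat.shiftLeft (nat_lit 1) (Nat.land (Nat.shiftRight (V (nat_lit 56)) (S (nat_lit 33))) (nat_lit 65535))) (Nat.shiftLeft (nat_lit 1) (Nat.land (Nat.shiftRight (V (nat_lit 56)) (S (nat_lit 41))) (nat_lit 65535))))) (Nat.add (Nat.add (Nat.shiftLeft (nat_lit 1) (Nat.land (Nat.shiftRight (V (nat_lit 59)) (S (nat_lit 2))) (nat_lit 65535))) (Nat.shiftLeft (nat_lit 1) (Nat.land (Nat.shiftRight (V (nat_lit 59)) (S (nat_lit 17))) (nat_lit 65535)))) (Nat.add (Nat.shiftLeft (nat_lit 1) (Nat.land (Nat.shiftRight (V (nat_lit 59)) (S (nat_lit 24))) (nat_lit 65535))) (Nat.shiftLeft (nat_lit 1) (Nat.land (Nat.shiftRight (V (nat_lit 59)) (S (nat_lit 25))) (nat_lit 65535)))))))))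
def E105_3 (V S : ℕ → ℕ) : ℕ := Nat.add (Nat.add (Nat.add (Nat.add (Nat.add (Nat.shiftLeft (nat_lit 1) (Nat.land (Nat.shiftRight (V (nat_lit 2)) (S (nat_lit 44))) (nat_lit 65535))) (Nat.add (Nat.shiftLeft (nat_lit 1) (Nat.land (Nat.shiftRight (V (nat_lit 2)) (S (nat_lit 55))) (nat_lit 65535))) (Nat.shiftLeft (nat_lit 1) (Nat.land (Nat.shiftRight (V (nat_lit 3)) (S (nat_lit 39))) (nat_lit 65535))))) (Nat.add (Nat.add (Nat.shiftLeft (nat_lit 1) (Nat.land (Nat.shiftRight (V (nat_lit 3)) (S (nat_lit 49))) (nat_lit 65535))) (Nat.shiftLeft (nat_lit 1) (Nat.land (Nat.shiftRight (V (nat_lit 5)) (S (nat_lit 23))) (nat_lit 65535)))) (Nat.add (Nat.shiftLeft (nat_lit 1) (Nat.land (Nat.shiftRight (V (nat_lit 5)) (S (nat_lit 31))) (nat_lit 65535))) (Nat.shiftLeft (nat_lit 1) (Nat.land (Nat.shiftRight (V (nat_lit 6)) (S (nat_lit 12))) (nat_lit 65535)))))) (Nat.add (Nat.add (Nat.add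 (Nat.shiftLeft (nat_lit 1) (Nat.land (Nat.shiftRight (V (nat_lit 6)) (S (nat_lit 18))) (nat_lit 65535))) (Nat.shiftLeft (nat_lit 1) (Nat.land (Nat.shiftRight (V (nat_lit 7)) (S (nat_lit 17))) (nat_lit 65535)))) (Nat.add (Nat.shiftLeft (nat_lit 1) (Nat.land (Nat.shiftRight (V (nat_lit 7)) (S (nat_lit 35))) (nat_lit 65535))) (Nat.shiftLeft (nat_lit 1) (Nat.land (Nat.shiftRight (V (nat_lit 9)) (S (nat_lit 13))) (nat_lit 65535))))) (Nat.add (Nat.add (Nat.shiftLeft (nat_lit 1) (Nat.land (Nat.shiftRight (V (nat_lit 9)) (S (nat_lit 31))) (nat_lit 65535))) (Nat.shiftLeft (nat_lit 1) (Nat.land (Nat.shiftRight (V (nat_lit 10)) (S (nat_lit 17))) (nat_lit 65535)))) (Nat.add (Nat.shiftLeft (nat_lit 1) (Nat.land (Nat.shiftRight (V (nat_lit 10)) (S (nat_lit 53))) (nat_lit 65535))) (Nat.shiftLeft (nat_lit 1) (Nat.land (Nat.shiftRight (V (nat_lit 12)) (S (nat_lit 6))) (nat_lit 65535)))))))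 (Nat.add (Nat.add (Nat.add (Nat.shiftLeft (nat_lit 1) (Nat.land (Nat.shiftRight (V (nat_lit 12)) (S (nat_lit 51))) (nat_lit 65535))) (Nat.add (Nat.shiftLeft (nat_lit 1) (Nat.land (Nat.shiftRight (V (nat_lit 13)) (S (nat_lit 9))) (nat_lit 65535))) (Nat.shiftLeft (nat_lit 1) (Nat.land (Nat.shiftRight (V (nat_lit 13)) (S (nat_lit 52))) (nat_lit 65535))))) (Nat.add (Nat.add (Nat.shiftLeft (nat_lit 1) (Nat.land (Nat.shiftRight (V (nat_lit 17)) (S (nat_lit 7))) (nat_lit 65535))) (Nat.shiftLeft (nat_lit 1) (Nat.land (Nat.shiftRight (V (nat_lit 17)) (S (nat_lit 10))) (nat_lit 65535)))) (Nat.add (Nat.shiftLeft (nat_lit 1) (Nat.land (Nat.shiftRight (V (nat_lit 18)) (S (nat_lit 6))) (nat_lit 65535))) (Nat.shiftLeft (nat_lit 1) (Nat.land (Nat.shiftRight (V (nat_lit 18)) (S (nat_lit 29))) (nat_lit 65535)))))) (Nat.add (Nat.add (Nat.add (Nat.shiftLeft (nat_lit 1) (Nat.land (Nat.shiftRight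 (V (nat_lit 19)) (S (nat_lit 25))) (nat_lit 65535))) (Nat.shiftLeft (nat_lit 1) (Nat.land (Nat.shiftRight (V (nat_lit 19)) (S (nat_lit 44))) (nat_lit 65535)))) (Nat.add (Nat.shiftLeft (nat_lit 1) (Nat.land (Nat.shiftRight (V (nat_lit 20)) (S (nat_lit 28))) (nat_lit 65535))) (Nat.shiftLeft (nat_lit 1) (Nat.land (Nat.shiftRight (V (nat_lit 20)) (S (nat_lit 39))) (nat_lit 65535))))) (Nat.add (Nat.add (Nat.shiftLeft (nat_lit 1) (Nat.land (Nat.shiftRight (V (nat_lit 23)) (S (nat_lit 5))) (nat_lit 65535))) (Nat.shiftLeft (nat_lit 1) (Nat.land (Nat.shiftRight (V (nat_lit 23)) (S (nat_lit 52))) (nat_lit 65535)))) (Nat.add (Nat.shiftLeft (nat_lit 1) (Nat.land (Nat.shiftRight (V (nat_lit 24)) (S (nat_lit 35))) (nat_lit 65535))) (Nat.shiftLeft (nat_lit 1) (Nat.land (Nat.shiftRight (V (nat_lit 24)) (S (nat_lit 53))) (nat_lit 65535)))))))) (Nat.add (Nat.add (Nat.add (Nat.add (Nat.shiftLeft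 (nat_lit 1) (Nat.land (Nat.shiftRight (V (nat_lit 25)) (S (nat_lit 19))) (nat_lit 65535))) (Nat.add (Nat.shiftLeft (nat_lit 1) (Nat.land (Nat.shiftRight (V (nat_lit 25)) (S (nat_lit 37))) (nat_lit 65535))) (Nat.shiftLeft (nat_lit 1) (Nat.land (Nat.shiftRight (V (nat_lit 28)) (S (nat_lit 20))) (nat_lit 65535))))) (Nat.add (Nat.add (Nat.shiftLeft (nat_lit 1) (Nat.land (Nat.shiftRight (V (nat_lit 28)) (S (nat_lit 42))) (nat_lit 65535))) (Nat.shiftLeft (nat_lit 1) (Nat.land (Nat.shiftRight (V (nat_lit 29)) (S (nat_lit 18))) (nat_lit 65535)))) (Nat.add (Nat.shiftLeft (nat_lit 1) (Nat.land (Nat.shiftRight (V (nat_lit 29)) (S (nat_lit 56))) (nat_lit 65535))) (Nat.shiftLeft (nat_lit 1) (Nat.land (Nat.shiftRight (V (nat_lit 31)) (S (nat_lit 5))) (nat_lit 65535)))))) (Nat.add (Nat.add (Nat.add (Nat.shiftLeft (nat_lit 1) (Nat.land (Nat.shiftRight (V (nat_lit 31)) (S (nat_lit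 9))) (nat_lit 65535))) (Nat.shiftLeft (nat_lit 1) (Nat.land (Nat.shiftRight (V (nat_lit 35)) (S (nat_lit 7))) (nat_lit 65535)))) (Nat.add (Nat.shiftLeft (nat_lit 1) (Nat.land (Nat.shiftRight (V (nat_lit 35)) (S (nat_lit 24))) (nat_lit 65535))) (Nat.shiftLeft (nat_lit 1) (Nat.land (Nat.shiftRight (V (nat_lit 37)) (S (nat_lit 25))) (nat_lit 65535))))) (Nat.add (Nat.add (Nat.shiftLeft (nat_lit 1) (Nat.land (Nat.shiftRight (V (nat_lit 37)) (S (nat_lit 55))) (nat_lit 65535))) (Nat.shiftLeft (nat_lit 1) (Nat.land (Nat.shiftRight (V (nat_lit 39)) (S (nat_lit 3))) (nat_lit 65535)))) (Nat.add (Nat.shiftLeft (nat_lit 1) (Nat.land (Nat.shiftRight (V (nat_lit 39)) (S (nat_lit 20))) (nat_lit 65535))) (Nat.shiftLeft (nat_lit 1) (Nat.land (Nat.shiftRight (V (nat_lit 42)) (S (nat_lit 28))) (nat_lit 65535))))))) (Nat.add (Nat.add (Nat.add (Nat.shiftLeft (nat_lit 1) (Nat.land (Nat.shiftRight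 (V (nat_lit 42)) (S (nat_lit 49))) (nat_lit 65535))) (Nat.add (Nat.shiftLeft (nat_lit 1) (Nat.land (Nat.shiftRight (V (nat_lit 44)) (S (nat_lit 2))) (nat_lit 65535))) (Nat.shiftLeft (nat_lit 1) (Nat.land (Nat.shiftRight (V (nat_lit 44)) (S (nat_lit 19))) (nat_lit 65535))))) (Nat.add (Nat.add (Nat.shiftLeft (nat_lit 1) (Nat.land (Nat.shiftRight (V (nat_lit 49)) (S (nat_lit 3))) (nat_lit 65535))) (Nat.shiftLeft (nat_lit 1) (Nat.land (Nat.shiftRight (V (nat_lit 49)) (S (nat_lit 42))) (nat_lit 65535)))) (Nat.add (Nat.shiftLeft (nat_lit 1) (Nat.land (Nat.shiftRight (V (nat_lit 51)) (S (nat_lit 12))) (nat_lit 65535))) (Nat.shiftLeft (nat_lit 1) (Nat.land (Nat.shiftRight (V (nat_lit 51)) (S (nat_lit 56))) (nat_lit 65535)))))) (Nat.add (Nat.add (Nat.add (Nat.shiftLeft (nat_lit 1) (Nat.land (Nat.shiftRight (V (nat_lit 52)) (S (nat_lit 13))) (nat_lit 65535))) (Nat.shiftLeft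 (nat_lit 1) (Nat.land (Nat.shiftRight (V (nat_lit 52)) (S (nat_lit 23))) (nat_lit 65535)))) (Nat.add (Nat.shiftLeft (nat_lit 1) (Nat.land (Nat.shiftRight (V (nat_lit 53)) (S (nat_lit 10))) (nat_lit 65535))) (Nat.shiftLeft (nat_lit 1) (Nat.land (Nat.shiftRight (V (nat_lit 53)) (S (nat_lit 24))) (nat_lit 65535))))) (Nat.add (Nat.add (Nat.shiftLeft (nat_lit 1) (Nat.land (Nat.shiftRight (V (nat_lit 55)) (S (nat_lit 2))) (nat_lit 65535))) (Nat.shiftLeft (nat_lit 1) (Nat.land (Nat.shiftRight (V (nat_lit 55)) (S (nat_lit 37))) (nat_lit 65535)))) (Nat.add (Nat.shiftLeft (nat_lit 1) (Nat.land (Nat.shiftRight (V (nat_lit 56)) (S (nat_lit 29))) (nat_lit 65535))) (Nat.shiftLeft (nat_lit 1) (Nat.land (Nat.shiftRight (V (nat_lit 56)) (S (nat_lit 51))) (nat_lit 65535))))))))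
def E106_3 (V S : ℕ → ℕ) : ℕ := Nat.add (Nat.add (Nat.add (Nat.add (Nat.add (Nat.add (Nat.shiftLeft (nat_lit 1) (Nat.land (Nat.shiftRight (V (nat_lit 2)) (S (nat_lit 45))) (nat_lit 65535))) (Nat.add (Nat.shiftLeft (nat_lit 1) (Nat.land (Nat.shiftRight (V (nat_lit 2)) (S (nat_lit 58))) (nat_lit 65535))) (Nat.shiftLeft (nat_lit 1) (Nat.land (Nat.shiftRight (V (nat_lit 6)) (S (nat_lit 26))) (nat_lit 65535))))) (Nat.add (Nat.shiftLeft (nat_lit 1) (Nat.land (Nat.shiftRight (V (nat_lit 6)) (S (nat_lit 45))) (nat_lit 65535))) (Nat.add (Nat.shiftLeft (nat_lit 1) (Nat.land (Nat.shiftRight (V (nat_lit 9)) (S (nat_lit 32))) (nat_lit 65535))) (Nat.shiftLeft (nat_lit 1) (Nat.land (Nat.shiftRight (V (nat_lit 9)) (S (nat_lit 38))) (nat_lit 65535)))))) (Nat.add (Nat.add (Nat.shiftLeft (nat_lit 1) (Nat.land (Nat.shiftRight (V (nat_lit 10)) (S (nat_lit 32))) (nat_lit 65535))) (Nat.add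 (Nat.shiftLeft (nat_lit 1) (Nat.land (Nat.shiftRight (V (nat_lit 10)) (S (nat_lit 57))) (nat_lit 65535))) (Nat.shiftLeft (nat_lit 1) (Nat.land (Nat.shiftRight (V (nat_lit 17)) (S (nat_lit 45))) (nat_lit 65535))))) (Nat.add (Nat.shiftLeft (nat_lit 1) (Nat.land (Nat.shiftRight (V (nat_lit 17)) (S (nat_lit 57))) (nat_lit 65535))) (Nat.add (Nat.shiftLeft (nat_lit 1) (Nat.land (Nat.shiftRight (V (nat_lit 18)) (S (nat_lit 26))) (nat_lit 65535))) (Nat.shiftLeft (nat_lit 1) (Nat.land (Nat.shiftRight (V (nat_lit 18)) (S (nat_lit 48))) (nat_lit 65535))))))) (Nat.add (Nat.add (Nat.add (Nat.shiftLeft (nat_lit 1) (Nat.land (Nat.shiftRight (V (nat_lit 20)) (S (nat_lit 34))) (nat_lit 65535))) (Nat.add (Nat.shiftLeft (nat_lit 1) (Nat.land (Nat.shiftRight (V (nat_lit 20)) (S (nat_lit 45))) (nat_lit 65535))) (Nat.shiftLeft (nat_lit 1) (Nat.land (Nat.shiftRight (V (nat_lit 23)) (S (nat_lit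 38))) (nat_lit 65535))))) (Nat.add (Nat.shiftLeft (nat_lit 1) (Nat.land (Nat.shiftRight (V (nat_lit 23)) (S (nat_lit 48))) (nat_lit 65535))) (Nat.add (Nat.shiftLeft (nat_lit 1) (Nat.land (Nat.shiftRight (V (nat_lit 24)) (S (nat_lit 45))) (nat_lit 65535))) (Nat.shiftLeft (nat_lit 1) (Nat.land (Nat.shiftRight (V (nat_lit 24)) (S (nat_lit 57))) (nat_lit 65535)))))) (Nat.add (Nat.add (Nat.shiftLeft (nat_lit 1) (Nat.land (Nat.shiftRight (V (nat_lit 25)) (S (nat_lit 45))) (nat_lit 65535))) (Nat.add (Nat.shiftLeft (nat_lit 1) (Nat.land (Nat.shiftRight (V (nat_lit 25)) (S (nat_lit 58))) (nat_lit 65535))) (Nat.shiftLeft (nat_lit 1) (Nat.land (Nat.shiftRight (V (nat_lit 26)) (S (nat_lit 6))) (nat_lit 65535))))) (Nat.add (Nat.add (Nat.shiftLeft (nat_lit 1) (Nat.land (Nat.shiftRight (V (nat_lit 26)) (S (nat_lit 18))) (nat_lit 65535))) (Nat.shiftLeft (nat_lit 1) (Nat.land (Nat.shiftRight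 (V (nat_lit 26)) (S (nat_lit 32))) (nat_lit 65535)))) (Nat.add (Nat.shiftLeft (nat_lit 1) (Nat.land (Nat.shiftRight (V (nat_lit 26)) (S (nat_lit 48))) (nat_lit 65535))) (Nat.shiftLeft (nat_lit 1) (Nat.land (Nat.shiftRight (V (nat_lit 26)) (S (nat_lit 51))) (nat_lit 65535)))))))) (Nat.add (Nat.add (Nat.add (Nat.add (Nat.shiftLeft (nat_lit 1) (Nat.land (Nat.shiftRight (V (nat_lit 26)) (S (nat_lit 56))) (nat_lit 65535))) (Nat.add (Nat.shiftLeft (nat_lit 1) (Nat.land (Nat.shiftRight (V (nat_lit 31)) (S (nat_lit 38))) (nat_lit 65535))) (Nat.shiftLeft (nat_lit 1) (Nat.land (Nat.shiftRight (V (nat_lit 31)) (S (nat_lit 45))) (nat_lit 65535))))) (Nat.add (Nat.shiftLeft (nat_lit 1) (Nat.land (Nat.shiftRight (V (nat_lit 32)) (S (nat_lit 9))) (nat_lit 65535))) (Nat.add (Nat.shiftLeft (nat_lit 1) (Nat.land (Nat.shiftRight (V (nat_lit 32)) (S (nat_lit 10))) (nat_lit 65535))) (Nat.shiftLeft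 (nat_lit 1) (Nat.land (Nat.shiftRight (V (nat_lit 32)) (S (nat_lit 26))) (nat_lit 65535)))))) (Nat.add (Nat.add (Nat.shiftLeft (nat_lit 1) (Nat.land (Nat.shiftRight (V (nat_lit 32)) (S (nat_lit 34))) (nat_lit 65535))) (Nat.add (Nat.shiftLeft (nat_lit 1) (Nat.land (Nat.shiftRight (V (nat_lit 32)) (S (nat_lit 37))) (nat_lit 65535))) (Nat.shiftLeft (nat_lit 1) (Nat.land (Nat.shiftRight (V (nat_lit 32)) (S (nat_lit 38))) (nat_lit 65535))))) (Nat.add (Nat.shiftLeft (nat_lit 1) (Nat.land (Nat.shiftRight (V (nat_lit 32)) (S (nat_lit 39))) (nat_lit 65535))) (Nat.add (Nat.shiftLeft (nat_lit 1) (Nat.land (Nat.shiftRight (V (nat_lit 32)) (S (nat_lit 51))) (nat_lit 65535))) (Nat.shiftLeft (nat_lit 1) (Nat.land (Nat.shiftRight (V (nat_lit 32)) (S (nat_lit 57))) (nat_lit 65535))))))) (Nat.add (Nat.add (Nat.add (Nat.shiftLeft (nat_lit 1) (Nat.land (Nat.shiftRight (V (nat_lit 32))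 (S (nat_lit 58))) (nat_lit 65535))) (Nat.add (Nat.shiftLeft (nat_lit 1) (Nat.land (Nat.shiftRight (V (nat_lit 34)) (S (nat_lit 20))) (nat_lit 65535))) (Nat.shiftLeft (nat_lit 1) (Nat.land (Nat.shiftRight (V (nat_lit 34)) (S (nat_lit 32))) (nat_lit 65535))))) (Nat.add (Nat.shiftLeft (nat_lit 1) (Nat.land (Nat.shiftRight (V (nat_lit 34)) (S (nat_lit 39))) (nat_lit 65535))) (Nat.add (Nat.shiftLeft (nat_lit 1) (Nat.land (Nat.shiftRight (V (nat_lit 34)) (S (nat_lit 42))) (nat_lit 65535))) (Nat.shiftLeft (nat_lit 1) (Nat.land (Nat.shiftRight (V (nat_lit 34)) (S (nat_lit 48))) (nat_lit 65535)))))) (Nat.add (Nat.add (Nat.shiftLeft (nat_lit 1) (Nat.land (Nat.shiftRight (V (nat_lit 34)) (S (nat_lit 49))) (nat_lit 65535))) (Nat.add (Nat.shiftLeft (nat_lit 1) (Nat.land (Nat.shiftRight (V (nat_lit 35)) (S (nat_lit 48))) (nat_lit 65535))) (Nat.shiftLeft (nat_lit 1) (Nat.land (Nat.shiftRight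 (V (nat_lit 35)) (S (nat_lit 57))) (nat_lit 65535))))) (Nat.add (Nat.add (Nat.shiftLeft (nat_lit 1) (Nat.land (Nat.shiftRight (V (nat_lit 37)) (S (nat_lit 32))) (nat_lit 65535))) (Nat.shiftLeft (nat_lit 1) (Nat.land (Nat.shiftRight (V (nat_lit 37)) (S (nat_lit 58))) (nat_lit 65535)))) (Nat.add (Nat.shiftLeft (nat_lit 1) (Nat.land (Nat.shiftRight (V (nat_lit 38)) (S (nat_lit 9))) (nat_lit 65535))) (Nat.shiftLeft (nat_lit 1) (Nat.land (Nat.shiftRight (V (nat_lit 38)) (S (nat_lit 23))) (nat_lit 65535))))))))) (Nat.add (Nat.add (Nat.add (Nat.add (Nat.add (Nat.shiftLeft (nat_lit 1) (Nat.land (Nat.shiftRight (V (nat_lit 38)) (S (nat_lit 31))) (nat_lit 65535))) (Nat.add (Nat.shiftLeft (nat_lit 1) (Nat.land (Nat.shiftRight (V (nat_lit 38)) (S (nat_lit 32))) (nat_lit 65535))) (Nat.shiftLeft (nat_lit 1) (Nat.land (Nat.shiftRight (V (nat_lit 38)) (S (nat_lit 48))) (nat_lit 65535)))))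 (Nat.add (Nat.shiftLeft (nat_lit 1) (Nat.land (Nat.shiftRight (V (nat_lit 38)) (S (nat_lit 52))) (nat_lit 65535))) (Nat.add (Nat.shiftLeft (nat_lit 1) (Nat.land (Nat.shiftRight (V (nat_lit 39)) (S (nat_lit 32))) (nat_lit 65535))) (Nat.shiftLeft (nat_lit 1) (Nat.land (Nat.shiftRight (V (nat_lit 39)) (S (nat_lit 34))) (nat_lit 65535)))))) (Nat.add (Nat.add (Nat.shiftLeft (nat_lit 1) (Nat.land (Nat.shiftRight (V (nat_lit 42)) (S (nat_lit 34))) (nat_lit 65535))) (Nat.add (Nat.shiftLeft (nat_lit 1) (Nat.land (Nat.shiftRight (V (nat_lit 42)) (S (nat_lit 48))) (nat_lit 65535))) (Nat.shiftLeft (nat_lit 1) (Nat.land (Nat.shiftRight (V (nat_lit 44)) (S (nat_lit 48))) (nat_lit 65535))))) (Nat.add (Nat.shiftLeft (nat_lit 1) (Nat.land (Nat.shiftRight (V (nat_lit 44)) (S (nat_lit 58))) (nat_lit 65535))) (Nat.add (Nat.shiftLeft (nat_lit 1) (Nat.land (Nat.shiftRight (V (nat_lit 45))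 (S (nat_lit 2))) (nat_lit 65535))) (Nat.shiftLeft (nat_lit 1) (Nat.land (Nat.shiftRight (V (nat_lit 45)) (S (nat_lit 6))) (nat_lit 65535))))))) (Nat.add (Nat.add (Nat.add (Nat.shiftLeft (nat_lit 1) (Nat.land (Nat.shiftRight (V (nat_lit 45)) (S (nat_lit 17))) (nat_lit 65535))) (Nat.add (Nat.shiftLeft (nat_lit 1) (Nat.land (Nat.shiftRight (V (nat_lit 45)) (S (nat_lit 20))) (nat_lit 65535))) (Nat.shiftLeft (nat_lit 1) (Nat.land (Nat.shiftRight (V (nat_lit 45)) (S (nat_lit 24))) (nat_lit 65535))))) (Nat.add (Nat.shiftLeft (nat_lit 1) (Nat.land (Nat.shiftRight (V (nat_lit 45)) (S (nat_lit 25))) (nat_lit 65535))) (Nat.add (Nat.shiftLeft (nat_lit 1) (Nat.land (Nat.shiftRight (V (nat_lit 45)) (S (nat_lit 31))) (nat_lit 65535))) (Nat.shiftLeft (nat_lit 1) (Nat.land (Nat.shiftRight (V (nat_lit 45)) (S (nat_lit 49))) (nat_lit 65535)))))) (Nat.add (Nat.add (Nat.shiftLeft (nat_lit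 1) (Nat.land (Nat.shiftRight (V (nat_lit 45)) (S (nat_lit 52))) (nat_lit 65535))) (Nat.add (Nat.shiftLeft (nat_lit 1) (Nat.land (Nat.shiftRight (V (nat_lit 45)) (S (nat_lit 56))) (nat_lit 65535))) (Nat.shiftLeft (nat_lit 1) (Nat.land (Nat.shiftRight (V (nat_lit 48)) (S (nat_lit 18))) (nat_lit 65535))))) (Nat.add (Nat.add (Nat.shiftLeft (nat_lit 1) (Nat.land (Nat.shiftRight (V (nat_lit 48)) (S (nat_lit 23))) (nat_lit 65535))) (Nat.shiftLeft (nat_lit 1) (Nat.land (Nat.shiftRight (V (nat_lit 48)) (S (nat_lit 26))) (nat_lit 65535)))) (Nat.add (Nat.shiftLeft (nat_lit 1) (Nat.land (Nat.shiftRight (V (nat_lit 48)) (S (nat_lit 34))) (nat_lit 65535))) (Nat.shiftLeft (nat_lit 1) (Nat.land (Nat.shiftRight (V (nat_lit 48)) (S (nat_lit 35))) (nat_lit 65535)))))))) (Nat.add (Nat.add (Nat.add (Nat.add (Nat.shiftLeft (nat_lit 1) (Nat.land (Nat.shiftRight (V (nat_lit 48)) (S (nat_lit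 38))) (nat_lit 65535))) (Nat.add (Nat.shiftLeft (nat_lit 1) (Nat.land (Nat.shiftRight (V (nat_lit 48)) (S (nat_lit 42))) (nat_lit 65535))) (Nat.shiftLeft (nat_lit 1) (Nat.land (Nat.shiftRight (V (nat_lit 48)) (S (nat_lit 44))) (nat_lit 65535))))) (Nat.add (Nat.shiftLeft (nat_lit 1) (Nat.land (Nat.shiftRight (V (nat_lit 48)) (S (nat_lit 57))) (nat_lit 65535))) (Nat.add (Nat.shiftLeft (nat_lit 1) (Nat.land (Nat.shiftRight (V (nat_lit 48)) (S (nat_lit 58))) (nat_lit 65535))) (Nat.shiftLeft (nat_lit 1) (Nat.land (Nat.shiftRight (V (nat_lit 49)) (S (nat_lit 34))) (nat_lit 65535)))))) (Nat.add (Nat.add (Nat.shiftLeft (nat_lit 1) (Nat.land (Nat.shiftRight (V (nat_lit 49)) (S (nat_lit 45))) (nat_lit 65535))) (Nat.add (Nat.shiftLeft (nat_lit 1) (Nat.land (Nat.shiftRight (V (nat_lit 51)) (S (nat_lit 26))) (nat_lit 65535))) (Nat.shiftLeft (nat_lit 1) (Nat.land (Nat.shiftRight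 (V (nat_lit 51)) (S (nat_lit 32))) (nat_lit 65535))))) (Nat.add (Nat.shiftLeft (nat_lit 1) (Nat.land (Nat.shiftRight (V (nat_lit 52)) (S (nat_lit 38))) (nat_lit 65535))) (Nat.add (Nat.shiftLeft (nat_lit 1) (Nat.land (Nat.shiftRight (V (nat_lit 52)) (S (nat_lit 45))) (nat_lit 65535))) (Nat.shiftLeft (nat_lit 1) (Nat.land (Nat.shiftRight (V (nat_lit 56)) (S (nat_lit 26))) (nat_lit 65535))))))) (Nat.add (Nat.add (Nat.add (Nat.shiftLeft (nat_lit 1) (Nat.land (Nat.shiftRight (V (nat_lit 56)) (S (nat_lit 45))) (nat_lit 65535))) (Nat.add (Nat.shiftLeft (nat_lit 1) (Nat.land (Nat.shiftRight (V (nat_lit 57)) (S (nat_lit 10))) (nat_lit 65535))) (Nat.shiftLeft (nat_lit 1) (Nat.land (Nat.shiftRight (V (nat_lit 57)) (S (nat_lit 17))) (nat_lit 65535))))) (Nat.add (Nat.shiftLeft (nat_lit 1) (Nat.land (Nat.shiftRight (V (nat_lit 57)) (S (nat_lit 24))) (nat_lit 65535))) (Nat.add (Nat.shiftLeft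 (nat_lit 1) (Nat.land (Nat.shiftRight (V (nat_lit 57)) (S (nat_lit 32))) (nat_lit 65535))) (Nat.shiftLeft (nat_lit 1) (Nat.land (Nat.shiftRight (V (nat_lit 57)) (S (nat_lit 35))) (nat_lit 65535)))))) (Nat.add (Nat.add (Nat.shiftLeft (nat_lit 1) (Nat.land (Nat.shiftRight (V (nat_lit 57)) (S (nat_lit 48))) (nat_lit 65535))) (Nat.add (Nat.shiftLeft (nat_lit 1) (Nat.land (Nat.shiftRight (V (nat_lit 58)) (S (nat_lit 2))) (nat_lit 65535))) (Nat.shiftLeft (nat_lit 1) (Nat.land (Nat.shiftRight (V (nat_lit 58)) (S (nat_lit 25))) (nat_lit 65535))))) (Nat.add (Nat.add (Nat.shiftLeft (nat_lit 1) (Nat.land (Nat.shiftRight (V (nat_lit 58)) (S (nat_lit 32))) (nat_lit 65535))) (Nat.shiftLeft (nat_lit 1) (Nat.land (Nat.shiftRight (V (nat_lit 58)) (S (nat_lit 37))) (nat_lit 65535)))) (Nat.add (Nat.shiftLeft (nat_lit 1) (Nat.land (Nat.shiftRight (V (nat_lit 58)) (S (nat_lit 44))) (nat_lit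 65535))) (Nat.shiftLeft (nat_lit 1) (Nat.land (Nat.shiftRight (V (nat_lit 58)) (S (nat_lit 48))) (nat_lit 65535)))))))))
def E107_3 (V S : ℕ → ℕ) : ℕ := Nat.add (Nat.add (Nat.add (Nat.add (Nat.add (Nat.add (Nat.shiftLeft (nat_lit 1) (Nat.land (Nat.shiftRight (V (nat_lit 3)) (S (nat_lit 30))) (nat_lit 65535))) (Nat.add (Nat.shiftLeft (nat_lit 1) (Nat.land (Nat.shiftRight (V (nat_lit 3)) (S (nat_lit 41))) (nat_lit 65535))) (Nat.shiftLeft (nat_lit 1) (Nat.land (Nat.shiftRight (V (nat_lit 5)) (S (nat_lit 21))) (nat_lit 65535))))) (Nat.add (Nat.add (Nat.shiftLeft (nat_lit 1) (Nat.land (Nat.shiftRight (V (nat_lit 5)) (S (nat_lit 50))) (nat_lit 65535))) (Nat.shiftLeft (nat_lit 1) (Nat.land (Nat.shiftRight (V (nat_lit 7)) (S (nat_lit 46))) (nat_lit 65535)))) (Nat.add (Nat.shiftLeft (nat_lit 1) (Nat.land (Nat.shiftRight (V (nat_lit 7)) (S (nat_lit 50))) (nat_lit 65535))) (Nat.shiftLeft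 (nat_lit 1) (Nat.land (Nat.shiftRight (V (nat_lit 8)) (S (nat_lit 13))) (nat_lit 65535)))))) (Nat.add (Nat.add (Nat.add (Nat.shiftLeft (nat_lit 1) (Nat.land (Nat.shiftRight (V (nat_lit 8)) (S (nat_lit 23))) (nat_lit 65535))) (Nat.shiftLeft (nat_lit 1) (Nat.land (Nat.shiftRight (V (nat_lit 8)) (S (nat_lit 35))) (nat_lit 65535)))) (Nat.add (Nat.shiftLeft (nat_lit 1) (Nat.land (Nat.shiftRight (V (nat_lit 8)) (S (nat_lit 53))) (nat_lit 65535))) (Nat.shiftLeft (nat_lit 1) (Nat.land (Nat.shiftRight (V (nat_lit 9)) (S (nat_lit 21))) (nat_lit 65535))))) (Nat.add (Nat.add (Nat.shiftLeft (nat_lit 1) (Nat.land (Nat.shiftRight (V (nat_lit 9)) (S (nat_lit 27))) (nat_lit 65535))) (Nat.shiftLeft (nat_lit 1) (Nat.land (Nat.shiftRight (V (nat_lit 9)) (S (nat_lit 50))) (nat_lit 65535)))) (Nat.add (Nat.shiftLeft (nat_lit 1) (Nat.land (Nat.shiftRight (V (nat_lit 9)) (S (nat_lit 59)))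 (nat_lit 65535))) (Nat.shiftLeft (nat_lit 1) (Nat.land (Nat.shiftRight (V (nat_lit 10)) (S (nat_lit 14))) (nat_lit 65535))))))) (Nat.add (Nat.add (Nat.add (Nat.shiftLeft (nat_lit 1) (Nat.land (Nat.shiftRight (V (nat_lit 10)) (S (nat_lit 43))) (nat_lit 65535))) (Nat.add (Nat.shiftLeft (nat_lit 1) (Nat.land (Nat.shiftRight (V (nat_lit 10)) (S (nat_lit 46))) (nat_lit 65535))) (Nat.shiftLeft (nat_lit 1) (Nat.land (Nat.shiftRight (V (nat_lit 10)) (S (nat_lit 50))) (nat_lit 65535))))) (Nat.add (Nat.add (Nat.shiftLeft (nat_lit 1) (Nat.land (Nat.shiftRight (V (nat_lit 11)) (S (nat_lit 18))) (nat_lit 65535))) (Nat.shiftLeft (nat_lit 1) (Nat.land (Nat.shiftRight (V (nat_lit 11)) (S (nat_lit 37))) (nat_lit 65535)))) (Nat.add (Nat.shiftLeft (nat_lit 1) (Nat.land (Nat.shiftRight (V (nat_lit 11)) (S (nat_lit 44))) (nat_lit 65535))) (Nat.shiftLeft (nat_lit 1) (Nat.land (Nat.shiftRight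 (V (nat_lit 11)) (S (nat_lit 51))) (nat_lit 65535)))))) (Nat.add (Nat.add (Nat.add (Nat.shiftLeft (nat_lit 1) (Nat.land (Nat.shiftRight (V (nat_lit 12)) (S (nat_lit 33))) (nat_lit 65535))) (Nat.shiftLeft (nat_lit 1) (Nat.land (Nat.shiftRight (V (nat_lit 12)) (S (nat_lit 41))) (nat_lit 65535)))) (Nat.add (Nat.shiftLeft (nat_lit 1) (Nat.land (Nat.shiftRight (V (nat_lit 13)) (S (nat_lit 8))) (nat_lit 65535))) (Nat.shiftLeft (nat_lit 1) (Nat.land (Nat.shiftRight (V (nat_lit 13)) (S (nat_lit 33))) (nat_lit 65535))))) (Nat.add (Nat.add (Nat.shiftLeft (nat_lit 1) (Nat.land (Nat.shiftRight (V (nat_lit 14)) (S (nat_lit 10))) (nat_lit 65535))) (Nat.shiftLeft (nat_lit 1) (Nat.land (Nat.shiftRight (V (nat_lit 14)) (S (nat_lit 35))) (nat_lit 65535)))) (Nat.add (Nat.shiftLeft (nat_lit 1) (Nat.land (Nat.shiftRight (V (nat_lit 14)) (S (nat_lit 39))) (nat_lit 65535))) (Nat.shiftLeft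 (nat_lit 1) (Nat.land (Nat.shiftRight (V (nat_lit 14)) (S (nat_lit 42))) (nat_lit 65535)))))))) (Nat.add (Nat.add (Nat.add (Nat.add (Nat.shiftLeft (nat_lit 1) (Nat.land (Nat.shiftRight (V (nat_lit 18)) (S (nat_lit 11))) (nat_lit 65535))) (Nat.add (Nat.shiftLeft (nat_lit 1) (Nat.land (Nat.shiftRight (V (nat_lit 18)) (S (nat_lit 33))) (nat_lit 65535))) (Nat.shiftLeft (nat_lit 1) (Nat.land (Nat.shiftRight (V (nat_lit 18)) (S (nat_lit 41))) (nat_lit 65535))))) (Nat.add (Nat.add (Nat.shiftLeft (nat_lit 1) (Nat.land (Nat.shiftRight (V (nat_lit 18)) (S (nat_lit 43))) (nat_lit 65535))) (Nat.shiftLeft (nat_lit 1) (Nat.land (Nat.shiftRight (V (nat_lit 19)) (S (nat_lit 46))) (nat_lit 65535)))) (Nat.add (Nat.shiftLeft (nat_lit 1) (Nat.land (Nat.shiftRight (V (nat_lit 19)) (S (nat_lit 54))) (nat_lit 65535))) (Nat.shiftLeft (nat_lit 1) (Nat.land (Nat.shiftRight (V (nat_lit 21))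 (S (nat_lit 5))) (nat_lit 65535)))))) (Nat.add (Nat.add (Nat.add (Nat.shiftLeft (nat_lit 1) (Nat.land (Nat.shiftRight (V (nat_lit 21)) (S (nat_lit 9))) (nat_lit 65535))) (Nat.shiftLeft (nat_lit 1) (Nat.land (Nat.shiftRight (V (nat_lit 21)) (S (nat_lit 29))) (nat_lit 65535)))) (Nat.add (Nat.shiftLeft (nat_lit 1) (Nat.land (Nat.shiftRight (V (nat_lit 21)) (S (nat_lit 51))) (nat_lit 65535))) (Nat.shiftLeft (nat_lit 1) (Nat.land (Nat.shiftRight (V (nat_lit 23)) (S (nat_lit 8))) (nat_lit 65535))))) (Nat.add (Nat.add (Nat.shiftLeft (nat_lit 1) (Nat.land (Nat.shiftRight (V (nat_lit 23)) (S (nat_lit 27))) (nat_lit 65535))) (Nat.shiftLeft (nat_lit 1) (Nat.land (Nat.shiftRight (V (nat_lit 23)) (S (nat_lit 33))) (nat_lit 65535)))) (Nat.add (Nat.shiftLeft (nat_lit 1) (Nat.land (Nat.shiftRight (V (nat_lit 23)) (S (nat_lit 59))) (nat_lit 65535))) (Nat.shiftLeft (nat_lit 1) (Nat.land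 (Nat.shiftRight (V (nat_lit 27)) (S (nat_lit 9))) (nat_lit 65535))))))) (Nat.add (Nat.add (Nat.add (Nat.shiftLeft (nat_lit 1) (Nat.land (Nat.shiftRight (V (nat_lit 27)) (S (nat_lit 23))) (nat_lit 65535))) (Nat.add (Nat.shiftLeft (nat_lit 1) (Nat.land (Nat.shiftRight (V (nat_lit 27)) (S (nat_lit 37))) (nat_lit 65535))) (Nat.shiftLeft (nat_lit 1) (Nat.land (Nat.shiftRight (V (nat_lit 27)) (S (nat_lit 44))) (nat_lit 65535))))) (Nat.add (Nat.add (Nat.shiftLeft (nat_lit 1) (Nat.land (Nat.shiftRight (V (nat_lit 28)) (S (nat_lit 36))) (nat_lit 65535))) (Nat.shiftLeft (nat_lit 1) (Nat.land (Nat.shiftRight (V (nat_lit 28)) (S (nat_lit 54))) (nat_lit 65535)))) (Nat.add (Nat.shiftLeft (nat_lit 1) (Nat.land (Nat.shiftRight (V (nat_lit 29)) (S (nat_lit 21))) (nat_lit 65535))) (Nat.shiftLeft (nat_lit 1) (Nat.land (Nat.shiftRight (V (nat_lit 29)) (S (nat_lit 36))) (nat_lit 65535))))))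 (Nat.add (Nat.add (Nat.add (Nat.shiftLeft (nat_lit 1) (Nat.land (Nat.shiftRight (V (nat_lit 30)) (S (nat_lit 3))) (nat_lit 65535))) (Nat.shiftLeft (nat_lit 1) (Nat.land (Nat.shiftRight (V (nat_lit 30)) (S (nat_lit 42))) (nat_lit 65535)))) (Nat.add (Nat.shiftLeft (nat_lit 1) (Nat.land (Nat.shiftRight (V (nat_lit 30)) (S (nat_lit 44))) (nat_lit 65535))) (Nat.shiftLeft (nat_lit 1) (Nat.land (Nat.shiftRight (V (nat_lit 30)) (S (nat_lit 55))) (nat_lit 65535))))) (Nat.add (Nat.add (Nat.shiftLeft (nat_lit 1) (Nat.land (Nat.shiftRight (V (nat_lit 33)) (S (nat_lit 12))) (nat_lit 65535))) (Nat.shiftLeft (nat_lit 1) (Nat.land (Nat.shiftRight (V (nat_lit 33)) (S (nat_lit 13))) (nat_lit 65535)))) (Nat.add (Nat.shiftLeft (nat_lit 1) (Nat.land (Nat.shiftRight (V (nat_lit 33)) (S (nat_lit 18))) (nat_lit 65535))) (Nat.shiftLeft (nat_lit 1) (Nat.land (Nat.shiftRight (V (nat_lit 33))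 (S (nat_lit 23))) (nat_lit 65535))))))))) (Nat.add (Nat.add (Nat.add (Nat.add (Nat.add (Nat.shiftLeft (nat_lit 1) (Nat.land (Nat.shiftRight (V (nat_lit 35)) (S (nat_lit 8))) (nat_lit 65535))) (Nat.add (Nat.shiftLeft (nat_lit 1) (Nat.land (Nat.shiftRight (V (nat_lit 35)) (S (nat_lit 14))) (nat_lit 65535))) (Nat.shiftLeft (nat_lit 1) (Nat.land (Nat.shiftRight (V (nat_lit 35)) (S (nat_lit 43))) (nat_lit 65535))))) (Nat.add (Nat.add (Nat.shiftLeft (nat_lit 1) (Nat.land (Nat.shiftRight (V (nat_lit 35)) (S (nat_lit 47))) (nat_lit 65535))) (Nat.shiftLeft (nat_lit 1) (Nat.land (Nat.shiftRight (V (nat_lit 36)) (S (nat_lit 28))) (nat_lit 65535)))) (Nat.add (Nat.shiftLeft (nat_lit 1) (Nat.land (Nat.shiftRight (V (nat_lit 36)) (S (nat_lit 29))) (nat_lit 65535))) (Nat.shiftLeft (nat_lit 1) (Nat.land (Nat.shiftRight (V (nat_lit 36)) (S (nat_lit 39))) (nat_lit 65535)))))) (Nat.add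 (Nat.add (Nat.add (Nat.shiftLeft (nat_lit 1) (Nat.land (Nat.shiftRight (V (nat_lit 36)) (S (nat_lit 51))) (nat_lit 65535))) (Nat.shiftLeft (nat_lit 1) (Nat.land (Nat.shiftRight (V (nat_lit 37)) (S (nat_lit 11))) (nat_lit 65535)))) (Nat.add (Nat.shiftLeft (nat_lit 1) (Nat.land (Nat.shiftRight (V (nat_lit 37)) (S (nat_lit 27))) (nat_lit 65535))) (Nat.shiftLeft (nat_lit 1) (Nat.land (Nat.shiftRight (V (nat_lit 37)) (S (nat_lit 46))) (nat_lit 65535))))) (Nat.add (Nat.add (Nat.shiftLeft (nat_lit 1) (Nat.land (Nat.shiftRight (V (nat_lit 37)) (S (nat_lit 54))) (nat_lit 65535))) (Nat.shiftLeft (nat_lit 1) (Nat.land (Nat.shiftRight (V (nat_lit 39)) (S (nat_lit 14))) (nat_lit 65535)))) (Nat.add (Nat.shiftLeft (nat_lit 1) (Nat.land (Nat.shiftRight (V (nat_lit 39)) (S (nat_lit 36))) (nat_lit 65535))) (Nat.shiftLeft (nat_lit 1) (Nat.land (Nat.shiftRight (V (nat_lit 39)) (S (nat_lit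 54))) (nat_lit 65535))))))) (Nat.add (Nat.add (Nat.add (Nat.shiftLeft (nat_lit 1) (Nat.land (Nat.shiftRight (V (nat_lit 39)) (S (nat_lit 59))) (nat_lit 65535))) (Nat.add (Nat.shiftLeft (nat_lit 1) (Nat.land (Nat.shiftRight (V (nat_lit 41)) (S (nat_lit 3))) (nat_lit 65535))) (Nat.shiftLeft (nat_lit 1) (Nat.land (Nat.shiftRight (V (nat_lit 41)) (S (nat_lit 12))) (nat_lit 65535))))) (Nat.add (Nat.add (Nat.shiftLeft (nat_lit 1) (Nat.land (Nat.shiftRight (V (nat_lit 41)) (S (nat_lit 18))) (nat_lit 65535))) (Nat.shiftLeft (nat_lit 1) (Nat.land (Nat.shiftRight (V (nat_lit 41)) (S (nat_lit 42))) (nat_lit 65535)))) (Nat.add (Nat.shiftLeft (nat_lit 1) (Nat.land (Nat.shiftRight (V (nat_lit 42)) (S (nat_lit 14))) (nat_lit 65535))) (Nat.shiftLeft (nat_lit 1) (Nat.land (Nat.shiftRight (V (nat_lit 42)) (S (nat_lit 30))) (nat_lit 65535)))))) (Nat.add (Nat.add (Nat.add (Nat.shiftLeft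 (nat_lit 1) (Nat.land (Nat.shiftRight (V (nat_lit 42)) (S (nat_lit 41))) (nat_lit 65535))) (Nat.shiftLeft (nat_lit 1) (Nat.land (Nat.shiftRight (V (nat_lit 42)) (S (nat_lit 59))) (nat_lit 65535)))) (Nat.add (Nat.shiftLeft (nat_lit 1) (Nat.land (Nat.shiftRight (V (nat_lit 43)) (S (nat_lit 10))) (nat_lit 65535))) (Nat.shiftLeft (nat_lit 1) (Nat.land (Nat.shiftRight (V (nat_lit 43)) (S (nat_lit 18))) (nat_lit 65535))))) (Nat.add (Nat.add (Nat.shiftLeft (nat_lit 1) (Nat.land (Nat.shiftRight (V (nat_lit 43)) (S (nat_lit 35))) (nat_lit 65535))) (Nat.shiftLeft (nat_lit 1) (Nat.land (Nat.shiftRight (V (nat_lit 43)) (S (nat_lit 51))) (nat_lit 65535)))) (Nat.add (Nat.shiftLeft (nat_lit 1) (Nat.land (Nat.shiftRight (V (nat_lit 44)) (S (nat_lit 11))) (nat_lit 65535))) (Nat.shiftLeft (nat_lit 1) (Nat.land (Nat.shiftRight (V (nat_lit 44)) (S (nat_lit 27))) (nat_lit 65535))))))))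 (Nat.add (Nat.add (Nat.add (Nat.add (Nat.shiftLeft (nat_lit 1) (Nat.land (Nat.shiftRight (V (nat_lit 44)) (S (nat_lit 30))) (nat_lit 65535))) (Nat.add (Nat.shiftLeft (nat_lit 1) (Nat.land (Nat.shiftRight (V (nat_lit 44)) (S (nat_lit 47))) (nat_lit 65535))) (Nat.shiftLeft (nat_lit 1) (Nat.land (Nat.shiftRight (V (nat_lit 46)) (S (nat_lit 7))) (nat_lit 65535))))) (Nat.add (Nat.add (Nat.shiftLeft (nat_lit 1) (Nat.land (Nat.shiftRight (V (nat_lit 46)) (S (nat_lit 10))) (nat_lit 65535))) (Nat.shiftLeft (nat_lit 1) (Nat.land (Nat.shiftRight (V (nat_lit 46)) (S (nat_lit 19))) (nat_lit 65535)))) (Nat.add (Nat.shiftLeft (nat_lit 1) (Nat.land (Nat.shiftRight (V (nat_lit 46)) (S (nat_lit 37))) (nat_lit 65535))) (Nat.shiftLeft (nat_lit 1) (Nat.land (Nat.shiftRight (V (nat_lit 47)) (S (nat_lit 35))) (nat_lit 65535)))))) (Nat.add (Nat.add (Nat.add (Nat.shiftLeft (nat_lit 1) (Nat.land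 (Nat.shiftRight (V (nat_lit 47)) (S (nat_lit 44))) (nat_lit 65535))) (Nat.shiftLeft (nat_lit 1) (Nat.land (Nat.shiftRight (V (nat_lit 47)) (S (nat_lit 53))) (nat_lit 65535)))) (Nat.add (Nat.shiftLeft (nat_lit 1) (Nat.land (Nat.shiftRight (V (nat_lit 47)) (S (nat_lit 55))) (nat_lit 65535))) (Nat.shiftLeft (nat_lit 1) (Nat.land (Nat.shiftRight (V (nat_lit 50)) (S (nat_lit 5))) (nat_lit 65535))))) (Nat.add (Nat.add (Nat.shiftLeft (nat_lit 1) (Nat.land (Nat.shiftRight (V (nat_lit 50)) (S (nat_lit 7))) (nat_lit 65535))) (Nat.shiftLeft (nat_lit 1) (Nat.land (Nat.shiftRight (V (nat_lit 50)) (S (nat_lit 9))) (nat_lit 65535)))) (Nat.add (Nat.shiftLeft (nat_lit 1) (Nat.land (Nat.shiftRight (V (nat_lit 50)) (S (nat_lit 10))) (nat_lit 65535))) (Nat.shiftLeft (nat_lit 1) (Nat.land (Nat.shiftRight (V (nat_lit 51)) (S (nat_lit 11))) (nat_lit 65535))))))) (Nat.add (Nat.add (Nat.add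 (Nat.shiftLeft (nat_lit 1) (Nat.land (Nat.shiftRight (V (nat_lit 51)) (S (nat_lit 21))) (nat_lit 65535))) (Nat.add (Nat.shiftLeft (nat_lit 1) (Nat.land (Nat.shiftRight (V (nat_lit 51)) (S (nat_lit 36))) (nat_lit 65535))) (Nat.shiftLeft (nat_lit 1) (Nat.land (Nat.shiftRight (V (nat_lit 51)) (S (nat_lit 43))) (nat_lit 65535))))) (Nat.add (Nat.add (Nat.shiftLeft (nat_lit 1) (Nat.land (Nat.shiftRight (V (nat_lit 53)) (S (nat_lit 8))) (nat_lit 65535))) (Nat.shiftLeft (nat_lit 1) (Nat.land (Nat.shiftRight (V (nat_lit 53)) (S (nat_lit 47))) (nat_lit 65535)))) (Nat.add (Nat.shiftLeft (nat_lit 1) (Nat.land (Nat.shiftRight (V (nat_lit 54)) (S (nat_lit 19))) (nat_lit 65535))) (Nat.shiftLeft (nat_lit 1) (Nat.land (Nat.shiftRight (V (nat_lit 54)) (S (nat_lit 28))) (nat_lit 65535)))))) (Nat.add (Nat.add (Nat.add (Nat.shiftLeft (nat_lit 1) (Nat.land (Nat.shiftRight (V (nat_lit 54))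 (S (nat_lit 37))) (nat_lit 65535))) (Nat.shiftLeft (nat_lit 1) (Nat.land (Nat.shiftRight (V (nat_lit 54)) (S (nat_lit 39))) (nat_lit 65535)))) (Nat.add (Nat.shiftLeft (nat_lit 1) (Nat.land (Nat.shiftRight (V (nat_lit 55)) (S (nat_lit 30))) (nat_lit 65535))) (Nat.shiftLeft (nat_lit 1) (Nat.land (Nat.shiftRight (V (nat_lit 55)) (S (nat_lit 47))) (nat_lit 65535))))) (Nat.add (Nat.add (Nat.shiftLeft (nat_lit 1) (Nat.land (Nat.shiftRight (V (nat_lit 59)) (S (nat_lit 9))) (nat_lit 65535))) (Nat.shiftLeft (nat_lit 1) (Nat.land (Nat.shiftRight (V (nat_lit 59)) (S (nat_lit 23))) (nat_lit 65535)))) (Nat.add (Nat.shiftLeft (nat_lit 1) (Nat.land (Nat.shiftRight (V (nat_lit 59)) (S (nat_lit 39))) (nat_lit 65535))) (Nat.shiftLeft (nat_lit 1) (Nat.land (Nat.shiftRight (V (nat_lit 59)) (S (nat_lit 42))) (nat_lit 65535)))))))))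
def E108_3 (V S : ℕ → ℕ) : ℕ := Nat.add (Nat.add (Nat.add (Nat.add (Nat.add (Nat.add (Nat.shiftLeft (nat_lit 1) (Nat.land (Nat.shiftRight (V (nat_lit 3)) (S (nat_lit 32))) (nat_lit 65535))) (Nat.shiftLeft (nat_lit 1) (Nat.land (Nat.shiftRight (V (nat_lit 5)) (S (nat_lit 48))) (nat_lit 65535)))) (Nat.add (Nat.shiftLeft (nat_lit 1) (Nat.land (Nat.shiftRight (V (nat_lit 7)) (S (nat_lit 48))) (nat_lit 65535))) (Nat.add (Nat.shiftLeft (nat_lit 1) (Nat.land (Nat.shiftRight (V (nat_lit 8)) (S (nat_lit 39))) (nat_lit 65535))) (Nat.shiftLeft (nat_lit 1) (Nat.land (Nat.shiftRight (V (nat_lit 8)) (S (nat_lit 45))) (nat_lit 65535)))))) (Nat.add (Nat.add (Nat.shiftLeft (nat_lit 1) (Nat.land (Nat.shiftRight (V (nat_lit 9)) (S (nat_lit 30))) (nat_lit 65535))) (Nat.shiftLeft (nat_lit 1) (Nat.land (Nat.shiftRight (V (nat_lit 9)) (S (nat_lit 48))) (nat_lit 65535)))) (Nat.add (Nat.shiftLeft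 (nat_lit 1) (Nat.land (Nat.shiftRight (V (nat_lit 10)) (S (nat_lit 41))) (nat_lit 65535))) (Nat.add (Nat.shiftLeft (nat_lit 1) (Nat.land (Nat.shiftRight (V (nat_lit 10)) (S (nat_lit 48))) (nat_lit 65535))) (Nat.shiftLeft (nat_lit 1) (Nat.land (Nat.shiftRight (V (nat_lit 12)) (S (nat_lit 32))) (nat_lit 65535))))))) (Nat.add (Nat.add (Nat.add (Nat.shiftLeft (nat_lit 1) (Nat.land (Nat.shiftRight (V (nat_lit 13)) (S (nat_lit 32))) (nat_lit 65535))) (Nat.shiftLeft (nat_lit 1) (Nat.land (Nat.shiftRight (V (nat_lit 18)) (S (nat_lit 32))) (nat_lit 65535)))) (Nat.add (Nat.shiftLeft (nat_lit 1) (Nat.land (Nat.shiftRight (V (nat_lit 18)) (S (nat_lit 46))) (nat_lit 65535))) (Nat.add (Nat.shiftLeft (nat_lit 1) (Nat.land (Nat.shiftRight (V (nat_lit 19)) (S (nat_lit 48))) (nat_lit 65535))) (Nat.shiftLeft (nat_lit 1) (Nat.land (Nat.shiftRight (V (nat_lit 21)) (S (nat_lit 44))) (nat_lit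 65535)))))) (Nat.add (Nat.add (Nat.shiftLeft (nat_lit 1) (Nat.land (Nat.shiftRight (V (nat_lit 21)) (S (nat_lit 45))) (nat_lit 65535))) (Nat.shiftLeft (nat_lit 1) (Nat.land (Nat.shiftRight (V (nat_lit 23)) (S (nat_lit 32))) (nat_lit 65535)))) (Nat.add (Nat.shiftLeft (nat_lit 1) (Nat.land (Nat.shiftRight (V (nat_lit 23)) (S (nat_lit 54))) (nat_lit 65535))) (Nat.add (Nat.shiftLeft (nat_lit 1) (Nat.land (Nat.shiftRight (V (nat_lit 28)) (S (nat_lit 48))) (nat_lit 65535))) (Nat.shiftLeft (nat_lit 1) (Nat.land (Nat.shiftRight (V (nat_lit 29)) (S (nat_lit 48))) (nat_lit 65535)))))))) (Nat.add (Nat.add (Nat.add (Nat.add (Nat.shiftLeft (nat_lit 1) (Nat.land (Nat.shiftRight (V (nat_lit 30)) (S (nat_lit 9))) (nat_lit 65535))) (Nat.shiftLeft (nat_lit 1) (Nat.land (Nat.shiftRight (V (nat_lit 30)) (S (nat_lit 45))) (nat_lit 65535)))) (Nat.add (Nat.shiftLeft (nat_lit 1) (Nat.land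 (Nat.shiftRight (V (nat_lit 32)) (S (nat_lit 3))) (nat_lit 65535))) (Nat.add (Nat.shiftLeft (nat_lit 1) (Nat.land (Nat.shiftRight (V (nat_lit 32)) (S (nat_lit 12))) (nat_lit 65535))) (Nat.shiftLeft (nat_lit 1) (Nat.land (Nat.shiftRight (V (nat_lit 32)) (S (nat_lit 13))) (nat_lit 65535)))))) (Nat.add (Nat.add (Nat.shiftLeft (nat_lit 1) (Nat.land (Nat.shiftRight (V (nat_lit 32)) (S (nat_lit 18))) (nat_lit 65535))) (Nat.shiftLeft (nat_lit 1) (Nat.land (Nat.shiftRight (V (nat_lit 32)) (S (nat_lit 23))) (nat_lit 65535)))) (Nat.add (Nat.shiftLeft (nat_lit 1) (Nat.land (Nat.shiftRight (V (nat_lit 32)) (S (nat_lit 35))) (nat_lit 65535))) (Nat.add (Nat.shiftLeft (nat_lit 1) (Nat.land (Nat.shiftRight (V (nat_lit 32)) (S (nat_lit 42))) (nat_lit 65535))) (Nat.shiftLeft (nat_lit 1) (Nat.land (Nat.shiftRight (V (nat_lit 32)) (S (nat_lit 44))) (nat_lit 65535))))))) (Nat.add (Nat.add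 (Nat.add (Nat.shiftLeft (nat_lit 1) (Nat.land (Nat.shiftRight (V (nat_lit 32)) (S (nat_lit 53))) (nat_lit 65535))) (Nat.shiftLeft (nat_lit 1) (Nat.land (Nat.shiftRight (V (nat_lit 32)) (S (nat_lit 55))) (nat_lit 65535)))) (Nat.add (Nat.shiftLeft (nat_lit 1) (Nat.land (Nat.shiftRight (V (nat_lit 33)) (S (nat_lit 37))) (nat_lit 65535))) (Nat.add (Nat.shiftLeft (nat_lit 1) (Nat.land (Nat.shiftRight (V (nat_lit 33)) (S (nat_lit 45))) (nat_lit 65535))) (Nat.shiftLeft (nat_lit 1) (Nat.land (Nat.shiftRight (V (nat_lit 35)) (S (nat_lit 32))) (nat_lit 65535)))))) (Nat.add (Nat.add (Nat.shiftLeft (nat_lit 1) (Nat.land (Nat.shiftRight (V (nat_lit 35)) (S (nat_lit 36))) (nat_lit 65535))) (Nat.shiftLeft (nat_lit 1) (Nat.land (Nat.shiftRight (V (nat_lit 36)) (S (nat_lit 35))) (nat_lit 65535)))) (Nat.add (Nat.shiftLeft (nat_lit 1) (Nat.land (Nat.shiftRight (V (nat_lit 36)) (S (nat_lit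 45))) (nat_lit 65535))) (Nat.add (Nat.shiftLeft (nat_lit 1) (Nat.land (Nat.shiftRight (V (nat_lit 37)) (S (nat_lit 33))) (nat_lit 65535))) (Nat.shiftLeft (nat_lit 1) (Nat.land (Nat.shiftRight (V (nat_lit 37)) (S (nat_lit 48))) (nat_lit 65535))))))))) (Nat.add (Nat.add (Nat.add (Nat.add (Nat.add (Nat.shiftLeft (nat_lit 1) (Nat.land (Nat.shiftRight (V (nat_lit 39)) (S (nat_lit 8))) (nat_lit 65535))) (Nat.shiftLeft (nat_lit 1) (Nat.land (Nat.shiftRight (V (nat_lit 39)) (S (nat_lit 48))) (nat_lit 65535)))) (Nat.add (Nat.shiftLeft (nat_lit 1) (Nat.land (Nat.shiftRight (V (nat_lit 41)) (S (nat_lit 10))) (nat_lit 65535))) (Nat.add (Nat.shiftLeft (nat_lit 1) (Nat.land (Nat.shiftRight (V (nat_lit 41)) (S (nat_lit 45))) (nat_lit 65535))) (Nat.shiftLeft (nat_lit 1) (Nat.land (Nat.shiftRight (V (nat_lit 42)) (S (nat_lit 32))) (nat_lit 65535)))))) (Nat.add (Nat.add (Nat.shiftLeft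 (nat_lit 1) (Nat.land (Nat.shiftRight (V (nat_lit 42)) (S (nat_lit 50))) (nat_lit 65535))) (Nat.shiftLeft (nat_lit 1) (Nat.land (Nat.shiftRight (V (nat_lit 44)) (S (nat_lit 21))) (nat_lit 65535)))) (Nat.add (Nat.shiftLeft (nat_lit 1) (Nat.land (Nat.shiftRight (V (nat_lit 44)) (S (nat_lit 32))) (nat_lit 65535))) (Nat.add (Nat.shiftLeft (nat_lit 1) (Nat.land (Nat.shiftRight (V (nat_lit 45)) (S (nat_lit 8))) (nat_lit 65535))) (Nat.shiftLeft (nat_lit 1) (Nat.land (Nat.shiftRight (V (nat_lit 45)) (S (nat_lit 21))) (nat_lit 65535))))))) (Nat.add (Nat.add (Nat.add (Nat.shiftLeft (nat_lit 1) (Nat.land (Nat.shiftRight (V (nat_lit 45)) (S (nat_lit 30))) (nat_lit 65535))) (Nat.shiftLeft (nat_lit 1) (Nat.land (Nat.shiftRight (V (nat_lit 45)) (S (nat_lit 33))) (nat_lit 65535)))) (Nat.add (Nat.shiftLeft (nat_lit 1) (Nat.land (Nat.shiftRight (V (nat_lit 45)) (S (nat_lit 36))) (nat_lit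 65535))) (Nat.add (Nat.shiftLeft (nat_lit 1) (Nat.land (Nat.shiftRight (V (nat_lit 45)) (S (nat_lit 41))) (nat_lit 65535))) (Nat.shiftLeft (nat_lit 1) (Nat.land (Nat.shiftRight (V (nat_lit 45)) (S (nat_lit 46))) (nat_lit 65535)))))) (Nat.add (Nat.add (Nat.shiftLeft (nat_lit 1) (Nat.land (Nat.shiftRight (V (nat_lit 45)) (S (nat_lit 47))) (nat_lit 65535))) (Nat.shiftLeft (nat_lit 1) (Nat.land (Nat.shiftRight (V (nat_lit 45)) (S (nat_lit 50))) (nat_lit 65535)))) (Nat.add (Nat.shiftLeft (nat_lit 1) (Nat.land (Nat.shiftRight (V (nat_lit 45)) (S (nat_lit 54))) (nat_lit 65535))) (Nat.add (Nat.shiftLeft (nat_lit 1) (Nat.land (Nat.shiftRight (V (nat_lit 46)) (S (nat_lit 18))) (nat_lit 65535))) (Nat.shiftLeft (nat_lit 1) (Nat.land (Nat.shiftRight (V (nat_lit 46)) (S (nat_lit 45))) (nat_lit 65535)))))))) (Nat.add (Nat.add (Nat.add (Nat.add (Nat.shiftLeft (nat_lit 1) (Nat.land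 (Nat.shiftRight (V (nat_lit 47)) (S (nat_lit 45))) (nat_lit 65535))) (Nat.shiftLeft (nat_lit 1) (Nat.land (Nat.shiftRight (V (nat_lit 47)) (S (nat_lit 51))) (nat_lit 65535)))) (Nat.add (Nat.shiftLeft (nat_lit 1) (Nat.land (Nat.shiftRight (V (nat_lit 48)) (S (nat_lit 5))) (nat_lit 65535))) (Nat.add (Nat.shiftLeft (nat_lit 1) (Nat.land (Nat.shiftRight (V (nat_lit 48)) (S (nat_lit 7))) (nat_lit 65535))) (Nat.shiftLeft (nat_lit 1) (Nat.land (Nat.shiftRight (V (nat_lit 48)) (S (nat_lit 9))) (nat_lit 65535)))))) (Nat.add (Nat.add (Nat.shiftLeft (nat_lit 1) (Nat.land (Nat.shiftRight (V (nat_lit 48)) (S (nat_lit 10))) (nat_lit 65535))) (Nat.shiftLeft (nat_lit 1) (Nat.land (Nat.shiftRight (V (nat_lit 48)) (S (nat_lit 19))) (nat_lit 65535)))) (Nat.add (Nat.shiftLeft (nat_lit 1) (Nat.land (Nat.shiftRight (V (nat_lit 48)) (S (nat_lit 28))) (nat_lit 65535))) (Nat.add (Nat.shiftLeft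 (nat_lit 1) (Nat.land (Nat.shiftRight (V (nat_lit 48)) (S (nat_lit 29))) (nat_lit 65535))) (Nat.shiftLeft (nat_lit 1) (Nat.land (Nat.shiftRight (V (nat_lit 48)) (S (nat_lit 37))) (nat_lit 65535))))))) (Nat.add (Nat.add (Nat.add (Nat.shiftLeft (nat_lit 1) (Nat.land (Nat.shiftRight (V (nat_lit 48)) (S (nat_lit 39))) (nat_lit 65535))) (Nat.shiftLeft (nat_lit 1) (Nat.land (Nat.shiftRight (V (nat_lit 48)) (S (nat_lit 51))) (nat_lit 65535)))) (Nat.add (Nat.shiftLeft (nat_lit 1) (Nat.land (Nat.shiftRight (V (nat_lit 50)) (S (nat_lit 42))) (nat_lit 65535))) (Nat.add (Nat.shiftLeft (nat_lit 1) (Nat.land (Nat.shiftRight (V (nat_lit 50)) (S (nat_lit 45))) (nat_lit 65535))) (Nat.shiftLeft (nat_lit 1) (Nat.land (Nat.shiftRight (V (nat_lit 51)) (S (nat_lit 47))) (nat_lit 65535)))))) (Nat.add (Nat.add (Nat.shiftLeft (nat_lit 1) (Nat.land (Nat.shiftRight (V (nat_lit 51)) (S (nat_lit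 48))) (nat_lit 65535))) (Nat.shiftLeft (nat_lit 1) (Nat.land (Nat.shiftRight (V (nat_lit 53)) (S (nat_lit 32))) (nat_lit 65535)))) (Nat.add (Nat.shiftLeft (nat_lit 1) (Nat.land (Nat.shiftRight (V (nat_lit 54)) (S (nat_lit 23))) (nat_lit 65535))) (Nat.add (Nat.shiftLeft (nat_lit 1) (Nat.land (Nat.shiftRight (V (nat_lit 54)) (S (nat_lit 45))) (nat_lit 65535))) (Nat.shiftLeft (nat_lit 1) (Nat.land (Nat.shiftRight (V (nat_lit 55)) (S (nat_lit 32))) (nat_lit 65535)))))))))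
def E109_3 (V S : ℕ → ℕ) : ℕ := Nat.add (Nat.add (Nat.add (Nat.add (Nat.add (Nat.shiftLeft (nat_lit 1) (Nat.land (Nat.shiftRight (V (nat_lit 3)) (S (nat_lit 26))) (nat_lit 65535))) (Nat.add (Nat.shiftLeft (nat_lit 1) (Nat.land (Nat.shiftRight (V (nat_lit 3)) (S (nat_lit 58))) (nat_lit 65535))) (Nat.shiftLeft (nat_lit 1) (Nat.land (Nat.shiftRight (V (nat_lit 5)) (S (nat_lit 26))) (nat_lit 65535))))) (Nat.add (Nat.add (Nat.shiftLeft (nat_lit 1) (Nat.land (Nat.shiftRight (V (nat_lit 5)) (S (nat_lit 57))) (nat_lit 65535))) (Nat.shiftLeft (nat_lit 1) (Nat.land (Nat.shiftRight (V (nat_lit 7)) (S (nat_lit 38))) (nat_lit 65535)))) (Nat.add (Nat.shiftLeft (nat_lit 1) (Nat.land (Nat.shiftRight (V (nat_lit 7)) (S (nat_lit 58))) (nat_lit 65535))) (Nat.shiftLeft (nat_lit 1) (Nat.land (Nat.shiftRight (V (nat_lit 11)) (S (nat_lit 38))) (nat_lit 65535)))))) (Nat.add (Nat.add (Nat.add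 (Nat.shiftLeft (nat_lit 1) (Nat.land (Nat.shiftRight (V (nat_lit 11)) (S (nat_lit 57))) (nat_lit 65535))) (Nat.shiftLeft (nat_lit 1) (Nat.land (Nat.shiftRight (V (nat_lit 12)) (S (nat_lit 34))) (nat_lit 65535)))) (Nat.add (Nat.shiftLeft (nat_lit 1) (Nat.land (Nat.shiftRight (V (nat_lit 12)) (S (nat_lit 38))) (nat_lit 65535))) (Nat.shiftLeft (nat_lit 1) (Nat.land (Nat.shiftRight (V (nat_lit 13)) (S (nat_lit 26))) (nat_lit 65535))))) (Nat.add (Nat.add (Nat.shiftLeft (nat_lit 1) (Nat.land (Nat.shiftRight (V (nat_lit 13)) (S (nat_lit 57))) (nat_lit 65535))) (Nat.shiftLeft (nat_lit 1) (Nat.land (Nat.shiftRight (V (nat_lit 14)) (S (nat_lit 26))) (nat_lit 65535)))) (Nat.add (Nat.shiftLeft (nat_lit 1) (Nat.land (Nat.shiftRight (V (nat_lit 14)) (S (nat_lit 38))) (nat_lit 65535))) (Nat.shiftLeft (nat_lit 1) (Nat.land (Nat.shiftRight (V (nat_lit 19)) (S (nat_lit 34))) (nat_lit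 65535))))))) (Nat.add (Nat.add (Nat.add (Nat.shiftLeft (nat_lit 1) (Nat.land (Nat.shiftRight (V (nat_lit 19)) (S (nat_lit 57))) (nat_lit 65535))) (Nat.add (Nat.shiftLeft (nat_lit 1) (Nat.land (Nat.shiftRight (V (nat_lit 26)) (S (nat_lit 3))) (nat_lit 65535))) (Nat.shiftLeft (nat_lit 1) (Nat.land (Nat.shiftRight (V (nat_lit 26)) (S (nat_lit 5))) (nat_lit 65535))))) (Nat.add (Nat.add (Nat.shiftLeft (nat_lit 1) (Nat.land (Nat.shiftRight (V (nat_lit 26)) (S (nat_lit 13))) (nat_lit 65535))) (Nat.shiftLeft (nat_lit 1) (Nat.land (Nat.shiftRight (V (nat_lit 26)) (S (nat_lit 14))) (nat_lit 65535)))) (Nat.add (Nat.shiftLeft (nat_lit 1) (Nat.land (Nat.shiftRight (V (nat_lit 26)) (S (nat_lit 27))) (nat_lit 65535))) (Nat.shiftLeft (nat_lit 1) (Nat.land (Nat.shiftRight (V (nat_lit 26)) (S (nat_lit 28))) (nat_lit 65535)))))) (Nat.add (Nat.add (Nat.add (Nat.shiftLeft (nat_lit 1)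 (Nat.land (Nat.shiftRight (V (nat_lit 27)) (S (nat_lit 26))) (nat_lit 65535))) (Nat.shiftLeft (nat_lit 1) (Nat.land (Nat.shiftRight (V (nat_lit 27)) (S (nat_lit 34))) (nat_lit 65535)))) (Nat.add (Nat.shiftLeft (nat_lit 1) (Nat.land (Nat.shiftRight (V (nat_lit 28)) (S (nat_lit 26))) (nat_lit 65535))) (Nat.shiftLeft (nat_lit 1) (Nat.land (Nat.shiftRight (V (nat_lit 28)) (S (nat_lit 58))) (nat_lit 65535))))) (Nat.add (Nat.add (Nat.shiftLeft (nat_lit 1) (Nat.land (Nat.shiftRight (V (nat_lit 29)) (S (nat_lit 34))) (nat_lit 65535))) (Nat.shiftLeft (nat_lit 1) (Nat.land (Nat.shiftRight (V (nat_lit 29)) (S (nat_lit 38))) (nat_lit 65535)))) (Nat.add (Nat.shiftLeft (nat_lit 1) (Nat.land (Nat.shiftRight (V (nat_lit 34)) (S (nat_lit 12))) (nat_lit 65535))) (Nat.shiftLeft (nat_lit 1) (Nat.land (Nat.shiftRight (V (nat_lit 34)) (S (nat_lit 19))) (nat_lit 65535)))))))) (Nat.add (Nat.add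 (Nat.add (Nat.add (Nat.shiftLeft (nat_lit 1) (Nat.land (Nat.shiftRight (V (nat_lit 34)) (S (nat_lit 27))) (nat_lit 65535))) (Nat.add (Nat.shiftLeft (nat_lit 1) (Nat.land (Nat.shiftRight (V (nat_lit 34)) (S (nat_lit 29))) (nat_lit 65535))) (Nat.shiftLeft (nat_lit 1) (Nat.land (Nat.shiftRight (V (nat_lit 34)) (S (nat_lit 43))) (nat_lit 65535))))) (Nat.add (Nat.add (Nat.shiftLeft (nat_lit 1) (Nat.land (Nat.shiftRight (V (nat_lit 34)) (S (nat_lit 55))) (nat_lit 65535))) (Nat.shiftLeft (nat_lit 1) (Nat.land (Nat.shiftRight (V (nat_lit 38)) (S (nat_lit 7))) (nat_lit 65535)))) (Nat.add (Nat.shiftLeft (nat_lit 1) (Nat.land (Nat.shiftRight (V (nat_lit 38)) (S (nat_lit 11))) (nat_lit 65535))) (Nat.shiftLeft (nat_lit 1) (Nat.land (Nat.shiftRight (V (nat_lit 38)) (S (nat_lit 12))) (nat_lit 65535)))))) (Nat.add (Nat.add (Nat.add (Nat.shiftLeft (nat_lit 1) (Nat.land (Nat.shiftRight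 (V (nat_lit 38)) (S (nat_lit 14))) (nat_lit 65535))) (Nat.shiftLeft (nat_lit 1) (Nat.land (Nat.shiftRight (V (nat_lit 38)) (S (nat_lit 29))) (nat_lit 65535)))) (Nat.add (Nat.shiftLeft (nat_lit 1) (Nat.land (Nat.shiftRight (V (nat_lit 38)) (S (nat_lit 53))) (nat_lit 65535))) (Nat.shiftLeft (nat_lit 1) (Nat.land (Nat.shiftRight (V (nat_lit 43)) (S (nat_lit 34))) (nat_lit 65535))))) (Nat.add (Nat.add (Nat.shiftLeft (nat_lit 1) (Nat.land (Nat.shiftRight (V (nat_lit 43)) (S (nat_lit 58))) (nat_lit 65535))) (Nat.shiftLeft (nat_lit 1) (Nat.land (Nat.shiftRight (V (nat_lit 53)) (S (nat_lit 38))) (nat_lit 65535)))) (Nat.add (Nat.shiftLeft (nat_lit 1) (Nat.land (Nat.shiftRight (V (nat_lit 53)) (S (nat_lit 58))) (nat_lit 65535))) (Nat.shiftLeft (nat_lit 1) (Nat.land (Nat.shiftRight (V (nat_lit 55)) (S (nat_lit 34))) (nat_lit 65535))))))) (Nat.add (Nat.add (Nat.add (Nat.shiftLeft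 (nat_lit 1) (Nat.land (Nat.shiftRight (V (nat_lit 55)) (S (nat_lit 57))) (nat_lit 65535))) (Nat.add (Nat.shiftLeft (nat_lit 1) (Nat.land (Nat.shiftRight (V (nat_lit 57)) (S (nat_lit 5))) (nat_lit 65535))) (Nat.shiftLeft (nat_lit 1) (Nat.land (Nat.shiftRight (V (nat_lit 57)) (S (nat_lit 11))) (nat_lit 65535))))) (Nat.add (Nat.add (Nat.shiftLeft (nat_lit 1) (Nat.land (Nat.shiftRight (V (nat_lit 57)) (S (nat_lit 13))) (nat_lit 65535))) (Nat.shiftLeft (nat_lit 1) (Nat.land (Nat.shiftRight (V (nat_lit 57)) (S (nat_lit 19))) (nat_lit 65535)))) (Nat.add (Nat.shiftLeft (nat_lit 1) (Nat.land (Nat.shiftRight (V (nat_lit 57)) (S (nat_lit 55))) (nat_lit 65535))) (Nat.shiftLeft (nat_lit 1) (Nat.land (Nat.shiftRight (V (nat_lit 57)) (S (nat_lit 59))) (nat_lit 65535)))))) (Nat.add (Nat.add (Nat.add (Nat.shiftLeft (nat_lit 1) (Nat.land (Nat.shiftRight (V (nat_lit 58)) (S (nat_lit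 3))) (nat_lit 65535))) (Nat.shiftLeft (nat_lit 1) (Nat.land (Nat.shiftRight (V (nat_lit 58)) (S (nat_lit 7))) (nat_lit 65535)))) (Nat.add (Nat.shiftLeft (nat_lit 1) (Nat.land (Nat.shiftRight (V (nat_lit 58)) (S (nat_lit 28))) (nat_lit 65535))) (Nat.shiftLeft (nat_lit 1) (Nat.land (Nat.shiftRight (V (nat_lit 58)) (S (nat_lit 43))) (nat_lit 65535))))) (Nat.add (Nat.add (Nat.shiftLeft (nat_lit 1) (Nat.land (Nat.shiftRight (V (nat_lit 58)) (S (nat_lit 53))) (nat_lit 65535))) (Nat.shiftLeft (nat_lit 1) (Nat.land (Nat.shiftRight (V (nat_lit 58)) (S (nat_lit 59))) (nat_lit 65535)))) (Nat.add (Nat.shiftLeft (nat_lit 1) (Nat.land (Nat.shiftRight (V (nat_lit 59)) (S (nat_lit 57))) (nat_lit 65535))) (Nat.shiftLeft (nat_lit 1) (Nat.land (Nat.shiftRight (V (nat_lit 59)) (S (nat_lit 58))) (nat_lit 65535))))))))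
def E110_3 (V S : ℕ → ℕ) : ℕ := Nat.add (Nat.add (Nat.add (Nat.add (Nat.add (Nat.add (Nat.shiftLeft (nat_lit 1) (Nat.land (Nat.shiftRight (V (nat_lit 8)) (S (nat_lit 33))) (nat_lit 65535))) (Nat.shiftLeft (nat_lit 1) (Nat.land (Nat.shiftRight (V (nat_lit 8)) (S (nat_lit 38))) (nat_lit 65535)))) (Nat.add (Nat.shiftLeft (nat_lit 1) (Nat.land (Nat.shiftRight (V (nat_lit 8)) (S (nat_lit 47))) (nat_lit 65535))) (Nat.add (Nat.shiftLeft (nat_lit 1) (Nat.land (Nat.shiftRight (V (nat_lit 8)) (S (nat_lit 57))) (nat_lit 65535))) (Nat.shiftLeft (nat_lit 1) (Nat.land (Nat.shiftRight (V (nat_lit 11)) (S (nat_lit 26))) (nat_lit 65535)))))) (Nat.add (Nat.add (Nat.shiftLeft (nat_lit 1) (Nat.land (Nat.shiftRight (V (nat_lit 11)) (S (nat_lit 58))) (nat_lit 65535))) (Nat.shiftLeft (nat_lit 1) (Nat.land (Nat.shiftRight (V (nat_lit 14)) (S (nat_lit 34))) (nat_lit 65535)))) (Nat.add (Nat.shiftLeft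 (nat_lit 1) (Nat.land (Nat.shiftRight (V (nat_lit 14)) (S (nat_lit 57))) (nat_lit 65535))) (Nat.add (Nat.shiftLeft (nat_lit 1) (Nat.land (Nat.shiftRight (V (nat_lit 21)) (S (nat_lit 26))) (nat_lit 65535))) (Nat.shiftLeft (nat_lit 1) (Nat.land (Nat.shiftRight (V (nat_lit 21)) (S (nat_lit 36))) (nat_lit 65535))))))) (Nat.add (Nat.add (Nat.add (Nat.shiftLeft (nat_lit 1) (Nat.land (Nat.shiftRight (V (nat_lit 21)) (S (nat_lit 38))) (nat_lit 65535))) (Nat.shiftLeft (nat_lit 1) (Nat.land (Nat.shiftRight (V (nat_lit 21)) (S (nat_lit 50))) (nat_lit 65535)))) (Nat.add (Nat.shiftLeft (nat_lit 1) (Nat.land (Nat.shiftRight (V (nat_lit 26)) (S (nat_lit 11))) (nat_lit 65535))) (Nat.add (Nat.shiftLeft (nat_lit 1) (Nat.land (Nat.shiftRight (V (nat_lit 26)) (S (nat_lit 21))) (nat_lit 65535))) (Nat.shiftLeft (nat_lit 1) (Nat.land (Nat.shiftRight (V (nat_lit 26)) (S (nat_lit 33))) (nat_lit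 65535)))))) (Nat.add (Nat.add (Nat.shiftLeft (nat_lit 1) (Nat.land (Nat.shiftRight (V (nat_lit 26)) (S (nat_lit 36))) (nat_lit 65535))) (Nat.shiftLeft (nat_lit 1) (Nat.land (Nat.shiftRight (V (nat_lit 26)) (S (nat_lit 41))) (nat_lit 65535)))) (Nat.add (Nat.shiftLeft (nat_lit 1) (Nat.land (Nat.shiftRight (V (nat_lit 26)) (S (nat_lit 43))) (nat_lit 65535))) (Nat.add (Nat.shiftLeft (nat_lit 1) (Nat.land (Nat.shiftRight (V (nat_lit 27)) (S (nat_lit 38))) (nat_lit 65535))) (Nat.shiftLeft (nat_lit 1) (Nat.land (Nat.shiftRight (V (nat_lit 27)) (S (nat_lit 58))) (nat_lit 65535)))))))) (Nat.add (Nat.add (Nat.add (Nat.add (Nat.shiftLeft (nat_lit 1) (Nat.land (Nat.shiftRight (V (nat_lit 30)) (S (nat_lit 34))) (nat_lit 65535))) (Nat.shiftLeft (nat_lit 1) (Nat.land (Nat.shiftRight (V (nat_lit 30)) (S (nat_lit 41))) (nat_lit 65535)))) (Nat.add (Nat.shiftLeft (nat_lit 1) (Nat.land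 (Nat.shiftRight (V (nat_lit 30)) (S (nat_lit 47))) (nat_lit 65535))) (Nat.add (Nat.shiftLeft (nat_lit 1) (Nat.land (Nat.shiftRight (V (nat_lit 30)) (S (nat_lit 58))) (nat_lit 65535))) (Nat.shiftLeft (nat_lit 1) (Nat.land (Nat.shiftRight (V (nat_lit 33)) (S (nat_lit 8))) (nat_lit 65535)))))) (Nat.add (Nat.add (Nat.shiftLeft (nat_lit 1) (Nat.land (Nat.shiftRight (V (nat_lit 33)) (S (nat_lit 26))) (nat_lit 65535))) (Nat.shiftLeft (nat_lit 1) (Nat.land (Nat.shiftRight (V (nat_lit 33)) (S (nat_lit 38))) (nat_lit 65535)))) (Nat.add (Nat.shiftLeft (nat_lit 1) (Nat.land (Nat.shiftRight (V (nat_lit 33)) (S (nat_lit 41))) (nat_lit 65535))) (Nat.add (Nat.shiftLeft (nat_lit 1) (Nat.land (Nat.shiftRight (V (nat_lit 34)) (S (nat_lit 14))) (nat_lit 65535))) (Nat.shiftLeft (nat_lit 1) (Nat.land (Nat.shiftRight (V (nat_lit 34)) (S (nat_lit 30))) (nat_lit 65535))))))) (Nat.add (Nat.add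 (Nat.add (Nat.shiftLeft (nat_lit 1) (Nat.land (Nat.shiftRight (V (nat_lit 34)) (S (nat_lit 36))) (nat_lit 65535))) (Nat.shiftLeft (nat_lit 1) (Nat.land (Nat.shiftRight (V (nat_lit 34)) (S (nat_lit 41))) (nat_lit 65535)))) (Nat.add (Nat.shiftLeft (nat_lit 1) (Nat.land (Nat.shiftRight (V (nat_lit 34)) (S (nat_lit 54))) (nat_lit 65535))) (Nat.add (Nat.shiftLeft (nat_lit 1) (Nat.land (Nat.shiftRight (V (nat_lit 34)) (S (nat_lit 59))) (nat_lit 65535))) (Nat.shiftLeft (nat_lit 1) (Nat.land (Nat.shiftRight (V (nat_lit 36)) (S (nat_lit 21))) (nat_lit 65535)))))) (Nat.add (Nat.add (Nat.shiftLeft (nat_lit 1) (Nat.land (Nat.shiftRight (V (nat_lit 36)) (S (nat_lit 26))) (nat_lit 65535))) (Nat.shiftLeft (nat_lit 1) (Nat.land (Nat.shiftRight (V (nat_lit 36)) (S (nat_lit 34))) (nat_lit 65535)))) (Nat.add (Nat.shiftLeft (nat_lit 1) (Nat.land (Nat.shiftRight (V (nat_lit 36)) (S (nat_lit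 54))) (nat_lit 65535))) (Nat.add (Nat.shiftLeft (nat_lit 1) (Nat.land (Nat.shiftRight (V (nat_lit 38)) (S (nat_lit 8))) (nat_lit 65535))) (Nat.shiftLeft (nat_lit 1) (Nat.land (Nat.shiftRight (V (nat_lit 38)) (S (nat_lit 21))) (nat_lit 65535))))))))) (Nat.add (Nat.add (Nat.add (Nat.add (Nat.add (Nat.shiftLeft (nat_lit 1) (Nat.land (Nat.shiftRight (V (nat_lit 38)) (S (nat_lit 27))) (nat_lit 65535))) (Nat.shiftLeft (nat_lit 1) (Nat.land (Nat.shiftRight (V (nat_lit 38)) (S (nat_lit 33))) (nat_lit 65535)))) (Nat.add (Nat.shiftLeft (nat_lit 1) (Nat.land (Nat.shiftRight (V (nat_lit 38)) (S (nat_lit 50))) (nat_lit 65535))) (Nat.add (Nat.shiftLeft (nat_lit 1) (Nat.land (Nat.shiftRight (V (nat_lit 38)) (S (nat_lit 59))) (nat_lit 65535))) (Nat.shiftLeft (nat_lit 1) (Nat.land (Nat.shiftRight (V (nat_lit 41)) (S (nat_lit 26))) (nat_lit 65535)))))) (Nat.add (Nat.add (Nat.shiftLeft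 (nat_lit 1) (Nat.land (Nat.shiftRight (V (nat_lit 41)) (S (nat_lit 30))) (nat_lit 65535))) (Nat.shiftLeft (nat_lit 1) (Nat.land (Nat.shiftRight (V (nat_lit 41)) (S (nat_lit 33))) (nat_lit 65535)))) (Nat.add (Nat.shiftLeft (nat_lit 1) (Nat.land (Nat.shiftRight (V (nat_lit 41)) (S (nat_lit 34))) (nat_lit 65535))) (Nat.add (Nat.shiftLeft (nat_lit 1) (Nat.land (Nat.shiftRight (V (nat_lit 43)) (S (nat_lit 26))) (nat_lit 65535))) (Nat.shiftLeft (nat_lit 1) (Nat.land (Nat.shiftRight (V (nat_lit 43)) (S (nat_lit 57))) (nat_lit 65535))))))) (Nat.add (Nat.add (Nat.add (Nat.shiftLeft (nat_lit 1) (Nat.land (Nat.shiftRight (V (nat_lit 46)) (S (nat_lit 50))) (nat_lit 65535))) (Nat.shiftLeft (nat_lit 1) (Nat.land (Nat.shiftRight (V (nat_lit 46)) (S (nat_lit 54))) (nat_lit 65535)))) (Nat.add (Nat.shiftLeft (nat_lit 1) (Nat.land (Nat.shiftRight (V (nat_lit 46)) (S (nat_lit 57))) (nat_lit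 65535))) (Nat.add (Nat.shiftLeft (nat_lit 1) (Nat.land (Nat.shiftRight (V (nat_lit 46)) (S (nat_lit 58))) (nat_lit 65535))) (Nat.shiftLeft (nat_lit 1) (Nat.land (Nat.shiftRight (V (nat_lit 47)) (S (nat_lit 8))) (nat_lit 65535)))))) (Nat.add (Nat.add (Nat.shiftLeft (nat_lit 1) (Nat.land (Nat.shiftRight (V (nat_lit 47)) (S (nat_lit 30))) (nat_lit 65535))) (Nat.shiftLeft (nat_lit 1) (Nat.land (Nat.shiftRight (V (nat_lit 47)) (S (nat_lit 57))) (nat_lit 65535)))) (Nat.add (Nat.shiftLeft (nat_lit 1) (Nat.land (Nat.shiftRight (V (nat_lit 47)) (S (nat_lit 58))) (nat_lit 65535))) (Nat.add (Nat.shiftLeft (nat_lit 1) (Nat.land (Nat.shiftRight (V (nat_lit 50)) (S (nat_lit 21))) (nat_lit 65535))) (Nat.shiftLeft (nat_lit 1) (Nat.land (Nat.shiftRight (V (nat_lit 50)) (S (nat_lit 38))) (nat_lit 65535)))))))) (Nat.add (Nat.add (Nat.add (Nat.add (Nat.shiftLeft (nat_lit 1) (Nat.land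 (Nat.shiftRight (V (nat_lit 50)) (S (nat_lit 46))) (nat_lit 65535))) (Nat.shiftLeft (nat_lit 1) (Nat.land (Nat.shiftRight (V (nat_lit 50)) (S (nat_lit 57))) (nat_lit 65535)))) (Nat.add (Nat.shiftLeft (nat_lit 1) (Nat.land (Nat.shiftRight (V (nat_lit 54)) (S (nat_lit 34))) (nat_lit 65535))) (Nat.add (Nat.shiftLeft (nat_lit 1) (Nat.land (Nat.shiftRight (V (nat_lit 54)) (S (nat_lit 36))) (nat_lit 65535))) (Nat.shiftLeft (nat_lit 1) (Nat.land (Nat.shiftRight (V (nat_lit 54)) (S (nat_lit 46))) (nat_lit 65535)))))) (Nat.add (Nat.add (Nat.shiftLeft (nat_lit 1) (Nat.land (Nat.shiftRight (V (nat_lit 54)) (S (nat_lit 58))) (nat_lit 65535))) (Nat.shiftLeft (nat_lit 1) (Nat.land (Nat.shiftRight (V (nat_lit 57)) (S (nat_lit 8))) (nat_lit 65535)))) (Nat.add (Nat.shiftLeft (nat_lit 1) (Nat.land (Nat.shiftRight (V (nat_lit 57)) (S (nat_lit 14))) (nat_lit 65535))) (Nat.add (Nat.shiftLeft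 (nat_lit 1) (Nat.land (Nat.shiftRight (V (nat_lit 57)) (S (nat_lit 43))) (nat_lit 65535))) (Nat.shiftLeft (nat_lit 1) (Nat.land (Nat.shiftRight (V (nat_lit 57)) (S (nat_lit 46))) (nat_lit 65535))))))) (Nat.add (Nat.add (Nat.add (Nat.shiftLeft (nat_lit 1) (Nat.land (Nat.shiftRight (V (nat_lit 57)) (S (nat_lit 47))) (nat_lit 65535))) (Nat.shiftLeft (nat_lit 1) (Nat.land (Nat.shiftRight (V (nat_lit 57)) (S (nat_lit 50))) (nat_lit 65535)))) (Nat.add (Nat.shiftLeft (nat_lit 1) (Nat.land (Nat.shiftRight (V (nat_lit 58)) (S (nat_lit 11))) (nat_lit 65535))) (Nat.add (Nat.shiftLeft (nat_lit 1) (Nat.land (Nat.shiftRight (V (nat_lit 58)) (S (nat_lit 27))) (nat_lit 65535))) (Nat.shiftLeft (nat_lit 1) (Nat.land (Nat.shiftRight (V (nat_lit 58)) (S (nat_lit 30))) (nat_lit 65535)))))) (Nat.add (Nat.add (Nat.shiftLeft (nat_lit 1) (Nat.land (Nat.shiftRight (V (nat_lit 58)) (S (nat_lit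 46))) (nat_lit 65535))) (Nat.shiftLeft (nat_lit 1) (Nat.land (Nat.shiftRight (V (nat_lit 58)) (S (nat_lit 47))) (nat_lit 65535)))) (Nat.add (Nat.shiftLeft (nat_lit 1) (Nat.land (Nat.shiftRight (V (nat_lit 58)) (S (nat_lit 54))) (nat_lit 65535))) (Nat.add (Nat.shiftLeft (nat_lit 1) (Nat.land (Nat.shiftRight (V (nat_lit 59)) (S (nat_lit 34))) (nat_lit 65535))) (Nat.shiftLeft (nat_lit 1) (Nat.land (Nat.shiftRight (V (nat_lit 59)) (S (nat_lit 38))) (nat_lit 65535)))))))))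

def EL : List (List ((ℕ → ℕ) → (ℕ → ℕ) → ℕ)) := [
  [E0_0, E0, E0, E0],
  [E1_0, E0, E1_2, E0],
  [E2_0, E2_1, E0, E0],
  [E3_0, E0, E0, E3_3],
  [E4_0, E0, E4_2, E0],
  [E5_0, E0, E5_2, E0],
  [E6_0, E6_1, E6_2, E0],
  [E7_0, E0, E7_2, E0],
  [E8_0, E8_1, E8_2, E0],
  [E9_0, E9_1, E9_2, E0],
  [E10_0, E0, E10_2, E10_3],
  [E11_0, E0, E11_2, E11_3],
  [E12_0, E0, E12_2, E12_3],
  [E13_0, E13_1, E13_2, E13_3],
  [E14_0, E14_1, E14_2, E14_3],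
  [E15_0, E0, E15_2, E15_3],
  [E16_0, E16_1, E0, E0],
  [E17_0, E17_1, E0, E0],
  [E18_0, E18_1, E18_2, E0],
  [E19_0, E19_1, E0, E19_3],
  [E20_0, E20_1, E20_2, E20_3],
  [E21_0, E21_1, E0, E21_3],
  [E22_0, E22_1, E0, E22_3],
  [E23_0, E0, E0, E23_3],
  [E24_0, E0, E24_2, E24_3],
  [E25_0, E0, E25_2, E25_3],
  [E26_0, E26_1, E0, E26_3],
  [E27_0, E0, E0, E27_3],
  [E28_0, E0, E0, E28_3],
  [E29_0, E0, E0, E29_3],
  [E0, E30_1, E30_2, E0],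
  [E0, E31_1, E31_2, E0],
  [E0, E0, E32_2, E32_3],
  [E0, E33_1, E33_2, E33_3],
  [E0, E34_1, E34_2, E0],
  [E0, E35_1, E35_2, E0],
  [E0, E36_1, E36_2, E0],
  [E0, E37_1, E37_2, E0],
  [E0, E38_1, E38_2, E0],
  [E0, E39_1, E39_2, E0],
  [E0, E40_1, E40_2, E40_3],
  [E0, E0, E41_2, E41_3],
  [E0, E42_1, E42_2, E42_3],
  [E0, E0, E43_2, E0],
  [E0, E0, E44_2, E44_3],
  [E0, E45_1, E45_2, E0],
  [E0, E46_1, E46_2, E46_3],
  [E0, E47_1, E47_2, E47_3],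
  [E0, E48_1, E48_2, E48_3],
  [E0, E0, E49_2, E49_3],
  [E0, E0, E50_2, E50_3],
  [E0, E51_1, E51_2, E51_3],
  [E0, E52_1, E52_2, E52_3],
  [E0, E0, E53_2, E53_3],
  [E0, E54_1, E54_2, E54_3],
  [E0, E0, E55_2, E55_3],
  [E0, E0, E56_2, E56_3],
  [E0, E0, E57_2, E57_3],
  [E0, E58_1, E58_2, E58_3],
  [E0, E59_1, E59_2, E59_3],
  [E0, E60_1, E60_2, E60_3],
  [E0, E61_1, E61_2, E61_3],
  [E0, E62_1, E62_2, E62_3],
  [E0, E63_1, E63_2, E63_3],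
  [E0, E64_1, E64_2, E64_3],
  [E0, E65_1, E65_2, E65_3],
  [E0, E0, E66_2, E66_3],
  [E0, E67_1, E0, E0],
  [E0, E68_1, E0, E68_3],
  [E0, E69_1, E0, E69_3],
  [E0, E70_1, E0, E70_3],
  [E0, E71_1, E0, E71_3],
  [E0, E72_1, E0, E72_3],
  [E0, E73_1, E0, E73_3],
  [E0, E74_1, E0, E74_3],
  [E0, E75_1, E0, E75_3],
  [E0, E0, E0, E76_3],
  [E0, E0, E0, E77_3],
  [E0, E78_1, E78_2, E78_3],
  [E0, E79_1, E79_2, E79_3],
  [E0, E80_1, E80_2, E80_3],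
  [E0, E81_1, E81_2, E81_3],
  [E0, E82_1, E82_2, E82_3],
  [E0, E83_1, E83_2, E83_3],
  [E0, E84_1, E84_2, E84_3],
  [E0, E85_1, E85_2, E85_3],
  [E0, E86_1, E86_2, E86_3],
  [E0, E87_1, E87_2, E87_3],
  [E0, E88_1, E88_2, E88_3],
  [E0, E89_1, E89_2, E89_3],
  [E0, E0, E90_2, E90_3],
  [E0, E0, E91_2, E91_3],
  [E0, E92_1, E92_2, E92_3],
  [E0, E93_1, E93_2, E93_3],
  [E0, E94_1, E94_2, E94_3],
  [E0, E95_1, E95_2, E95_3],
  [E0, E96_1, E96_2, E96_3],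
  [E0, E0, E97_2, E97_3],
  [E0, E0, E98_2, E98_3],
  [E0, E0, E99_2, E99_3],
  [E0, E100_1, E100_2, E100_3],
  [E0, E101_1, E101_2, E101_3],
  [E0, E102_1, E102_2, E102_3],
  [E0, E103_1, E103_2, E103_3],
  [E0, E104_1, E104_2, E104_3],
  [E0, E105_1, E105_2, E105_3],
  [E0, E0, E106_2, E106_3],
  [E0, E107_1, E107_2, E107_3],
  [E0, E108_1, E108_2, E108_3],
  [E0, E109_1, E109_2, E109_3],
  [E0, E110_1, E0, E110_3]]

def T0_0 : T := T.l (nat_lit 0) (nat_lit 0)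
def T1_0 : T := T.n (T.n (T.n (T.n (T.n (T.l (nat_lit 0) (nat_lit 1)) (T.l (nat_lit 0) (nat_lit 2))) (T.n (T.l (nat_lit 0) (nat_lit 4)) (T.n (T.l (nat_lit 0) (nat_lit 5)) (T.l (nat_lit 0) (nat_lit 6))))) (T.n (T.n (T.l (nat_lit 0) (nat_lit 7)) (T.l (nat_lit 0) (nat_lit 9))) (T.n (T.l (nat_lit 0) (nat_lit 10)) (T.n (T.l (nat_lit 0) (nat_lit 15)) (T.l (nat_lit 0) (nat_lit 19)))))) (T.n (T.n (T.n (T.l (nat_lit 0) (nat_lit 22)) (T.l (nat_lit 0) (nat_lit 24))) (T.n (T.l (nat_lit 0) (nat_lit 28)) (T.n (T.l (nat_lit 0) (nat_lit 29)) (T.l (nat_lit 0) (nat_lit 37))))) (T.n (T.n (T.l (nat_lit 0) (nat_lit 39)) (T.l (nat_lit 0) (nat_lit 40))) (T.n (T.l (nat_lit 0) (nat_lit 49)) (T.n (T.l (nat_lit 0) (nat_lit 51)) (T.l (nat_lit 0) (nat_lit 52))))))) (T.n (T.n (T.n (T.n (T.l (nat_lit 1) (nat_lit 0)) (T.l (nat_lit 2) (nat_lit 0))) (T.n (T.l (nat_lit 4) (nat_lit 0)) (T.n (T.l (nat_lit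 5) (nat_lit 0)) (T.l (nat_lit 6) (nat_lit 0))))) (T.n (T.n (T.l (nat_lit 7) (nat_lit 0)) (T.l (nat_lit 9) (nat_lit 0))) (T.n (T.l (nat_lit 10) (nat_lit 0)) (T.n (T.l (nat_lit 15) (nat_lit 0)) (T.l (nat_lit 19) (nat_lit 0)))))) (T.n (T.n (T.n (T.l (nat_lit 22) (nat_lit 0)) (T.l (nat_lit 24) (nat_lit 0))) (T.n (T.l (nat_lit 28) (nat_lit 0)) (T.n (T.l (nat_lit 29) (nat_lit 0)) (T.l (nat_lit 37) (nat_lit 0))))) (T.n (T.n (T.l (nat_lit 39) (nat_lit 0)) (T.l (nat_lit 40) (nat_lit 0))) (T.n (T.l (nat_lit 49) (nat_lit 0)) (T.n (T.l (nat_lit 51) (nat_lit 0)) (T.l (nat_lit 52) (nat_lit 0)))))))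
def T2_0 : T := T.n (T.n (T.n (T.n (T.l (nat_lit 0) (nat_lit 3)) (T.n (T.l (nat_lit 0) (nat_lit 8)) (T.l (nat_lit 0) (nat_lit 11)))) (T.n (T.n (T.l (nat_lit 0) (nat_lit 12)) (T.l (nat_lit 0) (nat_lit 13))) (T.n (T.l (nat_lit 0) (nat_lit 14)) (T.l (nat_lit 0) (nat_lit 27))))) (T.n (T.n (T.n (T.l (nat_lit 0) (nat_lit 30)) (T.l (nat_lit 0) (nat_lit 33))) (T.n (T.l (nat_lit 0) (nat_lit 41)) (T.l (nat_lit 0) (nat_lit 43)))) (T.n (T.n (T.l (nat_lit 0) (nat_lit 47)) (T.l (nat_lit 0) (nat_lit 53))) (T.n (T.l (nat_lit 0) (nat_lit 55)) (T.l (nat_lit 0) (nat_lit 59)))))) (T.n (T.n (T.n (T.l (nat_lit 3) (nat_lit 0)) (T.n (T.l (nat_lit 8) (nat_lit 0)) (T.l (nat_lit 11) (nat_lit 0)))) (T.n (T.n (T.l (nat_lit 12) (nat_lit 0)) (T.l (nat_lit 13) (nat_lit 0))) (T.n (T.l (nat_lit 14) (nat_lit 0)) (T.l (nat_lit 27) (nat_lit 0))))) (T.n (T.n (T.n (T.l (nat_lit 30) (nat_lit 0)) (T.l (nat_lit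 33) (nat_lit 0))) (T.n (T.l (nat_lit 41) (nat_lit 0)) (T.l (nat_lit 43) (nat_lit 0)))) (T.n (T.n (T.l (nat_lit 47) (nat_lit 0)) (T.l (nat_lit 53) (nat_lit 0))) (T.n (T.l (nat_lit 55) (nat_lit 0)) (T.l (nat_lit 59) (nat_lit 0))))))
def T3_0 : T := T.n (T.n (T.n (T.n (T.n (T.l (nat_lit 0) (nat_lit 16)) (T.n (T.l (nat_lit 0) (nat_lit 17)) (T.l (nat_lit 0) (nat_lit 18)))) (T.n (T.l (nat_lit 0) (nat_lit 20)) (T.n (T.l (nat_lit 0) (nat_lit 21)) (T.l (nat_lit 0) (nat_lit 23))))) (T.n (T.n (T.l (nat_lit 0) (nat_lit 25)) (T.n (T.l (nat_lit 0) (nat_lit 26)) (T.l (nat_lit 0) (nat_lit 31)))) (T.n (T.l (nat_lit 0) (nat_lit 32)) (T.n (T.l (nat_lit 0) (nat_lit 34)) (T.l (nat_lit 0) (nat_lit 35)))))) (T.n (T.n (T.n (T.l (nat_lit 0) (nat_lit 36)) (T.n (T.l (nat_lit 0) (nat_lit 38)) (T.l (nat_lit 0) (nat_lit 42)))) (T.n (T.l (nat_lit 0) (nat_lit 44)) (T.n (T.l (nat_lit 0) (nat_lit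 45)) (T.l (nat_lit 0) (nat_lit 46))))) (T.n (T.n (T.l (nat_lit 0) (nat_lit 48)) (T.n (T.l (nat_lit 0) (nat_lit 50)) (T.l (nat_lit 0) (nat_lit 54)))) (T.n (T.l (nat_lit 0) (nat_lit 56)) (T.n (T.l (nat_lit 0) (nat_lit 57)) (T.l (nat_lit 0) (nat_lit 58))))))) (T.n (T.n (T.n (T.n (T.l (nat_lit 16) (nat_lit 0)) (T.n (T.l (nat_lit 17) (nat_lit 0)) (T.l (nat_lit 18) (nat_lit 0)))) (T.n (T.l (nat_lit 20) (nat_lit 0)) (T.n (T.l (nat_lit 21) (nat_lit 0)) (T.l (nat_lit 23) (nat_lit 0))))) (T.n (T.n (T.l (nat_lit 25) (nat_lit 0)) (T.n (T.l (nat_lit 26) (nat_lit 0)) (T.l (nat_lit 31) (nat_lit 0)))) (T.n (T.l (nat_lit 32) (nat_lit 0)) (T.n (T.l (nat_lit 34) (nat_lit 0)) (T.l (nat_lit 35) (nat_lit 0)))))) (T.n (T.n (T.n (T.l (nat_lit 36) (nat_lit 0)) (T.n (T.l (nat_lit 38) (nat_lit 0)) (T.l (nat_lit 42) (nat_lit 0)))) (T.n (T.l (nat_lit 44) (nat_lit 0)) (T.n (T.l (nat_lit 45) (nat_lit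 0)) (T.l (nat_lit 46) (nat_lit 0))))) (T.n (T.n (T.l (nat_lit 48) (nat_lit 0)) (T.n (T.l (nat_lit 50) (nat_lit 0)) (T.l (nat_lit 54) (nat_lit 0)))) (T.n (T.l (nat_lit 56) (nat_lit 0)) (T.n (T.l (nat_lit 57) (nat_lit 0)) (T.l (nat_lit 58) (nat_lit 0)))))))
def T4_0 : T := T.n (T.n (T.n (T.n (T.l (nat_lit 1) (nat_lit 1)) (T.l (nat_lit 2) (nat_lit 2))) (T.n (T.l (nat_lit 4) (nat_lit 4)) (T.n (T.l (nat_lit 5) (nat_lit 5)) (T.l (nat_lit 6) (nat_lit 6))))) (T.n (T.n (T.l (nat_lit 7) (nat_lit 7)) (T.l (nat_lit 9) (nat_lit 9))) (T.n (T.l (nat_lit 10) (nat_lit 10)) (T.n (T.l (nat_lit 15) (nat_lit 15)) (T.l (nat_lit 19) (nat_lit 19)))))) (T.n (T.n (T.n (T.l (nat_lit 22) (nat_lit 22)) (T.l (nat_lit 24) (nat_lit 24))) (T.n (T.l (nat_lit 28) (nat_lit 28)) (T.n (T.l (nat_lit 29) (nat_lit 29)) (T.l (nat_lit 37) (nat_lit 37))))) (T.n (T.n (T.l (nat_lit 39) (nat_lit 39)) (T.l (nat_lit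 40) (nat_lit 40))) (T.n (T.l (nat_lit 49) (nat_lit 49)) (T.n (T.l (nat_lit 51) (nat_lit 51)) (T.l (nat_lit 52) (nat_lit 52))))))
def T5_0 : T := T.n (T.n (T.n (T.n (T.l (nat_lit 1) (nat_lit 2)) (T.l (nat_lit 2) (nat_lit 1))) (T.n (T.l (nat_lit 4) (nat_lit 6)) (T.n (T.l (nat_lit 5) (nat_lit 9)) (T.l (nat_lit 6) (nat_lit 4))))) (T.n (T.n (T.l (nat_lit 7) (nat_lit 10)) (T.l (nat_lit 9) (nat_lit 5))) (T.n (T.l (nat_lit 10) (nat_lit 7)) (T.n (T.l (nat_lit 15) (nat_lit 24)) (T.l (nat_lit 19) (nat_lit 37)))))) (T.n (T.n (T.n (T.l (nat_lit 22) (nat_lit 49)) (T.l (nat_lit 24) (nat_lit 15))) (T.n (T.l (nat_lit 28) (nat_lit 39)) (T.n (T.l (nat_lit 29) (nat_lit 51)) (T.l (nat_lit 37) (nat_lit 19))))) (T.n (T.n (T.l (nat_lit 39) (nat_lit 28)) (T.l (nat_lit 40) (nat_lit 52))) (T.n (T.l (nat_lit 49) (nat_lit 22)) (T.n (T.l (nat_lit 51) (nat_lit 29)) (T.l (nat_lit 52) (nat_lit 40))))))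
def T6_0 : T := T.n (T.n (T.n (T.n (T.n (T.n (T.n (T.l (nat_lit 1) (nat_lit 3)) (T.n (T.l (nat_lit 1) (nat_lit 8)) (T.l (nat_lit 1) (nat_lit 11)))) (T.n (T.n (T.l (nat_lit 1) (nat_lit 27)) (T.l (nat_lit 1) (nat_lit 41))) (T.n (T.l (nat_lit 1) (nat_lit 53)) (T.l (nat_lit 2) (nat_lit 3))))) (T.n (T.n (T.n (T.l (nat_lit 2) (nat_lit 8)) (T.l (nat_lit 2) (nat_lit 11))) (T.n (T.l (nat_lit 2) (nat_lit 27)) (T.l (nat_lit 2) (nat_lit 41)))) (T.n (T.n (T.l (nat_lit 2) (nat_lit 53)) (T.l (nat_lit 3) (nat_lit 1))) (T.n (T.l (nat_lit 3) (nat_lit 2)) (T.l (nat_lit 3) (nat_lit 4)))))) (T.n (T.n (T.n (T.l (nat_lit 3) (nat_lit 5)) (T.n (T.l (nat_lit 3) (nat_lit 6)) (T.l (nat_lit 3) (nat_lit 7)))) (T.n (T.n (T.l (nat_lit 3) (nat_lit 9)) (T.l (nat_lit 3) (nat_lit 10))) (T.n (T.l (nat_lit 4) (nat_lit 3)) (T.l (nat_lit 4) (nat_lit 8))))) (T.n (T.n (T.n (T.l (nat_lit 4) (nat_lit 11)) (T.l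 (nat_lit 4) (nat_lit 13))) (T.n (T.l (nat_lit 4) (nat_lit 30)) (T.l (nat_lit 4) (nat_lit 43)))) (T.n (T.n (T.l (nat_lit 5) (nat_lit 3)) (T.l (nat_lit 5) (nat_lit 8))) (T.n (T.l (nat_lit 5) (nat_lit 11)) (T.l (nat_lit 5) (nat_lit 14))))))) (T.n (T.n (T.n (T.n (T.l (nat_lit 5) (nat_lit 33)) (T.n (T.l (nat_lit 5) (nat_lit 55)) (T.l (nat_lit 6) (nat_lit 3)))) (T.n (T.n (T.l (nat_lit 6) (nat_lit 8)) (T.l (nat_lit 6) (nat_lit 11))) (T.n (T.l (nat_lit 6) (nat_lit 13)) (T.l (nat_lit 6) (nat_lit 30))))) (T.n (T.n (T.n (T.l (nat_lit 6) (nat_lit 43)) (T.l (nat_lit 7) (nat_lit 3))) (T.n (T.l (nat_lit 7) (nat_lit 8)) (T.l (nat_lit 7) (nat_lit 11)))) (T.n (T.n (T.l (nat_lit 7) (nat_lit 12)) (T.l (nat_lit 7) (nat_lit 47))) (T.n (T.l (nat_lit 7) (nat_lit 59)) (T.l (nat_lit 8) (nat_lit 1)))))) (T.n (T.n (T.n (T.l (nat_lit 8) (nat_lit 2)) (T.n (T.l (nat_lit 8) (nat_lit 4)) (T.l (nat_lit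 8) (nat_lit 5)))) (T.n (T.n (T.l (nat_lit 8) (nat_lit 6)) (T.l (nat_lit 8) (nat_lit 7))) (T.n (T.l (nat_lit 8) (nat_lit 9)) (T.l (nat_lit 8) (nat_lit 10))))) (T.n (T.n (T.n (T.l (nat_lit 9) (nat_lit 3)) (T.l (nat_lit 9) (nat_lit 8))) (T.n (T.l (nat_lit 9) (nat_lit 11)) (T.l (nat_lit 9) (nat_lit 14)))) (T.n (T.n (T.l (nat_lit 9) (nat_lit 33)) (T.l (nat_lit 9) (nat_lit 55))) (T.n (T.l (nat_lit 10) (nat_lit 3)) (T.l (nat_lit 10) (nat_lit 8)))))))) (T.n (T.n (T.n (T.n (T.n (T.l (nat_lit 10) (nat_lit 11)) (T.n (T.l (nat_lit 10) (nat_lit 12)) (T.l (nat_lit 10) (nat_lit 47)))) (T.n (T.n (T.l (nat_lit 10) (nat_lit 59)) (T.l (nat_lit 11) (nat_lit 1))) (T.n (T.l (nat_lit 11) (nat_lit 2)) (T.l (nat_lit 11) (nat_lit 4))))) (T.n (T.n (T.n (T.l (nat_lit 11) (nat_lit 5)) (T.l (nat_lit 11) (nat_lit 6))) (T.n (T.l (nat_lit 11) (nat_lit 7)) (T.l (nat_lit 11) (nat_lit 9)))) (T.n (T.n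 (T.l (nat_lit 11) (nat_lit 10)) (T.l (nat_lit 12) (nat_lit 7))) (T.n (T.l (nat_lit 12) (nat_lit 10)) (T.l (nat_lit 12) (nat_lit 19)))))) (T.n (T.n (T.n (T.l (nat_lit 12) (nat_lit 22)) (T.n (T.l (nat_lit 12) (nat_lit 37)) (T.l (nat_lit 12) (nat_lit 40)))) (T.n (T.n (T.l (nat_lit 12) (nat_lit 49)) (T.l (nat_lit 12) (nat_lit 52))) (T.n (T.l (nat_lit 13) (nat_lit 4)) (T.l (nat_lit 13) (nat_lit 6))))) (T.n (T.n (T.n (T.l (nat_lit 13) (nat_lit 15)) (T.l (nat_lit 13) (nat_lit 19))) (T.n (T.l (nat_lit 13) (nat_lit 24)) (T.l (nat_lit 13) (nat_lit 28)))) (T.n (T.n (T.l (nat_lit 13) (nat_lit 37)) (T.l (nat_lit 13) (nat_lit 39))) (T.n (T.l (nat_lit 14) (nat_lit 5)) (T.l (nat_lit 14) (nat_lit 9))))))) (T.n (T.n (T.n (T.n (T.l (nat_lit 14) (nat_lit 15)) (T.n (T.l (nat_lit 14) (nat_lit 22)) (T.l (nat_lit 14) (nat_lit 24)))) (T.n (T.n (T.l (nat_lit 14) (nat_lit 29)) (T.l (nat_lit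 14) (nat_lit 49))) (T.n (T.l (nat_lit 14) (nat_lit 51)) (T.l (nat_lit 15) (nat_lit 13))))) (T.n (T.n (T.n (T.l (nat_lit 15) (nat_lit 14)) (T.l (nat_lit 15) (nat_lit 30))) (T.n (T.l (nat_lit 15) (nat_lit 33)) (T.l (nat_lit 15) (nat_lit 43)))) (T.n (T.n (T.l (nat_lit 15) (nat_lit 55)) (T.l (nat_lit 19) (nat_lit 12))) (T.n (T.l (nat_lit 19) (nat_lit 13)) (T.l (nat_lit 19) (nat_lit 30)))))) (T.n (T.n (T.n (T.l (nat_lit 19) (nat_lit 43)) (T.n (T.l (nat_lit 19) (nat_lit 47)) (T.l (nat_lit 19) (nat_lit 59)))) (T.n (T.n (T.l (nat_lit 22) (nat_lit 12)) (T.l (nat_lit 22) (nat_lit 14))) (T.n (T.l (nat_lit 22) (nat_lit 33)) (T.l (nat_lit 22) (nat_lit 47))))) (T.n (T.n (T.n (T.l (nat_lit 22) (nat_lit 55)) (T.l (nat_lit 22) (nat_lit 59))) (T.n (T.l (nat_lit 24) (nat_lit 13)) (T.l (nat_lit 24) (nat_lit 14)))) (T.n (T.n (T.l (nat_lit 24) (nat_lit 30)) (T.l (nat_lit 24) (nat_lit 33)))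 (T.n (T.l (nat_lit 24) (nat_lit 43)) (T.l (nat_lit 24) (nat_lit 55))))))))) (T.n (T.n (T.n (T.n (T.n (T.n (T.l (nat_lit 27) (nat_lit 1)) (T.n (T.l (nat_lit 27) (nat_lit 2)) (T.l (nat_lit 27) (nat_lit 28)))) (T.n (T.n (T.l (nat_lit 27) (nat_lit 29)) (T.l (nat_lit 27) (nat_lit 39))) (T.n (T.l (nat_lit 27) (nat_lit 40)) (T.l (nat_lit 27) (nat_lit 51))))) (T.n (T.n (T.n (T.l (nat_lit 27) (nat_lit 52)) (T.l (nat_lit 28) (nat_lit 13))) (T.n (T.l (nat_lit 28) (nat_lit 27)) (T.l (nat_lit 28) (nat_lit 30)))) (T.n (T.n (T.l (nat_lit 28) (nat_lit 41)) (T.l (nat_lit 28) (nat_lit 43))) (T.n (T.l (nat_lit 28) (nat_lit 53)) (T.l (nat_lit 29) (nat_lit 14)))))) (T.n (T.n (T.n (T.l (nat_lit 29) (nat_lit 27)) (T.n (T.l (nat_lit 29) (nat_lit 33)) (T.l (nat_lit 29) (nat_lit 41)))) (T.n (T.n (T.l (nat_lit 29) (nat_lit 53)) (T.l (nat_lit 29) (nat_lit 55))) (T.n (T.l (nat_lit 30) (nat_lit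 4)) (T.l (nat_lit 30) (nat_lit 6))))) (T.n (T.n (T.n (T.l (nat_lit 30) (nat_lit 15)) (T.l (nat_lit 30) (nat_lit 19))) (T.n (T.l (nat_lit 30) (nat_lit 24)) (T.l (nat_lit 30) (nat_lit 28)))) (T.n (T.n (T.l (nat_lit 30) (nat_lit 37)) (T.l (nat_lit 30) (nat_lit 39))) (T.n (T.l (nat_lit 33) (nat_lit 5)) (T.l (nat_lit 33) (nat_lit 9))))))) (T.n (T.n (T.n (T.n (T.l (nat_lit 33) (nat_lit 15)) (T.n (T.l (nat_lit 33) (nat_lit 22)) (T.l (nat_lit 33) (nat_lit 24)))) (T.n (T.n (T.l (nat_lit 33) (nat_lit 29)) (T.l (nat_lit 33) (nat_lit 49))) (T.n (T.l (nat_lit 33) (nat_lit 51)) (T.l (nat_lit 37) (nat_lit 12))))) (T.n (T.n (T.n (T.l (nat_lit 37) (nat_lit 13)) (T.l (nat_lit 37) (nat_lit 30))) (T.n (T.l (nat_lit 37) (nat_lit 43)) (T.l (nat_lit 37) (nat_lit 47)))) (T.n (T.n (T.l (nat_lit 37) (nat_lit 59)) (T.l (nat_lit 39) (nat_lit 13))) (T.n (T.l (nat_lit 39) (nat_lit 27)) (T.l (nat_lit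 39) (nat_lit 30)))))) (T.n (T.n (T.n (T.l (nat_lit 39) (nat_lit 41)) (T.n (T.l (nat_lit 39) (nat_lit 43)) (T.l (nat_lit 39) (nat_lit 53)))) (T.n (T.n (T.l (nat_lit 40) (nat_lit 12)) (T.l (nat_lit 40) (nat_lit 27))) (T.n (T.l (nat_lit 40) (nat_lit 41)) (T.l (nat_lit 40) (nat_lit 47))))) (T.n (T.n (T.n (T.l (nat_lit 40) (nat_lit 53)) (T.l (nat_lit 40) (nat_lit 59))) (T.n (T.l (nat_lit 41) (nat_lit 1)) (T.l (nat_lit 41) (nat_lit 2)))) (T.n (T.n (T.l (nat_lit 41) (nat_lit 28)) (T.l (nat_lit 41) (nat_lit 29))) (T.n (T.l (nat_lit 41) (nat_lit 39)) (T.l (nat_lit 41) (nat_lit 40)))))))) (T.n (T.n (T.n (T.n (T.n (T.l (nat_lit 41) (nat_lit 51)) (T.n (T.l (nat_lit 41) (nat_lit 52)) (T.l (nat_lit 43) (nat_lit 4)))) (T.n (T.n (T.l (nat_lit 43) (nat_lit 6)) (T.l (nat_lit 43) (nat_lit 15))) (T.n (T.l (nat_lit 43) (nat_lit 19)) (T.l (nat_lit 43) (nat_lit 24))))) (T.n (T.n (T.n (T.l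 (nat_lit 43) (nat_lit 28)) (T.l (nat_lit 43) (nat_lit 37))) (T.n (T.l (nat_lit 43) (nat_lit 39)) (T.l (nat_lit 47) (nat_lit 7)))) (T.n (T.n (T.l (nat_lit 47) (nat_lit 10)) (T.l (nat_lit 47) (nat_lit 19))) (T.n (T.l (nat_lit 47) (nat_lit 22)) (T.l (nat_lit 47) (nat_lit 37)))))) (T.n (T.n (T.n (T.l (nat_lit 47) (nat_lit 40)) (T.n (T.l (nat_lit 47) (nat_lit 49)) (T.l (nat_lit 47) (nat_lit 52)))) (T.n (T.n (T.l (nat_lit 49) (nat_lit 12)) (T.l (nat_lit 49) (nat_lit 14))) (T.n (T.l (nat_lit 49) (nat_lit 33)) (T.l (nat_lit 49) (nat_lit 47))))) (T.n (T.n (T.n (T.l (nat_lit 49) (nat_lit 55)) (T.l (nat_lit 49) (nat_lit 59))) (T.n (T.l (nat_lit 51) (nat_lit 14)) (T.l (nat_lit 51) (nat_lit 27)))) (T.n (T.n (T.l (nat_lit 51) (nat_lit 33)) (T.l (nat_lit 51) (nat_lit 41))) (T.n (T.l (nat_lit 51) (nat_lit 53)) (T.l (nat_lit 51) (nat_lit 55))))))) (T.n (T.n (T.n (T.n (T.l (nat_lit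 52) (nat_lit 12)) (T.n (T.l (nat_lit 52) (nat_lit 27)) (T.l (nat_lit 52) (nat_lit 41)))) (T.n (T.n (T.l (nat_lit 52) (nat_lit 47)) (T.l (nat_lit 52) (nat_lit 53))) (T.n (T.l (nat_lit 52) (nat_lit 59)) (T.l (nat_lit 53) (nat_lit 1))))) (T.n (T.n (T.n (T.l (nat_lit 53) (nat_lit 2)) (T.l (nat_lit 53) (nat_lit 28))) (T.n (T.l (nat_lit 53) (nat_lit 29)) (T.l (nat_lit 53) (nat_lit 39)))) (T.n (T.n (T.l (nat_lit 53) (nat_lit 40)) (T.l (nat_lit 53) (nat_lit 51))) (T.n (T.l (nat_lit 53) (nat_lit 52)) (T.l (nat_lit 55) (nat_lit 5)))))) (T.n (T.n (T.n (T.l (nat_lit 55) (nat_lit 9)) (T.n (T.l (nat_lit 55) (nat_lit 15)) (T.l (nat_lit 55) (nat_lit 22)))) (T.n (T.n (T.l (nat_lit 55) (nat_lit 24)) (T.l (nat_lit 55) (nat_lit 29))) (T.n (T.l (nat_lit 55) (nat_lit 49)) (T.l (nat_lit 55) (nat_lit 51))))) (T.n (T.n (T.n (T.l (nat_lit 59) (nat_lit 7)) (T.l (nat_lit 59) (nat_lit 10))) (T.n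 (T.l (nat_lit 59) (nat_lit 19)) (T.l (nat_lit 59) (nat_lit 22)))) (T.n (T.n (T.l (nat_lit 59) (nat_lit 37)) (T.l (nat_lit 59) (nat_lit 40))) (T.n (T.l (nat_lit 59) (nat_lit 49)) (T.l (nat_lit 59) (nat_lit 52)))))))))
def T7_0 : T := T.n (T.n (T.n (T.n (T.n (T.n (T.l (nat_lit 1) (nat_lit 4)) (T.n (T.l (nat_lit 1) (nat_lit 7)) (T.l (nat_lit 1) (nat_lit 9)))) (T.n (T.n (T.l (nat_lit 1) (nat_lit 28)) (T.l (nat_lit 1) (nat_lit 40))) (T.n (T.l (nat_lit 1) (nat_lit 51)) (T.l (nat_lit 2) (nat_lit 5))))) (T.n (T.n (T.n (T.l (nat_lit 2) (nat_lit 6)) (T.l (nat_lit 2) (nat_lit 10))) (T.n (T.l (nat_lit 2) (nat_lit 29)) (T.l (nat_lit 2) (nat_lit 39)))) (T.n (T.n (T.l (nat_lit 2) (nat_lit 52)) (T.l (nat_lit 4) (nat_lit 1))) (T.n (T.l (nat_lit 4) (nat_lit 5)) (T.l (nat_lit 4) (nat_lit 10)))))) (T.n (T.n (T.n (T.l (nat_lit 4) (nat_lit 15)) (T.n (T.l (nat_lit 4) (nat_lit 28)) (T.l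 (nat_lit 4) (nat_lit 37)))) (T.n (T.n (T.l (nat_lit 5) (nat_lit 2)) (T.l (nat_lit 5) (nat_lit 4))) (T.n (T.l (nat_lit 5) (nat_lit 7)) (T.l (nat_lit 5) (nat_lit 15))))) (T.n (T.n (T.n (T.l (nat_lit 5) (nat_lit 29)) (T.l (nat_lit 5) (nat_lit 49))) (T.n (T.l (nat_lit 6) (nat_lit 2)) (T.l (nat_lit 6) (nat_lit 7)))) (T.n (T.n (T.l (nat_lit 6) (nat_lit 9)) (T.l (nat_lit 6) (nat_lit 19))) (T.n (T.l (nat_lit 6) (nat_lit 24)) (T.l (nat_lit 6) (nat_lit 39))))))) (T.n (T.n (T.n (T.n (T.l (nat_lit 7) (nat_lit 1)) (T.n (T.l (nat_lit 7) (nat_lit 5)) (T.l (nat_lit 7) (nat_lit 6)))) (T.n (T.n (T.l (nat_lit 7) (nat_lit 19)) (T.l (nat_lit 7) (nat_lit 40))) (T.n (T.l (nat_lit 7) (nat_lit 49)) (T.l (nat_lit 9) (nat_lit 1))))) (T.n (T.n (T.n (T.l (nat_lit 9) (nat_lit 6)) (T.l (nat_lit 9) (nat_lit 10))) (T.n (T.l (nat_lit 9) (nat_lit 22)) (T.l (nat_lit 9) (nat_lit 24)))) (T.n (T.n (T.l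 (nat_lit 9) (nat_lit 51)) (T.l (nat_lit 10) (nat_lit 2))) (T.n (T.l (nat_lit 10) (nat_lit 4)) (T.l (nat_lit 10) (nat_lit 9)))))) (T.n (T.n (T.n (T.l (nat_lit 10) (nat_lit 22)) (T.n (T.l (nat_lit 10) (nat_lit 37)) (T.l (nat_lit 10) (nat_lit 52)))) (T.n (T.n (T.l (nat_lit 15) (nat_lit 4)) (T.l (nat_lit 15) (nat_lit 5))) (T.n (T.l (nat_lit 15) (nat_lit 19)) (T.l (nat_lit 15) (nat_lit 22))))) (T.n (T.n (T.n (T.l (nat_lit 15) (nat_lit 39)) (T.l (nat_lit 15) (nat_lit 51))) (T.n (T.l (nat_lit 19) (nat_lit 6)) (T.l (nat_lit 19) (nat_lit 7)))) (T.n (T.n (T.l (nat_lit 19) (nat_lit 15)) (T.l (nat_lit 19) (nat_lit 22))) (T.n (T.l (nat_lit 19) (nat_lit 28)) (T.l (nat_lit 19) (nat_lit 52)))))))) (T.n (T.n (T.n (T.n (T.n (T.l (nat_lit 22) (nat_lit 9)) (T.n (T.l (nat_lit 22) (nat_lit 10)) (T.l (nat_lit 22) (nat_lit 15)))) (T.n (T.n (T.l (nat_lit 22) (nat_lit 19)) (T.l (nat_lit 22)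 (nat_lit 29))) (T.n (T.l (nat_lit 22) (nat_lit 40)) (T.l (nat_lit 24) (nat_lit 6))))) (T.n (T.n (T.n (T.l (nat_lit 24) (nat_lit 9)) (T.l (nat_lit 24) (nat_lit 28))) (T.n (T.l (nat_lit 24) (nat_lit 29)) (T.l (nat_lit 24) (nat_lit 37)))) (T.n (T.n (T.l (nat_lit 24) (nat_lit 49)) (T.l (nat_lit 28) (nat_lit 1))) (T.n (T.l (nat_lit 28) (nat_lit 4)) (T.l (nat_lit 28) (nat_lit 19)))))) (T.n (T.n (T.n (T.l (nat_lit 28) (nat_lit 24)) (T.n (T.l (nat_lit 28) (nat_lit 29)) (T.l (nat_lit 28) (nat_lit 52)))) (T.n (T.n (T.l (nat_lit 29) (nat_lit 2)) (T.l (nat_lit 29) (nat_lit 5))) (T.n (T.l (nat_lit 29) (nat_lit 22)) (T.l (nat_lit 29) (nat_lit 24))))) (T.n (T.n (T.n (T.l (nat_lit 29) (nat_lit 28)) (T.l (nat_lit 29) (nat_lit 40))) (T.n (T.l (nat_lit 37) (nat_lit 4)) (T.l (nat_lit 37) (nat_lit 10)))) (T.n (T.n (T.l (nat_lit 37) (nat_lit 24)) (T.l (nat_lit 37) (nat_lit 39))) (T.n (T.l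 (nat_lit 37) (nat_lit 40)) (T.l (nat_lit 37) (nat_lit 49))))))) (T.n (T.n (T.n (T.n (T.l (nat_lit 39) (nat_lit 2)) (T.n (T.l (nat_lit 39) (nat_lit 6)) (T.l (nat_lit 39) (nat_lit 15)))) (T.n (T.n (T.l (nat_lit 39) (nat_lit 37)) (T.l (nat_lit 39) (nat_lit 40))) (T.n (T.l (nat_lit 39) (nat_lit 51)) (T.l (nat_lit 40) (nat_lit 1))))) (T.n (T.n (T.n (T.l (nat_lit 40) (nat_lit 7)) (T.l (nat_lit 40) (nat_lit 22))) (T.n (T.l (nat_lit 40) (nat_lit 29)) (T.l (nat_lit 40) (nat_lit 37)))) (T.n (T.n (T.l (nat_lit 40) (nat_lit 39)) (T.l (nat_lit 49) (nat_lit 5))) (T.n (T.l (nat_lit 49) (nat_lit 7)) (T.l (nat_lit 49) (nat_lit 24)))))) (T.n (T.n (T.n (T.l (nat_lit 49) (nat_lit 37)) (T.n (T.l (nat_lit 49) (nat_lit 51)) (T.l (nat_lit 49) (nat_lit 52)))) (T.n (T.n (T.l (nat_lit 51) (nat_lit 1)) (T.l (nat_lit 51) (nat_lit 9))) (T.n (T.l (nat_lit 51) (nat_lit 15)) (T.l (nat_lit 51) (nat_lit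 39))))) (T.n (T.n (T.n (T.l (nat_lit 51) (nat_lit 49)) (T.l (nat_lit 51) (nat_lit 52))) (T.n (T.l (nat_lit 52) (nat_lit 2)) (T.l (nat_lit 52) (nat_lit 10)))) (T.n (T.n (T.l (nat_lit 52) (nat_lit 19)) (T.l (nat_lit 52) (nat_lit 28))) (T.n (T.l (nat_lit 52) (nat_lit 49)) (T.l (nat_lit 52) (nat_lit 51))))))))
def T8_0 : T := T.n (T.n (T.n (T.n (T.n (T.n (T.l (nat_lit 1) (nat_lit 5)) (T.n (T.l (nat_lit 1) (nat_lit 6)) (T.l (nat_lit 1) (nat_lit 10)))) (T.n (T.n (T.l (nat_lit 1) (nat_lit 29)) (T.l (nat_lit 1) (nat_lit 39))) (T.n (T.l (nat_lit 1) (nat_lit 52)) (T.l (nat_lit 2) (nat_lit 4))))) (T.n (T.n (T.n (T.l (nat_lit 2) (nat_lit 7)) (T.l (nat_lit 2) (nat_lit 9))) (T.n (T.l (nat_lit 2) (nat_lit 28)) (T.l (nat_lit 2) (nat_lit 40)))) (T.n (T.n (T.l (nat_lit 2) (nat_lit 51)) (T.l (nat_lit 4) (nat_lit 2))) (T.n (T.l (nat_lit 4) (nat_lit 7)) (T.l (nat_lit 4) (nat_lit 9))))))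 (T.n (T.n (T.n (T.l (nat_lit 4) (nat_lit 19)) (T.n (T.l (nat_lit 4) (nat_lit 24)) (T.l (nat_lit 4) (nat_lit 39)))) (T.n (T.n (T.l (nat_lit 5) (nat_lit 1)) (T.l (nat_lit 5) (nat_lit 6))) (T.n (T.l (nat_lit 5) (nat_lit 10)) (T.l (nat_lit 5) (nat_lit 22))))) (T.n (T.n (T.n (T.l (nat_lit 5) (nat_lit 24)) (T.l (nat_lit 5) (nat_lit 51))) (T.n (T.l (nat_lit 6) (nat_lit 1)) (T.l (nat_lit 6) (nat_lit 5)))) (T.n (T.n (T.l (nat_lit 6) (nat_lit 10)) (T.l (nat_lit 6) (nat_lit 15))) (T.n (T.l (nat_lit 6) (nat_lit 28)) (T.l (nat_lit 6) (nat_lit 37))))))) (T.n (T.n (T.n (T.n (T.l (nat_lit 7) (nat_lit 2)) (T.n (T.l (nat_lit 7) (nat_lit 4)) (T.l (nat_lit 7) (nat_lit 9)))) (T.n (T.n (T.l (nat_lit 7) (nat_lit 22)) (T.l (nat_lit 7) (nat_lit 37))) (T.n (T.l (nat_lit 7) (nat_lit 52)) (T.l (nat_lit 9) (nat_lit 2))))) (T.n (T.n (T.n (T.l (nat_lit 9) (nat_lit 4)) (T.l (nat_lit 9) (nat_lit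 7))) (T.n (T.l (nat_lit 9) (nat_lit 15)) (T.l (nat_lit 9) (nat_lit 29)))) (T.n (T.n (T.l (nat_lit 9) (nat_lit 49)) (T.l (nat_lit 10) (nat_lit 1))) (T.n (T.l (nat_lit 10) (nat_lit 5)) (T.l (nat_lit 10) (nat_lit 6)))))) (T.n (T.n (T.n (T.l (nat_lit 10) (nat_lit 19)) (T.n (T.l (nat_lit 10) (nat_lit 40)) (T.l (nat_lit 10) (nat_lit 49)))) (T.n (T.n (T.l (nat_lit 15) (nat_lit 6)) (T.l (nat_lit 15) (nat_lit 9))) (T.n (T.l (nat_lit 15) (nat_lit 28)) (T.l (nat_lit 15) (nat_lit 29))))) (T.n (T.n (T.n (T.l (nat_lit 15) (nat_lit 37)) (T.l (nat_lit 15) (nat_lit 49))) (T.n (T.l (nat_lit 19) (nat_lit 4)) (T.l (nat_lit 19) (nat_lit 10)))) (T.n (T.n (T.l (nat_lit 19) (nat_lit 24)) (T.l (nat_lit 19) (nat_lit 39))) (T.n (T.l (nat_lit 19) (nat_lit 40)) (T.l (nat_lit 19) (nat_lit 49)))))))) (T.n (T.n (T.n (T.n (T.n (T.l (nat_lit 22) (nat_lit 5)) (T.n (T.l (nat_lit 22) (nat_lit 7)) (T.l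 (nat_lit 22) (nat_lit 24)))) (T.n (T.n (T.l (nat_lit 22) (nat_lit 37)) (T.l (nat_lit 22) (nat_lit 51))) (T.n (T.l (nat_lit 22) (nat_lit 52)) (T.l (nat_lit 24) (nat_lit 4))))) (T.n (T.n (T.n (T.l (nat_lit 24) (nat_lit 5)) (T.l (nat_lit 24) (nat_lit 19))) (T.n (T.l (nat_lit 24) (nat_lit 22)) (T.l (nat_lit 24) (nat_lit 39)))) (T.n (T.n (T.l (nat_lit 24) (nat_lit 51)) (T.l (nat_lit 28) (nat_lit 2))) (T.n (T.l (nat_lit 28) (nat_lit 6)) (T.l (nat_lit 28) (nat_lit 15)))))) (T.n (T.n (T.n (T.l (nat_lit 28) (nat_lit 37)) (T.n (T.l (nat_lit 28) (nat_lit 40)) (T.l (nat_lit 28) (nat_lit 51)))) (T.n (T.n (T.l (nat_lit 29) (nat_lit 1)) (T.l (nat_lit 29) (nat_lit 9))) (T.n (T.l (nat_lit 29) (nat_lit 15)) (T.l (nat_lit 29) (nat_lit 39))))) (T.n (T.n (T.n (T.l (nat_lit 29) (nat_lit 49)) (T.l (nat_lit 29) (nat_lit 52))) (T.n (T.l (nat_lit 37) (nat_lit 6)) (T.l (nat_lit 37) (nat_lit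 7)))) (T.n (T.n (T.l (nat_lit 37) (nat_lit 15)) (T.l (nat_lit 37) (nat_lit 22))) (T.n (T.l (nat_lit 37) (nat_lit 28)) (T.l (nat_lit 37) (nat_lit 52))))))) (T.n (T.n (T.n (T.n (T.l (nat_lit 39) (nat_lit 1)) (T.n (T.l (nat_lit 39) (nat_lit 4)) (T.l (nat_lit 39) (nat_lit 19)))) (T.n (T.n (T.l (nat_lit 39) (nat_lit 24)) (T.l (nat_lit 39) (nat_lit 29))) (T.n (T.l (nat_lit 39) (nat_lit 52)) (T.l (nat_lit 40) (nat_lit 2))))) (T.n (T.n (T.n (T.l (nat_lit 40) (nat_lit 10)) (T.l (nat_lit 40) (nat_lit 19))) (T.n (T.l (nat_lit 40) (nat_lit 28)) (T.l (nat_lit 40) (nat_lit 49)))) (T.n (T.n (T.l (nat_lit 40) (nat_lit 51)) (T.l (nat_lit 49) (nat_lit 9))) (T.n (T.l (nat_lit 49) (nat_lit 10)) (T.l (nat_lit 49) (nat_lit 15)))))) (T.n (T.n (T.n (T.l (nat_lit 49) (nat_lit 19)) (T.n (T.l (nat_lit 49) (nat_lit 29)) (T.l (nat_lit 49) (nat_lit 40)))) (T.n (T.n (T.l (nat_lit 51) (nat_lit 2))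 (T.l (nat_lit 51) (nat_lit 5))) (T.n (T.l (nat_lit 51) (nat_lit 22)) (T.l (nat_lit 51) (nat_lit 24))))) (T.n (T.n (T.n (T.l (nat_lit 51) (nat_lit 28)) (T.l (nat_lit 51) (nat_lit 40))) (T.n (T.l (nat_lit 52) (nat_lit 1)) (T.l (nat_lit 52) (nat_lit 7)))) (T.n (T.n (T.l (nat_lit 52) (nat_lit 22)) (T.l (nat_lit 52) (nat_lit 29))) (T.n (T.l (nat_lit 52) (nat_lit 37)) (T.l (nat_lit 52) (nat_lit 39))))))))
def T9_0 : T := T.n (T.n (T.n (T.n (T.n (T.n (T.l (nat_lit 1) (nat_lit 12)) (T.n (T.l (nat_lit 1) (nat_lit 13)) (T.l (nat_lit 1) (nat_lit 14)))) (T.n (T.n (T.l (nat_lit 2) (nat_lit 12)) (T.l (nat_lit 2) (nat_lit 13))) (T.n (T.l (nat_lit 2) (nat_lit 14)) (T.l (nat_lit 3) (nat_lit 15))))) (T.n (T.n (T.n (T.l (nat_lit 3) (nat_lit 24)) (T.l (nat_lit 3) (nat_lit 40))) (T.n (T.l (nat_lit 3) (nat_lit 52)) (T.l (nat_lit 4) (nat_lit 53)))) (T.n (T.n (T.l (nat_lit 4) (nat_lit 55))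 (T.l (nat_lit 4) (nat_lit 59))) (T.n (T.l (nat_lit 5) (nat_lit 41)) (T.l (nat_lit 5) (nat_lit 43)))))) (T.n (T.n (T.n (T.l (nat_lit 5) (nat_lit 47)) (T.n (T.l (nat_lit 6) (nat_lit 53)) (T.l (nat_lit 6) (nat_lit 55)))) (T.n (T.n (T.l (nat_lit 6) (nat_lit 59)) (T.l (nat_lit 7) (nat_lit 27))) (T.n (T.l (nat_lit 7) (nat_lit 30)) (T.l (nat_lit 7) (nat_lit 33))))) (T.n (T.n (T.n (T.l (nat_lit 8) (nat_lit 19)) (T.l (nat_lit 8) (nat_lit 29))) (T.n (T.l (nat_lit 8) (nat_lit 37)) (T.l (nat_lit 8) (nat_lit 51)))) (T.n (T.n (T.l (nat_lit 9) (nat_lit 41)) (T.l (nat_lit 9) (nat_lit 43))) (T.n (T.l (nat_lit 9) (nat_lit 47)) (T.l (nat_lit 10) (nat_lit 27))))))) (T.n (T.n (T.n (T.n (T.l (nat_lit 10) (nat_lit 30)) (T.n (T.l (nat_lit 10) (nat_lit 33)) (T.l (nat_lit 11) (nat_lit 22)))) (T.n (T.n (T.l (nat_lit 11) (nat_lit 28)) (T.l (nat_lit 11) (nat_lit 39))) (T.n (T.l (nat_lit 11) (nat_lit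 49)) (T.l (nat_lit 12) (nat_lit 1))))) (T.n (T.n (T.n (T.l (nat_lit 12) (nat_lit 2)) (T.l (nat_lit 12) (nat_lit 15))) (T.n (T.l (nat_lit 12) (nat_lit 24)) (T.l (nat_lit 13) (nat_lit 1)))) (T.n (T.n (T.l (nat_lit 13) (nat_lit 2)) (T.l (nat_lit 13) (nat_lit 22))) (T.n (T.l (nat_lit 13) (nat_lit 49)) (T.l (nat_lit 14) (nat_lit 1)))))) (T.n (T.n (T.n (T.l (nat_lit 14) (nat_lit 2)) (T.n (T.l (nat_lit 14) (nat_lit 19)) (T.l (nat_lit 14) (nat_lit 37)))) (T.n (T.n (T.l (nat_lit 15) (nat_lit 3)) (T.l (nat_lit 15) (nat_lit 12))) (T.n (T.l (nat_lit 15) (nat_lit 27)) (T.l (nat_lit 19) (nat_lit 8))))) (T.n (T.n (T.n (T.l (nat_lit 19) (nat_lit 14)) (T.l (nat_lit 19) (nat_lit 41))) (T.n (T.l (nat_lit 22) (nat_lit 11)) (T.l (nat_lit 22) (nat_lit 13)))) (T.n (T.n (T.l (nat_lit 22) (nat_lit 53)) (T.l (nat_lit 24) (nat_lit 3))) (T.n (T.l (nat_lit 24) (nat_lit 12)) (T.l (nat_lit 24)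 (nat_lit 27)))))))) (T.n (T.n (T.n (T.n (T.n (T.l (nat_lit 27) (nat_lit 7)) (T.n (T.l (nat_lit 27) (nat_lit 10)) (T.l (nat_lit 27) (nat_lit 15)))) (T.n (T.n (T.l (nat_lit 27) (nat_lit 24)) (T.l (nat_lit 28) (nat_lit 11))) (T.n (T.l (nat_lit 28) (nat_lit 33)) (T.l (nat_lit 28) (nat_lit 47))))) (T.n (T.n (T.n (T.l (nat_lit 29) (nat_lit 8)) (T.l (nat_lit 29) (nat_lit 30))) (T.n (T.l (nat_lit 29) (nat_lit 59)) (T.l (nat_lit 30) (nat_lit 7)))) (T.n (T.n (T.l (nat_lit 30) (nat_lit 10)) (T.l (nat_lit 30) (nat_lit 29))) (T.n (T.l (nat_lit 30) (nat_lit 51)) (T.l (nat_lit 33) (nat_lit 7)))))) (T.n (T.n (T.n (T.l (nat_lit 33) (nat_lit 10)) (T.n (T.l (nat_lit 33) (nat_lit 28)) (T.l (nat_lit 33) (nat_lit 39)))) (T.n (T.n (T.l (nat_lit 37) (nat_lit 8)) (T.l (nat_lit 37) (nat_lit 14))) (T.n (T.l (nat_lit 37) (nat_lit 41)) (T.l (nat_lit 39) (nat_lit 11))))) (T.n (T.n (T.n (T.l (nat_lit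 39) (nat_lit 33)) (T.l (nat_lit 39) (nat_lit 47))) (T.n (T.l (nat_lit 40) (nat_lit 3)) (T.l (nat_lit 40) (nat_lit 43)))) (T.n (T.n (T.l (nat_lit 40) (nat_lit 55)) (T.l (nat_lit 41) (nat_lit 5))) (T.n (T.l (nat_lit 41) (nat_lit 9)) (T.l (nat_lit 41) (nat_lit 19))))))) (T.n (T.n (T.n (T.n (T.l (nat_lit 41) (nat_lit 37)) (T.n (T.l (nat_lit 43) (nat_lit 5)) (T.l (nat_lit 43) (nat_lit 9)))) (T.n (T.n (T.l (nat_lit 43) (nat_lit 40)) (T.l (nat_lit 43) (nat_lit 52))) (T.n (T.l (nat_lit 47) (nat_lit 5)) (T.l (nat_lit 47) (nat_lit 9))))) (T.n (T.n (T.n (T.l (nat_lit 47) (nat_lit 28)) (T.l (nat_lit 47) (nat_lit 39))) (T.n (T.l (nat_lit 49) (nat_lit 11)) (T.l (nat_lit 49) (nat_lit 13)))) (T.n (T.n (T.l (nat_lit 49) (nat_lit 53)) (T.l (nat_lit 51) (nat_lit 8))) (T.n (T.l (nat_lit 51) (nat_lit 30)) (T.l (nat_lit 51) (nat_lit 59)))))) (T.n (T.n (T.n (T.l (nat_lit 52) (nat_lit 3))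 (T.n (T.l (nat_lit 52) (nat_lit 43)) (T.l (nat_lit 52) (nat_lit 55)))) (T.n (T.n (T.l (nat_lit 53) (nat_lit 4)) (T.l (nat_lit 53) (nat_lit 6))) (T.n (T.l (nat_lit 53) (nat_lit 22)) (T.l (nat_lit 53) (nat_lit 49))))) (T.n (T.n (T.n (T.l (nat_lit 55) (nat_lit 4)) (T.l (nat_lit 55) (nat_lit 6))) (T.n (T.l (nat_lit 55) (nat_lit 40)) (T.l (nat_lit 55) (nat_lit 52)))) (T.n (T.n (T.l (nat_lit 59) (nat_lit 4)) (T.l (nat_lit 59) (nat_lit 6))) (T.n (T.l (nat_lit 59) (nat_lit 29)) (T.l (nat_lit 59) (nat_lit 51))))))))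
def T10_0 : T := T.n (T.n (T.n (T.n (T.n (T.n (T.l (nat_lit 1) (nat_lit 15)) (T.n (T.l (nat_lit 1) (nat_lit 19)) (T.l (nat_lit 1) (nat_lit 22)))) (T.n (T.n (T.l (nat_lit 1) (nat_lit 24)) (T.l (nat_lit 1) (nat_lit 37))) (T.n (T.l (nat_lit 1) (nat_lit 49)) (T.l (nat_lit 2) (nat_lit 15))))) (T.n (T.n (T.n (T.l (nat_lit 2) (nat_lit 19)) (T.l (nat_lit 2) (nat_lit 22))) (T.n (T.l (nat_lit 2) (nat_lit 24)) (T.l (nat_lit 2) (nat_lit 37)))) (T.n (T.n (T.l (nat_lit 2) (nat_lit 49)) (T.l (nat_lit 4) (nat_lit 22))) (T.n (T.l (nat_lit 4) (nat_lit 29)) (T.l (nat_lit 4) (nat_lit 40)))))) (T.n (T.n (T.n (T.l (nat_lit 4) (nat_lit 49)) (T.n (T.l (nat_lit 4) (nat_lit 51)) (T.l (nat_lit 4) (nat_lit 52)))) (T.n (T.n (T.l (nat_lit 5) (nat_lit 19)) (T.l (nat_lit 5) (nat_lit 28))) (T.n (T.l (nat_lit 5) (nat_lit 37)) (T.l (nat_lit 5) (nat_lit 39))))) (T.n (T.n (T.n (T.l (nat_lit 5) (nat_lit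 40)) (T.l (nat_lit 5) (nat_lit 52))) (T.n (T.l (nat_lit 6) (nat_lit 22)) (T.l (nat_lit 6) (nat_lit 29)))) (T.n (T.n (T.l (nat_lit 6) (nat_lit 40)) (T.l (nat_lit 6) (nat_lit 49))) (T.n (T.l (nat_lit 6) (nat_lit 51)) (T.l (nat_lit 6) (nat_lit 52))))))) (T.n (T.n (T.n (T.n (T.l (nat_lit 7) (nat_lit 15)) (T.n (T.l (nat_lit 7) (nat_lit 24)) (T.l (nat_lit 7) (nat_lit 28)))) (T.n (T.n (T.l (nat_lit 7) (nat_lit 29)) (T.l (nat_lit 7) (nat_lit 39))) (T.n (T.l (nat_lit 7) (nat_lit 51)) (T.l (nat_lit 9) (nat_lit 19))))) (T.n (T.n (T.n (T.l (nat_lit 9) (nat_lit 28)) (T.l (nat_lit 9) (nat_lit 37))) (T.n (T.l (nat_lit 9) (nat_lit 39)) (T.l (nat_lit 9) (nat_lit 40)))) (T.n (T.n (T.l (nat_lit 9) (nat_lit 52)) (T.l (nat_lit 10) (nat_lit 15))) (T.n (T.l (nat_lit 10) (nat_lit 24)) (T.l (nat_lit 10) (nat_lit 28)))))) (T.n (T.n (T.n (T.l (nat_lit 10) (nat_lit 29)) (T.n (T.l (nat_lit 10)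 (nat_lit 39)) (T.l (nat_lit 10) (nat_lit 51)))) (T.n (T.n (T.l (nat_lit 15) (nat_lit 1)) (T.l (nat_lit 15) (nat_lit 2))) (T.n (T.l (nat_lit 15) (nat_lit 7)) (T.l (nat_lit 15) (nat_lit 10))))) (T.n (T.n (T.n (T.l (nat_lit 15) (nat_lit 40)) (T.l (nat_lit 15) (nat_lit 52))) (T.n (T.l (nat_lit 19) (nat_lit 1)) (T.l (nat_lit 19) (nat_lit 2)))) (T.n (T.n (T.l (nat_lit 19) (nat_lit 5)) (T.l (nat_lit 19) (nat_lit 9))) (T.n (T.l (nat_lit 19) (nat_lit 29)) (T.l (nat_lit 19) (nat_lit 51)))))))) (T.n (T.n (T.n (T.n (T.n (T.l (nat_lit 22) (nat_lit 1)) (T.n (T.l (nat_lit 22) (nat_lit 2)) (T.l (nat_lit 22) (nat_lit 4)))) (T.n (T.n (T.l (nat_lit 22) (nat_lit 6)) (T.l (nat_lit 22) (nat_lit 28))) (T.n (T.l (nat_lit 22) (nat_lit 39)) (T.l (nat_lit 24) (nat_lit 1))))) (T.n (T.n (T.n (T.l (nat_lit 24) (nat_lit 2)) (T.l (nat_lit 24) (nat_lit 7))) (T.n (T.l (nat_lit 24) (nat_lit 10)) (T.l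 (nat_lit 24) (nat_lit 40)))) (T.n (T.n (T.l (nat_lit 24) (nat_lit 52)) (T.l (nat_lit 28) (nat_lit 5))) (T.n (T.l (nat_lit 28) (nat_lit 7)) (T.l (nat_lit 28) (nat_lit 9)))))) (T.n (T.n (T.n (T.l (nat_lit 28) (nat_lit 10)) (T.n (T.l (nat_lit 28) (nat_lit 22)) (T.l (nat_lit 28) (nat_lit 49)))) (T.n (T.n (T.l (nat_lit 29) (nat_lit 4)) (T.l (nat_lit 29) (nat_lit 6))) (T.n (T.l (nat_lit 29) (nat_lit 7)) (T.l (nat_lit 29) (nat_lit 10))))) (T.n (T.n (T.n (T.l (nat_lit 29) (nat_lit 19)) (T.l (nat_lit 29) (nat_lit 37))) (T.n (T.l (nat_lit 37) (nat_lit 1)) (T.l (nat_lit 37) (nat_lit 2)))) (T.n (T.n (T.l (nat_lit 37) (nat_lit 5)) (T.l (nat_lit 37) (nat_lit 9))) (T.n (T.l (nat_lit 37) (nat_lit 29)) (T.l (nat_lit 37) (nat_lit 51))))))) (T.n (T.n (T.n (T.n (T.l (nat_lit 39) (nat_lit 5)) (T.n (T.l (nat_lit 39) (nat_lit 7)) (T.l (nat_lit 39) (nat_lit 9)))) (T.n (T.n (T.l (nat_lit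 39) (nat_lit 10)) (T.l (nat_lit 39) (nat_lit 22))) (T.n (T.l (nat_lit 39) (nat_lit 49)) (T.l (nat_lit 40) (nat_lit 4))))) (T.n (T.n (T.n (T.l (nat_lit 40) (nat_lit 5)) (T.l (nat_lit 40) (nat_lit 6))) (T.n (T.l (nat_lit 40) (nat_lit 9)) (T.l (nat_lit 40) (nat_lit 15)))) (T.n (T.n (T.l (nat_lit 40) (nat_lit 24)) (T.l (nat_lit 49) (nat_lit 1))) (T.n (T.l (nat_lit 49) (nat_lit 2)) (T.l (nat_lit 49) (nat_lit 4)))))) (T.n (T.n (T.n (T.l (nat_lit 49) (nat_lit 6)) (T.n (T.l (nat_lit 49) (nat_lit 28)) (T.l (nat_lit 49) (nat_lit 39)))) (T.n (T.n (T.l (nat_lit 51) (nat_lit 4)) (T.l (nat_lit 51) (nat_lit 6))) (T.n (T.l (nat_lit 51) (nat_lit 7)) (T.l (nat_lit 51) (nat_lit 10))))) (T.n (T.n (T.n (T.l (nat_lit 51) (nat_lit 19)) (T.l (nat_lit 51) (nat_lit 37))) (T.n (T.l (nat_lit 52) (nat_lit 4)) (T.l (nat_lit 52) (nat_lit 5)))) (T.n (T.n (T.l (nat_lit 52) (nat_lit 6)) (T.l (nat_lit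 52) (nat_lit 9))) (T.n (T.l (nat_lit 52) (nat_lit 15)) (T.l (nat_lit 52) (nat_lit 24))))))))
def T11_0 : T := T.n (T.n (T.n (T.n (T.n (T.n (T.n (T.l (nat_lit 1) (nat_lit 16)) (T.n (T.l (nat_lit 1) (nat_lit 18)) (T.l (nat_lit 1) (nat_lit 23)))) (T.n (T.n (T.l (nat_lit 1) (nat_lit 25)) (T.l (nat_lit 1) (nat_lit 36))) (T.n (T.l (nat_lit 1) (nat_lit 50)) (T.l (nat_lit 2) (nat_lit 17))))) (T.n (T.n (T.n (T.l (nat_lit 2) (nat_lit 20)) (T.l (nat_lit 2) (nat_lit 21))) (T.n (T.l (nat_lit 2) (nat_lit 26)) (T.l (nat_lit 2) (nat_lit 38)))) (T.n (T.n (T.l (nat_lit 2) (nat_lit 48)) (T.l (nat_lit 4) (nat_lit 16))) (T.n (T.l (nat_lit 4) (nat_lit 35)) (T.l (nat_lit 4) (nat_lit 44)))))) (T.n (T.n (T.n (T.l (nat_lit 4) (nat_lit 50)) (T.n (T.l (nat_lit 4) (nat_lit 54)) (T.l (nat_lit 4) (nat_lit 56)))) (T.n (T.n (T.l (nat_lit 5) (nat_lit 17)) (T.l (nat_lit 5) (nat_lit 32))) (T.n (T.l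 (nat_lit 5) (nat_lit 38)) (T.l (nat_lit 5) (nat_lit 42))))) (T.n (T.n (T.n (T.l (nat_lit 5) (nat_lit 44)) (T.l (nat_lit 5) (nat_lit 56))) (T.n (T.l (nat_lit 6) (nat_lit 20)) (T.l (nat_lit 6) (nat_lit 31)))) (T.n (T.n (T.l (nat_lit 6) (nat_lit 46)) (T.l (nat_lit 6) (nat_lit 48))) (T.n (T.l (nat_lit 6) (nat_lit 57)) (T.l (nat_lit 6) (nat_lit 58))))))) (T.n (T.n (T.n (T.n (T.l (nat_lit 7) (nat_lit 18)) (T.n (T.l (nat_lit 7) (nat_lit 25)) (T.l (nat_lit 7) (nat_lit 31)))) (T.n (T.n (T.l (nat_lit 7) (nat_lit 32)) (T.l (nat_lit 7) (nat_lit 42))) (T.n (T.l (nat_lit 7) (nat_lit 57)) (T.l (nat_lit 9) (nat_lit 23))))) (T.n (T.n (T.n (T.l (nat_lit 9) (nat_lit 34)) (T.l (nat_lit 9) (nat_lit 36))) (T.n (T.l (nat_lit 9) (nat_lit 45)) (T.l (nat_lit 9) (nat_lit 46)))) (T.n (T.n (T.l (nat_lit 9) (nat_lit 58)) (T.l (nat_lit 10) (nat_lit 21))) (T.n (T.l (nat_lit 10) (nat_lit 26)) (T.l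 (nat_lit 10) (nat_lit 34)))))) (T.n (T.n (T.n (T.l (nat_lit 10) (nat_lit 35)) (T.n (T.l (nat_lit 10) (nat_lit 45)) (T.l (nat_lit 10) (nat_lit 54)))) (T.n (T.n (T.l (nat_lit 15) (nat_lit 16)) (T.l (nat_lit 15) (nat_lit 17))) (T.n (T.l (nat_lit 15) (nat_lit 18)) (T.l (nat_lit 15) (nat_lit 21))))) (T.n (T.n (T.n (T.l (nat_lit 15) (nat_lit 42)) (T.l (nat_lit 15) (nat_lit 54))) (T.n (T.l (nat_lit 16) (nat_lit 1)) (T.l (nat_lit 16) (nat_lit 4)))) (T.n (T.n (T.l (nat_lit 16) (nat_lit 15)) (T.l (nat_lit 16) (nat_lit 22))) (T.n (T.l (nat_lit 16) (nat_lit 40)) (T.l (nat_lit 17) (nat_lit 2)))))))) (T.n (T.n (T.n (T.n (T.n (T.l (nat_lit 17) (nat_lit 5)) (T.n (T.l (nat_lit 17) (nat_lit 15)) (T.l (nat_lit 17) (nat_lit 19)))) (T.n (T.n (T.l (nat_lit 17) (nat_lit 52)) (T.l (nat_lit 18) (nat_lit 1))) (T.n (T.l (nat_lit 18) (nat_lit 7)) (T.l (nat_lit 18) (nat_lit 15))))) (T.n (T.n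 (T.n (T.l (nat_lit 18) (nat_lit 19)) (T.l (nat_lit 18) (nat_lit 51))) (T.n (T.l (nat_lit 19) (nat_lit 17)) (T.l (nat_lit 19) (nat_lit 18)))) (T.n (T.n (T.l (nat_lit 19) (nat_lit 20)) (T.l (nat_lit 19) (nat_lit 23))) (T.n (T.l (nat_lit 19) (nat_lit 32)) (T.l (nat_lit 19) (nat_lit 58)))))) (T.n (T.n (T.n (T.l (nat_lit 20) (nat_lit 2)) (T.n (T.l (nat_lit 20) (nat_lit 6)) (T.l (nat_lit 20) (nat_lit 19)))) (T.n (T.n (T.l (nat_lit 20) (nat_lit 22)) (T.l (nat_lit 20) (nat_lit 29))) (T.n (T.l (nat_lit 21) (nat_lit 2)) (T.l (nat_lit 21) (nat_lit 10))))) (T.n (T.n (T.n (T.l (nat_lit 21) (nat_lit 15)) (T.l (nat_lit 21) (nat_lit 22))) (T.n (T.l (nat_lit 21) (nat_lit 39)) (T.l (nat_lit 22) (nat_lit 16)))) (T.n (T.n (T.l (nat_lit 22) (nat_lit 20)) (T.l (nat_lit 22) (nat_lit 21))) (T.n (T.l (nat_lit 22) (nat_lit 23)) (T.l (nat_lit 22) (nat_lit 35))))))) (T.n (T.n (T.n (T.n (T.l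 (nat_lit 22) (nat_lit 46)) (T.n (T.l (nat_lit 23) (nat_lit 1)) (T.l (nat_lit 23) (nat_lit 9)))) (T.n (T.n (T.l (nat_lit 23) (nat_lit 19)) (T.l (nat_lit 23) (nat_lit 22))) (T.n (T.l (nat_lit 23) (nat_lit 28)) (T.l (nat_lit 24) (nat_lit 25))))) (T.n (T.n (T.n (T.l (nat_lit 24) (nat_lit 26)) (T.l (nat_lit 24) (nat_lit 31))) (T.n (T.l (nat_lit 24) (nat_lit 34)) (T.l (nat_lit 24) (nat_lit 36)))) (T.n (T.n (T.l (nat_lit 24) (nat_lit 48)) (T.l (nat_lit 25) (nat_lit 1))) (T.n (T.l (nat_lit 25) (nat_lit 7)) (T.l (nat_lit 25) (nat_lit 24)))))) (T.n (T.n (T.n (T.l (nat_lit 25) (nat_lit 28)) (T.n (T.l (nat_lit 25) (nat_lit 49)) (T.l (nat_lit 26) (nat_lit 2)))) (T.n (T.n (T.l (nat_lit 26) (nat_lit 10)) (T.l (nat_lit 26) (nat_lit 24))) (T.n (T.l (nat_lit 26) (nat_lit 29)) (T.l (nat_lit 26) (nat_lit 37))))) (T.n (T.n (T.n (T.l (nat_lit 28) (nat_lit 23)) (T.l (nat_lit 28) (nat_lit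 25))) (T.n (T.l (nat_lit 28) (nat_lit 32)) (T.l (nat_lit 28) (nat_lit 34)))) (T.n (T.n (T.l (nat_lit 28) (nat_lit 35)) (T.l (nat_lit 28) (nat_lit 56))) (T.n (T.l (nat_lit 29) (nat_lit 20)) (T.l (nat_lit 29) (nat_lit 26))))))))) (T.n (T.n (T.n (T.n (T.n (T.n (T.l (nat_lit 29) (nat_lit 31)) (T.n (T.l (nat_lit 29) (nat_lit 32)) (T.l (nat_lit 29) (nat_lit 35)))) (T.n (T.n (T.l (nat_lit 29) (nat_lit 44)) (T.l (nat_lit 31) (nat_lit 6))) (T.n (T.l (nat_lit 31) (nat_lit 7)) (T.l (nat_lit 31) (nat_lit 24))))) (T.n (T.n (T.n (T.l (nat_lit 31) (nat_lit 29)) (T.l (nat_lit 31) (nat_lit 40))) (T.n (T.l (nat_lit 32) (nat_lit 5)) (T.l (nat_lit 32) (nat_lit 7)))) (T.n (T.n (T.l (nat_lit 32) (nat_lit 19)) (T.l (nat_lit 32) (nat_lit 28))) (T.n (T.l (nat_lit 32) (nat_lit 29)) (T.l (nat_lit 34) (nat_lit 9)))))) (T.n (T.n (T.n (T.l (nat_lit 34) (nat_lit 10)) (T.n (T.l (nat_lit 34) (nat_lit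 24)) (T.l (nat_lit 34) (nat_lit 28)))) (T.n (T.n (T.l (nat_lit 34) (nat_lit 52)) (T.l (nat_lit 35) (nat_lit 4))) (T.n (T.l (nat_lit 35) (nat_lit 10)) (T.l (nat_lit 35) (nat_lit 22))))) (T.n (T.n (T.n (T.l (nat_lit 35) (nat_lit 28)) (T.l (nat_lit 35) (nat_lit 29))) (T.n (T.l (nat_lit 36) (nat_lit 1)) (T.l (nat_lit 36) (nat_lit 9)))) (T.n (T.n (T.l (nat_lit 36) (nat_lit 24)) (T.l (nat_lit 36) (nat_lit 37))) (T.n (T.l (nat_lit 36) (nat_lit 40)) (T.l (nat_lit 37) (nat_lit 26))))))) (T.n (T.n (T.n (T.n (T.l (nat_lit 37) (nat_lit 36)) (T.n (T.l (nat_lit 37) (nat_lit 38)) (T.l (nat_lit 37) (nat_lit 44)))) (T.n (T.n (T.l (nat_lit 37) (nat_lit 45)) (T.l (nat_lit 37) (nat_lit 50))) (T.n (T.l (nat_lit 38) (nat_lit 2)) (T.l (nat_lit 38) (nat_lit 5))))) (T.n (T.n (T.n (T.l (nat_lit 38) (nat_lit 37)) (T.l (nat_lit 38) (nat_lit 39))) (T.n (T.l (nat_lit 38) (nat_lit 49)) (T.l (nat_lit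 39) (nat_lit 21)))) (T.n (T.n (T.l (nat_lit 39) (nat_lit 38)) (T.l (nat_lit 39) (nat_lit 42))) (T.n (T.l (nat_lit 39) (nat_lit 45)) (T.l (nat_lit 39) (nat_lit 46)))))) (T.n (T.n (T.n (T.l (nat_lit 39) (nat_lit 57)) (T.n (T.l (nat_lit 40) (nat_lit 16)) (T.l (nat_lit 40) (nat_lit 31)))) (T.n (T.n (T.l (nat_lit 40) (nat_lit 36)) (T.l (nat_lit 40) (nat_lit 42))) (T.n (T.l (nat_lit 40) (nat_lit 44)) (T.l (nat_lit 40) (nat_lit 46))))) (T.n (T.n (T.n (T.l (nat_lit 42) (nat_lit 5)) (T.l (nat_lit 42) (nat_lit 7))) (T.n (T.l (nat_lit 42) (nat_lit 15)) (T.l (nat_lit 42) (nat_lit 39)))) (T.n (T.n (T.l (nat_lit 42) (nat_lit 40)) (T.l (nat_lit 44) (nat_lit 4))) (T.n (T.l (nat_lit 44) (nat_lit 5)) (T.l (nat_lit 44) (nat_lit 29)))))))) (T.n (T.n (T.n (T.n (T.n (T.l (nat_lit 44) (nat_lit 37)) (T.n (T.l (nat_lit 44) (nat_lit 40)) (T.l (nat_lit 45) (nat_lit 9)))) (T.n (T.n (T.l (nat_lit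 45) (nat_lit 10)) (T.l (nat_lit 45) (nat_lit 37))) (T.n (T.l (nat_lit 45) (nat_lit 39)) (T.l (nat_lit 45) (nat_lit 51))))) (T.n (T.n (T.n (T.l (nat_lit 46) (nat_lit 6)) (T.l (nat_lit 46) (nat_lit 9))) (T.n (T.l (nat_lit 46) (nat_lit 22)) (T.l (nat_lit 46) (nat_lit 39)))) (T.n (T.n (T.l (nat_lit 46) (nat_lit 40)) (T.l (nat_lit 48) (nat_lit 2))) (T.n (T.l (nat_lit 48) (nat_lit 6)) (T.l (nat_lit 48) (nat_lit 24)))))) (T.n (T.n (T.n (T.l (nat_lit 48) (nat_lit 49)) (T.n (T.l (nat_lit 48) (nat_lit 52)) (T.l (nat_lit 49) (nat_lit 25)))) (T.n (T.n (T.l (nat_lit 49) (nat_lit 38)) (T.l (nat_lit 49) (nat_lit 48))) (T.n (T.l (nat_lit 49) (nat_lit 50)) (T.l (nat_lit 49) (nat_lit 56))))) (T.n (T.n (T.n (T.l (nat_lit 49) (nat_lit 57)) (T.l (nat_lit 50) (nat_lit 1))) (T.n (T.l (nat_lit 50) (nat_lit 4)) (T.l (nat_lit 50) (nat_lit 37)))) (T.n (T.n (T.l (nat_lit 50) (nat_lit 49)) (T.l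 (nat_lit 50) (nat_lit 51))) (T.n (T.l (nat_lit 51) (nat_lit 18)) (T.l (nat_lit 51) (nat_lit 45))))))) (T.n (T.n (T.n (T.n (T.l (nat_lit 51) (nat_lit 50)) (T.n (T.l (nat_lit 51) (nat_lit 54)) (T.l (nat_lit 51) (nat_lit 57)))) (T.n (T.n (T.l (nat_lit 51) (nat_lit 58)) (T.l (nat_lit 52) (nat_lit 17))) (T.n (T.l (nat_lit 52) (nat_lit 34)) (T.l (nat_lit 52) (nat_lit 48))))) (T.n (T.n (T.n (T.l (nat_lit 52) (nat_lit 54)) (T.l (nat_lit 52) (nat_lit 56))) (T.n (T.l (nat_lit 52) (nat_lit 58)) (T.l (nat_lit 54) (nat_lit 4)))) (T.n (T.n (T.l (nat_lit 54) (nat_lit 10)) (T.l (nat_lit 54) (nat_lit 15))) (T.n (T.l (nat_lit 54) (nat_lit 51)) (T.l (nat_lit 54) (nat_lit 52)))))) (T.n (T.n (T.n (T.l (nat_lit 56) (nat_lit 4)) (T.n (T.l (nat_lit 56) (nat_lit 5)) (T.l (nat_lit 56) (nat_lit 28)))) (T.n (T.n (T.l (nat_lit 56) (nat_lit 49)) (T.l (nat_lit 56) (nat_lit 52))) (T.n (T.l (nat_lit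 57) (nat_lit 6)) (T.l (nat_lit 57) (nat_lit 7))))) (T.n (T.n (T.n (T.l (nat_lit 57) (nat_lit 39)) (T.l (nat_lit 57) (nat_lit 49))) (T.n (T.l (nat_lit 57) (nat_lit 51)) (T.l (nat_lit 58) (nat_lit 6)))) (T.n (T.n (T.l (nat_lit 58) (nat_lit 9)) (T.l (nat_lit 58) (nat_lit 19))) (T.n (T.l (nat_lit 58) (nat_lit 51)) (T.l (nat_lit 58) (nat_lit 52)))))))))
def T12_0 : T := T.n (T.n (T.n (T.n (T.n (T.n (T.n (T.l (nat_lit 1) (nat_lit 17)) (T.n (T.l (nat_lit 1) (nat_lit 20)) (T.l (nat_lit 1) (nat_lit 21)))) (T.n (T.n (T.l (nat_lit 1) (nat_lit 26)) (T.l (nat_lit 1) (nat_lit 38))) (T.n (T.l (nat_lit 1) (nat_lit 48)) (T.l (nat_lit 2) (nat_lit 16))))) (T.n (T.n (T.n (T.l (nat_lit 2) (nat_lit 18)) (T.l (nat_lit 2) (nat_lit 23))) (T.n (T.l (nat_lit 2) (nat_lit 25)) (T.l (nat_lit 2) (nat_lit 36)))) (T.n (T.n (T.l (nat_lit 2) (nat_lit 50)) (T.l (nat_lit 4) (nat_lit 20))) (T.n (T.l (nat_lit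 4) (nat_lit 31)) (T.l (nat_lit 4) (nat_lit 46)))))) (T.n (T.n (T.n (T.l (nat_lit 4) (nat_lit 48)) (T.n (T.l (nat_lit 4) (nat_lit 57)) (T.l (nat_lit 4) (nat_lit 58)))) (T.n (T.n (T.l (nat_lit 5) (nat_lit 23)) (T.l (nat_lit 5) (nat_lit 34))) (T.n (T.l (nat_lit 5) (nat_lit 36)) (T.l (nat_lit 5) (nat_lit 45))))) (T.n (T.n (T.n (T.l (nat_lit 5) (nat_lit 46)) (T.l (nat_lit 5) (nat_lit 58))) (T.n (T.l (nat_lit 6) (nat_lit 16)) (T.l (nat_lit 6) (nat_lit 35)))) (T.n (T.n (T.l (nat_lit 6) (nat_lit 44)) (T.l (nat_lit 6) (nat_lit 50))) (T.n (T.l (nat_lit 6) (nat_lit 54)) (T.l (nat_lit 6) (nat_lit 56))))))) (T.n (T.n (T.n (T.n (T.l (nat_lit 7) (nat_lit 21)) (T.n (T.l (nat_lit 7) (nat_lit 26)) (T.l (nat_lit 7) (nat_lit 34)))) (T.n (T.n (T.l (nat_lit 7) (nat_lit 35)) (T.l (nat_lit 7) (nat_lit 45))) (T.n (T.l (nat_lit 7) (nat_lit 54)) (T.l (nat_lit 9) (nat_lit 17))))) (T.n (T.n (T.n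 (T.l (nat_lit 9) (nat_lit 32)) (T.l (nat_lit 9) (nat_lit 38))) (T.n (T.l (nat_lit 9) (nat_lit 42)) (T.l (nat_lit 9) (nat_lit 44)))) (T.n (T.n (T.l (nat_lit 9) (nat_lit 56)) (T.l (nat_lit 10) (nat_lit 18))) (T.n (T.l (nat_lit 10) (nat_lit 25)) (T.l (nat_lit 10) (nat_lit 31)))))) (T.n (T.n (T.n (T.l (nat_lit 10) (nat_lit 32)) (T.n (T.l (nat_lit 10) (nat_lit 42)) (T.l (nat_lit 10) (nat_lit 57)))) (T.n (T.n (T.l (nat_lit 15) (nat_lit 25)) (T.l (nat_lit 15) (nat_lit 26))) (T.n (T.l (nat_lit 15) (nat_lit 31)) (T.l (nat_lit 15) (nat_lit 34))))) (T.n (T.n (T.n (T.l (nat_lit 15) (nat_lit 36)) (T.l (nat_lit 15) (nat_lit 48))) (T.n (T.l (nat_lit 16) (nat_lit 2)) (T.l (nat_lit 16) (nat_lit 6)))) (T.n (T.n (T.l (nat_lit 16) (nat_lit 24)) (T.l (nat_lit 16) (nat_lit 49))) (T.n (T.l (nat_lit 16) (nat_lit 52)) (T.l (nat_lit 17) (nat_lit 1)))))))) (T.n (T.n (T.n (T.n (T.n (T.l (nat_lit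 17) (nat_lit 9)) (T.n (T.l (nat_lit 17) (nat_lit 24)) (T.l (nat_lit 17) (nat_lit 37)))) (T.n (T.n (T.l (nat_lit 17) (nat_lit 40)) (T.l (nat_lit 18) (nat_lit 2))) (T.n (T.l (nat_lit 18) (nat_lit 10)) (T.l (nat_lit 18) (nat_lit 24))))) (T.n (T.n (T.n (T.l (nat_lit 18) (nat_lit 29)) (T.l (nat_lit 18) (nat_lit 37))) (T.n (T.l (nat_lit 19) (nat_lit 26)) (T.l (nat_lit 19) (nat_lit 36)))) (T.n (T.n (T.l (nat_lit 19) (nat_lit 38)) (T.l (nat_lit 19) (nat_lit 44))) (T.n (T.l (nat_lit 19) (nat_lit 45)) (T.l (nat_lit 19) (nat_lit 50)))))) (T.n (T.n (T.n (T.l (nat_lit 20) (nat_lit 1)) (T.n (T.l (nat_lit 20) (nat_lit 4)) (T.l (nat_lit 20) (nat_lit 37)))) (T.n (T.n (T.l (nat_lit 20) (nat_lit 49)) (T.l (nat_lit 20) (nat_lit 51))) (T.n (T.l (nat_lit 21) (nat_lit 1)) (T.l (nat_lit 21) (nat_lit 7))))) (T.n (T.n (T.n (T.l (nat_lit 21) (nat_lit 24)) (T.l (nat_lit 21) (nat_lit 28))) (T.n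 (T.l (nat_lit 21) (nat_lit 49)) (T.l (nat_lit 22) (nat_lit 25)))) (T.n (T.n (T.l (nat_lit 22) (nat_lit 38)) (T.l (nat_lit 22) (nat_lit 48))) (T.n (T.l (nat_lit 22) (nat_lit 50)) (T.l (nat_lit 22) (nat_lit 56))))))) (T.n (T.n (T.n (T.n (T.l (nat_lit 22) (nat_lit 57)) (T.n (T.l (nat_lit 23) (nat_lit 2)) (T.l (nat_lit 23) (nat_lit 5)))) (T.n (T.n (T.l (nat_lit 23) (nat_lit 37)) (T.l (nat_lit 23) (nat_lit 39))) (T.n (T.l (nat_lit 23) (nat_lit 49)) (T.l (nat_lit 24) (nat_lit 16))))) (T.n (T.n (T.n (T.l (nat_lit 24) (nat_lit 17)) (T.l (nat_lit 24) (nat_lit 18))) (T.n (T.l (nat_lit 24) (nat_lit 21)) (T.l (nat_lit 24) (nat_lit 42)))) (T.n (T.n (T.l (nat_lit 24) (nat_lit 54)) (T.l (nat_lit 25) (nat_lit 2))) (T.n (T.l (nat_lit 25) (nat_lit 10)) (T.l (nat_lit 25) (nat_lit 15)))))) (T.n (T.n (T.n (T.l (nat_lit 25) (nat_lit 22)) (T.n (T.l (nat_lit 25) (nat_lit 39)) (T.l (nat_lit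 26) (nat_lit 1)))) (T.n (T.n (T.l (nat_lit 26) (nat_lit 7)) (T.l (nat_lit 26) (nat_lit 15))) (T.n (T.l (nat_lit 26) (nat_lit 19)) (T.l (nat_lit 26) (nat_lit 51))))) (T.n (T.n (T.n (T.l (nat_lit 28) (nat_lit 21)) (T.l (nat_lit 28) (nat_lit 38))) (T.n (T.l (nat_lit 28) (nat_lit 42)) (T.l (nat_lit 28) (nat_lit 45)))) (T.n (T.n (T.l (nat_lit 28) (nat_lit 46)) (T.l (nat_lit 28) (nat_lit 57))) (T.n (T.l (nat_lit 29) (nat_lit 18)) (T.l (nat_lit 29) (nat_lit 45))))))))) (T.n (T.n (T.n (T.n (T.n (T.n (T.l (nat_lit 29) (nat_lit 50)) (T.n (T.l (nat_lit 29) (nat_lit 54)) (T.l (nat_lit 29) (nat_lit 57)))) (T.n (T.n (T.l (nat_lit 29) (nat_lit 58)) (T.l (nat_lit 31) (nat_lit 4))) (T.n (T.l (nat_lit 31) (nat_lit 10)) (T.l (nat_lit 31) (nat_lit 15))))) (T.n (T.n (T.n (T.l (nat_lit 31) (nat_lit 51)) (T.l (nat_lit 31) (nat_lit 52))) (T.n (T.l (nat_lit 32) (nat_lit 9)) (T.l (nat_lit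 32) (nat_lit 10)))) (T.n (T.n (T.l (nat_lit 32) (nat_lit 37)) (T.l (nat_lit 32) (nat_lit 39))) (T.n (T.l (nat_lit 32) (nat_lit 51)) (T.l (nat_lit 34) (nat_lit 5)))))) (T.n (T.n (T.n (T.l (nat_lit 34) (nat_lit 7)) (T.n (T.l (nat_lit 34) (nat_lit 15)) (T.l (nat_lit 34) (nat_lit 39)))) (T.n (T.n (T.l (nat_lit 34) (nat_lit 40)) (T.l (nat_lit 35) (nat_lit 6))) (T.n (T.l (nat_lit 35) (nat_lit 7)) (T.l (nat_lit 35) (nat_lit 39))))) (T.n (T.n (T.n (T.l (nat_lit 35) (nat_lit 49)) (T.l (nat_lit 35) (nat_lit 51))) (T.n (T.l (nat_lit 36) (nat_lit 2)) (T.l (nat_lit 36) (nat_lit 5)))) (T.n (T.n (T.l (nat_lit 36) (nat_lit 15)) (T.l (nat_lit 36) (nat_lit 19))) (T.n (T.l (nat_lit 36) (nat_lit 52)) (T.l (nat_lit 37) (nat_lit 17))))))) (T.n (T.n (T.n (T.n (T.l (nat_lit 37) (nat_lit 18)) (T.n (T.l (nat_lit 37) (nat_lit 20)) (T.l (nat_lit 37) (nat_lit 23)))) (T.n (T.n (T.l (nat_lit 37)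 (nat_lit 32)) (T.l (nat_lit 37) (nat_lit 58))) (T.n (T.l (nat_lit 38) (nat_lit 1)) (T.l (nat_lit 38) (nat_lit 9))))) (T.n (T.n (T.n (T.l (nat_lit 38) (nat_lit 19)) (T.l (nat_lit 38) (nat_lit 22))) (T.n (T.l (nat_lit 38) (nat_lit 28)) (T.l (nat_lit 39) (nat_lit 23)))) (T.n (T.n (T.l (nat_lit 39) (nat_lit 25)) (T.l (nat_lit 39) (nat_lit 32))) (T.n (T.l (nat_lit 39) (nat_lit 34)) (T.l (nat_lit 39) (nat_lit 35)))))) (T.n (T.n (T.n (T.l (nat_lit 39) (nat_lit 56)) (T.n (T.l (nat_lit 40) (nat_lit 17)) (T.l (nat_lit 40) (nat_lit 34)))) (T.n (T.n (T.l (nat_lit 40) (nat_lit 48)) (T.l (nat_lit 40) (nat_lit 54))) (T.n (T.l (nat_lit 40) (nat_lit 56)) (T.l (nat_lit 40) (nat_lit 58))))) (T.n (T.n (T.n (T.l (nat_lit 42) (nat_lit 9)) (T.l (nat_lit 42) (nat_lit 10))) (T.n (T.l (nat_lit 42) (nat_lit 24)) (T.l (nat_lit 42) (nat_lit 28)))) (T.n (T.n (T.l (nat_lit 42) (nat_lit 52)) (T.l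 (nat_lit 44) (nat_lit 6))) (T.n (T.l (nat_lit 44) (nat_lit 9)) (T.l (nat_lit 44) (nat_lit 19)))))))) (T.n (T.n (T.n (T.n (T.n (T.l (nat_lit 44) (nat_lit 51)) (T.n (T.l (nat_lit 44) (nat_lit 52)) (T.l (nat_lit 45) (nat_lit 5)))) (T.n (T.n (T.l (nat_lit 45) (nat_lit 7)) (T.l (nat_lit 45) (nat_lit 19))) (T.n (T.l (nat_lit 45) (nat_lit 28)) (T.l (nat_lit 45) (nat_lit 29))))) (T.n (T.n (T.n (T.l (nat_lit 46) (nat_lit 4)) (T.l (nat_lit 46) (nat_lit 5))) (T.n (T.l (nat_lit 46) (nat_lit 28)) (T.l (nat_lit 46) (nat_lit 49)))) (T.n (T.n (T.l (nat_lit 46) (nat_lit 52)) (T.l (nat_lit 48) (nat_lit 1))) (T.n (T.l (nat_lit 48) (nat_lit 4)) (T.l (nat_lit 48) (nat_lit 15)))))) (T.n (T.n (T.n (T.l (nat_lit 48) (nat_lit 22)) (T.n (T.l (nat_lit 48) (nat_lit 40)) (T.l (nat_lit 49) (nat_lit 16)))) (T.n (T.n (T.l (nat_lit 49) (nat_lit 20)) (T.l (nat_lit 49) (nat_lit 21))) (T.n (T.l (nat_lit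 49) (nat_lit 23)) (T.l (nat_lit 49) (nat_lit 35))))) (T.n (T.n (T.n (T.l (nat_lit 49) (nat_lit 46)) (T.l (nat_lit 50) (nat_lit 2))) (T.n (T.l (nat_lit 50) (nat_lit 6)) (T.l (nat_lit 50) (nat_lit 19)))) (T.n (T.n (T.l (nat_lit 50) (nat_lit 22)) (T.l (nat_lit 50) (nat_lit 29))) (T.n (T.l (nat_lit 51) (nat_lit 20)) (T.l (nat_lit 51) (nat_lit 26))))))) (T.n (T.n (T.n (T.n (T.l (nat_lit 51) (nat_lit 31)) (T.n (T.l (nat_lit 51) (nat_lit 32)) (T.l (nat_lit 51) (nat_lit 35)))) (T.n (T.n (T.l (nat_lit 51) (nat_lit 44)) (T.l (nat_lit 52) (nat_lit 16))) (T.n (T.l (nat_lit 52) (nat_lit 31)) (T.l (nat_lit 52) (nat_lit 36))))) (T.n (T.n (T.n (T.l (nat_lit 52) (nat_lit 42)) (T.l (nat_lit 52) (nat_lit 44))) (T.n (T.l (nat_lit 52) (nat_lit 46)) (T.l (nat_lit 54) (nat_lit 6)))) (T.n (T.n (T.l (nat_lit 54) (nat_lit 7)) (T.l (nat_lit 54) (nat_lit 24))) (T.n (T.l (nat_lit 54) (nat_lit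 29)) (T.l (nat_lit 54) (nat_lit 40)))))) (T.n (T.n (T.n (T.l (nat_lit 56) (nat_lit 6)) (T.n (T.l (nat_lit 56) (nat_lit 9)) (T.l (nat_lit 56) (nat_lit 22)))) (T.n (T.n (T.l (nat_lit 56) (nat_lit 39)) (T.l (nat_lit 56) (nat_lit 40))) (T.n (T.l (nat_lit 57) (nat_lit 4)) (T.l (nat_lit 57) (nat_lit 10))))) (T.n (T.n (T.n (T.l (nat_lit 57) (nat_lit 22)) (T.l (nat_lit 57) (nat_lit 28))) (T.n (T.l (nat_lit 57) (nat_lit 29)) (T.l (nat_lit 58) (nat_lit 4)))) (T.n (T.n (T.l (nat_lit 58) (nat_lit 5)) (T.l (nat_lit 58) (nat_lit 29))) (T.n (T.l (nat_lit 58) (nat_lit 37)) (T.l (nat_lit 58) (nat_lit 40)))))))))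
def T13_0 : T := T.n (T.n (T.n (T.n (T.n (T.n (T.n (T.l (nat_lit 1) (nat_lit 30)) (T.n (T.l (nat_lit 1) (nat_lit 33)) (T.l (nat_lit 1) (nat_lit 43)))) (T.n (T.n (T.l (nat_lit 1) (nat_lit 47)) (T.l (nat_lit 1) (nat_lit 55))) (T.n (T.l (nat_lit 1) (nat_lit 59)) (T.l (nat_lit 2) (nat_lit 30))))) (T.n (T.n (T.n (T.l (nat_lit 2) (nat_lit 33)) (T.l (nat_lit 2) (nat_lit 43))) (T.n (T.l (nat_lit 2) (nat_lit 47)) (T.l (nat_lit 2) (nat_lit 55)))) (T.n (T.n (T.l (nat_lit 2) (nat_lit 59)) (T.l (nat_lit 3) (nat_lit 19))) (T.n (T.l (nat_lit 3) (nat_lit 22)) (T.l (nat_lit 3) (nat_lit 28)))))) (T.n (T.n (T.n (T.l (nat_lit 3) (nat_lit 29)) (T.n (T.l (nat_lit 3) (nat_lit 37)) (T.l (nat_lit 3) (nat_lit 39)))) (T.n (T.n (T.l (nat_lit 3) (nat_lit 49)) (T.l (nat_lit 3) (nat_lit 51))) (T.n (T.l (nat_lit 4) (nat_lit 12)) (T.l (nat_lit 4) (nat_lit 14))))) (T.n (T.n (T.n (T.l (nat_lit 4) (nat_lit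 27)) (T.l (nat_lit 4) (nat_lit 33))) (T.n (T.l (nat_lit 4) (nat_lit 41)) (T.l (nat_lit 4) (nat_lit 47)))) (T.n (T.n (T.l (nat_lit 5) (nat_lit 12)) (T.l (nat_lit 5) (nat_lit 13))) (T.n (T.l (nat_lit 5) (nat_lit 27)) (T.l (nat_lit 5) (nat_lit 30))))))) (T.n (T.n (T.n (T.n (T.l (nat_lit 5) (nat_lit 53)) (T.n (T.l (nat_lit 5) (nat_lit 59)) (T.l (nat_lit 6) (nat_lit 12)))) (T.n (T.n (T.l (nat_lit 6) (nat_lit 14)) (T.l (nat_lit 6) (nat_lit 27))) (T.n (T.l (nat_lit 6) (nat_lit 33)) (T.l (nat_lit 6) (nat_lit 41))))) (T.n (T.n (T.n (T.l (nat_lit 6) (nat_lit 47)) (T.l (nat_lit 7) (nat_lit 13))) (T.n (T.l (nat_lit 7) (nat_lit 14)) (T.l (nat_lit 7) (nat_lit 41)))) (T.n (T.n (T.l (nat_lit 7) (nat_lit 43)) (T.l (nat_lit 7) (nat_lit 53))) (T.n (T.l (nat_lit 7) (nat_lit 55)) (T.l (nat_lit 8) (nat_lit 15)))))) (T.n (T.n (T.n (T.l (nat_lit 8) (nat_lit 22)) (T.n (T.l (nat_lit 8) (nat_lit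 24)) (T.l (nat_lit 8) (nat_lit 28)))) (T.n (T.n (T.l (nat_lit 8) (nat_lit 39)) (T.l (nat_lit 8) (nat_lit 40))) (T.n (T.l (nat_lit 8) (nat_lit 49)) (T.l (nat_lit 8) (nat_lit 52))))) (T.n (T.n (T.n (T.l (nat_lit 9) (nat_lit 12)) (T.l (nat_lit 9) (nat_lit 13))) (T.n (T.l (nat_lit 9) (nat_lit 27)) (T.l (nat_lit 9) (nat_lit 30)))) (T.n (T.n (T.l (nat_lit 9) (nat_lit 53)) (T.l (nat_lit 9) (nat_lit 59))) (T.n (T.l (nat_lit 10) (nat_lit 13)) (T.l (nat_lit 10) (nat_lit 14)))))))) (T.n (T.n (T.n (T.n (T.n (T.l (nat_lit 10) (nat_lit 41)) (T.n (T.l (nat_lit 10) (nat_lit 43)) (T.l (nat_lit 10) (nat_lit 53)))) (T.n (T.n (T.l (nat_lit 10) (nat_lit 55)) (T.l (nat_lit 11) (nat_lit 15))) (T.n (T.l (nat_lit 11) (nat_lit 19)) (T.l (nat_lit 11) (nat_lit 24))))) (T.n (T.n (T.n (T.l (nat_lit 11) (nat_lit 29)) (T.l (nat_lit 11) (nat_lit 37))) (T.n (T.l (nat_lit 11) (nat_lit 40)) (T.l (nat_lit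 11) (nat_lit 51)))) (T.n (T.n (T.l (nat_lit 11) (nat_lit 52)) (T.l (nat_lit 12) (nat_lit 4))) (T.n (T.l (nat_lit 12) (nat_lit 5)) (T.l (nat_lit 12) (nat_lit 6)))))) (T.n (T.n (T.n (T.l (nat_lit 12) (nat_lit 9)) (T.n (T.l (nat_lit 12) (nat_lit 28)) (T.l (nat_lit 12) (nat_lit 29)))) (T.n (T.n (T.l (nat_lit 12) (nat_lit 39)) (T.l (nat_lit 12) (nat_lit 51))) (T.n (T.l (nat_lit 13) (nat_lit 5)) (T.l (nat_lit 13) (nat_lit 7))))) (T.n (T.n (T.n (T.l (nat_lit 13) (nat_lit 9)) (T.l (nat_lit 13) (nat_lit 10))) (T.n (T.l (nat_lit 13) (nat_lit 29)) (T.l (nat_lit 13) (nat_lit 40)))) (T.n (T.n (T.l (nat_lit 13) (nat_lit 51)) (T.l (nat_lit 13) (nat_lit 52))) (T.n (T.l (nat_lit 14) (nat_lit 4)) (T.l (nat_lit 14) (nat_lit 6))))))) (T.n (T.n (T.n (T.n (T.l (nat_lit 14) (nat_lit 7)) (T.n (T.l (nat_lit 14) (nat_lit 10)) (T.l (nat_lit 14) (nat_lit 28)))) (T.n (T.n (T.l (nat_lit 14) (nat_lit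 39)) (T.l (nat_lit 14) (nat_lit 40))) (T.n (T.l (nat_lit 14) (nat_lit 52)) (T.l (nat_lit 15) (nat_lit 8))))) (T.n (T.n (T.n (T.l (nat_lit 15) (nat_lit 11)) (T.l (nat_lit 15) (nat_lit 41))) (T.n (T.l (nat_lit 15) (nat_lit 47)) (T.l (nat_lit 15) (nat_lit 53)))) (T.n (T.n (T.l (nat_lit 15) (nat_lit 59)) (T.l (nat_lit 19) (nat_lit 3))) (T.n (T.l (nat_lit 19) (nat_lit 11)) (T.l (nat_lit 19) (nat_lit 27)))))) (T.n (T.n (T.n (T.l (nat_lit 19) (nat_lit 33)) (T.n (T.l (nat_lit 19) (nat_lit 53)) (T.l (nat_lit 19) (nat_lit 55)))) (T.n (T.n (T.l (nat_lit 22) (nat_lit 3)) (T.l (nat_lit 22) (nat_lit 8))) (T.n (T.l (nat_lit 22) (nat_lit 27)) (T.l (nat_lit 22) (nat_lit 30))))) (T.n (T.n (T.n (T.l (nat_lit 22) (nat_lit 41)) (T.l (nat_lit 22) (nat_lit 43))) (T.n (T.l (nat_lit 24) (nat_lit 8)) (T.l (nat_lit 24) (nat_lit 11)))) (T.n (T.n (T.l (nat_lit 24) (nat_lit 41)) (T.l (nat_lit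 24) (nat_lit 47))) (T.n (T.l (nat_lit 24) (nat_lit 53)) (T.l (nat_lit 24) (nat_lit 59))))))))) (T.n (T.n (T.n (T.n (T.n (T.n (T.l (nat_lit 27) (nat_lit 4)) (T.n (T.l (nat_lit 27) (nat_lit 5)) (T.l (nat_lit 27) (nat_lit 6)))) (T.n (T.n (T.l (nat_lit 27) (nat_lit 9)) (T.l (nat_lit 27) (nat_lit 19))) (T.n (T.l (nat_lit 27) (nat_lit 22)) (T.l (nat_lit 27) (nat_lit 37))))) (T.n (T.n (T.n (T.l (nat_lit 27) (nat_lit 49)) (T.l (nat_lit 28) (nat_lit 3))) (T.n (T.l (nat_lit 28) (nat_lit 8)) (T.l (nat_lit 28) (nat_lit 12)))) (T.n (T.n (T.l (nat_lit 28) (nat_lit 14)) (T.l (nat_lit 28) (nat_lit 55))) (T.n (T.l (nat_lit 28) (nat_lit 59)) (T.l (nat_lit 29) (nat_lit 3)))))) (T.n (T.n (T.n (T.l (nat_lit 29) (nat_lit 11)) (T.n (T.l (nat_lit 29) (nat_lit 12)) (T.l (nat_lit 29) (nat_lit 13)))) (T.n (T.n (T.l (nat_lit 29) (nat_lit 43)) (T.l (nat_lit 29) (nat_lit 47))) (T.n (T.l (nat_lit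 30) (nat_lit 1)) (T.l (nat_lit 30) (nat_lit 2))))) (T.n (T.n (T.n (T.l (nat_lit 30) (nat_lit 5)) (T.l (nat_lit 30) (nat_lit 9))) (T.n (T.l (nat_lit 30) (nat_lit 22)) (T.l (nat_lit 30) (nat_lit 40)))) (T.n (T.n (T.l (nat_lit 30) (nat_lit 49)) (T.l (nat_lit 30) (nat_lit 52))) (T.n (T.l (nat_lit 33) (nat_lit 1)) (T.l (nat_lit 33) (nat_lit 2))))))) (T.n (T.n (T.n (T.n (T.l (nat_lit 33) (nat_lit 4)) (T.n (T.l (nat_lit 33) (nat_lit 6)) (T.l (nat_lit 33) (nat_lit 19)))) (T.n (T.n (T.l (nat_lit 33) (nat_lit 37)) (T.l (nat_lit 33) (nat_lit 40))) (T.n (T.l (nat_lit 33) (nat_lit 52)) (T.l (nat_lit 37) (nat_lit 3))))) (T.n (T.n (T.n (T.l (nat_lit 37) (nat_lit 11)) (T.l (nat_lit 37) (nat_lit 27))) (T.n (T.l (nat_lit 37) (nat_lit 33)) (T.l (nat_lit 37) (nat_lit 53)))) (T.n (T.n (T.l (nat_lit 37) (nat_lit 55)) (T.l (nat_lit 39) (nat_lit 3))) (T.n (T.l (nat_lit 39) (nat_lit 8)) (T.l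 (nat_lit 39) (nat_lit 12)))))) (T.n (T.n (T.n (T.l (nat_lit 39) (nat_lit 14)) (T.n (T.l (nat_lit 39) (nat_lit 55)) (T.l (nat_lit 39) (nat_lit 59)))) (T.n (T.n (T.l (nat_lit 40) (nat_lit 8)) (T.l (nat_lit 40) (nat_lit 11))) (T.n (T.l (nat_lit 40) (nat_lit 13)) (T.l (nat_lit 40) (nat_lit 14))))) (T.n (T.n (T.n (T.l (nat_lit 40) (nat_lit 30)) (T.l (nat_lit 40) (nat_lit 33))) (T.n (T.l (nat_lit 41) (nat_lit 4)) (T.l (nat_lit 41) (nat_lit 6)))) (T.n (T.n (T.l (nat_lit 41) (nat_lit 7)) (T.l (nat_lit 41) (nat_lit 10))) (T.n (T.l (nat_lit 41) (nat_lit 15)) (T.l (nat_lit 41) (nat_lit 22)))))))) (T.n (T.n (T.n (T.n (T.n (T.l (nat_lit 41) (nat_lit 24)) (T.n (T.l (nat_lit 41) (nat_lit 49)) (T.l (nat_lit 43) (nat_lit 1)))) (T.n (T.n (T.l (nat_lit 43) (nat_lit 2)) (T.l (nat_lit 43) (nat_lit 7))) (T.n (T.l (nat_lit 43) (nat_lit 10)) (T.l (nat_lit 43) (nat_lit 22))))) (T.n (T.n (T.n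 (T.l (nat_lit 43) (nat_lit 29)) (T.l (nat_lit 43) (nat_lit 49))) (T.n (T.l (nat_lit 43) (nat_lit 51)) (T.l (nat_lit 47) (nat_lit 1)))) (T.n (T.n (T.l (nat_lit 47) (nat_lit 2)) (T.l (nat_lit 47) (nat_lit 4))) (T.n (T.l (nat_lit 47) (nat_lit 6)) (T.l (nat_lit 47) (nat_lit 15)))))) (T.n (T.n (T.n (T.l (nat_lit 47) (nat_lit 24)) (T.n (T.l (nat_lit 47) (nat_lit 29)) (T.l (nat_lit 47) (nat_lit 51)))) (T.n (T.n (T.l (nat_lit 49) (nat_lit 3)) (T.l (nat_lit 49) (nat_lit 8))) (T.n (T.l (nat_lit 49) (nat_lit 27)) (T.l (nat_lit 49) (nat_lit 30))))) (T.n (T.n (T.n (T.l (nat_lit 49) (nat_lit 41)) (T.l (nat_lit 49) (nat_lit 43))) (T.n (T.l (nat_lit 51) (nat_lit 3)) (T.l (nat_lit 51) (nat_lit 11)))) (T.n (T.n (T.l (nat_lit 51) (nat_lit 12)) (T.l (nat_lit 51) (nat_lit 13))) (T.n (T.l (nat_lit 51) (nat_lit 43)) (T.l (nat_lit 51) (nat_lit 47))))))) (T.n (T.n (T.n (T.n (T.l (nat_lit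 52) (nat_lit 8)) (T.n (T.l (nat_lit 52) (nat_lit 11)) (T.l (nat_lit 52) (nat_lit 13)))) (T.n (T.n (T.l (nat_lit 52) (nat_lit 14)) (T.l (nat_lit 52) (nat_lit 30))) (T.n (T.l (nat_lit 52) (nat_lit 33)) (T.l (nat_lit 53) (nat_lit 5))))) (T.n (T.n (T.n (T.l (nat_lit 53) (nat_lit 7)) (T.l (nat_lit 53) (nat_lit 9))) (T.n (T.l (nat_lit 53) (nat_lit 10)) (T.l (nat_lit 53) (nat_lit 15)))) (T.n (T.n (T.l (nat_lit 53) (nat_lit 19)) (T.l (nat_lit 53) (nat_lit 24))) (T.n (T.l (nat_lit 53) (nat_lit 37)) (T.l (nat_lit 55) (nat_lit 1)))))) (T.n (T.n (T.n (T.l (nat_lit 55) (nat_lit 2)) (T.n (T.l (nat_lit 55) (nat_lit 7)) (T.l (nat_lit 55) (nat_lit 10)))) (T.n (T.n (T.l (nat_lit 55) (nat_lit 19)) (T.l (nat_lit 55) (nat_lit 28))) (T.n (T.l (nat_lit 55) (nat_lit 37)) (T.l (nat_lit 55) (nat_lit 39))))) (T.n (T.n (T.n (T.l (nat_lit 59) (nat_lit 1)) (T.l (nat_lit 59) (nat_lit 2))) (T.n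 (T.l (nat_lit 59) (nat_lit 5)) (T.l (nat_lit 59) (nat_lit 9)))) (T.n (T.n (T.l (nat_lit 59) (nat_lit 15)) (T.l (nat_lit 59) (nat_lit 24))) (T.n (T.l (nat_lit 59) (nat_lit 28)) (T.l (nat_lit 59) (nat_lit 39)))))))))
def T14_0 : T := T.n (T.n (T.n (T.n (T.n (T.n (T.n (T.l (nat_lit 1) (nat_lit 31)) (T.n (T.l (nat_lit 1) (nat_lit 35)) (T.l (nat_lit 1) (nat_lit 42)))) (T.n (T.n (T.l (nat_lit 1) (nat_lit 45)) (T.l (nat_lit 1) (nat_lit 56))) (T.n (T.l (nat_lit 1) (nat_lit 58)) (T.l (nat_lit 2) (nat_lit 32))))) (T.n (T.n (T.n (T.l (nat_lit 2) (nat_lit 34)) (T.l (nat_lit 2) (nat_lit 44))) (T.n (T.l (nat_lit 2) (nat_lit 46)) (T.l (nat_lit 2) (nat_lit 54)))) (T.n (T.n (T.l (nat_lit 2) (nat_lit 57)) (T.l (nat_lit 4) (nat_lit 17))) (T.n (T.l (nat_lit 4) (nat_lit 23)) (T.l (nat_lit 4) (nat_lit 25)))))) (T.n (T.n (T.n (T.l (nat_lit 4) (nat_lit 26)) (T.n (T.l (nat_lit 4) (nat_lit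 42)) (T.l (nat_lit 4) (nat_lit 45)))) (T.n (T.n (T.l (nat_lit 5) (nat_lit 16)) (T.l (nat_lit 5) (nat_lit 20))) (T.n (T.l (nat_lit 5) (nat_lit 25)) (T.l (nat_lit 5) (nat_lit 26))))) (T.n (T.n (T.n (T.l (nat_lit 5) (nat_lit 54)) (T.l (nat_lit 5) (nat_lit 57))) (T.n (T.l (nat_lit 6) (nat_lit 18)) (T.l (nat_lit 6) (nat_lit 21)))) (T.n (T.n (T.l (nat_lit 6) (nat_lit 32)) (T.l (nat_lit 6) (nat_lit 34))) (T.n (T.l (nat_lit 6) (nat_lit 36)) (T.l (nat_lit 6) (nat_lit 38))))))) (T.n (T.n (T.n (T.n (T.l (nat_lit 7) (nat_lit 16)) (T.n (T.l (nat_lit 7) (nat_lit 20)) (T.l (nat_lit 7) (nat_lit 36)))) (T.n (T.n (T.l (nat_lit 7) (nat_lit 38)) (T.l (nat_lit 7) (nat_lit 56))) (T.n (T.l (nat_lit 7) (nat_lit 58)) (T.l (nat_lit 9) (nat_lit 18))))) (T.n (T.n (T.n (T.l (nat_lit 9) (nat_lit 21)) (T.l (nat_lit 9) (nat_lit 31))) (T.n (T.l (nat_lit 9) (nat_lit 35)) (T.l (nat_lit 9) (nat_lit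 48)))) (T.n (T.n (T.l (nat_lit 9) (nat_lit 50)) (T.l (nat_lit 10) (nat_lit 17))) (T.n (T.l (nat_lit 10) (nat_lit 23)) (T.l (nat_lit 10) (nat_lit 44)))))) (T.n (T.n (T.n (T.l (nat_lit 10) (nat_lit 46)) (T.n (T.l (nat_lit 10) (nat_lit 48)) (T.l (nat_lit 10) (nat_lit 50)))) (T.n (T.n (T.l (nat_lit 15) (nat_lit 20)) (T.l (nat_lit 15) (nat_lit 23))) (T.n (T.l (nat_lit 15) (nat_lit 44)) (T.l (nat_lit 15) (nat_lit 45))))) (T.n (T.n (T.n (T.l (nat_lit 15) (nat_lit 56)) (T.l (nat_lit 15) (nat_lit 57))) (T.n (T.l (nat_lit 16) (nat_lit 5)) (T.l (nat_lit 16) (nat_lit 7)))) (T.n (T.n (T.l (nat_lit 16) (nat_lit 19)) (T.l (nat_lit 16) (nat_lit 28))) (T.n (T.l (nat_lit 16) (nat_lit 29)) (T.l (nat_lit 17) (nat_lit 4)))))))) (T.n (T.n (T.n (T.n (T.n (T.l (nat_lit 17) (nat_lit 10)) (T.n (T.l (nat_lit 17) (nat_lit 22)) (T.l (nat_lit 17) (nat_lit 28)))) (T.n (T.n (T.l (nat_lit 17) (nat_lit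 29)) (T.l (nat_lit 18) (nat_lit 6))) (T.n (T.l (nat_lit 18) (nat_lit 9)) (T.l (nat_lit 18) (nat_lit 22))))) (T.n (T.n (T.n (T.l (nat_lit 18) (nat_lit 39)) (T.l (nat_lit 18) (nat_lit 40))) (T.n (T.l (nat_lit 19) (nat_lit 16)) (T.l (nat_lit 19) (nat_lit 21)))) (T.n (T.n (T.l (nat_lit 19) (nat_lit 31)) (T.l (nat_lit 19) (nat_lit 34))) (T.n (T.l (nat_lit 19) (nat_lit 56)) (T.l (nat_lit 19) (nat_lit 57)))))) (T.n (T.n (T.n (T.l (nat_lit 20) (nat_lit 5)) (T.n (T.l (nat_lit 20) (nat_lit 7)) (T.l (nat_lit 20) (nat_lit 15)))) (T.n (T.n (T.l (nat_lit 20) (nat_lit 39)) (T.l (nat_lit 20) (nat_lit 40))) (T.n (T.l (nat_lit 21) (nat_lit 6)) (T.l (nat_lit 21) (nat_lit 9))))) (T.n (T.n (T.n (T.l (nat_lit 21) (nat_lit 19)) (T.l (nat_lit 21) (nat_lit 51))) (T.n (T.l (nat_lit 21) (nat_lit 52)) (T.l (nat_lit 22) (nat_lit 17)))) (T.n (T.n (T.l (nat_lit 22) (nat_lit 18)) (T.l (nat_lit 22)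 (nat_lit 31))) (T.n (T.l (nat_lit 22) (nat_lit 34)) (T.l (nat_lit 22) (nat_lit 44))))))) (T.n (T.n (T.n (T.n (T.l (nat_lit 22) (nat_lit 45)) (T.n (T.l (nat_lit 23) (nat_lit 4)) (T.l (nat_lit 23) (nat_lit 10)))) (T.n (T.n (T.l (nat_lit 23) (nat_lit 15)) (T.l (nat_lit 23) (nat_lit 51))) (T.n (T.l (nat_lit 23) (nat_lit 52)) (T.l (nat_lit 24) (nat_lit 32))))) (T.n (T.n (T.n (T.l (nat_lit 24) (nat_lit 35)) (T.l (nat_lit 24) (nat_lit 38))) (T.n (T.l (nat_lit 24) (nat_lit 46)) (T.l (nat_lit 24) (nat_lit 50)))) (T.n (T.n (T.l (nat_lit 24) (nat_lit 58)) (T.l (nat_lit 25) (nat_lit 4))) (T.n (T.l (nat_lit 25) (nat_lit 5)) (T.l (nat_lit 25) (nat_lit 29)))))) (T.n (T.n (T.n (T.l (nat_lit 25) (nat_lit 37)) (T.n (T.l (nat_lit 25) (nat_lit 40)) (T.l (nat_lit 26) (nat_lit 4)))) (T.n (T.n (T.l (nat_lit 26) (nat_lit 5)) (T.l (nat_lit 26) (nat_lit 28))) (T.n (T.l (nat_lit 26) (nat_lit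 49)) (T.l (nat_lit 26) (nat_lit 52))))) (T.n (T.n (T.n (T.l (nat_lit 28) (nat_lit 16)) (T.l (nat_lit 28) (nat_lit 17))) (T.n (T.l (nat_lit 28) (nat_lit 26)) (T.l (nat_lit 28) (nat_lit 31)))) (T.n (T.n (T.l (nat_lit 28) (nat_lit 50)) (T.l (nat_lit 28) (nat_lit 58))) (T.n (T.l (nat_lit 29) (nat_lit 16)) (T.l (nat_lit 29) (nat_lit 17))))))))) (T.n (T.n (T.n (T.n (T.n (T.n (T.l (nat_lit 29) (nat_lit 25)) (T.n (T.l (nat_lit 29) (nat_lit 34)) (T.l (nat_lit 29) (nat_lit 38)))) (T.n (T.n (T.l (nat_lit 29) (nat_lit 46)) (T.l (nat_lit 31) (nat_lit 1))) (T.n (T.l (nat_lit 31) (nat_lit 9)) (T.l (nat_lit 31) (nat_lit 19))))) (T.n (T.n (T.n (T.l (nat_lit 31) (nat_lit 22)) (T.l (nat_lit 31) (nat_lit 28))) (T.n (T.l (nat_lit 32) (nat_lit 2)) (T.l (nat_lit 32) (nat_lit 6)))) (T.n (T.n (T.l (nat_lit 32) (nat_lit 24)) (T.l (nat_lit 32) (nat_lit 49))) (T.n (T.l (nat_lit 32) (nat_lit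 52)) (T.l (nat_lit 34) (nat_lit 2)))))) (T.n (T.n (T.n (T.l (nat_lit 34) (nat_lit 6)) (T.n (T.l (nat_lit 34) (nat_lit 19)) (T.l (nat_lit 34) (nat_lit 22)))) (T.n (T.n (T.l (nat_lit 34) (nat_lit 29)) (T.l (nat_lit 35) (nat_lit 1))) (T.n (T.l (nat_lit 35) (nat_lit 9)) (T.l (nat_lit 35) (nat_lit 24))))) (T.n (T.n (T.n (T.l (nat_lit 35) (nat_lit 37)) (T.l (nat_lit 35) (nat_lit 40))) (T.n (T.l (nat_lit 36) (nat_lit 6)) (T.l (nat_lit 36) (nat_lit 7)))) (T.n (T.n (T.l (nat_lit 36) (nat_lit 39)) (T.l (nat_lit 36) (nat_lit 49))) (T.n (T.l (nat_lit 36) (nat_lit 51)) (T.l (nat_lit 37) (nat_lit 25))))))) (T.n (T.n (T.n (T.n (T.l (nat_lit 37) (nat_lit 35)) (T.n (T.l (nat_lit 37) (nat_lit 42)) (T.l (nat_lit 37) (nat_lit 46)))) (T.n (T.n (T.l (nat_lit 37) (nat_lit 48)) (T.l (nat_lit 37) (nat_lit 54))) (T.n (T.l (nat_lit 38) (nat_lit 6)) (T.l (nat_lit 38) (nat_lit 7))))) (T.n (T.n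 (T.n (T.l (nat_lit 38) (nat_lit 24)) (T.l (nat_lit 38) (nat_lit 29))) (T.n (T.l (nat_lit 38) (nat_lit 40)) (T.l (nat_lit 39) (nat_lit 18)))) (T.n (T.n (T.l (nat_lit 39) (nat_lit 20)) (T.l (nat_lit 39) (nat_lit 36))) (T.n (T.l (nat_lit 39) (nat_lit 44)) (T.l (nat_lit 39) (nat_lit 48)))))) (T.n (T.n (T.n (T.l (nat_lit 39) (nat_lit 54)) (T.n (T.l (nat_lit 40) (nat_lit 18)) (T.l (nat_lit 40) (nat_lit 20)))) (T.n (T.n (T.l (nat_lit 40) (nat_lit 25)) (T.l (nat_lit 40) (nat_lit 35))) (T.n (T.l (nat_lit 40) (nat_lit 38)) (T.l (nat_lit 40) (nat_lit 45))))) (T.n (T.n (T.n (T.l (nat_lit 42) (nat_lit 1)) (T.l (nat_lit 42) (nat_lit 4))) (T.n (T.l (nat_lit 42) (nat_lit 37)) (T.l (nat_lit 42) (nat_lit 49)))) (T.n (T.n (T.l (nat_lit 42) (nat_lit 51)) (T.l (nat_lit 44) (nat_lit 2))) (T.n (T.l (nat_lit 44) (nat_lit 10)) (T.l (nat_lit 44) (nat_lit 15)))))))) (T.n (T.n (T.n (T.n (T.n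 (T.l (nat_lit 44) (nat_lit 22)) (T.n (T.l (nat_lit 44) (nat_lit 39)) (T.l (nat_lit 45) (nat_lit 1)))) (T.n (T.n (T.l (nat_lit 45) (nat_lit 4)) (T.l (nat_lit 45) (nat_lit 15))) (T.n (T.l (nat_lit 45) (nat_lit 22)) (T.l (nat_lit 45) (nat_lit 40))))) (T.n (T.n (T.n (T.l (nat_lit 46) (nat_lit 2)) (T.l (nat_lit 46) (nat_lit 10))) (T.n (T.l (nat_lit 46) (nat_lit 24)) (T.l (nat_lit 46) (nat_lit 29)))) (T.n (T.n (T.l (nat_lit 46) (nat_lit 37)) (T.l (nat_lit 48) (nat_lit 9))) (T.n (T.l (nat_lit 48) (nat_lit 10)) (T.l (nat_lit 48) (nat_lit 37)))))) (T.n (T.n (T.n (T.l (nat_lit 48) (nat_lit 39)) (T.n (T.l (nat_lit 48) (nat_lit 51)) (T.l (nat_lit 49) (nat_lit 26)))) (T.n (T.n (T.l (nat_lit 49) (nat_lit 32)) (T.l (nat_lit 49) (nat_lit 36))) (T.n (T.l (nat_lit 49) (nat_lit 42)) (T.l (nat_lit 49) (nat_lit 54))))) (T.n (T.n (T.n (T.l (nat_lit 49) (nat_lit 58)) (T.l (nat_lit 50) (nat_lit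 9))) (T.n (T.l (nat_lit 50) (nat_lit 10)) (T.l (nat_lit 50) (nat_lit 24)))) (T.n (T.n (T.l (nat_lit 50) (nat_lit 28)) (T.l (nat_lit 50) (nat_lit 52))) (T.n (T.l (nat_lit 51) (nat_lit 21)) (T.l (nat_lit 51) (nat_lit 23))))))) (T.n (T.n (T.n (T.n (T.l (nat_lit 51) (nat_lit 36)) (T.n (T.l (nat_lit 51) (nat_lit 42)) (T.l (nat_lit 51) (nat_lit 48)))) (T.n (T.n (T.l (nat_lit 51) (nat_lit 56)) (T.l (nat_lit 52) (nat_lit 21))) (T.n (T.l (nat_lit 52) (nat_lit 23)) (T.l (nat_lit 52) (nat_lit 26))))) (T.n (T.n (T.n (T.l (nat_lit 52) (nat_lit 32)) (T.l (nat_lit 52) (nat_lit 50))) (T.n (T.l (nat_lit 52) (nat_lit 57)) (T.l (nat_lit 54) (nat_lit 2)))) (T.n (T.n (T.l (nat_lit 54) (nat_lit 5)) (T.l (nat_lit 54) (nat_lit 37))) (T.n (T.l (nat_lit 54) (nat_lit 39)) (T.l (nat_lit 54) (nat_lit 49)))))) (T.n (T.n (T.n (T.l (nat_lit 56) (nat_lit 1)) (T.n (T.l (nat_lit 56) (nat_lit 7)) (T.l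 (nat_lit 56) (nat_lit 15)))) (T.n (T.n (T.l (nat_lit 56) (nat_lit 19)) (T.l (nat_lit 56) (nat_lit 51))) (T.n (T.l (nat_lit 57) (nat_lit 2)) (T.l (nat_lit 57) (nat_lit 5))))) (T.n (T.n (T.n (T.l (nat_lit 57) (nat_lit 15)) (T.l (nat_lit 57) (nat_lit 19))) (T.n (T.l (nat_lit 57) (nat_lit 52)) (T.l (nat_lit 58) (nat_lit 1)))) (T.n (T.n (T.l (nat_lit 58) (nat_lit 7)) (T.l (nat_lit 58) (nat_lit 24))) (T.n (T.l (nat_lit 58) (nat_lit 28)) (T.l (nat_lit 58) (nat_lit 49)))))))))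
def T15_0 : T := T.n (T.n (T.n (T.n (T.n (T.n (T.n (T.l (nat_lit 1) (nat_lit 32)) (T.n (T.l (nat_lit 1) (nat_lit 34)) (T.l (nat_lit 1) (nat_lit 44)))) (T.n (T.n (T.l (nat_lit 1) (nat_lit 46)) (T.l (nat_lit 1) (nat_lit 54))) (T.n (T.l (nat_lit 1) (nat_lit 57)) (T.l (nat_lit 2) (nat_lit 31))))) (T.n (T.n (T.n (T.l (nat_lit 2) (nat_lit 35)) (T.l (nat_lit 2) (nat_lit 42))) (T.n (T.l (nat_lit 2) (nat_lit 45)) (T.l (nat_lit 2) (nat_lit 56)))) (T.n (T.n (T.l (nat_lit 2) (nat_lit 58)) (T.l (nat_lit 4) (nat_lit 18))) (T.n (T.l (nat_lit 4) (nat_lit 21)) (T.l (nat_lit 4) (nat_lit 32)))))) (T.n (T.n (T.n (T.l (nat_lit 4) (nat_lit 34)) (T.n (T.l (nat_lit 4) (nat_lit 36)) (T.l (nat_lit 4) (nat_lit 38)))) (T.n (T.n (T.l (nat_lit 5) (nat_lit 18)) (T.l (nat_lit 5) (nat_lit 21))) (T.n (T.l (nat_lit 5) (nat_lit 31)) (T.l (nat_lit 5) (nat_lit 35))))) (T.n (T.n (T.n (T.l (nat_lit 5) (nat_lit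 48)) (T.l (nat_lit 5) (nat_lit 50))) (T.n (T.l (nat_lit 6) (nat_lit 17)) (T.l (nat_lit 6) (nat_lit 23)))) (T.n (T.n (T.l (nat_lit 6) (nat_lit 25)) (T.l (nat_lit 6) (nat_lit 26))) (T.n (T.l (nat_lit 6) (nat_lit 42)) (T.l (nat_lit 6) (nat_lit 45))))))) (T.n (T.n (T.n (T.n (T.l (nat_lit 7) (nat_lit 17)) (T.n (T.l (nat_lit 7) (nat_lit 23)) (T.l (nat_lit 7) (nat_lit 44)))) (T.n (T.n (T.l (nat_lit 7) (nat_lit 46)) (T.l (nat_lit 7) (nat_lit 48))) (T.n (T.l (nat_lit 7) (nat_lit 50)) (T.l (nat_lit 9) (nat_lit 16))))) (T.n (T.n (T.n (T.l (nat_lit 9) (nat_lit 20)) (T.l (nat_lit 9) (nat_lit 25))) (T.n (T.l (nat_lit 9) (nat_lit 26)) (T.l (nat_lit 9) (nat_lit 54)))) (T.n (T.n (T.l (nat_lit 9) (nat_lit 57)) (T.l (nat_lit 10) (nat_lit 16))) (T.n (T.l (nat_lit 10) (nat_lit 20)) (T.l (nat_lit 10) (nat_lit 36)))))) (T.n (T.n (T.n (T.l (nat_lit 10) (nat_lit 38)) (T.n (T.l (nat_lit 10)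 (nat_lit 56)) (T.l (nat_lit 10) (nat_lit 58)))) (T.n (T.n (T.l (nat_lit 15) (nat_lit 32)) (T.l (nat_lit 15) (nat_lit 35))) (T.n (T.l (nat_lit 15) (nat_lit 38)) (T.l (nat_lit 15) (nat_lit 46))))) (T.n (T.n (T.n (T.l (nat_lit 15) (nat_lit 50)) (T.l (nat_lit 15) (nat_lit 58))) (T.n (T.l (nat_lit 16) (nat_lit 9)) (T.l (nat_lit 16) (nat_lit 10)))) (T.n (T.n (T.l (nat_lit 16) (nat_lit 37)) (T.l (nat_lit 16) (nat_lit 39))) (T.n (T.l (nat_lit 16) (nat_lit 51)) (T.l (nat_lit 17) (nat_lit 6)))))))) (T.n (T.n (T.n (T.n (T.n (T.l (nat_lit 17) (nat_lit 7)) (T.n (T.l (nat_lit 17) (nat_lit 39)) (T.l (nat_lit 17) (nat_lit 49)))) (T.n (T.n (T.l (nat_lit 17) (nat_lit 51)) (T.l (nat_lit 18) (nat_lit 4))) (T.n (T.l (nat_lit 18) (nat_lit 5)) (T.l (nat_lit 18) (nat_lit 28))))) (T.n (T.n (T.n (T.l (nat_lit 18) (nat_lit 49)) (T.l (nat_lit 18) (nat_lit 52))) (T.n (T.l (nat_lit 19) (nat_lit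 25)) (T.l (nat_lit 19) (nat_lit 35)))) (T.n (T.n (T.l (nat_lit 19) (nat_lit 42)) (T.l (nat_lit 19) (nat_lit 46))) (T.n (T.l (nat_lit 19) (nat_lit 48)) (T.l (nat_lit 19) (nat_lit 54)))))) (T.n (T.n (T.n (T.l (nat_lit 20) (nat_lit 9)) (T.n (T.l (nat_lit 20) (nat_lit 10)) (T.l (nat_lit 20) (nat_lit 24)))) (T.n (T.n (T.l (nat_lit 20) (nat_lit 28)) (T.l (nat_lit 20) (nat_lit 52))) (T.n (T.l (nat_lit 21) (nat_lit 4)) (T.l (nat_lit 21) (nat_lit 5))))) (T.n (T.n (T.n (T.l (nat_lit 21) (nat_lit 29)) (T.l (nat_lit 21) (nat_lit 37))) (T.n (T.l (nat_lit 21) (nat_lit 40)) (T.l (nat_lit 22) (nat_lit 26)))) (T.n (T.n (T.l (nat_lit 22) (nat_lit 32)) (T.l (nat_lit 22) (nat_lit 36))) (T.n (T.l (nat_lit 22) (nat_lit 42)) (T.l (nat_lit 22) (nat_lit 54))))))) (T.n (T.n (T.n (T.n (T.l (nat_lit 22) (nat_lit 58)) (T.n (T.l (nat_lit 23) (nat_lit 6)) (T.l (nat_lit 23) (nat_lit 7)))) (T.n (T.n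 (T.l (nat_lit 23) (nat_lit 24)) (T.l (nat_lit 23) (nat_lit 29))) (T.n (T.l (nat_lit 23) (nat_lit 40)) (T.l (nat_lit 24) (nat_lit 20))))) (T.n (T.n (T.n (T.l (nat_lit 24) (nat_lit 23)) (T.l (nat_lit 24) (nat_lit 44))) (T.n (T.l (nat_lit 24) (nat_lit 45)) (T.l (nat_lit 24) (nat_lit 56)))) (T.n (T.n (T.l (nat_lit 24) (nat_lit 57)) (T.l (nat_lit 25) (nat_lit 6))) (T.n (T.l (nat_lit 25) (nat_lit 9)) (T.l (nat_lit 25) (nat_lit 19)))))) (T.n (T.n (T.n (T.l (nat_lit 25) (nat_lit 51)) (T.n (T.l (nat_lit 25) (nat_lit 52)) (T.l (nat_lit 26) (nat_lit 6)))) (T.n (T.n (T.l (nat_lit 26) (nat_lit 9)) (T.l (nat_lit 26) (nat_lit 22))) (T.n (T.l (nat_lit 26) (nat_lit 39)) (T.l (nat_lit 26) (nat_lit 40))))) (T.n (T.n (T.n (T.l (nat_lit 28) (nat_lit 18)) (T.l (nat_lit 28) (nat_lit 20))) (T.n (T.l (nat_lit 28) (nat_lit 36)) (T.l (nat_lit 28) (nat_lit 44)))) (T.n (T.n (T.l (nat_lit 28)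 (nat_lit 48)) (T.l (nat_lit 28) (nat_lit 54))) (T.n (T.l (nat_lit 29) (nat_lit 21)) (T.l (nat_lit 29) (nat_lit 23))))))))) (T.n (T.n (T.n (T.n (T.n (T.n (T.l (nat_lit 29) (nat_lit 36)) (T.n (T.l (nat_lit 29) (nat_lit 42)) (T.l (nat_lit 29) (nat_lit 48)))) (T.n (T.n (T.l (nat_lit 29) (nat_lit 56)) (T.l (nat_lit 31) (nat_lit 2))) (T.n (T.l (nat_lit 31) (nat_lit 5)) (T.l (nat_lit 31) (nat_lit 37))))) (T.n (T.n (T.n (T.l (nat_lit 31) (nat_lit 39)) (T.l (nat_lit 31) (nat_lit 49))) (T.n (T.l (nat_lit 32) (nat_lit 1)) (T.l (nat_lit 32) (nat_lit 4)))) (T.n (T.n (T.l (nat_lit 32) (nat_lit 15)) (T.l (nat_lit 32) (nat_lit 22))) (T.n (T.l (nat_lit 32) (nat_lit 40)) (T.l (nat_lit 34) (nat_lit 1)))))) (T.n (T.n (T.n (T.l (nat_lit 34) (nat_lit 4)) (T.n (T.l (nat_lit 34) (nat_lit 37)) (T.l (nat_lit 34) (nat_lit 49)))) (T.n (T.n (T.l (nat_lit 34) (nat_lit 51)) (T.l (nat_lit 35) (nat_lit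 2))) (T.n (T.l (nat_lit 35) (nat_lit 5)) (T.l (nat_lit 35) (nat_lit 15))))) (T.n (T.n (T.n (T.l (nat_lit 35) (nat_lit 19)) (T.l (nat_lit 35) (nat_lit 52))) (T.n (T.l (nat_lit 36) (nat_lit 4)) (T.l (nat_lit 36) (nat_lit 10)))) (T.n (T.n (T.l (nat_lit 36) (nat_lit 22)) (T.l (nat_lit 36) (nat_lit 28))) (T.n (T.l (nat_lit 36) (nat_lit 29)) (T.l (nat_lit 37) (nat_lit 16))))))) (T.n (T.n (T.n (T.n (T.l (nat_lit 37) (nat_lit 21)) (T.n (T.l (nat_lit 37) (nat_lit 31)) (T.l (nat_lit 37) (nat_lit 34)))) (T.n (T.n (T.l (nat_lit 37) (nat_lit 56)) (T.l (nat_lit 37) (nat_lit 57))) (T.n (T.l (nat_lit 38) (nat_lit 4)) (T.l (nat_lit 38) (nat_lit 10))))) (T.n (T.n (T.n (T.l (nat_lit 38) (nat_lit 15)) (T.l (nat_lit 38) (nat_lit 51))) (T.n (T.l (nat_lit 38) (nat_lit 52)) (T.l (nat_lit 39) (nat_lit 16)))) (T.n (T.n (T.l (nat_lit 39) (nat_lit 17)) (T.l (nat_lit 39) (nat_lit 26))) (T.n (T.l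 (nat_lit 39) (nat_lit 31)) (T.l (nat_lit 39) (nat_lit 50)))))) (T.n (T.n (T.n (T.l (nat_lit 39) (nat_lit 58)) (T.n (T.l (nat_lit 40) (nat_lit 21)) (T.l (nat_lit 40) (nat_lit 23)))) (T.n (T.n (T.l (nat_lit 40) (nat_lit 26)) (T.l (nat_lit 40) (nat_lit 32))) (T.n (T.l (nat_lit 40) (nat_lit 50)) (T.l (nat_lit 40) (nat_lit 57))))) (T.n (T.n (T.n (T.l (nat_lit 42) (nat_lit 2)) (T.l (nat_lit 42) (nat_lit 6))) (T.n (T.l (nat_lit 42) (nat_lit 19)) (T.l (nat_lit 42) (nat_lit 22)))) (T.n (T.n (T.l (nat_lit 42) (nat_lit 29)) (T.l (nat_lit 44) (nat_lit 1))) (T.n (T.l (nat_lit 44) (nat_lit 7)) (T.l (nat_lit 44) (nat_lit 24)))))))) (T.n (T.n (T.n (T.n (T.n (T.l (nat_lit 44) (nat_lit 28)) (T.n (T.l (nat_lit 44) (nat_lit 49)) (T.l (nat_lit 45) (nat_lit 2)))) (T.n (T.n (T.l (nat_lit 45) (nat_lit 6)) (T.l (nat_lit 45) (nat_lit 24))) (T.n (T.l (nat_lit 45) (nat_lit 49)) (T.l (nat_lit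 45) (nat_lit 52))))) (T.n (T.n (T.n (T.l (nat_lit 46) (nat_lit 1)) (T.l (nat_lit 46) (nat_lit 7))) (T.n (T.l (nat_lit 46) (nat_lit 15)) (T.l (nat_lit 46) (nat_lit 19)))) (T.n (T.n (T.l (nat_lit 46) (nat_lit 51)) (T.l (nat_lit 48) (nat_lit 5))) (T.n (T.l (nat_lit 48) (nat_lit 7)) (T.l (nat_lit 48) (nat_lit 19)))))) (T.n (T.n (T.n (T.l (nat_lit 48) (nat_lit 28)) (T.n (T.l (nat_lit 48) (nat_lit 29)) (T.l (nat_lit 49) (nat_lit 17)))) (T.n (T.n (T.l (nat_lit 49) (nat_lit 18)) (T.l (nat_lit 49) (nat_lit 31))) (T.n (T.l (nat_lit 49) (nat_lit 34)) (T.l (nat_lit 49) (nat_lit 44))))) (T.n (T.n (T.n (T.l (nat_lit 49) (nat_lit 45)) (T.l (nat_lit 50) (nat_lit 5))) (T.n (T.l (nat_lit 50) (nat_lit 7)) (T.l (nat_lit 50) (nat_lit 15)))) (T.n (T.n (T.l (nat_lit 50) (nat_lit 39)) (T.l (nat_lit 50) (nat_lit 40))) (T.n (T.l (nat_lit 51) (nat_lit 16)) (T.l (nat_lit 51) (nat_lit 17)))))))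 (T.n (T.n (T.n (T.n (T.l (nat_lit 51) (nat_lit 25)) (T.n (T.l (nat_lit 51) (nat_lit 34)) (T.l (nat_lit 51) (nat_lit 38)))) (T.n (T.n (T.l (nat_lit 51) (nat_lit 46)) (T.l (nat_lit 52) (nat_lit 18))) (T.n (T.l (nat_lit 52) (nat_lit 20)) (T.l (nat_lit 52) (nat_lit 25))))) (T.n (T.n (T.n (T.l (nat_lit 52) (nat_lit 35)) (T.l (nat_lit 52) (nat_lit 38))) (T.n (T.l (nat_lit 52) (nat_lit 45)) (T.l (nat_lit 54) (nat_lit 1)))) (T.n (T.n (T.l (nat_lit 54) (nat_lit 9)) (T.l (nat_lit 54) (nat_lit 19))) (T.n (T.l (nat_lit 54) (nat_lit 22)) (T.l (nat_lit 54) (nat_lit 28)))))) (T.n (T.n (T.n (T.l (nat_lit 56) (nat_lit 2)) (T.n (T.l (nat_lit 56) (nat_lit 10)) (T.l (nat_lit 56) (nat_lit 24)))) (T.n (T.n (T.l (nat_lit 56) (nat_lit 29)) (T.l (nat_lit 56) (nat_lit 37))) (T.n (T.l (nat_lit 57) (nat_lit 1)) (T.l (nat_lit 57) (nat_lit 9))))) (T.n (T.n (T.n (T.l (nat_lit 57) (nat_lit 24))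 (T.l (nat_lit 57) (nat_lit 37))) (T.n (T.l (nat_lit 57) (nat_lit 40)) (T.l (nat_lit 58) (nat_lit 2)))) (T.n (T.n (T.l (nat_lit 58) (nat_lit 10)) (T.l (nat_lit 58) (nat_lit 15))) (T.n (T.l (nat_lit 58) (nat_lit 22)) (T.l (nat_lit 58) (nat_lit 39)))))))))
def T16_0 : T := T.n (T.n (T.n (T.l (nat_lit 3) (nat_lit 3)) (T.n (T.l (nat_lit 8) (nat_lit 8)) (T.l (nat_lit 11) (nat_lit 11)))) (T.n (T.n (T.l (nat_lit 12) (nat_lit 12)) (T.l (nat_lit 13) (nat_lit 13))) (T.n (T.l (nat_lit 14) (nat_lit 14)) (T.l (nat_lit 27) (nat_lit 27))))) (T.n (T.n (T.n (T.l (nat_lit 30) (nat_lit 30)) (T.l (nat_lit 33) (nat_lit 33))) (T.n (T.l (nat_lit 41) (nat_lit 41)) (T.l (nat_lit 43) (nat_lit 43)))) (T.n (T.n (T.l (nat_lit 47) (nat_lit 47)) (T.l (nat_lit 53) (nat_lit 53))) (T.n (T.l (nat_lit 55) (nat_lit 55)) (T.l (nat_lit 59) (nat_lit 59)))))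
def T17_0 : T := T.n (T.n (T.n (T.n (T.l (nat_lit 3) (nat_lit 8)) (T.n (T.l (nat_lit 3) (nat_lit 11)) (T.l (nat_lit 8) (nat_lit 3)))) (T.n (T.n (T.l (nat_lit 8) (nat_lit 11)) (T.l (nat_lit 11) (nat_lit 3))) (T.n (T.l (nat_lit 11) (nat_lit 8)) (T.l (nat_lit 12) (nat_lit 47))))) (T.n (T.n (T.n (T.l (nat_lit 12) (nat_lit 59)) (T.l (nat_lit 13) (nat_lit 30))) (T.n (T.l (nat_lit 13) (nat_lit 43)) (T.l (nat_lit 14) (nat_lit 33)))) (T.n (T.n (T.l (nat_lit 14) (nat_lit 55)) (T.l (nat_lit 27) (nat_lit 41))) (T.n (T.l (nat_lit 27) (nat_lit 53)) (T.l (nat_lit 30) (nat_lit 13)))))) (T.n (T.n (T.n (T.l (nat_lit 30) (nat_lit 43)) (T.n (T.l (nat_lit 33) (nat_lit 14)) (T.l (nat_lit 33) (nat_lit 55)))) (T.n (T.n (T.l (nat_lit 41) (nat_lit 27)) (T.l (nat_lit 41) (nat_lit 53))) (T.n (T.l (nat_lit 43) (nat_lit 13)) (T.l (nat_lit 43) (nat_lit 30))))) (T.n (T.n (T.n (T.l (nat_lit 47) (nat_lit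 12)) (T.l (nat_lit 47) (nat_lit 59))) (T.n (T.l (nat_lit 53) (nat_lit 27)) (T.l (nat_lit 53) (nat_lit 41)))) (T.n (T.n (T.l (nat_lit 55) (nat_lit 14)) (T.l (nat_lit 55) (nat_lit 33))) (T.n (T.l (nat_lit 59) (nat_lit 12)) (T.l (nat_lit 59) (nat_lit 47))))))
def T18_0 : T := T.n (T.n (T.n (T.n (T.n (T.l (nat_lit 3) (nat_lit 12)) (T.n (T.l (nat_lit 3) (nat_lit 27)) (T.l (nat_lit 3) (nat_lit 43)))) (T.n (T.n (T.l (nat_lit 3) (nat_lit 55)) (T.l (nat_lit 8) (nat_lit 14))) (T.n (T.l (nat_lit 8) (nat_lit 30)) (T.l (nat_lit 8) (nat_lit 41))))) (T.n (T.n (T.n (T.l (nat_lit 8) (nat_lit 59)) (T.l (nat_lit 11) (nat_lit 13))) (T.n (T.l (nat_lit 11) (nat_lit 33)) (T.l (nat_lit 11) (nat_lit 47)))) (T.n (T.n (T.l (nat_lit 11) (nat_lit 53)) (T.l (nat_lit 12) (nat_lit 3))) (T.n (T.l (nat_lit 12) (nat_lit 13)) (T.l (nat_lit 12) (nat_lit 14)))))) (T.n (T.n (T.n (T.l (nat_lit 12) (nat_lit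 27)) (T.n (T.l (nat_lit 13) (nat_lit 11)) (T.l (nat_lit 13) (nat_lit 12)))) (T.n (T.n (T.l (nat_lit 13) (nat_lit 14)) (T.l (nat_lit 13) (nat_lit 53))) (T.n (T.l (nat_lit 14) (nat_lit 8)) (T.l (nat_lit 14) (nat_lit 12))))) (T.n (T.n (T.n (T.l (nat_lit 14) (nat_lit 13)) (T.l (nat_lit 14) (nat_lit 41))) (T.n (T.l (nat_lit 27) (nat_lit 3)) (T.l (nat_lit 27) (nat_lit 12)))) (T.n (T.n (T.l (nat_lit 27) (nat_lit 30)) (T.l (nat_lit 27) (nat_lit 33))) (T.n (T.l (nat_lit 30) (nat_lit 8)) (T.l (nat_lit 30) (nat_lit 27))))))) (T.n (T.n (T.n (T.n (T.l (nat_lit 30) (nat_lit 33)) (T.n (T.l (nat_lit 30) (nat_lit 59)) (T.l (nat_lit 33) (nat_lit 11)))) (T.n (T.n (T.l (nat_lit 33) (nat_lit 27)) (T.l (nat_lit 33) (nat_lit 30))) (T.n (T.l (nat_lit 33) (nat_lit 47)) (T.l (nat_lit 41) (nat_lit 8))))) (T.n (T.n (T.n (T.l (nat_lit 41) (nat_lit 14)) (T.l (nat_lit 41) (nat_lit 43))) (T.n (T.l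 (nat_lit 41) (nat_lit 47)) (T.l (nat_lit 43) (nat_lit 3)))) (T.n (T.n (T.l (nat_lit 43) (nat_lit 41)) (T.l (nat_lit 43) (nat_lit 47))) (T.n (T.l (nat_lit 43) (nat_lit 55)) (T.l (nat_lit 47) (nat_lit 11)))))) (T.n (T.n (T.n (T.l (nat_lit 47) (nat_lit 33)) (T.n (T.l (nat_lit 47) (nat_lit 41)) (T.l (nat_lit 47) (nat_lit 43)))) (T.n (T.n (T.l (nat_lit 53) (nat_lit 11)) (T.l (nat_lit 53) (nat_lit 13))) (T.n (T.l (nat_lit 53) (nat_lit 55)) (T.l (nat_lit 53) (nat_lit 59))))) (T.n (T.n (T.n (T.l (nat_lit 55) (nat_lit 3)) (T.l (nat_lit 55) (nat_lit 43))) (T.n (T.l (nat_lit 55) (nat_lit 53)) (T.l (nat_lit 55) (nat_lit 59)))) (T.n (T.n (T.l (nat_lit 59) (nat_lit 8)) (T.l (nat_lit 59) (nat_lit 30))) (T.n (T.l (nat_lit 59) (nat_lit 53)) (T.l (nat_lit 59) (nat_lit 55)))))))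
def T19_0 : T := T.n (T.n (T.n (T.n (T.n (T.n (T.l (nat_lit 3) (nat_lit 13)) (T.n (T.l (nat_lit 3) (nat_lit 14)) (T.l (nat_lit 3) (nat_lit 30)))) (T.n (T.n (T.l (nat_lit 3) (nat_lit 33)) (T.l (nat_lit 3) (nat_lit 41))) (T.n (T.l (nat_lit 3) (nat_lit 47)) (T.l (nat_lit 3) (nat_lit 53))))) (T.n (T.n (T.n (T.l (nat_lit 3) (nat_lit 59)) (T.l (nat_lit 8) (nat_lit 12))) (T.n (T.l (nat_lit 8) (nat_lit 13)) (T.l (nat_lit 8) (nat_lit 27)))) (T.n (T.n (T.l (nat_lit 8) (nat_lit 33)) (T.l (nat_lit 8) (nat_lit 43))) (T.n (T.l (nat_lit 8) (nat_lit 47)) (T.l (nat_lit 8) (nat_lit 53)))))) (T.n (T.n (T.n (T.l (nat_lit 8) (nat_lit 55)) (T.n (T.l (nat_lit 11) (nat_lit 12)) (T.l (nat_lit 11) (nat_lit 14)))) (T.n (T.n (T.l (nat_lit 11) (nat_lit 27)) (T.l (nat_lit 11) (nat_lit 30))) (T.n (T.l (nat_lit 11) (nat_lit 41)) (T.l (nat_lit 11) (nat_lit 43))))) (T.n (T.n (T.n (T.l (nat_lit 11)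 (nat_lit 55)) (T.l (nat_lit 11) (nat_lit 59))) (T.n (T.l (nat_lit 12) (nat_lit 8)) (T.l (nat_lit 12) (nat_lit 11)))) (T.n (T.n (T.l (nat_lit 12) (nat_lit 30)) (T.l (nat_lit 12) (nat_lit 33))) (T.n (T.l (nat_lit 12) (nat_lit 41)) (T.l (nat_lit 12) (nat_lit 43))))))) (T.n (T.n (T.n (T.n (T.l (nat_lit 12) (nat_lit 53)) (T.n (T.l (nat_lit 12) (nat_lit 55)) (T.l (nat_lit 13) (nat_lit 3)))) (T.n (T.n (T.l (nat_lit 13) (nat_lit 8)) (T.l (nat_lit 13) (nat_lit 27))) (T.n (T.l (nat_lit 13) (nat_lit 33)) (T.l (nat_lit 13) (nat_lit 41))))) (T.n (T.n (T.n (T.l (nat_lit 13) (nat_lit 47)) (T.l (nat_lit 13) (nat_lit 55))) (T.n (T.l (nat_lit 13) (nat_lit 59)) (T.l (nat_lit 14) (nat_lit 3)))) (T.n (T.n (T.l (nat_lit 14) (nat_lit 11)) (T.l (nat_lit 14) (nat_lit 27))) (T.n (T.l (nat_lit 14) (nat_lit 30)) (T.l (nat_lit 14) (nat_lit 43)))))) (T.n (T.n (T.n (T.l (nat_lit 14) (nat_lit 47))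 (T.n (T.l (nat_lit 14) (nat_lit 53)) (T.l (nat_lit 14) (nat_lit 59)))) (T.n (T.n (T.l (nat_lit 27) (nat_lit 8)) (T.l (nat_lit 27) (nat_lit 11))) (T.n (T.l (nat_lit 27) (nat_lit 13)) (T.l (nat_lit 27) (nat_lit 14))))) (T.n (T.n (T.n (T.l (nat_lit 27) (nat_lit 43)) (T.l (nat_lit 27) (nat_lit 47))) (T.n (T.l (nat_lit 27) (nat_lit 55)) (T.l (nat_lit 27) (nat_lit 59)))) (T.n (T.n (T.l (nat_lit 30) (nat_lit 3)) (T.l (nat_lit 30) (nat_lit 11))) (T.n (T.l (nat_lit 30) (nat_lit 12)) (T.l (nat_lit 30) (nat_lit 14)))))))) (T.n (T.n (T.n (T.n (T.n (T.l (nat_lit 30) (nat_lit 41)) (T.n (T.l (nat_lit 30) (nat_lit 47)) (T.l (nat_lit 30) (nat_lit 53)))) (T.n (T.n (T.l (nat_lit 30) (nat_lit 55)) (T.l (nat_lit 33) (nat_lit 3))) (T.n (T.l (nat_lit 33) (nat_lit 8)) (T.l (nat_lit 33) (nat_lit 12))))) (T.n (T.n (T.n (T.l (nat_lit 33) (nat_lit 13)) (T.l (nat_lit 33) (nat_lit 41))) (T.n (T.l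 (nat_lit 33) (nat_lit 43)) (T.l (nat_lit 33) (nat_lit 53)))) (T.n (T.n (T.l (nat_lit 33) (nat_lit 59)) (T.l (nat_lit 41) (nat_lit 3))) (T.n (T.l (nat_lit 41) (nat_lit 11)) (T.l (nat_lit 41) (nat_lit 12)))))) (T.n (T.n (T.n (T.l (nat_lit 41) (nat_lit 13)) (T.n (T.l (nat_lit 41) (nat_lit 30)) (T.l (nat_lit 41) (nat_lit 33)))) (T.n (T.n (T.l (nat_lit 41) (nat_lit 55)) (T.l (nat_lit 41) (nat_lit 59))) (T.n (T.l (nat_lit 43) (nat_lit 8)) (T.l (nat_lit 43) (nat_lit 11))))) (T.n (T.n (T.n (T.l (nat_lit 43) (nat_lit 12)) (T.l (nat_lit 43) (nat_lit 14))) (T.n (T.l (nat_lit 43) (nat_lit 27)) (T.l (nat_lit 43) (nat_lit 33)))) (T.n (T.n (T.l (nat_lit 43) (nat_lit 53)) (T.l (nat_lit 43) (nat_lit 59))) (T.n (T.l (nat_lit 47) (nat_lit 3)) (T.l (nat_lit 47) (nat_lit 8))))))) (T.n (T.n (T.n (T.n (T.l (nat_lit 47) (nat_lit 13)) (T.n (T.l (nat_lit 47) (nat_lit 14)) (T.l (nat_lit 47)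 (nat_lit 27)))) (T.n (T.n (T.l (nat_lit 47) (nat_lit 30)) (T.l (nat_lit 47) (nat_lit 53))) (T.n (T.l (nat_lit 47) (nat_lit 55)) (T.l (nat_lit 53) (nat_lit 3))))) (T.n (T.n (T.n (T.l (nat_lit 53) (nat_lit 8)) (T.l (nat_lit 53) (nat_lit 12))) (T.n (T.l (nat_lit 53) (nat_lit 14)) (T.l (nat_lit 53) (nat_lit 30)))) (T.n (T.n (T.l (nat_lit 53) (nat_lit 33)) (T.l (nat_lit 53) (nat_lit 43))) (T.n (T.l (nat_lit 53) (nat_lit 47)) (T.l (nat_lit 55) (nat_lit 8)))))) (T.n (T.n (T.n (T.l (nat_lit 55) (nat_lit 11)) (T.n (T.l (nat_lit 55) (nat_lit 12)) (T.l (nat_lit 55) (nat_lit 13)))) (T.n (T.n (T.l (nat_lit 55) (nat_lit 27)) (T.l (nat_lit 55) (nat_lit 30))) (T.n (T.l (nat_lit 55) (nat_lit 41)) (T.l (nat_lit 55) (nat_lit 47))))) (T.n (T.n (T.n (T.l (nat_lit 59) (nat_lit 3)) (T.l (nat_lit 59) (nat_lit 11))) (T.n (T.l (nat_lit 59) (nat_lit 13)) (T.l (nat_lit 59) (nat_lit 14)))) (T.n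 (T.n (T.l (nat_lit 59) (nat_lit 27)) (T.l (nat_lit 59) (nat_lit 33))) (T.n (T.l (nat_lit 59) (nat_lit 41)) (T.l (nat_lit 59) (nat_lit 43))))))))
def T20_0 : T := T.n (T.n (T.n (T.n (T.n (T.n (T.n (T.l (nat_lit 3) (nat_lit 16)) (T.n (T.l (nat_lit 3) (nat_lit 17)) (T.l (nat_lit 3) (nat_lit 31)))) (T.n (T.n (T.l (nat_lit 3) (nat_lit 34)) (T.l (nat_lit 3) (nat_lit 36))) (T.n (T.l (nat_lit 3) (nat_lit 42)) (T.l (nat_lit 3) (nat_lit 48))))) (T.n (T.n (T.n (T.l (nat_lit 3) (nat_lit 54)) (T.l (nat_lit 8) (nat_lit 18))) (T.n (T.l (nat_lit 8) (nat_lit 20)) (T.l (nat_lit 8) (nat_lit 26)))) (T.n (T.n (T.l (nat_lit 8) (nat_lit 32)) (T.l (nat_lit 8) (nat_lit 44))) (T.n (T.l (nat_lit 8) (nat_lit 45)) (T.l (nat_lit 8) (nat_lit 50)))))) (T.n (T.n (T.n (T.l (nat_lit 8) (nat_lit 58)) (T.n (T.l (nat_lit 11) (nat_lit 21)) (T.l (nat_lit 11) (nat_lit 23)))) (T.n (T.n (T.l (nat_lit 11) (nat_lit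 25)) (T.l (nat_lit 11) (nat_lit 35))) (T.n (T.l (nat_lit 11) (nat_lit 38)) (T.l (nat_lit 11) (nat_lit 46))))) (T.n (T.n (T.n (T.l (nat_lit 11) (nat_lit 56)) (T.l (nat_lit 11) (nat_lit 57))) (T.n (T.l (nat_lit 12) (nat_lit 16)) (T.l (nat_lit 12) (nat_lit 17)))) (T.n (T.n (T.l (nat_lit 12) (nat_lit 18)) (T.l (nat_lit 12) (nat_lit 21))) (T.n (T.l (nat_lit 12) (nat_lit 25)) (T.l (nat_lit 12) (nat_lit 26))))))) (T.n (T.n (T.n (T.n (T.l (nat_lit 12) (nat_lit 36)) (T.n (T.l (nat_lit 12) (nat_lit 48)) (T.l (nat_lit 13) (nat_lit 16)))) (T.n (T.n (T.l (nat_lit 13) (nat_lit 20)) (T.l (nat_lit 13) (nat_lit 21))) (T.n (T.l (nat_lit 13) (nat_lit 23)) (T.l (nat_lit 13) (nat_lit 25))))) (T.n (T.n (T.n (T.l (nat_lit 13) (nat_lit 38)) (T.l (nat_lit 13) (nat_lit 48))) (T.n (T.l (nat_lit 13) (nat_lit 50)) (T.l (nat_lit 14) (nat_lit 17)))) (T.n (T.n (T.l (nat_lit 14) (nat_lit 18)) (T.l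 (nat_lit 14) (nat_lit 20))) (T.n (T.l (nat_lit 14) (nat_lit 23)) (T.l (nat_lit 14) (nat_lit 26)))))) (T.n (T.n (T.n (T.l (nat_lit 14) (nat_lit 36)) (T.n (T.l (nat_lit 14) (nat_lit 38)) (T.l (nat_lit 14) (nat_lit 50)))) (T.n (T.n (T.l (nat_lit 16) (nat_lit 3)) (T.l (nat_lit 16) (nat_lit 12))) (T.n (T.l (nat_lit 16) (nat_lit 13)) (T.l (nat_lit 16) (nat_lit 53))))) (T.n (T.n (T.n (T.l (nat_lit 16) (nat_lit 55)) (T.l (nat_lit 17) (nat_lit 3))) (T.n (T.l (nat_lit 17) (nat_lit 12)) (T.l (nat_lit 17) (nat_lit 14)))) (T.n (T.n (T.l (nat_lit 17) (nat_lit 41)) (T.l (nat_lit 17) (nat_lit 43))) (T.n (T.l (nat_lit 18) (nat_lit 8)) (T.l (nat_lit 18) (nat_lit 12)))))))) (T.n (T.n (T.n (T.n (T.n (T.l (nat_lit 18) (nat_lit 14)) (T.n (T.l (nat_lit 18) (nat_lit 27)) (T.l (nat_lit 18) (nat_lit 30)))) (T.n (T.n (T.l (nat_lit 20) (nat_lit 8)) (T.l (nat_lit 20) (nat_lit 13))) (T.n (T.l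 (nat_lit 20) (nat_lit 14)) (T.l (nat_lit 20) (nat_lit 53))))) (T.n (T.n (T.n (T.l (nat_lit 20) (nat_lit 59)) (T.l (nat_lit 21) (nat_lit 11))) (T.n (T.l (nat_lit 21) (nat_lit 12)) (T.l (nat_lit 21) (nat_lit 13)))) (T.n (T.n (T.l (nat_lit 21) (nat_lit 27)) (T.l (nat_lit 21) (nat_lit 33))) (T.n (T.l (nat_lit 23) (nat_lit 11)) (T.l (nat_lit 23) (nat_lit 13)))))) (T.n (T.n (T.n (T.l (nat_lit 23) (nat_lit 14)) (T.n (T.l (nat_lit 23) (nat_lit 41)) (T.l (nat_lit 23) (nat_lit 47)))) (T.n (T.n (T.l (nat_lit 25) (nat_lit 11)) (T.l (nat_lit 25) (nat_lit 12))) (T.n (T.l (nat_lit 25) (nat_lit 13)) (T.l (nat_lit 25) (nat_lit 27))))) (T.n (T.n (T.n (T.l (nat_lit 25) (nat_lit 33)) (T.l (nat_lit 26) (nat_lit 8))) (T.n (T.l (nat_lit 26) (nat_lit 12)) (T.l (nat_lit 26) (nat_lit 14)))) (T.n (T.n (T.l (nat_lit 26) (nat_lit 27)) (T.l (nat_lit 26) (nat_lit 30))) (T.n (T.l (nat_lit 27) (nat_lit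 18)) (T.l (nat_lit 27) (nat_lit 21))))))) (T.n (T.n (T.n (T.n (T.l (nat_lit 27) (nat_lit 25)) (T.n (T.l (nat_lit 27) (nat_lit 26)) (T.l (nat_lit 27) (nat_lit 31)))) (T.n (T.n (T.l (nat_lit 27) (nat_lit 34)) (T.l (nat_lit 27) (nat_lit 42))) (T.n (T.l (nat_lit 27) (nat_lit 54)) (T.l (nat_lit 30) (nat_lit 18))))) (T.n (T.n (T.n (T.l (nat_lit 30) (nat_lit 26)) (T.l (nat_lit 30) (nat_lit 31))) (T.n (T.l (nat_lit 30) (nat_lit 32)) (T.l (nat_lit 30) (nat_lit 35)))) (T.n (T.n (T.l (nat_lit 30) (nat_lit 45)) (T.l (nat_lit 30) (nat_lit 54))) (T.n (T.l (nat_lit 30) (nat_lit 57)) (T.l (nat_lit 31) (nat_lit 3)))))) (T.n (T.n (T.n (T.l (nat_lit 31) (nat_lit 27)) (T.n (T.l (nat_lit 31) (nat_lit 30)) (T.l (nat_lit 31) (nat_lit 55)))) (T.n (T.n (T.l (nat_lit 31) (nat_lit 59)) (T.l (nat_lit 32) (nat_lit 8))) (T.n (T.l (nat_lit 32) (nat_lit 30)) (T.l (nat_lit 32) (nat_lit 33))))) (T.n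 (T.n (T.n (T.l (nat_lit 32) (nat_lit 41)) (T.l (nat_lit 32) (nat_lit 47))) (T.n (T.l (nat_lit 33) (nat_lit 21)) (T.l (nat_lit 33) (nat_lit 25)))) (T.n (T.n (T.l (nat_lit 33) (nat_lit 32)) (T.l (nat_lit 33) (nat_lit 34))) (T.n (T.l (nat_lit 33) (nat_lit 35)) (T.l (nat_lit 33) (nat_lit 42))))))))) (T.n (T.n (T.n (T.n (T.n (T.n (T.l (nat_lit 33) (nat_lit 45)) (T.n (T.l (nat_lit 33) (nat_lit 57)) (T.l (nat_lit 34) (nat_lit 3)))) (T.n (T.n (T.l (nat_lit 34) (nat_lit 27)) (T.l (nat_lit 34) (nat_lit 33))) (T.n (T.l (nat_lit 34) (nat_lit 43)) (T.l (nat_lit 34) (nat_lit 47))))) (T.n (T.n (T.n (T.l (nat_lit 35) (nat_lit 11)) (T.l (nat_lit 35) (nat_lit 30))) (T.n (T.l (nat_lit 35) (nat_lit 33)) (T.l (nat_lit 35) (nat_lit 53)))) (T.n (T.n (T.l (nat_lit 35) (nat_lit 59)) (T.l (nat_lit 36) (nat_lit 3))) (T.n (T.l (nat_lit 36) (nat_lit 12)) (T.l (nat_lit 36) (nat_lit 14)))))) (T.n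 (T.n (T.n (T.l (nat_lit 36) (nat_lit 41)) (T.n (T.l (nat_lit 36) (nat_lit 43)) (T.l (nat_lit 38) (nat_lit 11)))) (T.n (T.n (T.l (nat_lit 38) (nat_lit 13)) (T.l (nat_lit 38) (nat_lit 14))) (T.n (T.l (nat_lit 38) (nat_lit 41)) (T.l (nat_lit 38) (nat_lit 47))))) (T.n (T.n (T.n (T.l (nat_lit 41) (nat_lit 17)) (T.l (nat_lit 41) (nat_lit 23))) (T.n (T.l (nat_lit 41) (nat_lit 32)) (T.l (nat_lit 41) (nat_lit 36)))) (T.n (T.n (T.l (nat_lit 41) (nat_lit 38)) (T.l (nat_lit 41) (nat_lit 44))) (T.n (T.l (nat_lit 41) (nat_lit 45)) (T.l (nat_lit 41) (nat_lit 58))))))) (T.n (T.n (T.n (T.n (T.l (nat_lit 42) (nat_lit 3)) (T.n (T.l (nat_lit 42) (nat_lit 27)) (T.l (nat_lit 42) (nat_lit 33)))) (T.n (T.n (T.l (nat_lit 42) (nat_lit 43)) (T.l (nat_lit 42) (nat_lit 47))) (T.n (T.l (nat_lit 43) (nat_lit 17)) (T.l (nat_lit 43) (nat_lit 34))))) (T.n (T.n (T.n (T.l (nat_lit 43) (nat_lit 36))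 (T.l (nat_lit 43) (nat_lit 42))) (T.n (T.l (nat_lit 43) (nat_lit 44)) (T.l (nat_lit 43) (nat_lit 46)))) (T.n (T.n (T.l (nat_lit 43) (nat_lit 56)) (T.l (nat_lit 43) (nat_lit 58))) (T.n (T.l (nat_lit 44) (nat_lit 8)) (T.l (nat_lit 44) (nat_lit 41)))))) (T.n (T.n (T.n (T.l (nat_lit 44) (nat_lit 43)) (T.n (T.l (nat_lit 44) (nat_lit 55)) (T.l (nat_lit 44) (nat_lit 59)))) (T.n (T.n (T.l (nat_lit 45) (nat_lit 8)) (T.l (nat_lit 45) (nat_lit 30))) (T.n (T.l (nat_lit 45) (nat_lit 33)) (T.l (nat_lit 45) (nat_lit 41))))) (T.n (T.n (T.n (T.l (nat_lit 45) (nat_lit 47)) (T.l (nat_lit 46) (nat_lit 11))) (T.n (T.l (nat_lit 46) (nat_lit 43)) (T.l (nat_lit 46) (nat_lit 47)))) (T.n (T.n (T.l (nat_lit 46) (nat_lit 53)) (T.l (nat_lit 46) (nat_lit 55))) (T.n (T.l (nat_lit 47) (nat_lit 23)) (T.l (nat_lit 47) (nat_lit 32)))))))) (T.n (T.n (T.n (T.n (T.n (T.l (nat_lit 47) (nat_lit 34)) (T.n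 (T.l (nat_lit 47) (nat_lit 38)) (T.l (nat_lit 47) (nat_lit 42)))) (T.n (T.n (T.l (nat_lit 47) (nat_lit 45)) (T.l (nat_lit 47) (nat_lit 46))) (T.n (T.l (nat_lit 47) (nat_lit 56)) (T.l (nat_lit 48) (nat_lit 3))))) (T.n (T.n (T.n (T.l (nat_lit 48) (nat_lit 12)) (T.l (nat_lit 48) (nat_lit 13))) (T.n (T.l (nat_lit 48) (nat_lit 53)) (T.l (nat_lit 48) (nat_lit 55)))) (T.n (T.n (T.l (nat_lit 50) (nat_lit 8)) (T.l (nat_lit 50) (nat_lit 13))) (T.n (T.l (nat_lit 50) (nat_lit 14)) (T.l (nat_lit 50) (nat_lit 53)))))) (T.n (T.n (T.n (T.l (nat_lit 50) (nat_lit 59)) (T.n (T.l (nat_lit 53) (nat_lit 16)) (T.l (nat_lit 53) (nat_lit 20)))) (T.n (T.n (T.l (nat_lit 53) (nat_lit 35)) (T.l (nat_lit 53) (nat_lit 46))) (T.n (T.l (nat_lit 53) (nat_lit 48)) (T.l (nat_lit 53) (nat_lit 50))))) (T.n (T.n (T.n (T.l (nat_lit 53) (nat_lit 56)) (T.l (nat_lit 53) (nat_lit 57))) (T.n (T.l (nat_lit 54)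 (nat_lit 3)) (T.l (nat_lit 54) (nat_lit 27)))) (T.n (T.n (T.l (nat_lit 54) (nat_lit 30)) (T.l (nat_lit 54) (nat_lit 55))) (T.n (T.l (nat_lit 54) (nat_lit 59)) (T.l (nat_lit 55) (nat_lit 16))))))) (T.n (T.n (T.n (T.n (T.l (nat_lit 55) (nat_lit 31)) (T.n (T.l (nat_lit 55) (nat_lit 44)) (T.l (nat_lit 55) (nat_lit 46)))) (T.n (T.n (T.l (nat_lit 55) (nat_lit 48)) (T.l (nat_lit 55) (nat_lit 54))) (T.n (T.l (nat_lit 55) (nat_lit 56)) (T.l (nat_lit 55) (nat_lit 58))))) (T.n (T.n (T.n (T.l (nat_lit 56) (nat_lit 11)) (T.l (nat_lit 56) (nat_lit 43))) (T.n (T.l (nat_lit 56) (nat_lit 47)) (T.l (nat_lit 56) (nat_lit 53)))) (T.n (T.n (T.l (nat_lit 56) (nat_lit 55)) (T.l (nat_lit 57) (nat_lit 11))) (T.n (T.l (nat_lit 57) (nat_lit 30)) (T.l (nat_lit 57) (nat_lit 33)))))) (T.n (T.n (T.n (T.l (nat_lit 57) (nat_lit 53)) (T.n (T.l (nat_lit 57) (nat_lit 59)) (T.l (nat_lit 58) (nat_lit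 8)))) (T.n (T.n (T.l (nat_lit 58) (nat_lit 41)) (T.l (nat_lit 58) (nat_lit 43))) (T.n (T.l (nat_lit 58) (nat_lit 55)) (T.l (nat_lit 58) (nat_lit 59))))) (T.n (T.n (T.n (T.l (nat_lit 59) (nat_lit 20)) (T.l (nat_lit 59) (nat_lit 31))) (T.n (T.l (nat_lit 59) (nat_lit 35)) (T.l (nat_lit 59) (nat_lit 44)))) (T.n (T.n (T.l (nat_lit 59) (nat_lit 50)) (T.l (nat_lit 59) (nat_lit 54))) (T.n (T.l (nat_lit 59) (nat_lit 57)) (T.l (nat_lit 59) (nat_lit 58)))))))))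
def T21_0 : T := T.n (T.n (T.n (T.n (T.n (T.n (T.n (T.l (nat_lit 3) (nat_lit 18)) (T.n (T.l (nat_lit 3) (nat_lit 21)) (T.l (nat_lit 3) (nat_lit 25)))) (T.n (T.n (T.l (nat_lit 3) (nat_lit 26)) (T.l (nat_lit 3) (nat_lit 44))) (T.n (T.l (nat_lit 3) (nat_lit 46)) (T.l (nat_lit 3) (nat_lit 56))))) (T.n (T.n (T.n (T.l (nat_lit 3) (nat_lit 58)) (T.l (nat_lit 8) (nat_lit 17))) (T.n (T.l (nat_lit 8) (nat_lit 23)) (T.l (nat_lit 8) (nat_lit 31)))) (T.n (T.n (T.l (nat_lit 8) (nat_lit 35)) (T.l (nat_lit 8) (nat_lit 36))) (T.n (T.l (nat_lit 8) (nat_lit 38)) (T.l (nat_lit 8) (nat_lit 54)))))) (T.n (T.n (T.n (T.l (nat_lit 8) (nat_lit 57)) (T.n (T.l (nat_lit 11) (nat_lit 16)) (T.l (nat_lit 11) (nat_lit 20)))) (T.n (T.n (T.l (nat_lit 11) (nat_lit 32)) (T.l (nat_lit 11) (nat_lit 34))) (T.n (T.l (nat_lit 11) (nat_lit 42)) (T.l (nat_lit 11) (nat_lit 45))))) (T.n (T.n (T.n (T.l (nat_lit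 11) (nat_lit 48)) (T.l (nat_lit 11) (nat_lit 50))) (T.n (T.l (nat_lit 12) (nat_lit 20)) (T.l (nat_lit 12) (nat_lit 23)))) (T.n (T.n (T.l (nat_lit 12) (nat_lit 31)) (T.l (nat_lit 12) (nat_lit 34))) (T.n (T.l (nat_lit 12) (nat_lit 38)) (T.l (nat_lit 12) (nat_lit 42))))))) (T.n (T.n (T.n (T.n (T.l (nat_lit 12) (nat_lit 50)) (T.n (T.l (nat_lit 12) (nat_lit 54)) (T.l (nat_lit 13) (nat_lit 17)))) (T.n (T.n (T.l (nat_lit 13) (nat_lit 18)) (T.l (nat_lit 13) (nat_lit 26))) (T.n (T.l (nat_lit 13) (nat_lit 35)) (T.l (nat_lit 13) (nat_lit 36))))) (T.n (T.n (T.n (T.l (nat_lit 13) (nat_lit 46)) (T.l (nat_lit 13) (nat_lit 56))) (T.n (T.l (nat_lit 13) (nat_lit 57)) (T.l (nat_lit 14) (nat_lit 16)))) (T.n (T.n (T.l (nat_lit 14) (nat_lit 21)) (T.l (nat_lit 14) (nat_lit 25))) (T.n (T.l (nat_lit 14) (nat_lit 32)) (T.l (nat_lit 14) (nat_lit 44)))))) (T.n (T.n (T.n (T.l (nat_lit 14) (nat_lit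 45)) (T.n (T.l (nat_lit 14) (nat_lit 48)) (T.l (nat_lit 14) (nat_lit 58)))) (T.n (T.n (T.l (nat_lit 16) (nat_lit 11)) (T.l (nat_lit 16) (nat_lit 14))) (T.n (T.l (nat_lit 16) (nat_lit 27)) (T.l (nat_lit 16) (nat_lit 43))))) (T.n (T.n (T.n (T.l (nat_lit 16) (nat_lit 59)) (T.l (nat_lit 17) (nat_lit 8))) (T.n (T.l (nat_lit 17) (nat_lit 13)) (T.l (nat_lit 17) (nat_lit 27)))) (T.n (T.n (T.l (nat_lit 17) (nat_lit 47)) (T.l (nat_lit 17) (nat_lit 55))) (T.n (T.l (nat_lit 18) (nat_lit 3)) (T.l (nat_lit 18) (nat_lit 13)))))))) (T.n (T.n (T.n (T.n (T.n (T.l (nat_lit 18) (nat_lit 33)) (T.n (T.l (nat_lit 18) (nat_lit 41)) (T.l (nat_lit 18) (nat_lit 59)))) (T.n (T.n (T.l (nat_lit 20) (nat_lit 11)) (T.l (nat_lit 20) (nat_lit 12))) (T.n (T.l (nat_lit 20) (nat_lit 30)) (T.l (nat_lit 20) (nat_lit 41))))) (T.n (T.n (T.n (T.l (nat_lit 20) (nat_lit 55)) (T.l (nat_lit 21) (nat_lit 3)))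 (T.n (T.l (nat_lit 21) (nat_lit 14)) (T.l (nat_lit 21) (nat_lit 30)))) (T.n (T.n (T.l (nat_lit 21) (nat_lit 47)) (T.l (nat_lit 21) (nat_lit 53))) (T.n (T.l (nat_lit 23) (nat_lit 8)) (T.l (nat_lit 23) (nat_lit 12)))))) (T.n (T.n (T.n (T.l (nat_lit 23) (nat_lit 33)) (T.n (T.l (nat_lit 23) (nat_lit 43)) (T.l (nat_lit 23) (nat_lit 53)))) (T.n (T.n (T.l (nat_lit 25) (nat_lit 3)) (T.l (nat_lit 25) (nat_lit 14))) (T.n (T.l (nat_lit 25) (nat_lit 30)) (T.l (nat_lit 25) (nat_lit 47))))) (T.n (T.n (T.n (T.l (nat_lit 25) (nat_lit 53)) (T.l (nat_lit 26) (nat_lit 3))) (T.n (T.l (nat_lit 26) (nat_lit 13)) (T.l (nat_lit 26) (nat_lit 33)))) (T.n (T.n (T.l (nat_lit 26) (nat_lit 41)) (T.l (nat_lit 26) (nat_lit 59))) (T.n (T.l (nat_lit 27) (nat_lit 16)) (T.l (nat_lit 27) (nat_lit 17))))))) (T.n (T.n (T.n (T.n (T.l (nat_lit 27) (nat_lit 32)) (T.n (T.l (nat_lit 27) (nat_lit 35)) (T.l (nat_lit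 27) (nat_lit 36)))) (T.n (T.n (T.l (nat_lit 27) (nat_lit 45)) (T.l (nat_lit 27) (nat_lit 48))) (T.n (T.l (nat_lit 27) (nat_lit 57)) (T.l (nat_lit 30) (nat_lit 20))))) (T.n (T.n (T.n (T.l (nat_lit 30) (nat_lit 21)) (T.l (nat_lit 30) (nat_lit 25))) (T.n (T.l (nat_lit 30) (nat_lit 34)) (T.l (nat_lit 30) (nat_lit 42)))) (T.n (T.n (T.l (nat_lit 30) (nat_lit 44)) (T.l (nat_lit 30) (nat_lit 50))) (T.n (T.l (nat_lit 30) (nat_lit 58)) (T.l (nat_lit 31) (nat_lit 8)))))) (T.n (T.n (T.n (T.l (nat_lit 31) (nat_lit 12)) (T.n (T.l (nat_lit 31) (nat_lit 33)) (T.l (nat_lit 31) (nat_lit 43)))) (T.n (T.n (T.l (nat_lit 31) (nat_lit 53)) (T.l (nat_lit 32) (nat_lit 11))) (T.n (T.l (nat_lit 32) (nat_lit 14)) (T.l (nat_lit 32) (nat_lit 27))))) (T.n (T.n (T.n (T.l (nat_lit 32) (nat_lit 43)) (T.l (nat_lit 32) (nat_lit 59))) (T.n (T.l (nat_lit 33) (nat_lit 18)) (T.l (nat_lit 33) (nat_lit 23))))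 (T.n (T.n (T.l (nat_lit 33) (nat_lit 26)) (T.l (nat_lit 33) (nat_lit 31))) (T.n (T.l (nat_lit 33) (nat_lit 38)) (T.l (nat_lit 33) (nat_lit 46))))))))) (T.n (T.n (T.n (T.n (T.n (T.n (T.l (nat_lit 33) (nat_lit 54)) (T.n (T.l (nat_lit 33) (nat_lit 56)) (T.l (nat_lit 34) (nat_lit 11)))) (T.n (T.n (T.l (nat_lit 34) (nat_lit 12)) (T.l (nat_lit 34) (nat_lit 30))) (T.n (T.l (nat_lit 34) (nat_lit 41)) (T.l (nat_lit 34) (nat_lit 55))))) (T.n (T.n (T.n (T.l (nat_lit 35) (nat_lit 8)) (T.l (nat_lit 35) (nat_lit 13))) (T.n (T.l (nat_lit 35) (nat_lit 27)) (T.l (nat_lit 35) (nat_lit 47)))) (T.n (T.n (T.l (nat_lit 35) (nat_lit 55)) (T.l (nat_lit 36) (nat_lit 8))) (T.n (T.l (nat_lit 36) (nat_lit 13)) (T.l (nat_lit 36) (nat_lit 27)))))) (T.n (T.n (T.n (T.l (nat_lit 36) (nat_lit 47)) (T.n (T.l (nat_lit 36) (nat_lit 55)) (T.l (nat_lit 38) (nat_lit 8)))) (T.n (T.n (T.l (nat_lit 38) (nat_lit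 12)) (T.l (nat_lit 38) (nat_lit 33))) (T.n (T.l (nat_lit 38) (nat_lit 43)) (T.l (nat_lit 38) (nat_lit 53))))) (T.n (T.n (T.n (T.l (nat_lit 41) (nat_lit 18)) (T.l (nat_lit 41) (nat_lit 20))) (T.n (T.l (nat_lit 41) (nat_lit 26)) (T.l (nat_lit 41) (nat_lit 34)))) (T.n (T.n (T.l (nat_lit 41) (nat_lit 42)) (T.l (nat_lit 41) (nat_lit 46))) (T.n (T.l (nat_lit 41) (nat_lit 50)) (T.l (nat_lit 41) (nat_lit 56))))))) (T.n (T.n (T.n (T.n (T.l (nat_lit 42) (nat_lit 11)) (T.n (T.l (nat_lit 42) (nat_lit 12)) (T.l (nat_lit 42) (nat_lit 30)))) (T.n (T.n (T.l (nat_lit 42) (nat_lit 41)) (T.l (nat_lit 42) (nat_lit 55))) (T.n (T.l (nat_lit 43) (nat_lit 16)) (T.l (nat_lit 43) (nat_lit 23))))) (T.n (T.n (T.n (T.l (nat_lit 43) (nat_lit 31)) (T.l (nat_lit 43) (nat_lit 32))) (T.n (T.l (nat_lit 43) (nat_lit 38)) (T.l (nat_lit 43) (nat_lit 45)))) (T.n (T.n (T.l (nat_lit 43) (nat_lit 48)) (T.l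 (nat_lit 43) (nat_lit 54))) (T.n (T.l (nat_lit 44) (nat_lit 3)) (T.l (nat_lit 44) (nat_lit 14)))))) (T.n (T.n (T.n (T.l (nat_lit 44) (nat_lit 30)) (T.n (T.l (nat_lit 44) (nat_lit 47)) (T.l (nat_lit 44) (nat_lit 53)))) (T.n (T.n (T.l (nat_lit 45) (nat_lit 11)) (T.l (nat_lit 45) (nat_lit 14))) (T.n (T.l (nat_lit 45) (nat_lit 27)) (T.l (nat_lit 45) (nat_lit 43))))) (T.n (T.n (T.n (T.l (nat_lit 45) (nat_lit 59)) (T.l (nat_lit 46) (nat_lit 3))) (T.n (T.l (nat_lit 46) (nat_lit 13)) (T.l (nat_lit 46) (nat_lit 33)))) (T.n (T.n (T.l (nat_lit 46) (nat_lit 41)) (T.l (nat_lit 46) (nat_lit 59))) (T.n (T.l (nat_lit 47) (nat_lit 17)) (T.l (nat_lit 47) (nat_lit 21)))))))) (T.n (T.n (T.n (T.n (T.n (T.l (nat_lit 47) (nat_lit 25)) (T.n (T.l (nat_lit 47) (nat_lit 35)) (T.l (nat_lit 47) (nat_lit 36)))) (T.n (T.n (T.l (nat_lit 47) (nat_lit 44)) (T.l (nat_lit 47) (nat_lit 57))) (T.n (T.l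 (nat_lit 47) (nat_lit 58)) (T.l (nat_lit 48) (nat_lit 11))))) (T.n (T.n (T.n (T.l (nat_lit 48) (nat_lit 14)) (T.l (nat_lit 48) (nat_lit 27))) (T.n (T.l (nat_lit 48) (nat_lit 43)) (T.l (nat_lit 48) (nat_lit 59)))) (T.n (T.n (T.l (nat_lit 50) (nat_lit 11)) (T.l (nat_lit 50) (nat_lit 12))) (T.n (T.l (nat_lit 50) (nat_lit 30)) (T.l (nat_lit 50) (nat_lit 41)))))) (T.n (T.n (T.n (T.l (nat_lit 50) (nat_lit 55)) (T.n (T.l (nat_lit 53) (nat_lit 21)) (T.l (nat_lit 53) (nat_lit 23)))) (T.n (T.n (T.l (nat_lit 53) (nat_lit 25)) (T.l (nat_lit 53) (nat_lit 31))) (T.n (T.l (nat_lit 53) (nat_lit 38)) (T.l (nat_lit 53) (nat_lit 44))))) (T.n (T.n (T.n (T.l (nat_lit 53) (nat_lit 54)) (T.l (nat_lit 53) (nat_lit 58))) (T.n (T.l (nat_lit 54) (nat_lit 8)) (T.l (nat_lit 54) (nat_lit 12)))) (T.n (T.n (T.l (nat_lit 54) (nat_lit 33)) (T.l (nat_lit 54) (nat_lit 43))) (T.n (T.l (nat_lit 54) (nat_lit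 53)) (T.l (nat_lit 55) (nat_lit 17))))))) (T.n (T.n (T.n (T.n (T.l (nat_lit 55) (nat_lit 20)) (T.n (T.l (nat_lit 55) (nat_lit 34)) (T.l (nat_lit 55) (nat_lit 35)))) (T.n (T.n (T.l (nat_lit 55) (nat_lit 36)) (T.l (nat_lit 55) (nat_lit 42))) (T.n (T.l (nat_lit 55) (nat_lit 50)) (T.l (nat_lit 55) (nat_lit 57))))) (T.n (T.n (T.n (T.l (nat_lit 56) (nat_lit 3)) (T.l (nat_lit 56) (nat_lit 13))) (T.n (T.l (nat_lit 56) (nat_lit 33)) (T.l (nat_lit 56) (nat_lit 41)))) (T.n (T.n (T.l (nat_lit 56) (nat_lit 59)) (T.l (nat_lit 57) (nat_lit 8))) (T.n (T.l (nat_lit 57) (nat_lit 13)) (T.l (nat_lit 57) (nat_lit 27)))))) (T.n (T.n (T.n (T.l (nat_lit 57) (nat_lit 47)) (T.n (T.l (nat_lit 57) (nat_lit 55)) (T.l (nat_lit 58) (nat_lit 3)))) (T.n (T.n (T.l (nat_lit 58) (nat_lit 14)) (T.l (nat_lit 58) (nat_lit 30))) (T.n (T.l (nat_lit 58) (nat_lit 47)) (T.l (nat_lit 58) (nat_lit 53))))) (T.n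 (T.n (T.n (T.l (nat_lit 59) (nat_lit 16)) (T.l (nat_lit 59) (nat_lit 18))) (T.n (T.l (nat_lit 59) (nat_lit 26)) (T.l (nat_lit 59) (nat_lit 32)))) (T.n (T.n (T.l (nat_lit 59) (nat_lit 45)) (T.l (nat_lit 59) (nat_lit 46))) (T.n (T.l (nat_lit 59) (nat_lit 48)) (T.l (nat_lit 59) (nat_lit 56)))))))))
def T22_0 : T := T.n (T.n (T.n (T.n (T.n (T.n (T.n (T.l (nat_lit 3) (nat_lit 20)) (T.n (T.l (nat_lit 3) (nat_lit 23)) (T.l (nat_lit 3) (nat_lit 32)))) (T.n (T.n (T.l (nat_lit 3) (nat_lit 35)) (T.l (nat_lit 3) (nat_lit 38))) (T.n (T.l (nat_lit 3) (nat_lit 45)) (T.l (nat_lit 3) (nat_lit 50))))) (T.n (T.n (T.n (T.l (nat_lit 3) (nat_lit 57)) (T.l (nat_lit 8) (nat_lit 16))) (T.n (T.l (nat_lit 8) (nat_lit 21)) (T.l (nat_lit 8) (nat_lit 25)))) (T.n (T.n (T.l (nat_lit 8) (nat_lit 34)) (T.l (nat_lit 8) (nat_lit 42))) (T.n (T.l (nat_lit 8) (nat_lit 46)) (T.l (nat_lit 8) (nat_lit 48))))))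 (T.n (T.n (T.n (T.l (nat_lit 8) (nat_lit 56)) (T.n (T.l (nat_lit 11) (nat_lit 17)) (T.l (nat_lit 11) (nat_lit 18)))) (T.n (T.n (T.l (nat_lit 11) (nat_lit 26)) (T.l (nat_lit 11) (nat_lit 31))) (T.n (T.l (nat_lit 11) (nat_lit 36)) (T.l (nat_lit 11) (nat_lit 44))))) (T.n (T.n (T.n (T.l (nat_lit 11) (nat_lit 54)) (T.l (nat_lit 11) (nat_lit 58))) (T.n (T.l (nat_lit 12) (nat_lit 32)) (T.l (nat_lit 12) (nat_lit 35)))) (T.n (T.n (T.l (nat_lit 12) (nat_lit 44)) (T.l (nat_lit 12) (nat_lit 45))) (T.n (T.l (nat_lit 12) (nat_lit 46)) (T.l (nat_lit 12) (nat_lit 56))))))) (T.n (T.n (T.n (T.n (T.l (nat_lit 12) (nat_lit 57)) (T.n (T.l (nat_lit 12) (nat_lit 58)) (T.l (nat_lit 13) (nat_lit 31)))) (T.n (T.n (T.l (nat_lit 13) (nat_lit 32)) (T.l (nat_lit 13) (nat_lit 34))) (T.n (T.l (nat_lit 13) (nat_lit 42)) (T.l (nat_lit 13) (nat_lit 44))))) (T.n (T.n (T.n (T.l (nat_lit 13) (nat_lit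 45)) (T.l (nat_lit 13) (nat_lit 54))) (T.n (T.l (nat_lit 13) (nat_lit 58)) (T.l (nat_lit 14) (nat_lit 31)))) (T.n (T.n (T.l (nat_lit 14) (nat_lit 34)) (T.l (nat_lit 14) (nat_lit 35))) (T.n (T.l (nat_lit 14) (nat_lit 42)) (T.l (nat_lit 14) (nat_lit 46)))))) (T.n (T.n (T.n (T.l (nat_lit 14) (nat_lit 54)) (T.n (T.l (nat_lit 14) (nat_lit 56)) (T.l (nat_lit 14) (nat_lit 57)))) (T.n (T.n (T.l (nat_lit 16) (nat_lit 8)) (T.l (nat_lit 16) (nat_lit 30))) (T.n (T.l (nat_lit 16) (nat_lit 33)) (T.l (nat_lit 16) (nat_lit 41))))) (T.n (T.n (T.n (T.l (nat_lit 16) (nat_lit 47)) (T.l (nat_lit 17) (nat_lit 11))) (T.n (T.l (nat_lit 17) (nat_lit 30)) (T.l (nat_lit 17) (nat_lit 33)))) (T.n (T.n (T.l (nat_lit 17) (nat_lit 53)) (T.l (nat_lit 17) (nat_lit 59))) (T.n (T.l (nat_lit 18) (nat_lit 11)) (T.l (nat_lit 18) (nat_lit 43)))))))) (T.n (T.n (T.n (T.n (T.n (T.l (nat_lit 18) (nat_lit 47))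 (T.n (T.l (nat_lit 18) (nat_lit 53)) (T.l (nat_lit 18) (nat_lit 55)))) (T.n (T.n (T.l (nat_lit 20) (nat_lit 3)) (T.l (nat_lit 20) (nat_lit 27))) (T.n (T.l (nat_lit 20) (nat_lit 33)) (T.l (nat_lit 20) (nat_lit 43))))) (T.n (T.n (T.n (T.l (nat_lit 20) (nat_lit 47)) (T.l (nat_lit 21) (nat_lit 8))) (T.n (T.l (nat_lit 21) (nat_lit 41)) (T.l (nat_lit 21) (nat_lit 43)))) (T.n (T.n (T.l (nat_lit 21) (nat_lit 55)) (T.l (nat_lit 21) (nat_lit 59))) (T.n (T.l (nat_lit 23) (nat_lit 3)) (T.l (nat_lit 23) (nat_lit 27)))))) (T.n (T.n (T.n (T.l (nat_lit 23) (nat_lit 30)) (T.n (T.l (nat_lit 23) (nat_lit 55)) (T.l (nat_lit 23) (nat_lit 59)))) (T.n (T.n (T.l (nat_lit 25) (nat_lit 8)) (T.l (nat_lit 25) (nat_lit 41))) (T.n (T.l (nat_lit 25) (nat_lit 43)) (T.l (nat_lit 25) (nat_lit 55))))) (T.n (T.n (T.n (T.l (nat_lit 25) (nat_lit 59)) (T.l (nat_lit 26) (nat_lit 11))) (T.n (T.l (nat_lit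 26) (nat_lit 43)) (T.l (nat_lit 26) (nat_lit 47)))) (T.n (T.n (T.l (nat_lit 26) (nat_lit 53)) (T.l (nat_lit 26) (nat_lit 55))) (T.n (T.l (nat_lit 27) (nat_lit 20)) (T.l (nat_lit 27) (nat_lit 23))))))) (T.n (T.n (T.n (T.n (T.l (nat_lit 27) (nat_lit 38)) (T.n (T.l (nat_lit 27) (nat_lit 44)) (T.l (nat_lit 27) (nat_lit 46)))) (T.n (T.n (T.l (nat_lit 27) (nat_lit 50)) (T.l (nat_lit 27) (nat_lit 56))) (T.n (T.l (nat_lit 27) (nat_lit 58)) (T.l (nat_lit 30) (nat_lit 16))))) (T.n (T.n (T.n (T.l (nat_lit 30) (nat_lit 17)) (T.l (nat_lit 30) (nat_lit 23))) (T.n (T.l (nat_lit 30) (nat_lit 36)) (T.l (nat_lit 30) (nat_lit 38)))) (T.n (T.n (T.l (nat_lit 30) (nat_lit 46)) (T.l (nat_lit 30) (nat_lit 48))) (T.n (T.l (nat_lit 30) (nat_lit 56)) (T.l (nat_lit 31) (nat_lit 11)))))) (T.n (T.n (T.n (T.l (nat_lit 31) (nat_lit 13)) (T.n (T.l (nat_lit 31) (nat_lit 14)) (T.l (nat_lit 31) (nat_lit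 41)))) (T.n (T.n (T.l (nat_lit 31) (nat_lit 47)) (T.l (nat_lit 32) (nat_lit 3))) (T.n (T.l (nat_lit 32) (nat_lit 12)) (T.l (nat_lit 32) (nat_lit 13))))) (T.n (T.n (T.n (T.l (nat_lit 32) (nat_lit 53)) (T.l (nat_lit 32) (nat_lit 55))) (T.n (T.l (nat_lit 33) (nat_lit 16)) (T.l (nat_lit 33) (nat_lit 17)))) (T.n (T.n (T.l (nat_lit 33) (nat_lit 20)) (T.l (nat_lit 33) (nat_lit 36))) (T.n (T.l (nat_lit 33) (nat_lit 44)) (T.l (nat_lit 33) (nat_lit 48))))))))) (T.n (T.n (T.n (T.n (T.n (T.n (T.l (nat_lit 33) (nat_lit 50)) (T.n (T.l (nat_lit 33) (nat_lit 58)) (T.l (nat_lit 34) (nat_lit 8)))) (T.n (T.n (T.l (nat_lit 34) (nat_lit 13)) (T.l (nat_lit 34) (nat_lit 14))) (T.n (T.l (nat_lit 34) (nat_lit 53)) (T.l (nat_lit 34) (nat_lit 59))))) (T.n (T.n (T.n (T.l (nat_lit 35) (nat_lit 3)) (T.l (nat_lit 35) (nat_lit 12))) (T.n (T.l (nat_lit 35) (nat_lit 14)) (T.l (nat_lit 35) (nat_lit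 41)))) (T.n (T.n (T.l (nat_lit 35) (nat_lit 43)) (T.l (nat_lit 36) (nat_lit 11))) (T.n (T.l (nat_lit 36) (nat_lit 30)) (T.l (nat_lit 36) (nat_lit 33)))))) (T.n (T.n (T.n (T.l (nat_lit 36) (nat_lit 53)) (T.n (T.l (nat_lit 36) (nat_lit 59)) (T.l (nat_lit 38) (nat_lit 3)))) (T.n (T.n (T.l (nat_lit 38) (nat_lit 27)) (T.l (nat_lit 38) (nat_lit 30))) (T.n (T.l (nat_lit 38) (nat_lit 55)) (T.l (nat_lit 38) (nat_lit 59))))) (T.n (T.n (T.n (T.l (nat_lit 41) (nat_lit 16)) (T.l (nat_lit 41) (nat_lit 21))) (T.n (T.l (nat_lit 41) (nat_lit 25)) (T.l (nat_lit 41) (nat_lit 31)))) (T.n (T.n (T.l (nat_lit 41) (nat_lit 35)) (T.l (nat_lit 41) (nat_lit 48))) (T.n (T.l (nat_lit 41) (nat_lit 54)) (T.l (nat_lit 41) (nat_lit 57))))))) (T.n (T.n (T.n (T.n (T.l (nat_lit 42) (nat_lit 8)) (T.n (T.l (nat_lit 42) (nat_lit 13)) (T.l (nat_lit 42) (nat_lit 14)))) (T.n (T.n (T.l (nat_lit 42) (nat_lit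 53)) (T.l (nat_lit 42) (nat_lit 59))) (T.n (T.l (nat_lit 43) (nat_lit 18)) (T.l (nat_lit 43) (nat_lit 20))))) (T.n (T.n (T.n (T.l (nat_lit 43) (nat_lit 21)) (T.l (nat_lit 43) (nat_lit 25))) (T.n (T.l (nat_lit 43) (nat_lit 26)) (T.l (nat_lit 43) (nat_lit 35)))) (T.n (T.n (T.l (nat_lit 43) (nat_lit 50)) (T.l (nat_lit 43) (nat_lit 57))) (T.n (T.l (nat_lit 44) (nat_lit 11)) (T.l (nat_lit 44) (nat_lit 12)))))) (T.n (T.n (T.n (T.l (nat_lit 44) (nat_lit 13)) (T.n (T.l (nat_lit 44) (nat_lit 27)) (T.l (nat_lit 44) (nat_lit 33)))) (T.n (T.n (T.l (nat_lit 45) (nat_lit 3)) (T.l (nat_lit 45) (nat_lit 12))) (T.n (T.l (nat_lit 45) (nat_lit 13)) (T.l (nat_lit 45) (nat_lit 53))))) (T.n (T.n (T.n (T.l (nat_lit 45) (nat_lit 55)) (T.l (nat_lit 46) (nat_lit 8))) (T.n (T.l (nat_lit 46) (nat_lit 12)) (T.l (nat_lit 46) (nat_lit 14)))) (T.n (T.n (T.l (nat_lit 46) (nat_lit 27)) (T.l (nat_lit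 46) (nat_lit 30))) (T.n (T.l (nat_lit 47) (nat_lit 16)) (T.l (nat_lit 47) (nat_lit 18)))))))) (T.n (T.n (T.n (T.n (T.n (T.l (nat_lit 47) (nat_lit 20)) (T.n (T.l (nat_lit 47) (nat_lit 26)) (T.l (nat_lit 47) (nat_lit 31)))) (T.n (T.n (T.l (nat_lit 47) (nat_lit 48)) (T.l (nat_lit 47) (nat_lit 50))) (T.n (T.l (nat_lit 47) (nat_lit 54)) (T.l (nat_lit 48) (nat_lit 8))))) (T.n (T.n (T.n (T.l (nat_lit 48) (nat_lit 30)) (T.l (nat_lit 48) (nat_lit 33))) (T.n (T.l (nat_lit 48) (nat_lit 41)) (T.l (nat_lit 48) (nat_lit 47)))) (T.n (T.n (T.l (nat_lit 50) (nat_lit 3)) (T.l (nat_lit 50) (nat_lit 27))) (T.n (T.l (nat_lit 50) (nat_lit 33)) (T.l (nat_lit 50) (nat_lit 43)))))) (T.n (T.n (T.n (T.l (nat_lit 50) (nat_lit 47)) (T.n (T.l (nat_lit 53) (nat_lit 17)) (T.l (nat_lit 53) (nat_lit 18)))) (T.n (T.n (T.l (nat_lit 53) (nat_lit 26)) (T.l (nat_lit 53) (nat_lit 32))) (T.n (T.l (nat_lit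 53) (nat_lit 34)) (T.l (nat_lit 53) (nat_lit 36))))) (T.n (T.n (T.n (T.l (nat_lit 53) (nat_lit 42)) (T.l (nat_lit 53) (nat_lit 45))) (T.n (T.l (nat_lit 54) (nat_lit 11)) (T.l (nat_lit 54) (nat_lit 13)))) (T.n (T.n (T.l (nat_lit 54) (nat_lit 14)) (T.l (nat_lit 54) (nat_lit 41))) (T.n (T.l (nat_lit 54) (nat_lit 47)) (T.l (nat_lit 55) (nat_lit 18))))))) (T.n (T.n (T.n (T.n (T.l (nat_lit 55) (nat_lit 21)) (T.n (T.l (nat_lit 55) (nat_lit 23)) (T.l (nat_lit 55) (nat_lit 25)))) (T.n (T.n (T.l (nat_lit 55) (nat_lit 26)) (T.l (nat_lit 55) (nat_lit 32))) (T.n (T.l (nat_lit 55) (nat_lit 38)) (T.l (nat_lit 55) (nat_lit 45))))) (T.n (T.n (T.n (T.l (nat_lit 56) (nat_lit 8)) (T.l (nat_lit 56) (nat_lit 12))) (T.n (T.l (nat_lit 56) (nat_lit 14)) (T.l (nat_lit 56) (nat_lit 27)))) (T.n (T.n (T.l (nat_lit 56) (nat_lit 30)) (T.l (nat_lit 57) (nat_lit 3))) (T.n (T.l (nat_lit 57) (nat_lit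 12)) (T.l (nat_lit 57) (nat_lit 14)))))) (T.n (T.n (T.n (T.l (nat_lit 57) (nat_lit 41)) (T.n (T.l (nat_lit 57) (nat_lit 43)) (T.l (nat_lit 58) (nat_lit 11)))) (T.n (T.n (T.l (nat_lit 58) (nat_lit 12)) (T.l (nat_lit 58) (nat_lit 13))) (T.n (T.l (nat_lit 58) (nat_lit 27)) (T.l (nat_lit 58) (nat_lit 33))))) (T.n (T.n (T.n (T.l (nat_lit 59) (nat_lit 17)) (T.l (nat_lit 59) (nat_lit 21))) (T.n (T.l (nat_lit 59) (nat_lit 23)) (T.l (nat_lit 59) (nat_lit 25)))) (T.n (T.n (T.l (nat_lit 59) (nat_lit 34)) (T.l (nat_lit 59) (nat_lit 36))) (T.n (T.l (nat_lit 59) (nat_lit 38)) (T.l (nat_lit 59) (nat_lit 42)))))))))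
def T23_0 : T := T.n (T.n (T.n (T.n (T.l (nat_lit 16) (nat_lit 16)) (T.n (T.l (nat_lit 17) (nat_lit 17)) (T.l (nat_lit 18) (nat_lit 18)))) (T.n (T.l (nat_lit 20) (nat_lit 20)) (T.n (T.l (nat_lit 21) (nat_lit 21)) (T.l (nat_lit 23) (nat_lit 23))))) (T.n (T.n (T.l (nat_lit 25) (nat_lit 25)) (T.n (T.l (nat_lit 26) (nat_lit 26)) (T.l (nat_lit 31) (nat_lit 31)))) (T.n (T.l (nat_lit 32) (nat_lit 32)) (T.n (T.l (nat_lit 34) (nat_lit 34)) (T.l (nat_lit 35) (nat_lit 35)))))) (T.n (T.n (T.n (T.l (nat_lit 36) (nat_lit 36)) (T.n (T.l (nat_lit 38) (nat_lit 38)) (T.l (nat_lit 42) (nat_lit 42)))) (T.n (T.l (nat_lit 44) (nat_lit 44)) (T.n (T.l (nat_lit 45) (nat_lit 45)) (T.l (nat_lit 46) (nat_lit 46))))) (T.n (T.n (T.l (nat_lit 48) (nat_lit 48)) (T.n (T.l (nat_lit 50) (nat_lit 50)) (T.l (nat_lit 54) (nat_lit 54)))) (T.n (T.l (nat_lit 56) (nat_lit 56)) (T.n (T.l (nat_lit 57) (nat_lit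 57)) (T.l (nat_lit 58) (nat_lit 58))))))
def T24_0 : T := T.n (T.n (T.n (T.n (T.n (T.n (T.l (nat_lit 16) (nat_lit 17)) (T.n (T.l (nat_lit 16) (nat_lit 20)) (T.l (nat_lit 16) (nat_lit 25)))) (T.n (T.n (T.l (nat_lit 16) (nat_lit 31)) (T.l (nat_lit 16) (nat_lit 56))) (T.n (T.l (nat_lit 17) (nat_lit 16)) (T.l (nat_lit 17) (nat_lit 23))))) (T.n (T.n (T.n (T.l (nat_lit 17) (nat_lit 26)) (T.l (nat_lit 17) (nat_lit 34))) (T.n (T.l (nat_lit 17) (nat_lit 44)) (T.l (nat_lit 18) (nat_lit 20)))) (T.n (T.n (T.l (nat_lit 18) (nat_lit 21)) (T.l (nat_lit 18) (nat_lit 31))) (T.n (T.l (nat_lit 18) (nat_lit 36)) (T.l (nat_lit 18) (nat_lit 45)))))) (T.n (T.n (T.n (T.l (nat_lit 20) (nat_lit 16)) (T.n (T.l (nat_lit 20) (nat_lit 18)) (T.l (nat_lit 20) (nat_lit 38)))) (T.n (T.n (T.l (nat_lit 20) (nat_lit 44)) (T.l (nat_lit 20) (nat_lit 57))) (T.n (T.l (nat_lit 21) (nat_lit 18)) (T.l (nat_lit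 21) (nat_lit 23))))) (T.n (T.n (T.n (T.l (nat_lit 21) (nat_lit 34)) (T.l (nat_lit 21) (nat_lit 48))) (T.n (T.l (nat_lit 21) (nat_lit 57)) (T.l (nat_lit 23) (nat_lit 17)))) (T.n (T.n (T.l (nat_lit 23) (nat_lit 21)) (T.l (nat_lit 23) (nat_lit 45))) (T.n (T.l (nat_lit 23) (nat_lit 50)) (T.l (nat_lit 23) (nat_lit 56))))))) (T.n (T.n (T.n (T.n (T.l (nat_lit 25) (nat_lit 16)) (T.n (T.l (nat_lit 25) (nat_lit 26)) (T.l (nat_lit 25) (nat_lit 35)))) (T.n (T.n (T.l (nat_lit 25) (nat_lit 38)) (T.l (nat_lit 25) (nat_lit 42))) (T.n (T.l (nat_lit 26) (nat_lit 17)) (T.l (nat_lit 26) (nat_lit 25))))) (T.n (T.n (T.n (T.l (nat_lit 26) (nat_lit 32)) (T.l (nat_lit 26) (nat_lit 50))) (T.n (T.l (nat_lit 26) (nat_lit 54)) (T.l (nat_lit 31) (nat_lit 16)))) (T.n (T.n (T.l (nat_lit 31) (nat_lit 18)) (T.l (nat_lit 31) (nat_lit 34))) (T.n (T.l (nat_lit 31) (nat_lit 35)) (T.l (nat_lit 31) (nat_lit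 58)))))) (T.n (T.n (T.n (T.l (nat_lit 32) (nat_lit 26)) (T.n (T.l (nat_lit 32) (nat_lit 34)) (T.l (nat_lit 32) (nat_lit 38)))) (T.n (T.n (T.l (nat_lit 32) (nat_lit 57)) (T.l (nat_lit 32) (nat_lit 58))) (T.n (T.l (nat_lit 34) (nat_lit 17)) (T.l (nat_lit 34) (nat_lit 21))))) (T.n (T.n (T.n (T.l (nat_lit 34) (nat_lit 31)) (T.l (nat_lit 34) (nat_lit 32))) (T.n (T.l (nat_lit 34) (nat_lit 46)) (T.l (nat_lit 35) (nat_lit 25)))) (T.n (T.n (T.l (nat_lit 35) (nat_lit 31)) (T.l (nat_lit 35) (nat_lit 45))) (T.n (T.l (nat_lit 35) (nat_lit 46)) (T.l (nat_lit 35) (nat_lit 50)))))))) (T.n (T.n (T.n (T.n (T.n (T.l (nat_lit 36) (nat_lit 18)) (T.n (T.l (nat_lit 36) (nat_lit 38)) (T.l (nat_lit 36) (nat_lit 42)))) (T.n (T.n (T.l (nat_lit 36) (nat_lit 48)) (T.l (nat_lit 36) (nat_lit 58))) (T.n (T.l (nat_lit 38) (nat_lit 20)) (T.l (nat_lit 38) (nat_lit 25))))) (T.n (T.n (T.n (T.l (nat_lit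 38) (nat_lit 32)) (T.l (nat_lit 38) (nat_lit 36))) (T.n (T.l (nat_lit 38) (nat_lit 46)) (T.l (nat_lit 42) (nat_lit 25)))) (T.n (T.n (T.l (nat_lit 42) (nat_lit 36)) (T.l (nat_lit 42) (nat_lit 45))) (T.n (T.l (nat_lit 42) (nat_lit 54)) (T.l (nat_lit 42) (nat_lit 56)))))) (T.n (T.n (T.n (T.l (nat_lit 44) (nat_lit 17)) (T.n (T.l (nat_lit 44) (nat_lit 20)) (T.l (nat_lit 44) (nat_lit 45)))) (T.n (T.n (T.l (nat_lit 44) (nat_lit 46)) (T.l (nat_lit 44) (nat_lit 54))) (T.n (T.l (nat_lit 45) (nat_lit 18)) (T.l (nat_lit 45) (nat_lit 23))))) (T.n (T.n (T.n (T.l (nat_lit 45) (nat_lit 35)) (T.l (nat_lit 45) (nat_lit 42))) (T.n (T.l (nat_lit 45) (nat_lit 44)) (T.l (nat_lit 46) (nat_lit 34)))) (T.n (T.n (T.l (nat_lit 46) (nat_lit 35)) (T.l (nat_lit 46) (nat_lit 38))) (T.n (T.l (nat_lit 46) (nat_lit 44)) (T.l (nat_lit 46) (nat_lit 48))))))) (T.n (T.n (T.n (T.n (T.l (nat_lit 48) (nat_lit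 21)) (T.n (T.l (nat_lit 48) (nat_lit 36)) (T.l (nat_lit 48) (nat_lit 46)))) (T.n (T.n (T.l (nat_lit 48) (nat_lit 50)) (T.l (nat_lit 48) (nat_lit 54))) (T.n (T.l (nat_lit 50) (nat_lit 23)) (T.l (nat_lit 50) (nat_lit 26))))) (T.n (T.n (T.n (T.l (nat_lit 50) (nat_lit 35)) (T.l (nat_lit 50) (nat_lit 48))) (T.n (T.l (nat_lit 50) (nat_lit 58)) (T.l (nat_lit 54) (nat_lit 26)))) (T.n (T.n (T.l (nat_lit 54) (nat_lit 42)) (T.l (nat_lit 54) (nat_lit 44))) (T.n (T.l (nat_lit 54) (nat_lit 48)) (T.l (nat_lit 54) (nat_lit 57)))))) (T.n (T.n (T.n (T.l (nat_lit 56) (nat_lit 16)) (T.n (T.l (nat_lit 56) (nat_lit 23)) (T.l (nat_lit 56) (nat_lit 42)))) (T.n (T.n (T.l (nat_lit 56) (nat_lit 57)) (T.l (nat_lit 56) (nat_lit 58))) (T.n (T.l (nat_lit 57) (nat_lit 20)) (T.l (nat_lit 57) (nat_lit 21))))) (T.n (T.n (T.n (T.l (nat_lit 57) (nat_lit 32)) (T.l (nat_lit 57) (nat_lit 54))) (T.n (T.l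 (nat_lit 57) (nat_lit 56)) (T.l (nat_lit 58) (nat_lit 31)))) (T.n (T.n (T.l (nat_lit 58) (nat_lit 32)) (T.l (nat_lit 58) (nat_lit 36))) (T.n (T.l (nat_lit 58) (nat_lit 50)) (T.l (nat_lit 58) (nat_lit 56))))))))
def T25_0 : T := T.n (T.n (T.n (T.n (T.n (T.n (T.l (nat_lit 16) (nat_lit 18)) (T.n (T.l (nat_lit 16) (nat_lit 23)) (T.l (nat_lit 16) (nat_lit 35)))) (T.n (T.n (T.l (nat_lit 16) (nat_lit 42)) (T.l (nat_lit 16) (nat_lit 44))) (T.n (T.l (nat_lit 17) (nat_lit 20)) (T.l (nat_lit 17) (nat_lit 21))))) (T.n (T.n (T.n (T.l (nat_lit 17) (nat_lit 32)) (T.l (nat_lit 17) (nat_lit 54))) (T.n (T.l (nat_lit 17) (nat_lit 56)) (T.l (nat_lit 18) (nat_lit 16)))) (T.n (T.n (T.l (nat_lit 18) (nat_lit 23)) (T.l (nat_lit 18) (nat_lit 42))) (T.n (T.l (nat_lit 18) (nat_lit 57)) (T.l (nat_lit 18) (nat_lit 58)))))) (T.n (T.n (T.n (T.l (nat_lit 20) (nat_lit 17)) (T.n (T.l (nat_lit 20)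 (nat_lit 21)) (T.l (nat_lit 20) (nat_lit 31)))) (T.n (T.n (T.l (nat_lit 20) (nat_lit 32)) (T.l (nat_lit 20) (nat_lit 46))) (T.n (T.l (nat_lit 21) (nat_lit 17)) (T.l (nat_lit 21) (nat_lit 20))))) (T.n (T.n (T.n (T.l (nat_lit 21) (nat_lit 45)) (T.l (nat_lit 21) (nat_lit 46))) (T.n (T.l (nat_lit 21) (nat_lit 54)) (T.l (nat_lit 23) (nat_lit 16)))) (T.n (T.n (T.l (nat_lit 23) (nat_lit 18)) (T.l (nat_lit 23) (nat_lit 34))) (T.n (T.l (nat_lit 23) (nat_lit 35)) (T.l (nat_lit 23) (nat_lit 58))))))) (T.n (T.n (T.n (T.n (T.l (nat_lit 25) (nat_lit 31)) (T.n (T.l (nat_lit 25) (nat_lit 32)) (T.l (nat_lit 25) (nat_lit 36)))) (T.n (T.n (T.l (nat_lit 25) (nat_lit 50)) (T.l (nat_lit 25) (nat_lit 56))) (T.n (T.l (nat_lit 26) (nat_lit 34)) (T.l (nat_lit 26) (nat_lit 35))))) (T.n (T.n (T.n (T.l (nat_lit 26) (nat_lit 38)) (T.l (nat_lit 26) (nat_lit 44))) (T.n (T.l (nat_lit 26) (nat_lit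 48)) (T.l (nat_lit 31) (nat_lit 20)))) (T.n (T.n (T.l (nat_lit 31) (nat_lit 25)) (T.l (nat_lit 31) (nat_lit 32))) (T.n (T.l (nat_lit 31) (nat_lit 36)) (T.l (nat_lit 31) (nat_lit 46)))))) (T.n (T.n (T.n (T.l (nat_lit 32) (nat_lit 17)) (T.n (T.l (nat_lit 32) (nat_lit 20)) (T.l (nat_lit 32) (nat_lit 25)))) (T.n (T.n (T.l (nat_lit 32) (nat_lit 31)) (T.l (nat_lit 32) (nat_lit 56))) (T.n (T.l (nat_lit 34) (nat_lit 23)) (T.l (nat_lit 34) (nat_lit 26))))) (T.n (T.n (T.n (T.l (nat_lit 34) (nat_lit 35)) (T.l (nat_lit 34) (nat_lit 48))) (T.n (T.l (nat_lit 34) (nat_lit 58)) (T.l (nat_lit 35) (nat_lit 16)))) (T.n (T.n (T.l (nat_lit 35) (nat_lit 23)) (T.l (nat_lit 35) (nat_lit 26))) (T.n (T.l (nat_lit 35) (nat_lit 34)) (T.l (nat_lit 35) (nat_lit 44)))))))) (T.n (T.n (T.n (T.n (T.n (T.l (nat_lit 36) (nat_lit 25)) (T.n (T.l (nat_lit 36) (nat_lit 31)) (T.l (nat_lit 36) (nat_lit 45))))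 (T.n (T.n (T.l (nat_lit 36) (nat_lit 46)) (T.l (nat_lit 36) (nat_lit 50))) (T.n (T.l (nat_lit 38) (nat_lit 26)) (T.l (nat_lit 38) (nat_lit 42))))) (T.n (T.n (T.n (T.l (nat_lit 38) (nat_lit 44)) (T.l (nat_lit 38) (nat_lit 48))) (T.n (T.l (nat_lit 38) (nat_lit 57)) (T.l (nat_lit 42) (nat_lit 16)))) (T.n (T.n (T.l (nat_lit 42) (nat_lit 18)) (T.l (nat_lit 42) (nat_lit 38))) (T.n (T.l (nat_lit 42) (nat_lit 44)) (T.l (nat_lit 42) (nat_lit 57)))))) (T.n (T.n (T.n (T.l (nat_lit 44) (nat_lit 16)) (T.n (T.l (nat_lit 44) (nat_lit 26)) (T.l (nat_lit 44) (nat_lit 35)))) (T.n (T.n (T.l (nat_lit 44) (nat_lit 38)) (T.l (nat_lit 44) (nat_lit 42))) (T.n (T.l (nat_lit 45) (nat_lit 21)) (T.l (nat_lit 45) (nat_lit 36))))) (T.n (T.n (T.n (T.l (nat_lit 45) (nat_lit 46)) (T.l (nat_lit 45) (nat_lit 50))) (T.n (T.l (nat_lit 45) (nat_lit 54)) (T.l (nat_lit 46) (nat_lit 20)))) (T.n (T.n (T.l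 (nat_lit 46) (nat_lit 21)) (T.l (nat_lit 46) (nat_lit 31))) (T.n (T.l (nat_lit 46) (nat_lit 36)) (T.l (nat_lit 46) (nat_lit 45))))))) (T.n (T.n (T.n (T.n (T.l (nat_lit 48) (nat_lit 26)) (T.n (T.l (nat_lit 48) (nat_lit 34)) (T.l (nat_lit 48) (nat_lit 38)))) (T.n (T.n (T.l (nat_lit 48) (nat_lit 57)) (T.l (nat_lit 48) (nat_lit 58))) (T.n (T.l (nat_lit 50) (nat_lit 25)) (T.l (nat_lit 50) (nat_lit 36))))) (T.n (T.n (T.n (T.l (nat_lit 50) (nat_lit 45)) (T.l (nat_lit 50) (nat_lit 54))) (T.n (T.l (nat_lit 50) (nat_lit 56)) (T.l (nat_lit 54) (nat_lit 17)))) (T.n (T.n (T.l (nat_lit 54) (nat_lit 21)) (T.l (nat_lit 54) (nat_lit 45))) (T.n (T.l (nat_lit 54) (nat_lit 50)) (T.l (nat_lit 54) (nat_lit 56)))))) (T.n (T.n (T.n (T.l (nat_lit 56) (nat_lit 17)) (T.n (T.l (nat_lit 56) (nat_lit 25)) (T.l (nat_lit 56) (nat_lit 32)))) (T.n (T.n (T.l (nat_lit 56) (nat_lit 50)) (T.l (nat_lit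 56) (nat_lit 54))) (T.n (T.l (nat_lit 57) (nat_lit 18)) (T.l (nat_lit 57) (nat_lit 38))))) (T.n (T.n (T.n (T.l (nat_lit 57) (nat_lit 42)) (T.l (nat_lit 57) (nat_lit 48))) (T.n (T.l (nat_lit 57) (nat_lit 58)) (T.l (nat_lit 58) (nat_lit 18)))) (T.n (T.n (T.l (nat_lit 58) (nat_lit 23)) (T.l (nat_lit 58) (nat_lit 34))) (T.n (T.l (nat_lit 58) (nat_lit 48)) (T.l (nat_lit 58) (nat_lit 57))))))))
def T26_0 : T := T.n (T.n (T.n (T.n (T.n (T.n (T.l (nat_lit 16) (nat_lit 21)) (T.n (T.l (nat_lit 16) (nat_lit 36)) (T.l (nat_lit 16) (nat_lit 46)))) (T.n (T.n (T.l (nat_lit 16) (nat_lit 50)) (T.l (nat_lit 16) (nat_lit 54))) (T.n (T.l (nat_lit 17) (nat_lit 18)) (T.l (nat_lit 17) (nat_lit 38))))) (T.n (T.n (T.n (T.l (nat_lit 17) (nat_lit 42)) (T.l (nat_lit 17) (nat_lit 48))) (T.n (T.l (nat_lit 17) (nat_lit 58)) (T.l (nat_lit 18) (nat_lit 17)))) (T.n (T.n (T.l (nat_lit 18) (nat_lit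 25)) (T.l (nat_lit 18) (nat_lit 32))) (T.n (T.l (nat_lit 18) (nat_lit 50)) (T.l (nat_lit 18) (nat_lit 54)))))) (T.n (T.n (T.n (T.l (nat_lit 20) (nat_lit 23)) (T.n (T.l (nat_lit 20) (nat_lit 26)) (T.l (nat_lit 20) (nat_lit 35)))) (T.n (T.n (T.l (nat_lit 20) (nat_lit 48)) (T.l (nat_lit 20) (nat_lit 58))) (T.n (T.l (nat_lit 21) (nat_lit 16)) (T.l (nat_lit 21) (nat_lit 26))))) (T.n (T.n (T.n (T.l (nat_lit 21) (nat_lit 35)) (T.l (nat_lit 21) (nat_lit 38))) (T.n (T.l (nat_lit 21) (nat_lit 42)) (T.l (nat_lit 23) (nat_lit 20)))) (T.n (T.n (T.l (nat_lit 23) (nat_lit 25)) (T.l (nat_lit 23) (nat_lit 32))) (T.n (T.l (nat_lit 23) (nat_lit 36)) (T.l (nat_lit 23) (nat_lit 46))))))) (T.n (T.n (T.n (T.n (T.l (nat_lit 25) (nat_lit 18)) (T.n (T.l (nat_lit 25) (nat_lit 23)) (T.l (nat_lit 25) (nat_lit 34)))) (T.n (T.n (T.l (nat_lit 25) (nat_lit 48)) (T.l (nat_lit 25) (nat_lit 57))) (T.n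 (T.l (nat_lit 26) (nat_lit 20)) (T.l (nat_lit 26) (nat_lit 21))))) (T.n (T.n (T.n (T.l (nat_lit 26) (nat_lit 31)) (T.l (nat_lit 26) (nat_lit 36))) (T.n (T.l (nat_lit 26) (nat_lit 45)) (T.l (nat_lit 31) (nat_lit 26)))) (T.n (T.n (T.l (nat_lit 31) (nat_lit 42)) (T.l (nat_lit 31) (nat_lit 44))) (T.n (T.l (nat_lit 31) (nat_lit 48)) (T.l (nat_lit 31) (nat_lit 57)))))) (T.n (T.n (T.n (T.l (nat_lit 32) (nat_lit 18)) (T.n (T.l (nat_lit 32) (nat_lit 23)) (T.l (nat_lit 32) (nat_lit 35)))) (T.n (T.n (T.l (nat_lit 32) (nat_lit 42)) (T.l (nat_lit 32) (nat_lit 44))) (T.n (T.l (nat_lit 34) (nat_lit 25)) (T.l (nat_lit 34) (nat_lit 36))))) (T.n (T.n (T.n (T.l (nat_lit 34) (nat_lit 45)) (T.l (nat_lit 34) (nat_lit 54))) (T.n (T.l (nat_lit 34) (nat_lit 56)) (T.l (nat_lit 35) (nat_lit 20)))) (T.n (T.n (T.l (nat_lit 35) (nat_lit 21)) (T.l (nat_lit 35) (nat_lit 32))) (T.n (T.l (nat_lit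 35) (nat_lit 54)) (T.l (nat_lit 35) (nat_lit 56)))))))) (T.n (T.n (T.n (T.n (T.n (T.l (nat_lit 36) (nat_lit 16)) (T.n (T.l (nat_lit 36) (nat_lit 23)) (T.l (nat_lit 36) (nat_lit 26)))) (T.n (T.n (T.l (nat_lit 36) (nat_lit 34)) (T.l (nat_lit 36) (nat_lit 44))) (T.n (T.l (nat_lit 38) (nat_lit 17)) (T.l (nat_lit 38) (nat_lit 21))))) (T.n (T.n (T.n (T.l (nat_lit 38) (nat_lit 45)) (T.l (nat_lit 38) (nat_lit 50))) (T.n (T.l (nat_lit 38) (nat_lit 56)) (T.l (nat_lit 42) (nat_lit 17)))) (T.n (T.n (T.l (nat_lit 42) (nat_lit 21)) (T.l (nat_lit 42) (nat_lit 31))) (T.n (T.l (nat_lit 42) (nat_lit 32)) (T.l (nat_lit 42) (nat_lit 46)))))) (T.n (T.n (T.n (T.l (nat_lit 44) (nat_lit 31)) (T.n (T.l (nat_lit 44) (nat_lit 32)) (T.l (nat_lit 44) (nat_lit 36)))) (T.n (T.n (T.l (nat_lit 44) (nat_lit 50)) (T.l (nat_lit 44) (nat_lit 56))) (T.n (T.l (nat_lit 45) (nat_lit 26)) (T.l (nat_lit 45)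 (nat_lit 34))))) (T.n (T.n (T.n (T.l (nat_lit 45) (nat_lit 38)) (T.l (nat_lit 45) (nat_lit 57))) (T.n (T.l (nat_lit 45) (nat_lit 58)) (T.l (nat_lit 46) (nat_lit 16)))) (T.n (T.n (T.l (nat_lit 46) (nat_lit 23)) (T.l (nat_lit 46) (nat_lit 42))) (T.n (T.l (nat_lit 46) (nat_lit 57)) (T.l (nat_lit 46) (nat_lit 58))))))) (T.n (T.n (T.n (T.n (T.l (nat_lit 48) (nat_lit 17)) (T.n (T.l (nat_lit 48) (nat_lit 20)) (T.l (nat_lit 48) (nat_lit 25)))) (T.n (T.n (T.l (nat_lit 48) (nat_lit 31)) (T.l (nat_lit 48) (nat_lit 56))) (T.n (T.l (nat_lit 50) (nat_lit 16)) (T.l (nat_lit 50) (nat_lit 18))))) (T.n (T.n (T.n (T.l (nat_lit 50) (nat_lit 38)) (T.l (nat_lit 50) (nat_lit 44))) (T.n (T.l (nat_lit 50) (nat_lit 57)) (T.l (nat_lit 54) (nat_lit 16)))) (T.n (T.n (T.l (nat_lit 54) (nat_lit 18)) (T.l (nat_lit 54) (nat_lit 34))) (T.n (T.l (nat_lit 54) (nat_lit 35)) (T.l (nat_lit 54) (nat_lit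 58)))))) (T.n (T.n (T.n (T.l (nat_lit 56) (nat_lit 34)) (T.n (T.l (nat_lit 56) (nat_lit 35)) (T.l (nat_lit 56) (nat_lit 38)))) (T.n (T.n (T.l (nat_lit 56) (nat_lit 44)) (T.l (nat_lit 56) (nat_lit 48))) (T.n (T.l (nat_lit 57) (nat_lit 25)) (T.l (nat_lit 57) (nat_lit 31))))) (T.n (T.n (T.n (T.l (nat_lit 57) (nat_lit 45)) (T.l (nat_lit 57) (nat_lit 46))) (T.n (T.l (nat_lit 57) (nat_lit 50)) (T.l (nat_lit 58) (nat_lit 17)))) (T.n (T.n (T.l (nat_lit 58) (nat_lit 20)) (T.l (nat_lit 58) (nat_lit 45))) (T.n (T.l (nat_lit 58) (nat_lit 46)) (T.l (nat_lit 58) (nat_lit 54))))))))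
def T27_0 : T := T.n (T.n (T.n (T.n (T.n (T.n (T.l (nat_lit 16) (nat_lit 26)) (T.n (T.l (nat_lit 16) (nat_lit 34)) (T.l (nat_lit 16) (nat_lit 38)))) (T.n (T.n (T.l (nat_lit 16) (nat_lit 57)) (T.l (nat_lit 16) (nat_lit 58))) (T.n (T.l (nat_lit 17) (nat_lit 25)) (T.l (nat_lit 17) (nat_lit 31))))) (T.n (T.n (T.n (T.l (nat_lit 17) (nat_lit 45)) (T.l (nat_lit 17) (nat_lit 46))) (T.n (T.l (nat_lit 17) (nat_lit 50)) (T.l (nat_lit 18) (nat_lit 34)))) (T.n (T.n (T.l (nat_lit 18) (nat_lit 35)) (T.l (nat_lit 18) (nat_lit 38))) (T.n (T.l (nat_lit 18) (nat_lit 44)) (T.l (nat_lit 18) (nat_lit 48)))))) (T.n (T.n (T.n (T.l (nat_lit 20) (nat_lit 25)) (T.n (T.l (nat_lit 20) (nat_lit 36)) (T.l (nat_lit 20) (nat_lit 45)))) (T.n (T.n (T.l (nat_lit 20) (nat_lit 54)) (T.l (nat_lit 20) (nat_lit 56))) (T.n (T.l (nat_lit 21) (nat_lit 31)) (T.l (nat_lit 21) (nat_lit 32))))) (T.n (T.n (T.n (T.l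 (nat_lit 21) (nat_lit 36)) (T.l (nat_lit 21) (nat_lit 50))) (T.n (T.l (nat_lit 21) (nat_lit 56)) (T.l (nat_lit 23) (nat_lit 26)))) (T.n (T.n (T.l (nat_lit 23) (nat_lit 42)) (T.l (nat_lit 23) (nat_lit 44))) (T.n (T.l (nat_lit 23) (nat_lit 48)) (T.l (nat_lit 23) (nat_lit 57))))))) (T.n (T.n (T.n (T.n (T.l (nat_lit 25) (nat_lit 17)) (T.n (T.l (nat_lit 25) (nat_lit 20)) (T.l (nat_lit 25) (nat_lit 45)))) (T.n (T.n (T.l (nat_lit 25) (nat_lit 46)) (T.l (nat_lit 25) (nat_lit 54))) (T.n (T.l (nat_lit 26) (nat_lit 16)) (T.l (nat_lit 26) (nat_lit 23))))) (T.n (T.n (T.n (T.l (nat_lit 26) (nat_lit 42)) (T.l (nat_lit 26) (nat_lit 57))) (T.n (T.l (nat_lit 26) (nat_lit 58)) (T.l (nat_lit 31) (nat_lit 17)))) (T.n (T.n (T.l (nat_lit 31) (nat_lit 21)) (T.l (nat_lit 31) (nat_lit 45))) (T.n (T.l (nat_lit 31) (nat_lit 50)) (T.l (nat_lit 31) (nat_lit 56)))))) (T.n (T.n (T.n (T.l (nat_lit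 32) (nat_lit 21)) (T.n (T.l (nat_lit 32) (nat_lit 36)) (T.l (nat_lit 32) (nat_lit 46)))) (T.n (T.n (T.l (nat_lit 32) (nat_lit 50)) (T.l (nat_lit 32) (nat_lit 54))) (T.n (T.l (nat_lit 34) (nat_lit 16)) (T.l (nat_lit 34) (nat_lit 18))))) (T.n (T.n (T.n (T.l (nat_lit 34) (nat_lit 38)) (T.l (nat_lit 34) (nat_lit 44))) (T.n (T.l (nat_lit 34) (nat_lit 57)) (T.l (nat_lit 35) (nat_lit 18)))) (T.n (T.n (T.l (nat_lit 35) (nat_lit 38)) (T.l (nat_lit 35) (nat_lit 42))) (T.n (T.l (nat_lit 35) (nat_lit 48)) (T.l (nat_lit 35) (nat_lit 58)))))))) (T.n (T.n (T.n (T.n (T.n (T.l (nat_lit 36) (nat_lit 20)) (T.n (T.l (nat_lit 36) (nat_lit 21)) (T.l (nat_lit 36) (nat_lit 32)))) (T.n (T.n (T.l (nat_lit 36) (nat_lit 54)) (T.l (nat_lit 36) (nat_lit 56))) (T.n (T.l (nat_lit 38) (nat_lit 16)) (T.l (nat_lit 38) (nat_lit 18))))) (T.n (T.n (T.n (T.l (nat_lit 38) (nat_lit 34)) (T.l (nat_lit 38)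 (nat_lit 35))) (T.n (T.l (nat_lit 38) (nat_lit 58)) (T.l (nat_lit 42) (nat_lit 23)))) (T.n (T.n (T.l (nat_lit 42) (nat_lit 26)) (T.l (nat_lit 42) (nat_lit 35))) (T.n (T.l (nat_lit 42) (nat_lit 48)) (T.l (nat_lit 42) (nat_lit 58)))))) (T.n (T.n (T.n (T.l (nat_lit 44) (nat_lit 18)) (T.n (T.l (nat_lit 44) (nat_lit 23)) (T.l (nat_lit 44) (nat_lit 34)))) (T.n (T.n (T.l (nat_lit 44) (nat_lit 48)) (T.l (nat_lit 44) (nat_lit 57))) (T.n (T.l (nat_lit 45) (nat_lit 17)) (T.l (nat_lit 45) (nat_lit 20))))) (T.n (T.n (T.n (T.l (nat_lit 45) (nat_lit 25)) (T.l (nat_lit 45) (nat_lit 31))) (T.n (T.l (nat_lit 45) (nat_lit 56)) (T.l (nat_lit 46) (nat_lit 17)))) (T.n (T.n (T.l (nat_lit 46) (nat_lit 25)) (T.l (nat_lit 46) (nat_lit 32))) (T.n (T.l (nat_lit 46) (nat_lit 50)) (T.l (nat_lit 46) (nat_lit 54))))))) (T.n (T.n (T.n (T.n (T.l (nat_lit 48) (nat_lit 18)) (T.n (T.l (nat_lit 48) (nat_lit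 23)) (T.l (nat_lit 48) (nat_lit 35)))) (T.n (T.n (T.l (nat_lit 48) (nat_lit 42)) (T.l (nat_lit 48) (nat_lit 44))) (T.n (T.l (nat_lit 50) (nat_lit 17)) (T.l (nat_lit 50) (nat_lit 21))))) (T.n (T.n (T.n (T.l (nat_lit 50) (nat_lit 31)) (T.l (nat_lit 50) (nat_lit 32))) (T.n (T.l (nat_lit 50) (nat_lit 46)) (T.l (nat_lit 54) (nat_lit 20)))) (T.n (T.n (T.l (nat_lit 54) (nat_lit 25)) (T.l (nat_lit 54) (nat_lit 32))) (T.n (T.l (nat_lit 54) (nat_lit 36)) (T.l (nat_lit 54) (nat_lit 46)))))) (T.n (T.n (T.n (T.l (nat_lit 56) (nat_lit 20)) (T.n (T.l (nat_lit 56) (nat_lit 21)) (T.l (nat_lit 56) (nat_lit 31)))) (T.n (T.n (T.l (nat_lit 56) (nat_lit 36)) (T.l (nat_lit 56) (nat_lit 45))) (T.n (T.l (nat_lit 57) (nat_lit 16)) (T.l (nat_lit 57) (nat_lit 23))))) (T.n (T.n (T.n (T.l (nat_lit 57) (nat_lit 26)) (T.l (nat_lit 57) (nat_lit 34))) (T.n (T.l (nat_lit 57) (nat_lit 44)) (T.l (nat_lit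 58) (nat_lit 16)))) (T.n (T.n (T.l (nat_lit 58) (nat_lit 26)) (T.l (nat_lit 58) (nat_lit 35))) (T.n (T.l (nat_lit 58) (nat_lit 38)) (T.l (nat_lit 58) (nat_lit 42))))))))
def T28_0 : T := T.n (T.n (T.n (T.n (T.n (T.l (nat_lit 16) (nat_lit 32)) (T.n (T.l (nat_lit 16) (nat_lit 45)) (T.l (nat_lit 17) (nat_lit 35)))) (T.n (T.l (nat_lit 17) (nat_lit 57)) (T.n (T.l (nat_lit 18) (nat_lit 46)) (T.l (nat_lit 18) (nat_lit 56))))) (T.n (T.n (T.l (nat_lit 20) (nat_lit 34)) (T.n (T.l (nat_lit 20) (nat_lit 42)) (T.l (nat_lit 21) (nat_lit 44)))) (T.n (T.l (nat_lit 21) (nat_lit 58)) (T.n (T.l (nat_lit 23) (nat_lit 31)) (T.l (nat_lit 23) (nat_lit 54)))))) (T.n (T.n (T.n (T.l (nat_lit 25) (nat_lit 44)) (T.n (T.l (nat_lit 25) (nat_lit 58)) (T.l (nat_lit 26) (nat_lit 46)))) (T.n (T.l (nat_lit 26) (nat_lit 56)) (T.n (T.l (nat_lit 31) (nat_lit 23)) (T.l (nat_lit 31) (nat_lit 38))))) (T.n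 (T.n (T.l (nat_lit 32) (nat_lit 16)) (T.n (T.l (nat_lit 32) (nat_lit 48)) (T.l (nat_lit 34) (nat_lit 20)))) (T.n (T.l (nat_lit 34) (nat_lit 50)) (T.n (T.l (nat_lit 35) (nat_lit 17)) (T.l (nat_lit 35) (nat_lit 36))))))) (T.n (T.n (T.n (T.n (T.l (nat_lit 36) (nat_lit 35)) (T.n (T.l (nat_lit 36) (nat_lit 57)) (T.l (nat_lit 38) (nat_lit 31)))) (T.n (T.l (nat_lit 38) (nat_lit 54)) (T.n (T.l (nat_lit 42) (nat_lit 20)) (T.l (nat_lit 42) (nat_lit 50))))) (T.n (T.n (T.l (nat_lit 44) (nat_lit 21)) (T.n (T.l (nat_lit 44) (nat_lit 25)) (T.l (nat_lit 45) (nat_lit 16)))) (T.n (T.l (nat_lit 45) (nat_lit 48)) (T.n (T.l (nat_lit 46) (nat_lit 18)) (T.l (nat_lit 46) (nat_lit 26)))))) (T.n (T.n (T.n (T.l (nat_lit 48) (nat_lit 32)) (T.n (T.l (nat_lit 48) (nat_lit 45)) (T.l (nat_lit 50) (nat_lit 34)))) (T.n (T.l (nat_lit 50) (nat_lit 42)) (T.n (T.l (nat_lit 54) (nat_lit 23)) (T.l (nat_lit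 54) (nat_lit 38))))) (T.n (T.n (T.l (nat_lit 56) (nat_lit 18)) (T.n (T.l (nat_lit 56) (nat_lit 26)) (T.l (nat_lit 57) (nat_lit 17)))) (T.n (T.l (nat_lit 57) (nat_lit 36)) (T.n (T.l (nat_lit 58) (nat_lit 21)) (T.l (nat_lit 58) (nat_lit 25)))))))
def T29_0 : T := T.n (T.n (T.n (T.n (T.l (nat_lit 16) (nat_lit 48)) (T.n (T.l (nat_lit 17) (nat_lit 36)) (T.l (nat_lit 18) (nat_lit 26)))) (T.n (T.l (nat_lit 20) (nat_lit 50)) (T.n (T.l (nat_lit 21) (nat_lit 25)) (T.l (nat_lit 23) (nat_lit 38))))) (T.n (T.n (T.l (nat_lit 25) (nat_lit 21)) (T.n (T.l (nat_lit 26) (nat_lit 18)) (T.l (nat_lit 31) (nat_lit 54)))) (T.n (T.l (nat_lit 32) (nat_lit 45)) (T.n (T.l (nat_lit 34) (nat_lit 42)) (T.l (nat_lit 35) (nat_lit 57)))))) (T.n (T.n (T.n (T.l (nat_lit 36) (nat_lit 17)) (T.n (T.l (nat_lit 38) (nat_lit 23)) (T.l (nat_lit 42) (nat_lit 34)))) (T.n (T.l (nat_lit 44) (nat_lit 58)) (T.n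 (T.l (nat_lit 45) (nat_lit 32)) (T.l (nat_lit 46) (nat_lit 56))))) (T.n (T.n (T.l (nat_lit 48) (nat_lit 16)) (T.n (T.l (nat_lit 50) (nat_lit 20)) (T.l (nat_lit 54) (nat_lit 31)))) (T.n (T.l (nat_lit 56) (nat_lit 46)) (T.n (T.l (nat_lit 57) (nat_lit 35)) (T.l (nat_lit 58) (nat_lit 44))))))
def T2_1 : T := T.n (T.l (nat_lit 0) (nat_lit 0)) (T.l (nat_lit 3) (nat_lit 3))
def T6_1 : T := T.n (T.n (T.n (T.n (T.n (T.l (nat_lit 0) (nat_lit 1)) (T.l (nat_lit 0) (nat_lit 2))) (T.n (T.l (nat_lit 0) (nat_lit 4)) (T.l (nat_lit 0) (nat_lit 5)))) (T.n (T.n (T.l (nat_lit 0) (nat_lit 6)) (T.l (nat_lit 0) (nat_lit 7))) (T.n (T.l (nat_lit 0) (nat_lit 9)) (T.l (nat_lit 0) (nat_lit 10))))) (T.n (T.n (T.n (T.l (nat_lit 1) (nat_lit 0)) (T.l (nat_lit 1) (nat_lit 3))) (T.n (T.l (nat_lit 2) (nat_lit 0)) (T.l (nat_lit 2) (nat_lit 3)))) (T.n (T.n (T.l (nat_lit 3) (nat_lit 1)) (T.l (nat_lit 3)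 (nat_lit 2))) (T.n (T.l (nat_lit 3) (nat_lit 4)) (T.l (nat_lit 3) (nat_lit 5)))))) (T.n (T.n (T.n (T.n (T.l (nat_lit 3) (nat_lit 6)) (T.l (nat_lit 3) (nat_lit 7))) (T.n (T.l (nat_lit 3) (nat_lit 9)) (T.l (nat_lit 3) (nat_lit 10)))) (T.n (T.n (T.l (nat_lit 4) (nat_lit 0)) (T.l (nat_lit 4) (nat_lit 3))) (T.n (T.l (nat_lit 5) (nat_lit 0)) (T.l (nat_lit 5) (nat_lit 3))))) (T.n (T.n (T.n (T.l (nat_lit 6) (nat_lit 0)) (T.l (nat_lit 6) (nat_lit 3))) (T.n (T.l (nat_lit 7) (nat_lit 0)) (T.l (nat_lit 7) (nat_lit 3)))) (T.n (T.n (T.l (nat_lit 9) (nat_lit 0)) (T.l (nat_lit 9) (nat_lit 3))) (T.n (T.l (nat_lit 10) (nat_lit 0)) (T.l (nat_lit 10) (nat_lit 3))))))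
def T8_1 : T := T.n (T.n (T.n (T.l (nat_lit 1) (nat_lit 1)) (T.l (nat_lit 2) (nat_lit 2))) (T.n (T.l (nat_lit 4) (nat_lit 4)) (T.l (nat_lit 5) (nat_lit 5)))) (T.n (T.n (T.l (nat_lit 6) (nat_lit 6)) (T.l (nat_lit 7) (nat_lit 7))) (T.n (T.l (nat_lit 9) (nat_lit 9)) (T.l (nat_lit 10) (nat_lit 10))))
def T9_1 : T := T.n (T.n (T.n (T.n (T.l (nat_lit 0) (nat_lit 15)) (T.n (T.l (nat_lit 0) (nat_lit 24)) (T.l (nat_lit 0) (nat_lit 40)))) (T.n (T.l (nat_lit 0) (nat_lit 52)) (T.n (T.l (nat_lit 3) (nat_lit 12)) (T.l (nat_lit 3) (nat_lit 27))))) (T.n (T.n (T.l (nat_lit 3) (nat_lit 43)) (T.n (T.l (nat_lit 3) (nat_lit 55)) (T.l (nat_lit 12) (nat_lit 3)))) (T.n (T.l (nat_lit 12) (nat_lit 12)) (T.n (T.l (nat_lit 15) (nat_lit 0)) (T.l (nat_lit 15) (nat_lit 15)))))) (T.n (T.n (T.n (T.l (nat_lit 24) (nat_lit 0)) (T.n (T.l (nat_lit 24) (nat_lit 24)) (T.l (nat_lit 27) (nat_lit 3)))) (T.n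 (T.l (nat_lit 27) (nat_lit 27)) (T.n (T.l (nat_lit 40) (nat_lit 0)) (T.l (nat_lit 40) (nat_lit 40))))) (T.n (T.n (T.l (nat_lit 43) (nat_lit 3)) (T.n (T.l (nat_lit 43) (nat_lit 43)) (T.l (nat_lit 52) (nat_lit 0)))) (T.n (T.l (nat_lit 52) (nat_lit 52)) (T.n (T.l (nat_lit 55) (nat_lit 3)) (T.l (nat_lit 55) (nat_lit 55))))))
def T13_1 : T := T.n (T.n (T.n (T.n (T.n (T.l (nat_lit 0) (nat_lit 19)) (T.l (nat_lit 0) (nat_lit 22))) (T.n (T.l (nat_lit 0) (nat_lit 28)) (T.l (nat_lit 0) (nat_lit 29)))) (T.n (T.n (T.l (nat_lit 0) (nat_lit 37)) (T.l (nat_lit 0) (nat_lit 39))) (T.n (T.l (nat_lit 0) (nat_lit 49)) (T.l (nat_lit 0) (nat_lit 51))))) (T.n (T.n (T.n (T.l (nat_lit 3) (nat_lit 16)) (T.l (nat_lit 3) (nat_lit 17))) (T.n (T.l (nat_lit 3) (nat_lit 31)) (T.l (nat_lit 3) (nat_lit 34)))) (T.n (T.n (T.l (nat_lit 3) (nat_lit 36)) (T.l (nat_lit 3) (nat_lit 42))) (T.n (T.l (nat_lit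 3) (nat_lit 48)) (T.l (nat_lit 3) (nat_lit 54)))))) (T.n (T.n (T.n (T.n (T.l (nat_lit 16) (nat_lit 3)) (T.l (nat_lit 17) (nat_lit 3))) (T.n (T.l (nat_lit 19) (nat_lit 0)) (T.l (nat_lit 22) (nat_lit 0)))) (T.n (T.n (T.l (nat_lit 28) (nat_lit 0)) (T.l (nat_lit 29) (nat_lit 0))) (T.n (T.l (nat_lit 31) (nat_lit 3)) (T.l (nat_lit 34) (nat_lit 3))))) (T.n (T.n (T.n (T.l (nat_lit 36) (nat_lit 3)) (T.l (nat_lit 37) (nat_lit 0))) (T.n (T.l (nat_lit 39) (nat_lit 0)) (T.l (nat_lit 42) (nat_lit 3)))) (T.n (T.n (T.l (nat_lit 48) (nat_lit 3)) (T.l (nat_lit 49) (nat_lit 0))) (T.n (T.l (nat_lit 51) (nat_lit 0)) (T.l (nat_lit 54) (nat_lit 3))))))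
def T14_1 : T := T.n (T.n (T.n (T.n (T.l (nat_lit 16) (nat_lit 16)) (T.l (nat_lit 17) (nat_lit 17))) (T.n (T.l (nat_lit 19) (nat_lit 19)) (T.l (nat_lit 22) (nat_lit 22)))) (T.n (T.n (T.l (nat_lit 28) (nat_lit 28)) (T.l (nat_lit 29) (nat_lit 29))) (T.n (T.l (nat_lit 31) (nat_lit 31)) (T.l (nat_lit 34) (nat_lit 34))))) (T.n (T.n (T.n (T.l (nat_lit 36) (nat_lit 36)) (T.l (nat_lit 37) (nat_lit 37))) (T.n (T.l (nat_lit 39) (nat_lit 39)) (T.l (nat_lit 42) (nat_lit 42)))) (T.n (T.n (T.l (nat_lit 48) (nat_lit 48)) (T.l (nat_lit 49) (nat_lit 49))) (T.n (T.l (nat_lit 51) (nat_lit 51)) (T.l (nat_lit 54) (nat_lit 54)))))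
def T16_1 : T := T.n (T.l (nat_lit 0) (nat_lit 3)) (T.l (nat_lit 3) (nat_lit 0))
def T17_1 : T := T.n (T.n (T.n (T.l (nat_lit 0) (nat_lit 8)) (T.l (nat_lit 0) (nat_lit 11))) (T.n (T.l (nat_lit 3) (nat_lit 8)) (T.n (T.l (nat_lit 3) (nat_lit 11)) (T.l (nat_lit 8) (nat_lit 0))))) (T.n (T.n (T.l (nat_lit 8) (nat_lit 3)) (T.l (nat_lit 8) (nat_lit 8))) (T.n (T.l (nat_lit 11) (nat_lit 0)) (T.n (T.l (nat_lit 11) (nat_lit 3)) (T.l (nat_lit 11) (nat_lit 11)))))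
def T18_1 : T := T.n (T.n (T.n (T.n (T.l (nat_lit 0) (nat_lit 12)) (T.l (nat_lit 0) (nat_lit 27))) (T.n (T.l (nat_lit 0) (nat_lit 43)) (T.l (nat_lit 0) (nat_lit 55)))) (T.n (T.n (T.l (nat_lit 3) (nat_lit 15)) (T.l (nat_lit 3) (nat_lit 24))) (T.n (T.l (nat_lit 3) (nat_lit 40)) (T.l (nat_lit 3) (nat_lit 52))))) (T.n (T.n (T.n (T.l (nat_lit 12) (nat_lit 0)) (T.l (nat_lit 15) (nat_lit 3))) (T.n (T.l (nat_lit 24) (nat_lit 3)) (T.l (nat_lit 27) (nat_lit 0)))) (T.n (T.n (T.l (nat_lit 40) (nat_lit 3)) (T.l (nat_lit 43) (nat_lit 0))) (T.n (T.l (nat_lit 52) (nat_lit 3)) (T.l (nat_lit 55) (nat_lit 0)))))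
def T19_1 : T := T.n (T.n (T.n (T.n (T.n (T.l (nat_lit 0) (nat_lit 13)) (T.l (nat_lit 0) (nat_lit 14))) (T.n (T.l (nat_lit 0) (nat_lit 30)) (T.l (nat_lit 0) (nat_lit 33)))) (T.n (T.n (T.l (nat_lit 0) (nat_lit 41)) (T.l (nat_lit 0) (nat_lit 47))) (T.n (T.l (nat_lit 0) (nat_lit 53)) (T.l (nat_lit 0) (nat_lit 59))))) (T.n (T.n (T.n (T.l (nat_lit 3) (nat_lit 18)) (T.l (nat_lit 3) (nat_lit 21))) (T.n (T.l (nat_lit 3) (nat_lit 25)) (T.l (nat_lit 3) (nat_lit 26)))) (T.n (T.n (T.l (nat_lit 3) (nat_lit 44)) (T.l (nat_lit 3) (nat_lit 46))) (T.n (T.l (nat_lit 3) (nat_lit 56)) (T.l (nat_lit 3) (nat_lit 58)))))) (T.n (T.n (T.n (T.n (T.l (nat_lit 13) (nat_lit 0)) (T.l (nat_lit 14) (nat_lit 0))) (T.n (T.l (nat_lit 18) (nat_lit 3)) (T.l (nat_lit 21) (nat_lit 3)))) (T.n (T.n (T.l (nat_lit 25) (nat_lit 3)) (T.l (nat_lit 26) (nat_lit 3))) (T.n (T.l (nat_lit 30) (nat_lit 0)) (T.l (nat_lit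 33) (nat_lit 0))))) (T.n (T.n (T.n (T.l (nat_lit 41) (nat_lit 0)) (T.l (nat_lit 44) (nat_lit 3))) (T.n (T.l (nat_lit 46) (nat_lit 3)) (T.l (nat_lit 47) (nat_lit 0)))) (T.n (T.n (T.l (nat_lit 53) (nat_lit 0)) (T.l (nat_lit 56) (nat_lit 3))) (T.n (T.l (nat_lit 58) (nat_lit 3)) (T.l (nat_lit 59) (nat_lit 0))))))
def T20_1 : T := T.n (T.n (T.n (T.n (T.n (T.l (nat_lit 0) (nat_lit 16)) (T.l (nat_lit 0) (nat_lit 17))) (T.n (T.l (nat_lit 0) (nat_lit 31)) (T.l (nat_lit 0) (nat_lit 34)))) (T.n (T.n (T.l (nat_lit 0) (nat_lit 36)) (T.l (nat_lit 0) (nat_lit 42))) (T.n (T.l (nat_lit 0) (nat_lit 48)) (T.l (nat_lit 0) (nat_lit 54))))) (T.n (T.n (T.n (T.l (nat_lit 3) (nat_lit 19)) (T.l (nat_lit 3) (nat_lit 22))) (T.n (T.l (nat_lit 3) (nat_lit 28)) (T.l (nat_lit 3) (nat_lit 29)))) (T.n (T.n (T.l (nat_lit 3) (nat_lit 37)) (T.l (nat_lit 3) (nat_lit 39))) (T.n (T.l (nat_lit 3) (nat_lit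 49)) (T.l (nat_lit 3) (nat_lit 51)))))) (T.n (T.n (T.n (T.n (T.l (nat_lit 16) (nat_lit 0)) (T.l (nat_lit 17) (nat_lit 0))) (T.n (T.l (nat_lit 19) (nat_lit 3)) (T.l (nat_lit 22) (nat_lit 3)))) (T.n (T.n (T.l (nat_lit 28) (nat_lit 3)) (T.l (nat_lit 29) (nat_lit 3))) (T.n (T.l (nat_lit 31) (nat_lit 0)) (T.l (nat_lit 34) (nat_lit 0))))) (T.n (T.n (T.n (T.l (nat_lit 36) (nat_lit 0)) (T.l (nat_lit 37) (nat_lit 3))) (T.n (T.l (nat_lit 39) (nat_lit 3)) (T.l (nat_lit 42) (nat_lit 0)))) (T.n (T.n (T.l (nat_lit 48) (nat_lit 0)) (T.l (nat_lit 49) (nat_lit 3))) (T.n (T.l (nat_lit 51) (nat_lit 3)) (T.l (nat_lit 54) (nat_lit 0))))))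
def T21_1 : T := T.n (T.n (T.n (T.n (T.n (T.l (nat_lit 0) (nat_lit 18)) (T.n (T.l (nat_lit 0) (nat_lit 21)) (T.l (nat_lit 0) (nat_lit 25)))) (T.n (T.l (nat_lit 0) (nat_lit 26)) (T.n (T.l (nat_lit 0) (nat_lit 44)) (T.l (nat_lit 0) (nat_lit 46))))) (T.n (T.n (T.l (nat_lit 0) (nat_lit 56)) (T.n (T.l (nat_lit 0) (nat_lit 58)) (T.l (nat_lit 3) (nat_lit 13)))) (T.n (T.l (nat_lit 3) (nat_lit 14)) (T.n (T.l (nat_lit 3) (nat_lit 30)) (T.l (nat_lit 3) (nat_lit 33)))))) (T.n (T.n (T.n (T.l (nat_lit 3) (nat_lit 41)) (T.n (T.l (nat_lit 3) (nat_lit 47)) (T.l (nat_lit 3) (nat_lit 53)))) (T.n (T.l (nat_lit 3) (nat_lit 59)) (T.n (T.l (nat_lit 13) (nat_lit 3)) (T.l (nat_lit 13) (nat_lit 13))))) (T.n (T.n (T.l (nat_lit 14) (nat_lit 3)) (T.n (T.l (nat_lit 14) (nat_lit 14)) (T.l (nat_lit 18) (nat_lit 0)))) (T.n (T.l (nat_lit 18) (nat_lit 18)) (T.n (T.l (nat_lit 21) (nat_lit 0)) (T.l (nat_lit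 21) (nat_lit 21))))))) (T.n (T.n (T.n (T.n (T.l (nat_lit 25) (nat_lit 0)) (T.n (T.l (nat_lit 25) (nat_lit 25)) (T.l (nat_lit 26) (nat_lit 0)))) (T.n (T.l (nat_lit 26) (nat_lit 26)) (T.n (T.l (nat_lit 30) (nat_lit 3)) (T.l (nat_lit 30) (nat_lit 30))))) (T.n (T.n (T.l (nat_lit 33) (nat_lit 3)) (T.n (T.l (nat_lit 33) (nat_lit 33)) (T.l (nat_lit 41) (nat_lit 3)))) (T.n (T.l (nat_lit 41) (nat_lit 41)) (T.n (T.l (nat_lit 44) (nat_lit 0)) (T.l (nat_lit 44) (nat_lit 44)))))) (T.n (T.n (T.n (T.l (nat_lit 46) (nat_lit 0)) (T.n (T.l (nat_lit 46) (nat_lit 46)) (T.l (nat_lit 47) (nat_lit 3)))) (T.n (T.l (nat_lit 47) (nat_lit 47)) (T.n (T.l (nat_lit 53) (nat_lit 3)) (T.l (nat_lit 53) (nat_lit 53))))) (T.n (T.n (T.l (nat_lit 56) (nat_lit 0)) (T.n (T.l (nat_lit 56) (nat_lit 56)) (T.l (nat_lit 58) (nat_lit 0)))) (T.n (T.l (nat_lit 58) (nat_lit 58)) (T.n (T.l (nat_lit 59) (nat_lit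 3)) (T.l (nat_lit 59) (nat_lit 59)))))))
def T22_1 : T := T.n (T.n (T.n (T.n (T.n (T.l (nat_lit 0) (nat_lit 20)) (T.l (nat_lit 0) (nat_lit 23))) (T.n (T.l (nat_lit 0) (nat_lit 32)) (T.l (nat_lit 0) (nat_lit 35)))) (T.n (T.n (T.l (nat_lit 0) (nat_lit 38)) (T.l (nat_lit 0) (nat_lit 45))) (T.n (T.l (nat_lit 0) (nat_lit 50)) (T.l (nat_lit 0) (nat_lit 57))))) (T.n (T.n (T.n (T.l (nat_lit 3) (nat_lit 20)) (T.l (nat_lit 3) (nat_lit 23))) (T.n (T.l (nat_lit 3) (nat_lit 32)) (T.l (nat_lit 3) (nat_lit 35)))) (T.n (T.n (T.l (nat_lit 3) (nat_lit 38)) (T.l (nat_lit 3) (nat_lit 45))) (T.n (T.l (nat_lit 3) (nat_lit 50)) (T.l (nat_lit 3) (nat_lit 57)))))) (T.n (T.n (T.n (T.n (T.l (nat_lit 20) (nat_lit 0)) (T.l (nat_lit 20) (nat_lit 3))) (T.n (T.l (nat_lit 23) (nat_lit 0)) (T.l (nat_lit 23) (nat_lit 3)))) (T.n (T.n (T.l (nat_lit 32) (nat_lit 0)) (T.l (nat_lit 32) (nat_lit 3))) (T.n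 (T.l (nat_lit 35) (nat_lit 0)) (T.l (nat_lit 35) (nat_lit 3))))) (T.n (T.n (T.n (T.l (nat_lit 38) (nat_lit 0)) (T.l (nat_lit 38) (nat_lit 3))) (T.n (T.l (nat_lit 45) (nat_lit 0)) (T.l (nat_lit 45) (nat_lit 3)))) (T.n (T.n (T.l (nat_lit 50) (nat_lit 0)) (T.l (nat_lit 50) (nat_lit 3))) (T.n (T.l (nat_lit 57) (nat_lit 0)) (T.l (nat_lit 57) (nat_lit 3))))))
def T26_1 : T := T.n (T.n (T.n (T.l (nat_lit 20) (nat_lit 20)) (T.l (nat_lit 23) (nat_lit 23))) (T.n (T.l (nat_lit 32) (nat_lit 32)) (T.l (nat_lit 35) (nat_lit 35)))) (T.n (T.n (T.l (nat_lit 38) (nat_lit 38)) (T.l (nat_lit 45) (nat_lit 45))) (T.n (T.l (nat_lit 50) (nat_lit 50)) (T.l (nat_lit 57) (nat_lit 57))))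
def T30_1 : T := T.n (T.n (T.n (T.n (T.l (nat_lit 1) (nat_lit 2)) (T.l (nat_lit 1) (nat_lit 7))) (T.n (T.l (nat_lit 2) (nat_lit 1)) (T.l (nat_lit 2) (nat_lit 10)))) (T.n (T.n (T.l (nat_lit 4) (nat_lit 5)) (T.l (nat_lit 4) (nat_lit 6))) (T.n (T.l (nat_lit 5) (nat_lit 4)) (T.l (nat_lit 5) (nat_lit 9))))) (T.n (T.n (T.n (T.l (nat_lit 6) (nat_lit 4)) (T.l (nat_lit 6) (nat_lit 9))) (T.n (T.l (nat_lit 7) (nat_lit 1)) (T.l (nat_lit 7) (nat_lit 10)))) (T.n (T.n (T.l (nat_lit 9) (nat_lit 5)) (T.l (nat_lit 9) (nat_lit 6))) (T.n (T.l (nat_lit 10) (nat_lit 2)) (T.l (nat_lit 10) (nat_lit 7)))))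
def T31_1 : T := T.n (T.n (T.n (T.l (nat_lit 12) (nat_lit 27)) (T.l (nat_lit 15) (nat_lit 24))) (T.n (T.l (nat_lit 24) (nat_lit 15)) (T.l (nat_lit 27) (nat_lit 12)))) (T.n (T.n (T.l (nat_lit 40) (nat_lit 52)) (T.l (nat_lit 43) (nat_lit 55))) (T.n (T.l (nat_lit 52) (nat_lit 40)) (T.l (nat_lit 55) (nat_lit 43))))
def T33_1 : T := T.n (T.n (T.n (T.n (T.l (nat_lit 16) (nat_lit 42)) (T.l (nat_lit 17) (nat_lit 54))) (T.n (T.l (nat_lit 19) (nat_lit 37)) (T.l (nat_lit 22) (nat_lit 49)))) (T.n (T.n (T.l (nat_lit 28) (nat_lit 39)) (T.l (nat_lit 29) (nat_lit 51))) (T.n (T.l (nat_lit 31) (nat_lit 36)) (T.l (nat_lit 34) (nat_lit 48))))) (T.n (T.n (T.n (T.l (nat_lit 36) (nat_lit 31)) (T.l (nat_lit 37) (nat_lit 19))) (T.n (T.l (nat_lit 39) (nat_lit 28)) (T.l (nat_lit 42) (nat_lit 16)))) (T.n (T.n (T.l (nat_lit 48) (nat_lit 34)) (T.l (nat_lit 49) (nat_lit 22))) (T.n (T.l (nat_lit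 51) (nat_lit 29)) (T.l (nat_lit 54) (nat_lit 17)))))
def T34_1 : T := T.n (T.n (T.n (T.n (T.l (nat_lit 1) (nat_lit 4)) (T.l (nat_lit 1) (nat_lit 9))) (T.n (T.l (nat_lit 2) (nat_lit 5)) (T.l (nat_lit 2) (nat_lit 6)))) (T.n (T.n (T.l (nat_lit 4) (nat_lit 1)) (T.l (nat_lit 4) (nat_lit 10))) (T.n (T.l (nat_lit 5) (nat_lit 2)) (T.l (nat_lit 5) (nat_lit 7))))) (T.n (T.n (T.n (T.l (nat_lit 6) (nat_lit 2)) (T.l (nat_lit 6) (nat_lit 7))) (T.n (T.l (nat_lit 7) (nat_lit 5)) (T.l (nat_lit 7) (nat_lit 6)))) (T.n (T.n (T.l (nat_lit 9) (nat_lit 1)) (T.l (nat_lit 9) (nat_lit 10))) (T.n (T.l (nat_lit 10) (nat_lit 4)) (T.l (nat_lit 10) (nat_lit 9)))))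
def T35_1 : T := T.n (T.n (T.n (T.n (T.l (nat_lit 1) (nat_lit 5)) (T.l (nat_lit 1) (nat_lit 6))) (T.n (T.l (nat_lit 2) (nat_lit 4)) (T.l (nat_lit 2) (nat_lit 9)))) (T.n (T.n (T.l (nat_lit 4) (nat_lit 2)) (T.l (nat_lit 4) (nat_lit 7))) (T.n (T.l (nat_lit 5) (nat_lit 1)) (T.l (nat_lit 5) (nat_lit 10))))) (T.n (T.n (T.n (T.l (nat_lit 6) (nat_lit 1)) (T.l (nat_lit 6) (nat_lit 10))) (T.n (T.l (nat_lit 7) (nat_lit 4)) (T.l (nat_lit 7) (nat_lit 9)))) (T.n (T.n (T.l (nat_lit 9) (nat_lit 2)) (T.l (nat_lit 9) (nat_lit 7))) (T.n (T.l (nat_lit 10) (nat_lit 5)) (T.l (nat_lit 10) (nat_lit 6)))))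
def T36_1 : T := T.n (T.n (T.n (T.n (T.n (T.l (nat_lit 1) (nat_lit 8)) (T.l (nat_lit 1) (nat_lit 11))) (T.n (T.l (nat_lit 2) (nat_lit 8)) (T.l (nat_lit 2) (nat_lit 11)))) (T.n (T.n (T.l (nat_lit 4) (nat_lit 8)) (T.l (nat_lit 4) (nat_lit 11))) (T.n (T.l (nat_lit 5) (nat_lit 8)) (T.l (nat_lit 5) (nat_lit 11))))) (T.n (T.n (T.n (T.l (nat_lit 6) (nat_lit 8)) (T.l (nat_lit 6) (nat_lit 11))) (T.n (T.l (nat_lit 7) (nat_lit 8)) (T.l (nat_lit 7) (nat_lit 11)))) (T.n (T.n (T.l (nat_lit 8) (nat_lit 1)) (T.l (nat_lit 8) (nat_lit 2))) (T.n (T.l (nat_lit 8) (nat_lit 4)) (T.l (nat_lit 8) (nat_lit 5)))))) (T.n (T.n (T.n (T.n (T.l (nat_lit 8) (nat_lit 6)) (T.l (nat_lit 8) (nat_lit 7))) (T.n (T.l (nat_lit 8) (nat_lit 9)) (T.l (nat_lit 8) (nat_lit 10)))) (T.n (T.n (T.l (nat_lit 9) (nat_lit 8)) (T.l (nat_lit 9) (nat_lit 11))) (T.n (T.l (nat_lit 10) (nat_lit 8)) (T.l (nat_lit 10) (nat_lit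 11))))) (T.n (T.n (T.n (T.l (nat_lit 11) (nat_lit 1)) (T.l (nat_lit 11) (nat_lit 2))) (T.n (T.l (nat_lit 11) (nat_lit 4)) (T.l (nat_lit 11) (nat_lit 5)))) (T.n (T.n (T.l (nat_lit 11) (nat_lit 6)) (T.l (nat_lit 11) (nat_lit 7))) (T.n (T.l (nat_lit 11) (nat_lit 9)) (T.l (nat_lit 11) (nat_lit 10))))))
def T37_1 : T := T.n (T.n (T.n (T.l (nat_lit 1) (nat_lit 10)) (T.l (nat_lit 2) (nat_lit 7))) (T.n (T.l (nat_lit 4) (nat_lit 9)) (T.l (nat_lit 5) (nat_lit 6)))) (T.n (T.n (T.l (nat_lit 6) (nat_lit 5)) (T.l (nat_lit 7) (nat_lit 2))) (T.n (T.l (nat_lit 9) (nat_lit 4)) (T.l (nat_lit 10) (nat_lit 1))))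
def T38_1 : T := T.n (T.n (T.n (T.n (T.n (T.l (nat_lit 1) (nat_lit 12)) (T.n (T.l (nat_lit 1) (nat_lit 52)) (T.l (nat_lit 2) (nat_lit 12)))) (T.n (T.l (nat_lit 2) (nat_lit 40)) (T.n (T.l (nat_lit 4) (nat_lit 24)) (T.l (nat_lit 4) (nat_lit 55))))) (T.n (T.n (T.l (nat_lit 5) (nat_lit 24)) (T.n (T.l (nat_lit 5) (nat_lit 43)) (T.l (nat_lit 6) (nat_lit 15)))) (T.n (T.l (nat_lit 6) (nat_lit 55)) (T.n (T.l (nat_lit 7) (nat_lit 27)) (T.l (nat_lit 7) (nat_lit 52)))))) (T.n (T.n (T.n (T.l (nat_lit 9) (nat_lit 15)) (T.n (T.l (nat_lit 9) (nat_lit 43)) (T.l (nat_lit 10) (nat_lit 27)))) (T.n (T.l (nat_lit 10) (nat_lit 40)) (T.n (T.l (nat_lit 12) (nat_lit 1)) (T.l (nat_lit 12) (nat_lit 2))))) (T.n (T.n (T.l (nat_lit 12) (nat_lit 40)) (T.n (T.l (nat_lit 12) (nat_lit 52)) (T.l (nat_lit 15) (nat_lit 6)))) (T.n (T.l (nat_lit 15) (nat_lit 9)) (T.n (T.l (nat_lit 15) (nat_lit 43)) (T.l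 (nat_lit 15) (nat_lit 55))))))) (T.n (T.n (T.n (T.n (T.l (nat_lit 24) (nat_lit 4)) (T.n (T.l (nat_lit 24) (nat_lit 5)) (T.l (nat_lit 24) (nat_lit 43)))) (T.n (T.l (nat_lit 24) (nat_lit 55)) (T.n (T.l (nat_lit 27) (nat_lit 7)) (T.l (nat_lit 27) (nat_lit 10))))) (T.n (T.n (T.l (nat_lit 27) (nat_lit 40)) (T.n (T.l (nat_lit 27) (nat_lit 52)) (T.l (nat_lit 40) (nat_lit 2)))) (T.n (T.l (nat_lit 40) (nat_lit 10)) (T.n (T.l (nat_lit 40) (nat_lit 12)) (T.l (nat_lit 40) (nat_lit 27)))))) (T.n (T.n (T.n (T.l (nat_lit 43) (nat_lit 5)) (T.n (T.l (nat_lit 43) (nat_lit 9)) (T.l (nat_lit 43) (nat_lit 15)))) (T.n (T.l (nat_lit 43) (nat_lit 24)) (T.n (T.l (nat_lit 52) (nat_lit 1)) (T.l (nat_lit 52) (nat_lit 7))))) (T.n (T.n (T.l (nat_lit 52) (nat_lit 12)) (T.n (T.l (nat_lit 52) (nat_lit 27)) (T.l (nat_lit 55) (nat_lit 4)))) (T.n (T.l (nat_lit 55) (nat_lit 6)) (T.n (T.l (nat_lit 55)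 (nat_lit 15)) (T.l (nat_lit 55) (nat_lit 24)))))))
def T39_1 : T := T.n (T.n (T.n (T.n (T.n (T.l (nat_lit 1) (nat_lit 27)) (T.l (nat_lit 1) (nat_lit 40))) (T.n (T.l (nat_lit 2) (nat_lit 27)) (T.l (nat_lit 2) (nat_lit 52)))) (T.n (T.n (T.l (nat_lit 4) (nat_lit 15)) (T.l (nat_lit 4) (nat_lit 43))) (T.n (T.l (nat_lit 5) (nat_lit 15)) (T.l (nat_lit 5) (nat_lit 55))))) (T.n (T.n (T.n (T.l (nat_lit 6) (nat_lit 24)) (T.l (nat_lit 6) (nat_lit 43))) (T.n (T.l (nat_lit 7) (nat_lit 12)) (T.l (nat_lit 7) (nat_lit 40)))) (T.n (T.n (T.l (nat_lit 9) (nat_lit 24)) (T.l (nat_lit 9) (nat_lit 55))) (T.n (T.l (nat_lit 10) (nat_lit 12)) (T.l (nat_lit 10) (nat_lit 52)))))) (T.n (T.n (T.n (T.n (T.l (nat_lit 12) (nat_lit 7)) (T.l (nat_lit 12) (nat_lit 10))) (T.n (T.l (nat_lit 15) (nat_lit 4)) (T.l (nat_lit 15) (nat_lit 5)))) (T.n (T.n (T.l (nat_lit 24) (nat_lit 6)) (T.l (nat_lit 24) (nat_lit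 9))) (T.n (T.l (nat_lit 27) (nat_lit 1)) (T.l (nat_lit 27) (nat_lit 2))))) (T.n (T.n (T.n (T.l (nat_lit 40) (nat_lit 1)) (T.l (nat_lit 40) (nat_lit 7))) (T.n (T.l (nat_lit 43) (nat_lit 4)) (T.l (nat_lit 43) (nat_lit 6)))) (T.n (T.n (T.l (nat_lit 52) (nat_lit 2)) (T.l (nat_lit 52) (nat_lit 10))) (T.n (T.l (nat_lit 55) (nat_lit 5)) (T.l (nat_lit 55) (nat_lit 9))))))
def T40_1 : T := T.n (T.n (T.n (T.n (T.n (T.n (T.l (nat_lit 1) (nat_lit 29)) (T.l (nat_lit 1) (nat_lit 31))) (T.n (T.l (nat_lit 1) (nat_lit 39)) (T.l (nat_lit 1) (nat_lit 42)))) (T.n (T.n (T.l (nat_lit 2) (nat_lit 28)) (T.l (nat_lit 2) (nat_lit 34))) (T.n (T.l (nat_lit 2) (nat_lit 51)) (T.l (nat_lit 2) (nat_lit 54))))) (T.n (T.n (T.n (T.l (nat_lit 4) (nat_lit 17)) (T.l (nat_lit 4) (nat_lit 19))) (T.n (T.l (nat_lit 4) (nat_lit 39)) (T.l (nat_lit 4) (nat_lit 42)))) (T.n (T.n (T.l (nat_lit 5) (nat_lit 16))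 (T.l (nat_lit 5) (nat_lit 22))) (T.n (T.l (nat_lit 5) (nat_lit 51)) (T.l (nat_lit 5) (nat_lit 54)))))) (T.n (T.n (T.n (T.n (T.l (nat_lit 6) (nat_lit 28)) (T.l (nat_lit 6) (nat_lit 34))) (T.n (T.l (nat_lit 6) (nat_lit 36)) (T.l (nat_lit 6) (nat_lit 37)))) (T.n (T.n (T.l (nat_lit 7) (nat_lit 16)) (T.l (nat_lit 7) (nat_lit 22))) (T.n (T.l (nat_lit 7) (nat_lit 36)) (T.l (nat_lit 7) (nat_lit 37))))) (T.n (T.n (T.n (T.l (nat_lit 9) (nat_lit 29)) (T.l (nat_lit 9) (nat_lit 31))) (T.n (T.l (nat_lit 9) (nat_lit 48)) (T.l (nat_lit 9) (nat_lit 49)))) (T.n (T.n (T.l (nat_lit 10) (nat_lit 17)) (T.l (nat_lit 10) (nat_lit 19))) (T.n (T.l (nat_lit 10) (nat_lit 48)) (T.l (nat_lit 10) (nat_lit 49))))))) (T.n (T.n (T.n (T.n (T.n (T.l (nat_lit 16) (nat_lit 5)) (T.l (nat_lit 16) (nat_lit 7))) (T.n (T.l (nat_lit 17) (nat_lit 4)) (T.l (nat_lit 17) (nat_lit 10)))) (T.n (T.n (T.l (nat_lit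 19) (nat_lit 4)) (T.l (nat_lit 19) (nat_lit 10))) (T.n (T.l (nat_lit 22) (nat_lit 5)) (T.l (nat_lit 22) (nat_lit 7))))) (T.n (T.n (T.n (T.l (nat_lit 28) (nat_lit 2)) (T.l (nat_lit 28) (nat_lit 6))) (T.n (T.l (nat_lit 29) (nat_lit 1)) (T.l (nat_lit 29) (nat_lit 9)))) (T.n (T.n (T.l (nat_lit 31) (nat_lit 1)) (T.l (nat_lit 31) (nat_lit 9))) (T.n (T.l (nat_lit 34) (nat_lit 2)) (T.l (nat_lit 34) (nat_lit 6)))))) (T.n (T.n (T.n (T.n (T.l (nat_lit 36) (nat_lit 6)) (T.l (nat_lit 36) (nat_lit 7))) (T.n (T.l (nat_lit 37) (nat_lit 6)) (T.l (nat_lit 37) (nat_lit 7)))) (T.n (T.n (T.l (nat_lit 39) (nat_lit 1)) (T.l (nat_lit 39) (nat_lit 4))) (T.n (T.l (nat_lit 42) (nat_lit 1)) (T.l (nat_lit 42) (nat_lit 4))))) (T.n (T.n (T.n (T.l (nat_lit 48) (nat_lit 9)) (T.l (nat_lit 48) (nat_lit 10))) (T.n (T.l (nat_lit 49) (nat_lit 9)) (T.l (nat_lit 49) (nat_lit 10)))) (T.n (T.n (T.l (nat_lit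 51) (nat_lit 2)) (T.l (nat_lit 51) (nat_lit 5))) (T.n (T.l (nat_lit 54) (nat_lit 2)) (T.l (nat_lit 54) (nat_lit 5)))))))
def T42_1 : T := T.n (T.n (T.n (T.n (T.n (T.l (nat_lit 16) (nat_lit 17)) (T.l (nat_lit 16) (nat_lit 31))) (T.n (T.l (nat_lit 17) (nat_lit 16)) (T.l (nat_lit 17) (nat_lit 34)))) (T.n (T.n (T.l (nat_lit 19) (nat_lit 22)) (T.l (nat_lit 19) (nat_lit 28))) (T.n (T.l (nat_lit 22) (nat_lit 19)) (T.l (nat_lit 22) (nat_lit 29))))) (T.n (T.n (T.n (T.l (nat_lit 28) (nat_lit 19)) (T.l (nat_lit 28) (nat_lit 29))) (T.n (T.l (nat_lit 29) (nat_lit 22)) (T.l (nat_lit 29) (nat_lit 28)))) (T.n (T.n (T.l (nat_lit 31) (nat_lit 16)) (T.l (nat_lit 31) (nat_lit 34))) (T.n (T.l (nat_lit 34) (nat_lit 17)) (T.l (nat_lit 34) (nat_lit 31)))))) (T.n (T.n (T.n (T.n (T.l (nat_lit 36) (nat_lit 42)) (T.l (nat_lit 36) (nat_lit 48))) (T.n (T.l (nat_lit 37) (nat_lit 39)) (T.l (nat_lit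 37) (nat_lit 49)))) (T.n (T.n (T.l (nat_lit 39) (nat_lit 37)) (T.l (nat_lit 39) (nat_lit 51))) (T.n (T.l (nat_lit 42) (nat_lit 36)) (T.l (nat_lit 42) (nat_lit 54))))) (T.n (T.n (T.n (T.l (nat_lit 48) (nat_lit 36)) (T.l (nat_lit 48) (nat_lit 54))) (T.n (T.l (nat_lit 49) (nat_lit 37)) (T.l (nat_lit 49) (nat_lit 51)))) (T.n (T.n (T.l (nat_lit 51) (nat_lit 39)) (T.l (nat_lit 51) (nat_lit 49))) (T.n (T.l (nat_lit 54) (nat_lit 42)) (T.l (nat_lit 54) (nat_lit 48))))))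
def T45_1 : T := T.n (T.n (T.n (T.n (T.l (nat_lit 12) (nat_lit 15)) (T.l (nat_lit 12) (nat_lit 24))) (T.n (T.l (nat_lit 15) (nat_lit 12)) (T.l (nat_lit 15) (nat_lit 27)))) (T.n (T.n (T.l (nat_lit 24) (nat_lit 12)) (T.l (nat_lit 24) (nat_lit 27))) (T.n (T.l (nat_lit 27) (nat_lit 15)) (T.l (nat_lit 27) (nat_lit 24))))) (T.n (T.n (T.n (T.l (nat_lit 40) (nat_lit 43)) (T.l (nat_lit 40) (nat_lit 55))) (T.n (T.l (nat_lit 43) (nat_lit 40)) (T.l (nat_lit 43) (nat_lit 52)))) (T.n (T.n (T.l (nat_lit 52) (nat_lit 43)) (T.l (nat_lit 52) (nat_lit 55))) (T.n (T.l (nat_lit 55) (nat_lit 40)) (T.l (nat_lit 55) (nat_lit 52)))))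
def T46_1 : T := T.n (T.n (T.n (T.n (T.n (T.l (nat_lit 12) (nat_lit 13)) (T.n (T.l (nat_lit 12) (nat_lit 14)) (T.l (nat_lit 12) (nat_lit 43)))) (T.n (T.l (nat_lit 12) (nat_lit 55)) (T.n (T.l (nat_lit 13) (nat_lit 12)) (T.l (nat_lit 14) (nat_lit 12))))) (T.n (T.n (T.l (nat_lit 15) (nat_lit 18)) (T.n (T.l (nat_lit 15) (nat_lit 21)) (T.l (nat_lit 15) (nat_lit 40)))) (T.n (T.l (nat_lit 15) (nat_lit 52)) (T.n (T.l (nat_lit 18) (nat_lit 15)) (T.l (nat_lit 21) (nat_lit 15)))))) (T.n (T.n (T.n (T.l (nat_lit 24) (nat_lit 25)) (T.n (T.l (nat_lit 24) (nat_lit 26)) (T.l (nat_lit 24) (nat_lit 40)))) (T.n (T.l (nat_lit 24) (nat_lit 52)) (T.n (T.l (nat_lit 25) (nat_lit 24)) (T.l (nat_lit 26) (nat_lit 24))))) (T.n (T.n (T.l (nat_lit 27) (nat_lit 30)) (T.n (T.l (nat_lit 27) (nat_lit 33)) (T.l (nat_lit 27) (nat_lit 43)))) (T.n (T.l (nat_lit 27) (nat_lit 55)) (T.n (T.l (nat_lit 30)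 (nat_lit 27)) (T.l (nat_lit 33) (nat_lit 27))))))) (T.n (T.n (T.n (T.n (T.l (nat_lit 40) (nat_lit 15)) (T.n (T.l (nat_lit 40) (nat_lit 24)) (T.l (nat_lit 40) (nat_lit 44)))) (T.n (T.l (nat_lit 40) (nat_lit 46)) (T.n (T.l (nat_lit 41) (nat_lit 43)) (T.l (nat_lit 43) (nat_lit 12))))) (T.n (T.n (T.l (nat_lit 43) (nat_lit 27)) (T.n (T.l (nat_lit 43) (nat_lit 41)) (T.l (nat_lit 43) (nat_lit 47)))) (T.n (T.l (nat_lit 44) (nat_lit 40)) (T.n (T.l (nat_lit 46) (nat_lit 40)) (T.l (nat_lit 47) (nat_lit 43)))))) (T.n (T.n (T.n (T.l (nat_lit 52) (nat_lit 15)) (T.n (T.l (nat_lit 52) (nat_lit 24)) (T.l (nat_lit 52) (nat_lit 56)))) (T.n (T.l (nat_lit 52) (nat_lit 58)) (T.n (T.l (nat_lit 53) (nat_lit 55)) (T.l (nat_lit 55) (nat_lit 12))))) (T.n (T.n (T.l (nat_lit 55) (nat_lit 27)) (T.n (T.l (nat_lit 55) (nat_lit 53)) (T.l (nat_lit 55) (nat_lit 59)))) (T.n (T.l (nat_lit 56) (nat_lit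 52)) (T.n (T.l (nat_lit 58) (nat_lit 52)) (T.l (nat_lit 59) (nat_lit 55)))))))
def T47_1 : T := T.n (T.n (T.n (T.n (T.n (T.l (nat_lit 12) (nat_lit 30)) (T.n (T.l (nat_lit 12) (nat_lit 33)) (T.l (nat_lit 13) (nat_lit 14)))) (T.n (T.l (nat_lit 13) (nat_lit 27)) (T.n (T.l (nat_lit 14) (nat_lit 13)) (T.l (nat_lit 14) (nat_lit 27))))) (T.n (T.n (T.l (nat_lit 15) (nat_lit 25)) (T.n (T.l (nat_lit 15) (nat_lit 26)) (T.l (nat_lit 18) (nat_lit 21)))) (T.n (T.l (nat_lit 18) (nat_lit 24)) (T.n (T.l (nat_lit 21) (nat_lit 18)) (T.l (nat_lit 21) (nat_lit 24)))))) (T.n (T.n (T.n (T.l (nat_lit 24) (nat_lit 18)) (T.n (T.l (nat_lit 24) (nat_lit 21)) (T.l (nat_lit 25) (nat_lit 15)))) (T.n (T.l (nat_lit 25) (nat_lit 26)) (T.n (T.l (nat_lit 26) (nat_lit 15)) (T.l (nat_lit 26) (nat_lit 25))))) (T.n (T.n (T.l (nat_lit 27) (nat_lit 13)) (T.n (T.l (nat_lit 27) (nat_lit 14)) (T.l (nat_lit 30)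 (nat_lit 12)))) (T.n (T.l (nat_lit 30) (nat_lit 33)) (T.n (T.l (nat_lit 33) (nat_lit 12)) (T.l (nat_lit 33) (nat_lit 30))))))) (T.n (T.n (T.n (T.n (T.l (nat_lit 40) (nat_lit 56)) (T.n (T.l (nat_lit 40) (nat_lit 58)) (T.l (nat_lit 41) (nat_lit 47)))) (T.n (T.l (nat_lit 41) (nat_lit 55)) (T.n (T.l (nat_lit 43) (nat_lit 53)) (T.l (nat_lit 43) (nat_lit 59))))) (T.n (T.n (T.l (nat_lit 44) (nat_lit 46)) (T.n (T.l (nat_lit 44) (nat_lit 52)) (T.l (nat_lit 46) (nat_lit 44)))) (T.n (T.l (nat_lit 46) (nat_lit 52)) (T.n (T.l (nat_lit 47) (nat_lit 41)) (T.l (nat_lit 47) (nat_lit 55)))))) (T.n (T.n (T.n (T.l (nat_lit 52) (nat_lit 44)) (T.n (T.l (nat_lit 52) (nat_lit 46)) (T.l (nat_lit 53) (nat_lit 43)))) (T.n (T.l (nat_lit 53) (nat_lit 59)) (T.n (T.l (nat_lit 55) (nat_lit 41)) (T.l (nat_lit 55) (nat_lit 47))))) (T.n (T.n (T.l (nat_lit 56) (nat_lit 40)) (T.n (T.l (nat_lit 56) (nat_lit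 58)) (T.l (nat_lit 58) (nat_lit 40)))) (T.n (T.l (nat_lit 58) (nat_lit 56)) (T.n (T.l (nat_lit 59) (nat_lit 43)) (T.l (nat_lit 59) (nat_lit 53)))))))
def T48_1 : T := T.n (T.n (T.n (T.n (T.n (T.l (nat_lit 12) (nat_lit 41)) (T.n (T.l (nat_lit 12) (nat_lit 53)) (T.l (nat_lit 13) (nat_lit 53)))) (T.n (T.l (nat_lit 13) (nat_lit 55)) (T.n (T.l (nat_lit 14) (nat_lit 41)) (T.l (nat_lit 14) (nat_lit 43))))) (T.n (T.n (T.l (nat_lit 15) (nat_lit 46)) (T.n (T.l (nat_lit 15) (nat_lit 58)) (T.l (nat_lit 18) (nat_lit 52)))) (T.n (T.l (nat_lit 18) (nat_lit 58)) (T.n (T.l (nat_lit 21) (nat_lit 40)) (T.l (nat_lit 21) (nat_lit 46)))))) (T.n (T.n (T.n (T.l (nat_lit 24) (nat_lit 44)) (T.n (T.l (nat_lit 24) (nat_lit 56)) (T.l (nat_lit 25) (nat_lit 52)))) (T.n (T.l (nat_lit 25) (nat_lit 56)) (T.n (T.l (nat_lit 26) (nat_lit 40)) (T.l (nat_lit 26) (nat_lit 44))))) (T.n (T.n (T.l (nat_lit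 27) (nat_lit 47)) (T.n (T.l (nat_lit 27) (nat_lit 59)) (T.l (nat_lit 30) (nat_lit 55)))) (T.n (T.l (nat_lit 30) (nat_lit 59)) (T.n (T.l (nat_lit 33) (nat_lit 43)) (T.l (nat_lit 33) (nat_lit 47))))))) (T.n (T.n (T.n (T.n (T.l (nat_lit 40) (nat_lit 21)) (T.n (T.l (nat_lit 40) (nat_lit 26)) (T.l (nat_lit 41) (nat_lit 12)))) (T.n (T.l (nat_lit 41) (nat_lit 14)) (T.n (T.l (nat_lit 43) (nat_lit 14)) (T.l (nat_lit 43) (nat_lit 33))))) (T.n (T.n (T.l (nat_lit 44) (nat_lit 24)) (T.n (T.l (nat_lit 44) (nat_lit 26)) (T.l (nat_lit 46) (nat_lit 15)))) (T.n (T.l (nat_lit 46) (nat_lit 21)) (T.n (T.l (nat_lit 47) (nat_lit 27)) (T.l (nat_lit 47) (nat_lit 33)))))) (T.n (T.n (T.n (T.l (nat_lit 52) (nat_lit 18)) (T.n (T.l (nat_lit 52) (nat_lit 25)) (T.l (nat_lit 53) (nat_lit 12)))) (T.n (T.l (nat_lit 53) (nat_lit 13)) (T.n (T.l (nat_lit 55) (nat_lit 13)) (T.l (nat_lit 55) (nat_lit 30)))))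 (T.n (T.n (T.l (nat_lit 56) (nat_lit 24)) (T.n (T.l (nat_lit 56) (nat_lit 25)) (T.l (nat_lit 58) (nat_lit 15)))) (T.n (T.l (nat_lit 58) (nat_lit 18)) (T.n (T.l (nat_lit 59) (nat_lit 27)) (T.l (nat_lit 59) (nat_lit 30)))))))
def T51_1 : T := T.n (T.n (T.n (T.n (T.l (nat_lit 16) (nat_lit 22)) (T.l (nat_lit 17) (nat_lit 19))) (T.n (T.l (nat_lit 19) (nat_lit 17)) (T.l (nat_lit 22) (nat_lit 16)))) (T.n (T.n (T.l (nat_lit 28) (nat_lit 34)) (T.l (nat_lit 29) (nat_lit 31))) (T.n (T.l (nat_lit 31) (nat_lit 29)) (T.l (nat_lit 34) (nat_lit 28))))) (T.n (T.n (T.n (T.l (nat_lit 36) (nat_lit 37)) (T.l (nat_lit 37) (nat_lit 36))) (T.n (T.l (nat_lit 39) (nat_lit 42)) (T.l (nat_lit 42) (nat_lit 39)))) (T.n (T.n (T.l (nat_lit 48) (nat_lit 49)) (T.l (nat_lit 49) (nat_lit 48))) (T.n (T.l (nat_lit 51) (nat_lit 54)) (T.l (nat_lit 54) (nat_lit 51)))))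
def T52_1 : T := T.n (T.n (T.n (T.n (T.l (nat_lit 16) (nat_lit 34)) (T.l (nat_lit 17) (nat_lit 31))) (T.n (T.l (nat_lit 19) (nat_lit 29)) (T.l (nat_lit 22) (nat_lit 28)))) (T.n (T.n (T.l (nat_lit 28) (nat_lit 22)) (T.l (nat_lit 29) (nat_lit 19))) (T.n (T.l (nat_lit 31) (nat_lit 17)) (T.l (nat_lit 34) (nat_lit 16))))) (T.n (T.n (T.n (T.l (nat_lit 36) (nat_lit 54)) (T.l (nat_lit 37) (nat_lit 51))) (T.n (T.l (nat_lit 39) (nat_lit 49)) (T.l (nat_lit 42) (nat_lit 48)))) (T.n (T.n (T.l (nat_lit 48) (nat_lit 42)) (T.l (nat_lit 49) (nat_lit 39))) (T.n (T.l (nat_lit 51) (nat_lit 37)) (T.l (nat_lit 54) (nat_lit 36)))))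
def T54_1 : T := T.n (T.n (T.n (T.n (T.l (nat_lit 16) (nat_lit 48)) (T.l (nat_lit 17) (nat_lit 36))) (T.n (T.l (nat_lit 19) (nat_lit 51)) (T.l (nat_lit 22) (nat_lit 39)))) (T.n (T.n (T.l (nat_lit 28) (nat_lit 49)) (T.l (nat_lit 29) (nat_lit 37))) (T.n (T.l (nat_lit 31) (nat_lit 54)) (T.l (nat_lit 34) (nat_lit 42))))) (T.n (T.n (T.n (T.l (nat_lit 36) (nat_lit 17)) (T.l (nat_lit 37) (nat_lit 29))) (T.n (T.l (nat_lit 39) (nat_lit 22)) (T.l (nat_lit 42) (nat_lit 34)))) (T.n (T.n (T.l (nat_lit 48) (nat_lit 16)) (T.l (nat_lit 49) (nat_lit 28))) (T.n (T.l (nat_lit 51) (nat_lit 19)) (T.l (nat_lit 54) (nat_lit 31)))))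
def T58_1 : T := T.n (T.n (T.n (T.n (T.l (nat_lit 20) (nat_lit 38)) (T.l (nat_lit 20) (nat_lit 57))) (T.n (T.l (nat_lit 23) (nat_lit 45)) (T.l (nat_lit 23) (nat_lit 50)))) (T.n (T.n (T.l (nat_lit 32) (nat_lit 38)) (T.l (nat_lit 32) (nat_lit 57))) (T.n (T.l (nat_lit 35) (nat_lit 45)) (T.l (nat_lit 35) (nat_lit 50))))) (T.n (T.n (T.n (T.l (nat_lit 38) (nat_lit 20)) (T.l (nat_lit 38) (nat_lit 32))) (T.n (T.l (nat_lit 45) (nat_lit 23)) (T.l (nat_lit 45) (nat_lit 35)))) (T.n (T.n (T.l (nat_lit 50) (nat_lit 23)) (T.l (nat_lit 50) (nat_lit 35))) (T.n (T.l (nat_lit 57) (nat_lit 20)) (T.l (nat_lit 57) (nat_lit 32)))))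
def T59_1 : T := T.n (T.n (T.n (T.n (T.n (T.l (nat_lit 16) (nat_lit 19)) (T.l (nat_lit 16) (nat_lit 29))) (T.n (T.l (nat_lit 17) (nat_lit 22)) (T.l (nat_lit 17) (nat_lit 28)))) (T.n (T.n (T.l (nat_lit 19) (nat_lit 16)) (T.l (nat_lit 19) (nat_lit 34))) (T.n (T.l (nat_lit 22) (nat_lit 17)) (T.l (nat_lit 22) (nat_lit 31))))) (T.n (T.n (T.n (T.l (nat_lit 28) (nat_lit 17)) (T.l (nat_lit 28) (nat_lit 31))) (T.n (T.l (nat_lit 29) (nat_lit 16)) (T.l (nat_lit 29) (nat_lit 34)))) (T.n (T.n (T.l (nat_lit 31) (nat_lit 22)) (T.l (nat_lit 31) (nat_lit 28))) (T.n (T.l (nat_lit 34) (nat_lit 19)) (T.l (nat_lit 34) (nat_lit 29)))))) (T.n (T.n (T.n (T.n (T.l (nat_lit 36) (nat_lit 39)) (T.l (nat_lit 36) (nat_lit 49))) (T.n (T.l (nat_lit 37) (nat_lit 42)) (T.l (nat_lit 37) (nat_lit 48)))) (T.n (T.n (T.l (nat_lit 39) (nat_lit 36)) (T.l (nat_lit 39) (nat_lit 54))) (T.n (T.l (nat_lit 42)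 (nat_lit 37)) (T.l (nat_lit 42) (nat_lit 51))))) (T.n (T.n (T.n (T.l (nat_lit 48) (nat_lit 37)) (T.l (nat_lit 48) (nat_lit 51))) (T.n (T.l (nat_lit 49) (nat_lit 36)) (T.l (nat_lit 49) (nat_lit 54)))) (T.n (T.n (T.l (nat_lit 51) (nat_lit 42)) (T.l (nat_lit 51) (nat_lit 48))) (T.n (T.l (nat_lit 54) (nat_lit 39)) (T.l (nat_lit 54) (nat_lit 49))))))
def T60_1 : T := T.n (T.n (T.n (T.n (T.n (T.l (nat_lit 16) (nat_lit 37)) (T.l (nat_lit 16) (nat_lit 51))) (T.n (T.l (nat_lit 17) (nat_lit 39)) (T.l (nat_lit 17) (nat_lit 49)))) (T.n (T.n (T.l (nat_lit 19) (nat_lit 42)) (T.l (nat_lit 19) (nat_lit 48))) (T.n (T.l (nat_lit 22) (nat_lit 36)) (T.l (nat_lit 22) (nat_lit 54))))) (T.n (T.n (T.n (T.l (nat_lit 28) (nat_lit 36)) (T.l (nat_lit 28) (nat_lit 54))) (T.n (T.l (nat_lit 29) (nat_lit 42)) (T.l (nat_lit 29) (nat_lit 48)))) (T.n (T.n (T.l (nat_lit 31) (nat_lit 39)) (T.l (nat_lit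 31) (nat_lit 49))) (T.n (T.l (nat_lit 34) (nat_lit 37)) (T.l (nat_lit 34) (nat_lit 51)))))) (T.n (T.n (T.n (T.n (T.l (nat_lit 36) (nat_lit 22)) (T.l (nat_lit 36) (nat_lit 28))) (T.n (T.l (nat_lit 37) (nat_lit 16)) (T.l (nat_lit 37) (nat_lit 34)))) (T.n (T.n (T.l (nat_lit 39) (nat_lit 17)) (T.l (nat_lit 39) (nat_lit 31))) (T.n (T.l (nat_lit 42) (nat_lit 19)) (T.l (nat_lit 42) (nat_lit 29))))) (T.n (T.n (T.n (T.l (nat_lit 48) (nat_lit 19)) (T.l (nat_lit 48) (nat_lit 29))) (T.n (T.l (nat_lit 49) (nat_lit 17)) (T.l (nat_lit 49) (nat_lit 31)))) (T.n (T.n (T.l (nat_lit 51) (nat_lit 16)) (T.l (nat_lit 51) (nat_lit 34))) (T.n (T.l (nat_lit 54) (nat_lit 22)) (T.l (nat_lit 54) (nat_lit 28))))))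
def T61_1 : T := T.n (T.n (T.n (T.n (T.l (nat_lit 16) (nat_lit 28)) (T.l (nat_lit 17) (nat_lit 29))) (T.n (T.l (nat_lit 19) (nat_lit 31)) (T.l (nat_lit 22) (nat_lit 34)))) (T.n (T.n (T.l (nat_lit 28) (nat_lit 16)) (T.l (nat_lit 29) (nat_lit 17))) (T.n (T.l (nat_lit 31) (nat_lit 19)) (T.l (nat_lit 34) (nat_lit 22))))) (T.n (T.n (T.n (T.l (nat_lit 36) (nat_lit 51)) (T.l (nat_lit 37) (nat_lit 54))) (T.n (T.l (nat_lit 39) (nat_lit 48)) (T.l (nat_lit 42) (nat_lit 49)))) (T.n (T.n (T.l (nat_lit 48) (nat_lit 39)) (T.l (nat_lit 49) (nat_lit 42))) (T.n (T.l (nat_lit 51) (nat_lit 36)) (T.l (nat_lit 54) (nat_lit 37)))))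
def T62_1 : T := T.n (T.n (T.n (T.n (T.n (T.n (T.l (nat_lit 13) (nat_lit 17)) (T.n (T.l (nat_lit 13) (nat_lit 21)) (T.l (nat_lit 13) (nat_lit 25)))) (T.n (T.l (nat_lit 13) (nat_lit 36)) (T.n (T.l (nat_lit 14) (nat_lit 16)) (T.l (nat_lit 14) (nat_lit 18))))) (T.n (T.n (T.l (nat_lit 14) (nat_lit 26)) (T.n (T.l (nat_lit 14) (nat_lit 48)) (T.l (nat_lit 16) (nat_lit 14)))) (T.n (T.l (nat_lit 16) (nat_lit 59)) (T.n (T.l (nat_lit 17) (nat_lit 13)) (T.l (nat_lit 17) (nat_lit 47)))))) (T.n (T.n (T.n (T.l (nat_lit 18) (nat_lit 14)) (T.n (T.l (nat_lit 18) (nat_lit 22)) (T.l (nat_lit 18) (nat_lit 30)))) (T.n (T.l (nat_lit 18) (nat_lit 39)) (T.n (T.l (nat_lit 19) (nat_lit 21)) (T.l (nat_lit 19) (nat_lit 56))))) (T.n (T.n (T.l (nat_lit 21) (nat_lit 13)) (T.n (T.l (nat_lit 21) (nat_lit 19)) (T.l (nat_lit 21) (nat_lit 33)))) (T.n (T.l (nat_lit 21) (nat_lit 51)) (T.n (T.l (nat_lit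 22) (nat_lit 18)) (T.l (nat_lit 22) (nat_lit 44))))))) (T.n (T.n (T.n (T.n (T.l (nat_lit 25) (nat_lit 13)) (T.n (T.l (nat_lit 25) (nat_lit 29)) (T.l (nat_lit 25) (nat_lit 33)))) (T.n (T.l (nat_lit 25) (nat_lit 37)) (T.n (T.l (nat_lit 26) (nat_lit 14)) (T.l (nat_lit 26) (nat_lit 28))))) (T.n (T.n (T.l (nat_lit 26) (nat_lit 30)) (T.n (T.l (nat_lit 26) (nat_lit 49)) (T.l (nat_lit 28) (nat_lit 26)))) (T.n (T.l (nat_lit 28) (nat_lit 58)) (T.n (T.l (nat_lit 29) (nat_lit 25)) (T.l (nat_lit 29) (nat_lit 46)))))) (T.n (T.n (T.n (T.l (nat_lit 30) (nat_lit 18)) (T.n (T.l (nat_lit 30) (nat_lit 26)) (T.l (nat_lit 30) (nat_lit 34)))) (T.n (T.l (nat_lit 30) (nat_lit 42)) (T.n (T.l (nat_lit 31) (nat_lit 33)) (T.l (nat_lit 31) (nat_lit 53))))) (T.n (T.n (T.l (nat_lit 33) (nat_lit 21)) (T.n (T.l (nat_lit 33) (nat_lit 25)) (T.l (nat_lit 33) (nat_lit 31)))) (T.n (T.l (nat_lit 33) (nat_lit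 54)) (T.n (T.l (nat_lit 34) (nat_lit 30)) (T.l (nat_lit 34) (nat_lit 41)))))))) (T.n (T.n (T.n (T.n (T.n (T.l (nat_lit 36) (nat_lit 13)) (T.n (T.l (nat_lit 36) (nat_lit 47)) (T.l (nat_lit 37) (nat_lit 25)))) (T.n (T.l (nat_lit 37) (nat_lit 46)) (T.n (T.l (nat_lit 39) (nat_lit 18)) (T.l (nat_lit 39) (nat_lit 44))))) (T.n (T.n (T.l (nat_lit 41) (nat_lit 34)) (T.n (T.l (nat_lit 41) (nat_lit 42)) (T.l (nat_lit 41) (nat_lit 44)))) (T.n (T.l (nat_lit 41) (nat_lit 58)) (T.n (T.l (nat_lit 42) (nat_lit 30)) (T.l (nat_lit 42) (nat_lit 41)))))) (T.n (T.n (T.n (T.l (nat_lit 44) (nat_lit 22)) (T.n (T.l (nat_lit 44) (nat_lit 39)) (T.l (nat_lit 44) (nat_lit 41)))) (T.n (T.l (nat_lit 44) (nat_lit 59)) (T.n (T.l (nat_lit 46) (nat_lit 29)) (T.l (nat_lit 46) (nat_lit 37))))) (T.n (T.n (T.l (nat_lit 46) (nat_lit 47)) (T.n (T.l (nat_lit 46) (nat_lit 53)) (T.l (nat_lit 47) (nat_lit 17))))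 (T.n (T.l (nat_lit 47) (nat_lit 36)) (T.n (T.l (nat_lit 47) (nat_lit 46)) (T.l (nat_lit 47) (nat_lit 56))))))) (T.n (T.n (T.n (T.n (T.l (nat_lit 48) (nat_lit 14)) (T.n (T.l (nat_lit 48) (nat_lit 59)) (T.l (nat_lit 49) (nat_lit 26)))) (T.n (T.l (nat_lit 49) (nat_lit 58)) (T.n (T.l (nat_lit 51) (nat_lit 21)) (T.l (nat_lit 51) (nat_lit 56))))) (T.n (T.n (T.l (nat_lit 53) (nat_lit 31)) (T.n (T.l (nat_lit 53) (nat_lit 46)) (T.l (nat_lit 53) (nat_lit 54)))) (T.n (T.l (nat_lit 53) (nat_lit 56)) (T.n (T.l (nat_lit 54) (nat_lit 33)) (T.l (nat_lit 54) (nat_lit 53)))))) (T.n (T.n (T.n (T.l (nat_lit 56) (nat_lit 19)) (T.n (T.l (nat_lit 56) (nat_lit 47)) (T.l (nat_lit 56) (nat_lit 51)))) (T.n (T.l (nat_lit 56) (nat_lit 53)) (T.n (T.l (nat_lit 58) (nat_lit 28)) (T.l (nat_lit 58) (nat_lit 41))))) (T.n (T.n (T.l (nat_lit 58) (nat_lit 49)) (T.n (T.l (nat_lit 58) (nat_lit 59)) (T.l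 (nat_lit 59) (nat_lit 16)))) (T.n (T.l (nat_lit 59) (nat_lit 44)) (T.n (T.l (nat_lit 59) (nat_lit 48)) (T.l (nat_lit 59) (nat_lit 58))))))))
def T63_1 : T := T.n (T.n (T.n (T.n (T.n (T.l (nat_lit 8) (nat_lit 16)) (T.n (T.l (nat_lit 8) (nat_lit 20)) (T.l (nat_lit 8) (nat_lit 22)))) (T.n (T.l (nat_lit 8) (nat_lit 28)) (T.n (T.l (nat_lit 8) (nat_lit 32)) (T.l (nat_lit 8) (nat_lit 34))))) (T.n (T.n (T.l (nat_lit 8) (nat_lit 39)) (T.n (T.l (nat_lit 8) (nat_lit 42)) (T.l (nat_lit 8) (nat_lit 45)))) (T.n (T.l (nat_lit 8) (nat_lit 48)) (T.n (T.l (nat_lit 8) (nat_lit 49)) (T.l (nat_lit 8) (nat_lit 50)))))) (T.n (T.n (T.n (T.l (nat_lit 11) (nat_lit 17)) (T.n (T.l (nat_lit 11) (nat_lit 19)) (T.l (nat_lit 11) (nat_lit 23)))) (T.n (T.l (nat_lit 11) (nat_lit 29)) (T.n (T.l (nat_lit 11) (nat_lit 31)) (T.l (nat_lit 11) (nat_lit 35))))) (T.n (T.n (T.l (nat_lit 11) (nat_lit 36)) (T.n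 (T.l (nat_lit 11) (nat_lit 37)) (T.l (nat_lit 11) (nat_lit 38)))) (T.n (T.l (nat_lit 11) (nat_lit 51)) (T.n (T.l (nat_lit 11) (nat_lit 54)) (T.l (nat_lit 11) (nat_lit 57))))))) (T.n (T.n (T.n (T.n (T.l (nat_lit 16) (nat_lit 8)) (T.n (T.l (nat_lit 17) (nat_lit 11)) (T.l (nat_lit 19) (nat_lit 11)))) (T.n (T.l (nat_lit 20) (nat_lit 8)) (T.n (T.l (nat_lit 22) (nat_lit 8)) (T.l (nat_lit 23) (nat_lit 11))))) (T.n (T.n (T.l (nat_lit 28) (nat_lit 8)) (T.n (T.l (nat_lit 29) (nat_lit 11)) (T.l (nat_lit 31) (nat_lit 11)))) (T.n (T.l (nat_lit 32) (nat_lit 8)) (T.n (T.l (nat_lit 34) (nat_lit 8)) (T.l (nat_lit 35) (nat_lit 11)))))) (T.n (T.n (T.n (T.l (nat_lit 36) (nat_lit 11)) (T.n (T.l (nat_lit 37) (nat_lit 11)) (T.l (nat_lit 38) (nat_lit 11)))) (T.n (T.l (nat_lit 39) (nat_lit 8)) (T.n (T.l (nat_lit 42) (nat_lit 8)) (T.l (nat_lit 45) (nat_lit 8))))) (T.n (T.n (T.l (nat_lit 48)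 (nat_lit 8)) (T.n (T.l (nat_lit 49) (nat_lit 8)) (T.l (nat_lit 50) (nat_lit 8)))) (T.n (T.l (nat_lit 51) (nat_lit 11)) (T.n (T.l (nat_lit 54) (nat_lit 11)) (T.l (nat_lit 57) (nat_lit 11)))))))
def T64_1 : T := T.n (T.n (T.n (T.n (T.n (T.l (nat_lit 16) (nat_lit 50)) (T.l (nat_lit 17) (nat_lit 38))) (T.n (T.l (nat_lit 19) (nat_lit 57)) (T.l (nat_lit 20) (nat_lit 39)))) (T.n (T.n (T.l (nat_lit 20) (nat_lit 48)) (T.l (nat_lit 22) (nat_lit 45))) (T.n (T.l (nat_lit 23) (nat_lit 36)) (T.l (nat_lit 23) (nat_lit 51))))) (T.n (T.n (T.n (T.l (nat_lit 28) (nat_lit 50)) (T.l (nat_lit 29) (nat_lit 38))) (T.n (T.l (nat_lit 31) (nat_lit 57)) (T.l (nat_lit 32) (nat_lit 42)))) (T.n (T.n (T.l (nat_lit 32) (nat_lit 49)) (T.l (nat_lit 34) (nat_lit 45))) (T.n (T.l (nat_lit 35) (nat_lit 37)) (T.l (nat_lit 35) (nat_lit 54)))))) (T.n (T.n (T.n (T.n (T.l (nat_lit 36) (nat_lit 23)) (T.l (nat_lit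 37) (nat_lit 35))) (T.n (T.l (nat_lit 38) (nat_lit 17)) (T.l (nat_lit 38) (nat_lit 29)))) (T.n (T.n (T.l (nat_lit 39) (nat_lit 20)) (T.l (nat_lit 42) (nat_lit 32))) (T.n (T.l (nat_lit 45) (nat_lit 22)) (T.l (nat_lit 45) (nat_lit 34))))) (T.n (T.n (T.n (T.l (nat_lit 48) (nat_lit 20)) (T.l (nat_lit 49) (nat_lit 32))) (T.n (T.l (nat_lit 50) (nat_lit 16)) (T.l (nat_lit 50) (nat_lit 28)))) (T.n (T.n (T.l (nat_lit 51) (nat_lit 23)) (T.l (nat_lit 54) (nat_lit 35))) (T.n (T.l (nat_lit 57) (nat_lit 19)) (T.l (nat_lit 57) (nat_lit 31))))))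
def T65_1 : T := T.n (T.n (T.n (T.l (nat_lit 20) (nat_lit 32)) (T.l (nat_lit 23) (nat_lit 35))) (T.n (T.l (nat_lit 32) (nat_lit 20)) (T.l (nat_lit 35) (nat_lit 23)))) (T.n (T.n (T.l (nat_lit 38) (nat_lit 57)) (T.l (nat_lit 45) (nat_lit 50))) (T.n (T.l (nat_lit 50) (nat_lit 45)) (T.l (nat_lit 57) (nat_lit 38))))
def T67_1 : T := T.n (T.l (nat_lit 8) (nat_lit 11)) (T.l (nat_lit 11) (nat_lit 8))
def T68_1 : T := T.n (T.n (T.n (T.n (T.n (T.n (T.l (nat_lit 8) (nat_lit 13)) (T.l (nat_lit 8) (nat_lit 21))) (T.n (T.l (nat_lit 8) (nat_lit 23)) (T.l (nat_lit 8) (nat_lit 25)))) (T.n (T.n (T.l (nat_lit 8) (nat_lit 33)) (T.l (nat_lit 8) (nat_lit 35))) (T.n (T.l (nat_lit 8) (nat_lit 38)) (T.l (nat_lit 8) (nat_lit 46))))) (T.n (T.n (T.n (T.l (nat_lit 8) (nat_lit 47)) (T.l (nat_lit 8) (nat_lit 53))) (T.n (T.l (nat_lit 8) (nat_lit 56)) (T.l (nat_lit 8) (nat_lit 57)))) (T.n (T.n (T.l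 (nat_lit 11) (nat_lit 14)) (T.l (nat_lit 11) (nat_lit 18))) (T.n (T.l (nat_lit 11) (nat_lit 20)) (T.l (nat_lit 11) (nat_lit 26)))))) (T.n (T.n (T.n (T.n (T.l (nat_lit 11) (nat_lit 30)) (T.l (nat_lit 11) (nat_lit 32))) (T.n (T.l (nat_lit 11) (nat_lit 41)) (T.l (nat_lit 11) (nat_lit 44)))) (T.n (T.n (T.l (nat_lit 11) (nat_lit 45)) (T.l (nat_lit 11) (nat_lit 50))) (T.n (T.l (nat_lit 11) (nat_lit 58)) (T.l (nat_lit 11) (nat_lit 59))))) (T.n (T.n (T.n (T.l (nat_lit 13) (nat_lit 8)) (T.l (nat_lit 13) (nat_lit 30))) (T.n (T.l (nat_lit 14) (nat_lit 11)) (T.l (nat_lit 14) (nat_lit 33)))) (T.n (T.n (T.l (nat_lit 18) (nat_lit 11)) (T.l (nat_lit 18) (nat_lit 25))) (T.n (T.l (nat_lit 20) (nat_lit 11)) (T.l (nat_lit 21) (nat_lit 8))))))) (T.n (T.n (T.n (T.n (T.n (T.l (nat_lit 21) (nat_lit 26)) (T.l (nat_lit 23) (nat_lit 8))) (T.n (T.l (nat_lit 25) (nat_lit 8)) (T.l (nat_lit 25)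 (nat_lit 18)))) (T.n (T.n (T.l (nat_lit 26) (nat_lit 11)) (T.l (nat_lit 26) (nat_lit 21))) (T.n (T.l (nat_lit 30) (nat_lit 11)) (T.l (nat_lit 30) (nat_lit 13))))) (T.n (T.n (T.n (T.l (nat_lit 32) (nat_lit 11)) (T.l (nat_lit 33) (nat_lit 8))) (T.n (T.l (nat_lit 33) (nat_lit 14)) (T.l (nat_lit 35) (nat_lit 8)))) (T.n (T.n (T.l (nat_lit 38) (nat_lit 8)) (T.l (nat_lit 41) (nat_lit 11))) (T.n (T.l (nat_lit 41) (nat_lit 53)) (T.l (nat_lit 44) (nat_lit 11)))))) (T.n (T.n (T.n (T.n (T.l (nat_lit 44) (nat_lit 56)) (T.l (nat_lit 45) (nat_lit 11))) (T.n (T.l (nat_lit 46) (nat_lit 8)) (T.l (nat_lit 46) (nat_lit 58)))) (T.n (T.n (T.l (nat_lit 47) (nat_lit 8)) (T.l (nat_lit 47) (nat_lit 59))) (T.n (T.l (nat_lit 50) (nat_lit 11)) (T.l (nat_lit 53) (nat_lit 8))))) (T.n (T.n (T.n (T.l (nat_lit 53) (nat_lit 41)) (T.l (nat_lit 56) (nat_lit 8))) (T.n (T.l (nat_lit 56) (nat_lit 44)) (T.l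 (nat_lit 57) (nat_lit 8)))) (T.n (T.n (T.l (nat_lit 58) (nat_lit 11)) (T.l (nat_lit 58) (nat_lit 46))) (T.n (T.l (nat_lit 59) (nat_lit 11)) (T.l (nat_lit 59) (nat_lit 47)))))))
def T69_1 : T := T.n (T.n (T.n (T.n (T.n (T.l (nat_lit 13) (nat_lit 18)) (T.l (nat_lit 13) (nat_lit 26))) (T.n (T.l (nat_lit 14) (nat_lit 21)) (T.l (nat_lit 14) (nat_lit 25)))) (T.n (T.n (T.l (nat_lit 18) (nat_lit 13)) (T.l (nat_lit 18) (nat_lit 33))) (T.n (T.l (nat_lit 21) (nat_lit 14)) (T.l (nat_lit 21) (nat_lit 30))))) (T.n (T.n (T.n (T.l (nat_lit 25) (nat_lit 14)) (T.l (nat_lit 25) (nat_lit 30))) (T.n (T.l (nat_lit 26) (nat_lit 13)) (T.l (nat_lit 26) (nat_lit 33)))) (T.n (T.n (T.l (nat_lit 30) (nat_lit 21)) (T.l (nat_lit 30) (nat_lit 25))) (T.n (T.l (nat_lit 33) (nat_lit 18)) (T.l (nat_lit 33) (nat_lit 26)))))) (T.n (T.n (T.n (T.n (T.l (nat_lit 41) (nat_lit 46)) (T.l (nat_lit 41) (nat_lit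 56))) (T.n (T.l (nat_lit 44) (nat_lit 47)) (T.l (nat_lit 44) (nat_lit 53)))) (T.n (T.n (T.l (nat_lit 46) (nat_lit 41)) (T.l (nat_lit 46) (nat_lit 59))) (T.n (T.l (nat_lit 47) (nat_lit 44)) (T.l (nat_lit 47) (nat_lit 58))))) (T.n (T.n (T.n (T.l (nat_lit 53) (nat_lit 44)) (T.l (nat_lit 53) (nat_lit 58))) (T.n (T.l (nat_lit 56) (nat_lit 41)) (T.l (nat_lit 56) (nat_lit 59)))) (T.n (T.n (T.l (nat_lit 58) (nat_lit 47)) (T.l (nat_lit 58) (nat_lit 53))) (T.n (T.l (nat_lit 59) (nat_lit 46)) (T.l (nat_lit 59) (nat_lit 56))))))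
def T70_1 : T := T.n (T.n (T.n (T.n (T.n (T.l (nat_lit 13) (nat_lit 33)) (T.n (T.l (nat_lit 13) (nat_lit 41)) (T.l (nat_lit 13) (nat_lit 59)))) (T.n (T.l (nat_lit 14) (nat_lit 30)) (T.n (T.l (nat_lit 14) (nat_lit 47)) (T.l (nat_lit 14) (nat_lit 53))))) (T.n (T.n (T.l (nat_lit 18) (nat_lit 26)) (T.n (T.l (nat_lit 18) (nat_lit 46)) (T.l (nat_lit 18) (nat_lit 56)))) (T.n (T.l (nat_lit 21) (nat_lit 25)) (T.n (T.l (nat_lit 21) (nat_lit 44)) (T.l (nat_lit 21) (nat_lit 58)))))) (T.n (T.n (T.n (T.l (nat_lit 25) (nat_lit 21)) (T.n (T.l (nat_lit 25) (nat_lit 44)) (T.l (nat_lit 25) (nat_lit 58)))) (T.n (T.l (nat_lit 26) (nat_lit 18)) (T.n (T.l (nat_lit 26) (nat_lit 46)) (T.l (nat_lit 26) (nat_lit 56))))) (T.n (T.n (T.l (nat_lit 30) (nat_lit 14)) (T.n (T.l (nat_lit 30) (nat_lit 47)) (T.l (nat_lit 30) (nat_lit 53)))) (T.n (T.l (nat_lit 33) (nat_lit 13)) (T.n (T.l (nat_lit 33)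 (nat_lit 41)) (T.l (nat_lit 33) (nat_lit 59))))))) (T.n (T.n (T.n (T.n (T.l (nat_lit 41) (nat_lit 13)) (T.n (T.l (nat_lit 41) (nat_lit 33)) (T.l (nat_lit 41) (nat_lit 59)))) (T.n (T.l (nat_lit 44) (nat_lit 21)) (T.n (T.l (nat_lit 44) (nat_lit 25)) (T.l (nat_lit 44) (nat_lit 58))))) (T.n (T.n (T.l (nat_lit 46) (nat_lit 18)) (T.n (T.l (nat_lit 46) (nat_lit 26)) (T.l (nat_lit 46) (nat_lit 56)))) (T.n (T.l (nat_lit 47) (nat_lit 14)) (T.n (T.l (nat_lit 47) (nat_lit 30)) (T.l (nat_lit 47) (nat_lit 53)))))) (T.n (T.n (T.n (T.l (nat_lit 53) (nat_lit 14)) (T.n (T.l (nat_lit 53) (nat_lit 30)) (T.l (nat_lit 53) (nat_lit 47)))) (T.n (T.l (nat_lit 56) (nat_lit 18)) (T.n (T.l (nat_lit 56) (nat_lit 26)) (T.l (nat_lit 56) (nat_lit 46))))) (T.n (T.n (T.l (nat_lit 58) (nat_lit 21)) (T.n (T.l (nat_lit 58) (nat_lit 25)) (T.l (nat_lit 58) (nat_lit 44)))) (T.n (T.l (nat_lit 59) (nat_lit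 13)) (T.n (T.l (nat_lit 59) (nat_lit 33)) (T.l (nat_lit 59) (nat_lit 41)))))))
def T71_1 : T := T.n (T.n (T.n (T.n (T.n (T.n (T.l (nat_lit 13) (nat_lit 35)) (T.n (T.l (nat_lit 13) (nat_lit 44)) (T.l (nat_lit 13) (nat_lit 57)))) (T.n (T.l (nat_lit 13) (nat_lit 58)) (T.n (T.l (nat_lit 14) (nat_lit 32)) (T.l (nat_lit 14) (nat_lit 45))))) (T.n (T.n (T.l (nat_lit 14) (nat_lit 46)) (T.n (T.l (nat_lit 14) (nat_lit 56)) (T.l (nat_lit 18) (nat_lit 32)))) (T.n (T.l (nat_lit 18) (nat_lit 47)) (T.n (T.l (nat_lit 18) (nat_lit 50)) (T.l (nat_lit 18) (nat_lit 53)))))) (T.n (T.n (T.n (T.l (nat_lit 20) (nat_lit 26)) (T.n (T.l (nat_lit 20) (nat_lit 30)) (T.l (nat_lit 20) (nat_lit 41)))) (T.n (T.l (nat_lit 20) (nat_lit 58)) (T.n (T.l (nat_lit 21) (nat_lit 35)) (T.l (nat_lit 21) (nat_lit 38))))) (T.n (T.n (T.l (nat_lit 21) (nat_lit 41)) (T.n (T.l (nat_lit 21) (nat_lit 59)) (T.l (nat_lit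 23) (nat_lit 25)))) (T.n (T.l (nat_lit 23) (nat_lit 33)) (T.n (T.l (nat_lit 23) (nat_lit 46)) (T.l (nat_lit 23) (nat_lit 53))))))) (T.n (T.n (T.n (T.n (T.l (nat_lit 25) (nat_lit 23)) (T.n (T.l (nat_lit 25) (nat_lit 41)) (T.l (nat_lit 25) (nat_lit 57)))) (T.n (T.l (nat_lit 25) (nat_lit 59)) (T.n (T.l (nat_lit 26) (nat_lit 20)) (T.l (nat_lit 26) (nat_lit 45))))) (T.n (T.n (T.l (nat_lit 26) (nat_lit 47)) (T.n (T.l (nat_lit 26) (nat_lit 53)) (T.l (nat_lit 30) (nat_lit 20)))) (T.n (T.l (nat_lit 30) (nat_lit 46)) (T.n (T.l (nat_lit 30) (nat_lit 50)) (T.l (nat_lit 30) (nat_lit 56)))))) (T.n (T.n (T.n (T.l (nat_lit 32) (nat_lit 14)) (T.n (T.l (nat_lit 32) (nat_lit 18)) (T.l (nat_lit 32) (nat_lit 44)))) (T.n (T.l (nat_lit 32) (nat_lit 59)) (T.n (T.l (nat_lit 33) (nat_lit 23)) (T.l (nat_lit 33) (nat_lit 38))))) (T.n (T.n (T.l (nat_lit 33) (nat_lit 44)) (T.n (T.l (nat_lit 33)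 (nat_lit 58)) (T.l (nat_lit 35) (nat_lit 13)))) (T.n (T.l (nat_lit 35) (nat_lit 21)) (T.n (T.l (nat_lit 35) (nat_lit 47)) (T.l (nat_lit 35) (nat_lit 56)))))))) (T.n (T.n (T.n (T.n (T.n (T.l (nat_lit 38) (nat_lit 21)) (T.n (T.l (nat_lit 38) (nat_lit 33)) (T.l (nat_lit 38) (nat_lit 53)))) (T.n (T.l (nat_lit 38) (nat_lit 56)) (T.n (T.l (nat_lit 41) (nat_lit 20)) (T.l (nat_lit 41) (nat_lit 21))))) (T.n (T.n (T.l (nat_lit 41) (nat_lit 25)) (T.n (T.l (nat_lit 41) (nat_lit 50)) (T.l (nat_lit 44) (nat_lit 13)))) (T.n (T.l (nat_lit 44) (nat_lit 32)) (T.n (T.l (nat_lit 44) (nat_lit 33)) (T.l (nat_lit 44) (nat_lit 50)))))) (T.n (T.n (T.n (T.l (nat_lit 45) (nat_lit 14)) (T.n (T.l (nat_lit 45) (nat_lit 26)) (T.l (nat_lit 45) (nat_lit 58)))) (T.n (T.l (nat_lit 45) (nat_lit 59)) (T.n (T.l (nat_lit 46) (nat_lit 14)) (T.l (nat_lit 46) (nat_lit 23))))) (T.n (T.n (T.l (nat_lit 46) (nat_lit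 30)) (T.n (T.l (nat_lit 46) (nat_lit 57)) (T.l (nat_lit 47) (nat_lit 18)))) (T.n (T.l (nat_lit 47) (nat_lit 26)) (T.n (T.l (nat_lit 47) (nat_lit 35)) (T.l (nat_lit 47) (nat_lit 57))))))) (T.n (T.n (T.n (T.n (T.l (nat_lit 50) (nat_lit 18)) (T.n (T.l (nat_lit 50) (nat_lit 30)) (T.l (nat_lit 50) (nat_lit 41)))) (T.n (T.l (nat_lit 50) (nat_lit 44)) (T.n (T.l (nat_lit 53) (nat_lit 18)) (T.l (nat_lit 53) (nat_lit 23))))) (T.n (T.n (T.l (nat_lit 53) (nat_lit 26)) (T.n (T.l (nat_lit 53) (nat_lit 38)) (T.l (nat_lit 56) (nat_lit 14)))) (T.n (T.l (nat_lit 56) (nat_lit 30)) (T.n (T.l (nat_lit 56) (nat_lit 35)) (T.l (nat_lit 56) (nat_lit 38)))))) (T.n (T.n (T.n (T.l (nat_lit 57) (nat_lit 13)) (T.n (T.l (nat_lit 57) (nat_lit 25)) (T.l (nat_lit 57) (nat_lit 46)))) (T.n (T.l (nat_lit 57) (nat_lit 47)) (T.n (T.l (nat_lit 58) (nat_lit 13)) (T.l (nat_lit 58) (nat_lit 20))))) (T.n (T.n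 (T.l (nat_lit 58) (nat_lit 33)) (T.n (T.l (nat_lit 58) (nat_lit 45)) (T.l (nat_lit 59) (nat_lit 21)))) (T.n (T.l (nat_lit 59) (nat_lit 25)) (T.n (T.l (nat_lit 59) (nat_lit 32)) (T.l (nat_lit 59) (nat_lit 45))))))))
def T72_1 : T := T.n (T.n (T.n (T.n (T.n (T.l (nat_lit 13) (nat_lit 46)) (T.l (nat_lit 13) (nat_lit 56))) (T.n (T.l (nat_lit 14) (nat_lit 44)) (T.l (nat_lit 14) (nat_lit 58)))) (T.n (T.n (T.l (nat_lit 18) (nat_lit 41)) (T.l (nat_lit 18) (nat_lit 59))) (T.n (T.l (nat_lit 21) (nat_lit 47)) (T.l (nat_lit 21) (nat_lit 53))))) (T.n (T.n (T.n (T.l (nat_lit 25) (nat_lit 47)) (T.l (nat_lit 25) (nat_lit 53))) (T.n (T.l (nat_lit 26) (nat_lit 41)) (T.l (nat_lit 26) (nat_lit 59)))) (T.n (T.n (T.l (nat_lit 30) (nat_lit 44)) (T.l (nat_lit 30) (nat_lit 58))) (T.n (T.l (nat_lit 33) (nat_lit 46)) (T.l (nat_lit 33) (nat_lit 56)))))) (T.n (T.n (T.n (T.n (T.l (nat_lit 41)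 (nat_lit 18)) (T.l (nat_lit 41) (nat_lit 26))) (T.n (T.l (nat_lit 44) (nat_lit 14)) (T.l (nat_lit 44) (nat_lit 30)))) (T.n (T.n (T.l (nat_lit 46) (nat_lit 13)) (T.l (nat_lit 46) (nat_lit 33))) (T.n (T.l (nat_lit 47) (nat_lit 21)) (T.l (nat_lit 47) (nat_lit 25))))) (T.n (T.n (T.n (T.l (nat_lit 53) (nat_lit 21)) (T.l (nat_lit 53) (nat_lit 25))) (T.n (T.l (nat_lit 56) (nat_lit 13)) (T.l (nat_lit 56) (nat_lit 33)))) (T.n (T.n (T.l (nat_lit 58) (nat_lit 14)) (T.l (nat_lit 58) (nat_lit 30))) (T.n (T.l (nat_lit 59) (nat_lit 18)) (T.l (nat_lit 59) (nat_lit 26))))))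
def T73_1 : T := T.n (T.n (T.n (T.n (T.l (nat_lit 13) (nat_lit 47)) (T.l (nat_lit 14) (nat_lit 59))) (T.n (T.l (nat_lit 18) (nat_lit 44)) (T.l (nat_lit 21) (nat_lit 56)))) (T.n (T.n (T.l (nat_lit 25) (nat_lit 46)) (T.l (nat_lit 26) (nat_lit 58))) (T.n (T.l (nat_lit 30) (nat_lit 41)) (T.l (nat_lit 33) (nat_lit 53))))) (T.n (T.n (T.n (T.l (nat_lit 41) (nat_lit 30)) (T.l (nat_lit 44) (nat_lit 18))) (T.n (T.l (nat_lit 46) (nat_lit 25)) (T.l (nat_lit 47) (nat_lit 13)))) (T.n (T.n (T.l (nat_lit 53) (nat_lit 33)) (T.l (nat_lit 56) (nat_lit 21))) (T.n (T.l (nat_lit 58) (nat_lit 26)) (T.l (nat_lit 59) (nat_lit 14)))))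
def T74_1 : T := T.n (T.n (T.n (T.n (T.l (nat_lit 20) (nat_lit 23)) (T.l (nat_lit 20) (nat_lit 35))) (T.n (T.l (nat_lit 23) (nat_lit 20)) (T.l (nat_lit 23) (nat_lit 32)))) (T.n (T.n (T.l (nat_lit 32) (nat_lit 23)) (T.l (nat_lit 32) (nat_lit 35))) (T.n (T.l (nat_lit 35) (nat_lit 20)) (T.l (nat_lit 35) (nat_lit 32))))) (T.n (T.n (T.n (T.l (nat_lit 38) (nat_lit 45)) (T.l (nat_lit 38) (nat_lit 50))) (T.n (T.l (nat_lit 45) (nat_lit 38)) (T.l (nat_lit 45) (nat_lit 57)))) (T.n (T.n (T.l (nat_lit 50) (nat_lit 38)) (T.l (nat_lit 50) (nat_lit 57))) (T.n (T.l (nat_lit 57) (nat_lit 45)) (T.l (nat_lit 57) (nat_lit 50)))))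
def T75_1 : T := T.n (T.n (T.n (T.n (T.l (nat_lit 20) (nat_lit 45)) (T.l (nat_lit 20) (nat_lit 50))) (T.n (T.l (nat_lit 23) (nat_lit 38)) (T.l (nat_lit 23) (nat_lit 57)))) (T.n (T.n (T.l (nat_lit 32) (nat_lit 45)) (T.l (nat_lit 32) (nat_lit 50))) (T.n (T.l (nat_lit 35) (nat_lit 38)) (T.l (nat_lit 35) (nat_lit 57))))) (T.n (T.n (T.n (T.l (nat_lit 38) (nat_lit 23)) (T.l (nat_lit 38) (nat_lit 35))) (T.n (T.l (nat_lit 45) (nat_lit 20)) (T.l (nat_lit 45) (nat_lit 32)))) (T.n (T.n (T.l (nat_lit 50) (nat_lit 20)) (T.l (nat_lit 50) (nat_lit 32))) (T.n (T.l (nat_lit 57) (nat_lit 23)) (T.l (nat_lit 57) (nat_lit 35)))))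
def T78_1 : T := T.n (T.n (T.n (T.n (T.n (T.n (T.n (T.l (nat_lit 1) (nat_lit 13)) (T.n (T.l (nat_lit 1) (nat_lit 14)) (T.l (nat_lit 1) (nat_lit 56)))) (T.n (T.l (nat_lit 1) (nat_lit 58)) (T.n (T.l (nat_lit 2) (nat_lit 13)) (T.l (nat_lit 2) (nat_lit 14))))) (T.n (T.n (T.l (nat_lit 2) (nat_lit 44)) (T.n (T.l (nat_lit 2) (nat_lit 46)) (T.l (nat_lit 4) (nat_lit 25)))) (T.n (T.l (nat_lit 4) (nat_lit 26)) (T.n (T.l (nat_lit 4) (nat_lit 53)) (T.l (nat_lit 4) (nat_lit 59)))))) (T.n (T.n (T.n (T.l (nat_lit 5) (nat_lit 25)) (T.n (T.l (nat_lit 5) (nat_lit 26)) (T.l (nat_lit 5) (nat_lit 41)))) (T.n (T.l (nat_lit 5) (nat_lit 47)) (T.n (T.l (nat_lit 6) (nat_lit 18)) (T.l (nat_lit 6) (nat_lit 21))))) (T.n (T.n (T.l (nat_lit 6) (nat_lit 53)) (T.n (T.l (nat_lit 6) (nat_lit 59)) (T.l (nat_lit 7) (nat_lit 30)))) (T.n (T.l (nat_lit 7) (nat_lit 33)) (T.n (T.l (nat_lit 7) (nat_lit 56))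 (T.l (nat_lit 7) (nat_lit 58))))))) (T.n (T.n (T.n (T.n (T.l (nat_lit 9) (nat_lit 18)) (T.n (T.l (nat_lit 9) (nat_lit 21)) (T.l (nat_lit 9) (nat_lit 41)))) (T.n (T.l (nat_lit 9) (nat_lit 47)) (T.n (T.l (nat_lit 10) (nat_lit 30)) (T.l (nat_lit 10) (nat_lit 33))))) (T.n (T.n (T.l (nat_lit 10) (nat_lit 44)) (T.n (T.l (nat_lit 10) (nat_lit 46)) (T.l (nat_lit 12) (nat_lit 18)))) (T.n (T.l (nat_lit 12) (nat_lit 21)) (T.n (T.l (nat_lit 12) (nat_lit 25)) (T.l (nat_lit 12) (nat_lit 26)))))) (T.n (T.n (T.n (T.l (nat_lit 12) (nat_lit 31)) (T.n (T.l (nat_lit 12) (nat_lit 34)) (T.l (nat_lit 12) (nat_lit 42)))) (T.n (T.l (nat_lit 12) (nat_lit 54)) (T.n (T.l (nat_lit 13) (nat_lit 1)) (T.l (nat_lit 13) (nat_lit 2))))) (T.n (T.n (T.l (nat_lit 13) (nat_lit 15)) (T.n (T.l (nat_lit 13) (nat_lit 24)) (T.l (nat_lit 14) (nat_lit 1)))) (T.n (T.l (nat_lit 14) (nat_lit 2)) (T.n (T.l (nat_lit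 14) (nat_lit 15)) (T.l (nat_lit 14) (nat_lit 24)))))))) (T.n (T.n (T.n (T.n (T.n (T.l (nat_lit 15) (nat_lit 13)) (T.n (T.l (nat_lit 15) (nat_lit 14)) (T.l (nat_lit 15) (nat_lit 28)))) (T.n (T.l (nat_lit 15) (nat_lit 29)) (T.n (T.l (nat_lit 15) (nat_lit 30)) (T.l (nat_lit 15) (nat_lit 33))))) (T.n (T.n (T.l (nat_lit 15) (nat_lit 37)) (T.n (T.l (nat_lit 15) (nat_lit 49)) (T.l (nat_lit 16) (nat_lit 27)))) (T.n (T.l (nat_lit 16) (nat_lit 43)) (T.n (T.l (nat_lit 17) (nat_lit 27)) (T.l (nat_lit 17) (nat_lit 55)))))) (T.n (T.n (T.n (T.l (nat_lit 18) (nat_lit 6)) (T.n (T.l (nat_lit 18) (nat_lit 9)) (T.l (nat_lit 18) (nat_lit 12)))) (T.n (T.l (nat_lit 18) (nat_lit 27)) (T.n (T.l (nat_lit 19) (nat_lit 24)) (T.l (nat_lit 19) (nat_lit 40))))) (T.n (T.n (T.l (nat_lit 21) (nat_lit 6)) (T.n (T.l (nat_lit 21) (nat_lit 9)) (T.l (nat_lit 21) (nat_lit 12)))) (T.n (T.l (nat_lit 21) (nat_lit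 27)) (T.n (T.l (nat_lit 22) (nat_lit 24)) (T.l (nat_lit 22) (nat_lit 52))))))) (T.n (T.n (T.n (T.n (T.l (nat_lit 24) (nat_lit 13)) (T.n (T.l (nat_lit 24) (nat_lit 14)) (T.l (nat_lit 24) (nat_lit 19)))) (T.n (T.l (nat_lit 24) (nat_lit 22)) (T.n (T.l (nat_lit 24) (nat_lit 30)) (T.l (nat_lit 24) (nat_lit 33))))) (T.n (T.n (T.l (nat_lit 24) (nat_lit 39)) (T.n (T.l (nat_lit 24) (nat_lit 51)) (T.l (nat_lit 25) (nat_lit 4)))) (T.n (T.l (nat_lit 25) (nat_lit 5)) (T.n (T.l (nat_lit 25) (nat_lit 12)) (T.l (nat_lit 25) (nat_lit 27)))))) (T.n (T.n (T.n (T.l (nat_lit 26) (nat_lit 4)) (T.n (T.l (nat_lit 26) (nat_lit 5)) (T.l (nat_lit 26) (nat_lit 12)))) (T.n (T.l (nat_lit 26) (nat_lit 27)) (T.n (T.l (nat_lit 27) (nat_lit 16)) (T.l (nat_lit 27) (nat_lit 17))))) (T.n (T.n (T.l (nat_lit 27) (nat_lit 18)) (T.n (T.l (nat_lit 27) (nat_lit 21)) (T.l (nat_lit 27) (nat_lit 25)))) (T.n (T.l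 (nat_lit 27) (nat_lit 26)) (T.n (T.l (nat_lit 27) (nat_lit 36)) (T.l (nat_lit 27) (nat_lit 48))))))))) (T.n (T.n (T.n (T.n (T.n (T.n (T.l (nat_lit 28) (nat_lit 15)) (T.n (T.l (nat_lit 28) (nat_lit 40)) (T.l (nat_lit 29) (nat_lit 15)))) (T.n (T.l (nat_lit 29) (nat_lit 52)) (T.n (T.l (nat_lit 30) (nat_lit 7)) (T.l (nat_lit 30) (nat_lit 10))))) (T.n (T.n (T.l (nat_lit 30) (nat_lit 15)) (T.n (T.l (nat_lit 30) (nat_lit 24)) (T.l (nat_lit 31) (nat_lit 12)))) (T.n (T.l (nat_lit 31) (nat_lit 43)) (T.n (T.l (nat_lit 33) (nat_lit 7)) (T.l (nat_lit 33) (nat_lit 10)))))) (T.n (T.n (T.n (T.l (nat_lit 33) (nat_lit 15)) (T.n (T.l (nat_lit 33) (nat_lit 24)) (T.l (nat_lit 34) (nat_lit 12)))) (T.n (T.l (nat_lit 34) (nat_lit 55)) (T.n (T.l (nat_lit 36) (nat_lit 27)) (T.l (nat_lit 36) (nat_lit 55))))) (T.n (T.n (T.l (nat_lit 37) (nat_lit 15)) (T.n (T.l (nat_lit 37) (nat_lit 52)) (T.l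 (nat_lit 39) (nat_lit 24)))) (T.n (T.l (nat_lit 39) (nat_lit 52)) (T.n (T.l (nat_lit 40) (nat_lit 19)) (T.l (nat_lit 40) (nat_lit 28))))))) (T.n (T.n (T.n (T.n (T.l (nat_lit 40) (nat_lit 41)) (T.n (T.l (nat_lit 40) (nat_lit 47)) (T.l (nat_lit 40) (nat_lit 49)))) (T.n (T.l (nat_lit 40) (nat_lit 51)) (T.n (T.l (nat_lit 40) (nat_lit 53)) (T.l (nat_lit 40) (nat_lit 59))))) (T.n (T.n (T.l (nat_lit 41) (nat_lit 5)) (T.n (T.l (nat_lit 41) (nat_lit 9)) (T.l (nat_lit 41) (nat_lit 40)))) (T.n (T.l (nat_lit 41) (nat_lit 52)) (T.n (T.l (nat_lit 42) (nat_lit 12)) (T.l (nat_lit 42) (nat_lit 55)))))) (T.n (T.n (T.n (T.l (nat_lit 43) (nat_lit 16)) (T.n (T.l (nat_lit 43) (nat_lit 31)) (T.l (nat_lit 43) (nat_lit 44)))) (T.n (T.l (nat_lit 43) (nat_lit 46)) (T.n (T.l (nat_lit 43) (nat_lit 48)) (T.l (nat_lit 43) (nat_lit 54))))) (T.n (T.n (T.l (nat_lit 43) (nat_lit 56)) (T.n (T.l (nat_lit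 43) (nat_lit 58)) (T.l (nat_lit 44) (nat_lit 2)))) (T.n (T.l (nat_lit 44) (nat_lit 10)) (T.n (T.l (nat_lit 44) (nat_lit 43)) (T.l (nat_lit 44) (nat_lit 55)))))))) (T.n (T.n (T.n (T.n (T.n (T.l (nat_lit 46) (nat_lit 2)) (T.n (T.l (nat_lit 46) (nat_lit 10)) (T.l (nat_lit 46) (nat_lit 43)))) (T.n (T.l (nat_lit 46) (nat_lit 55)) (T.n (T.l (nat_lit 47) (nat_lit 5)) (T.l (nat_lit 47) (nat_lit 9))))) (T.n (T.n (T.l (nat_lit 47) (nat_lit 40)) (T.n (T.l (nat_lit 47) (nat_lit 52)) (T.l (nat_lit 48) (nat_lit 27)))) (T.n (T.l (nat_lit 48) (nat_lit 43)) (T.n (T.l (nat_lit 49) (nat_lit 15)) (T.l (nat_lit 49) (nat_lit 40)))))) (T.n (T.n (T.n (T.l (nat_lit 51) (nat_lit 24)) (T.n (T.l (nat_lit 51) (nat_lit 40)) (T.l (nat_lit 52) (nat_lit 22)))) (T.n (T.l (nat_lit 52) (nat_lit 29)) (T.n (T.l (nat_lit 52) (nat_lit 37)) (T.l (nat_lit 52) (nat_lit 39))))) (T.n (T.n (T.l (nat_lit 52) (nat_lit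 41)) (T.n (T.l (nat_lit 52) (nat_lit 47)) (T.l (nat_lit 52) (nat_lit 53)))) (T.n (T.l (nat_lit 52) (nat_lit 59)) (T.n (T.l (nat_lit 53) (nat_lit 4)) (T.l (nat_lit 53) (nat_lit 6))))))) (T.n (T.n (T.n (T.n (T.l (nat_lit 53) (nat_lit 40)) (T.n (T.l (nat_lit 53) (nat_lit 52)) (T.l (nat_lit 54) (nat_lit 12)))) (T.n (T.l (nat_lit 54) (nat_lit 43)) (T.n (T.l (nat_lit 55) (nat_lit 17)) (T.l (nat_lit 55) (nat_lit 34))))) (T.n (T.n (T.l (nat_lit 55) (nat_lit 36)) (T.n (T.l (nat_lit 55) (nat_lit 42)) (T.l (nat_lit 55) (nat_lit 44)))) (T.n (T.l (nat_lit 55) (nat_lit 46)) (T.n (T.l (nat_lit 55) (nat_lit 56)) (T.l (nat_lit 55) (nat_lit 58)))))) (T.n (T.n (T.n (T.l (nat_lit 56) (nat_lit 1)) (T.n (T.l (nat_lit 56) (nat_lit 7)) (T.l (nat_lit 56) (nat_lit 43)))) (T.n (T.l (nat_lit 56) (nat_lit 55)) (T.n (T.l (nat_lit 58) (nat_lit 1)) (T.l (nat_lit 58) (nat_lit 7))))) (T.n (T.n (T.l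 (nat_lit 58) (nat_lit 43)) (T.n (T.l (nat_lit 58) (nat_lit 55)) (T.l (nat_lit 59) (nat_lit 4)))) (T.n (T.l (nat_lit 59) (nat_lit 6)) (T.n (T.l (nat_lit 59) (nat_lit 40)) (T.l (nat_lit 59) (nat_lit 52)))))))))
def T79_1 : T := T.n (T.n (T.n (T.n (T.n (T.n (T.n (T.l (nat_lit 1) (nat_lit 15)) (T.l (nat_lit 1) (nat_lit 24))) (T.n (T.l (nat_lit 1) (nat_lit 43)) (T.l (nat_lit 1) (nat_lit 55)))) (T.n (T.n (T.l (nat_lit 2) (nat_lit 15)) (T.l (nat_lit 2) (nat_lit 24))) (T.n (T.l (nat_lit 2) (nat_lit 43)) (T.l (nat_lit 2) (nat_lit 55))))) (T.n (T.n (T.n (T.l (nat_lit 4) (nat_lit 12)) (T.l (nat_lit 4) (nat_lit 27))) (T.n (T.l (nat_lit 4) (nat_lit 40)) (T.l (nat_lit 4) (nat_lit 52)))) (T.n (T.n (T.l (nat_lit 5) (nat_lit 12)) (T.l (nat_lit 5) (nat_lit 27))) (T.n (T.l (nat_lit 5) (nat_lit 40)) (T.l (nat_lit 5) (nat_lit 52)))))) (T.n (T.n (T.n (T.n (T.l (nat_lit 6) (nat_lit 12))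 (T.l (nat_lit 6) (nat_lit 27))) (T.n (T.l (nat_lit 6) (nat_lit 40)) (T.l (nat_lit 6) (nat_lit 52)))) (T.n (T.n (T.l (nat_lit 7) (nat_lit 15)) (T.l (nat_lit 7) (nat_lit 24))) (T.n (T.l (nat_lit 7) (nat_lit 43)) (T.l (nat_lit 7) (nat_lit 55))))) (T.n (T.n (T.n (T.l (nat_lit 9) (nat_lit 12)) (T.l (nat_lit 9) (nat_lit 27))) (T.n (T.l (nat_lit 9) (nat_lit 40)) (T.l (nat_lit 9) (nat_lit 52)))) (T.n (T.n (T.l (nat_lit 10) (nat_lit 15)) (T.l (nat_lit 10) (nat_lit 24))) (T.n (T.l (nat_lit 10) (nat_lit 43)) (T.l (nat_lit 10) (nat_lit 55))))))) (T.n (T.n (T.n (T.n (T.n (T.l (nat_lit 12) (nat_lit 4)) (T.l (nat_lit 12) (nat_lit 5))) (T.n (T.l (nat_lit 12) (nat_lit 6)) (T.l (nat_lit 12) (nat_lit 9)))) (T.n (T.n (T.l (nat_lit 12) (nat_lit 19)) (T.l (nat_lit 12) (nat_lit 22))) (T.n (T.l (nat_lit 12) (nat_lit 37)) (T.l (nat_lit 12) (nat_lit 49))))) (T.n (T.n (T.n (T.l (nat_lit 15)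 (nat_lit 1)) (T.l (nat_lit 15) (nat_lit 2))) (T.n (T.l (nat_lit 15) (nat_lit 7)) (T.l (nat_lit 15) (nat_lit 10)))) (T.n (T.n (T.l (nat_lit 15) (nat_lit 16)) (T.l (nat_lit 15) (nat_lit 17))) (T.n (T.l (nat_lit 15) (nat_lit 42)) (T.l (nat_lit 15) (nat_lit 54)))))) (T.n (T.n (T.n (T.n (T.l (nat_lit 16) (nat_lit 15)) (T.l (nat_lit 16) (nat_lit 40))) (T.n (T.l (nat_lit 17) (nat_lit 15)) (T.l (nat_lit 17) (nat_lit 52)))) (T.n (T.n (T.l (nat_lit 19) (nat_lit 12)) (T.l (nat_lit 19) (nat_lit 43))) (T.n (T.l (nat_lit 22) (nat_lit 12)) (T.l (nat_lit 22) (nat_lit 55))))) (T.n (T.n (T.n (T.l (nat_lit 24) (nat_lit 1)) (T.l (nat_lit 24) (nat_lit 2))) (T.n (T.l (nat_lit 24) (nat_lit 7)) (T.l (nat_lit 24) (nat_lit 10)))) (T.n (T.n (T.l (nat_lit 24) (nat_lit 31)) (T.l (nat_lit 24) (nat_lit 34))) (T.n (T.l (nat_lit 24) (nat_lit 36)) (T.l (nat_lit 24) (nat_lit 48)))))))) (T.n (T.n (T.n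 (T.n (T.n (T.n (T.l (nat_lit 27) (nat_lit 4)) (T.l (nat_lit 27) (nat_lit 5))) (T.n (T.l (nat_lit 27) (nat_lit 6)) (T.l (nat_lit 27) (nat_lit 9)))) (T.n (T.n (T.l (nat_lit 27) (nat_lit 28)) (T.l (nat_lit 27) (nat_lit 29))) (T.n (T.l (nat_lit 27) (nat_lit 39)) (T.l (nat_lit 27) (nat_lit 51))))) (T.n (T.n (T.n (T.l (nat_lit 28) (nat_lit 27)) (T.l (nat_lit 28) (nat_lit 43))) (T.n (T.l (nat_lit 29) (nat_lit 27)) (T.l (nat_lit 29) (nat_lit 55)))) (T.n (T.n (T.l (nat_lit 31) (nat_lit 24)) (T.l (nat_lit 31) (nat_lit 40))) (T.n (T.l (nat_lit 34) (nat_lit 24)) (T.l (nat_lit 34) (nat_lit 52)))))) (T.n (T.n (T.n (T.n (T.l (nat_lit 36) (nat_lit 24)) (T.l (nat_lit 36) (nat_lit 40))) (T.n (T.l (nat_lit 37) (nat_lit 12)) (T.l (nat_lit 37) (nat_lit 43)))) (T.n (T.n (T.l (nat_lit 39) (nat_lit 27)) (T.l (nat_lit 39) (nat_lit 43))) (T.n (T.l (nat_lit 40) (nat_lit 4)) (T.l (nat_lit 40)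 (nat_lit 5))))) (T.n (T.n (T.n (T.l (nat_lit 40) (nat_lit 6)) (T.l (nat_lit 40) (nat_lit 9))) (T.n (T.l (nat_lit 40) (nat_lit 16)) (T.l (nat_lit 40) (nat_lit 31)))) (T.n (T.n (T.l (nat_lit 40) (nat_lit 36)) (T.l (nat_lit 40) (nat_lit 42))) (T.n (T.l (nat_lit 42) (nat_lit 15)) (T.l (nat_lit 42) (nat_lit 40))))))) (T.n (T.n (T.n (T.n (T.n (T.l (nat_lit 43) (nat_lit 1)) (T.l (nat_lit 43) (nat_lit 2))) (T.n (T.l (nat_lit 43) (nat_lit 7)) (T.l (nat_lit 43) (nat_lit 10)))) (T.n (T.n (T.l (nat_lit 43) (nat_lit 19)) (T.l (nat_lit 43) (nat_lit 28))) (T.n (T.l (nat_lit 43) (nat_lit 37)) (T.l (nat_lit 43) (nat_lit 39))))) (T.n (T.n (T.n (T.l (nat_lit 48) (nat_lit 24)) (T.l (nat_lit 48) (nat_lit 52))) (T.n (T.l (nat_lit 49) (nat_lit 12)) (T.l (nat_lit 49) (nat_lit 55)))) (T.n (T.n (T.l (nat_lit 51) (nat_lit 27)) (T.l (nat_lit 51) (nat_lit 55))) (T.n (T.l (nat_lit 52) (nat_lit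 4)) (T.l (nat_lit 52) (nat_lit 5)))))) (T.n (T.n (T.n (T.n (T.l (nat_lit 52) (nat_lit 6)) (T.l (nat_lit 52) (nat_lit 9))) (T.n (T.l (nat_lit 52) (nat_lit 17)) (T.l (nat_lit 52) (nat_lit 34)))) (T.n (T.n (T.l (nat_lit 52) (nat_lit 48)) (T.l (nat_lit 52) (nat_lit 54))) (T.n (T.l (nat_lit 54) (nat_lit 15)) (T.l (nat_lit 54) (nat_lit 52))))) (T.n (T.n (T.n (T.l (nat_lit 55) (nat_lit 1)) (T.l (nat_lit 55) (nat_lit 2))) (T.n (T.l (nat_lit 55) (nat_lit 7)) (T.l (nat_lit 55) (nat_lit 10)))) (T.n (T.n (T.l (nat_lit 55) (nat_lit 22)) (T.l (nat_lit 55) (nat_lit 29))) (T.n (T.l (nat_lit 55) (nat_lit 49)) (T.l (nat_lit 55) (nat_lit 51))))))))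
def T80_1 : T := T.n (T.n (T.n (T.n (T.n (T.n (T.l (nat_lit 1) (nat_lit 16)) (T.l (nat_lit 1) (nat_lit 28))) (T.n (T.l (nat_lit 1) (nat_lit 36)) (T.l (nat_lit 1) (nat_lit 51)))) (T.n (T.n (T.l (nat_lit 2) (nat_lit 17)) (T.l (nat_lit 2) (nat_lit 29))) (T.n (T.l (nat_lit 2) (nat_lit 39)) (T.l (nat_lit 2) (nat_lit 48))))) (T.n (T.n (T.n (T.l (nat_lit 4) (nat_lit 16)) (T.l (nat_lit 4) (nat_lit 28))) (T.n (T.l (nat_lit 4) (nat_lit 37)) (T.l (nat_lit 4) (nat_lit 54)))) (T.n (T.n (T.l (nat_lit 5) (nat_lit 17)) (T.l (nat_lit 5) (nat_lit 29))) (T.n (T.l (nat_lit 5) (nat_lit 42)) (T.l (nat_lit 5) (nat_lit 49)))))) (T.n (T.n (T.n (T.n (T.l (nat_lit 6) (nat_lit 19)) (T.l (nat_lit 6) (nat_lit 31))) (T.n (T.l (nat_lit 6) (nat_lit 39)) (T.l (nat_lit 6) (nat_lit 48)))) (T.n (T.n (T.l (nat_lit 7) (nat_lit 19)) (T.l (nat_lit 7) (nat_lit 31))) (T.n (T.l (nat_lit 7) (nat_lit 42)) (T.l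 (nat_lit 7) (nat_lit 49))))) (T.n (T.n (T.n (T.l (nat_lit 9) (nat_lit 22)) (T.l (nat_lit 9) (nat_lit 34))) (T.n (T.l (nat_lit 9) (nat_lit 36)) (T.l (nat_lit 9) (nat_lit 51)))) (T.n (T.n (T.l (nat_lit 10) (nat_lit 22)) (T.l (nat_lit 10) (nat_lit 34))) (T.n (T.l (nat_lit 10) (nat_lit 37)) (T.l (nat_lit 10) (nat_lit 54))))))) (T.n (T.n (T.n (T.n (T.n (T.l (nat_lit 16) (nat_lit 1)) (T.l (nat_lit 16) (nat_lit 4))) (T.n (T.l (nat_lit 17) (nat_lit 2)) (T.l (nat_lit 17) (nat_lit 5)))) (T.n (T.n (T.l (nat_lit 19) (nat_lit 6)) (T.l (nat_lit 19) (nat_lit 7))) (T.n (T.l (nat_lit 22) (nat_lit 9)) (T.l (nat_lit 22) (nat_lit 10))))) (T.n (T.n (T.n (T.l (nat_lit 28) (nat_lit 1)) (T.l (nat_lit 28) (nat_lit 4))) (T.n (T.l (nat_lit 29) (nat_lit 2)) (T.l (nat_lit 29) (nat_lit 5)))) (T.n (T.n (T.l (nat_lit 31) (nat_lit 6)) (T.l (nat_lit 31) (nat_lit 7))) (T.n (T.l (nat_lit 34) (nat_lit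 9)) (T.l (nat_lit 34) (nat_lit 10)))))) (T.n (T.n (T.n (T.n (T.l (nat_lit 36) (nat_lit 1)) (T.l (nat_lit 36) (nat_lit 9))) (T.n (T.l (nat_lit 37) (nat_lit 4)) (T.l (nat_lit 37) (nat_lit 10)))) (T.n (T.n (T.l (nat_lit 39) (nat_lit 2)) (T.l (nat_lit 39) (nat_lit 6))) (T.n (T.l (nat_lit 42) (nat_lit 5)) (T.l (nat_lit 42) (nat_lit 7))))) (T.n (T.n (T.n (T.l (nat_lit 48) (nat_lit 2)) (T.l (nat_lit 48) (nat_lit 6))) (T.n (T.l (nat_lit 49) (nat_lit 5)) (T.l (nat_lit 49) (nat_lit 7)))) (T.n (T.n (T.l (nat_lit 51) (nat_lit 1)) (T.l (nat_lit 51) (nat_lit 9))) (T.n (T.l (nat_lit 54) (nat_lit 4)) (T.l (nat_lit 54) (nat_lit 10)))))))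
def T81_1 : T := T.n (T.n (T.n (T.n (T.n (T.n (T.l (nat_lit 1) (nat_lit 17)) (T.l (nat_lit 1) (nat_lit 19))) (T.n (T.l (nat_lit 1) (nat_lit 48)) (T.l (nat_lit 1) (nat_lit 49)))) (T.n (T.n (T.l (nat_lit 2) (nat_lit 16)) (T.l (nat_lit 2) (nat_lit 22))) (T.n (T.l (nat_lit 2) (nat_lit 36)) (T.l (nat_lit 2) (nat_lit 37))))) (T.n (T.n (T.n (T.l (nat_lit 4) (nat_lit 29)) (T.l (nat_lit 4) (nat_lit 31))) (T.n (T.l (nat_lit 4) (nat_lit 48)) (T.l (nat_lit 4) (nat_lit 49)))) (T.n (T.n (T.l (nat_lit 5) (nat_lit 28)) (T.l (nat_lit 5) (nat_lit 34))) (T.n (T.l (nat_lit 5) (nat_lit 36)) (T.l (nat_lit 5) (nat_lit 37)))))) (T.n (T.n (T.n (T.n (T.l (nat_lit 6) (nat_lit 16)) (T.l (nat_lit 6) (nat_lit 22))) (T.n (T.l (nat_lit 6) (nat_lit 51)) (T.l (nat_lit 6) (nat_lit 54)))) (T.n (T.n (T.l (nat_lit 7) (nat_lit 28)) (T.l (nat_lit 7) (nat_lit 34))) (T.n (T.l (nat_lit 7) (nat_lit 51)) (T.l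 (nat_lit 7) (nat_lit 54))))) (T.n (T.n (T.n (T.l (nat_lit 9) (nat_lit 17)) (T.l (nat_lit 9) (nat_lit 19))) (T.n (T.l (nat_lit 9) (nat_lit 39)) (T.l (nat_lit 9) (nat_lit 42)))) (T.n (T.n (T.l (nat_lit 10) (nat_lit 29)) (T.l (nat_lit 10) (nat_lit 31))) (T.n (T.l (nat_lit 10) (nat_lit 39)) (T.l (nat_lit 10) (nat_lit 42))))))) (T.n (T.n (T.n (T.n (T.n (T.l (nat_lit 16) (nat_lit 2)) (T.l (nat_lit 16) (nat_lit 6))) (T.n (T.l (nat_lit 17) (nat_lit 1)) (T.l (nat_lit 17) (nat_lit 9)))) (T.n (T.n (T.l (nat_lit 19) (nat_lit 1)) (T.l (nat_lit 19) (nat_lit 9))) (T.n (T.l (nat_lit 22) (nat_lit 2)) (T.l (nat_lit 22) (nat_lit 6))))) (T.n (T.n (T.n (T.l (nat_lit 28) (nat_lit 5)) (T.l (nat_lit 28) (nat_lit 7))) (T.n (T.l (nat_lit 29) (nat_lit 4)) (T.l (nat_lit 29) (nat_lit 10)))) (T.n (T.n (T.l (nat_lit 31) (nat_lit 4)) (T.l (nat_lit 31) (nat_lit 10))) (T.n (T.l (nat_lit 34) (nat_lit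 5)) (T.l (nat_lit 34) (nat_lit 7)))))) (T.n (T.n (T.n (T.n (T.l (nat_lit 36) (nat_lit 2)) (T.l (nat_lit 36) (nat_lit 5))) (T.n (T.l (nat_lit 37) (nat_lit 2)) (T.l (nat_lit 37) (nat_lit 5)))) (T.n (T.n (T.l (nat_lit 39) (nat_lit 9)) (T.l (nat_lit 39) (nat_lit 10))) (T.n (T.l (nat_lit 42) (nat_lit 9)) (T.l (nat_lit 42) (nat_lit 10))))) (T.n (T.n (T.n (T.l (nat_lit 48) (nat_lit 1)) (T.l (nat_lit 48) (nat_lit 4))) (T.n (T.l (nat_lit 49) (nat_lit 1)) (T.l (nat_lit 49) (nat_lit 4)))) (T.n (T.n (T.l (nat_lit 51) (nat_lit 6)) (T.l (nat_lit 51) (nat_lit 7))) (T.n (T.l (nat_lit 54) (nat_lit 6)) (T.l (nat_lit 54) (nat_lit 7)))))))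
def T82_1 : T := T.n (T.n (T.n (T.n (T.n (T.n (T.l (nat_lit 1) (nat_lit 18)) (T.l (nat_lit 1) (nat_lit 25))) (T.n (T.l (nat_lit 1) (nat_lit 41)) (T.l (nat_lit 1) (nat_lit 53)))) (T.n (T.n (T.l (nat_lit 2) (nat_lit 21)) (T.l (nat_lit 2) (nat_lit 26))) (T.n (T.l (nat_lit 2) (nat_lit 41)) (T.l (nat_lit 2) (nat_lit 53))))) (T.n (T.n (T.n (T.l (nat_lit 4) (nat_lit 13)) (T.l (nat_lit 4) (nat_lit 30))) (T.n (T.l (nat_lit 4) (nat_lit 44)) (T.l (nat_lit 4) (nat_lit 56)))) (T.n (T.n (T.l (nat_lit 5) (nat_lit 14)) (T.l (nat_lit 5) (nat_lit 33))) (T.n (T.l (nat_lit 5) (nat_lit 44)) (T.l (nat_lit 5) (nat_lit 56)))))) (T.n (T.n (T.n (T.n (T.l (nat_lit 6) (nat_lit 13)) (T.l (nat_lit 6) (nat_lit 30))) (T.n (T.l (nat_lit 6) (nat_lit 46)) (T.l (nat_lit 6) (nat_lit 58)))) (T.n (T.n (T.l (nat_lit 7) (nat_lit 18)) (T.l (nat_lit 7) (nat_lit 25))) (T.n (T.l (nat_lit 7) (nat_lit 47)) (T.l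 (nat_lit 7) (nat_lit 59))))) (T.n (T.n (T.n (T.l (nat_lit 9) (nat_lit 14)) (T.l (nat_lit 9) (nat_lit 33))) (T.n (T.l (nat_lit 9) (nat_lit 46)) (T.l (nat_lit 9) (nat_lit 58)))) (T.n (T.n (T.l (nat_lit 10) (nat_lit 21)) (T.l (nat_lit 10) (nat_lit 26))) (T.n (T.l (nat_lit 10) (nat_lit 47)) (T.l (nat_lit 10) (nat_lit 59))))))) (T.n (T.n (T.n (T.n (T.n (T.l (nat_lit 13) (nat_lit 4)) (T.l (nat_lit 13) (nat_lit 6))) (T.n (T.l (nat_lit 14) (nat_lit 5)) (T.l (nat_lit 14) (nat_lit 9)))) (T.n (T.n (T.l (nat_lit 18) (nat_lit 1)) (T.l (nat_lit 18) (nat_lit 7))) (T.n (T.l (nat_lit 21) (nat_lit 2)) (T.l (nat_lit 21) (nat_lit 10))))) (T.n (T.n (T.n (T.l (nat_lit 25) (nat_lit 1)) (T.l (nat_lit 25) (nat_lit 7))) (T.n (T.l (nat_lit 26) (nat_lit 2)) (T.l (nat_lit 26) (nat_lit 10)))) (T.n (T.n (T.l (nat_lit 30) (nat_lit 4)) (T.l (nat_lit 30) (nat_lit 6))) (T.n (T.l (nat_lit 33) (nat_lit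 5)) (T.l (nat_lit 33) (nat_lit 9)))))) (T.n (T.n (T.n (T.n (T.l (nat_lit 41) (nat_lit 1)) (T.l (nat_lit 41) (nat_lit 2))) (T.n (T.l (nat_lit 44) (nat_lit 4)) (T.l (nat_lit 44) (nat_lit 5)))) (T.n (T.n (T.l (nat_lit 46) (nat_lit 6)) (T.l (nat_lit 46) (nat_lit 9))) (T.n (T.l (nat_lit 47) (nat_lit 7)) (T.l (nat_lit 47) (nat_lit 10))))) (T.n (T.n (T.n (T.l (nat_lit 53) (nat_lit 1)) (T.l (nat_lit 53) (nat_lit 2))) (T.n (T.l (nat_lit 56) (nat_lit 4)) (T.l (nat_lit 56) (nat_lit 5)))) (T.n (T.n (T.l (nat_lit 58) (nat_lit 6)) (T.l (nat_lit 58) (nat_lit 9))) (T.n (T.l (nat_lit 59) (nat_lit 7)) (T.l (nat_lit 59) (nat_lit 10)))))))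
def T83_1 : T := T.n (T.n (T.n (T.n (T.n (T.n (T.l (nat_lit 1) (nat_lit 20)) (T.l (nat_lit 1) (nat_lit 32))) (T.n (T.l (nat_lit 1) (nat_lit 38)) (T.l (nat_lit 1) (nat_lit 57)))) (T.n (T.n (T.l (nat_lit 2) (nat_lit 23)) (T.l (nat_lit 2) (nat_lit 35))) (T.n (T.l (nat_lit 2) (nat_lit 45)) (T.l (nat_lit 2) (nat_lit 50))))) (T.n (T.n (T.n (T.l (nat_lit 4) (nat_lit 20)) (T.l (nat_lit 4) (nat_lit 32))) (T.n (T.l (nat_lit 4) (nat_lit 38)) (T.l (nat_lit 4) (nat_lit 57)))) (T.n (T.n (T.l (nat_lit 5) (nat_lit 23)) (T.l (nat_lit 5) (nat_lit 35))) (T.n (T.l (nat_lit 5) (nat_lit 45)) (T.l (nat_lit 5) (nat_lit 50)))))) (T.n (T.n (T.n (T.n (T.l (nat_lit 6) (nat_lit 23)) (T.l (nat_lit 6) (nat_lit 35))) (T.n (T.l (nat_lit 6) (nat_lit 45)) (T.l (nat_lit 6) (nat_lit 50)))) (T.n (T.n (T.l (nat_lit 7) (nat_lit 23)) (T.l (nat_lit 7) (nat_lit 35))) (T.n (T.l (nat_lit 7) (nat_lit 45)) (T.l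 (nat_lit 7) (nat_lit 50))))) (T.n (T.n (T.n (T.l (nat_lit 9) (nat_lit 20)) (T.l (nat_lit 9) (nat_lit 32))) (T.n (T.l (nat_lit 9) (nat_lit 38)) (T.l (nat_lit 9) (nat_lit 57)))) (T.n (T.n (T.l (nat_lit 10) (nat_lit 20)) (T.l (nat_lit 10) (nat_lit 32))) (T.n (T.l (nat_lit 10) (nat_lit 38)) (T.l (nat_lit 10) (nat_lit 57))))))) (T.n (T.n (T.n (T.n (T.n (T.l (nat_lit 20) (nat_lit 1)) (T.l (nat_lit 20) (nat_lit 4))) (T.n (T.l (nat_lit 20) (nat_lit 9)) (T.l (nat_lit 20) (nat_lit 10)))) (T.n (T.n (T.l (nat_lit 23) (nat_lit 2)) (T.l (nat_lit 23) (nat_lit 5))) (T.n (T.l (nat_lit 23) (nat_lit 6)) (T.l (nat_lit 23) (nat_lit 7))))) (T.n (T.n (T.n (T.l (nat_lit 32) (nat_lit 1)) (T.l (nat_lit 32) (nat_lit 4))) (T.n (T.l (nat_lit 32) (nat_lit 9)) (T.l (nat_lit 32) (nat_lit 10)))) (T.n (T.n (T.l (nat_lit 35) (nat_lit 2)) (T.l (nat_lit 35) (nat_lit 5))) (T.n (T.l (nat_lit 35) (nat_lit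 6)) (T.l (nat_lit 35) (nat_lit 7)))))) (T.n (T.n (T.n (T.n (T.l (nat_lit 38) (nat_lit 1)) (T.l (nat_lit 38) (nat_lit 4))) (T.n (T.l (nat_lit 38) (nat_lit 9)) (T.l (nat_lit 38) (nat_lit 10)))) (T.n (T.n (T.l (nat_lit 45) (nat_lit 2)) (T.l (nat_lit 45) (nat_lit 5))) (T.n (T.l (nat_lit 45) (nat_lit 6)) (T.l (nat_lit 45) (nat_lit 7))))) (T.n (T.n (T.n (T.l (nat_lit 50) (nat_lit 2)) (T.l (nat_lit 50) (nat_lit 5))) (T.n (T.l (nat_lit 50) (nat_lit 6)) (T.l (nat_lit 50) (nat_lit 7)))) (T.n (T.n (T.l (nat_lit 57) (nat_lit 1)) (T.l (nat_lit 57) (nat_lit 4))) (T.n (T.l (nat_lit 57) (nat_lit 9)) (T.l (nat_lit 57) (nat_lit 10)))))))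
def T84_1 : T := T.n (T.n (T.n (T.n (T.n (T.n (T.n (T.l (nat_lit 1) (nat_lit 21)) (T.l (nat_lit 1) (nat_lit 26))) (T.n (T.l (nat_lit 1) (nat_lit 47)) (T.l (nat_lit 1) (nat_lit 59)))) (T.n (T.n (T.l (nat_lit 2) (nat_lit 18)) (T.l (nat_lit 2) (nat_lit 25))) (T.n (T.l (nat_lit 2) (nat_lit 47)) (T.l (nat_lit 2) (nat_lit 59))))) (T.n (T.n (T.n (T.l (nat_lit 4) (nat_lit 14)) (T.l (nat_lit 4) (nat_lit 33))) (T.n (T.l (nat_lit 4) (nat_lit 46)) (T.l (nat_lit 4) (nat_lit 58)))) (T.n (T.n (T.l (nat_lit 5) (nat_lit 13)) (T.l (nat_lit 5) (nat_lit 30))) (T.n (T.l (nat_lit 5) (nat_lit 46)) (T.l (nat_lit 5) (nat_lit 58)))))) (T.n (T.n (T.n (T.n (T.l (nat_lit 6) (nat_lit 14)) (T.l (nat_lit 6) (nat_lit 33))) (T.n (T.l (nat_lit 6) (nat_lit 44)) (T.l (nat_lit 6) (nat_lit 56)))) (T.n (T.n (T.l (nat_lit 7) (nat_lit 21)) (T.l (nat_lit 7) (nat_lit 26))) (T.n (T.l (nat_lit 7) (nat_lit 41))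 (T.l (nat_lit 7) (nat_lit 53))))) (T.n (T.n (T.n (T.l (nat_lit 9) (nat_lit 13)) (T.l (nat_lit 9) (nat_lit 30))) (T.n (T.l (nat_lit 9) (nat_lit 44)) (T.l (nat_lit 9) (nat_lit 56)))) (T.n (T.n (T.l (nat_lit 10) (nat_lit 18)) (T.l (nat_lit 10) (nat_lit 25))) (T.n (T.l (nat_lit 10) (nat_lit 41)) (T.l (nat_lit 10) (nat_lit 53))))))) (T.n (T.n (T.n (T.n (T.n (T.l (nat_lit 13) (nat_lit 5)) (T.l (nat_lit 13) (nat_lit 9))) (T.n (T.l (nat_lit 13) (nat_lit 28)) (T.l (nat_lit 13) (nat_lit 39)))) (T.n (T.n (T.l (nat_lit 14) (nat_lit 4)) (T.l (nat_lit 14) (nat_lit 6))) (T.n (T.l (nat_lit 14) (nat_lit 29)) (T.l (nat_lit 14) (nat_lit 51))))) (T.n (T.n (T.n (T.l (nat_lit 16) (nat_lit 25)) (T.l (nat_lit 16) (nat_lit 56))) (T.n (T.l (nat_lit 17) (nat_lit 26)) (T.l (nat_lit 17) (nat_lit 44)))) (T.n (T.n (T.l (nat_lit 18) (nat_lit 2)) (T.l (nat_lit 18) (nat_lit 10))) (T.n (T.l (nat_lit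 18) (nat_lit 31)) (T.l (nat_lit 18) (nat_lit 36)))))) (T.n (T.n (T.n (T.n (T.l (nat_lit 19) (nat_lit 30)) (T.l (nat_lit 19) (nat_lit 59))) (T.n (T.l (nat_lit 21) (nat_lit 1)) (T.l (nat_lit 21) (nat_lit 7)))) (T.n (T.n (T.l (nat_lit 21) (nat_lit 34)) (T.l (nat_lit 21) (nat_lit 48))) (T.n (T.l (nat_lit 22) (nat_lit 33)) (T.l (nat_lit 22) (nat_lit 47))))) (T.n (T.n (T.n (T.l (nat_lit 25) (nat_lit 2)) (T.l (nat_lit 25) (nat_lit 10))) (T.n (T.l (nat_lit 25) (nat_lit 16)) (T.l (nat_lit 25) (nat_lit 42)))) (T.n (T.n (T.l (nat_lit 26) (nat_lit 1)) (T.l (nat_lit 26) (nat_lit 7))) (T.n (T.l (nat_lit 26) (nat_lit 17)) (T.l (nat_lit 26) (nat_lit 54)))))))) (T.n (T.n (T.n (T.n (T.n (T.n (T.l (nat_lit 28) (nat_lit 13)) (T.l (nat_lit 28) (nat_lit 53))) (T.n (T.l (nat_lit 29) (nat_lit 14)) (T.l (nat_lit 29) (nat_lit 41)))) (T.n (T.n (T.l (nat_lit 30) (nat_lit 5)) (T.l (nat_lit 30)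 (nat_lit 9))) (T.n (T.l (nat_lit 30) (nat_lit 19)) (T.l (nat_lit 30) (nat_lit 37))))) (T.n (T.n (T.n (T.l (nat_lit 31) (nat_lit 18)) (T.l (nat_lit 31) (nat_lit 58))) (T.n (T.l (nat_lit 33) (nat_lit 4)) (T.l (nat_lit 33) (nat_lit 6)))) (T.n (T.n (T.l (nat_lit 33) (nat_lit 22)) (T.l (nat_lit 33) (nat_lit 49))) (T.n (T.l (nat_lit 34) (nat_lit 21)) (T.l (nat_lit 34) (nat_lit 46)))))) (T.n (T.n (T.n (T.n (T.l (nat_lit 36) (nat_lit 18)) (T.l (nat_lit 36) (nat_lit 58))) (T.n (T.l (nat_lit 37) (nat_lit 30)) (T.l (nat_lit 37) (nat_lit 59)))) (T.n (T.n (T.l (nat_lit 39) (nat_lit 13)) (T.l (nat_lit 39) (nat_lit 53))) (T.n (T.l (nat_lit 41) (nat_lit 7)) (T.l (nat_lit 41) (nat_lit 10))))) (T.n (T.n (T.n (T.l (nat_lit 41) (nat_lit 29)) (T.l (nat_lit 41) (nat_lit 51))) (T.n (T.l (nat_lit 42) (nat_lit 25)) (T.l (nat_lit 42) (nat_lit 56)))) (T.n (T.n (T.l (nat_lit 44) (nat_lit 6))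 (T.l (nat_lit 44) (nat_lit 9))) (T.n (T.l (nat_lit 44) (nat_lit 17)) (T.l (nat_lit 44) (nat_lit 54))))))) (T.n (T.n (T.n (T.n (T.n (T.l (nat_lit 46) (nat_lit 4)) (T.l (nat_lit 46) (nat_lit 5))) (T.n (T.l (nat_lit 46) (nat_lit 34)) (T.l (nat_lit 46) (nat_lit 48)))) (T.n (T.n (T.l (nat_lit 47) (nat_lit 1)) (T.l (nat_lit 47) (nat_lit 2))) (T.n (T.l (nat_lit 47) (nat_lit 22)) (T.l (nat_lit 47) (nat_lit 49))))) (T.n (T.n (T.n (T.l (nat_lit 48) (nat_lit 21)) (T.l (nat_lit 48) (nat_lit 46))) (T.n (T.l (nat_lit 49) (nat_lit 33)) (T.l (nat_lit 49) (nat_lit 47)))) (T.n (T.n (T.l (nat_lit 51) (nat_lit 14)) (T.l (nat_lit 51) (nat_lit 41))) (T.n (T.l (nat_lit 53) (nat_lit 7)) (T.l (nat_lit 53) (nat_lit 10)))))) (T.n (T.n (T.n (T.n (T.l (nat_lit 53) (nat_lit 28)) (T.l (nat_lit 53) (nat_lit 39))) (T.n (T.l (nat_lit 54) (nat_lit 26)) (T.l (nat_lit 54) (nat_lit 44)))) (T.n (T.n (T.l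 (nat_lit 56) (nat_lit 6)) (T.l (nat_lit 56) (nat_lit 9))) (T.n (T.l (nat_lit 56) (nat_lit 16)) (T.l (nat_lit 56) (nat_lit 42))))) (T.n (T.n (T.n (T.l (nat_lit 58) (nat_lit 4)) (T.l (nat_lit 58) (nat_lit 5))) (T.n (T.l (nat_lit 58) (nat_lit 31)) (T.l (nat_lit 58) (nat_lit 36)))) (T.n (T.n (T.l (nat_lit 59) (nat_lit 1)) (T.l (nat_lit 59) (nat_lit 2))) (T.n (T.l (nat_lit 59) (nat_lit 19)) (T.l (nat_lit 59) (nat_lit 37))))))))
def T85_1 : T := T.n (T.n (T.n (T.n (T.n (T.n (T.l (nat_lit 1) (nat_lit 22)) (T.l (nat_lit 1) (nat_lit 34))) (T.n (T.l (nat_lit 1) (nat_lit 37)) (T.l (nat_lit 1) (nat_lit 54)))) (T.n (T.n (T.l (nat_lit 2) (nat_lit 19)) (T.l (nat_lit 2) (nat_lit 31))) (T.n (T.l (nat_lit 2) (nat_lit 42)) (T.l (nat_lit 2) (nat_lit 49))))) (T.n (T.n (T.n (T.l (nat_lit 4) (nat_lit 22)) (T.l (nat_lit 4) (nat_lit 34))) (T.n (T.l (nat_lit 4) (nat_lit 36)) (T.l (nat_lit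 4) (nat_lit 51)))) (T.n (T.n (T.l (nat_lit 5) (nat_lit 19)) (T.l (nat_lit 5) (nat_lit 31))) (T.n (T.l (nat_lit 5) (nat_lit 39)) (T.l (nat_lit 5) (nat_lit 48)))))) (T.n (T.n (T.n (T.n (T.l (nat_lit 6) (nat_lit 17)) (T.l (nat_lit 6) (nat_lit 29))) (T.n (T.l (nat_lit 6) (nat_lit 42)) (T.l (nat_lit 6) (nat_lit 49)))) (T.n (T.n (T.l (nat_lit 7) (nat_lit 17)) (T.l (nat_lit 7) (nat_lit 29))) (T.n (T.l (nat_lit 7) (nat_lit 39)) (T.l (nat_lit 7) (nat_lit 48))))) (T.n (T.n (T.n (T.l (nat_lit 9) (nat_lit 16)) (T.l (nat_lit 9) (nat_lit 28))) (T.n (T.l (nat_lit 9) (nat_lit 37)) (T.l (nat_lit 9) (nat_lit 54)))) (T.n (T.n (T.l (nat_lit 10) (nat_lit 16)) (T.l (nat_lit 10) (nat_lit 28))) (T.n (T.l (nat_lit 10) (nat_lit 36)) (T.l (nat_lit 10) (nat_lit 51))))))) (T.n (T.n (T.n (T.n (T.n (T.l (nat_lit 16) (nat_lit 9)) (T.l (nat_lit 16) (nat_lit 10))) (T.n (T.l (nat_lit 17) (nat_lit 6))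 (T.l (nat_lit 17) (nat_lit 7)))) (T.n (T.n (T.l (nat_lit 19) (nat_lit 2)) (T.l (nat_lit 19) (nat_lit 5))) (T.n (T.l (nat_lit 22) (nat_lit 1)) (T.l (nat_lit 22) (nat_lit 4))))) (T.n (T.n (T.n (T.l (nat_lit 28) (nat_lit 9)) (T.l (nat_lit 28) (nat_lit 10))) (T.n (T.l (nat_lit 29) (nat_lit 6)) (T.l (nat_lit 29) (nat_lit 7)))) (T.n (T.n (T.l (nat_lit 31) (nat_lit 2)) (T.l (nat_lit 31) (nat_lit 5))) (T.n (T.l (nat_lit 34) (nat_lit 1)) (T.l (nat_lit 34) (nat_lit 4)))))) (T.n (T.n (T.n (T.n (T.l (nat_lit 36) (nat_lit 4)) (T.l (nat_lit 36) (nat_lit 10))) (T.n (T.l (nat_lit 37) (nat_lit 1)) (T.l (nat_lit 37) (nat_lit 9)))) (T.n (T.n (T.l (nat_lit 39) (nat_lit 5)) (T.l (nat_lit 39) (nat_lit 7))) (T.n (T.l (nat_lit 42) (nat_lit 2)) (T.l (nat_lit 42) (nat_lit 6))))) (T.n (T.n (T.n (T.l (nat_lit 48) (nat_lit 5)) (T.l (nat_lit 48) (nat_lit 7))) (T.n (T.l (nat_lit 49) (nat_lit 2))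 (T.l (nat_lit 49) (nat_lit 6)))) (T.n (T.n (T.l (nat_lit 51) (nat_lit 4)) (T.l (nat_lit 51) (nat_lit 10))) (T.n (T.l (nat_lit 54) (nat_lit 1)) (T.l (nat_lit 54) (nat_lit 9)))))))
def T86_1 : T := T.n (T.n (T.n (T.n (T.n (T.l (nat_lit 1) (nat_lit 23)) (T.l (nat_lit 1) (nat_lit 50))) (T.n (T.l (nat_lit 2) (nat_lit 20)) (T.l (nat_lit 2) (nat_lit 38)))) (T.n (T.n (T.l (nat_lit 4) (nat_lit 35)) (T.l (nat_lit 4) (nat_lit 50))) (T.n (T.l (nat_lit 5) (nat_lit 32)) (T.l (nat_lit 5) (nat_lit 38))))) (T.n (T.n (T.n (T.l (nat_lit 6) (nat_lit 20)) (T.l (nat_lit 6) (nat_lit 57))) (T.n (T.l (nat_lit 7) (nat_lit 32)) (T.l (nat_lit 7) (nat_lit 57)))) (T.n (T.n (T.l (nat_lit 9) (nat_lit 23)) (T.l (nat_lit 9) (nat_lit 45))) (T.n (T.l (nat_lit 10) (nat_lit 35)) (T.l (nat_lit 10) (nat_lit 45)))))) (T.n (T.n (T.n (T.n (T.l (nat_lit 20) (nat_lit 2)) (T.l (nat_lit 20) (nat_lit 6))) (T.n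 (T.l (nat_lit 23) (nat_lit 1)) (T.l (nat_lit 23) (nat_lit 9)))) (T.n (T.n (T.l (nat_lit 32) (nat_lit 5)) (T.l (nat_lit 32) (nat_lit 7))) (T.n (T.l (nat_lit 35) (nat_lit 4)) (T.l (nat_lit 35) (nat_lit 10))))) (T.n (T.n (T.n (T.l (nat_lit 38) (nat_lit 2)) (T.l (nat_lit 38) (nat_lit 5))) (T.n (T.l (nat_lit 45) (nat_lit 9)) (T.l (nat_lit 45) (nat_lit 10)))) (T.n (T.n (T.l (nat_lit 50) (nat_lit 1)) (T.l (nat_lit 50) (nat_lit 4))) (T.n (T.l (nat_lit 57) (nat_lit 6)) (T.l (nat_lit 57) (nat_lit 7))))))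
def T87_1 : T := T.n (T.n (T.n (T.n (T.n (T.n (T.n (T.l (nat_lit 1) (nat_lit 30)) (T.l (nat_lit 1) (nat_lit 33))) (T.n (T.l (nat_lit 1) (nat_lit 44)) (T.l (nat_lit 1) (nat_lit 46)))) (T.n (T.n (T.l (nat_lit 2) (nat_lit 30)) (T.l (nat_lit 2) (nat_lit 33))) (T.n (T.l (nat_lit 2) (nat_lit 56)) (T.l (nat_lit 2) (nat_lit 58))))) (T.n (T.n (T.n (T.l (nat_lit 4) (nat_lit 18)) (T.l (nat_lit 4) (nat_lit 21))) (T.n (T.l (nat_lit 4) (nat_lit 41)) (T.l (nat_lit 4) (nat_lit 47)))) (T.n (T.n (T.l (nat_lit 5) (nat_lit 18)) (T.l (nat_lit 5) (nat_lit 21))) (T.n (T.l (nat_lit 5) (nat_lit 53)) (T.l (nat_lit 5) (nat_lit 59)))))) (T.n (T.n (T.n (T.n (T.l (nat_lit 6) (nat_lit 25)) (T.l (nat_lit 6) (nat_lit 26))) (T.n (T.l (nat_lit 6) (nat_lit 41)) (T.l (nat_lit 6) (nat_lit 47)))) (T.n (T.n (T.l (nat_lit 7) (nat_lit 13)) (T.l (nat_lit 7) (nat_lit 14))) (T.n (T.l (nat_lit 7) (nat_lit 44))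 (T.l (nat_lit 7) (nat_lit 46))))) (T.n (T.n (T.n (T.l (nat_lit 9) (nat_lit 25)) (T.l (nat_lit 9) (nat_lit 26))) (T.n (T.l (nat_lit 9) (nat_lit 53)) (T.l (nat_lit 9) (nat_lit 59)))) (T.n (T.n (T.l (nat_lit 10) (nat_lit 13)) (T.l (nat_lit 10) (nat_lit 14))) (T.n (T.l (nat_lit 10) (nat_lit 56)) (T.l (nat_lit 10) (nat_lit 58))))))) (T.n (T.n (T.n (T.n (T.n (T.l (nat_lit 13) (nat_lit 7)) (T.l (nat_lit 13) (nat_lit 10))) (T.n (T.l (nat_lit 13) (nat_lit 19)) (T.l (nat_lit 13) (nat_lit 37)))) (T.n (T.n (T.l (nat_lit 14) (nat_lit 7)) (T.l (nat_lit 14) (nat_lit 10))) (T.n (T.l (nat_lit 14) (nat_lit 22)) (T.l (nat_lit 14) (nat_lit 49))))) (T.n (T.n (T.n (T.l (nat_lit 16) (nat_lit 18)) (T.l (nat_lit 16) (nat_lit 44))) (T.n (T.l (nat_lit 17) (nat_lit 21)) (T.l (nat_lit 17) (nat_lit 56)))) (T.n (T.n (T.l (nat_lit 18) (nat_lit 4)) (T.l (nat_lit 18) (nat_lit 5))) (T.n (T.l (nat_lit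 18) (nat_lit 16)) (T.l (nat_lit 18) (nat_lit 42)))))) (T.n (T.n (T.n (T.n (T.l (nat_lit 19) (nat_lit 13)) (T.l (nat_lit 19) (nat_lit 47))) (T.n (T.l (nat_lit 21) (nat_lit 4)) (T.l (nat_lit 21) (nat_lit 5)))) (T.n (T.n (T.l (nat_lit 21) (nat_lit 17)) (T.l (nat_lit 21) (nat_lit 54))) (T.n (T.l (nat_lit 22) (nat_lit 14)) (T.l (nat_lit 22) (nat_lit 59))))) (T.n (T.n (T.n (T.l (nat_lit 25) (nat_lit 6)) (T.l (nat_lit 25) (nat_lit 9))) (T.n (T.l (nat_lit 25) (nat_lit 31)) (T.l (nat_lit 25) (nat_lit 36)))) (T.n (T.n (T.l (nat_lit 26) (nat_lit 6)) (T.l (nat_lit 26) (nat_lit 9))) (T.n (T.l (nat_lit 26) (nat_lit 34)) (T.l (nat_lit 26) (nat_lit 48)))))))) (T.n (T.n (T.n (T.n (T.n (T.n (T.l (nat_lit 28) (nat_lit 30)) (T.l (nat_lit 28) (nat_lit 41))) (T.n (T.l (nat_lit 29) (nat_lit 33)) (T.l (nat_lit 29) (nat_lit 53)))) (T.n (T.n (T.l (nat_lit 30) (nat_lit 1)) (T.l (nat_lit 30)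 (nat_lit 2))) (T.n (T.l (nat_lit 30) (nat_lit 28)) (T.l (nat_lit 30) (nat_lit 39))))) (T.n (T.n (T.n (T.l (nat_lit 31) (nat_lit 25)) (T.l (nat_lit 31) (nat_lit 46))) (T.n (T.l (nat_lit 33) (nat_lit 1)) (T.l (nat_lit 33) (nat_lit 2)))) (T.n (T.n (T.l (nat_lit 33) (nat_lit 29)) (T.l (nat_lit 33) (nat_lit 51))) (T.n (T.l (nat_lit 34) (nat_lit 26)) (T.l (nat_lit 34) (nat_lit 58)))))) (T.n (T.n (T.n (T.n (T.l (nat_lit 36) (nat_lit 25)) (T.l (nat_lit 36) (nat_lit 46))) (T.n (T.l (nat_lit 37) (nat_lit 13)) (T.l (nat_lit 37) (nat_lit 47)))) (T.n (T.n (T.l (nat_lit 39) (nat_lit 30)) (T.l (nat_lit 39) (nat_lit 41))) (T.n (T.l (nat_lit 41) (nat_lit 4)) (T.l (nat_lit 41) (nat_lit 6))))) (T.n (T.n (T.n (T.l (nat_lit 41) (nat_lit 28)) (T.l (nat_lit 41) (nat_lit 39))) (T.n (T.l (nat_lit 42) (nat_lit 18)) (T.l (nat_lit 42) (nat_lit 44)))) (T.n (T.n (T.l (nat_lit 44) (nat_lit 1))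 (T.l (nat_lit 44) (nat_lit 7))) (T.n (T.l (nat_lit 44) (nat_lit 16)) (T.l (nat_lit 44) (nat_lit 42))))))) (T.n (T.n (T.n (T.n (T.n (T.l (nat_lit 46) (nat_lit 1)) (T.l (nat_lit 46) (nat_lit 7))) (T.n (T.l (nat_lit 46) (nat_lit 31)) (T.l (nat_lit 46) (nat_lit 36)))) (T.n (T.n (T.l (nat_lit 47) (nat_lit 4)) (T.l (nat_lit 47) (nat_lit 6))) (T.n (T.l (nat_lit 47) (nat_lit 19)) (T.l (nat_lit 47) (nat_lit 37))))) (T.n (T.n (T.n (T.l (nat_lit 48) (nat_lit 26)) (T.l (nat_lit 48) (nat_lit 58))) (T.n (T.l (nat_lit 49) (nat_lit 14)) (T.l (nat_lit 49) (nat_lit 59)))) (T.n (T.n (T.l (nat_lit 51) (nat_lit 33)) (T.l (nat_lit 51) (nat_lit 53))) (T.n (T.l (nat_lit 53) (nat_lit 5)) (T.l (nat_lit 53) (nat_lit 9)))))) (T.n (T.n (T.n (T.n (T.l (nat_lit 53) (nat_lit 29)) (T.l (nat_lit 53) (nat_lit 51))) (T.n (T.l (nat_lit 54) (nat_lit 21)) (T.l (nat_lit 54) (nat_lit 56)))) (T.n (T.n (T.l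 (nat_lit 56) (nat_lit 2)) (T.l (nat_lit 56) (nat_lit 10))) (T.n (T.l (nat_lit 56) (nat_lit 17)) (T.l (nat_lit 56) (nat_lit 54))))) (T.n (T.n (T.n (T.l (nat_lit 58) (nat_lit 2)) (T.l (nat_lit 58) (nat_lit 10))) (T.n (T.l (nat_lit 58) (nat_lit 34)) (T.l (nat_lit 58) (nat_lit 48)))) (T.n (T.n (T.l (nat_lit 59) (nat_lit 5)) (T.l (nat_lit 59) (nat_lit 9))) (T.n (T.l (nat_lit 59) (nat_lit 22)) (T.l (nat_lit 59) (nat_lit 49))))))))
def T88_1 : T := T.n (T.n (T.n (T.n (T.n (T.n (T.l (nat_lit 1) (nat_lit 35)) (T.l (nat_lit 1) (nat_lit 45))) (T.n (T.l (nat_lit 2) (nat_lit 32)) (T.l (nat_lit 2) (nat_lit 57)))) (T.n (T.n (T.l (nat_lit 4) (nat_lit 23)) (T.l (nat_lit 4) (nat_lit 45))) (T.n (T.l (nat_lit 5) (nat_lit 20)) (T.l (nat_lit 5) (nat_lit 57))))) (T.n (T.n (T.n (T.l (nat_lit 6) (nat_lit 32)) (T.l (nat_lit 6) (nat_lit 38))) (T.n (T.l (nat_lit 7) (nat_lit 20)) (T.l (nat_lit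 7) (nat_lit 38)))) (T.n (T.n (T.l (nat_lit 9) (nat_lit 35)) (T.l (nat_lit 9) (nat_lit 50))) (T.n (T.l (nat_lit 10) (nat_lit 23)) (T.l (nat_lit 10) (nat_lit 50)))))) (T.n (T.n (T.n (T.n (T.l (nat_lit 16) (nat_lit 36)) (T.l (nat_lit 16) (nat_lit 54))) (T.n (T.l (nat_lit 17) (nat_lit 42)) (T.l (nat_lit 17) (nat_lit 48)))) (T.n (T.n (T.l (nat_lit 19) (nat_lit 39)) (T.l (nat_lit 19) (nat_lit 49))) (T.n (T.l (nat_lit 20) (nat_lit 5)) (T.l (nat_lit 20) (nat_lit 7))))) (T.n (T.n (T.n (T.l (nat_lit 22) (nat_lit 37)) (T.l (nat_lit 22) (nat_lit 51))) (T.n (T.l (nat_lit 23) (nat_lit 4)) (T.l (nat_lit 23) (nat_lit 10)))) (T.n (T.n (T.l (nat_lit 28) (nat_lit 37)) (T.l (nat_lit 28) (nat_lit 51))) (T.n (T.l (nat_lit 29) (nat_lit 39)) (T.l (nat_lit 29) (nat_lit 49))))))) (T.n (T.n (T.n (T.n (T.n (T.l (nat_lit 31) (nat_lit 42)) (T.l (nat_lit 31) (nat_lit 48))) (T.n (T.l (nat_lit 32)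 (nat_lit 2)) (T.l (nat_lit 32) (nat_lit 6)))) (T.n (T.n (T.l (nat_lit 34) (nat_lit 36)) (T.l (nat_lit 34) (nat_lit 54))) (T.n (T.l (nat_lit 35) (nat_lit 1)) (T.l (nat_lit 35) (nat_lit 9))))) (T.n (T.n (T.n (T.l (nat_lit 36) (nat_lit 16)) (T.l (nat_lit 36) (nat_lit 34))) (T.n (T.l (nat_lit 37) (nat_lit 22)) (T.l (nat_lit 37) (nat_lit 28)))) (T.n (T.n (T.l (nat_lit 38) (nat_lit 6)) (T.l (nat_lit 38) (nat_lit 7))) (T.n (T.l (nat_lit 39) (nat_lit 19)) (T.l (nat_lit 39) (nat_lit 29)))))) (T.n (T.n (T.n (T.n (T.l (nat_lit 42) (nat_lit 17)) (T.l (nat_lit 42) (nat_lit 31))) (T.n (T.l (nat_lit 45) (nat_lit 1)) (T.l (nat_lit 45) (nat_lit 4)))) (T.n (T.n (T.l (nat_lit 48) (nat_lit 17)) (T.l (nat_lit 48) (nat_lit 31))) (T.n (T.l (nat_lit 49) (nat_lit 19)) (T.l (nat_lit 49) (nat_lit 29))))) (T.n (T.n (T.n (T.l (nat_lit 50) (nat_lit 9)) (T.l (nat_lit 50) (nat_lit 10))) (T.n (T.l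 (nat_lit 51) (nat_lit 22)) (T.l (nat_lit 51) (nat_lit 28)))) (T.n (T.n (T.l (nat_lit 54) (nat_lit 16)) (T.l (nat_lit 54) (nat_lit 34))) (T.n (T.l (nat_lit 57) (nat_lit 2)) (T.l (nat_lit 57) (nat_lit 5)))))))
def T89_1 : T := T.n (T.n (T.n (T.n (T.n (T.n (T.l (nat_lit 12) (nat_lit 16)) (T.l (nat_lit 12) (nat_lit 17))) (T.n (T.l (nat_lit 12) (nat_lit 36)) (T.l (nat_lit 12) (nat_lit 48)))) (T.n (T.n (T.l (nat_lit 15) (nat_lit 19)) (T.l (nat_lit 15) (nat_lit 22))) (T.n (T.l (nat_lit 15) (nat_lit 39)) (T.l (nat_lit 15) (nat_lit 51))))) (T.n (T.n (T.n (T.l (nat_lit 16) (nat_lit 12)) (T.l (nat_lit 16) (nat_lit 55))) (T.n (T.l (nat_lit 17) (nat_lit 12)) (T.l (nat_lit 17) (nat_lit 43)))) (T.n (T.n (T.l (nat_lit 19) (nat_lit 15)) (T.l (nat_lit 19) (nat_lit 52))) (T.n (T.l (nat_lit 22) (nat_lit 15)) (T.l (nat_lit 22) (nat_lit 40)))))) (T.n (T.n (T.n (T.n (T.l (nat_lit 24) (nat_lit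 28)) (T.l (nat_lit 24) (nat_lit 29))) (T.n (T.l (nat_lit 24) (nat_lit 37)) (T.l (nat_lit 24) (nat_lit 49)))) (T.n (T.n (T.l (nat_lit 27) (nat_lit 31)) (T.l (nat_lit 27) (nat_lit 34))) (T.n (T.l (nat_lit 27) (nat_lit 42)) (T.l (nat_lit 27) (nat_lit 54))))) (T.n (T.n (T.n (T.l (nat_lit 28) (nat_lit 24)) (T.l (nat_lit 28) (nat_lit 52))) (T.n (T.l (nat_lit 29) (nat_lit 24)) (T.l (nat_lit 29) (nat_lit 40)))) (T.n (T.n (T.l (nat_lit 31) (nat_lit 27)) (T.l (nat_lit 31) (nat_lit 55))) (T.n (T.l (nat_lit 34) (nat_lit 27)) (T.l (nat_lit 34) (nat_lit 43))))))) (T.n (T.n (T.n (T.n (T.n (T.l (nat_lit 36) (nat_lit 12)) (T.l (nat_lit 36) (nat_lit 43))) (T.n (T.l (nat_lit 37) (nat_lit 24)) (T.l (nat_lit 37) (nat_lit 40)))) (T.n (T.n (T.l (nat_lit 39) (nat_lit 15)) (T.l (nat_lit 39) (nat_lit 40))) (T.n (T.l (nat_lit 40) (nat_lit 22)) (T.l (nat_lit 40) (nat_lit 29))))) (T.n (T.n (T.n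 (T.l (nat_lit 40) (nat_lit 37)) (T.l (nat_lit 40) (nat_lit 39))) (T.n (T.l (nat_lit 42) (nat_lit 27)) (T.l (nat_lit 42) (nat_lit 43)))) (T.n (T.n (T.l (nat_lit 43) (nat_lit 17)) (T.l (nat_lit 43) (nat_lit 34))) (T.n (T.l (nat_lit 43) (nat_lit 36)) (T.l (nat_lit 43) (nat_lit 42)))))) (T.n (T.n (T.n (T.n (T.l (nat_lit 48) (nat_lit 12)) (T.l (nat_lit 48) (nat_lit 55))) (T.n (T.l (nat_lit 49) (nat_lit 24)) (T.l (nat_lit 49) (nat_lit 52)))) (T.n (T.n (T.l (nat_lit 51) (nat_lit 15)) (T.l (nat_lit 51) (nat_lit 52))) (T.n (T.l (nat_lit 52) (nat_lit 19)) (T.l (nat_lit 52) (nat_lit 28))))) (T.n (T.n (T.n (T.l (nat_lit 52) (nat_lit 49)) (T.l (nat_lit 52) (nat_lit 51))) (T.n (T.l (nat_lit 54) (nat_lit 27)) (T.l (nat_lit 54) (nat_lit 55)))) (T.n (T.n (T.l (nat_lit 55) (nat_lit 16)) (T.l (nat_lit 55) (nat_lit 31))) (T.n (T.l (nat_lit 55) (nat_lit 48)) (T.l (nat_lit 55) (nat_lit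 54)))))))
def T92_1 : T := T.n (T.n (T.n (T.n (T.n (T.n (T.l (nat_lit 12) (nat_lit 28)) (T.l (nat_lit 12) (nat_lit 29))) (T.n (T.l (nat_lit 12) (nat_lit 39)) (T.l (nat_lit 12) (nat_lit 51)))) (T.n (T.n (T.l (nat_lit 15) (nat_lit 31)) (T.l (nat_lit 15) (nat_lit 34))) (T.n (T.l (nat_lit 15) (nat_lit 36)) (T.l (nat_lit 15) (nat_lit 48))))) (T.n (T.n (T.n (T.l (nat_lit 16) (nat_lit 24)) (T.l (nat_lit 16) (nat_lit 52))) (T.n (T.l (nat_lit 17) (nat_lit 24)) (T.l (nat_lit 17) (nat_lit 40)))) (T.n (T.n (T.l (nat_lit 19) (nat_lit 27)) (T.l (nat_lit 19) (nat_lit 55))) (T.n (T.l (nat_lit 22) (nat_lit 27)) (T.l (nat_lit 22) (nat_lit 43)))))) (T.n (T.n (T.n (T.n (T.l (nat_lit 24) (nat_lit 16)) (T.l (nat_lit 24) (nat_lit 17))) (T.n (T.l (nat_lit 24) (nat_lit 42)) (T.l (nat_lit 24) (nat_lit 54)))) (T.n (T.n (T.l (nat_lit 27) (nat_lit 19)) (T.l (nat_lit 27) (nat_lit 22))) (T.n (T.l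 (nat_lit 27) (nat_lit 37)) (T.l (nat_lit 27) (nat_lit 49))))) (T.n (T.n (T.n (T.l (nat_lit 28) (nat_lit 12)) (T.l (nat_lit 28) (nat_lit 55))) (T.n (T.l (nat_lit 29) (nat_lit 12)) (T.l (nat_lit 29) (nat_lit 43)))) (T.n (T.n (T.l (nat_lit 31) (nat_lit 15)) (T.l (nat_lit 31) (nat_lit 52))) (T.n (T.l (nat_lit 34) (nat_lit 15)) (T.l (nat_lit 34) (nat_lit 40))))))) (T.n (T.n (T.n (T.n (T.n (T.l (nat_lit 36) (nat_lit 15)) (T.l (nat_lit 36) (nat_lit 52))) (T.n (T.l (nat_lit 37) (nat_lit 27)) (T.l (nat_lit 37) (nat_lit 55)))) (T.n (T.n (T.l (nat_lit 39) (nat_lit 12)) (T.l (nat_lit 39) (nat_lit 55))) (T.n (T.l (nat_lit 40) (nat_lit 17)) (T.l (nat_lit 40) (nat_lit 34))))) (T.n (T.n (T.n (T.l (nat_lit 40) (nat_lit 48)) (T.l (nat_lit 40) (nat_lit 54))) (T.n (T.l (nat_lit 42) (nat_lit 24)) (T.l (nat_lit 42) (nat_lit 52)))) (T.n (T.n (T.l (nat_lit 43) (nat_lit 22)) (T.l (nat_lit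 43) (nat_lit 29))) (T.n (T.l (nat_lit 43) (nat_lit 49)) (T.l (nat_lit 43) (nat_lit 51)))))) (T.n (T.n (T.n (T.n (T.l (nat_lit 48) (nat_lit 15)) (T.l (nat_lit 48) (nat_lit 40))) (T.n (T.l (nat_lit 49) (nat_lit 27)) (T.l (nat_lit 49) (nat_lit 43)))) (T.n (T.n (T.l (nat_lit 51) (nat_lit 12)) (T.l (nat_lit 51) (nat_lit 43))) (T.n (T.l (nat_lit 52) (nat_lit 16)) (T.l (nat_lit 52) (nat_lit 31))))) (T.n (T.n (T.n (T.l (nat_lit 52) (nat_lit 36)) (T.l (nat_lit 52) (nat_lit 42))) (T.n (T.l (nat_lit 54) (nat_lit 24)) (T.l (nat_lit 54) (nat_lit 40)))) (T.n (T.n (T.l (nat_lit 55) (nat_lit 19)) (T.l (nat_lit 55) (nat_lit 28))) (T.n (T.l (nat_lit 55) (nat_lit 37)) (T.l (nat_lit 55) (nat_lit 39)))))))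
def T93_1 : T := T.n (T.n (T.n (T.n (T.n (T.n (T.n (T.l (nat_lit 12) (nat_lit 20)) (T.n (T.l (nat_lit 12) (nat_lit 23)) (T.l (nat_lit 12) (nat_lit 38)))) (T.n (T.l (nat_lit 12) (nat_lit 44)) (T.n (T.l (nat_lit 12) (nat_lit 46)) (T.l (nat_lit 12) (nat_lit 50))))) (T.n (T.n (T.l (nat_lit 12) (nat_lit 56)) (T.n (T.l (nat_lit 12) (nat_lit 58)) (T.l (nat_lit 13) (nat_lit 22)))) (T.n (T.l (nat_lit 13) (nat_lit 40)) (T.n (T.l (nat_lit 13) (nat_lit 49)) (T.l (nat_lit 13) (nat_lit 52)))))) (T.n (T.n (T.n (T.l (nat_lit 14) (nat_lit 19)) (T.n (T.l (nat_lit 14) (nat_lit 37)) (T.l (nat_lit 14) (nat_lit 40)))) (T.n (T.l (nat_lit 14) (nat_lit 52)) (T.n (T.l (nat_lit 15) (nat_lit 20)) (T.l (nat_lit 15) (nat_lit 23))))) (T.n (T.n (T.l (nat_lit 15) (nat_lit 41)) (T.n (T.l (nat_lit 15) (nat_lit 45)) (T.l (nat_lit 15) (nat_lit 47)))) (T.n (T.l (nat_lit 15) (nat_lit 53)) (T.n (T.l (nat_lit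 15) (nat_lit 57)) (T.l (nat_lit 15) (nat_lit 59))))))) (T.n (T.n (T.n (T.n (T.l (nat_lit 16) (nat_lit 21)) (T.n (T.l (nat_lit 16) (nat_lit 46)) (T.l (nat_lit 17) (nat_lit 18)))) (T.n (T.l (nat_lit 17) (nat_lit 58)) (T.n (T.l (nat_lit 18) (nat_lit 17)) (T.l (nat_lit 18) (nat_lit 43))))) (T.n (T.n (T.l (nat_lit 18) (nat_lit 54)) (T.n (T.l (nat_lit 18) (nat_lit 55)) (T.l (nat_lit 19) (nat_lit 14)))) (T.n (T.l (nat_lit 19) (nat_lit 41)) (T.n (T.l (nat_lit 20) (nat_lit 12)) (T.l (nat_lit 20) (nat_lit 15)))))) (T.n (T.n (T.n (T.l (nat_lit 20) (nat_lit 40)) (T.n (T.l (nat_lit 20) (nat_lit 55)) (T.l (nat_lit 21) (nat_lit 16)))) (T.n (T.l (nat_lit 21) (nat_lit 42)) (T.n (T.l (nat_lit 21) (nat_lit 43)) (T.l (nat_lit 21) (nat_lit 55))))) (T.n (T.n (T.l (nat_lit 22) (nat_lit 13)) (T.n (T.l (nat_lit 22) (nat_lit 53)) (T.l (nat_lit 23) (nat_lit 12)))) (T.n (T.l (nat_lit 23) (nat_lit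 15)) (T.n (T.l (nat_lit 23) (nat_lit 43)) (T.l (nat_lit 23) (nat_lit 52)))))))) (T.n (T.n (T.n (T.n (T.n (T.l (nat_lit 24) (nat_lit 32)) (T.n (T.l (nat_lit 24) (nat_lit 35)) (T.l (nat_lit 24) (nat_lit 38)))) (T.n (T.l (nat_lit 24) (nat_lit 41)) (T.n (T.l (nat_lit 24) (nat_lit 47)) (T.l (nat_lit 24) (nat_lit 50))))) (T.n (T.n (T.l (nat_lit 24) (nat_lit 53)) (T.n (T.l (nat_lit 24) (nat_lit 59)) (T.l (nat_lit 25) (nat_lit 34)))) (T.n (T.l (nat_lit 25) (nat_lit 43)) (T.n (T.l (nat_lit 25) (nat_lit 48)) (T.l (nat_lit 25) (nat_lit 55)))))) (T.n (T.n (T.n (T.l (nat_lit 26) (nat_lit 31)) (T.n (T.l (nat_lit 26) (nat_lit 36)) (T.l (nat_lit 26) (nat_lit 43)))) (T.n (T.l (nat_lit 26) (nat_lit 55)) (T.n (T.l (nat_lit 27) (nat_lit 32)) (T.l (nat_lit 27) (nat_lit 35))))) (T.n (T.n (T.l (nat_lit 27) (nat_lit 44)) (T.n (T.l (nat_lit 27) (nat_lit 45)) (T.l (nat_lit 27) (nat_lit 46))))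 (T.n (T.l (nat_lit 27) (nat_lit 56)) (T.n (T.l (nat_lit 27) (nat_lit 57)) (T.l (nat_lit 27) (nat_lit 58))))))) (T.n (T.n (T.n (T.n (T.l (nat_lit 28) (nat_lit 33)) (T.n (T.l (nat_lit 28) (nat_lit 47)) (T.l (nat_lit 29) (nat_lit 30)))) (T.n (T.l (nat_lit 29) (nat_lit 59)) (T.n (T.l (nat_lit 30) (nat_lit 29)) (T.l (nat_lit 30) (nat_lit 40))))) (T.n (T.n (T.l (nat_lit 30) (nat_lit 51)) (T.n (T.l (nat_lit 30) (nat_lit 52)) (T.l (nat_lit 31) (nat_lit 26)))) (T.n (T.l (nat_lit 31) (nat_lit 44)) (T.n (T.l (nat_lit 32) (nat_lit 24)) (T.l (nat_lit 32) (nat_lit 27)))))) (T.n (T.n (T.n (T.l (nat_lit 32) (nat_lit 43)) (T.n (T.l (nat_lit 32) (nat_lit 52)) (T.l (nat_lit 33) (nat_lit 28)))) (T.n (T.l (nat_lit 33) (nat_lit 39)) (T.n (T.l (nat_lit 33) (nat_lit 40)) (T.l (nat_lit 33) (nat_lit 52))))) (T.n (T.n (T.l (nat_lit 34) (nat_lit 25)) (T.n (T.l (nat_lit 34) (nat_lit 56)) (T.l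 (nat_lit 35) (nat_lit 24)))) (T.n (T.l (nat_lit 35) (nat_lit 27)) (T.n (T.l (nat_lit 35) (nat_lit 40)) (T.l (nat_lit 35) (nat_lit 55))))))))) (T.n (T.n (T.n (T.n (T.n (T.n (T.l (nat_lit 36) (nat_lit 26)) (T.n (T.l (nat_lit 36) (nat_lit 44)) (T.l (nat_lit 37) (nat_lit 14)))) (T.n (T.l (nat_lit 37) (nat_lit 41)) (T.n (T.l (nat_lit 38) (nat_lit 12)) (T.l (nat_lit 38) (nat_lit 24))))) (T.n (T.n (T.l (nat_lit 38) (nat_lit 40)) (T.n (T.l (nat_lit 38) (nat_lit 43)) (T.l (nat_lit 39) (nat_lit 33)))) (T.n (T.l (nat_lit 39) (nat_lit 47)) (T.n (T.l (nat_lit 40) (nat_lit 13)) (T.l (nat_lit 40) (nat_lit 14)))))) (T.n (T.n (T.n (T.l (nat_lit 40) (nat_lit 20)) (T.n (T.l (nat_lit 40) (nat_lit 30)) (T.l (nat_lit 40) (nat_lit 33)))) (T.n (T.l (nat_lit 40) (nat_lit 35)) (T.n (T.l (nat_lit 40) (nat_lit 38)) (T.l (nat_lit 40) (nat_lit 45))))) (T.n (T.n (T.l (nat_lit 41) (nat_lit 15))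 (T.n (T.l (nat_lit 41) (nat_lit 19)) (T.l (nat_lit 41) (nat_lit 24)))) (T.n (T.l (nat_lit 41) (nat_lit 37)) (T.n (T.l (nat_lit 42) (nat_lit 21)) (T.l (nat_lit 42) (nat_lit 46))))))) (T.n (T.n (T.n (T.n (T.l (nat_lit 43) (nat_lit 18)) (T.n (T.l (nat_lit 43) (nat_lit 21)) (T.l (nat_lit 43) (nat_lit 23)))) (T.n (T.l (nat_lit 43) (nat_lit 25)) (T.n (T.l (nat_lit 43) (nat_lit 26)) (T.l (nat_lit 43) (nat_lit 32))))) (T.n (T.n (T.l (nat_lit 43) (nat_lit 38)) (T.n (T.l (nat_lit 43) (nat_lit 45)) (T.l (nat_lit 44) (nat_lit 12)))) (T.n (T.l (nat_lit 44) (nat_lit 27)) (T.n (T.l (nat_lit 44) (nat_lit 31)) (T.l (nat_lit 44) (nat_lit 36)))))) (T.n (T.n (T.n (T.l (nat_lit 45) (nat_lit 15)) (T.n (T.l (nat_lit 45) (nat_lit 27)) (T.l (nat_lit 45) (nat_lit 40)))) (T.n (T.l (nat_lit 45) (nat_lit 43)) (T.n (T.l (nat_lit 46) (nat_lit 12)) (T.l (nat_lit 46) (nat_lit 16))))) (T.n (T.n (T.l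 (nat_lit 46) (nat_lit 27)) (T.n (T.l (nat_lit 46) (nat_lit 42)) (T.l (nat_lit 47) (nat_lit 15)))) (T.n (T.l (nat_lit 47) (nat_lit 24)) (T.n (T.l (nat_lit 47) (nat_lit 28)) (T.l (nat_lit 47) (nat_lit 39)))))))) (T.n (T.n (T.n (T.n (T.n (T.l (nat_lit 48) (nat_lit 25)) (T.n (T.l (nat_lit 48) (nat_lit 56)) (T.l (nat_lit 49) (nat_lit 13)))) (T.n (T.l (nat_lit 49) (nat_lit 53)) (T.n (T.l (nat_lit 50) (nat_lit 12)) (T.l (nat_lit 50) (nat_lit 24))))) (T.n (T.n (T.l (nat_lit 50) (nat_lit 52)) (T.n (T.l (nat_lit 50) (nat_lit 55)) (T.l (nat_lit 51) (nat_lit 30)))) (T.n (T.l (nat_lit 51) (nat_lit 59)) (T.n (T.l (nat_lit 52) (nat_lit 13)) (T.l (nat_lit 52) (nat_lit 14)))))) (T.n (T.n (T.n (T.l (nat_lit 52) (nat_lit 23)) (T.n (T.l (nat_lit 52) (nat_lit 30)) (T.l (nat_lit 52) (nat_lit 32)))) (T.n (T.l (nat_lit 52) (nat_lit 33)) (T.n (T.l (nat_lit 52) (nat_lit 50)) (T.l (nat_lit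 52) (nat_lit 57))))) (T.n (T.n (T.l (nat_lit 53) (nat_lit 15)) (T.n (T.l (nat_lit 53) (nat_lit 22)) (T.l (nat_lit 53) (nat_lit 24)))) (T.n (T.l (nat_lit 53) (nat_lit 49)) (T.n (T.l (nat_lit 54) (nat_lit 18)) (T.l (nat_lit 54) (nat_lit 58))))))) (T.n (T.n (T.n (T.n (T.l (nat_lit 55) (nat_lit 18)) (T.n (T.l (nat_lit 55) (nat_lit 20)) (T.l (nat_lit 55) (nat_lit 21)))) (T.n (T.l (nat_lit 55) (nat_lit 25)) (T.n (T.l (nat_lit 55) (nat_lit 26)) (T.l (nat_lit 55) (nat_lit 35))))) (T.n (T.n (T.l (nat_lit 55) (nat_lit 50)) (T.n (T.l (nat_lit 55) (nat_lit 57)) (T.l (nat_lit 56) (nat_lit 12)))) (T.n (T.l (nat_lit 56) (nat_lit 27)) (T.n (T.l (nat_lit 56) (nat_lit 34)) (T.l (nat_lit 56) (nat_lit 48)))))) (T.n (T.n (T.n (T.l (nat_lit 57) (nat_lit 15)) (T.n (T.l (nat_lit 57) (nat_lit 27)) (T.l (nat_lit 57) (nat_lit 52)))) (T.n (T.l (nat_lit 57) (nat_lit 55)) (T.n (T.l (nat_lit 58)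 (nat_lit 12)) (T.l (nat_lit 58) (nat_lit 17))))) (T.n (T.n (T.l (nat_lit 58) (nat_lit 27)) (T.n (T.l (nat_lit 58) (nat_lit 54)) (T.l (nat_lit 59) (nat_lit 15)))) (T.n (T.l (nat_lit 59) (nat_lit 24)) (T.n (T.l (nat_lit 59) (nat_lit 29)) (T.l (nat_lit 59) (nat_lit 51)))))))))
def T94_1 : T := T.n (T.n (T.n (T.n (T.n (T.n (T.n (T.l (nat_lit 8) (nat_lit 12)) (T.l (nat_lit 8) (nat_lit 14))) (T.n (T.l (nat_lit 8) (nat_lit 15)) (T.l (nat_lit 8) (nat_lit 17)))) (T.n (T.n (T.l (nat_lit 8) (nat_lit 18)) (T.l (nat_lit 8) (nat_lit 19))) (T.n (T.l (nat_lit 8) (nat_lit 24)) (T.l (nat_lit 8) (nat_lit 26))))) (T.n (T.n (T.n (T.l (nat_lit 8) (nat_lit 27)) (T.l (nat_lit 8) (nat_lit 29))) (T.n (T.l (nat_lit 8) (nat_lit 30)) (T.l (nat_lit 8) (nat_lit 31)))) (T.n (T.n (T.l (nat_lit 8) (nat_lit 36)) (T.l (nat_lit 8) (nat_lit 37))) (T.n (T.l (nat_lit 8) (nat_lit 40)) (T.l (nat_lit 8) (nat_lit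 41)))))) (T.n (T.n (T.n (T.n (T.l (nat_lit 8) (nat_lit 43)) (T.l (nat_lit 8) (nat_lit 44))) (T.n (T.l (nat_lit 8) (nat_lit 51)) (T.l (nat_lit 8) (nat_lit 52)))) (T.n (T.n (T.l (nat_lit 8) (nat_lit 54)) (T.l (nat_lit 8) (nat_lit 55))) (T.n (T.l (nat_lit 8) (nat_lit 58)) (T.l (nat_lit 8) (nat_lit 59))))) (T.n (T.n (T.n (T.l (nat_lit 11) (nat_lit 12)) (T.l (nat_lit 11) (nat_lit 13))) (T.n (T.l (nat_lit 11) (nat_lit 15)) (T.l (nat_lit 11) (nat_lit 16)))) (T.n (T.n (T.l (nat_lit 11) (nat_lit 21)) (T.l (nat_lit 11) (nat_lit 22))) (T.n (T.l (nat_lit 11) (nat_lit 24)) (T.l (nat_lit 11) (nat_lit 25))))))) (T.n (T.n (T.n (T.n (T.n (T.l (nat_lit 11) (nat_lit 27)) (T.l (nat_lit 11) (nat_lit 28))) (T.n (T.l (nat_lit 11) (nat_lit 33)) (T.l (nat_lit 11) (nat_lit 34)))) (T.n (T.n (T.l (nat_lit 11) (nat_lit 39)) (T.l (nat_lit 11) (nat_lit 40))) (T.n (T.l (nat_lit 11) (nat_lit 42))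 (T.l (nat_lit 11) (nat_lit 43))))) (T.n (T.n (T.n (T.l (nat_lit 11) (nat_lit 46)) (T.l (nat_lit 11) (nat_lit 47))) (T.n (T.l (nat_lit 11) (nat_lit 48)) (T.l (nat_lit 11) (nat_lit 49)))) (T.n (T.n (T.l (nat_lit 11) (nat_lit 52)) (T.l (nat_lit 11) (nat_lit 53))) (T.n (T.l (nat_lit 11) (nat_lit 55)) (T.l (nat_lit 11) (nat_lit 56)))))) (T.n (T.n (T.n (T.n (T.l (nat_lit 12) (nat_lit 8)) (T.l (nat_lit 12) (nat_lit 11))) (T.n (T.l (nat_lit 12) (nat_lit 47)) (T.l (nat_lit 12) (nat_lit 59)))) (T.n (T.n (T.l (nat_lit 13) (nat_lit 11)) (T.l (nat_lit 13) (nat_lit 43))) (T.n (T.l (nat_lit 14) (nat_lit 8)) (T.l (nat_lit 14) (nat_lit 55))))) (T.n (T.n (T.n (T.l (nat_lit 15) (nat_lit 8)) (T.l (nat_lit 15) (nat_lit 11))) (T.n (T.l (nat_lit 15) (nat_lit 44)) (T.l (nat_lit 15) (nat_lit 56)))) (T.n (T.n (T.l (nat_lit 16) (nat_lit 11)) (T.l (nat_lit 17) (nat_lit 8))) (T.n (T.l (nat_lit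 18) (nat_lit 8)) (T.l (nat_lit 18) (nat_lit 40)))))))) (T.n (T.n (T.n (T.n (T.n (T.n (T.l (nat_lit 19) (nat_lit 8)) (T.l (nat_lit 21) (nat_lit 11))) (T.n (T.l (nat_lit 21) (nat_lit 52)) (T.l (nat_lit 22) (nat_lit 11)))) (T.n (T.n (T.l (nat_lit 24) (nat_lit 8)) (T.l (nat_lit 24) (nat_lit 11))) (T.n (T.l (nat_lit 24) (nat_lit 46)) (T.l (nat_lit 24) (nat_lit 58))))) (T.n (T.n (T.n (T.l (nat_lit 25) (nat_lit 11)) (T.l (nat_lit 25) (nat_lit 40))) (T.n (T.l (nat_lit 26) (nat_lit 8)) (T.l (nat_lit 26) (nat_lit 52)))) (T.n (T.n (T.l (nat_lit 27) (nat_lit 8)) (T.l (nat_lit 27) (nat_lit 11))) (T.n (T.l (nat_lit 27) (nat_lit 41)) (T.l (nat_lit 27) (nat_lit 53)))))) (T.n (T.n (T.n (T.n (T.l (nat_lit 28) (nat_lit 11)) (T.l (nat_lit 29) (nat_lit 8))) (T.n (T.l (nat_lit 30) (nat_lit 8)) (T.l (nat_lit 30) (nat_lit 43)))) (T.n (T.n (T.l (nat_lit 31) (nat_lit 8)) (T.l (nat_lit 33)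 (nat_lit 11))) (T.n (T.l (nat_lit 33) (nat_lit 55)) (T.l (nat_lit 34) (nat_lit 11))))) (T.n (T.n (T.n (T.l (nat_lit 36) (nat_lit 8)) (T.l (nat_lit 37) (nat_lit 8))) (T.n (T.l (nat_lit 39) (nat_lit 11)) (T.l (nat_lit 40) (nat_lit 8)))) (T.n (T.n (T.l (nat_lit 40) (nat_lit 11)) (T.l (nat_lit 40) (nat_lit 18))) (T.n (T.l (nat_lit 40) (nat_lit 25)) (T.l (nat_lit 41) (nat_lit 8))))))) (T.n (T.n (T.n (T.n (T.n (T.l (nat_lit 41) (nat_lit 27)) (T.l (nat_lit 42) (nat_lit 11))) (T.n (T.l (nat_lit 43) (nat_lit 8)) (T.l (nat_lit 43) (nat_lit 11)))) (T.n (T.n (T.l (nat_lit 43) (nat_lit 13)) (T.l (nat_lit 43) (nat_lit 30))) (T.n (T.l (nat_lit 44) (nat_lit 8)) (T.l (nat_lit 44) (nat_lit 15))))) (T.n (T.n (T.n (T.l (nat_lit 46) (nat_lit 11)) (T.l (nat_lit 46) (nat_lit 24))) (T.n (T.l (nat_lit 47) (nat_lit 11)) (T.l (nat_lit 47) (nat_lit 12)))) (T.n (T.n (T.l (nat_lit 48) (nat_lit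 11)) (T.l (nat_lit 49) (nat_lit 11))) (T.n (T.l (nat_lit 51) (nat_lit 8)) (T.l (nat_lit 52) (nat_lit 8)))))) (T.n (T.n (T.n (T.n (T.l (nat_lit 52) (nat_lit 11)) (T.l (nat_lit 52) (nat_lit 21))) (T.n (T.l (nat_lit 52) (nat_lit 26)) (T.l (nat_lit 53) (nat_lit 11)))) (T.n (T.n (T.l (nat_lit 53) (nat_lit 27)) (T.l (nat_lit 54) (nat_lit 8))) (T.n (T.l (nat_lit 55) (nat_lit 8)) (T.l (nat_lit 55) (nat_lit 11))))) (T.n (T.n (T.n (T.l (nat_lit 55) (nat_lit 14)) (T.l (nat_lit 55) (nat_lit 33))) (T.n (T.l (nat_lit 56) (nat_lit 11)) (T.l (nat_lit 56) (nat_lit 15)))) (T.n (T.n (T.l (nat_lit 58) (nat_lit 8)) (T.l (nat_lit 58) (nat_lit 24))) (T.n (T.l (nat_lit 59) (nat_lit 8)) (T.l (nat_lit 59) (nat_lit 12))))))))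
def T95_1 : T := T.n (T.n (T.n (T.n (T.n (T.n (T.l (nat_lit 12) (nat_lit 32)) (T.l (nat_lit 12) (nat_lit 35))) (T.n (T.l (nat_lit 12) (nat_lit 45)) (T.l (nat_lit 12) (nat_lit 57)))) (T.n (T.n (T.l (nat_lit 15) (nat_lit 32)) (T.l (nat_lit 15) (nat_lit 35))) (T.n (T.l (nat_lit 15) (nat_lit 38)) (T.l (nat_lit 15) (nat_lit 50))))) (T.n (T.n (T.n (T.l (nat_lit 20) (nat_lit 24)) (T.l (nat_lit 20) (nat_lit 27))) (T.n (T.l (nat_lit 20) (nat_lit 43)) (T.l (nat_lit 20) (nat_lit 52)))) (T.n (T.n (T.l (nat_lit 23) (nat_lit 24)) (T.l (nat_lit 23) (nat_lit 27))) (T.n (T.l (nat_lit 23) (nat_lit 40)) (T.l (nat_lit 23) (nat_lit 55)))))) (T.n (T.n (T.n (T.n (T.l (nat_lit 24) (nat_lit 20)) (T.l (nat_lit 24) (nat_lit 23))) (T.n (T.l (nat_lit 24) (nat_lit 45)) (T.l (nat_lit 24) (nat_lit 57)))) (T.n (T.n (T.l (nat_lit 27) (nat_lit 20)) (T.l (nat_lit 27) (nat_lit 23))) (T.n (T.l (nat_lit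 27) (nat_lit 38)) (T.l (nat_lit 27) (nat_lit 50))))) (T.n (T.n (T.n (T.l (nat_lit 32) (nat_lit 12)) (T.l (nat_lit 32) (nat_lit 15))) (T.n (T.l (nat_lit 32) (nat_lit 40)) (T.l (nat_lit 32) (nat_lit 55)))) (T.n (T.n (T.l (nat_lit 35) (nat_lit 12)) (T.l (nat_lit 35) (nat_lit 15))) (T.n (T.l (nat_lit 35) (nat_lit 43)) (T.l (nat_lit 35) (nat_lit 52))))))) (T.n (T.n (T.n (T.n (T.n (T.l (nat_lit 38) (nat_lit 15)) (T.l (nat_lit 38) (nat_lit 27))) (T.n (T.l (nat_lit 38) (nat_lit 52)) (T.l (nat_lit 38) (nat_lit 55)))) (T.n (T.n (T.l (nat_lit 40) (nat_lit 23)) (T.l (nat_lit 40) (nat_lit 32))) (T.n (T.l (nat_lit 40) (nat_lit 50)) (T.l (nat_lit 40) (nat_lit 57))))) (T.n (T.n (T.n (T.l (nat_lit 43) (nat_lit 20)) (T.l (nat_lit 43) (nat_lit 35))) (T.n (T.l (nat_lit 43) (nat_lit 50)) (T.l (nat_lit 43) (nat_lit 57)))) (T.n (T.n (T.l (nat_lit 45) (nat_lit 12)) (T.l (nat_lit 45) (nat_lit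 24))) (T.n (T.l (nat_lit 45) (nat_lit 52)) (T.l (nat_lit 45) (nat_lit 55)))))) (T.n (T.n (T.n (T.n (T.l (nat_lit 50) (nat_lit 15)) (T.l (nat_lit 50) (nat_lit 27))) (T.n (T.l (nat_lit 50) (nat_lit 40)) (T.l (nat_lit 50) (nat_lit 43)))) (T.n (T.n (T.l (nat_lit 52) (nat_lit 20)) (T.l (nat_lit 52) (nat_lit 35))) (T.n (T.l (nat_lit 52) (nat_lit 38)) (T.l (nat_lit 52) (nat_lit 45))))) (T.n (T.n (T.n (T.l (nat_lit 55) (nat_lit 23)) (T.l (nat_lit 55) (nat_lit 32))) (T.n (T.l (nat_lit 55) (nat_lit 38)) (T.l (nat_lit 55) (nat_lit 45)))) (T.n (T.n (T.l (nat_lit 57) (nat_lit 12)) (T.l (nat_lit 57) (nat_lit 24))) (T.n (T.l (nat_lit 57) (nat_lit 40)) (T.l (nat_lit 57) (nat_lit 43)))))))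
def T96_1 : T := T.n (T.n (T.n (T.n (T.n (T.l (nat_lit 16) (nat_lit 20)) (T.l (nat_lit 17) (nat_lit 23))) (T.n (T.l (nat_lit 19) (nat_lit 23)) (T.l (nat_lit 20) (nat_lit 16)))) (T.n (T.n (T.l (nat_lit 20) (nat_lit 22)) (T.l (nat_lit 22) (nat_lit 20))) (T.n (T.l (nat_lit 23) (nat_lit 17)) (T.l (nat_lit 23) (nat_lit 19))))) (T.n (T.n (T.n (T.l (nat_lit 28) (nat_lit 32)) (T.l (nat_lit 29) (nat_lit 35))) (T.n (T.l (nat_lit 31) (nat_lit 35)) (T.l (nat_lit 32) (nat_lit 28)))) (T.n (T.n (T.l (nat_lit 32) (nat_lit 34)) (T.l (nat_lit 34) (nat_lit 32))) (T.n (T.l (nat_lit 35) (nat_lit 29)) (T.l (nat_lit 35) (nat_lit 31)))))) (T.n (T.n (T.n (T.n (T.l (nat_lit 36) (nat_lit 38)) (T.l (nat_lit 37) (nat_lit 38))) (T.n (T.l (nat_lit 38) (nat_lit 36)) (T.l (nat_lit 38) (nat_lit 37)))) (T.n (T.n (T.l (nat_lit 39) (nat_lit 45)) (T.l (nat_lit 42) (nat_lit 45))) (T.n (T.l (nat_lit 45)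 (nat_lit 39)) (T.l (nat_lit 45) (nat_lit 42))))) (T.n (T.n (T.n (T.l (nat_lit 48) (nat_lit 50)) (T.l (nat_lit 49) (nat_lit 50))) (T.n (T.l (nat_lit 50) (nat_lit 48)) (T.l (nat_lit 50) (nat_lit 49)))) (T.n (T.n (T.l (nat_lit 51) (nat_lit 57)) (T.l (nat_lit 54) (nat_lit 57))) (T.n (T.l (nat_lit 57) (nat_lit 51)) (T.l (nat_lit 57) (nat_lit 54))))))
def T100_1 : T := T.n (T.n (T.n (T.n (T.n (T.n (T.l (nat_lit 16) (nat_lit 23)) (T.l (nat_lit 16) (nat_lit 35))) (T.n (T.l (nat_lit 17) (nat_lit 20)) (T.l (nat_lit 17) (nat_lit 32)))) (T.n (T.n (T.l (nat_lit 19) (nat_lit 20)) (T.l (nat_lit 19) (nat_lit 32))) (T.n (T.l (nat_lit 20) (nat_lit 17)) (T.l (nat_lit 20) (nat_lit 19))))) (T.n (T.n (T.n (T.l (nat_lit 20) (nat_lit 29)) (T.l (nat_lit 20) (nat_lit 31))) (T.n (T.l (nat_lit 22) (nat_lit 23)) (T.l (nat_lit 22) (nat_lit 35)))) (T.n (T.n (T.l (nat_lit 23) (nat_lit 16)) (T.l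 (nat_lit 23) (nat_lit 22))) (T.n (T.l (nat_lit 23) (nat_lit 28)) (T.l (nat_lit 23) (nat_lit 34)))))) (T.n (T.n (T.n (T.n (T.l (nat_lit 28) (nat_lit 23)) (T.l (nat_lit 28) (nat_lit 35))) (T.n (T.l (nat_lit 29) (nat_lit 20)) (T.l (nat_lit 29) (nat_lit 32)))) (T.n (T.n (T.l (nat_lit 31) (nat_lit 20)) (T.l (nat_lit 31) (nat_lit 32))) (T.n (T.l (nat_lit 32) (nat_lit 17)) (T.l (nat_lit 32) (nat_lit 19))))) (T.n (T.n (T.n (T.l (nat_lit 32) (nat_lit 29)) (T.l (nat_lit 32) (nat_lit 31))) (T.n (T.l (nat_lit 34) (nat_lit 23)) (T.l (nat_lit 34) (nat_lit 35)))) (T.n (T.n (T.l (nat_lit 35) (nat_lit 16)) (T.l (nat_lit 35) (nat_lit 22))) (T.n (T.l (nat_lit 35) (nat_lit 28)) (T.l (nat_lit 35) (nat_lit 34))))))) (T.n (T.n (T.n (T.n (T.n (T.l (nat_lit 36) (nat_lit 45)) (T.l (nat_lit 36) (nat_lit 50))) (T.n (T.l (nat_lit 37) (nat_lit 45)) (T.l (nat_lit 37) (nat_lit 50)))) (T.n (T.n (T.l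 (nat_lit 38) (nat_lit 39)) (T.l (nat_lit 38) (nat_lit 42))) (T.n (T.l (nat_lit 38) (nat_lit 48)) (T.l (nat_lit 38) (nat_lit 49))))) (T.n (T.n (T.n (T.l (nat_lit 39) (nat_lit 38)) (T.l (nat_lit 39) (nat_lit 57))) (T.n (T.l (nat_lit 42) (nat_lit 38)) (T.l (nat_lit 42) (nat_lit 57)))) (T.n (T.n (T.l (nat_lit 45) (nat_lit 36)) (T.l (nat_lit 45) (nat_lit 37))) (T.n (T.l (nat_lit 45) (nat_lit 51)) (T.l (nat_lit 45) (nat_lit 54)))))) (T.n (T.n (T.n (T.n (T.l (nat_lit 48) (nat_lit 38)) (T.l (nat_lit 48) (nat_lit 57))) (T.n (T.l (nat_lit 49) (nat_lit 38)) (T.l (nat_lit 49) (nat_lit 57)))) (T.n (T.n (T.l (nat_lit 50) (nat_lit 36)) (T.l (nat_lit 50) (nat_lit 37))) (T.n (T.l (nat_lit 50) (nat_lit 51)) (T.l (nat_lit 50) (nat_lit 54))))) (T.n (T.n (T.n (T.l (nat_lit 51) (nat_lit 45)) (T.l (nat_lit 51) (nat_lit 50))) (T.n (T.l (nat_lit 54) (nat_lit 45)) (T.l (nat_lit 54) (nat_lit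 50)))) (T.n (T.n (T.l (nat_lit 57) (nat_lit 39)) (T.l (nat_lit 57) (nat_lit 42))) (T.n (T.l (nat_lit 57) (nat_lit 48)) (T.l (nat_lit 57) (nat_lit 49)))))))
def T101_1 : T := T.n (T.n (T.n (T.n (T.n (T.n (T.l (nat_lit 13) (nat_lit 16)) (T.l (nat_lit 13) (nat_lit 48))) (T.n (T.l (nat_lit 14) (nat_lit 17)) (T.l (nat_lit 14) (nat_lit 36)))) (T.n (T.n (T.l (nat_lit 16) (nat_lit 13)) (T.l (nat_lit 16) (nat_lit 53))) (T.n (T.l (nat_lit 17) (nat_lit 14)) (T.l (nat_lit 17) (nat_lit 41))))) (T.n (T.n (T.n (T.l (nat_lit 18) (nat_lit 19)) (T.l (nat_lit 18) (nat_lit 51))) (T.n (T.l (nat_lit 19) (nat_lit 18)) (T.l (nat_lit 19) (nat_lit 58)))) (T.n (T.n (T.l (nat_lit 21) (nat_lit 22)) (T.l (nat_lit 21) (nat_lit 39))) (T.n (T.l (nat_lit 22) (nat_lit 21)) (T.l (nat_lit 22) (nat_lit 46)))))) (T.n (T.n (T.n (T.n (T.l (nat_lit 25) (nat_lit 28)) (T.l (nat_lit 25) (nat_lit 49))) (T.n (T.l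 (nat_lit 26) (nat_lit 29)) (T.l (nat_lit 26) (nat_lit 37)))) (T.n (T.n (T.l (nat_lit 28) (nat_lit 25)) (T.l (nat_lit 28) (nat_lit 56))) (T.n (T.l (nat_lit 29) (nat_lit 26)) (T.l (nat_lit 29) (nat_lit 44))))) (T.n (T.n (T.n (T.l (nat_lit 30) (nat_lit 31)) (T.l (nat_lit 30) (nat_lit 54))) (T.n (T.l (nat_lit 31) (nat_lit 30)) (T.l (nat_lit 31) (nat_lit 59)))) (T.n (T.n (T.l (nat_lit 33) (nat_lit 34)) (T.l (nat_lit 33) (nat_lit 42))) (T.n (T.l (nat_lit 34) (nat_lit 33)) (T.l (nat_lit 34) (nat_lit 47))))))) (T.n (T.n (T.n (T.n (T.n (T.l (nat_lit 36) (nat_lit 14)) (T.l (nat_lit 36) (nat_lit 41))) (T.n (T.l (nat_lit 37) (nat_lit 26)) (T.l (nat_lit 37) (nat_lit 44)))) (T.n (T.n (T.l (nat_lit 39) (nat_lit 21)) (T.l (nat_lit 39) (nat_lit 46))) (T.n (T.l (nat_lit 41) (nat_lit 17)) (T.l (nat_lit 41) (nat_lit 36))))) (T.n (T.n (T.n (T.l (nat_lit 42) (nat_lit 33)) (T.l (nat_lit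 42) (nat_lit 47))) (T.n (T.l (nat_lit 44) (nat_lit 29)) (T.l (nat_lit 44) (nat_lit 37)))) (T.n (T.n (T.l (nat_lit 46) (nat_lit 22)) (T.l (nat_lit 46) (nat_lit 39))) (T.n (T.l (nat_lit 47) (nat_lit 34)) (T.l (nat_lit 47) (nat_lit 42)))))) (T.n (T.n (T.n (T.n (T.l (nat_lit 48) (nat_lit 13)) (T.l (nat_lit 48) (nat_lit 53))) (T.n (T.l (nat_lit 49) (nat_lit 25)) (T.l (nat_lit 49) (nat_lit 56)))) (T.n (T.n (T.l (nat_lit 51) (nat_lit 18)) (T.l (nat_lit 51) (nat_lit 58))) (T.n (T.l (nat_lit 53) (nat_lit 16)) (T.l (nat_lit 53) (nat_lit 48))))) (T.n (T.n (T.n (T.l (nat_lit 54) (nat_lit 30)) (T.l (nat_lit 54) (nat_lit 59))) (T.n (T.l (nat_lit 56) (nat_lit 28)) (T.l (nat_lit 56) (nat_lit 49)))) (T.n (T.n (T.l (nat_lit 58) (nat_lit 19)) (T.l (nat_lit 58) (nat_lit 51))) (T.n (T.l (nat_lit 59) (nat_lit 31)) (T.l (nat_lit 59) (nat_lit 54)))))))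
def T102_1 : T := T.n (T.n (T.n (T.n (T.n (T.l (nat_lit 16) (nat_lit 45)) (T.l (nat_lit 17) (nat_lit 57))) (T.n (T.l (nat_lit 19) (nat_lit 38)) (T.l (nat_lit 20) (nat_lit 42)))) (T.n (T.n (T.l (nat_lit 20) (nat_lit 49)) (T.l (nat_lit 22) (nat_lit 50))) (T.n (T.l (nat_lit 23) (nat_lit 37)) (T.l (nat_lit 23) (nat_lit 54))))) (T.n (T.n (T.n (T.l (nat_lit 28) (nat_lit 45)) (T.l (nat_lit 29) (nat_lit 57))) (T.n (T.l (nat_lit 31) (nat_lit 38)) (T.l (nat_lit 32) (nat_lit 39)))) (T.n (T.n (T.l (nat_lit 32) (nat_lit 48)) (T.l (nat_lit 34) (nat_lit 50))) (T.n (T.l (nat_lit 35) (nat_lit 36)) (T.l (nat_lit 35) (nat_lit 51)))))) (T.n (T.n (T.n (T.n (T.l (nat_lit 36) (nat_lit 35)) (T.l (nat_lit 37) (nat_lit 23))) (T.n (T.l (nat_lit 38) (nat_lit 19)) (T.l (nat_lit 38) (nat_lit 31)))) (T.n (T.n (T.l (nat_lit 39) (nat_lit 32)) (T.l (nat_lit 42) (nat_lit 20))) (T.n (T.l (nat_lit 45)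 (nat_lit 16)) (T.l (nat_lit 45) (nat_lit 28))))) (T.n (T.n (T.n (T.l (nat_lit 48) (nat_lit 32)) (T.l (nat_lit 49) (nat_lit 20))) (T.n (T.l (nat_lit 50) (nat_lit 22)) (T.l (nat_lit 50) (nat_lit 34)))) (T.n (T.n (T.l (nat_lit 51) (nat_lit 35)) (T.l (nat_lit 54) (nat_lit 23))) (T.n (T.l (nat_lit 57) (nat_lit 17)) (T.l (nat_lit 57) (nat_lit 29))))))
def T103_1 : T := T.n (T.n (T.n (T.n (T.n (T.n (T.l (nat_lit 16) (nat_lit 38)) (T.l (nat_lit 16) (nat_lit 57))) (T.n (T.l (nat_lit 17) (nat_lit 45)) (T.l (nat_lit 17) (nat_lit 50)))) (T.n (T.n (T.l (nat_lit 19) (nat_lit 45)) (T.l (nat_lit 19) (nat_lit 50))) (T.n (T.l (nat_lit 20) (nat_lit 36)) (T.l (nat_lit 20) (nat_lit 37))))) (T.n (T.n (T.n (T.l (nat_lit 20) (nat_lit 51)) (T.l (nat_lit 20) (nat_lit 54))) (T.n (T.l (nat_lit 22) (nat_lit 38)) (T.l (nat_lit 22) (nat_lit 57)))) (T.n (T.n (T.l (nat_lit 23) (nat_lit 39)) (T.l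 (nat_lit 23) (nat_lit 42))) (T.n (T.l (nat_lit 23) (nat_lit 48)) (T.l (nat_lit 23) (nat_lit 49)))))) (T.n (T.n (T.n (T.n (T.l (nat_lit 28) (nat_lit 38)) (T.l (nat_lit 28) (nat_lit 57))) (T.n (T.l (nat_lit 29) (nat_lit 45)) (T.l (nat_lit 29) (nat_lit 50)))) (T.n (T.n (T.l (nat_lit 31) (nat_lit 45)) (T.l (nat_lit 31) (nat_lit 50))) (T.n (T.l (nat_lit 32) (nat_lit 36)) (T.l (nat_lit 32) (nat_lit 37))))) (T.n (T.n (T.n (T.l (nat_lit 32) (nat_lit 51)) (T.l (nat_lit 32) (nat_lit 54))) (T.n (T.l (nat_lit 34) (nat_lit 38)) (T.l (nat_lit 34) (nat_lit 57)))) (T.n (T.n (T.l (nat_lit 35) (nat_lit 39)) (T.l (nat_lit 35) (nat_lit 42))) (T.n (T.l (nat_lit 35) (nat_lit 48)) (T.l (nat_lit 35) (nat_lit 49))))))) (T.n (T.n (T.n (T.n (T.n (T.l (nat_lit 36) (nat_lit 20)) (T.l (nat_lit 36) (nat_lit 32))) (T.n (T.l (nat_lit 37) (nat_lit 20)) (T.l (nat_lit 37) (nat_lit 32)))) (T.n (T.n (T.l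 (nat_lit 38) (nat_lit 16)) (T.l (nat_lit 38) (nat_lit 22))) (T.n (T.l (nat_lit 38) (nat_lit 28)) (T.l (nat_lit 38) (nat_lit 34))))) (T.n (T.n (T.n (T.l (nat_lit 39) (nat_lit 23)) (T.l (nat_lit 39) (nat_lit 35))) (T.n (T.l (nat_lit 42) (nat_lit 23)) (T.l (nat_lit 42) (nat_lit 35)))) (T.n (T.n (T.l (nat_lit 45) (nat_lit 17)) (T.l (nat_lit 45) (nat_lit 19))) (T.n (T.l (nat_lit 45) (nat_lit 29)) (T.l (nat_lit 45) (nat_lit 31)))))) (T.n (T.n (T.n (T.n (T.l (nat_lit 48) (nat_lit 23)) (T.l (nat_lit 48) (nat_lit 35))) (T.n (T.l (nat_lit 49) (nat_lit 23)) (T.l (nat_lit 49) (nat_lit 35)))) (T.n (T.n (T.l (nat_lit 50) (nat_lit 17)) (T.l (nat_lit 50) (nat_lit 19))) (T.n (T.l (nat_lit 50) (nat_lit 29)) (T.l (nat_lit 50) (nat_lit 31))))) (T.n (T.n (T.n (T.l (nat_lit 51) (nat_lit 20)) (T.l (nat_lit 51) (nat_lit 32))) (T.n (T.l (nat_lit 54) (nat_lit 20)) (T.l (nat_lit 54) (nat_lit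 32)))) (T.n (T.n (T.l (nat_lit 57) (nat_lit 16)) (T.l (nat_lit 57) (nat_lit 22))) (T.n (T.l (nat_lit 57) (nat_lit 28)) (T.l (nat_lit 57) (nat_lit 34)))))))
def T104_1 : T := T.n (T.n (T.n (T.n (T.n (T.n (T.n (T.l (nat_lit 13) (nat_lit 23)) (T.l (nat_lit 13) (nat_lit 34))) (T.n (T.l (nat_lit 13) (nat_lit 38)) (T.l (nat_lit 13) (nat_lit 42)))) (T.n (T.n (T.l (nat_lit 14) (nat_lit 20)) (T.l (nat_lit 14) (nat_lit 31))) (T.n (T.l (nat_lit 14) (nat_lit 50)) (T.l (nat_lit 14) (nat_lit 54))))) (T.n (T.n (T.n (T.l (nat_lit 16) (nat_lit 33)) (T.l (nat_lit 16) (nat_lit 47))) (T.n (T.l (nat_lit 17) (nat_lit 30)) (T.l (nat_lit 17) (nat_lit 59)))) (T.n (T.n (T.l (nat_lit 18) (nat_lit 20)) (T.l (nat_lit 18) (nat_lit 29))) (T.n (T.l (nat_lit 18) (nat_lit 37)) (T.l (nat_lit 18) (nat_lit 45)))))) (T.n (T.n (T.n (T.n (T.l (nat_lit 19) (nat_lit 26)) (T.l (nat_lit 19) (nat_lit 44))) (T.n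 (T.l (nat_lit 20) (nat_lit 14)) (T.l (nat_lit 20) (nat_lit 18)))) (T.n (T.n (T.l (nat_lit 20) (nat_lit 44)) (T.l (nat_lit 20) (nat_lit 59))) (T.n (T.l (nat_lit 21) (nat_lit 23)) (T.l (nat_lit 21) (nat_lit 28))))) (T.n (T.n (T.n (T.l (nat_lit 21) (nat_lit 49)) (T.l (nat_lit 21) (nat_lit 57))) (T.n (T.l (nat_lit 22) (nat_lit 25)) (T.l (nat_lit 22) (nat_lit 56)))) (T.n (T.n (T.l (nat_lit 23) (nat_lit 13)) (T.l (nat_lit 23) (nat_lit 21))) (T.n (T.l (nat_lit 23) (nat_lit 47)) (T.l (nat_lit 23) (nat_lit 56))))))) (T.n (T.n (T.n (T.n (T.n (T.l (nat_lit 25) (nat_lit 22)) (T.l (nat_lit 25) (nat_lit 35))) (T.n (T.l (nat_lit 25) (nat_lit 38)) (T.l (nat_lit 25) (nat_lit 39)))) (T.n (T.n (T.l (nat_lit 26) (nat_lit 19)) (T.l (nat_lit 26) (nat_lit 32))) (T.n (T.l (nat_lit 26) (nat_lit 50)) (T.l (nat_lit 26) (nat_lit 51))))) (T.n (T.n (T.n (T.l (nat_lit 28) (nat_lit 21)) (T.l (nat_lit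 28) (nat_lit 46))) (T.n (T.l (nat_lit 29) (nat_lit 18)) (T.l (nat_lit 29) (nat_lit 58)))) (T.n (T.n (T.l (nat_lit 30) (nat_lit 17)) (T.l (nat_lit 30) (nat_lit 32))) (T.n (T.l (nat_lit 30) (nat_lit 36)) (T.l (nat_lit 30) (nat_lit 45)))))) (T.n (T.n (T.n (T.n (T.l (nat_lit 31) (nat_lit 14)) (T.l (nat_lit 31) (nat_lit 41))) (T.n (T.l (nat_lit 32) (nat_lit 26)) (T.l (nat_lit 32) (nat_lit 30)))) (T.n (T.n (T.l (nat_lit 32) (nat_lit 41)) (T.l (nat_lit 32) (nat_lit 58))) (T.n (T.l (nat_lit 33) (nat_lit 16)) (T.l (nat_lit 33) (nat_lit 35))))) (T.n (T.n (T.n (T.l (nat_lit 33) (nat_lit 48)) (T.l (nat_lit 33) (nat_lit 57))) (T.n (T.l (nat_lit 34) (nat_lit 13)) (T.l (nat_lit 34) (nat_lit 53)))) (T.n (T.n (T.l (nat_lit 35) (nat_lit 25)) (T.l (nat_lit 35) (nat_lit 33))) (T.n (T.l (nat_lit 35) (nat_lit 46)) (T.l (nat_lit 35) (nat_lit 53)))))))) (T.n (T.n (T.n (T.n (T.n (T.n (T.l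 (nat_lit 36) (nat_lit 30)) (T.l (nat_lit 36) (nat_lit 59))) (T.n (T.l (nat_lit 37) (nat_lit 18)) (T.l (nat_lit 37) (nat_lit 58)))) (T.n (T.n (T.l (nat_lit 38) (nat_lit 13)) (T.l (nat_lit 38) (nat_lit 25))) (T.n (T.l (nat_lit 38) (nat_lit 46)) (T.l (nat_lit 38) (nat_lit 47))))) (T.n (T.n (T.n (T.l (nat_lit 39) (nat_lit 25)) (T.l (nat_lit 39) (nat_lit 56))) (T.n (T.l (nat_lit 41) (nat_lit 31)) (T.l (nat_lit 41) (nat_lit 32)))) (T.n (T.n (T.l (nat_lit 41) (nat_lit 45)) (T.l (nat_lit 41) (nat_lit 54))) (T.n (T.l (nat_lit 42) (nat_lit 13)) (T.l (nat_lit 42) (nat_lit 53)))))) (T.n (T.n (T.n (T.n (T.l (nat_lit 44) (nat_lit 19)) (T.l (nat_lit 44) (nat_lit 20))) (T.n (T.l (nat_lit 44) (nat_lit 45)) (T.l (nat_lit 44) (nat_lit 51)))) (T.n (T.n (T.l (nat_lit 45) (nat_lit 18)) (T.l (nat_lit 45) (nat_lit 30))) (T.n (T.l (nat_lit 45) (nat_lit 41)) (T.l (nat_lit 45) (nat_lit 44)))))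 (T.n (T.n (T.n (T.l (nat_lit 46) (nat_lit 28)) (T.l (nat_lit 46) (nat_lit 35))) (T.n (T.l (nat_lit 46) (nat_lit 38)) (T.l (nat_lit 46) (nat_lit 49)))) (T.n (T.n (T.l (nat_lit 47) (nat_lit 16)) (T.l (nat_lit 47) (nat_lit 23))) (T.n (T.l (nat_lit 47) (nat_lit 38)) (T.l (nat_lit 47) (nat_lit 48))))))) (T.n (T.n (T.n (T.n (T.n (T.l (nat_lit 48) (nat_lit 33)) (T.l (nat_lit 48) (nat_lit 47))) (T.n (T.l (nat_lit 49) (nat_lit 21)) (T.l (nat_lit 49) (nat_lit 46)))) (T.n (T.n (T.l (nat_lit 50) (nat_lit 14)) (T.l (nat_lit 50) (nat_lit 26))) (T.n (T.l (nat_lit 50) (nat_lit 58)) (T.l (nat_lit 50) (nat_lit 59))))) (T.n (T.n (T.n (T.l (nat_lit 51) (nat_lit 26)) (T.l (nat_lit 51) (nat_lit 44))) (T.n (T.l (nat_lit 53) (nat_lit 34)) (T.l (nat_lit 53) (nat_lit 35)))) (T.n (T.n (T.l (nat_lit 53) (nat_lit 42)) (T.l (nat_lit 53) (nat_lit 57))) (T.n (T.l (nat_lit 54) (nat_lit 14)) (T.l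 (nat_lit 54) (nat_lit 41)))))) (T.n (T.n (T.n (T.n (T.l (nat_lit 56) (nat_lit 22)) (T.l (nat_lit 56) (nat_lit 23))) (T.n (T.l (nat_lit 56) (nat_lit 39)) (T.l (nat_lit 56) (nat_lit 57)))) (T.n (T.n (T.l (nat_lit 57) (nat_lit 21)) (T.l (nat_lit 57) (nat_lit 33))) (T.n (T.l (nat_lit 57) (nat_lit 53)) (T.l (nat_lit 57) (nat_lit 56))))) (T.n (T.n (T.n (T.l (nat_lit 58) (nat_lit 29)) (T.l (nat_lit 58) (nat_lit 32))) (T.n (T.l (nat_lit 58) (nat_lit 37)) (T.l (nat_lit 58) (nat_lit 50)))) (T.n (T.n (T.l (nat_lit 59) (nat_lit 17)) (T.l (nat_lit 59) (nat_lit 20))) (T.n (T.l (nat_lit 59) (nat_lit 36)) (T.l (nat_lit 59) (nat_lit 50))))))))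
def T105_1 : T := T.n (T.n (T.n (T.n (T.n (T.l (nat_lit 16) (nat_lit 39)) (T.l (nat_lit 16) (nat_lit 49))) (T.n (T.l (nat_lit 17) (nat_lit 37)) (T.l (nat_lit 17) (nat_lit 51)))) (T.n (T.n (T.l (nat_lit 19) (nat_lit 36)) (T.l (nat_lit 19) (nat_lit 54))) (T.n (T.l (nat_lit 22) (nat_lit 42)) (T.l (nat_lit 22) (nat_lit 48))))) (T.n (T.n (T.n (T.l (nat_lit 28) (nat_lit 42)) (T.l (nat_lit 28) (nat_lit 48))) (T.n (T.l (nat_lit 29) (nat_lit 36)) (T.l (nat_lit 29) (nat_lit 54)))) (T.n (T.n (T.l (nat_lit 31) (nat_lit 37)) (T.l (nat_lit 31) (nat_lit 51))) (T.n (T.l (nat_lit 34) (nat_lit 39)) (T.l (nat_lit 34) (nat_lit 49)))))) (T.n (T.n (T.n (T.n (T.l (nat_lit 36) (nat_lit 19)) (T.l (nat_lit 36) (nat_lit 29))) (T.n (T.l (nat_lit 37) (nat_lit 17)) (T.l (nat_lit 37) (nat_lit 31)))) (T.n (T.n (T.l (nat_lit 39) (nat_lit 16)) (T.l (nat_lit 39) (nat_lit 34))) (T.n (T.l (nat_lit 42)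 (nat_lit 22)) (T.l (nat_lit 42) (nat_lit 28))))) (T.n (T.n (T.n (T.l (nat_lit 48) (nat_lit 22)) (T.l (nat_lit 48) (nat_lit 28))) (T.n (T.l (nat_lit 49) (nat_lit 16)) (T.l (nat_lit 49) (nat_lit 34)))) (T.n (T.n (T.l (nat_lit 51) (nat_lit 17)) (T.l (nat_lit 51) (nat_lit 31))) (T.n (T.l (nat_lit 54) (nat_lit 19)) (T.l (nat_lit 54) (nat_lit 29))))))
def T107_1 : T := T.n (T.n (T.n (T.n (T.n (T.n (T.n (T.l (nat_lit 13) (nat_lit 20)) (T.l (nat_lit 13) (nat_lit 31))) (T.n (T.l (nat_lit 13) (nat_lit 50)) (T.l (nat_lit 13) (nat_lit 54)))) (T.n (T.n (T.l (nat_lit 14) (nat_lit 23)) (T.l (nat_lit 14) (nat_lit 34))) (T.n (T.l (nat_lit 14) (nat_lit 38)) (T.l (nat_lit 14) (nat_lit 42))))) (T.n (T.n (T.n (T.l (nat_lit 16) (nat_lit 30)) (T.l (nat_lit 16) (nat_lit 41))) (T.n (T.l (nat_lit 17) (nat_lit 33)) (T.l (nat_lit 17) (nat_lit 53)))) (T.n (T.n (T.l (nat_lit 18) (nat_lit 23))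 (T.l (nat_lit 18) (nat_lit 28))) (T.n (T.l (nat_lit 18) (nat_lit 49)) (T.l (nat_lit 18) (nat_lit 57)))))) (T.n (T.n (T.n (T.n (T.l (nat_lit 19) (nat_lit 25)) (T.l (nat_lit 19) (nat_lit 46))) (T.n (T.l (nat_lit 20) (nat_lit 13)) (T.l (nat_lit 20) (nat_lit 21)))) (T.n (T.n (T.l (nat_lit 20) (nat_lit 46)) (T.l (nat_lit 20) (nat_lit 53))) (T.n (T.l (nat_lit 21) (nat_lit 20)) (T.l (nat_lit 21) (nat_lit 29))))) (T.n (T.n (T.n (T.l (nat_lit 21) (nat_lit 37)) (T.l (nat_lit 21) (nat_lit 45))) (T.n (T.l (nat_lit 22) (nat_lit 26)) (T.l (nat_lit 22) (nat_lit 58)))) (T.n (T.n (T.l (nat_lit 23) (nat_lit 14)) (T.l (nat_lit 23) (nat_lit 18))) (T.n (T.l (nat_lit 23) (nat_lit 41)) (T.l (nat_lit 23) (nat_lit 58))))))) (T.n (T.n (T.n (T.n (T.n (T.l (nat_lit 25) (nat_lit 19)) (T.l (nat_lit 25) (nat_lit 32))) (T.n (T.l (nat_lit 25) (nat_lit 50)) (T.l (nat_lit 25) (nat_lit 51)))) (T.n (T.n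 (T.l (nat_lit 26) (nat_lit 22)) (T.l (nat_lit 26) (nat_lit 35))) (T.n (T.l (nat_lit 26) (nat_lit 38)) (T.l (nat_lit 26) (nat_lit 39))))) (T.n (T.n (T.n (T.l (nat_lit 28) (nat_lit 18)) (T.l (nat_lit 28) (nat_lit 44))) (T.n (T.l (nat_lit 29) (nat_lit 21)) (T.l (nat_lit 29) (nat_lit 56)))) (T.n (T.n (T.l (nat_lit 30) (nat_lit 16)) (T.l (nat_lit 30) (nat_lit 35))) (T.n (T.l (nat_lit 30) (nat_lit 48)) (T.l (nat_lit 30) (nat_lit 57)))))) (T.n (T.n (T.n (T.n (T.l (nat_lit 31) (nat_lit 13)) (T.l (nat_lit 31) (nat_lit 47))) (T.n (T.l (nat_lit 32) (nat_lit 25)) (T.l (nat_lit 32) (nat_lit 33)))) (T.n (T.n (T.l (nat_lit 32) (nat_lit 47)) (T.l (nat_lit 32) (nat_lit 56))) (T.n (T.l (nat_lit 33) (nat_lit 17)) (T.l (nat_lit 33) (nat_lit 32))))) (T.n (T.n (T.n (T.l (nat_lit 33) (nat_lit 36)) (T.l (nat_lit 33) (nat_lit 45))) (T.n (T.l (nat_lit 34) (nat_lit 14)) (T.l (nat_lit 34) (nat_lit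 59)))) (T.n (T.n (T.l (nat_lit 35) (nat_lit 26)) (T.l (nat_lit 35) (nat_lit 30))) (T.n (T.l (nat_lit 35) (nat_lit 44)) (T.l (nat_lit 35) (nat_lit 59)))))))) (T.n (T.n (T.n (T.n (T.n (T.n (T.l (nat_lit 36) (nat_lit 33)) (T.l (nat_lit 36) (nat_lit 53))) (T.n (T.l (nat_lit 37) (nat_lit 21)) (T.l (nat_lit 37) (nat_lit 56)))) (T.n (T.n (T.l (nat_lit 38) (nat_lit 14)) (T.l (nat_lit 38) (nat_lit 26))) (T.n (T.l (nat_lit 38) (nat_lit 41)) (T.l (nat_lit 38) (nat_lit 44))))) (T.n (T.n (T.n (T.l (nat_lit 39) (nat_lit 26)) (T.l (nat_lit 39) (nat_lit 58))) (T.n (T.l (nat_lit 41) (nat_lit 16)) (T.l (nat_lit 41) (nat_lit 23)))) (T.n (T.n (T.l (nat_lit 41) (nat_lit 38)) (T.l (nat_lit 41) (nat_lit 48))) (T.n (T.l (nat_lit 42) (nat_lit 14)) (T.l (nat_lit 42) (nat_lit 59)))))) (T.n (T.n (T.n (T.n (T.l (nat_lit 44) (nat_lit 28)) (T.l (nat_lit 44) (nat_lit 35))) (T.n (T.l (nat_lit 44)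 (nat_lit 38)) (T.l (nat_lit 44) (nat_lit 49)))) (T.n (T.n (T.l (nat_lit 45) (nat_lit 21)) (T.l (nat_lit 45) (nat_lit 33))) (T.n (T.l (nat_lit 45) (nat_lit 46)) (T.l (nat_lit 45) (nat_lit 47))))) (T.n (T.n (T.n (T.l (nat_lit 46) (nat_lit 19)) (T.l (nat_lit 46) (nat_lit 20))) (T.n (T.l (nat_lit 46) (nat_lit 45)) (T.l (nat_lit 46) (nat_lit 51)))) (T.n (T.n (T.l (nat_lit 47) (nat_lit 31)) (T.l (nat_lit 47) (nat_lit 32))) (T.n (T.l (nat_lit 47) (nat_lit 45)) (T.l (nat_lit 47) (nat_lit 54))))))) (T.n (T.n (T.n (T.n (T.n (T.l (nat_lit 48) (nat_lit 30)) (T.l (nat_lit 48) (nat_lit 41))) (T.n (T.l (nat_lit 49) (nat_lit 18)) (T.l (nat_lit 49) (nat_lit 44)))) (T.n (T.n (T.l (nat_lit 50) (nat_lit 13)) (T.l (nat_lit 50) (nat_lit 25))) (T.n (T.l (nat_lit 50) (nat_lit 53)) (T.l (nat_lit 50) (nat_lit 56))))) (T.n (T.n (T.n (T.l (nat_lit 51) (nat_lit 25)) (T.l (nat_lit 51) (nat_lit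 46))) (T.n (T.l (nat_lit 53) (nat_lit 17)) (T.l (nat_lit 53) (nat_lit 20)))) (T.n (T.n (T.l (nat_lit 53) (nat_lit 36)) (T.l (nat_lit 53) (nat_lit 50))) (T.n (T.l (nat_lit 54) (nat_lit 13)) (T.l (nat_lit 54) (nat_lit 47)))))) (T.n (T.n (T.n (T.n (T.l (nat_lit 56) (nat_lit 29)) (T.l (nat_lit 56) (nat_lit 32))) (T.n (T.l (nat_lit 56) (nat_lit 37)) (T.l (nat_lit 56) (nat_lit 50)))) (T.n (T.n (T.l (nat_lit 57) (nat_lit 18)) (T.l (nat_lit 57) (nat_lit 30))) (T.n (T.l (nat_lit 57) (nat_lit 58)) (T.l (nat_lit 57) (nat_lit 59))))) (T.n (T.n (T.n (T.l (nat_lit 58) (nat_lit 22)) (T.l (nat_lit 58) (nat_lit 23))) (T.n (T.l (nat_lit 58) (nat_lit 39)) (T.l (nat_lit 58) (nat_lit 57)))) (T.n (T.n (T.l (nat_lit 59) (nat_lit 34)) (T.l (nat_lit 59) (nat_lit 35))) (T.n (T.l (nat_lit 59) (nat_lit 42)) (T.l (nat_lit 59) (nat_lit 57))))))))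
def T108_1 : T := T.n (T.n (T.n (T.n (T.n (T.l (nat_lit 16) (nat_lit 32)) (T.l (nat_lit 17) (nat_lit 35))) (T.n (T.l (nat_lit 19) (nat_lit 35)) (T.l (nat_lit 20) (nat_lit 28)))) (T.n (T.n (T.l (nat_lit 20) (nat_lit 34)) (T.l (nat_lit 22) (nat_lit 32))) (T.n (T.l (nat_lit 23) (nat_lit 29)) (T.l (nat_lit 23) (nat_lit 31))))) (T.n (T.n (T.n (T.l (nat_lit 28) (nat_lit 20)) (T.l (nat_lit 29) (nat_lit 23))) (T.n (T.l (nat_lit 31) (nat_lit 23)) (T.l (nat_lit 32) (nat_lit 16)))) (T.n (T.n (T.l (nat_lit 32) (nat_lit 22)) (T.l (nat_lit 34) (nat_lit 20))) (T.n (T.l (nat_lit 35) (nat_lit 17)) (T.l (nat_lit 35) (nat_lit 19)))))) (T.n (T.n (T.n (T.n (T.l (nat_lit 36) (nat_lit 57)) (T.l (nat_lit 37) (nat_lit 57))) (T.n (T.l (nat_lit 38) (nat_lit 51)) (T.l (nat_lit 38) (nat_lit 54)))) (T.n (T.n (T.l (nat_lit 39) (nat_lit 50)) (T.l (nat_lit 42) (nat_lit 50))) (T.n (T.l (nat_lit 45)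 (nat_lit 48)) (T.l (nat_lit 45) (nat_lit 49))))) (T.n (T.n (T.n (T.l (nat_lit 48) (nat_lit 45)) (T.l (nat_lit 49) (nat_lit 45))) (T.n (T.l (nat_lit 50) (nat_lit 39)) (T.l (nat_lit 50) (nat_lit 42)))) (T.n (T.n (T.l (nat_lit 51) (nat_lit 38)) (T.l (nat_lit 54) (nat_lit 38))) (T.n (T.l (nat_lit 57) (nat_lit 36)) (T.l (nat_lit 57) (nat_lit 37))))))
def T109_1 : T := T.n (T.n (T.n (T.n (T.n (T.n (T.l (nat_lit 13) (nat_lit 29)) (T.l (nat_lit 13) (nat_lit 51))) (T.n (T.l (nat_lit 14) (nat_lit 28)) (T.l (nat_lit 14) (nat_lit 39)))) (T.n (T.n (T.l (nat_lit 16) (nat_lit 26)) (T.l (nat_lit 16) (nat_lit 58))) (T.n (T.l (nat_lit 17) (nat_lit 25)) (T.l (nat_lit 17) (nat_lit 46))))) (T.n (T.n (T.n (T.l (nat_lit 18) (nat_lit 34)) (T.l (nat_lit 18) (nat_lit 48))) (T.n (T.l (nat_lit 19) (nat_lit 33)) (T.l (nat_lit 19) (nat_lit 53)))) (T.n (T.n (T.l (nat_lit 21) (nat_lit 31)) (T.l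 (nat_lit 21) (nat_lit 36))) (T.n (T.l (nat_lit 22) (nat_lit 30)) (T.l (nat_lit 22) (nat_lit 41)))))) (T.n (T.n (T.n (T.n (T.l (nat_lit 25) (nat_lit 17)) (T.l (nat_lit 25) (nat_lit 54))) (T.n (T.l (nat_lit 26) (nat_lit 16)) (T.l (nat_lit 26) (nat_lit 42)))) (T.n (T.n (T.l (nat_lit 28) (nat_lit 14)) (T.l (nat_lit 28) (nat_lit 59))) (T.n (T.l (nat_lit 29) (nat_lit 13)) (T.l (nat_lit 29) (nat_lit 47))))) (T.n (T.n (T.n (T.l (nat_lit 30) (nat_lit 22)) (T.l (nat_lit 30) (nat_lit 49))) (T.n (T.l (nat_lit 31) (nat_lit 21)) (T.l (nat_lit 31) (nat_lit 56)))) (T.n (T.n (T.l (nat_lit 33) (nat_lit 19)) (T.l (nat_lit 33) (nat_lit 37))) (T.n (T.l (nat_lit 34) (nat_lit 18)) (T.l (nat_lit 34) (nat_lit 44))))))) (T.n (T.n (T.n (T.n (T.n (T.l (nat_lit 36) (nat_lit 21)) (T.l (nat_lit 36) (nat_lit 56))) (T.n (T.l (nat_lit 37) (nat_lit 33)) (T.l (nat_lit 37) (nat_lit 53)))) (T.n (T.n (T.l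 (nat_lit 39) (nat_lit 14)) (T.l (nat_lit 39) (nat_lit 59))) (T.n (T.l (nat_lit 41) (nat_lit 22)) (T.l (nat_lit 41) (nat_lit 49))))) (T.n (T.n (T.n (T.l (nat_lit 42) (nat_lit 26)) (T.l (nat_lit 42) (nat_lit 58))) (T.n (T.l (nat_lit 44) (nat_lit 34)) (T.l (nat_lit 44) (nat_lit 48)))) (T.n (T.n (T.l (nat_lit 46) (nat_lit 17)) (T.l (nat_lit 46) (nat_lit 54))) (T.n (T.l (nat_lit 47) (nat_lit 29)) (T.l (nat_lit 47) (nat_lit 51)))))) (T.n (T.n (T.n (T.n (T.l (nat_lit 48) (nat_lit 18)) (T.l (nat_lit 48) (nat_lit 44))) (T.n (T.l (nat_lit 49) (nat_lit 30)) (T.l (nat_lit 49) (nat_lit 41)))) (T.n (T.n (T.l (nat_lit 51) (nat_lit 13)) (T.l (nat_lit 51) (nat_lit 47))) (T.n (T.l (nat_lit 53) (nat_lit 19)) (T.l (nat_lit 53) (nat_lit 37))))) (T.n (T.n (T.n (T.l (nat_lit 54) (nat_lit 25)) (T.l (nat_lit 54) (nat_lit 46))) (T.n (T.l (nat_lit 56) (nat_lit 31)) (T.l (nat_lit 56) (nat_lit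 36)))) (T.n (T.n (T.l (nat_lit 58) (nat_lit 16)) (T.l (nat_lit 58) (nat_lit 42))) (T.n (T.l (nat_lit 59) (nat_lit 28)) (T.l (nat_lit 59) (nat_lit 39)))))))
def T110_1 : T := T.n (T.n (T.n (T.n (T.n (T.n (T.l (nat_lit 13) (nat_lit 32)) (T.l (nat_lit 13) (nat_lit 45))) (T.n (T.l (nat_lit 14) (nat_lit 35)) (T.l (nat_lit 14) (nat_lit 57)))) (T.n (T.n (T.l (nat_lit 18) (nat_lit 35)) (T.l (nat_lit 18) (nat_lit 38))) (T.n (T.l (nat_lit 20) (nat_lit 25)) (T.l (nat_lit 20) (nat_lit 33))))) (T.n (T.n (T.n (T.l (nat_lit 20) (nat_lit 47)) (T.l (nat_lit 20) (nat_lit 56))) (T.n (T.l (nat_lit 21) (nat_lit 32)) (T.l (nat_lit 21) (nat_lit 50)))) (T.n (T.n (T.l (nat_lit 23) (nat_lit 26)) (T.l (nat_lit 23) (nat_lit 30))) (T.n (T.l (nat_lit 23) (nat_lit 44)) (T.l (nat_lit 23) (nat_lit 59)))))) (T.n (T.n (T.n (T.n (T.l (nat_lit 25) (nat_lit 20)) (T.l (nat_lit 25) (nat_lit 45))) (T.n (T.l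 (nat_lit 26) (nat_lit 23)) (T.l (nat_lit 26) (nat_lit 57)))) (T.n (T.n (T.l (nat_lit 30) (nat_lit 23)) (T.l (nat_lit 30) (nat_lit 38))) (T.n (T.l (nat_lit 32) (nat_lit 13)) (T.l (nat_lit 32) (nat_lit 21))))) (T.n (T.n (T.n (T.l (nat_lit 32) (nat_lit 46)) (T.l (nat_lit 32) (nat_lit 53))) (T.n (T.l (nat_lit 33) (nat_lit 20)) (T.l (nat_lit 33) (nat_lit 50)))) (T.n (T.n (T.l (nat_lit 35) (nat_lit 14)) (T.l (nat_lit 35) (nat_lit 18))) (T.n (T.l (nat_lit 35) (nat_lit 41)) (T.l (nat_lit 35) (nat_lit 58))))))) (T.n (T.n (T.n (T.n (T.n (T.l (nat_lit 38) (nat_lit 18)) (T.l (nat_lit 38) (nat_lit 30))) (T.n (T.l (nat_lit 38) (nat_lit 58)) (T.l (nat_lit 38) (nat_lit 59)))) (T.n (T.n (T.l (nat_lit 41) (nat_lit 35)) (T.l (nat_lit 41) (nat_lit 57))) (T.n (T.l (nat_lit 44) (nat_lit 23)) (T.l (nat_lit 44) (nat_lit 57))))) (T.n (T.n (T.n (T.l (nat_lit 45) (nat_lit 13)) (T.l (nat_lit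 45) (nat_lit 25))) (T.n (T.l (nat_lit 45) (nat_lit 53)) (T.l (nat_lit 45) (nat_lit 56)))) (T.n (T.n (T.l (nat_lit 46) (nat_lit 32)) (T.l (nat_lit 46) (nat_lit 50))) (T.n (T.l (nat_lit 47) (nat_lit 20)) (T.l (nat_lit 47) (nat_lit 50)))))) (T.n (T.n (T.n (T.n (T.l (nat_lit 50) (nat_lit 21)) (T.l (nat_lit 50) (nat_lit 33))) (T.n (T.l (nat_lit 50) (nat_lit 46)) (T.l (nat_lit 50) (nat_lit 47)))) (T.n (T.n (T.l (nat_lit 53) (nat_lit 32)) (T.l (nat_lit 53) (nat_lit 45))) (T.n (T.l (nat_lit 56) (nat_lit 20)) (T.l (nat_lit 56) (nat_lit 45))))) (T.n (T.n (T.n (T.l (nat_lit 57) (nat_lit 14)) (T.l (nat_lit 57) (nat_lit 26))) (T.n (T.l (nat_lit 57) (nat_lit 41)) (T.l (nat_lit 57) (nat_lit 44)))) (T.n (T.n (T.l (nat_lit 58) (nat_lit 35)) (T.l (nat_lit 58) (nat_lit 38))) (T.n (T.l (nat_lit 59) (nat_lit 23)) (T.l (nat_lit 59) (nat_lit 38)))))))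
def T1_2 : T := T.n (T.l (nat_lit 0) (nat_lit 0)) (T.l (nat_lit 1) (nat_lit 1))
def T4_2 : T := T.n (T.l (nat_lit 0) (nat_lit 1)) (T.l (nat_lit 1) (nat_lit 0))
def T5_2 : T := T.n (T.n (T.l (nat_lit 0) (nat_lit 2)) (T.l (nat_lit 1) (nat_lit 2))) (T.n (T.l (nat_lit 2) (nat_lit 0)) (T.n (T.l (nat_lit 2) (nat_lit 1)) (T.l (nat_lit 2) (nat_lit 2))))
def T6_2 : T := T.n (T.n (T.n (T.n (T.n (T.l (nat_lit 0) (nat_lit 3)) (T.l (nat_lit 0) (nat_lit 8))) (T.n (T.l (nat_lit 0) (nat_lit 11)) (T.l (nat_lit 0) (nat_lit 27)))) (T.n (T.n (T.l (nat_lit 0) (nat_lit 41)) (T.l (nat_lit 0) (nat_lit 53))) (T.n (T.l (nat_lit 1) (nat_lit 5)) (T.n (T.l (nat_lit 1) (nat_lit 6)) (T.l (nat_lit 1) (nat_lit 10)))))) (T.n (T.n (T.n (T.l (nat_lit 1) (nat_lit 29)) (T.l (nat_lit 1) (nat_lit 39))) (T.n (T.l (nat_lit 1) (nat_lit 52)) (T.l (nat_lit 3) (nat_lit 0)))) (T.n (T.n (T.l (nat_lit 3) (nat_lit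 3)) (T.l (nat_lit 5) (nat_lit 1))) (T.n (T.l (nat_lit 5) (nat_lit 5)) (T.n (T.l (nat_lit 6) (nat_lit 1)) (T.l (nat_lit 6) (nat_lit 6))))))) (T.n (T.n (T.n (T.n (T.l (nat_lit 8) (nat_lit 0)) (T.l (nat_lit 8) (nat_lit 8))) (T.n (T.l (nat_lit 10) (nat_lit 1)) (T.l (nat_lit 10) (nat_lit 10)))) (T.n (T.n (T.l (nat_lit 11) (nat_lit 0)) (T.l (nat_lit 11) (nat_lit 11))) (T.n (T.l (nat_lit 27) (nat_lit 0)) (T.n (T.l (nat_lit 27) (nat_lit 27)) (T.l (nat_lit 29) (nat_lit 1)))))) (T.n (T.n (T.n (T.l (nat_lit 29) (nat_lit 29)) (T.l (nat_lit 39) (nat_lit 1))) (T.n (T.l (nat_lit 39) (nat_lit 39)) (T.l (nat_lit 41) (nat_lit 0)))) (T.n (T.n (T.l (nat_lit 41) (nat_lit 41)) (T.l (nat_lit 52) (nat_lit 1))) (T.n (T.l (nat_lit 52) (nat_lit 52)) (T.n (T.l (nat_lit 53) (nat_lit 0)) (T.l (nat_lit 53) (nat_lit 53)))))))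
def T7_2 : T := T.n (T.n (T.n (T.n (T.l (nat_lit 0) (nat_lit 4)) (T.n (T.l (nat_lit 0) (nat_lit 7)) (T.l (nat_lit 0) (nat_lit 9)))) (T.n (T.n (T.l (nat_lit 0) (nat_lit 28)) (T.l (nat_lit 0) (nat_lit 40))) (T.n (T.l (nat_lit 0) (nat_lit 51)) (T.l (nat_lit 1) (nat_lit 4))))) (T.n (T.n (T.n (T.l (nat_lit 1) (nat_lit 7)) (T.l (nat_lit 1) (nat_lit 9))) (T.n (T.l (nat_lit 1) (nat_lit 28)) (T.l (nat_lit 1) (nat_lit 40)))) (T.n (T.n (T.l (nat_lit 1) (nat_lit 51)) (T.l (nat_lit 4) (nat_lit 0))) (T.n (T.l (nat_lit 4) (nat_lit 1)) (T.l (nat_lit 4) (nat_lit 4)))))) (T.n (T.n (T.n (T.l (nat_lit 7) (nat_lit 0)) (T.n (T.l (nat_lit 7) (nat_lit 1)) (T.l (nat_lit 7) (nat_lit 7)))) (T.n (T.n (T.l (nat_lit 9) (nat_lit 0)) (T.l (nat_lit 9) (nat_lit 1))) (T.n (T.l (nat_lit 9) (nat_lit 9)) (T.l (nat_lit 28) (nat_lit 0))))) (T.n (T.n (T.n (T.l (nat_lit 28) (nat_lit 1)) (T.l (nat_lit 28)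 (nat_lit 28))) (T.n (T.l (nat_lit 40) (nat_lit 0)) (T.l (nat_lit 40) (nat_lit 1)))) (T.n (T.n (T.l (nat_lit 40) (nat_lit 40)) (T.l (nat_lit 51) (nat_lit 0))) (T.n (T.l (nat_lit 51) (nat_lit 1)) (T.l (nat_lit 51) (nat_lit 51))))))
def T8_2 : T := T.n (T.n (T.n (T.n (T.l (nat_lit 0) (nat_lit 5)) (T.n (T.l (nat_lit 0) (nat_lit 6)) (T.l (nat_lit 0) (nat_lit 10)))) (T.n (T.l (nat_lit 0) (nat_lit 29)) (T.n (T.l (nat_lit 0) (nat_lit 39)) (T.l (nat_lit 0) (nat_lit 52))))) (T.n (T.n (T.l (nat_lit 1) (nat_lit 3)) (T.n (T.l (nat_lit 1) (nat_lit 8)) (T.l (nat_lit 1) (nat_lit 11)))) (T.n (T.l (nat_lit 1) (nat_lit 27)) (T.n (T.l (nat_lit 1) (nat_lit 41)) (T.l (nat_lit 1) (nat_lit 53)))))) (T.n (T.n (T.n (T.l (nat_lit 3) (nat_lit 1)) (T.n (T.l (nat_lit 5) (nat_lit 0)) (T.l (nat_lit 6) (nat_lit 0)))) (T.n (T.l (nat_lit 8) (nat_lit 1)) (T.n (T.l (nat_lit 10) (nat_lit 0)) (T.l (nat_lit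 11) (nat_lit 1))))) (T.n (T.n (T.l (nat_lit 27) (nat_lit 1)) (T.n (T.l (nat_lit 29) (nat_lit 0)) (T.l (nat_lit 39) (nat_lit 0)))) (T.n (T.l (nat_lit 41) (nat_lit 1)) (T.n (T.l (nat_lit 52) (nat_lit 0)) (T.l (nat_lit 53) (nat_lit 1))))))
def T9_2 : T := T.n (T.n (T.n (T.l (nat_lit 0) (nat_lit 12)) (T.n (T.l (nat_lit 0) (nat_lit 13)) (T.l (nat_lit 0) (nat_lit 14)))) (T.n (T.l (nat_lit 1) (nat_lit 12)) (T.n (T.l (nat_lit 1) (nat_lit 13)) (T.l (nat_lit 1) (nat_lit 14))))) (T.n (T.n (T.l (nat_lit 12) (nat_lit 0)) (T.n (T.l (nat_lit 12) (nat_lit 1)) (T.l (nat_lit 13) (nat_lit 0)))) (T.n (T.l (nat_lit 13) (nat_lit 1)) (T.n (T.l (nat_lit 14) (nat_lit 0)) (T.l (nat_lit 14) (nat_lit 1)))))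
def T10_2 : T := T.n (T.n (T.n (T.n (T.l (nat_lit 0) (nat_lit 15)) (T.n (T.l (nat_lit 0) (nat_lit 19)) (T.l (nat_lit 0) (nat_lit 22)))) (T.n (T.l (nat_lit 0) (nat_lit 24)) (T.n (T.l (nat_lit 0) (nat_lit 37)) (T.l (nat_lit 0) (nat_lit 49))))) (T.n (T.n (T.l (nat_lit 1) (nat_lit 16)) (T.n (T.l (nat_lit 1) (nat_lit 18)) (T.l (nat_lit 1) (nat_lit 23)))) (T.n (T.l (nat_lit 1) (nat_lit 25)) (T.n (T.l (nat_lit 1) (nat_lit 36)) (T.l (nat_lit 1) (nat_lit 50)))))) (T.n (T.n (T.n (T.l (nat_lit 15) (nat_lit 0)) (T.n (T.l (nat_lit 16) (nat_lit 1)) (T.l (nat_lit 18) (nat_lit 1)))) (T.n (T.l (nat_lit 19) (nat_lit 0)) (T.n (T.l (nat_lit 22) (nat_lit 0)) (T.l (nat_lit 23) (nat_lit 1))))) (T.n (T.n (T.l (nat_lit 24) (nat_lit 0)) (T.n (T.l (nat_lit 25) (nat_lit 1)) (T.l (nat_lit 36) (nat_lit 1)))) (T.n (T.l (nat_lit 37) (nat_lit 0)) (T.n (T.l (nat_lit 49) (nat_lit 0)) (T.l (nat_lit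 50) (nat_lit 1))))))
def T11_2 : T := T.n (T.n (T.n (T.n (T.n (T.l (nat_lit 0) (nat_lit 16)) (T.l (nat_lit 0) (nat_lit 18))) (T.n (T.l (nat_lit 0) (nat_lit 23)) (T.l (nat_lit 0) (nat_lit 25)))) (T.n (T.n (T.l (nat_lit 0) (nat_lit 36)) (T.l (nat_lit 0) (nat_lit 50))) (T.n (T.l (nat_lit 1) (nat_lit 15)) (T.n (T.l (nat_lit 1) (nat_lit 19)) (T.l (nat_lit 1) (nat_lit 22)))))) (T.n (T.n (T.n (T.l (nat_lit 1) (nat_lit 24)) (T.l (nat_lit 1) (nat_lit 37))) (T.n (T.l (nat_lit 1) (nat_lit 49)) (T.l (nat_lit 15) (nat_lit 1)))) (T.n (T.n (T.l (nat_lit 15) (nat_lit 15)) (T.l (nat_lit 16) (nat_lit 0))) (T.n (T.l (nat_lit 16) (nat_lit 16)) (T.n (T.l (nat_lit 18) (nat_lit 0)) (T.l (nat_lit 18) (nat_lit 18))))))) (T.n (T.n (T.n (T.n (T.l (nat_lit 19) (nat_lit 1)) (T.l (nat_lit 19) (nat_lit 19))) (T.n (T.l (nat_lit 22) (nat_lit 1)) (T.l (nat_lit 22) (nat_lit 22)))) (T.n (T.n (T.l (nat_lit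 23) (nat_lit 0)) (T.l (nat_lit 23) (nat_lit 23))) (T.n (T.l (nat_lit 24) (nat_lit 1)) (T.n (T.l (nat_lit 24) (nat_lit 24)) (T.l (nat_lit 25) (nat_lit 0)))))) (T.n (T.n (T.n (T.l (nat_lit 25) (nat_lit 25)) (T.l (nat_lit 36) (nat_lit 0))) (T.n (T.l (nat_lit 36) (nat_lit 36)) (T.l (nat_lit 37) (nat_lit 1)))) (T.n (T.n (T.l (nat_lit 37) (nat_lit 37)) (T.l (nat_lit 49) (nat_lit 1))) (T.n (T.l (nat_lit 49) (nat_lit 49)) (T.n (T.l (nat_lit 50) (nat_lit 0)) (T.l (nat_lit 50) (nat_lit 50)))))))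
def T12_2 : T := T.n (T.n (T.n (T.n (T.l (nat_lit 0) (nat_lit 17)) (T.n (T.l (nat_lit 0) (nat_lit 20)) (T.l (nat_lit 0) (nat_lit 21)))) (T.n (T.l (nat_lit 0) (nat_lit 26)) (T.n (T.l (nat_lit 0) (nat_lit 38)) (T.l (nat_lit 0) (nat_lit 48))))) (T.n (T.n (T.l (nat_lit 1) (nat_lit 17)) (T.n (T.l (nat_lit 1) (nat_lit 20)) (T.l (nat_lit 1) (nat_lit 21)))) (T.n (T.l (nat_lit 1) (nat_lit 26)) (T.n (T.l (nat_lit 1) (nat_lit 38)) (T.l (nat_lit 1) (nat_lit 48)))))) (T.n (T.n (T.n (T.l (nat_lit 17) (nat_lit 0)) (T.n (T.l (nat_lit 17) (nat_lit 1)) (T.l (nat_lit 20) (nat_lit 0)))) (T.n (T.l (nat_lit 20) (nat_lit 1)) (T.n (T.l (nat_lit 21) (nat_lit 0)) (T.l (nat_lit 21) (nat_lit 1))))) (T.n (T.n (T.l (nat_lit 26) (nat_lit 0)) (T.n (T.l (nat_lit 26) (nat_lit 1)) (T.l (nat_lit 38) (nat_lit 0)))) (T.n (T.l (nat_lit 38) (nat_lit 1)) (T.n (T.l (nat_lit 48) (nat_lit 0)) (T.l (nat_lit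 48) (nat_lit 1))))))
def T13_2 : T := T.n (T.n (T.n (T.n (T.l (nat_lit 0) (nat_lit 30)) (T.n (T.l (nat_lit 0) (nat_lit 33)) (T.l (nat_lit 0) (nat_lit 43)))) (T.n (T.l (nat_lit 0) (nat_lit 47)) (T.n (T.l (nat_lit 0) (nat_lit 55)) (T.l (nat_lit 0) (nat_lit 59))))) (T.n (T.n (T.l (nat_lit 1) (nat_lit 31)) (T.n (T.l (nat_lit 1) (nat_lit 35)) (T.l (nat_lit 1) (nat_lit 42)))) (T.n (T.l (nat_lit 1) (nat_lit 45)) (T.n (T.l (nat_lit 1) (nat_lit 56)) (T.l (nat_lit 1) (nat_lit 58)))))) (T.n (T.n (T.n (T.l (nat_lit 30) (nat_lit 0)) (T.n (T.l (nat_lit 31) (nat_lit 1)) (T.l (nat_lit 33) (nat_lit 0)))) (T.n (T.l (nat_lit 35) (nat_lit 1)) (T.n (T.l (nat_lit 42) (nat_lit 1)) (T.l (nat_lit 43) (nat_lit 0))))) (T.n (T.n (T.l (nat_lit 45) (nat_lit 1)) (T.n (T.l (nat_lit 47) (nat_lit 0)) (T.l (nat_lit 55) (nat_lit 0)))) (T.n (T.l (nat_lit 56) (nat_lit 1)) (T.n (T.l (nat_lit 58) (nat_lit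 1)) (T.l (nat_lit 59) (nat_lit 0))))))
def T14_2 : T := T.n (T.n (T.n (T.n (T.l (nat_lit 0) (nat_lit 31)) (T.n (T.l (nat_lit 0) (nat_lit 35)) (T.l (nat_lit 0) (nat_lit 42)))) (T.n (T.l (nat_lit 0) (nat_lit 45)) (T.n (T.l (nat_lit 0) (nat_lit 56)) (T.l (nat_lit 0) (nat_lit 58))))) (T.n (T.n (T.l (nat_lit 1) (nat_lit 30)) (T.n (T.l (nat_lit 1) (nat_lit 33)) (T.l (nat_lit 1) (nat_lit 43)))) (T.n (T.l (nat_lit 1) (nat_lit 47)) (T.n (T.l (nat_lit 1) (nat_lit 55)) (T.l (nat_lit 1) (nat_lit 59)))))) (T.n (T.n (T.n (T.l (nat_lit 30) (nat_lit 1)) (T.n (T.l (nat_lit 31) (nat_lit 0)) (T.l (nat_lit 33) (nat_lit 1)))) (T.n (T.l (nat_lit 35) (nat_lit 0)) (T.n (T.l (nat_lit 42) (nat_lit 0)) (T.l (nat_lit 43) (nat_lit 1))))) (T.n (T.n (T.l (nat_lit 45) (nat_lit 0)) (T.n (T.l (nat_lit 47) (nat_lit 1)) (T.l (nat_lit 55) (nat_lit 1)))) (T.n (T.l (nat_lit 56) (nat_lit 0)) (T.n (T.l (nat_lit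 58) (nat_lit 0)) (T.l (nat_lit 59) (nat_lit 1))))))
def T15_2 : T := T.n (T.n (T.n (T.n (T.l (nat_lit 0) (nat_lit 32)) (T.n (T.l (nat_lit 0) (nat_lit 34)) (T.l (nat_lit 0) (nat_lit 44)))) (T.n (T.l (nat_lit 0) (nat_lit 46)) (T.n (T.l (nat_lit 0) (nat_lit 54)) (T.l (nat_lit 0) (nat_lit 57))))) (T.n (T.n (T.l (nat_lit 1) (nat_lit 32)) (T.n (T.l (nat_lit 1) (nat_lit 34)) (T.l (nat_lit 1) (nat_lit 44)))) (T.n (T.l (nat_lit 1) (nat_lit 46)) (T.n (T.l (nat_lit 1) (nat_lit 54)) (T.l (nat_lit 1) (nat_lit 57)))))) (T.n (T.n (T.n (T.l (nat_lit 32) (nat_lit 0)) (T.n (T.l (nat_lit 32) (nat_lit 1)) (T.l (nat_lit 34) (nat_lit 0)))) (T.n (T.l (nat_lit 34) (nat_lit 1)) (T.n (T.l (nat_lit 44) (nat_lit 0)) (T.l (nat_lit 44) (nat_lit 1))))) (T.n (T.n (T.l (nat_lit 46) (nat_lit 0)) (T.n (T.l (nat_lit 46) (nat_lit 1)) (T.l (nat_lit 54) (nat_lit 0)))) (T.n (T.l (nat_lit 54) (nat_lit 1))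 (T.n (T.l (nat_lit 57) (nat_lit 0)) (T.l (nat_lit 57) (nat_lit 1))))))
def T18_2 : T := T.n (T.l (nat_lit 12) (nat_lit 12)) (T.n (T.l (nat_lit 13) (nat_lit 13)) (T.l (nat_lit 14) (nat_lit 14)))
def T20_2 : T := T.n (T.n (T.n (T.l (nat_lit 30) (nat_lit 30)) (T.n (T.l (nat_lit 31) (nat_lit 31)) (T.l (nat_lit 33) (nat_lit 33)))) (T.n (T.l (nat_lit 35) (nat_lit 35)) (T.n (T.l (nat_lit 42) (nat_lit 42)) (T.l (nat_lit 43) (nat_lit 43))))) (T.n (T.n (T.l (nat_lit 45) (nat_lit 45)) (T.n (T.l (nat_lit 47) (nat_lit 47)) (T.l (nat_lit 55) (nat_lit 55)))) (T.n (T.l (nat_lit 56) (nat_lit 56)) (T.n (T.l (nat_lit 58) (nat_lit 58)) (T.l (nat_lit 59) (nat_lit 59)))))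
def T24_2 : T := T.n (T.n (T.l (nat_lit 17) (nat_lit 17)) (T.n (T.l (nat_lit 20) (nat_lit 20)) (T.l (nat_lit 21) (nat_lit 21)))) (T.n (T.l (nat_lit 26) (nat_lit 26)) (T.n (T.l (nat_lit 38) (nat_lit 38)) (T.l (nat_lit 48) (nat_lit 48))))
def T25_2 : T := T.n (T.n (T.l (nat_lit 32) (nat_lit 32)) (T.n (T.l (nat_lit 34) (nat_lit 34)) (T.l (nat_lit 44) (nat_lit 44)))) (T.n (T.l (nat_lit 46) (nat_lit 46)) (T.n (T.l (nat_lit 54) (nat_lit 54)) (T.l (nat_lit 57) (nat_lit 57))))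
def T30_2 : T := T.n (T.n (T.n (T.n (T.n (T.l (nat_lit 2) (nat_lit 3)) (T.n (T.l (nat_lit 2) (nat_lit 4)) (T.l (nat_lit 2) (nat_lit 5)))) (T.n (T.n (T.l (nat_lit 2) (nat_lit 6)) (T.l (nat_lit 2) (nat_lit 7))) (T.n (T.l (nat_lit 2) (nat_lit 8)) (T.l (nat_lit 2) (nat_lit 9))))) (T.n (T.n (T.n (T.l (nat_lit 2) (nat_lit 10)) (T.l (nat_lit 2) (nat_lit 11))) (T.n (T.l (nat_lit 2) (nat_lit 27)) (T.l (nat_lit 2) (nat_lit 28)))) (T.n (T.n (T.l (nat_lit 2) (nat_lit 29)) (T.l (nat_lit 2) (nat_lit 39))) (T.n (T.l (nat_lit 2) (nat_lit 40)) (T.l (nat_lit 2) (nat_lit 41)))))) (T.n (T.n (T.n (T.l (nat_lit 2) (nat_lit 51)) (T.n (T.l (nat_lit 2) (nat_lit 52)) (T.l (nat_lit 2) (nat_lit 53)))) (T.n (T.n (T.l (nat_lit 3) (nat_lit 2)) (T.l (nat_lit 3) (nat_lit 7))) (T.n (T.l (nat_lit 4) (nat_lit 2)) (T.l (nat_lit 4) (nat_lit 6))))) (T.n (T.n (T.n (T.l (nat_lit 4) (nat_lit 11)) (T.l (nat_lit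 5) (nat_lit 2))) (T.n (T.l (nat_lit 5) (nat_lit 9)) (T.l (nat_lit 6) (nat_lit 2)))) (T.n (T.n (T.l (nat_lit 6) (nat_lit 4)) (T.l (nat_lit 7) (nat_lit 2))) (T.n (T.l (nat_lit 7) (nat_lit 3)) (T.l (nat_lit 7) (nat_lit 10))))))) (T.n (T.n (T.n (T.n (T.l (nat_lit 8) (nat_lit 2)) (T.n (T.l (nat_lit 8) (nat_lit 9)) (T.l (nat_lit 9) (nat_lit 2)))) (T.n (T.n (T.l (nat_lit 9) (nat_lit 5)) (T.l (nat_lit 9) (nat_lit 8))) (T.n (T.l (nat_lit 10) (nat_lit 2)) (T.l (nat_lit 10) (nat_lit 7))))) (T.n (T.n (T.n (T.l (nat_lit 11) (nat_lit 2)) (T.l (nat_lit 11) (nat_lit 4))) (T.n (T.l (nat_lit 27) (nat_lit 2)) (T.l (nat_lit 27) (nat_lit 40)))) (T.n (T.n (T.l (nat_lit 28) (nat_lit 2)) (T.l (nat_lit 28) (nat_lit 39))) (T.n (T.l (nat_lit 28) (nat_lit 53)) (T.l (nat_lit 29) (nat_lit 2)))))) (T.n (T.n (T.n (T.l (nat_lit 29) (nat_lit 51)) (T.n (T.l (nat_lit 39) (nat_lit 2)) (T.l (nat_lit 39)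 (nat_lit 28)))) (T.n (T.n (T.l (nat_lit 40) (nat_lit 2)) (T.l (nat_lit 40) (nat_lit 27))) (T.n (T.l (nat_lit 40) (nat_lit 52)) (T.l (nat_lit 41) (nat_lit 2))))) (T.n (T.n (T.n (T.l (nat_lit 41) (nat_lit 51)) (T.l (nat_lit 51) (nat_lit 2))) (T.n (T.l (nat_lit 51) (nat_lit 29)) (T.l (nat_lit 51) (nat_lit 41)))) (T.n (T.n (T.l (nat_lit 52) (nat_lit 2)) (T.l (nat_lit 52) (nat_lit 40))) (T.n (T.l (nat_lit 53) (nat_lit 2)) (T.l (nat_lit 53) (nat_lit 28)))))))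
def T31_2 : T := T.n (T.n (T.l (nat_lit 2) (nat_lit 12)) (T.n (T.l (nat_lit 2) (nat_lit 13)) (T.l (nat_lit 2) (nat_lit 14)))) (T.n (T.l (nat_lit 12) (nat_lit 2)) (T.n (T.l (nat_lit 13) (nat_lit 2)) (T.l (nat_lit 14) (nat_lit 2))))
def T32_2 : T := T.n (T.n (T.n (T.n (T.n (T.l (nat_lit 2) (nat_lit 15)) (T.n (T.l (nat_lit 2) (nat_lit 16)) (T.l (nat_lit 2) (nat_lit 17)))) (T.n (T.l (nat_lit 2) (nat_lit 18)) (T.n (T.l (nat_lit 2) (nat_lit 19)) (T.l (nat_lit 2) (nat_lit 20))))) (T.n (T.n (T.l (nat_lit 2) (nat_lit 21)) (T.n (T.l (nat_lit 2) (nat_lit 22)) (T.l (nat_lit 2) (nat_lit 23)))) (T.n (T.l (nat_lit 2) (nat_lit 24)) (T.n (T.l (nat_lit 2) (nat_lit 25)) (T.l (nat_lit 2) (nat_lit 26)))))) (T.n (T.n (T.n (T.l (nat_lit 2) (nat_lit 36)) (T.n (T.l (nat_lit 2) (nat_lit 37)) (T.l (nat_lit 2) (nat_lit 38)))) (T.n (T.l (nat_lit 2) (nat_lit 48)) (T.n (T.l (nat_lit 2) (nat_lit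 49)) (T.l (nat_lit 2) (nat_lit 50))))) (T.n (T.n (T.l (nat_lit 15) (nat_lit 2)) (T.n (T.l (nat_lit 15) (nat_lit 24)) (T.l (nat_lit 16) (nat_lit 2)))) (T.n (T.l (nat_lit 16) (nat_lit 25)) (T.n (T.l (nat_lit 17) (nat_lit 2)) (T.l (nat_lit 18) (nat_lit 2))))))) (T.n (T.n (T.n (T.n (T.l (nat_lit 18) (nat_lit 36)) (T.n (T.l (nat_lit 19) (nat_lit 2)) (T.l (nat_lit 19) (nat_lit 37)))) (T.n (T.l (nat_lit 20) (nat_lit 2)) (T.n (T.l (nat_lit 21) (nat_lit 2)) (T.l (nat_lit 22) (nat_lit 2))))) (T.n (T.n (T.l (nat_lit 22) (nat_lit 49)) (T.n (T.l (nat_lit 23) (nat_lit 2)) (T.l (nat_lit 23) (nat_lit 50)))) (T.n (T.l (nat_lit 24) (nat_lit 2)) (T.n (T.l (nat_lit 24) (nat_lit 15)) (T.l (nat_lit 25) (nat_lit 2)))))) (T.n (T.n (T.n (T.l (nat_lit 25) (nat_lit 16)) (T.n (T.l (nat_lit 26) (nat_lit 2)) (T.l (nat_lit 36) (nat_lit 2)))) (T.n (T.l (nat_lit 36) (nat_lit 18)) (T.n (T.l (nat_lit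 37) (nat_lit 2)) (T.l (nat_lit 37) (nat_lit 19))))) (T.n (T.n (T.l (nat_lit 38) (nat_lit 2)) (T.n (T.l (nat_lit 48) (nat_lit 2)) (T.l (nat_lit 49) (nat_lit 2)))) (T.n (T.l (nat_lit 49) (nat_lit 22)) (T.n (T.l (nat_lit 50) (nat_lit 2)) (T.l (nat_lit 50) (nat_lit 23)))))))
def T33_2 : T := T.n (T.n (T.n (T.n (T.n (T.l (nat_lit 2) (nat_lit 30)) (T.l (nat_lit 2) (nat_lit 31))) (T.n (T.l (nat_lit 2) (nat_lit 32)) (T.l (nat_lit 2) (nat_lit 33)))) (T.n (T.n (T.l (nat_lit 2) (nat_lit 34)) (T.l (nat_lit 2) (nat_lit 35))) (T.n (T.l (nat_lit 2) (nat_lit 42)) (T.n (T.l (nat_lit 2) (nat_lit 43)) (T.l (nat_lit 2) (nat_lit 44)))))) (T.n (T.n (T.n (T.l (nat_lit 2) (nat_lit 45)) (T.l (nat_lit 2) (nat_lit 46))) (T.n (T.l (nat_lit 2) (nat_lit 47)) (T.l (nat_lit 2) (nat_lit 54)))) (T.n (T.n (T.l (nat_lit 2) (nat_lit 55)) (T.l (nat_lit 2) (nat_lit 56))) (T.n (T.l (nat_lit 2) (nat_lit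 57)) (T.n (T.l (nat_lit 2) (nat_lit 58)) (T.l (nat_lit 2) (nat_lit 59))))))) (T.n (T.n (T.n (T.n (T.l (nat_lit 30) (nat_lit 2)) (T.l (nat_lit 31) (nat_lit 2))) (T.n (T.l (nat_lit 32) (nat_lit 2)) (T.l (nat_lit 33) (nat_lit 2)))) (T.n (T.n (T.l (nat_lit 34) (nat_lit 2)) (T.l (nat_lit 35) (nat_lit 2))) (T.n (T.l (nat_lit 42) (nat_lit 2)) (T.n (T.l (nat_lit 43) (nat_lit 2)) (T.l (nat_lit 44) (nat_lit 2)))))) (T.n (T.n (T.n (T.l (nat_lit 45) (nat_lit 2)) (T.l (nat_lit 46) (nat_lit 2))) (T.n (T.l (nat_lit 47) (nat_lit 2)) (T.l (nat_lit 54) (nat_lit 2)))) (T.n (T.n (T.l (nat_lit 55) (nat_lit 2)) (T.l (nat_lit 56) (nat_lit 2))) (T.n (T.l (nat_lit 57) (nat_lit 2)) (T.n (T.l (nat_lit 58) (nat_lit 2)) (T.l (nat_lit 59) (nat_lit 2)))))))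
def T34_2 : T := T.n (T.n (T.n (T.n (T.n (T.l (nat_lit 3) (nat_lit 4)) (T.n (T.l (nat_lit 3) (nat_lit 9)) (T.l (nat_lit 4) (nat_lit 3)))) (T.n (T.n (T.l (nat_lit 4) (nat_lit 5)) (T.l (nat_lit 4) (nat_lit 7))) (T.n (T.l (nat_lit 4) (nat_lit 8)) (T.l (nat_lit 4) (nat_lit 9))))) (T.n (T.n (T.n (T.l (nat_lit 4) (nat_lit 10)) (T.l (nat_lit 5) (nat_lit 4))) (T.n (T.l (nat_lit 5) (nat_lit 7)) (T.l (nat_lit 6) (nat_lit 7)))) (T.n (T.n (T.l (nat_lit 6) (nat_lit 9)) (T.l (nat_lit 7) (nat_lit 4))) (T.n (T.l (nat_lit 7) (nat_lit 5)) (T.l (nat_lit 7) (nat_lit 6)))))) (T.n (T.n (T.n (T.l (nat_lit 7) (nat_lit 8)) (T.n (T.l (nat_lit 7) (nat_lit 9)) (T.l (nat_lit 7) (nat_lit 11)))) (T.n (T.n (T.l (nat_lit 8) (nat_lit 4)) (T.l (nat_lit 8) (nat_lit 7))) (T.n (T.l (nat_lit 9) (nat_lit 3)) (T.l (nat_lit 9) (nat_lit 4))))) (T.n (T.n (T.n (T.l (nat_lit 9) (nat_lit 6)) (T.l (nat_lit 9) (nat_lit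 7))) (T.n (T.l (nat_lit 9) (nat_lit 10)) (T.l (nat_lit 9) (nat_lit 11)))) (T.n (T.n (T.l (nat_lit 10) (nat_lit 4)) (T.l (nat_lit 10) (nat_lit 9))) (T.n (T.l (nat_lit 11) (nat_lit 7)) (T.l (nat_lit 11) (nat_lit 9))))))) (T.n (T.n (T.n (T.n (T.l (nat_lit 27) (nat_lit 28)) (T.n (T.l (nat_lit 27) (nat_lit 51)) (T.l (nat_lit 28) (nat_lit 27)))) (T.n (T.n (T.l (nat_lit 28) (nat_lit 29)) (T.l (nat_lit 28) (nat_lit 40))) (T.n (T.l (nat_lit 28) (nat_lit 41)) (T.l (nat_lit 28) (nat_lit 51))))) (T.n (T.n (T.n (T.l (nat_lit 28) (nat_lit 52)) (T.l (nat_lit 29) (nat_lit 28))) (T.n (T.l (nat_lit 29) (nat_lit 40)) (T.l (nat_lit 39) (nat_lit 40)))) (T.n (T.n (T.l (nat_lit 39) (nat_lit 51)) (T.l (nat_lit 40) (nat_lit 28))) (T.n (T.l (nat_lit 40) (nat_lit 29)) (T.l (nat_lit 40) (nat_lit 39)))))) (T.n (T.n (T.n (T.l (nat_lit 40) (nat_lit 41)) (T.n (T.l (nat_lit 40) (nat_lit 51)) (T.l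 (nat_lit 40) (nat_lit 53)))) (T.n (T.n (T.l (nat_lit 41) (nat_lit 28)) (T.l (nat_lit 41) (nat_lit 40))) (T.n (T.l (nat_lit 51) (nat_lit 27)) (T.l (nat_lit 51) (nat_lit 28))))) (T.n (T.n (T.n (T.l (nat_lit 51) (nat_lit 39)) (T.l (nat_lit 51) (nat_lit 40))) (T.n (T.l (nat_lit 51) (nat_lit 52)) (T.l (nat_lit 51) (nat_lit 53)))) (T.n (T.n (T.l (nat_lit 52) (nat_lit 28)) (T.l (nat_lit 52) (nat_lit 51))) (T.n (T.l (nat_lit 53) (nat_lit 40)) (T.l (nat_lit 53) (nat_lit 51)))))))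
def T35_2 : T := T.n (T.n (T.n (T.n (T.l (nat_lit 3) (nat_lit 5)) (T.n (T.l (nat_lit 3) (nat_lit 6)) (T.l (nat_lit 5) (nat_lit 3)))) (T.n (T.l (nat_lit 5) (nat_lit 11)) (T.n (T.l (nat_lit 6) (nat_lit 3)) (T.l (nat_lit 6) (nat_lit 8))))) (T.n (T.n (T.l (nat_lit 8) (nat_lit 6)) (T.n (T.l (nat_lit 8) (nat_lit 10)) (T.l (nat_lit 10) (nat_lit 8)))) (T.n (T.l (nat_lit 10) (nat_lit 11)) (T.n (T.l (nat_lit 11) (nat_lit 5)) (T.l (nat_lit 11) (nat_lit 10)))))) (T.n (T.n (T.n (T.l (nat_lit 27) (nat_lit 29)) (T.n (T.l (nat_lit 27) (nat_lit 39)) (T.l (nat_lit 29) (nat_lit 27)))) (T.n (T.l (nat_lit 29) (nat_lit 53)) (T.n (T.l (nat_lit 39) (nat_lit 27)) (T.l (nat_lit 39) (nat_lit 41))))) (T.n (T.n (T.l (nat_lit 41) (nat_lit 39)) (T.n (T.l (nat_lit 41) (nat_lit 52)) (T.l (nat_lit 52) (nat_lit 41)))) (T.n (T.l (nat_lit 52) (nat_lit 53)) (T.n (T.l (nat_lit 53) (nat_lit 29)) (T.l (nat_lit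 53) (nat_lit 52))))))
def T36_2 : T := T.n (T.n (T.n (T.n (T.l (nat_lit 3) (nat_lit 8)) (T.n (T.l (nat_lit 3) (nat_lit 11)) (T.l (nat_lit 5) (nat_lit 6)))) (T.n (T.l (nat_lit 5) (nat_lit 10)) (T.n (T.l (nat_lit 6) (nat_lit 5)) (T.l (nat_lit 6) (nat_lit 10))))) (T.n (T.n (T.l (nat_lit 8) (nat_lit 3)) (T.n (T.l (nat_lit 8) (nat_lit 11)) (T.l (nat_lit 10) (nat_lit 5)))) (T.n (T.l (nat_lit 10) (nat_lit 6)) (T.n (T.l (nat_lit 11) (nat_lit 3)) (T.l (nat_lit 11) (nat_lit 8)))))) (T.n (T.n (T.n (T.l (nat_lit 27) (nat_lit 41)) (T.n (T.l (nat_lit 27) (nat_lit 53)) (T.l (nat_lit 29) (nat_lit 39)))) (T.n (T.l (nat_lit 29) (nat_lit 52)) (T.n (T.l (nat_lit 39) (nat_lit 29)) (T.l (nat_lit 39) (nat_lit 52))))) (T.n (T.n (T.l (nat_lit 41) (nat_lit 27)) (T.n (T.l (nat_lit 41) (nat_lit 53)) (T.l (nat_lit 52) (nat_lit 29)))) (T.n (T.l (nat_lit 52) (nat_lit 39)) (T.n (T.l (nat_lit 53)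 (nat_lit 27)) (T.l (nat_lit 53) (nat_lit 41))))))
def T37_2 : T := T.n (T.n (T.n (T.l (nat_lit 3) (nat_lit 10)) (T.n (T.l (nat_lit 5) (nat_lit 8)) (T.l (nat_lit 6) (nat_lit 11)))) (T.n (T.l (nat_lit 8) (nat_lit 5)) (T.n (T.l (nat_lit 10) (nat_lit 3)) (T.l (nat_lit 11) (nat_lit 6))))) (T.n (T.n (T.l (nat_lit 27) (nat_lit 52)) (T.n (T.l (nat_lit 29) (nat_lit 41)) (T.l (nat_lit 39) (nat_lit 53)))) (T.n (T.l (nat_lit 41) (nat_lit 29)) (T.n (T.l (nat_lit 52) (nat_lit 27)) (T.l (nat_lit 53) (nat_lit 39)))))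
def T38_2 : T := T.n (T.n (T.n (T.n (T.n (T.l (nat_lit 3) (nat_lit 12)) (T.l (nat_lit 3) (nat_lit 52))) (T.n (T.l (nat_lit 5) (nat_lit 14)) (T.l (nat_lit 5) (nat_lit 41)))) (T.n (T.n (T.l (nat_lit 6) (nat_lit 13)) (T.l (nat_lit 6) (nat_lit 53))) (T.n (T.l (nat_lit 8) (nat_lit 14)) (T.n (T.l (nat_lit 8) (nat_lit 29)) (T.l (nat_lit 10) (nat_lit 12)))))) (T.n (T.n (T.n (T.l (nat_lit 10) (nat_lit 27)) (T.l (nat_lit 11) (nat_lit 13))) (T.n (T.l (nat_lit 11) (nat_lit 39)) (T.l (nat_lit 12) (nat_lit 3)))) (T.n (T.n (T.l (nat_lit 12) (nat_lit 10)) (T.l (nat_lit 12) (nat_lit 27))) (T.n (T.l (nat_lit 12) (nat_lit 52)) (T.n (T.l (nat_lit 13) (nat_lit 6)) (T.l (nat_lit 13) (nat_lit 11))))))) (T.n (T.n (T.n (T.n (T.l (nat_lit 13) (nat_lit 39)) (T.l (nat_lit 13) (nat_lit 53))) (T.n (T.l (nat_lit 14) (nat_lit 5)) (T.l (nat_lit 14) (nat_lit 8)))) (T.n (T.n (T.l (nat_lit 14) (nat_lit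 29)) (T.l (nat_lit 14) (nat_lit 41))) (T.n (T.l (nat_lit 27) (nat_lit 10)) (T.n (T.l (nat_lit 27) (nat_lit 12)) (T.l (nat_lit 29) (nat_lit 8)))))) (T.n (T.n (T.n (T.l (nat_lit 29) (nat_lit 14)) (T.l (nat_lit 39) (nat_lit 11))) (T.n (T.l (nat_lit 39) (nat_lit 13)) (T.l (nat_lit 41) (nat_lit 5)))) (T.n (T.n (T.l (nat_lit 41) (nat_lit 14)) (T.l (nat_lit 52) (nat_lit 3))) (T.n (T.l (nat_lit 52) (nat_lit 12)) (T.n (T.l (nat_lit 53) (nat_lit 6)) (T.l (nat_lit 53) (nat_lit 13)))))))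
def T39_2 : T := T.n (T.n (T.n (T.n (T.n (T.l (nat_lit 3) (nat_lit 27)) (T.n (T.l (nat_lit 3) (nat_lit 40)) (T.l (nat_lit 4) (nat_lit 13)))) (T.n (T.l (nat_lit 4) (nat_lit 39)) (T.n (T.l (nat_lit 4) (nat_lit 53)) (T.l (nat_lit 5) (nat_lit 29))))) (T.n (T.n (T.l (nat_lit 5) (nat_lit 51)) (T.n (T.l (nat_lit 6) (nat_lit 28)) (T.l (nat_lit 6) (nat_lit 39)))) (T.n (T.l (nat_lit 7) (nat_lit 12)) (T.n (T.l (nat_lit 7) (nat_lit 27)) (T.l (nat_lit 7) (nat_lit 52)))))) (T.n (T.n (T.n (T.l (nat_lit 8) (nat_lit 41)) (T.n (T.l (nat_lit 8) (nat_lit 51)) (T.l (nat_lit 9) (nat_lit 14)))) (T.n (T.l (nat_lit 9) (nat_lit 29)) (T.n (T.l (nat_lit 9) (nat_lit 41)) (T.l (nat_lit 10) (nat_lit 40))))) (T.n (T.n (T.l (nat_lit 10) (nat_lit 52)) (T.n (T.l (nat_lit 11) (nat_lit 28)) (T.l (nat_lit 11) (nat_lit 53)))) (T.n (T.l (nat_lit 12) (nat_lit 7)) (T.n (T.l (nat_lit 12) (nat_lit 40)) (T.l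 (nat_lit 13) (nat_lit 4))))))) (T.n (T.n (T.n (T.n (T.l (nat_lit 13) (nat_lit 28)) (T.n (T.l (nat_lit 14) (nat_lit 9)) (T.l (nat_lit 14) (nat_lit 51)))) (T.n (T.l (nat_lit 27) (nat_lit 3)) (T.n (T.l (nat_lit 27) (nat_lit 7)) (T.l (nat_lit 28) (nat_lit 6))))) (T.n (T.n (T.l (nat_lit 28) (nat_lit 11)) (T.n (T.l (nat_lit 28) (nat_lit 13)) (T.l (nat_lit 29) (nat_lit 5)))) (T.n (T.l (nat_lit 29) (nat_lit 9)) (T.n (T.l (nat_lit 39) (nat_lit 4)) (T.l (nat_lit 39) (nat_lit 6)))))) (T.n (T.n (T.n (T.l (nat_lit 40) (nat_lit 3)) (T.n (T.l (nat_lit 40) (nat_lit 10)) (T.l (nat_lit 40) (nat_lit 12)))) (T.n (T.l (nat_lit 41) (nat_lit 8)) (T.n (T.l (nat_lit 41) (nat_lit 9)) (T.l (nat_lit 51) (nat_lit 5))))) (T.n (T.n (T.l (nat_lit 51) (nat_lit 8)) (T.n (T.l (nat_lit 51) (nat_lit 14)) (T.l (nat_lit 52) (nat_lit 7)))) (T.n (T.l (nat_lit 52) (nat_lit 10)) (T.n (T.l (nat_lit 53) (nat_lit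 4)) (T.l (nat_lit 53) (nat_lit 11)))))))
def T40_2 : T := T.n (T.n (T.n (T.n (T.n (T.n (T.l (nat_lit 3) (nat_lit 29)) (T.l (nat_lit 3) (nat_lit 31))) (T.n (T.l (nat_lit 3) (nat_lit 39)) (T.l (nat_lit 3) (nat_lit 42)))) (T.n (T.n (T.l (nat_lit 5) (nat_lit 27)) (T.l (nat_lit 5) (nat_lit 33))) (T.n (T.l (nat_lit 5) (nat_lit 53)) (T.n (T.l (nat_lit 5) (nat_lit 55)) (T.l (nat_lit 6) (nat_lit 27)))))) (T.n (T.n (T.n (T.l (nat_lit 6) (nat_lit 30)) (T.l (nat_lit 6) (nat_lit 41))) (T.n (T.l (nat_lit 6) (nat_lit 43)) (T.l (nat_lit 8) (nat_lit 39)))) (T.n (T.n (T.l (nat_lit 8) (nat_lit 45)) (T.l (nat_lit 8) (nat_lit 52))) (T.n (T.l (nat_lit 8) (nat_lit 58)) (T.n (T.l (nat_lit 10) (nat_lit 41)) (T.l (nat_lit 10) (nat_lit 47))))))) (T.n (T.n (T.n (T.n (T.l (nat_lit 10) (nat_lit 53)) (T.l (nat_lit 10) (nat_lit 59))) (T.n (T.l (nat_lit 11) (nat_lit 29)) (T.l (nat_lit 11) (nat_lit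 35)))) (T.n (T.n (T.l (nat_lit 11) (nat_lit 52)) (T.l (nat_lit 11) (nat_lit 56))) (T.n (T.l (nat_lit 27) (nat_lit 5)) (T.n (T.l (nat_lit 27) (nat_lit 6)) (T.l (nat_lit 27) (nat_lit 31)))))) (T.n (T.n (T.n (T.l (nat_lit 27) (nat_lit 42)) (T.l (nat_lit 29) (nat_lit 3))) (T.n (T.l (nat_lit 29) (nat_lit 11)) (T.l (nat_lit 29) (nat_lit 33)))) (T.n (T.n (T.l (nat_lit 29) (nat_lit 55)) (T.l (nat_lit 30) (nat_lit 6))) (T.n (T.l (nat_lit 30) (nat_lit 39)) (T.n (T.l (nat_lit 31) (nat_lit 3)) (T.l (nat_lit 31) (nat_lit 27)))))))) (T.n (T.n (T.n (T.n (T.n (T.l (nat_lit 33) (nat_lit 5)) (T.l (nat_lit 33) (nat_lit 29))) (T.n (T.l (nat_lit 35) (nat_lit 11)) (T.l (nat_lit 35) (nat_lit 53)))) (T.n (T.n (T.l (nat_lit 39) (nat_lit 3)) (T.l (nat_lit 39) (nat_lit 8))) (T.n (T.l (nat_lit 39) (nat_lit 30)) (T.n (T.l (nat_lit 39) (nat_lit 43)) (T.l (nat_lit 41) (nat_lit 6)))))) (T.n (T.n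 (T.n (T.l (nat_lit 41) (nat_lit 10)) (T.l (nat_lit 41) (nat_lit 45))) (T.n (T.l (nat_lit 41) (nat_lit 58)) (T.l (nat_lit 42) (nat_lit 3)))) (T.n (T.n (T.l (nat_lit 42) (nat_lit 27)) (T.l (nat_lit 43) (nat_lit 6))) (T.n (T.l (nat_lit 43) (nat_lit 39)) (T.n (T.l (nat_lit 45) (nat_lit 8)) (T.l (nat_lit 45) (nat_lit 41))))))) (T.n (T.n (T.n (T.n (T.l (nat_lit 47) (nat_lit 10)) (T.l (nat_lit 47) (nat_lit 52))) (T.n (T.l (nat_lit 52) (nat_lit 8)) (T.l (nat_lit 52) (nat_lit 11)))) (T.n (T.n (T.l (nat_lit 52) (nat_lit 47)) (T.l (nat_lit 52) (nat_lit 59))) (T.n (T.l (nat_lit 53) (nat_lit 5)) (T.n (T.l (nat_lit 53) (nat_lit 10)) (T.l (nat_lit 53) (nat_lit 35)))))) (T.n (T.n (T.n (T.l (nat_lit 53) (nat_lit 56)) (T.l (nat_lit 55) (nat_lit 5))) (T.n (T.l (nat_lit 55) (nat_lit 29)) (T.l (nat_lit 56) (nat_lit 11)))) (T.n (T.n (T.l (nat_lit 56) (nat_lit 53)) (T.l (nat_lit 58) (nat_lit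 8))) (T.n (T.l (nat_lit 58) (nat_lit 41)) (T.n (T.l (nat_lit 59) (nat_lit 10)) (T.l (nat_lit 59) (nat_lit 52))))))))
def T41_2 : T := T.n (T.n (T.n (T.n (T.n (T.l (nat_lit 4) (nat_lit 15)) (T.n (T.l (nat_lit 4) (nat_lit 16)) (T.l (nat_lit 4) (nat_lit 37)))) (T.n (T.n (T.l (nat_lit 4) (nat_lit 40)) (T.l (nat_lit 4) (nat_lit 50))) (T.n (T.l (nat_lit 4) (nat_lit 51)) (T.l (nat_lit 7) (nat_lit 18))))) (T.n (T.n (T.n (T.l (nat_lit 7) (nat_lit 19)) (T.l (nat_lit 7) (nat_lit 25))) (T.n (T.l (nat_lit 7) (nat_lit 28)) (T.l (nat_lit 7) (nat_lit 49)))) (T.n (T.n (T.l (nat_lit 7) (nat_lit 51)) (T.l (nat_lit 9) (nat_lit 22))) (T.n (T.l (nat_lit 9) (nat_lit 23)) (T.l (nat_lit 9) (nat_lit 24)))))) (T.n (T.n (T.n (T.l (nat_lit 9) (nat_lit 28)) (T.n (T.l (nat_lit 9) (nat_lit 36)) (T.l (nat_lit 9) (nat_lit 40)))) (T.n (T.n (T.l (nat_lit 15) (nat_lit 4)) (T.l (nat_lit 15) (nat_lit 51)))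 (T.n (T.l (nat_lit 16) (nat_lit 4)) (T.l (nat_lit 16) (nat_lit 40))))) (T.n (T.n (T.n (T.l (nat_lit 18) (nat_lit 7)) (T.l (nat_lit 18) (nat_lit 51))) (T.n (T.l (nat_lit 19) (nat_lit 7)) (T.l (nat_lit 19) (nat_lit 28)))) (T.n (T.n (T.l (nat_lit 22) (nat_lit 9)) (T.l (nat_lit 22) (nat_lit 40))) (T.n (T.l (nat_lit 23) (nat_lit 9)) (T.l (nat_lit 23) (nat_lit 28))))))) (T.n (T.n (T.n (T.n (T.l (nat_lit 24) (nat_lit 9)) (T.n (T.l (nat_lit 24) (nat_lit 28)) (T.l (nat_lit 25) (nat_lit 7)))) (T.n (T.n (T.l (nat_lit 25) (nat_lit 28)) (T.l (nat_lit 28) (nat_lit 7))) (T.n (T.l (nat_lit 28) (nat_lit 9)) (T.l (nat_lit 28) (nat_lit 19))))) (T.n (T.n (T.n (T.l (nat_lit 28) (nat_lit 23)) (T.l (nat_lit 28) (nat_lit 24))) (T.n (T.l (nat_lit 28) (nat_lit 25)) (T.l (nat_lit 36) (nat_lit 9)))) (T.n (T.n (T.l (nat_lit 36) (nat_lit 40)) (T.l (nat_lit 37) (nat_lit 4))) (T.n (T.l (nat_lit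 37) (nat_lit 40)) (T.l (nat_lit 40) (nat_lit 4)))))) (T.n (T.n (T.n (T.l (nat_lit 40) (nat_lit 9)) (T.n (T.l (nat_lit 40) (nat_lit 16)) (T.l (nat_lit 40) (nat_lit 22)))) (T.n (T.n (T.l (nat_lit 40) (nat_lit 36)) (T.l (nat_lit 40) (nat_lit 37))) (T.n (T.l (nat_lit 49) (nat_lit 7)) (T.l (nat_lit 49) (nat_lit 51))))) (T.n (T.n (T.n (T.l (nat_lit 50) (nat_lit 4)) (T.l (nat_lit 50) (nat_lit 51))) (T.n (T.l (nat_lit 51) (nat_lit 4)) (T.l (nat_lit 51) (nat_lit 7)))) (T.n (T.n (T.l (nat_lit 51) (nat_lit 15)) (T.l (nat_lit 51) (nat_lit 18))) (T.n (T.l (nat_lit 51) (nat_lit 49)) (T.l (nat_lit 51) (nat_lit 50)))))))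
def T42_2 : T := T.n (T.n (T.n (T.n (T.n (T.n (T.l (nat_lit 4) (nat_lit 17)) (T.l (nat_lit 4) (nat_lit 26))) (T.n (T.l (nat_lit 4) (nat_lit 31)) (T.l (nat_lit 4) (nat_lit 33)))) (T.n (T.n (T.l (nat_lit 4) (nat_lit 47)) (T.l (nat_lit 4) (nat_lit 58))) (T.n (T.l (nat_lit 7) (nat_lit 20)) (T.n (T.l (nat_lit 7) (nat_lit 35)) (T.l (nat_lit 7) (nat_lit 38)))))) (T.n (T.n (T.n (T.l (nat_lit 7) (nat_lit 43)) (T.l (nat_lit 7) (nat_lit 45))) (T.n (T.l (nat_lit 7) (nat_lit 55)) (T.l (nat_lit 9) (nat_lit 21)))) (T.n (T.n (T.l (nat_lit 9) (nat_lit 30)) (T.l (nat_lit 9) (nat_lit 42))) (T.n (T.l (nat_lit 9) (nat_lit 48)) (T.n (T.l (nat_lit 9) (nat_lit 56)) (T.l (nat_lit 9) (nat_lit 59))))))) (T.n (T.n (T.n (T.n (T.l (nat_lit 17) (nat_lit 4)) (T.l (nat_lit 17) (nat_lit 28))) (T.n (T.l (nat_lit 20) (nat_lit 7)) (T.l (nat_lit 20) (nat_lit 40)))) (T.n (T.n (T.l (nat_lit 21) (nat_lit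 9)) (T.l (nat_lit 21) (nat_lit 51))) (T.n (T.l (nat_lit 26) (nat_lit 4)) (T.n (T.l (nat_lit 26) (nat_lit 28)) (T.l (nat_lit 28) (nat_lit 17)))))) (T.n (T.n (T.n (T.l (nat_lit 28) (nat_lit 26)) (T.l (nat_lit 28) (nat_lit 42))) (T.n (T.l (nat_lit 28) (nat_lit 45)) (T.l (nat_lit 28) (nat_lit 55)))) (T.n (T.n (T.l (nat_lit 28) (nat_lit 59)) (T.l (nat_lit 30) (nat_lit 9))) (T.n (T.l (nat_lit 30) (nat_lit 40)) (T.n (T.l (nat_lit 31) (nat_lit 4)) (T.l (nat_lit 31) (nat_lit 51)))))))) (T.n (T.n (T.n (T.n (T.n (T.l (nat_lit 33) (nat_lit 4)) (T.l (nat_lit 33) (nat_lit 40))) (T.n (T.l (nat_lit 35) (nat_lit 7)) (T.l (nat_lit 35) (nat_lit 51)))) (T.n (T.n (T.l (nat_lit 38) (nat_lit 7)) (T.l (nat_lit 38) (nat_lit 40))) (T.n (T.l (nat_lit 40) (nat_lit 20)) (T.n (T.l (nat_lit 40) (nat_lit 30)) (T.l (nat_lit 40) (nat_lit 33)))))) (T.n (T.n (T.n (T.l (nat_lit 40) (nat_lit 38)) (T.l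 (nat_lit 40) (nat_lit 56))) (T.n (T.l (nat_lit 40) (nat_lit 58)) (T.l (nat_lit 42) (nat_lit 9)))) (T.n (T.n (T.l (nat_lit 42) (nat_lit 28)) (T.l (nat_lit 43) (nat_lit 7))) (T.n (T.l (nat_lit 43) (nat_lit 51)) (T.n (T.l (nat_lit 45) (nat_lit 7)) (T.l (nat_lit 45) (nat_lit 28))))))) (T.n (T.n (T.n (T.n (T.l (nat_lit 47) (nat_lit 4)) (T.l (nat_lit 47) (nat_lit 51))) (T.n (T.l (nat_lit 48) (nat_lit 9)) (T.l (nat_lit 48) (nat_lit 51)))) (T.n (T.n (T.l (nat_lit 51) (nat_lit 21)) (T.l (nat_lit 51) (nat_lit 31))) (T.n (T.l (nat_lit 51) (nat_lit 35)) (T.n (T.l (nat_lit 51) (nat_lit 43)) (T.l (nat_lit 51) (nat_lit 47)))))) (T.n (T.n (T.n (T.l (nat_lit 51) (nat_lit 48)) (T.l (nat_lit 55) (nat_lit 7))) (T.n (T.l (nat_lit 55) (nat_lit 28)) (T.l (nat_lit 56) (nat_lit 9)))) (T.n (T.n (T.l (nat_lit 56) (nat_lit 40)) (T.l (nat_lit 58) (nat_lit 4))) (T.n (T.l (nat_lit 58) (nat_lit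 40)) (T.n (T.l (nat_lit 59) (nat_lit 9)) (T.l (nat_lit 59) (nat_lit 28))))))))
def T43_2 : T := T.n (T.n (T.l (nat_lit 4) (nat_lit 28)) (T.n (T.l (nat_lit 7) (nat_lit 40)) (T.l (nat_lit 9) (nat_lit 51)))) (T.n (T.l (nat_lit 28) (nat_lit 4)) (T.n (T.l (nat_lit 40) (nat_lit 7)) (T.l (nat_lit 51) (nat_lit 9))))
def T44_2 : T := T.n (T.n (T.n (T.n (T.l (nat_lit 4) (nat_lit 32)) (T.n (T.l (nat_lit 4) (nat_lit 34)) (T.l (nat_lit 7) (nat_lit 44)))) (T.n (T.l (nat_lit 7) (nat_lit 46)) (T.n (T.l (nat_lit 9) (nat_lit 54)) (T.l (nat_lit 9) (nat_lit 57))))) (T.n (T.n (T.l (nat_lit 28) (nat_lit 44)) (T.n (T.l (nat_lit 28) (nat_lit 54)) (T.l (nat_lit 32) (nat_lit 4)))) (T.n (T.l (nat_lit 32) (nat_lit 40)) (T.n (T.l (nat_lit 34) (nat_lit 4)) (T.l (nat_lit 34) (nat_lit 51)))))) (T.n (T.n (T.n (T.l (nat_lit 40) (nat_lit 32)) (T.n (T.l (nat_lit 40) (nat_lit 57)) (T.l (nat_lit 44) (nat_lit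 7)))) (T.n (T.l (nat_lit 44) (nat_lit 28)) (T.n (T.l (nat_lit 46) (nat_lit 7)) (T.l (nat_lit 46) (nat_lit 51))))) (T.n (T.n (T.l (nat_lit 51) (nat_lit 34)) (T.n (T.l (nat_lit 51) (nat_lit 46)) (T.l (nat_lit 54) (nat_lit 9)))) (T.n (T.l (nat_lit 54) (nat_lit 28)) (T.n (T.l (nat_lit 57) (nat_lit 9)) (T.l (nat_lit 57) (nat_lit 40))))))
def T45_2 : T := T.n (T.n (T.l (nat_lit 12) (nat_lit 13)) (T.n (T.l (nat_lit 12) (nat_lit 14)) (T.l (nat_lit 13) (nat_lit 12)))) (T.n (T.l (nat_lit 13) (nat_lit 14)) (T.n (T.l (nat_lit 14) (nat_lit 12)) (T.l (nat_lit 14) (nat_lit 13))))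
def T46_2 : T := T.n (T.n (T.n (T.n (T.l (nat_lit 12) (nat_lit 15)) (T.n (T.l (nat_lit 12) (nat_lit 23)) (T.l (nat_lit 12) (nat_lit 24)))) (T.n (T.l (nat_lit 12) (nat_lit 50)) (T.n (T.l (nat_lit 13) (nat_lit 18)) (T.l (nat_lit 13) (nat_lit 22))))) (T.n (T.n (T.l (nat_lit 13) (nat_lit 36)) (T.n (T.l (nat_lit 13) (nat_lit 49)) (T.l (nat_lit 14) (nat_lit 16)))) (T.n (T.l (nat_lit 14) (nat_lit 19)) (T.n (T.l (nat_lit 14) (nat_lit 25)) (T.l (nat_lit 14) (nat_lit 37)))))) (T.n (T.n (T.n (T.l (nat_lit 15) (nat_lit 12)) (T.n (T.l (nat_lit 16) (nat_lit 14)) (T.l (nat_lit 18) (nat_lit 13)))) (T.n (T.l (nat_lit 19) (nat_lit 14)) (T.n (T.l (nat_lit 22) (nat_lit 13)) (T.l (nat_lit 23) (nat_lit 12))))) (T.n (T.n (T.l (nat_lit 24) (nat_lit 12)) (T.n (T.l (nat_lit 25) (nat_lit 14)) (T.l (nat_lit 36) (nat_lit 13)))) (T.n (T.l (nat_lit 37) (nat_lit 14)) (T.n (T.l (nat_lit 49) (nat_lit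 13)) (T.l (nat_lit 50) (nat_lit 12))))))
def T47_2 : T := T.n (T.n (T.n (T.l (nat_lit 12) (nat_lit 20)) (T.n (T.l (nat_lit 12) (nat_lit 38)) (T.l (nat_lit 13) (nat_lit 17)))) (T.n (T.l (nat_lit 13) (nat_lit 26)) (T.n (T.l (nat_lit 14) (nat_lit 21)) (T.l (nat_lit 14) (nat_lit 48))))) (T.n (T.n (T.l (nat_lit 17) (nat_lit 13)) (T.n (T.l (nat_lit 20) (nat_lit 12)) (T.l (nat_lit 21) (nat_lit 14)))) (T.n (T.l (nat_lit 26) (nat_lit 13)) (T.n (T.l (nat_lit 38) (nat_lit 12)) (T.l (nat_lit 48) (nat_lit 14)))))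
def T48_2 : T := T.n (T.n (T.n (T.l (nat_lit 12) (nat_lit 34)) (T.n (T.l (nat_lit 12) (nat_lit 54)) (T.l (nat_lit 13) (nat_lit 46)))) (T.n (T.l (nat_lit 13) (nat_lit 57)) (T.n (T.l (nat_lit 14) (nat_lit 32)) (T.l (nat_lit 14) (nat_lit 44))))) (T.n (T.n (T.l (nat_lit 32) (nat_lit 14)) (T.n (T.l (nat_lit 34) (nat_lit 12)) (T.l (nat_lit 44) (nat_lit 14)))) (T.n (T.l (nat_lit 46) (nat_lit 13)) (T.n (T.l (nat_lit 54) (nat_lit 12)) (T.l (nat_lit 57) (nat_lit 13)))))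
def T49_2 : T := T.n (T.n (T.n (T.n (T.l (nat_lit 15) (nat_lit 16)) (T.n (T.l (nat_lit 15) (nat_lit 18)) (T.l (nat_lit 16) (nat_lit 15)))) (T.n (T.l (nat_lit 16) (nat_lit 22)) (T.n (T.l (nat_lit 18) (nat_lit 15)) (T.l (nat_lit 18) (nat_lit 19))))) (T.n (T.n (T.l (nat_lit 19) (nat_lit 18)) (T.n (T.l (nat_lit 19) (nat_lit 23)) (T.l (nat_lit 22) (nat_lit 16)))) (T.n (T.l (nat_lit 22) (nat_lit 23)) (T.n (T.l (nat_lit 23) (nat_lit 19)) (T.l (nat_lit 23) (nat_lit 22)))))) (T.n (T.n (T.n (T.l (nat_lit 24) (nat_lit 25)) (T.n (T.l (nat_lit 24) (nat_lit 36)) (T.l (nat_lit 25) (nat_lit 24)))) (T.n (T.l (nat_lit 25) (nat_lit 49)) (T.n (T.l (nat_lit 36) (nat_lit 24)) (T.l (nat_lit 36) (nat_lit 37))))) (T.n (T.n (T.l (nat_lit 37) (nat_lit 36)) (T.n (T.l (nat_lit 37) (nat_lit 50)) (T.l (nat_lit 49) (nat_lit 25)))) (T.n (T.l (nat_lit 49) (nat_lit 50)) (T.n (T.l (nat_lit 50) (nat_lit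 37)) (T.l (nat_lit 50) (nat_lit 49))))))
def T50_2 : T := T.n (T.n (T.n (T.n (T.n (T.n (T.l (nat_lit 15) (nat_lit 17)) (T.l (nat_lit 15) (nat_lit 21))) (T.n (T.l (nat_lit 15) (nat_lit 25)) (T.l (nat_lit 15) (nat_lit 36)))) (T.n (T.n (T.l (nat_lit 16) (nat_lit 17)) (T.l (nat_lit 16) (nat_lit 20))) (T.n (T.l (nat_lit 16) (nat_lit 24)) (T.n (T.l (nat_lit 16) (nat_lit 49)) (T.l (nat_lit 17) (nat_lit 15)))))) (T.n (T.n (T.n (T.l (nat_lit 17) (nat_lit 16)) (T.l (nat_lit 17) (nat_lit 19))) (T.n (T.l (nat_lit 17) (nat_lit 23)) (T.l (nat_lit 18) (nat_lit 20)))) (T.n (T.n (T.l (nat_lit 18) (nat_lit 21)) (T.l (nat_lit 18) (nat_lit 24))) (T.n (T.l (nat_lit 18) (nat_lit 37)) (T.n (T.l (nat_lit 19) (nat_lit 17)) (T.l (nat_lit 19) (nat_lit 20))))))) (T.n (T.n (T.n (T.n (T.l (nat_lit 19) (nat_lit 36)) (T.l (nat_lit 19) (nat_lit 50))) (T.n (T.l (nat_lit 20) (nat_lit 16)) (T.l (nat_lit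 20) (nat_lit 18)))) (T.n (T.n (T.l (nat_lit 20) (nat_lit 19)) (T.l (nat_lit 20) (nat_lit 22))) (T.n (T.l (nat_lit 21) (nat_lit 15)) (T.n (T.l (nat_lit 21) (nat_lit 18)) (T.l (nat_lit 21) (nat_lit 22)))))) (T.n (T.n (T.n (T.l (nat_lit 21) (nat_lit 23)) (T.l (nat_lit 22) (nat_lit 20))) (T.n (T.l (nat_lit 22) (nat_lit 21)) (T.l (nat_lit 22) (nat_lit 25)))) (T.n (T.n (T.l (nat_lit 22) (nat_lit 50)) (T.l (nat_lit 23) (nat_lit 17))) (T.n (T.l (nat_lit 23) (nat_lit 21)) (T.n (T.l (nat_lit 23) (nat_lit 37)) (T.l (nat_lit 23) (nat_lit 49)))))))) (T.n (T.n (T.n (T.n (T.n (T.l (nat_lit 24) (nat_lit 16)) (T.l (nat_lit 24) (nat_lit 18))) (T.n (T.l (nat_lit 24) (nat_lit 26)) (T.l (nat_lit 24) (nat_lit 48)))) (T.n (T.n (T.l (nat_lit 25) (nat_lit 15)) (T.l (nat_lit 25) (nat_lit 22))) (T.n (T.l (nat_lit 25) (nat_lit 26)) (T.n (T.l (nat_lit 25) (nat_lit 38)) (T.l (nat_lit 26) (nat_lit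 24)))))) (T.n (T.n (T.n (T.l (nat_lit 26) (nat_lit 25)) (T.l (nat_lit 26) (nat_lit 37))) (T.n (T.l (nat_lit 26) (nat_lit 50)) (T.l (nat_lit 36) (nat_lit 15)))) (T.n (T.n (T.l (nat_lit 36) (nat_lit 19)) (T.l (nat_lit 36) (nat_lit 38))) (T.n (T.l (nat_lit 36) (nat_lit 48)) (T.n (T.l (nat_lit 37) (nat_lit 18)) (T.l (nat_lit 37) (nat_lit 23))))))) (T.n (T.n (T.n (T.n (T.l (nat_lit 37) (nat_lit 26)) (T.l (nat_lit 37) (nat_lit 38))) (T.n (T.l (nat_lit 38) (nat_lit 25)) (T.l (nat_lit 38) (nat_lit 36)))) (T.n (T.n (T.l (nat_lit 38) (nat_lit 37)) (T.l (nat_lit 38) (nat_lit 49))) (T.n (T.l (nat_lit 48) (nat_lit 24)) (T.n (T.l (nat_lit 48) (nat_lit 36)) (T.l (nat_lit 48) (nat_lit 49)))))) (T.n (T.n (T.n (T.l (nat_lit 48) (nat_lit 50)) (T.l (nat_lit 49) (nat_lit 16))) (T.n (T.l (nat_lit 49) (nat_lit 23)) (T.l (nat_lit 49) (nat_lit 38)))) (T.n (T.n (T.l (nat_lit 49) (nat_lit 48))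 (T.l (nat_lit 50) (nat_lit 19))) (T.n (T.l (nat_lit 50) (nat_lit 22)) (T.n (T.l (nat_lit 50) (nat_lit 26)) (T.l (nat_lit 50) (nat_lit 48))))))))
def T51_2 : T := T.n (T.n (T.n (T.n (T.n (T.l (nat_lit 15) (nat_lit 23)) (T.l (nat_lit 15) (nat_lit 42))) (T.n (T.l (nat_lit 16) (nat_lit 19)) (T.l (nat_lit 16) (nat_lit 55)))) (T.n (T.n (T.l (nat_lit 18) (nat_lit 22)) (T.l (nat_lit 18) (nat_lit 30))) (T.n (T.l (nat_lit 19) (nat_lit 16)) (T.n (T.l (nat_lit 19) (nat_lit 58)) (T.l (nat_lit 22) (nat_lit 18)))))) (T.n (T.n (T.n (T.l (nat_lit 22) (nat_lit 35)) (T.l (nat_lit 23) (nat_lit 15))) (T.n (T.l (nat_lit 23) (nat_lit 47)) (T.l (nat_lit 24) (nat_lit 31)))) (T.n (T.n (T.l (nat_lit 24) (nat_lit 50)) (T.l (nat_lit 25) (nat_lit 33))) (T.n (T.l (nat_lit 25) (nat_lit 37)) (T.n (T.l (nat_lit 30) (nat_lit 18)) (T.l (nat_lit 31) (nat_lit 24))))))) (T.n (T.n (T.n (T.n (T.l (nat_lit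 33) (nat_lit 25)) (T.l (nat_lit 35) (nat_lit 22))) (T.n (T.l (nat_lit 36) (nat_lit 43)) (T.l (nat_lit 36) (nat_lit 49)))) (T.n (T.n (T.l (nat_lit 37) (nat_lit 25)) (T.l (nat_lit 37) (nat_lit 45))) (T.n (T.l (nat_lit 42) (nat_lit 15)) (T.n (T.l (nat_lit 43) (nat_lit 36)) (T.l (nat_lit 45) (nat_lit 37)))))) (T.n (T.n (T.n (T.l (nat_lit 47) (nat_lit 23)) (T.l (nat_lit 49) (nat_lit 36))) (T.n (T.l (nat_lit 49) (nat_lit 56)) (T.l (nat_lit 50) (nat_lit 24)))) (T.n (T.n (T.l (nat_lit 50) (nat_lit 59)) (T.l (nat_lit 55) (nat_lit 16))) (T.n (T.l (nat_lit 56) (nat_lit 49)) (T.n (T.l (nat_lit 58) (nat_lit 19)) (T.l (nat_lit 59) (nat_lit 50)))))))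
def T52_2 : T := T.n (T.n (T.n (T.n (T.l (nat_lit 15) (nat_lit 47)) (T.n (T.l (nat_lit 16) (nat_lit 58)) (T.l (nat_lit 18) (nat_lit 35)))) (T.n (T.l (nat_lit 19) (nat_lit 55)) (T.n (T.l (nat_lit 22) (nat_lit 30)) (T.l (nat_lit 23) (nat_lit 42))))) (T.n (T.n (T.l (nat_lit 24) (nat_lit 59)) (T.n (T.l (nat_lit 25) (nat_lit 45)) (T.l (nat_lit 30) (nat_lit 22)))) (T.n (T.l (nat_lit 31) (nat_lit 50)) (T.n (T.l (nat_lit 33) (nat_lit 37)) (T.l (nat_lit 35) (nat_lit 18)))))) (T.n (T.n (T.n (T.l (nat_lit 36) (nat_lit 56)) (T.n (T.l (nat_lit 37) (nat_lit 33)) (T.l (nat_lit 42) (nat_lit 23)))) (T.n (T.l (nat_lit 43) (nat_lit 49)) (T.n (T.l (nat_lit 45) (nat_lit 25)) (T.l (nat_lit 47) (nat_lit 15))))) (T.n (T.n (T.l (nat_lit 49) (nat_lit 43)) (T.n (T.l (nat_lit 50) (nat_lit 31)) (T.l (nat_lit 55) (nat_lit 19)))) (T.n (T.l (nat_lit 56) (nat_lit 36)) (T.n (T.l (nat_lit 58) (nat_lit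 16)) (T.l (nat_lit 59) (nat_lit 24))))))
def T53_2 : T := T.n (T.n (T.n (T.n (T.n (T.l (nat_lit 15) (nat_lit 50)) (T.l (nat_lit 15) (nat_lit 54))) (T.n (T.l (nat_lit 16) (nat_lit 37)) (T.l (nat_lit 16) (nat_lit 44)))) (T.n (T.n (T.l (nat_lit 18) (nat_lit 49)) (T.l (nat_lit 18) (nat_lit 57))) (T.n (T.l (nat_lit 19) (nat_lit 25)) (T.n (T.l (nat_lit 19) (nat_lit 32)) (T.l (nat_lit 22) (nat_lit 36)))))) (T.n (T.n (T.n (T.l (nat_lit 22) (nat_lit 46)) (T.l (nat_lit 23) (nat_lit 24))) (T.n (T.l (nat_lit 23) (nat_lit 34)) (T.l (nat_lit 24) (nat_lit 23)))) (T.n (T.n (T.l (nat_lit 24) (nat_lit 34)) (T.l (nat_lit 25) (nat_lit 19))) (T.n (T.l (nat_lit 25) (nat_lit 32)) (T.n (T.l (nat_lit 32) (nat_lit 19)) (T.l (nat_lit 32) (nat_lit 25))))))) (T.n (T.n (T.n (T.n (T.l (nat_lit 34) (nat_lit 23)) (T.l (nat_lit 34) (nat_lit 24))) (T.n (T.l (nat_lit 36) (nat_lit 22)) (T.l (nat_lit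 36) (nat_lit 46)))) (T.n (T.n (T.l (nat_lit 37) (nat_lit 16)) (T.l (nat_lit 37) (nat_lit 44))) (T.n (T.l (nat_lit 44) (nat_lit 16)) (T.n (T.l (nat_lit 44) (nat_lit 37)) (T.l (nat_lit 46) (nat_lit 22)))))) (T.n (T.n (T.n (T.l (nat_lit 46) (nat_lit 36)) (T.l (nat_lit 49) (nat_lit 18))) (T.n (T.l (nat_lit 49) (nat_lit 57)) (T.l (nat_lit 50) (nat_lit 15)))) (T.n (T.n (T.l (nat_lit 50) (nat_lit 54)) (T.l (nat_lit 54) (nat_lit 15))) (T.n (T.l (nat_lit 54) (nat_lit 50)) (T.n (T.l (nat_lit 57) (nat_lit 18)) (T.l (nat_lit 57) (nat_lit 49)))))))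
def T54_2 : T := T.n (T.n (T.n (T.n (T.l (nat_lit 15) (nat_lit 59)) (T.n (T.l (nat_lit 16) (nat_lit 45)) (T.l (nat_lit 18) (nat_lit 56)))) (T.n (T.l (nat_lit 19) (nat_lit 33)) (T.n (T.l (nat_lit 22) (nat_lit 43)) (T.l (nat_lit 23) (nat_lit 31))))) (T.n (T.n (T.l (nat_lit 24) (nat_lit 47)) (T.n (T.l (nat_lit 25) (nat_lit 58)) (T.l (nat_lit 30) (nat_lit 49)))) (T.n (T.l (nat_lit 31) (nat_lit 23)) (T.n (T.l (nat_lit 33) (nat_lit 19)) (T.l (nat_lit 35) (nat_lit 36)))))) (T.n (T.n (T.n (T.l (nat_lit 36) (nat_lit 35)) (T.n (T.l (nat_lit 37) (nat_lit 55)) (T.l (nat_lit 42) (nat_lit 50)))) (T.n (T.l (nat_lit 43) (nat_lit 22)) (T.n (T.l (nat_lit 45) (nat_lit 16)) (T.l (nat_lit 47) (nat_lit 24))))) (T.n (T.n (T.l (nat_lit 49) (nat_lit 30)) (T.n (T.l (nat_lit 50) (nat_lit 42)) (T.l (nat_lit 55) (nat_lit 37)))) (T.n (T.l (nat_lit 56) (nat_lit 18)) (T.n (T.l (nat_lit 58) (nat_lit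 25)) (T.l (nat_lit 59) (nat_lit 15))))))
def T55_2 : T := T.n (T.n (T.n (T.n (T.l (nat_lit 17) (nat_lit 20)) (T.n (T.l (nat_lit 17) (nat_lit 21)) (T.l (nat_lit 20) (nat_lit 17)))) (T.n (T.l (nat_lit 20) (nat_lit 21)) (T.n (T.l (nat_lit 21) (nat_lit 17)) (T.l (nat_lit 21) (nat_lit 20))))) (T.n (T.n (T.l (nat_lit 26) (nat_lit 38)) (T.n (T.l (nat_lit 26) (nat_lit 48)) (T.l (nat_lit 32) (nat_lit 34)))) (T.n (T.l (nat_lit 32) (nat_lit 57)) (T.n (T.l (nat_lit 34) (nat_lit 32)) (T.l (nat_lit 34) (nat_lit 46)))))) (T.n (T.n (T.n (T.l (nat_lit 38) (nat_lit 26)) (T.n (T.l (nat_lit 38) (nat_lit 48)) (T.l (nat_lit 44) (nat_lit 46)))) (T.n (T.l (nat_lit 44) (nat_lit 54)) (T.n (T.l (nat_lit 46) (nat_lit 34)) (T.l (nat_lit 46) (nat_lit 44))))) (T.n (T.n (T.l (nat_lit 48) (nat_lit 26)) (T.n (T.l (nat_lit 48) (nat_lit 38)) (T.l (nat_lit 54) (nat_lit 44)))) (T.n (T.l (nat_lit 54) (nat_lit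 57)) (T.n (T.l (nat_lit 57) (nat_lit 32)) (T.l (nat_lit 57) (nat_lit 54))))))
def T56_2 : T := T.n (T.n (T.l (nat_lit 17) (nat_lit 26)) (T.n (T.l (nat_lit 20) (nat_lit 38)) (T.l (nat_lit 21) (nat_lit 48)))) (T.n (T.l (nat_lit 26) (nat_lit 17)) (T.n (T.l (nat_lit 38) (nat_lit 20)) (T.l (nat_lit 48) (nat_lit 21))))
def T57_2 : T := T.n (T.n (T.n (T.n (T.n (T.l (nat_lit 17) (nat_lit 32)) (T.n (T.l (nat_lit 17) (nat_lit 34)) (T.l (nat_lit 17) (nat_lit 44)))) (T.n (T.l (nat_lit 17) (nat_lit 54)) (T.n (T.l (nat_lit 20) (nat_lit 32)) (T.l (nat_lit 20) (nat_lit 44))))) (T.n (T.n (T.l (nat_lit 20) (nat_lit 46)) (T.n (T.l (nat_lit 20) (nat_lit 57)) (T.l (nat_lit 21) (nat_lit 34)))) (T.n (T.l (nat_lit 21) (nat_lit 46)) (T.n (T.l (nat_lit 21) (nat_lit 54)) (T.l (nat_lit 21) (nat_lit 57)))))) (T.n (T.n (T.n (T.l (nat_lit 26) (nat_lit 32)) (T.n (T.l (nat_lit 26) (nat_lit 34)) (T.l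 (nat_lit 26) (nat_lit 44)))) (T.n (T.l (nat_lit 26) (nat_lit 54)) (T.n (T.l (nat_lit 32) (nat_lit 17)) (T.l (nat_lit 32) (nat_lit 20))))) (T.n (T.n (T.l (nat_lit 32) (nat_lit 26)) (T.n (T.l (nat_lit 32) (nat_lit 38)) (T.l (nat_lit 34) (nat_lit 17)))) (T.n (T.l (nat_lit 34) (nat_lit 21)) (T.n (T.l (nat_lit 34) (nat_lit 26)) (T.l (nat_lit 34) (nat_lit 48))))))) (T.n (T.n (T.n (T.n (T.l (nat_lit 38) (nat_lit 32)) (T.n (T.l (nat_lit 38) (nat_lit 44)) (T.l (nat_lit 38) (nat_lit 46)))) (T.n (T.l (nat_lit 38) (nat_lit 57)) (T.n (T.l (nat_lit 44) (nat_lit 17)) (T.l (nat_lit 44) (nat_lit 20))))) (T.n (T.n (T.l (nat_lit 44) (nat_lit 26)) (T.n (T.l (nat_lit 44) (nat_lit 38)) (T.l (nat_lit 46) (nat_lit 20)))) (T.n (T.l (nat_lit 46) (nat_lit 21)) (T.n (T.l (nat_lit 46) (nat_lit 38)) (T.l (nat_lit 46) (nat_lit 48)))))) (T.n (T.n (T.n (T.l (nat_lit 48) (nat_lit 34)) (T.n (T.l (nat_lit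 48) (nat_lit 46)) (T.l (nat_lit 48) (nat_lit 54)))) (T.n (T.l (nat_lit 48) (nat_lit 57)) (T.n (T.l (nat_lit 54) (nat_lit 17)) (T.l (nat_lit 54) (nat_lit 21))))) (T.n (T.n (T.l (nat_lit 54) (nat_lit 26)) (T.n (T.l (nat_lit 54) (nat_lit 48)) (T.l (nat_lit 57) (nat_lit 20)))) (T.n (T.l (nat_lit 57) (nat_lit 21)) (T.n (T.l (nat_lit 57) (nat_lit 38)) (T.l (nat_lit 57) (nat_lit 48)))))))
def T58_2 : T := T.n (T.n (T.n (T.l (nat_lit 17) (nat_lit 38)) (T.n (T.l (nat_lit 17) (nat_lit 48)) (T.l (nat_lit 20) (nat_lit 26)))) (T.n (T.l (nat_lit 20) (nat_lit 48)) (T.n (T.l (nat_lit 21) (nat_lit 26)) (T.l (nat_lit 21) (nat_lit 38))))) (T.n (T.n (T.l (nat_lit 26) (nat_lit 20)) (T.n (T.l (nat_lit 26) (nat_lit 21)) (T.l (nat_lit 38) (nat_lit 17)))) (T.n (T.l (nat_lit 38) (nat_lit 21)) (T.n (T.l (nat_lit 48) (nat_lit 17)) (T.l (nat_lit 48) (nat_lit 20)))))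
def T59_2 : T := T.n (T.n (T.n (T.n (T.l (nat_lit 30) (nat_lit 31)) (T.n (T.l (nat_lit 30) (nat_lit 45)) (T.l (nat_lit 31) (nat_lit 30)))) (T.n (T.l (nat_lit 31) (nat_lit 55)) (T.n (T.l (nat_lit 33) (nat_lit 35)) (T.l (nat_lit 33) (nat_lit 42))))) (T.n (T.n (T.l (nat_lit 35) (nat_lit 33)) (T.n (T.l (nat_lit 35) (nat_lit 59)) (T.l (nat_lit 42) (nat_lit 33)))) (T.n (T.l (nat_lit 42) (nat_lit 43)) (T.n (T.l (nat_lit 43) (nat_lit 42)) (T.l (nat_lit 43) (nat_lit 58)))))) (T.n (T.n (T.n (T.l (nat_lit 45) (nat_lit 30)) (T.n (T.l (nat_lit 45) (nat_lit 47)) (T.l (nat_lit 47) (nat_lit 45)))) (T.n (T.l (nat_lit 47) (nat_lit 56)) (T.n (T.l (nat_lit 55) (nat_lit 31)) (T.l (nat_lit 55) (nat_lit 56))))) (T.n (T.n (T.l (nat_lit 56) (nat_lit 47)) (T.n (T.l (nat_lit 56) (nat_lit 55)) (T.l (nat_lit 58) (nat_lit 43)))) (T.n (T.l (nat_lit 58) (nat_lit 59)) (T.n (T.l (nat_lit 59) (nat_lit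 35)) (T.l (nat_lit 59) (nat_lit 58))))))
def T60_2 : T := T.n (T.n (T.n (T.n (T.n (T.l (nat_lit 30) (nat_lit 32)) (T.n (T.l (nat_lit 30) (nat_lit 54)) (T.l (nat_lit 31) (nat_lit 32)))) (T.n (T.l (nat_lit 31) (nat_lit 46)) (T.n (T.l (nat_lit 32) (nat_lit 30)) (T.l (nat_lit 32) (nat_lit 31))))) (T.n (T.n (T.l (nat_lit 32) (nat_lit 47)) (T.n (T.l (nat_lit 32) (nat_lit 56)) (T.l (nat_lit 33) (nat_lit 34)))) (T.n (T.l (nat_lit 33) (nat_lit 57)) (T.n (T.l (nat_lit 34) (nat_lit 33)) (T.l (nat_lit 34) (nat_lit 35)))))) (T.n (T.n (T.n (T.l (nat_lit 34) (nat_lit 43)) (T.n (T.l (nat_lit 34) (nat_lit 58)) (T.l (nat_lit 35) (nat_lit 34)))) (T.n (T.l (nat_lit 35) (nat_lit 44)) (T.n (T.l (nat_lit 42) (nat_lit 44)) (T.l (nat_lit 42) (nat_lit 57))))) (T.n (T.n (T.l (nat_lit 43) (nat_lit 34)) (T.n (T.l (nat_lit 43) (nat_lit 44)) (T.l (nat_lit 44) (nat_lit 35)))) (T.n (T.l (nat_lit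 44) (nat_lit 42)) (T.n (T.l (nat_lit 44) (nat_lit 43)) (T.l (nat_lit 44) (nat_lit 59))))))) (T.n (T.n (T.n (T.n (T.l (nat_lit 45) (nat_lit 46)) (T.n (T.l (nat_lit 45) (nat_lit 54)) (T.l (nat_lit 46) (nat_lit 31)))) (T.n (T.l (nat_lit 46) (nat_lit 45)) (T.n (T.l (nat_lit 46) (nat_lit 47)) (T.l (nat_lit 46) (nat_lit 55))))) (T.n (T.n (T.l (nat_lit 47) (nat_lit 32)) (T.n (T.l (nat_lit 47) (nat_lit 46)) (T.l (nat_lit 54) (nat_lit 30)))) (T.n (T.l (nat_lit 54) (nat_lit 45)) (T.n (T.l (nat_lit 54) (nat_lit 55)) (T.l (nat_lit 54) (nat_lit 56)))))) (T.n (T.n (T.n (T.l (nat_lit 55) (nat_lit 46)) (T.n (T.l (nat_lit 55) (nat_lit 54)) (T.l (nat_lit 56) (nat_lit 32)))) (T.n (T.l (nat_lit 56) (nat_lit 54)) (T.n (T.l (nat_lit 57) (nat_lit 33)) (T.l (nat_lit 57) (nat_lit 42))))) (T.n (T.n (T.l (nat_lit 57) (nat_lit 58)) (T.n (T.l (nat_lit 57) (nat_lit 59)) (T.l (nat_lit 58) (nat_lit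 34)))) (T.n (T.l (nat_lit 58) (nat_lit 57)) (T.n (T.l (nat_lit 59) (nat_lit 44)) (T.l (nat_lit 59) (nat_lit 57)))))))
def T61_2 : T := T.n (T.n (T.n (T.l (nat_lit 30) (nat_lit 35)) (T.n (T.l (nat_lit 31) (nat_lit 59)) (T.l (nat_lit 33) (nat_lit 45)))) (T.n (T.l (nat_lit 35) (nat_lit 30)) (T.n (T.l (nat_lit 42) (nat_lit 47)) (T.l (nat_lit 43) (nat_lit 56))))) (T.n (T.n (T.l (nat_lit 45) (nat_lit 33)) (T.n (T.l (nat_lit 47) (nat_lit 42)) (T.l (nat_lit 55) (nat_lit 58)))) (T.n (T.l (nat_lit 56) (nat_lit 43)) (T.n (T.l (nat_lit 58) (nat_lit 55)) (T.l (nat_lit 59) (nat_lit 31)))))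
def T62_2 : T := T.n (T.n (T.n (T.n (T.l (nat_lit 30) (nat_lit 42)) (T.n (T.l (nat_lit 30) (nat_lit 58)) (T.l (nat_lit 31) (nat_lit 33)))) (T.n (T.l (nat_lit 31) (nat_lit 43)) (T.n (T.l (nat_lit 33) (nat_lit 31)) (T.l (nat_lit 33) (nat_lit 56))))) (T.n (T.n (T.l (nat_lit 35) (nat_lit 47)) (T.n (T.l (nat_lit 35) (nat_lit 55)) (T.l (nat_lit 42) (nat_lit 30)))) (T.n (T.l (nat_lit 42) (nat_lit 55)) (T.n (T.l (nat_lit 43) (nat_lit 31)) (T.l (nat_lit 43) (nat_lit 45)))))) (T.n (T.n (T.n (T.l (nat_lit 45) (nat_lit 43)) (T.n (T.l (nat_lit 45) (nat_lit 59)) (T.l (nat_lit 47) (nat_lit 35)))) (T.n (T.l (nat_lit 47) (nat_lit 58)) (T.n (T.l (nat_lit 55) (nat_lit 35)) (T.l (nat_lit 55) (nat_lit 42))))) (T.n (T.n (T.l (nat_lit 56) (nat_lit 33)) (T.n (T.l (nat_lit 56) (nat_lit 59)) (T.l (nat_lit 58) (nat_lit 30)))) (T.n (T.l (nat_lit 58) (nat_lit 47)) (T.n (T.l (nat_lit 59) (nat_lit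 45)) (T.l (nat_lit 59) (nat_lit 56))))))
def T63_2 : T := T.n (T.n (T.n (T.l (nat_lit 30) (nat_lit 43)) (T.n (T.l (nat_lit 31) (nat_lit 42)) (T.l (nat_lit 33) (nat_lit 55)))) (T.n (T.l (nat_lit 35) (nat_lit 56)) (T.n (T.l (nat_lit 42) (nat_lit 31)) (T.l (nat_lit 43) (nat_lit 30))))) (T.n (T.n (T.l (nat_lit 45) (nat_lit 58)) (T.n (T.l (nat_lit 47) (nat_lit 59)) (T.l (nat_lit 55) (nat_lit 33)))) (T.n (T.l (nat_lit 56) (nat_lit 35)) (T.n (T.l (nat_lit 58) (nat_lit 45)) (T.l (nat_lit 59) (nat_lit 47)))))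
def T64_2 : T := T.n (T.n (T.n (T.l (nat_lit 30) (nat_lit 56)) (T.n (T.l (nat_lit 31) (nat_lit 47)) (T.l (nat_lit 33) (nat_lit 58)))) (T.n (T.l (nat_lit 35) (nat_lit 43)) (T.n (T.l (nat_lit 42) (nat_lit 59)) (T.l (nat_lit 43) (nat_lit 35))))) (T.n (T.n (T.l (nat_lit 45) (nat_lit 55)) (T.n (T.l (nat_lit 47) (nat_lit 31)) (T.l (nat_lit 55) (nat_lit 45)))) (T.n (T.l (nat_lit 56) (nat_lit 30)) (T.n (T.l (nat_lit 58) (nat_lit 33)) (T.l (nat_lit 59) (nat_lit 42)))))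
def T65_2 : T := T.n (T.n (T.l (nat_lit 32) (nat_lit 44)) (T.n (T.l (nat_lit 34) (nat_lit 54)) (T.l (nat_lit 44) (nat_lit 32)))) (T.n (T.l (nat_lit 46) (nat_lit 57)) (T.n (T.l (nat_lit 54) (nat_lit 34)) (T.l (nat_lit 57) (nat_lit 46))))
def T66_2 : T := T.n (T.n (T.n (T.l (nat_lit 32) (nat_lit 46)) (T.n (T.l (nat_lit 32) (nat_lit 54)) (T.l (nat_lit 34) (nat_lit 44)))) (T.n (T.l (nat_lit 34) (nat_lit 57)) (T.n (T.l (nat_lit 44) (nat_lit 34)) (T.l (nat_lit 44) (nat_lit 57))))) (T.n (T.n (T.l (nat_lit 46) (nat_lit 32)) (T.n (T.l (nat_lit 46) (nat_lit 54)) (T.l (nat_lit 54) (nat_lit 32)))) (T.n (T.l (nat_lit 54) (nat_lit 46)) (T.n (T.l (nat_lit 57) (nat_lit 34)) (T.l (nat_lit 57) (nat_lit 44)))))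
def T78_2 : T := T.n (T.n (T.n (T.n (T.n (T.n (T.l (nat_lit 3) (nat_lit 13)) (T.n (T.l (nat_lit 3) (nat_lit 14)) (T.l (nat_lit 3) (nat_lit 56)))) (T.n (T.l (nat_lit 3) (nat_lit 58)) (T.n (T.l (nat_lit 5) (nat_lit 12)) (T.l (nat_lit 5) (nat_lit 13))))) (T.n (T.n (T.l (nat_lit 5) (nat_lit 43)) (T.n (T.l (nat_lit 5) (nat_lit 47)) (T.l (nat_lit 6) (nat_lit 12)))) (T.n (T.l (nat_lit 6) (nat_lit 14)) (T.n (T.l (nat_lit 6) (nat_lit 55)) (T.l (nat_lit 6) (nat_lit 59)))))) (T.n (T.n (T.n (T.l (nat_lit 8) (nat_lit 12)) (T.n (T.l (nat_lit 8) (nat_lit 13)) (T.l (nat_lit 8) (nat_lit 31)))) (T.n (T.l (nat_lit 8) (nat_lit 35)) (T.n (T.l (nat_lit 10) (nat_lit 13)) (T.l (nat_lit 10) (nat_lit 14))))) (T.n (T.n (T.l (nat_lit 10) (nat_lit 30)) (T.n (T.l (nat_lit 10) (nat_lit 33)) (T.l (nat_lit 11) (nat_lit 12)))) (T.n (T.l (nat_lit 11) (nat_lit 14)) (T.n (T.l (nat_lit 11) (nat_lit 42))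 (T.l (nat_lit 11) (nat_lit 45))))))) (T.n (T.n (T.n (T.n (T.l (nat_lit 12) (nat_lit 5)) (T.n (T.l (nat_lit 12) (nat_lit 6)) (T.l (nat_lit 12) (nat_lit 8)))) (T.n (T.l (nat_lit 12) (nat_lit 11)) (T.n (T.l (nat_lit 12) (nat_lit 29)) (T.l (nat_lit 12) (nat_lit 39))))) (T.n (T.n (T.l (nat_lit 12) (nat_lit 41)) (T.n (T.l (nat_lit 12) (nat_lit 53)) (T.l (nat_lit 13) (nat_lit 3)))) (T.n (T.l (nat_lit 13) (nat_lit 5)) (T.n (T.l (nat_lit 13) (nat_lit 8)) (T.l (nat_lit 13) (nat_lit 10)))))) (T.n (T.n (T.n (T.l (nat_lit 13) (nat_lit 27)) (T.n (T.l (nat_lit 13) (nat_lit 29)) (T.l (nat_lit 13) (nat_lit 41)))) (T.n (T.l (nat_lit 13) (nat_lit 52)) (T.n (T.l (nat_lit 14) (nat_lit 3)) (T.l (nat_lit 14) (nat_lit 6))))) (T.n (T.n (T.l (nat_lit 14) (nat_lit 10)) (T.n (T.l (nat_lit 14) (nat_lit 11)) (T.l (nat_lit 14) (nat_lit 27)))) (T.n (T.l (nat_lit 14) (nat_lit 39)) (T.n (T.l (nat_lit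 14) (nat_lit 52)) (T.l (nat_lit 14) (nat_lit 53)))))))) (T.n (T.n (T.n (T.n (T.n (T.l (nat_lit 27) (nat_lit 13)) (T.n (T.l (nat_lit 27) (nat_lit 14)) (T.l (nat_lit 27) (nat_lit 35)))) (T.n (T.l (nat_lit 27) (nat_lit 45)) (T.n (T.l (nat_lit 29) (nat_lit 12)) (T.l (nat_lit 29) (nat_lit 13))))) (T.n (T.n (T.l (nat_lit 29) (nat_lit 30)) (T.n (T.l (nat_lit 29) (nat_lit 59)) (T.l (nat_lit 30) (nat_lit 10)))) (T.n (T.l (nat_lit 30) (nat_lit 29)) (T.n (T.l (nat_lit 31) (nat_lit 8)) (T.l (nat_lit 31) (nat_lit 53)))))) (T.n (T.n (T.n (T.l (nat_lit 33) (nat_lit 10)) (T.n (T.l (nat_lit 33) (nat_lit 39)) (T.l (nat_lit 35) (nat_lit 8)))) (T.n (T.l (nat_lit 35) (nat_lit 27)) (T.n (T.l (nat_lit 39) (nat_lit 12)) (T.l (nat_lit 39) (nat_lit 14))))) (T.n (T.n (T.l (nat_lit 39) (nat_lit 33)) (T.n (T.l (nat_lit 39) (nat_lit 47)) (T.l (nat_lit 41) (nat_lit 12)))) (T.n (T.l (nat_lit 41)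 (nat_lit 13)) (T.n (T.l (nat_lit 41) (nat_lit 42)) (T.l (nat_lit 41) (nat_lit 56))))))) (T.n (T.n (T.n (T.n (T.l (nat_lit 42) (nat_lit 11)) (T.n (T.l (nat_lit 42) (nat_lit 41)) (T.l (nat_lit 43) (nat_lit 5)))) (T.n (T.l (nat_lit 43) (nat_lit 52)) (T.n (T.l (nat_lit 45) (nat_lit 11)) (T.l (nat_lit 45) (nat_lit 27))))) (T.n (T.n (T.l (nat_lit 47) (nat_lit 5)) (T.n (T.l (nat_lit 47) (nat_lit 39)) (T.l (nat_lit 52) (nat_lit 13)))) (T.n (T.l (nat_lit 52) (nat_lit 14)) (T.n (T.l (nat_lit 52) (nat_lit 43)) (T.l (nat_lit 52) (nat_lit 55)))))) (T.n (T.n (T.n (T.l (nat_lit 53) (nat_lit 12)) (T.n (T.l (nat_lit 53) (nat_lit 14)) (T.l (nat_lit 53) (nat_lit 31)))) (T.n (T.l (nat_lit 53) (nat_lit 58)) (T.n (T.l (nat_lit 55) (nat_lit 6)) (T.l (nat_lit 55) (nat_lit 52))))) (T.n (T.n (T.l (nat_lit 56) (nat_lit 3)) (T.n (T.l (nat_lit 56) (nat_lit 41)) (T.l (nat_lit 58) (nat_lit 3))))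 (T.n (T.l (nat_lit 58) (nat_lit 53)) (T.n (T.l (nat_lit 59) (nat_lit 6)) (T.l (nat_lit 59) (nat_lit 29))))))))
def T79_2 : T := T.n (T.n (T.n (T.n (T.n (T.n (T.n (T.l (nat_lit 3) (nat_lit 15)) (T.l (nat_lit 3) (nat_lit 24))) (T.n (T.l (nat_lit 3) (nat_lit 43)) (T.l (nat_lit 3) (nat_lit 55)))) (T.n (T.n (T.l (nat_lit 5) (nat_lit 16)) (T.l (nat_lit 5) (nat_lit 25))) (T.n (T.l (nat_lit 5) (nat_lit 42)) (T.n (T.l (nat_lit 5) (nat_lit 56)) (T.l (nat_lit 6) (nat_lit 18)))))) (T.n (T.n (T.n (T.l (nat_lit 6) (nat_lit 31)) (T.l (nat_lit 6) (nat_lit 36))) (T.n (T.l (nat_lit 6) (nat_lit 58)) (T.l (nat_lit 8) (nat_lit 19)))) (T.n (T.n (T.l (nat_lit 8) (nat_lit 30)) (T.l (nat_lit 8) (nat_lit 37))) (T.n (T.l (nat_lit 8) (nat_lit 59)) (T.n (T.l (nat_lit 10) (nat_lit 23)) (T.l (nat_lit 10) (nat_lit 35))))))) (T.n (T.n (T.n (T.n (T.l (nat_lit 10) (nat_lit 45)) (T.l (nat_lit 10) (nat_lit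 50))) (T.n (T.l (nat_lit 11) (nat_lit 22)) (T.l (nat_lit 11) (nat_lit 33)))) (T.n (T.n (T.l (nat_lit 11) (nat_lit 47)) (T.l (nat_lit 11) (nat_lit 49))) (T.n (T.l (nat_lit 12) (nat_lit 16)) (T.n (T.l (nat_lit 12) (nat_lit 18)) (T.l (nat_lit 12) (nat_lit 19)))))) (T.n (T.n (T.n (T.l (nat_lit 12) (nat_lit 22)) (T.l (nat_lit 12) (nat_lit 25))) (T.n (T.l (nat_lit 12) (nat_lit 36)) (T.l (nat_lit 12) (nat_lit 37)))) (T.n (T.n (T.l (nat_lit 12) (nat_lit 49)) (T.l (nat_lit 13) (nat_lit 15))) (T.n (T.l (nat_lit 13) (nat_lit 16)) (T.n (T.l (nat_lit 13) (nat_lit 19)) (T.l (nat_lit 13) (nat_lit 23)))))))) (T.n (T.n (T.n (T.n (T.n (T.l (nat_lit 13) (nat_lit 24)) (T.l (nat_lit 13) (nat_lit 25))) (T.n (T.l (nat_lit 13) (nat_lit 37)) (T.l (nat_lit 13) (nat_lit 50)))) (T.n (T.n (T.l (nat_lit 14) (nat_lit 15)) (T.l (nat_lit 14) (nat_lit 18))) (T.n (T.l (nat_lit 14) (nat_lit 22)) (T.n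 (T.l (nat_lit 14) (nat_lit 23)) (T.l (nat_lit 14) (nat_lit 24)))))) (T.n (T.n (T.n (T.l (nat_lit 14) (nat_lit 36)) (T.l (nat_lit 14) (nat_lit 49))) (T.n (T.l (nat_lit 14) (nat_lit 50)) (T.l (nat_lit 15) (nat_lit 3)))) (T.n (T.n (T.l (nat_lit 15) (nat_lit 13)) (T.l (nat_lit 15) (nat_lit 14))) (T.n (T.l (nat_lit 15) (nat_lit 27)) (T.n (T.l (nat_lit 16) (nat_lit 5)) (T.l (nat_lit 16) (nat_lit 12))))))) (T.n (T.n (T.n (T.n (T.l (nat_lit 16) (nat_lit 13)) (T.l (nat_lit 16) (nat_lit 29))) (T.n (T.l (nat_lit 18) (nat_lit 6)) (T.l (nat_lit 18) (nat_lit 12)))) (T.n (T.n (T.l (nat_lit 18) (nat_lit 14)) (T.l (nat_lit 18) (nat_lit 39))) (T.n (T.l (nat_lit 19) (nat_lit 8)) (T.n (T.l (nat_lit 19) (nat_lit 12)) (T.l (nat_lit 19) (nat_lit 13)))))) (T.n (T.n (T.n (T.l (nat_lit 19) (nat_lit 41)) (T.l (nat_lit 22) (nat_lit 11))) (T.n (T.l (nat_lit 22) (nat_lit 12)) (T.l (nat_lit 22)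 (nat_lit 14)))) (T.n (T.n (T.l (nat_lit 22) (nat_lit 53)) (T.l (nat_lit 23) (nat_lit 10))) (T.n (T.l (nat_lit 23) (nat_lit 13)) (T.n (T.l (nat_lit 23) (nat_lit 14)) (T.l (nat_lit 23) (nat_lit 52))))))))) (T.n (T.n (T.n (T.n (T.n (T.n (T.l (nat_lit 24) (nat_lit 3)) (T.l (nat_lit 24) (nat_lit 13))) (T.n (T.l (nat_lit 24) (nat_lit 14)) (T.l (nat_lit 24) (nat_lit 27)))) (T.n (T.n (T.l (nat_lit 25) (nat_lit 5)) (T.l (nat_lit 25) (nat_lit 12))) (T.n (T.l (nat_lit 25) (nat_lit 13)) (T.n (T.l (nat_lit 25) (nat_lit 29)) (T.l (nat_lit 27) (nat_lit 15)))))) (T.n (T.n (T.n (T.l (nat_lit 27) (nat_lit 24)) (T.l (nat_lit 27) (nat_lit 30))) (T.n (T.l (nat_lit 27) (nat_lit 33)) (T.l (nat_lit 29) (nat_lit 16)))) (T.n (T.n (T.l (nat_lit 29) (nat_lit 25)) (T.l (nat_lit 29) (nat_lit 31))) (T.n (T.l (nat_lit 29) (nat_lit 35)) (T.n (T.l (nat_lit 30) (nat_lit 8)) (T.l (nat_lit 30) (nat_lit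 27))))))) (T.n (T.n (T.n (T.n (T.l (nat_lit 31) (nat_lit 6)) (T.l (nat_lit 31) (nat_lit 29))) (T.n (T.l (nat_lit 33) (nat_lit 11)) (T.l (nat_lit 33) (nat_lit 27)))) (T.n (T.n (T.l (nat_lit 35) (nat_lit 10)) (T.l (nat_lit 35) (nat_lit 29))) (T.n (T.l (nat_lit 36) (nat_lit 6)) (T.n (T.l (nat_lit 36) (nat_lit 12)) (T.l (nat_lit 36) (nat_lit 14)))))) (T.n (T.n (T.n (T.l (nat_lit 36) (nat_lit 39)) (T.l (nat_lit 37) (nat_lit 8))) (T.n (T.l (nat_lit 37) (nat_lit 12)) (T.l (nat_lit 37) (nat_lit 13)))) (T.n (T.n (T.l (nat_lit 37) (nat_lit 41)) (T.l (nat_lit 39) (nat_lit 18))) (T.n (T.l (nat_lit 39) (nat_lit 36)) (T.n (T.l (nat_lit 39) (nat_lit 42)) (T.l (nat_lit 39) (nat_lit 45)))))))) (T.n (T.n (T.n (T.n (T.n (T.l (nat_lit 41) (nat_lit 19)) (T.l (nat_lit 41) (nat_lit 37))) (T.n (T.l (nat_lit 41) (nat_lit 43)) (T.l (nat_lit 41) (nat_lit 47)))) (T.n (T.n (T.l (nat_lit 42) (nat_lit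 5)) (T.l (nat_lit 42) (nat_lit 39))) (T.n (T.l (nat_lit 43) (nat_lit 3)) (T.n (T.l (nat_lit 43) (nat_lit 41)) (T.l (nat_lit 45) (nat_lit 10)))))) (T.n (T.n (T.n (T.l (nat_lit 45) (nat_lit 39)) (T.l (nat_lit 47) (nat_lit 11))) (T.n (T.l (nat_lit 47) (nat_lit 41)) (T.l (nat_lit 49) (nat_lit 11)))) (T.n (T.n (T.l (nat_lit 49) (nat_lit 12)) (T.l (nat_lit 49) (nat_lit 14))) (T.n (T.l (nat_lit 49) (nat_lit 53)) (T.n (T.l (nat_lit 50) (nat_lit 10)) (T.l (nat_lit 50) (nat_lit 13))))))) (T.n (T.n (T.n (T.n (T.l (nat_lit 50) (nat_lit 14)) (T.l (nat_lit 50) (nat_lit 52))) (T.n (T.l (nat_lit 52) (nat_lit 23)) (T.l (nat_lit 52) (nat_lit 50)))) (T.n (T.n (T.l (nat_lit 52) (nat_lit 56)) (T.l (nat_lit 52) (nat_lit 58))) (T.n (T.l (nat_lit 53) (nat_lit 22)) (T.n (T.l (nat_lit 53) (nat_lit 49)) (T.l (nat_lit 53) (nat_lit 55)))))) (T.n (T.n (T.n (T.l (nat_lit 53) (nat_lit 59)) (T.l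 (nat_lit 55) (nat_lit 3))) (T.n (T.l (nat_lit 55) (nat_lit 53)) (T.l (nat_lit 56) (nat_lit 5)))) (T.n (T.n (T.l (nat_lit 56) (nat_lit 52)) (T.l (nat_lit 58) (nat_lit 6))) (T.n (T.l (nat_lit 58) (nat_lit 52)) (T.n (T.l (nat_lit 59) (nat_lit 8)) (T.l (nat_lit 59) (nat_lit 53)))))))))
def T80_2 : T := T.n (T.n (T.n (T.n (T.n (T.n (T.n (T.l (nat_lit 3) (nat_lit 16)) (T.n (T.l (nat_lit 3) (nat_lit 28)) (T.l (nat_lit 3) (nat_lit 36)))) (T.n (T.l (nat_lit 3) (nat_lit 51)) (T.n (T.l (nat_lit 4) (nat_lit 19)) (T.l (nat_lit 4) (nat_lit 23))))) (T.n (T.n (T.l (nat_lit 4) (nat_lit 24)) (T.n (T.l (nat_lit 4) (nat_lit 25)) (T.l (nat_lit 4) (nat_lit 27)))) (T.n (T.l (nat_lit 4) (nat_lit 29)) (T.n (T.l (nat_lit 4) (nat_lit 30)) (T.l (nat_lit 4) (nat_lit 35)))))) (T.n (T.n (T.n (T.l (nat_lit 4) (nat_lit 41)) (T.n (T.l (nat_lit 4) (nat_lit 43)) (T.l (nat_lit 4) (nat_lit 52)))) (T.n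 (T.l (nat_lit 4) (nat_lit 56)) (T.n (T.l (nat_lit 5) (nat_lit 15)) (T.l (nat_lit 5) (nat_lit 28))))) (T.n (T.n (T.l (nat_lit 5) (nat_lit 40)) (T.n (T.l (nat_lit 5) (nat_lit 49)) (T.l (nat_lit 6) (nat_lit 19)))) (T.n (T.l (nat_lit 6) (nat_lit 24)) (T.n (T.l (nat_lit 6) (nat_lit 40)) (T.l (nat_lit 6) (nat_lit 51))))))) (T.n (T.n (T.n (T.n (T.l (nat_lit 7) (nat_lit 16)) (T.n (T.l (nat_lit 7) (nat_lit 22)) (T.l (nat_lit 7) (nat_lit 29)))) (T.n (T.l (nat_lit 7) (nat_lit 31)) (T.n (T.l (nat_lit 7) (nat_lit 36)) (T.l (nat_lit 7) (nat_lit 37))))) (T.n (T.n (T.l (nat_lit 7) (nat_lit 39)) (T.n (T.l (nat_lit 7) (nat_lit 41)) (T.l (nat_lit 7) (nat_lit 42)))) (T.n (T.l (nat_lit 7) (nat_lit 47)) (T.n (T.l (nat_lit 7) (nat_lit 53)) (T.l (nat_lit 7) (nat_lit 59)))))) (T.n (T.n (T.n (T.l (nat_lit 8) (nat_lit 18)) (T.n (T.l (nat_lit 8) (nat_lit 28)) (T.l (nat_lit 8) (nat_lit 40))))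 (T.n (T.l (nat_lit 8) (nat_lit 50)) (T.n (T.l (nat_lit 9) (nat_lit 15)) (T.l (nat_lit 9) (nat_lit 18))))) (T.n (T.n (T.l (nat_lit 9) (nat_lit 27)) (T.n (T.l (nat_lit 9) (nat_lit 33)) (T.l (nat_lit 9) (nat_lit 39)))) (T.n (T.l (nat_lit 9) (nat_lit 45)) (T.n (T.l (nat_lit 9) (nat_lit 49)) (T.l (nat_lit 9) (nat_lit 50)))))))) (T.n (T.n (T.n (T.n (T.n (T.l (nat_lit 9) (nat_lit 52)) (T.n (T.l (nat_lit 9) (nat_lit 53)) (T.l (nat_lit 9) (nat_lit 55)))) (T.n (T.l (nat_lit 9) (nat_lit 58)) (T.n (T.l (nat_lit 10) (nat_lit 22)) (T.l (nat_lit 10) (nat_lit 28))))) (T.n (T.n (T.l (nat_lit 10) (nat_lit 37)) (T.n (T.l (nat_lit 10) (nat_lit 51)) (T.l (nat_lit 11) (nat_lit 23)))) (T.n (T.l (nat_lit 11) (nat_lit 25)) (T.n (T.l (nat_lit 11) (nat_lit 40)) (T.l (nat_lit 11) (nat_lit 51)))))) (T.n (T.n (T.n (T.l (nat_lit 15) (nat_lit 5)) (T.n (T.l (nat_lit 15) (nat_lit 9)) (T.l (nat_lit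 15) (nat_lit 28)))) (T.n (T.l (nat_lit 15) (nat_lit 39)) (T.n (T.l (nat_lit 16) (nat_lit 3)) (T.l (nat_lit 16) (nat_lit 7))))) (T.n (T.n (T.l (nat_lit 16) (nat_lit 28)) (T.n (T.l (nat_lit 16) (nat_lit 53)) (T.l (nat_lit 18) (nat_lit 8)))) (T.n (T.l (nat_lit 18) (nat_lit 9)) (T.n (T.l (nat_lit 18) (nat_lit 27)) (T.l (nat_lit 18) (nat_lit 40))))))) (T.n (T.n (T.n (T.n (T.l (nat_lit 19) (nat_lit 4)) (T.n (T.l (nat_lit 19) (nat_lit 6)) (T.l (nat_lit 19) (nat_lit 40)))) (T.n (T.l (nat_lit 19) (nat_lit 52)) (T.n (T.l (nat_lit 22) (nat_lit 7)) (T.l (nat_lit 22) (nat_lit 10))))) (T.n (T.n (T.l (nat_lit 22) (nat_lit 29)) (T.n (T.l (nat_lit 22) (nat_lit 51)) (T.l (nat_lit 23) (nat_lit 4)))) (T.n (T.l (nat_lit 23) (nat_lit 11)) (T.n (T.l (nat_lit 23) (nat_lit 41)) (T.l (nat_lit 23) (nat_lit 51)))))) (T.n (T.n (T.n (T.l (nat_lit 24) (nat_lit 4)) (T.n (T.l (nat_lit 24) (nat_lit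 6)) (T.l (nat_lit 24) (nat_lit 29)))) (T.n (T.l (nat_lit 24) (nat_lit 51)) (T.n (T.l (nat_lit 25) (nat_lit 4)) (T.l (nat_lit 25) (nat_lit 11))))) (T.n (T.n (T.l (nat_lit 25) (nat_lit 27)) (T.n (T.l (nat_lit 25) (nat_lit 40)) (T.l (nat_lit 27) (nat_lit 4)))) (T.n (T.l (nat_lit 27) (nat_lit 9)) (T.n (T.l (nat_lit 27) (nat_lit 18)) (T.l (nat_lit 27) (nat_lit 25))))))))) (T.n (T.n (T.n (T.n (T.n (T.n (T.l (nat_lit 28) (nat_lit 3)) (T.n (T.l (nat_lit 28) (nat_lit 5)) (T.l (nat_lit 28) (nat_lit 8)))) (T.n (T.l (nat_lit 28) (nat_lit 10)) (T.n (T.l (nat_lit 28) (nat_lit 15)) (T.l (nat_lit 28) (nat_lit 16))))) (T.n (T.n (T.l (nat_lit 28) (nat_lit 30)) (T.n (T.l (nat_lit 28) (nat_lit 35)) (T.l (nat_lit 28) (nat_lit 37)))) (T.n (T.l (nat_lit 28) (nat_lit 43)) (T.n (T.l (nat_lit 28) (nat_lit 50)) (T.l (nat_lit 28) (nat_lit 56)))))) (T.n (T.n (T.n (T.l (nat_lit 29) (nat_lit 4))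 (T.n (T.l (nat_lit 29) (nat_lit 7)) (T.l (nat_lit 29) (nat_lit 22)))) (T.n (T.l (nat_lit 29) (nat_lit 24)) (T.n (T.l (nat_lit 30) (nat_lit 4)) (T.l (nat_lit 30) (nat_lit 28))))) (T.n (T.n (T.l (nat_lit 31) (nat_lit 7)) (T.n (T.l (nat_lit 31) (nat_lit 40)) (T.l (nat_lit 33) (nat_lit 9)))) (T.n (T.l (nat_lit 33) (nat_lit 51)) (T.n (T.l (nat_lit 35) (nat_lit 4)) (T.l (nat_lit 35) (nat_lit 28))))))) (T.n (T.n (T.n (T.n (T.l (nat_lit 36) (nat_lit 3)) (T.n (T.l (nat_lit 36) (nat_lit 7)) (T.l (nat_lit 36) (nat_lit 41)))) (T.n (T.l (nat_lit 36) (nat_lit 51)) (T.n (T.l (nat_lit 37) (nat_lit 7)) (T.l (nat_lit 37) (nat_lit 10))))) (T.n (T.n (T.l (nat_lit 37) (nat_lit 28)) (T.n (T.l (nat_lit 37) (nat_lit 39)) (T.l (nat_lit 39) (nat_lit 7)))) (T.n (T.l (nat_lit 39) (nat_lit 9)) (T.n (T.l (nat_lit 39) (nat_lit 15)) (T.l (nat_lit 39) (nat_lit 37)))))) (T.n (T.n (T.n (T.l (nat_lit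 40) (nat_lit 5)) (T.n (T.l (nat_lit 40) (nat_lit 6)) (T.l (nat_lit 40) (nat_lit 8)))) (T.n (T.l (nat_lit 40) (nat_lit 11)) (T.n (T.l (nat_lit 40) (nat_lit 18)) (T.l (nat_lit 40) (nat_lit 19))))) (T.n (T.n (T.l (nat_lit 40) (nat_lit 25)) (T.n (T.l (nat_lit 40) (nat_lit 31)) (T.l (nat_lit 40) (nat_lit 42)))) (T.n (T.l (nat_lit 40) (nat_lit 47)) (T.n (T.l (nat_lit 40) (nat_lit 49)) (T.l (nat_lit 40) (nat_lit 59)))))))) (T.n (T.n (T.n (T.n (T.n (T.l (nat_lit 41) (nat_lit 4)) (T.n (T.l (nat_lit 41) (nat_lit 7)) (T.l (nat_lit 41) (nat_lit 23)))) (T.n (T.l (nat_lit 41) (nat_lit 36)) (T.n (T.l (nat_lit 42) (nat_lit 7)) (T.l (nat_lit 42) (nat_lit 40))))) (T.n (T.n (T.l (nat_lit 43) (nat_lit 4)) (T.n (T.l (nat_lit 43) (nat_lit 28)) (T.l (nat_lit 45) (nat_lit 9)))) (T.n (T.l (nat_lit 45) (nat_lit 51)) (T.n (T.l (nat_lit 47) (nat_lit 7)) (T.l (nat_lit 47) (nat_lit 40)))))) (T.n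 (T.n (T.n (T.l (nat_lit 49) (nat_lit 5)) (T.n (T.l (nat_lit 49) (nat_lit 9)) (T.l (nat_lit 49) (nat_lit 40)))) (T.n (T.l (nat_lit 49) (nat_lit 52)) (T.n (T.l (nat_lit 50) (nat_lit 8)) (T.l (nat_lit 50) (nat_lit 9))))) (T.n (T.n (T.l (nat_lit 50) (nat_lit 28)) (T.n (T.l (nat_lit 50) (nat_lit 53)) (T.l (nat_lit 51) (nat_lit 3)))) (T.n (T.l (nat_lit 51) (nat_lit 6)) (T.n (T.l (nat_lit 51) (nat_lit 10)) (T.l (nat_lit 51) (nat_lit 11))))))) (T.n (T.n (T.n (T.n (T.l (nat_lit 51) (nat_lit 22)) (T.n (T.l (nat_lit 51) (nat_lit 23)) (T.l (nat_lit 51) (nat_lit 24)))) (T.n (T.l (nat_lit 51) (nat_lit 33)) (T.n (T.l (nat_lit 51) (nat_lit 36)) (T.l (nat_lit 51) (nat_lit 45))))) (T.n (T.n (T.l (nat_lit 51) (nat_lit 55)) (T.n (T.l (nat_lit 51) (nat_lit 58)) (T.l (nat_lit 52) (nat_lit 4)))) (T.n (T.l (nat_lit 52) (nat_lit 9)) (T.n (T.l (nat_lit 52) (nat_lit 19)) (T.l (nat_lit 52) (nat_lit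 49)))))) (T.n (T.n (T.n (T.l (nat_lit 53) (nat_lit 7)) (T.n (T.l (nat_lit 53) (nat_lit 9)) (T.l (nat_lit 53) (nat_lit 16)))) (T.n (T.l (nat_lit 53) (nat_lit 50)) (T.n (T.l (nat_lit 55) (nat_lit 9)) (T.l (nat_lit 55) (nat_lit 51))))) (T.n (T.n (T.l (nat_lit 56) (nat_lit 4)) (T.n (T.l (nat_lit 56) (nat_lit 28)) (T.l (nat_lit 58) (nat_lit 9)))) (T.n (T.l (nat_lit 58) (nat_lit 51)) (T.n (T.l (nat_lit 59) (nat_lit 7)) (T.l (nat_lit 59) (nat_lit 40)))))))))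
def T81_2 : T := T.n (T.n (T.n (T.n (T.n (T.n (T.n (T.l (nat_lit 3) (nat_lit 17)) (T.l (nat_lit 3) (nat_lit 19))) (T.n (T.l (nat_lit 3) (nat_lit 48)) (T.l (nat_lit 3) (nat_lit 49)))) (T.n (T.n (T.l (nat_lit 5) (nat_lit 17)) (T.l (nat_lit 5) (nat_lit 23))) (T.n (T.l (nat_lit 5) (nat_lit 36)) (T.n (T.l (nat_lit 5) (nat_lit 38)) (T.l (nat_lit 6) (nat_lit 16)))))) (T.n (T.n (T.n (T.l (nat_lit 6) (nat_lit 20)) (T.l (nat_lit 6) (nat_lit 48))) (T.n (T.l (nat_lit 6) (nat_lit 50)) (T.l (nat_lit 8) (nat_lit 20)))) (T.n (T.n (T.l (nat_lit 8) (nat_lit 22)) (T.l (nat_lit 8) (nat_lit 24))) (T.n (T.l (nat_lit 8) (nat_lit 26)) (T.n (T.l (nat_lit 10) (nat_lit 18)) (T.l (nat_lit 10) (nat_lit 21))))))) (T.n (T.n (T.n (T.n (T.l (nat_lit 10) (nat_lit 25)) (T.l (nat_lit 10) (nat_lit 26))) (T.n (T.l (nat_lit 11) (nat_lit 15)) (T.l (nat_lit 11) (nat_lit 21)))) (T.n (T.n (T.l (nat_lit 11)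 (nat_lit 37)) (T.l (nat_lit 11) (nat_lit 38))) (T.n (T.l (nat_lit 15) (nat_lit 11)) (T.n (T.l (nat_lit 15) (nat_lit 33)) (T.l (nat_lit 15) (nat_lit 41)))))) (T.n (T.n (T.n (T.l (nat_lit 15) (nat_lit 43)) (T.l (nat_lit 16) (nat_lit 6))) (T.n (T.l (nat_lit 16) (nat_lit 31)) (T.l (nat_lit 16) (nat_lit 52)))) (T.n (T.n (T.l (nat_lit 16) (nat_lit 56)) (T.l (nat_lit 17) (nat_lit 3))) (T.n (T.l (nat_lit 17) (nat_lit 5)) (T.n (T.l (nat_lit 17) (nat_lit 41)) (T.l (nat_lit 17) (nat_lit 52)))))))) (T.n (T.n (T.n (T.n (T.n (T.l (nat_lit 18) (nat_lit 10)) (T.l (nat_lit 18) (nat_lit 29))) (T.n (T.l (nat_lit 18) (nat_lit 31)) (T.l (nat_lit 18) (nat_lit 45)))) (T.n (T.n (T.l (nat_lit 19) (nat_lit 3)) (T.l (nat_lit 19) (nat_lit 43))) (T.n (T.l (nat_lit 19) (nat_lit 53)) (T.n (T.l (nat_lit 19) (nat_lit 59)) (T.l (nat_lit 20) (nat_lit 6)))))) (T.n (T.n (T.n (T.l (nat_lit 20) (nat_lit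 8)) (T.l (nat_lit 20) (nat_lit 29))) (T.n (T.l (nat_lit 20) (nat_lit 53)) (T.l (nat_lit 21) (nat_lit 10)))) (T.n (T.n (T.l (nat_lit 21) (nat_lit 11)) (T.l (nat_lit 21) (nat_lit 27))) (T.n (T.l (nat_lit 21) (nat_lit 39)) (T.n (T.l (nat_lit 22) (nat_lit 8)) (T.l (nat_lit 22) (nat_lit 27))))))) (T.n (T.n (T.n (T.n (T.l (nat_lit 22) (nat_lit 33)) (T.l (nat_lit 22) (nat_lit 59))) (T.n (T.l (nat_lit 23) (nat_lit 5)) (T.l (nat_lit 23) (nat_lit 39)))) (T.n (T.n (T.l (nat_lit 23) (nat_lit 45)) (T.l (nat_lit 23) (nat_lit 56))) (T.n (T.l (nat_lit 24) (nat_lit 8)) (T.n (T.l (nat_lit 24) (nat_lit 30)) (T.l (nat_lit 24) (nat_lit 53)))))) (T.n (T.n (T.n (T.l (nat_lit 24) (nat_lit 55)) (T.l (nat_lit 25) (nat_lit 10))) (T.n (T.l (nat_lit 25) (nat_lit 35)) (T.l (nat_lit 25) (nat_lit 39)))) (T.n (T.n (T.l (nat_lit 25) (nat_lit 42)) (T.l (nat_lit 26) (nat_lit 8))) (T.n (T.l (nat_lit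 26) (nat_lit 10)) (T.n (T.l (nat_lit 26) (nat_lit 27)) (T.l (nat_lit 26) (nat_lit 29))))))))) (T.n (T.n (T.n (T.n (T.n (T.n (T.l (nat_lit 27) (nat_lit 21)) (T.l (nat_lit 27) (nat_lit 22))) (T.n (T.l (nat_lit 27) (nat_lit 26)) (T.l (nat_lit 27) (nat_lit 37)))) (T.n (T.n (T.l (nat_lit 29) (nat_lit 18)) (T.l (nat_lit 29) (nat_lit 20))) (T.n (T.l (nat_lit 29) (nat_lit 26)) (T.n (T.l (nat_lit 29) (nat_lit 50)) (T.l (nat_lit 30) (nat_lit 24)))))) (T.n (T.n (T.n (T.l (nat_lit 30) (nat_lit 37)) (T.l (nat_lit 31) (nat_lit 16))) (T.n (T.l (nat_lit 31) (nat_lit 18)) (T.l (nat_lit 33) (nat_lit 15)))) (T.n (T.n (T.l (nat_lit 33) (nat_lit 22)) (T.l (nat_lit 35) (nat_lit 25))) (T.n (T.l (nat_lit 35) (nat_lit 50)) (T.n (T.l (nat_lit 36) (nat_lit 5)) (T.l (nat_lit 36) (nat_lit 42))))))) (T.n (T.n (T.n (T.n (T.l (nat_lit 36) (nat_lit 52)) (T.l (nat_lit 36) (nat_lit 58))) (T.n (T.l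 (nat_lit 37) (nat_lit 11)) (T.l (nat_lit 37) (nat_lit 27)))) (T.n (T.n (T.l (nat_lit 37) (nat_lit 30)) (T.l (nat_lit 37) (nat_lit 47))) (T.n (T.l (nat_lit 38) (nat_lit 5)) (T.n (T.l (nat_lit 38) (nat_lit 11)) (T.l (nat_lit 38) (nat_lit 39)))))) (T.n (T.n (T.n (T.l (nat_lit 38) (nat_lit 41)) (T.l (nat_lit 39) (nat_lit 21))) (T.n (T.l (nat_lit 39) (nat_lit 23)) (T.l (nat_lit 39) (nat_lit 25)))) (T.n (T.n (T.l (nat_lit 39) (nat_lit 38)) (T.l (nat_lit 41) (nat_lit 15))) (T.n (T.l (nat_lit 41) (nat_lit 17)) (T.n (T.l (nat_lit 41) (nat_lit 38)) (T.l (nat_lit 41) (nat_lit 49)))))))) (T.n (T.n (T.n (T.n (T.n (T.l (nat_lit 42) (nat_lit 25)) (T.l (nat_lit 42) (nat_lit 36))) (T.n (T.l (nat_lit 43) (nat_lit 15)) (T.l (nat_lit 43) (nat_lit 19)))) (T.n (T.n (T.l (nat_lit 45) (nat_lit 18)) (T.l (nat_lit 45) (nat_lit 23))) (T.n (T.l (nat_lit 47) (nat_lit 37)) (T.n (T.l (nat_lit 47)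 (nat_lit 49)) (T.l (nat_lit 48) (nat_lit 3)))))) (T.n (T.n (T.n (T.l (nat_lit 48) (nat_lit 6)) (T.l (nat_lit 48) (nat_lit 52))) (T.n (T.l (nat_lit 48) (nat_lit 53)) (T.l (nat_lit 49) (nat_lit 3)))) (T.n (T.n (T.l (nat_lit 49) (nat_lit 41)) (T.l (nat_lit 49) (nat_lit 47))) (T.n (T.l (nat_lit 49) (nat_lit 55)) (T.n (T.l (nat_lit 50) (nat_lit 6)) (T.l (nat_lit 50) (nat_lit 29))))))) (T.n (T.n (T.n (T.n (T.l (nat_lit 50) (nat_lit 35)) (T.l (nat_lit 50) (nat_lit 58))) (T.n (T.l (nat_lit 52) (nat_lit 16)) (T.l (nat_lit 52) (nat_lit 17)))) (T.n (T.n (T.l (nat_lit 52) (nat_lit 36)) (T.l (nat_lit 52) (nat_lit 48))) (T.n (T.l (nat_lit 53) (nat_lit 19)) (T.n (T.l (nat_lit 53) (nat_lit 20)) (T.l (nat_lit 53) (nat_lit 24)))))) (T.n (T.n (T.n (T.l (nat_lit 53) (nat_lit 48)) (T.l (nat_lit 55) (nat_lit 24))) (T.n (T.l (nat_lit 55) (nat_lit 49)) (T.l (nat_lit 56) (nat_lit 16)))) (T.n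 (T.n (T.l (nat_lit 56) (nat_lit 23)) (T.l (nat_lit 58) (nat_lit 36))) (T.n (T.l (nat_lit 58) (nat_lit 50)) (T.n (T.l (nat_lit 59) (nat_lit 19)) (T.l (nat_lit 59) (nat_lit 22)))))))))
def T82_2 : T := T.n (T.n (T.n (T.n (T.n (T.n (T.l (nat_lit 3) (nat_lit 18)) (T.l (nat_lit 3) (nat_lit 25))) (T.n (T.l (nat_lit 3) (nat_lit 41)) (T.l (nat_lit 3) (nat_lit 53)))) (T.n (T.n (T.l (nat_lit 5) (nat_lit 22)) (T.l (nat_lit 5) (nat_lit 24))) (T.n (T.l (nat_lit 5) (nat_lit 39)) (T.n (T.l (nat_lit 5) (nat_lit 52)) (T.l (nat_lit 6) (nat_lit 15)))))) (T.n (T.n (T.n (T.l (nat_lit 6) (nat_lit 29)) (T.l (nat_lit 6) (nat_lit 37))) (T.n (T.l (nat_lit 6) (nat_lit 52)) (T.l (nat_lit 8) (nat_lit 23)))) (T.n (T.n (T.l (nat_lit 8) (nat_lit 27)) (T.l (nat_lit 8) (nat_lit 36))) (T.n (T.l (nat_lit 8) (nat_lit 53)) (T.n (T.l (nat_lit 10) (nat_lit 19)) (T.l (nat_lit 10) (nat_lit 29))))))) (T.n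 (T.n (T.n (T.n (T.l (nat_lit 10) (nat_lit 39)) (T.l (nat_lit 10) (nat_lit 49))) (T.n (T.l (nat_lit 11) (nat_lit 16)) (T.l (nat_lit 11) (nat_lit 27)))) (T.n (T.n (T.l (nat_lit 11) (nat_lit 41)) (T.l (nat_lit 11) (nat_lit 50))) (T.n (T.l (nat_lit 15) (nat_lit 6)) (T.n (T.l (nat_lit 15) (nat_lit 29)) (T.l (nat_lit 16) (nat_lit 11)))))) (T.n (T.n (T.n (T.l (nat_lit 16) (nat_lit 27)) (T.l (nat_lit 18) (nat_lit 3))) (T.n (T.l (nat_lit 18) (nat_lit 41)) (T.l (nat_lit 19) (nat_lit 10)))) (T.n (T.n (T.l (nat_lit 19) (nat_lit 39)) (T.l (nat_lit 22) (nat_lit 5))) (T.n (T.l (nat_lit 22) (nat_lit 52)) (T.n (T.l (nat_lit 23) (nat_lit 8)) (T.l (nat_lit 23) (nat_lit 53)))))))) (T.n (T.n (T.n (T.n (T.n (T.l (nat_lit 24) (nat_lit 5)) (T.l (nat_lit 24) (nat_lit 39))) (T.n (T.l (nat_lit 25) (nat_lit 3)) (T.l (nat_lit 25) (nat_lit 53)))) (T.n (T.n (T.l (nat_lit 27) (nat_lit 8)) (T.l (nat_lit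 27) (nat_lit 11))) (T.n (T.l (nat_lit 27) (nat_lit 16)) (T.n (T.l (nat_lit 27) (nat_lit 36)) (T.l (nat_lit 29) (nat_lit 6)))))) (T.n (T.n (T.n (T.l (nat_lit 29) (nat_lit 10)) (T.l (nat_lit 29) (nat_lit 15))) (T.n (T.l (nat_lit 29) (nat_lit 49)) (T.l (nat_lit 36) (nat_lit 8)))) (T.n (T.n (T.l (nat_lit 36) (nat_lit 27)) (T.l (nat_lit 37) (nat_lit 6))) (T.n (T.l (nat_lit 37) (nat_lit 52)) (T.n (T.l (nat_lit 39) (nat_lit 5)) (T.l (nat_lit 39) (nat_lit 10))))))) (T.n (T.n (T.n (T.n (T.l (nat_lit 39) (nat_lit 19)) (T.l (nat_lit 39) (nat_lit 24))) (T.n (T.l (nat_lit 41) (nat_lit 3)) (T.l (nat_lit 41) (nat_lit 11)))) (T.n (T.n (T.l (nat_lit 41) (nat_lit 18)) (T.l (nat_lit 41) (nat_lit 50))) (T.n (T.l (nat_lit 49) (nat_lit 10)) (T.n (T.l (nat_lit 49) (nat_lit 29)) (T.l (nat_lit 50) (nat_lit 11)))))) (T.n (T.n (T.n (T.l (nat_lit 50) (nat_lit 41)) (T.l (nat_lit 52) (nat_lit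 5))) (T.n (T.l (nat_lit 52) (nat_lit 6)) (T.l (nat_lit 52) (nat_lit 22)))) (T.n (T.n (T.l (nat_lit 52) (nat_lit 37)) (T.l (nat_lit 53) (nat_lit 3))) (T.n (T.l (nat_lit 53) (nat_lit 8)) (T.n (T.l (nat_lit 53) (nat_lit 23)) (T.l (nat_lit 53) (nat_lit 25))))))))
def T83_2 : T := T.n (T.n (T.n (T.n (T.n (T.n (T.l (nat_lit 3) (nat_lit 20)) (T.n (T.l (nat_lit 3) (nat_lit 32)) (T.l (nat_lit 3) (nat_lit 38)))) (T.n (T.l (nat_lit 3) (nat_lit 57)) (T.n (T.l (nat_lit 5) (nat_lit 21)) (T.l (nat_lit 5) (nat_lit 34))))) (T.n (T.n (T.l (nat_lit 5) (nat_lit 46)) (T.n (T.l (nat_lit 5) (nat_lit 48)) (T.l (nat_lit 6) (nat_lit 17)))) (T.n (T.l (nat_lit 6) (nat_lit 26)) (T.n (T.l (nat_lit 6) (nat_lit 44)) (T.l (nat_lit 6) (nat_lit 54)))))) (T.n (T.n (T.n (T.l (nat_lit 8) (nat_lit 21)) (T.n (T.l (nat_lit 8) (nat_lit 34)) (T.l (nat_lit 8) (nat_lit 46)))) (T.n (T.l (nat_lit 8) (nat_lit 48))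 (T.n (T.l (nat_lit 10) (nat_lit 20)) (T.l (nat_lit 10) (nat_lit 32))))) (T.n (T.n (T.l (nat_lit 10) (nat_lit 38)) (T.n (T.l (nat_lit 10) (nat_lit 57)) (T.l (nat_lit 11) (nat_lit 17)))) (T.n (T.l (nat_lit 11) (nat_lit 26)) (T.n (T.l (nat_lit 11) (nat_lit 44)) (T.l (nat_lit 11) (nat_lit 54))))))) (T.n (T.n (T.n (T.n (T.l (nat_lit 17) (nat_lit 6)) (T.n (T.l (nat_lit 17) (nat_lit 11)) (T.l (nat_lit 17) (nat_lit 39)))) (T.n (T.l (nat_lit 17) (nat_lit 53)) (T.n (T.l (nat_lit 20) (nat_lit 3)) (T.l (nat_lit 20) (nat_lit 10))))) (T.n (T.n (T.l (nat_lit 20) (nat_lit 27)) (T.n (T.l (nat_lit 20) (nat_lit 52)) (T.l (nat_lit 21) (nat_lit 5)))) (T.n (T.l (nat_lit 21) (nat_lit 8)) (T.n (T.l (nat_lit 21) (nat_lit 29)) (T.l (nat_lit 21) (nat_lit 41)))))) (T.n (T.n (T.n (T.l (nat_lit 26) (nat_lit 6)) (T.n (T.l (nat_lit 26) (nat_lit 11)) (T.l (nat_lit 26) (nat_lit 39)))) (T.n (T.l (nat_lit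 26) (nat_lit 53)) (T.n (T.l (nat_lit 27) (nat_lit 20)) (T.l (nat_lit 27) (nat_lit 38))))) (T.n (T.n (T.l (nat_lit 27) (nat_lit 44)) (T.n (T.l (nat_lit 27) (nat_lit 46)) (T.l (nat_lit 29) (nat_lit 21)))) (T.n (T.l (nat_lit 29) (nat_lit 48)) (T.n (T.l (nat_lit 29) (nat_lit 54)) (T.l (nat_lit 29) (nat_lit 57)))))))) (T.n (T.n (T.n (T.n (T.n (T.l (nat_lit 32) (nat_lit 3)) (T.n (T.l (nat_lit 32) (nat_lit 10)) (T.l (nat_lit 32) (nat_lit 39)))) (T.n (T.l (nat_lit 32) (nat_lit 53)) (T.n (T.l (nat_lit 34) (nat_lit 5)) (T.l (nat_lit 34) (nat_lit 8))))) (T.n (T.n (T.l (nat_lit 34) (nat_lit 39)) (T.n (T.l (nat_lit 34) (nat_lit 53)) (T.l (nat_lit 38) (nat_lit 3)))) (T.n (T.l (nat_lit 38) (nat_lit 10)) (T.n (T.l (nat_lit 38) (nat_lit 27)) (T.l (nat_lit 38) (nat_lit 52)))))) (T.n (T.n (T.n (T.l (nat_lit 39) (nat_lit 17)) (T.n (T.l (nat_lit 39) (nat_lit 26)) (T.l (nat_lit 39) (nat_lit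 32)))) (T.n (T.l (nat_lit 39) (nat_lit 34)) (T.n (T.l (nat_lit 41) (nat_lit 21)) (T.l (nat_lit 41) (nat_lit 48))))) (T.n (T.n (T.l (nat_lit 41) (nat_lit 54)) (T.n (T.l (nat_lit 41) (nat_lit 57)) (T.l (nat_lit 44) (nat_lit 6)))) (T.n (T.l (nat_lit 44) (nat_lit 11)) (T.n (T.l (nat_lit 44) (nat_lit 27)) (T.l (nat_lit 44) (nat_lit 52))))))) (T.n (T.n (T.n (T.n (T.l (nat_lit 46) (nat_lit 5)) (T.n (T.l (nat_lit 46) (nat_lit 8)) (T.l (nat_lit 46) (nat_lit 27)))) (T.n (T.l (nat_lit 46) (nat_lit 52)) (T.n (T.l (nat_lit 48) (nat_lit 5)) (T.l (nat_lit 48) (nat_lit 8))))) (T.n (T.n (T.l (nat_lit 48) (nat_lit 29)) (T.n (T.l (nat_lit 48) (nat_lit 41)) (T.l (nat_lit 52) (nat_lit 20)))) (T.n (T.l (nat_lit 52) (nat_lit 38)) (T.n (T.l (nat_lit 52) (nat_lit 44)) (T.l (nat_lit 52) (nat_lit 46)))))) (T.n (T.n (T.n (T.l (nat_lit 53) (nat_lit 17)) (T.n (T.l (nat_lit 53) (nat_lit 26)) (T.l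 (nat_lit 53) (nat_lit 32)))) (T.n (T.l (nat_lit 53) (nat_lit 34)) (T.n (T.l (nat_lit 54) (nat_lit 6)) (T.l (nat_lit 54) (nat_lit 11))))) (T.n (T.n (T.l (nat_lit 54) (nat_lit 29)) (T.n (T.l (nat_lit 54) (nat_lit 41)) (T.l (nat_lit 57) (nat_lit 3)))) (T.n (T.l (nat_lit 57) (nat_lit 10)) (T.n (T.l (nat_lit 57) (nat_lit 29)) (T.l (nat_lit 57) (nat_lit 41))))))))
def T84_2 : T := T.n (T.n (T.n (T.n (T.n (T.n (T.l (nat_lit 3) (nat_lit 21)) (T.n (T.l (nat_lit 3) (nat_lit 26)) (T.l (nat_lit 3) (nat_lit 47)))) (T.n (T.l (nat_lit 3) (nat_lit 59)) (T.n (T.l (nat_lit 5) (nat_lit 20)) (T.l (nat_lit 5) (nat_lit 26))))) (T.n (T.n (T.l (nat_lit 5) (nat_lit 45)) (T.n (T.l (nat_lit 5) (nat_lit 58)) (T.l (nat_lit 6) (nat_lit 21)))) (T.n (T.l (nat_lit 6) (nat_lit 35)) (T.n (T.l (nat_lit 6) (nat_lit 38)) (T.l (nat_lit 6) (nat_lit 56)))))) (T.n (T.n (T.n (T.l (nat_lit 8) (nat_lit 17))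 (T.n (T.l (nat_lit 8) (nat_lit 33)) (T.l (nat_lit 8) (nat_lit 38)))) (T.n (T.l (nat_lit 8) (nat_lit 55)) (T.n (T.l (nat_lit 10) (nat_lit 17)) (T.l (nat_lit 10) (nat_lit 31))))) (T.n (T.n (T.l (nat_lit 10) (nat_lit 42)) (T.n (T.l (nat_lit 10) (nat_lit 48)) (T.l (nat_lit 11) (nat_lit 20)))) (T.n (T.l (nat_lit 11) (nat_lit 30)) (T.n (T.l (nat_lit 11) (nat_lit 43)) (T.l (nat_lit 11) (nat_lit 48))))))) (T.n (T.n (T.n (T.n (T.l (nat_lit 17) (nat_lit 8)) (T.n (T.l (nat_lit 17) (nat_lit 10)) (T.l (nat_lit 17) (nat_lit 27)))) (T.n (T.l (nat_lit 17) (nat_lit 29)) (T.n (T.l (nat_lit 20) (nat_lit 5)) (T.l (nat_lit 20) (nat_lit 11))))) (T.n (T.n (T.l (nat_lit 20) (nat_lit 39)) (T.n (T.l (nat_lit 20) (nat_lit 41)) (T.l (nat_lit 21) (nat_lit 3)))) (T.n (T.l (nat_lit 21) (nat_lit 6)) (T.n (T.l (nat_lit 21) (nat_lit 52)) (T.l (nat_lit 21) (nat_lit 53)))))) (T.n (T.n (T.n (T.l (nat_lit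 26) (nat_lit 3)) (T.n (T.l (nat_lit 26) (nat_lit 5)) (T.l (nat_lit 26) (nat_lit 41)))) (T.n (T.l (nat_lit 26) (nat_lit 52)) (T.n (T.l (nat_lit 27) (nat_lit 17)) (T.l (nat_lit 27) (nat_lit 47))))) (T.n (T.n (T.l (nat_lit 27) (nat_lit 48)) (T.n (T.l (nat_lit 27) (nat_lit 59)) (T.l (nat_lit 29) (nat_lit 17)))) (T.n (T.l (nat_lit 29) (nat_lit 38)) (T.n (T.l (nat_lit 29) (nat_lit 45)) (T.l (nat_lit 29) (nat_lit 58)))))))) (T.n (T.n (T.n (T.n (T.n (T.l (nat_lit 30) (nat_lit 11)) (T.n (T.l (nat_lit 30) (nat_lit 53)) (T.l (nat_lit 31) (nat_lit 10)))) (T.n (T.l (nat_lit 31) (nat_lit 52)) (T.n (T.l (nat_lit 33) (nat_lit 8)) (T.l (nat_lit 33) (nat_lit 41))))) (T.n (T.n (T.l (nat_lit 35) (nat_lit 6)) (T.n (T.l (nat_lit 35) (nat_lit 39)) (T.l (nat_lit 38) (nat_lit 6)))) (T.n (T.l (nat_lit 38) (nat_lit 8)) (T.n (T.l (nat_lit 38) (nat_lit 29)) (T.l (nat_lit 38) (nat_lit 53))))))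 (T.n (T.n (T.n (T.l (nat_lit 39) (nat_lit 20)) (T.n (T.l (nat_lit 39) (nat_lit 35)) (T.l (nat_lit 39) (nat_lit 48)))) (T.n (T.l (nat_lit 39) (nat_lit 56)) (T.n (T.l (nat_lit 41) (nat_lit 20)) (T.l (nat_lit 41) (nat_lit 26))))) (T.n (T.n (T.l (nat_lit 41) (nat_lit 33)) (T.n (T.l (nat_lit 41) (nat_lit 55)) (T.l (nat_lit 42) (nat_lit 10)))) (T.n (T.l (nat_lit 42) (nat_lit 52)) (T.n (T.l (nat_lit 43) (nat_lit 11)) (T.l (nat_lit 43) (nat_lit 53))))))) (T.n (T.n (T.n (T.n (T.l (nat_lit 45) (nat_lit 5)) (T.n (T.l (nat_lit 45) (nat_lit 29)) (T.l (nat_lit 47) (nat_lit 3)))) (T.n (T.l (nat_lit 47) (nat_lit 27)) (T.n (T.l (nat_lit 48) (nat_lit 10)) (T.l (nat_lit 48) (nat_lit 11))))) (T.n (T.n (T.l (nat_lit 48) (nat_lit 27)) (T.n (T.l (nat_lit 48) (nat_lit 39)) (T.l (nat_lit 52) (nat_lit 21)))) (T.n (T.l (nat_lit 52) (nat_lit 26)) (T.n (T.l (nat_lit 52) (nat_lit 31)) (T.l (nat_lit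 52) (nat_lit 42)))))) (T.n (T.n (T.n (T.l (nat_lit 53) (nat_lit 21)) (T.n (T.l (nat_lit 53) (nat_lit 30)) (T.l (nat_lit 53) (nat_lit 38)))) (T.n (T.l (nat_lit 53) (nat_lit 43)) (T.n (T.l (nat_lit 55) (nat_lit 8)) (T.l (nat_lit 55) (nat_lit 41))))) (T.n (T.n (T.l (nat_lit 56) (nat_lit 6)) (T.n (T.l (nat_lit 56) (nat_lit 39)) (T.l (nat_lit 58) (nat_lit 5)))) (T.n (T.l (nat_lit 58) (nat_lit 29)) (T.n (T.l (nat_lit 59) (nat_lit 3)) (T.l (nat_lit 59) (nat_lit 27))))))))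
def T85_2 : T := T.n (T.n (T.n (T.n (T.n (T.n (T.n (T.l (nat_lit 3) (nat_lit 22)) (T.l (nat_lit 3) (nat_lit 34))) (T.n (T.l (nat_lit 3) (nat_lit 37)) (T.l (nat_lit 3) (nat_lit 54)))) (T.n (T.n (T.l (nat_lit 5) (nat_lit 18)) (T.l (nat_lit 5) (nat_lit 32))) (T.n (T.l (nat_lit 5) (nat_lit 44)) (T.n (T.l (nat_lit 5) (nat_lit 50)) (T.l (nat_lit 6) (nat_lit 23)))))) (T.n (T.n (T.n (T.l (nat_lit 6) (nat_lit 25)) (T.l (nat_lit 6) (nat_lit 46))) (T.n (T.l (nat_lit 6) (nat_lit 57)) (T.l (nat_lit 8) (nat_lit 15)))) (T.n (T.n (T.l (nat_lit 8) (nat_lit 32)) (T.l (nat_lit 8) (nat_lit 44))) (T.n (T.l (nat_lit 8) (nat_lit 49)) (T.n (T.l (nat_lit 10) (nat_lit 16)) (T.l (nat_lit 10) (nat_lit 34))))))) (T.n (T.n (T.n (T.n (T.l (nat_lit 10) (nat_lit 36)) (T.l (nat_lit 10) (nat_lit 54))) (T.n (T.l (nat_lit 11) (nat_lit 19)) (T.l (nat_lit 11) (nat_lit 24)))) (T.n (T.n (T.l (nat_lit 11)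 (nat_lit 46)) (T.l (nat_lit 11) (nat_lit 57))) (T.n (T.l (nat_lit 15) (nat_lit 8)) (T.n (T.l (nat_lit 15) (nat_lit 30)) (T.l (nat_lit 15) (nat_lit 53)))))) (T.n (T.n (T.n (T.l (nat_lit 15) (nat_lit 55)) (T.l (nat_lit 16) (nat_lit 10))) (T.n (T.l (nat_lit 16) (nat_lit 35)) (T.l (nat_lit 16) (nat_lit 39)))) (T.n (T.n (T.l (nat_lit 16) (nat_lit 42)) (T.l (nat_lit 18) (nat_lit 5))) (T.n (T.l (nat_lit 18) (nat_lit 42)) (T.n (T.l (nat_lit 18) (nat_lit 52)) (T.l (nat_lit 18) (nat_lit 58)))))))) (T.n (T.n (T.n (T.n (T.n (T.l (nat_lit 19) (nat_lit 11)) (T.l (nat_lit 19) (nat_lit 27))) (T.n (T.l (nat_lit 19) (nat_lit 30)) (T.l (nat_lit 19) (nat_lit 47)))) (T.n (T.n (T.l (nat_lit 22) (nat_lit 3)) (T.l (nat_lit 22) (nat_lit 41))) (T.n (T.l (nat_lit 22) (nat_lit 47)) (T.n (T.l (nat_lit 22) (nat_lit 55)) (T.l (nat_lit 23) (nat_lit 6)))))) (T.n (T.n (T.n (T.l (nat_lit 23) (nat_lit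 29)) (T.l (nat_lit 23) (nat_lit 35))) (T.n (T.l (nat_lit 23) (nat_lit 58)) (T.l (nat_lit 24) (nat_lit 11)))) (T.n (T.n (T.l (nat_lit 24) (nat_lit 33)) (T.l (nat_lit 24) (nat_lit 41))) (T.n (T.l (nat_lit 24) (nat_lit 43)) (T.n (T.l (nat_lit 25) (nat_lit 6)) (T.l (nat_lit 25) (nat_lit 31))))))) (T.n (T.n (T.n (T.n (T.l (nat_lit 25) (nat_lit 52)) (T.l (nat_lit 25) (nat_lit 56))) (T.n (T.l (nat_lit 27) (nat_lit 19)) (T.l (nat_lit 27) (nat_lit 34)))) (T.n (T.n (T.l (nat_lit 27) (nat_lit 49)) (T.l (nat_lit 27) (nat_lit 54))) (T.n (T.l (nat_lit 29) (nat_lit 23)) (T.n (T.l (nat_lit 29) (nat_lit 32)) (T.l (nat_lit 29) (nat_lit 36)))))) (T.n (T.n (T.n (T.l (nat_lit 29) (nat_lit 44)) (T.l (nat_lit 30) (nat_lit 15))) (T.n (T.l (nat_lit 30) (nat_lit 19)) (T.l (nat_lit 31) (nat_lit 25)))) (T.n (T.n (T.l (nat_lit 31) (nat_lit 36)) (T.l (nat_lit 32) (nat_lit 5))) (T.n (T.l (nat_lit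 32) (nat_lit 8)) (T.n (T.l (nat_lit 32) (nat_lit 29)) (T.l (nat_lit 32) (nat_lit 41))))))))) (T.n (T.n (T.n (T.n (T.n (T.n (T.l (nat_lit 33) (nat_lit 24)) (T.l (nat_lit 33) (nat_lit 49))) (T.n (T.l (nat_lit 34) (nat_lit 3)) (T.l (nat_lit 34) (nat_lit 10)))) (T.n (T.n (T.l (nat_lit 34) (nat_lit 27)) (T.l (nat_lit 34) (nat_lit 52))) (T.n (T.l (nat_lit 35) (nat_lit 16)) (T.n (T.l (nat_lit 35) (nat_lit 23)) (T.l (nat_lit 36) (nat_lit 10)))))) (T.n (T.n (T.n (T.l (nat_lit 36) (nat_lit 29)) (T.l (nat_lit 36) (nat_lit 31))) (T.n (T.l (nat_lit 36) (nat_lit 45)) (T.l (nat_lit 37) (nat_lit 3)))) (T.n (T.n (T.l (nat_lit 37) (nat_lit 43)) (T.l (nat_lit 37) (nat_lit 53))) (T.n (T.l (nat_lit 37) (nat_lit 59)) (T.n (T.l (nat_lit 39) (nat_lit 16)) (T.l (nat_lit 39) (nat_lit 46))))))) (T.n (T.n (T.n (T.n (T.l (nat_lit 39) (nat_lit 50)) (T.l (nat_lit 39) (nat_lit 57))) (T.n (T.l (nat_lit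 41) (nat_lit 22)) (T.l (nat_lit 41) (nat_lit 24)))) (T.n (T.n (T.l (nat_lit 41) (nat_lit 32)) (T.l (nat_lit 41) (nat_lit 44))) (T.n (T.l (nat_lit 42) (nat_lit 16)) (T.n (T.l (nat_lit 42) (nat_lit 18)) (T.l (nat_lit 43) (nat_lit 24)))))) (T.n (T.n (T.n (T.l (nat_lit 43) (nat_lit 37)) (T.l (nat_lit 44) (nat_lit 5))) (T.n (T.l (nat_lit 44) (nat_lit 8)) (T.l (nat_lit 44) (nat_lit 29)))) (T.n (T.n (T.l (nat_lit 44) (nat_lit 41)) (T.l (nat_lit 45) (nat_lit 36))) (T.n (T.l (nat_lit 45) (nat_lit 50)) (T.n (T.l (nat_lit 46) (nat_lit 6)) (T.l (nat_lit 46) (nat_lit 11)))))))) (T.n (T.n (T.n (T.n (T.n (T.l (nat_lit 46) (nat_lit 39)) (T.l (nat_lit 46) (nat_lit 53))) (T.n (T.l (nat_lit 47) (nat_lit 19)) (T.l (nat_lit 47) (nat_lit 22)))) (T.n (T.n (T.l (nat_lit 49) (nat_lit 8)) (T.l (nat_lit 49) (nat_lit 27))) (T.n (T.l (nat_lit 49) (nat_lit 33)) (T.n (T.l (nat_lit 49) (nat_lit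 59)) (T.l (nat_lit 50) (nat_lit 5)))))) (T.n (T.n (T.n (T.l (nat_lit 50) (nat_lit 39)) (T.l (nat_lit 50) (nat_lit 45))) (T.n (T.l (nat_lit 50) (nat_lit 56)) (T.l (nat_lit 52) (nat_lit 18)))) (T.n (T.n (T.l (nat_lit 52) (nat_lit 25)) (T.l (nat_lit 52) (nat_lit 34))) (T.n (T.l (nat_lit 52) (nat_lit 54)) (T.n (T.l (nat_lit 53) (nat_lit 15)) (T.l (nat_lit 53) (nat_lit 37))))))) (T.n (T.n (T.n (T.n (T.l (nat_lit 53) (nat_lit 46)) (T.l (nat_lit 53) (nat_lit 57))) (T.n (T.l (nat_lit 54) (nat_lit 3)) (T.l (nat_lit 54) (nat_lit 10)))) (T.n (T.n (T.l (nat_lit 54) (nat_lit 27)) (T.l (nat_lit 54) (nat_lit 52))) (T.n (T.l (nat_lit 55) (nat_lit 15)) (T.n (T.l (nat_lit 55) (nat_lit 22)) (T.l (nat_lit 56) (nat_lit 25)))))) (T.n (T.n (T.n (T.l (nat_lit 56) (nat_lit 50)) (T.l (nat_lit 57) (nat_lit 6))) (T.n (T.l (nat_lit 57) (nat_lit 11)) (T.l (nat_lit 57) (nat_lit 39)))) (T.n (T.n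 (T.l (nat_lit 57) (nat_lit 53)) (T.l (nat_lit 58) (nat_lit 18))) (T.n (T.l (nat_lit 58) (nat_lit 23)) (T.n (T.l (nat_lit 59) (nat_lit 37)) (T.l (nat_lit 59) (nat_lit 49)))))))))
def T86_2 : T := T.n (T.n (T.n (T.n (T.n (T.n (T.l (nat_lit 3) (nat_lit 23)) (T.l (nat_lit 3) (nat_lit 50))) (T.n (T.l (nat_lit 5) (nat_lit 19)) (T.l (nat_lit 5) (nat_lit 37)))) (T.n (T.n (T.l (nat_lit 6) (nat_lit 22)) (T.l (nat_lit 6) (nat_lit 49))) (T.n (T.l (nat_lit 8) (nat_lit 16)) (T.n (T.l (nat_lit 8) (nat_lit 25)) (T.l (nat_lit 10) (nat_lit 15)))))) (T.n (T.n (T.n (T.l (nat_lit 10) (nat_lit 24)) (T.l (nat_lit 11) (nat_lit 18))) (T.n (T.l (nat_lit 11) (nat_lit 36)) (T.l (nat_lit 15) (nat_lit 10)))) (T.n (T.n (T.l (nat_lit 15) (nat_lit 37)) (T.l (nat_lit 15) (nat_lit 49))) (T.n (T.l (nat_lit 15) (nat_lit 52)) (T.n (T.l (nat_lit 16) (nat_lit 8)) (T.l (nat_lit 16) (nat_lit 36))))))) (T.n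 (T.n (T.n (T.n (T.l (nat_lit 16) (nat_lit 41)) (T.l (nat_lit 16) (nat_lit 50))) (T.n (T.l (nat_lit 18) (nat_lit 11)) (T.l (nat_lit 18) (nat_lit 25)))) (T.n (T.n (T.l (nat_lit 18) (nat_lit 50)) (T.l (nat_lit 18) (nat_lit 53))) (T.n (T.l (nat_lit 19) (nat_lit 5)) (T.n (T.l (nat_lit 19) (nat_lit 24)) (T.l (nat_lit 19) (nat_lit 29)))))) (T.n (T.n (T.n (T.l (nat_lit 19) (nat_lit 49)) (T.l (nat_lit 22) (nat_lit 6))) (T.n (T.l (nat_lit 22) (nat_lit 24)) (T.l (nat_lit 22) (nat_lit 37)))) (T.n (T.n (T.l (nat_lit 22) (nat_lit 39)) (T.l (nat_lit 23) (nat_lit 3))) (T.n (T.l (nat_lit 23) (nat_lit 25)) (T.n (T.l (nat_lit 23) (nat_lit 27)) (T.l (nat_lit 23) (nat_lit 36)))))))) (T.n (T.n (T.n (T.n (T.n (T.l (nat_lit 24) (nat_lit 10)) (T.l (nat_lit 24) (nat_lit 19))) (T.n (T.l (nat_lit 24) (nat_lit 22)) (T.l (nat_lit 24) (nat_lit 52)))) (T.n (T.n (T.l (nat_lit 25) (nat_lit 8)) (T.l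 (nat_lit 25) (nat_lit 18))) (T.n (T.l (nat_lit 25) (nat_lit 23)) (T.n (T.l (nat_lit 25) (nat_lit 41)) (T.l (nat_lit 27) (nat_lit 23)))))) (T.n (T.n (T.n (T.l (nat_lit 27) (nat_lit 50)) (T.l (nat_lit 29) (nat_lit 19))) (T.n (T.l (nat_lit 29) (nat_lit 37)) (T.l (nat_lit 36) (nat_lit 11)))) (T.n (T.n (T.l (nat_lit 36) (nat_lit 16)) (T.l (nat_lit 36) (nat_lit 23))) (T.n (T.l (nat_lit 36) (nat_lit 53)) (T.n (T.l (nat_lit 37) (nat_lit 5)) (T.l (nat_lit 37) (nat_lit 15))))))) (T.n (T.n (T.n (T.n (T.l (nat_lit 37) (nat_lit 22)) (T.l (nat_lit 37) (nat_lit 29))) (T.n (T.l (nat_lit 39) (nat_lit 22)) (T.l (nat_lit 39) (nat_lit 49)))) (T.n (T.n (T.l (nat_lit 41) (nat_lit 16)) (T.l (nat_lit 41) (nat_lit 25))) (T.n (T.l (nat_lit 49) (nat_lit 6)) (T.n (T.l (nat_lit 49) (nat_lit 15)) (T.l (nat_lit 49) (nat_lit 19)))))) (T.n (T.n (T.n (T.l (nat_lit 49) (nat_lit 39)) (T.l (nat_lit 50)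 (nat_lit 3))) (T.n (T.l (nat_lit 50) (nat_lit 16)) (T.l (nat_lit 50) (nat_lit 18)))) (T.n (T.n (T.l (nat_lit 50) (nat_lit 27)) (T.l (nat_lit 52) (nat_lit 15))) (T.n (T.l (nat_lit 52) (nat_lit 24)) (T.n (T.l (nat_lit 53) (nat_lit 18)) (T.l (nat_lit 53) (nat_lit 36))))))))
def T87_2 : T := T.n (T.n (T.n (T.n (T.n (T.n (T.l (nat_lit 3) (nat_lit 30)) (T.n (T.l (nat_lit 3) (nat_lit 33)) (T.l (nat_lit 3) (nat_lit 44)))) (T.n (T.l (nat_lit 3) (nat_lit 46)) (T.n (T.l (nat_lit 5) (nat_lit 31)) (T.l (nat_lit 5) (nat_lit 35))))) (T.n (T.n (T.l (nat_lit 5) (nat_lit 54)) (T.n (T.l (nat_lit 5) (nat_lit 57)) (T.l (nat_lit 6) (nat_lit 32)))) (T.n (T.l (nat_lit 6) (nat_lit 34)) (T.n (T.l (nat_lit 6) (nat_lit 42)) (T.l (nat_lit 6) (nat_lit 45)))))) (T.n (T.n (T.n (T.l (nat_lit 8) (nat_lit 43)) (T.n (T.l (nat_lit 8) (nat_lit 47)) (T.l (nat_lit 8) (nat_lit 54)))) (T.n (T.l (nat_lit 8)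 (nat_lit 57)) (T.n (T.l (nat_lit 10) (nat_lit 44)) (T.l (nat_lit 10) (nat_lit 46))))) (T.n (T.n (T.l (nat_lit 10) (nat_lit 56)) (T.n (T.l (nat_lit 10) (nat_lit 58)) (T.l (nat_lit 11) (nat_lit 32)))) (T.n (T.l (nat_lit 11) (nat_lit 34)) (T.n (T.l (nat_lit 11) (nat_lit 55)) (T.l (nat_lit 11) (nat_lit 59))))))) (T.n (T.n (T.n (T.n (T.l (nat_lit 27) (nat_lit 32)) (T.n (T.l (nat_lit 27) (nat_lit 43)) (T.l (nat_lit 27) (nat_lit 55)))) (T.n (T.l (nat_lit 27) (nat_lit 57)) (T.n (T.l (nat_lit 29) (nat_lit 34)) (T.l (nat_lit 29) (nat_lit 42))))) (T.n (T.n (T.l (nat_lit 29) (nat_lit 46)) (T.n (T.l (nat_lit 29) (nat_lit 56)) (T.l (nat_lit 30) (nat_lit 3)))) (T.n (T.l (nat_lit 30) (nat_lit 41)) (T.n (T.l (nat_lit 31) (nat_lit 5)) (T.l (nat_lit 31) (nat_lit 39)))))) (T.n (T.n (T.n (T.l (nat_lit 32) (nat_lit 6)) (T.n (T.l (nat_lit 32) (nat_lit 11)) (T.l (nat_lit 32) (nat_lit 27))))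 (T.n (T.l (nat_lit 32) (nat_lit 52)) (T.n (T.l (nat_lit 33) (nat_lit 3)) (T.l (nat_lit 33) (nat_lit 53))))) (T.n (T.n (T.l (nat_lit 34) (nat_lit 6)) (T.n (T.l (nat_lit 34) (nat_lit 11)) (T.l (nat_lit 34) (nat_lit 29)))) (T.n (T.l (nat_lit 34) (nat_lit 41)) (T.n (T.l (nat_lit 35) (nat_lit 5)) (T.l (nat_lit 35) (nat_lit 52)))))))) (T.n (T.n (T.n (T.n (T.n (T.l (nat_lit 39) (nat_lit 31)) (T.n (T.l (nat_lit 39) (nat_lit 44)) (T.l (nat_lit 39) (nat_lit 54)))) (T.n (T.l (nat_lit 39) (nat_lit 58)) (T.n (T.l (nat_lit 41) (nat_lit 30)) (T.l (nat_lit 41) (nat_lit 34))))) (T.n (T.n (T.l (nat_lit 41) (nat_lit 46)) (T.n (T.l (nat_lit 41) (nat_lit 59)) (T.l (nat_lit 42) (nat_lit 6)))) (T.n (T.l (nat_lit 42) (nat_lit 29)) (T.n (T.l (nat_lit 43) (nat_lit 8)) (T.l (nat_lit 43) (nat_lit 27)))))) (T.n (T.n (T.n (T.l (nat_lit 44) (nat_lit 3)) (T.n (T.l (nat_lit 44) (nat_lit 10)) (T.l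 (nat_lit 44) (nat_lit 39)))) (T.n (T.l (nat_lit 44) (nat_lit 53)) (T.n (T.l (nat_lit 45) (nat_lit 6)) (T.l (nat_lit 45) (nat_lit 52))))) (T.n (T.n (T.l (nat_lit 46) (nat_lit 3)) (T.n (T.l (nat_lit 46) (nat_lit 10)) (T.l (nat_lit 46) (nat_lit 29)))) (T.n (T.l (nat_lit 46) (nat_lit 41)) (T.n (T.l (nat_lit 47) (nat_lit 8)) (T.l (nat_lit 47) (nat_lit 53))))))) (T.n (T.n (T.n (T.n (T.l (nat_lit 52) (nat_lit 32)) (T.n (T.l (nat_lit 52) (nat_lit 35)) (T.l (nat_lit 52) (nat_lit 45)))) (T.n (T.l (nat_lit 52) (nat_lit 57)) (T.n (T.l (nat_lit 53) (nat_lit 33)) (T.l (nat_lit 53) (nat_lit 44))))) (T.n (T.n (T.l (nat_lit 53) (nat_lit 47)) (T.n (T.l (nat_lit 53) (nat_lit 54)) (T.l (nat_lit 54) (nat_lit 5)))) (T.n (T.l (nat_lit 54) (nat_lit 8)) (T.n (T.l (nat_lit 54) (nat_lit 39)) (T.l (nat_lit 54) (nat_lit 53)))))) (T.n (T.n (T.n (T.l (nat_lit 55) (nat_lit 11)) (T.n (T.l (nat_lit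 55) (nat_lit 27)) (T.l (nat_lit 56) (nat_lit 10)))) (T.n (T.l (nat_lit 56) (nat_lit 29)) (T.n (T.l (nat_lit 57) (nat_lit 5)) (T.l (nat_lit 57) (nat_lit 8))))) (T.n (T.n (T.l (nat_lit 57) (nat_lit 27)) (T.n (T.l (nat_lit 57) (nat_lit 52)) (T.l (nat_lit 58) (nat_lit 10)))) (T.n (T.l (nat_lit 58) (nat_lit 39)) (T.n (T.l (nat_lit 59) (nat_lit 11)) (T.l (nat_lit 59) (nat_lit 41))))))))
def T88_2 : T := T.n (T.n (T.n (T.n (T.n (T.l (nat_lit 3) (nat_lit 35)) (T.n (T.l (nat_lit 3) (nat_lit 45)) (T.l (nat_lit 5) (nat_lit 30)))) (T.n (T.l (nat_lit 5) (nat_lit 59)) (T.n (T.l (nat_lit 6) (nat_lit 33)) (T.l (nat_lit 6) (nat_lit 47))))) (T.n (T.n (T.l (nat_lit 8) (nat_lit 42)) (T.n (T.l (nat_lit 8) (nat_lit 56)) (T.l (nat_lit 10) (nat_lit 43)))) (T.n (T.l (nat_lit 10) (nat_lit 55)) (T.n (T.l (nat_lit 11) (nat_lit 31)) (T.l (nat_lit 11) (nat_lit 58)))))) (T.n (T.n (T.n (T.l (nat_lit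 27) (nat_lit 56)) (T.n (T.l (nat_lit 27) (nat_lit 58)) (T.l (nat_lit 29) (nat_lit 43)))) (T.n (T.l (nat_lit 29) (nat_lit 47)) (T.n (T.l (nat_lit 30) (nat_lit 5)) (T.l (nat_lit 30) (nat_lit 52))))) (T.n (T.n (T.l (nat_lit 31) (nat_lit 11)) (T.n (T.l (nat_lit 31) (nat_lit 41)) (T.l (nat_lit 33) (nat_lit 6)))) (T.n (T.l (nat_lit 33) (nat_lit 52)) (T.n (T.l (nat_lit 35) (nat_lit 3)) (T.l (nat_lit 35) (nat_lit 41))))))) (T.n (T.n (T.n (T.n (T.l (nat_lit 39) (nat_lit 55)) (T.n (T.l (nat_lit 39) (nat_lit 59)) (T.l (nat_lit 41) (nat_lit 31)))) (T.n (T.l (nat_lit 41) (nat_lit 35)) (T.n (T.l (nat_lit 42) (nat_lit 8)) (T.l (nat_lit 42) (nat_lit 53))))) (T.n (T.n (T.l (nat_lit 43) (nat_lit 10)) (T.n (T.l (nat_lit 43) (nat_lit 29)) (T.l (nat_lit 45) (nat_lit 3)))) (T.n (T.l (nat_lit 45) (nat_lit 53)) (T.n (T.l (nat_lit 47) (nat_lit 6)) (T.l (nat_lit 47) (nat_lit 29)))))) (T.n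 (T.n (T.n (T.l (nat_lit 52) (nat_lit 30)) (T.n (T.l (nat_lit 52) (nat_lit 33)) (T.l (nat_lit 53) (nat_lit 42)))) (T.n (T.l (nat_lit 53) (nat_lit 45)) (T.n (T.l (nat_lit 55) (nat_lit 10)) (T.l (nat_lit 55) (nat_lit 39))))) (T.n (T.n (T.l (nat_lit 56) (nat_lit 8)) (T.n (T.l (nat_lit 56) (nat_lit 27)) (T.l (nat_lit 58) (nat_lit 11)))) (T.n (T.l (nat_lit 58) (nat_lit 27)) (T.n (T.l (nat_lit 59) (nat_lit 5)) (T.l (nat_lit 59) (nat_lit 39)))))))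
def T89_2 : T := T.n (T.n (T.n (T.n (T.n (T.n (T.l (nat_lit 4) (nat_lit 12)) (T.l (nat_lit 4) (nat_lit 14))) (T.n (T.l (nat_lit 4) (nat_lit 42)) (T.l (nat_lit 4) (nat_lit 45)))) (T.n (T.n (T.l (nat_lit 4) (nat_lit 55)) (T.l (nat_lit 4) (nat_lit 59))) (T.n (T.l (nat_lit 7) (nat_lit 13)) (T.n (T.l (nat_lit 7) (nat_lit 14)) (T.l (nat_lit 7) (nat_lit 30)))))) (T.n (T.n (T.n (T.l (nat_lit 7) (nat_lit 33)) (T.l (nat_lit 7) (nat_lit 56))) (T.n (T.l (nat_lit 7) (nat_lit 58)) (T.l (nat_lit 9) (nat_lit 12)))) (T.n (T.n (T.l (nat_lit 9) (nat_lit 13)) (T.l (nat_lit 9) (nat_lit 31))) (T.n (T.l (nat_lit 9) (nat_lit 35)) (T.n (T.l (nat_lit 9) (nat_lit 43)) (T.l (nat_lit 9) (nat_lit 47))))))) (T.n (T.n (T.n (T.n (T.l (nat_lit 12) (nat_lit 4)) (T.l (nat_lit 12) (nat_lit 9))) (T.n (T.l (nat_lit 12) (nat_lit 28)) (T.l (nat_lit 12) (nat_lit 51)))) (T.n (T.n (T.l (nat_lit 13) (nat_lit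 7)) (T.l (nat_lit 13) (nat_lit 9))) (T.n (T.l (nat_lit 13) (nat_lit 40)) (T.n (T.l (nat_lit 13) (nat_lit 51)) (T.l (nat_lit 14) (nat_lit 4)))))) (T.n (T.n (T.n (T.l (nat_lit 14) (nat_lit 7)) (T.l (nat_lit 14) (nat_lit 28))) (T.n (T.l (nat_lit 14) (nat_lit 40)) (T.l (nat_lit 28) (nat_lit 12)))) (T.n (T.n (T.l (nat_lit 28) (nat_lit 14)) (T.l (nat_lit 28) (nat_lit 31))) (T.n (T.l (nat_lit 28) (nat_lit 33)) (T.n (T.l (nat_lit 28) (nat_lit 47)) (T.l (nat_lit 28) (nat_lit 58)))))))) (T.n (T.n (T.n (T.n (T.n (T.l (nat_lit 30) (nat_lit 7)) (T.l (nat_lit 30) (nat_lit 51))) (T.n (T.l (nat_lit 31) (nat_lit 9)) (T.l (nat_lit 31) (nat_lit 28)))) (T.n (T.n (T.l (nat_lit 33) (nat_lit 7)) (T.l (nat_lit 33) (nat_lit 28))) (T.n (T.l (nat_lit 35) (nat_lit 9)) (T.n (T.l (nat_lit 35) (nat_lit 40)) (T.l (nat_lit 40) (nat_lit 13)))))) (T.n (T.n (T.n (T.l (nat_lit 40) (nat_lit 14)) (T.l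 (nat_lit 40) (nat_lit 35))) (T.n (T.l (nat_lit 40) (nat_lit 43)) (T.l (nat_lit 40) (nat_lit 45)))) (T.n (T.n (T.l (nat_lit 40) (nat_lit 55)) (T.l (nat_lit 42) (nat_lit 4))) (T.n (T.l (nat_lit 42) (nat_lit 51)) (T.n (T.l (nat_lit 43) (nat_lit 9)) (T.l (nat_lit 43) (nat_lit 40))))))) (T.n (T.n (T.n (T.n (T.l (nat_lit 45) (nat_lit 4)) (T.l (nat_lit 45) (nat_lit 40))) (T.n (T.l (nat_lit 47) (nat_lit 9)) (T.l (nat_lit 47) (nat_lit 28)))) (T.n (T.n (T.l (nat_lit 51) (nat_lit 12)) (T.l (nat_lit 51) (nat_lit 13))) (T.n (T.l (nat_lit 51) (nat_lit 30)) (T.n (T.l (nat_lit 51) (nat_lit 42)) (T.l (nat_lit 51) (nat_lit 56)))))) (T.n (T.n (T.n (T.l (nat_lit 51) (nat_lit 59)) (T.l (nat_lit 55) (nat_lit 4))) (T.n (T.l (nat_lit 55) (nat_lit 40)) (T.l (nat_lit 56) (nat_lit 7)))) (T.n (T.n (T.l (nat_lit 56) (nat_lit 51)) (T.l (nat_lit 58) (nat_lit 7))) (T.n (T.l (nat_lit 58) (nat_lit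 28)) (T.n (T.l (nat_lit 59) (nat_lit 4)) (T.l (nat_lit 59) (nat_lit 51))))))))
def T90_2 : T := T.n (T.n (T.n (T.n (T.n (T.n (T.l (nat_lit 4) (nat_lit 18)) (T.n (T.l (nat_lit 4) (nat_lit 22)) (T.l (nat_lit 4) (nat_lit 36)))) (T.n (T.l (nat_lit 4) (nat_lit 44)) (T.n (T.l (nat_lit 4) (nat_lit 49)) (T.l (nat_lit 4) (nat_lit 54))))) (T.n (T.n (T.l (nat_lit 7) (nat_lit 15)) (T.n (T.l (nat_lit 7) (nat_lit 23)) (T.l (nat_lit 7) (nat_lit 24)))) (T.n (T.l (nat_lit 7) (nat_lit 32)) (T.n (T.l (nat_lit 7) (nat_lit 50)) (T.l (nat_lit 7) (nat_lit 57)))))) (T.n (T.n (T.n (T.l (nat_lit 9) (nat_lit 16)) (T.n (T.l (nat_lit 9) (nat_lit 19)) (T.l (nat_lit 9) (nat_lit 25)))) (T.n (T.l (nat_lit 9) (nat_lit 34)) (T.n (T.l (nat_lit 9) (nat_lit 37)) (T.l (nat_lit 9) (nat_lit 46))))) (T.n (T.n (T.l (nat_lit 15) (nat_lit 7)) (T.n (T.l (nat_lit 15) (nat_lit 19)) (T.l (nat_lit 15) (nat_lit 22))))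 (T.n (T.l (nat_lit 15) (nat_lit 40)) (T.n (T.l (nat_lit 16) (nat_lit 9)) (T.l (nat_lit 16) (nat_lit 18))))))) (T.n (T.n (T.n (T.n (T.l (nat_lit 16) (nat_lit 23)) (T.n (T.l (nat_lit 16) (nat_lit 51)) (T.l (nat_lit 18) (nat_lit 4)))) (T.n (T.l (nat_lit 18) (nat_lit 16)) (T.n (T.l (nat_lit 18) (nat_lit 23)) (T.l (nat_lit 18) (nat_lit 28))))) (T.n (T.n (T.l (nat_lit 19) (nat_lit 9)) (T.n (T.l (nat_lit 19) (nat_lit 15)) (T.l (nat_lit 19) (nat_lit 22)))) (T.n (T.l (nat_lit 19) (nat_lit 51)) (T.n (T.l (nat_lit 22) (nat_lit 4)) (T.l (nat_lit 22) (nat_lit 15)))))) (T.n (T.n (T.n (T.l (nat_lit 22) (nat_lit 19)) (T.n (T.l (nat_lit 22) (nat_lit 28)) (T.l (nat_lit 23) (nat_lit 7)))) (T.n (T.l (nat_lit 23) (nat_lit 16)) (T.n (T.l (nat_lit 23) (nat_lit 18)) (T.l (nat_lit 23) (nat_lit 40))))) (T.n (T.n (T.l (nat_lit 24) (nat_lit 7)) (T.n (T.l (nat_lit 24) (nat_lit 37)) (T.l (nat_lit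 24) (nat_lit 40)))) (T.n (T.l (nat_lit 24) (nat_lit 49)) (T.n (T.l (nat_lit 25) (nat_lit 9)) (T.l (nat_lit 25) (nat_lit 36)))))))) (T.n (T.n (T.n (T.n (T.n (T.l (nat_lit 25) (nat_lit 50)) (T.n (T.l (nat_lit 25) (nat_lit 51)) (T.l (nat_lit 28) (nat_lit 18)))) (T.n (T.l (nat_lit 28) (nat_lit 22)) (T.n (T.l (nat_lit 28) (nat_lit 32)) (T.l (nat_lit 28) (nat_lit 34))))) (T.n (T.n (T.l (nat_lit 28) (nat_lit 36)) (T.n (T.l (nat_lit 28) (nat_lit 49)) (T.l (nat_lit 32) (nat_lit 7)))) (T.n (T.l (nat_lit 32) (nat_lit 28)) (T.n (T.l (nat_lit 34) (nat_lit 9)) (T.l (nat_lit 34) (nat_lit 28)))))) (T.n (T.n (T.n (T.l (nat_lit 36) (nat_lit 4)) (T.n (T.l (nat_lit 36) (nat_lit 25)) (T.l (nat_lit 36) (nat_lit 28)))) (T.n (T.l (nat_lit 36) (nat_lit 50)) (T.n (T.l (nat_lit 37) (nat_lit 9)) (T.l (nat_lit 37) (nat_lit 24))))) (T.n (T.n (T.l (nat_lit 37) (nat_lit 49)) (T.n (T.l (nat_lit 37)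 (nat_lit 51)) (T.l (nat_lit 40) (nat_lit 15)))) (T.n (T.l (nat_lit 40) (nat_lit 23)) (T.n (T.l (nat_lit 40) (nat_lit 24)) (T.l (nat_lit 40) (nat_lit 44))))))) (T.n (T.n (T.n (T.n (T.l (nat_lit 40) (nat_lit 46)) (T.n (T.l (nat_lit 40) (nat_lit 50)) (T.l (nat_lit 44) (nat_lit 4)))) (T.n (T.l (nat_lit 44) (nat_lit 40)) (T.n (T.l (nat_lit 46) (nat_lit 9)) (T.l (nat_lit 46) (nat_lit 40))))) (T.n (T.n (T.l (nat_lit 49) (nat_lit 4)) (T.n (T.l (nat_lit 49) (nat_lit 24)) (T.l (nat_lit 49) (nat_lit 28)))) (T.n (T.l (nat_lit 49) (nat_lit 37)) (T.n (T.l (nat_lit 50) (nat_lit 7)) (T.l (nat_lit 50) (nat_lit 25)))))) (T.n (T.n (T.n (T.l (nat_lit 50) (nat_lit 36)) (T.n (T.l (nat_lit 50) (nat_lit 40)) (T.l (nat_lit 51) (nat_lit 16)))) (T.n (T.l (nat_lit 51) (nat_lit 19)) (T.n (T.l (nat_lit 51) (nat_lit 25)) (T.l (nat_lit 51) (nat_lit 37))))) (T.n (T.n (T.l (nat_lit 51) (nat_lit 54))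 (T.n (T.l (nat_lit 51) (nat_lit 57)) (T.l (nat_lit 54) (nat_lit 4)))) (T.n (T.l (nat_lit 54) (nat_lit 51)) (T.n (T.l (nat_lit 57) (nat_lit 7)) (T.l (nat_lit 57) (nat_lit 51))))))))
def T91_2 : T := T.n (T.n (T.n (T.n (T.n (T.n (T.l (nat_lit 4) (nat_lit 20)) (T.l (nat_lit 4) (nat_lit 21))) (T.n (T.l (nat_lit 4) (nat_lit 38)) (T.l (nat_lit 4) (nat_lit 46)))) (T.n (T.n (T.l (nat_lit 4) (nat_lit 48)) (T.l (nat_lit 4) (nat_lit 57))) (T.n (T.l (nat_lit 7) (nat_lit 17)) (T.n (T.l (nat_lit 7) (nat_lit 21)) (T.l (nat_lit 7) (nat_lit 26)))))) (T.n (T.n (T.n (T.l (nat_lit 7) (nat_lit 34)) (T.l (nat_lit 7) (nat_lit 48))) (T.n (T.l (nat_lit 7) (nat_lit 54)) (T.l (nat_lit 9) (nat_lit 17)))) (T.n (T.n (T.l (nat_lit 9) (nat_lit 20)) (T.l (nat_lit 9) (nat_lit 26))) (T.n (T.l (nat_lit 9) (nat_lit 32)) (T.n (T.l (nat_lit 9) (nat_lit 38)) (T.l (nat_lit 9) (nat_lit 44))))))) (T.n (T.n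 (T.n (T.n (T.l (nat_lit 17) (nat_lit 7)) (T.l (nat_lit 17) (nat_lit 9))) (T.n (T.l (nat_lit 17) (nat_lit 40)) (T.l (nat_lit 17) (nat_lit 51)))) (T.n (T.n (T.l (nat_lit 20) (nat_lit 4)) (T.l (nat_lit 20) (nat_lit 9))) (T.n (T.l (nat_lit 20) (nat_lit 28)) (T.n (T.l (nat_lit 20) (nat_lit 51)) (T.l (nat_lit 21) (nat_lit 4)))))) (T.n (T.n (T.n (T.l (nat_lit 21) (nat_lit 7)) (T.l (nat_lit 21) (nat_lit 28))) (T.n (T.l (nat_lit 21) (nat_lit 40)) (T.l (nat_lit 26) (nat_lit 7)))) (T.n (T.n (T.l (nat_lit 26) (nat_lit 9)) (T.l (nat_lit 26) (nat_lit 40))) (T.n (T.l (nat_lit 26) (nat_lit 51)) (T.n (T.l (nat_lit 28) (nat_lit 20)) (T.l (nat_lit 28) (nat_lit 21)))))))) (T.n (T.n (T.n (T.n (T.n (T.l (nat_lit 28) (nat_lit 38)) (T.l (nat_lit 28) (nat_lit 46))) (T.n (T.l (nat_lit 28) (nat_lit 48)) (T.l (nat_lit 28) (nat_lit 57)))) (T.n (T.n (T.l (nat_lit 32) (nat_lit 9)) (T.l (nat_lit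 32) (nat_lit 51))) (T.n (T.l (nat_lit 34) (nat_lit 7)) (T.n (T.l (nat_lit 34) (nat_lit 40)) (T.l (nat_lit 38) (nat_lit 4)))))) (T.n (T.n (T.n (T.l (nat_lit 38) (nat_lit 9)) (T.l (nat_lit 38) (nat_lit 28))) (T.n (T.l (nat_lit 38) (nat_lit 51)) (T.l (nat_lit 40) (nat_lit 17)))) (T.n (T.n (T.l (nat_lit 40) (nat_lit 21)) (T.l (nat_lit 40) (nat_lit 26))) (T.n (T.l (nat_lit 40) (nat_lit 34)) (T.n (T.l (nat_lit 40) (nat_lit 48)) (T.l (nat_lit 40) (nat_lit 54))))))) (T.n (T.n (T.n (T.n (T.l (nat_lit 44) (nat_lit 9)) (T.l (nat_lit 44) (nat_lit 51))) (T.n (T.l (nat_lit 46) (nat_lit 4)) (T.l (nat_lit 46) (nat_lit 28)))) (T.n (T.n (T.l (nat_lit 48) (nat_lit 4)) (T.l (nat_lit 48) (nat_lit 7))) (T.n (T.l (nat_lit 48) (nat_lit 28)) (T.n (T.l (nat_lit 48) (nat_lit 40)) (T.l (nat_lit 51) (nat_lit 17)))))) (T.n (T.n (T.n (T.l (nat_lit 51) (nat_lit 20)) (T.l (nat_lit 51) (nat_lit 26)))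 (T.n (T.l (nat_lit 51) (nat_lit 32)) (T.l (nat_lit 51) (nat_lit 38)))) (T.n (T.n (T.l (nat_lit 51) (nat_lit 44)) (T.l (nat_lit 54) (nat_lit 7))) (T.n (T.l (nat_lit 54) (nat_lit 40)) (T.n (T.l (nat_lit 57) (nat_lit 4)) (T.l (nat_lit 57) (nat_lit 28))))))))
def T92_2 : T := T.n (T.n (T.n (T.n (T.n (T.l (nat_lit 12) (nat_lit 17)) (T.n (T.l (nat_lit 12) (nat_lit 21)) (T.l (nat_lit 12) (nat_lit 26)))) (T.n (T.l (nat_lit 12) (nat_lit 48)) (T.n (T.l (nat_lit 13) (nat_lit 20)) (T.l (nat_lit 13) (nat_lit 21))))) (T.n (T.n (T.l (nat_lit 13) (nat_lit 38)) (T.n (T.l (nat_lit 13) (nat_lit 48)) (T.l (nat_lit 14) (nat_lit 17)))) (T.n (T.l (nat_lit 14) (nat_lit 20)) (T.n (T.l (nat_lit 14) (nat_lit 26)) (T.l (nat_lit 14) (nat_lit 38)))))) (T.n (T.n (T.n (T.l (nat_lit 17) (nat_lit 12)) (T.n (T.l (nat_lit 17) (nat_lit 14)) (T.l (nat_lit 20) (nat_lit 13)))) (T.n (T.l (nat_lit 20) (nat_lit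 14)) (T.n (T.l (nat_lit 21) (nat_lit 12)) (T.l (nat_lit 21) (nat_lit 13))))) (T.n (T.n (T.l (nat_lit 26) (nat_lit 12)) (T.n (T.l (nat_lit 26) (nat_lit 14)) (T.l (nat_lit 30) (nat_lit 33)))) (T.n (T.l (nat_lit 30) (nat_lit 59)) (T.n (T.l (nat_lit 31) (nat_lit 35)) (T.l (nat_lit 31) (nat_lit 58))))))) (T.n (T.n (T.n (T.n (T.l (nat_lit 33) (nat_lit 30)) (T.n (T.l (nat_lit 33) (nat_lit 47)) (T.l (nat_lit 35) (nat_lit 31)))) (T.n (T.l (nat_lit 35) (nat_lit 45)) (T.n (T.l (nat_lit 38) (nat_lit 13)) (T.l (nat_lit 38) (nat_lit 14))))) (T.n (T.n (T.l (nat_lit 42) (nat_lit 45)) (T.n (T.l (nat_lit 42) (nat_lit 56)) (T.l (nat_lit 43) (nat_lit 47)))) (T.n (T.l (nat_lit 43) (nat_lit 55)) (T.n (T.l (nat_lit 45) (nat_lit 35)) (T.l (nat_lit 45) (nat_lit 42)))))) (T.n (T.n (T.n (T.l (nat_lit 47) (nat_lit 33)) (T.n (T.l (nat_lit 47) (nat_lit 43)) (T.l (nat_lit 48) (nat_lit 12)))) (T.n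 (T.l (nat_lit 48) (nat_lit 13)) (T.n (T.l (nat_lit 55) (nat_lit 43)) (T.l (nat_lit 55) (nat_lit 59))))) (T.n (T.n (T.l (nat_lit 56) (nat_lit 42)) (T.n (T.l (nat_lit 56) (nat_lit 58)) (T.l (nat_lit 58) (nat_lit 31)))) (T.n (T.l (nat_lit 58) (nat_lit 56)) (T.n (T.l (nat_lit 59) (nat_lit 30)) (T.l (nat_lit 59) (nat_lit 55)))))))
def T93_2 : T := T.n (T.n (T.n (T.n (T.n (T.l (nat_lit 12) (nat_lit 30)) (T.n (T.l (nat_lit 12) (nat_lit 33)) (T.l (nat_lit 12) (nat_lit 35)))) (T.n (T.l (nat_lit 12) (nat_lit 43)) (T.n (T.l (nat_lit 12) (nat_lit 45)) (T.l (nat_lit 12) (nat_lit 55))))) (T.n (T.n (T.l (nat_lit 12) (nat_lit 56)) (T.n (T.l (nat_lit 12) (nat_lit 58)) (T.l (nat_lit 13) (nat_lit 31)))) (T.n (T.l (nat_lit 13) (nat_lit 33)) (T.n (T.l (nat_lit 13) (nat_lit 42)) (T.l (nat_lit 13) (nat_lit 45)))))) (T.n (T.n (T.n (T.l (nat_lit 13) (nat_lit 47)) (T.n (T.l (nat_lit 13) (nat_lit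 55)) (T.l (nat_lit 13) (nat_lit 58)))) (T.n (T.l (nat_lit 13) (nat_lit 59)) (T.n (T.l (nat_lit 14) (nat_lit 30)) (T.l (nat_lit 14) (nat_lit 31))))) (T.n (T.n (T.l (nat_lit 14) (nat_lit 35)) (T.n (T.l (nat_lit 14) (nat_lit 42)) (T.l (nat_lit 14) (nat_lit 43)))) (T.n (T.l (nat_lit 14) (nat_lit 47)) (T.n (T.l (nat_lit 14) (nat_lit 56)) (T.l (nat_lit 14) (nat_lit 59))))))) (T.n (T.n (T.n (T.n (T.l (nat_lit 30) (nat_lit 12)) (T.n (T.l (nat_lit 30) (nat_lit 14)) (T.l (nat_lit 31) (nat_lit 13)))) (T.n (T.l (nat_lit 31) (nat_lit 14)) (T.n (T.l (nat_lit 33) (nat_lit 12)) (T.l (nat_lit 33) (nat_lit 13))))) (T.n (T.n (T.l (nat_lit 35) (nat_lit 12)) (T.n (T.l (nat_lit 35) (nat_lit 14)) (T.l (nat_lit 42) (nat_lit 13)))) (T.n (T.l (nat_lit 42) (nat_lit 14)) (T.n (T.l (nat_lit 43) (nat_lit 12)) (T.l (nat_lit 43) (nat_lit 14)))))) (T.n (T.n (T.n (T.l (nat_lit 45) (nat_lit 12)) (T.n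 (T.l (nat_lit 45) (nat_lit 13)) (T.l (nat_lit 47) (nat_lit 13)))) (T.n (T.l (nat_lit 47) (nat_lit 14)) (T.n (T.l (nat_lit 55) (nat_lit 12)) (T.l (nat_lit 55) (nat_lit 13))))) (T.n (T.n (T.l (nat_lit 56) (nat_lit 12)) (T.n (T.l (nat_lit 56) (nat_lit 14)) (T.l (nat_lit 58) (nat_lit 12)))) (T.n (T.l (nat_lit 58) (nat_lit 13)) (T.n (T.l (nat_lit 59) (nat_lit 13)) (T.l (nat_lit 59) (nat_lit 14)))))))
def T94_2 : T := T.n (T.n (T.n (T.n (T.l (nat_lit 12) (nat_lit 31)) (T.n (T.l (nat_lit 12) (nat_lit 42)) (T.l (nat_lit 12) (nat_lit 47)))) (T.n (T.l (nat_lit 12) (nat_lit 59)) (T.n (T.l (nat_lit 13) (nat_lit 30)) (T.l (nat_lit 13) (nat_lit 35))))) (T.n (T.n (T.l (nat_lit 13) (nat_lit 43)) (T.n (T.l (nat_lit 13) (nat_lit 56)) (T.l (nat_lit 14) (nat_lit 33)))) (T.n (T.l (nat_lit 14) (nat_lit 45)) (T.n (T.l (nat_lit 14) (nat_lit 55)) (T.l (nat_lit 14) (nat_lit 58)))))) (T.n (T.n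 (T.n (T.l (nat_lit 30) (nat_lit 13)) (T.n (T.l (nat_lit 31) (nat_lit 12)) (T.l (nat_lit 33) (nat_lit 14)))) (T.n (T.l (nat_lit 35) (nat_lit 13)) (T.n (T.l (nat_lit 42) (nat_lit 12)) (T.l (nat_lit 43) (nat_lit 13))))) (T.n (T.n (T.l (nat_lit 45) (nat_lit 14)) (T.n (T.l (nat_lit 47) (nat_lit 12)) (T.l (nat_lit 55) (nat_lit 14)))) (T.n (T.l (nat_lit 56) (nat_lit 13)) (T.n (T.l (nat_lit 58) (nat_lit 14)) (T.l (nat_lit 59) (nat_lit 12))))))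
def T95_2 : T := T.n (T.n (T.n (T.n (T.l (nat_lit 12) (nat_lit 32)) (T.n (T.l (nat_lit 12) (nat_lit 44)) (T.l (nat_lit 12) (nat_lit 46)))) (T.n (T.l (nat_lit 12) (nat_lit 57)) (T.n (T.l (nat_lit 13) (nat_lit 32)) (T.l (nat_lit 13) (nat_lit 34))))) (T.n (T.n (T.l (nat_lit 13) (nat_lit 44)) (T.n (T.l (nat_lit 13) (nat_lit 54)) (T.l (nat_lit 14) (nat_lit 34)))) (T.n (T.l (nat_lit 14) (nat_lit 46)) (T.n (T.l (nat_lit 14) (nat_lit 54)) (T.l (nat_lit 14) (nat_lit 57)))))) (T.n (T.n (T.n (T.l (nat_lit 32) (nat_lit 12)) (T.n (T.l (nat_lit 32) (nat_lit 13)) (T.l (nat_lit 34) (nat_lit 13)))) (T.n (T.l (nat_lit 34) (nat_lit 14)) (T.n (T.l (nat_lit 44) (nat_lit 12)) (T.l (nat_lit 44) (nat_lit 13))))) (T.n (T.n (T.l (nat_lit 46) (nat_lit 12)) (T.n (T.l (nat_lit 46) (nat_lit 14)) (T.l (nat_lit 54) (nat_lit 13)))) (T.n (T.l (nat_lit 54) (nat_lit 14)) (T.n (T.l (nat_lit 57) (nat_lit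 12)) (T.l (nat_lit 57) (nat_lit 14))))))
def T96_2 : T := T.n (T.n (T.n (T.n (T.n (T.l (nat_lit 15) (nat_lit 20)) (T.n (T.l (nat_lit 15) (nat_lit 31)) (T.l (nat_lit 16) (nat_lit 21)))) (T.n (T.l (nat_lit 16) (nat_lit 33)) (T.n (T.l (nat_lit 17) (nat_lit 18)) (T.l (nat_lit 17) (nat_lit 22))))) (T.n (T.n (T.l (nat_lit 18) (nat_lit 17)) (T.n (T.l (nat_lit 18) (nat_lit 43)) (T.l (nat_lit 19) (nat_lit 21)))) (T.n (T.l (nat_lit 19) (nat_lit 45)) (T.n (T.l (nat_lit 20) (nat_lit 15)) (T.l (nat_lit 20) (nat_lit 23)))))) (T.n (T.n (T.n (T.l (nat_lit 21) (nat_lit 16)) (T.n (T.l (nat_lit 21) (nat_lit 19)) (T.l (nat_lit 22) (nat_lit 17)))) (T.n (T.l (nat_lit 22) (nat_lit 56)) (T.n (T.l (nat_lit 23) (nat_lit 20)) (T.l (nat_lit 23) (nat_lit 59))))) (T.n (T.n (T.l (nat_lit 24) (nat_lit 38)) (T.n (T.l (nat_lit 24) (nat_lit 42)) (T.l (nat_lit 25) (nat_lit 48)))) (T.n (T.l (nat_lit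 25) (nat_lit 55)) (T.n (T.l (nat_lit 26) (nat_lit 36)) (T.l (nat_lit 26) (nat_lit 49))))))) (T.n (T.n (T.n (T.n (T.l (nat_lit 30) (nat_lit 36)) (T.n (T.l (nat_lit 31) (nat_lit 15)) (T.l (nat_lit 33) (nat_lit 16)))) (T.n (T.l (nat_lit 35) (nat_lit 49)) (T.n (T.l (nat_lit 36) (nat_lit 26)) (T.l (nat_lit 36) (nat_lit 30))))) (T.n (T.n (T.l (nat_lit 37) (nat_lit 48)) (T.n (T.l (nat_lit 37) (nat_lit 58)) (T.l (nat_lit 38) (nat_lit 24)))) (T.n (T.l (nat_lit 38) (nat_lit 50)) (T.n (T.l (nat_lit 42) (nat_lit 24)) (T.l (nat_lit 43) (nat_lit 18)))))) (T.n (T.n (T.n (T.l (nat_lit 45) (nat_lit 19)) (T.n (T.l (nat_lit 47) (nat_lit 50)) (T.l (nat_lit 48) (nat_lit 25)))) (T.n (T.l (nat_lit 48) (nat_lit 37)) (T.n (T.l (nat_lit 49) (nat_lit 26)) (T.l (nat_lit 49) (nat_lit 35))))) (T.n (T.n (T.l (nat_lit 50) (nat_lit 38)) (T.n (T.l (nat_lit 50) (nat_lit 47)) (T.l (nat_lit 55) (nat_lit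 25)))) (T.n (T.l (nat_lit 56) (nat_lit 22)) (T.n (T.l (nat_lit 58) (nat_lit 37)) (T.l (nat_lit 59) (nat_lit 23)))))))
def T97_2 : T := T.n (T.n (T.n (T.n (T.n (T.l (nat_lit 15) (nat_lit 26)) (T.n (T.l (nat_lit 15) (nat_lit 48)) (T.l (nat_lit 16) (nat_lit 26)))) (T.n (T.l (nat_lit 16) (nat_lit 38)) (T.n (T.l (nat_lit 17) (nat_lit 24)) (T.l (nat_lit 17) (nat_lit 25))))) (T.n (T.n (T.l (nat_lit 17) (nat_lit 37)) (T.n (T.l (nat_lit 17) (nat_lit 50)) (T.l (nat_lit 18) (nat_lit 38)))) (T.n (T.l (nat_lit 18) (nat_lit 48)) (T.n (T.l (nat_lit 19) (nat_lit 26)) (T.l (nat_lit 19) (nat_lit 38)))))) (T.n (T.n (T.n (T.l (nat_lit 20) (nat_lit 25)) (T.n (T.l (nat_lit 20) (nat_lit 36)) (T.l (nat_lit 20) (nat_lit 37)))) (T.n (T.l (nat_lit 20) (nat_lit 49)) (T.n (T.l (nat_lit 21) (nat_lit 24)) (T.l (nat_lit 21) (nat_lit 36))))) (T.n (T.n (T.l (nat_lit 21) (nat_lit 49)) (T.n (T.l (nat_lit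 21) (nat_lit 50)) (T.l (nat_lit 22) (nat_lit 38)))) (T.n (T.l (nat_lit 22) (nat_lit 48)) (T.n (T.l (nat_lit 23) (nat_lit 26)) (T.l (nat_lit 23) (nat_lit 48))))))) (T.n (T.n (T.n (T.n (T.l (nat_lit 24) (nat_lit 17)) (T.n (T.l (nat_lit 24) (nat_lit 21)) (T.l (nat_lit 25) (nat_lit 17)))) (T.n (T.l (nat_lit 25) (nat_lit 20)) (T.n (T.l (nat_lit 26) (nat_lit 15)) (T.l (nat_lit 26) (nat_lit 16))))) (T.n (T.n (T.l (nat_lit 26) (nat_lit 19)) (T.n (T.l (nat_lit 26) (nat_lit 23)) (T.l (nat_lit 36) (nat_lit 20)))) (T.n (T.l (nat_lit 36) (nat_lit 21)) (T.n (T.l (nat_lit 37) (nat_lit 17)) (T.l (nat_lit 37) (nat_lit 20)))))) (T.n (T.n (T.n (T.l (nat_lit 38) (nat_lit 16)) (T.n (T.l (nat_lit 38) (nat_lit 18)) (T.l (nat_lit 38) (nat_lit 19)))) (T.n (T.l (nat_lit 38) (nat_lit 22)) (T.n (T.l (nat_lit 48) (nat_lit 15)) (T.l (nat_lit 48) (nat_lit 18))))) (T.n (T.n (T.l (nat_lit 48) (nat_lit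 22)) (T.n (T.l (nat_lit 48) (nat_lit 23)) (T.l (nat_lit 49) (nat_lit 20)))) (T.n (T.l (nat_lit 49) (nat_lit 21)) (T.n (T.l (nat_lit 50) (nat_lit 17)) (T.l (nat_lit 50) (nat_lit 21)))))))
def T98_2 : T := T.n (T.n (T.n (T.n (T.n (T.l (nat_lit 15) (nat_lit 32)) (T.n (T.l (nat_lit 15) (nat_lit 46)) (T.l (nat_lit 16) (nat_lit 34)))) (T.n (T.l (nat_lit 16) (nat_lit 57)) (T.n (T.l (nat_lit 18) (nat_lit 34)) (T.l (nat_lit 18) (nat_lit 44))))) (T.n (T.n (T.l (nat_lit 19) (nat_lit 46)) (T.n (T.l (nat_lit 19) (nat_lit 54)) (T.l (nat_lit 22) (nat_lit 32)))) (T.n (T.l (nat_lit 22) (nat_lit 54)) (T.n (T.l (nat_lit 23) (nat_lit 44)) (T.l (nat_lit 23) (nat_lit 57)))))) (T.n (T.n (T.n (T.l (nat_lit 24) (nat_lit 44)) (T.n (T.l (nat_lit 24) (nat_lit 57)) (T.l (nat_lit 25) (nat_lit 46)))) (T.n (T.l (nat_lit 25) (nat_lit 54)) (T.n (T.l (nat_lit 32) (nat_lit 15)) (T.l (nat_lit 32) (nat_lit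 22))))) (T.n (T.n (T.l (nat_lit 32) (nat_lit 36)) (T.n (T.l (nat_lit 32) (nat_lit 50)) (T.l (nat_lit 34) (nat_lit 16)))) (T.n (T.l (nat_lit 34) (nat_lit 18)) (T.n (T.l (nat_lit 34) (nat_lit 37)) (T.l (nat_lit 34) (nat_lit 49))))))) (T.n (T.n (T.n (T.n (T.l (nat_lit 36) (nat_lit 32)) (T.n (T.l (nat_lit 36) (nat_lit 54)) (T.l (nat_lit 37) (nat_lit 34)))) (T.n (T.l (nat_lit 37) (nat_lit 57)) (T.n (T.l (nat_lit 44) (nat_lit 18)) (T.l (nat_lit 44) (nat_lit 23))))) (T.n (T.n (T.l (nat_lit 44) (nat_lit 24)) (T.n (T.l (nat_lit 44) (nat_lit 49)) (T.l (nat_lit 46) (nat_lit 15)))) (T.n (T.l (nat_lit 46) (nat_lit 19)) (T.n (T.l (nat_lit 46) (nat_lit 25)) (T.l (nat_lit 46) (nat_lit 50)))))) (T.n (T.n (T.n (T.l (nat_lit 49) (nat_lit 34)) (T.n (T.l (nat_lit 49) (nat_lit 44)) (T.l (nat_lit 50) (nat_lit 32)))) (T.n (T.l (nat_lit 50) (nat_lit 46)) (T.n (T.l (nat_lit 54) (nat_lit 19))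 (T.l (nat_lit 54) (nat_lit 22))))) (T.n (T.n (T.l (nat_lit 54) (nat_lit 25)) (T.n (T.l (nat_lit 54) (nat_lit 36)) (T.l (nat_lit 57) (nat_lit 16)))) (T.n (T.l (nat_lit 57) (nat_lit 23)) (T.n (T.l (nat_lit 57) (nat_lit 24)) (T.l (nat_lit 57) (nat_lit 37)))))))
def T99_2 : T := T.n (T.n (T.n (T.n (T.n (T.l (nat_lit 15) (nat_lit 34)) (T.n (T.l (nat_lit 15) (nat_lit 38)) (T.l (nat_lit 16) (nat_lit 32)))) (T.n (T.l (nat_lit 16) (nat_lit 48)) (T.n (T.l (nat_lit 17) (nat_lit 36)) (T.l (nat_lit 17) (nat_lit 49))))) (T.n (T.n (T.l (nat_lit 18) (nat_lit 26)) (T.n (T.l (nat_lit 18) (nat_lit 46)) (T.l (nat_lit 19) (nat_lit 44)))) (T.n (T.l (nat_lit 19) (nat_lit 48)) (T.n (T.l (nat_lit 20) (nat_lit 24)) (T.l (nat_lit 20) (nat_lit 50)))))) (T.n (T.n (T.n (T.l (nat_lit 21) (nat_lit 25)) (T.n (T.l (nat_lit 21) (nat_lit 37)) (T.l (nat_lit 22) (nat_lit 26)))) (T.n (T.l (nat_lit 22)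 (nat_lit 57)) (T.n (T.l (nat_lit 23) (nat_lit 38)) (T.l (nat_lit 23) (nat_lit 54))))) (T.n (T.n (T.l (nat_lit 24) (nat_lit 20)) (T.n (T.l (nat_lit 24) (nat_lit 54)) (T.l (nat_lit 25) (nat_lit 21)))) (T.n (T.l (nat_lit 25) (nat_lit 44)) (T.n (T.l (nat_lit 26) (nat_lit 18)) (T.l (nat_lit 26) (nat_lit 22))))))) (T.n (T.n (T.n (T.n (T.l (nat_lit 32) (nat_lit 16)) (T.n (T.l (nat_lit 32) (nat_lit 37)) (T.l (nat_lit 34) (nat_lit 15)))) (T.n (T.l (nat_lit 34) (nat_lit 50)) (T.n (T.l (nat_lit 36) (nat_lit 17)) (T.l (nat_lit 36) (nat_lit 57))))) (T.n (T.n (T.l (nat_lit 37) (nat_lit 21)) (T.n (T.l (nat_lit 37) (nat_lit 32)) (T.l (nat_lit 38) (nat_lit 15)))) (T.n (T.l (nat_lit 38) (nat_lit 23)) (T.n (T.l (nat_lit 44) (nat_lit 19)) (T.l (nat_lit 44) (nat_lit 25)))))) (T.n (T.n (T.n (T.l (nat_lit 46) (nat_lit 18)) (T.n (T.l (nat_lit 46) (nat_lit 49)) (T.l (nat_lit 48) (nat_lit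 16)))) (T.n (T.l (nat_lit 48) (nat_lit 19)) (T.n (T.l (nat_lit 49) (nat_lit 17)) (T.l (nat_lit 49) (nat_lit 46))))) (T.n (T.n (T.l (nat_lit 50) (nat_lit 20)) (T.n (T.l (nat_lit 50) (nat_lit 34)) (T.l (nat_lit 54) (nat_lit 23)))) (T.n (T.l (nat_lit 54) (nat_lit 24)) (T.n (T.l (nat_lit 57) (nat_lit 22)) (T.l (nat_lit 57) (nat_lit 36)))))))
def T100_2 : T := T.n (T.n (T.n (T.n (T.n (T.n (T.l (nat_lit 15) (nat_lit 35)) (T.n (T.l (nat_lit 15) (nat_lit 44)) (T.l (nat_lit 15) (nat_lit 57)))) (T.n (T.l (nat_lit 15) (nat_lit 58)) (T.n (T.l (nat_lit 16) (nat_lit 30)) (T.l (nat_lit 16) (nat_lit 46))))) (T.n (T.n (T.l (nat_lit 16) (nat_lit 47)) (T.n (T.l (nat_lit 16) (nat_lit 54)) (T.l (nat_lit 18) (nat_lit 32)))) (T.n (T.l (nat_lit 18) (nat_lit 47)) (T.n (T.l (nat_lit 18) (nat_lit 54)) (T.l (nat_lit 18) (nat_lit 55)))))) (T.n (T.n (T.n (T.l (nat_lit 19) (nat_lit 34)) (T.n (T.l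 (nat_lit 19) (nat_lit 35)) (T.l (nat_lit 19) (nat_lit 42)))) (T.n (T.l (nat_lit 19) (nat_lit 57)) (T.n (T.l (nat_lit 22) (nat_lit 34)) (T.l (nat_lit 22) (nat_lit 42))))) (T.n (T.n (T.l (nat_lit 22) (nat_lit 44)) (T.n (T.l (nat_lit 22) (nat_lit 58)) (T.l (nat_lit 23) (nat_lit 30)))) (T.n (T.l (nat_lit 23) (nat_lit 32)) (T.n (T.l (nat_lit 23) (nat_lit 46)) (T.l (nat_lit 23) (nat_lit 55))))))) (T.n (T.n (T.n (T.n (T.l (nat_lit 24) (nat_lit 32)) (T.n (T.l (nat_lit 24) (nat_lit 45)) (T.l (nat_lit 24) (nat_lit 46)))) (T.n (T.l (nat_lit 24) (nat_lit 56)) (T.n (T.l (nat_lit 25) (nat_lit 34)) (T.l (nat_lit 25) (nat_lit 43))))) (T.n (T.n (T.l (nat_lit 25) (nat_lit 57)) (T.n (T.l (nat_lit 25) (nat_lit 59)) (T.l (nat_lit 30) (nat_lit 16)))) (T.n (T.l (nat_lit 30) (nat_lit 23)) (T.n (T.l (nat_lit 31) (nat_lit 37)) (T.l (nat_lit 31) (nat_lit 49)))))) (T.n (T.n (T.n (T.l (nat_lit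 32) (nat_lit 18)) (T.n (T.l (nat_lit 32) (nat_lit 23)) (T.l (nat_lit 32) (nat_lit 24)))) (T.n (T.l (nat_lit 32) (nat_lit 49)) (T.n (T.l (nat_lit 33) (nat_lit 36)) (T.l (nat_lit 33) (nat_lit 50))))) (T.n (T.n (T.l (nat_lit 34) (nat_lit 19)) (T.n (T.l (nat_lit 34) (nat_lit 22)) (T.l (nat_lit 34) (nat_lit 25)))) (T.n (T.l (nat_lit 34) (nat_lit 36)) (T.n (T.l (nat_lit 35) (nat_lit 15)) (T.l (nat_lit 35) (nat_lit 19)))))))) (T.n (T.n (T.n (T.n (T.n (T.l (nat_lit 36) (nat_lit 33)) (T.n (T.l (nat_lit 36) (nat_lit 34)) (T.l (nat_lit 36) (nat_lit 44)))) (T.n (T.l (nat_lit 36) (nat_lit 59)) (T.n (T.l (nat_lit 37) (nat_lit 31)) (T.l (nat_lit 37) (nat_lit 46))))) (T.n (T.n (T.l (nat_lit 37) (nat_lit 54)) (T.n (T.l (nat_lit 37) (nat_lit 56)) (T.l (nat_lit 42) (nat_lit 19)))) (T.n (T.l (nat_lit 42) (nat_lit 22)) (T.n (T.l (nat_lit 43) (nat_lit 25)) (T.l (nat_lit 43) (nat_lit 50))))))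 (T.n (T.n (T.n (T.l (nat_lit 44) (nat_lit 15)) (T.n (T.l (nat_lit 44) (nat_lit 22)) (T.l (nat_lit 44) (nat_lit 36)))) (T.n (T.l (nat_lit 44) (nat_lit 50)) (T.n (T.l (nat_lit 45) (nat_lit 24)) (T.l (nat_lit 45) (nat_lit 49))))) (T.n (T.n (T.l (nat_lit 46) (nat_lit 16)) (T.n (T.l (nat_lit 46) (nat_lit 23)) (T.l (nat_lit 46) (nat_lit 24)))) (T.n (T.l (nat_lit 46) (nat_lit 37)) (T.n (T.l (nat_lit 47) (nat_lit 16)) (T.l (nat_lit 47) (nat_lit 18))))))) (T.n (T.n (T.n (T.n (T.l (nat_lit 49) (nat_lit 31)) (T.n (T.l (nat_lit 49) (nat_lit 32)) (T.l (nat_lit 49) (nat_lit 45)))) (T.n (T.l (nat_lit 49) (nat_lit 54)) (T.n (T.l (nat_lit 50) (nat_lit 33)) (T.l (nat_lit 50) (nat_lit 43))))) (T.n (T.n (T.l (nat_lit 50) (nat_lit 44)) (T.n (T.l (nat_lit 50) (nat_lit 57)) (T.l (nat_lit 54) (nat_lit 16)))) (T.n (T.l (nat_lit 54) (nat_lit 18)) (T.n (T.l (nat_lit 54) (nat_lit 37)) (T.l (nat_lit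 54) (nat_lit 49)))))) (T.n (T.n (T.n (T.l (nat_lit 55) (nat_lit 18)) (T.n (T.l (nat_lit 55) (nat_lit 23)) (T.l (nat_lit 56) (nat_lit 24)))) (T.n (T.l (nat_lit 56) (nat_lit 37)) (T.n (T.l (nat_lit 57) (nat_lit 15)) (T.l (nat_lit 57) (nat_lit 19))))) (T.n (T.n (T.l (nat_lit 57) (nat_lit 25)) (T.n (T.l (nat_lit 57) (nat_lit 50)) (T.l (nat_lit 58) (nat_lit 15)))) (T.n (T.l (nat_lit 58) (nat_lit 22)) (T.n (T.l (nat_lit 59) (nat_lit 25)) (T.l (nat_lit 59) (nat_lit 36))))))))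
def T101_2 : T := T.n (T.n (T.n (T.n (T.n (T.l (nat_lit 15) (nat_lit 45)) (T.n (T.l (nat_lit 15) (nat_lit 56)) (T.l (nat_lit 16) (nat_lit 43)))) (T.n (T.l (nat_lit 16) (nat_lit 59)) (T.n (T.l (nat_lit 18) (nat_lit 33)) (T.l (nat_lit 18) (nat_lit 59))))) (T.n (T.n (T.l (nat_lit 19) (nat_lit 31)) (T.n (T.l (nat_lit 19) (nat_lit 56)) (T.l (nat_lit 22) (nat_lit 31)))) (T.n (T.l (nat_lit 22) (nat_lit 45)) (T.n (T.l (nat_lit 23) (nat_lit 33)) (T.l (nat_lit 23) (nat_lit 43)))))) (T.n (T.n (T.n (T.l (nat_lit 24) (nat_lit 35)) (T.n (T.l (nat_lit 24) (nat_lit 58)) (T.l (nat_lit 25) (nat_lit 30)))) (T.n (T.l (nat_lit 25) (nat_lit 47)) (T.n (T.l (nat_lit 30) (nat_lit 25)) (T.l (nat_lit 30) (nat_lit 50))))) (T.n (T.n (T.l (nat_lit 31) (nat_lit 19)) (T.n (T.l (nat_lit 31) (nat_lit 22)) (T.l (nat_lit 33) (nat_lit 18)))) (T.n (T.l (nat_lit 33) (nat_lit 23)) (T.n (T.l (nat_lit 35)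 (nat_lit 24)) (T.l (nat_lit 35) (nat_lit 37))))))) (T.n (T.n (T.n (T.n (T.l (nat_lit 36) (nat_lit 47)) (T.n (T.l (nat_lit 36) (nat_lit 55)) (T.l (nat_lit 37) (nat_lit 35)))) (T.n (T.l (nat_lit 37) (nat_lit 42)) (T.n (T.l (nat_lit 42) (nat_lit 37)) (T.l (nat_lit 42) (nat_lit 49))))) (T.n (T.n (T.l (nat_lit 43) (nat_lit 16)) (T.n (T.l (nat_lit 43) (nat_lit 23)) (T.l (nat_lit 45) (nat_lit 15)))) (T.n (T.l (nat_lit 45) (nat_lit 22)) (T.n (T.l (nat_lit 47) (nat_lit 25)) (T.l (nat_lit 47) (nat_lit 36)))))) (T.n (T.n (T.n (T.l (nat_lit 49) (nat_lit 42)) (T.n (T.l (nat_lit 49) (nat_lit 58)) (T.l (nat_lit 50) (nat_lit 30)))) (T.n (T.l (nat_lit 50) (nat_lit 55)) (T.n (T.l (nat_lit 55) (nat_lit 36)) (T.l (nat_lit 55) (nat_lit 50))))) (T.n (T.n (T.l (nat_lit 56) (nat_lit 15)) (T.n (T.l (nat_lit 56) (nat_lit 19)) (T.l (nat_lit 58) (nat_lit 24)))) (T.n (T.l (nat_lit 58) (nat_lit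 49)) (T.n (T.l (nat_lit 59) (nat_lit 16)) (T.l (nat_lit 59) (nat_lit 18)))))))
def T102_2 : T := T.n (T.n (T.n (T.n (T.l (nat_lit 17) (nat_lit 30)) (T.n (T.l (nat_lit 17) (nat_lit 35)) (T.l (nat_lit 20) (nat_lit 42)))) (T.n (T.l (nat_lit 20) (nat_lit 47)) (T.n (T.l (nat_lit 21) (nat_lit 55)) (T.l (nat_lit 21) (nat_lit 58))))) (T.n (T.n (T.l (nat_lit 26) (nat_lit 43)) (T.n (T.l (nat_lit 26) (nat_lit 56)) (T.l (nat_lit 30) (nat_lit 17)))) (T.n (T.l (nat_lit 31) (nat_lit 38)) (T.n (T.l (nat_lit 33) (nat_lit 48)) (T.l (nat_lit 35) (nat_lit 17)))))) (T.n (T.n (T.n (T.l (nat_lit 38) (nat_lit 31)) (T.n (T.l (nat_lit 38) (nat_lit 59)) (T.l (nat_lit 42) (nat_lit 20)))) (T.n (T.l (nat_lit 43) (nat_lit 26)) (T.n (T.l (nat_lit 45) (nat_lit 48)) (T.l (nat_lit 47) (nat_lit 20))))) (T.n (T.n (T.l (nat_lit 48) (nat_lit 33)) (T.n (T.l (nat_lit 48) (nat_lit 45)) (T.l (nat_lit 55) (nat_lit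 21)))) (T.n (T.l (nat_lit 56) (nat_lit 26)) (T.n (T.l (nat_lit 58) (nat_lit 21)) (T.l (nat_lit 59) (nat_lit 38))))))
def T103_2 : T := T.n (T.n (T.n (T.n (T.n (T.l (nat_lit 17) (nat_lit 31)) (T.n (T.l (nat_lit 17) (nat_lit 33)) (T.l (nat_lit 17) (nat_lit 45)))) (T.n (T.l (nat_lit 17) (nat_lit 59)) (T.n (T.l (nat_lit 20) (nat_lit 33)) (T.l (nat_lit 20) (nat_lit 43))))) (T.n (T.n (T.l (nat_lit 20) (nat_lit 45)) (T.n (T.l (nat_lit 20) (nat_lit 56)) (T.l (nat_lit 21) (nat_lit 31)))) (T.n (T.l (nat_lit 21) (nat_lit 43)) (T.n (T.l (nat_lit 21) (nat_lit 56)) (T.l (nat_lit 21) (nat_lit 59)))))) (T.n (T.n (T.n (T.l (nat_lit 26) (nat_lit 42)) (T.n (T.l (nat_lit 26) (nat_lit 47)) (T.l (nat_lit 26) (nat_lit 55)))) (T.n (T.l (nat_lit 26) (nat_lit 58)) (T.n (T.l (nat_lit 30) (nat_lit 38)) (T.l (nat_lit 30) (nat_lit 48))))) (T.n (T.n (T.l (nat_lit 31) (nat_lit 17)) (T.n (T.l (nat_lit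 31) (nat_lit 21)) (T.l (nat_lit 33) (nat_lit 17)))) (T.n (T.l (nat_lit 33) (nat_lit 20)) (T.n (T.l (nat_lit 35) (nat_lit 38)) (T.l (nat_lit 35) (nat_lit 48))))))) (T.n (T.n (T.n (T.n (T.l (nat_lit 38) (nat_lit 30)) (T.n (T.l (nat_lit 38) (nat_lit 35)) (T.l (nat_lit 38) (nat_lit 55)))) (T.n (T.l (nat_lit 38) (nat_lit 58)) (T.n (T.l (nat_lit 42) (nat_lit 26)) (T.l (nat_lit 42) (nat_lit 48))))) (T.n (T.n (T.l (nat_lit 43) (nat_lit 20)) (T.n (T.l (nat_lit 43) (nat_lit 21)) (T.l (nat_lit 45) (nat_lit 17)))) (T.n (T.l (nat_lit 45) (nat_lit 20)) (T.n (T.l (nat_lit 47) (nat_lit 26)) (T.l (nat_lit 47) (nat_lit 48)))))) (T.n (T.n (T.n (T.l (nat_lit 48) (nat_lit 30)) (T.n (T.l (nat_lit 48) (nat_lit 35)) (T.l (nat_lit 48) (nat_lit 42)))) (T.n (T.l (nat_lit 48) (nat_lit 47)) (T.n (T.l (nat_lit 55) (nat_lit 26)) (T.l (nat_lit 55) (nat_lit 38))))) (T.n (T.n (T.l (nat_lit 56) (nat_lit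 20)) (T.n (T.l (nat_lit 56) (nat_lit 21)) (T.l (nat_lit 58) (nat_lit 26)))) (T.n (T.l (nat_lit 58) (nat_lit 38)) (T.n (T.l (nat_lit 59) (nat_lit 17)) (T.l (nat_lit 59) (nat_lit 21)))))))
def T104_2 : T := T.n (T.n (T.n (T.n (T.n (T.l (nat_lit 17) (nat_lit 42)) (T.n (T.l (nat_lit 17) (nat_lit 47)) (T.l (nat_lit 17) (nat_lit 55)))) (T.n (T.l (nat_lit 17) (nat_lit 58)) (T.n (T.l (nat_lit 20) (nat_lit 30)) (T.l (nat_lit 20) (nat_lit 35))))) (T.n (T.n (T.l (nat_lit 20) (nat_lit 55)) (T.n (T.l (nat_lit 20) (nat_lit 58)) (T.l (nat_lit 21) (nat_lit 30)))) (T.n (T.l (nat_lit 21) (nat_lit 35)) (T.n (T.l (nat_lit 21) (nat_lit 42)) (T.l (nat_lit 21) (nat_lit 47)))))) (T.n (T.n (T.n (T.l (nat_lit 26) (nat_lit 31)) (T.n (T.l (nat_lit 26) (nat_lit 33)) (T.l (nat_lit 26) (nat_lit 45)))) (T.n (T.l (nat_lit 26) (nat_lit 59)) (T.n (T.l (nat_lit 30) (nat_lit 20)) (T.l (nat_lit 30) (nat_lit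 21))))) (T.n (T.n (T.l (nat_lit 31) (nat_lit 26)) (T.n (T.l (nat_lit 31) (nat_lit 48)) (T.l (nat_lit 33) (nat_lit 26)))) (T.n (T.l (nat_lit 33) (nat_lit 38)) (T.n (T.l (nat_lit 35) (nat_lit 20)) (T.l (nat_lit 35) (nat_lit 21))))))) (T.n (T.n (T.n (T.n (T.l (nat_lit 38) (nat_lit 33)) (T.n (T.l (nat_lit 38) (nat_lit 43)) (T.l (nat_lit 38) (nat_lit 45)))) (T.n (T.l (nat_lit 38) (nat_lit 56)) (T.n (T.l (nat_lit 42) (nat_lit 17)) (T.l (nat_lit 42) (nat_lit 21))))) (T.n (T.n (T.l (nat_lit 43) (nat_lit 38)) (T.n (T.l (nat_lit 43) (nat_lit 48)) (T.l (nat_lit 45) (nat_lit 26)))) (T.n (T.l (nat_lit 45) (nat_lit 38)) (T.n (T.l (nat_lit 47) (nat_lit 17)) (T.l (nat_lit 47) (nat_lit 21)))))) (T.n (T.n (T.n (T.l (nat_lit 48) (nat_lit 31)) (T.n (T.l (nat_lit 48) (nat_lit 43)) (T.l (nat_lit 48) (nat_lit 56)))) (T.n (T.l (nat_lit 48) (nat_lit 59)) (T.n (T.l (nat_lit 55) (nat_lit 17))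 (T.l (nat_lit 55) (nat_lit 20))))) (T.n (T.n (T.l (nat_lit 56) (nat_lit 38)) (T.n (T.l (nat_lit 56) (nat_lit 48)) (T.l (nat_lit 58) (nat_lit 17)))) (T.n (T.l (nat_lit 58) (nat_lit 20)) (T.n (T.l (nat_lit 59) (nat_lit 26)) (T.l (nat_lit 59) (nat_lit 48)))))))
def T105_2 : T := T.n (T.n (T.n (T.n (T.n (T.l (nat_lit 17) (nat_lit 43)) (T.n (T.l (nat_lit 17) (nat_lit 56)) (T.l (nat_lit 20) (nat_lit 31)))) (T.n (T.l (nat_lit 20) (nat_lit 59)) (T.n (T.l (nat_lit 21) (nat_lit 33)) (T.l (nat_lit 21) (nat_lit 45))))) (T.n (T.n (T.l (nat_lit 26) (nat_lit 30)) (T.n (T.l (nat_lit 26) (nat_lit 35)) (T.l (nat_lit 30) (nat_lit 26)))) (T.n (T.l (nat_lit 30) (nat_lit 57)) (T.n (T.l (nat_lit 31) (nat_lit 20)) (T.l (nat_lit 31) (nat_lit 34)))))) (T.n (T.n (T.n (T.l (nat_lit 32) (nat_lit 33)) (T.n (T.l (nat_lit 32) (nat_lit 58)) (T.l (nat_lit 33) (nat_lit 21)))) (T.n (T.l (nat_lit 33)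 (nat_lit 32)) (T.n (T.l (nat_lit 34) (nat_lit 31)) (T.l (nat_lit 34) (nat_lit 47))))) (T.n (T.n (T.l (nat_lit 35) (nat_lit 26)) (T.n (T.l (nat_lit 35) (nat_lit 46)) (T.l (nat_lit 38) (nat_lit 42)))) (T.n (T.l (nat_lit 38) (nat_lit 47)) (T.n (T.l (nat_lit 42) (nat_lit 38)) (T.l (nat_lit 42) (nat_lit 54))))))) (T.n (T.n (T.n (T.n (T.l (nat_lit 43) (nat_lit 17)) (T.n (T.l (nat_lit 43) (nat_lit 46)) (T.l (nat_lit 44) (nat_lit 45)))) (T.n (T.l (nat_lit 44) (nat_lit 55)) (T.n (T.l (nat_lit 45) (nat_lit 21)) (T.l (nat_lit 45) (nat_lit 44))))) (T.n (T.n (T.l (nat_lit 46) (nat_lit 35)) (T.n (T.l (nat_lit 46) (nat_lit 43)) (T.l (nat_lit 47) (nat_lit 34)))) (T.n (T.l (nat_lit 47) (nat_lit 38)) (T.n (T.l (nat_lit 48) (nat_lit 55)) (T.l (nat_lit 48) (nat_lit 58)))))) (T.n (T.n (T.n (T.l (nat_lit 54) (nat_lit 42)) (T.n (T.l (nat_lit 54) (nat_lit 59)) (T.l (nat_lit 55) (nat_lit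 44)))) (T.n (T.l (nat_lit 55) (nat_lit 48)) (T.n (T.l (nat_lit 56) (nat_lit 17)) (T.l (nat_lit 56) (nat_lit 57))))) (T.n (T.n (T.l (nat_lit 57) (nat_lit 30)) (T.n (T.l (nat_lit 57) (nat_lit 56)) (T.l (nat_lit 58) (nat_lit 32)))) (T.n (T.l (nat_lit 58) (nat_lit 48)) (T.n (T.l (nat_lit 59) (nat_lit 20)) (T.l (nat_lit 59) (nat_lit 54)))))))
def T106_2 : T := T.n (T.n (T.n (T.n (T.l (nat_lit 17) (nat_lit 46)) (T.n (T.l (nat_lit 17) (nat_lit 57)) (T.l (nat_lit 20) (nat_lit 34)))) (T.n (T.l (nat_lit 20) (nat_lit 54)) (T.n (T.l (nat_lit 21) (nat_lit 32)) (T.l (nat_lit 21) (nat_lit 44))))) (T.n (T.n (T.l (nat_lit 26) (nat_lit 46)) (T.n (T.l (nat_lit 26) (nat_lit 57)) (T.l (nat_lit 32) (nat_lit 21)))) (T.n (T.l (nat_lit 32) (nat_lit 48)) (T.n (T.l (nat_lit 34) (nat_lit 20)) (T.l (nat_lit 34) (nat_lit 38)))))) (T.n (T.n (T.n (T.l (nat_lit 38) (nat_lit 34)) (T.n (T.l (nat_lit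 38) (nat_lit 54)) (T.l (nat_lit 44) (nat_lit 21)))) (T.n (T.l (nat_lit 44) (nat_lit 48)) (T.n (T.l (nat_lit 46) (nat_lit 17)) (T.l (nat_lit 46) (nat_lit 26))))) (T.n (T.n (T.l (nat_lit 48) (nat_lit 32)) (T.n (T.l (nat_lit 48) (nat_lit 44)) (T.l (nat_lit 54) (nat_lit 20)))) (T.n (T.l (nat_lit 54) (nat_lit 38)) (T.n (T.l (nat_lit 57) (nat_lit 17)) (T.l (nat_lit 57) (nat_lit 26))))))
def T107_2 : T := T.n (T.n (T.n (T.n (T.n (T.l (nat_lit 30) (nat_lit 34)) (T.n (T.l (nat_lit 30) (nat_lit 44)) (T.l (nat_lit 31) (nat_lit 44)))) (T.n (T.l (nat_lit 31) (nat_lit 57)) (T.n (T.l (nat_lit 32) (nat_lit 35)) (T.l (nat_lit 32) (nat_lit 42))))) (T.n (T.n (T.l (nat_lit 32) (nat_lit 43)) (T.n (T.l (nat_lit 32) (nat_lit 59)) (T.l (nat_lit 33) (nat_lit 46)))) (T.n (T.l (nat_lit 33) (nat_lit 54)) (T.n (T.l (nat_lit 34) (nat_lit 30)) (T.l (nat_lit 34) (nat_lit 45)))))) (T.n (T.n (T.n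 (T.l (nat_lit 34) (nat_lit 55)) (T.n (T.l (nat_lit 34) (nat_lit 56)) (T.l (nat_lit 35) (nat_lit 32)))) (T.n (T.l (nat_lit 35) (nat_lit 54)) (T.n (T.l (nat_lit 42) (nat_lit 32)) (T.l (nat_lit 42) (nat_lit 46))))) (T.n (T.n (T.l (nat_lit 43) (nat_lit 32)) (T.n (T.l (nat_lit 43) (nat_lit 54)) (T.l (nat_lit 44) (nat_lit 30)))) (T.n (T.l (nat_lit 44) (nat_lit 31)) (T.n (T.l (nat_lit 44) (nat_lit 47)) (T.l (nat_lit 44) (nat_lit 56))))))) (T.n (T.n (T.n (T.n (T.l (nat_lit 45) (nat_lit 34)) (T.n (T.l (nat_lit 45) (nat_lit 57)) (T.l (nat_lit 46) (nat_lit 33)))) (T.n (T.l (nat_lit 46) (nat_lit 42)) (T.n (T.l (nat_lit 46) (nat_lit 58)) (T.l (nat_lit 46) (nat_lit 59))))) (T.n (T.n (T.l (nat_lit 47) (nat_lit 44)) (T.n (T.l (nat_lit 47) (nat_lit 57)) (T.l (nat_lit 54) (nat_lit 33)))) (T.n (T.l (nat_lit 54) (nat_lit 35)) (T.n (T.l (nat_lit 54) (nat_lit 43)) (T.l (nat_lit 54) (nat_lit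 58)))))) (T.n (T.n (T.n (T.l (nat_lit 55) (nat_lit 34)) (T.n (T.l (nat_lit 55) (nat_lit 57)) (T.l (nat_lit 56) (nat_lit 34)))) (T.n (T.l (nat_lit 56) (nat_lit 44)) (T.n (T.l (nat_lit 57) (nat_lit 31)) (T.l (nat_lit 57) (nat_lit 45))))) (T.n (T.n (T.l (nat_lit 57) (nat_lit 47)) (T.n (T.l (nat_lit 57) (nat_lit 55)) (T.l (nat_lit 58) (nat_lit 46)))) (T.n (T.l (nat_lit 58) (nat_lit 54)) (T.n (T.l (nat_lit 59) (nat_lit 32)) (T.l (nat_lit 59) (nat_lit 46)))))))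
def T108_2 : T := T.n (T.n (T.n (T.n (T.l (nat_lit 30) (nat_lit 46)) (T.n (T.l (nat_lit 31) (nat_lit 54)) (T.l (nat_lit 32) (nat_lit 45)))) (T.n (T.l (nat_lit 32) (nat_lit 55)) (T.n (T.l (nat_lit 33) (nat_lit 44)) (T.l (nat_lit 34) (nat_lit 42))))) (T.n (T.n (T.l (nat_lit 34) (nat_lit 59)) (T.n (T.l (nat_lit 35) (nat_lit 57)) (T.l (nat_lit 42) (nat_lit 34)))) (T.n (T.l (nat_lit 43) (nat_lit 57)) (T.n (T.l (nat_lit 44) (nat_lit 33)) (T.l (nat_lit 44) (nat_lit 58)))))) (T.n (T.n (T.n (T.l (nat_lit 45) (nat_lit 32)) (T.n (T.l (nat_lit 46) (nat_lit 30)) (T.l (nat_lit 46) (nat_lit 56)))) (T.n (T.l (nat_lit 47) (nat_lit 54)) (T.n (T.l (nat_lit 54) (nat_lit 31)) (T.l (nat_lit 54) (nat_lit 47))))) (T.n (T.n (T.l (nat_lit 55) (nat_lit 32)) (T.n (T.l (nat_lit 56) (nat_lit 46)) (T.l (nat_lit 57) (nat_lit 35)))) (T.n (T.l (nat_lit 57) (nat_lit 43)) (T.n (T.l (nat_lit 58) (nat_lit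 44)) (T.l (nat_lit 59) (nat_lit 34))))))
def T109_2 : T := T.n (T.n (T.n (T.n (T.l (nat_lit 30) (nat_lit 47)) (T.n (T.l (nat_lit 30) (nat_lit 55)) (T.l (nat_lit 31) (nat_lit 45)))) (T.n (T.l (nat_lit 31) (nat_lit 56)) (T.n (T.l (nat_lit 33) (nat_lit 43)) (T.l (nat_lit 33) (nat_lit 59))))) (T.n (T.n (T.l (nat_lit 35) (nat_lit 42)) (T.n (T.l (nat_lit 35) (nat_lit 58)) (T.l (nat_lit 42) (nat_lit 35)))) (T.n (T.l (nat_lit 42) (nat_lit 58)) (T.n (T.l (nat_lit 43) (nat_lit 33)) (T.l (nat_lit 43) (nat_lit 59)))))) (T.n (T.n (T.n (T.l (nat_lit 45) (nat_lit 31)) (T.n (T.l (nat_lit 45) (nat_lit 56)) (T.l (nat_lit 47) (nat_lit 30)))) (T.n (T.l (nat_lit 47) (nat_lit 55)) (T.n (T.l (nat_lit 55) (nat_lit 30)) (T.l (nat_lit 55) (nat_lit 47))))) (T.n (T.n (T.l (nat_lit 56) (nat_lit 31)) (T.n (T.l (nat_lit 56) (nat_lit 45)) (T.l (nat_lit 58) (nat_lit 35)))) (T.n (T.l (nat_lit 58)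 (nat_lit 42)) (T.n (T.l (nat_lit 59) (nat_lit 33)) (T.l (nat_lit 59) (nat_lit 43))))))
def T3_3 : T := T.n (T.l (nat_lit 0) (nat_lit 0)) (T.l (nat_lit 16) (nat_lit 16))
def T10_3 : T := T.n (T.n (T.l (nat_lit 1) (nat_lit 1)) (T.l (nat_lit 4) (nat_lit 4))) (T.n (T.l (nat_lit 15) (nat_lit 15)) (T.n (T.l (nat_lit 22) (nat_lit 22)) (T.l (nat_lit 40) (nat_lit 40))))
def T11_3 : T := T.n (T.n (T.n (T.n (T.l (nat_lit 0) (nat_lit 1)) (T.l (nat_lit 0) (nat_lit 4))) (T.n (T.l (nat_lit 0) (nat_lit 15)) (T.n (T.l (nat_lit 0) (nat_lit 22)) (T.l (nat_lit 0) (nat_lit 40))))) (T.n (T.n (T.l (nat_lit 1) (nat_lit 0)) (T.l (nat_lit 1) (nat_lit 16))) (T.n (T.l (nat_lit 4) (nat_lit 0)) (T.n (T.l (nat_lit 4) (nat_lit 16)) (T.l (nat_lit 15) (nat_lit 0)))))) (T.n (T.n (T.n (T.l (nat_lit 15) (nat_lit 16)) (T.l (nat_lit 16) (nat_lit 1))) (T.n (T.l (nat_lit 16) (nat_lit 4)) (T.n (T.l (nat_lit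 16) (nat_lit 15)) (T.l (nat_lit 16) (nat_lit 22))))) (T.n (T.n (T.l (nat_lit 16) (nat_lit 40)) (T.l (nat_lit 22) (nat_lit 0))) (T.n (T.l (nat_lit 22) (nat_lit 16)) (T.n (T.l (nat_lit 40) (nat_lit 0)) (T.l (nat_lit 40) (nat_lit 16))))))
def T12_3 : T := T.n (T.n (T.n (T.n (T.l (nat_lit 0) (nat_lit 2)) (T.n (T.l (nat_lit 0) (nat_lit 6)) (T.l (nat_lit 0) (nat_lit 24)))) (T.n (T.n (T.l (nat_lit 0) (nat_lit 49)) (T.l (nat_lit 0) (nat_lit 52))) (T.n (T.l (nat_lit 2) (nat_lit 0)) (T.l (nat_lit 2) (nat_lit 2))))) (T.n (T.n (T.n (T.l (nat_lit 6) (nat_lit 0)) (T.l (nat_lit 6) (nat_lit 6))) (T.n (T.l (nat_lit 16) (nat_lit 17)) (T.l (nat_lit 16) (nat_lit 20)))) (T.n (T.n (T.l (nat_lit 16) (nat_lit 25)) (T.l (nat_lit 16) (nat_lit 31))) (T.n (T.l (nat_lit 16) (nat_lit 56)) (T.l (nat_lit 17) (nat_lit 16)))))) (T.n (T.n (T.n (T.l (nat_lit 17) (nat_lit 17)) (T.n (T.l (nat_lit 20)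 (nat_lit 16)) (T.l (nat_lit 20) (nat_lit 20)))) (T.n (T.n (T.l (nat_lit 24) (nat_lit 0)) (T.l (nat_lit 24) (nat_lit 24))) (T.n (T.l (nat_lit 25) (nat_lit 16)) (T.l (nat_lit 25) (nat_lit 25))))) (T.n (T.n (T.n (T.l (nat_lit 31) (nat_lit 16)) (T.l (nat_lit 31) (nat_lit 31))) (T.n (T.l (nat_lit 49) (nat_lit 0)) (T.l (nat_lit 49) (nat_lit 49)))) (T.n (T.n (T.l (nat_lit 52) (nat_lit 0)) (T.l (nat_lit 52) (nat_lit 52))) (T.n (T.l (nat_lit 56) (nat_lit 16)) (T.l (nat_lit 56) (nat_lit 56))))))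
def T13_3 : T := T.n (T.n (T.n (T.l (nat_lit 3) (nat_lit 3)) (T.l (nat_lit 5) (nat_lit 5))) (T.n (T.l (nat_lit 7) (nat_lit 7)) (T.n (T.l (nat_lit 12) (nat_lit 12)) (T.l (nat_lit 13) (nat_lit 13))))) (T.n (T.n (T.l (nat_lit 19) (nat_lit 19)) (T.l (nat_lit 28) (nat_lit 28))) (T.n (T.l (nat_lit 29) (nat_lit 29)) (T.n (T.l (nat_lit 53) (nat_lit 53)) (T.l (nat_lit 55) (nat_lit 55)))))
def T14_3 : T := T.n (T.n (T.n (T.n (T.l (nat_lit 0) (nat_lit 5)) (T.l (nat_lit 0) (nat_lit 7))) (T.n (T.l (nat_lit 0) (nat_lit 19)) (T.n (T.l (nat_lit 0) (nat_lit 28)) (T.l (nat_lit 0) (nat_lit 29))))) (T.n (T.n (T.l (nat_lit 3) (nat_lit 16)) (T.l (nat_lit 5) (nat_lit 0))) (T.n (T.l (nat_lit 7) (nat_lit 0)) (T.n (T.l (nat_lit 12) (nat_lit 16)) (T.l (nat_lit 13) (nat_lit 16)))))) (T.n (T.n (T.n (T.l (nat_lit 16) (nat_lit 3)) (T.l (nat_lit 16) (nat_lit 12))) (T.n (T.l (nat_lit 16) (nat_lit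 13)) (T.n (T.l (nat_lit 16) (nat_lit 53)) (T.l (nat_lit 16) (nat_lit 55))))) (T.n (T.n (T.l (nat_lit 19) (nat_lit 0)) (T.l (nat_lit 28) (nat_lit 0))) (T.n (T.l (nat_lit 29) (nat_lit 0)) (T.n (T.l (nat_lit 53) (nat_lit 16)) (T.l (nat_lit 55) (nat_lit 16))))))
def T15_3 : T := T.n (T.n (T.n (T.n (T.l (nat_lit 0) (nat_lit 9)) (T.n (T.l (nat_lit 0) (nat_lit 10)) (T.l (nat_lit 0) (nat_lit 37)))) (T.n (T.n (T.l (nat_lit 0) (nat_lit 39)) (T.l (nat_lit 0) (nat_lit 51))) (T.n (T.l (nat_lit 9) (nat_lit 0)) (T.l (nat_lit 9) (nat_lit 9))))) (T.n (T.n (T.n (T.l (nat_lit 10) (nat_lit 0)) (T.l (nat_lit 10) (nat_lit 10))) (T.n (T.l (nat_lit 16) (nat_lit 18)) (T.l (nat_lit 16) (nat_lit 23)))) (T.n (T.n (T.l (nat_lit 16) (nat_lit 35)) (T.l (nat_lit 16) (nat_lit 42))) (T.n (T.l (nat_lit 16) (nat_lit 44)) (T.l (nat_lit 18) (nat_lit 16)))))) (T.n (T.n (T.n (T.l (nat_lit 18) (nat_lit 18))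 (T.n (T.l (nat_lit 23) (nat_lit 16)) (T.l (nat_lit 23) (nat_lit 23)))) (T.n (T.n (T.l (nat_lit 35) (nat_lit 16)) (T.l (nat_lit 35) (nat_lit 35))) (T.n (T.l (nat_lit 37) (nat_lit 0)) (T.l (nat_lit 37) (nat_lit 37))))) (T.n (T.n (T.n (T.l (nat_lit 39) (nat_lit 0)) (T.l (nat_lit 39) (nat_lit 39))) (T.n (T.l (nat_lit 42) (nat_lit 16)) (T.l (nat_lit 42) (nat_lit 42)))) (T.n (T.n (T.l (nat_lit 44) (nat_lit 16)) (T.l (nat_lit 44) (nat_lit 44))) (T.n (T.l (nat_lit 51) (nat_lit 0)) (T.l (nat_lit 51) (nat_lit 51))))))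
def T19_3 : T := T.n (T.n (T.l (nat_lit 11) (nat_lit 11)) (T.l (nat_lit 14) (nat_lit 14))) (T.n (T.l (nat_lit 27) (nat_lit 27)) (T.n (T.l (nat_lit 43) (nat_lit 43)) (T.l (nat_lit 59) (nat_lit 59))))
def T20_3 : T := T.n (T.n (T.n (T.n (T.l (nat_lit 0) (nat_lit 3)) (T.l (nat_lit 0) (nat_lit 12))) (T.n (T.l (nat_lit 0) (nat_lit 13)) (T.n (T.l (nat_lit 0) (nat_lit 53)) (T.l (nat_lit 0) (nat_lit 55))))) (T.n (T.n (T.l (nat_lit 3) (nat_lit 0)) (T.l (nat_lit 5) (nat_lit 16))) (T.n (T.l (nat_lit 7) (nat_lit 16)) (T.n (T.l (nat_lit 12) (nat_lit 0)) (T.l (nat_lit 13) (nat_lit 0)))))) (T.n (T.n (T.n (T.l (nat_lit 16) (nat_lit 5)) (T.l (nat_lit 16) (nat_lit 7))) (T.n (T.l (nat_lit 16) (nat_lit 19)) (T.n (T.l (nat_lit 16) (nat_lit 28)) (T.l (nat_lit 16) (nat_lit 29))))) (T.n (T.n (T.l (nat_lit 19) (nat_lit 16)) (T.l (nat_lit 28) (nat_lit 16))) (T.n (T.l (nat_lit 29) (nat_lit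 16)) (T.n (T.l (nat_lit 53) (nat_lit 0)) (T.l (nat_lit 55) (nat_lit 0))))))
def T21_3 : T := T.n (T.n (T.n (T.n (T.l (nat_lit 0) (nat_lit 11)) (T.l (nat_lit 0) (nat_lit 14))) (T.n (T.l (nat_lit 0) (nat_lit 27)) (T.n (T.l (nat_lit 0) (nat_lit 43)) (T.l (nat_lit 0) (nat_lit 59))))) (T.n (T.n (T.l (nat_lit 11) (nat_lit 0)) (T.l (nat_lit 11) (nat_lit 16))) (T.n (T.l (nat_lit 14) (nat_lit 0)) (T.n (T.l (nat_lit 14) (nat_lit 16)) (T.l (nat_lit 16) (nat_lit 11)))))) (T.n (T.n (T.n (T.l (nat_lit 16) (nat_lit 14)) (T.l (nat_lit 16) (nat_lit 27))) (T.n (T.l (nat_lit 16) (nat_lit 43)) (T.n (T.l (nat_lit 16) (nat_lit 59)) (T.l (nat_lit 27) (nat_lit 0))))) (T.n (T.n (T.l (nat_lit 27) (nat_lit 16)) (T.l (nat_lit 43) (nat_lit 0))) (T.n (T.l (nat_lit 43) (nat_lit 16)) (T.n (T.l (nat_lit 59) (nat_lit 0)) (T.l (nat_lit 59) (nat_lit 16))))))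
def T22_3 : T := T.n (T.n (T.n (T.n (T.l (nat_lit 0) (nat_lit 8)) (T.n (T.l (nat_lit 0) (nat_lit 30)) (T.l (nat_lit 0) (nat_lit 33)))) (T.n (T.n (T.l (nat_lit 0) (nat_lit 41)) (T.l (nat_lit 0) (nat_lit 47))) (T.n (T.l (nat_lit 8) (nat_lit 0)) (T.l (nat_lit 8) (nat_lit 8))))) (T.n (T.n (T.n (T.l (nat_lit 16) (nat_lit 21)) (T.l (nat_lit 16) (nat_lit 36))) (T.n (T.l (nat_lit 16) (nat_lit 46)) (T.l (nat_lit 16) (nat_lit 50)))) (T.n (T.n (T.l (nat_lit 16) (nat_lit 54)) (T.l (nat_lit 21) (nat_lit 16))) (T.n (T.l (nat_lit 21) (nat_lit 21)) (T.l (nat_lit 30) (nat_lit 0)))))) (T.n (T.n (T.n (T.l (nat_lit 30) (nat_lit 30)) (T.n (T.l (nat_lit 33) (nat_lit 0)) (T.l (nat_lit 33) (nat_lit 33)))) (T.n (T.n (T.l (nat_lit 36) (nat_lit 16)) (T.l (nat_lit 36) (nat_lit 36))) (T.n (T.l (nat_lit 41) (nat_lit 0)) (T.l (nat_lit 41) (nat_lit 41))))) (T.n (T.n (T.n (T.l (nat_lit 46) (nat_lit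 16)) (T.l (nat_lit 46) (nat_lit 46))) (T.n (T.l (nat_lit 47) (nat_lit 0)) (T.l (nat_lit 47) (nat_lit 47)))) (T.n (T.n (T.l (nat_lit 50) (nat_lit 16)) (T.l (nat_lit 50) (nat_lit 50))) (T.n (T.l (nat_lit 54) (nat_lit 16)) (T.l (nat_lit 54) (nat_lit 54))))))
def T23_3 : T := T.n (T.l (nat_lit 0) (nat_lit 16)) (T.l (nat_lit 16) (nat_lit 0))
def T24_3 : T := T.n (T.n (T.n (T.n (T.l (nat_lit 0) (nat_lit 17)) (T.l (nat_lit 0) (nat_lit 20))) (T.n (T.l (nat_lit 0) (nat_lit 25)) (T.n (T.l (nat_lit 0) (nat_lit 31)) (T.l (nat_lit 0) (nat_lit 56))))) (T.n (T.n (T.l (nat_lit 2) (nat_lit 16)) (T.l (nat_lit 6) (nat_lit 16))) (T.n (T.l (nat_lit 16) (nat_lit 2)) (T.n (T.l (nat_lit 16) (nat_lit 6)) (T.l (nat_lit 16) (nat_lit 24)))))) (T.n (T.n (T.n (T.l (nat_lit 16) (nat_lit 49)) (T.l (nat_lit 16) (nat_lit 52))) (T.n (T.l (nat_lit 17) (nat_lit 0)) (T.n (T.l (nat_lit 20) (nat_lit 0))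 (T.l (nat_lit 24) (nat_lit 16))))) (T.n (T.n (T.l (nat_lit 25) (nat_lit 0)) (T.l (nat_lit 31) (nat_lit 0))) (T.n (T.l (nat_lit 49) (nat_lit 16)) (T.n (T.l (nat_lit 52) (nat_lit 16)) (T.l (nat_lit 56) (nat_lit 0))))))
def T25_3 : T := T.n (T.n (T.n (T.n (T.l (nat_lit 0) (nat_lit 18)) (T.l (nat_lit 0) (nat_lit 23))) (T.n (T.l (nat_lit 0) (nat_lit 35)) (T.n (T.l (nat_lit 0) (nat_lit 42)) (T.l (nat_lit 0) (nat_lit 44))))) (T.n (T.n (T.l (nat_lit 9) (nat_lit 16)) (T.l (nat_lit 10) (nat_lit 16))) (T.n (T.l (nat_lit 16) (nat_lit 9)) (T.n (T.l (nat_lit 16) (nat_lit 10)) (T.l (nat_lit 16) (nat_lit 37)))))) (T.n (T.n (T.n (T.l (nat_lit 16) (nat_lit 39)) (T.l (nat_lit 16) (nat_lit 51))) (T.n (T.l (nat_lit 18) (nat_lit 0)) (T.n (T.l (nat_lit 23) (nat_lit 0)) (T.l (nat_lit 35) (nat_lit 0))))) (T.n (T.n (T.l (nat_lit 37) (nat_lit 16)) (T.l (nat_lit 39) (nat_lit 16))) (T.n (T.l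 (nat_lit 42) (nat_lit 0)) (T.n (T.l (nat_lit 44) (nat_lit 0)) (T.l (nat_lit 51) (nat_lit 16))))))
def T26_3 : T := T.n (T.n (T.n (T.n (T.l (nat_lit 0) (nat_lit 21)) (T.l (nat_lit 0) (nat_lit 36))) (T.n (T.l (nat_lit 0) (nat_lit 46)) (T.n (T.l (nat_lit 0) (nat_lit 50)) (T.l (nat_lit 0) (nat_lit 54))))) (T.n (T.n (T.l (nat_lit 8) (nat_lit 16)) (T.l (nat_lit 16) (nat_lit 8))) (T.n (T.l (nat_lit 16) (nat_lit 30)) (T.n (T.l (nat_lit 16) (nat_lit 33)) (T.l (nat_lit 16) (nat_lit 41)))))) (T.n (T.n (T.n (T.l (nat_lit 16) (nat_lit 47)) (T.l (nat_lit 21) (nat_lit 0))) (T.n (T.l (nat_lit 30) (nat_lit 16)) (T.n (T.l (nat_lit 33) (nat_lit 16)) (T.l (nat_lit 36) (nat_lit 0))))) (T.n (T.n (T.l (nat_lit 41) (nat_lit 16)) (T.l (nat_lit 46) (nat_lit 0))) (T.n (T.l (nat_lit 47) (nat_lit 16)) (T.n (T.l (nat_lit 50) (nat_lit 0)) (T.l (nat_lit 54) (nat_lit 0))))))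
def T27_3 : T := T.n (T.n (T.n (T.n (T.l (nat_lit 0) (nat_lit 26)) (T.n (T.l (nat_lit 0) (nat_lit 34)) (T.l (nat_lit 0) (nat_lit 38)))) (T.n (T.l (nat_lit 0) (nat_lit 57)) (T.n (T.l (nat_lit 0) (nat_lit 58)) (T.l (nat_lit 16) (nat_lit 26))))) (T.n (T.n (T.l (nat_lit 16) (nat_lit 34)) (T.n (T.l (nat_lit 16) (nat_lit 38)) (T.l (nat_lit 16) (nat_lit 57)))) (T.n (T.l (nat_lit 16) (nat_lit 58)) (T.n (T.l (nat_lit 26) (nat_lit 0)) (T.l (nat_lit 26) (nat_lit 16)))))) (T.n (T.n (T.n (T.l (nat_lit 26) (nat_lit 26)) (T.n (T.l (nat_lit 34) (nat_lit 0)) (T.l (nat_lit 34) (nat_lit 16)))) (T.n (T.l (nat_lit 34) (nat_lit 34)) (T.n (T.l (nat_lit 38) (nat_lit 0)) (T.l (nat_lit 38) (nat_lit 16))))) (T.n (T.n (T.l (nat_lit 38) (nat_lit 38)) (T.n (T.l (nat_lit 57) (nat_lit 0)) (T.l (nat_lit 57) (nat_lit 16)))) (T.n (T.n (T.l (nat_lit 57) (nat_lit 57)) (T.l (nat_lit 58) (nat_lit 0)))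 (T.n (T.l (nat_lit 58) (nat_lit 16)) (T.l (nat_lit 58) (nat_lit 58))))))
def T28_3 : T := T.n (T.n (T.n (T.l (nat_lit 0) (nat_lit 32)) (T.l (nat_lit 0) (nat_lit 45))) (T.n (T.l (nat_lit 16) (nat_lit 45)) (T.n (T.l (nat_lit 16) (nat_lit 48)) (T.l (nat_lit 32) (nat_lit 0))))) (T.n (T.n (T.l (nat_lit 32) (nat_lit 32)) (T.l (nat_lit 45) (nat_lit 0))) (T.n (T.l (nat_lit 45) (nat_lit 16)) (T.n (T.l (nat_lit 48) (nat_lit 16)) (T.l (nat_lit 48) (nat_lit 48)))))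
def T29_3 : T := T.n (T.n (T.l (nat_lit 0) (nat_lit 48)) (T.l (nat_lit 16) (nat_lit 32))) (T.n (T.l (nat_lit 32) (nat_lit 16)) (T.n (T.l (nat_lit 45) (nat_lit 45)) (T.l (nat_lit 48) (nat_lit 0))))
def T32_3 : T := T.n (T.n (T.n (T.n (T.l (nat_lit 1) (nat_lit 2)) (T.l (nat_lit 1) (nat_lit 25))) (T.n (T.l (nat_lit 2) (nat_lit 1)) (T.n (T.l (nat_lit 4) (nat_lit 6)) (T.l (nat_lit 4) (nat_lit 56))))) (T.n (T.n (T.l (nat_lit 6) (nat_lit 4)) (T.l (nat_lit 15) (nat_lit 17))) (T.n (T.l (nat_lit 15) (nat_lit 24)) (T.n (T.l (nat_lit 17) (nat_lit 15)) (T.l (nat_lit 20) (nat_lit 22)))))) (T.n (T.n (T.n (T.l (nat_lit 22) (nat_lit 20)) (T.l (nat_lit 22) (nat_lit 49))) (T.n (T.l (nat_lit 24) (nat_lit 15)) (T.n (T.l (nat_lit 25) (nat_lit 1)) (T.l (nat_lit 31) (nat_lit 40))))) (T.n (T.n (T.l (nat_lit 40) (nat_lit 31)) (T.l (nat_lit 40) (nat_lit 52))) (T.n (T.l (nat_lit 49) (nat_lit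 22)) (T.n (T.l (nat_lit 52) (nat_lit 40)) (T.l (nat_lit 56) (nat_lit 4))))))
def T33_3 : T := T.n (T.n (T.n (T.n (T.l (nat_lit 3) (nat_lit 42)) (T.l (nat_lit 5) (nat_lit 9))) (T.n (T.l (nat_lit 7) (nat_lit 10)) (T.n (T.l (nat_lit 9) (nat_lit 5)) (T.l (nat_lit 10) (nat_lit 7))))) (T.n (T.n (T.l (nat_lit 12) (nat_lit 18)) (T.l (nat_lit 13) (nat_lit 23))) (T.n (T.l (nat_lit 18) (nat_lit 12)) (T.n (T.l (nat_lit 19) (nat_lit 37)) (T.l (nat_lit 23) (nat_lit 13)))))) (T.n (T.n (T.n (T.l (nat_lit 28) (nat_lit 39)) (T.l (nat_lit 29) (nat_lit 51))) (T.n (T.l (nat_lit 35) (nat_lit 53)) (T.n (T.l (nat_lit 37) (nat_lit 19)) (T.l (nat_lit 39) (nat_lit 28))))) (T.n (T.n (T.l (nat_lit 42) (nat_lit 3)) (T.l (nat_lit 44) (nat_lit 55))) (T.n (T.l (nat_lit 51) (nat_lit 29)) (T.n (T.l (nat_lit 53) (nat_lit 35)) (T.l (nat_lit 55) (nat_lit 44))))))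
def T40_3 : T := T.n (T.n (T.n (T.n (T.l (nat_lit 3) (nat_lit 5)) (T.l (nat_lit 3) (nat_lit 7))) (T.n (T.l (nat_lit 5) (nat_lit 3)) (T.n (T.l (nat_lit 5) (nat_lit 55)) (T.l (nat_lit 7) (nat_lit 3))))) (T.n (T.n (T.l (nat_lit 7) (nat_lit 12)) (T.l (nat_lit 12) (nat_lit 7))) (T.n (T.l (nat_lit 12) (nat_lit 19)) (T.n (T.l (nat_lit 13) (nat_lit 19)) (T.l (nat_lit 13) (nat_lit 28)))))) (T.n (T.n (T.n (T.l (nat_lit 19) (nat_lit 12)) (T.l (nat_lit 19) (nat_lit 13))) (T.n (T.l (nat_lit 28) (nat_lit 13)) (T.n (T.l (nat_lit 28) (nat_lit 53)) (T.l (nat_lit 29) (nat_lit 53))))) (T.n (T.n (T.l (nat_lit 29) (nat_lit 55)) (T.l (nat_lit 53) (nat_lit 28))) (T.n (T.l (nat_lit 53) (nat_lit 29)) (T.n (T.l (nat_lit 55) (nat_lit 5)) (T.l (nat_lit 55) (nat_lit 29))))))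
def T41_3 : T := T.n (T.n (T.n (T.l (nat_lit 1) (nat_lit 4)) (T.l (nat_lit 1) (nat_lit 40))) (T.n (T.l (nat_lit 4) (nat_lit 1)) (T.n (T.l (nat_lit 4) (nat_lit 15)) (T.l (nat_lit 15) (nat_lit 4))))) (T.n (T.n (T.l (nat_lit 15) (nat_lit 22)) (T.l (nat_lit 22) (nat_lit 15))) (T.n (T.l (nat_lit 22) (nat_lit 40)) (T.n (T.l (nat_lit 40) (nat_lit 1)) (T.l (nat_lit 40) (nat_lit 22)))))
def T42_3 : T := T.n (T.n (T.n (T.n (T.n (T.l (nat_lit 2) (nat_lit 5)) (T.l (nat_lit 2) (nat_lit 29))) (T.n (T.l (nat_lit 3) (nat_lit 17)) (T.n (T.l (nat_lit 3) (nat_lit 31)) (T.l (nat_lit 5) (nat_lit 2))))) (T.n (T.n (T.l (nat_lit 5) (nat_lit 49)) (T.l (nat_lit 6) (nat_lit 7))) (T.n (T.l (nat_lit 6) (nat_lit 19)) (T.n (T.l (nat_lit 7) (nat_lit 6)) (T.l (nat_lit 7) (nat_lit 49)))))) (T.n (T.n (T.n (T.l (nat_lit 12) (nat_lit 17)) (T.l (nat_lit 12) (nat_lit 25))) (T.n (T.l (nat_lit 13) (nat_lit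 20)) (T.n (T.l (nat_lit 13) (nat_lit 25)) (T.l (nat_lit 17) (nat_lit 3))))) (T.n (T.n (T.l (nat_lit 17) (nat_lit 12)) (T.l (nat_lit 19) (nat_lit 6))) (T.n (T.l (nat_lit 19) (nat_lit 52)) (T.n (T.l (nat_lit 20) (nat_lit 13)) (T.l (nat_lit 20) (nat_lit 53))))))) (T.n (T.n (T.n (T.n (T.l (nat_lit 24) (nat_lit 28)) (T.l (nat_lit 24) (nat_lit 29))) (T.n (T.l (nat_lit 25) (nat_lit 12)) (T.n (T.l (nat_lit 25) (nat_lit 13)) (T.l (nat_lit 28) (nat_lit 24))))) (T.n (T.n (T.l (nat_lit 28) (nat_lit 52)) (T.l (nat_lit 29) (nat_lit 2))) (T.n (T.l (nat_lit 29) (nat_lit 24)) (T.n (T.l (nat_lit 31) (nat_lit 3)) (T.l (nat_lit 31) (nat_lit 55)))))) (T.n (T.n (T.n (T.l (nat_lit 49) (nat_lit 5)) (T.l (nat_lit 49) (nat_lit 7))) (T.n (T.l (nat_lit 52) (nat_lit 19)) (T.n (T.l (nat_lit 52) (nat_lit 28)) (T.l (nat_lit 53) (nat_lit 20))))) (T.n (T.n (T.l (nat_lit 53) (nat_lit 56)) (T.l (nat_lit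 55) (nat_lit 31))) (T.n (T.l (nat_lit 55) (nat_lit 56)) (T.n (T.l (nat_lit 56) (nat_lit 53)) (T.l (nat_lit 56) (nat_lit 55)))))))
def T44_3 : T := T.n (T.n (T.n (T.n (T.l (nat_lit 9) (nat_lit 10)) (T.l (nat_lit 9) (nat_lit 51))) (T.n (T.l (nat_lit 10) (nat_lit 9)) (T.n (T.l (nat_lit 10) (nat_lit 37)) (T.l (nat_lit 18) (nat_lit 23))))) (T.n (T.n (T.l (nat_lit 18) (nat_lit 42)) (T.l (nat_lit 23) (nat_lit 18))) (T.n (T.l (nat_lit 23) (nat_lit 35)) (T.n (T.l (nat_lit 35) (nat_lit 23)) (T.l (nat_lit 35) (nat_lit 44)))))) (T.n (T.n (T.n (T.l (nat_lit 37) (nat_lit 10)) (T.l (nat_lit 37) (nat_lit 39))) (T.n (T.l (nat_lit 39) (nat_lit 37)) (T.n (T.l (nat_lit 39) (nat_lit 51)) (T.l (nat_lit 42) (nat_lit 18))))) (T.n (T.n (T.l (nat_lit 42) (nat_lit 44)) (T.l (nat_lit 44) (nat_lit 35))) (T.n (T.l (nat_lit 44) (nat_lit 42)) (T.n (T.l (nat_lit 51) (nat_lit 9)) (T.l (nat_lit 51)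 (nat_lit 39))))))
def T46_3 : T := T.n (T.n (T.n (T.l (nat_lit 1) (nat_lit 14)) (T.l (nat_lit 4) (nat_lit 59))) (T.n (T.l (nat_lit 11) (nat_lit 22)) (T.n (T.l (nat_lit 14) (nat_lit 1)) (T.l (nat_lit 15) (nat_lit 27))))) (T.n (T.n (T.l (nat_lit 22) (nat_lit 11)) (T.l (nat_lit 27) (nat_lit 15))) (T.n (T.l (nat_lit 40) (nat_lit 43)) (T.n (T.l (nat_lit 43) (nat_lit 40)) (T.l (nat_lit 59) (nat_lit 4)))))
def T47_3 : T := T.n (T.n (T.n (T.n (T.l (nat_lit 2) (nat_lit 14)) (T.l (nat_lit 6) (nat_lit 59))) (T.n (T.l (nat_lit 11) (nat_lit 20)) (T.n (T.l (nat_lit 11) (nat_lit 49)) (T.l (nat_lit 14) (nat_lit 2))))) (T.n (T.n (T.l (nat_lit 14) (nat_lit 25)) (T.l (nat_lit 17) (nat_lit 27))) (T.n (T.l (nat_lit 20) (nat_lit 11)) (T.n (T.l (nat_lit 24) (nat_lit 27)) (T.l (nat_lit 25) (nat_lit 14)))))) (T.n (T.n (T.n (T.l (nat_lit 27) (nat_lit 17)) (T.l (nat_lit 27) (nat_lit 24))) (T.n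 (T.l (nat_lit 31) (nat_lit 43)) (T.n (T.l (nat_lit 43) (nat_lit 31)) (T.l (nat_lit 43) (nat_lit 52))))) (T.n (T.n (T.l (nat_lit 49) (nat_lit 11)) (T.l (nat_lit 52) (nat_lit 43))) (T.n (T.l (nat_lit 56) (nat_lit 59)) (T.n (T.l (nat_lit 59) (nat_lit 6)) (T.l (nat_lit 59) (nat_lit 56))))))
def T48_3 : T := T.n (T.n (T.n (T.n (T.l (nat_lit 9) (nat_lit 43)) (T.l (nat_lit 10) (nat_lit 27))) (T.n (T.l (nat_lit 11) (nat_lit 39)) (T.n (T.l (nat_lit 11) (nat_lit 42)) (T.l (nat_lit 14) (nat_lit 37))))) (T.n (T.n (T.l (nat_lit 14) (nat_lit 44)) (T.l (nat_lit 18) (nat_lit 59))) (T.n (T.l (nat_lit 23) (nat_lit 43)) (T.n (T.l (nat_lit 27) (nat_lit 10)) (T.l (nat_lit 27) (nat_lit 35)))))) (T.n (T.n (T.n (T.l (nat_lit 35) (nat_lit 27)) (T.l (nat_lit 37) (nat_lit 14))) (T.n (T.l (nat_lit 39) (nat_lit 11)) (T.n (T.l (nat_lit 42) (nat_lit 11)) (T.l (nat_lit 43) (nat_lit 9))))) (T.n (T.n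 (T.l (nat_lit 43) (nat_lit 23)) (T.l (nat_lit 44) (nat_lit 14))) (T.n (T.l (nat_lit 51) (nat_lit 59)) (T.n (T.l (nat_lit 59) (nat_lit 18)) (T.l (nat_lit 59) (nat_lit 51))))))
def T49_3 : T := T.n (T.n (T.n (T.l (nat_lit 1) (nat_lit 15)) (T.l (nat_lit 1) (nat_lit 22))) (T.n (T.l (nat_lit 4) (nat_lit 22)) (T.n (T.l (nat_lit 4) (nat_lit 40)) (T.l (nat_lit 15) (nat_lit 1))))) (T.n (T.n (T.l (nat_lit 15) (nat_lit 40)) (T.l (nat_lit 22) (nat_lit 1))) (T.n (T.l (nat_lit 22) (nat_lit 4)) (T.n (T.l (nat_lit 40) (nat_lit 4)) (T.l (nat_lit 40) (nat_lit 15)))))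
def T50_3 : T := T.n (T.n (T.n (T.n (T.n (T.l (nat_lit 1) (nat_lit 17)) (T.n (T.l (nat_lit 1) (nat_lit 20)) (T.l (nat_lit 1) (nat_lit 24)))) (T.n (T.n (T.l (nat_lit 1) (nat_lit 49)) (T.l (nat_lit 2) (nat_lit 15))) (T.n (T.l (nat_lit 2) (nat_lit 17)) (T.l (nat_lit 2) (nat_lit 20))))) (T.n (T.n (T.n (T.l (nat_lit 2) (nat_lit 22)) (T.l (nat_lit 4) (nat_lit 20))) (T.n (T.l (nat_lit 4) (nat_lit 31)) (T.l (nat_lit 4) (nat_lit 49)))) (T.n (T.n (T.l (nat_lit 4) (nat_lit 52)) (T.l (nat_lit 6) (nat_lit 20))) (T.n (T.l (nat_lit 6) (nat_lit 22)) (T.l (nat_lit 6) (nat_lit 31)))))) (T.n (T.n (T.n (T.l (nat_lit 6) (nat_lit 40)) (T.n (T.l (nat_lit 15) (nat_lit 2)) (T.l (nat_lit 15) (nat_lit 25)))) (T.n (T.n (T.l (nat_lit 15) (nat_lit 31)) (T.l (nat_lit 15) (nat_lit 52))) (T.n (T.l (nat_lit 17) (nat_lit 1)) (T.l (nat_lit 17) (nat_lit 2))))) (T.n (T.n (T.n (T.l (nat_lit 17) (nat_lit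 40)) (T.l (nat_lit 17) (nat_lit 52))) (T.n (T.l (nat_lit 20) (nat_lit 1)) (T.l (nat_lit 20) (nat_lit 2)))) (T.n (T.n (T.l (nat_lit 20) (nat_lit 4)) (T.l (nat_lit 20) (nat_lit 6))) (T.n (T.l (nat_lit 22) (nat_lit 2)) (T.l (nat_lit 22) (nat_lit 6))))))) (T.n (T.n (T.n (T.n (T.l (nat_lit 22) (nat_lit 25)) (T.n (T.l (nat_lit 22) (nat_lit 56)) (T.l (nat_lit 24) (nat_lit 1)))) (T.n (T.n (T.l (nat_lit 24) (nat_lit 25)) (T.l (nat_lit 24) (nat_lit 31))) (T.n (T.l (nat_lit 24) (nat_lit 40)) (T.l (nat_lit 25) (nat_lit 15))))) (T.n (T.n (T.n (T.l (nat_lit 25) (nat_lit 22)) (T.l (nat_lit 25) (nat_lit 24))) (T.n (T.l (nat_lit 25) (nat_lit 49)) (T.l (nat_lit 31) (nat_lit 4)))) (T.n (T.n (T.l (nat_lit 31) (nat_lit 6)) (T.l (nat_lit 31) (nat_lit 15))) (T.n (T.l (nat_lit 31) (nat_lit 24)) (T.l (nat_lit 40) (nat_lit 6)))))) (T.n (T.n (T.n (T.l (nat_lit 40) (nat_lit 17)) (T.n (T.l (nat_lit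 40) (nat_lit 24)) (T.l (nat_lit 40) (nat_lit 56)))) (T.n (T.n (T.l (nat_lit 49) (nat_lit 1)) (T.l (nat_lit 49) (nat_lit 4))) (T.n (T.l (nat_lit 49) (nat_lit 25)) (T.l (nat_lit 49) (nat_lit 56))))) (T.n (T.n (T.n (T.l (nat_lit 52) (nat_lit 4)) (T.l (nat_lit 52) (nat_lit 15))) (T.n (T.l (nat_lit 52) (nat_lit 17)) (T.l (nat_lit 52) (nat_lit 56)))) (T.n (T.n (T.l (nat_lit 56) (nat_lit 22)) (T.l (nat_lit 56) (nat_lit 40))) (T.n (T.l (nat_lit 56) (nat_lit 49)) (T.l (nat_lit 56) (nat_lit 52)))))))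
def T51_3 : T := T.n (T.n (T.n (T.n (T.l (nat_lit 1) (nat_lit 19)) (T.l (nat_lit 1) (nat_lit 55))) (T.n (T.l (nat_lit 3) (nat_lit 22)) (T.n (T.l (nat_lit 4) (nat_lit 12)) (T.l (nat_lit 4) (nat_lit 29))))) (T.n (T.n (T.l (nat_lit 5) (nat_lit 40)) (T.l (nat_lit 7) (nat_lit 15))) (T.n (T.l (nat_lit 12) (nat_lit 4)) (T.n (T.l (nat_lit 13) (nat_lit 40)) (T.l (nat_lit 15) (nat_lit 7)))))) (T.n (T.n (T.n (T.l (nat_lit 15) (nat_lit 53)) (T.l (nat_lit 19) (nat_lit 1))) (T.n (T.l (nat_lit 22) (nat_lit 3)) (T.n (T.l (nat_lit 22) (nat_lit 28)) (T.l (nat_lit 28) (nat_lit 22))))) (T.n (T.n (T.l (nat_lit 29) (nat_lit 4)) (T.l (nat_lit 40) (nat_lit 5))) (T.n (T.l (nat_lit 40) (nat_lit 13)) (T.n (T.l (nat_lit 53) (nat_lit 15)) (T.l (nat_lit 55) (nat_lit 1))))))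
def T52_3 : T := T.n (T.n (T.n (T.n (T.l (nat_lit 1) (nat_lit 58)) (T.n (T.l (nat_lit 3) (nat_lit 34)) (T.l (nat_lit 4) (nat_lit 26)))) (T.n (T.n (T.l (nat_lit 5) (nat_lit 38)) (T.l (nat_lit 7) (nat_lit 57))) (T.n (T.l (nat_lit 12) (nat_lit 26)) (T.l (nat_lit 13) (nat_lit 38))))) (T.n (T.n (T.n (T.l (nat_lit 15) (nat_lit 57)) (T.l (nat_lit 19) (nat_lit 58))) (T.n (T.l (nat_lit 22) (nat_lit 34)) (T.l (nat_lit 26) (nat_lit 4)))) (T.n (T.n (T.l (nat_lit 26) (nat_lit 12)) (T.l (nat_lit 26) (nat_lit 29))) (T.n (T.l (nat_lit 28) (nat_lit 34)) (T.l (nat_lit 29) (nat_lit 26)))))) (T.n (T.n (T.n (T.l (nat_lit 34) (nat_lit 3)) (T.n (T.l (nat_lit 34) (nat_lit 22)) (T.l (nat_lit 34) (nat_lit 28)))) (T.n (T.n (T.l (nat_lit 38) (nat_lit 5)) (T.l (nat_lit 38) (nat_lit 13))) (T.n (T.l (nat_lit 38) (nat_lit 40)) (T.l (nat_lit 40) (nat_lit 38))))) (T.n (T.n (T.n (T.l (nat_lit 53) (nat_lit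 57)) (T.l (nat_lit 55) (nat_lit 58))) (T.n (T.l (nat_lit 57) (nat_lit 7)) (T.l (nat_lit 57) (nat_lit 15)))) (T.n (T.n (T.l (nat_lit 57) (nat_lit 53)) (T.l (nat_lit 58) (nat_lit 1))) (T.n (T.l (nat_lit 58) (nat_lit 19)) (T.l (nat_lit 58) (nat_lit 55))))))
def T53_3 : T := T.n (T.n (T.n (T.n (T.l (nat_lit 1) (nat_lit 37)) (T.n (T.l (nat_lit 1) (nat_lit 44)) (T.l (nat_lit 4) (nat_lit 18)))) (T.n (T.n (T.l (nat_lit 4) (nat_lit 51)) (T.l (nat_lit 9) (nat_lit 23))) (T.n (T.l (nat_lit 9) (nat_lit 40)) (T.l (nat_lit 10) (nat_lit 15))))) (T.n (T.n (T.n (T.l (nat_lit 10) (nat_lit 35)) (T.l (nat_lit 15) (nat_lit 10))) (T.n (T.l (nat_lit 15) (nat_lit 35)) (T.l (nat_lit 18) (nat_lit 4)))) (T.n (T.n (T.l (nat_lit 18) (nat_lit 51)) (T.l (nat_lit 22) (nat_lit 39))) (T.n (T.l (nat_lit 22) (nat_lit 42)) (T.l (nat_lit 23) (nat_lit 9)))))) (T.n (T.n (T.n (T.l (nat_lit 23) (nat_lit 40))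 (T.n (T.l (nat_lit 35) (nat_lit 10)) (T.l (nat_lit 35) (nat_lit 15)))) (T.n (T.n (T.l (nat_lit 37) (nat_lit 1)) (T.l (nat_lit 37) (nat_lit 44))) (T.n (T.l (nat_lit 39) (nat_lit 22)) (T.l (nat_lit 39) (nat_lit 42))))) (T.n (T.n (T.n (T.l (nat_lit 40) (nat_lit 9)) (T.l (nat_lit 40) (nat_lit 23))) (T.n (T.l (nat_lit 42) (nat_lit 22)) (T.l (nat_lit 42) (nat_lit 39)))) (T.n (T.n (T.l (nat_lit 44) (nat_lit 1)) (T.l (nat_lit 44) (nat_lit 37))) (T.n (T.l (nat_lit 51) (nat_lit 4)) (T.l (nat_lit 51) (nat_lit 18))))))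
def T54_3 : T := T.n (T.n (T.n (T.n (T.l (nat_lit 1) (nat_lit 45)) (T.n (T.l (nat_lit 3) (nat_lit 48)) (T.l (nat_lit 4) (nat_lit 45)))) (T.n (T.n (T.l (nat_lit 5) (nat_lit 32)) (T.l (nat_lit 7) (nat_lit 32))) (T.n (T.l (nat_lit 12) (nat_lit 48)) (T.l (nat_lit 13) (nat_lit 48))))) (T.n (T.n (T.n (T.l (nat_lit 15) (nat_lit 45)) (T.l (nat_lit 19) (nat_lit 32))) (T.n (T.l (nat_lit 22) (nat_lit 45)) (T.l (nat_lit 28) (nat_lit 32)))) (T.n (T.n (T.l (nat_lit 29) (nat_lit 32)) (T.l (nat_lit 32) (nat_lit 5))) (T.n (T.l (nat_lit 32) (nat_lit 7)) (T.l (nat_lit 32) (nat_lit 19)))))) (T.n (T.n (T.n (T.l (nat_lit 32) (nat_lit 28)) (T.n (T.l (nat_lit 32) (nat_lit 29)) (T.l (nat_lit 40) (nat_lit 45)))) (T.n (T.n (T.l (nat_lit 45) (nat_lit 1)) (T.l (nat_lit 45) (nat_lit 4))) (T.n (T.l (nat_lit 45) (nat_lit 15)) (T.l (nat_lit 45) (nat_lit 22))))) (T.n (T.n (T.n (T.l (nat_lit 45) (nat_lit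 40)) (T.l (nat_lit 48) (nat_lit 3))) (T.n (T.l (nat_lit 48) (nat_lit 12)) (T.l (nat_lit 48) (nat_lit 13)))) (T.n (T.n (T.l (nat_lit 48) (nat_lit 53)) (T.l (nat_lit 48) (nat_lit 55))) (T.n (T.l (nat_lit 53) (nat_lit 48)) (T.l (nat_lit 55) (nat_lit 48))))))
def T55_3 : T := T.n (T.n (T.n (T.n (T.n (T.l (nat_lit 2) (nat_lit 18)) (T.l (nat_lit 2) (nat_lit 23))) (T.n (T.l (nat_lit 6) (nat_lit 35)) (T.n (T.l (nat_lit 6) (nat_lit 44)) (T.l (nat_lit 9) (nat_lit 20))))) (T.n (T.n (T.l (nat_lit 9) (nat_lit 25)) (T.l (nat_lit 10) (nat_lit 20))) (T.n (T.l (nat_lit 10) (nat_lit 56)) (T.n (T.l (nat_lit 17) (nat_lit 39)) (T.l (nat_lit 17) (nat_lit 51)))))) (T.n (T.n (T.n (T.l (nat_lit 18) (nat_lit 2)) (T.l (nat_lit 18) (nat_lit 24))) (T.n (T.l (nat_lit 20) (nat_lit 9)) (T.n (T.l (nat_lit 20) (nat_lit 10)) (T.l (nat_lit 23) (nat_lit 2))))) (T.n (T.n (T.l (nat_lit 23) (nat_lit 49))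 (T.l (nat_lit 24) (nat_lit 18))) (T.n (T.l (nat_lit 24) (nat_lit 42)) (T.n (T.l (nat_lit 25) (nat_lit 9)) (T.l (nat_lit 25) (nat_lit 51))))))) (T.n (T.n (T.n (T.n (T.l (nat_lit 31) (nat_lit 37)) (T.l (nat_lit 31) (nat_lit 39))) (T.n (T.l (nat_lit 35) (nat_lit 6)) (T.n (T.l (nat_lit 35) (nat_lit 49)) (T.l (nat_lit 37) (nat_lit 31))))) (T.n (T.n (T.l (nat_lit 37) (nat_lit 56)) (T.l (nat_lit 39) (nat_lit 17))) (T.n (T.l (nat_lit 39) (nat_lit 31)) (T.n (T.l (nat_lit 42) (nat_lit 24)) (T.l (nat_lit 42) (nat_lit 52)))))) (T.n (T.n (T.n (T.l (nat_lit 44) (nat_lit 6)) (T.l (nat_lit 44) (nat_lit 52))) (T.n (T.l (nat_lit 49) (nat_lit 23)) (T.n (T.l (nat_lit 49) (nat_lit 35)) (T.l (nat_lit 51) (nat_lit 17))))) (T.n (T.n (T.l (nat_lit 51) (nat_lit 25)) (T.l (nat_lit 52) (nat_lit 42))) (T.n (T.l (nat_lit 52) (nat_lit 44)) (T.n (T.l (nat_lit 56) (nat_lit 10)) (T.l (nat_lit 56)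 (nat_lit 37)))))))
def T56_3 : T := T.n (T.n (T.n (T.l (nat_lit 2) (nat_lit 25)) (T.l (nat_lit 6) (nat_lit 56))) (T.n (T.l (nat_lit 17) (nat_lit 24)) (T.n (T.l (nat_lit 20) (nat_lit 49)) (T.l (nat_lit 24) (nat_lit 17))))) (T.n (T.n (T.l (nat_lit 25) (nat_lit 2)) (T.l (nat_lit 31) (nat_lit 52))) (T.n (T.l (nat_lit 49) (nat_lit 20)) (T.n (T.l (nat_lit 52) (nat_lit 31)) (T.l (nat_lit 56) (nat_lit 6)))))
def T57_3 : T := T.n (T.n (T.n (T.n (T.n (T.n (T.l (nat_lit 2) (nat_lit 31)) (T.l (nat_lit 2) (nat_lit 35))) (T.n (T.l (nat_lit 2) (nat_lit 42)) (T.n (T.l (nat_lit 2) (nat_lit 56)) (T.l (nat_lit 6) (nat_lit 17))))) (T.n (T.n (T.l (nat_lit 6) (nat_lit 23)) (T.l (nat_lit 6) (nat_lit 25))) (T.n (T.l (nat_lit 6) (nat_lit 42)) (T.n (T.l (nat_lit 9) (nat_lit 17)) (T.l (nat_lit 9) (nat_lit 42)))))) (T.n (T.n (T.n (T.l (nat_lit 9) (nat_lit 44)) (T.l (nat_lit 9) (nat_lit 56)))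 (T.n (T.l (nat_lit 10) (nat_lit 18)) (T.n (T.l (nat_lit 10) (nat_lit 25)) (T.l (nat_lit 10) (nat_lit 31))))) (T.n (T.n (T.l (nat_lit 10) (nat_lit 42)) (T.l (nat_lit 17) (nat_lit 6))) (T.n (T.l (nat_lit 17) (nat_lit 9)) (T.n (T.l (nat_lit 17) (nat_lit 37)) (T.l (nat_lit 17) (nat_lit 49))))))) (T.n (T.n (T.n (T.n (T.l (nat_lit 18) (nat_lit 10)) (T.l (nat_lit 18) (nat_lit 37))) (T.n (T.l (nat_lit 18) (nat_lit 49)) (T.n (T.l (nat_lit 18) (nat_lit 52)) (T.l (nat_lit 20) (nat_lit 24))))) (T.n (T.n (T.l (nat_lit 20) (nat_lit 37)) (T.l (nat_lit 20) (nat_lit 51))) (T.n (T.l (nat_lit 20) (nat_lit 52)) (T.n (T.l (nat_lit 23) (nat_lit 6)) (T.l (nat_lit 23) (nat_lit 24)))))) (T.n (T.n (T.n (T.l (nat_lit 23) (nat_lit 37)) (T.l (nat_lit 23) (nat_lit 39))) (T.n (T.l (nat_lit 24) (nat_lit 20)) (T.n (T.l (nat_lit 24) (nat_lit 23)) (T.l (nat_lit 24) (nat_lit 44))))) (T.n (T.n (T.l (nat_lit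 24) (nat_lit 56)) (T.l (nat_lit 25) (nat_lit 6))) (T.n (T.l (nat_lit 25) (nat_lit 10)) (T.n (T.l (nat_lit 25) (nat_lit 39)) (T.l (nat_lit 25) (nat_lit 52)))))))) (T.n (T.n (T.n (T.n (T.n (T.l (nat_lit 31) (nat_lit 2)) (T.l (nat_lit 31) (nat_lit 10))) (T.n (T.l (nat_lit 31) (nat_lit 49)) (T.n (T.l (nat_lit 31) (nat_lit 51)) (T.l (nat_lit 35) (nat_lit 2))))) (T.n (T.n (T.l (nat_lit 35) (nat_lit 39)) (T.l (nat_lit 35) (nat_lit 51))) (T.n (T.l (nat_lit 35) (nat_lit 52)) (T.n (T.l (nat_lit 37) (nat_lit 17)) (T.l (nat_lit 37) (nat_lit 18)))))) (T.n (T.n (T.n (T.l (nat_lit 37) (nat_lit 20)) (T.l (nat_lit 37) (nat_lit 23))) (T.n (T.l (nat_lit 39) (nat_lit 23)) (T.n (T.l (nat_lit 39) (nat_lit 25)) (T.l (nat_lit 39) (nat_lit 35))))) (T.n (T.n (T.l (nat_lit 39) (nat_lit 56)) (T.l (nat_lit 42) (nat_lit 2))) (T.n (T.l (nat_lit 42) (nat_lit 6)) (T.n (T.l (nat_lit 42) (nat_lit 9))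 (T.l (nat_lit 42) (nat_lit 10))))))) (T.n (T.n (T.n (T.n (T.l (nat_lit 44) (nat_lit 9)) (T.l (nat_lit 44) (nat_lit 24))) (T.n (T.l (nat_lit 44) (nat_lit 49)) (T.n (T.l (nat_lit 44) (nat_lit 51)) (T.l (nat_lit 49) (nat_lit 17))))) (T.n (T.n (T.l (nat_lit 49) (nat_lit 18)) (T.l (nat_lit 49) (nat_lit 31))) (T.n (T.l (nat_lit 49) (nat_lit 44)) (T.n (T.l (nat_lit 51) (nat_lit 20)) (T.l (nat_lit 51) (nat_lit 31)))))) (T.n (T.n (T.n (T.l (nat_lit 51) (nat_lit 35)) (T.l (nat_lit 51) (nat_lit 44))) (T.n (T.l (nat_lit 52) (nat_lit 18)) (T.n (T.l (nat_lit 52) (nat_lit 20)) (T.l (nat_lit 52) (nat_lit 25))))) (T.n (T.n (T.l (nat_lit 52) (nat_lit 35)) (T.l (nat_lit 56) (nat_lit 2))) (T.n (T.l (nat_lit 56) (nat_lit 9)) (T.n (T.l (nat_lit 56) (nat_lit 24)) (T.l (nat_lit 56) (nat_lit 39))))))))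
def T58_3 : T := T.n (T.n (T.n (T.n (T.n (T.l (nat_lit 2) (nat_lit 36)) (T.l (nat_lit 2) (nat_lit 50))) (T.n (T.l (nat_lit 6) (nat_lit 50)) (T.n (T.l (nat_lit 6) (nat_lit 54)) (T.l (nat_lit 8) (nat_lit 25))))) (T.n (T.n (T.l (nat_lit 8) (nat_lit 56)) (T.l (nat_lit 17) (nat_lit 30))) (T.n (T.l (nat_lit 17) (nat_lit 33)) (T.n (T.l (nat_lit 20) (nat_lit 33)) (T.l (nat_lit 20) (nat_lit 47)))))) (T.n (T.n (T.n (T.l (nat_lit 21) (nat_lit 24)) (T.l (nat_lit 21) (nat_lit 49))) (T.n (T.l (nat_lit 24) (nat_lit 21)) (T.n (T.l (nat_lit 24) (nat_lit 54)) (T.l (nat_lit 25) (nat_lit 8))))) (T.n (T.n (T.l (nat_lit 25) (nat_lit 41)) (T.l (nat_lit 30) (nat_lit 17))) (T.n (T.l (nat_lit 30) (nat_lit 56)) (T.n (T.l (nat_lit 31) (nat_lit 41)) (T.l (nat_lit 31) (nat_lit 47))))))) (T.n (T.n (T.n (T.n (T.l (nat_lit 33) (nat_lit 17)) (T.l (nat_lit 33) (nat_lit 20))) (T.n (T.l (nat_lit 36)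 (nat_lit 2)) (T.n (T.l (nat_lit 36) (nat_lit 52)) (T.l (nat_lit 41) (nat_lit 25))))) (T.n (T.n (T.l (nat_lit 41) (nat_lit 31)) (T.l (nat_lit 46) (nat_lit 49))) (T.n (T.l (nat_lit 46) (nat_lit 52)) (T.n (T.l (nat_lit 47) (nat_lit 20)) (T.l (nat_lit 47) (nat_lit 31)))))) (T.n (T.n (T.n (T.l (nat_lit 49) (nat_lit 21)) (T.l (nat_lit 49) (nat_lit 46))) (T.n (T.l (nat_lit 50) (nat_lit 2)) (T.n (T.l (nat_lit 50) (nat_lit 6)) (T.l (nat_lit 52) (nat_lit 36))))) (T.n (T.n (T.l (nat_lit 52) (nat_lit 46)) (T.l (nat_lit 54) (nat_lit 6))) (T.n (T.l (nat_lit 54) (nat_lit 24)) (T.n (T.l (nat_lit 56) (nat_lit 8)) (T.l (nat_lit 56) (nat_lit 30)))))))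
def T59_3 : T := T.n (T.n (T.n (T.n (T.l (nat_lit 3) (nat_lit 19)) (T.l (nat_lit 3) (nat_lit 29))) (T.n (T.l (nat_lit 5) (nat_lit 12)) (T.n (T.l (nat_lit 5) (nat_lit 53)) (T.l (nat_lit 7) (nat_lit 13))))) (T.n (T.n (T.l (nat_lit 7) (nat_lit 55)) (T.l (nat_lit 12) (nat_lit 5))) (T.n (T.l (nat_lit 12) (nat_lit 28)) (T.n (T.l (nat_lit 13) (nat_lit 7)) (T.l (nat_lit 13) (nat_lit 29)))))) (T.n (T.n (T.n (T.l (nat_lit 19) (nat_lit 3)) (T.l (nat_lit 19) (nat_lit 53))) (T.n (T.l (nat_lit 28) (nat_lit 12)) (T.n (T.l (nat_lit 28) (nat_lit 55)) (T.l (nat_lit 29) (nat_lit 3))))) (T.n (T.n (T.l (nat_lit 29) (nat_lit 13)) (T.l (nat_lit 53) (nat_lit 5))) (T.n (T.l (nat_lit 53) (nat_lit 19)) (T.n (T.l (nat_lit 55) (nat_lit 7)) (T.l (nat_lit 55) (nat_lit 28))))))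
def T60_3 : T := T.n (T.n (T.n (T.n (T.n (T.l (nat_lit 3) (nat_lit 37)) (T.n (T.l (nat_lit 3) (nat_lit 51)) (T.l (nat_lit 5) (nat_lit 18)))) (T.n (T.n (T.l (nat_lit 5) (nat_lit 35)) (T.l (nat_lit 7) (nat_lit 23))) (T.n (T.l (nat_lit 7) (nat_lit 44)) (T.l (nat_lit 9) (nat_lit 12))))) (T.n (T.n (T.n (T.l (nat_lit 9) (nat_lit 18)) (T.l (nat_lit 9) (nat_lit 35))) (T.n (T.l (nat_lit 9) (nat_lit 53)) (T.l (nat_lit 10) (nat_lit 13)))) (T.n (T.n (T.l (nat_lit 10) (nat_lit 23)) (T.l (nat_lit 10) (nat_lit 44))) (T.n (T.l (nat_lit 10) (nat_lit 55)) (T.l (nat_lit 12) (nat_lit 9)))))) (T.n (T.n (T.n (T.l (nat_lit 12) (nat_lit 39)) (T.n (T.l (nat_lit 13) (nat_lit 10)) (T.l (nat_lit 13) (nat_lit 51)))) (T.n (T.n (T.l (nat_lit 18) (nat_lit 5)) (T.l (nat_lit 18) (nat_lit 9))) (T.n (T.l (nat_lit 18) (nat_lit 28)) (T.l (nat_lit 18) (nat_lit 39))))) (T.n (T.n (T.n (T.l (nat_lit 19) (nat_lit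 35)) (T.l (nat_lit 19) (nat_lit 42))) (T.n (T.l (nat_lit 23) (nat_lit 7)) (T.l (nat_lit 23) (nat_lit 10)))) (T.n (T.n (T.l (nat_lit 23) (nat_lit 29)) (T.l (nat_lit 23) (nat_lit 51))) (T.n (T.l (nat_lit 28) (nat_lit 18)) (T.l (nat_lit 28) (nat_lit 44))))))) (T.n (T.n (T.n (T.n (T.l (nat_lit 29) (nat_lit 23)) (T.n (T.l (nat_lit 29) (nat_lit 42)) (T.l (nat_lit 35) (nat_lit 5)))) (T.n (T.n (T.l (nat_lit 35) (nat_lit 9)) (T.l (nat_lit 35) (nat_lit 19))) (T.n (T.l (nat_lit 35) (nat_lit 37)) (T.l (nat_lit 37) (nat_lit 3))))) (T.n (T.n (T.n (T.l (nat_lit 37) (nat_lit 35)) (T.l (nat_lit 37) (nat_lit 42))) (T.n (T.l (nat_lit 37) (nat_lit 53)) (T.l (nat_lit 39) (nat_lit 12)))) (T.n (T.n (T.l (nat_lit 39) (nat_lit 18)) (T.l (nat_lit 39) (nat_lit 44))) (T.n (T.l (nat_lit 39) (nat_lit 55)) (T.l (nat_lit 42) (nat_lit 19)))))) (T.n (T.n (T.n (T.l (nat_lit 42) (nat_lit 29)) (T.n (T.l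 (nat_lit 42) (nat_lit 37)) (T.l (nat_lit 42) (nat_lit 51)))) (T.n (T.n (T.l (nat_lit 44) (nat_lit 7)) (T.l (nat_lit 44) (nat_lit 10))) (T.n (T.l (nat_lit 44) (nat_lit 28)) (T.l (nat_lit 44) (nat_lit 39))))) (T.n (T.n (T.n (T.l (nat_lit 51) (nat_lit 3)) (T.l (nat_lit 51) (nat_lit 13))) (T.n (T.l (nat_lit 51) (nat_lit 23)) (T.l (nat_lit 51) (nat_lit 42)))) (T.n (T.n (T.l (nat_lit 53) (nat_lit 9)) (T.l (nat_lit 53) (nat_lit 37))) (T.n (T.l (nat_lit 55) (nat_lit 10)) (T.l (nat_lit 55) (nat_lit 39)))))))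
def T61_3 : T := T.n (T.n (T.n (T.l (nat_lit 3) (nat_lit 28)) (T.l (nat_lit 5) (nat_lit 13))) (T.n (T.l (nat_lit 7) (nat_lit 53)) (T.n (T.l (nat_lit 12) (nat_lit 29)) (T.l (nat_lit 13) (nat_lit 5))))) (T.n (T.n (T.l (nat_lit 19) (nat_lit 55)) (T.l (nat_lit 28) (nat_lit 3))) (T.n (T.l (nat_lit 29) (nat_lit 12)) (T.n (T.l (nat_lit 53) (nat_lit 7)) (T.l (nat_lit 55) (nat_lit 19)))))
def T62_3 : T := T.n (T.n (T.n (T.n (T.n (T.l (nat_lit 3) (nat_lit 14)) (T.l (nat_lit 3) (nat_lit 59))) (T.n (T.l (nat_lit 5) (nat_lit 27)) (T.n (T.l (nat_lit 5) (nat_lit 59)) (T.l (nat_lit 7) (nat_lit 14))))) (T.n (T.n (T.l (nat_lit 7) (nat_lit 43)) (T.l (nat_lit 11) (nat_lit 12))) (T.n (T.l (nat_lit 11) (nat_lit 19)) (T.n (T.l (nat_lit 11) (nat_lit 29)) (T.l (nat_lit 11) (nat_lit 55)))))) (T.n (T.n (T.n (T.l (nat_lit 12) (nat_lit 11)) (T.l (nat_lit 12) (nat_lit 43))) (T.n (T.l (nat_lit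 13) (nat_lit 27)) (T.n (T.l (nat_lit 13) (nat_lit 59)) (T.l (nat_lit 14) (nat_lit 3))))) (T.n (T.n (T.l (nat_lit 14) (nat_lit 7)) (T.l (nat_lit 14) (nat_lit 28))) (T.n (T.l (nat_lit 14) (nat_lit 53)) (T.n (T.l (nat_lit 19) (nat_lit 11)) (T.l (nat_lit 19) (nat_lit 27))))))) (T.n (T.n (T.n (T.n (T.l (nat_lit 27) (nat_lit 5)) (T.l (nat_lit 27) (nat_lit 13))) (T.n (T.l (nat_lit 27) (nat_lit 19)) (T.n (T.l (nat_lit 27) (nat_lit 55)) (T.l (nat_lit 28) (nat_lit 14))))) (T.n (T.n (T.l (nat_lit 28) (nat_lit 59)) (T.l (nat_lit 29) (nat_lit 11))) (T.n (T.l (nat_lit 29) (nat_lit 43)) (T.n (T.l (nat_lit 43) (nat_lit 7)) (T.l (nat_lit 43) (nat_lit 12)))))) (T.n (T.n (T.n (T.l (nat_lit 43) (nat_lit 29)) (T.l (nat_lit 43) (nat_lit 53))) (T.n (T.l (nat_lit 53) (nat_lit 14)) (T.n (T.l (nat_lit 53) (nat_lit 43)) (T.l (nat_lit 55) (nat_lit 11))))) (T.n (T.n (T.l (nat_lit 55) (nat_lit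 27)) (T.l (nat_lit 59) (nat_lit 3))) (T.n (T.l (nat_lit 59) (nat_lit 5)) (T.n (T.l (nat_lit 59) (nat_lit 13)) (T.l (nat_lit 59) (nat_lit 28)))))))
def T63_3 : T := T.n (T.n (T.n (T.n (T.l (nat_lit 3) (nat_lit 8)) (T.l (nat_lit 5) (nat_lit 54))) (T.n (T.l (nat_lit 7) (nat_lit 36)) (T.n (T.l (nat_lit 8) (nat_lit 3)) (T.l (nat_lit 12) (nat_lit 47))))) (T.n (T.n (T.l (nat_lit 13) (nat_lit 30)) (T.l (nat_lit 19) (nat_lit 21))) (T.n (T.l (nat_lit 21) (nat_lit 19)) (T.n (T.l (nat_lit 28) (nat_lit 50)) (T.l (nat_lit 29) (nat_lit 46)))))) (T.n (T.n (T.n (T.l (nat_lit 30) (nat_lit 13)) (T.l (nat_lit 33) (nat_lit 55))) (T.n (T.l (nat_lit 36) (nat_lit 7)) (T.n (T.l (nat_lit 41) (nat_lit 53)) (T.l (nat_lit 46) (nat_lit 29))))) (T.n (T.n (T.l (nat_lit 47) (nat_lit 12)) (T.l (nat_lit 50) (nat_lit 28))) (T.n (T.l (nat_lit 53) (nat_lit 41)) (T.n (T.l (nat_lit 54) (nat_lit 5)) (T.l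 (nat_lit 55) (nat_lit 33))))))
def T64_3 : T := T.n (T.n (T.n (T.n (T.l (nat_lit 3) (nat_lit 50)) (T.n (T.l (nat_lit 5) (nat_lit 30)) (T.l (nat_lit 7) (nat_lit 41)))) (T.n (T.n (T.l (nat_lit 8) (nat_lit 28)) (T.l (nat_lit 8) (nat_lit 50))) (T.n (T.l (nat_lit 12) (nat_lit 46)) (T.l (nat_lit 13) (nat_lit 54))))) (T.n (T.n (T.n (T.l (nat_lit 19) (nat_lit 33)) (T.l (nat_lit 21) (nat_lit 33))) (T.n (T.l (nat_lit 21) (nat_lit 55)) (T.l (nat_lit 28) (nat_lit 8)))) (T.n (T.n (T.l (nat_lit 29) (nat_lit 47)) (T.l (nat_lit 30) (nat_lit 5))) (T.n (T.l (nat_lit 30) (nat_lit 54)) (T.l (nat_lit 33) (nat_lit 19)))))) (T.n (T.n (T.n (T.l (nat_lit 33) (nat_lit 21)) (T.n (T.l (nat_lit 36) (nat_lit 41)) (T.l (nat_lit 36) (nat_lit 53)))) (T.n (T.n (T.l (nat_lit 41) (nat_lit 7)) (T.l (nat_lit 41) (nat_lit 36))) (T.n (T.l (nat_lit 46) (nat_lit 12)) (T.l (nat_lit 46) (nat_lit 47))))) (T.n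 (T.n (T.n (T.l (nat_lit 47) (nat_lit 29)) (T.l (nat_lit 47) (nat_lit 46))) (T.n (T.l (nat_lit 50) (nat_lit 3)) (T.l (nat_lit 50) (nat_lit 8)))) (T.n (T.n (T.l (nat_lit 53) (nat_lit 36)) (T.l (nat_lit 54) (nat_lit 13))) (T.n (T.l (nat_lit 54) (nat_lit 30)) (T.l (nat_lit 55) (nat_lit 21))))))
def T65_3 : T := T.n (T.n (T.n (T.n (T.l (nat_lit 8) (nat_lit 42)) (T.l (nat_lit 9) (nat_lit 54))) (T.n (T.l (nat_lit 10) (nat_lit 36)) (T.n (T.l (nat_lit 18) (nat_lit 47)) (T.l (nat_lit 21) (nat_lit 37))))) (T.n (T.n (T.l (nat_lit 23) (nat_lit 30)) (T.l (nat_lit 30) (nat_lit 23))) (T.n (T.l (nat_lit 33) (nat_lit 44)) (T.n (T.l (nat_lit 35) (nat_lit 41)) (T.l (nat_lit 36) (nat_lit 10)))))) (T.n (T.n (T.n (T.l (nat_lit 37) (nat_lit 21)) (T.l (nat_lit 39) (nat_lit 50))) (T.n (T.l (nat_lit 41) (nat_lit 35)) (T.n (T.l (nat_lit 42) (nat_lit 8)) (T.l (nat_lit 44) (nat_lit 33))))) (T.n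 (T.n (T.l (nat_lit 46) (nat_lit 51)) (T.l (nat_lit 47) (nat_lit 18))) (T.n (T.l (nat_lit 50) (nat_lit 39)) (T.n (T.l (nat_lit 51) (nat_lit 46)) (T.l (nat_lit 54) (nat_lit 9))))))
def T66_3 : T := T.n (T.n (T.n (T.n (T.n (T.l (nat_lit 9) (nat_lit 26)) (T.n (T.l (nat_lit 9) (nat_lit 57)) (T.l (nat_lit 10) (nat_lit 38)))) (T.n (T.l (nat_lit 10) (nat_lit 58)) (T.n (T.l (nat_lit 18) (nat_lit 34)) (T.l (nat_lit 18) (nat_lit 38))))) (T.n (T.n (T.l (nat_lit 23) (nat_lit 26)) (T.n (T.l (nat_lit 23) (nat_lit 57)) (T.l (nat_lit 26) (nat_lit 9)))) (T.n (T.l (nat_lit 26) (nat_lit 23)) (T.n (T.l (nat_lit 26) (nat_lit 34)) (T.l (nat_lit 26) (nat_lit 38)))))) (T.n (T.n (T.n (T.l (nat_lit 26) (nat_lit 39)) (T.n (T.l (nat_lit 26) (nat_lit 42)) (T.l (nat_lit 34) (nat_lit 18)))) (T.n (T.l (nat_lit 34) (nat_lit 26)) (T.n (T.l (nat_lit 34) (nat_lit 37)) (T.l (nat_lit 34) (nat_lit 44)))))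 (T.n (T.n (T.l (nat_lit 34) (nat_lit 51)) (T.n (T.l (nat_lit 34) (nat_lit 58)) (T.l (nat_lit 35) (nat_lit 38)))) (T.n (T.n (T.l (nat_lit 35) (nat_lit 58)) (T.l (nat_lit 37) (nat_lit 34))) (T.n (T.l (nat_lit 37) (nat_lit 57)) (T.l (nat_lit 38) (nat_lit 10))))))) (T.n (T.n (T.n (T.n (T.l (nat_lit 38) (nat_lit 18)) (T.n (T.l (nat_lit 38) (nat_lit 26)) (T.l (nat_lit 38) (nat_lit 35)))) (T.n (T.l (nat_lit 38) (nat_lit 51)) (T.n (T.l (nat_lit 38) (nat_lit 57)) (T.l (nat_lit 39) (nat_lit 26))))) (T.n (T.n (T.l (nat_lit 39) (nat_lit 58)) (T.n (T.l (nat_lit 42) (nat_lit 26)) (T.l (nat_lit 42) (nat_lit 58)))) (T.n (T.l (nat_lit 44) (nat_lit 34)) (T.n (T.l (nat_lit 44) (nat_lit 57)) (T.l (nat_lit 51) (nat_lit 34)))))) (T.n (T.n (T.n (T.l (nat_lit 51) (nat_lit 38)) (T.n (T.l (nat_lit 57) (nat_lit 9)) (T.l (nat_lit 57) (nat_lit 23)))) (T.n (T.l (nat_lit 57) (nat_lit 37)) (T.n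 (T.l (nat_lit 57) (nat_lit 38)) (T.l (nat_lit 57) (nat_lit 44))))) (T.n (T.n (T.l (nat_lit 57) (nat_lit 58)) (T.n (T.l (nat_lit 58) (nat_lit 10)) (T.l (nat_lit 58) (nat_lit 34)))) (T.n (T.n (T.l (nat_lit 58) (nat_lit 35)) (T.l (nat_lit 58) (nat_lit 39))) (T.n (T.l (nat_lit 58) (nat_lit 42)) (T.l (nat_lit 58) (nat_lit 57)))))))
def T68_3 : T := T.n (T.n (T.n (T.n (T.l (nat_lit 8) (nat_lit 11)) (T.l (nat_lit 11) (nat_lit 8))) (T.n (T.l (nat_lit 11) (nat_lit 50)) (T.n (T.l (nat_lit 14) (nat_lit 21)) (T.l (nat_lit 14) (nat_lit 33))))) (T.n (T.n (T.l (nat_lit 21) (nat_lit 14)) (T.l (nat_lit 27) (nat_lit 36))) (T.n (T.l (nat_lit 27) (nat_lit 41)) (T.n (T.l (nat_lit 30) (nat_lit 43)) (T.l (nat_lit 33) (nat_lit 14)))))) (T.n (T.n (T.n (T.l (nat_lit 36) (nat_lit 27)) (T.l (nat_lit 41) (nat_lit 27))) (T.n (T.l (nat_lit 43) (nat_lit 30)) (T.n (T.l (nat_lit 43) (nat_lit 54))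 (T.l (nat_lit 46) (nat_lit 59))))) (T.n (T.n (T.l (nat_lit 47) (nat_lit 59)) (T.l (nat_lit 50) (nat_lit 11))) (T.n (T.l (nat_lit 54) (nat_lit 43)) (T.n (T.l (nat_lit 59) (nat_lit 46)) (T.l (nat_lit 59) (nat_lit 47))))))
def T69_3 : T := T.n (T.n (T.n (T.l (nat_lit 11) (nat_lit 14)) (T.l (nat_lit 11) (nat_lit 59))) (T.n (T.l (nat_lit 14) (nat_lit 11)) (T.n (T.l (nat_lit 14) (nat_lit 27)) (T.l (nat_lit 27) (nat_lit 14))))) (T.n (T.n (T.l (nat_lit 27) (nat_lit 43)) (T.l (nat_lit 43) (nat_lit 27))) (T.n (T.l (nat_lit 43) (nat_lit 59)) (T.n (T.l (nat_lit 59) (nat_lit 11)) (T.l (nat_lit 59) (nat_lit 43)))))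
def T70_3 : T := T.n (T.n (T.n (T.n (T.l (nat_lit 11) (nat_lit 32)) (T.n (T.l (nat_lit 11) (nat_lit 45)) (T.l (nat_lit 11) (nat_lit 48)))) (T.n (T.n (T.l (nat_lit 14) (nat_lit 32)) (T.l (nat_lit 14) (nat_lit 45))) (T.n (T.l (nat_lit 14) (nat_lit 48)) (T.l (nat_lit 27) (nat_lit 32))))) (T.n (T.n (T.n (T.l (nat_lit 27) (nat_lit 45)) (T.l (nat_lit 27) (nat_lit 48))) (T.n (T.l (nat_lit 32) (nat_lit 11)) (T.l (nat_lit 32) (nat_lit 14)))) (T.n (T.n (T.l (nat_lit 32) (nat_lit 27)) (T.l (nat_lit 32) (nat_lit 43))) (T.n (T.l (nat_lit 32) (nat_lit 59)) (T.l (nat_lit 43) (nat_lit 32)))))) (T.n (T.n (T.n (T.l (nat_lit 43) (nat_lit 45)) (T.n (T.l (nat_lit 43) (nat_lit 48)) (T.l (nat_lit 45) (nat_lit 11)))) (T.n (T.n (T.l (nat_lit 45) (nat_lit 14)) (T.l (nat_lit 45) (nat_lit 27))) (T.n (T.l (nat_lit 45) (nat_lit 43)) (T.l (nat_lit 45) (nat_lit 59))))) (T.n (T.n (T.n (T.l (nat_lit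 48) (nat_lit 11)) (T.l (nat_lit 48) (nat_lit 14))) (T.n (T.l (nat_lit 48) (nat_lit 27)) (T.l (nat_lit 48) (nat_lit 43)))) (T.n (T.n (T.l (nat_lit 48) (nat_lit 59)) (T.l (nat_lit 59) (nat_lit 32))) (T.n (T.l (nat_lit 59) (nat_lit 45)) (T.l (nat_lit 59) (nat_lit 48))))))
def T71_3 : T := T.n (T.n (T.n (T.n (T.n (T.l (nat_lit 8) (nat_lit 27)) (T.n (T.l (nat_lit 8) (nat_lit 36)) (T.l (nat_lit 8) (nat_lit 43)))) (T.n (T.n (T.l (nat_lit 8) (nat_lit 54)) (T.l (nat_lit 11) (nat_lit 30))) (T.n (T.l (nat_lit 11) (nat_lit 36)) (T.l (nat_lit 11) (nat_lit 41))))) (T.n (T.n (T.n (T.l (nat_lit 11) (nat_lit 54)) (T.l (nat_lit 14) (nat_lit 30))) (T.n (T.l (nat_lit 14) (nat_lit 46)) (T.l (nat_lit 14) (nat_lit 47)))) (T.n (T.n (T.l (nat_lit 14) (nat_lit 54)) (T.l (nat_lit 21) (nat_lit 30))) (T.n (T.l (nat_lit 21) (nat_lit 43)) (T.l (nat_lit 21) (nat_lit 47)))))) (T.n (T.n (T.n (T.l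 (nat_lit 21) (nat_lit 59)) (T.n (T.l (nat_lit 27) (nat_lit 8)) (T.l (nat_lit 27) (nat_lit 46)))) (T.n (T.n (T.l (nat_lit 27) (nat_lit 47)) (T.l (nat_lit 27) (nat_lit 50))) (T.n (T.l (nat_lit 30) (nat_lit 11)) (T.l (nat_lit 30) (nat_lit 14))))) (T.n (T.n (T.n (T.l (nat_lit 30) (nat_lit 21)) (T.l (nat_lit 30) (nat_lit 50))) (T.n (T.l (nat_lit 33) (nat_lit 43)) (T.l (nat_lit 33) (nat_lit 46)))) (T.n (T.n (T.l (nat_lit 33) (nat_lit 54)) (T.l (nat_lit 33) (nat_lit 59))) (T.n (T.l (nat_lit 36) (nat_lit 8)) (T.l (nat_lit 36) (nat_lit 11))))))) (T.n (T.n (T.n (T.n (T.l (nat_lit 36) (nat_lit 47)) (T.n (T.l (nat_lit 36) (nat_lit 59)) (T.l (nat_lit 41) (nat_lit 11)))) (T.n (T.n (T.l (nat_lit 41) (nat_lit 46)) (T.l (nat_lit 41) (nat_lit 50))) (T.n (T.l (nat_lit 41) (nat_lit 59)) (T.l (nat_lit 43) (nat_lit 8))))) (T.n (T.n (T.n (T.l (nat_lit 43) (nat_lit 21)) (T.l (nat_lit 43)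 (nat_lit 33))) (T.n (T.l (nat_lit 43) (nat_lit 50)) (T.l (nat_lit 46) (nat_lit 14)))) (T.n (T.n (T.l (nat_lit 46) (nat_lit 27)) (T.l (nat_lit 46) (nat_lit 33))) (T.n (T.l (nat_lit 46) (nat_lit 41)) (T.l (nat_lit 47) (nat_lit 14)))))) (T.n (T.n (T.n (T.l (nat_lit 47) (nat_lit 21)) (T.n (T.l (nat_lit 47) (nat_lit 27)) (T.l (nat_lit 47) (nat_lit 36)))) (T.n (T.n (T.l (nat_lit 50) (nat_lit 27)) (T.l (nat_lit 50) (nat_lit 30))) (T.n (T.l (nat_lit 50) (nat_lit 41)) (T.l (nat_lit 50) (nat_lit 43))))) (T.n (T.n (T.n (T.l (nat_lit 54) (nat_lit 8)) (T.l (nat_lit 54) (nat_lit 11))) (T.n (T.l (nat_lit 54) (nat_lit 14)) (T.l (nat_lit 54) (nat_lit 33)))) (T.n (T.n (T.l (nat_lit 59) (nat_lit 21)) (T.l (nat_lit 59) (nat_lit 33))) (T.n (T.l (nat_lit 59) (nat_lit 36)) (T.l (nat_lit 59) (nat_lit 41)))))))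
def T72_3 : T := T.n (T.n (T.n (T.l (nat_lit 11) (nat_lit 27)) (T.l (nat_lit 11) (nat_lit 43))) (T.n (T.l (nat_lit 14) (nat_lit 43)) (T.n (T.l (nat_lit 14) (nat_lit 59)) (T.l (nat_lit 27) (nat_lit 11))))) (T.n (T.n (T.l (nat_lit 27) (nat_lit 59)) (T.l (nat_lit 43) (nat_lit 11))) (T.n (T.l (nat_lit 43) (nat_lit 14)) (T.n (T.l (nat_lit 59) (nat_lit 14)) (T.l (nat_lit 59) (nat_lit 27)))))
def T73_3 : T := T.n (T.n (T.n (T.l (nat_lit 11) (nat_lit 34)) (T.l (nat_lit 14) (nat_lit 58))) (T.n (T.l (nat_lit 26) (nat_lit 59)) (T.n (T.l (nat_lit 27) (nat_lit 57)) (T.l (nat_lit 34) (nat_lit 11))))) (T.n (T.n (T.l (nat_lit 38) (nat_lit 43)) (T.l (nat_lit 43) (nat_lit 38))) (T.n (T.l (nat_lit 57) (nat_lit 27)) (T.n (T.l (nat_lit 58) (nat_lit 14)) (T.l (nat_lit 59) (nat_lit 26)))))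
def T74_3 : T := T.n (T.n (T.n (T.n (T.l (nat_lit 8) (nat_lit 21)) (T.l (nat_lit 8) (nat_lit 46))) (T.n (T.l (nat_lit 21) (nat_lit 8)) (T.n (T.l (nat_lit 21) (nat_lit 41)) (T.l (nat_lit 30) (nat_lit 36))))) (T.n (T.n (T.l (nat_lit 30) (nat_lit 46)) (T.l (nat_lit 33) (nat_lit 36))) (T.n (T.l (nat_lit 33) (nat_lit 50)) (T.n (T.l (nat_lit 36) (nat_lit 30)) (T.l (nat_lit 36) (nat_lit 33)))))) (T.n (T.n (T.n (T.l (nat_lit 41) (nat_lit 21)) (T.l (nat_lit 41) (nat_lit 54))) (T.n (T.l (nat_lit 46) (nat_lit 8)) (T.n (T.l (nat_lit 46) (nat_lit 30)) (T.l (nat_lit 47) (nat_lit 50))))) (T.n (T.n (T.l (nat_lit 47) (nat_lit 54)) (T.l (nat_lit 50) (nat_lit 33))) (T.n (T.l (nat_lit 50) (nat_lit 47)) (T.n (T.l (nat_lit 54) (nat_lit 41)) (T.l (nat_lit 54) (nat_lit 47))))))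
def T75_3 : T := T.n (T.n (T.n (T.n (T.n (T.l (nat_lit 8) (nat_lit 34)) (T.n (T.l (nat_lit 8) (nat_lit 48)) (T.l (nat_lit 21) (nat_lit 32)))) (T.n (T.l (nat_lit 21) (nat_lit 58)) (T.n (T.l (nat_lit 26) (nat_lit 45)) (T.l (nat_lit 26) (nat_lit 46))))) (T.n (T.n (T.l (nat_lit 26) (nat_lit 47)) (T.n (T.l (nat_lit 30) (nat_lit 38)) (T.l (nat_lit 30) (nat_lit 48)))) (T.n (T.l (nat_lit 32) (nat_lit 21)) (T.n (T.l (nat_lit 32) (nat_lit 36)) (T.l (nat_lit 32) (nat_lit 46)))))) (T.n (T.n (T.n (T.l (nat_lit 32) (nat_lit 50)) (T.n (T.l (nat_lit 32) (nat_lit 54)) (T.l (nat_lit 33) (nat_lit 48)))) (T.n (T.l (nat_lit 33) (nat_lit 58)) (T.n (T.l (nat_lit 34) (nat_lit 8)) (T.l (nat_lit 34) (nat_lit 45))))) (T.n (T.n (T.l (nat_lit 34) (nat_lit 50)) (T.n (T.l (nat_lit 36) (nat_lit 32)) (T.l (nat_lit 36) (nat_lit 57)))) (T.n (T.n (T.l (nat_lit 38) (nat_lit 30)) (T.l (nat_lit 38) (nat_lit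 45))) (T.n (T.l (nat_lit 38) (nat_lit 54)) (T.l (nat_lit 41) (nat_lit 48))))))) (T.n (T.n (T.n (T.n (T.l (nat_lit 41) (nat_lit 57)) (T.n (T.l (nat_lit 45) (nat_lit 26)) (T.l (nat_lit 45) (nat_lit 34)))) (T.n (T.l (nat_lit 45) (nat_lit 38)) (T.n (T.l (nat_lit 45) (nat_lit 57)) (T.l (nat_lit 45) (nat_lit 58))))) (T.n (T.n (T.l (nat_lit 46) (nat_lit 26)) (T.n (T.l (nat_lit 46) (nat_lit 32)) (T.l (nat_lit 47) (nat_lit 26)))) (T.n (T.l (nat_lit 47) (nat_lit 48)) (T.n (T.l (nat_lit 48) (nat_lit 8)) (T.l (nat_lit 48) (nat_lit 30)))))) (T.n (T.n (T.n (T.l (nat_lit 48) (nat_lit 33)) (T.n (T.l (nat_lit 48) (nat_lit 41)) (T.l (nat_lit 48) (nat_lit 47)))) (T.n (T.l (nat_lit 50) (nat_lit 32)) (T.n (T.l (nat_lit 50) (nat_lit 34)) (T.l (nat_lit 54) (nat_lit 32))))) (T.n (T.n (T.l (nat_lit 54) (nat_lit 38)) (T.n (T.l (nat_lit 57) (nat_lit 36)) (T.l (nat_lit 57) (nat_lit 41)))) (T.n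 (T.n (T.l (nat_lit 57) (nat_lit 45)) (T.l (nat_lit 58) (nat_lit 21))) (T.n (T.l (nat_lit 58) (nat_lit 33)) (T.l (nat_lit 58) (nat_lit 45)))))))
def T76_3 : T := T.n (T.n (T.n (T.l (nat_lit 26) (nat_lit 57)) (T.l (nat_lit 26) (nat_lit 58))) (T.n (T.l (nat_lit 34) (nat_lit 38)) (T.n (T.l (nat_lit 34) (nat_lit 57)) (T.l (nat_lit 38) (nat_lit 34))))) (T.n (T.n (T.l (nat_lit 38) (nat_lit 58)) (T.l (nat_lit 57) (nat_lit 26))) (T.n (T.l (nat_lit 57) (nat_lit 34)) (T.n (T.l (nat_lit 58) (nat_lit 26)) (T.l (nat_lit 58) (nat_lit 38)))))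
def T77_3 : T := T.n (T.n (T.l (nat_lit 32) (nat_lit 45)) (T.n (T.l (nat_lit 32) (nat_lit 48)) (T.l (nat_lit 45) (nat_lit 32)))) (T.n (T.l (nat_lit 45) (nat_lit 48)) (T.n (T.l (nat_lit 48) (nat_lit 32)) (T.l (nat_lit 48) (nat_lit 45))))
def T78_3 : T := T.n (T.n (T.n (T.n (T.n (T.l (nat_lit 3) (nat_lit 27)) (T.l (nat_lit 3) (nat_lit 43))) (T.n (T.l (nat_lit 5) (nat_lit 11)) (T.n (T.l (nat_lit 5) (nat_lit 14)) (T.l (nat_lit 7) (nat_lit 11))))) (T.n (T.n (T.l (nat_lit 7) (nat_lit 59)) (T.l (nat_lit 11) (nat_lit 5))) (T.n (T.l (nat_lit 11) (nat_lit 7)) (T.n (T.l (nat_lit 11) (nat_lit 13)) (T.l (nat_lit 11) (nat_lit 53)))))) (T.n (T.n (T.n (T.l (nat_lit 12) (nat_lit 14)) (T.l (nat_lit 12) (nat_lit 27))) (T.n (T.l (nat_lit 13) (nat_lit 11)) (T.n (T.l (nat_lit 13) (nat_lit 14)) (T.l (nat_lit 14) (nat_lit 5))))) (T.n (T.n (T.l (nat_lit 14) (nat_lit 12)) (T.l (nat_lit 14)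 (nat_lit 13))) (T.n (T.l (nat_lit 14) (nat_lit 29)) (T.n (T.l (nat_lit 19) (nat_lit 43)) (T.l (nat_lit 19) (nat_lit 59))))))) (T.n (T.n (T.n (T.n (T.l (nat_lit 27) (nat_lit 3)) (T.l (nat_lit 27) (nat_lit 12))) (T.n (T.l (nat_lit 27) (nat_lit 28)) (T.n (T.l (nat_lit 27) (nat_lit 29)) (T.l (nat_lit 28) (nat_lit 27))))) (T.n (T.n (T.l (nat_lit 28) (nat_lit 43)) (T.l (nat_lit 29) (nat_lit 14))) (T.n (T.l (nat_lit 29) (nat_lit 27)) (T.n (T.l (nat_lit 43) (nat_lit 3)) (T.l (nat_lit 43) (nat_lit 19)))))) (T.n (T.n (T.n (T.l (nat_lit 43) (nat_lit 28)) (T.l (nat_lit 43) (nat_lit 55))) (T.n (T.l (nat_lit 53) (nat_lit 11)) (T.n (T.l (nat_lit 53) (nat_lit 59)) (T.l (nat_lit 55) (nat_lit 43))))) (T.n (T.n (T.l (nat_lit 55) (nat_lit 59)) (T.l (nat_lit 59) (nat_lit 7))) (T.n (T.l (nat_lit 59) (nat_lit 19)) (T.n (T.l (nat_lit 59) (nat_lit 53)) (T.l (nat_lit 59) (nat_lit 55)))))))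
def T79_3 : T := T.n (T.n (T.n (T.n (T.n (T.l (nat_lit 1) (nat_lit 5)) (T.l (nat_lit 1) (nat_lit 12))) (T.n (T.l (nat_lit 1) (nat_lit 13)) (T.n (T.l (nat_lit 1) (nat_lit 29)) (T.l (nat_lit 3) (nat_lit 15))))) (T.n (T.n (T.l (nat_lit 3) (nat_lit 40)) (T.l (nat_lit 4) (nat_lit 7))) (T.n (T.l (nat_lit 4) (nat_lit 19)) (T.n (T.l (nat_lit 4) (nat_lit 53)) (T.l (nat_lit 4) (nat_lit 55)))))) (T.n (T.n (T.n (T.l (nat_lit 5) (nat_lit 1)) (T.l (nat_lit 5) (nat_lit 22))) (T.n (T.l (nat_lit 7) (nat_lit 4)) (T.n (T.l (nat_lit 7) (nat_lit 22)) (T.l (nat_lit 12) (nat_lit 1))))) (T.n (T.n (T.l (nat_lit 12) (nat_lit 15)) (T.l (nat_lit 13) (nat_lit 1))) (T.n (T.l (nat_lit 13) (nat_lit 22)) (T.n (T.l (nat_lit 15) (nat_lit 3)) (T.l (nat_lit 15) (nat_lit 12))))))) (T.n (T.n (T.n (T.n (T.l (nat_lit 15) (nat_lit 28)) (T.l (nat_lit 15) (nat_lit 29))) (T.n (T.l (nat_lit 19) (nat_lit 4)) (T.n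 (T.l (nat_lit 19) (nat_lit 40)) (T.l (nat_lit 22) (nat_lit 5))))) (T.n (T.n (T.l (nat_lit 22) (nat_lit 7)) (T.l (nat_lit 22) (nat_lit 13))) (T.n (T.l (nat_lit 22) (nat_lit 53)) (T.n (T.l (nat_lit 28) (nat_lit 15)) (T.l (nat_lit 28) (nat_lit 40)))))) (T.n (T.n (T.n (T.l (nat_lit 29) (nat_lit 1)) (T.l (nat_lit 29) (nat_lit 15))) (T.n (T.l (nat_lit 40) (nat_lit 3)) (T.n (T.l (nat_lit 40) (nat_lit 19)) (T.l (nat_lit 40) (nat_lit 28))))) (T.n (T.n (T.l (nat_lit 40) (nat_lit 55)) (T.l (nat_lit 53) (nat_lit 4))) (T.n (T.l (nat_lit 53) (nat_lit 22)) (T.n (T.l (nat_lit 55) (nat_lit 4)) (T.l (nat_lit 55) (nat_lit 40)))))))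
def T80_3 : T := T.n (T.n (T.n (T.n (T.n (T.l (nat_lit 1) (nat_lit 3)) (T.l (nat_lit 1) (nat_lit 7))) (T.n (T.l (nat_lit 1) (nat_lit 28)) (T.n (T.l (nat_lit 1) (nat_lit 53)) (T.l (nat_lit 3) (nat_lit 1))))) (T.n (T.n (T.l (nat_lit 3) (nat_lit 4)) (T.l (nat_lit 4) (nat_lit 3))) (T.n (T.l (nat_lit 4) (nat_lit 5)) (T.n (T.l (nat_lit 4) (nat_lit 13)) (T.l (nat_lit 4) (nat_lit 28)))))) (T.n (T.n (T.n (T.l (nat_lit 5) (nat_lit 4)) (T.l (nat_lit 5) (nat_lit 15))) (T.n (T.l (nat_lit 7) (nat_lit 1)) (T.n (T.l (nat_lit 7) (nat_lit 40)) (T.l (nat_lit 12) (nat_lit 22))))) (T.n (T.n (T.l (nat_lit 12) (nat_lit 40)) (T.l (nat_lit 13) (nat_lit 4))) (T.n (T.l (nat_lit 13) (nat_lit 15)) (T.n (T.l (nat_lit 15) (nat_lit 5)) (T.l (nat_lit 15) (nat_lit 13))))))) (T.n (T.n (T.n (T.n (T.l (nat_lit 15) (nat_lit 19)) (T.l (nat_lit 15) (nat_lit 55))) (T.n (T.l (nat_lit 19) (nat_lit 15)) (T.n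 (T.l (nat_lit 19) (nat_lit 22)) (T.l (nat_lit 22) (nat_lit 12))))) (T.n (T.n (T.l (nat_lit 22) (nat_lit 19)) (T.l (nat_lit 22) (nat_lit 29))) (T.n (T.l (nat_lit 22) (nat_lit 55)) (T.n (T.l (nat_lit 28) (nat_lit 1)) (T.l (nat_lit 28) (nat_lit 4)))))) (T.n (T.n (T.n (T.l (nat_lit 29) (nat_lit 22)) (T.l (nat_lit 29) (nat_lit 40))) (T.n (T.l (nat_lit 40) (nat_lit 7)) (T.n (T.l (nat_lit 40) (nat_lit 12)) (T.l (nat_lit 40) (nat_lit 29))))) (T.n (T.n (T.l (nat_lit 40) (nat_lit 53)) (T.l (nat_lit 53) (nat_lit 1))) (T.n (T.l (nat_lit 53) (nat_lit 40)) (T.n (T.l (nat_lit 55) (nat_lit 15)) (T.l (nat_lit 55) (nat_lit 22)))))))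
def T81_3 : T := T.n (T.n (T.n (T.n (T.n (T.n (T.l (nat_lit 1) (nat_lit 6)) (T.l (nat_lit 1) (nat_lit 31))) (T.n (T.l (nat_lit 1) (nat_lit 52)) (T.n (T.l (nat_lit 1) (nat_lit 56)) (T.l (nat_lit 2) (nat_lit 3))))) (T.n (T.n (T.l (nat_lit 2) (nat_lit 4)) (T.l (nat_lit 2) (nat_lit 40))) (T.n (T.l (nat_lit 2) (nat_lit 53)) (T.n (T.l (nat_lit 3) (nat_lit 2)) (T.l (nat_lit 3) (nat_lit 6)))))) (T.n (T.n (T.n (T.l (nat_lit 4) (nat_lit 2)) (T.l (nat_lit 4) (nat_lit 17))) (T.n (T.l (nat_lit 4) (nat_lit 24)) (T.n (T.l (nat_lit 4) (nat_lit 25)) (T.l (nat_lit 5) (nat_lit 17))))) (T.n (T.n (T.l (nat_lit 5) (nat_lit 56)) (T.l (nat_lit 6) (nat_lit 1))) (T.n (T.l (nat_lit 6) (nat_lit 3)) (T.n (T.l (nat_lit 6) (nat_lit 13)) (T.l (nat_lit 6) (nat_lit 15))))))) (T.n (T.n (T.n (T.n (T.l (nat_lit 7) (nat_lit 25)) (T.l (nat_lit 7) (nat_lit 31))) (T.n (T.l (nat_lit 12) (nat_lit 49)) (T.n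 (T.l (nat_lit 12) (nat_lit 52)) (T.l (nat_lit 13) (nat_lit 6))))) (T.n (T.n (T.l (nat_lit 13) (nat_lit 24)) (T.l (nat_lit 15) (nat_lit 6))) (T.n (T.l (nat_lit 15) (nat_lit 20)) (T.n (T.l (nat_lit 15) (nat_lit 49)) (T.l (nat_lit 15) (nat_lit 56)))))) (T.n (T.n (T.n (T.l (nat_lit 17) (nat_lit 4)) (T.l (nat_lit 17) (nat_lit 5))) (T.n (T.l (nat_lit 17) (nat_lit 19)) (T.n (T.l (nat_lit 17) (nat_lit 22)) (T.l (nat_lit 19) (nat_lit 17))))) (T.n (T.n (T.l (nat_lit 19) (nat_lit 20)) (T.l (nat_lit 20) (nat_lit 15))) (T.n (T.l (nat_lit 20) (nat_lit 19)) (T.n (T.l (nat_lit 20) (nat_lit 29)) (T.l (nat_lit 20) (nat_lit 40)))))))) (T.n (T.n (T.n (T.n (T.n (T.l (nat_lit 22) (nat_lit 17)) (T.l (nat_lit 22) (nat_lit 24))) (T.n (T.l (nat_lit 22) (nat_lit 31)) (T.n (T.l (nat_lit 22) (nat_lit 52)) (T.l (nat_lit 24) (nat_lit 4))))) (T.n (T.n (T.l (nat_lit 24) (nat_lit 13)) (T.l (nat_lit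 24) (nat_lit 22))) (T.n (T.l (nat_lit 24) (nat_lit 55)) (T.n (T.l (nat_lit 25) (nat_lit 4)) (T.l (nat_lit 25) (nat_lit 7)))))) (T.n (T.n (T.n (T.l (nat_lit 25) (nat_lit 28)) (T.l (nat_lit 25) (nat_lit 40))) (T.n (T.l (nat_lit 28) (nat_lit 25)) (T.n (T.l (nat_lit 28) (nat_lit 56)) (T.l (nat_lit 29) (nat_lit 20))))) (T.n (T.n (T.l (nat_lit 29) (nat_lit 31)) (T.l (nat_lit 31) (nat_lit 1))) (T.n (T.l (nat_lit 31) (nat_lit 7)) (T.n (T.l (nat_lit 31) (nat_lit 22)) (T.l (nat_lit 31) (nat_lit 29))))))) (T.n (T.n (T.n (T.n (T.l (nat_lit 40) (nat_lit 2)) (T.l (nat_lit 40) (nat_lit 20))) (T.n (T.l (nat_lit 40) (nat_lit 25)) (T.n (T.l (nat_lit 40) (nat_lit 49)) (T.l (nat_lit 49) (nat_lit 12))))) (T.n (T.n (T.l (nat_lit 49) (nat_lit 15)) (T.l (nat_lit 49) (nat_lit 40))) (T.n (T.l (nat_lit 49) (nat_lit 55)) (T.n (T.l (nat_lit 52) (nat_lit 1)) (T.l (nat_lit 52) (nat_lit 12))))))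 (T.n (T.n (T.n (T.l (nat_lit 52) (nat_lit 22)) (T.l (nat_lit 52) (nat_lit 53))) (T.n (T.l (nat_lit 53) (nat_lit 2)) (T.n (T.l (nat_lit 53) (nat_lit 52)) (T.l (nat_lit 55) (nat_lit 24))))) (T.n (T.n (T.l (nat_lit 55) (nat_lit 49)) (T.l (nat_lit 56) (nat_lit 1))) (T.n (T.l (nat_lit 56) (nat_lit 5)) (T.n (T.l (nat_lit 56) (nat_lit 15)) (T.l (nat_lit 56) (nat_lit 28))))))))
def T82_3 : T := T.n (T.n (T.n (T.n (T.l (nat_lit 1) (nat_lit 11)) (T.l (nat_lit 1) (nat_lit 27))) (T.n (T.l (nat_lit 4) (nat_lit 11)) (T.n (T.l (nat_lit 4) (nat_lit 43)) (T.l (nat_lit 11) (nat_lit 1))))) (T.n (T.n (T.l (nat_lit 11) (nat_lit 4)) (T.l (nat_lit 14) (nat_lit 15))) (T.n (T.l (nat_lit 14) (nat_lit 22)) (T.n (T.l (nat_lit 15) (nat_lit 14)) (T.l (nat_lit 15) (nat_lit 43)))))) (T.n (T.n (T.n (T.l (nat_lit 22) (nat_lit 14)) (T.l (nat_lit 22) (nat_lit 59))) (T.n (T.l (nat_lit 27) (nat_lit 1))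 (T.n (T.l (nat_lit 27) (nat_lit 40)) (T.l (nat_lit 40) (nat_lit 27))))) (T.n (T.n (T.l (nat_lit 40) (nat_lit 59)) (T.l (nat_lit 43) (nat_lit 4))) (T.n (T.l (nat_lit 43) (nat_lit 15)) (T.n (T.l (nat_lit 59) (nat_lit 22)) (T.l (nat_lit 59) (nat_lit 40))))))
def T83_3 : T := T.n (T.n (T.n (T.n (T.n (T.n (T.l (nat_lit 2) (nat_lit 8)) (T.n (T.l (nat_lit 2) (nat_lit 9)) (T.l (nat_lit 2) (nat_lit 41)))) (T.n (T.n (T.l (nat_lit 2) (nat_lit 51)) (T.l (nat_lit 6) (nat_lit 8))) (T.n (T.l (nat_lit 6) (nat_lit 10)) (T.l (nat_lit 6) (nat_lit 30))))) (T.n (T.n (T.n (T.l (nat_lit 6) (nat_lit 37)) (T.l (nat_lit 8) (nat_lit 2))) (T.n (T.l (nat_lit 8) (nat_lit 6)) (T.l (nat_lit 8) (nat_lit 9)))) (T.n (T.n (T.l (nat_lit 8) (nat_lit 10)) (T.l (nat_lit 9) (nat_lit 2))) (T.n (T.l (nat_lit 9) (nat_lit 8)) (T.l (nat_lit 9) (nat_lit 33)))))) (T.n (T.n (T.n (T.l (nat_lit 9) (nat_lit 49)) (T.n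 (T.l (nat_lit 10) (nat_lit 6)) (T.l (nat_lit 10) (nat_lit 8)))) (T.n (T.n (T.l (nat_lit 10) (nat_lit 47)) (T.l (nat_lit 10) (nat_lit 49))) (T.n (T.l (nat_lit 17) (nat_lit 18)) (T.l (nat_lit 17) (nat_lit 21))))) (T.n (T.n (T.n (T.l (nat_lit 17) (nat_lit 42)) (T.l (nat_lit 17) (nat_lit 54))) (T.n (T.l (nat_lit 18) (nat_lit 17)) (T.l (nat_lit 18) (nat_lit 21)))) (T.n (T.n (T.l (nat_lit 18) (nat_lit 25)) (T.l (nat_lit 18) (nat_lit 36))) (T.n (T.l (nat_lit 20) (nat_lit 21)) (T.l (nat_lit 20) (nat_lit 23))))))) (T.n (T.n (T.n (T.n (T.l (nat_lit 20) (nat_lit 35)) (T.n (T.l (nat_lit 20) (nat_lit 46)) (T.l (nat_lit 21) (nat_lit 17)))) (T.n (T.n (T.l (nat_lit 21) (nat_lit 18)) (T.l (nat_lit 21) (nat_lit 20))) (T.n (T.l (nat_lit 21) (nat_lit 23)) (T.l (nat_lit 23) (nat_lit 20))))) (T.n (T.n (T.n (T.l (nat_lit 23) (nat_lit 21)) (T.l (nat_lit 23) (nat_lit 25))) (T.n (T.l (nat_lit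 23) (nat_lit 50)) (T.l (nat_lit 24) (nat_lit 30)))) (T.n (T.n (T.l (nat_lit 24) (nat_lit 33)) (T.l (nat_lit 24) (nat_lit 39))) (T.n (T.l (nat_lit 24) (nat_lit 51)) (T.l (nat_lit 25) (nat_lit 18)))))) (T.n (T.n (T.n (T.l (nat_lit 25) (nat_lit 23)) (T.n (T.l (nat_lit 25) (nat_lit 36)) (T.l (nat_lit 25) (nat_lit 50)))) (T.n (T.n (T.l (nat_lit 30) (nat_lit 6)) (T.l (nat_lit 30) (nat_lit 24))) (T.n (T.l (nat_lit 30) (nat_lit 37)) (T.l (nat_lit 30) (nat_lit 39))))) (T.n (T.n (T.n (T.l (nat_lit 31) (nat_lit 36)) (T.l (nat_lit 31) (nat_lit 42))) (T.n (T.l (nat_lit 31) (nat_lit 44)) (T.l (nat_lit 31) (nat_lit 46)))) (T.n (T.n (T.l (nat_lit 33) (nat_lit 9)) (T.l (nat_lit 33) (nat_lit 24))) (T.n (T.l (nat_lit 33) (nat_lit 49)) (T.l (nat_lit 33) (nat_lit 51)))))))) (T.n (T.n (T.n (T.n (T.n (T.l (nat_lit 35) (nat_lit 20)) (T.n (T.l (nat_lit 35) (nat_lit 46)) (T.l (nat_lit 35)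 (nat_lit 50)))) (T.n (T.n (T.l (nat_lit 35) (nat_lit 56)) (T.l (nat_lit 36) (nat_lit 18))) (T.n (T.l (nat_lit 36) (nat_lit 25)) (T.l (nat_lit 36) (nat_lit 31))))) (T.n (T.n (T.n (T.l (nat_lit 36) (nat_lit 42)) (T.l (nat_lit 37) (nat_lit 6))) (T.n (T.l (nat_lit 37) (nat_lit 30)) (T.l (nat_lit 37) (nat_lit 47)))) (T.n (T.n (T.l (nat_lit 37) (nat_lit 52)) (T.l (nat_lit 39) (nat_lit 24))) (T.n (T.l (nat_lit 39) (nat_lit 30)) (T.l (nat_lit 39) (nat_lit 41)))))) (T.n (T.n (T.n (T.l (nat_lit 39) (nat_lit 52)) (T.n (T.l (nat_lit 41) (nat_lit 2)) (T.l (nat_lit 41) (nat_lit 39)))) (T.n (T.n (T.l (nat_lit 41) (nat_lit 51)) (T.l (nat_lit 41) (nat_lit 52))) (T.n (T.l (nat_lit 42) (nat_lit 17)) (T.l (nat_lit 42) (nat_lit 31))))) (T.n (T.n (T.n (T.l (nat_lit 42) (nat_lit 36)) (T.l (nat_lit 42) (nat_lit 54))) (T.n (T.l (nat_lit 44) (nat_lit 31)) (T.l (nat_lit 44) (nat_lit 46))))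 (T.n (T.n (T.l (nat_lit 44) (nat_lit 54)) (T.l (nat_lit 44) (nat_lit 56))) (T.n (T.l (nat_lit 46) (nat_lit 20)) (T.l (nat_lit 46) (nat_lit 31))))))) (T.n (T.n (T.n (T.n (T.l (nat_lit 46) (nat_lit 35)) (T.n (T.l (nat_lit 46) (nat_lit 44)) (T.l (nat_lit 47) (nat_lit 10)))) (T.n (T.n (T.l (nat_lit 47) (nat_lit 37)) (T.l (nat_lit 47) (nat_lit 49))) (T.n (T.l (nat_lit 47) (nat_lit 52)) (T.l (nat_lit 49) (nat_lit 9))))) (T.n (T.n (T.n (T.l (nat_lit 49) (nat_lit 10)) (T.l (nat_lit 49) (nat_lit 33))) (T.n (T.l (nat_lit 49) (nat_lit 47)) (T.l (nat_lit 50) (nat_lit 23)))) (T.n (T.n (T.l (nat_lit 50) (nat_lit 25)) (T.l (nat_lit 50) (nat_lit 35))) (T.n (T.l (nat_lit 50) (nat_lit 56)) (T.l (nat_lit 51) (nat_lit 2)))))) (T.n (T.n (T.n (T.l (nat_lit 51) (nat_lit 24)) (T.n (T.l (nat_lit 51) (nat_lit 33)) (T.l (nat_lit 51) (nat_lit 41)))) (T.n (T.n (T.l (nat_lit 52) (nat_lit 37))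 (T.l (nat_lit 52) (nat_lit 39))) (T.n (T.l (nat_lit 52) (nat_lit 41)) (T.l (nat_lit 52) (nat_lit 47))))) (T.n (T.n (T.n (T.l (nat_lit 54) (nat_lit 17)) (T.l (nat_lit 54) (nat_lit 42))) (T.n (T.l (nat_lit 54) (nat_lit 44)) (T.l (nat_lit 54) (nat_lit 56)))) (T.n (T.n (T.l (nat_lit 56) (nat_lit 35)) (T.l (nat_lit 56) (nat_lit 44))) (T.n (T.l (nat_lit 56) (nat_lit 50)) (T.l (nat_lit 56) (nat_lit 54))))))))
def T84_3 : T := T.n (T.n (T.n (T.n (T.n (T.n (T.l (nat_lit 2) (nat_lit 7)) (T.l (nat_lit 2) (nat_lit 11))) (T.n (T.l (nat_lit 2) (nat_lit 27)) (T.n (T.l (nat_lit 2) (nat_lit 28)) (T.l (nat_lit 3) (nat_lit 25))))) (T.n (T.n (T.l (nat_lit 3) (nat_lit 56)) (T.l (nat_lit 5) (nat_lit 6))) (T.n (T.l (nat_lit 5) (nat_lit 24)) (T.n (T.l (nat_lit 6) (nat_lit 5)) (T.l (nat_lit 6) (nat_lit 11)))))) (T.n (T.n (T.n (T.l (nat_lit 6) (nat_lit 28)) (T.l (nat_lit 6) (nat_lit 43)))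 (T.n (T.l (nat_lit 7) (nat_lit 2)) (T.n (T.l (nat_lit 7) (nat_lit 52)) (T.l (nat_lit 11) (nat_lit 2))))) (T.n (T.n (T.l (nat_lit 11) (nat_lit 6)) (T.l (nat_lit 11) (nat_lit 25))) (T.n (T.l (nat_lit 11) (nat_lit 56)) (T.n (T.l (nat_lit 12) (nat_lit 20)) (T.l (nat_lit 12) (nat_lit 31))))))) (T.n (T.n (T.n (T.n (T.l (nat_lit 13) (nat_lit 17)) (T.l (nat_lit 13) (nat_lit 56))) (T.n (T.l (nat_lit 14) (nat_lit 17)) (T.n (T.l (nat_lit 14) (nat_lit 20)) (T.l (nat_lit 14) (nat_lit 24))))) (T.n (T.n (T.l (nat_lit 14) (nat_lit 49)) (T.l (nat_lit 17) (nat_lit 13))) (T.n (T.l (nat_lit 17) (nat_lit 14)) (T.n (T.l (nat_lit 17) (nat_lit 43)) (T.l (nat_lit 17) (nat_lit 55)))))) (T.n (T.n (T.n (T.l (nat_lit 19) (nat_lit 24)) (T.l (nat_lit 19) (nat_lit 49))) (T.n (T.l (nat_lit 20) (nat_lit 12)) (T.n (T.l (nat_lit 20) (nat_lit 14)) (T.l (nat_lit 20) (nat_lit 55))))) (T.n (T.n (T.l (nat_lit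 20) (nat_lit 59)) (T.l (nat_lit 24) (nat_lit 5))) (T.n (T.l (nat_lit 24) (nat_lit 14)) (T.n (T.l (nat_lit 24) (nat_lit 19)) (T.l (nat_lit 24) (nat_lit 43)))))))) (T.n (T.n (T.n (T.n (T.n (T.l (nat_lit 25) (nat_lit 3)) (T.l (nat_lit 25) (nat_lit 11))) (T.n (T.l (nat_lit 25) (nat_lit 27)) (T.n (T.l (nat_lit 25) (nat_lit 53)) (T.l (nat_lit 27) (nat_lit 2))))) (T.n (T.n (T.l (nat_lit 27) (nat_lit 25)) (T.l (nat_lit 27) (nat_lit 31))) (T.n (T.l (nat_lit 27) (nat_lit 52)) (T.n (T.l (nat_lit 28) (nat_lit 2)) (T.l (nat_lit 28) (nat_lit 6)))))) (T.n (T.n (T.n (T.l (nat_lit 29) (nat_lit 49)) (T.l (nat_lit 29) (nat_lit 52))) (T.n (T.l (nat_lit 31) (nat_lit 12)) (T.n (T.l (nat_lit 31) (nat_lit 27)) (T.l (nat_lit 31) (nat_lit 53))))) (T.n (T.n (T.l (nat_lit 31) (nat_lit 59)) (T.l (nat_lit 43) (nat_lit 6))) (T.n (T.l (nat_lit 43) (nat_lit 17)) (T.n (T.l (nat_lit 43) (nat_lit 24))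 (T.l (nat_lit 43) (nat_lit 56))))))) (T.n (T.n (T.n (T.n (T.l (nat_lit 49) (nat_lit 14)) (T.l (nat_lit 49) (nat_lit 19))) (T.n (T.l (nat_lit 49) (nat_lit 29)) (T.n (T.l (nat_lit 49) (nat_lit 59)) (T.l (nat_lit 52) (nat_lit 7))))) (T.n (T.n (T.l (nat_lit 52) (nat_lit 27)) (T.l (nat_lit 52) (nat_lit 29))) (T.n (T.l (nat_lit 52) (nat_lit 59)) (T.n (T.l (nat_lit 53) (nat_lit 25)) (T.l (nat_lit 53) (nat_lit 31)))))) (T.n (T.n (T.n (T.l (nat_lit 55) (nat_lit 17)) (T.l (nat_lit 55) (nat_lit 20))) (T.n (T.l (nat_lit 56) (nat_lit 3)) (T.n (T.l (nat_lit 56) (nat_lit 11)) (T.l (nat_lit 56) (nat_lit 13))))) (T.n (T.n (T.l (nat_lit 56) (nat_lit 43)) (T.l (nat_lit 59) (nat_lit 20))) (T.n (T.l (nat_lit 59) (nat_lit 31)) (T.n (T.l (nat_lit 59) (nat_lit 49)) (T.l (nat_lit 59) (nat_lit 52))))))))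
def T85_3 : T := T.n (T.n (T.n (T.n (T.n (T.n (T.l (nat_lit 1) (nat_lit 10)) (T.l (nat_lit 1) (nat_lit 35))) (T.n (T.l (nat_lit 1) (nat_lit 39)) (T.n (T.l (nat_lit 1) (nat_lit 42)) (T.l (nat_lit 3) (nat_lit 9))))) (T.n (T.n (T.l (nat_lit 3) (nat_lit 10)) (T.l (nat_lit 4) (nat_lit 9))) (T.n (T.l (nat_lit 4) (nat_lit 23)) (T.n (T.l (nat_lit 4) (nat_lit 39)) (T.l (nat_lit 4) (nat_lit 42)))))) (T.n (T.n (T.n (T.l (nat_lit 5) (nat_lit 42)) (T.l (nat_lit 5) (nat_lit 44))) (T.n (T.l (nat_lit 7) (nat_lit 18)) (T.n (T.l (nat_lit 7) (nat_lit 42)) (T.l (nat_lit 9) (nat_lit 3))))) (T.n (T.n (T.l (nat_lit 9) (nat_lit 4)) (T.l (nat_lit 9) (nat_lit 15))) (T.n (T.l (nat_lit 9) (nat_lit 55)) (T.n (T.l (nat_lit 10) (nat_lit 1)) (T.l (nat_lit 10) (nat_lit 3))))))) (T.n (T.n (T.n (T.n (T.l (nat_lit 10) (nat_lit 12)) (T.l (nat_lit 10) (nat_lit 40))) (T.n (T.l (nat_lit 12) (nat_lit 10))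 (T.n (T.l (nat_lit 12) (nat_lit 37)) (T.l (nat_lit 13) (nat_lit 37))))) (T.n (T.n (T.l (nat_lit 13) (nat_lit 39)) (T.l (nat_lit 15) (nat_lit 9))) (T.n (T.l (nat_lit 15) (nat_lit 23)) (T.n (T.l (nat_lit 15) (nat_lit 37)) (T.l (nat_lit 15) (nat_lit 44)))))) (T.n (T.n (T.n (T.l (nat_lit 18) (nat_lit 7)) (T.l (nat_lit 18) (nat_lit 19))) (T.n (T.l (nat_lit 18) (nat_lit 22)) (T.n (T.l (nat_lit 18) (nat_lit 40)) (T.l (nat_lit 19) (nat_lit 18))))) (T.n (T.n (T.l (nat_lit 19) (nat_lit 23)) (T.l (nat_lit 22) (nat_lit 18))) (T.n (T.l (nat_lit 22) (nat_lit 37)) (T.n (T.l (nat_lit 22) (nat_lit 44)) (T.l (nat_lit 22) (nat_lit 51)))))))) (T.n (T.n (T.n (T.n (T.n (T.l (nat_lit 23) (nat_lit 4)) (T.l (nat_lit 23) (nat_lit 15))) (T.n (T.l (nat_lit 23) (nat_lit 19)) (T.n (T.l (nat_lit 23) (nat_lit 28)) (T.l (nat_lit 28) (nat_lit 23))))) (T.n (T.n (T.l (nat_lit 28) (nat_lit 35)) (T.l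 (nat_lit 29) (nat_lit 35))) (T.n (T.l (nat_lit 29) (nat_lit 44)) (T.n (T.l (nat_lit 35) (nat_lit 1)) (T.l (nat_lit 35) (nat_lit 28)))))) (T.n (T.n (T.n (T.l (nat_lit 35) (nat_lit 29)) (T.l (nat_lit 35) (nat_lit 40))) (T.n (T.l (nat_lit 37) (nat_lit 12)) (T.n (T.l (nat_lit 37) (nat_lit 13)) (T.l (nat_lit 37) (nat_lit 15))))) (T.n (T.n (T.l (nat_lit 37) (nat_lit 22)) (T.l (nat_lit 39) (nat_lit 1))) (T.n (T.l (nat_lit 39) (nat_lit 4)) (T.n (T.l (nat_lit 39) (nat_lit 13)) (T.l (nat_lit 39) (nat_lit 53))))))) (T.n (T.n (T.n (T.n (T.l (nat_lit 40) (nat_lit 10)) (T.l (nat_lit 40) (nat_lit 18))) (T.n (T.l (nat_lit 40) (nat_lit 35)) (T.n (T.l (nat_lit 40) (nat_lit 51)) (T.l (nat_lit 42) (nat_lit 1))))) (T.n (T.n (T.l (nat_lit 42) (nat_lit 4)) (T.l (nat_lit 42) (nat_lit 5))) (T.n (T.l (nat_lit 42) (nat_lit 7)) (T.n (T.l (nat_lit 44) (nat_lit 5)) (T.l (nat_lit 44) (nat_lit 15))))))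 (T.n (T.n (T.n (T.l (nat_lit 44) (nat_lit 22)) (T.l (nat_lit 44) (nat_lit 29))) (T.n (T.l (nat_lit 51) (nat_lit 22)) (T.n (T.l (nat_lit 51) (nat_lit 40)) (T.l (nat_lit 51) (nat_lit 53))))) (T.n (T.n (T.l (nat_lit 51) (nat_lit 55)) (T.l (nat_lit 53) (nat_lit 39))) (T.n (T.l (nat_lit 53) (nat_lit 51)) (T.n (T.l (nat_lit 55) (nat_lit 9)) (T.l (nat_lit 55) (nat_lit 51))))))))
def T86_3 : T := T.n (T.n (T.n (T.n (T.n (T.l (nat_lit 1) (nat_lit 8)) (T.l (nat_lit 1) (nat_lit 36))) (T.n (T.l (nat_lit 1) (nat_lit 41)) (T.n (T.l (nat_lit 1) (nat_lit 50)) (T.l (nat_lit 4) (nat_lit 8))))) (T.n (T.n (T.l (nat_lit 4) (nat_lit 30)) (T.l (nat_lit 4) (nat_lit 50))) (T.n (T.l (nat_lit 4) (nat_lit 54)) (T.n (T.l (nat_lit 8) (nat_lit 1)) (T.l (nat_lit 8) (nat_lit 4)))))) (T.n (T.n (T.n (T.l (nat_lit 15) (nat_lit 21)) (T.l (nat_lit 15) (nat_lit 30))) (T.n (T.l (nat_lit 15) (nat_lit 33))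 (T.n (T.l (nat_lit 15) (nat_lit 54)) (T.l (nat_lit 21) (nat_lit 15))))) (T.n (T.n (T.l (nat_lit 21) (nat_lit 22)) (T.l (nat_lit 22) (nat_lit 21))) (T.n (T.l (nat_lit 22) (nat_lit 33)) (T.n (T.l (nat_lit 22) (nat_lit 46)) (T.l (nat_lit 22) (nat_lit 47))))))) (T.n (T.n (T.n (T.n (T.l (nat_lit 30) (nat_lit 4)) (T.l (nat_lit 30) (nat_lit 15))) (T.n (T.l (nat_lit 33) (nat_lit 15)) (T.n (T.l (nat_lit 33) (nat_lit 22)) (T.l (nat_lit 36) (nat_lit 1))))) (T.n (T.n (T.l (nat_lit 36) (nat_lit 40)) (T.l (nat_lit 40) (nat_lit 36))) (T.n (T.l (nat_lit 40) (nat_lit 41)) (T.n (T.l (nat_lit 40) (nat_lit 46)) (T.l (nat_lit 40) (nat_lit 47)))))) (T.n (T.n (T.n (T.l (nat_lit 41) (nat_lit 1)) (T.l (nat_lit 41) (nat_lit 40))) (T.n (T.l (nat_lit 46) (nat_lit 22)) (T.n (T.l (nat_lit 46) (nat_lit 40)) (T.l (nat_lit 47) (nat_lit 22))))) (T.n (T.n (T.l (nat_lit 47) (nat_lit 40)) (T.l (nat_lit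 50) (nat_lit 1))) (T.n (T.l (nat_lit 50) (nat_lit 4)) (T.n (T.l (nat_lit 54) (nat_lit 4)) (T.l (nat_lit 54) (nat_lit 15)))))))
def T87_3 : T := T.n (T.n (T.n (T.n (T.n (T.n (T.l (nat_lit 3) (nat_lit 18)) (T.l (nat_lit 3) (nat_lit 44))) (T.n (T.l (nat_lit 5) (nat_lit 10)) (T.n (T.l (nat_lit 5) (nat_lit 51)) (T.l (nat_lit 7) (nat_lit 9))))) (T.n (T.n (T.l (nat_lit 7) (nat_lit 37)) (T.l (nat_lit 9) (nat_lit 7))) (T.n (T.l (nat_lit 9) (nat_lit 11)) (T.n (T.l (nat_lit 9) (nat_lit 14)) (T.l (nat_lit 9) (nat_lit 29)))))) (T.n (T.n (T.n (T.l (nat_lit 10) (nat_lit 5)) (T.l (nat_lit 10) (nat_lit 11))) (T.n (T.l (nat_lit 10) (nat_lit 19)) (T.n (T.l (nat_lit 10) (nat_lit 59)) (T.l (nat_lit 11) (nat_lit 9))))) (T.n (T.n (T.l (nat_lit 11) (nat_lit 10)) (T.l (nat_lit 11) (nat_lit 23))) (T.n (T.l (nat_lit 11) (nat_lit 35)) (T.n (T.l (nat_lit 12) (nat_lit 23)) (T.l (nat_lit 12) (nat_lit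 42))))))) (T.n (T.n (T.n (T.n (T.l (nat_lit 13) (nat_lit 18)) (T.l (nat_lit 13) (nat_lit 35))) (T.n (T.l (nat_lit 14) (nat_lit 9)) (T.n (T.l (nat_lit 14) (nat_lit 18)) (T.l (nat_lit 14) (nat_lit 23))))) (T.n (T.n (T.l (nat_lit 14) (nat_lit 51)) (T.l (nat_lit 18) (nat_lit 3))) (T.n (T.l (nat_lit 18) (nat_lit 13)) (T.n (T.l (nat_lit 18) (nat_lit 14)) (T.l (nat_lit 18) (nat_lit 27)))))) (T.n (T.n (T.n (T.l (nat_lit 19) (nat_lit 10)) (T.l (nat_lit 19) (nat_lit 39))) (T.n (T.l (nat_lit 23) (nat_lit 11)) (T.n (T.l (nat_lit 23) (nat_lit 12)) (T.l (nat_lit 23) (nat_lit 14))))) (T.n (T.n (T.l (nat_lit 23) (nat_lit 53)) (T.l (nat_lit 27) (nat_lit 18))) (T.n (T.l (nat_lit 27) (nat_lit 39)) (T.n (T.l (nat_lit 27) (nat_lit 42)) (T.l (nat_lit 27) (nat_lit 51)))))))) (T.n (T.n (T.n (T.n (T.n (T.l (nat_lit 28) (nat_lit 37)) (T.l (nat_lit 28) (nat_lit 51))) (T.n (T.l (nat_lit 29)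 (nat_lit 9)) (T.n (T.l (nat_lit 29) (nat_lit 39)) (T.l (nat_lit 35) (nat_lit 11))))) (T.n (T.n (T.l (nat_lit 35) (nat_lit 13)) (T.l (nat_lit 35) (nat_lit 55))) (T.n (T.l (nat_lit 35) (nat_lit 59)) (T.n (T.l (nat_lit 37) (nat_lit 7)) (T.l (nat_lit 37) (nat_lit 28)))))) (T.n (T.n (T.n (T.l (nat_lit 37) (nat_lit 43)) (T.l (nat_lit 37) (nat_lit 59))) (T.n (T.l (nat_lit 39) (nat_lit 19)) (T.n (T.l (nat_lit 39) (nat_lit 27)) (T.l (nat_lit 39) (nat_lit 29))))) (T.n (T.n (T.l (nat_lit 39) (nat_lit 43)) (T.l (nat_lit 42) (nat_lit 12))) (T.n (T.l (nat_lit 42) (nat_lit 27)) (T.n (T.l (nat_lit 42) (nat_lit 43)) (T.l (nat_lit 42) (nat_lit 55))))))) (T.n (T.n (T.n (T.n (T.l (nat_lit 43) (nat_lit 37)) (T.l (nat_lit 43) (nat_lit 39))) (T.n (T.l (nat_lit 43) (nat_lit 42)) (T.n (T.l (nat_lit 43) (nat_lit 44)) (T.l (nat_lit 44) (nat_lit 3))))) (T.n (T.n (T.l (nat_lit 44) (nat_lit 43))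 (T.l (nat_lit 44) (nat_lit 53))) (T.n (T.l (nat_lit 44) (nat_lit 59)) (T.n (T.l (nat_lit 51) (nat_lit 5)) (T.l (nat_lit 51) (nat_lit 14)))))) (T.n (T.n (T.n (T.l (nat_lit 51) (nat_lit 27)) (T.l (nat_lit 51) (nat_lit 28))) (T.n (T.l (nat_lit 53) (nat_lit 23)) (T.n (T.l (nat_lit 53) (nat_lit 44)) (T.l (nat_lit 55) (nat_lit 35))))) (T.n (T.n (T.l (nat_lit 55) (nat_lit 42)) (T.l (nat_lit 59) (nat_lit 10))) (T.n (T.l (nat_lit 59) (nat_lit 35)) (T.n (T.l (nat_lit 59) (nat_lit 37)) (T.l (nat_lit 59) (nat_lit 44))))))))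
def T88_3 : T := T.n (T.n (T.n (T.n (T.n (T.l (nat_lit 3) (nat_lit 36)) (T.l (nat_lit 3) (nat_lit 54))) (T.n (T.l (nat_lit 5) (nat_lit 8)) (T.n (T.l (nat_lit 5) (nat_lit 33)) (T.l (nat_lit 7) (nat_lit 8))))) (T.n (T.n (T.l (nat_lit 7) (nat_lit 47)) (T.l (nat_lit 8) (nat_lit 5))) (T.n (T.l (nat_lit 8) (nat_lit 7)) (T.n (T.l (nat_lit 12) (nat_lit 21)) (T.l (nat_lit 12) (nat_lit 36)))))) (T.n (T.n (T.n (T.l (nat_lit 13) (nat_lit 21)) (T.l (nat_lit 13) (nat_lit 50))) (T.n (T.l (nat_lit 19) (nat_lit 30)) (T.n (T.l (nat_lit 19) (nat_lit 47)) (T.l (nat_lit 21) (nat_lit 12))))) (T.n (T.n (T.l (nat_lit 21) (nat_lit 13)) (T.l (nat_lit 28) (nat_lit 30))) (T.n (T.l (nat_lit 28) (nat_lit 41)) (T.n (T.l (nat_lit 29) (nat_lit 33)) (T.l (nat_lit 29) (nat_lit 41))))))) (T.n (T.n (T.n (T.n (T.l (nat_lit 30) (nat_lit 19)) (T.l (nat_lit 30) (nat_lit 28))) (T.n (T.l (nat_lit 33) (nat_lit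 5)) (T.n (T.l (nat_lit 33) (nat_lit 29)) (T.l (nat_lit 36) (nat_lit 3))))) (T.n (T.n (T.l (nat_lit 36) (nat_lit 12)) (T.l (nat_lit 41) (nat_lit 28))) (T.n (T.l (nat_lit 41) (nat_lit 29)) (T.n (T.l (nat_lit 46) (nat_lit 53)) (T.l (nat_lit 46) (nat_lit 55)))))) (T.n (T.n (T.n (T.l (nat_lit 47) (nat_lit 7)) (T.l (nat_lit 47) (nat_lit 19))) (T.n (T.l (nat_lit 50) (nat_lit 13)) (T.n (T.l (nat_lit 50) (nat_lit 53)) (T.l (nat_lit 53) (nat_lit 46))))) (T.n (T.n (T.l (nat_lit 53) (nat_lit 50)) (T.l (nat_lit 54) (nat_lit 3))) (T.n (T.l (nat_lit 54) (nat_lit 55)) (T.n (T.l (nat_lit 55) (nat_lit 46)) (T.l (nat_lit 55) (nat_lit 54)))))))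
def T89_3 : T := T.n (T.n (T.n (T.n (T.l (nat_lit 3) (nat_lit 12)) (T.l (nat_lit 3) (nat_lit 55))) (T.n (T.l (nat_lit 5) (nat_lit 7)) (T.n (T.l (nat_lit 5) (nat_lit 29)) (T.l (nat_lit 7) (nat_lit 5))))) (T.n (T.n (T.l (nat_lit 7) (nat_lit 19)) (T.l (nat_lit 12) (nat_lit 3))) (T.n (T.l (nat_lit 12) (nat_lit 13)) (T.n (T.l (nat_lit 13) (nat_lit 12)) (T.l (nat_lit 13) (nat_lit 53)))))) (T.n (T.n (T.n (T.l (nat_lit 19) (nat_lit 7)) (T.l (nat_lit 19) (nat_lit 28))) (T.n (T.l (nat_lit 28) (nat_lit 19)) (T.n (T.l (nat_lit 28) (nat_lit 29)) (T.l (nat_lit 29) (nat_lit 5))))) (T.n (T.n (T.l (nat_lit 29) (nat_lit 28)) (T.l (nat_lit 53) (nat_lit 13))) (T.n (T.l (nat_lit 53) (nat_lit 55)) (T.n (T.l (nat_lit 55) (nat_lit 3)) (T.l (nat_lit 55) (nat_lit 53))))))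
def T90_3 : T := T.n (T.n (T.n (T.n (T.n (T.l (nat_lit 1) (nat_lit 9)) (T.l (nat_lit 1) (nat_lit 18))) (T.n (T.l (nat_lit 1) (nat_lit 23)) (T.n (T.l (nat_lit 1) (nat_lit 51)) (T.l (nat_lit 4) (nat_lit 10))))) (T.n (T.n (T.l (nat_lit 4) (nat_lit 35)) (T.l (nat_lit 4) (nat_lit 37))) (T.n (T.l (nat_lit 4) (nat_lit 44)) (T.n (T.l (nat_lit 9) (nat_lit 1)) (T.l (nat_lit 9) (nat_lit 22)))))) (T.n (T.n (T.n (T.l (nat_lit 10) (nat_lit 4)) (T.l (nat_lit 10) (nat_lit 22))) (T.n (T.l (nat_lit 15) (nat_lit 18)) (T.n (T.l (nat_lit 15) (nat_lit 39)) (T.l (nat_lit 15) (nat_lit 42))))) (T.n (T.n (T.l (nat_lit 15) (nat_lit 51)) (T.l (nat_lit 18) (nat_lit 1))) (T.n (T.l (nat_lit 18) (nat_lit 15)) (T.n (T.l (nat_lit 22) (nat_lit 9)) (T.l (nat_lit 22) (nat_lit 10))))))) (T.n (T.n (T.n (T.n (T.l (nat_lit 22) (nat_lit 23)) (T.l (nat_lit 22) (nat_lit 35))) (T.n (T.l (nat_lit 23) (nat_lit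 1)) (T.n (T.l (nat_lit 23) (nat_lit 22)) (T.l (nat_lit 35) (nat_lit 4))))) (T.n (T.n (T.l (nat_lit 35) (nat_lit 22)) (T.l (nat_lit 37) (nat_lit 4))) (T.n (T.l (nat_lit 37) (nat_lit 40)) (T.n (T.l (nat_lit 39) (nat_lit 15)) (T.l (nat_lit 39) (nat_lit 40)))))) (T.n (T.n (T.n (T.l (nat_lit 40) (nat_lit 37)) (T.l (nat_lit 40) (nat_lit 39))) (T.n (T.l (nat_lit 40) (nat_lit 42)) (T.n (T.l (nat_lit 40) (nat_lit 44)) (T.l (nat_lit 42) (nat_lit 15))))) (T.n (T.n (T.l (nat_lit 42) (nat_lit 40)) (T.l (nat_lit 44) (nat_lit 4))) (T.n (T.l (nat_lit 44) (nat_lit 40)) (T.n (T.l (nat_lit 51) (nat_lit 1)) (T.l (nat_lit 51) (nat_lit 15)))))))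
def T91_3 : T := T.n (T.n (T.n (T.n (T.n (T.l (nat_lit 2) (nat_lit 6)) (T.n (T.l (nat_lit 2) (nat_lit 10)) (T.l (nat_lit 2) (nat_lit 39)))) (T.n (T.n (T.l (nat_lit 2) (nat_lit 52)) (T.l (nat_lit 6) (nat_lit 2))) (T.n (T.l (nat_lit 6) (nat_lit 9)) (T.l (nat_lit 6) (nat_lit 24))))) (T.n (T.n (T.n (T.l (nat_lit 6) (nat_lit 39)) (T.l (nat_lit 9) (nat_lit 6))) (T.n (T.l (nat_lit 9) (nat_lit 24)) (T.l (nat_lit 10) (nat_lit 2)))) (T.n (T.n (T.l (nat_lit 10) (nat_lit 52)) (T.l (nat_lit 17) (nat_lit 20))) (T.n (T.l (nat_lit 17) (nat_lit 23)) (T.l (nat_lit 17) (nat_lit 44)))))) (T.n (T.n (T.n (T.l (nat_lit 17) (nat_lit 56)) (T.n (T.l (nat_lit 18) (nat_lit 20)) (T.l (nat_lit 18) (nat_lit 31)))) (T.n (T.n (T.l (nat_lit 20) (nat_lit 17)) (T.l (nat_lit 20) (nat_lit 18))) (T.n (T.l (nat_lit 20) (nat_lit 31)) (T.l (nat_lit 20) (nat_lit 44))))) (T.n (T.n (T.n (T.l (nat_lit 23) (nat_lit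 17)) (T.l (nat_lit 23) (nat_lit 56))) (T.n (T.l (nat_lit 24) (nat_lit 6)) (T.l (nat_lit 24) (nat_lit 9)))) (T.n (T.n (T.l (nat_lit 24) (nat_lit 37)) (T.l (nat_lit 24) (nat_lit 49))) (T.n (T.l (nat_lit 25) (nat_lit 31)) (T.l (nat_lit 25) (nat_lit 35))))))) (T.n (T.n (T.n (T.n (T.l (nat_lit 25) (nat_lit 42)) (T.n (T.l (nat_lit 25) (nat_lit 56)) (T.l (nat_lit 31) (nat_lit 18)))) (T.n (T.n (T.l (nat_lit 31) (nat_lit 20)) (T.l (nat_lit 31) (nat_lit 25))) (T.n (T.l (nat_lit 31) (nat_lit 35)) (T.l (nat_lit 35) (nat_lit 25))))) (T.n (T.n (T.n (T.l (nat_lit 35) (nat_lit 31)) (T.l (nat_lit 37) (nat_lit 24))) (T.n (T.l (nat_lit 37) (nat_lit 49)) (T.l (nat_lit 39) (nat_lit 2)))) (T.n (T.n (T.l (nat_lit 39) (nat_lit 6)) (T.l (nat_lit 42) (nat_lit 25))) (T.n (T.l (nat_lit 42) (nat_lit 56)) (T.l (nat_lit 44) (nat_lit 17)))))) (T.n (T.n (T.n (T.l (nat_lit 44) (nat_lit 20)) (T.n (T.l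 (nat_lit 49) (nat_lit 24)) (T.l (nat_lit 49) (nat_lit 37)))) (T.n (T.n (T.l (nat_lit 49) (nat_lit 51)) (T.l (nat_lit 49) (nat_lit 52))) (T.n (T.l (nat_lit 51) (nat_lit 49)) (T.l (nat_lit 51) (nat_lit 52))))) (T.n (T.n (T.n (T.l (nat_lit 52) (nat_lit 2)) (T.l (nat_lit 52) (nat_lit 10))) (T.n (T.l (nat_lit 52) (nat_lit 49)) (T.l (nat_lit 52) (nat_lit 51)))) (T.n (T.n (T.l (nat_lit 56) (nat_lit 17)) (T.l (nat_lit 56) (nat_lit 23))) (T.n (T.l (nat_lit 56) (nat_lit 25)) (T.l (nat_lit 56) (nat_lit 42)))))))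
def T92_3 : T := T.n (T.n (T.n (T.n (T.n (T.l (nat_lit 2) (nat_lit 12)) (T.l (nat_lit 2) (nat_lit 13))) (T.n (T.l (nat_lit 3) (nat_lit 24)) (T.n (T.l (nat_lit 3) (nat_lit 52)) (T.l (nat_lit 5) (nat_lit 20))))) (T.n (T.n (T.l (nat_lit 5) (nat_lit 25)) (T.l (nat_lit 6) (nat_lit 53))) (T.n (T.l (nat_lit 6) (nat_lit 55)) (T.n (T.l (nat_lit 7) (nat_lit 20)) (T.l (nat_lit 7) (nat_lit 56)))))) (T.n (T.n (T.n (T.l (nat_lit 12) (nat_lit 2)) (T.l (nat_lit 12) (nat_lit 24))) (T.n (T.l (nat_lit 13) (nat_lit 2)) (T.n (T.l (nat_lit 13) (nat_lit 49)) (T.l (nat_lit 17) (nat_lit 28))))) (T.n (T.n (T.l (nat_lit 17) (nat_lit 29)) (T.l (nat_lit 19) (nat_lit 31))) (T.n (T.l (nat_lit 19) (nat_lit 56)) (T.n (T.l (nat_lit 20) (nat_lit 5)) (T.l (nat_lit 20) (nat_lit 7))))))) (T.n (T.n (T.n (T.n (T.l (nat_lit 24) (nat_lit 3)) (T.l (nat_lit 24) (nat_lit 12))) (T.n (T.l (nat_lit 25) (nat_lit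 5)) (T.n (T.l (nat_lit 25) (nat_lit 29)) (T.l (nat_lit 28) (nat_lit 17))))) (T.n (T.n (T.l (nat_lit 28) (nat_lit 31)) (T.l (nat_lit 29) (nat_lit 17))) (T.n (T.l (nat_lit 29) (nat_lit 25)) (T.n (T.l (nat_lit 31) (nat_lit 19)) (T.l (nat_lit 31) (nat_lit 28)))))) (T.n (T.n (T.n (T.l (nat_lit 49) (nat_lit 13)) (T.l (nat_lit 49) (nat_lit 53))) (T.n (T.l (nat_lit 52) (nat_lit 3)) (T.n (T.l (nat_lit 52) (nat_lit 55)) (T.l (nat_lit 53) (nat_lit 6))))) (T.n (T.n (T.l (nat_lit 53) (nat_lit 49)) (T.l (nat_lit 55) (nat_lit 6))) (T.n (T.l (nat_lit 55) (nat_lit 52)) (T.n (T.l (nat_lit 56) (nat_lit 7)) (T.l (nat_lit 56) (nat_lit 19)))))))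
def T93_3 : T := T.n (T.n (T.n (T.n (T.n (T.n (T.l (nat_lit 3) (nat_lit 21)) (T.l (nat_lit 3) (nat_lit 46))) (T.n (T.l (nat_lit 5) (nat_lit 41)) (T.n (T.l (nat_lit 5) (nat_lit 47)) (T.l (nat_lit 7) (nat_lit 30))))) (T.n (T.n (T.l (nat_lit 7) (nat_lit 33)) (T.l (nat_lit 8) (nat_lit 14))) (T.n (T.l (nat_lit 8) (nat_lit 19)) (T.n (T.l (nat_lit 8) (nat_lit 29)) (T.l (nat_lit 8) (nat_lit 59)))))) (T.n (T.n (T.n (T.l (nat_lit 11) (nat_lit 21)) (T.l (nat_lit 11) (nat_lit 33))) (T.n (T.l (nat_lit 11) (nat_lit 46)) (T.n (T.l (nat_lit 11) (nat_lit 47)) (T.l (nat_lit 12) (nat_lit 50))))) (T.n (T.n (T.l (nat_lit 12) (nat_lit 54)) (T.l (nat_lit 13) (nat_lit 36))) (T.n (T.l (nat_lit 13) (nat_lit 46)) (T.n (T.l (nat_lit 14) (nat_lit 8)) (T.l (nat_lit 14) (nat_lit 36))))))) (T.n (T.n (T.n (T.n (T.l (nat_lit 14) (nat_lit 41)) (T.l (nat_lit 14) (nat_lit 50))) (T.n (T.l (nat_lit 19)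 (nat_lit 8)) (T.n (T.l (nat_lit 19) (nat_lit 41)) (T.l (nat_lit 21) (nat_lit 3))))) (T.n (T.n (T.l (nat_lit 21) (nat_lit 11)) (T.l (nat_lit 21) (nat_lit 27))) (T.n (T.l (nat_lit 21) (nat_lit 53)) (T.n (T.l (nat_lit 27) (nat_lit 21)) (T.l (nat_lit 27) (nat_lit 30)))))) (T.n (T.n (T.n (T.l (nat_lit 27) (nat_lit 33)) (T.l (nat_lit 27) (nat_lit 54))) (T.n (T.l (nat_lit 28) (nat_lit 33)) (T.n (T.l (nat_lit 28) (nat_lit 47)) (T.l (nat_lit 29) (nat_lit 8))))) (T.n (T.n (T.l (nat_lit 29) (nat_lit 30)) (T.l (nat_lit 30) (nat_lit 7))) (T.n (T.l (nat_lit 30) (nat_lit 27)) (T.n (T.l (nat_lit 30) (nat_lit 29)) (T.l (nat_lit 30) (nat_lit 59)))))))) (T.n (T.n (T.n (T.n (T.n (T.l (nat_lit 33) (nat_lit 7)) (T.l (nat_lit 33) (nat_lit 11))) (T.n (T.l (nat_lit 33) (nat_lit 27)) (T.n (T.l (nat_lit 33) (nat_lit 28)) (T.l (nat_lit 36) (nat_lit 13))))) (T.n (T.n (T.l (nat_lit 36) (nat_lit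 14)) (T.l (nat_lit 36) (nat_lit 43))) (T.n (T.l (nat_lit 36) (nat_lit 55)) (T.n (T.l (nat_lit 41) (nat_lit 5)) (T.l (nat_lit 41) (nat_lit 14)))))) (T.n (T.n (T.n (T.l (nat_lit 41) (nat_lit 19)) (T.l (nat_lit 41) (nat_lit 43))) (T.n (T.l (nat_lit 43) (nat_lit 36)) (T.n (T.l (nat_lit 43) (nat_lit 41)) (T.l (nat_lit 43) (nat_lit 46))))) (T.n (T.n (T.l (nat_lit 43) (nat_lit 47)) (T.l (nat_lit 46) (nat_lit 3))) (T.n (T.l (nat_lit 46) (nat_lit 11)) (T.n (T.l (nat_lit 46) (nat_lit 13)) (T.l (nat_lit 46) (nat_lit 43))))))) (T.n (T.n (T.n (T.n (T.l (nat_lit 47) (nat_lit 5)) (T.l (nat_lit 47) (nat_lit 11))) (T.n (T.l (nat_lit 47) (nat_lit 28)) (T.n (T.l (nat_lit 47) (nat_lit 43)) (T.l (nat_lit 50) (nat_lit 12))))) (T.n (T.n (T.l (nat_lit 50) (nat_lit 14)) (T.l (nat_lit 50) (nat_lit 55))) (T.n (T.l (nat_lit 50) (nat_lit 59)) (T.n (T.l (nat_lit 53) (nat_lit 21)) (T.l (nat_lit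 53) (nat_lit 54)))))) (T.n (T.n (T.n (T.l (nat_lit 54) (nat_lit 12)) (T.l (nat_lit 54) (nat_lit 27))) (T.n (T.l (nat_lit 54) (nat_lit 53)) (T.n (T.l (nat_lit 54) (nat_lit 59)) (T.l (nat_lit 55) (nat_lit 36))))) (T.n (T.n (T.l (nat_lit 55) (nat_lit 50)) (T.l (nat_lit 59) (nat_lit 8))) (T.n (T.l (nat_lit 59) (nat_lit 30)) (T.n (T.l (nat_lit 59) (nat_lit 50)) (T.l (nat_lit 59) (nat_lit 54))))))))
def T94_3 : T := T.n (T.n (T.n (T.n (T.l (nat_lit 3) (nat_lit 11)) (T.l (nat_lit 5) (nat_lit 43))) (T.n (T.l (nat_lit 7) (nat_lit 27)) (T.n (T.l (nat_lit 11) (nat_lit 3)) (T.l (nat_lit 11) (nat_lit 28))))) (T.n (T.n (T.l (nat_lit 12) (nat_lit 59)) (T.l (nat_lit 13) (nat_lit 43))) (T.n (T.l (nat_lit 14) (nat_lit 19)) (T.n (T.l (nat_lit 14) (nat_lit 55)) (T.l (nat_lit 19) (nat_lit 14)))))) (T.n (T.n (T.n (T.l (nat_lit 27) (nat_lit 7)) (T.l (nat_lit 27) (nat_lit 53))) (T.n (T.l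 (nat_lit 28) (nat_lit 11)) (T.n (T.l (nat_lit 29) (nat_lit 59)) (T.l (nat_lit 43) (nat_lit 5))))) (T.n (T.n (T.l (nat_lit 43) (nat_lit 13)) (T.l (nat_lit 53) (nat_lit 27))) (T.n (T.l (nat_lit 55) (nat_lit 14)) (T.n (T.l (nat_lit 59) (nat_lit 12)) (T.l (nat_lit 59) (nat_lit 29))))))
def T95_3 : T := T.n (T.n (T.n (T.n (T.n (T.l (nat_lit 8) (nat_lit 30)) (T.n (T.l (nat_lit 8) (nat_lit 37)) (T.l (nat_lit 8) (nat_lit 41)))) (T.n (T.n (T.l (nat_lit 8) (nat_lit 51)) (T.l (nat_lit 9) (nat_lit 41))) (T.n (T.l (nat_lit 9) (nat_lit 47)) (T.l (nat_lit 10) (nat_lit 30))))) (T.n (T.n (T.n (T.l (nat_lit 10) (nat_lit 33)) (T.l (nat_lit 18) (nat_lit 50))) (T.n (T.l (nat_lit 18) (nat_lit 54)) (T.l (nat_lit 21) (nat_lit 35)))) (T.n (T.n (T.l (nat_lit 21) (nat_lit 42)) (T.l (nat_lit 21) (nat_lit 46))) (T.n (T.l (nat_lit 21) (nat_lit 54)) (T.l (nat_lit 23) (nat_lit 36)))))) (T.n (T.n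 (T.n (T.l (nat_lit 23) (nat_lit 46)) (T.n (T.l (nat_lit 30) (nat_lit 8)) (T.l (nat_lit 30) (nat_lit 10)))) (T.n (T.n (T.l (nat_lit 30) (nat_lit 33)) (T.l (nat_lit 30) (nat_lit 51))) (T.n (T.l (nat_lit 33) (nat_lit 10)) (T.l (nat_lit 33) (nat_lit 30))))) (T.n (T.n (T.n (T.l (nat_lit 33) (nat_lit 39)) (T.l (nat_lit 33) (nat_lit 47))) (T.n (T.l (nat_lit 35) (nat_lit 21)) (T.l (nat_lit 35) (nat_lit 54)))) (T.n (T.n (T.l (nat_lit 36) (nat_lit 23)) (T.l (nat_lit 36) (nat_lit 44))) (T.n (T.l (nat_lit 36) (nat_lit 46)) (T.l (nat_lit 36) (nat_lit 50))))))) (T.n (T.n (T.n (T.n (T.l (nat_lit 37) (nat_lit 8)) (T.n (T.l (nat_lit 37) (nat_lit 41)) (T.l (nat_lit 39) (nat_lit 33)))) (T.n (T.n (T.l (nat_lit 39) (nat_lit 47)) (T.l (nat_lit 41) (nat_lit 8))) (T.n (T.l (nat_lit 41) (nat_lit 9)) (T.l (nat_lit 41) (nat_lit 37))))) (T.n (T.n (T.n (T.l (nat_lit 41) (nat_lit 47)) (T.l (nat_lit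 42) (nat_lit 21))) (T.n (T.l (nat_lit 42) (nat_lit 46)) (T.l (nat_lit 44) (nat_lit 36)))) (T.n (T.n (T.l (nat_lit 44) (nat_lit 50)) (T.l (nat_lit 46) (nat_lit 21))) (T.n (T.l (nat_lit 46) (nat_lit 23)) (T.l (nat_lit 46) (nat_lit 36)))))) (T.n (T.n (T.n (T.l (nat_lit 46) (nat_lit 42)) (T.n (T.l (nat_lit 47) (nat_lit 9)) (T.l (nat_lit 47) (nat_lit 33)))) (T.n (T.n (T.l (nat_lit 47) (nat_lit 39)) (T.l (nat_lit 47) (nat_lit 41))) (T.n (T.l (nat_lit 50) (nat_lit 18)) (T.l (nat_lit 50) (nat_lit 36))))) (T.n (T.n (T.n (T.l (nat_lit 50) (nat_lit 44)) (T.l (nat_lit 50) (nat_lit 54))) (T.n (T.l (nat_lit 51) (nat_lit 8)) (T.l (nat_lit 51) (nat_lit 30)))) (T.n (T.n (T.l (nat_lit 54) (nat_lit 18)) (T.l (nat_lit 54) (nat_lit 21))) (T.n (T.l (nat_lit 54) (nat_lit 35)) (T.l (nat_lit 54) (nat_lit 50)))))))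
def T96_3 : T := T.n (T.n (T.n (T.n (T.n (T.l (nat_lit 1) (nat_lit 21)) (T.n (T.l (nat_lit 1) (nat_lit 33)) (T.l (nat_lit 2) (nat_lit 19)))) (T.n (T.n (T.l (nat_lit 2) (nat_lit 21)) (T.l (nat_lit 3) (nat_lit 20))) (T.n (T.l (nat_lit 4) (nat_lit 46)) (T.l (nat_lit 4) (nat_lit 47))))) (T.n (T.n (T.n (T.l (nat_lit 5) (nat_lit 52)) (T.l (nat_lit 6) (nat_lit 29))) (T.n (T.l (nat_lit 6) (nat_lit 46)) (T.l (nat_lit 7) (nat_lit 24)))) (T.n (T.n (T.l (nat_lit 8) (nat_lit 20)) (T.l (nat_lit 8) (nat_lit 22))) (T.n (T.l (nat_lit 12) (nat_lit 56)) (T.l (nat_lit 13) (nat_lit 31)))))) (T.n (T.n (T.n (T.l (nat_lit 15) (nat_lit 36)) (T.n (T.l (nat_lit 15) (nat_lit 41)) (T.l (nat_lit 17) (nat_lit 41)))) (T.n (T.n (T.l (nat_lit 17) (nat_lit 53)) (T.l (nat_lit 19) (nat_lit 2))) (T.n (T.l (nat_lit 20) (nat_lit 3)) (T.l (nat_lit 20) (nat_lit 8))))) (T.n (T.n (T.n (T.l (nat_lit 21) (nat_lit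 1)) (T.l (nat_lit 21) (nat_lit 2))) (T.n (T.l (nat_lit 22) (nat_lit 8)) (T.l (nat_lit 22) (nat_lit 50)))) (T.n (T.n (T.l (nat_lit 24) (nat_lit 7)) (T.l (nat_lit 24) (nat_lit 36))) (T.n (T.l (nat_lit 25) (nat_lit 33)) (T.l (nat_lit 25) (nat_lit 55))))))) (T.n (T.n (T.n (T.n (T.l (nat_lit 28) (nat_lit 49)) (T.n (T.l (nat_lit 29) (nat_lit 6)) (T.l (nat_lit 30) (nat_lit 31)))) (T.n (T.n (T.l (nat_lit 30) (nat_lit 40)) (T.l (nat_lit 31) (nat_lit 13))) (T.n (T.l (nat_lit 31) (nat_lit 30)) (T.l (nat_lit 33) (nat_lit 1))))) (T.n (T.n (T.n (T.l (nat_lit 33) (nat_lit 25)) (T.l (nat_lit 36) (nat_lit 15))) (T.n (T.l (nat_lit 36) (nat_lit 24)) (T.l (nat_lit 40) (nat_lit 30)))) (T.n (T.n (T.l (nat_lit 40) (nat_lit 54)) (T.l (nat_lit 41) (nat_lit 15))) (T.n (T.l (nat_lit 41) (nat_lit 17)) (T.l (nat_lit 46) (nat_lit 4)))))) (T.n (T.n (T.n (T.l (nat_lit 46) (nat_lit 6)) (T.n (T.l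 (nat_lit 47) (nat_lit 4)) (T.l (nat_lit 47) (nat_lit 56)))) (T.n (T.n (T.l (nat_lit 49) (nat_lit 28)) (T.l (nat_lit 49) (nat_lit 50))) (T.n (T.l (nat_lit 50) (nat_lit 22)) (T.l (nat_lit 50) (nat_lit 49))))) (T.n (T.n (T.n (T.l (nat_lit 52) (nat_lit 5)) (T.l (nat_lit 52) (nat_lit 54))) (T.n (T.l (nat_lit 53) (nat_lit 17)) (T.l (nat_lit 54) (nat_lit 40)))) (T.n (T.n (T.l (nat_lit 54) (nat_lit 52)) (T.l (nat_lit 55) (nat_lit 25))) (T.n (T.l (nat_lit 56) (nat_lit 12)) (T.l (nat_lit 56) (nat_lit 47)))))))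
def T97_3 : T := T.n (T.n (T.n (T.n (T.n (T.n (T.l (nat_lit 1) (nat_lit 26)) (T.l (nat_lit 1) (nat_lit 38))) (T.n (T.l (nat_lit 2) (nat_lit 24)) (T.n (T.l (nat_lit 2) (nat_lit 26)) (T.l (nat_lit 2) (nat_lit 38))))) (T.n (T.n (T.l (nat_lit 2) (nat_lit 49)) (T.l (nat_lit 4) (nat_lit 57))) (T.n (T.l (nat_lit 4) (nat_lit 58)) (T.n (T.l (nat_lit 6) (nat_lit 49)) (T.l (nat_lit 6) (nat_lit 52)))))) (T.n (T.n (T.n (T.l (nat_lit 6) (nat_lit 57)) (T.l (nat_lit 6) (nat_lit 58))) (T.n (T.l (nat_lit 15) (nat_lit 26)) (T.n (T.l (nat_lit 15) (nat_lit 34)) (T.l (nat_lit 17) (nat_lit 25))))) (T.n (T.n (T.l (nat_lit 17) (nat_lit 26)) (T.l (nat_lit 17) (nat_lit 31))) (T.n (T.l (nat_lit 17) (nat_lit 34)) (T.n (T.l (nat_lit 20) (nat_lit 25)) (T.l (nat_lit 20) (nat_lit 38))))))) (T.n (T.n (T.n (T.n (T.l (nat_lit 20) (nat_lit 56)) (T.l (nat_lit 20) (nat_lit 57))) (T.n (T.l (nat_lit 22)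 (nat_lit 38)) (T.n (T.l (nat_lit 22) (nat_lit 57)) (T.l (nat_lit 24) (nat_lit 2))))) (T.n (T.n (T.l (nat_lit 24) (nat_lit 26)) (T.l (nat_lit 24) (nat_lit 34))) (T.n (T.l (nat_lit 24) (nat_lit 52)) (T.n (T.l (nat_lit 25) (nat_lit 17)) (T.l (nat_lit 25) (nat_lit 20)))))) (T.n (T.n (T.n (T.l (nat_lit 25) (nat_lit 26)) (T.l (nat_lit 25) (nat_lit 38))) (T.n (T.l (nat_lit 26) (nat_lit 1)) (T.n (T.l (nat_lit 26) (nat_lit 2)) (T.l (nat_lit 26) (nat_lit 15))))) (T.n (T.n (T.l (nat_lit 26) (nat_lit 17)) (T.l (nat_lit 26) (nat_lit 24))) (T.n (T.l (nat_lit 26) (nat_lit 25)) (T.n (T.l (nat_lit 31) (nat_lit 17)) (T.l (nat_lit 31) (nat_lit 34)))))))) (T.n (T.n (T.n (T.n (T.n (T.l (nat_lit 31) (nat_lit 56)) (T.l (nat_lit 31) (nat_lit 58))) (T.n (T.l (nat_lit 34) (nat_lit 15)) (T.n (T.l (nat_lit 34) (nat_lit 17)) (T.l (nat_lit 34) (nat_lit 24))))) (T.n (T.n (T.l (nat_lit 34) (nat_lit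 31)) (T.l (nat_lit 34) (nat_lit 40))) (T.n (T.l (nat_lit 34) (nat_lit 52)) (T.n (T.l (nat_lit 38) (nat_lit 1)) (T.l (nat_lit 38) (nat_lit 2)))))) (T.n (T.n (T.n (T.l (nat_lit 38) (nat_lit 20)) (T.l (nat_lit 38) (nat_lit 22))) (T.n (T.l (nat_lit 38) (nat_lit 25)) (T.n (T.l (nat_lit 38) (nat_lit 49)) (T.l (nat_lit 40) (nat_lit 34))))) (T.n (T.n (T.l (nat_lit 40) (nat_lit 58)) (T.l (nat_lit 49) (nat_lit 2))) (T.n (T.l (nat_lit 49) (nat_lit 6)) (T.n (T.l (nat_lit 49) (nat_lit 38)) (T.l (nat_lit 49) (nat_lit 57))))))) (T.n (T.n (T.n (T.n (T.l (nat_lit 52) (nat_lit 6)) (T.l (nat_lit 52) (nat_lit 24))) (T.n (T.l (nat_lit 52) (nat_lit 34)) (T.n (T.l (nat_lit 52) (nat_lit 58)) (T.l (nat_lit 56) (nat_lit 20))))) (T.n (T.n (T.l (nat_lit 56) (nat_lit 31)) (T.l (nat_lit 56) (nat_lit 57))) (T.n (T.l (nat_lit 56) (nat_lit 58)) (T.n (T.l (nat_lit 57) (nat_lit 4)) (T.l (nat_lit 57)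 (nat_lit 6)))))) (T.n (T.n (T.n (T.l (nat_lit 57) (nat_lit 20)) (T.l (nat_lit 57) (nat_lit 22))) (T.n (T.l (nat_lit 57) (nat_lit 49)) (T.n (T.l (nat_lit 57) (nat_lit 56)) (T.l (nat_lit 58) (nat_lit 4))))) (T.n (T.n (T.l (nat_lit 58) (nat_lit 6)) (T.l (nat_lit 58) (nat_lit 31))) (T.n (T.l (nat_lit 58) (nat_lit 40)) (T.n (T.l (nat_lit 58) (nat_lit 52)) (T.l (nat_lit 58) (nat_lit 56))))))))
def T98_3 : T := T.n (T.n (T.n (T.n (T.n (T.n (T.l (nat_lit 1) (nat_lit 34)) (T.l (nat_lit 1) (nat_lit 57))) (T.n (T.l (nat_lit 4) (nat_lit 34)) (T.n (T.l (nat_lit 4) (nat_lit 38)) (T.l (nat_lit 9) (nat_lit 34))))) (T.n (T.n (T.l (nat_lit 9) (nat_lit 37)) (T.l (nat_lit 9) (nat_lit 39))) (T.n (T.l (nat_lit 9) (nat_lit 58)) (T.n (T.l (nat_lit 10) (nat_lit 26)) (T.l (nat_lit 10) (nat_lit 34)))))) (T.n (T.n (T.n (T.l (nat_lit 10) (nat_lit 39)) (T.l (nat_lit 10) (nat_lit 51))) (T.n (T.l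 (nat_lit 15) (nat_lit 38)) (T.n (T.l (nat_lit 15) (nat_lit 58)) (T.l (nat_lit 18) (nat_lit 35))))) (T.n (T.n (T.l (nat_lit 18) (nat_lit 44)) (T.l (nat_lit 18) (nat_lit 57))) (T.n (T.l (nat_lit 18) (nat_lit 58)) (T.n (T.l (nat_lit 22) (nat_lit 26)) (T.l (nat_lit 22) (nat_lit 58))))))) (T.n (T.n (T.n (T.n (T.l (nat_lit 23) (nat_lit 34)) (T.l (nat_lit 23) (nat_lit 42))) (T.n (T.l (nat_lit 23) (nat_lit 44)) (T.n (T.l (nat_lit 23) (nat_lit 58)) (T.l (nat_lit 26) (nat_lit 10))))) (T.n (T.n (T.l (nat_lit 26) (nat_lit 22)) (T.l (nat_lit 26) (nat_lit 35))) (T.n (T.l (nat_lit 26) (nat_lit 37)) (T.n (T.l (nat_lit 26) (nat_lit 40)) (T.l (nat_lit 26) (nat_lit 44)))))) (T.n (T.n (T.n (T.l (nat_lit 34) (nat_lit 1)) (T.l (nat_lit 34) (nat_lit 4))) (T.n (T.l (nat_lit 34) (nat_lit 9)) (T.n (T.l (nat_lit 34) (nat_lit 10)) (T.l (nat_lit 34) (nat_lit 23))))) (T.n (T.n (T.l (nat_lit 34)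 (nat_lit 35)) (T.l (nat_lit 35) (nat_lit 18))) (T.n (T.l (nat_lit 35) (nat_lit 26)) (T.n (T.l (nat_lit 35) (nat_lit 34)) (T.l (nat_lit 35) (nat_lit 42)))))))) (T.n (T.n (T.n (T.n (T.n (T.l (nat_lit 37) (nat_lit 9)) (T.l (nat_lit 37) (nat_lit 26))) (T.n (T.l (nat_lit 37) (nat_lit 38)) (T.n (T.l (nat_lit 37) (nat_lit 51)) (T.l (nat_lit 38) (nat_lit 4))))) (T.n (T.n (T.l (nat_lit 38) (nat_lit 15)) (T.l (nat_lit 38) (nat_lit 37))) (T.n (T.l (nat_lit 38) (nat_lit 39)) (T.n (T.l (nat_lit 38) (nat_lit 42)) (T.l (nat_lit 38) (nat_lit 44)))))) (T.n (T.n (T.n (T.l (nat_lit 39) (nat_lit 9)) (T.l (nat_lit 39) (nat_lit 10))) (T.n (T.l (nat_lit 39) (nat_lit 38)) (T.n (T.l (nat_lit 39) (nat_lit 57)) (T.l (nat_lit 40) (nat_lit 26))))) (T.n (T.n (T.l (nat_lit 40) (nat_lit 57)) (T.l (nat_lit 42) (nat_lit 23))) (T.n (T.l (nat_lit 42) (nat_lit 35)) (T.n (T.l (nat_lit 42) (nat_lit 38))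 (T.l (nat_lit 42) (nat_lit 57))))))) (T.n (T.n (T.n (T.n (T.l (nat_lit 44) (nat_lit 18)) (T.l (nat_lit 44) (nat_lit 23))) (T.n (T.l (nat_lit 44) (nat_lit 26)) (T.n (T.l (nat_lit 44) (nat_lit 38)) (T.l (nat_lit 51) (nat_lit 10))))) (T.n (T.n (T.l (nat_lit 51) (nat_lit 37)) (T.l (nat_lit 51) (nat_lit 57))) (T.n (T.l (nat_lit 51) (nat_lit 58)) (T.n (T.l (nat_lit 57) (nat_lit 1)) (T.l (nat_lit 57) (nat_lit 18)))))) (T.n (T.n (T.n (T.l (nat_lit 57) (nat_lit 39)) (T.l (nat_lit 57) (nat_lit 40))) (T.n (T.l (nat_lit 57) (nat_lit 42)) (T.n (T.l (nat_lit 57) (nat_lit 51)) (T.l (nat_lit 58) (nat_lit 9))))) (T.n (T.n (T.l (nat_lit 58) (nat_lit 15)) (T.l (nat_lit 58) (nat_lit 18))) (T.n (T.l (nat_lit 58) (nat_lit 22)) (T.n (T.l (nat_lit 58) (nat_lit 23)) (T.l (nat_lit 58) (nat_lit 51))))))))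
def T99_3 : T := T.n (T.n (T.n (T.n (T.n (T.n (T.l (nat_lit 1) (nat_lit 32)) (T.l (nat_lit 1) (nat_lit 48))) (T.n (T.l (nat_lit 2) (nat_lit 37)) (T.n (T.l (nat_lit 2) (nat_lit 48)) (T.l (nat_lit 4) (nat_lit 32))))) (T.n (T.n (T.l (nat_lit 4) (nat_lit 48)) (T.l (nat_lit 6) (nat_lit 48))) (T.n (T.l (nat_lit 6) (nat_lit 51)) (T.n (T.l (nat_lit 9) (nat_lit 45)) (T.l (nat_lit 9) (nat_lit 52)))))) (T.n (T.n (T.n (T.l (nat_lit 10) (nat_lit 24)) (T.l (nat_lit 10) (nat_lit 45))) (T.n (T.l (nat_lit 15) (nat_lit 32)) (T.n (T.l (nat_lit 15) (nat_lit 48)) (T.l (nat_lit 17) (nat_lit 32))))) (T.n (T.n (T.l (nat_lit 17) (nat_lit 35)) (T.l (nat_lit 18) (nat_lit 45))) (T.n (T.l (nat_lit 18) (nat_lit 56)) (T.n (T.l (nat_lit 20) (nat_lit 32)) (T.l (nat_lit 20) (nat_lit 42))))))) (T.n (T.n (T.n (T.n (T.l (nat_lit 22) (nat_lit 32)) (T.l (nat_lit 22) (nat_lit 48))) (T.n (T.l (nat_lit 23)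 (nat_lit 31)) (T.n (T.l (nat_lit 23) (nat_lit 45)) (T.l (nat_lit 24) (nat_lit 10))))) (T.n (T.n (T.l (nat_lit 24) (nat_lit 48)) (T.l (nat_lit 25) (nat_lit 32))) (T.n (T.l (nat_lit 25) (nat_lit 44)) (T.n (T.l (nat_lit 31) (nat_lit 23)) (T.l (nat_lit 31) (nat_lit 32)))))) (T.n (T.n (T.n (T.l (nat_lit 32) (nat_lit 1)) (T.l (nat_lit 32) (nat_lit 4))) (T.n (T.l (nat_lit 32) (nat_lit 15)) (T.n (T.l (nat_lit 32) (nat_lit 17)) (T.l (nat_lit 32) (nat_lit 20))))) (T.n (T.n (T.l (nat_lit 32) (nat_lit 22)) (T.l (nat_lit 32) (nat_lit 25))) (T.n (T.l (nat_lit 32) (nat_lit 31)) (T.n (T.l (nat_lit 32) (nat_lit 40)) (T.l (nat_lit 32) (nat_lit 56)))))))) (T.n (T.n (T.n (T.n (T.n (T.l (nat_lit 35) (nat_lit 17)) (T.l (nat_lit 35) (nat_lit 45))) (T.n (T.l (nat_lit 37) (nat_lit 2)) (T.n (T.l (nat_lit 37) (nat_lit 45)) (T.l (nat_lit 39) (nat_lit 45))))) (T.n (T.n (T.l (nat_lit 39) (nat_lit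 49)) (T.l (nat_lit 40) (nat_lit 32))) (T.n (T.l (nat_lit 40) (nat_lit 48)) (T.n (T.l (nat_lit 42) (nat_lit 20)) (T.l (nat_lit 42) (nat_lit 45)))))) (T.n (T.n (T.n (T.l (nat_lit 44) (nat_lit 25)) (T.l (nat_lit 44) (nat_lit 45))) (T.n (T.l (nat_lit 45) (nat_lit 9)) (T.n (T.l (nat_lit 45) (nat_lit 10)) (T.l (nat_lit 45) (nat_lit 18))))) (T.n (T.n (T.l (nat_lit 45) (nat_lit 23)) (T.l (nat_lit 45) (nat_lit 35))) (T.n (T.l (nat_lit 45) (nat_lit 37)) (T.n (T.l (nat_lit 45) (nat_lit 39)) (T.l (nat_lit 45) (nat_lit 42))))))) (T.n (T.n (T.n (T.n (T.l (nat_lit 45) (nat_lit 44)) (T.l (nat_lit 45) (nat_lit 51))) (T.n (T.l (nat_lit 48) (nat_lit 1)) (T.n (T.l (nat_lit 48) (nat_lit 2)) (T.l (nat_lit 48) (nat_lit 4))))) (T.n (T.n (T.l (nat_lit 48) (nat_lit 6)) (T.l (nat_lit 48) (nat_lit 15))) (T.n (T.l (nat_lit 48) (nat_lit 22)) (T.n (T.l (nat_lit 48) (nat_lit 24)) (T.l (nat_lit 48)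 (nat_lit 40)))))) (T.n (T.n (T.n (T.l (nat_lit 48) (nat_lit 49)) (T.l (nat_lit 48) (nat_lit 52))) (T.n (T.l (nat_lit 49) (nat_lit 39)) (T.n (T.l (nat_lit 49) (nat_lit 48)) (T.l (nat_lit 51) (nat_lit 6))))) (T.n (T.n (T.l (nat_lit 51) (nat_lit 45)) (T.l (nat_lit 52) (nat_lit 9))) (T.n (T.l (nat_lit 52) (nat_lit 48)) (T.n (T.l (nat_lit 56) (nat_lit 18)) (T.l (nat_lit 56) (nat_lit 32))))))))
def T100_3 : T := T.n (T.n (T.n (T.n (T.n (T.n (T.l (nat_lit 1) (nat_lit 30)) (T.n (T.l (nat_lit 1) (nat_lit 46)) (T.l (nat_lit 1) (nat_lit 47)))) (T.n (T.n (T.l (nat_lit 1) (nat_lit 54)) (T.l (nat_lit 3) (nat_lit 23))) (T.n (T.l (nat_lit 3) (nat_lit 35)) (T.l (nat_lit 4) (nat_lit 21))))) (T.n (T.n (T.n (T.l (nat_lit 4) (nat_lit 33)) (T.l (nat_lit 4) (nat_lit 36))) (T.n (T.l (nat_lit 4) (nat_lit 41)) (T.l (nat_lit 5) (nat_lit 37)))) (T.n (T.n (T.l (nat_lit 5) (nat_lit 39)) (T.l (nat_lit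 7) (nat_lit 39))) (T.n (T.l (nat_lit 7) (nat_lit 51)) (T.l (nat_lit 8) (nat_lit 15)))))) (T.n (T.n (T.n (T.l (nat_lit 8) (nat_lit 18)) (T.n (T.l (nat_lit 8) (nat_lit 40)) (T.l (nat_lit 8) (nat_lit 44)))) (T.n (T.n (T.l (nat_lit 9) (nat_lit 19)) (T.l (nat_lit 9) (nat_lit 28))) (T.n (T.l (nat_lit 9) (nat_lit 36)) (T.l (nat_lit 9) (nat_lit 46))))) (T.n (T.n (T.n (T.l (nat_lit 10) (nat_lit 21)) (T.l (nat_lit 10) (nat_lit 28))) (T.n (T.l (nat_lit 10) (nat_lit 29)) (T.l (nat_lit 10) (nat_lit 54)))) (T.n (T.n (T.l (nat_lit 12) (nat_lit 35)) (T.l (nat_lit 12) (nat_lit 44))) (T.n (T.l (nat_lit 13) (nat_lit 42)) (T.l (nat_lit 13) (nat_lit 44))))))) (T.n (T.n (T.n (T.n (T.l (nat_lit 15) (nat_lit 8)) (T.n (T.l (nat_lit 15) (nat_lit 46)) (T.l (nat_lit 15) (nat_lit 47)))) (T.n (T.n (T.l (nat_lit 15) (nat_lit 50)) (T.l (nat_lit 18) (nat_lit 8))) (T.n (T.l (nat_lit 18) (nat_lit 30))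 (T.l (nat_lit 18) (nat_lit 53))))) (T.n (T.n (T.n (T.l (nat_lit 18) (nat_lit 55)) (T.l (nat_lit 19) (nat_lit 9))) (T.n (T.l (nat_lit 19) (nat_lit 51)) (T.l (nat_lit 21) (nat_lit 4)))) (T.n (T.n (T.l (nat_lit 21) (nat_lit 10)) (T.l (nat_lit 21) (nat_lit 39))) (T.n (T.l (nat_lit 21) (nat_lit 40)) (T.l (nat_lit 22) (nat_lit 30)))))) (T.n (T.n (T.n (T.l (nat_lit 22) (nat_lit 36)) (T.n (T.l (nat_lit 22) (nat_lit 41)) (T.l (nat_lit 22) (nat_lit 54)))) (T.n (T.n (T.l (nat_lit 23) (nat_lit 3)) (T.l (nat_lit 23) (nat_lit 41))) (T.n (T.l (nat_lit 23) (nat_lit 47)) (T.l (nat_lit 23) (nat_lit 55))))) (T.n (T.n (T.n (T.l (nat_lit 28) (nat_lit 9)) (T.l (nat_lit 28) (nat_lit 10))) (T.n (T.l (nat_lit 29) (nat_lit 10)) (T.l (nat_lit 29) (nat_lit 37)))) (T.n (T.n (T.l (nat_lit 30) (nat_lit 1)) (T.l (nat_lit 30) (nat_lit 18))) (T.n (T.l (nat_lit 30) (nat_lit 22)) (T.l (nat_lit 30) (nat_lit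 35)))))))) (T.n (T.n (T.n (T.n (T.n (T.l (nat_lit 33) (nat_lit 4)) (T.n (T.l (nat_lit 33) (nat_lit 35)) (T.l (nat_lit 33) (nat_lit 40)))) (T.n (T.n (T.l (nat_lit 33) (nat_lit 42)) (T.l (nat_lit 35) (nat_lit 3))) (T.n (T.l (nat_lit 35) (nat_lit 12)) (T.l (nat_lit 35) (nat_lit 30))))) (T.n (T.n (T.n (T.l (nat_lit 35) (nat_lit 33)) (T.l (nat_lit 36) (nat_lit 4))) (T.n (T.l (nat_lit 36) (nat_lit 9)) (T.l (nat_lit 36) (nat_lit 22)))) (T.n (T.n (T.l (nat_lit 36) (nat_lit 37)) (T.l (nat_lit 37) (nat_lit 5))) (T.n (T.l (nat_lit 37) (nat_lit 29)) (T.l (nat_lit 37) (nat_lit 36)))))) (T.n (T.n (T.n (T.l (nat_lit 37) (nat_lit 50)) (T.n (T.l (nat_lit 39) (nat_lit 5)) (T.l (nat_lit 39) (nat_lit 7)))) (T.n (T.n (T.l (nat_lit 39) (nat_lit 21)) (T.l (nat_lit 39) (nat_lit 46))) (T.n (T.l (nat_lit 40) (nat_lit 8)) (T.l (nat_lit 40) (nat_lit 21))))) (T.n (T.n (T.n (T.l (nat_lit 40) (nat_lit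 33)) (T.l (nat_lit 40) (nat_lit 50))) (T.n (T.l (nat_lit 41) (nat_lit 4)) (T.l (nat_lit 41) (nat_lit 22)))) (T.n (T.n (T.l (nat_lit 41) (nat_lit 23)) (T.l (nat_lit 41) (nat_lit 44))) (T.n (T.l (nat_lit 42) (nat_lit 13)) (T.l (nat_lit 42) (nat_lit 33))))))) (T.n (T.n (T.n (T.n (T.l (nat_lit 42) (nat_lit 47)) (T.n (T.l (nat_lit 42) (nat_lit 53)) (T.l (nat_lit 44) (nat_lit 8)))) (T.n (T.n (T.l (nat_lit 44) (nat_lit 12)) (T.l (nat_lit 44) (nat_lit 13))) (T.n (T.l (nat_lit 44) (nat_lit 41)) (T.l (nat_lit 46) (nat_lit 1))))) (T.n (T.n (T.n (T.l (nat_lit 46) (nat_lit 9)) (T.l (nat_lit 46) (nat_lit 15))) (T.n (T.l (nat_lit 46) (nat_lit 39)) (T.l (nat_lit 47) (nat_lit 1)))) (T.n (T.n (T.l (nat_lit 47) (nat_lit 15)) (T.l (nat_lit 47) (nat_lit 23))) (T.n (T.l (nat_lit 47) (nat_lit 42)) (T.l (nat_lit 50) (nat_lit 15)))))) (T.n (T.n (T.n (T.l (nat_lit 50) (nat_lit 37)) (T.n (T.l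 (nat_lit 50) (nat_lit 40)) (T.l (nat_lit 50) (nat_lit 51)))) (T.n (T.n (T.l (nat_lit 51) (nat_lit 7)) (T.l (nat_lit 51) (nat_lit 19))) (T.n (T.l (nat_lit 51) (nat_lit 50)) (T.l (nat_lit 51) (nat_lit 54))))) (T.n (T.n (T.n (T.l (nat_lit 53) (nat_lit 18)) (T.l (nat_lit 53) (nat_lit 42))) (T.n (T.l (nat_lit 54) (nat_lit 1)) (T.l (nat_lit 54) (nat_lit 10)))) (T.n (T.n (T.l (nat_lit 54) (nat_lit 22)) (T.l (nat_lit 54) (nat_lit 51))) (T.n (T.l (nat_lit 55) (nat_lit 18)) (T.l (nat_lit 55) (nat_lit 23))))))))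
def T101_3 : T := T.n (T.n (T.n (T.n (T.n (T.l (nat_lit 1) (nat_lit 43)) (T.l (nat_lit 1) (nat_lit 59))) (T.n (T.l (nat_lit 3) (nat_lit 13)) (T.n (T.l (nat_lit 3) (nat_lit 53)) (T.l (nat_lit 4) (nat_lit 14))))) (T.n (T.n (T.l (nat_lit 4) (nat_lit 27)) (T.l (nat_lit 5) (nat_lit 19))) (T.n (T.l (nat_lit 5) (nat_lit 28)) (T.n (T.l (nat_lit 7) (nat_lit 28)) (T.l (nat_lit 7) (nat_lit 29)))))) (T.n (T.n (T.n (T.l (nat_lit 11) (nat_lit 15)) (T.l (nat_lit 11) (nat_lit 40))) (T.n (T.l (nat_lit 12) (nat_lit 53)) (T.n (T.l (nat_lit 12) (nat_lit 55)) (T.l (nat_lit 13) (nat_lit 3))))) (T.n (T.n (T.l (nat_lit 13) (nat_lit 55)) (T.l (nat_lit 14) (nat_lit 4))) (T.n (T.l (nat_lit 14) (nat_lit 40)) (T.n (T.l (nat_lit 15) (nat_lit 11)) (T.l (nat_lit 15) (nat_lit 59))))))) (T.n (T.n (T.n (T.n (T.l (nat_lit 19) (nat_lit 5)) (T.l (nat_lit 19) (nat_lit 29))) (T.n (T.l (nat_lit 22) (nat_lit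 27)) (T.n (T.l (nat_lit 22) (nat_lit 43)) (T.l (nat_lit 27) (nat_lit 4))))) (T.n (T.n (T.l (nat_lit 27) (nat_lit 22)) (T.l (nat_lit 28) (nat_lit 5))) (T.n (T.l (nat_lit 28) (nat_lit 7)) (T.n (T.l (nat_lit 29) (nat_lit 7)) (T.l (nat_lit 29) (nat_lit 19)))))) (T.n (T.n (T.n (T.l (nat_lit 40) (nat_lit 11)) (T.l (nat_lit 40) (nat_lit 14))) (T.n (T.l (nat_lit 43) (nat_lit 1)) (T.n (T.l (nat_lit 43) (nat_lit 22)) (T.l (nat_lit 53) (nat_lit 3))))) (T.n (T.n (T.l (nat_lit 53) (nat_lit 12)) (T.l (nat_lit 55) (nat_lit 12))) (T.n (T.l (nat_lit 55) (nat_lit 13)) (T.n (T.l (nat_lit 59) (nat_lit 1)) (T.l (nat_lit 59) (nat_lit 15)))))))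
def T102_3 : T := T.n (T.n (T.n (T.n (T.n (T.n (T.l (nat_lit 2) (nat_lit 32)) (T.l (nat_lit 2) (nat_lit 33))) (T.n (T.l (nat_lit 3) (nat_lit 45)) (T.n (T.l (nat_lit 5) (nat_lit 45)) (T.l (nat_lit 6) (nat_lit 32))))) (T.n (T.n (T.l (nat_lit 6) (nat_lit 47)) (T.l (nat_lit 7) (nat_lit 45))) (T.n (T.l (nat_lit 8) (nat_lit 32)) (T.n (T.l (nat_lit 8) (nat_lit 49)) (T.l (nat_lit 12) (nat_lit 45)))))) (T.n (T.n (T.n (T.l (nat_lit 13) (nat_lit 45)) (T.l (nat_lit 17) (nat_lit 36))) (T.n (T.l (nat_lit 17) (nat_lit 48)) (T.n (T.l (nat_lit 19) (nat_lit 45)) (T.l (nat_lit 20) (nat_lit 48))))) (T.n (T.n (T.l (nat_lit 20) (nat_lit 50)) (T.l (nat_lit 21) (nat_lit 25))) (T.n (T.l (nat_lit 21) (nat_lit 48)) (T.n (T.l (nat_lit 24) (nat_lit 32)) (T.l (nat_lit 24) (nat_lit 41))))))) (T.n (T.n (T.n (T.n (T.l (nat_lit 25) (nat_lit 21)) (T.l (nat_lit 25) (nat_lit 48))) (T.n (T.l (nat_lit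 28) (nat_lit 45)) (T.n (T.l (nat_lit 29) (nat_lit 45)) (T.l (nat_lit 30) (nat_lit 32))))) (T.n (T.n (T.l (nat_lit 30) (nat_lit 52)) (T.l (nat_lit 31) (nat_lit 48))) (T.n (T.l (nat_lit 31) (nat_lit 54)) (T.n (T.l (nat_lit 32) (nat_lit 2)) (T.l (nat_lit 32) (nat_lit 6)))))) (T.n (T.n (T.n (T.l (nat_lit 32) (nat_lit 8)) (T.l (nat_lit 32) (nat_lit 24))) (T.n (T.l (nat_lit 32) (nat_lit 30)) (T.n (T.l (nat_lit 32) (nat_lit 33)) (T.l (nat_lit 32) (nat_lit 41))))) (T.n (T.n (T.l (nat_lit 32) (nat_lit 47)) (T.l (nat_lit 32) (nat_lit 49))) (T.n (T.l (nat_lit 32) (nat_lit 52)) (T.n (T.l (nat_lit 33) (nat_lit 2)) (T.l (nat_lit 33) (nat_lit 32)))))))) (T.n (T.n (T.n (T.n (T.n (T.l (nat_lit 36) (nat_lit 17)) (T.l (nat_lit 36) (nat_lit 48))) (T.n (T.l (nat_lit 41) (nat_lit 24)) (T.n (T.l (nat_lit 41) (nat_lit 32)) (T.l (nat_lit 45) (nat_lit 3))))) (T.n (T.n (T.l (nat_lit 45) (nat_lit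 5)) (T.l (nat_lit 45) (nat_lit 7))) (T.n (T.l (nat_lit 45) (nat_lit 12)) (T.n (T.l (nat_lit 45) (nat_lit 13)) (T.l (nat_lit 45) (nat_lit 19)))))) (T.n (T.n (T.n (T.l (nat_lit 45) (nat_lit 28)) (T.l (nat_lit 45) (nat_lit 29))) (T.n (T.l (nat_lit 45) (nat_lit 53)) (T.n (T.l (nat_lit 45) (nat_lit 55)) (T.l (nat_lit 46) (nat_lit 48))))) (T.n (T.n (T.l (nat_lit 46) (nat_lit 56)) (T.l (nat_lit 47) (nat_lit 6))) (T.n (T.l (nat_lit 47) (nat_lit 32)) (T.n (T.l (nat_lit 48) (nat_lit 17)) (T.l (nat_lit 48) (nat_lit 20))))))) (T.n (T.n (T.n (T.n (T.l (nat_lit 48) (nat_lit 21)) (T.l (nat_lit 48) (nat_lit 25))) (T.n (T.l (nat_lit 48) (nat_lit 31)) (T.n (T.l (nat_lit 48) (nat_lit 36)) (T.l (nat_lit 48) (nat_lit 46))))) (T.n (T.n (T.l (nat_lit 48) (nat_lit 50)) (T.l (nat_lit 48) (nat_lit 54))) (T.n (T.l (nat_lit 48) (nat_lit 56)) (T.n (T.l (nat_lit 49) (nat_lit 8)) (T.l (nat_lit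 49) (nat_lit 32)))))) (T.n (T.n (T.n (T.l (nat_lit 50) (nat_lit 20)) (T.l (nat_lit 50) (nat_lit 48))) (T.n (T.l (nat_lit 52) (nat_lit 30)) (T.n (T.l (nat_lit 52) (nat_lit 32)) (T.l (nat_lit 53) (nat_lit 45))))) (T.n (T.n (T.l (nat_lit 54) (nat_lit 31)) (T.l (nat_lit 54) (nat_lit 48))) (T.n (T.l (nat_lit 55) (nat_lit 45)) (T.n (T.l (nat_lit 56) (nat_lit 46)) (T.l (nat_lit 56) (nat_lit 48))))))))
def T103_3 : T := T.n (T.n (T.n (T.n (T.n (T.n (T.n (T.l (nat_lit 2) (nat_lit 30)) (T.l (nat_lit 2) (nat_lit 34))) (T.n (T.l (nat_lit 2) (nat_lit 47)) (T.n (T.l (nat_lit 2) (nat_lit 57)) (T.l (nat_lit 3) (nat_lit 38))))) (T.n (T.n (T.l (nat_lit 3) (nat_lit 57)) (T.l (nat_lit 5) (nat_lit 34))) (T.n (T.l (nat_lit 5) (nat_lit 58)) (T.n (T.l (nat_lit 6) (nat_lit 33)) (T.l (nat_lit 6) (nat_lit 34)))))) (T.n (T.n (T.n (T.l (nat_lit 6) (nat_lit 38)) (T.l (nat_lit 6) (nat_lit 41)))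 (T.n (T.l (nat_lit 7) (nat_lit 26)) (T.n (T.l (nat_lit 7) (nat_lit 34)) (T.l (nat_lit 8) (nat_lit 24))))) (T.n (T.n (T.l (nat_lit 8) (nat_lit 26)) (T.l (nat_lit 8) (nat_lit 52))) (T.n (T.l (nat_lit 8) (nat_lit 58)) (T.n (T.l (nat_lit 12) (nat_lit 57)) (T.l (nat_lit 12) (nat_lit 58))))))) (T.n (T.n (T.n (T.n (T.l (nat_lit 13) (nat_lit 34)) (T.l (nat_lit 13) (nat_lit 58))) (T.n (T.l (nat_lit 17) (nat_lit 38)) (T.n (T.l (nat_lit 17) (nat_lit 46)) (T.l (nat_lit 17) (nat_lit 50))))) (T.n (T.n (T.l (nat_lit 17) (nat_lit 58)) (T.l (nat_lit 19) (nat_lit 26))) (T.n (T.l (nat_lit 19) (nat_lit 38)) (T.n (T.l (nat_lit 20) (nat_lit 26)) (T.l (nat_lit 20) (nat_lit 36)))))) (T.n (T.n (T.n (T.l (nat_lit 20) (nat_lit 54)) (T.l (nat_lit 20) (nat_lit 58))) (T.n (T.l (nat_lit 21) (nat_lit 31)) (T.n (T.l (nat_lit 21) (nat_lit 34)) (T.l (nat_lit 21) (nat_lit 56))))) (T.n (T.n (T.l (nat_lit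 21) (nat_lit 57)) (T.l (nat_lit 24) (nat_lit 8))) (T.n (T.l (nat_lit 24) (nat_lit 38)) (T.n (T.l (nat_lit 24) (nat_lit 47)) (T.l (nat_lit 24) (nat_lit 58)))))))) (T.n (T.n (T.n (T.n (T.n (T.l (nat_lit 25) (nat_lit 34)) (T.l (nat_lit 25) (nat_lit 46))) (T.n (T.l (nat_lit 25) (nat_lit 54)) (T.n (T.l (nat_lit 25) (nat_lit 57)) (T.l (nat_lit 26) (nat_lit 7))))) (T.n (T.n (T.l (nat_lit 26) (nat_lit 8)) (T.l (nat_lit 26) (nat_lit 19))) (T.n (T.l (nat_lit 26) (nat_lit 20)) (T.n (T.l (nat_lit 26) (nat_lit 30)) (T.l (nat_lit 26) (nat_lit 31)))))) (T.n (T.n (T.n (T.l (nat_lit 26) (nat_lit 49)) (T.l (nat_lit 26) (nat_lit 50))) (T.n (T.l (nat_lit 26) (nat_lit 52)) (T.n (T.l (nat_lit 26) (nat_lit 53)) (T.l (nat_lit 26) (nat_lit 54))))) (T.n (T.n (T.l (nat_lit 26) (nat_lit 55)) (T.l (nat_lit 28) (nat_lit 38))) (T.n (T.l (nat_lit 28) (nat_lit 57)) (T.n (T.l (nat_lit 29) (nat_lit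 57)) (T.l (nat_lit 29) (nat_lit 58))))))) (T.n (T.n (T.n (T.n (T.l (nat_lit 30) (nat_lit 2)) (T.l (nat_lit 30) (nat_lit 26))) (T.n (T.l (nat_lit 30) (nat_lit 49)) (T.n (T.l (nat_lit 30) (nat_lit 57)) (T.l (nat_lit 31) (nat_lit 21))))) (T.n (T.n (T.l (nat_lit 31) (nat_lit 26)) (T.l (nat_lit 31) (nat_lit 50))) (T.n (T.l (nat_lit 31) (nat_lit 57)) (T.n (T.l (nat_lit 33) (nat_lit 6)) (T.l (nat_lit 33) (nat_lit 34)))))) (T.n (T.n (T.n (T.l (nat_lit 33) (nat_lit 52)) (T.l (nat_lit 33) (nat_lit 57))) (T.n (T.l (nat_lit 34) (nat_lit 2)) (T.n (T.l (nat_lit 34) (nat_lit 5)) (T.l (nat_lit 34) (nat_lit 6))))) (T.n (T.n (T.l (nat_lit 34) (nat_lit 7)) (T.l (nat_lit 34) (nat_lit 13))) (T.n (T.l (nat_lit 34) (nat_lit 21)) (T.n (T.l (nat_lit 34) (nat_lit 25)) (T.l (nat_lit 34) (nat_lit 33))))))))) (T.n (T.n (T.n (T.n (T.n (T.n (T.l (nat_lit 34) (nat_lit 46)) (T.l (nat_lit 34) (nat_lit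 47))) (T.n (T.l (nat_lit 34) (nat_lit 53)) (T.n (T.l (nat_lit 34) (nat_lit 56)) (T.l (nat_lit 36) (nat_lit 20))))) (T.n (T.n (T.l (nat_lit 36) (nat_lit 38)) (T.l (nat_lit 36) (nat_lit 56))) (T.n (T.l (nat_lit 36) (nat_lit 58)) (T.n (T.l (nat_lit 38) (nat_lit 3)) (T.l (nat_lit 38) (nat_lit 6)))))) (T.n (T.n (T.n (T.l (nat_lit 38) (nat_lit 17)) (T.l (nat_lit 38) (nat_lit 19))) (T.n (T.l (nat_lit 38) (nat_lit 24)) (T.n (T.l (nat_lit 38) (nat_lit 28)) (T.l (nat_lit 38) (nat_lit 36))))) (T.n (T.n (T.l (nat_lit 38) (nat_lit 41)) (T.l (nat_lit 38) (nat_lit 46))) (T.n (T.l (nat_lit 38) (nat_lit 47)) (T.n (T.l (nat_lit 38) (nat_lit 55)) (T.l (nat_lit 38) (nat_lit 56))))))) (T.n (T.n (T.n (T.n (T.l (nat_lit 41) (nat_lit 6)) (T.l (nat_lit 41) (nat_lit 38))) (T.n (T.l (nat_lit 41) (nat_lit 49)) (T.n (T.l (nat_lit 41) (nat_lit 58)) (T.l (nat_lit 46) (nat_lit 17))))) (T.n (T.n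 (T.l (nat_lit 46) (nat_lit 25)) (T.l (nat_lit 46) (nat_lit 34))) (T.n (T.l (nat_lit 46) (nat_lit 38)) (T.n (T.l (nat_lit 47) (nat_lit 2)) (T.l (nat_lit 47) (nat_lit 24)))))) (T.n (T.n (T.n (T.l (nat_lit 47) (nat_lit 34)) (T.l (nat_lit 47) (nat_lit 38))) (T.n (T.l (nat_lit 49) (nat_lit 26)) (T.n (T.l (nat_lit 49) (nat_lit 30)) (T.l (nat_lit 49) (nat_lit 41))))) (T.n (T.n (T.l (nat_lit 49) (nat_lit 58)) (T.l (nat_lit 50) (nat_lit 17))) (T.n (T.l (nat_lit 50) (nat_lit 26)) (T.n (T.l (nat_lit 50) (nat_lit 31)) (T.l (nat_lit 50) (nat_lit 58)))))))) (T.n (T.n (T.n (T.n (T.n (T.l (nat_lit 52) (nat_lit 8)) (T.l (nat_lit 52) (nat_lit 26))) (T.n (T.l (nat_lit 52) (nat_lit 33)) (T.n (T.l (nat_lit 52) (nat_lit 57)) (T.l (nat_lit 53) (nat_lit 26))))) (T.n (T.n (T.l (nat_lit 53) (nat_lit 34)) (T.l (nat_lit 54) (nat_lit 20))) (T.n (T.l (nat_lit 54) (nat_lit 25)) (T.n (T.l (nat_lit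 54) (nat_lit 26)) (T.l (nat_lit 54) (nat_lit 57)))))) (T.n (T.n (T.n (T.l (nat_lit 55) (nat_lit 26)) (T.l (nat_lit 55) (nat_lit 38))) (T.n (T.l (nat_lit 56) (nat_lit 21)) (T.n (T.l (nat_lit 56) (nat_lit 34)) (T.l (nat_lit 56) (nat_lit 36))))) (T.n (T.n (T.l (nat_lit 56) (nat_lit 38)) (T.l (nat_lit 57) (nat_lit 2))) (T.n (T.l (nat_lit 57) (nat_lit 3)) (T.n (T.l (nat_lit 57) (nat_lit 12)) (T.l (nat_lit 57) (nat_lit 21))))))) (T.n (T.n (T.n (T.n (T.l (nat_lit 57) (nat_lit 25)) (T.l (nat_lit 57) (nat_lit 28))) (T.n (T.l (nat_lit 57) (nat_lit 29)) (T.n (T.l (nat_lit 57) (nat_lit 30)) (T.l (nat_lit 57) (nat_lit 31))))) (T.n (T.n (T.l (nat_lit 57) (nat_lit 33)) (T.l (nat_lit 57) (nat_lit 52))) (T.n (T.l (nat_lit 57) (nat_lit 54)) (T.n (T.l (nat_lit 58) (nat_lit 5)) (T.l (nat_lit 58) (nat_lit 8)))))) (T.n (T.n (T.n (T.l (nat_lit 58) (nat_lit 12)) (T.l (nat_lit 58) (nat_lit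 13))) (T.n (T.l (nat_lit 58) (nat_lit 17)) (T.n (T.l (nat_lit 58) (nat_lit 20)) (T.l (nat_lit 58) (nat_lit 24))))) (T.n (T.n (T.l (nat_lit 58) (nat_lit 29)) (T.l (nat_lit 58) (nat_lit 36))) (T.n (T.l (nat_lit 58) (nat_lit 41)) (T.n (T.l (nat_lit 58) (nat_lit 49)) (T.l (nat_lit 58) (nat_lit 50)))))))))
def T104_3 : T := T.n (T.n (T.n (T.n (T.n (T.n (T.l (nat_lit 2) (nat_lit 43)) (T.n (T.l (nat_lit 2) (nat_lit 46)) (T.l (nat_lit 2) (nat_lit 54)))) (T.n (T.n (T.l (nat_lit 2) (nat_lit 59)) (T.l (nat_lit 3) (nat_lit 33))) (T.n (T.l (nat_lit 3) (nat_lit 47)) (T.l (nat_lit 5) (nat_lit 36))))) (T.n (T.n (T.n (T.l (nat_lit 5) (nat_lit 46)) (T.l (nat_lit 6) (nat_lit 14))) (T.n (T.l (nat_lit 6) (nat_lit 21)) (T.l (nat_lit 6) (nat_lit 27)))) (T.n (T.n (T.l (nat_lit 6) (nat_lit 36)) (T.l (nat_lit 7) (nat_lit 21))) (T.n (T.l (nat_lit 7) (nat_lit 54)) (T.l (nat_lit 8) (nat_lit 12))))))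 (T.n (T.n (T.n (T.l (nat_lit 8) (nat_lit 17)) (T.n (T.l (nat_lit 8) (nat_lit 31)) (T.l (nat_lit 8) (nat_lit 55)))) (T.n (T.n (T.l (nat_lit 11) (nat_lit 17)) (T.l (nat_lit 11) (nat_lit 24))) (T.n (T.l (nat_lit 11) (nat_lit 31)) (T.l (nat_lit 11) (nat_lit 52))))) (T.n (T.n (T.n (T.l (nat_lit 12) (nat_lit 8)) (T.l (nat_lit 12) (nat_lit 30))) (T.n (T.l (nat_lit 13) (nat_lit 41)) (T.l (nat_lit 13) (nat_lit 47)))) (T.n (T.n (T.l (nat_lit 14) (nat_lit 6)) (T.l (nat_lit 14) (nat_lit 31))) (T.n (T.l (nat_lit 14) (nat_lit 52)) (T.l (nat_lit 14) (nat_lit 56))))))) (T.n (T.n (T.n (T.n (T.l (nat_lit 17) (nat_lit 8)) (T.n (T.l (nat_lit 17) (nat_lit 11)) (T.l (nat_lit 17) (nat_lit 47)))) (T.n (T.n (T.l (nat_lit 17) (nat_lit 59)) (T.l (nat_lit 19) (nat_lit 36))) (T.n (T.l (nat_lit 19) (nat_lit 50)) (T.l (nat_lit 20) (nat_lit 27))))) (T.n (T.n (T.n (T.l (nat_lit 20) (nat_lit 30))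 (T.l (nat_lit 20) (nat_lit 41))) (T.n (T.l (nat_lit 20) (nat_lit 43)) (T.l (nat_lit 21) (nat_lit 6)))) (T.n (T.n (T.l (nat_lit 21) (nat_lit 7)) (T.l (nat_lit 21) (nat_lit 28))) (T.n (T.l (nat_lit 21) (nat_lit 52)) (T.l (nat_lit 24) (nat_lit 11)))))) (T.n (T.n (T.n (T.l (nat_lit 24) (nat_lit 46)) (T.n (T.l (nat_lit 24) (nat_lit 50)) (T.l (nat_lit 24) (nat_lit 59)))) (T.n (T.n (T.l (nat_lit 25) (nat_lit 30)) (T.l (nat_lit 25) (nat_lit 43))) (T.n (T.l (nat_lit 25) (nat_lit 47)) (T.l (nat_lit 25) (nat_lit 59))))) (T.n (T.n (T.n (T.l (nat_lit 27) (nat_lit 6)) (T.l (nat_lit 27) (nat_lit 20))) (T.n (T.l (nat_lit 27) (nat_lit 49)) (T.l (nat_lit 27) (nat_lit 56)))) (T.n (T.n (T.l (nat_lit 28) (nat_lit 21)) (T.l (nat_lit 28) (nat_lit 46))) (T.n (T.l (nat_lit 29) (nat_lit 50)) (T.l (nat_lit 29) (nat_lit 54)))))))) (T.n (T.n (T.n (T.n (T.n (T.l (nat_lit 30) (nat_lit 12)) (T.n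 (T.l (nat_lit 30) (nat_lit 20)) (T.l (nat_lit 30) (nat_lit 25)))) (T.n (T.n (T.l (nat_lit 30) (nat_lit 53)) (T.l (nat_lit 31) (nat_lit 8))) (T.n (T.l (nat_lit 31) (nat_lit 11)) (T.l (nat_lit 31) (nat_lit 14))))) (T.n (T.n (T.n (T.l (nat_lit 31) (nat_lit 33)) (T.l (nat_lit 33) (nat_lit 3))) (T.n (T.l (nat_lit 33) (nat_lit 31)) (T.l (nat_lit 33) (nat_lit 53)))) (T.n (T.n (T.l (nat_lit 33) (nat_lit 56)) (T.l (nat_lit 36) (nat_lit 5))) (T.n (T.l (nat_lit 36) (nat_lit 6)) (T.l (nat_lit 36) (nat_lit 19)))))) (T.n (T.n (T.n (T.l (nat_lit 36) (nat_lit 49)) (T.n (T.l (nat_lit 41) (nat_lit 13)) (T.l (nat_lit 41) (nat_lit 20)))) (T.n (T.n (T.l (nat_lit 41) (nat_lit 55)) (T.l (nat_lit 41) (nat_lit 56))) (T.n (T.l (nat_lit 43) (nat_lit 2)) (T.l (nat_lit 43) (nat_lit 20))))) (T.n (T.n (T.n (T.l (nat_lit 43) (nat_lit 25)) (T.l (nat_lit 43) (nat_lit 49))) (T.n (T.l (nat_lit 46) (nat_lit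 2)) (T.l (nat_lit 46) (nat_lit 5)))) (T.n (T.n (T.l (nat_lit 46) (nat_lit 24)) (T.l (nat_lit 46) (nat_lit 28))) (T.n (T.l (nat_lit 47) (nat_lit 3)) (T.l (nat_lit 47) (nat_lit 13))))))) (T.n (T.n (T.n (T.n (T.l (nat_lit 47) (nat_lit 17)) (T.n (T.l (nat_lit 47) (nat_lit 25)) (T.l (nat_lit 49) (nat_lit 27)))) (T.n (T.n (T.l (nat_lit 49) (nat_lit 36)) (T.l (nat_lit 49) (nat_lit 43))) (T.n (T.l (nat_lit 49) (nat_lit 54)) (T.l (nat_lit 50) (nat_lit 19))))) (T.n (T.n (T.n (T.l (nat_lit 50) (nat_lit 24)) (T.l (nat_lit 50) (nat_lit 29))) (T.n (T.l (nat_lit 50) (nat_lit 52)) (T.l (nat_lit 52) (nat_lit 11)))) (T.n (T.n (T.l (nat_lit 52) (nat_lit 14)) (T.l (nat_lit 52) (nat_lit 21))) (T.n (T.l (nat_lit 52) (nat_lit 50)) (T.l (nat_lit 53) (nat_lit 30)))))) (T.n (T.n (T.n (T.l (nat_lit 53) (nat_lit 33)) (T.n (T.l (nat_lit 54) (nat_lit 2)) (T.l (nat_lit 54) (nat_lit 7)))) (T.n (T.n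 (T.l (nat_lit 54) (nat_lit 29)) (T.l (nat_lit 54) (nat_lit 49))) (T.n (T.l (nat_lit 55) (nat_lit 8)) (T.l (nat_lit 55) (nat_lit 41))))) (T.n (T.n (T.n (T.l (nat_lit 56) (nat_lit 14)) (T.l (nat_lit 56) (nat_lit 27))) (T.n (T.l (nat_lit 56) (nat_lit 33)) (T.l (nat_lit 56) (nat_lit 41)))) (T.n (T.n (T.l (nat_lit 59) (nat_lit 2)) (T.l (nat_lit 59) (nat_lit 17))) (T.n (T.l (nat_lit 59) (nat_lit 24)) (T.l (nat_lit 59) (nat_lit 25))))))))
def T105_3 : T := T.n (T.n (T.n (T.n (T.n (T.l (nat_lit 2) (nat_lit 44)) (T.n (T.l (nat_lit 2) (nat_lit 55)) (T.l (nat_lit 3) (nat_lit 39)))) (T.n (T.n (T.l (nat_lit 3) (nat_lit 49)) (T.l (nat_lit 5) (nat_lit 23))) (T.n (T.l (nat_lit 5) (nat_lit 31)) (T.l (nat_lit 6) (nat_lit 12))))) (T.n (T.n (T.n (T.l (nat_lit 6) (nat_lit 18)) (T.l (nat_lit 7) (nat_lit 17))) (T.n (T.l (nat_lit 7) (nat_lit 35)) (T.l (nat_lit 9) (nat_lit 13)))) (T.n (T.n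 (T.l (nat_lit 9) (nat_lit 31)) (T.l (nat_lit 10) (nat_lit 17))) (T.n (T.l (nat_lit 10) (nat_lit 53)) (T.l (nat_lit 12) (nat_lit 6)))))) (T.n (T.n (T.n (T.l (nat_lit 12) (nat_lit 51)) (T.n (T.l (nat_lit 13) (nat_lit 9)) (T.l (nat_lit 13) (nat_lit 52)))) (T.n (T.n (T.l (nat_lit 17) (nat_lit 7)) (T.l (nat_lit 17) (nat_lit 10))) (T.n (T.l (nat_lit 18) (nat_lit 6)) (T.l (nat_lit 18) (nat_lit 29))))) (T.n (T.n (T.n (T.l (nat_lit 19) (nat_lit 25)) (T.l (nat_lit 19) (nat_lit 44))) (T.n (T.l (nat_lit 20) (nat_lit 28)) (T.l (nat_lit 20) (nat_lit 39)))) (T.n (T.n (T.l (nat_lit 23) (nat_lit 5)) (T.l (nat_lit 23) (nat_lit 52))) (T.n (T.l (nat_lit 24) (nat_lit 35)) (T.l (nat_lit 24) (nat_lit 53))))))) (T.n (T.n (T.n (T.n (T.l (nat_lit 25) (nat_lit 19)) (T.n (T.l (nat_lit 25) (nat_lit 37)) (T.l (nat_lit 28) (nat_lit 20)))) (T.n (T.n (T.l (nat_lit 28) (nat_lit 42)) (T.l (nat_lit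 29) (nat_lit 18))) (T.n (T.l (nat_lit 29) (nat_lit 56)) (T.l (nat_lit 31) (nat_lit 5))))) (T.n (T.n (T.n (T.l (nat_lit 31) (nat_lit 9)) (T.l (nat_lit 35) (nat_lit 7))) (T.n (T.l (nat_lit 35) (nat_lit 24)) (T.l (nat_lit 37) (nat_lit 25)))) (T.n (T.n (T.l (nat_lit 37) (nat_lit 55)) (T.l (nat_lit 39) (nat_lit 3))) (T.n (T.l (nat_lit 39) (nat_lit 20)) (T.l (nat_lit 42) (nat_lit 28)))))) (T.n (T.n (T.n (T.l (nat_lit 42) (nat_lit 49)) (T.n (T.l (nat_lit 44) (nat_lit 2)) (T.l (nat_lit 44) (nat_lit 19)))) (T.n (T.n (T.l (nat_lit 49) (nat_lit 3)) (T.l (nat_lit 49) (nat_lit 42))) (T.n (T.l (nat_lit 51) (nat_lit 12)) (T.l (nat_lit 51) (nat_lit 56))))) (T.n (T.n (T.n (T.l (nat_lit 52) (nat_lit 13)) (T.l (nat_lit 52) (nat_lit 23))) (T.n (T.l (nat_lit 53) (nat_lit 10)) (T.l (nat_lit 53) (nat_lit 24)))) (T.n (T.n (T.l (nat_lit 55) (nat_lit 2)) (T.l (nat_lit 55) (nat_lit 37))) (T.n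 (T.l (nat_lit 56) (nat_lit 29)) (T.l (nat_lit 56) (nat_lit 51)))))))
def T106_3 : T := T.n (T.n (T.n (T.n (T.n (T.n (T.l (nat_lit 2) (nat_lit 45)) (T.n (T.l (nat_lit 2) (nat_lit 58)) (T.l (nat_lit 6) (nat_lit 26)))) (T.n (T.l (nat_lit 6) (nat_lit 45)) (T.n (T.l (nat_lit 9) (nat_lit 32)) (T.l (nat_lit 9) (nat_lit 38))))) (T.n (T.n (T.l (nat_lit 10) (nat_lit 32)) (T.n (T.l (nat_lit 10) (nat_lit 57)) (T.l (nat_lit 17) (nat_lit 45)))) (T.n (T.l (nat_lit 17) (nat_lit 57)) (T.n (T.l (nat_lit 18) (nat_lit 26)) (T.l (nat_lit 18) (nat_lit 48)))))) (T.n (T.n (T.n (T.l (nat_lit 20) (nat_lit 34)) (T.n (T.l (nat_lit 20) (nat_lit 45)) (T.l (nat_lit 23) (nat_lit 38)))) (T.n (T.l (nat_lit 23) (nat_lit 48)) (T.n (T.l (nat_lit 24) (nat_lit 45)) (T.l (nat_lit 24) (nat_lit 57))))) (T.n (T.n (T.l (nat_lit 25) (nat_lit 45)) (T.n (T.l (nat_lit 25) (nat_lit 58)) (T.l (nat_lit 26) (nat_lit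 6)))) (T.n (T.n (T.l (nat_lit 26) (nat_lit 18)) (T.l (nat_lit 26) (nat_lit 32))) (T.n (T.l (nat_lit 26) (nat_lit 48)) (T.l (nat_lit 26) (nat_lit 51))))))) (T.n (T.n (T.n (T.n (T.l (nat_lit 26) (nat_lit 56)) (T.n (T.l (nat_lit 31) (nat_lit 38)) (T.l (nat_lit 31) (nat_lit 45)))) (T.n (T.l (nat_lit 32) (nat_lit 9)) (T.n (T.l (nat_lit 32) (nat_lit 10)) (T.l (nat_lit 32) (nat_lit 26))))) (T.n (T.n (T.l (nat_lit 32) (nat_lit 34)) (T.n (T.l (nat_lit 32) (nat_lit 37)) (T.l (nat_lit 32) (nat_lit 38)))) (T.n (T.l (nat_lit 32) (nat_lit 39)) (T.n (T.l (nat_lit 32) (nat_lit 51)) (T.l (nat_lit 32) (nat_lit 57)))))) (T.n (T.n (T.n (T.l (nat_lit 32) (nat_lit 58)) (T.n (T.l (nat_lit 34) (nat_lit 20)) (T.l (nat_lit 34) (nat_lit 32)))) (T.n (T.l (nat_lit 34) (nat_lit 39)) (T.n (T.l (nat_lit 34) (nat_lit 42)) (T.l (nat_lit 34) (nat_lit 48))))) (T.n (T.n (T.l (nat_lit 34) (nat_lit 49))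 (T.n (T.l (nat_lit 35) (nat_lit 48)) (T.l (nat_lit 35) (nat_lit 57)))) (T.n (T.n (T.l (nat_lit 37) (nat_lit 32)) (T.l (nat_lit 37) (nat_lit 58))) (T.n (T.l (nat_lit 38) (nat_lit 9)) (T.l (nat_lit 38) (nat_lit 23)))))))) (T.n (T.n (T.n (T.n (T.n (T.l (nat_lit 38) (nat_lit 31)) (T.n (T.l (nat_lit 38) (nat_lit 32)) (T.l (nat_lit 38) (nat_lit 48)))) (T.n (T.l (nat_lit 38) (nat_lit 52)) (T.n (T.l (nat_lit 39) (nat_lit 32)) (T.l (nat_lit 39) (nat_lit 34))))) (T.n (T.n (T.l (nat_lit 42) (nat_lit 34)) (T.n (T.l (nat_lit 42) (nat_lit 48)) (T.l (nat_lit 44) (nat_lit 48)))) (T.n (T.l (nat_lit 44) (nat_lit 58)) (T.n (T.l (nat_lit 45) (nat_lit 2)) (T.l (nat_lit 45) (nat_lit 6)))))) (T.n (T.n (T.n (T.l (nat_lit 45) (nat_lit 17)) (T.n (T.l (nat_lit 45) (nat_lit 20)) (T.l (nat_lit 45) (nat_lit 24)))) (T.n (T.l (nat_lit 45) (nat_lit 25)) (T.n (T.l (nat_lit 45) (nat_lit 31)) (T.l (nat_lit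 45) (nat_lit 49))))) (T.n (T.n (T.l (nat_lit 45) (nat_lit 52)) (T.n (T.l (nat_lit 45) (nat_lit 56)) (T.l (nat_lit 48) (nat_lit 18)))) (T.n (T.n (T.l (nat_lit 48) (nat_lit 23)) (T.l (nat_lit 48) (nat_lit 26))) (T.n (T.l (nat_lit 48) (nat_lit 34)) (T.l (nat_lit 48) (nat_lit 35))))))) (T.n (T.n (T.n (T.n (T.l (nat_lit 48) (nat_lit 38)) (T.n (T.l (nat_lit 48) (nat_lit 42)) (T.l (nat_lit 48) (nat_lit 44)))) (T.n (T.l (nat_lit 48) (nat_lit 57)) (T.n (T.l (nat_lit 48) (nat_lit 58)) (T.l (nat_lit 49) (nat_lit 34))))) (T.n (T.n (T.l (nat_lit 49) (nat_lit 45)) (T.n (T.l (nat_lit 51) (nat_lit 26)) (T.l (nat_lit 51) (nat_lit 32)))) (T.n (T.l (nat_lit 52) (nat_lit 38)) (T.n (T.l (nat_lit 52) (nat_lit 45)) (T.l (nat_lit 56) (nat_lit 26)))))) (T.n (T.n (T.n (T.l (nat_lit 56) (nat_lit 45)) (T.n (T.l (nat_lit 57) (nat_lit 10)) (T.l (nat_lit 57) (nat_lit 17)))) (T.n (T.l (nat_lit 57)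 (nat_lit 24)) (T.n (T.l (nat_lit 57) (nat_lit 32)) (T.l (nat_lit 57) (nat_lit 35))))) (T.n (T.n (T.l (nat_lit 57) (nat_lit 48)) (T.n (T.l (nat_lit 58) (nat_lit 2)) (T.l (nat_lit 58) (nat_lit 25)))) (T.n (T.n (T.l (nat_lit 58) (nat_lit 32)) (T.l (nat_lit 58) (nat_lit 37))) (T.n (T.l (nat_lit 58) (nat_lit 44)) (T.l (nat_lit 58) (nat_lit 48))))))))
def T107_3 : T := T.n (T.n (T.n (T.n (T.n (T.n (T.l (nat_lit 3) (nat_lit 30)) (T.n (T.l (nat_lit 3) (nat_lit 41)) (T.l (nat_lit 5) (nat_lit 21)))) (T.n (T.n (T.l (nat_lit 5) (nat_lit 50)) (T.l (nat_lit 7) (nat_lit 46))) (T.n (T.l (nat_lit 7) (nat_lit 50)) (T.l (nat_lit 8) (nat_lit 13))))) (T.n (T.n (T.n (T.l (nat_lit 8) (nat_lit 23)) (T.l (nat_lit 8) (nat_lit 35))) (T.n (T.l (nat_lit 8) (nat_lit 53)) (T.l (nat_lit 9) (nat_lit 21)))) (T.n (T.n (T.l (nat_lit 9) (nat_lit 27)) (T.l (nat_lit 9) (nat_lit 50))) (T.n (T.l (nat_lit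 9) (nat_lit 59)) (T.l (nat_lit 10) (nat_lit 14)))))) (T.n (T.n (T.n (T.l (nat_lit 10) (nat_lit 43)) (T.n (T.l (nat_lit 10) (nat_lit 46)) (T.l (nat_lit 10) (nat_lit 50)))) (T.n (T.n (T.l (nat_lit 11) (nat_lit 18)) (T.l (nat_lit 11) (nat_lit 37))) (T.n (T.l (nat_lit 11) (nat_lit 44)) (T.l (nat_lit 11) (nat_lit 51))))) (T.n (T.n (T.n (T.l (nat_lit 12) (nat_lit 33)) (T.l (nat_lit 12) (nat_lit 41))) (T.n (T.l (nat_lit 13) (nat_lit 8)) (T.l (nat_lit 13) (nat_lit 33)))) (T.n (T.n (T.l (nat_lit 14) (nat_lit 10)) (T.l (nat_lit 14) (nat_lit 35))) (T.n (T.l (nat_lit 14) (nat_lit 39)) (T.l (nat_lit 14) (nat_lit 42))))))) (T.n (T.n (T.n (T.n (T.l (nat_lit 18) (nat_lit 11)) (T.n (T.l (nat_lit 18) (nat_lit 33)) (T.l (nat_lit 18) (nat_lit 41)))) (T.n (T.n (T.l (nat_lit 18) (nat_lit 43)) (T.l (nat_lit 19) (nat_lit 46))) (T.n (T.l (nat_lit 19) (nat_lit 54)) (T.l (nat_lit 21) (nat_lit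 5))))) (T.n (T.n (T.n (T.l (nat_lit 21) (nat_lit 9)) (T.l (nat_lit 21) (nat_lit 29))) (T.n (T.l (nat_lit 21) (nat_lit 51)) (T.l (nat_lit 23) (nat_lit 8)))) (T.n (T.n (T.l (nat_lit 23) (nat_lit 27)) (T.l (nat_lit 23) (nat_lit 33))) (T.n (T.l (nat_lit 23) (nat_lit 59)) (T.l (nat_lit 27) (nat_lit 9)))))) (T.n (T.n (T.n (T.l (nat_lit 27) (nat_lit 23)) (T.n (T.l (nat_lit 27) (nat_lit 37)) (T.l (nat_lit 27) (nat_lit 44)))) (T.n (T.n (T.l (nat_lit 28) (nat_lit 36)) (T.l (nat_lit 28) (nat_lit 54))) (T.n (T.l (nat_lit 29) (nat_lit 21)) (T.l (nat_lit 29) (nat_lit 36))))) (T.n (T.n (T.n (T.l (nat_lit 30) (nat_lit 3)) (T.l (nat_lit 30) (nat_lit 42))) (T.n (T.l (nat_lit 30) (nat_lit 44)) (T.l (nat_lit 30) (nat_lit 55)))) (T.n (T.n (T.l (nat_lit 33) (nat_lit 12)) (T.l (nat_lit 33) (nat_lit 13))) (T.n (T.l (nat_lit 33) (nat_lit 18)) (T.l (nat_lit 33) (nat_lit 23)))))))) (T.n (T.n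 (T.n (T.n (T.n (T.l (nat_lit 35) (nat_lit 8)) (T.n (T.l (nat_lit 35) (nat_lit 14)) (T.l (nat_lit 35) (nat_lit 43)))) (T.n (T.n (T.l (nat_lit 35) (nat_lit 47)) (T.l (nat_lit 36) (nat_lit 28))) (T.n (T.l (nat_lit 36) (nat_lit 29)) (T.l (nat_lit 36) (nat_lit 39))))) (T.n (T.n (T.n (T.l (nat_lit 36) (nat_lit 51)) (T.l (nat_lit 37) (nat_lit 11))) (T.n (T.l (nat_lit 37) (nat_lit 27)) (T.l (nat_lit 37) (nat_lit 46)))) (T.n (T.n (T.l (nat_lit 37) (nat_lit 54)) (T.l (nat_lit 39) (nat_lit 14))) (T.n (T.l (nat_lit 39) (nat_lit 36)) (T.l (nat_lit 39) (nat_lit 54)))))) (T.n (T.n (T.n (T.l (nat_lit 39) (nat_lit 59)) (T.n (T.l (nat_lit 41) (nat_lit 3)) (T.l (nat_lit 41) (nat_lit 12)))) (T.n (T.n (T.l (nat_lit 41) (nat_lit 18)) (T.l (nat_lit 41) (nat_lit 42))) (T.n (T.l (nat_lit 42) (nat_lit 14)) (T.l (nat_lit 42) (nat_lit 30))))) (T.n (T.n (T.n (T.l (nat_lit 42) (nat_lit 41)) (T.l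 (nat_lit 42) (nat_lit 59))) (T.n (T.l (nat_lit 43) (nat_lit 10)) (T.l (nat_lit 43) (nat_lit 18)))) (T.n (T.n (T.l (nat_lit 43) (nat_lit 35)) (T.l (nat_lit 43) (nat_lit 51))) (T.n (T.l (nat_lit 44) (nat_lit 11)) (T.l (nat_lit 44) (nat_lit 27))))))) (T.n (T.n (T.n (T.n (T.l (nat_lit 44) (nat_lit 30)) (T.n (T.l (nat_lit 44) (nat_lit 47)) (T.l (nat_lit 46) (nat_lit 7)))) (T.n (T.n (T.l (nat_lit 46) (nat_lit 10)) (T.l (nat_lit 46) (nat_lit 19))) (T.n (T.l (nat_lit 46) (nat_lit 37)) (T.l (nat_lit 47) (nat_lit 35))))) (T.n (T.n (T.n (T.l (nat_lit 47) (nat_lit 44)) (T.l (nat_lit 47) (nat_lit 53))) (T.n (T.l (nat_lit 47) (nat_lit 55)) (T.l (nat_lit 50) (nat_lit 5)))) (T.n (T.n (T.l (nat_lit 50) (nat_lit 7)) (T.l (nat_lit 50) (nat_lit 9))) (T.n (T.l (nat_lit 50) (nat_lit 10)) (T.l (nat_lit 51) (nat_lit 11)))))) (T.n (T.n (T.n (T.l (nat_lit 51) (nat_lit 21)) (T.n (T.l (nat_lit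 51) (nat_lit 36)) (T.l (nat_lit 51) (nat_lit 43)))) (T.n (T.n (T.l (nat_lit 53) (nat_lit 8)) (T.l (nat_lit 53) (nat_lit 47))) (T.n (T.l (nat_lit 54) (nat_lit 19)) (T.l (nat_lit 54) (nat_lit 28))))) (T.n (T.n (T.n (T.l (nat_lit 54) (nat_lit 37)) (T.l (nat_lit 54) (nat_lit 39))) (T.n (T.l (nat_lit 55) (nat_lit 30)) (T.l (nat_lit 55) (nat_lit 47)))) (T.n (T.n (T.l (nat_lit 59) (nat_lit 9)) (T.l (nat_lit 59) (nat_lit 23))) (T.n (T.l (nat_lit 59) (nat_lit 39)) (T.l (nat_lit 59) (nat_lit 42))))))))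
def T108_3 : T := T.n (T.n (T.n (T.n (T.n (T.n (T.l (nat_lit 3) (nat_lit 32)) (T.l (nat_lit 5) (nat_lit 48))) (T.n (T.l (nat_lit 7) (nat_lit 48)) (T.n (T.l (nat_lit 8) (nat_lit 39)) (T.l (nat_lit 8) (nat_lit 45))))) (T.n (T.n (T.l (nat_lit 9) (nat_lit 30)) (T.l (nat_lit 9) (nat_lit 48))) (T.n (T.l (nat_lit 10) (nat_lit 41)) (T.n (T.l (nat_lit 10) (nat_lit 48)) (T.l (nat_lit 12) (nat_lit 32)))))) (T.n (T.n (T.n (T.l (nat_lit 13) (nat_lit 32)) (T.l (nat_lit 18) (nat_lit 32))) (T.n (T.l (nat_lit 18) (nat_lit 46)) (T.n (T.l (nat_lit 19) (nat_lit 48)) (T.l (nat_lit 21) (nat_lit 44))))) (T.n (T.n (T.l (nat_lit 21) (nat_lit 45)) (T.l (nat_lit 23) (nat_lit 32))) (T.n (T.l (nat_lit 23) (nat_lit 54)) (T.n (T.l (nat_lit 28) (nat_lit 48)) (T.l (nat_lit 29) (nat_lit 48))))))) (T.n (T.n (T.n (T.n (T.l (nat_lit 30) (nat_lit 9)) (T.l (nat_lit 30) (nat_lit 45))) (T.n (T.l (nat_lit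 32) (nat_lit 3)) (T.n (T.l (nat_lit 32) (nat_lit 12)) (T.l (nat_lit 32) (nat_lit 13))))) (T.n (T.n (T.l (nat_lit 32) (nat_lit 18)) (T.l (nat_lit 32) (nat_lit 23))) (T.n (T.l (nat_lit 32) (nat_lit 35)) (T.n (T.l (nat_lit 32) (nat_lit 42)) (T.l (nat_lit 32) (nat_lit 44)))))) (T.n (T.n (T.n (T.l (nat_lit 32) (nat_lit 53)) (T.l (nat_lit 32) (nat_lit 55))) (T.n (T.l (nat_lit 33) (nat_lit 37)) (T.n (T.l (nat_lit 33) (nat_lit 45)) (T.l (nat_lit 35) (nat_lit 32))))) (T.n (T.n (T.l (nat_lit 35) (nat_lit 36)) (T.l (nat_lit 36) (nat_lit 35))) (T.n (T.l (nat_lit 36) (nat_lit 45)) (T.n (T.l (nat_lit 37) (nat_lit 33)) (T.l (nat_lit 37) (nat_lit 48)))))))) (T.n (T.n (T.n (T.n (T.n (T.l (nat_lit 39) (nat_lit 8)) (T.l (nat_lit 39) (nat_lit 48))) (T.n (T.l (nat_lit 41) (nat_lit 10)) (T.n (T.l (nat_lit 41) (nat_lit 45)) (T.l (nat_lit 42) (nat_lit 32))))) (T.n (T.n (T.l (nat_lit 42)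 (nat_lit 50)) (T.l (nat_lit 44) (nat_lit 21))) (T.n (T.l (nat_lit 44) (nat_lit 32)) (T.n (T.l (nat_lit 45) (nat_lit 8)) (T.l (nat_lit 45) (nat_lit 21)))))) (T.n (T.n (T.n (T.l (nat_lit 45) (nat_lit 30)) (T.l (nat_lit 45) (nat_lit 33))) (T.n (T.l (nat_lit 45) (nat_lit 36)) (T.n (T.l (nat_lit 45) (nat_lit 41)) (T.l (nat_lit 45) (nat_lit 46))))) (T.n (T.n (T.l (nat_lit 45) (nat_lit 47)) (T.l (nat_lit 45) (nat_lit 50))) (T.n (T.l (nat_lit 45) (nat_lit 54)) (T.n (T.l (nat_lit 46) (nat_lit 18)) (T.l (nat_lit 46) (nat_lit 45))))))) (T.n (T.n (T.n (T.n (T.l (nat_lit 47) (nat_lit 45)) (T.l (nat_lit 47) (nat_lit 51))) (T.n (T.l (nat_lit 48) (nat_lit 5)) (T.n (T.l (nat_lit 48) (nat_lit 7)) (T.l (nat_lit 48) (nat_lit 9))))) (T.n (T.n (T.l (nat_lit 48) (nat_lit 10)) (T.l (nat_lit 48) (nat_lit 19))) (T.n (T.l (nat_lit 48) (nat_lit 28)) (T.n (T.l (nat_lit 48) (nat_lit 29)) (T.l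 (nat_lit 48) (nat_lit 37)))))) (T.n (T.n (T.n (T.l (nat_lit 48) (nat_lit 39)) (T.l (nat_lit 48) (nat_lit 51))) (T.n (T.l (nat_lit 50) (nat_lit 42)) (T.n (T.l (nat_lit 50) (nat_lit 45)) (T.l (nat_lit 51) (nat_lit 47))))) (T.n (T.n (T.l (nat_lit 51) (nat_lit 48)) (T.l (nat_lit 53) (nat_lit 32))) (T.n (T.l (nat_lit 54) (nat_lit 23)) (T.n (T.l (nat_lit 54) (nat_lit 45)) (T.l (nat_lit 55) (nat_lit 32))))))))
def T109_3 : T := T.n (T.n (T.n (T.n (T.n (T.l (nat_lit 3) (nat_lit 26)) (T.n (T.l (nat_lit 3) (nat_lit 58)) (T.l (nat_lit 5) (nat_lit 26)))) (T.n (T.n (T.l (nat_lit 5) (nat_lit 57)) (T.l (nat_lit 7) (nat_lit 38))) (T.n (T.l (nat_lit 7) (nat_lit 58)) (T.l (nat_lit 11) (nat_lit 38))))) (T.n (T.n (T.n (T.l (nat_lit 11) (nat_lit 57)) (T.l (nat_lit 12) (nat_lit 34))) (T.n (T.l (nat_lit 12) (nat_lit 38)) (T.l (nat_lit 13) (nat_lit 26)))) (T.n (T.n (T.l (nat_lit 13) (nat_lit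 57)) (T.l (nat_lit 14) (nat_lit 26))) (T.n (T.l (nat_lit 14) (nat_lit 38)) (T.l (nat_lit 19) (nat_lit 34)))))) (T.n (T.n (T.n (T.l (nat_lit 19) (nat_lit 57)) (T.n (T.l (nat_lit 26) (nat_lit 3)) (T.l (nat_lit 26) (nat_lit 5)))) (T.n (T.n (T.l (nat_lit 26) (nat_lit 13)) (T.l (nat_lit 26) (nat_lit 14))) (T.n (T.l (nat_lit 26) (nat_lit 27)) (T.l (nat_lit 26) (nat_lit 28))))) (T.n (T.n (T.n (T.l (nat_lit 27) (nat_lit 26)) (T.l (nat_lit 27) (nat_lit 34))) (T.n (T.l (nat_lit 28) (nat_lit 26)) (T.l (nat_lit 28) (nat_lit 58)))) (T.n (T.n (T.l (nat_lit 29) (nat_lit 34)) (T.l (nat_lit 29) (nat_lit 38))) (T.n (T.l (nat_lit 34) (nat_lit 12)) (T.l (nat_lit 34) (nat_lit 19))))))) (T.n (T.n (T.n (T.n (T.l (nat_lit 34) (nat_lit 27)) (T.n (T.l (nat_lit 34) (nat_lit 29)) (T.l (nat_lit 34) (nat_lit 43)))) (T.n (T.n (T.l (nat_lit 34) (nat_lit 55)) (T.l (nat_lit 38) (nat_lit 7))) (T.n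 (T.l (nat_lit 38) (nat_lit 11)) (T.l (nat_lit 38) (nat_lit 12))))) (T.n (T.n (T.n (T.l (nat_lit 38) (nat_lit 14)) (T.l (nat_lit 38) (nat_lit 29))) (T.n (T.l (nat_lit 38) (nat_lit 53)) (T.l (nat_lit 43) (nat_lit 34)))) (T.n (T.n (T.l (nat_lit 43) (nat_lit 58)) (T.l (nat_lit 53) (nat_lit 38))) (T.n (T.l (nat_lit 53) (nat_lit 58)) (T.l (nat_lit 55) (nat_lit 34)))))) (T.n (T.n (T.n (T.l (nat_lit 55) (nat_lit 57)) (T.n (T.l (nat_lit 57) (nat_lit 5)) (T.l (nat_lit 57) (nat_lit 11)))) (T.n (T.n (T.l (nat_lit 57) (nat_lit 13)) (T.l (nat_lit 57) (nat_lit 19))) (T.n (T.l (nat_lit 57) (nat_lit 55)) (T.l (nat_lit 57) (nat_lit 59))))) (T.n (T.n (T.n (T.l (nat_lit 58) (nat_lit 3)) (T.l (nat_lit 58) (nat_lit 7))) (T.n (T.l (nat_lit 58) (nat_lit 28)) (T.l (nat_lit 58) (nat_lit 43)))) (T.n (T.n (T.l (nat_lit 58) (nat_lit 53)) (T.l (nat_lit 58) (nat_lit 59))) (T.n (T.l (nat_lit 59)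 (nat_lit 57)) (T.l (nat_lit 59) (nat_lit 58)))))))
def T110_3 : T := T.n (T.n (T.n (T.n (T.n (T.n (T.l (nat_lit 8) (nat_lit 33)) (T.l (nat_lit 8) (nat_lit 38))) (T.n (T.l (nat_lit 8) (nat_lit 47)) (T.n (T.l (nat_lit 8) (nat_lit 57)) (T.l (nat_lit 11) (nat_lit 26))))) (T.n (T.n (T.l (nat_lit 11) (nat_lit 58)) (T.l (nat_lit 14) (nat_lit 34))) (T.n (T.l (nat_lit 14) (nat_lit 57)) (T.n (T.l (nat_lit 21) (nat_lit 26)) (T.l (nat_lit 21) (nat_lit 36)))))) (T.n (T.n (T.n (T.l (nat_lit 21) (nat_lit 38)) (T.l (nat_lit 21) (nat_lit 50))) (T.n (T.l (nat_lit 26) (nat_lit 11)) (T.n (T.l (nat_lit 26) (nat_lit 21)) (T.l (nat_lit 26) (nat_lit 33))))) (T.n (T.n (T.l (nat_lit 26) (nat_lit 36)) (T.l (nat_lit 26) (nat_lit 41))) (T.n (T.l (nat_lit 26) (nat_lit 43)) (T.n (T.l (nat_lit 27) (nat_lit 38)) (T.l (nat_lit 27) (nat_lit 58))))))) (T.n (T.n (T.n (T.n (T.l (nat_lit 30) (nat_lit 34))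 (T.l (nat_lit 30) (nat_lit 41))) (T.n (T.l (nat_lit 30) (nat_lit 47)) (T.n (T.l (nat_lit 30) (nat_lit 58)) (T.l (nat_lit 33) (nat_lit 8))))) (T.n (T.n (T.l (nat_lit 33) (nat_lit 26)) (T.l (nat_lit 33) (nat_lit 38))) (T.n (T.l (nat_lit 33) (nat_lit 41)) (T.n (T.l (nat_lit 34) (nat_lit 14)) (T.l (nat_lit 34) (nat_lit 30)))))) (T.n (T.n (T.n (T.l (nat_lit 34) (nat_lit 36)) (T.l (nat_lit 34) (nat_lit 41))) (T.n (T.l (nat_lit 34) (nat_lit 54)) (T.n (T.l (nat_lit 34) (nat_lit 59)) (T.l (nat_lit 36) (nat_lit 21))))) (T.n (T.n (T.l (nat_lit 36) (nat_lit 26)) (T.l (nat_lit 36) (nat_lit 34))) (T.n (T.l (nat_lit 36) (nat_lit 54)) (T.n (T.l (nat_lit 38) (nat_lit 8)) (T.l (nat_lit 38) (nat_lit 21)))))))) (T.n (T.n (T.n (T.n (T.n (T.l (nat_lit 38) (nat_lit 27)) (T.l (nat_lit 38) (nat_lit 33))) (T.n (T.l (nat_lit 38) (nat_lit 50)) (T.n (T.l (nat_lit 38) (nat_lit 59)) (T.l (nat_lit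 41) (nat_lit 26))))) (T.n (T.n (T.l (nat_lit 41) (nat_lit 30)) (T.l (nat_lit 41) (nat_lit 33))) (T.n (T.l (nat_lit 41) (nat_lit 34)) (T.n (T.l (nat_lit 43) (nat_lit 26)) (T.l (nat_lit 43) (nat_lit 57)))))) (T.n (T.n (T.n (T.l (nat_lit 46) (nat_lit 50)) (T.l (nat_lit 46) (nat_lit 54))) (T.n (T.l (nat_lit 46) (nat_lit 57)) (T.n (T.l (nat_lit 46) (nat_lit 58)) (T.l (nat_lit 47) (nat_lit 8))))) (T.n (T.n (T.l (nat_lit 47) (nat_lit 30)) (T.l (nat_lit 47) (nat_lit 57))) (T.n (T.l (nat_lit 47) (nat_lit 58)) (T.n (T.l (nat_lit 50) (nat_lit 21)) (T.l (nat_lit 50) (nat_lit 38))))))) (T.n (T.n (T.n (T.n (T.l (nat_lit 50) (nat_lit 46)) (T.l (nat_lit 50) (nat_lit 57))) (T.n (T.l (nat_lit 54) (nat_lit 34)) (T.n (T.l (nat_lit 54) (nat_lit 36)) (T.l (nat_lit 54) (nat_lit 46))))) (T.n (T.n (T.l (nat_lit 54) (nat_lit 58)) (T.l (nat_lit 57) (nat_lit 8))) (T.n (T.l (nat_lit 57) (nat_lit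 14)) (T.n (T.l (nat_lit 57) (nat_lit 43)) (T.l (nat_lit 57) (nat_lit 46)))))) (T.n (T.n (T.n (T.l (nat_lit 57) (nat_lit 47)) (T.l (nat_lit 57) (nat_lit 50))) (T.n (T.l (nat_lit 58) (nat_lit 11)) (T.n (T.l (nat_lit 58) (nat_lit 27)) (T.l (nat_lit 58) (nat_lit 30))))) (T.n (T.n (T.l (nat_lit 58) (nat_lit 46)) (T.l (nat_lit 58) (nat_lit 47))) (T.n (T.l (nat_lit 58) (nat_lit 54)) (T.n (T.l (nat_lit 59) (nat_lit 34)) (T.l (nat_lit 59) (nat_lit 38))))))))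

def TL : List (List T) := [
  [T0_0, T.z, T.z, T.z],
  [T1_0, T.z, T1_2, T.z],
  [T2_0, T2_1, T.z, T.z],
  [T3_0, T.z, T.z, T3_3],
  [T4_0, T.z, T4_2, T.z],
  [T5_0, T.z, T5_2, T.z],
  [T6_0, T6_1, T6_2, T.z],
  [T7_0, T.z, T7_2, T.z],
  [T8_0, T8_1, T8_2, T.z],
  [T9_0, T9_1, T9_2, T.z],
  [T10_0, T.z, T10_2, T10_3],
  [T11_0, T.z, T11_2, T11_3],
  [T12_0, T.z, T12_2, T12_3],
  [T13_0, T13_1, T13_2, T13_3],
  [T14_0, T14_1, T14_2, T14_3],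
  [T15_0, T.z, T15_2, T15_3],
  [T16_0, T16_1, T.z, T.z],
  [T17_0, T17_1, T.z, T.z],
  [T18_0, T18_1, T18_2, T.z],
  [T19_0, T19_1, T.z, T19_3],
  [T20_0, T20_1, T20_2, T20_3],
  [T21_0, T21_1, T.z, T21_3],
  [T22_0, T22_1, T.z, T22_3],
  [T23_0, T.z, T.z, T23_3],
  [T24_0, T.z, T24_2, T24_3],
  [T25_0, T.z, T25_2, T25_3],
  [T26_0, T26_1, T.z, T26_3],
  [T27_0, T.z, T.z, T27_3],
  [T28_0, T.z, T.z, T28_3],
  [T29_0, T.z, T.z, T29_3],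
  [T.z, T30_1, T30_2, T.z],
  [T.z, T31_1, T31_2, T.z],
  [T.z, T.z, T32_2, T32_3],
  [T.z, T33_1, T33_2, T33_3],
  [T.z, T34_1, T34_2, T.z],
  [T.z, T35_1, T35_2, T.z],
  [T.z, T36_1, T36_2, T.z],
  [T.z, T37_1, T37_2, T.z],
  [T.z, T38_1, T38_2, T.z],
  [T.z, T39_1, T39_2, T.z],
  [T.z, T40_1, T40_2, T40_3],
  [T.z, T.z, T41_2, T41_3],
  [T.z, T42_1, T42_2, T42_3],
  [T.z, T.z, T43_2, T.z],
  [T.z, T.z, T44_2, T44_3],
  [T.z, T45_1, T45_2, T.z],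
  [T.z, T46_1, T46_2, T46_3],
  [T.z, T47_1, T47_2, T47_3],
  [T.z, T48_1, T48_2, T48_3],
  [T.z, T.z, T49_2, T49_3],
  [T.z, T.z, T50_2, T50_3],
  [T.z, T51_1, T51_2, T51_3],
  [T.z, T52_1, T52_2, T52_3],
  [T.z, T.z, T53_2, T53_3],
  [T.z, T54_1, T54_2, T54_3],
  [T.z, T.z, T55_2, T55_3],
  [T.z, T.z, T56_2, T56_3],
  [T.z, T.z, T57_2, T57_3],
  [T.z, T58_1, T58_2, T58_3],
  [T.z, T59_1, T59_2, T59_3],
  [T.z, T60_1, T60_2, T60_3],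
  [T.z, T61_1, T61_2, T61_3],
  [T.z, T62_1, T62_2, T62_3],
  [T.z, T63_1, T63_2, T63_3],
  [T.z, T64_1, T64_2, T64_3],
  [T.z, T65_1, T65_2, T65_3],
  [T.z, T.z, T66_2, T66_3],
  [T.z, T67_1, T.z, T.z],
  [T.z, T68_1, T.z, T68_3],
  [T.z, T69_1, T.z, T69_3],
  [T.z, T70_1, T.z, T70_3],
  [T.z, T71_1, T.z, T71_3],
  [T.z, T72_1, T.z, T72_3],
  [T.z, T73_1, T.z, T73_3],
  [T.z, T74_1, T.z, T74_3],
  [T.z, T75_1, T.z, T75_3],
  [T.z, T.z, T.z, T76_3],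
  [T.z, T.z, T.z, T77_3],
  [T.z, T78_1, T78_2, T78_3],
  [T.z, T79_1, T79_2, T79_3],
  [T.z, T80_1, T80_2, T80_3],
  [T.z, T81_1, T81_2, T81_3],
  [T.z, T82_1, T82_2, T82_3],
  [T.z, T83_1, T83_2, T83_3],
  [T.z, T84_1, T84_2, T84_3],
  [T.z, T85_1, T85_2, T85_3],
  [T.z, T86_1, T86_2, T86_3],
  [T.z, T87_1, T87_2, T87_3],
  [T.z, T88_1, T88_2, T88_3],
  [T.z, T89_1, T89_2, T89_3],
  [T.z, T.z, T90_2, T90_3],
  [T.z, T.z, T91_2, T91_3],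
  [T.z, T92_1, T92_2, T92_3],
  [T.z, T93_1, T93_2, T93_3],
  [T.z, T94_1, T94_2, T94_3],
  [T.z, T95_1, T95_2, T95_3],
  [T.z, T96_1, T96_2, T96_3],
  [T.z, T.z, T97_2, T97_3],
  [T.z, T.z, T98_2, T98_3],
  [T.z, T.z, T99_2, T99_3],
  [T.z, T100_1, T100_2, T100_3],
  [T.z, T101_1, T101_2, T101_3],
  [T.z, T102_1, T102_2, T102_3],
  [T.z, T103_1, T103_2, T103_3],
  [T.z, T104_1, T104_2, T104_3],
  [T.z, T105_1, T105_2, T105_3],
  [T.z, T.z, T106_2, T106_3],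
  [T.z, T107_1, T107_2, T107_3],
  [T.z, T108_1, T108_2, T108_3],
  [T.z, T109_1, T109_2, T109_3],
  [T.z, T110_1, T.z, T110_3]]

theorem EL_eq : EL = List.map (List.map (fun x V S => ev V S x)) TL := rfl

theorem chk_cells : allLt 4 (fun t => Bool.and (allLt 111 (fun i =>
    chkC t i (cellsT (nthL T.z (nthL [] TL i) t)) 0))
    (Nat.beq (sumLt 111 (fun i => (cellsT (nthL T.z (nthL [] TL i) t)).length)) 3600)) = true := by
  decide +kernel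

end

end TabM
end MP26f323
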