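import Pool.Agent.Lib.MP_26f323_al.TabA
import Pool.Agent.Lib.MP_26f323_al.TabE

/-!
MP_26f323_al, module TAB: soundness of the kernel computation.
-/

set_option autoImplicit false

namespace MP26f323
namespace TabM

open Equiv Finset ZonM ClsM

/-! ### lists and trees -/

theorem nthL_map {α β : Type} (φ : α → β) (d : α) (l : List α) :
    ∀ n, nthL (φ d) (l.map φ) n = φ (nthL d l n) := by
  induction l with
  | nil => intro n; rfl
  | cons a l ih =>
    intro n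
    rcases n with _ | n
    · rfl
    · exact ih n

theorem ev_eq (V S : ℕ → ℕ) (x : T) : ev V S x =
    ((cellsT x).map (fun p => 2 ^ (Nat.land (Nat.shiftRight (V p.1) (S p.2)) 65535))).sum := by
  induction x with
  | z => rfl
  | l b c =>
    have h : ev V S (T.l b c) = 1 <<< (Nat.land (Nat.shiftRight (V b) (S c)) 65535) := rfl
    have h2 : cellsT (T.l b c) = [(b, c)] := rfl
    rw [h, h2, Nat.shiftLeft_eq, one_mul, List.map_singleton, List.sum_singleton]
  | n x y hx hy =>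
    have h : ev V S (T.n x y) = ev V S x + ev V S y := rfl
    have h2 : cellsT (T.n x y) = cellsT x ++ cellsT y := rfl
    rw [h, h2, List.map_append, List.sum_append, hx, hy]

theorem chkC_cons (t i : ℕ) (p : ℕ × ℕ) (l : List (ℕ × ℕ)) (s : ℕ) :
    chkC t i (p :: l) s = Bool.and (Bool.and (Bool.and (Nat.blt p.1 60)
    (Nat.blt p.2 60)) (Bool.and (Nat.beq (lk 16 (ttF t p.1) p.2) i)
      (Nat.ble s (Nat.add (Nat.mul 60 p.1) p.2))))
    (chkC t i l (Nat.succ (Nat.add (Nat.mul 60 p.1) p.2))) := rfl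

theorem chkC_sound (t i : ℕ) : ∀ (l : List (ℕ × ℕ)) (s : ℕ), chkC t i l s = true →
    (∀ p ∈ l, p.1 < 60 ∧ p.2 < 60 ∧ lk 16 (ttF t p.1) p.2 = i ∧ s ≤ 60 * p.1 + p.2) ∧
      l.Nodup := by
  intro l
  induction l with
  | nil => intro s _; simp
  | cons p l ih =>
    intro s h
    rw [chkC_cons] at h
    simp only [Bool.and_eq_true] at h
    obtain ⟨⟨⟨h1, h2⟩, h3, h4⟩, h5⟩ := h
    obtain ⟨h6, h7⟩ := ih _ h5
    have h4' : s ≤ 60 * p.1 + p.2 := Nat.le_of_ble_eq_true h4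
    refine ⟨?_, ?_⟩
    · intro q hq
      rcases List.mem_cons.1 hq with rfl | hq
      · exact ⟨by simpa [Nat.blt_eq] using h1, by simpa [Nat.blt_eq] using h2,
          Nat.eq_of_beq_eq_true h3, h4'⟩
      · obtain ⟨a1, a2, a3, a4⟩ := h6 q hq
        have a4' : 60 * p.1 + p.2 + 1 ≤ 60 * q.1 + q.2 := a4
        exact ⟨a1, a2, a3, by omega⟩
    · rw [List.nodup_cons]
      refine ⟨fun hp => ?_, h7⟩
      have a4 : 60 * p.1 + p.2 + 1 ≤ 60 * p.1 + p.2 := (h6 p hp).2.2.2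
      omega

/-- the cells of the class i in the table t -/
noncomputable def Cl (t i : ℕ) : List (ℕ × ℕ) := cellsT (nthL T.z (nthL [] TL i) t)

theorem cl_sound {t i : ℕ} (ht : t < 4) (hi : i < 111) :
    (∀ p ∈ Cl t i, p.1 < 60 ∧ p.2 < 60 ∧ lk 16 (ttF t p.1) p.2 = i) ∧ (Cl t i).Nodup := by
  have h := (allLt_iff _ _).1 chk_cells t ht
  rw [Bool.and_eq_true] at h
  have h1 := chkC_sound t i _ _ ((allLt_iff _ _).1 h.1 i hi)
  exact ⟨fun p hp => ⟨(h1.1 p hp).1, (h1.1 p hp).2.1, (h1.1 p hp).2.2.1⟩, h1.2⟩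

theorem cl_len {t : ℕ} (ht : t < 4) : ∑ i ∈ range 111, (Cl t i).length = 3600 := by
  have h := (allLt_iff _ _).1 chk_cells t ht
  rw [Bool.and_eq_true] at h
  have h1 := Nat.eq_of_beq_eq_true h.2
  rw [sumLt_eq] at h1
  exact h1

theorem sum_cl' {t : ℕ} (ht : t < 4) (G : ℕ → ℕ → ℕ → ℕ) (s : Finset ℕ)
    (hs : ∀ i ∈ s, i < 111) (hl : ∑ i ∈ s, (Cl t i).length = 3600) :
    ∑ b ∈ range 60, ∑ c ∈ range 60, G (lk 16 (ttF t b) c) b c =
      ∑ i ∈ s, ((Cl t i).map (fun p => G i p.1 p.2)).sum := by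
  classical
  have h1 : ∀ i ∈ s, ((Cl t i).map (fun p => G i p.1 p.2)).sum =
      ∑ p ∈ (Cl t i).toFinset, G (lk 16 (ttF t p.1) p.2) p.1 p.2 := by
    intro i hi
    obtain ⟨a, b⟩ := cl_sound ht (hs i hi)
    rw [List.sum_toFinset _ b]
    congr 1
    refine List.map_congr_left (fun p hp => ?_)
    rw [(a p hp).2.2]
  have hd : ∀ i ∈ s, ∀ j ∈ s, i ≠ j → Disjoint (Cl t i).toFinset (Cl t j).toFinset := by
    intro i hi j hj hij
    rw [Finset.disjoint_left]
    intro p hp hq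
    have h3 := ((cl_sound ht (hs i hi)).1 p (List.mem_toFinset.1 hp)).2.2
    have h4 := ((cl_sound ht (hs j hj)).1 p (List.mem_toFinset.1 hq)).2.2
    exact hij (h3.symm.trans h4)
  have h2 : s.biUnion (fun i => (Cl t i).toFinset) = range 60 ×ˢ range 60 := by
    apply Finset.eq_of_subset_of_card_le
    · intro p hp
      rw [mem_biUnion] at hp
      rw [mem_product, mem_range, mem_range]
      obtain ⟨i, hi, hq⟩ := hp
      have h := (cl_sound ht (hs i hi)).1 p (List.mem_toFinset.1 hq)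
      exact ⟨h.1, h.2.1⟩
    · rw [card_product, card_range, card_biUnion hd]
      have h3 : ∑ i ∈ s, (Cl t i).toFinset.card = 3600 := by
        rw [← hl]
        refine Finset.sum_congr rfl (fun i hi => ?_)
        exact List.toFinset_card_of_nodup (cl_sound ht (hs i hi)).2
      have h4 : 60 * 60 = 3600 := by norm_num
      rw [h4]
      exact h3.ge
  rw [← Finset.sum_product' (f := fun b c : ℕ => G (lk 16 (ttF t b) c) b c), ← h2,
    Finset.sum_biUnion hd, Finset.sum_congr rfl h1]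

theorem sum_cl {t : ℕ} (ht : t < 4) (G : ℕ → ℕ → ℕ → ℕ) :
    ∑ b ∈ range 60, ∑ c ∈ range 60, G (lk 16 (ttF t b) c) b c =
      ∑ i ∈ range 111, ((Cl t i).map (fun p => G i p.1 p.2)).sum :=
  sum_cl' ht G (range 111) (fun _ hi => mem_range.1 hi) (cl_len ht)

theorem nth_EL (i t : ℕ) (V S : ℕ → ℕ) :
    nthL (fun _ _ => nat_lit 0) (nthL [] EL i) t V S =
      ((Cl t i).map (fun p => 2 ^ (Nat.land (Nat.shiftRight (V p.1) (S p.2)) 65535))).sum := by
  have h1 : nthL [] EL i = List.map (fun x V S => ev V S x) (nthL [] TL i) := by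
    rw [EL_eq]
    exact nthL_map (List.map (fun x V S => ev V S x)) [] TL i
  have h2 : nthL (fun _ _ => nat_lit 0) (nthL [] EL i) t =
      fun V S => ev V S (nthL T.z (nthL [] TL i) t) := by
    rw [h1]
    exact nthL_map (fun x V S => ev V S x) T.z (nthL [] TL i) t
  rw [h2]
  exact ev_eq V S _

/-! ### numerical facts on the tables -/

theorem chk_tab : allLt 60 (fun z => Bool.and (Nat.blt (tauF z) 120) (Bool.and
    (Nat.blt (tyF z) 4) (Nat.beq (cj1 (tauF z) z) (rhoF (tyF z))))) = true := by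
  decide +kernel

theorem chk_rep : allLt 111 (fun k => Bool.and (Nat.blt (repA k) 60) (Bool.and
    (Nat.blt (repB k) 60) (Nat.blt (repC k) 60))) = true := by
  decide +kernel

theorem chk_rowE : allLt 4 (fun t => allLt 60 (fun x => allLt 60 (fun y =>
    Nat.beq (lk 16 (rowE t x) y) (Nat.mul 32 (lk 16 (ttF t x) y))))) = true := by
  decide +kernel

theorem tau_lt {z : ℕ} (hz : z < 60) : tauF z < 120 := by
  have h := (allLt_iff _ _).1 chk_tab z hz
  rw [Bool.and_eq_true] at h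
  simpa [Nat.blt_eq] using h.1

theorem ty_lt {z : ℕ} (hz : z < 60) : tyF z < 4 := by
  have h := (allLt_iff _ _).1 chk_tab z hz
  rw [Bool.and_eq_true, Bool.and_eq_true] at h
  simpa [Nat.blt_eq] using h.2.1

theorem cj_tau {z : ℕ} (hz : z < 60) : cj1 (tauF z) z = rhoF (tyF z) := by
  have h := (allLt_iff _ _).1 chk_tab z hz
  rw [Bool.and_eq_true, Bool.and_eq_true] at h
  exact Nat.eq_of_beq_eq_true h.2.2

theorem rep_lt {k : ℕ} (hk : k < 111) : repA k < 60 ∧ repB k < 60 ∧ repC k < 60 := by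
  have h := (allLt_iff _ _).1 chk_rep k hk
  rw [Bool.and_eq_true, Bool.and_eq_true] at h
  exact ⟨by simpa [Nat.blt_eq] using h.1, by simpa [Nat.blt_eq] using h.2.1,
    by simpa [Nat.blt_eq] using h.2.2⟩

theorem cj1_lt {m x : ℕ} (hm : m < 120) (hx : x < 60) : cj1 m x < 60 := by
  obtain ⟨σ, hσ⟩ := cj_ex m hm
  have h := hσ (el x)
  rw [ix_el hx] at h
  rw [← h]
  exact ix_lt _

theorem ix_rep {k : ℕ} (hk : k < 111) : ix (rep k).1 = repA k ∧ ix (rep k).2.1 = repB k ∧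
    ix (rep k).2.2 = repC k := by
  obtain ⟨h1, h2, h3⟩ := rep_lt hk
  exact ⟨ix_el h1, ix_el h2, ix_el h3⟩

/-! ### evaluation of a slab -/

/-- class of the point opposite to the cell (b,c) in the slab z -/
def DD (k z b c : ℕ) : ℕ :=
  clsI (w0F k z) (mu (iv b) (cj1 (tauF z) (repB k))) (mu (iv c) (cj1 (tauF z) (repC k)))

theorem w0_lt {k z : ℕ} (hk : k < 111) (hz : z < 60) : w0F k z < 60 := by
  have h : w0F k z = mu (iv (cj1 (tauF z) z)) (cj1 (tauF z) (repA k)) := by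
    rw [cj_tau hz]; rfl
  rw [h]
  exact mu_lt (iv_lt (cj1_lt (tau_lt hz) hz)) (cj1_lt (tau_lt hz) (rep_lt hk).1)

theorem slab_eval (hS : SpecCls) {f : Gam → ℕ} (hC : Col f) (g : ℕ → ℕ → ℕ) {k z : ℕ}
    (hk : k < 111) (hz : z < 60) : slab f g (rep k) (el z) =
      ∑ b ∈ range 60, ∑ c ∈ range 60,
        g (FC f (lk 16 (ttF (tyF z) b) c)) (FC f (DD k z b c)) := by
  obtain ⟨σ, hσ⟩ := cj_ex (tauF z) (tau_lt hz)
  obtain ⟨r1, r2, r3⟩ := ix_rep hk
  have hσb : Function.Bijective (cjA σ) := Finite.injective_iff_bijective.1 (cjA_inj σ)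
  have key : ∀ z1 z2 : A, g (f (el z, z1, z2)) (f ((el z, z1, z2)⁻¹ * rep k)) =
      g (FC f (lk 16 (ttF (tyF z) (ix (cjA σ z1))) (ix (cjA σ z2))))
        (FC f (DD k z (ix (cjA σ z1)) (ix (cjA σ z2)))) := by
    intro z1 z2
    have e1 : f (el z, z1, z2) =
        FC f (lk 16 (ttF (tyF z) (ix (cjA σ z1))) (ix (cjA σ z2))) := by
      rw [hS.const f hC, hσ, hσ]
      have : cls (el z, z1, z2) =
        lk 16 (ttF (tyF z) (cj1 (tauF z) (ix z1))) (cj1 (tauF z) (ix z2)) := by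
        unfold cls clsI
        rw [ix_el hz]
      rw [this]
    have e2 : f ((el z, z1, z2)⁻¹ * rep k) =
        FC f (DD k z (ix (cjA σ z1)) (ix (cjA σ z2))) := by
      have h1 := hC.cj σ ((el z)⁻¹ * (rep k).1) (z1⁻¹ * (rep k).2.1) (z2⁻¹ * (rep k).2.2)
      have h2 : ((el z, z1, z2)⁻¹ * rep k : Gam) =
        ((el z)⁻¹ * (rep k).1, z1⁻¹ * (rep k).2.1, z2⁻¹ * (rep k).2.2) := rfl
      rw [h2, ← h1, hS.const f hC]
      congr 1
      unfold cls DD w0F
      simp only [cj_mul, cj_inv, ix_mul, ix_inv]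
      rw [hσ (el z), hσ (rep k).1, hσ (rep k).2.1, hσ (rep k).2.2, ix_el hz, r1, r2, r3,
        cj_tau hz]
    rw [e1, e2]
  unfold slab
  simp only [key]
  rw [hσb.sum_comp (fun y1 => ∑ z2 : A, g (FC f (lk 16 (ttF (tyF z) (ix y1)) (ix (cjA σ z2))))
        (FC f (DD k z (ix y1) (ix (cjA σ z2)))))]
  rw [sum_A (fun b => ∑ z2 : A, g (FC f (lk 16 (ttF (tyF z) b) (ix (cjA σ z2))))
        (FC f (DD k z b (ix (cjA σ z2)))))]
  refine Finset.sum_congr rfl (fun b _ => ?_)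
  rw [hσb.sum_comp (fun y2 => g (FC f (lk 16 (ttF (tyF z) b) (ix y2)))
        (FC f (DD k z b (ix y2))))]
  rw [sum_A (fun c => g (FC f (lk 16 (ttF (tyF z) b) c)) (FC f (DD k z b c)))]

theorem DD_lt (hS : SpecCls) {k z b c : ℕ} (hk : k < 111) (hz : z < 60) (hb : b < 60)
    (hc : c < 60) : DD k z b c < 111 := by
  have h := hS.lt (pt (w0F k z) (mu (iv b) (cj1 (tauF z) (repB k)))
    (mu (iv c) (cj1 (tauF z) (repC k))))
  unfold cls pt at h
  rw [ix_el (w0_lt hk hz), ix_el (mu_lt (iv_lt hb) (cj1_lt (tau_lt hz) (rep_lt hk).2.1)),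
    ix_el (mu_lt (iv_lt hc) (cj1_lt (tau_lt hz) (rep_lt hk).2.2))] at h
  exact h

theorem vs_eq {k z b c : ℕ} (hk : k < 111) (hz : z < 60) (hb : b < 60) (hc : c < 60) :
    Nat.land (Nat.shiftRight (vrow k z b) (srow k z c)) 65535 = 32 * DD k z b c := by
  have hw := w0_lt hk hz
  have hx : cj1 (tauF (w0F k z)) (mu (iv b) (cj1 (tauF z) (repB k))) < 60 :=
    cj1_lt (tau_lt hw) (mu_lt (iv_lt hb) (cj1_lt (tau_lt hz) (rep_lt hk).2.1))
  have hy : cj1 (tauF (w0F k z)) (mu (iv c) (cj1 (tauF z) (repC k))) < 60 :=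
    cj1_lt (tau_lt hw) (mu_lt (iv_lt hc) (cj1_lt (tau_lt hz) (rep_lt hk).2.2))
  have h := Nat.eq_of_beq_eq_true ((allLt_iff _ _).1 ((allLt_iff _ _).1
    ((allLt_iff _ _).1 chk_rowE _ (ty_lt hw)) _ hx) _ hy)
  exact h

end TabM
end MP26f323
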