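import Pool.Agent.Lib.MP_26f323_al.TabB

/-!
MP_26f323_al, module TAB: the tables of intersection numbers from the kernel computation.
-/

set_option autoImplicit false

namespace MP26f323
namespace TabM

open Equiv Finset ZonM ClsM

/-! ### histograms -/

theorem sum_map_D {α : Type} (l : List α) (D : α → ℕ) (n : ℕ) (hD : ∀ q ∈ l, D q < n)
    (φ : ℕ → ℕ) : (l.map (fun q => φ (D q))).sum =
      ∑ j ∈ range n, (l.countP (fun q => D q == j)) * φ j := by
  induction l with
  | nil => simp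
  | cons a l ih =>
    rw [List.map_cons, List.sum_cons, ih (fun q hq => hD q (List.mem_cons_of_mem _ hq))]
    simp only [List.countP_cons, add_mul, Finset.sum_add_distrib]
    rw [add_comm]
    congr 1
    rw [Finset.sum_eq_single (D a)]
    · simp
    · intro j _ hj
      rw [if_neg (by simpa using Ne.symm hj), zero_mul]
    · intro h
      exact absurd (mem_range.2 (hD a List.mem_cons_self)) h

/-- number of the cells of the class i whose opposite class is j -/
noncomputable def N (k z i j : ℕ) : ℕ := (Cl (tyF z) i).countP (fun q => DD k z q.1 q.2 == j)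

/-- weighted histogram -/
noncomputable def H (k : ℕ) (WL : List (ℕ × ℕ)) (i j : ℕ) : ℕ :=
  (WL.map (fun p => p.2 * N k p.1 i j)).sum

theorem sum_N (hS : SpecCls) {k z i : ℕ} (hk : k < 111) (hz : z < 60) (hi : i < 111)
    (φ : ℕ → ℕ) : ((Cl (tyF z) i).map (fun q => φ (DD k z q.1 q.2))).sum =
      ∑ j ∈ range 111, N k z i j * φ j := by
  refine sum_map_D _ _ 111 (fun q hq => ?_) φ
  have h := (cl_sound (ty_lt hz) hi).1 q hq
  exact DD_lt hS hk hz h.1 h.2.1

theorem rowSum_eq (hS : SpecCls) {k i : ℕ} (hk : k < 111) (hi : i < 111) (WL : List (ℕ × ℕ))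
    (hW : ∀ p ∈ WL, p.1 < 60) : rowSum k (nthL [] EL i) WL =
      ∑ j ∈ range 111, H k WL i j * (2 ^ 32) ^ j := by
  induction WL with
  | nil =>
    have h : rowSum k (nthL [] EL i) [] = 0 := rfl
    rw [h]
    simp [H]
  | cons p WL ih =>
    obtain ⟨z, w⟩ := p
    have hz : z < 60 := hW (z, w) List.mem_cons_self
    have h : rowSum k (nthL [] EL i) ((z, w) :: WL) = rowSum k (nthL [] EL i) WL + w *
        (nthL (fun _ _ => nat_lit 0) (nthL [] EL i) (tyF z) (vrow k z) (srow k z)) := rfl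
    have h2 : nthL (fun _ _ => nat_lit 0) (nthL [] EL i) (tyF z) (vrow k z) (srow k z) =
        ∑ j ∈ range 111, N k z i j * (2 ^ 32) ^ j := by
      rw [nth_EL, ← sum_N hS hk hz hi (fun j => (2 ^ 32) ^ j)]
      congr 1
      refine List.map_congr_left (fun q hq => ?_)
      have h3 := (cl_sound (ty_lt hz) hi).1 q hq
      rw [vs_eq hk hz h3.1 h3.2.1, pow_mul]
    rw [h, h2, ih (fun q hq => hW q (List.mem_cons_of_mem _ hq)), Finset.mul_sum,
      ← Finset.sum_add_distrib]
    refine Finset.sum_congr rfl (fun j _ => ?_)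
    simp only [H, List.map_cons, List.sum_cons]
    ring

theorem slab_N (hS : SpecCls) {f : Gam → ℕ} (hC : Col f) (g : ℕ → ℕ → ℕ) {k z : ℕ}
    (hk : k < 111) (hz : z < 60) : slab f g (rep k) (el z) =
      ∑ i ∈ range 111, ∑ j ∈ range 111, N k z i j * g (FC f i) (FC f j) := by
  rw [slab_eval hS hC g hk hz,
    sum_cl (ty_lt hz) (fun i b c => g (FC f i) (FC f (DD k z b c)))]
  refine Finset.sum_congr rfl (fun i hi => ?_)
  exact sum_N hS hk hz (mem_range.1 hi) (fun j => g (FC f i) (FC f j))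

theorem slab_H (hS : SpecCls) {f : Gam → ℕ} (hC : Col f) (g : ℕ → ℕ → ℕ) {k : ℕ}
    (hk : k < 111) (WL : List (ℕ × ℕ)) (hW : ∀ p ∈ WL, p.1 < 60) :
    (WL.map (fun p => p.2 * slab f g (rep k) (el p.1))).sum =
      ∑ i ∈ range 111, ∑ j ∈ range 111, H k WL i j * g (FC f i) (FC f j) := by
  induction WL with
  | nil => simp [H]
  | cons p WL ih =>
    rw [List.map_cons, List.sum_cons, ih (fun q hq => hW q (List.mem_cons_of_mem _ hq)),
      slab_N hS hC g hk (hW p List.mem_cons_self), Finset.mul_sum, ← Finset.sum_add_distrib]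
    refine Finset.sum_congr rfl (fun i _ => ?_)
    rw [Finset.mul_sum, ← Finset.sum_add_distrib]
    refine Finset.sum_congr rfl (fun j _ => ?_)
    simp only [H, List.map_cons, List.sum_cons]
    ring

theorem N_le {k z i j : ℕ} (hz : z < 60) (hi : i < 111) : N k z i j ≤ 3600 := by
  refine List.countP_le_length.trans ?_
  rw [← cl_len (ty_lt hz)]
  exact Finset.single_le_sum (f := fun i => (Cl (tyF z) i).length) (fun _ _ => Nat.zero_le _)
    (mem_range.2 hi)

theorem H_le {k i j : ℕ} (hi : i < 111) (WL : List (ℕ × ℕ))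
    (hW : ∀ p ∈ WL, p.1 < 60) : H k WL i j ≤ (WL.map (fun p => p.2)).sum * 3600 := by
  induction WL with
  | nil => simp [H]
  | cons p WL ih =>
    have h1 := ih (fun q hq => hW q (List.mem_cons_of_mem _ hq))
    have h2 : p.2 * N k p.1 i j ≤ p.2 * 3600 :=
      Nat.mul_le_mul_left _ (N_le (hW p List.mem_cons_self) hi)
    have h3 : H k (p :: WL) i j = p.2 * N k p.1 i j + H k WL i j := by
      simp only [H, List.map_cons, List.sum_cons]
    rw [h3, List.map_cons, List.sum_cons, add_mul]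
    exact Nat.add_le_add h2 h1

/-! ### the moves -/

theorem ix_inG (d : ℕ) (a : A) : ix (inG d a) = xa d (ix a) := by
  rcases d with _ | d
  · rfl
  · exact ix_inv a

theorem ix_tw1 (d : ℕ) (z : Gam) : ix (twG d z).1 = xa d (ix z.1) := by
  rcases d with _ | d
  · rfl
  · exact ix_inv z.1

theorem ix_tw2 (d : ℕ) (z : Gam) : ix (twG d z).2.1 = xb d (ix z.1) (ix z.2.1) := by
  rcases d with _ | d
  · rfl
  · show ix (z.2.1 * z.1⁻¹) = mu (ix z.2.1) (iv (ix z.1))
    rw [ix_mul, ix_inv]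

theorem ix_tw3 (d : ℕ) (z : Gam) : ix (twG d z).2.2 = xb d (ix z.1) (ix z.2.2) := by
  rcases d with _ | d
  · rfl
  · show ix (z.2.2 * z.1⁻¹) = mu (ix z.2.2) (iv (ix z.1))
    rw [ix_mul, ix_inv]

theorem ix_sw1 (e : ℕ) (z : Gam) : ix (swG e z).1 = ix z.1 := by
  rcases e with _ | e <;> rfl

theorem ix_sw2 (e : ℕ) (z : Gam) : ix (swG e z).2.1 = pick e (ix z.2.1) (ix z.2.2) := by
  rcases e with _ | e <;> rfl

theorem ix_sw3 (e : ℕ) (z : Gam) : ix (swG e z).2.2 = pick e (ix z.2.2) (ix z.2.1) := by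
  rcases e with _ | e <;> rfl

/-- the general move on indices -/
theorem move_eq {σ : Perm (Fin 5)} {m : ℕ} (hσ : ∀ a : A, ix (cjA σ a) = cj1 m (ix a)) (e d : ℕ)
    (u v : Gam)
    (h1 : cj1 m (xa d (ix u.1)) = ix v.1)
    (h2 : cj1 m (pick e (xb d (ix u.1) (ix u.2.1)) (xb d (ix u.1) (ix u.2.2))) = ix v.2.1)
    (h3 : cj1 m (pick e (xb d (ix u.1) (ix u.2.2)) (xb d (ix u.1) (ix u.2.1))) = ix v.2.2) :
    cjG σ (swG e (twG d u)) = v := by
  refine Prod.ext (ix_inj ?_) (Prod.ext (ix_inj ?_) (ix_inj ?_))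
  · show ix (cjA σ (swG e (twG d u)).1) = ix v.1
    rw [hσ, ix_sw1, ix_tw1, h1]
  · show ix (cjA σ (swG e (twG d u)).2.1) = ix v.2.1
    rw [hσ, ix_sw2, ix_tw2, ix_tw3, h2]
  · show ix (cjA σ (swG e (twG d u)).2.2) = ix v.2.2
    rw [hσ, ix_sw3, ix_tw2, ix_tw3, h3]

theorem mv_sound {f : Gam → ℕ} (hC : Col f) (g : ℕ → ℕ → ℕ) {k m e d s z y : ℕ}
    (hk : k < 111) (hz : z < 60) (h : chkMv k m e d s z y = true)
    (hg : s = 0 ∨ ∀ u v, g u v = g v u) : slab f g (rep k) (el z) = slab f g (rep k) (el y) := by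
  unfold chkMv at h
  simp only [Bool.and_eq_true] at h
  obtain ⟨h0, h1, h2, h3, h4⟩ := h
  have hm : m < 120 := by simpa [Nat.blt_eq] using h0
  have h1 := Nat.eq_of_beq_eq_true h1
  have h2 := Nat.eq_of_beq_eq_true h2
  have h3 := Nat.eq_of_beq_eq_true h3
  have h4 := Nat.eq_of_beq_eq_true h4
  obtain ⟨σ, hσ⟩ := cj_ex m hm
  obtain ⟨r1, r2, r3⟩ := ix_rep hk
  have hM := mv_gen hC σ e d
  rcases s with _ | s
  · have e1 : cjG σ (swG e (twG d (rep k))) = rep k := by
      apply move_eq hσ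
      · rw [r1]; exact h1
      · rw [r1, r2, r3]; exact h2
      · rw [r1, r2, r3]; exact h3
    have e2 : cjA σ (inG d (el z)) = el y := by
      rw [← el_ix (cjA σ (inG d (el z))), hσ, ix_inG, ix_el hz]
      congr 1
    rw [slab_mv hM g (rep k) e1 (el z), e2]
  · have hg' : ∀ u v, g u v = g v u := by
      rcases hg with hg | hg
      · exact absurd hg (Nat.succ_ne_zero s)
      · exact hg
    have i1 : ix (rep k)⁻¹.1 = iv (repA k) := by rw [Prod.fst_inv, ix_inv, r1]
    have i2 : ix (rep k)⁻¹.2.1 = iv (repB k) := by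
      rw [Prod.snd_inv, Prod.fst_inv, ix_inv, r2]
    have i3 : ix (rep k)⁻¹.2.2 = iv (repC k) := by
      rw [Prod.snd_inv, Prod.snd_inv, ix_inv, r3]
    have e1 : cjG σ (swG e (twG d (rep k)⁻¹)) = rep k := by
      apply move_eq hσ
      · rw [i1, r1]; exact h1
      · rw [i1, i2, i3, r2]; exact h2
      · rw [i1, i2, i3, r3]; exact h3
    have e2 : cjA σ (inG d ((rep k).1⁻¹ * el z)) = el y := by
      rw [← el_ix (cjA σ (inG d ((rep k).1⁻¹ * el z))), hσ, ix_inG, ix_mul, ix_inv, r1, ix_el hz]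
      congr 1
    rw [slab_mv2 hC hM g hg' (rep k) e1 (el z), e2]

theorem X_sound {f : Gam → ℕ} (hC : Col f) (g : ℕ → ℕ → ℕ) {k X : ℕ}
    (hk : k < 111) (h : chkX k X = true) (hg : chkK X = true ∨ ∀ u v, g u v = g v u) :
    ∑ a : A, slab f g (rep k) a = ∑ z ∈ range 60, slab f g (rep k) (el (rootF X z)) := by
  have h1 := sum_A (fun n => slab f g (rep k) (el n))
  simp only [el_ix] at h1
  rw [h1]
  refine Finset.sum_congr rfl (fun z hz => ?_)
  have hz' := mem_range.1 hz
  refine mv_sound hC g hk hz' ((allLt_iff _ _).1 h z hz') ?_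
  rcases hg with hg | hg
  · exact Or.inl (Nat.eq_of_beq_eq_true ((allLt_iff _ _).1 hg z hz'))
  · exact Or.inr hg

/-! ### the weights -/

theorem sum_w (WL : List (ℕ × ℕ)) (n : ℕ) (hW : ∀ p ∈ WL, p.1 < n) (φ : ℕ → ℕ) :
    (WL.map (fun p => p.2 * φ p.1)).sum =
      ∑ y ∈ range n, (WL.map (fun p => if p.1 = y then p.2 else 0)).sum * φ y := by
  induction WL with
  | nil => simp
  | cons p WL ih =>
    simp only [List.map_cons, List.sum_cons, add_mul, Finset.sum_add_distrib]
    rw [ih (fun q hq => hW q (List.mem_cons_of_mem _ hq))]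
    congr 1
    rw [Finset.sum_eq_single p.1]
    · simp
    · intro j _ hj
      rw [if_neg (Ne.symm hj), zero_mul]
    · intro h
      exact absurd (mem_range.2 (hW p List.mem_cons_self)) h

theorem W_facts (WL : List (ℕ × ℕ)) :
    (List.rec true (fun p _ ih => Bool.and (Nat.blt p.1 60) ih) WL : Bool) = true →
      ∀ p ∈ WL, p.1 < 60 := by
  induction WL with
  | nil => intro _ p hp; simp at hp
  | cons q WL ih =>
    intro h p hp
    have h' : (Nat.blt q.1 60 && (List.rec true (fun p _ ih => Bool.and (Nat.blt p.1 60) ih) WL :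
      Bool)) = true := h
    rw [Bool.and_eq_true] at h'
    rcases List.mem_cons.1 hp with rfl | hp
    · simpa [Nat.blt_eq] using h'.1
    · exact ih h'.2 p hp

theorem W_sum1 (WL : List (ℕ × ℕ)) :
    (List.rec (nat_lit 0) (fun p _ ih => Nat.add ih (Nat.shiftLeft p.2 (Nat.mul 8 p.1))) WL : ℕ) =
      (WL.map (fun p => p.2 * 256 ^ p.1)).sum := by
  induction WL with
  | nil => rfl
  | cons q WL ih =>
    have h : (List.rec (nat_lit 0) (fun p _ ih => Nat.add ih (Nat.shiftLeft p.2 (Nat.mul 8 p.1)))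
      (q :: WL) : ℕ) = (List.rec (nat_lit 0) (fun p _ ih => Nat.add ih
        (Nat.shiftLeft p.2 (Nat.mul 8 p.1))) WL : ℕ) + q.2 <<< (8 * q.1) := rfl
    rw [h, ih, List.map_cons, List.sum_cons, Nat.shiftLeft_eq, pow_mul, add_comm]
    norm_num

theorem W_sum2 (WL : List (ℕ × ℕ)) :
    (List.rec (nat_lit 0) (fun p _ ih => Nat.add ih p.2) WL : ℕ) =
      (WL.map (fun p => p.2)).sum := by
  induction WL with
  | nil => rfl
  | cons q WL ih =>
    have h : (List.rec (nat_lit 0) (fun p _ ih => Nat.add ih p.2)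
      (q :: WL) : ℕ) = (List.rec (nat_lit 0) (fun p _ ih => Nat.add ih p.2) WL : ℕ) + q.2 := rfl
    rw [h, ih, List.map_cons, List.sum_cons, add_comm]

theorem rootF_lt (X z : ℕ) : rootF X z < 64 := by
  have h : rootF X z = (lk 16 X z) &&& (2 ^ 6 - 1) := rfl
  rw [h, Nat.and_two_pow_sub_one_eq_mod]
  exact Nat.mod_lt _ (by positivity)

theorem W_sound {X : ℕ} {WL : List (ℕ × ℕ)} (h : chkW X WL = true) :
    (∀ p ∈ WL, p.1 < 60) ∧ (WL.map (fun p => p.2)).sum = 60 ∧
      ∀ φ : ℕ → ℕ, ∑ z ∈ range 60, φ (rootF X z) = (WL.map (fun p => p.2 * φ p.1)).sum := by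
  unfold chkW at h
  rw [Bool.and_eq_true, Bool.and_eq_true] at h
  obtain ⟨h1, h2, h3⟩ := h
  have hW := W_facts WL h3
  have h2 := Nat.eq_of_beq_eq_true h2
  rw [W_sum2] at h2
  have h1 := Nat.eq_of_beq_eq_true h1
  rw [W_sum1, sumLt_eq] at h1
  have hn : ∀ p ∈ WL, p.1 < 64 := fun p hp => (hW p hp).trans (by norm_num)
  have hfib : ∀ φ : ℕ → ℕ, ∑ z ∈ range 60, φ (rootF X z) =
      ∑ y ∈ range 64, ((range 60).filter (fun z => rootF X z = y)).card * φ y := by
    intro φ
    rw [← Finset.sum_fiberwise_of_maps_to (s := range 60) (t := range 64)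
      (g := fun z => rootF X z) (fun z _ => mem_range.2 (rootF_lt X z))]
    refine Finset.sum_congr rfl (fun y _ => ?_)
    rw [← smul_eq_mul, ← Finset.sum_const]
    refine Finset.sum_congr rfl (fun z hz => ?_)
    rw [(mem_filter.1 hz).2]
  have e1 : ∑ z ∈ range 60, Nat.shiftLeft 1 (Nat.mul 8 (rootF X z)) =
      ∑ y ∈ range 64, ((range 60).filter (fun z => rootF X z = y)).card * 256 ^ y := by
    rw [← hfib (fun y => 256 ^ y)]
    refine Finset.sum_congr rfl (fun z _ => ?_)
    have h4 : Nat.shiftLeft 1 (Nat.mul 8 (rootF X z)) = 1 <<< (8 * rootF X z) := rfl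
    rw [h4, Nat.shiftLeft_eq, one_mul, pow_mul]
    norm_num
  rw [e1, sum_w WL 64 hn (fun y => 256 ^ y)] at h1
  have hc1 : ∀ y, ((range 60).filter (fun z => rootF X z = y)).card < 256 := by
    intro y
    refine lt_of_le_of_lt (Finset.card_filter_le _ _) ?_
    rw [card_range]; norm_num
  have hc2 : ∀ y, (WL.map (fun p => if p.1 = y then p.2 else 0)).sum < 256 := by
    intro y
    have h5 : (WL.map (fun p => if p.1 = y then p.2 else 0)).sum ≤
        (WL.map (fun p => p.2)).sum := by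
      apply List.sum_le_sum
      intro p _
      split_ifs
      · exact le_rfl
      · exact Nat.zero_le _
    omega
  have hcc : ∀ y ∈ range 64, ((range 60).filter (fun z => rootF X z = y)).card =
      (WL.map (fun p => if p.1 = y then p.2 else 0)).sum := by
    intro y hy
    have d1 := digit 256 (by norm_num) y 64 _ hc1 (mem_range.1 hy)
    have d2 := digit 256 (by norm_num) y 64 _ hc2 (mem_range.1 hy)
    rw [← d1, ← d2, h1]
  refine ⟨hW, h2.symm, fun φ => ?_⟩
  rw [hfib φ, sum_w WL 64 hn φ]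
  exact Finset.sum_congr rfl (fun y hy => by rw [hcc y hy])

/-- all intersection numbers of the class k -/
theorem main_H (hS : SpecCls) {f : Gam → ℕ} (hC : Col f) (g : ℕ → ℕ → ℕ) {k X : ℕ}
    {WL : List (ℕ × ℕ)} (hk : k < 111) (hX : chkX k X = true) (hW : chkW X WL = true)
    (hg : chkK X = true ∨ ∀ u v, g u v = g v u) :
    ∑ z : Gam, g (f z) (f (z⁻¹ * rep k)) =
      ∑ i ∈ range 111, ∑ j ∈ range 111, H k WL i j * g (FC f i) (FC f j) := by
  obtain ⟨w1, w2, w3⟩ := W_sound hW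
  rw [← sum_slab, X_sound hC g hk hX hg, w3 (fun y => slab f g (rep k) (el y)),
    slab_H hS hC g hk WL w1]

/-! ### the tables -/

theorem lk32 (v i : ℕ) : lk 32 v i = v / (2 ^ 32) ^ i % 2 ^ 32 := by
  have h : lk 32 v i = (v >>> (32 * i)) &&& (2 ^ 32 - 1) := rfl
  rw [h, Nat.and_two_pow_sub_one_eq_mod, Nat.shiftRight_eq_div_pow, pow_mul]

/-- row sums of the class k -/
noncomputable def RR (k : ℕ) (WL : List (ℕ × ℕ)) (i : ℕ) : ℕ :=
  rowSum k (nthL [] EL (Nat.succ i)) WL

theorem tri_sum (a : ℕ → ℕ → ℕ) (n : ℕ) : ∑ i ∈ range n, ∑ j ∈ range n, a i j =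
    ∑ j ∈ range n, ∑ i ∈ range (j + 1), (a i j + if i < j then a j i else 0) := by
  induction n with
  | zero => simp
  | succ n ih =>
    rw [Finset.sum_range_succ (fun j => ∑ i ∈ range (j + 1), (a i j + if i < j then a j i else 0)),
      ← ih, Finset.sum_range_succ (fun i => ∑ j ∈ range (n + 1), a i j)]
    simp only [Finset.sum_range_succ (fun j => a _ j), Finset.sum_add_distrib]
    rw [Finset.sum_range_succ (fun i => a i n), Finset.sum_range_succ
      (fun i => if i < n then a n i else 0), if_neg (lt_irrefl n)]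
    have h : ∑ i ∈ range n, (if i < n then a n i else 0) = ∑ i ∈ range n, a n i :=
      Finset.sum_congr rfl (fun i hi => if_pos (mem_range.1 hi))
    rw [h]
    ring

end TabM
end MP26f323
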