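import Pool.Agent.Lib.MP_26f323_al.TabF

/-!
MP_26f323_al, module TAB: the final soundness theorems.
-/

set_option autoImplicit false

namespace MP26f323
namespace TabM

open Equiv Finset ZonM ClsM

theorem lt_pow (b : ℕ) (c : ℕ → ℕ) (hc : ∀ v, c v < b) (n : ℕ) :
    ∑ v ∈ range n, c v * b ^ v < b ^ n := by
  induction n with
  | zero => simp
  | succ n ih =>
    rw [Finset.sum_range_succ, pow_succ']
    have h : (c n + 1) * b ^ n ≤ b * b ^ n := Nat.mul_le_mul_right _ (hc n)
    rw [add_mul, one_mul] at h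
    omega

section

variable {k : ℕ} {WL : List (ℕ × ℕ)}

/-- the bound 2^32 for the entries, for all arguments -/
theorem H_lt (hW : ∀ p ∈ WL, p.1 < 60) (hw : (WL.map (fun p => p.2)).sum = 60) {i : ℕ}
    (hi : i < 111) (j : ℕ) : H k WL i j < 2 ^ 31 := by
  have h := H_le (k := k) (j := j) hi WL hW
  rw [hw] at h
  exact lt_of_le_of_lt h (by norm_num)

theorem luF_eq (hS : SpecCls) (hk : k < 111) (hW : ∀ p ∈ WL, p.1 < 60)
    (hw : (WL.map (fun p => p.2)).sum = 60) {j : ℕ} (hj : j < 110) :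
    luF (RR k WL) j = ∑ i ∈ range (j + 1), H k WL (i + 1) (j + 1) * (2 ^ 32) ^ i := by
  unfold luF
  rw [sumLt_eq]
  refine Finset.sum_congr rfl (fun i hi => ?_)
  have hi' : i + 1 < 111 := by
    have := mem_range.1 hi
    omega
  have h1 : Nat.land (Nat.shiftRight (RR k WL i) (Nat.mul 32 (Nat.succ j))) (nat_lit 4294967295) =
      lk 32 (RR k WL i) (j + 1) := rfl
  have h2 : RR k WL i = ∑ v ∈ range 111, H k WL (i + 1) v * (2 ^ 32) ^ v :=
    rowSum_eq hS hk hi' WL hW
  have h3 : ∀ x y : ℕ, Nat.shiftLeft x (Nat.mul 32 y) = x * (2 ^ 32) ^ y := by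
    intro x y
    have : Nat.shiftLeft x (Nat.mul 32 y) = x <<< (32 * y) := rfl
    rw [this, Nat.shiftLeft_eq, pow_mul]
  rw [h1, lk32, h2, digit (2 ^ 32) (by norm_num) (j + 1) 111 (fun v => H k WL (i + 1) v)
    (fun v => (H_lt hW hw hi' v).trans (by norm_num)) (by omega), h3]

theorem ldF_eq (hS : SpecCls) (hk : k < 111) (hW : ∀ p ∈ WL, p.1 < 60)
    (hw : (WL.map (fun p => p.2)).sum = 60) {j : ℕ} (hj : j < 110) :
    ldF (RR k WL) j = ∑ i ∈ range j, H k WL (j + 1) (i + 1) * (2 ^ 32) ^ i := by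
  have hj' : j + 1 < 111 := by omega
  have h0 : ldF (RR k WL) j = ((RR k WL j) >>> 32) &&& (2 ^ (32 * j) - 1) := rfl
  have h2 : RR k WL j = ∑ v ∈ range 111, H k WL (j + 1) v * (2 ^ 32) ^ v :=
    rowSum_eq hS hk hj' WL hW
  have hlt : ∀ v, H k WL (j + 1) v < 2 ^ 32 :=
    fun v => (H_lt hW hw hj' v).trans (by norm_num)
  have h3 : ∑ v ∈ range 111, H k WL (j + 1) v * (2 ^ 32) ^ v =
      2 ^ 32 * (∑ v ∈ range 110, H k WL (j + 1) (v + 1) * (2 ^ 32) ^ v) + H k WL (j + 1) 0 := by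
    rw [Finset.sum_range_succ' _ 110, Finset.mul_sum, pow_zero, mul_one]
    have e : ∀ v, H k WL (j + 1) (v + 1) * (2 ^ 32) ^ (v + 1) =
        2 ^ 32 * (H k WL (j + 1) (v + 1) * (2 ^ 32) ^ v) := fun v => by
      rw [pow_succ']; exact Nat.mul_left_comm _ _ _
    simp only [e]
  have h4 : ∑ v ∈ range 110, H k WL (j + 1) (v + 1) * (2 ^ 32) ^ v =
      ∑ v ∈ range j, H k WL (j + 1) (v + 1) * (2 ^ 32) ^ v +
      (2 ^ 32) ^ j * ∑ v ∈ range (110 - j), H k WL (j + 1) (j + v + 1) * (2 ^ 32) ^ v := by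
    have h5 : 110 = j + (110 - j) := by omega
    rw [h5, Finset.sum_range_add, Finset.mul_sum]
    have h6 : j + (110 - j) - j = 110 - j := by omega
    rw [h6]
    have e : ∀ v, H k WL (j + 1) (j + v + 1) * (2 ^ 32) ^ (j + v) =
        (2 ^ 32) ^ j * (H k WL (j + 1) (j + v + 1) * (2 ^ 32) ^ v) := fun v => by
      rw [pow_add]; exact Nat.mul_left_comm _ _ _
    simp only [e]
  have h5 := lt_pow (2 ^ 32) (fun v => H k WL (j + 1) (v + 1)) (fun v => hlt _) j
  rw [h0, Nat.and_two_pow_sub_one_eq_mod, Nat.shiftRight_eq_div_pow, h2, h3,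
    Nat.mul_add_div (by norm_num), Nat.div_eq_of_lt (hlt 0), add_zero, h4, pow_mul,
    Nat.add_mul_mod_self_left, Nat.mod_eq_of_lt h5]

theorem F_zero (hS : SpecCls) {f : Gam → ℕ} (hC : Col f) : FC f 0 = 0 := by
  have h1 : cls (rep 0) = 0 := hS.clsrep 0 (by norm_num)
  have h2 : rep 0 = 1 := (hS.zero _).1 h1
  unfold FC
  rw [h2]
  exact (hC.zero 1).2 rfl

theorem fin_sum (hS : SpecCls) {f : Gam → ℕ} (hC : Col f) (g : ℕ → ℕ → ℕ)
    (hg1 : ∀ v, g 0 v = 0) (hg2 : ∀ u, g u 0 = 0) :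
    ∑ i ∈ range 111, ∑ j ∈ range 111, H k WL i j * g (FC f i) (FC f j) =
      ∑ j ∈ range 110, ∑ i ∈ range (j + 1),
        (H k WL (i + 1) (j + 1) * g (FC f (i + 1)) (FC f (j + 1)) +
          if i < j then H k WL (j + 1) (i + 1) * g (FC f (j + 1)) (FC f (i + 1)) else 0) := by
  rw [← tri_sum (fun i j => H k WL (i + 1) (j + 1) * g (FC f (i + 1)) (FC f (j + 1))),
    Finset.sum_range_succ' _ 110]
  have h1 : ∑ j ∈ range 111, H k WL 0 j * g (FC f 0) (FC f j) = 0 := by
    refine Finset.sum_eq_zero (fun j _ => ?_)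
    rw [F_zero hS hC, hg1, mul_zero]
  rw [h1, add_zero]
  refine Finset.sum_congr rfl (fun i _ => ?_)
  rw [Finset.sum_range_succ' _ 110, F_zero hS hC, hg2, mul_zero, add_zero]

end

/-- symmetric weight -/
def gS (s t u v : ℕ) : ℕ := (if u = s ∧ v = t then 1 else 0) + (if u = t ∧ v = s then 1 else 0)

/-- ordered weight -/
def gO (s t u v : ℕ) : ℕ := if u = s ∧ v = t then 1 else 0

theorem gS_symm (s t u v : ℕ) : gS s t u v = gS s t v u := by
  unfold gS
  rw [add_comm]
  exact congrArg₂ (· + ·) (if_congr and_comm rfl rfl) (if_congr and_comm rfl rfl)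

theorem gO_symm (s t u v : ℕ) : gO s t u v = gO t s v u := by
  unfold gO
  exact if_congr and_comm rfl rfl

/-- the checked table L is the symmetrized intersection table of the class k -/
theorem tab_sound (hS : SpecCls) {k X : ℕ} {WL : List (ℕ × ℕ)} {L : List ℕ} (hk : k < 111)
    (hX : chkX k X = true) (hW : chkW X WL = true) (hL : chkL (RR k WL) L = true) :
    TabOK k L := by
  intro f hC s t hs ht
  obtain ⟨w1, w2, _⟩ := W_sound hW
  have hdig : ∀ j, j < 110 → ∀ i, i < j + 1 → lk 32 (nthL 0 L j) i =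
      H k WL (i + 1) (j + 1) + if i < j then H k WL (j + 1) (i + 1) else 0 := by
    intro j hj i hi
    have h1 := Nat.eq_of_beq_eq_true ((allLt_iff _ _).1 hL j hj)
    have h2 : nthL 0 L j = luF (RR k WL) j + ldF (RR k WL) j := h1
    rw [luF_eq hS hk w1 w2 hj, ldF_eq hS hk w1 w2 hj] at h2
    have h3 : ∑ i ∈ range j, H k WL (j + 1) (i + 1) * (2 ^ 32) ^ i =
        ∑ i ∈ range (j + 1), (if i < j then H k WL (j + 1) (i + 1) else 0) * (2 ^ 32) ^ i := by
      rw [Finset.sum_range_succ, if_neg (lt_irrefl j), zero_mul, add_zero]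
      exact Finset.sum_congr rfl (fun i hi => by rw [if_pos (mem_range.1 hi)])
    rw [h3, ← Finset.sum_add_distrib] at h2
    have h4 : ∀ i, H k WL (i + 1) (j + 1) * (2 ^ 32) ^ i +
        (if i < j then H k WL (j + 1) (i + 1) else 0) * (2 ^ 32) ^ i =
        (H k WL (i + 1) (j + 1) + if i < j then H k WL (j + 1) (i + 1) else 0) *
          (2 ^ 32) ^ i := fun i => by rw [add_mul]
    simp only [h4] at h2
    have h5 : ∑ i ∈ range (j + 1), (H k WL (i + 1) (j + 1) +
        if i < j then H k WL (j + 1) (i + 1) else 0) * (2 ^ 32) ^ i =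
        ∑ i ∈ range (j + 1), (if i < j + 1 then (H k WL (i + 1) (j + 1) +
        if i < j then H k WL (j + 1) (i + 1) else 0) else 0) * (2 ^ 32) ^ i :=
      Finset.sum_congr rfl (fun i hi => by rw [if_pos (mem_range.1 hi)])
    rw [h5] at h2
    have hb : ∀ v, (if v < j + 1 then (H k WL (v + 1) (j + 1) +
        if v < j then H k WL (j + 1) (v + 1) else 0) else 0) < 2 ^ 32 := by
      intro v
      by_cases hv : v < j + 1
      · rw [if_pos hv]
        have a1 := H_lt (k := k) w1 w2 (i := v + 1) (by omega) (j + 1)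
        have a2 := H_lt (k := k) w1 w2 (i := j + 1) (by omega) (v + 1)
        split_ifs <;> omega
      · rw [if_neg hv]; norm_num
    rw [lk32, h2, digit (2 ^ 32) (by norm_num) i (j + 1) _ hb hi, if_pos hi]
  have hm := main_H hS hC (gS s t) hk hX hW (Or.inr (gS_symm s t))
  rw [fin_sum hS hC (gS s t)] at hm
  · have hL1 : cnt f s t (rep k) + cnt f t s (rep k) =
        ∑ z : Gam, gS s t (f z) (f (z⁻¹ * rep k)) := by
      unfold gS
      rw [Finset.sum_add_distrib, cnt, cnt, Finset.card_filter, Finset.card_filter]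
    rw [hL1, hm]
    refine Finset.sum_congr rfl (fun j hj => Finset.sum_congr rfl (fun i hi => ?_))
    rw [hdig j (mem_range.1 hj) i (mem_range.1 hi), add_mul]
    have e1 : mono (FC f) s t (i + 1) (j + 1) = gS s t (FC f (i + 1)) (FC f (j + 1)) := rfl
    rw [e1]
    by_cases h : i < j
    · rw [if_pos h, if_pos h, gS_symm s t (FC f (j + 1))]
    · rw [if_neg h, if_neg h, zero_mul]
  · intro v
    unfold gS
    rw [if_neg (fun h => hs h.1.symm), if_neg (fun h => ht h.1.symm)]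
  · intro v
    unfold gS
    rw [if_neg (fun h => ht h.2.symm), if_neg (fun h => hs h.2.symm)]

theorem chkL_of_chkL2 {R : ℕ → ℕ} {L LU LD : List ℕ} (h : chkL2 R LU LD = true)
    (h' : allLt 110 (fun j => Nat.beq (nthL 0 L j) (Nat.add (nthL 0 LU j) (nthL 0 LD j))) =
      true) : chkL R L = true := by
  unfold chkL
  rw [allLt_iff]
  intro j hj
  have h1 := (allLt_iff _ _).1 h j hj
  rw [Bool.and_eq_true] at h1
  have h2 := (allLt_iff _ _).1 h' j hj
  rw [Nat.eq_of_beq_eq_true h1.1, Nat.eq_of_beq_eq_true h1.2] at h2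
  exact h2

/-- the checked tables LU, LD are the intersection table of the class k -/
theorem tab_sound2 (hS : SpecCls) {k X : ℕ} {WL : List (ℕ × ℕ)} {LU LD : List ℕ} (hk : k < 111)
    (hX : chkX k X = true) (hK : chkK X = true) (hW : chkW X WL = true)
    (hL : chkL2 (RR k WL) LU LD = true) : TabOK2 k LU LD := by
  intro f hC s t hs ht
  obtain ⟨w1, w2, _⟩ := W_sound hW
  have hdU : ∀ j, j < 110 → ∀ i, i < j + 1 → lk 32 (nthL 0 LU j) i =
      H k WL (i + 1) (j + 1) := by
    intro j hj i hi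
    have h1 := (allLt_iff _ _).1 hL j hj
    rw [Bool.and_eq_true] at h1
    have h2 : nthL 0 LU j = luF (RR k WL) j := Nat.eq_of_beq_eq_true h1.1
    rw [luF_eq hS hk w1 w2 hj] at h2
    have h5 : ∑ i ∈ range (j + 1), H k WL (i + 1) (j + 1) * (2 ^ 32) ^ i =
        ∑ i ∈ range (j + 1), (if i < j + 1 then H k WL (i + 1) (j + 1) else 0) *
          (2 ^ 32) ^ i :=
      Finset.sum_congr rfl (fun i hi => by rw [if_pos (mem_range.1 hi)])
    rw [h5] at h2
    have hb : ∀ v, (if v < j + 1 then H k WL (v + 1) (j + 1) else 0) < 2 ^ 32 := by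
      intro v
      by_cases hv : v < j + 1
      · rw [if_pos hv]
        exact (H_lt (k := k) w1 w2 (i := v + 1) (by omega) (j + 1)).trans (by norm_num)
      · rw [if_neg hv]; norm_num
    rw [lk32, h2, digit (2 ^ 32) (by norm_num) i (j + 1) _ hb hi, if_pos hi]
  have hdD : ∀ j, j < 110 → ∀ i, i < j + 1 → lk 32 (nthL 0 LD j) i =
      if i < j then H k WL (j + 1) (i + 1) else 0 := by
    intro j hj i hi
    have h1 := (allLt_iff _ _).1 hL j hj
    rw [Bool.and_eq_true] at h1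
    have h2 : nthL 0 LD j = ldF (RR k WL) j := Nat.eq_of_beq_eq_true h1.2
    rw [ldF_eq hS hk w1 w2 hj] at h2
    have h3 : ∑ i ∈ range j, H k WL (j + 1) (i + 1) * (2 ^ 32) ^ i =
        ∑ i ∈ range (j + 1), (if i < j then H k WL (j + 1) (i + 1) else 0) * (2 ^ 32) ^ i := by
      rw [Finset.sum_range_succ, if_neg (lt_irrefl j), zero_mul, add_zero]
      exact Finset.sum_congr rfl (fun i hi => by rw [if_pos (mem_range.1 hi)])
    rw [h3] at h2
    have hb : ∀ v, (if v < j then H k WL (j + 1) (v + 1) else 0) < 2 ^ 32 := by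
      intro v
      by_cases hv : v < j
      · rw [if_pos hv]
        exact (H_lt (k := k) w1 w2 (i := j + 1) (by omega) (v + 1)).trans (by norm_num)
      · rw [if_neg hv]; norm_num
    rw [lk32, h2, digit (2 ^ 32) (by norm_num) i (j + 1) _ hb hi]
  have hm := main_H hS hC (gO s t) hk hX hW (Or.inl hK)
  rw [fin_sum hS hC (gO s t)] at hm
  · have hL1 : cnt f s t (rep k) =
        ∑ z : Gam, gO s t (f z) (f (z⁻¹ * rep k)) := by
      unfold gO
      rw [cnt, Finset.card_filter]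
    rw [hL1, hm]
    refine Finset.sum_congr rfl (fun j hj => Finset.sum_congr rfl (fun i hi => ?_))
    rw [hdU j (mem_range.1 hj) i (mem_range.1 hi), hdD j (mem_range.1 hj) i (mem_range.1 hi)]
    have e1 : (if FC f (i + 1) = s ∧ FC f (j + 1) = t then 1 else 0) =
      gO s t (FC f (i + 1)) (FC f (j + 1)) := rfl
    have e2 : (if FC f (i + 1) = t ∧ FC f (j + 1) = s then 1 else 0) =
      gO t s (FC f (i + 1)) (FC f (j + 1)) := rfl
    rw [e1, e2]
    by_cases h : i < j
    · rw [if_pos h, if_pos h, gO_symm s t (FC f (j + 1))]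
    · rw [if_neg h, if_neg h, zero_mul]
  · intro v
    unfold gO
    rw [if_neg (fun h => hs h.1.symm)]
  · intro v
    unfold gO
    rw [if_neg (fun h => ht h.2.symm)]

end TabM
end MP26f323
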